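import Pool.Agent.P.MP_2ce3e7_ag.Defs

/-! Dimension of a module and the number of points. -/

set_option autoImplicit false

noncomputable section

namespace Pool.Agent.Tate

/-- The dimension of the support: the degree of the Hilbert polynomial. -/
def dimM {m : ℕ} {k ι : Type} [Field k] (M : GM m k ι) : ℕ :=
  (hp fun t => Module.finrank k (LinearMap.range (M.π fun _ => (t : ℤ)))).natDegree

/-- The number of points over `F` of the `n`-th power of the Fermat curve of degree `m`. -/
def npts (m n : ℕ) (F : Type) [Field F] : ℕ :=
  Nat.card {x : Fin n → Projectivization F (Fin 3 → F) //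
    ∀ i, (x i).rep 0 ^ m + (x i).rep 1 ^ m = (x i).rep 2 ^ m}

/-- The rank of a matrix of rational numbers. -/
def rk {A B : Type 1} (f : A → B → ℚ) : Cardinal := Module.rank ℚ (Submodule.span ℚ (Set.range f))

end Pool.Agent.Tate
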