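import Pool.Agent.P.MP_2ce3e7_ag.DS0

/-! Configurations of flags for the classical groups. -/

namespace Pool.Agent.CXD

open Matrix

variable {N d m : ℕ} {n : Fin N → ℕ}

/-- Chains of flags whose last member is related to the Frobenius twist of the first.  The factors
in `U` are unitary, the flags of the other factors are isotropic for the bilinear form `J b` and
singular for the quadratic form `K b`. -/
structure Cfs {Ω : Type} [Field Ω] (q : ℕ) {δ : Ix N d m → ℕ} (U : Set (Fin N))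
    (J K : ∀ b, Matrix (Fin (n b)) (Fin (n b)) Ω) (E : Ix N d m → Set (Fin m))
    (u : ∀ s : Ix N d m, Matrix (Fin (n s.1)) (Fin (δ s)) Ω) : Prop where
  flag : ∀ b c i j, i ≤ j → Sb (u (b, c, j)) (u (b, c, i))
  step : ∀ b (c : Fin d) i, ∀ j ∈ E (b, c.castSucc, i), Sb (u (b, c.castSucc, i)) (u (b, c.succ, j))
  uni : ∀ b ∈ U, ∀ i, ∀ j ∈ E (b, Fin.last d, i), Pp q (u (b, Fin.last d, i)) (u (b, 0, j))
  frob : ∀ b ∉ U, ∀ i, ∀ j ∈ E (b, Fin.last d, i),
    Sb (u (b, Fin.last d, i)) ((u (b, 0, j)).map (· ^ q))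
  iso : ∀ b ∉ U, ∀ c i, (u (b, c, i))ᵀ * J b * u (b, c, i) = 0
  sing : ∀ b ∉ U, ∀ c i x, (u (b, c, i) *ᵥ x) ⬝ᵥ K b *ᵥ (u (b, c, i) *ᵥ x) = 0

/-- The cone over the variety of configurations in the Plücker–Segre embedding. -/
def cns {Ω : Type} [Field Ω] (q : ℕ) (δ : Ix N d m → ℕ) (U : Set (Fin N))
    (J K : ∀ b, Matrix (Fin (n b)) (Fin (n b)) Ω) (E : Ix N d m → Set (Fin m)) :
    Set ((∀ s : Ix N d m, Fin (δ s) → Fin (n s.1)) → Ω) :=
  {z | ∃ (t : Ω) (u : ∀ s : Ix N d m, Matrix (Fin (n s.1)) (Fin (δ s)) Ω), Cfs q U J K E u ∧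
    ∀ I, z I = t * ∏ s, ((u s).submatrix (I s) id).det}

/-- The ideal of the cone. -/
noncomputable def sI {k : Type} [Field k] (q : ℕ) (δ : Ix N d m → ℕ) (U : Set (Fin N))
    (J K : ∀ b, Matrix (Fin (n b)) (Fin (n b)) k) (E : Ix N d m → Set (Fin m)) :
    Ideal (MvPolynomial (∀ s : Ix N d m, Fin (δ s) → Fin (n s.1)) k) :=
  MvPolynomial.vanishingIdeal k
    (cns q δ U (fun b => (J b).map (algebraMap k (AlgebraicClosure k)))
      (fun b => (K b).map (algebraMap k (AlgebraicClosure k))) E)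

/-- The admissible data.  A factor that is not unitary has flags with the dimensions `1, …, r`, at
most one dimension `w` moves at each place of the chain, and the group is linear, symplectic or
orthogonal. -/
structure Cla {k : Type} [Field k] (q : ℕ) (δ : Ix N d m → ℕ) (U : Set (Fin N))
    (J K : ∀ b, Matrix (Fin (n b)) (Fin (n b)) k) (E : Ix N d m → Set (Fin m)) : Prop where
  mono : ∀ b c, Monotone fun i => δ (b, c, i)
  le : ∀ s, δ s ≤ n s.1
  cls : ∀ b ∉ U, ∃ r ≤ m, (∀ c i, δ (b, c, i) = min (i.val + 1) r) ∧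
    (∀ c, ∃ w, ∀ i j, j ∈ E (b, c, i) ↔ j = i ∧ δ (b, c, i) ≠ w) ∧
    (J b).map (· ^ q) = J b ∧ (K b).map (· ^ q) = K b ∧
    (K b = 0 ∧ (J b = 0 ∨ (J b).det ≠ 0 ∧ ∀ x, x ⬝ᵥ J b *ᵥ x = 0) ∨
      J b = 0 ∧ ∀ x, (K b + (K b)ᵀ) *ᵥ x = 0 → x ⬝ᵥ K b *ᵥ x = 0 → x = 0)

end Pool.Agent.CXD
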