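import Pool.Agent.P.MP_2ce3e7_ag.Core
import Pool.Agent.P.MP_2ce3e7_ag.Prod
import Pool.Agent.P.MP_e12fcd_ag.Ferm.FSurf

/-! Definitions for the analytic part. -/

set_option autoImplicit false

noncomputable section

namespace Pool.Agent.Tate

open Set Module Filter Topology Pool.Agent.Weil Pool.Agent.Ferm

/-- universal cover of the power of the Jacobian -/
abbrev VS (m : ℕ) (ι : Type) : Type := ι → FIdx m → ℂ

/-- the period lattice -/
def LL (m : ℕ) (ι : Type) : AddSubgroup (VS m ι) :=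
  AddSubgroup.pi univ fun _ => (ferLat m).toAddSubgroup

theorem isLat_LL (m : ℕ) [NeZero m] (ι : Type) [Fintype ι] : IsLat (LL m ι) :=
  (isLat_ferLat m).pi

/-- index set of the eigen-covectors -/
abbrev IX (m : ℕ) (ι : Type) : Type := ι × {a : Ch m // Nd a}

/-- the power of the curve -/
abbrev XS (m : ℕ) [NeZero m] (ι : Type) : Type := ι → (ferD m).Sp

/-- the chart domain -/
def Om (m : ℕ) (ι : Type) : Set (ι → ℂ) := {u | ∀ l, u l ∈ FΩ m}

variable {m : ℕ} [NeZero m] {ι : Type}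

/-- eigen-covectors -/
def cov [Fintype ι] (i : ι) (a : Ch m) : Cov (VS m ι) :=
  pull (ContinuousLinearMap.proj i : VS m ι →L[ℂ] FIdx m → ℂ) (xi a.1 a.2)

/-- the linear action of the group -/
def dgs (g : ι → Ch m) : VS m ι →L[ℂ] VS m ι :=
  ContinuousLinearMap.pi fun l => (dg m (g l).1 (g l).2).comp (ContinuousLinearMap.proj l)

/-- the standard root of unity -/
def w0 (m : ℕ) [NeZero m] : Rt m ℂ := ⟨zt m, zt_prim (NeZero.ne m)⟩

/-- the action on homogeneous coordinates -/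
def gs (g : ι → Ch m) (w : ι × Fin 3 → ℂ) : ι × Fin 3 → ℂ := c3 (w0 m) (up g) * w

/-- the action on the power of the curve -/
def act (g : ι → Ch m) (x : XS m ι) : XS m ι :=
  fun l => (Multiplicative.ofAdd (g l) : FG m) • x l

/-- the point with coordinates `u` in the chart `j` -/
def xp (j : ι → FI m) (u : ι → ℂ) : XS m ι := fun l => (ferD m).pt (j l) (u l)

/-- parametrisation of the cone -/
def cn (j : ι → FI m) (u l : ι → ℂ) : ι × Fin 3 → ℂ := fun v => l v.1 * FP m (j v.1) (u v.1) v.2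

/-- its differential -/
def dcn (j : ι → FI m) (u l du dl : ι → ℂ) : ι × Fin 3 → ℂ := fun v =>
  dl v.1 * FP m (j v.1) (u v.1) v.2 + l v.1 * du v.1 * deriv (fun z => FP m (j v.1) z v.2) (u v.1)

/-- `w` is a vector of homogeneous coordinates of `x` -/
def Ov (x : XS m ι) (w : ι × Fin 3 → ℂ) : Prop :=
  ∃ j, ∃ u ∈ Om m ι, ∃ l : ι → ℂ, (∀ i, l i ≠ 0) ∧ x = xp j u ∧ w = cn j u l

/-- the Abel-Jacobi map in the charts of the curve -/
structure CD (m : ℕ) [NeZero m] where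
  G : FI m → ℂ → FIdx m → ℂ
  D : FI m → ℂ → FIdx m → ℂ
  κ : Ch m → FIdx m → ℂ
  an : ∀ i, AnalyticOnNhd ℂ (G i) (FΩ m)
  der : ∀ i, ∀ u ∈ FΩ m, HasDerivAt (G i) (D i u) u
  rel : ∀ i z j w, Frel m i z j w → G i z - G j w ∈ ferLat m
  compat : ∀ i j z (T : ℂ → ℂ), AnalyticAt ℂ T z → (∀ᶠ z' in 𝓝 z, Frel m i z' j (T z')) →
    D i z = deriv T z • D j (T z)
  actG : ∀ (g : Ch m) (i : FI m), ∀ u ∈ FΩ m,
    G (i.1, g + i.2) u - (dg m g.1 g.2 (G i u) + κ g) ∈ ferLat m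
  actD : ∀ (g : Ch m) (i : FI m) u, D (i.1, g + i.2) u = dg m g.1 g.2 (D i u)
  ne : ∀ p, ∃ i, ∃ u ∈ FΩ m, D i u p ≠ 0

namespace CD
variable (D : CD m)

/-- the map in a chart of the power -/
def GG (j : ι → FI m) (u : ι → ℂ) : VS m ι := fun l => D.G (j l) (u l)

/-- its differential -/
def DD (j : ι → FI m) (u du : ι → ℂ) : VS m ι := fun l => du l • D.D (j l) (u l)

/-- the translation part of the action -/
def kap (g : ι → Ch m) : VS m ι := fun l => D.κ (g l)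

/-- the Abel-Jacobi map -/
def Φ (x : XS m ι) : VS m ι ⧸ LL m ι :=
  QuotientAddGroup.mk (D.GG (fun l => (ferD m).atl.ch (x l))
    fun l => (ferD m).atl.e ((ferD m).atl.ch (x l)) (x l))

/-- `θ` is the image of the tangent vector `v` at `w` -/
def TG (w v : ι × Fin 3 → ℂ) (θ : VS m ι) : Prop :=
  ∃ j, ∃ u ∈ Om m ι, ∃ l du dl : ι → ℂ, (∀ i, l i ≠ 0) ∧ w = cn j u l ∧ v = dcn j u l du dl ∧
    θ = D.DD j u du

variable [Fintype ι] {P : Type} [NormedAddCommGroup P] [NormedSpace ℂ P]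
  (c : Chain (VS m ι) (LL m ι) P) (t : VS m ι)

/-- the point `w` lies on the translate of the chain -/
def Hit (w : ι × Fin 3 → ℂ) : Prop :=
  ∃ x z, Ov x w ∧ c.F z = D.Φ x - QuotientAddGroup.mk t

/-- `θ` is tangent to a branch of the translate of the chain through `w` -/
def TH (w : ι × Fin 3 → ℂ) (θ : VS m ι) : Prop :=
  ∃ x j, ∃ y ∈ c.U j, Ov x w ∧ QuotientAddGroup.mk (c.φ j y) = D.Φ x - QuotientAddGroup.mk t ∧
    ∃ dy, θ = fderiv ℂ (c.φ j) y dy

/-- `J` is the ideal of the slice at `t`, up to the exceptional set `B` -/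
structure Slc (d : ℕ) (J : Ideal (S ℂ ι)) (B : Set (ι × Fin 3 → ℂ)) : Prop where
  gr : GrI J
  fer : Fer m ℂ ι ≤ J
  closed : IsClosed B
  inv : ∀ l : ι → ℂ, (∀ i, l i ≠ 0) → ∀ w ∈ B, tsm l w ∈ B
  thin : Thin (d + Fintype.card ι) B
  hit : ∀ w ∈ ZS J, Nz w → D.Hit c t w
  good : ∀ w, D.Hit c t w → w ∉ B → w ∈ ZS J ∧ LocGen J (2 * Fintype.card ι - d) w ∧
    ∀ v ∈ Tan J w, ∃ θ, D.TG w v θ ∧ D.TH c t w θ

end CD

/-- a compact family of points of the power of the curve with charts of dimension `d` -/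
structure CC (m : ℕ) [NeZero m] (ι : Type) [Fintype ι] (d : ℕ) where
  Z : Type
  [top : TopologicalSpace Z]
  [cpt : CompactSpace Z]
  [t2 : T2Space Z]
  π : Z → XS m ι
  cont : Continuous π
  J : Type
  [cnt : Countable J]
  U : J → Set (Fin d → ℂ)
  e : J → (Fin d → ℂ) → Z
  chart : ∀ a, IsChart (e a) (U a)
  j : J → ι → FI m
  u : J → (Fin d → ℂ) → ι → ℂ
  an : ∀ a, AnalyticOnNhd ℂ (u a) (U a)
  mem : ∀ a, ∀ y ∈ U a, u a y ∈ Om m ι
  lift : ∀ a, ∀ y ∈ U a, π (e a y) = xp (j a) (u a y)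
  imm : ∀ a, ∀ y ∈ U a, Function.Injective (fderiv ℂ (u a) y)
  thin : ∀ i : ι → FI m, Thin d {v | v ∈ Om m ι ∧ ∃ z, (∀ a, z ∉ e a '' U a) ∧ π z = xp i v}

attribute [instance] CC.top CC.cpt CC.t2 CC.cnt

/-- the cone over the charted part -/
def CC.gd [Fintype ι] {d : ℕ} (c : CC m ι d) : Set (ι × Fin 3 → ℂ) :=
  {w | ∃ a, ∃ y ∈ c.U a, ∃ l : ι → ℂ, (∀ i, l i ≠ 0) ∧ w = cn (c.j a) (c.u a y) l}

/-- the three projections -/
def p1 : VS m ι × VS m ι × VS m ι →L[ℂ] VS m ι := ContinuousLinearMap.fst ℂ _ _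

/-- the three projections -/
def p2 : VS m ι × VS m ι × VS m ι →L[ℂ] VS m ι :=
  (ContinuousLinearMap.fst ℂ _ _).comp (ContinuousLinearMap.snd ℂ _ _)

/-- the three projections -/
def p3 : VS m ι × VS m ι × VS m ι →L[ℂ] VS m ι :=
  (ContinuousLinearMap.snd ℂ _ _).comp (ContinuousLinearMap.snd ℂ _ _)

/-- the difference map -/
def q3 (g g' : ι → Ch m) : VS m ι × VS m ι × VS m ι →L[ℂ] VS m ι × VS m ι :=
  ContinuousLinearMap.prod ((dgs g).comp p1 - p2) ((dgs g').comp p1 - p3)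

/-- a basis of the covectors of the square -/
def zeta [Fintype ι] : IX m ι ⊕ IX m ι → Cov (VS m ι × VS m ι) :=
  Sum.elim (fun j => pull (ContinuousLinearMap.fst ℂ _ _) (cov j.1 j.2.1))
    fun j => pull (ContinuousLinearMap.snd ℂ _ _) (cov j.1 j.2.1)

end Pool.Agent.Tate
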