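import Mathlib

/-! Coherent sheaves on a projective scheme, in terms of graded modules. -/

namespace Pool.Agent.CXD

open Function Filter
open scoped TensorProduct

/-- Graded modules: `π d` is the projection onto the part of degree `d`, and `𝒜 c` consists of
elements of degree `c` of the ring. -/
structure GM {A Γ : Type} [CommRing A] [AddCommGroup Γ] (𝒜 : Γ → Set A) where
  M : Type
  [acg : AddCommGroup M]
  [mod : Module A M]
  π : Γ → M →+ M
  π_self : ∀ d x, π d (π d x) = π d x
  π_ne : ∀ d e x, d ≠ e → π d (π e x) = 0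
  sum_π : ∀ x, ∃ s : Finset Γ, ∑ d ∈ s, π d x = x
  π_smul : ∀ c d, ∀ a ∈ 𝒜 c, ∀ x, π (c + d) (a • x) = a • π d x

attribute [instance] GM.acg GM.mod

/-- Short exact sequences. -/
def Sx {A M N P : Type} [CommRing A] [AddCommGroup M] [Module A M] [AddCommGroup N] [Module A N]
    [AddCommGroup P] [Module A P] (f : M →ₗ[A] N) (g : N →ₗ[A] P) : Prop :=
  Injective f ∧ Surjective g ∧ Exact f g

/-- The dimension of the span of `S` over the field `k`. -/
noncomputable def dimK (k A : Type) [Field k] [CommRing A] [Algebra k A] {M : Type}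
    [AddCommGroup M] [Module A M] (S : Set M) : ℕ :=
  letI := Module.compHom M (algebraMap k A)
  Module.finrank k (Submodule.span k S)

section
variable {A Γ : Type} [CommRing A] [AddCommGroup Γ] {𝒜 : Γ → Set A}

/-- Finitely generated graded modules. -/
def FGM (𝒜 : Γ → Set A) : Type 1 := {M : GM 𝒜 // Module.Finite A M.M}

/-- Homomorphisms of degree zero. -/
def IsG {M N : GM 𝒜} (f : M.M →ₗ[A] N.M) : Prop := ∀ d x, f (M.π d x) = N.π d (f x)

/-- There is a short exact sequence `0 → M → N → P → 0` of graded modules. -/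
def Ses (M N P : GM 𝒜) : Prop :=
  ∃ (f : M.M →ₗ[A] N.M) (g : N.M →ₗ[A] P.M), IsG f ∧ IsG g ∧ Sx f g

end

section
variable {A : Type} [CommRing A] {𝒜 : ℤ → Set A}

/-- The module vanishes in large degrees, so that its sheaf is zero. -/
def Tors (M : GM 𝒜) : Prop := ∀ᶠ d in atTop, M.π d = 0

/-- The relations that define the Grothendieck group of coherent sheaves on `Proj A`. -/
def rels (𝒜 : ℤ → Set A) : AddSubgroup (FreeAbelianGroup (FGM 𝒜)) :=
  AddSubgroup.closure {z | (∃ M N P : FGM 𝒜, Ses M.1 N.1 P.1 ∧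
      z = FreeAbelianGroup.of N - FreeAbelianGroup.of M - FreeAbelianGroup.of P) ∨
    ∃ M : FGM 𝒜, Tors M.1 ∧ z = FreeAbelianGroup.of M}

/-- The sheaf of `V` is locally free on the open sets `z i ≠ 0`. -/
def LF {σ : Type} (z : σ → A) (V : GM 𝒜) : Prop :=
  ∀ i, Module.Projective (Localization (Submonoid.powers (z i)))
    (LocalizedModule (Submonoid.powers (z i)) V.M)

/-- Generators of the part of degree `t` of `N ⊗ V`. -/
def tpc (N V : GM 𝒜) (t : ℤ) : Set (N.M ⊗[A] V.M) := {x | ∃ a y v, x = N.π a y ⊗ₜ V.π (t - a) v}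

/-- The polynomial that agrees with `f` for large arguments. -/
noncomputable def hp (f : ℤ → ℚ) : Polynomial ℚ :=
  Classical.epsilon fun p => ∀ᶠ t : ℤ in atTop, f t = p.eval (t : ℚ)

/-- The Euler characteristic of the sheaf of `N ⊗ V`: the value at `0` of the Hilbert
polynomial. -/
noncomputable def pair (k : Type) [Field k] [Algebra k A] (N V : GM 𝒜) : ℚ :=
  (hp fun t => dimK k A (tpc N V t)).eval 0

/-- The classes of vector bundles. -/
def vb {σ : Type} (𝒜 : ℤ → Set A) (z : σ → A) : AddSubgroup (FreeAbelianGroup (FGM 𝒜)) :=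
  AddSubgroup.closure {y | ∃ V : FGM 𝒜, LF z V.1 ∧ y = FreeAbelianGroup.of V}

/-- Numerically trivial combinations of vector bundles are torsion. -/
def NumTors (k : Type) [Field k] [Algebra k A] {σ : Type} (𝒜 : ℤ → Set A) (z : σ → A) : Prop :=
  ∀ x ∈ vb 𝒜 z, (∀ N : FGM 𝒜, FreeAbelianGroup.lift (fun V : FGM 𝒜 => pair k N.1 V.1) x = 0) →
    ∃ c : ℕ, 0 < c ∧ c • x ∈ rels 𝒜

end

open MvPolynomial

/-- The images of the forms of degree `c`. -/
def hom {σ k : Type} [CommRing k] (J : Ideal (MvPolynomial σ k)) (c : ℤ) :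
    Set (MvPolynomial σ k ⧸ J) :=
  {y | ∃ (m : ℕ) (f : MvPolynomial σ k), (m : ℤ) = c ∧ f.IsHomogeneous m ∧
    Ideal.Quotient.mk J f = y}

/-- The homogeneous coordinates. -/
noncomputable def crd {σ k : Type} [CommRing k] (J : Ideal (MvPolynomial σ k)) (i : σ) :
    MvPolynomial σ k ⧸ J := Ideal.Quotient.mk J (X i)

variable {k : Type} [CommRing k] {n : ℕ}

/-- The equations `∑ u a r * G r s * u b s ^ q = 0` for a generic `d × n` matrix `u`. -/
noncomputable def isoI (G : Matrix (Fin n) (Fin n) k) (q d : ℕ) :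
    Ideal (MvPolynomial (Fin d × Fin n) k) :=
  Ideal.span {y | ∃ a b : Fin d, y = ∑ r, ∑ s, X (a, r) * C (G r s) * X (b, s) ^ q}

/-- The relations between the maximal minors of `u` modulo these equations. -/
noncomputable def plI (G : Matrix (Fin n) (Fin n) k) (q d : ℕ) :
    Ideal (MvPolynomial (Fin d → Fin n) k) :=
  (isoI G q d).comap (aeval (R := k) fun I : Fin d → Fin n =>
    (Matrix.of fun a b : Fin d => (X (a, I b) : MvPolynomial (Fin d × Fin n) k)).det)

end Pool.Agent.CXD
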