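import Pool.Agent.P.MP_2ce3e7_ag.AffA

/-! Eventually multi-affine functions. -/

set_option autoImplicit false

noncomputable section

namespace Pool.Agent.Tate

open Filter

variable {I V : Type*} [Fintype I] [DecidableEq I] [AddCommGroup V] [Module ℂ V]
  {h h' : (I → ℤ) → V} {c c' : Finset I → V}

theorem Aff.scale (a : Aff h c) (q : I → ℕ) (hq : ∀ l, 0 < q l) :
    Aff (fun d => h fun l => q l * d l) fun T => (∏ l ∈ T, (q l : ℂ)) • c T := by
  obtain ⟨d0, hd0⟩ := eventually_atTop.1 a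
  refine eventually_atTop.2 ⟨fun l => |d0 l|, fun d hd => ?_⟩
  have hge : d0 ≤ fun l => (q l : ℤ) * d l := by
    intro l
    have h1 : |d0 l| ≤ d l := hd l
    have h2 : (1 : ℤ) ≤ q l := by exact_mod_cast hq l
    have h3 : 0 ≤ d l := (abs_nonneg _).trans h1
    have h4 : d0 l ≤ d l := (le_abs_self _).trans h1
    have h5 : d l ≤ (q l : ℤ) * d l := le_mul_of_one_le_left h3 h2
    exact h4.trans h5
  show h _ = _
  rw [hd0 _ hge]
  refine Finset.sum_congr rfl fun T _ => ?_
  rw [smul_smul, ← Finset.prod_mul_distrib]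
  have : (∏ l ∈ T, (((q l : ℤ) * d l : ℤ) : ℂ)) = ∏ l ∈ T, ((d l : ℂ) * (q l : ℂ)) :=
    Finset.prod_congr rfl fun l _ => by push_cast; ring
  rw [this]

theorem Aff.reindex {I' : Type*} [Fintype I'] (a : Aff h c) (e : I' ≃ I) :
    Aff (fun d : I' → ℤ => h (d ∘ e.symm)) fun T => c (T.map e.toEmbedding) := by
  obtain ⟨d0, hd0⟩ := eventually_atTop.1 a
  refine eventually_atTop.2 ⟨d0 ∘ e, fun d hd => ?_⟩
  have hge : d0 ≤ d ∘ e.symm := by
    intro l
    have h1 := hd (e.symm l)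
    simpa using h1
  show h _ = _
  rw [hd0 _ hge]
  refine (Fintype.sum_equiv e.finsetCongr _ _ fun T => ?_).symm
  rw [Equiv.finsetCongr_apply, Finset.prod_map]
  simp

theorem Aff.prod {I' : Type*} [Fintype I'] [DecidableEq I'] {g : (I → ℤ) → ℂ} {b : Finset I → ℂ}
    {g' : (I' → ℤ) → ℂ} {b' : Finset I' → ℂ} (a : Aff g b) (a' : Aff g' b') :
    Aff (fun d : I ⊕ I' → ℤ => g (d ∘ Sum.inl) * g' (d ∘ Sum.inr))
      fun T => b T.toLeft * b' T.toRight := by
  obtain ⟨d0, hd0⟩ := eventually_atTop.1 a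
  obtain ⟨d1, hd1⟩ := eventually_atTop.1 a'
  refine eventually_atTop.2 ⟨Sum.elim d0 d1, fun d hd => ?_⟩
  have h0 : d0 ≤ d ∘ Sum.inl := fun l => hd (Sum.inl l)
  have h1 : d1 ≤ d ∘ Sum.inr := fun l => hd (Sum.inr l)
  show g _ * g' _ = _
  rw [hd0 _ h0, hd1 _ h1, Finset.sum_mul_sum, ← Fintype.sum_prod_type']
  refine (Fintype.sum_equiv Finset.sumEquiv.toEquiv _ _ fun T => ?_).symm
  rw [Finset.prod_sum_eq_prod_toLeft_mul_prod_toRight]
  simp only [smul_eq_mul, Function.comp_apply]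
  show _ = (∏ l ∈ T.toLeft, (d (Sum.inl l) : ℂ)) * b T.toLeft *
    ((∏ l ∈ T.toRight, (d (Sum.inr l) : ℂ)) * b' T.toRight)
  ring

/-- the coefficients of an integer valued function are rational -/
theorem Aff.exists_rat {n : (I → ℤ) → ℕ} {b : Finset I → ℂ} (a : Aff (fun d => (n d : ℂ)) b) :
    ∃ r : Finset I → ℚ, (∀ T, b T = r T) ∧
      ∀ᶠ d in atTop, (n d : ℚ) = ∑ T : Finset I, (∏ l ∈ T, (d l : ℚ)) * r T := by
  obtain ⟨ρ, hρ⟩ := (Algebra.linearMap ℚ ℂ).exists_leftInverse_of_injective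
    (LinearMap.ker_eq_bot.2 (algebraMap ℚ ℂ).injective)
  have hρ1 : ∀ x : ℚ, ρ (x : ℂ) = x := fun x => by
    have := LinearMap.congr_fun hρ x
    simpa using this
  have key : ∀ᶠ d in atTop, (n d : ℚ) = ∑ T : Finset I, (∏ l ∈ T, (d l : ℚ)) * ρ (b T) := by
    filter_upwards [a] with d hd
    have h1 : ρ ((n d : ℕ) : ℂ) = (n d : ℚ) := by
      rw [← hρ1 (n d : ℚ), Rat.cast_natCast]
    rw [← h1, hd, map_sum]
    refine Finset.sum_congr rfl fun T _ => ?_
    have h2 : (∏ l ∈ T, (d l : ℂ)) • b T = (∏ l ∈ T, (d l : ℚ)) • b T := by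
      rw [Rat.smul_def, smul_eq_mul]
      push_cast
      rfl
    rw [h2, map_smul, smul_eq_mul]
  have a' : Aff (fun d => (n d : ℂ)) fun T => ((ρ (b T) : ℚ) : ℂ) := by
    filter_upwards [key] with d hd
    have h1 : ((n d : ℕ) : ℂ) = ((n d : ℚ) : ℂ) := (Rat.cast_natCast _).symm
    rw [h1, hd]
    push_cast
    rfl
  exact ⟨fun T => ρ (b T), fun T => congrFun (a.uniq a') T, key⟩

/-- an eventually nonnegative polynomial has a nonnegative top coefficient -/
theorem Aff.coeff_nonneg (P : Polynomial ℚ) (j : ℕ) (hP : P.natDegree ≤ j)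
    (h0 : ∀ᶠ t : ℕ in atTop, 0 ≤ P.eval (t : ℚ)) : 0 ≤ P.coeff j := by
  by_contra hneg
  have hlt : P.coeff j < 0 := not_le.1 hneg
  have hdeg : P.natDegree = j := le_antisymm hP (Polynomial.le_natDegree_of_ne_zero hlt.ne)
  rcases Nat.eq_zero_or_pos j with hj | hj
  · obtain ⟨t, ht⟩ := h0.exists
    subst hj
    rw [Polynomial.eq_C_of_natDegree_eq_zero hdeg, Polynomial.eval_C] at ht
    exact absurd ht (not_le.2 hlt)
  · have hd : 0 < P.degree := Polynomial.natDegree_pos_iff_degree_pos.1 (hdeg ▸ hj)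
    have hl : P.leadingCoeff ≤ 0 := by
      rw [Polynomial.leadingCoeff, hdeg]; exact hlt.le
    have ht := (P.tendsto_atBot_of_leadingCoeff_nonpos hd hl).comp
      (tendsto_natCast_atTop_atTop (R := ℚ))
    obtain ⟨t, ht1, ht2⟩ := (h0.and (ht.eventually (eventually_lt_atBot 0))).exists
    exact absurd ht1 (not_le.2 ht2)

/-- nonnegativity for rational coefficients -/
theorem Aff.nonneg_rat {n : (I → ℤ) → ℕ} {r : Finset I → ℚ}
    (a : ∀ᶠ d in atTop, (n d : ℚ) = ∑ T : Finset I, (∏ l ∈ T, (d l : ℚ)) * r T) {j : ℕ}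
    (hj : ∀ T, j < T.card → r T = 0) (T : Finset I) (hT : T.card = j) : 0 ≤ r T := by
  obtain ⟨d0, hd0⟩ := eventually_atTop.1 a
  obtain ⟨P, hP⟩ : ∃ P : Polynomial ℚ, P = ∑ U : Finset I,
      Polynomial.C ((∏ l ∈ U \ T, (d0 l : ℚ)) * r U) * Polynomial.X ^ (U ∩ T).card := ⟨_, rfl⟩
  have hle : ∀ U : Finset I, (U ∩ T).card ≤ j := fun U =>
    hT ▸ Finset.card_le_card Finset.inter_subset_right
  have h1 : P.natDegree ≤ j := by
    rw [hP]
    refine Polynomial.natDegree_sum_le_of_forall_le _ _ fun U _ => ?_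
    exact (Polynomial.natDegree_C_mul_X_pow_le _ _).trans (hle U)
  have h2 : P.coeff j = r T := by
    rw [hP, Polynomial.finsetSum_coeff, Finset.sum_eq_single T]
    · simp [hT]
    · intro U _ hU
      rw [Polynomial.coeff_C_mul_X_pow]
      split_ifs with hc
      · have hsub : T ⊆ U := by
          have h3 : U ∩ T = T :=
            Finset.eq_of_subset_of_card_le Finset.inter_subset_right (by rw [← hc, hT])
          rw [← h3]; exact Finset.inter_subset_left
        have h4 : T.card < U.card :=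
          Finset.card_lt_card (Finset.ssubset_iff_subset_ne.2 ⟨hsub, hU.symm⟩)
        rw [hj U (hT ▸ h4), mul_zero]
      · rfl
    · intro h; exact absurd (Finset.mem_univ T) h
  rw [← h2]
  refine Aff.coeff_nonneg P j h1 ?_
  refine eventually_atTop.2 ⟨∑ l, (d0 l).toNat, fun t ht => ?_⟩
  have hge : d0 ≤ fun l => if l ∈ T then (t : ℤ) else d0 l := by
    intro l
    show d0 l ≤ if l ∈ T then (t : ℤ) else d0 l
    split_ifs
    · have h3 : (d0 l).toNat ≤ ∑ l, (d0 l).toNat :=
        Finset.single_le_sum (f := fun l => (d0 l).toNat) (fun _ _ => Nat.zero_le _)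
          (Finset.mem_univ l)
      have h4 : d0 l ≤ ((d0 l).toNat : ℤ) := Int.self_le_toNat _
      have h5 : ((d0 l).toNat : ℤ) ≤ t := by exact_mod_cast h3.trans ht
      exact h4.trans h5
    · exact le_rfl
  have h3 := hd0 _ hge
  have h4 : P.eval (t : ℚ) = (n (fun l => if l ∈ T then (t : ℤ) else d0 l) : ℚ) := by
    rw [h3, hP, Polynomial.eval_finsetSum]
    refine Finset.sum_congr rfl fun U _ => ?_
    rw [Polynomial.eval_mul, Polynomial.eval_C, Polynomial.eval_pow, Polynomial.eval_X,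
      ← Finset.prod_inter_mul_prod_sdiff U T]
    have e1 : (∏ l ∈ U ∩ T, (((if l ∈ T then (t : ℤ) else d0 l : ℤ)) : ℚ)) =
        (t : ℚ) ^ (U ∩ T).card := by
      rw [← Finset.prod_const]
      refine Finset.prod_congr rfl fun l hl => ?_
      rw [if_pos (Finset.mem_inter.1 hl).2, Int.cast_natCast]
    have e2 : (∏ l ∈ U \ T, (((if l ∈ T then (t : ℤ) else d0 l : ℤ)) : ℚ)) =
        ∏ l ∈ U \ T, (d0 l : ℚ) := by
      refine Finset.prod_congr rfl fun l hl => ?_
      rw [if_neg (Finset.mem_sdiff.1 hl).2]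
    rw [e1, e2]
    ring
  rw [h4]
  exact Nat.cast_nonneg _

/-- the top coefficients of a nonnegative function are nonnegative reals -/
theorem Aff.nonneg {n : (I → ℤ) → ℕ} {b : Finset I → ℂ} (a : Aff (fun d => (n d : ℂ)) b) {j : ℕ}
    (hj : ∀ T, j < T.card → b T = 0) (T : Finset I) (hT : T.card = j) :
    ∃ r : ℝ, 0 ≤ r ∧ b T = r := by
  obtain ⟨r, hr, hn⟩ := a.exists_rat
  have hj' : ∀ U, j < U.card → r U = 0 := fun U hU => by
    have := hj U hU
    rw [hr U] at this
    exact_mod_cast this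
  refine ⟨(r T : ℝ), by exact_mod_cast Aff.nonneg_rat hn hj' T hT, ?_⟩
  rw [hr T]
  norm_cast

/-- the polynomial on the diagonal, rational form -/
theorem Aff.hp_rat {n : (I → ℤ) → ℕ} {r : Finset I → ℚ}
    (a : ∀ᶠ d in atTop, (n d : ℚ) = ∑ T : Finset I, (∏ l ∈ T, (d l : ℚ)) * r T) :
    (hp fun t => n fun _ => t) = ∑ T : Finset I, Polynomial.C (r T) * Polynomial.X ^ T.card := by
  obtain ⟨d0, hd0⟩ := eventually_atTop.1 a
  obtain ⟨P, hP⟩ : ∃ P : Polynomial ℚ,
      P = ∑ T : Finset I, Polynomial.C (r T) * Polynomial.X ^ T.card := ⟨_, rfl⟩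
  rw [← hP]
  have h1 : ∀ᶠ t : ℕ in atTop, P.eval (t : ℚ) = ((n fun _ => (t : ℤ) : ℕ) : ℚ) := by
    refine eventually_atTop.2 ⟨∑ l, (d0 l).toNat, fun t ht => ?_⟩
    have hge : d0 ≤ fun _ => (t : ℤ) := by
      intro l
      have h3 : (d0 l).toNat ≤ ∑ l, (d0 l).toNat :=
        Finset.single_le_sum (f := fun l => (d0 l).toNat) (fun _ _ => Nat.zero_le _)
          (Finset.mem_univ l)
      have h4 : d0 l ≤ ((d0 l).toNat : ℤ) := Int.self_le_toNat _
      have h5 : ((d0 l).toNat : ℤ) ≤ t := by exact_mod_cast h3.trans ht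
      exact h4.trans h5
    rw [hd0 _ hge, hP, Polynomial.eval_finsetSum]
    refine Finset.sum_congr rfl fun U _ => ?_
    rw [Polynomial.eval_mul, Polynomial.eval_C, Polynomial.eval_pow, Polynomial.eval_X,
      Finset.prod_const, Int.cast_natCast, mul_comm]
  have h2 : ∀ᶠ t : ℕ in atTop,
      (hp fun t => n fun _ => t).eval (t : ℚ) = ((n fun _ => (t : ℤ) : ℕ) : ℚ) :=
    Classical.epsilon_spec (p := fun P : Polynomial ℚ => ∀ᶠ t : ℕ in atTop,
      P.eval (t : ℚ) = ((n fun _ => (t : ℤ) : ℕ) : ℚ)) ⟨P, h1⟩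
  obtain ⟨t0, ht0⟩ := eventually_atTop.1 (h1.and h2)
  refine Polynomial.eq_of_infinite_eval_eq _ _ ?_
  refine Set.infinite_of_injective_forall_mem (f := fun t : ℕ => ((t + t0 : ℕ) : ℚ))
    (fun s t hst => ?_) fun t => ?_
  · have h3 : s + t0 = t + t0 := Nat.cast_injective (R := ℚ) hst
    exact Nat.add_right_cancel h3
  · have h3 := ht0 (t + t0) (Nat.le_add_left _ _)
    exact h3.2.trans h3.1.symm

/-- the polynomial on the diagonal -/
theorem Aff.hp_eq {n : (I → ℤ) → ℕ} {b : Finset I → ℂ} (a : Aff (fun d => (n d : ℂ)) b) :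
    (hp fun t => n fun _ => t).map (algebraMap ℚ ℂ) =
      ∑ T : Finset I, Polynomial.C (b T) * Polynomial.X ^ T.card := by
  obtain ⟨r, hr, hn⟩ := a.exists_rat
  rw [Aff.hp_rat hn, Polynomial.map_sum]
  refine Finset.sum_congr rfl fun T _ => ?_
  rw [Polynomial.map_mul, Polynomial.map_C, Polynomial.map_pow, Polynomial.map_X, hr T]
  rfl

theorem Aff.hp_zero {n : (I → ℤ) → ℕ} {b : Finset I → ℂ} (a : Aff (fun d => (n d : ℂ)) b) :
    (((hp fun t => n fun _ => t).eval 0 : ℚ) : ℂ) = b ∅ := by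
  obtain ⟨r, hr, hn⟩ := a.exists_rat
  rw [Aff.hp_rat hn, hr ∅, Polynomial.eval_finsetSum, Finset.sum_eq_single ∅]
  · simp
  · intro U _ hU
    have h1 : U.card ≠ 0 := fun h => hU (Finset.card_eq_zero.1 h)
    simp [h1]
  · intro h; exact absurd (Finset.mem_univ _) h

theorem Aff.natDegree_le {n : (I → ℤ) → ℕ} {b : Finset I → ℂ} (a : Aff (fun d => (n d : ℂ)) b)
    (j : ℕ) : (hp fun t => n fun _ => t).natDegree ≤ j ↔ ∀ T, j < T.card → b T = 0 := by
  obtain ⟨r, hr, hn⟩ := a.exists_rat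
  rw [Aff.hp_rat hn]
  constructor
  · intro hdeg
    have key : ∀ k i : ℕ, i + k = Fintype.card I → j ≤ i → ∀ T : Finset I, i < T.card → r T = 0 := by
      intro k
      induction k with
      | zero =>
        intro i hi _ T hT
        have := Finset.card_le_univ T
        omega
      | succ k ih =>
        intro i hi hji T hT
        have ih' := ih (i + 1) (by omega) (by omega)
        by_cases hc : i + 1 < T.card
        · exact ih' T hc
        have hTc : T.card = i + 1 := by omega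
        have h1 := Polynomial.coeff_eq_zero_of_natDegree_lt
          (lt_of_le_of_lt hdeg (by omega : j < i + 1))
        rw [Polynomial.finsetSum_coeff] at h1
        simp only [Polynomial.coeff_C_mul_X_pow] at h1
        have h2 := (Finset.sum_eq_zero_iff_of_nonneg (fun U _ => by
          split_ifs with hU
          · exact Aff.nonneg_rat hn ih' U hU.symm
          · exact le_rfl)).1 h1 T (Finset.mem_univ T)
        rwa [if_pos hTc.symm] at h2
    intro T hT
    have h1 := Finset.card_le_univ T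
    rw [hr T, key (Fintype.card I - j) j (by omega) le_rfl T hT, Rat.cast_zero]
  · intro hb
    refine Polynomial.natDegree_sum_le_of_forall_le _ _ fun U _ => ?_
    by_cases hU : j < U.card
    · have h1 : r U = 0 := by
        have := hb U hU
        rw [hr U] at this
        exact_mod_cast this
      rw [h1, Polynomial.C_0, zero_mul, Polynomial.natDegree_zero]
      exact Nat.zero_le _
    · exact (Polynomial.natDegree_C_mul_X_pow_le _ _).trans (not_lt.1 hU)

end Pool.Agent.Tate
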