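import Pool.Agent.P.MP_2ce3e7_ag.Core

/-! Eventually multi-affine functions. -/

set_option autoImplicit false

noncomputable section

namespace Pool.Agent.Tate

open Filter

variable {I V : Type*} [Fintype I] [DecidableEq I] [AddCommGroup V] [Module ℂ V]
  {h h' : (I → ℤ) → V} {c c' : Finset I → V}

omit [Module ℂ V] in
theorem affA_split (l : I) (f : Finset I → V) :
    ∑ T, f T = ∑ T ∈ (Finset.univ.erase l).powerset, (f T + f (insert l T)) := by
  rw [Finset.sum_add_distrib, ← Finset.sum_powerset_insert (Finset.notMem_erase l _),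
    Finset.insert_erase (Finset.mem_univ l), Finset.powerset_univ]

omit [Fintype I] in
theorem affA_prod {l : I} {T : Finset I} (hl : l ∉ T) (d : I → ℤ) (t : ℤ) :
    ∏ i ∈ T, (((d + Pi.single l t : I → ℤ) i : ℤ) : ℂ) = ∏ i ∈ T, (d i : ℂ) :=
  Finset.prod_congr rfl fun i hi => by
    rw [Pi.add_apply, Pi.single_eq_of_ne (ne_of_mem_of_not_mem hi hl), add_zero]

omit [Fintype I] [DecidableEq I] in
theorem affA_tend (n : I → ℤ) : Tendsto (fun d : I → ℤ => d + n) atTop atTop :=
  tendsto_atTop_add_const_right _ n tendsto_id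

theorem affA_step (a : Aff h c) (l : I) :
    Aff (fun d => h (d + Pi.single l 1)) fun T => c T + if l ∈ T then 0 else c (insert l T) := by
  filter_upwards [(affA_tend (Pi.single l 1)).eventually a] with d hd
  rw [hd, affA_split l, affA_split l]
  refine Finset.sum_congr rfl fun T hT => ?_
  have hl : l ∉ T := fun hl => Finset.notMem_erase l _ (Finset.mem_powerset.1 hT hl)
  rw [Finset.prod_insert hl, Finset.prod_insert hl, affA_prod hl, if_neg hl,
    if_pos (Finset.mem_insert_self l T), Pi.add_apply, Pi.single_eq_same]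
  push_cast
  module

theorem affA_diff (a : Aff (0 : (I → ℤ) → V) c) (S : Finset I) :
    Aff (0 : (I → ℤ) → V) fun T => if Disjoint T S then c (T ∪ S) else 0 := by
  induction S using Finset.induction_on with
  | empty => simpa using a
  | insert l S hl ih =>
    filter_upwards [ih, affA_step ih l] with d h1 h2
    simp only [smul_add, Finset.sum_add_distrib, ← h1, Pi.zero_apply, zero_add] at h2 ⊢
    refine h2.trans (Finset.sum_congr rfl fun T _ => ?_)
    by_cases hT : l ∈ T <;> simp [hT, hl]

theorem Aff.uniq (a : Aff h c) (a' : Aff h c') : c = c' := by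
  have a0 : Aff (0 : (I → ℤ) → V) (c - c') := by
    filter_upwards [a, a'] with d h1 h2
    simp only [Pi.sub_apply, smul_sub, Finset.sum_sub_distrib, ← h1, ← h2, sub_self, Pi.zero_apply]
  refine sub_eq_zero.1 (funext fun S => ?_)
  induction S using WellFoundedGT.induction with
  | ind S ih =>
    obtain ⟨d, hd⟩ := (affA_diff a0 S).exists
    rw [Finset.sum_eq_single ∅ (fun T _ hT => ?_) (by simp)] at hd
    · simpa using hd.symm
    · beta_reduce
      split_ifs with hd
      · rw [ih (T ∪ S) (lt_of_le_of_ne Finset.subset_union_right fun e =>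
          hT (hd.eq_bot_of_le (e ▸ Finset.subset_union_left))), Pi.zero_apply, smul_zero]
      · exact smul_zero _

theorem Aff.congr (a : Aff h c) (e : ∀ᶠ d in atTop, h d = h' d) : Aff h' c := by
  filter_upwards [a, e] with d h1 h2
  rw [← h2, h1]

theorem aff_zero : Aff (0 : (I → ℤ) → V) 0 :=
  Eventually.of_forall fun d => by simp

theorem Aff.add (a : Aff h c) (a' : Aff h' c') : Aff (h + h') (c + c') := by
  filter_upwards [a, a'] with d h1 h2
  simp only [Pi.add_apply, smul_add, Finset.sum_add_distrib, h1, h2]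

theorem Aff.map {W : Type*} [AddCommGroup W] [Module ℂ W] (a : Aff h c) (f : V →ₗ[ℂ] W) :
    Aff (fun d => f (h d)) fun T => f (c T) := by
  filter_upwards [a] with d h1
  simp only [h1, map_sum, map_smul]

theorem aff_const (v : V) : Aff (fun _ : I → ℤ => v) (Pi.single ∅ v) :=
  Eventually.of_forall fun d => by
    rw [Finset.sum_eq_single ∅ (fun T _ hT => by rw [Pi.single_eq_of_ne hT, smul_zero]) (by simp)]
    simp

omit [Fintype I] in
theorem affA_line {d0 : I → ℤ} {l : I} (h2 : ∀ d, d0 ≤ d →
    h (d + Pi.single l 1 + Pi.single l 1) + h d = h (d + Pi.single l 1) + h (d + Pi.single l 1))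
    {d : I → ℤ} (hd : d0 ≤ d) (t : ℕ) :
    h (d + Pi.single l (t : ℤ) + Pi.single l 1) - h (d + Pi.single l (t : ℤ)) =
      h (d + Pi.single l 1) - h d ∧
    h (d + Pi.single l (t : ℤ)) = h d + (t : ℂ) • (h (d + Pi.single l 1) - h d) := by
  induction t with
  | zero => simp
  | succ t ih =>
    have e := h2 (d + Pi.single l (t : ℤ))
      (hd.trans (le_add_of_nonneg_right (Pi.single_nonneg.2 (Nat.cast_nonneg t))))
    push_cast
    rw [Pi.single_add, ← add_assoc, add_smul, one_smul, ← add_assoc, ← ih.2, ← ih.1]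
    exact ⟨by rw [eq_sub_of_add_eq e]; abel, by abel⟩

omit [Fintype I] in
theorem affA_ex (d0 : I → ℤ) (S : Finset I) : ∀ h : (I → ℤ) → V, (∀ l d, d0 ≤ d →
    h (d + Pi.single l 1 + Pi.single l 1) + h d = h (d + Pi.single l 1) + h (d + Pi.single l 1)) →
    ∃ c : Finset I → V, ∀ d, d0 ≤ d → (∀ l ∉ S, d l = d0 l) →
      h d = ∑ T ∈ S.powerset, (∏ l ∈ T, (d l : ℂ)) • c T := by
  induction S using Finset.induction_on with
  | empty =>
    refine fun h _ => ⟨fun _ => h d0, fun d _ e => ?_⟩
    rw [show d = d0 from funext fun l => e l (Finset.notMem_empty l)]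
    simp
  | insert l S hl ih =>
    intro h h2
    obtain ⟨c1, e1⟩ := ih h h2
    obtain ⟨c2, e2⟩ := ih (fun d => h (d + Pi.single l 1) - h d) fun i d hd => by
      have k1 := h2 i d hd
      have k2 := h2 i (d + Pi.single l 1)
        (hd.trans (le_add_of_nonneg_right (Pi.single_nonneg.2 zero_le_one)))
      simp only [add_right_comm _ (Pi.single i 1 : I → ℤ) (Pi.single l 1)]
      rw [eq_sub_of_add_eq k1, eq_sub_of_add_eq k2]
      abel
    refine ⟨fun T => if l ∈ T then c2 (T.erase l) else c1 T - (d0 l : ℂ) • c2 T, fun d hd e => ?_⟩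
    obtain ⟨t, ht⟩ := Int.le.dest (hd l)
    have k1 : d0 ≤ d + Pi.single l (-t : ℤ) := fun i => by
      by_cases hi : i = l
      · rw [hi, Pi.add_apply, Pi.single_eq_same]
        exact (by omega : d0 l = d l + -t).le
      · rw [Pi.add_apply, Pi.single_eq_of_ne hi, add_zero]
        exact hd i
    have k2 : ∀ i ∉ S, (d + Pi.single l (-t : ℤ) : I → ℤ) i = d0 i := fun i hS => by
      by_cases hi : i = l
      · rw [hi, Pi.add_apply, Pi.single_eq_same]
        omega
      · rw [Pi.add_apply, Pi.single_eq_of_ne hi, add_zero]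
        exact e i (by simp [hi, hS])
    have k3 := (affA_line (h2 l) k1 t).2
    rw [e2 _ k1 k2, e1 _ k1 k2, add_assoc, ← Pi.single_add, neg_add_cancel, Pi.single_zero,
      add_zero] at k3
    rw [k3, Finset.sum_powerset_insert hl, Finset.smul_sum, ← Finset.sum_add_distrib,
      ← Finset.sum_add_distrib]
    refine Finset.sum_congr rfl fun T hT => ?_
    have hT' : l ∉ T := fun h => hl (Finset.mem_powerset.1 hT h)
    beta_reduce
    rw [affA_prod hT', if_neg hT', if_pos (Finset.mem_insert_self l T), Finset.erase_insert hT',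
      Finset.prod_insert hT', ← ht]
    push_cast
    module

theorem exists_aff (h2 : ∀ l, ∀ᶠ d in atTop,
    h (d + Pi.single l 1 + Pi.single l 1) + h d = h (d + Pi.single l 1) + h (d + Pi.single l 1)) :
    ∃ c, Aff h c := by
  obtain ⟨d0, h0⟩ := eventually_atTop.1 (eventually_all.2 h2)
  obtain ⟨c, hc⟩ := affA_ex d0 Finset.univ h fun l d hd => h0 d hd l
  exact ⟨c, eventually_atTop.2 ⟨d0, fun d hd => by
    rw [hc d hd (by simp), Finset.powerset_univ]⟩⟩

/-- a shift by one step -/
theorem Aff.step (a : Aff h c) (l : I) :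
    Aff (fun d => h (d + Pi.single l 1)) fun T => c T + if l ∈ T then 0 else c (insert l T) :=
  affA_step a l

/-- a shift does not change the top coefficients -/
theorem Aff.shift (a : Aff h c) (n : I → ℤ) (a' : Aff (fun d => h (d + n)) c') {j : ℕ}
    (hj : ∀ T, j < T.card → c T = 0) (T : Finset I) (hT : j ≤ T.card) : c' T = c T := by
  have b : Aff (fun d => h (d + n)) fun U =>
      ∑ T, if U ⊆ T then (∏ l ∈ T \ U, (n l : ℂ)) • c T else 0 := by
    filter_upwards [(affA_tend n).eventually a] with d hd
    simp only [hd, Finset.smul_sum, Pi.add_apply, Int.cast_add, Finset.prod_add, Finset.sum_smul]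
    rw [Finset.sum_comm]
    refine Finset.sum_congr rfl fun T _ => ?_
    simp only [smul_ite, smul_zero, smul_smul]
    rw [← Finset.sum_filter]
    exact Finset.sum_congr (by ext U; simp) fun _ _ => rfl
  rw [a'.uniq b]
  beta_reduce
  rw [Finset.sum_eq_single T (fun U _ hU => ?_) (by simp)]
  · simp
  · split_ifs with hs
    · rw [hj U (hT.trans_lt (Finset.card_lt_card (lt_of_le_of_ne hs hU.symm))), smul_zero]
    · rfl

end Pool.Agent.Tate
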