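import Pool.Agent.P.MP_2ce3e7_ag.PtsA
import Pool.Agent.P.MP_e12fcd_ag.Weil.ToP
import Pool.Agent.P.MP_e12fcd_ag.Weil.Sard

/-! Smooth points of complex algebraic sets. -/

set_option autoImplicit false

noncomputable section

namespace Pool.Agent.Tate

open MvPolynomial Set Module Filter Topology Pool.Agent.Weil

variable {σ : Type} [Fintype σ] {J : Ideal (MvPolynomial σ ℂ)} {c e : ℕ}

theorem analytic_eval (f : MvPolynomial σ ℂ) (x : σ → ℂ) :
    AnalyticAt ℂ (fun y : σ → ℂ => eval y f) x :=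
  AnalyticOnNhd.eval_mvPolynomial f x (mem_univ x)

theorem fderiv_eval (f : MvPolynomial σ ℂ) (x v : σ → ℂ) :
    fderiv ℂ (fun y : σ → ℂ => eval y f) x v = dif f x v := by
  induction f using MvPolynomial.induction_on with
  | C a => simp [dif_C]
  | add p q hp hq =>
    have h : (fun y : σ → ℂ => eval y (p + q)) =
        (fun y : σ → ℂ => eval y p) + fun y : σ → ℂ => eval y q := by
      funext y
      simp
    rw [h, fderiv_add (analytic_eval p x).differentiableAt (analytic_eval q x).differentiableAt,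
      dif_add, add_apply, hp, hq]
  | mul_X p w hp =>
    have h : (fun y : σ → ℂ => eval y (p * X w)) =
        (fun y : σ → ℂ => eval y p) * fun y : σ → ℂ => y w := by
      funext y
      simp
    have hw : HasFDerivAt (fun y : σ → ℂ => y w)
        (ContinuousLinearMap.proj w : (σ → ℂ) →L[ℂ] ℂ) x :=
      (ContinuousLinearMap.proj w : (σ → ℂ) →L[ℂ] ℂ).hasFDerivAt
    rw [h, fderiv_mul (analytic_eval p x).differentiableAt hw.differentiableAt, dif_mul, dif_X,
      hw.fderiv]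
    simp [hp]

theorem continuous_ev (f : MvPolynomial σ ℂ) : Continuous fun y : σ → ℂ => eval y f :=
  continuous_iff_continuousAt.2 fun x => (analytic_eval f x).continuousAt

theorem isClosed_ZS (J : Ideal (MvPolynomial σ ℂ)) : IsClosed (ZS J) := by
  have h : ZS J = ⋂ f ∈ J, {x : σ → ℂ | eval x f = 0} := by
    ext x
    simp [ZS]
  rw [h]
  exact isClosed_biInter fun f _ => isClosed_eq (continuous_ev f) continuous_const

theorem isOpen_smo (J : Ideal (MvPolynomial σ ℂ)) (c : ℕ) : IsOpen {x | Smo J c x} := by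
  refine isOpen_iff_mem_nhds.2 ?_
  rintro x ⟨s, f, hs, hf, hg, hl⟩
  have h1 : IsOpen {y : σ → ℂ | eval y s ≠ 0} := isOpen_ne_fun (continuous_ev s) continuous_const
  have h2 : IsOpen ((fun y : σ → ℂ => fun i w => eval y (pderiv w (f i))) ⁻¹'
      {F : Fin c → σ → ℂ | LinearIndependent ℂ F}) :=
    isOpen_setOfPred_linearIndependent.preimage
      (continuous_pi fun i => continuous_pi fun w => continuous_ev _)
  filter_upwards [h1.mem_nhds hs, h2.mem_nhds hl] with y hy1 hy2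
  exact ⟨s, f, hy1, hf, hg, hy2⟩

omit [Fintype σ] in
theorem eval_eq_zero_of_span {f : Fin c → MvPolynomial σ ℂ} {z : σ → ℂ}
    (hz : ∀ i, eval z (f i) = 0) {p : MvPolynomial σ ℂ} (hp : p ∈ Ideal.span (Set.range f)) :
    eval z p = 0 := by
  have h : z ∈ ZS (Ideal.span (Set.range f)) := by
    refine mem_ZS_span.2 ?_
    rintro _ ⟨i, rfl⟩
    exact hz i
  exact h p hp

theorem surj_fderiv {f : Fin c → MvPolynomial σ ℂ} {x : σ → ℂ}
    (hl : LinearIndependent ℂ fun i w => eval x (pderiv w (f i))) :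
    Function.Surjective (fderiv ℂ (fun (y : σ → ℂ) (i : Fin c) => eval y (f i)) x) := by
  classical
  let M : Matrix (Fin c) σ ℂ := Matrix.of fun i w => eval x (pderiv w (f i))
  have hr : M.rank = Fintype.card (Fin c) := LinearIndependent.rank_matrix hl
  have ht : LinearMap.range M.mulVecLin = ⊤ := by
    refine Submodule.eq_top_of_finrank_eq ?_
    rw [Module.finrank_fintype_fun_eq_card]
    exact hr
  intro b
  obtain ⟨v, hv⟩ := LinearMap.range_eq_top.1 ht b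
  refine ⟨v, ?_⟩
  rw [fderiv_pi fun i => (analytic_eval (f i) x).differentiableAt]
  funext i
  rw [← hv]
  simp only [ContinuousLinearMap.pi_apply, fderiv_eval]
  rfl

theorem Smo.exists_param (h : c + e = Fintype.card σ) {x : σ → ℂ} (hx : x ∈ ZS J)
    (hs : Smo J c x) : ∃ (φ : (Fin e → ℂ) → σ → ℂ) (U : Set (Fin e → ℂ)), IsOpen U ∧ U.Nonempty ∧
      AnalyticOnNhd ℂ φ U ∧ (∀ y ∈ U, Function.Injective (fderiv ℂ φ y)) ∧ φ '' U ⊆ ZS J ∧
      ∃ N ∈ 𝓝 x, ZS J ∩ N ⊆ φ '' U := by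
  obtain ⟨s, f, hs0, hf, hg, hl⟩ := hs
  have hga : AnalyticAt ℂ (fun (y : σ → ℂ) (i : Fin c) => eval y (f i)) x :=
    AnalyticAt.pi fun i => analytic_eval (f i) x
  have hm : finrank ℂ (σ → ℂ) = e + finrank ℂ (Fin c → ℂ) := by
    simp only [Module.finrank_fintype_fun_eq_card, Fintype.card_fin]
    omega
  obtain ⟨Ψ, hxs, hΨ, hΨs, h2⟩ := exists_straighten hm hga (surj_fderiv hl)
  let ι0 : (Fin e → ℂ) →L[ℂ] (Fin e → ℂ) × (Fin c → ℂ) := ContinuousLinearMap.inl ℂ _ _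
  let φ : (Fin e → ℂ) → σ → ℂ := fun y => Ψ.symm (ι0 y)
  let U0 : Set (Fin e → ℂ) := ι0 ⁻¹' Ψ.target
  have hU0 : IsOpen U0 := Ψ.open_target.preimage ι0.continuous
  have hφ0 : AnalyticOnNhd ℂ φ U0 := fun y hy => (hΨs _ hy).comp (ι0.analyticAt y)
  have hso : IsOpen {z : σ → ℂ | eval z s ≠ 0} := isOpen_ne_fun (continuous_ev s) continuous_const
  have hpt : ∀ z ∈ ZS J, z ∈ Ψ.source → ι0 (Ψ z).1 = Ψ z := by
    intro z hz hzs
    refine Prod.ext rfl ?_
    rw [h2 z hzs]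
    funext i
    exact (hz _ (hf i)).symm
  have hmem : ∀ z ∈ ZS J, z ∈ Ψ.source → eval z s ≠ 0 →
      (Ψ z).1 ∈ U0 ∩ φ ⁻¹' {z : σ → ℂ | eval z s ≠ 0} ∧ φ (Ψ z).1 = z := by
    intro z hz hzs hz0
    have h3 : φ (Ψ z).1 = z := by
      change Ψ.symm (ι0 (Ψ z).1) = z
      rw [hpt z hz hzs, Ψ.left_inv hzs]
    refine ⟨⟨?_, ?_⟩, h3⟩
    · change ι0 (Ψ z).1 ∈ Ψ.target
      rw [hpt z hz hzs]
      exact Ψ.map_source hzs
    · change eval (φ (Ψ z).1) s ≠ 0
      rw [h3]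
      exact hz0
  refine ⟨φ, U0 ∩ φ ⁻¹' {z : σ → ℂ | eval z s ≠ 0},
    hφ0.continuousOn.isOpen_inter_preimage hU0 hso, ⟨_, (hmem x hx hxs hs0).1⟩,
    hφ0.mono inter_subset_left, ?_, ?_, Ψ.source ∩ {z : σ → ℂ | eval z s ≠ 0},
    (Ψ.open_source.inter hso).mem_nhds ⟨hxs, hs0⟩, ?_⟩
  · intro y hy
    have hsrc : φ y ∈ Ψ.source := Ψ.map_target hy.1
    have hd1 : DifferentiableAt ℂ φ y := (hφ0 y hy.1).differentiableAt
    have hd2 : DifferentiableAt ℂ Ψ (φ y) := (hΨ _ hsrc).differentiableAt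
    have hev : (Ψ ∘ φ) =ᶠ[𝓝 y] ι0 := by
      filter_upwards [hU0.mem_nhds hy.1] with y' hy'
      exact Ψ.right_inv hy'
    have hc : (fderiv ℂ Ψ (φ y)).comp (fderiv ℂ φ y) = ι0 := by
      rw [← fderiv_comp y hd2 hd1, hev.fderiv_eq, ι0.fderiv]
    intro a b hab
    have h4 : ι0 a = ι0 b := by
      rw [← hc]
      simp only [ContinuousLinearMap.comp_apply, hab]
    exact congrArg Prod.fst h4
  · rintro _ ⟨y, hy, rfl⟩ g hgJ
    have hsrc : φ y ∈ Ψ.source := Ψ.map_target hy.1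
    have h5 : Ψ (φ y) = ι0 y := Ψ.right_inv hy.1
    have h6 : ∀ i, eval (φ y) (f i) = 0 := by
      intro i
      have h7 := congrFun (h2 _ hsrc) i
      rw [h5] at h7
      exact h7.symm
    have h8 := eval_eq_zero_of_span h6 (hg g hgJ)
    rw [map_mul] at h8
    exact (mul_eq_zero.1 h8).resolve_left hy.2
  · rintro z ⟨hz, hzs, hz0⟩
    exact ⟨_, (hmem z hz hzs hz0).1, (hmem z hz hzs hz0).2⟩

theorem thin_smo (h : c + e = Fintype.card σ) : Thin (e + 1) {x | x ∈ ZS J ∧ Smo J c x} := by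
  have key := thin_of_locally (m := e + 1) (A := {x | x ∈ ZS J ∧ Smo J c x}) (g := id) ?_
  · simpa using key
  rintro x ⟨hx, hs⟩
  obtain ⟨φ, U, -, -, hφ, -, -, N, hN, hsub⟩ := hs.exists_param h hx
  refine ⟨N, hN, (thin_of_param (m := e + 1) (by simp) hφ).mono ?_ le_rfl⟩
  rintro _ ⟨z, hz, rfl⟩
  exact hsub ⟨hz.1.1, hz.2⟩

theorem Smo.not_thin (h : c + e = Fintype.card σ) {x : σ → ℂ} (hx : x ∈ ZS J) (hs : Smo J c x) :
    ¬ Thin e (ZS J) := by
  intro hT
  obtain ⟨φ, U, hU, hne, hφ, hi, hsub, -⟩ := hs.exists_param h hx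
  have h1 : Thin e U :=
    (hT.preimage_imm hφ hi).mono (fun y hy => ⟨hy, hsub ⟨y, hy, rfl⟩⟩) le_rfl
  have h2 : Thin (finrank ℂ (Fin e → ℂ)) U := by simpa using h1
  have h3 := h2.measure_zero MeasureTheory.volume
  exact (hU.measure_pos MeasureTheory.volume hne).ne' h3

/-- tangent vectors of a parametrised subset -/
theorem fderiv_mem_Tan {P : Type} [NormedAddCommGroup P] [NormedSpace ℂ P] {φ : P → σ → ℂ} {y : P}
    (hφ : DifferentiableAt ℂ φ y) (h : ∀ᶠ z in 𝓝 y, φ z ∈ ZS J) (v : P) :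
    fderiv ℂ φ y v ∈ Tan J (φ y) := by
  intro f hf
  have hev : ((fun w : σ → ℂ => eval w f) ∘ φ) =ᶠ[𝓝 y] fun _ => (0 : ℂ) := by
    filter_upwards [h] with z hz
    exact hz f hf
  have h1 := fderiv_comp y (analytic_eval f (φ y)).differentiableAt hφ
  rw [hev.fderiv_eq] at h1
  have h2 := congrArg (fun L : P →L[ℂ] ℂ => L v) h1
  simp only [ContinuousLinearMap.comp_apply, fderiv_eval] at h2
  rw [← h2]
  simp

end Pool.Agent.Tate
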