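import Pool.Agent.P.MP_2ce3e7_ag.Core
import Pool.Agent.P.MP_e12fcd_ag.Weil.Defs
import Pool.Agent.Lib.SCV.Smooth

/-! Analytic cones are algebraic. -/

set_option autoImplicit false

noncomputable section

namespace Pool.Agent.Tate

open MvPolynomial Pool.Agent.Weil Filter Topology

/-- A multilinear form on the diagonal is a polynomial. -/
theorem tay_poly {σ : Type} [Fintype σ] {n : ℕ}
    (L : ContinuousMultilinearMap ℂ (fun _ : Fin n => σ → ℂ) ℂ) :
    ∃ P : MvPolynomial σ ℂ, ∀ w, eval w P = L fun _ => w := by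
  classical
  refine ⟨∑ r : Fin n → σ, (∏ j, X (r j)) * C (L fun j => Pi.single (r j) 1), fun w => ?_⟩
  have hw : (fun _ : Fin n => w) = fun _ : Fin n => ∑ s, w s • (Pi.single s 1 : σ → ℂ) := by
    funext j s
    simp [Finset.sum_apply, Pi.single_apply]
  rw [hw, L.map_sum (fun (_ : Fin n) (s : σ) => w s • (Pi.single s 1 : σ → ℂ))]
  simp only [map_sum, map_mul, map_prod, eval_X, eval_C]
  refine Finset.sum_congr rfl fun r _ => ?_
  rw [L.map_smul_univ, smul_eq_mul]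

/-- The derivatives along a line through the origin. -/
theorem tay_line {E : Type} [NormedAddCommGroup E] [NormedSpace ℂ E] [FiniteDimensional ℂ E]
    {U : Set E} (hU : IsOpen U) (h0 : (0 : E) ∈ U) {f : E → ℂ} (hf : DifferentiableOn ℂ f U)
    (n : ℕ) (w : E) :
    iteratedDeriv n (fun t : ℂ => f (t • w)) 0 = iteratedFDeriv ℂ n f 0 fun _ => w := by
  let g : ℂ →L[ℂ] E := ContinuousLinearMap.toSpanSingleton ℂ w
  have hV : IsOpen (g ⁻¹' U) := hU.preimage g.continuous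
  have hg0 : g 0 ∈ U := by rwa [map_zero]
  have h := g.iteratedFDerivWithin_comp_right (Pool.Agent.Lib.SCV.contDiffOn_nat hU n f hf)
    hU.uniqueDiffOn hV.uniqueDiffOn hg0 (i := n) le_rfl
  rw [iteratedFDerivWithin_of_isOpen n hV (show (0 : ℂ) ∈ g ⁻¹' U from hg0),
    iteratedFDerivWithin_of_isOpen n hU hg0, map_zero] at h
  have e : (fun t : ℂ => f (t • w)) = f ∘ g := rfl
  rw [iteratedDeriv_eq_iteratedFDeriv, e, h]
  simp [g]

theorem zs_vanishing {σ : Type} [Fintype σ] {A : Set (σ → ℂ)} (hA : IsAnalyticSet A)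
    (hs : ∀ t : ℂ, t ≠ 0 → ∀ w ∈ A, t • w ∈ A) : ZS (vanishingIdeal ℂ A) = A := by
  refine Set.Subset.antisymm (fun w hw => ?_) fun w hw f hf => mem_vanishingIdeal_iff.1 hf w hw
  obtain ⟨U, k, F, hU, h0, hF, hAF⟩ := hA 0
  have hFi : ∀ i, DifferentiableOn ℂ (fun z => F z i) U := fun i => differentiableOn_pi.1 hF i
  have hball : ∀ v : σ → ℂ, ∃ r > 0, ∀ t ∈ Metric.ball (0 : ℂ) r, t • v ∈ U := fun v => by
    have hc : Continuous fun t : ℂ => t • v := by fun_prop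
    exact Metric.isOpen_iff.1 (hU.preimage hc) 0 (by simpa using h0)
  have hd : ∀ (v : σ → ℂ) (r : ℝ), (∀ t ∈ Metric.ball (0 : ℂ) r, t • v ∈ U) → ∀ i,
      DifferentiableOn ℂ (fun t : ℂ => F (t • v) i) (Metric.ball 0 r) := fun v r hr i =>
    (hFi i).comp (f := fun t : ℂ => t • v) (by fun_prop) hr
  have key : ∀ i n, iteratedDeriv n (fun t : ℂ => F (t • w) i) 0 = 0 := by
    intro i n
    obtain ⟨P, hP⟩ := tay_poly (iteratedFDeriv ℂ n (fun z => F z i) 0)
    rw [tay_line hU h0 (hFi i), ← hP]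
    refine hw P (mem_vanishingIdeal_iff.2 fun v hv => ?_)
    change eval v P = 0
    rw [hP, ← tay_line hU h0 (hFi i)]
    obtain ⟨r, hr, hrU⟩ := hball v
    have hn : Metric.ball (0 : ℂ) r ∈ 𝓝 (0 : ℂ) := Metric.ball_mem_nhds 0 hr
    have h1 : ∀ᶠ t in 𝓝[≠] (0 : ℂ), F (t • v) i = 0 := by
      filter_upwards [mem_nhdsWithin_of_mem_nhds hn, self_mem_nhdsWithin] with t ht ht0
      rw [(hAF _ (hrU t ht)).1 (hs t ht0 v hv)]
      rfl
    have h2 : ∀ᶠ t in 𝓝 (0 : ℂ), F (t • v) i = 0 :=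
      ((hd v r hrU i).analyticAt hn).frequently_zero_iff_eventually_zero.1 h1.frequently
    have h3 : (fun t : ℂ => F (t • v) i) =ᶠ[𝓝 0] fun _ => (0 : ℂ) := h2
    rw [h3.iteratedDeriv_eq]
    simp
  obtain ⟨r, hr, hrU⟩ := hball w
  have ht : ((r / 2 : ℝ) : ℂ) ∈ Metric.ball (0 : ℂ) r := by
    rw [mem_ball_zero_iff, Complex.norm_real, Real.norm_eq_abs, abs_of_pos (by positivity)]
    linarith
  have ht0 : ((r / 2 : ℝ) : ℂ) ≠ 0 := Complex.ofReal_ne_zero.2 (by positivity)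
  have hm : ((r / 2 : ℝ) : ℂ) • w ∈ A := by
    refine (hAF _ (hrU _ ht)).2 (funext fun i => ?_)
    rw [← Complex.taylorSeries_eq_on_ball (hd w r hrU i) ht]
    simp [key]
  have := hs _ (inv_ne_zero ht0) _ hm
  rwa [inv_smul_smul₀ ht0] at this

end Pool.Agent.Tate
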