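import Pool.Agent.P.MP_2ce3e7_ag.Cone
import Pool.Agent.P.MP_2ce3e7_ag.Taylor
import Pool.Agent.P.MP_2ce3e7_ag.Strat
import Pool.Agent.P.MP_e12fcd_ag.Weil.Shiffman

/-! The ideal of the cone. -/

set_option autoImplicit false

noncomputable section

namespace Pool.Agent.Tate

open MvPolynomial Set Module Filter Topology Pool.Agent.Weil Pool.Agent.Ferm

theorem alg_mem_van {σ : Type} {A : Set (σ → ℂ)} {f : MvPolynomial σ ℂ} :
    f ∈ vanishingIdeal ℂ A ↔ ∀ x ∈ A, eval x f = 0 := by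
  simp only [mem_vanishingIdeal_iff, aeval_eq_eval]

theorem alg_radical {σ : Type} (A : Set (σ → ℂ)) : (vanishingIdeal ℂ A).IsRadical := by
  rintro f ⟨n, hn⟩
  rw [alg_mem_van] at hn ⊢
  intro x hx
  have := hn x hx
  rw [map_pow] at this
  exact eq_zero_of_pow_eq_zero this

theorem alg_cont_tsm {ι : Type} (l : ι → ℂ) : Continuous (tsm l : (ι × Fin 3 → ℂ) → _) :=
  continuous_pi fun v => continuous_const.mul (continuous_apply v)

theorem alg_tsm_inv {ι : Type} {l : ι → ℂ} (hl : ∀ i, l i ≠ 0) (w : ι × Fin 3 → ℂ) :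
    tsm (fun i => (l i)⁻¹) (tsm l w) = w := by
  funext v
  simp only [tsm]
  rw [← mul_assoc, inv_mul_cancel₀ (hl _), one_mul]

variable {m : ℕ} [NeZero m] {ι : Type} [Fintype ι] {d : ℕ}

theorem alg_gd_tsm (c : CC m ι d) (l : ι → ℂ) (hl : ∀ i, l i ≠ 0) :
    ∀ w ∈ closure c.gd, tsm l w ∈ closure c.gd := by
  intro w hw
  refine map_mem_closure (alg_cont_tsm l) hw ?_
  rintro _ ⟨a, y, hy, l', hl', rfl⟩
  exact ⟨a, y, hy, l * l', fun i => mul_ne_zero (hl i) (hl' i), tsm_cn l⟩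

theorem alg_gd_fer (c : CC m ι d) : closure c.gd ⊆ ZS (Fer m ℂ ι) := by
  refine closure_minimal ?_ (isClosed_ZS _)
  rintro _ ⟨a, y, hy, l, -, rfl⟩
  exact cn_mem (c.mem a y hy)

theorem alg_fderiv (c : CC m ι d) {a : c.J} {y : Fin d → ℂ} (hy : y ∈ c.U a) (l : ι → ℂ) :
    DifferentiableAt ℂ (fun p : (Fin d → ℂ) × (ι → ℂ) => cn (c.j a) (c.u a p.1) p.2) (y, l) ∧
    ∀ dy dl, fderiv ℂ (fun p : (Fin d → ℂ) × (ι → ℂ) => cn (c.j a) (c.u a p.1) p.2) (y, l)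
      (dy, dl) = dcn (c.j a) (c.u a y) l (fderiv ℂ (c.u a) y dy) dl := by
  have h1 : HasFDerivAt (fun p : (ι → ℂ) × (ι → ℂ) => cn (c.j a) p.1 p.2)
      (fderiv ℂ (fun p : (ι → ℂ) × (ι → ℂ) => cn (c.j a) p.1 p.2) (c.u a y, l)) (c.u a y, l) :=
    (analytic_cn (c.j a) _ ⟨c.mem a y hy, trivial⟩).differentiableAt.hasFDerivAt
  have h2 : HasFDerivAt (fun p : (Fin d → ℂ) × (ι → ℂ) => (c.u a p.1, p.2))
      (((fderiv ℂ (c.u a) y).comp (ContinuousLinearMap.fst ℂ _ _)).prod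
        (ContinuousLinearMap.snd ℂ _ _)) (y, l) :=
    (HasFDerivAt.comp (y, l) (c.an a y hy).differentiableAt.hasFDerivAt hasFDerivAt_fst).prodMk
      hasFDerivAt_snd
  have h3 := HasFDerivAt.comp (y, l) h1 h2
  refine ⟨h3.differentiableAt, fun dy dl => ?_⟩
  have h4 := h3.fderiv
  have h5 : (fun p : (Fin d → ℂ) × (ι → ℂ) => cn (c.j a) (c.u a p.1) p.2) =
      (fun p : (ι → ℂ) × (ι → ℂ) => cn (c.j a) p.1 p.2) ∘
        fun p : (Fin d → ℂ) × (ι → ℂ) => (c.u a p.1, p.2) := rfl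
  rw [h5, h4, ← fderiv_cn (c.mem a y hy)]
  rfl

theorem alg_tan (c : CC m ι d) (hd : d ≤ 2 * Fintype.card ι) {J : Ideal (S ℂ ι)}
    (hJ : c.gd ⊆ ZS J) {a : c.J} {y : Fin d → ℂ} (hy : y ∈ c.U a) {l : ι → ℂ}
    (hl : ∀ i, l i ≠ 0) (hs : Smo J (2 * Fintype.card ι - d) (cn (c.j a) (c.u a y) l)) :
    ∀ v ∈ Tan J (cn (c.j a) (c.u a y) l),
      ∃ dy dl, v = dcn (c.j a) (c.u a y) l (fderiv ℂ (c.u a) y dy) dl := by
  obtain ⟨h1, h2⟩ := alg_fderiv c hy l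
  set L := fderiv ℂ (fun p : (Fin d → ℂ) × (ι → ℂ) => cn (c.j a) (c.u a p.1) p.2) (y, l) with hL
  have hev : ∀ᶠ p : (Fin d → ℂ) × (ι → ℂ) in 𝓝 (y, l), cn (c.j a) (c.u a p.1) p.2 ∈ ZS J := by
    have e1 : ∀ᶠ p : (Fin d → ℂ) × (ι → ℂ) in 𝓝 (y, l), p.1 ∈ c.U a :=
      continuous_fst.continuousAt.eventually ((c.chart a).isOpen.mem_nhds hy)
    have e2 : ∀ᶠ p : (Fin d → ℂ) × (ι → ℂ) in 𝓝 (y, l), ∀ i, p.2 i ≠ 0 :=
      eventually_all.2 fun i =>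
        ((continuous_apply i).comp continuous_snd).continuousAt.eventually_ne (hl i)
    filter_upwards [e1, e2] with p h1 h2
    exact hJ ⟨a, p.1, h1, p.2, h2, rfl⟩
  have hinj : Function.Injective (L : (Fin d → ℂ) × (ι → ℂ) →ₗ[ℂ] ι × Fin 3 → ℂ) := by
    rw [injective_iff_map_eq_zero]
    rintro ⟨dy, dl⟩ h
    have h' : dcn (c.j a) (c.u a y) l (fderiv ℂ (c.u a) y dy) dl = 0 := by
      rw [← h2]; exact h
    obtain ⟨e1, e2⟩ := dcn_eq_zero (c.mem a y hy) hl h'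
    have e3 : dy = 0 := c.imm a y hy (by rw [e1, map_zero])
    rw [e2, e3]; rfl
  have hsub := hs.tan_le (LinearMap.range (L : (Fin d → ℂ) × (ι → ℂ) →ₗ[ℂ] ι × Fin 3 → ℂ))
    (by
      rintro _ ⟨p, rfl⟩
      exact fderiv_mem_Tan h1 hev p)
    (by
      rw [LinearMap.finrank_range_of_inj hinj]
      simp only [Fintype.card_prod, Fintype.card_fin, finrank_prod, finrank_pi]
      omega)
  intro v hv
  obtain ⟨⟨dy, dl⟩, rfl⟩ := hsub hv
  exact ⟨dy, dl, h2 dy dl⟩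

theorem CC.exists_ideal {m : ℕ} [NeZero m] {ι : Type} [Fintype ι] {d : ℕ} (c : CC m ι d)
    (hd : d ≤ 2 * Fintype.card ι) : ∃ (J : Ideal (S ℂ ι)) (B : Set (ι × Fin 3 → ℂ)),
      GrI J ∧ Fer m ℂ ι ≤ J ∧ IsClosed B ∧
      (∀ l : ι → ℂ, (∀ i, l i ≠ 0) → ∀ w ∈ B, tsm l w ∈ B) ∧ Thin (d + Fintype.card ι) B ∧
      (∀ w ∈ ZS J, Nz w → ∃ z, Ov (c.π z) w) ∧
      ∀ w z, Ov (c.π z) w → w ∉ B → w ∈ ZS J ∧ LocGen J (2 * Fintype.card ι - d) w ∧
        ∃ a, ∃ y ∈ c.U a, ∃ l : ι → ℂ, (∀ i, l i ≠ 0) ∧ w = cn (c.j a) (c.u a y) l ∧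
          ∀ v ∈ Tan J w, ∃ dy dl, v = dcn (c.j a) (c.u a y) l (fderiv ℂ (c.u a) y dy) dl := by
  obtain ⟨p, hp1, hp2, hp3⟩ := c.exists_cone
  have hA : IsAnalyticSet (closure c.gd) := hp1 ▸ p.analytic_closure
  have hZ : ZS (vanishingIdeal ℂ (closure c.gd)) = closure c.gd :=
    zs_vanishing hA fun t ht w hw => alg_gd_tsm c (fun _ => t) (fun _ => ht) w hw
  have hG : GrI (vanishingIdeal ℂ (closure c.gd)) := grI_vanishing (alg_gd_tsm c)
  set J := vanishingIdeal ℂ (closure c.gd) with hJ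
  have hr : closure c.gd ⊆ range p.F :=
    closure_minimal (hp1 ▸ image_subset_range _ _) p.proper.isClosedMap.isClosed_range
  have hrk : finrank ℂ ((Fin d → ℂ) × (ι → ℂ)) = d + Fintype.card ι := by
    simp only [Fintype.card_fin, finrank_prod, finrank_pi]
  have hb : Thin (d + Fintype.card ι) (Push.bad p) := hrk ▸ Push.thin_bad p
  have hth : Thin (d + Fintype.card ι + 1) (ZS J) := by
    have h1 : Thin (d + Fintype.card ι + 1) (⋃ j, p.φ j '' p.U j) :=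
      thin_iUnion fun j => thin_of_param (by rw [hrk]; omega) (p.an j)
    refine (h1.union (hb.mono le_rfl (Nat.le_succ _))).mono ?_ le_rfl
    rw [hZ]
    intro w hw
    obtain ⟨z, rfl⟩ := hr hw
    by_cases hz : z ∈ p.good
    · obtain ⟨j, u, hu, rfl⟩ := mem_iUnion.1 hz
      exact Or.inl (mem_iUnion.2 ⟨j, u, hu, (p.lift j u hu).symm⟩)
    · exact Or.inr ⟨z, hz, rfl⟩
  refine ⟨J, Push.bad p ∪ {x | x ∈ ZS J ∧ ¬ Smo J (2 * Fintype.card ι - d) x}, hG, ?_, ?_, ?_,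
    ?_, ?_, ?_⟩
  · intro f hf
    exact alg_mem_van.2 fun x hx => alg_gd_fer c hx f hf
  · exact (Push.isClosed_bad p).union
      ((isClosed_ZS J).inter (isOpen_smo J _).isClosed_compl)
  · rintro l hl w (hw | ⟨hw, hs⟩)
    · exact Or.inl (hp3 l hl w hw)
    · refine Or.inr ⟨(hG.tsm_mem hl).2 hw, fun h => hs ?_⟩
      have := hG.smo_tsm (l := fun i => (l i)⁻¹) (fun i => inv_ne_zero (hl i)) h
      rwa [alg_tsm_inv hl] at this
  · refine hb.union (thin_sing (alg_radical _) ?_ hth)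
    simp only [Fintype.card_prod, Fintype.card_fin]
    omega
  · intro w hw hz
    exact (hp2 w hz).1 (hr (hZ ▸ hw))
  · intro w z hw hB
    obtain ⟨z', rfl⟩ := (hp2 w hw.nz).2 ⟨z, hw⟩
    have hg : p.F z' ∈ c.gd :=
      hp1 ▸ mem_image_of_mem _ (Push.good_of_not_bad fun h => hB (Or.inl h))
    have hsub : c.gd ⊆ ZS J := hZ ▸ subset_closure
    have hs : Smo J (2 * Fintype.card ι - d) (p.F z') := by
      by_contra h
      exact hB (Or.inr ⟨hsub hg, h⟩)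
    refine ⟨hsub hg, hs.locGen, ?_⟩
    obtain ⟨a, y, hy, l, hl, he⟩ := hg
    refine ⟨a, y, hy, l, hl, he, ?_⟩
    rw [he] at hs ⊢
    exact alg_tan c hd hsub hy hl hs

end Pool.Agent.Tate
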