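import Pool.Agent.P.MP_2ce3e7_ag.Core

/-! Averaging over the characters of the diagonal group. -/

set_option autoImplicit false

noncomputable section

namespace Pool.Agent.Tate

variable {m : ℕ} [NeZero m] {ι : Type} [Fintype ι] [DecidableEq ι]

theorem ch1_add_left (a b g : Ch m) : ch1 (a + b) g = ch1 a g * ch1 b g := by
  simp only [ch1, ← AddChar.map_add_eq_mul, Prod.fst_add, Prod.snd_add]
  congr 1; ring

theorem ch1_comm (a g : Ch m) : ch1 a g = ch1 g a := by
  simp only [ch1, mul_comm]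

theorem ch1_zero (g : Ch m) : ch1 0 g = 1 := by
  simp [ch1]

theorem ch1_ne (a g : Ch m) : ch1 a g ≠ 0 := by
  have h := ch1_add_left a (-a) g
  rw [add_neg_cancel, ch1_zero] at h
  exact left_ne_zero_of_mul_eq_one h.symm

theorem ch1_neg (a g : Ch m) : ch1 (-a) g = ch1 a (-g) := by
  simp [ch1]

theorem sum_ch1 (a : Ch m) : ∑ g, ch1 a g = if a = 0 then (m : ℂ) ^ 2 else 0 := by
  have hs : ∀ b : ZMod m, ∑ t : ZMod m, ZMod.stdAddChar (b * t) = if b = 0 then (m : ℂ) else 0 := by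
    intro b
    simp only [mul_comm b]
    rw [AddChar.sum_mulShift b (ZMod.isPrimitive_stdAddChar m), ZMod.card]
    split_ifs <;> simp
  simp only [ch1, AddChar.map_add_eq_mul, Fintype.sum_prod_type]
  rw [← Finset.sum_mul_sum, hs, hs]
  obtain ⟨x, y⟩ := a
  by_cases h1 : x = 0 <;> by_cases h2 : y = 0 <;> simp [h1, h2, sq]

omit [DecidableEq ι] in
theorem ch_add_left (a b g : ι → Ch m) : ch (a + b) g = ch a g * ch b g := by
  simp only [ch, Pi.add_apply, ch1_add_left, Finset.prod_mul_distrib]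

omit [DecidableEq ι] in
theorem ch_add_right (a g h : ι → Ch m) : ch a (g + h) = ch a g * ch a h := by
  simp only [ch, Pi.add_apply, ch1_comm (a _), ch1_add_left, Finset.prod_mul_distrib]

omit [DecidableEq ι] in
theorem ch_comm (a g : ι → Ch m) : ch a g = ch g a := by
  simp only [ch, ch1_comm (a _)]

omit [DecidableEq ι] in
theorem ch_zero (g : ι → Ch m) : ch 0 g = 1 := by
  simp [ch, ch1_zero]

omit [DecidableEq ι] in
theorem ch_ne (a g : ι → Ch m) : ch a g ≠ 0 := by
  exact Finset.prod_ne_zero_iff.2 fun i _ => ch1_ne _ _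

omit [DecidableEq ι] in
theorem ch_neg (a g : ι → Ch m) : ch (-a) g = ch a (-g) := by
  simp only [ch, Pi.neg_apply, ch1_neg]

theorem ch_single (a : ι → Ch m) (i : ι) (g : Ch m) : ch a (Pi.single i g) = ch1 (a i) g := by
  rw [ch, Finset.prod_eq_single i]
  · simp
  · intro j _ hj
    rw [Pi.single_eq_of_ne hj, ch1_comm, ch1_zero]
  · simp

theorem sum_ch (a : ι → Ch m) :
    ∑ g, ch a g = if a = 0 then ((m : ℂ) ^ 2) ^ Fintype.card ι else 0 := by
  have h := Finset.prod_univ_sum (fun _ : ι => (Finset.univ : Finset (Ch m))) fun i g => ch1 (a i) g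
  rw [Fintype.piFinset_univ] at h
  simp only [ch, ← h, sum_ch1]
  split_ifs with ha
  · simp [ha]
  · obtain ⟨i, hi⟩ := Function.ne_iff.1 ha
    exact Finset.prod_eq_zero (Finset.mem_univ i) (if_neg hi)

theorem Nd.neg {a : Ch m} (h : Nd a) : Nd (-a) := by
  refine ⟨neg_ne_zero.2 h.1, neg_ne_zero.2 h.2.1, fun e => h.2.2 ?_⟩
  rw [Prod.fst_neg, Prod.snd_neg, ← neg_add, neg_eq_zero] at e
  exact e

theorem nd_iff {a : Ch m} : Nd a ↔ ∀ j, ex3 a j ≠ 0 := by
  have e : -a.1 - a.2 ≠ 0 ↔ a.1 + a.2 ≠ 0 := by rw [← neg_add', neg_ne_zero]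
  simp only [Nd, ex3, Fin.forall_fin_succ, ← e]
  simp

theorem Nd.three_le {a : Ch m} (h : Nd a) : 3 ≤ m := by
  by_contra hm
  have h0 := NeZero.ne m
  obtain rfl | rfl : m = 1 ∨ m = 2 := by omega
  · exact h.1 (Subsingleton.elim _ _)
  · obtain ⟨x, y⟩ := a
    revert x y
    unfold Nd
    decide

omit [DecidableEq ι] in
theorem Bal.neg {a : ι → Ch m} (h : Bal a) (hn : ∀ i, Nd (a i)) : Bal (-a) := by
  intro t ht
  have h1 := h t ht
  have hu : IsUnit (t : ZMod m) := (ZMod.isUnit_iff_coprime t m).2 ht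
  have key : ∀ x y : ZMod m, x ≠ 0 → y ≠ 0 → x + y ≠ 0 →
      ((-x).val + (-y).val < m ↔ ¬ x.val + y.val < m) := by
    intro x y hx hy hxy
    have e1 := ZMod.val_lt x
    have e2 := ZMod.val_lt y
    have e3 : x.val + y.val ≠ m := fun e => hxy (by
      rw [← ZMod.natCast_zmod_val x, ← ZMod.natCast_zmod_val y, ← Nat.cast_add, e,
        ZMod.natCast_self])
    rw [ZMod.neg_val, ZMod.neg_val, if_neg hx, if_neg hy]
    omega
  have e : (Finset.univ.filter fun i =>
      ((t : ZMod m) * ((-a) i).1).val + ((t : ZMod m) * ((-a) i).2).val < m) =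
      Finset.univ.filter fun i =>
        ¬ ((t : ZMod m) * (a i).1).val + ((t : ZMod m) * (a i).2).val < m := by
    refine Finset.filter_congr fun i _ => ?_
    simp only [Pi.neg_apply, Prod.fst_neg, Prod.snd_neg, mul_neg]
    refine key _ _ (fun e => (hn i).1 (hu.mul_right_eq_zero.1 e))
      (fun e => (hn i).2.1 (hu.mul_right_eq_zero.1 e)) fun e => (hn i).2.2 ?_
    rw [← mul_add] at e
    exact hu.mul_right_eq_zero.1 e
  have h2 := Finset.card_filter_add_card_filter_not (s := (Finset.univ : Finset ι)) fun i =>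
    ((t : ZMod m) * (a i).1).val + ((t : ZMod m) * (a i).2).val < m
  rw [Finset.card_univ] at h2
  rw [e]
  omega

section Rep
variable {H V : Type*} [AddCommGroup H] [Fintype H] [AddCommGroup V] [Module ℂ V]

/-- eigenspace of a family of operators -/
def eig (ρ : H → Module.End ℂ V) (χ : H → ℂ) : Submodule ℂ V where
  carrier := {x | ∀ g, ρ g x = χ g • x}
  zero_mem' := by simp
  add_mem' := fun ha hb g => by rw [map_add, ha g, hb g, smul_add]
  smul_mem' := fun c x hx g => by rw [map_smul, hx g, smul_comm]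

/-- the averaging operator -/
def avg (ρ : H → Module.End ℂ V) (χ : H → ℂ) : Module.End ℂ V :=
  (Fintype.card H : ℂ)⁻¹ • ∑ g, χ (-g) • ρ g

variable {ρ : H → Module.End ℂ V} {χ : H → ℂ}

theorem avg_apply (x : V) : avg ρ χ x = (Fintype.card H : ℂ)⁻¹ • ∑ g, χ (-g) • ρ g x := by
  simp [avg, LinearMap.sum_apply]

theorem avg_mem (hρ : ∀ g h, ρ (g + h) = ρ g * ρ h) (hχ : ∀ g h, χ (g + h) = χ g * χ h)
    (x : V) : avg ρ χ x ∈ eig ρ χ := by
  intro h
  rw [avg_apply, map_smul, map_sum, smul_comm (χ h), Finset.smul_sum (r := χ h), ← Equiv.sum_comp (Equiv.addLeft h)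
    fun g => χ h • χ (-g) • ρ g x]
  congr 1
  refine Finset.sum_congr rfl fun g _ => ?_
  simp only [map_smul, Equiv.coe_addLeft]
  rw [smul_smul, ← hχ, hρ, Module.End.mul_apply, neg_add, add_neg_cancel_left]

theorem avg_of_mem (hχ : ∀ g h, χ (g + h) = χ g * χ h) (h0 : χ 0 = 1) {x : V}
    (hx : x ∈ eig ρ χ) : avg ρ χ x = x := by
  haveI : Nonempty H := ⟨0⟩
  have e : ∀ g, χ (-g) • ρ g x = x := fun g => by
    rw [hx g, smul_smul, ← hχ, neg_add_cancel, h0, one_smul]
  rw [avg_apply]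
  simp only [e, Finset.sum_const, Finset.card_univ]
  rw [← Nat.cast_smul_eq_nsmul ℂ, inv_smul_smul₀ (Nat.cast_ne_zero.2 Fintype.card_ne_zero)]

theorem avg_rho (hρ : ∀ g h, ρ (g + h) = ρ g * ρ h) (hχ : ∀ g h, χ (g + h) = χ g * χ h)
    (g : H) (x : V) : avg ρ χ (ρ g x) = χ g • avg ρ χ x := by
  rw [avg_apply, avg_apply, smul_comm (χ g), Finset.smul_sum (r := χ g), ← Equiv.sum_comp (Equiv.addRight g)
    fun h => χ g • χ (-h) • ρ h x]
  congr 1
  refine Finset.sum_congr rfl fun h _ => ?_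
  simp only [Equiv.coe_addRight]
  rw [smul_smul, ← hχ, hρ, Module.End.mul_apply, neg_add_rev, add_neg_cancel_left]

theorem avg_of_ne {χ' : H → ℂ} (h : ∑ g, χ (-g) * χ' g = 0) {x : V} (hx : x ∈ eig ρ χ') :
    avg ρ χ x = 0 := by
  have e : ∀ g, χ (-g) • ρ g x = (χ (-g) * χ' g) • x := fun g => by rw [hx g, smul_smul]
  rw [avg_apply]
  simp only [e, ← Finset.sum_smul, h, zero_smul, smul_zero]

theorem avg_comm {W : Type*} [AddCommGroup W] [Module ℂ W] {ρ' : H → Module.End ℂ W}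
    (F : V →ₗ[ℂ] W) (h : ∀ g x, F (ρ g x) = ρ' g (F x)) (x : V) :
    F (avg ρ χ x) = avg ρ' χ (F x) := by
  simp only [avg_apply, map_smul, map_sum, h]

theorem sum_avg [DecidableEq H] {A : Type*} [Fintype A] (ψ : A → H → ℂ) (h0 : ρ 0 = 1)
    (h : ∀ g, ∑ a, ψ a g = if g = 0 then (Fintype.card H : ℂ) else 0) (x : V) :
    ∑ a, avg ρ (ψ a) x = x := by
  haveI : Nonempty H := ⟨0⟩
  simp only [avg_apply, ← Finset.smul_sum]
  rw [Finset.sum_comm]
  simp only [← Finset.sum_smul, h, neg_eq_zero, ite_smul, zero_smul, Finset.sum_ite_eq',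
    Finset.mem_univ, if_true, h0, Module.End.one_apply]
  rw [inv_smul_smul₀ (Nat.cast_ne_zero.2 Fintype.card_ne_zero)]

end Rep

end Pool.Agent.Tate
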