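import Pool.Agent.P.MP_2ce3e7_ag.CDc
import Pool.Agent.P.MP_e12fcd_ag.Weil.ToP
import Pool.Agent.P.MP_e12fcd_ag.Weil.Sard

/-! Translates that meet a small set. -/

set_option autoImplicit false

noncomputable section

namespace Pool.Agent.Tate

open MeasureTheory Set Module Filter Topology Pool.Agent.Weil Pool.Agent.Ferm

variable {m : ℕ} [NeZero m] {ι : Type} [Fintype ι] {B : Set (ι × Fin 3 → ℂ)}
  (hi : ∀ l : ι → ℂ, (∀ i, l i ≠ 0) → ∀ w ∈ B, tsm l w ∈ B)
include hi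

theorem thin_chart {d : ℕ} (ht : Thin (d + Fintype.card ι) B) (j : ι → FI m) :
    Thin d {u | u ∈ Om m ι ∧ cn j u 1 ∈ B} := by
  have h1 : Thin (d + finrank ℂ (ι → ℂ)) ((Om m ι ×ˢ {l : ι → ℂ | ∀ i, l i ≠ 0}) ∩
      (fun p : (ι → ℂ) × (ι → ℂ) => cn j p.1 p.2) ⁻¹' B) := by
    rw [Module.finrank_fintype_fun_eq_card]
    refine ht.preimage_imm ((analytic_cn j).mono (prod_mono subset_rfl (subset_univ _))) ?_
    rintro ⟨u, l⟩ ⟨hu, hl⟩
    refine (injective_iff_map_eq_zero _).2 ?_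
    rintro ⟨du, dl⟩ h
    rw [fderiv_cn hu] at h
    exact Prod.ext (dcn_eq_zero hu hl h).1 (dcn_eq_zero hu hl h).2
  have h2 : IsOpen {l : ι → ℂ | ∀ i, l i ≠ 0} := by
    rw [Set.ofPred_forall]
    exact isOpen_iInter_of_finite fun i => isOpen_ne_fun (continuous_apply i) continuous_const
  obtain ⟨a, ha, ha'⟩ := (Measure.dense_of_ae
    (h1.slice volume (ContinuousLinearMap.snd ℂ _ _))).exists_mem_open h2 ⟨1, fun _ => one_ne_zero⟩
  refine (Thin.image ha (g := Prod.fst) fun _ _ => analyticAt_fst).mono ?_ le_rfl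
  rintro u ⟨hu, hB⟩
  refine ⟨(u, a), ⟨⟨⟨hu, ha'⟩, ?_⟩, rfl⟩, rfl⟩
  have := hi a ha' _ hB
  rwa [tsm_cn, mul_one] at this

theorem CD.avoid_zero (D : CD m) {s d : ℕ} (c : Chain (VS m ι) (LL m ι) (Fin s → ℂ))
    (hs : d + s ≤ finrank ℂ (VS m ι)) (hc : IsClosed B) (ht : Thin (d + Fintype.card ι) B) :
    IsClosed {t | ∃ w ∈ B, D.Hit c t w} ∧
      (volume : Measure (VS m ι)) {t | ∃ w ∈ B, D.Hit c t w} = 0 := by
  have hL := isLat_LL m ι
  constructor
  · have := hL.t2Space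
    have h1 := (((isClosed_under (m := m) hc hi).isCompact.prod (isCompact_univ (X := c.Z))).image
      (f := fun p : XS m ι × c.Z => D.Φ p.1 - c.F p.2)
      ((D.continuous_Φ.comp continuous_fst).sub (c.contF.comp continuous_snd))).isClosed.preimage
      (QuotientAddGroup.continuous_mk (N := LL m ι))
    refine (congrArg IsClosed (Set.ext fun t => ⟨?_, ?_⟩)).mp h1
    · rintro ⟨⟨x, z⟩, ⟨⟨w, hw, hx⟩, -⟩, h⟩
      exact ⟨w, hw, x, z, hx, by rw [← h]; simp⟩
    · rintro ⟨w, hw, x, z, hx, h⟩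
      exact ⟨(x, z), ⟨⟨w, hw, hx⟩, trivial⟩, by simp [h]⟩
  · have := hL.countable
    have hP : finrank ℂ (Fin s → ℂ) = s := by simp
    have : (volume : Measure (FIdx m → ℂ)).IsAddHaarMeasure := Measure.pi.isAddHaarMeasure _
    have : (volume : Measure (VS m ι)).IsAddHaarMeasure := Measure.pi.isAddHaarMeasure _
    refine Thin.measure_zero volume (Thin.mono (m := d + finrank ℂ (Fin s → ℂ))
      (thin_iUnion fun j : ι → FI m => Thin.image
        (((thin_chart hi ht j).prod c.thin).union (thin_iUnion fun k : c.J × LL m ι =>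
          (thin_chart hi ht j).prod_param (φ := fun y => c.φ k.1 y + k.2) (U := c.U k.1)
            fun y hy => (c.an k.1 y hy).add analyticAt_const))
        (g := fun p => D.GG j p.1 - p.2) fun p hp => ?_) ?_ (hP.symm ▸ hs))
    · have hp1 : p.1 ∈ Om m ι := by
        rcases hp with hp | hp
        · exact hp.1.1
        · exact (mem_iUnion.1 hp).choose_spec.1.1
      exact ((D.analytic_GG j _ hp1).comp analyticAt_fst).sub analyticAt_snd
    · rintro t ⟨w, hw, x, z, hx, h⟩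
      obtain ⟨j, u, hu, l, hl, rfl, rfl⟩ := hx
      have h1 : cn j u 1 ∈ B := by
        have := hi l⁻¹ (fun i => inv_ne_zero (hl i)) _ hw
        rwa [tsm_cn, show l⁻¹ * l = 1 from funext fun i => inv_mul_cancel₀ (hl i)] at this
      rw [D.Φ_xp hu, ← QuotientAddGroup.mk_sub] at h
      refine mem_iUnion.2 ⟨j, (u, D.GG j u - t), ?_, by simp⟩
      rcases PC.total_subset c h with h2 | h2
      · exact Or.inl ⟨⟨hu, h1⟩, h2⟩
      · obtain ⟨k, h3⟩ := mem_iUnion.1 h2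
        exact Or.inr (mem_iUnion.2 ⟨k, ⟨hu, h1⟩, h3⟩)

theorem CD.avoid (D : CD m) {s d : ℕ} (c : Chain (VS m ι) (LL m ι) (Fin s → ℂ))
    (hs : d + s ≤ finrank ℂ (VS m ι)) (hc : IsClosed B) (ht : Thin (d + Fintype.card ι) B)
    (g : ι → Ch m) : IsClosed {t | ∃ w ∈ B, D.Hit c t (gs g w)} ∧
      (volume : Measure (VS m ι)) {t | ∃ w ∈ B, D.Hit c t (gs g w)} = 0 := by
  have h1 : gs g '' B = gs (-g) ⁻¹' B := Set.ext fun w =>
    ⟨by rintro ⟨v, hv, rfl⟩; rwa [mem_preimage, gs_gs, neg_add_cancel, gs_zero],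
      fun h => ⟨_, h, by rw [gs_gs, add_neg_cancel, gs_zero]⟩⟩
  have h2 := D.avoid_zero (B := gs g '' B) (by
      rintro l hl _ ⟨w, hw, rfl⟩
      exact ⟨_, hi l hl w hw, gs_tsm g l w⟩) c hs
    (h1 ▸ hc.preimage (continuous_const.mul continuous_id))
    (ht.image fun _ _ => analyticAt_const.mul analyticAt_id)
  simpa only [exists_mem_image] using h2

end Pool.Agent.Tate
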