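import Pool.Agent.P.MP_2ce3e7_ag.ADefs

/-! Existence of the Abel-Jacobi data. -/

set_option autoImplicit false

noncomputable section

namespace Pool.Agent.Tate

open Set Module Filter Topology Pool.Agent.Weil Pool.Agent.Ferm

theorem CDa_dg_add {m : ℕ} [NeZero m] (j k j' k' : ZMod m) (v : FIdx m → ℂ) :
    dg m (j + j') (k + k') v = dg m j k (dg m j' k' v) := by
  have h := FSurfX.lam_val (M := m) (j.val + j'.val) (k.val + k'.val)
  rw [Nat.cast_add, Nat.cast_add, ZMod.natCast_zmod_val, ZMod.natCast_zmod_val,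
    ZMod.natCast_zmod_val, ZMod.natCast_zmod_val] at h
  funext p
  rw [dg_apply, dg_apply, dg_apply, h, ← mul_assoc, lam, lam, lam, ← pow_add]
  congr 2
  ring

theorem CDa_wf_ne {m : ℕ} [NeZero m] (r s : ℕ) (i : FI m) {u : ℂ} (hu : u ∈ FΩ m) (h0 : u ≠ 0) :
    wf m r s i u ≠ 0 := by
  have h1 : sgn3 i.1 ≠ 0 := by
    induction i.1 using FCurveX.fin3 <;> simp [sgn3]
  exact div_ne_zero (mul_ne_zero h1 (mul_ne_zero (mul_ne_zero
    (pow_ne_zero _ (FCurveX.FP_ne' i h0 0)) (pow_ne_zero _ (FCurveX.FP_ne' i h0 1)))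
    (pow_ne_zero _ (FCurveX.FP_ne' i h0 2)))) (FCurveX.ne_of_mem hu)

theorem exists_cd (m : ℕ) [NeZero m] : Nonempty (CD m) := by
  obtain ⟨G, hG, h0, han, hact⟩ := FSurfX.exists_prim m
  set b := G (0, 0, 0) (FSurfX.x0 m) - G (1, 0, 0) (FSurfX.x0 m) with hb
  have hb0 : ∀ p, b p ≠ 0 := hG.base_ne h0
  let B : (FIdx m → ℂ) →L[ℂ] (FIdx m → ℂ) :=
    ContinuousLinearMap.pi fun p => (b p)⁻¹ • ContinuousLinearMap.proj p
  have hB : ∀ v p, B v p = (b p)⁻¹ * v p := fun _ _ => rfl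
  have hBd : ∀ (j k : ZMod m) v, B (dg m j k v) = dg m j k (B v) := fun j k v => by
    funext p
    rw [hB, dg_apply, dg_apply, hB]
    ring
  have hlam : ∀ j k : ZMod m,
      B (G (0, j, k) (FSurfX.x0 m) - G (1, j, k) (FSurfX.x0 m)) = lam m j.val k.val :=
    fun j k => by
    funext p
    rw [hact 0, hact 1, ← map_sub, ← hb, hB, dg_apply, mul_comm, mul_inv_cancel_right₀ (hb0 p)]
  have h01 : ∀ j k z j' k' w, Frel m (0, j, k) z (1, j', k') w →
      B (G (0, j, k) z - G (1, j', k') w) ∈ ferLat m := fun j k z j' k' w h => by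
    rw [hG.zero_one h0 h, hlam, ferLat_eq]
    exact Submodule.subset_span ⟨(j'.val, k.val), rfl⟩
  obtain ⟨c, hc⟩ := hG.exists_consts
    ((ferLat m).toAddSubgroup.comap (B : (FIdx m → ℂ) →+ (FIdx m → ℂ))) (by
      rintro ⟨t, j, k⟩ z ⟨t', j', k'⟩ w ht ht' h
      have h2 : ∀ t : Fin 3, t ≠ 2 → t = 0 ∨ t = 1 := by decide
      rcases h2 t ht with rfl | rfl <;> rcases h2 t' ht' with rfl | rfl
      · rw [sub_eq_zero.2 (hG.zero_zero h0 h)]
        exact zero_mem _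
      · exact h01 _ _ _ _ _ _ h
      · rw [← neg_sub]
        exact neg_mem (h01 _ _ _ _ _ _ (Frel_symm _ _ _ _ h))
      · rw [sub_eq_zero.2 (hG.one_one h0 h)]
        exact zero_mem _)
  have hder : ∀ i, ∀ u ∈ FΩ m, HasDerivAt (fun u => B (G i u + c i)) (B (FSurfX.D0 m i u)) u :=
    fun i u hu => B.hasFDerivAt.comp_hasDerivAt u ((hG i u hu).add_const _)
  have hrel : ∀ i z j w, Frel m i z j w → B (G i z + c i) - B (G j w + c j) ∈ ferLat m :=
    fun i z j w h => by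
    rw [← map_sub]
    exact hc _ _ _ _ h
  have hGact : ∀ (g : Ch m) (i : FI m) u, G (i.1, g + i.2) u = dg m g.1 g.2 (G i u) := by
    rintro ⟨g1, g2⟩ ⟨t, j, k⟩ u
    change G (t, g1 + j, g2 + k) u = dg m g1 g2 (G (t, j, k) u)
    rw [hact t (g1 + j), hact t j, CDa_dg_add]
  let f : Ch m → FI m → FIdx m → ℂ := fun g i =>
    B (c (i.1, g + i.2)) - dg m g.1 g.2 (B (c i))
  have hf : ∀ (g : Ch m) (i : FI m) u, B (G (i.1, g + i.2) u + c (i.1, g + i.2)) -
      dg m g.1 g.2 (B (G i u + c i)) = f g i := fun g i u => by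
    rw [hGact, map_add, map_add, map_add, hBd]
    simp only [f]
    abel
  have hf' : ∀ (g : Ch m) (i : FI m), f g i - f g (0, 0, 0) ∈ ferLat m := fun g i => by
    refine Frel_conn (fun i => f g i - f g (0, 0, 0) ∈ ferLat m) (fun i z j w h hi => ?_)
      (0, 0, 0) i (by simp)
    have h1 := hrel _ _ _ _ (Frel_act (Multiplicative.ofAdd g) _ _ _ _ h)
    have h2 := dg_lat g.1 g.2 _ (hrel _ _ _ _ h)
    have h3 : f g i - f g j ∈ ferLat m := by
      rw [← hf g i z, ← hf g j w]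
      convert (ferLat m).sub_mem h1 h2 using 1
      rw [map_sub]
      change _ = B (G (i.1, g + i.2) z + c (i.1, g + i.2)) -
        B (G (j.1, g + j.2) w + c (j.1, g + j.2)) - _
      abel
    convert (ferLat m).sub_mem hi h3 using 1
    abel
  refine ⟨⟨fun i u => B (G i u + c i), fun i u => B (FSurfX.D0 m i u), fun g => f g (0, 0, 0),
    fun i => B.comp_analyticOnNhd ((han i).add analyticOnNhd_const), hder, hrel,
    fun i j z T hT h => ?_, fun g i u _ => ?_, fun g i u => ?_, fun p => ?_⟩⟩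
  · rw [sub_eq_zero.1 (FSurfX.compat hT h), map_smul]
  · rw [← sub_sub, hf]
    exact hf' g i
  · obtain ⟨g1, g2⟩ := g
    obtain ⟨t, j, k⟩ := i
    change B (FSurfX.D0 m (t, g1 + j, g2 + k) u) = dg m g1 g2 (B (FSurfX.D0 m (t, j, k) u))
    rw [FSurfX.D0_act t (g1 + j), FSurfX.D0_act t j, CDa_dg_add, hBd]
  · have hu : (1 / 2 : ℂ) ∈ FΩ m := FCurveX.mem_of_norm (by norm_num)
    refine ⟨(0, 0, 0), 1 / 2, hu, ?_⟩
    rw [hB]
    refine mul_ne_zero (inv_ne_zero (hb0 p)) fun h => ?_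
    have h1 := FSurfX.mul_D0 (M := m) (0, 0, 0) (1 / 2) p
    rw [h, mul_zero] at h1
    exact CDa_wf_ne _ _ _ hu (by norm_num) h1.symm

end Pool.Agent.Tate
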