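import Pool.Agent.P.MP_2ce3e7_ag.CDc

/-! Fibres of the triple product. -/

set_option autoImplicit false

noncomputable section

namespace Pool.Agent.Tate

open MeasureTheory Set Module Filter Topology Pool.Agent.Weil Pool.Agent.Ferm

variable {m : ℕ} [NeZero m] (D : CD m) {ι : Type} [Fintype ι] {s : ℕ}
  (c c' : Chain (VS m ι) (LL m ι) (Fin s → ℂ))

/-- the common points of the two translated chains -/
def CD.hits (g g' : ι → Ch m) (a : VS m ι × VS m ι) : Set (Pt ℂ ι) :=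
  {y | D.Hit c a.1 (gs g (rep y)) ∧ D.Hit c' a.2 (gs g' (rep y))}

theorem CD.mem_fib (g g' : ι → Ch m) (a : VS m ι × VS m ι) (x : XS m ι) (z : c.Z) (z' : c'.Z) :
    (x, z, z') ∈ fib (D.X3 c c') (q3 g g') ((LL m ι).prod (LL m ι)) (a - (D.kap g, D.kap g')) ↔
      c.F z = D.Φ (act g x) - QuotientAddGroup.mk a.1 ∧
      c'.F z' = D.Φ (act g' x) - QuotientAddGroup.mk a.2 := by
  have key : ∀ (g : ι → Ch m) (v w t : VS m ι), dgs g v - w - (t - D.kap g) ∈ LL m ι ↔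
      (QuotientAddGroup.mk w : VS m ι ⧸ LL m ι) =
        QuotientAddGroup.mk (dgs g v + D.kap g) - QuotientAddGroup.mk t := by
    intro g v w t
    rw [← QuotientAddGroup.mk_sub, QuotientAddGroup.eq]
    congr! 1
    abel
  constructor
  · rintro ⟨⟨v1, v2, v3⟩, h1, h2, h3⟩
    obtain ⟨e1, e2⟩ := (cprod_F _ _ _ _ _ _ _ _).1 h1
    obtain ⟨e2, e3⟩ := (cprod_F _ _ _ _ _ _ _ _).1 e2
    rw [D.Φ_act g e1, D.Φ_act g' e1, e2, e3]
    exact ⟨(key g v1 v2 a.1).1 h2, (key g' v1 v3 a.2).1 h3⟩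
  · rintro ⟨h1, h2⟩
    obtain ⟨v1, e1⟩ := QuotientAddGroup.mk_surjective (D.Φ x)
    obtain ⟨v2, e2⟩ := QuotientAddGroup.mk_surjective (c.F z)
    obtain ⟨v3, e3⟩ := QuotientAddGroup.mk_surjective (c'.F z')
    rw [D.Φ_act g e1.symm, ← e2] at h1
    rw [D.Φ_act g' e1.symm, ← e3] at h2
    exact ⟨(v1, v2, v3), (cprod_F _ _ _ _ _ _ _ _).2
      ⟨e1.symm, (cprod_F _ _ _ _ _ _ _ _).2 ⟨e2.symm, e3.symm⟩⟩,
      (key g v1 v2 a.1).2 h1, (key g' v1 v3 a.2).2 h2⟩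

theorem CD.cb_hits {f : XS m ι → Pt ℂ ι} (hf : ∀ x y, f x = y ↔ Ov x (rep y))
    (g g' : ι → Ch m) (a : VS m ι × VS m ι) :
    D.hits c c' g g' a = f '' (Prod.fst ''
      (fib (D.X3 c c') (q3 g g') ((LL m ι).prod (LL m ι)) (a - (D.kap g, D.kap g')) :
        Set (XS m ι × c.Z × c'.Z))) := by
  ext y
  constructor
  · rintro ⟨⟨x1, z, h1, h2⟩, ⟨x2, z', h3, h4⟩⟩
    have h5 := h1.of_gs (-g)
    rw [gs_gs, neg_add_cancel, gs_zero] at h5
    rw [h1.unique (h5.of_gs g)] at h2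
    rw [h3.unique (h5.of_gs g')] at h4
    exact ⟨_, ⟨(_, z, z'), (D.mem_fib c c' g g' a _ z z').2 ⟨h2, h4⟩, rfl⟩, (hf _ _).2 h5⟩
  · rintro ⟨_, ⟨⟨x, z, z'⟩, h, rfl⟩, hy⟩
    obtain ⟨h1, h2⟩ := (D.mem_fib c c' g g' a x z z').1 h
    have h3 := (hf _ _).1 hy
    exact ⟨⟨_, z, h3.of_gs g, h1⟩, ⟨_, z', h3.of_gs g', h2⟩⟩

theorem CD.hits_finite (g g' : ι → Ch m) (a : VS m ι × VS m ι)
    (h : (fib (D.X3 c c') (q3 g g') ((LL m ι).prod (LL m ι)) (a - (D.kap g, D.kap g'))).Finite) :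
    (D.hits c c' g g' a).Finite := by
  obtain ⟨f, -, hf⟩ := exists_toPt m ι
  rw [D.cb_hits c c' hf]
  exact (h.image _).image _

variable {c c'}

theorem cb_ncard {α β : Type} {S : Set (α × β)} (hS : S.Finite) {n : ℕ}
    (h : ∀ x ∈ Prod.fst '' S, {y | (x, y) ∈ S}.ncard = n) :
    S.ncard = n * (Prod.fst '' S).ncard := by
  classical
  lift S to Finset (α × β) using hS
  rw [← Finset.coe_image, ncard_coe_finset, ncard_coe_finset,
    Finset.card_eq_sum_card_image Prod.fst S, mul_comm, ← smul_eq_mul, ← Finset.sum_const]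
  refine Finset.sum_congr rfl fun x hx => ?_
  rw [← h x (by rwa [← Finset.coe_image]), ← ncard_coe_finset,
    ← ncard_image_of_injective {y | (x, y) ∈ (S : Set (α × β))} (Prod.mk_right_injective x)]
  refine congrArg Set.ncard ?_
  ext ⟨a, b⟩
  simp only [Finset.coe_filter, mem_setOf_eq, mem_image, Prod.mk.injEq, Finset.mem_coe]
  constructor
  · rintro ⟨h1, rfl⟩
    exact ⟨b, h1, rfl, rfl⟩
  · rintro ⟨y, h1, rfl, rfl⟩
    exact ⟨h1, rfl⟩

theorem cb_thin (c : Chain (VS m ι) (LL m ι) (Fin s → ℂ)) {A : Set (VS m ι)} {n : ℕ}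
    (hA : Thin n A) : Thin (n + s) (A ×ˢ {v | ∃ z, c.F z = QuotientAddGroup.mk v}) := by
  have := (isLat_LL m ι).countable
  have e : finrank ℂ (Fin s → ℂ) = s := by simp
  have h := (hA.prod c.thin).union (thin_iUnion fun j : c.J × LL m ι =>
    hA.prod_param (φ := fun u => c.φ j.1 u + j.2) (U := c.U j.1)
      fun u hu => (c.an j.1 u hu).add analyticAt_const)
  rw [e] at h
  refine h.mono ?_ le_rfl
  rintro ⟨v, w⟩ ⟨hv, z, hz⟩
  rcases PC.total_subset c hz with h5 | h5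
  · exact Or.inl ⟨hv, h5⟩
  · obtain ⟨j, h6⟩ := mem_iUnion.1 h5
    exact Or.inr (mem_iUnion.2 ⟨j, hv, h6⟩)

theorem CD.cb_null (hs : Fintype.card ι + 2 * s = 2 * finrank ℂ (VS m ι))
    {S : Set (VS m ι × VS m ι)} (hS : Thin (s + s) S) (j j' : ι → FI m) :
    ∀ᵐ a ∂((volume : Measure (VS m ι)).prod (volume : Measure (VS m ι))),
      ∀ u ∈ Om m ι, (D.GG j u - a.1, D.GG j' u - a.2) ∉ S := by
  have h1 := (hS.prod_param (φ := fun u : ι → ℂ => u) (U := Om m ι)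
    fun u _ => analyticAt_id).image
    (g := fun p => (D.GG j p.2 - p.1.1, D.GG j' p.2 - p.1.2)) (by
      rintro p ⟨-, u, hu, h⟩
      have hp : p.2 ∈ Om m ι := h ▸ hu
      exact (((D.analytic_GG j _ hp).comp analyticAt_snd).sub
        (analyticAt_fst.comp analyticAt_fst)).prod
        (((D.analytic_GG j' _ hp).comp analyticAt_snd).sub (analyticAt_snd.comp analyticAt_fst)))
  have e : s + s + finrank ℂ (ι → ℂ) = finrank ℂ (VS m ι × VS m ι) := by
    rw [finrank_prod, finrank_fintype_fun_eq_card]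
    omega
  rw [e] at h1
  have : BorelSpace (VS m ι × VS m ι) := Prod.borelSpace
  have : (volume : Measure (VS m ι)).IsAddHaarMeasure := Measure.pi.isAddHaarMeasure _
  have : ((volume : Measure (VS m ι)).prod (volume : Measure (VS m ι))).IsAddHaarMeasure :=
    Measure.prod.instIsAddHaarMeasure _ _
  refine measure_mono_null ?_ (h1.measure_zero _)
  intro a ha
  simp only [mem_compl_iff, mem_setOf_eq, not_forall, not_not] at ha
  obtain ⟨u, hu, h⟩ := ha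
  exact ⟨((D.GG j u - a.1, D.GG j' u - a.2), u), ⟨h, u, hu, rfl⟩, by simp⟩

theorem CD.ae_count {k k' : ℕ} (hc : Nice c k) (hc' : Nice c' k')
    (hs : Fintype.card ι + 2 * s = 2 * finrank ℂ (VS m ι)) (g g' : ι → Ch m) :
    ∀ᵐ a ∂((volume : Measure (VS m ι)).prod (volume : Measure (VS m ι))),
      (fib (D.X3 c c') (q3 g g') ((LL m ι).prod (LL m ι)) (a - (D.kap g, D.kap g'))).Finite →
      (fib (D.X3 c c') (q3 g g') ((LL m ι).prod (LL m ι)) (a - (D.kap g, D.kap g'))).ncard =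
        k * k' * (D.hits c c' g g' a).ncard := by
  obtain ⟨A, hA, h1⟩ := hc.fib
  obtain ⟨A', hA', h2⟩ := hc'.fib
  have e : finrank ℂ (Fin s → ℂ) = s := by simp
  rw [e] at hA hA'
  have hS := (cb_thin c' hA).union ((cb_thin c hA').image (g := Prod.swap)
    fun p _ => analyticAt_snd.prod analyticAt_fst)
  have hn := ae_all_iff.2 fun j : ι → FI m => D.cb_null hs hS
    (fun i => ((j i).1, g i + (j i).2)) fun i => ((j i).1, g' i + (j i).2)
  filter_upwards [hn] with a ha hfin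
  obtain ⟨f, hi, hf⟩ := exists_toPt m ι
  rw [D.cb_hits c c' hf, ncard_image_of_injective _ hi]
  refine cb_ncard (α := XS m ι) (β := c.Z × c'.Z) hfin ?_
  rintro _ ⟨⟨x, z, z'⟩, hx, rfl⟩
  obtain ⟨j, u, hu, rfl⟩ := exists_xp x
  have hm := D.mem_fib c c' g g' a (xp j u)
  simp only [act_xp _ hu, D.Φ_xp hu, ← QuotientAddGroup.mk_sub] at hm
  obtain ⟨e1, e2⟩ := (hm z z').1 hx
  have hb := ha j u hu
  rw [mem_union, not_or] at hb
  have k1 := (h1 _ fun h => hb.1 ⟨h, z', e2⟩).resolve_left (Set.Nonempty.ne_empty ⟨z, e1⟩)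
  have k2 := (h2 _ fun h => hb.2 ⟨(_, _), ⟨h, z, e1⟩, rfl⟩).resolve_left
    (Set.Nonempty.ne_empty ⟨z', e2⟩)
  rw [← k1, ← k2, ← ncard_prod]
  congr 1
  ext ⟨y, y'⟩
  exact hm y y'

end Pool.Agent.Tate
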