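import Pool.Agent.P.MP_2ce3e7_ag.CountA
import Pool.Agent.P.MP_2ce3e7_ag.CountB

/-! A set of positive measure of good translations. -/

set_option autoImplicit false

noncomputable section

namespace Pool.Agent.Tate

open MeasureTheory Set Module Filter Topology Pool.Agent.Weil Pool.Agent.Ferm

variable {m : ℕ} [NeZero m] (D : CD m) {ι : Type} [Fintype ι] [DecidableEq ι] {s : ℕ}
  {c c' : Chain (VS m ι) (LL m ι) (Fin s → ℂ)}

omit [DecidableEq ι] in
/-- regular values give transversal branches -/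
theorem CD.transv {g g' : ι → Ch m} {a : VS m ι × VS m ι}
    (h : ∀ j, ∀ u ∈ (D.X3 c c').U j,
      q3 g g' ((D.X3 c c').φ j u) - (a - (D.kap g, D.kap g')) ∈ (LL m ι).prod (LL m ι) →
        Function.Injective fun p => q3 g g' (fderiv ℂ ((D.X3 c c').φ j) u p))
    {w v : ι × Fin 3 → ℂ} {θ : VS m ι} (h0 : D.TG w v θ) (h1 : D.TH c a.1 (gs g w) (dgs g θ))
    (h2 : D.TH c' a.2 (gs g' w) (dgs g' θ)) : v ∈ TorD w := by
  obtain ⟨j, u, hu, l, du, dl, hl, rfl, rfl, rfl⟩ := h0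
  have key : ∀ {d : Chain (VS m ι) (LL m ι) (Fin s → ℂ)} {t : VS m ι} {e : ι → Ch m},
      D.TH d t (gs e (cn j u l)) (dgs e (D.DD j u du)) → ∃ i, ∃ y ∈ d.U i,
        dgs e (D.GG j u) - d.φ i y - (t - D.kap e) ∈ LL m ι ∧
        ∃ dy, dgs e (D.DD j u du) = fderiv ℂ (d.φ i) y dy := by
    rintro d t e ⟨x, i, y, hy, o, hx, hd⟩
    refine ⟨i, y, hy, ?_, hd⟩
    rw [o.unique ((ov_cn hu hl).of_gs e), D.Φ_act e (D.Φ_xp hu), ← QuotientAddGroup.mk_sub,
      QuotientAddGroup.eq] at hx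
    rw [show dgs e (D.GG j u) - d.φ i y - (t - D.kap e) =
      -d.φ i y + (dgs e (D.GG j u) + D.kap e - t) by abel]
    exact hx
  obtain ⟨i, y, hy, a1, dy, b1⟩ := key h1
  obtain ⟨i', y', hy', a2, dy', b2⟩ := key h2
  have hd : HasFDerivAt ((D.X3 c c').φ (j, i, i'))
      ((fderiv ℂ (D.GG j) u).prodMap ((fderiv ℂ (c.φ i) y).prodMap (fderiv ℂ (c'.φ i') y')))
      (u, y, y') :=
    HasFDerivAt.prodMap (u, y, y') (D.analytic_GG j u hu).differentiableAt.hasFDerivAt
      (HasFDerivAt.prodMap (y, y') (c.an i y hy).differentiableAt.hasFDerivAt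
        (c'.an i' y' hy').differentiableAt.hasFDerivAt)
  have := h (j, i, i') (u, y, y') ⟨hu, hy, hy'⟩ ⟨a1, a2⟩ (a₁ := (du, dy, dy')) (a₂ := 0) (by
    simp only [map_zero, hd.fderiv, q3_apply, ContinuousLinearMap.coe_prodMap', Prod.map_apply,
      D.fderiv_GG hu, ← b1, ← b2, sub_self]
    rfl)
  rw [show du = 0 from congrArg Prod.fst this]
  exact dcn_zero_mem hl dl

/-- a nonzero integral gives a measurable set of positive measure -/
theorem count_exists {X : Type} [MeasurableSpace X] {ν : Measure X} {A : Set X} {f : X → ℂ}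
    (hf : IntegrableOn f A ν) (h : ∫ a in A, f a ∂ν ≠ 0) {p : X → Prop} (hp : ∀ᵐ a ∂ν, p a) :
    ∃ E, MeasurableSet E ∧ ν E ≠ 0 ∧ ∀ a ∈ E, f a ≠ 0 ∧ p a := by
  have h1 : ∀ᵐ a ∂ν.restrict A, f a = hf.1.mk f a ∧ p a :=
    hf.1.ae_eq_mk.and (ae_restrict_of_ae hp)
  obtain ⟨Z, z1, z2, z3⟩ := exists_measurable_superset_of_null (ae_iff.1 h1)
  have hm : MeasurableSet ({a | hf.1.mk f a = 0}ᶜ \ Z) :=
    (hf.1.stronglyMeasurable_mk.measurable (measurableSet_singleton 0)).compl.diff z2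
  refine ⟨_, hm, fun h0 => h ?_, fun a ha => ?_⟩
  · refine integral_eq_zero_of_ae ?_
    filter_upwards [h1, measure_eq_zero_iff_ae_notMem.1 z3,
      ae_restrict_of_ae (measure_eq_zero_iff_ae_notMem.1 h0)] with a a1 a2 a3
    by_contra a4
    exact a3 ⟨fun a5 => a4 (a1.1.trans a5), a2⟩
  · have : f a = hf.1.mk f a ∧ p a := by
      by_contra a1
      exact ha.2 (z1 a1)
    exact ⟨fun a1 => ha.1 (this.1.symm.trans a1), this.2⟩

theorem CD.exists_set {b : ι → Ch m} (hb : ∀ i, Nd (b i)) {k k' : ℕ} (hc : Nice c k)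
    (hc' : Nice c' k') (hs : Fintype.card ι + 2 * s = 2 * finrank ℂ (VS m ι))
    {T T' : Alt (VS m ι) (Fin s ⊕ Fin s)} (hT : c.IsClass volume (frame s) T)
    (hT' : c'.IsClass volume (frame s) T') (e : Fin s ⊕ Fin s ≃ {j : IX m ι // j.2.1 ≠ b j.1})
    (e' : Fin s ⊕ Fin s ≃ {j : IX m ι // j.2.1 ≠ (-b) j.1})
    (h : T (fun a => cov (e a).1.1 (e a).1.2.1) ≠ 0)
    (h' : T' (fun a => cov (e' a).1.1 (e' a).1.2.1) ≠ 0) :
    ∃ E : Set (VS m ι × VS m ι), MeasurableSet E ∧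
      (volume : Measure (VS m ι)).prod (volume : Measure (VS m ι)) E ≠ 0 ∧ ∀ a ∈ E,
        ∑ g, ∑ g', ch (-b) g * ch b g' * ((D.hits c c' g g' a).ncard : ℂ) ≠ 0 ∧
        ∀ g g', (D.hits c c' g g' a).Finite ∧ ∀ w v θ, D.TG w v θ →
          D.TH c a.1 (gs g w) (dgs g θ) → D.TH c' a.2 (gs g' w) (dgs g' θ) → v ∈ TorD w := by
  obtain ⟨μ, _, ε, R, hR, hne⟩ := D.exists_class3 hb hT hT' e e' h h'
  have hdim : finrank ℂ ((ι → ℂ) × (Fin s → ℂ) × (Fin s → ℂ)) = finrank ℂ (VS m ι × VS m ι) := by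
    rw [finrank_prod, finrank_prod, finrank_prod, finrank_fintype_fun_eq_card,
      finrank_fintype_fun_eq_card, Fintype.card_fin]
    omega
  have hL := (isLat_LL m ι).prod (isLat_LL m ι)
  have : BorelSpace (VS m ι) := Pi.borelSpace
  have : BorelSpace (VS m ι × VS m ι) := Prod.borelSpace
  have : (volume : Measure (FIdx m → ℂ)).IsAddHaarMeasure := inferInstance
  have : (volume : Measure (VS m ι)).IsAddHaarMeasure := Measure.pi.isAddHaarMeasure _
  have : ((volume : Measure (VS m ι)).prod (volume : Measure (VS m ι))).IsAddHaarMeasure :=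
    Measure.prod.instIsAddHaarMeasure _ _
  obtain ⟨C, A, hA⟩ := area ((volume : Measure (VS m ι)).prod (volume : Measure (VS m ι))) μ hL
    (D.X3 c c') hdim hR zeta
  have hI := fun g g' : ι → Ch m => hA (q3 g g') (q3_mem g g') (-(D.kap g, D.kap g'))
  simp only [← sub_eq_add_neg] at hI
  have h1 := fun g g' : ι → Ch m => (hI g g').1.const_mul (ch (-b) g * ch b g')
  have h2 := fun g : ι → Ch m => integrable_finsetSum Finset.univ fun g' _ => h1 g g'
  have h3 := fun g g' : ι → Ch m =>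
    ((measurePreserving_sub_right ((volume : Measure (VS m ι)).prod (volume : Measure (VS m ι)))
      (D.kap g, D.kap g')).quasiMeasurePreserving.ae
      (ae_reg _ hL (D.X3 c c') hdim (q3 g g') (q3_mem g g'))).and (D.ae_count hc hc' hs g g')
  obtain ⟨E, e1, e2, e3⟩ := count_exists (integrable_finsetSum Finset.univ fun g _ => h2 g)
    (by
      rw [integral_finsetSum _ fun g _ => h2 g]
      simp only [fun g => integral_finsetSum Finset.univ fun g' _ => h1 g g', integral_const_mul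
        (ch (-b) _ * ch b _), ← fun g g' => (hI g g').2]
      exact hne)
    (ae_all_iff.2 fun g => ae_all_iff.2 fun g' => h3 g g')
  refine ⟨E, e1, e2, fun a ha => ⟨fun h0 => (e3 a ha).1 ?_, fun g g' =>
    ⟨D.hits_finite c c' g g' a ((e3 a ha).2 g g').1.1,
      fun w v θ => D.transv ((e3 a ha).2 g g').1.2.2⟩⟩⟩
  rw [← mul_zero (C * (k * k')), ← h0, Finset.mul_sum]
  refine Finset.sum_congr rfl fun g _ => ?_
  rw [Finset.mul_sum]
  refine Finset.sum_congr rfl fun g' _ => ?_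
  rw [((e3 a ha).2 g g').2 ((e3 a ha).2 g g').1.1]
  push_cast
  ring

end Pool.Agent.Tate
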