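import Pool.Agent.P.MP_2ce3e7_ag.CDc
import Pool.Agent.P.MP_2ce3e7_ag.Avg
import Pool.Agent.P.MP_e12fcd_ag.Ferm.EGroup
import Pool.Agent.P.MP_e12fcd_ag.Ferm.MainB

/-! The determinant on the complement of a balanced family is algebraic. -/

set_option autoImplicit false

noncomputable section

namespace Pool.Agent.Tate

open MeasureTheory Set Module Filter Topology Pool.Agent.Weil Pool.Agent.Ferm

section Aux
variable {m : ℕ} [NeZero m] {ι : Type} [Fintype ι] [DecidableEq ι]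

theorem levA_deg {a b : ZMod m} (h : Ok a b) :
    deg (tcl a b) = if a.val + b.val < m then 1 else -1 := by
  split_ifs with hl
  · obtain ⟨h1, -, h3⟩ := xi_of_lt h hl
    have ho := isObj_xi h
    rw [tcl_of_ok h]
    rw [h3] at ho ⊢
    exact deg_hol ho h1
  · obtain ⟨-, h2, h3⟩ := xi_of_not_lt h hl
    have h4 : xi (-a) (-b) = hol (co (-a) (-b)) := by rw [← cj_xi, h3, cj_anti]
    have ho := isObj_xi h.neg
    have h5 := tcl_of_ok h.neg
    rw [h4] at ho h5
    have h6 := deg_hol ho h2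
    rw [← h5, tcl_neg, map_neg] at h6
    omega

omit [DecidableEq ι] in
theorem levA_bal (hm : ∀ l : ℕ, l.Prime → l ∣ m → l = 2 ∨ l % 4 = 3) {b : ι → Ch m}
    (hb : ∀ i, Nd (b i)) (hB : Bal b) : ∑ i, tcl (b i).1 (b i).2 = 0 := by
  have hp' : ∀ p : ℕ, p.Prime → p ∣ 8 * m → p = 2 ∨ p % 4 = 3 := fun p hpp h => by
    rcases (Nat.Prime.dvd_mul hpp).1 h with h | h
    · exact Or.inl ((Nat.prime_dvd_prime_iff_eq hpp Nat.prime_two).1
        (hpp.dvd_of_dvd_pow (n := 3) h))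
    · exact hm p hpp h
  have key := cls_zero (dvd_mul_right 8 m) hp' (∑ i, {(((8 * (b i).1.val : ℕ) : ZMod (8 * m)),
    ((8 * (b i).2.val : ℕ) : ZMod (8 * m)))}) 0 fun t ht => by
      have h1 := hB t (cop ht)
      simp only [sum_map_sum, Multiset.map_singleton, Multiset.sum_singleton, lvl, Pi.zero_apply,
        zero_mul, Finset.sum_const_zero, add_zero]
      have h2 : ∀ i, deg (tcl ((8 * ((t : ZMod m) * (b i).1).val : ℕ) : ZMod (8 * m))
          ((8 * ((t : ZMod m) * (b i).2).val : ℕ) : ZMod (8 * m))) =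
          2 * (if ((t : ZMod m) * (b i).1).val + ((t : ZMod m) * (b i).2).val < m then 1 else 0)
            - 1 := fun i => by
        rw [tcl_level rfl, levA_deg (Ok.unit_mul (hb i) (cop ht))]
        split_ifs <;> simp
      rw [Finset.sum_congr rfl fun i _ => h2 i, Finset.sum_sub_distrib, ← Finset.mul_sum,
        Finset.sum_boole]
      simp only [Finset.sum_const, Finset.card_univ, nsmul_eq_mul, mul_one]
      omega
  simp only [sum_map_sum, Multiset.map_singleton, Multiset.sum_singleton, Pi.zero_apply,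
    zero_smul, Finset.sum_const_zero, add_zero] at key
  rw [← key]
  exact Finset.sum_congr rfl fun i _ => (tcl_level rfl _ _).symm

omit [DecidableEq ι] in
theorem levA_total : ∑ j : IX m ι, tcl j.2.1.1 j.2.1.2 = 0 := by
  refine Finset.sum_involution (fun j _ => (j.1, ⟨-j.2.1, j.2.2.neg⟩)) (fun j _ => ?_)
    (fun j _ _ h => ?_) (fun j _ => Finset.mem_univ _) fun j _ => by simp
  · change _ + tcl (-j.2.1.1) (-j.2.1.2) = 0
    rw [tcl_neg, add_neg_cancel]
  · have h0 : -j.2.1 = j.2.1 := congrArg (fun x : IX m ι => x.2.1) h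
    have h1 : -j.2.1.1 = j.2.1.1 := congrArg Prod.fst h0
    have h2 : -j.2.1.2 = j.2.1.2 := congrArg Prod.snd h0
    have h3 := ((ZMod.neg_eq_self_iff _).1 h1).resolve_left j.2.2.1
    have h4 := ((ZMod.neg_eq_self_iff _).1 h2).resolve_left j.2.2.2.1
    have h5 : j.2.1.1 = j.2.1.2 := ZMod.val_injective m (by omega)
    exact j.2.2.2.2 (by rw [← h5]; linear_combination -h1)

omit [DecidableEq ι] in
theorem levA_compl (hm : ∀ l : ℕ, l.Prime → l ∣ m → l = 2 ∨ l % 4 = 3) {b : ι → Ch m}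
    (hb : ∀ i, Nd (b i)) (hB : Bal b) :
    ∑ j : {j : IX m ι // j.2.1 ≠ b j.1}, tcl j.1.2.1.1 j.1.2.1.2 = 0 := by
  have h1 := Fintype.sum_subtype_add_sum_subtype (fun j : IX m ι => j.2.1 = b j.1)
    fun j => tcl j.2.1.1 j.2.1.2
  have h2 : ∑ j : {j : IX m ι // j.2.1 = b j.1}, tcl j.1.2.1.1 j.1.2.1.2 =
      ∑ i, tcl (b i).1 (b i).2 := by
    refine Fintype.sum_bijective (fun j => j.1.1) ⟨fun j j' h => ?_, fun i =>
      ⟨⟨(i, ⟨b i, hb i⟩), rfl⟩, rfl⟩⟩ _ _ fun j => by rw [j.2]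
    have h3 : j.1.1 = j'.1.1 := h
    exact Subtype.ext (Prod.ext h3 (Subtype.ext (by rw [j.2, j'.2, h3])))
  rw [h2, levA_bal hm hb hB, levA_total, zero_add] at h1
  exact h1

theorem levA_basis (m : ℕ) [NeZero m] (ι : Type) [Fintype ι] [DecidableEq ι] :
    ∃ C : Basis (IX m ι) ℂ (Cov (Tor.pi fun _ : ι => FT m).V),
      (∀ j, C j = cov j.1 j.2.1) ∧ Sep (Tor.pi fun _ : ι => FT m) C := by
  obtain ⟨B, hB⟩ := exists_xi_basis m
  have hBs : Sep (FT m) B := fun i j h => by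
    obtain ⟨F, hF, μ, hμ, hk⟩ := xi_sep i j h
    exact ⟨F, hF, μ, hμ, fun k => by rw [hB]; exact hk k⟩
  obtain ⟨C, hC, hCs⟩ := exists_basis_pi (fun _ : ι => FT m) (fun _ => B) fun _ => hBs
  let q : (Σ _ : ι, NIdx m) ≃ IX m ι := Equiv.sigmaEquivProd ι (NIdx m)
  refine ⟨C.reindex q, fun j => ?_, fun i j h => ?_⟩
  · rw [Basis.reindex_apply, hC, hB]
    rfl
  · obtain ⟨F, hF, μ, hμ, hk⟩ := hCs (q.symm i) (q.symm j) (q.symm.injective.ne h)
    exact ⟨F, hF, fun k => μ (q.symm k), hμ, fun k => by rw [Basis.reindex_apply]; exact hk _⟩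

end Aux

theorem exists_salg {m : ℕ} [NeZero m] (hm : ∀ l : ℕ, l.Prime → l ∣ m → l = 2 ∨ l % 4 = 3)
    {ι : Type} [Fintype ι] [DecidableEq ι] {b : ι → Ch m} (hb : ∀ i, Nd (b i)) (hB : Bal b)
    {ρ : Type} [Fintype ρ] [DecidableEq ρ] (e : ρ ≃ {j : IX m ι // j.2.1 ≠ b j.1}) :
    ∃ T ∈ SAlg (ratSpan (LL m ι)) ρ, T (fun a => cov (e a).1.1 (e a).1.2.1) ≠ 0 := by
  obtain ⟨C, hC, hs⟩ := levA_basis m ι
  let L : Cov (VS m ι) →ₗ[ℂ] (ρ → ℂ) := LinearMap.pi fun a => C.coord (e a).1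
  have hT : ∀ J : ρ → IX m ι, (Matrix.detRowAlternating.compLinearMap L) (fun a => C (J a)) =
      Matrix.det (Matrix.of fun a a' => if J a = (e a').1 then (1 : ℂ) else 0) := fun J => by
    change Matrix.det (Matrix.of fun a a' => C.repr (C (J a)) (e a').1) = _
    simp only [Basis.repr_self, Finsupp.single_apply]
  have hQ : ratSpan (LL m ι) = (Tor.pi fun _ : ι => FT m).Q := ratSpan_dpi _
  refine ⟨Matrix.detRowAlternating.compLinearMap L, ?_, ?_⟩
  · rw [hQ]
    refine mem_salg_of_cls (A := Tor.pi fun _ : ι => FT m) C hs _ fun J hJ => ?_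
    have h1 : ∀ j, Ferm.cls (Tor.pi fun _ : ι => FT m) (ℂ ∙ C j) = tcl j.2.1.1 j.2.1.2 := by
      intro j
      have ho := isObj_line (A := Tor.pi fun _ : ι => FT m) C hs j
      rw [tcl_of_ok j.2.2]
      exact cls_line_of_map ho (isObj_xi j.2.2) (C.ne_zero j) (prj_mem (fun _ : ι => FT m) j.1)
        (hC j).symm
    rw [hT, Matrix.det_apply] at hJ
    obtain ⟨σ, -, hσ⟩ := Finset.exists_ne_zero_of_sum_ne_zero hJ
    have h2 : ∀ a, J (σ a) = (e a).1 := fun a => by
      by_contra hc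
      refine hσ ?_
      rw [Finset.prod_eq_zero (Finset.mem_univ a) (by simp [hc]), smul_zero]
    simp only [h1]
    rw [← levA_compl hm hb hB, ← Equiv.sum_comp σ, ← Equiv.sum_comp e]
    exact Finset.sum_congr rfl fun a _ => by rw [h2]
  · have h1 := hT fun a => (e a).1
    simp only [hC] at h1
    rw [h1]
    have h2 : (Matrix.of fun a a' => if (e a).1 = (e a').1 then (1 : ℂ) else 0) = 1 := by
      ext a a'
      simp [Matrix.one_apply, Subtype.val_inj]
    rw [h2, Matrix.det_one]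
    exact one_ne_zero

end Pool.Agent.Tate
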