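import Pool.Agent.P.MP_2ce3e7_ag.Prod
import Pool.Agent.P.MP_e12fcd_ag.Weil.Slice
import Pool.Agent.P.MP_e12fcd_ag.Weil.Push

/-! Passing to a chain with constant multiplicity. -/

set_option autoImplicit false

noncomputable section

namespace Pool.Agent.Tate

open MeasureTheory Set Module Filter Topology Pool.Agent.Weil

section LevB
variable {V P : Type} [NormedAddCommGroup V] [NormedSpace ℂ V] [FiniteDimensional ℂ V]
  [NormedAddCommGroup P] [NormedSpace ℂ P] [FiniteDimensional ℂ P]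
  [MeasurableSpace P] [BorelSpace P] {Λ : AddSubgroup V}

/-- the immersed subchain of multiplicity `k` -/
def levB_sub (c : Chain V Λ P) (hΛ : IsLat Λ) (k : ℕ) (z₀ : closure (Push.levZ c hΛ k)) :
    Chain V Λ P where
  Z := (Push.sub c hΛ k z₀).Z
  F := (Push.sub c hΛ k z₀).F
  contF := (Push.sub c hΛ k z₀).contF
  J := c.J
  U j := (Push.sub c hΛ k z₀).U j ∩ c.Uimm j
  ι := (Push.sub c hΛ k z₀).ι
  φ := c.φ
  chart j := Push.chart_mono ((Push.sub c hΛ k z₀).chart j)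
    (((Push.sub c hΛ k z₀).chart j).isOpen.inter (c.isOpen_Uimm j)) inter_subset_left
  an j := ((Push.sub c hΛ k z₀).an j).mono inter_subset_left
  lift j u hu := (Push.sub c hΛ k z₀).lift j u hu.1
  thin := by
    refine (Push.thin_levZ (c := c) (hΛ := hΛ) k).mono ?_ le_rfl
    rintro v ⟨z, hz, hv⟩
    refine ⟨z.1, z.2, fun hzO => ?_, hv⟩
    obtain ⟨p, hp, hpz⟩ := id hzO
    obtain ⟨j, u, hu, h⟩ := (Push.mem_good_iff c hΛ p).1 (Push.good_of_not_bad hp.1)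
    have h1 : c.ι j u = z.1 := h.trans hpz
    have h2 : c.ι j u ∈ Push.levZ c hΛ k := h1 ▸ hzO
    exact hz j ⟨u, ⟨⟨hu.1, h2⟩, hu⟩, Subtype.ext ((Push.resι_val c _ z₀ j h2).trans h1)⟩

theorem levB_isPart {c : Chain V Λ P} {hΛ : IsLat Λ} {E' : c.J → Set P}
    (hE' : IsPart (c.toP hΛ).ι (c.toP hΛ).U (fun j => E' j.1)) (k : ℕ)
    (z₀ : closure (Push.levZ c hΛ k)) :
    IsPart (levB_sub c hΛ k z₀).ι (levB_sub c hΛ k z₀).U (Push.Ek c hΛ E' k) := by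
  have h := Push.isPart_sub hE' k z₀
  exact ⟨h.meas, fun j u hu => ⟨h.sub j hu, hE'.sub (j, 0) hu.1⟩, h.disj,
    fun j u hu => h.cover j u hu.1⟩

theorem levB_nice (c : Chain V Λ P) (hΛ : IsLat Λ) {k : ℕ} (hk : 0 < k)
    (z₀ : closure (Push.levZ c hΛ k)) : Nice (levB_sub c hΛ k z₀) k := by
  refine ⟨fun j u hu => hu.2.2, hk, _,
    (Push.thin_bad (c.toP hΛ)).union (Push.thin_sing (c.toP hΛ)), fun v hv => ?_⟩
  rcases Set.eq_empty_or_nonempty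
    {z | (levB_sub c hΛ k z₀).F z = QuotientAddGroup.mk v} with h0 | ⟨z, hz⟩
  · exact Or.inl h0
  right
  let p : c.Zt := ⟨(z.1, v), hz⟩
  have hb : v ∉ Push.bad (c.toP hΛ) := fun h => hv (Or.inl h)
  have hp : p ∈ Push.lev (c.toP hΛ) k :=
    (Push.mem_levZ c hΛ p).1 (Push.mem_levZ_of_closure c hΛ p z.2 hb)
  have hrel : ∀ y : c.Zt, y.1.2 = v → Push.Rel (c.toP hΛ) y p := by
    intro y hy
    by_contra hn
    exact hv (Or.inr ⟨p, ⟨hp.1, y, hy, hn⟩, rfl⟩)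
  have hmem : ∀ x : {x // Push.Rel (c.toP hΛ) x p}, x.1.1.1 ∈ closure (Push.levZ c hΛ k) := by
    intro x
    refine subset_closure ((Push.mem_levZ c hΛ x.1).2 ⟨?_, (Push.mult_congr x.2).trans hp.2⟩)
    rw [x.2.eq]
    exact hp.1
  have hval : ∀ x : {x // Push.Rel (c.toP hΛ) x p}, x.1.1.2 = v := fun x => x.2.eq
  refine Eq.trans ?_ hp.2
  rw [← Nat.card_coe_set_eq]
  refine (Nat.card_eq_of_bijective
    (fun x : {x // Push.Rel (c.toP hΛ) x p} =>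
      (⟨⟨x.1.1.1, hmem x⟩, x.1.2.trans (congrArg _ (hval x))⟩ :
        {z | (levB_sub c hΛ k z₀).F z = QuotientAddGroup.mk v})) ⟨?_, ?_⟩).symm
  · intro x x' h
    have h1 : x.1.1.1 = x'.1.1.1 := congrArg (fun y => y.1.1) h
    exact Subtype.ext (Subtype.ext (Prod.ext h1 ((hval x).trans (hval x').symm)))
  · rintro ⟨y, hy⟩
    exact ⟨⟨⟨(y.1, v), hy⟩, hrel _ rfl⟩, rfl⟩

end LevB

theorem exists_nice {V : Type} [NormedAddCommGroup V] [NormedSpace ℂ V] [FiniteDimensional ℂ V]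
    {Λ : AddSubgroup V} (hΛ : IsLat Λ) {s : ℕ} {T : Alt V (Fin s ⊕ Fin s)}
    (hT : T ∈ SAlg (ratSpan Λ) (Fin s ⊕ Fin s)) {ξ : Fin s ⊕ Fin s → Cov V} (h : T ξ ≠ 0) :
    ∃ (c : Chain V Λ (Fin s → ℂ)) (k : ℕ) (T' : Alt V (Fin s ⊕ Fin s)),
      Nice c k ∧ c.IsClass volume (frame s) T' ∧ T' ξ ≠ 0 := by
  have h1 : ∃ (c : Chain V Λ (Fin s → ℂ)) (T₀ : Alt V (Fin s ⊕ Fin s)),
      c.IsClass volume (frame s) T₀ ∧ T₀ ξ ≠ 0 := by
    by_contra hcon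
    push Not at hcon
    refine h ?_
    refine Submodule.span_induction (p := fun S _ => S ξ = 0) ?_ rfl ?_ ?_ (SAlg_le_span hΛ s hT)
    · rintro S ⟨c, hc⟩
      exact hcon c S hc
    · intro S S' _ _ hS hS'
      rw [AlternatingMap.add_apply, hS, hS', add_zero]
    · intro a S _ hS
      rw [AlternatingMap.smul_apply, hS, smul_zero]
  obtain ⟨c, T₀, ⟨E, hE, hI⟩, h0⟩ := h1
  obtain ⟨ε, hε⟩ := exists_frame_basis s
  obtain ⟨E', hE', hEE'⟩ := c.exists_part_toP volume hΛ hE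
  rw [← hε] at hI
  obtain ⟨Tk, hTk, hsum⟩ :=
    Push.exists_Tk volume hE' ε (Push.isInt_imm volume c ε hE.meas hE.sub hEE' hI)
  obtain ⟨k, hk⟩ : ∃ k, Tk k ξ ≠ 0 := by
    by_contra hcon
    push Not at hcon
    refine h0 ((hsum ξ).unique ?_)
    simp only [hcon]
    exact hasSum_zero
  rcases (Push.lev (c.toP hΛ) k).eq_empty_or_nonempty with h2 | ⟨p₀, hp₀⟩
  · refine absurd ?_ hk
    rw [(hTk k ξ).2.2]
    have h3 : Push.levZ c hΛ k = ∅ := by rw [Push.levZ, h2]; exact image_empty _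
    simp [Push.Ek, h3]
  have hk0 : 0 < k := hp₀.2 ▸ Push.mult_pos hp₀.1
  let z₀ : closure (Push.levZ c hΛ k) := ⟨p₀.1.1, subset_closure ⟨p₀, hp₀, rfl⟩⟩
  exact ⟨levB_sub c hΛ k z₀, k, Tk k, levB_nice c hΛ hk0 z₀,
    ⟨Push.Ek c hΛ E' k, levB_isPart hE' k z₀, hε ▸ hTk k⟩, hk⟩

end Pool.Agent.Tate
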