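import Mathlib

/-! A selection lemma for product measures. -/

set_option autoImplicit false

noncomputable section

namespace Pool.Agent.Tate

open MeasureTheory Set

theorem exists_select {α β : Type} [TopologicalSpace α] [SecondCountableTopology α]
    [MeasurableSpace α] [OpensMeasurableSpace α] [MeasurableSpace β] (μ : Measure α)
    (ν : Measure β) [SFinite μ] [SFinite ν] {E : Set (α × β)} (hE : MeasurableSet E)
    (h0 : μ.prod ν E ≠ 0) {p : α → Prop} {p' : β → Prop} {N : α → Set β} {C : β → Set α}
    (h1 : ∀ᵐ a ∂μ, p a ∧ ν (N a) = 0) (h2 : ∀ᵐ b ∂ν, p' b ∧ IsClosed (C b) ∧ μ (C b) = 0) :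
    ∃ a b, (a, b) ∈ E ∧ p a ∧ p' b ∧ b ∉ N a ∧ a ∉ C b := by
  by_contra hcon
  have hc : ∀ a b, (a, b) ∈ E → p a → p' b → b ∉ N a → a ∈ C b := by
    intro a b h h' h'' h'''
    by_contra h4
    exact hcon ⟨a, b, h, h', h'', h''', h4⟩
  apply h0
  let B : Set α → Set β := fun O => {b | p' b ∧ Disjoint O (C b)}
  let F : Set α → Set (α × β) := fun O => E ∩ O ×ˢ toMeasurable ν (B O)
  have hFm : ∀ O ∈ TopologicalSpace.countableBasis α, MeasurableSet (F O) := by
    intro O hO
    exact hE.inter (((TopologicalSpace.isOpen_of_mem_countableBasis hO).measurableSet).prod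
      (measurableSet_toMeasurable ν _))
  have hF0 : ∀ O ∈ TopologicalSpace.countableBasis α, μ.prod ν (F O) = 0 := by
    intro O hO
    rw [Measure.measure_prod_null (hFm O hO)]
    filter_upwards [h1] with a ha
    simp only [Pi.zero_apply]
    by_cases haO : a ∈ O
    · have hEa : MeasurableSet (Prod.mk a ⁻¹' E) := measurable_prodMk_left hE
      have h3 : ν (toMeasurable ν (B O) ∩ Prod.mk a ⁻¹' E) = 0 := by
        rw [Measure.measure_toMeasurable_inter_of_sFinite hEa]
        refine measure_mono_null ?_ ha.2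
        rintro b ⟨hb, hb'⟩
        by_contra hbN
        exact (Set.disjoint_left.1 hb.2) haO (hc a b hb' ha.1 hb.1 hbN)
      refine measure_mono_null ?_ h3
      rintro b ⟨hb, _, hb'⟩
      exact ⟨hb', hb⟩
    · have : Prod.mk a ⁻¹' F O = ∅ := by
        ext b
        constructor
        · rintro ⟨_, hb, _⟩
          exact (haO hb).elim
        · intro hb
          exact hb.elim
      rw [this, measure_empty]
  let G : Set (α × β) := ⋃ O ∈ TopologicalSpace.countableBasis α, F O
  have hGm : MeasurableSet G :=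
    MeasurableSet.biUnion (TopologicalSpace.countable_countableBasis α) hFm
  have hG0 : μ.prod ν G = 0 :=
    (measure_biUnion_null_iff (TopologicalSpace.countable_countableBasis α)).2 hF0
  have hD : μ.prod ν (E \ G) = 0 := by
    have hm : MeasurableSet (E \ G) := hE.diff hGm
    have hm' : MeasurableSet (Prod.swap ⁻¹' (E \ G) : Set (β × α)) := measurable_swap hm
    rw [← Measure.prod_swap, Measure.map_apply measurable_swap hm, Measure.measure_prod_null hm']
    filter_upwards [h2] with b hb
    simp only [Pi.zero_apply]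
    refine measure_mono_null ?_ hb.2.2
    rintro a ⟨ha, ha'⟩
    by_contra haC
    obtain ⟨O, hO, haO, hOC⟩ := (TopologicalSpace.isBasis_countableBasis α).exists_subset_of_mem_open
      (show a ∈ (C b)ᶜ from haC) hb.2.1.isOpen_compl
    apply ha'
    refine mem_iUnion₂.2 ⟨O, hO, ha, haO, subset_toMeasurable ν _ ⟨hb.1, ?_⟩⟩
    exact Set.disjoint_left.2 fun x hx hx' => hOC hx hx'
  refine measure_mono_null (t := (E \ G) ∪ G) ?_ (measure_union_null hD hG0)
  intro x hx
  by_cases hxG : x ∈ G
  · exact Or.inr hxG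
  · exact Or.inl ⟨hx, hxG⟩

end Pool.Agent.Tate
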