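import Pool.Agent.P.MP_2ce3e7_ag.CDb

/-! The Abel-Jacobi map of the power of the curve. -/

set_option autoImplicit false

noncomputable section

namespace Pool.Agent.Tate

open Set Module Filter Topology Pool.Agent.Weil Pool.Agent.Ferm

variable {m : ℕ} [NeZero m] {ι : Type}

theorem mem_LL {v : VS m ι} : v ∈ LL m ι ↔ ∀ i, v i ∈ ferLat m :=
  ⟨fun h i => h i (mem_univ i), fun h i _ => h i⟩

theorem dgs_apply (g : ι → Ch m) (v : VS m ι) (i : ι) : dgs g v i = dg m (g i).1 (g i).2 (v i) :=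
  rfl

theorem dgs_mem (g : ι → Ch m) {v : VS m ι} (h : v ∈ LL m ι) : dgs g v ∈ LL m ι :=
  mem_LL.2 fun i => dg_lat _ _ _ (mem_LL.1 h i)

theorem cdc_lam_add (j k j' k' : ZMod m) (p : FIdx m) :
    lam m (j + j').val (k + k').val p = lam m j.val k.val p * lam m j'.val k'.val p := by
  simp only [lam, pow_add, mul_comm p.1.1.val, mul_comm p.1.2.val, pow_mul, FCurveX.zt_add,
    mul_pow]
  ring

theorem dgs_dgs (g g' : ι → Ch m) (v : VS m ι) : dgs g (dgs g' v) = dgs (g + g') v := by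
  funext i p
  simp only [dgs_apply, dg_apply, Pi.add_apply, Prod.fst_add, Prod.snd_add, cdc_lam_add]
  ring

theorem dgs_zero (v : VS m ι) : dgs (0 : ι → Ch m) v = v := by
  funext i p
  simp [dgs_apply, dg_apply, lam]

theorem q3_apply (g g' : ι → Ch m) (v : VS m ι × VS m ι × VS m ι) :
    q3 g g' v = (dgs g v.1 - v.2.1, dgs g' v.1 - v.2.2) := rfl

theorem q3_mem (g g' : ι → Ch m) :
    ∀ v ∈ (LL m ι).prod ((LL m ι).prod (LL m ι)), q3 g g' v ∈ (LL m ι).prod (LL m ι) := by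
  intro v hv
  rw [q3_apply]
  exact ⟨(LL m ι).sub_mem (dgs_mem g hv.1) hv.2.1, (LL m ι).sub_mem (dgs_mem g' hv.1) hv.2.2⟩

theorem cdc_ch1 (a g : Ch m) :
    ch1 a g = zt m ^ (a.1.val * g.1.val + a.2.val * g.2.val) := by
  have e : a.1 * g.1 + a.2 * g.2 =
      (((a.1.val * g.1.val + a.2.val * g.2.val : ℕ) : ℤ) : ZMod m) := by
    push_cast
    simp only [ZMod.natCast_zmod_val]
  rw [ch1, e, ZMod.stdAddChar_coe, zt, ← Complex.exp_nat_mul]
  congr 1
  push_cast
  ring

theorem pull_dgs [Fintype ι] (g : ι → Ch m) (i : ι) (a : Ch m) :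
    pull (dgs g) (cov i a) = ch1 a (g i) • cov i a := by
  have e : pull (dgs g) (cov i a) =
      pull (ContinuousLinearMap.proj i : VS m ι →L[ℂ] FIdx m → ℂ)
        (pull (dg m (g i).1 (g i).2) (xi a.1 a.2)) := rfl
  rw [e, pull_dg_xi, map_smul, cdc_ch1, cov]

theorem card_IX [Fintype ι] : Fintype.card (IX m ι) = 2 * finrank ℂ (VS m ι) := by
  obtain ⟨B, -⟩ := exists_xi_basis m
  have h1 := finrank_eq_card_basis B
  rw [finrank_cov, finrank_real_of_complex] at h1
  have h2 : Fintype.card {a : Ch m // Nd a} = Fintype.card (NIdx m) :=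
    Fintype.card_congr (Equiv.subtypeEquivRight fun _ => Iff.rfl)
  have h3 : finrank ℂ (VS m ι) = Fintype.card ι * finrank ℂ (FIdx m → ℂ) := by
    rw [finrank_pi_fintype ℂ (M := fun _ : ι => FIdx m → ℂ), Finset.sum_const, Finset.card_univ,
      smul_eq_mul]
  rw [Fintype.card_prod, h2, ← h1, h3]
  ring

namespace CD
variable (D : CD m) {j : ι → FI m} {u : ι → ℂ}

theorem Φ_xp (hu : u ∈ Om m ι) : D.Φ (xp j u) = QuotientAddGroup.mk (D.GG j u) := by
  refine QuotientAddGroup.eq_iff_sub_mem.2 (mem_LL.2 fun l => D.rel _ _ _ _ ?_)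
  have h := (ferD m).atl.mem_ch (xp j u l)
  exact ((ferD m).pt_eq_iff ((ferD m).e_mem h) (hu l)).1 ((ferD m).pt_e h)

theorem Φ_act (g : ι → Ch m) {x : XS m ι} {v : VS m ι} (h : D.Φ x = QuotientAddGroup.mk v) :
    D.Φ (act g x) = QuotientAddGroup.mk (dgs g v + D.kap g) := by
  obtain ⟨j, u, hu, rfl⟩ := exists_xp x
  rw [D.Φ_xp hu] at h
  rw [act_xp g hu, D.Φ_xp hu]
  have h1 := dgs_mem g (QuotientAddGroup.eq_iff_sub_mem.1 h)
  have h2 : D.GG (fun i => ((j i).1, g i + (j i).2)) u - (dgs g (D.GG j u) + D.kap g) ∈ LL m ι :=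
    mem_LL.2 fun l => D.actG (g l) (j l) (u l) (hu l)
  refine QuotientAddGroup.eq_iff_sub_mem.2 ?_
  have h3 := (LL m ι).add_mem h2 h1
  rw [map_sub] at h3
  rwa [show D.GG (fun i => ((j i).1, g i + (j i).2)) u - (dgs g (D.GG j u) + D.kap g) +
    (dgs g (D.GG j u) - dgs g v) =
      D.GG (fun i => ((j i).1, g i + (j i).2)) u - (dgs g v + D.kap g) by abel] at h3

/-- change of chart in one block -/
theorem cdc_blk {i i' : FI m} {z z' a a' : ℂ} (hz : z ∈ FΩ m) (hz' : z' ∈ FΩ m) (ha' : a' ≠ 0)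
    (h : ∀ b, a * FP m i z b = a' * FP m i' z' b) :
    ∃ t c : ℂ, D.D i z = t • D.D i' z' ∧ ∀ b, a * deriv (fun y => FP m i y b) z =
      a' * t * deriv (fun y => FP m i' y b) z' - c * FP m i z b := by
  have hr : Frel m i z i' z' := ⟨hz, hz', a / a', funext fun b => by
    rw [Pi.smul_apply, smul_eq_mul, div_mul_eq_mul_div, h b, mul_div_cancel_left₀ _ ha']⟩
  obtain ⟨T, hT, rfl, hev⟩ := Frel_loc _ _ _ _ hr
  obtain ⟨b0, hb0⟩ := FCurveX.FP_ne i z
  have hd : ∀ b, HasDerivAt (fun y => FP m i y b) (deriv (fun y => FP m i y b) z) z := fun b =>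
    (FP_an i b z hz).differentiableAt.hasDerivAt
  have hd' : ∀ b, HasDerivAt (fun y => FP m i' (T y) b)
      (deriv (fun y => FP m i' y b) (T z) * deriv T z) z := fun b =>
    (FP_an i' b _ hz').differentiableAt.hasDerivAt.comp z hT.differentiableAt.hasDerivAt
  obtain ⟨c', hc⟩ : ∃ c', HasDerivAt (fun y => FP m i' (T y) b0 / FP m i y b0) c' z :=
    ⟨_, (hd' b0).fun_div (hd b0) hb0⟩
  refine ⟨deriv T z, a' * c', D.compat i i' z T hT hev, fun b => ?_⟩
  have h1 := (hd' b).unique ((hc.fun_mul (hd b)).congr_of_eventuallyEq (by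
    filter_upwards [hev, (hd b0).continuousAt.eventually_ne hb0] with y hy hy0
    obtain ⟨-, -, e, he⟩ := hy
    rw [he, Pi.smul_apply, Pi.smul_apply, smul_eq_mul, smul_eq_mul, mul_div_cancel_right₀ _ hy0]))
  have h2 : a' * (FP m i' (T z) b0 / FP m i z b0) = a := by
    rw [← mul_div_assoc, ← h b0, mul_div_cancel_right₀ _ hb0]
  linear_combination (-a') * h1 - deriv (fun y => FP m i y b) z * h2

variable {D} {w v : ι × Fin 3 → ℂ} {θ θ' : VS m ι}

theorem TG.unique (h : D.TG w v θ) (h' : D.TG w v θ') : θ = θ' := by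
  obtain ⟨j, u, hu, l, du, dl, hl, hw, hv, rfl⟩ := h
  obtain ⟨j', u', hu', l', du', dl', hl', hw', hv', rfl⟩ := h'
  have h1 : ∀ i b, l i * FP m (j i) (u i) b = l' i * FP m (j' i) (u' i) b := fun i b =>
    congrFun (hw.symm.trans hw') (i, b)
  choose t c ht hc using fun i => D.cdc_blk (hu i) (hu' i) (hl' i) (h1 i)
  have h2 : dcn j' u' l' (fun i => du' i - du i * t i)
      (fun i => dl' i - (dl i - du i * c i) * l' i / l i) = 0 := by
    funext ⟨i, b⟩
    have h3 : dl i * FP m (j i) (u i) b + l i * du i * deriv (fun z => FP m (j i) z b) (u i) =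
        dl' i * FP m (j' i) (u' i) b +
          l' i * du' i * deriv (fun z => FP m (j' i) z b) (u' i) :=
      congrFun (hv.symm.trans hv') (i, b)
    have h4 : l' i / l i * FP m (j' i) (u' i) b = FP m (j i) (u i) b := by
      rw [div_mul_eq_mul_div, ← h1, mul_div_cancel_left₀ _ (hl i)]
    change (dl' i - (dl i - du i * c i) * l' i / l i) * FP m (j' i) (u' i) b +
      l' i * (du' i - du i * t i) * deriv (fun z => FP m (j' i) z b) (u' i) = 0
    linear_combination -h3 - (dl i - du i * c i) * h4 + du i * hc i b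
  funext i
  have h5 : du' i - du i * t i = 0 := congrFun (dcn_eq_zero hu' hl' h2).1 i
  change du i • D.D (j i) (u i) = du' i • D.D (j' i) (u' i)
  rw [ht, smul_smul, sub_eq_zero.1 h5]

theorem TG.of_gs (g : ι → Ch m) (h : D.TG w v θ) : D.TG (gs g w) (gs g v) (dgs g θ) := by
  obtain ⟨j, u, hu, l, du, dl, hl, rfl, rfl, rfl⟩ := h
  refine ⟨fun i => ((j i).1, g i + (j i).2), u, hu, l, du, dl, hl, gs_cn g, gs_dcn g du dl, ?_⟩
  funext i
  change dg m (g i).1 (g i).2 (du i • D.D (j i) (u i)) = du i • D.D ((j i).1, g i + (j i).2) (u i)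
  rw [map_smul, D.actD]

variable (D) [Fintype ι]

theorem analytic_GG (j : ι → FI m) : AnalyticOnNhd ℂ (D.GG j) (Om m ι) :=
  fun u hu => AnalyticAt.pi fun l => AnalyticAt.comp (g := D.G (j l)) (f := fun v : ι → ℂ => v l)
    (D.an (j l) (u l) (hu l)) ((ContinuousLinearMap.proj l : (ι → ℂ) →L[ℂ] ℂ).analyticAt u)

theorem fderiv_GG (hu : u ∈ Om m ι) (du : ι → ℂ) : fderiv ℂ (D.GG j) u du = D.DD j u du := by
  have h : HasFDerivAt (D.GG j) (ContinuousLinearMap.pi fun l =>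
      (ContinuousLinearMap.toSpanSingleton ℂ (D.D (j l) (u l))).comp
        (ContinuousLinearMap.proj l : (ι → ℂ) →L[ℂ] ℂ)) u :=
    hasFDerivAt_pi.2 fun l => HasFDerivAt.comp (f := fun v : ι → ℂ => v l) u
      (D.der (j l) (u l) (hu l)).hasFDerivAt
      (ContinuousLinearMap.proj l : (ι → ℂ) →L[ℂ] ℂ).hasFDerivAt
  rw [h.fderiv]
  rfl

theorem continuous_Φ : Continuous (D.Φ : XS m ι → VS m ι ⧸ LL m ι) := by
  refine continuous_iff_continuousAt.2 fun x => ?_
  let j : ι → FI m := fun l => (ferD m).atl.ch (x l)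
  let e : XS m ι → ι → ℂ := fun y l => (ferD m).atl.e (j l) (y l)
  have hx : ∀ l, x l ∈ ((ferD m).atl.e (j l)).source := fun l => (ferD m).atl.mem_ch (x l)
  have he : ContinuousAt e x := continuousAt_pi.2 fun l =>
    ContinuousAt.comp (f := fun y : XS m ι => y l) (((ferD m).atl.e (j l)).continuousAt (hx l))
      (continuous_apply l).continuousAt
  have hm : e x ∈ Om m ι := fun l => (ferD m).e_mem (hx l)
  have h1 : ContinuousAt (fun y => (QuotientAddGroup.mk (D.GG j (e y)) : VS m ι ⧸ LL m ι)) x :=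
    QuotientAddGroup.continuous_mk.continuousAt.comp
      (ContinuousAt.comp (f := e) (D.analytic_GG j _ hm).continuousAt he)
  refine h1.congr ?_
  have h2 : ∀ᶠ y in 𝓝 x, ∀ l, y l ∈ ((ferD m).atl.e (j l)).source :=
    eventually_all.2 fun l => (continuous_apply l).continuousAt.eventually_mem
      (((ferD m).atl.e (j l)).open_source.mem_nhds (hx l))
  filter_upwards [h2] with y hy
  have h3 : e y ∈ Om m ι := fun l => (ferD m).e_mem (hy l)
  rw [← D.Φ_xp h3]
  exact congrArg D.Φ (funext fun l => (ferD m).pt_e (hy l))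

variable {D} {P : Type} [NormedAddCommGroup P] [NormedSpace ℂ P]
  {c : Chain (VS m ι) (LL m ι) P} {t : VS m ι}

theorem Hit.nz (h : D.Hit c t w) : Nz w := by
  obtain ⟨x, z, h1, -⟩ := h
  exact h1.nz

theorem Hit.of_tsm (h : D.Hit c t w) {l : ι → ℂ} (hl : ∀ i, l i ≠ 0) : D.Hit c t (tsm l w) := by
  obtain ⟨x, z, h1, h2⟩ := h
  exact ⟨x, z, h1.of_tsm hl, h2⟩

variable (D ι)

/-- the power of the curve as a chain -/
def Xc : Chain (VS m ι) (LL m ι) (ι → ℂ) where
  Z := XS m ι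
  F := D.Φ
  contF := D.continuous_Φ
  J := ι → FI m
  U _ := Om m ι
  ι := xp
  φ := D.GG
  chart := isChart_xp
  an := D.analytic_GG
  lift _ _ hu := D.Φ_xp hu
  thin := (thin_empty _).mono (by
    rintro v ⟨x, hx, -⟩
    obtain ⟨j, u, hu, rfl⟩ := exists_xp x
    exact hx j ⟨u, hu, rfl⟩) le_rfl

variable {ι} {P' : Type} [NormedAddCommGroup P'] [NormedSpace ℂ P'] [FiniteDimensional ℂ P]
  [FiniteDimensional ℂ P']

/-- the triple product -/
def X3 (c : Chain (VS m ι) (LL m ι) P) (c' : Chain (VS m ι) (LL m ι) P') :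
    Chain (VS m ι × VS m ι × VS m ι) ((LL m ι).prod ((LL m ι).prod (LL m ι)))
      ((ι → ℂ) × P × P') :=
  cprod (isLat_LL m ι) ((isLat_LL m ι).prod (isLat_LL m ι)) (D.Xc ι)
    (cprod (isLat_LL m ι) (isLat_LL m ι) c c')

end CD

end Pool.Agent.Tate
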