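import Pool.Agent.P.MP_2ce3e7_ag.Alg
import Pool.Agent.P.MP_2ce3e7_ag.CDc
import Pool.Agent.P.MP_e12fcd_ag.Weil.SliceB

/-! Almost every slice is algebraic. -/

set_option autoImplicit false

noncomputable section

namespace Pool.Agent.Tate

open MeasureTheory Set Module Filter Topology Pool.Agent.Weil Pool.Agent.Ferm

section General
variable {V B P : Type} [NormedAddCommGroup V] [NormedSpace ℂ V]
  [NormedAddCommGroup B] [NormedSpace ℂ B]
  [NormedAddCommGroup P] [NormedSpace ℂ P] {Λ : AddSubgroup V}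

/-- straightening charts that are analytic in both directions -/
theorem slice_exists_str [FiniteDimensional ℂ B] [FiniteDimensional ℂ P] (c : Chain V Λ P)
    (q : V →L[ℂ] B) {n : ℕ} (hm : finrank ℂ P = n + finrank ℂ B) :
    ∃ S : Sl.Str c q n, ∀ k, AnalyticOnNhd ℂ (S.Ψ k) (S.Ψ k).source := by
  have key : ∀ j, ∃ Ψ : ℕ → OpenPartialHomeomorph P ((Fin n → ℂ) × B),
      (∀ r, (Ψ r).source ⊆ c.U j ∧ AnalyticOnNhd ℂ (Ψ r).symm (Ψ r).target ∧
        (∀ v ∈ (Ψ r).source, (Ψ r v).2 = q (c.φ j v)) ∧ AnalyticOnNhd ℂ (Ψ r) (Ψ r).source) ∧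
      ∀ u ∈ c.U j, Function.Surjective (q.comp (fderiv ℂ (c.φ j) u)) →
        ∃ r, u ∈ (Ψ r).source := by
    intro j
    let S := {Ψ : OpenPartialHomeomorph P ((Fin n → ℂ) × B) // Ψ.source ⊆ c.U j ∧
      AnalyticOnNhd ℂ Ψ.symm Ψ.target ∧ (∀ v ∈ Ψ.source, (Ψ v).2 = q (c.φ j v)) ∧
      AnalyticOnNhd ℂ Ψ Ψ.source}
    obtain ⟨e⟩ : Nonempty (P ≃L[ℂ] ((Fin n → ℂ) × B)) :=
      FiniteDimensional.nonempty_continuousLinearEquiv_of_finrank_eq (by simp [hm])
    let Ψ₀ : S := ⟨e.toHomeomorph.toOpenPartialHomeomorph.restrOpen ∅ isOpen_empty, by simp,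
      fun y hy => by simp at hy, fun v hv => by simp at hv, fun v hv => by simp at hv⟩
    obtain ⟨T, hT, hU⟩ := TopologicalSpace.isOpen_iUnion_countable (fun s : S => s.1.source)
      fun s => s.1.open_source
    obtain ⟨g, hg⟩ := (hT.insert Ψ₀).exists_eq_range (insert_nonempty _ _)
    refine ⟨fun r => (g r).1, fun r => (g r).2, fun u hu hs => ?_⟩
    have han : AnalyticAt ℂ (fun v => q (c.φ j v)) u := (q.analyticAt _).comp (c.an j u hu)
    have hd : fderiv ℂ (fun v => q (c.φ j v)) u = q.comp (fderiv ℂ (c.φ j) u) :=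
      (q.hasFDerivAt.comp u (c.an j u hu).differentiableAt.hasFDerivAt).fderiv
    obtain ⟨Ψ, h1, h2, h3, h4⟩ := exists_straighten hm han (by rw [hd]; exact hs)
    let Ψ₁ : S := ⟨Ψ.restrOpen (c.U j) (c.chart j).isOpen, by simp,
      fun y hy => h3 y hy.1, fun v hv => h4 v hv.1, fun v hv => h2 v hv.1⟩
    have : u ∈ ⋃ s : S, s.1.source := mem_iUnion.2 ⟨Ψ₁, h1, hu⟩
    rw [← hU] at this
    obtain ⟨s, hsT, hus⟩ := mem_iUnion₂.1 this
    obtain ⟨r, hr⟩ : s ∈ range g := hg ▸ mem_insert_of_mem _ hsT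
    exact ⟨r, by subst hr; exact hus⟩
  choose Ψ h1 h2 using key
  exact ⟨⟨fun k => Ψ k.1 k.2, fun k => (h1 k.1 k.2).1, fun k => (h1 k.1 k.2).2.1,
    fun k => (h1 k.1 k.2).2.2.1, h2⟩, fun k => (h1 k.1 k.2).2.2.2⟩

variable {c : Chain V Λ P} {q : V →L[ℂ] B} {n : ℕ} {ΛB : AddSubgroup B} {S : Sl.Str c q n}
  {a : B}

theorem slice_pt_inj (hS : ∀ k, AnalyticOnNhd ℂ (S.Ψ k) (S.Ψ k).source)
    {p : (c.J × ℕ) × ΛB} {w : Fin n → ℂ} (hw : w ∈ S.U a p) {dy : Fin n → ℂ}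
    (h : fderiv ℂ (S.pt a p) w dy = 0) : dy = 0 := by
  have h1 := (Sl.Str.analytic_pt p w hw).differentiableAt.hasFDerivAt
  have h2 := (hS p.1 _ (Sl.Str.pt_mem hw)).differentiableAt.hasFDerivAt
  have h3 := (hasFDerivAt_fst (𝕜 := ℂ) (p := S.Ψ p.1 (S.pt a p w))).comp w (h2.comp w h1)
  have h4 : HasFDerivAt (Prod.fst ∘ S.Ψ p.1 ∘ S.pt a p) (ContinuousLinearMap.id ℂ (Fin n → ℂ)) w := by
    refine (hasFDerivAt_id w).congr_of_eventuallyEq ?_
    filter_upwards [(Sl.Str.isOpen_U p).mem_nhds hw] with y hy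
    simp only [Function.comp, Sl.Str.apply_pt hy, id]
  have h5 := congrArg (fun L => L dy) (h3.unique h4)
  simp only [ContinuousLinearMap.comp_apply, h, map_zero, ContinuousLinearMap.id_apply] at h5
  exact h5.symm

theorem slice_q_fderiv {p : (c.J × ℕ) × ΛB} {w : Fin n → ℂ} (hw : w ∈ S.U a p)
    (dy : Fin n → ℂ) : q (fderiv ℂ (c.φ p.1.1) (S.pt a p w) (fderiv ℂ (S.pt a p) w dy)) = 0 := by
  have h1 := (Sl.Str.analytic_pt p w hw).differentiableAt.hasFDerivAt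
  have h2 := (c.an p.1.1 _ (S.sub _ (Sl.Str.pt_mem hw))).differentiableAt.hasFDerivAt
  have h3 := q.hasFDerivAt.comp w (h2.comp w h1)
  have h4 : HasFDerivAt (q ∘ c.φ p.1.1 ∘ S.pt a p) (0 : (Fin n → ℂ) →L[ℂ] B) w := by
    refine (hasFDerivAt_const (a + (p.2 : B)) w).congr_of_eventuallyEq ?_
    filter_upwards [(Sl.Str.isOpen_U p).mem_nhds hw] with y hy
    exact Sl.Str.q_pt hy
  exact congrArg (fun L => L dy) (h3.unique h4)

end General

variable {m : ℕ} [NeZero m] {ι : Type} [Fintype ι] {s d : ℕ}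

/-- the difference map -/
def sliceQ (m : ℕ) (ι : Type) : VS m ι × VS m ι →L[ℂ] VS m ι :=
  ContinuousLinearMap.fst ℂ _ _ - ContinuousLinearMap.snd ℂ _ _

omit [NeZero m] [Fintype ι] in
theorem sliceQ_mem : ∀ l ∈ (LL m ι).prod (LL m ι), sliceQ m ι l ∈ LL m ι :=
  fun _ hl => (LL m ι).sub_mem hl.1 hl.2

/-- the product of the power of the curve and the chain -/
abbrev sliceC (D : CD m) (c : Chain (VS m ι) (LL m ι) (Fin s → ℂ)) :
    Chain (VS m ι × VS m ι) ((LL m ι).prod (LL m ι)) ((ι → ℂ) × (Fin s → ℂ)) :=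
  cprod (isLat_LL m ι) (isLat_LL m ι) (D.Xc ι) c

theorem slice_iff (D : CD m) (c : Chain (VS m ι) (LL m ι) (Fin s → ℂ)) (t : VS m ι)
    (x : XS m ι) (z : c.Z) :
    Sl.qbar sliceQ_mem ((sliceC D c).F (x, z)) = QuotientAddGroup.mk t ↔
      c.F z = D.Φ x - QuotientAddGroup.mk t := by
  obtain ⟨v, hv⟩ := QuotientAddGroup.mk_surjective (D.Φ x)
  obtain ⟨v', hv'⟩ := QuotientAddGroup.mk_surjective (c.F z)
  have h := (cprod_F (isLat_LL m ι) (isLat_LL m ι) (D.Xc ι) c x z v v').2 ⟨hv.symm, hv'.symm⟩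
  have e : (sliceC D c).F (x, z) = QuotientAddGroup.mk (v, v') := h
  rw [e, Sl.qbar_mk, ← hv, ← hv']
  have e2 : (QuotientAddGroup.mk (sliceQ m ι (v, v')) : VS m ι ⧸ LL m ι) =
      QuotientAddGroup.mk v - QuotientAddGroup.mk v' := QuotientAddGroup.mk_sub _ v v'
  rw [e2, sub_eq_iff_eq_add, eq_sub_iff_add_eq, add_comm, eq_comm]

theorem slice_der (D : CD m) (c : Chain (VS m ι) (LL m ι) (Fin s → ℂ)) {t : VS m ι}
    {S : Sl.Str (sliceC D c) (sliceQ m ι) d} {p : ((sliceC D c).J × ℕ) × LL m ι}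
    {w : Fin d → ℂ} (hw : w ∈ S.U t p) (dy : Fin d → ℂ) :
    fderiv ℂ (fun y => (S.pt t p y).1) w dy = (fderiv ℂ (S.pt t p) w dy).1 ∧
      D.DD p.1.1.1 (S.pt t p w).1 (fderiv ℂ (S.pt t p) w dy).1 =
        fderiv ℂ (c.φ p.1.1.2) (S.pt t p w).2 (fderiv ℂ (S.pt t p) w dy).2 := by
  have h1 := (Sl.Str.analytic_pt p w hw).differentiableAt.hasFDerivAt
  have hU := S.sub _ (Sl.Str.pt_mem hw)
  constructor
  · rw [h1.fst.fderiv]
    rfl
  · have h2 := slice_q_fderiv hw dy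
    have h3 : HasFDerivAt ((sliceC D c).φ p.1.1) ((fderiv ℂ (D.GG p.1.1.1) (S.pt t p w).1).prodMap
        (fderiv ℂ (c.φ p.1.1.2) (S.pt t p w).2)) (S.pt t p w) :=
      HasFDerivAt.prodMap (S.pt t p w)
        (D.analytic_GG p.1.1.1 _ hU.1).differentiableAt.hasFDerivAt
        (c.an p.1.1.2 _ hU.2).differentiableAt.hasFDerivAt
    rw [h3.fderiv] at h2
    rw [← D.fderiv_GG hU.1]
    exact sub_eq_zero.1 h2

theorem CD.ae_slc {m : ℕ} [NeZero m] (D : CD m) {ι : Type} [Fintype ι] {s d : ℕ}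
    (c : Chain (VS m ι) (LL m ι) (Fin s → ℂ))
    (hc : ∀ j, ∀ u ∈ c.U j, Function.Injective (fderiv ℂ (c.φ j) u))
    (hs : Fintype.card ι + s = d + finrank ℂ (VS m ι)) (hd : d ≤ 2 * Fintype.card ι) :
    ∀ᵐ t ∂(volume : Measure (VS m ι)), ∃ J B, D.Slc c t d J B := by
  have hΛ := isLat_LL m ι
  have := hΛ.countable
  have : (volume : Measure (VS m ι)).IsAddHaarMeasure := Measure.pi.isAddHaarMeasure _
  have hm : finrank ℂ ((ι → ℂ) × (Fin s → ℂ)) = d + finrank ℂ (VS m ι) := by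
    rw [← hs]
    simp
  obtain ⟨S, hS⟩ := slice_exists_str (sliceC D c) (sliceQ m ι) hm
  have h1 := S.ae_good (ΛB := LL m ι) (volume : Measure (VS m ι)) hm
  have h2 : ∀ j : ι → FI m, ∀ᵐ t ∂(volume : Measure (VS m ι)),
      Thin d (((fun p : (ι → ℂ) × VS m ι => (p.1, D.GG j p.1 - p.2)) ''
        ((id '' Om m ι) ×ˢ Sl.bad c)) ∩ ContinuousLinearMap.snd ℂ (ι → ℂ) (VS m ι) ⁻¹' {t}) := by
    intro j
    refine Thin.slice volume ?_ _
    have h3 := (c.thin.param_prod (φ := id) (U := Om m ι) fun u _ => analyticAt_id).image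
      (g := fun p : (ι → ℂ) × VS m ι => (p.1, D.GG j p.1 - p.2)) (by
        rintro p ⟨⟨u, hu, hp⟩, -⟩
        have hp1 : p.1 ∈ Om m ι := hp ▸ hu
        exact analyticAt_fst.prod
          (((D.analytic_GG j _ hp1).comp analyticAt_fst).sub analyticAt_snd))
    refine h3.mono subset_rfl (le_of_eq ?_)
    rw [← hs]
    simp
  filter_upwards [h1, ae_all_iff.2 h2] with t hg hT
  rcases isEmpty_or_nonempty (Sl.Zs (sliceC D c) sliceQ_mem t) with hE | ⟨⟨z₀⟩⟩
  · refine ⟨⊤, ∅, fun _ _ _ => Submodule.mem_top, le_top, isClosed_empty,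
      fun _ _ _ h => h.elim, thin_empty _, fun w hw _ => ?_, ?_⟩
    · have := hw 1 Submodule.mem_top
      simp at this
    · rintro w ⟨x, z, -, h⟩
      exact (hE.false ⟨(x, z), (slice_iff D c t x z).2 h⟩).elim
  · let C : CC m ι d :=
      { Z := Sl.Zs (sliceC D c) sliceQ_mem t
        cpt := (S.chain t hΛ sliceQ_mem z₀ hg).cpt
        t2 := (S.chain t hΛ sliceQ_mem z₀ hg).t2
        π := fun z => z.1.1
        cont := continuous_fst.comp continuous_subtype_val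
        J := ((sliceC D c).J × ℕ) × LL m ι
        U := S.U t
        e := S.ι t sliceQ_mem z₀
        chart := Sl.Str.isChart hΛ sliceQ_mem z₀
        j := fun p => p.1.1.1
        u := fun p y => (S.pt t p y).1
        an := fun p y hy => analyticAt_fst.comp (Sl.Str.analytic_pt p y hy)
        mem := fun p y hy => (S.sub _ (Sl.Str.pt_mem hy)).1
        lift := fun p y hy => congrArg Prod.fst (Sl.Str.ι_val sliceQ_mem z₀ hy)
        imm := fun p y hy => by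
          rw [injective_iff_map_eq_zero]
          intro dy h0
          obtain ⟨e1, e2⟩ := slice_der D c hy dy
          rw [e1] at h0
          have hU := S.sub _ (Sl.Str.pt_mem hy)
          rw [h0, ← D.fderiv_GG hU.1, map_zero] at e2
          have e3 := (injective_iff_map_eq_zero _).1 (hc _ _ hU.2) _ e2.symm
          exact slice_pt_inj hS hy (Prod.ext h0 e3)
        thin := fun i => by
          refine ((hT i).image (g := Prod.fst) fun _ _ => analyticAt_fst).mono ?_ le_rfl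
          rintro v ⟨hv, ⟨⟨x, z⟩, hz⟩, hn, hx⟩
          have hx' : x = xp i v := hx
          subst hx'
          refine ⟨(v, t), ⟨⟨(v, D.GG i v - t), ⟨⟨v, hv, rfl⟩, z, ?_, ?_⟩, by simp⟩, rfl⟩, rfl⟩
          · rintro j ⟨y, hy, rfl⟩
            have hU : (v, y) ∈ (sliceC D c).U (i, j) := ⟨hv, hy⟩
            obtain ⟨l, hl⟩ := Sl.Str.exists_l sliceQ_mem hz ((sliceC D c).lift (i, j) _ hU)
            obtain ⟨r, hr⟩ := hg.reg (i, j) _ hU l hl
            obtain ⟨k1, k2⟩ := Sl.Str.of_source (S := S) (k := ((i, j), r)) hr hl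
            refine hn (((i, j), r), l) ⟨_, k1, Subtype.ext ?_⟩
            rw [Sl.Str.ι_val sliceQ_mem z₀ k1, k2]
            rfl
          · rw [(slice_iff D c t _ z).1 hz, D.Φ_xp hv, QuotientAddGroup.mk_sub] }
    obtain ⟨J, B, g1, g2, g3, g4, g5, g6, g7⟩ := C.exists_ideal hd
    refine ⟨J, B, g1, g2, g3, g4, g5, fun w hw hz => ?_, ?_⟩
    · obtain ⟨⟨⟨x, z⟩, hxz⟩, ho⟩ := g6 w hw hz
      exact ⟨x, z, ho, (slice_iff D c t x z).1 hxz⟩
    · rintro w ⟨x, z, ho, h⟩ hB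
      obtain ⟨k1, k2, p, y, hy, l, hl, hw, hv⟩ :=
        g7 w ⟨(x, z), (slice_iff D c t x z).2 h⟩ ho hB
      refine ⟨k1, k2, fun v hvT => ?_⟩
      obtain ⟨dy, dl, rfl⟩ := hv v hvT
      obtain ⟨e1, e2⟩ := slice_der D c hy dy
      have hU := S.sub _ (Sl.Str.pt_mem hy)
      refine ⟨_, ⟨C.j p, C.u p y, hU.1, l, _, dl, hl, hw, rfl, rfl⟩,
        xp (C.j p) (C.u p y), p.1.1.2, (S.pt t p y).2, hU.2, hw ▸ ov_cn hU.1 hl, ?_,
        (fderiv ℂ (S.pt t p) y dy).2, ?_⟩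
      · rw [← c.lift _ _ hU.2]
        exact (slice_iff D c t _ _).1 (Sl.Str.mem_Zs sliceQ_mem hy)
      · rw [← e2, ← e1]

end Pool.Agent.Tate
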