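import Pool.Agent.P.MP_2ce3e7_ag.TR
import Pool.Agent.P.MP_2ce3e7_ag.Avg
import Pool.Agent.P.MP_2ce3e7_ag.CDa
import Pool.Agent.P.MP_2ce3e7_ag.LevA
import Pool.Agent.P.MP_2ce3e7_ag.LevB
import Pool.Agent.P.MP_2ce3e7_ag.Count
import Pool.Agent.P.MP_2ce3e7_ag.Slice
import Pool.Agent.P.MP_2ce3e7_ag.Avoid
import Pool.Agent.P.MP_2ce3e7_ag.NF

/-! The analytic input. -/

set_option autoImplicit false

noncomputable section

namespace Pool.Agent.Tate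

open MvPolynomial MeasureTheory Set Module Pool.Agent.Weil Pool.Agent.Ferm

theorem AnMain_card {m : ℕ} [NeZero m] {ι : Type} [Fintype ι] [DecidableEq ι] {b : ι → Ch m}
    (hb : ∀ i, Nd (b i)) :
    Fintype.card ι + Fintype.card {j : IX m ι // j.2.1 ≠ b j.1} = 2 * finrank ℂ (VS m ι) := by
  have e : ι ≃ {j : IX m ι // j.2.1 = b j.1} :=
    { toFun := fun i => ⟨(i, ⟨b i, hb i⟩), rfl⟩
      invFun := fun j => j.1.1
      left_inv := fun _ => rfl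
      right_inv := fun j => Subtype.ext (Prod.ext rfl (Subtype.ext j.2.symm)) }
  have h1 := Fintype.card_subtype_compl fun j : IX m ι => j.2.1 = b j.1
  have h2 := Fintype.card_subtype_le fun j : IX m ι => j.2.1 = b j.1
  have h3 := Fintype.card_congr e
  have h4 := card_IX (m := m) (ι := ι)
  have h5 : Fintype.card {j : IX m ι // j.2.1 ≠ b j.1} =
      Fintype.card {j : IX m ι // ¬ j.2.1 = b j.1} := Fintype.card_congr (Equiv.refl _)
  omega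

theorem AnMain_back {m : ℕ} [NeZero m] {ι : Type} {D : CD m} (g : ι → Ch m)
    {w v : ι × Fin 3 → ℂ} {θ : VS m ι} (h : D.TG (gs g w) (gs g v) θ) :
    D.TG w v (dgs (-g) θ) ∧ dgs g (dgs (-g) θ) = θ := by
  have h1 := h.of_gs (-g)
  rw [gs_gs, gs_gs, neg_add_cancel, gs_zero, gs_zero] at h1
  exact ⟨h1, by rw [dgs_dgs, add_neg_cancel, dgs_zero]⟩

theorem an_main {m : ℕ} [NeZero m] (hm : ∀ l : ℕ, l.Prime → l ∣ m → l = 2 ∨ l % 4 = 3)
    {ι : Type} [Fintype ι] [DecidableEq ι] [Nonempty ι] {b : ι → Ch m} (hb : ∀ i, Nd (b i))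
    (hB : Bal b) : ∃ (w : Rt m ℂ) (J J' : Ideal (S ℂ ι)), GrI J ∧ Fer m ℂ ι ≤ J ∧ GrI J' ∧
      Fer m ℂ ι ≤ J' ∧
      (∀ g g', Transv (J.map (sc (c3 w (up g)))) (J'.map (sc (c3 w (up g'))))) ∧
      ∑ g, ∑ g', ch (-b) g * ch b g' * ((VV (J.map (sc (c3 w (up g)))) ∩
        VV (J'.map (sc (c3 w (up g'))))).ncard : ℂ) ≠ 0 := by
  obtain ⟨D⟩ := exists_cd m
  obtain ⟨d, hd⟩ : ∃ d, 2 * d = Fintype.card ι := ⟨_, hB 1 (Nat.coprime_one_left m)⟩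
  have hb' : ∀ i, Nd ((-b) i) := fun i => (hb i).neg
  have c1 := AnMain_card hb
  have c2 := AnMain_card hb'
  obtain ⟨s, hs⟩ : ∃ s, d + s = finrank ℂ (VS m ι) := ⟨finrank ℂ (VS m ι) - d, by omega⟩
  have e : Fin s ⊕ Fin s ≃ {j : IX m ι // j.2.1 ≠ b j.1} :=
    Fintype.equivOfCardEq (by rw [Fintype.card_sum, Fintype.card_fin]; omega)
  have e' : Fin s ⊕ Fin s ≃ {j : IX m ι // j.2.1 ≠ (-b) j.1} :=
    Fintype.equivOfCardEq (by rw [Fintype.card_sum, Fintype.card_fin]; omega)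
  obtain ⟨T₀, hT₀, n₀⟩ := exists_salg hm hb hB e
  obtain ⟨T₁, hT₁, n₁⟩ := exists_salg hm hb' (hB.neg hb) e'
  obtain ⟨c, k, T, hc, hT, n⟩ := exists_nice (isLat_LL m ι) hT₀ n₀
  obtain ⟨c', k', T', hc', hT', n'⟩ := exists_nice (isLat_LL m ι) hT₁ n₁
  obtain ⟨E, hE, h0, hgood⟩ := D.exists_set hb hc hc' (by omega) hT hT' e e' n n'
  have a1 := D.ae_slc (d := d) c hc.imm (by omega) (by omega)
  have a2 := D.ae_slc (d := d) c' hc'.imm (by omega) (by omega)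
  have ch1 : ∀ t, ∃ J B, (∃ J B, D.Slc c t d J B) → D.Slc c t d J B := fun t => by
    by_cases h : ∃ J B, D.Slc c t d J B
    · obtain ⟨J, B, h⟩ := h
      exact ⟨J, B, fun _ => h⟩
    · exact ⟨⊤, ∅, fun h' => absurd h' h⟩
  have ch2 : ∀ t, ∃ J B, (∃ J B, D.Slc c' t d J B) → D.Slc c' t d J B := fun t => by
    by_cases h : ∃ J B, D.Slc c' t d J B
    · obtain ⟨J, B, h⟩ := h
      exact ⟨J, B, fun _ => h⟩
    · exact ⟨⊤, ∅, fun h' => absurd h' h⟩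
  choose J B hJ using ch1
  choose J' B' hJ' using ch2
  obtain ⟨t, t', hmem, p, p', q, q'⟩ := exists_select (volume : Measure (VS m ι))
    (volume : Measure (VS m ι)) hE h0 (p := fun t => D.Slc c t d (J t) (B t))
    (p' := fun t => D.Slc c' t d (J' t) (B' t))
    (N := fun t => ⋃ g : ι → Ch m, {t' | ∃ w ∈ B t, D.Hit c' t' (gs g w)})
    (C := fun t' => ⋃ g : ι → Ch m, {t | ∃ w ∈ B' t', D.Hit c t (gs g w)})
    (a1.mono fun t ht => ⟨hJ t ht, measure_iUnion_null fun g =>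
      (CD.avoid (hJ t ht).inv D c' hs.le (hJ t ht).closed (hJ t ht).thin g).2⟩)
    (a2.mono fun t ht => ⟨hJ' t ht, isClosed_iUnion_of_finite fun g =>
      (CD.avoid (hJ' t ht).inv D c hs.le (hJ' t ht).closed (hJ' t ht).thin g).1,
      measure_iUnion_null fun g =>
      (CD.avoid (hJ' t ht).inv D c hs.le (hJ' t ht).closed (hJ' t ht).thin g).2⟩)
  obtain ⟨hsum, hfin⟩ := hgood _ hmem
  have out : ∀ g g' : ι → Ch m, ∀ y ∈ D.hits c c' g g' (t, t'),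
      gs g (rep y) ∉ B t ∧ gs g' (rep y) ∉ B' t' := fun g g' y hy =>
    ⟨fun h => q (mem_iUnion.2 ⟨g' - g, _, h, by rw [gs_gs, sub_add_cancel]; exact hy.2⟩),
      fun h => q' (mem_iUnion.2 ⟨g - g', _, h, by rw [gs_gs, sub_add_cancel]; exact hy.1⟩)⟩
  have eq : ∀ g g' : ι → Ch m, VV ((J t).map (sc (c3 (w0 m) (up g)))) ∩
      VV ((J' t').map (sc (c3 (w0 m) (up g')))) = D.hits c c' g g' (t, t') := fun g g' => by
    ext y
    constructor
    · rintro ⟨h1, h2⟩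
      exact ⟨p.hit _ ((mem_ZS_sc _ _ _).1 h1) ((nz_rep y).of_gs g),
        p'.hit _ ((mem_ZS_sc _ _ _).1 h2) ((nz_rep y).of_gs g')⟩
    · intro hy
      exact ⟨(mem_ZS_sc _ _ _).2 (p.good _ hy.1 (out g g' y hy).1).1,
        (mem_ZS_sc _ _ _).2 (p'.good _ hy.2 (out g g' y hy).2).1⟩
  refine ⟨w0 m, J t, J' t', p.gr, p.fer, p'.gr, p'.fer, fun g g' => ⟨?_, fun y hy => ?_⟩, ?_⟩
  · rw [eq]
    exact (hfin g g').1
  · rw [eq] at hy
    obtain ⟨z1, l1, t1⟩ := p.good _ hy.1 (out g g' y hy).1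
    obtain ⟨z2, l2, t2⟩ := p'.good _ hy.2 (out g g' y hy).2
    refine ⟨2 * Fintype.card ι - d, 2 * Fintype.card ι - d, by omega, LocGen.map_sc _ l1,
      LocGen.map_sc _ l2, ?_⟩
    rintro v ⟨v1, v2⟩
    obtain ⟨θ₁, g1, h1⟩ := t1 _ ((mem_Tan_sc _ z1 v).1 v1)
    obtain ⟨θ₂, g2, h2⟩ := t2 _ ((mem_Tan_sc _ z2 v).1 v2)
    obtain ⟨r1, r2⟩ := AnMain_back g g1
    obtain ⟨r3, r4⟩ := AnMain_back g' g2
    refine (hfin g g').2 _ v _ r1 (by rw [r2]; exact h1) ?_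
    rw [r1.unique r3, r4]
    exact h2
  · simpa only [eq] using hsum

end Pool.Agent.Tate
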