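import Pool.Agent.P.MP_2ce3e7_ag.Poly

/-! The ideal of the power of the Fermat curve is prime. -/

set_option autoImplicit false

noncomputable section

namespace Pool.Agent.Tate

section Step
open Polynomial

/-- the Fermat equation as a polynomial in the last variable -/
def ferP_g (m : ℕ) (R : Type) [CommRing R] : R[X][X][X] :=
  X ^ m - C (X ^ m + C (X ^ m))

theorem ferP_monic {m : ℕ} (R : Type) [CommRing R] (h : m ≠ 0) : (ferP_g m R).Monic :=
  monic_X_pow_sub_C _ h

theorem ferP_prime_closed {m : ℕ} (K : Type) [Field K] [IsAlgClosed K] (hm : (m : K) ≠ 0) :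
    Prime (ferP_g m K) := by
  have h0 : m ≠ 0 := by rintro rfl; simp at hm
  obtain ⟨e, he⟩ := IsAlgClosed.exists_pow_nat_eq (-1 : K) (Nat.pos_of_ne_zero h0)
  have he0 : e ≠ 0 := by rintro rfl; simp [h0] at he
  have hp : Prime (X - C (C e * X) : K[X][X]) := prime_X_sub_C _
  have hP : (Ideal.span {(X - C (C e * X) : K[X][X])}).IsPrime :=
    (Ideal.span_singleton_prime hp.ne_zero).2 hp
  have hd : (ferP_g m K).degree = m := degree_X_pow_sub_C (Nat.pos_of_ne_zero h0) _
  have hc0 : (ferP_g m K).coeff 0 = -(X ^ m + C (X ^ m)) := by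
    simp only [ferP_g, coeff_sub, coeff_X_pow, coeff_C_zero, if_neg h0.symm, zero_sub]
  refine (irreducible_of_eisenstein_criterion hP ?_ ?_ ?_ ?_ (ferP_monic K h0).isPrimitive).prime
  · rw [(ferP_monic K h0).leadingCoeff]
    exact (Ideal.ne_top_iff_one _).1 hP.ne_top
  · intro n hn
    rw [hd, Nat.cast_lt] at hn
    rcases eq_or_ne n 0 with rfl | hn0
    · rw [hc0, neg_mem_iff, Ideal.mem_span_singleton, dvd_iff_isRoot]
      rw [IsRoot, eval_add, eval_pow, eval_X, eval_C, mul_pow, ← C_pow, he, C_neg, C_1]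
      ring
    · simp only [ferP_g, coeff_sub, coeff_X_pow, coeff_C, if_neg hn.ne, if_neg hn0, sub_zero]
      exact zero_mem _
  · rw [hd]; exact_mod_cast Nat.pos_of_ne_zero h0
  · rw [hc0, neg_mem_iff, Ideal.span_singleton_pow, Ideal.mem_span_singleton]
    intro h
    have h1 := pow_sub_one_dvd_derivative_of_pow_dvd h
    rw [show 2 - 1 = 1 from rfl, pow_one, dvd_iff_isRoot] at h1
    rw [IsRoot, derivative_add, derivative_C, add_zero, derivative_X_pow, eval_mul, eval_C,
      eval_pow, eval_X, ← C_eq_natCast] at h1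
    exact mul_ne_zero (C_ne_zero.2 hm) (pow_ne_zero _ (mul_ne_zero (C_ne_zero.2 he0) X_ne_zero)) h1

theorem ferP_prime {m : ℕ} (R : Type) [CommRing R] [IsDomain R] (hm : (m : R) ≠ 0) :
    Prime (ferP_g m R) := by
  have h0 : m ≠ 0 := by rintro rfl; simp at hm
  let K := AlgebraicClosure (FractionRing R)
  let j : R →+* K := (algebraMap (FractionRing R) K).comp (algebraMap R (FractionRing R))
  have hj : Function.Injective j :=
    (algebraMap (FractionRing R) K).injective.comp (IsFractionRing.injective R _)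
  have hK : (m : K) ≠ 0 := fun h => hm (hj (by rw [map_natCast, h, map_zero]))
  let φ : R[X][X] →+* K[X][X] := mapRingHom (mapRingHom j)
  have hφ : Function.Injective φ := map_injective _ (map_injective _ hj)
  have hg : (ferP_g m R).map φ = ferP_g m K := by
    simp [ferP_g, φ]
  have hp := ferP_prime_closed K hK
  rw [← hg] at hp
  refine ⟨(ferP_monic R h0).ne_zero, fun h => hp.not_isUnit (h.map (mapRingHom φ)), fun a b h => ?_⟩
  rw [← map_dvd_map φ hφ (ferP_monic R h0), Polynomial.map_mul] at h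
  rw [← map_dvd_map φ hφ (ferP_monic R h0), ← map_dvd_map φ hφ (ferP_monic R h0)]
  exact hp.dvd_or_dvd h

theorem ferP_step {m : ℕ} (R : Type) [CommRing R] [IsDomain R] (hm : (m : R) ≠ 0) :
    ∃ (R' : Type) (_ : CommRing R') (_ : IsDomain R') (j : R →+* R') (x : Fin 3 → R'),
      (m : R') ≠ 0 ∧ x 0 ^ m + x 1 ^ m - x 2 ^ m = 0 ∧
      ∀ (Q : Type) [CommRing Q] (i : R →+* Q) (u : Fin 3 → Q), u 0 ^ m + u 1 ^ m - u 2 ^ m = 0 →
        ∃ ψ : R' →+* Q, (∀ r, ψ (j r) = i r) ∧ ∀ a, ψ (x a) = u a := by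
  have h0 : m ≠ 0 := by rintro rfl; simp at hm
  have hd : (ferP_g m R).degree = m := degree_X_pow_sub_C (Nat.pos_of_ne_zero h0) _
  have hinj : Function.Injective (AdjoinRoot.of (ferP_g m R)) :=
    AdjoinRoot.of.injective_of_degree_ne_zero (by rw [hd]; exact_mod_cast h0)
  refine ⟨AdjoinRoot (ferP_g m R), inferInstance, AdjoinRoot.isDomain_of_prime (ferP_prime R hm),
    (AdjoinRoot.of _).comp (C.comp C),
    ![AdjoinRoot.of _ X, AdjoinRoot.of _ (C X), AdjoinRoot.root _], fun h => hm ?_, ?_,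
    fun Q _ i u hu => ?_⟩
  · apply (C_injective (R := R))
    apply (C_injective (R := R[X]))
    apply hinj
    simpa using h
  · have := AdjoinRoot.eval₂_root (ferP_g m R)
    conv_lhs at this => arg 3; rw [ferP_g]
    rw [eval₂_sub, eval₂_X_pow, eval₂_C, map_add, map_pow, C_pow, map_pow] at this
    simp only [Matrix.cons_val_zero, Matrix.cons_val_one, Matrix.cons_val]
    linear_combination -this
  · refine ⟨AdjoinRoot.lift (eval₂RingHom (eval₂RingHom i (u 1)) (u 0)) (u 2) ?_, fun r => ?_,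
      fun a => ?_⟩
    · simp only [ferP_g, eval₂_sub, eval₂_X_pow, eval₂_C, coe_eval₂RingHom, eval₂_add]
      linear_combination -hu
    · simp [AdjoinRoot.lift_of]
    · fin_cases a <;> simp [AdjoinRoot.lift_of, AdjoinRoot.lift_root]

end Step

open MvPolynomial

theorem ferP_equiv {m : ℕ} {R α β : Type} [CommRing R] (e : α ≃ β) (h : (Fer m R α).IsPrime) :
    (Fer m R β).IsPrime := by
  have : Fer m R β = (Fer m R α).comap (rn e.symm : S R β →ₐ[R] S R α) := by
    ext g
    refine ⟨fun hg => rn_mem_Fer _ hg, fun hg => ?_⟩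
    have h1 := rn_mem_Fer e (Ideal.mem_comap.1 hg)
    have h2 : Prod.map e id ∘ Prod.map e.symm id = (id : β × Fin 3 → β × Fin 3) := by
      funext v; obtain ⟨a, b⟩ := v; simp
    rwa [rn, rn, rename_rename, h2, rename_id_apply] at h1
  rw [this]
  exact Ideal.comap_isPrime _ _

theorem ferP_option {m : ℕ} {α : Type}
    (ih : ∀ (R : Type) [CommRing R] [IsDomain R], (m : R) ≠ 0 → (Fer m R α).IsPrime)
    (R : Type) [CommRing R] [IsDomain R] (hm : (m : R) ≠ 0) : (Fer m R (Option α)).IsPrime := by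
  obtain ⟨R', _, _, j, x, hm', hx, hu⟩ := ferP_step R hm
  have := ih R' hm'
  let θ : S R (Option α) →+* S R' α :=
    eval₂Hom (C.comp j) fun v => v.1.elim (C (x v.2)) fun i => X (i, v.2)
  let q := Ideal.Quotient.mk (Fer m R (Option α))
  have hq : ∀ i, q (X (i, 0)) ^ m + q (X (i, 1)) ^ m - q (X (i, 2)) ^ m = 0 := fun i => by
    have := Ideal.Quotient.eq_zero_iff_mem.2 (fer_mem (m := m) (k := R) i)
    simpa only [fer, map_sub, map_add, map_pow] using this
  obtain ⟨ψ, h1, h2⟩ := hu _ (q.comp C) (fun a => q (X (none, a))) (hq none)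
  let ρ : S R' α →+* _ := eval₂Hom ψ fun v => q (X (some v.1, v.2))
  have hρ : ρ.comp θ = q := by
    refine ringHom_ext (fun r => by simp [ρ, θ, h1]) ?_
    rintro ⟨_ | i, a⟩
    · simp [ρ, θ, h2]
    · simp [ρ, θ]
  have : Fer m R (Option α) = (Fer m R' α).comap θ := by
    refine le_antisymm (Ideal.span_le.2 ?_) fun g hg => ?_
    · rintro _ ⟨_ | i, rfl⟩
      · have : θ (fer m R none) = 0 := by
          have := congrArg (C : R' →+* S R' α) hx
          simpa [θ, fer] using this
        exact Ideal.mem_comap.2 (this ▸ zero_mem _)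
      · have : θ (fer m R (some i)) = fer m R' i := by simp [θ, fer]
        exact Ideal.mem_comap.2 (this ▸ fer_mem i)
    · have h3 : Fer m R' α ≤ RingHom.ker ρ := by
        refine Ideal.span_le.2 ?_
        rintro _ ⟨i, rfl⟩
        have := hq (some i)
        simpa [ρ, fer] using this
      rw [← Ideal.Quotient.eq_zero_iff_mem]
      change q g = 0
      rw [← hρ]
      exact h3 hg
  rw [this]
  exact Ideal.comap_isPrime _ _

variable {m : ℕ} {k ι : Type} [Field k] [Finite ι]

theorem fer_isPrime (hm : (m : k) ≠ 0) : (Fer m k ι).IsPrime := by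
  refine Finite.induction_empty_option (P := fun α => ∀ (R : Type) [CommRing R] [IsDomain R],
    (m : R) ≠ 0 → (Fer m R α).IsPrime) (fun e h R _ _ hR => ferP_equiv e (h R hR))
    (fun R _ _ _ => ?_) (fun h => ferP_option h) ι k hm
  rw [Fer, Set.range_eq_empty, Ideal.span_empty]
  exact Ideal.isPrime_bot

/-- a polynomial that does not vanish at a point of the cone is not in the ideal -/
theorem notMem_Fer {K : Type} [Field K] [Algebra k K] {f : S k ι} (x : ι × Fin 3 → K)
    (hx : ∀ i, OnF m fun j => x (i, j)) (hf : aeval x f ≠ 0) : f ∉ Fer m k ι := by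
  intro h
  have : Fer m k ι ≤ RingHom.ker (aeval x : S k ι →ₐ[k] K) := by
    refine Ideal.span_le.2 ?_
    rintro _ ⟨i, rfl⟩
    have := hx i
    simp only [OnF] at this
    simp [fer, this]
  exact hf (this h)

theorem ferP_on1 (hm : (m : k) ≠ 0) : OnF m (![1, 0, 1] : Fin 3 → k) := by
  have h0 : m ≠ 0 := by rintro rfl; simp at hm
  simp [OnF, h0]

theorem ferP_on2 (hm : (m : k) ≠ 0) : OnF m (![0, 1, 1] : Fin 3 → k) := by
  have h0 : m ≠ 0 := by rintro rfl; simp at hm
  simp [OnF, h0]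

theorem X_notMem_Fer (hm : (m : k) ≠ 0) (v : ι × Fin 3) : (X v : S k ι) ∉ Fer m k ι := by
  obtain ⟨i, j⟩ := v
  by_cases hj : j = 1
  · subst hj
    exact notMem_Fer (K := k) (fun v => ![0, 1, 1] v.2) (fun _ => ferP_on2 hm) (by simp)
  · refine notMem_Fer (K := k) (fun v => ![1, 0, 1] v.2) (fun _ => ferP_on1 hm) ?_
    fin_cases j <;> simp at hj ⊢

theorem exists_minor_notMem (hm : (m : k) ≠ 0) {i j : ι} (h : i ≠ j) :
    ∃ a, minor k i j a ∉ Fer m k ι := by
  classical
  refine ⟨2, notMem_Fer (K := k) (fun v => (if v.1 = i then ![1, 0, 1] else ![0, 1, 1]) v.2)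
    (fun l => ?_) ?_⟩
  · by_cases hl : l = i
    · simpa only [hl, if_true] using ferP_on1 hm
    · simpa only [hl, if_false] using ferP_on2 hm
  · have e1 : (2 : Fin 3) + 1 = 0 := rfl
    have e2 : (2 : Fin 3) + 2 = 1 := rfl
    simp [minor, h.symm, e1, e2]

theorem PD0_isPrime (hm : (m : k) ≠ 0) : (PD0 m k).IsPrime := by
  have := fer_isPrime (ι := Unit) hm
  exact core_isPrime (Ideal.comap_isPrime _ _)

theorem grI_PD0 : GrI (PD0 m k) := grW_core _

theorem Fer_le_PD0 : Fer m k (Unit ⊕ Unit) ≤ PD0 m k :=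
  grI_Fer.le_core fun _ hg => rn_mem_Fer _ hg

theorem minor_mem_PD0 (a : Fin 3) : minor k (Sum.inl ()) (Sum.inr ()) a ∈ PD0 m k := by
  refine (mem_core (hg_minor _ _ a)).2 (Ideal.mem_comap.2 ?_)
  rw [rn_minor, minor, mul_comm, sub_self]
  exact zero_mem _

theorem mem_PD0 {f : S k (Unit ⊕ Unit)} {d : Unit ⊕ Unit → ℤ} (hf : Hg f d) :
    f ∈ PD0 m k ↔ rn (fun _ => ()) f ∈ Fer m k Unit := mem_core hf

theorem ferP_scale {I Q : Type} [Fintype I] [CommRing Q] [Algebra k Q] {f : S k I} {d : I → ℤ}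
    (hf : Hg f d) (l : I → Q) (p : I × Fin 3 → Q) :
    aeval (fun v => l v.1 * p v) f = (∏ i, l i ^ (d i).toNat) * aeval p f := by
  rw [aeval_def, aeval_def, eval₂_eq', eval₂_eq', Finset.mul_sum]
  refine Finset.sum_congr rfl fun s hs => ?_
  have : ∏ v : I × Fin 3, l v.1 ^ s v = ∏ i, l i ^ (d i).toNat := by
    rw [Fintype.prod_prod_type]
    refine Finset.prod_congr rfl fun i _ => ?_
    rw [← hf.deg hs i, Int.toNat_natCast, ← Finset.prod_pow_eq_pow_sum]
  simp only [mul_pow, Finset.prod_mul_distrib, this]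
  ring

theorem ferP_cross (j l : Fin 3) :
    (X (Sum.inr (), j) * X (Sum.inl (), l) - X (Sum.inl (), j) * X (Sum.inr (), l) :
      S k (Unit ⊕ Unit)) ∈ Ideal.span (Set.range (minor k (Sum.inl ()) (Sum.inr ()))) := by
  have h : ∀ a, minor k (Sum.inl ()) (Sum.inr ()) a ∈
      Ideal.span (Set.range (minor k (Sum.inl () : Unit ⊕ Unit) (Sum.inr ()))) :=
    fun a => Ideal.subset_span ⟨a, rfl⟩
  have h0 : (X (Sum.inl (), 1) * X (Sum.inr (), 2) - X (Sum.inl (), 2) * X (Sum.inr (), 1) :
    S k (Unit ⊕ Unit)) ∈ _ := h 0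
  have h1 : (X (Sum.inl (), 2) * X (Sum.inr (), 0) - X (Sum.inl (), 0) * X (Sum.inr (), 2) :
    S k (Unit ⊕ Unit)) ∈ _ := h 1
  have h2 : (X (Sum.inl (), 0) * X (Sum.inr (), 1) - X (Sum.inl (), 1) * X (Sum.inr (), 0) :
    S k (Unit ⊕ Unit)) ∈ _ := h 2
  have key : ∀ {x y : S k (Unit ⊕ Unit)} {J : Ideal (S k (Unit ⊕ Unit))}, y ∈ J →
      (x = 0 ∨ x = y ∨ x = -y) → x ∈ J := by
    rintro x y J hy (rfl | rfl | rfl)
    exacts [zero_mem _, hy, neg_mem hy]
  match j, l with
  | 0, 0 => exact key h0 (Or.inl (by ring))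
  | 1, 1 => exact key h0 (Or.inl (by ring))
  | 2, 2 => exact key h0 (Or.inl (by ring))
  | 0, 1 => exact key h2 (Or.inr (Or.inr (by ring)))
  | 1, 0 => exact key h2 (Or.inr (Or.inl (by ring)))
  | 0, 2 => exact key h1 (Or.inr (Or.inl (by ring)))
  | 2, 0 => exact key h1 (Or.inr (Or.inr (by ring)))
  | 1, 2 => exact key h0 (Or.inr (Or.inr (by ring)))
  | 2, 1 => exact key h0 (Or.inr (Or.inl (by ring)))

/-- up to a power of a variable the ideal of the diagonal is generated by the minors -/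
theorem PD0_mul {f : S k (Unit ⊕ Unit)} (hf : f ∈ PD0 m k) (j : Fin 3) :
    ∃ N : ℕ, X (Sum.inr (), j) ^ N * f ∈
      Ideal.span (Set.range (minor k (Sum.inl ()) (Sum.inr ()))) ⊔ Fer m k (Unit ⊕ Unit) := by
  set I := Ideal.span (Set.range (minor k (Sum.inl ()) (Sum.inr ()))) ⊔ Fer m k (Unit ⊕ Unit)
    with hI
  induction hf using Submodule.span_induction with
  | zero => exact ⟨0, by simp⟩
  | add a b _ _ ha hb =>
    obtain ⟨N, hN⟩ := ha
    obtain ⟨N', hN'⟩ := hb
    refine ⟨N + N', ?_⟩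
    have := add_mem (I.mul_mem_left (X (Sum.inr (), j) ^ N') hN)
      (I.mul_mem_left (X (Sum.inr (), j) ^ N) hN')
    rwa [show X (Sum.inr (), j) ^ (N + N') * (a + b) =
      X (Sum.inr (), j) ^ N' * (X (Sum.inr (), j) ^ N * a) +
        X (Sum.inr (), j) ^ N * (X (Sum.inr (), j) ^ N' * b) by ring]
  | smul c a _ ha =>
    obtain ⟨N, hN⟩ := ha
    exact ⟨N, by rw [smul_eq_mul, mul_left_comm]; exact I.mul_mem_left c hN⟩
  | mem f hf =>
    obtain ⟨h1, d, hd⟩ := hf
    let q := Ideal.Quotient.mkₐ k I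
    have hq : ∀ g, g ∈ I → q g = 0 := fun g hg => Ideal.Quotient.eq_zero_iff_mem.2 hg
    have e1 := ferP_scale hd (Sum.elim (fun _ => q (X (Sum.inr (), j))) fun _ => 1)
      fun v => q (X v)
    have e2 := ferP_scale hd (Sum.elim (fun _ => q (X (Sum.inl (), j))) fun _ => 1)
      fun v => q (X (Sum.inr (), v.2))
    have e3 : (fun v : (Unit ⊕ Unit) × Fin 3 =>
        Sum.elim (fun _ => q (X (Sum.inr (), j))) (fun _ => 1) v.1 * q (X v)) =
        fun v => Sum.elim (fun _ => q (X (Sum.inl (), j))) (fun _ => 1) v.1 *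
          q (X (Sum.inr (), v.2)) := by
      funext v
      obtain ⟨_ | _, l⟩ := v
      · have := hq _ (Ideal.mem_sup_left (ferP_cross j l))
        rw [map_sub, map_mul, map_mul, sub_eq_zero] at this
        exact this
      · rfl
    have e4 : (aeval fun v => q (X v)) = q := by
      refine algHom_ext fun v => by simp
    have e5 : (aeval fun v : (Unit ⊕ Unit) × Fin 3 => q (X (Sum.inr (), v.2))) =
        q.comp ((rn Sum.inr).comp (rn fun _ => ())) := by
      refine algHom_ext fun v => by simp [rn_X]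
    have e6 : aeval (fun v : (Unit ⊕ Unit) × Fin 3 => q (X (Sum.inr (), v.2))) f = 0 := by
      rw [e5]
      exact hq _ (Ideal.mem_sup_right (rn_mem_Fer _ (Ideal.mem_comap.1 h1)))
    rw [e3, e2, e6, mul_zero, e4] at e1
    refine ⟨(d (Sum.inl ())).toNat, Ideal.Quotient.eq_zero_iff_mem.1 ?_⟩
    change q _ = 0
    rw [map_mul, map_pow, e1]
    simp

section Base
variable {k' σ τ : Type} [Field k'] [Algebra k k']

/-- a linear form applied to all coefficients -/
def ferP_co (l : k' →ₗ[k] k) (f : MvPolynomial σ k') : MvPolynomial σ k :=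
  ∑ s ∈ f.support, monomial s (l (coeff s f))

theorem ferP_coeff (l : k' →ₗ[k] k) (f : MvPolynomial σ k') (s : σ →₀ ℕ) :
    coeff s (ferP_co l f) = l (coeff s f) := by
  classical
  rw [ferP_co, coeff_sum]
  simp only [coeff_monomial, Finset.sum_ite_eq']
  split_ifs with h
  · rfl
  · rw [notMem_support_iff.1 h, map_zero]

theorem ferP_co_mul (l : k' →ₗ[k] k) (f : MvPolynomial σ k') (g : MvPolynomial σ k) :
    ferP_co l (f * map (algebraMap k k') g) = ferP_co l f * g := by
  classical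
  ext s
  rw [ferP_coeff, coeff_mul, coeff_mul, map_sum]
  refine Finset.sum_congr rfl fun x _ => ?_
  rw [coeff_map, ferP_coeff, mul_comm, ← Algebra.smul_def, map_smul, smul_eq_mul, mul_comm]

theorem ferP_co_rename (l : k' →ₗ[k] k) (φ : σ → τ) (f : MvPolynomial σ k') :
    ferP_co l (rename φ f) = rename φ (ferP_co l f) := by
  classical
  have hm : ∀ {α : Type} (s : α →₀ ℕ) (a : k'), ferP_co l (monomial s a) = monomial s (l a) := by
    intro α s a
    ext t
    rw [ferP_coeff, coeff_monomial, coeff_monomial]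
    split_ifs <;> simp
  have ha : ∀ {α : Type} (f g : MvPolynomial α k'),
      ferP_co l (f + g) = ferP_co l f + ferP_co l g := by
    intro α f g
    ext t
    simp only [ferP_coeff, coeff_add, map_add]
  induction f using MvPolynomial.induction_on' with
  | monomial s a => rw [rename_monomial, hm, hm, rename_monomial]
  | add p q hp hq => rw [map_add, ha, ha, map_add, hp, hq]

theorem ferP_co_mem {J : Ideal (MvPolynomial σ k')} {f : MvPolynomial σ k'}
    (h : ∀ l : k' →ₗ[k] k, map (algebraMap k k') (ferP_co l f) ∈ J) : f ∈ J := by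
  classical
  let B := Module.Basis.ofVectorSpace k k'
  let T := f.support.biUnion fun s => (B.repr (coeff s f)).support
  have : f = ∑ b ∈ T, C (B b) * map (algebraMap k k') (ferP_co (B.coord b) f) := by
    ext s
    rw [coeff_sum]
    simp only [coeff_C_mul, coeff_map, ferP_coeff, Module.Basis.coord_apply]
    by_cases hs : s ∈ f.support
    · conv_lhs => rw [← B.linearCombination_repr (coeff s f), Finsupp.linearCombination_apply]
      rw [Finsupp.sum_of_support_subset _
        (Finset.subset_biUnion_of_mem (fun s => (B.repr (coeff s f)).support) hs) _ (by simp)]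
      exact Finset.sum_congr rfl fun b _ => by rw [Algebra.smul_def, mul_comm]
    · simp [notMem_support_iff.1 hs]
  rw [this]
  exact J.sum_mem fun b _ => J.mul_mem_left _ (h _)

end Base

theorem map_PD0 {k' : Type} [Field k'] [Algebra k k'] :
    (PD0 m k).map (map (algebraMap k k') : S k _ →+* S k' _) = PD0 m k' := by
  refine le_antisymm (Ideal.map_le_iff_le_comap.2 (grI_PD0.le_of_hom fun f d hd hf => ?_))
    (grI_PD0.le_of_hom fun f d hd hf => ferP_co_mem (k := k) fun l => Ideal.mem_map_of_mem _ ?_)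
  · have h1 : Hg (map (algebraMap k k') f) d := fun s hs => hd fun h => hs (by
      rw [coeff_map, h, map_zero])
    refine Ideal.mem_comap.2 ((mem_PD0 h1).2 ?_)
    have := map_mem_Fer (algebraMap k k') ((mem_PD0 hd).1 hf)
    rwa [rn, map_rename] at this
  · have h1 : Hg (ferP_co l f) d := fun s hs => hd fun h => hs (by rw [ferP_coeff, h, map_zero])
    refine (mem_PD0 h1).2 ?_
    obtain ⟨c, hc⟩ := Ideal.mem_span_range_iff_exists_fun.1 ((mem_PD0 hd).1 hf)
    rw [Fintype.sum_unique, ← map_fer (algebraMap k k')] at hc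
    rw [rn] at hc ⊢
    rw [← ferP_co_rename, ← hc, ferP_co_mul]
    exact Ideal.mul_mem_left _ _ (fer_mem _)

theorem ferP_sc_mem {I : Type} {c : I × Fin 3 → k} (hc : ∀ v, c v ^ m = 1) {g : S k I}
    (hg : g ∈ Fer m k I) : sc c g ∈ Fer m k I := by
  have : Fer m k I ≤ (Fer m k I).comap (sc c) := by
    refine Ideal.span_le.2 ?_
    rintro _ ⟨i, rfl⟩
    exact Ideal.mem_comap.2 (by rw [sc_fer hc]; exact fer_mem i)
  exact this hg

theorem comap_sc_PD0 {c : Fin 3 → k} (hc : ∀ j, c j ^ m = 1) (h0 : ∀ j, c j ≠ 0) :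
    (PD0 m k).comap (sc fun v => c v.2) = PD0 m k := by
  have e : (rn fun _ => ()).comp (sc fun v : (Unit ⊕ Unit) × Fin 3 => c v.2) =
      (sc fun v : Unit × Fin 3 => c v.2).comp (rn fun _ => ()) := by
    refine algHom_ext fun v => ?_
    rw [AlgHom.comp_apply, AlgHom.comp_apply, sc_X, rn_X, sc_X, map_mul, rn_X, rn, rename_C]
  have key : ∀ f d, Hg f d → (f ∈ (PD0 m k).comap (sc fun v => c v.2) ↔ f ∈ PD0 m k) := by
    intro f d hd
    rw [Ideal.mem_comap, mem_PD0 (hg_sc _ hd), mem_PD0 hd, ← AlgHom.comp_apply, e,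
      AlgHom.comp_apply]
    refine ⟨fun h => ?_, ferP_sc_mem fun v => hc v.2⟩
    have h1 := ferP_sc_mem (c := fun v : Unit × Fin 3 => (c v.2)⁻¹)
      (fun v => by rw [inv_pow, hc, inv_one]) h
    have h2 : ((fun v : Unit × Fin 3 => (c v.2)⁻¹) * fun v : Unit × Fin 3 => c v.2) = 1 :=
      funext fun v => inv_mul_cancel₀ (h0 v.2)
    rwa [sc_sc, h2, sc_one] at h1
  exact le_antisymm ((grI_PD0.comap_sc _).le_of_hom fun f d hd => (key f d hd).1)
    (grI_PD0.le_of_hom fun f d hd => (key f d hd).2)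

end Pool.Agent.Tate
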