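import Pool.Agent.P.MP_2ce3e7_ag.Ops
import Pool.Agent.P.MP_2ce3e7_ag.FerP

/-! Isotypic components. -/

set_option autoImplicit false

noncomputable section

namespace Pool.Agent.Tate

open MvPolynomial

variable {m : ℕ} [NeZero m] {k ι κ : Type} [Field k] [Fintype ι] [DecidableEq ι] [Fintype κ]
  [DecidableEq κ] (ζ : Rt m k)

/-- isotypic part for one factor -/
def E1 (i : ι) (a : Ch m) : Submodule ℂ (G m k ι) :=
  eig (fun g => tw ζ (Pi.single i g)) (ch1 a)

/-- projector for one factor -/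
def P1 (i : ι) (a : Ch m) : Module.End ℂ (G m k ι) :=
  avg (fun g => tw ζ (Pi.single i g)) (ch1 a)

/-- isotypic part -/
def Ga (a : ι → Ch m) : Submodule ℂ (G m k ι) := eig (tw ζ) (ch a)

/-- projector -/
def pr (a : ι → Ch m) : Module.End ℂ (G m k ι) := avg (tw ζ) (ch a)

variable {ζ}

theorem eig_ch1_add (a g h : Ch m) : ch1 a (g + h) = ch1 a g * ch1 a h := by
  rw [ch1_comm, ch1_add_left, ch1_comm g, ch1_comm h]

theorem eig_ch1_zero (a : Ch m) : ch1 a 0 = 1 := by rw [ch1_comm, ch1_zero]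

omit [DecidableEq ι] in
theorem eig_ch_zero (a : ι → Ch m) : ch a 0 = 1 := by rw [ch_comm, ch_zero]

theorem eig_rho_add (i : ι) (g h : Ch m) :
    (tw ζ (Pi.single i (g + h)) : Module.End ℂ (G m k ι)) =
      tw ζ (Pi.single i g) * tw ζ (Pi.single i h) := by
  rw [Pi.single_add, tw_add]

omit [DecidableEq ι] in
theorem eig_tw_comm (g h : ι → Ch m) (x : G m k ι) : tw ζ g (tw ζ h x) = tw ζ h (tw ζ g x) := by
  rw [← Module.End.mul_apply, ← tw_add, add_comm, tw_add, Module.End.mul_apply]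

theorem eig_P1_tw (i : ι) (a : Ch m) (g : ι → Ch m) (x : G m k ι) :
    P1 ζ i a (tw ζ g x) = tw ζ g (P1 ζ i a x) :=
  (avg_comm (tw ζ g) (fun _ y => eig_tw_comm _ _ y) x).symm

theorem eig_card : (Fintype.card (Ch m) : ℂ) = (m : ℂ) ^ 2 := by
  rw [Fintype.card_prod, ZMod.card, Nat.cast_mul, sq]

theorem eig_box_left (i : ι) (g : Ch m) (x : G m k ι) (y : G m k κ) :
    tw ζ (Pi.single (Sum.inl i) g) (boxG x y) = boxG (tw ζ (Pi.single i g) x) y := by
  have h1 : (Pi.single (Sum.inl i) g : ι ⊕ κ → Ch m) ∘ Sum.inl = Pi.single i g := by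
    funext l
    by_cases hl : l = i
    · subst hl; simp
    · simp [hl]
  have h2 : (Pi.single (Sum.inl i) g : ι ⊕ κ → Ch m) ∘ Sum.inr = 0 := by
    funext l; simp
  rw [tw_box, h1, h2, tw_zero, Module.End.one_apply]

theorem eig_box_right (i : κ) (g : Ch m) (x : G m k ι) (y : G m k κ) :
    tw ζ (Pi.single (Sum.inr i) g) (boxG x y) = boxG x (tw ζ (Pi.single i g) y) := by
  have h1 : (Pi.single (Sum.inr i) g : ι ⊕ κ → Ch m) ∘ Sum.inr = Pi.single i g := by
    funext l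
    by_cases hl : l = i
    · subst hl; simp
    · simp [hl]
  have h2 : (Pi.single (Sum.inr i) g : ι ⊕ κ → Ch m) ∘ Sum.inl = 0 := by
    funext l; simp
  rw [tw_box, h1, h2, tw_zero, Module.End.one_apply]

theorem mem_Ga {a : ι → Ch m} {x : G m k ι} : x ∈ Ga ζ a ↔ ∀ i, x ∈ E1 ζ i (a i) := by
  constructor
  · intro h i g
    have := h (Pi.single i g)
    rwa [ch_single] at this
  · intro h g
    have key : ∀ s : Finset ι, tw ζ (∑ i ∈ s, Pi.single i (g i)) x =
        ch a (∑ i ∈ s, Pi.single i (g i)) • x := by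
      intro s
      induction s using Finset.induction_on with
      | empty => rw [Finset.sum_empty, tw_zero, eig_ch_zero, one_smul, Module.End.one_apply]
      | insert i s hi ih =>
        have hi' : tw ζ (Pi.single i (g i)) x = ch1 (a i) (g i) • x := h i (g i)
        rw [Finset.sum_insert hi, tw_add, Module.End.mul_apply, ih, map_smul, hi', ch_add_right,
          ch_single, smul_smul, mul_comm]
    have := key Finset.univ
    rwa [Finset.univ_sum_single] at this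

theorem P1_mem (i : ι) (a : Ch m) (x : G m k ι) : P1 ζ i a x ∈ E1 ζ i a := by
  exact avg_mem (eig_rho_add i) (eig_ch1_add a) x

theorem P1_of_mem {i : ι} {a : Ch m} {x : G m k ι} (h : x ∈ E1 ζ i a) : P1 ζ i a x = x := by
  exact avg_of_mem (eig_ch1_add a) (eig_ch1_zero a) h

theorem P1_of_ne {i : ι} {a b : Ch m} (hab : a ≠ b) {x : G m k ι} (h : x ∈ E1 ζ i b) :
    P1 ζ i a x = 0 := by
  refine avg_of_ne ?_ h
  simp only [← ch1_neg, ← ch1_add_left]
  rw [sum_ch1, if_neg]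
  intro h0
  exact hab (neg_add_eq_zero.1 h0)

theorem sum_P1 (i : ι) (x : G m k ι) : ∑ a, P1 ζ i a x = x := by
  refine sum_avg (ρ := fun g => tw ζ (Pi.single i g)) (fun a : Ch m => ch1 a) ?_ ?_ x
  · simp only [Pi.single_zero]
    exact tw_zero ζ
  · intro g
    simp only [fun a => ch1_comm a g]
    rw [sum_ch1, eig_card]

theorem P1_comm (i j : ι) (a b : Ch m) (x : G m k ι) :
    P1 ζ i a (P1 ζ j b x) = P1 ζ j b (P1 ζ i a x) := by
  exact avg_comm (P1 ζ i a) (fun _ y => eig_P1_tw i a _ y) x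

theorem P1_mem_of {i j : ι} {a : Ch m} (b : Ch m) {x : G m k ι} (h : x ∈ E1 ζ i a) :
    P1 ζ j b x ∈ E1 ζ i a := by
  intro g
  have hg : tw ζ (Pi.single i g) x = ch1 a g • x := h g
  change tw ζ (Pi.single i g) (P1 ζ j b x) = _
  rw [← eig_P1_tw, hg, map_smul]

theorem P1_tw3_comm (i : ι) (a : Ch m) (g : ι → Fin 3 → ZMod m) (x : G m k ι) :
    P1 ζ i a (tw3 ζ g x) = tw3 ζ g (P1 ζ i a x) := by
  rw [tw3_eq_tw, eig_P1_tw]

theorem P1_tw3 (i : ι) (a : Ch m) (g : Fin 3 → ZMod m) (x : G m k ι) :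
    P1 ζ i a (tw3 ζ (Pi.single i g) x) =
      ZMod.stdAddChar (∑ j, ex3 a j * g j) • P1 ζ i a x := by
  have h1 : (fun l : ι => (((Pi.single i g : ι → Fin 3 → ZMod m) l 0 -
      (Pi.single i g : ι → Fin 3 → ZMod m) l 2, (Pi.single i g : ι → Fin 3 → ZMod m) l 1 -
      (Pi.single i g : ι → Fin 3 → ZMod m) l 2) : Ch m)) =
      Pi.single i (g 0 - g 2, g 1 - g 2) := by
    funext l
    by_cases hl : l = i
    · subst hl; simp
    · simp [hl]
  have h2 : ∑ j, ex3 a j * g j = a.1 * (g 0 - g 2) + a.2 * (g 1 - g 2) := by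
    simp only [Fin.sum_univ_three, ex3, Matrix.cons_val_zero, Matrix.cons_val_one,
      Matrix.cons_val]
    ring
  rw [tw3_eq_tw, h1, h2]
  exact avg_rho (eig_rho_add i) (eig_ch1_add a) _ x

theorem pr_mem (a : ι → Ch m) (x : G m k ι) : pr ζ a x ∈ Ga ζ a := by
  exact avg_mem (tw_add ζ) (ch_add_right a) x

theorem pr_of_mem {a : ι → Ch m} {x : G m k ι} (h : x ∈ Ga ζ a) : pr ζ a x = x := by
  exact avg_of_mem (ch_add_right a) (eig_ch_zero a) h

theorem pr_of_ne {a b : ι → Ch m} (hab : a ≠ b) {x : G m k ι} (h : x ∈ Ga ζ b) :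
    pr ζ a x = 0 := by
  refine avg_of_ne ?_ h
  simp only [← ch_neg, ← ch_add_left]
  rw [sum_ch, if_neg]
  intro h0
  exact hab (neg_add_eq_zero.1 h0)

theorem sum_pr (x : G m k ι) : ∑ a, pr ζ a x = x := by
  refine sum_avg (ρ := tw ζ) (fun a : ι → Ch m => ch a) (tw_zero ζ) ?_ x
  intro g
  simp only [fun a => ch_comm a g]
  rw [sum_ch, Fintype.card_fun, Nat.cast_pow, eig_card]

theorem reG_E1 (e : ι ≃ κ) {i : ι} {a : Ch m} {x : G m k ι} :
    reG e x ∈ E1 ζ (e i) a ↔ x ∈ E1 ζ i a := by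
  have key : ∀ g : Ch m, tw ζ (Pi.single (e i) g) (reG e x) =
      reG e (tw ζ (Pi.single i g) x) := by
    intro g
    have h1 : (Pi.single i g : ι → Ch m) ∘ e.symm = Pi.single (e i) g := by
      funext l
      obtain ⟨l, rfl⟩ := e.surjective l
      by_cases hl : l = i
      · subst hl; simp
      · simp [hl]
    rw [reG_tw, h1]
  refine forall_congr' fun g => ?_
  change tw ζ (Pi.single (e i) g) (reG e x) = _ ↔ tw ζ (Pi.single i g) x = _
  rw [key]
  constructor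
  · intro h
    refine sub_eq_zero.1 (reG_inj e ?_)
    rw [map_sub, map_smul, h, sub_self]
  · intro h
    rw [h, map_smul]

theorem reG_Ga (e : ι ≃ κ) {a : κ → Ch m} {x : G m k ι} :
    reG e x ∈ Ga ζ a ↔ x ∈ Ga ζ (a ∘ e) := by
  rw [mem_Ga, mem_Ga, e.surjective.forall]
  exact forall_congr' fun i => reG_E1 e

theorem P1_box_left (i : ι) (a : Ch m) (x : G m k ι) (y : G m k κ) :
    P1 ζ (Sum.inl i) a (boxG x y) = boxG (P1 ζ i a x) y := by
  exact (avg_comm (ρ' := fun g => tw ζ (Pi.single (Sum.inl i) g)) (boxG.flip y)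
    (fun g z => (eig_box_left i g z y).symm) x).symm

theorem P1_box_right (i : κ) (a : Ch m) (x : G m k ι) (y : G m k κ) :
    P1 ζ (Sum.inr i) a (boxG x y) = boxG x (P1 ζ i a y) := by
  exact (avg_comm (ρ' := fun g => tw ζ (Pi.single (Sum.inr i) g)) (boxG x)
    (fun g z => (eig_box_right i g x z).symm) y).symm

omit [DecidableEq ι] [DecidableEq κ] in
theorem eig_box_mem {a : ι ⊕ κ → Ch m} {x : G m k ι} {y : G m k κ}
    (hx : x ∈ Ga ζ (a ∘ Sum.inl)) (hy : y ∈ Ga ζ (a ∘ Sum.inr)) : boxG x y ∈ eig (tw ζ) (ch a) := by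
  intro g
  have h1 : tw ζ (g ∘ Sum.inl) x = _ := hx (g ∘ Sum.inl)
  have h2 : tw ζ (g ∘ Sum.inr) y = _ := hy (g ∘ Sum.inr)
  have h3 : ch a g = ch (a ∘ Sum.inr) (g ∘ Sum.inr) * ch (a ∘ Sum.inl) (g ∘ Sum.inl) := by
    unfold ch
    rw [Fintype.prod_sum_type, mul_comm]
    rfl
  rw [tw_box, h1, h2, h3, map_smul, map_smul, LinearMap.smul_apply, smul_smul]

theorem pr_box (a : ι ⊕ κ → Ch m) (x : G m k ι) (y : G m k κ) :
    pr ζ a (boxG x y) = boxG (pr ζ (a ∘ Sum.inl) x) (pr ζ (a ∘ Sum.inr) y) := by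
  have key : ∀ b c, pr ζ a (boxG (pr ζ b x) (pr ζ c y)) =
      if c = a ∘ Sum.inr then if b = a ∘ Sum.inl then boxG (pr ζ b x) (pr ζ c y) else 0
      else 0 := by
    intro b c
    have hm : boxG (pr ζ b x) (pr ζ c y) ∈ Ga ζ (Sum.elim b c) :=
      eig_box_mem (pr_mem _ _) (pr_mem _ _)
    split_ifs with h1 h2
    · refine pr_of_mem ?_
      have : a = Sum.elim b c := by
        funext l
        rcases l with l | l
        · simp [h2]
        · simp [h1]
      rw [this]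
      exact hm
    · exact pr_of_ne (fun h => h2 (by rw [h]; rfl)) hm
    · exact pr_of_ne (fun h => h1 (by rw [h]; rfl)) hm
  conv_lhs => rw [← sum_pr (ζ := ζ) x, ← sum_pr (ζ := ζ) y]
  simp only [map_sum, LinearMap.sum_apply, key, Finset.sum_ite_irrel, Finset.sum_ite_eq',
    Finset.mem_univ, if_true, Finset.sum_const_zero]

theorem box_mem_Ga {a : ι ⊕ κ → Ch m} {x : G m k ι} {y : G m k κ} (hx : x ∈ Ga ζ (a ∘ Sum.inl))
    (hy : y ∈ Ga ζ (a ∘ Sum.inr)) : boxG x y ∈ Ga ζ a := by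
  exact eig_box_mem hx hy

theorem box_mem_E1_left {i : ι} {a : Ch m} {x : G m k ι} (hx : x ∈ E1 ζ i a) (y : G m k κ) :
    boxG x y ∈ E1 ζ (Sum.inl i) a := by
  rw [← P1_of_mem hx, ← P1_box_left]
  exact P1_mem _ _ _

theorem box_mem_E1_right {i : κ} {a : Ch m} (x : G m k ι) {y : G m k κ} (hy : y ∈ E1 ζ i a) :
    boxG x y ∈ E1 ζ (Sum.inr i) a := by
  rw [← P1_of_mem hy, ← P1_box_right]
  exact P1_mem _ _ _

theorem cy_Fer_mem (n : ι → ℤ) : cy m (Fer m k ι) n ∈ Ga ζ 0 := by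
  intro g
  rw [tw_cy_Fer, ch_zero, one_smul]

/-- modules killed by a variable only see characters with a zero exponent -/
theorem kil_var {i : ι} {a : Ch m} {j : Fin 3} (h : ex3 a j ≠ 0) :
    Kil (P1 ζ i a) (Ideal.span {X (i, j)}) := by
  intro M hM
  have hX : (X (i, j) : S k ι) ∈ M.ann := hM (Ideal.subset_span rfl)
  have h1 := tw3_cls ζ (Pi.single i (Pi.single j 1)) M (by
    rintro ⟨i', j'⟩ hv
    by_cases hi : i' = i
    · subst hi
      by_cases hj : j' = j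
      · subst hj; exact hX
      · exact absurd (by simp [hj]) hv
    · exact absurd (by simp [hi]) hv)
  have h2 := P1_tw3 (ζ := ζ) i a (Pi.single j 1) (cls M)
  have h3 : ∑ l, ex3 a l * (Pi.single j 1 : Fin 3 → ZMod m) l = ex3 a j := by
    rw [Finset.sum_eq_single j]
    · simp
    · intro l _ hl; simp [hl]
    · simp
  rw [h1, h3] at h2
  have h4 : (ZMod.stdAddChar (ex3 a j) : ℂ) - 1 ≠ 0 := by
    intro h0
    refine h (ZMod.injective_stdAddChar ?_)
    rw [sub_eq_zero.1 h0, AddChar.map_zero_eq_one]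
  have h5 : ((ZMod.stdAddChar (ex3 a j) : ℂ) - 1) • P1 ζ i a (cls M) = 0 := by
    rw [sub_smul, one_smul, ← h2, sub_self]
  exact (smul_eq_zero.1 h5).resolve_left h4

section Fr
variable (p : ℕ) [Fact p.Prime] [CharP k p] {s : ι → ℕ} (h : ∀ i, (p : ZMod m) ^ s i = 1)
include h

theorem fr_P1 (i : ι) (a : Ch m) (x : G m k ι) : fr p s (P1 ζ i a x) = P1 ζ i a (fr p s x) := by
  exact avg_comm (fr p s) (fun _ y => (tw3_fr ζ p h _ y).symm) x

theorem fr_pr (a : ι → Ch m) (x : G m k ι) : fr p s (pr ζ a x) = pr ζ a (fr p s x) := by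
  exact avg_comm (fr p s) (fun _ y => (tw3_fr ζ p h _ y).symm) x

theorem fr_mem_Ga {a : ι → Ch m} {x : G m k ι} (hx : x ∈ Ga ζ a) : fr p s x ∈ Ga ζ a := by
  rw [← pr_of_mem hx, fr_pr p h]
  exact pr_mem _ _

theorem fr_mem_E1 {i : ι} {a : Ch m} {x : G m k ι} (hx : x ∈ E1 ζ i a) :
    fr p s x ∈ E1 ζ i a := by
  rw [← P1_of_mem hx, fr_P1 p h]
  exact P1_mem _ _ _

end Fr

/-- the class of the diagonal -/
def Dg (m : ℕ) (k : Type) [Field k] : G m k (Unit ⊕ Unit) := cy m (PD0 m k) 0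

variable (ζ) in
/-- isotypic component of the diagonal -/
def Da (a : Ch m) : G m k (Unit ⊕ Unit) := P1 ζ (Sum.inl ()) a (Dg m k)

theorem tw_Dg (g : Ch m) (n : Unit ⊕ Unit → ℤ) :
    tw ζ (fun _ => g) (cy m (PD0 m k) n) = cy m (PD0 m k) n := by
  have h := comap_sc_PD0 (m := m) (k := k)
    (c := fun j => c3 ζ (up fun _ : Unit ⊕ Unit => g) (Sum.inl (), j))
    (fun j => c3_pow ζ _ _) (fun j => c3_ne ζ _ _)
  unfold tw
  rw [tw3_cy ζ _ grI_PD0 Fer_le_PD0]
  exact congrArg (fun J => cy m J n) h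

theorem Da_mem (a : Ch m) : Da ζ a ∈ Ga ζ (Sum.elim (fun _ => a) fun _ => -a) := by
  rw [mem_Ga]
  rintro (⟨⟨⟩⟩ | ⟨⟨⟩⟩)
  · exact P1_mem _ _ _
  · intro g
    have h1 : (Pi.single (Sum.inr ()) g : Unit ⊕ Unit → Ch m) =
        Pi.single (Sum.inl ()) (-g) + fun _ => g := by
      funext l
      rcases l with ⟨⟨⟩⟩ | ⟨⟨⟩⟩ <;> simp
    have h2 : tw ζ (Pi.single (Sum.inl ()) (-g)) (Da ζ a) = ch1 a (-g) • Da ζ a :=
      P1_mem (ζ := ζ) (Sum.inl ()) a (Dg m k) (-g)
    have h3 : tw ζ (fun _ => g) (Da ζ a) = Da ζ a := by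
      unfold Da Dg
      rw [← eig_P1_tw, tw_Dg]
    change tw ζ (Pi.single (Sum.inr ()) g) (Da ζ a) = ch1 (-a) g • Da ζ a
    rw [h1, tw_add, Module.End.mul_apply, h3, h2, ch1_neg]

/-- the structure sheaf of the curve -/
def Oc (m : ℕ) (k : Type) [Field k] : G m k Unit := cy m (Fer m k Unit) 0

/-- the hyperplane section -/
def hc (m : ℕ) (k : Type) [Field k] : G m k Unit :=
  cy m (Fer m k Unit) 0 - cy m (Fer m k Unit) (-1)

end Pool.Agent.Tate
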