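import Pool.Agent.P.MP_2ce3e7_ag.DT
import Pool.Agent.P.MP_2ce3e7_ag.Eig

/-! Nondegenerate characters: graphs. -/

set_option autoImplicit false

noncomputable section

namespace Pool.Agent.Tate

open MvPolynomial

variable {m : ℕ} [NeZero m] {k κ : Type} [Field k] [Fintype κ] [DecidableEq κ] {ζ : Rt m k}

/-- the projector on the first two factors -/
def PP (ζ : Rt m k) (a : Ch m) : Module.End ℂ (G m k ((Unit ⊕ Unit) ⊕ κ)) :=
  P1 ζ (Sum.inl (Sum.inl ())) a * P1 ζ (Sum.inl (Sum.inr ())) (-a)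

omit [NeZero m] in
theorem appN1_ex3_neg (a : Ch m) (j : Fin 3) : ex3 (-a) j = -ex3 a j := by
  fin_cases j <;> simp [ex3]
  ring

theorem PP_tw3 (a : Ch m) (g g' : Fin 3 → ZMod m) (x : G m k ((Unit ⊕ Unit) ⊕ κ)) :
    PP ζ a (tw3 ζ (Sum.elim (Sum.elim (fun _ => g) fun _ => g') 0) x) =
      ZMod.stdAddChar (∑ j, ex3 a j * (g j - g' j)) • PP ζ a x := by
  have h1 : (Sum.elim (Sum.elim (fun _ => g) fun _ => g') 0 :
      (Unit ⊕ Unit) ⊕ κ → Fin 3 → ZMod m) =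
      Pi.single (Sum.inl (Sum.inl ())) g + Pi.single (Sum.inl (Sum.inr ())) g' := by
    funext i
    rcases i with (i | i) | i <;> simp
  have h2 : ∑ j, ex3 a j * (g j - g' j) = ∑ j, ex3 (-a) j * g' j + ∑ j, ex3 a j * g j := by
    rw [← Finset.sum_add_distrib]
    exact Finset.sum_congr rfl fun j _ => by rw [appN1_ex3_neg]; ring
  rw [h1, tw3_add, h2, AddChar.map_add_eq_mul, mul_smul]
  simp only [PP, Module.End.mul_apply]
  rw [P1_tw3_comm _ (-a), P1_tw3 _ (-a), map_smul, map_smul, P1_tw3]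

theorem appN1_kil {ι : Type} [Fintype ι] [DecidableEq ι] {a : Ch m} (ha : Nd a) (i i' : ι)
    (j : Fin 3) :
    Kil (P1 ζ i a * P1 ζ i' (-a) : Module.End ℂ (G m k ι)) (Ideal.span {X (i, j)}) ∧
      Kil (P1 ζ i a * P1 ζ i' (-a) : Module.End ℂ (G m k ι)) (Ideal.span {X (i', j)}) := by
  refine ⟨fun M hM => ?_, fun M hM => ?_⟩
  · rw [Module.End.mul_apply, P1_comm, kil_var (nd_iff.1 ha j) M hM, map_zero]
  · rw [Module.End.mul_apply, kil_var (nd_iff.1 ha.neg j) M hM, map_zero]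

theorem kil_PP {a : Ch m} (ha : Nd a) (i : Unit ⊕ Unit) (j : Fin 3) :
    Kil (PP ζ a : Module.End ℂ (G m k ((Unit ⊕ Unit) ⊕ κ)))
      (Ideal.span {X (Sum.inl i, j)}) := by
  rcases i with i | i
  · exact (appN1_kil ha _ _ j).1
  · exact (appN1_kil ha _ _ j).2

theorem PP_diag {a : Ch m} (ha : Nd a) (n : Unit ⊕ Unit → ℤ) (y : G m k κ) :
    PP ζ a (boxG (cy m (PD0 m k) n) y) = boxG (Da ζ a) y := by
  have h1 := cy_shift (e := (P1 ζ (Sum.inl ()) a * P1 ζ (Sum.inr ()) (-a) :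
      Module.End ℂ (G m k (Unit ⊕ Unit)))) grI_PD0 (PD0_isPrime ζ.ne) Fer_le_PD0 (fun _ => 0)
    (fun i h => X_notMem_Fer ζ.ne ((), 0) (by
      have := (mem_PD0 (hg_X _)).1 h
      rwa [rn_X] at this))
    (fun i M hM => by
      rcases i with i | i
      · exact (appN1_kil ha _ _ 0).1 M (le_sup_right.trans hM)
      · exact (appN1_kil ha _ _ 0).2 M (le_sup_right.trans hM)) n 0
  rw [Module.End.mul_apply, Module.End.mul_apply, P1_comm _ _ _ _ (cy m (PD0 m k) 0)] at h1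
  rw [PP, Module.End.mul_apply, P1_box_left, P1_box_left, h1]
  exact congrArg (fun z => boxG z y) (P1_of_mem (mem_Ga.1 (Da_mem a) (Sum.inr ())))

/-- the diagonal action on the first two factors -/
def appN1g (κ : Type) (h : Fin 3 → ZMod m) : (Unit ⊕ Unit) ⊕ κ → Fin 3 → ZMod m :=
  Sum.elim (Sum.elim (fun _ => h) fun _ => h) 0

/-- the ideal of the graph -/
def appN1I (m : ℕ) (k κ : Type) [Field k] : Ideal (S k ((Unit ⊕ Unit) ⊕ κ)) :=
  (PD0 m k).map (rn Sum.inl) ⊔ Fer m k ((Unit ⊕ Unit) ⊕ κ)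

theorem appN1_coeff {σ : Type} (c : σ → k) (b : MvPolynomial σ k) (s : σ →₀ ℕ) :
    coeff s (sc c b) = (s.prod fun v n => c v ^ n) * coeff s b := by
  classical
  induction b using MvPolynomial.induction_on' with
  | monomial u a =>
    rw [sc_monomial, coeff_monomial, coeff_monomial]
    split_ifs with h
    · rw [h]
    · rw [mul_zero]
  | add p q hp hq => rw [map_add, coeff_add, coeff_add, hp, hq, mul_add]

omit [DecidableEq κ] in
theorem appN1_prod {R : Type} [CommMonoid R] (s : ((Unit ⊕ Unit) ⊕ κ) × Fin 3 →₀ ℕ)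
    (c : ((Unit ⊕ Unit) ⊕ κ) × Fin 3 → R) :
    (s.prod fun v n => c v ^ n) =
      (∏ j, c (Sum.inl (Sum.inl ()), j) ^ s (Sum.inl (Sum.inl ()), j)) *
      (∏ j, c (Sum.inl (Sum.inr ()), j) ^ s (Sum.inl (Sum.inr ()), j)) *
      ∏ v : κ × Fin 3, c (Sum.inr v.1, v.2) ^ s (Sum.inr v.1, v.2) := by
  rw [Finsupp.prod_fintype _ _ fun _ => pow_zero _, Fintype.prod_prod_type, Fintype.prod_sum_type,
    Fintype.prod_sum_type, Fintype.prod_unique (ι := Unit), Fintype.prod_unique (ι := Unit),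
    Fintype.prod_prod_type]

omit [NeZero m] [DecidableEq κ] in
theorem appN1_dvd (hm : 1 < m) {b : S k ((Unit ⊕ Unit) ⊕ κ)}
    (hb : ∀ h, sc (c3 ζ (appN1g κ h)) b = b) {s : ((Unit ⊕ Unit) ⊕ κ) × Fin 3 →₀ ℕ}
    (hs : s ∈ b.support) (j : Fin 3) :
    m ∣ s (Sum.inl (Sum.inl ()), j) + s (Sum.inl (Sum.inr ()), j) := by
  have : Fact (1 < m) := ⟨hm⟩
  have h1 := appN1_coeff (c3 ζ (appN1g κ (Pi.single j 1))) b s
  rw [hb] at h1
  have h2 := (mul_eq_right₀ (mem_support_iff.1 hs)).1 h1.symm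
  have h3 : ∀ (i : Unit ⊕ Unit), ∏ l, c3 ζ (appN1g κ (Pi.single j 1)) (Sum.inl i, l) ^
      s (Sum.inl i, l) = ζ.1 ^ s (Sum.inl i, j) := by
    intro i
    rw [Finset.prod_eq_single j]
    · rcases i with i | i <;> simp [c3, appN1g, ZMod.val_one]
    · intro l _ hl
      rcases i with i | i <;> simp [c3, appN1g, hl]
    · exact fun h => (h (Finset.mem_univ _)).elim
  rw [appN1_prod, h3, h3, Finset.prod_eq_one fun v _ => by simp [c3, appN1g], mul_one,
    ← pow_add] at h2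
  exact (ζ.2.pow_eq_one_iff_dvd _).1 h2

theorem appN1_ring {R : Type} [CommRing R] {x0 x1 x2 y0 y1 y2 a r : R}
    {m s0 s1 s2 t0 t1 t2 n0 n1 n2 : ℕ} (e1 : y0 * x1 = x0 * y1) (e2 : y0 * x2 = x0 * y2)
    (e3 : y0 ^ m + y1 ^ m = y2 ^ m) (h0 : s0 + t0 = m * n0) (h1 : s1 + t1 = m * n1)
    (h2 : s2 + t2 = m * n2) :
    y0 ^ (s0 + s1 + s2) * (a * (x0 ^ s0 * x1 ^ s1 * x2 ^ s2 * (y0 ^ t0 * y1 ^ t1 * y2 ^ t2) * r)) =
      x0 ^ (s0 + s1 + s2) * (a * ((y0 ^ m) ^ n0 * (y1 ^ m) ^ n1 * (y0 ^ m + y1 ^ m) ^ n2 * r)) := by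
  rw [e3, ← pow_mul, ← pow_mul, ← pow_mul, ← h0, ← h1, ← h2]
  calc _ = a * ((x0 * y0) ^ s0 * (y0 * x1) ^ s1 * (y0 * x2) ^ s2 *
        (y0 ^ t0 * y1 ^ t1 * y2 ^ t2) * r) := by ring
    _ = _ := by rw [e1, e2]; ring

omit [NeZero m] [Fintype κ] [DecidableEq κ] in
theorem appN1_minor (a : Fin 3) :
    minor k (Sum.inl (Sum.inl ())) (Sum.inl (Sum.inr ())) a ∈ appN1I m k κ := by
  have h := Ideal.mem_map_of_mem (rn (Sum.inl : Unit ⊕ Unit → (Unit ⊕ Unit) ⊕ κ))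
    (minor_mem_PD0 (m := m) (k := k) a)
  rw [rn_minor] at h
  exact Ideal.mem_sup_left h

omit [NeZero m] [DecidableEq κ] in
theorem appN1_inv (hm : 1 < m) {b : S k ((Unit ⊕ Unit) ⊕ κ)} {d : (Unit ⊕ Unit) ⊕ κ → ℤ}
    (hd : Hg b d) (hb : ∀ h, sc (c3 ζ (appN1g κ h)) b = b) :
    ∃ (N : ℕ) (ψ : MvPolynomial (Fin 2 ⊕ κ × Fin 3) k),
      X (Sum.inl (Sum.inr ()), 0) ^ N * b - X (Sum.inl (Sum.inl ()), 0) ^ N *
        aeval (Sum.elim (fun s : Fin 2 => X (Sum.inl (Sum.inr ()), s.castSucc) ^ m)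
          fun v => X (Sum.inr v.1, v.2)) ψ ∈ appN1I m k κ := by
  refine ⟨(d (Sum.inl (Sum.inl ()))).toNat, ∑ s ∈ b.support, C (coeff s b) *
    (X (Sum.inl 0) ^ ((s (Sum.inl (Sum.inl ()), 0) + s (Sum.inl (Sum.inr ()), 0)) / m) *
      X (Sum.inl 1) ^ ((s (Sum.inl (Sum.inl ()), 1) + s (Sum.inl (Sum.inr ()), 1)) / m) *
      (X (Sum.inl 0) + X (Sum.inl 1)) ^
        ((s (Sum.inl (Sum.inl ()), 2) + s (Sum.inl (Sum.inr ()), 2)) / m) *
      ∏ v : κ × Fin 3, X (Sum.inr v) ^ s (Sum.inr v.1, v.2)), ?_⟩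
  nth_rewrite 1 [b.as_sum]
  rw [map_sum, Finset.mul_sum, Finset.mul_sum, ← Finset.sum_sub_distrib]
  refine Ideal.sum_mem _ fun s hs => Ideal.Quotient.eq.1 ?_
  have hN : (d (Sum.inl (Sum.inl ()))).toNat = s (Sum.inl (Sum.inl ()), 0) +
      s (Sum.inl (Sum.inl ()), 1) + s (Sum.inl (Sum.inl ()), 2) := by
    rw [← hd.deg hs, Int.toNat_natCast, Fin.sum_univ_three]
  have e1 := Ideal.Quotient.eq.2 (appN1_minor (m := m) (k := k) (κ := κ) 2)
  have e2 := Ideal.Quotient.eq.2 (appN1_minor (m := m) (k := k) (κ := κ) 1)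
  have e3 := Ideal.Quotient.eq.2 (show _ - _ ∈ appN1I m k κ from
    Ideal.mem_sup_right (fer_mem (Sum.inl (Sum.inr ()))))
  rw [hN, monomial_eq, appN1_prod, Fin.prod_univ_three, Fin.prod_univ_three]
  simp only [map_mul, map_pow, map_add, map_prod, aeval_X, aeval_C, Sum.elim_inl, Sum.elim_inr,
    algebraMap_eq] at e1 e2 e3 ⊢
  exact appN1_ring ((mul_comm _ _).trans e1.symm) ((mul_comm _ _).trans e2) e3
    (Nat.mul_div_cancel' (appN1_dvd hm hb hs 0)).symm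
    (Nat.mul_div_cancel' (appN1_dvd hm hb hs 1)).symm
    (Nat.mul_div_cancel' (appN1_dvd hm hb hs 2)).symm

/-- the quotient data of the graph case -/
def appN1D (ζ : Rt m k) (κ : Type) [Fintype κ] (hm : 1 < m) :
    QD m k (Unit ⊕ Unit) κ (Fin 2) (Fin 3 → ZMod m) where
  I := appN1I m k κ
  grI := GrW.sup (grI_PD0.map_rn Sum.inl_injective) grI_Fer
  fer := le_sup_right
  c h := c3 ζ (appN1g κ h)
  c_zero := by
    rw [← c3_zero ζ]
    congr 1
    funext i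
    rcases i with (i | i) | i <;> rfl
  c_add h h' := by
    rw [← c3_add]
    congr 1
    funext i
    rcases i with (i | i) | i <;> simp [appN1g]
  c_inr h i j := by simp [c3, appN1g]
  stab h := by
    have h1 : appN1I m k κ ≤ (appN1I m k κ).comap (sc (c3 ζ (appN1g κ h))) := by
      refine sup_le (Ideal.map_le_iff_le_comap.2 fun f hf => ?_) (Ideal.span_le.2 ?_)
      · have h2 : (sc (c3 ζ (appN1g κ h))).comp (rn (Sum.inl : Unit ⊕ Unit → _)) =
            (rn Sum.inl).comp (sc fun v : (Unit ⊕ Unit) × Fin 3 => ζ.1 ^ (h v.2).val) := by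
          refine algHom_ext fun v => ?_
          rw [AlgHom.comp_apply, AlgHom.comp_apply, rn_X, sc_X, sc_X, map_mul, rn_X, algHom_C,
            algebraMap_eq]
          rcases v with ⟨i | i, j⟩ <;> rfl
        have h3 := comap_sc_PD0 (m := m) (c := fun j => ζ.1 ^ (h j).val)
          (fun j => c3_pow ζ (fun _ : Unit => h) ((), j)) fun j => c3_ne ζ (fun _ : Unit => h) ((), j)
        rw [← h3] at hf
        refine Ideal.mem_comap.2 (Ideal.mem_comap.2 ?_)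
        rw [← AlgHom.comp_apply, h2]
        exact Ideal.mem_sup_left (Ideal.mem_map_of_mem _ hf)
      · rintro _ ⟨i, rfl⟩
        refine Ideal.mem_comap.2 ?_
        rw [sc_fer (c3_pow ζ _)]
        exact Ideal.mem_sup_right (fer_mem i)
    exact fun f hf => h1 hf
  β := Set.range fun v : (Unit ⊕ Unit) × Fin 3 => X (Sum.inl v.1, v.2)
  β_semi := by
    rintro _ ⟨v, rfl⟩ h
    exact ⟨_, sc_X _ _⟩
  β_var i := ⟨0, (i, 0), rfl⟩
  r s := X (Sum.inl (Sum.inr ()), s.castSucc) ^ m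
  δ := m • wt (Sum.inl (Sum.inr ()), 0)
  δ_ne := ⟨Sum.inr (), by simp [wt, NeZero.ne m]⟩
  r_hom s := (hg_X _).pow m
  r_semi h := ⟨1, fun s => by rw [map_pow, sc_X, mul_pow, ← map_pow, c3_pow]⟩
  inv b d hd hb := by
    obtain ⟨N, ψ, h⟩ := appN1_inv hm hd hb
    exact ⟨_, pow_mem (Submonoid.subset_closure (Set.mem_range_self (Sum.inr (), 0))) N,
      _, pow_mem (Submonoid.subset_closure (Set.mem_range_self (Sum.inl (), 0))) N, ψ, h⟩
  Γ := {X 0, X 1, X 0 + X 1}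
  Γ_ne := by
    intro γ hγ P hP hI hβ h
    rcases hγ with rfl | rfl | rfl
    · rw [aeval_X] at h
      exact hβ _ ⟨(Sum.inr (), 0), rfl⟩ (hP.mem_of_pow_mem m h)
    · rw [aeval_X] at h
      exact hβ _ ⟨(Sum.inr (), 1), rfl⟩ (hP.mem_of_pow_mem m h)
    · rw [map_add, aeval_X, aeval_X] at h
      have h1 := P.sub_mem h (hI (Ideal.mem_sup_right (fer_mem (Sum.inl (Sum.inr ())))))
      rw [fer] at h1
      erw [sub_sub_cancel] at h1
      exact hβ _ ⟨(Sum.inr (), 2), rfl⟩ (hP.mem_of_pow_mem m h1)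
  lift Ω _ _ _ ρ y hy hγ := by
    have hm0 : 0 < m := by omega
    obtain ⟨z0, h0⟩ := IsAlgClosed.exists_pow_nat_eq (ρ 0) hm0
    obtain ⟨z1, h1⟩ := IsAlgClosed.exists_pow_nat_eq (ρ 1) hm0
    obtain ⟨z2, h2⟩ := IsAlgClosed.exists_pow_nat_eq (ρ 0 + ρ 1) hm0
    have hz : OnF m ![z0, z1, z2] := by
      show z0 ^ m + z1 ^ m = z2 ^ m
      rw [h0, h1, h2]
    have hne : ∀ j, ![z0, z1, z2] j ≠ 0 := by
      have g0 := hγ (X 0) (by simp)
      have g1 := hγ (X 1) (by simp)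
      have g2 := hγ (X 0 + X 1) (by simp)
      rw [map_add, aeval_X, aeval_X, ← h2] at g2
      rw [aeval_X, ← h0] at g0
      rw [aeval_X, ← h1] at g1
      intro j
      fin_cases j
      · exact fun h => g0 (by rw [show z0 = 0 from h, zero_pow hm0.ne'])
      · exact fun h => g1 (by rw [show z1 = 0 from h, zero_pow hm0.ne'])
      · exact fun h => g2 (by rw [show z2 = 0 from h, zero_pow hm0.ne'])
    refine ⟨fun v => Sum.elim (fun _ => ![z0, z1, z2] v.2) (fun i => y (i, v.2)) v.1, ?_, ?_,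
      fun _ _ => rfl, 1, one_ne_zero, fun s => ?_⟩
    · have h3 : appN1I m k κ ≤ RingHom.ker (aeval fun v : ((Unit ⊕ Unit) ⊕ κ) × Fin 3 =>
          Sum.elim (fun _ => ![z0, z1, z2] v.2) (fun i => y (i, v.2)) v.1 : S k _ →ₐ[k] Ω) := by
        refine sup_le (Ideal.map_le_iff_le_comap.2 fun f hf => ?_) fun f hf => ?_
        · refine Ideal.mem_comap.2 (RingHom.mem_ker.2 ?_)
          by_contra h4
          refine notMem_Fer (fun v : Unit × Fin 3 => ![z0, z1, z2] v.2) (fun _ => hz) ?_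
            (Ideal.mem_comap.1 (core_le _ hf))
          rw [rn, aeval_rename] at h4 ⊢
          exact h4
        · by_contra h4
          refine notMem_Fer _ (fun i => ?_) h4 hf
          rcases i with i | i
          · exact hz
          · exact hy i
      exact fun f hf => h3 hf
    · rintro _ ⟨v, rfl⟩
      rw [aeval_X]
      exact hne v.2
    · rw [map_pow, aeval_X, one_mul]
      fin_cases s
      · exact h0
      · exact h1

theorem kil_graph {a : Ch m} (ha : Nd a) {V : Type*} [AddCommGroup V] [Module ℂ V]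
    (π : G m k ((Unit ⊕ Unit) ⊕ κ) →ₗ[ℂ] V) (h : ∀ y, π (boxG (Da ζ a) y) = 0) :
    Kil (π ∘ₗ PP ζ a) ((PD0 m k).map (rn Sum.inl) ⊔ Fer m k ((Unit ⊕ Unit) ⊕ κ)) := by
  refine (appN1D ζ κ (by have := ha.three_le; omega)).kil (π ∘ₗ PP ζ a) ?_ ?_ ?_
  · intro g P n hP hI
    have h1 := PP_tw3 (ζ := ζ) a g g (cy m P n)
    rw [tw3_cy ζ _ hP (le_sup_right.trans hI)] at h1
    simp only [sub_self, mul_zero, Finset.sum_const_zero, AddChar.map_zero_eq_one, one_smul] at h1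
    exact congrArg π h1
  · rintro _ ⟨v, rfl⟩ M hM
    rw [LinearMap.comp_apply, kil_PP ha v.1 v.2 M (le_sup_right.trans hM), map_zero]
  · intro Q hQ hF n
    have h1 : appN1I m k κ ⊔ Q.map (rn Sum.inr) =
        (PD0 m k).map (rn Sum.inl) ⊔ Q.map (rn Sum.inr) := by
      refine le_antisymm (sup_le (sup_le le_sup_left ?_) le_sup_right)
        (sup_le_sup_right le_sup_left _)
      rw [← Fer_sum]
      exact sup_le_sup (Ideal.map_mono Fer_le_PD0) (Ideal.map_mono hF)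
    have h2 := boxG_cy (m := m) grI_PD0 Fer_le_PD0 hQ hF (n ∘ Sum.inl) (n ∘ Sum.inr)
    rw [Sum.elim_comp_inl_inr, ← h1] at h2
    show π (PP ζ a (cy m (appN1I m k κ ⊔ Q.map (rn Sum.inr)) n)) = 0
    rw [← h2, PP_diag ha, h]

end Pool.Agent.Tate
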