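import Pool.Agent.P.MP_2ce3e7_ag.AppN1
import Pool.Agent.P.MP_2ce3e7_ag.FerP

/-! Nondegenerate characters. -/

set_option autoImplicit false

noncomputable section

namespace Pool.Agent.Tate

open MvPolynomial

namespace AppN2X

section Ring

variable {A B : Type} [CommRing A] [CommRing B] (m : ℕ)

/-- the signs of the Fermat equation -/
def eps (A : Type) [CommRing A] : Fin 3 → A := ![1, 1, -1]

/-- coordinates on the quotient -/
def rr (x y : Fin 3 → A) (j : Fin 3) : A := x j * y (j + 1) * y (j + 2)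

/-- the cross product with the all ones vector -/
def cc (ρ : Fin 3 → A) (j : Fin 3) : A := ρ (j + 2) ^ m - ρ (j + 1) ^ m

theorem map_eps {F : Type} [FunLike F A B] [RingHomClass F A B] (f : F) (j : Fin 3) :
    f (eps A j) = eps B j := by
  fin_cases j <;> simp [eps]

theorem map_rr {F : Type} [FunLike F A B] [RingHomClass F A B] (f : F) (x y : Fin 3 → A)
    (j : Fin 3) : f (rr x y j) = rr (fun i => f (x i)) (fun i => f (y i)) j := by
  simp [rr]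

theorem map_cc {F : Type} [FunLike F A B] [RingHomClass F A B] (f : F) (ρ : Fin 3 → A)
    (j : Fin 3) : f (cc m ρ j) = cc m (fun i => f (ρ i)) j := by
  simp [cc]

theorem rr_mul (x y : Fin 3 → A) (j : Fin 3) : rr x y j * y j = x j * (y 0 * y 1 * y 2) := by
  fin_cases j <;> simp [rr] <;> ring

theorem cc_smul (u : A) (ρ : Fin 3 → A) (j : Fin 3) :
    cc m (fun i => u * ρ i) j = u ^ m * cc m ρ j := by
  simp only [cc, mul_pow]
  ring

variable {m} {x y : Fin 3 → A}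

theorem rel (hx : x 0 ^ m + x 1 ^ m - x 2 ^ m = 0) (hy : y 0 ^ m + y 1 ^ m - y 2 ^ m = 0)
    (j : Fin 3) : cc m (rr x y) 0 * y j ^ m = y 0 ^ m * (eps A j * cc m (rr x y) j) := by
  have e0 : rr x y 0 ^ m = x 0 ^ m * y 1 ^ m * y 2 ^ m := by simp [rr, mul_pow]
  have e1 : rr x y 1 ^ m = x 1 ^ m * y 2 ^ m * y 0 ^ m := by simp [rr, mul_pow]
  have e2 : rr x y 2 ^ m = x 2 ^ m * y 0 ^ m * y 1 ^ m := by simp [rr, mul_pow]
  have h0 : cc m (rr x y) 0 = rr x y 2 ^ m - rr x y 1 ^ m := rfl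
  have h1 : cc m (rr x y) 1 = rr x y 0 ^ m - rr x y 2 ^ m := rfl
  have h2 : cc m (rr x y) 2 = rr x y 1 ^ m - rr x y 0 ^ m := rfl
  fin_cases j
  · simp [eps, mul_comm]
  · show _ * y 1 ^ m = y 0 ^ m * (1 * cc m (rr x y) 1)
    rw [h0, h1, e0, e1, e2]
    linear_combination (x 2 ^ m * y 0 ^ m * y 1 ^ m) * hy - (y 0 ^ m * y 1 ^ m * y 2 ^ m) * hx
  · show _ * y 2 ^ m = y 0 ^ m * (-1 * cc m (rr x y) 2)
    rw [h0, h2, e0, e1, e2]
    linear_combination (x 1 ^ m * y 0 ^ m * y 2 ^ m) * hy - (y 0 ^ m * y 1 ^ m * y 2 ^ m) * hx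

theorem key (hx : x 0 ^ m + x 1 ^ m - x 2 ^ m = 0) (hy : y 0 ^ m + y 1 ^ m - y 2 ^ m = 0)
    (s t n : Fin 3 → ℕ) (h : ∀ j, s j + t j = m * n j) :
    cc m (rr x y) 0 ^ (∑ j, n j) * (y 0 * y 1 * y 2) ^ (∑ j, s j) *
        ((∏ j, x j ^ s j) * ∏ j, y j ^ t j) =
      (y 0 ^ m) ^ (∑ j, n j) * ∏ j, rr x y j ^ s j * (eps A j * cc m (rr x y) j) ^ n j := by
  rw [← Finset.prod_pow_eq_pow_sum, ← Finset.prod_pow_eq_pow_sum, ← Finset.prod_pow_eq_pow_sum,
    ← Finset.prod_mul_distrib, ← Finset.prod_mul_distrib, ← Finset.prod_mul_distrib,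
    ← Finset.prod_mul_distrib]
  refine Finset.prod_congr rfl fun j _ => ?_
  have e1 : (y 0 * y 1 * y 2) ^ s j * x j ^ s j = rr x y j ^ s j * y j ^ s j := by
    rw [← mul_pow, ← mul_pow, rr_mul, mul_comm]
  have e2 : y j ^ s j * y j ^ t j = (y j ^ m) ^ n j := by rw [← pow_add, h, pow_mul]
  have e3 : cc m (rr x y) 0 ^ n j * (y j ^ m) ^ n j =
      (y 0 ^ m) ^ n j * (eps A j * cc m (rr x y) j) ^ n j := by
    rw [← mul_pow, ← mul_pow, rel hx hy]
  linear_combination (cc m (rr x y) 0 ^ n j * y j ^ t j) * e1 +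
    (cc m (rr x y) 0 ^ n j * rr x y j ^ s j) * e2 + rr x y j ^ s j * e3

end Ring

variable {m : ℕ} [NeZero m] {k κ : Type} [Field k]

/-- first block -/
abbrev xx (k κ : Type) [Field k] (j : Fin 3) : S k ((Unit ⊕ Unit) ⊕ κ) :=
  X (Sum.inl (Sum.inl ()), j)

/-- second block -/
abbrev yy (k κ : Type) [Field k] (j : Fin 3) : S k ((Unit ⊕ Unit) ⊕ κ) :=
  X (Sum.inl (Sum.inr ()), j)

/-- exponents of a diagonal automorphism of the first two factors -/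
abbrev gg (κ : Type) (g g' : Fin 3 → ZMod m) : (Unit ⊕ Unit) ⊕ κ → Fin 3 → ZMod m :=
  Sum.elim (Sum.elim (fun _ => g) fun _ => g') 0

omit [NeZero m] in
theorem relP {P : Ideal (S k ((Unit ⊕ Unit) ⊕ κ))} (hF : Fer m k _ ≤ P) (j : Fin 3) :
    cc m (rr (xx k κ) (yy k κ)) 0 * yy k κ j ^ m -
      yy k κ 0 ^ m * (eps _ j * cc m (rr (xx k κ) (yy k κ)) j) ∈ P := by
  rw [← Ideal.Quotient.eq]
  have h := fun i => Ideal.Quotient.eq_zero_iff_mem.2 (hF (fer_mem (m := m) (k := k) i))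
  simp only [fer, map_sub, map_add, map_pow] at h
  simp only [map_mul, map_pow, map_cc, map_rr, map_eps]
  exact rel (h _) (h _) j

omit [NeZero m] in
theorem sc_rr (ζ : Rt m k) (h : Fin 3 → ZMod m) (j : Fin 3) :
    sc (c3 ζ (gg κ h h)) (rr (xx k κ) (yy k κ) j) =
      C (∏ i, ζ.1 ^ (h i).val) * rr (xx k κ) (yy k κ) j := by
  simp only [rr, map_mul, sc_X, c3, Sum.elim_inl, Sum.elim_inr, Fin.prod_univ_three]
  fin_cases j <;> simp <;> ring

omit [NeZero m] in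
theorem dvd_of_inv (ζ : Rt m k) (h3 : 3 ≤ m) [Fintype κ] {b : S k ((Unit ⊕ Unit) ⊕ κ)}
    (hb : ∀ h, sc (c3 ζ (gg κ h h)) b = b) {e : ((Unit ⊕ Unit) ⊕ κ) × Fin 3 →₀ ℕ}
    (he : e ∈ b.support) (j : Fin 3) :
    m ∣ e (Sum.inl (Sum.inl ()), j) + e (Sum.inl (Sum.inr ()), j) := by
  classical
  have h1 := congrArg (coeff e) (hb (Pi.single j 1))
  conv_lhs at h1 => rw [b.as_sum, map_sum, coeff_sum]
  simp only [sc_monomial, coeff_monomial, Finset.sum_ite_eq', he, if_true] at h1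
  have h2 := mul_right_cancel₀ (mem_support_iff.1 he) (h1.trans (one_mul _).symm)
  have : Fact (1 < m) := ⟨by omega⟩
  rw [Finsupp.prod_fintype _ _ (fun _ => pow_zero _), Fintype.prod_prod_type,
    Fintype.prod_sum_type, Fintype.prod_sum_type] at h2
  simp only [c3, Sum.elim_inl, Sum.elim_inr, Finset.univ_unique, Finset.prod_singleton,
    Pi.zero_apply, ZMod.val_zero, pow_zero, one_pow, Finset.prod_const_one, mul_one] at h2
  rw [← Finset.prod_mul_distrib, Finset.prod_eq_single j (fun i _ hi => by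
    simp [Pi.single_eq_of_ne hi]) (by simp), Pi.single_eq_same, ZMod.val_one, pow_one,
    ← pow_add] at h2
  exact (ζ.2.pow_eq_one_iff_dvd _).1 h2

omit [NeZero m] in
theorem inv_aux (ζ : Rt m k) (h3 : 3 ≤ m) [Fintype κ] {b : S k ((Unit ⊕ Unit) ⊕ κ)}
    {d : (Unit ⊕ Unit) ⊕ κ → ℤ} (hd : Hg b d) (hb : ∀ h, sc (c3 ζ (gg κ h h)) b = b) :
    ∃ (N D : ℕ) (ψ : MvPolynomial (Fin 3 ⊕ κ × Fin 3) k),
      cc m (rr (xx k κ) (yy k κ)) 0 ^ N * (yy k κ 0 * yy k κ 1 * yy k κ 2) ^ D * b -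
        (yy k κ 0 ^ m) ^ N * aeval (Sum.elim (rr (xx k κ) (yy k κ))
          fun v => X (Sum.inr v.1, v.2)) ψ ∈ Fer m k ((Unit ⊕ Unit) ⊕ κ) := by
  refine ⟨((d (Sum.inl (Sum.inl ()))).toNat + (d (Sum.inl (Sum.inr ()))).toNat) / m,
    (d (Sum.inl (Sum.inl ()))).toNat, ∑ e ∈ b.support, C (coeff e b) *
      ((∏ j, X (Sum.inl j) ^ e (Sum.inl (Sum.inl ()), j) *
        (eps _ j * cc m (fun i => X (Sum.inl i)) j) ^
          ((e (Sum.inl (Sum.inl ()), j) + e (Sum.inl (Sum.inr ()), j)) / m)) *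
        ∏ i, ∏ j, X (Sum.inr (i, j)) ^ e (Sum.inr i, j)), ?_⟩
  conv => enter [2, 1, 2]; rw [b.as_sum]
  rw [map_sum, Finset.mul_sum, Finset.mul_sum, ← Finset.sum_sub_distrib]
  refine Ideal.sum_mem _ fun e he => ?_
  have e1 := hd.deg he (Sum.inl (Sum.inl ()))
  have e2 := hd.deg he (Sum.inl (Sum.inr ()))
  have hn : ∀ j, e (Sum.inl (Sum.inl ()), j) + e (Sum.inl (Sum.inr ()), j) =
      m * ((e (Sum.inl (Sum.inl ()), j) + e (Sum.inl (Sum.inr ()), j)) / m) := fun j =>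
    (Nat.mul_div_cancel' (dvd_of_inv ζ h3 hb he j)).symm
  have e3 : ((d (Sum.inl (Sum.inl ()))).toNat + (d (Sum.inl (Sum.inr ()))).toNat) / m =
      ∑ j, (e (Sum.inl (Sum.inl ()), j) + e (Sum.inl (Sum.inr ()), j)) / m := by
    rw [← e1, ← e2, Int.toNat_natCast, Int.toNat_natCast, ← Finset.sum_add_distrib]
    refine Nat.div_eq_of_eq_mul_right (by omega) ?_
    rw [Finset.mul_sum]
    exact Finset.sum_congr rfl fun j _ => hn j
  rw [e3, ← e1, Int.toNat_natCast, ← Ideal.Quotient.eq, monomial_eq,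
    Finsupp.prod_fintype _ _ (fun _ => pow_zero _), Fintype.prod_prod_type,
    Fintype.prod_sum_type, Fintype.prod_sum_type]
  have h := fun i => Ideal.Quotient.eq_zero_iff_mem.2
    (fer_mem (m := m) (k := k) (ι := (Unit ⊕ Unit) ⊕ κ) i)
  simp only [fer, map_sub, map_add, map_pow] at h
  have := key (x := fun j => Ideal.Quotient.mk _ (xx k κ j))
    (y := fun j => Ideal.Quotient.mk _ (yy k κ j)) (h _) (h _) _ _ _ hn
  simp only [map_mul, map_prod, map_pow, map_cc, map_rr, map_eps, aeval_X, aeval_C, Sum.elim_inl,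
    Sum.elim_inr, Finset.univ_unique, Finset.prod_singleton, algebraMap_eq]
  linear_combination (Ideal.Quotient.mk _ (C (coeff e b)) *
    ∏ i, ∏ j, Ideal.Quotient.mk _ (X (Sum.inr i, j)) ^ e (Sum.inr i, j)) * this

/-- the quotient of the square of the curve by the diagonal action -/
def DN (κ : Type) [Fintype κ] (ζ : Rt m k) (h3 : 3 ≤ m) :
    QD m k (Unit ⊕ Unit) κ (Fin 3) (Fin 3 → ZMod m) where
  I := Fer m k _
  grI := grI_Fer
  fer := le_rfl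
  c h := c3 ζ (gg κ h h)
  c_zero := by
    rw [← c3_zero ζ]
    exact congrArg _ (funext fun i => by rcases i with (i | i) | i <;> rfl)
  c_add h h' := by
    rw [← c3_add ζ]
    exact congrArg _ (funext fun i => by rcases i with (i | i) | i <;> simp)
  c_inr h i j := by simp [c3]
  stab h f hf := by
    have : Fer m k ((Unit ⊕ Unit) ⊕ κ) ≤ (Fer m k _).comap (sc (c3 ζ (gg κ h h))) :=
      Ideal.span_le.2 (by
        rintro _ ⟨i, rfl⟩
        rw [SetLike.mem_coe, Ideal.mem_comap, sc_fer (c3_pow ζ _)]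
        exact fer_mem i)
    exact this hf
  β := insert (cc m (rr (xx k κ) (yy k κ)) 0) {b | ∃ i j, b = X (Sum.inl i, j)}
  β_semi := by
    rintro b (rfl | ⟨i, j, rfl⟩) h
    · refine ⟨(∏ i, ζ.1 ^ (h i).val) ^ m, ?_⟩
      rw [map_cc, C_pow, ← cc_smul]
      simp only [sc_rr]
    · exact ⟨_, sc_X _ _⟩
  β_var i := ⟨0, Or.inr ⟨i, 0, rfl⟩⟩
  r := rr (xx k κ) (yy k κ)
  δ := wt (Sum.inl (Sum.inl ()), 0) + wt (Sum.inl (Sum.inr ()), 0) + wt (Sum.inl (Sum.inr ()), 0)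
  δ_ne := ⟨Sum.inl (), by simp [wt]⟩
  r_hom s := ((hg_X _).mul (hg_X _)).mul (hg_X _)
  r_semi h := ⟨_, sc_rr ζ h⟩
  inv b d hd hb := by
    obtain ⟨N, D, ψ, h⟩ := inv_aux ζ h3 hd hb
    have hy : ∀ j, yy k κ j ∈ Submonoid.closure (insert (cc m (rr (xx k κ) (yy k κ)) 0)
        {b | ∃ i j, b = X (Sum.inl i, j)} : Set (S k ((Unit ⊕ Unit) ⊕ κ))) := fun j =>
      Submonoid.subset_closure (Or.inr ⟨_, j, rfl⟩)
    exact ⟨_, mul_mem (pow_mem (Submonoid.subset_closure (Set.mem_insert _ _)) N)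
      (pow_mem (mul_mem (mul_mem (hy 0) (hy 1)) (hy 2)) D), _, pow_mem (pow_mem (hy 0) m) N, ψ, h⟩
  Γ := {γ | ∃ j, γ = X j ∨ γ = cc m X j}
  Γ_ne := by
    rintro γ ⟨j, rfl | rfl⟩ P hP hF hb h
    · rw [aeval_X] at h
      rcases hP.mem_or_mem h with h | h
      · rcases hP.mem_or_mem h with h | h
        · exact hb _ (Or.inr ⟨_, _, rfl⟩) h
        · exact hb _ (Or.inr ⟨_, _, rfl⟩) h
      · exact hb _ (Or.inr ⟨_, _, rfl⟩) h
    · rw [map_cc] at h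
      simp only [aeval_X] at h
      have h1 := P.add_mem (relP hF j) (P.mul_mem_left (yy k κ 0 ^ m) (P.mul_mem_left (eps _ j) h))
      rw [sub_add_cancel] at h1
      rcases hP.mem_or_mem h1 with h | h
      · exact hb _ (Or.inl rfl) h
      · exact hb _ (Or.inr ⟨_, _, rfl⟩) (hP.mem_of_pow_mem _ h)
  lift Ω _ _ _ ρ z hz hΓ := by
    have hρ : ∀ j, ρ j ≠ 0 := fun j => by simpa using hΓ _ ⟨j, Or.inl rfl⟩
    have hc : ∀ j, cc m ρ j ≠ 0 := fun j => by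
      have := hΓ _ ⟨j, Or.inr rfl⟩
      rw [map_cc] at this
      simpa only [aeval_X] using this
    choose y hy using fun j => IsAlgClosed.exists_pow_nat_eq (eps Ω j * cc m ρ j) (NeZero.pos m)
    have y0 : ∀ j, y j ≠ 0 := fun j h => by
      have := hy j
      rw [h, zero_pow (NeZero.ne m)] at this
      refine mul_ne_zero ?_ (hc j) this.symm
      fin_cases j <;> simp [eps]
    have hY : y 0 * y 1 * y 2 ≠ 0 := mul_ne_zero (mul_ne_zero (y0 0) (y0 1)) (y0 2)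
    have hr : ∀ j, rr (fun j => ρ j * y j) y j = y 0 * y 1 * y 2 * ρ j := fun j => by
      refine mul_right_cancel₀ (y0 j) ?_
      rw [rr_mul]
      ring
    have h0 : y 0 ^ m = ρ 2 ^ m - ρ 1 ^ m := (hy 0).trans (one_mul _)
    have h1 : y 1 ^ m = ρ 0 ^ m - ρ 2 ^ m := (hy 1).trans (one_mul _)
    have h2 : y 2 ^ m = -1 * (ρ 1 ^ m - ρ 0 ^ m) := hy 2
    refine ⟨fun v => Sum.elim (Sum.elim (fun _ => ρ v.2 * y v.2) fun _ => y v.2)
      (fun i => z (i, v.2)) v.1, fun f hf => ?_, ?_, fun _ _ => rfl, _, hY, fun j => ?_⟩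
    · refine (Ideal.span_le (I := RingHom.ker (aeval _ : S k _ →ₐ[k] Ω))).2 ?_ hf
      rintro _ ⟨(i | i) | i, rfl⟩ <;>
        simp only [SetLike.mem_coe, RingHom.mem_ker, fer, map_sub, map_add, map_pow, aeval_X,
          Sum.elim_inl, Sum.elim_inr, mul_pow]
      · rw [h0, h1, h2]
        ring
      · rw [h0, h1, h2]
        ring
      · exact sub_eq_zero.2 (hz i)
    · rintro b (rfl | ⟨i | i, j, rfl⟩)
      · simp only [map_cc, map_rr, aeval_X, Sum.elim_inl, Sum.elim_inr, hr, cc_smul]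
        exact mul_ne_zero (pow_ne_zero _ hY) (hc 0)
      · simpa using ⟨hρ j, y0 j⟩
      · simpa using y0 j
    · simp only [map_rr, aeval_X, Sum.elim_inl, Sum.elim_inr, hr]

theorem exists_root_mem (ζ : Rt m k) {ι : Type} {P : Ideal (S k ι)} (hP : P.IsPrime)
    {u v : S k ι} (h : u ^ m - v ^ m ∈ P) : ∃ t : ZMod m, u - C (ζ.1 ^ t.val) * v ∈ P := by
  have hz : IsPrimitiveRoot (C ζ.1 : S k ι) m := ζ.2.map_of_injective (C_injective _ _)
  rw [hz.pow_sub_pow_eq_prod_sub_mul u v (NeZero.pos m)] at h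
  obtain ⟨μ, hμ, h⟩ := (Ideal.IsPrime.prod_mem_iff (hp := hP)).1 h
  obtain ⟨i, hi, rfl⟩ := hz.eq_pow_of_pow_eq_one ((Polynomial.mem_nthRootsFinset (NeZero.pos m) 1).1 hμ)
  exact ⟨i, by rwa [ZMod.val_natCast_of_lt hi, C_pow]⟩

theorem graph (ζ : Rt m k) {P : Ideal (S k ((Unit ⊕ Unit) ⊕ κ))} (hP : P.IsPrime)
    (hF : Fer m k _ ≤ P) (hy : ∀ j, yy k κ j ∉ P) (h0 : cc m (rr (xx k κ) (yy k κ)) 0 ∈ P) :
    ∃ g, (PD0 m k).map (rn Sum.inl) ⊔ Fer m k _ ≤ P.comap (sc (c3 ζ (gg κ 0 g))) := by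
  have hc : ∀ j, eps _ j * cc m (rr (xx k κ) (yy k κ)) j ∈ P := fun j => by
    have h1 := P.sub_mem (P.mul_mem_right (yy k κ j ^ m) h0) (relP hF j)
    rw [sub_sub_cancel] at h1
    exact (hP.mem_or_mem h1).resolve_left fun h => hy 0 (hP.mem_of_pow_mem _ h)
  obtain ⟨t1, h1⟩ := exists_root_mem ζ hP (u := rr (xx k κ) (yy k κ) 1)
    (v := rr (xx k κ) (yy k κ) 0) (by
      have := P.neg_mem (hc 2)
      rwa [show eps (S k ((Unit ⊕ Unit) ⊕ κ)) 2 = -1 from rfl, neg_one_mul, neg_neg] at this)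
  obtain ⟨t2, h2⟩ := exists_root_mem ζ hP (u := rr (xx k κ) (yy k κ) 2)
    (v := rr (xx k κ) (yy k κ) 0) (by
      have := P.neg_mem (hc 1)
      rwa [show eps (S k ((Unit ⊕ Unit) ⊕ κ)) 1 = 1 from rfl, one_mul, cc, neg_sub] at this)
  have k1 : xx k κ 1 * yy k κ 0 - C (ζ.1 ^ t1.val) * (xx k κ 0 * yy k κ 1) ∈ P := by
    refine (hP.mem_or_mem (x := yy k κ 2) ?_).resolve_left (hy 2)
    refine (congrArg (· ∈ P) ?_).mp h1
    show xx k κ 1 * yy k κ 2 * yy k κ 0 - _ * (xx k κ 0 * yy k κ 1 * yy k κ 2) = _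
    ring
  have k2 : xx k κ 2 * yy k κ 0 - C (ζ.1 ^ t2.val) * (xx k κ 0 * yy k κ 2) ∈ P := by
    refine (hP.mem_or_mem (x := yy k κ 1) ?_).resolve_left (hy 1)
    refine (congrArg (· ∈ P) ?_).mp h2
    show xx k κ 2 * yy k κ 0 * yy k κ 1 - _ * (xx k κ 0 * yy k κ 1 * yy k κ 2) = _
    ring
  refine ⟨![0, t1, t2], ?_⟩
  set θ := sc (c3 ζ (gg κ 0 ![0, t1, t2])) with hθ
  have sx : ∀ j, θ (xx k κ j) = xx k κ j := fun j => by simp [hθ, sc_X, c3]
  have s0 : θ (yy k κ 0) = yy k κ 0 := by simp [hθ, sc_X, c3]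
  have s1 : θ (yy k κ 1) = C (ζ.1 ^ t1.val) * yy k κ 1 := by simp [hθ, sc_X, c3]
  have s2 : θ (yy k κ 2) = C (ζ.1 ^ t2.val) * yy k κ 2 := by simp [hθ, sc_X, c3]
  have hF' : Fer m k ((Unit ⊕ Unit) ⊕ κ) ≤ P.comap θ := Ideal.span_le.2 (by
    rintro _ ⟨i, rfl⟩
    rw [SetLike.mem_coe, Ideal.mem_comap, hθ, sc_fer (c3_pow ζ _)]
    exact hF (fer_mem i))
  have hm : ∀ a, θ (minor k (Sum.inl (Sum.inl ())) (Sum.inl (Sum.inr ())) a) ∈ P := fun a => by
    fin_cases a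
    · refine (hP.mem_or_mem (x := yy k κ 0) ?_).resolve_left (hy 0)
      show _ * θ (xx k κ 1 * yy k κ 2 - xx k κ 2 * yy k κ 1) ∈ P
      rw [map_sub, map_mul, map_mul, sx, sx, s1, s2]
      refine (congrArg (· ∈ P) ?_).mp (P.sub_mem
        (P.mul_mem_left (C (ζ.1 ^ t2.val) * yy k κ 2) k1)
        (P.mul_mem_left (C (ζ.1 ^ t1.val) * yy k κ 1) k2))
      ring
    · show θ (xx k κ 2 * yy k κ 0 - xx k κ 0 * yy k κ 2) ∈ P
      rw [map_sub, map_mul, map_mul, sx, sx, s0, s2, mul_left_comm]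
      exact k2
    · show θ (xx k κ 0 * yy k κ 1 - xx k κ 1 * yy k κ 0) ∈ P
      rw [map_sub, map_mul, map_mul, sx, sx, s0, s1, mul_left_comm, ← neg_sub]
      exact P.neg_mem k1
  refine sup_le (Ideal.map_le_iff_le_comap.2 fun f hf => ?_) hF'
  obtain ⟨N, hN⟩ := PD0_mul hf 0
  have hl : Ideal.span (Set.range (minor k (Sum.inl ()) (Sum.inr ()))) ⊔ Fer m k (Unit ⊕ Unit) ≤
      (P.comap θ).comap (rn Sum.inl) := sup_le (Ideal.span_le.2 (by
        rintro _ ⟨a, rfl⟩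
        show θ (rn _ _) ∈ P
        rw [rn_minor]
        exact hm a)) fun g hg => hF' (rn_mem_Fer _ hg)
  have h3 : θ (rn Sum.inl (X (Sum.inr (), 0) ^ N * f)) ∈ P := hl hN
  rw [map_mul, map_mul, map_pow, map_pow, rn_X] at h3
  exact (hP.mem_or_mem h3).resolve_left fun h => hy 0 (s0 ▸ hP.mem_of_pow_mem _ h)

omit [NeZero m] in
theorem fer_sup {ι : Type} {Q : Ideal (S k κ)} (hF : Fer m k κ ≤ Q) :
    Fer m k (ι ⊕ κ) ⊔ Q.map (rn Sum.inr) =
      (Fer m k ι).map (rn Sum.inl) ⊔ Q.map (rn Sum.inr) := by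
  have h : (Fer m k κ).map (rn (Sum.inr : κ → ι ⊕ κ)) ≤ Q.map (rn Sum.inr) := Ideal.map_mono hF
  rw [← Fer_sum, sup_assoc, sup_eq_right.2 h]

end AppN2X

open AppN2X

variable {m : ℕ} [NeZero m] {k κ : Type} [Field k] [Fintype κ] [DecidableEq κ] {ζ : Rt m k}

theorem nd_part {a : Ch m} (ha : Nd a) {x : G m k ((Unit ⊕ Unit) ⊕ κ)}
    (h1 : x ∈ E1 ζ (Sum.inl (Sum.inl ())) a) (h2 : x ∈ E1 ζ (Sum.inl (Sum.inr ())) (-a)) :
    ∃ y, x = boxG (Da ζ a) y := by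
  set π := (LinearMap.range (boxG (κ := κ) (Da ζ a))).mkQ with hπ
  have hπ0 : ∀ y, π (boxG (Da ζ a) y) = 0 := fun y =>
    (Submodule.Quotient.mk_eq_zero _).2 ⟨y, rfl⟩
  have hv : ∀ i j, Kil (π ∘ₗ PP ζ a) (Ideal.span {X (Sum.inl i, j)}) := fun i j M hM => by
    rw [LinearMap.comp_apply, kil_PP ha i j M hM, map_zero]
  have key : Kil (π ∘ₗ PP ζ a) (Fer m k _) := by
    refine (DN κ ζ ha.three_le).kil _ (fun g P n hP hF => ?_) ?_ fun Q hQ hF n => ?_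
    · have := PP_tw3 (ζ := ζ) a g g (cy m P n)
      rw [tw3_cy ζ _ hP hF] at this
      simp only [sub_self, mul_zero, Finset.sum_const_zero, AddChar.map_zero_eq_one,
        one_smul] at this
      exact congrArg π this
    · rintro b (rfl | ⟨i, j, rfl⟩)
      · refine kil_of_primes fun P n hg hP hF hl => ?_
        by_cases hy : ∀ j, yy k κ j ∉ P
        · obtain ⟨g, hg'⟩ := graph ζ hP hF hy
            (hl (Ideal.mem_sup_right (Ideal.subset_span rfl)))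
          have e1 := (kil_graph ha π hπ0).cy hg' n
          rw [← tw3_cy ζ _ hg hF, LinearMap.comp_apply, PP_tw3, map_smul, smul_eq_zero] at e1
          exact e1.resolve_left (Circle.coe_ne_zero _)
        · obtain ⟨j, hj⟩ := not_forall.1 hy
          exact (hv (Sum.inr ()) j).cy ((Ideal.span_singleton_le_iff_mem _).2 (not_not.1 hj)) n
      · exact fun M hM => hv i j M (le_sup_right.trans hM)
    · have e1 : (DN κ ζ ha.three_le).I ⊔ Q.map (rn Sum.inr) =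
          (Fer m k (Unit ⊕ Unit)).map (rn Sum.inl) ⊔ Q.map (rn Sum.inr) := fer_sup hF
      have e2 : a ≠ 0 := fun h => ha.1 (congrArg Prod.fst h)
      have e4 := boxG_cy (m := m) (grI_Fer (m := m) (k := k) (ι := Unit ⊕ Unit)) le_rfl hQ hF
        (n ∘ Sum.inl) (n ∘ Sum.inr)
      rw [Sum.elim_comp_inl_inr] at e4
      have e5 : P1 ζ (Sum.inl ()) a (cy m (Fer m k (Unit ⊕ Unit)) (n ∘ Sum.inl)) = 0 :=
        P1_of_ne e2 (mem_Ga.1 (cy_Fer_mem (ζ := ζ) (n ∘ Sum.inl)) (Sum.inl ()))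
      rw [e1, ← e4, LinearMap.comp_apply, PP, Module.End.mul_apply, P1_comm, P1_box_left, e5,
        map_zero, LinearMap.zero_apply, map_zero, map_zero]
  have e3 := LinearMap.congr_fun key.eq_zero x
  rw [LinearMap.comp_apply, PP, Module.End.mul_apply, P1_of_mem h2, P1_of_mem h1] at e3
  obtain ⟨y, hy⟩ := (Submodule.Quotient.mk_eq_zero _).1 e3
  exact ⟨y, hy.symm⟩

end Pool.Agent.Tate
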