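import Pool.Agent.P.MP_2ce3e7_ag.BoxB
import Pool.Agent.P.MP_2ce3e7_ag.Aff
import Pool.Agent.P.MP_2ce3e7_ag.FerP

/-! Coefficients of the Hilbert function, Euler characteristic and push-forward. -/

set_option autoImplicit false

noncomputable section

namespace Pool.Agent.Tate

open MvPolynomial

variable {m : ℕ} {k ι κ : Type} [Field k] [Fintype ι] [DecidableEq ι] [Fintype κ] [DecidableEq κ]

omit [Fintype ι] [DecidableEq ι] in
/-- multiplication by a variable -/
def chi_mulX (M : GM m k ι) (v : ι × Fin 3) : Hom M (M.sh (wt v)) :=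
  ⟨LinearMap.lsmul (S k ι) M.M (X v), fun d x => (M.π_X v d x).symm⟩

omit [DecidableEq ι] in
/-- kernel and cokernel of the multiplication by a variable -/
theorem chi_step (M : GM m k ι) (v : ι × Fin 3) : ∃ K Q : GM m k ι,
    M.ann ≤ K.ann ∧ M.ann ≤ Q.ann ∧ (X v : S k ι) ∈ K.ann ∧ (X v : S k ι) ∈ Q.ann ∧
      shG (wt v) (cls M) - cls M = cls Q - cls K := by
  refine ⟨M.sub _ (chi_mulX M v).gr_ker, (M.sh (wt v)).quo _ (chi_mulX M v).gr_range,
    fun f hf => GM.mem_ann.2 fun x => Subtype.ext (GM.mem_ann.1 hf x.1),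
    fun f hf => GM.mem_ann.2 fun x => ?_, GM.mem_ann.2 fun x => Subtype.ext x.2,
    GM.mem_ann.2 fun x => ?_, ?_⟩
  · obtain ⟨y, rfl⟩ := (LinearMap.range (chi_mulX M v).f).mkQ_surjective x
    have h : f • y = 0 := GM.mem_ann.1 hf y
    change f • (LinearMap.range (chi_mulX M v).f).mkQ y = 0
    rw [← map_smul, h, map_zero]
  · obtain ⟨y, rfl⟩ := (LinearMap.range (chi_mulX M v).f).mkQ_surjective x
    change (X v : S k ι) • (LinearMap.range (chi_mulX M v).f).mkQ y = 0
    rw [← map_smul]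
    exact (Submodule.Quotient.mk_eq_zero _).2 ⟨y, rfl⟩
  · have h := cls_ker_coker (chi_mulX M v)
    rw [shG_cls]
    rw [sub_eq_sub_iff_sub_eq_sub] at h
    rw [← neg_sub, h, neg_sub]

omit [DecidableEq ι] in
theorem chi_cls_zero (hm : m ≠ 0) {M : GM m k ι} {i : ι} (h0 : (X (i, 0) : S k ι) ∈ M.ann)
    (h1 : (X (i, 1) : S k ι) ∈ M.ann) : cls M = 0 := by
  refine cls_irr (irr_of_block i fun j => ?_)
  have h2 : (X (i, 2) : S k ι) ^ m ∈ M.ann := by
    have e : (X (i, 2) : S k ι) ^ m = X (i, 0) ^ m + X (i, 1) ^ m - fer m k i := by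
      rw [fer]; ring
    rw [e]
    exact sub_mem (add_mem (Ideal.pow_mem_of_mem _ h0 _ (Nat.pos_of_ne_zero hm))
      (Ideal.pow_mem_of_mem _ h1 _ (Nat.pos_of_ne_zero hm))) (M.Fer_le_ann (fer_mem i))
  fin_cases j
  · exact ⟨1, by rw [pow_one]; exact h0⟩
  · exact ⟨1, by rw [pow_one]; exact h1⟩
  · exact ⟨m, h2⟩

theorem chi_sh_fix (hm : m ≠ 0) {M : GM m k ι} {i : ι} (h0 : (X (i, 0) : S k ι) ∈ M.ann) :
    shG (Pi.single i 1) (cls M) = cls M := by
  obtain ⟨K, Q, hK, hQ, hK', hQ', h⟩ := chi_step M (i, 1)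
  rw [chi_cls_zero hm (hK h0) hK', chi_cls_zero hm (hQ h0) hQ', sub_zero, sub_eq_zero,
    wt_eq_single] at h
  exact h

/-- the square of a hyperplane class of a curve vanishes -/
theorem shG_sq (hm : m ≠ 0) (i : ι) (x : G m k ι) :
    shG (Pi.single i 1) (shG (Pi.single i 1) x) + x =
      shG (Pi.single i 1) x + shG (Pi.single i 1) x := by
  induction x using G.ind with
  | h1 M =>
    obtain ⟨K, Q, -, -, hK, hQ, h⟩ := chi_step M (i, 0)
    rw [wt_eq_single] at h
    have h' := congrArg (shG (Pi.single i 1)) h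
    rw [map_sub, map_sub, chi_sh_fix hm hK, chi_sh_fix hm hQ, ← h,
      sub_eq_sub_iff_add_eq_add] at h'
    exact h'
  | h0 => simp
  | h2 x y hx hy =>
    simp only [map_add]
    rw [add_add_add_comm, hx, hy, add_add_add_comm]
  | h3 c x hx =>
    simp only [map_smul]
    rw [← smul_add, hx, smul_add]

/-- coefficients of an additive family of functions that is compatible with the shifts -/
theorem chi_lift (hm : m ≠ 0) {I V : Type*} [Fintype I] [DecidableEq I] [AddCommGroup V]
    [Module ℂ V] (h : GM m k ι → (I → ℤ) → V) (t : I → ι)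
    (h1 : ∀ (M N P : GM m k ι) (f : Hom M N) (g : Hom N P), SES f g → h N = h M + h P)
    (h2 : ∀ M, Tors M → ∀ᶠ d in Filter.atTop, h M d = 0)
    (h3 : ∀ M l d, h (M.sh (Pi.single (t l) 1)) d = h M (d + Pi.single l 1)) :
    ∃ c : G m k ι →ₗ[ℂ] Finset I → V, ∀ M, Aff (h M) (c (cls M)) := by
  obtain ⟨F, hF⟩ := exists_lift
    (fun M => ((h M : (I → ℤ) → V) : Filter.Germ (Filter.atTop : Filter (I → ℤ)) V))
    (fun M N P f g hs => by rw [h1 M N P f g hs]; rfl)
    (fun M hM => Filter.Germ.coe_eq.2 (h2 M hM))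
  have ha : ∀ M, ∃ c, Aff (h M) c := fun M => exists_aff fun l => by
    have e := congrArg F (shG_sq hm (t l) (cls M))
    rw [shG_cls, shG_cls, map_add, map_add, hF, hF, hF] at e
    have e' : h ((M.sh (Pi.single (t l) 1)).sh (Pi.single (t l) 1)) + h M =ᶠ[Filter.atTop]
        h (M.sh (Pi.single (t l) 1)) + h (M.sh (Pi.single (t l) 1)) := Filter.Germ.coe_eq.1 e
    filter_upwards [e'] with d hd
    rw [Pi.add_apply, Pi.add_apply, h3, h3, h3] at hd
    exact hd
  choose c hc using ha
  obtain ⟨F', hF'⟩ := exists_lift c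
    (fun M N P f g hs => (hc N).uniq (by rw [h1 M N P f g hs]; exact (hc M).add (hc P)))
    (fun M hM => ((hc M).congr (h2 M hM)).uniq aff_zero)
  exact ⟨F', fun M => by rw [hF']; exact hc M⟩

theorem exists_coef (m : ℕ) (k ι : Type) [Field k] [Fintype ι] :
    ∃ c : G m k ι →ₗ[ℂ] Finset ι → ℂ,
      m ≠ 0 → ∀ M, Aff (fun d => (hilb M d : ℂ)) (c (cls M)) := by
  classical
  by_cases hm : m = 0
  · exact ⟨0, fun h => absurd hm h⟩
  obtain ⟨c, hc⟩ := chi_lift (k := k) (ι := ι) hm (fun M d => (hilb M d : ℂ)) id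
    (fun M N P f g hs => funext fun d => by
      rw [hilb_ses hs d, Nat.cast_add]; rfl)
    (fun M hM => ((tors_iff_hilb M).1 hM).mono fun d hd => by rw [hd, Nat.cast_zero])
    (fun M l d => rfl)
  exact ⟨c, fun _ => hc⟩

/-- coefficients of the Hilbert polynomial -/
def coef {ι : Type} [Fintype ι] : G m k ι →ₗ[ℂ] Finset ι → ℂ := (exists_coef m k ι).choose

omit [DecidableEq ι] in
theorem aff_coef (hm : m ≠ 0) (M : GM m k ι) : Aff (fun d => (hilb M d : ℂ)) (coef (cls M)) :=
  (exists_coef m k ι).choose_spec hm M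

/-- Euler characteristic -/
def chi {ι : Type} [Fintype ι] : G m k ι →ₗ[ℂ] ℂ := LinearMap.proj ∅ ∘ₗ coef

omit [DecidableEq ι] in
theorem chi_apply (x : G m k ι) : chi x = coef x ∅ := rfl

omit [DecidableEq ι] [DecidableEq κ] in
theorem chi_pl_sh (f : ι → κ) (hf : Function.Injective f) (o n : κ → ℤ) (P : GM m k κ) :
    pl (reD m k f hf o) (P.sh n) = pl (reD m k f hf (o + n)) P := by
  obtain ⟨N, j, h⟩ := exists_isPull (reD m k f hf o) (P.sh n)
  have e : ∀ d, (reD m k f hf (o + n)).val d = (reD m k f hf o).val d + n :=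
    fun d => add_right_comm _ _ _
  have h' : IsPull (reD m k f hf (o + n)) P N j :=
    ⟨h.inj, h.smul, fun d x => by rw [e]; exact h.π d x, fun d x => by rw [e]; exact h.surj d x⟩
  rw [← h.cls_eq, h'.cls_eq]

theorem exists_push (m : ℕ) (k ι κ : Type) [Field k] [Fintype ι] [Fintype κ] :
    ∃ F : G m k (ι ⊕ κ) →ₗ[ℂ] G m k κ, m ≠ 0 → ∀ y u, F (boxG y u) = chi y • u := by
  classical
  by_cases hm : m = 0
  · exact ⟨0, fun h => absurd hm h⟩
  obtain ⟨c, hc⟩ := chi_lift (k := k) (ι := ι ⊕ κ) hm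
    (fun P (d : ι → ℤ) => pl (reD m k Sum.inr Sum.inr_injective (Sum.elim d 0)) P) Sum.inl
    (fun M N P f g hs => funext fun d => pl_ses _ hs)
    (fun M hM => by
      obtain ⟨d₀, h₀⟩ := pl_tors (ι := κ) hM
      filter_upwards [Filter.eventually_ge_atTop (d₀ ∘ Sum.inl)] with d hd
      refine h₀ _ ?_
      rintro (l | l) hl
      · exact hd l
      · exact absurd rfl (hl l))
    (fun M l d => by
      rw [chi_pl_sh]
      congr 2
      funext a
      rcases a with a | a <;> simp [Pi.single_apply])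
  refine ⟨LinearMap.proj ∅ ∘ₗ c, fun _ y u => ?_⟩
  induction y using G.ind with
  | h1 M =>
    induction u using G.ind with
    | h1 N =>
      obtain ⟨P, j, h⟩ := exists_isBox M N
      have a := (aff_coef hm M).map (LinearMap.toSpanSingleton ℂ _ (cls N))
      have a' := (hc P).congr (h' := fun d => (hilb M d : ℂ) • cls N)
        (Filter.Eventually.of_forall fun d =>
          pl_box h _ rfl (fun _ => rfl) (fun _ => rfl) fun _ => rfl)
      rw [h.boxG_cls]
      exact congrFun (a'.uniq a) ∅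
    | h0 => simp
    | h2 x y hx hy => rw [map_add, map_add, hx, hy, smul_add]
    | h3 r x hx => rw [map_smul, map_smul, hx, smul_comm]
  | h0 => simp
  | h2 x y hx hy => rw [map_add, LinearMap.add_apply, map_add, hx, hy, map_add, add_smul]
  | h3 r x hx => rw [map_smul, LinearMap.smul_apply, map_smul, hx, map_smul, smul_assoc]

/-- push-forward along the first factors -/
def push {ι κ : Type} [Fintype ι] [Fintype κ] : G m k (ι ⊕ κ) →ₗ[ℂ] G m k κ :=
  (exists_push m k ι κ).choose

omit [DecidableEq ι] [DecidableEq κ] in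
theorem push_box (hm : m ≠ 0) (y : G m k ι) (u : G m k κ) : push (boxG y u) = chi y • u :=
  (exists_push m k ι κ).choose_spec hm y u

theorem chi_coef_pull (hm : m ≠ 0) {D : PD m k ι κ} (hs : Function.Surjective D.τ)
    (ho : D.o = 0) (x : G m k κ) (T : Finset ι) :
    coef (pullG D x) T = (∏ l ∈ T, (D.q l : ℂ)) * coef x (T.map ⟨D.τ, D.inj⟩) := by
  induction x using G.ind with
  | h1 M =>
    obtain ⟨N, j, h⟩ := exists_isPull D M
    have a := ((aff_coef hm M).reindex (Equiv.ofBijective D.τ ⟨D.inj, hs⟩)).scale D.q D.q_pos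
    have a' := a.congr (h' := fun d => (hilb N d : ℂ)) (Filter.Eventually.of_forall fun d => by
      rw [h.hilb_eq]
      congr 2
      funext l
      obtain ⟨i, rfl⟩ := hs l
      rw [D.val_τ, ho, Pi.zero_apply, zero_add, Function.comp_apply,
        Equiv.ofBijective_symm_apply_apply])
    rw [h.pullG_cls hs]
    exact congrFun ((aff_coef hm N).uniq a') T
  | h0 => simp
  | h2 x y hx hy => simp only [map_add, Pi.add_apply, hx, hy, mul_add]
  | h3 r x hx => simp only [map_smul, Pi.smul_apply, hx, smul_eq_mul, mul_left_comm]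

theorem chi_pull (hm : m ≠ 0) {D : PD m k ι κ} (hs : Function.Surjective D.τ) (ho : D.o = 0)
    (x : G m k κ) : chi (pullG D x) = chi x := by
  rw [chi_apply, chi_apply, chi_coef_pull hm hs ho, Finset.prod_empty, one_mul, Finset.map_empty]

theorem coef_pull (hm : m ≠ 0) {D : PD m k ι ι} (hτ : D.τ = id) (ho : D.o = 0) (x : G m k ι)
    (T : Finset ι) : coef (pullG D x) T = (∏ l ∈ T, (D.q l : ℂ)) * coef x T := by
  have e : T.map ⟨D.τ, D.inj⟩ = T := by
    ext l
    simp [hτ]
  rw [chi_coef_pull hm (by rw [hτ]; exact Function.surjective_id) ho, e]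

theorem chi_reG (hm : m ≠ 0) (e : ι ≃ κ) (x : G m k ι) : chi (reG e x) = chi x :=
  chi_pull hm (D := reD m k e.symm e.symm.injective 0) e.symm.surjective rfl x

theorem coef_step (hm : m ≠ 0) (i : ι) (x : G m k ι) (T : Finset ι) :
    coef (shG (Pi.single i 1) x) T = coef x T + if i ∈ T then 0 else coef x (insert i T) := by
  induction x using G.ind with
  | h1 M =>
    rw [shG_cls]
    exact congrFun ((aff_coef hm (M.sh (Pi.single i 1))).uniq ((aff_coef hm M).step i)) T
  | h0 => simp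
  | h2 x y hx hy =>
    simp only [map_add, Pi.add_apply, hx, hy]
    split_ifs <;> ring
  | h3 r x hx =>
    simp only [map_smul, Pi.smul_apply, hx, smul_eq_mul]
    split_ifs <;> ring

theorem chi_box (hm : m ≠ 0) (x : G m k ι) (y : G m k κ) : chi (boxG x y) = chi x * chi y := by
  induction x using G.ind with
  | h1 M =>
    induction y using G.ind with
    | h1 N =>
      obtain ⟨P, j, h⟩ := exists_isBox M N
      have a := ((aff_coef hm M).prod (aff_coef hm N)).congr (h' := fun d => (hilb P d : ℂ))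
        (Filter.Eventually.of_forall fun d => by rw [h.hilb_eq, Nat.cast_mul])
      rw [h.boxG_cls]
      exact congrFun ((aff_coef hm P).uniq a) ∅
    | h0 => simp
    | h2 x y hx hy => rw [map_add, map_add, hx, hy, map_add, mul_add]
    | h3 r x hx => rw [map_smul, map_smul, hx, map_smul, smul_eq_mul, smul_eq_mul, mul_left_comm]
  | h0 => simp
  | h2 x y hx hy => rw [map_add, LinearMap.add_apply, map_add, hx, hy, map_add, add_mul]
  | h3 r x hx =>
    rw [map_smul, LinearMap.smul_apply, map_smul, hx, map_smul, smul_eq_mul, smul_eq_mul,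
      mul_assoc]

theorem chi_cls_empty [IsEmpty ι] (hm : m ≠ 0) (M : GM m k ι) : chi (cls M) = hilb M 0 := by
  have a := (aff_const (I := ι) (hilb M 0 : ℂ)).congr (h' := fun d => (hilb M d : ℂ))
    (Filter.Eventually.of_forall fun d => by rw [Subsingleton.elim d 0])
  rw [chi_apply, (aff_coef hm M).uniq a, Pi.single_eq_same]

theorem chi_one [IsEmpty ι] (hm : m ≠ 0) : chi (cy m (Fer m k ι) 0) = 1 := by
  obtain ⟨M, x, h, e⟩ := exists_cy (grI_Fer (m := m) (k := k) (ι := ι)) le_rfl 0
  have h1 := h.hilb_eq 0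
  have h2 : Fer m k ι = ⊥ := by
    rw [Fer, Set.range_eq_empty, Ideal.span_empty]
  have h3 : weightedHomogeneousSubmodule k (wt (ι := ι)) (0 + 0) = ⊤ :=
    eq_top_iff.2 fun f _ d _ => Subsingleton.elim _ _
  rw [h2, h3, Submodule.restrictScalars_bot, inf_bot_eq, finrank_bot, add_zero, finrank_top,
    MvPolynomial.finrank_eq_one] at h1
  rw [e, chi_cls_empty hm, h1, Nat.cast_one]

theorem G_empty [IsEmpty ι] (hm : m ≠ 0) (x : G m k ι) : x = chi x • cy m (Fer m k ι) 0 := by
  induction x using G.ind with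
  | h1 M => rw [chi_cls_empty hm]; exact cls_empty M
  | h0 => simp
  | h2 x y hx hy => rw [map_add, add_smul, ← hx, ← hy]
  | h3 r x hx => rw [map_smul, smul_assoc, ← hx]

/-- line bundles on the curve -/
theorem cy_Fer_unit (hm : (m : k) ≠ 0) (n : Unit → ℤ) : cy m (Fer m k Unit) n =
    cy m (Fer m k Unit) 0 + (n () : ℂ) • (cy m (Fer m k Unit) 0 - cy m (Fer m k Unit) (-1)) := by
  have hm' : m ≠ 0 := by
    rintro rfl
    exact hm Nat.cast_zero
  let a : ℤ → G m k Unit := fun t => cy m (Fer m k Unit) fun _ => t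
  have hs : ∀ t, shG (Pi.single () 1) (a t) = a (t + 1) := fun t => by
    refine (shG_cy grI_Fer le_rfl _ _).trans ?_
    congr 1
  have h2 : ∀ t, a (t + 1 + 1) - a (t + 1) = a (t + 1) - a t := fun t => by
    have e := shG_sq hm' () (a t)
    rw [hs, hs] at e
    exact sub_eq_sub_iff_add_eq_add.2 e
  have h3 : ∀ t, a (t + 1) - a t = a 0 - a (-1) := fun t => by
    induction t using Int.induction_on with
    | zero =>
      have e := h2 (-1)
      rw [neg_add_cancel] at e
      exact e
    | succ t ih => rw [h2, ih]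
    | pred t ih =>
      have e := h2 (-(t : ℤ) - 1)
      rw [sub_add_cancel] at e ⊢
      rw [← e, ih]
  have h4 : ∀ t : ℤ, a t = a 0 + (t : ℂ) • (a 0 - a (-1)) := fun t => by
    induction t using Int.induction_on with
    | zero => simp
    | succ t ih =>
      rw [eq_add_of_sub_eq (h3 t), ih]
      push_cast
      rw [add_smul, one_smul]
      abel
    | pred t ih =>
      have e := h3 (-(t : ℤ) - 1)
      rw [sub_add_cancel, ih] at e
      rw [← sub_sub_cancel (a 0 + ((-(t : ℤ) : ℤ) : ℂ) • (a 0 - a (-1))) (a (-(t : ℤ) - 1)), e]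
      push_cast
      rw [sub_smul, one_smul]
      abel
  exact h4 (n ())

end Pool.Agent.Tate
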