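import Pool.Agent.P.MP_2ce3e7_ag.DT
import Pool.Agent.P.MP_2ce3e7_ag.Eig
import Pool.Agent.P.MP_2ce3e7_ag.Chi

/-! Degenerate characters. -/

set_option autoImplicit false

noncomputable section

namespace Pool.Agent.Tate

open MvPolynomial

theorem AppT_coeff_sc {k σ : Type} [Field k] (c : σ → k) (b : MvPolynomial σ k) (s : σ →₀ ℕ) :
    coeff s (sc c b) = (s.prod fun v n => c v ^ n) * coeff s b := by
  classical
  induction b using MvPolynomial.induction_on' with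
  | monomial u a =>
    rw [sc_monomial, coeff_monomial, coeff_monomial]
    split_ifs with h
    · rw [h]
    · rw [mul_zero]
  | add p q hp hq => rw [map_add, coeff_add, coeff_add, hp, hq, mul_add]

/-- invariants of a cyclic group that scales one variable -/
theorem AppT_inv {k σ : Type} [Field k] {m : ℕ} {z : k} (hz : IsPrimitiveRoot z m) {c : σ → k}
    {v : σ} (h0 : c v = z) (h1 : ∀ w, w ≠ v → c w = 1) {R : Subalgebra k (MvPolynomial σ k)}
    (r0 : X v ^ m ∈ R) (r1 : ∀ w, w ≠ v → X w ∈ R) {b : MvPolynomial σ k} (hb : sc c b = b) :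
    b ∈ R := by
  rw [b.as_sum]
  refine R.sum_mem fun s hs => ?_
  have h2 := AppT_coeff_sc c b s
  rw [hb] at h2
  have h3 : (s.prod fun v n => c v ^ n) = z ^ s v := by
    rw [Finsupp.prod, Finset.prod_eq_single v (fun w _ hw => by rw [h1 w hw, one_pow])
      (fun hv => by rw [Finsupp.notMem_support_iff.1 hv, pow_zero]), h0]
  have h4 : z ^ s v = 1 := by
    rw [h3] at h2
    exact (mul_left_eq_self₀.1 h2.symm).resolve_right (mem_support_iff.1 hs)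
  obtain ⟨t, ht⟩ := hz.dvd_of_pow_eq_one _ h4
  rw [monomial_eq]
  refine R.mul_mem (R.algebraMap_mem _) (R.prod_mem fun w _ => ?_)
  by_cases hw : w = v
  · rw [hw, ht]
    change X v ^ (m * t) ∈ R
    rw [pow_mul]
    exact R.pow_mem r0 t
  · exact R.pow_mem (r1 w hw) _

theorem AppT_pow {A : Type} [CommRing A] {T : Type} [SetLike T A] [AddSubgroupClass T A] {R : T}
    (x : Fin 3 → A) (j : Fin 3) (h : x 0 + x 1 - x 2 ∈ R) (h1 : ∀ s, s ≠ j → x s ∈ R) :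
    x j ∈ R := by
  fin_cases j
  · have := add_mem (sub_mem h (h1 1 (by decide))) (h1 2 (by decide))
    have e : x 0 + x 1 - x 2 - x 1 + x 2 = x 0 := by ring
    rw [e] at this
    exact this
  · have := add_mem (sub_mem h (h1 0 (by decide))) (h1 2 (by decide))
    have e : x 0 + x 1 - x 2 - x 0 + x 2 = x 1 := by ring
    rw [e] at this
    exact this
  · have := sub_mem (add_mem (h1 0 (by decide)) (h1 1 (by decide))) h
    simpa using this

theorem AppT_root {Ω : Type} [Field Ω] [IsAlgClosed Ω] {m : ℕ} (hm : 0 < m) (w : Fin 3 → Ω)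
    (j : Fin 3) : ∃ x : Fin 3 → Ω, OnF m x ∧ ∀ s, s ≠ j → x s = w s := by
  fin_cases j
  · obtain ⟨t, ht⟩ := IsAlgClosed.exists_pow_nat_eq (w 2 ^ m - w 1 ^ m) hm
    refine ⟨![t, w 1, w 2], by simp [OnF, ht], fun s hs => ?_⟩
    fin_cases s <;> simp_all
  · obtain ⟨t, ht⟩ := IsAlgClosed.exists_pow_nat_eq (w 2 ^ m - w 0 ^ m) hm
    refine ⟨![w 0, t, w 2], by simp [OnF, ht], fun s hs => ?_⟩
    fin_cases s <;> simp_all
  · obtain ⟨t, ht⟩ := IsAlgClosed.exists_pow_nat_eq (w 0 ^ m + w 1 ^ m) hm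
    refine ⟨![w 0, w 1, t], by simp [OnF, ht], fun s hs => ?_⟩
    fin_cases s <;> simp_all

variable {m : ℕ} [NeZero m] {k ι κ : Type} [Field k] [Fintype ι] [DecidableEq ι] [Fintype κ]
  [DecidableEq κ] {ζ : Rt m k}

/-- the Fermat equations together with some variables of the factor `i` -/
def AppT_I (m : ℕ) (k : Type) [Field k] {ι : Type} (i : ι) (Z : Set (Fin 3)) : Ideal (S k ι) :=
  Fer m k ι ⊔ Ideal.span ((fun s => X (i, s)) '' Z)

omit [NeZero m] [Fintype ι] [DecidableEq ι] in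
theorem AppT_gr (i : ι) (Z : Set (Fin 3)) : GrI (AppT_I m k i Z) :=
  GrW.sup grI_Fer (grW_span (by rintro _ ⟨s, -, rfl⟩; exact ⟨_, hg_X _⟩))

omit [NeZero m] [Fintype ι] [DecidableEq ι] in
theorem AppT_X {i : ι} {Z : Set (Fin 3)} {s : Fin 3} (h : s ∈ Z) : X (i, s) ∈ AppT_I m k i Z :=
  Ideal.mem_sup_right (Ideal.subset_span ⟨s, h, rfl⟩)

/-- the scaling of one variable -/
def AppT_c (ζ : Rt m k) (j : Fin 3) (h : ZMod m) : (Unit ⊕ κ) × Fin 3 → k :=
  c3 ζ (Pi.single (Sum.inl ()) (Pi.single j h))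

omit [NeZero m] [Fintype κ] in
theorem AppT_c_ne (j : Fin 3) (h : ZMod m) {v : (Unit ⊕ κ) × Fin 3} (hv : v ≠ (Sum.inl (), j)) :
    AppT_c ζ j h v = 1 := by
  obtain ⟨i, s⟩ := v
  rcases i with i | i
  · have : s ≠ j := fun e => hv (by rw [e])
    simp [AppT_c, c3, this]
  · simp [AppT_c, c3]

omit [NeZero m] [Fintype κ] in
theorem AppT_c_one (j : Fin 3) : AppT_c (κ := κ) ζ j 1 (Sum.inl (), j) = ζ.1 := by
  simp only [AppT_c, c3, Pi.single_eq_same, ZMod.val_one_eq_one_mod]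
  rw [← pow_eq_pow_mod 1 ζ.2.pow_eq_one, pow_one]

/-- the quotient by the scaling of one variable -/
def AppT_D (ζ : Rt m k) (κ : Type) [DecidableEq κ] (j : Fin 3) (Z : Set (Fin 3)) (hj : j ∉ Z)
    (b : {s // s ≠ j ∧ s ∉ Z}) : QD m k Unit κ {s // s ≠ j ∧ s ∉ Z} (ZMod m) where
  I := AppT_I m k (Sum.inl ()) Z
  grI := AppT_gr _ _
  fer := le_sup_left
  c := AppT_c ζ j
  c_zero := by simp only [AppT_c, Pi.single_zero]; exact c3_zero ζ
  c_add h h' := by simp only [AppT_c, Pi.single_add]; exact c3_add ζ _ _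
  c_inr h i s := AppT_c_ne j h (by simp)
  stab h f hf := by
    refine (show AppT_I m k (Sum.inl ()) Z ≤ (AppT_I m k (Sum.inl ()) Z).comap
      (sc (AppT_c ζ j h)) from sup_le (Ideal.span_le.2 ?_) (Ideal.span_le.2 ?_)) hf
    · rintro _ ⟨i, rfl⟩
      rw [SetLike.mem_coe, Ideal.mem_comap, sc_fer (c := AppT_c ζ j h) (c3_pow ζ _)]
      exact Ideal.mem_sup_left (fer_mem i)
    · rintro _ ⟨s, hs, rfl⟩
      rw [SetLike.mem_coe, Ideal.mem_comap, sc_X]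
      exact Ideal.mul_mem_left _ _ (AppT_X hs)
  β := {X (Sum.inl (), b.1)}
  β_semi := by rintro _ rfl h; exact ⟨_, sc_X _ _⟩
  β_var i := ⟨b.1, rfl⟩
  r s := X (Sum.inl (), s.1)
  δ := wt (Sum.inl (), 0)
  δ_ne := ⟨(), by simp [wt]⟩
  r_hom s := hg_X (Sum.inl (), s.1)
  r_semi h := ⟨1, fun s => by rw [sc_X, AppT_c_ne j h (by simpa using s.2.1)]⟩
  inv f d _ hf := by
    obtain ⟨θ, hθ⟩ : ∃ θ : MvPolynomial ({s // s ≠ j ∧ s ∉ Z} ⊕ κ × Fin 3) k →ₐ[k]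
      S k (Unit ⊕ κ), θ = aeval (Sum.elim (fun s => X (Sum.inl (), s.1))
        fun v => X (Sum.inr v.1, v.2)) := ⟨_, rfl⟩
    obtain ⟨R, hR⟩ : ∃ R : Subalgebra k (S k (Unit ⊕ κ)), ∀ g, g ∈ R ↔
        ∃ ψ, g - θ ψ ∈ AppT_I m k (Sum.inl ()) Z :=
      ⟨((Ideal.Quotient.mkₐ k (AppT_I m k (Sum.inl ()) Z)).comp θ).range.comap
        (Ideal.Quotient.mkₐ k _), fun g => exists_congr fun ψ => eq_comm.trans Ideal.Quotient.eq⟩
    have r0 : ∀ g ∈ AppT_I m k (Sum.inl ()) Z, g ∈ R := fun g hg => (hR g).2 ⟨0, by simpa using hg⟩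
    have r1 : ∀ w, w ≠ (Sum.inl (), j) → X w ∈ R := by
      rintro ⟨i | i, s⟩ hw
      · by_cases hs : s ∈ Z
        · exact r0 _ (AppT_X hs)
        · exact (hR _).2 ⟨X (Sum.inl ⟨s, fun e => hw (by rw [e]), hs⟩), by simp [hθ]⟩
      · exact (hR _).2 ⟨X (Sum.inr (i, s)), by simp [hθ]⟩
    obtain ⟨ψ, hψ⟩ := (hR f).1 (AppT_inv ζ.2 (AppT_c_one j) (fun w hw => AppT_c_ne j 1 hw)
      (AppT_pow (fun s => X (Sum.inl (), s) ^ m) j (r0 _ (Ideal.mem_sup_left (fer_mem _)))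
        fun s hs => R.pow_mem (r1 _ (by simpa using hs)) _) r1 (hf 1))
    exact ⟨1, one_mem _, 1, one_mem _, ψ, by rw [one_mul, one_mul, ← hθ]; exact hψ⟩
  Γ := {X b}
  Γ_ne := by
    rintro _ rfl P _ _ h
    rw [aeval_X]
    exact h _ rfl
  lift Ω _ _ _ ρ y hy hρ := by
    classical
    obtain ⟨x, hx, hw⟩ := AppT_root (NeZero.pos m)
      (fun s => if h : s ≠ j ∧ s ∉ Z then ρ ⟨s, h⟩ else 0) j
    have h1 : ∀ s : {s // s ≠ j ∧ s ∉ Z}, x s.1 = ρ s := fun s => by rw [hw _ s.2.1, dif_pos s.2]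
    refine ⟨fun v => Sum.elim (fun _ => x v.2) (fun i => y (i, v.2)) v.1, fun f hf => ?_, ?_,
      fun _ _ => rfl, 1, one_ne_zero, fun s => by simp [h1]⟩
    · refine (show AppT_I m k (Sum.inl ()) Z ≤ RingHom.ker (aeval _) from
        sup_le (Ideal.span_le.2 ?_) (Ideal.span_le.2 ?_)) hf
      · rintro _ ⟨i | i, rfl⟩
        · simpa [fer, sub_eq_zero, OnF] using hx
        · simpa [fer, sub_eq_zero, OnF] using hy i
      · rintro _ ⟨s, hs, rfl⟩
        have : x s = 0 := by rw [hw s fun e => hj (e ▸ hs), dif_neg fun h => h.2 hs]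
        simpa using this
    · rintro _ rfl
      simpa [h1] using hρ _ rfl

theorem AppT_kil {a : Ch m} {j : Fin 3} (ha : ex3 a j = 0) {V : Type*} [AddCommGroup V]
    [Module ℂ V] (π : G m k (Unit ⊕ κ) →ₗ[ℂ] V) {Z : Set (Fin 3)} (hj : j ∉ Z) {b : Fin 3}
    (hb : b ≠ j) (hb' : b ∉ Z)
    (h : ∀ n y, π (boxG (P1 ζ () a (cy m (AppT_I m k () Z) n)) y) = 0)
    (h2 : Kil (π ∘ₗ P1 ζ (Sum.inl ()) a) (AppT_I m k (Sum.inl ()) (insert b Z))) :
    Kil (π ∘ₗ P1 ζ (Sum.inl ()) a) (AppT_I m k (Sum.inl ()) Z) := by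
  refine (AppT_D ζ κ j Z hj ⟨b, hb, hb'⟩).kil _ (fun g P n hP hl => ?_) ?_ fun Q hQ hF n => ?_
  · have h0 : ∑ s, ex3 a s * (Pi.single j g : Fin 3 → ZMod m) s = 0 :=
      Finset.sum_eq_zero fun s _ => by
        by_cases hs : s = j
        · rw [hs, ha, zero_mul]
        · rw [Pi.single_eq_of_ne hs, mul_zero]
    have := P1_tw3 (ζ := ζ) (Sum.inl ()) a (Pi.single j g) (cy m P n)
    rw [h0, AddChar.map_zero_eq_one, one_smul, tw3_cy ζ _ hP (le_sup_left.trans hl)] at this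
    exact congrArg π this
  · rintro _ rfl M hM
    refine h2 M (sup_le M.Fer_le_ann (Ideal.span_le.2 ?_))
    rintro _ ⟨s, rfl | hs, rfl⟩
    · exact hM (Ideal.mem_sup_right (Ideal.subset_span rfl))
    · exact hM (Ideal.mem_sup_left (AppT_X hs))
  · have e1 : AppT_I m k (Sum.inl ()) Z ⊔ Q.map (rn Sum.inr) =
        (AppT_I m k () Z).map (rn Sum.inl) ⊔ Q.map (rn Sum.inr) := by
      have e2 : (Fer m k κ).map (rn (Sum.inr : κ → Unit ⊕ κ)) ≤ Q.map (rn Sum.inr) :=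
        Ideal.map_mono hF
      have e3 : (Ideal.span ((fun s => X ((), s)) '' Z) : Ideal (S k Unit)).map
          (rn (Sum.inl : Unit → Unit ⊕ κ)) = Ideal.span ((fun s => X (Sum.inl (), s)) '' Z) := by
        rw [Ideal.map_span, Set.image_image]
        simp only [rn_X]
      rw [AppT_I, AppT_I, Ideal.map_sup, e3, ← Fer_sum, sup_right_comm, sup_assoc _ _ (Q.map _),
        sup_eq_right.2 e2, sup_right_comm]
    change π (P1 ζ (Sum.inl ()) a (cy m (AppT_I m k (Sum.inl ()) Z ⊔ Q.map (rn Sum.inr)) n)) = 0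
    rw [e1, ← Sum.elim_comp_inl_inr n, ← boxG_cy (AppT_gr _ _) le_sup_left hQ hF, P1_box_left]
    exact h _ _

theorem deg_core {a : Ch m} (ha : ¬ Nd a) {V : Type*} [AddCommGroup V] [Module ℂ V]
    (π : G m k (Unit ⊕ κ) →ₗ[ℂ] V)
    (h : ∀ n y, π (boxG (P1 ζ () a (cy m (Fer m k Unit) n)) y) = 0) (x : G m k (Unit ⊕ κ)) :
    π (P1 ζ (Sum.inl ()) a x) = 0 := by
  obtain ⟨j, hj⟩ : ∃ j, ex3 a j = 0 := by simpa [nd_iff] using ha
  have n1 : ∀ j : Fin 3, j + 1 ≠ j ∧ j + 2 ≠ j ∧ j + 2 ≠ j + 1 ∧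
      ∀ s, s ≠ j → s = j + 2 ∨ s = j + 1 := by decide
  obtain ⟨n1, n2, n3, n4⟩ := n1 j
  have e0 : ∀ {ι : Type} (i : ι), AppT_I m k i ∅ = Fer m k ι := fun i => by simp [AppT_I]
  have k2 : Kil (π ∘ₗ P1 ζ (Sum.inl ()) a)
      (AppT_I m k (Sum.inl ()) (insert (j + 2) {j + 1})) := fun M hM => by
    have hs : ∀ s, s ≠ j → X (Sum.inl (), s) ^ m ∈ M.ann := fun s hs =>
      Ideal.pow_mem_of_mem _ (hM (AppT_X (n4 s hs))) _ (NeZero.pos m)
    rw [cls_irr (irr_of_block (Sum.inl ()) fun s => ⟨m, ?_⟩), map_zero]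
    by_cases e : s = j
    · rw [e]
      exact AppT_pow (fun s => X (Sum.inl (), s) ^ m) j (M.Fer_le_ann (fer_mem _)) hs
    · exact hs s e
  have k1 := AppT_kil hj π (Z := {j + 1}) n1.symm n2 n3 (fun n y => by
    have := cy_mul (grI_Fer (m := m)) le_rfl (hg_X (k := k) ((), j + 1)) (fun g hg =>
      ((fer_isPrime ζ.ne).mem_or_mem hg).resolve_left (X_notMem_Fer ζ.ne _)) n
    rw [AppT_I, Set.image_singleton, eq_sub_of_add_eq' this.symm]
    simp only [map_sub, LinearMap.sub_apply, h, sub_zero]) k2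
  have k0 := AppT_kil hj π (Z := ∅) id n1 id (fun n y => by rw [e0]; exact h n y)
    (by rw [insert_empty_eq]; exact k1)
  rw [e0] at k0
  exact LinearMap.congr_fun k0.eq_zero x

theorem triv_part {x : G m k (Unit ⊕ κ)} (hx : x ∈ E1 ζ (Sum.inl ()) 0) :
    ∃ u v, x = boxG (Oc m k) u + boxG (hc m k) v := by
  obtain ⟨W, hW⟩ : ∃ W : Submodule ℂ (G m k (Unit ⊕ κ)),
      W = LinearMap.range (boxG (Oc m k)) ⊔ LinearMap.range (boxG (hc m k)) := ⟨_, rfl⟩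
  have h := deg_core (ζ := ζ) (a := 0) (fun h => h.1 rfl) W.mkQ (fun n y => by
    have h1 : P1 ζ () 0 (cy m (Fer m k Unit) n) = Oc m k + (n () : ℂ) • hc m k :=
      (P1_of_mem (mem_Ga.1 (cy_Fer_mem n) ())).trans (cy_Fer_unit ζ.ne n)
    rw [h1, map_add boxG, map_smul boxG, LinearMap.add_apply, LinearMap.smul_apply]
    refine (Submodule.Quotient.mk_eq_zero W).2 ?_
    rw [hW]
    exact Submodule.add_mem_sup ⟨y, rfl⟩ (Submodule.smul_mem _ _ ⟨y, rfl⟩)) x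
  rw [P1_of_mem hx] at h
  have h' := (Submodule.Quotient.mk_eq_zero W).1 h
  rw [hW] at h'
  obtain ⟨_, ⟨u, rfl⟩, _, ⟨v, rfl⟩, h⟩ := Submodule.mem_sup.1 h'
  exact ⟨u, v, h.symm⟩

/-- splitting off one factor -/
def AppT_e (i : ι) : ι ≃ Unit ⊕ {l // l ≠ i} where
  toFun l := if h : l = i then Sum.inl () else Sum.inr ⟨l, h⟩
  invFun := Sum.elim (fun _ => i) Subtype.val
  left_inv l := by by_cases h : l = i <;> simp [h]
  right_inv := by rintro (l | ⟨l, h⟩) <;> simp [*]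

theorem deg_part {a : Ch m} (h0 : a ≠ 0) (ha : ¬ Nd a) {i : ι} {x : G m k ι}
    (hx : x ∈ E1 ζ i a) : x = 0 := by
  have h1 := (reG_E1 (AppT_e i)).2 hx
  have h2 : AppT_e i i = Sum.inl () := dif_pos rfl
  rw [h2] at h1
  have h := deg_core (ζ := ζ) ha LinearMap.id (fun n y => by
    rw [P1_of_ne h0 (mem_Ga.1 (cy_Fer_mem n) ())]
    simp) (reG (AppT_e i) x)
  rw [P1_of_mem h1] at h
  exact reG_inj _ h

end Pool.Agent.Tate
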