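import Pool.Agent.P.MP_2ce3e7_ag.Prod
import Pool.Agent.P.MP_e12fcd_ag.Weil.Slice

/-! The class of a chain of full dimension counts points. -/

set_option autoImplicit false

noncomputable section

namespace Pool.Agent.Tate

open MeasureTheory Set Module Filter Topology Pool.Agent.Weil

variable {V B P ρ : Type} [NormedAddCommGroup V] [NormedSpace ℂ V] [FiniteDimensional ℂ V]
  [NormedAddCommGroup B] [NormedSpace ℂ B] [FiniteDimensional ℂ B]
  [NormedAddCommGroup P] [NormedSpace ℂ P] [FiniteDimensional ℂ P]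
  [Fintype ρ] [DecidableEq ρ] {Λ : AddSubgroup V} {ΛB : AddSubgroup B}

omit [FiniteDimensional ℂ V] in
theorem area_dens_zero (ε : ρ → P) (A : Finset ρ) (N : Submodule ℝ P)
    (h : finrank ℝ P < A.card + finrank ℝ N) (ξ : ρ → Cov V) (φ : P → V) (u : P)
    (hξ : ∀ a ∈ A, ∀ p ∈ N, ξ a (fderiv ℂ φ u p) = 0) : dens ε ξ φ u = 0 := by
  classical
  obtain ⟨Q, hQ⟩ := N.exists_isCompl
  have hdim := Submodule.finrank_add_eq_of_isCompl hQ
  let γ := finBasis ℝ Q
  let L : P →L[ℝ] V := (fderiv ℂ φ u).restrictScalars ℝ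
  let Φ : (A → ℂ) →ₗ[ℂ] (Fin (finrank ℝ Q) → ℂ) :=
    Matrix.toLin' (Matrix.of fun i (a : A) => ξ a (L (γ i)))
  have hker : LinearMap.ker Φ ≠ ⊥ := LinearMap.ker_ne_bot_of_finrank_lt (by
    simp only [finrank_fintype_fun_eq_card, Fintype.card_fin, Fintype.card_coe]
    omega)
  obtain ⟨c, hc, hc0⟩ := Submodule.exists_mem_ne_zero_of_ne_bot hker
  let l : P →ₗ[ℝ] ℂ := (∑ a : A, c a • (ξ a).comp L : P →L[ℝ] ℂ)
  have hl : ∀ p, l p = ∑ a : A, c a * ξ a (L p) := fun p => by simp [l]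
  have h1 : N ≤ LinearMap.ker l := fun p hp => by
    rw [LinearMap.mem_ker, hl]
    exact Finset.sum_eq_zero fun a _ => by
      rw [show ξ a (L p) = 0 from hξ a a.2 p hp, mul_zero]
  have h2 : l.comp Q.subtype = 0 := γ.ext fun i => by
    have := congrFun (LinearMap.mem_ker.1 hc) i
    rw [LinearMap.comp_apply, hl]
    simpa [Φ, Matrix.mulVec, dotProduct, mul_comm] using this
  have h3 : Q ≤ LinearMap.ker l := fun p hp => LinearMap.congr_fun h2 ⟨p, hp⟩
  have h4 : ∀ p, l p = 0 := fun p =>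
    LinearMap.mem_ker.1 ((hQ.sup_eq_top.ge.trans (sup_le h1 h3)) Submodule.mem_top)
  unfold dens
  rw [← Matrix.exists_vecMul_eq_zero_iff]
  refine ⟨fun r => if hr : r ∈ A then c ⟨r, hr⟩ else 0, fun h0 => hc0 (funext fun a => ?_), ?_⟩
  · simpa [a.2] using congrFun h0 a
  · funext k
    have h5 := h4 (ε k)
    rw [hl] at h5
    simp only [Matrix.vecMul, dotProduct, Matrix.of_apply, Pi.zero_apply]
    rw [← Finset.sum_subset (Finset.subset_univ A) (fun r _ hr => by simp [hr]),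
      ← Finset.sum_coe_sort A]
    exact (Finset.sum_congr rfl fun a _ => by simp [a.2, L]).trans h5

omit [FiniteDimensional ℂ V] [FiniteDimensional ℂ P] in
/-- too many covectors vanish on a subspace -/
theorem class_eq_zero [MeasurableSpace P] {μ : Measure P} {c : Chain V Λ P} {ε : Basis ρ ℝ P}
    {T : Alt V ρ} (hT : c.IsClass μ ε T) (A : Finset ρ) (N : Submodule ℝ P)
    (h : finrank ℝ P < A.card + finrank ℝ N) (ξ : ρ → Cov V)
    (hξ : ∀ j, ∀ u ∈ c.U j, ∀ a ∈ A, ∀ p ∈ N, ξ a (fderiv ℂ (c.φ j) u p) = 0) : T ξ = 0 := by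
  have : FiniteDimensional ℝ P := Module.Finite.of_basis ε
  have : FiniteDimensional ℂ P := Module.Finite.of_restrictScalars_finite ℝ ℂ P
  obtain ⟨E, hE, hI⟩ := hT
  rw [(hI ξ).2.2, tsum_congr fun j => setIntegral_eq_zero_of_forall_eq_zero fun u hu =>
    area_dens_zero ε A N h ξ (c.φ j) u (hξ j u (hE.sub j hu)), tsum_zero]

omit [FiniteDimensional ℂ V] [FiniteDimensional ℂ B] [FiniteDimensional ℂ P] in
theorem area_mem_fib {c : Chain V Λ P} {q : V →L[ℂ] B} (hq : ∀ l ∈ Λ, q l ∈ ΛB) {a : B}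
    {z : c.Z} : z ∈ fib c q ΛB a ↔ Sl.qbar hq (c.F z) = QuotientAddGroup.mk a := by
  constructor
  · rintro ⟨v, hv, h⟩
    rw [hv, Sl.qbar_mk, eq_comm, QuotientAddGroup.eq, neg_add_eq_sub]
    exact h
  · intro h
    obtain ⟨v, hv⟩ := QuotientAddGroup.mk_surjective (c.F z)
    obtain ⟨l, hl⟩ := Sl.Str.exists_l hq h hv.symm
    exact ⟨v, hv.symm, by simp [hl]⟩

omit [FiniteDimensional ℂ V] in
theorem area_thin_zero {S : Set V} (h : Thin 0 S) : S = ∅ := by
  obtain ⟨J, -, d, U, φ, h1, h2⟩ := h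
  refine eq_empty_of_forall_notMem fun v hv => ?_
  obtain ⟨j, -⟩ := mem_iUnion.1 (h2 hv)
  exact Nat.not_lt_zero _ (h1 j).1

omit [FiniteDimensional ℂ V] [FiniteDimensional ℂ B] [FiniteDimensional ℂ P] in
theorem area_charted {c : Chain V Λ P} {q : V →L[ℂ] B} (hq : ∀ l ∈ Λ, q l ∈ ΛB)
    {S : Sl.Str c q 0} {a : B} (hg : S.Good ΛB a) {z : c.Z}
    (hz : Sl.qbar hq (c.F z) = QuotientAddGroup.mk a) : ∃ j, z ∈ c.ι j '' c.U j := by
  by_contra hn
  push Not at hn
  obtain ⟨v, hv⟩ := QuotientAddGroup.mk_surjective (c.F z)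
  obtain ⟨l, hl⟩ := Sl.Str.exists_l hq hz hv.symm
  have : v ∈ Sl.bad c ∩ q ⁻¹' {a + l} := ⟨⟨z, hn, hv.symm⟩, hl⟩
  rw [area_thin_zero (hg.thin l)] at this
  exact this

omit [FiniteDimensional ℂ V] [FiniteDimensional ℂ B] [FiniteDimensional ℂ P] in
theorem area_str_charted {c : Chain V Λ P} {q : V →L[ℂ] B} (hq : ∀ l ∈ Λ, q l ∈ ΛB)
    {S : Sl.Str c q 0} {a : B} (hg : S.Good ΛB a) (z₀ z : Sl.Zs c hq a) :
    ∃ p : (c.J × ℕ) × ΛB, ∃ w ∈ S.U a p, S.ι a hq z₀ p w = z := by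
  obtain ⟨j, u, hu, huz⟩ := area_charted hq hg z.2
  obtain ⟨l, hl⟩ := Sl.Str.exists_l hq z.2 (huz ▸ c.lift _ _ hu)
  obtain ⟨n, hn⟩ := hg.reg j u hu l hl
  obtain ⟨h1, h2⟩ := Sl.Str.of_source (k := (j, n)) hn hl
  exact ⟨((j, n), l), _, h1, Subtype.ext (by rw [Sl.Str.ι_val hq z₀ h1, h2, huz])⟩

omit [FiniteDimensional ℂ V] [FiniteDimensional ℂ B] [FiniteDimensional ℂ P] in
theorem area_deriv {c : Chain V Λ P} {q : V →L[ℂ] B} (S : Sl.Str c q 0) (k : c.J × ℕ) {b : B}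
    (hb : ((0 : Fin 0 → ℂ), b) ∈ (S.Ψ k).target) :
    DifferentiableAt ℂ (fun y : B => (S.Ψ k).symm (0, y)) b ∧
      DifferentiableAt ℂ (c.φ k.1) ((S.Ψ k).symm (0, b)) ∧
      ∀ y, q (fderiv ℂ (c.φ k.1 ∘ fun y : B => (S.Ψ k).symm (0, y)) b y) = y := by
  have h1 : DifferentiableAt ℂ (fun y : B => (S.Ψ k).symm (0, y)) b :=
    DifferentiableAt.comp (g := (S.Ψ k).symm) b (S.an k _ hb).differentiableAt (by fun_prop)
  have h2 : DifferentiableAt ℂ (c.φ k.1) ((S.Ψ k).symm (0, b)) :=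
    (c.an _ _ (S.sub k ((S.Ψ k).map_target hb))).differentiableAt
  refine ⟨h1, h2, fun y => ?_⟩
  have h3 := q.hasFDerivAt.comp b (h2.comp b h1).hasFDerivAt
  have h4 : HasFDerivAt (q ∘ c.φ k.1 ∘ fun y : B => (S.Ψ k).symm (0, y))
      (ContinuousLinearMap.id ℂ B) b := by
    refine (hasFDerivAt_id b).congr_of_eventuallyEq ?_
    have h5 : ∀ᶠ y in 𝓝 b, ((0 : Fin 0 → ℂ), y) ∈ (S.Ψ k).target :=
      ContinuousAt.preimage_mem_nhds (f := fun y : B => ((0 : Fin 0 → ℂ), y)) (by fun_prop)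
        ((S.Ψ k).open_target.mem_nhds hb)
    filter_upwards [h5] with y hy
    simp only [Function.comp_apply, id]
    rw [← S.snd k _ ((S.Ψ k).map_target hy), (S.Ψ k).right_inv hy]
  exact congrArg (fun L => L y) (h3.unique h4)

omit [FiniteDimensional ℂ V] [FiniteDimensional ℂ B] [FiniteDimensional ℂ P] in
theorem area_fst {c : Chain V Λ P} {q : V →L[ℂ] B} (S : Sl.Str c q 0) (k : c.J × ℕ) (u : P) :
    ((0 : Fin 0 → ℂ), (S.Ψ k u).2) = S.Ψ k u := Prod.ext (Subsingleton.elim _ _) rfl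

omit [FiniteDimensional ℂ V] in
theorem area_pieces [MeasurableSpace P] [BorelSpace P] {c : Chain V Λ P} {q : V →L[ℂ] B}
    (S : Sl.Str c q 0) (h : finrank ℂ P = finrank ℂ B) (μ : Measure P) (ε : Basis ρ ℝ P)
    {E : c.J → Set P} (hE : IsPart c.ι c.U E) {T : Alt V ρ} (hI : IsInt μ ε c.φ E T)
    (ζ : ρ → Cov B) :
    (Summable fun k : c.J × ℕ =>
      ∫ u in S.G E k, ‖dens ε (fun b => pull q (ζ b)) (c.φ k.1) u‖ ∂μ) ∧
    T (fun b => pull q (ζ b)) = ∑' k : c.J × ℕ,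
      ∫ u in S.G E k, dens ε (fun b => pull q (ζ b)) (c.φ k.1) u ∂μ := by
  obtain ⟨h1, h2, h3⟩ := hI (fun b => pull q (ζ b))
  set D := fun j => dens ε (fun b => pull q (ζ b)) (c.φ j) with hD
  have hsub : ∀ j, ⋃ n, S.G E (j, n) ⊆ E j := fun j => iUnion_subset fun n u hu => hu.1
  have hzero : ∀ j, ∀ u ∈ E j \ ⋃ n, S.G E (j, n), D j u = 0 := by
    intro j u hu
    have hd : fderiv ℂ (fun v => q (c.φ j v)) u = q.comp (fderiv ℂ (c.φ j) u) :=
      (q.hasFDerivAt.comp u (c.an j u (hE.sub _ hu.1)).differentiableAt.hasFDerivAt).fderiv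
    have he : D j u = dens ε ζ (fun v => q (c.φ j v)) u := by
      simp only [hD, dens, hd]
      rfl
    rw [he]
    refine dens_eq_zero_of_not_injective ε ζ fun hs => hu.2 ?_
    rw [hd] at hs
    have hs' : Function.Surjective (q.comp (fderiv ℂ (c.φ j) u)) :=
      (LinearMap.injective_iff_surjective_of_finrank_eq_finrank h
        (f := (q.comp (fderiv ℂ (c.φ j) u) : P →ₗ[ℂ] B))).1 hs
    have hv' : u ∈ ⋃ n, disjointed (fun n => (S.Ψ (j, n)).source) n := by
      rw [iUnion_disjointed]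
      exact mem_iUnion.2 (S.cover j u (hE.sub _ hu.1) hs')
    obtain ⟨n, hn⟩ := mem_iUnion.1 hv'
    exact mem_iUnion.2 ⟨n, hu.1, hn⟩
  have hdisj : ∀ j, Pairwise (Function.onFun Disjoint fun n => S.G E (j, n)) := fun j n n' h =>
    (disjoint_disjointed (fun n => (S.Ψ (j, n)).source) h).mono inter_subset_right
      inter_subset_right
  have hs1 : ∀ j, HasSum (fun n => ∫ u in S.G E (j, n), D j u ∂μ) (∫ u in E j, D j u ∂μ) := by
    intro j
    rw [setIntegral_eq_of_subset_of_forall_sdiff_eq_zero (hE.meas j) (hsub j) (hzero j)]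
    exact hasSum_integral_iUnion (fun n => Sl.Str.meas_G hE.meas (j, n)) (hdisj j)
      ((h1 j).mono_set (hsub j))
  have hs2 : ∀ j, HasSum (fun n => ∫ u in S.G E (j, n), ‖D j u‖ ∂μ)
      (∫ u in E j, ‖D j u‖ ∂μ) := by
    intro j
    rw [setIntegral_eq_of_subset_of_forall_sdiff_eq_zero (hE.meas j) (hsub j)
      (fun u hu => by rw [hzero j u hu, norm_zero])]
    exact hasSum_integral_iUnion (fun n => Sl.Str.meas_G hE.meas (j, n)) (hdisj j)
      (IntegrableOn.mono_set (h1 j).norm (hsub j))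
  have hs : Summable fun k : c.J × ℕ => ∫ u in S.G E k, ‖D k.1 u‖ ∂μ := by
    refine (summable_prod_of_nonneg fun k => integral_nonneg fun u => norm_nonneg _).2
      ⟨fun j => (hs2 j).summable, h2.congr fun j => (hs2 j).tsum_eq.symm⟩
  refine ⟨hs, ?_⟩
  have hs' : Summable fun k : c.J × ℕ => ∫ u in S.G E k, D k.1 u ∂μ :=
    Summable.of_norm_bounded hs fun k => norm_integral_le_integral_norm _
  rw [h3, hs'.tsum_prod]
  exact tsum_congr fun j => (hs1 j).tsum_eq.symm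

variable [MeasurableSpace B] [BorelSpace B] (ν : Measure B) [ν.IsAddHaarMeasure]

/-- almost every point is a regular value -/
theorem ae_reg (hΛB : IsLat ΛB) (c : Chain V Λ P) (h : finrank ℂ P = finrank ℂ B)
    (q : V →L[ℂ] B) (hq : ∀ l ∈ Λ, q l ∈ ΛB) :
    ∀ᵐ a ∂ν, (fib c q ΛB a).Finite ∧ (∀ z ∈ fib c q ΛB a, ∃ j, z ∈ c.ι j '' c.U j) ∧
      ∀ j, ∀ u ∈ c.U j, q (c.φ j u) - a ∈ ΛB →
        Function.Injective fun p => q (fderiv ℂ (c.φ j) u p) := by
  have := hΛB.countable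
  have hm : finrank ℂ P = 0 + finrank ℂ B := by rw [zero_add, h]
  obtain ⟨S⟩ := Sl.exists_str c q hm
  filter_upwards [S.ae_good (ΛB := ΛB) ν hm] with a hg
  refine ⟨?_, fun z hz => area_charted hq hg ((area_mem_fib hq).1 hz), fun j u hu hl => ?_⟩
  · have hfin : Finite (Sl.Zs c hq a) := by
      rcases isEmpty_or_nonempty (Sl.Zs c hq a) with he | ⟨⟨z₀⟩⟩
      · infer_instance
      · have : CompactSpace (Sl.Zs c hq a) := (S.chain a hΛB hq z₀ hg).cpt
        have : DiscreteTopology (Sl.Zs c hq a) := by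
          refine discreteTopology_iff_isOpen_singleton.2 fun z => ?_
          obtain ⟨p, w, hw, rfl⟩ := area_str_charted hq hg z₀ z
          have ho := (Sl.Str.isChart (S := S) hΛB hq z₀ p).opn {w} (singleton_subset_iff.2 hw)
            (isOpen_discrete _)
          rwa [image_singleton] at ho
        exact finite_of_compact_of_discrete
    have he : fib c q ΛB a = {z | Sl.qbar hq (c.F z) = QuotientAddGroup.mk a} :=
      Set.ext fun z => area_mem_fib hq
    rw [he]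
    exact Set.finite_coe_iff.1 hfin
  · obtain ⟨n, hn⟩ := hg.reg j u hu ⟨_, hl⟩ (by simp)
    have hb : ((0 : Fin 0 → ℂ), (S.Ψ (j, n) u).2) ∈ (S.Ψ (j, n)).target := by
      rw [area_fst]
      exact (S.Ψ (j, n)).map_source hn
    obtain ⟨h1, h2, h3⟩ := area_deriv S (j, n) hb
    refine (LinearMap.injective_iff_surjective_of_finrank_eq_finrank h
      (f := (q.comp (fderiv ℂ (c.φ j) u) : P →ₗ[ℂ] B))).2 fun y => ?_
    have h4 := h3 y
    rw [fderiv_comp (f := fun y : B => (S.Ψ (j, n)).symm (0, y)) _ h2 h1, area_fst, (S.Ψ (j, n)).left_inv hn] at h4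
    exact ⟨_, h4⟩

theorem area [MeasurableSpace P] [BorelSpace P] (μ : Measure P) [μ.IsAddHaarMeasure]
    (hΛB : IsLat ΛB) (c : Chain V Λ P) (h : finrank ℂ P = finrank ℂ B) {ε : Basis ρ ℝ P}
    {T : Alt V ρ} (hT : c.IsClass μ ε T) (ζ : ρ → Cov B) :
    ∃ (C : ℂ) (A : Set B), ∀ q : V →L[ℂ] B, (∀ l ∈ Λ, q l ∈ ΛB) → ∀ b : B,
      IntegrableOn (fun a => C * ((fib c q ΛB (a + b)).ncard : ℂ)) A ν ∧
      T (fun r => pull q (ζ r)) = ∫ a in A, C * ((fib c q ΛB (a + b)).ncard : ℂ) ∂ν := by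
  classical
  have := hΛB.countable
  have hm : finrank ℂ P = 0 + finrank ℂ B := by rw [zero_add, h]
  have hcard : Fintype.card ρ = finrank ℝ B := by
    rw [← finrank_eq_card_basis ε, finrank_real_of_complex, finrank_real_of_complex, h]
  obtain ⟨E, hE, hI⟩ := hT
  let β : Basis ρ ℝ B := (finBasis ℝ B).reindex (Fintype.equivFinOfCardEq hcard).symm
  obtain ⟨C, hC⟩ := Sl.change_vars (V := V) μ ν ε β h.symm
  obtain ⟨nB, bB, hbB⟩ := id hΛB
  have hD : IsAddFundamentalDomain ΛB (ZSpan.fundamentalDomain bB) ν := by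
    rw [hbB]; exact ZSpan.isAddFundamentalDomain' bB ν
  set C' : ℂ := C * (Matrix.of fun b b' => ζ b (β b')).det with hC'
  refine ⟨C', ZSpan.fundamentalDomain bB, fun q hq b => ?_⟩
  obtain ⟨S⟩ := Sl.exists_str c q hm
  let A : c.J × ℕ → Set B := fun k => {y | ((0 : Fin 0 → ℂ), y) ∈ S.A E k}
  have hA : ∀ k, MeasurableSet (A k) := fun k =>
    (by fun_prop : Measurable fun y : B => ((0 : Fin 0 → ℂ), y)) (Sl.Str.meas_A hE.meas k)
  have him : ∀ k, (fun y : B => (S.Ψ k).symm (0, y)) '' A k = S.G E k := fun k => by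
    rw [← Sl.Str.image_A E k]
    refine Subset.antisymm ?_ ?_
    · rintro _ ⟨y, hy, rfl⟩
      exact ⟨_, hy, rfl⟩
    · rintro _ ⟨⟨w, y⟩, hy, rfl⟩
      obtain rfl : w = 0 := Subsingleton.elim _ _
      exact ⟨y, hy, rfl⟩
  let F : c.J × ℕ → B → ℂ := fun k a => (A k).indicator (fun _ => C') (a + b)
  have hF : ∀ k, Integrable (F k) ν ∧
      ∫ a, F k a ∂ν = ∫ u in S.G E k, dens ε (fun r => pull q (ζ r)) (c.φ k.1) u ∂μ ∧
      ∫ a, ‖F k a‖ ∂ν = ∫ u in S.G E k, ‖dens ε (fun r => pull q (ζ r)) (c.φ k.1) u‖ ∂μ := by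
    intro k
    obtain ⟨i1, i2, i3⟩ := hC (fun y : B => (S.Ψ k).symm (0, y)) (A k) (c.φ k.1)
      (fun r => pull q (ζ r)) (hA k) (fun y hy => (area_deriv S k hy.1).1)
      (fun y hy y' hy' e => (Prod.ext_iff.1 ((S.Ψ k).symm.injOn hy.1 hy'.1 e)).2)
      (fun y hy => (area_deriv S k hy.1).2.1)
      (by rw [him]; exact ((hI _).1 k.1).mono_set fun u hu => hu.1)
    have hpt : EqOn (fun y => C * dens β (fun r => pull q (ζ r))
        (c.φ k.1 ∘ fun y : B => (S.Ψ k).symm (0, y)) y) (fun _ => C') (A k) := by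
      intro y hy
      have h3 := (area_deriv S k hy.1).2.2
      simp only [dens, hC']
      congr 2
      ext r r'
      exact congrArg (ζ r) (h3 (β r'))
    rw [him] at i2 i3
    have j1 : Integrable ((A k).indicator fun _ => C') ν :=
      (integrable_indicator_iff (hA k)).2 (i1.congr_fun hpt (hA k))
    refine ⟨j1.comp_add_right b, ?_, ?_⟩
    · rw [i2, setIntegral_congr_fun (hA k) hpt, ← integral_indicator (hA k)]
      exact integral_add_right_eq_self (μ := ν) ((A k).indicator fun _ => C') b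
    · rw [i3, setIntegral_congr_fun (hA k) (g := fun _ => ‖C'‖)
        (fun y hy => by simp only [← hpt hy]), ← integral_indicator (hA k)]
      simp only [← norm_indicator_eq_indicator_norm]
      exact integral_add_right_eq_self (fun a => ‖(A k).indicator (fun _ => C') a‖) b
  obtain ⟨p1, p2⟩ := area_pieces S h μ ε hE hI ζ
  obtain ⟨u1, u2⟩ := Sl.unfold_sum ν hD F (fun k => (hF k).1)
    (p1.congr fun k => (hF k).2.2.symm)
  have hae : (fun a => ∑' p : (c.J × ℕ) × ΛB, F p.1 (a + p.2)) =ᵐ[ν.restrict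
      (ZSpan.fundamentalDomain bB)] fun a => C' * ((fib c q ΛB (a + b)).ncard : ℂ) := by
    refine ae_restrict_of_ae ?_
    filter_upwards [(measurePreserving_add_right ν b).quasiMeasurePreserving.ae
      (S.ae_good (ΛB := ΛB) ν hm)] with a hg
    let Pn : Set ((c.J × ℕ) × ΛB) := {p | (0 : Fin 0 → ℂ) ∈ S.E' (a + b) E p}
    have e1 : ∀ p : (c.J × ℕ) × ΛB, F p.1 (a + p.2) = Pn.indicator (fun _ => C') p := fun p => by
      have e : a + (p.2 : B) + b = a + b + p.2 := add_right_comm _ _ _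
      simp only [F, e]
      rfl
    have e2 : (fib c q ΛB (a + b)).ncard = Pn.ncard := by
      rcases isEmpty_or_nonempty (Sl.Zs c hq (a + b)) with he | ⟨⟨z₀⟩⟩
      · have h1 : fib c q ΛB (a + b) = ∅ :=
          eq_empty_of_forall_notMem fun z hz => he.false ⟨z, (area_mem_fib hq).1 hz⟩
        have h2 : Pn = ∅ :=
          eq_empty_of_forall_notMem fun p hp => he.false ⟨_, Sl.Str.mem_Zs hq (p := p) hp.1⟩
        rw [h1, h2, ncard_empty, ncard_empty]
      · have hP := Sl.Str.isPart hΛB hq z₀ hg hE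
        have hinj : InjOn (fun p => (S.ι (a + b) hq z₀ p 0).1) Pn := fun p hp p' hp' e =>
          hP.disj p p' _ hp _ hp' (Subtype.ext e)
        rw [← hinj.ncard_image]
        congr 1
        refine Subset.antisymm (fun z hz => ?_) ?_
        · obtain ⟨p, w, hw, e⟩ := area_str_charted hq hg z₀ ⟨z, (area_mem_fib hq).1 hz⟩
          obtain ⟨i, v, hv, e'⟩ := hP.cover p w hw
          obtain rfl : v = 0 := Subsingleton.elim _ _
          exact ⟨i, hv, congrArg Subtype.val (e'.trans e)⟩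
        · rintro _ ⟨p, -, rfl⟩
          exact (area_mem_fib hq).2 (S.ι (a + b) hq z₀ p 0).2
    rw [tsum_congr e1, ← tsum_subtype, tsum_const, Nat.card_coe_set_eq, e2, nsmul_eq_mul, mul_comm]
  refine ⟨u1.congr hae, ?_⟩
  rw [← integral_congr_ae hae, u2, p2]
  exact tsum_congr fun k => (hF k).2.1.symm

end Pool.Agent.Tate
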