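import Pool.Agent.P.MP_2ce3e7_ag.Pair

/-! Base change. -/

set_option autoImplicit false

noncomputable section

namespace Pool.Agent.Tate

open MvPolynomial TensorProduct

variable {m : ℕ} {k k' ι κ : Type} [Field k] [Field k'] [Algebra k k'] [Fintype ι] [Fintype κ]

section Aux
omit [Fintype ι] [Fintype κ]

theorem bc_tmul {V : Type} [AddCommGroup V] [Module k V] (a : k') (x : V) :
    a ⊗ₜ[k] x = a • ((1 : k') ⊗ₜ[k] x) := by
  rw [smul_tmul', smul_eq_mul, mul_one]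

theorem bc_ind {V : Type} [AddCommGroup V] [Module k V] {p : k' ⊗[k] V → Prop}
    (h1 : ∀ x, p (1 ⊗ₜ x)) (h0 : p 0) (h2 : ∀ x y, p x → p y → p (x + y))
    (h3 : ∀ (a : k') x, p x → p (a • x)) (t : k' ⊗[k] V) : p t := by
  induction t using TensorProduct.induction_on with
  | zero => exact h0
  | tmul a x => rw [bc_tmul]; exact h3 _ _ (h1 x)
  | add x y hx hy => exact h2 x y hx hy

theorem bc_ind' {V W : Type} [AddCommGroup V] [Module k V] [AddCommGroup W] [Module k' W]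
    (j : k' ⊗[k] V ≃ₗ[k'] W) {p : W → Prop}
    (h1 : ∀ x, p (j (1 ⊗ₜ x))) (h0 : p 0) (h2 : ∀ x y, p x → p y → p (x + y))
    (h3 : ∀ (a : k') x, p x → p (a • x)) (y : W) : p y := by
  obtain ⟨t, rfl⟩ := j.surjective y
  induction t using bc_ind with
  | h1 x => exact h1 x
  | h0 => rw [map_zero]; exact h0
  | h2 x y hx hy => rw [map_add]; exact h2 _ _ hx hy
  | h3 a x hx => rw [map_smul]; exact h3 _ _ hx

theorem bc_ext {V W U : Type} [AddCommGroup V] [Module k V] [AddCommGroup W] [Module k' W]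
    [AddCommGroup U] [Module k' U] (j : k' ⊗[k] V ≃ₗ[k'] W) {f g : W →ₗ[k'] U}
    (h : ∀ x, f (j (1 ⊗ₜ x)) = g (j (1 ⊗ₜ x))) (y : W) : f y = g y := by
  induction y using bc_ind' j with
  | h1 x => exact h x
  | h0 => simp only [map_zero]
  | h2 x y hx hy => simp only [map_add, hx, hy]
  | h3 a x hx => simp only [map_smul, hx]

/-- the action on the base change -/
def bcRho (k' : Type) [Field k'] [Algebra k k'] (M : GM m k ι) :
    S k' ι →ₐ[k'] Module.End k' (k' ⊗[k] M.M) :=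
  (Algebra.TensorProduct.lift (Algebra.ofId k' (Module.End k' (k' ⊗[k] M.M)))
    ((Module.End.baseChangeHom k k' M.M).comp (Algebra.lsmul k k M.M))
    (fun a _ => Algebra.commutes a _)).comp
    (algebraTensorAlgEquiv k k').symm.toAlgHom

theorem bcRho_map (M : GM m k ι) (f : S k ι) (x : M.M) :
    bcRho k' M (map (algebraMap k k') f) (1 ⊗ₜ x) = 1 ⊗ₜ (f • x) := by
  simp [bcRho, algebraTensorAlgEquiv_symm_map, Module.End.baseChangeHom]

/-- the map between base changes -/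
def bcMap {V W V' W' : Type} [AddCommGroup V] [Module k V] [AddCommGroup W] [Module k W]
    [AddCommGroup V'] [Module k' V'] [AddCommGroup W'] [Module k' W']
    (a : k' ⊗[k] V ≃ₗ[k'] V') (b : k' ⊗[k] W ≃ₗ[k'] W') (f : V →ₗ[k] W) : V' →ₗ[k'] W' :=
  b.toLinearMap ∘ₗ f.baseChange k' ∘ₗ a.symm.toLinearMap

section
variable {V W V' W' U U' : Type} [AddCommGroup V] [Module k V] [AddCommGroup W] [Module k W]
    [AddCommGroup V'] [Module k' V'] [AddCommGroup W'] [Module k' W']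
    [AddCommGroup U] [Module k U] [AddCommGroup U'] [Module k' U']
    (a : k' ⊗[k] V ≃ₗ[k'] V') (b : k' ⊗[k] W ≃ₗ[k'] W') (c : k' ⊗[k] U ≃ₗ[k'] U')

theorem bcMap_apply (f : V →ₗ[k] W) (t : k' ⊗[k] V) :
    bcMap a b f (a t) = b (f.baseChange k' t) := by
  simp [bcMap]

theorem bcMap_tmul (f : V →ₗ[k] W) (x : V) : bcMap a b f (a (1 ⊗ₜ x)) = b (1 ⊗ₜ f x) := by
  rw [bcMap_apply, LinearMap.baseChange_tmul]

theorem bcMap_inj {f : V →ₗ[k] W} (h : Function.Injective f) :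
    Function.Injective (bcMap a b f) :=
  b.injective.comp ((Module.Flat.lTensor_preserves_injective_linearMap (M := k') f h).comp
    a.symm.injective)

theorem bcMap_surj {f : V →ₗ[k] W} (h : Function.Surjective f) :
    Function.Surjective (bcMap a b f) :=
  b.surjective.comp ((LinearMap.lTensor_surjective k' h).comp a.symm.surjective)

theorem bcMap_exact {f : V →ₗ[k] W} {g : W →ₗ[k] U} (h : Function.Exact f g) :
    Function.Exact (bcMap a b f) (bcMap b c g) := by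
  have e := Module.Flat.lTensor_exact k' h
  intro y
  obtain ⟨t, rfl⟩ := b.surjective y
  rw [bcMap_apply, c.map_eq_zero_iff]
  refine (e t).trans ⟨?_, ?_⟩
  · rintro ⟨s, rfl⟩
    exact ⟨a s, bcMap_apply a b f s⟩
  · rintro ⟨s, hs⟩
    obtain ⟨s, rfl⟩ := a.surjective s
    rw [bcMap_apply] at hs
    exact ⟨s, b.injective hs⟩

end

theorem IsBC.smul_X {M : GM m k ι} {N : GM m k' ι} {j : k' ⊗[k] M.M ≃ₗ[k'] N.M}
    (h : IsBC M N j) (v : ι × Fin 3) (x : M.M) :
    (X v : S k' ι) • j (1 ⊗ₜ x) = j (1 ⊗ₜ ((X v : S k ι) • x)) := by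
  rw [h.smul, map_X]

theorem IsBC.π_eq {M : GM m k ι} {N : GM m k' ι} {j : k' ⊗[k] M.M ≃ₗ[k'] N.M}
    (h : IsBC M N j) (d : ι → ℤ) : N.π d = bcMap j j (M.π d) :=
  LinearMap.ext fun y => bc_ext j (fun x => by rw [h.π, bcMap_tmul]) y

/-- base change of a map that is compatible with ring maps -/
theorem bcMap_smul {M : GM m k ι} {N : GM m k' ι} {a : k' ⊗[k] M.M ≃ₗ[k'] N.M}
    (h : IsBC M N a) {M' : GM m k κ} {N' : GM m k' κ} {b : k' ⊗[k] M'.M ≃ₗ[k'] N'.M}
    (h' : IsBC M' N' b) (f : M.M →ₗ[k] M'.M) (θ : S k ι →ₐ[k] S k κ) (θ' : S k' ι →ₐ[k'] S k' κ)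
    (hθ : ∀ v, θ' (X v) = map (algebraMap k k') (θ (X v)))
    (hf : ∀ v x, f ((X v : S k ι) • x) = θ (X v) • f x) (g : S k' ι) (y : N.M) :
    bcMap a b f (g • y) = θ' g • bcMap a b f y := by
  refine smul_of_X θ' (bcMap a b f) (fun v y => ?_) g y
  refine bc_ext a (f := bcMap a b f ∘ₗ Algebra.lsmul k' k' N.M (X v : S k' ι))
    (g := Algebra.lsmul k' k' N'.M (θ' (X v)) ∘ₗ bcMap a b f) (fun x => ?_) y
  change bcMap a b f ((X v : S k' ι) • a (1 ⊗ₜ x)) = θ' (X v) • bcMap a b f (a (1 ⊗ₜ x))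
  rw [h.smul_X, bcMap_tmul, bcMap_tmul, hf, h'.smul, hθ]

/-- base change of a homomorphism -/
def IsBC.hom {M : GM m k ι} {N : GM m k' ι} {a : k' ⊗[k] M.M ≃ₗ[k'] N.M}
    (h : IsBC M N a) {M' : GM m k ι} {N' : GM m k' ι} {b : k' ⊗[k] M'.M ≃ₗ[k'] N'.M}
    (h' : IsBC M' N' b) (f : Hom M M') : Hom N N' :=
  Hom.mk' (bcMap a b (f.f.restrictScalars k))
    (fun g y => bcMap_smul h h' (f.f.restrictScalars k) (AlgHom.id _ _) (AlgHom.id _ _)
      (fun v => (map_X _ v).symm) (fun v x => f.f.map_smul _ x) g y)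
    (fun d y => bc_ext a (f := bcMap a b (f.f.restrictScalars k) ∘ₗ N.π d)
      (g := N'.π d ∘ₗ bcMap a b (f.f.restrictScalars k)) (fun x => by
        simp only [LinearMap.comp_apply]
        rw [h.π, bcMap_tmul, bcMap_tmul, h'.π]
        exact congrArg (fun z => b (1 ⊗ₜ z)) (f.π d x)) y)

end Aux

omit [Fintype ι] in
theorem exists_isBC (k' : Type) [Field k'] [Algebra k k'] (M : GM m k ι) :
    ∃ (N : GM m k' ι) (j : k' ⊗[k] M.M ≃ₗ[k'] N.M), IsBC M N j := by
  classical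
  refine ⟨GM.ofRep (k' ⊗[k] M.M) (bcRho k' M) (fun d => (M.π d).baseChange k') ?_ ?_ ?_ ?_ ?_ ?_,
    LinearEquiv.refl k' _, ⟨fun f x => (bcRho_map M f x).symm, fun d x => rfl⟩⟩
  · obtain ⟨n, x, d, -, hx⟩ := M.exists_gens
    refine ⟨Set.range fun i => 1 ⊗ₜ x i, Set.finite_range _, eq_top_iff.2 fun t ht => ?_⟩
    clear ht
    induction t using bc_ind with
    | h1 y =>
      have hy : y ∈ Submodule.span (S k ι) (Set.range x) := hx ▸ Submodule.mem_top
      obtain ⟨c, rfl⟩ := (Submodule.mem_span_range_iff_exists_fun _).1 hy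
      rw [tmul_sum]
      refine Submodule.sum_mem _ fun i _ => Submodule.subset_span
        ⟨map (algebraMap k k') (c i), _, ⟨i, rfl⟩, (bcRho_map M _ _).symm⟩
    | h0 => exact Submodule.zero_mem _
    | h2 x y hx hy => exact Submodule.add_mem _ hx hy
    | h3 a x hx => exact Submodule.smul_mem _ a hx
  · intro d t
    induction t using bc_ind with
    | h1 y => simp only [LinearMap.baseChange_tmul, M.π_self]
    | h0 => simp only [map_zero]
    | h2 x y hx hy => simp only [map_add, hx, hy]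
    | h3 a x hx => simp only [map_smul, hx]
  · intro d e t hde
    induction t using bc_ind with
    | h1 y => simp only [LinearMap.baseChange_tmul, M.π_ne d e _ hde, tmul_zero]
    | h0 => simp only [map_zero]
    | h2 x y hx hy => simp only [map_add, hx, hy, add_zero]
    | h3 a x hx => simp only [map_smul, hx, smul_zero]
  · have key : ∀ t : k' ⊗[k] M.M, ∃ s : Finset (ι → ℤ), ∀ s' : Finset (ι → ℤ), s ⊆ s' →
        ∑ d ∈ s', (M.π d).baseChange k' t = t := by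
      intro t
      induction t using bc_ind with
      | h1 y =>
        refine ⟨(M.finite_supp y).toFinset, fun s' hs => ?_⟩
        simp only [LinearMap.baseChange_tmul]
        rw [← tmul_sum, M.sum_of_supp y fun d hd => hs ((Set.Finite.mem_toFinset _).2 hd)]
      | h0 => exact ⟨∅, fun s' _ => by simp only [map_zero, Finset.sum_const_zero]⟩
      | h2 x y hx hy =>
        obtain ⟨s, hs⟩ := hx
        obtain ⟨s', hs'⟩ := hy
        refine ⟨s ∪ s', fun u hu => ?_⟩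
        simp only [map_add, Finset.sum_add_distrib]
        rw [hs u (Finset.subset_union_left.trans hu), hs' u (Finset.subset_union_right.trans hu)]
      | h3 a x hx =>
        obtain ⟨s, hs⟩ := hx
        refine ⟨s, fun u hu => ?_⟩
        simp only [map_smul]
        rw [← Finset.smul_sum, hs u hu]
    intro t
    obtain ⟨s, hs⟩ := key t
    exact ⟨s, hs s subset_rfl⟩
  · intro v d t
    induction t using bc_ind with
    | h1 y =>
      rw [← map_X (algebraMap k k') v, bcRho_map]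
      simp only [LinearMap.baseChange_tmul]
      rw [bcRho_map, M.π_X]
    | h0 => simp only [map_zero]
    | h2 x y hx hy => simp only [map_add, hx, hy]
    | h3 a x hx => simp only [map_smul, hx]
  · intro i t
    induction t using bc_ind with
    | h1 y => rw [← map_fer (algebraMap k k') i, bcRho_map, M.fer_smul, tmul_zero]
    | h0 => simp only [map_zero]
    | h2 x y hx hy => simp only [map_add, hx, hy, add_zero]
    | h3 a x hx => simp only [map_smul, hx, smul_zero]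

theorem IsBC.hilb_eq {M : GM m k ι} {N : GM m k' ι} {j : k' ⊗[k] M.M ≃ₗ[k'] N.M}
    (h : IsBC M N j) (d : ι → ℤ) : hilb N d = hilb M d := by
  have e : LinearMap.range (N.π d) = LinearMap.range
      (bcMap (LinearEquiv.refl k' _) j (LinearMap.range (M.π d)).subtype) := by
    refine le_antisymm ?_ ?_
    · rintro _ ⟨y, rfl⟩
      induction y using bc_ind' j with
      | h1 x =>
        rw [h.π]
        exact ⟨1 ⊗ₜ ⟨M.π d x, x, rfl⟩, bcMap_tmul (LinearEquiv.refl k' _) j _ _⟩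
      | h0 => rw [map_zero]; exact Submodule.zero_mem _
      | h2 x y hx hy => rw [map_add]; exact Submodule.add_mem _ hx hy
      | h3 a x hx => rw [map_smul]; exact Submodule.smul_mem _ a hx
    · rintro _ ⟨t, rfl⟩
      induction t using bc_ind with
      | h1 x =>
        obtain ⟨_, x, rfl⟩ := x
        exact ⟨j (1 ⊗ₜ x), (h.π d x).trans (bcMap_tmul (LinearEquiv.refl k' _) j
          (LinearMap.range (M.π d)).subtype ⟨M.π d x, x, rfl⟩).symm⟩
      | h0 => rw [map_zero]; exact Submodule.zero_mem _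
      | h2 x y hx hy => rw [map_add]; exact Submodule.add_mem _ hx hy
      | h3 a x hx => rw [map_smul]; exact Submodule.smul_mem _ a hx
  unfold hilb
  rw [e, LinearMap.finrank_range_of_inj (bcMap_inj _ _ (Submodule.injective_subtype _)),
    Module.finrank_baseChange]

theorem exists_bcG (m : ℕ) (k k' ι : Type) [Field k] [Field k'] [Algebra k k'] [Fintype ι] :
    ∃ F : G m k ι →ₗ[ℂ] G m k' ι, ∀ M N j, IsBC M N j → F (cls M) = cls N := by
  choose N j h using fun M : GM m k ι => exists_isBC k' M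
  obtain ⟨F, hF⟩ := exists_lift (fun M : GM m k ι => cls (N M))
    (fun M M' M'' f g e => cls_ses (f := (h M).hom (h M') f) (g := (h M').hom (h M'') g)
      ⟨bcMap_inj _ _ e.1, bcMap_surj _ _ e.2.1, bcMap_exact _ _ _ e.2.2⟩)
    (fun M ⟨d₀, hd⟩ => cls_tors ⟨d₀, fun d hd' => by
      rw [(h M).π_eq, hd d hd']
      exact LinearMap.ext fun y => bc_ext (j M) (g := 0) (fun x => by
        rw [bcMap_tmul]; simp) y⟩)
  refine ⟨F, fun M N' j' h' => (hF M).trans ?_⟩
  exact cls_iso ((h M).hom h' ⟨LinearMap.id, fun _ _ => rfl⟩)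
    ⟨bcMap_inj _ _ Function.injective_id, bcMap_surj _ _ Function.surjective_id⟩

/-- base change on classes -/
def bcG (k' : Type) [Field k'] [Algebra k k'] : G m k ι →ₗ[ℂ] G m k' ι :=
  (exists_bcG m k k' ι).choose

theorem IsBC.bcG_cls {M : GM m k ι} {N : GM m k' ι} {j : k' ⊗[k] M.M ≃ₗ[k'] N.M}
    (h : IsBC M N j) : bcG k' (cls M) = cls N := (exists_bcG m k k' ι).choose_spec M N j h

omit [Fintype ι] in
theorem IsBC.cyc {M : GM m k ι} {N : GM m k' ι} {j : k' ⊗[k] M.M ≃ₗ[k'] N.M} (h : IsBC M N j)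
    {J : Ideal (S k ι)} {n : ι → ℤ} {x : M.M} (hx : IsCyc J n M x) :
    IsCyc (J.map (map (algebraMap k k') : S k ι →+* S k' ι)) n N (j (1 ⊗ₜ x)) := by
  refine ⟨by rw [h.π, hx.deg], fun y => ?_, fun f => ?_⟩
  · induction y using bc_ind' j with
    | h1 y =>
      obtain ⟨f, rfl⟩ := hx.gen y
      exact ⟨_, h.smul f x⟩
    | h0 => exact ⟨0, (zero_smul _ _).symm⟩
    | h2 y z hy hz =>
      obtain ⟨f, rfl⟩ := hy
      obtain ⟨g, rfl⟩ := hz
      exact ⟨f + g, (add_smul _ _ _).symm⟩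
    | h3 a y hy =>
      obtain ⟨f, rfl⟩ := hy
      exact ⟨a • f, (smul_assoc _ _ _).symm⟩
  · let e : k' ⊗[k] S k ι ≃ₗ[k'] S k' ι := (algebraTensorAlgEquiv k k').toLinearEquiv
    have he : ∀ g : S k ι, e (1 ⊗ₜ g) = map (algebraMap k k') g := fun g => by
      simp [e]
    let p : S k ι →ₗ[k] M.M := (LinearMap.toSpanSingleton (S k ι) M.M x).restrictScalars k
    have ex : Function.Exact (J.restrictScalars k).subtype p := fun g =>
      (hx.ann g).trans ⟨fun hg => ⟨⟨g, hg⟩, rfl⟩, by rintro ⟨g, rfl⟩; exact g.2⟩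
    have hp : ∀ f : S k' ι, bcMap e j p f = f • j (1 ⊗ₜ x) := fun f =>
      bc_ext e (f := bcMap e j p)
        (g := (LinearMap.toSpanSingleton (S k' ι) N.M (j (1 ⊗ₜ x))).restrictScalars k')
        (fun g => by rw [bcMap_tmul, he]; exact h.smul g x) f
    rw [← hp]
    refine (bcMap_exact (LinearEquiv.refl k' _) e j ex f).trans ⟨?_, fun hf => ?_⟩
    · rintro ⟨t, rfl⟩
      induction t using bc_ind with
      | h1 g =>
        have := bcMap_tmul (LinearEquiv.refl k' _) e (J.restrictScalars k).subtype g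
        rw [LinearEquiv.refl_apply] at this
        rw [this, he]
        exact Ideal.mem_map_of_mem _ g.2
      | h0 => rw [map_zero]; exact Submodule.zero_mem _
      | h2 x y hx hy => rw [map_add]; exact Submodule.add_mem _ hx hy
      | h3 a x hx => rw [map_smul]; exact Submodule.smul_of_tower_mem _ a hx
    · refine (bcMap_exact (LinearEquiv.refl k' _) e j ex f).1 ?_
      rw [hp]
      have hle : J.map (map (algebraMap k k') : S k ι →+* S k' ι) ≤
          LinearMap.ker (LinearMap.toSpanSingleton (S k' ι) N.M (j (1 ⊗ₜ x))) := by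
        refine Ideal.map_le_iff_le_comap.2 fun g hg => ?_
        change map (algebraMap k k') g • j (1 ⊗ₜ x) = 0
        rw [← h.smul, (hx.ann g).2 hg, tmul_zero, map_zero]
      exact hle hf

theorem bcG_cy {J : Ideal (S k ι)} (hJ : GrI J) (hF : Fer m k ι ≤ J) (n : ι → ℤ) :
    bcG k' (cy m J n) = cy m (J.map (map (algebraMap k k') : S k ι →+* S k' ι)) n := by
  obtain ⟨M, x, hx, e⟩ := exists_cy hJ hF n
  obtain ⟨N, j, h⟩ := exists_isBC k' M
  rw [e, h.bcG_cls, (h.cyc hx).cls_eq]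

omit [Fintype ι] [Fintype κ] in
theorem IsPull.bc {D : PD m k ι κ} {M : GM m k κ} {N : GM m k ι} {j : N.M →ₗ[k] M.M}
    (h : IsPull D M N j) {M' : GM m k' κ} {N' : GM m k' ι} {a : k' ⊗[k] M.M ≃ₗ[k'] M'.M}
    {b : k' ⊗[k] N.M ≃ₗ[k'] N'.M} (ha : IsBC M M' a) (hb : IsBC N N' b) :
    IsPull (D.map (algebraMap k k')) M' N' (bcMap b a j) := by
  refine ⟨bcMap_inj _ _ h.inj, fun f y => bcMap_smul hb ha j D.φ _
    (fun v => by rw [← PD.map_φ, map_X]) (fun v x => h.smul _ x) f y, fun e y => ?_,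
    fun e y => ?_⟩
  · refine bc_ext b (f := bcMap b a j ∘ₗ N'.π e) (g := M'.π (D.val e) ∘ₗ bcMap b a j)
      (fun x => ?_) y
    simp only [LinearMap.comp_apply]
    rw [hb.π, bcMap_tmul, bcMap_tmul, ha.π, h.π]
  · change M'.π (D.val e) y ∈ _
    induction y using bc_ind' a with
    | h1 x =>
      obtain ⟨z, hz⟩ := h.surj e x
      exact ⟨b (1 ⊗ₜ z), by rw [bcMap_tmul, ha.π, hz]⟩
    | h0 => rw [map_zero]; exact Submodule.zero_mem _
    | h2 x y hx hy => rw [map_add]; exact Submodule.add_mem _ hx hy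
    | h3 a x hx => rw [map_smul]; exact Submodule.smul_mem _ a hx

theorem bcG_pull {D : PD m k ι κ} (hs : Function.Surjective D.τ) (x : G m k κ) :
    bcG k' (pullG D x) = pullG (D.map (algebraMap k k')) (bcG k' x) := by
  refine LinearMap.congr_fun (G.ext (F := bcG k' ∘ₗ pullG D)
    (F' := pullG (D.map (algebraMap k k')) ∘ₗ bcG k') fun M => ?_) x
  obtain ⟨N, j, h⟩ := exists_isPull D M
  obtain ⟨M', a, ha⟩ := exists_isBC k' M
  obtain ⟨N', b, hb⟩ := exists_isBC k' N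
  simp only [LinearMap.comp_apply]
  rw [h.pullG_cls hs, ha.bcG_cls, hb.bcG_cls]
  exact (IsPull.pullG_cls (D := D.map (algebraMap k k')) hs (h.bc ha hb)).symm

omit [Fintype ι] [Fintype κ] in
theorem IsBox.bc {M : GM m k ι} {N : GM m k κ} {P : GM m k (ι ⊕ κ)}
    {j : M.M ⊗[k] N.M ≃ₗ[k] P.M} (h : IsBox M N P j) {M' : GM m k' ι} {N' : GM m k' κ}
    {P' : GM m k' (ι ⊕ κ)} {a : k' ⊗[k] M.M ≃ₗ[k'] M'.M} {b : k' ⊗[k] N.M ≃ₗ[k'] N'.M}
    {c : k' ⊗[k] P.M ≃ₗ[k'] P'.M} (ha : IsBC M M' a) (hb : IsBC N N' b) (hc : IsBC P P' c) :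
    ∃ j', IsBox M' N' P' j' := by
  let j' : M'.M ⊗[k'] N'.M ≃ₗ[k'] P'.M := TensorProduct.congr a.symm b.symm ≪≫ₗ
    (AlgebraTensorModule.distribBaseChange k k' M.M N.M).symm ≪≫ₗ j.baseChange k k' _ _ ≪≫ₗ c
  have hj : ∀ x y, j' (a (1 ⊗ₜ x) ⊗ₜ b (1 ⊗ₜ y)) = c (1 ⊗ₜ j (x ⊗ₜ y)) := fun x y => by
    simp [j', AlgebraTensorModule.distribBaseChange]
  have ext2 : ∀ {f g : M'.M ⊗[k'] N'.M →ₗ[k'] P'.M},
      (∀ x y, f (a (1 ⊗ₜ x) ⊗ₜ b (1 ⊗ₜ y)) = g (a (1 ⊗ₜ x) ⊗ₜ b (1 ⊗ₜ y))) →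
      ∀ x y, f (x ⊗ₜ y) = g (x ⊗ₜ y) := fun {f g} hfg x y =>
    bc_ext a (f := f ∘ₗ (TensorProduct.mk k' _ _).flip y) (g := g ∘ₗ (TensorProduct.mk k' _ _).flip y)
      (fun x => bc_ext b (f := f ∘ₗ TensorProduct.mk k' _ _ (a (1 ⊗ₜ x)))
        (g := g ∘ₗ TensorProduct.mk k' _ _ (a (1 ⊗ₜ x))) (fun y => hfg x y) y) x
  refine ⟨j', isBox_of j' (fun i s x y => ?_) (fun i s x y => ?_) (fun d x y => ?_)⟩
  · refine ext2 (f := j'.toLinearMap ∘ₗ
        LinearMap.rTensor N'.M (Algebra.lsmul k' k' M'.M (X (i, s) : S k' ι)))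
      (g := Algebra.lsmul k' k' P'.M (X (Sum.inl i, s) : S k' (ι ⊕ κ)) ∘ₗ j'.toLinearMap)
      (fun x y => ?_) x y
    change j' (((X (i, s) : S k' ι) • a (1 ⊗ₜ x)) ⊗ₜ b (1 ⊗ₜ y)) =
      (X (Sum.inl i, s) : S k' (ι ⊕ κ)) • j' (a (1 ⊗ₜ x) ⊗ₜ b (1 ⊗ₜ y))
    rw [ha.smul_X, hj, hj, hc.smul_X, ← boxHom_inl, h.smul, rn_X]
  · refine ext2 (f := j'.toLinearMap ∘ₗ
        LinearMap.lTensor M'.M (Algebra.lsmul k' k' N'.M (X (i, s) : S k' κ)))
      (g := Algebra.lsmul k' k' P'.M (X (Sum.inr i, s) : S k' (ι ⊕ κ)) ∘ₗ j'.toLinearMap)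
      (fun x y => ?_) x y
    change j' (a (1 ⊗ₜ x) ⊗ₜ ((X (i, s) : S k' κ) • b (1 ⊗ₜ y))) =
      (X (Sum.inr i, s) : S k' (ι ⊕ κ)) • j' (a (1 ⊗ₜ x) ⊗ₜ b (1 ⊗ₜ y))
    rw [hb.smul_X, hj, hj, hc.smul_X, ← boxHom_inr, h.smul, rn_X]
  · refine ext2 (f := P'.π d ∘ₗ j'.toLinearMap)
      (g := j'.toLinearMap ∘ₗ TensorProduct.map (M'.π (d ∘ Sum.inl)) (N'.π (d ∘ Sum.inr)))
      (fun x y => ?_) x y
    change P'.π d (j' (a (1 ⊗ₜ x) ⊗ₜ b (1 ⊗ₜ y))) =
      j' (M'.π (d ∘ Sum.inl) (a (1 ⊗ₜ x)) ⊗ₜ N'.π (d ∘ Sum.inr) (b (1 ⊗ₜ y)))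
    rw [ha.π, hb.π, hj, hj, hc.π, h.π, TensorProduct.map_tmul]

theorem bcG_box (x : G m k ι) (y : G m k κ) :
    bcG k' (boxG x y) = boxG (bcG k' x) (bcG k' y) := by
  induction x using G.ind with
  | h1 M =>
    refine LinearMap.congr_fun (G.ext (F := bcG k' ∘ₗ boxG (cls M))
      (F' := boxG (bcG k' (cls M)) ∘ₗ bcG k') fun N => ?_) y
    obtain ⟨P, j, h⟩ := exists_isBox M N
    obtain ⟨M', a, ha⟩ := exists_isBC k' M
    obtain ⟨N', b, hb⟩ := exists_isBC k' N
    obtain ⟨P', c, hc⟩ := exists_isBC k' P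
    obtain ⟨j', h'⟩ := h.bc ha hb hc
    simp only [LinearMap.comp_apply]
    rw [h.boxG_cls, ha.bcG_cls, hb.bcG_cls, hc.bcG_cls, h'.boxG_cls]
  | h0 => simp only [map_zero, LinearMap.zero_apply]
  | h2 x x' hx hx' => simp only [map_add, LinearMap.add_apply, hx, hx']
  | h3 c x hx => simp only [map_smul, LinearMap.smul_apply, hx]

theorem coef_bcG (hm : m ≠ 0) (x : G m k ι) : coef (bcG k' x) = coef x := by
  classical
  refine LinearMap.congr_fun (G.ext (F := coef ∘ₗ bcG k') (F' := coef) fun M => ?_) x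
  obtain ⟨N, j, h⟩ := exists_isBC k' M
  rw [LinearMap.comp_apply, h.bcG_cls]
  refine (aff_coef hm N).uniq ?_
  simp only [h.hilb_eq]
  exact aff_coef hm M

end Pool.Agent.Tate
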