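import Pool.Agent.P.MP_2ce3e7_ag.BC

/-! Base change and the pairing. -/

set_option autoImplicit false

noncomputable section

namespace Pool.Agent.Tate

open MvPolynomial TensorProduct

variable {m : ℕ} {k k' ι : Type} [Field k] [Field k'] [Algebra k k'] [Fintype ι] [DecidableEq ι]

section Aux
variable {κ : Type}

omit [Fintype ι] [DecidableEq ι] in
theorem BCb_ind {M : GM m k ι} {N : GM m k' ι} (j : k' ⊗[k] M.M ≃ₗ[k'] N.M) {P : N.M → Prop}
    (h0 : P 0) (h1 : ∀ x, P (j (1 ⊗ₜ x))) (h2 : ∀ y z, P y → P z → P (y + z))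
    (h3 : ∀ (c : k') y, P y → P (c • y)) (y : N.M) : P y := by
  obtain ⟨t, rfl⟩ := j.surjective y
  induction t using TensorProduct.induction_on with
  | zero => rwa [map_zero]
  | tmul c x =>
    have e : (c ⊗ₜ[k] x : k' ⊗[k] M.M) = c • ((1 : k') ⊗ₜ[k] x) := by
      rw [TensorProduct.smul_tmul', smul_eq_mul, mul_one]
    rw [e, map_smul]
    exact h3 c _ (h1 x)
  | add s t hs ht =>
    rw [map_add]
    exact h2 _ _ hs ht

/-- base change of a linear map -/
def BCbMap {M M' : GM m k ι} {N N' : GM m k' ι} (j : k' ⊗[k] M.M ≃ₗ[k'] N.M)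
    (j' : k' ⊗[k] M'.M ≃ₗ[k'] N'.M) (f : M.M →ₗ[k] M'.M) : N.M →ₗ[k'] N'.M :=
  j'.toLinearMap ∘ₗ f.baseChange k' ∘ₗ j.symm.toLinearMap

omit [Fintype ι] [DecidableEq ι] in
theorem BCbMap_apply {M M' : GM m k ι} {N N' : GM m k' ι} (j : k' ⊗[k] M.M ≃ₗ[k'] N.M)
    (j' : k' ⊗[k] M'.M ≃ₗ[k'] N'.M) (f : M.M →ₗ[k] M'.M) (x : M.M) :
    BCbMap j j' f (j (1 ⊗ₜ x)) = j' (1 ⊗ₜ f x) := by
  simp [BCbMap]

omit [Fintype ι] [DecidableEq ι] in
theorem BCbMap_smul {M M' : GM m k ι} {N N' : GM m k' ι} {j : k' ⊗[k] M.M ≃ₗ[k'] N.M}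
    {j' : k' ⊗[k] M'.M ≃ₗ[k'] N'.M} (h : IsBC M N j) (h' : IsBC M' N' j') (f : M.M →ₗ[k] M'.M)
    (hf : ∀ (s : S k ι) x, f (s • x) = s • f x) (s : S k' ι) (y : N.M) :
    BCbMap j j' f (s • y) = s • BCbMap j j' f y := by
  refine smul_of_X (AlgHom.id k' (S k' ι)) (BCbMap j j' f) (fun v y => ?_) s y
  rw [AlgHom.id_apply]
  induction y using BCb_ind j with
  | h0 => simp
  | h1 x =>
    have e1 := h.smul (X v) x
    have e2 := h'.smul (X v) (f x)
    rw [map_X] at e1 e2
    rw [← e1, BCbMap_apply, BCbMap_apply, hf, e2]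
  | h2 y z hy hz => rw [smul_add, map_add, map_add, hy, hz, smul_add]
  | h3 c y hy => rw [smul_comm, LinearMap.map_smul, LinearMap.map_smul, hy, smul_comm]

omit [DecidableEq ι] [Algebra k k'] in
theorem BCb_suff {A : Type} {U : Set (A → S k ι)} (s : k →+* k') (h : Suff m U) :
    Suff m ((fun u a => map s (u a)) '' U) := by
  intro α
  obtain ⟨n, hn⟩ := h α
  refine ⟨n, ?_⟩
  have e : map s (mono k α ^ n) = mono k' α ^ n := by
    simp [mono, map_prod]
  rw [← e]
  refine Ideal.mem_comap.1 ((?_ : _ ≤ Ideal.comap (map s : S k ι →+* S k' ι) _) hn)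
  refine sup_le (Ideal.span_le.2 ?_) fun f hf => ?_
  · rintro _ ⟨u, hu, a, rfl⟩
    exact Ideal.mem_comap.2 (Ideal.mem_sup_left (Ideal.subset_span ⟨_, ⟨u, hu, rfl⟩, a, rfl⟩))
  · exact Ideal.mem_comap.2 (Ideal.mem_sup_right (map_mem_Fer s hf))

omit [DecidableEq ι] in
theorem BCb_isL {A : Type} [Fintype A] [DecidableEq A] {g : A → S k ι} {δ : ι → ℤ}
    {M T : GM m k ι} {N T' : GM m k' ι} {j : k' ⊗[k] M.M ≃ₗ[k'] N.M}
    {j' : k' ⊗[k] T.M ≃ₗ[k'] T'.M} (h : IsBC M N j) (h' : IsBC T T' j')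
    {p : (A → M.M) →ₗ[S k ι] T.M} (hp : IsL g δ M T p) :
    ∃ p' : (A → N.M) →ₗ[S k' ι] T'.M, IsL (fun a => map (algebraMap k k') (g a)) δ N T' p' := by
  obtain ⟨f, hf⟩ : ∃ f : A → M.M →ₗ[k] T.M, ∀ a x, f a x = p (Pi.single a x) :=
    ⟨fun a => (p ∘ₗ LinearMap.single (S k ι) (fun _ : A => M.M) a).restrictScalars k,
      fun _ _ => rfl⟩
  have hfs : ∀ a (s : S k ι) x, f a (s • x) = s • f a x := fun a s x => by
    rw [hf, hf, ← map_smul, Pi.single_smul]
  have hsum : ∀ ξ : A → M.M, p ξ = ∑ a, f a (ξ a) := fun ξ => by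
    simp only [hf]
    rw [← map_sum, Finset.univ_sum_single]
  let q : A → N.M →ₗ[S k' ι] T'.M := fun a =>
    { toFun := BCbMap j j' (f a)
      map_add' := map_add _
      map_smul' := BCbMap_smul h h' (f a) (hfs a) }
  have hq : ∀ a y, q a y = BCbMap j j' (f a) y := fun _ _ => rfl
  obtain ⟨p', hp'⟩ : ∃ p' : (A → N.M) →ₗ[S k' ι] T'.M,
      ∀ ξ, p' ξ = ∑ a, BCbMap j j' (f a) (ξ a) :=
    ⟨∑ a, q a ∘ₗ LinearMap.proj a, fun ξ => by
      rw [LinearMap.sum_apply]
      rfl⟩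
  have hsingle : ∀ a y, p' (Pi.single a y) = BCbMap j j' (f a) y := fun a y => by
    rw [hp', Finset.sum_eq_single a (fun b _ hb => by rw [Pi.single_eq_of_ne hb, map_zero])
      (fun hh => absurd (Finset.mem_univ a) hh), Pi.single_eq_same]
  refine ⟨p', fun y => ?_, fun d ξ => ?_, ?_⟩
  · induction y using BCb_ind j' with
    | h0 => exact ⟨0, map_zero _⟩
    | h1 t =>
      obtain ⟨ξ, rfl⟩ := hp.surj t
      refine ⟨fun a => j (1 ⊗ₜ ξ a), ?_⟩
      simp only [hp', BCbMap_apply]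
      rw [hsum, TensorProduct.tmul_sum, map_sum]
    | h2 y z hy hz =>
      obtain ⟨ξ, rfl⟩ := hy
      obtain ⟨η, rfl⟩ := hz
      exact ⟨ξ + η, map_add _ _ _⟩
    | h3 c y hy =>
      obtain ⟨ξ, rfl⟩ := hy
      exact ⟨(C c : S k' ι) • ξ, by rw [map_smul, T'.C_smul]⟩
  · rw [hp', hp', map_sum]
    refine Finset.sum_congr rfl fun a _ => ?_
    generalize ξ a = y
    induction y using BCb_ind j with
    | h0 => simp
    | h1 x =>
      rw [BCbMap_apply, h'.π, h.π, BCbMap_apply, hf, hf, hp.π]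
      congr 3
      funext b
      rcases eq_or_ne b a with rfl | hb
      · rw [Pi.single_eq_same, Pi.single_eq_same]
      · rw [Pi.single_eq_of_ne hb, Pi.single_eq_of_ne hb, map_zero]
    | h2 y z hy hz => simp only [map_add, hy, hz]
    | h3 c y hy => simp only [map_smul, hy]
  · obtain ⟨U, hU, hU'⟩ := hp.ker
    refine ⟨_, BCb_suff (algebraMap k k') hU, ?_⟩
    rintro _ ⟨u, hu, rfl⟩
    obtain ⟨h1, h2, h3⟩ := hU' u hu
    refine ⟨fun a b => ?_, fun ξ hξ => ?_, fun a b y => ?_⟩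
    · have := map_mem_Fer (algebraMap k k') (h1 a b)
      rwa [map_sub, map_mul, map_mul] at this
    · obtain ⟨σ, hσ⟩ := (p.restrictScalars k).exists_rightInverse_of_surjective
        (LinearMap.range_eq_top.2 hp.surj)
      have hσ' : ∀ t, p (σ t) = t := fun t => LinearMap.congr_fun hσ t
      obtain ⟨ev, hev⟩ : ∃ ev : (A → M.M) →ₗ[S k ι] M.M, ∀ η, ev η = ∑ a, u a • η a :=
        ⟨∑ a, u a • LinearMap.proj a, fun η => by
          rw [LinearMap.sum_apply]
          rfl⟩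
      have hr : ∀ a x, (ev.restrictScalars k ∘ₗ σ) (f a x) = u a • x := fun a x => by
        have e1 : ev (σ (f a x) - Pi.single a x) = 0 := by
          rw [hev]
          exact h2 _ (by rw [map_sub, hσ', hf, sub_self])
        rw [map_sub, sub_eq_zero] at e1
        change ev (σ (f a x)) = _
        rw [e1, hev, Finset.sum_eq_single a
          (fun b _ hb => by rw [Pi.single_eq_of_ne hb, smul_zero])
          (fun hh => absurd (Finset.mem_univ a) hh), Pi.single_eq_same]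
      have key : ∀ a y, BCbMap j' j (ev.restrictScalars k ∘ₗ σ) (BCbMap j j' (f a) y) =
          map (algebraMap k k') (u a) • y := fun a y => by
        induction y using BCb_ind j with
        | h0 => simp
        | h1 x => rw [BCbMap_apply, BCbMap_apply, hr, h.smul]
        | h2 y z hy hz => simp only [map_add, hy, hz, smul_add]
        | h3 c y hy => rw [map_smul, map_smul, hy, smul_comm]
      have e := congrArg (BCbMap j' j (ev.restrictScalars k ∘ₗ σ)) hξ
      rw [hp', map_sum, map_zero] at e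
      simpa only [key] using e
    · rw [hsingle, hsingle]
      induction y using BCb_ind j with
      | h0 => simp
      | h1 x => rw [← h.smul, ← h.smul, BCbMap_apply, BCbMap_apply, hf, hf, h3]
      | h2 y z hy hz => simp only [smul_add, map_add, hy, hz]
      | h3 c y hy =>
        rw [smul_comm _ c, smul_comm _ c, LinearMap.map_smul, LinearMap.map_smul, hy]

omit [Fintype ι] [DecidableEq ι] in
theorem BCb_PD_ext {D D' : PD m k ι κ} (h1 : D.τ = D'.τ) (h2 : D.c = D'.c) (h3 : D.q = D'.q)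
    (h4 : D.o = D'.o) : D = D' := by
  cases D
  cases D'
  simp only at h1 h2 h3 h4
  subst h1 h2 h3 h4
  rfl

end Aux

theorem bcG_Lg {A : Type} [Fintype A] [DecidableEq A] (hm : (m : k) ≠ 0) {g : A → S k ι}
    {δ : ι → ℤ} (hg : Inv m g δ) (hg' : Inv m (fun a => map (algebraMap k k') (g a)) δ)
    (x : G m k ι) :
    bcG k' (Lg m g δ x) = Lg m (fun a => map (algebraMap k k') (g a)) δ (bcG k' x) := by
  have hm' : (m : k') ≠ 0 := by
    rw [← map_natCast (algebraMap k k')]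
    exact (map_ne_zero _).2 hm
  induction x using G.ind with
  | h1 M =>
    obtain ⟨T, p, hp, -⟩ := exists_isL hm hg M
    obtain ⟨N, j, h⟩ := exists_isBC k' M
    obtain ⟨T', j', h'⟩ := exists_isBC k' T
    obtain ⟨p', hp'⟩ := BCb_isL h h' hp
    rw [hp.Lg_cls hm hg, h'.bcG_cls, h.bcG_cls, hp'.Lg_cls hm' hg']
  | h0 => simp only [map_zero]
  | h2 x y hx hy => simp only [map_add, hx, hy]
  | h3 c x hx => simp only [map_smul, hx]

theorem BCb_Lm (hm : (m : k) ≠ 0) (hm' : (m : k') ≠ 0) {i j : ι} (h : i ≠ j) (x : G m k ι) :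
    bcG k' (Lm m k i j x) = Lm m k' i j (bcG k' x) := by
  have e : (fun a => map (algebraMap k k') (minor k i j a)) = minor k' i j :=
    funext fun a => map_minor _ i j a
  have := bcG_Lg (k' := k') hm (inv_minor hm h) (e ▸ inv_minor hm' h) x
  rwa [e] at this

theorem BCb_dgT [NeZero (m : k)] [NeZero (m : k')] {I : Type} [DecidableEq I] {α β : I → ι}
    (h : ∀ i, α i ≠ β i) (T : Finset I) (x : G m k ι) :
    bcG k' (dgT m k α β T x) = dgT m k' α β T (bcG k' x) := by
  induction T using Finset.induction_on generalizing x with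
  | empty => rw [dgT_empty, dgT_empty, Module.End.one_apply, Module.End.one_apply]
  | insert i T hi ih =>
    rw [dgT_insert _ _ hi, dgT_insert _ _ hi, Module.End.mul_apply, Module.End.mul_apply, ih,
      LinearMap.sub_apply, LinearMap.sub_apply, map_sub, Module.End.one_apply,
      Module.End.one_apply, BCb_Lm (NeZero.ne _) (NeZero.ne _) (h i)]

theorem tr_bcG [NeZero (m : k)] [NeZero (m : k')] (x : G m k (ι ⊕ ι)) :
    tr (bcG k' x) = tr x := by
  have hm : m ≠ 0 := by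
    rintro rfl
    exact NeZero.ne ((0 : ℕ) : k) Nat.cast_zero
  simp only [tr, LinearMap.comp_apply]
  rw [← BCb_dgT (fun _ => Sum.inl_ne_inr), chi_apply, chi_apply, coef_bcG hm]

theorem prg_bcG [NeZero (m : k)] [NeZero (m : k')] (x y : G m k ι) :
    prg (bcG k' x) (bcG k' y) = prg x y := by
  rw [prg_apply, prg_apply, ← bcG_box, tr_bcG]

theorem bcG_fr (p : ℕ) [Fact p.Prime] [CharP k p] [CharP k' p] (s : ι → ℕ) (x : G m k ι) :
    bcG k' (fr p s x) = fr p s (bcG k' x) := by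
  have e : (frD m k p s).map (algebraMap k k') = frD m k' p s :=
    BCb_PD_ext rfl (funext fun _ => map_one _) rfl rfl
  unfold fr
  rw [bcG_pull Function.surjective_id, e]

theorem bcG_cy_Fer (n : ι → ℤ) : bcG k' (cy m (Fer m k ι) n) = cy m (Fer m k' ι) n := by
  rw [bcG_cy grI_Fer le_rfl]
  congr 1
  unfold Fer
  rw [Ideal.map_span, ← Set.range_comp]
  congr 2
  exact funext fun i => map_fer _ i

theorem bcG_Dg : bcG k' (Dg m k) = Dg m k' := by
  unfold Dg
  rw [bcG_cy grI_PD0 Fer_le_PD0, map_PD0]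

variable [NeZero m] {ζ : Rt m k} {ζ' : Rt m k'} (h : ζ'.1 = algebraMap k k' ζ.1)
include h

theorem bcG_tw (g : ι → Ch m) (x : G m k ι) : bcG k' (tw ζ g x) = tw ζ' g (bcG k' x) := by
  have e : (twD ζ (up g)).map (algebraMap k k') = twD ζ' (up g) :=
    BCb_PD_ext rfl (funext fun v => by
      change algebraMap k k' (c3 ζ (up g) v) = c3 ζ' (up g) v
      rw [c3, c3, h, map_pow]) rfl rfl
  unfold tw tw3
  rw [bcG_pull Function.surjective_id, e]

theorem bcG_P1 (i : ι) (a : Ch m) (x : G m k ι) :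
    bcG k' (P1 ζ i a x) = P1 ζ' i a (bcG k' x) :=
  avg_comm (bcG k') (fun _ y => bcG_tw h _ y) x

theorem bcG_pr (a : ι → Ch m) (x : G m k ι) : bcG k' (pr ζ a x) = pr ζ' a (bcG k' x) :=
  avg_comm (bcG k') (fun _ y => bcG_tw h _ y) x

theorem bcG_Da (a : Ch m) : bcG k' (Da ζ a) = Da ζ' a := by
  unfold Da
  rw [bcG_P1 h, bcG_Dg]

end Pool.Agent.Tate
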