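import Pool.Agent.P.MP_2ce3e7_ag.Poly

/-! Basic properties of graded modules. -/

set_option autoImplicit false

noncomputable section

namespace Pool.Agent.Tate

open MvPolynomial

variable {m : ℕ} {k ι : Type} [Field k] {M N P : GM m k ι}

theorem basicA_mono (M : GM m k ι) (s : ι × Fin 3 →₀ ℕ) : ∀ (d : ι → ℤ) (x : M.M),
    M.π (d + Finsupp.weight wt s) ((monomial s (1 : k) : S k ι) • x) =
      (monomial s (1 : k) : S k ι) • M.π d x := by
  induction s using Finsupp.induction_linear with
  | zero => intro d x; simp [monomial_zero']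
  | add s t hs ht =>
    intro d x
    have h1 : (monomial (s + t) (1 : k) : S k ι) = monomial s 1 * monomial t 1 := by
      rw [monomial_mul, mul_one]
    rw [h1, map_add, mul_smul, mul_smul, add_comm (Finsupp.weight wt s), ← add_assoc, hs, ht]
  | single v n =>
    induction n with
    | zero => intro d x; simp [monomial_zero']
    | succ n ih =>
      intro d x
      have h1 : (monomial (Finsupp.single v (n + 1)) (1 : k) : S k ι) =
          X v * monomial (Finsupp.single v n) 1 := by
        rw [← X_pow_eq_monomial, ← X_pow_eq_monomial, pow_succ']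
      have h2 : Finsupp.weight wt (Finsupp.single v (n + 1)) =
          Finsupp.weight wt (Finsupp.single v n) + wt v := by
        rw [Finsupp.weight_single, Finsupp.weight_single, succ_nsmul]
      rw [h1, h2, mul_smul, mul_smul, ← add_assoc, M.π_X, ih]

theorem basicA_C (M : GM m k ι) (a : k) (x : M.M) : (C a : S k ι) • x = a • x :=
  algebraMap_smul (S k ι) a x

theorem GM.π_smul (M : GM m k ι) {f : S k ι} {e : ι → ℤ} (hf : Hg f e) (d : ι → ℤ) (x : M.M) :
    M.π (d + e) (f • x) = f • M.π d x := by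
  induction hf using IsWeightedHomogeneous.induction_on with
  | zero => simp
  | add p q _ _ hp hq => rw [add_smul, add_smul, map_add, hp, hq]
  | monomial s a hs =>
    have h1 : (monomial s a : S k ι) = C a * monomial s 1 := by rw [C_mul_monomial, mul_one]
    rw [h1, mul_smul, mul_smul, basicA_C, basicA_C, map_smul, ← hs, basicA_mono]

theorem GM.π_smul_hom (M : GM m k ι) {x : M.M} {e : ι → ℤ} (hx : M.π e x = x) (f : S k ι)
    (d : ι → ℤ) : M.π (d + e) (f • x) = cmp d f • x := by
  induction f using MvPolynomial.induction_on' with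
  | add p q hp hq => rw [add_smul, map_add, hp, hq, map_add, add_smul]
  | monomial s a =>
    have hh : Hg (monomial s a : S k ι) (Finsupp.weight wt s) :=
      isWeightedHomogeneous_monomial _ _ _ rfl
    have h1 : d + e = (d + e - Finsupp.weight wt s) + Finsupp.weight wt s := by abel
    rw [h1, M.π_smul hh]
    by_cases hd : d = Finsupp.weight wt s
    · rw [hd, hh.weightedHomogeneousComponent_same, add_sub_cancel_left, hx]
    · rw [hh.weightedHomogeneousComponent_ne d hd, ← hx, M.π_ne, smul_zero, zero_smul]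
      intro h
      apply hd
      have h2 : d = (d + e - Finsupp.weight wt s) - e + Finsupp.weight wt s := by abel
      rw [h2, h, sub_self, zero_add]

theorem GM.eq_zero (M : GM m k ι) {x : M.M} (h : ∀ d, M.π d x = 0) : x = 0 := by
  obtain ⟨s, hs⟩ := M.sum_π x
  rw [← hs]
  exact Finset.sum_eq_zero fun d _ => h d

theorem GM.finite_supp (M : GM m k ι) (x : M.M) : {d | M.π d x ≠ 0}.Finite := by
  obtain ⟨s, hs⟩ := M.sum_π x
  refine s.finite_toSet.subset fun d hd => ?_
  by_contra hn
  apply hd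
  rw [← hs, map_sum]
  exact Finset.sum_eq_zero fun e he => M.π_ne d e _ fun h => hn (h ▸ he)

theorem GM.sum_of_supp (M : GM m k ι) (x : M.M) {s : Finset (ι → ℤ)}
    (h : ∀ d, M.π d x ≠ 0 → d ∈ s) : ∑ d ∈ s, M.π d x = x := by
  classical
  obtain ⟨t, ht⟩ := M.sum_π x
  have h1 : ∑ d ∈ s, M.π d x = ∑ d ∈ s ∪ t, M.π d x :=
    Finset.sum_subset Finset.subset_union_left fun d _ hd => by
      by_contra hn
      exact hd (h d hn)
  have h2 : ∑ d ∈ t, M.π d x = ∑ d ∈ s ∪ t, M.π d x :=
    Finset.sum_subset Finset.subset_union_right fun d _ hd => by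
      rw [← ht, map_sum]
      exact Finset.sum_eq_zero fun e he => M.π_ne d e _ fun h => hd (h ▸ he)
  rw [h1, ← h2, ht]

theorem GM.mem_of_π (M : GM m k ι) {W : AddSubgroup M.M} {x : M.M} (h : ∀ d, M.π d x ∈ W) :
    x ∈ W := by
  obtain ⟨s, hs⟩ := M.sum_π x
  rw [← hs]
  exact W.sum_mem fun d _ => h d

theorem GM.mem_range_π (M : GM m k ι) {d : ι → ℤ} {x : M.M} :
    x ∈ LinearMap.range (M.π d) ↔ M.π d x = x := by
  constructor
  · rintro ⟨y, rfl⟩
    exact M.π_self d y
  · exact fun h => ⟨x, h⟩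

theorem GM.C_smul (M : GM m k ι) (a : k) (x : M.M) : (C a : S k ι) • x = a • x := by
  exact basicA_C M a x

/-- finitely many homogeneous generators -/
theorem GM.exists_gens (M : GM m k ι) : ∃ (n : ℕ) (x : Fin n → M.M) (d : Fin n → ι → ℤ),
    (∀ i, M.π (d i) (x i) = x i) ∧ Submodule.span (S k ι) (Set.range x) = ⊤ := by
  classical
  obtain ⟨s, hs⟩ := M.fg.fg_top
  choose t ht using M.sum_π
  let T : Finset (M.M × (ι → ℤ)) := s.biUnion fun x => (t x).image fun d => (x, d)
  refine ⟨T.card, fun i => M.π (T.equivFin.symm i).1.2 (T.equivFin.symm i).1.1,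
    fun i => (T.equivFin.symm i).1.2, fun i => M.π_self _ _, ?_⟩
  rw [eq_top_iff, ← hs, Submodule.span_le]
  intro x hx
  rw [← ht x]
  refine Submodule.sum_mem _ fun d hd => Submodule.subset_span ?_
  have hT : (x, d) ∈ T := Finset.mem_biUnion.2 ⟨x, hx, Finset.mem_image.2 ⟨d, hd, rfl⟩⟩
  exact ⟨T.equivFin ⟨(x, d), hT⟩, by simp⟩

theorem GM.finite_piece [Finite ι] (M : GM m k ι) (d : ι → ℤ) :
    Module.Finite k (LinearMap.range (M.π d)) := by
  obtain ⟨n, x, e, hx, hs⟩ := M.exists_gens
  let L : Fin n → (S k ι →ₗ[k] M.M) := fun i =>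
    (LinearMap.toSpanSingleton (S k ι) M.M (x i)).restrictScalars k
  let W : Submodule k M.M :=
    ⨆ i, (weightedHomogeneousSubmodule k (wt (ι := ι)) (d - e i)).map (L i)
  have hW : W.FG := Submodule.fg_iSup _ fun i =>
    (Module.Finite.iff_fg.1 (finite_hg (k := k) (d - e i))).map _
  have : Module.Finite k W := Module.Finite.iff_fg.2 hW
  refine Submodule.finiteDimensional_of_le (S₂ := W) ?_
  rintro _ ⟨y, rfl⟩
  have hy : y ∈ Submodule.span (S k ι) (Set.range x) := hs ▸ Submodule.mem_top
  obtain ⟨c, rfl⟩ := (Submodule.mem_span_range_iff_exists_fun _).1 hy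
  rw [map_sum]
  refine Submodule.sum_mem _ fun i _ => Submodule.mem_iSup_of_mem i ?_
  refine ⟨cmp (d - e i) (c i), weightedHomogeneousComponent_mem _ _ _, ?_⟩
  have h := M.π_smul_hom (hx i) (c i) (d - e i)
  rw [sub_add_cancel] at h
  rw [h]
  rfl

theorem GM.mem_ann {f : S k ι} : f ∈ M.ann ↔ ∀ x : M.M, f • x = 0 := Module.mem_annihilator

theorem GM.Fer_le_ann (M : GM m k ι) : Fer m k ι ≤ M.ann := by
  refine Ideal.span_le.2 ?_
  rintro _ ⟨i, rfl⟩
  exact GM.mem_ann.2 (M.fer_smul i)

theorem GM.grI_ann (M : GM m k ι) : GrI M.ann := by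
  intro d f hf
  refine GM.mem_ann.2 fun x => ?_
  obtain ⟨s, hs⟩ := M.sum_π x
  rw [← hs, Finset.smul_sum]
  refine Finset.sum_eq_zero fun e _ => ?_
  have h := M.π_smul_hom (M.π_self e x) f d
  rw [GM.mem_ann.1 hf, map_zero] at h
  exact h.symm

theorem basicA_smul_mem (M : GM m k ι) {W : Submodule (S k ι) M.M} {x : M.M}
    (h : ∀ d, M.π d x ∈ W) (f : S k ι) (d : ι → ℤ) : M.π d (f • x) ∈ W := by
  induction f using MvPolynomial.induction_on' with
  | add p q hp hq => rw [add_smul, map_add]; exact W.add_mem hp hq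
  | monomial s a =>
    have hh : Hg (monomial s a : S k ι) (Finsupp.weight wt s) :=
      isWeightedHomogeneous_monomial _ _ _ rfl
    rw [← sub_add_cancel d (Finsupp.weight wt s), M.π_smul hh]
    exact W.smul_mem _ (h _)

theorem gr_span (M : GM m k ι) {s : Set M.M} (h : ∀ x ∈ s, ∃ d, M.π d x = x) :
    Gr M (Submodule.span (S k ι) s) := by
  intro d x hx
  induction hx using Submodule.span_induction generalizing d with
  | mem x hx =>
    obtain ⟨e, he⟩ := h x hx
    by_cases hd : d = e
    · rw [hd, he]; exact Submodule.subset_span hx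
    · rw [← he, M.π_ne d e x hd]; exact Submodule.zero_mem _
  | zero => rw [map_zero]; exact Submodule.zero_mem _
  | add x y _ _ hx hy => rw [map_add]; exact Submodule.add_mem _ (hx d) (hy d)
  | smul f x _ hx => exact basicA_smul_mem M hx f d

theorem Gr.sup {W W' : Submodule (S k ι) M.M} (h : Gr M W) (h' : Gr M W') : Gr M (W ⊔ W') := by
  intro d x hx
  obtain ⟨y, hy, z, hz, rfl⟩ := Submodule.mem_sup.1 hx
  rw [map_add]
  exact Submodule.add_mem_sup (h d y hy) (h' d z hz)

theorem gr_smul_top (M : GM m k ι) {J : Ideal (S k ι)} (h : GrI J) :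
    Gr M (J • (⊤ : Submodule (S k ι) M.M)) := by
  intro d x hx
  refine Submodule.smul_induction_on hx (fun r hr y _ => ?_) fun y z hy hz => ?_
  · obtain ⟨s, hs⟩ := M.sum_π y
    rw [← hs, Finset.smul_sum, map_sum]
    refine Submodule.sum_mem _ fun e _ => ?_
    have h1 := M.π_smul_hom (M.π_self e y) r (d - e)
    rw [sub_add_cancel] at h1
    rw [h1]
    exact Submodule.smul_mem_smul (h _ r hr) Submodule.mem_top
  · rw [map_add]
    exact Submodule.add_mem _ hy hz

theorem Hom.gr_ker (f : Hom M N) : Gr M (LinearMap.ker f.f) := by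
  intro d x hx
  rw [LinearMap.mem_ker] at hx ⊢
  rw [f.π, hx, map_zero]

theorem Hom.gr_range (f : Hom M N) : Gr N (LinearMap.range f.f) := by
  rintro d _ ⟨x, rfl⟩
  exact ⟨M.π d x, f.π d x⟩

theorem Hom.gr_map (f : Hom M N) {W : Submodule (S k ι) M.M} (h : Gr M W) :
    Gr N (W.map f.f) := by
  rintro d _ ⟨x, hx, rfl⟩
  exact ⟨M.π d x, h d x hx, f.π d x⟩

theorem Hom.gr_comap (f : Hom M N) {W : Submodule (S k ι) N.M} (h : Gr N W) :
    Gr M (W.comap f.f) := by
  intro d x hx
  rw [Submodule.mem_comap] at hx ⊢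
  rw [f.π]
  exact h d _ hx

/-- composition -/
def Hom.comp (g : Hom N P) (f : Hom M N) : Hom M P :=
  ⟨g.f ∘ₗ f.f, fun d x => by simp only [LinearMap.comp_apply, f.π, g.π]⟩

/-- a linear map over the ground field that commutes with the variables -/
theorem smul_of_X {V W σ σ' : Type} [AddCommGroup V] [Module k V] [Module (MvPolynomial σ k) V]
    [IsScalarTower k (MvPolynomial σ k) V] [AddCommGroup W] [Module k W]
    [Module (MvPolynomial σ' k) W] [IsScalarTower k (MvPolynomial σ' k) W]
    (θ : MvPolynomial σ k →ₐ[k] MvPolynomial σ' k) (j : V →ₗ[k] W)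
    (h : ∀ v x, j ((X v : MvPolynomial σ k) • x) = θ (X v) • j x) (f : MvPolynomial σ k) (x : V) :
    j (f • x) = θ f • j x := by
  induction f using MvPolynomial.induction_on generalizing x with
  | C a =>
    have h1 : (C a : MvPolynomial σ k) • x = a • x := algebraMap_smul (MvPolynomial σ k) a x
    have h2 : θ (C a) • j x = a • j x := by
      rw [algHom_C]; exact algebraMap_smul (MvPolynomial σ' k) a (j x)
    rw [h1, h2, map_smul]
  | add p q hp hq => rw [add_smul, map_add, map_add, add_smul, hp, hq]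
  | mul_X p v hp => rw [mul_smul, hp, h, map_mul, mul_smul]

/-- graded homomorphism from a linear map over the ground field -/
def Hom.mk' (j : M.M →ₗ[k] N.M) (h : ∀ (f : S k ι) x, j (f • x) = f • j x)
    (hπ : ∀ d x, j (M.π d x) = N.π d (j x)) : Hom M N :=
  ⟨{ toFun := j, map_add' := j.map_add, map_smul' := h }, hπ⟩

/-- multiplication by a homogeneous polynomial -/
def GM.mulHom (M : GM m k ι) {f : S k ι} {e : ι → ℤ} (hf : Hg f e) : Hom (M.sh (-e)) M :=
  ⟨LinearMap.lsmul (S k ι) M.M f, fun d x => by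
    have h := M.π_smul hf (d + -e) x
    rw [neg_add_cancel_right] at h
    exact h.symm⟩

/-- construction of a graded module from a representation of the polynomial ring -/
def GM.ofRep (V : Type) [AddCommGroup V] [Module k V] (ρ : S k ι →ₐ[k] Module.End k V)
    (π : (ι → ℤ) → V →ₗ[k] V)
    (fg : ∃ s : Set V, s.Finite ∧
      Submodule.span k {y | ∃ f, ∃ x ∈ s, y = ρ f x} = ⊤)
    (h1 : ∀ d x, π d (π d x) = π d x) (h2 : ∀ d e x, d ≠ e → π d (π e x) = 0)
    (h3 : ∀ x, ∃ s : Finset (ι → ℤ), ∑ d ∈ s, π d x = x)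
    (h4 : ∀ v d x, π (d + wt v) (ρ (X v) x) = ρ (X v) (π d x))
    (h5 : ∀ i x, ρ (fer m k i) x = 0) : GM m k ι :=
  letI : Module (S k ι) V := Module.compHom V ρ.toRingHom
  haveI : IsScalarTower k (S k ι) V := ⟨fun a f x => by
    change ρ (a • f) x = a • ρ f x
    rw [map_smul]; rfl⟩
  { M := V
    fg := by
      obtain ⟨s, hs, h⟩ := fg
      refine ⟨Submodule.fg_def.2 ⟨s, hs, eq_top_iff.2 fun y _ => ?_⟩⟩
      have h' : Submodule.span k {y | ∃ f, ∃ x ∈ s, y = ρ f x} ≤
          (Submodule.span (S k ι) s).restrictScalars k := Submodule.span_le.2 (by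
        rintro _ ⟨f, x, hx, rfl⟩
        exact Submodule.smul_mem (Submodule.span (S k ι) s) f (Submodule.subset_span hx))
      exact h' (h ▸ Submodule.mem_top)
    π := π
    π_self := h1
    π_ne := h2
    sum_π := h3
    π_X := h4
    fer_smul := h5 }

end Pool.Agent.Tate
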