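import Pool.Agent.P.MP_2ce3e7_ag.Pull

/-! External products. -/

set_option autoImplicit false

noncomputable section

namespace Pool.Agent.Tate

open MvPolynomial TensorProduct

variable {m : ℕ} {k ι κ : Type} [Field k]

theorem boxHom_inl (M : GM m k ι) (N : GM m k κ) (f : S k ι) (x : M.M) (y : N.M) :
    boxHom M N (rn Sum.inl f) (x ⊗ₜ y) = (f • x) ⊗ₜ y := by
  have h : (aeval fun v : (ι ⊕ κ) × Fin 3 =>
      Sum.elim (fun i => (X (i, v.2) : S k ι) ⊗ₜ[k] (1 : S k κ))
        (fun i => (1 : S k ι) ⊗ₜ[k] (X (i, v.2) : S k κ)) v.1).comp (rn Sum.inl) =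
      Algebra.TensorProduct.includeLeft := by
    apply MvPolynomial.algHom_ext
    intro v
    simp [rn]
  have h' := DFunLike.congr_fun h f
  rw [AlgHom.comp_apply] at h'
  simp only [boxHom, boxAct, GM.act, AlgHom.comp_apply, h']
  simp [Module.endTensorEndAlgHom_apply]

theorem boxHom_inr (M : GM m k ι) (N : GM m k κ) (f : S k κ) (x : M.M) (y : N.M) :
    boxHom M N (rn Sum.inr f) (x ⊗ₜ y) = x ⊗ₜ (f • y) := by
  have h : (aeval fun v : (ι ⊕ κ) × Fin 3 =>
      Sum.elim (fun i => (X (i, v.2) : S k ι) ⊗ₜ[k] (1 : S k κ))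
        (fun i => (1 : S k ι) ⊗ₜ[k] (X (i, v.2) : S k κ)) v.1).comp (rn Sum.inr) =
      Algebra.TensorProduct.includeRight := by
    apply MvPolynomial.algHom_ext
    intro v
    simp [rn]
  have h' := DFunLike.congr_fun h f
  rw [AlgHom.comp_apply] at h'
  simp only [boxHom, boxAct, GM.act, AlgHom.comp_apply, h']
  simp [Module.endTensorEndAlgHom_apply]

theorem boxA_mul (M : GM m k ι) (N : GM m k κ) (f : S k ι) (g : S k κ) (x : M.M) (y : N.M) :
    boxHom M N (rn Sum.inl f * rn Sum.inr g) (x ⊗ₜ y) = (f • x) ⊗ₜ (g • y) := by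
  rw [map_mul, Module.End.mul_apply, boxHom_inr, boxHom_inl]

theorem boxA_X_inl (M : GM m k ι) (N : GM m k κ) (i : ι) (a : Fin 3) (x : M.M) (y : N.M) :
    boxHom M N (X (Sum.inl i, a)) (x ⊗ₜ y) = ((X (i, a) : S k ι) • x) ⊗ₜ y := by
  rw [← boxHom_inl, rn_X]

theorem boxA_X_inr (M : GM m k ι) (N : GM m k κ) (i : κ) (a : Fin 3) (x : M.M) (y : N.M) :
    boxHom M N (X (Sum.inr i, a)) (x ⊗ₜ y) = x ⊗ₜ ((X (i, a) : S k κ) • y) := by
  rw [← boxHom_inr, rn_X]

theorem boxA_ind {p : S k (ι ⊕ κ) → Prop}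
    (hm : ∀ (f : S k ι) (g : S k κ), p (rn Sum.inl f * rn Sum.inr g))
    (ha : ∀ F G, p F → p G → p (F + G)) (F : S k (ι ⊕ κ)) : p F := by
  have key : ∀ (f : S k ι) (g : S k κ), p (F * (rn Sum.inl f * rn Sum.inr g)) := by
    induction F using MvPolynomial.induction_on with
    | C a =>
      intro f g
      have : (C a : S k (ι ⊕ κ)) = rn Sum.inl (C a : S k ι) := by simp [rn]
      rw [this, ← mul_assoc, ← map_mul]
      exact hm _ _
    | add F G hF hG =>
      intro f g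
      rw [add_mul]
      exact ha _ _ (hF f g) (hG f g)
    | mul_X F v hF =>
      intro f g
      obtain ⟨i | i, a⟩ := v
      · have := hF (X (i, a) * f) g
        rwa [map_mul, rn_X, mul_assoc, ← mul_assoc F] at this
      · have := hF f (X (i, a) * g)
        rwa [map_mul, rn_X, mul_left_comm (rn Sum.inl f), ← mul_assoc F] at this
  simpa using key 1 1

theorem isBox_of {M : GM m k ι} {N : GM m k κ} {P : GM m k (ι ⊕ κ)}
    (j : M.M ⊗[k] N.M ≃ₗ[k] P.M)
    (h1 : ∀ i a x y, j (((X (i, a) : S k ι) • x) ⊗ₜ y) =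
      (X (Sum.inl i, a) : S k (ι ⊕ κ)) • j (x ⊗ₜ y))
    (h2 : ∀ i a x y, j (x ⊗ₜ ((X (i, a) : S k κ) • y)) =
      (X (Sum.inr i, a) : S k (ι ⊕ κ)) • j (x ⊗ₜ y))
    (h3 : ∀ d x y, P.π d (j (x ⊗ₜ y)) = j (M.π (d ∘ Sum.inl) x ⊗ₜ N.π (d ∘ Sum.inr) y)) :
    IsBox M N P j := by
  have hX : ∀ v t, j (boxHom M N (X v) t) = (X v : S k (ι ⊕ κ)) • j t := by
    intro v t
    induction t using TensorProduct.induction_on with
    | zero => simp
    | tmul x y =>
      obtain ⟨i | i, a⟩ := v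
      · rw [boxA_X_inl, h1]
      · rw [boxA_X_inr, h2]
    | add s t hs ht => simp only [map_add, smul_add, hs, ht]
  constructor
  · intro f
    induction f using MvPolynomial.induction_on with
    | C a =>
      intro t
      rw [P.C_smul, ← map_smul, ← MvPolynomial.algebraMap_eq, AlgHom.commutes]
      rfl
    | add f g hf hg =>
      intro t
      rw [map_add, LinearMap.add_apply, map_add, hf, hg, add_smul]
    | mul_X f v hf =>
      intro t
      rw [map_mul, Module.End.mul_apply, hf, hX, mul_smul]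
  · intro d t
    induction t using TensorProduct.induction_on with
    | zero => simp
    | tmul x y => rw [h3, TensorProduct.map_tmul]
    | add s t hs ht => simp only [map_add, hs, ht]

theorem boxA_wt_ll (d : ι ⊕ κ → ℤ) (i : ι) (a : Fin 3) :
    (d + wt (Sum.inl i, a)) ∘ Sum.inl = d ∘ Sum.inl + wt (i, a) := by
  funext l
  by_cases h : l = i <;> simp [wt, Set.indicator, h]

theorem boxA_wt_lr (d : ι ⊕ κ → ℤ) (i : ι) (a : Fin 3) :
    (d + wt (Sum.inl i, a)) ∘ Sum.inr = d ∘ Sum.inr := by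
  funext l
  simp [wt, Set.indicator]

theorem boxA_wt_rl (d : ι ⊕ κ → ℤ) (i : κ) (a : Fin 3) :
    (d + wt (Sum.inr i, a)) ∘ Sum.inl = d ∘ Sum.inl := by
  funext l
  simp [wt, Set.indicator]

theorem boxA_wt_rr (d : ι ⊕ κ → ℤ) (i : κ) (a : Fin 3) :
    (d + wt (Sum.inr i, a)) ∘ Sum.inr = d ∘ Sum.inr + wt (i, a) := by
  funext l
  by_cases h : l = i <;> simp [wt, Set.indicator, h]

theorem boxA_fg (M : GM m k ι) (N : GM m k κ) : ∃ s : Set (M.M ⊗[k] N.M), s.Finite ∧
    Submodule.span k {y | ∃ f, ∃ x ∈ s, y = boxHom M N f x} = ⊤ := by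
  obtain ⟨s, hs, hs'⟩ := Submodule.fg_def.1 M.fg.fg_top
  obtain ⟨t, ht, ht'⟩ := Submodule.fg_def.1 N.fg.fg_top
  refine ⟨Set.image2 (fun x y => x ⊗ₜ[k] y) s t, hs.image2 _ ht, eq_top_iff.2 fun z _ => ?_⟩
  set W := Submodule.span k
    {y | ∃ f, ∃ x ∈ Set.image2 (fun x y => x ⊗ₜ[k] y) s t, y = boxHom M N f x} with hW
  have H2 : ∀ x ∈ s, ∀ f : S k ι, ∀ y ∈ Submodule.span (S k κ) t, ∀ g : S k κ,
      (f • x) ⊗ₜ[k] (g • y) ∈ W := by
    intro x hx f y hy
    induction hy using Submodule.span_induction with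
    | mem y hy =>
      intro g
      exact Submodule.subset_span ⟨_, _, Set.mem_image2_of_mem hx hy, (boxA_mul M N f g x y).symm⟩
    | zero => intro g; simp
    | add y y' _ _ h h' =>
      intro g
      rw [smul_add, tmul_add]
      exact W.add_mem (h g) (h' g)
    | smul a y _ h =>
      intro g
      rw [smul_smul]
      exact h _
  have H3 : ∀ x ∈ Submodule.span (S k ι) s, ∀ (f : S k ι) (y : N.M), (f • x) ⊗ₜ[k] y ∈ W := by
    intro x hx
    induction hx using Submodule.span_induction with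
    | mem x hx =>
      intro f y
      have := H2 x hx f y (ht' ▸ Submodule.mem_top) 1
      rwa [one_smul] at this
    | zero => intro f y; simp
    | add x x' _ _ h h' =>
      intro f y
      rw [smul_add, add_tmul]
      exact W.add_mem (h f y) (h' f y)
    | smul a x _ h =>
      intro f y
      rw [smul_smul]
      exact h _ y
  induction z using TensorProduct.induction_on with
  | zero => exact W.zero_mem
  | tmul x y =>
    have := H3 x (hs' ▸ Submodule.mem_top) 1 y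
    rwa [one_smul] at this
  | add a b ha hb => exact W.add_mem (ha Submodule.mem_top) (hb Submodule.mem_top)

theorem boxA_ne (M : GM m k ι) (N : GM m k κ) (d e : ι ⊕ κ → ℤ) (t : M.M ⊗[k] N.M) (h : d ≠ e) :
    TensorProduct.map (M.π (d ∘ Sum.inl)) (N.π (d ∘ Sum.inr))
      (TensorProduct.map (M.π (e ∘ Sum.inl)) (N.π (e ∘ Sum.inr)) t) = 0 := by
  induction t using TensorProduct.induction_on with
  | zero => simp
  | tmul x y =>
    rw [TensorProduct.map_tmul, TensorProduct.map_tmul]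
    by_cases h1 : d ∘ Sum.inl = e ∘ Sum.inl
    · have h2 : d ∘ Sum.inr ≠ e ∘ Sum.inr := fun h2 => h (funext fun l => by
        rcases l with l | l
        · exact congrFun h1 l
        · exact congrFun h2 l)
      rw [N.π_ne _ _ _ h2, tmul_zero]
    · rw [M.π_ne _ _ _ h1, zero_tmul]
  | add a b ha hb => simp only [map_add, ha, hb, add_zero]

theorem boxA_sum (M : GM m k ι) (N : GM m k κ) (t : M.M ⊗[k] N.M) :
    ∃ s : Finset (ι ⊕ κ → ℤ),
      ∑ d ∈ s, TensorProduct.map (M.π (d ∘ Sum.inl)) (N.π (d ∘ Sum.inr)) t = t := by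
  classical
  have mono : ∀ (t : M.M ⊗[k] N.M) (s s' : Finset (ι ⊕ κ → ℤ)), s ⊆ s' →
      ∑ d ∈ s, TensorProduct.map (M.π (d ∘ Sum.inl)) (N.π (d ∘ Sum.inr)) t = t →
      ∑ d ∈ s', TensorProduct.map (M.π (d ∘ Sum.inl)) (N.π (d ∘ Sum.inr)) t = t := by
    intro t s s' hs h
    refine ((Finset.sum_subset hs fun d _ hd => ?_).symm).trans h
    rw [← h, map_sum]
    exact Finset.sum_eq_zero fun e he => boxA_ne M N d e t fun h => hd (h ▸ he)
  induction t using TensorProduct.induction_on with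
  | zero => exact ⟨∅, rfl⟩
  | tmul x y =>
    obtain ⟨s, hs⟩ := M.sum_π x
    obtain ⟨s', hs'⟩ := N.sum_π y
    refine ⟨(s ×ˢ s').image fun p => Sum.elim p.1 p.2, ?_⟩
    rw [Finset.sum_image]
    · simp only [Sum.elim_comp_inl, Sum.elim_comp_inr, TensorProduct.map_tmul]
      rw [Finset.sum_product]
      simp only [← tmul_sum, hs']
      rw [← sum_tmul, hs]
    · intro p _ q _ h
      exact Prod.ext (funext fun l => congrFun h (Sum.inl l))
        (funext fun l => congrFun h (Sum.inr l))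
  | add a b ha hb =>
    obtain ⟨s, hs⟩ := ha
    obtain ⟨s', hs'⟩ := hb
    refine ⟨s ∪ s', ?_⟩
    simp only [map_add, Finset.sum_add_distrib]
    rw [mono a s _ Finset.subset_union_left hs, mono b s' _ Finset.subset_union_right hs']

theorem exists_isBox (M : GM m k ι) (N : GM m k κ) : ∃ P j, IsBox M N P j := by
  refine ⟨GM.ofRep (M.M ⊗[k] N.M) (boxHom M N)
    (fun d => TensorProduct.map (M.π (d ∘ Sum.inl)) (N.π (d ∘ Sum.inr))) (boxA_fg M N)
    (fun d t => ?_) (boxA_ne M N) (boxA_sum M N) (fun v d t => ?_) (fun i t => ?_),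
    LinearEquiv.refl k _, fun _ _ => rfl, fun _ _ => rfl⟩
  · induction t using TensorProduct.induction_on with
    | zero => simp
    | tmul x y => simp only [TensorProduct.map_tmul, M.π_self, N.π_self]
    | add a b ha hb => simp only [map_add, ha, hb]
  · induction t using TensorProduct.induction_on with
    | zero => simp
    | tmul x y =>
      obtain ⟨i | i, a⟩ := v
      · simp only [boxA_X_inl, TensorProduct.map_tmul, boxA_wt_ll, boxA_wt_lr, M.π_X]
      · simp only [boxA_X_inr, TensorProduct.map_tmul, boxA_wt_rl, boxA_wt_rr, N.π_X]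
    | add a b ha hb => simp only [map_add, ha, hb]
  · induction t using TensorProduct.induction_on with
    | zero => simp
    | tmul x y =>
      rcases i with i | i
      · rw [← rn_fer Sum.inl, boxHom_inl, M.fer_smul, zero_tmul]
      · rw [← rn_fer Sum.inr, boxHom_inr, N.fer_smul, tmul_zero]
    | add a b ha hb => simp only [map_add, ha, hb, add_zero]

theorem boxA_sec {M : GM m k ι} {J : Ideal (S k ι)} {n : ι → ℤ} {x : M.M} (hx : IsCyc J n M x) :
    ∃ σ : M.M →ₗ[k] S k ι, ∀ f : S k ι, σ (f • x) - f ∈ J := by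
  let ev : S k ι →ₗ[k] M.M := (LinearMap.toSpanSingleton (S k ι) M.M x).restrictScalars k
  have hev : LinearMap.range ev = ⊤ := LinearMap.range_eq_top.2 fun y => by
    obtain ⟨f, hf⟩ := hx.gen y
    exact ⟨f, hf.symm⟩
  obtain ⟨σ, hσ⟩ := ev.exists_rightInverse_of_surjective hev
  refine ⟨σ, fun f => (hx.ann _).1 ?_⟩
  have h : σ (f • x) • x = f • x := DFunLike.congr_fun hσ (f • x)
  rw [sub_smul, h, sub_self]

theorem IsBox.cyc {M : GM m k ι} {N : GM m k κ} {P : GM m k (ι ⊕ κ)}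
    {j : M.M ⊗[k] N.M ≃ₗ[k] P.M} (h : IsBox M N P j) {J : Ideal (S k ι)} {J' : Ideal (S k κ)}
    {n : ι → ℤ} {n' : κ → ℤ} {x : M.M} {y : N.M} (hx : IsCyc J n M x) (hy : IsCyc J' n' N y) :
    IsCyc (J.map (rn Sum.inl) ⊔ J'.map (rn Sum.inr)) (Sum.elim n n') P (j (x ⊗ₜ y)) := by
  refine ⟨?_, fun z => ?_, fun F => ⟨fun hF => ?_, fun hF => ?_⟩⟩
  · rw [h.π, TensorProduct.map_tmul]
    exact congrArg j (congrArg₂ _ hx.deg hy.deg)
  · obtain ⟨t, rfl⟩ := j.surjective z
    induction t using TensorProduct.induction_on with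
    | zero => exact ⟨0, by simp⟩
    | tmul x' y' =>
      obtain ⟨f, rfl⟩ := hx.gen x'
      obtain ⟨g, rfl⟩ := hy.gen y'
      exact ⟨_, by rw [← h.smul, boxA_mul]⟩
    | add a b ha hb =>
      obtain ⟨f, hf⟩ := ha
      obtain ⟨g, hg⟩ := hb
      exact ⟨f + g, by rw [map_add, hf, hg, add_smul]⟩
  · set I : Ideal (S k (ι ⊕ κ)) := J.map (rn Sum.inl) ⊔ J'.map (rn Sum.inr) with hI
    obtain ⟨σ, hσ⟩ := boxA_sec hx
    obtain ⟨τ, hτ⟩ := boxA_sec hy
    let Φ : M.M ⊗[k] N.M →ₗ[k] S k (ι ⊕ κ) := TensorProduct.lift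
      ((LinearMap.mul k (S k (ι ⊕ κ))).compl₁₂ ((rn Sum.inl).toLinearMap ∘ₗ σ)
        ((rn Sum.inr).toLinearMap ∘ₗ τ))
    have hΦ : ∀ G : S k (ι ⊕ κ), Φ (boxHom M N G (x ⊗ₜ y)) - G ∈ I := by
      refine boxA_ind (fun f g => ?_) fun F G hF hG => ?_
      · rw [boxA_mul]
        have e : Φ ((f • x) ⊗ₜ (g • y)) = rn Sum.inl (σ (f • x)) * rn Sum.inr (τ (g • y)) := rfl
        have h1 : rn Sum.inl (σ (f • x) - f) ∈ I :=
          Ideal.mem_sup_left (Ideal.mem_map_of_mem _ (hσ f))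
        have h2 : rn Sum.inr (τ (g • y) - g) ∈ I :=
          Ideal.mem_sup_right (Ideal.mem_map_of_mem _ (hτ g))
        rw [map_sub] at h1 h2
        rw [e]
        exact Ideal.mul_sub_mul_mem I h1 h2
      · rw [map_add, LinearMap.add_apply, map_add, add_sub_add_comm]
        exact I.add_mem hF hG
    have h0 : boxHom M N F (x ⊗ₜ y) = 0 := j.map_eq_zero_iff.1 ((h.smul F _).trans hF)
    have := hΦ F
    rwa [h0, map_zero, zero_sub, I.neg_mem_iff] at this
  · have hle : J.map (rn Sum.inl) ⊔ J'.map (rn Sum.inr) ≤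
        LinearMap.ker (LinearMap.toSpanSingleton (S k (ι ⊕ κ)) P.M (j (x ⊗ₜ y))) := by
      refine sup_le (Ideal.map_le_iff_le_comap.2 fun f hf => ?_)
        (Ideal.map_le_iff_le_comap.2 fun f hf => ?_)
      · rw [Ideal.mem_comap, LinearMap.mem_ker, LinearMap.toSpanSingleton_apply]
        rw [← h.smul, boxHom_inl, (hx.ann f).2 hf, zero_tmul, map_zero]
      · rw [Ideal.mem_comap, LinearMap.mem_ker, LinearMap.toSpanSingleton_apply]
        rw [← h.smul, boxHom_inr, (hy.ann f).2 hf, tmul_zero, map_zero]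
    exact hle hF

variable [Fintype ι] [Fintype κ]

theorem IsBox.hilb_eq {M : GM m k ι} {N : GM m k κ} {P : GM m k (ι ⊕ κ)}
    {j : M.M ⊗[k] N.M ≃ₗ[k] P.M} (h : IsBox M N P j) (d : ι ⊕ κ → ℤ) :
    hilb P d = hilb M (d ∘ Sum.inl) * hilb N (d ∘ Sum.inr) := by
  have h1 : LinearMap.range (P.π d) = (LinearMap.range
      (TensorProduct.map (M.π (d ∘ Sum.inl)) (N.π (d ∘ Sum.inr)))).map
        (j : M.M ⊗[k] N.M →ₗ[k] P.M) := by
    ext z
    constructor
    · rintro ⟨z, rfl⟩
      obtain ⟨t, rfl⟩ := j.surjective z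
      exact ⟨_, ⟨t, rfl⟩, (h.π d t).symm⟩
    · rintro ⟨_, ⟨t, rfl⟩, rfl⟩
      exact ⟨j t, h.π d t⟩
  unfold hilb
  rw [h1, LinearEquiv.finrank_map_eq, TensorProduct.range_map, ← TensorProduct.range_mapIncl,
    LinearMap.finrank_range_of_inj, Module.finrank_tensorProduct]
  exact TensorProduct.map_injective_of_flat_flat _ _ (Submodule.injective_subtype _)
    (Submodule.injective_subtype _)

end Pool.Agent.Tate
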