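import Pool.Agent.P.MP_2ce3e7_ag.Ops

/-! Commutativity and associativity of the external product. -/

set_option autoImplicit false

noncomputable section

namespace Pool.Agent.Tate

open MvPolynomial

variable {m : ℕ} {k ι κ μ ν : Type} [Field k] [Fintype ι] [Fintype κ] [Fintype μ] [Fintype ν]

/-- induction over the classes of cyclic modules -/
theorem boxB_ind {p : G m k ι → Prop}
    (h1 : ∀ J n, GrI J → Fer m k ι ≤ J → p (cy m J n)) (h0 : p 0)
    (h2 : ∀ x y, p x → p y → p (x + y)) (h3 : ∀ (c : ℂ) x, p x → p (c • x)) (x : G m k ι) :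
    p x := by
  refine G.ind (fun M => ?_) h0 h2 h3 x
  obtain ⟨n, P, s, hP, -, e⟩ := dv M
  rw [e]
  exact Finset.sum_induction _ p h2 h0 fun i _ =>
    h1 _ _ (hP i).1 (M.Fer_le_ann.trans (hP i).2.2)

omit [Fintype ι] [Fintype κ] [Fintype μ] in
theorem boxB_map_map (f : ι → κ) (g : κ → μ) (J : Ideal (S k ι)) :
    (J.map (rn f)).map (rn g) = J.map (rn (g ∘ f)) := by
  rw [Ideal.map_mapₐ]
  refine congrArg (fun φ : S k ι →ₐ[k] S k μ => J.map φ) (algHom_ext fun v => ?_)
  rw [AlgHom.comp_apply, rn_X, rn_X, rn_X]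
  rfl

omit [Fintype ι] [Fintype κ] in
theorem boxB_gr {J : Ideal (S k ι)} {J' : Ideal (S k κ)} (hJ : GrI J) (hJ' : GrI J') :
    GrI (J.map (rn Sum.inl) ⊔ J'.map (rn Sum.inr) : Ideal (S k (ι ⊕ κ))) :=
  GrW.sup (hJ.map_rn Sum.inl_injective) (hJ'.map_rn Sum.inr_injective)

omit [Fintype ι] [Fintype κ] in
theorem boxB_fer {J : Ideal (S k ι)} {J' : Ideal (S k κ)} (hF : Fer m k ι ≤ J)
    (hF' : Fer m k κ ≤ J') : Fer m k (ι ⊕ κ) ≤ J.map (rn Sum.inl) ⊔ J'.map (rn Sum.inr) := by
  rw [← Fer_sum]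
  exact sup_le_sup (Ideal.map_mono hF) (Ideal.map_mono hF')

theorem box_comm (x : G m k ι) (y : G m k κ) :
    reG (Equiv.sumComm ι κ) (boxG x y) = boxG y x := by
  induction x using boxB_ind with
  | h0 => simp
  | h2 x x' h h' => simp only [map_add, LinearMap.add_apply, h, h']
  | h3 c x h => simp only [map_smul, LinearMap.smul_apply, h]
  | h1 J n hJ hF =>
  induction y using boxB_ind with
  | h0 => simp
  | h2 x x' h h' => simp only [map_add, LinearMap.add_apply, h, h']
  | h3 c x h => simp only [map_smul, LinearMap.smul_apply, h]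
  | h1 J' n' hJ' hF' =>
  rw [boxG_cy hJ hF hJ' hF', boxG_cy hJ' hF' hJ hF, reG_cy _ (boxB_gr hJ hJ') (boxB_fer hF hF'),
    Ideal.map_sup, boxB_map_map, boxB_map_map, sup_comm]
  exact congrArg _ (funext fun i => by cases i <;> rfl)

theorem box_assoc (x : G m k ι) (y : G m k κ) (z : G m k μ) :
    reG (Equiv.sumAssoc ι κ μ) (boxG (boxG x y) z) = boxG x (boxG y z) := by
  induction x using boxB_ind with
  | h0 => simp
  | h2 x x' h h' => simp only [map_add, LinearMap.add_apply, h, h']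
  | h3 c x h => simp only [map_smul, LinearMap.smul_apply, h]
  | h1 J n hJ hF =>
  induction y using boxB_ind with
  | h0 => simp
  | h2 x x' h h' => simp only [map_add, LinearMap.add_apply, h, h']
  | h3 c x h => simp only [map_smul, LinearMap.smul_apply, h]
  | h1 J' n' hJ' hF' =>
  induction z using boxB_ind with
  | h0 => simp
  | h2 x x' h h' => simp only [map_add, h, h']
  | h3 c x h => simp only [map_smul, h]
  | h1 J₂ n₂ hJ₂ hF₂ =>
  rw [boxG_cy hJ hF hJ' hF', boxG_cy hJ' hF' hJ₂ hF₂,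
    boxG_cy (boxB_gr hJ hJ') (boxB_fer hF hF') hJ₂ hF₂,
    boxG_cy hJ hF (boxB_gr hJ' hJ₂) (boxB_fer hF' hF₂),
    reG_cy _ (boxB_gr (boxB_gr hJ hJ') hJ₂) (boxB_fer (boxB_fer hF hF') hF₂)]
  simp only [Ideal.map_sup, boxB_map_map, sup_assoc]
  exact congrArg _ (funext fun i => by rcases i with i | i | i <;> rfl)

theorem box_ssc (x : G m k ι) (y : G m k κ) (z : G m k μ) (w : G m k ν) :
    reG (Equiv.sumSumSumComm ι κ μ ν) (boxG (boxG x y) (boxG z w)) =
      boxG (boxG x z) (boxG y w) := by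
  induction x using boxB_ind with
  | h0 => simp
  | h2 x x' h h' => simp only [map_add, LinearMap.add_apply, h, h']
  | h3 c x h => simp only [map_smul, LinearMap.smul_apply, h]
  | h1 J n hJ hF =>
  induction y using boxB_ind with
  | h0 => simp
  | h2 x x' h h' => simp only [map_add, LinearMap.add_apply, h, h']
  | h3 c x h => simp only [map_smul, LinearMap.smul_apply, h]
  | h1 J' n' hJ' hF' =>
  induction z using boxB_ind with
  | h0 => simp
  | h2 x x' h h' => simp only [map_add, LinearMap.add_apply, h, h']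
  | h3 c x h => simp only [map_smul, LinearMap.smul_apply, h]
  | h1 J₂ n₂ hJ₂ hF₂ =>
  induction w using boxB_ind with
  | h0 => simp
  | h2 x x' h h' => simp only [map_add, h, h']
  | h3 c x h => simp only [map_smul, h]
  | h1 J₃ n₃ hJ₃ hF₃ =>
  rw [boxG_cy hJ hF hJ' hF', boxG_cy hJ₂ hF₂ hJ₃ hF₃, boxG_cy hJ hF hJ₂ hF₂,
    boxG_cy hJ' hF' hJ₃ hF₃,
    boxG_cy (boxB_gr hJ hJ') (boxB_fer hF hF') (boxB_gr hJ₂ hJ₃) (boxB_fer hF₂ hF₃),
    boxG_cy (boxB_gr hJ hJ₂) (boxB_fer hF hF₂) (boxB_gr hJ' hJ₃) (boxB_fer hF' hF₃),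
    reG_cy _ (boxB_gr (boxB_gr hJ hJ') (boxB_gr hJ₂ hJ₃))
      (boxB_fer (boxB_fer hF hF') (boxB_fer hF₂ hF₃))]
  simp only [Ideal.map_sup, boxB_map_map]
  rw [sup_sup_sup_comm]
  exact congrArg _ (funext fun i => by rcases i with (i | i) | i | i <;> rfl)

omit [Fintype ι] in
theorem boxB_Fer_empty [IsEmpty ι] : Fer m k ι = ⊥ := by
  rw [Fer, Set.range_eq_empty, Ideal.span_empty]

theorem box_one [IsEmpty κ] (hm : m ≠ 0) (x : G m k ι) :
    reG (Equiv.sumEmpty ι κ) (boxG x (cy m (Fer m k κ) 0)) = x := by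
  induction x using boxB_ind with
  | h0 => simp
  | h2 x x' h h' => simp only [map_add, LinearMap.add_apply, h, h']
  | h3 c x h => simp only [map_smul, LinearMap.smul_apply, h]
  | h1 J n hJ hF =>
  rw [boxG_cy hJ hF grI_Fer le_rfl, reG_cy _ (boxB_gr hJ grI_Fer) (boxB_fer hF le_rfl),
    boxB_Fer_empty (ι := κ), Ideal.map_bot, sup_bot_eq, boxB_map_map]
  have e : (rn (⇑(Equiv.sumEmpty ι κ) ∘ Sum.inl) : S k ι →ₐ[k] S k ι) = AlgHom.id k _ :=
    algHom_ext fun v => by rw [rn_X]; rfl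
  rw [e, Ideal.map_idₐ]
  rfl

theorem cls_empty [IsEmpty ι] (M : GM m k ι) :
    cls M = (hilb M 0 : ℂ) • cy m (Fer m k ι) 0 := by
  have hπ : ∀ (P : GM m k ι) d x, P.π d x = x := fun P d x => by
    have := P.sum_of_supp x (s := {d}) fun e _ => Finset.mem_singleton.2 (Subsingleton.elim _ _)
    rwa [Finset.sum_singleton] at this
  obtain ⟨N, y, hy, e⟩ := exists_cy (m := m) (k := k) (ι := ι) grI_Fer le_rfl 0
  have hr : LinearMap.range (M.π 0) = ⊤ := LinearMap.range_eq_top.2 fun x => ⟨x, hπ M 0 x⟩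
  have hfin : Module.Finite k M.M := by
    have := M.finite_piece 0
    rw [hr] at this
    exact Module.Finite.equiv Submodule.topEquiv
  have hh : hilb M 0 = Module.finrank k M.M := by rw [hilb, hr, finrank_top]
  let b := Module.finBasis k M.M
  let j : M.M →ₗ[k] (N.pw (Fin (Module.finrank k M.M))).M :=
    LinearMap.pi fun a => (b.coord a).smulRight y
  have hj : ∀ x a, j x a = b.repr x a • y := fun _ _ => rfl
  have hb : Function.Bijective j := by
    constructor
    · rw [injective_iff_map_eq_zero]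
      intro x hx
      refine b.ext_elem fun a => ?_
      have h1 : b.repr x a • y = 0 := congrFun hx a
      rw [← N.C_smul, hy.ann, boxB_Fer_empty, Ideal.mem_bot, C_eq_zero] at h1
      rw [h1, map_zero, Finsupp.zero_apply]
    · intro z
      choose f hf using fun a => hy.gen (z a)
      refine ⟨b.equivFun.symm fun a => coeff 0 (f a), funext fun a => ?_⟩
      rw [hj, hf a, ← N.C_smul, ← b.equivFun_apply, LinearEquiv.apply_symm_apply,
        ← eq_C_of_isEmpty]
  rw [cls_iso (Hom.mk' j (fun f x => ?_) fun d x => by rw [hπ, hπ]) hb, cls_pw, e, hh,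
    Fintype.card_fin]
  rw [eq_C_of_isEmpty f, M.C_smul, GM.C_smul, map_smul]

end Pool.Agent.Tate
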