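import Pool.Agent.P.MP_2ce3e7_ag.Box
import Pool.Agent.P.MP_2ce3e7_ag.Avg

/-! Twists by the group, shifts, Frobenius maps and renamings. -/

set_option autoImplicit false

noncomputable section

namespace Pool.Agent.Tate

open MvPolynomial

variable {m : ℕ} {k ι κ : Type} [Field k]

theorem Rt.ne [NeZero m] (ζ : Rt m k) : (m : k) ≠ 0 := by
  exact ζ.2.neZero'.ne

theorem c3_pow (ζ : Rt m k) (g : ι → Fin 3 → ZMod m) (v : ι × Fin 3) : c3 ζ g v ^ m = 1 := by
  rw [c3, ← pow_mul, mul_comm, pow_mul, ζ.2.pow_eq_one, one_pow]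

theorem Ops_pow_mod (ζ : Rt m k) (n : ℕ) : ζ.1 ^ (n % m) = ζ.1 ^ n := by
  conv_rhs => rw [← Nat.mod_add_div n m, pow_add, pow_mul, ζ.2.pow_eq_one, one_pow, mul_one]

theorem Ops_pow_val_add [NeZero m] (ζ : Rt m k) (a b : ZMod m) :
    ζ.1 ^ (a + b).val = ζ.1 ^ a.val * ζ.1 ^ b.val := by
  rw [ZMod.val_add, Ops_pow_mod, pow_add]

theorem Ops_pow_val_mul [NeZero m] (ζ : Rt m k) (n : ℕ) (a : ZMod m) :
    ζ.1 ^ ((n : ZMod m) * a).val = (ζ.1 ^ a.val) ^ n := by
  induction n with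
  | zero => simp
  | succ n ih => rw [Nat.cast_succ, add_mul, one_mul, Ops_pow_val_add, ih, pow_succ]

theorem c3_add [NeZero m] (ζ : Rt m k) (g h : ι → Fin 3 → ZMod m) :
    c3 ζ (g + h) = c3 ζ g * c3 ζ h := by
  funext v
  exact Ops_pow_val_add ζ _ _

theorem c3_zero (ζ : Rt m k) : c3 ζ (0 : ι → Fin 3 → ZMod m) = 1 := by
  funext v
  simp [c3]

theorem c3_ne [NeZero m] (ζ : Rt m k) (g : ι → Fin 3 → ZMod m) (v : ι × Fin 3) :
    c3 ζ g v ≠ 0 := by
  exact pow_ne_zero _ (ζ.2.ne_zero (NeZero.ne m))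

theorem up_add (g h : ι → Ch m) : up (g + h) = up g + up h := by
  funext i j
  fin_cases j <;> simp [up]

theorem up_zero : up (0 : ι → Ch m) = 0 := by
  funext i j
  fin_cases j <;> simp [up]

/-- diagonal automorphism -/
def twD [NeZero m] (ζ : Rt m k) (g : ι → Fin 3 → ZMod m) : PD m k ι ι where
  τ := id
  inj := Function.injective_id
  c := c3 ζ g
  c_ne := c3_ne ζ g
  q _ := 1
  q_pos _ := one_pos
  o := 0
  fer := by
    intro i
    have h : phi id (c3 ζ g) (fun _ => 1) = sc (c3 ζ g) := by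
      ext1 v
      simp [phi, sc]
    rw [h, sc_fer (c3_pow ζ g)]
    exact fer_mem i

theorem twD_φ [NeZero m] (ζ : Rt m k) (g : ι → Fin 3 → ZMod m) : (twD ζ g).φ = sc (c3 ζ g) := by
  ext1 v
  simp [PD.φ_X, twD, sc_X]

/-- renaming with a shift -/
def reD (m : ℕ) (k : Type) [Field k] (f : ι → κ) (hf : Function.Injective f) (o : κ → ℤ) :
    PD m k ι κ where
  τ := f
  inj := hf
  c _ := 1
  c_ne _ := one_ne_zero
  q _ := 1
  q_pos _ := one_pos
  o := o
  fer := by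
    intro i
    have h : phi f (fun _ => (1 : k)) (fun _ => 1) = rn f := by
      ext1 v
      simp [phi, rn_X]
    rw [h, rn_fer]
    exact fer_mem _

theorem reD_φ (f : ι → κ) (hf : Function.Injective f) (o : κ → ℤ) :
    (reD m k f hf o).φ = rn f := by
  ext1 v
  simp [PD.φ_X, reD, rn_X]

/-- Frobenius map -/
def frD (m : ℕ) (k : Type) [Field k] (p : ℕ) [Fact p.Prime] [CharP k p] (s : ι → ℕ) :
    PD m k ι ι where
  τ := id
  inj := Function.injective_id
  c _ := 1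
  c_ne _ := one_ne_zero
  q i := p ^ s i
  q_pos _ := pow_pos (Fact.out : p.Prime).pos _
  o := 0
  fer := by
    intro i
    have h : phi id (fun _ => (1 : k)) (fun i => p ^ s i) (fer m k i) = fer m k i ^ p ^ s i := by
      simp only [fer, phi, map_sub, map_add, map_pow, aeval_X, map_one, one_mul, id]
      rw [sub_pow_char_pow, add_pow_char_pow]
      simp only [← pow_mul, mul_comm]
    rw [h]
    exact Ideal.pow_mem_of_mem _ (fer_mem i) _ (pow_pos (Fact.out : p.Prime).pos _)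

theorem Ops_tw_X [NeZero m] (ζ : Rt m k) (g : ι → Fin 3 → ZMod m) (v : ι × Fin 3) :
    (twD ζ g).φ (X v) = C (c3 ζ g v) * X v := by rw [twD_φ, sc_X]

theorem Ops_tw_val [NeZero m] (ζ : Rt m k) (g : ι → Fin 3 → ZMod m) (e : ι → ℤ) :
    (twD ζ g).val e = e := by
  funext i
  have := (twD ζ g).val_τ e i
  simpa [twD] using this

theorem Ops_re_X (f : ι → κ) (hf : Function.Injective f) (o : κ → ℤ) (v : ι × Fin 3) :
    (reD m k f hf o).φ (X v) = X (f v.1, v.2) := by rw [reD_φ, rn_X]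

theorem Ops_sh_val (n e : ι → ℤ) : (reD m k id Function.injective_id n).val e = e + n := by
  funext i
  have := (reD m k id Function.injective_id n).val_τ e i
  simpa [reD, add_comm] using this

theorem Ops_re_val (e : ι ≃ κ) (d : κ → ℤ) :
    (reD m k e.symm e.symm.injective 0).val d = d ∘ e := by
  funext i
  have := (reD m k e.symm e.symm.injective 0).val_τ d (e i)
  simpa [reD] using this

theorem Ops_fr_X (p : ℕ) [Fact p.Prime] [CharP k p] (s : ι → ℕ) (v : ι × Fin 3) :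
    (frD m k p s).φ (X v) = X v ^ p ^ s v.1 := by
  simp [PD.φ_X, frD]

theorem Ops_fr_val (p : ℕ) [Fact p.Prime] [CharP k p] (s : ι → ℕ) (e : ι → ℤ) :
    (frD m k p s).val e = fun i => (p : ℤ) ^ s i * e i := by
  funext i
  have := (frD m k p s).val_τ e i
  simpa [frD] using this

theorem Ops_tw_s [NeZero m] (ζ : Rt m k) (g : ι → Fin 3 → ZMod m) :
    Function.Surjective (twD ζ g).τ := Function.surjective_id

theorem Ops_sh_s (n : ι → ℤ) : Function.Surjective (reD m k id Function.injective_id n).τ :=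
  Function.surjective_id

theorem Ops_re_s (e : ι ≃ κ) : Function.Surjective (reD m k e.symm e.symm.injective 0).τ :=
  e.symm.surjective

theorem Ops_fr_s (p : ℕ) [Fact p.Prime] [CharP k p] (s : ι → ℕ) :
    Function.Surjective (frD m k p s).τ := Function.surjective_id

theorem Ops_PD_ext {D D' : PD m k ι κ} (h1 : D.τ = D'.τ) (h2 : D.c = D'.c) (h3 : D.q = D'.q)
    (h4 : D.o = D'.o) : D = D' := by
  cases D; cases D'
  simp only at h1 h2 h3 h4
  subst h1 h2 h3 h4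
  rfl

theorem Ops_rn_rn (e : ι ≃ κ) (f : S k ι) : rn e.symm (rn e f) = f := by
  have : (rn (k := k) e.symm).comp (rn e) = AlgHom.id k _ := by
    ext1 v
    simp [rn_X]
  exact AlgHom.congr_fun this f

theorem Ops_comap_rn (e : ι ≃ κ) (J : Ideal (S k ι)) : J.comap (rn e.symm) = J.map (rn e) := by
  apply le_antisymm
  · intro f hf
    have h := Ideal.mem_map_of_mem (rn (k := k) e) (Ideal.mem_comap.1 hf)
    have h2 := Ops_rn_rn (k := k) e.symm f
    rw [Equiv.symm_symm] at h2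
    rwa [h2] at h
  · rw [Ideal.map_le_iff_le_comap]
    intro f hf
    rw [Ideal.mem_comap, Ideal.mem_comap, Ops_rn_rn]
    exact hf

variable [Fintype ι] [Fintype κ]

/-- twist by a diagonal automorphism -/
def tw3 [NeZero m] (ζ : Rt m k) (g : ι → Fin 3 → ZMod m) : Module.End ℂ (G m k ι) :=
  pullG (twD ζ g)

/-- twist by a group element -/
def tw [NeZero m] (ζ : Rt m k) (g : ι → Ch m) : Module.End ℂ (G m k ι) := tw3 ζ (up g)

/-- shift -/
def shG (n : ι → ℤ) : Module.End ℂ (G m k ι) := pullG (reD m k id Function.injective_id n)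

/-- renaming of the factors -/
def reG (e : ι ≃ κ) : G m k ι →ₗ[ℂ] G m k κ := pullG (reD m k e.symm e.symm.injective 0)

/-- Frobenius -/
def fr (p : ℕ) [Fact p.Prime] [CharP k p] (s : ι → ℕ) : Module.End ℂ (G m k ι) :=
  pullG (frD m k p s)

theorem shG_cls (n : ι → ℤ) (M : GM m k ι) : shG n (cls M) = cls (M.sh n) := by
  refine IsPull.pullG_cls (N := M.sh n) (j := LinearMap.id) (Ops_sh_s n) ⟨fun _ _ h => h, ?_, ?_, ?_⟩
  · intro f x
    have h : (reD m k id Function.injective_id n).φ = AlgHom.id k _ := by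
      ext1 v
      rw [Ops_re_X]; rfl
    rw [h]; rfl
  · intro e x
    rw [Ops_sh_val]; rfl
  · intro e x
    exact ⟨_, rfl⟩

theorem shG_cy {J : Ideal (S k ι)} (hJ : GrI J) (hF : Fer m k ι ≤ J) (n n' : ι → ℤ) :
    shG n' (cy m J n) = cy m J (n + n') := by
  obtain ⟨M, x, h, h'⟩ := exists_cy hJ hF n
  rw [h', shG_cls, (h.sh n').cls_eq]

theorem reG_cy (e : ι ≃ κ) {J : Ideal (S k ι)} (hJ : GrI J) (hF : Fer m k ι ≤ J) (n : ι → ℤ) :
    reG e (cy m J n) = cy m (J.map (rn e)) (n ∘ e.symm) := by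
  rw [reG, pullG_cy (Ops_re_s e) (fun _ => rfl) hJ hF, reD_φ, Ops_comap_rn]
  congr 1
  funext i
  simp [reD]

theorem reG_refl (x : G m k ι) : reG (Equiv.refl ι) x = x := by
  exact pullG_id (Ops_re_s _) (fun v => by rw [Ops_re_X]; rfl) (fun d => by rw [Ops_re_val]; rfl) x

theorem reG_trans {μ : Type} [Fintype μ] (e : ι ≃ κ) (e' : κ ≃ μ) (x : G m k ι) :
    reG e' (reG e x) = reG (e.trans e') x := by
  refine pullG_comp (Ops_re_s e) (Ops_re_s e') (Ops_re_s (e.trans e')) (fun v => ?_) (fun d => ?_) x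
  · rw [Ops_re_X, Ops_re_X, Ops_re_X]; rfl
  · rw [Ops_re_val, Ops_re_val, Ops_re_val]; rfl

theorem reG_symm (e : ι ≃ κ) (x : G m k ι) : reG e.symm (reG e x) = x := by
  rw [reG_trans, Equiv.self_trans_symm, reG_refl]

theorem reG_inj (e : ι ≃ κ) {x : G m k ι} (h : reG e x = 0) : x = 0 := by
  rw [← reG_symm e x, h, map_zero]

theorem reG_box {ι' κ' : Type} [Fintype ι'] [Fintype κ'] (e : ι ≃ ι') (e' : κ ≃ κ')
    (x : G m k ι) (y : G m k κ) :
    reG (e.sumCongr e') (boxG x y) = boxG (reG e x) (reG e' y) := by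
  have h : reD m k (e.sumCongr e').symm (e.sumCongr e').symm.injective 0 =
      (reD m k e.symm e.symm.injective 0).sum (reD m k e'.symm e'.symm.injective 0) := by
    apply Ops_PD_ext
    · rfl
    · funext v; rcases v with ⟨i | i, j⟩ <;> rfl
    · funext i; rcases i with i | i <;> rfl
    · funext i; rcases i with i | i <;> rfl
  rw [reG, h, pullG_sum (Ops_re_s e) (Ops_re_s e')]
  rfl

section Tw
variable [NeZero m] (ζ : Rt m k)

theorem tw3_add (g h : ι → Fin 3 → ZMod m) : tw3 ζ (g + h) = tw3 ζ g * tw3 ζ h := by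
  ext1 x
  refine (pullG_comp (Ops_tw_s ζ h) (Ops_tw_s ζ g) (Ops_tw_s ζ (g + h)) (fun v => ?_)
    (fun d => ?_) x).symm
  · rw [Ops_tw_X, Ops_tw_X, map_mul, Ops_tw_X, c3_add, algHom_C, Pi.mul_apply, map_mul, mul_assoc]
    rfl
  · rw [Ops_tw_val, Ops_tw_val, Ops_tw_val]

theorem tw3_zero : tw3 ζ (0 : ι → Fin 3 → ZMod m) = 1 := by
  ext1 x
  exact pullG_id (Ops_tw_s ζ 0) (fun v => by rw [Ops_tw_X, c3_zero]; simp) (Ops_tw_val ζ 0) x

omit [Fintype κ] in
/-- rescaling of the homogeneous components -/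
theorem Ops_scale (M : GM m k ι) (u : (ι → ℤ) → k) : ∃ j : M.M →ₗ[k] M.M,
    ∀ d x, M.π d (j x) = u d • M.π d x := by
  have h0 : ∀ x : M.M, ∃ y : M.M, ∀ d, M.π d y = u d • M.π d x := by
    intro x
    obtain ⟨s, hs⟩ := M.sum_π x
    refine ⟨∑ e ∈ s, u e • M.π e x, fun d => ?_⟩
    conv_rhs => rw [← hs]
    rw [map_sum, map_sum, Finset.smul_sum]
    refine Finset.sum_congr rfl fun e _ => ?_
    by_cases h : d = e
    · subst h; rw [map_smul]
    · rw [map_smul, M.π_ne d e x h, smul_zero, smul_zero]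
  choose j hj using h0
  have hext : ∀ x y : M.M, (∀ d, M.π d x = M.π d y) → x = y := fun x y h =>
    sub_eq_zero.1 (M.eq_zero fun d => by rw [map_sub, h, sub_self])
  refine ⟨{ toFun := j, map_add' := fun x y => hext _ _ fun d => ?_,
            map_smul' := fun a x => hext _ _ fun d => ?_ }, fun d x => hj x d⟩
  · rw [hj, map_add, map_add, hj, hj, smul_add]
  · rw [hj, RingHom.id_apply, map_smul, map_smul, hj, smul_comm]

theorem tw3_const (s : ι → ZMod m) : tw3 ζ (fun i _ => s i) = 1 := by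
  classical
  refine G.ext fun M => ?_
  have hc : ∀ i, ζ.1 ^ (s i).val ≠ 0 := fun i => pow_ne_zero _ (ζ.2.ne_zero (NeZero.ne m))
  set u : (ι → ℤ) → k := fun d => ∏ i, (ζ.1 ^ (s i).val) ^ d i with hu
  have hu0 : ∀ d, u d ≠ 0 := fun d => Finset.prod_ne_zero_iff.2 fun i _ => zpow_ne_zero _ (hc i)
  have hu1 : ∀ d (v : ι × Fin 3), u (d + wt v) = ζ.1 ^ (s v.1).val * u d := by
    intro d v
    simp only [hu, Pi.add_apply, zpow_add₀ (hc _), Finset.prod_mul_distrib, wt_apply]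
    rw [mul_comm]
    congr 1
    rw [Finset.prod_eq_single v.1]
    · simp
    · intro b _ hb; simp [hb]
    · intro h; exact absurd (Finset.mem_univ _) h
  obtain ⟨j, hj⟩ := Ops_scale M u
  have hext : ∀ x y : M.M, (∀ d, M.π d x = M.π d y) → x = y := fun x y h =>
    sub_eq_zero.1 (M.eq_zero fun d => by rw [map_sub, h, sub_self])
  refine IsPull.pullG_cls (N := M) (j := j) (Ops_tw_s ζ _) ⟨?_, ?_, ?_, ?_⟩
  · rw [injective_iff_map_eq_zero]
    intro x hx
    refine M.eq_zero fun d => ?_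
    have h := hj d x
    rw [hx, map_zero] at h
    exact (smul_eq_zero.1 h.symm).resolve_left (hu0 d)
  · refine smul_of_X _ j fun v x => hext _ _ fun d => ?_
    obtain ⟨d, rfl⟩ : ∃ d', d = d' + wt v := ⟨d - wt v, by simp⟩
    rw [hj, M.π_X, Ops_tw_X, mul_smul, M.C_smul, map_smul, M.π_X, hj, hu1, mul_smul, smul_comm (u d)]
    rfl
  · intro e x
    rw [Ops_tw_val]
    refine hext _ _ fun d => ?_
    by_cases h : d = e
    · subst h; rw [hj, M.π_self, M.π_self, hj]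
    · rw [hj, M.π_ne d e x h, M.π_ne d e _ h, smul_zero]
  · intro e x
    rw [Ops_tw_val]
    refine ⟨(u e)⁻¹ • M.π e x, hext _ _ fun d => ?_⟩
    by_cases h : d = e
    · subst h; rw [hj, map_smul, smul_smul, mul_inv_cancel₀ (hu0 d), one_smul]
    · rw [hj, map_smul, M.π_ne d e x h, smul_zero, smul_zero]

theorem tw3_eq_tw (g : ι → Fin 3 → ZMod m) :
    tw3 ζ g = tw ζ fun i => (g i 0 - g i 2, g i 1 - g i 2) := by
  have h : g = up (fun i => (g i 0 - g i 2, g i 1 - g i 2)) + fun i _ => g i 2 := by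
    funext i j
    fin_cases j <;> simp [up]
  conv_lhs => rw [h]
  rw [tw3_add, tw3_const, mul_one, tw]

theorem tw_add (g h : ι → Ch m) : tw ζ (g + h) = tw ζ g * tw ζ h := by
  rw [tw, up_add, tw3_add, tw, tw]

theorem tw_zero : tw ζ (0 : ι → Ch m) = 1 := by
  rw [tw, up_zero, tw3_zero]

theorem tw3_cy (g : ι → Fin 3 → ZMod m) {J : Ideal (S k ι)} (hJ : GrI J) (hF : Fer m k ι ≤ J)
    (n : ι → ℤ) : tw3 ζ g (cy m J n) = cy m (J.comap (sc (c3 ζ g))) n := by
  rw [tw3, pullG_cy (Ops_tw_s ζ g) (fun _ => rfl) hJ hF, twD_φ]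
  congr 1
  funext i
  simp [twD]

theorem tw_neg_cy (g : ι → Ch m) {J : Ideal (S k ι)} (hJ : GrI J) (hF : Fer m k ι ≤ J)
    (n : ι → ℤ) : tw ζ (-g) (cy m J n) = cy m (J.map (sc (c3 ζ (up g)))) n := by
  rw [tw, tw3_cy ζ _ hJ hF, comap_sc (c' := c3 ζ (up g))]
  rw [← c3_add, ← up_add, neg_add_cancel, up_zero, c3_zero]

theorem tw_cy_Fer (g : ι → Ch m) (n : ι → ℤ) :
    tw ζ g (cy m (Fer m k ι) n) = cy m (Fer m k ι) n := by
  have h := tw_neg_cy ζ (-g) (grI_Fer (m := m) (k := k) (ι := ι)) le_rfl n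
  rw [neg_neg] at h
  rw [h]
  congr 1
  rw [Fer, Ideal.map_span, ← Set.range_comp]
  congr 2
  funext i
  exact sc_fer (c3_pow ζ _) i

/-- the twist acts trivially if it only moves variables that kill the module -/
theorem tw3_cls (g : ι → Fin 3 → ZMod m) (M : GM m k ι)
    (h : ∀ v : ι × Fin 3, g v.1 v.2 ≠ 0 → (X v : S k ι) ∈ M.ann) : tw3 ζ g (cls M) = cls M := by
  refine IsPull.pullG_cls (N := M) (j := LinearMap.id) (Ops_tw_s ζ _) ⟨fun _ _ h => h, ?_, ?_, ?_⟩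
  · refine smul_of_X _ LinearMap.id fun v x => ?_
    rw [Ops_tw_X, LinearMap.id_apply, LinearMap.id_apply, mul_smul]
    by_cases hv : g v.1 v.2 = 0
    · simp [c3, hv]
    · rw [GM.mem_ann.1 (h v hv) x, smul_zero]
  · intro e x
    rw [Ops_tw_val]; rfl
  · intro e x
    exact ⟨_, rfl⟩

theorem tw_shG (g : ι → Ch m) (n : ι → ℤ) (x : G m k ι) : tw ζ g (shG n x) = shG n (tw ζ g x) := by
  refine pullG_square (Ops_sh_s n) (Ops_tw_s ζ _) (Ops_tw_s ζ _) (Ops_sh_s n) (fun v => ?_)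
    (fun d => ?_) x
  · rw [Ops_tw_X, map_mul, Ops_re_X, Ops_tw_X, algHom_C]; rfl
  · rw [Ops_tw_val, Ops_tw_val]

theorem reG_tw (e : ι ≃ κ) (g : ι → Ch m) (x : G m k ι) :
    reG e (tw ζ g x) = tw ζ (g ∘ e.symm) (reG e x) := by
  refine pullG_square (Ops_tw_s ζ _) (Ops_re_s e) (Ops_re_s e) (Ops_tw_s ζ _) (fun v => ?_)
    (fun d => ?_) x
  · rw [Ops_re_X, Ops_tw_X, Ops_tw_X, map_mul, Ops_re_X, algHom_C]; rfl
  · rw [Ops_tw_val, Ops_tw_val]

theorem tw_box (g : ι ⊕ κ → Ch m) (x : G m k ι) (y : G m k κ) :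
    tw ζ g (boxG x y) = boxG (tw ζ (g ∘ Sum.inl) x) (tw ζ (g ∘ Sum.inr) y) := by
  have h : twD ζ (up g) = (twD ζ (up (g ∘ Sum.inl))).sum (twD ζ (up (g ∘ Sum.inr))) := by
    apply Ops_PD_ext
    · funext i; rcases i with i | i <;> rfl
    · funext v; rcases v with ⟨i | i, j⟩ <;> rfl
    · funext i; rcases i with i | i <;> rfl
    · funext i; rcases i with i | i <;> rfl
  rw [tw, tw3, h, pullG_sum (Ops_tw_s ζ _) (Ops_tw_s ζ _)]
  rfl

theorem tw3_fr' (p : ℕ) [Fact p.Prime] [CharP k p] (g : ι → Fin 3 → ZMod m) (s : ι → ℕ)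
    (x : G m k ι) :
    tw3 ζ (fun i j => (p : ZMod m) ^ s i * g i j) (fr p s x) = fr p s (tw3 ζ g x) := by
  refine pullG_square (Ops_fr_s p s) (Ops_tw_s ζ _) (Ops_tw_s ζ _) (Ops_fr_s p s) (fun v => ?_)
    (fun d => ?_) x
  · rw [Ops_tw_X, map_mul, Ops_fr_X, map_pow, Ops_tw_X, algHom_C, mul_pow, ← map_pow, c3, c3,
      ← Nat.cast_pow, Ops_pow_val_mul]
    rfl
  · rw [Ops_tw_val, Ops_tw_val]

theorem tw3_fr (p : ℕ) [Fact p.Prime] [CharP k p] {s : ι → ℕ} (h : ∀ i, (p : ZMod m) ^ s i = 1)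
    (g : ι → Fin 3 → ZMod m) (x : G m k ι) : tw3 ζ g (fr p s x) = fr p s (tw3 ζ g x) := by
  rw [← tw3_fr' ζ p g s x]
  simp only [h, one_mul]

end Tw

section Fr
variable (p : ℕ) [Fact p.Prime] [CharP k p]

theorem fr_add (s t : ι → ℕ) : (fr p (s + t) : Module.End ℂ (G m k ι)) = fr p s * fr p t := by
  ext1 x
  refine (pullG_comp (Ops_fr_s p t) (Ops_fr_s p s) (Ops_fr_s p (s + t)) (fun v => ?_)
    (fun d => ?_) x).symm
  · rw [Ops_fr_X, Ops_fr_X, map_pow, Ops_fr_X, ← pow_mul, ← pow_add, Pi.add_apply, add_comm]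
  · rw [Ops_fr_val, Ops_fr_val, Ops_fr_val]
    funext i
    rw [Pi.add_apply, pow_add]; ring

theorem fr_zero : (fr p (0 : ι → ℕ) : Module.End ℂ (G m k ι)) = 1 := by
  ext1 x
  exact pullG_id (Ops_fr_s p 0) (fun v => by rw [Ops_fr_X]; simp)
    (fun d => by rw [Ops_fr_val]; simp) x

theorem reG_fr (e : ι ≃ κ) (s : ι → ℕ) (x : G m k ι) :
    reG e (fr p s x) = fr p (s ∘ e.symm) (reG e x) := by
  refine pullG_square (Ops_fr_s p s) (Ops_re_s e) (Ops_re_s e) (Ops_fr_s p _) (fun v => ?_)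
    (fun d => ?_) x
  · rw [Ops_re_X, Ops_fr_X, Ops_fr_X, map_pow, Ops_re_X]; rfl
  · rw [Ops_fr_val, Ops_re_val, Ops_re_val, Ops_fr_val]
    funext i
    simp

theorem fr_box (s : ι ⊕ κ → ℕ) (x : G m k ι) (y : G m k κ) :
    fr p s (boxG x y) = boxG (fr p (s ∘ Sum.inl) x) (fr p (s ∘ Sum.inr) y) := by
  have h : frD m k p s = (frD m k p (s ∘ Sum.inl)).sum (frD m k p (s ∘ Sum.inr)) := by
    apply Ops_PD_ext
    · funext i; rcases i with i | i <;> rfl
    · funext v; rcases v with ⟨i | i, j⟩ <;> rfl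
    · funext i; rcases i with i | i <;> rfl
    · funext i; rcases i with i | i <;> rfl
  rw [fr, h, pullG_sum (Ops_fr_s p _) (Ops_fr_s p _)]
  rfl

end Fr

end Pool.Agent.Tate
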