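import Pool.Agent.P.MP_2ce3e7_ag.PtsA

/-! Points, tangent spaces and the Nullstellensatz. -/

set_option autoImplicit false

noncomputable section

namespace Pool.Agent.Tate

open MvPolynomial

variable {m : ℕ} {K ι : Type} [Field K]

theorem nz_rep (x : Pt K ι) : Nz (rep x) := fun i =>
  Function.ne_iff.1 (Projectivization.rep_nonzero (x i))

theorem Nz.of_tsm {x : ι × Fin 3 → K} (h : Nz x) {l : ι → K} (hl : ∀ i, l i ≠ 0) :
    Nz (tsm l x) := fun i => by
  obtain ⟨j, hj⟩ := h i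
  exact ⟨j, mul_ne_zero (hl i) hj⟩

theorem Nz.exists_pt {x : ι × Fin 3 → K} (h : Nz x) :
    ∃ (y : Pt K ι) (l : ι → K), (∀ i, l i ≠ 0) ∧ rep y = tsm l x := by
  have h0 : ∀ i, (fun j => x (i, j)) ≠ 0 := fun i => Function.ne_iff.2 (h i)
  choose a ha using fun i => Projectivization.exists_smul_eq_mk_rep K _ (h0 i)
  refine ⟨fun i => Projectivization.mk K _ (h0 i), fun i => a i, fun i => (a i).ne_zero, ?_⟩
  funext v
  exact (congrFun (ha v.1) v.2).symm

theorem pt_eq {x y : Pt K ι} {l : ι → K} (h : rep y = tsm l (rep x)) : y = x := by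
  funext i
  rw [← Projectivization.mk_rep (y i), ← Projectivization.mk_rep (x i),
    Projectivization.mk_eq_mk_iff']
  exact ⟨l i, funext fun j => (congrFun h (i, j)).symm⟩

theorem pts_tsm_eq (l : ι → K) (x : ι × Fin 3 → K) : tsm l x = (fun v => l v.1) * x := rfl

theorem pts_sc_hg [Fintype ι] {f : S K ι} {d : ι → ℤ} (hf : Hg f d) (l : ι → K) :
    sc (fun v => l v.1) f = C (∏ i, l i ^ (d i).toNat) * f := by
  conv_lhs => rw [f.as_sum]
  conv_rhs => rw [f.as_sum]
  rw [map_sum, Finset.mul_sum]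
  refine Finset.sum_congr rfl fun s hs => ?_
  rw [sc_monomial, C_mul_monomial]
  congr 2
  rw [Finsupp.prod_fintype _ _ fun _ => pow_zero _, Fintype.prod_prod_type]
  refine Finset.prod_congr rfl fun i _ => ?_
  rw [← hf.deg hs i, Int.toNat_natCast]
  exact Finset.prod_pow_eq_pow_sum Finset.univ (fun j => s (i, j)) (l i)

theorem eval_tsm [Fintype ι] {f : S K ι} {d : ι → ℤ} (hf : Hg f d) (l : ι → K)
    (x : ι × Fin 3 → K) : eval (tsm l x) f = (∏ i, l i ^ (d i).toNat) * eval x f := by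
  rw [pts_tsm_eq, ← eval_sc, pts_sc_hg hf, map_mul, eval_C]

theorem pts_sc_mem [Finite ι] {J : Ideal (S K ι)} (hJ : GrI J) (l : ι → K) {f : S K ι}
    (hf : f ∈ J) : sc (fun v => l v.1) f ∈ J := by
  cases nonempty_fintype ι
  have : J ≤ J.comap (sc fun v => l v.1) := by
    refine GrW.le_of_hom hJ fun g d hg hgJ => ?_
    rw [Ideal.mem_comap, pts_sc_hg hg]
    exact J.mul_mem_left _ hgJ
  exact this hf

theorem pts_sc_inv {l : ι → K} (hl : ∀ i, l i ≠ 0) (f : S K ι) :
    sc (fun v => l v.1) (sc (fun v => (l v.1)⁻¹) f) = f := by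
  rw [sc_sc]
  have : ((fun v : ι × Fin 3 => l v.1) * fun v => (l v.1)⁻¹) = 1 :=
    funext fun v => mul_inv_cancel₀ (hl v.1)
  rw [this, sc_one]

theorem pts_inv_tsm {l : ι → K} (hl : ∀ i, l i ≠ 0) (x : ι × Fin 3 → K) :
    (fun v : ι × Fin 3 => (l v.1)⁻¹) * tsm l x = x :=
  funext fun v => inv_mul_cancel_left₀ (hl v.1) (x v)

theorem GrI.map_sc_tsm [Finite ι] {J : Ideal (S K ι)} (hJ : GrI J) {l : ι → K}
    (hl : ∀ i, l i ≠ 0) : J.map (sc fun v => l v.1) = J := by
  refine le_antisymm (Ideal.map_le_iff_le_comap.2 fun f hf => pts_sc_mem hJ l hf) fun f hf => ?_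
  rw [← pts_sc_inv hl f]
  exact Ideal.mem_map_of_mem _ (pts_sc_mem hJ (fun i => (l i)⁻¹) hf)

theorem GrI.tsm_mem [Finite ι] {J : Ideal (S K ι)} (hJ : GrI J) {l : ι → K} (hl : ∀ i, l i ≠ 0)
    {x : ι × Fin 3 → K} : tsm l x ∈ ZS J ↔ x ∈ ZS J := by
  rw [pts_tsm_eq, ← mem_ZS_sc, hJ.map_sc_tsm hl]

theorem mem_ZS_Fer {x : ι × Fin 3 → K} :
    x ∈ ZS (Fer m K ι) ↔ ∀ i, OnF m fun j => x (i, j) := by
  rw [Fer, mem_ZS_span, Set.forall_mem_range]
  refine forall_congr' fun i => ?_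
  simp only [fer, OnF, map_sub, map_add, map_pow, eval_X, sub_eq_zero]

variable [Fintype ι]

theorem GrI.locGen_tsm {J : Ideal (S K ι)} (hJ : GrI J) {l : ι → K} (hl : ∀ i, l i ≠ 0) {c : ℕ}
    {x : ι × Fin 3 → K} (h : LocGen J c x) : LocGen J c (tsm l x) := by
  rw [← hJ.map_sc_tsm (l := fun i => (l i)⁻¹) fun i => inv_ne_zero (hl i)]
  refine LocGen.map_sc _ ?_
  rwa [pts_inv_tsm hl]

theorem GrI.smo_tsm {J : Ideal (S K ι)} (hJ : GrI J) {l : ι → K} (hl : ∀ i, l i ≠ 0) {c : ℕ}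
    {x : ι × Fin 3 → K} (h : Smo J c x) : Smo J c (tsm l x) := by
  rw [← hJ.map_sc_tsm (l := fun i => (l i)⁻¹) fun i => inv_ne_zero (hl i)]
  refine Smo.map_sc (c := fun v : ι × Fin 3 => (l v.1)⁻¹) (fun w => inv_ne_zero (hl w.1)) ?_
  rwa [pts_inv_tsm hl]

theorem GrI.tan_tsm {J : Ideal (S K ι)} (hJ : GrI J) {l : ι → K} (hl : ∀ i, l i ≠ 0)
    {x v : ι × Fin 3 → K} : tsm l v ∈ Tan J (tsm l x) ↔ v ∈ Tan J x := by
  constructor
  · intro h f hf
    rw [← pts_sc_inv hl f, dif_sc]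
    exact h _ (pts_sc_mem hJ (fun i => (l i)⁻¹) hf)
  · intro h f hf
    rw [pts_tsm_eq, pts_tsm_eq, ← dif_sc]
    exact h _ (pts_sc_mem hJ l hf)

theorem pts_dif_sum {A : Type} (s : Finset A) (f : A → S K ι) (x v : ι × Fin 3 → K) :
    dif (∑ a ∈ s, f a) x v = ∑ a ∈ s, dif (f a) x v := by
  simp only [dif, map_sum, Finset.sum_mul]
  exact Finset.sum_comm

/-- the Euler identity in each block -/
theorem pts_euler {f : S K ι} {d : ι → ℤ} (hf : Hg f d) (l : ι → K) (x : ι × Fin 3 → K) :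
    dif f x (tsm l x) = (∑ i, l i * (d i : K)) * eval x f := by
  conv_lhs => rw [f.as_sum]
  conv_rhs => rw [f.as_sum]
  rw [pts_dif_sum, map_sum, Finset.mul_sum]
  refine Finset.sum_congr rfl fun s hs => ?_
  have h1 : ∀ w : ι × Fin 3, eval x (pderiv w (monomial s (coeff s f))) * tsm l x w =
      l w.1 * (s w : K) * eval x (monomial s (coeff s f)) := fun w => by
    have h2 := congrArg (eval x) (X_mul_pderiv_monomial (i := w) (m := s) (r := coeff s f))
    rw [map_mul, eval_X, map_nsmul, nsmul_eq_mul] at h2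
    rw [tsm, mul_assoc, ← h2]
    ring
  rw [dif, Finset.sum_congr rfl fun w _ => h1 w, ← Finset.sum_mul, Fintype.sum_prod_type]
  congr 1
  refine Finset.sum_congr rfl fun i _ => ?_
  rw [← hf.deg hs i, Int.cast_natCast, Nat.cast_sum, Finset.mul_sum]

theorem GrI.torD_sub {J : Ideal (S K ι)} (hJ : GrI J) {x : ι × Fin 3 → K} (hx : x ∈ ZS J) :
    TorD x ⊆ Tan J x := by
  rintro v ⟨l, rfl⟩
  have hx' := hx
  rw [← GrW.eq_core hJ] at hx' ⊢
  refine (mem_Tan_span hx').2 ?_
  rintro f ⟨hf, d, hd⟩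
  rw [pts_euler hd, hx f hf, mul_zero]

theorem irr_iff [IsAlgClosed K] {J : Ideal (S K ι)} : Irr J ↔ ∀ x ∈ ZS J, ¬ Nz x := by
  constructor
  · intro h x hx hn
    choose α hα using hn
    obtain ⟨N, hN⟩ := h α
    have h0 := hx _ hN
    simp only [mono, map_pow, map_prod, eval_X] at h0
    exact pow_ne_zero N (Finset.prod_ne_zero_iff.2 fun i _ => hα i) h0
  · intro h α
    have : mono K α ∈ J.radical := by
      rw [← vanishingIdeal_zeroLocus_eq_radical (K := K)]
      intro x hx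
      have hn := h x fun f hf => hx f hf
      simp only [Nz, not_forall, not_exists, not_not] at hn
      obtain ⟨i, hi⟩ := hn
      simp only [mono, map_prod, aeval_X]
      exact Finset.prod_eq_zero (Finset.mem_univ i) (hi _)
    exact this

/-- the vanishing ideal of a torus invariant set over an infinite field is graded -/
theorem grI_vanishing [Infinite K] {A : Set (ι × Fin 3 → K)}
    (hA : ∀ l : ι → K, (∀ i, l i ≠ 0) → ∀ x ∈ A, tsm l x ∈ A) : GrI (vanishingIdeal K A) := by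
  intro d f hf x hx
  let θ : S K ι →ₐ[K] MvPolynomial ι K := aeval fun v => C (x v) * X v.1
  have hθ : ∀ (l : ι → K) (g : S K ι), eval l (θ g) = eval (tsm l x) g := fun l g => by
    induction g using MvPolynomial.induction_on with
    | C a => simp [θ]
    | add p q hp hq => simp only [map_add, hp, hq]
    | mul_X p v hp =>
      have : θ (X v) = C (x v) * X v.1 := aeval_X _ _
      rw [map_mul, map_mul, map_mul, hp, this, map_mul, eval_C, eval_X, eval_X, tsm, mul_comm (x v)]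
  have h0 : θ f = 0 := by
    refine MvPolynomial.funext_set (fun _ => {0}ᶜ)
      (fun _ => (Set.finite_singleton (0 : K)).infinite_compl) fun l hl => ?_
    rw [hθ, map_zero]
    exact hf _ (hA l (fun i => hl i trivial) x hx)
  have hb : GrW (fun i : ι => wt (i, (0 : Fin 3))) (⊥ : Ideal (MvPolynomial ι K)) := by
    intro e g hg
    rw [Ideal.mem_bot.1 hg, map_zero]
    exact Ideal.zero_mem _
  have hc : GrW wt ((⊥ : Ideal (MvPolynomial ι K)).comap θ) := by
    refine GrW.comap hb θ (AddMonoidHom.id _) Function.injective_id fun s => ?_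
    have : θ (X s) = C (x s) * X s.1 := aeval_X _ _
    rw [this]
    exact (isWeightedHomogeneous_X K (fun i : ι => wt (i, (0 : Fin 3))) s.1).C_mul _
  have h1 : θ (cmp d f) = 0 := hc d f h0
  have h2 := hθ 1 (cmp d f)
  rw [h1, map_zero] at h2
  have h3 : tsm 1 x = x := funext fun v => one_mul _
  rw [h3] at h2
  exact h2.symm

end Pool.Agent.Tate
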