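import Pool.Agent.P.MP_2ce3e7_ag.ADefs
import Pool.Agent.P.MP_2ce3e7_ag.Pts
import Pool.Agent.P.MP_2ce3e7_ag.Ops

/-! The cone over the power of the curve. -/

set_option autoImplicit false

noncomputable section

namespace Pool.Agent.Tate

open Set Module Filter Topology Pool.Agent.Weil Pool.Agent.Ferm

variable {m : ℕ} [NeZero m] {ι : Type} {x x' : XS m ι} {w w' : ι × Fin 3 → ℂ} {j j' : ι → FI m}
  {u u' l : ι → ℂ}

theorem cdb_FP (g : ι → Ch m) (i : ι) (t : FI m) (z : ℂ) (a : Fin 3) :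
    FP m (t.1, g i + t.2) z a = c3 (w0 m) (up g) (i, a) * FP m t z a := by
  obtain ⟨h0, h1, h2⟩ := FCurveX.FP_act (Multiplicative.ofAdd (g i) : FG m) t z
  induction a using FCurveX.fin3
  · exact h0
  · exact h1
  · refine h2.trans ?_
    simp [c3, up]

theorem cdb_chart {v : Fin 3 → ℂ} (hz : ∃ a, v a ≠ 0) (hv : OnF m v) :
    ∃ t : FI m, ∃ z ∈ FΩ m, ∃ c : ℂ, c ≠ 0 ∧ FP m t z = c • v := by
  have hv' : v 0 ^ m + v 1 ^ m = v 2 ^ m := hv
  by_cases h2 : v 2 = 0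
  · have h1 : v 1 ≠ 0 := by
      intro h1
      rw [h1, h2, zero_pow (NeZero.ne m), add_zero] at hv'
      obtain ⟨a, ha⟩ := hz
      induction a using FCurveX.fin3
      exacts [ha (pow_eq_zero_iff (NeZero.ne m) |>.1 hv'), ha h1, ha h2]
    have h3 : v 2 / v 1 ∈ FΩ m := by
      rw [h2, zero_div]
      exact zero_mem_FΩ
    obtain ⟨jk, c, hc, he⟩ := exists_chart 2 hv' ⟨h1, h3⟩
    exact ⟨_, _, h3, c, hc, he⟩
  · have h3 : (v 0 / v 2) ^ m + (v 1 / v 2) ^ m = 1 := by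
      rw [div_pow, div_pow, ← add_div, hv', div_self (pow_ne_zero _ h2)]
    have h4 := congrArg Complex.re h3
    rw [Complex.add_re, Complex.one_re] at h4
    by_cases h5 : ((v 0 / v 2) ^ m).re < 1
    · obtain ⟨jk, c, hc, he⟩ := exists_chart 0 hv' ⟨h2, FCurveX.mem_of_re h5⟩
      exact ⟨_, _, FCurveX.mem_of_re h5, c, hc, he⟩
    · have h6 : ((v 1 / v 2) ^ m).re < 1 := by linarith
      obtain ⟨jk, c, hc, he⟩ := exists_chart 1 hv' ⟨h2, FCurveX.mem_of_re h6⟩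
      exact ⟨_, _, FCurveX.mem_of_re h6, c, hc, he⟩

theorem cdb_lin (t : FI m) : ∃ (a b : Fin 3) (c e : ℂ), c ≠ 0 ∧ e ≠ 0 ∧
    (∀ z, FP m t z a = c) ∧ ∀ z, FP m t z b = e * z := by
  obtain ⟨t, j, k⟩ := t
  induction t using FCurveX.fin3
  · exact ⟨2, 0, 1, _, one_ne_zero, FCurveX.zt_ne j.val, fun _ => rfl, fun _ => rfl⟩
  · exact ⟨2, 1, 1, _, one_ne_zero, FCurveX.zt_ne k.val, fun _ => rfl, fun _ => rfl⟩
  · exact ⟨1, 2, _, 1, mul_ne_zero (FCurveX.zt_ne k.val) one_ne_zero, one_ne_zero, fun _ => rfl,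
      fun z => (one_mul z).symm⟩

theorem isOpen_Om [Finite ι] : IsOpen (Om m ι) := by
  have : Om m ι = ⋂ l, (fun u : ι → ℂ => u l) ⁻¹' FΩ m := by
    ext u
    simp [Om]
  rw [this]
  exact isOpen_iInter_of_finite fun l => isOpen_FΩ.preimage (continuous_apply l)

theorem exists_xp (x : XS m ι) : ∃ j, ∃ u ∈ Om m ι, x = xp j u := by
  choose j u hu h using fun l => (ferD m).exists_pt (x l)
  exact ⟨j, u, hu, funext h⟩

theorem xp_eq_iff (hu : u ∈ Om m ι) (hu' : u' ∈ Om m ι) :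
    xp j u = xp j' u' ↔ ∀ i, Frel m (j i) (u i) (j' i) (u' i) := by
  rw [funext_iff]
  exact forall_congr' fun i => (ferD m).pt_eq_iff (hu i) (hu' i)

theorem isChart_xp [Fintype ι] (j : ι → FI m) : IsChart (xp j) (Om m ι) := by
  let E := OpenPartialHomeomorph.pi fun l => ((ferD m).atl.e (j l)).symm
  have h1 : E.source = Om m ι := by
    ext u
    change (∀ l ∈ (univ : Set ι), u l ∈ ((ferD m).atl.e (j l)).target) ↔ _
    simp only [GlueData.target, Set.mem_univ, true_imp_iff]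
    rfl
  have h2 : xp j = E := rfl
  rw [h2, ← h1]
  exact ⟨E.open_source, E.continuousOn, E.injOn,
    fun W hW ho => E.isOpen_image_of_subset_source ho hW⟩

theorem act_xp (g : ι → Ch m) (hu : u ∈ Om m ι) :
    act g (xp j u) = xp (fun i => ((j i).1, g i + (j i).2)) u := by
  funext i
  exact (ferD m).smul_pt (Multiplicative.ofAdd (g i) : FG m) (hu i)

theorem tsm_cn (l' : ι → ℂ) : tsm l' (cn j u l) = cn j u (l' * l) := by
  funext v
  simp only [tsm, cn, Pi.mul_apply, mul_assoc]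

theorem gs_cn (g : ι → Ch m) : gs g (cn j u l) = cn (fun i => ((j i).1, g i + (j i).2)) u l := by
  funext v
  simp only [gs, cn, Pi.mul_apply, cdb_FP]
  ring

theorem gs_dcn (g : ι → Ch m) (du dl : ι → ℂ) :
    gs g (dcn j u l du dl) = dcn (fun i => ((j i).1, g i + (j i).2)) u l du dl := by
  funext v
  simp only [gs, dcn, Pi.mul_apply, cdb_FP, deriv_const_mul_field']
  ring

theorem gs_gs (g g' : ι → Ch m) (w : ι × Fin 3 → ℂ) : gs g (gs g' w) = gs (g + g') w := by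
  rw [gs, gs, gs, up_add, c3_add, mul_assoc]

theorem gs_zero (w : ι × Fin 3 → ℂ) : gs (0 : ι → Ch m) w = w := by
  rw [gs, up_zero, c3_zero, one_mul]

theorem gs_tsm (g : ι → Ch m) (l : ι → ℂ) (w : ι × Fin 3 → ℂ) :
    gs g (tsm l w) = tsm l (gs g w) := by
  funext v
  simp only [gs, tsm, Pi.mul_apply]
  ring

theorem Nz.of_gs (g : ι → Ch m) (h : Nz w) : Nz (gs g w) := by
  intro i
  obtain ⟨a, ha⟩ := h i
  exact ⟨a, mul_ne_zero (c3_ne _ _ _) ha⟩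

theorem cn_mem (hu : u ∈ Om m ι) : cn j u l ∈ ZS (Fer m ℂ ι) := by
  refine mem_ZS_Fer.2 fun i => ?_
  simp only [OnF, cn, mul_pow]
  rw [← mul_add, FP_eq _ (hu i)]

theorem ov_cn (hu : u ∈ Om m ι) (hl : ∀ i, l i ≠ 0) : Ov (xp j u) (cn j u l) :=
  ⟨j, u, hu, l, hl, rfl, rfl⟩

theorem Ov.nz (h : Ov x w) : Nz w := by
  obtain ⟨j, u, -, l, hl, -, rfl⟩ := h
  intro i
  obtain ⟨a, ha⟩ := FCurveX.FP_ne (j i) (u i)
  exact ⟨a, mul_ne_zero (hl i) ha⟩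

theorem Ov.mem (h : Ov x w) : w ∈ ZS (Fer m ℂ ι) := by
  obtain ⟨j, u, hu, l, -, -, rfl⟩ := h
  exact cn_mem hu

theorem Ov.of_chart (hu : u ∈ Om m ι) (h : Ov (xp j u) w) :
    ∃ l : ι → ℂ, (∀ i, l i ≠ 0) ∧ w = cn j u l := by
  obtain ⟨j', u', hu', l, hl, he, rfl⟩ := h
  choose c hc using fun i => ((xp_eq_iff hu hu').1 he i).2.2
  refine ⟨l * c, fun i => mul_ne_zero (hl i) (FCurveX.c_ne (hc i)), funext fun v => ?_⟩
  simp only [cn, hc, Pi.mul_apply, Pi.smul_apply, smul_eq_mul, mul_assoc]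

theorem Ov.unique (h : Ov x w) (h' : Ov x' w) : x = x' := by
  obtain ⟨j, u, hu, l, -, rfl, rfl⟩ := h
  obtain ⟨j', u', hu', l', hl', rfl, he⟩ := h'
  refine (xp_eq_iff hu hu').2 fun i => ⟨hu i, hu' i, (l' i)⁻¹ * l i, funext fun a => ?_⟩
  have h1 : l i * FP m (j i) (u i) a = l' i * FP m (j' i) (u' i) a := congrFun he (i, a)
  rw [Pi.smul_apply, smul_eq_mul, mul_assoc, h1, inv_mul_cancel_left₀ (hl' i)]

theorem Ov.exists_tsm (h : Ov x w) (h' : Ov x w') :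
    ∃ l : ι → ℂ, (∀ i, l i ≠ 0) ∧ w' = tsm l w := by
  obtain ⟨j, u, hu, l, hl, rfl, rfl⟩ := h
  obtain ⟨l', hl', rfl⟩ := h'.of_chart hu
  refine ⟨l' / l, fun i => div_ne_zero (hl' i) (hl i), ?_⟩
  rw [tsm_cn]
  congr 1
  funext i
  exact (div_mul_cancel₀ _ (hl i)).symm

theorem Ov.of_tsm (h : Ov x w) (hl : ∀ i, l i ≠ 0) : Ov x (tsm l w) := by
  obtain ⟨j, u, hu, l', hl', rfl, rfl⟩ := h
  rw [tsm_cn]
  exact ov_cn hu fun i => mul_ne_zero (hl i) (hl' i)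

theorem Ov.of_gs (g : ι → Ch m) (h : Ov x w) : Ov (act g x) (gs g w) := by
  obtain ⟨j, u, hu, l, hl, rfl, rfl⟩ := h
  rw [act_xp g hu, gs_cn]
  exact ov_cn hu hl

theorem exists_ov (hz : Nz w) (h : w ∈ ZS (Fer m ℂ ι)) : ∃ x : XS m ι, Ov x w := by
  choose j u hu c hc he using fun i => cdb_chart (hz i) (mem_ZS_Fer.1 h i)
  refine ⟨xp j u, j, u, hu, c⁻¹, fun i => inv_ne_zero (hc i), rfl, funext fun v => ?_⟩
  simp only [cn, he, Pi.inv_apply, Pi.smul_apply, smul_eq_mul, inv_mul_cancel_left₀ (hc _)]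

/-- the power of the curve as a subset of the power of the projective plane -/
theorem exists_toPt (m : ℕ) [NeZero m] (ι : Type) : ∃ f : XS m ι → Pt ℂ ι,
    Function.Injective f ∧ ∀ x y, f x = y ↔ Ov x (rep y) := by
  have key : ∀ x : XS m ι, ∃ y : Pt ℂ ι, Ov x (rep y) := fun x => by
    obtain ⟨j, u, hu, rfl⟩ := exists_xp x
    have h1 : Ov (xp j u) (cn j u 1) := ov_cn hu fun _ => one_ne_zero
    obtain ⟨y, l, hl, he⟩ := h1.nz.exists_pt
    exact ⟨y, he ▸ h1.of_tsm hl⟩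
  choose f hf using key
  refine ⟨f, fun x x' h => (hf x).unique (h ▸ hf x'), fun x y => ⟨fun h => h ▸ hf x, fun h => ?_⟩⟩
  obtain ⟨l, -, he⟩ := h.exists_tsm (hf x)
  exact pt_eq he

variable [Fintype ι]

theorem analytic_cn (j : ι → FI m) :
    AnalyticOnNhd ℂ (fun p : (ι → ℂ) × (ι → ℂ) => cn j p.1 p.2) (Om m ι ×ˢ univ) := by
  intro p hp
  refine analyticAt_pi_iff.2 fun v => AnalyticAt.mul ?_ ?_
  · exact ((ContinuousLinearMap.proj v.1 : (ι → ℂ) →L[ℂ] ℂ).comp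
      (ContinuousLinearMap.snd ℂ (ι → ℂ) (ι → ℂ))).analyticAt p
  · exact AnalyticAt.comp (g := fun z => FP m (j v.1) z v.2)
      (f := fun p : (ι → ℂ) × (ι → ℂ) => p.1 v.1) (FP_an _ _ _ (hp.1 v.1))
      (((ContinuousLinearMap.proj v.1 : (ι → ℂ) →L[ℂ] ℂ).comp
        (ContinuousLinearMap.fst ℂ (ι → ℂ) (ι → ℂ))).analyticAt p)

theorem fderiv_cn (hu : u ∈ Om m ι) (du dl : ι → ℂ) :
    fderiv ℂ (fun p : (ι → ℂ) × (ι → ℂ) => cn j p.1 p.2) (u, l) (du, dl) = dcn j u l du dl := by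
  have h1 : ∀ i, HasFDerivAt (fun p : (ι → ℂ) × (ι → ℂ) => p.1 i)
      ((ContinuousLinearMap.proj i : (ι → ℂ) →L[ℂ] ℂ).comp
        (ContinuousLinearMap.fst ℂ (ι → ℂ) (ι → ℂ))) (u, l) := fun i =>
    ((ContinuousLinearMap.proj i : (ι → ℂ) →L[ℂ] ℂ).comp
        (ContinuousLinearMap.fst ℂ (ι → ℂ) (ι → ℂ))).hasFDerivAt
  have h2 : ∀ i, HasFDerivAt (fun p : (ι → ℂ) × (ι → ℂ) => p.2 i)
      ((ContinuousLinearMap.proj i : (ι → ℂ) →L[ℂ] ℂ).comp
        (ContinuousLinearMap.snd ℂ (ι → ℂ) (ι → ℂ))) (u, l) := fun i =>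
    ((ContinuousLinearMap.proj i : (ι → ℂ) →L[ℂ] ℂ).comp
        (ContinuousLinearMap.snd ℂ (ι → ℂ) (ι → ℂ))).hasFDerivAt
  have h3 := hasFDerivAt_pi.2 fun v : ι × Fin 3 => (h2 v.1).mul
    (((FP_an (j v.1) v.2 _ (hu v.1)).differentiableAt.hasDerivAt).comp_hasFDerivAt (u, l) (h1 v.1))
  have h4 := h3.fderiv
  change fderiv ℂ (fun p : (ι → ℂ) × (ι → ℂ) => cn j p.1 p.2) (u, l) = _ at h4
  rw [h4]
  funext v
  simp [dcn]
  ring

omit [Fintype ι] in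
theorem dcn_eq_zero (hu : u ∈ Om m ι) (hl : ∀ i, l i ≠ 0) {du dl : ι → ℂ}
    (h : dcn j u l du dl = 0) : du = 0 ∧ dl = 0 := by
  have key : ∀ i, du i = 0 ∧ dl i = 0 := fun i => by
    obtain ⟨a, b, c, e, hc, he, h1, h2⟩ := cdb_lin (j i)
    have h3 := congrFun h (i, a)
    have h4 := congrFun h (i, b)
    simp only [dcn, h1, h2, deriv_const', mul_zero, add_zero, Pi.zero_apply] at h3 h4
    have h5 : dl i = 0 := (mul_eq_zero.1 h3).resolve_right hc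
    rw [h5, zero_mul, zero_add, deriv_const_mul_field', deriv_id''] at h4
    simp only [mul_one] at h4
    exact ⟨(mul_eq_zero.1 ((mul_eq_zero.1 h4).resolve_right he)).resolve_left (hl i), h5⟩
  exact ⟨funext fun i => (key i).1, funext fun i => (key i).2⟩

omit [Fintype ι] in
theorem dcn_zero_mem (hl : ∀ i, l i ≠ 0) (dl : ι → ℂ) : dcn j u l 0 dl ∈ TorD (cn j u l) := by
  refine ⟨dl / l, funext fun v => ?_⟩
  simp only [dcn, tsm, cn, Pi.zero_apply, mul_zero, zero_mul, add_zero, Pi.div_apply]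
  rw [← mul_assoc, div_mul_cancel₀ _ (hl _)]

/-- the set of points that lie over a closed torus invariant set is closed -/
theorem isClosed_under {B : Set (ι × Fin 3 → ℂ)} (hc : IsClosed B)
    (hi : ∀ l : ι → ℂ, (∀ i, l i ≠ 0) → ∀ w ∈ B, tsm l w ∈ B) :
    IsClosed {x : XS m ι | ∃ w ∈ B, Ov x w} := by
  rw [← isOpen_compl_iff, isOpen_iff_forall_mem_open]
  intro x hx
  obtain ⟨j, u, hu, rfl⟩ := exists_xp x
  have hcont : ContinuousOn (fun y => cn j y 1) (Om m ι) :=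
    (analytic_cn j).continuousOn.comp (f := fun y : ι → ℂ => (y, (1 : ι → ℂ))) (by fun_prop)
      fun y hy => ⟨hy, mem_univ _⟩
  refine ⟨xp j '' (Om m ι ∩ (fun y => cn j y 1) ⁻¹' Bᶜ), ?_, (isChart_xp j).opn _ inter_subset_left
    (hcont.isOpen_inter_preimage isOpen_Om hc.isOpen_compl), u, ⟨hu, fun h => hx ⟨_, h,
      ov_cn hu fun _ => one_ne_zero⟩⟩, rfl⟩
  rintro _ ⟨y, ⟨hy, hy'⟩, rfl⟩ ⟨w, hw, ho⟩
  obtain ⟨l, hl, he⟩ := ho.exists_tsm (ov_cn (l := 1) hy fun _ => one_ne_zero)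
  exact hy' (show cn j y 1 ∈ B from he ▸ hi l hl w hw)

end Pool.Agent.Tate
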