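import Pool.Agent.P.MP_2ce3e7_ag.CW0

/-! Vector bundles on the product of a projective scheme with an affine scheme. -/

namespace Pool.Agent.CXD

open Function Filter
open scoped TensorProduct Polynomial

section
variable {A B Γ : Type} [CommRing A] [CommRing B] [AddCommGroup Γ] {𝒜 : Γ → Set A}
  {ℬ : Γ → Set B}

/-- `M` is the base change of `N` along `φ`. -/
def BC (φ : A →+* B) (N : GM 𝒜) (M : GM ℬ) : Prop :=
  ∃ i : N.M →ₛₗ[φ] M.M, (∀ d x, i (N.π d x) = M.π d (i x)) ∧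
    ∀ (P : Type) [AddCommGroup P] [Module B P] (j : N.M →ₛₗ[φ] P),
      ∃! g : M.M →ₗ[B] P, ∀ x, g (i x) = j x

end

section
variable {B : Type} [CommRing B] {ℬ : ℤ → Set B}

/-- The parts of large degree are flat over `T`. -/
def Fl (T : Type) [CommRing T] [Algebra T B] (M : GM ℬ) : Prop :=
  ∀ᶠ d in atTop, letI := Module.compHom M.M (algebraMap T B)
    Module.Flat T (Submodule.span T (Set.range (M.π d)))

/-- The sheaf of `V` is locally free of rank `r` outside the common zeros of the `z i`. -/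
def VB {σ : Type} (z : σ → B) (r : ℕ) (V : GM ℬ) : Prop :=
  ∀ (p : Ideal B) [p.IsPrime], (∃ i, z i ∉ p) →
    Nonempty (LocalizedModule p.primeCompl V.M ≃ₗ[Localization.AtPrime p]
      (Fin r → Localization.AtPrime p))

/-- A short exact sequence of flat families. -/
def RS (T : Type) [CommRing T] [Algebra T B] (y : FreeAbelianGroup (FGM ℬ)) : Prop :=
  ∃ M N P : FGM ℬ, Ses M.1 N.1 P.1 ∧ Fl T M.1 ∧ Fl T N.1 ∧ Fl T P.1 ∧
    y = FreeAbelianGroup.of N - FreeAbelianGroup.of M - FreeAbelianGroup.of P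

/-- A torsion module. -/
def RT (y : FreeAbelianGroup (FGM ℬ)) : Prop :=
  ∃ M : FGM ℬ, Tors M.1 ∧ y = FreeAbelianGroup.of M

/-- The difference of two base changes of a flat family. -/
def RH (T : Type) [CommRing T] {C : Type} [CommRing C] [Algebra T C] (𝒞 : ℤ → Set C)
    (e₀ e₁ : C →+* B) (y : FreeAbelianGroup (FGM ℬ)) : Prop :=
  ∃ (W : FGM 𝒞) (M N : FGM ℬ), Fl T W.1 ∧ BC e₀ W.1 M.1 ∧ BC e₁ W.1 N.1 ∧
    y = FreeAbelianGroup.of M - FreeAbelianGroup.of N

/-- A base change. -/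
def RB {C : Type} [CommRing C] (𝒞 : ℤ → Set C) (e : C →+* B) (y : FreeAbelianGroup (FGM ℬ)) :
    Prop :=
  ∃ (N : FGM 𝒞) (M : FGM ℬ), BC e N.1 M.1 ∧ y = FreeAbelianGroup.of M

end

variable (k T : Type) [Field k] [CommRing T] [Algebra k T] {A : Type} [CommRing A] [Algebra k A]

/-- The grading of `T ⊗ A` by the second factor. -/
def tgr {Γ : Type} (𝒜 : Γ → Set A) (c : Γ) : Set (T ⊗[k] A) :=
  {x | ∃ t, ∃ a ∈ 𝒜 c, x = t ⊗ₜ a}

/-- The fibre of `Spec T × 𝔸¹` at `a`. -/
noncomputable def evm (A : Type) [CommRing A] [Algebra k A] (a : T) :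
    T[X] ⊗[k] A →+* T ⊗[k] A :=
  (Algebra.TensorProduct.map ((Polynomial.aeval a).restrictScalars k) (AlgHom.id k A)).toRingHom

/-- Short exact sequences of flat families, torsion modules, differences of the fibres at `0`
and `1` of a flat family over the affine line, and pull-backs from `Proj A`. -/
def relsP (𝒜 : ℤ → Set A) : AddSubgroup (FreeAbelianGroup (FGM (tgr k T 𝒜))) :=
  AddSubgroup.closure {y | RS T y ∨ RT y ∨ RH T[X] (tgr k T[X] 𝒜) (evm k T A 0) (evm k T A 1) y ∨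
    RB 𝒜 (Algebra.TensorProduct.includeRight : A →ₐ[k] T ⊗[k] A).toRingHom y}

/-- Vector bundles on `Spec T × Proj A` are torsion modulo these relations. -/
def Par {σ : Type} (𝒜 : ℤ → Set A) (z : σ → A) : Prop :=
  ∀ (r : ℕ) (V : FGM (tgr k T 𝒜)), VB (fun i => (1 : T) ⊗ₜ[k] z i) r V.1 →
    ∃ c : ℕ, 0 < c ∧ c • FreeAbelianGroup.of V ∈ relsP k T 𝒜

open MvPolynomial in
/-- The boundary of the algebraic simplex of dimension `n + 1`. -/
abbrev Sph (n : ℕ) : Type :=
  MvPolynomial (Fin (n + 2)) k ⧸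
    Ideal.span {(∑ i, X i - 1 : MvPolynomial (Fin (n + 2)) k), ∏ i, X i}

end Pool.Agent.CXD
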