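import Pool.Agent.P.MP_2ce3e7_ag.CWI

attribute [local instance] Pool.Agent.CXD.instAddCommGroupRr Pool.Agent.CXD.Rr.big
  Pool.Agent.CXD.Rr.small Pool.Agent.CXD.instSMulCommClassRr

/-! Exactness properties of the tensor product. -/

set_option linter.unusedSectionVars false
set_option linter.unusedVariables false

open Function
open scoped TensorProduct

noncomputable section

namespace Pool.Agent.CXD

theorem ker_rTensor_nil {A X Y V : Type} [CommRing A] [AddCommGroup X] [Module A X]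
    [AddCommGroup Y] [Module A Y] [AddCommGroup V] [Module A V] {z : A}
    (hV : Module.Projective (Localization (Submonoid.powers z))
      (LocalizedModule (Submonoid.powers z) V)) (f : X →ₗ[A] Y) (hf : Injective f)
    (x : X ⊗[A] V) (hx : f.rTensor V x = 0) : ∃ m : ℕ, z ^ m • x = 0 := by
  have h1 : Module.Flat A (LocalizedModule (Submonoid.powers z) V) :=
    Module.Flat.trans A (Localization (Submonoid.powers z)) _
  set g := LocalizedModule.mkLinearMap (Submonoid.powers z) V with hg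
  have hsq : ∀ t : X ⊗[A] V, f.lTensor (LocalizedModule (Submonoid.powers z) V)
      (TensorProduct.AlgebraTensorModule.rTensor A X g (TensorProduct.comm A X V t)) =
      TensorProduct.AlgebraTensorModule.rTensor A Y g
        (TensorProduct.comm A Y V (f.rTensor V t)) := by
    intro t
    induction t using TensorProduct.induction_on with
    | zero => simp only [map_zero]
    | tmul a b => rfl
    | add a b ha hb => simp only [map_add, ha, hb]
  have h2 : TensorProduct.AlgebraTensorModule.rTensor A X g (TensorProduct.comm A X V x) = 0 := by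
    apply Module.Flat.lTensor_preserves_injective_linearMap
      (M := LocalizedModule (Submonoid.powers z) V) f hf
    rw [hsq, hx, map_zero, map_zero, map_zero]
  obtain ⟨⟨s, m, rfl⟩, hs⟩ := (IsLocalizedModule.eq_zero_iff (Submonoid.powers z) _).1 h2
  refine ⟨m, (TensorProduct.comm A X V).injective ?_⟩
  rw [map_smul, map_zero]
  exact hs

variable {A A' Γ Γ' : Type} [CommRing A] [CommRing A'] [AddCommGroup Γ] [AddCommGroup Γ']
  {𝒜 : Γ → Set A} {𝒜' : Γ' → Set A'} {ι : A →+* A'} {δ : Γ →+ Γ'} [Gd 𝒜] (h : Hm ι 𝒜 𝒜' δ)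
  (V : GM 𝒜) {Y Y₂ Y₃ : GM 𝒜'}

theorem tens_map {f : Y.M →ₗ[A'] Y₂.M} (hf : IsG f) :
    ∃ F : (tens h V Y).M →ₗ[A'] (tens h V Y₂).M, IsG F ∧
      ∀ y v, F (tt h V Y y v) = tt h V Y₂ (f y) v := by
  obtain ⟨g, hg⟩ := tens_lift (h := h) (V := V) (Y := Y)
    ((tt h V Y₂).comp f.toAddMonoidHom) (fun a y v => by
      show tt h V Y₂ (f (ι a • y)) v = tt h V Y₂ (f y) (a • v)
      rw [map_smul, tt_bal])
  have hg' : ∀ y v, g (tt h V Y y v) = tt h V Y₂ (f y) v := hg
  have hsm : ∀ (a : A') x, g (a • x) = a • g x := by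
    intro a x
    induction x using tens_ind with
    | h0 => simp only [smul_zero, map_zero]
    | h1 γ y c v _ _ => rw [tt_smul, hg', hg', tt_smul, map_smul]
    | h2 x x' hx hx' => rw [smul_add, map_add, map_add, hx, hx', smul_add]
  refine ⟨{ toFun := g, map_add' := map_add g, map_smul' := hsm }, ?_, hg'⟩
  intro d x
  show g ((tens h V Y).π d x) = (tens h V Y₂).π d (g x)
  induction x using tens_ind with
  | h0 => simp only [map_zero]
  | h1 γ y c v _ hv => rw [tens_π d y hv, hg', hg', tens_π d (f y) hv, hf]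
  | h2 x x' hx hx' => simp only [map_add, hx, hx']

/-- a linear map over the big ring, viewed over the small ring -/
def rr_CWI2 (ι : A →+* A') {X X' : Type} [AddCommGroup X] [Module A' X] [AddCommGroup X']
    [Module A' X'] (f : X →ₗ[A'] X') : Rr ι X →ₗ[A] Rr ι X' where
  toFun := f
  map_add' := map_add f
  map_smul' a x := map_smul f (ι a) x

theorem tens_eq_CWI2 (f : Y.M →ₗ[A'] Y₂.M) (F : (tens h V Y).M →ₗ[A'] (tens h V Y₂).M)
    (hF : ∀ y v, F (tt h V Y y v) = tt h V Y₂ (f y) v) (x : (tens h V Y).M) :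
    F x = (rr_CWI2 ι f).rTensor V.M x := by
  induction x using tens_ind with
  | h0 => exact (map_zero F).trans (map_zero ((rr_CWI2 ι f).rTensor V.M)).symm
  | h1 γ y c v _ _ => exact hF y v
  | h2 x x' hx hx' =>
    rw [map_add, hx, hx']
    exact (map_add ((rr_CWI2 ι f).rTensor V.M) x x').symm

theorem tens_sm_CWI2 (a : A) (x : Rr ι Y.M ⊗[A] V.M) : ι a • x = a • x := by
  induction x using TensorProduct.induction_on with
  | zero => simp only [smul_zero]
  | tmul y v => rfl
  | add x x' hx hx' => rw [smul_add, smul_add, hx, hx']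

theorem tens_ses {σ : Type} {z : σ → A}
    (hV : ∀ i, Module.Projective (Localization (Submonoid.powers (z i)))
      (LocalizedModule (Submonoid.powers (z i)) V.M)) (hs : Ses Y Y₂ Y₃) :
    ∃ (F : (tens h V Y).M →ₗ[A'] (tens h V Y₂).M) (G : (tens h V Y₂).M →ₗ[A'] (tens h V Y₃).M),
      IsG F ∧ IsG G ∧ Surjective G ∧ Exact F G ∧
        Nil (Set.range fun i => ι (z i)) (LinearMap.ker F) := by
  obtain ⟨f, g, hf, hg, hi, hsu, hex⟩ := hs
  obtain ⟨F, hF, hF'⟩ := tens_map h V hf
  obtain ⟨G, hG, hG'⟩ := tens_map h V hg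
  have eF := tens_eq_CWI2 h V f F hF'
  have eG := tens_eq_CWI2 h V g G hG'
  refine ⟨F, G, hF, hG, ?_, ?_, ?_⟩
  · intro x
    obtain ⟨y, hy⟩ := LinearMap.rTensor_surjective V.M (g := rr_CWI2 ι g) hsu x
    exact ⟨y, (eG y).trans hy⟩
  · intro x
    have := rTensor_exact V.M (f := rr_CWI2 ι f) (g := rr_CWI2 ι g) hex hsu x
    constructor
    · intro hx
      obtain ⟨y, hy⟩ := this.1 ((eG x).symm.trans hx)
      exact ⟨y, (eF y).trans hy⟩
    · rintro ⟨y, hy⟩
      exact (eG x).trans (this.2 ⟨y, (eF y).symm.trans hy⟩)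
  · rintro _ ⟨i, rfl⟩ ⟨x, hx⟩
    obtain ⟨m, hm⟩ := ker_rTensor_nil (hV i) (rr_CWI2 ι f) hi x ((eF x).symm.trans hx)
    refine ⟨m, Subtype.ext ?_⟩
    show ι (z i) ^ m • x = 0
    rw [← map_pow]
    exact (tens_sm_CWI2 V _ x).trans hm

theorem tens_res [Gd 𝒜'] {φ : A' →+* A'} {μ : Γ' →+ Γ'} (hφ : Hm φ 𝒜' 𝒜' μ)
    (hι : ∀ a, φ (ι a) = ι a) (hδ : ∀ c, μ (δ c) = δ c) {j : Y.M →+ Y₂.M} (hj : IsRes φ μ Y Y₂ j) :
    ∃ J : (tens h V Y).M →+ (tens h V Y₂).M, IsRes φ μ (tens h V Y) (tens h V Y₂) J := by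
  obtain ⟨J, hJ⟩ := tens_lift (h := h) (V := V) (Y := Y) ((tt h V Y₂).comp j) (fun a y v => by
    show tt h V Y₂ (j (ι a • y)) v = tt h V Y₂ (j y) (a • v)
    rw [hj.smul, hι, tt_bal])
  have hJ' : ∀ y v, J (tt h V Y y v) = tt h V Y₂ (j y) v := hJ
  obtain ⟨p, hp, hp'⟩ := IsRes.exists_proj hφ hj
  obtain ⟨P, hP⟩ := tens_lift (h := h) (V := V) (Y := Y₂) ((tt h V Y).comp p) (fun a y v => by
    show tt h V Y (p (ι a • y)) v = tt h V Y (p y) (a • v)
    rw [← tt_bal, ← hp', hι])
  have hP' : ∀ y v, P (tt h V Y₂ y v) = tt h V Y (p y) v := hP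
  have hPJ : ∀ x, P (J x) = x := by
    intro x
    induction x using tens_ind with
    | h0 => simp only [map_zero]
    | h1 γ y c v _ _ => rw [hJ', hP', hp]
    | h2 x x' hx hx' => simp only [map_add, hx, hx']
  refine ⟨J, fun x x' hx => by rw [← hPJ x, hx, hPJ], ?_, ?_, ?_⟩
  · intro a x
    induction x using tens_ind with
    | h0 => simp only [smul_zero, map_zero]
    | h1 γ y c v _ _ => rw [tt_smul, hJ', hJ', tt_smul, hj.smul]
    | h2 x x' hx hx' => rw [smul_add, map_add, map_add, hx, hx', smul_add]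
  · intro d x
    induction x using tens_ind with
    | h0 => simp only [map_zero]
    | h1 γ y c v _ hv =>
      rw [tens_π d y hv, hJ', hJ', tens_π (μ d) (j y) hv, hj.π, map_sub, hδ]
    | h2 x x' hx hx' => simp only [map_add, hx, hx']
  · intro d x
    induction x using tens_ind with
    | h0 => exact ⟨0, by simp only [map_zero]⟩
    | h1 γ y c v _ hv =>
      obtain ⟨y', hy'⟩ := hj.sur (d - δ c) y
      refine ⟨tt h V Y y' v, ?_⟩
      rw [hJ', tens_π (μ d) y hv, hy', map_sub, hδ]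
    | h2 x x' hx hx' =>
      obtain ⟨y, hy⟩ := hx
      obtain ⟨y', hy'⟩ := hx'
      exact ⟨y + y', by rw [map_add, map_add, hy, hy']⟩

end Pool.Agent.CXD
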