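import Pool.Agent.P.MP_2ce3e7_ag.CWN

/-! Quotients of polynomial rings by homogeneous ideals; vanishing in large degrees. -/

set_option linter.unusedSectionVars false
set_option linter.unusedVariables false

open Function Filter LaurentPolynomial
open scoped TensorProduct

noncomputable section

namespace Pool.Agent.CXD

section
variable {k σ : Type} [Field k] (J : Ideal (MvPolynomial σ k))

instance hom_gd : Gd (hom J) := by
  refine ⟨⟨0, 1, rfl, MvPolynomial.isHomogeneous_one σ k, map_one _⟩, ?_, ?_⟩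
  · rintro c d a ⟨m, f, rfl, hf, rfl⟩ b ⟨n, g, rfl, hg, rfl⟩
    exact ⟨m + n, f * g, Nat.cast_add m n, hf.mul hg, map_mul _ _ _⟩
  · rw [eq_top_iff]
    intro y _
    obtain ⟨f, rfl⟩ := Ideal.Quotient.mk_surjective y
    rw [← MvPolynomial.sum_homogeneousComponent f, map_sum]
    refine sum_mem fun m _ => AddSubgroup.subset_closure (Set.mem_iUnion.2 ⟨(m : ℤ), ?_⟩)
    exact ⟨m, _, rfl, MvPolynomial.homogeneousComponent_isHomogeneous m f, rfl⟩

instance hom_gk : Gk k (hom J) := by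
  exact ⟨fun c => ⟨0, MvPolynomial.C c, rfl, MvPolynomial.isHomogeneous_C σ c, rfl⟩⟩

theorem zero_CWN2 {f : MvPolynomial σ k} (hf : f.IsHomogeneous 0) :
    ∃ c : k, MvPolynomial.C c = f :=
  ⟨_, (MvPolynomial.totalDegree_eq_zero_iff_eq_C.1
    ((MvPolynomial.totalDegree_zero_iff_isHomogeneous σ).2 hf)).symm⟩

theorem succ_CWN2 [Fintype σ] {m : ℕ} {f : MvPolynomial σ k} (hf : f.IsHomogeneous (m + 1)) :
    ∃ b : σ → MvPolynomial σ k, (∀ i, (b i).IsHomogeneous m) ∧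
      f = ∑ i, MvPolynomial.X i * b i := by
  classical
  have h1 : f ∈ MvPolynomial.homogeneousSubmodule σ k 1 *
      MvPolynomial.homogeneousSubmodule σ k m := by
    have h2 : f ∈ MvPolynomial.homogeneousSubmodule σ k (m + 1) := hf
    rw [← MvPolynomial.homogeneousSubmodule_one_pow, pow_succ',
      MvPolynomial.homogeneousSubmodule_one_pow] at h2
    exact h2
  refine Submodule.mul_induction_on (C := fun f => ∃ b : σ → MvPolynomial σ k,
    (∀ i, (b i).IsHomogeneous m) ∧ f = ∑ i, MvPolynomial.X i * b i) h1 ?_ ?_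
  · intro u hu g hg
    rw [MvPolynomial.homogeneousSubmodule_one_eq_span_X] at hu
    obtain ⟨c, rfl⟩ := (Submodule.mem_span_range_iff_exists_fun k).1 hu
    refine ⟨fun i => MvPolynomial.C (c i) * g, fun i => MvPolynomial.IsHomogeneous.C_mul hg _, ?_⟩
    rw [Finset.sum_mul]
    refine Finset.sum_congr rfl fun i _ => ?_
    rw [MvPolynomial.smul_eq_C_mul]
    ring
  · rintro x y ⟨b, hb, rfl⟩ ⟨b', hb', rfl⟩
    refine ⟨fun i => b i + b' i, fun i => (hb i).add (hb' i), ?_⟩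
    rw [← Finset.sum_add_distrib]
    exact Finset.sum_congr rfl fun i _ => (mul_add _ _ _).symm

theorem hom_std [Fintype σ] (θ : (MvPolynomial σ k ⧸ J) →ₐ[k] (MvPolynomial σ k ⧸ J)[T;T⁻¹])
    (h : ∀ i, θ (crd J i) = C (crd J i) * T 1) : Std (hom J) (crd J) θ := by
  refine ⟨fun i => ⟨1, _, rfl, MvPolynomial.isHomogeneous_X k i, rfl⟩, ?_, ?_, ?_, ?_⟩
  · rintro c hc a ⟨m, f, rfl, -, -⟩
    omega
  · rintro a ⟨m, f, hm, hf, rfl⟩
    obtain rfl : m = 0 := by omega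
    obtain ⟨c, rfl⟩ := zero_CWN2 hf
    exact ⟨c, rfl⟩
  · rintro c hc a ⟨m, f, hm, hf, rfl⟩
    obtain ⟨n, rfl⟩ := Int.eq_ofNat_of_zero_le hc
    obtain rfl : m = n + 1 := by omega
    obtain ⟨b, hb, rfl⟩ := succ_CWN2 hf
    refine ⟨fun i => Ideal.Quotient.mk J (b i), fun i => ⟨n, b i, rfl, hb i, rfl⟩, ?_⟩
    rw [map_sum]
    exact Finset.sum_congr rfl fun i _ => map_mul _ _ _
  · rintro c a ⟨m, f, rfl, hf, rfl⟩
    induction m generalizing f with
    | zero =>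
      obtain ⟨c, rfl⟩ := zero_CWN2 hf
      have e : Ideal.Quotient.mk J (MvPolynomial.C c) = algebraMap k _ c := rfl
      rw [e, θ.commutes, Nat.cast_zero, T_zero, mul_one]
      rfl
    | succ n ih =>
      obtain ⟨b, hb, rfl⟩ := succ_CWN2 hf
      rw [map_sum, map_sum, map_sum, Finset.sum_mul]
      refine Finset.sum_congr rfl fun i _ => ?_
      have e : Ideal.Quotient.mk J (MvPolynomial.X i * b i) =
          crd J i * Ideal.Quotient.mk J (b i) := map_mul _ _ _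
      rw [e, map_mul, map_mul, h i, ih (b i) (hb i), Nat.cast_succ, T_add]
      ring

end

section
variable {A Γ : Type} [CommRing A] [AddCommGroup Γ] {𝒜 : Γ → Set A}

theorem Nil.kill_pow {X : Type} [AddCommGroup X] [Module A X] [Module.Finite A X] {S : Set A}
    (h : Nil S X) (hS : S.Finite) : ∃ n, Kill (Ideal.span S ^ n) X := by
  have h1 : Ideal.span S ≤ (Module.annihilator A X).radical := by
    refine Ideal.span_le.2 fun f hf => ?_
    obtain ⟨m, hm⟩ := h.exists_pow hf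
    exact ⟨m, Module.mem_annihilator.2 hm⟩
  obtain ⟨n, hn⟩ := Ideal.exists_pow_le_of_le_radical_of_fg h1 (Submodule.fg_span hS)
  exact ⟨n, fun x hx y => Module.mem_annihilator.1 (hn hx) y⟩

theorem gens_CWN2 (M : GM 𝒜) (hM : Module.Finite A M.M) (δ : Γ →+ ℤ) :
    ∃ (s : Set M.M) (g : M.M → Γ) (N : ℤ), Submodule.span A s = ⊤ ∧
      (∀ x ∈ s, M.π (g x) x = x) ∧ ∀ x ∈ s, δ (g x) ≤ N := by
  classical
  obtain ⟨s, hs, hd⟩ := M.exists_gens
  have hd' : ∀ x : M.M, ∃ d, x ∈ s → M.π d x = x := by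
    intro x
    by_cases hx : x ∈ s
    · obtain ⟨d, hd⟩ := hd x hx
      exact ⟨d, fun _ => hd⟩
    · exact ⟨0, fun h => absurd h hx⟩
  choose g hg using hd'
  obtain ⟨N, hN⟩ := Finset.exists_le (s.image fun x => δ (g x))
  exact ⟨s, g, N, hs, fun x hx => hg x hx,
    fun x hx => hN _ (Finset.mem_image_of_mem _ hx)⟩

theorem GM.vanish [Gd 𝒜] (M : GM 𝒜) (hM : Module.Finite A M.M) (δ : Γ →+ ℤ) {I : Ideal A}
    (hI : ∀ (n : ℕ) (γ : Γ), (n : ℤ) ≤ δ γ → ∀ a ∈ 𝒜 γ, a ∈ I ^ n) {n : ℕ} (hn : Kill (I ^ n) M.M) :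
    ∀ᶠ t in atTop, ∀ γ, δ γ = t → ∀ x, M.π γ x = 0 := by
  obtain ⟨s, g, N, hs, hg, hN⟩ := gens_CWN2 M hM δ
  refine eventually_atTop.2 ⟨N + n, fun t ht γ hγ y => ?_⟩
  have h1 := M.π_mem hs g hg γ y
  refine AddSubgroup.mem_bot.1 ((AddSubgroup.closure_le ⊥).2 ?_ h1)
  rintro _ ⟨x, hx, a, ha, rfl⟩
  have h2 := hN x hx
  refine AddSubgroup.mem_bot.2 (hn a (hI n _ ?_ a ha) x)
  rw [map_sub, hγ]
  omega

end

variable {k A B σ Γ : Type} [Field k] [CommRing A] [Algebra k A] [CommRing B] [Algebra k B]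
  [Fintype σ] [AddCommGroup Γ] {𝒜 : ℤ → Set A} {z : σ → A} {θ : A →ₐ[k] A[T;T⁻¹]} [Gd 𝒜]

theorem Std.tors (h : Std 𝒜 z θ) {M : GM 𝒜} (hM : Module.Finite A M.M)
    (hn : Nil (Set.range z) M.M) : Tors M := by
  obtain ⟨n, hk⟩ := hn.kill_pow (Set.finite_range z)
  have h1 := M.vanish hM (AddMonoidHom.id ℤ) (fun n γ hγ a ha => h.mem_pow n hγ ha) hk
  exact h1.mono fun t ht => AddMonoidHom.ext fun x => ht t rfl x

theorem Std.slice_zero (h : Std 𝒜 z θ) {ℬ : Γ → Set B} [Gd ℬ] {Y : GM (tg k 𝒜 ℬ)}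
    (hY : Module.Finite (A ⊗[k] B) Y.M) (hn : Nil (Set.range fun i => inl k A B (z i)) Y.M) :
    ∀ᶠ t in atTop, ∀ j x, Y.π (t, j) x = 0 := by
  obtain ⟨n, hk⟩ := hn.kill_pow (Set.finite_range _)
  have h1 := Y.vanish hY (AddMonoidHom.fst ℤ Γ) (fun n γ hγ y hy => ?_) hk
  · exact h1.mono fun t ht j x => ht (t, j) rfl x
  · obtain ⟨a, ha, b, hb, rfl⟩ := hy
    have h2 := Ideal.mem_map_of_mem (inl k A B) (h.mem_pow n hγ ha)
    rw [Ideal.map_pow, Ideal.map_span, ← Set.range_comp] at h2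
    have e : a ⊗ₜ[k] b = inl k A B a * (1 ⊗ₜ[k] b) := by
      change _ = (a ⊗ₜ[k] (1 : B)) * (1 ⊗ₜ[k] b)
      rw [Algebra.TensorProduct.tmul_mul_tmul, mul_one, one_mul]
    rw [e]
    exact Ideal.mul_mem_right _ _ h2

theorem up_CWN2 (h : Std 𝒜 z θ) {V : GM 𝒜} {t g : ℤ} (hg : g ≤ t) {x : V.M}
    (hx : V.π g x = x) (n : ℕ) : ∀ a ∈ 𝒜 (t - g + n),
      a • x ∈ Submodule.span A {w | V.π t w = w} := by
  induction n with
  | zero =>
    intro a ha
    refine Submodule.subset_span ?_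
    have h1 := GM.hom_smul (mem_cl ha) hx
    have e : t - g + ((0 : ℕ) : ℤ) + g = t := by omega
    rw [e] at h1
    exact h1
  | succ n ih =>
    intro a ha
    have e : t - g + ((n + 1 : ℕ) : ℤ) = t - g + n + 1 := by omega
    rw [e] at ha
    obtain ⟨b, hb, rfl⟩ := h.succ _ (by omega) a ha
    rw [Finset.sum_smul]
    refine sum_mem fun i _ => ?_
    rw [mul_smul]
    exact Submodule.smul_mem _ _ (ih _ (hb i))

theorem Std.gen_deg (h : Std 𝒜 z θ) {V : GM 𝒜} (hV : Module.Finite A V.M) :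
    ∀ᶠ t in atTop, ∀ b, t ≤ b → ∀ v, V.π b v ∈ Submodule.span A {w | V.π t w = w} := by
  obtain ⟨s, g, N, hs, hg, hN⟩ := gens_CWN2 V hV (AddMonoidHom.id ℤ)
  refine eventually_atTop.2 ⟨N, fun t ht b hb v => ?_⟩
  have h1 := V.π_mem hs g hg b v
  refine (AddSubgroup.closure_le
    (Submodule.span A {w | V.π t w = w}).toAddSubgroup).2 ?_ h1
  rintro _ ⟨x, hx, a, ha, rfl⟩
  have h2 : g x ≤ N := hN x hx
  have e : b - g x = t - g x + ((b - t).toNat : ℕ) := by omega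
  rw [e] at ha
  exact up_CWN2 h (by omega) (hg x hx) _ a ha

end Pool.Agent.CXD
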