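import Pool.Agent.P.MP_2ce3e7_ag.CP0
import Pool.Agent.P.MP_2ce3e7_ag.CWN2
import Pool.Agent.P.MP_2ce3e7_ag.CWI2

attribute [local instance] Pool.Agent.CXD.instAddCommGroupRs Pool.Agent.CXD.instModuleRs
  Pool.Agent.CXD.instModuleRs_1 Pool.Agent.CXD.instIsScalarTowerRs
  Pool.Agent.CXD.instSMulCommClassRs Pool.Agent.CXD.instAddCommGroupBox
  Pool.Agent.CXD.instModuleTensorProductBox Pool.Agent.CXD.finite_box

/-! The grading of a base change and exterior products with ungraded modules. -/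

set_option linter.unusedSectionVars false
set_option linter.unusedVariables false

open Function Filter
open scoped TensorProduct Polynomial

noncomputable section

namespace Pool.Agent.CXD

section
variable {A A' A'' Γ Γ' Γ'' : Type} [CommRing A] [CommRing A'] [CommRing A''] [AddCommGroup Γ]
  [AddCommGroup Γ'] [AddCommGroup Γ''] {𝒜 : Γ → Set A} {𝒜' : Γ' → Set A'} {𝒜'' : Γ'' → Set A''}

theorem Hm.comp {φ : A →+* A'} {ψ : A' →+* A''} {μ : Γ →+ Γ'} {μ' : Γ' →+ Γ''}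
    (h' : Hm ψ 𝒜' 𝒜'' μ') (h : Hm φ 𝒜 𝒜' μ) : Hm (ψ.comp φ) 𝒜 𝒜'' (μ'.comp μ) :=
  ⟨h'.inj.comp h.inj, fun c a ha => h'.mem_cl (h.mem c a ha)⟩

/-- two restrictions of the same module are isomorphic -/
theorem IsRes.iso {φ : A →+* A'} {ν : Γ → Γ'} {R R₂ : GM 𝒜} {M : GM 𝒜'} {j : R.M →+ M.M}
    {j₂ : R₂.M →+ M.M} (h : IsRes φ ν R M j) (h₂ : IsRes φ ν R₂ M j₂) :
    ∃ g : R.M →ₗ[A] R₂.M, IsG g ∧ Bijective g := by
  obtain ⟨g, h1, -, h3, h4⟩ := h.map h₂ (f := LinearMap.id) isG_id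
  exact ⟨g, h1, h3 injective_id, h4 surjective_id⟩

end

variable {k T T' A A' Γ Γ' : Type} [Field k] [CommRing T] [Algebra k T] [CommRing T']
  [Algebra k T'] [CommRing A] [Algebra k A] [CommRing A'] [Algebra k A'] [AddCommGroup Γ]
  [AddCommGroup Γ'] {𝒜 : Γ → Set A} {𝒜' : Γ' → Set A'}

theorem tmul_mem_tgr (t : T) {c : Γ} {a : A} (ha : a ∈ cl 𝒜 c) :
    t ⊗ₜ[k] a ∈ cl (tgr k T 𝒜) c := by
  induction ha using AddSubgroup.closure_induction with
  | mem a ha => exact mem_cl ⟨t, a, ha, rfl⟩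
  | zero => rw [TensorProduct.tmul_zero]; exact zero_mem _
  | add a b _ _ h1 h2 => rw [TensorProduct.tmul_add]; exact add_mem h1 h2
  | neg a _ h1 => rw [TensorProduct.tmul_neg]; exact neg_mem h1

instance tgr_gd [Gd 𝒜] : Gd (tgr k T 𝒜) := by
  refine ⟨⟨1, 1, Gd.one, rfl⟩, ?_, eq_top_iff.2 fun z _ => ?_⟩
  · rintro c d _ ⟨t, a, ha, rfl⟩ _ ⟨t', a', ha', rfl⟩
    exact ⟨t * t', a * a', Gd.mul _ _ _ ha _ ha', Algebra.TensorProduct.tmul_mul_tmul _ _ _ _⟩
  · induction z using TensorProduct.induction_on with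
    | zero => exact zero_mem _
    | add u v h1 h2 => exact add_mem (h1 trivial) (h2 trivial)
    | tmul t a =>
      refine Gd.ind 𝒜 (p := fun a => t ⊗ₜ[k] a ∈ AddSubgroup.closure (⋃ c, tgr k T 𝒜 c)) ?_
        (fun c a ha => ?_) (fun a a' h1 h2 => ?_) (fun a h1 => ?_) a
      · rw [TensorProduct.tmul_zero]; exact zero_mem _
      · exact AddSubgroup.subset_closure (Set.mem_iUnion.2 ⟨c, t, a, ha, rfl⟩)
      · rw [TensorProduct.tmul_add]; exact add_mem h1 h2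
      · rw [TensorProduct.tmul_neg]; exact neg_mem h1

instance tgr_gk [Gd 𝒜] : Gk k (tgr k T 𝒜) := by
  exact ⟨fun c => ⟨algebraMap k T c, 1, Gd.one, Algebra.TensorProduct.algebraMap_apply c⟩⟩

instance tg_gk [Gd 𝒜'] [Gk k 𝒜] : Gk k (tg k 𝒜 𝒜') := by
  exact ⟨fun c => ⟨algebraMap k A c, Gk.alg c, 1, Gd.one,
    Algebra.TensorProduct.algebraMap_apply c⟩⟩

theorem alg_eq (t : T) : algebraMap T (T ⊗[k] A) t = t ⊗ₜ 1 := rfl

theorem hm_alg [Gd 𝒜] : Hm (algebraMap T (T ⊗[k] A)) (tv T) (tgr k T 𝒜) 0 := by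
  exact ⟨fun _ _ _ => Subsingleton.elim _ _, fun _ t _ => mem_cl ⟨t, 1, Gd.one, rfl⟩⟩

theorem hm_mp {ψ : A →ₐ[k] A'} {μ : Γ →+ Γ'} (h : Hm ψ.toRingHom 𝒜 𝒜' μ) :
    Hm (mp T ψ) (tgr k T 𝒜) (tgr k T 𝒜') μ := by
  refine ⟨h.inj, ?_⟩
  rintro c _ ⟨t, a, ha, rfl⟩
  exact tmul_mem_tgr t (h.mem c a ha)

theorem hm_mq (χ : T' →ₐ[k] T) :
    Hm (mq χ A) (tgr k T' 𝒜) (tgr k T 𝒜) (AddMonoidHom.id Γ) := by
  refine ⟨injective_id, ?_⟩
  rintro c _ ⟨t, a, ha, rfl⟩
  exact mem_cl ⟨χ t, a, ha, rfl⟩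

theorem hm_tv (φ : T' →+* T) : Hm φ (tv T') (tv T) (AddMonoidHom.id Unit) :=
  ⟨injective_id, fun _ _ _ => mem_tv _ _⟩

theorem mp_alg (ψ : A →ₐ[k] A') (t : T) :
    mp T ψ (algebraMap T (T ⊗[k] A) t) = algebraMap T (T ⊗[k] A') t := by
  rw [alg_eq, alg_eq, mp_tmul, map_one]

theorem mp_mq (ψ : A →ₐ[k] A') (χ : T' →ₐ[k] T) (x : T' ⊗[k] A) :
    mp T ψ (mq χ A x) = mq χ A' (mp T' ψ x) := by
  induction x using TensorProduct.induction_on with
  | zero => simp only [map_zero]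
  | tmul t a => rfl
  | add u v hu hv => simp only [map_add, hu, hv]

theorem mq_mq {T'' : Type} [CommRing T''] [Algebra k T''] (χ : T' →ₐ[k] T) (χ' : T'' →ₐ[k] T')
    (x : T'' ⊗[k] A) : mq χ A (mq χ' A x) = mq (χ.comp χ') A x := by
  induction x using TensorProduct.induction_on with
  | zero => simp only [map_zero]
  | tmul t a => rfl
  | add u v hu hv => simp only [map_add, hu, hv]

theorem mq_id (x : T ⊗[k] A) : mq (AlgHom.id k T) A x = x := by
  induction x using TensorProduct.induction_on with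
  | zero => simp only [map_zero]
  | tmul t a => rfl
  | add u v hu hv => simp only [map_add, hu, hv]

theorem mq_mp_frb [Fintype k] (x : T ⊗[k] A) :
    mq (FiniteField.frobeniusAlgHom k T) A (mp T (FiniteField.frobeniusAlgHom k A) x) =
      x ^ Fintype.card k := by
  change _ = frb k (T ⊗[k] A) x
  induction x using TensorProduct.induction_on with
  | zero => simp only [map_zero]
  | tmul t a => exact (Algebra.TensorProduct.tmul_pow t a _).symm
  | add u v hu hv => simp only [map_add, hu, hv]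

/-- evaluation -/
abbrev evA (k : Type) {T : Type} [Field k] [CommRing T] [Algebra k T] (a : T) : T[X] →ₐ[k] T :=
  (Polynomial.aeval a).restrictScalars k

theorem evm_eq (a : T) : evm k T A a = mq (evA k a) A := rfl

theorem evm_surj (a : T) : Surjective (evm k T A a) := by
  intro x
  induction x using TensorProduct.induction_on with
  | zero => exact ⟨0, map_zero _⟩
  | tmul t b =>
    refine ⟨Polynomial.C t ⊗ₜ b, ?_⟩
    rw [evm_eq, mq_tmul]
    exact congrArg (fun s => s ⊗ₜ[k] b) (Polynomial.aeval_C a t)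
  | add u v hu hv =>
    obtain ⟨u', rfl⟩ := hu
    obtain ⟨v', rfl⟩ := hv
    exact ⟨u' + v', map_add _ _ _⟩

theorem evm_zero (a : T) :
    evm k T A a ((Polynomial.X - Polynomial.C a) ⊗ₜ[k] (1 : A)) = 0 := by
  have h : evA k a (Polynomial.X - Polynomial.C a) = 0 := by simp
  rw [evm_eq, mq_tmul, h, TensorProduct.zero_tmul]

/-- the ring as a module over itself -/
abbrev rt (T : Type) [CommRing T] : GM (tv T) := GM.triv (tv T) T

/-- powers of the irrelevant ideal -/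
theorem tgr_mem_pow {I : Ideal A} {δ : Γ →+ ℤ}
    (h : ∀ (n : ℕ) (γ : Γ), (n : ℤ) ≤ δ γ → ∀ a ∈ 𝒜 γ, a ∈ I ^ n) (n : ℕ) (γ : Γ)
    (hn : (n : ℤ) ≤ δ γ) : ∀ a ∈ tgr k T 𝒜 γ, a ∈ I.map (inr k T A) ^ n := by
  rintro _ ⟨t, a, ha, rfl⟩
  have e : t ⊗ₜ[k] a = (t ⊗ₜ[k] (1 : A)) * inr k T A a := by
    change _ = (t ⊗ₜ[k] (1 : A)) * ((1 : T) ⊗ₜ[k] a)
    rw [Algebra.TensorProduct.tmul_mul_tmul, mul_one, one_mul]
  rw [e, ← Ideal.map_pow]
  exact Ideal.mul_mem_left _ _ (Ideal.mem_map_of_mem _ (h n γ hn a ha))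

variable [Gd 𝒜] [Gk k 𝒜]

variable (k) in
/-- the exterior product of a `T`-module with a graded module -/
def gbx (W : GM (tv T)) (Y : GM 𝒜) : GM (tgr k T 𝒜) where
  M := (gbox k W Y).M
  π γ := (gbox k W Y).π ((), γ)
  π_self d x := (gbox k W Y).π_self _ x
  π_ne d e x hde := (gbox k W Y).π_ne _ _ x fun h => hde (congrArg Prod.snd h)
  sum_π x := by
    classical
    obtain ⟨s, hs⟩ := (gbox k W Y).sum_π x
    refine ⟨s.image Prod.snd, ?_⟩
    rw [Finset.sum_image fun a _ b _ h => Prod.ext rfl h]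
    exact hs
  π_smul c d := by
    rintro _ ⟨t, a, ha, rfl⟩ x
    exact (gbox k W Y).π_smul ((), c) ((), d) _ ⟨t, trivial, a, ha, rfl⟩ x

variable (k) in
/-- pure tensors -/
def bb (W : GM (tv T)) (Y : GM 𝒜) : W.M →+ Y.M →+ (gbx k W Y).M := gb k W Y

variable {W : GM (tv T)} {Y : GM 𝒜}

theorem smul_bb (t : T) (a : A) (w : W.M) (y : Y.M) :
    (t ⊗ₜ[k] a) • bb k W Y w y = bb k W Y (t • w) (a • y) := rfl

theorem gbx_π (γ : Γ) (w : W.M) (y : Y.M) :
    (gbx k W Y).π γ (bb k W Y w y) = bb k W Y w (Y.π γ y) := by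
  refine (gbox_π (k := k) (N := W) (M := Y) ((), γ) w y).trans ?_
  rw [W.π_id]
  rfl

theorem gbx_ind {p : (gbx k W Y).M → Prop} (h0 : p 0)
    (h1 : ∀ w d y, Y.π d y = y → p (bb k W Y w y)) (h2 : ∀ u v, p u → p v → p (u + v))
    (u : (gbx k W Y).M) : p u :=
  gbox_ind (k := k) (N := W) (M := Y) h0 (fun _ w d y _ hy => h1 w d y hy) h2 u

theorem gbx_lift {X : Type} [AddCommGroup X] (F : W.M →+ Y.M →+ X)
    (hF : ∀ (c : k) w y, F (algebraMap k T c • w) y = F w (algebraMap k A c • y)) :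
    ∃ g : (gbx k W Y).M →+ X, ∀ w y, g (bb k W Y w y) = F w y := gbox_lift F hF

theorem bb_alg (c : k) (w : W.M) (y : Y.M) :
    bb k W Y (algebraMap k T c • w) y = bb k W Y w (algebraMap k A c • y) := by
  exact TensorProduct.smul_tmul (R := k) (M := Rs k T W.M) (N := Rs k A Y.M) c w y

theorem gbx_finite (hW : Module.Finite T W.M) (hY : Module.Finite A Y.M) :
    Module.Finite (T ⊗[k] A) (gbx k W Y).M := gbox_finite hW hY

end Pool.Agent.CXD
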