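import Pool.Agent.P.MP_2ce3e7_ag.CPA

/-! Sums of graded modules, cyclic modules, fibres. -/

set_option linter.unusedSectionVars false
set_option linter.unusedVariables false

open Function Filter
open scoped TensorProduct Polynomial

noncomputable section

namespace Pool.Agent.CXD

variable {A A' Γ : Type} [CommRing A] [CommRing A'] [AddCommGroup Γ] {𝒜 : Γ → Set A}
  {𝒜' : Γ → Set A'}

/-- a finite product -/
abbrev GM.piF {ι : Type} [Fintype ι] (M : ι → GM 𝒜) : GM 𝒜 where
  M := ∀ i, (M i).M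
  π d := AddMonoidHom.pi fun i => ((M i).π d).comp (Pi.evalAddMonoidHom (fun i => (M i).M) i)
  π_self d x := funext fun i => (M i).π_self d (x i)
  π_ne d e x hde := funext fun i => (M i).π_ne d e (x i) hde
  sum_π x := by
    classical
    choose s hs using fun i => (M i).fin_supp (x i) |>.exists_finset
    refine ⟨Finset.univ.biUnion s, funext fun i => ?_⟩
    rw [Finset.sum_apply]
    exact (M i).sum_of_supp (x i) _ fun d hd =>
      Finset.mem_biUnion.2 ⟨i, Finset.mem_univ _, (hs i d).2 hd⟩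
  π_smul c d a ha x := funext fun i => (M i).π_smul c d a ha (x i)

theorem piF_π {ι : Type} [Fintype ι] (M : ι → GM 𝒜) (d : Γ) (x : ∀ i, (M i).M) (i : ι) :
    (GM.piF M).π d x i = (M i).π d (x i) := rfl

/-- a binary product -/
abbrev GM.prod (M N : GM 𝒜) : GM 𝒜 where
  M := M.M × N.M
  π d := (M.π d).prodMap (N.π d)
  π_self d x := Prod.ext (M.π_self d x.1) (N.π_self d x.2)
  π_ne d e x hde := Prod.ext (M.π_ne d e x.1 hde) (N.π_ne d e x.2 hde)
  sum_π x := by
    classical
    refine ⟨(M.fin_supp x.1).toFinset ∪ (N.fin_supp x.2).toFinset, Prod.ext ?_ ?_⟩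
    · rw [Prod.fst_sum]
      exact M.sum_of_supp x.1 _ fun d hd =>
        Finset.mem_union_left _ ((Set.Finite.mem_toFinset _).2 hd)
    · rw [Prod.snd_sum]
      exact N.sum_of_supp x.2 _ fun d hd =>
        Finset.mem_union_right _ ((Set.Finite.mem_toFinset _).2 hd)
  π_smul c d a ha x := Prod.ext (M.π_smul c d a ha x.1) (N.π_smul c d a ha x.2)

/-- generated by `e`, of degree zero, with annihilator `I` -/
structure Cy (U : GM 𝒜) (e : U.M) (I : Ideal A) : Prop where
  hom : U.π 0 e = e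
  gen : Submodule.span A {e} = ⊤
  ann : ∀ a : A, a • e = 0 ↔ a ∈ I

variable {U : GM 𝒜} {e : U.M} {I : Ideal A}

theorem Cy.finite (h : Cy U e I) : Module.Finite A U.M := by
  exact ⟨⟨{e}, by rw [Finset.coe_singleton, h.gen]⟩⟩

theorem Cy.exists_smul (h : Cy U e I) (y : U.M) : ∃ a : A, a • e = y := by
  refine Submodule.mem_span_singleton.1 ?_
  rw [h.gen]
  trivial

theorem Cy.kill (h : Cy U e I) : Kill I U.M := by
  intro a ha y
  obtain ⟨b, rfl⟩ := h.exists_smul y
  rw [smul_comm, (h.ann a).2 ha, smul_zero]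

theorem Cy.exists_hom [Gd 𝒜] (h : Cy U e I) {d : Γ} {y : U.M} (hy : U.π d y = y) :
    ∃ a ∈ cl 𝒜 d, a • e = y := by
  have key : ∀ a : A, ∃ b ∈ cl 𝒜 d, b • e = U.π d (a • e) := by
    intro a
    induction a using Gd.ind 𝒜 with
    | h0 => exact ⟨0, zero_mem _, by rw [zero_smul, map_zero]⟩
    | h1 c a ha =>
      have h1 : U.π c (a • e) = a • e := by
        have h2 := GM.hom_smul (mem_cl ha) h.hom
        rwa [add_zero] at h2
      by_cases hc : d = c
      · subst hc
        exact ⟨a, mem_cl ha, h1.symm⟩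
      · exact ⟨0, zero_mem _, by rw [zero_smul, GM.π_of_ne h1 hc]⟩
    | h2 a b ha hb =>
      obtain ⟨a', h1, h2⟩ := ha
      obtain ⟨b', h3, h4⟩ := hb
      exact ⟨a' + b', add_mem h1 h3, by rw [add_smul, add_smul, map_add, h2, h4]⟩
    | h3 a ha =>
      obtain ⟨a', h1, h2⟩ := ha
      exact ⟨-a', neg_mem h1, by rw [neg_smul, neg_smul, map_neg, h2]⟩
  obtain ⟨a, rfl⟩ := h.exists_smul y
  obtain ⟨b, hb, e1⟩ := key a
  exact ⟨b, hb, e1.trans hy⟩

/-- the coordinate of a free module of rank one -/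
theorem Cy.exists_coord [Gd 𝒜] (h : Cy U e ⊥) :
    ∃ c : U.M ≃ₗ[A] A, (∀ a, c (a • e) = a) ∧ ∀ d y, U.π d y = y → c y ∈ cl 𝒜 d := by
  have hb : Bijective (LinearMap.toSpanSingleton A U.M e) := by
    refine ⟨(injective_iff_map_eq_zero _).2 fun a ha => ?_, fun y => h.exists_smul y⟩
    exact Ideal.mem_bot.1 ((h.ann a).1 ha)
  have hc : ∀ a : A, (LinearEquiv.ofBijective _ hb).symm (a • e) = a := fun a =>
    (LinearEquiv.ofBijective _ hb).symm_apply_apply a
  refine ⟨(LinearEquiv.ofBijective _ hb).symm, hc, fun d y hy => ?_⟩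
  obtain ⟨a, ha, rfl⟩ := h.exists_hom hy
  rw [hc]
  exact ha

theorem Cy.lift [Gd 𝒜] (h : Cy U e I) {M : GM 𝒜} {d : Γ} {x : M.M} (hx : M.π d x = x)
    (hI : ∀ a ∈ I, a • x = 0) :
    ∃ f : U.M →ₗ[A] M.M, IsG (M := U.shift (-d)) (N := M) f ∧ ∀ a : A, f (a • e) = a • x := by
  choose s hs using h.exists_smul
  have uq : ∀ a a' : A, a • e = a' • e → a • x = a' • x := fun a a' haa =>
    sub_eq_zero.1 (by
      rw [← sub_smul]
      exact hI _ ((h.ann _).1 (by rw [sub_smul, haa, sub_self])))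
  let f : U.M →ₗ[A] M.M :=
    { toFun := fun y => s y • x
      map_add' := fun y y' => by
        rw [← add_smul]
        exact uq _ _ (by rw [add_smul, hs, hs, hs])
      map_smul' := fun a y => by
        rw [RingHom.id_apply, ← mul_smul]
        exact uq _ _ (by rw [mul_smul, hs, hs]) }
  have hf : ∀ a : A, f (a • e) = a • x := fun a => uq _ _ (hs _)
  refine ⟨f, IsG.of_hom fun c y hy => ?_, hf⟩
  obtain ⟨a, ha, rfl⟩ := h.exists_hom (d := -d + c) hy
  have h1 := GM.hom_smul ha hx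
  rw [show -d + c + d = c by abel] at h1
  exact (congrArg (M.π c) (hf a)).trans (h1.trans (hf a).symm)

theorem Cy.cover [Gd 𝒜] (h : Cy U e I) (M : GM 𝒜) (hM : Module.Finite A M.M) (hI : Kill I M.M) :
    ∃ (n : ℕ) (g : Fin n → Γ) (f : (GM.piF fun i => U.shift (g i)).M →ₗ[A] M.M),
      IsG f ∧ Surjective f := by
  obtain ⟨s, hs, hh⟩ := M.exists_gens
  let x : Fin s.card → M.M := fun i => (s.equivFin.symm i : M.M)
  choose d hd using fun i => hh (x i) (s.equivFin.symm i).2
  choose f hf hfe using fun i => h.lift (hd i) fun a ha => hI a ha (x i)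
  let F : (Fin s.card → U.M) →ₗ[A] M.M := ∑ i, (f i) ∘ₗ LinearMap.proj i
  have hF : ∀ y, F y = ∑ i, f i (y i) := fun y => LinearMap.sum_apply _ _ _
  refine ⟨s.card, fun i => -d i, F, fun c y => ?_, ?_⟩
  · refine (hF _).trans ((Finset.sum_congr rfl fun i _ => hf i c (y i)).trans ?_)
    rw [← map_sum]
    exact congrArg (M.π c) (hF y).symm
  · have h1 : LinearMap.range F = ⊤ := by
      rw [eq_top_iff, ← hs, Submodule.span_le]
      intro z hz
      refine ⟨Pi.single (s.equivFin ⟨z, hz⟩) e, ?_⟩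
      rw [hF, Finset.sum_eq_single (s.equivFin ⟨z, hz⟩)]
      · have h2 := hfe (s.equivFin ⟨z, hz⟩) 1
        rw [one_smul, one_smul] at h2
        rw [Pi.single_eq_same, h2]
        exact congrArg Subtype.val (s.equivFin.symm_apply_apply ⟨z, hz⟩)
      · intro i _ hi
        rw [Pi.single_eq_of_ne hi, map_zero]
      · intro hn
        exact absurd (Finset.mem_univ _) hn
    exact LinearMap.range_eq_top.1 h1

theorem cy_triv (T : Type) [CommRing T] : Cy (rt T) (1 : T) ⊥ := by
  refine ⟨rfl, Ideal.span_singleton_one, fun a => ?_⟩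
  rw [Ideal.mem_bot]
  change a * 1 = 0 ↔ a = 0
  rw [mul_one]

end Pool.Agent.CXD
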