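import Pool.Agent.P.MP_2ce3e7_ag.CWN

attribute [local instance] Pool.Agent.CXD.instAddCommGroupRs Pool.Agent.CXD.instModuleRs
  Pool.Agent.CXD.instModuleRs_1 Pool.Agent.CXD.instIsScalarTowerRs
  Pool.Agent.CXD.instSMulCommClassRs Pool.Agent.CXD.instAddCommGroupBox
  Pool.Agent.CXD.instModuleTensorProductBox Pool.Agent.CXD.finite_box

/-! Lattices in exterior products: the first factor. -/

set_option linter.unusedSectionVars false
set_option linter.unusedVariables false

open Function LaurentPolynomial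
open scoped TensorProduct

noncomputable section

namespace Pool.Agent.CXD

theorem exists_retr (k : Type) {B X Y : Type} [Field k] [CommRing B] [Algebra k B] [AddCommGroup X]
    [Module B X] [AddCommGroup Y] [Module B Y] (f : X →ₗ[B] Y) (hf : Injective f) :
    ∃ r : Y →+ X, (∀ x, r (f x) = x) ∧
      ∀ (c : k) y, r (algebraMap k B c • y) = algebraMap k B c • r y := by
  obtain ⟨g, hg⟩ := LinearMap.exists_leftInverse_of_injective (rsLin_CYC (k := k) f)
    (LinearMap.ker_eq_bot.2 hf)
  refine ⟨(show Rs k B Y →+ Rs k B X from g.toAddMonoidHom), fun x => ?_, fun c y => ?_⟩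
  · exact LinearMap.congr_fun hg x
  · exact g.map_smul c y

theorem alg_tmul_CWJ2 {k A B : Type} [Field k] [CommRing A] [Algebra k A] [CommRing B]
    [Algebra k B] (c : k) :
    (algebraMap k A c ⊗ₜ[k] (1 : B)) = (1 : A) ⊗ₜ[k] algebraMap k B c := by
  rw [Algebra.algebraMap_eq_smul_one, Algebra.algebraMap_eq_smul_one, TensorProduct.smul_tmul]

variable {k A B K σ Γ : Type} [Field k] [CommRing A] [Algebra k A] [CommRing B] [Algebra k B]
  [CommRing K] [Algebra k K] [Fintype σ] [AddCommGroup Γ] {𝒜 : ℤ → Set A} {z : σ → A}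
  {θ : A →ₐ[k] A[T;T⁻¹]} [Gd 𝒜] [Gk k 𝒜] {ℬ : Γ → Set B} [Gd ℬ] [Gk k ℬ]

theorem Std.box_latL (h : Std 𝒜 z θ) (ψ : A →ₐ[k] K) {N : GM (tv K)} {M : GM ℬ}
    (hM : Module.Finite B M.M) {S : Set A} {L : GM 𝒜}
    {j : L.M →ₗ[A] (lau (h.ch ψ) N).M} (hj : LatG S j) :
    ∃ J : (gbox k L M).M →ₗ[A ⊗[k] B] (lau (h.chL ψ ℬ) (gbox k N M)).M,
      LatG (inl k A B '' S) J := by
  classical
  obtain ⟨Λ, hΛ⟩ := lau_lift (h := h.ch ψ) (W := N)
    (X := M.M →+ (lau (h.chL ψ ℬ) (gbox k N M)).M)
    (fun i => (AddMonoidHom.compHom (lsg (h.chL ψ ℬ) (gbox k N M) i)).comp (gb k N M))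
  have hΛ' : ∀ i n m, Λ (lsg (h.ch ψ) N i n) m =
      lsg (h.chL ψ ℬ) (gbox k N M) i (gb k N M n m) := fun i n m => by rw [hΛ]; rfl
  have hΛ0 : ∀ m, Λ 0 m = 0 := fun m => by rw [AddMonoidHom.map_zero, AddMonoidHom.zero_apply]
  have hs : ∀ (a : A) (b : B) u m, Λ (a • u) (b • m) = (a ⊗ₜ[k] b) • Λ u m := by
    intro a b u m
    induction a using Gd.ind 𝒜 with
    | h0 => rw [zero_smul, hΛ0, TensorProduct.zero_tmul, zero_smul]
    | h2 a a' ha ha' => rw [add_smul, map_add, AddMonoidHom.add_apply, ha, ha',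
        TensorProduct.add_tmul, add_smul]
    | h3 a ha => rw [neg_smul, map_neg, AddMonoidHom.neg_apply, ha, TensorProduct.neg_tmul,
        neg_smul]
    | h1 c a ha =>
      induction b using Gd.ind ℬ with
      | h0 => simp
      | h2 b b' hb hb' => rw [add_smul, map_add, hb, hb', TensorProduct.tmul_add, add_smul]
      | h3 b hb => rw [neg_smul, map_neg, hb, TensorProduct.tmul_neg, neg_smul]
      | h1 d b hb =>
        induction u using lau_ind with
        | h0 => rw [smul_zero, hΛ0, hΛ0, smul_zero]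
        | h2 x y hx hy => rw [smul_add, map_add, AddMonoidHom.add_apply, hx, hy, map_add,
            AddMonoidHom.add_apply, smul_add]
        | h1 i e w hw =>
          rw [smul_lsg (mem_cl ha), hΛ', hΛ', smul_lsg (tmul_mem_cl (mem_cl ha) (mem_cl hb))]
          rfl
  have hπ : ∀ (γ : ℤ × Γ) u m, (lau (h.chL ψ ℬ) (gbox k N M)).π γ (Λ u m) =
      Λ ((lau (h.ch ψ) N).π γ.1 u) (M.π γ.2 m) := by
    intro γ u m
    induction u using lau_ind with
    | h0 => rw [hΛ0, AddMonoidHom.map_zero, AddMonoidHom.map_zero, hΛ0]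
    | h2 x y hx hy => simp only [map_add, AddMonoidHom.add_apply, hx, hy]
    | h1 i e w hw =>
      rw [hΛ', lau_π, lau_π, hΛ']
      by_cases hi : γ.1 = i
      · subst hi
        have e1' : lev' (h.chL ψ ℬ) (gbox k N M) (eL Γ γ).1
            (lsg (h.chL ψ ℬ) (gbox k N M) γ.1 (gb k N M w m)) = gb k N M w m := lev_lsg _ _
        have e2' : lev' (h.ch ψ) N (e1 γ.1).1 (lsg (h.ch ψ) N γ.1 w) = w := lev_lsg _ _
        rw [e1', e2', gbox_π]
        rfl
      · have e1' : lev' (h.chL ψ ℬ) (gbox k N M) (eL Γ γ).1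
            (lsg (h.chL ψ ℬ) (gbox k N M) i (gb k N M w m)) = 0 := lev_lsg_ne hi _
        have e2' : lev' (h.ch ψ) N (e1 γ.1).1 (lsg (h.ch ψ) N i w) = 0 := lev_lsg_ne hi _
        rw [e1', e2']
        simp
  obtain ⟨J0, hJ0⟩ := gbox_lift (k := k) (N := L) (M := M) (Λ.comp j.toAddMonoidHom)
    (fun c x y => by
      change Λ (j (algebraMap k A c • x)) y = Λ (j x) (algebraMap k B c • y)
      have e1' := hs (algebraMap k A c) 1 (j x) y
      have e2' := hs 1 (algebraMap k B c) (j x) y
      rw [one_smul] at e1' e2'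
      rw [map_smul, e1', e2', alg_tmul_CWJ2])
  have hJ : ∀ x m, J0 (gb k L M x m) = Λ (j x) m := hJ0
  have hlin : ∀ (t : A ⊗[k] B) u, J0 (t • u) = t • J0 u := by
    intro t u
    induction t using TensorProduct.induction_on with
    | zero => simp
    | add t t' ht ht' => rw [add_smul, map_add, ht, ht', add_smul]
    | tmul a b =>
      induction u using gbox_ind with
      | h0 => simp
      | h2 x y hx hy => rw [smul_add, map_add, hx, hy, map_add, smul_add]
      | h1 c x d y hx hy => rw [smul_gb, hJ, hJ, LinearMap.map_smul, hs]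
  let J : (gbox k L M).M →ₗ[A ⊗[k] B] (lau (h.chL ψ ℬ) (gbox k N M)).M :=
    { toFun := J0, map_add' := J0.map_add, map_smul' := hlin }
  have hJ' : ∀ x m, J (gb k L M x m) = Λ (j x) m := hJ
  refine ⟨J, gbox_finite hj.fin hM, ?_, ?_, ?_⟩
  · intro γ u
    induction u using gbox_ind with
    | h0 => simp
    | h2 x y hx hy => simp only [map_add, hx, hy]
    | h1 c x d y hx hy => rw [gbox_π, hJ', hJ', hπ, hj.gr]
  · obtain ⟨r, hr, hr'⟩ := exists_retr k j hj.inj
    have hF : ∀ i : ℤ, ∃ g : (gbox k N M).M →+ (gbox k L M).M,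
        ∀ n m, g (gb k N M n m) = gb k L M (r (lsg (h.ch ψ) N i n)) m := by
      intro i
      refine gbox_lift (k := k) (N := N) (M := M)
        ((gb k L M).comp (r.comp (lsg (h.ch ψ) N i))) fun c x y => ?_
      change gb k L M (r (lsg (h.ch ψ) N i (algebraMap k K c • x))) y =
        gb k L M (r (lsg (h.ch ψ) N i x)) (algebraMap k B c • y)
      have e0 : lsg (h.ch ψ) N i (algebraMap k K c • x) =
          algebraMap k A c • lsg (h.ch ψ) N i x := by
        rw [smul_lsg (mem_cl (Gk.alg (𝒜 := 𝒜) c))]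
        have e3 : i + (e1 (0 : ℤ)).1 = i := add_zero i
        have e4 : ψ.toRingHom (algebraMap k A c) = algebraMap k K c := ψ.commutes c
        rw [e3, e4]
      have e1' := smul_gb (k := k) (N := L) (M := M) (algebraMap k A c) 1
        (r (lsg (h.ch ψ) N i x)) y
      have e2' := smul_gb (k := k) (N := L) (M := M) 1 (algebraMap k B c)
        (r (lsg (h.ch ψ) N i x)) y
      rw [one_smul] at e1' e2'
      rw [e0, hr', ← e1', ← e2', alg_tmul_CWJ2]
    choose F hF using hF
    obtain ⟨G, hG⟩ := lau_lift (h := h.chL ψ ℬ) (W := gbox k N M) F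
    have hGΛ : ∀ u m, G (Λ u m) = gb k L M (r u) m := by
      intro u m
      induction u using lau_ind with
      | h0 => rw [hΛ0, AddMonoidHom.map_zero, AddMonoidHom.map_zero, AddMonoidHom.map_zero,
          AddMonoidHom.zero_apply]
      | h2 x y hx hy => simp only [map_add, AddMonoidHom.add_apply, hx, hy]
      | h1 i e w hw => rw [hΛ', hG, hF]
    have hGJ : ∀ u, G (J u) = u := by
      intro u
      induction u using gbox_ind with
      | h0 => simp
      | h2 x y hx hy => simp only [map_add, hx, hy]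
      | h1 c x d y hx hy => rw [hJ', hGΛ, hr]
    exact Function.LeftInverse.injective hGJ
  · rintro _ ⟨f, hf, rfl⟩ y
    have hadd : ∀ u v : (lau (h.chL ψ ℬ) (gbox k N M)).M,
        (∃ (n : ℕ) (x : (gbox k L M).M), J x = inl k A B f ^ n • u) →
        (∃ (n : ℕ) (x : (gbox k L M).M), J x = inl k A B f ^ n • v) →
        ∃ (n : ℕ) (x : (gbox k L M).M), J x = inl k A B f ^ n • (u + v) := by
      rintro u v ⟨n, x, hx⟩ ⟨n', x', hx'⟩
      refine ⟨n + n', inl k A B f ^ n' • x + inl k A B f ^ n • x', ?_⟩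
      rw [map_add, map_smul, map_smul, hx, hx', smul_add, ← mul_smul, ← mul_smul, ← pow_add,
        ← pow_add, add_comm n' n]
    induction y using lau_ind with
    | h0 => exact ⟨0, 0, by simp⟩
    | h2 u v hu hv => exact hadd u v hu hv
    | h1 i e w hw =>
      clear hw
      induction w using gbox_ind with
      | h0 => exact ⟨0, 0, by simp⟩
      | h2 u v hu hv => rw [map_add]; exact hadd _ _ hu hv
      | h1 c n d m hn hm =>
        obtain ⟨t, x, hx⟩ := hj.den f hf (lsg (h.ch ψ) N i n)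
        refine ⟨t, gb k L M x m, ?_⟩
        have e1' := hs (f ^ t) 1 (lsg (h.ch ψ) N i n) m
        rw [one_smul] at e1'
        rw [hJ', hx, e1', hΛ', ← map_pow]
        rfl

end Pool.Agent.CXD
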