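import Pool.Agent.P.MP_2ce3e7_ag.CPA2
import Pool.Agent.P.MP_2ce3e7_ag.CWJ2

attribute [local instance] Pool.Agent.CXD.instAddCommGroupRs Pool.Agent.CXD.instModuleRs
  Pool.Agent.CXD.instModuleRs_1 Pool.Agent.CXD.instIsScalarTowerRs
  Pool.Agent.CXD.instSMulCommClassRs Pool.Agent.CXD.instAddCommGroupBox
  Pool.Agent.CXD.instModuleTensorProductBox Pool.Agent.CXD.finite_box

/-! Functoriality of the exterior product. -/

set_option linter.unusedSectionVars false
set_option linter.unusedVariables false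

open Function Filter
open scoped TensorProduct Polynomial

noncomputable section

namespace Pool.Agent.CXD

variable {k T T' A A' Γ Γ' : Type} [Field k] [CommRing T] [Algebra k T] [CommRing T']
  [Algebra k T'] [CommRing A] [Algebra k A] [CommRing A'] [Algebra k A'] [AddCommGroup Γ]
  [AddCommGroup Γ'] {𝒜 : Γ → Set A} {𝒜' : Γ' → Set A'} [Gd 𝒜] [Gk k 𝒜] [Gd 𝒜'] [Gk k 𝒜']
  {W W₂ W₃ : GM (tv T)} {Y Y₂ Y₃ : GM 𝒜}

theorem gbx_ind_CPA3 {p : (gbx k W Y).M → Prop} (h0 : p 0)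
    (h1 : ∀ w y, p (bb k W Y w y)) (h2 : ∀ u v, p u → p v → p (u + v))
    (u : (gbx k W Y).M) : p u :=
  gbx_ind h0 (fun w _ y _ => h1 w y) h2 u

theorem gbx_map (f : W.M →ₗ[T] W₂.M) {g : Y.M →ₗ[A] Y₂.M} (hg : IsG g) :
    ∃ F : (gbx k W Y).M →ₗ[T ⊗[k] A] (gbx k W₂ Y₂).M, IsG F ∧
      ∀ w y, F (bb k W Y w y) = bb k W₂ Y₂ (f w) (g y) := by
  obtain ⟨L, hL⟩ := gbx_lift (k := k) (W := W) (Y := Y)
    ((((bb k W₂ Y₂).comp f.toAddMonoidHom).flip.comp g.toAddMonoidHom).flip) (fun c w y => by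
      change bb k W₂ Y₂ (f (algebraMap k T c • w)) (g y) =
        bb k W₂ Y₂ (f w) (g (algebraMap k A c • y))
      rw [f.map_smul, g.map_smul, bb_alg])
  have hL' : ∀ w y, L (bb k W Y w y) = bb k W₂ Y₂ (f w) (g y) := hL
  have hlin : ∀ (c : T ⊗[k] A) z, L (c • z) = c • L z := by
    intro c z
    induction c using TensorProduct.induction_on with
    | zero => rw [zero_smul, map_zero, zero_smul]
    | add c d hc hd => rw [add_smul, map_add, add_smul, hc, hd]
    | tmul a b =>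
      induction z using gbx_ind_CPA3 with
      | h0 => rw [smul_zero, map_zero, smul_zero]
      | h1 w y => rw [smul_bb, hL', hL', smul_bb, f.map_smul, g.map_smul]
      | h2 u v hu hv => rw [smul_add, map_add, map_add, smul_add, hu, hv]
  refine ⟨{ toFun := L, map_add' := L.map_add, map_smul' := hlin }, fun d z => ?_, hL'⟩
  change L ((gbx k W Y).π d z) = (gbx k W₂ Y₂).π d (L z)
  induction z using gbx_ind_CPA3 with
  | h0 => simp only [map_zero]
  | h1 w y => rw [gbx_π, hL', hL', gbx_π, hg d y]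
  | h2 u v hu hv => simp only [map_add, hu, hv]

theorem gbx_ses_right (W : GM (tv T)) (h : Ses Y Y₂ Y₃) :
    Ses (gbx k W Y) (gbx k W Y₂) (gbx k W Y₃) := by
  obtain ⟨f, g, hf, hg, h1, h2, h3⟩ := h
  obtain ⟨F, hF, hF'⟩ := gbx_map (k := k) (W := W) (W₂ := W) LinearMap.id hf
  obtain ⟨G, hG, hG'⟩ := gbx_map (k := k) (W := W) (W₂ := W) LinearMap.id hg
  obtain ⟨e1, e2, e3⟩ := box_exact (k := k) (K := T) (B := A) (N := W.M) (f := f) (g := g)
    (F := F) (G := G) hF' hG'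
  exact ⟨F, G, hF, hG, e1 h1, e2 h2, e3 h3⟩

theorem eq_rTensor_CPA3 {f : W.M →ₗ[T] W₂.M}
    {F : (gbx k W Y).M →ₗ[T ⊗[k] A] (gbx k W₂ Y).M}
    (hF : ∀ w y, F (bb k W Y w y) = bb k W₂ Y (f w) y) :
    (F : (gbx k W Y).M → (gbx k W₂ Y).M) =
      LinearMap.rTensor (Rs k A Y.M) (rsLin_CYC (k := k) f) := by
  let L : (gbx k W Y).M →+ (gbx k W₂ Y).M :=
    (LinearMap.rTensor (Rs k A Y.M) (rsLin_CYC (k := k) f)).toAddMonoidHom
  have hL : ∀ w y, L (bb k W Y w y) = bb k W₂ Y (f w) y := fun x y => rfl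
  funext z
  change F z = L z
  induction z using gbx_ind_CPA3 with
  | h0 => rw [map_zero, map_zero]
  | h1 w y => rw [hF, hL]
  | h2 u v hu hv => rw [map_add, map_add, hu, hv]

theorem gbx_ses_left (Y : GM 𝒜) (h : Ses W W₂ W₃) :
    Ses (gbx k W Y) (gbx k W₂ Y) (gbx k W₃ Y) := by
  obtain ⟨f, g, hf, hg, h1, h2, h3⟩ := h
  obtain ⟨F, hF, hF'⟩ := gbx_map (k := k) (Y := Y) (Y₂ := Y) f isG_id
  obtain ⟨G, hG, hG'⟩ := gbx_map (k := k) (Y := Y) (Y₂ := Y) g isG_id
  refine ⟨F, G, hF, hG, ?_, ?_, ?_⟩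
  · rw [eq_rTensor_CPA3 (f := f) hF']
    exact Module.Flat.rTensor_preserves_injective_linearMap (M := Rs k A Y.M)
      (rsLin_CYC (k := k) f) h1
  · rw [eq_rTensor_CPA3 (f := g) hG']
    exact LinearMap.rTensor_surjective (Rs k A Y.M) (g := rsLin_CYC (k := k) g) h2
  · rw [eq_rTensor_CPA3 (f := f) hF', eq_rTensor_CPA3 (f := g) hG']
    exact Module.Flat.rTensor_exact (Rs k A Y.M) (f := rsLin_CYC (k := k) f)
      (g := rsLin_CYC (k := k) g) h3

theorem gbx_congr {f : W.M →ₗ[T] W₂.M} (hf : Bijective f) {g : Y.M →ₗ[A] Y₂.M} (hg : IsG g)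
    (hb : Bijective g) :
    ∃ F : (gbx k W Y).M →ₗ[T ⊗[k] A] (gbx k W₂ Y₂).M, IsG F ∧ Bijective F := by
  obtain ⟨F, hF, hF'⟩ := gbx_map (k := k) f hg
  let e := LinearEquiv.ofBijective f hf
  let e' := LinearEquiv.ofBijective g hb
  have he : ∀ w, e.symm (f w) = w := e.symm_apply_apply
  have he' : ∀ y, e'.symm (g y) = y := e'.symm_apply_apply
  have hg' : IsG (M := Y₂) (N := Y) e'.symm.toLinearMap := fun d x => by
    obtain ⟨y, rfl⟩ := hb.2 x
    change e'.symm (Y₂.π d (g y)) = Y.π d (e'.symm (g y))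
    rw [← hg d y, he', he']
  obtain ⟨G, -, hG'⟩ := gbx_map (k := k) (W := W₂) (W₂ := W) e.symm.toLinearMap hg'
  refine ⟨F, hF, ?_, fun z => ?_⟩
  · refine Function.LeftInverse.injective (g := G) fun z => ?_
    induction z using gbx_ind_CPA3 with
    | h0 => simp only [map_zero]
    | h1 w y =>
      rw [hF', hG']
      change bb k W Y (e.symm (f w)) (e'.symm (g y)) = _
      rw [he, he']
    | h2 u v hu hv => rw [map_add, map_add, hu, hv]
  · induction z using gbx_ind_CPA3 with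
    | h0 => exact ⟨0, map_zero _⟩
    | h1 w y =>
      obtain ⟨w', rfl⟩ := hf.2 w
      obtain ⟨y', rfl⟩ := hb.2 y
      exact ⟨_, hF' w' y'⟩
    | h2 u v hu hv =>
      obtain ⟨u', rfl⟩ := hu
      obtain ⟨v', rfl⟩ := hv
      exact ⟨u' + v', map_add _ _ _⟩

theorem gbx_shift (W : GM (tv T)) (Y : GM 𝒜) (u : Γ) :
    ∃ F : (gbx k W (Y.shift u)).M →ₗ[T ⊗[k] A] ((gbx k W Y).shift u).M, IsG F ∧ Bijective F := by
  let F : (gbx k W (Y.shift u)).M →ₗ[T ⊗[k] A] (gbx k W Y).M :=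
    (LinearMap.id : Box k T A W.M Y.M →ₗ[T ⊗[k] A] Box k T A W.M Y.M)
  have hF : ∀ w y, F (bb k W (Y.shift u) w y) = bb k W Y w y := fun _ _ => rfl
  refine ⟨F, fun d z => ?_, bijective_id⟩
  change F ((gbx k W (Y.shift u)).π d z) = (gbx k W Y).π (u + d) (F z)
  induction z using gbx_ind_CPA3 with
  | h0 => simp only [map_zero]
  | h1 w y => rw [gbx_π, hF, hF, gbx_π]
  | h2 a b ha hb => simp only [map_add, ha, hb]

theorem inr_pow_bb_CPA3 (f : A) (m : ℕ) (w : W.M) (y : Y.M) :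
    inr k T A f ^ m • bb k W Y w y = bb k W Y w (f ^ m • y) := by
  rw [← map_pow]
  change ((1 : T) ⊗ₜ[k] (f ^ m)) • bb k W Y w y = _
  rw [smul_bb, one_smul]

theorem gbx_nil {S : Set A} (h : Nil S Y.M) : Nil (inr k T A '' S) (gbx k W Y).M := by
  rintro _ ⟨f, hf, rfl⟩ z
  induction z using gbx_ind_CPA3 with
  | h0 => exact ⟨0, smul_zero _⟩
  | h1 w y =>
    obtain ⟨m, hm⟩ := h f hf y
    exact ⟨m, by rw [inr_pow_bb_CPA3, hm, map_zero]⟩
  | h2 a b ha hb =>
    obtain ⟨m, hm⟩ := ha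
    obtain ⟨n, hn⟩ := hb
    refine ⟨m + n, ?_⟩
    rw [smul_add, pow_add, mul_smul, mul_smul, hn, smul_zero, add_zero, smul_comm, hm, smul_zero]

theorem gbx_res {ψ : A →ₐ[k] A'} {μ : Γ →+ Γ'} (hψ : Hm ψ.toRingHom 𝒜 𝒜' μ) {Y' : GM 𝒜'}
    {j : Y.M →+ Y'.M} (hj : IsRes ψ.toRingHom μ Y Y' j) (W : GM (tv T)) :
    ∃ J : (gbx k W Y).M →+ (gbx k W Y').M, IsRes (mp T ψ) μ (gbx k W Y) (gbx k W Y') J := by
  have hc : ∀ c : k, ψ.toRingHom (algebraMap k A c) = algebraMap k A' c := fun c => ψ.commutes c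
  obtain ⟨J, hJ⟩ := gbx_lift (k := k) (W := W) (Y := Y)
    (((bb k W Y').flip.comp j).flip) (fun c w y => by
      change bb k W Y' (algebraMap k T c • w) (j y) = bb k W Y' w (j (algebraMap k A c • y))
      rw [hj.smul, hc, bb_alg])
  have hJ' : ∀ w y, J (bb k W Y w y) = bb k W Y' w (j y) := hJ
  obtain ⟨p, hp, hp'⟩ := IsRes.exists_proj hψ hj
  obtain ⟨P, hP⟩ := gbx_lift (k := k) (W := W) (Y := Y')
    (((bb k W Y).flip.comp p).flip) (fun c w y => by
      change bb k W Y (algebraMap k T c • w) (p y) = bb k W Y w (p (algebraMap k A' c • y))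
      rw [← hc, hp', bb_alg])
  have hP' : ∀ w y, P (bb k W Y' w y) = bb k W Y w (p y) := hP
  refine ⟨J, ?_, fun a z => ?_, fun c z => ?_, fun c z => ?_⟩
  · refine Function.LeftInverse.injective (g := P) fun z => ?_
    induction z using gbx_ind_CPA3 with
    | h0 => simp only [map_zero]
    | h1 w y => rw [hJ', hP', hp]
    | h2 u v hu hv => rw [map_add, map_add, hu, hv]
  · induction a using TensorProduct.induction_on with
    | zero => rw [zero_smul, map_zero, map_zero, zero_smul]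
    | add c d hc hd => rw [add_smul, map_add, map_add, add_smul, hc, hd]
    | tmul a b =>
      rw [mp_tmul]
      induction z using gbx_ind_CPA3 with
      | h0 => rw [smul_zero, map_zero, smul_zero]
      | h1 w y =>
        rw [smul_bb, hJ', hJ', smul_bb, hj.smul]
        rfl
      | h2 u v hu hv => rw [smul_add, map_add, map_add, smul_add, hu, hv]
  · induction z using gbx_ind_CPA3 with
    | h0 => simp only [map_zero]
    | h1 w y => rw [gbx_π, hJ', hJ', gbx_π, hj.π]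
    | h2 u v hu hv => simp only [map_add, hu, hv]
  · induction z using gbx_ind_CPA3 with
    | h0 => exact ⟨0, by simp only [map_zero]⟩
    | h1 w y =>
      obtain ⟨y', hy'⟩ := hj.sur c y
      exact ⟨bb k W Y w y', by rw [hJ', gbx_π, hy']⟩
    | h2 u v hu hv =>
      obtain ⟨u', hu'⟩ := hu
      obtain ⟨v', hv'⟩ := hv
      exact ⟨u' + v', by rw [map_add, map_add, hu', hv']⟩

end Pool.Agent.CXD
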