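import Pool.Agent.P.MP_2ce3e7_ag.CPA2

attribute [local instance] Pool.Agent.CXD.instAddCommGroupRr Pool.Agent.CXD.Rr.big
  Pool.Agent.CXD.Rr.small Pool.Agent.CXD.instSMulCommClassRr

/-! Fibres. -/

set_option linter.unusedSectionVars false
set_option linter.unusedVariables false

open Function Filter
open scoped TensorProduct Polynomial

noncomputable section

namespace Pool.Agent.CXD

variable {A A' Γ : Type} [CommRing A] [CommRing A'] [AddCommGroup Γ] {𝒜 : Γ → Set A}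
  {𝒜' : Γ → Set A'}

/-- `M` is the quotient of `W` by `x` -/
structure Fbr (χ : A' →+* A) (x : A') (W : GM 𝒜') (M : GM 𝒜) (g : W.M →+ M.M) : Prop where
  smul : ∀ r w, g (r • w) = χ r • g w
  π : ∀ d w, g (W.π d w) = M.π d (g w)
  sur : Surjective g
  ker : ∀ w, g w = 0 ↔ ∃ y, w = x • y

theorem Fbr.bc {χ : A' →+* A} {x : A'} {W : GM 𝒜'} {M : GM 𝒜} {g : W.M →+ M.M}
    (h : Fbr χ x W M g) (hχ : Surjective χ) (hx : χ x = 0) : BC χ W M := by
  have hk : ∀ (P : Type) [AddCommGroup P] [Module A P] (j : W.M →ₛₗ[χ] P) (w w' : W.M),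
      g w = g w' → j w = j w' := by
    intro P _ _ j w w' e
    obtain ⟨y, hy⟩ := (h.ker (w - w')).1 (by rw [map_sub, e, sub_self])
    rw [← sub_eq_zero, ← map_sub, hy, map_smulₛₗ, hx, zero_smul]
  refine ⟨{ toFun := g, map_add' := map_add g, map_smul' := h.smul }, h.π, ?_⟩
  intro P _ _ j
  choose s hs using h.sur
  have h1 : ∀ w, j (s (g w)) = j w := fun w => hk P j _ _ (hs _)
  let G : M.M →ₗ[A] P :=
    { toFun := fun m => j (s m)
      map_add' := fun m m' => by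
        rw [← map_add]
        exact hk P j _ _ (by rw [map_add, hs, hs, hs])
      map_smul' := fun a m => by
        obtain ⟨r, rfl⟩ := hχ a
        show j (s (χ r • m)) = χ r • j (s m)
        rw [← map_smulₛₗ]
        exact hk P j _ _ (by rw [h.smul, hs, hs]) }
  refine ⟨G, h1, fun G' hG' => LinearMap.ext fun m => ?_⟩
  have := hG' (s m)
  change G' (g (s m)) = j (s m) at this
  rw [hs] at this
  exact this

theorem Fbr.res {B B' Γ' : Type} [CommRing B] [CommRing B'] [AddCommGroup Γ'] {ℬ : Γ' → Set B}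
    {ℬ' : Γ' → Set B'} {χ : A' →+* A} {x : A'} {W : GM 𝒜'} {M : GM 𝒜} {g : W.M →+ M.M}
    (h : Fbr χ x W M g) (hx : x ∈ cl 𝒜' 0) {φ : B →+* A} {φ' : B' →+* A'} {χ₀ : B' →+* B}
    (hc : ∀ b, χ (φ' b) = φ (χ₀ b)) {x₀ : B'} (hx₀ : φ' x₀ = x) {ν : Γ' → Γ} {R' : GM ℬ'}
    {R : GM ℬ} {j' : R'.M →+ W.M} {j : R.M →+ M.M} (h' : IsRes φ' ν R' W j')
    (hj : IsRes φ ν R M j) : ∃ g₀ : R'.M →+ R.M, Fbr χ₀ x₀ R' R g₀ := by
  have h0 : ∀ y : R'.M, ∃ z, j z = g (j' y) := fun y =>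
    hj.mem_range fun γ hγ => by rw [← h.π, h'.π_eq_zero hγ, map_zero]
  choose f hf using h0
  have fa : ∀ y y', f (y + y') = f y + f y' := fun y y' =>
    hj.inj (by rw [map_add, hf, hf, hf, map_add, map_add])
  refine ⟨AddMonoidHom.mk' f fa, fun r y => ?_, fun c y => ?_, fun z => ?_, fun y => ?_⟩
  · show f (r • y) = χ₀ r • f y
    exact hj.inj (by rw [hf, h'.smul, h.smul, hc, hj.smul, hf])
  · show f (R'.π c y) = R.π c (f y)
    exact hj.inj (by rw [hf, h'.π, h.π, hj.π, hf])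
  · show ∃ y, f y = z
    induction z using R.ind with
    | h0 => exact ⟨0, hj.inj (by rw [hf, map_zero, map_zero, map_zero])⟩
    | h1 c z hz =>
      obtain ⟨w, hw⟩ := h.sur (j z)
      obtain ⟨y, hy⟩ := h'.sur c w
      exact ⟨y, hj.inj (by rw [hf, hy, h.π, hw, ← hj.π, hz])⟩
    | h2 z z' hz hz' =>
      obtain ⟨y, hy⟩ := hz
      obtain ⟨y', hy'⟩ := hz'
      exact ⟨y + y', by rw [fa, hy, hy']⟩
  · show f y = 0 ↔ _
    constructor
    · intro e
      obtain ⟨w, hw⟩ := (h.ker (j' y)).1 (by rw [← hf, e, map_zero])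
      choose u hu using fun c => h'.sur c w
      have h1 : ∀ c, R'.π c y = x₀ • u c := fun c => h'.inj (by
        have h2 := W.π_cl hx (ν c) w
        rw [zero_add] at h2
        rw [h'.π, hw, h2, h'.smul, hx₀, hu])
      obtain ⟨s, hs⟩ := R'.sum_π y
      exact ⟨∑ c ∈ s, u c, by
        rw [Finset.smul_sum, ← hs]
        exact Finset.sum_congr rfl fun c _ => h1 c⟩
    · rintro ⟨y', rfl⟩
      refine hj.inj ?_
      rw [hf, map_zero, h'.smul, hx₀]
      exact (h.ker _).2 ⟨_, rfl⟩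

theorem Fbr.tens {D Γ' : Type} [CommRing D] [AddCommGroup Γ'] {𝒟 : Γ' → Set D} [Gd 𝒟]
    {χ : A' →+* A} {x : A'} {W : GM 𝒜'} {M : GM 𝒜} {g : W.M →+ M.M} (h : Fbr χ x W M g)
    {ι : D →+* A} {ι' : D →+* A'} {δ : Γ' →+ Γ} (h₁ : Hm ι' 𝒟 𝒜' δ) (h₂ : Hm ι 𝒟 𝒜 δ)
    (hc : ∀ d, χ (ι' d) = ι d) (V : GM 𝒟) :
    ∃ G : (tens h₁ V W).M →+ (tens h₂ V M).M, Fbr χ x (tens h₁ V W) (tens h₂ V M) G := by
  obtain ⟨G, hG⟩ := tens_lift (h := h₁) (V := V) (Y := W) ((tt h₂ V M).comp g) (fun a y v => by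
    show tt h₂ V M (g (ι' a • y)) v = tt h₂ V M (g y) (a • v)
    rw [h.smul, hc, tt_bal])
  have hG' : ∀ y v, G (tt h₁ V W y v) = tt h₂ V M (g y) v := hG
  let gl : Rr ι' W.M →ₗ[D] Rr ι M.M :=
    { toFun := g
      map_add' := map_add g
      map_smul' := fun a y => (h.smul (ι' a) y).trans (by rw [hc]; rfl) }
  have eG : ∀ ξ : (Pool.Agent.CXD.tens h₁ V W).M, G ξ = gl.rTensor V.M ξ := by
    intro ξ
    induction ξ using tens_ind with
    | h0 => exact (map_zero G).trans (map_zero (gl.rTensor V.M)).symm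
    | h1 γ y c v _ _ => exact hG' y v
    | h2 a b ha hb =>
      rw [map_add, ha, hb]
      exact (map_add (gl.rTensor V.M) a b).symm
  have eF : ∀ ξ : (Pool.Agent.CXD.tens h₁ V W).M,
      x • ξ = (rr_CWI2 ι' (LinearMap.lsmul A' W.M x)).rTensor V.M ξ :=
    tens_eq_CWI2 h₁ V (LinearMap.lsmul A' W.M x) (LinearMap.lsmul A' _ x) fun y v => rfl
  have hex : Exact (rr_CWI2 ι' (LinearMap.lsmul A' W.M x)) gl := fun w =>
    (h.ker w).trans ⟨fun ⟨y, hy⟩ => ⟨y, hy.symm⟩, fun ⟨y, hy⟩ => ⟨y, hy.symm⟩⟩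
  have hsu : Surjective gl := h.sur
  refine ⟨G, fun r ξ => ?_, fun d ξ => ?_, fun ξ => ?_, fun ξ => ?_⟩
  · induction ξ using tens_ind with
    | h0 => simp only [smul_zero, map_zero]
    | h1 γ y c v _ _ => rw [tt_smul, hG', hG', tt_smul, h.smul]
    | h2 a b ha hb => rw [smul_add, map_add, map_add, ha, hb, smul_add]
  · induction ξ using tens_ind with
    | h0 => simp only [map_zero]
    | h1 γ y c v _ hv => rw [tens_π d y hv, hG', hG', tens_π d (g y) hv, h.π]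
    | h2 a b ha hb => simp only [map_add, ha, hb]
  · obtain ⟨y, hy⟩ := LinearMap.rTensor_surjective V.M (g := gl) hsu ξ
    exact ⟨y, (eG y).trans hy⟩
  · have := rTensor_exact V.M hex hsu ξ
    constructor
    · intro e
      obtain ⟨y, hy⟩ := this.1 ((eG ξ).symm.trans e)
      exact ⟨y, ((eF y).trans hy).symm⟩
    · rintro ⟨y, hy⟩
      exact (eG ξ).trans (this.2 ⟨y, (eF y).symm.trans hy.symm⟩)

theorem fbr_rt (k : Type) {T : Type} [Field k] [CommRing T] [Algebra k T] (a : T) :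
    Fbr (evA k a).toRingHom (Polynomial.X - Polynomial.C a) (rt T[X]) (rt T)
      (evA k a).toRingHom.toAddMonoidHom := by
  refine ⟨fun r w => map_mul (evA k a) r w, fun d w => rfl, fun t => ⟨Polynomial.C t, ?_⟩,
    fun w => ?_⟩
  · exact Polynomial.aeval_C a t
  · show Polynomial.aeval a w = 0 ↔ ∃ y, w = (Polynomial.X - Polynomial.C a) * y
    rw [Polynomial.coe_aeval_eq_eval]
    exact Polynomial.dvd_iff_isRoot.symm

end Pool.Agent.CXD
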