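import Pool.Agent.P.MP_2ce3e7_ag.CPA3
import Pool.Agent.P.MP_2ce3e7_ag.CPA4

attribute [local instance] Pool.Agent.CXD.instAddCommGroupRs Pool.Agent.CXD.instModuleRs
  Pool.Agent.CXD.instModuleRs_1 Pool.Agent.CXD.instIsScalarTowerRs
  Pool.Agent.CXD.instSMulCommClassRs Pool.Agent.CXD.instAddCommGroupBox
  Pool.Agent.CXD.instModuleTensorProductBox Pool.Agent.CXD.finite_box

/-! Fibres and cyclic exterior products. -/

set_option linter.unusedSectionVars false
set_option linter.unusedVariables false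

open Function Filter
open scoped TensorProduct Polynomial

noncomputable section

namespace Pool.Agent.CXD

variable {k T T' A A' Γ Γ' : Type} [Field k] [CommRing T] [Algebra k T] [CommRing T']
  [Algebra k T'] [CommRing A] [Algebra k A] [CommRing A'] [Algebra k A'] [AddCommGroup Γ]
  [AddCommGroup Γ'] {𝒜 : Γ → Set A} {𝒜' : Γ' → Set A'} [Gd 𝒜] [Gk k 𝒜] [Gd 𝒜'] [Gk k 𝒜']
  {W W₂ W₃ : GM (tv T)} {Y Y₂ Y₃ : GM 𝒜}

theorem gb_alg_CPA5 {U : GM 𝒜} {U' : GM 𝒜'} (c : k) (x : U.M) (y : U'.M) :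
    gb k U U' (algebraMap k A c • x) y = gb k U U' x (algebraMap k A' c • y) :=
  TensorProduct.smul_tmul (R := k) (R' := k) (M := Rs k A U.M) (N := Rs k A' U'.M) c x y

theorem gbx_fbr {χ : T' →ₐ[k] T} {x : T'} {W' : GM (tv T')} {g : W'.M →+ W.M}
    (h : Fbr χ.toRingHom x W' W g) (Y : GM 𝒜) :
    ∃ G : (gbx k W' Y).M →+ (gbx k W Y).M,
      Fbr (mq χ A) (x ⊗ₜ[k] (1 : A)) (gbx k W' Y) (gbx k W Y) G := by
  let gk : Rs k T' W'.M →ₗ[k] Rs k T W.M :=
    { toFun := fun w => g w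
      map_add' := fun w w' => g.map_add w w'
      map_smul' := fun c w => by
        have e : g (algebraMap k T' c • (show W'.M from w)) =
            algebraMap k T c • g (show W'.M from w) := by
          rw [h.smul]
          exact congrArg (fun b : T => b • g (show W'.M from w)) (χ.commutes c)
        exact e }
  let G : (gbx k W' Y).M →+ (gbx k W Y).M :=
    (LinearMap.rTensor (Rs k A Y.M) gk).toAddMonoidHom
  have hG : ∀ w y, G (bb k W' Y w y) = bb k W Y (g w) y := fun w y => rfl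
  let L : (gbx k W' Y).M →+ (gbx k W' Y).M :=
    (LinearMap.rTensor (Rs k A Y.M)
      (rsLin_CYC (k := k) (LinearMap.lsmul T' W'.M x))).toAddMonoidHom
  have hL : ∀ w y, L (bb k W' Y w y) = bb k W' Y (x • w) y := fun w y => rfl
  have hL' : ∀ ξ, L ξ = (x ⊗ₜ[k] (1 : A)) • ξ := by
    intro ξ
    refine gbx_ind (p := fun ξ => L ξ = (x ⊗ₜ[k] (1 : A)) • ξ) ?_ (fun w d y _ => ?_)
      (fun u v hu hv => ?_) ξ
    · rw [map_zero, smul_zero]
    · rw [hL, smul_bb, one_smul]
    · rw [map_add, smul_add, hu, hv]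
  have hex : Exact (rsLin_CYC (k := k) (LinearMap.lsmul T' W'.M x)) gk := by
    intro w
    refine (h.ker w).trans ⟨?_, ?_⟩
    · rintro ⟨y, hy⟩
      exact ⟨y, hy.symm⟩
    · rintro ⟨y, hy⟩
      exact ⟨y, hy.symm⟩
  have hE : Exact L G := rTensor_exact (Rs k A Y.M) hex h.sur
  refine ⟨G, fun r ξ => ?_, fun d ξ => ?_, ?_, fun ξ => ?_⟩
  · induction r using TensorProduct.induction_on with
    | zero => rw [zero_smul, map_zero, map_zero, zero_smul]
    | add c d hc hd => rw [add_smul, map_add, map_add, add_smul, hc, hd]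
    | tmul t a =>
      refine gbx_ind (p := fun ξ => G (t ⊗ₜ[k] a • ξ) = mq χ A (t ⊗ₜ[k] a) • G ξ) ?_
        (fun w d y _ => ?_) (fun u v hu hv => ?_) ξ
      · rw [smul_zero, map_zero, smul_zero]
      · rw [smul_bb, hG, hG, mq_tmul, smul_bb, h.smul]
        rfl
      · rw [smul_add, map_add, map_add, smul_add, hu, hv]
  · refine gbx_ind (p := fun ξ => G ((gbx k W' Y).π d ξ) = (gbx k W Y).π d (G ξ)) ?_
      (fun w e y _ => ?_) (fun u v hu hv => ?_) ξ
    · simp only [map_zero]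
    · rw [gbx_π, hG, hG, gbx_π]
    · simp only [map_add, hu, hv]
  · exact LinearMap.rTensor_surjective (Rs k A Y.M) (g := gk) h.sur
  · refine (hE ξ).trans ⟨?_, ?_⟩
    · rintro ⟨y, hy⟩
      exact ⟨y, by rw [← hL', hy]⟩
    · rintro ⟨y, hy⟩
      exact ⟨y, by rw [hL', hy]⟩

theorem gbx_bc (N : GM 𝒜) :
    BC (Algebra.TensorProduct.includeRight : A →ₐ[k] T ⊗[k] A).toRingHom N (gbx k (rt T) N) := by
  have hb : ∀ (t : T) (n : N.M),
      (t ⊗ₜ[k] (1 : A)) • bb k (rt T) N (1 : T) n = bb k (rt T) N t n := by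
    intro t n
    rw [smul_bb, one_smul]
    exact congrArg (fun s : T => bb k (rt T) N s n) (mul_one t)
  refine ⟨{ toFun := fun n => bb k (rt T) N (1 : T) n
            map_add' := fun n n' => map_add _ n n'
            map_smul' := fun a n => ?_ }, fun d n => (gbx_π d _ n).symm, fun P _ _ j => ?_⟩
  · change bb k (rt T) N (1 : T) (a • n) = ((1 : T) ⊗ₜ[k] a) • bb k (rt T) N (1 : T) n
    rw [smul_bb, one_smul]
  · have hj : ∀ (a : A) n, j (a • n) = ((1 : T) ⊗ₜ[k] a) • j n := fun a n => j.map_smulₛₗ a n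
    let F : T →+ N.M →+ P := AddMonoidHom.mk'
      (fun t => AddMonoidHom.mk' (fun n => (t ⊗ₜ[k] (1 : A)) • j n) fun n n' => by
        rw [map_add, smul_add])
      fun t t' => AddMonoidHom.ext fun n => by
        change ((t + t') ⊗ₜ[k] (1 : A)) • j n = (t ⊗ₜ[k] (1 : A)) • j n + (t' ⊗ₜ[k] (1 : A)) • j n
        rw [TensorProduct.add_tmul, add_smul]
    obtain ⟨g, hg⟩ := gbx_lift (k := k) (W := rt T) (Y := N) F fun c t n => by
      change ((algebraMap k T c * t) ⊗ₜ[k] (1 : A)) • j n =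
        (t ⊗ₜ[k] (1 : A)) • j (algebraMap k A c • n)
      rw [hj, ← alg_tmul_CWJ2, ← mul_smul, Algebra.TensorProduct.tmul_mul_tmul, mul_one,
        mul_comm t]
    have hg' : ∀ (t : T) n, g (bb k (rt T) N t n) = (t ⊗ₜ[k] (1 : A)) • j n := hg
    have hs : ∀ (r : T ⊗[k] A) ξ, g (r • ξ) = r • g ξ := by
      intro r ξ
      induction r using TensorProduct.induction_on with
      | zero => rw [zero_smul, map_zero, zero_smul]
      | add c d hc hd => rw [add_smul, map_add, add_smul, hc, hd]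
      | tmul s a =>
        refine gbx_ind (p := fun ξ => g (s ⊗ₜ[k] a • ξ) = s ⊗ₜ[k] a • g ξ) ?_
          (fun t d n _ => ?_) (fun u v hu hv => ?_) ξ
        · rw [smul_zero, map_zero, smul_zero]
        · rw [smul_bb, hg', hg', hj, ← mul_smul, ← mul_smul, Algebra.TensorProduct.tmul_mul_tmul,
            Algebra.TensorProduct.tmul_mul_tmul, mul_one, mul_one, one_mul, smul_eq_mul]
        · rw [smul_add, map_add, map_add, smul_add, hu, hv]
    refine ⟨{ toFun := g, map_add' := g.map_add, map_smul' := hs }, fun n => ?_, fun g' h' => ?_⟩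
    · change g (bb k (rt T) N (1 : T) n) = j n
      rw [hg', ← Algebra.TensorProduct.one_def, one_smul]
    · have h'' : ∀ n, g' (bb k (rt T) N (1 : T) n) = j n := h'
      refine LinearMap.ext fun ξ => ?_
      change g' ξ = g ξ
      refine gbx_ind (p := fun ξ => g' ξ = g ξ) ?_ (fun t d n _ => ?_) (fun u v hu hv => ?_) ξ
      · rw [map_zero, map_zero]
      · rw [hg', ← hb, g'.map_smul, h'']
      · rw [map_add, map_add, hu, hv]

theorem cy_gbox_CPA5 {U : GM 𝒜} {e : U.M} {U' : GM 𝒜'} {e' : U'.M} {I : Ideal A'}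
    (h : Cy U e ⊥) (h' : Cy U' e' I) :
    Cy (gbox k U U') (gb k U U' e e') (I.map (inr k A A')) := by
  refine ⟨?_, eq_top_iff.2 fun ξ _ => ?_, fun r => ⟨fun hr => ?_, fun hr => ?_⟩⟩
  · rw [gbox_π]
    exact congrArg₂ (fun x y => gb k U U' x y) h.hom h'.hom
  · refine gbox_ind (k := k) (N := U) (M := U')
      (p := fun ξ => ξ ∈ Submodule.span (A ⊗[k] A') {gb k U U' e e'}) (zero_mem _)
      (fun _ x _ y _ _ => ?_) (fun u v hu hv => add_mem hu hv) ξ
    obtain ⟨a, rfl⟩ := h.exists_smul x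
    obtain ⟨a', rfl⟩ := h'.exists_smul y
    rw [← smul_gb]
    exact Submodule.smul_mem _ _ (Submodule.mem_span_singleton_self _)
  · obtain ⟨c, hc, -⟩ := h.exists_coord
    choose s hs using h'.exists_smul
    have key : ∀ (a : A) (a' : A') (y : U'.M), a' • e' = y →
        Ideal.Quotient.mk (I.map (inr k A A')) (a ⊗ₜ[k] s y) =
          Ideal.Quotient.mk (I.map (inr k A A')) (a ⊗ₜ[k] a') := by
      intro a a' y hy
      have h1 : s y - a' ∈ I := (h'.ann _).1 (by rw [sub_smul, hs, hy, sub_self])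
      have h2 := (I.map (inr k A A')).mul_mem_left (a ⊗ₜ[k] (1 : A'))
        (Ideal.mem_map_of_mem (inr k A A') h1)
      have h3 : (a ⊗ₜ[k] (1 : A')) * inr k A A' (s y - a') = a ⊗ₜ[k] s y - a ⊗ₜ[k] a' := by
        change (a ⊗ₜ[k] (1 : A')) * ((1 : A) ⊗ₜ[k] (s y - a')) = _
        rw [Algebra.TensorProduct.tmul_mul_tmul, mul_one, one_mul, TensorProduct.tmul_sub]
      rw [h3] at h2
      exact Ideal.Quotient.eq.2 h2
    let F : U.M →+ U'.M →+ (A ⊗[k] A') ⧸ I.map (inr k A A') := AddMonoidHom.mk'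
      (fun x => AddMonoidHom.mk'
        (fun y => Ideal.Quotient.mk (I.map (inr k A A')) (c x ⊗ₜ[k] s y)) fun y y' => by
          rw [key (c x) (s y + s y') (y + y') (by rw [add_smul, hs, hs]), TensorProduct.tmul_add,
            map_add])
      fun x x' => AddMonoidHom.ext fun y => by
        change Ideal.Quotient.mk (I.map (inr k A A')) (c (x + x') ⊗ₜ[k] s y) =
          Ideal.Quotient.mk (I.map (inr k A A')) (c x ⊗ₜ[k] s y) +
            Ideal.Quotient.mk (I.map (inr k A A')) (c x' ⊗ₜ[k] s y)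
        rw [map_add, TensorProduct.add_tmul, map_add]
    obtain ⟨ρ, hρ⟩ := gbox_lift (k := k) (N := U) (M := U') F fun t x y => by
      change Ideal.Quotient.mk (I.map (inr k A A')) (c (algebraMap k A t • x) ⊗ₜ[k] s y) =
        Ideal.Quotient.mk (I.map (inr k A A')) (c x ⊗ₜ[k] s (algebraMap k A' t • y))
      rw [key (c x) (algebraMap k A' t * s y) _ (by rw [mul_smul, hs]), c.map_smul, smul_eq_mul,
        ← Algebra.smul_def, ← Algebra.smul_def, TensorProduct.smul_tmul]
    have hρ' : ∀ x y, ρ (gb k U U' x y) =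
        Ideal.Quotient.mk (I.map (inr k A A')) (c x ⊗ₜ[k] s y) := hρ
    have hall : ∀ r : A ⊗[k] A',
        ρ (r • gb k U U' e e') = Ideal.Quotient.mk (I.map (inr k A A')) r := by
      intro r
      induction r using TensorProduct.induction_on with
      | zero => rw [zero_smul, map_zero, map_zero]
      | add c d hc hd => rw [add_smul, map_add, map_add, hc, hd]
      | tmul a a' => rw [smul_gb, hρ', hc, key a a' _ rfl]
    have h0 := hall r
    rw [hr, map_zero] at h0
    exact Ideal.Quotient.eq_zero_iff_mem.1 h0.symm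
  · exact kill_box (k := k) (K := A) (N := U.M) h'.kill r hr _

theorem Cy.gbx {U : GM 𝒜} {e : U.M} (h : Cy U e ⊥) :
    Cy (gbx k (rt T) U) (bb k (rt T) U 1 e) ⊥ := by
  have H := cy_gbox_CPA5 (k := k) (cy_triv T) h
  rw [Ideal.map_bot] at H
  exact ⟨H.hom, H.gen, H.ann⟩

theorem Cy.gbox {U : GM 𝒜} {e : U.M} {U' : GM 𝒜'} {e' : U'.M} {I : Ideal A'} (h : Cy U e ⊥)
    (h' : Cy U' e' I) : Cy (gbox k U U') (gb k U U' e e') (I.map (inr k A A')) :=
  cy_gbox_CPA5 h h'

theorem gbox_reg {U : GM 𝒜} {U' : GM 𝒜'} {w : A'} (h : ∀ x : U'.M, w • x = 0 → x = 0)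
    (x : (CXD.gbox k U U').M) (hx : inr k A A' w • x = 0) : x = 0 := by
  obtain ⟨r, hr, hr'⟩ := exists_retr k (LinearMap.lsmul A' U'.M w)
    ((injective_iff_map_eq_zero _).2 h)
  have hr1 : ∀ y, r (w • y) = y := hr
  obtain ⟨R, hR⟩ := gbox_lift (k := k) (N := U) (M := U') ((gb k U U').flip.comp r).flip
    fun c x y => by
      change gb k U U' (algebraMap k A c • x) (r y) = gb k U U' x (r (algebraMap k A' c • y))
      rw [hr', gb_alg_CPA5]
  have hR' : ∀ x y, R (gb k U U' x y) = gb k U U' x (r y) := hR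
  have key : ∀ ξ, R (inr k A A' w • ξ) = ξ := by
    intro ξ
    refine gbox_ind (k := k) (N := U) (M := U') (p := fun ξ => R (inr k A A' w • ξ) = ξ) ?_
      (fun _ x _ y _ _ => ?_) (fun u v hu hv => ?_) ξ
    · rw [smul_zero, map_zero]
    · change R (((1 : A) ⊗ₜ[k] w) • gb k U U' x y) = gb k U U' x y
      rw [smul_gb, one_smul, hR', hr1]
    · rw [smul_add, map_add, hu, hv]
  rw [← key x, hx, map_zero]

end Pool.Agent.CXD
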