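import Pool.Agent.P.MP_2ce3e7_ag.CPA2

/-! Modules that are projective after inverting an element. -/

set_option linter.unusedSectionVars false
set_option linter.unusedVariables false

open Function Filter
open scoped TensorProduct Polynomial

noncomputable section

namespace Pool.Agent.CXD

/-- a direct factor of a free module of finite rank, up to a power of `s` -/
def Qp {D : Type} [CommRing D] (s : D) (X : Type) [AddCommGroup X] [Module D X] : Prop :=
  ∃ (n m : ℕ) (a : X →ₗ[D] (Fin n → D)) (b : (Fin n → D) →ₗ[D] X), ∀ x, b (a x) = s ^ m • x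

section
variable {D X Y : Type} [CommRing D] [AddCommGroup X] [Module D X] [AddCommGroup Y] [Module D Y]

theorem Nil.of_radical {S S' : Set D} (h : Nil S X) (hS : ∀ f ∈ S', f ∈ (Ideal.span S).radical) :
    Nil S' X := by
  intro f hf x
  have hle : Ideal.span S ≤ Ideal.radical (LinearMap.ker (LinearMap.toSpanSingleton D X x)) := by
    rw [Ideal.span_le]
    intro a ha
    obtain ⟨m, hm⟩ := h a ha x
    exact ⟨m, hm⟩
  obtain ⟨n, hn⟩ := hS f hf
  obtain ⟨m, hm⟩ := hle hn
  exact ⟨n * m, by rw [pow_mul]; exact hm⟩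

theorem Nil.subsingleton (h : Nil {(1 : D)} X) : Subsingleton X := by
  refine subsingleton_of_forall_eq 0 fun x => ?_
  obtain ⟨m, hm⟩ := h 1 rfl x
  rwa [one_pow, one_smul] at hm

theorem nil_of_subsingleton [Subsingleton X] (S : Set D) : Nil S X := by
  exact fun _ _ _ => ⟨0, Subsingleton.elim _ _⟩

theorem Qp.of_nil [Module.Finite D X] {S : Set D} (h : Nil S X) {s : D} (hs : s ∈ S) : Qp s X := by
  obtain ⟨m, hm⟩ := h.exists_pow hs
  exact ⟨0, m, 0, 0, fun x => (hm x).symm⟩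

theorem Qp.retract {s : D} (h : Qp s Y) (a : X →ₗ[D] Y) (b : Y →ₗ[D] X) {m : ℕ}
    (hab : ∀ x, b (a x) = s ^ m • x) : Qp s X := by
  obtain ⟨n, m', a', b', h'⟩ := h
  refine ⟨n, m' + m, a' ∘ₗ a, b ∘ₗ b', fun x => ?_⟩
  change b (b' (a' (a x))) = _
  rw [h', map_smul, hab, pow_add, mul_smul]

theorem Qp.mul {s : D} (h : Qp s X) (t : D) : Qp (t * s) X := by
  obtain ⟨n, m, a, b, h'⟩ := h
  refine ⟨n, m, a, t ^ m • b, fun x => ?_⟩
  rw [LinearMap.smul_apply, h', mul_pow, mul_smul]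

theorem qp_pi (s : D) (ι : Type) [Fintype ι] : Qp s (ι → D) := by
  refine ⟨Fintype.card ι, 0, (LinearEquiv.funCongrLeft D D (Fintype.equivFin ι)).symm.toLinearMap,
    (LinearEquiv.funCongrLeft D D (Fintype.equivFin ι)).toLinearMap, fun x => ?_⟩
  rw [pow_zero, one_smul]
  exact (LinearEquiv.funCongrLeft D D (Fintype.equivFin ι)).apply_symm_apply x

/-- a short exact sequence with such a quotient splits up to a power of `s` -/
theorem Qp.split {Z : Type} [AddCommGroup Z] [Module D Z] {s : D} (h : Qp s Z) {f : X →ₗ[D] Y}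
    {g : Y →ₗ[D] Z} (hs : Sx f g) : ∃ (m : ℕ) (ρ : Y →ₗ[D] X), ∀ x, ρ (f x) = s ^ m • x := by
  obtain ⟨n, m, a, b, h'⟩ := h
  obtain ⟨hi, hsur, hex⟩ := hs
  obtain ⟨b', hb'⟩ := Module.projective_lifting_property g b hsur
  let ρ' : Y →ₗ[D] Y := s ^ m • LinearMap.id - b' ∘ₗ a ∘ₗ g
  have hρ' : ∀ y, ρ' y = s ^ m • y - b' (a (g y)) := fun _ => rfl
  have hr : ∀ y, ρ' y ∈ LinearMap.range f := fun y => (hex _).1 (by
    have e : g (b' (a (g y))) = b (a (g y)) := LinearMap.congr_fun hb' _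
    rw [hρ', map_sub, map_smul, e, h', sub_self])
  refine ⟨m, (LinearEquiv.ofInjective f hi).symm.toLinearMap ∘ₗ LinearMap.codRestrict _ ρ' hr,
    fun x => hi ?_⟩
  have e1 : f (((LinearEquiv.ofInjective f hi).symm.toLinearMap ∘ₗ
      LinearMap.codRestrict _ ρ' hr) (f x)) = ρ' (f x) :=
    congrArg Subtype.val ((LinearEquiv.ofInjective f hi).apply_symm_apply
      (LinearMap.codRestrict _ ρ' hr (f x)))
  have e2 : g (f x) = 0 := (hex _).2 ⟨x, rfl⟩
  rw [e1, hρ', e2, map_zero, map_zero, sub_zero, map_smul]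

end

end Pool.Agent.CXD
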