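import Pool.Agent.P.MP_2ce3e7_ag.CPB

attribute [local instance] Pool.Agent.CXD.instAddCommGroupRr Pool.Agent.CXD.Rr.big
  Pool.Agent.CXD.Rr.small Pool.Agent.CXD.instSMulCommClassRr

/-! The tensor product as a functor of the module over the small ring. -/

set_option linter.unusedSectionVars false
set_option linter.unusedVariables false

open Function Filter
open scoped TensorProduct Polynomial

noncomputable section

namespace Pool.Agent.CXD

variable {D D' R Γ Γ' Γ'' : Type} [CommRing D] [CommRing D'] [CommRing R] [AddCommGroup Γ]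
  [AddCommGroup Γ'] [AddCommGroup Γ''] {𝒟 : Γ → Set D} {𝒟' : Γ' → Set D'} {ℛ : Γ'' → Set R}
  {ι : D →+* R} {δ : Γ →+ Γ''} [Gd 𝒟] (h : Hm ι 𝒟 ℛ δ) {V V₂ V₃ : GM 𝒟} {Y Y₂ Y₃ : GM ℛ}

theorem tens_eq {ι₂ : D →+* R} {δ₂ : Γ →+ Γ''} (h₂ : Hm ι₂ 𝒟 ℛ δ₂) (e₁ : ι = ι₂) (e₂ : δ = δ₂)
    (V : GM 𝒟) (Y : GM ℛ) : tens h V Y = tens h₂ V Y := by
  subst e₁ e₂
  rfl

theorem tens_lmap (g : V.M →ₗ[D] V₂.M) (Y : GM ℛ) :
    ∃ G : (tens h V Y).M →ₗ[R] (tens h V₂ Y).M, (∀ y v, G (tt h V Y y v) = tt h V₂ Y y (g v)) ∧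
      ∀ x, G x = g.lTensor (Rr ι Y.M) x := by
  obtain ⟨G, hG⟩ := tens_lift (h := h) (V := V) (Y := Y)
    ((tt h V₂ Y).compl₂ g.toAddMonoidHom) (fun a y v => by
      show tt h V₂ Y (ι a • y) (g v) = tt h V₂ Y y (g (a • v))
      rw [g.map_smul, tt_bal])
  have hG' : ∀ y v, G (tt h V Y y v) = tt h V₂ Y y (g v) := hG
  have hsm : ∀ (a : R) x, G (a • x) = a • G x := by
    intro a x
    induction x using tens_ind with
    | h0 => simp only [smul_zero, map_zero]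
    | h1 γ y c v _ _ => rw [tt_smul, hG', hG', tt_smul]
    | h2 x x' hx hx' => rw [smul_add, map_add, map_add, hx, hx', smul_add]
  refine ⟨{ toFun := G, map_add' := map_add G, map_smul' := hsm }, hG', fun x => ?_⟩
  show G x = _
  induction x using tens_ind with
  | h0 => exact (map_zero G).trans (map_zero (g.lTensor (Rr ι Y.M))).symm
  | h1 γ y c v _ _ => exact hG' y v
  | h2 x x' hx hx' =>
    rw [map_add, hx, hx']
    exact (map_add (g.lTensor (Rr ι Y.M)) x x').symm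

theorem tens_isG {g : V.M →ₗ[D] V₂.M} (hg : IsG g) {G : (tens h V Y).M →ₗ[R] (tens h V₂ Y).M}
    (hG : ∀ y v, G (tt h V Y y v) = tt h V₂ Y y (g v)) : IsG G := by
  intro d x
  induction x using tens_ind with
  | h0 => simp only [map_zero]
  | h1 γ y c v _ hv => rw [tens_π d y hv, hG, hG, tens_π d y (hg.hom hv)]
  | h2 x x' hx hx' => simp only [map_add, hx, hx']

theorem tens_rightV {f : V.M →ₗ[D] V₂.M} {g : V₂.M →ₗ[D] V₃.M} (hf : IsG f) (hg : IsG g)
    (hs : Surjective g) (he : Exact f g) (Y : GM ℛ) :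
    ∃ (F : (tens h V Y).M →ₗ[R] (tens h V₂ Y).M) (G : (tens h V₂ Y).M →ₗ[R] (tens h V₃ Y).M),
      IsG F ∧ IsG G ∧ Surjective G ∧ Exact F G ∧
        (∀ y v, F (tt h V Y y v) = tt h V₂ Y y (f v)) ∧ ∀ x, F x = f.lTensor (Rr ι Y.M) x := by
  obtain ⟨F, hF, eF⟩ := tens_lmap h f Y
  obtain ⟨G, hG, eG⟩ := tens_lmap h g Y
  refine ⟨F, G, tens_isG h hf hF, tens_isG h hg hG, ?_, ?_, hF, eF⟩
  · intro x
    obtain ⟨y, hy⟩ := LinearMap.lTensor_surjective (Rr ι Y.M) hs x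
    exact ⟨y, (eG y).trans hy⟩
  · intro x
    have := lTensor_exact (Rr ι Y.M) he hs x
    constructor
    · intro hx
      obtain ⟨y, hy⟩ := this.1 ((eG x).symm.trans hx)
      exact ⟨y, (eF y).trans hy⟩
    · rintro ⟨y, hy⟩
      exact (eG x).trans (this.2 ⟨y, (eF y).symm.trans hy⟩)

theorem tens_sesV {τ : Type} {s : τ → D} (hV : ∀ j, Qp (s j) V₃.M) (hs : Ses V V₂ V₃) (Y : GM ℛ) :
    ∃ (F : (tens h V Y).M →ₗ[R] (tens h V₂ Y).M) (G : (tens h V₂ Y).M →ₗ[R] (tens h V₃ Y).M),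
      IsG F ∧ IsG G ∧ Surjective G ∧ Exact F G ∧
        Nil (Set.range fun j => ι (s j)) (LinearMap.ker F) := by
  obtain ⟨f, g, hf, hg, hsx⟩ := hs
  obtain ⟨F, G, h1, h2, h3, h4, hF, -⟩ := tens_rightV h hf hg hsx.2.1 hsx.2.2 Y
  refine ⟨F, G, h1, h2, h3, h4, ?_⟩
  rintro _ ⟨j, rfl⟩ ⟨x, hx⟩
  obtain ⟨m, ρ, hρ⟩ := (hV j).split hsx
  obtain ⟨P, hP, -⟩ := tens_lmap h ρ Y
  have key : ∀ x, P (F x) = ι (s j) ^ m • x := by
    intro x
    induction x using tens_ind with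
    | h0 => simp only [map_zero, smul_zero]
    | h1 γ y c v _ _ => rw [hF, hP, hρ, ← tt_bal, tt_smul, map_pow]
    | h2 x x' hx hx' => rw [map_add, map_add, hx, hx', smul_add]
  refine ⟨m, Subtype.ext ?_⟩
  show ι (s j) ^ m • x = 0
  rw [← key, LinearMap.mem_ker.1 hx, map_zero]

theorem tens_nilV {S : Set D} (hS : Nil S V.M) (Y : GM ℛ) : Nil (ι '' S) (tens h V Y).M := by
  rintro _ ⟨f, hf, rfl⟩ x
  induction x using tens_ind with
  | h0 => exact ⟨0, smul_zero _⟩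
  | h1 γ y c v _ _ =>
    obtain ⟨m, hm⟩ := hS f hf v
    exact ⟨m, by rw [tt_smul, ← map_pow, tt_bal, hm, map_zero]⟩
  | h2 x x' hx hx' =>
    obtain ⟨m, hm⟩ := hx
    obtain ⟨m', hm'⟩ := hx'
    refine ⟨m + m', ?_⟩
    rw [smul_add, pow_add, mul_smul, mul_smul, hm', smul_zero, add_zero, smul_comm, hm, smul_zero]

theorem tens_shiftV (V : GM 𝒟) (Y : GM ℛ) (c : Γ) :
    ∃ g : (tens h (V.shift c) Y).M →ₗ[R] ((tens h V Y).shift (δ c)).M, IsG g ∧ Bijective g := by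
  let e : (tens h (V.shift c) Y).M →ₗ[R] (tens h V Y).M :=
    { toFun := fun x => x, map_add' := fun _ _ => rfl, map_smul' := fun _ _ => rfl }
  have he : ∀ y v, e (tt h (V.shift c) Y y v) = tt h V Y y v := fun _ _ => rfl
  refine ⟨e, fun d x => ?_, bijective_id⟩
  show e ((tens h (V.shift c) Y).π d x) = (tens h V Y).π (δ c + d) (e x)
  induction x using tens_ind with
  | h0 => simp only [map_zero]
  | h1 γ y c' v _ hv =>
    rw [tens_π d y hv, he, he, tens_π (δ c + d) y (c := c + c') hv,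
      show δ c + d - δ (c + c') = d - δ c' by rw [map_add]; abel]
  | h2 x x' hx hx' => simp only [map_add, hx, hx']

theorem tens_shiftY (V : GM 𝒟) (Y : GM ℛ) (c : Γ'') :
    ∃ g : (tens h V (Y.shift c)).M →ₗ[R] ((tens h V Y).shift c).M, IsG g ∧ Bijective g := by
  let e : (tens h V (Y.shift c)).M →ₗ[R] (tens h V Y).M :=
    { toFun := fun x => x, map_add' := fun _ _ => rfl, map_smul' := fun _ _ => rfl }
  have he : ∀ y v, e (tt h V (Y.shift c) y v) = tt h V Y y v := fun _ _ => rfl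
  refine ⟨e, fun d x => ?_, bijective_id⟩
  show e ((tens h V (Y.shift c)).π d x) = (tens h V Y).π (c + d) (e x)
  induction x using tens_ind with
  | h0 => simp only [map_zero]
  | h1 γ y c' v _ hv =>
    rw [tens_π d y hv, he, he, tens_π (Y := Y) (c + d) y hv, add_sub_assoc]
  | h2 x x' hx hx' => simp only [map_add, hx, hx']

theorem tens_congrY (V : GM 𝒟) {f : Y.M →ₗ[R] Y₂.M} (hf : IsG f) (hb : Bijective f) :
    ∃ g : (tens h V Y).M →ₗ[R] (tens h V Y₂).M, IsG g ∧ Bijective g := by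
  let e := LinearEquiv.ofBijective f hb
  have he : ∀ y, e y = f y := fun _ => rfl
  have hf' : IsG (M := Y₂) (N := Y) e.symm.toLinearMap := by
    intro d y
    apply hb.1
    show f (e.symm (Y₂.π d y)) = f (Y.π d (e.symm y))
    rw [hf, ← he, ← he, e.apply_symm_apply, e.apply_symm_apply]
  obtain ⟨F, hF, eF⟩ := tens_map h V hf
  obtain ⟨G, -, eG⟩ := tens_map h V hf'
  refine ⟨F, hF, bijective_iff_has_inverse.2 ⟨G, fun x => ?_, fun x => ?_⟩⟩
  · induction x using tens_ind with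
    | h0 => simp only [map_zero]
    | h1 γ y c v _ _ =>
      rw [eF, eG, ← he]
      exact congrArg (fun t => tt h V Y t v) (e.symm_apply_apply y)
    | h2 x x' hx hx' => rw [map_add, map_add, hx, hx']
  · induction x using tens_ind with
    | h0 => simp only [map_zero]
    | h1 γ y c v _ _ =>
      rw [eG, eF, ← he]
      exact congrArg (fun t => tt h V Y₂ t v) (e.apply_symm_apply y)
    | h2 x x' hx hx' => rw [map_add, map_add, hx, hx']

end Pool.Agent.CXD
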