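import Pool.Agent.P.MP_2ce3e7_ag.CWF

/-! The generic length of a graded module. -/

set_option linter.unusedSectionVars false
set_option linter.unusedVariables false

open Function

noncomputable section

namespace Pool.Agent.CXD

variable {A Γ : Type} [CommRing A] [AddCommGroup Γ] {𝒜 : Γ → Set A}

/-- every degree is the difference of the degrees of two elements outside `P` -/
def Shf (𝒜 : Γ → Set A) (P : Ideal A) : Prop :=
  ∀ γ, ∃ c, ∃ a ∈ cl 𝒜 c, ∃ b ∈ cl 𝒜 (c + γ), a ∉ P ∧ b ∉ P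

variable [Gd 𝒜] {C C' M : GM 𝒜} {P : Ideal A} {l : GM 𝒜 → ℚ}

theorem shf_of_gen (hP : P.IsPrime) {G : Set Γ} (hG : AddSubgroup.closure G = ⊤)
    (h : ∀ u ∈ G, ∃ z ∈ cl 𝒜 u, z ∉ P) : Shf 𝒜 P := by
  intro γ
  have h1 : (1 : A) ∉ P := fun h1 => hP.ne_top ((Ideal.eq_top_iff_one P).2 h1)
  have hm : ∀ a b : A, a ∉ P → b ∉ P → a * b ∉ P := fun a b ha hb hab =>
    (hP.mem_or_mem hab).elim ha hb
  have hγ : γ ∈ AddSubgroup.closure G := hG ▸ AddSubgroup.mem_top γ
  induction hγ using AddSubgroup.closure_induction with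
  | mem u hu =>
    obtain ⟨z, hz, hzP⟩ := h u hu
    exact ⟨0, 1, cl_one, z, by rwa [zero_add], h1, hzP⟩
  | zero => exact ⟨0, 1, cl_one, 1, by rw [zero_add]; exact cl_one, h1, h1⟩
  | add u v _ _ hu hv =>
    obtain ⟨c, a, ha, b, hb, haP, hbP⟩ := hu
    obtain ⟨c', a', ha', b', hb', haP', hbP'⟩ := hv
    refine ⟨c + c', a * a', cl_mul ha ha', b * b', ?_, hm _ _ haP haP', hm _ _ hbP hbP'⟩
    rw [add_add_add_comm]
    exact cl_mul hb hb'
  | neg u _ hu =>
    obtain ⟨c, a, ha, b, hb, haP, hbP⟩ := hu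
    exact ⟨c + u, b, hb, a, by rwa [add_neg_cancel_right], hbP, haP⟩

theorem cyc_iso {d : Γ} {x : C.M} {x' : C'.M} (hx : C.π d x = x) (hx' : C'.π d x' = x')
    (hs : Submodule.span A {x} = ⊤) (hs' : Submodule.span A {x'} = ⊤)
    (ha : ∀ a : A, a • x = 0 ↔ a • x' = 0) : ∃ f : C.M →ₗ[A] C'.M, IsG f ∧ Bijective f := by
  have hx1 : ∀ y : C.M, ∃ a : A, a • x = y := fun y =>
    Submodule.mem_span_singleton.1 (hs ▸ Submodule.mem_top)
  have hx2 : ∀ y : C'.M, ∃ a : A, a • x' = y := fun y =>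
    Submodule.mem_span_singleton.1 (hs' ▸ Submodule.mem_top)
  choose s hsx using hx1
  have key : ∀ (a : A) (y : C.M), a • x = y → s y • x' = a • x' := by
    intro a y hy
    have h0 : (s y - a) • x = 0 := by rw [sub_smul, hsx, hy, sub_self]
    have h1 := (ha _).1 h0
    rwa [sub_smul, sub_eq_zero] at h1
  let f : C.M →ₗ[A] C'.M :=
    { toFun := fun y => s y • x'
      map_add' := fun y z => by
        rw [key (s y + s z) (y + z) (by rw [add_smul, hsx, hsx]), add_smul]
      map_smul' := fun r y => by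
        rw [key (r * s y) (r • y) (by rw [mul_smul, hsx]), mul_smul, RingHom.id_apply] }
  have hf : ∀ a : A, f (a • x) = a • x' := fun a => key a _ rfl
  have hf1 : f x = x' := by simpa using hf 1
  refine ⟨f, ?_, ?_, ?_⟩
  · intro e y
    rw [← hsx y]
    generalize s y = a
    induction a using Gd.ind 𝒜 with
    | h0 => simp
    | h1 c a hc =>
      have he : e = c + (e - c) := by abel
      rw [hf, he, C.π_cl (mem_cl hc), C'.π_cl (mem_cl hc), map_smul]
      by_cases hd : e - c = d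
      · rw [hd, hx, hx', hf1]
      · rw [GM.π_of_ne hx hd, GM.π_of_ne hx' hd, map_zero]
    | h2 a b iha ihb => rw [add_smul, map_add, map_add, map_add, map_add, iha, ihb]
    | h3 a iha => rw [neg_smul, map_neg, map_neg, map_neg, map_neg, iha]
  · rw [injective_iff_map_eq_zero]
    intro y hy
    rw [← hsx y] at hy ⊢
    rw [hf] at hy
    exact (ha _).2 hy
  · intro y
    obtain ⟨a, rfl⟩ := hx2 y
    exact ⟨a • x, hf a⟩

variable [UniqueSums Γ] [IsNoetherianRing A]

theorem span_top_CWF2 {X : Type} [AddCommGroup X] [Module A X] (x : X) :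
    Submodule.span A {(⟨x, Submodule.mem_span_singleton_self x⟩ : Submodule.span A {x})} = ⊤ := by
  rw [eq_top_iff]
  rintro ⟨y, hy⟩ -
  obtain ⟨r, rfl⟩ := Submodule.mem_span_singleton.1 hy
  exact Submodule.mem_span_singleton.2 ⟨r, rfl⟩

theorem val_sub_CWF2 (hl : GAdd l) (hv : VanG l P) {d : Γ} {x : C.M} (hx : C.π d x = x)
    (hs : Submodule.span A {x} = ⊤) (hP : ∀ a : A, a • x = 0 ↔ a ∈ P) {a : A} (haP : a ∉ P)
    (hst : St C (Submodule.span A {a • x})) : l C = l (C.sub _ hst) := by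
  have hc : Cyc C P := ⟨d, x, hx, hs, hP⟩
  have := hc.finite
  have h1 := hl _ _ _ hc.finite (ses_sub_quo hst)
  have h2 : l (C.quo _ hst) = 0 := by
    refine hl.of_primes _ (inferInstanceAs (Module.Finite A (C.M ⧸ _))) fun Q hQ hq => hv Q hQ ?_
    have hle : P ≤ Q := fun b hb => hq (Module.mem_annihilator.2 fun y => by
      obtain ⟨y, rfl⟩ := Submodule.mkQ_surjective _ y
      rw [← map_smul, hc.kill le_rfl b hb y, map_zero])
    have haQ : a ∈ Q := hq (Module.mem_annihilator.2 fun y => by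
      obtain ⟨y, rfl⟩ := Submodule.mkQ_surjective _ y
      obtain ⟨r, rfl⟩ := Submodule.mem_span_singleton.1
        (show y ∈ Submodule.span A {x} from hs ▸ Submodule.mem_top)
      rw [← map_smul, Submodule.mkQ_apply, Submodule.Quotient.mk_eq_zero, smul_comm]
      exact Submodule.smul_mem _ _ (Submodule.mem_span_singleton_self _))
    exact lt_of_le_of_ne hle fun e => haP (e ▸ haQ)
  rw [h1, h2, add_zero]

theorem Cyc.val (hl : GAdd l) (hP : P.IsPrime) (hv : VanG l P) (hs : Shf 𝒜 P) (h : Cyc C P)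
    (h' : Cyc C' P) : l C = l C' := by
  obtain ⟨d, x, hx, hsx, hxP⟩ := h
  obtain ⟨d', x', hx', hsx', hxP'⟩ := h'
  obtain ⟨c, a, ha, b, hb, haP, hbP⟩ := hs (d - d')
  have h1 : C.π (c + d) (a • x) = a • x := GM.hom_smul ha hx
  have h2 : C'.π (c + d) (b • x') = b • x' := by
    have e : c + d = c + (d - d') + d' := by abel
    rw [e]
    exact GM.hom_smul hb hx'
  have s1 : St C (Submodule.span A {a • x}) := st_span fun y hy => ⟨c + d, by
    rw [Set.mem_singleton_iff.1 hy]; exact h1⟩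
  have s2 : St C' (Submodule.span A {b • x'}) := st_span fun y hy => ⟨c + d, by
    rw [Set.mem_singleton_iff.1 hy]; exact h2⟩
  rw [val_sub_CWF2 hl hv hx hsx hxP haP s1, val_sub_CWF2 hl hv hx' hsx' hxP' hbP s2]
  obtain ⟨f, hf, hb⟩ := cyc_iso (C := C.sub _ s1) (C' := C'.sub _ s2) (d := c + d)
    (x := ⟨a • x, Submodule.mem_span_singleton_self _⟩)
    (x' := ⟨b • x', Submodule.mem_span_singleton_self _⟩) (Subtype.ext h1) (Subtype.ext h2)
    (span_top_CWF2 _) (span_top_CWF2 _) (fun r => by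
      rw [Subtype.ext_iff, Subtype.ext_iff]
      change r • a • x = 0 ↔ r • b • x' = 0
      rw [← mul_smul, ← mul_smul, hxP, hxP']
      exact ⟨fun h => Ideal.mul_mem_right _ _ ((hP.mem_or_mem h).resolve_right haP),
        fun h => Ideal.mul_mem_right _ _ ((hP.mem_or_mem h).resolve_right hbP)⟩)
  exact hl.congr (Module.Finite.span_singleton A _) hf hb

theorem exists_multG (hP : P.IsPrime) (hs : Shf 𝒜 P) (h : Cyc C P) (M : GM 𝒜)
    (hM : Module.Finite A M.M) (hk : Nil (P : Set A) M.M) :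
    ∃ ν : ℕ, (Module.annihilator A M.M ≤ P → 0 < ν) ∧
      ∀ l : GM 𝒜 → ℚ, GAdd l → VanG l P → l M = ν * l C := by
  revert hk
  refine devis (p := fun M => Nil (P : Set A) M.M →
    ∃ ν : ℕ, (Module.annihilator A M.M ≤ P → 0 < ν) ∧
      ∀ l : GM 𝒜 → ℚ, GAdd l → VanG l P → l M = ν * l C) ?_ ?_ M hM
  · intro M hM _
    refine ⟨0, fun ha => absurd ?_ hP.ne_top, fun l hl _ => by rw [hl.zero M]; simp⟩
    exact (Ideal.eq_top_iff_one P).2
      (ha (Module.mem_annihilator.2 fun y => Subsingleton.elim _ _))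
  · intro C₁ M N P₁ hM hP₁ hC₁ hses ih hk
    obtain ⟨f, g, hf, hg, hi, hsu, hex⟩ := id hses
    obtain ⟨ν, hν, hval⟩ := ih (hk.of_surjective g hsu)
    have := hC₁.finite
    have hle : P ≤ P₁ := fun b hb => (hk.of_injective f hi).mem_prime hP₁ hC₁.ann.le hb
    by_cases hE : P = P₁
    · subst hE
      refine ⟨ν + 1, fun _ => Nat.succ_pos ν, fun l hl hv => ?_⟩
      rw [hl _ _ _ hM hses, hval l hl hv, Cyc.val hl hP hv hs hC₁ h]
      push_cast
      ring
    · have hlt : P < P₁ := lt_of_le_of_ne hle hE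
      obtain ⟨b, hb, hbP⟩ := SetLike.exists_of_lt hlt
      refine ⟨ν, fun ha => hν fun a haN => ?_, fun l hl hv => ?_⟩
      · have hab : b * a ∈ Module.annihilator A M.M := Module.mem_annihilator.2 fun y => by
          have h0 : g (a • y) = 0 := by rw [map_smul, Module.mem_annihilator.1 haN]
          obtain ⟨z, hz⟩ := (hex _).1 h0
          rw [mul_smul, ← hz, ← map_smul, hC₁.kill le_rfl b hb z, map_zero]
        exact (hP.mem_or_mem (ha hab)).resolve_left hbP
      · rw [hl _ _ _ hM hses, hval l hl hv, hv P₁ hP₁ hlt C₁ hC₁, zero_add]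

end Pool.Agent.CXD
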