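import Pool.Agent.P.MP_2ce3e7_ag.CPB1
import Pool.Agent.P.MP_2ce3e7_ag.CWF2

attribute [local instance] Pool.Agent.CXD.instAddCommGroupCp Pool.Agent.CXD.instModuleCp
  Pool.Agent.CXD.instAddCommGroupRr Pool.Agent.CXD.Rr.big Pool.Agent.CXD.Rr.small
  Pool.Agent.CXD.instSMulCommClassRr Pool.Agent.CXD.instAddCommGroupRs Pool.Agent.CXD.instModuleRs
  Pool.Agent.CXD.instModuleRs_1 Pool.Agent.CXD.instIsScalarTowerRs
  Pool.Agent.CXD.instSMulCommClassRs Pool.Agent.CXD.instAddCommGroupBox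
  Pool.Agent.CXD.instModuleTensorProductBox Pool.Agent.CXD.finite_box Pool.Agent.CXD.instAdd_CWG
  Pool.Agent.CXD.instMod_CWG Pool.Agent.CXD.instAddCommGroupLau
  Pool.Agent.CXD.instModuleLaurentPolynomialLau Pool.Agent.CXD.Lau.finite

/-! The tensor product: base change and restriction. -/

set_option linter.unusedSectionVars false
set_option linter.unusedVariables false

open Function Filter
open scoped TensorProduct Polynomial

noncomputable section

namespace Pool.Agent.CXD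

variable {D D' R R' Γ Γ' Γ'' Γ₃ : Type} [CommRing D] [CommRing D'] [CommRing R] [CommRing R']
  [AddCommGroup Γ] [AddCommGroup Γ'] [AddCommGroup Γ''] [AddCommGroup Γ₃] {𝒟 : Γ → Set D}
  {𝒟' : Γ' → Set D'} {ℛ : Γ'' → Set R} {ℛ' : Γ₃ → Set R'} {ι : D →+* R} {δ : Γ →+ Γ''} [Gd 𝒟]
  (h : Hm ι 𝒟 ℛ δ) {V : GM 𝒟} {Y Y₂ Y₃ : GM ℛ}

theorem add_CPB2 {X : Type} [AddCommGroup X] (F : Y.M → V.M → X)
    (h1 : ∀ y y' v, F (y + y') v = F y v + F y' v) (h2 : ∀ y v v', F y (v + v') = F y v + F y v')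
    (h3 : ∀ a y v, F (ι a • y) v = F y (a • v)) :
    ∃ g : (tens h V Y).M →+ X, ∀ y v, g (tt h V Y y v) = F y v :=
  tens_lift (h := h) (V := V) (Y := Y)
    (AddMonoidHom.mk' (fun y => AddMonoidHom.mk' (F y) (h2 y))
      fun y y' => AddMonoidHom.ext fun v => h1 y y' v) h3

theorem lin_CPB2 {X : Type} [AddCommGroup X] [Module R X] (F : Y.M → V.M → X)
    (h1 : ∀ y y' v, F (y + y') v = F y v + F y' v) (h2 : ∀ y v v', F y (v + v') = F y v + F y v')
    (h3 : ∀ a y v, F (ι a • y) v = F y (a • v)) (h4 : ∀ (r : R) y v, F (r • y) v = r • F y v) :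
    ∃ g : (tens h V Y).M →ₗ[R] X, ∀ y v, g (tt h V Y y v) = F y v := by
  obtain ⟨g, hg⟩ := add_CPB2 h F h1 h2 h3
  have hsm : ∀ (a : R) x, g (a • x) = a • g x := by
    intro a x
    induction x using tens_ind with
    | h0 => simp only [smul_zero, map_zero]
    | h1 γ y c v _ _ => rw [tt_smul, hg, hg, h4]
    | h2 x x' hx hx' => rw [smul_add, map_add, map_add, hx, hx', smul_add]
  exact ⟨{ toFun := g, map_add' := map_add g, map_smul' := hsm }, hg⟩

theorem ttl_CPB2 (v : V.M) (y y' : Y.M) :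
    tt h V Y (y + y') v = tt h V Y y v + tt h V Y y' v := by
  rw [map_add, AddMonoidHom.add_apply]

theorem coord_CPB2 {A Δ : Type} [CommRing A] [AddCommGroup Δ] {𝒜 : Δ → Set A} {U : GM 𝒜}
    {e : U.M} {c : U.M ≃ₗ[A] A} (hc : ∀ a, c (a • e) = a) (u : U.M) : c u • e = u :=
  c.injective (hc _)

theorem tens_qp {s : D} (hV : Qp s V.M) : ∃ (n m : ℕ) (a : V.M →ₗ[D] (Fin n → D)),
    ∀ Y : GM ℛ, ∃ (a' : (tens h V Y).M →ₗ[R] (Fin n → Y.M))
      (b' : (Fin n → Y.M) →ₗ[R] (tens h V Y).M),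
        (∀ y v i, a' (tt h V Y y v) i = ι (a v i) • y) ∧ ∀ x, b' (a' x) = ι s ^ m • x := by
  classical
  obtain ⟨n, m, a, b, hab⟩ := hV
  refine ⟨n, m, a, fun Y => ?_⟩
  obtain ⟨a', ha'⟩ := lin_CPB2 h (V := V) (Y := Y) (X := Fin n → Y.M)
    (fun y v i => ι (a v i) • y)
    (fun y y' v => funext fun i => smul_add _ _ _)
    (fun y v v' => funext fun i => by
      simp only [map_add, Pi.add_apply, add_smul])
    (fun d y v => funext fun i => by
      simp only [map_smul, Pi.smul_apply, smul_eq_mul, map_mul, smul_smul, mul_comm])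
    (fun r y v => funext fun i => smul_comm _ _ _)
  let b' : (Fin n → Y.M) →ₗ[R] (tens h V Y).M :=
    { toFun := fun z => ∑ i, tt h V Y (z i) (b (Pi.single i 1))
      map_add' := fun z z' => by
        simp only [Pi.add_apply, ttl_CPB2, Finset.sum_add_distrib]
      map_smul' := fun r z => by
        rw [RingHom.id_apply, Finset.smul_sum]
        exact Finset.sum_congr rfl fun i _ => rfl }
  refine ⟨a', b', fun y v i => by rw [ha'], fun x => ?_⟩
  induction x using tens_ind with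
  | h0 => simp only [map_zero, smul_zero]
  | h2 x x' hx hx' => rw [map_add, map_add, hx, hx', smul_add]
  | h1 γ y c v _ _ =>
    rw [ha', tt_smul, ← map_pow, tt_bal, ← hab]
    show ∑ i, tt h V Y (ι (a v i) • y) (b (Pi.single i 1)) = _
    have e : a v = ∑ i, a v i • Pi.single i (1 : D) := by
      ext j
      simp [Finset.sum_apply, Pi.single_apply]
    conv_rhs => rw [e, map_sum, map_sum]
    exact Finset.sum_congr rfl fun i _ => by rw [tt_bal, map_smul b]

theorem tens_sesY {τ : Type} {s : τ → D} (hV : ∀ j, Qp (s j) V.M) (hs : Ses Y Y₂ Y₃) :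
    ∃ (F : (tens h V Y).M →ₗ[R] (tens h V Y₂).M) (G : (tens h V Y₂).M →ₗ[R] (tens h V Y₃).M),
      IsG F ∧ IsG G ∧ Surjective G ∧ Exact F G ∧
        Nil (Set.range fun j => ι (s j)) (LinearMap.ker F) := by
  obtain ⟨f, g, hf, hg, hi, hsu, hex⟩ := hs
  obtain ⟨F, hF, hF'⟩ := tens_map h V hf
  obtain ⟨G, hG, hG'⟩ := tens_map h V hg
  have eF := tens_eq_CWI2 h V f F hF'
  have eG := tens_eq_CWI2 h V g G hG'
  refine ⟨F, G, hF, hG, ?_, ?_, ?_⟩
  · intro x
    obtain ⟨y, hy⟩ := LinearMap.rTensor_surjective V.M (g := rr_CWI2 ι g) hsu x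
    exact ⟨y, (eG y).trans hy⟩
  · intro x
    have := rTensor_exact V.M (f := rr_CWI2 ι f) (g := rr_CWI2 ι g) hex hsu x
    constructor
    · intro hx
      obtain ⟨y, hy⟩ := this.1 ((eG x).symm.trans hx)
      exact ⟨y, (eF y).trans hy⟩
    · rintro ⟨y, hy⟩
      exact (eG x).trans (this.2 ⟨y, (eF y).symm.trans hy⟩)
  · rintro _ ⟨j, rfl⟩ ⟨x, hx⟩
    obtain ⟨n, m, a, ha⟩ := tens_qp h (hV j)
    obtain ⟨a₁, b₁, ha₁, hb₁⟩ := ha Y
    obtain ⟨a₂, b₂, ha₂, -⟩ := ha Y₂
    have key : ∀ x i, a₂ (F x) i = f (a₁ x i) := by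
      intro x i
      induction x using tens_ind with
      | h0 => simp only [map_zero, Pi.zero_apply]
      | h1 γ y c v _ _ => rw [hF', ha₁, ha₂, map_smul]
      | h2 x x' hx hx' => simp only [map_add, Pi.add_apply, hx, hx']
    have h0 : a₁ x = 0 := funext fun i => hi (by
      rw [← key, LinearMap.mem_ker.1 hx, map_zero, Pi.zero_apply, Pi.zero_apply, map_zero])
    refine ⟨m, Subtype.ext ?_⟩
    show ι (s j) ^ m • x = 0
    rw [← hb₁, h0, map_zero]

theorem tens_reg {U : GM 𝒟} {e : U.M} (hU : Cy U e ⊥) (Y : GM ℛ) (c : Γ) :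
    ∃ g : (tens h (U.shift c) Y).M →ₗ[R] (Y.shift (δ c)).M, IsG g ∧ Bijective g := by
  obtain ⟨k, hk, hk'⟩ := hU.exists_coord
  obtain ⟨g, hg⟩ := lin_CPB2 h (V := U.shift c) (Y := Y) (X := Y.M)
    (fun y u => ι (k u) • y) (fun y y' v => smul_add _ _ _)
    (fun y v v' => by simp only [map_add, add_smul])
    (fun d y v => by simp only [map_smul, smul_eq_mul, map_mul, smul_smul, mul_comm])
    (fun r y v => smul_comm _ _ _)
  have hk1 : k e = 1 := by simpa only [one_smul] using hk 1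
  have hl : ∀ x, tt h (U.shift c) Y (g x) e = x := by
    intro x
    induction x using tens_ind with
    | h0 => rw [map_zero, map_zero, AddMonoidHom.zero_apply]
    | h2 x x' hx hx' => rw [map_add, ttl_CPB2, hx, hx']
    | h1 γ y d v _ _ =>
      rw [hg, tt_bal]
      exact congrArg _ (coord_CPB2 hk v)
  refine ⟨g, ?_, fun x x' hx => by rw [← hl x, hx, hl], fun y => ⟨tt h (U.shift c) Y y e, ?_⟩⟩
  · intro γ x
    show g ((tens h (U.shift c) Y).π γ x) = Y.π (δ c + γ) (g x)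
    induction x using tens_ind with
    | h0 => simp only [map_zero]
    | h2 x x' hx hx' => simp only [map_add, hx, hx']
    | h1 γ' y d v _ hv =>
      rw [tens_π γ y hv, hg, hg, ← Y.π_cl (h.mem_cl (hk' (c + d) v hv)),
        show δ (c + d) + (γ - δ d) = δ c + γ by rw [map_add]; abel]
  · rw [hg, hk1, map_one, one_smul]

theorem tens_bc [Gd 𝒟'] {ψ : D →+* D'} {μ : Γ →+ Γ'} (hψ : Hm ψ 𝒟 𝒟' μ) {φ : D' →+* R}
    {ν : Γ' →+ Γ''} (hφ : Hm φ 𝒟' ℛ ν) (h₁ : ∀ d, ι d = φ (ψ d)) (h₂ : ∀ c, δ c = ν (μ c))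
    {U : GM 𝒟'} {e : U.M} (hU : Cy U e ⊥) (V : GM 𝒟) (Y : GM ℛ) :
    ∃ g : (tens h V Y).M →ₗ[R] (tens hφ (tens hψ V U) Y).M, IsG g ∧ Bijective g := by
  obtain ⟨k, hk, hk'⟩ := hU.exists_coord
  have hk1 : k e = 1 := by simpa only [one_smul] using hk 1
  obtain ⟨g, hg⟩ := lin_CPB2 h (V := V) (Y := Y) (X := (tens hφ (tens hψ V U) Y).M)
    (fun y v => tt hφ (tens hψ V U) Y y (tt hψ V U e v))
    (fun y y' v => ttl_CPB2 hφ _ y y')
    (fun y v v' => by simp only [map_add])
    (fun d y v => by rw [h₁, tt_bal, tt_smul, tt_bal])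
    (fun r y v => rfl)
  have inner : ∀ y : Y.M, ∃ q : (tens hψ V U).M →+ (tens h V Y).M,
      ∀ u v, q (tt hψ V U u v) = tt h V Y (φ (k u) • y) v := fun y =>
    add_CPB2 hψ (V := V) (Y := U) (fun u v => tt h V Y (φ (k u) • y) v)
      (fun u u' v => by rw [map_add, map_add, add_smul, ttl_CPB2])
      (fun u v v' => map_add _ _ _)
      (fun d u v => by
        rw [map_smul k, smul_eq_mul, map_mul, mul_smul, ← h₁, tt_bal])
  choose q hq using inner
  obtain ⟨G, hG⟩ := add_CPB2 hφ (V := tens hψ V U) (Y := Y) (fun y x => q y x)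
    (fun y y' x => by
      induction x using tens_ind with
      | h0 => simp only [map_zero, add_zero]
      | h1 γ u c v _ _ => rw [hq, hq, hq, smul_add, ttl_CPB2]
      | h2 x x' hx hx' => rw [map_add, map_add, map_add, hx, hx', add_add_add_comm])
    (fun y x x' => map_add _ _ _)
    (fun a y x => by
      induction x using tens_ind with
      | h0 => simp only [map_zero, smul_zero]
      | h1 γ u c v _ _ =>
        rw [tt_smul, hq, hq, map_smul k, smul_eq_mul, map_mul, smul_smul, mul_comm]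
      | h2 x x' hx hx' => rw [smul_add, map_add, map_add, hx, hx'])
  have hl : ∀ x, G (g x) = x := by
    intro x
    induction x using tens_ind with
    | h0 => simp only [map_zero]
    | h2 x x' hx hx' => simp only [map_add, hx, hx']
    | h1 γ y d v _ _ => rw [hg, hG, hq, hk1, map_one, one_smul]
  have hr : ∀ x, g (G x) = x := by
    intro x
    induction x using tens_ind with
    | h0 => simp only [map_zero]
    | h2 x x' hx hx' => simp only [map_add, hx, hx']
    | h1 γ y d w hy hw =>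
      clear hw
      induction w using tens_ind with
      | h0 => simp only [map_zero]
      | h2 x x' hx hx' => simp only [map_add, hx, hx']
      | h1 γ' u c v _ _ => rw [hG, hq, hg, tt_bal, tt_smul, coord_CPB2 hk]
  refine ⟨g, ?_, fun x x' hx => by rw [← hl x, hx, hl], fun x => ⟨G x, hr x⟩⟩
  intro γ x
  induction x using tens_ind with
  | h0 => simp only [map_zero]
  | h2 x x' hx hx' => simp only [map_add, hx, hx']
  | h1 γ' y d v _ hv =>
    have hd : (tens hψ V U).π (μ d) (tt hψ V U e v) = tt hψ V U e v := by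
      rw [tens_π _ _ hv, sub_self, hU.hom]
    rw [tens_π γ y hv, hg, hg, tens_π γ y hd, h₂]

theorem tens_res' [Gd ℛ] {Φ : R →+* R'} {μ : Γ'' →+ Γ₃} (hΦ : Hm Φ ℛ ℛ' μ) {ι' : D →+* R'}
    {δ' : Γ →+ Γ₃} (h' : Hm ι' 𝒟 ℛ' δ') (h₁ : ∀ d, ι' d = Φ (ι d)) (h₂ : ∀ c, δ' c = μ (δ c))
    (V : GM 𝒟) {Y' : GM ℛ'} {j : Y.M →+ Y'.M} (hj : IsRes Φ μ Y Y' j) :
    ∃ J : (tens h V Y).M →+ (tens h' V Y').M, IsRes Φ μ (tens h V Y) (tens h' V Y') J := by
  obtain ⟨J, hJ⟩ := add_CPB2 h (V := V) (Y := Y) (fun y v => tt h' V Y' (j y) v)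
    (fun y y' v => by rw [map_add, ttl_CPB2]) (fun y v v' => map_add _ _ _)
    (fun a y v => by rw [hj.smul, ← h₁, tt_bal])
  obtain ⟨p, hp, hp'⟩ := IsRes.exists_proj hΦ hj
  obtain ⟨P, hP⟩ := add_CPB2 h' (V := V) (Y := Y') (fun y v => tt h V Y (p y) v)
    (fun y y' v => by rw [map_add, ttl_CPB2]) (fun y v v' => map_add _ _ _)
    (fun a y v => by rw [h₁, hp', tt_bal])
  have hPJ : ∀ x, P (J x) = x := by
    intro x
    induction x using tens_ind with
    | h0 => simp only [map_zero]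
    | h1 γ y c v _ _ => rw [hJ, hP, hp]
    | h2 x x' hx hx' => simp only [map_add, hx, hx']
  refine ⟨J, fun x x' hx => by rw [← hPJ x, hx, hPJ], ?_, ?_, ?_⟩
  · intro a x
    induction x using tens_ind with
    | h0 => simp only [smul_zero, map_zero]
    | h1 γ y c v _ _ => rw [tt_smul, hJ, hJ, tt_smul, hj.smul]
    | h2 x x' hx hx' => rw [smul_add, map_add, map_add, hx, hx', smul_add]
  · intro d x
    induction x using tens_ind with
    | h0 => simp only [map_zero]
    | h1 γ y c v _ hv =>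
      rw [tens_π d y hv, hJ, hJ, tens_π (μ d) (j y) hv, hj.π, map_sub, h₂]
    | h2 x x' hx hx' => simp only [map_add, hx, hx']
  · intro d x
    induction x using tens_ind with
    | h0 => exact ⟨0, by simp only [map_zero]⟩
    | h1 γ y c v _ hv =>
      obtain ⟨y', hy'⟩ := hj.sur (d - δ c) y
      refine ⟨tt h V Y y' v, ?_⟩
      rw [hJ, tens_π (μ d) y hv, hy', map_sub, h₂]
    | h2 x x' hx hx' =>
      obtain ⟨y, hy⟩ := hx
      obtain ⟨y', hy'⟩ := hx'
      exact ⟨y + y', by rw [map_add, map_add, hy, hy']⟩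

/-- the base change of a cyclic module -/
theorem tens_cyc [Gd ℛ] {U : GM ℛ} {e : U.M} (hU : Cy U e ⊥) {P : Ideal D} (hC : Cyc V P) :
    Cyc (tens h V U) (P.map ι) := by
  obtain ⟨d, x, hx, hs, hP⟩ := hC
  obtain ⟨k, hk, hk'⟩ := hU.exists_coord
  have hk1 : k e = 1 := by simpa only [one_smul] using hk 1
  have hsec : ∀ v : V.M, ∃ a : D, a • x = v := fun v =>
    Submodule.mem_span_singleton.1 (by rw [hs]; trivial)
  choose s hs' using hsec
  have hmk : ∀ a b : D, a • x = b • x →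
      Ideal.Quotient.mk (P.map ι) (ι a) = Ideal.Quotient.mk (P.map ι) (ι b) := by
    intro a b hab
    rw [Ideal.Quotient.eq, ← map_sub]
    exact Ideal.mem_map_of_mem _ ((hP _).1 (by rw [sub_smul, hab, sub_self]))
  obtain ⟨ρ, hρ⟩ := lin_CPB2 h (V := V) (Y := U) (X := R ⧸ P.map ι)
    (fun u v => Ideal.Quotient.mk (P.map ι) (k u) * Ideal.Quotient.mk (P.map ι) (ι (s v)))
    (fun u u' v => by rw [map_add, map_add, add_mul])
    (fun u v v' => by
      rw [hmk (s (v + v')) (s v + s v') (by rw [add_smul, hs', hs', hs']), map_add, map_add,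
        mul_add])
    (fun a u v => by
      rw [hmk (s (a • v)) (a * s v) (by rw [mul_smul, hs', hs']), map_smul, smul_eq_mul, map_mul,
        map_mul, map_mul]
      ring)
    (fun r u v => by
      rw [map_smul, smul_eq_mul, map_mul, mul_assoc]
      rfl)
  refine ⟨δ d, tt h V U e x, by rw [tens_π _ _ hx, sub_self, hU.hom], ?_, fun r => ⟨fun hr => ?_,
    fun hr => ?_⟩⟩
  · rw [eq_top_iff]
    rintro z -
    induction z using tens_ind with
    | h0 => exact zero_mem _
    | h2 z z' hz hz' => exact add_mem hz hz'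
    | h1 γ u c v _ _ =>
      refine Submodule.mem_span_singleton.2 ⟨ι (s v) * k u, ?_⟩
      rw [tt_smul, mul_smul, coord_CPB2 hk, tt_bal, hs']
  · have h1 := congrArg ρ hr
    rw [tt_smul, hρ, map_zero, hk, hmk (s x) 1 (by rw [hs', one_smul]), map_one, map_one,
      mul_one] at h1
    exact Ideal.Quotient.eq_zero_iff_mem.1 h1
  · induction hr using Submodule.span_induction with
    | mem r hr =>
      obtain ⟨a, ha, rfl⟩ := hr
      rw [tt_smul, tt_bal, (hP a).2 ha, map_zero]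
    | zero => exact zero_smul _ _
    | add r r' _ _ h1 h2 => rw [add_smul, h1, h2, add_zero]
    | smul r r' _ h1 => rw [smul_eq_mul, mul_smul, h1, smul_zero]

theorem tens_qp_reg [Gd ℛ] {U : GM ℛ} {e : U.M} (hU : Cy U e ⊥) {s : D} (hV : Qp s V.M) :
    Qp (ι s) (tens h V U).M := by
  obtain ⟨n, m, a, ha⟩ := tens_qp h hV
  obtain ⟨a', b', -, hb⟩ := ha U
  obtain ⟨k, -, -⟩ := hU.exists_coord
  let E : (Fin n → U.M) ≃ₗ[R] (Fin n → R) := LinearEquiv.piCongrRight fun _ => k
  refine Qp.retract (qp_pi (ι s) (Fin n)) (E.toLinearMap ∘ₗ a') (b' ∘ₗ E.symm.toLinearMap)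
    (m := m) fun x => ?_
  show b' (E.symm (E (a' x))) = _
  rw [E.symm_apply_apply, hb]

end Pool.Agent.CXD
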