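import Pool.Agent.P.MP_2ce3e7_ag.CPB2
import Pool.Agent.P.MP_2ce3e7_ag.CPA5

attribute [local instance] Pool.Agent.CXD.instAddCommGroupRr Pool.Agent.CXD.Rr.big
  Pool.Agent.CXD.Rr.small Pool.Agent.CXD.instSMulCommClassRr

/-! Modules that are flat outside a closed set. -/

set_option linter.unusedSectionVars false
set_option linter.unusedVariables false

open Function Filter
open scoped TensorProduct Polynomial

noncomputable section

namespace Pool.Agent.CXD

/-- `X` is flat over `T` outside the zero set of `Z` -/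
def OF {T R : Type} [CommRing T] [CommRing R] (ι : T →+* R) (Z : Set R) (X : Type)
    [AddCommGroup X] [Module R X] : Prop :=
  ∀ (N N' : Type) [AddCommGroup N] [Module T N] [AddCommGroup N'] [Module T N'] (f : N' →ₗ[T] N),
    Injective f → ∀ ξ : Rr ι X ⊗[T] N', f.lTensor (Rr ι X) ξ = 0 → ∀ z ∈ Z, ∃ m : ℕ, z ^ m • ξ = 0

section
variable {T R X X' : Type} [CommRing T] [CommRing R] {ι : T →+* R} {Z : Set R} [AddCommGroup X]
  [Module R X] [AddCommGroup X'] [Module R X']

theorem comm_CPC {P P' N N' : Type} [AddCommGroup P] [Module T P] [AddCommGroup P'] [Module T P']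
    [AddCommGroup N] [Module T N] [AddCommGroup N'] [Module T N'] (j : P →ₗ[T] P')
    (f : N' →ₗ[T] N) {ξ : P ⊗[T] N'} (hξ : f.lTensor P ξ = 0) :
    f.lTensor P' (j.rTensor N' ξ) = 0 := by
  have e : f.lTensor P' (j.rTensor N' ξ) = j.rTensor N (f.lTensor P ξ) := by
    rw [← LinearMap.comp_apply, ← LinearMap.comp_apply, LinearMap.lTensor_comp_rTensor,
      LinearMap.rTensor_comp_lTensor]
  rw [e, hξ, map_zero]

theorem semi_CPC {R' X' : Type} [CommRing R'] [AddCommGroup X'] [Module R' X'] {ι' : T →+* R'}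
    {N : Type} [AddCommGroup N] [Module T N] (j : Rr ι' X' →ₗ[T] Rr ι X) {a : R'} {b : R}
    (hs : ∀ y, j (a • y) = b • j y) (ξ : Rr ι' X' ⊗[T] N) :
    j.rTensor N (a • ξ) = b • j.rTensor N ξ := by
  induction ξ using TensorProduct.induction_on with
  | zero => rw [smul_zero, map_zero, smul_zero]
  | tmul y n =>
    rw [TensorProduct.smul_tmul', LinearMap.rTensor_tmul, LinearMap.rTensor_tmul, hs,
      TensorProduct.smul_tmul']
  | add x x' hx hx' => rw [smul_add, map_add, map_add, hx, hx', smul_add]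

theorem OF.of_radical {Z' : Set R} (h : OF ι Z X) (hZ : ∀ z ∈ Z', z ∈ (Ideal.span Z).radical) :
    OF ι Z' X := by
  intro N N' _ _ _ _ f hf ξ hξ z hz
  have h1 : Ideal.span Z ≤
      Ideal.radical (LinearMap.ker (LinearMap.toSpanSingleton R (Rr ι X ⊗[T] N') ξ)) :=
    Ideal.span_le.2 fun w hw => h N N' f hf ξ hξ w hw
  have h2 := Ideal.radical_mono h1 (hZ z hz)
  rw [Ideal.radical_idem] at h2
  exact h2

theorem OF.of_one (h : OF ι {1} X) (Z : Set R) : OF ι Z X :=
  h.of_radical fun z _ => Ideal.le_radical (by rw [Ideal.span_singleton_one]; trivial)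

theorem of_range {τ : Type} {w : τ → R} (h : ∀ j, OF ι {w j} X) : OF ι (Set.range w) X := by
  rintro N N' _ _ _ _ f hf ξ hξ _ ⟨j, rfl⟩
  exact h j N N' f hf ξ hξ _ rfl

theorem zero_CPC (h : OF ι {1} X) {N N' : Type} [AddCommGroup N] [Module T N] [AddCommGroup N']
    [Module T N'] {f : N' →ₗ[T] N} (hf : Injective f) {ξ : Rr ι X ⊗[T] N'}
    (hξ : f.lTensor (Rr ι X) ξ = 0) : ξ = 0 := by
  obtain ⟨m, hm⟩ := h N N' f hf ξ hξ 1 rfl
  rwa [one_pow, one_smul] at hm

theorem of_one_iff : OF ι {1} X ↔ Module.Flat T (Rr ι X) := by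
  constructor
  · intro h
    refine Module.Flat.iff_lTensor_preserves_injective_linearMap.2 fun N' N _ _ _ _ f hf => ?_
    exact (injective_iff_map_eq_zero _).2 fun ξ hξ => zero_CPC h hf hξ
  · intro h N N' _ _ _ _ f hf ξ hξ z _
    have h1 : ξ = 0 := (injective_iff_map_eq_zero _).1
      (Module.Flat.lTensor_preserves_injective_linearMap f hf) ξ hξ
    exact ⟨0, by rw [h1, smul_zero]⟩

theorem flat_rr_id {X : Type} [AddCommGroup X] [Module T X] :
    Module.Flat T (Rr (RingHom.id T) X) ↔ Module.Flat T X := by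
  exact Iff.rfl

theorem OF.retract (h : OF ι {1} X') (a : X →ₗ[R] X') (b : X' →ₗ[R] X) {r : R} {m : ℕ}
    (hab : ∀ x, b (a x) = r ^ m • x) : OF ι {r} X := by
  intro N N' _ _ _ _ f hf ξ hξ z hz
  rw [show z = r from hz]
  have h1 := zero_CPC h hf (comm_CPC (rr_CWI2 ι a) f hξ)
  have h2 : ∀ η : Rr ι X ⊗[T] N',
      (rr_CWI2 ι b).rTensor N' ((rr_CWI2 ι a).rTensor N' η) = r ^ m • η := by
    intro η
    induction η using TensorProduct.induction_on with
    | zero => rw [smul_zero, map_zero, map_zero]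
    | tmul y n =>
      rw [LinearMap.rTensor_tmul, LinearMap.rTensor_tmul, TensorProduct.smul_tmul']
      exact congrArg (fun x : Rr ι X => x ⊗ₜ[T] n) (hab y)
    | add x x' hx hx' => rw [smul_add, map_add, map_add, hx, hx']
  exact ⟨m, by rw [← h2, h1, map_zero]⟩

theorem bij_CPC {R' X' : Type} [CommRing R'] [AddCommGroup X'] [Module R' X'] {ι' : T →+* R'}
    (h : OF ι Z X) {φ : R' →+* R} (hφ : ∀ t, φ (ι' t) = ι t) {j : X' →+ X} (hj : Bijective j)
    (hs : ∀ a y, j (a • y) = φ a • j y) {Z' : Set R'} (hZ : ∀ z ∈ Z', φ z ∈ Z) : OF ι' Z' X' := by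
  intro N N' _ _ _ _ f hf ξ hξ z hz
  let J : Rr ι' X' →ₗ[T] Rr ι X :=
    { toFun := j
      map_add' := map_add j
      map_smul' := fun t y => (hs (ι' t) y).trans (by rw [hφ]; rfl) }
  have hJ : Injective (J.rTensor N') :=
    (LinearEquiv.rTensor N' (LinearEquiv.ofBijective J hj)).injective
  obtain ⟨m, hm⟩ := h N N' f hf _ (comm_CPC J f hξ) _ (hZ z hz)
  refine ⟨m, hJ ?_⟩
  rw [semi_CPC J (b := φ z ^ m) (fun y => (hs (z ^ m) y).trans (by rw [map_pow]; rfl)), hm,
    map_zero]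

theorem OF.congr (h : OF ι Z X') (a : X ≃ₗ[R] X') : OF ι Z X :=
  bij_CPC h (φ := RingHom.id R) (fun _ => rfl) (j := a.toLinearMap.toAddMonoidHom) a.bijective
    (fun r y => map_smul a r y) fun _ hz => hz

theorem OF.pi {κ : Type} [Fintype κ] {Y : κ → Type} [∀ i, AddCommGroup (Y i)]
    [∀ i, Module R (Y i)] (h : ∀ i, OF ι {1} (Y i)) : OF ι {1} (∀ i, Y i) := by
  classical
  intro N N' _ _ _ _ f hf ξ hξ z _
  have h1 : ∀ i, (rr_CWI2 ι (LinearMap.proj (R := R) (φ := Y) i)).rTensor N' ξ = 0 :=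
    fun i => zero_CPC (h i) hf (comm_CPC _ f hξ)
  have h2 : ∀ η : Rr ι (∀ i, Y i) ⊗[T] N',
      ∑ i, (rr_CWI2 ι (LinearMap.single R Y i)).rTensor N'
        ((rr_CWI2 ι (LinearMap.proj (R := R) (φ := Y) i)).rTensor N' η) = η := by
    intro η
    induction η using TensorProduct.induction_on with
    | zero => simp only [map_zero, Finset.sum_const_zero]
    | tmul y n =>
      simp only [LinearMap.rTensor_tmul]
      rw [← TensorProduct.sum_tmul]
      exact congrArg (fun x : Rr ι (∀ i, Y i) => x ⊗ₜ[T] n) (Finset.univ_sum_single (M := Y) y)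
    | add x x' hx hx' => simp only [map_add, Finset.sum_add_distrib, hx, hx']
  refine ⟨0, ?_⟩
  rw [← h2 ξ]
  simp only [h1, map_zero, Finset.sum_const_zero, smul_zero]

/-- change of the big ring -/
theorem OF.semi {R' X' : Type} [CommRing R'] [AddCommGroup X'] [Module R' X'] {ι' : T →+* R'}
    (h : OF ι Z X) {φ : R' →+* R} (hφ : ∀ t, φ (ι' t) = ι t) {j : X' →+ X} (hj : Bijective j)
    (hs : ∀ a y, j (a • y) = φ a • j y) {Z' : Set R'} (hZ : ∀ z ∈ Z', φ z ∈ Z) : OF ι' Z' X' :=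
  bij_CPC h hφ hj hs hZ

theorem of_loc (s : R) (h : ((algebraMap R (Localization.Away s)).comp ι).Flat) :
    OF ι {s} R := by
  intro N N' _ _ _ _ f hf ξ hξ z hz
  rw [show z = s from hz]
  have hfl : Module.Flat T (Rr ι (Localization.Away s)) := by
    letI := ((algebraMap R (Localization.Away s)).comp ι).toAlgebra
    have h0 : Module.Flat T (Localization.Away s) := h
    exact Module.Flat.of_linearEquiv (M := Localization.Away s)
      { toFun := fun x => x
        invFun := fun x => x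
        map_add' := fun _ _ => rfl
        map_smul' := fun t x => Algebra.smul_def (ι t) (show Localization.Away s from x)
        left_inv := fun _ => rfl
        right_inv := fun _ => rfl }
  have h1 := zero_CPC (of_one_iff.2 hfl) hf
    (comm_CPC (rr_CWI2 ι (Algebra.linearMap R (Localization.Away s))) f hξ)
  letI := ι.toAlgebra
  haveI : IsScalarTower T R (Rr ι R) := ⟨fun t r x => mul_smul (ι t) r x⟩
  haveI : IsScalarTower T R (Rr ι (Localization.Away s)) := ⟨fun t r x => mul_smul (ι t) r x⟩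
  let g : Rr ι R →ₗ[R] Rr ι (Localization.Away s) := Algebra.linearMap R (Localization.Away s)
  haveI : IsLocalizedModule (Submonoid.powers s) g :=
    inferInstanceAs (IsLocalizedModule (Submonoid.powers s)
      (Algebra.linearMap R (Localization.Away s)))
  obtain ⟨⟨_, m, rfl⟩, hm⟩ := (IsLocalizedModule.eq_zero_iff (Submonoid.powers s)
    (TensorProduct.AlgebraTensorModule.rTensor T N' g) (m := ξ)).1 h1
  exact ⟨m, hm⟩

end

theorem OF.tens {T D R Γ Γ' : Type} [CommRing T] [CommRing D] [CommRing R] [AddCommGroup Γ]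
    [AddCommGroup Γ'] {𝒟 : Γ → Set D} {ℛ : Γ' → Set R} [Gd 𝒟] {ι : T →+* R} {φ : D →+* R}
    {δ : Γ →+ Γ'} (h : Hm φ 𝒟 ℛ δ) {V : GM 𝒟} {Y : GM ℛ} (hY : OF ι {1} Y.M) {τ : Type}
    {s : τ → D} (hV : ∀ j, Qp (s j) V.M) :
    OF ι (Set.range fun j => φ (s j)) (tens h V Y).M := of_range fun j => by
  obtain ⟨n, m, a, ha⟩ := tens_qp h (hV j)
  obtain ⟨a', b', -, hab⟩ := ha Y
  exact (OF.pi fun _ => hY).retract a' b' hab

end Pool.Agent.CXD
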