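import Pool.Agent.P.MP_2ce3e7_ag.CPC

attribute [local instance] Pool.Agent.CXD.instAddCommGroupRr Pool.Agent.CXD.Rr.big
  Pool.Agent.CXD.Rr.small Pool.Agent.CXD.instSMulCommClassRr Pool.Agent.CXD.instAddCommGroupRs
  Pool.Agent.CXD.instModuleRs Pool.Agent.CXD.instModuleRs_1 Pool.Agent.CXD.instIsScalarTowerRs
  Pool.Agent.CXD.instSMulCommClassRs Pool.Agent.CXD.instAddCommGroupBox
  Pool.Agent.CXD.instModuleTensorProductBox Pool.Agent.CXD.finite_box

/-! Flatness of exterior products. -/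

set_option linter.unusedSectionVars false
set_option linter.unusedVariables false

open Function Filter
open scoped TensorProduct Polynomial

noncomputable section

namespace Pool.Agent.CXD

theorem tens_sesV_of {D R Γ Γ' : Type} [CommRing D] [CommRing R] [AddCommGroup Γ]
    [AddCommGroup Γ'] {𝒟 : Γ → Set D} {ℛ : Γ' → Set R} [Gd 𝒟] {φ : D →+* R}
    {δ : Γ →+ Γ'} (h : Hm φ 𝒟 ℛ δ) {V V₂ V₃ : GM 𝒟} {Y : GM ℛ} {Z : Set R} (hY : OF φ Z Y.M)
    (hs : Ses V V₂ V₃) :
    ∃ (F : (tens h V Y).M →ₗ[R] (tens h V₂ Y).M) (G : (tens h V₂ Y).M →ₗ[R] (tens h V₃ Y).M),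
      IsG F ∧ IsG G ∧ Surjective G ∧ Exact F G ∧ Nil Z (LinearMap.ker F) := by
  obtain ⟨f, g, hf, hg, hi, hsur, he⟩ := hs
  obtain ⟨F, G, h1, h2, h3, h4, -, h6⟩ := tens_rightV h hf hg hsur he Y
  refine ⟨F, G, h1, h2, h3, h4, fun z hz x => ?_⟩
  obtain ⟨m, hm⟩ := hY V₂.M V.M f hi x.1 ((h6 x.1).symm.trans x.2) z hz
  exact ⟨m, Subtype.ext hm⟩

variable {k T A Γ : Type} [Field k] [CommRing T] [Algebra k T] [CommRing A] [Algebra k A]
  [AddCommGroup Γ] {𝒜 : Γ → Set A} [Gd 𝒜] [Gk k 𝒜]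

theorem gbx_flat {W : GM (tv T)} (hW : Module.Flat T W.M) (Y : GM 𝒜) :
    OF (algebraMap T (T ⊗[k] A)) {1} (gbx k W Y).M := by
  rw [of_one_iff]
  have hW' : Module.Flat T (Rs k T W.M) := hW
  let j : (gbx k W Y).M →+ Rs k T W.M ⊗[k] Rs k A Y.M := AddMonoidHom.id _
  have hj : ∀ (t : T) (x : (gbx k W Y).M), j ((t ⊗ₜ[k] (1 : A)) • x) = t • j x := by
    intro t x
    induction x using gbx_ind with
    | h0 => rw [smul_zero, map_zero, smul_zero]
    | h1 w d y _ =>
      rw [smul_bb, one_smul]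
      rfl
    | h2 u v hu hv => rw [smul_add, map_add, map_add, smul_add, hu, hv]
  let e : Rr (algebraMap T (T ⊗[k] A)) (gbx k W Y).M ≃ₗ[T] Rs k T W.M ⊗[k] Rs k A Y.M :=
    { toFun := j
      map_add' := j.map_add
      map_smul' := hj
      invFun := fun x => x
      left_inv := fun _ => rfl
      right_inv := fun _ => rfl }
  exact Module.Flat.of_linearEquiv e

theorem gbx_reg {Y : GM 𝒜} {w : A} (h : ∀ y : Y.M, w • y = 0 → y = 0) (N : Type) [AddCommGroup N]
    [Module T N] (ξ : Rr (algebraMap T (T ⊗[k] A)) (gbx k (rt T) Y).M ⊗[T] N)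
    (hξ : inr k T A w • ξ = 0) : ξ = 0 := by
  obtain ⟨r, hr, hr'⟩ := exists_retr k (LinearMap.lsmul A Y.M w)
    ((injective_iff_map_eq_zero _).2 h)
  obtain ⟨g, hg⟩ := gbx_lift (k := k) (W := rt T) (Y := Y)
    (((bb k (rt T) Y).flip.comp r).flip) (by
      intro c t y
      change bb k (rt T) Y _ (r y) = bb k (rt T) Y t (r _)
      rw [hr', bb_alg])
  have hg' : ∀ t y, g (bb k (rt T) Y t y) = bb k (rt T) Y t (r y) := hg
  have h1 : ∀ (t : T) (x : (gbx k (rt T) Y).M),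
      g ((t ⊗ₜ[k] (1 : A)) • x) = (t ⊗ₜ[k] (1 : A)) • g x := by
    intro t x
    induction x using gbx_ind with
    | h0 => rw [smul_zero, map_zero, smul_zero]
    | h1 t' d y _ => rw [smul_bb, hg', hg', smul_bb, one_smul, one_smul]
    | h2 u v hu hv => rw [smul_add, map_add, map_add, smul_add, hu, hv]
  have h2 : ∀ x : (gbx k (rt T) Y).M, g (((1 : T) ⊗ₜ[k] w) • x) = x := by
    intro x
    induction x using gbx_ind with
    | h0 => rw [smul_zero, map_zero]
    | h1 t' d y _ =>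
      rw [smul_bb, hg', one_smul]
      exact congrArg (bb k (rt T) Y t') (hr y)
    | h2 u v hu hv => rw [smul_add, map_add, hu, hv]
  let ρ : Rr (algebraMap T (T ⊗[k] A)) (gbx k (rt T) Y).M →ₗ[T]
      Rr (algebraMap T (T ⊗[k] A)) (gbx k (rt T) Y).M :=
    { toFun := g
      map_add' := g.map_add
      map_smul' := h1 }
  have key : ∀ η : Rr (algebraMap T (T ⊗[k] A)) (gbx k (rt T) Y).M ⊗[T] N,
      ρ.rTensor N (inr k T A w • η) = η := by
    intro η
    induction η using TensorProduct.induction_on with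
    | zero => rw [smul_zero, map_zero]
    | tmul x n =>
      rw [TensorProduct.smul_tmul', LinearMap.rTensor_tmul]
      exact congrArg (fun y : Rr (algebraMap T (T ⊗[k] A)) (gbx k (rt T) Y).M => y ⊗ₜ[T] n) (h2 x)
    | add u v hu hv => rw [smul_add, map_add, hu, hv]
  rw [← key ξ, hξ, map_zero]

end Pool.Agent.CXD
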