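import Pool.Agent.P.MP_2ce3e7_ag.CPC1

attribute [local instance] Pool.Agent.CXD.instAddCommGroupRr Pool.Agent.CXD.Rr.big
  Pool.Agent.CXD.Rr.small Pool.Agent.CXD.instSMulCommClassRr

/-! Flatness of a homogeneous part. -/

set_option linter.unusedSectionVars false
set_option linter.unusedVariables false

open Function Filter
open scoped TensorProduct Polynomial

noncomputable section

namespace Pool.Agent.CXD

section
variable {T R R' Γ Γ' : Type} [CommRing T] [CommRing R] [CommRing R'] [AddCommGroup Γ]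
  [AddCommGroup Γ'] {ℛ : Γ → Set R} {ℛ' : Γ' → Set R'} {ι : T →+* R} {ι' : T →+* R'}

/-- the tensor product with a module over the ground ring -/
abbrev tn (hι : Hm ι (tv T) ℛ 0) (M : GM ℛ) (N : Type) [AddCommGroup N] [Module T N] : GM ℛ :=
  tens hι (GM.triv (tv T) N) M

/-- the part of degree `γ` is flat over `T` -/
def PFl (hι : Hm ι (tv T) ℛ 0) (M : GM ℛ) (γ : Γ) : Prop :=
  ∀ (N N' : Type) [AddCommGroup N] [Module T N] [AddCommGroup N'] [Module T N'] (f : N' →ₗ[T] N),
    Injective f → ∀ ξ : (tn hι M N').M, (tn hι M N').π γ ξ = ξ →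
      f.lTensor (Rr ι M.M) ξ = 0 → ξ = 0

variable {hι : Hm ι (tv T) ℛ 0} {hι' : Hm ι' (tv T) ℛ' 0} {M M₂ : GM ℛ} {M' : GM ℛ'} {γ : Γ}
  {c : Γ'}

theorem tn_π (N : Type) [AddCommGroup N] [Module T N] (γ : Γ) (x : M.M) (n : N) :
    (tn hι M N).π γ (tt hι (GM.triv (tv T) N) M x n) = tt hι (GM.triv (tv T) N) M (M.π γ x) n := by
  have h := tens_π (h := hι) (V := GM.triv (tv T) N) (Y := M) γ x (c := ()) (v := n) rfl
  rw [AddMonoidHom.zero_apply, sub_zero] at h
  exact h

theorem OF.pfl (h : OF ι {1} M.M) (γ : Γ) : PFl hι M γ := by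
  intro N N' _ _ _ _ f hf ξ _ h0
  obtain ⟨m, hm⟩ := h N N' f hf ξ h0 1 rfl
  rwa [one_pow, one_smul] at hm

theorem pfl_of_zero (h : ∀ x, M.π γ x = 0) : PFl hι M γ := by
  intro N N' _ _ _ _ f hf ξ h1 h2
  rw [← h1]
  clear h1 h2
  induction ξ using tens_ind with
  | h0 => exact map_zero _
  | h1 d y c v _ _ => rw [tn_π, h, map_zero, AddMonoidHom.zero_apply]
  | h2 x x' hx hx' => rw [map_add, hx, hx', add_zero]

/-- an additive map that is compatible with the ground ring -/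
def lin_CPC2 {X X' : Type} [AddCommGroup X] [Module R X] [AddCommGroup X'] [Module R' X']
    (j : X' →+ X) (hj : ∀ t y, j (ι' t • y) = ι t • j y) : Rr ι' X' →ₗ[T] Rr ι X where
  toFun := j
  map_add' := j.map_add
  map_smul' := hj

theorem PFl.piece (h : PFl hι M γ) (j : M'.M →+ M.M) (p : M.M →+ M'.M)
    (hj : ∀ t y, j (ι' t • y) = ι t • j y) (hp : ∀ t x, p (ι t • x) = ι' t • p x)
    (h1 : ∀ y, M'.π c y = y → M.π γ (j y) = j y) (h2 : ∀ y, M'.π c y = y → p (j y) = y) :
    PFl hι' M' c := by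
  intro N N' _ _ _ _ f hf ξ hξ h0
  let J : (tn hι' M' N').M →+ (tn hι M N').M := ((lin_CPC2 j hj).rTensor N').toAddMonoidHom
  let P : (tn hι M N').M →+ (tn hι' M' N').M := ((lin_CPC2 p hp).rTensor N').toAddMonoidHom
  have hJ : ∀ y n, J (tt hι' (GM.triv (tv T) N') M' y n) = tt hι (GM.triv (tv T) N') M (j y) n :=
    fun y n => rfl
  have hP : ∀ x n, P (tt hι (GM.triv (tv T) N') M x n) = tt hι' (GM.triv (tv T) N') M' (p x) n :=
    fun x n => rfl
  have key : ∀ η : (tn hι' M' N').M,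
      (tn hι M N').π γ (J ((tn hι' M' N').π c η)) = J ((tn hι' M' N').π c η) ∧
        P (J ((tn hι' M' N').π c η)) = (tn hι' M' N').π c η := by
    intro η
    induction η using tens_ind with
    | h0 => simp only [map_zero, and_self]
    | h1 d y e v _ _ =>
      rw [tn_π, hJ, tn_π, hP, h1 _ (M'.π_self c y), h2 _ (M'.π_self c y)]
      exact ⟨rfl, rfl⟩
    | h2 x x' hx hx' => simp only [map_add, hx.1, hx.2, hx'.1, hx'.2, and_self]
  have k := key ξ
  rw [hξ] at k
  have hz : J ξ = 0 := by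
    refine h N N' f hf (J ξ) k.1 ?_
    have e : f.lTensor (Rr ι M.M) ((lin_CPC2 j hj).rTensor N' ξ)
        = (lin_CPC2 j hj).rTensor N (f.lTensor (Rr ι' M'.M) ξ) := by
      rw [← LinearMap.comp_apply, ← LinearMap.comp_apply, LinearMap.lTensor_comp_rTensor,
        LinearMap.rTensor_comp_lTensor]
    exact e.trans (by rw [h0, map_zero])
  rw [← k.2, hz, map_zero]

theorem pi_sm_CPC2 (hι : Hm ι (tv T) ℛ 0) (M : GM ℛ) (γ : Γ) (t : T) (x : M.M) :
    M.π γ (ι t • x) = ι t • M.π γ x := by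
  have h := M.π_cl (hι.mem_cl (mem_cl (c := ()) (a := t) trivial)) γ x
  rwa [AddMonoidHom.zero_apply, zero_add] at h

theorem PFl.res {φ : R' →+* R} {ν : Γ' → Γ} {j : M'.M →+ M.M} (hj : IsRes φ ν M' M j)
    (hφ : ∀ t, φ (ι' t) = ι t) : PFl hι M (ν c) ↔ PFl hι' M' c := by
  choose p hp using hj.sur c
  let P : M.M →+ M'.M := AddMonoidHom.mk' p fun x y => hj.inj (by
    rw [map_add, hp, hp, hp, map_add])
  have hP : ∀ x, j (P x) = M.π (ν c) x := hp
  have a1 : ∀ t y, j (ι' t • y) = ι t • j y := fun t y => by rw [hj.smul, hφ]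
  have a2 : ∀ t x, P (ι t • x) = ι' t • P x := fun t x => hj.inj (by
    rw [a1, hP, hP, pi_sm_CPC2 hι])
  refine ⟨fun h => h.piece j P a1 a2 (fun y hy => by rw [← hj.π, hy])
      fun y hy => hj.inj (by rw [hP, ← hj.π, hy]),
    fun h => h.piece P j a2 a1 (fun x hx => hj.inj (by rw [hj.π, hP, M.π_self]))
      fun x hx => by rw [hP, hx]⟩

theorem pfl_iso {f : M.M →ₗ[R] M₂.M} (hf : IsG f) (hi : ∀ x, M.π γ x = x → f x = 0 → x = 0)
    (hs : ∀ y, ∃ x, f x = M₂.π γ y) : PFl hι M γ ↔ PFl hι M₂ γ := by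
  choose q0 hq0 using hs
  have hq : ∀ y, f (M.π γ (q0 y)) = M₂.π γ y := fun y => by rw [hf, hq0, M₂.π_self]
  have uq : ∀ x x', M.π γ x = x → M.π γ x' = x' → f x = f x' → x = x' := fun x x' a b e =>
    sub_eq_zero.1 (hi _ (by rw [map_sub, a, b]) (by rw [map_sub, e, sub_self]))
  let Q : M₂.M →+ M.M := AddMonoidHom.mk' (fun y => M.π γ (q0 y)) fun y y' =>
    uq _ _ (M.π_self _ _) (by rw [map_add, M.π_self, M.π_self])
      (by rw [map_add, hq, hq, hq, map_add])
  have hQ : ∀ y, f (Q y) = M₂.π γ y := hq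
  have hQ' : ∀ y, M.π γ (Q y) = Q y := fun y => M.π_self _ _
  have a1 : ∀ t x, f.toAddMonoidHom (ι t • x) = ι t • f.toAddMonoidHom x := fun t x =>
    f.map_smul _ _
  have a2 : ∀ t y, Q (ι t • y) = ι t • Q y := fun t y =>
    uq _ _ (hQ' _) (by rw [pi_sm_CPC2 hι, hQ']) (by rw [f.map_smul, hQ, hQ, pi_sm_CPC2 hι])
  refine ⟨fun h => h.piece Q f.toAddMonoidHom a2 a1 (fun y _ => hQ' y)
      fun y hy => (hQ y).trans hy,
    fun h => h.piece f.toAddMonoidHom Q a1 a2 (fun x hx => ?_) fun x hx => ?_⟩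
  · exact (hf γ x).symm.trans (congrArg f hx)
  · refine uq _ _ (hQ' _) hx ((hQ _).trans ?_)
    exact (hf γ x).symm.trans (congrArg f hx)

theorem pfl_shift (u : Γ) : PFl hι (M.shift u) γ ↔ PFl hι M (u + γ) := by
  exact ⟨fun h => h.piece (AddMonoidHom.id _) (AddMonoidHom.id _) (fun _ _ => rfl) (fun _ _ => rfl)
      (fun _ hy => hy) fun _ _ => rfl,
    fun h => h.piece (AddMonoidHom.id _) (AddMonoidHom.id _) (fun _ _ => rfl) (fun _ _ => rfl)
      (fun _ hy => hy) fun _ _ => rfl⟩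

theorem pfl_iff : PFl hι M γ ↔ letI := Module.compHom M.M ι
    Module.Flat T (Submodule.span T (Set.range (M.π γ))) := by
  change PFl hι M γ ↔ Module.Flat T (Submodule.span T
    (Set.range (M.π γ) : Set (Rr ι M.M)) : Submodule T (Rr ι M.M))
  set S : Submodule T (Rr ι M.M) := Submodule.span T (Set.range (M.π γ) : Set (Rr ι M.M)) with hS
  let p0 : Rr ι M.M →ₗ[T] Rr ι M.M := lin_CPC2 (M.π γ) (pi_sm_CPC2 hι M γ)
  have hmem : ∀ x, p0 x ∈ S := fun x => Submodule.subset_span ⟨x, rfl⟩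
  have hfix : ∀ x ∈ S, p0 x = x := by
    intro x hx
    induction hx using Submodule.span_induction with
    | mem x hx =>
      obtain ⟨y, rfl⟩ := hx
      exact M.π_self γ y
    | zero => exact map_zero _
    | add x y _ _ hx hy => rw [map_add, hx, hy]
    | smul a x _ hx => rw [map_smul, hx]
  let p : Rr ι M.M →ₗ[T] S := p0.codRestrict S hmem
  have hpi : p ∘ₗ S.subtype = LinearMap.id := LinearMap.ext fun x => Subtype.ext (hfix x.1 x.2)
  have hip : S.subtype ∘ₗ p = p0 := rfl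
  have hπ : ∀ (N : Type) [AddCommGroup N] [Module T N] (ξ : (tn hι M N).M),
      (tn hι M N).π γ ξ = p0.rTensor N ξ := by
    intro N _ _ ξ
    induction ξ using tens_ind with
    | h0 => exact (map_zero _).trans (map_zero _).symm
    | h1 d y e v _ _ => rw [tn_π]; rfl
    | h2 x x' hx hx' => rw [map_add, hx, hx']; exact (map_add _ _ _).symm
  constructor
  · intro h
    refine Module.Flat.iff_lTensor_preserves_injective_linearMap.2 ?_
    intro N' N _ _ _ _ f hf
    rw [injective_iff_map_eq_zero]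
    intro ξ h0
    have hz : S.subtype.rTensor N' ξ = 0 := by
      refine h N N' f hf (S.subtype.rTensor N' ξ) ?_ ?_
      · rw [hπ, ← hip, LinearMap.rTensor_comp_apply, ← LinearMap.rTensor_comp_apply N' p, hpi,
          LinearMap.rTensor_id, LinearMap.id_apply]
      · have e : f.lTensor (Rr ι M.M) (S.subtype.rTensor N' ξ)
            = S.subtype.rTensor N (f.lTensor S ξ) := by
          rw [← LinearMap.comp_apply, ← LinearMap.comp_apply, LinearMap.lTensor_comp_rTensor,
            LinearMap.rTensor_comp_lTensor]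
        exact e.trans (by rw [h0, map_zero])
    have e : p.rTensor N' (S.subtype.rTensor N' ξ) = ξ := by
      rw [← LinearMap.rTensor_comp_apply, hpi, LinearMap.rTensor_id, LinearMap.id_apply]
    rw [← e, hz, map_zero]
  · intro h N N' _ _ _ _ f hf ξ hξ h0
    have hz : p.rTensor N' ξ = 0 := by
      refine Module.Flat.lTensor_preserves_injective_linearMap (M := S) f hf ?_
      have e : f.lTensor S (p.rTensor N' ξ) = p.rTensor N (f.lTensor (Rr ι M.M) ξ) := by
        rw [← LinearMap.comp_apply, ← LinearMap.comp_apply, LinearMap.lTensor_comp_rTensor,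
          LinearMap.rTensor_comp_lTensor]
      rw [e, h0, map_zero, map_zero]
    rw [← hξ, hπ, ← hip]
    exact (LinearMap.rTensor_comp_apply N' _ _ _).trans (by rw [hz, map_zero]; rfl)

end

theorem PFl.flat {T : Type} [CommRing T] {h : Hm (RingHom.id T) (tv T) (tv T) 0} {W : GM (tv T)}
    (hW : PFl h W ()) : Module.Flat T W.M := by
  refine flat_rr_id.1 (of_one_iff.1 ?_)
  intro N N' _ _ _ _ f hf ξ h0 z hz
  refine ⟨0, ?_⟩
  have e : ξ = 0 := hW N N' f hf ξ (GM.π_id _ _ _) h0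
  rw [e]
  exact smul_zero (A := (tn h W N').M) (z ^ 0)

end Pool.Agent.CXD
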