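import Pool.Agent.P.MP_2ce3e7_ag.CPC2

attribute [local instance] Pool.Agent.CXD.instAddCommGroupRr Pool.Agent.CXD.Rr.big
  Pool.Agent.CXD.Rr.small Pool.Agent.CXD.instSMulCommClassRr

/-! Diagram chases. -/

set_option linter.unusedSectionVars false
set_option linter.unusedVariables false

open Function Filter
open scoped TensorProduct Polynomial

noncomputable section

namespace Pool.Agent.CXD

section
variable {T A B C : Type} [CommRing T] [AddCommGroup A] [Module T A] [AddCommGroup B] [Module T B]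
  [AddCommGroup C] [Module T C]

theorem comm_CPC3 {N N' : Type} [AddCommGroup N] [Module T N] [AddCommGroup N'] [Module T N']
    (a : A →ₗ[T] B) (u : N' →ₗ[T] N) (ξ : A ⊗[T] N') :
    a.rTensor N (u.lTensor A ξ) = u.lTensor B (a.rTensor N' ξ) := by
  induction ξ using TensorProduct.induction_on with
  | zero => simp only [map_zero]
  | tmul x y => simp only [LinearMap.lTensor_tmul, LinearMap.rTensor_tmul]
  | add x y hx hy => simp only [map_add, hx, hy]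

theorem chase_CPC3 {H G N : Type} [AddCommGroup H] [Module T H] [AddCommGroup G] [Module T G]
    [AddCommGroup N] [Module T N] [Module.Flat T G] {f : A →ₗ[T] B} {g : B →ₗ[T] C}
    (hi : Injective f) (hsu : Surjective g) (hex : Exact f g) {i : H →ₗ[T] G} {p : G →ₗ[T] N}
    (hip : Exact i p) (hp : Surjective p) (η : A ⊗[T] G) (ζ : B ⊗[T] H)
    (h1 : i.lTensor B ζ = f.rTensor G η) (h2 : g.rTensor H ζ = 0) : p.lTensor A η = 0 := by
  obtain ⟨ζ', hζ'⟩ := (rTensor_exact H hex hsu ζ).1 h2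
  have h3 : f.rTensor G (i.lTensor A ζ') = f.rTensor G η := by rw [comm_CPC3, hζ', h1]
  have h4 := Module.Flat.rTensor_preserves_injective_linearMap (M := G) f hi h3
  exact (lTensor_exact A hip hp η).2 ⟨ζ', h4⟩

theorem pres_CPC3 (N : Type) [AddCommGroup N] [Module T N] :
    ∃ (G H : Type) (_ : AddCommGroup G) (_ : Module T G) (_ : AddCommGroup H) (_ : Module T H)
      (_ : Module.Flat T G) (i : H →ₗ[T] G) (p : G →ₗ[T] N),
      Injective i ∧ Surjective p ∧ Exact i p :=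
  ⟨N →₀ T, LinearMap.ker (Finsupp.linearCombination T (id : N → N)), inferInstance, inferInstance,
    inferInstance, inferInstance, inferInstance, Submodule.subtype _, _,
    Submodule.subtype_injective _, Finsupp.linearCombination_surjective T surjective_id,
    LinearMap.exact_subtype_ker_map _⟩

theorem cok_CPC3 {N N' : Type} [AddCommGroup N] [Module T N] [AddCommGroup N'] [Module T N']
    (u : N' →ₗ[T] N) : ∃ (Q : Type) (_ : AddCommGroup Q) (_ : Module T Q) (c : N →ₗ[T] Q),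
      Surjective c ∧ Exact u c :=
  ⟨N ⧸ LinearMap.range u, inferInstance, inferInstance, Submodule.mkQ _,
    Submodule.mkQ_surjective _, LinearMap.exact_map_mkQ_range u⟩

end

section
variable {T R X₁ X₂ X₃ : Type} [CommRing T] [CommRing R] {ι : T →+* R} {Z : Set R}
  [AddCommGroup X₁] [Module R X₁] [AddCommGroup X₂] [Module R X₂] [AddCommGroup X₃] [Module R X₃]
  {f : X₁ →ₗ[R] X₂} {g : X₂ →ₗ[R] X₃}

theorem rr_smul {N : Type} [AddCommGroup N] [Module T N] (f : X₁ →ₗ[R] X₂) (r : R)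
    (ξ : Rr ι X₁ ⊗[T] N) :
    (rr_CWI2 ι f).rTensor N (r • ξ) = r • (rr_CWI2 ι f).rTensor N ξ := by
  induction ξ using TensorProduct.induction_on with
  | zero => simp only [smul_zero, map_zero]
  | tmul x y =>
    rw [TensorProduct.smul_tmul', LinearMap.rTensor_tmul, LinearMap.rTensor_tmul,
      TensorProduct.smul_tmul']
    exact congrArg (fun t : Rr ι X₂ => t ⊗ₜ[T] y) (map_smul f r x)
  | add x y hx hy => simp only [smul_add, map_add, hx, hy]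

theorem lt_smul {N N' : Type} [AddCommGroup N] [Module T N] [AddCommGroup N'] [Module T N']
    (u : N' →ₗ[T] N) (r : R) (ξ : Rr ι X₁ ⊗[T] N') :
    u.lTensor (Rr ι X₁) (r • ξ) = r • u.lTensor (Rr ι X₁) ξ := by
  induction ξ using TensorProduct.induction_on with
  | zero => simp only [smul_zero, map_zero]
  | tmul x y =>
    rw [TensorProduct.smul_tmul', LinearMap.lTensor_tmul, LinearMap.lTensor_tmul,
      TensorProduct.smul_tmul']
  | add x y hx hy => simp only [smul_add, map_add, hx, hy]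

theorem lsmul_CPC3 {N : Type} [AddCommGroup N] [Module T N] (w : R) (ξ : Rr ι X₁ ⊗[T] N) :
    (rr_CWI2 ι (LinearMap.lsmul R X₁ w)).rTensor N ξ = w • ξ := by
  induction ξ using TensorProduct.induction_on with
  | zero => simp only [smul_zero, map_zero]
  | tmul x y => rfl
  | add x y hx hy => simp only [smul_add, map_add, hx, hy]

theorem one_CPC3 (h : OF ι {1} X₁) {N N' : Type} [AddCommGroup N] [Module T N] [AddCommGroup N']
    [Module T N'] (u : N' →ₗ[T] N) (hu : Injective u) (ξ : Rr ι X₁ ⊗[T] N')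
    (hξ : u.lTensor (Rr ι X₁) ξ = 0) : ξ = 0 := by
  obtain ⟨m, hm⟩ := h N N' u hu ξ hξ 1 rfl
  rwa [one_pow, one_smul] at hm

theorem tor_nil (hs : Sx f g) (h : OF ι Z X₃) {N : Type} [AddCommGroup N] [Module T N]
    (ξ : Rr ι X₁ ⊗[T] N) (hξ : (rr_CWI2 ι f).rTensor N ξ = 0) :
    ∀ z ∈ Z, ∃ m : ℕ, z ^ m • ξ = 0 := by
  intro z hz
  obtain ⟨hi, hsu, hex⟩ := hs
  obtain ⟨G, H, _, _, _, _, _, i, p, hii, hp, hip⟩ := pres_CPC3 (T := T) N
  have hfg := rTensor_exact G (f := rr_CWI2 ι f) (g := rr_CWI2 ι g) hex hsu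
  obtain ⟨η, rfl⟩ := LinearMap.lTensor_surjective (Rr ι X₁) hp ξ
  rw [comm_CPC3] at hξ
  obtain ⟨ζ, hζ⟩ := (lTensor_exact (Rr ι X₂) hip hp _).1 hξ
  obtain ⟨m, hm⟩ := h _ _ i hii ((rr_CWI2 ι g).rTensor _ ζ) (by
    rw [← comm_CPC3, hζ]
    exact (hfg _).2 ⟨η, rfl⟩) z hz
  refine ⟨m, ?_⟩
  rw [← lt_smul]
  exact chase_CPC3 (f := rr_CWI2 ι f) (g := rr_CWI2 ι g) hi hsu hex hip hp (z ^ m • η) (z ^ m • ζ)
    (by rw [lt_smul, rr_smul, hζ]) (by rw [rr_smul, hm])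

theorem OF.ker (hs : Sx f g) (h₂ : OF ι {1} X₂) (h₃ : OF ι Z X₃) : OF ι Z X₁ := by
  intro N N' _ _ _ _ u hu ξ hξ
  refine tor_nil hs h₃ ξ (one_CPC3 h₂ u hu _ ?_)
  rw [← comm_CPC3, hξ, map_zero]

theorem quot_CPC3 (hs : Sx f g) (h₂ : OF ι {1} X₂) (h₃ : OF ι Z X₃) {w : R}
    (hw : ∀ (N : Type) [AddCommGroup N] [Module T N] (ξ : Rr ι X₂ ⊗[T] N), w • ξ = 0 → ξ = 0)
    {Q : Type} [AddCommGroup Q] [Module R Q] (q : X₁ →ₗ[R] Q) (hq₀ : Surjective q)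
    (hwq₀ : Exact (LinearMap.lsmul R X₁ w) q) : OF ι Z Q := by
  intro N N' _ _ _ _ u hu ξ hξ z hz
  have hq : Surjective (rr_CWI2 ι q) := hq₀
  have hwq : Exact (rr_CWI2 ι (LinearMap.lsmul R X₁ w)) (rr_CWI2 ι q) := hwq₀
  obtain ⟨C, _, _, c, hc, huc⟩ := cok_CPC3 u
  obtain ⟨η, rfl⟩ := LinearMap.rTensor_surjective N' hq ξ
  rw [← comm_CPC3] at hξ
  obtain ⟨η', hη'⟩ := (rTensor_exact N hwq hq _).1 hξ
  rw [lsmul_CPC3] at hη'
  have h1 : c.lTensor (Rr ι X₂) ((rr_CWI2 ι f).rTensor N η') = 0 := by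
    apply hw
    rw [← lt_smul, ← rr_smul, hη', comm_CPC3]
    exact (lTensor_exact (Rr ι X₂) huc hc _).2 ⟨_, rfl⟩
  obtain ⟨θ, hθ⟩ := (lTensor_exact (Rr ι X₂) huc hc _).1 h1
  have h2 : (rr_CWI2 ι f).rTensor N' η = w • θ := by
    rw [← sub_eq_zero]
    refine one_CPC3 h₂ u hu _ ?_
    rw [map_sub, ← comm_CPC3, lt_smul, hθ, ← hη', rr_smul, sub_self]
  obtain ⟨m, hm⟩ := h₃ _ _ u hu ((rr_CWI2 ι g).rTensor N' θ) (by
    rw [← comm_CPC3, hθ]
    exact (rTensor_exact N (f := rr_CWI2 ι f) (g := rr_CWI2 ι g) hs.2.2 hs.2.1 _).2 ⟨η', rfl⟩) z hz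
  rw [← rr_smul] at hm
  obtain ⟨θ', hθ'⟩ :=
    (rTensor_exact N' (f := rr_CWI2 ι f) (g := rr_CWI2 ι g) hs.2.2 hs.2.1 _).1 hm
  obtain ⟨m', hm'⟩ := tor_nil hs h₃ (z ^ m • η - w • θ') (by
    rw [map_sub, rr_smul, rr_smul, h2, hθ', smul_comm, sub_self]) z hz
  refine ⟨m' + m, ?_⟩
  have h3 := congrArg ((rr_CWI2 ι q).rTensor N') hm'
  have h4 : (rr_CWI2 ι q).rTensor N' (w • θ') = 0 :=
    (rTensor_exact N' hwq hq _).2 ⟨θ', lsmul_CPC3 w θ'⟩
  rw [map_zero, rr_smul, map_sub, h4, sub_zero, rr_smul] at h3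
  rw [pow_add, mul_smul, h3]

theorem OF.quot (hs : Sx f g) (h₂ : OF ι {1} X₂) (h₃ : OF ι Z X₃) {w : R}
    (hw : ∀ (N : Type) [AddCommGroup N] [Module T N] (ξ : Rr ι X₂ ⊗[T] N), w • ξ = 0 → ξ = 0) :
    OF ι Z (X₁ ⧸ LinearMap.range (LinearMap.lsmul R X₁ w)) := by
  exact quot_CPC3 hs h₂ h₃ hw (Submodule.mkQ _) (Submodule.mkQ_surjective _)
    (LinearMap.exact_map_mkQ_range _)

end

variable {T R Γ : Type} [CommRing T] [CommRing R] [AddCommGroup Γ] {ℛ : Γ → Set R} {ι : T →+* R}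
  {hι : Hm ι (tv T) ℛ 0} {M₁ M₂ M₃ : GM ℛ} {f : M₁.M →ₗ[R] M₂.M} {g : M₂.M →ₗ[R] M₃.M} {γ : Γ}

theorem rr_π (hf : IsG f) {N : Type} [AddCommGroup N] [Module T N] (γ : Γ) (ξ : (tn hι M₁ N).M) :
    (rr_CWI2 ι f).rTensor N ((tn hι M₁ N).π γ ξ) =
      (tn hι M₂ N).π γ ((rr_CWI2 ι f).rTensor N ξ) := by
  induction ξ using tens_ind with
  | h0 =>
    have e : (rr_CWI2 ι f).rTensor N (0 : (tn hι M₁ N).M) = (0 : (tn hι M₂ N).M) := map_zero _
    rw [map_zero, e, map_zero]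
  | h1 d y c v _ _ =>
    have e : ∀ y : M₁.M, (rr_CWI2 ι f).rTensor N (tt hι (GM.triv (tv T) N) M₁ y v) =
        tt hι (GM.triv (tv T) N) M₂ (f y) v := fun y => rfl
    rw [tn_π, e, e, tn_π, hf]
  | h2 x x' hx hx' =>
    have e : ∀ x x' : (tn hι M₁ N).M, (rr_CWI2 ι f).rTensor N (x + x') =
        (show (tn hι M₂ N).M from (rr_CWI2 ι f).rTensor N x) +
          (show (tn hι M₂ N).M from (rr_CWI2 ι f).rTensor N x') := fun x x' => map_add _ _ _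
    rw [map_add, e, e, map_add, hx, hx']

theorem lt_π {N N' : Type} [AddCommGroup N] [Module T N] [AddCommGroup N'] [Module T N']
    (u : N' →ₗ[T] N) (γ : Γ) (ξ : (tn hι M₁ N').M) :
    u.lTensor (Rr ι M₁.M) ((tn hι M₁ N').π γ ξ) =
      (tn hι M₁ N).π γ (u.lTensor (Rr ι M₁.M) ξ) := by
  induction ξ using tens_ind with
  | h0 =>
    have e : u.lTensor (Rr ι M₁.M) (0 : (tn hι M₁ N').M) = (0 : (tn hι M₁ N).M) := map_zero _
    rw [map_zero, e, map_zero]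
  | h1 d y c v _ _ =>
    have e : ∀ y : M₁.M, u.lTensor (Rr ι M₁.M) (tt hι (GM.triv (tv T) N') M₁ y v) =
        tt hι (GM.triv (tv T) N) M₁ y (u v) := fun y => rfl
    rw [tn_π, e, e, tn_π]
  | h2 x x' hx hx' =>
    have e : ∀ x x' : (tn hι M₁ N').M, u.lTensor (Rr ι M₁.M) (x + x') =
        (show (tn hι M₁ N).M from u.lTensor (Rr ι M₁.M) x) +
          (show (tn hι M₁ N).M from u.lTensor (Rr ι M₁.M) x') := fun x x' => map_add _ _ _
    rw [map_add, e, e, map_add, hx, hx']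

theorem tor_deg (hf : IsG f) (hg : IsG g) (hs : Sx f g) (h : PFl hι M₃ γ) {N : Type}
    [AddCommGroup N] [Module T N] (ξ : (tn hι M₁ N).M) (h1 : (tn hι M₁ N).π γ ξ = ξ)
    (hξ : (rr_CWI2 ι f).rTensor N ξ = 0) : ξ = 0 := by
  obtain ⟨hi, hsu, hex⟩ := hs
  obtain ⟨G, H, _, _, _, _, _, i, p, hii, hp, hip⟩ := pres_CPC3 (T := T) N
  have hfg := rTensor_exact G (f := rr_CWI2 ι f) (g := rr_CWI2 ι g) hex hsu
  obtain ⟨η, rfl⟩ := LinearMap.lTensor_surjective (Rr ι M₁.M) hp ξ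
  have hξ' := (comm_CPC3 (rr_CWI2 ι f) _ η).symm.trans hξ
  obtain ⟨ζ, hζ⟩ := (lTensor_exact (Rr ι M₂.M) hip hp _).1 hξ'
  have e1 := (lt_π (hι := hι) (M₁ := M₂) i γ ζ).trans
    ((congrArg ((tn hι M₂ G).π γ) hζ).trans (rr_π (hι := hι) hf γ η).symm)
  have e2 := h _ _ i hii ((rr_CWI2 ι g).rTensor _ ((tn hι M₂ H).π γ ζ))
    ((rr_π (hι := hι) hg γ _).symm.trans (congrArg _ (GM.π_self _ _ _)))
    ((comm_CPC3 (rr_CWI2 ι g) _ _).symm.trans ((congrArg _ e1).trans ((hfg _).2 ⟨_, rfl⟩)))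
  have e3 := chase_CPC3 (f := rr_CWI2 ι f) (g := rr_CWI2 ι g) hi hsu hex hip hp _ _ e1 e2
  exact h1.symm.trans ((lt_π (hι := hι) (M₁ := M₁) _ γ η).symm.trans e3)

theorem pfl_of_tor (hf : IsG f) (hg : IsG g) (hs : Sx f g) (h₂ : OF ι {1} M₂.M)
    (h : ∀ (N : Type) [AddCommGroup N] [Module T N] (ξ : (tn hι M₁ N).M),
      (tn hι M₁ N).π γ ξ = ξ → (rr_CWI2 ι f).rTensor N ξ = 0 → ξ = 0) : PFl hι M₃ γ := by
  intro N N' _ _ _ _ u hu ξ h1 hξ
  obtain ⟨hi, hsu, hex⟩ := hs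
  obtain ⟨C, _, _, c, hc, huc⟩ := cok_CPC3 u
  obtain ⟨η₀, hη₀⟩ := LinearMap.rTensor_surjective N' (g := rr_CWI2 ι g) hsu ξ
  obtain ⟨η, hη, hη'⟩ : ∃ η : Rr ι M₂.M ⊗[T] N', (tn hι M₂ N').π γ η = η ∧
      (rr_CWI2 ι g).rTensor N' η = ξ :=
    ⟨(tn hι M₂ N').π γ η₀, GM.π_self _ _ _,
      (rr_π (hι := hι) hg γ η₀).trans ((congrArg _ hη₀).trans h1)⟩
  have h2 : (rr_CWI2 ι g).rTensor N (u.lTensor _ η) = 0 := by
    rw [comm_CPC3, hη']
    exact hξ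
  obtain ⟨θ₀, hθ₀⟩ := (rTensor_exact N (f := rr_CWI2 ι f) (g := rr_CWI2 ι g) hex hsu _).1 h2
  obtain ⟨θ, hθ, hθ'⟩ : ∃ θ : Rr ι M₁.M ⊗[T] N, (tn hι M₁ N).π γ θ = θ ∧
      (rr_CWI2 ι f).rTensor N θ = u.lTensor _ η :=
    ⟨(tn hι M₁ N).π γ θ₀, GM.π_self _ _ _, (rr_π (hι := hι) hf γ θ₀).trans ((congrArg _ hθ₀).trans
      ((lt_π (hι := hι) (M₁ := M₂) u γ η).symm.trans (congrArg _ hη)))⟩
  have h3 : c.lTensor (Rr ι M₁.M) θ = 0 :=
    h _ _ ((lt_π (hι := hι) (M₁ := M₁) _ γ θ).symm.trans (congrArg _ hθ))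
      ((comm_CPC3 (rr_CWI2 ι f) _ θ).trans ((congrArg _ hθ').trans
        ((lTensor_exact (Rr ι M₂.M) huc hc _).2 ⟨η, rfl⟩)))
  obtain ⟨θ', rfl⟩ := (lTensor_exact (Rr ι M₁.M) huc hc _).1 h3
  have h4 : η - (rr_CWI2 ι f).rTensor N' θ' = 0 := by
    refine one_CPC3 h₂ u hu _ ?_
    rw [map_sub, ← comm_CPC3, hθ', sub_self]
  rw [sub_eq_zero] at h4
  exact hη'.symm.trans
    ((rTensor_exact N' (f := rr_CWI2 ι f) (g := rr_CWI2 ι g) hex hsu _).2 ⟨θ', h4.symm⟩)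

end Pool.Agent.CXD
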