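import Pool.Agent.P.MP_2ce3e7_ag.CPC3

attribute [local instance] Pool.Agent.CXD.instAddCommGroupRr Pool.Agent.CXD.Rr.big
  Pool.Agent.CXD.Rr.small Pool.Agent.CXD.instSMulCommClassRr

/-! The parts of large degree of a flat family are flat. -/

set_option linter.unusedSectionVars false
set_option linter.unusedVariables false

open Function Filter
open scoped TensorProduct Polynomial

noncomputable section

namespace Pool.Agent.CXD

section
variable {T R Γ : Type} [CommRing T] [CommRing R] [AddCommGroup Γ] {ℛ : Γ → Set R} [Gd ℛ]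
  {ι : T →+* R} {hι : Hm ι (tv T) ℛ 0} {δ : Γ →+ ℤ} {u : Γ}

/-- one step of the induction on the number of variables -/
theorem fs_step {K F W : GM ℛ} {f : K.M →ₗ[R] F.M} {g : F.M →ₗ[R] W.M} (hf : IsG f) (hg : IsG g)
    (hs : Sx f g) (hF : OF ι {1} F.M) {w : R} (hw : w ∈ cl ℛ u) (hu : δ u = 1)
    (hW : OF ι {w} W.M)
    (hr : ∀ (N : Type) [AddCommGroup N] [Module T N] (ξ : Rr ι F.M ⊗[T] N), w • ξ = 0 → ξ = 0)
    (hK : ∀ᶠ t in atTop, ∀ γ, δ γ = t → PFl hι (K.quo _ (isG_lsmul (M := K) hw).range) γ) :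
    ∀ᶠ t in atTop, ∀ γ, δ γ = t → PFl hι W γ := by
  obtain ⟨t₀, ht₀⟩ := eventually_atTop.1 hK
  have hFw : ∀ x : F.M, w • x = 0 → x = 0 := fun x hx => by
    have h1 := hr T ((show Rr ι F.M from x) ⊗ₜ[T] (1 : T)) (by
      change (show Rr ι F.M from w • x) ⊗ₜ[T] (1 : T) = 0
      rw [hx]; exact TensorProduct.zero_tmul _ _)
    have h2 := congrArg (TensorProduct.rid T (Rr ι F.M)) h1
    rw [TensorProduct.rid_tmul, one_smul, map_zero] at h2
    exact h2
  have hsx : Sx (LinearMap.lsmul R K.M w) (LinearMap.range (LinearMap.lsmul R K.M w)).mkQ := by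
    refine ⟨(injective_iff_map_eq_zero _).2 fun x hx => hs.1 ?_, Submodule.mkQ_surjective _,
      LinearMap.exact_map_mkQ_range _⟩
    rw [map_zero]
    refine hFw _ ?_
    rw [← map_smul]
    exact (congrArg f hx).trans (map_zero f)
  refine eventually_atTop.2 ⟨t₀, fun t ht γ hγ => pfl_of_tor hf hg hs hF fun N _ _ ξ h1 h2 => ?_⟩
  have key : ∀ γ, t₀ ≤ δ γ → ∀ ξ : (tn hι K N).M, (tn hι K N).π γ ξ = ξ → w • ξ = 0 → ξ = 0 := by
    intro γ hγ ξ h1 h2
    have e1 : ∀ ξ : (tn hι K N).M,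
        (tn hι (K.shift (-u)) N).π (u + γ) ξ = (tn hι K N).π γ ξ := fun ξ => by
      induction ξ using tens_ind with
      | h0 => exact (map_zero _).trans (map_zero _).symm
      | h1 c y c' v _ _ =>
        refine (tn_π (hι := hι) (M := K.shift (-u)) N (u + γ) y v).trans ?_
        rw [tn_π]
        change tt hι (GM.triv (tv T) N) K (K.π (-u + (u + γ)) y) v = _
        rw [neg_add_cancel_left]
      | h2 x x' hx hx' =>
        exact (map_add _ x x').trans ((congrArg₂ (· + ·) hx hx').trans (map_add _ x x').symm)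
    have e2 : ∀ ξ : Rr ι K.M ⊗[T] N,
        (rr_CWI2 ι (LinearMap.lsmul R K.M w)).rTensor N ξ = w • ξ := fun ξ => by
      induction ξ using TensorProduct.induction_on with
      | zero => rw [map_zero, smul_zero]
      | tmul y v => rfl
      | add x x' hx hx' => rw [map_add, smul_add, hx, hx']
    exact tor_deg (M₁ := K.shift (-u)) (M₂ := K) (isG_lsmul hw)
      (isG_mkQ (isG_lsmul (M := K) hw).range) hsx
      (ht₀ (δ (u + γ)) (by rw [map_add, hu]; omega) _ rfl) ξ ((e1 ξ).trans h1) ((e2 ξ).trans h2)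
  obtain ⟨m, hm⟩ := tor_nil hs hW ξ h2 w rfl
  have hγ' : t₀ ≤ δ γ := hγ ▸ ht
  clear h2 hγ
  induction m generalizing γ ξ with
  | zero => exact (one_smul R ξ).symm.trans ((congrArg (· • ξ) (pow_zero w)).symm.trans hm)
  | succ m ih =>
    refine key γ hγ' ξ h1 (ih (u + γ) (w • ξ) (GM.hom_smul hw h1) ?_
      (by rw [map_add, hu]; omega))
    exact (mul_smul (w ^ m) w ξ).symm.trans ((congrArg (· • ξ) (pow_succ w m)).symm.trans hm)

end

variable {k T C Γ σ : Type} [Field k] [CommRing T] [Algebra k T] [CommRing C] [Algebra k C]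
  [AddCommGroup Γ] [Fintype σ] {𝒞 : Γ → Set C} [Gd 𝒞] [Gk k 𝒞] {w : σ → C} {δ : Γ →+ ℤ} {u : Γ}

/-- a good cover -/
theorem exists_cover {U : GM 𝒞} {e : U.M} {I : Ideal C} (hU : Cy U e I) (W : GM (tgr k T 𝒞))
    (hW : Module.Finite (T ⊗[k] C) W.M) (hk : ∀ a ∈ I, ∀ x : W.M, inr k T C a • x = 0) :
    ∃ (Y : GM 𝒞) (g : (gbx k (rt T) Y).M →ₗ[T ⊗[k] C] W.M), Module.Finite C Y.M ∧ Kill I Y.M ∧
      (∀ a : C, (∀ x : U.M, a • x = 0 → x = 0) → ∀ y : Y.M, a • y = 0 → y = 0) ∧ IsG g ∧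
        Surjective g := by
  classical
  obtain ⟨s, hs, hd⟩ := W.exists_gens
  choose d hd using fun i : s => hd i.1 i.2
  choose sc hsc using hU.exists_smul
  have wd : ∀ (x : W.M) (a b : C), a • e = b • e → inr k T C a • x = inr k T C b • x :=
    fun x a b h => by
      rw [← sub_eq_zero, ← sub_smul, ← map_sub]
      exact hk _ ((hU.ann _).1 (by rw [sub_smul, h, sub_self])) x
  let L : W.M → U.M →+ W.M := fun x => AddMonoidHom.mk' (fun y => inr k T C (sc y) • x)
    fun y y' => by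
      rw [← add_smul, ← map_add]
      exact wd x _ _ (by rw [add_smul, hsc, hsc, hsc])
  have hL : ∀ x a, L x (a • e) = inr k T C a • x := fun x a => wd x _ _ (hsc _)
  have hL2 : ∀ x (a : C) y, L x (a • y) = inr k T C a • L x y := fun x a y => by
    rw [← hsc y, ← mul_smul, hL, hL, map_mul, mul_smul]
  let Y : GM 𝒞 := GM.piF fun i : s => U.shift (-(d i))
  let G : Y.M →+ W.M := AddMonoidHom.mk' (fun y => ∑ i : s, L i.1 (y i)) fun y y' => by
    rw [← Finset.sum_add_distrib]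
    exact Finset.sum_congr rfl fun i _ => map_add _ _ _
  have hG : ∀ y, G y = ∑ i : s, L i.1 (y i) := fun _ => rfl
  have hG2 : ∀ (a : C) y, G (a • y) = inr k T C a • G y := fun a y => by
    rw [hG, hG, Finset.smul_sum]
    exact Finset.sum_congr rfl fun i _ => hL2 _ _ _
  let Fm : (rt T).M →+ Y.M →+ W.M := AddMonoidHom.mk'
    (fun t : T => (DistribSMul.toAddMonoidHom W.M (t ⊗ₜ[k] (1 : C))).comp G) fun t t' => by
      refine AddMonoidHom.ext fun y => ?_
      change ((t + t') ⊗ₜ[k] (1 : C)) • G y = (t ⊗ₜ[k] (1 : C)) • G y + (t' ⊗ₜ[k] (1 : C)) • G y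
      rw [TensorProduct.add_tmul, add_smul]
  have hmul : ∀ (t : T) (a : C), (t ⊗ₜ[k] (1 : C)) * inr k T C a = t ⊗ₜ[k] a := fun t a => by
    change (t ⊗ₜ[k] (1 : C)) * ((1 : T) ⊗ₜ[k] a) = _
    rw [Algebra.TensorProduct.tmul_mul_tmul, mul_one, one_mul]
  obtain ⟨g, hg⟩ := gbx_lift (k := k) (W := rt T) (Y := Y) Fm fun c t y => by
    change ((algebraMap k T c * t : T) ⊗ₜ[k] (1 : C)) • G y =
      ((t : T) ⊗ₜ[k] (1 : C)) • G (algebraMap k C c • y)
    rw [hG2, ← mul_smul, hmul, ← Algebra.smul_def, TensorProduct.smul_tmul,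
      Algebra.algebraMap_eq_smul_one]
  replace hg : ∀ (t : T) y, g (bb k (rt T) Y t y) = (t ⊗ₜ[k] (1 : C)) • G y := hg
  have hlin : ∀ (r : T ⊗[k] C) x, g (r • x) = r • g x := fun r x => by
    induction r using TensorProduct.induction_on with
    | zero => rw [zero_smul, zero_smul, map_zero]
    | add r r' h h' => rw [add_smul, add_smul, map_add, h, h']
    | tmul t a =>
      induction x using gbx_ind with
      | h0 => rw [smul_zero, map_zero, smul_zero]
      | h2 x x' h h' => rw [smul_add, map_add, map_add, smul_add, h, h']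
      | h1 t' c y _ =>
        rw [smul_bb, hg, hg, hG2, ← mul_smul, ← mul_smul, hmul,
          Algebra.TensorProduct.tmul_mul_tmul, mul_one, smul_eq_mul]
  let g' : (gbx k (rt T) Y).M →ₗ[T ⊗[k] C] W.M := ⟨⟨g, map_add g⟩, hlin⟩
  have := hU.finite
  refine ⟨Y, g', Module.Finite.pi, fun a ha y => funext fun i => hU.kill a ha (y i),
    fun a ha y hy => funext fun i => ha _ (congrFun hy i), fun c x => ?_, ?_⟩
  · change g _ = W.π c (g x)
    induction x using gbx_ind with
    | h0 => rw [map_zero, map_zero, map_zero]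
    | h2 x x' h h' => rw [map_add, map_add, map_add, map_add, h, h']
    | h1 t c' y hy =>
      have h1 : W.π c' (g (bb k (rt T) Y t y)) = g (bb k (rt T) Y t y) := by
        rw [hg, hG, Finset.smul_sum, map_sum]
        refine Finset.sum_congr rfl fun i _ => ?_
        obtain ⟨a, ha, e1⟩ := hU.exists_hom (d := -(d i) + c') (y := y i) (congrFun hy i)
        have := GM.hom_smul (tmul_mem_tgr (k := k) t ha) (hd i)
        rw [← e1, hL, ← mul_smul, hmul]
        rwa [neg_add_cancel_comm] at this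
      rw [gbx_π]
      by_cases h : c = c'
      · rw [h, hy, h1]
      · rw [GM.π_of_ne hy h, GM.π_of_ne h1 h, map_zero, map_zero]
  · rw [← LinearMap.range_eq_top, eq_top_iff, ← hs, Submodule.span_le]
    intro x hx
    refine ⟨bb k (rt T) Y (1 : T) (Pi.single (⟨x, hx⟩ : s) e), ?_⟩
    change g _ = x
    rw [hg, hG, ← Algebra.TensorProduct.one_def, one_smul,
      Finset.sum_eq_single (⟨x, hx⟩ : s) (fun j _ hj => by rw [Pi.single_eq_of_ne hj, map_zero])
        (fun h => absurd (Finset.mem_univ _) h), Pi.single_eq_same]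
    have := hL x 1
    rwa [one_smul, map_one, one_smul] at this

theorem flat_slices [IsNoetherianRing (T ⊗[k] C)] (hw : ∀ i, w i ∈ cl 𝒞 u) (hu : δ u = 1)
    (hU : ∀ s : Set σ, ∃ (U : GM 𝒞) (e : U.M), Cy U e (Ideal.span (w '' sᶜ)) ∧
      ∀ i ∈ s, ∀ x : U.M, w i • x = 0 → x = 0)
    (h0 : ∀ (n : ℕ) (γ : Γ), (n : ℤ) ≤ δ γ → ∀ a ∈ 𝒞 γ, a ∈ Ideal.span (Set.range w) ^ n)
    (W : GM (tgr k T 𝒞)) (hW : Module.Finite (T ⊗[k] C) W.M)
    (hf : OF (algebraMap T (T ⊗[k] C)) (Set.range fun i => inr k T C (w i)) W.M) :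
    ∀ᶠ t in atTop, ∀ γ, δ γ = t → PFl hm_alg W γ := by
  classical
  have kl : ∀ (W : GM (tgr k T 𝒞)) (S : Set C), (∀ a ∈ S, ∀ x : W.M, inr k T C a • x = 0) →
      Ideal.span S ≤ (Module.annihilator (T ⊗[k] C) W.M).comap (inr k T C) := fun W S h =>
    Ideal.span_le.2 fun a ha => Module.mem_annihilator.2 (h a ha)
  suffices H : ∀ (s : Finset σ) (W : GM (tgr k T 𝒞)), Module.Finite (T ⊗[k] C) W.M →
      (∀ i, i ∉ s → ∀ x : W.M, inr k T C (w i) • x = 0) →
      OF (algebraMap T (T ⊗[k] C)) (Set.range fun i => inr k T C (w i)) W.M →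
      ∀ᶠ t in atTop, ∀ γ, δ γ = t → PFl hm_alg W γ from
    H Finset.univ W hW (fun i hi => absurd (Finset.mem_univ i) hi) hf
  intro s
  induction s using Finset.induction_on with
  | empty =>
    intro W hW hk _
    have := W.vanish hW δ (tgr_mem_pow (k := k) (T := T) h0) (n := 1) (by
      rw [pow_one]
      exact fun a ha => Module.mem_annihilator.1 (Ideal.map_le_iff_le_comap.2
        (kl W _ (by rintro _ ⟨i, rfl⟩; exact hk i (Finset.notMem_empty i))) ha))
    filter_upwards [this] with t ht γ hγ using pfl_of_zero (ht γ hγ)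
  | insert i s his ih =>
    intro W hW hk hf
    obtain ⟨U, e, hC, hreg⟩ := hU (↑(insert i s) : Set σ)
    obtain ⟨Y, g, hY, hkY, hrY, hg, hsur⟩ := exists_cover hC W hW fun a ha =>
      Module.mem_annihilator.1 (kl W _ (by rintro _ ⟨j, hj, rfl⟩; exact hk j hj) ha)
    have hwi : inr k T C (w i) ∈ cl (tgr k T 𝒞) u := tmul_mem_tgr 1 (hw i)
    have hs : Sx (LinearMap.ker g).subtype g :=
      ⟨Subtype.val_injective, hsur, LinearMap.exact_subtype_ker_map g⟩
    have hF := gbx_flat (k := k) (W := rt T) (Module.Flat.self (R := T)) Y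
    have hr := gbx_reg (k := k) (T := T) (hrY (w i) (hreg i (by simp)))
    have hfin := gbx_finite (k := k) (W := rt T) (Module.Finite.self T) hY
    refine fs_step (K := (gbx k (rt T) Y).sub _ hg.ker) (isG_subtype hg.ker) hg hs hF hwi hu
      (fun N N' _ _ _ _ f h1 ξ h2 z hz => hf N N' f h1 ξ h2 z ⟨i, hz.symm⟩) hr
      (ih _ (Module.Finite.quotient _ _) (fun j hj x => ?_) (OF.quot hs hF hf hr))
    obtain ⟨y, rfl⟩ := Submodule.mkQ_surjective _ x
    rw [← map_smul]
    by_cases hji : j = i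
    · subst hji
      exact (Submodule.Quotient.mk_eq_zero _).2 ⟨y, rfl⟩
    · have h1 : ∀ x : (gbx k (rt T) Y).M, inr k T C (w j) • x = 0 := fun x => by
        induction x using gbx_ind with
        | h0 => exact smul_zero _
        | h2 x x' h h' => rw [smul_add, h, h', add_zero]
        | h1 t c y _ =>
          refine (smul_bb (1 : T) (w j) t y).trans ?_
          rw [hkY (w j) (Ideal.subset_span ⟨j, by simp [hj, hji], rfl⟩) y, map_zero]
      have h2 : inr k T C (w j) • y = 0 := Subtype.ext (h1 y.1)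
      rw [h2, map_zero]

theorem fs_transfer [IsNoetherianRing (T ⊗[k] C)] {C' : Type} [CommRing C'] [Algebra k C']
    {𝒞' : Γ → Set C'} [Gd 𝒞'] {ψ : C →ₐ[k] C'} (hψ : Hm ψ.toRingHom 𝒞 𝒞' (AddMonoidHom.id Γ))
    (hs : Surjective ψ)
    (H : ∀ W : GM (tgr k T 𝒞), Module.Finite (T ⊗[k] C) W.M →
      OF (algebraMap T (T ⊗[k] C)) (Set.range fun i => inr k T C (w i)) W.M →
        ∀ᶠ t in atTop, ∀ γ, δ γ = t → PFl hm_alg W γ)
    (W : GM (tgr k T 𝒞')) (hW : Module.Finite (T ⊗[k] C') W.M)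
    (hf : OF (algebraMap T (T ⊗[k] C')) (Set.range fun i => inr k T C' (ψ (w i))) W.M) :
    ∀ᶠ t in atTop, ∀ γ, δ γ = t → PFl hm_alg W γ := by
  obtain ⟨j, hj⟩ := isRes_ver (hm_mp (T := T) hψ) W
  have hsur : Surjective j := fun x => hj.mem_range fun γ h => absurd rfl (h γ)
  have hm : Surjective (mp T ψ) := fun x => by
    induction x using TensorProduct.induction_on with
    | zero => exact ⟨0, map_zero _⟩
    | tmul t a =>
      obtain ⟨b, rfl⟩ := hs a
      exact ⟨t ⊗ₜ b, rfl⟩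
    | add x y hx hy =>
      obtain ⟨a, rfl⟩ := hx
      obtain ⟨b, rfl⟩ := hy
      exact ⟨a + b, map_add _ _ _⟩
  have := H _ (hj.finite' hW (RingHom.Finite.of_surjective _ hm))
    (hf.semi (mp_alg ψ) ⟨hj.inj, hsur⟩ hj.smul (by rintro _ ⟨i, rfl⟩; exact ⟨i, rfl⟩))
  filter_upwards [this] with t ht γ hγ using (PFl.res hj (mp_alg ψ)).2 (ht γ hγ)

end Pool.Agent.CXD
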