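import Pool.Agent.P.MP_2ce3e7_ag.CZC

/-! The parametrisation is finite over the stratum. -/

set_option linter.unusedSectionVars false
set_option linter.unusedVariables false

open Matrix

noncomputable section

namespace Pool.Agent.CXD

theorem expand_pow_CZC2 (k : Type) [Field k] [Fintype k] {m : ℕ} (j : ℕ) (g : Po m k) :
    MvPolynomial.expand (Fintype.card k ^ j) g = g ^ Fintype.card k ^ j := by
  induction j generalizing g with
  | zero => simp
  | succ j ih =>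
    rw [pow_succ, MvPolynomial.expand_mul, mv_expand_card, map_pow, ih, ← pow_mul]

/-- elements that become integral after multiplying by a power of `f` -/
def sat_CZC2 {A A' : Type} [CommRing A] [CommRing A'] (Ψ : A →+* A') (f : A) : Subring A' where
  carrier := {y | ∃ N : ℕ, Ψ.IsIntegralElem (Ψ f ^ N * y)}
  mul_mem' := by
    rintro a b ⟨N, hN⟩ ⟨M, hM⟩
    refine ⟨N + M, ?_⟩
    have h := hN.mul Ψ hM
    have e : Ψ f ^ N * a * (Ψ f ^ M * b) = Ψ f ^ (N + M) * (a * b) := by ring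
    rwa [e] at h
  one_mem' := ⟨0, by simpa using Ψ.isIntegralElem_one⟩
  add_mem' := by
    rintro a b ⟨N, hN⟩ ⟨M, hM⟩
    refine ⟨N + M, ?_⟩
    have h1 : Ψ.IsIntegralElem (Ψ (f ^ M)) := Ψ.isIntegralElem_map
    have h2 : Ψ.IsIntegralElem (Ψ (f ^ N)) := Ψ.isIntegralElem_map
    have h := (h1.mul Ψ hN).add Ψ (h2.mul Ψ hM)
    have e : Ψ (f ^ M) * (Ψ f ^ N * a) + Ψ (f ^ N) * (Ψ f ^ M * b) = Ψ f ^ (N + M) * (a + b) := by
      rw [map_pow, map_pow]; ring
    rwa [e] at h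
  zero_mem' := ⟨0, by simpa using Ψ.isIntegralElem_zero⟩
  neg_mem' := by
    rintro a ⟨N, hN⟩
    refine ⟨N, ?_⟩
    have h := hN.neg Ψ
    rwa [← mul_neg] at h

theorem map_mem_CZC2 {A A' : Type} [CommRing A] [CommRing A'] (Ψ : A →+* A') (f a : A) :
    Ψ a ∈ sat_CZC2 Ψ f := ⟨0, by simpa using Ψ.isIntegralElem_map⟩

/-- matrices with entries in a subring -/
def ent_CZC2 {A : Type} [CommRing A] (n : ℕ) (T : Subring A) :
    Subring (Matrix (Fin n) (Fin n) A) where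
  carrier := {M | ∀ a b, M a b ∈ T}
  mul_mem' := by
    intro M N hM hN a b
    rw [Matrix.mul_apply]
    exact T.sum_mem fun c _ => T.mul_mem (hM a c) (hN c b)
  one_mem' := by
    intro a b
    rw [Matrix.one_apply]
    split_ifs
    · exact T.one_mem
    · exact T.zero_mem
  add_mem' := fun hM hN a b => T.add_mem (hM a b) (hN a b)
  zero_mem' := fun a b => T.zero_mem
  neg_mem' := fun hM a b => T.neg_mem (hM a b)

theorem mul_ent_CZC2 {A α β γ : Type} [CommRing A] [Fintype β] (T : Subring A)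
    {M : Matrix α β A} {N : Matrix β γ A} (hM : ∀ a b, M a b ∈ T) (hN : ∀ a b, N a b ∈ T) :
    ∀ a b, (M * N) a b ∈ T := by
  intro a b
  rw [Matrix.mul_apply]
  exact T.sum_mem fun c _ => T.mul_mem (hM a c) (hN c b)

theorem dg_ent_CZC2 {A α β : Type} [CommRing A] (T : Subring A) (q : ℕ)
    {M : Matrix α β A} (hM : ∀ a b, M a b ∈ T) : ∀ a b, dg q M a b ∈ T :=
  fun a b => T.pow_mem (hM b a) q

theorem nM_mem_CZC2 {A : Type} [Ring A] (T : Subring A) {e₀ e m : A} (h0 : e₀ ∈ T) (h1 : e ∈ T)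
    (h2 : m ∈ T) : nM e₀ e m ∈ T :=
  T.add_mem (T.mul_mem (T.mul_mem (T.sub_mem T.one_mem (T.sub_mem h1 h0)) h2)
    (T.add_mem T.one_mem (T.sub_mem h1 h0))) (T.sub_mem h1 h0)

variable {k : Type} [Field k] [Fintype k] {n q i d : ℕ} {σ : Type} [Fintype σ] [DecidableEq σ]
  {G : Matrix (Fin n) (Fin n) k} {F : Frame G q σ i}
  {c : Matrix (Fin (2 * i + 1)) (Fin (2 * i + 1)) (Cox F.H q (q ^ 2) i)}
  {ψ : SV G q d →ₐ[k] F.Par}

theorem Frame.eval_xP_CZC2 (F : Frame G q σ i) (hk : Fintype.card k = q ^ 2)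
    (Φ : Po (2 * i + 1) k) :
    MvPolynomial.eval₂Hom (algebraMap k F.ParD) (fr (q ^ 2) i F.xP) Φ =
      MvPolynomial.C (Ideal.Quotient.mk (rel F.H q (q ^ 2) i) Φ) ^ (q ^ 2) ^ i := by
  have h1 : MvPolynomial.eval₂Hom (algebraMap k F.ParD) (fr (q ^ 2) i F.xP) =
      ((MvPolynomial.C : Dv F.H q i →+* F.ParD).comp
        (Ideal.Quotient.mk (rel F.H q (q ^ 2) i))).comp
        (MvPolynomial.expand ((q ^ 2) ^ i) : Po (2 * i + 1) k →ₐ[k] _).toRingHom := by
    refine MvPolynomial.ringHom_ext (fun r => ?_) (fun a => ?_)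
    · simp only [MvPolynomial.eval₂Hom_C, RingHom.comp_apply, AlgHom.toRingHom_eq_coe,
        AlgHom.coe_toRingHom, MvPolynomial.expand_C]
      rfl
    · simp only [MvPolynomial.eval₂Hom_X', RingHom.comp_apply, AlgHom.toRingHom_eq_coe,
        AlgHom.coe_toRingHom, MvPolynomial.expand_X, map_pow]
      rfl
  rw [h1]
  simp only [RingHom.comp_apply, AlgHom.toRingHom_eq_coe, AlgHom.coe_toRingHom]
  have h2 := expand_pow_CZC2 k i Φ
  rw [hk] at h2
  rw [h2, map_pow, map_pow]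

theorem Frame.Str.int_C (hk : Fintype.card k = q ^ 2) (h : F.Str d c ψ) {f : SV G q d}
    (hf : f ∈ F.bd d) (y : Cox F.H q (q ^ 2) i) :
    ∃ N : ℕ, ψ.toRingHom.IsIntegralElem (ψ.toRingHom f ^ N * MvPolynomial.C y) := by
  obtain ⟨ch, hch⟩ := hf
  obtain ⟨lam, hy, hl⟩ := h.yv hk ch
  rw [hch] at hl
  obtain ⟨s, Φ, hΦ, hmk⟩ := mem_cox.1 y.2
  have hM : (q ^ 2) ^ i ≠ 0 := pow_ne_zero _ (hk ▸ Fintype.card_ne_zero)
  obtain ⟨M, hM'⟩ := Nat.exists_eq_succ_of_ne_zero hM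
  generalize CXD.yv (F.H.map (algebraMap k (SV G q d))) q
    ((F.map (algebraMap k (SV G q d))).co (eS q d G)) ch = y' at hy
  have h1 : (F.up.comp ψ.toRingHom).comp (algebraMap k (SV G q d)) = algebraMap k F.ParD := by
    rw [RingHom.comp_assoc, ← F.up_alg]
    congr 1
    exact ψ.comp_algebraMap
  have h2 : F.up (ψ.toRingHom (MvPolynomial.eval₂Hom (algebraMap k (SV G q d)) y' Φ)) =
      F.up (ψ.toRingHom f ^ s * MvPolynomial.C y ^ (q ^ 2) ^ i) := by
    have h3 := MvPolynomial.map_eval₂Hom (algebraMap k (SV G q d)) y' (F.up.comp ψ.toRingHom) Φ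
    rw [h1] at h3
    have h4 : (fun a => (F.up.comp ψ.toRingHom) (y' a)) = fun a => lam * fr (q ^ 2) i F.xP a :=
      funext hy
    have h8 := eval_scale (R := F.ParD) (algebraMap k F.ParD) (fr (q ^ 2) i F.xP) lam hΦ
    rw [h4] at h3
    replace h3 := h3.trans h8
    rw [F.eval_xP_CZC2 hk, hmk] at h3
    have h5 : F.up (ψ.toRingHom f) = lam ^ (1 + q * (q ^ 2) ^ i) := hl
    have h6 : F.up (MvPolynomial.C y) = MvPolynomial.C y.1 := MvPolynomial.map_C _ _
    rw [map_mul, map_pow, map_pow, h5, h6, ← pow_mul]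
    exact h3
  have h7 := F.up_inj h2
  refine ⟨s, Polynomial.X ^ ((q ^ 2) ^ i) - Polynomial.C (f ^ (s * M) *
    MvPolynomial.eval₂Hom (algebraMap k (SV G q d)) y' Φ), Polynomial.monic_X_pow_sub_C _ hM, ?_⟩
  rw [Polynomial.eval₂_sub, Polynomial.eval₂_X_pow, Polynomial.eval₂_C, map_mul, h7, map_pow, hM',
    Nat.succ_eq_add_one]
  ring

theorem Frame.Str.pc (hk : Fintype.card k = q ^ 2) (h : F.Str d c ψ) :
    Pc (A' := F.Par) ψ.toRingHom (F.bd d) := by
  refine ⟨Set.finite_range _, ?_, ?_⟩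
  · refine RingHom.FiniteType.of_comp_finiteType (f := algebraMap k (SV G q d)) ?_
    have e : ψ.toRingHom.comp (algebraMap k (SV G q d)) = algebraMap k F.Par := ψ.comp_algebraMap
    rw [e, RingHom.finiteType_algebraMap]
    have h1 : Algebra.FiniteType k (Cox F.H q (q ^ 2) i) := cox_finiteType
    exact Algebra.FiniteType.trans h1 inferInstance
  · intro f hf y
    change y ∈ sat_CZC2 ψ.toRingHom f
    have hC : ∀ y : Cox F.H q (q ^ 2) i,
        (MvPolynomial.C y : F.Par) ∈ sat_CZC2 ψ.toRingHom f := fun y => h.int_C hk hf y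
    have hA : ∀ t : k, algebraMap k F.Par t ∈ sat_CZC2 ψ.toRingHom f := fun t => by
      rw [← ψ.commutes]
      exact map_mem_CZC2 (A' := F.Par) ψ.toRingHom f _
    have h0 : F.e0 c ∈ ent_CZC2 n (sat_CZC2 ψ.toRingHom f) := by
      refine fun a b => Subring.add_mem _ ?_ ?_
      · exact mul_ent_CZC2 _ (mul_ent_CZC2 _ (fun _ _ => hA _) (dg_ent_CZC2 _ q fun _ _ => hA _))
          (fun _ _ => hA _) a b
      · exact mul_ent_CZC2 _ (mul_ent_CZC2 _ (mul_ent_CZC2 _ (fun _ _ => hA _)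
          (dg_ent_CZC2 _ q fun _ _ => hA _)) fun _ _ => hC _) (fun _ _ => hA _) a b
    have h1 : eM (F.e0 c) (gN n _) ∈ ent_CZC2 n (sat_CZC2 ψ.toRingHom f) := by
      rw [← h.he]
      exact fun a b => map_mem_CZC2 (A' := F.Par) ψ.toRingHom f (eS q d G a b)
    have h2 : mM (F.e0 c) (gN n _) ∈ ent_CZC2 n (sat_CZC2 ψ.toRingHom f) := by
      rw [← h.hm]
      exact fun a b => map_mem_CZC2 (A' := F.Par) ψ.toRingHom f (mS q d G a b)
    have h3 := nM_mem_CZC2 _ h0 h1 h2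
    rw [nM_eM (h.idem hk)] at h3
    induction y using MvPolynomial.induction_on with
    | C y => exact hC y
    | add p p' hp hp' => exact Subring.add_mem _ hp hp'
    | mul_X p a hp => exact Subring.mul_mem _ hp (h3 a.1 a.2)

end Pool.Agent.CXD
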