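import Pool.Agent.P.MP_2ce3e7_ag.CZC

/-! Points with values in a field. -/

set_option linter.unusedSectionVars false
set_option linter.unusedVariables false

open Matrix

noncomputable section

namespace Pool.Agent.CXD

variable {k : Type} [Field k] [Fintype k] {n q i d : ℕ} {σ : Type} [Fintype σ] [DecidableEq σ]

theorem exists_closed_point {B : Type} [CommRing B] [Algebra k B] (p : Ideal B) (hp : p.IsPrime) :
    ∃ (L : Type) (_ : Field L) (_ : IsAlgClosed L) (_ : Algebra k L) (α : B →ₐ[k] L),
      RingHom.ker α.toRingHom = p := by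
  have := hp
  let L := AlgebraicClosure (FractionRing (B ⧸ p))
  have hinj : Function.Injective (algebraMap (B ⧸ p) L) := by
    rw [IsScalarTower.algebraMap_eq (B ⧸ p) (FractionRing (B ⧸ p)) L]
    exact (algebraMap (FractionRing (B ⧸ p)) L).injective.comp
      (IsFractionRing.injective (B ⧸ p) (FractionRing (B ⧸ p)))
  refine ⟨L, inferInstance, inferInstance, inferInstance,
    (IsScalarTower.toAlgHom k (B ⧸ p) L).comp (Ideal.Quotient.mkₐ k p), ?_⟩
  ext b
  rw [RingHom.mem_ker, ← Ideal.Quotient.eq_zero_iff_mem]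
  exact map_eq_zero_iff (algebraMap (B ⧸ p) L) hinj

variable {G : Matrix (Fin n) (Fin n) k} {F : Frame G q σ i}
  {c : Matrix (Fin (2 * i + 1)) (Fin (2 * i + 1)) (Cox F.H q (q ^ 2) i)}
  {ψ : SV G q d →ₐ[k] F.Par}

theorem Frame.in_iff {R : Type} [CommRing R] [Algebra k R] (α : SV G q d →ₐ[k] R) :
    F.In (RingHom.ker α.toRingHom) ↔
      F.w.map (algebraMap k R) * (eS q d G).map α = F.w.map (algebraMap k R) := by
  have h1 : (F.w.map (algebraMap k (SV G q d))).map α = F.w.map (algebraMap k R) := by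
    ext a b
    simp only [Matrix.map_apply, AlgHom.commutes]
  have h2 : (F.w.map (algebraMap k (SV G q d)) * eS q d G).map α =
      F.w.map (algebraMap k R) * (eS q d G).map α := by
    rw [← h1]
    exact Matrix.map_mul (f := α.toRingHom)
  rw [← h2]
  conv_rhs => rw [← h1]
  unfold Frame.In
  rw [← Matrix.ext_iff]
  refine forall_congr' fun a => forall_congr' fun b => ?_
  rw [RingHom.mem_ker, Matrix.sub_apply, map_sub, sub_eq_zero]
  rfl

theorem Frame.exists_next (F : Frame G q σ i) (hk : Fintype.card k = q ^ 2)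
    {v : Fin (2 * i + 1) → k} (hv : v ≠ 0) (h0 : bform F.H q v v = 0) :
    ∃ j, i = j + 1 ∧ ∃ F' : Frame G q (σ ⊕ Unit) j,
      ∀ {R : Type} [CommRing R] [Algebra k R] (e : Matrix (Fin n) (Fin n) R),
        F.w.map (algebraMap k R) * e = F.w.map (algebraMap k R) →
        ((fun a => algebraMap k R (v a)) ᵥ* F.P.map (algebraMap k R)) ᵥ* e =
          (fun a => algebraMap k R (v a)) ᵥ* F.P.map (algebraMap k R) →
        F'.w.map (algebraMap k R) * e = F'.w.map (algebraMap k R) := by
  obtain ⟨j, hj, F₁, h1⟩ := exists_split hk (F.her (fb_of_card hk k)) hv h0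
  obtain ⟨F', h2⟩ := exists_comp (fb_of_card hk k) F F₁
  refine ⟨j, hj, F', fun {R} _ _ e h3 h4 => ?_⟩
  have h5 : (F₁.w * F.P).map (algebraMap k R) * e = (F₁.w * F.P).map (algebraMap k R) := by
    rw [Matrix.map_mul]
    ext a b
    have h6 : (F₁.w.map (algebraMap k R)) a = fun a => algebraMap k R (v a) := by
      cases a
      rw [← h1]
      rfl
    have h7 := congrFun h4 b
    rw [← h6] at h7
    exact h7
  rw [h2, Matrix.fromRows_map, Matrix.fromRows_mul, h3, h5]

theorem Frame.Str.lift (hk : Fintype.card k = q ^ 2) (h : F.Str d c ψ) {R : Type} [CommRing R]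
    [Algebra k R] (α : SV G q d →ₐ[k] R) {x : Fin (2 * i + 1) → R}
    (hx : On (F.map (algebraMap k R)).H q i x)
    (h1 : (eS q d G).map α * (F.map (algebraMap k R)).pr (cm (F.map (algebraMap k R)).H q i x) =
      (eS q d G).map α)
    (h2 : (F.map (algebraMap k R)).pr (cm (F.map (algebraMap k R)).H q i x) * (eS q d G).map α =
      (F.map (algebraMap k R)).pr (cm (F.map (algebraMap k R)).H q i x)) :
    ∃ τ : F.Par →ₐ[k] R, τ.comp ψ = α := by
  obtain ⟨τD, hτ⟩ := exists_pointD (H := F.H) (R := R) hx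
  set e₀ := (F.map (algebraMap k R)).pr (cm (F.map (algebraMap k R)).H q i x) with he₀
  have hs := (sv_univ q d G).map α.toRingHom
  have hid : e₀ * e₀ = e₀ := (F.map (algebraMap k R)).pr_idem (fb_of_card hk R) hx
  obtain ⟨h3, h4⟩ := eM_nM (m := (mS q d G).map α) hid h1 h2 hs.idem hs.cut
  set N := nM e₀ ((eS q d G).map α) ((mS q d G).map α) with hN
  let τ : F.Par →ₐ[k] R := MvPolynomial.aevalTower (τD.comp (Cox F.H q (q ^ 2) i).val)
    fun ab => N ab.1 ab.2
  have hg : (gN n _).map τ.toRingHom = N := by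
    ext a b
    exact MvPolynomial.aevalTower_X _ _ _
  have ha : ∀ {m₁ m₂ : Type} (A : Matrix m₁ m₂ k),
      (A.map (algebraMap k F.Par)).map τ.toRingHom = A.map (algebraMap k R) := fun A => by
    ext a b
    exact τ.commutes _
  have hc : (c.map MvPolynomial.C).map τ.toRingHom = cm (F.map (algebraMap k R)).H q i x := by
    have h5 : (c.map MvPolynomial.C).map τ.toRingHom =
        (c.map (Cox F.H q (q ^ 2) i).val).map τD.toRingHom := by
      ext a b
      exact MvPolynomial.aevalTower_C _ _ _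
    have h6 : (F.H.map (algebraMap k (Dv F.H q i))).map τD.toRingHom =
        (F.map (algebraMap k R)).H := by
      ext a b
      exact τD.commutes _
    rw [h5, h.hc, cm_map, h6]
    congr 1
    exact funext hτ
  have he : (F.e0 c).map τ.toRingHom = e₀ := by
    rw [he₀, ← hc]
    simp only [Frame.e0, Frame.pr, Frame.map, Matrix.map_add _ (map_add τ.toRingHom),
      Matrix.map_mul, dg_map, ha]
  refine ⟨τ, sv_hom_ext ?_ ?_⟩
  · have h7 := map_eM (e₀ := F.e0 c) (N := gN n _) τ.toRingHom.mapMatrix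
    rw [← h.he, RingHom.mapMatrix_apply, RingHom.mapMatrix_apply, RingHom.mapMatrix_apply, he, hg,
      h3] at h7
    exact h7
  · have h7 := map_mM (e₀ := F.e0 c) (N := gN n _) τ.toRingHom.mapMatrix
    rw [← h.hm, RingHom.mapMatrix_apply, RingHom.mapMatrix_apply, RingHom.mapMatrix_apply, he, hg,
      h4] at h7
    exact h7

end Pool.Agent.CXD
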