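import Pool.Agent.P.MP_2ce3e7_ag.CWN
import Pool.Agent.P.MP_2ce3e7_ag.CZC2
import Pool.Agent.P.MP_2ce3e7_ag.CZD

/-! The standard charts. -/

set_option linter.unusedSectionVars false
set_option linter.unusedVariables false

open Function LaurentPolynomial
open scoped TensorProduct

noncomputable section

namespace Pool.Agent.CXD

theorem ft_CWN3 {A R : Type} [CommRing A] [CommRing R] {Ψ : A →+* R} (s : Finset R)
    (h : ∀ y, y ∈ Subring.closure (Set.range Ψ ∪ (s : Set R))) : Ψ.FiniteType := by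
  let : Algebra A R := Ψ.toAlgebra
  exact ⟨⟨s, eq_top_iff.2 fun y _ => Algebra.mem_adjoin_iff.2 (h y)⟩⟩

theorem sat_map_CWN3 {A R : Type} [CommRing A] [CommRing R] (Ψ : A →+* R) (f a : A) :
    Ψ a ∈ sat_CZC2 Ψ f := ⟨0, by rw [pow_zero, one_mul]; exact Ψ.isIntegralElem_map⟩

theorem map_C_CWN3 {A R : Type} [CommRing A] [CommRing R] (f : A →+* R) (a : A) :
    AddMonoidAlgebra.mapRingHom ℤ f (C a) = C (f a) := by
  have h := map_C_mul_T f a 0
  rwa [T_zero, T_zero, mul_one, mul_one] at h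

theorem map_map_CWN3 {A R S : Type} [CommRing A] [CommRing R] [CommRing S] (g : R →+* S)
    (f : A →+* R) (p : A[T;T⁻¹]) :
    AddMonoidAlgebra.mapRingHom ℤ g (AddMonoidAlgebra.mapRingHom ℤ f p) =
      AddMonoidAlgebra.mapRingHom ℤ (g.comp f) p := by
  rw [AddMonoidAlgebra.mapRingHom_comp]
  rfl

theorem Pc.trans {A₀ A R₀ R : Type} [CommRing A₀] [CommRing A] [CommRing R₀] [CommRing R]
    {Ψ₀ : A₀ →+* R₀} {Ψ : A →+* R} {g : A₀ →+* A} {g' : R₀ →+* R} {S : Set A₀} (h : Pc Ψ₀ S)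
    (hc : Ψ.comp g = g'.comp Ψ₀) (hgen : Subring.closure (Set.range Ψ ∪ Set.range g') = ⊤) :
    Pc Ψ (g '' S) := by
  classical
  refine ⟨h.fin.image _, ?_, ?_⟩
  · let : Algebra A₀ R₀ := Ψ₀.toAlgebra
    obtain ⟨s, hs⟩ := (show Algebra.FiniteType A₀ R₀ from h.ft).out
    refine ft_CWN3 (s.image g') fun y => ?_
    have h1 : Subring.closure (Set.range Ψ₀ ∪ (s : Set R₀)) ≤
        (Subring.closure (Set.range Ψ ∪ (s.image g' : Set R))).comap g' := by
      refine Subring.closure_le.2 ?_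
      rintro _ (⟨a, rfl⟩ | hx)
      · exact Subring.subset_closure (Or.inl ⟨g a, RingHom.congr_fun hc a⟩)
      · exact Subring.subset_closure (Or.inr (Finset.mem_coe.2 (Finset.mem_image_of_mem _ hx)))
    have h2 : Subring.closure (Set.range Ψ ∪ Set.range g') ≤
        Subring.closure (Set.range Ψ ∪ (s.image g' : Set R)) := by
      refine Subring.closure_le.2 ?_
      rintro _ (hx | ⟨x, rfl⟩)
      · exact Subring.subset_closure (Or.inl hx)
      · have hx : x ∈ Algebra.adjoin A₀ (s : Set R₀) := by rw [hs]; trivial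
        exact h1 (Algebra.mem_adjoin_iff.1 hx)
    exact h2 (by rw [hgen]; trivial)
  · rintro _ ⟨f, hf, rfl⟩ y
    have h2 : Subring.closure (Set.range Ψ ∪ Set.range g') ≤ sat_CZC2 Ψ (g f) := by
      refine Subring.closure_le.2 ?_
      rintro _ (⟨a, rfl⟩ | ⟨x, rfl⟩)
      · exact sat_map_CWN3 Ψ _ a
      · obtain ⟨N, p, hp, h0⟩ := h.int f hf x
        refine ⟨N, p.map g, hp.map _, ?_⟩
        have e : Ψ (g f) = g' (Ψ₀ f) := RingHom.congr_fun hc f
        rw [Polynomial.eval₂_map, hc, e, ← map_pow, ← map_mul, ← Polynomial.hom_eval₂, h0, map_zero]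
    exact h2 (by rw [hgen]; trivial)

variable {k A B K σ Γ : Type} [Field k] [CommRing A] [Algebra k A] [CommRing B] [Algebra k B]
  [CommRing K] [Algebra k K] [Fintype σ] [AddCommGroup Γ] {𝒜 : ℤ → Set A} {z : σ → A}
  {θ : A →ₐ[k] A[T;T⁻¹]} [Gd 𝒜] [Gk k 𝒜]

theorem hatL_CWN3 (ψ : A →ₐ[k] K) (a : A) (b : B) : hat (thL θ B) (mq ψ B) (a ⊗ₜ b) =
    AddMonoidAlgebra.mapRingHom ℤ (inl k K B) (hat θ.toRingHom ψ.toRingHom a) *
      C (inr k K B b) := by
  have e : (mq ψ B).comp (inl k A B) = (inl k K B).comp ψ.toRingHom := RingHom.ext fun _ => rfl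
  unfold hat
  rw [RingHom.comp_apply, RingHom.comp_apply, thL_tmul, map_mul, map_map_CWN3, map_map_CWN3, e,
    map_C_CWN3]
  refine congrArg₂ _ rfl (congrArg C ?_)
  exact (mq_tmul ψ 1 b).trans (by rw [map_one]; rfl)

theorem hatR_CWN3 (ψ : A →ₐ[k] B) (b : K) (a : A) : hat (thR K θ) (mp K ψ) (b ⊗ₜ a) =
    C (inl k K B b) *
      AddMonoidAlgebra.mapRingHom ℤ (inr k K B) (hat θ.toRingHom ψ.toRingHom a) := by
  have e : (mp K ψ).comp (inr k K A) = (inr k K B).comp ψ.toRingHom := RingHom.ext fun _ => rfl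
  unfold hat
  rw [RingHom.comp_apply, RingHom.comp_apply, thR_tmul, map_mul, map_map_CWN3, map_map_CWN3, e,
    map_C_CWN3]
  refine congrArg₂ _ (congrArg C ?_) rfl
  exact (mp_tmul ψ b 1).trans (by rw [map_one]; rfl)

theorem tmul_CWN3 (a : K) (b : B) : inl k K B a * inr k K B b = a ⊗ₜ b := by
  change (a ⊗ₜ[k] (1 : B)) * ((1 : K) ⊗ₜ[k] b) = _
  rw [Algebra.TensorProduct.tmul_mul_tmul, mul_one, one_mul]

theorem gen_CWN3 (𝒯 : Subring (K ⊗[k] B)[T;T⁻¹])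
    (h : ∀ a b n, C (inl k K B a) * C (inr k K B b) * T n ∈ 𝒯) : 𝒯 = ⊤ := by
  refine eq_top_iff.2 fun p hp => ?_
  clear hp
  induction p using LaurentPolynomial.induction_on' with
  | add p q hp hq => exact add_mem hp hq
  | C_mul_T n x =>
    induction x using TensorProduct.induction_on with
    | zero => rw [map_zero, zero_mul]; exact zero_mem _
    | tmul a b => rw [← tmul_CWN3, map_mul]; exact h a b n
    | add u v hu hv => rw [map_add, add_mul]; exact add_mem hu hv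

theorem Std.pcL (h : Std 𝒜 z θ) {ψ : A →ₐ[k] K} {S : Set A}
    (hS : Pc (hat θ.toRingHom ψ.toRingHom) S) : Pc (hat (thL θ B) (mq ψ B)) (inl k A B '' S) := by
  refine hS.trans (g' := AddMonoidAlgebra.mapRingHom ℤ (inl k K B)) (RingHom.ext fun a => ?_)
    (gen_CWN3 _ fun a b n => ?_)
  · exact (hatL_CWN3 ψ a 1).trans (by rw [map_one, map_one, mul_one]; rfl)
  · rw [mul_right_comm, ← map_C_mul_T]
    refine mul_mem (Subring.subset_closure (Or.inr ⟨_, rfl⟩))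
      (Subring.subset_closure (Or.inl ⟨1 ⊗ₜ b, ?_⟩))
    rw [hatL_CWN3, map_one, map_one, one_mul]

theorem Std.pcR (h : Std 𝒜 z θ) {ψ : A →ₐ[k] B} {S : Set A}
    (hS : Pc (hat θ.toRingHom ψ.toRingHom) S) : Pc (hat (thR K θ) (mp K ψ)) (inr k K A '' S) := by
  refine hS.trans (g' := AddMonoidAlgebra.mapRingHom ℤ (inr k K B)) (RingHom.ext fun a => ?_)
    (gen_CWN3 _ fun a b n => ?_)
  · exact (hatR_CWN3 ψ 1 a).trans (by rw [map_one, map_one, one_mul]; rfl)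
  · rw [mul_assoc, ← map_C_mul_T]
    refine mul_mem (Subring.subset_closure (Or.inl ⟨a ⊗ₜ 1, ?_⟩))
      (Subring.subset_closure (Or.inr ⟨_, rfl⟩))
    rw [hatR_CWN3, map_one, map_one, mul_one]

/-- the ideal of a chart -/
def chI (z : σ → A) (s : Set σ) (j : σ) : Ideal A := Ideal.span (insert (z j - 1) (z '' s))

theorem hat_CWN3 (h : Std 𝒜 z θ) (ψ : A →ₐ[k] K) {c : ℤ} {a : A} (ha : a ∈ 𝒜 c) :
    hat θ.toRingHom ψ.toRingHom a = C (ψ a) * T c := (h.ch ψ).hat_cl (mem_cl ha)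

theorem top_CWN3 (h : Std 𝒜 z θ) {ψ : A →ₐ[k] K} (hψ : Surjective ψ) {j : σ} (hj : ψ (z j) = 1)
    (𝒯 : Subring K[T;T⁻¹]) (h1 : ∀ a, hat θ.toRingHom ψ.toRingHom a ∈ 𝒯) (h2 : T (-1) ∈ 𝒯)
    (p : K[T;T⁻¹]) : p ∈ 𝒯 := by
  have h3 : T 1 ∈ 𝒯 := by
    have h4 := h1 (z j)
    rwa [hat_CWN3 h ψ (h.deg j), hj, map_one, one_mul] at h4
  have h4 : ∀ n, T n ∈ 𝒯 := by
    intro n
    induction n using Int.induction_on with
    | zero => exact one_mem _
    | succ n ih => rw [T_add]; exact mul_mem ih h3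
    | pred n ih => rw [T_sub]; exact mul_mem ih h2
  have h5 : ∀ a, C (ψ a) ∈ 𝒯 := by
    refine Gd.ind 𝒜 ?_ (fun c a ha => ?_) (fun a b ha hb => ?_) fun a ha => ?_
    · rw [map_zero, map_zero]; exact zero_mem _
    · have h6 := mul_mem (h1 a) (h4 (-c))
      rwa [hat_CWN3 h ψ ha, mul_assoc, ← T_add, add_neg_cancel, T_zero, mul_one] at h6
    · rw [map_add, map_add]; exact add_mem ha hb
    · rw [map_neg, map_neg]; exact neg_mem ha
  induction p using LaurentPolynomial.induction_on' with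
  | add p q hp hq => exact add_mem hp hq
  | C_mul_T n x =>
    obtain ⟨a, rfl⟩ := hψ x
    exact mul_mem (h5 a) (h4 n)

theorem Std.pc_chart (h : Std 𝒜 z θ) (s : Set σ) (j : σ) :
    Pc (hat θ.toRingHom (Ideal.Quotient.mkₐ k (chI z s j)).toRingHom) {z j} := by
  have hj : Ideal.Quotient.mkₐ k (chI z s j) (z j) = 1 :=
    (Ideal.Quotient.eq (I := chI z s j) (y := 1)).2 (Ideal.subset_span (Set.mem_insert _ _))
  have hψ := Ideal.Quotient.mkₐ_surjective k (chI z s j)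
  refine ⟨Set.finite_singleton _, ft_CWN3 {T (-1)} (top_CWN3 h hψ hj _
    (fun a => Subring.subset_closure (Or.inl ⟨a, rfl⟩))
    (Subring.subset_closure (Or.inr (Finset.mem_coe.2 (Finset.mem_singleton_self _))))), ?_⟩
  rintro _ rfl
  refine top_CWN3 h hψ hj (sat_CZC2 _ _) (sat_map_CWN3 _ _) ⟨1, ?_⟩
  rw [hat_CWN3 h _ (h.deg j), hj, map_one, one_mul, pow_one, ← T_add, add_neg_cancel, T_zero]
  exact RingHom.isIntegralElem_one _

theorem point_CWN3 (p : Ideal B) (hp : p.IsPrime) :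
    ∃ (L : Type) (_ : Field L) (_ : Algebra k L) (α : B →ₐ[k] L), RingHom.ker α.toRingHom = p := by
  refine ⟨FractionRing (B ⧸ p), inferInstance, inferInstance,
    (IsScalarTower.toAlgHom k (B ⧸ p) (FractionRing (B ⧸ p))).comp (Ideal.Quotient.mkₐ k p), ?_⟩
  ext b
  rw [RingHom.mem_ker, ← Ideal.Quotient.eq_zero_iff_mem]
  exact (IsFractionRing.injective (B ⧸ p) (FractionRing (B ⧸ p))).eq_iff' (map_zero _)

theorem Std.ker_chart (h : Std 𝒜 z θ) (s : Set σ) (j : σ) (ℬ : Γ → Set B) [Gd ℬ]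
    {P : Ideal (A ⊗[k] B)} (hP : P.IsPrime) (hs : ∀ i ∈ s, inl k A B (z i) ∈ P)
    (hj : inl k A B (z j) ∉ P) :
    RingHom.ker (hat (thL θ B) (mq (Ideal.Quotient.mkₐ k (chI z s j)) B)) ≤ P := by
  obtain ⟨L, _, _, α, rfl⟩ := point_CWN3 (k := k) P hP
  obtain ⟨t, ht⟩ : ∃ t : Lˣ, (t : L) = α (inl k A B (z j)) := ⟨Units.mk0 _ hj, rfl⟩
  let γ : A →+* L := (eval₂ (α.toRingHom.comp (inl k A B)) t⁻¹).comp θ.toRingHom
  have hγ : ∀ c, ∀ a ∈ 𝒜 c, γ a = α (inl k A B a) * (t⁻¹ ^ c : Lˣ) := fun c a ha =>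
    (congrArg (eval₂ (α.toRingHom.comp (inl k A B)) t⁻¹) (h.co c a ha)).trans
      (eval₂_C_mul_T _ _ a c)
  let γ' : A →ₐ[k] L :=
    { γ with
      commutes' := fun c => by
        refine (hγ 0 _ (Gk.alg c)).trans ?_
        rw [zpow_zero, Units.val_one, mul_one]
        exact (α.comp Algebra.TensorProduct.includeLeft).commutes c }
  have hI : chI z s j ≤ RingHom.ker γ := by
    refine Ideal.span_le.2 ?_
    rintro _ (rfl | ⟨i, hi, rfl⟩)
    · change γ _ = 0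
      rw [map_sub, map_one, hγ 1 _ (h.deg j), zpow_one, ← ht, Units.mul_inv, sub_self]
    · change γ _ = 0
      have h0 : α (inl k A B (z i)) = 0 := hs i hi
      rw [hγ 1 _ (h.deg i), h0, zero_mul]
  refine (h.chL (Ideal.Quotient.mkₐ k (chI z s j)) ℬ).ker_le α.toRingHom
    (Algebra.TensorProduct.productMap (Ideal.Quotient.liftₐ (chI z s j) γ' fun a ha => hI ha)
      (α.comp Algebra.TensorProduct.includeRight)).toRingHom t ?_
  rintro c _ ⟨a, ha, b, hb, rfl⟩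
  change α (a ⊗ₜ b) = γ a * α (inr k A B b) * (t ^ c.1 : Lˣ)
  rw [hγ _ a ha, ← tmul_CWN3, map_mul, mul_right_comm _ _ (α (inr k A B b)),
    mul_assoc _ _ ((t ^ c.1 : Lˣ) : L), ← Units.val_mul, inv_zpow, inv_mul_cancel, Units.val_one, mul_one]

theorem Std.mem_ker_chart (h : Std 𝒜 z θ) {s : Set σ} (j : σ) {i : σ} (hi : i ∈ s) :
    inl k A B (z i) ∈ RingHom.ker (hat (thL θ B) (mq (Ideal.Quotient.mkₐ k (chI z s j)) B)) := by
  have h0 : Ideal.Quotient.mkₐ k (chI z s j) (z i) = 0 :=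
    Ideal.Quotient.eq_zero_iff_mem.2 (Ideal.subset_span (Set.mem_insert_of_mem _ ⟨i, hi, rfl⟩))
  refine (hatL_CWN3 _ (z i) 1).trans ?_
  rw [hat_CWN3 h _ (h.deg i), h0, map_zero, zero_mul, map_zero, zero_mul]

theorem Std.ker_right (h : Std 𝒜 z θ) (ψ : A →ₐ[k] B) {L : Type} [CommRing L] [Algebra k L]
    (α : K ⊗[k] A →ₐ[k] L) (τ : B →ₐ[k] L) (t : Lˣ)
    (hz : ∀ i, α (inr k K A (z i)) = τ (ψ (z i)) * t) :
    RingHom.ker (hat (thR K θ) (mp K ψ)) ≤ RingHom.ker α.toRingHom := by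
  have h1 := h.hom_ext (α := α.toRingHom.comp (inr k K A)) (β := (τ.comp ψ).toRingHom) (t := t)
    (fun c => ((α.comp Algebra.TensorProduct.includeRight).commutes c).trans
      ((τ.comp ψ).commutes c).symm) hz
  refine (h.chR ψ (tv K)).ker_le α.toRingHom
    (Algebra.TensorProduct.productMap (α.comp Algebra.TensorProduct.includeLeft) τ).toRingHom t ?_
  rintro c _ ⟨b, hb, a, ha, rfl⟩
  have h2 : α (inr k K A a) = τ (ψ a) * (t ^ c.2 : Lˣ) := h1 _ a ha
  change α (b ⊗ₜ a) = α (inl k K A b) * τ (ψ a) * (t ^ c.2 : Lˣ)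
  rw [← tmul_CWN3, map_mul, h2, mul_assoc]

theorem Std.ker_inr (h : Std 𝒜 z θ) (ψ : A →ₐ[k] B) {a : A}
    (ha : a ∈ RingHom.ker (hat θ.toRingHom ψ.toRingHom)) :
    inr k K A a ∈ RingHom.ker (hat (thR K θ) (mp K ψ)) := by
  have h0 : hat θ.toRingHom ψ.toRingHom a = 0 := ha
  refine (hatR_CWN3 ψ 1 a).trans ?_
  rw [h0, map_zero, mul_zero]

end Pool.Agent.CXD
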