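import Pool.Agent.P.MP_2ce3e7_ag.CPD
import Pool.Agent.P.MP_2ce3e7_ag.CWN3

/-! Flat slices for standard graded algebras. -/

set_option linter.unusedSectionVars false
set_option linter.unusedVariables false

open Function Filter
open scoped TensorProduct Polynomial

noncomputable section

namespace Pool.Agent.CXD

open scoped LaurentPolynomial

variable {k T A σ : Type} [Field k] [CommRing T] [Algebra k T] [CommRing A] [Algebra k A]
  [Fintype σ] {𝒜 : ℤ → Set A} {z : σ → A} {θ : A →ₐ[k] A[T;T⁻¹]} [Gd 𝒜] [Gk k 𝒜]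

/-- the polynomial ring -/
abbrev Pz (σ k : Type) [Field k] : Type := MvPolynomial σ k ⧸ (⊥ : Ideal (MvPolynomial σ k))

theorem exists_std_pz (σ k : Type) [Fintype σ] [Field k] :
    ∃ θ : Pz σ k →ₐ[k] (Pz σ k)[T;T⁻¹], Std (hom (⊥ : Ideal (MvPolynomial σ k))) (crd ⊥) θ := by
  refine ⟨Ideal.Quotient.liftₐ ⊥
    (MvPolynomial.aeval fun i => LaurentPolynomial.C (crd (⊥ : Ideal (MvPolynomial σ k)) i) *
      LaurentPolynomial.T 1) (fun a ha => ?_), hom_std _ _ fun i => ?_⟩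
  · rw [Ideal.mem_bot.1 ha, map_zero]
  · exact MvPolynomial.aeval_X _ i

theorem Std.exists_cy (h : Std 𝒜 z θ) {H : Set A} (hH : ∀ a ∈ H, ∃ c, a ∈ cl 𝒜 c) :
    ∃ (U : GM 𝒜) (e : U.M), Cy U e (Ideal.span H) := by
  obtain ⟨W, w, h1, h2, h3⟩ := exists_quot_cyc (h.ch (AlgHom.id k A)) hH
  exact ⟨W, w, h1, h2, h3⟩

theorem Std.exists_rg (h : Std 𝒜 z θ) : ∃ (U : GM 𝒜) (e : U.M), Cy U e ⊥ := by
  simpa using h.exists_cy (H := ∅) (by simp)

theorem pz_reg (s : Set σ) {i : σ} (hi : i ∈ s) (a : Pz σ k)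
    (ha : crd ⊥ i * a ∈ Ideal.span (crd (⊥ : Ideal (MvPolynomial σ k)) '' sᶜ)) :
    a ∈ Ideal.span (crd (⊥ : Ideal (MvPolynomial σ k)) '' sᶜ) := by
  classical
  obtain ⟨f, rfl⟩ := Ideal.Quotient.mk_surjective a
  have hs : Ideal.span (crd (⊥ : Ideal (MvPolynomial σ k)) '' sᶜ) =
      (Ideal.span (MvPolynomial.X '' sᶜ : Set (MvPolynomial σ k))).map (Ideal.Quotient.mk ⊥) := by
    rw [Ideal.map_span, Set.image_image]; rfl
  have hinj : Injective (Ideal.Quotient.mk (⊥ : Ideal (MvPolynomial σ k))) :=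
    (Ideal.Quotient.mk_bijective_iff_eq_bot _).2 rfl |>.1
  have key : ∀ g : MvPolynomial σ k, Ideal.Quotient.mk ⊥ g ∈
      Ideal.span (crd (⊥ : Ideal (MvPolynomial σ k)) '' sᶜ) ↔
      g ∈ Ideal.span (MvPolynomial.X '' sᶜ : Set (MvPolynomial σ k)) := by
    intro g
    rw [hs]
    refine ⟨fun hg => ?_, Ideal.mem_map_of_mem _⟩
    obtain ⟨g', hg', e⟩ := (Ideal.mem_map_iff_of_surjective _ Ideal.Quotient.mk_surjective).1 hg
    rwa [← hinj e]
  have h2 : Ideal.Quotient.mk ⊥ (MvPolynomial.X i * f) ∈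
      Ideal.span (crd (⊥ : Ideal (MvPolynomial σ k)) '' sᶜ) := by
    rw [map_mul]; exact ha
  rw [key, MvPolynomial.mem_ideal_span_X_image] at h2 ⊢
  intro m hm
  have h3 : Finsupp.single i 1 + m ∈ (MvPolynomial.X i * f).support := by
    rw [MvPolynomial.mem_support_iff, MvPolynomial.coeff_X_mul]
    exact MvPolynomial.mem_support_iff.1 hm
  obtain ⟨j, hj, h4⟩ := h2 _ h3
  refine ⟨j, hj, ?_⟩
  have hij : i ≠ j := fun e => hj (e ▸ hi)
  rwa [Finsupp.add_apply, Finsupp.single_eq_of_ne hij.symm, zero_add] at h4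

theorem pz_cy (s : Set σ) : ∃ (U : GM (hom (⊥ : Ideal (MvPolynomial σ k)))) (e : U.M),
    Cy U e (Ideal.span (crd ⊥ '' sᶜ)) ∧
      ∀ i ∈ s, ∀ x : U.M, crd (⊥ : Ideal (MvPolynomial σ k)) i • x = 0 → x = 0 := by
  obtain ⟨θ, h⟩ := exists_std_pz σ k
  obtain ⟨U, e, hU⟩ := h.exists_cy (H := crd (⊥ : Ideal (MvPolynomial σ k)) '' sᶜ)
    (by rintro _ ⟨j, -, rfl⟩; exact ⟨1, mem_cl (h.deg j)⟩)
  refine ⟨U, e, hU, fun i hi x hx => ?_⟩
  obtain ⟨a, rfl⟩ := hU.exists_smul x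
  rw [← mul_smul, hU.ann] at hx
  exact (hU.ann a).2 (pz_reg s hi a hx)

theorem Std.exists_pz (h : Std 𝒜 z θ) : ∃ ψ : Pz σ k →ₐ[k] A,
    Hm ψ.toRingHom (hom ⊥) 𝒜 (AddMonoidHom.id ℤ) ∧ Surjective ψ ∧ ∀ i, ψ (crd ⊥ i) = z i := by
  let ψ : Pz σ k →ₐ[k] A := Ideal.Quotient.liftₐ ⊥ (MvPolynomial.aeval z) fun a ha => by
    rw [Ideal.mem_bot.1 ha, map_zero]
  have hψ : ∀ f, ψ (Ideal.Quotient.mk ⊥ f) = MvPolynomial.aeval z f := fun _ => rfl
  have hz : ∀ i, ψ (crd ⊥ i) = z i := fun i => MvPolynomial.aeval_X z i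
  refine ⟨ψ, ⟨injective_id, ?_⟩, ?_, hz⟩
  · rintro c a ⟨m, f, rfl, hf, rfl⟩
    show MvPolynomial.aeval z f ∈ cl 𝒜 (m : ℤ)
    induction m generalizing f with
    | zero =>
      obtain ⟨c, rfl⟩ := zero_CWN2 hf
      rw [MvPolynomial.aeval_C, Nat.cast_zero]
      exact mem_cl (Gk.alg c)
    | succ n ih =>
      obtain ⟨b, hb, rfl⟩ := succ_CWN2 hf
      rw [map_sum]
      refine sum_mem fun i _ => ?_
      rw [map_mul, MvPolynomial.aeval_X, Nat.cast_succ, add_comm]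
      exact cl_mul (mem_cl (h.deg i)) (ih _ (hb i))
  · have key : ∀ c, ∀ a ∈ 𝒜 c, a ∈ ψ.range := by
      intro c
      rcases lt_or_ge c 0 with hc | hc
      · exact fun a ha => absurd ha (h.neg c hc a)
      · induction c, hc using Int.leInduction with
        | base =>
          intro a ha
          obtain ⟨c, rfl⟩ := h.zero a ha
          exact Subalgebra.algebraMap_mem _ c
        | succ c hc ih =>
          intro a ha
          obtain ⟨b, hb, rfl⟩ := h.succ c hc a ha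
          exact Subalgebra.sum_mem _ fun i _ =>
            Subalgebra.mul_mem _ ⟨_, hz i⟩ (ih _ (hb i))
    intro a
    exact Gd.ind 𝒜 (p := fun a => a ∈ ψ.range) (zero_mem _) key
      (fun _ _ => add_mem) (fun _ => neg_mem) a

variable [IsNoetherianRing T]

theorem Std.fs_one (h : Std 𝒜 z θ) (W : GM (tgr k T 𝒜)) (hW : Module.Finite (T ⊗[k] A) W.M)
    (hf : OF (algebraMap T (T ⊗[k] A)) (Set.range fun i => inr k T A (z i)) W.M) :
    ∀ᶠ t in atTop, PFl hm_alg W t := by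
  obtain ⟨ψ, h1, h2, h3⟩ := h.exists_pz
  obtain ⟨θ₀, h₀⟩ := exists_std_pz σ k
  have := h₀.finiteType
  have := noeth_tensor' k T (Pz σ k)
  have H := fs_transfer (w := crd ⊥) (δ := AddMonoidHom.id ℤ) h1 h2
    (flat_slices (u := 1) (fun i => mem_cl (h₀.deg i)) rfl pz_cy
      fun n γ hn a ha => h₀.mem_pow n hn ha) W hW (by simpa only [h3] using hf)
  filter_upwards [H] with t ht using ht t rfl

theorem Std.fs_two (h : Std 𝒜 z θ) (W : GM (tgr k T (tg k 𝒜 𝒜)))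
    (hW : Module.Finite (T ⊗[k] (A ⊗[k] A)) W.M)
    (hf : OF (algebraMap T (T ⊗[k] (A ⊗[k] A)))
      (Set.range fun i => inr k T (A ⊗[k] A) (inr k A A (z i))) W.M) :
    ∀ᶠ t in atTop, ∀ c, PFl hm_alg W (c, t) := by
  obtain ⟨ψ, h1, h2, h3⟩ := h.exists_pz
  obtain ⟨θ₀, h₀⟩ := exists_std_pz σ k
  have := h₀.finiteType
  have := h.finiteType
  have : Algebra.FiniteType k (A ⊗[k] Pz σ k) :=
    Algebra.FiniteType.trans (S := A) inferInstance inferInstance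
  have := noeth_tensor' k T (A ⊗[k] Pz σ k)
  obtain ⟨U₀, e₀, hU₀⟩ := h.exists_rg
  have hm : Hm (Algebra.TensorProduct.map (AlgHom.id k A) ψ).toRingHom (tg k 𝒜 (hom ⊥))
      (tg k 𝒜 𝒜) (AddMonoidHom.id (ℤ × ℤ)) := by
    refine ⟨injective_id, ?_⟩
    rintro ⟨c, d⟩ _ ⟨a, ha, b, hb, rfl⟩
    exact tmul_mem_cl (mem_cl ha) (h1.mem d b hb)
  have hs : Surjective (Algebra.TensorProduct.map (AlgHom.id k A) ψ) :=
    Algebra.TensorProduct.map_surjective _ _ surjective_id h2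
  have hw : ∀ i, Algebra.TensorProduct.map (AlgHom.id k A) ψ (inr k A (Pz σ k) (crd ⊥ i)) =
      inr k A A (z i) := fun i => by
    rw [← h3 i]; rfl
  have H := fs_transfer (w := fun i => inr k A (Pz σ k) (crd ⊥ i)) (δ := AddMonoidHom.snd ℤ ℤ) hm hs
    (flat_slices (u := (0, 1)) (fun i => tmul_mem_cl cl_one (mem_cl (h₀.deg i))) rfl ?_ ?_) W hW
    (by simpa only [hw] using hf)
  · filter_upwards [H] with t ht c using ht (c, t) rfl
  · intro s
    obtain ⟨U, e, hU, hr⟩ := pz_cy (k := k) s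
    refine ⟨gbox k U₀ U, gb k U₀ U e₀ e, ?_, fun i hi x hx => gbox_reg (hr i hi) x hx⟩
    have := hU₀.gbox (k := k) hU
    rwa [Ideal.map_span, Set.image_image] at this
  · rintro n γ hn _ ⟨a, ha, b, hb, rfl⟩
    have e : a ⊗ₜ[k] b = (a ⊗ₜ[k] 1) * inr k A (Pz σ k) b := by
      show _ = (a ⊗ₜ[k] 1) * ((1 : A) ⊗ₜ[k] b)
      rw [Algebra.TensorProduct.tmul_mul_tmul, mul_one, one_mul]
    have e2 : Ideal.span (Set.range fun i => inr k A (Pz σ k) (crd ⊥ i)) =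
        (Ideal.span (Set.range (crd (⊥ : Ideal (MvPolynomial σ k))))).map (inr k A (Pz σ k)) := by
      rw [Ideal.map_span, ← Set.range_comp]; rfl
    rw [e, e2, ← Ideal.map_pow]
    exact Ideal.mul_mem_left _ _ (Ideal.mem_map_of_mem _ (h₀.mem_pow n hn hb))

end Pool.Agent.CXD
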