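import Pool.Agent.P.MP_2ce3e7_ag.CPB

/-! Projective dimension. -/

set_option linter.unusedSectionVars false
set_option linter.unusedVariables false

open Function Filter
open scoped TensorProduct Polynomial

noncomputable section

namespace Pool.Agent.CXD

open CategoryTheory

/-- projective dimension at most `n` -/
def PD (R : Type) [CommRing R] (n : ℕ) (M : Type) [AddCommGroup M] [Module R M] : Prop :=
  HasProjectiveDimensionLE (ModuleCat.of R M) n

variable {R M N P : Type} [CommRing R] [AddCommGroup M] [Module R M] [AddCommGroup N] [Module R N]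
  [AddCommGroup P] [Module R P] {n : ℕ} {f : M →ₗ[R] N} {g : N →ₗ[R] P}

theorem pd_zero : PD R 0 M ↔ Module.Projective R M := by
  unfold PD
  rw [← CategoryTheory.projective_iff_hasProjectiveDimensionLE_zero, IsProjective.iff_projective]

theorem PD.mono (h : PD R n M) {m : ℕ} (hm : n ≤ m) : PD R m M := by
  have : HasProjectiveDimensionLT (ModuleCat.of R M) (n + 1) := h
  exact hasProjectiveDimensionLT_of_ge (ModuleCat.of R M) (n + 1) (m + 1) (by omega)

theorem PD.congr (h : PD R n M) (e : M ≃ₗ[R] N) : PD R n N := by
  have : HasProjectiveDimensionLE (ModuleCat.of R M) n := h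
  exact ModuleCat.hasProjectiveDimensionLE_of_linearEquiv (M := ModuleCat.of R M)
    (N := ModuleCat.of R N) e n

theorem shortExact_CPF (hs : Sx f g) :
    (ModuleCat.shortComplexOfCompEqZero f g hs.2.2.linearMap_comp_eq_zero).ShortExact :=
  ModuleCat.shortComplex_shortExact _ hs.2.2 hs.1 hs.2.1

theorem PD.ext (hs : Sx f g) (h₁ : PD R n M) (h₃ : PD R n P) : PD R n N :=
  (shortExact_CPF hs).hasProjectiveDimensionLT_X₂ (n + 1) h₁ h₃

theorem PD.ker (hs : Sx f g) (h₂ : PD R n N) (h₃ : PD R (n + 1) P) : PD R n M :=
  (shortExact_CPF hs).hasProjectiveDimensionLT_X₁ (n + 1) h₂ h₃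

theorem PD.quot (hs : Sx f g) (h₁ : PD R n M) (h₂ : PD R (n + 1) N) : PD R (n + 1) P :=
  (shortExact_CPF hs).hasProjectiveDimensionLT_X₃ (n + 1) h₁ h₂

theorem sx_baseChange_CPF (S : Type) [CommRing S] [Algebra R S] [Module.Flat R S] (hs : Sx f g) :
    Sx (f.baseChange S) (g.baseChange S) := by
  refine ⟨?_, ?_, ?_⟩
  · rw [LinearMap.baseChange_eq_ltensor]
    exact Module.Flat.lTensor_preserves_injective_linearMap _ hs.1
  · rw [LinearMap.baseChange_eq_ltensor]
    exact LinearMap.lTensor_surjective _ hs.2.1
  · rw [LinearMap.baseChange_eq_ltensor, LinearMap.baseChange_eq_ltensor]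
    exact lTensor_exact _ hs.2.2 hs.2.1

theorem PD.baseChange (S : Type) [CommRing S] [Algebra R S] [Module.Flat R S] (h : PD R n M) :
    PD S n (S ⊗[R] M) := by
  induction n generalizing M with
  | zero =>
    have := pd_zero.1 h
    exact pd_zero.2 inferInstance
  | succ n ih =>
    let p : (M →₀ R) →ₗ[R] M := Finsupp.linearCombination R id
    have hp : Surjective p := fun x => ⟨Finsupp.single x 1, by simp [p]⟩
    have hs : Sx (M := LinearMap.ker p) (LinearMap.ker p).subtype p :=
      ⟨(LinearMap.ker p).injective_subtype, hp, LinearMap.exact_subtype_ker_map p⟩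
    have hF : PD R 0 (M →₀ R) := pd_zero.2 inferInstance
    have hK : PD R n (LinearMap.ker p) := PD.ker hs (hF.mono (Nat.zero_le _)) h
    have hF' : PD S 0 (S ⊗[R] (M →₀ R)) := pd_zero.2 inferInstance
    exact PD.quot (sx_baseChange_CPF S hs) (ih hK) (hF'.mono (Nat.zero_le _))

/-- localisation is exact -/
theorem Sx.loc (hs : Sx f g) (S : Submonoid R) :
    ∃ (f' : LocalizedModule S M →ₗ[Localization S] LocalizedModule S N)
      (g' : LocalizedModule S N →ₗ[Localization S] LocalizedModule S P), Sx f' g' :=
  ⟨LocalizedModule.map S f, LocalizedModule.map S g, LocalizedModule.map_injective S f hs.1,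
    LocalizedModule.map_surjective S g hs.2.1, LocalizedModule.map_exact S f g hs.2.2⟩

theorem qp_iff [IsNoetherianRing R] [Module.Finite R M] (s : R) :
    Qp s M ↔ Module.Projective (Localization (Submonoid.powers s))
      (LocalizedModule (Submonoid.powers s) M) := by
  constructor
  · rintro ⟨n, m, a, b, hab⟩
    have hu : IsUnit (algebraMap R (Localization (Submonoid.powers s)) (s ^ m)) :=
      IsLocalization.map_units (M := Submonoid.powers s) _ ⟨s ^ m, m, rfl⟩
    obtain ⟨u, hu⟩ := hu
    refine Module.Projective.of_split (M := LocalizedModule (Submonoid.powers s) (Fin n → R))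
      (LocalizedModule.map (Submonoid.powers s) a)
      ((↑u⁻¹ : Localization (Submonoid.powers s)) • LocalizedModule.map (Submonoid.powers s) b) ?_
    ext x
    have hx : LocalizedModule.map (Submonoid.powers s) b
        (LocalizedModule.map (Submonoid.powers s) a x) =
          (u : Localization (Submonoid.powers s)) • x := by
      induction x using LocalizedModule.induction_on with
      | h x t =>
        rw [LocalizedModule.map_mk, LocalizedModule.map_mk, hab, hu, algebraMap_smul,
          LocalizedModule.smul'_mk]
    rw [LinearMap.comp_apply, LinearMap.smul_apply, hx, smul_smul, Units.inv_mul, one_smul,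
      LinearMap.id_apply]
  · intro h
    obtain ⟨n, b, hb⟩ := Module.Finite.exists_fin' R M
    have : Module.FinitePresentation R M := Module.finitePresentation_of_finite R M
    obtain ⟨σ, hσ⟩ := Module.projective_lifting_property
      (LocalizedModule.map (Submonoid.powers s) b) LinearMap.id
      (LocalizedModule.map_surjective _ b hb)
    obtain ⟨a, t, ht⟩ := Module.FinitePresentation.exists_lift_of_isLocalizedModule
      (Submonoid.powers s) (LocalizedModule.mkLinearMap (Submonoid.powers s) (Fin n → R))
      (σ.restrictScalars R ∘ₗ LocalizedModule.mkLinearMap (Submonoid.powers s) M)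
    have h2 : (LocalizedModule.mkLinearMap (Submonoid.powers s) M).comp (b ∘ₗ a) =
        (LocalizedModule.mkLinearMap (Submonoid.powers s) M).comp ((t : R) • LinearMap.id) := by
      ext x
      have h3 : LocalizedModule.mk (a x) (1 : Submonoid.powers s) =
          (t : R) • σ (LocalizedModule.mk x 1) := LinearMap.congr_fun ht x
      have h4 : LocalizedModule.map (Submonoid.powers s) b (σ (LocalizedModule.mk x 1)) =
          LocalizedModule.mk x 1 := LinearMap.congr_fun hσ _
      have h5 := congrArg (LocalizedModule.map (Submonoid.powers s) b) h3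
      rw [LocalizedModule.map_mk, LinearMap.map_smul_of_tower, h4,
        LocalizedModule.smul'_mk] at h5
      exact h5
    obtain ⟨t', ht'⟩ := Module.Finite.exists_smul_of_comp_eq_of_isLocalizedModule
      (Submonoid.powers s) (LocalizedModule.mkLinearMap (Submonoid.powers s) M) _ _ h2
    obtain ⟨t, m, rfl⟩ := t
    obtain ⟨t', m', rfl⟩ := t'
    refine ⟨n, m' + m, a, s ^ m' • b, fun x => ?_⟩
    have h6 : s ^ m' • b (a x) = s ^ m' • (s ^ m • x) := LinearMap.congr_fun ht' x
    rw [LinearMap.smul_apply, h6, smul_smul, pow_add]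

end Pool.Agent.CXD
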