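import Pool.Agent.P.MP_2ce3e7_ag.CWG

/-! Base change along an unramified covering of the second factor. -/

set_option linter.unusedSectionVars false
set_option linter.unusedVariables false

open Function
open scoped TensorProduct

noncomputable section

namespace Pool.Agent.CXD

variable {k K C D : Type} [Field k] [Fintype k] [CommRing K] [Algebra k K] [CommRing C]
  [Algebra k C] [CommRing D] [Algebra k D] {ι : C →ₐ[k] D} {s : Type} [Fintype s] {p : D →+ C}
  {y y' : s → D} {r Q : ℕ}

/-- the Frobenius map -/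
abbrev frb (k B : Type) [Field k] [Fintype k] [CommRing B] [Algebra k B] : B →+* B :=
  (FiniteField.frobeniusAlgHom k B).toRingHom

theorem Et.tensor (h : Et ι.toRingHom (frb k C) (frb k D) s p y y') (K : Type) [CommRing K]
    [Algebra k K] : ∃ p' : K ⊗[k] D →+ K ⊗[k] C, Et (mp K ι) (Fr k K C) (Fr k K D) s p'
      (fun a => inr k K D (y a)) fun a => inr k K D (y' a) := by
  let p₀ : D →ₗ[k] C :=
    { toFun := p
      map_add' := p.map_add
      map_smul' := fun c x => by
        rw [RingHom.id_apply, Algebra.smul_def, Algebra.smul_def, ← h.lin]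
        exact congrArg (fun t => p (t * x)) (ι.commutes c).symm }
  have hp : ∀ (a : K) (x : D), (p₀.lTensor K).toAddMonoidHom (a ⊗ₜ x) = a ⊗ₜ p x := fun _ _ => rfl
  have hi : ∀ (a : K) (x t : D), (a ⊗ₜ[k] x) * inr k K D t = a ⊗ₜ (x * t) := fun a x t => by
    change (a ⊗ₜ[k] x) * (1 ⊗ₜ[k] t) = _
    rw [Algebra.TensorProduct.tmul_mul_tmul, mul_one]
  have hF : ∀ t : D, Fr k K D (inr k K D t) = inr k K D (frb k D t) := fun _ => rfl
  have hd : ∀ u u' : s → D, (∀ x, ∑ a, ι.toRingHom (p (x * u' a)) * u a = x) → ∀ x,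
      ∑ a, mp K ι ((p₀.lTensor K).toAddMonoidHom (x * inr k K D (u' a))) * inr k K D (u a) = x := by
    intro u u' hu x
    induction x using TensorProduct.induction_on with
    | zero => simp
    | add x x' hx hx' => simp only [add_mul, map_add, Finset.sum_add_distrib, hx, hx']
    | tmul b x =>
      simp only [hi, hp, mp_tmul]
      rw [← TensorProduct.tmul_sum]
      exact congrArg (fun t => b ⊗ₜ[k] t) (hu x)
  refine ⟨(p₀.lTensor K).toAddMonoidHom, fun c => RingHom.congr_fun (mp_Fr ι) c, fun c x => ?_,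
    hd _ _ h.dual, hd _ _ h.dual', fun x => ?_⟩
  · induction c using TensorProduct.induction_on with
    | zero => simp
    | add c c' hc hc' => simp only [add_mul, map_add, hc, hc']
    | tmul a c =>
      induction x using TensorProduct.induction_on with
      | zero => simp
      | add x x' hx hx' => simp only [mul_add, map_add, hx, hx']
      | tmul b x =>
        rw [mp_tmul, Algebra.TensorProduct.tmul_mul_tmul, hp, hp,
          Algebra.TensorProduct.tmul_mul_tmul]
        exact congrArg (fun t => (a * b) ⊗ₜ[k] t) (h.lin c x)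
  · induction x using TensorProduct.induction_on with
    | zero => simp
    | add x x' hx hx' => simp only [map_add, hx, hx']
    | tmul b x => exact congrArg (fun t => b ⊗ₜ[k] t) (h.frob x)

theorem prodI_map (ι : C →ₐ[k] D) (I : Ideal K) (J : Ideal C) :
    (prodI k K C I J).map (mp K ι) = prodI k K D I (J.map ι.toRingHom) := by
  have h1 : ∀ (B : Type) [CommRing B] [Algebra k B] (J : Ideal B), prodI k K B I J =
      I.map (Algebra.TensorProduct.includeLeft : K →ₐ[k] K ⊗[k] B).toRingHom ⊔
        J.map (inr k K B) := fun _ _ _ _ => rfl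
  rw [h1, h1, Ideal.map_sup, Ideal.map_map, Ideal.map_map, Ideal.map_map]
  congr 2
  ext a
  exact congrArg (fun t => a ⊗ₜ[k] t) (map_one ι)

theorem TT.bc [IsNoetherianRing K] [Algebra.FiniteType k C] (hT : TT k K C r Q)
    (h : Et ι.toRingHom (frb k C) (frb k D) s p y y') {X : Set (Val (K ⊗[k] D))}
    (hX : Fam (Fr k K D) r (Fintype.card k) X) (hE : ∀ χ ∈ X, Ext1 k K D χ) {χ : Val (K ⊗[k] D)} (hχ : χ ∈ X)
    (𝔫 : Ideal (K ⊗[k] C)) : χ.val (K ⊗[k] D ⧸ 𝔫.map (mp K ι)) = 0 := by
  obtain ⟨p', h'⟩ := h.tensor K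
  have hn : IsNoetherianRing C := Algebra.FiniteType.isNoetherianRing k C
  have hF := hX.map (Fr_finite k K C) (CXD.bc (mp K ι)) 0 (by simp)
    (fun a b c c' => fun _ _ _ _ => rfl) (fun _ _ => bc_eqv)
    (fun c hc => h'.isAdd (hX.add c hc)) fun c hc W _ _ _ => by
      rw [h'.push (hX.add c hc) (Fr_finite k K C) W]
      simp [Val.lin]
  have h0 := hT _ hF (by
    rintro _ ⟨c, hc, rfl⟩
    refine Ext0.ext1 (fun I J => ?_) (h'.isAdd (hX.add c hc))
    rw [bc_quot (hX.add c hc), prodI_map]
    exact (hE c hc).ext0 (hX.add c hc) I _) _ ⟨χ, hχ, rfl⟩ (K ⊗[k] C ⧸ 𝔫)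
  rwa [bc_quot (hX.add χ hχ)] at h0

end Pool.Agent.CXD
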