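import Pool.Agent.P.MP_2ce3e7_ag.CPF
import Pool.Agent.P.MP_2ce3e7_ag.CWG2

/-! Global dimension. -/

set_option linter.unusedSectionVars false
set_option linter.unusedVariables false

open Function Filter
open scoped TensorProduct Polynomial

noncomputable section

namespace Pool.Agent.CXD

/-- global dimension at most `g` -/
def GlD (R : Type) [CommRing R] (g : ℕ) : Prop :=
  ∀ (M : Type) [AddCommGroup M] [Module R M], PD R g M

section
variable {R S : Type} [CommRing R] [CommRing S] {g : ℕ}

theorem GlD.mono (h : GlD R g) {m : ℕ} (hm : g ≤ m) : GlD R m := fun M _ _ => (h M).mono hm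

theorem gld_field (k : Type) [Field k] : GlD k 0 := by
  intro M _ _
  exact pd_zero.2 inferInstance

theorem gld_triv [Subsingleton R] : GlD R 0 := by
  intro M _ _
  have := Module.subsingleton R M
  exact pd_zero.2 inferInstance

attribute [local instance] RingHomInvPair.of_ringEquiv in
theorem GlD.equiv (h : GlD R g) (e : R ≃+* S) : GlD S g := by
  intro M _ _
  let _ : Module R M := Module.compHom M (e : R →+* S)
  have h1 : CategoryTheory.HasProjectiveDimensionLE (ModuleCat.of R M) g := h M
  let e' : (ModuleCat.of R M) ≃ₛₗ[RingHomClass.toRingHom e] (ModuleCat.of S M) :=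
    { toFun := fun x => x
      invFun := fun x => x
      map_add' := fun _ _ => rfl
      map_smul' := fun _ _ => rfl
      left_inv := fun _ => rfl
      right_inv := fun _ => rfl }
  exact ModuleCat.hasProjectiveDimensionLE_of_semiLinearEquiv e e' g

/-- coefficients of an element of the base change to the polynomial ring -/
def cf_CPF2 (R M : Type) [CommRing R] [AddCommGroup M] [Module R M] (n : ℕ) :
    R[X] ⊗[R] M →ₗ[R] M :=
  (TensorProduct.lid R M).toLinearMap ∘ₗ (Polynomial.lcoeff R n).rTensor M

theorem cf_tmul_CPF2 {M : Type} [AddCommGroup M] [Module R M] (n : ℕ) (p : R[X]) (m : M) :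
    cf_CPF2 R M n (p ⊗ₜ m) = p.coeff n • m := by
  simp [cf_CPF2]

theorem cf_sum_CPF2 {M : Type} [AddCommGroup M] [Module R M] (u : R[X] ⊗[R] M) :
    ∃ N₀ : ℕ, ∀ N, N₀ ≤ N → cf_CPF2 R M N u = 0 ∧
      u = ∑ n ∈ Finset.range N, (Polynomial.X ^ n : R[X]) ⊗ₜ[R] cf_CPF2 R M n u := by
  induction u using TensorProduct.induction_on with
  | zero => exact ⟨0, fun N _ => ⟨by simp, by simp⟩⟩
  | tmul p m =>
    refine ⟨p.natDegree + 1, fun N hN => ⟨?_, ?_⟩⟩
    · rw [cf_tmul_CPF2, Polynomial.coeff_eq_zero_of_natDegree_lt (by omega), zero_smul]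
    · conv_lhs => rw [Polynomial.as_sum_range' p N (by omega)]
      rw [TensorProduct.sum_tmul]
      refine Finset.sum_congr rfl fun n _ => ?_
      rw [cf_tmul_CPF2, ← TensorProduct.smul_tmul, Polynomial.smul_X_eq_monomial]
  | add u v hu hv =>
    obtain ⟨a, ha⟩ := hu
    obtain ⟨b, hb⟩ := hv
    refine ⟨max a b, fun N hN => ?_⟩
    obtain ⟨a1, a2⟩ := ha N (le_trans (le_max_left _ _) hN)
    obtain ⟨b1, b2⟩ := hb N (le_trans (le_max_right _ _) hN)
    refine ⟨by rw [map_add, a1, b1, add_zero], ?_⟩
    simp only [map_add, TensorProduct.tmul_add, Finset.sum_add_distrib]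
    rw [← a2, ← b2]

theorem poly_aux_CPF2 {M : Type} [AddCommGroup M] [Module R M] [Module R[X] M]
    [IsScalarTower R R[X] M] (h : PD R g M) : PD R[X] (g + 1) M := by
  have hP : PD R[X] g (R[X] ⊗[R] M) := h.baseChange R[X]
  let φ : M →ₗ[R] M := (LinearMap.lsmul R[X] M Polynomial.X).restrictScalars R
  have hφ : ∀ m, φ m = (Polynomial.X : R[X]) • m := fun m => rfl
  let f : R[X] ⊗[R] M →ₗ[R[X]] R[X] ⊗[R] M :=
    (Polynomial.X : R[X]) • LinearMap.id - φ.baseChange R[X]
  have hf : ∀ (p : R[X]) (m : M),
      f (p ⊗ₜ m) = (Polynomial.X * p) ⊗ₜ m - p ⊗ₜ ((Polynomial.X : R[X]) • m) := by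
    intro p m
    simp only [f, LinearMap.sub_apply, LinearMap.smul_apply, LinearMap.id_apply,
      LinearMap.baseChange_tmul, hφ, TensorProduct.smul_tmul', smul_eq_mul]
  let q : R[X] ⊗[R] M →ₗ[R[X]] M := LinearMap.liftBaseChange R[X] LinearMap.id
  have hq : ∀ (p : R[X]) (m : M), q (p ⊗ₜ m) = p • m := by
    intro p m
    simp [q]
  have c1 : ∀ (n : ℕ) (u : R[X] ⊗[R] M), cf_CPF2 R M (n + 1) (f u) =
      cf_CPF2 R M n u - φ (cf_CPF2 R M (n + 1) u) := by
    intro n u
    induction u using TensorProduct.induction_on with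
    | zero => simp
    | tmul p m =>
      rw [hf, map_sub, cf_tmul_CPF2, cf_tmul_CPF2, cf_tmul_CPF2, cf_tmul_CPF2,
        Polynomial.coeff_X_mul, map_smul, hφ]
    | add u v hu hv =>
      simp only [map_add, hu, hv]
      abel
  have inj : Injective f := by
    rw [injective_iff_map_eq_zero]
    intro u hu
    obtain ⟨N, hN⟩ := cf_sum_CPF2 u
    have st : ∀ n, cf_CPF2 R M n u = φ (cf_CPF2 R M (n + 1) u) := by
      intro n
      have := c1 n u
      rw [hu, map_zero] at this
      exact sub_eq_zero.mp this.symm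
    have z : ∀ k n, N ≤ n + k → cf_CPF2 R M n u = 0 := by
      intro k
      induction k with
      | zero => intro n hn; exact (hN n hn).1
      | succ k ih => intro n hn; rw [st, ih (n + 1) (by omega), map_zero]
    rw [(hN N le_rfl).2]
    exact Finset.sum_eq_zero fun n _ => by rw [z N n (by omega), TensorProduct.tmul_zero]
  have key : ∀ (p : R[X]) (m : M),
      p ⊗ₜ[R] m - (1 : R[X]) ⊗ₜ[R] (p • m) ∈ LinearMap.range f := by
    intro p
    induction p using Polynomial.induction_on with
    | C a =>
      intro m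
      have e1 : (Polynomial.C a : R[X]) = a • (1 : R[X]) := by
        rw [Polynomial.smul_eq_C_mul, mul_one]
      rw [e1, smul_assoc, one_smul, TensorProduct.smul_tmul, sub_self]
      exact zero_mem _
    | add p r hp hr =>
      intro m
      have := add_mem (hp m) (hr m)
      rw [TensorProduct.add_tmul, add_smul, TensorProduct.tmul_add]
      rwa [sub_add_sub_comm] at this
    | monomial n a ih =>
      intro m
      have h1 := ih ((Polynomial.X : R[X]) • m)
      have h2 : f ((Polynomial.C a * Polynomial.X ^ n) ⊗ₜ m) ∈ LinearMap.range f := ⟨_, rfl⟩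
      have h3 := add_mem h2 h1
      rw [hf, sub_add_sub_cancel, smul_smul] at h3
      have e1 : (Polynomial.X * (Polynomial.C a * Polynomial.X ^ n) : R[X]) =
          Polynomial.C a * Polynomial.X ^ (n + 1) := by ring
      have e2 : (Polynomial.C a * Polynomial.X ^ n * Polynomial.X : R[X]) =
          Polynomial.C a * Polynomial.X ^ (n + 1) := by ring
      rwa [e1, e2] at h3
  have key2 : ∀ u : R[X] ⊗[R] M, u - (1 : R[X]) ⊗ₜ[R] q u ∈ LinearMap.range f := by
    intro u
    induction u using TensorProduct.induction_on with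
    | zero => simp
    | tmul p m => rw [hq]; exact key p m
    | add u v hu hv =>
      have := add_mem hu hv
      rw [map_add, TensorProduct.tmul_add]
      rwa [sub_add_sub_comm] at this
  have qf : ∀ u, q (f u) = 0 := by
    intro u
    induction u using TensorProduct.induction_on with
    | zero => simp
    | tmul p m => rw [hf, map_sub, hq, hq, smul_smul, mul_comm, sub_self]
    | add u v hu hv => rw [map_add, map_add, hu, hv, add_zero]
  have hs : Sx f q := by
    refine ⟨inj, fun m => ⟨1 ⊗ₜ m, by rw [hq, one_smul]⟩, fun u => ⟨fun hu => ?_, ?_⟩⟩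
    · have := key2 u
      rwa [hu, TensorProduct.tmul_zero, sub_zero] at this
    · rintro ⟨v, rfl⟩
      exact qf v
  exact PD.quot hs hP (hP.mono (Nat.le_succ g))

theorem GlD.poly (h : GlD R g) : GlD R[X] (g + 1) := by
  intro M _ _
  let _ : Module R M := Module.compHom M (algebraMap R R[X])
  have : IsScalarTower R R[X] M := IsScalarTower.of_compHom R R[X] M
  exact poly_aux_CPF2 (h M)

theorem GlD.loc (h : GlD R g) (U : Submonoid R) : GlD (Localization U) g := by
  intro M _ _
  let _ : Module R M := Module.compHom M (algebraMap R (Localization U))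
  have : IsScalarTower R (Localization U) M := IsScalarTower.of_compHom R (Localization U) M
  have := isLocalizedModule_id U M (Localization U)
  have : Module.Flat R (Localization U) := IsLocalization.flat _ U
  exact ((h M).baseChange (Localization U)).congr
    (IsLocalizedModule.isBaseChange U (Localization U) (LinearMap.id : M →ₗ[R] M)).equiv

theorem gld_mv (k ι : Type) [Field k] [Finite ι] : ∃ g, GlD (MvPolynomial ι k) g := by
  induction ι using Finite.induction_empty_option with
  | of_equiv e ih =>
    obtain ⟨g, hg⟩ := ih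
    exact ⟨g, hg.equiv (MvPolynomial.renameEquiv k e).toRingEquiv⟩
  | h_empty => exact ⟨0, (gld_field k).equiv (MvPolynomial.isEmptyRingEquiv k PEmpty).symm⟩
  | h_option ih =>
    obtain ⟨g, hg⟩ := ih
    exact ⟨g + 1, hg.poly.equiv (MvPolynomial.optionEquivLeft k _).symm.toRingEquiv⟩

end

end Pool.Agent.CXD
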