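import Pool.Agent.P.MP_2ce3e7_ag.CPF2

/-! Flatness of the Frobenius map. -/

set_option linter.unusedSectionVars false
set_option linter.unusedVariables false

open Function Filter
open scoped TensorProduct Polynomial

noncomputable section

namespace Pool.Agent.CXD

variable {k R S : Type} [Field k] [Fintype k] [CommRing R] [Algebra k R] [CommRing S] [Algebra k S]

theorem frb_apply (x : R) : frb k R x = x ^ Fintype.card k := rfl

theorem frb_flat_equiv (e : R ≃ₐ[k] S) (h : (frb k R).Flat) : (frb k S).Flat := by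
  have h1 : frb k S = (e : R →+* S).comp ((frb k R).comp (e.symm : S →+* R)) := by
    refine RingHom.ext fun x => ?_
    rw [RingHom.comp_apply, RingHom.comp_apply, frb_apply, frb_apply, map_pow]
    simp
  rw [h1]
  exact ((RingHom.Flat.of_bijective e.symm.bijective).comp h).comp
    (RingHom.Flat.of_bijective e.bijective)

theorem expand_flat {m : ℕ} (hm : 0 < m) : (Polynomial.expand R m).toRingHom.Flat := by
  let P : R[X][X] := Polynomial.X ^ m - Polynomial.C Polynomial.X
  have hP : P.Monic := Polynomial.monic_X_pow_sub_C _ hm.ne'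
  have h0 : P.eval₂ (Polynomial.expand R m).toRingHom Polynomial.X = 0 := by
    simp [P, Polynomial.eval₂_sub]
  let φ : AdjoinRoot P →+* R[X] := AdjoinRoot.lift (Polynomial.expand R m).toRingHom Polynomial.X h0
  let ψ : R[X] →+* AdjoinRoot P :=
    Polynomial.eval₂RingHom ((AdjoinRoot.of P).comp Polynomial.C) (AdjoinRoot.root P)
  have hr : AdjoinRoot.root P ^ m = AdjoinRoot.of P Polynomial.X := by
    have := AdjoinRoot.eval₂_root P
    simp only [P, Polynomial.eval₂_sub, Polynomial.eval₂_X_pow, Polynomial.eval₂_C] at this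
    exact sub_eq_zero.mp this
  have h1 : φ.comp ψ = RingHom.id _ := by
    refine Polynomial.ringHom_ext (fun a => ?_) ?_
    · simp [φ, ψ]
    · simp [φ, ψ]
  have h2 : ψ.comp φ = RingHom.id _ := by
    refine AdjoinRoot.ringHom_ext ?_ ?_
    · refine Polynomial.ringHom_ext (fun a => ?_) ?_
      · simp [φ, ψ]
      · simp [φ, ψ, hr]
    · simp [φ, ψ]
  have hb : Bijective φ :=
    ⟨LeftInverse.injective (g := ψ) fun x => RingHom.congr_fun h2 x,
      RightInverse.surjective (g := ψ) fun x => RingHom.congr_fun h1 x⟩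
  have h3 : (Polynomial.expand R m).toRingHom = φ.comp (algebraMap R[X] (AdjoinRoot P)) :=
    (AdjoinRoot.lift_comp_of h0).symm
  have : Module.Free R[X] (AdjoinRoot P) := .of_basis (AdjoinRoot.powerBasis' hP).basis
  rw [h3]
  exact (RingHom.flat_algebraMap_iff.mpr inferInstance).comp (RingHom.Flat.of_bijective hb)

theorem map_flat_CPF3 {A B : Type} [CommRing A] [CommRing B] (f : A →+* B) (h : f.Flat) :
    (Polynomial.mapRingHom f).Flat := by
  let := f.toAlgebra
  let : Algebra A[X] B[X] := Polynomial.algebra A B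
  exact RingHom.Flat.isStableUnderBaseChange A B A[X] B[X] h

theorem frb_flat_poly (h : (frb k R).Flat) : (frb k R[X]).Flat := by
  have h1 : frb k R[X] = (Polynomial.expand R (Fintype.card k)).toRingHom.comp
      (Polynomial.mapRingHom (frb k R)) := by
    refine Polynomial.ringHom_ext (fun a => ?_) ?_
    · rw [RingHom.comp_apply, frb_apply, Polynomial.coe_mapRingHom, Polynomial.map_C, frb_apply,
        ← map_pow]
      exact (Polynomial.expand_C _ _).symm
    · rw [RingHom.comp_apply, frb_apply, Polynomial.coe_mapRingHom, Polynomial.map_X]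
      exact (Polynomial.expand_X _).symm
  rw [h1]
  exact (map_flat_CPF3 _ h).comp (expand_flat Fintype.card_pos)

theorem frb_flat_mv (k ι : Type) [Field k] [Fintype k] [Finite ι] :
    (frb k (MvPolynomial ι k)).Flat := by
  induction ι using Finite.induction_empty_option with
  | of_equiv e h => exact frb_flat_equiv (MvPolynomial.renameEquiv k e) h
  | h_empty =>
    exact frb_flat_equiv (MvPolynomial.isEmptyAlgEquiv k PEmpty).symm
      (RingHom.Flat.of_isField (Field.toIsField k) _)
  | h_option h => exact frb_flat_equiv (MvPolynomial.optionEquivLeft k _).symm (frb_flat_poly h)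

/-- the `n`-th power map is flat -/
def PwFl (n : ℕ) (R : Type) [CommRing R] : Prop := ∀ ψ : R →+* R, (∀ a, ψ a = a ^ n) → ψ.Flat

theorem PwFl.equiv {n : ℕ} (e : R ≃+* S) (h : PwFl n R) : PwFl n S := fun ψ hψ => by
  have h0 := h ((e.symm : S →+* R).comp (ψ.comp (e : R →+* S))) fun a => by simp [hψ]
  have h1 : ψ = (e : R →+* S).comp (((e.symm : S →+* R).comp (ψ.comp (e : R →+* S))).comp
      (e.symm : S →+* R)) := RingHom.ext fun x => by simp
  rw [h1]
  exact ((RingHom.Flat.of_bijective e.symm.bijective).comp h0).comp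
    (RingHom.Flat.of_bijective e.bijective)

theorem PwFl.poly {n : ℕ} (hn : 0 < n) (h : PwFl n R) : PwFl n R[X] := fun ψ hψ => by
  have h0 : ∀ a, ((Polynomial.evalRingHom 0).comp (ψ.comp Polynomial.C)) a = a ^ n := fun a => by
    simp [hψ]
  have h1 : ψ = (Polynomial.expand R n).toRingHom.comp
      (Polynomial.mapRingHom ((Polynomial.evalRingHom 0).comp (ψ.comp Polynomial.C))) := by
    refine Polynomial.ringHom_ext (fun a => ?_) ?_
    · rw [RingHom.comp_apply, hψ, Polynomial.coe_mapRingHom, Polynomial.map_C, h0, ← map_pow]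
      exact (Polynomial.expand_C _ _).symm
    · rw [RingHom.comp_apply, hψ, Polynomial.coe_mapRingHom, Polynomial.map_X]
      exact (Polynomial.expand_X _).symm
  rw [h1]
  exact (map_flat_CPF3 _ (h _ h0)).comp (expand_flat hn)

theorem pf_mv (k ι : Type) [Field k] [Finite ι] {n : ℕ} (hn : 0 < n) :
    PwFl n (MvPolynomial ι k) := by
  induction ι using Finite.induction_empty_option with
  | of_equiv e h => exact h.equiv (MvPolynomial.renameEquiv k e).toRingEquiv
  | h_empty =>
    exact PwFl.equiv (MvPolynomial.isEmptyAlgEquiv k PEmpty).symm.toRingEquiv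
      fun _ _ => RingHom.Flat.of_isField (Field.toIsField k) _
  | h_option h => exact (h.poly hn).equiv (MvPolynomial.optionEquivLeft k _).symm.toRingEquiv

theorem frb_comm_CPF3 (U : Submonoid R) :
    (algebraMap R (Localization U)).comp (frb k R) =
      (frb k (Localization U)).comp (algebraMap R (Localization U)) := by
  refine RingHom.ext fun x => ?_
  rw [RingHom.comp_apply, RingHom.comp_apply, frb_apply, frb_apply, map_pow]

theorem loc_flat_CPF3 {A L B : Type} [CommRing A] [CommRing L] [CommRing B] [Algebra A L]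
    (U : Submonoid A) [IsLocalization U L] (φ : L →+* B) (h : (φ.comp (algebraMap A L)).Flat) :
    φ.Flat := by
  let := φ.toAlgebra
  let := (φ.comp (algebraMap A L)).toAlgebra
  have : IsScalarTower A L B := .of_algebraMap_eq fun x => rfl
  exact (Module.flat_iff_of_isLocalization (S := L) (p := U) (M := B)).mpr h

theorem frb_flat_loc (h : (frb k R).Flat) (U : Submonoid R) : (frb k (Localization U)).Flat := by
  refine loc_flat_CPF3 U _ ?_
  rw [← frb_comm_CPF3]
  exact h.comp (RingHom.flat_algebraMap_iff.mpr (IsLocalization.flat _ U))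

theorem pw_comm_CPF3 {n : ℕ} {φ : R →+* R} (hφ : ∀ a, φ a = a ^ n) {ψ : S →+* S}
    (hψ : ∀ a, ψ a = a ^ n) (f : R →+* S) : f.comp φ = ψ.comp f :=
  RingHom.ext fun x => by rw [RingHom.comp_apply, RingHom.comp_apply, hφ, hψ, map_pow]

theorem PwFl.loc {n : ℕ} (h : PwFl n R) {φ : R →+* R} (hφ : ∀ a, φ a = a ^ n) (U : Submonoid R) :
    PwFl n (Localization U) := fun ψ hψ => by
  refine loc_flat_CPF3 U _ ?_
  rw [← pw_comm_CPF3 hφ hψ]
  exact (h φ hφ).comp (RingHom.flat_algebraMap_iff.mpr (IsLocalization.flat _ U))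

theorem PwFl.comp {n : ℕ} {U : Submonoid R} (h : PwFl n (Localization U)) {φ : R →+* R}
    (hφ : ∀ a, φ a = a ^ n) {ψ : Localization U →+* Localization U} (hψ : ∀ a, ψ a = a ^ n) :
    ((algebraMap R (Localization U)).comp φ).Flat := by
  rw [pw_comm_CPF3 hφ hψ]
  exact (RingHom.flat_algebraMap_iff.mpr (IsLocalization.flat _ U)).comp (h ψ hψ)

theorem frb_flat_comp (U : Submonoid R) (h : (frb k (Localization U)).Flat) :
    ((algebraMap R (Localization U)).comp (frb k R)).Flat := by
  rw [frb_comm_CPF3]
  exact (RingHom.flat_algebraMap_iff.mpr (IsLocalization.flat _ U)).comp h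

end Pool.Agent.CXD
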