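import Pool.Agent.P.MP_2ce3e7_ag.CYB

/-! The extension of a family. -/

set_option linter.unusedSectionVars false
set_option linter.unusedVariables false

open Function

noncomputable section

namespace Pool.Agent.CXD

variable {A A' : Type} [CommRing A] [CommRing A'] [IsNoetherianRing A] {Ψ : A →+* A'} {S : Set A}
  {χ : Val A} {φ : A →+* A} {φ' : A' →+* A'} {r Q : ℕ} {X : Set (Val A)}

theorem lat_push_CYB2 {M M' : Type} [AddCommGroup M] [Module A M] [AddCommGroup M'] [Module A' M']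
    (j : M →ₛₗ[Ψ] M') (hj : Lat Ψ S j) (hχ : IsAdd χ ⊥) (hv : Vn Ψ S χ) (hφ : φ.Finite)
    (hc : Ψ.comp φ = φ'.comp Ψ) (hS : ∀ f ∈ S, ∃ m, 0 < m ∧ φ f = f ^ m) :
    (push φ' (ext Ψ S χ)).val M' = (push φ χ).val M := by
  have hfin := hj.fin
  have hc' : ∀ a, Ψ (φ a) = φ' (Ψ a) := fun a => RingHom.congr_fun hc a
  refine @ext_val A A' _ _ Ψ S χ M M' _ (Module.compHom M φ) _ (Module.compHom M' φ') _ hχ hv
    (@LinearMap.mk A A' _ _ Ψ M M' _ _ (Module.compHom M φ) (Module.compHom M' φ') j.toAddHom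
      (fun a x => ?_)) ?_
  · show j (φ a • x) = φ' (Ψ a) • j x
    rw [j.map_smulₛₗ, hc']
  · refine @Lat.mk A A' _ _ Ψ S M M' _ (Module.compHom M φ) _ (Module.compHom M' φ') _
      (finite_compHom φ hφ M) hj.inj fun f hf y => ?_
    obtain ⟨m, hm, hfm⟩ := hS f hf
    obtain ⟨N, x, hx⟩ := hj.den f hf y
    obtain ⟨m, rfl⟩ : ∃ m', m = m' + 1 := ⟨m - 1, by omega⟩
    refine ⟨N, f ^ (m * N) • x, ?_⟩
    show j (f ^ (m * N) • x) = φ' (Ψ f ^ N) • y
    rw [j.map_smulₛₗ, hx, map_pow φ', ← hc', hfm, smul_smul, map_pow, map_pow, ← pow_add, ← pow_mul]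
    congr 2
    ring

theorem over_CYB2 (h : Pc Ψ S) (P : Ideal A) (hP : P.IsPrime) (hk : RingHom.ker Ψ ≤ P) {f : A}
    (hf : f ∈ S) (hfP : f ∉ P) {a : A} (ha : Ψ a ∈ P.map Ψ) : a ∈ P := by
  let : Algebra A A' := Ψ.toAlgebra
  have key : ∀ z ∈ P.map Ψ, ∃ (n : ℕ) (w : integralClosure A A'),
      w ∈ P.map (algebraMap A (integralClosure A A')) ∧ (w : A') = Ψ f ^ n * z := by
    intro z hz
    refine Submodule.span_induction (p := fun z _ => ∃ (n : ℕ) (w : integralClosure A A'),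
      w ∈ P.map (algebraMap A (integralClosure A A')) ∧ (w : A') = Ψ f ^ n * z) ?_ ?_ ?_ ?_ hz
    · rintro _ ⟨x, hx, rfl⟩
      exact ⟨0, algebraMap A _ x, Ideal.mem_map_of_mem _ hx, by rw [pow_zero, one_mul]; rfl⟩
    · exact ⟨0, 0, zero_mem _, by simp⟩
    · rintro x y _ _ ⟨n, w, hw, e⟩ ⟨n', w', hw', e'⟩
      refine ⟨n + n', algebraMap A _ f ^ n' * w + algebraMap A _ f ^ n * w',
        add_mem (Ideal.mul_mem_left _ _ hw) (Ideal.mul_mem_left _ _ hw'), ?_⟩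
      show Ψ f ^ n' * (w : A') + Ψ f ^ n * (w' : A') = _
      rw [e, e']
      ring
    · rintro y x _ ⟨n, w, hw, e⟩
      obtain ⟨N, hN⟩ := h.int f hf y
      refine ⟨N + n, (⟨Ψ f ^ N * y, hN⟩ : integralClosure A A') * w,
        Ideal.mul_mem_left _ _ hw, ?_⟩
      show Ψ f ^ N * y * (w : A') = _
      rw [e, smul_eq_mul]
      ring
  obtain ⟨n, w, hw, e⟩ := key _ ha
  have hb : (⊥ : Ideal (integralClosure A A')).comap (algebraMap A (integralClosure A A')) ≤ P := by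
    intro x hx
    refine hk ?_
    have h1 : algebraMap A (integralClosure A A') x = 0 := Ideal.mem_bot.1 hx
    exact congrArg Subtype.val h1
  obtain ⟨q, -, hq, hqP⟩ := Ideal.exists_ideal_over_prime_of_isIntegral P ⊥ hb
  have hle : P.map (algebraMap A (integralClosure A A')) ≤ q :=
    Ideal.map_le_iff_le_comap.2 hqP.ge
  have hw' : w = algebraMap A (integralClosure A A') (f ^ n * a) := by
    refine Subtype.ext ?_
    rw [e]
    show _ = Ψ (f ^ n * a)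
    rw [map_mul, map_pow]
  have hm : f ^ n * a ∈ P := by
    rw [← hqP, Ideal.mem_comap, ← hw']
    exact hle hw
  exact (hP.mem_or_mem hm).resolve_left fun h1 => hfP (hP.mem_of_pow_mem n h1)

theorem ext_push (h : Pc Ψ S) (hχ : IsAdd χ ⊥) (hv : Vn Ψ S χ) (hφ : φ.Finite)
    (hc : Ψ.comp φ = φ'.comp Ψ) (hS : ∀ f ∈ S, ∃ m, 0 < m ∧ φ f = f ^ m) :
    Eqv (ext Ψ S (push φ χ)) (push φ' (ext Ψ S χ)) := by
  intro M' _ _ _
  have hex := exists_lat h M'
  have e1 : (ext Ψ S (push φ χ)).val M' = (push φ χ).val hex.choose.M := by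
    simp only [ext]
    exact dif_pos hex
  obtain ⟨j, hj⟩ := hex.choose_spec
  rw [e1]
  exact (lat_push_CYB2 j hj hχ hv hφ hc hS).symm

theorem Fam.ext (hX : Fam φ r Q X) (h : Pc Ψ S) (hv : ∀ χ ∈ X, Vn Ψ S χ) (hφ' : φ'.Finite)
    (hc : Ψ.comp φ = φ'.comp Ψ) (hS : ∀ f ∈ S, ∃ m, 0 < m ∧ φ f = f ^ m) :
    Fam φ' r Q (ext Ψ S '' X) := by
  refine hX.map hφ' _ 0 (by simp) ext_lin (fun _ _ => ext_eqv)
    (fun χ hχ => isAdd_ext h (hX.add χ hχ) (hv χ hχ)) fun χ hχ M _ _ _ => ?_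
  rw [ext_push h (hX.add χ hχ) (hv χ hχ) hX.fin hc hS M]
  simp [Val.lin]

theorem piece_prime (h : Pc Ψ S) (hχ : IsAdd χ ⊥) (hv : Vn Ψ S χ) (h0 : Nul (ext Ψ S χ))
    (P : Ideal A) (hP : P.IsPrime) (hk : RingHom.ker Ψ ≤ P) : χ.val (A ⧸ P) = 0 := by
  induction P using IsNoetherian.induction with
  | hgt P ih =>
    by_cases hall : ∀ f ∈ S, f ∈ P
    · exact hv P hP hk hall
    push Not at hall
    obtain ⟨f, hf, hfP⟩ := hall
    obtain ⟨L, j, hj⟩ := exists_lat h (A' ⧸ Ideal.map Ψ P)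
    have hfin := hj.fin
    have hkill : Kill P L.M := fun x hx y => hj.inj (by
      rw [j.map_smulₛₗ, map_zero]
      exact kill_quot le_rfl (Ψ x) (Ideal.mem_map_of_mem Ψ hx) _)
    obtain ⟨ν, hν, hval⟩ := exists_mult P hP L.M hkill
    have h1 := hval χ hχ fun q hq hlt => ih q hlt hq (hk.trans hlt.le)
    rw [← ext_val hχ hv hj, h0] at h1
    have hpos : 0 < ν := by
      refine hν fun a ha => ?_
      obtain ⟨N, x, hx⟩ := hj.den f hf 1
      have h2 : j (a • x) = 0 := by rw [Module.mem_annihilator.1 ha x, map_zero]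
      rw [j.map_smulₛₗ, hx, smul_smul] at h2
      have h3 : Ψ (a * f ^ N) ∈ Ideal.map Ψ P := by
        rw [map_mul, map_pow, ← Ideal.Quotient.eq_zero_iff_mem, ← h2, Algebra.smul_def, mul_one]
        rfl
      exact (hP.mem_or_mem (over_CYB2 h P hP hk hf hfP h3)).resolve_right
        fun h4 => hfP (hP.mem_of_pow_mem N h4)
    have hne : (ν : ℚ) ≠ 0 := by exact_mod_cast hpos.ne'
    exact (mul_eq_zero.1 h1.symm).resolve_left hne

end Pool.Agent.CXD
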