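import Pool.Agent.P.MP_2ce3e7_ag.CYC2
import Pool.Agent.P.MP_2ce3e7_ag.CYB2

attribute [local instance] Pool.Agent.CXD.instAddCommGroupRs Pool.Agent.CXD.instModuleRs
  Pool.Agent.CXD.instModuleRs_1 Pool.Agent.CXD.instIsScalarTowerRs
  Pool.Agent.CXD.instSMulCommClassRs Pool.Agent.CXD.instAddCommGroupBox
  Pool.Agent.CXD.instModuleTensorProductBox Pool.Agent.CXD.finite_box

/-! The property `TT` and its behaviour under finite maps. -/

set_option linter.unusedSectionVars false
set_option linter.unusedVariables false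

open Function
open scoped TensorProduct

noncomputable section

namespace Pool.Agent.CXD

theorem noeth_tensor' (k K B : Type) [Field k] [CommRing K] [Algebra k K] [CommRing B] [Algebra k B]
    [IsNoetherianRing K] [Algebra.FiniteType k B] : IsNoetherianRing (K ⊗[k] B) :=
  Algebra.FiniteType.isNoetherianRing K _

variable (k K B : Type) [Field k] [Fintype k] [CommRing K] [Algebra k K] [CommRing B] [Algebra k B]

/-- every divisible family that kills exterior products is zero -/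
def TT (r Q : ℕ) : Prop :=
  ∀ X : Set (Val (K ⊗[k] B)), Fam (Fr k K B) r (Fintype.card k) X → (∀ χ ∈ X, Ext1 k K B χ) → ∀ χ ∈ X, Nul χ

theorem Fr_eq : Fr k K B = mp K (FiniteField.frobeniusAlgHom k B) := rfl

theorem frobAlg_finite [Algebra.FiniteType k B] :
    (FiniteField.frobeniusAlgHom k B).toRingHom.Finite := by
  refine RingHom.IsIntegral.to_finite ?_ ?_
  · intro y
    refine ⟨Polynomial.X ^ Fintype.card k - Polynomial.C y,
      Polynomial.monic_X_pow_sub_C _ Fintype.card_ne_zero, ?_⟩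
    rw [Polynomial.eval₂_sub, Polynomial.eval₂_X_pow, Polynomial.eval₂_C, sub_eq_zero]
    rfl
  · refine RingHom.FiniteType.of_comp_finiteType (f := algebraMap k B) ?_
    have h1 : (FiniteField.frobeniusAlgHom k B).toRingHom.comp (algebraMap k B) = algebraMap k B :=
      RingHom.ext fun c => (FiniteField.frobeniusAlgHom k B).commutes c
    rw [h1]
    exact RingHom.finiteType_algebraMap.2 inferInstance

theorem Fr_finite [Algebra.FiniteType k B] : (Fr k K B).Finite := mp_finite (frobAlg_finite k B)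

theorem noeth_tensor [IsNoetherianRing K] [Algebra.FiniteType k B] :
    IsNoetherianRing (K ⊗[k] B) := noeth_tensor' k K B

variable {k K B} {B' : Type} [CommRing B'] [Algebra k B'] {r Q : ℕ}

theorem Fr_tmul (a : K) (b : B) : Fr k K B (a ⊗ₜ b) = a ⊗ₜ (b ^ Fintype.card k) := rfl

theorem mp_Fr (ψ : B →ₐ[k] B') : (mp K ψ).comp (Fr k K B) = (Fr k K B').comp (mp K ψ) := by
  refine RingHom.ext fun z => ?_
  induction z using TensorProduct.induction_on with
  | zero => rw [map_zero, map_zero]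
  | tmul a b =>
    rw [RingHom.comp_apply, RingHom.comp_apply, Fr_tmul, mp_tmul, mp_tmul, Fr_tmul, map_pow]
  | add u v hu hv => rw [map_add, map_add, hu, hv]

theorem Fr_inr (b : B) : Fr k K B (inr k K B b) = inr k K B b ^ Fintype.card k := by
  rw [← map_pow]
  exact Fr_tmul 1 b

variable [IsNoetherianRing K] [Algebra.FiniteType k B] [Algebra.FiniteType k B']

theorem TT.piece (hT : TT k K B' r Q) (ψ : B →ₐ[k] B') {S : Set B} (hS : Pc ψ.toRingHom S)
    {X : Set (Val (K ⊗[k] B))} (hX : Fam (Fr k K B) r (Fintype.card k) X) (hE : ∀ χ ∈ X, Ext1 k K B χ)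
    (hv : ∀ χ ∈ X, ∀ P : Ideal (K ⊗[k] B), P.IsPrime →
      RingHom.ker ψ.toRingHom ≤ P.comap (inr k K B) → (∀ f ∈ S, inr k K B f ∈ P) →
        χ.val (K ⊗[k] B ⧸ P) = 0) :
    ∀ χ ∈ X, ∀ P : Ideal (K ⊗[k] B), P.IsPrime →
      RingHom.ker ψ.toRingHom ≤ P.comap (inr k K B) → χ.val (K ⊗[k] B ⧸ P) = 0 := by
  have := noeth_tensor k K B
  have hpc := pc_mp (K := K) hS
  have hv' : ∀ χ ∈ X, Vn (mp K ψ) (inr k K B '' S) χ := fun χ hχ P hP hk hf =>
    hv χ hχ P hP (Ideal.map_le_iff_le_comap.1 (ker_mp (K := K) ψ ▸ hk))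
      fun f hf' => hf _ ⟨f, hf', rfl⟩
  have hF := hX.ext hpc hv' (Fr_finite k K B') (mp_Fr ψ) (by
    rintro _ ⟨f, -, rfl⟩
    exact ⟨_, Fintype.card_pos, Fr_inr f⟩)
  have hE' : ∀ c ∈ ext (mp K ψ) (inr k K B '' S) '' X, Ext1 k K B' c := by
    rintro _ ⟨χ, hχ, rfl⟩ N M' _ _ _ _ _ _
    obtain ⟨L, j, hj⟩ := exists_lat hS M'
    obtain ⟨J, hJ⟩ := box_lat (K := K) (N := N) hj
    rw [ext_val (hX.add χ hχ) (hv' χ hχ) hJ]
    exact hE χ hχ N L.M
  intro χ hχ P hP hk
  refine piece_prime hpc (hX.add χ hχ) (hv' χ hχ) (hT _ hF hE' _ ⟨χ, hχ, rfl⟩) P hP ?_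
  rw [ker_mp]
  exact Ideal.map_le_iff_le_comap.2 hk

theorem TT.of_bij (hT : TT k K B' r Q) (e : B ≃ₐ[k] B') : TT k K B r Q := by
  intro X hX hE χ hχ
  have he : (e : B →ₐ[k] B').toRingHom.Finite := RingHom.Finite.of_surjective _ e.surjective
  have hF := hX.push (Fr_finite k K B') (mp K (e : B →ₐ[k] B')) (mp_finite he) (mp_Fr _)
  have hE' : ∀ c ∈ push (mp K (e : B →ₐ[k] B')) '' X, Ext1 k K B' c := by
    rintro _ ⟨c, hc, rfl⟩
    exact Ext1.push (hE c hc) (hX.add c hc) _ he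
  have h0 : Nul (push (mp K (e : B →ₐ[k] B')) χ) := hT _ hF hE' _ ⟨χ, hχ, rfl⟩
  exact nul_of_push (Algebra.TensorProduct.congr (AlgEquiv.refl : K ≃ₐ[k] K) e).toRingEquiv h0

theorem TT.of_surj (h : Surjective (algebraMap k B)) : TT k K B r Q := by
  intro X hX hE χ hχ M _ _ _
  have := noeth_tensor k K B
  refine val_of_primes (hX.add χ hχ) M kill_bot fun P hP _ => ?_
  have hs : Surjective (Algebra.TensorProduct.includeLeft : K →ₐ[k] K ⊗[k] B) := by
    intro z
    induction z using TensorProduct.induction_on with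
    | zero => exact ⟨0, map_zero _⟩
    | tmul a b =>
      obtain ⟨c, rfl⟩ := h b
      refine ⟨c • a, ?_⟩
      rw [Algebra.TensorProduct.includeLeft_apply, TensorProduct.smul_tmul,
        Algebra.algebraMap_eq_smul_one]
    | add u v hu hv =>
      obtain ⟨x, rfl⟩ := hu
      obtain ⟨y, rfl⟩ := hv
      exact ⟨x + y, map_add _ _ _⟩
  have hP' : P = prodI k K B
      (P.comap (Algebra.TensorProduct.includeLeft : K →ₐ[k] K ⊗[k] B)) ⊥ := by
    rw [prodI, Ideal.map_bot, sup_bot_eq, Ideal.map_comap_of_surjective _ hs]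
  rw [hP']
  exact (hE χ hχ).ext0 (hX.add χ hχ) _ _

end Pool.Agent.CXD
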