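import Pool.Agent.P.MP_2ce3e7_ag.CYU
import Pool.Agent.P.MP_2ce3e7_ag.CYT

/-! The universal family. -/

set_option linter.unusedSectionVars false
set_option linter.unusedVariables false

open Function
open scoped TensorProduct

noncomputable section

namespace Pool.Agent.CXD

section

variable {V : Type*} [AddCommGroup V] [Module ℚ V] {r Q : ℕ} {T : Module.End ℚ V}
  {E : Submodule ℚ V}

theorem stable_CYU2 (hE : ∀ v ∈ E, T v ∈ E) (P : Polynomial ℚ) :
    ∀ v ∈ E, Polynomial.aeval T P v ∈ E := by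
  induction P using Polynomial.induction_on with
  | C a =>
    intro v hv
    rw [Polynomial.aeval_C, Module.algebraMap_end_apply]
    exact E.smul_mem a hv
  | add p q hp hq =>
    intro v hv
    rw [map_add, LinearMap.add_apply]
    exact E.add_mem (hp v hv) (hq v hv)
  | monomial n a h =>
    intro v hv
    rw [pow_succ, ← mul_assoc, map_mul, Module.End.mul_apply, Polynomial.aeval_X]
    exact h _ (hE v hv)

theorem comm_CYU2 (P R : Polynomial ℚ) (v : V) :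
    Polynomial.aeval T P (Polynomial.aeval T R v) = Polynomial.aeval T (P * R) v := by
  rw [map_mul, Module.End.mul_apply]

theorem adm_mem_CYU2 {ε : ℚ} (hε : Adm r Q ε) : Polynomial.X + Polynomial.C ε ∈ Pol r Q :=
  Submonoid.subset_closure ⟨ε, hε, rfl⟩

/-- the vectors that are sent into `E` by some polynomial -/
theorem exists_sat (r Q : ℕ) (hE : ∀ v ∈ E, T v ∈ E) :
    ∃ F : Submodule ℚ V, ∀ v, v ∈ F ↔ ∃ P ∈ Pol r Q, Polynomial.aeval T P v ∈ E := by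
  refine ⟨{ carrier := {v | ∃ P ∈ Pol r Q, Polynomial.aeval T P v ∈ E}
            add_mem' := ?_, zero_mem' := ?_, smul_mem' := ?_ }, fun v => Iff.rfl⟩
  · rintro a b ⟨P, hP, ha⟩ ⟨R, hR, hb⟩
    refine ⟨P * R, (Pol r Q).mul_mem hP hR, ?_⟩
    rw [map_add]
    refine E.add_mem ?_ ?_
    · rw [mul_comm, ← comm_CYU2]
      exact stable_CYU2 hE R _ ha
    · rw [← comm_CYU2]
      exact stable_CYU2 hE P _ hb
  · exact ⟨1, (Pol r Q).one_mem, by rw [map_zero]; exact E.zero_mem⟩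
  · rintro c a ⟨P, hP, ha⟩
    exact ⟨P, hP, by rw [map_smul]; exact E.smul_mem c ha⟩

theorem sat_le {F : Submodule ℚ V} (hF : ∀ v, v ∈ F ↔ ∃ P ∈ Pol r Q, Polynomial.aeval T P v ∈ E) :
    E ≤ F := by
  intro v hv
  exact (hF v).2 ⟨1, (Pol r Q).one_mem, by simpa using hv⟩

theorem sat_st {F : Submodule ℚ V} (hE : ∀ v ∈ E, T v ∈ E)
    (hF : ∀ v, v ∈ F ↔ ∃ P ∈ Pol r Q, Polynomial.aeval T P v ∈ E) : ∀ v ∈ F, T v ∈ F := by
  intro v hv
  obtain ⟨P, hP, h⟩ := (hF v).1 hv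
  refine (hF _).2 ⟨P, hP, ?_⟩
  have h1 : Polynomial.aeval T P (T v) = T (Polynomial.aeval T P v) := by
    have h2 := comm_CYU2 (T := T) P Polynomial.X v
    have h3 := comm_CYU2 (T := T) Polynomial.X P v
    rw [Polynomial.aeval_X] at h2 h3
    rw [h2, h3, mul_comm]
  rw [h1]
  exact hE _ h

theorem sat_div {F : Submodule ℚ V} (hE : ∀ v ∈ E, T v ∈ E)
    (hF : ∀ v, v ∈ F ↔ ∃ P ∈ Pol r Q, Polynomial.aeval T P v ∈ E) {ε : ℚ} (hε : Adm r Q ε)
    (lam : V →ₗ[ℚ] ℚ) (h : ∀ v ∈ F, lam v = 0) :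
    ∃ mu : V →ₗ[ℚ] ℚ, (∀ v ∈ F, mu v = 0) ∧ ∀ v, lam v = mu (T v) + ε * mu v := by
  set S : V →ₗ[ℚ] V := Polynomial.aeval T (Polynomial.X + Polynomial.C ε) with hS
  have hSv : ∀ v, S v = T v + ε • v := fun v => by
    rw [hS, map_add, LinearMap.add_apply, Polynomial.aeval_X, Polynomial.aeval_C,
      Module.algebraMap_end_apply]
  have h1 : F ≤ F.comap S := fun v hv => by
    rw [Submodule.mem_comap, hSv]
    exact F.add_mem (sat_st hE hF v hv) (F.smul_mem ε hv)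
  have h2 : ∀ v, S v ∈ F → v ∈ F := fun v hv => by
    obtain ⟨P, hP, hv'⟩ := (hF _).1 hv
    refine (hF v).2 ⟨P * (Polynomial.X + Polynomial.C ε),
      (Pol r Q).mul_mem hP (adm_mem_CYU2 hε), ?_⟩
    rw [← comm_CYU2]
    exact hv'
  have h3 : LinearMap.ker (F.mapQ F S h1) = ⊥ := by
    rw [eq_bot_iff]
    intro x hx
    obtain ⟨v, rfl⟩ := F.mkQ_surjective x
    rw [LinearMap.mem_ker, Submodule.mkQ_apply, Submodule.mapQ_apply,
      Submodule.Quotient.mk_eq_zero] at hx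
    rw [Submodule.mem_bot, Submodule.mkQ_apply, Submodule.Quotient.mk_eq_zero]
    exact h2 v hx
  obtain ⟨g, hg⟩ := (F.mapQ F S h1).exists_leftInverse_of_injective h3
  have h4 : F ≤ LinearMap.ker lam := fun v hv => h v hv
  refine ⟨(F.liftQ lam h4) ∘ₗ g ∘ₗ F.mkQ, fun v hv => ?_, fun v => ?_⟩
  · rw [LinearMap.comp_apply, LinearMap.comp_apply, Submodule.mkQ_apply,
      (Submodule.Quotient.mk_eq_zero F).2 hv, map_zero, map_zero]
  · rw [← smul_eq_mul, ← map_smul, ← map_add, ← hSv, LinearMap.comp_apply, LinearMap.comp_apply,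
      Submodule.mkQ_apply, ← Submodule.mapQ_apply F F S (h := h1), ← LinearMap.comp_apply g, hg,
      LinearMap.id_apply, Submodule.liftQ_apply]

theorem mem_of_forms {F : Submodule ℚ V} {v : V}
    (h : ∀ lam : V →ₗ[ℚ] ℚ, (∀ w ∈ F, lam w = 0) → lam v = 0) : v ∈ F := by
  by_contra hv
  obtain ⟨f, hf, hf'⟩ := Submodule.exists_dual_map_eq_bot_of_notMem hv inferInstance
  refine hf (h f fun w hw => ?_)
  have : f w ∈ F.map f := Submodule.mem_map_of_mem hw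
  rw [hf'] at this
  exact (Submodule.mem_bot ℚ).1 this

end

theorem Rep.ext {A : Type} [CommRing A] [IsNoetherianRing A] {χ : Val A} {l l' : GV A →ₗ[ℚ] ℚ}
    (h : Rep χ l) (h' : Rep χ l') : l = l' :=
  LinearMap.ext_on span_cls (by rintro _ ⟨M, rfl⟩; rw [h M, h' M])

variable {k K B : Type} [Field k] [Fintype k] [CommRing K] [Algebra k K] [CommRing B] [Algebra k B]
  [IsNoetherianRing K] [Algebra.FiniteType k B] {r Q : ℕ}

theorem rep_ext_iff {χ : Val (K ⊗[k] B)} {lam : GV (K ⊗[k] B) →ₗ[ℚ] ℚ} (h : Rep χ lam) :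
    (∀ v ∈ spanQ (Prods k K B), lam v = 0) ↔ Ext0 k K B χ := by
  constructor
  · intro h0 I J
    rw [← h ⟨K ⊗[k] B ⧸ prodI k K B I J⟩]
    exact h0 _ (Submodule.subset_span ⟨_, ⟨I, J, rfl⟩, rfl⟩)
  · intro h0 v hv
    have : spanQ (Prods k K B) ≤ LinearMap.ker lam := Submodule.span_le.2 (by
      rintro _ ⟨_, ⟨I, J, rfl⟩, rfl⟩
      exact (h _).trans (h0 I J))
    exact this hv

theorem TT.dec (hT : TT k K B r Q) : Dec (Fr k K B) r (Fintype.card k) (Prods k K B) := by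
  have := noeth_tensor k K B
  have : IsNoetherianRing B := Algebra.FiniteType.isNoetherianRing k B
  have hφ := Fr_finite k K B
  obtain ⟨T, hT'⟩ := exists_T _ hφ
  have hp : ∀ {χ lam}, Rep χ lam → Rep (push (Fr k K B) χ) (lam ∘ₗ T) := fun h M => by
    rw [LinearMap.comp_apply, hT', h]
    rfl
  have hE : ∀ v ∈ spanQ (Prods k K B), T v ∈ spanQ (Prods k K B) := fun v hv => by
    refine mem_of_forms fun lam hl => ?_
    obtain ⟨χ, hχ, hr⟩ := exists_val lam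
    have h1 := (((rep_ext_iff hr).1 hl).ext1 hχ).push hχ _ (frobAlg_finite k B)
    exact (rep_ext_iff (hp hr)).2 (h1.ext0 (isAdd_push _ hφ hχ bot_le)) v hv
  obtain ⟨F, hF⟩ := exists_sat r (Fintype.card k) hE
  have hfam : Fam (Fr k K B) r (Fintype.card k) {χ | IsAdd χ ⊥ ∧ ∃ lam, Rep χ lam ∧ ∀ v ∈ F, lam v = 0} := by
    refine ⟨hφ, fun χ h => h.1, ?_, ?_⟩
    · rintro χ ⟨h1, lam, h2, h3⟩
      exact ⟨_, ⟨isAdd_push _ hφ h1 bot_le, _, hp h2, fun v hv => h3 _ (sat_st hE hF v hv)⟩, 1,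
        fun M _ _ _ => by simp [Val.lin]⟩
    · rintro χ ⟨h1, lam, h2, h3⟩ ε hε
      obtain ⟨mu, h4, h5⟩ := sat_div hE hF hε lam h3
      obtain ⟨c, hc, hr⟩ := exists_val mu
      refine ⟨c, ⟨hc, mu, hr, h4⟩, 1, fun M _ _ _ => ?_⟩
      have h6 := hp hr ⟨M⟩
      rw [LinearMap.comp_apply] at h6
      simp only [Val.lin, one_mul]
      rw [← h2 ⟨M⟩, h5, h6, hr ⟨M⟩]
  intro M₀
  refine ⟨_, fun a => isPush_res _ (finite_pow_CXF hφ a) M₀, ?_⟩
  simp only [evP_res _ hφ T hT']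
  refine (hF _).1 (mem_of_forms fun lam hl => ?_)
  obtain ⟨χ, hχ, hr⟩ := exists_val lam
  rw [hr]
  refine hT _ hfam ?_ χ ⟨hχ, lam, hr, hl⟩ _
  rintro c ⟨h1, mu, h2, h3⟩
  exact ((rep_ext_iff h2).1 fun v hv => h3 v (sat_le hF hv)).ext1 h1

end Pool.Agent.CXD
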