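import Pool.Agent.P.MP_2ce3e7_ag.CWA2
import Pool.Agent.P.MP_2ce3e7_ag.CYU2

/-! The rational Grothendieck group of graded modules. -/

set_option linter.unusedSectionVars false
set_option linter.unusedVariables false

open Function

noncomputable section

namespace Pool.Agent.CXD

/-- products of polynomials `X - ν` with `ν > 0` -/
def PosP : Submonoid (Polynomial ℚ) :=
  Submonoid.closure {p | ∃ ν : ℚ, 0 < ν ∧ p = Polynomial.X - Polynomial.C ν}

/-- products of polynomials `X - ν` with `ν` a power -/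
def PwP (Q : ℕ) : Submonoid (Polynomial ℚ) :=
  Submonoid.closure {p | ∃ ν : ℚ, Pw Q ν ∧ p = Polynomial.X - Polynomial.C ν}

theorem pwp_eval {r Q : ℕ} {p : Polynomial ℚ} (hp : p ∈ PwP Q) {ε : ℚ} (hε : Adm r Q ε) :
    p.eval (-ε) ≠ 0 := by
  induction hp using Submonoid.closure_induction with
  | mem p hp =>
    obtain ⟨ν, hν, rfl⟩ := hp
    rw [Polynomial.eval_sub, Polynomial.eval_X, Polynomial.eval_C, sub_ne_zero]
    rintro rfl
    exact hε hν
  | one => rw [Polynomial.eval_one]; exact one_ne_zero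
  | mul p q _ _ ip iq => rw [Polynomial.eval_mul]; exact mul_ne_zero ip iq

section
variable {V : Type*} [AddCommGroup V] [Module ℚ V] (T : Module.End ℚ V)

theorem pos_root {p e : ℕ} (hp : p.Prime) {v : V} (h : ∃ f ∈ PosP, Polynomial.aeval T f v = 0) :
    ∃ f ∈ PwP (p ^ e), Polynomial.aeval (T ^ e) f v = 0 := by
  obtain ⟨f, hf, hv⟩ := h
  have key : ∃ g ∈ PwP (p ^ e), f ∣ g.comp (Polynomial.X ^ e) := by
    clear hv
    induction hf using Submonoid.closure_induction with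
    | mem f hf =>
      obtain ⟨ν, hν, rfl⟩ := hf
      refine ⟨_, Submonoid.subset_closure ⟨ν ^ e, ⟨p, e, ν, hp, rfl, hν, rfl⟩, rfl⟩, ?_⟩
      rw [Polynomial.sub_comp, Polynomial.X_comp, Polynomial.C_comp, Polynomial.C_pow]
      exact sub_dvd_pow_sub_pow _ _ e
    | one => exact ⟨1, one_mem _, one_dvd _⟩
    | mul f f' _ _ ip iq =>
      obtain ⟨g, hg, h1⟩ := ip
      obtain ⟨g', hg', h2⟩ := iq
      exact ⟨g * g', mul_mem hg hg', by rw [Polynomial.mul_comp]; exact mul_dvd_mul h1 h2⟩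
  obtain ⟨g, hg, c, hc⟩ := key
  refine ⟨g, hg, ?_⟩
  have h1 : Polynomial.aeval T (g.comp (Polynomial.X ^ e)) = Polynomial.aeval (T ^ e) g := by
    rw [Polynomial.aeval_comp, map_pow, Polynomial.aeval_X]
  rw [← h1, hc, mul_comm, map_mul, Module.End.mul_apply, hv, map_zero]

theorem exists_pos : ∃ F : Submodule ℚ V,
    (∀ v, v ∈ F ↔ ∃ p ∈ PosP, Polynomial.aeval T p v = 0) ∧
      ∀ (v : V) (ν : ℚ), 0 < ν → T v - ν • v ∈ F → v ∈ F := by
  have hc : ∀ (p q : Polynomial ℚ) (v : V),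
      Polynomial.aeval T (p * q) v = Polynomial.aeval T p (Polynomial.aeval T q v) := fun p q v => by
    rw [map_mul, Module.End.mul_apply]
  refine ⟨{ carrier := {v | ∃ p ∈ PosP, Polynomial.aeval T p v = 0}
            add_mem' := ?_, zero_mem' := ?_, smul_mem' := ?_ }, fun v => Iff.rfl, ?_⟩
  · rintro a b ⟨p, hp, ha⟩ ⟨q, hq, hb⟩
    refine ⟨p * q, PosP.mul_mem hp hq, ?_⟩
    rw [map_add, hc p q b, hb, map_zero, add_zero, mul_comm, hc, ha, map_zero]
  · exact ⟨1, PosP.one_mem, map_zero _⟩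
  · rintro c a ⟨p, hp, ha⟩
    exact ⟨p, hp, by rw [map_smul, ha, smul_zero]⟩
  · rintro v ν hν ⟨p, hp, h⟩
    refine ⟨p * (Polynomial.X - Polynomial.C ν),
      PosP.mul_mem hp (Submonoid.subset_closure ⟨ν, hν, rfl⟩), ?_⟩
    rw [hc, map_sub, LinearMap.sub_apply, Polynomial.aeval_X, Polynomial.aeval_C,
      Module.algebraMap_end_apply]
    exact h

theorem exists_div {r Q : ℕ} (h : ∀ v, ∃ p ∈ PwP Q, Polynomial.aeval T p v = 0) {ε : ℚ}
    (hε : Adm r Q ε) (lam : V →ₗ[ℚ] ℚ) :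
    ∃ mu : V →ₗ[ℚ] ℚ, ∀ v, lam v = mu (T v) + ε * mu v := by
  have hi : LinearMap.ker (T + ε • LinearMap.id : V →ₗ[ℚ] V) = ⊥ := by
    refine LinearMap.ker_eq_bot'.2 fun v hv => ?_
    have h1 : T v = -(ε • v) := eq_neg_of_add_eq_zero_left hv
    obtain ⟨p, hp, h2⟩ := h v
    have h3 : ∃ c : ℚ, c ≠ 0 ∧ Polynomial.aeval T p v = c • v := by
      clear h2
      induction hp using Submonoid.closure_induction with
      | mem p hp =>
        obtain ⟨ν, hν, rfl⟩ := hp
        refine ⟨-ε - ν, sub_ne_zero.2 (by rintro rfl; exact hε hν), ?_⟩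
        rw [map_sub, LinearMap.sub_apply, Polynomial.aeval_X, Polynomial.aeval_C,
          Module.algebraMap_end_apply, h1, sub_smul, neg_smul]
      | one => exact ⟨1, one_ne_zero, by rw [map_one, Module.End.one_apply, one_smul]⟩
      | mul p q _ _ ip iq =>
        obtain ⟨a, ha, ip⟩ := ip
        obtain ⟨b, hb, iq⟩ := iq
        refine ⟨b * a, mul_ne_zero hb ha, ?_⟩
        rw [map_mul, Module.End.mul_apply, iq, map_smul, ip, mul_smul]
    obtain ⟨c, hc, h3⟩ := h3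
    rw [h3] at h2
    exact (smul_eq_zero.1 h2).resolve_left hc
  obtain ⟨g, hg⟩ := LinearMap.exists_leftInverse_of_injective _ hi
  refine ⟨lam ∘ₗ g, fun v => ?_⟩
  have h1 : g (T v + ε • v) = v := LinearMap.congr_fun hg v
  rw [LinearMap.comp_apply, LinearMap.comp_apply, ← smul_eq_mul, ← map_smul, ← map_smul, ← map_add,
    ← map_add, h1]

end

variable {A Γ : Type} [CommRing A] [AddCommGroup Γ]

/-- the relations -/
def UR (𝒜 : Γ → Set A) (S : Set A) : Submodule ℚ (FGM 𝒜 →₀ ℚ) :=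
  Submodule.span ℚ {z | (∃ M N P : FGM 𝒜, Ses M.1 N.1 P.1 ∧
    z = Finsupp.single N 1 - Finsupp.single M 1 - Finsupp.single P 1) ∨
      ∃ M : FGM 𝒜, Nil S M.1.M ∧ z = Finsupp.single M 1}

/-- the Grothendieck group -/
abbrev UG (𝒜 : Γ → Set A) (S : Set A) : Type 1 := (FGM 𝒜 →₀ ℚ) ⧸ UR 𝒜 S

variable {𝒜 : Γ → Set A} {S : Set A}

open Classical in
/-- the class of a module -/
def ucl (S : Set A) (M : GM 𝒜) : UG 𝒜 S :=
  if h : Module.Finite A M.M then Submodule.Quotient.mk (Finsupp.single ⟨M, h⟩ 1) else 0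

theorem span_ucl : Submodule.span ℚ {u : UG 𝒜 S | ∃ M : GM 𝒜, Module.Finite A M.M ∧
    u = ucl S M} = ⊤ := by
  refine Submodule.eq_top_iff'.2 fun u => ?_
  obtain ⟨z, rfl⟩ := (UR 𝒜 S).mkQ_surjective u
  induction z using Finsupp.induction_linear with
  | zero => rw [map_zero]; exact Submodule.zero_mem _
  | add f g hf hg => rw [map_add]; exact Submodule.add_mem _ hf hg
  | single M c =>
    rw [← Finsupp.smul_single_one, map_smul]
    refine Submodule.smul_mem _ _ (Submodule.subset_span ⟨M.1, M.2, ?_⟩)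
    rw [ucl, dif_pos M.2]
    rfl

theorem exists_ulin {W : Type*} [AddCommGroup W] [Module ℚ W] (c : GM 𝒜 → W)
    (h1 : ∀ M N P : GM 𝒜, Module.Finite A N.M → Ses M N P → c N = c M + c P)
    (h2 : ∀ M : GM 𝒜, Module.Finite A M.M → Nil S M.M → c M = 0) :
    ∃ T : UG 𝒜 S →ₗ[ℚ] W, ∀ M : GM 𝒜, Module.Finite A M.M → T (ucl S M) = c M := by
  refine ⟨(UR 𝒜 S).liftQ (Finsupp.linearCombination ℚ fun M : FGM 𝒜 => c M.1) ?_, fun M hM => ?_⟩
  · refine Submodule.span_le.2 ?_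
    rintro z (⟨M, N, P, h, rfl⟩ | ⟨M, h, rfl⟩)
    · refine LinearMap.mem_ker.2 ?_
      rw [map_sub, map_sub, Finsupp.linearCombination_single, Finsupp.linearCombination_single,
        Finsupp.linearCombination_single, one_smul, one_smul, one_smul, h1 _ _ _ N.2 h,
        add_sub_cancel_left, sub_self]
    · refine LinearMap.mem_ker.2 ?_
      rw [Finsupp.linearCombination_single, one_smul, h2 _ M.2 h]
  · rw [ucl, dif_pos hM]
    exact (Submodule.liftQ_apply _ _ _).trans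
      ((Finsupp.linearCombination_single _ _ _).trans (one_smul _ _))

theorem fin_CWM [IsNoetherianRing A] {M N P : GM 𝒜} (hN : Module.Finite A N.M) (h : Ses M N P) :
    Module.Finite A M.M ∧ Module.Finite A P.M := by
  obtain ⟨f, g, -, -, h1, h2, -⟩ := h
  exact ⟨Module.Finite.of_injective f h1, Module.Finite.of_surjective g h2⟩

theorem ucl_ses [IsNoetherianRing A] {M N P : GM 𝒜} (hN : Module.Finite A N.M) (h : Ses M N P) :
    ucl S N = ucl S M + ucl S P := by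
  obtain ⟨hM, hP⟩ := fin_CWM hN h
  rw [ucl, ucl, ucl, dif_pos hM, dif_pos hN, dif_pos hP, ← Submodule.Quotient.mk_add,
    Submodule.Quotient.eq, ← sub_sub]
  exact Submodule.subset_span (Or.inl ⟨⟨M, hM⟩, ⟨N, hN⟩, ⟨P, hP⟩, h, rfl⟩)

theorem ucl_nil {M : GM 𝒜} (h : Nil S M.M) : ucl S M = 0 := by
  rw [ucl]
  split_ifs with hM
  · exact (Submodule.Quotient.mk_eq_zero _).2 (Submodule.subset_span (Or.inr ⟨⟨M, hM⟩, h, rfl⟩))
  · rfl

theorem exists_form [IsNoetherianRing A] {𝒜 : ℤ → Set A}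
    (hS : ∀ M : GM 𝒜, Module.Finite A M.M → Nil S M.M → Tors M) (x : FreeAbelianGroup (FGM 𝒜))
    (h : ∀ l : GM 𝒜 → ℚ, GAdd l → VnG ⊥ S l →
      FreeAbelianGroup.lift (fun V : FGM 𝒜 => l V.1) x = 0) :
    ∃ c : ℕ, 0 < c ∧ c • x ∈ rels 𝒜 := by
  classical
  by_contra hc
  have hi : Injective (zmultiplesHom _ (QuotientAddGroup.mk' (rels 𝒜) x)) := by
    refine (injective_iff_map_eq_zero _).2 fun n hn => ?_
    by_contra h0
    refine hc ⟨n.natAbs, Int.natAbs_pos.2 h0, ?_⟩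
    rw [zmultiplesHom_apply, ← map_zsmul, QuotientAddGroup.mk'_apply,
      QuotientAddGroup.eq_zero_iff] at hn
    rw [← natCast_zsmul]
    rcases Int.natAbs_eq n with e | e
    · rwa [← e]
    · rw [e, neg_zsmul] at hn
      exact neg_mem_iff.1 hn
  obtain ⟨φ, hφ⟩ := (Module.Baer.of_divisible ℚ).extension_property_addMonoidHom _ hi
    (Int.castAddHom ℚ)
  have h1 : φ (QuotientAddGroup.mk' (rels 𝒜) x) = 1 := by
    have := DFunLike.congr_fun hφ 1
    rw [AddMonoidHom.comp_apply, zmultiplesHom_apply, one_zsmul] at this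
    rw [this]
    exact Int.cast_one
  obtain ⟨ψ, hψ⟩ : ∃ ψ, ψ = φ.comp (QuotientAddGroup.mk' (rels 𝒜)) := ⟨_, rfl⟩
  have h2 : ∀ z ∈ rels 𝒜, ψ z = 0 := fun z hz => by
    rw [hψ, AddMonoidHom.comp_apply, QuotientAddGroup.mk'_apply,
      (QuotientAddGroup.eq_zero_iff z).2 hz, map_zero]
  have h3 := h (fun M => if hM : Module.Finite A M.M then ψ (FreeAbelianGroup.of ⟨M, hM⟩) else 0)
    (fun M N P hN hs => by
      obtain ⟨hM, hP⟩ := fin_CWM hN hs
      have e := h2 _ (AddSubgroup.subset_closure (Or.inl ⟨⟨M, hM⟩, ⟨N, hN⟩, ⟨P, hP⟩, hs, rfl⟩))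
      rw [map_sub, map_sub] at e
      beta_reduce
      rw [dif_pos hM, dif_pos hN, dif_pos hP]
      linarith)
    (fun M hM _ hn => by
      beta_reduce
      rw [dif_pos hM]
      exact h2 _ (AddSubgroup.subset_closure (Or.inr ⟨⟨M, hM⟩, hS M hM hn, rfl⟩)))
  have h4 : FreeAbelianGroup.lift (fun V : FGM 𝒜 =>
      if hM : Module.Finite A V.1.M then ψ (FreeAbelianGroup.of ⟨V.1, hM⟩) else 0) = ψ := by
    refine FreeAbelianGroup.lift_ext _ _ fun V => ?_
    rw [FreeAbelianGroup.lift_apply_of, dif_pos V.2]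
    rfl
  rw [h4, hψ, AddMonoidHom.comp_apply, h1] at h3
  exact one_ne_zero h3

end Pool.Agent.CXD
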