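import Pool.Agent.P.MP_2ce3e7_ag.CPA2
import Pool.Agent.P.MP_2ce3e7_ag.CWM

/-! The resolution theorem. -/

set_option linter.unusedSectionVars false
set_option linter.unusedVariables false

open Function Filter
open scoped TensorProduct Polynomial

noncomputable section

namespace Pool.Agent.CXD

variable {D Γ : Type} [CommRing D] [AddCommGroup Γ] {𝒟 : Γ → Set D}

/-- additive on short exact sequences of modules of a class -/
def AddOn {W : Type*} [AddCommGroup W] (p : GM 𝒟 → Prop) (φ : GM 𝒟 → W) : Prop :=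
  ∀ M N P : GM 𝒟, p M → p N → p P → Ses M N P → φ N = φ M + φ P

/-- a filtration of the finite modules by the length of resolutions -/
structure Rsv (𝒬 : ℕ → GM 𝒟 → Prop) (g : ℕ) : Prop where
  fin : ∀ n M, 𝒬 n M → Module.Finite D M.M
  mono : ∀ n M, 𝒬 n M → 𝒬 (n + 1) M
  ext : ∀ n M N P, Ses M N P → 𝒬 n M → 𝒬 n P → 𝒬 n N
  ker : ∀ n M N P, Ses M N P → 𝒬 n N → 𝒬 (n + 1) P → 𝒬 n M
  cover : ∀ M : GM 𝒟, Module.Finite D M.M →
    ∃ (F : GM 𝒟) (f : F.M →ₗ[D] M.M), 𝒬 0 F ∧ IsG f ∧ Surjective f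
  all : ∀ M : GM 𝒟, Module.Finite D M.M → 𝒬 g M

variable {M N P : GM 𝒟}

theorem ses_ker {f : M.M →ₗ[D] N.M} (hf : IsG f) (hs : Surjective f) :
    Ses (M.sub _ hf.ker) M N := by
  exact ⟨(LinearMap.ker f).subtype, f, isG_subtype _, hf, Submodule.injective_subtype _, hs,
    LinearMap.exact_subtype_ker_map f⟩

/-- the fibre product of two surjections -/
theorem exists_pullback {G G' : GM 𝒟} {f : G.M →ₗ[D] M.M} {f' : G'.M →ₗ[D] M.M} (hf : IsG f)
    (hf' : IsG f') (hs : Surjective f) (hs' : Surjective f') :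
    ∃ H : GM 𝒟, Ses (G.sub _ hf.ker) H G' ∧ Ses (G'.sub _ hf'.ker) H G := by
  let L : Submodule D (G.prod G').M :=
    LinearMap.ker (f ∘ₗ LinearMap.fst D G.M G'.M - f' ∘ₗ LinearMap.snd D G.M G'.M)
  have hmem : ∀ x : G.M × G'.M, x ∈ L ↔ f x.1 = f' x.2 := fun x => by
    rw [LinearMap.mem_ker]
    exact sub_eq_zero
  have hL : St (G.prod G') L := by
    intro d x hx
    rw [hmem] at hx ⊢
    change f (G.π d x.1) = f' (G'.π d x.2)
    rw [hf, hf', hx]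
  refine ⟨(G.prod G').sub L hL, ?_, ?_⟩
  · refine ⟨LinearMap.codRestrict L (LinearMap.inl D G.M G'.M ∘ₗ (LinearMap.ker f).subtype)
      (fun x => (hmem _).2 (x.2.trans (map_zero f').symm)),
      LinearMap.snd D G.M G'.M ∘ₗ L.subtype, fun d x => ?_, fun d x => rfl, fun x y e => ?_,
      fun y => ?_, fun x => ?_⟩
    · exact Subtype.ext (Prod.ext rfl (map_zero (G'.π d)).symm)
    · exact Subtype.ext (congrArg (fun z : L => z.1.1) e)
    · obtain ⟨x, hx⟩ := hs (f' y)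
      exact ⟨⟨(x, y), (hmem _).2 hx⟩, rfl⟩
    · constructor
      · intro hx
        have h2 : x.1.2 = 0 := hx
        have h1 : f x.1.1 = 0 := by rw [(hmem _).1 x.2, h2, map_zero]
        exact ⟨⟨x.1.1, h1⟩, Subtype.ext (Prod.ext rfl h2.symm)⟩
      · rintro ⟨z, rfl⟩
        rfl
  · refine ⟨LinearMap.codRestrict L (LinearMap.inr D G.M G'.M ∘ₗ (LinearMap.ker f').subtype)
      (fun x => (hmem _).2 ((map_zero f).trans (Eq.symm x.2))),
      LinearMap.fst D G.M G'.M ∘ₗ L.subtype, fun d x => ?_, fun d x => rfl, fun x y e => ?_,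
      fun y => ?_, fun x => ?_⟩
    · exact Subtype.ext (Prod.ext (map_zero (G.π d)).symm rfl)
    · exact Subtype.ext (congrArg (fun z : L => z.1.2) e)
    · obtain ⟨x, hx⟩ := hs' (f y)
      exact ⟨⟨(y, x), (hmem _).2 hx.symm⟩, rfl⟩
    · constructor
      · intro hx
        have h2 : x.1.1 = 0 := hx
        have h1 : f' x.1.2 = 0 := by rw [← (hmem _).1 x.2, h2, map_zero]
        exact ⟨⟨x.1.2, h1⟩, Subtype.ext (Prod.ext h2.symm rfl)⟩
      · rintro ⟨z, rfl⟩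
        rfl

theorem ses_kers {F : GM 𝒟} {p : F.M →ₗ[D] N.M} (hp : IsG p) (hs : Surjective p)
    {f : M.M →ₗ[D] N.M} {g : N.M →ₗ[D] P.M} (hf : IsG f) (hg : IsG g) (h : Sx f g) :
    Ses (F.sub _ hp.ker) (F.sub _ (hg.comp hp).ker) M := by
  obtain ⟨hi, -, hex⟩ := h
  have hr : ∀ x : LinearMap.ker (g ∘ₗ p), (p ∘ₗ (LinearMap.ker (g ∘ₗ p)).subtype) x ∈
      LinearMap.range f := fun x => (hex _).1 x.2
  let ψ : LinearMap.ker (g ∘ₗ p) →ₗ[D] M.M :=
    (LinearEquiv.ofInjective f hi).symm.toLinearMap ∘ₗ LinearMap.codRestrict _ _ hr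
  have hψ : ∀ x, f (ψ x) = p x.1 := fun x =>
    congrArg Subtype.val ((LinearEquiv.ofInjective f hi).apply_symm_apply
      (LinearMap.codRestrict _ _ hr x))
  have hle : LinearMap.ker p ≤ LinearMap.ker (g ∘ₗ p) := LinearMap.ker_le_ker_comp p g
  refine ⟨Submodule.inclusion hle, ψ, fun d x => rfl, fun d x => hi ?_,
    Submodule.inclusion_injective hle, fun y => ?_, fun x => ?_⟩
  · rw [hf, hψ, hψ]
    exact hp d x.1
  · obtain ⟨x, hx⟩ := hs (f y)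
    have hx' : x ∈ LinearMap.ker (g ∘ₗ p) := by
      change g (p x) = 0
      rw [hx]
      exact (hex _).2 ⟨y, rfl⟩
    exact ⟨⟨x, hx'⟩, hi ((hψ _).trans hx)⟩
  · constructor
    · intro hx
      have h1 : p x.1 = 0 := by rw [← hψ, hx, map_zero]
      exact ⟨⟨x.1, h1⟩, rfl⟩
    · rintro ⟨z, rfl⟩
      refine hi ?_
      rw [hψ, map_zero]
      exact z.2

variable {𝒬 : ℕ → GM 𝒟 → Prop} {g : ℕ} {W : Type*} [AddCommGroup W]

theorem rsv_zero_CPG (h : Rsv 𝒬 g) (n : ℕ) {M : GM 𝒟} (hM : 𝒬 0 M) : 𝒬 n M := by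
  induction n with
  | zero => exact hM
  | succ n ih => exact h.mono n M ih

theorem ses_left_CPG {K G H F : GM 𝒟} {i : K.M →ₗ[D] G.M} {q : G.M →ₗ[D] M.M} (hi : IsG i)
    (hq : IsG q) (hx : Sx i q) (h : Ses (G.sub _ hq.ker) H F) : Ses K H F := by
  obtain ⟨a, b, ha, hb, h1, h2, h3⟩ := h
  have hk : ∀ x, i x ∈ LinearMap.ker q := fun x => (hx.2.2 _).2 ⟨x, rfl⟩
  have hj : IsG (M := K) (N := G.sub _ hq.ker) (LinearMap.codRestrict _ i hk) :=
    fun d x => Subtype.ext (hi d x)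
  refine ⟨a ∘ₗ LinearMap.codRestrict _ i hk, b, ha.comp hj, hb, fun x y e => ?_, h2, fun x => ?_⟩
  · exact hx.1 (congrArg Subtype.val (h1 e))
  · rw [h3 x]
    constructor
    · rintro ⟨z, rfl⟩
      obtain ⟨y, hy⟩ := (hx.2.2 _).1 z.2
      exact ⟨y, congrArg a (Subtype.ext hy)⟩
    · rintro ⟨y, rfl⟩
      exact ⟨_, rfl⟩

theorem Rsv.step (h : Rsv 𝒬 g) {n : ℕ} {φ : GM 𝒟 → W} (hφ : AddOn (𝒬 n) φ) :
    ∃ φ' : GM 𝒟 → W, AddOn (𝒬 (n + 1)) φ' ∧ ∀ M, 𝒬 n M → φ' M = φ M := by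
  classical
  choose F c hF hc hs using h.cover
  let φ' : GM 𝒟 → W := fun M =>
    if hM : Module.Finite D M.M then φ (F M hM) - φ ((F M hM).sub _ (hc M hM).ker) else 0
  have key : ∀ K G M : GM 𝒟, Ses K G M → 𝒬 n G → 𝒬 (n + 1) M → φ' M = φ G - φ K := by
    intro K G M hS hG hM
    have hK := h.ker n K G M hS hG hM
    have hfin := h.fin _ M hM
    have hFn := rsv_zero_CPG h n (hF M hfin)
    have hC := h.ker n _ _ M (ses_ker (hc M hfin) (hs M hfin)) hFn hM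
    obtain ⟨i, q, hi, hq, hx⟩ := hS
    obtain ⟨H, h1, h2⟩ := exists_pullback hq (hc M hfin) hx.2.1 (hs M hfin)
    have h3 := ses_left_CPG hi hq hx h1
    have hH := h.ext n _ _ _ h3 hK hFn
    have e1 := hφ _ _ _ hK hH hFn h3
    have e2 := hφ _ _ _ hC hH hG h2
    simp only [φ', dif_pos hfin]
    rw [sub_eq_sub_iff_add_eq_add, add_comm, ← e1, e2, add_comm]
  refine ⟨φ', fun M N P hM hN hP hS => ?_, fun M hM => ?_⟩
  · obtain ⟨f, q, hf, hq, hx⟩ := hS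
    have hfin := h.fin _ N hN
    have hFn := rsv_zero_CPG h n (hF N hfin)
    have s1 := ses_ker (hc N hfin) (hs N hfin)
    have s2 := ses_ker (hq.comp (hc N hfin)) (hx.2.1.comp (hs N hfin))
    have s3 := ses_kers (hc N hfin) (hs N hfin) hf hq hx
    rw [key _ _ _ s1 hFn hN, key _ _ _ s2 hFn hP, key _ _ _ s3 (h.ker n _ _ _ s2 hFn hP) hM]
    abel
  · have hfin := h.fin _ M hM
    have hFn := rsv_zero_CPG h n (hF M hfin)
    have s1 := ses_ker (hc M hfin) (hs M hfin)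
    have hC := h.ker n _ _ M s1 hFn (h.mono n M hM)
    rw [key _ _ _ s1 hFn (h.mono n M hM), hφ _ _ _ hC hFn hM s1]
    abel

theorem Rsv.exists_ext [IsNoetherianRing D] (h : Rsv 𝒬 g) {φ : GM 𝒟 → W} (hφ : AddOn (𝒬 0) φ) :
    ∃ φ' : GM 𝒟 → W, (∀ M N P : GM 𝒟, Module.Finite D N.M → Ses M N P → φ' N = φ' M + φ' P) ∧
      ∀ M, 𝒬 0 M → φ' M = φ M := by
  have main : ∀ n, ∃ φ' : GM 𝒟 → W, AddOn (𝒬 n) φ' ∧ ∀ M, 𝒬 0 M → φ' M = φ M := by
    intro n
    induction n with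
    | zero => exact ⟨φ, hφ, fun _ _ => rfl⟩
    | succ n ih =>
      obtain ⟨ψ, h1, h2⟩ := ih
      obtain ⟨ψ', h3, h4⟩ := h.step h1
      exact ⟨ψ', h3, fun M hM => (h4 M (rsv_zero_CPG h n hM)).trans (h2 M hM)⟩
  obtain ⟨ψ, h1, h2⟩ := main g
  refine ⟨ψ, fun M N P hN hS => ?_, h2⟩
  obtain ⟨hM, hP⟩ := fin_CWM hN hS
  exact h1 M N P (h.all M hM) (h.all N hN) (h.all P hP) hS

theorem Rsv.span [IsNoetherianRing D] (h : Rsv 𝒬 g) (S : Set D) :
    Submodule.span ℚ {u : UG 𝒟 S | ∃ M : GM 𝒟, 𝒬 0 M ∧ u = ucl S M} = ⊤ := by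
  have main : ∀ n, ∀ M : GM 𝒟, 𝒬 n M →
      ucl S M ∈ Submodule.span ℚ {u : UG 𝒟 S | ∃ M : GM 𝒟, 𝒬 0 M ∧ u = ucl S M} := by
    intro n
    induction n with
    | zero => exact fun M hM => Submodule.subset_span ⟨M, hM, rfl⟩
    | succ n ih =>
      intro M hM
      obtain ⟨F, c, hF, hc, hs⟩ := h.cover M (h.fin _ M hM)
      have s1 := ses_ker hc hs
      have hC := h.ker n _ _ M s1 (rsv_zero_CPG h n hF) hM
      have e := ucl_ses (S := S) (h.fin _ F hF) s1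
      rw [← sub_eq_iff_eq_add'] at e
      rw [← e]
      exact Submodule.sub_mem _ (Submodule.subset_span ⟨F, hF, rfl⟩) (ih _ hC)
  rw [eq_top_iff, ← span_ucl, Submodule.span_le]
  rintro _ ⟨M, hM, rfl⟩
  exact main g M (h.all M hM)

end Pool.Agent.CXD
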