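import Pool.Agent.P.MP_2ce3e7_ag.CPG
import Pool.Agent.P.MP_2ce3e7_ag.CPF3

/-! Resolutions by modules that are projective outside a closed set. -/

set_option linter.unusedSectionVars false
set_option linter.unusedVariables false

open Function Filter
open scoped TensorProduct Polynomial

noncomputable section

namespace Pool.Agent.CXD

variable {D Γ : Type} [CommRing D] [AddCommGroup Γ] {𝒟 : Γ → Set D} {g : ℕ}

/-- finite and projective outside the zero set of the `s j` -/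
def QL {τ : Type} (s : τ → D) (M : GM 𝒟) : Prop := Module.Finite D M.M ∧ ∀ j, Qp (s j) M.M

theorem Cy.ql_piF [Gd 𝒟] {U : GM 𝒟} {e : U.M} (hU : Cy U e ⊥) {τ : Type} (s : τ → D) {ι : Type}
    [Fintype ι] (c : ι → Γ) : QL s (GM.piF fun i => U.shift (c i)) := by
  obtain ⟨c₀, -, -⟩ := hU.exists_coord
  let E : (GM.piF fun i => U.shift (c i)).M ≃ₗ[D] (ι → D) :=
    LinearEquiv.piCongrRight (φ := fun _ : ι => U.M) (ψ := fun _ : ι => D) fun _ => c₀
  refine ⟨Module.Finite.equiv E.symm, fun j => ?_⟩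
  exact (qp_pi (s j) ι).retract E.toLinearMap E.symm.toLinearMap (m := 0) fun x => by
    rw [pow_zero, one_smul]
    exact E.symm_apply_apply x

theorem Cy.ql [Gd 𝒟] {U : GM 𝒟} {e : U.M} (hU : Cy U e ⊥) {τ : Type} (s : τ → D) (c : Γ) :
    QL s (U.shift c) := by
  obtain ⟨c₀, -, -⟩ := hU.exists_coord
  let E : (U.shift c).M ≃ₗ[D] (Unit → D) := c₀.trans (LinearEquiv.funUnique Unit D D).symm
  refine ⟨Module.Finite.equiv E.symm, fun j => ?_⟩
  exact (qp_pi (s j) Unit).retract E.toLinearMap E.symm.toLinearMap (m := 0) fun x => by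
    rw [pow_zero, one_smul]
    exact E.symm_apply_apply x

theorem exists_rsv [Gd 𝒟] [IsNoetherianRing D] {U : GM 𝒟} {e : U.M} (hU : Cy U e ⊥) {τ : Type}
    {s : τ → D} (hg : ∀ j, GlD (Localization (Submonoid.powers (s j))) g) :
    ∃ 𝒬 : ℕ → GM 𝒟 → Prop, Rsv 𝒬 g ∧ ∀ M, 𝒬 0 M ↔ QL s M := by
  let 𝒬 : ℕ → GM 𝒟 → Prop := fun n M => Module.Finite D M.M ∧
    ∀ j, PD (Localization (Submonoid.powers (s j))) n
      (LocalizedModule (Submonoid.powers (s j)) M.M)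
  have h0 : ∀ M, 𝒬 0 M ↔ QL s M := fun M =>
    ⟨fun h => ⟨h.1, fun j => by
        have := h.1
        exact (qp_iff (s j)).2 (pd_zero.1 (h.2 j))⟩,
      fun h => ⟨h.1, fun j => by
        have := h.1
        exact pd_zero.2 ((qp_iff (s j)).1 (h.2 j))⟩⟩
  refine ⟨𝒬, ⟨fun n M h => h.1, fun n M h => ⟨h.1, fun j => (h.2 j).mono n.le_succ⟩,
    ?_, ?_, ?_, ?_⟩, h0⟩
  · rintro n M N P ⟨f, g', -, -, hs⟩ hM hP
    have := hM.1
    have := hP.1
    refine ⟨Module.Finite.of_exact hs.2.2 hs.2.1, fun j => ?_⟩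
    obtain ⟨f', g'', hs'⟩ := hs.loc (Submonoid.powers (s j))
    exact PD.ext hs' (hM.2 j) (hP.2 j)
  · intro n M N P h hN hP
    refine ⟨(fin_CWM hN.1 h).1, fun j => ?_⟩
    obtain ⟨f, g', -, -, hs⟩ := h
    obtain ⟨f', g'', hs'⟩ := hs.loc (Submonoid.powers (s j))
    exact PD.ker hs' (hN.2 j) (hP.2 j)
  · intro M hM
    obtain ⟨n, d, f, hf, hs⟩ := hU.cover M hM kill_bot
    exact ⟨_, f, (h0 _).2 (hU.ql_piF s d), hf, hs⟩
  · intro M hM
    exact ⟨hM, fun j => hg j _⟩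

end Pool.Agent.CXD
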