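import Pool.Agent.P.MP_2ce3e7_ag.CWA2

/-! Hilbert polynomials. -/

set_option linter.unusedSectionVars false
set_option linter.unusedVariables false

open Function Filter

noncomputable section

namespace Pool.Agent.CXD

/-- functions that agree with a polynomial along the filter `F` -/
def PF (F : Filter ℤ) : AddSubgroup (ℤ → ℚ) where
  carrier := {f | ∃ p : Polynomial ℚ, ∀ᶠ t : ℤ in F, f t = p.eval (t : ℚ)}
  zero_mem' := ⟨0, Eventually.of_forall fun _ => by simp⟩
  add_mem' := by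
    rintro f g ⟨p, hp⟩ ⟨q, hq⟩
    exact ⟨p + q, (hp.and hq).mono fun t h => by simp [h.1, h.2]⟩
  neg_mem' := by
    rintro f ⟨p, hp⟩
    exact ⟨-p, hp.mono fun t h => by simp [h]⟩

/-- closed under shifts and discrete integration -/
structure Itg (𝒢 : AddSubgroup (ℤ → ℚ)) : Prop where
  shift : ∀ f ∈ 𝒢, (fun t => f (t + 1)) ∈ 𝒢
  int : ∀ f : ℤ → ℚ, (fun t => f (t + 1) - f t) ∈ 𝒢 → f ∈ 𝒢

theorem exists_antidif (p : Polynomial ℚ) :
    ∃ P : Polynomial ℚ, ∀ x : ℚ, P.eval (x + 1) - P.eval x = p.eval x := by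
  induction p using Polynomial.induction_on' with
  | add p q hp hq =>
    obtain ⟨P, hP⟩ := hp
    obtain ⟨Q, hQ⟩ := hq
    refine ⟨P + Q, fun x => ?_⟩
    simp only [Polynomial.eval_add]
    linear_combination hP x + hQ x
  | monomial n a =>
    refine ⟨Polynomial.C (a / ((n + 1 : ℕ) : ℚ)) * Polynomial.bernoulli (n + 1), fun x => ?_⟩
    have h := Polynomial.bernoulli_eval_one_add (n + 1) x
    have hn : ((n + 1 : ℕ) : ℚ) ≠ 0 := by positivity
    simp only [Polynomial.eval_mul, Polynomial.eval_C, Polynomial.eval_monomial]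
    rw [add_comm x 1, h, Nat.add_sub_cancel]
    field_simp
    ring

theorem itg_atTop : Itg (PF atTop) := by
  refine ⟨?_, ?_⟩
  · rintro f ⟨p, hp⟩
    refine ⟨p.comp (Polynomial.X + 1), ?_⟩
    obtain ⟨N, hN⟩ := eventually_atTop.1 hp
    refine eventually_atTop.2 ⟨N, fun t ht => ?_⟩
    show f (t + 1) = _
    rw [hN (t + 1) (by omega)]
    simp
  · rintro f ⟨p, hp⟩
    obtain ⟨P, hP⟩ := exists_antidif p
    obtain ⟨N, hN⟩ := eventually_atTop.1 hp
    refine ⟨P + Polynomial.C (f N - P.eval (N : ℚ)), eventually_atTop.2 ⟨N, fun t ht => ?_⟩⟩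
    induction t, ht using Int.le_induction with
    | base => simp
    | succ t ht ih =>
      have h1 := hN t ht
      have h2 := hP (t : ℚ)
      simp only [Polynomial.eval_add, Polynomial.eval_C] at ih ⊢
      push_cast
      linear_combination h1 + ih - h2

theorem itg_top : Itg (PF ⊤) := by
  refine ⟨?_, ?_⟩
  · rintro f ⟨p, hp⟩
    refine ⟨p.comp (Polynomial.X + 1), eventually_top.2 fun t => ?_⟩
    show f (t + 1) = _
    rw [eventually_top.1 hp (t + 1)]
    simp
  · rintro f ⟨p, hp⟩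
    obtain ⟨P, hP⟩ := exists_antidif p
    have hN := eventually_top.1 hp
    refine ⟨P + Polynomial.C (f 0 - P.eval 0), eventually_top.2 fun t => ?_⟩
    induction t using Int.induction_on with
    | zero => simp
    | succ t ih =>
      have h1 := hN (t : ℤ)
      have h2 := hP ((t : ℤ) : ℚ)
      simp only [Polynomial.eval_add, Polynomial.eval_C] at ih ⊢
      rw [Int.cast_add, Int.cast_one]
      linear_combination h1 + ih - h2
    | pred t ih =>
      have h1 := hN (-(t : ℤ) - 1)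
      have h2 := hP ((-(t : ℤ) - 1 : ℤ) : ℚ)
      have e : (((-(t : ℤ) - 1 : ℤ) : ℚ) + 1) = ((-(t : ℤ) : ℤ) : ℚ) := by push_cast; ring
      rw [e] at h2
      simp only [Polynomial.eval_add, Polynomial.eval_C, sub_add_cancel] at ih h1 ⊢
      linear_combination ih - h1 + h2

theorem hp_eq {f : ℤ → ℚ} {p : Polynomial ℚ} (h : ∀ᶠ t : ℤ in atTop, f t = p.eval (t : ℚ)) :
    hp f = p := by
  have h1 : ∀ᶠ t : ℤ in atTop, f t = (hp f).eval (t : ℚ) :=
    Classical.epsilon_spec (p := fun p : Polynomial ℚ => ∀ᶠ t : ℤ in atTop, f t = p.eval (t : ℚ))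
      ⟨p, h⟩
  obtain ⟨N, hN⟩ := eventually_atTop.1 (h.and h1)
  apply Polynomial.eq_of_infinite_eval_eq
  refine ((Set.Ici_infinite N).image (f := fun t : ℤ => (t : ℚ))
    (Int.cast_injective.injOn)).mono ?_
  rintro _ ⟨t, ht, rfl⟩
  exact (hN t ht).2.symm.trans (hN t ht).1

/-- the value at zero of the eventual polynomial -/
def ev0 (f : ℤ → ℚ) : ℚ := (hp f).eval 0

theorem ev0_congr {f g : ℤ → ℚ} (h : ∀ᶠ t in atTop, f t = g t) : ev0 f = ev0 g := by
  have e : (fun p : Polynomial ℚ => ∀ᶠ t : ℤ in atTop, f t = p.eval (t : ℚ)) =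
      fun p : Polynomial ℚ => ∀ᶠ t : ℤ in atTop, g t = p.eval (t : ℚ) := by
    funext p
    refine propext ⟨fun h' => (h.and h').mono fun t ht => ht.1.symm.trans ht.2,
      fun h' => (h.and h').mono fun t ht => ht.1.trans ht.2⟩
  unfold ev0 hp
  rw [e]

theorem ev0_zero {f : ℤ → ℚ} (h : ∀ᶠ t in atTop, f t = 0) : ev0 f = 0 := by
  have : hp f = 0 := hp_eq (h.mono fun t ht => by simpa using ht)
  simp [ev0, this]

theorem ev0_lin {f g : ℤ → ℚ} (hf : f ∈ PF atTop) (hg : g ∈ PF atTop) (a b : ℚ) :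
    ev0 (fun t => a * f t + b * g t) = a * ev0 f + b * ev0 g := by
  obtain ⟨p, h1⟩ := hf
  obtain ⟨q, h2⟩ := hg
  have h3 : hp (fun t => a * f t + b * g t) = Polynomial.C a * p + Polynomial.C b * q :=
    hp_eq ((h1.and h2).mono fun t ht => by simp [ht.1, ht.2])
  simp [ev0, h3, hp_eq h1, hp_eq h2]

theorem ev0_mul {f : ℤ → ℚ} {a : ℚ} (hf : (fun t => f t * a) ∈ PF atTop) :
    ev0 (fun t => f t * a) = ev0 f * a := by
  by_cases ha : a = 0
  · subst ha
    rw [mul_zero]
    exact ev0_zero (Eventually.of_forall fun t => mul_zero _)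
  · obtain ⟨p, h1⟩ := hf
    have h2 : hp f = p * Polynomial.C a⁻¹ :=
      hp_eq (h1.mono fun t ht => by
        simp only [Polynomial.eval_mul, Polynomial.eval_C]
        rw [← ht, mul_assoc, mul_inv_cancel₀ ha, mul_one])
    simp only [ev0, h2, hp_eq h1, Polynomial.eval_mul, Polynomial.eval_C]
    rw [mul_assoc, inv_mul_cancel₀ ha, mul_one]

theorem ev0_top {f : ℤ → ℚ} (hf : f ∈ PF ⊤) : ev0 f = f 0 := by
  obtain ⟨p, h1⟩ := hf
  have h2 := eventually_top.1 h1
  rw [ev0, hp_eq (Eventually.of_forall h2), h2 0, Int.cast_zero]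

variable {A Γ : Type} [CommRing A] [AddCommGroup Γ] {𝒜 : Γ → Set A} [IsNoetherianRing A]

theorem hilb {𝒢 : AddSubgroup (ℤ → ℚ)} (h𝒢 : Itg 𝒢) (F : ℤ → GM 𝒜 → ℚ) (hF : ∀ t, GAdd (F t))
    {u : Γ} (hu : ∀ t (M : GM 𝒜), Module.Finite A M.M → F (t + 1) (M.shift (-u)) = F t M)
    {Z : Set A} (hZ : Z.Finite) (hz : ∀ z ∈ Z, z ∈ cl 𝒜 u)
    (h0 : ∀ M : GM 𝒜, Module.Finite A M.M → (∀ z ∈ Z, ∀ x : M.M, z • x = 0) →
      (fun t => F t M) ∈ 𝒢) (M : GM 𝒜) (hM : Module.Finite A M.M) : (fun t => F t M) ∈ 𝒢 := by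
  have step : ∀ (T : Set A) (z : A), z ∈ cl 𝒜 u →
      (∀ M : GM 𝒜, Module.Finite A M.M → (∀ y ∈ insert z T, ∀ x : M.M, y • x = 0) →
        (fun t => F t M) ∈ 𝒢) →
      ∀ M : GM 𝒜, Module.Finite A M.M → (∀ y ∈ T, ∀ x : M.M, y • x = 0) →
        (fun t => F t M) ∈ 𝒢 := by
    intro T z hzu H M hM hT
    have hg := isG_lsmul (M := M) hzu
    have hq : (fun t => F t (M.quo _ hg.range)) ∈ 𝒢 := by
      refine H _ (inferInstanceAs (Module.Finite A (M.M ⧸ _))) ?_
      intro y hy x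
      obtain ⟨x, rfl⟩ := (LinearMap.range (LinearMap.lsmul A M.M z)).mkQ_surjective x
      rw [← map_smul]
      rcases hy with rfl | hy
      · exact (Submodule.Quotient.mk_eq_zero _).2 ⟨x, rfl⟩
      · rw [hT y hy x, map_zero]
    have hk : (fun t => F t ((M.shift (-u)).sub _ hg.ker)) ∈ 𝒢 := by
      refine H _ (inferInstanceAs
        (Module.Finite A (LinearMap.ker (LinearMap.lsmul A M.M z)))) ?_
      intro y hy x
      apply Subtype.ext
      rcases hy with rfl | hy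
      · exact x.2
      · exact hT y hy x.1
    apply h𝒢.int
    have e : (fun t => F (t + 1) M - F t M) = (fun t => F (t + 1) (M.quo _ hg.range)) -
        fun t => F (t + 1) ((M.shift (-u)).sub _ hg.ker) := by
      funext t
      have h4 := (hF (t + 1)).four (M := M.shift (-u)) (N := M) hM hM hg
      rw [hu t M hM] at h4
      exact h4
    rw [e]
    exact 𝒢.sub_mem (h𝒢.shift _ hq) (h𝒢.shift _ hk)
  have key : ∀ Z : Set A, Z.Finite → (∀ z ∈ Z, z ∈ cl 𝒜 u) → ∀ T : Set A,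
      (∀ M : GM 𝒜, Module.Finite A M.M → (∀ y ∈ T ∪ Z, ∀ x : M.M, y • x = 0) →
        (fun t => F t M) ∈ 𝒢) →
      ∀ M : GM 𝒜, Module.Finite A M.M → (∀ y ∈ T, ∀ x : M.M, y • x = 0) →
        (fun t => F t M) ∈ 𝒢 := by
    intro Z hZ
    induction Z, hZ using Set.Finite.induction_on with
    | empty =>
      intro _ T H
      simpa only [Set.union_empty] using H
    | @insert z Z _ _ ih =>
      intro hz T H
      refine step T z (hz z (Set.mem_insert _ _)) ?_
      refine ih (fun y hy => hz y (Set.mem_insert_of_mem _ hy)) (insert z T) ?_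
      rw [Set.insert_union, ← Set.union_insert]
      exact H
  refine key Z hZ hz ∅ ?_ M hM (fun y hy => absurd hy (Set.notMem_empty y))
  rw [Set.empty_union]
  exact h0

end Pool.Agent.CXD
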