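import Pool.Agent.P.MP_2ce3e7_ag.CPA
import Pool.Agent.P.MP_2ce3e7_ag.CWH

/-! Hilbert polynomials for eventually additive functions. -/

set_option linter.unusedSectionVars false
set_option linter.unusedVariables false

open Function Filter
open scoped TensorProduct Polynomial

noncomputable section

namespace Pool.Agent.CXD

theorem tendsto_CPH {Q : ℕ} (hQ : 0 < Q) : Tendsto (fun t : ℤ => Q • t) atTop atTop := by
  refine tendsto_atTop_mono' atTop ?_ tendsto_id
  filter_upwards [eventually_ge_atTop (0 : ℤ)] with t ht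
  have h1 : (1 : ℤ) ≤ Q := by exact_mod_cast hQ
  rw [nsmul_eq_mul]
  exact le_mul_of_one_le_left ht h1

theorem ev0_add {f g h : ℤ → ℚ} (hf : f ∈ PF atTop) (hg : g ∈ PF atTop)
    (hh : ∀ᶠ t in atTop, h t = f t + g t) : ev0 h = ev0 f + ev0 g := by
  rw [ev0_congr (g := fun t => 1 * f t + 1 * g t) (hh.mono fun t ht => by rw [ht, one_mul, one_mul]),
    ev0_lin hf hg, one_mul, one_mul]

theorem ev0_scale {f : ℤ → ℚ} (hf : f ∈ PF atTop) {Q : ℕ} (hQ : 0 < Q) :
    ev0 (fun t => f (Q • t)) = ev0 f := by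
  obtain ⟨p, h1⟩ := hf
  have h2 : hp (fun t : ℤ => f (Q • t)) = p.comp (Polynomial.C (Q : ℚ) * Polynomial.X) :=
    hp_eq (((tendsto_CPH hQ).eventually h1).mono fun t ht => by
      rw [ht]
      simp)
  rw [ev0, ev0, h2, hp_eq h1]
  simp

theorem ev_scale {p : ℤ → Prop} (hp : ∀ᶠ t in atTop, p t) {Q : ℕ} (hQ : 0 < Q) :
    ∀ᶠ t : ℤ in atTop, p (Q • t) := by
  exact (tendsto_CPH hQ).eventually hp

theorem pf_congr {f g : ℤ → ℚ} (hf : f ∈ PF atTop) (h : ∀ᶠ t in atTop, g t = f t) :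
    g ∈ PF atTop := by
  obtain ⟨p, h1⟩ := hf
  exact ⟨p, (h.and h1).mono fun t ht => ht.1.trans ht.2⟩

variable {A Γ : Type} [CommRing A] [AddCommGroup Γ] {𝒜 : Γ → Set A} [IsNoetherianRing A]

theorem hilb' (F : ℤ → GM 𝒜 → ℚ)
    (hF : ∀ M N P : GM 𝒜, Module.Finite A N.M → Ses M N P → ∀ᶠ t in atTop, F t N = F t M + F t P)
    {u : Γ} (hu : ∀ t (M : GM 𝒜), Module.Finite A M.M → F (t + 1) (M.shift (-u)) = F t M)
    {Z : Set A} (hZ : Z.Finite) (hz : ∀ z ∈ Z, z ∈ cl 𝒜 u)
    (h0 : ∀ M : GM 𝒜, Module.Finite A M.M → (∀ z ∈ Z, ∀ x : M.M, z • x = 0) →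
      (fun t => F t M) ∈ PF atTop) (M : GM 𝒜) (hM : Module.Finite A M.M) :
    (fun t => F t M) ∈ PF atTop := by
  have step : ∀ (T : Set A) (z : A), z ∈ cl 𝒜 u →
      (∀ M : GM 𝒜, Module.Finite A M.M → (∀ y ∈ insert z T, ∀ x : M.M, y • x = 0) →
        (fun t => F t M) ∈ PF atTop) →
      ∀ M : GM 𝒜, Module.Finite A M.M → (∀ y ∈ T, ∀ x : M.M, y • x = 0) →
        (fun t => F t M) ∈ PF atTop := by
    intro T z hzu H M hM hT
    have hg := isG_lsmul (M := M) hzu
    have hq : (fun t => F t (M.quo _ hg.range)) ∈ PF atTop := by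
      refine H _ (inferInstanceAs (Module.Finite A (M.M ⧸ _))) ?_
      intro y hy x
      obtain ⟨x, rfl⟩ := (LinearMap.range (LinearMap.lsmul A M.M z)).mkQ_surjective x
      rw [← map_smul]
      rcases hy with rfl | hy
      · exact (Submodule.Quotient.mk_eq_zero _).2 ⟨x, rfl⟩
      · rw [hT y hy x, map_zero]
    have hk : (fun t => F t ((M.shift (-u)).sub _ hg.ker)) ∈ PF atTop := by
      refine H _ (inferInstanceAs
        (Module.Finite A (LinearMap.ker (LinearMap.lsmul A M.M z)))) ?_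
      intro y hy x
      apply Subtype.ext
      rcases hy with rfl | hy
      · exact x.2
      · exact hT y hy x.1
    apply itg_atTop.int
    have h1 := hF _ M _ hM (ses_sub_quo hg.range)
    have h2 := hF ((M.shift (-u)).sub _ hg.ker) (M.shift (-u)) (M.sub _ hg.range) hM
      ⟨(LinearMap.ker (LinearMap.lsmul A M.M z)).subtype,
        (LinearMap.lsmul A M.M z).rangeRestrict, isG_subtype _, fun d x => Subtype.ext (hg d x),
        Submodule.injective_subtype _, LinearMap.surjective_rangeRestrict _, fun y => by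
          rw [← LinearMap.exact_subtype_ker_map (LinearMap.lsmul A M.M z) y]
          exact Subtype.ext_iff⟩
    refine pf_congr ((PF atTop).sub_mem (itg_atTop.shift _ hq) (itg_atTop.shift _ hk)) ?_
    have hs : Tendsto (fun t : ℤ => t + 1) atTop atTop := tendsto_atTop_add_const_right _ 1 tendsto_id
    filter_upwards [hs.eventually h1, hs.eventually h2] with t e1 e2
    rw [hu t M hM] at e2
    simp only [Pi.sub_apply]
    linarith
  have key : ∀ Z : Set A, Z.Finite → (∀ z ∈ Z, z ∈ cl 𝒜 u) → ∀ T : Set A,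
      (∀ M : GM 𝒜, Module.Finite A M.M → (∀ y ∈ T ∪ Z, ∀ x : M.M, y • x = 0) →
        (fun t => F t M) ∈ PF atTop) →
      ∀ M : GM 𝒜, Module.Finite A M.M → (∀ y ∈ T, ∀ x : M.M, y • x = 0) →
        (fun t => F t M) ∈ PF atTop := by
    intro Z hZ
    induction Z, hZ using Set.Finite.induction_on with
    | empty =>
      intro _ T H
      simpa only [Set.union_empty] using H
    | @insert z Z _ _ ih =>
      intro hz T H
      refine step T z (hz z (Set.mem_insert _ _)) ?_
      refine ih (fun y hy => hz y (Set.mem_insert_of_mem _ hy)) (insert z T) ?_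
      rw [Set.insert_union, ← Set.union_insert]
      exact H
  refine key Z hZ hz ∅ ?_ M hM (fun y hy => absurd hy (Set.notMem_empty y))
  rw [Set.empty_union]
  exact h0

theorem shift_top {l : GM 𝒜 → ℚ} (hl : GAdd l) (u : Γ) {Z : Set A} (hZ : Z.Finite)
    (hz : ∀ z ∈ Z, z ∈ cl 𝒜 u)
    (h0 : ∀ M : GM 𝒜, Module.Finite A M.M → (∀ z ∈ Z, ∀ x : M.M, z • x = 0) → l M = 0)
    (M : GM 𝒜) (hM : Module.Finite A M.M) : (fun t : ℤ => l (M.shift (t • u))) ∈ PF ⊤ := by
  refine hilb itg_top (fun t M => l (M.shift (t • u))) ?_ (u := u) ?_ hZ hz ?_ M hM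
  · rintro t M N P hN ⟨f, g, hf, hg, hs⟩
    exact hl (M.shift (t • u)) (N.shift (t • u)) (P.shift (t • u)) hN
      ⟨f, g, fun d x => hf _ x, fun d x => hg _ x, hs⟩
  · intro t M hM
    exact hl.congr (M := (M.shift (-u)).shift ((t + 1) • u)) (N := M.shift (t • u)) hM
      (f := LinearMap.id)
      (fun d x => congrArg (fun c => M.π c x)
        (by rw [add_smul, one_smul]; abel : -u + ((t + 1) • u + d) = t • u + d)) bijective_id
  · intro M hM h1
    have e : (fun t : ℤ => l (M.shift (t • u))) = 0 := by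
      funext t
      exact h0 (M.shift (t • u)) hM h1
    show (fun t : ℤ => l (M.shift (t • u))) ∈ PF ⊤
    rw [e]
    exact zero_mem _

end Pool.Agent.CXD
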