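import Pool.Agent.P.MP_2ce3e7_ag.CX0

/-! Classes that are killed by a polynomial in the Frobenius map. -/

namespace Pool.Agent.CXD

open scoped TensorProduct

variable {A : Type} [CommRing A]

/-- The class of a module in `ℚ ⊗ G₀`. -/
noncomputable def cls (M : FG A) : ℚ ⊗[ℤ] G0 A :=
  (1 : ℚ) ⊗ₜ QuotientAddGroup.mk (FreeAbelianGroup.of M)

/-- `N` is `M` with scalars restricted along `ψ`. -/
def IsPush (ψ : A →+* A) (M N : FG A) : Prop :=
  ∃ e : N.M ≃+ M.M, ∀ (a : A) (y : N.M), e (a • y) = ψ a • e y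

/-- `Q = p ^ e` and `ν` is the `e`-th power of a positive number. -/
def Pw (Q : ℕ) (ν : ℚ) : Prop :=
  ∃ (p e : ℕ) (μ : ℚ), p.Prime ∧ Q = p ^ e ∧ 0 < μ ∧ ν = μ ^ e

/-- Products of the polynomials `T + ε`, where `-ε` is not such a power. -/
noncomputable def Pol (_r Q : ℕ) : Submonoid (Polynomial ℚ) :=
  Submonoid.closure {p | ∃ ε : ℚ, ¬Pw Q (-ε) ∧ p = Polynomial.X + Polynomial.C ε}

/-- `∑ c a • [M a]` for the polynomial `∑ c a * T ^ a`. -/
noncomputable def evP (P : Polynomial ℚ) (M : ℕ → FG A) : ℚ ⊗[ℤ] G0 A :=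
  P.sum fun a c => c • cls (M a)

/-- The span of the classes of the quotients by the ideals in `T`. -/
noncomputable def spanQ (T : Set (Ideal A)) : Submodule ℚ (ℚ ⊗[ℤ] G0 A) :=
  Submodule.span ℚ {x | ∃ I ∈ T, x = cls ⟨A ⧸ I⟩}

/-- Every class is sent into `spanQ T` by a polynomial in the push-forward along `φ`. -/
def Dec (φ : A →+* A) (r Q : ℕ) (T : Set (Ideal A)) : Prop :=
  ∀ M₀ : FG A, ∃ M : ℕ → FG A, (∀ a, IsPush (φ ^ a) M₀ (M a)) ∧ ∃ P ∈ Pol r Q, evP P M ∈ spanQ T

variable (k K B : Type) [Field k] [Fintype k] [CommRing K] [Algebra k K] [CommRing B] [Algebra k B]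

/-- The Frobenius map of the second factor. -/
noncomputable def Fr : K ⊗[k] B →+* K ⊗[k] B :=
  (Algebra.TensorProduct.map (AlgHom.id k K) (FiniteField.frobeniusAlgHom k B)).toRingHom

/-- The ideal of a product of two closed subschemes. -/
noncomputable def prodI (I : Ideal K) (J : Ideal B) : Ideal (K ⊗[k] B) :=
  I.map (Algebra.TensorProduct.includeLeft : K →ₐ[k] K ⊗[k] B) ⊔
    J.map (Algebra.TensorProduct.includeRight : B →ₐ[k] K ⊗[k] B)

/-- The ideals of products of closed subschemes. -/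
def Prods : Set (Ideal (K ⊗[k] B)) := {x | ∃ I J, x = prodI k K B I J}

/-- The ideals of inverse images of closed subschemes of the first factor. -/
def Pulls : Set (Ideal (K ⊗[k] B)) :=
  Set.range fun I : Ideal K => I.map (Algebra.TensorProduct.includeLeft : K →ₐ[k] K ⊗[k] B)

end Pool.Agent.CXD
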