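import Pool.Agent.P.MP_2ce3e7_ag.CXF
import Pool.Agent.P.MP_2ce3e7_ag.CY0

/-! Divisible families of additive functions. -/

set_option linter.unusedSectionVars false
set_option linter.unusedVariables false

open Function

noncomputable section

namespace Pool.Agent.CXD

variable {A A' : Type} [CommRing A] [CommRing A']

/-- equal on finite modules -/
def Eqv (χ χ' : Val A) : Prop :=
  ∀ (M : Type) [AddCommGroup M] [Module A M] [Module.Finite A M], χ.val M = χ'.val M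

/-- zero on finite modules -/
def Nul (χ : Val A) : Prop :=
  ∀ (M : Type) [AddCommGroup M] [Module A M] [Module.Finite A M], χ.val M = 0

/-- the admissible constants -/
def Adm (r Q : ℕ) (ε : ℚ) : Prop := ¬Pw Q (-ε)

theorem Pw.pos {Q : ℕ} {ν : ℚ} (h : Pw Q ν) : 0 < ν := by
  obtain ⟨p, e, μ, -, -, h1, rfl⟩ := h
  exact pow_pos h1 e

theorem Pw.zpow {Q : ℕ} {ν : ℚ} (h : Pw Q ν) (j : ℤ) : Pw Q (ν * (Q : ℚ) ^ j) := by
  obtain ⟨p, e, μ, hp, rfl, h1, rfl⟩ := h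
  have h2 : (0 : ℚ) < p := by exact_mod_cast hp.pos
  refine ⟨p, e, μ * (p : ℚ) ^ j, hp, rfl, mul_pos h1 (zpow_pos h2 j), ?_⟩
  rw [mul_pow, Nat.cast_pow, ← zpow_natCast, ← zpow_natCast (_ ^ j), ← zpow_natCast (p : ℚ),
    ← zpow_mul, ← zpow_mul, mul_comm j]

theorem Pw.ne {Q : ℕ} {ν : ℚ} (h : Pw Q ν) : (Q : ℚ) ≠ 0 := by
  obtain ⟨p, e, μ, hp, rfl, -, -⟩ := h
  exact_mod_cast (pow_pos hp.pos e).ne'

theorem adm_of_nonneg {r Q : ℕ} {ε : ℚ} (h : 0 ≤ ε) : Adm r Q ε :=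
  fun h' => absurd h'.pos (by linarith)

theorem adm_zero {r Q : ℕ} : Adm r Q 0 := adm_of_nonneg le_rfl

theorem Adm.zpow {r Q : ℕ} {ε : ℚ} (h : Adm r Q ε) (j : ℤ) : Adm r Q (ε * (Q : ℚ) ^ j) := by
  intro h'
  have h1 := h'.zpow (-j)
  rw [neg_mul, mul_assoc, ← zpow_add₀ h'.ne, add_neg_cancel, zpow_zero, mul_one] at h1
  exact h h1

theorem Adm.mul {r Q : ℕ} {ε : ℚ} (h : Adm r Q ε) (j : ℕ) : Adm r Q (ε * (Q : ℚ) ^ j) := by
  have h1 := h.zpow j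
  rwa [zpow_natCast] at h1

theorem Adm.div {r Q : ℕ} {ε : ℚ} (h : Adm r Q ε) (j : ℕ) : Adm r Q (ε / (Q : ℚ) ^ j) := by
  have h1 := h.zpow (-j)
  rwa [zpow_neg, zpow_natCast, ← div_eq_mul_inv] at h1

/-- a family of additive functions that is stable under `T = push φ` and on which every
`T + ε` is onto, up to scalars -/
structure Fam (φ : A →+* A) (r Q : ℕ) (X : Set (Val A)) : Prop where
  fin : φ.Finite
  add : ∀ χ ∈ X, IsAdd χ ⊥
  st : ∀ χ ∈ X, ∃ χ' ∈ X, ∃ s : ℚ, Eqv (push φ χ) (Val.lin s 0 χ' χ')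
  div : ∀ χ ∈ X, ∀ ε, Adm r Q ε → ∃ χ' ∈ X, ∃ s : ℚ, Eqv χ (Val.lin s (s * ε) (push φ χ') χ')

/-- the same for an arbitrary set of constants -/
structure Fs (φ : A →+* A) (S : ℚ → Prop) (X : Set (Val A)) : Prop where
  fin : φ.Finite
  add : ∀ χ ∈ X, IsAdd χ ⊥
  st : ∀ χ ∈ X, ∃ χ' ∈ X, ∃ s : ℚ, Eqv (push φ χ) (Val.lin s 0 χ' χ')
  div : ∀ χ ∈ X, ∀ ε, S ε → ∃ χ' ∈ X, ∃ s : ℚ, Eqv χ (Val.lin s (s * ε) (push φ χ') χ')

variable {φ : A →+* A} {φ' : A' →+* A'} {r Q : ℕ} {X : Set (Val A)} {S : ℚ → Prop}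

theorem Fam.fs (h : Fam φ r Q X) : Fs φ (Adm r Q) X := ⟨h.fin, h.add, h.st, h.div⟩

theorem finite_pow_CYA (hφ : φ.Finite) (k : ℕ) : (φ ^ k).Finite := by
  induction k with
  | zero => exact RingHom.Finite.id A
  | succ k ih =>
    rw [pow_succ]
    exact RingHom.Finite.comp ih hφ

theorem ops_step_CYA {ε Y Z : ℕ → ℚ} {s e : ℚ} (h : ∀ a, Y a = s * (Z (a + 1) + e * Z a))
    (l m i : ℕ) : ops ε Y l m i = s * (ops ε Z l m (i + 1) + e * ops ε Z l m i) := by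
  induction m generalizing l i with
  | zero => exact h i
  | succ m ih =>
    simp only [ops]
    rw [ih, ih]
    ring

theorem Eqv.push {χ χ' : Val A} (h : Eqv χ χ') (Ψ : A →+* A') (hΨ : Ψ.Finite) :
    Eqv (push Ψ χ) (push Ψ χ') := by
  intro M _ _ _
  exact @h M _ (Module.compHom M Ψ) (finite_compHom Ψ hΨ M)

theorem equiv_finite (e : A ≃+* A') : e.toRingHom.Finite :=
  RingHom.Finite.of_surjective _ e.surjective

theorem nul_of_push (e : A ≃+* A') {χ : Val A} (h : Nul (push e.toRingHom χ)) : Nul χ := by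
  intro M _ inst _
  have h1 := @h M _ (Module.compHom M e.symm.toRingHom) (finite_compHom _ (equiv_finite e.symm) M)
  have h2 : (letI := Module.compHom M e.symm.toRingHom; Module.compHom M e.toRingHom) = inst :=
    Module.ext' _ _ fun a x => by
      show e.symm (e a) • x = a • x
      rw [e.symm_apply_apply]
  exact (congrArg (fun I => @Val.val A _ χ M _ I) h2).symm.trans h1

theorem Fam.map (h : Fam φ r Q X) (hφ' : φ'.Finite) (Θ : Val A → Val A') (ρ : ℕ)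
    (hQ : (Q : ℚ) ^ ρ ≠ 0)
    (hlin : ∀ s t χ χ', Eqv (Θ (Val.lin s t χ χ')) (Val.lin s t (Θ χ) (Θ χ')))
    (heqv : ∀ χ χ', Eqv χ χ' → Eqv (Θ χ) (Θ χ')) (hadd : ∀ χ ∈ X, IsAdd (Θ χ) ⊥)
    (hcom : ∀ χ ∈ X, Eqv (Θ (push φ χ)) (Val.lin ((Q : ℚ) ^ ρ) 0 (push φ' (Θ χ)) (Θ χ))) :
    Fam φ' r Q (Θ '' X) := by
  refine ⟨hφ', ?_, ?_, ?_⟩
  · rintro _ ⟨χ, hχ, rfl⟩
    exact hadd χ hχ
  · rintro _ ⟨χ, hχ, rfl⟩
    obtain ⟨χ', hχ', s, hs⟩ := h.st χ hχ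
    refine ⟨Θ χ', ⟨χ', hχ', rfl⟩, s / (Q : ℚ) ^ ρ, fun M _ _ _ => ?_⟩
    have h1 := heqv _ _ hs M
    have h2 := hlin s 0 χ' χ' M
    have h3 := hcom χ hχ M
    rw [h2, h3] at h1
    simp only [Val.lin, zero_mul, add_zero] at h1 ⊢
    field_simp
    linear_combination h1
  · rintro _ ⟨χ, hχ, rfl⟩ ε hε
    obtain ⟨χ', hχ', s, hs⟩ := h.div χ hχ (ε * (Q : ℚ) ^ ρ) (hε.mul ρ)
    refine ⟨Θ χ', ⟨χ', hχ', rfl⟩, s * (Q : ℚ) ^ ρ, fun M _ _ _ => ?_⟩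
    have h1 := heqv _ _ hs M
    have h2 := hlin s (s * (ε * (Q : ℚ) ^ ρ)) (CXD.push φ χ') χ' M
    have h3 := hcom χ' hχ' M
    rw [h2] at h1
    simp only [Val.lin, zero_mul, add_zero] at h1 h3 ⊢
    rw [h1, h3]
    ring

theorem Fam.push (h : Fam φ r Q X) (hφ' : φ'.Finite) (Ψ : A →+* A') (hΨ : Ψ.Finite)
    (hc : Ψ.comp φ = φ'.comp Ψ) : Fam φ' r Q (push Ψ '' X) := by
  refine h.map hφ' (CXD.push Ψ) 0 (by simp) (fun s t χ χ' M _ _ _ => rfl)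
    (fun χ χ' he => he.push Ψ hΨ) (fun χ hχ => isAdd_push Ψ hΨ (h.add χ hχ) bot_le)
    fun χ hχ M _ _ _ => ?_
  rw [push_push, hc, ← push_push]
  simp [Val.lin]

theorem Fs.push (h : Fs φ S X) (hφ' : φ'.Finite) (Ψ : A →+* A') (hΨ : Ψ.Finite)
    (hc : Ψ.comp φ = φ'.comp Ψ) : Fs φ' S (push Ψ '' X) := by
  have e : ∀ χ : Val A, CXD.push Ψ (CXD.push φ χ) = CXD.push φ' (CXD.push Ψ χ) := fun χ => by
    rw [push_push, hc, push_push]
  refine ⟨hφ', ?_, ?_, ?_⟩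
  · rintro _ ⟨χ, hχ, rfl⟩
    exact isAdd_push Ψ hΨ (h.add χ hχ) bot_le
  · rintro _ ⟨χ, hχ, rfl⟩
    obtain ⟨χ', hχ', s, hs⟩ := h.st χ hχ
    exact ⟨_, ⟨χ', hχ', rfl⟩, s, e χ ▸ hs.push Ψ hΨ⟩
  · rintro _ ⟨χ, hχ, rfl⟩ ε hε
    obtain ⟨χ', hχ', s, hs⟩ := h.div χ hχ ε hε
    exact ⟨_, ⟨χ', hχ', rfl⟩, s, e χ' ▸ hs.push Ψ hΨ⟩

theorem Fs.pow (h : Fs φ S X) (j : ℕ) :
    ∀ χ ∈ X, ∃ χ' ∈ X, ∃ s : ℚ, Eqv (CXD.push (φ ^ j) χ) (Val.lin s 0 χ' χ') := by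
  induction j with
  | zero =>
    intro χ hχ
    refine ⟨χ, hχ, 1, fun M _ _ _ => ?_⟩
    simp only [Val.lin, one_mul, zero_mul, add_zero]
    rfl
  | succ j ih =>
    intro χ hχ
    obtain ⟨χ₁, h₁, s₁, e₁⟩ := h.st χ hχ
    obtain ⟨χ₂, h₂, s₂, e₂⟩ := ih χ₁ h₁
    refine ⟨χ₂, h₂, s₁ * s₂, fun M _ _ _ => ?_⟩
    have h3 := e₁.push (φ ^ j) (finite_pow_CYA h.fin j) M
    have h4 := e₂ M
    rw [push_push, push_lin, ← RingHom.mul_def, ← pow_succ] at h3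
    simp only [Val.lin, zero_mul, add_zero] at h3 h4 ⊢
    rw [h3, h4, mul_assoc]

theorem Fs.of_ops (h : Fs φ S X) (hS : S 0) (M : Type) [AddCommGroup M] [Module A M]
    [Module.Finite A M] (ε : ℕ → ℚ) (hε : ∀ j, S (ε j)) (l m i : ℕ)
    (h0 : ∀ χ ∈ X, ops ε (fun j => (CXD.push (φ ^ j) χ).val M) l m i = 0) :
    ∀ χ ∈ X, χ.val M = 0 := by
  have key : ∀ χ ∈ X, ∀ e, S e → ∃ χ' ∈ X, ∃ s : ℚ, ∀ a,
      (CXD.push (φ ^ a) χ).val M =
        s * ((CXD.push (φ ^ (a + 1)) χ').val M + e * (CXD.push (φ ^ a) χ').val M) := by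
    intro χ hχ e he
    obtain ⟨χ', hχ', s, hs⟩ := h.div χ hχ e he
    refine ⟨χ', hχ', s, fun a => ?_⟩
    have h3 := hs.push (φ ^ a) (finite_pow_CYA h.fin a) M
    rw [push_lin, push_push, ← RingHom.mul_def, ← pow_succ] at h3
    simp only [Val.lin] at h3
    rw [h3]
    ring
  induction m generalizing l with
  | zero =>
    induction i with
    | zero => exact h0
    | succ i ih =>
      refine ih fun χ hχ => ?_
      obtain ⟨χ', hχ', s, hs⟩ := key χ hχ 0 hS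
      have h1 : (CXD.push (φ ^ (i + 1)) χ').val M = 0 := h0 χ' hχ'
      show (CXD.push (φ ^ i) χ).val M = 0
      rw [hs, h1]
      ring
  | succ m ih =>
    refine ih (l + 1) fun χ hχ => ?_
    obtain ⟨χ', hχ', s, hs⟩ := key χ hχ (ε l) (hε l)
    have h1 := h0 χ' hχ'
    simp only [ops] at h1
    rw [ops_step_CYA (Z := fun j => (CXD.push (φ ^ j) χ').val M) hs, h1, mul_zero]

theorem Fs.final [IsNoetherianRing A] (h : Fs φ S X) (hS : S 0) (ε : ℕ → ℚ) (hε : ∀ j, S (ε j))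
    (l m i : ℕ) (hrel : ∀ χ ∈ X, ∀ 𝔭 : Ideal A, 𝔭.IsPrime → (∀ j, Van χ (𝔭.comap (φ ^ j))) →
      ops ε (fun j => (CXD.push (φ ^ j) χ).val (A ⧸ 𝔭)) l m i = 0) : ∀ χ ∈ X, Nul χ := by
  have key : ∀ 𝔭 : Ideal A, 𝔭.IsPrime → ∀ χ ∈ X, ∀ j : ℕ,
      χ.val (A ⧸ 𝔭.comap (φ ^ j)) = 0 := by
    intro 𝔭
    induction 𝔭 using IsNoetherian.induction with
    | hgt 𝔭 ih =>
      intro h𝔭
      have hv : ∀ χ ∈ X, ∀ j : ℕ, Van χ (Ideal.comap (φ ^ j) 𝔭) := by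
        intro χ hχ j P hP hlt
        obtain ⟨P', hP', hlt', rfl⟩ := up_CXF (φ ^ j) (finite_pow_CXF h.fin j) 𝔭 P hP hlt
        exact ih P' hlt' hP' χ hχ j
      have h0 := h.of_ops hS (A ⧸ 𝔭) ε hε l m i fun χ hχ => hrel χ hχ 𝔭 h𝔭 (hv χ hχ)
      intro χ hχ j
      obtain ⟨χ', hχ', s, hs⟩ := h.pow j χ hχ
      have h2 := hs (A ⧸ 𝔭)
      simp only [Val.lin, h0 χ' hχ', mul_zero, add_zero] at h2
      obtain ⟨ν, hν, hd⟩ := exists_deg (φ ^ j) (finite_pow_CXF h.fin j) 𝔭 h𝔭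
      rw [hd χ (h.add χ hχ) (hv χ hχ j)] at h2
      exact (mul_eq_zero.1 h2).resolve_left (Nat.cast_ne_zero.2 hν.ne')
  intro χ hχ M _ _ _
  refine val_of_primes (h.add χ hχ) M kill_bot fun P hP _ => ?_
  have h1 := key P hP χ hχ 0
  rwa [pow_zero, RingHom.one_def, Ideal.comap_id] at h1

/-- a polynomial in the push-forward -/
def pvp (φ : A →+* A) (P : Polynomial ℚ) (χ : Val A) : Val A :=
  ⟨fun M _ _ => (Polynomial.basisMonomials ℚ).constr ℚ (fun i => (push (φ ^ i) χ).val M) P⟩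

theorem constr_CYA (a : ℕ → ℚ) (P : Polynomial ℚ) :
    (Polynomial.basisMonomials ℚ).constr ℚ a P = ∑ i ∈ P.support, P.coeff i * a i := by
  conv_lhs => rw [P.as_sum_support, map_sum]
  refine Finset.sum_congr rfl fun i _ => ?_
  have h := (Polynomial.basisMonomials ℚ).constr_basis ℚ a i
  rw [Polynomial.coe_basisMonomials] at h
  rw [← mul_one (P.coeff i), ← smul_eq_mul, ← Polynomial.smul_monomial, map_smul, h, smul_eq_mul,
    smul_eq_mul, mul_one]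

theorem shift_CYA (a : ℕ → ℚ) (j : ℕ) (P : Polynomial ℚ) :
    (Polynomial.basisMonomials ℚ).constr ℚ a (P * Polynomial.X ^ j) =
      (Polynomial.basisMonomials ℚ).constr ℚ (fun i => a (i + j)) P := by
  induction P using Polynomial.induction_on' with
  | add p q hp hq => rw [add_mul, map_add, map_add, hp, hq]
  | monomial n c =>
    have h := (Polynomial.basisMonomials ℚ).constr_basis ℚ a (n + j)
    have h' := (Polynomial.basisMonomials ℚ).constr_basis ℚ (fun i => a (i + j)) n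
    rw [Polynomial.coe_basisMonomials] at h h'
    rw [Polynomial.monomial_mul_X_pow, ← mul_one c, ← smul_eq_mul, ← Polynomial.smul_monomial,
      ← Polynomial.smul_monomial, map_smul, map_smul, h, h']

theorem pvp_val (P : Polynomial ℚ) (χ : Val A) (M : Type) [AddCommGroup M] [Module A M] :
    (pvp φ P χ).val M = ∑ i ∈ P.support, P.coeff i * (push (φ ^ i) χ).val M := constr_CYA _ P

theorem pvp_one (χ : Val A) (M : Type) [AddCommGroup M] [Module A M] :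
    (pvp φ 1 χ).val M = χ.val M := by
  have h := (Polynomial.basisMonomials ℚ).constr_basis ℚ (fun i => (push (φ ^ i) χ).val M) 0
  rw [Polynomial.coe_basisMonomials] at h
  exact h

theorem push_pvp (P : Polynomial ℚ) (χ : Val A) (M : Type) [AddCommGroup M] [Module A M] :
    (push φ (pvp φ P χ)).val M = (pvp φ (P * Polynomial.X) χ).val M := by
  have h := shift_CYA (fun i => (push (φ ^ i) χ).val M) 1 P
  rw [pow_one] at h
  refine Eq.trans ?_ h.symm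
  simp only [pow_succ', RingHom.mul_def, ← push_push]
  rfl

theorem Fam.root {ρ : ℕ} (h : Fam (φ ^ ρ) r Q X) (hφ : φ.Finite) :
    Fs φ (fun ε => Adm r Q (-(-ε) ^ ρ)) {c | ∃ P, ∃ χ ∈ X, c = pvp φ P χ} := by
  refine ⟨hφ, ?_, ?_, ?_⟩
  · rintro _ ⟨P, χ, hχ, rfl⟩ M N L _ _ _ _ _ _ _ f g hf hg he hk
    rw [pvp_val, pvp_val, pvp_val, ← Finset.sum_add_distrib]
    refine Finset.sum_congr rfl fun i _ => ?_
    rw [isAdd_push _ (finite_pow_CYA hφ i) (h.add χ hχ) bot_le M N L f g hf hg he hk, mul_add]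
  · rintro _ ⟨P, χ, hχ, rfl⟩
    refine ⟨_, ⟨P * Polynomial.X, χ, hχ, rfl⟩, 1, fun M _ _ _ => ?_⟩
    simp only [Val.lin, push_pvp, one_mul, zero_mul, add_zero]
  · rintro _ ⟨P, χ, hχ, rfl⟩ ε hε
    obtain ⟨χ', hχ', s, hs⟩ := h.div χ hχ _ hε
    obtain ⟨R, hR⟩ := sub_dvd_pow_sub_pow (Polynomial.X : Polynomial ℚ) (Polynomial.C (-ε)) ρ
    refine ⟨_, ⟨P * R, χ', hχ', rfl⟩, s, fun M _ _ _ => ?_⟩
    have h1 : ∀ i, (CXD.push (φ ^ i) χ).val M = s * (CXD.push (φ ^ (i + ρ)) χ').val M +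
        s * -(-ε) ^ ρ * (CXD.push (φ ^ i) χ').val M := fun i => by
      have h2 := hs.push (φ ^ i) (finite_pow_CYA hφ i) M
      rw [push_lin, push_push, ← RingHom.mul_def, ← pow_add] at h2
      exact h2
    have h3 : P * R * Polynomial.X + ε • (P * R) = P * Polynomial.X ^ ρ - (-ε) ^ ρ • P := by
      rw [Polynomial.smul_eq_C_mul, Polynomial.smul_eq_C_mul, Polynomial.C_pow]
      rw [Polynomial.C_neg] at hR ⊢
      linear_combination (-P) * hR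
    have h4 := congrArg ((Polynomial.basisMonomials ℚ).constr ℚ
      fun i => (CXD.push (φ ^ i) χ').val M) h3
    rw [map_add, map_sub, map_smul, map_smul, shift_CYA, smul_eq_mul, smul_eq_mul] at h4
    simp only [Val.lin, push_pvp]
    change _ = s * (Polynomial.basisMonomials ℚ).constr ℚ _ _ +
      s * ε * (Polynomial.basisMonomials ℚ).constr ℚ _ _
    rw [mul_assoc s, ← mul_add, h4, pvp_val, constr_CYA, constr_CYA, Finset.mul_sum,
      ← Finset.sum_sub_distrib, Finset.mul_sum]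
    refine Finset.sum_congr rfl fun i _ => ?_
    rw [h1]
    ring

end Pool.Agent.CXD
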