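import Pool.Agent.P.MP_2ce3e7_ag.CWC2
import Pool.Agent.P.MP_2ce3e7_ag.CYA

attribute [local instance] Pool.Agent.CXD.instAddCommGroupCp Pool.Agent.CXD.instModuleCp

/-! Divisible families of additive functions on graded modules. -/

set_option linter.unusedSectionVars false
set_option linter.unusedVariables false

open Function LaurentPolynomial

noncomputable section

namespace Pool.Agent.CXD

variable {A A' Γ Γ' : Type} [CommRing A] [CommRing A'] [AddCommGroup Γ] [AddCommGroup Γ']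
  {𝒜 : Γ → Set A} {𝒜' : Γ' → Set A'} {r Q : ℕ}

/-- a family of additive functions that is stable under `T` and on which every `T + ε` is onto,
up to scalars -/
structure FamG (T : GM 𝒜 → GM 𝒜) (r Q : ℕ) (X : Set (GM 𝒜 → ℚ)) : Prop where
  add : ∀ l ∈ X, GAdd l
  st : ∀ l ∈ X, ∃ l' ∈ X, ∃ s : ℚ, ∀ M : GM 𝒜, Module.Finite A M.M → l (T M) = s * l' M
  div : ∀ l ∈ X, ∀ ε, Adm r Q ε → ∃ l' ∈ X, ∃ s : ℚ, ∀ M : GM 𝒜, Module.Finite A M.M →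
    l M = s * l' (T M) + s * ε * l' M

variable {X : Set (GM 𝒜 → ℚ)}

theorem FamG.map {T : GM 𝒜 → GM 𝒜} {T' : GM 𝒜' → GM 𝒜'} (h : FamG T r Q X)
    (Θ : (GM 𝒜 → ℚ) → GM 𝒜' → ℚ)
    (hlin : ∀ l ∈ X, ∀ l₁ ∈ X, ∀ s t : ℚ,
      (∀ M : GM 𝒜, Module.Finite A M.M → l M = s * l₁ (T M) + t * l₁ M) →
      ∀ W : GM 𝒜', Module.Finite A' W.M → Θ l W = s * Θ l₁ (T' W) + t * Θ l₁ W)
    (hst : ∀ l ∈ X, ∀ l₁ ∈ X, ∀ s : ℚ, (∀ M : GM 𝒜, Module.Finite A M.M → l (T M) = s * l₁ M) →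
      ∀ W : GM 𝒜', Module.Finite A' W.M → Θ l (T' W) = s * Θ l₁ W)
    (hadd : ∀ l ∈ X, GAdd (Θ l)) : FamG T' r Q (Θ '' X) := by
  refine ⟨?_, ?_, ?_⟩
  · rintro _ ⟨l, hl, rfl⟩
    exact hadd l hl
  · rintro _ ⟨l, hl, rfl⟩
    obtain ⟨l', hl', s, hs⟩ := h.st l hl
    exact ⟨_, ⟨l', hl', rfl⟩, s, hst l hl l' hl' s hs⟩
  · rintro _ ⟨l, hl, rfl⟩ ε hε
    obtain ⟨l', hl', s, hs⟩ := h.div l hl ε hε
    exact ⟨_, ⟨l', hl', rfl⟩, s, hlin l hl l' hl' s _ hs⟩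

variable [Gd 𝒜] [IsNoetherianRing A]

theorem res_finite {φ : A →+* A} {μ : Γ →+ Γ} (h : Hm φ 𝒜 𝒜 μ) (hφ : φ.Finite) (M : GM 𝒜)
    (hM : Module.Finite A M.M) : Module.Finite A (res h 0 M).M :=
  (isRes_ver h M).elim fun _ hj => hj.finite' hM hφ

/-- passage to a locally closed piece -/
theorem FamG.lau [Gd 𝒜'] [IsNoetherianRing A'] {θ : A →+* A[T;T⁻¹]} {Ψ : A →+* A'}
    {e : Γ ≃+ ℤ × Γ'} (h : Ch θ Ψ 𝒜 𝒜' e) {S : Set A} (hS : Pc (hat θ Ψ) S) {φ : A →+* A}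
    {φ' : A' →+* A'} {μ : Γ →+ Γ} {μ' : Γ' →+ Γ'} (hφ : Hm φ 𝒜 𝒜 μ) (hφ' : Hm φ' 𝒜' 𝒜' μ')
    (hf : φ.Finite) (hf' : φ'.Finite) (hc : Ψ.comp φ = φ'.comp Ψ) {m : ℤ} (hm : m ≠ 0)
    (he : ∀ c, e (μ c) = (m * (e c).1, μ' (e c).2)) (hSφ : ∀ f ∈ S, ∃ m, 0 < m ∧ φ f = f ^ m)
    (hX : FamG (res hφ 0) r Q X) (hv : ∀ l ∈ X, VnG (RingHom.ker (hat θ Ψ)) S l) :
    ∃ L : GM 𝒜' → GM 𝒜,
      (∀ W : GM 𝒜', Module.Finite A' W.M → ∃ j : (L W).M →ₗ[A] (CXD.lau h W).M, LatG S j) ∧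
      FamG (res hφ' 0) r Q ((fun l W => l (L W)) '' X) := by
  classical
  have hex : ∀ W : GM 𝒜', ∃ L : GM 𝒜, Module.Finite A' W.M →
      ∃ j : L.M →ₗ[A] (CXD.lau h W).M, LatG S j := fun W => by
    by_cases hW : Module.Finite A' W.M
    · obtain ⟨L, j, hj⟩ := lau_exists_lat (h := h) hS hW
      exact ⟨L, fun _ => ⟨j, hj⟩⟩
    · exact ⟨CXD.lau h W, fun h' => absurd h' hW⟩
  choose L hL using hex
  have hcom : ∀ l ∈ X, ∀ W : GM 𝒜', Module.Finite A' W.M →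
      l (L (res hφ' 0 W)) = l (res hφ 0 (L W)) := fun l hl W hW => by
    obtain ⟨j, hj⟩ := hL W hW
    obtain ⟨j', hj'⟩ := hL _ (res_finite hφ' hf' W hW)
    obtain ⟨a, ha⟩ := isRes_ver hφ (L W)
    obtain ⟨b, hb⟩ := isRes_ver hφ' W
    obtain ⟨J, hJ⟩ := lau_res h hφ hc hm he hb
    obtain ⟨j'', hj''⟩ := hj.res hf hSφ ha hJ
    exact hj'.val (hX.add l hl) (hv l hl) lau_kill hj''
  have hfin : ∀ W : GM 𝒜', Module.Finite A' W.M → Module.Finite A (L W).M := fun W hW =>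
    (hL W hW).elim fun _ hj => hj.fin
  refine ⟨L, hL, hX.map _ ?_ ?_ ?_⟩
  · intro l hl l₁ hl₁ s t H W hW
    rw [hcom l₁ hl₁ W hW]
    exact H _ (hfin W hW)
  · intro l hl l₁ hl₁ s H W hW
    rw [hcom l hl W hW]
    exact H _ (hfin W hW)
  · intro l hl W₁ W₂ W₃ hW hs
    have hs' := hs
    obtain ⟨f, g, -, -, h1, h2, -⟩ := hs'
    obtain ⟨j₁, hj₁⟩ := hL W₁ (Module.Finite.of_injective f h1)
    obtain ⟨j₂, hj₂⟩ := hL W₂ hW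
    obtain ⟨j₃, hj₃⟩ := hL W₃ (Module.Finite.of_surjective g h2)
    exact LatG.ses (hX.add l hl) (hv l hl) lau_kill hj₁ hj₂ hj₃ (lau_ses h hs)

/-- forget the trivial grading -/
def toVal [Subsingleton Γ] (l : GM 𝒜 → ℚ) : Val A := ⟨fun W _ _ => l (GM.triv 𝒜 W)⟩

theorem FamG.toFam [Subsingleton Γ] {φ : A →+* A} {μ : Γ →+ Γ} (hφ : Hm φ 𝒜 𝒜 μ) (hf : φ.Finite)
    (hX : FamG (res hφ 0) r Q X) : Fam φ r Q (toVal '' X) := by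
  have key : ∀ l ∈ X, ∀ (W : Type) [AddCommGroup W] [Module A W] [Module.Finite A W],
      (push φ (toVal l)).val W = l (res hφ 0 (GM.triv 𝒜 W)) := fun l hl W _ _ hW => by
    obtain ⟨j, hj⟩ := isRes_ver hφ (GM.triv 𝒜 W)
    have h : IsRes φ μ (GM.triv 𝒜 (Cp φ W)) (GM.triv 𝒜 W) (AddMonoidHom.id W) :=
      ⟨injective_id, fun _ _ => rfl, fun _ _ => rfl, fun _ x => ⟨x, rfl⟩⟩
    exact h.val (hX.add l hl) hj (res_finite hφ hf _ hW)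
  refine ⟨hf, ?_, ?_, ?_⟩
  · rintro _ ⟨l, hl, rfl⟩ M N P _ _ _ _ _ _ hN f g h1 h2 h3 -
    exact hX.add l hl (GM.triv 𝒜 M) (GM.triv 𝒜 N) (GM.triv 𝒜 P) hN
      ⟨f, g, isG_of_subsingleton _, isG_of_subsingleton _, h1, h2, h3⟩
  · rintro _ ⟨l, hl, rfl⟩
    obtain ⟨l', hl', s, hs⟩ := hX.st l hl
    refine ⟨_, ⟨l', hl', rfl⟩, s, fun W _ _ hW => ?_⟩
    rw [key l hl, hs _ hW]
    simp [Val.lin, toVal]
  · rintro _ ⟨l, hl, rfl⟩ ε hε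
    obtain ⟨l', hl', s, hs⟩ := hX.div l hl ε hε
    refine ⟨_, ⟨l', hl', rfl⟩, s, fun W _ _ hW => ?_⟩
    change l (GM.triv 𝒜 W) = s * (push φ (toVal l')).val W + s * ε * l' (GM.triv 𝒜 W)
    rw [key l' hl', hs _ hW]

end Pool.Agent.CXD
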