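import Pool.Agent.P.MP_2ce3e7_ag.CWC

/-! Functoriality of Laurent modules. -/

set_option linter.unusedSectionVars false
set_option linter.unusedVariables false

open Function LaurentPolynomial

noncomputable section

namespace Pool.Agent.CXD

variable {A A' Γ Γ' : Type} [CommRing A] [CommRing A'] [AddCommGroup Γ] [AddCommGroup Γ']
  {𝒜 : Γ → Set A} {𝒜' : Γ' → Set A'} {θ : A →+* A[T;T⁻¹]} {Ψ : A →+* A'} {e : Γ ≃+ ℤ × Γ'}
  [Gd 𝒜] (h : Ch θ Ψ 𝒜 𝒜' e) {W W₂ W₃ : GM 𝒜'}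

theorem lau_ind_CWC2 {p : (lau h W).M → Prop} (h0 : p 0) (h1 : ∀ i w, p (lsg h W i w))
    (h2 : ∀ x y, p x → p y → p (x + y)) (x : (lau h W).M) : p x :=
  lau_ind h0 (fun i _ w _ => h1 i w) h2 x

theorem lau_glue_CWC2 (y : (lau h W₂).M) (u : ℤ → W.M) (hu : ∀ i, lev' h W₂ i y = 0 → u i = 0) :
    ∃ x : (lau h W).M, ∀ i, lev' h W i x = u i :=
  ⟨Finsupp.onFinset (Finsupp.support (α := ℤ) (M := W₂.M) y) u fun i hi =>
    Finsupp.mem_support_iff.2 fun h0 => hi (hu i h0), fun _ => rfl⟩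

theorem lau_map {f : W.M →ₗ[A'] W₂.M} (hf : IsG f) :
    ∃ F : (lau h W).M →ₗ[A] (lau h W₂).M, IsG F ∧ (∀ i w, F (lsg h W i w) = lsg h W₂ i (f w)) ∧
      ∀ i x, lev' h W₂ i (F x) = f (lev' h W i x) := by
  obtain ⟨g, hg⟩ := lau_lift (h := h) (W := W) fun i => (lsg h W₂ i).comp f.toAddMonoidHom
  have hg' : ∀ i w, g (lsg h W i w) = lsg h W₂ i (f w) := hg
  have hs : ∀ (a : A) x, g (a • x) = a • g x := by
    intro a
    induction a using Gd.ind 𝒜 with
    | h0 => intro x; rw [zero_smul, zero_smul, map_zero]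
    | h1 c a ha =>
      intro x
      induction x using lau_ind_CWC2 h with
      | h0 => rw [smul_zero, map_zero, smul_zero]
      | h1 i w => rw [smul_lsg (mem_cl ha), hg', hg', smul_lsg (mem_cl ha), map_smul]
      | h2 x y hx hy => rw [smul_add, map_add, map_add, smul_add, hx, hy]
    | h2 a b ha hb => intro x; rw [add_smul, add_smul, map_add, ha, hb]
    | h3 a ha => intro x; rw [neg_smul, neg_smul, map_neg, ha]
  have hl : ∀ i x, lev' h W₂ i (g x) = f (lev' h W i x) := by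
    intro i x
    induction x using lau_ind_CWC2 h with
    | h0 => simp only [map_zero]
    | h1 k w =>
      rw [hg']
      by_cases hik : i = k
      · rw [hik, lev_lsg, lev_lsg]
      · rw [lev_lsg_ne hik, lev_lsg_ne hik, map_zero]
    | h2 x y hx hy => simp only [map_add, hx, hy]
  refine ⟨{ toFun := g, map_add' := g.map_add, map_smul' := hs }, fun d x => ?_, hg', hl⟩
  change g ((lau h W).π d x) = (lau h W₂).π d (g x)
  rw [lau_π, lau_π, hg', hl, hf]

theorem lau_ses (hs : Ses W W₂ W₃) : Ses (lau h W) (lau h W₂) (lau h W₃) := by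
  obtain ⟨f, g, hf, hg, hi, hsur, hex⟩ := hs
  obtain ⟨F, hF, hF1, hF2⟩ := lau_map h hf
  obtain ⟨G, hG, hG1, hG2⟩ := lau_map h hg
  refine ⟨F, G, hF, hG, fun x y hxy => lau_ext fun i => hi ?_, fun y => ?_, fun y => ⟨?_, ?_⟩⟩
  · rw [← hF2, ← hF2, hxy]
  · induction y using lau_ind_CWC2 h with
    | h0 => exact ⟨0, map_zero _⟩
    | h1 i w =>
      obtain ⟨v, rfl⟩ := hsur w
      exact ⟨_, hG1 i v⟩
    | h2 x y hx hy =>
      obtain ⟨a, rfl⟩ := hx
      obtain ⟨b, rfl⟩ := hy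
      exact ⟨a + b, map_add _ _ _⟩
  · intro hy
    have h1 : ∀ i, ∃ u, f u = lev' h W₂ i y := fun i => (hex _).1 (by rw [← hG2, hy, map_zero])
    choose u hu using h1
    obtain ⟨x, hx⟩ := lau_glue_CWC2 h y u fun i h0 => hi (by rw [hu, h0, map_zero])
    exact ⟨x, lau_ext fun i => by rw [hF2, hx, hu]⟩
  · rintro ⟨x, rfl⟩
    exact lau_ext fun i => by rw [hG2, hF2, map_zero, hex.apply_apply_eq_zero]

theorem lau_nil {S : Set A} {S' : Set A'} (hW : Nil S' W.M)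
    (hS : ∀ f ∈ S, (∃ c, f ∈ cl 𝒜 c) ∧ Ψ f ∈ S') : Nil S (lau h W).M := by
  intro f hf x
  obtain ⟨⟨c, hc⟩, hf'⟩ := hS f hf
  induction x using lau_ind_CWC2 h with
  | h0 => exact ⟨0, smul_zero _⟩
  | h1 i w =>
    obtain ⟨m, hm⟩ := hW _ hf' w
    exact ⟨m, by rw [smul_lsg (cl_pow hc m), map_pow, hm, map_zero]⟩
  | h2 x y hx hy =>
    obtain ⟨a, ha⟩ := hx
    obtain ⟨b, hb⟩ := hy
    refine ⟨a + b, ?_⟩
    rw [smul_add, pow_add, mul_smul (f ^ a) (f ^ b) y, hb, smul_zero, add_zero, mul_comm, mul_smul,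
      ha, smul_zero]

theorem lau_res {φ : A →+* A} {φ' : A' →+* A'} {μ : Γ →+ Γ} {μ' : Γ' →+ Γ'} (hφ : Hm φ 𝒜 𝒜 μ)
    (hc : Ψ.comp φ = φ'.comp Ψ) {m : ℤ} (hm : m ≠ 0)
    (he : ∀ c, e (μ c) = (m * (e c).1, μ' (e c).2)) {R : GM 𝒜'} {j : R.M →+ W.M}
    (hj : IsRes φ' μ' R W j) :
    ∃ J : (lau h R).M →+ (lau h W).M, IsRes φ μ (lau h R) (lau h W) J := by
  obtain ⟨J, hJ⟩ := lau_lift (h := h) (W := R) fun i => (lsg h W (m * i)).comp j
  have hJ' : ∀ i w, J (lsg h R i w) = lsg h W (m * i) (j w) := hJ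
  have hl : ∀ i x, lev' h W (m * i) (J x) = j (lev' h R i x) := by
    intro i x
    induction x using lau_ind_CWC2 h with
    | h0 => simp only [map_zero]
    | h1 k w =>
      rw [hJ']
      by_cases hik : i = k
      · rw [hik, lev_lsg, lev_lsg]
      · rw [lev_lsg_ne hik, lev_lsg_ne fun h0 => hik (mul_left_cancel₀ hm h0), map_zero]
    | h2 x y hx hy => simp only [map_add, hx, hy]
  refine ⟨J, fun x y hxy => lau_ext fun i => hj.inj ?_, fun a => ?_, fun c y => ?_, fun c x => ?_⟩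
  · rw [← hl, ← hl, hxy]
  · induction a using Gd.ind 𝒜 with
    | h0 => intro x; rw [zero_smul, map_zero, map_zero, zero_smul]
    | h1 c a ha =>
      intro x
      induction x using lau_ind_CWC2 h with
      | h0 => rw [smul_zero, map_zero, smul_zero]
      | h1 i w =>
        have h1 : Ψ (φ a) = φ' (Ψ a) := RingHom.congr_fun hc a
        rw [smul_lsg (mem_cl ha), hJ', hJ', smul_lsg (hφ.mem c a ha), hj.smul, he, h1, mul_add]
      | h2 x y hx hy => rw [smul_add, map_add, map_add, smul_add, hx, hy]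
    | h2 a b ha hb => intro x; rw [add_smul, map_add, map_add, add_smul, ha, hb]
    | h3 a ha => intro x; rw [neg_smul, map_neg, map_neg, neg_smul, ha]
  · rw [lau_π, lau_π, hJ', he, hl, hj.π]
  · obtain ⟨y, hy⟩ := hj.sur (e c).2 (lev' h W (m * (e c).1) x)
    exact ⟨lsg h R (e c).1 y, by rw [hJ', lau_π, he, hy]⟩

end Pool.Agent.CXD
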