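import Pool.Agent.P.MP_2ce3e7_ag.CWJ
import Pool.Agent.P.MP_2ce3e7_ag.CWC2

/-! Standard graded algebras and their tensor products. -/

set_option linter.unusedSectionVars false
set_option linter.unusedVariables false

open Function LaurentPolynomial
open scoped TensorProduct

noncomputable section

namespace Pool.Agent.CXD

/-- degrees for one chart -/
def e1 : ℤ ≃+ ℤ × Unit where
  toFun c := (c, ())
  invFun c := c.1
  map_add' _ _ := rfl

/-- degrees for a chart of the first factor -/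
def eL (Γ : Type) [AddCommGroup Γ] : ℤ × Γ ≃+ ℤ × Unit × Γ where
  toFun c := (c.1, (), c.2)
  invFun c := (c.1, c.2.2)
  map_add' _ _ := rfl

/-- degrees for a chart of the second factor -/
def eR (Γ : Type) [AddCommGroup Γ] : Γ × ℤ ≃+ ℤ × Γ × Unit where
  toFun c := (c.2, c.1, ())
  invFun c := (c.2.1, c.1)
  map_add' _ _ := rfl

/-- degrees for the diagonal -/
def eD : ℤ × ℤ ≃+ ℤ × ℤ where
  toFun c := (c.1, c.1 + c.2)
  invFun c := (c.1, c.2 - c.1)
  left_inv c := by simp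
  right_inv c := by simp
  map_add' _ _ := Prod.ext rfl (add_add_add_comm _ _ _ _)

variable {k A B K σ Γ : Type} [Field k] [CommRing A] [Algebra k A] [CommRing B] [Algebra k B]
  [CommRing K] [Algebra k K] [Fintype σ] [AddCommGroup Γ]

/-- a graded algebra generated by elements `z i` of degree one -/
structure Std (𝒜 : ℤ → Set A) (z : σ → A) (θ : A →ₐ[k] A[T;T⁻¹]) : Prop where
  deg : ∀ i, z i ∈ 𝒜 1
  neg : ∀ c < 0, ∀ a, a ∉ 𝒜 c
  zero : ∀ a ∈ 𝒜 0, ∃ c : k, algebraMap k A c = a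
  succ : ∀ c, 0 ≤ c → ∀ a ∈ 𝒜 (c + 1), ∃ b : σ → A, (∀ i, b i ∈ 𝒜 c) ∧ a = ∑ i, z i * b i
  co : ∀ c, ∀ a ∈ 𝒜 c, θ a = C a * T c

/-- the grading of the first factor -/
def thL (θ : A →ₐ[k] A[T;T⁻¹]) (B : Type) [CommRing B] [Algebra k B] :
    A ⊗[k] B →+* (A ⊗[k] B)[T;T⁻¹] :=
  (Algebra.TensorProduct.productMap
    ((AddMonoidAlgebra.mapAlgHom ℤ Algebra.TensorProduct.includeLeft).comp θ)
    (AddMonoidAlgebra.singleZeroAlgHom.comp Algebra.TensorProduct.includeRight)).toRingHom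

/-- the grading of the second factor -/
def thR (K : Type) [CommRing K] [Algebra k K] (θ : A →ₐ[k] A[T;T⁻¹]) :
    K ⊗[k] A →+* (K ⊗[k] A)[T;T⁻¹] :=
  (Algebra.TensorProduct.productMap
    (AddMonoidAlgebra.singleZeroAlgHom.comp Algebra.TensorProduct.includeLeft)
    ((AddMonoidAlgebra.mapAlgHom ℤ Algebra.TensorProduct.includeRight).comp θ)).toRingHom

/-- the base change of an algebra map on the first factor -/
def mq (ψ : A →ₐ[k] K) (B : Type) [CommRing B] [Algebra k B] : A ⊗[k] B →+* K ⊗[k] B :=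
  (Algebra.TensorProduct.map ψ (AlgHom.id k B)).toRingHom

/-- the multiplication -/
def mlt (k A : Type) [Field k] [CommRing A] [Algebra k A] : A ⊗[k] A →+* A :=
  (Algebra.TensorProduct.lmul' k : A ⊗[k] A →ₐ[k] A).toRingHom

variable {𝒜 : ℤ → Set A} {z : σ → A} {θ : A →ₐ[k] A[T;T⁻¹]}

theorem thL_tmul (a : A) (b : B) : thL θ B (a ⊗ₜ b) =
    AddMonoidAlgebra.mapRingHom ℤ (inl k A B) (θ a) * C (inr k A B b) := rfl

theorem thR_tmul (b : K) (a : A) : thR K θ (b ⊗ₜ a) =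
    C (inl k K A b) * AddMonoidAlgebra.mapRingHom ℤ (inr k K A) (θ a) := rfl

theorem mq_tmul (ψ : A →ₐ[k] K) (a : A) (b : B) : mq ψ B (a ⊗ₜ b) = ψ a ⊗ₜ b := rfl

theorem mlt_tmul (a b : A) : mlt k A (a ⊗ₜ b) = a * b := rfl

theorem Std.ch (h : Std 𝒜 z θ) (ψ : A →ₐ[k] K) : Ch θ.toRingHom ψ.toRingHom 𝒜 (tv K) e1 :=
  ⟨h.co, fun _ _ _ => mem_tv _ _⟩

theorem Std.chL (h : Std 𝒜 z θ) (ψ : A →ₐ[k] K) (ℬ : Γ → Set B) :
    Ch (thL θ B) (mq ψ B) (tg k 𝒜 ℬ) (tg k (tv K) ℬ) (eL Γ) := by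
  refine ⟨?_, ?_⟩
  · rintro c x ⟨a, ha, b, hb, rfl⟩
    have e : (a ⊗ₜ[k] b : A ⊗[k] B) = inl k A B a * inr k A B b := by
      change _ = (a ⊗ₜ[k] (1 : B)) * ((1 : A) ⊗ₜ[k] b)
      rw [Algebra.TensorProduct.tmul_mul_tmul, mul_one, one_mul]
    rw [thL_tmul, h.co _ a ha, map_C_mul_T, e, map_mul]
    change _ = _ * T c.1
    ring
  · rintro c x ⟨a, ha, b, hb, rfl⟩
    exact mem_cl ⟨ψ a, trivial, b, hb, rfl⟩

theorem Std.chR (h : Std 𝒜 z θ) (ψ : A →ₐ[k] B) (𝒦 : Γ → Set K) :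
    Ch (thR K θ) (mp K ψ) (tg k 𝒦 𝒜) (tg k 𝒦 (tv B)) (eR Γ) := by
  refine ⟨?_, ?_⟩
  · rintro c x ⟨b, hb, a, ha, rfl⟩
    have e : (b ⊗ₜ[k] a : K ⊗[k] A) = inl k K A b * inr k K A a := by
      change _ = (b ⊗ₜ[k] (1 : A)) * ((1 : K) ⊗ₜ[k] a)
      rw [Algebra.TensorProduct.tmul_mul_tmul, mul_one, one_mul]
    rw [thR_tmul, h.co _ a ha, map_C_mul_T, e, map_mul]
    change _ = _ * T c.2
    ring
  · rintro c x ⟨b, hb, a, ha, rfl⟩
    exact mem_cl ⟨b, hb, ψ a, trivial, rfl⟩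

theorem Std.chD [Gd 𝒜] (h : Std 𝒜 z θ) : Ch (thL θ A) (mlt k A) (tg k 𝒜 𝒜) 𝒜 eD := by
  refine ⟨?_, ?_⟩
  · rintro c x ⟨a, ha, b, hb, rfl⟩
    have e : (a ⊗ₜ[k] b : A ⊗[k] A) = inl k A A a * inr k A A b := by
      change _ = (a ⊗ₜ[k] (1 : A)) * ((1 : A) ⊗ₜ[k] b)
      rw [Algebra.TensorProduct.tmul_mul_tmul, mul_one, one_mul]
    rw [thL_tmul, h.co _ a ha, map_C_mul_T, e, map_mul]
    change _ = _ * T c.1
    ring
  · rintro c x ⟨a, ha, b, hb, rfl⟩
    exact mem_cl (Gd.mul _ _ a ha b hb)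

theorem Std.mem_pow (h : Std 𝒜 z θ) (n : ℕ) {c : ℤ} (hc : (n : ℤ) ≤ c) {a : A} (ha : a ∈ 𝒜 c) :
    a ∈ Ideal.span (Set.range z) ^ n := by
  induction n generalizing c a with
  | zero => simp
  | succ n ih =>
    have h0 : 0 ≤ c - 1 := by omega
    obtain ⟨b, hb, rfl⟩ := h.succ (c - 1) h0 a (by rwa [sub_add_cancel])
    rw [pow_succ']
    refine Ideal.sum_mem _ fun i _ => Ideal.mul_mem_mul (Ideal.subset_span ⟨i, rfl⟩) ?_
    exact ih (by omega) (hb i)

theorem Std.fin_piece (h : Std 𝒜 z θ) (c : ℤ) :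
    ∃ (ι : Type) (_ : Fintype ι) (E : ι → A), ∀ a ∈ 𝒜 c, ∃ b : ι → k, a = ∑ i, b i • E i := by
  rcases lt_or_ge c 0 with hc | hc
  · exact ⟨Empty, inferInstance, fun x => x.elim, fun a ha => absurd ha (h.neg c hc a)⟩
  · induction c, hc using Int.leInduction with
    | base =>
      refine ⟨Unit, inferInstance, fun _ => 1, fun a ha => ?_⟩
      obtain ⟨c, rfl⟩ := h.zero a ha
      exact ⟨fun _ => c, by simp [Algebra.algebraMap_eq_smul_one]⟩
    | succ c hc ih =>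
      obtain ⟨ι, _, E, hE⟩ := ih
      refine ⟨σ × ι, inferInstance, fun p => z p.1 * E p.2, fun a ha => ?_⟩
      obtain ⟨b, hb, rfl⟩ := h.succ c hc a ha
      choose β hβ using fun i => hE (b i) (hb i)
      refine ⟨fun p => β p.1 p.2, ?_⟩
      rw [Fintype.sum_prod_type]
      refine Finset.sum_congr rfl fun i _ => ?_
      rw [hβ i, Finset.mul_sum]
      exact Finset.sum_congr rfl fun j _ => mul_smul_comm _ _ _

theorem Std.finiteType [Gd 𝒜] (h : Std 𝒜 z θ) : Algebra.FiniteType k A := by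
  have key : ∀ c, ∀ a ∈ 𝒜 c, a ∈ Algebra.adjoin k (Set.range z) := by
    intro c
    rcases lt_or_ge c 0 with hc | hc
    · exact fun a ha => absurd ha (h.neg c hc a)
    · induction c, hc using Int.leInduction with
      | base =>
        intro a ha
        obtain ⟨c, rfl⟩ := h.zero a ha
        exact Subalgebra.algebraMap_mem _ c
      | succ c hc ih =>
        intro a ha
        obtain ⟨b, hb, rfl⟩ := h.succ c hc a ha
        exact Subalgebra.sum_mem _ fun i _ =>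
          Subalgebra.mul_mem _ (Algebra.subset_adjoin ⟨i, rfl⟩) (ih _ (hb i))
  refine ⟨Subalgebra.fg_def.2 ⟨Set.range z, Set.finite_range z, eq_top_iff.2 fun a _ => ?_⟩⟩
  exact Gd.ind 𝒜 (p := fun a => a ∈ Algebra.adjoin k (Set.range z)) (zero_mem _) key
    (fun _ _ => add_mem) (fun _ => neg_mem) a

theorem Std.hom_ext [Gd 𝒜] (h : Std 𝒜 z θ) {L : Type} [CommRing L] {α β : A →+* L} {t : Lˣ}
    (h0 : ∀ c : k, α (algebraMap k A c) = β (algebraMap k A c)) (h1 : ∀ i, α (z i) = β (z i) * t) :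
    ∀ c, ∀ a ∈ 𝒜 c, α a = β a * (t ^ c : Lˣ) := by
  intro c
  rcases lt_or_ge c 0 with hc | hc
  · exact fun a ha => absurd ha (h.neg c hc a)
  · induction c, hc using Int.leInduction with
    | base =>
      intro a ha
      obtain ⟨c, rfl⟩ := h.zero a ha
      rw [h0, zpow_zero, Units.val_one, mul_one]
    | succ c hc ih =>
      intro a ha
      obtain ⟨b, hb, rfl⟩ := h.succ c hc a ha
      rw [map_sum, map_sum, Finset.sum_mul]
      refine Finset.sum_congr rfl fun i _ => ?_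
      rw [map_mul, map_mul, h1, ih _ (hb i), zpow_add_one, Units.val_mul]
      ring

theorem exists_quot_cyc {A' Γ' : Type} [CommRing A'] [AddCommGroup Γ'] [Subsingleton Γ']
    {𝒜 : Γ → Set A} [Gd 𝒜] {𝒜' : Γ' → Set A'} {θ : A →+* A[T;T⁻¹]} {Ψ : A →+* A'}
    {e : Γ ≃+ ℤ × Γ'} (h : Ch θ Ψ 𝒜 𝒜' e) {H : Set A} (hH : ∀ a ∈ H, ∃ c, a ∈ cl 𝒜 c) :
    ∃ (W : GM 𝒜) (w : W.M), W.π 0 w = w ∧ Submodule.span A {w} = ⊤ ∧
      ∀ y : A, y • w = 0 ↔ y ∈ Ideal.span H := by
  classical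
  let p : Γ → A →+ A := fun γ => (Finsupp.applyAddHom (e γ).1).comp
    ((AddMonoidAlgebra.coeffAddEquiv (R := A) (M := ℤ)).toAddMonoidHom.comp θ.toAddMonoidHom)
  have hp0 : ∀ γ c, ∀ a ∈ 𝒜 c, p γ a = if γ = c then a else 0 := by
    intro γ c a ha
    have e1 : p γ a = (θ a).coeff (e γ).1 := rfl
    rw [e1, h.co c a ha, ← single_eq_C_mul_T, AddMonoidAlgebra.coeff_single, Finsupp.single_apply]
    refine if_congr ⟨fun h1 => ?_, fun h1 => by rw [h1]⟩ rfl rfl
    exact e.injective (Prod.ext h1.symm (Subsingleton.elim _ _))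
  have hp : ∀ γ c, ∀ a ∈ cl 𝒜 c, p γ a = if γ = c then a else 0 := by
    intro γ c a ha
    induction ha using AddSubgroup.closure_induction with
    | mem a ha => exact hp0 γ c a ha
    | zero => simp
    | add a b _ _ ha hb =>
      rw [map_add, ha, hb]
      split_ifs <;> simp
    | neg a _ ha =>
      rw [map_neg, ha]
      split_ifs <;> simp
  have hd : ∀ a : A, ∃ b : Γ →₀ A, (∀ c, b c ∈ cl 𝒜 c) ∧ ∑ c ∈ b.support, b c = a ∧
      ∀ d, p d a = b d := by
    intro a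
    obtain ⟨b, hb, hs⟩ := Gd.dec 𝒜 a
    refine ⟨b, hb, hs, fun d => ?_⟩
    rw [← hs, map_sum, Finset.sum_congr rfl fun c _ => hp d c _ (hb c), Finset.sum_ite_eq]
    split_ifs with h1
    · rfl
    · exact (Finsupp.notMem_support_iff.1 h1).symm
  let W : GM 𝒜 :=
    { M := A
      π := p
      π_self := fun d x => by
        obtain ⟨b, hb, -, h1⟩ := hd x
        rw [h1, hp d d _ (hb d), if_pos rfl]
      π_ne := fun d d' x hne => by
        obtain ⟨b, hb, -, h1⟩ := hd x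
        rw [h1, hp d d' _ (hb d'), if_neg hne]
      sum_π := fun x => by
        obtain ⟨b, hb, hs, h1⟩ := hd x
        exact ⟨b.support, (Finset.sum_congr rfl fun c _ => h1 c).trans hs⟩
      π_smul := fun c d a ha x => by
        refine Gd.ind 𝒜 (p := fun x => p (c + d) (a • x) = a • p d x) (by simp) ?_ ?_ ?_ x
        · intro c' y hy
          rw [smul_eq_mul, smul_eq_mul, hp0 _ _ _ (Gd.mul _ _ a ha y hy), hp0 _ _ _ hy]
          by_cases h1 : d = c'
          · rw [if_pos h1, if_pos (by rw [h1])]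
          · rw [if_neg h1, if_neg fun h2 => h1 (add_left_cancel h2), mul_zero]
        · intro y y' hy hy'
          rw [smul_add, map_add, map_add, smul_add, hy, hy']
        · intro y hy
          rw [smul_neg, map_neg, map_neg, smul_neg, hy] }
  have hst : St W (Submodule.span A H) := st_span (M := W) fun x hx => by
    obtain ⟨c, hc⟩ := hH x hx
    exact ⟨c, (hp c c x hc).trans (if_pos rfl)⟩
  refine ⟨W.quo _ hst, (Submodule.span A H).mkQ (1 : A), ?_, ?_, fun y => ?_⟩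
  · exact congrArg (Submodule.span A H).mkQ ((hp0 0 0 1 Gd.one).trans (if_pos rfl))
  · refine eq_top_iff.2 fun x _ => ?_
    obtain ⟨y, rfl⟩ := (Submodule.span A H).mkQ_surjective x
    refine Submodule.mem_span_singleton.2 ⟨y, ?_⟩
    exact ((Submodule.span A H).mkQ.map_smul y 1).symm.trans
      (congrArg (Submodule.span A H).mkQ (mul_one y))
  · have e1 : y • (Submodule.span A H).mkQ (1 : A) = (Submodule.span A H).mkQ y :=
      ((Submodule.span A H).mkQ.map_smul y 1).symm.trans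
        (congrArg (Submodule.span A H).mkQ (mul_one y))
    exact (Eq.congr_left e1).trans (Submodule.Quotient.mk_eq_zero _)

end Pool.Agent.CXD
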