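import Pool.Agent.P.MP_2ce3e7_ag.CWM
import Pool.Agent.P.MP_2ce3e7_ag.CWN
import Pool.Agent.P.MP_2ce3e7_ag.CWF2
import Pool.Agent.P.MP_2ce3e7_ag.CWE

/-! The eigenvalues of the Frobenius map on the Grothendieck group are positive. -/

set_option linter.unusedSectionVars false
set_option linter.unusedVariables false

open Function LaurentPolynomial

noncomputable section

namespace Pool.Agent.CXD

variable {k A σ : Type} [Field k] [Fintype k] [CommRing A] [Algebra k A] [Fintype σ]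
  {𝒜 : ℤ → Set A} {z : σ → A} {θ : A →ₐ[k] A[T;T⁻¹]} [Gd 𝒜] [IsNoetherianRing A]

variable (k) in
theorem exists_frp : ∃ e, 0 < e ∧ (ringChar k).Prime ∧ Fintype.card k = ringChar k ^ e ∧
    ∀ (R : Type) [CommRing R] [Algebra k R], ∃ φ : R →+* R, ∀ a, φ a = a ^ ringChar k := by
  obtain ⟨e, hp, he⟩ := FiniteField.card k (ringChar k)
  refine ⟨e, e.2, hp, he, fun R _ _ => ?_⟩
  rcases subsingleton_or_nontrivial R with hR | hR
  · exact ⟨RingHom.id R, fun t => Subsingleton.elim _ _⟩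
  · have hc : CharP R (ringChar k) := charP_of_injective_algebraMap (algebraMap k R).injective _
    have : Fact (ringChar k).Prime := ⟨hp⟩
    exact ⟨frobenius R (ringChar k), fun _ => rfl⟩

omit [IsNoetherianRing A] in
theorem hm_pw {φ : A →+* A} {n : ℕ} (hp : ∀ a, φ a = a ^ n) (hn : 0 < n) :
    Hm φ 𝒜 𝒜 (n • AddMonoidHom.id ℤ) :=
  ⟨fun d e h => mul_left_cancel₀ (a := (n : ℤ)) (by exact_mod_cast hn.ne') (by simpa using h),
    fun c b hb => hp b ▸ cl_pow (mem_cl hb) n⟩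

theorem pow_pw {R : Type} [CommRing R] {φ : R →+* R} {n : ℕ} (hp : ∀ a, φ a = a ^ n) (i : ℕ)
    (a : R) : (φ ^ i) a = a ^ n ^ i := by
  induction i with
  | zero => rw [pow_zero, pow_zero, pow_one]; rfl
  | succ i ih => rw [pow_succ', RingHom.mul_def, RingHom.comp_apply, ih, hp, ← pow_mul, pow_succ]

section
variable {φ : A →+* A} {n : ℕ} (hφ : Hm φ 𝒜 𝒜 (n • AddMonoidHom.id ℤ)) (hp : ∀ a, φ a = a ^ n)
  (hn : 0 < n)
include hp hn

theorem res_nil_pw {S : Set A} {M : GM 𝒜} (h : Nil S M.M) : Nil S (res hφ 0 M).M :=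
  (isRes_ver hφ M).elim fun _ hj => hj.nil h fun f hf => ⟨f, hf, n, hp f, hn⟩

omit hp hn in
theorem gadd_ucl_CWM2 {S : Set A} (lam : UG 𝒜 S →ₗ[ℚ] ℚ) : GAdd fun M : GM 𝒜 => lam (ucl S M) :=
  fun M N P hN hs => by
    change lam (ucl S N) = lam (ucl S M) + lam (ucl S P)
    rw [ucl_ses hN hs, map_add]

theorem Std.ver_pw (h : Std 𝒜 z θ) {C : GM 𝒜} {P : Ideal A} (hP : P.IsPrime) (hC : Cyc C P)
    {i : σ} (hi : z i ∉ P) :
    Nil (P : Set A) (res hφ 0 C).M ∧ Module.annihilator A (res hφ 0 C).M ≤ P := by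
  refine ⟨res_nil_pw hφ hp hn (hC.nil fun f hf => hf), fun a ha => ?_⟩
  obtain ⟨j, hj⟩ := isRes_ver hφ C
  obtain ⟨d, x, hx, -, hann⟩ := hC
  have hQ : (n : ℤ) ≠ 0 := by exact_mod_cast hn.ne'
  obtain ⟨m, hm⟩ : ∃ m : ℕ, (m : ℤ) = (-d) % (n : ℤ) :=
    ⟨_, Int.toNat_of_nonneg (Int.emod_nonneg _ hQ)⟩
  have hdeg : (n • AddMonoidHom.id ℤ) (-((-d) / (n : ℤ))) = m • (1 : ℤ) + d := by
    have h1 := Int.emod_add_mul_ediv (-d) (n : ℤ)
    simp only [AddMonoidHom.smul_apply, AddMonoidHom.id_apply, nsmul_eq_mul, mul_one, hm]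
    linarith
  obtain ⟨y, hy⟩ := hj.sur (-((-d) / (n : ℤ))) (z i ^ m • x)
  rw [hdeg, GM.hom_smul (cl_pow (mem_cl (h.deg i)) m) hx] at hy
  have h2 := hj.smul a y
  rw [Module.mem_annihilator.1 ha y, map_zero, hy, smul_smul] at h2
  rcases hP.mem_or_mem ((hann _).1 h2.symm) with h3 | h3
  · exact hP.mem_of_pow_mem n (hp a ▸ h3)
  · exact absurd (hP.mem_of_pow_mem m h3) hi

theorem exists_pwT (hf : φ.Finite) (S : Set A) : ∃ T : Module.End ℚ (UG 𝒜 S),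
    ∀ M : GM 𝒜, Module.Finite A M.M → T (ucl _ M) = ucl _ (res hφ 0 M) := by
  refine exists_ulin (fun M => ucl S (res hφ 0 M)) (fun M N P hN hs => ?_)
    fun M _ h => ucl_nil (res_nil_pw hφ hp hn h)
  obtain ⟨j₁, h₁⟩ := isRes_ver hφ M
  obtain ⟨j₂, h₂⟩ := isRes_ver hφ N
  obtain ⟨j₃, h₃⟩ := isRes_ver hφ P
  exact ucl_ses (res_finite hφ hf N hN) (h₁.ses h₂ h₃ hs)

omit hp hn in
theorem ucl_ind {S : Set A} {F : Submodule ℚ (UG 𝒜 S)}
    (h : ∀ M : GM 𝒜, Module.Finite A M.M → ucl S M ∈ F) (u : UG 𝒜 S) : u ∈ F := by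
  have hu : u ∈ (⊤ : Submodule ℚ (UG 𝒜 S)) := trivial
  rw [← span_ucl] at hu
  refine Submodule.span_le.2 ?_ hu
  rintro _ ⟨M, hM, rfl⟩
  exact h M hM

theorem Std.pos_pw (h : Std 𝒜 z θ) (hf : φ.Finite) {T : Module.End ℚ (UG 𝒜 (Set.range z))}
    (hT : ∀ M : GM 𝒜, Module.Finite A M.M → T (ucl _ M) = ucl _ (res hφ 0 M)) (u : UG 𝒜 _) :
    ∃ p ∈ PosP, Polynomial.aeval T p u = 0 := by
  obtain ⟨F, hF, hF2⟩ := exists_pos T
  have key : ∀ P : Ideal A, P.IsPrime → ∀ C : GM 𝒜, Cyc C P → ucl (Set.range z) C ∈ F := by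
    intro P
    induction P using IsNoetherian.induction with
    | hgt P ih =>
      intro hP C hC
      by_cases hz : ∀ i, z i ∈ P
      · rw [ucl_nil (hC.nil (by rintro _ ⟨i, rfl⟩; exact hz i))]
        exact F.zero_mem
      · obtain ⟨i, hi⟩ := not_forall.1 hz
        have hs : Shf 𝒜 P := shf_of_gen hP (G := {1}) (by
          rw [← AddSubgroup.zmultiples_eq_closure, Int.zmultiples_one])
          (by rintro _ rfl; exact ⟨z i, mem_cl (h.deg i), hi⟩)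
        obtain ⟨h1, h2⟩ := h.ver_pw hφ hp hn hP hC hi
        obtain ⟨ν, hν, hl⟩ := exists_multG hP hs hC _ (res_finite hφ hf C hC.finite) h1
        refine hF2 _ (ν : ℚ) (by exact_mod_cast hν h2) (mem_of_forms fun lam hlam => ?_)
        have h3 := hl _ (gadd_ucl_CWM2 lam) fun P' hP' hlt C' hC' => hlam _ (ih P' hlt hP' C' hC')
        rw [map_sub, map_smul, hT C hC.finite, smul_eq_mul]
        exact sub_eq_zero.2 h3
  refine (hF u).1 (ucl_ind (fun M hM => mem_of_forms fun lam hlam => ?_) u)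
  exact (gadd_ucl_CWM2 lam).of_primes M hM fun P hP _ C hC => hlam _ (key P hP C hC)

theorem pow_pwT (hf : φ.Finite) {S : Set A} {T : Module.End ℚ (UG 𝒜 S)}
    (hT : ∀ M : GM 𝒜, Module.Finite A M.M → T (ucl _ M) = ucl _ (res hφ 0 M)) (i : ℕ)
    (M : GM 𝒜) (hM : Module.Finite A M.M) : ∃ (R : GM 𝒜) (j : R.M →+ M.M),
      IsRes (φ ^ i) ((n ^ i • AddMonoidHom.id ℤ : ℤ →+ ℤ)) R M j ∧ Module.Finite A R.M ∧
        (T ^ i) (ucl S M) = ucl S R := by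
  induction i with
  | zero =>
    refine ⟨M, AddMonoidHom.id _, ⟨injective_id, fun _ _ => rfl, fun c y => ?_, fun c x => ⟨_, rfl⟩⟩,
      hM, rfl⟩
    rw [pow_zero, one_smul]
    rfl
  | succ i ih =>
    obtain ⟨R, j, h1, h2, h3⟩ := ih
    obtain ⟨j', hj'⟩ := isRes_ver hφ R
    refine ⟨res hφ 0 R, j.comp j', ?_, res_finite hφ hf R h2, by
      rw [pow_succ', Module.End.mul_apply, h3, hT R h2]⟩
    have e : ((n ^ (i + 1) • AddMonoidHom.id ℤ : ℤ →+ ℤ) : ℤ → ℤ) =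
        (n ^ i • AddMonoidHom.id ℤ : ℤ →+ ℤ) ∘ (n • AddMonoidHom.id ℤ : ℤ →+ ℤ) :=
      funext fun c => by simp [pow_succ, mul_assoc]
    rw [e, pow_succ]
    exact h1.comp hj'

end

variable (hφ : Hm (frb k A) 𝒜 𝒜 (Fintype.card k • AddMonoidHom.id ℤ))

theorem res_fin_CWM2 (h : Std 𝒜 z θ) (M : GM 𝒜) (hM : Module.Finite A M.M) :
    Module.Finite A (res hφ 0 M).M :=
  haveI := h.finiteType
  res_finite hφ (frobAlg_finite k A) M hM

theorem res_nil_CWM2 {S : Set A} {M : GM 𝒜} (hn : Nil S M.M) : Nil S (res hφ 0 M).M :=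
  res_nil_pw hφ (fun _ => rfl) Fintype.card_pos hn

theorem Std.ver_cyc (h : Std 𝒜 z θ) {C : GM 𝒜} {P : Ideal A} (hP : P.IsPrime) (hC : Cyc C P)
    {i : σ} (hi : z i ∉ P) :
    Nil (P : Set A) (res hφ 0 C).M ∧ Module.annihilator A (res hφ 0 C).M ≤ P :=
  h.ver_pw hφ (fun _ => rfl) Fintype.card_pos hP hC hi

theorem Std.exists_verT (h : Std 𝒜 z θ) : ∃ T : Module.End ℚ (UG 𝒜 (Set.range z)),
    ∀ M : GM 𝒜, Module.Finite A M.M → T (ucl _ M) = ucl _ (res hφ 0 M) :=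
  haveI := h.finiteType
  exists_pwT hφ (fun _ => rfl) Fintype.card_pos (frobAlg_finite k A) _

theorem Std.pos_all (h : Std 𝒜 z θ) {T : Module.End ℚ (UG 𝒜 (Set.range z))}
    (hT : ∀ M : GM 𝒜, Module.Finite A M.M → T (ucl _ M) = ucl _ (res hφ 0 M)) (u : UG 𝒜 _) :
    ∃ p ∈ PwP (Fintype.card k), Polynomial.aeval T p u = 0 := by
  have := h.finiteType
  obtain ⟨e, he, hp, hc, hR⟩ := exists_frp k
  obtain ⟨φ, h1⟩ := hR A
  have h2 : φ ^ e = frb k A := RingHom.ext fun a => by rw [pow_pw h1, ← hc]; rfl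
  have hf : φ.Finite := by
    obtain ⟨e, rfl⟩ := Nat.exists_eq_add_one_of_ne_zero he.ne'
    have h3 := frobAlg_finite k A
    change (frb k A).Finite at h3
    rw [← h2, pow_succ'] at h3
    exact RingHom.Finite.of_comp_finite h3
  have h3 := hm_pw (𝒜 := 𝒜) h1 hp.pos
  obtain ⟨T₀, hT₀⟩ := exists_pwT h3 h1 hp.pos hf (Set.range z)
  have h4 : T = T₀ ^ e := LinearMap.ext fun v => by
    refine ucl_ind (F := LinearMap.eqLocus T (T₀ ^ e)) (fun M hM => ?_) v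
    obtain ⟨R, j, h5, h6, h7⟩ := pow_pwT h3 h1 hp.pos hf hT₀ e M hM
    obtain ⟨j', hj'⟩ := isRes_ver hφ M
    rw [h2, ← hc] at h5
    rw [LinearMap.mem_eqLocus, h7, hT M hM, ← sub_eq_zero, ← Submodule.mem_bot ℚ]
    refine mem_of_forms fun lam _ => ?_
    rw [map_sub]
    exact sub_eq_zero.2 (hj'.val (gadd_ucl_CWM2 lam) h5 h6)
  rw [h4, hc]
  exact pos_root T₀ hp (h.pos_pw h3 h1 hp.pos hf hT₀ u)

theorem Std.famG (h : Std 𝒜 z θ) (r Q : ℕ) :
    FamG (res hφ 0) r (Fintype.card k) {l | GAdd l ∧ VnG ⊥ (Set.range z) l} := by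
  refine ⟨fun l hl => hl.1, fun l hl => ?_, fun l hl ε hε => ?_⟩
  · refine ⟨fun M => l (res hφ 0 M), ⟨hl.1.res hφ 0 (res_fin_CWM2 hφ h), fun M hM _ hn => ?_⟩, 1,
      fun M _ => (one_mul _).symm⟩
    exact hl.2 _ (res_fin_CWM2 hφ h M hM) kill_bot (res_nil_CWM2 hφ hn)
  · obtain ⟨lam, hlam⟩ := exists_ulin (S := Set.range z) l hl.1
      fun M hM hn => hl.2 M hM kill_bot hn
    obtain ⟨T, hT⟩ := h.exists_verT hφ
    obtain ⟨mu, hmu⟩ := exists_div T (h.pos_all hφ hT) hε lam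
    refine ⟨fun M => mu (ucl _ M), ⟨gadd_ucl_CWM2 mu, fun M _ _ hn => ?_⟩, 1, fun M hM => ?_⟩
    · change mu (ucl _ M) = 0
      rw [ucl_nil hn, map_zero]
    · rw [← hlam M hM, hmu, hT M hM, one_mul, one_mul]

end Pool.Agent.CXD
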