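import Pool.Agent.P.MP_2ce3e7_ag.CPG2
import Pool.Agent.P.MP_2ce3e7_ag.CPC1
import Pool.Agent.P.MP_2ce3e7_ag.CWM2

/-! The Frobenius pull-back on the Grothendieck group of a universal ring. -/

set_option linter.unusedSectionVars false
set_option linter.unusedVariables false

open Function Filter
open scoped TensorProduct Polynomial

noncomputable section

namespace Pool.Agent.CXD

variable {k D Γ τ : Type} [Field k] [Fintype k] [CommRing D] [Algebra k D] [AddCommGroup Γ]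
  {𝒟 : Γ → Set D} [Gd 𝒟]

variable (k) in
/-- all algebras have an `n`-th power map -/
def PwH (n : ℕ) : Prop :=
  0 < n ∧ ∀ (R : Type) [CommRing R] [Algebra k R], ∃ φ : R →+* R, ∀ a, φ a = a ^ n

theorem ph_card : PwH k (Fintype.card k) := ⟨Fintype.card_pos, fun R _ _ => ⟨frb k R, fun _ => rfl⟩⟩

variable (k) in
/-- the properties of the universal ring -/
structure Uni (s : τ → D) (U : GM 𝒟) (e : U.M) : Prop where
  rg : Cy U e ⊥
  gl : ∃ g, ∀ j, GlD (Localization (Submonoid.powers (s j))) g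
  fr : ∀ j n, PwH k n → PwFl n (Localization (Submonoid.powers (s j)))
  shf : ∀ P : Ideal D, P.IsPrime → (∃ j, s j ∉ P) → Shf 𝒟 P
  irr : ∃ P₀ : Ideal D, P₀.IsPrime ∧ ∀ P : Ideal D, P.IsPrime → (∃ j, s j ∉ P) → P₀ ≤ P

variable {s : τ → D} {U : GM 𝒟} {e : U.M} {M : GM 𝒟}

theorem gadd_ucl_CPI [IsNoetherianRing D] {S : Set D} (lam : UG 𝒟 S →ₗ[ℚ] ℚ) :
    GAdd fun M : GM 𝒟 => lam (ucl S M) :=
  fun M N P hN hs => by
    change lam (ucl S N) = lam (ucl S M) + lam (ucl S P)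
    rw [ucl_ses hN hs, map_add]

omit [Gd 𝒟] in
theorem ucl_indG {S : Set D} {F : Submodule ℚ (UG 𝒟 S)}
    (h : ∀ M : GM 𝒟, Module.Finite D M.M → ucl S M ∈ F) (u : UG 𝒟 S) : u ∈ F := by
  have hu : u ∈ (⊤ : Submodule ℚ (UG 𝒟 S)) := trivial
  rw [← span_ucl] at hu
  refine Submodule.span_le.2 ?_ hu
  rintro _ ⟨M, hM, rfl⟩
  exact h M hM

section
variable {φ : D →+* D} {n : ℕ} (hφ : Hm φ 𝒟 𝒟 (n • AddMonoidHom.id Γ)) (hp : ∀ a, φ a = a ^ n)
include hp

theorem Uni.ofP (h : Uni k s U e) (hn : PwH k n) : OF φ (Set.range s) U.M := by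
  obtain ⟨c, -, -⟩ := h.rg.exists_coord
  refine of_range fun j => ?_
  obtain ⟨ψ, hψ⟩ := hn.2 (Localization (Submonoid.powers (s j)))
  exact (of_loc (s j) ((h.fr j n hn).comp hp hψ)).congr c

theorem pw_nil {S : Set D} (hM : Nil S M.M) : Nil S (tens hφ M U).M := by
  intro f hf x
  obtain ⟨m, hm⟩ := tens_nilV hφ hM U (φ f) ⟨f, hf, rfl⟩ x
  refine ⟨n * m, ?_⟩
  rw [pow_mul, ← hp]
  exact hm

include hφ in
theorem hm_pow_CPI (i : ℕ) : Hm (φ ^ i) 𝒟 𝒟 (n ^ i • AddMonoidHom.id Γ) := by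
  refine ⟨?_, fun c b hb => pow_pw hp i b ▸ cl_pow (mem_cl hb) (n ^ i)⟩
  induction i with
  | zero => rw [pow_zero, one_smul]; exact injective_id
  | succ i ih =>
    intro c d h
    refine ih (hφ.inj ?_)
    simpa [pow_succ', mul_smul] using h

variable [IsNoetherianRing D] [UniqueSums Γ]

theorem Uni.exists_TP (h : Uni k s U e) (hn : PwH k n) :
    ∃ T : Module.End ℚ (UG 𝒟 (Set.range s)),
      ∀ M : GM 𝒟, Module.Finite D M.M → T (ucl _ M) = ucl _ (tens hφ M U) := by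
  refine exists_ulin (fun M => ucl (Set.range s) (tens hφ M U)) (fun M N P hN hs => ?_)
    fun M _ hn => ucl_nil (pw_nil hφ hp hn)
  obtain ⟨hM, hP⟩ := fin_CWM hN hs
  obtain ⟨F, G, hF, hG, hsur, hex, hnil⟩ := tens_sesV_of hφ (h.ofP hp hn) hs
  rw [← sub_eq_zero, ← Submodule.mem_bot ℚ]
  refine mem_of_forms fun lam _ => ?_
  have h1 := (gadd_ucl_CPI lam).right (tens_finite (h := hφ) hM h.rg.finite)
    (tens_finite (h := hφ) hN h.rg.finite) hF hG hsur hex
  have h2 : ucl (Set.range s) ((tens hφ M U).sub _ hF.ker) = 0 := ucl_nil hnil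
  beta_reduce at h1
  rw [h2, map_zero, add_zero] at h1
  rw [map_sub, map_add, h1, sub_self]

theorem Uni.posP (h : Uni k s U e) (hn : 0 < n) {T : Module.End ℚ (UG 𝒟 (Set.range s))}
    (hT : ∀ M : GM 𝒟, Module.Finite D M.M → T (ucl _ M) = ucl _ (tens hφ M U)) (v : UG 𝒟 _) :
    ∃ p ∈ PosP, Polynomial.aeval T p v = 0 := by
  obtain ⟨F, hF, hF2⟩ := exists_pos T
  have key : ∀ P : Ideal D, P.IsPrime → ∀ C : GM 𝒟, Cyc C P → ucl (Set.range s) C ∈ F := by
    intro P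
    induction P using IsNoetherian.induction with
    | hgt P ih =>
      intro hP C hC
      by_cases hz : ∀ i, s i ∈ P
      · rw [ucl_nil (hC.nil (by rintro _ ⟨i, rfl⟩; exact hz i))]
        exact F.zero_mem
      · have hs : Shf 𝒟 P := h.shf P hP (not_forall.1 hz)
        have hC' := tens_cyc hφ h.rg hC
        have hle : Ideal.map φ P ≤ P := Ideal.map_le_iff_le_comap.2 fun a ha => by
          rw [Ideal.mem_comap, hp]
          exact Ideal.pow_mem_of_mem P ha _ hn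
        have h1 : Nil (P : Set D) (tens hφ C U).M := pw_nil hφ hp (hC.nil fun f hf => hf)
        obtain ⟨ν, hν, hl⟩ := exists_multG hP hs hC _ hC'.finite h1
        refine hF2 _ (ν : ℚ) (by exact_mod_cast hν (hC'.ann ▸ hle)) (mem_of_forms fun lam hlam => ?_)
        have h3 := hl _ (gadd_ucl_CPI lam) fun P' hP' hlt C' hC' => hlam _ (ih P' hlt hP' C' hC')
        rw [map_sub, map_smul, hT C hC.finite, smul_eq_mul]
        exact sub_eq_zero.2 h3
  refine (hF v).1 (ucl_indG (fun M hM => mem_of_forms fun lam hlam => ?_) v)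
  exact (gadd_ucl_CPI lam).of_primes M hM fun P hP _ C hC => hlam _ (key P hP C hC)

theorem Uni.powP (h : Uni k s U e) {T : Module.End ℚ (UG 𝒟 (Set.range s))}
    (hT : ∀ M : GM 𝒟, Module.Finite D M.M → T (ucl _ M) = ucl _ (tens hφ M U)) (i : ℕ)
    (M : GM 𝒟) (hM : Module.Finite D M.M) :
    (T ^ (i + 1)) (ucl _ M) = ucl _ (tens (hm_pow_CPI hφ hp (i + 1)) M U) := by
  induction i with
  | zero =>
    have key : ∀ {ψ : D →+* D} {μ : Γ →+ Γ} (h' : Hm ψ 𝒟 𝒟 μ), ψ = φ →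
        μ = n • AddMonoidHom.id Γ → ucl (Set.range s) (tens hφ M U) = ucl _ (tens h' M U) := by
      rintro _ _ _ rfl rfl
      rfl
    rw [zero_add, pow_one, hT M hM]
    exact key _ (pow_one _) (by rw [pow_one])
  | succ i ih =>
    have hf := tens_finite (h := hm_pow_CPI hφ hp (i + 1)) hM h.rg.finite
    rw [pow_succ', Module.End.mul_apply, ih, hT _ hf]
    obtain ⟨g, hg, hb⟩ := tens_bc (hm_pow_CPI hφ hp (i + 1 + 1)) (hm_pow_CPI hφ hp (i + 1)) hφ
      (fun d => by rw [pow_succ']; rfl)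
      (fun c => by simp [pow_succ' n (i + 1), mul_smul]) h.rg M U
    rw [← sub_eq_zero, ← Submodule.mem_bot ℚ]
    refine mem_of_forms fun lam _ => ?_
    rw [map_sub]
    exact sub_eq_zero.2
      ((gadd_ucl_CPI lam).congr (tens_finite (h := hφ) hf h.rg.finite) hg hb).symm

end

variable (hq : Hm (frb k D) 𝒟 𝒟 (Fintype.card k • AddMonoidHom.id Γ))

theorem Uni.of (h : Uni k s U e) : OF (frb k D) (Set.range s) U.M :=
  h.ofP (fun _ => rfl) ph_card

theorem Uni.fr_ql (h : Uni k s U e) (hM : QL s M) : QL s (tens hq M U) := by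
  refine ⟨tens_finite (h := hq) hM.1 h.rg.finite, fun j => ?_⟩
  obtain ⟨n, m, a, b, hab⟩ := tens_qp_reg hq h.rg (hM.2 j)
  refine ⟨n, Fintype.card k * m, a, b, fun x => ?_⟩
  rw [hab, frb_apply, ← pow_mul]

theorem fr_nil {S : Set D} (hM : Nil S M.M) : Nil S (tens hq M U).M :=
  pw_nil hq (fun _ => rfl) hM

variable [IsNoetherianRing D] [UniqueSums Γ]

theorem Uni.exists_T (h : Uni k s U e) : ∃ T : Module.End ℚ (UG 𝒟 (Set.range s)),
    ∀ M : GM 𝒟, Module.Finite D M.M → T (ucl _ M) = ucl _ (tens hq M U) :=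
  h.exists_TP hq (fun _ => rfl) ph_card

theorem Uni.pos_all (h : Uni k s U e) {T : Module.End ℚ (UG 𝒟 (Set.range s))}
    (hT : ∀ M : GM 𝒟, Module.Finite D M.M → T (ucl _ M) = ucl _ (tens hq M U)) (v : UG 𝒟 _) :
    ∃ p ∈ PwP (Fintype.card k), Polynomial.aeval T p v = 0 := by
  obtain ⟨i, hi, hp, hc, hR⟩ := exists_frp k
  obtain ⟨i, rfl⟩ := Nat.exists_eq_add_one_of_ne_zero hi.ne'
  obtain ⟨φ, h1⟩ := hR D
  have h2 : φ ^ (i + 1) = frb k D := RingHom.ext fun a => by rw [pow_pw h1, ← hc]; rfl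
  have h3 : Hm φ 𝒟 𝒟 (ringChar k • AddMonoidHom.id Γ) :=
    ⟨fun c d hh => hq.inj (by
      have h4 : ringChar k • c = ringChar k • d := hh
      change Fintype.card k • c = Fintype.card k • d
      rw [hc, pow_succ, mul_smul, mul_smul, h4]),
      fun c b hb => h1 b ▸ cl_pow (mem_cl hb) (ringChar k)⟩
  obtain ⟨T₀, hT₀⟩ := h.exists_TP h3 h1 ⟨hp.pos, hR⟩
  have h4 : T = T₀ ^ (i + 1) := LinearMap.ext fun v => by
    refine ucl_indG (F := LinearMap.eqLocus T (T₀ ^ (i + 1))) (fun M hM => ?_) v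
    have key : ∀ {ψ : D →+* D} {μ : Γ →+ Γ} (h' : Hm ψ 𝒟 𝒟 μ), ψ = frb k D →
        μ = Fintype.card k • AddMonoidHom.id Γ →
          ucl (Set.range s) (tens hq M U) = ucl _ (tens h' M U) := by
      rintro _ _ _ rfl rfl
      rfl
    rw [LinearMap.mem_eqLocus, h.powP h3 h1 hT₀ i M hM, hT M hM]
    exact key _ h2 (by rw [hc])
  rw [h4, hc]
  exact pos_root T₀ hp (h.posP h3 h1 hp.pos hT₀ v)

theorem exists_pre {V : Type*} [AddCommGroup V] [Module ℚ V] (T : Module.End ℚ V) {v : V} {r Q : ℕ}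
    (h : ∃ p ∈ PwP Q, Polynomial.aeval T p v = 0) {ε : ℚ} (hε : Adm r Q ε) :
    ∃ v', v = T v' + ε • v' := by
  obtain ⟨p, hp, hv⟩ := h
  have h1 : p.eval (-ε) ≠ 0 := pwp_eval hp hε
  obtain ⟨q, hq⟩ := Polynomial.X_sub_C_dvd_sub_C_eval (p := p) (a := -ε)
  have h2 := congrArg (fun r => Polynomial.aeval T r v) hq
  simp only [map_sub, map_mul, LinearMap.sub_apply, Module.End.mul_apply, Polynomial.aeval_X,
    Polynomial.aeval_C, Module.algebraMap_end_apply, hv, zero_sub, neg_smul, sub_neg_eq_add] at h2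
  refine ⟨(-(p.eval (-ε))⁻¹) • Polynomial.aeval T q v, ?_⟩
  rw [map_smul, smul_comm ε, ← smul_add, ← h2, smul_neg, neg_smul, neg_neg, smul_smul,
    inv_mul_cancel₀ h1, one_smul]

end Pool.Agent.CXD
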