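import Pool.Agent.P.MP_2ce3e7_ag.CPI

/-! Invariant additive functions on a universal ring. -/

set_option linter.unusedSectionVars false
set_option linter.unusedVariables false

open Function Filter
open scoped TensorProduct Polynomial

noncomputable section

namespace Pool.Agent.CXD

variable {k D Γ τ : Type} [Field k] [Fintype k] [CommRing D] [Algebra k D] [AddCommGroup Γ]
  {𝒟 : Γ → Set D} [Gd 𝒟] (hq : Hm (frb k D) 𝒟 𝒟 (Fintype.card k • AddMonoidHom.id Γ))
  {s : τ → D} {U : GM 𝒟} {e : U.M} [IsNoetherianRing D] [UniqueSums Γ]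

/-- Nakayama's lemma -/
theorem nak_frb {P : Ideal D} (hP : P.IsPrime) {b : D} (hb : b ∉ P)
    (h : ∀ a ∈ P, b * a ∈ P.map (frb k D)) : ∃ c, c ∉ P ∧ ∀ a ∈ P, c * a = 0 := by
  have hq2 : 2 ≤ Fintype.card k := Fintype.one_lt_card
  have hle : P.map (frb k D) ≤ P • P := by
    refine Ideal.map_le_iff_le_comap.2 fun a ha => ?_
    rw [Ideal.mem_comap, frb_apply, smul_eq_mul, ← pow_two]
    exact Ideal.pow_le_pow_right hq2 (Ideal.pow_mem_pow ha _)
  obtain ⟨p, hm, -, hc, hp⟩ :=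
    LinearMap.exists_monic_and_natDegree_eq_and_coeff_mem_pow_and_aeval_eq_zero D
      (algebraMap D (Module.End D P) b) P (by
        rintro _ ⟨x, rfl⟩
        exact (Submodule.mem_smul_top_iff P P _).2 (hle (h x.1 x.2)))
  refine ⟨p.eval b, fun hc' => hb ?_, fun a ha => ?_⟩
  · rw [Polynomial.eval_eq_sum_range, Finset.sum_range_succ, hm.coeff_natDegree, one_mul] at hc'
    refine hP.mem_of_pow_mem p.natDegree ((Ideal.add_mem_iff_right P ?_).1 hc')
    refine Ideal.sum_mem _ fun i hi => Ideal.mul_mem_right _ _ ?_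
    exact Ideal.pow_le_self (Nat.sub_ne_zero_of_lt (Finset.mem_range.1 hi)) (hc i)
  · rw [Polynomial.aeval_algebraMap_apply, Polynomial.coe_aeval_eq_eval] at hp
    exact congrArg Subtype.val (LinearMap.congr_fun hp ⟨a, ha⟩)

/-- the quotient of a cyclic module by a larger prime -/
theorem Cyc.split {C C' : GM 𝒟} {P I : Ideal D} (hP : P.IsPrime) (hs : Shf 𝒟 P) (hC : Cyc C P)
    (hC' : Cyc C' I) (hI : I ≤ P) : ∃ K : GM 𝒟, Module.Finite D K.M ∧
      (∀ b : D, (∀ x : K.M, b • x = 0) ↔ ∀ a ∈ P, b * a ∈ I) ∧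
        (∀ S : Set D, Nil S C'.M → Nil S K.M) ∧
          ∀ l : GM 𝒟 → ℚ, GAdd l → VanG l P → l C' = l K + l C := by
  have hfin := hC'.finite
  obtain ⟨d, x, hx, hsx, hxI⟩ := hC'
  have hspan : Ideal.span {b | b ∈ P ∧ ∃ c, b ∈ cl 𝒟 c} = P := by
    refine le_antisymm (Ideal.span_le.2 fun b hb => hb.1) fun a ha => ?_
    exact (AddSubgroup.closure_le (Ideal.span {b | b ∈ P ∧ ∃ c, b ∈ cl 𝒟 c}).toAddSubgroup).2
      Ideal.subset_span (hC.hom ha)
  have hL : St C' (P • ⊤) := by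
    have := St.smul (M := C') (S := {b | b ∈ P ∧ ∃ c, b ∈ cl 𝒟 c}) st_top fun b hb => hb.2
    rwa [hspan] at this
  have hmem : ∀ y : C'.M, y ∈ (P • ⊤ : Submodule D C'.M) ↔ ∃ a ∈ P, a • x = y := fun y => by
    rw [← hsx]
    exact Submodule.mem_smul_span_singleton
  refine ⟨C'.sub _ hL, inferInstance, fun b => ⟨fun hb a ha => ?_, fun hb y => ?_⟩,
    fun S hS => hS.of_injective (Submodule.subtype _) (Submodule.injective_subtype _),
    fun l hl hv => ?_⟩
  · rw [← hxI, mul_smul]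
    exact congrArg Subtype.val (hb ⟨a • x, (hmem _).2 ⟨a, ha, rfl⟩⟩)
  · obtain ⟨y, hy⟩ := y
    obtain ⟨a, ha, rfl⟩ := (hmem y).1 hy
    refine Subtype.ext ?_
    change b • a • x = 0
    rw [← mul_smul]
    exact (hxI _).2 (hb a ha)
  · have hQ : Cyc (C'.quo _ hL) P := by
      refine ⟨d, Submodule.mkQ _ x, ?_, ?_, fun a => ?_⟩
      · rw [quo_π, hx]
      · refine Submodule.eq_top_iff'.2 fun y => ?_
        obtain ⟨y, rfl⟩ := Submodule.mkQ_surjective _ y
        obtain ⟨a, rfl⟩ := Submodule.mem_span_singleton.1 (hsx ▸ Submodule.mem_top (x := y))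
        exact Submodule.mem_span_singleton.2 ⟨a, (map_smul _ a x).symm⟩
      · rw [← map_smul, Submodule.mkQ_apply, Submodule.Quotient.mk_eq_zero, hmem]
        refine ⟨?_, fun ha => ⟨a, ha, rfl⟩⟩
        rintro ⟨a', ha', he⟩
        have h1 : a - a' ∈ P := hI ((hxI _).1 (by rw [sub_smul, he, sub_self]))
        exact (Submodule.sub_mem_iff_left P ha').1 h1
    rw [hl _ _ _ hfin (ses_sub_quo hL), Cyc.val hl hP hv hs hQ hC]

theorem Uni.rigid (h : Uni k s U e) {l : GM 𝒟 → ℚ} (hl : GAdd l) (hv : VnG ⊥ (Set.range s) l)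
    (hF : ∀ M : GM 𝒟, Module.Finite D M.M → l (tens hq M U) = l M) (h0 : l U = 0) (M : GM 𝒟)
    (hM : Module.Finite D M.M) : l M = 0 := by
  have key : ∀ P : Ideal D, P.IsPrime → ZG l P := by
    intro P
    induction P using IsNoetherian.induction with
    | hgt P ih =>
      intro hP C hC
      have hall : ∀ Q : Ideal D, (∀ j, s j ∈ Q) → ZG l Q := fun Q hQ C₁ hC₁ =>
        hv C₁ hC₁.finite kill_bot (hC₁.nil (by rintro _ ⟨j, rfl⟩; exact hQ j))
      have hvan : VanG l P := fun P' hP' hlt => ih P' hlt hP'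
      by_cases hz : ∀ j, s j ∈ P
      · exact hall P hz C hC
      have hz' := not_forall.1 hz
      have hs := h.shf P hP hz'
      have hC' : Cyc (tens hq C U) (Ideal.map (frb k D) P) := tens_cyc hq h.rg hC
      have hI : Ideal.map (frb k D) P ≤ P := Ideal.map_le_iff_le_comap.2 fun a ha => by
        rw [Ideal.mem_comap, frb_apply]
        exact Ideal.pow_mem_of_mem P ha _ Fintype.card_pos
      obtain ⟨K, hKf, hKa, hKn, hKl⟩ := Cyc.split hP hs hC hC' hI
      have hK0 : l K = 0 := by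
        have h1 := hKl l hl hvan
        rw [hF C hC.finite] at h1
        linarith
      have hnil : Nil (P : Set D) (tens hq C U).M := fun a ha y =>
        ⟨Fintype.card k, Module.mem_annihilator.1 (by
          rw [hC'.ann, ← frb_apply]
          exact Ideal.mem_map_of_mem _ ha) y⟩
      obtain ⟨ν, hν, hval⟩ := exists_multG hP hs hC K hKf (hKn _ hnil)
      by_cases ha : Module.annihilator D K.M ≤ P
      · have h1 := hval l hl hvan
        rw [hK0] at h1
        have h2 : (ν : ℚ) ≠ 0 := by exact_mod_cast (hν ha).ne'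
        exact (mul_eq_zero.1 h1.symm).resolve_left h2
      obtain ⟨b, hb, hbP⟩ := SetLike.not_le_iff_exists.1 ha
      obtain ⟨c, hcP, hc⟩ := nak_frb hP hbP ((hKa b).1 (Module.mem_annihilator.1 hb))
      obtain ⟨P₀, hP₀, hmin⟩ := h.irr
      have hle : P ≤ P₀ := fun a ha =>
        (hP₀.mem_or_mem (show c * a ∈ P₀ by rw [hc a ha]; exact zero_mem _)).resolve_left
          fun hc0 => hcP (hmin P hP hz' hc0)
      obtain ⟨K', hKf', hKa', -, hKl'⟩ :=
        Cyc.split hP hs hC (C' := U) (I := ⊥) ⟨0, e, h.rg.hom, h.rg.gen, h.rg.ann⟩ bot_le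
      have hK0' : l K' = 0 := by
        refine hl.of_primes K' hKf' fun Q hQ hle' => ?_
        by_cases hzQ : ∀ j, s j ∈ Q
        · exact hall Q hzQ
        have hcQ : c ∈ Q := hle' (Module.mem_annihilator.2 ((hKa' c).2 fun a ha =>
          Ideal.mem_bot.2 (hc a ha)))
        exact hvan Q hQ (lt_of_le_of_ne (hle.trans (hmin Q hQ (not_forall.1 hzQ)))
          fun he => hcP (he ▸ hcQ))
      have h1 := hKl' l hl hvan
      linarith
  exact hl.of_primes M hM fun P hP _ => key P hP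

theorem Uni.exists_lin (h : Uni k s U e) {W : Type*} [AddCommGroup W] [Module ℚ W]
    {φ : GM 𝒟 → W} (hφ : AddOn (QL s) φ)
    (hn : ∀ M : GM 𝒟, Module.Finite D M.M → Nil (Set.range s) M.M → φ M = 0) :
    ∃ Λ : UG 𝒟 (Set.range s) →ₗ[ℚ] W, ∀ M, QL s M → Λ (ucl _ M) = φ M := by
  obtain ⟨g, hg⟩ := h.gl
  obtain ⟨𝒬, hR, hQ⟩ := exists_rsv h.rg hg
  obtain ⟨φ', h1, h2⟩ := hR.exists_ext (φ := φ) fun M N P hM hN hP hs =>
    hφ M N P ((hQ M).1 hM) ((hQ N).1 hN) ((hQ P).1 hP) hs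
  obtain ⟨Λ, hΛ⟩ := exists_ulin (S := Set.range s) φ' h1 fun M hM hnil => by
    rw [h2 M ((hQ M).2 ⟨hM, fun j => Qp.of_nil hnil ⟨j, rfl⟩⟩), hn M hM hnil]
  exact ⟨Λ, fun M hM => by rw [hΛ M hM.1, h2 M ((hQ M).2 hM)]⟩

theorem Uni.ind (h : Uni k s U e) {p : UG 𝒟 (Set.range s) → Prop}
    (h1 : ∀ M, QL s M → p (ucl _ M)) (h0 : p 0) (h2 : ∀ u v, p u → p v → p (u + v))
    (h3 : ∀ (a : ℚ) u, p u → p (a • u)) (v : UG 𝒟 (Set.range s)) : p v := by
  obtain ⟨g, hg⟩ := h.gl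
  obtain ⟨𝒬, hR, hQ⟩ := exists_rsv h.rg hg
  have hv : v ∈ (⊤ : Submodule ℚ (UG 𝒟 (Set.range s))) := trivial
  rw [← hR.span (Set.range s)] at hv
  induction hv using Submodule.span_induction with
  | mem u hu =>
    obtain ⟨M, hM, rfl⟩ := hu
    exact h1 M ((hQ M).1 hM)
  | zero => exact h0
  | add u w _ _ hu hw => exact h2 u w hu hw
  | smul a u _ hu => exact h3 a u hu

theorem Uni.pt (h : Uni k s U e) {φ : GM 𝒟 → ℚ} (hφ : AddOn (QL s) φ)
    (hn : ∀ M : GM 𝒟, Module.Finite D M.M → Nil (Set.range s) M.M → φ M = 0)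
    (hF : ∀ M, QL s M → φ (tens hq M U) = φ M) (h0 : φ U = 0) (M : GM 𝒟) (hM : QL s M) :
    φ M = 0 := by
  obtain ⟨Λ, hΛ⟩ := h.exists_lin hφ hn
  obtain ⟨T, hT⟩ := h.exists_T hq
  have hinv : ∀ v, Λ (T v) = Λ v := by
    refine h.ind (fun N hN => ?_) ?_ (fun u v hu hv => ?_) fun a u hu => ?_
    · rw [hT N hN.1, hΛ _ (h.fr_ql hq hN), hF N hN, hΛ N hN]
    · rw [map_zero, map_zero]
    · rw [map_add, map_add, map_add, hu, hv]
    · rw [map_smul, map_smul, map_smul, hu]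
  have hU : QL s U := h.rg.ql s 0
  rw [← hΛ M hM]
  refine h.rigid hq (l := fun N => Λ (ucl _ N)) (fun N₁ N₂ N₃ hN hs => ?_) (fun N _ _ hnil => ?_)
    (fun N hN => ?_) ((hΛ U hU).trans h0) M hM.1
  · change Λ (ucl _ N₂) = Λ (ucl _ N₁) + Λ (ucl _ N₃)
    rw [ucl_ses hN hs, map_add]
  · change Λ (ucl _ N) = 0
    rw [ucl_nil hnil, map_zero]
  · rw [← hT N hN, hinv]

end Pool.Agent.CXD
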