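import Pool.Agent.P.MP_2ce3e7_ag.CPB

/-! Minors of matrices. -/

set_option linter.unusedSectionVars false
set_option linter.unusedVariables false

open Function Filter
open scoped TensorProduct Polynomial

noncomputable section

namespace Pool.Agent.CXD

open Matrix

variable {R α β : Type} [CommRing R] {ρ : ℕ}

/-- all minors of size `ρ` vanish -/
def MZ (m : Matrix α β R) (ρ : ℕ) : Prop :=
  ∀ (I : Fin ρ → α) (J : Fin ρ → β), (m.submatrix I J).det = 0

theorem det_exp_CPJ [Fintype α] {d : ℕ} (x : Matrix (Fin d) α R) (y : Matrix α (Fin d) R) :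
    (x * y).det = ∑ J : Fin d → α, (∏ i, y (J i) i) * (x.submatrix id J).det := by
  classical
  simp only [det_apply', mul_apply, Finset.prod_univ_sum, Finset.mul_sum, Fintype.piFinset_univ]
  rw [Finset.sum_comm]
  refine Finset.sum_congr rfl fun I _ => Finset.sum_congr rfl fun σ _ => ?_
  simp only [submatrix_apply, id, Finset.prod_mul_distrib]
  ring

theorem mz_mul (a : Matrix α (Fin ρ) R) (b : Matrix (Fin ρ) β R) : MZ (a * b) (ρ + 1) := by
  intro I J
  rw [Matrix.submatrix_mul a b I id J bijective_id, det_exp_CPJ]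
  refine Finset.sum_eq_zero fun K _ => ?_
  have hK : ¬Injective K := fun h => by simpa using Fintype.card_le_of_injective K h
  obtain ⟨i, j, hij, hne⟩ := Function.not_injective_iff.1 hK
  rw [det_zero_of_column_eq hne fun l => by simp [hij], mul_zero]

theorem MZ.map {S : Type} [CommRing S] {m : Matrix α β R} (h : MZ m ρ) (φ : R →+* S) :
    MZ (m.map φ) ρ := by
  intro I J
  have h1 := φ.map_det (m.submatrix I J)
  rw [h I J, map_zero] at h1
  rw [submatrix_map]
  exact h1.symm

theorem MZ.schur {m : Matrix α β R} (h : MZ m (ρ + 1)) (I : Fin ρ → α) (J : Fin ρ → β) :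
    ((m.submatrix I J).det ^ 2) • m = (m.submatrix I J).det •
      (m.submatrix id J * (m.submatrix I J).adjugate * m.submatrix I id) := by
  ext a b
  set M := m.submatrix I J with hM
  let A11 : Matrix Unit Unit R := Matrix.of fun _ _ => m a b
  let A12 : Matrix Unit (Fin ρ) R := Matrix.of fun _ j => m a (J j)
  let A21 : Matrix (Fin ρ) Unit R := Matrix.of fun i _ => m (I i) b
  have hB : (fromBlocks A11 A12 A21 M).det = 0 := by
    have e : Fin (ρ + 1) ≃ Unit ⊕ Fin ρ := Fintype.equivOfCardEq (by simp [add_comm])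
    have h1 : fromBlocks A11 A12 A21 M =
        m.submatrix (Sum.elim (fun _ => a) I) (Sum.elim (fun _ => b) J) := by
      ext (i | i) (j | j) <;> rfl
    rw [← det_submatrix_equiv_self e, h1, submatrix_submatrix]
    exact h _ _
  have h2 : fromBlocks A11 A12 A21 M * fromBlocks (M.det • (1 : Matrix Unit Unit R)) 0
      (-(M.adjugate * A21)) 1 =
      fromBlocks (M.det • A11 - A12 * M.adjugate * A21) A12 0 M := by
    rw [fromBlocks_multiply]
    simp only [Matrix.mul_smul, Matrix.mul_one, Matrix.mul_zero, zero_add, Matrix.mul_neg,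
      ← Matrix.mul_assoc, mul_adjugate, Matrix.smul_mul, Matrix.one_mul, add_neg_cancel,
      sub_eq_add_neg]
  have h3 := congrArg det h2
  rw [det_mul, hB, zero_mul, det_fromBlocks_zero₂₁, det_unique] at h3
  have h4 : (A12 * M.adjugate * A21) default default =
      (m.submatrix id J * M.adjugate * m.submatrix I id) a b := rfl
  rw [Matrix.sub_apply, h4, Matrix.smul_apply] at h3
  have h5 : A11 default default = m a b := rfl
  rw [h5] at h3
  simp only [Matrix.smul_apply, smul_eq_mul] at h3 ⊢
  linear_combination -h3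

theorem MZ.factor {m : Matrix α β R} (h : MZ m (ρ + 1)) {I : Fin ρ → α} {J : Fin ρ → β} {u : R}
    (hu : u * (m.submatrix I J).det = 1) :
    m = m.submatrix id J * (u • ((m.submatrix I J).adjugate * m.submatrix I id)) := by
  have h1 := congrArg (fun x => u ^ 2 • x) (h.schur I J)
  simp only [smul_smul] at h1
  have h2 : u ^ 2 * (m.submatrix I J).det = u := by rw [sq, mul_assoc, hu, mul_one]
  rw [← mul_pow, hu, one_pow, one_smul, h2] at h1
  rw [Matrix.mul_smul, ← Matrix.mul_assoc]
  exact h1

theorem det_mem_span [Fintype α] [Fintype β] (a : Matrix (Fin ρ) α R) (m : Matrix α β R)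
    (b : Matrix β (Fin ρ) R) : (a * m * b).det ∈
      Ideal.span (Set.range fun j : (Fin ρ → α) × (Fin ρ → β) => (m.submatrix j.1 j.2).det) := by
  rw [det_exp_CPJ]
  refine Ideal.sum_mem _ fun J _ => Ideal.mul_mem_left _ _ ?_
  rw [Matrix.submatrix_mul a m id id J bijective_id, ← det_transpose, transpose_mul, det_exp_CPJ]
  refine Ideal.sum_mem _ fun I _ => Ideal.mul_mem_left _ _ (Ideal.subset_span ⟨(I, J), ?_⟩)
  rw [← det_transpose]
  rfl

end Pool.Agent.CXD
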