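import Pool.Agent.P.MP_2ce3e7_ag.CPJ

/-! Fitting ideals. -/

set_option linter.unusedSectionVars false
set_option linter.unusedVariables false

open Function Filter
open scoped TensorProduct Polynomial

noncomputable section

namespace Pool.Agent.CXD

open Matrix

variable {R α β : Type} [CommRing R]

/-- the Fitting ideals of a free module over a local ring -/
theorem fitting_local [Fintype α] [Fintype β] [IsLocalRing R] {r : ℕ} (m : Matrix α β R)
    (v : α → Fin r → R) (hs : Submodule.span R (Set.range v) = ⊤)
    (h1 : ∀ b, ∑ a, m a b • v a = 0)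
    (h2 : ∀ y : α → R, ∑ a, y a • v a = 0 → ∃ c : β → R, y = m *ᵥ c) :
    MZ m (Fintype.card α - r + 1) ∧
      ∃ (I : Fin (Fintype.card α - r) → α) (J : Fin (Fintype.card α - r) → β),
        IsUnit (m.submatrix I J).det := by
  classical
  let π : (α → R) →ₗ[R] (Fin r → R) := Fintype.linearCombination R v
  have hπ : ∀ y, π y = ∑ a, y a • v a := fun y => Fintype.linearCombination_apply R v y
  have hsur : LinearMap.range π = ⊤ := by
    rw [Fintype.range_linearCombination, hs]
  obtain ⟨s, hsec⟩ := π.exists_rightInverse_of_surjective hsur
  have hsec' : ∀ w, π (s w) = w := fun w => LinearMap.congr_fun hsec w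
  let K : Submodule R (α → R) := LinearMap.ker π
  let t : (α → R) →ₗ[R] K := LinearMap.codRestrict K (LinearMap.id - s ∘ₗ π) (by
    intro y
    simp [K, hsec'])
  have ht : ∀ y, (t y : α → R) = y - s (π y) := fun y => rfl
  have htK : ∀ x : K, t x = x := by
    intro x
    apply Subtype.ext
    have hx : π x = 0 := x.2
    rw [ht, hx, map_zero, sub_zero]
  have : Module.Projective R K :=
    Module.Projective.of_split K.subtype t (LinearMap.ext htK)
  have : Module.Finite R K := Module.Finite.of_surjective t (fun x => ⟨x, htK x⟩)
  have : Module.Free R K := Module.free_of_flat_of_isLocalRing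
  have hbij : Function.Bijective (t.prod π) := by
    constructor
    · rw [injective_iff_map_eq_zero]
      intro y hy
      have e1 : t y = 0 := congrArg Prod.fst hy
      have e2 : π y = 0 := congrArg Prod.snd hy
      have e3 := ht y
      rw [e1, e2, map_zero, sub_zero] at e3
      exact e3.symm
    · rintro ⟨x, w⟩
      have hx : π x = 0 := x.2
      refine ⟨x + s w, Prod.ext ?_ ?_⟩
      · apply Subtype.ext
        change (t (x + s w) : α → R) = x
        rw [ht, map_add, hx, hsec', zero_add, add_sub_cancel_right]
      · change π (x + s w) = w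
        rw [map_add, hx, hsec', zero_add]
  have hrank : Module.finrank R K = Fintype.card α - r := by
    have e := (LinearEquiv.ofBijective (t.prod π) hbij).finrank_eq
    rw [Module.finrank_prod, Module.finrank_fintype_fun_eq_card,
      Module.finrank_fintype_fun_eq_card, Fintype.card_fin] at e
    omega
  let B := Module.finBasisOfFinrankEq R K hrank
  have hcol : ∀ b, (fun a => m a b) ∈ K := fun b => by
    change π _ = 0
    rw [hπ, h1]
  let a : Matrix α (Fin (Fintype.card α - r)) R := fun x i => (B i : α → R) x
  constructor
  · let b : Matrix (Fin (Fintype.card α - r)) β R := fun i y => B.repr ⟨_, hcol y⟩ i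
    have e : m = a * b := by
      ext x y
      have e1 := congrArg (fun k : K => (k : α → R) x) (B.sum_repr ⟨_, hcol y⟩)
      simp only [Submodule.coe_sum, Submodule.coe_smul, Finset.sum_apply, Pi.smul_apply,
        smul_eq_mul] at e1
      rw [Matrix.mul_apply, ← e1]
      exact Finset.sum_congr rfl fun i _ => mul_comm _ _
    rw [e]
    exact mz_mul a b
  · have hc : ∀ j, ∃ c : β → R, (B j : α → R) = m *ᵥ c := fun j => h2 _ (by
      rw [← hπ]; exact (B j).2)
    choose c hc using hc
    let a' : Matrix (Fin (Fintype.card α - r)) α R := fun i x => B.repr (t (Pi.single x 1)) i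
    let b' : Matrix β (Fin (Fintype.card α - r)) R := fun y j => c j y
    have e1 : m * b' = a := by
      ext x j
      change _ = (B j : α → R) x
      rw [hc j]
      rfl
    have e2 : a' * a = 1 := by
      ext i j
      have e3 : (B j : α → R) = ∑ x, (B j : α → R) x • (Pi.single x 1 : α → R) := by
        ext x
        simp [Finset.sum_apply, Pi.single_apply]
      have e4 : B.repr (t (B j : α → R)) i = (1 : Matrix _ _ R) i j := by
        rw [htK, B.repr_self, Finsupp.single_apply, Matrix.one_apply]
        simp only [eq_comm]
      rw [← e4, e3, map_sum, map_sum, Matrix.mul_apply, Finsupp.finsetSum_apply]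
      refine Finset.sum_congr rfl fun x _ => ?_
      rw [map_smul, map_smul, Finsupp.smul_apply, smul_eq_mul]
      exact mul_comm _ _
    have e5 := det_mem_span a' m b'
    rw [Matrix.mul_assoc, e1, e2, Matrix.det_one] at e5
    by_contra hn
    have hle : Ideal.span (Set.range fun j : (Fin (Fintype.card α - r) → α) ×
        (Fin (Fintype.card α - r) → β) => (m.submatrix j.1 j.2).det) ≤
        IsLocalRing.maximalIdeal R := by
      rw [Ideal.span_le]
      rintro _ ⟨j, rfl⟩
      exact fun hu => hn ⟨j.1, j.2, hu⟩
    exact (IsLocalRing.mem_maximalIdeal _).mp (hle e5) isUnit_one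

end Pool.Agent.CXD
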