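import Pool.Agent.P.MP_2ce3e7_ag.CPJ
import Pool.Agent.P.MP_2ce3e7_ag.CPI

/-! The determinantal ring. -/

set_option linter.unusedSectionVars false
set_option linter.unusedVariables false

open Function Filter
open scoped TensorProduct Polynomial

noncomputable section

namespace Pool.Agent.CXD

open Matrix MvPolynomial

section
variable (k σ α β : Type) [Field k] (ρ : ℕ)

/-- the ideal of the minors of size `ρ + 1` -/
def detI : Ideal (MvPolynomial (σ ⊕ α × β) k) :=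
  Ideal.span (Set.range fun j : (Fin (ρ + 1) → α) × (Fin (ρ + 1) → β) =>
    (Matrix.of fun a b => (X (Sum.inr (j.1 a, j.2 b)) : MvPolynomial (σ ⊕ α × β) k)).det)

/-- the determinantal ring -/
abbrev Det : Type := MvPolynomial (σ ⊕ α × β) k ⧸ detI k σ α β ρ

/-- the free variables -/
def zD (i : σ) : Det k σ α β ρ := Ideal.Quotient.mk _ (X (Sum.inl i))

/-- the generic matrix -/
def mD : Matrix α β (Det k σ α β ρ) := Matrix.of fun a b => Ideal.Quotient.mk _ (X (Sum.inr (a, b)))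

/-- the equations of the bad locus -/
def sD (j : σ × (Fin ρ → α) × (Fin ρ → β)) : Det k σ α β ρ :=
  zD k σ α β ρ j.1 * ((mD k σ α β ρ).submatrix j.2.1 j.2.2).det

/-- the grading -/
def dgr {Γ : Type} [AddCommGroup Γ] (g₁ g₂ : Γ) (c : Γ) : Set (Det k σ α β ρ) :=
  {y | ∃ f : MvPolynomial (σ ⊕ α × β) k,
    f.IsWeightedHomogeneous (Sum.elim (fun _ => g₁) fun _ => g₂) c ∧ Ideal.Quotient.mk _ f = y}

end

variable {k σ α β Γ : Type} [Field k] {ρ : ℕ} [AddCommGroup Γ] {g₁ g₂ : Γ}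

instance dgr_gd : Gd (dgr k σ α β ρ g₁ g₂) := by
  refine ⟨⟨1, isWeightedHomogeneous_one _ _, map_one _⟩, ?_, ?_⟩
  · rintro c d _ ⟨f, hf, rfl⟩ _ ⟨g, hg, rfl⟩
    exact ⟨f * g, hf.mul hg, map_mul _ _ _⟩
  · refine eq_top_iff.2 fun y _ => ?_
    obtain ⟨f, rfl⟩ := Ideal.Quotient.mk_surjective y
    rw [f.as_sum, map_sum]
    exact sum_mem fun d _ => AddSubgroup.subset_closure
      (Set.mem_iUnion.2 ⟨_, _, isWeightedHomogeneous_monomial _ d _ rfl, rfl⟩)

theorem zD_mem (i : σ) : zD k σ α β ρ i ∈ dgr k σ α β ρ g₁ g₂ g₁ := by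
  exact ⟨X (Sum.inl i), isWeightedHomogeneous_X _ _ _, rfl⟩

theorem mD_mem (a : α) (b : β) : mD k σ α β ρ a b ∈ dgr k σ α β ρ g₁ g₂ g₂ := by
  exact ⟨X (Sum.inr (a, b)), isWeightedHomogeneous_X _ _ _, rfl⟩

theorem mD_mz : MZ (mD k σ α β ρ) (ρ + 1) := by
  intro I J
  have h : (mD k σ α β ρ).submatrix I J
      = (Ideal.Quotient.mk (detI k σ α β ρ)).mapMatrix
        (Matrix.of fun a b => (X (Sum.inr (I a, J b)) : MvPolynomial (σ ⊕ α × β) k)) := rfl
  rw [h, ← RingHom.map_det]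
  exact Ideal.Quotient.eq_zero_iff_mem.2 (Ideal.subset_span ⟨(I, J), rfl⟩)

theorem det_hom_ext {B : Type} [CommRing B] [Algebra k B] {u v : Det k σ α β ρ →ₐ[k] B}
    (h1 : ∀ i, u (zD k σ α β ρ i) = v (zD k σ α β ρ i))
    (h2 : ∀ a b, u (mD k σ α β ρ a b) = v (mD k σ α β ρ a b)) : u = v := by
  refine Ideal.Quotient.algHom_ext k (MvPolynomial.algHom_ext fun i => ?_)
  rcases i with i | ⟨a, b⟩
  · exact h1 i
  · exact h2 a b

theorem exists_det_lift {B : Type} [CommRing B] [Algebra k B] (z : σ → B) {m : Matrix α β B}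
    (hm : MZ m (ρ + 1)) : ∃ u : Det k σ α β ρ →ₐ[k] B, (∀ i, u (zD k σ α β ρ i) = z i) ∧
      ∀ a b, u (mD k σ α β ρ a b) = m a b := by
  let F : MvPolynomial (σ ⊕ α × β) k →ₐ[k] B := aeval (Sum.elim z fun p => m p.1 p.2)
  have hF : ∀ f ∈ detI k σ α β ρ, F f = 0 := by
    intro f hf
    have hle : detI k σ α β ρ ≤ RingHom.ker F := by
      refine Ideal.span_le.2 ?_
      rintro _ ⟨j, rfl⟩
      have h : F.mapMatrix (Matrix.of fun a b =>
          (X (Sum.inr (j.1 a, j.2 b)) : MvPolynomial (σ ⊕ α × β) k)) = m.submatrix j.1 j.2 := by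
        ext a b
        simp [F]
      have h2 := AlgHom.map_det F (Matrix.of fun a b =>
          (X (Sum.inr (j.1 a, j.2 b)) : MvPolynomial (σ ⊕ α × β) k))
      rw [h, hm j.1 j.2] at h2
      exact h2
    exact hle hf
  refine ⟨Ideal.Quotient.liftₐ _ F hF, fun i => ?_, fun a b => ?_⟩
  · simp [zD, F]
  · simp [mD, F]

theorem det_map_sD {B : Type} [CommRing B] [Algebra k B] {z : σ → B} {m : Matrix α β B}
    {u : Det k σ α β ρ →ₐ[k] B} (h1 : ∀ i, u (zD k σ α β ρ i) = z i)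
    (h2 : ∀ a b, u (mD k σ α β ρ a b) = m a b) (j : σ × (Fin ρ → α) × (Fin ρ → β)) :
    u (sD k σ α β ρ j) = z j.1 * (m.submatrix j.2.1 j.2.2).det := by
  have h : u.mapMatrix ((mD k σ α β ρ).submatrix j.2.1 j.2.2) = m.submatrix j.2.1 j.2.2 := by
    ext a b
    simp [h2]
  rw [sD, map_mul, h1, AlgHom.map_det, h]

theorem det_hm {B : Type} [CommRing B] [Algebra k B] {ℬ : Γ → Set B} [Gd ℬ] [Gk k ℬ]
    {u : Det k σ α β ρ →ₐ[k] B} (h1 : ∀ i, u (zD k σ α β ρ i) ∈ cl ℬ g₁)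
    (h2 : ∀ a b, u (mD k σ α β ρ a b) ∈ cl ℬ g₂) :
    Hm u.toRingHom (dgr k σ α β ρ g₁ g₂) ℬ (AddMonoidHom.id Γ) := by
  refine ⟨fun _ _ h => h, ?_⟩
  rintro c _ ⟨f, hf, rfl⟩
  let w : σ ⊕ α × β → Γ := Sum.elim (fun _ => g₁) fun _ => g₂
  let U : MvPolynomial (σ ⊕ α × β) k →ₐ[k] B := u.comp (Ideal.Quotient.mkₐ k _)
  have hX : ∀ i, U (X i) ∈ cl ℬ (w i) := by
    rintro (i | ⟨a, b⟩)
    · exact h1 i
    · exact h2 a b
  have hp : ∀ (d : σ ⊕ α × β →₀ ℕ) (s : Finset (σ ⊕ α × β)),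
      ∏ i ∈ s, U (X i) ^ d i ∈ cl ℬ (∑ i ∈ s, d i • w i) := by
    intro d s
    classical
    induction s using Finset.induction_on with
    | empty => simpa using cl_one
    | insert a s ha ih =>
      rw [Finset.prod_insert ha, Finset.sum_insert ha]
      exact cl_mul (cl_pow (hX a) _) ih
  show U f ∈ cl ℬ c
  rw [f.as_sum, map_sum]
  refine sum_mem fun d hd => ?_
  have hw : Finsupp.weight w d = c := hf (mem_support_iff.1 hd)
  have h3 := cl_mul (mem_cl (Gk.alg (𝒜 := ℬ) (coeff d f))) (hp d d.support)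
  rw [zero_add] at h3
  rw [← hw, Finsupp.weight_apply, monomial_eq, map_mul, Finsupp.prod, map_prod]
  simp only [map_pow]
  have h4 : U (C (coeff d f)) = algebraMap k B (coeff d f) := U.commutes _
  rw [h4]
  exact h3

end Pool.Agent.CXD
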