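import Pool.Agent.P.MP_2ce3e7_ag.CPK

/-! The determinantal ring, continued. -/

set_option linter.unusedSectionVars false
set_option linter.unusedVariables false

open Function Filter
open scoped TensorProduct Polynomial

noncomputable section

namespace Pool.Agent.CXD

open Matrix MvPolynomial

variable {k σ α β Γ : Type} [Field k] {ρ : ℕ} [AddCommGroup Γ] {g₁ g₂ : Γ}

theorem mz_single_CPK2 {D : Type} [CommRing D] {m : Matrix α β D} (h : MZ m (ρ + 1)) (g : Γ) :
    MZ (Matrix.of fun a b => (AddMonoidAlgebra.single g (m a b) : AddMonoidAlgebra D Γ))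
      (ρ + 1) := by
  intro I J
  have h0 := MZ.map (S := AddMonoidAlgebra D Γ) h AddMonoidAlgebra.singleZeroRingHom I J
  have e : (Matrix.of fun a b =>
      (AddMonoidAlgebra.single g (m a b) : AddMonoidAlgebra D Γ)).submatrix I J =
      (AddMonoidAlgebra.single g 1 : AddMonoidAlgebra D Γ) •
        (m.map (AddMonoidAlgebra.singleZeroRingHom : D →+* AddMonoidAlgebra D Γ)).submatrix I J := by
    ext1 a b
    simp [AddMonoidAlgebra.single_mul_single]
  rw [e, det_smul, h0, mul_zero]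

theorem res_CPK2 (k : Type) [Field k] {D : Type} [CommRing D] [Algebra k D] (P : Ideal D)
    (hP : P.IsPrime) : ∃ (L : Type) (_ : Field L) (_ : Algebra k L) (φ : D →ₐ[k] L),
      ∀ x, φ x = 0 → x ∈ P := by
  refine ⟨FractionRing (D ⧸ P), inferInstance, inferInstance,
    (IsScalarTower.toAlgHom k (D ⧸ P) _).comp (Ideal.Quotient.mkₐ k P), fun x hx => ?_⟩
  have e : algebraMap (D ⧸ P) (FractionRing (D ⧸ P)) (Ideal.Quotient.mk P x) = 0 := hx
  rw [map_eq_zero_iff _ (IsFractionRing.injective _ _)] at e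
  exact Ideal.Quotient.eq_zero_iff_mem.1 e

theorem coact_CPK2 : ∃ r : Det k σ α β ρ →ₐ[k] AddMonoidAlgebra (Det k σ α β ρ) Γ,
    ∀ c, ∀ y ∈ dgr k σ α β ρ g₁ g₂ c, r y = AddMonoidAlgebra.single c y := by
  classical
  have hm := mz_single_CPK2 (mD_mz (k := k) (σ := σ) (α := α) (β := β) (ρ := ρ)) g₂
  obtain ⟨r, h1, h2⟩ := exists_det_lift (k := k)
    (fun i : σ => (AddMonoidAlgebra.single g₁ (zD k σ α β ρ i) :
      AddMonoidAlgebra (Det k σ α β ρ) Γ)) hm
  refine ⟨r, ?_⟩
  set w : σ ⊕ α × β → Γ := Sum.elim (fun _ => g₁) fun _ => g₂ with hw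
  have hX : ∀ i, r (Ideal.Quotient.mk _ (X i)) =
      AddMonoidAlgebra.single (w i) (Ideal.Quotient.mk (detI k σ α β ρ) (X i)) := by
    rintro (i | ⟨a, b⟩)
    · exact h1 i
    · exact h2 a b
  have hmon : ∀ d : σ ⊕ α × β →₀ ℕ, r (Ideal.Quotient.mk _ (monomial d 1)) =
      AddMonoidAlgebra.single (Finsupp.weight w d)
        (Ideal.Quotient.mk (detI k σ α β ρ) (monomial d 1)) := by
    intro d
    induction d using Finsupp.induction_linear with
    | zero =>
      rw [monomial_zero', C_1, map_one, map_one, map_zero]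
      rfl
    | add d e hd he =>
      have e1 : (monomial (d + e) (1 : k) : MvPolynomial (σ ⊕ α × β) k) =
          monomial d 1 * monomial e 1 := by rw [monomial_mul, one_mul]
      rw [e1, map_mul, map_mul, hd, he, AddMonoidAlgebra.single_mul_single, map_add]
    | single i n =>
      rw [← X_pow_eq_monomial, map_pow, map_pow, hX, AddMonoidAlgebra.single_pow,
        Finsupp.weight_single]
  rintro c _ ⟨f, hf, rfl⟩
  induction hf using IsWeightedHomogeneous.induction_on with
  | zero => simp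
  | add p q hp hq ip iq => rw [map_add, map_add, ip, iq, AddMonoidAlgebra.single_add]
  | monomial d a hd =>
    have e1 : (monomial d a : MvPolynomial (σ ⊕ α × β) k) = C a * monomial d 1 := by
      rw [C_mul_monomial, mul_one]
    have e2 : Ideal.Quotient.mk (detI k σ α β ρ) (C a) = algebraMap k (Det k σ α β ρ) a := rfl
    rw [e1, map_mul, map_mul, hmon, hd, e2, AlgHom.commutes, AddMonoidAlgebra.coe_algebraMap,
      Function.comp_apply, AddMonoidAlgebra.single_mul_single, zero_add]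

theorem det_rg : ∃ (U : GM (dgr k σ α β ρ g₁ g₂)) (e : U.M), Cy U e ⊥ := by
  classical
  obtain ⟨r, hr⟩ := coact_CPK2 (k := k) (σ := σ) (α := α) (β := β) (ρ := ρ) (g₁ := g₁) (g₂ := g₂)
  let F : Det k σ α β ρ →+ (Γ →₀ Det k σ α β ρ) :=
    AddMonoidAlgebra.coeffAddEquiv.toAddMonoidHom.comp r.toRingHom.toAddMonoidHom
  have hF : ∀ c, ∀ y ∈ dgr k σ α β ρ g₁ g₂ c, F y = Finsupp.single c y := by
    intro c y hy
    change (r y).coeff = _
    rw [hr c y hy, AddMonoidAlgebra.coeff_single]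
  let π : Γ → Det k σ α β ρ →+ Det k σ α β ρ := fun d => (Finsupp.applyAddHom d).comp F
  have hπ : ∀ c d, ∀ y ∈ dgr k σ α β ρ g₁ g₂ c, π d y = if c = d then y else 0 := by
    intro c d y hy
    change F y d = _
    rw [hF c y hy, Finsupp.single_apply]
  refine ⟨{ M := Det k σ α β ρ
            π := π
            π_self := ?_
            π_ne := ?_
            sum_π := ?_
            π_smul := ?_ }, (1 : Det k σ α β ρ), ?_, ?_, ?_⟩
  · intro d x
    induction x using Gd.ind (dgr k σ α β ρ g₁ g₂) with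
    | h0 => simp
    | h1 c a ha =>
      by_cases h : c = d
      · rw [hπ c d a ha, if_pos h, hπ c d a ha, if_pos h]
      · rw [hπ c d a ha, if_neg h, map_zero]
    | h2 a b ha hb => rw [map_add, map_add, ha, hb]
    | h3 a ha => rw [map_neg, map_neg, ha]
  · intro d e x hde
    induction x using Gd.ind (dgr k σ α β ρ g₁ g₂) with
    | h0 => simp
    | h1 c a ha =>
      by_cases h : c = e
      · rw [hπ c e a ha, if_pos h, hπ c d a ha, if_neg (fun q => hde (q.symm.trans h))]
      · rw [hπ c e a ha, if_neg h, map_zero]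
    | h2 a b ha hb => rw [map_add, map_add, ha, hb, add_zero]
    | h3 a ha => rw [map_neg, map_neg, ha, neg_zero]
  · intro x
    refine ⟨(F x).support, ?_⟩
    have key : Finsupp.liftAddHom (fun _ : Γ => AddMonoidHom.id (Det k σ α β ρ)) (F x) = x := by
      induction x using Gd.ind (dgr k σ α β ρ g₁ g₂) with
      | h0 => simp
      | h1 c a ha => rw [hF c a ha, Finsupp.liftAddHom_apply_single, AddMonoidHom.id_apply]
      | h2 a b ha hb => rw [map_add, map_add, ha, hb]
      | h3 a ha => rw [map_neg, map_neg, ha]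
    rw [Finsupp.liftAddHom_apply] at key
    exact key
  · intro c d a ha x
    induction x using Gd.ind (dgr k σ α β ρ g₁ g₂) with
    | h0 => simp
    | h1 e b hb =>
      rw [smul_eq_mul, smul_eq_mul, hπ _ _ _ (Gd.mul c e a ha b hb), hπ e d b hb]
      by_cases h : e = d
      · rw [if_pos h, if_pos (by rw [h])]
      · rw [if_neg h, if_neg (fun q => h (add_left_cancel q)), mul_zero]
    | h2 u v hu hv => rw [smul_add, map_add, map_add, hu, hv, smul_add]
    | h3 u hu => rw [smul_neg, map_neg, map_neg, hu, smul_neg]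
  · change π 0 1 = 1
    rw [hπ 0 0 1 Gd.one, if_pos rfl]
  · exact Ideal.span_singleton_one
  · intro a
    change a * 1 = 0 ↔ _
    rw [mul_one, Ideal.mem_bot]

theorem det_shf (hg : AddSubgroup.closure {g₁} = ⊤) (P : Ideal (Det k σ α β ρ)) (hP : P.IsPrime)
    (h : ∃ j, sD k σ α β ρ j ∉ P) : Shf (dgr k σ α β ρ g₁ g₂) P := by
  obtain ⟨j, hj⟩ := h
  refine shf_of_gen hP hg ?_
  rintro u rfl
  exact ⟨zD k σ α β ρ j.1, mem_cl (zD_mem j.1), fun q => hj (P.mul_mem_right _ q)⟩

theorem det_irr : ∃ P₀ : Ideal (Det k σ α β ρ), P₀.IsPrime ∧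
    ∀ P : Ideal (Det k σ α β ρ), P.IsPrime → (∃ j, sD k σ α β ρ j ∉ P) → P₀ ≤ P := by
  classical
  let a : Matrix α (Fin ρ) (MvPolynomial (σ ⊕ (α × Fin ρ) ⊕ (Fin ρ × β)) k) :=
    Matrix.of fun x l => X (Sum.inr (Sum.inl (x, l)))
  let b : Matrix (Fin ρ) β (MvPolynomial (σ ⊕ (α × Fin ρ) ⊕ (Fin ρ × β)) k) :=
    Matrix.of fun l y => X (Sum.inr (Sum.inr (l, y)))
  obtain ⟨u, h1, h2⟩ := exists_det_lift (k := k)
    (fun i : σ => (X (Sum.inl i) : MvPolynomial (σ ⊕ (α × Fin ρ) ⊕ (Fin ρ × β)) k)) (mz_mul a b)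
  refine ⟨RingHom.ker u.toRingHom, RingHom.ker_isPrime _, ?_⟩
  rintro P hP ⟨⟨i, I, J⟩, hj⟩
  obtain ⟨L, _, _, φ, hφ⟩ := res_CPK2 k P hP
  set m := (mD k σ α β ρ).map φ.toRingHom with hm
  have hz : MZ m (ρ + 1) := mD_mz.map _
  have hd : (m.submatrix I J).det ≠ 0 := by
    intro e
    apply hj
    refine P.mul_mem_left _ (hφ _ ?_)
    rw [← e, hm, submatrix_map]
    exact φ.toRingHom.map_det _
  have hf := hz.factor (inv_mul_cancel₀ hd)
  set N := ((m.submatrix I J).det)⁻¹ • ((m.submatrix I J).adjugate * m.submatrix I id) with hN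
  let v : MvPolynomial (σ ⊕ (α × Fin ρ) ⊕ (Fin ρ × β)) k →ₐ[k] L :=
    aeval (Sum.elim (fun i => φ (zD k σ α β ρ i))
      (Sum.elim (fun p => m.submatrix id J p.1 p.2) fun p => N p.1 p.2))
  have e : v.comp u = φ := by
    refine det_hom_ext (fun i => ?_) (fun x y => ?_)
    · rw [AlgHom.comp_apply, h1]
      simp [v]
    · rw [AlgHom.comp_apply, h2]
      have e1 : φ (mD k σ α β ρ x y) = m x y := rfl
      have e2 : m x y = (m.submatrix id J * N) x y := by rw [← hf]
      rw [e1, e2, mul_apply, mul_apply, map_sum]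
      refine Finset.sum_congr rfl fun l _ => ?_
      simp only [a, b, v, of_apply, map_mul, aeval_X, Sum.elim_inr, Sum.elim_inl]
  intro x hx
  apply hφ
  have hx' : u x = 0 := hx
  rw [← e, AlgHom.comp_apply, hx', map_zero]

end Pool.Agent.CXD
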