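import Pool.Agent.P.MP_2ce3e7_ag.CPK2

/-! The charts of the determinantal ring. -/

set_option linter.unusedSectionVars false
set_option linter.unusedVariables false

open Function Filter
open scoped TensorProduct Polynomial

noncomputable section

namespace Pool.Agent.CXD

open Matrix MvPolynomial

variable {k σ α β Γ : Type} [Field k] {ρ : ℕ} [AddCommGroup Γ] {g₁ g₂ : Γ}

theorem lift_CPL {D L : Type} [CommRing D] [Algebra k D] [CommRing L] [Algebra k L] (s : D)
    (F0 : D →ₐ[k] L) (hF : IsUnit (F0 s)) :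
    ∃ F : Localization (Submonoid.powers s) →ₐ[k] L, ∀ d, F (algebraMap D _ d) = F0 d := by
  have h : ∀ y : Submonoid.powers s, IsUnit (F0 y) := by
    rintro ⟨_, n, rfl⟩
    simpa only [map_pow] using hF.pow n
  exact ⟨IsLocalization.liftAlgHom h, fun d => IsLocalization.lift_eq h d⟩

theorem ext_CPL {D : Type} [CommRing D] [Algebra k D] (s : D)
    (F : Localization (Submonoid.powers s) →ₐ[k] Localization (Submonoid.powers s))
    (h : ∀ d, F (algebraMap D _ d) = algebraMap D _ d) : F = AlgHom.id k _ := by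
  apply AlgHom.coe_ringHom_injective
  apply IsLocalization.ringHom_ext (Submonoid.powers s)
  exact RingHom.ext h

theorem cmap_CPL {R S : Type} [CommRing R] [CommRing S] (φ : R →+* S) (u : R)
    (M : Matrix (Fin ρ) (Fin ρ) R) (N : Matrix (Fin ρ) β R) :
    (u • (M.adjugate * N)).map φ = φ u • ((M.map φ).adjugate * N.map φ) := by
  have h := φ.map_adjugate M
  rw [RingHom.mapMatrix_apply, RingHom.mapMatrix_apply] at h
  rw [← h, ← Matrix.map_mul]
  ext i b
  simp only [map_apply, Matrix.smul_apply, smul_eq_mul, map_mul]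

theorem sub_CPL {R α' β' : Type} [CommRing R] (A : Matrix α (Fin ρ) R) (B : Matrix (Fin ρ) β R)
    (I : α' → α) (J : β' → β) :
    (A * B).submatrix I J = A.submatrix I id * B.submatrix id J :=
  Matrix.submatrix_mul A B I id J bijective_id

theorem detmap_CPL {R S : Type} [CommRing R] [CommRing S] (φ : R →+* S)
    (M : Matrix (Fin ρ) (Fin ρ) R) : φ M.det = (M.map φ).det := φ.map_det M

theorem det_chart (j : σ × (Fin ρ → α) × (Fin ρ → β)) (hj : Injective j.2.2) :
    ∃ f : MvPolynomial (σ ⊕ α × Fin ρ ⊕ Fin ρ × {b : β // b ∉ Set.range j.2.2}) k,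
      Nonempty (Localization (Submonoid.powers f) ≃ₐ[k]
        Localization (Submonoid.powers (sD k σ α β ρ j))) := by
  classical
  obtain ⟨i0, I, J⟩ := j
  dsimp only at hj ⊢
  let Pm := MvPolynomial (σ ⊕ α × Fin ρ ⊕ Fin ρ × {b : β // b ∉ Set.range J}) k
  let a : Matrix α (Fin ρ) Pm := Matrix.of fun x i => X (Sum.inr (Sum.inl (x, i)))
  let bh : Matrix (Fin ρ) β Pm := Matrix.of fun i b =>
    if h : b ∈ Set.range J then (if J i = b then 1 else 0) else X (Sum.inr (Sum.inr (i, ⟨b, h⟩)))
  have hbJ : bh.submatrix id J = 1 := by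
    ext1 i l
    simp only [bh, submatrix_apply, of_apply, id, Set.mem_range_self, dif_pos, hj.eq_iff,
      Matrix.one_apply]
  have hbn : ∀ i (b : {b : β // b ∉ Set.range J}), bh i b.1 = X (Sum.inr (Sum.inr (i, b))) := by
    intro i b
    simp only [bh, of_apply, dif_neg b.2]
  let f : Pm := X (Sum.inl i0) * (a.submatrix I id).det
  refine ⟨f, ?_⟩
  generalize hs : sD k σ α β ρ (i0, I, J) = s
  let ι1 : Pm →+* Localization (Submonoid.powers f) := algebraMap _ _
  let ι2 : Det k σ α β ρ →+* Localization (Submonoid.powers s) := algebraMap _ _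
  have hu1 : IsUnit (ι1 f) := IsLocalization.map_units _ (⟨f, Submonoid.mem_powers f⟩ :
    Submonoid.powers f)
  have hu2 : IsUnit (ι2 s) := IsLocalization.map_units _ (⟨s, Submonoid.mem_powers s⟩ :
    Submonoid.powers s)
  have hB : (bh.map ι1).submatrix id J = 1 := by
    rw [submatrix_map, hbJ, Matrix.map_one _ (map_zero _) (map_one _)]
  obtain ⟨F0, hF1, hF2⟩ := exists_det_lift (k := k) (fun i => ι1 (X (Sum.inl i)))
    (mz_mul (a.map ι1) (bh.map ι1))
  have hFs : F0 s = ι1 f := by
    rw [← hs, det_map_sD hF1 hF2, sub_CPL, hB, Matrix.mul_one, map_mul, detmap_CPL, submatrix_map]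
  let m := (mD k σ α β ρ).map ι2
  have hm : MZ m (ρ + 1) := mD_mz.map ι2
  have hsm : ι2 s = ι2 (zD k σ α β ρ i0) * (m.submatrix I J).det := by
    refine (congrArg ι2 hs.symm).trans ?_
    rw [sD, map_mul, detmap_CPL, submatrix_map]
  obtain ⟨u, hu⟩ : ∃ u, u * (m.submatrix I J).det = 1 := by
    rw [hsm] at hu2
    exact (isUnit_of_mul_isUnit_right hu2).exists_left_inv
  let c := u • ((m.submatrix I J).adjugate * m.submatrix I id)
  have hmc : m = m.submatrix id J * c := hm.factor hu
  have hcJ : c.submatrix id J = 1 := by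
    have h1 : c.submatrix id J = u • ((m.submatrix I J).adjugate * m.submatrix I J) := by
      ext1 i l
      simp [c, Matrix.mul_apply]
    rw [h1, adjugate_mul, smul_smul, hu, one_smul]
  let G0 : Pm →ₐ[k] Localization (Submonoid.powers s) := aeval
    (Sum.elim (fun i => ι2 (zD k σ α β ρ i))
      (Sum.elim (fun p => m p.1 (J p.2)) fun p => c p.1 p.2.1))
  have hG1 : ∀ i, G0 (X (Sum.inl i)) = ι2 (zD k σ α β ρ i) := fun i => aeval_X _ _
  have hGa : a.map G0.toRingHom = m.submatrix id J := by
    ext1 x i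
    exact aeval_X _ _
  have hGb : bh.map G0.toRingHom = c := by
    ext1 i b
    by_cases h : b ∈ Set.range J
    · obtain ⟨l, rfl⟩ := h
      have h1 : bh i (J l) = (1 : Matrix (Fin ρ) (Fin ρ) Pm) i l := congrFun (congrFun hbJ i) l
      have h2 : c i (J l) = (1 : Matrix (Fin ρ) (Fin ρ) _) i l := congrFun (congrFun hcJ i) l
      rw [map_apply, h1, h2, Matrix.one_apply, Matrix.one_apply]
      split_ifs
      · exact map_one _
      · exact map_zero _
    · rw [map_apply, hbn i ⟨b, h⟩]
      exact aeval_X _ _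
  have hGf : G0 f = ι2 s := by
    have h1 := detmap_CPL G0.toRingHom (a.submatrix I id)
    rw [← submatrix_map, hGa] at h1
    rw [hsm, map_mul, hG1]
    exact congrArg _ h1
  obtain ⟨F, hF⟩ := lift_CPL s F0 (hFs ▸ hu1)
  obtain ⟨G, hG⟩ := lift_CPL f G0 (hGf ▸ hu2)
  have hFm : m.map F.toRingHom = a.map ι1 * bh.map ι1 := by
    ext1 x b
    exact (hF _).trans (hF2 x b)
  have hFG : F.comp G0 = IsScalarTower.toAlgHom k Pm _ := by
    apply MvPolynomial.algHom_ext
    rintro (i | ⟨x, l⟩ | ⟨l, b⟩)
    · exact (congrArg F (hG1 i)).trans ((hF _).trans (hF1 i))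
    · have h1 : (m.submatrix id J).map F.toRingHom = a.map ι1 := by
        rw [← submatrix_map, hFm, sub_CPL, hB, Matrix.mul_one, submatrix_id_id]
      rw [← hGa] at h1
      exact congrFun (congrFun h1 x) l
    · have h0 : (m.submatrix I J).map F.toRingHom = (a.map ι1).submatrix I id := by
        rw [← submatrix_map, hFm, sub_CPL, hB, Matrix.mul_one]
      have h2 : F.toRingHom u * ((a.map ι1).submatrix I id).det = 1 := by
        rw [← h0, ← detmap_CPL, ← map_mul, hu, map_one]
      have h1 : c.map F.toRingHom = bh.map ι1 := by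
        rw [cmap_CPL, h0, ← submatrix_map, hFm, sub_CPL, submatrix_id_id, ← Matrix.mul_assoc,
          adjugate_mul, Matrix.smul_mul, Matrix.one_mul, smul_smul, h2, one_smul]
      rw [← hGb] at h1
      have h3 := congrFun (congrFun h1 l) b.1
      rw [map_apply, map_apply, map_apply, hbn] at h3
      exact h3
  have hGF : G.comp F0 = IsScalarTower.toAlgHom k (Det k σ α β ρ) _ := by
    apply det_hom_ext
    · intro i
      exact (congrArg G (hF1 i)).trans ((hG _).trans (hG1 i))
    · intro x b
      have h1 : (a.map ι1).map G.toRingHom = a.map G0.toRingHom := by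
        ext1 x i
        exact hG _
      have h2 : (bh.map ι1).map G.toRingHom = bh.map G0.toRingHom := by
        ext1 x i
        exact hG _
      have h3 : (a.map ι1 * bh.map ι1).map G.toRingHom = m := by
        rw [Matrix.map_mul, h1, h2, hGa, hGb, ← hmc]
      exact (congrArg G (hF2 x b)).trans (congrFun (congrFun h3 x) b)
  refine ⟨AlgEquiv.ofAlgHom G F (ext_CPL s _ fun d => ?_) (ext_CPL f _ fun d => ?_)⟩
  · exact (congrArg G (hF d)).trans (DFunLike.congr_fun hGF d)
  · exact (congrArg F (hG d)).trans (DFunLike.congr_fun hFG d)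

theorem sD_zero (j : σ × (Fin ρ → α) × (Fin ρ → β)) (hj : ¬Injective j.2.2) :
    sD k σ α β ρ j = 0 := by
  obtain ⟨a, b, hab, hne⟩ := Function.not_injective_iff.1 hj
  rw [sD, det_zero_of_column_eq hne fun i => by simp [hab], mul_zero]

theorem det_uni [Fintype k] [Fintype σ] [Fintype α] [Fintype β]
    (hg : AddSubgroup.closure {g₁} = ⊤) {U : GM (dgr k σ α β ρ g₁ g₂)} {e : U.M}
    (hU : Cy U e ⊥) : Uni k (sD k σ α β ρ) U e := by
  classical
  have key : ∀ j, (∃ g, GlD (Localization (Submonoid.powers (sD k σ α β ρ j))) g) ∧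
      ∀ n, PwH k n → PwFl n (Localization (Submonoid.powers (sD k σ α β ρ j))) := by
    intro j
    by_cases hj : Injective j.2.2
    · obtain ⟨f, ⟨E⟩⟩ := det_chart (k := k) j hj
      obtain ⟨g, hg⟩ := gld_mv k (σ ⊕ α × Fin ρ ⊕ Fin ρ × {b : β // b ∉ Set.range j.2.2})
      exact ⟨⟨g, (hg.loc _).equiv E.toRingEquiv⟩, fun n hn =>
        (((pf_mv k _ hn.1).loc (hn.2 _).choose_spec _).equiv E.toRingEquiv)⟩
    · have h0 : (0 : Det k σ α β ρ) ∈ Submonoid.powers (sD k σ α β ρ j) := by
        rw [← sD_zero (k := k) j hj]; exact Submonoid.mem_powers _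
      have : Subsingleton (Localization (Submonoid.powers (sD k σ α β ρ j))) :=
        IsLocalization.subsingleton h0
      exact ⟨⟨0, gld_triv⟩, fun _ _ _ _ => RingHom.Flat.of_bijective
        ⟨fun _ _ _ => Subsingleton.elim _ _, fun y => ⟨y, Subsingleton.elim _ _⟩⟩⟩
  choose g hg' using fun j => (key j).1
  exact ⟨hU, ⟨Finset.univ.sup g, fun j => (hg' j).mono (Finset.le_sup (Finset.mem_univ j))⟩,
    fun j => (key j).2, det_shf hg, det_irr⟩

end Pool.Agent.CXD
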