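import Pool.Agent.P.MP_2ce3e7_ag.CPK

/-! The cokernel of a matrix. -/

set_option linter.unusedSectionVars false
set_option linter.unusedVariables false

open Function Filter
open scoped TensorProduct Polynomial

noncomputable section

namespace Pool.Agent.CXD

open Matrix

variable {k σ α β Γ : Type} [Field k] {ρ : ℕ} [AddCommGroup Γ] {g₁ g₂ : Γ}

/-- the cokernel of a matrix -/
structure Cok {D : Type} [CommRing D] {𝒟 : Γ → Set D} [Fintype α] (m : Matrix α β D) (n : Γ)
    (E : GM 𝒟) (ε : α → E.M) : Prop where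
  hom : ∀ a, E.π n (ε a) = ε a
  gen : Submodule.span D (Set.range ε) = ⊤
  rel : ∀ b, ∑ a, m a b • ε a = 0
  lift : ∀ (X : Type) [AddCommGroup X] [Module D X] (x : α → X), (∀ b, ∑ a, m a b • x a = 0) →
    ∃ g : E.M →ₗ[D] X, ∀ a, g (ε a) = x a

theorem exists_cok {D : Type} [CommRing D] {𝒟 : Γ → Set D} [Gd 𝒟] [Fintype α] {U : GM 𝒟}
    {e : U.M} (hU : Cy U e ⊥) {m : Matrix α β D} (hm : ∀ a b, m a b ∈ cl 𝒟 g₂) (n : Γ) :
    ∃ (E : GM 𝒟) (ε : α → E.M), Cok m n E ε := by
  classical
  obtain ⟨c, hc, -⟩ := hU.exists_coord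
  have hce : ∀ y, c y • e = y := fun y => c.injective (hc _)
  let F : GM 𝒟 := GM.piF fun _ : α => U.shift (-n)
  have dec : ∀ y : α → U.M, ∑ a, c (y a) • (Pi.single a e : α → U.M) = y := fun y => by
    conv_rhs => rw [← Finset.univ_sum_single y]
    exact Finset.sum_congr rfl fun a _ => by rw [← Pi.single_smul, hce]
  have hst : St F (Submodule.span D (Set.range fun (b : β) (a : α) => m a b • e)) :=
    st_span (by
      rintro _ ⟨b, rfl⟩
      refine ⟨n + g₂, funext fun a => ?_⟩
      change U.π (-n + (n + g₂)) (m a b • e) = m a b • e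
      have := GM.hom_smul (hm a b) hU.hom
      rwa [neg_add_cancel_left, ← add_zero g₂])
  refine ⟨F.quo _ hst, fun a => Submodule.mkQ _ (Pi.single a e : α → U.M), fun a => ?_, ?_,
    fun b => ?_, fun X _ _ x hx => ?_⟩
  · refine (quo_π hst n _).trans (congrArg _ (funext fun i => ?_))
    change U.π (-n + n) ((Pi.single a e : α → U.M) i) = (Pi.single a e : α → U.M) i
    rw [neg_add_cancel]
    by_cases h : i = a
    · rw [h, Pi.single_eq_same, hU.hom]
    · rw [Pi.single_eq_of_ne h, map_zero]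
  · rw [eq_top_iff]
    intro y _
    obtain ⟨y, rfl⟩ := Submodule.mkQ_surjective _ y
    rw [← dec y, map_sum]
    exact Submodule.sum_mem _ fun a _ => by
      rw [map_smul]; exact Submodule.smul_mem _ _ (Submodule.subset_span ⟨a, rfl⟩)
  · have := dec fun a => m a b • e
    simp only [hc] at this
    simp only [← map_smul]
    rw [← map_sum, this]
    exact (Submodule.Quotient.mk_eq_zero _).2 (Submodule.subset_span ⟨b, rfl⟩)
  · let φ : (α → U.M) →ₗ[D] X :=
      ∑ a, LinearMap.toSpanSingleton D X (x a) ∘ₗ c.toLinearMap ∘ₗ LinearMap.proj a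
    have hφ : ∀ y, φ y = ∑ a, c (y a) • x a := fun y => by
      simp only [φ, LinearMap.sum_apply]; rfl
    refine ⟨Submodule.liftQ _ φ (Submodule.span_le.2 ?_), fun a => ?_⟩
    · rintro _ ⟨b, rfl⟩
      refine (hφ _).trans ?_
      simp only [hc]
      exact hx b
    · refine (hφ _).trans ?_
      rw [Finset.sum_eq_single a (fun j _ hj => by rw [Pi.single_eq_of_ne hj, map_zero, zero_smul])
        (fun h => absurd (Finset.mem_univ _) h), Pi.single_eq_same]
      have := hc 1
      rw [one_smul] at this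
      rw [this, one_smul]

theorem Cok.finite {D : Type} [CommRing D] {𝒟 : Γ → Set D} [Fintype α] {m : Matrix α β D} {n : Γ}
    {E : GM 𝒟} {ε : α → E.M} (h : Cok m n E ε) : Module.Finite D E.M := by
  exact ⟨h.gen ▸ Submodule.fg_span (Set.finite_range ε)⟩

theorem Cok.qp {D : Type} [CommRing D] {𝒟 : Γ → Set D} [Fintype α] [Fintype β]
    {m : Matrix α β D} {n : Γ} {E : GM 𝒟} {ε : α → E.M} (h : Cok m n E ε) (hm : MZ m (ρ + 1))
    (I : Fin ρ → α) (J : Fin ρ → β) : Qp (m.submatrix I J).det E.M := by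
  classical
  obtain ⟨δ, hδ⟩ : ∃ δ, δ = (m.submatrix I J).det := ⟨_, rfl⟩
  obtain ⟨B, hB⟩ : ∃ B : Matrix (Fin ρ) α D,
    B = (m.submatrix I J).adjugate * (1 : Matrix α α D).submatrix I id := ⟨_, rfl⟩
  obtain ⟨A, hA⟩ : ∃ A : Matrix α α D, A = δ ^ 2 • 1 - δ • (m.submatrix id J * B) := ⟨_, rfl⟩
  have h1 : (1 : Matrix α α D).submatrix I id * m = m.submatrix I id := by
    ext i b
    simp [Matrix.mul_apply, Matrix.one_apply]
  have h2 : A * m = 0 := by
    rw [hA, Matrix.sub_mul, Matrix.smul_mul, Matrix.smul_mul, Matrix.one_mul, hB, Matrix.mul_assoc,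
      Matrix.mul_assoc, h1, ← Matrix.mul_assoc, hδ, hm.schur I J, sub_self]
  obtain ⟨g, hg⟩ := h.lift (α → D) (fun a i => A i a) fun b => funext fun i => by
    have := congrFun (congrFun h2 i) b
    rw [Matrix.mul_apply] at this
    rw [Finset.sum_apply]
    exact (Finset.sum_congr rfl fun a _ => mul_comm _ _).trans this
  rw [← hδ]
  refine (qp_pi δ α).retract g (Fintype.linearCombination D ε) (m := 2) fun x => ?_
  have key : Fintype.linearCombination D ε ∘ₗ g = δ ^ 2 • LinearMap.id :=
    LinearMap.ext_on_range h.gen fun a => by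
      rw [LinearMap.comp_apply, hg, Fintype.linearCombination_apply, hA]
      have h3 : ∑ i, (m.submatrix id J * B) i a • ε i = 0 := by
        simp only [Matrix.mul_apply, Finset.sum_smul]
        rw [Finset.sum_comm]
        refine Finset.sum_eq_zero fun j _ => ?_
        simp only [mul_comm _ (B j a), mul_smul]
        rw [← Finset.smul_sum]
        exact (congrArg _ (h.rel (J j))).trans (smul_zero _)
      simp only [Matrix.sub_apply, Matrix.smul_apply, sub_smul, smul_assoc, Finset.sum_sub_distrib,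
        ← Finset.smul_sum, h3, smul_zero, sub_zero]
      simp [Matrix.one_apply]
  exact LinearMap.congr_fun key x

theorem Cok.ql [Fintype α] [Fintype β] {n : Γ} {E : GM (dgr k σ α β ρ g₁ g₂)} {ε : α → E.M}
    (h : Cok (mD k σ α β ρ) n E ε) : QL (sD k σ α β ρ) E :=
  ⟨h.finite, fun j => (h.qp mD_mz j.2.1 j.2.2).mul _⟩

end Pool.Agent.CXD
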