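import Pool.Agent.P.MP_2ce3e7_ag.CPL2
import Pool.Agent.P.MP_2ce3e7_ag.CPJ2

attribute [local instance] Pool.Agent.CXD.instAddCommGroupCp Pool.Agent.CXD.instModuleCp

/-! Presentations of vector bundles. -/

set_option linter.unusedSectionVars false
set_option linter.unusedVariables false

open Function Filter
open scoped TensorProduct Polynomial

noncomputable section

namespace Pool.Agent.CXD

open Matrix

variable {B Γ σ α β : Type} [CommRing B] [AddCommGroup Γ] {ℬ : Γ → Set B} [Fintype α] [Fintype β]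

/-- a presentation outside the common zeros of the `z i` -/
structure Pres (z : σ → B) (V : GM ℬ) (n : Γ) (v : α → V.M) (m : Matrix α β B) : Prop where
  hom : ∀ a, V.π n (v a) = v a
  rel : ∀ b, ∑ a, m a b • v a = 0
  cok : ∀ i x, ∃ M : ℕ, z i ^ M • x ∈ Submodule.span B (Set.range v)
  ker : ∀ i (y : α → B), ∑ a, y a • v a = 0 → ∃ (M : ℕ) (c : β → B), z i ^ M • y = m *ᵥ c

/-- locally free of rank `r` outside the common zeros of the `z i` -/
def VB' (z : σ → B) (r : ℕ) (X : Type) [AddCommGroup X] [Module B X] : Prop :=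
  ∀ (p : Ideal B) [p.IsPrime], (∃ i, z i ∉ p) →
    Nonempty (LocalizedModule p.primeCompl X ≃ₗ[Localization.AtPrime p]
      (Fin r → Localization.AtPrime p))

variable {z : σ → B} {V : GM ℬ} {n : Γ} {v : α → V.M} {m : Matrix α β B} {r : ℕ}

theorem Pres.fitting (h : Pres z V n v m) (hV : VB' z r V.M) (p : Ideal B) [p.IsPrime] {i : σ}
    (hi : z i ∉ p) :
    (∀ (I : Fin (Fintype.card α - r + 1) → α) (J : Fin (Fintype.card α - r + 1) → β),
      ∃ b, b ∉ p ∧ b * (m.submatrix I J).det = 0) ∧
    ∃ (I : Fin (Fintype.card α - r) → α) (J : Fin (Fintype.card α - r) → β),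
      (m.submatrix I J).det ∉ p := by
  classical
  obtain ⟨e⟩ := hV p ⟨i, hi⟩
  let φ : V.M →+ (Fin r → Localization.AtPrime p) :=
    e.toLinearMap.toAddMonoidHom.comp (LocalizedModule.mkLinearMap p.primeCompl V.M).toAddMonoidHom
  have hφ : ∀ x, φ x = e (LocalizedModule.mk x 1) := fun _ => rfl
  have hφs : ∀ (b : B) (x : V.M),
      φ (b • x) = algebraMap B (Localization.AtPrime p) b • φ x := by
    intro b x
    rw [hφ, hφ, ← map_smul, algebraMap_smul, LocalizedModule.smul'_mk]
  have hun : ∀ b : B, b ∉ p → IsUnit (algebraMap B (Localization.AtPrime p) b) := fun b hb =>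
    IsLocalization.map_units (M := p.primeCompl) (Localization.AtPrime p) ⟨b, hb⟩
  have hzi : ∀ M : ℕ, z i ^ M ∉ p := fun M hM => hi (Ideal.IsPrime.mem_of_pow_mem ‹_› M hM)
  have hs : Submodule.span (Localization.AtPrime p) (Set.range fun a => φ (v a)) = ⊤ := by
    have k1 : ∀ x ∈ Submodule.span B (Set.range v),
        φ x ∈ Submodule.span (Localization.AtPrime p) (Set.range fun a => φ (v a)) := by
      intro x hx
      induction hx using Submodule.span_induction with
      | mem x hx =>
        obtain ⟨a, rfl⟩ := hx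
        exact Submodule.subset_span ⟨a, rfl⟩
      | zero => rw [map_zero]; exact zero_mem _
      | add x y _ _ hx hy => rw [map_add]; exact add_mem hx hy
      | smul b x _ hx => rw [hφs]; exact Submodule.smul_mem _ _ hx
    have k2 : ∀ x, φ x ∈ Submodule.span (Localization.AtPrime p) (Set.range fun a => φ (v a)) := by
      intro x
      obtain ⟨M, hM⟩ := h.cok i x
      have k3 := k1 _ hM
      rw [hφs] at k3
      exact (Submodule.smul_mem_iff_of_isUnit _ (hun _ (hzi M))).1 k3
    rw [eq_top_iff]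
    rintro w -
    obtain ⟨y, rfl⟩ := e.surjective w
    induction y using LocalizedModule.induction_on with
    | h x s =>
      have k4 : LocalizedModule.mk x s =
          (Localization.mk 1 s : Localization.AtPrime p) • LocalizedModule.mk x 1 := by
        rw [LocalizedModule.mk_smul_mk, one_smul, mul_one]
      rw [k4, map_smul]
      exact Submodule.smul_mem _ _ (k2 x)
  have h1 : ∀ b, ∑ a, (m.map (algebraMap B (Localization.AtPrime p))) a b • φ (v a) = 0 := by
    intro b
    simp only [Matrix.map_apply, ← hφs]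
    rw [← map_sum, h.rel, map_zero]
  have h2 : ∀ y : α → Localization.AtPrime p, ∑ a, y a • φ (v a) = 0 →
      ∃ c : β → Localization.AtPrime p,
        y = (m.map (algebraMap B (Localization.AtPrime p))) *ᵥ c := by
    intro y hy
    obtain ⟨s, hs'⟩ := IsLocalization.exist_integer_multiples_of_finite p.primeCompl y
    choose y₀ hy₀ using hs'
    have k1 : φ (∑ a, y₀ a • v a) = 0 := by
      rw [map_sum]
      simp only [hφs, hy₀, smul_assoc]
      rw [← Finset.smul_sum, hy, smul_zero]
    rw [hφ, e.map_eq_zero_iff] at k1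
    obtain ⟨t, ht⟩ := (IsLocalizedModule.eq_zero_iff p.primeCompl
      (LocalizedModule.mkLinearMap p.primeCompl V.M)).1 k1
    have k2 : ∑ a, ((t : B) * y₀ a) • v a = 0 := by
      simp only [mul_smul]
      rw [← Finset.smul_sum]
      exact ht
    obtain ⟨M, c, hc⟩ := h.ker i _ k2
    have k3 : IsUnit (algebraMap B (Localization.AtPrime p) (z i ^ M * t * s)) := by
      rw [map_mul, map_mul]
      exact ((hun _ (hzi M)).mul (hun _ t.2)).mul (hun _ s.2)
    obtain ⟨w, hw⟩ := k3.exists_left_inv
    refine ⟨fun b => w * algebraMap B (Localization.AtPrime p) (c b), funext fun a => ?_⟩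
    have k4 := congrArg (algebraMap B (Localization.AtPrime p)) (congrFun hc a)
    simp only [Pi.smul_apply, smul_eq_mul, map_mul, hy₀, Algebra.smul_def, Matrix.mulVec,
      dotProduct, map_sum] at k4
    simp only [Matrix.mulVec, dotProduct, Matrix.map_apply]
    rw [map_mul, map_mul] at hw
    calc y a = w * (algebraMap B (Localization.AtPrime p) (z i ^ M) *
          (algebraMap B (Localization.AtPrime p) t *
            (algebraMap B (Localization.AtPrime p) s * y a))) := by
          linear_combination (-(y a)) * hw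
      _ = _ := by
          rw [k4, Finset.mul_sum]
          exact Finset.sum_congr rfl fun b _ => by ring
  obtain ⟨k1, I, J, k2⟩ := fitting_local _ _ hs h1 h2
  have hdet : ∀ {ρ : ℕ} (I : Fin ρ → α) (J : Fin ρ → β),
      ((m.map (algebraMap B (Localization.AtPrime p))).submatrix I J).det =
        algebraMap B (Localization.AtPrime p) (m.submatrix I J).det := fun I J => by
    rw [RingHom.map_det]
    rfl
  refine ⟨fun I' J' => ?_, I, J, ?_⟩
  · have k3 := k1 I' J'
    rw [hdet] at k3
    obtain ⟨b, hb⟩ := (IsLocalization.map_eq_zero_iff p.primeCompl _ _).1 k3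
    exact ⟨b, b.2, hb⟩
  · rw [hdet] at k2
    exact (IsLocalization.AtPrime.isUnit_to_map_iff _ p _).1 k2

theorem Pres.rad (h : Pres z V n v m) (hV : VB' z r V.M) (i : σ) :
    z i ∈ (Ideal.span (Set.range
      fun j : σ × (Fin (Fintype.card α - r) → α) × (Fin (Fintype.card α - r) → β) =>
        z j.1 * (m.submatrix j.2.1 j.2.2).det)).radical := by
  rw [Ideal.radical_eq_sInf, Submodule.mem_sInf]
  rintro p ⟨hle, hp⟩
  by_contra hi
  obtain ⟨-, I, J, hd⟩ := h.fitting hV p hi
  exact (hp.mem_or_mem (hle (Ideal.subset_span ⟨(i, I, J), rfl⟩))).elim hi hd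

theorem Pres.kill [Fintype σ] (h : Pres z V n v m) (hV : VB' z r V.M) : ∃ M : ℕ,
    ∀ (i : σ) (I : Fin (Fintype.card α - r + 1) → α) (J : Fin (Fintype.card α - r + 1) → β),
      z i ^ M * (m.submatrix I J).det = 0 := by
  classical
  have key : ∀ j : σ × (Fin (Fintype.card α - r + 1) → α) × (Fin (Fintype.card α - r + 1) → β),
      ∃ M : ℕ, z j.1 ^ M * (m.submatrix j.2.1 j.2.2).det = 0 := by
    rintro ⟨i, I, J⟩
    have k1 : z i ∈ Ideal.radical
        (LinearMap.ker (LinearMap.toSpanSingleton B B (m.submatrix I J).det)) := by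
      rw [Ideal.radical_eq_sInf, Submodule.mem_sInf]
      rintro p ⟨hle, hp⟩
      by_contra hi
      obtain ⟨b, hb, hb'⟩ := (h.fitting hV p hi).1 I J
      exact hb (hle hb')
    exact k1
  choose M hM using key
  refine ⟨Finset.univ.sup M, fun i I J => ?_⟩
  obtain ⟨c, hc⟩ := Nat.exists_eq_add_of_le (Finset.le_sup (f := M) (Finset.mem_univ (i, I, J)))
  rw [hc, add_comm, pow_add, mul_assoc, hM (i, I, J), mul_zero]

theorem Pres.scale [Fintype σ] (h : Pres z V n v m) (M : ℕ) :
    Pres z V n v (Matrix.of fun a (b : σ × β) => z b.1 ^ M * m a b.2) := by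
  classical
  refine ⟨h.hom, fun b => ?_, h.cok, fun i y hy => ?_⟩
  · simp only [Matrix.of_apply, mul_smul]
    rw [← Finset.smul_sum, h.rel, smul_zero]
  · obtain ⟨M₀, c, hc⟩ := h.ker i y hy
    refine ⟨M + M₀, fun b => if b.1 = i then c b.2 else 0, funext fun a => ?_⟩
    rw [pow_add, mul_smul, hc]
    simp only [Pi.smul_apply, smul_eq_mul, Matrix.mulVec, dotProduct, Matrix.of_apply,
      Fintype.sum_prod_type]
    rw [Finset.sum_eq_single i, Finset.mul_sum]
    · exact Finset.sum_congr rfl fun b _ => by rw [if_pos rfl, mul_assoc]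
    · intro j _ hj
      exact Finset.sum_eq_zero fun b _ => by rw [if_neg hj, mul_zero]
    · intro hi
      exact absurd (Finset.mem_univ i) hi

theorem mz_scale {ρ M : ℕ} (h : ∀ (i : σ) (I : Fin (ρ + 1) → α) (J : Fin (ρ + 1) → β),
    z i ^ M * (m.submatrix I J).det = 0) :
    MZ (Matrix.of fun a (b : σ × β) => z b.1 ^ M * m a b.2) (ρ + 1) := by
  intro I J
  have e : (Matrix.of fun a (b : σ × β) => z b.1 ^ M * m a b.2).submatrix I J =
      Matrix.of fun i j => z (J j).1 ^ M * (m.submatrix I fun j => (J j).2) i j := rfl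
  rw [e, Matrix.det_mul_row, Fin.prod_univ_succ, mul_right_comm, h, zero_mul]

/-- the base change of the universal cokernel -/
theorem Pres.map [Gd ℬ] (h : Pres z V n v m) {D : Type} [CommRing D] {𝒟 : Γ → Set D} [Gd 𝒟]
    {u : D →+* B} (hu : Hm u 𝒟 ℬ (AddMonoidHom.id Γ)) {m₀ : Matrix α β D}
    (hm : ∀ a b, u (m₀ a b) = m a b) {E : GM 𝒟} {ε : α → E.M} (hE : Cok m₀ n E ε) {U : GM ℬ}
    {e : U.M} (hU : Cy U e ⊥) : ∃ (g : (tens hu E U).M →ₗ[B] V.M) (hg : IsG g),
      Nil (Set.range z) (LinearMap.ker g) ∧ Nil (Set.range z) (V.M ⧸ LinearMap.range g) := by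
  classical
  obtain ⟨γ, hγ⟩ := hE.lift (Cp u V.M) v fun b => by
    have k := h.rel b
    simp only [← hm] at k
    exact k
  let γ' : E.M →+ V.M := γ.toAddMonoidHom
  have hγ1 : ∀ a, γ' (ε a) = v a := hγ
  have hγ2 : ∀ (a : D) (x : E.M), γ' (a • x) = u a • γ' x := fun a x => γ.map_smul a x
  obtain ⟨c, hc, -⟩ := hU.exists_coord
  have hce : c e = 1 := by
    have := hc 1
    rwa [one_smul] at this
  let F : U.M →+ E.M →+ V.M := AddMonoidHom.mk'
    (fun y => (LinearMap.lsmul B V.M (c y)).toAddMonoidHom.comp γ') fun y y' => by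
      ext x
      change c (y + y') • γ' x = c y • γ' x + c y' • γ' x
      rw [map_add, add_smul]
  have hF : ∀ y x, F y x = c y • γ' x := fun _ _ => rfl
  obtain ⟨g₀, hg₀⟩ := tens_lift (h := hu) (V := E) (Y := U) F fun a y x => by
    rw [hF, hF, map_smul, hγ2, smul_smul, smul_eq_mul, mul_comm]
  let g : (tens hu E U).M →ₗ[B] V.M :=
    { g₀ with
      map_smul' := fun b ξ => by
        change g₀ (b • ξ) = b • g₀ ξ
        induction ξ using tens_ind with
        | h0 => rw [smul_zero, map_zero, smul_zero]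
        | h1 _ y _ x _ _ => rw [tt_smul, hg₀, hg₀, hF, hF, map_smul, smul_smul, smul_eq_mul]
        | h2 x x' hx hx' => rw [smul_add, map_add, map_add, hx, hx', smul_add] }
  have hg1 : ∀ a, g (tt hu E U e (ε a)) = v a := fun a => by
    change g₀ _ = _
    rw [hg₀, hF, hce, one_smul, hγ1]
  have hτ : ∀ a, (tens hu E U).π n (tt hu E U e (ε a)) = tt hu E U e (ε a) := fun a => by
    rw [tens_π n e (hE.hom a), AddMonoidHom.id_apply, sub_self, hU.hom]
  have hbal : ∀ (a : D) (x : E.M), tt hu E U e (a • x) = u a • tt hu E U e x := fun a x => by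
    rw [← tt_bal, tt_smul]
  have hgen : ∀ ξ : (tens hu E U).M, ∃ y : α → B, ∑ a, y a • tt hu E U e (ε a) = ξ := by
    intro ξ
    refine (Submodule.mem_span_range_iff_exists_fun B).1 ?_
    have k1 : ∀ x : E.M, tt hu E U e x ∈
        Submodule.span B (Set.range fun a => tt hu E U e (ε a)) := by
      intro x
      have hx : x ∈ Submodule.span D (Set.range ε) := by rw [hE.gen]; trivial
      induction hx using Submodule.span_induction with
      | mem x hx =>
        obtain ⟨a, rfl⟩ := hx
        exact Submodule.subset_span ⟨a, rfl⟩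
      | zero => rw [map_zero]; exact zero_mem _
      | add x y _ _ hx hy => rw [map_add]; exact add_mem hx hy
      | smul a x _ hx => rw [hbal]; exact Submodule.smul_mem _ _ hx
    induction ξ using tens_ind with
    | h0 => exact zero_mem _
    | h1 _ y _ x _ _ =>
      obtain ⟨b, rfl⟩ := hU.exists_smul y
      rw [← tt_smul]
      exact Submodule.smul_mem _ _ (k1 x)
    | h2 x x' hx hx' => exact add_mem hx hx'
  have hg : IsG g := by
    intro d ξ
    obtain ⟨y, rfl⟩ := hgen ξ
    simp only [map_sum]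
    refine Finset.sum_congr rfl fun a _ => ?_
    generalize y a = b
    induction b using Gd.ind ℬ with
    | h0 => simp only [zero_smul, map_zero]
    | h1 c' b hb =>
      have k1 := GM.hom_smul (mem_cl hb) (hτ a)
      have k2 := GM.hom_smul (mem_cl hb) (h.hom a)
      by_cases hd : d = c' + n
      · rw [hd, k1, map_smul, hg1, k2]
      · rw [GM.π_of_ne k1 hd, map_zero, map_smul, hg1, GM.π_of_ne k2 hd]
    | h2 b b' hb hb' => simp only [add_smul, map_add, hb, hb']
    | h3 b hb => simp only [neg_smul, map_neg, hb]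
  have hrel : ∀ b, ∑ a, m a b • tt hu E U e (ε a) = 0 := fun b => by
    simp only [← hm, ← hbal]
    rw [← map_sum, hE.rel, map_zero]
  refine ⟨g, hg, ?_, ?_⟩
  · rintro _ ⟨i, rfl⟩ ⟨ξ, hξ⟩
    obtain ⟨y, rfl⟩ := hgen ξ
    have k1 : ∑ a, y a • v a = 0 := by
      rw [LinearMap.mem_ker, map_sum] at hξ
      simpa only [map_smul, hg1] using hξ
    obtain ⟨M, c', hc'⟩ := h.ker i y k1
    refine ⟨M, Subtype.ext ?_⟩
    change z i ^ M • ∑ a, y a • tt hu E U e (ε a) = 0
    have k2 : ∀ a, z i ^ M • y a • tt hu E U e (ε a) =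
        ∑ b, c' b • m a b • tt hu E U e (ε a) := fun a => by
      have k3 : z i ^ M * y a = ∑ b, m a b * c' b := congrFun hc' a
      rw [smul_smul, k3, Finset.sum_smul]
      exact Finset.sum_congr rfl fun b _ => by rw [smul_smul, mul_comm]
    rw [Finset.smul_sum, Finset.sum_congr rfl fun a _ => k2 a, Finset.sum_comm]
    exact Finset.sum_eq_zero fun b _ => by rw [← Finset.smul_sum, hrel, smul_zero]
  · rintro _ ⟨i, rfl⟩ x
    obtain ⟨x, rfl⟩ := (LinearMap.range g).mkQ_surjective x
    obtain ⟨M, hM⟩ := h.cok i x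
    refine ⟨M, ?_⟩
    rw [← map_smul, Submodule.mkQ_apply, Submodule.Quotient.mk_eq_zero]
    refine Submodule.span_le.2 ?_ hM
    rintro _ ⟨a, rfl⟩
    exact ⟨_, hg1 a⟩

end Pool.Agent.CXD
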