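import Pool.Agent.P.MP_2ce3e7_ag.CPM
import Pool.Agent.P.MP_2ce3e7_ag.CPI2
import Pool.Agent.P.MP_2ce3e7_ag.CPL

/-! Every vector bundle comes from the universal one. -/

set_option linter.unusedSectionVars false
set_option linter.unusedVariables false

open Function Filter
open scoped TensorProduct Polynomial

noncomputable section

namespace Pool.Agent.CXD

open Matrix

variable {k B Γ σ : Type} [Field k] [CommRing B] [Algebra k B] [AddCommGroup Γ] {ℬ : Γ → Set B}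
  [Gd ℬ] [Fintype σ] {z : σ → B} {g₁ : Γ}

/-- finitely many degrees have an upper bound -/
def Dir (g₁ : Γ) : Prop := ∀ s : Finset Γ, ∃ n, ∀ g ∈ s, ∃ a : ℕ, n = a • g₁ + g

theorem dir_int : Dir (1 : ℤ) := by
  intro s
  obtain ⟨n, hn⟩ := s.bddAbove
  refine ⟨n, fun g hg => ⟨(n - g).toNat, ?_⟩⟩
  have h : g ≤ n := hn hg
  rw [nsmul_eq_mul, mul_one]
  omega

theorem dir_unit : Dir () := by
  exact fun s => ⟨(), fun g _ => ⟨0, rfl⟩⟩

theorem exists_gens_deg (hd : Dir g₁) (hz : ∀ i, z i ∈ cl ℬ g₁) (V : GM ℬ)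
    (hV : Module.Finite B V.M) : ∃ (n : Γ) (N : ℕ) (v : Fin N → V.M), (∀ a, V.π n (v a) = v a) ∧
      ∀ i x, ∃ M : ℕ, z i ^ M • x ∈ Submodule.span B (Set.range v) := by
  classical
  obtain ⟨s, hs, hh⟩ := V.exists_gens
  choose! g hg using hh
  obtain ⟨n, hn⟩ := hd (s.image g)
  have hn' : ∀ x ∈ s, ∃ a : ℕ, n = a • g₁ + g x := fun x hx => hn _ (Finset.mem_image_of_mem g hx)
  choose! a ha using hn'
  let E := Fintype.equivFin (s × σ)
  refine ⟨n, Fintype.card (s × σ),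
    fun j => z (E.symm j).2 ^ a (E.symm j).1 • ((E.symm j).1 : V.M), fun j => ?_, fun i x => ?_⟩
  · have h1 := GM.hom_smul (cl_pow (hz (E.symm j).2) (a (E.symm j).1)) (hg _ (E.symm j).1.2)
    rw [← ha _ (E.symm j).1.2] at h1
    exact h1
  · have hx : x ∈ Submodule.span B (s : Set V.M) := by rw [hs]; trivial
    induction hx using Submodule.span_induction with
    | mem x hx =>
      refine ⟨a x, Submodule.subset_span ⟨E (⟨x, hx⟩, i), ?_⟩⟩
      simp only [Equiv.symm_apply_apply]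
    | zero => exact ⟨0, by rw [smul_zero]; exact zero_mem _⟩
    | add x y _ _ hx hy =>
      obtain ⟨M, hM⟩ := hx
      obtain ⟨M', hM'⟩ := hy
      refine ⟨M + M', ?_⟩
      rw [smul_add]
      refine add_mem ?_ ?_
      · rw [pow_add, mul_comm, mul_smul]
        exact Submodule.smul_mem _ _ hM
      · rw [pow_add, mul_smul]
        exact Submodule.smul_mem _ _ hM'
    | smul r x _ hx =>
      obtain ⟨M, hM⟩ := hx
      refine ⟨M, ?_⟩
      rw [smul_comm]
      exact Submodule.smul_mem _ _ hM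

theorem exists_pres [IsNoetherianRing B] (hd : Dir g₁) (hz : ∀ i, z i ∈ cl ℬ g₁) {U : GM ℬ}
    {e : U.M} (hU : Cy U e ⊥) (V : GM ℬ) (hV : Module.Finite B V.M) :
    ∃ (n g₂ : Γ) (N N' : ℕ) (v : Fin N → V.M) (m : Matrix (Fin N) (Fin N') B),
      Pres z V n v m ∧ ∀ a b, m a b ∈ cl ℬ g₂ := by
  classical
  obtain ⟨n, N, v, hv, hc⟩ := exists_gens_deg hd hz V hV
  obtain ⟨c, hc1, hc2⟩ := hU.exists_coord
  let f : (GM.piF fun _ : Fin N => U.shift (-n)).M →ₗ[B] V.M :=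
    Fintype.linearCombination B v ∘ₗ c.toLinearMap.compLeft (Fin N)
  have hf0 : ∀ y, f y = ∑ a, c (y a) • v a := fun y => Fintype.linearCombination_apply B v _
  have hf : IsG f := by
    refine IsG.of_hom fun d y hy => ?_
    rw [hf0, map_sum]
    refine Finset.sum_congr rfl fun a _ => ?_
    have h1 : U.π (-n + d) (y a) = y a := congrFun hy a
    have h2 := GM.hom_smul (hc2 _ _ h1) (hv a)
    rwa [show -n + d + n = d by abel] at h2
  have hUf : Module.Finite B U.M := hU.finite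
  have hF : Module.Finite B (GM.piF fun _ : Fin N => U.shift (-n)).M :=
    inferInstanceAs (Module.Finite B (Fin N → U.M))
  have hK : Module.Finite B
      ((GM.piF fun _ : Fin N => U.shift (-n)).sub (LinearMap.ker f) hf.ker).M :=
    inferInstanceAs (Module.Finite B (LinearMap.ker f))
  obtain ⟨n', N', w, hw, hw'⟩ := exists_gens_deg hd hz _ hK
  refine ⟨n, -n + n', N, N', v, Matrix.of fun a b => c ((w b).1 a), ⟨hv, fun b => ?_, hc, ?_⟩,
    fun a b => ?_⟩
  · exact (hf0 _).symm.trans (w b).2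
  · intro i y hy
    have hy' : (fun a => y a • e) ∈ LinearMap.ker f := by
      rw [LinearMap.mem_ker, hf0]
      simp only [hc1]
      exact hy
    obtain ⟨M, hM⟩ := hw' i ⟨_, hy'⟩
    obtain ⟨t, ht⟩ := (Submodule.mem_span_range_iff_exists_fun B).1 hM
    refine ⟨M, t, funext fun a => ?_⟩
    have h1 := congrArg (fun x : LinearMap.ker f => c (x.1 a)) ht
    simp only [Submodule.coe_sum, Submodule.coe_smul, Finset.sum_apply, Pi.smul_apply, map_sum,
      map_smul, hc1, smul_eq_mul] at h1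
    change z i ^ M * y a = ∑ b, c ((w b).1 a) * t b
    rw [Finset.sum_congr rfl fun b _ => mul_comm (c ((w b).1 a)) (t b), h1]
  · exact hc2 _ _ (congrFun (congrArg Subtype.val (hw b)) a)

theorem exists_univ [IsNoetherianRing B] [Gk k ℬ] (hd : Dir g₁) (hz : ∀ i, z i ∈ cl ℬ g₁)
    {U : GM ℬ} {e : U.M} (hU : Cy U e ⊥) {V : GM ℬ} (hV : Module.Finite B V.M) {r : ℕ}
    (hr : VB' z r V.M) :
    ∃ (α β : Type) (_ : Fintype α) (_ : Fintype β) (ρ : ℕ) (g₂ : Γ)
      (u : Det k σ α β ρ →ₐ[k] B) (hu : Hm u.toRingHom (dgr k σ α β ρ g₁ g₂) ℬ (AddMonoidHom.id Γ))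
      (E : GM (dgr k σ α β ρ g₁ g₂)) (g : (tens hu E U).M →ₗ[B] V.M) (hg : IsG g),
        (∀ i, z i ∈ (Ideal.span (Set.range fun j => u (sD k σ α β ρ j))).radical) ∧
        (∀ i, u (zD k σ α β ρ i) = z i) ∧ QL (sD k σ α β ρ) E ∧
        Nil (Set.range z) (LinearMap.ker g) ∧ Nil (Set.range z) (V.M ⧸ LinearMap.range g) := by
  obtain ⟨n, g₂, N, N', v, m, hp, hm⟩ := exists_pres hd hz hU V hV
  obtain ⟨M, hM⟩ := hp.kill hr
  have hp' := hp.scale M
  obtain ⟨u, h1, h2⟩ := exists_det_lift (k := k) z (mz_scale hM)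
  have hu := det_hm (g₁ := g₁) (g₂ := M • g₁ + g₂) (ℬ := ℬ) (u := u) (fun i => h1 i ▸ hz i)
    fun a b => by rw [h2]; exact cl_mul (cl_pow (hz _) M) (hm _ _)
  obtain ⟨U₀, e₀, hU₀⟩ := det_rg (k := k) (σ := σ) (α := Fin N) (β := σ × Fin N')
    (ρ := Fintype.card (Fin N) - r) (g₁ := g₁) (g₂ := M • g₁ + g₂)
  obtain ⟨E, ε, hE⟩ := exists_cok hU₀ (fun a b => mem_cl (mD_mem a b)) n
  obtain ⟨g, hg, h3, h4⟩ := hp'.map hu h2 hE hU
  refine ⟨_, _, inferInstance, inferInstance, _, _, u, hu, E, g, hg, fun i => ?_, h1, hE.ql, h3, h4⟩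
  simp only [det_map_sD h1 h2]
  exact hp'.rad hr i

end Pool.Agent.CXD
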