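import Pool.Agent.P.MP_2ce3e7_ag.CPN
import Pool.Agent.P.MP_2ce3e7_ag.CPC2

/-! The case of a point. -/

set_option linter.unusedSectionVars false
set_option linter.unusedVariables false

open Function Filter
open scoped TensorProduct Polynomial

noncomputable section

namespace Pool.Agent.CXD

variable {k T : Type} [Field k] [Fintype k] [CommRing T] [Algebra k T]

variable (k T) in
/-- a homotopy between the identity and the Frobenius map -/
def Ht : Prop := ∃ h : T →ₐ[k] T[X], (evA k (0 : T)).comp h = AlgHom.id k T ∧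
  (evA k (1 : T)).comp h = FiniteField.frobeniusAlgHom k T

theorem vb_of_flat [IsNoetherianRing T] [PreconnectedSpace (PrimeSpectrum T)] (X : Type)
    [AddCommGroup X] [Module T X] [Module.Finite T X] [Module.Flat T X] :
    ∃ r, VB' (fun _ : Unit => (1 : T)) r X := by
  haveI : Module.FinitePresentation T X := Module.finitePresentation_of_finite T X
  obtain ⟨r, hr⟩ := (Module.isLocallyConstant_rankAtStalk (R := T) (M := X)).exists_eq_const
  refine ⟨r, fun p hp _ => ?_⟩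
  haveI : Module.Free (Localization.AtPrime p) (LocalizedModule p.primeCompl X) :=
    Module.free_of_flat_of_isLocalRing
  have h1 : Module.finrank (Localization.AtPrime p) (LocalizedModule p.primeCompl X) = r :=
    congrFun hr ⟨p, hp⟩
  exact ⟨(Module.finBasisOfFinrankEq _ _ h1).equivFun⟩

/-- additive and homotopy invariant on flat modules -/
structure AdmT (k : Type) {T : Type} [Field k] [CommRing T] [Algebra k T]
    (ψ : GM (tv T) → ℚ) : Prop where
  add : AddOn (fun W : GM (tv T) => Module.Finite T W.M ∧ Module.Flat T W.M) ψ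
  congr : ∀ (W W' : GM (tv T)) (f : W.M →ₗ[T] W'.M), Module.Finite T W'.M → Bijective f →
    ψ W = ψ W'
  hom : ∀ (W : GM (tv T[X])) (M N : GM (tv T)) (g₀ : W.M →+ M.M) (g₁ : W.M →+ N.M),
    Module.Finite T[X] W.M → Module.Flat T[X] W.M → Module.Finite T M.M → Module.Flat T M.M →
      Module.Finite T N.M → Module.Flat T N.M →
        Fbr (evA k (0 : T)).toRingHom (Polynomial.X - Polynomial.C 0) W M g₀ →
          Fbr (evA k (1 : T)).toRingHom (Polynomial.X - Polynomial.C 1) W N g₁ → ψ M = ψ N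
  one : ψ (rt T) = 0

section
variable {D τ : Type} [CommRing D] {𝒟 : Unit → Set D} [Gd 𝒟] {s : τ → D} {u : D →+* T}
  {μ : Unit →+ Unit} (hu : Hm u 𝒟 (tv T) μ)
  (hr : (1 : T) ∈ (Ideal.span (Set.range fun j => u (s j))).radical)

include hr in
theorem pt_flat {V : GM 𝒟} (hV : QL s V) :
    Module.Finite T (tens hu V (rt T)).M ∧ Module.Flat T (tens hu V (rt T)).M := by
  refine ⟨tens_finite hV.1 inferInstance, ?_⟩
  have h1 : OF (RingHom.id T) {1} (rt T).M := of_one_iff.2 (flat_rr_id.2 inferInstance)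
  have h2 := (OF.tens hu h1 hV.2).of_radical (Z' := {1}) fun z hz => by
    rw [Set.mem_singleton_iff.1 hz]; exact hr
  exact flat_rr_id.1 (of_one_iff.1 h2)

include hr in
theorem pt_ses {V₁ V₂ V₃ : GM 𝒟} (hV : QL s V₃) (hs : Ses V₁ V₂ V₃) :
    Ses (tens hu V₁ (rt T)) (tens hu V₂ (rt T)) (tens hu V₃ (rt T)) := by
  obtain ⟨F, G, hF, hG, h1, h2, h3⟩ := tens_sesV hu hV.2 hs (rt T)
  have h4 := (h3.of_radical (S' := {1}) fun z hz => by
    rw [Set.mem_singleton_iff.1 hz]; exact hr).subsingleton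
  exact ⟨F, G, hF, hG, LinearMap.ker_eq_bot.1 (Submodule.eq_bot_of_subsingleton), h1, h2⟩

include hr in
theorem pt_nil {V : GM 𝒟} (hV : Nil (Set.range s) V.M) : Subsingleton (tens hu V (rt T)).M := by
  have h1 := tens_nilV hu hV (rt T)
  rw [← Set.range_comp] at h1
  exact (h1.of_radical (S' := {1}) fun z hz => by
    rw [Set.mem_singleton_iff.1 hz]; exact hr).subsingleton

end

theorem AdmT.zero {ψ : GM (tv T) → ℚ} (h : AdmT k ψ) (W : GM (tv T)) [Subsingleton W.M] :
    ψ W = 0 := by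
  have hp : Module.Finite T W.M ∧ Module.Flat T W.M := ⟨inferInstance, inferInstance⟩
  have h1 := h.add W W W hp hp hp ⟨LinearMap.id, LinearMap.id, isG_id, isG_id, injective_id,
    surjective_id, fun y => ⟨fun _ => ⟨y, rfl⟩, fun _ => Subsingleton.elim _ _⟩⟩
  linarith

theorem rad_map_CPO {T' τ : Type} [CommRing T'] (φ : T →+* T') {w : τ → T}
    (hr : (1 : T) ∈ (Ideal.span (Set.range w)).radical) :
    (1 : T') ∈ (Ideal.span (Set.range fun j => φ (w j))).radical := by
  have h1 : Ideal.span (Set.range w) = ⊤ :=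
    Ideal.radical_eq_top.1 ((Ideal.eq_top_iff_one _).2 hr)
  have h2 := congrArg (Ideal.map φ) h1
  rw [Ideal.map_span, Ideal.map_top, ← Set.range_comp] at h2
  exact Ideal.le_radical ((Ideal.eq_top_iff_one _).1 h2)

theorem AdmT.frob [IsNoetherianRing T] {ψ : GM (tv T) → ℚ} (h : AdmT k ψ) (hT : Ht k T)
    {D τ : Type} [CommRing D] [Algebra k D] {𝒟 : Unit → Set D} [Gd 𝒟] {s : τ → D}
    {u : D →ₐ[k] T} (hu : Hm u.toRingHom 𝒟 (tv T) (AddMonoidHom.id Unit))
    (hr : (1 : T) ∈ (Ideal.span (Set.range fun j => u (s j))).radical)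
    (hq : Hm (frb k D) 𝒟 𝒟 (Fintype.card k • AddMonoidHom.id Unit)) {U : GM 𝒟} {e : U.M}
    (hU : Cy U e ⊥) {V : GM 𝒟} (hV : QL s V) :
    ψ (tens hu (tens hq V U) (rt T)) = ψ (tens hu V (rt T)) := by
  obtain ⟨H, hH0, hH1⟩ := hT
  have h₁ : Hm (H.toRingHom.comp u.toRingHom) 𝒟 (tv T[X]) (AddMonoidHom.id Unit) :=
    ⟨injective_id, fun _ _ _ => mem_tv _ _⟩
  have h₃ : Hm ((frb k T).comp u.toRingHom) 𝒟 (tv T) (AddMonoidHom.id Unit) :=
    ⟨injective_id, fun _ _ _ => mem_tv _ _⟩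
  have hW := pt_flat h₁ (rad_map_CPO H.toRingHom hr) hV
  have hM := pt_flat hu hr hV
  have hN := pt_flat h₃ (rad_map_CPO (frb k T) hr) hV
  obtain ⟨G₀, hG₀⟩ := (fbr_rt k (0 : T)).tens h₁ hu (fun d => AlgHom.congr_fun hH0 (u d)) V
  obtain ⟨G₁, hG₁⟩ := (fbr_rt k (1 : T)).tens h₁ h₃ (fun d => AlgHom.congr_fun hH1 (u d)) V
  have e1 := h.hom _ _ _ G₀ G₁ hW.1 hW.2 hM.1 hM.2 hN.1 hN.2 hG₀ hG₁
  obtain ⟨g, -, hg⟩ := tens_bc h₃ hq hu (fun d => (map_pow u d (Fintype.card k)).symm)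
    (fun c => Subsingleton.elim _ _) hU V (rt T)
  have e2 := h.congr _ _ g (tens_finite (tens_finite hV.1 hU.finite) inferInstance) hg
  rw [e1, e2]

theorem AdmT.eq_zero [IsNoetherianRing T] [PreconnectedSpace (PrimeSpectrum T)]
    {ψ : GM (tv T) → ℚ} (h : AdmT k ψ) (hT : Ht k T) (W : GM (tv T)) (hW : Module.Finite T W.M)
    (hf : Module.Flat T W.M) : ψ W = 0 := by
  obtain ⟨r, hr⟩ := vb_of_flat (T := T) W.M
  obtain ⟨α, β, _, _, ρ, g₂, u, hu, E, g, hg, h1, -, h3, h4, h5⟩ :=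
    exists_univ (k := k) dir_unit (fun _ => mem_tv _ _) (cy_triv T) hW hr
  obtain ⟨U, e, hU⟩ := det_rg (k := k) (σ := Unit) (α := α) (β := β) (ρ := ρ) (g₁ := ())
    (g₂ := g₂)
  have hD := det_uni (eq_top_iff.2 fun x _ => zero_mem _) hU
  have hq : Hm (frb k (Det k Unit α β ρ)) (dgr k Unit α β ρ () g₂) (dgr k Unit α β ρ () g₂)
      (Fintype.card k • AddMonoidHom.id Unit) := hm_frb fun _ _ => rfl
  have h6 := hD.pt hq (φ := fun V => ψ (tens hu V (rt T)))
    (fun M N P hM hN hP hs => h.add _ _ _ (pt_flat hu (h1 ()) hM) (pt_flat hu (h1 ()) hN)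
      (pt_flat hu (h1 ()) hP) (pt_ses hu (h1 ()) hP hs))
    (fun M _ hn => by have := pt_nil hu (h1 ()) hn; exact h.zero _)
    (fun M hM => h.frob hT hu (h1 ()) hq hU hM) (by
      obtain ⟨f, -, hf⟩ := tens_reg hu hU (rt T) 0
      obtain ⟨f', -, hf'⟩ := tens_shiftV hu U (rt T) 0
      refine Eq.trans ?_ h.one
      exact h.congr _ _ (f.comp (LinearEquiv.ofBijective f' hf').symm.toLinearMap) inferInstance
        (hf.comp (LinearEquiv.ofBijective f' hf').symm.bijective)) E h3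
  rw [Set.range_const] at h4 h5
  have h7 := h4.subsingleton
  have h8 := h5.subsingleton
  refine (h.congr _ _ g hW ⟨?_, ?_⟩).symm.trans h6
  · exact LinearMap.ker_eq_bot.1 (Submodule.eq_bot_of_subsingleton)
  · exact LinearMap.range_eq_top.1 (Submodule.Quotient.subsingleton_iff.1 h8)

end Pool.Agent.CXD
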