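import Pool.Agent.P.MP_2ce3e7_ag.CPO
import Pool.Agent.P.MP_2ce3e7_ag.CPE

/-! Admissible functions. -/

set_option linter.unusedSectionVars false
set_option linter.unusedVariables false

open Function Filter
open scoped TensorProduct Polynomial

noncomputable section

namespace Pool.Agent.CXD

open scoped LaurentPolynomial

variable {k T A σ : Type} [Field k] [CommRing T] [Algebra k T] [CommRing A] [Algebra k A]
  [Fintype σ] {𝒜 : ℤ → Set A} {z : σ → A} {θ : A →ₐ[k] A[T;T⁻¹]} [Gd 𝒜] [Gk k 𝒜]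

/-- flat in large degrees -/
def EF (M : GM (tgr k T 𝒜)) : Prop := ∀ᶠ d in atTop, PFl hm_alg M d

/-- the irrelevant ideal -/
abbrev zT (k T : Type) {A σ : Type} [Field k] [CommRing T] [Algebra k T] [CommRing A]
    [Algebra k A] (z : σ → A) : Set (T ⊗[k] A) := Set.range fun i => inr k T A (z i)

theorem ef_iff {M : GM (tgr k T 𝒜)} : EF M ↔ Fl T M :=
  eventually_congr (Eventually.of_forall fun _ => pfl_iff)

/-- functions that kill the relations -/
structure AdmP (z : σ → A) (l : GM (tgr k T 𝒜) → ℚ) : Prop where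
  add : AddOn (fun M : GM (tgr k T 𝒜) => Module.Finite (T ⊗[k] A) M.M ∧ EF M) l
  congr : ∀ (M N : GM (tgr k T 𝒜)) (f : M.M →ₗ[T ⊗[k] A] N.M), Module.Finite (T ⊗[k] A) N.M →
    IsG f → Bijective f → l M = l N
  tors : ∀ M : GM (tgr k T 𝒜), Module.Finite (T ⊗[k] A) M.M → Nil (zT k T z) M.M → l M = 0
  hom : ∀ (W : GM (tgr k T[X] 𝒜)) (M N : GM (tgr k T 𝒜)) (g₀ : W.M →+ M.M) (g₁ : W.M →+ N.M),
    Module.Finite (T[X] ⊗[k] A) W.M → EF W → Module.Finite (T ⊗[k] A) M.M → EF M →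
      Module.Finite (T ⊗[k] A) N.M → EF N →
        Fbr (evm k T A 0) ((Polynomial.X - Polynomial.C 0) ⊗ₜ[k] (1 : A)) W M g₀ →
          Fbr (evm k T A 1) ((Polynomial.X - Polynomial.C 1) ⊗ₜ[k] (1 : A)) W N g₁ → l M = l N
  pull : ∀ N : GM 𝒜, Module.Finite A N.M → l (gbx k (rt T) N) = 0

variable {M N P : GM (tgr k T 𝒜)} {l : GM (tgr k T 𝒜) → ℚ}

theorem Std.torsT (h : Std 𝒜 z θ) (hM : Module.Finite (T ⊗[k] A) M.M) (hn : Nil (zT k T z) M.M) :
    Tors M := by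
  obtain ⟨n, hk⟩ := hn.kill_pow (Set.finite_range _)
  have e : Ideal.span (zT k T z) = (Ideal.span (Set.range z)).map (inr k T A) := by
    rw [Ideal.map_span, ← Set.range_comp]
    rfl
  rw [e] at hk
  have h1 := M.vanish hM (AddMonoidHom.id ℤ)
    (tgr_mem_pow (δ := AddMonoidHom.id ℤ) fun n γ hγ a ha => h.mem_pow n hγ ha) hk
  exact h1.mono fun t ht => AddMonoidHom.ext fun x => ht t rfl x

theorem Tors.ef (h : Tors M) : EF M := by
  exact h.mono fun d hd => pfl_of_zero fun x => by rw [hd, AddMonoidHom.zero_apply]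

theorem ef_gbx {W : GM (tv T)} (hW : Module.Flat T W.M) (Y : GM 𝒜) : EF (gbx k W Y) :=
  Eventually.of_forall fun d => (gbx_flat hW Y).pfl d

theorem EF.shift (h : EF M) (u : ℤ) : EF (M.shift u) := by
  exact ((tendsto_atTop_add_const_left atTop u tendsto_id).eventually h).mono
    fun d hd => (pfl_shift u).2 hd

variable [IsNoetherianRing (T ⊗[k] A)]

theorem Std.ef_iso (h : Std 𝒜 z θ) (hM : Module.Finite (T ⊗[k] A) M.M)
    (hN : Module.Finite (T ⊗[k] A) N.M) {f : M.M →ₗ[T ⊗[k] A] N.M} (hf : IsG f)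
    (h1 : Nil (zT k T z) (LinearMap.ker f)) (h2 : Nil (zT k T z) (N.M ⧸ LinearMap.range f)) :
    EF M ↔ EF N := by
  have k1 : Tors (M.sub _ hf.ker) := h.torsT (fin_CWM hM (ses_sub_quo hf.ker)).1 h1
  have k2 : Tors (N.quo _ hf.range) := h.torsT (fin_CWM hN (ses_sub_quo hf.range)).2 h2
  refine eventually_congr ?_
  filter_upwards [k1, k2] with d d1 d2
  refine pfl_iso hf (fun x hx hfx => ?_) fun y => ?_
  · have k3 := congrArg Subtype.val (DFunLike.congr_fun d1 (⟨x, hfx⟩ : LinearMap.ker f))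
    exact hx.symm.trans k3
  · have k3 : (LinearMap.range f).mkQ (N.π d y) = 0 :=
      DFunLike.congr_fun d2 ((LinearMap.range f).mkQ y)
    exact (Submodule.Quotient.mk_eq_zero _).1 k3

theorem range_CPP {f : M.M →ₗ[T ⊗[k] A] N.M} (hf : IsG f) :
    IsG (M := M) (N := N.sub _ hf.range) f.rangeRestrict := fun d x => Subtype.ext (hf d x)

theorem nil_ker_CPP {X Y : Type} [AddCommGroup X] [Module (T ⊗[k] A) X] [AddCommGroup Y]
    [Module (T ⊗[k] A) Y] {S : Set (T ⊗[k] A)} {f : X →ₗ[T ⊗[k] A] Y}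
    (h : Nil S (LinearMap.ker f)) : Nil S (LinearMap.ker f.rangeRestrict) := by
  rw [LinearMap.ker_rangeRestrict]
  exact h

theorem nil_top_CPP {X Y : Type} [AddCommGroup X] [Module (T ⊗[k] A) X] [AddCommGroup Y]
    [Module (T ⊗[k] A) Y] {S : Set (T ⊗[k] A)} {f : X →ₗ[T ⊗[k] A] Y} (hf : Surjective f) :
    Nil S (Y ⧸ LinearMap.range f) := by
  intro a _ x
  obtain ⟨y, rfl⟩ := (LinearMap.range f).mkQ_surjective x
  refine ⟨0, ?_⟩
  rw [pow_zero, one_smul]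
  exact (Submodule.Quotient.mk_eq_zero _).2 (hf y)

theorem Std.adm_iso (h : Std 𝒜 z θ) (hl : AdmP z l) (hM : Module.Finite (T ⊗[k] A) M.M)
    (hN : Module.Finite (T ⊗[k] A) N.M) (he : EF N) {f : M.M →ₗ[T ⊗[k] A] N.M} (hf : IsG f)
    (h1 : Nil (zT k T z) (LinearMap.ker f)) (h2 : Nil (zT k T z) (N.M ⧸ LinearMap.range f)) :
    l M = l N := by
  have hM' : EF M := (h.ef_iso hM hN hf h1 h2).2 he
  have g := range_CPP hf
  obtain ⟨f1, f2⟩ := fin_CWM hN (ses_sub_quo hf.range)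
  have s1 := ses_ker g f.surjective_rangeRestrict
  have f3 := (fin_CWM hM s1).1
  have n1 := nil_ker_CPP h1
  have hI : EF (N.sub _ hf.range) :=
    (h.ef_iso hM f1 g n1 (nil_top_CPP f.surjective_rangeRestrict)).1 hM'
  have a1 := hl.add _ _ _ ⟨f3, (h.torsT f3 n1).ef⟩ ⟨hM, hM'⟩ ⟨f1, hI⟩ s1
  have a2 := hl.add _ _ _ ⟨f1, hI⟩ ⟨hN, he⟩ ⟨f2, (h.torsT f2 h2).ef⟩ (ses_sub_quo hf.range)
  have t1 := hl.tors (M.sub _ g.ker) f3 n1
  have t2 := hl.tors (N.quo _ hf.range) f2 h2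
  linarith

theorem Std.adm_right (h : Std 𝒜 z θ) (hl : AdmP z l) (hM : Module.Finite (T ⊗[k] A) M.M)
    (hN : Module.Finite (T ⊗[k] A) N.M) (h₁ : EF M) (h₂ : EF N) (h₃ : EF P)
    {f : M.M →ₗ[T ⊗[k] A] N.M} {g : N.M →ₗ[T ⊗[k] A] P.M} (hf : IsG f) (hg : IsG g)
    (hs : Surjective g) (he : Exact f g) (hn : Nil (zT k T z) (LinearMap.ker f)) :
    l N = l M + l P := by
  have g' := range_CPP hf
  have f1 := (fin_CWM hN (ses_sub_quo hf.range)).1
  have n1 := nil_ker_CPP hn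
  have n2 : Nil (zT k T z) ((N.sub _ hf.range).M ⧸ LinearMap.range f.rangeRestrict) :=
    nil_top_CPP f.surjective_rangeRestrict
  have hI : EF (N.sub _ hf.range) := (h.ef_iso hM f1 g' n1 n2).1 h₁
  have s1 : Ses (N.sub _ hf.range) N P :=
    ⟨(LinearMap.range f).subtype, g, isG_subtype _, hg, Submodule.injective_subtype _, hs,
      fun y => (he y).trans ⟨fun hy => ⟨⟨y, hy⟩, rfl⟩, fun ⟨x, hx⟩ => hx ▸ x.2⟩⟩
  have a1 := hl.add _ _ _ ⟨f1, hI⟩ ⟨hN, h₂⟩ ⟨Module.Finite.of_surjective g hs, h₃⟩ s1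
  have a2 := h.adm_iso hl hM f1 hI g' n1 n2
  linarith

end Pool.Agent.CXD
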