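import Pool.Agent.P.MP_2ce3e7_ag.CPP

/-! Duality. -/

set_option linter.unusedSectionVars false
set_option linter.unusedVariables false

open Function Filter
open scoped TensorProduct Polynomial

noncomputable section

namespace Pool.Agent.CXD

open scoped LaurentPolynomial

variable {k T A σ : Type} [Field k] [CommRing T] [Algebra k T] [CommRing A] [Algebra k A]
  [Fintype σ] {𝒜 : ℤ → Set A} {z : σ → A} {θ : A →ₐ[k] A[T;T⁻¹]} [Gd 𝒜] [Gk k 𝒜]

variable {l : GM (tgr k T 𝒜) → ℚ} [IsNoetherianRing (T ⊗[k] A)]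

theorem Std.exists_formP (h : Std 𝒜 z θ) (V : FGM (tgr k T 𝒜)) (hV : EF V.1)
    (H : ∀ l : GM (tgr k T 𝒜) → ℚ, AdmP z l → l V.1 = 0) :
    ∃ c : ℕ, 0 < c ∧ c • FreeAbelianGroup.of V ∈ relsP k T 𝒜 := by
  classical
  by_contra hc
  have hi : Injective (zmultiplesHom _
      (QuotientAddGroup.mk' (relsP k T 𝒜) (FreeAbelianGroup.of V))) := by
    refine (injective_iff_map_eq_zero _).2 fun n hn => ?_
    by_contra h0
    refine hc ⟨n.natAbs, Int.natAbs_pos.2 h0, ?_⟩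
    rw [zmultiplesHom_apply, ← map_zsmul, QuotientAddGroup.mk'_apply,
      QuotientAddGroup.eq_zero_iff] at hn
    rw [← natCast_zsmul]
    rcases Int.natAbs_eq n with e | e
    · rwa [← e]
    · rw [e, neg_zsmul] at hn
      exact neg_mem_iff.1 hn
  obtain ⟨φ, hφ⟩ := (Module.Baer.of_divisible ℚ).extension_property_addMonoidHom _ hi
    (Int.castAddHom ℚ)
  have h1 : φ (QuotientAddGroup.mk' (relsP k T 𝒜) (FreeAbelianGroup.of V)) = 1 := by
    have := DFunLike.congr_fun hφ 1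
    rw [AddMonoidHom.comp_apply, zmultiplesHom_apply, one_zsmul] at this
    rw [this]
    exact Int.cast_one
  obtain ⟨ψ, hψ⟩ : ∃ ψ, ψ = φ.comp (QuotientAddGroup.mk' (relsP k T 𝒜)) := ⟨_, rfl⟩
  have h2 : ∀ y ∈ relsP k T 𝒜, ψ y = 0 := fun y hy => by
    rw [hψ, AddMonoidHom.comp_apply, QuotientAddGroup.mk'_apply,
      (QuotientAddGroup.eq_zero_iff y).2 hy, map_zero]
  obtain ⟨l, hl1, hl0⟩ : ∃ l : GM (tgr k T 𝒜) → ℚ,
      (∀ (M : GM (tgr k T 𝒜)) (hM : Module.Finite (T ⊗[k] A) M.M), EF M →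
        l M = ψ (FreeAbelianGroup.of ⟨M, hM⟩)) ∧
      ∀ M : GM (tgr k T 𝒜), ¬ (Module.Finite (T ⊗[k] A) M.M ∧ EF M) → l M = 0 :=
    ⟨fun M => if hM : Module.Finite (T ⊗[k] A) M.M ∧ EF M then
        ψ (FreeAbelianGroup.of ⟨M, hM.1⟩) else 0,
      fun M hM he => dif_pos ⟨hM, he⟩, fun M hM => dif_neg hM⟩
  have hadd : AddOn (fun M : GM (tgr k T 𝒜) => Module.Finite (T ⊗[k] A) M.M ∧ EF M) l := by
    intro M N P hM hN hP hs
    have e := h2 _ (AddSubgroup.subset_closure (Or.inl ⟨⟨M, hM.1⟩, ⟨N, hN.1⟩, ⟨P, hP.1⟩, hs,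
      ef_iff.1 hM.2, ef_iff.1 hN.2, ef_iff.1 hP.2, rfl⟩))
    rw [map_sub, map_sub] at e
    rw [hl1 M hM.1 hM.2, hl1 N hN.1 hN.2, hl1 P hP.1 hP.2]
    linarith
  have htor : ∀ (M : GM (tgr k T 𝒜)), Module.Finite (T ⊗[k] A) M.M → Tors M → l M = 0 := by
    intro M hM ht
    rw [hl1 M hM ht.ef]
    exact h2 _ (AddSubgroup.subset_closure (Or.inr (Or.inl ⟨⟨M, hM⟩, ht, rfl⟩)))
  have h3 : AdmP z l := by
    refine ⟨hadd, fun M N f hN hf hb => ?_, fun M hM hn => htor M hM (h.torsT hM hn),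
      fun W M N g₀ g₁ hW eW hM eM hN eN f₀ f₁ => ?_, fun N hN => ?_⟩
    · have hM : Module.Finite (T ⊗[k] A) M.M := Module.Finite.of_injective f hb.1
      have he : EF M ↔ EF N := eventually_congr (Eventually.of_forall fun d =>
        pfl_iso hf (fun x _ hx => hb.1 (hx.trans (map_zero f).symm)) fun y => hb.2 _)
      by_cases hE : EF N
      · have ht : Tors (N.sub ⊥ st_bot) :=
          Eventually.of_forall fun d => AddMonoidHom.ext fun x => Subsingleton.elim _ _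
        have hZ : Module.Finite (T ⊗[k] A) (N.sub ⊥ st_bot).M := Module.Finite.of_finite
        have e := hadd M N (N.sub ⊥ st_bot) ⟨hM, he.2 hE⟩ ⟨hN, hE⟩ ⟨hZ, ht.ef⟩
          ⟨f, 0, hf, fun d x => Subsingleton.elim _ _, hb.1,
            fun y => ⟨0, Subsingleton.elim _ _⟩, fun y => ⟨fun _ => hb.2 y, fun _ => rfl⟩⟩
        rw [e, htor _ hZ ht, add_zero]
      · rw [hl0 M fun hh => hE (he.1 hh.2), hl0 N fun hh => hE hh.2]
    · have e := h2 _ (AddSubgroup.subset_closure (Or.inr (Or.inr (Or.inl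
        ⟨⟨W, hW⟩, ⟨M, hM⟩, ⟨N, hN⟩, ef_iff.1 eW, f₀.bc (evm_surj 0) (evm_zero 0),
          f₁.bc (evm_surj 1) (evm_zero 1), rfl⟩))))
      rw [map_sub] at e
      rw [hl1 M hM eM, hl1 N hN eN]
      linarith
    · have hF : Module.Finite (T ⊗[k] A) (gbx k (rt T) N).M :=
        gbx_finite (Module.Finite.self T) hN
      rw [hl1 _ hF (ef_gbx (Module.Flat.self (R := T)) N)]
      exact h2 _ (AddSubgroup.subset_closure (Or.inr (Or.inr (Or.inr
        ⟨⟨N, hN⟩, ⟨_, hF⟩, gbx_bc N, rfl⟩))))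
  have h4 := H l h3
  rw [hl1 V.1 V.2 hV, hψ, AddMonoidHom.comp_apply] at h4
  exact one_ne_zero (h1.symm.trans h4)

theorem AdmP.admT (hl : AdmP z l) {Y : GM 𝒜} (hY : Module.Finite A Y.M) :
    AdmT k fun W : GM (tv T) => l (gbx k W Y) := by
  refine ⟨fun M N P hM hN hP hs => ?_, fun W W' f hW' hb => ?_,
    fun W M N g₀ g₁ hW fW hM fM hN fN f₀ f₁ => ?_, hl.pull Y hY⟩
  · exact hl.add _ _ _ ⟨gbx_finite hM.1 hY, ef_gbx hM.2 Y⟩ ⟨gbx_finite hN.1 hY, ef_gbx hN.2 Y⟩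
      ⟨gbx_finite hP.1 hY, ef_gbx hP.2 Y⟩ (gbx_ses_left Y hs)
  · obtain ⟨F, h1, h2⟩ := gbx_congr (k := k) hb (isG_id (M := Y)) bijective_id
    exact hl.congr _ _ F (gbx_finite hW' hY) h1 h2
  · obtain ⟨G₀, h₀⟩ := gbx_fbr f₀ Y
    obtain ⟨G₁, h₁⟩ := gbx_fbr f₁ Y
    exact hl.hom _ _ _ G₀ G₁ (gbx_finite hW hY) (ef_gbx fW Y) (gbx_finite hM hY) (ef_gbx fM Y)
      (gbx_finite hN hY) (ef_gbx fN Y) h₀ h₁

end Pool.Agent.CXD
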