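import Pool.Agent.P.MP_2ce3e7_ag.CPP
import Pool.Agent.P.MP_2ce3e7_ag.CPH

/-! Slices along the second factor. -/

set_option linter.unusedSectionVars false
set_option linter.unusedVariables false

open Function Filter
open scoped TensorProduct Polynomial

noncomputable section

namespace Pool.Agent.CXD

open scoped LaurentPolynomial

variable {k T A σ D Γ τ : Type} [Field k] [CommRing T] [Algebra k T] [CommRing A] [Algebra k A]
  [Fintype σ] {𝒜 : ℤ → Set A} {z : σ → A} {θ : A →ₐ[k] A[T;T⁻¹]} [Gd 𝒜] [Gk k 𝒜] [CommRing D]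
  [AddCommGroup Γ] {𝒟 : Γ → Set D} [Gd 𝒟] {s : τ → D} {u : D →+* T ⊗[k] A} {μ : Γ →+ ℤ}

/-- the first projection -/
abbrev i1 (k T A : Type) [Field k] [CommRing T] [Algebra k T] [CommRing A] [Algebra k A] :
    T ⊗[k] A →+* T ⊗[k] (A ⊗[k] A) :=
  mp T (Algebra.TensorProduct.includeLeft : A →ₐ[k] A ⊗[k] A)

/-- the second projection -/
abbrev i2 (k T A : Type) [Field k] [CommRing T] [Algebra k T] [CommRing A] [Algebra k A] :
    T ⊗[k] A →+* T ⊗[k] (A ⊗[k] A) :=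
  mp T (Algebra.TensorProduct.includeRight : A →ₐ[k] A ⊗[k] A)

theorem hm_i1 : Hm (i1 k T A) (tgr k T 𝒜) (tgr k T (tg k 𝒜 𝒜)) (AddMonoidHom.inl ℤ ℤ) :=
  hm_mp hm_inl

theorem hm_i2 : Hm (i2 k T A) (tgr k T 𝒜) (tgr k T (tg k 𝒜 𝒜)) (AddMonoidHom.inr ℤ ℤ) :=
  hm_mp hm_inr

/-- the part of degree `t` for the second grading -/
def sl (t : ℤ) (W : GM (tgr k T (tg k 𝒜 𝒜))) : GM (tgr k T 𝒜) := res hm_i1 (0, t) W

/-- the irrelevant ideal of the second factor -/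
abbrev z2 (k T : Type) {A σ : Type} [Field k] [CommRing T] [Algebra k T] [CommRing A]
    [Algebra k A] (z : σ → A) : Set (T ⊗[k] (A ⊗[k] A)) :=
  Set.range fun i => inr k T (A ⊗[k] A) (inr k A A (z i))

variable {W W₂ W₃ : GM (tgr k T (tg k 𝒜 𝒜))}

theorem isRes_sl (t : ℤ) (W : GM (tgr k T (tg k 𝒜 𝒜))) :
    ∃ j : (sl t W).M →+ W.M, IsRes (i1 k T A) (fun c => (c, t)) (sl t W) W j := by
  have h := isRes_res (hm_i1 (k := k) (T := T) (𝒜 := 𝒜)) (0, t) W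
  simp only [AddMonoidHom.inl_apply, Prod.mk_add_mk, add_zero, zero_add] at h
  exact h

theorem sl_congr {f : W.M →ₗ[T ⊗[k] (A ⊗[k] A)] W₂.M} (hf : IsG f) (hb : Bijective f) (t : ℤ) :
    ∃ g : (sl t W).M →ₗ[T ⊗[k] A] (sl t W₂).M, IsG g ∧ Bijective g := by
  obtain ⟨j₁, h₁⟩ := isRes_sl t W
  obtain ⟨j₂, h₂⟩ := isRes_sl t W₂
  obtain ⟨g, h1, -, h3, h4⟩ := h₁.map h₂ hf
  exact ⟨g, h1, h3 hb.1, h4 hb.2⟩

theorem sl_shift (W : GM (tgr k T (tg k 𝒜 𝒜))) (t c : ℤ) :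
    ∃ g : (sl t (W.shift (0, c))).M →ₗ[T ⊗[k] A] (sl (c + t) W).M, IsG g ∧ Bijective g := by
  obtain ⟨j₁, h₁⟩ := isRes_sl t (W.shift (0, c))
  obtain ⟨j₂, h₂⟩ := isRes_sl (c + t) W
  have h₃ := (isRes_shift W ((0 : ℤ), c)).comp h₁
  have e : ((fun d : ℤ × ℤ => ((0 : ℤ), c) + d) ∘ fun d : ℤ => (d, t)) =
      fun d : ℤ => (d, c + t) := by
    funext d
    simp
  rw [RingHom.id_comp, e] at h₃
  exact h₃.iso h₂

theorem sl_nil {S : Set (T ⊗[k] A)} (h : Nil (i1 k T A '' S) W.M) (t : ℤ) : Nil S (sl t W).M := by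
  obtain ⟨j, hj⟩ := isRes_sl t W
  exact hj.nil h fun f hf => ⟨_, ⟨f, hf, rfl⟩, 1, (pow_one _).symm, one_pos⟩

theorem Std.z2_vanish (h : Std 𝒜 z θ) (hW : Module.Finite (T ⊗[k] (A ⊗[k] A)) W.M)
    (hn : Nil (z2 k T z) W.M) : ∀ᶠ t in atTop, ∀ c x, W.π (c, t) x = 0 := by
  obtain ⟨n, hk⟩ := hn.kill_pow (Set.finite_range _)
  have e : Ideal.span (z2 k T z) =
      ((Ideal.span (Set.range z)).map (inr k A A)).map (inr k T (A ⊗[k] A)) := by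
    rw [Ideal.map_span, Ideal.map_span, ← Set.range_comp, ← Set.range_comp]
    rfl
  rw [e] at hk
  have h1 := W.vanish hW (AddMonoidHom.snd ℤ ℤ) (tgr_mem_pow fun n γ hγ y hy => ?_) hk
  · exact h1.mono fun t ht c x => ht (c, t) rfl x
  · obtain ⟨a, ha, b, hb, rfl⟩ := hy
    have h2 := Ideal.mem_map_of_mem (inr k A A) (h.mem_pow n hγ hb)
    rw [Ideal.map_pow] at h2
    have e : a ⊗ₜ[k] b = (a ⊗ₜ[k] (1 : A)) * inr k A A b := by
      change _ = (a ⊗ₜ[k] (1 : A)) * (1 ⊗ₜ[k] b)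
      rw [Algebra.TensorProduct.tmul_mul_tmul, mul_one, one_mul]
    rw [e]
    exact Ideal.mul_mem_left _ _ h2

theorem Std.sl_zero (h : Std 𝒜 z θ) (hW : Module.Finite (T ⊗[k] (A ⊗[k] A)) W.M)
    (hn : Nil (z2 k T z) W.M) : ∀ᶠ t in atTop, Subsingleton (sl t W).M := by
  refine (h.z2_vanish hW hn).mono fun t ht => ?_
  obtain ⟨j, hj⟩ := isRes_sl t W
  exact hj.subsingleton ht

variable [IsNoetherianRing T]

theorem Std.noeth_one (h : Std 𝒜 z θ) (T : Type) [CommRing T] [Algebra k T] [IsNoetherianRing T] :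
    IsNoetherianRing (T ⊗[k] A) :=
  haveI := h.finiteType
  noeth_tensor' k T A

theorem Std.noeth_two (h : Std 𝒜 z θ) (T : Type) [CommRing T] [Algebra k T] [IsNoetherianRing T] :
    IsNoetherianRing (T ⊗[k] (A ⊗[k] A)) := by
  have := h.finiteType
  have : Algebra.FiniteType k (A ⊗[k] A) :=
    Algebra.FiniteType.trans (S := A) inferInstance inferInstance
  exact noeth_tensor' k T (A ⊗[k] A)

theorem Std.sl_finite (h : Std 𝒜 z θ) (hW : Module.Finite (T ⊗[k] (A ⊗[k] A)) W.M) (t : ℤ) :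
    Module.Finite (T ⊗[k] A) (sl t W).M := by
  have := h.noeth_one T
  obtain ⟨j, hj⟩ := isRes_sl t W
  refine hj.finite hW fun g => ?_
  obtain ⟨ι, hι, E, hE⟩ := h.fin_piece (t - g.2)
  refine ⟨ι, hι, fun i => 1 ⊗ₜ (1 ⊗ₜ E i), fun c x hx => ?_⟩
  obtain ⟨s, _, ⟨a, -, b, hb, rfl⟩, rfl⟩ := hx
  obtain ⟨β, rfl⟩ := hE b hb
  refine ⟨fun i => s ⊗ₜ (β i • a), ?_⟩
  rw [TensorProduct.tmul_sum, TensorProduct.tmul_sum]
  refine Finset.sum_congr rfl fun i _ => ?_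
  change _ = (s ⊗ₜ[k] ((β i • a) ⊗ₜ[k] (1 : A))) * ((1 : T) ⊗ₜ[k] ((1 : A) ⊗ₜ[k] E i))
  rw [Algebra.TensorProduct.tmul_mul_tmul, Algebra.TensorProduct.tmul_mul_tmul, one_mul, mul_one,
    mul_one, TensorProduct.smul_tmul]

theorem Std.sl_ef (h : Std 𝒜 z θ) (hW : Module.Finite (T ⊗[k] (A ⊗[k] A)) W.M)
    (hf : OF (algebraMap T (T ⊗[k] (A ⊗[k] A))) (z2 k T z) W.M) :
    ∀ᶠ t in atTop, EF (sl t W) := by
  refine (h.fs_two W hW hf).mono fun t ht => ?_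
  obtain ⟨j, hj⟩ := isRes_sl t W
  exact Eventually.of_forall fun c => (PFl.res hj fun s => mp_alg _ s).1 (ht c)

theorem Std.sl_ses (h : Std 𝒜 z θ) (hW : Module.Finite (T ⊗[k] (A ⊗[k] A)) W.M)
    {F : W.M →ₗ[T ⊗[k] (A ⊗[k] A)] W₂.M} {G : W₂.M →ₗ[T ⊗[k] (A ⊗[k] A)] W₃.M} (hF : IsG F)
    (hG : IsG G) (hs : Surjective G) (he : Exact F G) (hn : Nil (z2 k T z) (LinearMap.ker F)) :
    ∀ᶠ t in atTop, Ses (sl t W) (sl t W₂) (sl t W₃) := by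
  have := h.noeth_two T
  have hK : Module.Finite (T ⊗[k] (A ⊗[k] A)) (W.sub _ hF.ker).M :=
    Module.Finite.of_injective (LinearMap.ker F).subtype (Submodule.subtype_injective _)
  refine (h.z2_vanish (W := W.sub _ hF.ker) hK hn).mono fun t ht => ?_
  obtain ⟨j₁, h₁⟩ := isRes_sl t W
  obtain ⟨j₂, h₂⟩ := isRes_sl t W₂
  obtain ⟨j₃, h₃⟩ := isRes_sl t W₃
  obtain ⟨f, hf, e₁, -, -⟩ := h₁.map h₂ hF
  obtain ⟨g, hg, e₂, -, hs'⟩ := h₂.map h₃ hG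
  refine ⟨f, g, hf, hg, ?_, hs' hs, fun y => ⟨fun hy => ?_, ?_⟩⟩
  · rw [injective_iff_map_eq_zero]
    intro y hy
    have h1 : F (j₁ y) = 0 := by rw [← e₁, hy, map_zero]
    refine GM.eq_zero _ fun c => h₁.inj ?_
    rw [h₁.π, map_zero]
    exact congrArg Subtype.val (ht c ⟨j₁ y, h1⟩)
  · have h1 : G (j₂ y) = 0 := by rw [← e₂, hy, map_zero]
    obtain ⟨x, hx⟩ := (he _).1 h1
    choose w hw using fun c => h₁.sur c x
    obtain ⟨S, hS⟩ := (sl t W₂).sum_π y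
    refine ⟨∑ c ∈ S, w c, ?_⟩
    rw [map_sum, ← hS]
    refine Finset.sum_congr rfl fun c _ => h₂.inj ?_
    rw [e₁, hw, hF, hx, h₂.π]
  · rintro ⟨y', rfl⟩
    refine h₃.inj ?_
    rw [e₂, e₁, map_zero]
    exact (he _).2 ⟨_, rfl⟩

end Pool.Agent.CXD
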