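import Pool.Agent.P.MP_2ce3e7_ag.CPQ

/-! The action of a correspondence on a family of vector bundles. -/

set_option linter.unusedSectionVars false
set_option linter.unusedVariables false

open Function Filter
open scoped TensorProduct Polynomial

noncomputable section

namespace Pool.Agent.CXD

open scoped LaurentPolynomial

variable {k T A σ D Γ τ : Type} [Field k] [CommRing T] [Algebra k T] [CommRing A] [Algebra k A]
  [Fintype σ] {𝒜 : ℤ → Set A} {z : σ → A} {θ : A →ₐ[k] A[T;T⁻¹]} [Gd 𝒜] [Gk k 𝒜] [CommRing D]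
  [AddCommGroup Γ] {𝒟 : Γ → Set D} [Gd 𝒟] {s : τ → D} {u : D →+* T ⊗[k] A} {μ : Γ →+ ℤ}

/-- the product of a correspondence with a bundle -/
def Wd (hu : Hm u 𝒟 (tgr k T 𝒜) μ) (V : GM 𝒟) (Y : GM (tg k 𝒜 𝒜)) : GM (tgr k T (tg k 𝒜 𝒜)) :=
  tens (hm_i2.comp hu) V (gbx k (rt T) Y)

/-- the bad locus lies in the irrelevant locus -/
def Rad (z : σ → A) (s : τ → D) (u : D →+* T ⊗[k] A) : Prop :=
  ∀ i, inr k T A (z i) ∈ (Ideal.span (Set.range fun j => u (s j))).radical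

/-- the value on the slices -/
def thp (l : GM (tgr k T 𝒜) → ℚ) (hu : Hm u 𝒟 (tgr k T 𝒜) μ) (V : GM 𝒟) (Y : GM (tg k 𝒜 𝒜))
    (t : ℤ) : ℚ := l (sl t (Wd hu V Y))

theorem rad_map_CPQ2 {R R' κ : Type} [CommRing R] [CommRing R'] (χ : R →+* R') (w : κ → R) {x : R}
    (hx : x ∈ (Ideal.span (Set.range w)).radical) :
    χ x ∈ (Ideal.span (Set.range fun j => χ (w j))).radical := by
  obtain ⟨n, hn⟩ := hx
  refine ⟨n, ?_⟩
  have h1 := Ideal.mem_map_of_mem χ hn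
  rw [Ideal.map_span, ← Set.range_comp, map_pow] at h1
  exact h1

theorem Rad.two (h : Rad z s u) : ∀ y ∈ z2 k T z,
    y ∈ (Ideal.span (Set.range fun j => ((i2 k T A).comp u) (s j))).radical := by
  rintro _ ⟨i, rfl⟩
  exact rad_map_CPQ2 (i2 k T A) _ (h i)

theorem Rad.comp {T' : Type} [CommRing T'] [Algebra k T'] (h : Rad z s u)
    (χ : T ⊗[k] A →+* T' ⊗[k] A) {m : ℕ} (hχ : ∀ i, χ (inr k T A (z i)) = inr k T' A (z i) ^ m) :
    Rad z s (χ.comp u) := by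
  intro i
  have h1 := rad_map_CPQ2 χ _ (h i)
  rw [hχ] at h1
  exact Ideal.mem_radical_of_pow_mem h1

variable (hu : Hm u 𝒟 (tgr k T 𝒜) μ) {V V₂ V₃ : GM 𝒟} {Y Y₂ Y₃ : GM (tg k 𝒜 𝒜)}
  {l : GM (tgr k T 𝒜) → ℚ}

theorem wd_finite (hV : Module.Finite D V.M) (hY : Module.Finite (A ⊗[k] A) Y.M) :
    Module.Finite (T ⊗[k] (A ⊗[k] A)) (Wd hu V Y).M :=
  tens_finite hV (gbx_finite inferInstance hY)

theorem wd_of (hr : Rad z s u) (hV : QL s V) (Y : GM (tg k 𝒜 𝒜)) :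
    OF (algebraMap T (T ⊗[k] (A ⊗[k] A))) (z2 k T z) (Wd hu V Y).M :=
  (OF.tens (hm_i2.comp hu) (gbx_flat inferInstance Y) hV.2).of_radical hr.two

variable [IsNoetherianRing T]

theorem Std.wd_ef (h : Std 𝒜 z θ) (hr : Rad z s u) (hV : QL s V)
    (hY : Module.Finite (A ⊗[k] A) Y.M) : ∀ᶠ t in atTop, EF (sl t (Wd hu V Y)) :=
  h.sl_ef (wd_finite hu hV.1 hY) (wd_of hu hr hV Y)

theorem Std.thp_sesY (h : Std 𝒜 z θ) (hl : AdmP z l) (hr : Rad z s u) (hV : QL s V)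
    (hY : Module.Finite (A ⊗[k] A) Y₂.M) (hs : Ses Y Y₂ Y₃) :
    ∀ᶠ t in atTop, thp l hu V Y₂ t = thp l hu V Y t + thp l hu V Y₃ t := by
  have := h.finiteType
  have : IsNoetherianRing A := Algebra.FiniteType.isNoetherianRing k A
  have := noeth_tensor' k A A
  obtain ⟨h1, h3⟩ := fin_CWM hY hs
  obtain ⟨F, G, hF, hG, hsur, he, hn⟩ :=
    tens_sesY (hm_i2.comp hu) hV.2 (gbx_ses_right (k := k) (rt T) hs)
  have h4 := h.sl_ses (wd_finite hu hV.1 h1) hF hG hsur he (hn.of_radical hr.two)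
  filter_upwards [h4, h.wd_ef hu hr hV h1, h.wd_ef hu hr hV hY, h.wd_ef hu hr hV h3] with t
    a b c d
  exact hl.add _ _ _ ⟨h.sl_finite (wd_finite hu hV.1 h1) t, b⟩
    ⟨h.sl_finite (wd_finite hu hV.1 hY) t, c⟩ ⟨h.sl_finite (wd_finite hu hV.1 h3) t, d⟩ a

theorem Std.thp_sesV (h : Std 𝒜 z θ) (hl : AdmP z l) (hr : Rad z s u) (hV : QL s V)
    (hV₂ : QL s V₂) (hV₃ : QL s V₃) (hY : Module.Finite (A ⊗[k] A) Y.M) (hs : Ses V V₂ V₃) :
    ∀ᶠ t in atTop, thp l hu V₂ Y t = thp l hu V Y t + thp l hu V₃ Y t := by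
  obtain ⟨F, G, hF, hG, hsur, he, hn⟩ := tens_sesV (hm_i2.comp hu) hV₃.2 hs (gbx k (rt T) Y)
  have h4 := h.sl_ses (wd_finite hu hV.1 hY) hF hG hsur he (hn.of_radical hr.two)
  filter_upwards [h4, h.wd_ef hu hr hV hY, h.wd_ef hu hr hV₂ hY, h.wd_ef hu hr hV₃ hY] with t
    a b c d
  exact hl.add _ _ _ ⟨h.sl_finite (wd_finite hu hV.1 hY) t, b⟩
    ⟨h.sl_finite (wd_finite hu hV₂.1 hY) t, c⟩ ⟨h.sl_finite (wd_finite hu hV₃.1 hY) t, d⟩ a

theorem Std.thp_left (h : Std 𝒜 z θ) (hl : AdmP z l) (hV : Module.Finite D V.M)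
    (hY : Module.Finite (A ⊗[k] A) Y.M) (hn : Nil (Set.range fun i => inl k A A (z i)) Y.M)
    (t : ℤ) : thp l hu V Y t = 0 := by
  have h1 : Nil _ (Wd hu V Y).M :=
    tens_nil (h := hm_i2.comp hu) (V := V) (gbx_nil (k := k) (W := rt T) hn)
  refine hl.tors _ (h.sl_finite (wd_finite hu hV hY) t) (sl_nil ?_ t)
  rintro _ ⟨_, ⟨i, rfl⟩, rfl⟩
  exact h1 _ ⟨_, ⟨i, rfl⟩, rfl⟩

theorem zero_CPQ2 (h : Std 𝒜 z θ) (hl : AdmP z l) (hV : Module.Finite D V.M)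
    (hY : Module.Finite (A ⊗[k] A) Y.M) (hn : Nil (z2 k T z) (Wd hu V Y).M) :
    ∀ᶠ t in atTop, thp l hu V Y t = 0 := by
  filter_upwards [h.sl_zero (wd_finite hu hV hY) hn] with t ht
  exact hl.tors _ (h.sl_finite (wd_finite hu hV hY) t) (nil_of_subsingleton _)

theorem Std.thp_right (h : Std 𝒜 z θ) (hl : AdmP z l) (hV : Module.Finite D V.M)
    (hY : Module.Finite (A ⊗[k] A) Y.M) (hn : Nil (Set.range fun i => inr k A A (z i)) Y.M) :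
    ∀ᶠ t in atTop, thp l hu V Y t = 0 := by
  have h1 : Nil _ (Wd hu V Y).M :=
    tens_nil (h := hm_i2.comp hu) (V := V) (gbx_nil (k := k) (W := rt T) hn)
  refine zero_CPQ2 hu h hl hV hY ?_
  rintro _ ⟨i, rfl⟩
  exact h1 _ ⟨_, ⟨i, rfl⟩, rfl⟩

theorem Std.thp_nilV (h : Std 𝒜 z θ) (hl : AdmP z l) (hr : Rad z s u) (hV : Module.Finite D V.M)
    (hY : Module.Finite (A ⊗[k] A) Y.M) (hn : Nil (Set.range s) V.M) :
    ∀ᶠ t in atTop, thp l hu V Y t = 0 := by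
  have h1 : Nil _ (Wd hu V Y).M := tens_nilV (hm_i2.comp hu) hn (gbx k (rt T) Y)
  rw [← Set.range_comp] at h1
  exact zero_CPQ2 hu h hl hV hY (h1.of_radical hr.two)

theorem shift_CPQ2 (h : Std 𝒜 z θ) (hl : AdmP z l) (hV : Module.Finite D V.M)
    (hY : Module.Finite (A ⊗[k] A) Y.M) (t c : ℤ) :
    thp l hu V (Y.shift (0, c)) t = thp l hu V Y (c + t) := by
  obtain ⟨f₁, a₁, b₁⟩ := gbx_shift (k := k) (rt T) Y (0, c)
  obtain ⟨f₂, a₂, b₂⟩ := tens_congrY (hm_i2.comp hu) V a₁ b₁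
  obtain ⟨f₃, a₃, b₃⟩ := tens_shiftY (hm_i2.comp hu) V (gbx k (rt T) Y) (0, c)
  obtain ⟨g₂, c₂, d₂⟩ := sl_congr a₂ b₂ t
  obtain ⟨g₃, c₃, d₃⟩ := sl_congr a₃ b₃ t
  obtain ⟨g₄, c₄, d₄⟩ := sl_shift (Wd hu V Y) t c
  refine hl.congr _ _ (g₄ ∘ₗ g₃ ∘ₗ g₂) (h.sl_finite (wd_finite hu hV hY) _) (fun d x => ?_)
    (d₄.comp (d₃.comp d₂))
  exact (congrArg (fun y => g₄ (g₃ y)) (c₂ d x)).trans
    ((congrArg g₄ (c₃ d (g₂ x))).trans (c₄ d (g₃ (g₂ x))))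

theorem Std.thp_pf (h : Std 𝒜 z θ) (hl : AdmP z l) (hr : Rad z s u) (hV : QL s V)
    (hY : Module.Finite (A ⊗[k] A) Y.M) : thp l hu V Y ∈ PF atTop := by
  have := h.finiteType
  have : IsNoetherianRing A := Algebra.FiniteType.isNoetherianRing k A
  have := noeth_tensor' k A A
  refine hilb' (fun t Y => thp l hu V Y t) (fun M N P hN hs => h.thp_sesY hu hl hr hV hN hs)
    (u := ((0, 1) : ℤ × ℤ)) (fun t M hM => ?_) (Set.finite_range fun i => inr k A A (z i)) ?_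
    (fun M hM h0 => ?_) Y hY
  · have e : -((0, 1) : ℤ × ℤ) = (0, -1) := by simp
    have e' : -1 + (t + 1) = t := by ring
    rw [e, shift_CPQ2 hu h hl hV.1 hM, e']
  · rintro _ ⟨i, rfl⟩
    exact hm_inr.mem 1 _ (h.deg i)
  · exact pf_congr (zero_mem _) (h.thp_right hu hl hV.1 hM fun f hf x =>
      ⟨1, by rw [pow_one]; exact h0 f hf x⟩)

end Pool.Agent.CXD
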