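import Pool.Agent.P.MP_2ce3e7_ag.CPQ2
import Pool.Agent.P.MP_2ce3e7_ag.CPP2

/-! Exterior products act through the ground ring. -/

set_option linter.unusedSectionVars false
set_option linter.unusedVariables false

open Function Filter
open scoped TensorProduct Polynomial

noncomputable section

namespace Pool.Agent.CXD

open scoped LaurentPolynomial

variable {k T A σ D Γ τ : Type} [Field k] [CommRing T] [Algebra k T] [CommRing A] [Algebra k A]
  [Fintype σ] {𝒜 : ℤ → Set A} {z : σ → A} {θ : A →ₐ[k] A[T;T⁻¹]} [Gd 𝒜] [Gk k 𝒜] [CommRing D]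
  [AddCommGroup Γ] {𝒟 : Γ → Set D} [Gd 𝒟] {s : τ → D} {u : D →+* T ⊗[k] A} {μ : Γ →+ ℤ}

/-- the part of degree `t` -/
def pc (t : ℤ) (E : GM (tgr k T 𝒜)) : GM (tv T) := res hm_alg t E

theorem isRes_pc (t : ℤ) (E : GM (tgr k T 𝒜)) :
    ∃ j : (pc t E).M →+ E.M, IsRes (algebraMap T (T ⊗[k] A)) (fun _ => t) (pc t E) E j := by
  have h := isRes_res (hm_alg (k := k) (T := T) (𝒜 := 𝒜)) t E
  simp only [AddMonoidHom.zero_apply, add_zero] at h
  exact h

theorem Std.pc_finite [IsNoetherianRing T] (h : Std 𝒜 z θ) {E : GM (tgr k T 𝒜)}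
    (hE : Module.Finite (T ⊗[k] A) E.M) (t : ℤ) : Module.Finite T (pc t E).M := by
  obtain ⟨j, hj⟩ := isRes_pc t E
  refine hj.finite hE fun g => ?_
  obtain ⟨ι, hι, F, hF⟩ := h.fin_piece (t - g)
  refine ⟨ι, hι, fun i => 1 ⊗ₜ F i, fun c a ha => ?_⟩
  obtain ⟨t', a', ha', rfl⟩ := ha
  obtain ⟨β, rfl⟩ := hF a' ha'
  refine ⟨fun i => β i • t', ?_⟩
  rw [TensorProduct.tmul_sum]
  refine Finset.sum_congr rfl fun i _ => ?_
  change _ = ((β i • t') ⊗ₜ[k] (1 : A)) * ((1 : T) ⊗ₜ[k] F i)
  rw [Algebra.TensorProduct.tmul_mul_tmul, one_mul, mul_one, TensorProduct.smul_tmul]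

theorem pc_flat {E : GM (tgr k T 𝒜)} {t : ℤ} (h : PFl hm_alg E t) : Module.Flat T (pc t E).M := by
  obtain ⟨j, hj⟩ := isRes_pc t E
  have hι' : Hm (RingHom.id T) (tv T) (tv T) 0 :=
    ⟨fun _ _ _ => Subsingleton.elim _ _, fun _ _ _ => mem_tv _ _⟩
  exact PFl.flat ((PFl.res (hι := hm_alg) (hι' := hι') (c := ()) hj fun _ => rfl).1 h)

theorem zs_CPR {R S X : Type} [CommRing R] [CommRing S] [AddCommGroup X] [Module S X]
    (φ : R →+* S) (x : X) : φ 0 • x = 0 := by rw [map_zero, zero_smul]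

theorem one_alg_CPR {B C : Type} [CommRing B] [Algebra k B] [CommRing C] [Algebra k C] (c : k) :
    (algebraMap k B c) ⊗ₜ[k] (1 : C) = (1 : B) ⊗ₜ[k] algebraMap k C c := by
  rw [Algebra.algebraMap_eq_smul_one, Algebra.algebraMap_eq_smul_one, TensorProduct.smul_tmul]

theorem alg_gb_CPR (N M : GM 𝒜) (c : k) (n : N.M) (m : M.M) :
    algebraMap k (A ⊗[k] A) c • gb k N M n m = gb k N M n (algebraMap k A c • m) := by
  rw [Algebra.TensorProduct.algebraMap_apply, one_alg_CPR, smul_gb, one_smul]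

theorem ind1_CPR {B Γ' : Type} [CommRing B] [Algebra k B] [AddCommGroup Γ'] {ℬ : Γ' → Set B}
    [Gd ℬ] [Gk k ℬ] {ι : D →+* T ⊗[k] B} {δ : Γ →+ Γ'} (h : Hm ι 𝒟 (tgr k T ℬ) δ) {V : GM 𝒟}
    {M : GM ℬ} {p : (tens h V (gbx k (rt T) M)).M → Prop} (h0 : p 0)
    (h1 : ∀ t m c v, V.π c v = v → p (tt h V _ (bb k (rt T) M t m) v))
    (h2 : ∀ x x', p x → p x' → p (x + x')) (x : (tens h V (gbx k (rt T) M)).M) : p x := by
  refine tens_ind h0 (fun γ y c v hy hv => ?_) h2 x
  clear hy
  induction y using gbx_ind with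
  | h0 => rw [map_zero, AddMonoidHom.zero_apply]; exact h0
  | h1 w d y hy => exact h1 w y c v hv
  | h2 y y' hy hy' => rw [map_add, AddMonoidHom.add_apply]; exact h2 _ _ hy hy'

theorem lam_CPR (N M : GM 𝒜) :
    ∃ lam : (gbx k (rt T) M).M →+ N.M →+ (gbx k (rt T) (gbox k N M)).M,
      (∀ t m n, lam (bb k (rt T) M t m) n = bb k (rt T) (gbox k N M) t (gb k N M n m)) ∧
      ∀ r y n, lam (r • y) n = i2 k T A r • lam y n := by
  let F : T →+ M.M →+ N.M →+ (gbx k (rt T) (gbox k N M)).M :=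
    AddMonoidHom.mk' (fun t => (gb k N M).flip.compr₂ (bb k (rt T) (gbox k N M) t))
      fun t t' => by
        ext m n
        exact DFunLike.congr_fun ((bb k (rt T) (gbox k N M)).map_add t t') _
  have hF : ∀ t m n, F t m n = bb k (rt T) (gbox k N M) t (gb k N M n m) := fun _ _ _ => rfl
  obtain ⟨lam, hl⟩ := gbx_lift (k := k) (W := rt T) (Y := M) F fun c t m => by
    ext n
    rw [hF, hF, bb_alg, alg_gb_CPR]
  refine ⟨lam, fun t m n => by rw [hl, hF], fun r y n => ?_⟩
  induction r using TensorProduct.induction_on with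
  | zero =>
    rw [zero_smul, map_zero, AddMonoidHom.zero_apply]
    exact (zs_CPR _ _).symm
  | add r r' hr hr' => rw [add_smul, map_add, map_add, add_smul, AddMonoidHom.add_apply, hr, hr']
  | tmul t a =>
    induction y using gbx_ind with
    | h0 => rw [smul_zero, map_zero, AddMonoidHom.zero_apply, smul_zero]
    | h2 y y' hy hy' =>
      rw [smul_add, map_add, map_add, AddMonoidHom.add_apply, AddMonoidHom.add_apply, hy, hy',
        smul_add]
    | h1 w d y hy =>
      rw [smul_bb, hl, hl, hF, hF, mp_tmul, smul_bb, Algebra.TensorProduct.includeRight_apply,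
        smul_gb, one_smul]

variable (hu : Hm u 𝒟 (tgr k T 𝒜) μ)

theorem exists_omega (V : GM 𝒟) (N M : GM 𝒜) :
    ∃ ω : N.M →+ (tens hu V (gbx k (rt T) M)).M →+ (Wd hu V (gbox k N M)).M,
      (∀ n t m v, ω n (tt hu V _ (bb k (rt T) M t m) v) =
        tt (hm_i2.comp hu) V _ (bb k (rt T) (gbox k N M) t (gb k N M n m)) v) ∧
      (∀ (t : T) (a : A) n x, ω (a • n) (algebraMap T (T ⊗[k] A) t • x) =
        i1 k T A (t ⊗ₜ a) • ω n x) ∧
      ∀ c t n x, ω (N.π c n) ((tens hu V (gbx k (rt T) M)).π t x) =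
        (Wd hu V (gbox k N M)).π (c, t) (ω n x) := by
  obtain ⟨lam, hl, hs⟩ := lam_CPR (k := k) (T := T) N M
  let F : (gbx k (rt T) M).M →+ V.M →+ N.M →+ (Wd hu V (gbox k N M)).M :=
    AddMonoidHom.mk' (fun y => ((tt (hm_i2.comp hu) V _).comp (lam y)).flip) fun y y' => by
      ext v n
      change tt (hm_i2.comp hu) V _ (lam (y + y') n) v =
        tt (hm_i2.comp hu) V _ (lam y n) v + tt (hm_i2.comp hu) V _ (lam y' n) v
      rw [map_add, AddMonoidHom.add_apply, map_add, AddMonoidHom.add_apply]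
  have hF : ∀ y v n, F y v n = tt (hm_i2.comp hu) V _ (lam y n) v := fun _ _ _ => rfl
  obtain ⟨g, hg⟩ := tens_lift (h := hu) F fun a y v => by
    ext n
    rw [hF, hF, hs]
    exact tt_bal (h := hm_i2.comp hu) a _ v
  have h1 : ∀ n t m v, g.flip n (tt hu V _ (bb k (rt T) M t m) v) =
      tt (hm_i2.comp hu) V _ (bb k (rt T) (gbox k N M) t (gb k N M n m)) v := fun n t m v => by
    rw [AddMonoidHom.flip_apply, hg, hF, hl]
  refine ⟨g.flip, h1, fun t a n x => ?_, fun c t n x => ?_⟩
  · induction x using ind1_CPR hu with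
    | h0 => rw [smul_zero, map_zero, map_zero, smul_zero]
    | h2 x x' hx hx' => rw [smul_add, map_add, map_add, hx, hx', smul_add]
    | h1 t' m c v hv =>
      rw [tt_smul, alg_eq, smul_bb, h1, h1]
      rfl
  · induction x using ind1_CPR hu with
    | h0 => rw [map_zero, map_zero, map_zero, map_zero]
    | h2 x x' hx hx' => rw [map_add, map_add, map_add, map_add, hx, hx']
    | h1 t' m e v hv =>
      rw [tens_π t _ hv, gbx_π, h1, h1]
      refine Eq.trans ?_ (tens_π (h := hm_i2.comp hu) (c, t) _ hv).symm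
      rw [gbx_π, gbox_π]
      have e1 : ((c, t) - ((AddMonoidHom.inr ℤ ℤ).comp μ) e).1 = c := sub_zero c
      have e2 : ((c, t) - ((AddMonoidHom.inr ℤ ℤ).comp μ) e).2 = t - μ e := rfl
      rw [e1, e2]

theorem lift_CPR (V : GM 𝒟) (N M : GM 𝒜) {X : Type} [AddCommGroup X]
    (F : N.M →+ (tens hu V (gbx k (rt T) M)).M →+ X)
    (hF : ∀ (c : k) n x, F (algebraMap k A c • n) x =
      F n (algebraMap T (T ⊗[k] A) (algebraMap k T c) • x)) :
    ∃ g : (Wd hu V (gbox k N M)).M →+ X, ∀ n t m v,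
      g (tt (hm_i2.comp hu) V _ (bb k (rt T) (gbox k N M) t (gb k N M n m)) v) =
        F n (tt hu V _ (bb k (rt T) M t m) v) := by
  let F1 : N.M →+ M.M →+ T →+ V.M →+ X :=
    AddMonoidHom.mk'
      (fun n => (bb k (rt T) M).flip.compr₂ ((tt hu V (gbx k (rt T) M)).compr₂ (F n)))
      fun n n' => by
        ext m t v
        exact DFunLike.congr_fun (F.map_add n n') _
  have e1 : ∀ n m t v, F1 n m t v = F n (tt hu V _ (bb k (rt T) M t m) v) := fun _ _ _ _ => rfl
  obtain ⟨G1, hG1⟩ := gbox_lift (k := k) (N := N) (M := M) F1 fun c n m => by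
    ext t v
    rw [e1, e1, hF, tt_smul, alg_eq, smul_bb, one_smul, bb_alg]
  obtain ⟨G2, hG2⟩ := gbx_lift (k := k) (W := rt T) (Y := gbox k N M) G1.flip fun c t y => by
    rw [AddMonoidHom.flip_apply, AddMonoidHom.flip_apply]
    induction y using gbox_ind with
    | h0 => rw [smul_zero, map_zero, AddMonoidHom.zero_apply, AddMonoidHom.zero_apply]
    | h2 y y' hy hy' =>
      rw [smul_add, map_add, map_add, AddMonoidHom.add_apply, AddMonoidHom.add_apply, hy, hy']
    | h1 c' n d m hn hm =>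
      ext v
      rw [alg_gb_CPR, hG1, hG1, e1, e1, bb_alg]
  have e2 : ∀ n m t v, G2 (bb k (rt T) (gbox k N M) t (gb k N M n m)) v =
      F n (tt hu V _ (bb k (rt T) M t m) v) := fun n m t v => by
    rw [hG2, AddMonoidHom.flip_apply, hG1, e1]
  have e3 : ∀ (r : T ⊗[k] A) n m t v,
      G2 (i2 k T A r • bb k (rt T) (gbox k N M) t (gb k N M n m)) v =
        F n (tt hu V _ (r • bb k (rt T) M t m) v) := fun r n m t v => by
    induction r using TensorProduct.induction_on with
    | zero =>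
      have e := zs_CPR (i2 k T A) (bb k (rt T) (gbox k N M) t (gb k N M n m))
      refine (congrArg (fun y => G2 y v) e).trans ?_
      simp only [map_zero, zero_smul, AddMonoidHom.zero_apply]
    | add r r' hr hr' => simp only [map_add, add_smul, AddMonoidHom.add_apply, hr, hr']
    | tmul t' a =>
      rw [mp_tmul, smul_bb, Algebra.TensorProduct.includeRight_apply, smul_gb, one_smul, e2,
        smul_bb]
  obtain ⟨G3, hG3⟩ := tens_lift (h := hm_i2.comp hu) (V := V) G2 fun a y v => by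
    induction y using gbx_ind with
    | h0 => rw [smul_zero, map_zero, AddMonoidHom.zero_apply, AddMonoidHom.zero_apply]
    | h2 y y' hy hy' =>
      rw [smul_add, map_add, map_add, AddMonoidHom.add_apply, AddMonoidHom.add_apply, hy, hy']
    | h1 t d y hy =>
      clear hy
      induction y using gbox_ind with
      | h0 => rw [map_zero, smul_zero, map_zero, AddMonoidHom.zero_apply, AddMonoidHom.zero_apply]
      | h2 y y' hy hy' =>
        rw [map_add, smul_add, map_add, map_add, AddMonoidHom.add_apply, AddMonoidHom.add_apply,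
          hy, hy']
      | h1 c' n d' m hn hm =>
        rw [e2, ← tt_bal]
        exact e3 (u a) n m t v
  exact ⟨G3, fun n t m v => (hG3 _ v).trans (e2 n m t v)⟩

theorem isRes_ext (V : GM 𝒟) (N M : GM 𝒜) (t : ℤ) :
    ∃ J : (gbx k (pc t (tens hu V (gbx k (rt T) M))) N).M →+ (Wd hu V (gbox k N M)).M,
      IsRes (i1 k T A) (fun c => (c, t)) (gbx k (pc t (tens hu V (gbx k (rt T) M))) N)
        (Wd hu V (gbox k N M)) J := by
  obtain ⟨j, hj⟩ := isRes_pc t (tens hu V (gbx k (rt T) M))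
  obtain ⟨ω, h1, h2, h3⟩ := exists_omega hu V N M
  have hπ : ∀ w, (tens hu V (gbx k (rt T) M)).π t (j w) = j w := fun w => by
    rw [← hj.π ()]
    congr 1
    induction w using GM.ind with
    | h0 => exact map_zero _
    | h1 d x hx => exact hx
    | h2 x y hx hy => rw [map_add, hx, hy]
  obtain ⟨J, hJ⟩ := gbx_lift (k := k) (W := pc t (tens hu V (gbx k (rt T) M))) (Y := N)
    (ω.flip.comp j) fun c w n => by
      change ω n (j (algebraMap k T c • w)) = ω (algebraMap k A c • n) (j w)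
      have a1 := h2 (algebraMap k T c) 1 n (j w)
      have a2 := h2 1 (algebraMap k A c) n (j w)
      rw [one_smul, one_alg_CPR] at a1
      rw [map_one, one_smul] at a2
      rw [hj.smul, a1, a2]
  have hJ' : ∀ w n, J (bb k _ N w n) = ω n (j w) := hJ
  choose p hp using hj.sur ()
  have hp' : ∀ x, j (p x) = (tens hu V (gbx k (rt T) M)).π t x := hp
  let P : (tens hu V (gbx k (rt T) M)).M →+ (pc t (tens hu V (gbx k (rt T) M))).M :=
    AddMonoidHom.mk' p fun x y => hj.inj (by rw [map_add, hp', hp', hp', map_add])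
  have hP : ∀ x, P x = p x := fun _ => rfl
  obtain ⟨g, hg⟩ := lift_CPR hu V N M
    (X := (gbx k (pc t (tens hu V (gbx k (rt T) M))) N).M)
    ((bb k (pc t (tens hu V (gbx k (rt T) M))) N).comp P).flip fun c n x => by
      change bb k _ N (p x) (algebraMap k A c • n) = bb k _ N (p _) n
      rw [← bb_alg]
      congr 2
      refine hj.inj ?_
      rw [hj.smul, hp', hp']
      have := (tens hu V (gbx k (rt T) M)).π_cl
        ((hm_alg (k := k) (T := T) (𝒜 := 𝒜)).mem () (algebraMap k T c) trivial) t x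
      rw [AddMonoidHom.zero_apply, zero_add] at this
      exact this.symm
  have hg' : ∀ n x, g (ω n x) = bb k (pc t (tens hu V (gbx k (rt T) M))) N (P x) n := by
    intro n x
    induction x using ind1_CPR hu with
    | h0 => rw [map_zero, map_zero, map_zero, map_zero, AddMonoidHom.zero_apply]
    | h2 x x' hx hx' => rw [map_add, map_add, hx, hx', map_add, map_add, AddMonoidHom.add_apply]
    | h1 t' m c v hv => rw [h1, hg]; rfl
  refine ⟨J, LeftInverse.injective (g := g) fun y => ?_, fun r y => ?_, fun c y => ?_,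
    fun c x => ?_⟩
  · induction y using gbx_ind with
    | h0 => rw [map_zero, map_zero]
    | h2 y y' hy hy' => rw [map_add, map_add, hy, hy']
    | h1 w d n hn =>
      rw [hJ', hg', hP]
      congr 2
      exact hj.inj (by rw [hp', hπ])
  · induction r using TensorProduct.induction_on with
    | zero =>
      rw [zero_smul, map_zero]
      exact (zs_CPR _ _).symm
    | add r r' hr hr' => rw [add_smul, map_add, map_add, add_smul, hr, hr']
    | tmul t' a =>
      induction y using gbx_ind with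
      | h0 => rw [smul_zero, map_zero, smul_zero]
      | h2 y y' hy hy' => rw [smul_add, map_add, map_add, hy, hy', smul_add]
      | h1 w d n hn => rw [smul_bb, hJ', hJ', hj.smul, h2]
  · induction y using gbx_ind with
    | h0 => rw [map_zero, map_zero, map_zero]
    | h2 y y' hy hy' => rw [map_add, map_add, map_add, map_add, hy, hy']
    | h1 w d n hn => rw [gbx_π, hJ', hJ', ← h3, hπ]
  · refine ind1_CPR (hm_i2.comp hu) (V := V) (M := gbox k N M)
      (p := fun x => ∃ y, J y = (Wd hu V (gbox k N M)).π (c, t) x) ⟨0, ?_⟩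
      (fun t' y e v hv => ?_) (fun x x' hx hx' => ?_) x
    · rw [map_zero]; exact (map_zero _).symm
    · induction y using gbox_ind with
      | h0 =>
        refine ⟨0, ?_⟩
        rw [map_zero, map_zero, map_zero, AddMonoidHom.zero_apply]
        exact (map_zero _).symm
      | h2 y y' hy hy' =>
        obtain ⟨a, ha⟩ := hy
        obtain ⟨b, hb⟩ := hy'
        refine ⟨a + b, ?_⟩
        rw [map_add, ha, hb, map_add, map_add, AddMonoidHom.add_apply]
        exact (map_add _ _ _).symm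
      | h1 c' n d m hn hm =>
        refine ⟨bb k _ N (p (tt hu V _ (bb k (rt T) M t' m) v)) (N.π c n), ?_⟩
        rw [hJ', hp', h3, h1]
    · obtain ⟨a, ha⟩ := hx
      obtain ⟨b, hb⟩ := hx'
      exact ⟨a + b, by rw [map_add, ha, hb]; exact (map_add _ _ _).symm⟩

theorem Std.tens_ef [IsNoetherianRing T] (h : Std 𝒜 z θ) (hr : Rad z s u) {V : GM 𝒟}
    (hV : QL s V) {M : GM 𝒜} (hM : Module.Finite A M.M) : EF (tens hu V (gbx k (rt T) M)) :=
  h.fs_one _ (tens_finite hV.1 (gbx_finite inferInstance hM))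
    ((OF.tens hu (gbx_flat inferInstance M) hV.2).of_radical (by rintro _ ⟨i, rfl⟩; exact hr i))

theorem Std.thp_ext [Fintype k] [IsNoetherianRing T] [PreconnectedSpace (PrimeSpectrum T)]
    (h : Std 𝒜 z θ) (hT : Ht k T) {l : GM (tgr k T 𝒜) → ℚ} (hl : AdmP z l) (hr : Rad z s u)
    {V : GM 𝒟} (hV : QL s V) {N M : GM 𝒜} (hN : Module.Finite A N.M) (hM : Module.Finite A M.M) :
    ∀ᶠ t in atTop, thp l hu V (gbox k N M) t = 0 := by
  have := h.noeth_one T
  filter_upwards [h.tens_ef hu hr hV hM] with t ht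
  obtain ⟨J, hJ⟩ := isRes_ext hu V N M t
  obtain ⟨j, hj⟩ := isRes_sl t (Wd hu V (gbox k N M))
  obtain ⟨g, hg, hb⟩ := hj.iso hJ
  have hf := h.pc_finite (tens_finite (h := hu) hV.1 (gbx_finite (W := rt T) inferInstance hM)) t
  exact (hl.congr _ _ g (gbx_finite hf hN) hg hb).trans
    ((hl.admT hN).eq_zero hT _ hf (pc_flat ht))

end Pool.Agent.CXD
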