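import Pool.Agent.P.MP_2ce3e7_ag.CWL

/-! The diagonal acts as the identity. -/

set_option linter.unusedSectionVars false
set_option linter.unusedVariables false

open Function Filter LaurentPolynomial
open scoped TensorProduct

noncomputable section

namespace Pool.Agent.CXD

variable {k A σ : Type} [Field k] [CommRing A] [Algebra k A] [Fintype σ] {𝒜 : ℤ → Set A}
  {z : σ → A} {θ : A →ₐ[k] A[T;T⁻¹]} [Gd 𝒜] {Δ : GM (tg k 𝒜 𝒜)} {δ : Δ.M} [IsNoetherianRing A]
  [IsNoetherianRing (A ⊗[k] A)] {l : GM 𝒜 → ℚ} {V : GM 𝒜}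

theorem Dg.finite (hd : Dg θ Δ δ) : Module.Finite (A ⊗[k] A) Δ.M :=
  Module.finite_def.2 (hd.gen ▸ Submodule.fg_span_singleton δ)

theorem nil_quo_CWL2 (h : Std 𝒜 z θ) {t : ℤ} {L : Submodule A V.M}
    (hg : ∀ b, t ≤ b → ∀ v, V.π b v ∈ Submodule.span A {w | V.π t w = w})
    (hL : ∀ w, V.π t w = w → w ∈ L) (i : σ) (v : V.M) : ∃ m : ℕ, z i ^ m • v ∈ L := by
  refine V.ind (p := fun v => ∃ m : ℕ, z i ^ m • v ∈ L) ⟨0, by simp⟩ ?_ ?_ v
  · intro b x hx
    rcases le_total t b with hb | hb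
    · refine ⟨0, ?_⟩
      rw [pow_zero, one_smul, ← hx]
      exact (Submodule.span_le.2 fun w hw => hL w hw) (hg b hb x)
    · refine ⟨(t - b).toNat, hL _ ?_⟩
      have h1 := GM.hom_smul (cl_pow (mem_cl (h.deg i)) (t - b).toNat) hx
      have h2 : (t - b).toNat • (1 : ℤ) + b = t := by
        rw [nsmul_one, Int.toNat_of_nonneg (by omega)]
        ring
      rwa [h2] at h1
  · rintro x y ⟨m, hm⟩ ⟨n, hn⟩
    refine ⟨m + n, ?_⟩
    rw [smul_add]
    refine L.add_mem ?_ ?_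
    · rw [pow_add, mul_comm, mul_smul]
      exact L.smul_mem _ hm
    · rw [pow_add, mul_smul]
      exact L.smul_mem _ hn

theorem Std.slc_dg (h : Std 𝒜 z θ) (hd : Dg θ Δ δ) (hl : GAdd l) (hv : VnG ⊥ (Set.range z) l)
    (hV : Module.Finite A V.M) :
    ∀ᶠ t in atTop, l (slc t (tens (hm_inl (k := k)) V Δ)) = l (V.shift t) := by
  have hT : Module.Finite (A ⊗[k] A) (tens (hm_inl (k := k)) V Δ).M := tens_finite hV hd.finite
  obtain ⟨μ, hμ, h1⟩ := h.exists_mu hd V
  have hK : Module.Finite (A ⊗[k] A) ((tens (hm_inl (k := k)) V Δ).sub _ hμ.ker).M :=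
    Module.Finite.of_injective (LinearMap.ker μ).subtype Subtype.val_injective
  have hz := h.slice_zero (Y := (tens (hm_inl (k := k)) V Δ).sub _ hμ.ker) hK (h.mu_nil hd hμ h1)
  filter_upwards [hz, h.gen_deg hV] with t ht hgen
  obtain ⟨j, hj⟩ := isRes_slc t (tens (hm_inl (k := k)) V Δ)
  have hlau := h.isRes_lau V t
  obtain ⟨g, hg, hgj, -, -⟩ := hj.map hlau hμ
  have h4 := hl.four (N := V.shift t) (h.slc_finite hT t) hV hg
  have hker : l ((slc t (tens (hm_inl (k := k)) V Δ)).sub _ hg.ker) = 0 := by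
    have hs : ∀ y : (slc t (tens (hm_inl (k := k)) V Δ)).M, g y = 0 → y = 0 := by
      intro y hy
      have hm : μ (j y) = 0 := by rw [← hgj, hy, map_zero]
      refine GM.eq_zero _ fun c => hj.inj ?_
      rw [hj.π, map_zero]
      exact congrArg Subtype.val (ht c ⟨j y, hm⟩)
    have : Subsingleton ((slc t (tens (hm_inl (k := k)) V Δ)).sub _ hg.ker).M :=
      ⟨fun x y => Subtype.ext ((hs x.1 x.2).trans (hs y.1 y.2).symm)⟩
    exact hl.zero _
  have hran : ∀ w, V.π t w = w → w ∈ LinearMap.range g := by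
    intro w hw
    obtain ⟨y, hy⟩ := hj.sur 0 (tt hm_inl V Δ δ w)
    refine ⟨y, hlau.inj ?_⟩
    have e : ((t, 0) : ℤ × ℤ) - AddMonoidHom.inl ℤ ℤ t = 0 := sub_self _
    rw [hgj, hy, tens_π _ _ hw, e, hd.hom, h1 t w hw]
  have hcok : l ((V.shift t).quo _ hg.range) = 0 := by
    refine hv _ (Module.Finite.of_surjective (LinearMap.range g).mkQ
      (Submodule.mkQ_surjective _)) ?_ ?_
    · intro x hx y
      rw [Ideal.mem_bot.1 hx, zero_smul]
    · rintro _ ⟨i, rfl⟩ x
      obtain ⟨v, rfl⟩ := (LinearMap.range g).mkQ_surjective x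
      obtain ⟨m, hm⟩ := nil_quo_CWL2 h hgen hran i v
      refine ⟨m, ?_⟩
      rw [← map_smul]
      exact (Submodule.Quotient.mk_eq_zero _).2 hm
  rw [hker, hcok] at h4
  linarith

theorem Std.shift_pf (h : Std 𝒜 z θ) (hl : GAdd l) (hv : VnG ⊥ (Set.range z) l)
    (hV : Module.Finite A V.M) : (fun t => l (V.shift t)) ∈ PF ⊤ := by
  refine hilb itg_top (fun t M => l (M.shift t)) ?_ (u := 1) ?_ (Z := Set.range z)
    (Set.finite_range z) ?_ ?_ V hV
  · rintro t M N P hN ⟨f, g, hf, hg, hs⟩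
    exact hl (M.shift t) (N.shift t) (P.shift t) hN
      ⟨f, g, fun d x => hf _ x, fun d x => hg _ x, hs⟩
  · intro t M hM
    exact hl.congr (M := (M.shift (-1)).shift (t + 1)) (N := M.shift t) hM (f := LinearMap.id)
      (fun d x => congrArg (fun c => M.π c x) (by ring : -1 + (t + 1 + d) = t + d)) bijective_id
  · rintro _ ⟨i, rfl⟩
    exact mem_cl (h.deg i)
  · intro M hM h0
    have e : (fun t => l (M.shift t)) = 0 := by
      funext t
      refine hv (M.shift t) hM ?_ ?_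
      · intro x hx y
        rw [Ideal.mem_bot.1 hx, zero_smul]
      · intro f hf x
        exact ⟨1, by rw [pow_one]; exact h0 f hf x⟩
    show (fun t => l (M.shift t)) ∈ PF ⊤
    rw [e]
    exact zero_mem _

theorem Std.sv_dg (h : Std 𝒜 z θ) (hd : Dg θ Δ δ) (hl : GAdd l) (hv : VnG ⊥ (Set.range z) l)
    (hV : Module.Finite A V.M) : sv l (tens (hm_inl (k := k)) V Δ) = l V := by
  rw [sv, ev0_congr (h.slc_dg hd hl hv hV), ev0_top (h.shift_pf hl hv hV)]
  exact hl.congr hV (M := V.shift 0) (f := LinearMap.id)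
    (fun d x => congrArg (fun c => V.π c x) (zero_add d)) bijective_id

end Pool.Agent.CXD
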