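import Pool.Agent.P.MP_2ce3e7_ag.CPQ2
import Pool.Agent.P.MP_2ce3e7_ag.CWL2

/-! The action of the diagonal. -/

set_option linter.unusedSectionVars false
set_option linter.unusedVariables false

open Function Filter
open scoped TensorProduct Polynomial

noncomputable section

namespace Pool.Agent.CXD

open scoped LaurentPolynomial

variable {k T A σ D Γ τ : Type} [Field k] [CommRing T] [Algebra k T] [CommRing A] [Algebra k A]
  [Fintype σ] {𝒜 : ℤ → Set A} {z : σ → A} {θ : A →ₐ[k] A[T;T⁻¹]} [Gd 𝒜] [Gk k 𝒜] [CommRing D]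
  [AddCommGroup Γ] {𝒟 : Γ → Set D} [Gd 𝒟] {s : τ → D} {u : D →+* T ⊗[k] A} {μ : Γ →+ ℤ}

variable {Δ : GM (tg k 𝒜 𝒜)} {δ : Δ.M} {E : GM (tgr k T 𝒜)}

theorem zs_CPS {R X : Type} [CommRing R] [AddCommGroup X] [Module R X] (x : X) :
    (0 : R) • x = 0 := zero_smul R x

theorem Std.exists_mul (h : Std 𝒜 z θ) (hd : Dg θ Δ δ) (E : GM (tgr k T 𝒜)) :
    ∃ m : (tens hm_i2 E (gbx k (rt T) Δ)).M →+ E.M, ∀ (t : T) (a b : A) x,
      m (tt hm_i2 E _ (bb k (rt T) Δ t ((a ⊗ₜ[k] b) • δ)) x) = (t ⊗ₜ[k] (a * b)) • x := by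
  have hs : ∀ x : Δ.M, ∃ y : A ⊗[k] A, y • δ = x := fun x =>
    Submodule.mem_span_singleton.1 (hd.gen ▸ Submodule.mem_top : x ∈ _)
  choose s hs using hs
  have hk : ∀ y y' : A ⊗[k] A, y • δ = y' • δ → mlt k A y = mlt k A y' := by
    intro y y' hy
    have h1 : (y - y') • δ = 0 := by rw [sub_smul, hy, sub_self]
    have h2 := h.chD.ker_le (mlt k A) (RingHom.id A) 1 (fun c a _ => by simp) ((hd.ann _).1 h1)
    rwa [RingHom.mem_ker, map_sub, sub_eq_zero] at h2
  let l : Δ.M →+ A := AddMonoidHom.mk' (fun x => mlt k A (s x)) fun x x' => by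
    rw [← map_add]
    exact hk _ _ (by rw [add_smul, hs, hs, hs])
  have hl : ∀ y : A ⊗[k] A, l (y • δ) = mlt k A y := fun y => hk _ _ (hs _)
  have hl2 : ∀ (y : A ⊗[k] A) (x : Δ.M), l (y • x) = mlt k A y * l x := fun y x => by
    rw [← hs x, smul_smul, hl, hl, map_mul]
  let F : (rt T).M →+ Δ.M →+ T ⊗[k] A := AddMonoidHom.mk'
    (fun t : T => AddMonoidHom.mk' (fun x => t ⊗ₜ[k] l x) fun x x' => by
      rw [map_add, TensorProduct.tmul_add])
    fun t t' => AddMonoidHom.ext fun x => TensorProduct.add_tmul t t' (l x)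
  obtain ⟨ρ, hρ⟩ := gbx_lift (k := k) (W := rt T) (Y := Δ) F fun c w y => by
    change (algebraMap k T c * (show T from w)) ⊗ₜ[k] l y =
      (show T from w) ⊗ₜ[k] l (algebraMap k (A ⊗[k] A) c • y)
    have e : mlt k A (algebraMap k (A ⊗[k] A) c) = algebraMap k A c :=
      (Algebra.TensorProduct.lmul' k : A ⊗[k] A →ₐ[k] A).commutes c
    rw [hl2, e, ← Algebra.smul_def, ← Algebra.smul_def, TensorProduct.smul_tmul]
  have hρ' : ∀ (t : T) (y : Δ.M), ρ (bb k (rt T) Δ t y) = t ⊗ₜ[k] l y := hρ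
  have hρ2 : ∀ (r : T ⊗[k] A) (y : (gbx k (rt T) Δ).M), ρ (i2 k T A r • y) = r * ρ y := by
    intro r y
    induction r using TensorProduct.induction_on with
    | zero => rw [map_zero, zero_mul]; exact (congrArg ρ (zs_CPS y)).trans (map_zero ρ)
    | add r r' hr hr' => rw [map_add, add_smul, map_add, hr, hr', add_mul]
    | tmul t a =>
      induction y using gbx_ind with
      | h0 => rw [smul_zero, map_zero, mul_zero]
      | h2 y y' hy hy' => rw [smul_add, map_add, map_add, hy, hy', mul_add]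
      | h1 w d y _ =>
        have e1 : i2 k T A (t ⊗ₜ[k] a) = t ⊗ₜ[k] ((1 : A) ⊗ₜ[k] a) := rfl
        rw [e1, smul_bb, hρ', hρ', hl2, mlt_tmul, one_mul, Algebra.TensorProduct.tmul_mul_tmul]
        rfl
  let G : (gbx k (rt T) Δ).M →+ E.M →+ E.M := AddMonoidHom.mk'
    (fun y => AddMonoidHom.mk' (fun x => ρ y • x) fun x x' => smul_add _ _ _)
    fun y y' => AddMonoidHom.ext fun x => by
      change ρ (y + y') • x = ρ y • x + ρ y' • x
      rw [map_add, add_smul]
  obtain ⟨m, hm⟩ := tens_lift (h := hm_i2 (k := k) (T := T) (𝒜 := 𝒜)) (V := E)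
    (Y := gbx k (rt T) Δ) G fun r y x => by
      change ρ (i2 k T A r • y) • x = ρ y • r • x
      rw [hρ2, mul_comm, mul_smul]
  refine ⟨m, fun t a b x => ?_⟩
  rw [hm]
  change ρ _ • x = _
  rw [hρ', hl, mlt_tmul]

theorem dg_ind (hd : Dg θ Δ δ) {p : (tens hm_i2 E (gbx k (rt T) Δ)).M → Prop} (h0 : p 0)
    (h1 : ∀ (t : T) c d e, ∀ a ∈ 𝒜 c, ∀ b ∈ 𝒜 d, ∀ x, E.π e x = x →
      p (tt hm_i2 E _ (bb k (rt T) Δ t ((a ⊗ₜ[k] b) • δ)) x))
    (h2 : ∀ x y, p x → p y → p (x + y)) (x : (tens hm_i2 E (gbx k (rt T) Δ)).M) : p x := by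
  have key : ∀ (y : A ⊗[k] A) (t : T), ∀ e x, E.π e x = x →
      p (tt hm_i2 E _ (bb k (rt T) Δ t (y • δ)) x) := by
    intro y t
    refine Gd.ind (tg k 𝒜 𝒜) (p := fun y => ∀ e x, E.π e x = x →
      p (tt hm_i2 E _ (bb k (rt T) Δ t (y • δ)) x)) ?_ ?_ ?_ ?_ y
    · intro e x _
      rw [zero_smul, map_zero, map_zero, AddMonoidHom.zero_apply]
      exact h0
    · rintro c _ ⟨a, ha, b, hb, rfl⟩ e x hx
      exact h1 t c.1 c.2 e a ha b hb x hx
    · intro y y' hy hy' e x hx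
      rw [add_smul, map_add, map_add, AddMonoidHom.add_apply]
      exact h2 _ _ (hy e x hx) (hy' e x hx)
    · intro y hy e x hx
      have := hy e (-x) (by rw [map_neg, hx])
      rw [map_neg] at this
      rw [neg_smul, map_neg, map_neg, AddMonoidHom.neg_apply]
      exact this
  refine tens_ind h0 (fun γ y c v hy hv => ?_) h2 x
  clear hy
  induction y using gbx_ind with
  | h0 => rw [map_zero, AddMonoidHom.zero_apply]; exact h0
  | h2 y y' hy hy' => rw [map_add, AddMonoidHom.add_apply]; exact h2 _ _ hy hy'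
  | h1 w d y hy =>
    obtain ⟨y, rfl⟩ := Submodule.mem_span_singleton.1 (hd.gen ▸ Submodule.mem_top : y ∈ _)
    exact key y w c v hv

theorem dg_deg (hd : Dg θ Δ δ) (t : T) {c d e : ℤ} {a b : A} (ha : a ∈ cl 𝒜 c) (hb : b ∈ cl 𝒜 d)
    {x : E.M} (hx : E.π e x = x) :
    (tens hm_i2 E (gbx k (rt T) Δ)).π (c, d + e)
      (tt hm_i2 E _ (bb k (rt T) Δ t ((a ⊗ₜ[k] b) • δ)) x) =
        tt hm_i2 E _ (bb k (rt T) Δ t ((a ⊗ₜ[k] b) • δ)) x := by
  rw [tens_π _ _ hx, gbx_π]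
  have e1 : (c, d + e) - AddMonoidHom.inr ℤ ℤ e = (c, d) + 0 := by simp
  rw [e1, GM.hom_smul (tmul_mem_cl ha hb) hd.hom]

variable {m : (tens hm_i2 E (gbx k (rt T) Δ)).M →+ E.M}
  (hm : ∀ (t : T) (a b : A) x,
    m (tt hm_i2 E _ (bb k (rt T) Δ t ((a ⊗ₜ[k] b) • δ)) x) = (t ⊗ₜ[k] (a * b)) • x)

include hm in
theorem dg_smul (hd : Dg θ Δ δ) (y : T ⊗[k] (A ⊗[k] A)) (x) :
    m (y • x) = mp T (Algebra.TensorProduct.lmul' k : A ⊗[k] A →ₐ[k] A) y • m x := by
  refine dg_ind hd (p := fun x => m (y • x) =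
    mp T (Algebra.TensorProduct.lmul' k : A ⊗[k] A →ₐ[k] A) y • m x) ?_ ?_ ?_ x
  · rw [smul_zero, map_zero, smul_zero]
  · intro t c d e a _ b _ x _
    induction y using TensorProduct.induction_on with
    | zero => rw [map_zero, zero_smul]; exact (congrArg m (zs_CPS _)).trans (map_zero m)
    | add y y' hy hy' => rw [add_smul, map_add, map_add, add_smul, hy, hy']
    | tmul t' r =>
      induction r using TensorProduct.induction_on with
      | zero =>
        rw [TensorProduct.tmul_zero, map_zero, zero_smul]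
        exact (congrArg m (zs_CPS _)).trans (map_zero m)
      | add r r' hr hr' =>
        rw [TensorProduct.tmul_add, add_smul, map_add, map_add, add_smul, hr, hr']
      | tmul a' b' =>
        rw [tt_smul, smul_bb, smul_smul, Algebra.TensorProduct.tmul_mul_tmul, hm, hm, mp_tmul,
          Algebra.TensorProduct.lmul'_apply_tmul, smul_smul, Algebra.TensorProduct.tmul_mul_tmul,
          mul_mul_mul_comm]
        rfl
  · intro x x' hx hx'
    rw [smul_add, map_add, map_add, smul_add, hx, hx']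

include hm in
theorem dg_π (hd : Dg θ Δ δ) (c t : ℤ) (x) :
    E.π (t + c) (m ((tens hm_i2 E (gbx k (rt T) Δ)).π (c, t) x)) =
      m ((tens hm_i2 E (gbx k (rt T) Δ)).π (c, t) x) := by
  refine dg_ind hd (p := fun x => E.π (t + c) (m ((tens hm_i2 E (gbx k (rt T) Δ)).π (c, t) x)) =
    m ((tens hm_i2 E (gbx k (rt T) Δ)).π (c, t) x)) ?_ ?_ ?_ x
  · simp only [map_zero]
  · intro t' c' d e a ha b hb x hx
    have hdeg := dg_deg hd t' (mem_cl ha) (mem_cl hb) hx
    by_cases e' : (c, t) = (c', d + e)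
    · have e1 : t + c = c' + d + e := by
        have h1 : c = c' := congrArg Prod.fst e'
        have h2 : t = d + e := congrArg Prod.snd e'
        omega
      rw [e', hdeg, hm, e1]
      exact GM.hom_smul (tmul_mem_tgr t' (cl_mul (mem_cl ha) (mem_cl hb))) hx
    · rw [GM.π_of_ne hdeg e', map_zero, map_zero]
  · intro x x' hx hx'
    simp only [map_add, hx, hx']

end Pool.Agent.CXD
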