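import Pool.Agent.P.MP_2ce3e7_ag.CPS

/-! The action of the diagonal, continued. -/

set_option linter.unusedSectionVars false
set_option linter.unusedVariables false

open Function Filter
open scoped TensorProduct Polynomial

noncomputable section

namespace Pool.Agent.CXD

open scoped LaurentPolynomial

variable {k T A σ D Γ τ : Type} [Field k] [CommRing T] [Algebra k T] [CommRing A] [Algebra k A]
  [Fintype σ] {𝒜 : ℤ → Set A} {z : σ → A} {θ : A →ₐ[k] A[T;T⁻¹]} [Gd 𝒜] [Gk k 𝒜] [CommRing D]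
  [AddCommGroup Γ] {𝒟 : Γ → Set D} [Gd 𝒟] {s : τ → D} {u : D →+* T ⊗[k] A} {μ : Γ →+ ℤ}

variable {Δ : GM (tg k 𝒜 𝒜)} {δ : Δ.M} {E : GM (tgr k T 𝒜)}

variable {m : (tens hm_i2 E (gbx k (rt T) Δ)).M →+ E.M}
  (hm : ∀ (t : T) (a b : A) x,
    m (tt hm_i2 E _ (bb k (rt T) Δ t ((a ⊗ₜ[k] b) • δ)) x) = (t ⊗ₜ[k] (a * b)) • x)

include hm in
theorem Std.dg_nil (h : Std 𝒜 z θ) (hd : Dg θ Δ δ) (i : σ) (γ : ℤ × ℤ) (x)
    (hx : m ((tens hm_i2 E (gbx k (rt T) Δ)).π γ x) = 0) :
    inr k T (A ⊗[k] A) (inr k A A (z i)) ^ γ.1.toNat •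
      (tens hm_i2 E (gbx k (rt T) Δ)).π γ x = 0 := by
  by_cases hγ : γ.1 < 0
  · have key : ∀ x, (tens hm_i2 E (gbx k (rt T) Δ)).π γ x = 0 := by
      intro x
      refine dg_ind hd (p := fun x => (tens hm_i2 E (gbx k (rt T) Δ)).π γ x = 0) (map_zero _)
        ?_ ?_ x
      · intro t c d e a ha b hb y hy
        refine GM.π_of_ne (dg_deg hd t (mem_cl ha) (mem_cl hb) hy) fun e' => ?_
        rw [e'] at hγ
        exact h.neg c hγ a ha
      · intro x x' hx hx'
        rw [map_add, hx, hx', add_zero]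
    rw [key, smul_zero]
  obtain ⟨j, hj⟩ : ∃ j, j = γ.1.toNat := ⟨_, rfl⟩
  have hj' : (j : ℤ) = γ.1 := by omega
  rw [← hj]
  have e0 : inr k T (A ⊗[k] A) (inr k A A (z i)) ^ j =
      (1 : T) ⊗ₜ[k] ((1 : A) ⊗ₜ[k] (z i ^ j)) := by
    rw [← map_pow, ← map_pow]
    rfl
  have key : ∀ x, tt hm_i2 E _ (bb k (rt T) Δ (1 : T) (((z i ^ j) ⊗ₜ[k] (1 : A)) • δ))
      (m ((tens hm_i2 E (gbx k (rt T) Δ)).π γ x)) =
      inr k T (A ⊗[k] A) (inr k A A (z i)) ^ j • (tens hm_i2 E (gbx k (rt T) Δ)).π γ x := by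
    intro x
    refine dg_ind hd (p := fun x => tt hm_i2 E _
      (bb k (rt T) Δ (1 : T) (((z i ^ j) ⊗ₜ[k] (1 : A)) • δ))
      (m ((tens hm_i2 E (gbx k (rt T) Δ)).π γ x)) =
      inr k T (A ⊗[k] A) (inr k A A (z i)) ^ j • (tens hm_i2 E (gbx k (rt T) Δ)).π γ x) ?_ ?_ ?_ x
    · simp only [map_zero, smul_zero]
    · intro t c d e a ha b hb y hy
      have hdeg := dg_deg hd t (mem_cl ha) (mem_cl hb) hy
      by_cases e' : γ = (c, d + e)
      · have ej : (j : ℤ) = c := by rw [hj', e']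
        have e1 : i2 k T A (t ⊗ₜ[k] (a * b)) = t ⊗ₜ[k] ((1 : A) ⊗ₜ[k] (a * b)) := rfl
        have m1 := tmul_mem_cl (k := k) (pow_mem_CWL h i j) (cl_mul (mem_cl ha) (mem_cl hb))
        have m2 := tmul_mem_cl (k := k) (mem_cl ha) (cl_mul (pow_mem_CWL h i j) (mem_cl hb))
        have e3 : ((z i ^ j) ⊗ₜ[k] (a * b)) • δ = (a ⊗ₜ[k] (z i ^ j * b)) • δ := by
          rw [← sub_eq_zero, ← sub_smul, hd.ann, map_sub, h.chD.hat_cl m1, h.chD.hat_cl m2,
            mlt_tmul, mlt_tmul, sub_eq_zero]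
          have f1 : (eD ((j : ℤ), c + d)).1 = (j : ℤ) := rfl
          have f2 : (eD (c, (j : ℤ) + d)).1 = c := rfl
          rw [f1, f2, ej]
          congr 2
          ring
        rw [e', hdeg, hm, ← tt_bal, e1, e0, tt_smul, smul_bb, smul_bb, smul_smul, smul_smul,
          Algebra.TensorProduct.tmul_mul_tmul, Algebra.TensorProduct.tmul_mul_tmul, one_mul,
          one_mul, mul_one, e3, one_smul]
        have e4 : t • (1 : T) = t := mul_one t
        rw [e4]
      · rw [GM.π_of_ne hdeg e', map_zero, map_zero, smul_zero]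
    · intro x x' hx hx'
      simp only [map_add, smul_add, hx, hx']
  rw [← key, hx, map_zero]

theorem Std.sl_dg [IsNoetherianRing T] (h : Std 𝒜 z θ) (hd : Dg θ Δ δ)
    (hE : Module.Finite (T ⊗[k] A) E.M) :
    ∀ᶠ t in atTop, ∃ g : (sl t (tens hm_i2 E (gbx k (rt T) Δ))).M →ₗ[T ⊗[k] A] (E.shift t).M,
      IsG g ∧ Injective g ∧ Nil (zT k T z) ((E.shift t).M ⧸ LinearMap.range g) := by
  obtain ⟨m, hm⟩ := h.exists_mul hd E
  have := h.noeth_two T
  have := h.finiteType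
  have : IsNoetherianRing A := Algebra.FiniteType.isNoetherianRing k A
  have := noeth_tensor' k A A
  have hW : Module.Finite (T ⊗[k] (A ⊗[k] A)) (tens hm_i2 E (gbx k (rt T) Δ)).M :=
    tens_finite hE (gbx_finite (W := rt T) inferInstance hd.finite)
  let L : Submodule (T ⊗[k] (A ⊗[k] A)) (tens hm_i2 E (gbx k (rt T) Δ)).M :=
    { carrier := {ξ | ∀ γ, m ((tens hm_i2 E (gbx k (rt T) Δ)).π γ ξ) = 0}
      add_mem' := fun {x y} hx hy γ => by rw [map_add, map_add, hx γ, hy γ, add_zero]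
      zero_mem' := fun γ => by rw [map_zero, map_zero]
      smul_mem' := fun r ξ hξ γ => by
        refine Gd.ind (tgr k T (tg k 𝒜 𝒜))
          (p := fun r => m ((tens hm_i2 E (gbx k (rt T) Δ)).π γ (r • ξ)) = 0) ?_ ?_ ?_ ?_ r
        · rw [zero_smul, map_zero, map_zero]
        · intro c r hr
          rw [π_cl_CWA (mem_cl hr), dg_smul hm hd, hξ, smul_zero]
        · intro a b ha hb
          rw [add_smul, map_add, map_add, ha, hb, add_zero]
        · intro a ha
          rw [neg_smul, map_neg, map_neg, ha, neg_zero] }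
  have hL : St (tens hm_i2 E (gbx k (rt T) Δ)) L := fun d x hx γ => by
    by_cases e : γ = d
    · rw [e, GM.π_self]
      exact hx d
    · rw [GM.π_ne _ _ _ _ e, map_zero]
  have hn : Nil (z2 k T z) ((tens hm_i2 E (gbx k (rt T) Δ)).sub L hL).M := by
    rintro _ ⟨i, rfl⟩ ⟨x, hx⟩
    obtain ⟨s, hs⟩ := (tens hm_i2 E (gbx k (rt T) Δ)).sum_π x
    refine ⟨s.sup fun d => d.1.toNat, Subtype.ext ?_⟩
    change inr k T (A ⊗[k] A) (inr k A A (z i)) ^ (s.sup fun d => d.1.toNat) • x = 0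
    rw [← hs, Finset.smul_sum]
    refine Finset.sum_eq_zero fun d hds => ?_
    obtain ⟨n, hn⟩ := Nat.exists_eq_add_of_le'
      (Finset.le_sup (f := fun d : ℤ × ℤ => d.1.toNat) hds)
    rw [hn, pow_add, mul_smul, h.dg_nil hm hd i d x (hx d), smul_zero]
  obtain ⟨S, dg, N, hS, hdg, hN⟩ := gens_CWN2 E hE (AddMonoidHom.id ℤ)
  filter_upwards [h.z2_vanish (W := (tens hm_i2 E (gbx k (rt T) Δ)).sub L hL) inferInstance hn,
    eventually_ge_atTop N] with t hv ht
  obtain ⟨j, hj⟩ := isRes_sl t (tens hm_i2 E (gbx k (rt T) Δ))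
  have hr : ∀ r : T ⊗[k] A,
      mp T (Algebra.TensorProduct.lmul' k : A ⊗[k] A →ₐ[k] A) (i1 k T A r) = r := by
    intro r
    induction r using TensorProduct.induction_on with
    | zero => rw [map_zero, map_zero]
    | tmul t a => exact congrArg (fun a => t ⊗ₜ[k] a) (mul_one a)
    | add a b ha hb => rw [map_add, map_add, ha, hb]
  let g : (sl t (tens hm_i2 E (gbx k (rt T) Δ))).M →ₗ[T ⊗[k] A] (E.shift t).M :=
    { toFun := fun y => m (j y)
      map_add' := fun x y => by rw [map_add, map_add]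
      map_smul' := fun r y => by rw [hj.smul, dg_smul hm hd, hr, RingHom.id_apply] }
  have hg : IsG g := IsG.of_hom fun c y hy => by
    change E.π (t + c) (m (j y)) = m (j y)
    rw [← hy, hj.π]
    exact dg_π hm hd c t _
  refine ⟨g, hg, (injective_iff_map_eq_zero g).2 fun y hy => GM.eq_zero _ fun c => hj.inj ?_,
    ?_⟩
  · have h1 : m ((tens hm_i2 E (gbx k (rt T) Δ)).π (c, t) (j y)) = 0 := by
      have h2 := hg c y
      rw [hy, map_zero] at h2
      rw [← hj.π]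
      exact h2
    have h3 : (tens hm_i2 E (gbx k (rt T) Δ)).π (c, t) (j y) ∈ L := fun γ => by
      by_cases e : γ = (c, t)
      · rw [e, GM.π_self]
        exact h1
      · rw [GM.π_ne _ _ _ _ e, map_zero]
    have h4 := congrArg Subtype.val (hv c ⟨_, h3⟩)
    rw [sub_π, GM.π_self] at h4
    rw [hj.π, map_zero]
    exact h4
  · have hs : ∀ x : E.M, E.π t x = x → x ∈ LinearMap.range g := by
      intro x hx
      have h1 := dg_deg (T := T) hd 1 (cl_one (𝒜 := 𝒜)) (cl_one (𝒜 := 𝒜)) hx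
      rw [zero_add] at h1
      obtain ⟨y, hy⟩ := hj.sur 0 _
      refine ⟨y, ?_⟩
      change m (j y) = x
      rw [hy, h1, hm, mul_one]
      exact one_smul _ x
    rintro _ ⟨i, rfl⟩ x
    obtain ⟨x, rfl⟩ := Submodule.mkQ_surjective _ x
    have hx : x ∈ Submodule.span (T ⊗[k] A) S := by rw [hS]; trivial
    induction hx using Submodule.span_induction with
    | mem x hx =>
      refine ⟨(t - dg x).toNat, ?_⟩
      rw [← map_smul, Submodule.mkQ_apply, Submodule.Quotient.mk_eq_zero]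
      refine hs _ ?_
      have h1 : inr k T A (z i) ^ (t - dg x).toNat ∈ cl (tgr k T 𝒜) ((t - dg x).toNat : ℕ) := by
        rw [← map_pow]
        exact tmul_mem_tgr 1 (pow_mem_CWL h i _)
      have h2 := GM.hom_smul h1 (hdg x hx)
      have h3 : dg x ≤ N := hN x hx
      have e : (((t - dg x).toNat : ℕ) : ℤ) + dg x = t := by omega
      rwa [e] at h2
    | zero => exact ⟨0, by rw [map_zero, smul_zero]⟩
    | add x y _ _ hx hy =>
      obtain ⟨n, hn⟩ := hx
      obtain ⟨n', hn'⟩ := hy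
      refine ⟨n + n', ?_⟩
      rw [map_add, smul_add, pow_add, mul_smul, mul_smul, hn', smul_zero, add_zero, smul_comm, hn,
        smul_zero]
    | smul a x _ hx =>
      obtain ⟨n, hn⟩ := hx
      exact ⟨n, by rw [map_smul, smul_comm, hn, smul_zero]⟩

theorem Std.thp_dg [IsNoetherianRing T] (h : Std 𝒜 z θ) (hd : Dg θ Δ δ)
    (hu : Hm u 𝒟 (tgr k T 𝒜) μ) {l : GM (tgr k T 𝒜) → ℚ} (hl : AdmP z l) {V : GM 𝒟}
    (hV : Module.Finite D V.M) {U : GM (tgr k T 𝒜)} {e : U.M} (hU : Cy U e ⊥)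
    (he : EF (tens hu V U)) :
    ∀ᶠ t in atTop, thp l hu V Δ t = l ((tens hu V U).shift t) := by
  have := h.noeth_one T
  have := h.finiteType
  have : IsNoetherianRing A := Algebra.FiniteType.isNoetherianRing k A
  have := noeth_tensor' k A A
  have hE := tens_finite (h := hu) hV hU.finite
  have hW := tens_finite (h := hm_i2 (k := k) (T := T) (𝒜 := 𝒜)) hE
    (gbx_finite (W := rt T) inferInstance hd.finite)
  obtain ⟨f, hf, hb⟩ := tens_bc (hm_i2.comp hu) hu hm_i2 (fun _ => rfl) (fun _ => rfl) hU V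
    (gbx k (rt T) Δ)
  filter_upwards [h.sl_dg hd hE] with t ⟨g, hg, hi, hn⟩
  obtain ⟨f', hf', hb'⟩ := sl_congr hf hb t
  refine (hl.congr _ _ f' (h.sl_finite hW t) hf' hb').trans
    (h.adm_iso hl (h.sl_finite hW t) hE (he.shift t) hg ?_ hn)
  rw [LinearMap.ker_eq_bot.2 hi]
  exact nil_of_subsingleton _

end Pool.Agent.CXD
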