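import Pool.Agent.P.MP_2ce3e7_ag.CWF2
import Pool.Agent.P.MP_2ce3e7_ag.CWC2
import Pool.Agent.P.MP_2ce3e7_ag.CYB2

/-! From a locally closed piece back to the whole space. -/

set_option linter.unusedSectionVars false
set_option linter.unusedVariables false

open Function LaurentPolynomial

noncomputable section

namespace Pool.Agent.CXD

variable {A A' Γ Γ' : Type} [CommRing A] [CommRing A'] [AddCommGroup Γ] [AddCommGroup Γ']
  {𝒜 : Γ → Set A} {𝒜' : Γ' → Set A'} {θ : A →+* A[T;T⁻¹]} {Ψ : A →+* A'} {e : Γ ≃+ ℤ × Γ'}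
  [Gd 𝒜] [UniqueSums Γ] [IsNoetherianRing A] {S : Set A} {l : GM 𝒜 → ℚ}

theorem coef_CWF3 (h : Ch θ Ψ 𝒜 𝒜' e) (P : Ideal A) {p : A'[T;T⁻¹]}
    (hp : ∀ i, p.coeff i ∈ Ideal.span (Ψ '' {b | b ∈ P ∧ ∃ c, b ∈ cl 𝒜 c})) :
    p ∈ P.map (hat θ Ψ) := by
  have key : ∀ y ∈ Ideal.span (Ψ '' {b | b ∈ P ∧ ∃ c, b ∈ cl 𝒜 c}),
      (C y : A'[T;T⁻¹]) ∈ P.map (hat θ Ψ) := by
    intro y hy
    refine Submodule.span_induction
      (p := fun y _ => (C y : A'[T;T⁻¹]) ∈ P.map (hat θ Ψ)) ?_ ?_ ?_ ?_ hy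
    · rintro _ ⟨a, ⟨haP, c, hc⟩, rfl⟩
      have e1 : (C (Ψ a) : A'[T;T⁻¹]) = hat θ Ψ a * T (-(e c).1) := by
        rw [h.hat_cl hc, mul_T_assoc, add_neg_cancel, T_zero, mul_one]
      rw [e1]
      exact Ideal.mul_mem_right _ _ (Ideal.mem_map_of_mem _ haP)
    · rw [map_zero]
      exact zero_mem _
    · intro x y _ _ hx hy
      rw [map_add]
      exact add_mem hx hy
    · intro a x _ hx
      rw [smul_eq_mul, map_mul]
      exact Ideal.mul_mem_left _ _ hx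
  rw [← p.sum_coeff_single, Finsupp.sum]
  refine Ideal.sum_mem _ fun i _ => ?_
  rw [single_eq_C_mul_T]
  exact Ideal.mul_mem_right _ _ (key _ (hp i))

theorem nil_CWF3 {C : GM 𝒜} {P : Ideal A} (hC : Cyc C P) {X : Type} [AddCommGroup X] [Module A X]
    [Module.Finite A X] (hn : Nil {b | b ∈ P ∧ ∃ c, b ∈ cl 𝒜 c} X) : Nil (P : Set A) X := by
  intro a ha x
  have h1 : a ∈ (Module.annihilator A X).radical := by
    refine (AddSubgroup.closure_le (Module.annihilator A X).radical.toAddSubgroup).2 ?_ (hC.hom ha)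
    intro b hb
    obtain ⟨m, hm⟩ := hn.exists_pow hb
    exact ⟨m, Module.mem_annihilator.2 hm⟩
  obtain ⟨m, hm⟩ := h1
  exact ⟨m, Module.mem_annihilator.1 hm x⟩

theorem pieceG (h : Ch θ Ψ 𝒜 𝒜' e) (hS : Pc (hat θ Ψ) S) (hl : GAdd l)
    (hv : VnG (RingHom.ker (hat θ Ψ)) S l)
    (hz : ∀ P : Ideal A, P.IsPrime → (∃ f ∈ S, f ∉ P) → ZG l P ∨ Shf 𝒜 P)
    (h0 : ∀ H : Set A, (∀ a ∈ H, ∃ c, a ∈ cl 𝒜 c) → ∃ (W : GM 𝒜') (w : W.M),
      Module.Finite A' W.M ∧ Nil (Ψ '' H) W.M ∧ (∀ y : A', y • w = 0 → y ∈ Ideal.span (Ψ '' H)) ∧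
        ∀ (L : GM 𝒜) (j : L.M →ₗ[A] (lau h W).M), LatG S j → l L = 0)
    (P : Ideal A) (hP : P.IsPrime) (hk : RingHom.ker (hat θ Ψ) ≤ P) : ZG l P := by
  induction P using IsNoetherian.induction with
  | hgt P ih =>
    intro D hD
    by_cases hall : ∀ f ∈ S, f ∈ P
    · exact hv D hD.finite (hD.kill hk) (hD.nil hall)
    push Not at hall
    rcases hz P hP hall with h1 | hs
    · exact h1 D hD
    obtain ⟨f, hf, hfP⟩ := hall
    obtain ⟨W, w, hW, hn, hw, hL⟩ := h0 {b | b ∈ P ∧ ∃ c, b ∈ cl 𝒜 c} fun a ha => ha.2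
    obtain ⟨L, j, hj⟩ := lau_exists_lat (h := h) (W := W) hS hW
    have hfin := hj.fin
    have hnil : Nil (P : Set A) L.M :=
      nil_CWF3 hD ((lau_nil h hn fun a ha => ⟨ha.2, a, ha, rfl⟩).of_injective j hj.inj)
    obtain ⟨ν, hν, hval⟩ := exists_multG hP hs hD L hfin hnil
    have h1 := hval l hl fun q hq hlt => ih q hlt hq (hk.trans hlt.le)
    rw [hL L j hj] at h1
    have hpos : 0 < ν := by
      refine hν fun a ha => ?_
      obtain ⟨N, x, hx⟩ := hj.den f hf (lsg h W 0 w)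
      have h2 : j (a • x) = 0 := by rw [Module.mem_annihilator.1 ha x, map_zero]
      rw [map_smul, hx, smul_smul] at h2
      have h3 : hat θ Ψ (a * f ^ N) ∈ Ideal.map (hat θ Ψ) P := by
        refine coef_CWF3 h P fun i => hw _ ?_
        rw [← lev_smul_lsg (h := h), h2, map_zero]
      exact (hP.mem_or_mem (over_CYB2 hS P hP hk hf hfP h3)).resolve_right
        fun h4 => hfP (hP.mem_of_pow_mem N h4)
    have hne : (ν : ℚ) ≠ 0 := by exact_mod_cast hpos.ne'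
    exact (mul_eq_zero.1 h1.symm).resolve_left hne

end Pool.Agent.CXD
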