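import Pool.Agent.P.MP_2ce3e7_ag.CWN3
import Pool.Agent.P.MP_2ce3e7_ag.CWJ2
import Pool.Agent.P.MP_2ce3e7_ag.CWF3
import Pool.Agent.P.MP_2ce3e7_ag.CWE

/-! From affine to projective first factors. -/

set_option linter.unusedSectionVars false
set_option linter.unusedVariables false

open Function LaurentPolynomial
open scoped TensorProduct

noncomputable section

namespace Pool.Agent.CXD

variable {k A σ : Type} [Field k] [Fintype k] [CommRing A] [Algebra k A] [Fintype σ]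
  {𝒜 : ℤ → Set A} {z : σ → A} {θ : A →ₐ[k] A[T;T⁻¹]} [Gd 𝒜] [Gk k 𝒜] {r Q : ℕ}

theorem card_smul_eq_zero (d : ℤ) (h : Fintype.card k • d = 0) : d = 0 := by
  rw [nsmul_eq_mul, mul_eq_zero] at h
  exact h.resolve_left (by exact_mod_cast Fintype.card_ne_zero)

variable (k) in
/-- the Frobenius map of the second factor on graded modules -/
def verF {K Γ : Type} [CommRing K] [Algebra k K] [AddCommGroup Γ] (𝒦 : Γ → Set K) [Gd 𝒦]
    (𝒜 : ℤ → Set A) [Gd 𝒜] : GM (tg k 𝒦 𝒜) → GM (tg k 𝒦 𝒜) := res (hm_Fr card_smul_eq_zero) 0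

variable (k) in
/-- every divisible family that kills exterior products and torsion modules is zero -/
def TG (K : Type) [CommRing K] [Algebra k K] (𝒜 : ℤ → Set A) [Gd 𝒜] [Gk k 𝒜] (z : σ → A)
    (r Q : ℕ) : Prop :=
  ∀ X : Set (GM (tg k (tv K) 𝒜) → ℚ), FamG (verF k (tv K) 𝒜) r (Fintype.card k) X →
    (∀ l ∈ X, ExtG k (tv K) 𝒜 l) → (∀ l ∈ X, VnG ⊥ (Set.range fun i => inr k K A (z i)) l) →
      ∀ l ∈ X, ∀ M : GM (tg k (tv K) 𝒜), Module.Finite (K ⊗[k] A) M.M → l M = 0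

theorem VnG.mono {B Γ : Type} [CommRing B] [AddCommGroup Γ] {ℬ : Γ → Set B} {S : Set B}
    {l : GM ℬ → ℚ} (h : VnG ⊥ S l) {C : GM ℬ} {P : Ideal B} (hC : Cyc C P) (hS : ∀ f ∈ S, f ∈ P) :
    l C = 0 := h C hC.finite kill_bot (hC.nil hS)

theorem gen_int_int : AddSubgroup.closure ({(1, 0), (0, 1)} : Set (ℤ × ℤ)) = ⊤ := by
  refine eq_top_iff.2 fun x _ => ?_
  have h : x = x.1 • ((1, 0) : ℤ × ℤ) + x.2 • ((0, 1) : ℤ × ℤ) := by simp
  rw [h]
  exact add_mem (zsmul_mem (AddSubgroup.subset_closure (by simp)) _)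
    (zsmul_mem (AddSubgroup.subset_closure (by simp)) _)

theorem Std.chart_step (h : Std 𝒜 z θ) (s : Set σ) (j : σ) (hT : TG k (A ⧸ chI z s j) 𝒜 z r Q)
    {X : Set (GM (tg k 𝒜 𝒜) → ℚ)} (hX : FamG (verF k 𝒜 𝒜) r (Fintype.card k) X) (hE : ∀ l ∈ X, ExtG k 𝒜 𝒜 l)
    (h₂ : ∀ l ∈ X, VnG ⊥ (Set.range fun i => inr k A A (z i)) l)
    (ih : ∀ l ∈ X, ∀ P : Ideal (A ⊗[k] A), P.IsPrime → (∀ i ∈ s, inl k A A (z i) ∈ P) →
      inl k A A (z j) ∈ P → ZG l P) :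
    ∀ l ∈ X, ∀ P : Ideal (A ⊗[k] A), P.IsPrime → (∀ i ∈ s, inl k A A (z i) ∈ P) → ZG l P := by
  have hft := h.finiteType
  have hnA : IsNoetherianRing A := Algebra.FiniteType.isNoetherianRing k A
  have hn := noeth_tensor k A A
  have hn' := noeth_tensor k (A ⧸ chI z s j) A
  have hc := h.chL (Ideal.Quotient.mkₐ k (chI z s j)) 𝒜
  have hS := h.pcL (B := A) (h.pc_chart s j)
  have hv : ∀ l ∈ X, VnG (RingHom.ker (hat (thL θ A) (mq (Ideal.Quotient.mkₐ k (chI z s j)) A)))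
      (inl k A A '' {z j}) l := fun l hl =>
    (hX.add l hl).vn_of_primes fun P hP hk hf =>
      ih l hl P hP (fun i hi => hk (h.mem_ker_chart j hi)) (hf _ ⟨_, rfl, rfl⟩)
  obtain ⟨L, hL, hF⟩ := FamG.lau hc hS (hm_Fr card_smul_eq_zero) (hm_Fr card_smul_eq_zero)
    (Fr_finite k A A) (Fr_finite k _ A) (Algebra.TensorProduct.ringHom_ext rfl (by
      ext a
      exact congrArg (fun b => (1 : A ⧸ chI z s j) ⊗ₜ[k] b) rfl)) one_ne_zero
    (fun c => Prod.ext (one_mul _).symm rfl)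
    (by rintro _ ⟨_, rfl, rfl⟩; exact ⟨1, one_pos, by rw [pow_one]; exact (Fr_tmul _ _).trans (by rw [one_pow]; rfl)⟩) hX hv
  have h0 := hT _ hF (by
    rintro _ ⟨l, hl, rfl⟩ N M hN hM
    obtain ⟨L', j', hj'⟩ := lau_exists_lat (h := h.ch (Ideal.Quotient.mkₐ k (chI z s j)))
      (h.pc_chart s j) hN
    obtain ⟨J, hJ⟩ := h.box_latL _ hM hj'
    obtain ⟨J', hJ'⟩ := hL _ (gbox_finite hN hM)
    exact (hJ'.val (hX.add l hl) (hv l hl) lau_kill hJ).trans (hE l hl _ _ hj'.fin hM)) (by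
    rintro _ ⟨l, hl, rfl⟩ W hW - hn
    obtain ⟨J, hJ⟩ := hL W hW
    refine h₂ l hl _ hJ.fin kill_bot ((lau_nil hc hn ?_).of_injective J hJ.inj)
    rintro _ ⟨i, rfl⟩
    exact ⟨⟨(0, 1), tmul_mem_cl cl_one (mem_cl (h.deg i))⟩, i, rfl⟩)
  intro l hl P hP hs
  by_cases hj : inl k A A (z j) ∈ P
  · exact ih l hl P hP hs hj
  refine pieceG hc hS (hX.add l hl) (hv l hl) (fun P' hP' hf => ?_) (fun H hH => ?_) P hP
    (h.ker_chart s j 𝒜 hP hs hj)
  · obtain ⟨_, ⟨_, rfl, rfl⟩, hf⟩ := hf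
    by_cases hz : ∀ i, inr k A A (z i) ∈ P'
    · exact Or.inl fun C hC => (h₂ l hl).mono hC (by rintro _ ⟨i, rfl⟩; exact hz i)
    · obtain ⟨i, hi⟩ := not_forall.1 hz
      refine Or.inr (shf_of_gen hP' gen_int_int ?_)
      rintro _ (rfl | rfl)
      · exact ⟨_, tmul_mem_cl (mem_cl (h.deg j)) cl_one, hf⟩
      · exact ⟨_, tmul_mem_cl cl_one (mem_cl (h.deg i)), hi⟩
  · obtain ⟨W, w, -, hw, ha⟩ := exists_quot_cyc (h.chR (AlgHom.id k A) (tv (A ⧸ chI z s j)))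
      (H := mq (Ideal.Quotient.mkₐ k (chI z s j)) A '' H) (by
        rintro _ ⟨a, ha, rfl⟩
        obtain ⟨c, hc'⟩ := hH a ha
        exact ⟨_, hc.mem_cl hc'⟩)
    have hW : Module.Finite _ W.M := ⟨⟨{w}, by simpa using hw⟩⟩
    refine ⟨W, w, hW, fun f hf x => ⟨1, ?_⟩, fun y hy => (ha y).1 hy, fun L' j' hj' => ?_⟩
    · obtain ⟨b, rfl⟩ := Submodule.mem_span_singleton.1 (hw ▸ Submodule.mem_top : x ∈ _)
      rw [pow_one, smul_comm, (ha f).2 (Ideal.subset_span hf), smul_zero]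
    · obtain ⟨J, hJ⟩ := hL W hW
      exact (hj'.val (hX.add l hl) (hv l hl) lau_kill hJ).trans (h0 _ ⟨l, hl, rfl⟩ W hW)

theorem Std.tg2 (h : Std 𝒜 z θ)
    (hT : ∀ (K : Type) [CommRing K] [Algebra k K] [IsNoetherianRing K], TG k K 𝒜 z r Q)
    {X : Set (GM (tg k 𝒜 𝒜) → ℚ)} (hX : FamG (verF k 𝒜 𝒜) r (Fintype.card k) X) (hE : ∀ l ∈ X, ExtG k 𝒜 𝒜 l)
    (h₁ : ∀ l ∈ X, VnG ⊥ (Set.range fun i => inl k A A (z i)) l)
    (h₂ : ∀ l ∈ X, VnG ⊥ (Set.range fun i => inr k A A (z i)) l) :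
    ∀ l ∈ X, ∀ M : GM (tg k 𝒜 𝒜), Module.Finite (A ⊗[k] A) M.M → l M = 0 := by
  classical
  have hft := h.finiteType
  have hnA : IsNoetherianRing A := Algebra.FiniteType.isNoetherianRing k A
  have hn := noeth_tensor k A A
  have key : ∀ t : Finset σ, ∀ l ∈ X, ∀ P : Ideal (A ⊗[k] A), P.IsPrime →
      (∀ i ∈ {i | i ∉ t}, inl k A A (z i) ∈ P) → ZG l P := fun t => by
    induction t using Finset.induction_on with
    | empty =>
      exact fun l hl P hP hs C hC => (h₁ l hl).mono hC (by rintro _ ⟨i, rfl⟩; exact hs i (by simp))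
    | insert j t hj ih =>
      refine h.chart_step _ j (hT _) hX hE h₂ fun l hl P hP hs hj' => ih l hl P hP fun i hi => ?_
      by_cases hij : i = j
      · exact hij ▸ hj'
      · exact hs i (by simpa [hij] using hi)
  exact fun l hl M hM => (hX.add l hl).of_primes M hM fun P hP _ =>
    key Finset.univ l hl P hP fun i hi => absurd (Finset.mem_univ i) hi

end Pool.Agent.CXD
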