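import Pool.Agent.P.MP_2ce3e7_ag.CPQ2
import Pool.Agent.P.MP_2ce3e7_ag.CWK

/-! The projection formula and the homotopy. -/

set_option linter.unusedSectionVars false
set_option linter.unusedVariables false

open Function Filter
open scoped TensorProduct Polynomial

noncomputable section

namespace Pool.Agent.CXD

open scoped LaurentPolynomial

variable {k T A σ D Γ τ : Type} [Field k] [CommRing T] [Algebra k T] [CommRing A] [Algebra k A]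
  [Fintype σ] {𝒜 : ℤ → Set A} {z : σ → A} {θ : A →ₐ[k] A[T;T⁻¹]} [Gd 𝒜] [Gk k 𝒜] [CommRing D]
  [AddCommGroup Γ] {𝒟 : Γ → Set D} [Gd 𝒟] {s : τ → D} {u : D →+* T ⊗[k] A} {μ : Γ →+ ℤ}

variable [IsNoetherianRing T] {l : GM (tgr k T 𝒜) → ℚ} {V : GM 𝒟} {Y : GM (tg k 𝒜 𝒜)}

theorem Std.thp_bc (h : Std 𝒜 z θ) (hl : AdmP z l) (hu : Hm u 𝒟 (tgr k T 𝒜) μ) {ψ : D →+* D}
    {ν : Γ →+ Γ} (hψ : Hm ψ 𝒟 𝒟 ν) {u' : D →+* T ⊗[k] A} {μ' : Γ →+ ℤ}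
    (hu' : Hm u' 𝒟 (tgr k T 𝒜) μ') (h₁ : ∀ d, u' d = u (ψ d)) (h₂ : ∀ c, μ' c = μ (ν c))
    {U : GM 𝒟} {e : U.M} (hU : Cy U e ⊥) (hV : Module.Finite D V.M)
    (hY : Module.Finite (A ⊗[k] A) Y.M) (t : ℤ) :
    thp l hu' V Y t = thp l hu (tens hψ V U) Y t := by
  obtain ⟨f, hf, hb⟩ := tens_bc (hm_i2.comp hu') hψ (hm_i2.comp hu)
    (fun d => congrArg (i2 k T A) (h₁ d))
    (fun c => congrArg (AddMonoidHom.inr ℤ ℤ) (h₂ c)) hU V (gbx k (rt T) Y)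
  obtain ⟨g, hg, hgb⟩ := sl_congr hf hb t
  exact hl.congr _ _ g
    (h.sl_finite (wd_finite hu (tens_finite (h := hψ) hV hU.finite) hY) t) hg hgb

theorem wd_fbr {u' : D →+* T[X] ⊗[k] A} (hu' : Hm u' 𝒟 (tgr k T[X] 𝒜) μ) (a : T)
    (hu : Hm u 𝒟 (tgr k T 𝒜) μ) (hc : ∀ d, evm k T A a (u' d) = u d) (V : GM 𝒟)
    (Y : GM (tg k 𝒜 𝒜)) (t : ℤ) : ∃ g : (sl t (Wd hu' V Y)).M →+ (sl t (Wd hu V Y)).M,
      Fbr (evm k T A a) ((Polynomial.X - Polynomial.C a) ⊗ₜ[k] (1 : A)) (sl t (Wd hu' V Y))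
        (sl t (Wd hu V Y)) g := by
  obtain ⟨G, hG⟩ := gbx_fbr (fbr_rt k a) Y
  obtain ⟨G', hG'⟩ := hG.tens (hm_i2.comp hu') (hm_i2.comp hu)
    (fun d => (mp_mq _ _ _).symm.trans (congrArg (i2 k T A) (hc d))) V
  obtain ⟨j', hj'⟩ := isRes_sl t (Wd hu' V Y)
  obtain ⟨j, hj⟩ := isRes_sl t (Wd hu V Y)
  exact hG'.res (tmul_mem_tgr _ cl_one) (φ := i1 k T A) (φ' := i1 k T[X] A) (χ₀ := evm k T A a)
    (fun b => (mp_mq _ _ _).symm) ((mp_tmul _ _ _).trans (by rw [map_one])) hj' hj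

theorem Std.thp_hom (h : Std 𝒜 z θ) (hl : AdmP z l) {u' : D →+* T[X] ⊗[k] A}
    (hu' : Hm u' 𝒟 (tgr k T[X] 𝒜) μ) (hr : Rad z s u') {u₀ u₁ : D →+* T ⊗[k] A}
    (h₀ : Hm u₀ 𝒟 (tgr k T 𝒜) μ) (h₁ : Hm u₁ 𝒟 (tgr k T 𝒜) μ)
    (e₀ : ∀ d, evm k T A 0 (u' d) = u₀ d) (e₁ : ∀ d, evm k T A 1 (u' d) = u₁ d) (hV : QL s V)
    (hY : Module.Finite (A ⊗[k] A) Y.M) :
    ∀ᶠ t in atTop, thp l h₀ V Y t = thp l h₁ V Y t := by
  have hr' : ∀ (a : T) {v : D →+* T ⊗[k] A}, (∀ d, evm k T A a (u' d) = v d) → Rad z s v := by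
    intro a v e
    have : v = (evm k T A a).comp u' := RingHom.ext fun d => (e d).symm
    rw [this]
    exact hr.comp _ (m := 1) fun i =>
      (mq_tmul (evA k a) _ _).trans (by rw [map_one, pow_one]; rfl)
  filter_upwards [h.wd_ef hu' hr hV hY, h.wd_ef h₀ (hr' 0 e₀) hV hY,
    h.wd_ef h₁ (hr' 1 e₁) hV hY] with t a b c
  obtain ⟨g₀, hg₀⟩ := wd_fbr hu' 0 h₀ e₀ V Y t
  obtain ⟨g₁, hg₁⟩ := wd_fbr hu' 1 h₁ e₁ V Y t
  exact hl.hom _ _ _ g₀ g₁ (h.sl_finite (wd_finite hu' hV.1 hY) t) a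
    (h.sl_finite (wd_finite h₀ hV.1 hY) t) b (h.sl_finite (wd_finite h₁ hV.1 hY) t) c hg₀ hg₁

variable [Fintype k]

theorem Std.thp_ver (h : Std 𝒜 z θ) (hl : AdmP z l) (hu : Hm u 𝒟 (tgr k T 𝒜) μ)
    {u' : D →+* T ⊗[k] A} {μ' : Γ →+ ℤ} (hu' : Hm u' 𝒟 (tgr k T 𝒜) μ')
    (h₁ : ∀ d, u' d = mp T (FiniteField.frobeniusAlgHom k A) (u d))
    (h₂ : ∀ c, μ' c = Fintype.card k • μ c) (hV : Module.Finite D V.M)
    (hY : Module.Finite (A ⊗[k] A) Y.M) (t : ℤ) :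
    thp l hu V (verF k 𝒜 𝒜 Y) t = thp l hu' V Y (Fintype.card k • t) := by
  have hF : Hm (Fr k A A) (tg k 𝒜 𝒜) (tg k 𝒜 𝒜) (mu ℤ ℤ (Fintype.card k)) :=
    hm_Fr card_smul_eq_zero
  obtain ⟨j, hj⟩ := isRes_ver hF Y
  let ψ : A ⊗[k] A →ₐ[k] A ⊗[k] A :=
    Algebra.TensorProduct.map (AlgHom.id k A) (FiniteField.frobeniusAlgHom k A)
  have hψ : Hm ψ.toRingHom (tg k 𝒜 𝒜) (tg k 𝒜 𝒜) (mu ℤ ℤ (Fintype.card k)) := hF
  obtain ⟨J, hJ⟩ := gbx_res hψ (Y := verF k 𝒜 𝒜 Y) (j := j) hj (rt T)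
  have e2 : ∀ x : T ⊗[k] A,
      i2 k T A (mp T (FiniteField.frobeniusAlgHom k A) x) = mp T ψ (i2 k T A x) := by
    intro x
    induction x using TensorProduct.induction_on with
    | zero => simp only [map_zero]
    | tmul a b =>
      rw [mp_tmul, mp_tmul, mp_tmul, mp_tmul]
      rfl
    | add x y hx hy => simp only [map_add, hx, hy]
  have e1 : (mp T ψ).comp (i1 k T A) = i1 k T A := by
    refine RingHom.ext fun x => ?_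
    rw [RingHom.comp_apply]
    induction x using TensorProduct.induction_on with
    | zero => simp only [map_zero]
    | tmul a b =>
      rw [mp_tmul, mp_tmul]
      simp [ψ]
    | add x y hx hy => simp only [map_add, hx, hy]
  obtain ⟨J', hJ'⟩ := tens_res' (hm_i2.comp hu) (hm_mp (T := T) hψ) (hm_i2.comp hu')
    (fun d => (congrArg (i2 k T A) (h₁ d)).trans (e2 _))
    (fun c => by simp [mu_apply, h₂]) V hJ
  obtain ⟨j₁, hj₁⟩ := isRes_sl t (Wd hu V (verF k 𝒜 𝒜 Y))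
  obtain ⟨j₂, hj₂⟩ := isRes_sl (Fintype.card k • t) (Wd hu' V Y)
  have hc := hJ'.comp hj₁
  have e3 : (mu ℤ ℤ (Fintype.card k)) ∘ (fun c : ℤ => (c, t)) =
      fun c : ℤ => (c, Fintype.card k • t) := by
    funext c
    exact mu_apply _ _
  rw [e1, e3] at hc
  obtain ⟨g, hg, hb⟩ := hc.iso hj₂
  exact hl.congr _ _ g (h.sl_finite (wd_finite hu' hV hY) _) hg hb

theorem Std.thp_frob [Algebra k D] (h : Std 𝒜 z θ) (hT : Ht k T) (hl : AdmP z l)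
    (hu : Hm u 𝒟 (tgr k T 𝒜) μ) (hr : Rad z s u)
    (hq : Hm (frb k D) 𝒟 𝒟 (Fintype.card k • AddMonoidHom.id Γ)) {U : GM 𝒟} {e : U.M}
    (hU : Cy U e ⊥) (hV : QL s V) (hY : Module.Finite (A ⊗[k] A) Y.M) :
    ∀ᶠ t in atTop, thp l hu V (verF k 𝒜 𝒜 Y) t =
      thp l hu (tens hq V U) Y (Fintype.card k • t) := by
  obtain ⟨H, e₀, e₁⟩ := hT
  have hA : Hm (frb k A) 𝒜 𝒜 (Fintype.card k • AddMonoidHom.id ℤ) := hm_frb card_smul_eq_zero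
  have h₀ := (hm_mp (T := T) hA).comp hu
  have h' := (hm_mq H).comp h₀
  have h₁ := (hm_mq (FiniteField.frobeniusAlgHom k T)).comp h₀
  have hr' : Rad z s ((mq H A).comp ((mp T (FiniteField.frobeniusAlgHom k A)).comp u)) :=
    (hr.comp _ (m := Fintype.card k) fun i => (mp_tmul _ _ _).trans (by rw [← map_pow]; rfl)).comp _
      (m := 1) fun i => (mq_tmul _ _ _).trans (by rw [map_one, pow_one]; rfl)
  have key := h.thp_hom hl h' hr' h₀ h₁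
    (fun d => (mq_mq _ _ _).trans (by rw [e₀]; exact mq_id _))
    (fun d => (mq_mq _ _ _).trans (by rw [e₁]; rfl)) hV hY
  filter_upwards [ev_scale key (Fintype.card_pos (α := k))] with t ht
  rw [h.thp_ver hl hu h₀ (fun _ => rfl) (fun _ => rfl) hV.1 hY, ht]
  exact h.thp_bc hl hu hq h₁ (fun d => (mq_mp_frb _).trans (by rw [frb_apply, map_pow]))
    (fun c => (map_nsmul μ _ c).symm) hU hV.1 hY _

end Pool.Agent.CXD
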