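import Pool.Agent.P.MP_2ce3e7_ag.CPR
import Pool.Agent.P.MP_2ce3e7_ag.CPS2
import Pool.Agent.P.MP_2ce3e7_ag.CPT

/-! The main theorem for standard graded algebras. -/

set_option linter.unusedSectionVars false
set_option linter.unusedVariables false

open Function Filter
open scoped TensorProduct Polynomial

noncomputable section

namespace Pool.Agent.CXD

open scoped LaurentPolynomial

variable {k T A σ D τ : Type} [Field k] [Fintype k] [CommRing T] [Algebra k T] [CommRing A]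
  [Algebra k A] [Fintype σ] {𝒜 : ℤ → Set A} {z : σ → A} {θ : A →ₐ[k] A[T;T⁻¹]} [Gd 𝒜] [Gk k 𝒜]
  [CommRing D] [Algebra k D] {𝒟 : ℤ → Set D} [Gd 𝒟] {s : τ → D} {u : D →+* T ⊗[k] A}
  [IsNoetherianRing T] [PreconnectedSpace (PrimeSpectrum T)] [IsNoetherianRing D] {r Q : ℕ}
  {l : GM (tgr k T 𝒜) → ℚ} {U : GM 𝒟} {e : U.M}

theorem Std.ev_zero (h : Std 𝒜 z θ)
    (hG : ∀ (K : Type) [CommRing K] [Algebra k K] [IsNoetherianRing K], TG k K 𝒜 z r Q)
    (hT : Ht k T) (hl : AdmP z l) (hu : Hm u 𝒟 (tgr k T 𝒜) (AddMonoidHom.id ℤ)) (hr : Rad z s u)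
    (hD : Uni k s U e) {V : GM 𝒟} (hV : QL s V) {Y : GM (tg k 𝒜 𝒜)}
    (hY : Module.Finite (A ⊗[k] A) Y.M) : ev0 (thp l hu V Y) = 0 := by
  classical
  have := h.finiteType
  have : IsNoetherianRing A := Algebra.FiniteType.isNoetherianRing k A
  have := noeth_tensor' k A A
  have hq : Hm (frb k D) 𝒟 𝒟 (Fintype.card k • AddMonoidHom.id ℤ) := hm_frb card_smul_eq_zero
  obtain ⟨Λ, hΛ⟩ := hD.exists_lin (W := FGM (tg k 𝒜 𝒜) → ℚ)
    (φ := fun V Y => ev0 (thp l hu V Y.1))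
    (fun M N P hM hN hP hs => funext fun Y => ev0_add (h.thp_pf hu hl hr hM Y.2)
      (h.thp_pf hu hl hr hP Y.2) (h.thp_sesV hu hl hr hM hN hP Y.2 hs))
    fun M hM hn => funext fun Y => ev0_zero (h.thp_nilV hu hl hr hM Y.2 hn)
  obtain ⟨F, hF⟩ := hD.exists_T hq
  let ev : GM (tg k 𝒜 𝒜) → UG 𝒟 (Set.range s) →ₗ[ℚ] ℚ := fun Y =>
    if hY : Module.Finite (A ⊗[k] A) Y.M then (LinearMap.proj ⟨Y, hY⟩).comp Λ else 0
  have hev : ∀ Y : GM (tg k 𝒜 𝒜), Module.Finite (A ⊗[k] A) Y.M → ∀ V, QL s V →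
      ev Y (ucl _ V) = ev0 (thp l hu V Y) := fun Y hY V hV => by
    simp only [ev, dif_pos hY, LinearMap.comp_apply, LinearMap.proj_apply, hΛ V hV]
  have key : ∀ f g : UG 𝒟 (Set.range s) →ₗ[ℚ] ℚ, (∀ V, QL s V → f (ucl _ V) = g (ucl _ V)) →
      ∀ v, f v = g v := fun f g H v =>
    hD.ind (p := fun v => f v = g v) H (by simp) (fun a b ha hb => by simp [ha, hb])
      (fun a b hb => by simp [hb]) v
  have hfin : ∀ Y : GM (tg k 𝒜 𝒜), Module.Finite (A ⊗[k] A) Y.M →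
      Module.Finite (A ⊗[k] A) (verF k 𝒜 𝒜 Y).M := fun Y hY =>
    res_finite (hm_Fr card_smul_eq_zero) (Fr_finite k A A) Y hY
  have hver : ∀ Y : GM (tg k 𝒜 𝒜), Module.Finite (A ⊗[k] A) Y.M → ∀ v,
      ev (verF k 𝒜 𝒜 Y) v = ev Y (F v) := fun Y hY =>
    key _ ((ev Y).comp F) fun V hV => by
      rw [LinearMap.comp_apply, hF V hV.1, hev _ (hfin Y hY) V hV, hev _ hY _ (hD.fr_ql hq hV),
        ev0_congr (h.thp_frob hT hl hu hr hq hD.rg hV hY)]
      exact ev0_scale (h.thp_pf hu hl hr (hD.fr_ql hq hV) hY) Fintype.card_pos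
  have hX : FamG (verF k 𝒜 𝒜) r (Fintype.card k) (Set.range fun v Y => ev Y v) := by
    refine ⟨?_, ?_, ?_⟩
    · rintro _ ⟨v, rfl⟩ M N P hN hs
      obtain ⟨hM, hP⟩ := fin_CWM hN hs
      exact key (ev N) (ev M + ev P) (fun V hV => by
        rw [LinearMap.add_apply, hev _ hM V hV, hev _ hN V hV, hev _ hP V hV]
        exact ev0_add (h.thp_pf hu hl hr hV hM) (h.thp_pf hu hl hr hV hP)
          (h.thp_sesY hu hl hr hV hN hs)) v
    · rintro _ ⟨v, rfl⟩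
      exact ⟨_, ⟨F v, rfl⟩, 1, fun M hM => (hver M hM v).trans (one_mul _).symm⟩
    · rintro _ ⟨v, rfl⟩ ε hε
      obtain ⟨v', rfl⟩ := exists_pre F (hD.pos_all hq hF v) hε
      refine ⟨_, ⟨v', rfl⟩, 1, fun M hM => ?_⟩
      simp only [map_add, map_smul, hver M hM, one_mul, smul_eq_mul]
  have h0 := h.tg2 hG hX
    (by
      rintro _ ⟨v, rfl⟩ N M hN hM
      exact key _ 0 (fun V hV => (hev _ (gbox_finite hN hM) V hV).trans
        (ev0_zero (h.thp_ext hu hT hl hr hV hN hM))) v)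
    (by
      rintro _ ⟨v, rfl⟩ M hM - hn
      exact key _ 0 (fun V hV => (hev _ hM V hV).trans
        (ev0_zero (Eventually.of_forall (h.thp_left hu hl hV.1 hM hn)))) v)
    (by
      rintro _ ⟨v, rfl⟩ M hM - hn
      exact key _ 0 (fun V hV => (hev _ hM V hV).trans
        (ev0_zero (h.thp_right hu hl hV.1 hM hn))) v)
  exact (hev Y hY V hV).symm.trans (h0 _ ⟨ucl _ V, rfl⟩ Y hY)

theorem Std.bc_zero (h : Std 𝒜 z θ)
    (hG : ∀ (K : Type) [CommRing K] [Algebra k K] [IsNoetherianRing K], TG k K 𝒜 z r Q)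
    (hT : Ht k T) (hl : AdmP z l) (hu : Hm u 𝒟 (tgr k T 𝒜) (AddMonoidHom.id ℤ)) (hr : Rad z s u)
    (hD : Uni k s U e) {Z : Set D} (hZ : Z.Finite) (hz : ∀ y ∈ Z, y ∈ cl 𝒟 1)
    (hs : ∀ j, ∃ y ∈ Z, y ∣ s j) {U₀ : GM 𝒜} {e₀ : U₀.M} (hU : Cy U₀ e₀ ⊥) {V : GM 𝒟}
    (hV : QL s V) : l (tens hu V (gbx k (rt T) U₀)) = 0 := by
  have := h.noeth_one T
  have := h.finiteType
  have : IsNoetherianRing A := Algebra.FiniteType.isNoetherianRing k A
  have := noeth_tensor' k A A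
  have hB := hU.gbx (k := k) (T := T)
  have hf : ∀ {V : GM 𝒟}, Module.Finite D V.M →
      Module.Finite (T ⊗[k] A) (tens hu V (gbx k (rt T) U₀)).M := fun hV =>
    tens_finite hV hB.finite
  have hn : ∀ {X : Type} [AddCommGroup X] [Module (T ⊗[k] A) X],
      Nil (Set.range fun j => u (s j)) X → Nil (zT k T z) X := fun hX =>
    hX.of_radical (by rintro _ ⟨i, rfl⟩; exact hr i)
  obtain ⟨Λ, hΛ⟩ := hD.exists_lin (φ := fun V => l (tens hu V (gbx k (rt T) U₀)))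
    (fun M N P hM hN hP hs => by
      obtain ⟨F, G, h1, h2, h3, h4, h5⟩ := tens_sesV hu hP.2 hs (gbx k (rt T) U₀)
      exact h.adm_right hl (hf hM.1) (hf hN.1) (h.tens_ef hu hr hM hU.finite)
        (h.tens_ef hu hr hN hU.finite) (h.tens_ef hu hr hP hU.finite) h1 h2 h3 h4 (hn h5))
    fun M hM hM' => hl.tors _ (hf hM) (hn (by
      have := tens_nilV hu hM' (gbx k (rt T) U₀)
      rwa [← Set.range_comp] at this))
  have h1 := shift_top (gadd_ucl_CWM2 Λ) 1 hZ hz (fun M hM hk => by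
    rw [ucl_nil, map_zero]
    rintro _ ⟨j, rfl⟩ x
    obtain ⟨y, hy, w, hw⟩ := hs j
    exact ⟨1, by rw [pow_one, hw, mul_comm, mul_smul, hk y hy, smul_zero]⟩) V hV.1
  have h2 : ∀ t : ℤ, Λ (ucl _ (V.shift (t • 1))) = l ((tens hu V (gbx k (rt T) U₀)).shift t) :=
    fun t => by
      obtain ⟨g, hg, hb⟩ := tens_shiftV hu V (gbx k (rt T) U₀) t
      rw [smul_eq_mul, mul_one, hΛ (V.shift t) hV]
      exact hl.congr _ _ g (hf hV.1) hg hb
  obtain ⟨Δ, δ, hd⟩ := h.exists_dg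
  have h3 := h.ev_zero hG hT hl hu hr hD hV hd.finite
  rw [ev0_congr (h.thp_dg hd hu hl hV.1 hB (h.tens_ef hu hr hV hU.finite)), ← funext h2,
    ev0_top h1, h2] at h3
  exact (hl.congr ((tens hu V (gbx k (rt T) U₀)).shift 0) (tens hu V (gbx k (rt T) U₀))
    LinearMap.id (hf hV.1)
    (fun d x => congrArg (fun c => (tens hu V (gbx k (rt T) U₀)).π c x) (zero_add d))
    bijective_id).symm.trans h3

theorem Std.par (h : Std 𝒜 z θ)
    (hG : ∀ (K : Type) [CommRing K] [Algebra k K] [IsNoetherianRing K], TG k K 𝒜 z r Q)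
    (hT : Ht k T) : Par k T 𝒜 z := fun ρ₀ V hV => by
  have := h.noeth_one T
  obtain ⟨U₀, e₀, hU⟩ := h.exists_rg
  have hB := hU.gbx (k := k) (T := T)
  obtain ⟨α, β, _, _, ρ, g₂, u, hu, E, g, hg, h1, h2, h3, h4, h5⟩ :=
    exists_univ (k := k) (z := fun i => inr k T A (z i)) dir_int
      (fun i => tmul_mem_tgr 1 (mem_cl (h.deg i))) hB V.2 hV
  obtain ⟨U, e, hU'⟩ := det_rg (k := k) (σ := σ) (α := α) (β := β) (ρ := ρ) (g₁ := (1 : ℤ))
    (g₂ := g₂)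
  have hD := det_uni (by rw [← AddSubgroup.zmultiples_eq_closure, Int.zmultiples_one]) hU'
  have hf := tens_finite (h := hu) h3.1 hB.finite
  have he := (h.ef_iso hf V.2 hg h4 h5).1 (h.tens_ef hu h1 h3 hU.finite)
  refine h.exists_formP V he fun l hl => (h.adm_iso hl hf V.2 he hg h4 h5).symm.trans ?_
  exact h.bc_zero hG hT hl hu h1 hD (Set.finite_range (zD k σ α β ρ))
    (by rintro _ ⟨i, rfl⟩; exact mem_cl (zD_mem i))
    (fun j => ⟨_, ⟨j.1, rfl⟩, Dvd.intro _ rfl⟩) hU h3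

end Pool.Agent.CXD
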