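import Pool.Agent.P.MP_2ce3e7_ag.CPO

/-! The boundary of the simplex. -/

set_option linter.unusedSectionVars false
set_option linter.unusedVariables false

open Function Filter
open scoped TensorProduct Polynomial

noncomputable section

namespace Pool.Agent.CXD

variable {k : Type} [Field k] {n : ℕ}

/-- the coordinates -/
def tS (k : Type) [Field k] (n : ℕ) (i : Fin (n + 2)) : Sph k n :=
  Ideal.Quotient.mk _ (MvPolynomial.X i)

theorem tS_sum : ∑ i, tS k n i = 1 := by
  have h : Ideal.Quotient.mk (Ideal.span {(∑ i, MvPolynomial.X i - 1 : MvPolynomial (Fin (n + 2)) k),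
      ∏ i, MvPolynomial.X i}) (∑ i, MvPolynomial.X i - 1) = 0 :=
    Ideal.Quotient.eq_zero_iff_mem.2 (Ideal.subset_span (Set.mem_insert _ _))
  rw [map_sub, map_sum, map_one, sub_eq_zero] at h
  exact h

theorem tS_prod : ∏ i, tS k n i = 0 := by
  have h : Ideal.Quotient.mk (Ideal.span {(∑ i, MvPolynomial.X i - 1 : MvPolynomial (Fin (n + 2)) k),
      ∏ i, MvPolynomial.X i}) (∏ i, MvPolynomial.X i) = 0 :=
    Ideal.Quotient.eq_zero_iff_mem.2 (Ideal.subset_span (Set.mem_insert_of_mem _ rfl))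
  rw [map_prod] at h
  exact h

theorem exists_sph_lift {B : Type} [CommRing B] [Algebra k B] (t : Fin (n + 2) → B)
    (h1 : ∑ i, t i = 1) (h2 : ∏ i, t i = 0) : ∃ u : Sph k n →ₐ[k] B, ∀ i, u (tS k n i) = t i := by
  refine ⟨Ideal.Quotient.liftₐ _ (MvPolynomial.aeval t) fun a ha => ?_,
    fun i => MvPolynomial.aeval_X t i⟩
  refine (RingHom.mem_ker (f := MvPolynomial.aeval (R := k) t)).1 (Ideal.span_le.2 ?_ ha)
  rintro _ (rfl | rfl)
  · rw [SetLike.mem_coe, RingHom.mem_ker, map_sub, map_sum, map_one]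
    simp only [MvPolynomial.aeval_X]
    rw [h1, sub_self]
  · rw [SetLike.mem_coe, RingHom.mem_ker, map_prod]
    simp only [MvPolynomial.aeval_X]
    exact h2

theorem sph_hom_ext {B : Type} [CommRing B] [Algebra k B] {u v : Sph k n →ₐ[k] B}
    (h : ∀ i, u (tS k n i) = v (tS k n i)) : u = v := by
  exact Ideal.Quotient.algHom_ext k (MvPolynomial.algHom_ext h)

theorem sph_ht [Fintype k] : Ht k (Sph k n) := by
  have hq : Fintype.card k = (Fintype.card k - 1) + 1 := (Nat.sub_add_cancel Fintype.card_pos).symm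
  have h1 : ∑ i, tS k n i ^ Fintype.card k = 1 := by
    have h := map_sum (FiniteField.frobeniusAlgHom k (Sph k n)) (tS k n) Finset.univ
    rw [tS_sum, map_one] at h
    exact h.symm
  obtain ⟨u, hu⟩ := exists_sph_lift (k := k) (B := (Sph k n)[X]) (fun i =>
    Polynomial.C (tS k n i) * (1 - Polynomial.X) +
      Polynomial.C (tS k n i ^ Fintype.card k) * Polynomial.X) (by
      rw [Finset.sum_add_distrib, ← Finset.sum_mul, ← Finset.sum_mul, ← map_sum, ← map_sum, tS_sum,
        h1, map_one]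
      ring) (by
      have h : ∀ i, Polynomial.C (tS k n i) * (1 - Polynomial.X) +
          Polynomial.C (tS k n i ^ Fintype.card k) * Polynomial.X =
          Polynomial.C (tS k n i) * (1 - Polynomial.X +
            Polynomial.C (tS k n i ^ (Fintype.card k - 1)) * Polynomial.X) := fun i => by
        rw [hq, pow_succ, map_mul, Nat.add_sub_cancel]
        ring
      rw [Finset.prod_congr rfl fun i _ => h i, Finset.prod_mul_distrib, ← map_prod, tS_prod,
        map_zero, zero_mul])
  refine ⟨u, sph_hom_ext fun i => ?_, sph_hom_ext fun i => ?_⟩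
  · rw [AlgHom.comp_apply, hu]
    simp
  · rw [AlgHom.comp_apply, hu]
    simp

theorem idem_CPV {B : Type} [CommRing B] [IsDomain B] [Algebra k B] {e : Sph k n}
    (he : IsIdempotentElem e) {j : Fin (n + 2)} {v : Sph k n →ₐ[k] k}
    (hv : ∀ i, v (tS k n i) = (Pi.single j 1 : Fin (n + 2) → k) i) (f : Sph k n →ₐ[k] B)
    {i : Fin (n + 2)} (hij : i ≠ j) (hf : f (tS k n i) = 0) : f e = algebraMap k B (v e) := by
  obtain ⟨H, hH⟩ := exists_sph_lift (k := k) (B := B[X]) (fun l =>
    Polynomial.X * Polynomial.C (f (tS k n l)) +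
      (1 - Polynomial.X) * Polynomial.C (algebraMap k B (v (tS k n l)))) (by
      rw [Finset.sum_add_distrib, ← Finset.mul_sum, ← Finset.mul_sum, ← map_sum, ← map_sum,
        ← map_sum, ← map_sum, ← map_sum, tS_sum]
      simp) (Finset.prod_eq_zero (Finset.mem_univ i) (by
      rw [hf, hv, Pi.single_eq_of_ne hij]
      simp))
  have h1 : (evA k (1 : B)).comp H = f := sph_hom_ext fun l => by
    rw [AlgHom.comp_apply, hH]
    simp
  have h0 : (evA k (0 : B)).comp H = (Algebra.ofId k B).comp v := sph_hom_ext fun l => by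
    rw [AlgHom.comp_apply, hH, AlgHom.comp_apply, Algebra.ofId_apply]
    simp
  have h1' : f e = evA k (1 : B) (H e) := by rw [← h1, AlgHom.comp_apply]
  have h0' : algebraMap k B (v e) = evA k (0 : B) (H e) := (AlgHom.congr_fun h0 e).symm
  rw [h1', h0']
  rcases IsIdempotentElem.iff_eq_zero_or_one.1 (he.map H) with h | h
  · rw [h, map_zero, map_zero]
  · rw [h, map_one, map_one]

theorem sph_conn (hn : 0 < n) : PreconnectedSpace (PrimeSpectrum (Sph k n)) := by
  have hv : ∀ j : Fin (n + 2), ∃ v : Sph k n →ₐ[k] k,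
      ∀ i, v (tS k n i) = (Pi.single j 1 : Fin (n + 2) → k) i := fun j =>
    exists_sph_lift _ (by simp) (by
      obtain ⟨i, hi⟩ := exists_ne j
      exact Finset.prod_eq_zero (Finset.mem_univ i) (Pi.single_eq_of_ne hi 1))
  choose v hv using hv
  refine preconnectedSpace_iff_clopen.2 fun S hS => ?_
  obtain ⟨e, he, rfl⟩ := PrimeSpectrum.isClopen_iff.1 hS
  have h1 : ∀ j l, v l e = v j e := fun j l => by
    obtain ⟨i, hij, hil⟩ := Fin.exists_ne_and_ne_of_two_lt j l (by omega)
    exact idem_CPV he (hv j) (v l) hij (by rw [hv, Pi.single_eq_of_ne hil])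
  have h2 : ∀ p : PrimeSpectrum (Sph k n),
      Ideal.Quotient.mk p.asIdeal e = algebraMap k _ (v 0 e) := fun p => by
    have hp := p.isPrime
    obtain ⟨i, -, hi⟩ := (Ideal.IsPrime.prod_mem_iff (s := Finset.univ) (x := tS k n)
      (p := p.asIdeal)).1 (by rw [tS_prod]; exact zero_mem _)
    obtain ⟨j, hj⟩ := exists_ne i
    rw [h1 j 0]
    have hi' : Ideal.Quotient.mkₐ k p.asIdeal (tS k n i) = 0 := Ideal.Quotient.eq_zero_iff_mem.2 hi
    exact idem_CPV (B := Sph k n ⧸ p.asIdeal) he (hv j) (Ideal.Quotient.mkₐ k p.asIdeal) hj.symm hi'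
  rcases IsIdempotentElem.iff_eq_zero_or_one.1 (he.map (v 0)) with h | h
  · refine Or.inl (Set.eq_empty_of_forall_notMem fun p hp => hp ?_)
    have h3 := h2 p
    rw [h, map_zero] at h3
    exact Ideal.Quotient.eq_zero_iff_mem.1 h3
  · refine Or.inr (Set.eq_univ_of_forall fun p hp => ?_)
    have := p.isPrime
    have h3 := h2 p
    rw [h, map_one, Ideal.Quotient.eq_zero_iff_mem.2 hp] at h3
    exact zero_ne_one h3

end Pool.Agent.CXD
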