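import Pool.Agent.P.MP_2ce3e7_ag.CW0
import Pool.Agent.P.MP_2ce3e7_ag.CX0

/-! The smooth projective models of the Coxeter Deligne–Lusztig varieties. -/

namespace Pool.Agent.CXD

open Matrix MvPolynomial

/-- Indices of the variables. -/
abbrev YV (m n : ℕ) : Type := (Fin (m + 1) × Fin n) ⊕ (Bool × Fin m × Fin (m + 1))

/-- A generic `(m + 1) × n` matrix. -/
noncomputable def gB (k : Type) [CommRing k] (m n : ℕ) :
    Matrix (Fin (m + 1)) (Fin n) (MvPolynomial (YV m n) k) :=
  Matrix.of fun a c => X (Sum.inl (a, c))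

/-- Two generic `m × (m + 1)` matrices. -/
noncomputable def gC (k : Type) [CommRing k] (m n : ℕ) (t : Bool) :
    Matrix (Fin m) (Fin (m + 1)) (MvPolynomial (YV m n) k) :=
  Matrix.of fun a c => X (Sum.inr (t, a, c))

/-- A generic matrix whose rows are combinations of the rows of `gB`. -/
noncomputable def gA (k : Type) [CommRing k] (m n : ℕ) :
    Matrix (Fin m) (Fin n) (MvPolynomial (YV m n) k) := gC k m n false * gB k m n

/-- The entries of a matrix. -/
def ent {α β A : Type} (M : Matrix α β A) : Set A := {y | ∃ i j, y = M i j}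

variable {n m : ℕ}

/-- The equations `a ^ (Q) = c * b`, `b G (a ^ (r))ᵀ = 0`, and `b G bᵀ = 0` if `r = 1`. -/
def flE {A : Type} [CommRing A] (G : Matrix (Fin n) (Fin n) A) (r Q : ℕ)
    (a : Matrix (Fin m) (Fin n) A) (b : Matrix (Fin (m + 1)) (Fin n) A)
    (c : Matrix (Fin m) (Fin (m + 1)) A) : Set A :=
  ent (a.map (· ^ Q) - c * b) ∪ ent (b * G * (a.map (· ^ r))ᵀ) ∪ {y | r = 1 ∧ y ∈ ent (b * G * bᵀ)}

variable {k : Type} [CommRing k]

/-- The ideal generated by these equations for the generic matrices. -/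
noncomputable def flI (G : Matrix (Fin n) (Fin n) k) (r Q m : ℕ) :
    Ideal (MvPolynomial (YV m n) k) :=
  Ideal.span (flE (G.map C) r Q (gA k m n) (gB k m n) (gC k m n true))

/-- The products of a maximal minor of `gA` and a maximal minor of `gB`. -/
noncomputable def mnr (k : Type) [CommRing k] (m n : ℕ)
    (p : (Fin m → Fin n) × (Fin (m + 1) → Fin n)) : MvPolynomial (YV m n) k :=
  ((gA k m n).submatrix id p.1).det * ((gB k m n).submatrix id p.2).det

/-- The relations between these products modulo the equations. -/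
noncomputable def yI (G : Matrix (Fin n) (Fin n) k) (r Q m : ℕ) :
    Ideal (MvPolynomial ((Fin m → Fin n) × (Fin (m + 1) → Fin n)) k) :=
  (flI G r Q m).comap (aeval (R := k) (mnr k m n))

end Pool.Agent.CXD
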