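import Pool.Agent.P.MP_2ce3e7_ag.CV1
import Pool.Agent.P.MP_2ce3e7_ag.CU0

/-! Forms over rings. -/

set_option linter.unusedSectionVars false
set_option linter.unusedVariables false

open Matrix

noncomputable section

namespace Pool.Agent.CXD

variable {R R' : Type} [CommRing R] [CommRing R'] {n r Q δ i j s : ℕ} {α β γ : Type}

/-- the entrywise power -/
def pw (Q : ℕ) (M : Matrix α β R) : Matrix α β R := M.map (· ^ Q)

/-- an invertible form with a symmetry -/
structure Fm (G : Matrix (Fin n) (Fin n) R) (r Q δ : ℕ) (η : R) : Prop where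
  fb : Fb R r
  fQ : Fb R Q
  big : 1 < Q
  hδ : δ ≤ 1
  hQr : Q ^ δ = r * r
  sym : ∀ a b, G a b = η * G b a ^ r
  unit : IsUnit η
  fix : ∀ a b, G a b ^ Q = G a b
  det : IsUnit G.det

/-- a point of the cover of the Coxeter variety -/
structure Oq (G : Matrix (Fin n) (Fin n) R) (r Q i : ℕ) (x : Fin n → R) : Prop where
  zero : ∀ j < i, bform G r x (fr Q j x) = 0
  one : bform G r x (fr Q i x) = 1

/-- the matrix with rows `φ ^ (s + l) x`, `l < i` -/
def frs (Q s i : ℕ) (x : Fin n → R) : Matrix (Fin i) (Fin n) R :=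
  Matrix.of fun l => fr Q (s + l) x

theorem pw_map (f : R →+* R') (M : Matrix α β R) : (pw Q M).map f = pw Q (M.map f) := by
  ext a b
  simp [pw, Matrix.map_apply]

theorem Fb.pw_mul [Fintype β] (h : Fb R Q) (M : Matrix α β R) (N : Matrix β γ R) :
    pw Q (M * N) = pw Q M * pw Q N := by
  obtain ⟨F, hF⟩ := h
  have e : (fun t : R => t ^ Q) = F := funext fun t => (hF t).symm
  unfold pw
  rw [e, Matrix.map_mul]

theorem pw_dg (M : Matrix α β R) : pw Q (dg r M) = dg r (pw Q M) := by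
  ext a b
  simp only [pw, dg, Matrix.map_apply, Matrix.transpose_apply]
  rw [← pow_mul, ← pow_mul, mul_comm]

theorem dg_one_eq (M : Matrix α β R) : dg 1 M = Mᵀ := by
  ext a b
  simp [dg]

theorem frs_map (f : R →+* R') (x : Fin n → R) :
    (frs Q s i x).map f = frs Q s i fun a => f (x a) := by
  ext a b
  simp [frs, fr]

theorem pw_frs (e : ℕ) (x : Fin n → R) : pw (Q ^ e) (frs Q s i x) = frs Q (s + e) i x := by
  ext a b
  simp only [pw, frs, fr, Matrix.map_apply, Matrix.of_apply]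
  rw [← pow_mul, ← pow_add, add_right_comm]

theorem Fb.fr_sum' [Fintype α] (h : Fb R Q) (j : ℕ) (c : α → R) (y : α → Fin n → R) :
    fr Q j (∑ a, c a • y a) = ∑ a, c a ^ Q ^ j • fr Q j (y a) := by
  obtain ⟨F, hF⟩ := h.pow j
  funext b
  simp only [fr, Finset.sum_apply, Pi.smul_apply, smul_eq_mul]
  rw [← hF, map_sum]
  refine Finset.sum_congr rfl fun a _ => ?_
  rw [hF, mul_pow]

variable {G : Matrix (Fin n) (Fin n) R} {η : R} {x : Fin n → R}

theorem Oq.map (h : Oq G r Q i x) (f : R →+* R') : Oq (G.map f) r Q i fun a => f (x a) := by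
  refine ⟨fun j hj => ?_, ?_⟩
  · rw [← map_fr, ← map_bform, h.zero j hj, map_zero]
  · rw [← map_fr, ← map_bform, h.one, map_one]

theorem Fm.one_iff (h : Fm G r Q δ η) : r = 1 ↔ δ = 0 := by
  have h1 := h.hQr
  have h2 := h.big
  constructor
  · rintro rfl
    rcases Nat.pow_eq_one.1 h1 with h3 | h3 <;> omega
  · rintro rfl
    rw [pow_zero] at h1
    exact Nat.eq_one_of_mul_eq_one_left h1.symm

theorem Fm.r_ne (h : Fm G r Q δ η) : r ≠ 0 := by
  rintro rfl
  have h2 := h.big
  exact pow_ne_zero δ (by omega : Q ≠ 0) h.hQr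

theorem Fm.bform_fr (h : Fm G r Q δ η) (j : ℕ) (x y : Fin n → R) :
    bform G r (fr Q j x) (fr Q j y) = bform G r x y ^ Q ^ j := by
  obtain ⟨F, hF⟩ := h.fQ.pow j
  have hfix : ∀ a b (l : ℕ), G a b ^ Q ^ l = G a b := by
    intro a b l
    induction l with
    | zero => simp
    | succ l ih => rw [pow_succ, pow_mul, ih, h.fix]
  rw [← hF, map_bform]
  congr 1
  · ext a b
    simp only [Matrix.map_apply]
    rw [hF, hfix]
  · funext a; rw [hF]; rfl
  · funext a; rw [hF]; rfl

theorem Fm.bform_sym (h : Fm G r Q δ η) (x y : Fin n → R) :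
    bform G r (fr Q δ y) x = η * bform G r x y ^ r := by
  obtain ⟨F, hF⟩ := h.fb
  rw [← hF (bform G r x y), map_bform]
  simp only [bform, fr, Matrix.map_apply, hF, Finset.mul_sum]
  rw [Finset.sum_comm]
  refine Finset.sum_congr rfl fun a _ => Finset.sum_congr rfl fun b _ => ?_
  rw [h.sym b a, h.hQr, pow_mul]
  ring

theorem Fm.gram_zero (h : Fm G r Q δ η) (hz : ∀ j < i, bform G r x (fr Q j x) = 0) {l m : ℕ}
    (h1 : l < m + δ + i) (h2 : m < l + i) : bform G r (fr Q l x) (fr Q m x) = 0 := by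
  have hQ : Q ≠ 0 := by have := h.big; omega
  have key : ∀ a k, k < i → bform G r (fr Q a x) (fr Q (a + k) x) = 0 := by
    intro a k hk
    rw [add_comm a k, ← fr_fr, h.bform_fr, hz k hk, zero_pow (pow_ne_zero _ hQ)]
  rcases le_or_gt l m with hij | hij
  · obtain ⟨k, rfl⟩ := Nat.exists_eq_add_of_le hij
    exact key l k (by omega)
  · have hδ := h.hδ
    obtain ⟨k, hk⟩ : ∃ k, l = (m + k) + δ := ⟨l - m - δ, by omega⟩
    rw [hk, ← fr_fr, h.bform_sym, key m k (by omega), zero_pow h.r_ne, mul_zero]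

theorem Fm.gram_one (h : Fm G r Q δ η) (hx : Oq G r Q i x) (l : ℕ) :
    bform G r (fr Q l x) (fr Q (l + i) x) = 1 := by
  rw [add_comm l i, ← fr_fr, h.bform_fr, hx.one, one_pow]

/-- the first Frobenius images are part of a basis -/
theorem Fm.frs_inv (h : Fm G r Q δ η) (hx : Oq G r Q i x) (hs : s ≤ i + δ) :
    ∃ Y : Matrix (Fin n) (Fin s) R, frs Q 0 s x * Y = 1 := by
  have h1 : (frs Q 0 s x * G * dg r (frs Q i s x)).BlockTriangular id := fun a b hab => by
    have hb : (b : ℕ) < a := hab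
    have := a.2
    rw [gram_apply]
    exact h.gram_zero hx.zero (by omega) (by omega)
  have h2 : (frs Q 0 s x * G * dg r (frs Q i s x)).det = 1 := by
    rw [det_of_upperTriangular h1]
    refine Finset.prod_eq_one fun a _ => ?_
    rw [gram_apply]
    have := h.gram_one hx (0 + a)
    rwa [show 0 + (a : ℕ) + i = i + a by omega] at this
  refine ⟨G * dg r (frs Q i s x) * (frs Q 0 s x * G * dg r (frs Q i s x))⁻¹, ?_⟩
  rw [← Matrix.mul_assoc, ← Matrix.mul_assoc]
  exact Matrix.mul_nonsing_inv _ (h2 ▸ isUnit_one)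

end Pool.Agent.CXD
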