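import Pool.Agent.P.MP_2ce3e7_ag.CUA

/-! Points of the model. -/

set_option linter.unusedSectionVars false
set_option linter.unusedVariables false

open Matrix LaurentPolynomial

noncomputable section

namespace Pool.Agent.CXD

variable {R R' : Type} [CommRing R] [CommRing R'] {n m d r Q δ i j : ℕ} {α β γ : Type}

/-- indices of the coordinates -/
abbrev ZI (m n : ℕ) : Type := (Fin m → Fin n) × (Fin (m + 1) → Fin n)

/-- the row spaces `A`, `B` satisfy `A ⊆ B`, `φ A ⊆ B`, `β(B, A) = 0` -/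
structure Pt (G : Matrix (Fin n) (Fin n) R) (r Q : ℕ) (a : Matrix (Fin m) (Fin n) R)
    (b : Matrix (Fin (m + 1)) (Fin n) R) : Prop where
  sub : ∃ c : Matrix (Fin m) (Fin (m + 1)) R, a = c * b
  frob : ∃ c : Matrix (Fin m) (Fin (m + 1)) R, pw Q a = c * b
  perp : b * G * dg r a = 0
  iso : r = 1 → b * G * dg r b = 0

/-- the coordinates of a point -/
def pp (a : Matrix (Fin m) (Fin n) R) (b : Matrix (Fin (m + 1)) (Fin n) R) (p : ZI m n) : R :=
  plu a p.1 * plu b p.2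

/-- coefficients of the Cauchy–Binet formula -/
def cf (Y : Matrix (Fin n) (Fin d) R) (I : Fin d → Fin n) : R := ∏ b, Y (I b) b

variable {G : Matrix (Fin n) (Fin n) R} {η : R} {a : Matrix (Fin m) (Fin n) R}
  {b : Matrix (Fin (m + 1)) (Fin n) R}

theorem Pt.map (h : Pt G r Q a b) (f : R →+* R') : Pt (G.map f) r Q (a.map f) (b.map f) := by
  obtain ⟨⟨c, hc⟩, ⟨c', hc'⟩, hp, hi⟩ := h
  refine ⟨⟨c.map f, ?_⟩, ⟨c'.map f, ?_⟩, ?_, fun hr => ?_⟩
  · rw [← Matrix.map_mul, ← hc]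
  · rw [← Matrix.map_mul, ← hc', pw_map]
  · rw [← dg_map, ← Matrix.map_mul, ← Matrix.map_mul, hp, Matrix.map_zero _ (map_zero f)]
  · rw [← dg_map, ← Matrix.map_mul, ← Matrix.map_mul, hi hr, Matrix.map_zero _ (map_zero f)]

theorem Pt.mul (h : Pt G r Q a b) (hr : Fb R r) (hQ : Fb R Q) (g₁ : Matrix (Fin m) (Fin m) R)
    {g₂ g' : Matrix (Fin (m + 1)) (Fin (m + 1)) R} (hg : g' * g₂ = 1) :
    Pt G r Q (g₁ * a) (g₂ * b) := by
  obtain ⟨⟨c, hc⟩, ⟨c', hc'⟩, hp, hi⟩ := h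
  have e : ∀ u : Matrix (Fin m) (Fin (m + 1)) R, u * g' * (g₂ * b) = u * b := by
    intro u
    rw [Matrix.mul_assoc, ← Matrix.mul_assoc g', hg, Matrix.one_mul]
  refine ⟨⟨g₁ * c * g', ?_⟩, ⟨pw Q g₁ * c' * g', ?_⟩, ?_, fun h1 => ?_⟩
  · rw [e, Matrix.mul_assoc, ← hc]
  · rw [e, Matrix.mul_assoc, ← hc', hQ.pw_mul]
  · rw [hr.dg_mul]
    calc g₂ * b * G * (dg r a * dg r g₁) = g₂ * (b * G * dg r a) * dg r g₁ := by
          simp only [Matrix.mul_assoc]
      _ = 0 := by rw [hp, Matrix.mul_zero, Matrix.zero_mul]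
  · rw [hr.dg_mul]
    calc g₂ * b * G * (dg r b * dg r g₂) = g₂ * (b * G * dg r b) * dg r g₂ := by
          simp only [Matrix.mul_assoc]
      _ = 0 := by rw [hi h1, Matrix.mul_zero, Matrix.zero_mul]

theorem rows_CUB (f : Fin i → Fin j) (M : Matrix (Fin j) (Fin n) R) :
    (1 : Matrix (Fin j) (Fin j) R).submatrix f id * M = M.submatrix f id := by
  have e : (1 : Matrix (Fin j) (Fin j) R).submatrix f id * M =
      ((1 : Matrix (Fin j) (Fin j) R) * M).submatrix f id := rfl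
  rw [e, Matrix.one_mul]

theorem Fm.pt_frs (h : Fm G r Q δ η) {x : Fin n → R} (hx : Oq G r Q i x) (hj : i + δ = j + 1) :
    Pt G r Q (frs Q 0 j x) (frs Q 0 (j + 1) x) := by
  have hd := h.hδ
  refine ⟨⟨(1 : Matrix (Fin (j + 1)) (Fin (j + 1)) R).submatrix Fin.castSucc id, ?_⟩,
    ⟨(1 : Matrix (Fin (j + 1)) (Fin (j + 1)) R).submatrix Fin.succ id, ?_⟩, ?_, fun hr => ?_⟩
  · rw [rows_CUB]
    rfl
  · have e := pw_frs (Q := Q) (s := 0) (i := j) 1 x
    rw [pow_one] at e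
    rw [rows_CUB, e]
    ext l c
    simp only [frs, submatrix_apply, of_apply, id, Fin.val_succ]
    rw [show 0 + 1 + (l : ℕ) = 0 + (l + 1) by omega]
  · ext l c
    have h1 := l.2
    have h2 := c.2
    rw [gram_apply, Matrix.zero_apply]
    exact h.gram_zero hx.zero (l := 0 + (l : ℕ)) (m := 0 + (c : ℕ)) (by omega) (by omega)
  · ext l c
    have h0 := h.one_iff.1 hr
    have h1 := l.2
    have h2 := c.2
    rw [gram_apply, Matrix.zero_apply]
    exact h.gram_zero hx.zero (l := 0 + (l : ℕ)) (m := 0 + (c : ℕ)) (by omega) (by omega)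

theorem map_pp (f : R →+* R') (p : ZI m n) : f (pp a b p) = pp (a.map f) (b.map f) p := by
  unfold pp
  rw [map_mul, map_plu, map_plu]

theorem pp_mul (g₁ : Matrix (Fin m) (Fin m) R) (g₂ : Matrix (Fin (m + 1)) (Fin (m + 1)) R)
    (p : ZI m n) : pp (g₁ * a) (g₂ * b) p = pp a b p * (g₁.det * g₂.det) := by
  unfold pp
  rw [plu_mul, plu_mul]
  ring

theorem det_mul_plu (u : Matrix (Fin d) (Fin n) R) (Y : Matrix (Fin n) (Fin d) R) :
    (u * Y).det = ∑ I, cf Y I * plu u I := by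
  simp only [plu, cf, det_apply', mul_apply, Finset.prod_univ_sum, Finset.mul_sum,
    Fintype.piFinset_univ]
  rw [Finset.sum_comm]
  refine Finset.sum_congr rfl fun I _ => Finset.sum_congr rfl fun σ _ => ?_
  simp only [submatrix_apply, id, Finset.prod_mul_distrib]
  ring

theorem exists_pp_one {Y₁ : Matrix (Fin n) (Fin m) R} {Y₂ : Matrix (Fin n) (Fin (m + 1)) R}
    (h₁ : a * Y₁ = 1) (h₂ : b * Y₂ = 1) : ∃ c : ZI m n → R, ∑ p, c p * pp a b p = 1 := by
  obtain ⟨c₁, e₁⟩ := exists_plu_one h₁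
  obtain ⟨c₂, e₂⟩ := exists_plu_one h₂
  refine ⟨fun p => c₁ p.1 * c₂ p.2, ?_⟩
  have e := congrArg₂ (· * ·) e₁ e₂
  simp only [one_mul] at e
  rw [← e, Finset.sum_mul_sum, Fintype.sum_prod_type]
  refine Finset.sum_congr rfl fun I _ => Finset.sum_congr rfl fun J _ => ?_
  unfold pp
  ring

theorem exists_inv_of_plu {u : Matrix (Fin d) (Fin n) R} {I : Fin d → Fin n}
    (h : IsUnit (plu u I)) : ∃ Y : Matrix (Fin n) (Fin d) R, u * Y = 1 := by
  refine ⟨(1 : Matrix (Fin n) (Fin n) R).submatrix id I * (u.submatrix id I)⁻¹, ?_⟩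
  rw [← Matrix.mul_assoc, ← sub_mul_CV1, Matrix.mul_one]
  exact Matrix.mul_nonsing_inv _ h

theorem exists_of_inM {z : (Fin d → Fin n) → R} {u : Matrix (Fin d) (Fin n) R} {t : R}
    (hz : ∀ I, z I = plu u I * t) {I : Fin d → Fin n} (hI : IsUnit (z I))
    {w : Matrix α (Fin n) R} (h : inM z w I = 0) : ∃ c : Matrix α (Fin d) R, w = c * u := by
  obtain rfl : z = fun I => plu u I * t := funext hz
  obtain ⟨y, hy⟩ := hI.exists_left_inv
  have h1 : em (fun J => plu u J * t) I = t • em (plu u) I := by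
    ext a b
    simp only [em, Matrix.of_apply, Matrix.smul_apply, smul_eq_mul, mul_comm]
  rw [inM, h1, em_plu, sub_eq_zero] at h
  refine ⟨y • (w.submatrix id I * (t • (u.submatrix id I).adjugate)), ?_⟩
  rw [Matrix.smul_mul, Matrix.mul_assoc, Matrix.smul_mul, h, smul_smul, hy, one_smul]

theorem inM_pp_left (t : R) (c : Matrix α (Fin m) R) (p : ZI m n) :
    inM (fun I => pp a b (I, p.2) * t) (c * a) p.1 = 0 := by
  have e : (fun I => pp a b (I, p.2) * t) = fun I => plu a I * (plu b p.2 * t) := by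
    funext I
    unfold pp
    ring
  rw [e]
  exact inM_mul _ _ _ _

theorem inM_pp_right (t : R) (c : Matrix α (Fin (m + 1)) R) (p : ZI m n) :
    inM (fun J => pp a b (p.1, J) * t) (c * b) p.2 = 0 := by
  have e : (fun J => pp a b (p.1, J) * t) = fun J => plu b J * (plu a p.1 * t) := by
    funext J
    unfold pp
    ring
  rw [e]
  exact inM_mul _ _ _ _

section
variable {k : Type} [Field k] [Algebra k R] [Algebra k R']

variable (R) in
/-- a rational matrix -/
abbrev al (M : Matrix α β k) : Matrix α β R := M.map (algebraMap k R)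

theorem al_map (f : R →ₐ[k] R') (M : Matrix α β k) : (al R M).map f = al R' M := by
  ext x y
  exact f.commutes _

theorem al_mul [Fintype β] (M : Matrix α β k) (N : Matrix β γ k) :
    al R (M * N) = al R M * al R N := Matrix.map_mul

theorem al_dg (M : Matrix α β k) : al R (dg r M) = dg r (al R M) := dg_map _ M

theorem al_self (M : Matrix α β k) : al k M = M := rfl

theorem pw_al [Fintype k] (hk : Fintype.card k = Q) (M : Matrix α β k) :
    pw Q (al R M) = al R M := by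
  ext x y
  change algebraMap k R (M x y) ^ Q = algebraMap k R (M x y)
  rw [← map_pow, ← hk, FiniteField.pow_card]

/-- a linear form in the coordinates -/
def lf (z : ZI m n → R) (Y₁ : Matrix (Fin n) (Fin m) k) (Y₂ : Matrix (Fin n) (Fin (m + 1)) k) :
    R := ∑ p : ZI m n, algebraMap k R (cf Y₁ p.1 * cf Y₂ p.2) * z p

theorem map_lf (f : R →ₐ[k] R') (z : ZI m n → R) (Y₁ : Matrix (Fin n) (Fin m) k)
    (Y₂ : Matrix (Fin n) (Fin (m + 1)) k) : f (lf z Y₁ Y₂) = lf (fun p => f (z p)) Y₁ Y₂ := by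
  simp only [lf, map_sum, map_mul, AlgHom.commutes]

theorem lf_pp (Y₁ : Matrix (Fin n) (Fin m) k) (Y₂ : Matrix (Fin n) (Fin (m + 1)) k) :
    lf (pp a b) Y₁ Y₂ = (a * al R Y₁).det * (b * al R Y₂).det := by
  have e : ∀ {d : ℕ} (Y : Matrix (Fin n) (Fin d) k) (I : Fin d → Fin n),
      cf (al R Y) I = algebraMap k R (cf Y I) := by
    intro d Y I
    unfold cf
    rw [map_prod]
    rfl
  rw [det_mul_plu, det_mul_plu, Finset.sum_mul_sum, lf, Fintype.sum_prod_type]
  refine Finset.sum_congr rfl fun I _ => Finset.sum_congr rfl fun J _ => ?_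
  rw [e, e, map_mul]
  unfold pp
  ring

theorem lf_hom (J : Ideal (MvPolynomial (ZI m n) k)) (Y₁ : Matrix (Fin n) (Fin m) k)
    (Y₂ : Matrix (Fin n) (Fin (m + 1)) k) : lf (crd J) Y₁ Y₂ ∈ hom J 1 := by
  refine ⟨1, ∑ p : ZI m n, MvPolynomial.C (cf Y₁ p.1 * cf Y₂ p.2) * MvPolynomial.X p, rfl,
    MvPolynomial.IsHomogeneous.sum _ _ _ fun p _ => (MvPolynomial.isHomogeneous_X k p).C_mul _, ?_⟩
  rw [map_sum]
  rfl

end

end Pool.Agent.CXD
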