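import Pool.Agent.P.MP_2ce3e7_ag.CUB

/-! The homogeneous coordinate ring of the model. -/

set_option linter.unusedSectionVars false
set_option linter.unusedVariables false

open Matrix LaurentPolynomial

noncomputable section

namespace Pool.Agent.CXD

variable {k R : Type} [Field k] [CommRing R] [Algebra k R] {n m r Q : ℕ}

/-- the coordinate ring -/
abbrev Yr (G : Matrix (Fin n) (Fin n) k) (r Q m : ℕ) : Type := MvPolynomial (ZI m n) k ⧸ yI G r Q m

/-- the ring of the generic point -/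
abbrev Yu (G : Matrix (Fin n) (Fin n) k) (r Q m : ℕ) : Type := MvPolynomial (YV m n) k ⧸ flI G r Q m

variable (G : Matrix (Fin n) (Fin n) k)

/-- the generic small matrix -/
def uA (r Q m : ℕ) : Matrix (Fin m) (Fin n) (Yu G r Q m) :=
  (gA k m n).map (Ideal.Quotient.mk (flI G r Q m))

/-- the generic large matrix -/
def uB (r Q m : ℕ) : Matrix (Fin (m + 1)) (Fin n) (Yu G r Q m) :=
  (gB k m n).map (Ideal.Quotient.mk (flI G r Q m))

theorem ent_iff_CUB2 {A α β : Type} [CommRing A] (f : A →+* R) (M : Matrix α β A) :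
    (∀ y ∈ ent M, f y = 0) ↔ M.map f = 0 :=
  ⟨fun h => Matrix.ext fun i j => h _ ⟨i, j, rfl⟩, by
    rintro h _ ⟨i, j, rfl⟩
    exact congrFun (congrFun h i) j⟩

theorem flE_iff_CUB2 {A : Type} [CommRing A] (f : A →+* R) (H : Matrix (Fin n) (Fin n) A)
    (a : Matrix (Fin m) (Fin n) A) (b : Matrix (Fin (m + 1)) (Fin n) A)
    (c : Matrix (Fin m) (Fin (m + 1)) A) :
    (∀ y ∈ flE H r Q a b c, f y = 0) ↔ pw Q (a.map f) = c.map f * b.map f ∧
      b.map f * H.map f * dg r (a.map f) = 0 ∧ (r = 1 → b.map f * H.map f * dg r (b.map f) = 0) := by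
  have e1 : (∀ y ∈ ent (pw Q a - c * b), f y = 0) ↔ pw Q (a.map f) = c.map f * b.map f := by
    rw [ent_iff_CUB2, Matrix.map_sub _ (map_sub f), Matrix.map_mul, pw_map, sub_eq_zero]
  have e2 : (∀ y ∈ ent (b * H * dg r a), f y = 0) ↔ b.map f * H.map f * dg r (a.map f) = 0 := by
    rw [ent_iff_CUB2, Matrix.map_mul, Matrix.map_mul, dg_map]
  have e3 : (∀ y ∈ ent (b * H * bᵀ), f y = 0) ↔ b.map f * H.map f * dg 1 (b.map f) = 0 := by
    rw [ent_iff_CUB2, Matrix.map_mul, Matrix.map_mul, ← dg_one_eq, dg_map]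
  constructor
  · intro h
    refine ⟨e1.1 fun y hy => h y (Or.inl (Or.inl hy)), e2.1 fun y hy => h y (Or.inl (Or.inr hy)),
      fun hr => ?_⟩
    have := e3.1 fun y hy => h y (Or.inr ⟨hr, hy⟩)
    rwa [hr]
  · rintro ⟨h1, h2, h3⟩ y ((hy | hy) | ⟨hr, hy⟩)
    · exact e1.2 h1 y hy
    · exact e2.2 h2 y hy
    · have := h3 hr
      rw [hr] at this
      exact e3.2 this y hy

theorem pt_univ : Pt (al (Yu G r Q m) G) r Q (uA G r Q m) (uB G r Q m) := by
  obtain ⟨h1, h2, h3⟩ := (flE_iff_CUB2 (r := r) (Q := Q) (Ideal.Quotient.mk (flI G r Q m))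
    (G.map MvPolynomial.C) (gA k m n) (gB k m n) (gC k m n true)).1 fun y hy =>
      Ideal.Quotient.eq_zero_iff_mem.2 (Ideal.subset_span hy)
  exact ⟨⟨(gC k m n false).map (Ideal.Quotient.mk (flI G r Q m)), Matrix.map_mul⟩, ⟨_, h1⟩, h2, h3⟩

theorem exists_y_inj : ∃ β : Yr G r Q m →ₐ[k] Yu G r Q m, Function.Injective β ∧
    ∀ p, β (crd (yI G r Q m) p) = pp (uA G r Q m) (uB G r Q m) p := by
  refine ⟨Ideal.quotientMapₐ (flI G r Q m) (MvPolynomial.aeval (R := k) (mnr k m n)) le_rfl,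
    Ideal.quotientMap_injective, fun p => ?_⟩
  unfold crd
  rw [Ideal.quotient_map_mkₐ, MvPolynomial.aeval_X, Ideal.Quotient.mkₐ_eq_mk]
  exact map_pp (a := gA k m n) (b := gB k m n) (Ideal.Quotient.mk (flI G r Q m)) p

variable {G}

theorem Pt.exists_lift {a : Matrix (Fin m) (Fin n) R} {b : Matrix (Fin (m + 1)) (Fin n) R}
    (h : Pt (al R G) r Q a b) :
    ∃ α : Yr G r Q m →ₐ[k] R, ∀ p, α (crd (yI G r Q m) p) = pp a b p := by
  obtain ⟨β, -, hβ⟩ := exists_y_inj (r := r) (Q := Q) (m := m) G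
  obtain ⟨⟨c₀, h₀⟩, ⟨c₁, h₁⟩, h₂, h₃⟩ := h
  let f : MvPolynomial (YV m n) k →ₐ[k] R := MvPolynomial.aeval
    (Sum.elim (fun p => b p.1 p.2) fun p => (bif p.1 then c₁ else c₀) p.2.1 p.2.2)
  have eB : (gB k m n).map f.toRingHom = b := Matrix.ext fun i j => MvPolynomial.aeval_X _ _
  have e₀ : (gC k m n false).map f.toRingHom = c₀ := Matrix.ext fun i j => MvPolynomial.aeval_X _ _
  have e₁ : (gC k m n true).map f.toRingHom = c₁ := Matrix.ext fun i j => MvPolynomial.aeval_X _ _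
  have eA : (gA k m n).map f.toRingHom = a := by rw [gA, Matrix.map_mul, e₀, eB, h₀]
  have eG : (G.map MvPolynomial.C).map f.toRingHom = al R G :=
    Matrix.ext fun i j => MvPolynomial.aeval_C _ _
  have hle : flI G r Q m ≤ RingHom.ker f.toRingHom := by
    rw [flI, Ideal.span_le]
    refine (flE_iff_CUB2 f.toRingHom _ _ _ _).2 ?_
    rw [eA, eB, e₁, eG]
    exact ⟨h₁, h₂, h₃⟩
  let γ : Yu G r Q m →ₐ[k] R := Ideal.Quotient.liftₐ _ f fun y hy => hle hy
  refine ⟨γ.comp β, fun p => ?_⟩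
  rw [AlgHom.comp_apply, hβ, ← eA, ← eB]
  exact map_pp γ.toRingHom p

theorem scale_CUB2 (hr : Fb R[T;T⁻¹] r) (hQ : Fb R[T;T⁻¹] Q) {a : Matrix (Fin m) (Fin n) R}
    {b : Matrix (Fin (m + 1)) (Fin n) R} (h : Pt (al R G) r Q a b) :
    ∃ α : Yr G r Q m →ₐ[k] R[T;T⁻¹], ∀ p, α (crd (yI G r Q m) p) = C (pp a b p) * T 1 := by
  let c : R →+* R[T;T⁻¹] := C
  let g : ℤ → Matrix (Fin (m + 1)) (Fin (m + 1)) R[T;T⁻¹] := fun z =>
    diagonal (Function.update 1 0 (T z))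
  have hg : (g 1).det = T 1 := by
    rw [det_diagonal, Finset.prod_update_of_mem (Finset.mem_univ _)]
    simp
  have hg' : g (-1) * g 1 = 1 := by
    rw [diagonal_mul_diagonal, ← diagonal_one]
    congr 1
    funext i
    by_cases hi : i = 0
    · rw [hi, Function.update_self, Function.update_self, ← T_add, neg_add_cancel, T_zero]
    · rw [Function.update_of_ne hi, Function.update_of_ne hi, Pi.one_apply, mul_one]
  have h' : Pt (al R[T;T⁻¹] G) r Q (a.map c) (b.map c) := h.map c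
  obtain ⟨α, hα⟩ := (h'.mul hr hQ 1 hg').exists_lift
  exact ⟨α, fun p => by rw [hα, pp_mul, det_one, one_mul, hg, ← map_pp]⟩

theorem exists_y_theta (hr : ∀ (R : Type) [CommRing R] [Algebra k R], Fb R r)
    (hQ : ∀ (R : Type) [CommRing R] [Algebra k R], Fb R Q) :
    ∃ θ : Yr G r Q m →ₐ[k] (Yr G r Q m)[T;T⁻¹], ∀ p,
      θ (crd (yI G r Q m) p) = C (crd (yI G r Q m) p) * T 1 := by
  obtain ⟨β, hinj, hβ⟩ := exists_y_inj (r := r) (Q := Q) (m := m) G
  obtain ⟨α, hα⟩ := scale_CUB2 (hr _) (hQ _) (pt_univ (r := r) (Q := Q) (m := m) G)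
  have hz : ∀ a ∈ yI G r Q m, MvPolynomial.aeval (R := k)
      (fun p => (C (crd (yI G r Q m) p) * T 1 : (Yr G r Q m)[T;T⁻¹])) a = 0 := by
    intro a ha
    refine theta_CV0 (crd (yI G r Q m)) β hinj α (fun p => by rw [hα, hβ]) a ?_
    have e : MvPolynomial.aeval (crd (yI G r Q m)) = Ideal.Quotient.mkₐ k (yI G r Q m) :=
      MvPolynomial.algHom_ext fun I => by rw [MvPolynomial.aeval_X]; rfl
    rw [e]
    exact Ideal.Quotient.eq_zero_iff_mem.2 ha
  refine ⟨Ideal.Quotient.liftₐ _ _ hz, fun p => ?_⟩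
  exact MvPolynomial.aeval_X _ p

end Pool.Agent.CXD
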