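import Pool.Agent.P.MP_2ce3e7_ag.CUB2

/-! Identities between the coordinates. -/

set_option linter.unusedSectionVars false
set_option linter.unusedVariables false

open Matrix

noncomputable section

namespace Pool.Agent.CXD

variable {R R' : Type} [CommRing R] [CommRing R'] {n m r Q : ℕ}

/-- a matrix with the small row space -/
def ea (z : ZI m n → R) (p : ZI m n) : Matrix (Fin m) (Fin n) R := em (fun I => z (I, p.2)) p.1

/-- a matrix with the large row space -/
def eb (z : ZI m n → R) (p : ZI m n) : Matrix (Fin (m + 1)) (Fin n) R :=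
  em (fun J => z (p.1, J)) p.2

/-- the identities -/
structure Py (G : Matrix (Fin n) (Fin n) R) (r Q : ℕ) (z : ZI m n → R) : Prop where
  seg : ∀ p p', z p * z p' = z (p.1, p'.2) * z (p'.1, p.2)
  da : ∀ p I, z p * plu (ea z p) I = z p ^ m * z (I, p.2)
  db : ∀ p J, plu (eb z p) J = z p ^ m * z (p.1, J)
  sub : ∀ p, inM (fun J => z (p.1, J)) (ea z p) p.2 = 0
  frob : ∀ p, inM (fun J => z (p.1, J)) (pw Q (ea z p)) p.2 = 0
  perp : ∀ p, eb z p * G * dg r (ea z p) = 0
  iso : r = 1 → ∀ p, eb z p * G * dg r (eb z p) = 0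

variable {G : Matrix (Fin n) (Fin n) R} {z : ZI m n → R} {a : Matrix (Fin m) (Fin n) R}
  {b : Matrix (Fin (m + 1)) (Fin n) R}

theorem ea_map (f : R →+* R') (p : ZI m n) : (ea z p).map f = ea (fun q => f (z q)) p := rfl

theorem eb_map (f : R →+* R') (p : ZI m n) : (eb z p).map f = eb (fun q => f (z q)) p := rfl

theorem em_smul_CUC {d : ℕ} (u : Matrix (Fin d) (Fin n) R) (s : R) (I : Fin d → Fin n) :
    em (fun J => plu u J * s) I = (s • (u.submatrix id I).adjugate) * u := by
  have h1 : em (fun J => plu u J * s) I = s • em (plu u) I := by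
    ext a b
    simp only [em, Matrix.of_apply, Matrix.smul_apply, smul_eq_mul, mul_comm]
  rw [h1, em_plu, Matrix.smul_mul]

theorem ea_pp (t : R) (p : ZI m n) : ea (fun q => pp a b q * t) p =
    ((plu b p.2 * t) • (a.submatrix id p.1).adjugate) * a := by
  have e : (fun I => pp a b (I, p.2) * t) = fun I => plu a I * (plu b p.2 * t) := by
    funext I
    simp only [pp, mul_assoc]
  change em (fun I => pp a b (I, p.2) * t) p.1 = _
  rw [e, em_smul_CUC]

theorem eb_pp (t : R) (p : ZI m n) : eb (fun q => pp a b q * t) p =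
    ((plu a p.1 * t) • (b.submatrix id p.2).adjugate) * b := by
  have e : (fun J => pp a b (p.1, J) * t) = fun J => plu b J * (plu a p.1 * t) := by
    funext J
    simp only [pp]
    ring
  change em (fun J => pp a b (p.1, J) * t) p.2 = _
  rw [e, em_smul_CUC]

theorem Pt.py (h : Pt G r Q a b) (hr : Fb R r) (hQ : Fb R Q) : Py G r Q (pp a b) := by
  have e : pp a b = fun q => pp a b q * 1 := funext fun q => (mul_one _).symm
  have ha : ∀ p : ZI m n,
      ea (pp a b) p = ((plu b p.2 * 1) • (a.submatrix id p.1).adjugate) * a := fun p => by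
    rw [← ea_pp]
    simp only [mul_one]
  have hb : ∀ p : ZI m n,
      eb (pp a b) p = ((plu a p.1 * 1) • (b.submatrix id p.2).adjugate) * b := fun p => by
    rw [← eb_pp]
    simp only [mul_one]
  have hi : ∀ (c : Matrix (Fin m) (Fin (m + 1)) R) (p : ZI m n),
      inM (fun J => pp a b (p.1, J)) (c * b) p.2 = 0 := fun c p => by
    have h1 := inM_pp_right (a := a) (b := b) 1 c p
    simpa only [mul_one] using h1
  refine ⟨fun p p' => ?_, fun p I => ?_, fun p J => ?_, fun p => ?_, fun p => ?_, fun p => ?_,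
    fun h1 p => ?_⟩
  · simp only [pp]
    ring
  · rw [ha, plu_mul, Matrix.det_smul, Matrix.det_adjugate, Fintype.card_fin]
    change plu a p.1 * plu b p.2 * ((plu b p.2 * 1) ^ m * plu a p.1 ^ (m - 1) * plu a I) =
      (plu a p.1 * plu b p.2) ^ m * (plu a I * plu b p.2)
    cases m with
    | zero =>
      have h0 : plu a p.1 = 1 := Matrix.det_isEmpty
      rw [h0]
      ring
    | succ m =>
      rw [Nat.add_sub_cancel]
      ring
  · rw [hb, plu_mul, Matrix.det_smul, Matrix.det_adjugate, Fintype.card_fin, Nat.add_sub_cancel]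
    change (plu a p.1 * 1) ^ (m + 1) * plu b p.2 ^ m * plu b J =
      (plu a p.1 * plu b p.2) ^ m * (plu a p.1 * plu b J)
    ring
  · obtain ⟨c, hc⟩ := h.sub
    have h2 : ea (pp a b) p = ((plu b p.2 * 1) • (a.submatrix id p.1).adjugate * c) * b := by
      rw [ha, Matrix.mul_assoc, ← hc]
    rw [h2]
    exact hi _ p
  · obtain ⟨c, hc⟩ := h.frob
    have h2 : pw Q (ea (pp a b) p) =
        (pw Q ((plu b p.2 * 1) • (a.submatrix id p.1).adjugate) * c) * b := by
      rw [ha, hQ.pw_mul, hc, Matrix.mul_assoc]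
    rw [h2]
    exact hi _ p
  · rw [ha, hb, hr.dg_mul, Matrix.mul_assoc _ b G, Matrix.mul_assoc _ (b * G),
      ← Matrix.mul_assoc (b * G), h.perp, Matrix.zero_mul, Matrix.mul_zero]
  · rw [hb, hr.dg_mul, Matrix.mul_assoc _ b G, Matrix.mul_assoc _ (b * G),
      ← Matrix.mul_assoc (b * G), h.iso h1, Matrix.zero_mul, Matrix.mul_zero]

theorem Py.map (h : Py G r Q z) (f : R →+* R') : Py (G.map f) r Q fun p => f (z p) := by
  refine ⟨fun p p' => ?_, fun p I => ?_, fun p J => ?_, fun p => ?_, fun p => ?_, fun p => ?_,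
    fun h1 p => ?_⟩
  · rw [← map_mul, h.seg, map_mul]
  · rw [← ea_map, ← map_plu, ← map_mul, h.da, map_mul, map_pow]
  · rw [← eb_map, ← map_plu, h.db, map_mul, map_pow]
  · rw [← ea_map, ← inM_map f, h.sub, Matrix.map_zero _ (map_zero f)]
  · rw [← ea_map, ← pw_map, ← inM_map f, h.frob, Matrix.map_zero _ (map_zero f)]
  · rw [← ea_map, ← eb_map, ← dg_map, ← Matrix.map_mul, ← Matrix.map_mul, h.perp,
      Matrix.map_zero _ (map_zero f)]
  · rw [← eb_map, ← dg_map, ← Matrix.map_mul, ← Matrix.map_mul, h.iso h1,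
      Matrix.map_zero _ (map_zero f)]

theorem Py.of_map (f : R →+* R') (hf : Function.Injective f)
    (h : Py (G.map f) r Q fun p => f (z p)) : Py G r Q z := by
  refine ⟨fun p p' => hf ?_, fun p I => hf ?_, fun p J => hf ?_,
    fun p => Matrix.map_injective hf ?_, fun p => Matrix.map_injective hf ?_,
    fun p => Matrix.map_injective hf ?_, fun h1 p => Matrix.map_injective hf ?_⟩
  · rw [map_mul, map_mul]
    exact h.seg p p'
  · rw [map_mul, map_mul, map_pow, map_plu, ea_map]
    exact h.da p I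
  · rw [map_mul, map_pow, map_plu, eb_map]
    exact h.db p J
  · change (inM (fun J => z (p.1, J)) (ea z p) p.2).map f =
      (0 : Matrix (Fin m) (Fin n) R).map f
    rw [inM_map, ea_map, Matrix.map_zero _ (map_zero f)]
    exact h.sub p
  · change (inM (fun J => z (p.1, J)) (pw Q (ea z p)) p.2).map f =
      (0 : Matrix (Fin m) (Fin n) R).map f
    rw [inM_map, pw_map, ea_map, Matrix.map_zero _ (map_zero f)]
    exact h.frob p
  · change (eb z p * G * dg r (ea z p)).map f = (0 : Matrix (Fin (m + 1)) (Fin m) R).map f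
    rw [Matrix.map_mul, Matrix.map_mul, dg_map, ea_map, eb_map, Matrix.map_zero _ (map_zero f)]
    exact h.perp p
  · change (eb z p * G * dg r (eb z p)).map f =
      (0 : Matrix (Fin (m + 1)) (Fin (m + 1)) R).map f
    rw [Matrix.map_mul, Matrix.map_mul, dg_map, eb_map, Matrix.map_zero _ (map_zero f)]
    exact h.iso h1 p

theorem py_crd {k : Type} [Field k] (G : Matrix (Fin n) (Fin n) k)
    (hr : ∀ (R : Type) [CommRing R] [Algebra k R], Fb R r)
    (hQ : ∀ (R : Type) [CommRing R] [Algebra k R], Fb R Q) :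
    Py (al (Yr G r Q m) G) r Q (crd (yI G r Q m)) := by
  obtain ⟨β, hβ, hc⟩ := exists_y_inj (r := r) (Q := Q) (m := m) G
  refine Py.of_map β.toRingHom hβ ?_
  have h1 : (al (Yr G r Q m) G).map β.toRingHom = al (Yu G r Q m) G := by
    ext a b
    exact β.commutes (G a b)
  have h2 : (fun p => β.toRingHom (crd (yI G r Q m) p)) = pp (uA G r Q m) (uB G r Q m) :=
    funext hc
  rw [h1, h2]
  exact (pt_univ G).py (hr _) (hQ _)

/-- a solution of the identities in a field comes from a point -/
theorem Py.real {L : Type} [Field L] {G : Matrix (Fin n) (Fin n) L} {z : ZI m n → L}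
    (h : Py G r Q z) {p : ZI m n} (hp : z p ≠ 0) :
    ∃ (a : Matrix (Fin m) (Fin n) L) (b : Matrix (Fin (m + 1)) (Fin n) L) (t : Lˣ),
      Pt G r Q a b ∧ ∀ q, z q = pp a b q * t := by
  have hs : ∀ w : Matrix (Fin m) (Fin n) L, inM (fun J => z (p.1, J)) w p.2 = 0 →
      ∃ c : Matrix (Fin m) (Fin (m + 1)) L, w = c * eb z p := by
    intro w hw
    have h1 : w.submatrix id p.2 * eb z p = z p • w := sub_eq_zero.1 hw
    refine ⟨(z p)⁻¹ • w.submatrix id p.2, ?_⟩
    rw [Matrix.smul_mul, h1, smul_smul, inv_mul_cancel₀ hp, one_smul]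
  have h0 : z p ^ (2 * m) ≠ 0 := pow_ne_zero _ hp
  refine ⟨ea z p, eb z p, Units.mk0 _ (inv_ne_zero h0),
    ⟨hs _ (h.sub p), hs _ (h.frob p), h.perp p, fun h1 => h.iso h1 p⟩, fun q => ?_⟩
  have h2 : pp (ea z p) (eb z p) q = z p ^ (2 * m) * z q := by
    apply mul_left_cancel₀ hp
    have h3 := h.da p q.1
    have h4 := h.db p q.2
    have h5 := h.seg p q
    unfold pp
    rw [← mul_assoc, h3, h4]
    linear_combination (-z p ^ (2 * m)) * h5
  rw [h2, Units.val_mk0, mul_comm (z p ^ (2 * m)), mul_assoc, mul_inv_cancel₀ h0, mul_one]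

end Pool.Agent.CXD
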