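import Pool.Agent.P.MP_2ce3e7_ag.CUB

/-! Rational frames. -/

set_option linter.unusedSectionVars false
set_option linter.unusedVariables false

open Matrix

noncomputable section

namespace Pool.Agent.CXD

variable {k : Type} [Field k] [Fintype k] {n n' p r Q κ δ ex i : ℕ} {σ τ : Type} [Fintype σ]
  [DecidableEq σ] [Fintype τ] [DecidableEq τ]

/-- a form over the finite field -/
structure Fk (G : Matrix (Fin n) (Fin n) k) (r Q δ : ℕ) (η : k) : Prop where
  card : Fintype.card k = Q
  fb : ∀ (R : Type) [CommRing R] [Algebra k R], Fb R r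
  hδ : δ ≤ 1
  hQr : Q ^ δ = r * r
  sym : ∀ a b, G a b = η * G b a ^ r
  unit : IsUnit η
  det : IsUnit G.det

/-- an isotropic subspace with basis `w`, a dual family `w'`, and a basis `P` of the orthogonal
complement of both, with Gram matrix `H` -/
structure Frm (G : Matrix (Fin n) (Fin n) k) (r : ℕ) (σ : Type) [Fintype σ] [DecidableEq σ]
    (n' : ℕ) where
  w : Matrix σ (Fin n) k
  w' : Matrix σ (Fin n) k
  z : Matrix σ (Fin n) k
  P : Matrix (Fin n') (Fin n) k
  H : Matrix (Fin n') (Fin n') k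
  Hi : Matrix (Fin n') (Fin n') k
  ww : w * G * dg r w = 0
  wP : w * G * dg r P = 0
  Pw : P * G * dg r w = 0
  ww' : w * G * dg r w' = 1
  Pw' : P * G * dg r w' = 0
  PP : P * G * dg r P = H
  inv : H * Hi = 1
  dec : G * dg r w' * w + G * dg r P * Hi * P + G * dg r w * z = 1

variable {G : Matrix (Fin n) (Fin n) k} {η : k}

theorem fq_of_card (hk : Fintype.card k = Q) (R : Type) [CommRing R] [Algebra k R] : Fb R Q := by
  refine ⟨(FiniteField.frobeniusAlgHom k R).toRingHom, fun t => ?_⟩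
  rw [← hk]
  rfl

theorem Hyp.fk (h : Hyp p G r Q κ δ ex η) (hk : Fintype.card k = Q) : Fk G r Q δ η := by
  refine ⟨hk, fun R _ _ => ?_, h.hδ, h.hQr, h.sym, h.unit, h.det⟩
  rcases subsingleton_or_nontrivial R with hR | hR
  · exact ⟨RingHom.id R, fun _ => Subsingleton.elim _ _⟩
  · exact (h.map (algebraMap k R)).frob_r_CXG

theorem Fk.fm (h : Fk G r Q δ η) (R : Type) [CommRing R] [Algebra k R] :
    Fm (al R G) r Q δ (algebraMap k R η) := by
  refine ⟨h.fb R, fq_of_card h.card R, ?_, h.hδ, h.hQr, fun a b => ?_, h.unit.map _,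
    fun a b => ?_, ?_⟩
  · rw [← h.card]
    exact Fintype.one_lt_card
  · simp only [Matrix.map_apply]
    rw [h.sym a b, map_mul, map_pow]
  · simp only [Matrix.map_apply]
    rw [← map_pow, ← h.card, FiniteField.pow_card]
  · have := h.det.map (algebraMap k R)
    rwa [RingHom.map_det] at this

theorem Fk.swap (h : Fk G r Q δ η) (x y : Fin n → k) :
    bform G r y x = η * bform G r x y ^ r := by
  have e : fr Q δ y = y := by
    funext a
    simp only [fr]
    rw [← h.card, FiniteField.pow_card_pow]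
  have h1 := (h.fm k).bform_sym x y
  rw [e] at h1
  exact h1

theorem Fk.frame (h : Fk G r Q δ η) (F : Frm G r σ n') : Fk F.H r Q δ η := by
  refine ⟨h.card, h.fb, h.hδ, h.hQr, fun a b => ?_, h.unit,
    Matrix.isUnit_det_of_right_inverse F.inv⟩
  rw [← F.PP, gram_apply, gram_apply, h.swap]

theorem Hyp.frame (h : Hyp p G r Q κ δ ex η) (hk : Fintype.card k = Q) (F : Frm G r σ n')
    (hi : 0 < i) (hn : n' = 2 * i + δ + ex) : Hyp p F.H r Q i δ ex η := by
  have h1 := (h.fk hk).frame F
  have h2 := h1.fm k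
  refine ⟨h.prime, h.char, h.hr, h.hQ, h.hδ, h.hex, hi, hn, h.hQr, h1.sym, h.unit, h2.fix, h1.det,
    fun h0 => ?_⟩
  have hb : Fb (MvPolynomial (Fin n') k) r := h1.fb _
  set Xr : Matrix Unit (Fin n') (MvPolynomial (Fin n') k) :=
    Matrix.of fun _ a => MvPolynomial.X a with hX
  set u : Matrix Unit (Fin n) (MvPolynomial (Fin n') k) :=
    Xr * al (MvPolynomial (Fin n') k) F.P with hu
  have e1 := hom_bj (G := G) (r := r) (Q := Q)
    (MvPolynomial.aeval (R := k) (u ())).toRingHom 0
  rw [h.alt h0, map_zero, fr_zero] at e1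
  have e2 : G.map ((MvPolynomial.aeval (R := k) (u ())).toRingHom.comp MvPolynomial.C)
      = al (MvPolynomial (Fin n') k) G := by
    ext a b : 2
    simp
  have e3 : (fun a => (MvPolynomial.aeval (R := k) (u ())).toRingHom (MvPolynomial.X a))
      = u () := by
    funext a
    simp
  rw [e2, e3, ← gram_apply] at e1
  have e4 : u * al (MvPolynomial (Fin n') k) G * dg r u
      = Xr * al (MvPolynomial (Fin n') k) F.H * dg r Xr := by
    rw [← F.PP, al_mul, al_mul, al_dg, hu, hb.dg_mul]
    simp only [Matrix.mul_assoc]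
  rw [e4, gram_apply] at e1
  have e5 := hom_bj (G := F.H) (r := r) (Q := Q) (RingHom.id _) 0
  rw [fr_zero] at e5
  exact e5.trans e1.symm

theorem Fk.exists_base (h : Fk G r Q δ η) : Nonempty (Frm G r Empty n) := by
  refine ⟨{ w := 0, w' := 0, z := 0, P := 1, H := G, Hi := G⁻¹
            ww := Matrix.ext fun a => a.elim
            wP := Matrix.ext fun a => a.elim
            Pw := Matrix.ext fun _ a => a.elim
            ww' := Matrix.ext fun a => a.elim
            Pw' := Matrix.ext fun _ a => a.elim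
            PP := by rw [(h.fb k).dg_one, Matrix.one_mul, Matrix.mul_one]
            inv := Matrix.mul_nonsing_inv G h.det
            dec := ?_ }⟩
  rw [(h.fb k).dg_one, Matrix.mul_zero, Matrix.mul_one, Matrix.mul_one, zero_add, add_zero,
    Matrix.mul_nonsing_inv G h.det]

theorem dg_rows_CUD {α β γ : Type} (A : Matrix α γ k) (B : Matrix β γ k) :
    dg r (fromRows A B) = fromCols (dg r A) (dg r B) := by
  ext a (b | b) <;> rfl

theorem left_CUD {α β : Type} {m : ℕ} (G : Matrix (Fin n) (Fin n) k) (A : Matrix α (Fin m) k)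
    (P : Matrix (Fin m) (Fin n) k) (X : Matrix β (Fin n) k) :
    A * P * G * dg r X = A * (P * G * dg r X) := by
  simp only [Matrix.mul_assoc]

theorem right_CUD {α β : Type} {m : ℕ} (h : Fb k r) (G : Matrix (Fin n) (Fin n) k)
    (A : Matrix α (Fin m) k) (P : Matrix (Fin m) (Fin n) k) (X : Matrix β (Fin n) k) :
    X * G * dg r (A * P) = X * G * dg r P * dg r A := by
  simp only [h.dg_mul, Matrix.mul_assoc]

theorem both_CUD {α β : Type} (h : Fb k r) (F : Frm G r σ n')
    (A : Matrix α (Fin n') k) (B : Matrix β (Fin n') k) :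
    A * F.P * G * dg r (B * F.P) = A * F.H * dg r B := by
  rw [right_CUD h, left_CUD, F.PP]

theorem Frm.exists_comp (h : Fb k r) (F : Frm G r σ n') {n'' : ℕ} (F₁ : Frm F.H r τ n'') :
    ∃ F' : Frm G r (σ ⊕ τ) n'', F'.w = fromRows F.w (F₁.w * F.P) := by
  have hb : dg r F₁.w' * F₁.w + dg r F₁.P * F₁.Hi * F₁.P + dg r F₁.w * F₁.z = F.Hi := by
    have h1 : F.Hi * F.H = 1 := mul_eq_one_comm.1 F.inv
    have h2 := congrArg (F.Hi * ·) F₁.dec
    simp only [Matrix.mul_add, ← Matrix.mul_assoc, h1, Matrix.one_mul, Matrix.mul_one] at h2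
    exact h2
  refine ⟨{ w := fromRows F.w (F₁.w * F.P), w' := fromRows F.w' (F₁.w' * F.P)
            z := fromRows F.z (F₁.z * F.P), P := F₁.P * F.P, H := F₁.H, Hi := F₁.Hi
            ww := ?_, wP := ?_, Pw := ?_, ww' := ?_, Pw' := ?_, PP := ?_
            inv := F₁.inv, dec := ?_ }, rfl⟩
  · rw [dg_rows_CUD, fromRows_mul, fromRows_mul_fromCols, both_CUD h, right_CUD h, left_CUD, F.ww,
      F.wP, F.Pw, F₁.ww, Matrix.zero_mul, Matrix.mul_zero, fromBlocks_zero]
  · rw [fromRows_mul, fromRows_mul, both_CUD h, right_CUD h, F.wP, F₁.wP, Matrix.zero_mul,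
      fromRows_zero]
  · rw [dg_rows_CUD, mul_fromCols, both_CUD h, left_CUD, F.Pw, F₁.Pw, Matrix.mul_zero,
      fromCols_zero]
  · rw [dg_rows_CUD, fromRows_mul, fromRows_mul_fromCols, both_CUD h, right_CUD h, left_CUD, F.ww',
      F.wP, F.Pw', F₁.ww', Matrix.zero_mul, Matrix.mul_zero, fromBlocks_one]
  · rw [dg_rows_CUD, mul_fromCols, both_CUD h, left_CUD, F.Pw', F₁.Pw', Matrix.mul_zero,
      fromCols_zero]
  · rw [both_CUD h, F₁.PP]
  · rw [← F.dec, ← hb, dg_rows_CUD, dg_rows_CUD, mul_fromCols, mul_fromCols, fromCols_mul_fromRows,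
      fromCols_mul_fromRows]
    simp only [h.dg_mul, Matrix.mul_add, Matrix.add_mul, Matrix.mul_assoc]
    abel

end Pool.Agent.CXD
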