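import Pool.Agent.P.MP_2ce3e7_ag.CZA

/-! Splitting off a hyperbolic plane. -/

set_option linter.unusedSectionVars false
set_option linter.unusedVariables false

open Matrix

noncomputable section

namespace Pool.Agent.CXD

variable {k : Type} [Field k] [Fintype k] {q i : ℕ}

theorem bform_eq_CZF2 {n : ℕ} (H : Matrix (Fin n) (Fin n) k) (x y : Fin n → k) :
    bform H q x y = (x ᵥ* H) ⬝ᵥ fun b => y b ^ q := by
  simp only [bform, dotProduct, vecMul, Finset.sum_mul]
  rw [Finset.sum_comm]

/-- the form as a linear map in the first argument -/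
def lin_CZF2 {n : ℕ} (H : Matrix (Fin n) (Fin n) k) (q : ℕ) (y : Fin n → k) :
    (Fin n → k) →ₗ[k] k where
  toFun x := bform H q x y
  map_add' x x' := by simp only [bform_eq_CZF2, add_vecMul, add_dotProduct]
  map_smul' c x := by
    simp only [bform_eq_CZF2, smul_vecMul, smul_dotProduct, RingHom.id_apply]

theorem row_CZF2 {n : ℕ} {α : Type} (H : Matrix (Fin n) (Fin n) k) (u : Fin n → k)
    (M : Matrix α (Fin n) k) : u ᵥ* (H * dg q M) = fun a => bform H q u (M a) := by
  funext a
  rw [← vecMul_vecMul, bform_eq_CZF2]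
  rfl

theorem single_CZF2 {n : ℕ} (hq : q ≠ 0) (H : Matrix (Fin n) (Fin n) k) (u : Fin n → k)
    (a : Fin n) (c : k) : bform H q u (Pi.single a c) = (u ᵥ* H) a * c ^ q := by
  rw [bform_eq_CZF2]
  have : (fun b => (Pi.single a c : Fin n → k) b ^ q) = Pi.single a (c ^ q) := by
    funext b
    by_cases hb : b = a
    · subst hb; simp
    · simp [hb, hq]
  rw [this, dotProduct_single]

theorem exists_split (hk : Fintype.card k = q ^ 2) {H : Matrix (Fin (2 * i + 1)) (Fin (2 * i + 1)) k}
    (h : Her H q) {v : Fin (2 * i + 1) → k} (hv : v ≠ 0) (h0 : bform H q v v = 0) :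
    ∃ j, i = j + 1 ∧ ∃ F : Frame H q Unit j, F.w () = v := by
  classical
  have hpow : ∀ t : k, t ^ q ^ 2 = t := fun t => by rw [← hk]; exact FiniteField.pow_card t
  have hq : q ≠ 0 := by
    rintro rfl
    have := Fintype.card_pos (α := k)
    rw [hk] at this
    simp at this
  have hsym : ∀ x y : Fin (2 * i + 1) → k, bform H q y x = bform H q x y ^ q := by
    intro x y
    have h1 : fr (q ^ 2) 1 y = y := by
      funext a
      simp only [fr, pow_one]
      exact hpow _
    rw [← h.bform_sym x y, h1]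
  have hinj : ∀ c : Fin (2 * i + 1) → k, c ᵥ* H = 0 → c = 0 := by
    intro c hc
    by_contra hne
    exact h.det.ne_zero (Matrix.exists_vecMul_eq_zero_iff.1 ⟨c, hne, hc⟩)
  obtain ⟨a, ha⟩ : ∃ a, (v ᵥ* H) a ≠ 0 := by
    by_contra hne
    push Not at hne
    exact hv (hinj v (funext hne))
  obtain ⟨v', h1⟩ : ∃ v' : Fin (2 * i + 1) → k, bform H q v v' = 1 := by
    refine ⟨Pi.single a (((v ᵥ* H) a)⁻¹ ^ q), ?_⟩
    rw [single_CZF2 hq, ← pow_mul, ← sq, hpow, mul_inv_cancel₀ ha]
  have h1' : bform H q v' v = 1 := by rw [hsym, h1, one_pow]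
  set g : k := bform H q v' v' with hg
  let φ : (Fin (2 * i + 1) → k) →ₗ[k] k × k := (lin_CZF2 H q v).prod (lin_CZF2 H q v')
  have hφ : ∀ u, φ u = (bform H q u v, bform H q u v') := fun u => rfl
  have hφv : φ v = (0, 1) := by rw [hφ, h0, h1]
  have hφv' : φ v' = (1, g) := by rw [hφ, h1']
  have hsurj : LinearMap.range φ = ⊤ := by
    rw [LinearMap.range_eq_top]
    rintro ⟨s, t⟩
    refine ⟨s • v' + (t - s * g) • v, ?_⟩
    rw [map_add, map_smul, map_smul, hφv, hφv']
    ext <;> simp
  have hdim : Module.finrank k (LinearMap.ker φ) + 2 = 2 * i + 1 := by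
    have h2 := LinearMap.finrank_range_add_finrank_ker φ
    rw [hsurj, finrank_top, Module.finrank_prod, Module.finrank_self, Module.finrank_fin_fun] at h2
    omega
  obtain ⟨j, rfl⟩ : ∃ j, i = j + 1 := ⟨i - 1, by omega⟩
  have hdim' : Module.finrank k (LinearMap.ker φ) = 2 * j + 1 := by omega
  let B := Module.finBasisOfFinrankEq k (LinearMap.ker φ) hdim'
  let P : Matrix (Fin (2 * j + 1)) (Fin (2 * (j + 1) + 1)) k := Matrix.of fun b => (B b).1
  have hP : ∀ b, P b = (B b).1 := fun b => rfl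
  have hPφ : ∀ b, φ (P b) = 0 := fun b => (B b).2
  have hPv : ∀ b, bform H q (P b) v = 0 := fun b => congrArg Prod.fst (hPφ b)
  have hPv' : ∀ b, bform H q (P b) v' = 0 := fun b => congrArg Prod.snd (hPφ b)
  have hvm : ∀ b : Fin (2 * j + 1) → k, b ᵥ* P = ∑ l, b l • P l := fun b => vecMul_eq_sum b P
  have hcoe : ∀ b : Fin (2 * j + 1) → k, b ᵥ* P = (∑ l, b l • B l : LinearMap.ker φ).1 := by
    intro b
    rw [hvm, Submodule.coe_sum]
    rfl
  have hdec : ∀ u : Fin (2 * (j + 1) + 1) → k, ∃ b : Fin (2 * j + 1) → k,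
      u = b ᵥ* P + (bform H q u v' - bform H q u v * g) • v + bform H q u v • v' := by
    intro u
    have hm : u - (bform H q u v' - bform H q u v * g) • v - bform H q u v • v' ∈
        LinearMap.ker φ := by
      rw [LinearMap.mem_ker, map_sub, map_sub, map_smul, map_smul, hφv, hφv', hφ]
      ext <;> simp
    refine ⟨B.repr ⟨_, hm⟩, ?_⟩
    rw [hcoe, B.sum_repr]
    show u = u - _ - _ + _ + _
    abel
  have hlin : ∀ (c : Fin (2 * (j + 1) + 1) → k) (b : Fin (2 * j + 1) → k) (s t : k),
      bform H q (b ᵥ* P + s • v + t • v') c =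
        bform H q (b ᵥ* P) c + s * bform H q v c + t * bform H q v' c := by
    intro c b s t
    show lin_CZF2 H q c _ = lin_CZF2 H q c _ + s * lin_CZF2 H q c _ + t * lin_CZF2 H q c _
    rw [map_add, map_add, map_smul, map_smul]
    rfl
  have hrow : ∀ b : Fin (2 * j + 1) → k,
      b ᵥ* (P * H * dg q P) = fun l => bform H q (b ᵥ* P) (P l) := by
    intro b
    rw [Matrix.mul_assoc, ← vecMul_vecMul, row_CZF2]
  have hdet : IsUnit (P * H * dg q P).det := by
    rw [isUnit_iff_ne_zero]
    intro hd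
    obtain ⟨b, hb, hb0⟩ := Matrix.exists_vecMul_eq_zero_iff.2 hd
    rw [hrow] at hb0
    have h2 : φ (b ᵥ* P) = 0 := by rw [hcoe]; exact (∑ l, b l • B l : LinearMap.ker φ).2
    have h3 : bform H q (b ᵥ* P) v = 0 := congrArg Prod.fst h2
    have h4 : bform H q (b ᵥ* P) v' = 0 := congrArg Prod.snd h2
    have h5 : ∀ u, bform H q u (b ᵥ* P) = 0 := by
      intro u
      obtain ⟨b', hb'⟩ := hdec u
      rw [hb', hlin, hsym _ v, hsym _ v', h3, h4, zero_pow hq, mul_zero, mul_zero, add_zero,
        add_zero, hvm b']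
      refine (bform_sum_left H b' (fun l => P l) (b ᵥ* P)).trans
        (Finset.sum_eq_zero fun l _ => ?_)
      rw [hsym, congrFun hb0 l, Pi.zero_apply, zero_pow hq, mul_zero]
    have h6 : b ᵥ* P = 0 := by
      refine hinj _ (funext fun a' => ?_)
      have h7 := single_CZF2 hq H (b ᵥ* P) a' 1
      rw [hsym, h5, zero_pow hq, one_pow, mul_one] at h7
      exact h7.symm
    rw [hcoe] at h6
    have h8 : (∑ l, b l • B l : LinearMap.ker φ) = 0 := Subtype.ext h6
    exact hb (funext (Fintype.linearIndependent_iff.1 B.linearIndependent b h8))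
  have hinv : P * H * dg q P * (P * H * dg q P)⁻¹ = 1 := Matrix.mul_nonsing_inv _ hdet
  refine ⟨j, rfl, ⟨Matrix.of fun _ => v, Matrix.of fun _ => v', Matrix.of fun _ => v' - g • v, P,
    P * H * dg q P, (P * H * dg q P)⁻¹, ?_, ?_, ?_, ?_, ?_, rfl, hinv, ?_, ?_⟩, rfl⟩
  · ext a b
    rw [gram_apply]
    exact h0
  · ext a b
    rw [gram_apply, hsym]
    show bform H q (P b) v ^ q = 0
    rw [hPv, zero_pow hq]
  · ext a b
    rw [gram_apply]
    exact hPv a
  · ext a b
    rw [gram_apply, Matrix.one_apply_eq]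
    exact h1
  · ext a b
    rw [gram_apply]
    exact hPv' a
  · intro a b
    rw [gram_apply, gram_apply, hsym]
  · have key : ∀ u : Fin (2 * (j + 1) + 1) → k,
        u ᵥ* (H * dg q (Matrix.of fun _ : Unit => v') * (Matrix.of fun _ : Unit => v) +
          H * dg q P * (P * H * dg q P)⁻¹ * P +
          H * dg q (Matrix.of fun _ : Unit => v) * (Matrix.of fun _ : Unit => v' - g • v)) = u := by
      intro u
      obtain ⟨b, hb⟩ := hdec u
      have h2 : u ᵥ* (H * dg q P) = b ᵥ* (P * H * dg q P) := by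
        rw [hrow, row_CZF2]
        funext l
        conv_lhs => rw [hb]
        rw [hlin, hsym _ v, hsym _ v', hPv, hPv', zero_pow hq, mul_zero, mul_zero, add_zero,
          add_zero]
      have h3 : u ᵥ* (H * dg q P * (P * H * dg q P)⁻¹ * P) = b ᵥ* P := by
        rw [← vecMul_vecMul, ← vecMul_vecMul, h2, vecMul_vecMul b, hinv, vecMul_one]
      have h4 : ∀ x y : Fin (2 * (j + 1) + 1) → k,
          u ᵥ* (H * dg q (Matrix.of fun _ : Unit => x) * (Matrix.of fun _ : Unit => y)) =
            bform H q u x • y := by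
        intro x y
        rw [← vecMul_vecMul, row_CZF2, vecMul_eq_sum]
        simp only [Finset.univ_unique, Finset.sum_singleton]
        rfl
      rw [vecMul_add, vecMul_add, h3, h4, h4]
      conv_rhs => rw [hb]
      module
    ext a b
    have h5 := congrFun (key (Pi.single a 1)) b
    rw [single_one_vecMul] at h5
    refine h5.trans ?_
    rw [Pi.single_apply, Matrix.one_apply]
    simp only [eq_comm]

end Pool.Agent.CXD
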