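import Pool.Agent.P.MP_2ce3e7_ag.CUD
import Pool.Agent.P.MP_2ce3e7_ag.CZF2

/-! Splitting off a hyperbolic plane. -/

set_option linter.unusedSectionVars false
set_option linter.unusedVariables false

open Matrix

noncomputable section

namespace Pool.Agent.CXD

variable {k : Type} [Field k] [Fintype k] {n n' r Q δ : ℕ} {σ : Type} [Fintype σ]
  [DecidableEq σ] {G : Matrix (Fin n) (Fin n) k} {η : k}

theorem Fk.exists_split (h : Fk G r Q δ η) {v : Fin n → k} (hv : v ≠ 0)
    (h0 : bform G r v v = 0) : ∃ n', n = n' + 2 ∧ ∃ F : Frm G r Unit n', F.w () = v := by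
  classical
  obtain ⟨Fr, hFr⟩ := h.fb k
  have hq : r ≠ 0 := by
    rintro rfl
    have := hFr 0
    rw [map_zero, pow_zero] at this
    exact zero_ne_one this
  have hη : η ≠ 0 := h.unit.ne_zero
  have hsurjF : Function.Surjective Fr := Finite.surjective_of_injective Fr.injective
  have hsym : ∀ x y : Fin n → k, bform G r y x = η * bform G r x y ^ r := h.swap
  have hz : ∀ x y : Fin n → k, bform G r x y = 0 → bform G r y x = 0 := by
    intro x y hxy
    rw [hsym x y, hxy, zero_pow hq, mul_zero]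
  have hinj : ∀ c : Fin n → k, c ᵥ* G = 0 → c = 0 := by
    intro c hc
    by_contra hne
    exact h.det.ne_zero (Matrix.exists_vecMul_eq_zero_iff.1 ⟨c, hne, hc⟩)
  obtain ⟨a, ha⟩ : ∃ a, (v ᵥ* G) a ≠ 0 := by
    by_contra hne
    push Not at hne
    exact hv (hinj v (funext hne))
  obtain ⟨v', h1⟩ : ∃ v' : Fin n → k, bform G r v v' = 1 := by
    obtain ⟨c, hc⟩ := hsurjF ((v ᵥ* G) a)⁻¹
    refine ⟨Pi.single a c, ?_⟩
    rw [single_CZF2 hq, ← hFr, hc, mul_inv_cancel₀ ha]
  have h1' : bform G r v' v = η := by rw [hsym, h1, one_pow, mul_one]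
  set g : k := bform G r v' v' with hg
  let φ : (Fin n → k) →ₗ[k] k × k := (lin_CZF2 G r v).prod (lin_CZF2 G r v')
  have hφ : ∀ u, φ u = (bform G r u v, bform G r u v') := fun u => rfl
  have hφv : φ v = (0, 1) := by rw [hφ, h0, h1]
  have hφv' : φ v' = (η, g) := by rw [hφ, h1']
  have hsurj : LinearMap.range φ = ⊤ := by
    rw [LinearMap.range_eq_top]
    rintro ⟨s, t⟩
    refine ⟨(η⁻¹ * s) • v' + (t - η⁻¹ * s * g) • v, ?_⟩
    rw [map_add, map_smul, map_smul, hφv, hφv']
    ext
    · simp only [Prod.fst_add, Prod.smul_fst, smul_eq_mul, mul_zero, add_zero]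
      field_simp
    · simp
  have hdim : Module.finrank k (LinearMap.ker φ) + 2 = n := by
    have h2 := LinearMap.finrank_range_add_finrank_ker φ
    rw [hsurj, finrank_top, Module.finrank_prod, Module.finrank_self, Module.finrank_fin_fun] at h2
    omega
  obtain ⟨m, hm⟩ : ∃ m, Module.finrank k (LinearMap.ker φ) = m := ⟨_, rfl⟩
  let B := Module.finBasisOfFinrankEq k (LinearMap.ker φ) hm
  let P : Matrix (Fin m) (Fin n) k := Matrix.of fun b => (B b).1
  have hP : ∀ b, P b = (B b).1 := fun b => rfl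
  have hPφ : ∀ b, φ (P b) = 0 := fun b => (B b).2
  have hPv : ∀ b, bform G r (P b) v = 0 := fun b => congrArg Prod.fst (hPφ b)
  have hPv' : ∀ b, bform G r (P b) v' = 0 := fun b => congrArg Prod.snd (hPφ b)
  have hvm : ∀ b : Fin m → k, b ᵥ* P = ∑ l, b l • P l := fun b => vecMul_eq_sum b P
  have hcoe : ∀ b : Fin m → k, b ᵥ* P = (∑ l, b l • B l : LinearMap.ker φ).1 := by
    intro b
    rw [hvm, Submodule.coe_sum]
    rfl
  have hdec : ∀ u : Fin n → k, ∃ b : Fin m → k,
      u = b ᵥ* P + (bform G r u v' - η⁻¹ * bform G r u v * g) • v +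
        (η⁻¹ * bform G r u v) • v' := by
    intro u
    have hmem : u - (bform G r u v' - η⁻¹ * bform G r u v * g) • v -
        (η⁻¹ * bform G r u v) • v' ∈ LinearMap.ker φ := by
      rw [LinearMap.mem_ker, map_sub, map_sub, map_smul, map_smul, hφv, hφv', hφ]
      ext
      · simp only [Prod.fst_sub, Prod.smul_fst, smul_eq_mul, mul_zero, sub_zero, Prod.fst_zero]
        field_simp
        ring
      · simp
    refine ⟨B.repr ⟨_, hmem⟩, ?_⟩
    rw [hcoe, B.sum_repr]
    show u = u - _ - _ + _ + _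
    abel
  have hlin : ∀ (c : Fin n → k) (b : Fin m → k) (s t : k),
      bform G r (b ᵥ* P + s • v + t • v') c =
        bform G r (b ᵥ* P) c + s * bform G r v c + t * bform G r v' c := by
    intro c b s t
    show lin_CZF2 G r c _ = lin_CZF2 G r c _ + s * lin_CZF2 G r c _ + t * lin_CZF2 G r c _
    rw [map_add, map_add, map_smul, map_smul]
    rfl
  have hrow : ∀ b : Fin m → k,
      b ᵥ* (P * G * dg r P) = fun l => bform G r (b ᵥ* P) (P l) := by
    intro b
    rw [Matrix.mul_assoc, ← vecMul_vecMul, row_CZF2]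
  have hdet : IsUnit (P * G * dg r P).det := by
    rw [isUnit_iff_ne_zero]
    intro hd
    obtain ⟨b, hb, hb0⟩ := Matrix.exists_vecMul_eq_zero_iff.2 hd
    rw [hrow] at hb0
    have h2 : φ (b ᵥ* P) = 0 := by rw [hcoe]; exact (∑ l, b l • B l : LinearMap.ker φ).2
    have h3 : bform G r (b ᵥ* P) v = 0 := congrArg Prod.fst h2
    have h4 : bform G r (b ᵥ* P) v' = 0 := congrArg Prod.snd h2
    have h5 : ∀ u, bform G r u (b ᵥ* P) = 0 := by
      intro u
      obtain ⟨b', hb'⟩ := hdec u
      rw [hb', hlin, hz _ _ h3, hz _ _ h4, mul_zero, mul_zero, add_zero, add_zero, hvm b']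
      refine (bform_sum_left G b' (fun l => P l) (b ᵥ* P)).trans
        (Finset.sum_eq_zero fun l _ => ?_)
      rw [hz _ _ (congrFun hb0 l), mul_zero]
    have h6 : b ᵥ* P = 0 := by
      refine hinj _ (funext fun a' => ?_)
      have h7 := single_CZF2 hq G (b ᵥ* P) a' 1
      rw [hz _ _ (h5 _), one_pow, mul_one] at h7
      exact h7.symm
    rw [hcoe] at h6
    have h8 : (∑ l, b l • B l : LinearMap.ker φ) = 0 := Subtype.ext h6
    exact hb (funext (Fintype.linearIndependent_iff.1 B.linearIndependent b h8))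
  have hinv : P * G * dg r P * (P * G * dg r P)⁻¹ = 1 := Matrix.mul_nonsing_inv _ hdet
  refine ⟨m, by omega, ⟨Matrix.of fun _ => v, Matrix.of fun _ => v',
    Matrix.of fun _ => η⁻¹ • (v' - g • v), P,
    P * G * dg r P, (P * G * dg r P)⁻¹, ?_, ?_, ?_, ?_, ?_, rfl, hinv, ?_⟩, rfl⟩
  · ext a b
    rw [gram_apply]
    exact h0
  · ext a b
    rw [gram_apply]
    exact hz _ _ (hPv b)
  · ext a b
    rw [gram_apply]
    exact hPv a
  · ext a b
    rw [gram_apply, Matrix.one_apply_eq]
    exact h1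
  · ext a b
    rw [gram_apply]
    exact hPv' a
  · have key : ∀ u : Fin n → k,
        u ᵥ* (G * dg r (Matrix.of fun _ : Unit => v') * (Matrix.of fun _ : Unit => v) +
          G * dg r P * (P * G * dg r P)⁻¹ * P +
          G * dg r (Matrix.of fun _ : Unit => v) *
            (Matrix.of fun _ : Unit => η⁻¹ • (v' - g • v))) = u := by
      intro u
      obtain ⟨b, hb⟩ := hdec u
      have h2 : u ᵥ* (G * dg r P) = b ᵥ* (P * G * dg r P) := by
        rw [hrow, row_CZF2]
        funext l
        conv_lhs => rw [hb]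
        rw [hlin, hz _ _ (hPv l), hz _ _ (hPv' l), mul_zero, mul_zero, add_zero, add_zero]
      have h3 : u ᵥ* (G * dg r P * (P * G * dg r P)⁻¹ * P) = b ᵥ* P := by
        rw [← vecMul_vecMul, ← vecMul_vecMul, h2, vecMul_vecMul b, hinv, vecMul_one]
      have h4 : ∀ x y : Fin n → k,
          u ᵥ* (G * dg r (Matrix.of fun _ : Unit => x) * (Matrix.of fun _ : Unit => y)) =
            bform G r u x • y := by
        intro x y
        rw [← vecMul_vecMul, row_CZF2, vecMul_eq_sum]
        simp only [Finset.univ_unique, Finset.sum_singleton]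
        rfl
      rw [vecMul_add, vecMul_add, h3, h4, h4]
      conv_rhs => rw [hb]
      module
    ext a b
    have h5 := congrFun (key (Pi.single a 1)) b
    rw [single_one_vecMul] at h5
    refine h5.trans ?_
    rw [Pi.single_apply, Matrix.one_apply]
    simp only [eq_comm]

theorem Frm.exists_next (h : Fk G r Q δ η) (F : Frm G r σ n') {v : Fin n' → k} (hv : v ≠ 0)
    (h0 : bform F.H r v v = 0) : ∃ n'', n' = n'' + 2 ∧ ∃ F' : Frm G r (σ ⊕ Unit) n'',
      F'.w = fromRows F.w (Matrix.of (fun _ : Unit => v) * F.P) := by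
  obtain ⟨n'', hn, F₁, h₁⟩ := (h.frame F).exists_split hv h0
  obtain ⟨F', hF'⟩ := F.exists_comp (h.fb k) F₁
  refine ⟨n'', hn, F', hF'.trans ?_⟩
  congr 2
  ext a b
  exact congrFun h₁ b

end Pool.Agent.CXD
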