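import Pool.Agent.P.MP_2ce3e7_ag.CUD

/-! Passing between the space and the complement of a frame. -/

set_option linter.unusedSectionVars false
set_option linter.unusedVariables false

open Matrix

noncomputable section

namespace Pool.Agent.CXD

variable {k R R' : Type} [Field k] [Fintype k] [CommRing R] [Algebra k R] [CommRing R']
  [Algebra k R'] {n n' m d s j r Q δ : ℕ} {σ α : Type} [Fintype σ] [DecidableEq σ]
  {G : Matrix (Fin n) (Fin n) k} {η : k} (F : Frm G r σ n')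

/-- the rows of `w` and the rows of `u * P` -/
def Frm.up (ε : Fin d ≃ σ ⊕ Fin s) (u : Matrix (Fin s) (Fin n') R) : Matrix (Fin d) (Fin n) R :=
  (fromRows (al R F.w) (u * al R F.P)).submatrix ε id

/-- a dual family -/
def Frm.dn (ε : Fin d ≃ σ ⊕ Fin s) (Y : Matrix (Fin n') (Fin s) R) : Matrix (Fin n) (Fin d) R :=
  (fromCols (al R (G * dg r F.w')) (al R (G * dg r F.P * F.Hi) * Y)).submatrix id ε

/-- the coordinates in the basis `P` -/
def Frm.cq (u : Matrix α (Fin n) R) : Matrix α (Fin n') R := u * al R (G * dg r F.P * F.Hi)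

variable (ε : Fin d ≃ σ ⊕ Fin s) {u : Matrix (Fin s) (Fin n') R} {Y : Matrix (Fin n') (Fin s) R}

theorem al_one_CUE {β : Type} [DecidableEq β] : al R (1 : Matrix β β k) = 1 :=
  Matrix.map_one _ (map_zero _) (map_one _)

theorem al_zero_CUE {β γ : Type} : al R (0 : Matrix β γ k) = 0 :=
  Matrix.map_zero _ (map_zero _)

theorem al_add_CUE {β γ : Type} (M N : Matrix β γ k) : al R (M + N) = al R M + al R N :=
  Matrix.map_add _ (map_add _) M N

theorem Frm.wD_CUE : al R F.w * al R (G * dg r F.w') = 1 := by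
  rw [← al_mul, ← Matrix.mul_assoc, F.ww', al_one_CUE]

theorem Frm.wE_CUE : al R F.w * al R (G * dg r F.P * F.Hi) = 0 := by
  rw [← al_mul, ← Matrix.mul_assoc, ← Matrix.mul_assoc, F.wP, Matrix.zero_mul, al_zero_CUE]

theorem Frm.PD_CUE : al R F.P * al R (G * dg r F.w') = 0 := by
  rw [← al_mul, ← Matrix.mul_assoc, F.Pw', al_zero_CUE]

theorem Frm.PE_CUE : al R F.P * al R (G * dg r F.P * F.Hi) = 1 := by
  rw [← al_mul, ← Matrix.mul_assoc, ← Matrix.mul_assoc, F.PP, F.inv, al_one_CUE]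

theorem gram_al_CUE {β γ : Type} (M : Matrix β (Fin n) k) (N : Matrix γ (Fin n) k) :
    al R M * al R G * dg r (al R N) = al R (M * G * dg r N) := by
  rw [al_mul, al_mul, al_dg]

theorem Frm.up_map (f : R →ₐ[k] R') (u : Matrix (Fin s) (Fin n') R) :
    (F.up ε u).map f = F.up ε (u.map f) := by
  have e : (u * al R F.P).map f = u.map f * al R' F.P := by
    rw [← al_map f F.P]
    exact Matrix.map_mul (f := f.toRingHom)
  unfold Frm.up
  rw [← e, ← al_map f F.w, ← Matrix.fromRows_map]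
  rfl

theorem Frm.dn_al (Y : Matrix (Fin n') (Fin s) k) : al R (F.dn ε Y) = F.dn ε (al R Y) := by
  unfold Frm.dn
  rw [← al_mul, al_self, al_self, ← Matrix.fromCols_map]
  rfl

theorem Frm.cq_map (f : R →ₐ[k] R') (u : Matrix α (Fin n) R) :
    (F.cq u).map f = F.cq (u.map f) := by
  unfold Frm.cq
  rw [← al_map f]
  exact Matrix.map_mul (f := f.toRingHom)

theorem Frm.cq_mul {β : Type} [Fintype β] (c : Matrix α β R) (u : Matrix β (Fin n) R) :
    F.cq (c * u) = c * F.cq u := Matrix.mul_assoc _ _ _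

theorem Frm.cq_P (u : Matrix α (Fin n') R) : F.cq (u * al R F.P) = u := by
  unfold Frm.cq
  rw [Matrix.mul_assoc, F.PE_CUE, Matrix.mul_one]

theorem Frm.cq_w : F.cq (al R F.w) = 0 := by
  exact F.wE_CUE

theorem Frm.prod_CUE (u : Matrix (Fin s) (Fin n') R) (Y : Matrix (Fin n') (Fin s) R) :
    F.up ε u * F.dn ε Y =
      (fromBlocks (1 : Matrix σ σ R) (0 : Matrix σ (Fin s) R) 0 (u * Y)).submatrix ε ε := by
  have e : F.up ε u * F.dn ε Y = (fromRows (al R F.w) (u * al R F.P) *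
      fromCols (al R (G * dg r F.w')) (al R (G * dg r F.P * F.Hi) * Y)).submatrix ε ε := rfl
  have e2 : u * al R F.P * (al R (G * dg r F.P * F.Hi) * Y) = u * Y := by
    rw [Matrix.mul_assoc, ← Matrix.mul_assoc (al R F.P), F.PE_CUE, Matrix.one_mul]
  rw [e, fromRows_mul_fromCols, F.wD_CUE, ← Matrix.mul_assoc (al R F.w), F.wE_CUE, Matrix.zero_mul,
    Matrix.mul_assoc u, F.PD_CUE, Matrix.mul_zero, e2]

theorem Frm.det_up_dn (u : Matrix (Fin s) (Fin n') R) (Y : Matrix (Fin n') (Fin s) R) :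
    (F.up ε u * F.dn ε Y).det = (u * Y).det := by
  rw [F.prod_CUE, det_submatrix_equiv_self, det_fromBlocks_zero₂₁, det_one, one_mul]

theorem Frm.up_dn (h : u * Y = 1) : F.up ε u * F.dn ε Y = 1 := by
  rw [F.prod_CUE, h, fromBlocks_one, submatrix_one_equiv]

theorem Frm.up_mul (g : Matrix (Fin s) (Fin s) R) (u : Matrix (Fin s) (Fin n') R) :
    ∃ g' : Matrix (Fin d) (Fin d) R, F.up ε (g * u) = g' * F.up ε u ∧ g'.det = g.det := by
  refine ⟨(fromBlocks (1 : Matrix σ σ R) (0 : Matrix σ (Fin s) R) 0 g).submatrix ε ε, ?_, ?_⟩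
  · unfold Frm.up
    rw [Matrix.submatrix_mul_equiv, fromBlocks_mul_fromRows, Matrix.one_mul, Matrix.zero_mul,
      Matrix.zero_mul, add_zero, zero_add, Matrix.mul_assoc]
  · rw [det_submatrix_equiv_self, det_fromBlocks_zero₂₁, det_one, one_mul]

theorem Frm.w_up (u : Matrix (Fin s) (Fin n') R) :
    ∃ c : Matrix σ (Fin d) R, al R F.w = c * F.up ε u := by
  refine ⟨(fromCols (1 : Matrix σ σ R) (0 : Matrix σ (Fin s) R)).submatrix id ε, ?_⟩
  rw [Frm.up, Matrix.submatrix_mul_equiv, Matrix.submatrix_id_id, fromCols_mul_fromRows,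
    Matrix.one_mul, Matrix.zero_mul, add_zero]

theorem Frm.P_up (c : Matrix α (Fin s) R) (u : Matrix (Fin s) (Fin n') R) :
    ∃ c' : Matrix α (Fin d) R, c * u * al R F.P = c' * F.up ε u := by
  refine ⟨(fromCols (0 : Matrix α σ R) c).submatrix id ε, ?_⟩
  rw [Frm.up, Matrix.submatrix_mul_equiv, Matrix.submatrix_id_id, fromCols_mul_fromRows,
    Matrix.zero_mul, zero_add, Matrix.mul_assoc]

theorem Frm.cq_up : ∃ (E : Matrix (Fin d) (Fin s) R) (E' : Matrix (Fin s) (Fin d) R),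
    E' * E = 1 ∧ ∀ u : Matrix (Fin s) (Fin n') R, F.cq (F.up ε u) = E * u := by
  refine ⟨(fromRows (0 : Matrix σ (Fin s) R) (1 : Matrix (Fin s) (Fin s) R)).submatrix ε id,
    (fromCols (0 : Matrix (Fin s) σ R) (1 : Matrix (Fin s) (Fin s) R)).submatrix id ε, ?_, ?_⟩
  · rw [Matrix.submatrix_mul_equiv, Matrix.submatrix_id_id, fromCols_mul_fromRows,
      Matrix.zero_mul, zero_add, Matrix.one_mul]
  · intro u
    have e1 : F.cq (F.up ε u) = (fromRows (al R F.w) (u * al R F.P) *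
        al R (G * dg r F.P * F.Hi)).submatrix ε id := rfl
    have e2 : (fromRows (0 : Matrix σ (Fin s) R) (1 : Matrix (Fin s) (Fin s) R)).submatrix ε id *
        u = (fromRows (0 : Matrix σ (Fin s) R) (1 : Matrix (Fin s) (Fin s) R) * u).submatrix ε id :=
      rfl
    rw [e1, e2, fromRows_mul, fromRows_mul, F.wE_CUE, Matrix.mul_assoc, F.PE_CUE, Matrix.mul_one,
      Matrix.zero_mul, Matrix.one_mul]

theorem Frm.eq_up {v : Matrix α (Fin n) R} (hv : v * al R G * dg r (al R F.w) = 0)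
    {c : Matrix α (Fin s) R} (hc : F.cq v = c * u) :
    ∃ g : Matrix α (Fin d) R, v = g * F.up ε u := by
  refine ⟨(fromCols (v * al R (G * dg r F.w')) c).submatrix id ε, ?_⟩
  have e1 : v * al R (G * dg r F.w' * F.w + G * dg r F.P * F.Hi * F.P + G * dg r F.w * F.z) =
      v := by
    rw [F.dec, al_one_CUE, Matrix.mul_one]
  have e2 : v * al R (G * dg r F.w * F.z) = 0 := by
    rw [al_mul, al_mul, al_dg, ← Matrix.mul_assoc, ← Matrix.mul_assoc, hv, Matrix.zero_mul]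
  have e3 : v * al R (G * dg r F.P * F.Hi * F.P) = c * (u * al R F.P) := by
    rw [al_mul, ← Matrix.mul_assoc, ← Matrix.mul_assoc c, ← hc]
    rfl
  rw [al_add_CUE, al_add_CUE, Matrix.mul_add, Matrix.mul_add, e2, e3, add_zero, al_mul,
    ← Matrix.mul_assoc] at e1
  rw [Frm.up, Matrix.submatrix_mul_equiv, Matrix.submatrix_id_id, fromCols_mul_fromRows]
  exact e1.symm

theorem Frm.up_up_CUE (ε₁ : Fin m ≃ σ ⊕ Fin j) (c : Matrix (Fin j) (Fin s) R)
    (b : Matrix (Fin s) (Fin n') R) :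
    ∃ g : Matrix (Fin m) (Fin d) R, F.up ε₁ (c * b) = g * F.up ε b := by
  obtain ⟨c₁, h₁⟩ := F.w_up ε b
  obtain ⟨c₂, h₂⟩ := F.P_up ε c b
  refine ⟨(fromRows c₁ c₂).submatrix ε₁ id, ?_⟩
  have e : (fromRows c₁ c₂).submatrix ε₁ id * F.up ε b =
      (fromRows c₁ c₂ * F.up ε b).submatrix ε₁ id := rfl
  rw [e, fromRows_mul, ← h₁, ← h₂]
  rfl

theorem Frm.pw_up_CUE (hk : Fintype.card k = Q) (a : Matrix (Fin s) (Fin n') R) :
    pw Q (F.up ε a) = F.up ε (pw Q a) := by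
  have e : pw Q (F.up ε a) =
      (fromRows (pw Q (al R F.w)) (pw Q (a * al R F.P))).submatrix ε id := by
    unfold pw
    rw [← Matrix.fromRows_map]
    rfl
  rw [e, (fq_of_card hk R).pw_mul, pw_al hk, pw_al hk]
  rfl

theorem Frm.gram_up_CUE (ε₁ : Fin m ≃ σ ⊕ Fin j) (hr : Fb R r) {a : Matrix (Fin j) (Fin n') R}
    {b : Matrix (Fin s) (Fin n') R} (h : b * al R F.H * dg r a = 0) :
    F.up ε b * al R G * dg r (F.up ε₁ a) = 0 := by
  have e : F.up ε b * al R G * dg r (F.up ε₁ a) = (fromRows (al R F.w) (b * al R F.P) * al R G *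
      dg r (fromRows (al R F.w) (a * al R F.P))).submatrix ε ε₁ := rfl
  have e1 : dg r (fromRows (al R F.w) (a * al R F.P)) =
      fromCols (dg r (al R F.w)) (dg r (a * al R F.P)) := by
    ext x (y | y) <;> rfl
  have e2 : al R F.w * al R G * dg r (al R F.w) = 0 := by
    rw [gram_al_CUE, F.ww, al_zero_CUE]
  have e3 : al R F.w * al R G * (dg r (al R F.P) * dg r a) = 0 := by
    rw [← Matrix.mul_assoc, gram_al_CUE, F.wP, al_zero_CUE, Matrix.zero_mul]
  have e4 : b * al R F.P * al R G * dg r (al R F.w) = 0 := by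
    rw [Matrix.mul_assoc b, Matrix.mul_assoc b, gram_al_CUE, F.Pw, al_zero_CUE, Matrix.mul_zero]
  have e5 : b * al R F.P * al R G * (dg r (al R F.P) * dg r a) = 0 := by
    rw [← Matrix.mul_assoc, Matrix.mul_assoc b, Matrix.mul_assoc b, gram_al_CUE, F.PP, h]
  rw [e, e1, fromRows_mul, fromRows_mul_fromCols, hr.dg_mul, e2, e3, e4, e5, fromBlocks_zero]
  rfl

theorem Frm.pt_up (h : Fk G r Q δ η) (ε₁ : Fin m ≃ σ ⊕ Fin j) (ε₂ : Fin (m + 1) ≃ σ ⊕ Fin (j + 1))
    {a : Matrix (Fin j) (Fin n') R} {b : Matrix (Fin (j + 1)) (Fin n') R}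
    (hp : Pt (al R F.H) r Q a b) : Pt (al R G) r Q (F.up ε₁ a) (F.up ε₂ b) := by
  obtain ⟨c, hc⟩ := hp.sub
  obtain ⟨c', hc'⟩ := hp.frob
  refine ⟨?_, ?_, ?_, fun hr => ?_⟩
  · rw [hc]
    exact F.up_up_CUE ε₂ ε₁ c b
  · rw [F.pw_up_CUE ε₁ h.card, hc']
    exact F.up_up_CUE ε₂ ε₁ c' b
  · exact F.gram_up_CUE ε₂ ε₁ (h.fb R) hp.perp
  · exact F.gram_up_CUE ε₂ ε₂ (h.fb R) (hp.iso hr)

end Pool.Agent.CXD
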