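import Pool.Agent.P.MP_2ce3e7_ag.CUE

/-! Reduction of a point to the complement of a frame. -/

set_option linter.unusedSectionVars false
set_option linter.unusedVariables false

open Matrix

noncomputable section

namespace Pool.Agent.CXD

variable {k L : Type} [Field k] [Fintype k] [Field L] [Algebra k L] {n n' m d s j r Q δ : ℕ}
  {σ : Type} [Fintype σ] [DecidableEq σ] {G : Matrix (Fin n) (Fin n) k} {η : k}
  (F : Frm G r σ n')

theorem exists_inv_CUE2 (u : Matrix (Fin s) (Fin n) L) (h : ∀ x, x ᵥ* u = 0 → x = 0) :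
    ∃ Y : Matrix (Fin n) (Fin s) L, u * Y = 1 := by
  have hk : LinearMap.ker (Matrix.toLinearMapRight' u) = ⊥ := by
    rw [LinearMap.ker_eq_bot']
    intro x hx
    exact h x hx
  obtain ⟨g, hg⟩ := LinearMap.exists_leftInverse_of_injective _ hk
  refine ⟨LinearMap.toMatrixRight' g, ?_⟩
  apply (Matrix.toLinearMapRight' (R := L)).injective
  rw [Matrix.toLinearMapRight'_mul, Matrix.toLinearMapRight'_one]
  have e : Matrix.toLinearMapRight' (LinearMap.toMatrixRight' g) = g :=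
    (LinearMap.toMatrixRight' (R := L)).symm_apply_apply g
  rw [e, hg]

/-- a basis of the row space -/
theorem exists_basis_rows {α : Type} [Fintype α] (c : Matrix α (Fin n) L) (h : c.rank = s) :
    ∃ (u : Matrix (Fin s) (Fin n) L) (C : Matrix α (Fin s) L) (C' : Matrix (Fin s) α L)
      (Y : Matrix (Fin n) (Fin s) L), c = C * u ∧ u = C' * c ∧ u * Y = 1 := by
  classical
  rw [Matrix.rank_eq_finrank_span_row] at h
  let B := Module.finBasisOfFinrankEq L (Submodule.span L (Set.range c.row)) h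
  have hm : ∀ a, c a ∈ Submodule.span L (Set.range c.row) := fun a =>
    Submodule.subset_span ⟨a, rfl⟩
  have hc : ∀ i, ∃ f : α → L, ∑ a, f a • c.row a = (B i : Fin n → L) := fun i =>
    (Submodule.mem_span_range_iff_exists_fun L).1 (B i).2
  choose f hf using hc
  obtain ⟨Y, hY⟩ := exists_inv_CUE2 (Matrix.of fun i => (B i : Fin n → L)) (by
    intro x hx
    have hli : LinearIndependent L fun i => (B i : Fin n → L) :=
      B.linearIndependent.map' (Submodule.subtype _) (Submodule.ker_subtype _)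
    funext i
    refine Fintype.linearIndependent_iff.1 hli x ?_ i
    funext b
    have := congrFun hx b
    simpa [Matrix.vecMul, dotProduct, Finset.sum_apply] using this)
  refine ⟨Matrix.of fun i => (B i : Fin n → L), Matrix.of fun a i => B.repr ⟨c a, hm a⟩ i,
    Matrix.of f, Y, ?_, ?_, hY⟩
  · ext a b
    have e := congrArg (fun y : Submodule.span L (Set.range c.row) => (y : Fin n → L) b)
      (B.sum_repr ⟨c a, hm a⟩)
    simp only [Submodule.coe_sum, Submodule.coe_smul, Finset.sum_apply, Pi.smul_apply,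
      smul_eq_mul] at e
    simp only [Matrix.mul_apply, Matrix.of_apply]
    exact e.symm
  · ext i b
    have e := congrFun (hf i) b
    simp only [Finset.sum_apply, Pi.smul_apply, smul_eq_mul] at e
    simp only [Matrix.mul_apply, Matrix.of_apply]
    exact e.symm

theorem Frm.dec_CUE2 {α : Type} {v : Matrix α (Fin n) L}
    (hv : v * al L G * dg r (al L F.w) = 0) :
    v = v * al L (G * dg r F.w') * al L F.w + F.cq v * al L F.P := by
  have e := congrArg (al L) F.dec
  have e1 : al L (1 : Matrix (Fin n) (Fin n) k) = 1 :=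
    Matrix.map_one _ (map_zero _) (map_one _)
  have ea : ∀ M N : Matrix (Fin n) (Fin n) k, al L (M + N) = al L M + al L N := fun M N =>
    Matrix.map_add _ (map_add _) M N
  rw [e1, ea, ea, al_mul _ F.w, al_mul _ F.P, al_mul _ F.z, al_mul G (dg r F.w), al_dg] at e
  have e2 : v = v * (1 : Matrix (Fin n) (Fin n) L) := (Matrix.mul_one v).symm
  rw [← e, Matrix.mul_add, Matrix.mul_add] at e2
  simp only [← Matrix.mul_assoc] at e2
  rw [hv, Matrix.zero_mul, add_zero] at e2
  exact e2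

theorem Frm.ww'_CUE2 : al L F.w * al L (G * dg r F.w') = 1 := by
  rw [← al_mul, ← Matrix.mul_assoc, F.ww']
  exact Matrix.map_one _ (map_zero _) (map_one _)

theorem Frm.cqP_CUE2 {v : Matrix (Fin d) (Fin n) L}
    (hv : v * al L G * dg r (al L F.w) = 0) {c : Matrix σ (Fin d) L} (hw : al L F.w = c * v) :
    ∃ e : Matrix (Fin d) (Fin d) L, F.cq v * al L F.P = e * v := by
  refine ⟨1 - v * al L (G * dg r F.w') * c, ?_⟩
  rw [Matrix.sub_mul, Matrix.one_mul, Matrix.mul_assoc _ c v, ← hw, eq_sub_iff_add_eq, add_comm]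
  exact (F.dec_CUE2 hv).symm

theorem Frm.rank_cq {v : Matrix (Fin d) (Fin n) L} {Y : Matrix (Fin n) (Fin d) L} (hY : v * Y = 1)
    (hv : v * al L G * dg r (al L F.w) = 0) {c : Matrix σ (Fin d) L} (hw : al L F.w = c * v)
    (hd : Fintype.card σ + s = d) : (F.cq v).rank = s := by
  have hker : LinearMap.ker (F.cq v).vecMulLinear = LinearMap.range c.vecMulLinear := by
    ext x
    rw [LinearMap.mem_ker, LinearMap.mem_range]
    simp only [Matrix.vecMulLinear_apply]
    constructor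
    · intro hx
      refine ⟨x ᵥ* (v * al L (G * dg r F.w')), ?_⟩
      have e : x ᵥ* v = (x ᵥ* (v * al L (G * dg r F.w')) ᵥ* c) ᵥ* v := by
        rw [Matrix.vecMul_vecMul, Matrix.vecMul_vecMul, ← hw]
        conv_lhs => rw [F.dec_CUE2 hv]
        rw [Matrix.vecMul_add, ← Matrix.vecMul_vecMul x (F.cq v), hx, Matrix.zero_vecMul, add_zero]
      have e2 := congrArg (· ᵥ* Y) e
      simp only [Matrix.vecMul_vecMul _ v Y, hY, Matrix.vecMul_one] at e2
      exact e2.symm
    · rintro ⟨y, rfl⟩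
      rw [Matrix.vecMul_vecMul, ← F.cq_mul, ← hw, F.cq_w, Matrix.vecMul_zero]
  have hinj : Function.Injective c.vecMulLinear := by
    intro x y hxy
    have e := congrArg (· ᵥ* (v * al L (G * dg r F.w'))) hxy
    simp only [Matrix.vecMulLinear_apply, Matrix.vecMul_vecMul] at e
    rwa [← Matrix.mul_assoc, ← hw, F.ww'_CUE2, Matrix.vecMul_one, Matrix.vecMul_one] at e
  have h1 := LinearMap.finrank_range_add_finrank_ker (F.cq v).vecMulLinear
  rw [hker, LinearMap.finrank_range_of_inj hinj, range_vecMulLinear,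
    ← Matrix.rank_eq_finrank_span_row, Module.finrank_fintype_fun_eq_card,
    Module.finrank_fintype_fun_eq_card, Fintype.card_fin] at h1
  omega

theorem Frm.reduce (h : Fk G r Q δ η) (ε₁ : Fin m ≃ σ ⊕ Fin j) (ε₂ : Fin (m + 1) ≃ σ ⊕ Fin (j + 1))
    {a : Matrix (Fin m) (Fin n) L} {b : Matrix (Fin (m + 1)) (Fin n) L}
    (hp : Pt (al L G) r Q a b) {Y₁ : Matrix (Fin n) (Fin m) L} (h₁ : a * Y₁ = 1)
    {Y₂ : Matrix (Fin n) (Fin (m + 1)) L} (h₂ : b * Y₂ = 1) {c : Matrix σ (Fin m) L}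
    (hw : al L F.w = c * a) :
    ∃ (a' : Matrix (Fin j) (Fin n') L) (b' : Matrix (Fin (j + 1)) (Fin n') L),
      Pt (al L F.H) r Q a' b' ∧ (∃ Y : Matrix (Fin n') (Fin j) L, a' * Y = 1) ∧
      (∃ Y : Matrix (Fin n') (Fin (j + 1)) L, b' * Y = 1) ∧
      (∃ g : Matrix (Fin m) (Fin m) L, a = g * F.up ε₁ a') ∧
      ∃ g : Matrix (Fin (m + 1)) (Fin (m + 1)) L, b = g * F.up ε₂ b' := by
  have hr := h.fb L
  have hQ := fq_of_card h.card L
  obtain ⟨c₀, hc₀⟩ := hp.sub
  obtain ⟨c₁, hc₁⟩ := hp.frob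
  have hb : b * al L G * dg r (al L F.w) = 0 := by
    rw [hw, hr.dg_mul, ← Matrix.mul_assoc, hp.perp, Matrix.zero_mul]
  have ha : a * al L G * dg r (al L F.w) = 0 := by
    rw [hc₀, Matrix.mul_assoc c₀, Matrix.mul_assoc c₀, hb, Matrix.mul_zero]
  have hwb : al L F.w = c * c₀ * b := by rw [Matrix.mul_assoc, ← hc₀, hw]
  have d₁ : Fintype.card σ + j = m := by
    have := Fintype.card_congr ε₁
    simp only [Fintype.card_fin, Fintype.card_sum] at this
    exact this.symm
  have d₂ : Fintype.card σ + (j + 1) = m + 1 := by omega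
  obtain ⟨a', C₁, C₁', Z₁, ea, ea', hZ₁⟩ := exists_basis_rows _ (F.rank_cq h₁ ha hw d₁)
  obtain ⟨b', C₂, C₂', Z₂, eb, eb', hZ₂⟩ := exists_basis_rows _ (F.rank_cq h₂ hb hwb d₂)
  obtain ⟨e₁, he₁⟩ := F.cqP_CUE2 ha hw
  obtain ⟨e₂, he₂⟩ := F.cqP_CUE2 hb hwb
  have hH : al L F.H = al L F.P * al L G * dg r (al L F.P) := by
    rw [← F.PP, al_mul, al_mul, al_dg]
  have key : ∀ {t : ℕ} (u : Matrix (Fin t) (Fin n) L) (e : Matrix (Fin t) (Fin t) L),
      F.cq u * al L F.P = e * u → b * al L G * dg r u = 0 →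
      F.cq b * al L F.H * dg r (F.cq u) = 0 := by
    intro t u e he hu
    have : F.cq b * al L F.H * dg r (F.cq u) =
        F.cq b * al L F.P * al L G * dg r (F.cq u * al L F.P) := by
      rw [hH, hr.dg_mul]
      simp only [Matrix.mul_assoc]
    rw [this, he, he₂, hr.dg_mul, ← Matrix.mul_assoc, Matrix.mul_assoc e₂, Matrix.mul_assoc e₂, hu,
      Matrix.mul_zero, Matrix.zero_mul]
  refine ⟨a', b', ⟨⟨C₁' * c₀ * C₂, ?_⟩, ⟨pw Q C₁' * c₁ * C₂, ?_⟩, ?_, fun h1 => ?_⟩, ⟨Z₁, hZ₁⟩,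
    ⟨Z₂, hZ₂⟩, F.eq_up ε₁ ha ea, F.eq_up ε₂ hb eb⟩
  · rw [Matrix.mul_assoc, ← eb, Matrix.mul_assoc, ← F.cq_mul, ← hc₀]
    exact ea'
  · have e : pw Q (F.cq a) = F.cq (pw Q a) := by
      unfold Frm.cq
      rw [hQ.pw_mul, pw_al h.card]
    rw [Matrix.mul_assoc, ← eb, Matrix.mul_assoc, ← F.cq_mul, ← hc₁, ← e, ← hQ.pw_mul, ← ea']
  · rw [ea', eb', hr.dg_mul, ← Matrix.mul_assoc, Matrix.mul_assoc C₂', Matrix.mul_assoc C₂',
      key a e₁ he₁ hp.perp, Matrix.mul_zero, Matrix.zero_mul]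
  · rw [eb', hr.dg_mul, ← Matrix.mul_assoc, Matrix.mul_assoc C₂', Matrix.mul_assoc C₂',
      key b e₂ he₂ (hp.iso h1), Matrix.mul_zero, Matrix.zero_mul]

end Pool.Agent.CXD
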