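import Pool.Agent.P.MP_2ce3e7_ag.CZG

/-! Isotropic subspaces without rational vectors. -/

set_option linter.unusedSectionVars false
set_option linter.unusedVariables false

open Matrix Module

noncomputable section

namespace Pool.Agent.CXD

variable {L : Type} [Field L]

/-- the chain of intersections ends in a line -/
theorem exists_line {V : Type} [AddCommGroup V] [Module L V] [FiniteDimensional L V]
    (Φ : Submodule L V ≃o Submodule L V) (hΦ : ∀ T, finrank L (Φ T) = finrank L T)
    {U W : Submodule L V} (h1 : U ≤ W) (h2 : Φ U ≤ W) (h3 : finrank L W ≤ finrank L U + 1)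
    (h4 : U ≠ ⊥) : ∃ y, y ≠ 0 ∧ ∀ l < finrank L U, y ∈ (Φ^[l]) U := by
  have key : ∀ j : ℕ, ∃ T W' : Submodule L V, T ≤ W' ∧ Φ T ≤ W' ∧
      finrank L W' ≤ finrank L T + 1 ∧ finrank L U ≤ finrank L T + j ∧
      ∀ l ≤ j, T ≤ (Φ^[l]) U := by
    intro j
    induction j with
    | zero =>
      refine ⟨U, W, h1, h2, h3, le_rfl, fun l hl => ?_⟩
      rw [Nat.le_zero.1 hl]
      exact le_rfl
    | succ j ih =>
      obtain ⟨T, W', a1, a2, a3, a4, a5⟩ := ih
      have e1 := Submodule.finrank_sup_add_finrank_inf_eq T (Φ T)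
      have e2 : finrank L (T ⊔ Φ T : Submodule L V) ≤ finrank L W' :=
        Submodule.finrank_mono (sup_le a1 a2)
      have e3 := hΦ T
      refine ⟨T ⊓ Φ T, Φ T, inf_le_right, Φ.monotone inf_le_left, by omega, by omega,
        fun l hl => ?_⟩
      rcases l with _ | l
      · exact inf_le_left.trans (a5 0 (Nat.zero_le _))
      · rw [Function.iterate_succ_apply']
        exact inf_le_right.trans (Φ.monotone (a5 l (by omega)))
  have hU : finrank L U ≠ 0 := fun h => h4 (Submodule.finrank_eq_zero.1 h)
  obtain ⟨T, W', -, -, -, a4, a5⟩ := key (finrank L U - 1)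
  have hT : T ≠ ⊥ := fun h => by
    have : finrank L T = 0 := Submodule.finrank_eq_zero.2 h
    omega
  obtain ⟨y, hy, hy0⟩ := Submodule.exists_mem_ne_zero_of_ne_bot hT
  exact ⟨y, hy0, fun l hl => a5 l (by omega) hy⟩

variable {q i : ℕ} {H : Matrix (Fin (2 * i + 1)) (Fin (2 * i + 1)) L}

theorem On.span_top (h : Her H q) {x : Fin (2 * i + 1) → L} (hx : On H q i x) :
    Submodule.span L (Set.range fun l : Fin (2 * i + 1) => fr (q ^ 2) l x) = ⊤ := by
  refine LinearIndependent.span_eq_top_of_card_eq_finrank' ?_ (by simp)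
  rw [Fintype.linearIndependent_iff]
  intro c hc
  have key : ∀ n : ℕ, ∀ l : Fin (2 * i + 1), l.val = n → c l = 0 := by
    intro n
    induction n using Nat.strong_induction_on with
    | _ n ih =>
      intro l hl
      have h1 := bform_sum_left (q := q) H c (fun l : Fin (2 * i + 1) => fr (q ^ 2) l x)
        (fr (q ^ 2) (l.val + i) x)
      rw [hc, Finset.sum_eq_single l] at h1
      · rw [h.gram_one hx, mul_one] at h1
        rw [← h1]
        simp [bform]
      · intro b _ hb
        rcases lt_or_gt_of_ne (fun e => hb (Fin.ext e) : b.val ≠ l.val) with h2 | h2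
        · rw [ih b.val (by omega) b rfl, zero_mul]
        · have := b.isLt
          rw [h.gram_zero hx.zero (by omega) (by omega), mul_zero]
      · intro h2
        exact absurd (Finset.mem_univ l) h2
  exact fun l => key l.val l rfl

end Pool.Agent.CXD
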