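import Pool.Agent.P.MP_2ce3e7_ag.CUB
import Pool.Agent.P.MP_2ce3e7_ag.CZG2

/-! Chains of subspaces. -/

set_option linter.unusedSectionVars false
set_option linter.unusedVariables false

open Matrix Module

noncomputable section

namespace Pool.Agent.CXD

variable {L : Type} [Field L] {n r Q δ i j : ℕ}

/-- the span of the first Frobenius images -/
def spn (Q : ℕ) (x : Fin n → L) (s : ℕ) : Submodule L (Fin n → L) :=
  Submodule.span L (Set.range fun l : Fin s => fr Q l x)

variable [IsAlgClosed L] {H : Matrix (Fin n) (Fin n) L} {η : L}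

theorem Fm.perp_le (h : Fm H r Q δ η) (U W : Submodule L (Fin n → L))
    (hUW : ∀ y ∈ W, ∀ u ∈ U, bform H r y u = 0) : finrank L W + finrank L U ≤ n := by
  obtain ⟨Φ, hΦ, hr⟩ := h.fb.exists_sub n
  have hb := h.fb.fr_bij (m := n) 1
  have hB : (Matrix.toBilin' Hᵀ).Nondegenerate := by
    apply LinearMap.BilinForm.nondegenerate_toBilin'_of_det_ne_zero'
    rw [Matrix.det_transpose]
    exact h.det.ne_zero
  have key : ∀ y u, Matrix.toBilin' Hᵀ (fr r 1 u) y = bform H r y u := by
    intro y u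
    rw [Matrix.toBilin'_apply, bform, Finset.sum_comm]
    refine Finset.sum_congr rfl fun a _ => Finset.sum_congr rfl fun b _ => ?_
    simp only [fr, pow_one, Matrix.transpose_apply]
    ring
  have h1 : W ≤ (Matrix.toBilin' Hᵀ).orthogonal (Φ U) := by
    intro y hy
    rw [LinearMap.BilinForm.mem_orthogonal_iff]
    intro v hv
    obtain ⟨u, rfl⟩ := hb.2 v
    have := hUW y hy u ((hΦ U u).1 hv)
    rw [← key] at this
    exact this
  have h2 := Submodule.finrank_mono h1
  rw [LinearMap.BilinForm.finrank_orthogonal hB, hr] at h2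
  have := Submodule.finrank_le U
  simp only [finrank_fintype_fun_eq_card, Fintype.card_fin] at this h2
  omega

theorem exists_vec_CUF (hQ : Fb L Q) {A B : Submodule L (Fin n → L)} (h1 : A ≤ B)
    (h2 : ∀ v ∈ A, fr Q 1 v ∈ B) (hA : finrank L A = j) (hB : finrank L B = j + 1) :
    ∃ x : Fin n → L, x ≠ 0 ∧ (∀ l < j, fr Q l x ∈ A) ∧ fr Q j x ∈ B := by
  rcases Nat.eq_zero_or_pos j with h0 | h0
  · subst h0
    have h3 : B ≠ ⊥ := by
      rintro rfl
      rw [finrank_bot] at hB
      omega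
    obtain ⟨x, hx, hx0⟩ := Submodule.exists_mem_ne_zero_of_ne_bot h3
    exact ⟨x, hx0, fun l hl => by omega, by rw [fr_zero]; exact hx⟩
  have hq : Q ≠ 0 := hQ.pos_CZG.ne'
  obtain ⟨Φ, hΦ, hr⟩ := hQ.exists_sub n
  have h3 : Φ A ≤ B := by
    intro v hv
    obtain ⟨u, rfl⟩ := (hQ.fr_bij 1).2 v
    exact h2 u ((hΦ A u).1 hv)
  have h4 : A ≠ ⊥ := by
    rintro rfl
    rw [finrank_bot] at hA
    omega
  obtain ⟨y, hy0, hy⟩ := exists_line Φ hr h1 h3 (by omega) h4
  have h5 : ∀ (l : ℕ) (v : Fin n → L), fr Q l v ∈ (Φ^[l]) A ↔ v ∈ A := by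
    intro l
    induction l with
    | zero => intro v; rw [fr_zero]; rfl
    | succ l ih =>
      intro v
      rw [Function.iterate_succ_apply', ← fr_fr 1 l v, hΦ, ih]
  obtain ⟨x, rfl⟩ := (hQ.fr_bij (j - 1)).2 y
  have hx : ∀ l < j, fr Q l x ∈ A := by
    intro l hl
    refine (h5 (j - 1 - l) _).1 ?_
    rw [fr_fr, show l + (j - 1 - l) = j - 1 by omega]
    exact hy _ (by omega)
  refine ⟨x, ?_, hx, ?_⟩
  · rintro rfl
    apply hy0
    funext a
    exact zero_pow (pow_ne_zero _ hq)
  · have h6 := h2 _ (hx (j - 1) (by omega))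
    rwa [fr_fr, show j - 1 + 1 = j by omega] at h6

theorem exists_chain (hQ : Fb L Q) {A B : Submodule L (Fin n → L)} (h1 : A ≤ B)
    (h2 : ∀ v ∈ A, fr Q 1 v ∈ B) (hA : finrank L A = j) (hB : finrank L B = j + 1)
    (hst : ∀ T ≤ A, (∀ v ∈ T, fr Q 1 v ∈ T) → T = ⊥) :
    ∃ x, A = spn Q x j ∧ B = spn Q x (j + 1) := by
  obtain ⟨x, hx0, hx, hxB⟩ := exists_vec_CUF hQ h1 h2 hA hB
  have mem : ∀ m l, l < m → fr Q l x ∈ spn Q x m := fun m l hl =>
    Submodule.subset_span ⟨⟨l, hl⟩, rfl⟩
  have le : ∀ m (S : Submodule L (Fin n → L)), (∀ l < m, fr Q l x ∈ S) → spn Q x m ≤ S := by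
    intro m S hS
    refine Submodule.span_le.2 ?_
    rintro _ ⟨l, rfl⟩
    exact hS l l.2
  have new : ∀ m ≤ j, fr Q m x ∉ spn Q x m := by
    intro m hm hc
    have h3 : spn Q x m = ⊥ := by
      refine hst _ (le m A fun l hl => hx l (by omega)) fun v hv => ?_
      obtain ⟨c, rfl⟩ := (Submodule.mem_span_range_iff_exists_fun L).1 hv
      rw [hQ.fr_sum']
      refine Submodule.sum_mem _ fun l _ => Submodule.smul_mem _ _ ?_
      rw [fr_fr]
      rcases Nat.lt_or_ge (l + 1) m with h4 | h4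
      · exact mem _ _ h4
      · have h5 : (l : ℕ) + 1 = m := by have := l.2; omega
        rw [h5]; exact hc
    apply hx0
    rcases Nat.eq_zero_or_pos m with h4 | h4
    · subst h4
      rw [h3, fr_zero] at hc
      exact hc
    · have h5 := mem m 0 h4
      rw [h3, fr_zero] at h5
      exact h5
  have dim : ∀ m ≤ j + 1, m ≤ finrank L (spn Q x m) := by
    intro m
    induction m with
    | zero => intro _; exact Nat.zero_le _
    | succ m ih =>
      intro hm
      have h3 : spn Q x m < spn Q x (m + 1) := by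
        refine lt_of_le_of_ne (le m _ fun l hl => mem _ _ (by omega)) fun e => new m (by omega) ?_
        rw [e]; exact mem _ _ (by omega)
      have h4 := Submodule.finrank_lt_finrank_of_lt h3
      have h5 := ih (by omega)
      omega
  refine ⟨x, (Submodule.eq_of_le_of_finrank_le (le j A hx) ?_).symm,
    (Submodule.eq_of_le_of_finrank_le (le (j + 1) B fun l hl => ?_) ?_).symm⟩
  · rw [hA]; exact dim j (by omega)
  · rcases Nat.lt_or_ge l j with h3 | h3
    · exact h1 (hx l h3)
    · rw [show l = j by omega]; exact hxB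
  · rw [hB]; exact dim (j + 1) le_rfl

end Pool.Agent.CXD
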