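import Pool.Agent.P.MP_2ce3e7_ag.CUF

/-! Points of the Coxeter variety, and rational bases. -/

set_option linter.unusedSectionVars false
set_option linter.unusedVariables false

open Matrix Module

noncomputable section

namespace Pool.Agent.CXD

variable {L : Type} [Field L] {n r Q δ i j s : ℕ}

theorem Fm.exists_oq [IsAlgClosed L] {H : Matrix (Fin n) (Fin n) L} {η : L} (h : Fm H r Q δ η)
    (hn : n ≤ 2 * i + δ + 1) (hj : i + δ = j + 1) {x : Fin n → L}
    (hd : finrank L (spn Q x (j + 1)) = j + 1)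
    (hp : ∀ y ∈ spn Q x (j + 1), ∀ u ∈ spn Q x j, bform H r y u = 0)
    (hi : r = 1 → ∀ y ∈ spn Q x (j + 1), ∀ u ∈ spn Q x (j + 1), bform H r y u = 0)
    (hns : fr Q (j + 1) x ∉ spn Q x (j + 1)) :
    ∃ x', Oq H r Q i x' ∧ ∀ s, spn Q x s = spn Q x' s := by
  have mem : ∀ (y : Fin n → L) m l, l < m → fr Q l y ∈ spn Q y m := fun y m l hl =>
    Submodule.subset_span ⟨⟨l, hl⟩, rfl⟩
  have le : ∀ (y : Fin n → L) m (S : Submodule L (Fin n → L)), (∀ l < m, fr Q l y ∈ S) →
      spn Q y m ≤ S := by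
    intro y m S hS
    refine Submodule.span_le.2 ?_
    rintro _ ⟨l, rfl⟩
    exact hS l l.2
  have hδ := h.hδ
  have hx0 : x ∈ spn Q x (j + 1) := by
    have := mem x (j + 1) 0 (by omega)
    rwa [fr_zero] at this
  have hz : ∀ l < i, bform H r x (fr Q l x) = 0 := by
    intro l hl
    rcases Nat.eq_zero_or_pos δ with h0 | h0
    · exact hi (h.one_iff.2 h0) x hx0 _ (mem x _ _ (by omega))
    · exact hp x hx0 _ (mem x _ _ (by omega))
  have hb : bform H r x (fr Q i x) ≠ 0 := by
    intro h0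
    have h1 : ∀ l < i + 1, bform H r x (fr Q l x) = 0 := by
      intro l hl
      rcases Nat.lt_or_ge l i with h2 | h2
      · exact hz l h2
      · rw [show l = i by omega]; exact h0
    have h2 := h.perp_le (spn Q x (i + 1)) (spn Q x (j + 2)) (by
      intro u hu v hv
      obtain ⟨c, rfl⟩ := (Submodule.mem_span_range_iff_exists_fun L).1 hu
      obtain ⟨d, rfl⟩ := (Submodule.mem_span_range_iff_exists_fun L).1 hv
      rw [bform_sum_left]
      refine Finset.sum_eq_zero fun l _ => ?_
      rw [h.fb.bform_sum, Finset.sum_eq_zero, mul_zero]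
      intro m _
      rw [h.gram_zero h1 (by have := l.2; omega) (by have := m.2; omega), mul_zero])
    have h3 : spn Q x (j + 1) < spn Q x (j + 2) := by
      refine lt_of_le_of_ne (le x _ _ fun l hl => mem x _ _ (by omega)) fun e => hns ?_
      rw [e]; exact mem x _ _ (by omega)
    have h4 := Submodule.finrank_lt_finrank_of_lt h3
    rcases Nat.eq_zero_or_pos δ with h0 | h0
    · have e : i + 1 = j + 2 := by omega
      rw [e] at h2
      omega
    · have e : i + 1 = j + 1 := by omega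
      rw [e] at h2
      omega
  obtain ⟨t, ht⟩ := IsAlgClosed.exists_pow_nat_eq (bform H r x (fr Q i x))⁻¹
    (n := 1 + r * Q ^ i) (by omega)
  have ht0 : t ≠ 0 := by
    rintro rfl
    rw [zero_pow (by omega)] at ht
    exact inv_ne_zero hb ht.symm
  have hs : ∀ l, fr Q l (t • x) = t ^ Q ^ l • fr Q l x := by
    intro l
    funext a
    simp only [fr, Pi.smul_apply, smul_eq_mul, mul_pow]
  refine ⟨t • x, ⟨fun l hl => ?_, ?_⟩, fun s => ?_⟩
  · rw [bform_smul_fr, hz l hl, mul_zero]
  · rw [bform_smul_fr, ht, inv_mul_cancel₀ hb]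
  · refine le_antisymm (le x s _ fun l hl => ?_) (le (t • x) s _ fun l hl => ?_)
    · have h2 := Submodule.smul_mem _ (t ^ Q ^ l)⁻¹ (mem (t • x) s l hl)
      rwa [hs l, smul_smul, inv_mul_cancel₀ (pow_ne_zero _ ht0), one_smul] at h2
    · rw [hs]
      exact Submodule.smul_mem _ _ (mem x _ _ hl)

theorem range_CUF2 {k : Type} [Field k] [Fintype k] [Algebra k L] (hk : Fintype.card k = Q)
    {y : L} (h1 : y ^ Q = y) : ∃ t : k, algebraMap k L t = y := by
  classical
  have hsp : (Polynomial.X ^ Fintype.card k - Polynomial.X : Polynomial k).Splits := by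
    rw [Polynomial.splits_iff_card_roots, FiniteField.roots_X_pow_card_sub_X,
      FiniteField.X_pow_card_sub_X_natDegree_eq k Fintype.one_lt_card]
    rfl
  refine hsp.mem_range_of_isRoot (i := algebraMap k L)
    (FiniteField.X_pow_card_sub_X_ne_zero k Fintype.one_lt_card) ?_
  simp [Polynomial.IsRoot, hk, h1]

theorem exists_rat_basis {k : Type} [Field k] [Fintype k] [Algebra k L] (hk : Fintype.card k = Q)
    (hQ : Fb L Q) {b : Matrix (Fin s) (Fin n) L} {Y : Matrix (Fin n) (Fin s) L} (hY : b * Y = 1)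
    {c : Matrix (Fin s) (Fin s) L} (hc : pw Q b = c * b) :
    ∃ (M : Matrix (Fin s) (Fin n) k) (N : Matrix (Fin n) (Fin s) k) (g g' : Matrix (Fin s) (Fin s) L),
      M * N = 1 ∧ al L M = g * b ∧ b = g' * al L M := by
  classical
  obtain ⟨I, hI⟩ : ∃ I, plu b I ≠ 0 := by
    by_contra hne
    push Not at hne
    obtain ⟨a, ha⟩ := exists_plu_one hY
    simp [hne] at ha
  have hu : IsUnit (b.submatrix id I).det := Ne.isUnit hI
  set g' := b.submatrix id I with hg'
  have e1 : g'⁻¹ * g' = 1 := Matrix.nonsing_inv_mul _ hu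
  have e2 : g' * g'⁻¹ = 1 := Matrix.mul_nonsing_inv _ hu
  have eb : b = g' * (g'⁻¹ * b) := by rw [← Matrix.mul_assoc, e2, Matrix.one_mul]
  have s1 : (g'⁻¹ * b).submatrix id I = 1 := e1
  have f1 : pw Q (g'⁻¹ * b) = pw Q g'⁻¹ * c * g' * (g'⁻¹ * b) := by
    rw [hQ.pw_mul, hc, Matrix.mul_assoc _ g', ← eb, Matrix.mul_assoc]
  have f2 : pw Q g'⁻¹ * c * g' = 1 := by
    have e := congrArg (fun M => Matrix.submatrix M id I) f1
    have e3 : (pw Q (g'⁻¹ * b)).submatrix id I = pw Q ((g'⁻¹ * b).submatrix id I) := rfl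
    have e4 : (pw Q g'⁻¹ * c * g' * (g'⁻¹ * b)).submatrix id I =
        pw Q g'⁻¹ * c * g' * (g'⁻¹ * b).submatrix id I := rfl
    have e5 : pw Q (1 : Matrix (Fin s) (Fin s) L) = 1 := by
      have := congrArg Matrix.transpose (hQ.dg_one (α := Fin s))
      rwa [Matrix.transpose_one] at this
    simp only [e3, e4, s1, e5, Matrix.mul_one] at e
    exact e.symm
  rw [f2, Matrix.one_mul] at f1
  have hr : ∀ a a', ∃ t : k, algebraMap k L t = (g'⁻¹ * b) a a' := fun a a' =>
    range_CUF2 hk (congrFun (congrFun f1 a) a')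
  choose M hM using hr
  have eM : al L (Matrix.of M) = g'⁻¹ * b := by
    ext a a'
    exact hM a a'
  refine ⟨Matrix.of M, (1 : Matrix (Fin n) (Fin n) k).submatrix id I, g'⁻¹, g', ?_, eM, ?_⟩
  · have e6 : Matrix.of M * (1 : Matrix (Fin n) (Fin n) k).submatrix id I =
        (Matrix.of M * (1 : Matrix (Fin n) (Fin n) k)).submatrix id I := rfl
    rw [e6, Matrix.mul_one]
    apply Matrix.map_injective (algebraMap k L).injective
    have e7 : ((Matrix.of M).submatrix id I).map (algebraMap k L) =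
        (al L (Matrix.of M)).submatrix id I := rfl
    show ((Matrix.of M).submatrix id I).map (algebraMap k L) =
      (1 : Matrix (Fin s) (Fin s) k).map (algebraMap k L)
    rw [e7, eM, s1, Matrix.map_one _ (map_zero _) (map_one _)]
  · rw [eM]
    exact eb

end Pool.Agent.CXD
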