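import Pool.Agent.P.MP_2ce3e7_ag.CUF2
import Pool.Agent.P.MP_2ce3e7_ag.CUD

/-! The classification of the points. -/

set_option linter.unusedSectionVars false
set_option linter.unusedVariables false

open Matrix Module

noncomputable section

namespace Pool.Agent.CXD

variable {k L : Type} [Field k] [Fintype k] [Field L] [Algebra k L] {n r Q δ i j : ℕ}

/-- every hyperplane of the row space of `M` gives a point -/
def Lg (H : Matrix (Fin n) (Fin n) k) (r : ℕ) (M : Matrix (Fin (j + 1)) (Fin n) k) : Prop :=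
  (r ≠ 1 ∧ j = 0) ∨ M * H * dg r M = 0

theorem rank_rows_CUF3 {s : ℕ} {a : Matrix (Fin s) (Fin n) L} {Y : Matrix (Fin n) (Fin s) L}
    (h : a * Y = 1) : finrank L (Submodule.span L (Set.range fun l => a l)) = s := by
  have hli : LinearIndependent L fun l => a l := by
    rw [Fintype.linearIndependent_iff]
    intro g hg l
    have e : g ᵥ* a = 0 := by
      rw [← hg]
      funext c
      simp [Matrix.vecMul, dotProduct, Finset.sum_apply]
    have e2 : g = (g ᵥ* a) ᵥ* Y := by rw [Matrix.vecMul_vecMul, h, Matrix.vecMul_one]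
    rw [e, Matrix.zero_vecMul] at e2
    exact congrFun e2 l
  exact (finrank_span_eq_card hli).trans (Fintype.card_fin s)

theorem rows_CUF3 {α : Type} {s : ℕ} (M : Matrix α (Fin n) L) (y : Matrix (Fin s) (Fin n) L)
    (h : ∀ t, M t ∈ Submodule.span L (Set.range fun l => y l)) :
    ∃ c : Matrix α (Fin s) L, M = c * y := by
  choose c hc using fun t => (Submodule.mem_span_range_iff_exists_fun L).1 (h t)
  refine ⟨Matrix.of c, ?_⟩
  ext t u
  rw [← hc t]
  simp [Matrix.mul_apply, Finset.sum_apply]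

theorem mem_rows_CUF3 {α : Type} {s : ℕ} (c : Matrix α (Fin s) L) (y : Matrix (Fin s) (Fin n) L)
    (t : α) : (c * y) t ∈ Submodule.span L (Set.range fun l => y l) := by
  refine (Submodule.mem_span_range_iff_exists_fun L).2 ⟨c t, ?_⟩
  funext u
  simp [Matrix.mul_apply, Finset.sum_apply]

theorem right_CUF3 {α : Type} [Fintype α] (hr : Fb L r) (G : Matrix (Fin n) (Fin n) L)
    {w : Fin n → L} {y : α → Fin n → L} (h : ∀ t, bform G r w (y t) = 0) :
    ∀ u ∈ Submodule.span L (Set.range y), bform G r w u = 0 := by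
  intro u hu
  obtain ⟨c, rfl⟩ := (Submodule.mem_span_range_iff_exists_fun L).1 hu
  exact (hr.bform_sum G w c y).trans
    (Finset.sum_eq_zero fun t _ => mul_eq_zero_of_right _ (h t))

theorem perp_CUF3 {s s' : ℕ} (hr : Fb L r) {G : Matrix (Fin n) (Fin n) L}
    {a : Matrix (Fin s) (Fin n) L} {b : Matrix (Fin s') (Fin n) L} (h : b * G * dg r a = 0) :
    ∀ y ∈ Submodule.span L (Set.range fun l => b l),
      ∀ u ∈ Submodule.span L (Set.range fun l => a l), bform G r y u = 0 := by
  intro y hy u hu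
  obtain ⟨c, rfl⟩ := (Submodule.mem_span_range_iff_exists_fun L).1 hy
  refine (bform_sum_left G c (fun l => b l) u).trans
    (Finset.sum_eq_zero fun t _ => mul_eq_zero_of_right _ ?_)
  refine right_CUF3 hr G (fun l => ?_) u hu
  refine (gram_apply G b a t l).symm.trans ?_
  rw [h, Matrix.zero_apply]

theorem fr_span_CUF3 {α : Type} [Fintype α] (hQ : Fb L Q) {y : α → Fin n → L}
    {B : Submodule L (Fin n → L)} (h : ∀ t, fr Q 1 (y t) ∈ B) :
    ∀ v ∈ Submodule.span L (Set.range y), fr Q 1 v ∈ B := by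
  intro v hv
  obtain ⟨c, rfl⟩ := (Submodule.mem_span_range_iff_exists_fun L).1 hv
  rw [hQ.fr_sum']
  exact B.sum_mem fun t _ => B.smul_mem _ (h t)

theorem fr_row_CUF3 {α : Type} (M : Matrix α (Fin n) L) (t : α) : fr Q 1 (M t) = pw Q M t := by
  funext u
  simp [fr, pw, Matrix.map_apply]

theorem mem_spn_CUF3 (x : Fin n → L) {l s : ℕ} (h : l < s) : fr Q l x ∈ spn Q x s :=
  Submodule.subset_span ⟨⟨l, h⟩, rfl⟩

theorem spn_frs_CUF3 (x : Fin n → L) (s : ℕ) :
    spn Q x s = Submodule.span L (Set.range fun l => frs Q 0 s x l) := by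
  have e : (fun l => frs Q 0 s x l) = fun l : Fin s => fr Q l x := by
    funext l
    show fr Q (0 + l) x = fr Q l x
    rw [zero_add]
  rw [e]
  rfl

theorem Fk.classify [IsAlgClosed L] {H : Matrix (Fin n) (Fin n) k} {η : k} (h : Fk H r Q δ η)
    (hn : n ≤ 2 * i + δ + 1) (hj : i + δ = j + 1) {a : Matrix (Fin j) (Fin n) L}
    {b : Matrix (Fin (j + 1)) (Fin n) L} (hp : Pt (al L H) r Q a b)
    {Y₁ : Matrix (Fin n) (Fin j) L} (h₁ : a * Y₁ = 1) {Y₂ : Matrix (Fin n) (Fin (j + 1)) L}
    (h₂ : b * Y₂ = 1) :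
    (∃ v : Fin n → k, v ≠ 0 ∧ ∃ c : Matrix Unit (Fin j) L,
      al L (Matrix.of fun _ : Unit => v) = c * a) ∨
    (∃ (M : Matrix (Fin (j + 1)) (Fin n) k) (N : Matrix (Fin n) (Fin (j + 1)) k), M * N = 1 ∧
      Lg H r M ∧ ∃ g : Matrix (Fin (j + 1)) (Fin (j + 1)) L, al L M = g * b) ∨
    ∃ x, Oq (al L H) r Q i x ∧ (∃ g : Matrix (Fin j) (Fin j) L, a = g * frs Q 0 j x) ∧
      ∃ g : Matrix (Fin (j + 1)) (Fin (j + 1)) L, b = g * frs Q 0 (j + 1) x := by
  have hm := h.fm L
  obtain ⟨A, hA⟩ : ∃ A : Submodule L (Fin n → L),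
      A = Submodule.span L (Set.range fun l => a l) := ⟨_, rfl⟩
  obtain ⟨B, hB⟩ : ∃ B : Submodule L (Fin n → L),
      B = Submodule.span L (Set.range fun l => b l) := ⟨_, rfl⟩
  have hAd : finrank L A = j := by rw [hA]; exact rank_rows_CUF3 h₁
  have hBd : finrank L B = j + 1 := by rw [hB]; exact rank_rows_CUF3 h₂
  have haA : ∀ t, a t ∈ A := fun t => by rw [hA]; exact Submodule.subset_span ⟨t, rfl⟩
  have hbB : ∀ t, b t ∈ B := fun t => by rw [hB]; exact Submodule.subset_span ⟨t, rfl⟩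
  have hAB : A ≤ B := by
    obtain ⟨c, hc⟩ := hp.sub
    rw [hA, hB, Submodule.span_le]
    rintro _ ⟨t, rfl⟩
    have e := mem_rows_CUF3 c b t
    rw [← hc] at e
    exact e
  have hfr : ∀ v ∈ A, fr Q 1 v ∈ B := by
    obtain ⟨c, hc⟩ := hp.frob
    rw [hA]
    refine fr_span_CUF3 hm.fQ fun t => ?_
    have e := mem_rows_CUF3 c b t
    rw [← hc, ← hB, ← fr_row_CUF3] at e
    exact e
  have hperp : ∀ y ∈ B, ∀ u ∈ A, bform (al L H) r y u = 0 := by
    rw [hA, hB]
    exact perp_CUF3 hm.fb hp.perp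
  have hiso : r = 1 → ∀ y ∈ B, ∀ u ∈ B, bform (al L H) r y u = 0 := fun h1 => by
    rw [hB]
    exact perp_CUF3 hm.fb (hp.iso h1)
  by_cases hst : ∀ T ≤ A, (∀ v ∈ T, fr Q 1 v ∈ T) → T = ⊥
  · obtain ⟨x, hAx, hBx⟩ := exists_chain hm.fQ hAB hfr hAd hBd hst
    by_cases hns : fr Q (j + 1) x ∈ spn Q x (j + 1)
    · have hBs : ∀ v ∈ B, fr Q 1 v ∈ B := by
        rw [hBx]
        refine fr_span_CUF3 hm.fQ fun l => ?_
        rw [fr_fr]
        rcases Nat.lt_or_ge (l.val + 1) (j + 1) with hl | hl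
        · exact mem_spn_CUF3 x hl
        · have e : l.val + 1 = j + 1 := by have := l.isLt; omega
          rw [e]
          exact hns
      obtain ⟨c, hc⟩ := rows_CUF3 (pw Q b) b fun t => by
        rw [← hB, ← fr_row_CUF3]
        exact hBs _ (hbB t)
      obtain ⟨M, N, g, g', hMN, hg, -⟩ := exists_rat_basis h.card hm.fQ h₂ hc
      refine Or.inr (Or.inl ⟨M, N, hMN, ?_, g, hg⟩)
      have hMB : ∀ t, al L M t ∈ B := fun t => by
        rw [hg, hB]
        exact mem_rows_CUF3 g b t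
      have key : (∀ t, ∀ y ∈ B, bform (al L H) r (al L M t) y = 0) → M * H * dg r M = 0 := by
        intro h0
        refine Matrix.map_injective (algebraMap k L).injective ?_
        show al L (M * H * dg r M) = (0 : Matrix (Fin (j + 1)) (Fin (j + 1)) k).map (algebraMap k L)
        rw [al_mul, al_mul, al_dg, Matrix.map_zero _ (map_zero _)]
        ext t t'
        rw [gram_apply, Matrix.zero_apply]
        exact h0 t _ (hMB t')
      by_cases h1 : r = 1
      · exact Or.inr (key fun t y hy => hiso h1 _ (hMB t) y hy)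
      · rcases Nat.eq_zero_or_pos j with h0 | h0
        · exact Or.inl ⟨h1, h0⟩
        · refine Or.inr (key fun t => ?_)
          rw [hBx]
          refine right_CUF3 hm.fb _ fun l => ?_
          rcases Nat.lt_or_ge l.val j with hl | hl
          · exact hperp _ (hMB t) _ (hAx ▸ mem_spn_CUF3 x hl)
          · have e : l.val = (j - 1) + 1 := by have := l.isLt; omega
            have e2 : fr Q 1 (al L M t) = al L M t := by
              rw [fr_row_CUF3, pw_al h.card]
            have e3 : bform (al L H) r (al L M t) (fr Q (j - 1) x) = 0 :=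
              hperp _ (hMB t) _ (hAx ▸ mem_spn_CUF3 x (by omega))
            have e4 := hm.bform_fr 1 (al L M t) (fr Q (j - 1) x)
            have hQ0 : Q ^ 1 ≠ 0 := by have := hm.big; rw [pow_one]; omega
            rw [e2, e3, fr_fr, zero_pow hQ0] at e4
            rw [e]
            exact e4
    · obtain ⟨x', hx', hs⟩ := hm.exists_oq hn hj (x := x) (hBx ▸ hBd)
        (by rw [← hAx, ← hBx]; exact hperp) (fun h1 => by rw [← hBx]; exact hiso h1) hns
      refine Or.inr (Or.inr ⟨x', hx', rows_CUF3 a _ fun t => ?_, rows_CUF3 b _ fun t => ?_⟩)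
      · rw [← spn_frs_CUF3, ← hs, ← hAx]
        exact haA t
      · rw [← spn_frs_CUF3, ← hs, ← hBx]
        exact hbB t
  · push Not at hst
    obtain ⟨T, hTA, hT, hne⟩ := hst
    obtain ⟨v, hv0, hvT⟩ := exists_rat h.card T hne hT
    refine Or.inl ⟨v, hv0, rows_CUF3 _ a fun t => ?_⟩
    rw [← hA]
    exact hTA hvT

end Pool.Agent.CXD
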