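import Pool.Agent.P.MP_2ce3e7_ag.CUF3

/-! Hyperplanes of a rational subspace. -/

set_option linter.unusedSectionVars false
set_option linter.unusedVariables false

open Matrix

noncomputable section

namespace Pool.Agent.CXD

variable {R R' : Type} [CommRing R] [CommRing R'] {n j r Q : ℕ}

/-- the hyperplane with basis `e (l + 1) + t l • e 0` -/
def ct (t : Fin j → R) : Matrix (Fin j) (Fin (j + 1)) R :=
  Matrix.of fun l => Fin.cons (t l) (Pi.single l 1)

theorem ct_map (f : R →+* R') (t : Fin j → R) : (ct t).map f = ct fun l => f (t l) := by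
  ext a b
  refine Fin.cases ?_ (fun b => ?_) b <;> simp [ct, Pi.single_apply, apply_ite f]

theorem exists_ct {L : Type} [Field L] {c : Matrix (Fin j) (Fin (j + 1)) L}
    {Y : Matrix (Fin (j + 1)) (Fin j) L} (h : c * Y = 1) :
    (∃ u : Matrix Unit (Fin j) L, u * c = Matrix.of fun _ : Unit => Pi.single 0 1) ∨
      ∃ (g : Matrix (Fin j) (Fin j) L) (t : Fin j → L), c = g * ct t := by
  by_cases hd : (c.submatrix id Fin.succ).det = 0
  · obtain ⟨u, hu, h0⟩ := Matrix.exists_vecMul_eq_zero_iff.2 hd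
    have h1 : ∀ b : Fin j, (u ᵥ* c) b.succ = 0 := fun b => congrFun h0 b
    have h2 : (u ᵥ* c) 0 ≠ 0 := fun h2 => hu (by
      have h3 : u ᵥ* c = 0 := funext fun b => Fin.cases h2 h1 b
      rw [← vecMul_one u, ← h, ← vecMul_vecMul, h3, zero_vecMul])
    refine Or.inl ⟨Matrix.of fun _ => ((u ᵥ* c) 0)⁻¹ • u, ?_⟩
    ext x y
    have e : (Matrix.of (fun _ : Unit => ((u ᵥ* c) 0)⁻¹ • u) * c) x y =
        ((((u ᵥ* c) 0)⁻¹ • u) ᵥ* c) y := rfl
    rw [e, smul_vecMul, Pi.smul_apply, smul_eq_mul]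
    refine Fin.cases ?_ (fun y => ?_) y
    · simp [h2]
    · simp [h1]
  · refine Or.inr ⟨c.submatrix id Fin.succ, (c.submatrix id Fin.succ)⁻¹ *ᵥ fun a => c a 0, ?_⟩
    ext x y
    refine Fin.cases ?_ (fun y => ?_) y
    · have e := congrFun (mulVec_mulVec (fun a => c a 0) (c.submatrix id Fin.succ)
        (c.submatrix id Fin.succ)⁻¹) x
      rw [Matrix.mul_nonsing_inv _ (IsUnit.mk0 _ hd), one_mulVec] at e
      exact e.symm
    · simp [Matrix.mul_apply, ct, Pi.single_apply]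

variable {k : Type} [Field k] [Fintype k] [Algebra k R]

theorem ct_one_CUG (t : Fin j → R) :
    ct t * al R ((1 : Matrix (Fin (j + 1)) (Fin (j + 1)) k).submatrix id Fin.succ) = 1 := by
  ext a b
  simp [Matrix.mul_apply, ct, Matrix.one_apply, apply_ite (algebraMap k R), Pi.single_apply,
    eq_comm]

theorem exists_ct_one (j : ℕ) : ∃ S : Matrix (Fin (j + 1)) (Fin j) k,
    ∀ (R : Type) [CommRing R] [Algebra k R] (t : Fin j → R), (ct t * al R S).det = 1 := by
  refine ⟨(1 : Matrix (Fin (j + 1)) (Fin (j + 1)) k).submatrix id Fin.succ, fun R _ _ t => ?_⟩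
  rw [ct_one_CUG, det_one]

theorem exists_ct_var (l : Fin j) : ∃ S : Matrix (Fin (j + 1)) (Fin j) k,
    ∀ (R : Type) [CommRing R] [Algebra k R] (t : Fin j → R), (ct t * al R S).det = t l := by
  refine ⟨((1 : Matrix (Fin (j + 1)) (Fin (j + 1)) k).submatrix id Fin.succ).updateCol l
    (Pi.single 0 1), fun R _ _ t => ?_⟩
  have e : ct t * al R (((1 : Matrix (Fin (j + 1)) (Fin (j + 1)) k).submatrix id
      Fin.succ).updateCol l (Pi.single 0 1)) = (1 : Matrix (Fin j) (Fin j) R).updateCol l t := by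
    ext a b
    by_cases hb : b = l
    · subst hb
      simp [Matrix.mul_apply, ct, Pi.single_apply, apply_ite (algebraMap k R)]
    · rw [updateCol_ne hb, ← ct_one_CUG (k := k) t, Matrix.mul_apply, Matrix.mul_apply]
      simp only [Matrix.map_apply, updateCol_ne hb]
  rw [e, ← cramer_apply, cramer_one]
  rfl

theorem Lg.pt {H : Matrix (Fin n) (Fin n) k} {M : Matrix (Fin (j + 1)) (Fin n) k} (h : Lg H r M)
    (hk : Fintype.card k = Q) (hr : Fb R r) (hQ : Fb R Q) (c : Matrix (Fin j) (Fin (j + 1)) R) :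
    Pt (al R H) r Q (c * al R M) (al R M) := by
  rcases h with ⟨h1, rfl⟩ | h
  · exact ⟨⟨c, rfl⟩, ⟨pw Q c, by rw [hQ.pw_mul, pw_al hk]⟩, by ext a b; exact b.elim0,
      fun h2 => absurd h2 h1⟩
  · have e : al R M * al R H * dg r (al R M) = 0 := by
      rw [← al_dg, ← al_mul, ← al_mul, h]; exact Matrix.map_zero _ (map_zero _)
    exact ⟨⟨c, rfl⟩, ⟨pw Q c, by rw [hQ.pw_mul, pw_al hk]⟩,
      by rw [hr.dg_mul, ← Matrix.mul_assoc, e, Matrix.zero_mul], fun _ => e⟩

end Pool.Agent.CXD
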