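import Pool.Agent.P.MP_2ce3e7_ag.CUB

/-! Recovering the point from the subspace. -/

set_option linter.unusedSectionVars false
set_option linter.unusedVariables false

open Matrix

noncomputable section

namespace Pool.Agent.CXD

variable {R R' : Type} [CommRing R] [CommRing R'] {n r Q δ i j d : ℕ}

/-- the rows are multiples of the last Frobenius image -/
def yq (H : Matrix (Fin n) (Fin n) R) (r Q i : ℕ) (c : Matrix (Fin (j + 1)) (Fin n) R) :
    Matrix (Fin (j + 1)) (Fin n) R := (c * H * dg r (pw (Q ^ (i - 1)) c)).adjugate * c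

/-- a function that does not vanish on a part of the stratum -/
def fq (H : Matrix (Fin n) (Fin n) R) (r Q i : ℕ) (c : Matrix (Fin (j + 1)) (Fin n) R)
    (a : Fin (j + 1)) : R := bform H r (yq H r Q i c a) (fr Q i (yq H r Q i c a))

variable {H : Matrix (Fin n) (Fin n) R} {η : R} {c : Matrix (Fin (j + 1)) (Fin n) R}
  {x : Fin n → R}

theorem yq_map (f : R →+* R') : (yq H r Q i c).map f = yq (H.map f) r Q i (c.map f) := by
  have e := f.map_adjugate (c * H * dg r (pw (Q ^ (i - 1)) c))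
  rw [RingHom.mapMatrix_apply, RingHom.mapMatrix_apply] at e
  unfold yq
  rw [Matrix.map_mul, e, Matrix.map_mul, Matrix.map_mul, dg_map, pw_map]

theorem map_fq (f : R →+* R') (a : Fin (j + 1)) :
    f (fq H r Q i c a) = fq (H.map f) r Q i (c.map f) a := by
  unfold fq
  rw [map_bform, map_fr, ← yq_map]
  rfl

/-- the Gram matrix of the first Frobenius images -/
def gam_CUH (H : Matrix (Fin n) (Fin n) R) (r Q i j : ℕ) (x : Fin n → R) :
    Matrix (Fin (j + 1)) (Fin (j + 1)) R :=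
  frs Q 0 (j + 1) x * H * dg r (frs Q (0 + (i - 1)) (j + 1) x)

theorem Fm.yq_CUH (h : Fm H r Q δ η) (C : Matrix (Fin (j + 1)) (Fin (j + 1)) R) :
    yq H r Q i (C * frs Q 0 (j + 1) x) = C.det • ((dg r (pw (Q ^ (i - 1)) C)).adjugate *
      (gam_CUH H r Q i j x).adjugate * frs Q 0 (j + 1) x) := by
  have e : C * frs Q 0 (j + 1) x * H * dg r (pw (Q ^ (i - 1)) (C * frs Q 0 (j + 1) x)) =
      C * (gam_CUH H r Q i j x * dg r (pw (Q ^ (i - 1)) C)) := by
    rw [(h.fQ.pow (i - 1)).pw_mul, pw_frs, h.fb.dg_mul, gam_CUH]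
    simp only [Matrix.mul_assoc]
  unfold yq
  rw [e, adjugate_mul_distrib, adjugate_mul_distrib, Matrix.mul_assoc, ← Matrix.mul_assoc _ C,
    adjugate_mul, Matrix.smul_mul, Matrix.one_mul, Matrix.mul_smul]

theorem Fm.gam_zero_CUH (h : Fm H r Q δ η) (hx : Oq H r Q i x) (hi : 0 < i) (hj : i + δ = j + 1)
    {l l' : Fin (j + 1)} (hl : l' ≤ l) : gam_CUH H r Q i j x l l' = 0 := by
  have h1 := l.2
  have h2 : (l' : ℕ) ≤ l := hl
  rw [gam_CUH, gram_apply]
  exact h.gram_zero hx.zero (l := 0 + l) (m := 0 + (i - 1) + l') (by omega) (by omega)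

theorem Fm.aux_CUH (h : Fm H r Q δ η) (hx : Oq H r Q i x) (hi : 0 < i) (hj : i + δ = j + 1)
    {u : Fin (j + 1) → R} (hu : ∀ l, l ≠ 0 → (u ᵥ* gam_CUH H r Q i j x) l = 0) :
    ∀ l, l ≠ Fin.last j → u l = 0 := by
  have key : ∀ m : ℕ, ∀ l : Fin (j + 1), (l : ℕ) = m → l ≠ Fin.last j → u l = 0 := by
    intro m
    induction m using Nat.strong_induction_on with
    | _ m ih =>
      intro l hm hl
      have h1 : (l : ℕ) < j := Fin.val_lt_last hl
      have h2 := hu ⟨l + 1, by omega⟩ (fun h0 => by simpa using congrArg Fin.val h0)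
      have h3 : gam_CUH H r Q i j x l ⟨l + 1, by omega⟩ = 1 := by
        rw [gam_CUH, gram_apply, ← h.gram_one hx l]
        show bform H r (fr Q (0 + l) x) (fr Q (0 + (i - 1) + (l + 1)) x) = _
        rw [zero_add, show 0 + (i - 1) + ((l : ℕ) + 1) = l + i by omega]
      rw [vecMul, dotProduct, Finset.sum_eq_single l (fun b _ hb => ?_) (by simp)] at h2
      · simpa [h3] using h2
      rcases lt_or_gt_of_ne hb with h4 | h4
      · have h5 : (b : ℕ) < l := h4
        rw [ih b (by omega) b rfl (fun h0 => by rw [h0, Fin.val_last] at h5; omega), zero_mul]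
      · rw [h.gam_zero_CUH hx hi hj (l := b) (l' := ⟨l + 1, by omega⟩) h4, mul_zero]
  exact fun l => key l l rfl

theorem Fm.row_CUH (h : Fm H r Q δ η) (hx : Oq H r Q i x) (hi : 0 < i) (hj : i + δ = j + 1)
    (C : Matrix (Fin (j + 1)) (Fin (j + 1)) R) (a : Fin (j + 1)) :
    ∃ u : Fin (j + 1) → R, (∀ l, l ≠ Fin.last j → u l = 0) ∧
      yq H r Q i (C * frs Q 0 (j + 1) x) a = (C.det * u (Fin.last j)) • fr Q j x := by
  set M := (dg r (pw (Q ^ (i - 1)) C)).adjugate * (gam_CUH H r Q i j x).adjugate with hM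
  have h1 : M * gam_CUH H r Q i j x = 0 := by
    rw [hM, Matrix.mul_assoc, adjugate_mul, det_eq_zero_of_column_eq_zero 0
      fun l => h.gam_zero_CUH hx hi hj (Fin.zero_le l), zero_smul, Matrix.mul_zero]
  have h2 := h.aux_CUH hx hi hj (u := M a) fun l _ => congrFun (congrFun h1 a) l
  refine ⟨M a, h2, funext fun b => ?_⟩
  rw [h.yq_CUH, ← hM, Matrix.smul_apply, Matrix.mul_apply, Finset.sum_eq_single (Fin.last j)
    (fun m _ hm => by rw [h2 m hm, zero_mul]) (by simp)]
  simp [frs, mul_assoc]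

theorem Fm.yq_eq (h : Fm H r Q δ η) (hx : Oq H r Q i x) (hi : 0 < i) (hj : i + δ = j + 1)
    (C : Matrix (Fin (j + 1)) (Fin (j + 1)) R) (a : Fin (j + 1)) :
    ∃ lam : R, yq H r Q i (C * frs Q 0 (j + 1) x) a = lam • fr Q j x := by
  obtain ⟨u, hu, he⟩ := h.row_CUH hx hi hj C a
  exact ⟨_, he⟩

theorem Fm.fq_eq (h : Fm H r Q δ η) (hx : Oq H r Q i x) {a : Fin (j + 1)} {lam : R}
    (hy : yq H r Q i c a = lam • fr Q j x) : fq H r Q i c a = lam ^ (1 + r * Q ^ i) := by
  unfold fq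
  rw [hy, bform_smul_fr, fr_fr, h.gram_one hx, mul_one]

theorem Fm.exists_fq_ne {L : Type} [Field L] {H : Matrix (Fin n) (Fin n) L} {η : L}
    {x : Fin n → L} (h : Fm H r Q δ η) (hx : Oq H r Q i x) (hi : 0 < i) (hj : i + δ = j + 1)
    {C : Matrix (Fin d) (Fin (j + 1)) L} {C' : Matrix (Fin (j + 1)) (Fin d) L} (hC : C' * C = 1) :
    ∃ (ch : Fin (j + 1) → Fin d) (a : Fin (j + 1)),
      fq H r Q i ((C * frs Q 0 (j + 1) x).submatrix ch id) a ≠ 0 := by
  obtain ⟨s, hs⟩ := exists_plu_one (u := Cᵀ) (Y := C'ᵀ) (by rw [← transpose_mul, hC, transpose_one])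
  obtain ⟨ch, hch⟩ : ∃ ch, plu Cᵀ ch ≠ 0 := by
    by_contra hc
    have : ∀ ch, plu Cᵀ ch = 0 := fun ch => by_contra fun h0 => hc ⟨ch, h0⟩
    simp [this] at hs
  set E := C.submatrix ch id with hE
  have hd : E.det ≠ 0 := by
    rw [← det_transpose]
    exact hch
  refine ⟨ch, ?_⟩
  by_contra hc
  have e0 : (C * frs Q 0 (j + 1) x).submatrix ch id = E * frs Q 0 (j + 1) x := rfl
  have h1 : yq H r Q i (E * frs Q 0 (j + 1) x) = 0 := by
    funext a
    obtain ⟨lam, hl⟩ := h.yq_eq hx hi hj E a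
    have h2 : lam ^ (1 + r * Q ^ i) = 0 := by
      rw [← h.fq_eq hx hl]
      exact by_contra fun h0 => hc ⟨a, h0⟩
    rw [hl, (pow_eq_zero_iff (by omega)).1 h2, zero_smul]
    rfl
  obtain ⟨Y, hY⟩ := h.frs_inv hx (s := j + 1) hj.ge
  obtain ⟨F, hF⟩ := h.fb
  obtain ⟨F', hF'⟩ := h.fQ.pow (i - 1)
  have hD : (dg r (pw (Q ^ (i - 1)) E)).det ≠ 0 := by
    have e1 : (fun t : L => t ^ r) = F := funext fun t => (hF t).symm
    have e2 : (fun t : L => t ^ Q ^ (i - 1)) = F' := funext fun t => (hF' t).symm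
    unfold dg pw
    rw [e1, e2, det_transpose, ← RingHom.mapMatrix_apply, ← RingHom.map_det,
      ← RingHom.mapMatrix_apply, ← RingHom.map_det]
    exact (map_ne_zero F).2 ((map_ne_zero F').2 hd)
  rw [h.yq_CUH] at h1
  have h3 := congrArg (fun M => dg r (pw (Q ^ (i - 1)) E) * M * Y) h1
  simp only [Matrix.mul_smul, Matrix.smul_mul, Matrix.mul_zero, Matrix.zero_mul,
    ← Matrix.mul_assoc, mul_adjugate, Matrix.one_mul] at h3
  rw [Matrix.mul_assoc, hY, Matrix.mul_one, smul_eq_zero, smul_eq_zero] at h3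
  have h4 := (h3.resolve_left hd).resolve_left hD
  have h5 := congrFun (congrFun h4 0) (Fin.last j)
  rw [adjugate_apply] at h5
  obtain ⟨u, hu0, hu⟩ := exists_vecMul_eq_zero_iff.2 h5
  have h6 : ∀ l, l ≠ Fin.last j → u l = 0 := by
    refine h.aux_CUH hx hi hj fun l hl => ?_
    rw [← show _ = (0 : L) from congrFun hu l, vecMul, vecMul, dotProduct, dotProduct]
    refine Finset.sum_congr rfl fun m _ => ?_
    by_cases hm : m = Fin.last j
    · subst hm
      show _ * gam_CUH H r Q i j x _ l = _ * updateRow _ _ _ _ l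
      rw [updateRow_self, h.gam_zero_CUH hx hi hj (Fin.le_last l), Pi.single_eq_of_ne hl]
    · show _ * gam_CUH H r Q i j x m l = _ * updateRow _ _ _ m l
      rw [updateRow_ne hm]
  have h7 := congrFun hu 0
  rw [vecMul, dotProduct, Finset.sum_eq_single (Fin.last j)
    (fun m _ hm => by rw [h6 m hm, zero_mul]) (by simp)] at h7
  refine hu0 (funext fun l => ?_)
  by_cases hl : l = Fin.last j
  · subst hl
    simpa using h7
  · exact h6 l hl

end Pool.Agent.CXD
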