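import Pool.Agent.P.MP_2ce3e7_ag.CX0

/-! The form and the Frobenius map. -/

set_option linter.unusedSectionVars false
set_option linter.unusedVariables false

open MvPolynomial Matrix

noncomputable section

namespace Pool.Agent.CXD

variable {n : ℕ} {A A' : Type} [CommRing A] [CommRing A']

/-- the common hypotheses -/
structure Hyp (p : ℕ) (G : Matrix (Fin n) (Fin n) A) (r Q κ δ ex : ℕ) (η : A) : Prop where
  prime : p.Prime
  char : CharP A p
  hr : ∃ e, r = p ^ e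
  hQ : ∃ e, 0 < e ∧ Q = p ^ e
  hδ : δ ≤ 1
  hex : ex ≤ 1
  hκ : 0 < κ
  dim : n = 2 * κ + δ + ex
  hQr : Q ^ δ = r * r
  sym : ∀ a b, G a b = η * G b a ^ r
  unit : IsUnit η
  fix : ∀ a b, G a b ^ Q = G a b
  det : IsUnit G.det
  alt : δ + ex = 0 → bj G r Q 0 = 0

/-- the `j`-th power of the Frobenius map -/
def fr (Q j : ℕ) (x : Fin n → A) : Fin n → A := fun a => x a ^ Q ^ j

/-- points of the open variety -/
structure OnX (G : Matrix (Fin n) (Fin n) A) (r Q κ : ℕ) (ξ : Fin n → A) : Prop where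
  zero : ∀ j < κ, bform G r ξ (fr Q j ξ) = 0
  unit : IsUnit (bform G r ξ (fr Q κ ξ))

/-- a basis made of Frobenius images of `ξ` and possibly one more vector -/
structure Bas (G : Matrix (Fin n) (Fin n) A) (r Q κ δ : ℕ) (ξ : Fin n → A) (a₀ : ℕ)
    (E : Matrix (Fin n) (Fin n) A) : Prop where
  row : ∀ i : Fin n, i.val < 2 * κ + δ → E i = fr Q (a₀ + i) ξ
  det : IsUnit E.det
  perp : ∀ i : Fin n, i.val = 2 * κ + δ → ∀ j, a₀ ≤ j → j < a₀ + (2 * κ + δ) →
    bform G r (E i) (fr Q j ξ) = 0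
  zz : ∀ i : Fin n, i.val = 2 * κ + δ → IsUnit (bform G r (E i) (E i))

/-- supported in the interval `[s, t)` -/
def Supp (u : Fin n → A) (s t : ℕ) : Prop := ∀ i : Fin n, ¬ (s ≤ i.val ∧ i.val < t) → u i = 0

variable {p r Q κ δ ex : ℕ} {G : Matrix (Fin n) (Fin n) A} {η : A} {ξ : Fin n → A} {a₀ : ℕ}
  {E : Matrix (Fin n) (Fin n) A}

theorem frob_CXG (hp : p.Prime) (hc : CharP A p) (e : ℕ) :
    ∃ F : A →+* A, ∀ x, F x = x ^ p ^ e := by
  haveI := hc
  haveI : Fact p.Prime := ⟨hp⟩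
  exact ⟨iterateFrobenius A p e, fun x => iterateFrobenius_def p e x⟩

theorem Hyp.frob_r_CXG (h : Hyp p G r Q κ δ ex η) : ∃ F : A →+* A, ∀ x, F x = x ^ r := by
  obtain ⟨a, ha⟩ := h.hr
  rw [ha]
  exact frob_CXG h.prime h.char a

theorem Hyp.frob_Q_CXG (h : Hyp p G r Q κ δ ex η) (j : ℕ) :
    ∃ F : A →+* A, ∀ x, F x = x ^ Q ^ j := by
  obtain ⟨e, -, he⟩ := h.hQ
  rw [he, ← pow_mul]
  exact frob_CXG h.prime h.char _

theorem Hyp.frob_rQ_CXG (h : Hyp p G r Q κ δ ex η) (j : ℕ) :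
    ∃ F : A →+* A, ∀ x, F x = x ^ (r * Q ^ j) := by
  obtain ⟨a, ha⟩ := h.hr
  obtain ⟨e, -, he⟩ := h.hQ
  rw [he, ha, ← pow_mul, ← pow_add]
  exact frob_CXG h.prime h.char _

theorem Hyp.Q_ne_CXG (h : Hyp p G r Q κ δ ex η) : Q ≠ 0 := by
  obtain ⟨e, -, he⟩ := h.hQ
  rw [he]
  exact pow_ne_zero _ h.prime.ne_zero

theorem Hyp.r_ne_CXG (h : Hyp p G r Q κ δ ex η) : r ≠ 0 := by
  obtain ⟨e, he⟩ := h.hr
  rw [he]
  exact pow_ne_zero _ h.prime.ne_zero

theorem Hyp.fix_pow_CXG (h : Hyp p G r Q κ δ ex η) (a b : Fin n) (j : ℕ) :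
    G a b ^ Q ^ j = G a b := by
  induction j with
  | zero => simp
  | succ j ih => rw [pow_succ, pow_mul, ih, h.fix]

theorem fr_zero (x : Fin n → A) : fr Q 0 x = x := by
  funext a; simp [fr]

theorem fr_fr (i j : ℕ) (x : Fin n → A) : fr Q i (fr Q j x) = fr Q (j + i) x := by
  funext a; simp only [fr]; rw [← pow_mul, ← pow_add]

theorem map_bform (f : A →+* A') (x y : Fin n → A) :
    f (bform G r x y) = bform (G.map f) r (fun a => f (x a)) (fun a => f (y a)) := by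
  simp [bform, map_sum, map_mul, map_pow]

theorem map_fr (f : A →+* A') (j : ℕ) (x : Fin n → A) :
    (fun a => f (fr Q j x a)) = fr Q j fun a => f (x a) := by
  funext a; simp [fr]

/-- evaluation of `bj` -/
theorem hom_bj (f : MvPolynomial (Fin n) A →+* A') (j : ℕ) :
    f (bj G r Q j) = bform (G.map (f.comp C)) r (fun a => f (X a)) (fr Q j fun a => f (X a)) := by
  unfold bj
  rw [map_bform]
  congr 1
  funext a; simp [fr]

theorem bj_hom (j : ℕ) : (bj G r Q j).IsHomogeneous (1 + r * Q ^ j) := by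
  unfold bj bform
  refine IsHomogeneous.sum _ _ _ fun a _ => IsHomogeneous.sum _ _ _ fun b _ => ?_
  have h1 : (X a : MvPolynomial (Fin n) A).IsHomogeneous 1 := isHomogeneous_X _ _
  have h2 : (G.map C a b : MvPolynomial (Fin n) A).IsHomogeneous 0 := isHomogeneous_C _ _
  have h3 : (((X b : MvPolynomial (Fin n) A) ^ Q ^ j) ^ r).IsHomogeneous (1 * Q ^ j * r) :=
    ((isHomogeneous_X _ _).pow _).pow _
  have h4 := (h1.mul h2).mul h3
  have e : 1 + 0 + 1 * Q ^ j * r = 1 + r * Q ^ j := by ring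
  rwa [e] at h4

theorem Hyp.map (h : Hyp p G r Q κ δ ex η) [Nontrivial A'] (f : A →+* A') :
    Hyp p (G.map f) r Q κ δ ex (f η) := by
  haveI := h.char
  haveI : Fact p.Prime := ⟨h.prime⟩
  refine ⟨h.prime, ?_, h.hr, h.hQ, h.hδ, h.hex, h.hκ, h.dim, h.hQr, ?_, h.unit.map f, ?_, ?_, ?_⟩
  · refine (CharP.charP_iff_prime_eq_zero h.prime).2 ?_
    rw [← map_natCast f p, CharP.cast_eq_zero A p, map_zero]
  · intro a b
    simp only [Matrix.map_apply]
    rw [h.sym a b, map_mul, map_pow]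
  · intro a b
    simp only [Matrix.map_apply]
    rw [← map_pow, h.fix]
  · have := h.det.map f
    rwa [RingHom.map_det] at this
  · intro h0
    have h1 := hom_bj (G := G) (r := r) (Q := Q) (MvPolynomial.map f) 0
    rw [h.alt h0, map_zero] at h1
    rw [h1]
    unfold bj
    congr 1
    · ext a b : 2; simp
    · funext a; simp
    · funext a; simp [fr]

theorem OnX.map (h : OnX G r Q κ ξ) (f : A →+* A') : OnX (G.map f) r Q κ fun a => f (ξ a) := by
  refine ⟨fun j hj => ?_, ?_⟩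
  · rw [← map_fr, ← map_bform, h.zero j hj, map_zero]
  · rw [← map_fr, ← map_bform]; exact h.unit.map f

theorem Bas.map (h : Bas G r Q κ δ ξ a₀ E) (f : A →+* A') :
    Bas (G.map f) r Q κ δ (fun a => f (ξ a)) a₀ (E.map f) := by
  refine ⟨fun i hi => ?_, ?_, fun i hi j h1 h2 => ?_, fun i hi => ?_⟩
  · rw [← map_fr, ← h.row i hi]; rfl
  · have := h.det.map f
    rwa [RingHom.map_det] at this
  · have e : E.map f i = fun a => f (E i a) := rfl
    rw [e, ← map_fr, ← map_bform, h.perp i hi j h1 h2, map_zero]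
  · have e : E.map f i = fun a => f (E i a) := rfl
    rw [e, ← map_bform]; exact (h.zz i hi).map f

theorem bform_left (u y : Fin n → A) : bform G r (u ᵥ* E) y = ∑ i, u i * bform G r (E i) y := by
  simp only [bform, Matrix.vecMul, dotProduct, Finset.sum_mul, Finset.mul_sum]
  calc ∑ a, ∑ b, ∑ i, u i * E i a * G a b * y b ^ r
      = ∑ a, ∑ i, ∑ b, u i * E i a * G a b * y b ^ r :=
        Finset.sum_congr rfl fun a _ => Finset.sum_comm
    _ = ∑ i, ∑ a, ∑ b, u i * E i a * G a b * y b ^ r := Finset.sum_comm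
    _ = _ := by
        refine Finset.sum_congr rfl fun i _ => Finset.sum_congr rfl fun a _ =>
          Finset.sum_congr rfl fun b _ => ?_
        ring

theorem Hyp.bform_right (h : Hyp p G r Q κ δ ex η) (l : ℕ) (x u : Fin n → A) :
    bform G r x (fr Q l (u ᵥ* E)) = ∑ i, u i ^ (r * Q ^ l) * bform G r x (fr Q l (E i)) := by
  obtain ⟨F, hF⟩ := h.frob_rQ_CXG l
  have e : ∀ b, fr Q l (u ᵥ* E) b ^ r = ∑ i, u i ^ (r * Q ^ l) * fr Q l (E i) b ^ r := by
    intro b
    simp only [fr, Matrix.vecMul, dotProduct]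
    rw [← pow_mul, mul_comm (Q ^ l) r, ← hF, map_sum]
    refine Finset.sum_congr rfl fun i _ => ?_
    rw [hF, mul_pow, ← pow_mul, mul_comm (Q ^ l) r]
  simp only [bform, e, Finset.mul_sum]
  calc ∑ a, ∑ b, ∑ i, x a * G a b * (u i ^ (r * Q ^ l) * fr Q l (E i) b ^ r)
      = ∑ a, ∑ i, ∑ b, x a * G a b * (u i ^ (r * Q ^ l) * fr Q l (E i) b ^ r) :=
        Finset.sum_congr rfl fun a _ => Finset.sum_comm
    _ = ∑ i, ∑ a, ∑ b, x a * G a b * (u i ^ (r * Q ^ l) * fr Q l (E i) b ^ r) := Finset.sum_comm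
    _ = _ := by
        refine Finset.sum_congr rfl fun i _ => Finset.sum_congr rfl fun a _ =>
          Finset.sum_congr rfl fun b _ => ?_
        ring

theorem Hyp.bform_fr (h : Hyp p G r Q κ δ ex η) (j : ℕ) (x y : Fin n → A) :
    bform G r (fr Q j x) (fr Q j y) = bform G r x y ^ Q ^ j := by
  obtain ⟨F, hF⟩ := h.frob_Q_CXG j
  rw [← hF, map_bform]
  congr 1
  · ext a b
    simp only [Matrix.map_apply]
    rw [hF, h.fix_pow_CXG]
  · funext a; rw [hF]; rfl
  · funext a; rw [hF]; rfl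

theorem Hyp.bform_sym (h : Hyp p G r Q κ δ ex η) (x y : Fin n → A) :
    bform G r (fr Q δ y) x = η * bform G r x y ^ r := by
  obtain ⟨F, hF⟩ := h.frob_r_CXG
  rw [← hF (bform G r x y), map_bform]
  simp only [bform, fr, Matrix.map_apply, hF, Finset.mul_sum]
  rw [Finset.sum_comm]
  refine Finset.sum_congr rfl fun a _ => Finset.sum_congr rfl fun b _ => ?_
  rw [h.sym b a, h.hQr, pow_mul]
  ring

theorem Hyp.gram_zero (h : Hyp p G r Q κ δ ex η) (hz : ∀ j < κ, bform G r ξ (fr Q j ξ) = 0)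
    {i j : ℕ} (h1 : i < j + δ + κ) (h2 : j < i + κ) : bform G r (fr Q i ξ) (fr Q j ξ) = 0 := by
  have key : ∀ a k, k < κ → bform G r (fr Q a ξ) (fr Q (a + k) ξ) = 0 := by
    intro a k hk
    rw [add_comm a k, ← fr_fr, h.bform_fr, hz k hk, zero_pow (pow_ne_zero _ h.Q_ne_CXG)]
  rcases le_or_gt i j with hij | hij
  · obtain ⟨k, rfl⟩ := Nat.exists_eq_add_of_le hij
    exact key i k (by omega)
  · have hδ := h.hδ
    obtain ⟨k, hk⟩ : ∃ k, i = (j + k) + δ := ⟨i - j - δ, by omega⟩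
    rw [hk, ← fr_fr, h.bform_sym, key j k (by omega), zero_pow h.r_ne_CXG, mul_zero]

theorem Hyp.gram_left (h : Hyp p G r Q κ δ ex η) (hξ : OnX G r Q κ ξ) (i : ℕ) :
    IsUnit (bform G r (fr Q i ξ) (fr Q (i + κ) ξ)) := by
  rw [add_comm i κ, ← fr_fr, h.bform_fr]
  exact hξ.unit.pow _

theorem Hyp.gram_right (h : Hyp p G r Q κ δ ex η) (hξ : OnX G r Q κ ξ) (j : ℕ) :
    IsUnit (bform G r (fr Q (j + δ + κ) ξ) (fr Q j ξ)) := by
  have e : j + δ + κ = (j + κ) + δ := by ring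
  rw [e, ← fr_fr, h.bform_sym]
  exact h.unit.mul ((h.gram_left hξ j).pow _)

theorem Hyp.expand_eqn (h : Hyp p G r Q κ δ ex η) (i j : ℕ) :
    expand (Q ^ i) (eqn G r Q κ j) = eqn G r Q κ j ^ Q ^ i := by
  haveI := h.char
  haveI : Nontrivial A := CharP.nontrivial_of_char_ne_one h.prime.ne_one
  have hC := h.map (C : A →+* MvPolynomial (Fin n) A)
  have hb : ∀ k, expand (Q ^ i) (bj G r Q k) = bj G r Q k ^ Q ^ i := by
    intro k
    have h1 := hom_bj (G := G) (r := r) (Q := Q)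
      (expand (Q ^ i) : MvPolynomial (Fin n) A →ₐ[A] MvPolynomial (Fin n) A).toRingHom k
    have h2 := hC.bform_fr i X (fr Q k X)
    have h3 : bj G r Q k = bform (G.map C) r X (fr Q k X) := rfl
    rw [h3, ← h2, ← h3]
    refine h1.trans ?_
    congr 1
    · ext a b : 2; simp
    · funext a; simp [fr]
    · funext a
      simp only [fr, AlgHom.toRingHom_eq_coe, RingHom.coe_coe, expand_X]
      rw [← pow_mul, ← pow_mul, mul_comm]
  unfold eqn
  split_ifs with hj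
  · exact hb j
  · obtain ⟨F, hF⟩ := hC.frob_Q_CXG i
    rw [map_sub, map_one, hb, ← hF, ← hF, map_sub, map_one]

theorem Hyp.expand_rel (h : Hyp p G r Q κ δ ex η) (i : ℕ) {f : MvPolynomial (Fin n) A}
    (hf : f ∈ rel G r Q κ) : expand (Q ^ i) f ∈ rel G r Q κ := by
  have h1 : (rel G r Q κ).map
      (expand (Q ^ i) : MvPolynomial (Fin n) A →ₐ[A] MvPolynomial (Fin n) A) ≤ rel G r Q κ := by
    unfold rel
    rw [Ideal.map_span, Ideal.span_le]
    rintro _ ⟨_, ⟨j, hj, rfl⟩, rfl⟩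
    rw [SetLike.mem_coe, h.expand_eqn]
    exact Ideal.pow_mem_of_mem _ (Ideal.subset_span (Set.mem_image_of_mem _ hj)) _
      (Nat.pos_of_ne_zero (pow_ne_zero _ h.Q_ne_CXG))
  exact h1 (Ideal.mem_map_of_mem _ hf)

/-- a root of the Frobenius -/
theorem Hyp.exists_root (h : Hyp p G r Q κ δ ex η) (i : ℕ) {f : MvPolynomial (Fin n) A} {c : ℕ}
    (hf : f.IsHomogeneous c) :
    ∃ w : MvPolynomial (Fin n) A, w.IsHomogeneous c ∧ expand (Q ^ i) w = f ^ Q ^ i := by
  haveI := h.char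
  haveI : Fact p.Prime := ⟨h.prime⟩
  obtain ⟨e, -, he⟩ := h.hQ
  refine ⟨MvPolynomial.map (iterateFrobenius A p (e * i)) f, hf.map _, ?_⟩
  rw [he, ← pow_mul, ← MvPolynomial.map_expand, MvPolynomial.map_iterateFrobenius_expand]

theorem Hyp.coprime (h : Hyp p G r Q κ δ ex η) (i : ℕ) : Nat.Coprime (Q ^ i) (1 + r * Q ^ κ) := by
  obtain ⟨e, he0, he⟩ := h.hQ
  have hd : p ∣ r * Q ^ κ := by
    refine Dvd.dvd.mul_left ?_ r
    rw [he, ← pow_mul]
    exact dvd_pow_self p (Nat.mul_ne_zero he0.ne' h.hκ.ne')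
  rw [he, ← pow_mul, ← he]
  refine Nat.Coprime.pow_left _ ?_
  obtain ⟨c, hc⟩ := hd
  rw [hc]
  exact (Nat.coprime_add_mul_left_right p 1 c).2 (Nat.coprime_one_right p)

end Pool.Agent.CXD
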