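import Pool.Agent.P.MP_2ce3e7_ag.CXO
import Pool.Agent.P.MP_2ce3e7_ag.CXG

/-! The coordinate ring and its Frobenius map. -/

set_option linter.unusedSectionVars false
set_option linter.unusedVariables false

open MvPolynomial

noncomputable section

namespace Pool.Agent.CXD

variable {n : ℕ} {K : Type} [CommRing K] {p r Q κ δ ex : ℕ} {G : Matrix (Fin n) (Fin n) K} {η : K}

theorem mk_bj_CXR : Ideal.Quotient.mk (rel G r Q κ) (bj G r Q κ) = 1 := by
  rw [← map_one (Ideal.Quotient.mk (rel G r Q κ)), Ideal.Quotient.eq]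
  refine Ideal.subset_span ⟨κ, Nat.lt_succ_self κ, ?_⟩
  simp [eqn]

theorem mem_cox {y : Po n K ⧸ rel G r Q κ} : y ∈ Cox G r Q κ ↔
    ∃ (s : ℕ) (f : Po n K), f.IsHomogeneous ((1 + r * Q ^ κ) * s) ∧ Ideal.Quotient.mk _ f = y := by
  constructor
  · intro hy
    induction hy using Algebra.adjoin_induction with
    | mem x hx =>
      obtain ⟨f, hf, rfl⟩ := hx
      exact ⟨1, f, by simpa using hf, rfl⟩
    | algebraMap c => exact ⟨0, C c, by simpa using isHomogeneous_C (Fin n) c, rfl⟩
    | add x y _ _ hx hy =>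
      obtain ⟨s, f, hf, rfl⟩ := hx
      obtain ⟨t, g, hg, rfl⟩ := hy
      refine ⟨s + t, f * bj G r Q κ ^ t + bj G r Q κ ^ s * g, ?_, ?_⟩
      · rw [mul_add]
        exact (hf.mul ((bj_hom κ).pow t)).add (((bj_hom κ).pow s).mul hg)
      · simp only [map_add, map_mul, map_pow, mk_bj_CXR, one_pow, mul_one, one_mul]
    | mul x y _ _ hx hy =>
      obtain ⟨s, f, hf, rfl⟩ := hx
      obtain ⟨t, g, hg, rfl⟩ := hy
      refine ⟨s + t, f * g, ?_, map_mul _ _ _⟩
      rw [mul_add]
      exact hf.mul hg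
  · rintro ⟨s, f, hf, rfl⟩
    have h1 : f ∈ homogeneousSubmodule (Fin n) K (1 + r * Q ^ κ) ^ s := by
      rw [← homogeneousSubmodule_one_pow, ← pow_mul, homogeneousSubmodule_one_pow]
      exact hf
    refine Submodule.pow_induction_on_left _
      (C := fun f => Ideal.Quotient.mk (rel G r Q κ) f ∈ Cox G r Q κ) ?_ ?_ ?_ h1
    · intro c
      exact Subalgebra.algebraMap_mem _ c
    · intro x y hx hy
      rw [map_add]
      exact add_mem hx hy
    · intro m hm x hx
      rw [map_mul]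
      exact mul_mem (Algebra.subset_adjoin ⟨m, hm, rfl⟩) hx

theorem cox_integral_CXR (y : Po n K ⧸ rel G r Q κ) : IsIntegral (Cox G r Q κ) y := by
  obtain ⟨f, rfl⟩ := Ideal.Quotient.mk_surjective y
  induction f using MvPolynomial.induction_on with
  | C c =>
    have h1 : Ideal.Quotient.mk (rel G r Q κ) (C c) ∈ Cox G r Q κ := Subalgebra.algebraMap_mem _ c
    exact isIntegral_algebraMap (R := Cox G r Q κ) (x := ⟨_, h1⟩)
  | add f g hf hg =>
    rw [map_add]
    exact hf.add hg
  | mul_X f a hf =>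
    rw [map_mul]
    refine hf.mul ?_
    have h1 : Ideal.Quotient.mk (rel G r Q κ) (X a ^ (1 + r * Q ^ κ)) ∈ Cox G r Q κ :=
      Algebra.subset_adjoin ⟨_, isHomogeneous_X_pow a _, rfl⟩
    refine IsIntegral.of_pow (n := 1 + r * Q ^ κ) (by omega) ?_
    rw [← map_pow]
    exact isIntegral_algebraMap (R := Cox G r Q κ) (x := ⟨_, h1⟩)

theorem cox_mfinite_CXR : Module.Finite (Cox G r Q κ) (Po n K ⧸ rel G r Q κ) := by
  have : Algebra.IsIntegral (Cox G r Q κ) (Po n K ⧸ rel G r Q κ) := ⟨cox_integral_CXR⟩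
  have : Algebra.FiniteType (Cox G r Q κ) (Po n K ⧸ rel G r Q κ) :=
    Algebra.FiniteType.of_restrictScalars_finiteType K _ _
  exact Algebra.IsIntegral.finite (R := Cox G r Q κ) (A := Po n K ⧸ rel G r Q κ)

theorem cox_finite : (Cox G r Q κ).val.toRingHom.Finite :=
  cox_mfinite_CXR

theorem cox_finiteType [IsNoetherianRing K] : Algebra.FiniteType K (Cox G r Q κ) :=
  ⟨fg_of_fg_of_fg K (Cox G r Q κ) (Po n K ⧸ rel G r Q κ) Algebra.FiniteType.out
    (cox_mfinite_CXR (G := G) (r := r) (Q := Q) (κ := κ)).fg_top Subtype.val_injective⟩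

theorem cox_noeth [IsNoetherianRing K] : IsNoetherianRing (Cox G r Q κ) := by
  have := cox_finiteType (G := G) (r := r) (Q := Q) (κ := κ)
  exact Algebra.FiniteType.isNoetherianRing K _

theorem exists_phi [IsNoetherianRing K] (h : Hyp p G r Q κ δ ex η) :
    ∃ φ : Cox G r Q κ →+* Cox G r Q κ, φ.Finite ∧ ∀ (i : ℕ) (y : Cox G r Q κ) (f : Po n K),
      Ideal.Quotient.mk _ f = y.1 → Ideal.Quotient.mk _ (expand (Q ^ i) f) = ((φ ^ i) y).1 := by
  have hQ : 0 < Q := by
    obtain ⟨e, -, he⟩ := h.hQ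
    rw [he]
    exact pow_pos h.prime.pos e
  let ψ : (Po n K ⧸ rel G r Q κ) →ₐ[K] (Po n K ⧸ rel G r Q κ) :=
    Ideal.Quotient.liftₐ (rel G r Q κ) ((Ideal.Quotient.mkₐ K (rel G r Q κ)).comp (expand Q))
      fun f hf => by
        have h1 := h.expand_rel 1 hf
        rw [pow_one] at h1
        exact Ideal.Quotient.eq_zero_iff_mem.2 h1
  have hψ : ∀ f : Po n K, ψ (Ideal.Quotient.mk _ f) = Ideal.Quotient.mk _ (expand Q f) :=
    fun f => rfl
  have hmem : ∀ y : Cox G r Q κ, ψ y.1 ∈ Cox G r Q κ := by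
    intro y
    obtain ⟨s, f, hf, hy⟩ := mem_cox.1 y.2
    refine mem_cox.2 ⟨s * Q, expand Q f, ?_, ?_⟩
    · rw [← mul_assoc]
      exact expand_hom hf Q
    · rw [← hy, hψ]
  let φ : Cox G r Q κ →ₐ[K] Cox G r Q κ :=
    (ψ.comp (Cox G r Q κ).val).codRestrict (Cox G r Q κ) hmem
  have hφ : ∀ y : Cox G r Q κ, (φ y).1 = ψ y.1 := fun y => rfl
  refine ⟨φ.toRingHom, ?_, ?_⟩
  · refine RingHom.IsIntegral.to_finite ?_ ?_
    · intro y
      obtain ⟨s, f, hf, hy⟩ := mem_cox.1 y.2
      obtain ⟨w, hw, hwf⟩ := h.exists_root 1 hf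
      rw [pow_one] at hwf
      have h1 : Ideal.Quotient.mk (rel G r Q κ) w ∈ Cox G r Q κ := mem_cox.2 ⟨s, w, hw, rfl⟩
      have h2 : φ ⟨_, h1⟩ = y ^ Q := by
        apply Subtype.ext
        rw [hφ, hψ, hwf, map_pow, hy]
        rfl
      refine ⟨Polynomial.X ^ Q - Polynomial.C ⟨_, h1⟩, Polynomial.monic_X_pow_sub_C _ hQ.ne', ?_⟩
      rw [Polynomial.eval₂_sub, Polynomial.eval₂_X_pow, Polynomial.eval₂_C, sub_eq_zero]
      exact h2.symm
    · refine RingHom.FiniteType.of_comp_finiteType (f := algebraMap K (Cox G r Q κ)) ?_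
      have h1 : φ.toRingHom.comp (algebraMap K (Cox G r Q κ)) = algebraMap K (Cox G r Q κ) :=
        RingHom.ext fun c => φ.commutes c
      rw [h1]
      exact RingHom.finiteType_algebraMap.2 cox_finiteType
  · intro i
    induction i with
    | zero =>
      intro y f hf
      rw [pow_zero, pow_zero, expand_one_apply]
      exact hf
    | succ i ih =>
      intro y f hf
      rw [pow_succ', pow_succ', expand_mul, ← hψ, ih y f hf]
      rfl

/-- the Frobenius map of an algebra of finite type over a finite field is finite -/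
theorem frob_finite (k R : Type) [Field k] [Finite k] [CommRing R] [Algebra k R]
    [Algebra.FiniteType k R] (p : ℕ) [ExpChar R p] : (frobenius R p).Finite := by
  rcases subsingleton_or_nontrivial R with hR | hR
  · exact RingHom.Finite.of_surjective _ fun y => ⟨y, Subsingleton.elim _ _⟩
  have : ExpChar k p := RingHom.expChar (algebraMap k R) (algebraMap k R).injective p
  refine RingHom.IsIntegral.to_finite ?_ ?_
  · intro y
    refine ⟨Polynomial.X ^ p - Polynomial.C y,
      Polynomial.monic_X_pow_sub_C _ (expChar_pos R p).ne', ?_⟩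
    rw [Polynomial.eval₂_sub, Polynomial.eval₂_X_pow, Polynomial.eval₂_C, sub_eq_zero]
    rfl
  · refine RingHom.FiniteType.of_comp_finiteType (f := algebraMap k R) ?_
    have h1 : (frobenius R p).comp (algebraMap k R) = (algebraMap k R).comp (frobenius k p) :=
      RingHom.ext fun c => (map_pow (algebraMap k R) c p).symm
    rw [h1]
    refine RingHom.FiniteType.comp (RingHom.finiteType_algebraMap.2 inferInstance)
      (RingHom.FiniteType.of_surjective _ ?_)
    exact Finite.surjective_of_injective (frobenius k p).injective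

end Pool.Agent.CXD
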