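import Pool.Agent.P.MP_2ce3e7_ag.CUB
import Pool.Agent.P.MP_2ce3e7_ag.CXR

/-! The cover of the Coxeter variety and its weights. -/

set_option linter.unusedSectionVars false
set_option linter.unusedVariables false

open Matrix

noncomputable section

namespace Pool.Agent.CXD

variable {k : Type} [Field k] {m r Q i : ℕ} (H : Matrix (Fin m) (Fin m) k)

/-- the coordinate ring of the cover -/
abbrev Dw (H : Matrix (Fin m) (Fin m) k) (r Q i : ℕ) : Type := Po m k ⧸ rel H r Q i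

/-- the universal point -/
def xw (r Q i : ℕ) : Fin m → Dw H r Q i := fun a => Ideal.Quotient.mk _ (MvPolynomial.X a)

theorem comp_C_CUI : (Ideal.Quotient.mk (rel H r Q i)).comp MvPolynomial.C =
    algebraMap k (Dw H r Q i) := rfl

theorem mk_bj_CUI (j : ℕ) : Ideal.Quotient.mk (rel H r Q i) (bj H r Q j) =
    bform (H.map (algebraMap k (Dw H r Q i))) r (xw H r Q i) (fr Q j (xw H r Q i)) := by
  rw [hom_bj, comp_C_CUI]
  rfl

theorem oq_xw : Oq (al (Dw H r Q i) H) r Q i (xw H r Q i) := by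
  refine ⟨fun j hj => ?_, ?_⟩
  · rw [← mk_bj_CUI, Ideal.Quotient.eq_zero_iff_mem]
    refine Ideal.subset_span ⟨j, Nat.lt_succ_of_lt hj, ?_⟩
    simp [eqn, hj]
  · rw [← mk_bj_CUI, mk_bj_CXR]

theorem exists_pointW {R : Type} [CommRing R] [Algebra k R] {x : Fin m → R}
    (hx : Oq (al R H) r Q i x) :
    ∃ τ : Dw H r Q i →ₐ[k] R, ∀ a, τ (xw H r Q i a) = x a := by
  have hb : ∀ j, MvPolynomial.aeval x (bj H r Q j) =
      bform (H.map (algebraMap k R)) r x (fr Q j x) := by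
    intro j
    have h := hom_bj (G := H) (r := r) (Q := Q)
      (MvPolynomial.aeval x : MvPolynomial (Fin m) k →ₐ[k] R).toRingHom j
    have e1 : (MvPolynomial.aeval x : MvPolynomial (Fin m) k →ₐ[k] R).toRingHom.comp
        MvPolynomial.C = algebraMap k R := by
      ext c; simp
    have e2 : (fun a => (MvPolynomial.aeval x : MvPolynomial (Fin m) k →ₐ[k] R).toRingHom
        (MvPolynomial.X a)) = x := by
      funext a; simp
    rw [e1, e2] at h
    exact h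
  have hI : ∀ f ∈ rel H r Q i, MvPolynomial.aeval x f = 0 := by
    intro f hf
    have : rel H r Q i ≤
        RingHom.ker (MvPolynomial.aeval x : MvPolynomial (Fin m) k →ₐ[k] R) := by
      refine Ideal.span_le.2 ?_
      rintro _ ⟨j, hj, rfl⟩
      rw [SetLike.mem_coe, RingHom.mem_ker]
      unfold eqn
      split_ifs with h
      · rw [hb, hx.zero j h]
      · rw [map_sub, hb, hx.one, map_one, sub_self]
    exact this hf
  refine ⟨Ideal.Quotient.liftₐ _ (MvPolynomial.aeval x) hI, fun a => ?_⟩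
  simp [xw]

/-- elements with a homogeneous representative whose degree has a given residue -/
def Wq (r Q i : ℕ) (c : ZMod (1 + r * Q ^ i)) (y : Dw H r Q i) : Prop :=
  ∃ (e : ℕ) (f : Po m k), f.IsHomogeneous e ∧ (e : ZMod (1 + r * Q ^ i)) = c ∧
    Ideal.Quotient.mk _ f = y

variable {H}

theorem Wq.mul {c d : ZMod (1 + r * Q ^ i)} {y z : Dw H r Q i} (hy : Wq H r Q i c y)
    (hz : Wq H r Q i d z) : Wq H r Q i (c + d) (y * z) := by
  obtain ⟨e, f, hf, rfl, rfl⟩ := hy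
  obtain ⟨e', g, hg, rfl, rfl⟩ := hz
  exact ⟨e + e', f * g, hf.mul hg, Nat.cast_add _ _, map_mul _ _ _⟩

theorem wt_raise_CUI {e : ℕ} {f : Po m k} (hf : f.IsHomogeneous e) (s : ℕ) :
    ∃ g : Po m k, g.IsHomogeneous (e + (1 + r * Q ^ i) * s) ∧
      Ideal.Quotient.mk (rel H r Q i) g = Ideal.Quotient.mk _ f :=
  ⟨f * bj H r Q i ^ s, hf.mul ((bj_hom i).pow s), by
    simp only [map_mul, map_pow, mk_bj_CXR, one_pow, mul_one]⟩

theorem Wq.add {c : ZMod (1 + r * Q ^ i)} {y z : Dw H r Q i} (hy : Wq H r Q i c y)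
    (hz : Wq H r Q i c z) : Wq H r Q i c (y + z) := by
  obtain ⟨e, f, hf, he, rfl⟩ := hy
  obtain ⟨e', g, hg, he', rfl⟩ := hz
  have h : e ≡ e' [MOD 1 + r * Q ^ i] :=
    (ZMod.natCast_eq_natCast_iff _ _ _).1 (he.trans he'.symm)
  rcases le_total e e' with h1 | h1
  · obtain ⟨s, hs⟩ := (Nat.modEq_iff_dvd' h1).1 h
    obtain ⟨f', hf', e1⟩ := wt_raise_CUI (H := H) (r := r) (Q := Q) (i := i) hf s
    have e2 : e + (1 + r * Q ^ i) * s = e' := by rw [← hs]; omega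
    rw [e2] at hf'
    exact ⟨e', f' + g, hf'.add hg, he', by rw [map_add, e1]⟩
  · obtain ⟨s, hs⟩ := (Nat.modEq_iff_dvd' h1).1 h.symm
    obtain ⟨g', hg', e1⟩ := wt_raise_CUI (H := H) (r := r) (Q := Q) (i := i) hg s
    have e2 : e' + (1 + r * Q ^ i) * s = e := by rw [← hs]; omega
    rw [e2] at hg'
    exact ⟨e, f + g', hf.add hg', he, by rw [map_add, e1]⟩

theorem wt_zero_CUI (c : ZMod (1 + r * Q ^ i)) : Wq H r Q i c 0 := by
  have : NeZero (1 + r * Q ^ i) := ⟨by omega⟩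
  exact ⟨c.val, 0, MvPolynomial.isHomogeneous_zero _ _ _, ZMod.natCast_zmod_val c, map_zero _⟩

theorem Wq.neg {c : ZMod (1 + r * Q ^ i)} {y : Dw H r Q i} (hy : Wq H r Q i c y) :
    Wq H r Q i c (-y) := by
  obtain ⟨e, f, hf, he, rfl⟩ := hy
  exact ⟨e, -f, hf.neg, he, map_neg _ _⟩

theorem wt_sum_CUI {α : Type} (s : Finset α) {c : ZMod (1 + r * Q ^ i)} {y : α → Dw H r Q i}
    (h : ∀ a ∈ s, Wq H r Q i c (y a)) : Wq H r Q i c (∑ a ∈ s, y a) :=
  Finset.sum_induction y (Wq H r Q i c) (fun _ _ => Wq.add) (wt_zero_CUI c) h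

theorem wt_alg_CUI (t : k) : Wq H r Q i 0 (algebraMap k (Dw H r Q i) t) :=
  ⟨0, MvPolynomial.C t, MvPolynomial.isHomogeneous_C _ _, Nat.cast_zero, rfl⟩

theorem wt_x_CUI (a : Fin m) (e : ℕ) :
    Wq H r Q i (e : ZMod (1 + r * Q ^ i)) (xw H r Q i a ^ e) :=
  ⟨e, MvPolynomial.X a ^ e, by simpa using (MvPolynomial.isHomogeneous_X k a).pow e, rfl,
    map_pow _ _ _⟩

theorem Wq.cox {y : Dw H r Q i} (hy : Wq H r Q i 0 y) : y ∈ Cox H r Q i := by
  obtain ⟨e, f, hf, he, rfl⟩ := hy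
  obtain ⟨s, rfl⟩ := (ZMod.natCast_eq_zero_iff _ _).1 he
  exact mem_cox.2 ⟨s, f, hf, rfl⟩

theorem Wq.cast {c d : ZMod (1 + r * Q ^ i)} {y : Dw H r Q i} (hy : Wq H r Q i c y)
    (h : c = d) : Wq H r Q i d y := h ▸ hy

theorem wt_frs {s : ℕ} (l : Fin s) (a : Fin m) :
    Wq H r Q i ((Q ^ (l : ℕ) : ℕ) : ZMod (1 + r * Q ^ i)) (frs Q 0 s (xw H r Q i) l a) := by
  have := wt_x_CUI (H := H) (r := r) (Q := Q) (i := i) a (Q ^ (l : ℕ))
  simpa [frs, fr] using this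

end Pool.Agent.CXD
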