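import Pool.Agent.P.MP_2ce3e7_ag.CWG3
import Pool.Agent.P.MP_2ce3e7_ag.CUI

/-! The covering of the Coxeter variety is unramified. -/

set_option linter.unusedSectionVars false
set_option linter.unusedVariables false

open Function

noncomputable section

namespace Pool.Agent.CXD

variable {k : Type} [Field k] {m r Q i : ℕ} (H : Matrix (Fin m) (Fin m) k)

theorem aeval_xw_CUI2 (f : Po m k) :
    MvPolynomial.aeval (xw H r Q i) f = Ideal.Quotient.mk (rel H r Q i) f := by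
  have : (MvPolynomial.aeval (xw H r Q i) : Po m k →ₐ[k] Dw H r Q i) =
      Ideal.Quotient.mkₐ k (rel H r Q i) := MvPolynomial.algHom_ext fun a => by
    rw [MvPolynomial.aeval_X]; rfl
  rw [this]; rfl

theorem exists_rho_CUI2 : ∃ ρ : Dw H r Q i →+ AddMonoidAlgebra (Dw H r Q i) (ZMod (1 + r * Q ^ i)),
    ∀ c x, Wq H r Q i c x → ρ x = AddMonoidAlgebra.single c x := by
  have hI : ∀ f ∈ rel H r Q i, MvPolynomial.aeval (fun a =>
      AddMonoidAlgebra.single (1 : ZMod (1 + r * Q ^ i)) (xw H r Q i a)) f = 0 := by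
    intro f hf
    have : rel H r Q i ≤ RingHom.ker (MvPolynomial.aeval (fun a =>
        AddMonoidAlgebra.single (1 : ZMod (1 + r * Q ^ i)) (xw H r Q i a)) :
          MvPolynomial (Fin m) k →ₐ[k] _) := by
      refine Ideal.span_le.2 ?_
      rintro _ ⟨j, hj, rfl⟩
      rw [SetLike.mem_coe, RingHom.mem_ker]
      unfold eqn
      split_ifs with h
      · rw [aeval_hom_CWG3 _ (bj_hom j), aeval_xw_CUI2, mk_bj_CUI, (oq_xw H).zero j h,
          AddMonoidAlgebra.single_zero]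
      · rw [map_sub, aeval_hom_CWG3 _ (bj_hom i), aeval_xw_CUI2, mk_bj_CXR, ZMod.natCast_self,
          map_one, AddMonoidAlgebra.one_def, sub_self]
    exact this hf
  refine ⟨(Ideal.Quotient.liftₐ _ _ hI).toRingHom.toAddMonoidHom, ?_⟩
  rintro _ _ ⟨e, f, hf, rfl, rfl⟩
  change MvPolynomial.aeval _ f = _
  rw [aeval_hom_CWG3 _ hf, aeval_xw_CUI2]

theorem wt_ind_CUI2 {P : Dw H r Q i → Prop} (h0 : P 0) (h1 : ∀ c x, Wq H r Q i c x → P x)
    (h2 : ∀ x y, P x → P y → P (x + y)) (x : Dw H r Q i) : P x := by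
  obtain ⟨f, rfl⟩ := Ideal.Quotient.mk_surjective x
  rw [← MvPolynomial.sum_homogeneousComponent f, map_sum]
  exact Finset.sum_induction _ P h2 h0 fun e _ =>
    h1 _ _ ⟨e, _, MvPolynomial.homogeneousComponent_isHomogeneous e f, rfl, rfl⟩

theorem wt_cox_CUI2 (c : Cox H r Q i) : Wq H r Q i 0 c.1 := by
  obtain ⟨s, f, hf, h⟩ := mem_cox.1 c.2
  exact ⟨_, f, hf, by rw [Nat.cast_mul, ZMod.natCast_self, zero_mul], h⟩

/-- the component of weight zero -/
theorem exists_wq_proj : ∃ p : Dw H r Q i →+ Cox H r Q i,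
    (∀ (c : Cox H r Q i) x, p (c.1 * x) = c * p x) ∧
      (∀ x, Wq H r Q i 0 x → (p x).1 = x) ∧ ∀ c x, c ≠ 0 → Wq H r Q i c x → p x = 0 := by
  obtain ⟨ρ, hρ⟩ := exists_rho_CUI2 (r := r) (Q := Q) (i := i) H
  have e0 : ∀ x, Wq H r Q i 0 x → (ρ x).coeff 0 = x := fun x hx => by
    rw [hρ _ _ hx, AddMonoidAlgebra.coeff_single, Finsupp.single_eq_same]
  have e1 : ∀ c x, c ≠ 0 → Wq H r Q i c x → (ρ x).coeff 0 = 0 := fun c x hc hx => by
    rw [hρ _ _ hx, AddMonoidAlgebra.coeff_single, Finsupp.single_eq_of_ne hc.symm]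
  have ea : ∀ x y, (ρ (x + y)).coeff 0 = (ρ x).coeff 0 + (ρ y).coeff 0 := fun x y => by
    rw [map_add]; rfl
  have ez : (ρ 0).coeff 0 = 0 := by rw [ρ.map_zero]; rfl
  have hm : ∀ x, (ρ x).coeff 0 ∈ Cox H r Q i := by
    refine wt_ind_CUI2 H ?_ (fun c x hx => ?_) fun x y hx hy => ?_
    · rw [ez]; exact zero_mem _
    · by_cases hc : c = 0
      · subst hc
        rw [e0 x hx]; exact hx.cox
      · rw [e1 c x hc hx]; exact zero_mem _
    · rw [ea]; exact add_mem hx hy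
  refine ⟨AddMonoidHom.mk' (fun x => ⟨_, hm x⟩) fun x y => Subtype.ext (ea x y), fun c x => ?_,
    e0, fun c x hc hx => Subtype.ext (e1 c x hc hx)⟩
  refine Subtype.ext ?_
  change (ρ (c.1 * x)).coeff 0 = c.1 * (ρ x).coeff 0
  induction x using wt_ind_CUI2 H with
  | h0 => rw [mul_zero, ez, mul_zero]
  | h1 w x hx =>
    have hy := ((wt_cox_CUI2 H c).mul hx).cast (zero_add w)
    by_cases hw : w = 0
    · subst hw
      rw [e0 _ hx, e0 _ hy]
    · rw [e1 _ _ hw hx, e1 _ _ hw hy, mul_zero]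
  | h2 x y hx hy => rw [mul_add, ea, ea, hx, hy, mul_add]

/-- a partition of unity in every weight -/
theorem exists_wq_unity (c : ZMod (1 + r * Q ^ i)) :
    ∃ y y' : Fin m × Fin m → Dw H r Q i, (∀ a, Wq H r Q i c (y a)) ∧
      (∀ a, Wq H r Q i (-c) (y' a)) ∧ ∑ a, y' a * y a = 1 := by
  have : NeZero (1 + r * Q ^ i) := ⟨by omega⟩
  have hv := ZMod.val_lt c
  obtain ⟨u, hu⟩ : ∃ u, r * Q ^ i = u + c.val := ⟨r * Q ^ i - c.val, by omega⟩
  refine ⟨fun a => xw H r Q i a.2 ^ c.val,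
    fun a => xw H r Q i a.1 ^ 1 * algebraMap k (Dw H r Q i) (H a.1 a.2) * xw H r Q i a.2 ^ u,
    fun a => (wt_x_CUI a.2 _).cast (ZMod.natCast_zmod_val c), fun a => ?_, ?_⟩
  · refine (((wt_x_CUI a.1 1).mul (wt_alg_CUI _)).mul (wt_x_CUI a.2 u)).cast ?_
    have h0 : ((1 + (u + c.val) : ℕ) : ZMod (1 + r * Q ^ i)) = 0 := by
      rw [← hu]; exact ZMod.natCast_self _
    rw [Nat.cast_add, Nat.cast_add, ZMod.natCast_zmod_val] at h0
    rw [eq_neg_iff_add_eq_zero, add_zero, add_assoc, h0]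
  · rw [← (oq_xw (r := r) (Q := Q) (i := i) H).one, Fintype.sum_prod_type]
    unfold bform fr
    refine Finset.sum_congr rfl fun a _ => Finset.sum_congr rfl fun b _ => ?_
    change xw H r Q i a ^ 1 * algebraMap k (Dw H r Q i) (H a b) * xw H r Q i b ^ u * xw H r Q i b ^ c.val =
      xw H r Q i a * algebraMap k (Dw H r Q i) (H a b) * (xw H r Q i b ^ Q ^ i) ^ r
    generalize c.val = v at hu
    rw [pow_one, mul_assoc _ (_ ^ u), ← pow_add, ← hu, ← pow_mul (xw H r Q i b), mul_comm r]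

theorem wt_pow_CUI2 {c : ZMod (1 + r * Q ^ i)} {y : Dw H r Q i} (hy : Wq H r Q i c y)
    (n : ℕ) : Wq H r Q i (n * c) (y ^ n) := by
  induction n with
  | zero =>
    have := wt_alg_CUI (H := H) (r := r) (Q := Q) (i := i) 1
    rw [map_one] at this
    rw [pow_zero]
    exact this.cast (by simp)
  | succ n ih =>
    rw [pow_succ y]
    exact (ih.mul hy).cast (by push_cast; ring)

theorem dual_CUI2 {α : Type} [Fintype α] [NeZero (1 + r * Q ^ i)]
    (p : Dw H r Q i →+ Cox H r Q i) (p1 : ∀ x, Wq H r Q i 0 x → (p x).1 = x)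
    (p2 : ∀ c x, c ≠ 0 → Wq H r Q i c x → p x = 0)
    (g : ZMod (1 + r * Q ^ i) → ZMod (1 + r * Q ^ i)) (hg : Bijective g)
    (y y' : ZMod (1 + r * Q ^ i) × α → Dw H r Q i)
    (h1 : ∀ a, Wq H r Q i (-g a.1) (y' a)) (h2 : ∀ c, ∑ a, y' (c, a) * y (c, a) = 1)
    (x : Dw H r Q i) : ∑ a, (p (x * y' a)).1 * y a = x := by
  induction x using wt_ind_CUI2 H with
  | h0 => simp
  | h1 w x hx =>
    obtain ⟨c, rfl⟩ := hg.2 w
    rw [Fintype.sum_prod_type, Finset.sum_eq_single c]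
    · conv_rhs => rw [← mul_one x, ← h2 c, Finset.mul_sum]
      refine Finset.sum_congr rfl fun a _ => ?_
      rw [p1 _ ((hx.mul (h1 (c, a))).cast (add_neg_cancel _)), mul_assoc]
    · intro d _ hd
      refine Finset.sum_eq_zero fun a _ => ?_
      rw [p2 _ _ (fun h => hd (hg.1 (add_neg_eq_zero.1 h)).symm) (hx.mul (h1 (d, a)))]
      simp
    · simp
  | h2 x z hx hz =>
    conv_rhs => rw [← hx, ← hz, ← Finset.sum_add_distrib]
    refine Finset.sum_congr rfl fun a _ => ?_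
    rw [add_mul, map_add, Subalgebra.coe_add, add_mul]

theorem exists_etW [Fintype k] (hk : Fintype.card k = Q) (hi : 0 < i) :
    ∃ (s : Type) (_ : Fintype s) (p : Dw H r Q i →+ Cox H r Q i) (y y' : s → Dw H r Q i),
      Et (Cox H r Q i).val.toRingHom (frb k _) (frb k _) s p y y' := by
  have : NeZero (1 + r * Q ^ i) := ⟨by omega⟩
  obtain ⟨p, p0, p1, p2⟩ := exists_wq_proj (r := r) (Q := Q) (i := i) H
  choose Y Y' hY hY' hs using exists_wq_unity (r := r) (Q := Q) (i := i) H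
  have hf : ∀ x : Dw H r Q i, frb k _ x = x ^ Q := frb_CWG3 hk
  have hf' : ∀ x : Cox H r Q i, frb k _ x = x ^ Q := frb_CWG3 hk
  have hu : IsUnit ((Q : ℕ) : ZMod (1 + r * Q ^ i)) := by
    have h0 := ZMod.natCast_self (1 + r * Q ^ i)
    obtain ⟨e, he⟩ : ∃ e, i = e + 1 := ⟨i - 1, by omega⟩
    have h1 : Q ^ i = Q * Q ^ e := by rw [he, pow_succ']
    refine IsUnit.of_mul_eq_one (-((r * Q ^ e : ℕ) : ZMod (1 + r * Q ^ i))) ?_
    have h2 : ((1 + Q * (r * Q ^ e) : ℕ) : ZMod (1 + r * Q ^ i)) = 0 := by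
      rw [← h0]; congr 1; rw [h1]; ring
    rw [Nat.cast_add, Nat.cast_mul, Nat.cast_one] at h2
    linear_combination -h2
  refine ⟨ZMod (1 + r * Q ^ i) × (Fin m × Fin m), inferInstance, p, fun a => Y a.1 a.2,
    fun a => Y' a.1 a.2, fun c => ?_, p0, ?_, ?_, fun x => ?_⟩
  · rw [hf, hf', map_pow]
  · exact dual_CUI2 H p p1 p2 id bijective_id _ _ (fun a => hY' a.1 a.2) hs
  · refine dual_CUI2 H p p1 p2 (fun c => ((Q : ℕ) : ZMod (1 + r * Q ^ i)) * c)
      (IsUnit.isUnit_iff_mulLeft_bijective.1 hu) (fun a => frb k _ (Y a.1 a.2))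
      (fun a => frb k _ (Y' a.1 a.2)) (fun a => ?_) fun c => ?_
    · rw [hf]
      exact (wt_pow_CUI2 H (hY' a.1 a.2) _).cast (mul_neg _ _)
    · simp only [← map_mul]
      rw [← map_sum, hs, map_one]
  · induction x using wt_ind_CUI2 H with
    | h0 => rw [map_zero, map_zero, map_zero]
    | h1 w x hx =>
      have hy := wt_pow_CUI2 H hx Q
      rw [← hf] at hy
      by_cases hw : w = 0
      · subst hw
        refine Subtype.ext ?_
        rw [p1 _ (hy.cast (mul_zero _)), hf, hf', SubmonoidClass.coe_pow, p1 _ hx]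
      · rw [p2 _ _ hw hx, map_zero]
        exact p2 _ _ (fun h => hw (hu.mul_right_eq_zero.1 h)) hy
    | h2 x y hx hy => rw [RingHom.map_add, p.map_add, p.map_add, RingHom.map_add, hx, hy]

end Pool.Agent.CXD
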