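import Pool.Agent.P.MP_2ce3e7_ag.CV3

/-! Powers of homogeneous elements descend to the Coxeter variety. -/

set_option linter.unusedSectionVars false
set_option linter.unusedVariables false

open Matrix LaurentPolynomial
open scoped TensorProduct

noncomputable section

namespace Pool.Agent.CXD

variable {k : Type} [Field k] [Fintype k] {n q i d : ℕ} {σ : Type} [Fintype σ] [DecidableEq σ]
  {G : Matrix (Fin n) (Fin n) k} {F : Frame G q σ i} {ε : Fin d ≃ σ ⊕ Fin i}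
  {θ : Pl G q d →ₐ[k] (Pl G q d)[T;T⁻¹]} {ψ : Pl G q d →ₐ[k] Dv F.H q i}

section
variable {m : ℕ} {H : Matrix (Fin m) (Fin m) k}

theorem wt_one_CV4 : Wt_CZW H q i 0 1 := by
  have := wt_alg_CZW (H := H) (q := q) (i := i) 1
  rwa [map_one] at this

theorem wt_prod_CV4 {α : Type} (s : Finset α) {c : α → ZMod (1 + q * (q ^ 2) ^ i)}
    {y : α → Dv H q i} (h : ∀ a, Wt_CZW H q i (c a) (y a)) :
    Wt_CZW H q i (∑ a ∈ s, c a) (∏ a ∈ s, y a) := by
  classical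
  induction s using Finset.induction_on with
  | empty => rw [Finset.sum_empty, Finset.prod_empty]; exact wt_one_CV4
  | insert a s ha ih => rw [Finset.sum_insert ha, Finset.prod_insert ha]; exact (h a).mul ih

theorem wt_det_CV4 {M : Matrix (Fin d) (Fin d) (Dv H q i)} {ω : Fin d → ZMod (1 + q * (q ^ 2) ^ i)}
    (h : ∀ r c, Wt_CZW H q i (ω r) (M r c)) : Wt_CZW H q i (∑ r, ω r) M.det := by
  rw [Matrix.det_apply']
  refine wt_sum_CZW _ fun τ _ => ?_
  have h1 := wt_alg_CZW (H := H) (q := q) (i := i) ((Equiv.Perm.sign τ : ℤ) : k)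
  rw [map_intCast] at h1
  exact (h1.mul (wt_prod_CV4 Finset.univ fun a => h (τ a) a)).cast
    (by rw [zero_add, Equiv.sum_comp τ ω])

end

section
variable {B Γ : Type} [CommRing B] [Algebra k B] [AddMonoid Γ] {W : Γ → B → Prop}
  {K : Type} [CommRing K] [Algebra k K]

theorem cw_mul_CV4 (hm : ∀ c c' y z, W c y → W c' z → W (c + c') (y * z)) {c c' : Γ}
    {x y : K ⊗[k] B} (hx : x ∈ AddSubgroup.closure {x | ∃ a b, W c b ∧ x = a ⊗ₜ[k] b})
    (hy : y ∈ AddSubgroup.closure {x | ∃ a b, W c' b ∧ x = a ⊗ₜ[k] b}) :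
    x * y ∈ AddSubgroup.closure {x : K ⊗[k] B | ∃ a b, W (c + c') b ∧ x = a ⊗ₜ[k] b} := by
  induction hx using AddSubgroup.closure_induction with
  | mem x hx =>
    obtain ⟨a, b, hb, rfl⟩ := hx
    induction hy using AddSubgroup.closure_induction with
    | mem y hy =>
      obtain ⟨a', b', hb', rfl⟩ := hy
      exact AddSubgroup.subset_closure ⟨a * a', b * b', hm _ _ _ _ hb hb',
        Algebra.TensorProduct.tmul_mul_tmul _ _ _ _⟩
    | zero => rw [mul_zero]; exact zero_mem _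
    | add y z _ _ h1 h2 => rw [mul_add]; exact add_mem h1 h2
    | neg y _ h1 => rw [mul_neg]; exact neg_mem h1
  | zero => rw [zero_mul]; exact zero_mem _
  | add y z _ _ h1 h2 => rw [add_mul]; exact add_mem h1 h2
  | neg y _ h1 => rw [neg_mul]; exact neg_mem h1

theorem cw_pow_CV4 (hm : ∀ c c' y z, W c y → W c' z → W (c + c') (y * z)) (h1 : W 0 1) {c : Γ}
    {x : K ⊗[k] B} (hx : x ∈ AddSubgroup.closure {x | ∃ a b, W c b ∧ x = a ⊗ₜ[k] b}) (N : ℕ) :
    x ^ N ∈ AddSubgroup.closure {x : K ⊗[k] B | ∃ a b, W (N • c) b ∧ x = a ⊗ₜ[k] b} := by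
  induction N with
  | zero =>
    rw [pow_zero, zero_nsmul]
    exact AddSubgroup.subset_closure ⟨1, 1, h1, rfl⟩
  | succ N ih => rw [pow_succ, succ_nsmul]; exact cw_mul_CV4 hm ih hx

end

theorem Frame.wt_plu (F : Frame G q σ i) (ε : Fin d ≃ σ ⊕ Fin i) :
    ∃ c, ∀ I, Wt_CZW F.H q i c (plu (F.uD ε) I) := by
  refine ⟨∑ r, Sum.elim (fun _ => 0) (fun l : Fin i => wq_CZW q i l) (ε r), fun I =>
    wt_det_CV4 fun r c => ?_⟩
  change Wt_CZW F.H q i _ (fromRows (F.w.map (algebraMap k (Dv F.H q i)))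
    (rows q i 0 (xD F.H q i) * F.P.map (algebraMap k (Dv F.H q i))) (ε r) (I c))
  cases ε r with
  | inl a => exact wt_alg_CZW _
  | inr l =>
    rw [fromRows_apply_inr, Matrix.mul_apply]
    exact wt_sum_CZW _ fun a _ => ((wt_rows_CZW l a).mul (wt_alg_CZW _)).cast (add_zero _)

theorem Frame.wt_hom (hθ : Std (hom (plI G q d)) (crd (plI G q d)) θ)
    (hψ : ∀ I, ψ (crd (plI G q d) I) = plu (F.uD ε) I) (c : ℤ) :
    ∃ c', ∀ a ∈ hom (plI G q d) c, Wt_CZW F.H q i c' (ψ a) := by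
  obtain ⟨c0, hc0⟩ := F.wt_plu ε
  rcases lt_or_ge c 0 with hc | hc
  · exact ⟨0, fun a ha => absurd ha (hθ.neg c hc a)⟩
  obtain ⟨N, rfl⟩ := Int.eq_ofNat_of_zero_le hc
  clear hc
  induction N with
  | zero =>
    refine ⟨0, fun a ha => ?_⟩
    obtain ⟨t, rfl⟩ := hθ.zero a ha
    rw [AlgHom.commutes]
    exact wt_alg_CZW t
  | succ N ih =>
    obtain ⟨c', hc'⟩ := ih
    refine ⟨c0 + c', fun a ha => ?_⟩
    obtain ⟨b, hb, rfl⟩ := hθ.succ N (Int.natCast_nonneg N) a (by exact_mod_cast ha)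
    rw [map_sum]
    refine wt_sum_CZW _ fun I _ => ?_
    rw [map_mul, hψ]
    exact (hc0 I).mul (hc' _ (hb I))

theorem pow_mem_range {m : ℕ} (H : Matrix (Fin m) (Fin m) k) (K : Type) [CommRing K] [Algebra k K]
    {c : ZMod (1 + q * (q ^ 2) ^ i)} {y : K ⊗[k] Dv H q i}
    (hy : y ∈ AddSubgroup.closure {x | ∃ a b, Wt_CZW H q i c b ∧ x = a ⊗ₜ[k] b}) :
    ∃ w, mp K (Cox H q (q ^ 2) i).val w = y ^ (1 + q * (q ^ 2) ^ i) := by
  have h1 := cw_pow_CV4 (W := Wt_CZW H q i) (fun _ _ _ _ h h' => h.mul h') wt_one_CV4 hy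
    (1 + q * (q ^ 2) ^ i)
  rw [nsmul_eq_mul, ZMod.natCast_self, zero_mul] at h1
  generalize y ^ (1 + q * (q ^ 2) ^ i) = x at h1
  induction h1 using AddSubgroup.closure_induction with
  | mem x hx =>
    obtain ⟨a, b, hb, rfl⟩ := hx
    exact ⟨a ⊗ₜ ⟨b, hb.cox⟩, rfl⟩
  | zero => exact ⟨0, map_zero _⟩
  | add x z _ _ h1 h2 =>
    obtain ⟨u, rfl⟩ := h1
    obtain ⟨v, rfl⟩ := h2
    exact ⟨u + v, map_add _ _ _⟩
  | neg x _ h1 =>
    obtain ⟨u, rfl⟩ := h1
    exact ⟨-u, map_neg _ _⟩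

theorem Frame.pow_mem (hθ : Std (hom (plI G q d)) (crd (plI G q d)) θ)
    (hψ : ∀ I, ψ (crd (plI G q d) I) = plu (F.uD ε) I) (K : Type) [CommRing K] [Algebra k K]
    {c : Unit × ℤ} {a : K ⊗[k] Pl G q d} (ha : a ∈ cl (tg k (tv K) (hom (plI G q d))) c) :
    ∃ w, mp K (Cox F.H q (q ^ 2) i).val w = mp K ψ a ^ (1 + q * (q ^ 2) ^ i) := by
  obtain ⟨c', hc'⟩ := Frame.wt_hom hθ hψ c.2
  refine pow_mem_range F.H K (c := c') ?_
  induction ha using AddSubgroup.closure_induction with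
  | mem x hx =>
    obtain ⟨u, -, b, hb, rfl⟩ := hx
    exact AddSubgroup.subset_closure ⟨u, ψ b, hc' b hb, rfl⟩
  | zero => rw [map_zero]; exact zero_mem _
  | add x z _ _ h1 h2 => rw [map_add]; exact add_mem h1 h2
  | neg x _ h1 => rw [map_neg]; exact neg_mem h1

end Pool.Agent.CXD
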