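import Pool.Agent.P.MP_2ce3e7_ag.CUI2
import Pool.Agent.P.MP_2ce3e7_ag.CUE
import Pool.Agent.P.MP_2ce3e7_ag.CV4

/-! Powers of homogeneous elements descend to the Coxeter variety. -/

set_option linter.unusedSectionVars false
set_option linter.unusedVariables false

open Matrix LaurentPolynomial
open scoped TensorProduct

noncomputable section

namespace Pool.Agent.CXD

variable {k : Type} [Field k] [Fintype k] {m r Q i d : ℕ} {H : Matrix (Fin m) (Fin m) k}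

theorem wt_one_CUI3 : Wq H r Q i 0 1 := by
  have := wt_alg_CUI (H := H) (r := r) (Q := Q) (i := i) 1
  rwa [map_one] at this

theorem wt_prod_CUI3 {α : Type} (s : Finset α) {c : α → ZMod (1 + r * Q ^ i)}
    {y : α → Dw H r Q i} (h : ∀ a, Wq H r Q i (c a) (y a)) :
    Wq H r Q i (∑ a ∈ s, c a) (∏ a ∈ s, y a) := by
  classical
  induction s using Finset.induction_on with
  | empty => rw [Finset.sum_empty, Finset.prod_empty]; exact wt_one_CUI3
  | insert a s ha ih => rw [Finset.sum_insert ha, Finset.prod_insert ha]; exact (h a).mul ih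

theorem wt_det_CUI3 {M : Matrix (Fin d) (Fin d) (Dw H r Q i)} {ω : Fin d → ZMod (1 + r * Q ^ i)}
    (h : ∀ a c, Wq H r Q i (ω a) (M a c)) : Wq H r Q i (∑ a, ω a) M.det := by
  rw [Matrix.det_apply']
  refine wt_sum_CUI _ fun τ _ => ?_
  have h1 := wt_alg_CUI (H := H) (r := r) (Q := Q) (i := i) ((Equiv.Perm.sign τ : ℤ) : k)
  rw [map_intCast] at h1
  exact (h1.mul (wt_prod_CUI3 Finset.univ fun a => h (τ a) a)).cast
    (by rw [zero_add, Equiv.sum_comp τ ω])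

theorem pow_mem_rangeW (H : Matrix (Fin m) (Fin m) k) (K : Type) [CommRing K] [Algebra k K]
    {c : ZMod (1 + r * Q ^ i)} {y : K ⊗[k] Dw H r Q i}
    (hy : y ∈ AddSubgroup.closure {x | ∃ a b, Wq H r Q i c b ∧ x = a ⊗ₜ[k] b}) :
    ∃ w, mp K (Cox H r Q i).val w = y ^ (1 + r * Q ^ i) := by
  have h1 := cw_pow_CV4 (W := Wq H r Q i) (fun _ _ _ _ h h' => h.mul h') wt_one_CUI3 hy
    (1 + r * Q ^ i)
  rw [nsmul_eq_mul, ZMod.natCast_self, zero_mul] at h1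
  generalize y ^ (1 + r * Q ^ i) = x at h1
  induction h1 using AddSubgroup.closure_induction with
  | mem x hx =>
    obtain ⟨a, b, hb, rfl⟩ := hx
    exact ⟨a ⊗ₜ ⟨b, hb.cox⟩, rfl⟩
  | zero => exact ⟨0, map_zero _⟩
  | add x z _ _ h1 h2 =>
    obtain ⟨u, rfl⟩ := h1
    obtain ⟨v, rfl⟩ := h2
    exact ⟨u + v, map_add _ _ _⟩
  | neg x _ h1 =>
    obtain ⟨u, rfl⟩ := h1
    exact ⟨-u, map_neg _ _⟩

section
variable {A σ : Type} [CommRing A] [Algebra k A] [Fintype σ] {𝒜 : ℤ → Set A} {z : σ → A}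
  {θ : A →ₐ[k] A[T;T⁻¹]} {ψ : A →ₐ[k] Dw H r Q i} {c₀ : ZMod (1 + r * Q ^ i)}

theorem Std.wt_hom (hθ : Std 𝒜 z θ) (hψ : ∀ s, Wq H r Q i c₀ (ψ (z s))) (c : ℤ) :
    ∃ c', ∀ a ∈ 𝒜 c, Wq H r Q i c' (ψ a) := by
  rcases lt_or_ge c 0 with hc | hc
  · exact ⟨0, fun a ha => absurd ha (hθ.neg c hc a)⟩
  obtain ⟨N, rfl⟩ := Int.eq_ofNat_of_zero_le hc
  clear hc
  induction N with
  | zero =>
    refine ⟨0, fun a ha => ?_⟩
    obtain ⟨t, rfl⟩ := hθ.zero a ha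
    rw [AlgHom.commutes]
    exact wt_alg_CUI t
  | succ N ih =>
    obtain ⟨c', hc'⟩ := ih
    refine ⟨c₀ + c', fun a ha => ?_⟩
    obtain ⟨b, hb, rfl⟩ := hθ.succ N (Int.natCast_nonneg N) a (by exact_mod_cast ha)
    rw [map_sum]
    refine wt_sum_CUI _ fun I _ => ?_
    rw [map_mul]
    exact (hψ I).mul (hc' _ (hb I))

theorem Std.pow_mem (hθ : Std 𝒜 z θ) (hψ : ∀ s, Wq H r Q i c₀ (ψ (z s))) (K : Type) [CommRing K]
    [Algebra k K] {c : Unit × ℤ} {a : K ⊗[k] A} (ha : a ∈ cl (tg k (tv K) 𝒜) c) :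
    ∃ w, mp K (Cox H r Q i).val w = mp K ψ a ^ (1 + r * Q ^ i) := by
  obtain ⟨c', hc'⟩ := hθ.wt_hom hψ c.2
  refine pow_mem_rangeW H K (c := c') ?_
  induction ha using AddSubgroup.closure_induction with
  | mem x hx =>
    obtain ⟨u, -, b, hb, rfl⟩ := hx
    exact AddSubgroup.subset_closure ⟨u, ψ b, hc' b hb, rfl⟩
  | zero => rw [map_zero]; exact zero_mem _
  | add x z _ _ h1 h2 => rw [map_add]; exact add_mem h1 h2
  | neg x _ h1 => rw [map_neg]; exact neg_mem h1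

end

variable {n n' s : ℕ} {σ : Type} [Fintype σ] [DecidableEq σ]
  {G : Matrix (Fin n) (Fin n) k}

theorem Frm.wt_plu (F : Frm G r σ n') (ε : Fin d ≃ σ ⊕ Fin s) :
    ∃ c, ∀ I, Wq F.H r Q i c (plu (F.up ε (frs Q 0 s (xw F.H r Q i))) I) := by
  refine ⟨∑ a, Sum.elim (fun _ => 0)
    (fun l : Fin s => ((Q ^ (l : ℕ) : ℕ) : ZMod (1 + r * Q ^ i))) (ε a), fun I =>
    wt_det_CUI3 fun a c => ?_⟩
  change Wq F.H r Q i _ (fromRows (al (Dw F.H r Q i) F.w)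
    (frs Q 0 s (xw F.H r Q i) * al (Dw F.H r Q i) F.P) (ε a) (I c))
  cases ε a with
  | inl a => exact wt_alg_CUI _
  | inr l =>
    rw [fromRows_apply_inr, Matrix.mul_apply]
    exact wt_sum_CUI _ fun a _ => ((wt_frs l a).mul (wt_alg_CUI _)).cast (add_zero _)

end Pool.Agent.CXD
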