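import Pool.Agent.P.MP_2ce3e7_ag.CV5
import Pool.Agent.P.MP_2ce3e7_ag.CUB

/-! Locally closed pieces of a projective scheme. -/

set_option linter.unusedSectionVars false
set_option linter.unusedVariables false

open Matrix LaurentPolynomial
open scoped TensorProduct

noncomputable section

namespace Pool.Agent.CXD

variable {k K A B D σ : Type} [Field k] [Fintype k] [CommRing K] [Algebra k K] [IsNoetherianRing K]
  [CommRing A] [Algebra k A] [CommRing B] [Algebra k B] [CommRing D] [Algebra k D] [Fintype σ]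
  {𝒜 : ℤ → Set A} {z : σ → A} {θ : A →ₐ[k] A[T;T⁻¹]} [Gd 𝒜] [Gk k 𝒜] {r Q : ℕ}

/-- the point `P` lies in the image of `Spec D` -/
def Thr (z : σ → A) (ψ : A →ₐ[k] D) (P : Ideal (K ⊗[k] A)) : Prop :=
  ∃ (L : Type) (_ : Field L) (_ : Algebra k L) (α : K ⊗[k] A →ₐ[k] L) (τ : D →ₐ[k] L) (t : Lˣ),
    RingHom.ker α.toRingHom = P ∧ ∀ i, α (inr k K A (z i)) = τ (ψ (z i)) * t

theorem et_id (k D : Type) [Field k] [Fintype k] [CommRing D] [Algebra k D] :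
    Et (AlgHom.id k D).toRingHom (frb k D) (frb k D) Unit (AddMonoidHom.id D) (fun _ => 1)
      fun _ => 1 :=
  ⟨fun _ => rfl, fun _ _ => rfl, fun x => by simp, fun x => by simp, fun _ => rfl⟩

/-- a criterion for finiteness -/
theorem pc_of_gen {ι : Type} (Ψ : A →ₐ[k] D[T;T⁻¹]) [Algebra.FiniteType k D] {x : ι → D}
    (hx : Algebra.adjoin k (Set.range x) = ⊤) {S : Set A} (hS : S.Finite)
    (h1 : ∃ c : σ → D, ∑ i, C (c i) * Ψ (z i) = T 1)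
    (h2 : ∀ f ∈ S, ∃ (u : D) (g : A), Ψ f * T (-1) = C u * Ψ g)
    (h3 : ∀ f ∈ S, ∀ a, ∃ (M : ℕ) (g : A), 0 < M ∧ Ψ f * C (x a) ^ M = Ψ g) :
    Pc Ψ.toRingHom S := by
  have hal : Ψ.toRingHom.comp (algebraMap k A) = algebraMap k D[T;T⁻¹] := Ψ.comp_algebraMap
  refine ⟨hS, ?_, fun f hf y => ?_⟩
  · refine RingHom.FiniteType.of_comp_finiteType (f := algebraMap k A) ?_
    rw [hal, RingHom.finiteType_algebraMap]
    exact Algebra.FiniteType.trans (inferInstance : Algebra.FiniteType k D) inferInstance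
  change y ∈ sat_CZC2 Ψ.toRingHom f
  have hΨ : ∀ a, Ψ a ∈ sat_CZC2 Ψ.toRingHom f := map_mem_CZC2 Ψ.toRingHom f
  have hC : ∀ t : D, (C t : D[T;T⁻¹]) ∈ sat_CZC2 Ψ.toRingHom f := fun t => by
    have ht : t ∈ Algebra.adjoin k (Set.range x) := hx ▸ Algebra.mem_top
    induction ht using Algebra.adjoin_induction with
    | mem t ht =>
      obtain ⟨a, rfl⟩ := ht
      obtain ⟨M, g, hM, e⟩ := h3 f hf a
      refine sat_pow_CV3 hM (sat_mul_CV3 ?_)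
      exact (show Ψ.toRingHom f * C (x a) ^ M = Ψ g from e) ▸ hΨ g
    | algebraMap c =>
      have e : (C (algebraMap k D c) : D[T;T⁻¹]) = Ψ (algebraMap k A c) :=
        (RingHom.congr_fun ((C_alg_CV3 D).trans hal.symm) c :)
      rw [e]
      exact hΨ _
    | add p p' _ _ hp hp' => rw [map_add]; exact Subring.add_mem _ hp hp'
    | mul p p' _ _ hp hp' => rw [map_mul]; exact Subring.mul_mem _ hp hp'
  have hT1 : (T 1 : D[T;T⁻¹]) ∈ sat_CZC2 Ψ.toRingHom f := by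
    obtain ⟨c, hc⟩ := h1
    rw [← hc]
    exact Subring.sum_mem _ fun J _ => Subring.mul_mem _ (hC _) (hΨ _)
  have hT2 : (T (-1) : D[T;T⁻¹]) ∈ sat_CZC2 Ψ.toRingHom f := by
    obtain ⟨u, g, e⟩ := h2 f hf
    refine sat_mul_CV3 ?_
    exact (show Ψ.toRingHom f * T (-1) = C u * Ψ g from e) ▸ Subring.mul_mem _ (hC _) (hΨ _)
  have hT : ∀ m : ℤ, (T m : D[T;T⁻¹]) ∈ sat_CZC2 Ψ.toRingHom f := fun m => by
    induction m using Int.induction_on with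
    | zero => exact Subring.one_mem _
    | succ m hm =>
      rw [T_add]
      exact Subring.mul_mem _ hm hT1
    | pred m hm =>
      rw [sub_eq_add_neg, T_add]
      exact Subring.mul_mem _ hm hT2
  induction y using LaurentPolynomial.induction_on' with
  | add p p' hp hp' => exact Subring.add_mem _ hp hp'
  | C_mul_T m a => exact Subring.mul_mem _ (hC a) (hT m)

theorem Std.piece2 [Algebra.FiniteType k B] [Algebra.FiniteType k D] (h : Std 𝒜 z θ)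
    (hT : TT k K B r Q) {ι : B →ₐ[k] D} {s : Type} [Fintype s]
    {p : D →+ B} {y y' : s → D} (het : Et ι.toRingHom (frb k B) (frb k D) s p y y')
    (ψ : A →ₐ[k] D) {S : Set A} (hS : Pc (hat θ.toRingHom ψ.toRingHom) S)
    (hz : ∀ f ∈ S, ∃ i, z i ∣ f) {m : ℕ}
    (hm : ∀ c, ∀ a ∈ cl (tg k (tv K) 𝒜) c, ∃ w, mp K ι w = mp K ψ a ^ (1 + m))
    (hne : ∀ (L : Type) [Field L] [Algebra k L] (β : A →ₐ[k] L) (τ : D →ₐ[k] L) (t : Lˣ),
      (∀ i, β (z i) = τ (ψ (z i)) * t) → ∃ f ∈ S, β f ≠ 0)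
    {X : Set (GM (tg k (tv K) 𝒜) → ℚ)} (hX : FamG (verF k (tv K) 𝒜) r (Fintype.card k) X)
    (hE : ∀ l ∈ X, ExtG k (tv K) 𝒜 l) {Cl : Ideal A → Prop}
    (hcl : ∀ p, RingHom.ker (hat θ.toRingHom ψ.toRingHom) ≤ p → Cl p)
    (hc : ∀ l ∈ X, ∀ P : Ideal (K ⊗[k] A), P.IsPrime → Cl (P.comap (inr k K A)) →
      ZG l P ∨ Thr z ψ P) :
    ∀ l ∈ X, ∀ P : Ideal (K ⊗[k] A), P.IsPrime → Cl (P.comap (inr k K A)) → ZG l P := by
  have hp := h.piece hT het ψ hS hz hm hX hE fun l hl P hP h1 h2 =>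
    (hc l hl P hP (hcl _ h1)).resolve_right (by
      rintro ⟨L, _, _, α, τ, t, rfl, ht⟩
      obtain ⟨f, hf, h0⟩ := hne L (α.comp Algebra.TensorProduct.includeRight) τ t ht
      exact h0 (h2 f hf))
  intro l hl P hP hw
  refine (hc l hl P hP hw).elim id ?_
  rintro ⟨L, _, _, α, τ, t, rfl, ht⟩
  exact hp l hl _ hP (h.ker_right ψ α τ t ht)

theorem Std.pc_lin (h : Std 𝒜 z θ) {τ : Type} [Finite τ] (ψ : A →ₐ[k] MvPolynomial τ k) {f : A}
    (hf : f ∈ 𝒜 1) (h1 : ψ f = 1) (hg : ∀ t, ∃ g ∈ 𝒜 1, ψ g = MvPolynomial.X t) :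
    Pc (hat θ.toRingHom ψ.toRingHom) (Set.range fun i => z i * f) := by
  cases nonempty_fintype τ
  let Ψ : A →ₐ[k] (MvPolynomial τ k)[T;T⁻¹] := (AddMonoidAlgebra.mapAlgHom ℤ ψ).comp θ
  have hΨ : ∀ a ∈ 𝒜 1, Ψ a = C (ψ a) * T 1 := fun a ha => hat_CWN3 h ψ ha
  have hf1 : Ψ f = T 1 := by rw [hΨ f hf, h1, map_one, one_mul]
  refine pc_of_gen (z := z) Ψ (x := MvPolynomial.X) MvPolynomial.adjoin_range_X
    (Set.finite_range _) ?_ ?_ ?_
  · obtain ⟨b, hb, e⟩ := h.succ 0 le_rfl f (by simpa using hf)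
    refine ⟨fun i => ψ (b i), ?_⟩
    rw [← hf1]
    conv_rhs => rw [e, map_sum]
    refine Finset.sum_congr rfl fun i _ => ?_
    have e2 : Ψ (b i) = C (ψ (b i)) * T 0 := hat_CWN3 h ψ (hb i)
    rw [map_mul, e2, T_zero, mul_one, mul_comm]
  · rintro _ ⟨i, rfl⟩
    refine ⟨1, z i, ?_⟩
    rw [map_mul, hf1, map_one, one_mul, mul_assoc, ← T_add]
    simp
  · rintro _ ⟨i, rfl⟩ t
    obtain ⟨g, hg1, hg2⟩ := hg t
    refine ⟨1, z i * g, one_pos, ?_⟩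
    rw [map_mul, map_mul, hf1, hΨ g hg1, hg2, pow_one]
    ring

theorem Std.ne_lin (h : Std 𝒜 z θ) (ψ : A →ₐ[k] D) {f : A} (hf : f ∈ 𝒜 1) (h1 : ψ f = 1)
    {L : Type} [Field L] [Algebra k L] (β : A →ₐ[k] L) (τ : D →ₐ[k] L) (t : Lˣ)
    (ht : ∀ i, β (z i) = τ (ψ (z i)) * t) : ∃ i, β (z i * f) ≠ 0 := by
  have h2 := h.hom_ext (α := β.toRingHom) (β := (τ.comp ψ).toRingHom) (t := t)
    (fun c => (β.commutes c).trans ((τ.comp ψ).commutes c).symm) ht 1 f hf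
  have h3 : β f ≠ 0 := by
    have e : β f = τ (ψ f) * ((t ^ (1 : ℤ) : Lˣ) : L) := h2
    rw [e, h1, map_one, one_mul]
    exact Units.ne_zero _
  obtain ⟨b, -, e⟩ := h.succ 0 le_rfl f (by simpa using hf)
  by_contra h4
  refine h3 ?_
  rw [e, map_sum]
  refine Finset.sum_eq_zero fun i _ => ?_
  have h5 : β (z i * f) = 0 := by_contra fun h5 => h4 ⟨i, h5⟩
  rw [map_mul] at h5 ⊢
  rw [(mul_eq_zero.1 h5).resolve_right h3, zero_mul]

/-- a piece that is an affine space -/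
theorem Std.lin (h : Std 𝒜 z θ) (hQ : Fintype.card k = Q) {τ : Type} [Finite τ]
    (ψ : A →ₐ[k] MvPolynomial τ k) {f : A} (hf : f ∈ 𝒜 1) (h1 : ψ f = 1)
    (hg : ∀ t, ∃ g ∈ 𝒜 1, ψ g = MvPolynomial.X t)
    {X : Set (GM (tg k (tv K) 𝒜) → ℚ)} (hX : FamG (verF k (tv K) 𝒜) r (Fintype.card k) X)
    (hE : ∀ l ∈ X, ExtG k (tv K) 𝒜 l) {Cl : Ideal A → Prop}
    (hcl : ∀ p, RingHom.ker (hat θ.toRingHom ψ.toRingHom) ≤ p → Cl p)
    (hc : ∀ l ∈ X, ∀ P : Ideal (K ⊗[k] A), P.IsPrime → Cl (P.comap (inr k K A)) →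
      ZG l P ∨ Thr z ψ P) :
    ∀ l ∈ X, ∀ P : Ideal (K ⊗[k] A), P.IsPrime → Cl (P.comap (inr k K A)) → ZG l P :=
  h.piece2 (TT.mv hQ (TT.of_surj (B := k) Function.surjective_id) τ) (et_id k _) ψ
    (h.pc_lin ψ hf h1 hg) (by rintro _ ⟨i, rfl⟩; exact ⟨i, Dvd.intro _ rfl⟩) (m := 0)
    (fun c a _ => ⟨mp K ψ a, by
      rw [add_zero, pow_one, mp, Algebra.TensorProduct.map_id]; rfl⟩)
    (fun L _ _ β τ t ht => (h.ne_lin ψ hf h1 β τ t ht).elim fun i hi => ⟨_, ⟨i, rfl⟩, hi⟩)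
    hX hE hcl hc

end Pool.Agent.CXD
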