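import Pool.Agent.P.MP_2ce3e7_ag.CUC
import Pool.Agent.P.MP_2ce3e7_ag.CUD2
import Pool.Agent.P.MP_2ce3e7_ag.CUE2
import Pool.Agent.P.MP_2ce3e7_ag.CUJ

/-! Closed conditions and points with values in a field. -/

set_option linter.unusedSectionVars false
set_option linter.unusedVariables false

open Matrix LaurentPolynomial
open scoped TensorProduct

noncomputable section

namespace Pool.Agent.CXD

variable {k : Type} [Field k] [Fintype k] {n n' m j r Q δ : ℕ} {σ α : Type} [Fintype σ]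
  [DecidableEq σ] {G : Matrix (Fin n) (Fin n) k} {η : k}

/-- the small subspace contains the rows of `w` -/
def InA (w : Matrix α (Fin n) k) (p : Ideal (Yr G r Q m)) : Prop :=
  ∀ (q : ZI m n) a b,
    inM (fun I => crd (yI G r Q m) (I, q.2)) (al (Yr G r Q m) w) q.1 a b ∈ p

/-- the large subspace contains the rows of `w` -/
def InB (w : Matrix α (Fin n) k) (p : Ideal (Yr G r Q m)) : Prop :=
  ∀ (q : ZI m n) a b,
    inM (fun J => crd (yI G r Q m) (q.1, J)) (al (Yr G r Q m) w) q.2 a b ∈ p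

theorem InA.mono {w : Matrix α (Fin n) k} {p p' : Ideal (Yr G r Q m)} (h : InA w p) (hp : p ≤ p') :
    InA w p' := fun q a b => hp (h q a b)

theorem InB.mono {w : Matrix α (Fin n) k} {p p' : Ideal (Yr G r Q m)} (h : InB w p) (hp : p ≤ p') :
    InB w p' := fun q a b => hp (h q a b)

section
variable {R : Type} [CommRing R] [Algebra k R] (β : Yr G r Q m →ₐ[k] R) {w : Matrix α (Fin n) k}
  {a : Matrix (Fin m) (Fin n) R} {b : Matrix (Fin (m + 1)) (Fin n) R} {t : R}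

theorem keyA_CUK (q : ZI m n) :
    (inM (fun I => crd (yI G r Q m) (I, q.2)) (al (Yr G r Q m) w) q.1).map β.toRingHom =
      inM (fun I => β (crd (yI G r Q m) (I, q.2))) (al R w) q.1 := by
  rw [inM_map, ← al_map β w]
  rfl

theorem keyB_CUK (q : ZI m n) :
    (inM (fun J => crd (yI G r Q m) (q.1, J)) (al (Yr G r Q m) w) q.2).map β.toRingHom =
      inM (fun J => β (crd (yI G r Q m) (q.1, J))) (al R w) q.2 := by
  rw [inM_map, ← al_map β w]
  rfl

theorem inA_of (hβ : ∀ p, β (crd (yI G r Q m) p) = pp a b p * t) {c : Matrix α (Fin m) R}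
    (hc : al R w = c * a) : InA w (RingHom.ker β.toRingHom) := by
  intro q x y
  have h1 : inM (fun I => β (crd (yI G r Q m) (I, q.2))) (al R w) q.1 = 0 := by
    simp only [hβ]
    rw [hc]
    exact inM_pp_left t c q
  exact congrFun (congrFun ((keyA_CUK β q).trans h1) x) y

theorem inB_of (hβ : ∀ p, β (crd (yI G r Q m) p) = pp a b p * t) {c : Matrix α (Fin (m + 1)) R}
    (hc : al R w = c * b) : InB w (RingHom.ker β.toRingHom) := by
  intro q x y
  have h1 : inM (fun J => β (crd (yI G r Q m) (q.1, J))) (al R w) q.2 = 0 := by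
    simp only [hβ]
    rw [hc]
    exact inM_pp_right t c q
  exact congrFun (congrFun ((keyB_CUK β q).trans h1) x) y

theorem InA.exists (hβ : ∀ p, β (crd (yI G r Q m) p) = pp a b p * t) {p : ZI m n}
    (hp : IsUnit (β (crd (yI G r Q m) p))) (h : InA w (RingHom.ker β.toRingHom)) :
    ∃ c : Matrix α (Fin m) R, al R w = c * a := by
  refine exists_of_inM (z := fun I => β (crd (yI G r Q m) (I, p.2))) (t := plu b p.2 * t)
    (fun I => ?_) (I := p.1) hp ?_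
  · rw [hβ, pp, mul_assoc]
  · rw [← keyA_CUK]
    ext x y
    exact h p x y

theorem InB.exists (hβ : ∀ p, β (crd (yI G r Q m) p) = pp a b p * t) {p : ZI m n}
    (hp : IsUnit (β (crd (yI G r Q m) p))) (h : InB w (RingHom.ker β.toRingHom)) :
    ∃ c : Matrix α (Fin (m + 1)) R, al R w = c * b := by
  refine exists_of_inM (z := fun J => β (crd (yI G r Q m) (p.1, J))) (t := plu a p.1 * t)
    (fun J => ?_) (I := p.2) hp ?_
  · rw [hβ, pp, mul_comm (plu a _), mul_assoc]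
  · rw [← keyB_CUK]
    ext x y
    exact h p x y

variable {θ : Yr G r Q m →ₐ[k] (Yr G r Q m)[T;T⁻¹]} {β}

/-- the homogenisation as an algebra map -/
def hatA {A D : Type} [CommRing A] [Algebra k A] [CommRing D] [Algebra k D]
    (θ : A →ₐ[k] A[T;T⁻¹]) (ψ : A →ₐ[k] D) : A →ₐ[k] D[T;T⁻¹] :=
  (AddMonoidAlgebra.mapAlgHom ℤ ψ).comp θ

/-- the constants as an algebra map -/
def cA (k D : Type) [Field k] [CommRing D] [Algebra k D] : D →ₐ[k] D[T;T⁻¹] :=
  AddMonoidAlgebra.singleZeroAlgHom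

theorem cA_apply {D : Type} [CommRing D] [Algebra k D] (x : D) : cA k D x = C x := rfl

theorem hatA_crd (hθ : Std (hom (yI G r Q m)) (crd (yI G r Q m)) θ)
    (hβ : ∀ p, β (crd (yI G r Q m) p) = pp a b p) (p : ZI m n) :
    hatA θ β (crd (yI G r Q m) p) = pp (a.map (cA k R)) (b.map (cA k R)) p * T 1 := by
  have h1 : θ (crd (yI G r Q m) p) = C (crd (yI G r Q m) p) * T 1 := hθ.co 1 _ (hθ.deg p)
  have h2 := map_C_mul_T β.toRingHom (crd (yI G r Q m) p) 1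
  have h3 := map_pp (a := a) (b := b) (cA k R).toRingHom p
  rw [hatA, AlgHom.comp_apply, h1]
  refine h2.trans (congrArg (· * T 1) ?_)
  refine Eq.trans ?_ h3
  exact congrArg C (hβ p)

theorem inA_hat (hθ : Std (hom (yI G r Q m)) (crd (yI G r Q m)) θ)
    (hβ : ∀ p, β (crd (yI G r Q m) p) = pp a b p) {c : Matrix α (Fin m) R} (hc : al R w = c * a) :
    InA w (RingHom.ker (hat θ.toRingHom β.toRingHom)) := by
  refine inA_of (hatA θ β) (hatA_crd hθ hβ) (c := c.map (cA k R)) ?_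
  rw [← al_map (cA k R), hc]
  exact Matrix.map_mul (f := (cA k R).toRingHom)

theorem inB_hat (hθ : Std (hom (yI G r Q m)) (crd (yI G r Q m)) θ)
    (hβ : ∀ p, β (crd (yI G r Q m) p) = pp a b p) {c : Matrix α (Fin (m + 1)) R}
    (hc : al R w = c * b) : InB w (RingHom.ker (hat θ.toRingHom β.toRingHom)) := by
  refine inB_of (hatA θ β) (hatA_crd hθ hβ) (c := c.map (cA k R)) ?_
  rw [← al_map (cA k R), hc]
  exact Matrix.map_mul (f := (cA k R).toRingHom)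

end

variable (F : Frm G r σ n') (ε₁ : Fin m ≃ σ ⊕ Fin j) (ε₂ : Fin (m + 1) ≃ σ ⊕ Fin (j + 1))
  {L : Type} [Field L] [Algebra k L]

/-- the point `β` is given by the subspaces `a`, `b` of the complement of the frame -/
structure Atp (β : Yr G r Q m →ₐ[k] L) (a : Matrix (Fin j) (Fin n') L)
    (b : Matrix (Fin (j + 1)) (Fin n') L) : Prop where
  pt : Pt (al L F.H) r Q a b
  ia : ∃ Y : Matrix (Fin n') (Fin j) L, a * Y = 1
  ib : ∃ Y : Matrix (Fin n') (Fin (j + 1)) L, b * Y = 1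
  val : ∃ t : Lˣ, ∀ p, β (crd (yI G r Q m) p) = pp (F.up ε₁ a) (F.up ε₂ b) p * t

/-- the small subspace contains one more rational vector -/
def Nx (σ : Type) [Fintype σ] [DecidableEq σ] (n' j : ℕ) (p : Ideal (Yr G r Q m)) : Prop :=
  0 < j ∧ ∃ n'', n' = n'' + 2 ∧ ∃ F' : Frm G r (σ ⊕ Unit) n'', InA F'.w p

theorem det_ne_CUK {d e : ℕ} {g : Matrix (Fin d) (Fin d) L} {u u' : Matrix (Fin d) (Fin e) L}
    {Y : Matrix (Fin e) (Fin d) L} (hY : u * Y = 1) (h : u = g * u') : g.det ≠ 0 := by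
  rw [h, Matrix.mul_assoc] at hY
  exact (Matrix.isUnit_det_of_right_inverse hY).ne_zero

theorem exists_atp (h : Fk G r Q δ η) (β : Yr G r Q m →ₐ[k] L) {p : ZI m n}
    (hp : β (crd (yI G r Q m) p) ≠ 0) (hw : InA F.w (RingHom.ker β.toRingHom)) :
    ∃ a b, Atp F ε₁ ε₂ β a b := by
  have h0 := (py_crd (m := m) G h.fb (fq_of_card h.card)).map β.toRingHom
  have e : (al (Yr G r Q m) G).map β.toRingHom = al L G := al_map β G
  rw [e] at h0
  obtain ⟨a, b, t, hpt, hz⟩ := h0.real (p := p) hp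
  have hz' : ∀ q, β (crd (yI G r Q m) q) = pp a b q * t := hz
  have hne : pp a b p ≠ 0 := left_ne_zero_of_mul (hz' p ▸ hp)
  obtain ⟨Y₁, h₁⟩ := exists_inv_of_plu (u := a) (I := p.1) (left_ne_zero_of_mul hne).isUnit
  obtain ⟨Y₂, h₂⟩ := exists_inv_of_plu (u := b) (I := p.2) (right_ne_zero_of_mul hne).isUnit
  obtain ⟨c, hc⟩ := InA.exists β hz' hp.isUnit hw
  obtain ⟨a', b', hp', ha', hb', ⟨g₁, e₁⟩, g₂, e₂⟩ := F.reduce h ε₁ ε₂ hpt h₁ h₂ hc
  refine ⟨a', b', hp', ha', hb', Units.mk0 _ (mul_ne_zero (det_ne_CUK h₁ e₁) (det_ne_CUK h₂ e₂)) * t,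
    fun q => ?_⟩
  rw [hz', Units.val_mul, Units.val_mk0, ← mul_assoc, ← pp_mul, ← e₁, ← e₂]

variable {F ε₁ ε₂} {β : Yr G r Q m →ₐ[k] L} {a : Matrix (Fin j) (Fin n') L}
  {b : Matrix (Fin (j + 1)) (Fin n') L}

theorem Atp.exists_ne (h : Atp F ε₁ ε₂ β a b) : ∃ p, β (crd (yI G r Q m) p) ≠ 0 := by
  obtain ⟨Y₁, h₁⟩ := h.ia
  obtain ⟨Y₂, h₂⟩ := h.ib
  obtain ⟨t, ht⟩ := h.val
  obtain ⟨c, hc⟩ := exists_pp_one (F.up_dn ε₁ h₁) (F.up_dn ε₂ h₂)
  by_contra hn
  have h0 : ∀ p, pp (F.up ε₁ a) (F.up ε₂ b) p = 0 := fun p => by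
    have e : β (crd (yI G r Q m) p) = 0 := by
      by_contra e
      exact hn ⟨p, e⟩
    rw [ht] at e
    exact (mul_eq_zero.1 e).resolve_right t.ne_zero
  simp only [h0, mul_zero, Finset.sum_const_zero] at hc
  exact zero_ne_one hc

theorem Atp.val_mul (h : Atp F ε₁ ε₂ β a b) {g₁ : Matrix (Fin j) (Fin j) L}
    {a' : Matrix (Fin j) (Fin n') L} (h₁ : a = g₁ * a') {g₂ : Matrix (Fin (j + 1)) (Fin (j + 1)) L}
    {b' : Matrix (Fin (j + 1)) (Fin n') L} (h₂ : b = g₂ * b') :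
    ∃ t : Lˣ, ∀ p, β (crd (yI G r Q m) p) = pp (F.up ε₁ a') (F.up ε₂ b') p * t := by
  obtain ⟨Y₁, i₁⟩ := h.ia
  obtain ⟨Y₂, i₂⟩ := h.ib
  obtain ⟨t, ht⟩ := h.val
  obtain ⟨f₁, e₁, d₁⟩ := F.up_mul ε₁ g₁ a'
  obtain ⟨f₂, e₂, d₂⟩ := F.up_mul ε₂ g₂ b'
  refine ⟨Units.mk0 _ (mul_ne_zero (det_ne_CUK i₁ h₁) (det_ne_CUK i₂ h₂)) * t, fun q => ?_⟩
  rw [ht, Units.val_mul, Units.val_mk0, ← mul_assoc, ← d₁, ← d₂, ← pp_mul, ← e₁, ← e₂, ← h₁, ← h₂]

theorem Atp.nx (h : Atp F ε₁ ε₂ β a b) (hG : Fk G r Q δ η) {v : Fin n' → k} (hv : v ≠ 0)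
    {c : Matrix Unit (Fin j) L} (hc : al L (Matrix.of fun _ : Unit => v) = c * a) :
    Nx σ n' j (RingHom.ker β.toRingHom) := by
  have hj : 0 < j := by
    refine Nat.pos_of_ne_zero fun h0 => hv ?_
    subst h0
    funext x
    have e := congrFun (congrFun hc ()) x
    rw [Matrix.mul_apply, Finset.univ_eq_empty, Finset.sum_empty] at e
    exact (algebraMap k L).injective (e.trans (map_zero _).symm)
  have h0 : bform F.H r v v = 0 := by
    obtain ⟨c₀, h₀⟩ := h.pt.sub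
    have e : al L (Matrix.of (fun _ : Unit => v) * F.H * dg r (Matrix.of fun _ : Unit => v)) = 0 := by
      rw [al_mul, al_mul, al_dg, hc, (hG.fb L).dg_mul]
      calc c * a * al L F.H * (dg r a * dg r c)
          = c * c₀ * (b * al L F.H * dg r a) * dg r c := by
            nth_rewrite 1 [h₀]
            simp only [Matrix.mul_assoc]
        _ = 0 := by rw [h.pt.perp, Matrix.mul_zero, Matrix.zero_mul]
    have e' : algebraMap k L ((Matrix.of (fun _ : Unit => v) * F.H *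
        dg r (Matrix.of fun _ : Unit => v)) () ()) = 0 := congrFun (congrFun e ()) ()
    rw [gram_apply] at e'
    exact (algebraMap k L).injective (e'.trans (map_zero _).symm)
  obtain ⟨n'', hn, F', hF'⟩ := F.exists_next hG hv h0
  obtain ⟨t, ht⟩ := h.val
  obtain ⟨c₁, h₁⟩ := F.w_up ε₁ a
  obtain ⟨c₂, h₂⟩ := F.P_up ε₁ c a
  refine ⟨hj, n'', hn, F', inA_of β ht (c := fromRows c₁ c₂) ?_⟩
  rw [hF', fromRows_mul, ← h₁, ← h₂, ← hc, ← al_mul]
  exact Matrix.fromRows_map _ _ _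

theorem Atp.inB (h : Atp F ε₁ ε₂ β a b) {M : Matrix α (Fin n') k} {c : Matrix α (Fin (j + 1)) L}
    (hc : al L M = c * b) : InB (M * F.P) (RingHom.ker β.toRingHom) := by
  obtain ⟨t, ht⟩ := h.val
  obtain ⟨c₂, h₂⟩ := F.P_up ε₂ c b
  refine inB_of β ht (c := c₂) ?_
  rw [al_mul, hc, h₂]

theorem Atp.of_inB (h : Atp F ε₁ ε₂ β a b) {M : Matrix α (Fin n') k}
    (hM : InB (M * F.P) (RingHom.ker β.toRingHom)) :
    ∃ c : Matrix α (Fin (j + 1)) L, al L M = c * b := by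
  obtain ⟨t, ht⟩ := h.val
  obtain ⟨p, hp⟩ := h.exists_ne
  obtain ⟨c, hc⟩ := InB.exists β ht hp.isUnit hM
  obtain ⟨E, E', -, hE⟩ := F.cq_up (R := L) ε₂
  refine ⟨c * E, ?_⟩
  have e := congrArg F.cq hc
  rwa [al_mul, F.cq_P, F.cq_mul, hE, ← Matrix.mul_assoc] at e

variable {K : Type} [CommRing K] [Algebra k K]

/-- the restriction to the second factor -/
abbrev rs2 {A : Type} [CommRing A] [Algebra k A] (α : K ⊗[k] A →ₐ[k] L) : A →ₐ[k] L :=
  α.comp Algebra.TensorProduct.includeRight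

theorem Atp.thr {α : K ⊗[k] Yr G r Q m →ₐ[k] L} (h : Atp F ε₁ ε₂ (rs2 α) a b) {D : Type}
    [CommRing D] [Algebra k D] {ψ : Yr G r Q m →ₐ[k] D} {aD : Matrix (Fin j) (Fin n') D}
    {bD : Matrix (Fin (j + 1)) (Fin n') D}
    (hψ : ∀ p, ψ (crd (yI G r Q m) p) = pp (F.up ε₁ aD) (F.up ε₂ bD) p) (τ : D →ₐ[k] L)
    {g₁ : Matrix (Fin j) (Fin j) L} (h₁ : a = g₁ * aD.map τ)
    {g₂ : Matrix (Fin (j + 1)) (Fin (j + 1)) L} (h₂ : b = g₂ * bD.map τ) :
    Thr (crd (yI G r Q m)) ψ (RingHom.ker α.toRingHom) := by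
  obtain ⟨t, ht⟩ := h.val_mul h₁ h₂
  refine ⟨L, _, _, α, τ, t, rfl, fun p => (ht p).trans ?_⟩
  rw [hψ, ← F.up_map, ← F.up_map]
  exact congrArg (· * (t : L)) (map_pp τ.toRingHom p).symm

variable (F ε₁ ε₂)

theorem exists_at [IsNoetherianRing K] (h : Fk G r Q δ η) (P : Ideal (K ⊗[k] Yr G r Q m)) (hP : P.IsPrime)
    (hw : InA F.w (P.comap (inr k K _))) :
    (∀ p, inr k K _ (crd (yI G r Q m) p) ∈ P) ∨
      ∃ (L : Type) (_ : Field L) (_ : IsAlgClosed L) (_ : Algebra k L)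
        (α : K ⊗[k] Yr G r Q m →ₐ[k] L), RingHom.ker α.toRingHom = P ∧
        ∃ a b, Atp F ε₁ ε₂ (rs2 α) a b := by
  obtain ⟨L, _, _, _, α, rfl⟩ := exists_point_tensor P hP
  refine or_iff_not_imp_left.2 fun hz => ?_
  obtain ⟨p, hp⟩ := not_forall.1 hz
  exact ⟨L, _, inferInstance, _, α, rfl, exists_atp F ε₁ ε₂ h (rs2 α) hp hw⟩

end Pool.Agent.CXD
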