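import Pool.Agent.P.MP_2ce3e7_ag.CUK
import Pool.Agent.P.MP_2ce3e7_ag.CUG

/-! The linear strata. -/

set_option linter.unusedSectionVars false
set_option linter.unusedVariables false

open Matrix LaurentPolynomial
open scoped TensorProduct

noncomputable section

namespace Pool.Agent.CXD

variable {k : Type} [Field k] [Fintype k] {n n' m j r Q δ : ℕ} {σ : Type} [Fintype σ]
  [DecidableEq σ] {G : Matrix (Fin n) (Fin n) k} {η : k}
  {θ : Yr G r Q m →ₐ[k] (Yr G r Q m)[T;T⁻¹]} {K : Type} [CommRing K] [Algebra k K]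
  [IsNoetherianRing K] {X : Set (GM (tg k (tv K) (hom (yI G r Q m))) → ℚ)}

/-- the standing hypotheses -/
structure Ctx (δ : ℕ) (η : k) (θ : Yr G r Q m →ₐ[k] (Yr G r Q m)[T;T⁻¹])
    (X : Set (GM (tg k (tv K) (hom (yI G r Q m))) → ℚ)) : Prop where
  fk : Fk G r Q δ η
  std : Std (hom (yI G r Q m)) (crd (yI G r Q m)) θ
  fam : FamG (verF k (tv K) (hom (yI G r Q m))) r (Fintype.card k) X
  ext : ∀ l ∈ X, ExtG k _ _ l
  vn : ∀ l ∈ X, VnG ⊥ (Set.range fun p => inr k K _ (crd (yI G r Q m) p)) l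

/-- the family vanishes on the primes with the property `Cl` -/
def Vy (X : Set (GM (tg k (tv K) (hom (yI G r Q m))) → ℚ)) (Cl : Ideal (Yr G r Q m) → Prop) :
    Prop :=
  ∀ l ∈ X, ∀ P : Ideal (K ⊗[k] Yr G r Q m), P.IsPrime → Cl (P.comap (inr k K _)) → ZG l P

theorem Ctx.irr (h : Ctx δ η θ X) {l} (hl : l ∈ X) {P : Ideal (K ⊗[k] Yr G r Q m)}
    (hP : ∀ p, inr k K _ (crd (yI G r Q m) p) ∈ P) : ZG l P :=
  fun C hC => (h.vn l hl).mono hC (by rintro _ ⟨p, rfl⟩; exact hP p)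

variable (F : Frm G r σ n') (ε₁ : Fin m ≃ σ ⊕ Fin j) (ε₂ : Fin (m + 1) ≃ σ ⊕ Fin (j + 1))

theorem lf_up {D : Type} [CommRing D] [Algebra k D] {ψ : Yr G r Q m →ₐ[k] D}
    {a : Matrix (Fin j) (Fin n') D} {b : Matrix (Fin (j + 1)) (Fin n') D}
    (hψ : ∀ p, ψ (crd (yI G r Q m) p) = pp (F.up ε₁ a) (F.up ε₂ b) p)
    (Y₁ : Matrix (Fin n') (Fin j) k) (Y₂ : Matrix (Fin n') (Fin (j + 1)) k) :
    ∃ f ∈ hom (yI G r Q m) 1, ψ f = (a * al D Y₁).det * (b * al D Y₂).det := by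
  refine ⟨_, lf_hom _ (F.dn ε₁ Y₁) (F.dn ε₂ Y₂), ?_⟩
  rw [map_lf, funext hψ, lf_pp, F.dn_al, F.dn_al, F.det_up_dn, F.det_up_dn]

/-- a point of the stratum with rational large subspace -/
theorem Atp.casesC {L : Type} [Field L] [Algebra k L] {β : Yr G r Q m →ₐ[k] L}
    {a : Matrix (Fin j) (Fin n') L} {b : Matrix (Fin (j + 1)) (Fin n') L}
    (h : Atp F ε₁ ε₂ β a b) (hG : Fk G r Q δ η) {M : Matrix (Fin (j + 1)) (Fin n') k}
    {N : Matrix (Fin n') (Fin (j + 1)) k} (hN : M * N = 1)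
    (hM : InB (M * F.P) (RingHom.ker β.toRingHom)) :
    Nx σ n' j (RingHom.ker β.toRingHom) ∨ ∃ t : Fin j → L,
      (∃ g : Matrix (Fin j) (Fin j) L, a = g * (ct t * al L M)) ∧
        ∃ g : Matrix (Fin (j + 1)) (Fin (j + 1)) L, b = g * al L M := by
  obtain ⟨c, hc⟩ := h.of_inB hM
  have e1 : al L M * al L N = 1 := by
    rw [← al_mul, hN]; exact Matrix.map_one _ (map_zero _) (map_one _)
  have e2 : c * (b * al L N) = 1 := by rw [← Matrix.mul_assoc, ← hc, e1]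
  have e3 : b = b * al L N * al L M := by
    rw [hc, ← Matrix.mul_assoc, mul_eq_one_comm.1 e2, Matrix.one_mul]
  obtain ⟨c₀, h₀⟩ := h.pt.sub
  obtain ⟨Y, hY⟩ := h.ia
  have e4 : a = c₀ * (b * al L N) * al L M := by rw [Matrix.mul_assoc, ← e3, ← h₀]
  have e5 : c₀ * (b * al L N) * (al L M * Y) = 1 := by rw [← Matrix.mul_assoc, ← e4, hY]
  rcases exists_ct e5 with ⟨u, hu⟩ | ⟨g, t, hg⟩
  · refine Or.inl (h.nx hG (v := M 0) (fun h0 => ?_) (c := u) ?_)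
    · have := congrFun (congrFun hN 0) 0
      simp [Matrix.mul_apply, h0] at this
    · rw [e4, ← Matrix.mul_assoc, hu]
      ext x y
      simp [Matrix.mul_apply, Pi.single_apply]
  · exact Or.inr ⟨t, ⟨g, by rw [← Matrix.mul_assoc, ← hg, ← e4]⟩, _, e3⟩

include ε₁ ε₂ in
theorem Ctx.stepC (h : Ctx δ η θ X) (ih : Vy X (Nx σ n' j)) {M : Matrix (Fin (j + 1)) (Fin n') k}
    {N : Matrix (Fin n') (Fin (j + 1)) k} (hN : M * N = 1) (hM : Lg F.H r M) :
    Vy X fun p => InA F.w p ∧ InB (M * F.P) p := by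
  let D := MvPolynomial (Fin j) k
  obtain ⟨ψ, hψ⟩ := (F.pt_up h.fk ε₁ ε₂ (hM.pt (R := D) h.fk.card (h.fk.fb _)
    (fq_of_card h.fk.card _) (ct MvPolynomial.X))).exists_lift
  have key : ∀ S : Matrix (Fin (j + 1)) (Fin j) k, ∃ f ∈ hom (yI G r Q m) 1,
      ψ f = (ct MvPolynomial.X * al D S).det := fun S => by
    obtain ⟨f, hf, e⟩ := lf_up F ε₁ ε₂ hψ (N * S) N
    refine ⟨f, hf, e.trans ?_⟩
    have e1 : al D M * al D N = 1 := by rw [← al_mul, hN]; exact Matrix.map_one _ (map_zero _) (map_one _)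
    rw [e1, det_one, mul_one, al_mul, Matrix.mul_assoc, ← Matrix.mul_assoc (al D M), e1,
      Matrix.one_mul]
    rfl
  obtain ⟨S, hS⟩ := exists_ct_one (k := k) j
  obtain ⟨f, hf, h1⟩ := key S
  refine h.std.lin h.fk.card ψ hf (h1.trans (hS _ _)) (fun t => ?_) h.fam h.ext
    (Cl := fun p => InA F.w p ∧ InB (M * F.P) p) (fun p hp => ⟨?_, ?_⟩) fun l hl P hP hw => ?_
  · obtain ⟨S', hS'⟩ := exists_ct_var (k := k) t
    obtain ⟨g, hg, h2⟩ := key S'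
    exact ⟨g, hg, h2.trans (hS' _ _)⟩
  · obtain ⟨c, hc⟩ := F.w_up ε₁ (ct MvPolynomial.X * al D M)
    exact (inA_hat h.std hψ hc).mono hp
  · obtain ⟨c, hc⟩ := F.P_up ε₂ (1 : Matrix (Fin (j + 1)) (Fin (j + 1)) D) (al D M)
    rw [Matrix.one_mul, ← al_mul] at hc
    exact (inB_hat h.std hψ hc).mono hp
  · rcases exists_at F ε₁ ε₂ h.fk P hP hw.1 with h0 | ⟨L, _, _, _, α, rfl, a, b, hat⟩
    · exact Or.inl (h.irr hl h0)
    rcases hat.casesC F ε₁ ε₂ h.fk hN hw.2 with h2 | ⟨t, ⟨g₁, h₁⟩, g₂, h₂⟩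
    · exact Or.inl (ih l hl _ hP h2)
    · refine Or.inr (hat.thr hψ (MvPolynomial.aeval t) (g₁ := g₁) (h₁.trans ?_) (g₂ := g₂)
        (h₂.trans ?_))
      · rw [← al_map (MvPolynomial.aeval t) M]
        congr 1
        refine Eq.trans ?_ (Matrix.map_mul (f := (MvPolynomial.aeval t : D →ₐ[k] L))).symm
        congr 1
        refine Eq.trans ?_ (ct_map (MvPolynomial.aeval t : D →ₐ[k] L).toRingHom _).symm
        congr 1
        exact funext fun l => (MvPolynomial.aeval_X t l).symm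
      · rw [al_map]

end Pool.Agent.CXD
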