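import Pool.Agent.P.MP_2ce3e7_ag.CUL

/-! The stratum with rational small subspace. -/

set_option linter.unusedSectionVars false
set_option linter.unusedVariables false

open Matrix LaurentPolynomial
open scoped TensorProduct

noncomputable section

namespace Pool.Agent.CXD

variable {R : Type} [CommRing R] {e : ℕ}

/-- the vector `(1, t)` -/
def on1 (t : Fin e → R) : Matrix (Fin (0 + 1)) (Fin (e + 1)) R := Matrix.of fun _ => Fin.cons 1 t

variable {k : Type} [Field k] [Fintype k] {n m r Q δ : ℕ} {σ : Type} [Fintype σ]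
  [DecidableEq σ] {G : Matrix (Fin n) (Fin n) k} {η : k}
  {θ : Yr G r Q m →ₐ[k] (Yr G r Q m)[T;T⁻¹]} {K : Type} [CommRing K] [Algebra k K]
  [IsNoetherianRing K] {X : Set (GM (tg k (tv K) (hom (yI G r Q m))) → ℚ)}

theorem on1_map {R' : Type} [CommRing R'] (f : R →+* R') (t : Fin e → R) :
    (on1 t).map f = on1 fun l => f (t l) := by
  ext a b
  refine Fin.cases ?_ (fun b => ?_) b <;> simp [on1]

theorem exists_col [Algebra k R] (u : Matrix (Fin (0 + 1)) (Fin (e + 1)) R) (c : Fin (e + 1)) :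
    ∃ Y : Matrix (Fin (e + 1)) (Fin (0 + 1)) k, (u * al R Y).det = u 0 c := by
  refine ⟨Matrix.of fun a _ => (Pi.single c 1 : Fin (e + 1) → k) a, ?_⟩
  refine (det_fin_one _).trans ?_
  simp [Matrix.mul_apply, Pi.single_apply, apply_ite (algebraMap k R)]

theorem line_cases {L : Type} [Field L] [Algebra k L] (he : e ≤ 1)
    {b : Matrix (Fin (0 + 1)) (Fin (e + 1)) L} {Y : Matrix (Fin (e + 1)) (Fin (0 + 1)) L}
    (hY : b * Y = 1) :
    (∃ (M : Matrix (Fin (0 + 1)) (Fin (e + 1)) k) (N : Matrix (Fin (e + 1)) (Fin (0 + 1)) k),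
      M * N = 1 ∧ ∃ c : Matrix (Fin (0 + 1)) (Fin (0 + 1)) L, al L M = c * b) ∨
    ∃ (t : Fin e → L) (g : Matrix (Fin (0 + 1)) (Fin (0 + 1)) L), b = g * on1 t := by
  have h1 : ∑ c, b 0 c * Y c 0 = 1 := by
    have := congrFun (congrFun hY 0) 0
    rwa [Matrix.mul_apply, Matrix.one_apply_eq] at this
  by_cases h0 : b 0 0 = 0
  · obtain rfl | rfl : e = 0 ∨ e = 1 := by omega
    · simp [h0] at h1
    · have h2 : b 0 1 ≠ 0 := fun h2 => by simp [Fin.sum_univ_succ, h0, h2] at h1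
      refine Or.inl ⟨Matrix.of fun _ => Pi.single 1 1, Matrix.of fun a _ =>
        (Pi.single 1 1 : Fin (1 + 1) → k) a, ?_, Matrix.of fun _ _ => (b 0 1)⁻¹, ?_⟩
      · ext x y
        rw [Fin.fin_one_eq_zero x, Fin.fin_one_eq_zero y]
        simp [Matrix.mul_apply, Fin.sum_univ_succ]
      · ext x y
        fin_cases y <;> simp [Matrix.mul_apply, h0, h2]
  · refine Or.inr ⟨fun l => b 0 l.succ / b 0 0, Matrix.of fun _ _ => b 0 0, ?_⟩
    ext x y
    rw [Fin.fin_one_eq_zero x]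
    refine Fin.cases ?_ (fun y => ?_) y <;> simp [Matrix.mul_apply, on1, mul_div_cancel₀ _ h0]

theorem Ctx.stepD (h : Ctx δ η θ X) (F : Frm G r σ (e + 1)) (ε₁ : Fin m ≃ σ ⊕ Fin 0)
    (ε₂ : Fin (m + 1) ≃ σ ⊕ Fin (0 + 1)) (he : e ≤ 1) (hr : r ≠ 1) : Vy X (InA F.w) := by
  let D := MvPolynomial (Fin e) k
  have hp : Pt (al D F.H) r Q (0 : Matrix (Fin 0) (Fin (e + 1)) D) (on1 MvPolynomial.X) :=
    ⟨⟨0, Subsingleton.elim _ _⟩, ⟨0, Subsingleton.elim _ _⟩, by ext a b; exact b.elim0,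
      fun h1 => absurd h1 hr⟩
  obtain ⟨ψ, hψ⟩ := (F.pt_up h.fk ε₁ ε₂ hp).exists_lift
  have key : ∀ c : Fin (e + 1), ∃ f ∈ hom (yI G r Q m) 1,
      ψ f = on1 (MvPolynomial.X : Fin e → D) 0 c := fun c => by
    obtain ⟨Y, hY⟩ := exists_col (k := k) (on1 (MvPolynomial.X : Fin e → D)) c
    obtain ⟨f, hf, e⟩ := lf_up F ε₁ ε₂ hψ 0 Y
    exact ⟨f, hf, by rw [e, hY, det_isEmpty, one_mul]⟩
  obtain ⟨f, hf, h1⟩ := key 0
  refine h.std.lin h.fk.card ψ hf h1 (fun t => key t.succ) h.fam h.ext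
    (Cl := InA F.w) (fun p hp => ?_) fun l hl P hP hw => ?_
  · obtain ⟨c, hc⟩ := F.w_up ε₁ (0 : Matrix (Fin 0) (Fin (e + 1)) D)
    exact (inA_hat h.std hψ hc).mono hp
  · rcases exists_at F ε₁ ε₂ h.fk P hP hw with h0 | ⟨L, _, _, _, α, rfl, a, b, hat⟩
    · exact Or.inl (h.irr hl h0)
    obtain ⟨Y, hY⟩ := hat.ib
    rcases line_cases (k := k) he hY with ⟨M, N, hN, c, hc⟩ | ⟨t, g, hg⟩
    · exact Or.inl (h.stepC F ε₁ ε₂ (fun _ _ _ _ h2 => absurd h2.1 (lt_irrefl 0)) hN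
        (Or.inl ⟨hr, rfl⟩) l hl _ hP ⟨hw, hat.inB hc⟩)
    · refine Or.inr (hat.thr hψ (MvPolynomial.aeval t) (g₁ := 0) (Subsingleton.elim _ _) (g₂ := g)
        (hg.trans ?_))
      congr 1
      refine Eq.trans ?_ (on1_map (MvPolynomial.aeval t : D →ₐ[k] L).toRingHom _).symm
      congr 1
      exact funext fun l => (MvPolynomial.aeval_X t l).symm

end Pool.Agent.CXD
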