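import Pool.Agent.P.MP_2ce3e7_ag.CUK
import Pool.Agent.P.MP_2ce3e7_ag.CUH
import Pool.Agent.P.MP_2ce3e7_ag.CUI3

/-! The parametrisation of the open stratum is finite. -/

set_option linter.unusedSectionVars false
set_option linter.unusedVariables false

open Matrix LaurentPolynomial
open scoped TensorProduct

noncomputable section

namespace Pool.Agent.CXD

variable {k R R' : Type} [Field k] [Fintype k] [CommRing R] [Algebra k R] [CommRing R']
  [Algebra k R'] {n n' m j i r Q δ : ℕ} {σ : Type} [Fintype σ]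
  [DecidableEq σ] {G : Matrix (Fin n) (Fin n) k} {η : k} (F : Frm G r σ n')

/-- the chosen rows in the basis `P` -/
def Frm.cz (z : ZI m n → R) (p : ZI m n) (ch : Fin (j + 1) → Fin (m + 1)) :
    Matrix (Fin (j + 1)) (Fin n') R := (F.cq (eb z p)).submatrix ch id

/-- a function that does not vanish on a part of the stratum -/
def Frm.fz (Q i : ℕ) (z : ZI m n → R) (p : ZI m n) (ch : Fin (j + 1) → Fin (m + 1))
    (a : Fin (j + 1)) : R := z p * fq (al R F.H) r Q i (F.cz z p ch) a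

/-- the functions that define the boundary -/
def Frm.bz (Q m i j : ℕ) : Set (Yr G r Q m) :=
  {f | ∃ (p : ZI m n) (ch : Fin (j + 1) → Fin (m + 1)) (a : Fin (j + 1)),
    f = F.fz Q i (crd (yI G r Q m)) p ch a}

theorem Frm.cz_map (f : R →ₐ[k] R') (z : ZI m n → R) (p : ZI m n)
    (ch : Fin (j + 1) → Fin (m + 1)) : (F.cz z p ch).map f = F.cz (fun q => f (z q)) p ch := by
  unfold Frm.cz
  rw [← Matrix.submatrix_map, F.cq_map]
  rfl

theorem Frm.map_fz (f : R →ₐ[k] R') (z : ZI m n → R) (p : ZI m n)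
    (ch : Fin (j + 1) → Fin (m + 1)) (a : Fin (j + 1)) :
    f (F.fz Q i z p ch a) = F.fz Q i (fun q => f (z q)) p ch a := by
  unfold Frm.fz
  rw [map_mul, ← F.cz_map f, ← al_map f F.H]
  exact congrArg (f (z p) * ·) (map_fq f.toRingHom a)

variable (ε₁ : Fin m ≃ σ ⊕ Fin j) (ε₂ : Fin (m + 1) ≃ σ ⊕ Fin (j + 1))

theorem Frm.cz_up (a : Matrix (Fin m) (Fin n) R) (b : Matrix (Fin (j + 1)) (Fin n') R) (t : R)
    (p : ZI m n) (ch : Fin (j + 1) → Fin (m + 1)) :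
    ∃ C : Matrix (Fin (j + 1)) (Fin (j + 1)) R,
      F.cz (fun q => pp a (F.up ε₂ b) q * t) p ch = C * b := by
  obtain ⟨E, E', -, hE⟩ := F.cq_up (R := R) ε₂
  refine ⟨(((plu a p.1 * t) • ((F.up ε₂ b).submatrix id p.2).adjugate) * E).submatrix ch id, ?_⟩
  unfold Frm.cz
  rw [eb_pp, F.cq_mul, hE, ← Matrix.mul_assoc]
  rfl

theorem Frm.exists_fz_ne (h : Fk G r Q δ η) (hi : 0 < i) (hj : i + δ = j + 1) {L : Type} [Field L]
    [Algebra k L] {x : Fin n' → L} (hx : Oq (al L F.H) r Q i x) (t : Lˣ) :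
    ∃ (p : ZI m n) (ch : Fin (j + 1) → Fin (m + 1)) (a : Fin (j + 1)), F.fz Q i
      (fun q => pp (F.up ε₁ (frs Q 0 j x)) (F.up ε₂ (frs Q 0 (j + 1) x)) q * t) p ch a ≠ 0 := by
  have hm := (h.frame F).fm L
  obtain ⟨Y₁, h₁⟩ := hm.frs_inv hx (s := j) (by omega)
  obtain ⟨Y₂, h₂⟩ := hm.frs_inv hx (s := j + 1) (by omega)
  obtain ⟨c, hc⟩ := exists_pp_one (F.up_dn ε₁ h₁) (F.up_dn ε₂ h₂)
  obtain ⟨E, E', hE', hE⟩ := F.cq_up (R := L) ε₂
  have hEb := hE (frs Q 0 (j + 1) x)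
  generalize F.up ε₁ (frs Q 0 j x) = a at hc ⊢
  generalize F.up ε₂ (frs Q 0 (j + 1) x) = b at hc hEb ⊢
  obtain ⟨p, hp⟩ : ∃ p, pp a b p ≠ 0 := by
    by_contra h0
    have h0' : ∀ p, pp a b p = 0 := fun p => by_contra fun h1 => h0 ⟨p, h1⟩
    simp only [h0', mul_zero, Finset.sum_const_zero] at hc
    exact zero_ne_one hc
  have hp1 : plu a p.1 ≠ 0 := left_ne_zero_of_mul hp
  have hp2 : (b.submatrix id p.2).det ≠ 0 := right_ne_zero_of_mul hp
  have he := eb_pp (a := a) (b := b) (t : L) p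
  have hg : ((plu a p.1 * t) • (b.submatrix id p.2).adjugate).det ≠ 0 := by
    rw [det_smul, det_adjugate]
    exact mul_ne_zero (pow_ne_zero _ (mul_ne_zero hp1 t.ne_zero)) (pow_ne_zero _ hp2)
  generalize (plu a p.1 * t) • (b.submatrix id p.2).adjugate = g at he hg
  have hC : (E' * g⁻¹) * (g * E) = 1 := by
    rw [Matrix.mul_assoc, ← Matrix.mul_assoc g⁻¹, Matrix.nonsing_inv_mul g hg.isUnit,
      Matrix.one_mul, hE']
  obtain ⟨ch, a', ha'⟩ := hm.exists_fq_ne hx hi hj hC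
  refine ⟨p, ch, a', mul_ne_zero (mul_ne_zero hp t.ne_zero) ?_⟩
  unfold Frm.cz
  rwa [he, F.cq_mul, hEb, ← Matrix.mul_assoc]

theorem adjoin_xw (H : Matrix (Fin n) (Fin n) k) :
    Algebra.adjoin k (Set.range (xw H r Q i)) = ⊤ := by
  refine eq_top_iff.2 fun y _ => ?_
  obtain ⟨f, rfl⟩ := Ideal.Quotient.mk_surjective y
  induction f using MvPolynomial.induction_on with
  | C c => exact Subalgebra.algebraMap_mem _ c
  | add f g hf hg =>
    rw [map_add]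
    exact add_mem (hf trivial) (hg trivial)
  | mul_X f a hf =>
    rw [map_mul]
    exact mul_mem (hf trivial) (Algebra.subset_adjoin ⟨a, rfl⟩)

variable {θ : Yr G r Q m →ₐ[k] (Yr G r Q m)[T;T⁻¹]} {ψ : Yr G r Q m →ₐ[k] Dw F.H r Q i}

theorem Frm.pcB (h : Fk G r Q δ η) (hi : 0 < i) (hj : i + δ = j + 1)
    (hθ : Std (hom (yI G r Q m)) (crd (yI G r Q m)) θ)
    (hψ : ∀ p, ψ (crd (yI G r Q m) p) = pp (F.up ε₁ (frs Q 0 j (xw F.H r Q i)))
      (F.up ε₂ (frs Q 0 (j + 1) (xw F.H r Q i))) p) :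
    Pc (hat θ.toRingHom ψ.toRingHom) (F.bz Q m i j) := by
  have hm := (h.frame F).fm (Dw F.H r Q i)
  have hx := oq_xw (r := r) (Q := Q) (i := i) F.H
  obtain ⟨Y₁, h₁⟩ := hm.frs_inv hx (s := j) (by omega)
  obtain ⟨Y₂, h₂⟩ := hm.frs_inv hx (s := j + 1) (by omega)
  obtain ⟨c, hc⟩ := exists_pp_one (F.up_dn ε₁ h₁) (F.up_dn ε₂ h₂)
  have hz := hatA_crd hθ hψ
  have hz' : ∀ p, hatA θ ψ (crd (yI G r Q m) p) =
      C (pp (F.up ε₁ (frs Q 0 j (xw F.H r Q i))) (F.up ε₂ (frs Q 0 (j + 1) (xw F.H r Q i))) p) *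
        T 1 := fun p =>
    (hz p).trans (congrArg (· * T 1) (map_pp (cA k (Dw F.H r Q i)).toRingHom p).symm)
  have hm' := (h.frame F).fm (Dw F.H r Q i)[T;T⁻¹]
  have hx' : Oq (al (Dw F.H r Q i)[T;T⁻¹] F.H) r Q i fun a => C (xw F.H r Q i a) := by
    rw [← al_map (cA k (Dw F.H r Q i)) F.H]
    exact hx.map (cA k (Dw F.H r Q i)).toRingHom
  have hb : (frs Q 0 (j + 1) (xw F.H r Q i)).map (cA k (Dw F.H r Q i)) =
      frs Q 0 (j + 1) fun a => C (xw F.H r Q i a) := frs_map (cA k (Dw F.H r Q i)).toRingHom _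
  rw [F.up_map ε₂, hb] at hz
  change Pc (hatA θ ψ).toRingHom _
  generalize hatA θ ψ = Ψ at hz hz' ⊢
  have key : ∀ (p : ZI m n) (ch : Fin (j + 1) → Fin (m + 1)) (a : Fin (j + 1)),
      ∃ (lam : (Dw F.H r Q i)[T;T⁻¹]) (y : Fin n' → Yr G r Q m),
        (∀ a', Ψ (y a') = lam * C (xw F.H r Q i a') ^ Q ^ j) ∧
        Ψ (fq (al (Yr G r Q m) F.H) r Q i (F.cz (crd (yI G r Q m)) p ch) a) =
          lam ^ (1 + r * Q ^ i) := fun p ch a => by
    obtain ⟨M, hM⟩ := F.cz_up ε₂ ((F.up ε₁ (frs Q 0 j (xw F.H r Q i))).map (cA k (Dw F.H r Q i)))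
      (frs Q 0 (j + 1) fun a => C (xw F.H r Q i a)) (T 1) p ch
    rw [← funext hz, ← F.cz_map Ψ] at hM
    obtain ⟨lam, hl⟩ := hm'.yq_eq hx' hi hj M a
    rw [← hM] at hl
    have h2 := hm'.fq_eq hx' hl
    rw [← al_map Ψ F.H] at hl h2
    refine ⟨lam, yq (al (Yr G r Q m) F.H) r Q i (F.cz (crd (yI G r Q m)) p ch) a, fun a' => ?_,
      (map_fq Ψ.toRingHom a).trans h2⟩
    exact (congrFun (congrFun (yq_map Ψ.toRingHom) a) a').trans (congrFun hl a')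
  refine pc_of_gen Ψ (x := xw F.H r Q i) (z := crd (yI G r Q m)) (adjoin_xw _) ?_ ⟨c, ?_⟩ ?_ ?_
  · refine (Set.finite_range fun p : ZI m n × (Fin (j + 1) → Fin (m + 1)) × Fin (j + 1) =>
      F.fz Q i (crd (yI G r Q m)) p.1 p.2.1 p.2.2).subset ?_
    rintro f ⟨p, ch, a, rfl⟩
    exact ⟨(p, ch, a), rfl⟩
  · simp only [hz', ← mul_assoc, ← map_mul, ← Finset.sum_mul, ← map_sum, hc, map_one, one_mul]
  · rintro f ⟨p, ch, a, rfl⟩
    refine ⟨pp (F.up ε₁ (frs Q 0 j (xw F.H r Q i))) (F.up ε₂ (frs Q 0 (j + 1) (xw F.H r Q i))) p,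
      fq (al (Yr G r Q m) F.H) r Q i (F.cz (crd (yI G r Q m)) p ch) a, ?_⟩
    unfold Frm.fz
    rw [map_mul, hz', mul_right_comm, mul_assoc (C _), ← T_add, add_neg_cancel, T_zero, mul_one]
  · rintro f ⟨p, ch, a, rfl⟩ a'
    obtain ⟨lam, y, h1, h2⟩ := key p ch a
    have hQ : 0 < Q := lt_trans Nat.one_pos hm.big
    refine ⟨Q ^ j * (1 + r * Q ^ i), crd (yI G r Q m) p * y a' ^ (1 + r * Q ^ i), by positivity, ?_⟩
    unfold Frm.fz
    rw [map_mul, map_mul, map_pow, h1, h2, mul_pow, pow_mul, mul_assoc]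

end Pool.Agent.CXD
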