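import Pool.Agent.P.MP_2ce3e7_ag.CUL2
import Pool.Agent.P.MP_2ce3e7_ag.CUM

/-! The induction on the strata. -/

set_option linter.unusedSectionVars false
set_option linter.unusedVariables false

open Matrix LaurentPolynomial
open scoped TensorProduct

noncomputable section

namespace Pool.Agent.CXD

variable {k : Type} [Field k] [Fintype k] {n n' m j i p r Q κ δ ex : ℕ} {σ : Type} [Fintype σ]
  [DecidableEq σ] {G : Matrix (Fin n) (Fin n) k} {η : k}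
  {θ : Yr G r Q m →ₐ[k] (Yr G r Q m)[T;T⁻¹]} {K : Type} [CommRing K] [Algebra k K]
  [IsNoetherianRing K] {X : Set (GM (tg k (tv K) (hom (yI G r Q m))) → ℚ)}

theorem Ctx.stepB (h : Ctx δ η θ X) (F : Frm G r σ n') (ε₁ : Fin m ≃ σ ⊕ Fin j)
    (ε₂ : Fin (m + 1) ≃ σ ⊕ Fin (j + 1)) (hH : Hyp p F.H r Q i δ ex η) (hj : i + δ = j + 1)
    (ih : Vy X (Nx σ n' j)) : Vy X (InA F.w) := by
  have hi := hH.hκ
  have hk := h.fk.card
  obtain ⟨ψ, hψ⟩ := (F.pt_up h.fk ε₁ ε₂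
    (((h.fk.frame F).fm (Dw F.H r Q i)).pt_frs (oq_xw F.H) hj)).exists_lift
  obtain ⟨s, _, π, y, y', het⟩ := exists_etW (r := r) F.H hk hi
  have := cox_finiteType (G := F.H) (r := r) (Q := Q) (κ := i)
  obtain ⟨c₁, h₁⟩ := F.wt_plu (Q := Q) (i := i) ε₁
  obtain ⟨c₂, h₂⟩ := F.wt_plu (Q := Q) (i := i) ε₂
  refine h.std.piece2 (TT.cox hH hk) het ψ (F.pcB ε₁ ε₂ h.fk hi hj h.std hψ)
    (by rintro _ ⟨p, ch, a, rfl⟩; exact ⟨p, Dvd.intro _ rfl⟩)
    (fun c a ha => h.std.pow_mem (c₀ := c₁ + c₂) (fun s => by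
      rw [hψ]; exact (h₁ _).mul (h₂ _)) K ha)
    (fun L _ _ β τ t ht => ?_) h.fam h.ext (Cl := InA F.w) (fun p hp => ?_) fun l hl P hP hw => ?_
  · have hx := (oq_xw (r := r) (Q := Q) (i := i) F.H).map τ.toRingHom
    rw [show (al (Dw F.H r Q i) F.H).map τ.toRingHom = al L F.H from al_map τ _] at hx
    obtain ⟨p, ch, a, hne⟩ := F.exists_fz_ne ε₁ ε₂ h.fk hi hj hx t
    refine ⟨_, ⟨p, ch, a, rfl⟩, ?_⟩
    rw [F.map_fz]
    refine (congrArg (fun z => F.fz Q i z p ch a ≠ 0) (funext fun q => ?_)).mpr hne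
    rw [ht, hψ, ← frs_map τ.toRingHom, ← frs_map τ.toRingHom]
    refine congrArg (· * (t : L)) ((map_pp τ.toRingHom q).trans ?_)
    exact congrArg₂ (fun u v => pp u v q) (F.up_map ε₁ τ _) (F.up_map ε₂ τ _)
  · obtain ⟨c, hc⟩ := F.w_up ε₁ (frs Q 0 j (xw F.H r Q i))
    exact (inA_hat h.std hψ hc).mono hp
  · rcases exists_at F ε₁ ε₂ h.fk P hP hw with h0 | ⟨L, _, _, _, α, rfl, a, b, hat⟩
    · exact Or.inl (h.irr hl h0)
    obtain ⟨Y₁, hY₁⟩ := hat.ia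
    obtain ⟨Y₂, hY₂⟩ := hat.ib
    rcases (h.fk.frame F).classify (i := i) (by have := hH.dim; have := hH.hex; omega) hj hat.pt
      hY₁ hY₂ with ⟨v, hv, c, hc⟩ | ⟨M, N, hN, hM, g, hg⟩ | ⟨x, hx, ⟨g₁, e₁⟩, g₂, e₂⟩
    · exact Or.inl (ih l hl _ hP (hat.nx h.fk hv hc))
    · exact Or.inl (h.stepC F ε₁ ε₂ ih hN hM l hl _ hP ⟨hw, hat.inB hg⟩)
    · obtain ⟨τ, hτ⟩ := exists_pointW F.H hx
      have e : ∀ s, (frs Q 0 s (xw F.H r Q i)).map τ = frs Q 0 s x := fun s =>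
        (frs_map τ.toRingHom _).trans (congrArg _ (funext hτ))
      exact Or.inr (hat.thr hψ τ (g₁ := g₁) (by rw [e]; exact e₁) (g₂ := g₂) (by rw [e]; exact e₂))

theorem Ctx.strata (h : Ctx δ η θ X) (hG : Hyp p G r Q κ δ ex η) (j : ℕ) :
    ∀ (σ : Type) [Fintype σ] [DecidableEq σ] (n' i : ℕ) (F : Frm G r σ n'),
      Fintype.card σ + j = m → i + δ = j + 1 → n' = 2 * i + δ + ex → Vy X (InA F.w) := by
  induction j using Nat.strong_induction_on with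
  | h j ih =>
    intro σ _ _ n' i F hm hj hn
    obtain ⟨ε₁⟩ : Nonempty (Fin m ≃ σ ⊕ Fin j) := Fintype.card_eq.1 (by simp [hm])
    obtain ⟨ε₂⟩ : Nonempty (Fin (m + 1) ≃ σ ⊕ Fin (j + 1)) :=
      Fintype.card_eq.1 (by simp; omega)
    have hδ := hG.hδ
    rcases Nat.eq_zero_or_pos i with hi | hi
    · obtain rfl : j = 0 := by omega
      obtain rfl : n' = ex + 1 := by omega
      exact h.stepD F ε₁ ε₂ hG.hex fun hr => by
        have := (h.fk.fm k).one_iff.1 hr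
        omega
    · refine h.stepB F ε₁ ε₂ (hG.frame h.fk.card F hi hn) hj ?_
      rintro l hl P hP ⟨h0, n'', hn'', F', hF'⟩
      exact ih (j - 1) (by omega) _ n'' (i - 1) F' (by simp; omega) (by omega) (by omega) l hl P hP
        hF'

theorem Hyp.tg (hG : Hyp p G r Q κ δ ex η) (hk : Fintype.card k = Q) (hm : κ + δ = m + 1)
    (hθ : Std (hom (yI G r Q m)) (crd (yI G r Q m)) θ) (K : Type) [CommRing K] [Algebra k K]
    [IsNoetherianRing K] : TG k K (hom (yI G r Q m)) (crd (yI G r Q m)) r Q := by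
  intro X hX hE hv l hl M hM
  have hft := hθ.finiteType
  have := noeth_tensor k K (Yr G r Q m)
  obtain ⟨F⟩ := (hG.fk hk).exists_base
  exact (hX.add l hl).of_primes M hM fun P hP _ =>
    Ctx.strata ⟨hG.fk hk, hθ, hX, hE, hv⟩ hG m Empty n κ F (by simp) hm hG.dim l hl P hP
      fun _ a => a.elim

theorem exists_tg_y (q : ℕ) (hκ : 0 < κ) (hk : Fintype.card k = Q) (hG : G.det ≠ 0)
    (h : Unitary G q r Q κ ∧ m = κ ∨
      (Symplectic G q r Q κ ∨ Orthogonal G q r Q κ) ∧ m + 1 = κ) :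
    ∃ θ : Yr G r Q m →ₐ[k] (Yr G r Q m)[T;T⁻¹], Std (hom (yI G r Q m)) (crd (yI G r Q m)) θ ∧
      ∀ (K : Type) [CommRing K] [Algebra k K] [IsNoetherianRing K],
        TG k K (hom (yI G r Q m)) (crd (yI G r Q m)) r Q := by
  have key : ∃ p δ ex η, Hyp p G r Q κ δ ex η ∧ κ + δ = m + 1 := by
    rcases h with ⟨h, hm⟩ | ⟨h | h, hm⟩
    · obtain ⟨p, e, hp, _, he, rfl⟩ := exists_pow_of_card (q := q) (Or.inr (hk.trans h.hQ))
      obtain ⟨ex, H⟩ := hyp_unitary hp he hκ hG h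
      exact ⟨p, 1, ex, 1, H, by omega⟩
    · obtain ⟨p, e, hp, _, he, rfl⟩ := exists_pow_of_card (q := q) (Or.inl (hk.trans h.hQ))
      exact ⟨p, 0, 0, -1, hyp_symplectic hp he hκ hG h, by omega⟩
    · obtain ⟨p, e, hp, _, he, rfl⟩ := exists_pow_of_card (q := q) (Or.inl (hk.trans h.hQ))
      exact ⟨p, 0, 1, 1, hyp_orthogonal hp he hκ hG h, by omega⟩
  obtain ⟨p, δ, ex, η, H, hm⟩ := key
  obtain ⟨θ, hθ⟩ := exists_y_theta (G := G) (m := m) (H.fk hk).fb (fq_of_card hk)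
  exact ⟨θ, hom_std _ θ hθ, H.tg hk hm (hom_std _ θ hθ)⟩

theorem numTors_y (k : Type) [Field k] [Fintype k] (q n κ r Q m : ℕ) (hκ : 0 < κ)
    (hk : Fintype.card k = Q) (G : Matrix (Fin n) (Fin n) k) (hG : G.det ≠ 0)
    (h : Unitary G q r Q κ ∧ m = κ ∨
      (Symplectic G q r Q κ ∨ Orthogonal G q r Q κ) ∧ m + 1 = κ) :
    NumTors k (hom (yI G r Q m)) (crd (yI G r Q m)) := by
  obtain ⟨θ, hθ, hT⟩ := exists_tg_y q hκ hk hG h
  have hft := hθ.finiteType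
  have hn := noeth_tensor k (Yr G r Q m) (Yr G r Q m)
  exact hθ.numTors hT

end Pool.Agent.CXD
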