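import Pool.Agent.P.MP_2ce3e7_ag.CXG

/-! Hermitian forms, frames and projectors. -/

set_option linter.unusedSectionVars false
set_option linter.unusedVariables false

open Matrix

noncomputable section

namespace Pool.Agent.CXD

variable {R R' : Type} [CommRing R] [CommRing R'] {n q i : ℕ} {α β γ σ : Type}

/-- the conjugate transpose -/
def dg (q : ℕ) (M : Matrix α β R) : Matrix β α R := (M.map (· ^ q))ᵀ

/-- the power `q` is a ring homomorphism -/
def Fb (R : Type) [CommRing R] (q : ℕ) : Prop := ∃ F : R →+* R, ∀ t, F t = t ^ q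

/-- an invertible Hermitian matrix -/
structure Her (G : Matrix (Fin n) (Fin n) R) (q : ℕ) : Prop where
  fb : Fb R q
  herm : ∀ a b, G a b = G b a ^ q
  det : IsUnit G.det

/-- a point of the cover of the Coxeter variety -/
structure On (G : Matrix (Fin n) (Fin n) R) (q i : ℕ) (x : Fin n → R) : Prop where
  zero : ∀ j < i, bform G q x (fr (q ^ 2) j x) = 0
  one : bform G q x (fr (q ^ 2) i x) = 1

/-- an isotropic subspace with basis `w`, a dual family `w'`, and a basis `P` of the orthogonal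
complement of both, with Gram matrix `H` -/
structure Frame (G : Matrix (Fin n) (Fin n) R) (q : ℕ) (σ : Type) [Fintype σ] [DecidableEq σ]
    (i : ℕ) where
  w : Matrix σ (Fin n) R
  w' : Matrix σ (Fin n) R
  z : Matrix σ (Fin n) R
  P : Matrix (Fin (2 * i + 1)) (Fin n) R
  H : Matrix (Fin (2 * i + 1)) (Fin (2 * i + 1)) R
  Hi : Matrix (Fin (2 * i + 1)) (Fin (2 * i + 1)) R
  ww : w * G * dg q w = 0
  wP : w * G * dg q P = 0
  Pw : P * G * dg q w = 0
  ww' : w * G * dg q w' = 1
  Pw' : P * G * dg q w' = 0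
  PP : P * G * dg q P = H
  inv : H * Hi = 1
  herm : ∀ a b, H a b = H b a ^ q
  dec : G * dg q w' * w + G * dg q P * Hi * P + G * dg q w * z = 1

theorem fb_of_card {k : Type} [Field k] [Fintype k] (hk : Fintype.card k = q ^ 2) (R : Type)
    [CommRing R] [Algebra k R] : Fb R q := by
  obtain ⟨p, hp, m, hpp, hm⟩ := FiniteField.card' k
  haveI := hp
  have hd : q ∣ p ^ (m : ℕ) := by
    rw [← hm, hk]
    exact Dvd.intro _ (pow_two q).symm
  obtain ⟨e, -, he⟩ := (Nat.dvd_prime_pow hpp).1 hd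
  rcases subsingleton_or_nontrivial R with hR | hR
  · exact ⟨RingHom.id R, fun t => Subsingleton.elim _ _⟩
  · have hc : CharP R p := charP_of_injective_algebraMap (algebraMap k R).injective p
    rw [he]
    exact frob_CXG hpp hc e

theorem Fb.pow (h : Fb R q) (j : ℕ) : Fb R (q ^ j) := by
  obtain ⟨F, hF⟩ := h
  induction j with
  | zero => exact ⟨RingHom.id R, fun t => by simp⟩
  | succ j ih =>
    obtain ⟨F', hF'⟩ := ih
    exact ⟨F.comp F', fun t => by rw [RingHom.comp_apply, hF', hF, ← pow_mul, ← pow_succ]⟩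

theorem dg_map (f : R →+* R') (M : Matrix α β R) : (dg q M).map f = dg q (M.map f) := by
  ext a b
  simp [dg, Matrix.map_apply, Matrix.transpose_apply]

theorem Fb.dg_mul [Fintype β] (h : Fb R q) (M : Matrix α β R) (N : Matrix β γ R) :
    dg q (M * N) = dg q N * dg q M := by
  obtain ⟨F, hF⟩ := h
  have e : (fun t : R => t ^ q) = F := funext fun t => (hF t).symm
  unfold dg
  rw [e, Matrix.map_mul, Matrix.transpose_mul]

theorem Fb.dg_one [DecidableEq α] (h : Fb R q) : dg q (1 : Matrix α α R) = 1 := by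
  obtain ⟨F, hF⟩ := h
  have e : (fun t : R => t ^ q) = F := funext fun t => (hF t).symm
  unfold dg
  rw [e, Matrix.map_one _ (map_zero F) (map_one F), Matrix.transpose_one]

theorem gram_apply (G : Matrix (Fin n) (Fin n) R) (M : Matrix α (Fin n) R) (N : Matrix β (Fin n) R)
    (a : α) (b : β) : (M * G * dg q N) a b = bform G q (M a) (N b) := by
  simp only [Matrix.mul_apply, dg, Matrix.transpose_apply, Matrix.map_apply, bform,
    Finset.sum_mul]
  exact Finset.sum_comm

theorem Fb.bform_sum [Fintype α] (h : Fb R q) (G : Matrix (Fin n) (Fin n) R) (x : Fin n → R)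
    (c : α → R) (y : α → Fin n → R) :
    bform G q x (∑ a, c a • y a) = ∑ a, c a ^ q * bform G q x (y a) := by
  obtain ⟨F, hF⟩ := h
  have e : ∀ b, (∑ a, c a • y a) b ^ q = ∑ a, c a ^ q * y a b ^ q := by
    intro b
    rw [← hF, Finset.sum_apply, map_sum]
    refine Finset.sum_congr rfl fun a _ => ?_
    rw [hF, Pi.smul_apply, smul_eq_mul, mul_pow]
  simp only [bform, e, Finset.mul_sum]
  calc ∑ u, ∑ b, ∑ a, x u * G u b * (c a ^ q * y a b ^ q)
      = ∑ u, ∑ a, ∑ b, x u * G u b * (c a ^ q * y a b ^ q) :=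
        Finset.sum_congr rfl fun a _ => Finset.sum_comm
    _ = ∑ a, ∑ u, ∑ b, x u * G u b * (c a ^ q * y a b ^ q) := Finset.sum_comm
    _ = _ := by
        refine Finset.sum_congr rfl fun i _ => Finset.sum_congr rfl fun a _ =>
          Finset.sum_congr rfl fun b _ => ?_
        ring

theorem bform_sum_left [Fintype α] (G : Matrix (Fin n) (Fin n) R) (c : α → R) (y : α → Fin n → R)
    (x : Fin n → R) : bform G q (∑ a, c a • y a) x = ∑ a, c a * bform G q (y a) x := by
  simp only [bform, Finset.sum_apply, Pi.smul_apply, smul_eq_mul, Finset.sum_mul, Finset.mul_sum]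
  calc ∑ u, ∑ b, ∑ a, c a * y a u * G u b * x b ^ q
      = ∑ u, ∑ a, ∑ b, c a * y a u * G u b * x b ^ q :=
        Finset.sum_congr rfl fun a _ => Finset.sum_comm
    _ = ∑ a, ∑ u, ∑ b, c a * y a u * G u b * x b ^ q := Finset.sum_comm
    _ = _ := by
        refine Finset.sum_congr rfl fun i _ => Finset.sum_congr rfl fun a _ =>
          Finset.sum_congr rfl fun b _ => ?_
        ring

theorem Fb.fr_sum [Fintype α] (h : Fb R q) (j : ℕ) (c : α → R) (y : α → Fin n → R) :
    fr (q ^ 2) j (∑ a, c a • y a) = ∑ a, c a ^ (q ^ 2) ^ j • fr (q ^ 2) j (y a) := by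
  obtain ⟨F, hF⟩ := (h.pow 2).pow j
  funext b
  simp only [fr, Finset.sum_apply, Pi.smul_apply, smul_eq_mul]
  rw [← hF, map_sum]
  refine Finset.sum_congr rfl fun a _ => ?_
  rw [hF, mul_pow]

theorem bform_smul_fr (G : Matrix (Fin n) (Fin n) R) (Q j : ℕ) (c : R) (x : Fin n → R) :
    bform G q (c • x) (fr Q j (c • x)) = c ^ (1 + q * Q ^ j) * bform G q x (fr Q j x) := by
  simp only [bform, fr, Pi.smul_apply, smul_eq_mul, Finset.mul_sum]
  refine Finset.sum_congr rfl fun a _ => Finset.sum_congr rfl fun b _ => ?_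
  rw [mul_pow, mul_pow, ← pow_mul c, mul_comm (Q ^ j) q, pow_add, pow_one]
  ring

variable {G : Matrix (Fin n) (Fin n) R} {x : Fin n → R}

theorem Her.map (h : Her G q) (f : R →+* R') (h' : Fb R' q) : Her (G.map f) q := by
  refine ⟨h', fun a b => ?_, ?_⟩
  · rw [Matrix.map_apply, Matrix.map_apply, ← map_pow, ← h.herm]
  · have := h.det.map f
    rwa [RingHom.map_det] at this

theorem On.map (h : On G q i x) (f : R →+* R') : On (G.map f) q i fun a => f (x a) := by
  refine ⟨fun j hj => ?_, ?_⟩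
  · rw [← map_fr, ← map_bform, h.zero j hj, map_zero]
  · rw [← map_fr, ← map_bform, h.one, map_one]

theorem Her.bform_fr (h : Her G q) (j : ℕ) (x y : Fin n → R) :
    bform G q (fr (q ^ 2) j x) (fr (q ^ 2) j y) = bform G q x y ^ (q ^ 2) ^ j := by
  obtain ⟨F, hF⟩ := (h.fb.pow 2).pow j
  have hfix : ∀ a b (l : ℕ), G a b ^ (q ^ 2) ^ l = G a b := by
    intro a b l
    induction l with
    | zero => simp
    | succ l ih =>
      rw [pow_succ, pow_mul, ih, pow_two, pow_mul, ← h.herm b a, ← h.herm a b]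
  rw [← hF, map_bform]
  congr 1
  · ext a b
    simp only [Matrix.map_apply]
    rw [hF, hfix]
  · funext a; rw [hF]; rfl
  · funext a; rw [hF]; rfl

theorem Her.bform_sym (h : Her G q) (x y : Fin n → R) :
    bform G q (fr (q ^ 2) 1 y) x = bform G q x y ^ q := by
  obtain ⟨F, hF⟩ := h.fb
  rw [← hF (bform G q x y), map_bform]
  simp only [bform, fr, Matrix.map_apply, hF]
  rw [Finset.sum_comm]
  refine Finset.sum_congr rfl fun a _ => Finset.sum_congr rfl fun b _ => ?_
  rw [h.herm b a, pow_one, pow_two, pow_mul]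
  ring

theorem Her.gram_zero (h : Her G q) (hz : ∀ j < i, bform G q x (fr (q ^ 2) j x) = 0) {l m : ℕ}
    (h1 : l < m + 1 + i) (h2 : m < l + i) :
    bform G q (fr (q ^ 2) l x) (fr (q ^ 2) m x) = 0 := by
  have key : ∀ a k, k < i → bform G q (fr (q ^ 2) a x) (fr (q ^ 2) (a + k) x) = 0 := by
    intro a k hk
    obtain ⟨F, hF⟩ := (h.fb.pow 2).pow a
    rw [add_comm a k, ← fr_fr, h.bform_fr, hz k hk, ← hF, map_zero]
  rcases le_or_gt l m with hij | hij
  · obtain ⟨k, rfl⟩ := Nat.exists_eq_add_of_le hij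
    exact key l k (by omega)
  · obtain ⟨k, hk⟩ : ∃ k, l = (m + k) + 1 := ⟨l - m - 1, by omega⟩
    obtain ⟨F, hF⟩ := h.fb
    rw [hk, ← fr_fr, h.bform_sym, key m k (by omega), ← hF, map_zero]

theorem Her.gram_one (h : Her G q) (hx : On G q i x) (l : ℕ) :
    bform G q (fr (q ^ 2) l x) (fr (q ^ 2) (l + i) x) = 1 := by
  rw [add_comm l i, ← fr_fr, h.bform_fr, hx.one, one_pow]

variable [Fintype σ] [DecidableEq σ]

theorem Frame.her (F : Frame G q σ i) (h : Fb R q) : Her F.H q :=
  ⟨h, F.herm, Matrix.isUnit_det_of_right_inverse F.inv⟩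

/-- base change of a frame -/
def Frame.map (F : Frame G q σ i) (f : R →+* R') : Frame (G.map f) q σ i where
  w := F.w.map f
  w' := F.w'.map f
  z := F.z.map f
  P := F.P.map f
  H := F.H.map f
  Hi := F.Hi.map f
  ww := by rw [← dg_map, ← Matrix.map_mul, ← Matrix.map_mul, F.ww, Matrix.map_zero _ (map_zero f)]
  wP := by rw [← dg_map, ← Matrix.map_mul, ← Matrix.map_mul, F.wP, Matrix.map_zero _ (map_zero f)]
  Pw := by rw [← dg_map, ← Matrix.map_mul, ← Matrix.map_mul, F.Pw, Matrix.map_zero _ (map_zero f)]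
  ww' := by
    rw [← dg_map, ← Matrix.map_mul, ← Matrix.map_mul, F.ww',
      Matrix.map_one _ (map_zero f) (map_one f)]
  Pw' := by rw [← dg_map, ← Matrix.map_mul, ← Matrix.map_mul, F.Pw', Matrix.map_zero _ (map_zero f)]
  PP := by rw [← dg_map, ← Matrix.map_mul, ← Matrix.map_mul, F.PP]
  inv := by rw [← Matrix.map_mul, F.inv, Matrix.map_one _ (map_zero f) (map_one f)]
  herm := fun a b => by
    rw [Matrix.map_apply, Matrix.map_apply, ← map_pow, ← F.herm]
  dec := by
    simp only [← dg_map, ← Matrix.map_mul, ← Matrix.map_add _ (map_add f)]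
    rw [F.dec, Matrix.map_one _ (map_zero f) (map_one f)]

end Pool.Agent.CXD
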