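import Pool.Agent.P.MP_2ce3e7_ag.CWN2
import Pool.Agent.P.MP_2ce3e7_ag.CZA

/-! The homogeneous coordinate ring of the variety of isotropic subspaces. -/

set_option linter.unusedSectionVars false
set_option linter.unusedVariables false

open Matrix LaurentPolynomial

noncomputable section

namespace Pool.Agent.CXD

variable {R R' : Type} [CommRing R] [CommRing R'] {n q d : ℕ}

/-- the maximal minors -/
def plu (u : Matrix (Fin d) (Fin n) R) (I : Fin d → Fin n) : R := (u.submatrix id I).det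

theorem map_plu (f : R →+* R') (u : Matrix (Fin d) (Fin n) R) (I : Fin d → Fin n) :
    f (plu u I) = plu (u.map f) I := by
  unfold plu
  rw [RingHom.map_det]
  rfl

theorem plu_mul (g : Matrix (Fin d) (Fin d) R) (u : Matrix (Fin d) (Fin n) R) (I : Fin d → Fin n) :
    plu (g * u) I = g.det * plu u I := by
  unfold plu
  rw [← Matrix.det_mul]
  rfl

theorem exists_plu_one {u : Matrix (Fin d) (Fin n) R} {Y : Matrix (Fin n) (Fin d) R}
    (h : u * Y = 1) : ∃ a : (Fin d → Fin n) → R, ∑ I, a I * plu u I = 1 := by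
  refine ⟨fun I => ∏ b, Y (I b) b, ?_⟩
  have e : (u * Y).det = ∑ I : Fin d → Fin n, (∏ b, Y (I b) b) * plu u I := by
    simp only [plu, det_apply', mul_apply, Finset.prod_univ_sum, Finset.mul_sum,
      Fintype.piFinset_univ]
    rw [Finset.sum_comm]
    refine Finset.sum_congr rfl fun I _ => Finset.sum_congr rfl fun σ _ => ?_
    simp only [submatrix_apply, id, Finset.prod_mul_distrib]
    ring
  rw [← e, h, det_one]

variable {k : Type} [Field k] (G : Matrix (Fin n) (Fin n) k)

/-- the coordinate ring -/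
abbrev Pl (G : Matrix (Fin n) (Fin n) k) (q d : ℕ) : Type :=
  MvPolynomial (Fin d → Fin n) k ⧸ plI G q d

/-- the ring of the generic isotropic matrix -/
abbrev Iu (G : Matrix (Fin n) (Fin n) k) (q d : ℕ) : Type :=
  MvPolynomial (Fin d × Fin n) k ⧸ isoI G q d

/-- the generic isotropic matrix -/
def uU (q d : ℕ) : Matrix (Fin d) (Fin n) (Iu G q d) :=
  Matrix.of fun a b => Ideal.Quotient.mk _ (MvPolynomial.X (a, b))

theorem uU_iso : uU G q d * G.map (algebraMap k (Iu G q d)) * dg q (uU G q d) = 0 := by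
  ext a b
  have e : (uU G q d * G.map (algebraMap k (Iu G q d)) * dg q (uU G q d)) a b =
      Ideal.Quotient.mk (isoI G q d) (∑ r, ∑ s, MvPolynomial.X (a, r) * MvPolynomial.C (G r s) *
        MvPolynomial.X (b, s) ^ q) := by
    simp only [mul_apply, dg, uU, map_apply, transpose_apply, of_apply, Finset.sum_mul, map_sum,
      map_mul, map_pow]
    rw [Finset.sum_comm]
    rfl
  rw [e, Matrix.zero_apply, Ideal.Quotient.eq_zero_iff_mem]
  exact Ideal.subset_span ⟨a, b, rfl⟩

theorem exists_pl_inj : ∃ β : Pl G q d →ₐ[k] Iu G q d, Function.Injective β ∧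
    ∀ I, β (crd (plI G q d) I) = plu (uU G q d) I := by
  refine ⟨Ideal.quotientMapₐ (isoI G q d) (MvPolynomial.aeval (R := k) fun I : Fin d → Fin n =>
    (Matrix.of fun a b : Fin d =>
      (MvPolynomial.X (a, I b) : MvPolynomial (Fin d × Fin n) k)).det) le_rfl,
    Ideal.quotientMap_injective, fun I => ?_⟩
  unfold crd
  rw [Ideal.quotient_map_mkₐ, MvPolynomial.aeval_X, Ideal.Quotient.mkₐ_eq_mk, RingHom.map_det]
  rfl

variable {G} [Algebra k R]

theorem exists_pl_lift {u : Matrix (Fin d) (Fin n) R}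
    (h : u * G.map (algebraMap k R) * dg q u = 0) :
    ∃ α : Pl G q d →ₐ[k] R, ∀ I, α (crd (plI G q d) I) = plu u I := by
  obtain ⟨β, -, hβ⟩ := exists_pl_inj (q := q) (d := d) G
  have hz : ∀ a ∈ isoI G q d,
      MvPolynomial.aeval (R := k) (fun x : Fin d × Fin n => u x.1 x.2) a = 0 := by
    intro a ha
    have hle : isoI G q d ≤ RingHom.ker
        (MvPolynomial.aeval (R := k) (fun x : Fin d × Fin n => u x.1 x.2)) := by
      rw [isoI, Ideal.span_le]
      rintro y ⟨a, b, rfl⟩
      have e := congrFun (congrFun h a) b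
      simp only [mul_apply, dg, map_apply, transpose_apply, Finset.sum_mul,
        Matrix.zero_apply] at e
      rw [Finset.sum_comm] at e
      simpa [RingHom.mem_ker] using e
    exact hle ha
  let γ : Iu G q d →ₐ[k] R := Ideal.Quotient.liftₐ _ _ hz
  refine ⟨γ.comp β, fun I => ?_⟩
  rw [AlgHom.comp_apply, hβ]
  refine (map_plu γ.toRingHom _ I).trans ?_
  congr 1
  ext a b
  simp [uU, γ]

theorem iso_scale_CV0 (hF : Fb R[T;T⁻¹] q) (hd : 0 < d) {u : Matrix (Fin d) (Fin n) R}
    (h : u * G.map (algebraMap k R) * dg q u = 0) :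
    ∃ u' : Matrix (Fin d) (Fin n) R[T;T⁻¹], u' * G.map (algebraMap k R[T;T⁻¹]) * dg q u' = 0 ∧
      ∀ I, plu u' I = C (plu u I) * T 1 := by
  let c : R →+* R[T;T⁻¹] := C
  let g : Matrix (Fin d) (Fin d) R[T;T⁻¹] := diagonal (Function.update 1 ⟨0, hd⟩ (T 1))
  have hg : g.det = T 1 := by
    rw [det_diagonal, Finset.prod_update_of_mem (Finset.mem_univ _)]
    simp
  have hu : u.map c * G.map (algebraMap k R[T;T⁻¹]) * dg q (u.map c) = 0 := by
    have e := congrArg (fun M => Matrix.map M c) h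
    simp only [Matrix.map_mul, Matrix.map_map] at e
    rw [Matrix.map_zero _ (map_zero _), dg_map] at e
    exact e
  refine ⟨g * u.map c, ?_, fun I => ?_⟩
  · rw [hF.dg_mul, Matrix.mul_assoc g, Matrix.mul_assoc g,
      ← Matrix.mul_assoc _ (dg q (u.map c)), hu, Matrix.zero_mul, Matrix.mul_zero]
  · rw [plu_mul, hg, mul_comm, ← map_plu]

theorem theta_CV0 {σ A : Type} [CommRing A] [Algebra k A] (z : σ → A) (β : A →ₐ[k] R)
    (hinj : Function.Injective β) (α : A →ₐ[k] R[T;T⁻¹])
    (hα : ∀ i, α (z i) = C (β (z i)) * T 1) (a : MvPolynomial σ k)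
    (ha : MvPolynomial.aeval z a = 0) :
    MvPolynomial.aeval (R := k) (fun i => (C (z i) * T 1 : A[T;T⁻¹])) a = 0 := by
  let β' : A[T;T⁻¹] →ₐ[k] R[T;T⁻¹] := AddMonoidAlgebra.mapAlgHom ℤ β
  have hβ' : Function.Injective β' := by
    intro x y hxy
    ext i
    apply hinj
    have e := congrArg (fun z : R[T;T⁻¹] => z.coeff i) hxy
    simpa [β'] using e
  have hc : β'.comp (MvPolynomial.aeval fun i => (C (z i) * T 1 : A[T;T⁻¹])) =
      α.comp (MvPolynomial.aeval z) := by
    refine MvPolynomial.algHom_ext fun i => ?_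
    rw [AlgHom.comp_apply, AlgHom.comp_apply, MvPolynomial.aeval_X, MvPolynomial.aeval_X, hα]
    exact map_C_mul_T β.toRingHom _ 1
  apply hβ'
  have e := DFunLike.congr_fun hc a
  rw [AlgHom.comp_apply, AlgHom.comp_apply, ha, map_zero] at e
  rw [e, map_zero]

theorem exists_pl_theta [Fintype k] (hk : Fintype.card k = q ^ 2) (hd : 0 < d) :
    ∃ θ : Pl G q d →ₐ[k] (Pl G q d)[T;T⁻¹], ∀ I,
      θ (crd (plI G q d) I) = C (crd (plI G q d) I) * T 1 := by
  obtain ⟨β, hinj, hβ⟩ := exists_pl_inj (q := q) (d := d) G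
  obtain ⟨u, hu, hp⟩ := iso_scale_CV0 (fb_of_card hk _) hd (uU_iso (q := q) (d := d) G)
  obtain ⟨α, hα⟩ := exists_pl_lift hu
  have hz : ∀ a ∈ plI G q d, MvPolynomial.aeval (R := k)
      (fun I => (C (crd (plI G q d) I) * T 1 : (Pl G q d)[T;T⁻¹])) a = 0 := by
    intro a ha
    refine theta_CV0 (crd (plI G q d)) β hinj α (fun I => by rw [hα, hp, hβ]) a ?_
    have e : MvPolynomial.aeval (crd (plI G q d)) = Ideal.Quotient.mkₐ k (plI G q d) :=
      MvPolynomial.algHom_ext fun I => by rw [MvPolynomial.aeval_X]; rfl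
    rw [e]
    exact Ideal.Quotient.eq_zero_iff_mem.2 ha
  refine ⟨Ideal.Quotient.liftₐ _ _ hz, fun I => ?_⟩
  exact MvPolynomial.aeval_X _ I

end Pool.Agent.CXD
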