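import Pool.Agent.P.MP_2ce3e7_ag.CZS

/-! The rank of a projector. -/

set_option linter.unusedSectionVars false
set_option linter.unusedVariables false

open Matrix

noncomputable section

namespace Pool.Agent.CXD

variable {R : Type} [CommRing R] {n q d : ℕ}

theorem charpoly_of_factor {ι : Type} [Fintype ι] [DecidableEq ι] (Y : Matrix (Fin n) ι R)
    (X : Matrix ι (Fin n) R) (h : X * Y = 1) (hd : Fintype.card ι = d) (hn : d ≤ n) :
    (Y * X).charpoly = Polynomial.X ^ (n - d) * (Polynomial.X - 1) ^ d := by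
  rw [Matrix.charpoly_mul_comm_of_le Y X (by simpa [hd] using hn), h, Matrix.charpoly_one, hd,
    Fintype.card_fin]

theorem factor_CZS2 {L : Type} [Field L] {e : Matrix (Fin n) (Fin n) L} (h : e * e = e) :
    ∃ (Y : Matrix (Fin n) (Fin e.rank) L) (X : Matrix (Fin e.rank) (Fin n) L),
      X * Y = 1 ∧ Y * X = e := by
  let W := LinearMap.range e.mulVecLin
  let b : Module.Basis (Fin e.rank) L W := Module.finBasisOfFinrankEq L W rfl
  let c := Pi.basisFun L (Fin n)
  refine ⟨LinearMap.toMatrix b c W.subtype, LinearMap.toMatrix c b e.mulVecLin.rangeRestrict,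
    ?_, ?_⟩
  · rw [← LinearMap.toMatrix_comp, ← LinearMap.toMatrix_id b]
    congr 1
    refine LinearMap.ext fun x => Subtype.ext ?_
    obtain ⟨x, y, rfl⟩ := x
    simp [Matrix.mulVec_mulVec, h]
  · rw [← LinearMap.toMatrix_comp]
    have : W.subtype ∘ₗ e.mulVecLin.rangeRestrict = Matrix.toLin c c e := by
      refine LinearMap.ext fun x => ?_
      simp [c, Matrix.toLin_eq_toLin']
    rw [this, LinearMap.toMatrix_toLin]

theorem mult_CZS2 {L : Type} [Field L] (a r : ℕ) :
    Polynomial.rootMultiplicity (1 : L) (Polynomial.X ^ a * (Polynomial.X - 1) ^ r) = r := by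
  have h1 : (Polynomial.X - 1 : Polynomial L) = Polynomial.X - Polynomial.C 1 := by simp
  have h2 : (Polynomial.X ^ a * (Polynomial.X - Polynomial.C 1) ^ r : Polynomial L) ≠ 0 :=
    mul_ne_zero (pow_ne_zero _ Polynomial.X_ne_zero) (pow_ne_zero _ (Polynomial.X_sub_C_ne_zero 1))
  rw [h1, Polynomial.rootMultiplicity_mul h2, Polynomial.rootMultiplicity_X_sub_C_pow,
    Polynomial.rootMultiplicity_eq_zero (by simp [Polynomial.IsRoot]), zero_add]

theorem Sv.rank {L : Type} [Field L] {G e m : Matrix (Fin n) (Fin n) L} (h : Sv G q d e m) :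
    e.rank = d := by
  obtain ⟨Y, X, h1, h2⟩ := factor_CZS2 h.idem
  have h3 := charpoly_of_factor (d := e.rank) Y X h1 (Fintype.card_fin _)
    (by simpa using Matrix.rank_le_card_width e)
  rw [h2, h.chp] at h3
  have h4 := congrArg (Polynomial.rootMultiplicity (1 : L)) h3
  rw [mult_CZS2, mult_CZS2] at h4
  exact h4.symm

end Pool.Agent.CXD
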