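import Pool.Agent.P.MP_2ce3e7_ag.CV0
import Pool.Agent.P.MP_2ce3e7_ag.CZS2

/-! Identities between the maximal minors. -/

set_option linter.unusedSectionVars false
set_option linter.unusedVariables false

open Matrix

noncomputable section

namespace Pool.Agent.CXD

variable {R R' : Type} [CommRing R] [CommRing R'] {n q d : ℕ} {α : Type}

/-- a matrix with the same row space -/
def em (z : (Fin d → Fin n) → R) (I : Fin d → Fin n) : Matrix (Fin d) (Fin n) R :=
  Matrix.of fun a b => z (Function.update I a b)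

/-- the identities -/
structure Pk (G : Matrix (Fin n) (Fin n) R) (q : ℕ) (z : (Fin d → Fin n) → R) : Prop where
  iso : ∀ I, em z I * G * dg q (em z I) = 0
  det : ∀ I J, plu (em z I) J = z I ^ (d - 1) * z J
  diag : ∀ I, (em z I).submatrix id I = z I • (1 : Matrix (Fin d) (Fin d) R)
  exch : ∀ I J, (em z I).submatrix id J * em z J = z J • em z I

/-- the rows of `w` lie in the subspace -/
def inM (z : (Fin d → Fin n) → R) (w : Matrix α (Fin n) R) (I : Fin d → Fin n) :
    Matrix α (Fin n) R := w.submatrix id I * em z I - z I • w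

variable {G : Matrix (Fin n) (Fin n) R} {z : (Fin d → Fin n) → R}

theorem em_plu (u : Matrix (Fin d) (Fin n) R) (I : Fin d → Fin n) :
    em (plu u) I = (u.submatrix id I).adjugate * u := by
  ext a b
  have h1 : ((u.submatrix id I).adjugate * u) a b =
      ((u.submatrix id I).adjugate *ᵥ fun r => u r b) a := rfl
  rw [h1, ← Matrix.cramer_eq_adjugate_mulVec, Matrix.cramer_apply]
  change (u.submatrix id (Function.update I a b)).det = _
  congr 1
  ext r s
  rw [Matrix.updateCol_apply, Matrix.submatrix_apply, Matrix.submatrix_apply, Function.update_apply]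
  split_ifs <;> rfl

theorem sub_mul_CV1 {β : Type} [Fintype β] (c : Matrix α β R) (u : Matrix β (Fin n) R)
    (I : Fin d → Fin n) : (c * u).submatrix id I = c * u.submatrix id I := rfl

theorem em_map (f : R →+* R') (I : Fin d → Fin n) : (em z I).map f = em (fun J => f (z J)) I := rfl

theorem inM_map (f : R →+* R') (w : Matrix α (Fin n) R) (I : Fin d → Fin n) :
    (inM z w I).map f = inM (fun J => f (z J)) (w.map f) I := by
  ext a b
  simp only [inM, Matrix.map_apply, Matrix.sub_apply, Matrix.mul_apply, Matrix.smul_apply,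
    smul_eq_mul, map_sub, map_sum, map_mul, Matrix.submatrix_apply, em, Matrix.of_apply]

theorem inM_mul (t : R) (u : Matrix (Fin d) (Fin n) R) (c : Matrix α (Fin d) R)
    (I : Fin d → Fin n) : inM (fun J => plu u J * t) (c * u) I = 0 := by
  have h1 : em (fun J => plu u J * t) I = t • em (plu u) I := by
    ext a b
    simp only [em, Matrix.of_apply, Matrix.smul_apply, smul_eq_mul, mul_comm]
  rw [inM, h1, em_plu, sub_mul_CV1, Matrix.mul_smul, Matrix.mul_assoc, ← Matrix.mul_assoc _ _ u,
    Matrix.mul_adjugate, Matrix.smul_mul, Matrix.one_mul, Matrix.mul_smul, smul_smul, mul_comm t]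
  exact sub_self _

theorem pk_plu (h : Fb R q) {u : Matrix (Fin d) (Fin n) R} (hu : u * G * dg q u = 0) :
    Pk G q (plu u) := by
  refine ⟨fun I => ?_, fun I J => ?_, fun I => ?_, fun I J => ?_⟩
  · rw [em_plu, h.dg_mul]
    calc (u.submatrix id I).adjugate * u * G * (dg q u * dg q (u.submatrix id I).adjugate)
        = (u.submatrix id I).adjugate * (u * G * dg q u) * dg q (u.submatrix id I).adjugate := by
          simp only [Matrix.mul_assoc]
      _ = 0 := by rw [hu, Matrix.mul_zero, Matrix.zero_mul]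
  · rw [em_plu, plu_mul, Matrix.det_adjugate, Fintype.card_fin]
    rfl
  · rw [em_plu, sub_mul_CV1, Matrix.adjugate_mul]
    rfl
  · rw [em_plu, em_plu, sub_mul_CV1, Matrix.mul_assoc, ← Matrix.mul_assoc _ _ u,
      Matrix.mul_adjugate, Matrix.smul_mul, Matrix.one_mul, Matrix.mul_smul]
    rfl

theorem m1_CV1 (f : R →+* R') (I : Fin d → Fin n) :
    (em z I * G * dg q (em z I)).map f =
      em (fun J => f (z J)) I * G.map f * dg q (em (fun J => f (z J)) I) := by
  rw [Matrix.map_mul, Matrix.map_mul, dg_map, em_map]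

theorem m2_CV1 (f : R →+* R') {β γ : Type} (t : R) (M : Matrix β γ R) :
    (t • M).map f = f t • M.map f := by
  ext a b
  simp only [Matrix.map_apply, Matrix.smul_apply, smul_eq_mul, map_mul]

theorem m3_CV1 (f : R →+* R') (I J : Fin d → Fin n) :
    ((em z I).submatrix id J).map f = (em (fun J => f (z J)) I).submatrix id J := rfl

theorem Pk.map (h : Pk G q z) (f : R →+* R') : Pk (G.map f) q fun J => f (z J) := by
  refine ⟨fun I => ?_, fun I J => ?_, fun I => ?_, fun I J => ?_⟩
  · rw [← m1_CV1, h.iso, Matrix.map_zero _ (map_zero f)]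
  · rw [← em_map, ← map_plu, h.det, map_mul, map_pow]
  · rw [← m3_CV1, h.diag, m2_CV1, Matrix.map_one _ (map_zero f) (map_one f)]
  · rw [← m3_CV1, ← em_map, ← Matrix.map_mul, h.exch, m2_CV1, em_map]

theorem Pk.of_map (f : R →+* R') (hf : Function.Injective f)
    (h : Pk (G.map f) q fun J => f (z J)) : Pk G q z := by
  refine ⟨fun I => Matrix.map_injective hf ?_, fun I J => hf ?_,
    fun I => Matrix.map_injective hf ?_, fun I J => Matrix.map_injective hf ?_⟩
  · change (em z I * G * dg q (em z I)).map f = (0 : Matrix (Fin d) (Fin d) R).map f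
    rw [m1_CV1, h.iso, Matrix.map_zero _ (map_zero f)]
  · rw [map_plu, em_map, h.det, map_mul, map_pow]
  · change ((em z I).submatrix id I).map f = (z I • (1 : Matrix (Fin d) (Fin d) R)).map f
    rw [m3_CV1, h.diag, m2_CV1, Matrix.map_one _ (map_zero f) (map_one f)]
  · change ((em z I).submatrix id J * em z J).map f = (z J • em z I).map f
    rw [Matrix.map_mul, m3_CV1, em_map, h.exch, m2_CV1, em_map]

theorem pk_crd {k : Type} [Field k] [Fintype k] (hk : Fintype.card k = q ^ 2)
    (G : Matrix (Fin n) (Fin n) k) :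
    Pk (G.map (algebraMap k (Pl G q d))) q (crd (plI G q d)) := by
  obtain ⟨β, hβ, hc⟩ := exists_pl_inj (q := q) (d := d) G
  refine Pk.of_map β.toRingHom hβ ?_
  have h1 : (G.map (algebraMap k (Pl G q d))).map β.toRingHom =
      G.map (algebraMap k (Iu G q d)) := by
    ext a b
    exact β.commutes (G a b)
  have h2 : (fun J => β.toRingHom (crd (plI G q d) J)) = plu (uU G q d) := funext hc
  rw [h1, h2]
  exact pk_plu (fb_of_card hk _) (uU_iso G)

/-- the projector of a chart -/
theorem Pk.exists_proj (h : Pk G q z) (hq : Fb R q) (hn : d ≤ n) {I : Fin d → Fin n}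
    (hI : IsUnit (z I)) : ∃ Y : Matrix (Fin n) (Fin d) R, em z I * Y = 1 ∧
      Sv G q d (Y * em z I) 0 ∧ ∀ {α : Type} (w : Matrix α (Fin n) R),
        (inM z w I = 0 → w * (Y * em z I) = w) ∧ (w * (Y * em z I) = w → ∀ J, inM z w J = 0) := by
  obtain ⟨s, hs⟩ := hI.exists_left_inv
  let Y : Matrix (Fin n) (Fin d) R := s • (1 : Matrix (Fin n) (Fin n) R).submatrix id I
  have hY : ∀ {α : Type} (w : Matrix α (Fin n) R), w * Y = s • w.submatrix id I := by
    intro α w
    rw [Matrix.mul_smul, ← sub_mul_CV1, Matrix.mul_one]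
  have h1 : em z I * Y = 1 := by
    rw [hY, h.diag, smul_smul, hs, one_smul]
  refine ⟨Y, h1, ⟨?_, charpoly_of_factor Y _ h1 (Fintype.card_fin d) hn, ?_, ?_⟩,
    fun w => ⟨fun hw => ?_, fun hw J => ?_⟩⟩
  · rw [Matrix.mul_assoc, ← Matrix.mul_assoc (em z I), h1, Matrix.one_mul]
  · rw [hq.dg_mul]
    calc Y * em z I * G * (dg q (em z I) * dg q Y)
        = Y * (em z I * G * dg q (em z I)) * dg q Y := by simp only [Matrix.mul_assoc]
      _ = 0 := by rw [h.iso, Matrix.mul_zero, Matrix.zero_mul]
  · rw [Matrix.mul_zero, Matrix.zero_mul]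
  · rw [inM, sub_eq_zero] at hw
    rw [← Matrix.mul_assoc, hY, Matrix.smul_mul, hw, smul_smul, hs, one_smul]
  · rw [← Matrix.mul_assoc] at hw
    have h2 : w.submatrix id J = w * Y * (em z I).submatrix id J := by
      rw [← sub_mul_CV1, hw]
    rw [inM, h2, Matrix.mul_assoc, h.exch, Matrix.mul_smul, hw, sub_self]

end Pool.Agent.CXD
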