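import Pool.Agent.P.MP_2ce3e7_ag.CZG2

/-! Isotropic subspaces without stable subspaces. -/

set_option linter.unusedSectionVars false
set_option linter.unusedVariables false

open Matrix Module

noncomputable section

namespace Pool.Agent.CXD

variable {L : Type} [Field L] {q i : ℕ} {H : Matrix (Fin (2 * i + 1)) (Fin (2 * i + 1)) L}

theorem q_ne_CZG3 (h : Fb L q) : q ≠ 0 := by
  obtain ⟨F, hF⟩ := h
  rintro rfl
  have := hF 0
  rw [map_zero, pow_zero] at this
  exact zero_ne_one this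

theorem iso_le_CZG3 [IsAlgClosed L] (h : Her H q) (T : Submodule L (Fin (2 * i + 1) → L))
    (iso : ∀ u ∈ T, ∀ v ∈ T, bform H q u v = 0) : finrank L T ≤ i := by
  obtain ⟨W, hW, hc⟩ := h.exists_perp T
  have h1 : T ≤ W := fun u hu => (hW u).2 (iso u hu)
  have h2 := Submodule.finrank_mono h1
  omega

theorem exists_vec_CZG3 [IsAlgClosed L] (h : Her H q) (U : Submodule L (Fin (2 * i + 1) → L))
    (iso : ∀ u ∈ U, ∀ v ∈ U, bform H q u v = 0) (hd : finrank L U = i) :
    ∃ x : Fin (2 * i + 1) → L, x ≠ 0 ∧ ∀ l < i, fr (q ^ 2) l x ∈ U := by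
  rcases Nat.eq_zero_or_pos i with h0 | h0
  · refine ⟨fun _ => 1, fun e => ?_, fun l hl => by omega⟩
    exact one_ne_zero (congrFun e ⟨0, by omega⟩)
  have hq := q_ne_CZG3 h.fb
  have hQ := h.fb.pow 2
  obtain ⟨Φ, hΦ, hr⟩ := hQ.exists_sub (2 * i + 1)
  obtain ⟨W, hW, hc⟩ := h.exists_perp U
  have h1 : U ≤ W := fun u hu => (hW u).2 (iso u hu)
  have h2 : Φ U ≤ W := by
    intro v hv
    obtain ⟨u, rfl⟩ := (hQ.fr_bij 1).2 v
    refine (hW _).2 fun w hw => ?_
    rw [h.bform_sym, iso w hw u ((hΦ U u).1 hv), zero_pow hq]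
  have h4 : U ≠ ⊥ := by
    rintro rfl
    rw [finrank_bot] at hd
    omega
  obtain ⟨y, hy0, hy⟩ := exists_line Φ hr h1 h2 (by omega) h4
  have h5 : ∀ (l : ℕ) (v : Fin (2 * i + 1) → L), fr (q ^ 2) l v ∈ (Φ^[l]) U ↔ v ∈ U := by
    intro l
    induction l with
    | zero => intro v; rw [fr_zero]; rfl
    | succ l ih =>
      intro v
      rw [Function.iterate_succ_apply', ← fr_fr 1 l v, hΦ, ih]
  obtain ⟨x, rfl⟩ := (hQ.fr_bij (i - 1)).2 y
  refine ⟨x, ?_, fun l hl => ?_⟩
  · rintro rfl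
    apply hy0
    funext a
    exact zero_pow (pow_ne_zero _ (pow_ne_zero _ hq))
  · refine (h5 (i - 1 - l) _).1 ?_
    rw [fr_fr, show l + (i - 1 - l) = i - 1 by omega]
    exact hy _ (by omega)

theorem exists_on [IsAlgClosed L] (h : Her H q) (U : Submodule L (Fin (2 * i + 1) → L))
    (iso : ∀ u ∈ U, ∀ v ∈ U, bform H q u v = 0) (hd : i ≤ finrank L U)
    (hst : ∀ T ≤ U, (∀ v ∈ T, fr (q ^ 2) 1 v ∈ T) → T = ⊥) :
    ∃ x, On H q i x ∧ U = Submodule.span L (Set.range fun l : Fin i => fr (q ^ 2) l x) := by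
  have hU : finrank L U = i := le_antisymm (iso_le_CZG3 h U iso) hd
  obtain ⟨x, hx0, hx⟩ := exists_vec_CZG3 h U iso hU
  set T : ℕ → Submodule L (Fin (2 * i + 1) → L) :=
    fun m => Submodule.span L (Set.range fun l : Fin m => fr (q ^ 2) l x) with hT
  have mem : ∀ m l, l < m → fr (q ^ 2) l x ∈ T m := fun m l hl =>
    Submodule.subset_span ⟨⟨l, hl⟩, rfl⟩
  have le : ∀ m (S : Submodule L (Fin (2 * i + 1) → L)), (∀ l < m, fr (q ^ 2) l x ∈ S) →
      T m ≤ S := by
    intro m S hS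
    refine Submodule.span_le.2 ?_
    rintro _ ⟨l, rfl⟩
    exact hS l l.2
  have new : ∀ m ≤ i, fr (q ^ 2) m x ∉ T m := by
    intro m hm hc
    have h1 : T m = ⊥ := by
      refine hst _ (le m U fun l hl => hx l (by omega)) fun v hv => ?_
      obtain ⟨c, rfl⟩ := (Submodule.mem_span_range_iff_exists_fun L).1 hv
      rw [h.fb.fr_sum]
      refine Submodule.sum_mem _ fun l _ => Submodule.smul_mem _ _ ?_
      rw [fr_fr]
      rcases Nat.lt_or_ge (l + 1) m with h2 | h2
      · exact mem _ _ h2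
      · have h3 : (l : ℕ) + 1 = m := by have := l.2; omega
        rw [h3]; exact hc
    apply hx0
    rcases Nat.eq_zero_or_pos m with h2 | h2
    · subst h2
      rw [h1, fr_zero] at hc
      exact hc
    · have h3 := mem m 0 h2
      rw [h1, fr_zero] at h3
      exact h3
  have dim : ∀ m ≤ i + 1, m ≤ finrank L (T m) := by
    intro m
    induction m with
    | zero => intro _; exact Nat.zero_le _
    | succ m ih =>
      intro hm
      have h1 : T m < T (m + 1) := by
        refine lt_of_le_of_ne (le m _ fun l hl => mem _ _ (by omega)) fun e => new m (by omega) ?_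
        rw [e]; exact mem _ _ (by omega)
      have h2 := Submodule.finrank_lt_finrank_of_lt h1
      have h3 := ih (by omega)
      omega
  have hTU : T i = U :=
    Submodule.eq_of_le_of_finrank_le (le i U hx) (by rw [hU]; exact dim i (by omega))
  have hz : ∀ j < i, bform H q x (fr (q ^ 2) j x) = 0 := by
    intro j hj
    have h1 := hx 0 (by omega)
    rw [fr_zero] at h1
    exact iso _ h1 _ (hx j hj)
  have hb : bform H q x (fr (q ^ 2) i x) ≠ 0 := by
    intro h0
    have h1 : ∀ j < i + 1, bform H q x (fr (q ^ 2) j x) = 0 := by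
      intro j hj
      rcases Nat.lt_or_ge j i with h2 | h2
      · exact hz j h2
      · rw [show j = i by omega]; exact h0
    have h2 := iso_le_CZG3 h (T (i + 1)) (by
      intro u hu v hv
      obtain ⟨c, rfl⟩ := (Submodule.mem_span_range_iff_exists_fun L).1 hu
      obtain ⟨d, rfl⟩ := (Submodule.mem_span_range_iff_exists_fun L).1 hv
      rw [bform_sum_left]
      refine Finset.sum_eq_zero fun l _ => ?_
      rw [h.fb.bform_sum, Finset.sum_eq_zero, mul_zero]
      intro m _
      rw [h.gram_zero h1 (by have := l.2; omega) (by have := m.2; omega), mul_zero])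
    have h3 := dim (i + 1) le_rfl
    omega
  obtain ⟨t, ht⟩ := IsAlgClosed.exists_pow_nat_eq (bform H q x (fr (q ^ 2) i x))⁻¹
    (n := 1 + q * (q ^ 2) ^ i) (by omega)
  have ht0 : t ≠ 0 := by
    rintro rfl
    rw [zero_pow (by omega)] at ht
    exact inv_ne_zero hb ht.symm
  have hs : ∀ l, fr (q ^ 2) l (t • x) = t ^ (q ^ 2) ^ l • fr (q ^ 2) l x := by
    intro l
    funext a
    simp only [fr, Pi.smul_apply, smul_eq_mul, mul_pow]
  refine ⟨t • x, ⟨fun j hj => ?_, ?_⟩, ?_⟩
  · rw [bform_smul_fr, hz j hj, mul_zero]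
  · rw [bform_smul_fr, ht, inv_mul_cancel₀ hb]
  · rw [← hTU]
    refine le_antisymm (le i _ fun l hl => ?_) (Submodule.span_le.2 ?_)
    · have h1 : fr (q ^ 2) l (t • x) ∈
          Submodule.span L (Set.range fun l : Fin i => fr (q ^ 2) l (t • x)) :=
        Submodule.subset_span ⟨⟨l, hl⟩, rfl⟩
      have h2 := Submodule.smul_mem _ (t ^ (q ^ 2) ^ l)⁻¹ h1
      rwa [hs l, smul_smul, inv_mul_cancel₀ (pow_ne_zero _ ht0), one_smul] at h2
    · rintro _ ⟨l, rfl⟩
      show fr (q ^ 2) l (t • x) ∈ T i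
      rw [hs]
      exact Submodule.smul_mem _ _ (mem _ _ l.2)

end Pool.Agent.CXD
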