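import Pool.Agent.P.MP_2ce3e7_ag.CZB2
import Pool.Agent.P.MP_2ce3e7_ag.CZG3

/-! The alternative over a field. -/

set_option linter.unusedSectionVars false
set_option linter.unusedVariables false

open Matrix

noncomputable section

namespace Pool.Agent.CXD

variable {k : Type} [Field k] [Fintype k] {n q i d : ℕ} {σ : Type} [Fintype σ] [DecidableEq σ]

theorem rank_add_le_CZD2 {L : Type} [Field L] (A B : Matrix (Fin n) (Fin n) L) :
    (A + B).rank ≤ A.rank + B.rank := by
  unfold Matrix.rank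
  rw [Matrix.mulVecLin_add]
  refine le_trans (Submodule.finrank_mono ?_)
    (Submodule.finrank_add_le_finrank_add_finrank _ _)
  rintro _ ⟨x, rfl⟩
  exact Submodule.add_mem_sup ⟨x, rfl⟩ ⟨x, rfl⟩

/-- either a new rational vector, or a point of the Coxeter variety -/
theorem Frame.field_cases {L : Type} [Field L] [IsAlgClosed L] [Algebra k L]
    (hk : Fintype.card k = q ^ 2) {G : Matrix (Fin n) (Fin n) L} (F : Frame G q σ i)
    (hd : Fintype.card σ + i = d) {e m : Matrix (Fin n) (Fin n) L} (he : Sv G q d e m)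
    (hw : F.w * e = F.w) :
    (∃ v : Fin (2 * i + 1) → k, v ≠ 0 ∧
      bform F.H q (fun a => algebraMap k L (v a)) (fun a => algebraMap k L (v a)) = 0 ∧
      ((fun a => algebraMap k L (v a)) ᵥ* F.P) ᵥ* e = (fun a => algebraMap k L (v a)) ᵥ* F.P) ∨
    ∃ x, On F.H q i x ∧ (∃ C : Matrix (Fin n) (Fin i) L, F.co e = C * rows q i 0 x) ∧
      ∃ C' : Matrix (Fin i) (Fin n) L, rows q i 0 x = C' * F.co e := by
  have h : Fb L q := fb_of_card hk L
  obtain ⟨U, hU⟩ : ∃ U : Submodule L (Fin (2 * i + 1) → L),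
      U = Submodule.span L (Set.range fun a => F.co e a) := ⟨_, rfl⟩
  have mem : ∀ u ∈ U, ∃ c : Fin n → L, ∑ a, c a • F.co e a = u := fun u hu =>
    (Submodule.mem_span_range_iff_exists_fun L).1 (hU ▸ hu)
  have iso : ∀ u ∈ U, ∀ v ∈ U, bform F.H q u v = 0 := by
    intro u hu v hv
    obtain ⟨a, rfl⟩ := mem u hu
    obtain ⟨b, rfl⟩ := mem v hv
    refine (bform_sum_left F.H a (fun s => F.co e s) _).trans (Finset.sum_eq_zero fun s _ => ?_)
    refine mul_eq_zero_of_right _ ((h.bform_sum F.H _ b fun s => F.co e s).trans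
      (Finset.sum_eq_zero fun t _ => mul_eq_zero_of_right _ ?_))
    refine (gram_apply F.H (F.co e) (F.co e) s t).symm.trans ?_
    rw [F.co_iso h he hw, Matrix.zero_apply]
  have hi : i ≤ Module.finrank L U := by
    have h1 : e.rank = d := he.rank
    have h2 : (e * G * dg q F.w' * F.w + F.co e * F.P).rank ≤
        (e * G * dg q F.w' * F.w).rank + (F.co e * F.P).rank := rank_add_le_CZD2 _ _
    rw [← F.e_eq h he hw] at h2
    have h3 : (e * G * dg q F.w' * F.w).rank ≤ Fintype.card σ :=
      (rank_mul_le_right _ _).trans (rank_le_card_height _)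
    have h4 : (F.co e * F.P).rank ≤ (F.co e).rank := rank_mul_le_left _ _
    have h5 : (F.co e).rank = Module.finrank L U := by
      rw [hU]
      exact rank_eq_finrank_span_row _
    omega
  by_cases hst : ∀ T ≤ U, (∀ v ∈ T, fr (q ^ 2) 1 v ∈ T) → T = ⊥
  · obtain ⟨x, hx, hUx⟩ := exists_on (F.her h) U iso hi hst
    refine Or.inr ⟨x, hx, ?_, ?_⟩
    · have h1 : ∀ a, ∃ c : Fin i → L, ∑ l, c l • fr (q ^ 2) l x = F.co e a := fun a =>
        (Submodule.mem_span_range_iff_exists_fun L).1
          (by rw [← hUx, hU]; exact Submodule.subset_span ⟨a, rfl⟩)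
      choose c hc using h1
      refine ⟨Matrix.of c, ?_⟩
      ext a b
      rw [← hc a]
      simp [Matrix.mul_apply, rows, Finset.sum_apply]
    · have h1 : ∀ l : Fin i, ∃ c : Fin n → L, ∑ a, c a • F.co e a = fr (q ^ 2) l x := fun l =>
        mem _ (by rw [hUx]; exact Submodule.subset_span ⟨l, rfl⟩)
      choose c hc using h1
      refine ⟨Matrix.of c, ?_⟩
      ext l b
      have h2 := congrFun (hc l) b
      simp only [Finset.sum_apply, Pi.smul_apply, smul_eq_mul] at h2
      simp [Matrix.mul_apply, rows, h2]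
  · push Not at hst
    obtain ⟨T, hTU, hT, hne⟩ := hst
    obtain ⟨v, hv0, hvT⟩ := exists_rat hk T hne hT
    refine Or.inl ⟨v, hv0, iso _ (hTU hvT) _ (hTU hvT), ?_⟩
    obtain ⟨a, ha⟩ := mem _ (hTU hvT)
    have h1 : (fun a => algebraMap k L (v a)) = a ᵥ* F.co e := by
      rw [← ha]
      funext b
      simp [Matrix.vecMul, dotProduct, Finset.sum_apply]
    rw [h1]
    simp only [vecMul_vecMul]
    rw [F.co_fix h he hw]

end Pool.Agent.CXD
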