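import Pool.Agent.P.MP_2ce3e7_ag.CV1
import Pool.Agent.P.MP_2ce3e7_ag.CZD
import Pool.Agent.P.MP_2ce3e7_ag.CZD2

/-! The strata of the projective model. -/

set_option linter.unusedSectionVars false
set_option linter.unusedVariables false

open Matrix LaurentPolynomial

noncomputable section

namespace Pool.Agent.CXD

section
variable {R R' : Type} [CommRing R] [CommRing R'] {n q i d : ℕ} {σ : Type} [Fintype σ]
  [DecidableEq σ] {G : Matrix (Fin n) (Fin n) R} (F : Frame G q σ i)

/-- the coordinates of the rows of `u` in the basis `P` -/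
def Frame.cq (u : Matrix (Fin d) (Fin n) R) : Matrix (Fin d) (Fin (2 * i + 1)) R :=
  u * G * dg q F.P * F.Hi

/-- a basis of the isotropic subspace -/
def Frame.ub (ε : Fin d ≃ σ ⊕ Fin i) (x : Fin (2 * i + 1) → R) : Matrix (Fin d) (Fin n) R :=
  (F.bs x).submatrix ε id

/-- a function that does not vanish on a part of the stratum -/
def Frame.fz (z : (Fin d → Fin n) → R) (I : Fin d → Fin n) (ch : Fin (2 * i) → Fin d ⊕ Fin d) : R :=
  z I * fv F.H q (F.cq (em z I)) ch

variable (ε : Fin d ≃ σ ⊕ Fin i) {x : Fin (2 * i + 1) → R}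

theorem Frame.cq_map (f : R →+* R') (u : Matrix (Fin d) (Fin n) R) :
    (F.cq u).map f = (F.map f).cq (u.map f) := by
  rw [Frame.cq, Frame.cq]
  simp only [Matrix.map_mul, dg_map]
  rfl

theorem Frame.ub_map (f : R →+* R') (x : Fin (2 * i + 1) → R) :
    (F.ub ε x).map f = (F.map f).ub ε fun a => f (x a) := by
  have e : (F.bs x).map f = (F.map f).bs fun a => f (x a) := by
    rw [Frame.bs, Frame.bs, ← rows_map_CZB]
    have e1 : ((rows q i 0 x).map f * (F.map f).P) = (rows q i 0 x * F.P).map f := by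
      rw [Matrix.map_mul]
      rfl
    rw [e1]
    ext (a | a) b <;> rfl
  rw [Frame.ub, Frame.ub, ← e]
  rfl

theorem Frame.map_fz (f : R →+* R') (z : (Fin d → Fin n) → R) (I : Fin d → Fin n)
    (ch : Fin (2 * i) → Fin d ⊕ Fin d) :
    f (F.fz z I ch) = (F.map f).fz (fun J => f (z J)) I ch := by
  rw [Frame.fz, Frame.fz, map_mul, map_fv, F.cq_map, em_map]
  rfl

theorem Frame.ub_iso (h : Fb R q) (hx : On F.H q i x) : F.ub ε x * G * dg q (F.ub ε x) = 0 := by
  have e : F.ub ε x * G * dg q (F.ub ε x) = (F.bs x * G * dg q (F.bs x)).submatrix ε ε := rfl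
  rw [e, F.bs_iso h hx]
  rfl

theorem Frame.ub_dual (h : Fb R q) (hx : On F.H q i x) : ∃ Y : Matrix (Fin n) (Fin d) R,
    F.ub ε x * Y = 1 ∧ F.pr (cm F.H q i x) = Y * F.ub ε x := by
  obtain ⟨Y, h1, h2⟩ := F.exists_dual h hx
  refine ⟨Y.submatrix id ε, ?_, ?_⟩
  · have e : F.ub ε x * Y.submatrix id ε = (F.bs x * Y).submatrix ε ε := rfl
    rw [e, h1, Matrix.submatrix_one_equiv]
  · rw [h2, Frame.ub, Matrix.submatrix_mul_equiv, Matrix.submatrix_id_id]

theorem Frame.w_ub (x : Fin (2 * i + 1) → R) : ∃ c : Matrix σ (Fin d) R, F.w = c * F.ub ε x := by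
  refine ⟨(fromCols (1 : Matrix σ σ R) (0 : Matrix σ (Fin i) R)).submatrix id ε, ?_⟩
  rw [Frame.ub, Matrix.submatrix_mul_equiv, Matrix.submatrix_id_id, Frame.bs,
    fromCols_mul_fromRows, Matrix.one_mul, Matrix.zero_mul, add_zero]

theorem Frame.cq_ub (g : Matrix (Fin d) (Fin d) R) (x : Fin (2 * i + 1) → R) :
    ∃ c : Matrix (Fin d) (Fin i) R, F.cq (g * F.ub ε x) = c * rows q i 0 x := by
  refine ⟨g * (fromRows (0 : Matrix σ (Fin i) R) (1 : Matrix (Fin i) (Fin i) R)).submatrix ε id, ?_⟩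
  have e1 : F.bs x * G * dg q F.P * F.Hi =
      fromRows (0 : Matrix σ (Fin i) R) (1 : Matrix (Fin i) (Fin i) R) * rows q i 0 x := by
    have e2 : rows q i 0 x * F.P * G * dg q F.P * F.Hi = rows q i 0 x := by
      have e3 : rows q i 0 x * F.P * G * dg q F.P * F.Hi =
          rows q i 0 x * (F.P * G * dg q F.P * F.Hi) := by
        simp only [Matrix.mul_assoc]
      rw [e3, F.PP, F.inv, Matrix.mul_one]
    rw [Frame.bs, fromRows_mul, fromRows_mul, fromRows_mul, fromRows_mul, F.wP, e2,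
      Matrix.zero_mul, Matrix.zero_mul, Matrix.one_mul]
  have e4 : F.ub ε x * G * dg q F.P * F.Hi = (F.bs x * G * dg q F.P * F.Hi).submatrix ε id := rfl
  have e5 : F.cq (g * F.ub ε x) = g * (F.ub ε x * G * dg q F.P * F.Hi) := by
    simp only [Frame.cq, Matrix.mul_assoc]
  rw [e5, e4, e1, Matrix.mul_assoc]
  rfl

end

variable {k : Type} [Field k] [Fintype k] {n q i d : ℕ} {σ : Type} [Fintype σ] [DecidableEq σ]
  {G : Matrix (Fin n) (Fin n) k} (F : Frame G q σ i)

theorem Frame.map_map {B C : Type} [CommRing B] [CommRing C] [Algebra k B] [Algebra k C]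
    (g : B →+* C) (e : g.comp (algebraMap k B) = algebraMap k C) (z : (Fin d → Fin n) → B)
    (I : Fin d → Fin n) (ch : Fin (2 * i) → Fin d ⊕ Fin d) :
    g ((F.map (algebraMap k B)).fz z I ch) =
      (F.map (algebraMap k C)).fz (fun J => g (z J)) I ch := by
  rw [Frame.map_fz]
  simp only [Frame.fz, Frame.cq, Frame.map, mm_CZC e]

/-- either a new rational vector, or a point of the Coxeter variety -/
theorem Frame.point_cases {L : Type} [Field L] [IsAlgClosed L] [Algebra k L]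
    (hk : Fintype.card k = q ^ 2) (ε : Fin d ≃ σ ⊕ Fin i) (hn : d ≤ n) {z : (Fin d → Fin n) → L}
    (hz : Pk (G.map (algebraMap k L)) q z) {I : Fin d → Fin n} (hI : z I ≠ 0)
    (hw : ∀ J, inM z (F.w.map (algebraMap k L)) J = 0) :
    (∃ j, i = j + 1 ∧ ∃ F' : Frame G q (σ ⊕ Unit) j,
      ∀ J, inM z (F'.w.map (algebraMap k L)) J = 0) ∨
    ∃ x, On (F.map (algebraMap k L)).H q i x ∧
      (∃ t : Lˣ, ∀ J, z J = plu ((F.map (algebraMap k L)).ub ε x) J * t) ∧
        ∃ ch, (F.map (algebraMap k L)).fz z I ch ≠ 0 := by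
  have hb := fb_of_card hk L
  obtain ⟨Y, hY, he, hin⟩ := hz.exists_proj hb hn (IsUnit.mk0 _ hI)
  have hw' : (F.map (algebraMap k L)).w * (Y * em z I) = (F.map (algebraMap k L)).w :=
    (hin _).1 (hw I)
  have hd : Fintype.card σ + i = d := by
    have := Fintype.card_congr ε
    simpa using this.symm
  rcases (F.map (algebraMap k L)).field_cases hk hd he hw' with ⟨v, hv, h0, h1⟩ |
    ⟨x, hx, ⟨C, h1⟩, C', h2⟩
  · have h0' : bform F.H q v v = 0 := by
      apply (algebraMap k L).injective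
      rw [map_bform, map_zero]
      exact h0
    obtain ⟨j, hj, F', hF'⟩ := F.exists_next hk hv h0'
    exact Or.inl ⟨j, hj, F', (hin _).2 (hF' _ hw' h1)⟩
  · obtain ⟨h3, -⟩ := (F.map (algebraMap k L)).same hb he hw' hx h1 h2
    obtain ⟨Y', -, h5⟩ := (F.map (algebraMap k L)).ub_dual ε hb hx
    have h6 : em z I * (Y * em z I) = em z I := by
      rw [← Matrix.mul_assoc, hY, Matrix.one_mul]
    have h7 : em z I = em z I * Y' * (F.map (algebraMap k L)).ub ε x := by
      rw [Matrix.mul_assoc, ← h5]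
      conv_rhs => rw [← h6, Matrix.mul_assoc, h3, h6]
    have hp : z I ^ (d - 1) ≠ 0 := pow_ne_zero _ hI
    have h8 : ∀ J, z J = plu ((F.map (algebraMap k L)).ub ε x) J *
        ((em z I * Y').det / z I ^ (d - 1)) := by
      intro J
      have h9 := hz.det I J
      rw [h7, plu_mul] at h9
      rw [← mul_div_assoc, eq_div_iff hp, mul_comm (z J), ← h9, mul_comm]
    have ht : (em z I * Y').det / z I ^ (d - 1) ≠ 0 := fun h => hI (by rw [h8 I, h, mul_zero])
    obtain ⟨c, hc⟩ := (F.map (algebraMap k L)).cq_ub ε (em z I * Y') x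
    rw [← h7] at hc
    have h10 : rows q i 0 x = C' * Y * (F.map (algebraMap k L)).cq (em z I) := by
      rw [h2]
      simp only [Frame.co, Frame.cq, Matrix.mul_assoc]
    obtain ⟨ch, hch⟩ := exists_fv_ne ((F.map (algebraMap k L)).her hb) hx hc h10
    exact Or.inr ⟨x, hx, ⟨Units.mk0 _ ht, h8⟩, ch, mul_ne_zero hI hch⟩

end Pool.Agent.CXD
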