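import Pool.Agent.P.MP_2ce3e7_ag.CV2
import Pool.Agent.P.MP_2ce3e7_ag.CZC2

/-! The parametrisation of a stratum is finite. -/

set_option linter.unusedSectionVars false
set_option linter.unusedVariables false

open Matrix LaurentPolynomial

noncomputable section

namespace Pool.Agent.CXD

variable {k : Type} [Field k] [Fintype k] {n q i d : ℕ} {σ : Type} [Fintype σ] [DecidableEq σ]
  {G : Matrix (Fin n) (Fin n) k} (F : Frame G q σ i) (ε : Fin d ≃ σ ⊕ Fin i)

/-- the universal subspace of the stratum -/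
def Frame.uD : Matrix (Fin d) (Fin n) (Dv F.H q i) :=
  (F.map (algebraMap k (Dv F.H q i))).ub ε (xD F.H q i)

/-- the functions that define the boundary -/
def Frame.bz (d : ℕ) : Set (Pl G q d) :=
  {f | ∃ I ch, f = (F.map (algebraMap k (Pl G q d))).fz (crd (plI G q d)) I ch}

/-- the subspace contains the rows of `w` -/
def Frame.InG {d : ℕ} (p : Ideal (Pl G q d)) : Prop :=
  ∀ J a b, inM (crd (plI G q d)) (F.w.map (algebraMap k (Pl G q d))) J a b ∈ p

theorem Frame.exists_psi (hk : Fintype.card k = q ^ 2) :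
    ∃ ψ : Pl G q d →ₐ[k] Dv F.H q i, ∀ I, ψ (crd (plI G q d) I) = plu (F.uD ε) I :=
  exists_pl_lift ((F.map (algebraMap k (Dv F.H q i))).ub_iso ε (fb_of_card hk _) (on_xD F.H))

theorem Frame.inG_iff {R : Type} [CommRing R] [Algebra k R] (α : Pl G q d →ₐ[k] R) :
    F.InG (RingHom.ker α.toRingHom) ↔
      ∀ J, inM (fun I => α (crd (plI G q d) I)) (F.w.map (algebraMap k R)) J = 0 := by
  have e : α.toRingHom.comp (algebraMap k (Pl G q d)) = algebraMap k R := α.comp_algebraMap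
  have key : ∀ J, (inM (crd (plI G q d)) (F.w.map (algebraMap k (Pl G q d))) J).map α.toRingHom =
      inM (fun I => α (crd (plI G q d) I)) (F.w.map (algebraMap k R)) J := fun J => by
    rw [inM_map, mm_CZC e]
    rfl
  constructor
  · intro h J
    rw [← key J]
    ext a b
    exact h J a b
  · intro h J a b
    have h1 := congrFun (congrFun ((key J).trans (h J)) a) b
    exact h1

theorem sat_mul_CV3 {A A' : Type} [CommRing A] [CommRing A'] {Ψ : A →+* A'} {f : A} {y : A'}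
    (h : Ψ f * y ∈ sat_CZC2 Ψ f) : y ∈ sat_CZC2 Ψ f := by
  obtain ⟨N, hN⟩ := h
  refine ⟨N + 1, ?_⟩
  rwa [pow_succ, mul_assoc]

theorem sat_pow_CV3 {A A' : Type} [CommRing A] [CommRing A'] {Ψ : A →+* A'} {f : A} {y : A'}
    {M : ℕ} (hM : 0 < M) (h : y ^ M ∈ sat_CZC2 Ψ f) : y ∈ sat_CZC2 Ψ f := by
  obtain ⟨N, hN⟩ := h
  obtain ⟨m, rfl⟩ := Nat.exists_eq_succ_of_ne_zero hM.ne'
  refine ⟨N, ?_⟩
  have h1 : Ψ.IsIntegralElem (Ψ (f ^ (N * m))) := Ψ.isIntegralElem_map
  have h2 := h1.mul Ψ hN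
  have e : Ψ (f ^ (N * m)) * (Ψ f ^ N * y ^ m.succ) = (Ψ f ^ N * y) ^ m.succ := by
    rw [map_pow, Nat.succ_eq_add_one]; ring
  rw [e] at h2
  let _ := Ψ.toAlgebra
  exact IsIntegral.of_pow (R := A) hM h2

theorem C_alg_CV3 (D : Type) [CommRing D] [Algebra k D] :
    (C : D →+* D[T;T⁻¹]).comp (algebraMap k D) = algebraMap k D[T;T⁻¹] := by
  ext1 t
  rw [RingHom.comp_apply, LaurentPolynomial.algebraMap_apply]

theorem Frame.ub_mm_CV3 {B E : Type} [CommRing B] [CommRing E] [Algebra k B] [Algebra k E]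
    {g : B →+* E} (e : g.comp (algebraMap k B) = algebraMap k E) (x : Fin (2 * i + 1) → B) :
    ((F.map (algebraMap k B)).ub ε x).map g = (F.map (algebraMap k E)).ub ε fun a => g (x a) := by
  rw [Frame.ub_map]
  simp only [Frame.ub, Frame.bs, Frame.map, mm_CZC e]

theorem Frame.cq_mm_CV3 {B E : Type} [CommRing B] [CommRing E] [Algebra k B] [Algebra k E]
    {g : B →+* E} (e : g.comp (algebraMap k B) = algebraMap k E) (u : Matrix (Fin d) (Fin n) B) :
    ((F.map (algebraMap k B)).cq u).map g = (F.map (algebraMap k E)).cq (u.map g) := by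
  rw [Frame.cq_map]
  simp only [Frame.cq, Frame.map, mm_CZC e]

theorem em_T_CV3 {R : Type} [CommRing R] (u : Matrix (Fin d) (Fin n) R) (t : R)
    (I : Fin d → Fin n) :
    em (fun J => plu u J * t) I = (t • (u.submatrix id I).adjugate) * u := by
  rw [Matrix.smul_mul, ← em_plu]
  ext a b
  simp [em, mul_comm]

variable {F ε} {θ : Pl G q d →ₐ[k] (Pl G q d)[T;T⁻¹]} {ψ : Pl G q d →ₐ[k] Dv F.H q i}

theorem Frame.hat_crd'_CV3 (hθ : Std (hom (plI G q d)) (crd (plI G q d)) θ)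
    (hψ : ∀ I, ψ (crd (plI G q d) I) = plu (F.uD ε) I) (I : Fin d → Fin n) :
    hat θ.toRingHom ψ.toRingHom (crd (plI G q d) I) = C (plu (F.uD ε) I) * T 1 := by
  have h1 : θ.toRingHom (crd (plI G q d) I) = C (crd (plI G q d) I) * T 1 := hθ.co 1 _ (hθ.deg I)
  rw [hat, RingHom.comp_apply, h1, map_C_mul_T, ← hψ I]
  rfl

theorem Frame.hat_crd_CV3 (hθ : Std (hom (plI G q d)) (crd (plI G q d)) θ)
    (hψ : ∀ I, ψ (crd (plI G q d) I) = plu (F.uD ε) I) (I : Fin d → Fin n) :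
    hat θ.toRingHom ψ.toRingHom (crd (plI G q d) I) =
      plu ((F.map (algebraMap k (Dv F.H q i)[T;T⁻¹])).ub ε fun a => C (xD F.H q i a)) I * T 1 := by
  have h1 := map_plu (R := Dv F.H q i) (R' := (Dv F.H q i)[T;T⁻¹]) C (F.uD ε) I
  have h2 := F.ub_mm_CV3 (B := Dv F.H q i) (E := (Dv F.H q i)[T;T⁻¹]) (g := C) ε (C_alg_CV3 _)
    (xD F.H q i)
  rw [Frame.hat_crd'_CV3 hθ hψ]
  exact congrArg (· * T 1) (h1.trans (congrArg (plu · I) h2))

theorem Frame.isInG (hθ : Std (hom (plI G q d)) (crd (plI G q d)) θ)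
    (hψ : ∀ I, ψ (crd (plI G q d) I) = plu (F.uD ε) I) :
    F.InG (RingHom.ker (hat θ.toRingHom ψ.toRingHom)) := by
  refine (F.inG_iff (R := (Dv F.H q i)[T;T⁻¹]) (d := d)
    ((AddMonoidAlgebra.mapAlgHom ℤ ψ).comp θ)).2 fun J => ?_
  have e : (fun I => ((AddMonoidAlgebra.mapAlgHom ℤ ψ).comp θ) (crd (plI G q d) I)) =
      fun I => plu ((F.map (algebraMap k (Dv F.H q i)[T;T⁻¹])).ub ε
        fun a => C (xD F.H q i a)) I * T 1 := funext fun I => Frame.hat_crd_CV3 hθ hψ I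
  obtain ⟨c, hc⟩ := (F.map (algebraMap k (Dv F.H q i)[T;T⁻¹])).w_ub ε fun a => C (xD F.H q i a)
  have hc' : F.w.map (algebraMap k (Dv F.H q i)[T;T⁻¹]) = _ := hc
  rw [e, hc']
  exact inM_mul _ _ _ _

theorem Frame.pcG (hk : Fintype.card k = q ^ 2) (hθ : Std (hom (plI G q d)) (crd (plI G q d)) θ)
    (hψ : ∀ I, ψ (crd (plI G q d) I) = plu (F.uD ε) I) :
    Pc (hat θ.toRingHom ψ.toRingHom) (F.bz d) := by
  have hal : (hat θ.toRingHom ψ.toRingHom).comp (algebraMap k (Pl G q d)) =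
      algebraMap k (Dv F.H q i)[T;T⁻¹] :=
    ((AddMonoidAlgebra.mapAlgHom ℤ ψ).comp θ).comp_algebraMap
  have hz := Frame.hat_crd_CV3 hθ hψ
  have hz' := Frame.hat_crd'_CV3 hθ hψ
  generalize hat θ.toRingHom ψ.toRingHom = Ψ at hal hz hz' ⊢
  refine ⟨?_, ?_, ?_⟩
  · refine (Set.finite_range fun p : (Fin d → Fin n) × (Fin (2 * i) → Fin d ⊕ Fin d) =>
      (F.map (algebraMap k (Pl G q d))).fz (crd (plI G q d)) p.1 p.2).subset ?_
    rintro f ⟨I, ch, rfl⟩
    exact ⟨(I, ch), rfl⟩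
  · refine RingHom.FiniteType.of_comp_finiteType (f := algebraMap k (Pl G q d)) ?_
    rw [hal, RingHom.finiteType_algebraMap]
    have h1 : Algebra.FiniteType k (Dv F.H q i) := inferInstance
    exact Algebra.FiniteType.trans h1 inferInstance
  · rintro f ⟨I, ch, hf⟩ y
    change y ∈ sat_CZC2 Ψ f
    have hfb := fb_of_card hk (Dv F.H q i)[T;T⁻¹]
    have hx : On (F.map (algebraMap k (Dv F.H q i)[T;T⁻¹])).H q i fun a => C (xD F.H q i a) :=
      on_CZC (B := Dv F.H q i) (C := (Dv F.H q i)[T;T⁻¹]) (g := C) F (C_alg_CV3 _) (on_xD F.H)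
    have hH := (F.map (algebraMap k (Dv F.H q i)[T;T⁻¹])).her hfb
    have hem : (em (crd (plI G q d)) I).map Ψ = (T 1 : (Dv F.H q i)[T;T⁻¹]) •
        (((F.map (algebraMap k (Dv F.H q i)[T;T⁻¹])).ub ε
          fun a => C (xD F.H q i a)).submatrix id I).adjugate *
        (F.map (algebraMap k (Dv F.H q i)[T;T⁻¹])).ub ε fun a => C (xD F.H q i a) := by
      rw [em_map, funext hz, em_T_CV3]
    obtain ⟨c, hc⟩ := (F.map (algebraMap k (Dv F.H q i)[T;T⁻¹])).cq_ub ε
      ((T 1 : (Dv F.H q i)[T;T⁻¹]) • (((F.map (algebraMap k (Dv F.H q i)[T;T⁻¹])).ub ε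
          fun a => C (xD F.H q i a)).submatrix id I).adjugate) fun a => C (xD F.H q i a)
    rw [← hem, ← F.cq_mm_CV3 hal] at hc
    obtain ⟨lam, hy⟩ : ∃ lam, yv (F.map (algebraMap k (Dv F.H q i)[T;T⁻¹])).H q
        (((F.map (algebraMap k (Pl G q d))).cq (em (crd (plI G q d)) I)).map Ψ) ch =
        lam • fr (q ^ 2) i fun a => C (xD F.H q i a) := ⟨_, yv_eq (ch := ch) hH hx hc⟩
    have hfv := fv_eq hH hx hy
    have h1 : ∀ a, Ψ (yv (F.H.map (algebraMap k (Pl G q d))) q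
        ((F.map (algebraMap k (Pl G q d))).cq (em (crd (plI G q d)) I)) ch a) =
        lam * C (xD F.H q i a) ^ (q ^ 2) ^ i := fun a => by
      rw [map_yv, mm_CZC hal]
      exact congrFun hy a
    have h2 : Ψ (fv (F.H.map (algebraMap k (Pl G q d))) q
        ((F.map (algebraMap k (Pl G q d))).cq (em (crd (plI G q d)) I)) ch) =
        lam ^ (1 + q * (q ^ 2) ^ i) := by
      rw [map_fv, mm_CZC hal]
      exact hfv
    have hf' : f = crd (plI G q d) I * fv (F.H.map (algebraMap k (Pl G q d))) q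
        ((F.map (algebraMap k (Pl G q d))).cq (em (crd (plI G q d)) I)) ch := hf
    generalize yv (F.H.map (algebraMap k (Pl G q d))) q
        ((F.map (algebraMap k (Pl G q d))).cq (em (crd (plI G q d)) I)) ch = y' at h1
    generalize fv (F.H.map (algebraMap k (Pl G q d))) q
        ((F.map (algebraMap k (Pl G q d))).cq (em (crd (plI G q d)) I)) ch = f' at h2 hf'
    clear hy hfv hc hem hH hx hf
    have hQ : 0 < (q ^ 2) ^ i := pow_pos (hk ▸ Fintype.card_pos) _
    have hX : ∀ a, (C (xD F.H q i a) : (Dv F.H q i)[T;T⁻¹]) ∈ sat_CZC2 Ψ f := fun a => by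
      refine sat_pow_CV3 (M := (q ^ 2) ^ i * (1 + q * (q ^ 2) ^ i)) (by positivity)
        (sat_mul_CV3 ?_)
      have e : Ψ f * C (xD F.H q i a) ^ ((q ^ 2) ^ i * (1 + q * (q ^ 2) ^ i)) =
          Ψ (crd (plI G q d) I * y' a ^ (1 + q * (q ^ 2) ^ i)) := by
        rw [hf', map_mul, map_mul, map_pow, h1, h2, mul_pow, pow_mul, mul_assoc]
      rw [e]
      exact map_mem_CZC2 Ψ f _
    have hC : ∀ t : Dv F.H q i, (C t : (Dv F.H q i)[T;T⁻¹]) ∈ sat_CZC2 Ψ f := fun t => by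
      obtain ⟨p, rfl⟩ := Ideal.Quotient.mk_surjective t
      induction p using MvPolynomial.induction_on with
      | C r =>
        have e : (C (Ideal.Quotient.mk (rel F.H q (q ^ 2) i) (MvPolynomial.C r)) :
            (Dv F.H q i)[T;T⁻¹]) = Ψ (algebraMap k _ r) :=
          (RingHom.congr_fun ((C_alg_CV3 (Dv F.H q i)).trans hal.symm) r :)
        rw [e]
        exact map_mem_CZC2 Ψ f _
      | add p p' hp hp' =>
        rw [map_add, map_add]
        exact Subring.add_mem _ hp hp'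
      | mul_X p a hp =>
        rw [map_mul, map_mul]
        exact Subring.mul_mem _ hp (hX a)
    have hT1 : (T 1 : (Dv F.H q i)[T;T⁻¹]) ∈ sat_CZC2 Ψ f := by
      obtain ⟨Y, hY, -⟩ := (F.map (algebraMap k (Dv F.H q i))).ub_dual ε (fb_of_card hk _)
        (on_xD F.H)
      obtain ⟨a, ha⟩ := exists_plu_one hY
      have e : (T 1 : (Dv F.H q i)[T;T⁻¹]) = ∑ J, C (a J) * Ψ (crd (plI G q d) J) := by
        have ha' : ∑ J, a J * plu (F.uD ε) J = 1 := ha
        simp only [hz', ← mul_assoc, ← map_mul, ← Finset.sum_mul, ← map_sum, ha', map_one, one_mul]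
      rw [e]
      exact Subring.sum_mem _ fun J _ => Subring.mul_mem _ (hC _) (map_mem_CZC2 Ψ f _)
    have hT2 : (T (-1) : (Dv F.H q i)[T;T⁻¹]) ∈ sat_CZC2 Ψ f := by
      refine sat_mul_CV3 ?_
      have e : Ψ f * T (-1) = C (plu (F.uD ε) I) * Ψ f' := by
        rw [hf', map_mul, hz', mul_right_comm, mul_assoc (C _), ← T_add]
        simp
      rw [e]
      exact Subring.mul_mem _ (hC _) (map_mem_CZC2 Ψ f _)
    have hT : ∀ m : ℤ, (T m : (Dv F.H q i)[T;T⁻¹]) ∈ sat_CZC2 Ψ f := fun m => by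
      induction m using Int.induction_on with
      | zero => exact Subring.one_mem _
      | succ m hm =>
        rw [T_add]
        exact Subring.mul_mem _ hm hT1
      | pred m hm =>
        rw [sub_eq_add_neg, T_add]
        exact Subring.mul_mem _ hm hT2
    induction y using LaurentPolynomial.induction_on' with
    | add p p' hp hp' => exact Subring.add_mem _ hp hp'
    | C_mul_T m a => exact Subring.mul_mem _ (hC a) (hT m)

end Pool.Agent.CXD
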