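import Pool.Agent.P.MP_2ce3e7_ag.CZB
import Pool.Agent.P.MP_2ce3e7_ag.CXR

/-! The projector is defined on the Coxeter variety. -/

set_option linter.unusedSectionVars false
set_option linter.unusedVariables false

open Matrix

noncomputable section

namespace Pool.Agent.CXD

variable {k : Type} [Field k] {m q i : ℕ} (H : Matrix (Fin m) (Fin m) k)

/-- the coordinate ring of the cover -/
abbrev Dv (H : Matrix (Fin m) (Fin m) k) (q i : ℕ) : Type := Po m k ⧸ rel H q (q ^ 2) i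

/-- the universal point -/
def xD (q i : ℕ) : Fin m → Dv H q i := fun a => Ideal.Quotient.mk _ (MvPolynomial.X a)

theorem comp_C_CZW : (Ideal.Quotient.mk (rel H q (q ^ 2) i)).comp MvPolynomial.C =
    algebraMap k (Dv H q i) := rfl

theorem mk_bj_CZW (j : ℕ) : Ideal.Quotient.mk (rel H q (q ^ 2) i) (bj H q (q ^ 2) j) =
    bform (H.map (algebraMap k (Dv H q i))) q (xD H q i) (fr (q ^ 2) j (xD H q i)) := by
  rw [hom_bj, comp_C_CZW]
  rfl

theorem on_xD : On (H.map (algebraMap k (Dv H q i))) q i (xD H q i) := by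
  refine ⟨fun j hj => ?_, ?_⟩
  · rw [← mk_bj_CZW, Ideal.Quotient.eq_zero_iff_mem]
    refine Ideal.subset_span ⟨j, Nat.lt_succ_of_lt hj, ?_⟩
    simp [eqn, hj]
  · rw [← mk_bj_CZW, mk_bj_CXR]

theorem exists_pointD {R : Type} [CommRing R] [Algebra k R] {x : Fin m → R}
    (hx : On (H.map (algebraMap k R)) q i x) :
    ∃ τ : Dv H q i →ₐ[k] R, ∀ a, τ (xD H q i a) = x a := by
  have hb : ∀ j, MvPolynomial.aeval x (bj H q (q ^ 2) j) =
      bform (H.map (algebraMap k R)) q x (fr (q ^ 2) j x) := by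
    intro j
    have h := hom_bj (G := H) (r := q) (Q := q ^ 2)
      (MvPolynomial.aeval x : MvPolynomial (Fin m) k →ₐ[k] R).toRingHom j
    have e1 : (MvPolynomial.aeval x : MvPolynomial (Fin m) k →ₐ[k] R).toRingHom.comp
        MvPolynomial.C = algebraMap k R := by
      ext c; simp
    have e2 : (fun a => (MvPolynomial.aeval x : MvPolynomial (Fin m) k →ₐ[k] R).toRingHom
        (MvPolynomial.X a)) = x := by
      funext a; simp
    rw [e1, e2] at h
    exact h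
  have hI : ∀ f ∈ rel H q (q ^ 2) i, MvPolynomial.aeval x f = 0 := by
    intro f hf
    have : rel H q (q ^ 2) i ≤
        RingHom.ker (MvPolynomial.aeval x : MvPolynomial (Fin m) k →ₐ[k] R) := by
      refine Ideal.span_le.2 ?_
      rintro _ ⟨j, hj, rfl⟩
      rw [SetLike.mem_coe, RingHom.mem_ker]
      unfold eqn
      split_ifs with h
      · rw [hb, hx.zero j h]
      · rw [map_sub, hb, hx.one, map_one, sub_self]
    exact this hf
  refine ⟨Ideal.Quotient.liftₐ _ (MvPolynomial.aeval x) hI, fun a => ?_⟩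
  simp [xD]

/-- elements with a homogeneous representative whose degree has a given residue -/
def Wt_CZW (q i : ℕ) (c : ZMod (1 + q * (q ^ 2) ^ i)) (y : Dv H q i) : Prop :=
  ∃ (e : ℕ) (f : Po m k), f.IsHomogeneous e ∧ (e : ZMod (1 + q * (q ^ 2) ^ i)) = c ∧
    Ideal.Quotient.mk _ f = y

variable {H}

theorem Wt_CZW.mul {c d : ZMod (1 + q * (q ^ 2) ^ i)} {y z : Dv H q i} (hy : Wt_CZW H q i c y)
    (hz : Wt_CZW H q i d z) : Wt_CZW H q i (c + d) (y * z) := by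
  obtain ⟨e, f, hf, rfl, rfl⟩ := hy
  obtain ⟨e', g, hg, rfl, rfl⟩ := hz
  exact ⟨e + e', f * g, hf.mul hg, Nat.cast_add _ _, map_mul _ _ _⟩

theorem wt_raise_CZW {e : ℕ} {f : Po m k} (hf : f.IsHomogeneous e) (s : ℕ) :
    ∃ g : Po m k, g.IsHomogeneous (e + (1 + q * (q ^ 2) ^ i) * s) ∧
      Ideal.Quotient.mk (rel H q (q ^ 2) i) g = Ideal.Quotient.mk _ f :=
  ⟨f * bj H q (q ^ 2) i ^ s, hf.mul ((bj_hom i).pow s), by
    simp only [map_mul, map_pow, mk_bj_CXR, one_pow, mul_one]⟩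

theorem Wt_CZW.add {c : ZMod (1 + q * (q ^ 2) ^ i)} {y z : Dv H q i} (hy : Wt_CZW H q i c y)
    (hz : Wt_CZW H q i c z) : Wt_CZW H q i c (y + z) := by
  obtain ⟨e, f, hf, he, rfl⟩ := hy
  obtain ⟨e', g, hg, he', rfl⟩ := hz
  have h : e ≡ e' [MOD 1 + q * (q ^ 2) ^ i] :=
    (ZMod.natCast_eq_natCast_iff _ _ _).1 (he.trans he'.symm)
  rcases le_total e e' with h1 | h1
  · obtain ⟨s, hs⟩ := (Nat.modEq_iff_dvd' h1).1 h
    obtain ⟨f', hf', e1⟩ := wt_raise_CZW (H := H) (q := q) (i := i) hf s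
    have e2 : e + (1 + q * (q ^ 2) ^ i) * s = e' := by rw [← hs]; omega
    rw [e2] at hf'
    exact ⟨e', f' + g, hf'.add hg, he', by rw [map_add, e1]⟩
  · obtain ⟨s, hs⟩ := (Nat.modEq_iff_dvd' h1).1 h.symm
    obtain ⟨g', hg', e1⟩ := wt_raise_CZW (H := H) (q := q) (i := i) hg s
    have e2 : e' + (1 + q * (q ^ 2) ^ i) * s = e := by rw [← hs]; omega
    rw [e2] at hg'
    exact ⟨e, f + g', hf.add hg', he, by rw [map_add, e1]⟩

theorem wt_zero_CZW (c : ZMod (1 + q * (q ^ 2) ^ i)) : Wt_CZW H q i c 0 := by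
  have : NeZero (1 + q * (q ^ 2) ^ i) := ⟨by omega⟩
  exact ⟨c.val, 0, MvPolynomial.isHomogeneous_zero _ _ _, ZMod.natCast_zmod_val c, map_zero _⟩

theorem Wt_CZW.neg {c : ZMod (1 + q * (q ^ 2) ^ i)} {y : Dv H q i} (hy : Wt_CZW H q i c y) :
    Wt_CZW H q i c (-y) := by
  obtain ⟨e, f, hf, he, rfl⟩ := hy
  exact ⟨e, -f, hf.neg, he, map_neg _ _⟩

theorem wt_sum_CZW {α : Type} (s : Finset α) {c : ZMod (1 + q * (q ^ 2) ^ i)} {y : α → Dv H q i}
    (h : ∀ a ∈ s, Wt_CZW H q i c (y a)) : Wt_CZW H q i c (∑ a ∈ s, y a) :=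
  Finset.sum_induction y (Wt_CZW H q i c) (fun _ _ => Wt_CZW.add) (wt_zero_CZW c) h

theorem wt_alg_CZW (t : k) : Wt_CZW H q i 0 (algebraMap k (Dv H q i) t) :=
  ⟨0, MvPolynomial.C t, MvPolynomial.isHomogeneous_C _ _, Nat.cast_zero, rfl⟩

theorem wt_x_CZW (a : Fin m) (e : ℕ) :
    Wt_CZW H q i (e : ZMod (1 + q * (q ^ 2) ^ i)) (xD H q i a ^ e) :=
  ⟨e, MvPolynomial.X a ^ e, by simpa using (MvPolynomial.isHomogeneous_X k a).pow e, rfl,
    map_pow _ _ _⟩

theorem Wt_CZW.cox {y : Dv H q i} (hy : Wt_CZW H q i 0 y) : y ∈ Cox H q (q ^ 2) i := by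
  obtain ⟨e, f, hf, he, rfl⟩ := hy
  obtain ⟨s, rfl⟩ := (ZMod.natCast_eq_zero_iff _ _).1 he
  exact mem_cox.2 ⟨s, f, hf, rfl⟩

theorem Wt_CZW.cast {c d : ZMod (1 + q * (q ^ 2) ^ i)} {y : Dv H q i} (hy : Wt_CZW H q i c y)
    (h : c = d) : Wt_CZW H q i d y := h ▸ hy

/-- the weight of the `l`-th Frobenius image -/
def wq_CZW (q i l : ℕ) : ZMod (1 + q * (q ^ 2) ^ i) := (((q ^ 2) ^ l : ℕ) : ZMod _)

theorem wt_rows_CZW (l : Fin i) (a : Fin m) :
    Wt_CZW H q i (wq_CZW q i l) (rows q i 0 (xD H q i) l a) := by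
  have := wt_x_CZW (H := H) (q := q) (i := i) a ((q ^ 2) ^ (l : ℕ))
  simpa [rows, fr, wq_CZW] using this

theorem wt_dg_CZW (a : Fin m) (l : Fin i) :
    Wt_CZW H q i (-wq_CZW q i l) (dg q (rows q i i (xD H q i)) a l) := by
  have h := wt_x_CZW (H := H) (q := q) (i := i) a ((q ^ 2) ^ (i + (l : ℕ)) * q)
  have e : dg q (rows q i i (xD H q i)) a l = xD H q i a ^ ((q ^ 2) ^ (i + (l : ℕ)) * q) := by
    simp [dg, rows, fr, pow_mul]
  rw [e]
  refine h.cast ?_
  have h0 : ((1 + q * (q ^ 2) ^ i : ℕ) : ZMod (1 + q * (q ^ 2) ^ i)) = 0 := ZMod.natCast_self _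
  have h1 : (q ^ 2) ^ (i + (l : ℕ)) * q + (q ^ 2) ^ (l : ℕ) =
      (1 + q * (q ^ 2) ^ i) * (q ^ 2) ^ (l : ℕ) := by ring
  rw [eq_neg_iff_add_eq_zero, wq_CZW, ← Nat.cast_add, h1, Nat.cast_mul, h0, zero_mul]

/-- the pattern of weights of the Gram matrix -/
def Pat_CZW (M : Matrix (Fin i) (Fin i) (Dv H q i)) : Prop :=
  ∀ l j : Fin i, Wt_CZW H q i (wq_CZW q i l - wq_CZW q i j) (M l j)

theorem pat_one_CZW : Pat_CZW (1 : Matrix (Fin i) (Fin i) (Dv H q i)) := by
  intro l j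
  rw [Matrix.one_apply]
  split_ifs with h
  · subst h
    have := wt_alg_CZW (H := H) (q := q) (i := i) 1
    rw [map_one] at this
    exact this.cast (sub_self _).symm
  · exact wt_zero_CZW _

theorem Pat_CZW.mul {M N : Matrix (Fin i) (Fin i) (Dv H q i)} (hM : Pat_CZW M) (hN : Pat_CZW N) :
    Pat_CZW (M * N) := by
  intro l j
  rw [Matrix.mul_apply]
  exact wt_sum_CZW _ fun a _ => ((hM l a).mul (hN a j)).cast (by ring)

theorem pat_gm_CZW : Pat_CZW (gm (H.map (algebraMap k (Dv H q i))) q i (xD H q i)) := by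
  intro l j
  unfold gm
  rw [Matrix.mul_apply]
  refine wt_sum_CZW _ fun b _ => ?_
  rw [Matrix.mul_apply]
  have h : Wt_CZW H q i (wq_CZW q i l)
      (∑ a, rows q i 0 (xD H q i) l a * H.map (algebraMap k (Dv H q i)) a b) :=
    wt_sum_CZW _ fun a _ => ((wt_rows_CZW l a).mul (wt_alg_CZW (H a b))).cast (add_zero _)
  exact (h.mul (wt_dg_CZW b j)).cast (by ring)

theorem pat_gi_CZW : Pat_CZW (gi (H.map (algebraMap k (Dv H q i))) q i (xD H q i)) := by
  have h1 : Pat_CZW (1 - gm (H.map (algebraMap k (Dv H q i))) q i (xD H q i)) := by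
    intro l j
    rw [Matrix.sub_apply, sub_eq_add_neg (_ : Dv H q i)]
    exact (pat_one_CZW l j).add (pat_gm_CZW l j).neg
  have h2 : ∀ s : ℕ, Pat_CZW ((1 - gm (H.map (algebraMap k (Dv H q i))) q i (xD H q i)) ^ s) := by
    intro s
    induction s with
    | zero => rw [pow_zero]; exact pat_one_CZW
    | succ s ih => rw [pow_succ]; exact ih.mul h1
  intro l j
  unfold gi
  rw [Matrix.sum_apply]
  exact wt_sum_CZW _ fun s _ => h2 s l j

theorem cm_mem_CZW (a b : Fin m) :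
    cm (H.map (algebraMap k (Dv H q i))) q i (xD H q i) a b ∈ Cox H q (q ^ 2) i := by
  refine Wt_CZW.cox ?_
  unfold cm
  rw [Matrix.mul_apply]
  refine wt_sum_CZW _ fun j _ => ?_
  rw [Matrix.mul_apply]
  have h : Wt_CZW H q i (-wq_CZW q i j) (∑ l, dg q (rows q i i (xD H q i)) a l *
      gi (H.map (algebraMap k (Dv H q i))) q i (xD H q i) l j) :=
    wt_sum_CZW _ fun l _ => ((wt_dg_CZW a l).mul (pat_gi_CZW l j)).cast (by ring)
  exact (h.mul (wt_rows_CZW j b)).cast (by ring)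

variable (H)

theorem exists_cm : ∃ c : Matrix (Fin m) (Fin m) (Cox H q (q ^ 2) i),
    c.map (Cox H q (q ^ 2) i).val = cm (H.map (algebraMap k (Dv H q i))) q i (xD H q i) :=
  ⟨Matrix.of fun a b => ⟨_, cm_mem_CZW a b⟩, by ext a b; rfl⟩

theorem cox_zero_surj (H : Matrix (Fin (2 * 0 + 1)) (Fin (2 * 0 + 1)) k) :
    Function.Surjective (algebraMap k (Cox H q (q ^ 2) 0)) := by
  have : Subsingleton (Fin (2 * 0 + 1)) := inferInstanceAs (Subsingleton (Fin 1))
  have hb : bj H q (q ^ 2) 0 =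
      MvPolynomial.C (H 0 0) * MvPolynomial.X 0 ^ (1 + q) := by
    unfold bj bform
    rw [Fintype.sum_subsingleton _ 0, Fintype.sum_subsingleton _ 0]
    simp only [pow_zero, pow_one, Matrix.map_apply]
    ring
  have h1 : algebraMap k (Dv H q 0) (H 0 0) * xD H q 0 0 ^ (1 + q) = 1 := by
    have := mk_bj_CXR (G := H) (r := q) (Q := q ^ 2) (κ := 0)
    rw [hb, map_mul, map_pow] at this
    exact this
  have h2 : xD H q 0 0 ^ (1 + q) = algebraMap k (Dv H q 0) (H 0 0)⁻¹ := by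
    by_cases h0 : H 0 0 = 0
    · rw [h0, map_zero, zero_mul] at h1
      have : Subsingleton (Dv H q 0) := subsingleton_of_zero_eq_one h1
      exact Subsingleton.elim _ _
    · calc xD H q 0 0 ^ (1 + q)
          = algebraMap k (Dv H q 0) ((H 0 0)⁻¹ * H 0 0) *
            xD H q 0 0 ^ (1 + q) := by rw [inv_mul_cancel₀ h0, map_one, one_mul]
        _ = _ := by rw [map_mul, mul_assoc, h1, mul_one]
  have key : Cox H q (q ^ 2) 0 ≤ ⊥ := by
    refine Algebra.adjoin_le ?_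
    rintro _ ⟨f, hf, rfl⟩
    rw [f.as_sum, map_sum]
    refine Subalgebra.sum_mem _ fun d hd => ?_
    have hdeg : d 0 = 1 + q := by
      have := hf (MvPolynomial.mem_support_iff.1 hd)
      rw [Finsupp.weight_apply, Finsupp.sum_fintype _ _ (by simp),
        Fintype.sum_subsingleton _ 0] at this
      simpa using this
    have hd' : d = Finsupp.single 0 (1 + q) := by
      ext a
      rw [Subsingleton.elim a 0, hdeg, Finsupp.single_eq_same]
    rw [hd', ← MvPolynomial.C_mul_X_pow_eq_monomial, map_mul, map_pow]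
    refine mul_mem (Subalgebra.algebraMap_mem _ _) ?_
    change xD H q 0 0 ^ (1 + q) ∈ _
    rw [h2]
    exact Subalgebra.algebraMap_mem _ _
  intro y
  obtain ⟨t, ht⟩ := Algebra.mem_bot.1 (key y.2)
  exact ⟨t, Subtype.ext ht⟩

end Pool.Agent.CXD
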