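import Pool.Agent.P.MP_2ce3e7_ag.CWG2
import Pool.Agent.P.MP_2ce3e7_ag.CZW

/-! The covering of the Coxeter variety is unramified. -/

set_option linter.unusedSectionVars false
set_option linter.unusedVariables false

open Function

noncomputable section

namespace Pool.Agent.CXD

variable {k : Type} [Field k] {m q i : ℕ} (H : Matrix (Fin m) (Fin m) k)

theorem prod_single_CWG3 {D G α : Type} [CommRing D] [AddCommMonoid G] (s : Finset α)
    (g : α → G) (x : α → D) :
    ∏ a ∈ s, AddMonoidAlgebra.single (g a) (x a) =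
      AddMonoidAlgebra.single (∑ a ∈ s, g a) (∏ a ∈ s, x a) := by
  classical
  induction s using Finset.induction_on with
  | empty => rfl
  | insert a s ha ih =>
    rw [Finset.prod_insert ha, Finset.prod_insert ha, Finset.sum_insert ha, ih,
      AddMonoidAlgebra.single_mul_single]

theorem aeval_hom_CWG3 {D : Type} [CommRing D] [Algebra k D] {N : ℕ} (x : Fin m → D) {e : ℕ}
    {f : Po m k} (hf : f.IsHomogeneous e) :
    MvPolynomial.aeval (fun a => AddMonoidAlgebra.single (1 : ZMod N) (x a)) f =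
      AddMonoidAlgebra.single (e : ZMod N) (MvPolynomial.aeval x f) := by
  have h : ∀ d ∈ f.support, MvPolynomial.aeval
      (fun a => AddMonoidAlgebra.single (1 : ZMod N) (x a)) (MvPolynomial.monomial d (f.coeff d)) =
      AddMonoidAlgebra.singleAddHom (e : ZMod N)
        (MvPolynomial.aeval x (MvPolynomial.monomial d (f.coeff d))) := by
    intro d hd
    have hdeg : ∑ a, d a = e := by
      have := hf (MvPolynomial.mem_support_iff.1 hd)
      rw [Finsupp.weight_apply, Finsupp.sum_fintype _ _ (by simp)] at this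
      simpa using this
    rw [MvPolynomial.aeval_monomial, MvPolynomial.aeval_monomial,
      Finsupp.prod_fintype _ _ (by simp), Finsupp.prod_fintype _ _ (by simp)]
    simp only [AddMonoidAlgebra.single_pow]
    rw [prod_single_CWG3]
    change AddMonoidAlgebra.single 0 (algebraMap k D _) * _ = AddMonoidAlgebra.single _ _
    rw [AddMonoidAlgebra.single_mul_single, zero_add, ← hdeg]
    simp
  conv_lhs => rw [f.as_sum, map_sum, Finset.sum_congr rfl h, ← map_sum, ← map_sum, ← f.as_sum]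
  rfl

theorem aeval_xD_CWG3 (f : Po m k) :
    MvPolynomial.aeval (xD H q i) f = Ideal.Quotient.mk (rel H q (q ^ 2) i) f := by
  have : (MvPolynomial.aeval (xD H q i) : Po m k →ₐ[k] Dv H q i) =
      Ideal.Quotient.mkₐ k (rel H q (q ^ 2) i) := MvPolynomial.algHom_ext fun a => by
    rw [MvPolynomial.aeval_X]; rfl
  rw [this]; rfl

theorem exists_rho_CWG3 : ∃ ρ : Dv H q i →+ AddMonoidAlgebra (Dv H q i) (ZMod (1 + q * (q ^ 2) ^ i)),
    ∀ c x, Wt_CZW H q i c x → ρ x = AddMonoidAlgebra.single c x := by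
  have hI : ∀ f ∈ rel H q (q ^ 2) i, MvPolynomial.aeval (fun a =>
      AddMonoidAlgebra.single (1 : ZMod (1 + q * (q ^ 2) ^ i)) (xD H q i a)) f = 0 := by
    intro f hf
    have : rel H q (q ^ 2) i ≤ RingHom.ker (MvPolynomial.aeval (fun a =>
        AddMonoidAlgebra.single (1 : ZMod (1 + q * (q ^ 2) ^ i)) (xD H q i a)) :
          MvPolynomial (Fin m) k →ₐ[k] _) := by
      refine Ideal.span_le.2 ?_
      rintro _ ⟨j, hj, rfl⟩
      rw [SetLike.mem_coe, RingHom.mem_ker]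
      unfold eqn
      split_ifs with h
      · rw [aeval_hom_CWG3 _ (bj_hom j), aeval_xD_CWG3, mk_bj_CZW, (on_xD H).zero j h,
          AddMonoidAlgebra.single_zero]
      · rw [map_sub, aeval_hom_CWG3 _ (bj_hom i), aeval_xD_CWG3, mk_bj_CXR, ZMod.natCast_self,
          map_one, AddMonoidAlgebra.one_def, sub_self]
    exact this hf
  refine ⟨(Ideal.Quotient.liftₐ _ _ hI).toRingHom.toAddMonoidHom, ?_⟩
  rintro _ _ ⟨e, f, hf, rfl, rfl⟩
  change MvPolynomial.aeval _ f = _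
  rw [aeval_hom_CWG3 _ hf, aeval_xD_CWG3]

theorem wt_ind_CWG3 {P : Dv H q i → Prop} (h0 : P 0) (h1 : ∀ c x, Wt_CZW H q i c x → P x)
    (h2 : ∀ x y, P x → P y → P (x + y)) (x : Dv H q i) : P x := by
  obtain ⟨f, rfl⟩ := Ideal.Quotient.mk_surjective x
  rw [← MvPolynomial.sum_homogeneousComponent f, map_sum]
  exact Finset.sum_induction _ P h2 h0 fun e _ =>
    h1 _ _ ⟨e, _, MvPolynomial.homogeneousComponent_isHomogeneous e f, rfl, rfl⟩

theorem wt_cox_CWG3 (c : Cox H q (q ^ 2) i) : Wt_CZW H q i 0 c.1 := by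
  obtain ⟨s, f, hf, h⟩ := mem_cox.1 c.2
  exact ⟨_, f, hf, by rw [Nat.cast_mul, ZMod.natCast_self, zero_mul], h⟩

/-- the component of weight zero -/
theorem exists_wt_proj : ∃ p : Dv H q i →+ Cox H q (q ^ 2) i,
    (∀ (c : Cox H q (q ^ 2) i) x, p (c.1 * x) = c * p x) ∧
      (∀ x, Wt_CZW H q i 0 x → (p x).1 = x) ∧ ∀ c x, c ≠ 0 → Wt_CZW H q i c x → p x = 0 := by
  obtain ⟨ρ, hρ⟩ := exists_rho_CWG3 (q := q) (i := i) H
  have e0 : ∀ x, Wt_CZW H q i 0 x → (ρ x).coeff 0 = x := fun x hx => by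
    rw [hρ _ _ hx, AddMonoidAlgebra.coeff_single, Finsupp.single_eq_same]
  have e1 : ∀ c x, c ≠ 0 → Wt_CZW H q i c x → (ρ x).coeff 0 = 0 := fun c x hc hx => by
    rw [hρ _ _ hx, AddMonoidAlgebra.coeff_single, Finsupp.single_eq_of_ne hc.symm]
  have ea : ∀ x y, (ρ (x + y)).coeff 0 = (ρ x).coeff 0 + (ρ y).coeff 0 := fun x y => by
    rw [map_add]; rfl
  have ez : (ρ 0).coeff 0 = 0 := by rw [ρ.map_zero]; rfl
  have hm : ∀ x, (ρ x).coeff 0 ∈ Cox H q (q ^ 2) i := by
    refine wt_ind_CWG3 H ?_ (fun c x hx => ?_) fun x y hx hy => ?_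
    · rw [ez]; exact zero_mem _
    · by_cases hc : c = 0
      · subst hc
        rw [e0 x hx]; exact hx.cox
      · rw [e1 c x hc hx]; exact zero_mem _
    · rw [ea]; exact add_mem hx hy
  refine ⟨AddMonoidHom.mk' (fun x => ⟨_, hm x⟩) fun x y => Subtype.ext (ea x y), fun c x => ?_,
    e0, fun c x hc hx => Subtype.ext (e1 c x hc hx)⟩
  refine Subtype.ext ?_
  change (ρ (c.1 * x)).coeff 0 = c.1 * (ρ x).coeff 0
  induction x using wt_ind_CWG3 H with
  | h0 => rw [mul_zero, ez, mul_zero]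
  | h1 w x hx =>
    have hy := ((wt_cox_CWG3 H c).mul hx).cast (zero_add w)
    by_cases hw : w = 0
    · subst hw
      rw [e0 _ hx, e0 _ hy]
    · rw [e1 _ _ hw hx, e1 _ _ hw hy, mul_zero]
  | h2 x y hx hy => rw [mul_add, ea, ea, hx, hy, mul_add]

theorem wt_ind {P : Dv H q i → Prop} (h0 : P 0) (h1 : ∀ c x, Wt_CZW H q i c x → P x)
    (h2 : ∀ x y, P x → P y → P (x + y)) (x : Dv H q i) : P x :=
  wt_ind_CWG3 H h0 h1 h2 x

/-- a partition of unity in every weight -/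
theorem exists_wt_unity (c : ZMod (1 + q * (q ^ 2) ^ i)) :
    ∃ y y' : Fin m × Fin m → Dv H q i, (∀ a, Wt_CZW H q i c (y a)) ∧
      (∀ a, Wt_CZW H q i (-c) (y' a)) ∧ ∑ a, y' a * y a = 1 := by
  have : NeZero (1 + q * (q ^ 2) ^ i) := ⟨by omega⟩
  have hv := ZMod.val_lt c
  obtain ⟨u, hu⟩ : ∃ u, q * (q ^ 2) ^ i = u + c.val := ⟨q * (q ^ 2) ^ i - c.val, by omega⟩
  refine ⟨fun a => xD H q i a.2 ^ c.val,
    fun a => xD H q i a.1 ^ 1 * algebraMap k (Dv H q i) (H a.1 a.2) * xD H q i a.2 ^ u,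
    fun a => (wt_x_CZW a.2 _).cast (ZMod.natCast_zmod_val c), fun a => ?_, ?_⟩
  · refine (((wt_x_CZW a.1 1).mul (wt_alg_CZW _)).mul (wt_x_CZW a.2 u)).cast ?_
    have h0 : ((1 + (u + c.val) : ℕ) : ZMod (1 + q * (q ^ 2) ^ i)) = 0 := by
      rw [← hu]; exact ZMod.natCast_self _
    rw [Nat.cast_add, Nat.cast_add, ZMod.natCast_zmod_val] at h0
    rw [eq_neg_iff_add_eq_zero, add_zero, add_assoc, h0]
  · rw [← (on_xD (q := q) (i := i) H).one, Fintype.sum_prod_type]
    unfold bform fr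
    refine Finset.sum_congr rfl fun a _ => Finset.sum_congr rfl fun b _ => ?_
    change xD H q i a ^ 1 * algebraMap k (Dv H q i) (H a b) * xD H q i b ^ u * xD H q i b ^ c.val =
      xD H q i a * algebraMap k (Dv H q i) (H a b) * (xD H q i b ^ (q ^ 2) ^ i) ^ q
    generalize c.val = v at hu
    rw [pow_one, mul_assoc _ (_ ^ u), ← pow_add, ← hu, ← pow_mul (xD H q i b), mul_comm q]

theorem wt_pow_CWG3 {c : ZMod (1 + q * (q ^ 2) ^ i)} {y : Dv H q i} (hy : Wt_CZW H q i c y)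
    (n : ℕ) : Wt_CZW H q i (n * c) (y ^ n) := by
  induction n with
  | zero =>
    have := wt_alg_CZW (H := H) (q := q) (i := i) 1
    rw [map_one] at this
    rw [pow_zero]
    exact this.cast (by simp)
  | succ n ih =>
    rw [pow_succ y]
    exact (ih.mul hy).cast (by push_cast; ring)

theorem dual_CWG3 {α : Type} [Fintype α] [NeZero (1 + q * (q ^ 2) ^ i)]
    (p : Dv H q i →+ Cox H q (q ^ 2) i) (p1 : ∀ x, Wt_CZW H q i 0 x → (p x).1 = x)
    (p2 : ∀ c x, c ≠ 0 → Wt_CZW H q i c x → p x = 0)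
    (g : ZMod (1 + q * (q ^ 2) ^ i) → ZMod (1 + q * (q ^ 2) ^ i)) (hg : Bijective g)
    (y y' : ZMod (1 + q * (q ^ 2) ^ i) × α → Dv H q i)
    (h1 : ∀ a, Wt_CZW H q i (-g a.1) (y' a)) (h2 : ∀ c, ∑ a, y' (c, a) * y (c, a) = 1)
    (x : Dv H q i) : ∑ a, (p (x * y' a)).1 * y a = x := by
  induction x using wt_ind_CWG3 H with
  | h0 => simp
  | h1 w x hx =>
    obtain ⟨c, rfl⟩ := hg.2 w
    rw [Fintype.sum_prod_type, Finset.sum_eq_single c]
    · conv_rhs => rw [← mul_one x, ← h2 c, Finset.mul_sum]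
      refine Finset.sum_congr rfl fun a _ => ?_
      rw [p1 _ ((hx.mul (h1 (c, a))).cast (add_neg_cancel _)), mul_assoc]
    · intro d _ hd
      refine Finset.sum_eq_zero fun a _ => ?_
      rw [p2 _ _ (fun h => hd (hg.1 (add_neg_eq_zero.1 h)).symm) (hx.mul (h1 (d, a)))]
      simp
    · simp
  | h2 x z hx hz =>
    conv_rhs => rw [← hx, ← hz, ← Finset.sum_add_distrib]
    refine Finset.sum_congr rfl fun a _ => ?_
    rw [add_mul, map_add, Subalgebra.coe_add, add_mul]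

theorem frb_CWG3 [Fintype k] {Q : ℕ} (hk : Fintype.card k = Q) {B : Type} [CommRing B]
    [Algebra k B] (x : B) : frb k B x = x ^ Q := by
  subst hk; rfl

theorem exists_et [Fintype k] (hk : Fintype.card k = q ^ 2) :
    ∃ (s : Type) (_ : Fintype s) (p : Dv H q i →+ Cox H q (q ^ 2) i) (y y' : s → Dv H q i),
      Et (Cox H q (q ^ 2) i).val.toRingHom (frb k _) (frb k _) s p y y' := by
  have : NeZero (1 + q * (q ^ 2) ^ i) := ⟨by omega⟩
  obtain ⟨p, p0, p1, p2⟩ := exists_wt_proj (q := q) (i := i) H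
  choose Y Y' hY hY' hs using exists_wt_unity (q := q) (i := i) H
  have hf : ∀ x : Dv H q i, frb k _ x = x ^ (q ^ 2) := frb_CWG3 hk
  have hf' : ∀ x : Cox H q (q ^ 2) i, frb k _ x = x ^ (q ^ 2) := frb_CWG3 hk
  have hu : IsUnit ((q ^ 2 : ℕ) : ZMod (1 + q * (q ^ 2) ^ i)) := by
    have h0 := ZMod.natCast_self (1 + q * (q ^ 2) ^ i)
    push_cast at h0 ⊢
    refine IsUnit.pow 2 (IsUnit.of_mul_eq_one (-((q : ZMod (1 + q * (q ^ 2) ^ i)) ^ 2) ^ i) ?_)
    linear_combination -h0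
  refine ⟨ZMod (1 + q * (q ^ 2) ^ i) × (Fin m × Fin m), inferInstance, p, fun a => Y a.1 a.2,
    fun a => Y' a.1 a.2, fun c => ?_, p0, ?_, ?_, fun x => ?_⟩
  · rw [hf, hf', map_pow]
  · exact dual_CWG3 H p p1 p2 id bijective_id _ _ (fun a => hY' a.1 a.2) hs
  · refine dual_CWG3 H p p1 p2 (fun c => ((q ^ 2 : ℕ) : ZMod (1 + q * (q ^ 2) ^ i)) * c)
      (IsUnit.isUnit_iff_mulLeft_bijective.1 hu) (fun a => frb k _ (Y a.1 a.2))
      (fun a => frb k _ (Y' a.1 a.2)) (fun a => ?_) fun c => ?_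
    · rw [hf]
      exact (wt_pow_CWG3 H (hY' a.1 a.2) _).cast (mul_neg _ _)
    · simp only [← map_mul]
      rw [← map_sum, hs, map_one]
  · induction x using wt_ind_CWG3 H with
    | h0 => rw [map_zero, map_zero, map_zero]
    | h1 w x hx =>
      have hy := wt_pow_CWG3 H hx (q ^ 2)
      rw [← hf] at hy
      by_cases hw : w = 0
      · subst hw
        refine Subtype.ext ?_
        rw [p1 _ (hy.cast (mul_zero _)), hf, hf', SubmonoidClass.coe_pow, p1 _ hx]
      · rw [p2 _ _ hw hx, map_zero]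
        exact p2 _ _ (fun h => hw (hu.mul_right_eq_zero.1 h)) hy
    | h2 x y hx hy => rw [RingHom.map_add, p.map_add, p.map_add, RingHom.map_add, hx, hy]

end Pool.Agent.CXD
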