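import Pool.Agent.P.MP_2ce3e7_ag.CWJ2

/-! Lattices in exterior products: the second factor. -/

set_option linter.unusedSectionVars false
set_option linter.unusedVariables false

open Function LaurentPolynomial
open scoped TensorProduct

noncomputable section

namespace Pool.Agent.CXD

variable {k A B K σ Γ : Type} [Field k] [CommRing A] [Algebra k A] [CommRing B] [Algebra k B]
  [CommRing K] [Algebra k K] [Fintype σ] [AddCommGroup Γ] {𝒜 : ℤ → Set A} {z : σ → A}
  {θ : A →ₐ[k] A[T;T⁻¹]} [Gd 𝒜] [Gk k 𝒜] {𝒦 : Γ → Set K} [Gd 𝒦] [Gk k 𝒦]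

theorem alg_tmul_CWJ3 (c : k) :
    (algebraMap k K c ⊗ₜ[k] (1 : A)) = (1 : K) ⊗ₜ[k] algebraMap k A c := by
  rw [Algebra.algebraMap_eq_smul_one, Algebra.algebraMap_eq_smul_one, TensorProduct.smul_tmul]

theorem exists_lam_CWJ3 (h : Std 𝒜 z θ) (ψ : A →ₐ[k] B) (N : GM 𝒦) (M : GM (tv B)) :
    ∃ g : (lau (h.ch ψ) M).M →+ N.M →+ (lau (h.chR ψ 𝒦) (gbox k N M)).M,
      (∀ i m n, g (lsg (h.ch ψ) M i m) n = lsg (h.chR ψ 𝒦) (gbox k N M) i (gb k N M n m)) ∧
      (∀ (a : A) (b : K) u n, g (a • u) (b • n) = (b ⊗ₜ[k] a) • g u n) ∧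
      ∀ (s : Γ) (t : ℤ) u n, g ((lau (h.ch ψ) M).π t u) (N.π s n) =
        (lau (h.chR ψ 𝒦) (gbox k N M)).π (s, t) (g u n) := by
  obtain ⟨g, hg⟩ := lau_lift (h := h.ch ψ) (W := M)
    (fun i => ((gb k N M).compr₂ (lsg (h.chR ψ 𝒦) (gbox k N M) i)).flip)
  have h1 : ∀ i m n, g (lsg (h.ch ψ) M i m) n =
      lsg (h.chR ψ 𝒦) (gbox k N M) i (gb k N M n m) := fun i m n => by
    rw [hg]; rfl
  refine ⟨g, h1, fun a b u n => ?_, fun s t u n => ?_⟩
  · induction a using Gd.ind 𝒜 with
    | h0 => rw [zero_smul, map_zero, TensorProduct.tmul_zero, zero_smul]; rfl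
    | h2 a a' ha ha' =>
      rw [add_smul, map_add, AddMonoidHom.add_apply, ha, ha', TensorProduct.tmul_add, add_smul]
    | h3 a ha =>
      rw [neg_smul, map_neg, AddMonoidHom.neg_apply, ha, TensorProduct.tmul_neg, neg_smul]
    | h1 c a ha =>
      induction b using Gd.ind 𝒦 with
      | h0 => rw [zero_smul, map_zero, TensorProduct.zero_tmul, zero_smul]
      | h2 b b' hb hb' => rw [add_smul, map_add, hb, hb', TensorProduct.add_tmul, add_smul]
      | h3 b hb => rw [neg_smul, map_neg, hb, TensorProduct.neg_tmul, neg_smul]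
      | h1 d b hb =>
        induction u using lau_ind with
        | h0 => rw [smul_zero, map_zero, AddMonoidHom.zero_apply, AddMonoidHom.zero_apply, smul_zero]
        | h2 u v hu hv =>
          rw [smul_add, map_add, map_add, AddMonoidHom.add_apply, AddMonoidHom.add_apply, hu, hv,
            smul_add]
        | h1 i e w hw =>
          rw [smul_lsg (mem_cl ha), h1, h1, smul_lsg (tmul_mem_cl (mem_cl hb) (mem_cl ha)),
            mp_tmul, smul_gb]
          rfl
  · induction u using lau_ind with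
    | h0 => rw [map_zero, map_zero, AddMonoidHom.zero_apply, AddMonoidHom.zero_apply, map_zero]
    | h2 u v hu hv =>
      rw [map_add, map_add, map_add, AddMonoidHom.add_apply, AddMonoidHom.add_apply, hu, hv,
        map_add]
    | h1 i e w hw =>
      rw [h1, lau_π, lau_π, h1]
      change lsg _ _ t (gb k N M (N.π s n) (M.π () (lev' (h.ch ψ) M t (lsg (h.ch ψ) M i w)))) =
        lsg _ _ t ((gbox k N M).π (s, ()) (lev' (h.chR ψ 𝒦) (gbox k N M) t
          (lsg (h.chR ψ 𝒦) (gbox k N M) i (gb k N M n w))))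
      by_cases hi : t = i
      · subst hi
        rw [lev_lsg, lev_lsg, gbox_π]
      · rw [lev_lsg_ne hi, lev_lsg_ne hi, map_zero, map_zero, map_zero, map_zero, map_zero]

theorem Std.box_latR (h : Std 𝒜 z θ) (ψ : A →ₐ[k] B) {N : GM 𝒦} {M : GM (tv B)}
    (hN : Module.Finite K N.M) {S : Set A} {L : GM 𝒜}
    {j : L.M →ₗ[A] (lau (h.ch ψ) M).M} (hj : LatG S j) :
    ∃ J : (gbox k N L).M →ₗ[K ⊗[k] A] (lau (h.chR ψ 𝒦) (gbox k N M)).M,
      LatG (inr k K A '' S) J := by
  obtain ⟨g, h1, h2, h3⟩ := exists_lam_CWJ3 h ψ N M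
  obtain ⟨J, hJ⟩ := gbox_lift (k := k) (N := N) (M := L) (g.comp j.toAddMonoidHom).flip
    (fun c n x => by
      change g (j x) (algebraMap k K c • n) = g (j (algebraMap k A c • x)) n
      have e1 := h2 1 (algebraMap k K c) (j x) n
      have e2 := h2 (algebraMap k A c) 1 (j x) n
      rw [one_smul] at e1 e2
      rw [j.map_smul, e1, e2, alg_tmul_CWJ3])
  have hJ' : ∀ n x, J (gb k N L n x) = g (j x) n := hJ
  have hl : ∀ (r : K ⊗[k] A) u, J (r • u) = r • J u := fun r u => by
    induction r using TensorProduct.induction_on with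
    | zero => rw [zero_smul, zero_smul, map_zero]
    | add r r' hr hr' => rw [add_smul, add_smul, map_add, hr, hr']
    | tmul b a =>
      induction u using gbox_ind with
      | h0 => rw [smul_zero, map_zero, smul_zero]
      | h2 u v hu hv => rw [smul_add, map_add, map_add, hu, hv, smul_add]
      | h1 c n d x hn hx => rw [smul_gb, hJ', hJ', j.map_smul, h2]
  obtain ⟨r, hr, hr'⟩ := exists_retr k j hj.inj
  have hG : ∀ i : ℤ, ∃ G : (gbox k N M).M →+ (gbox k N L).M,
      ∀ n m, G (gb k N M n m) = gb k N L n (r (lsg (h.ch ψ) M i m)) := fun i =>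
    gbox_lift (k := k) (N := N) (M := M)
      ((gb k N L).flip.comp (r.comp (lsg (h.ch ψ) M i))).flip (fun c n m => by
        change gb k N L (algebraMap k K c • n) (r (lsg (h.ch ψ) M i m)) =
          gb k N L n (r (lsg (h.ch ψ) M i (algebraMap k B c • m)))
        have e1 := smul_lsg (h := h.ch ψ) (W := M) (mem_cl (Gk.alg (𝒜 := 𝒜) c)) i m
        have e2 : lsg (h.ch ψ) M i (algebraMap k B c • m) =
            algebraMap k A c • lsg (h.ch ψ) M i m := by
          rw [e1, ← ψ.commutes c]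
          exact congrArg (fun t => lsg (h.ch ψ) M t (ψ (algebraMap k A c) • m)) (add_zero i).symm
        have e3 := smul_gb (k := k) (N := N) (M := L) (algebraMap k K c) 1 n
          (r (lsg (h.ch ψ) M i m))
        have e4 := smul_gb (k := k) (N := N) (M := L) 1 (algebraMap k A c) n
          (r (lsg (h.ch ψ) M i m))
        rw [one_smul] at e3 e4
        rw [e2, hr', ← e3, ← e4, alg_tmul_CWJ3])
  choose G hG using hG
  obtain ⟨R, hR⟩ := lau_lift (h := h.chR ψ 𝒦) (W := gbox k N M) G
  have hRg : ∀ u n, R (g u n) = gb k N L n (r u) := fun u n => by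
    induction u using lau_ind with
    | h0 => rw [map_zero, AddMonoidHom.zero_apply, map_zero, map_zero, map_zero]
    | h2 u v hu hv => rw [map_add, AddMonoidHom.add_apply, map_add, hu, hv, map_add, map_add]
    | h1 i e w hw => rw [h1, hR, hG]
  have hRJ : ∀ u, R (J u) = u := fun u => by
    induction u using gbox_ind with
    | h0 => rw [map_zero, map_zero]
    | h2 u v hu hv => rw [map_add, map_add, hu, hv]
    | h1 c n d x hn hx => rw [hJ', hRg, hr]
  refine ⟨⟨⟨J, J.map_add⟩, hl⟩, gbox_finite hN hj.fin, fun γ u => ?_,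
    LeftInverse.injective hRJ, ?_⟩
  · change J ((gbox k N L).π γ u) = (lau (h.chR ψ 𝒦) (gbox k N M)).π γ (J u)
    induction u using gbox_ind with
    | h0 => rw [map_zero, map_zero, map_zero]
    | h2 u v hu hv => rw [map_add, map_add, map_add, map_add, hu, hv]
    | h1 c n d x hn hx => rw [gbox_π, hJ', hJ', hj.gr, h3]
  · rintro _ ⟨f, hf, rfl⟩ y
    change ∃ (n : ℕ) (x : (gbox k N L).M), J x = inr k K A f ^ n • y
    have hadd : ∀ y y' : (lau (h.chR ψ 𝒦) (gbox k N M)).M,
        (∃ (n : ℕ) (x : (gbox k N L).M), J x = inr k K A f ^ n • y) →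
        (∃ (n : ℕ) (x : (gbox k N L).M), J x = inr k K A f ^ n • y') →
        ∃ (n : ℕ) (x : (gbox k N L).M), J x = inr k K A f ^ n • (y + y') := by
      rintro y y' ⟨n, x, hx⟩ ⟨n', x', hx'⟩
      refine ⟨n + n', inr k K A f ^ n' • x + inr k K A f ^ n • x', ?_⟩
      rw [map_add, hl, hl, hx, hx', smul_smul, smul_smul, smul_add, ← pow_add, ← pow_add,
        add_comm n' n]
    induction y using lau_ind with
    | h0 => exact ⟨0, 0, by rw [map_zero, smul_zero]⟩
    | h2 u v hu hv => exact hadd u v hu hv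
    | h1 i e w hw =>
      clear hw
      induction w using gbox_ind with
      | h0 => exact ⟨0, 0, by rw [map_zero, map_zero, smul_zero]⟩
      | h2 u v hu hv => rw [map_add]; exact hadd _ _ hu hv
      | h1 c n d m hn hm =>
        obtain ⟨p, x, hx⟩ := hj.den f hf (lsg (h.ch ψ) M i m)
        have e1 := h2 (f ^ p) 1 (lsg (h.ch ψ) M i m) n
        rw [one_smul] at e1
        refine ⟨p, gb k N L n x, ?_⟩
        rw [hJ', hx, e1, h1, ← map_pow]
        rfl

end Pool.Agent.CXD
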