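import Pool.Agent.P.MP_2ce3e7_ag.CWS2

/-! The direct image of an exterior product, continued. -/

set_option linter.unusedSectionVars false
set_option linter.unusedVariables false

open Function Filter LaurentPolynomial
open scoped TensorProduct

noncomputable section

namespace Pool.Agent.CXD

variable {k A B σ Γ : Type} [Field k] [CommRing A] [Algebra k A] [CommRing B] [Algebra k B]
  [Fintype σ] [AddCommGroup Γ] {𝒜 : ℤ → Set A} {z : σ → A} {θ : A →ₐ[k] A[T;T⁻¹]} [Gd 𝒜]
  {ℬ : Γ → Set B} [Gd ℬ] [Gk k 𝒜] [Gk k ℬ]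

theorem inl_gb_CWS3 {N : GM 𝒜} {M : GM ℬ} (a : A) (y : N.M) (m : M.M) :
    inl k A B a • gb k N M y m = gb k N M (a • y) m :=
  (smul_gb a 1 y m).trans (by rw [one_smul])

theorem inr_gb_CWS3 {N : GM 𝒜} {M : GM ℬ} (b : B) (y : N.M) (m : M.M) :
    inr k A B b • gb k N M y m = gb k N M y (b • m) :=
  (smul_gb 1 b y m).trans (by rw [one_smul])

theorem alg_gb_CWS3 {N : GM 𝒜} {M : GM ℬ} (c : k) (y : N.M) (m : M.M) :
    gb k N M (algebraMap k A c • y) m = gb k N M y (algebraMap k B c • m) := by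
  rw [← inl_gb_CWS3, ← inr_gb_CWS3]
  exact congrArg (fun a : A ⊗[k] B => a • gb k N M y m)
    (Algebra.TensorProduct.tmul_one_eq_one_tmul c)

theorem exists_assoc (N V : GM 𝒜) (M : GM ℬ) :
    ∃ ω : N.M ⊗[A] V.M →+ M.M →+ (tens (hm_inl (k := k)) V (gbox k N M)).M,
      ∀ y v m, ω (y ⊗ₜ v) m = tt hm_inl V (gbox k N M) (gb k N M y m) v := by
  let F : N.M →+ V.M →+ M.M →+ (tens (hm_inl (k := k)) V (gbox k N M)).M :=
    AddMonoidHom.mk' (fun y => ((tt hm_inl V (gbox k N M)).comp (gb k N M y)).flip)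
      fun y y' => AddMonoidHom.ext fun v => AddMonoidHom.ext fun m => by
        show tt hm_inl V (gbox k N M) (gb k N M (y + y') m) v =
          tt hm_inl V (gbox k N M) (gb k N M y m) v + tt hm_inl V (gbox k N M) (gb k N M y' m) v
        rw [map_add, AddMonoidHom.add_apply, map_add, AddMonoidHom.add_apply]
  refine ⟨TensorProduct.liftAddHom (R := A) F fun a y v => AddMonoidHom.ext fun m => ?_,
    fun _ _ _ => rfl⟩
  show tt hm_inl V (gbox k N M) (gb k N M (a • y) m) v =
    tt hm_inl V (gbox k N M) (gb k N M y m) (a • v)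
  rw [← tt_bal, inl_gb_CWS3]

theorem exists_contr (N V : GM 𝒜) (M : GM ℬ) (ξ : N.M ⊗[A] V.M →+ k)
    (hξ : ∀ c x, ξ (algebraMap k A c • x) = c * ξ x) :
    ∃ ρ : (tens (hm_inl (k := k)) V (gbox k N M)).M →+ M.M,
      ∀ y v m, ρ (tt hm_inl V (gbox k N M) (gb k N M y m) v) = algebraMap k B (ξ (y ⊗ₜ v)) • m := by
  let G : N.M →+ M.M →+ V.M →+ M.M :=
    AddMonoidHom.mk' (fun y => AddMonoidHom.mk' (fun m =>
      AddMonoidHom.mk' (fun v => algebraMap k B (ξ (y ⊗ₜ v)) • m) fun v v' => by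
        rw [TensorProduct.tmul_add, map_add, map_add, add_smul])
      fun m m' => AddMonoidHom.ext fun v => smul_add _ m m')
      fun y y' => AddMonoidHom.ext fun m => AddMonoidHom.ext fun v => by
        show algebraMap k B (ξ ((y + y') ⊗ₜ v)) • m =
          algebraMap k B (ξ (y ⊗ₜ v)) • m + algebraMap k B (ξ (y' ⊗ₜ v)) • m
        rw [TensorProduct.add_tmul, map_add, map_add, add_smul]
  have hG : ∀ y m v, G y m v = algebraMap k B (ξ (y ⊗ₜ v)) • m := fun _ _ _ => rfl
  obtain ⟨g, hg⟩ := gbox_lift (k := k) G fun c y m => AddMonoidHom.ext fun v => by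
    rw [hG, hG, ← TensorProduct.smul_tmul', hξ, map_mul, mul_comm, mul_smul]
  obtain ⟨ρ, hρ⟩ := tens_lift (h := hm_inl (k := k)) (V := V) (Y := gbox k N M) g fun a w v => by
    induction w using gbox_ind with
    | h0 => rw [smul_zero, map_zero, AddMonoidHom.zero_apply, AddMonoidHom.zero_apply]
    | h1 c y d m _ _ => rw [inl_gb_CWS3, hg, hg, hG, hG, TensorProduct.smul_tmul]
    | h2 u u' hu hu' =>
      rw [smul_add, map_add, map_add, AddMonoidHom.add_apply, AddMonoidHom.add_apply, hu, hu']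
  exact ⟨ρ, fun y v m => by rw [hρ, hg, hG]⟩

theorem Std.isRes_box (h : Std 𝒜 z θ) {N V : GM 𝒜} (hN : Module.Finite A N.M)
    (hV : Module.Finite A V.M) (M : GM ℬ) (t : ℤ) :
    ∃ j : (M.pi (dimK k A (tpc N V t))).M →+ (tens (hm_inl (k := k)) V (gbox k N M)).M,
      IsRes (inr k A B) (fun c => (t, c)) (M.pi (dimK k A (tpc N V t)))
        (tens hm_inl V (gbox k N M)) j := by
  obtain ⟨ι, _, E, hE⟩ := h.fin_tpc hN hV t
  obtain ⟨u, ξ, hu, hξ, hd, hx⟩ := exists_dual_basis k A hE fun c x hx => by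
    obtain ⟨a, y, v, rfl⟩ := hx
    refine ⟨a, algebraMap k A c • y, v, ?_⟩
    rw [TensorProduct.smul_tmul', ← N.π_smul 0 a _ (Gk.alg c), zero_add]
  obtain ⟨ω, hω⟩ := exists_assoc (k := k) N V M
  choose ρ hρ using fun i => exists_contr N V M (ξ i) (hξ i)
  have h1 : ∀ i x m, ρ i (ω x m) = algebraMap k B (ξ i x) • m := fun i x m => by
    induction x using TensorProduct.induction_on with
    | zero => rw [map_zero, AddMonoidHom.zero_apply, map_zero, map_zero, map_zero, zero_smul]
    | tmul y v => rw [hω, hρ]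
    | add x x' a b =>
      rw [map_add, AddMonoidHom.add_apply, map_add, a, b, map_add, map_add, add_smul]
  have h2 : ∀ (b : B) x m, ω x (b • m) = inr k A B b • ω x m := fun b x m => by
    induction x using TensorProduct.induction_on with
    | zero => rw [map_zero, AddMonoidHom.zero_apply, AddMonoidHom.zero_apply, smul_zero]
    | tmul y v => rw [hω, hω, tt_smul, inr_gb_CWS3]
    | add x x' a b =>
      rw [map_add, AddMonoidHom.add_apply, AddMonoidHom.add_apply, a, b, smul_add]
  have h3 : ∀ (c : k) x m, ω (algebraMap k A c • x) m = ω x (algebraMap k B c • m) :=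
    fun c x m => by
    induction x using TensorProduct.induction_on with
    | zero => rw [smul_zero, map_zero, AddMonoidHom.zero_apply, AddMonoidHom.zero_apply]
    | tmul y v => rw [TensorProduct.smul_tmul', hω, hω, alg_gb_CWS3]
    | add x x' a b =>
      rw [smul_add, map_add, map_add, AddMonoidHom.add_apply, AddMonoidHom.add_apply, a, b]
  have h4 : ∀ (c : Γ) (e : ℤ) y v m, V.π e v = v →
      (tens (hm_inl (k := k)) V (gbox k N M)).π (t, c) (tt hm_inl V (gbox k N M) (gb k N M y m) v) =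
        ω (N.π (t - e) y ⊗ₜ v) (M.π c m) := fun c e y v m hv => by
    rw [tens_π _ _ hv, gbox_π, hω]
    simp only [AddMonoidHom.inl_apply, Prod.mk_sub_mk, sub_zero]
  have h5 : ∀ (c : Γ) m, ∀ x ∈ AddSubgroup.closure (tpc N V t),
      ω x (M.π c m) = (tens (hm_inl (k := k)) V (gbox k N M)).π (t, c) (ω x m) := fun c m x hx => by
    induction hx using AddSubgroup.closure_induction with
    | mem x hx =>
      obtain ⟨a, y, v, rfl⟩ := hx
      rw [hω _ _ m, h4 c (t - a) _ _ _ (V.π_self _ _), sub_sub_cancel, N.π_self]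
    | zero => rw [map_zero, AddMonoidHom.zero_apply, AddMonoidHom.zero_apply, map_zero]
    | add x x' _ _ a b =>
      rw [map_add, AddMonoidHom.add_apply, AddMonoidHom.add_apply, map_add, a, b]
    | neg x _ a => rw [map_neg, AddMonoidHom.neg_apply, AddMonoidHom.neg_apply, map_neg, a]
  let j : (Fin (dimK k A (tpc N V t)) → M.M) →+ (tens (hm_inl (k := k)) V (gbox k N M)).M :=
    AddMonoidHom.mk' (fun m => ∑ i, ω (u i) (m i)) fun m m' => by
      rw [← Finset.sum_add_distrib]
      exact Finset.sum_congr rfl fun i _ => map_add _ _ _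
  have hj : ∀ m, j m = ∑ i, ω (u i) (m i) := fun _ => rfl
  have h6 : ∀ i m, ρ i (j m) = m i := fun i m => by
    rw [hj, map_sum, Finset.sum_eq_single i]
    · rw [h1, hd, if_pos rfl, map_one, one_smul]
    · intro l _ hl
      rw [h1, hd, if_neg hl.symm, map_zero, zero_smul]
    · exact fun hi => absurd (Finset.mem_univ i) hi
  refine ⟨j, fun m m' e => funext fun i => ?_, fun b m => ?_, fun c m => ?_, fun c x => ?_⟩
  · exact (h6 i m).symm.trans ((congrArg (ρ i) e).trans (h6 i m'))
  · rw [hj, hj, Finset.smul_sum]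
    exact Finset.sum_congr rfl fun i _ => h2 b (u i) (m i)
  · rw [hj, hj, map_sum]
    exact Finset.sum_congr rfl fun i _ => h5 c (m i) (u i) (hu i)
  · induction x using tens_ind with
    | h0 => exact ⟨0, by rw [map_zero, map_zero]⟩
    | h1 γ w e v hw hv =>
      clear hw
      induction w using gbox_ind with
      | h0 => exact ⟨0, by rw [map_zero, map_zero, AddMonoidHom.zero_apply, map_zero]⟩
      | h1 c' y d m _ _ =>
        have h7 : N.π (t - e) y ⊗ₜ[A] v ∈ tpc N V t :=
          ⟨t - e, y, v, by rw [sub_sub_cancel, hv]⟩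
        refine ⟨fun i => algebraMap k B (ξ i (N.π (t - e) y ⊗ₜ[A] v)) • M.π c m, ?_⟩
        rw [h4 c e y v m hv, hj]
        refine Eq.trans ?_ (congrArg (fun x => ω x (M.π c m)) (hx _ h7)).symm
        rw [map_sum, AddMonoidHom.finsetSum_apply]
        exact Finset.sum_congr rfl fun i _ => (h3 _ _ _).symm
      | h2 w w' a b =>
        obtain ⟨m, hm⟩ := a
        obtain ⟨m', hm'⟩ := b
        exact ⟨m + m', by rw [map_add, hm, hm', map_add, AddMonoidHom.add_apply, map_add]⟩
    | h2 x x' a b =>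
      obtain ⟨m, hm⟩ := a
      obtain ⟨m', hm'⟩ := b
      exact ⟨m + m', by rw [map_add, hm, hm', map_add]⟩

theorem Std.sv_box [IsNoetherianRing B] [IsNoetherianRing (A ⊗[k] B)] (h : Std 𝒜 z θ)
    {l : GM ℬ → ℚ} (hl : GAdd l) {N V : GM 𝒜} (hN : Module.Finite A N.M)
    (hV : Module.Finite A V.M) {M : GM ℬ} (hM : Module.Finite B M.M) :
    sv l (tens (hm_inl (k := k)) V (gbox k N M)) = pair k N V * l M := by
  have key : (fun t => l (slc t (tens (hm_inl (k := k)) V (gbox k N M)))) =
      fun t => (dimK k A (tpc N V t) : ℚ) * l M := funext fun t => by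
    obtain ⟨j, hj⟩ := isRes_slc t (tens (hm_inl (k := k)) V (gbox k N M))
    obtain ⟨j', hj'⟩ := h.isRes_box hN hV M t
    rw [hj.val hl hj' inferInstance, hl.pi hM]
  have hp := h.sv_pf hl (tens_finite (h := hm_inl (k := k)) hV (gbox_finite hN hM))
  rw [key] at hp
  rw [sv, key]
  exact ev0_mul hp

end Pool.Agent.CXD
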