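import Pool.Agent.P.MP_2ce3e7_ag.CWK
import Pool.Agent.P.MP_2ce3e7_ag.CWM2
import Pool.Agent.P.MP_2ce3e7_ag.CWS3
import Pool.Agent.P.MP_2ce3e7_ag.CWL2
import Pool.Agent.P.MP_2ce3e7_ag.CWI2

/-! Numerically trivial classes are torsion. -/

set_option linter.unusedSectionVars false
set_option linter.unusedVariables false

open Function LaurentPolynomial
open scoped TensorProduct

noncomputable section

namespace Pool.Agent.CXD

variable {k A σ : Type} [Field k] [Fintype k] [CommRing A] [Algebra k A] [Fintype σ]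
  {𝒜 : ℤ → Set A} {z : σ → A} {θ : A →ₐ[k] A[T;T⁻¹]} [Gd 𝒜] [Gk k 𝒜] {r Q : ℕ}

theorem vb_lin {x : FreeAbelianGroup (FGM 𝒜)} (hx : x ∈ vb 𝒜 z) {f g₁ g₂ : FGM 𝒜 → ℚ} {s t : ℚ}
    (h : ∀ V : FGM 𝒜, LF z V.1 → f V = s * g₁ V + t * g₂ V) :
    FreeAbelianGroup.lift f x = s * FreeAbelianGroup.lift g₁ x + t * FreeAbelianGroup.lift g₂ x := by
  induction hx using AddSubgroup.closure_induction with
  | mem y hy =>
    obtain ⟨V, hV, rfl⟩ := hy
    simpa using h V hV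
  | zero => simp
  | add a b _ _ ha hb => simp only [map_add, ha, hb]; ring
  | neg a _ ha => simp only [map_neg, ha]; ring

variable (k) in
/-- the action of a correspondence on a vector bundle -/
def cor (l : GM 𝒜 → ℚ) (V : GM 𝒜) (Y : GM (tg k 𝒜 𝒜)) : ℚ := sv l (tens hm_inl V Y)

variable [IsNoetherianRing A] [IsNoetherianRing (A ⊗[k] A)] {l : GM 𝒜 → ℚ} {V : GM 𝒜}

theorem Std.cor_add (h : Std 𝒜 z θ) (hl : GAdd l) (hV : Module.Finite A V.M) (hf : LF z V) :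
    GAdd (cor k l V) := fun Y₁ Y₂ Y₃ hY hs => by
  obtain ⟨F, G, hF, hG, h1, h2, h3⟩ := tens_ses (hm_inl (k := k)) V hf hs
  obtain ⟨f, -, -, -, hi, -⟩ := hs
  have hY₁ := tens_finite (h := hm_inl (k := k)) hV (Module.Finite.of_injective f hi)
  have h4 := (h.sv_add hl).right hY₁ (tens_finite hV hY) hF hG h1 h2
  rw [h.sv_left hl (GM.sub _ _ hF.ker) inferInstance kill_bot h3, add_zero] at h4
  exact h4

theorem Std.cor_ver (h : Std 𝒜 z θ) (hl : GAdd l) (hV : Module.Finite A V.M)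
    {Y : GM (tg k 𝒜 𝒜)} (hY : Module.Finite (A ⊗[k] A) Y.M) :
    cor k l V (verF k 𝒜 𝒜 Y) = cor k (fun M => l (res (hm_frb (k := k) card_smul_eq_zero) 0 M)) V Y := by
  have := h.finiteType
  have hF : Hm (Fr k A A) (tg k 𝒜 𝒜) (tg k 𝒜 𝒜) (mu ℤ ℤ (Fintype.card k)) :=
    hm_Fr card_smul_eq_zero
  have hf := tens_finite (h := hm_inl (k := k)) hV hY
  obtain ⟨j, hj⟩ := isRes_ver hF Y
  obtain ⟨J, hJ⟩ := tens_res (hm_inl (k := k)) V hF
    (fun a => (Fr_tmul _ _).trans (by rw [one_pow]; rfl)) (fun c => by simp [mu_apply]) hj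
  obtain ⟨J', hJ'⟩ := isRes_ver hF (tens hm_inl V Y)
  exact (hJ.val (h.sv_add hl) hJ' (res_finite hF (Fr_finite k A A) _ hf)).trans
    (h.sv_ver hl _ hF hf)

theorem Std.numTors (h : Std 𝒜 z θ)
    (hT : ∀ (K : Type) [CommRing K] [Algebra k K] [IsNoetherianRing K], TG k K 𝒜 z r Q) :
    NumTors k 𝒜 z := fun x hx h0 => by
  have := h.finiteType
  have hφ : Hm (frb k A) 𝒜 𝒜 (Fintype.card k • AddMonoidHom.id ℤ) := hm_frb card_smul_eq_zero
  have hX := h.famG hφ r Q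
  have hfin := res_finite hφ (frobAlg_finite k A)
  let Θ : (GM 𝒜 → ℚ) → GM (tg k 𝒜 𝒜) → ℚ := fun l Y =>
    FreeAbelianGroup.lift (fun V : FGM 𝒜 => cor k l V.1 Y) x
  have hzero : ∀ f : FGM 𝒜 → ℚ, (∀ V : FGM 𝒜, LF z V.1 → f V = 0) →
      FreeAbelianGroup.lift f x = 0 := fun f hf => by
    simpa using vb_lin hx (g₁ := f) (g₂ := f) (s := 0) (t := 0) (by simpa using hf)
  have hF : FamG (verF k 𝒜 𝒜) r (Fintype.card k) (Θ '' {l | GAdd l ∧ VnG ⊥ (Set.range z) l}) :=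
    hX.map Θ (fun l hl l₁ hl₁ s t H W hW => vb_lin hx fun V _ => by
        rw [h.cor_ver hl₁.1 V.2 hW]
        exact h.sv_lin (hl₁.1.res hφ 0 hfin) hl₁.1 H (tens_finite V.2 hW))
      (fun l hl l₁ hl₁ s H W hW => by
        refine (vb_lin hx (s := s) (t := 0) (g₁ := fun V => cor k l₁ V.1 W) (g₂ := fun _ => 0)
          fun V _ => ?_).trans (by simp [Θ])
        rw [h.cor_ver hl.1 V.2 hW]
        refine (h.sv_lin hl₁.1 hl₁.1 (s := s) (t := 0) (by simpa using H)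
          (tens_finite V.2 hW)).trans (by simp [cor]))
      fun l hl Y₁ Y₂ Y₃ hY hs => by
        simpa using vb_lin hx (s := 1) (t := 1) fun V hV => by
          simpa using h.cor_add hl.1 V.2 hV Y₁ Y₂ Y₃ hY hs
  have key := h.tg2 hT hF (by
      rintro _ ⟨l, hl, rfl⟩ N M hN hM
      refine (vb_lin hx (s := l M) (t := 0) (g₁ := fun V => pair k N V.1) (g₂ := fun _ => 0)
        fun V _ => ?_).trans (by rw [h0 ⟨N, hN⟩]; simp)
      rw [cor, h.sv_box hl.1 hN V.2 hM]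
      ring)
    (by
      rintro _ ⟨l, hl, rfl⟩ Y hY - hn
      exact hzero _ fun V _ => h.sv_left hl.1 _ (tens_finite V.2 hY) kill_bot (tens_nil hn))
    (by
      rintro _ ⟨l, hl, rfl⟩ Y hY - hn
      exact hzero _ fun V _ => h.sv_right hl.2 _ (tens_finite V.2 hY) kill_bot (tens_nil hn))
  obtain ⟨Δ, δ, hd⟩ := h.exists_dg
  refine exists_form (fun M hM hn => h.tors hM hn) x fun l h1 h2 => ?_
  refine Eq.trans ?_ (key _ ⟨l, ⟨h1, h2⟩, rfl⟩ Δ hd.finite)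
  exact congrArg (fun f => FreeAbelianGroup.lift f x)
    (funext fun V => (h.sv_dg hd h1 h2 V.2).symm)

end Pool.Agent.CXD
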