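import Pool.Agent.P.MP_2ce3e7_ag.CXA3

/-! Euler characteristics and restriction of scalars. -/

set_option linter.unusedSectionVars false
set_option linter.unusedVariables false

open Function

noncomputable section

namespace Pool.Agent.CXD

variable {A A' : Type} [CommRing A] [CommRing A']

theorem rho_eq_CYA2 [IsNoetherianRing A] {c : Val A} {b : Ideal A} {x : A}
    (hc : IsAdd c (b ⊔ Ideal.span {x})) (M N P : Type) [AddCommGroup M] [Module A M]
    [AddCommGroup N] [Module A N] [AddCommGroup P] [Module A P] [Module.Finite A M]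
    (kM : Kill b M) (g : M →ₗ[A] N) (hg : Surjective g) (eg : ∀ y, g y = 0 ↔ ∃ z, x • z = y)
    (f : P →ₗ[A] M) (hf : Injective f) (ef : ∀ y, (∃ z, f z = y) ↔ x • y = 0) :
    c.val N - c.val P = (rho x c).val M := by
  have eg' : LinearMap.ker g = LinearMap.range (LinearMap.lsmul A M x) := Submodule.ext eg
  have ef' : LinearMap.range f = LinearMap.ker (LinearMap.lsmul A M x) := Submodule.ext ef
  rw [hc.congr ((g.quotKerEquivOfSurjective hg).symm.trans
    (Submodule.quotEquivOfEq _ _ eg')) (quot_CXA2 x kM),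
    hc.congr ((LinearEquiv.ofInjective f hf).trans (LinearEquiv.ofEq _ _ ef')) (ker_CXA2 x kM)]
  rfl

theorem rho_aux_CYA2 [IsNoetherianRing A] (ψ : A →+* A') (hψ : ψ.Finite) {c : Val A}
    {b : Ideal A} {x : A} (hc : IsAdd c (b ⊔ Ideal.span {x})) (M N P : Type) [AddCommGroup M]
    [Module A' M] [AddCommGroup N] [Module A' N] [AddCommGroup P] [Module A' P]
    [Module.Finite A' M] (hk : ∀ z ∈ b, ∀ y : M, ψ z • y = 0)
    (g : M →ₗ[A'] N) (hg : Surjective g) (eg : ∀ y, g y = 0 ↔ ∃ z, ψ x • z = y)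
    (f : P →ₗ[A'] M) (hf : Injective f) (ef : ∀ y, (∃ z, f z = y) ↔ ψ x • y = 0) :
    (push ψ c).val N - (push ψ c).val P = (push ψ (rho x c)).val M := by
  let : Module A M := Module.compHom M ψ
  let : Module A N := Module.compHom N ψ
  let : Module A P := Module.compHom P ψ
  have := finite_compHom ψ hψ M
  exact rho_eq_CYA2 hc M N P hk ⟨g.toAddHom, fun b y => g.map_smul (ψ b) y⟩ hg eg
    ⟨f.toAddHom, fun b y => f.map_smul (ψ b) y⟩ hf ef

theorem rho_push_CYA2 [IsNoetherianRing A] (ψ : A →+* A') (hψ : ψ.Finite) {c : Val A}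
    {b : Ideal A} {x : A} (hc : IsAdd c (b ⊔ Ideal.span {x})) (M : Type) [AddCommGroup M]
    [Module A' M] [Module.Finite A' M] (hk : ∀ z ∈ b, ∀ y : M, ψ z • y = 0) :
    (rho (ψ x) (push ψ c)).val M = (push ψ (rho x c)).val M :=
  rho_aux_CYA2 ψ hψ hc M _ _ hk (Submodule.mkQ (LinearMap.range (LinearMap.lsmul A' M (ψ x))))
    (Submodule.mkQ_surjective _) (fun y => Submodule.Quotient.mk_eq_zero _)
    (Submodule.subtype (LinearMap.ker (LinearMap.lsmul A' M (ψ x))))
    (Submodule.injective_subtype _)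
    fun y => ⟨by rintro ⟨z, rfl⟩; exact z.2, fun h => ⟨⟨y, h⟩, rfl⟩⟩

/-- the Euler characteristic commutes with restriction of scalars -/
theorem Eu_push [IsNoetherianRing A] [IsNoetherianRing A'] (ψ : A →+* A') (hψ : ψ.Finite)
    {χ : Val A} {a : ℕ → A} (l m : ℕ) (hχ : IsAdd χ (lev a (l + m))) (M : Type) [AddCommGroup M]
    [Module A' M] [Module.Finite A' M] (hk : Kill (lev (fun j => ψ (a j)) l) M) :
    (Eu (push ψ χ) (fun j => ψ (a j)) l m).val M = (push ψ (Eu χ a l m)).val M := by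
  induction m generalizing l M with
  | zero => rfl
  | succ m ih =>
    have h1 : IsAdd χ (lev a (l + 1 + m)) := by rwa [add_right_comm, add_assoc]
    have h2 := isAdd_Eu (l + 1) m h1
    rw [lev_succ] at h2
    have h3 : lev a l ≤ (lev (fun j => ψ (a j)) l).comap ψ :=
      lev_le.2 fun j hj => lev_le.1 le_rfl j hj
    refine Eq.trans ?_ (rho_push_CYA2 ψ hψ h2 M fun z hz y => hk _ (h3 hz) y)
    exact congrArg₂ (· - ·)
      (ih (l + 1) h1 _ (by rw [lev_succ]; exact quot_CXA2 _ hk))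
      (ih (l + 1) h1 _ (by rw [lev_succ]; exact ker_CXA2 _ hk))

end Pool.Agent.CXD
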