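import Pool.Agent.P.MP_2ce3e7_ag.CYC

attribute [local instance] Pool.Agent.CXD.instAddCommGroupRs Pool.Agent.CXD.instModuleRs
  Pool.Agent.CXD.instModuleRs_1 Pool.Agent.CXD.instIsScalarTowerRs
  Pool.Agent.CXD.instSMulCommClassRs Pool.Agent.CXD.instAddCommGroupBox
  Pool.Agent.CXD.instModuleTensorProductBox Pool.Agent.CXD.finite_box

/-! Euler characteristics of exterior products. -/

set_option linter.unusedSectionVars false
set_option linter.unusedVariables false

open Function
open scoped TensorProduct

noncomputable section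

namespace Pool.Agent.CXD

variable {k K B : Type} [Field k] [CommRing K] [Algebra k K] [CommRing B] [Algebra k B]
  {χ : Val (K ⊗[k] B)} {N M : Type} [AddCommGroup N] [Module K N] [AddCommGroup M] [Module B M]

theorem lev_map_CYC3 (a : ℕ → B) (l : ℕ) :
    lev (fun j => inr k K B (a j)) l = (lev a l).map (inr k K B) := by
  rw [lev, lev, Ideal.map_span, Set.image_image]

theorem lsmul_bt_CYC3 (b : B) (x : N) (y : M) :
    LinearMap.lsmul (K ⊗[k] B) (Box k K B N M) (inr k K B b) (bt k K B x y) =
      bt k K B x (LinearMap.lsmul B M b y) := by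
  have h := smul_bt (k := k) (K := K) (B := B) (1 : K) b x y
  rw [one_smul] at h
  exact h

theorem Eu_box [IsNoetherianRing B] [IsNoetherianRing (K ⊗[k] B)] [Module.Finite K N] {a : ℕ → B}
    (l m : ℕ) (hχ : IsAdd χ (lev (fun j => inr k K B (a j)) (l + m)))
    (h0 : ∀ (M : Type) [AddCommGroup M] [Module B M] [Module.Finite B M], Kill (lev a (l + m)) M →
      χ.val (Box k K B N M) = 0) [Module.Finite B M] (hk : Kill (lev a l) M) :
    (Eu χ (fun j => inr k K B (a j)) l m).val (Box k K B N M) = 0 := by
  induction m generalizing l M with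
  | zero => exact h0 M hk
  | succ m ih =>
    have e : l + (m + 1) = l + 1 + m := by omega
    rw [e] at hχ h0
    have hc : IsAdd (Eu χ (fun j => inr k K B (a j)) (l + 1) m)
        (lev (fun j => inr k K B (a j)) l ⊔ Ideal.span {inr k K B (a l)}) := by
      have := isAdd_Eu (l + 1) m hχ
      rwa [lev_succ] at this
    have hr : IsAdd (bx k N (rho (inr k K B (a l)) (Eu χ (fun j => inr k K B (a j)) (l + 1) m)))
        (lev a l) := by
      refine isAdd_bx ?_
      rw [← lev_map_CYC3]
      exact isAdd_rho hc
    refine val_of_primes hr M hk fun P hP hMP => ?_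
    have hlP : lev a l ≤ P := (kill_iff.1 hk).trans hMP
    have kP : Kill (lev a l) (B ⧸ P) := kill_quot hlP
    change (rho (inr k K B (a l)) (Eu χ (fun j => inr k K B (a j)) (l + 1) m)).val
      (Box k K B N (B ⧸ P)) = 0
    by_cases haP : a l ∈ P
    · refine rho_zero hc ?_
      have h1 : Kill (lev a (l + 1)) (B ⧸ P) := by
        refine kill_quot ?_
        rw [lev_succ]
        exact sup_le hlP ((Ideal.span_singleton_le_iff_mem _).2 haP)
      have h2 := kill_box (k := k) (K := K) (N := N) h1
      rwa [← lev_map_CYC3, lev_succ] at h2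
    · have hinj : Injective (LinearMap.lsmul B (B ⧸ P) (a l)) := by
        rw [injective_iff_map_eq_zero]
        intro y hy
        obtain ⟨y, rfl⟩ := Ideal.Quotient.mk_surjective y
        have h1 : Ideal.Quotient.mk P (a l * y) = 0 := hy
        rw [Ideal.Quotient.eq_zero_iff_mem] at h1 ⊢
        exact (hP.mem_or_mem h1).resolve_left haP
      obtain ⟨G, hG⟩ := exists_box_lin (k := k) (K := K) (N := N)
        (LinearMap.range (LinearMap.lsmul B (B ⧸ P) (a l))).mkQ
      obtain ⟨h1, h2, h3⟩ := box_exact (lsmul_bt_CYC3 (k := k) (K := K) (N := N) (a l)) hG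
      have kB : Kill (lev (fun j => inr k K B (a j)) l) (Box k K B N (B ⧸ P)) := by
        rw [lev_map_CYC3]
        exact kill_box kP
      rw [rho_reg hc kB (fun y hy => (injective_iff_map_eq_zero _).1 (h1 hinj) y hy) G
        (h2 (Submodule.mkQ_surjective _))
        (fun y => h3 (LinearMap.exact_map_mkQ_range _) y)]
      refine ih (l + 1) hχ h0 ?_
      rw [lev_succ]
      exact quot_CXA2 (a l) kP

end Pool.Agent.CXD
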