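import Pool.Agent.P.MP_2ce3e7_ag.CYD2
import Pool.Agent.P.MP_2ce3e7_ag.CYC3
import Pool.Agent.P.MP_2ce3e7_ag.CYA2

attribute [local instance] Pool.Agent.CXD.instAddCommGroupRs Pool.Agent.CXD.instModuleRs
  Pool.Agent.CXD.instModuleRs_1 Pool.Agent.CXD.instIsScalarTowerRs
  Pool.Agent.CXD.instSMulCommClassRs Pool.Agent.CXD.instAddCommGroupBox
  Pool.Agent.CXD.instModuleTensorProductBox Pool.Agent.CXD.finite_box

/-! The property `TT` for the Coxeter variety. -/

set_option linter.unusedSectionVars false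
set_option linter.unusedVariables false

open MvPolynomial
open scoped TensorProduct

noncomputable section

namespace Pool.Agent.CXD

variable {k K : Type} [Field k] [CommRing K] [Algebra k K] [IsNoetherianRing K]
  {n p r Q κ δ ex : ℕ} {G : Matrix (Fin n) (Fin n) k} {η : k}

theorem h0_box {e : K ⊗[k] Cox G r Q κ ≃+* Cox (G.map (algebraMap k K)) r Q κ} (he : IsCan e)
    {χ : Val (K ⊗[k] Cox G r Q κ)} (hχ : IsAdd χ ⊥) (hE : Ext1 k K _ χ) {l m : ℕ}
    (hl : l + m = κ + 1) (h0 : lev (eqn G r Q κ) l = ⊥)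
    (h0' : lev (eqn (G.map (algebraMap k K)) r Q κ) l = ⊥) (N : Type) [AddCommGroup N] [Module K N]
    [Module.Finite K N] :
    (Eu (tl (push e.toRingHom χ)) (eqn (G.map (algebraMap k K)) r Q κ) l m).val
      (Po n K ⊗[K] N) = 0 := by
  obtain ⟨u, hu⟩ := exists_po (k := k) (K := K) (n := n)
  have := noeth_tensor' k K (Po n k)
  have hf : u.toRingHom.Finite := RingHom.Finite.of_surjective _ u.surjective
  have hc : IsAdd (tl (push e.toRingHom χ)) (lev (eqn (G.map (algebraMap k K)) r Q κ) (l + m)) := by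
    rw [hl]
    exact tl_add (isAdd_push _ (RingHom.Finite.of_surjective _ e.surjective) hχ bot_le)
  have hfun : (fun j => u.toRingHom (eqn (G.map (algebraMap k K)) r Q κ j)) =
      fun j => inr k K (Po n k) (eqn G r Q κ j) := funext fun j => hu.eqn j
  have ht : IsAdd (push u.toRingHom (tl (push e.toRingHom χ)))
      (lev (fun j => inr k K (Po n k) (eqn G r Q κ j)) (l + m)) := by
    refine isAdd_push _ hf hc (lev_le.2 fun j hj => ?_)
    rw [Ideal.mem_comap, hu.eqn]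
    exact Ideal.subset_span ⟨j, hj, rfl⟩
  have h1 := Eu_box (N := N) (M := Po n k) l m ht
    (fun M _ _ _ hk => tl_box he hu hχ hE N M (by rw [hl] at hk; exact hk)) (h0 ▸ kill_bot)
  have hk : Kill (lev (fun j => u.toRingHom (eqn (G.map (algebraMap k K)) r Q κ j)) l)
      (Box k K (Po n k) N (Po n k)) := by
    refine kill_bot.mono (lev_le.2 fun j hj => ?_)
    have : eqn (G.map (algebraMap k K)) r Q κ j ∈ lev (eqn (G.map (algebraMap k K)) r Q κ) l :=
      Ideal.subset_span ⟨j, hj, rfl⟩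
    rw [h0', Ideal.mem_bot] at this
    rw [this, map_zero]
    exact Ideal.zero_mem _
  rw [← hfun, Eu_push _ hf l m hc _ hk, po_box hu (h0' ▸ isAdd_Eu l m hc)] at h1
  exact h1

theorem cox_core (h : Hyp p G r Q κ δ ex η) (ψ : Cox G r Q κ →ₐ[k] Cox G r Q κ)
    (hψ : ∀ (y : Cox G r Q κ) (f : Po n k),
      Ideal.Quotient.mk _ f = y.1 → Ideal.Quotient.mk _ (expand Q f) = (ψ y).1)
    {S : ℚ → Prop} (hS : S 0) (hS' : ∀ j, S (r * Q ^ j : ℕ)) {Y : Set (Val (K ⊗[k] Cox G r Q κ))}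
    (hY : Fs (mp K ψ) S Y) (hE : ∀ χ ∈ Y, Ext1 k K _ χ) : ∀ χ ∈ Y, Nul χ := by
  intro χ hχ
  rcases subsingleton_or_nontrivial K with hK | hK
  · intro M _ _ _
    have : Subsingleton (K ⊗[k] Cox G r Q κ) := inferInstance
    have := Module.subsingleton (K ⊗[k] Cox G r Q κ) M
    exact (hY.add χ hχ).zero M
  have hK' := h.map (algebraMap k K)
  have := cox_noeth (G := G.map (algebraMap k K)) (r := r) (Q := Q) (κ := κ)
  obtain ⟨e, he⟩ := exists_can (K := K) (G := G) (r := r) (Q := Q) (κ := κ)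
  obtain ⟨φ, hφf, hφ⟩ := exists_phi hK'
  have hf := equiv_finite (A := K ⊗[k] Cox G r Q κ) e
  have hY1 := hY.push hφf _ hf (he.mp ψ hψ φ fun y f hy => by simpa using hφ 1 y f hy)
  refine nul_of_push e (hY1.final hS (fun j => (r * Q ^ j : ℕ)) hS'
    (1 + ex * δ - δ) (κ - (1 + ex * δ - δ)) (1 + (κ + ex * δ)) ?_ _ ⟨χ, hχ, rfl⟩)
  rintro _ ⟨c, hc, rfl⟩ 𝔭 h𝔭 hv
  exact rel_thm hK' (hY1.add _ ⟨c, hc, rfl⟩) φ hφf hφ
    (fun N _ _ _ => h0_box he (hY.add c hc) (hE c hc) (by have := h.hκ; omega) h.lev_start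
      hK'.lev_start N) 𝔭 h𝔭 hv _ le_rfl

theorem TT.cox [Fintype k] (h : Hyp p G r Q κ δ ex η) (hQ : Fintype.card k = Q) :
    TT k K (Cox G r Q κ) r Q := fun Y hY hE =>
  cox_core h (FiniteField.frobeniusAlgHom k _) (fun y f hf => by
    have e := mv_expand_card k f
    rw [hQ] at e
    rw [e, map_pow, hf]
    exact congrArg (fun t => y.1 ^ t) hQ.symm) adm_zero
    (fun j => adm_of_nonneg (Nat.cast_nonneg _)) hY.fs hE

theorem mp_pow {B : Type} [CommRing B] [Algebra k B] (ψ : B →ₐ[k] B) (i : ℕ) :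
    mp K ψ ^ i = mp K (ψ ^ i) := by
  induction i with
  | zero => exact (congrArg AlgHom.toRingHom Algebra.TensorProduct.map_id).symm
  | succ i ih =>
    rw [pow_succ, ih, pow_succ]
    refine RingHom.ext fun z => ?_
    induction z using TensorProduct.induction_on with
    | zero => rw [map_zero, map_zero]
    | add x y hx hy => rw [map_add, map_add, hx, hy]
    | tmul a y => rfl

theorem TT.cox_pow [Fintype k] (h : Hyp p G r Q κ δ ex η) {ρ : ℕ} (hρ : 0 < ρ)
    (hQ : Fintype.card k = Q ^ ρ)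
    (ha : ∀ j, Adm r (Fintype.card k) (-(-(r * Q ^ j : ℕ) : ℚ) ^ ρ)) :
    TT k K (Cox G r Q κ) r Q := by
  intro Y hY hE χ hχ M _ _ _
  have := cox_finiteType (G := G) (r := r) (Q := Q) (κ := κ)
  obtain ⟨φ, hφf, hφ⟩ := exists_phi h
  let ψ : Cox G r Q κ →ₐ[k] Cox G r Q κ := ⟨φ, fun c => Subtype.ext (by
    have h1 := hφ 1 (algebraMap k _ c) (C c) rfl
    rw [expand_C, pow_one] at h1
    exact h1.symm)⟩
  have hp : ∀ i, (ψ ^ i).toRingHom = φ ^ i := fun i => by
    induction i with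
    | zero => rfl
    | succ i ih => rw [pow_succ, pow_succ, ← ih]; rfl
  have e : Fr k K (Cox G r Q κ) = mp K ψ ^ ρ := by
    rw [mp_pow, Fr_eq]
    refine congrArg _ (AlgHom.ext fun y => Subtype.ext ?_)
    obtain ⟨f, hf⟩ := Ideal.Quotient.mk_surjective y.1
    have h1 := hφ ρ y f hf
    rw [← hQ, mv_expand_card, map_pow, hf, ← hp] at h1
    exact h1
  rw [e] at hY
  have h0 := cox_core h ψ (fun y f hf => by
      have h1 := hφ 1 y f hf
      rw [pow_one, pow_one] at h1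
      exact h1)
    (S := fun ε => Adm r (Fintype.card k) (-(-ε) ^ ρ))
    (by rw [neg_zero, zero_pow hρ.ne', neg_zero]; exact adm_zero) ha (hY.root (mp_finite hφf)) (by
      rintro _ ⟨P, c, hc, rfl⟩ N L _ _ _ _ _ _
      rw [pvp_val]
      refine Finset.sum_eq_zero fun i _ => ?_
      rw [mp_pow, (hE c hc).push (hY.add c hc) _ (hp i ▸ finite_pow_CYA hφf i) N L, mul_zero])
    _ ⟨1, χ, hχ, rfl⟩ M
  rwa [pvp_one] at h0

end Pool.Agent.CXD
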