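import Pool.Agent.P.MP_2ce3e7_ag.CYU2
import Pool.Agent.P.MP_2ce3e7_ag.CYE

attribute [local instance] Pool.Agent.CXD.instAddCommGroupRs Pool.Agent.CXD.instModuleRs
  Pool.Agent.CXD.instModuleRs_1 Pool.Agent.CXD.instIsScalarTowerRs
  Pool.Agent.CXD.instSMulCommClassRs Pool.Agent.CXD.instAddCommGroupBox
  Pool.Agent.CXD.instModuleTensorProductBox Pool.Agent.CXD.finite_box

/-! Products of closed subschemes and inverse images. -/

set_option linter.unusedSectionVars false
set_option linter.unusedVariables false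

open Function
open scoped TensorProduct

noncomputable section

namespace Pool.Agent.CXD

/-- the length at a minimal prime -/
theorem exists_len (B : Type) [CommRing B] [IsNoetherianRing B] [Nontrivial B] :
    ∃ c : Val B, IsAdd c ⊥ ∧ c.val B ≠ 0 := by
  obtain ⟨m, hm⟩ := Ideal.exists_maximal B
  obtain ⟨p, hp, -⟩ := Ideal.exists_minimalPrimes_le (I := (⊥ : Ideal B)) (J := m) bot_le
  have hpp : p.IsPrime := hp.1.1
  have hd : Ring.KrullDimLE 0 (Localization.AtPrime p) :=
    Ring.KrullDimLE.of_isLocalization p hp (Localization.AtPrime p)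
  have hart : IsArtinianRing (Localization.AtPrime p) :=
    IsNoetherianRing.isArtinianRing_of_krullDimLE_zero
  have hfin : ∀ (M : Type) [AddCommGroup M] [Module B M] [Module.Finite B M],
      Module.length (Localization.AtPrime p) (Localization.AtPrime p ⊗[B] M) ≠ ⊤ :=
    fun M _ _ _ => Module.length_ne_top
  refine ⟨⟨fun M _ _ =>
    ((Module.length (Localization.AtPrime p) (Localization.AtPrime p ⊗[B] M)).toNat : ℚ)⟩, ?_, ?_⟩
  · intro M N P _ _ _ _ _ _ _ f g hf hg he _
    have hM : Module.Finite B M := Module.Finite.of_injective f hf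
    have hP : Module.Finite B P := Module.Finite.of_surjective g hg
    have h1 := Module.length_eq_add_of_exact (f.baseChange (Localization.AtPrime p))
      (g.baseChange (Localization.AtPrime p))
      (Module.Flat.lTensor_preserves_injective_linearMap f hf)
      (LinearMap.lTensor_surjective _ hg) (Module.Flat.lTensor_exact _ he)
    simp only
    rw [h1, ENat.toNat_add (hfin M) (hfin P), Nat.cast_add]
  · simp only [ne_eq, Nat.cast_eq_zero, ENat.toNat_eq_zero, not_or]
    refine ⟨?_, hfin B⟩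
    rw [(TensorProduct.AlgebraTensorModule.rid B (Localization.AtPrime p)
      (Localization.AtPrime p)).length_eq]
    exact Module.length_pos.ne'

theorem nul_of_rk {B : Type} [CommRing B] [IsNoetherianRing B] (h : rk0 B ≤ 1) {c : Val B}
    (hc : IsAdd c ⊥) (h0 : c.val B = 0) : Nul c := by
  intro M _ _ _
  rcases subsingleton_or_nontrivial B with hB | hB
  · have : Subsingleton M := Module.subsingleton B M
    exact hc.zero M
  obtain ⟨c', hc', h1⟩ := exists_len B
  obtain ⟨lam, hl⟩ := exists_rep hc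
  obtain ⟨lam', hl'⟩ := exists_rep hc'
  obtain ⟨v, hv⟩ := rank_le_one_iff.1 h
  obtain ⟨s, hs⟩ := hv (cls ⟨B⟩)
  obtain ⟨t, ht⟩ := hv (cls ⟨M⟩)
  have hs0 : s ≠ 0 := by
    rintro rfl
    apply h1
    rw [← hl' ⟨B⟩, ← hs, zero_smul, map_zero]
  have h2 : lam v = 0 := by
    have h3 := hl ⟨B⟩
    rw [← hs, map_smul, smul_eq_mul] at h3
    exact (mul_eq_zero.1 (h3.trans h0)).resolve_left hs0
  rw [← hl ⟨M⟩, ← ht, map_smul, h2, smul_zero]

variable {k K B : Type} [Field k] [Fintype k] [CommRing K] [Algebra k K] [CommRing B] [Algebra k B]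
  [IsNoetherianRing K] [Algebra.FiniteType k B]

theorem ext_eq_pull (h : rk0 B ≤ 1) : spanQ (Prods k K B) = spanQ (Pulls k K B) := by
  have := noeth_tensor k K B
  have : IsNoetherianRing B := Algebra.FiniteType.isNoetherianRing k B
  have hb : ∀ I : Ideal K, prodI k K B I ⊥ =
      I.map (Algebra.TensorProduct.includeLeft : K →ₐ[k] K ⊗[k] B) := fun I => by
    rw [prodI, Ideal.map_bot, sup_bot_eq]
  refine le_antisymm (Submodule.span_le.2 ?_) (Submodule.span_mono ?_)
  · rintro _ ⟨_, ⟨I, J, rfl⟩, rfl⟩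
    refine mem_of_forms fun lam hl => ?_
    obtain ⟨χ, hχ, hr⟩ := exists_val lam
    have hx : IsAdd (bx k (K ⧸ I) χ) (⊥ : Ideal B) := isAdd_bx (hχ.mono bot_le)
    have hq : ∀ J : Ideal B, (bx k (K ⧸ I) χ).val (B ⧸ J) =
        χ.val (K ⊗[k] B ⧸ prodI k K B I J) := fun J => by
      obtain ⟨e⟩ := box_quot (k := k) I J
      exact hχ.congr e kill_bot
    have h0 : (bx k (K ⧸ I) χ).val B = 0 := by
      rw [← hx.congr (Submodule.quotEquivOfEqBot (⊥ : Ideal B) rfl) kill_bot, hq,
        ← hr ⟨K ⊗[k] B ⧸ prodI k K B I ⊥⟩]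
      exact hl _ (Submodule.subset_span ⟨_, ⟨I, (hb I).symm⟩, rfl⟩)
    rw [hr, ← hq]
    exact nul_of_rk h hx h0 _
  · rintro _ ⟨_, ⟨I, rfl⟩, rfl⟩
    exact ⟨_, ⟨I, ⊥, (hb I).symm⟩, rfl⟩

theorem exists_pow_of_card {q : ℕ} (h : Fintype.card k = q ∨ Fintype.card k = q ^ 2) :
    ∃ p e, p.Prime ∧ CharP k p ∧ 0 < e ∧ q = p ^ e := by
  obtain ⟨p, hc, n, hp, hn⟩ := FiniteField.card' k
  have h1 : 1 < Fintype.card k := Fintype.one_lt_card
  have hd : q ∣ p ^ (n : ℕ) := by
    rw [← hn]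
    rcases h with h | h
    · rw [h]
    · rw [h]
      exact dvd_pow_self q two_ne_zero
  obtain ⟨e, -, rfl⟩ := (Nat.dvd_prime_pow hp).1 hd
  refine ⟨p, e, hp, hc, Nat.pos_of_ne_zero ?_, rfl⟩
  rintro rfl
  rcases h with h | h <;> simp [h] at h1

theorem dec_cox (k : Type) [Field k] [Fintype k] (q n κ r Q : ℕ) (hκ : 0 < κ)
    (hk : Fintype.card k = Q) (G : Matrix (Fin n) (Fin n) k) (hG : G.det ≠ 0)
    (h : Unitary G q r Q κ ∨ Symplectic G q r Q κ ∨ Orthogonal G q r Q κ)
    (K : Type) [CommRing K] [Algebra k K] [IsNoetherianRing K] :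
    Dec (Fr k K (Cox G r Q κ)) r Q (Pulls k K (Cox G r Q κ)) := by
  have := cox_finiteType (G := G) (r := r) (Q := Q) (κ := κ)
  obtain ⟨p, e, hp, hc, he, rfl⟩ := exists_pow_of_card (k := k) (q := q) (by
    rcases h with h | h | h
    · exact Or.inr (hk.trans h.hQ)
    · exact Or.inl (hk.trans h.hQ)
    · exact Or.inl (hk.trans h.hQ))
  rw [Dec, ← ext_eq_pull (main k p e 1 n κ r Q he hκ (by rw [hk, pow_one]) G hG
    (h.imp_right fun h => ⟨odd_one, h⟩))]
  rcases h with h | h | h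
  · obtain ⟨ex, hy⟩ := hyp_unitary hp he hκ hG h
    exact hk ▸ (TT.cox hy hk).dec
  · exact hk ▸ (TT.cox (hyp_symplectic hp he hκ hG h) hk).dec
  · exact hk ▸ (TT.cox (hyp_orthogonal hp he hκ hG h) hk).dec

end Pool.Agent.CXD
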