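import Pool.Agent.P.MP_2ce3e7_ag.CYH

/-! The map `X ↦ X ^ q`. -/

set_option linter.unusedSectionVars false
set_option linter.unusedVariables false

open Function Polynomial
open scoped TensorProduct

noncomputable section

namespace Pool.Agent.CXD

variable {A : Type} [CommRing A] {c : Val A[X]}

/-- the map `v ↦ ∑ expand (v i) * X ^ i` -/
def e0_CYH1 (A : Type) [CommRing A] (q : ℕ) : (Fin q → A[X]) →ₗ[A] A[X] where
  toFun v := ∑ i, expand A q (v i) * X ^ (i : ℕ)
  map_add' v w := by simp [add_mul, Finset.sum_add_distrib]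
  map_smul' a v := by simp [Finset.smul_sum]

theorem e0_apply_CYH1 (q : ℕ) (v : Fin q → A[X]) :
    e0_CYH1 A q v = ∑ i, expand A q (v i) * X ^ (i : ℕ) := rfl

theorem e0_smul_CYH1 (q : ℕ) (p : A[X]) (v : Fin q → A[X]) :
    e0_CYH1 A q (p • v) = expand A q p * e0_CYH1 A q v := by
  simp [e0_apply_CYH1, Finset.mul_sum, mul_assoc]

theorem e0_coeff_CYH1 {q : ℕ} (hq : 0 < q) (v : Fin q → A[X]) (i : Fin q) (a : ℕ) :
    (e0_CYH1 A q v).coeff (a * q + i) = (v i).coeff a := by
  rw [e0_apply_CYH1, finsetSum_coeff, Finset.sum_eq_single i]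
  · rw [coeff_mul_X_pow, coeff_expand_mul hq]
  · intro j _ hj
    rw [coeff_mul_X_pow']
    split_ifs with h
    · rw [coeff_expand hq, if_neg]
      rintro ⟨d, hd⟩
      have h1 : a * q + i = d * q + j := by rw [mul_comm d q]; omega
      have h2 := congrArg (· % q) h1
      simp only [Nat.mul_add_mod_self_right, Nat.mod_eq_of_lt i.2, Nat.mod_eq_of_lt j.2] at h2
      exact hj (Fin.ext h2.symm)
    · rfl
  · simp

theorem e0_bij_CYH1 {q : ℕ} (hq : 0 < q) : Bijective (e0_CYH1 A q) := by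
  constructor
  · intro v w h
    funext i
    ext a
    rw [← e0_coeff_CYH1 hq, ← e0_coeff_CYH1 hq, h]
  · intro p
    induction p using Polynomial.induction_on' with
    | add p r hp hr =>
      obtain ⟨v, rfl⟩ := hp
      obtain ⟨w, rfl⟩ := hr
      exact ⟨v + w, map_add _ _ _⟩
    | monomial n a =>
      refine ⟨Pi.single ⟨n % q, Nat.mod_lt _ hq⟩ (monomial (n / q) a), ?_⟩
      rw [e0_apply_CYH1, Finset.sum_eq_single ⟨n % q, Nat.mod_lt _ hq⟩]
      · rw [Pi.single_eq_same, expand_monomial, monomial_mul_X_pow, Nat.div_add_mod']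
      · intro j _ hj
        rw [Pi.single_eq_of_ne hj, map_zero, zero_mul]
      · simp

theorem fin_CYH1 {R R' V : Type} [CommRing R] [CommRing R'] [AddCommGroup V] [Module R V]
    [Module.Finite R V] (ψ : R →+* R') (f : V →+ R') (hf : Surjective f)
    (hs : ∀ p v, f (p • v) = ψ p * f v) : ψ.Finite := by
  let : Algebra R R' := ψ.toAlgebra
  let g : V →ₗ[R] R' := { toFun := f, map_add' := f.map_add, map_smul' := hs }
  exact Module.Finite.of_surjective g hf

theorem semi_CYH1 {R R' V W : Type} [CommRing R] [CommRing R'] [AddCommGroup V] [Module R V]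
    [Module.Finite R V] [AddCommGroup W] [Module R' W] {χ : Val R} (h : IsAdd χ ⊥)
    (ψ : R →+* R') (j : W ≃+ V) (hs : ∀ p w, j (ψ p • w) = p • j w) :
    (push ψ χ).val W = χ.val V := by
  let : Module R W := Module.compHom W ψ
  let g : W ≃ₗ[R] V := { j with map_smul' := hs }
  exact h.congr g kill_bot

theorem expand_finite' {q : ℕ} (hq : 0 < q) : (expand A q).toRingHom.Finite :=
  fin_CYH1 _ (e0_CYH1 A q).toAddMonoidHom (e0_bij_CYH1 hq).2 (e0_smul_CYH1 q)

theorem val_pi_CYH1 {R : Type} [CommRing R] {χ : Val R} (h : IsAdd χ ⊥) (W : Type)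
    [AddCommGroup W] [Module R W] [Module.Finite R W] (d : ℕ) :
    χ.val (Fin d → W) = d * χ.val W := by
  induction d with
  | zero => rw [h.zero, Nat.cast_zero, zero_mul]
  | succ d ih =>
    have a1 := h.congr (Fin.consLinearEquiv R fun _ : Fin (d + 1) => W) kill_bot
    have a2 := h W (W × (Fin d → W)) (Fin d → W) (LinearMap.inl R _ _) (LinearMap.snd R _ _)
      LinearMap.inl_injective LinearMap.snd_surjective Function.Exact.inl_snd kill_bot
    rw [← a1, a2, ih]
    push_cast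
    ring

/-- the splitting of `A[X] ⊗ M` -/
def jj_CYH1 {q : ℕ} (hq : 0 < q) (M : Type) [AddCommGroup M] [Module A M] :
    A[X] ⊗[A] M ≃ₗ[A] (Fin q → A[X] ⊗[A] M) :=
  ((LinearEquiv.ofBijective _ (e0_bij_CYH1 hq)).symm.rTensor M).trans
    (TensorProduct.piLeft A M fun _ : Fin q => A[X])

theorem jj_tmul_CYH1 {q : ℕ} (hq : 0 < q) (M : Type) [AddCommGroup M] [Module A M]
    (v : Fin q → A[X]) (m : M) :
    jj_CYH1 hq M (e0_CYH1 A q v ⊗ₜ m) = fun i => v i ⊗ₜ m := by
  have : (LinearEquiv.ofBijective _ (e0_bij_CYH1 hq)).symm (e0_CYH1 A q v) = v :=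
    (LinearEquiv.ofBijective _ (e0_bij_CYH1 hq)).symm_apply_apply v
  funext i
  simp [jj_CYH1, this]

theorem jj_smul_CYH1 {q : ℕ} (hq : 0 < q) (M : Type) [AddCommGroup M] [Module A M] (p : A[X])
    (t : A[X] ⊗[A] M) : jj_CYH1 hq M (expand A q p • t) = p • jj_CYH1 hq M t := by
  induction t using TensorProduct.induction_on with
  | zero => simp
  | add s t hs ht => rw [smul_add, map_add, map_add, hs, ht, smul_add]
  | tmul r m =>
    obtain ⟨v, rfl⟩ := (e0_bij_CYH1 hq).2 r
    rw [TensorProduct.smul_tmul', smul_eq_mul, ← e0_smul_CYH1, jj_tmul_CYH1, jj_tmul_CYH1]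
    funext i
    simp [TensorProduct.smul_tmul']

theorem pm_expand (h : IsAdd c ⊥) {q : ℕ} (hq : 0 < q) :
    Eqv (pm (push (expand A q).toRingHom c)) (Val.lin q 0 (pm c) (pm c)) := by
  intro M _ _ _
  have a1 := val_pi_CYH1 h (A[X] ⊗[A] M) q
  have a2 := semi_CYH1 h (expand A q).toRingHom (jj_CYH1 hq M).toAddEquiv (jj_smul_CYH1 hq M)
  change (push _ c).val (A[X] ⊗[A] M) = q * c.val (A[X] ⊗[A] M) + 0 * c.val (A[X] ⊗[A] M)
  rw [a2, a1, zero_mul, add_zero]

end Pool.Agent.CXD
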