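import Pool.Agent.P.MP_2ce3e7_ag.CYA

/-! The homotopy property. -/

set_option linter.unusedSectionVars false
set_option linter.unusedVariables false

open Function Polynomial

noncomputable section

namespace Pool.Agent.CXD

variable {A : Type} [CommRing A]

theorem mem_map_iff_CYH2 (p : Ideal A) (f : A[X]) :
    f ∈ p.map (C : A →+* A[X]) ↔ f.map (Ideal.Quotient.mk p) = 0 := by
  rw [Ideal.mem_map_C_iff, Polynomial.ext_iff]
  refine forall_congr' fun n => ?_
  rw [coeff_map, coeff_zero, Ideal.Quotient.eq_zero_iff_mem]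

/-- pseudo-division by an element of least degree -/
theorem exists_pseudo (P : Ideal A[X]) (hP : P.IsPrime)
    (hne : ¬ P ≤ (P.comap (C : A →+* A[X])).map C) :
    ∃ g ∈ P, ∃ a : A, g ∉ (P.comap (C : A →+* A[X])).map (C : A →+* A[X]) ∧ C a ∉ P ∧
      ∀ f ∈ P, ∃ N : ℕ, C a ^ N * f ∈
        (P.comap (C : A →+* A[X])).map (C : A →+* A[X]) ⊔ Ideal.span {g} := by
  classical
  set p : Ideal A := P.comap (C : A →+* A[X]) with hp
  have hex : ∃ m : ℕ, ∃ g ∈ P, g.map (Ideal.Quotient.mk p) ≠ 0 ∧
      (g.map (Ideal.Quotient.mk p)).natDegree = m := by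
    obtain ⟨g, hgP, hg⟩ := SetLike.not_le_iff_exists.1 hne
    exact ⟨_, g, hgP, fun h0 => hg ((mem_map_iff_CYH2 p g).2 h0), rfl⟩
  obtain ⟨g, hgP, hg0, hgm⟩ := Nat.find_spec hex
  have hmin : ∀ f ∈ P, f.map (Ideal.Quotient.mk p) ≠ 0 →
      Nat.find hex ≤ (f.map (Ideal.Quotient.mk p)).natDegree :=
    fun f hf h0 => Nat.find_min' hex ⟨f, hf, h0, rfl⟩
  generalize Nat.find hex = m at hgm hmin
  refine ⟨g, hgP, g.coeff m, fun h => hg0 ((mem_map_iff_CYH2 p g).1 h), fun h => ?_, ?_⟩
  · have h1 : g.coeff m ∈ p := h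
    apply hg0
    rw [← leadingCoeff_eq_zero, leadingCoeff, hgm, coeff_map]
    exact Ideal.Quotient.eq_zero_iff_mem.2 h1
  · have key : ∀ n : ℕ, ∀ f ∈ P, (∀ k, n ≤ k → (f.map (Ideal.Quotient.mk p)).coeff k = 0) →
        ∃ N : ℕ, C (g.coeff m) ^ N * f ∈ p.map (C : A →+* A[X]) ⊔ Ideal.span {g} := by
      intro n
      induction n with
      | zero =>
        intro f hf h0
        refine ⟨0, Ideal.mem_sup_left ?_⟩
        rw [pow_zero, one_mul, mem_map_iff_CYH2]
        ext k
        exact h0 k (Nat.zero_le k)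
      | succ n ih =>
        intro f hf h0
        by_cases hz : f.map (Ideal.Quotient.mk p) = 0
        · refine ⟨0, Ideal.mem_sup_left ?_⟩
          rw [pow_zero, one_mul, mem_map_iff_CYH2]
          exact hz
        · have hmn : m ≤ n := by
            refine (hmin f hf hz).trans ?_
            rw [natDegree_le_iff_coeff_eq_zero]
            exact fun k hk => h0 k hk
          have hf' : C (g.coeff m) * f - C (f.coeff n) * X ^ (n - m) * g ∈ P :=
            P.sub_mem (P.mul_mem_left _ hf) (P.mul_mem_left _ hgP)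
          obtain ⟨N, hN⟩ := ih _ hf' (by
            intro k hk
            have hk' : n - m ≤ k := le_trans (Nat.sub_le n m) hk
            rw [coeff_map, coeff_sub, coeff_C_mul, mul_assoc, coeff_C_mul, coeff_X_pow_mul',
              if_pos hk', map_sub, map_mul, map_mul]
            rcases hk.eq_or_lt with rfl | hlt
            · have : n - (n - m) = m := by omega
              rw [this, mul_comm, sub_self]
            · have h1 := h0 k hlt
              have h2 : (g.map (Ideal.Quotient.mk p)).coeff (k - (n - m)) = 0 :=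
                coeff_eq_zero_of_natDegree_lt (by omega)
              rw [coeff_map] at h1 h2
              rw [h1, h2, mul_zero, mul_zero, sub_self])
          refine ⟨N + 1, ?_⟩
          have : C (g.coeff m) ^ (N + 1) * f =
              C (g.coeff m) ^ N * (C (g.coeff m) * f - C (f.coeff n) * X ^ (n - m) * g) +
                (C (g.coeff m) ^ N * (C (f.coeff n) * X ^ (n - m))) * g := by ring
          rw [this]
          exact Ideal.add_mem _ hN (Ideal.mem_sup_right
            (Ideal.mul_mem_left _ _ (Ideal.mem_span_singleton_self g)))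
    intro f hf
    exact key ((f.map (Ideal.Quotient.mk p)).natDegree + 1) f hf
      fun k hk => coeff_eq_zero_of_natDegree_lt hk

theorem uniform_CYH2 {R : Type} [CommRing R] [IsNoetherianRing R] (P J : Ideal R) (x : R)
    (h : ∀ f ∈ P, ∃ N : ℕ, x ^ N * f ∈ J) : ∃ N : ℕ, ∀ f ∈ P, x ^ N * f ∈ J := by
  classical
  obtain ⟨s, hs⟩ := IsNoetherian.noetherian P
  have h1 : ∀ f : R, ∃ N : ℕ, f ∈ P → x ^ N * f ∈ J := fun f => by
    by_cases hf : f ∈ P
    · obtain ⟨N, hN⟩ := h f hf
      exact ⟨N, fun _ => hN⟩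
    · exact ⟨0, fun h' => absurd h' hf⟩
  choose N hN using h1
  refine ⟨s.sup N, fun f hf => ?_⟩
  rw [← hs] at hf
  induction hf using Submodule.span_induction with
  | mem y hy =>
    have hyP : y ∈ P := hs ▸ Submodule.subset_span hy
    obtain ⟨d, hd⟩ := Nat.exists_eq_add_of_le (Finset.le_sup (f := N) hy)
    rw [hd, add_comm, pow_add, mul_assoc]
    exact J.mul_mem_left _ (hN y hyP)
  | zero => simp
  | add y z _ _ hy hz => rw [mul_add]; exact J.add_mem hy hz
  | smul r y _ hy => rw [smul_eq_mul, mul_left_comm]; exact J.mul_mem_left _ hy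

theorem val_sup_CYH2 {R : Type} [CommRing R] {c : Val R} (h : IsAdd c ⊥) (I : Ideal R)
    (hI : I.IsPrime) (g : R) (hg : g ∉ I) : c.val (R ⧸ (I ⊔ Ideal.span {g})) = 0 := by
  have h1 := h (R ⧸ I) (R ⧸ I) (R ⧸ (I ⊔ Ideal.span {g})) (LinearMap.lsmul R (R ⧸ I) g)
    (Submodule.factor (le_sup_left : I ≤ I ⊔ Ideal.span {g})) ?_
    (Submodule.factor_surjective _) ?_ kill_bot
  · linarith
  · rw [injective_iff_map_eq_zero]
    intro y hy
    obtain ⟨x, rfl⟩ := Submodule.Quotient.mk_surjective I y
    rw [LinearMap.lsmul_apply, ← Submodule.Quotient.mk_smul, Submodule.Quotient.mk_eq_zero,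
      smul_eq_mul] at hy
    rw [Submodule.Quotient.mk_eq_zero]
    exact (hI.mem_or_mem hy).resolve_left hg
  · intro y
    obtain ⟨x, rfl⟩ := Submodule.Quotient.mk_surjective I y
    have h2 : Submodule.factor (le_sup_left : I ≤ I ⊔ Ideal.span {g})
        (Submodule.Quotient.mk x) = Submodule.Quotient.mk x := rfl
    rw [h2, Submodule.Quotient.mk_eq_zero]
    constructor
    · intro hx
      obtain ⟨u, hu, v, hv, rfl⟩ := Submodule.mem_sup.1 hx
      obtain ⟨w, rfl⟩ := Ideal.mem_span_singleton'.1 hv
      refine ⟨Submodule.Quotient.mk w, ?_⟩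
      rw [LinearMap.lsmul_apply, ← Submodule.Quotient.mk_smul, Submodule.Quotient.eq,
        smul_eq_mul]
      have : g * w - (u + w * g) = -u := by ring
      rw [this]
      exact I.neg_mem hu
    · rintro ⟨z, hz⟩
      obtain ⟨w, rfl⟩ := Submodule.Quotient.mk_surjective I z
      rw [LinearMap.lsmul_apply, ← Submodule.Quotient.mk_smul, Submodule.Quotient.eq,
        smul_eq_mul] at hz
      have : x = -(g * w - x) + w * g := by ring
      rw [this]
      exact Ideal.add_mem _ (Ideal.mem_sup_left (I.neg_mem hz))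
        (Ideal.mem_sup_right (Ideal.mul_mem_left _ _ (Ideal.mem_span_singleton_self g)))

theorem homotopy [IsNoetherianRing A] {c : Val A[X]} (h : IsAdd c ⊥)
    (h0 : ∀ I : Ideal A, c.val (A[X] ⧸ I.map (C : A →+* A[X])) = 0) : Nul c := by
  have main : ∀ p : Ideal A, ∀ P : Ideal A[X], P.IsPrime → P.comap (C : A →+* A[X]) = p →
      c.val (A[X] ⧸ P) = 0 := by
    intro p
    induction p using IsNoetherian.induction with
    | hgt p ih =>
    intro P hP hp
    by_cases hle : P ≤ (P.comap (C : A →+* A[X])).map C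
    · have h1 : P = Ideal.map (C : A →+* A[X]) p := by
        rw [← hp]
        exact le_antisymm hle Ideal.map_comap_le
      rw [h1]
      exact h0 p
    · obtain ⟨g, hgP, a, hg, ha, hf⟩ := exists_pseudo P hP hle
      rw [hp] at hg hf
      have hpp : Ideal.IsPrime p := hp ▸ Ideal.comap_isPrime _ P
      have hI : (Ideal.map (C : A →+* A[X]) p).IsPrime := Ideal.isPrime_map_C_of_isPrime
      have hJ := val_sup_CYH2 h _ hI g hg
      obtain ⟨N, hN⟩ := uniform_CYH2 P _ _ hf
      have hJP : Ideal.map (C : A →+* A[X]) p ⊔ Ideal.span {g} ≤ P := by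
        refine sup_le ?_ ((Ideal.span_singleton_le_iff_mem P).2 hgP)
        rw [← hp]
        exact Ideal.map_comap_le
      have hpJ : Ideal.map (C : A →+* A[X]) p ≤ Ideal.map (C : A →+* A[X]) p ⊔ Ideal.span {g} := le_sup_left
      generalize Ideal.map (C : A →+* A[X]) p ⊔ Ideal.span {g} = J at hJ hN hJP hpJ
      have h2 := h (LinearMap.ker (Submodule.factor hJP)) (A[X] ⧸ J) (A[X] ⧸ P)
        (LinearMap.ker (Submodule.factor hJP)).subtype (Submodule.factor hJP)
        (Submodule.injective_subtype _) (Submodule.factor_surjective _)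
        (LinearMap.exact_subtype_ker_map _) kill_bot
      have h3 : c.val (LinearMap.ker (Submodule.factor hJP)) = 0 := by
        refine val_of_primes h _ kill_bot fun Q hQ hann => ?_
        refine ih (Q.comap (C : A →+* A[X])) ?_ Q hQ rfl
        have hkill : ∀ x : A[X], (∀ f ∈ P, x * f ∈ J) → x ∈ Q := by
          intro x hx
          apply hann
          rw [Module.mem_annihilator]
          rintro ⟨y, hy⟩
          obtain ⟨z, rfl⟩ := Submodule.Quotient.mk_surjective J y
          have h4 : Submodule.factor hJP (Submodule.Quotient.mk z) =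
              Submodule.Quotient.mk z := rfl
          rw [LinearMap.mem_ker, h4, Submodule.Quotient.mk_eq_zero] at hy
          apply Subtype.ext
          change x • (Submodule.Quotient.mk z : A[X] ⧸ J) = 0
          rw [← Submodule.Quotient.mk_smul, Submodule.Quotient.mk_eq_zero, smul_eq_mul]
          exact hx z hy
        refine lt_of_le_of_ne (fun x hx => ?_) fun he => ha ?_
        · exact hkill _ fun f _ => J.mul_mem_right _ (hpJ (Ideal.mem_map_of_mem _ hx))
        · have h5 : a ∈ Q.comap (C : A →+* A[X]) := hQ.mem_of_pow_mem N (hkill _ hN)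
          rw [← he, ← hp] at h5
          exact h5
      rw [hJ, h3, zero_add] at h2
      exact h2.symm
  intro M _ _ _
  exact val_of_primes h M kill_bot fun P hP _ => main _ P hP rfl

end Pool.Agent.CXD
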