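import Pool.Agent.P.MP_2ce3e7_ag.CYT
import Pool.Agent.P.MP_2ce3e7_ag.CYH1
import Pool.Agent.P.MP_2ce3e7_ag.CYH2

/-! The property `TT` passes to polynomial rings. -/

set_option linter.unusedSectionVars false
set_option linter.unusedVariables false

open Function Polynomial
open scoped TensorProduct

noncomputable section

namespace Pool.Agent.CXD

variable {k K B : Type} [Field k] [Fintype k] [CommRing K] [Algebra k K] [CommRing B] [Algebra k B]
  {r Q : ℕ}

theorem Fam.pm {A : Type} [CommRing A] {φ : A →+* A} (hφ : φ.Finite) (hQ : 0 < Q)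
    {Y : Set (Val A[X])} (h : Fam ((mapRingHom φ).comp (expand A Q).toRingHom) r Q Y) :
    Fam φ r Q (pm '' Y) := by
  refine h.map hφ _ 1 (by simpa using hQ.ne') (fun s t c c' M _ _ _ => rfl) (fun _ _ => pm_eqv)
    (fun c hc => isAdd_pm (h.add c hc)) fun c hc M _ _ _ => ?_
  have h1 := pm_map (isAdd_push _ (expand_finite' hQ) (h.add c hc) bot_le) hφ M
  have h2 := (pm_expand (h.add c hc) hQ).push φ hφ M
  rw [push_push] at h1
  rw [h1, h2]
  simp [Val.lin, CXD.push]

theorem exists_polyEquiv : ∃ e : (K ⊗[k] B)[X] ≃+* K ⊗[k] B[X],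
    (∀ (a : K) (b : B), e (C (a ⊗ₜ b)) = a ⊗ₜ C b) ∧ e X = 1 ⊗ₜ X := by
  let f : (K ⊗[k] B)[X] →+* K ⊗[k] B[X] :=
    eval₂RingHom (mp K (Polynomial.CAlgHom : B →ₐ[k] B[X])) (1 ⊗ₜ X)
  let g : K ⊗[k] B[X] →ₐ[k] (K ⊗[k] B)[X] :=
    Algebra.TensorProduct.lift
      ((Polynomial.CAlgHom : K ⊗[k] B →ₐ[k] (K ⊗[k] B)[X]).comp Algebra.TensorProduct.includeLeft)
      (mapAlgHom (Algebra.TensorProduct.includeRight : B →ₐ[k] K ⊗[k] B))
      (fun _ _ => Commute.all _ _)
  have hf1 : ∀ (a : K) (b : B), f (C (a ⊗ₜ b)) = a ⊗ₜ C b := fun a b => by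
    simp only [f, coe_eval₂RingHom, eval₂_C, mp_tmul]
    rfl
  have hf2 : f X = 1 ⊗ₜ X := by
    simp only [f, coe_eval₂RingHom, eval₂_X]
  have hg : ∀ (a : K) (p : B[X]), g (a ⊗ₜ p) = C (a ⊗ₜ 1) * p.map (inr k K B) := fun a p => by
    simp only [g, Algebra.TensorProduct.lift_tmul]
    rfl
  have hg1 : ∀ (a : K) (b : B), g (a ⊗ₜ C b) = C (a ⊗ₜ b) := fun a b => by
    rw [hg, map_C, ← C_mul]
    congr 1
    change (a ⊗ₜ[k] (1 : B)) * ((1 : K) ⊗ₜ[k] b) = _
    rw [Algebra.TensorProduct.tmul_mul_tmul, mul_one, one_mul]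
  have hg2 : g (1 ⊗ₜ X) = X := by
    rw [hg, map_X, ← Algebra.TensorProduct.one_def, C_1, one_mul]
  have hfm : ∀ p : B[X], f (p.map (inr k K B)) = 1 ⊗ₜ p := fun p => by
    have : f.comp (mapRingHom (inr k K B)) = inr k K B[X] := by
      refine Polynomial.ringHom_ext (fun b => ?_) ?_
      · rw [RingHom.comp_apply, coe_mapRingHom, map_C]
        exact hf1 1 b
      · rw [RingHom.comp_apply, coe_mapRingHom, map_X]
        exact hf2
    exact RingHom.congr_fun this p
  refine ⟨RingEquiv.ofRingHom f g.toRingHom ?_ ?_, hf1, hf2⟩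
  · refine RingHom.ext fun z => ?_
    change f (g z) = z
    induction z using TensorProduct.induction_on with
    | zero => rw [map_zero, map_zero]
    | tmul a p =>
      rw [hg, map_mul, hf1, hfm, Algebra.TensorProduct.tmul_mul_tmul, mul_one, C_1, one_mul]
    | add x y hx hy => rw [map_add, map_add, hx, hy]
  · refine Polynomial.ringHom_ext (fun z => ?_) ?_
    · change g (f (C z)) = C z
      induction z using TensorProduct.induction_on with
      | zero => rw [map_zero, map_zero, map_zero]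
      | tmul a b => rw [hf1, hg1]
      | add x y hx hy => rw [map_add, map_add, map_add, hx, hy]
    · change g (f X) = X
      rw [hf2, hg2]

theorem polyEquiv_Fr (e : (K ⊗[k] B)[X] ≃+* K ⊗[k] B[X])
    (h1 : ∀ (a : K) (b : B), e (C (a ⊗ₜ b)) = a ⊗ₜ C b) (h2 : e X = 1 ⊗ₜ X) :
    e.symm.toRingHom.comp (Fr k K B[X]) =
      ((mapRingHom (Fr k K B)).comp (expand (K ⊗[k] B) (Fintype.card k)).toRingHom).comp
        e.symm.toRingHom := by
  have key : (Fr k K B[X]).comp e.toRingHom = e.toRingHom.comp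
      ((mapRingHom (Fr k K B)).comp (expand (K ⊗[k] B) (Fintype.card k)).toRingHom) := by
    refine Polynomial.ringHom_ext (fun z => ?_) ?_
    · change Fr k K B[X] (e (C z)) = e ((expand (K ⊗[k] B) (Fintype.card k) (C z)).map (Fr k K B))
      rw [expand_C, map_C]
      induction z using TensorProduct.induction_on with
      | zero => simp only [map_zero]
      | tmul a b => rw [h1, Fr_tmul, Fr_tmul, h1, C_pow]
      | add x y hx hy => simp only [map_add, hx, hy]
    · change Fr k K B[X] (e X) = e ((expand (K ⊗[k] B) (Fintype.card k) X).map (Fr k K B))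
      rw [expand_X, Polynomial.map_pow, map_X, map_pow, h2, Fr_tmul,
        Algebra.TensorProduct.tmul_pow, one_pow]
  refine RingHom.ext fun z => ?_
  have h := RingHom.congr_fun key (e.symm z)
  change Fr k K B[X] (e (e.symm z)) = e _ at h
  rw [e.apply_symm_apply] at h
  change e.symm (Fr k K B[X] z) = _
  rw [h, e.symm_apply_apply]
  rfl

theorem polyEquiv_quot (e : (K ⊗[k] B)[X] ≃+* K ⊗[k] B[X])
    (h1 : ∀ (a : K) (b : B), e (C (a ⊗ₜ b)) = a ⊗ₜ C b) {χ : Val (K ⊗[k] B[X])} (hχ : IsAdd χ ⊥)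
    (I : Ideal K) (J : Ideal B) :
    (push e.symm.toRingHom χ).val ((K ⊗[k] B)[X] ⧸ (prodI k K B I J).map C) =
      χ.val (K ⊗[k] B[X] ⧸ prodI k K B[X] I (J.map C)) := by
  have hmap : prodI k K B[X] I (J.map C) =
      ((prodI k K B I J).map (C : K ⊗[k] B →+* (K ⊗[k] B)[X])).map
        (e : (K ⊗[k] B)[X] →+* K ⊗[k] B[X]) := by
    have e1 : ((e : (K ⊗[k] B)[X] →+* K ⊗[k] B[X]).comp C).comp
        (Algebra.TensorProduct.includeLeft : K →ₐ[k] K ⊗[k] B).toRingHom =
        (Algebra.TensorProduct.includeLeft : K →ₐ[k] K ⊗[k] B[X]).toRingHom := by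
      refine RingHom.ext fun a => ?_
      change e (C (a ⊗ₜ 1)) = a ⊗ₜ 1
      rw [h1, C_1]
    have e2 : ((e : (K ⊗[k] B)[X] →+* K ⊗[k] B[X]).comp C).comp (inr k K B) =
        (inr k K B[X]).comp C := by
      refine RingHom.ext fun b => ?_
      exact h1 1 b
    change I.map (Algebra.TensorProduct.includeLeft : K →ₐ[k] K ⊗[k] B[X]).toRingHom ⊔
        (J.map C).map (inr k K B[X]) =
      ((I.map (Algebra.TensorProduct.includeLeft : K →ₐ[k] K ⊗[k] B).toRingHom ⊔
        J.map (inr k K B)).map (C : K ⊗[k] B →+* (K ⊗[k] B)[X])).map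
        (e : (K ⊗[k] B)[X] →+* K ⊗[k] B[X])
    rw [Ideal.map_map, Ideal.map_map, Ideal.map_sup, Ideal.map_map, Ideal.map_map, e1, e2]
  let q := Ideal.quotientEquiv ((prodI k K B I J).map C) (prodI k K B[X] I (J.map C)) e hmap
  let : Module (K ⊗[k] B[X]) ((K ⊗[k] B)[X] ⧸ (prodI k K B I J).map C) :=
    Module.compHom _ e.symm.toRingHom
  let l : ((K ⊗[k] B)[X] ⧸ (prodI k K B I J).map C) ≃ₗ[K ⊗[k] B[X]]
      (K ⊗[k] B[X] ⧸ prodI k K B[X] I (J.map C)) :=
    { q.toAddEquiv with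
      map_smul' := fun a y => by
        obtain ⟨y, rfl⟩ := Ideal.Quotient.mk_surjective y
        change q (Ideal.Quotient.mk _ (e.symm a * y)) =
          Ideal.Quotient.mk _ a * q (Ideal.Quotient.mk _ y)
        rw [Ideal.quotientEquiv_mk, Ideal.quotientEquiv_mk, map_mul, e.apply_symm_apply, map_mul] }
  exact hχ.congr l kill_bot

variable [IsNoetherianRing K] [Algebra.FiniteType k B]

theorem TT.poly (hQ : Fintype.card k = Q) (hT : TT k K B r Q) : TT k K B[X] r Q := by
  intro Y hY hE χ hχ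
  have := noeth_tensor k K B
  have : IsNoetherianRing B := Algebra.FiniteType.isNoetherianRing k B
  have hQ0 : 0 < Fintype.card k := Fintype.card_pos
  obtain ⟨e, h1, h2⟩ := exists_polyEquiv (k := k) (K := K) (B := B)
  have hf : e.symm.toRingHom.Finite := RingHom.Finite.of_surjective _ e.symm.surjective
  have hc := polyEquiv_Fr e h1 h2
  have hY1 := hY.push ((mapRingHom_finite (Fr_finite k K B)).comp (expand_finite' hQ0)) _ hf hc
  have hY2 := Fam.pm (Fr_finite k K B) hQ0 hY1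
  have hE2 : ∀ c ∈ pm '' (push e.symm.toRingHom '' Y), Ext1 k K B c := by
    rintro _ ⟨_, ⟨c, hc, rfl⟩, rfl⟩
    have ha := isAdd_push _ hf (hY.add c hc) (bot_le (a := (⊥ : Ideal _).comap _))
    refine Ext0.ext1 (fun I J => ?_) (isAdd_pm ha)
    rw [pm_quot ha, polyEquiv_quot e h1 (hY.add c hc)]
    exact (hE c hc).ext0 (hY.add c hc) _ _
  have ha := isAdd_push _ hf (hY.add χ hχ) (bot_le (a := (⊥ : Ideal _).comap _))
  refine nul_of_push e.symm (homotopy ha fun I => ?_)
  rw [← pm_quot ha]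
  exact hT _ hY2 hE2 _ ⟨_, ⟨χ, hχ, rfl⟩, rfl⟩ _

theorem TT.mv (hQ : Fintype.card k = Q) (hT : TT k K B r Q) (σ : Type) [Finite σ] :
    TT k K (MvPolynomial σ B) r Q := by
  obtain ⟨n, ⟨e⟩⟩ := Finite.exists_equiv_fin σ
  have hn : ∀ n : ℕ, TT k K (MvPolynomial (Fin n) B) r Q := by
    intro n
    induction n with
    | zero =>
      exact TT.of_bij hT ((MvPolynomial.isEmptyAlgEquiv B (Fin 0)).restrictScalars k)
    | succ n ih =>
      exact TT.of_bij (TT.poly hQ ih) ((MvPolynomial.finSuccEquiv B n).restrictScalars k)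
  exact TT.of_bij (hn n) ((MvPolynomial.renameEquiv B e).restrictScalars k)

end Pool.Agent.CXD
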