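import Pool.Agent.P.MP_2ce3e7_ag.CZC2
import Pool.Agent.P.MP_2ce3e7_ag.CZD
import Pool.Agent.P.MP_2ce3e7_ag.CZD2
import Pool.Agent.P.MP_2ce3e7_ag.CYO
import Pool.Agent.P.MP_2ce3e7_ag.CYP

/-! The induction on the strata. -/

set_option linter.unusedSectionVars false
set_option linter.unusedVariables false

open Matrix
open scoped TensorProduct

noncomputable section

namespace Pool.Agent.CXD

variable {k : Type} [Field k] [Fintype k] {n q i d : ℕ} {σ : Type} [Fintype σ] [DecidableEq σ]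
  {G : Matrix (Fin n) (Fin n) k} {F : Frame G q σ i}
  {c : Matrix (Fin (2 * i + 1)) (Fin (2 * i + 1)) (Cox F.H q (q ^ 2) i)}
  {ψ : SV G q d →ₐ[k] F.Par}

theorem Frame.Str.cases (hk : Fintype.card k = q ^ 2) (h : F.Str d c ψ)
    (hd : Fintype.card σ + i = d) (p : Ideal (SV G q d)) (hp : p.IsPrime) (hw : F.In p) :
    (∃ j, i = j + 1 ∧ ∃ F' : Frame G q (σ ⊕ Unit) j, F'.In p) ∨
      (RingHom.ker ψ.toRingHom ≤ p ∧ ∃ f ∈ F.bd d, f ∉ p) := by
  obtain ⟨L, _, _, _, α, rfl⟩ := exists_closed_point (k := k) p hp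
  have hG : (G.map (algebraMap k (SV G q d))).map α.toRingHom = G.map (algebraMap k L) := by
    ext a b
    exact α.commutes _
  have hF : (F.map (algebraMap k (SV G q d))).H.map α.toRingHom = F.H.map (algebraMap k L) := by
    ext a b
    exact α.commutes _
  have he : Sv (G.map (algebraMap k L)) q d ((eS q d G).map α) ((mS q d G).map α) :=
    hG ▸ (sv_univ q d G).map α.toRingHom
  have hw' := (Frame.in_iff α).1 hw
  have hb := fb_of_card hk L
  rcases (F.map (algebraMap k L)).field_cases hk hd he hw' with ⟨v, hv, h0, h1⟩ |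
    ⟨x, hx, ⟨C, h1⟩, C', h2⟩
  · have h0' : bform F.H q v v = 0 := by
      apply (algebraMap k L).injective
      rw [map_bform, map_zero]
      exact h0
    obtain ⟨j, hj, F', hF'⟩ := F.exists_next hk hv h0'
    exact Or.inl ⟨j, hj, F', (Frame.in_iff α).2 (hF' _ hw' h1)⟩
  · obtain ⟨h3, h4⟩ := (F.map (algebraMap k L)).same hb he hw' hx h1 h2
    obtain ⟨τ, hτ⟩ := h.lift hk α hx h3 h4
    obtain ⟨ch, hch⟩ := exists_fv_ne ((F.map (algebraMap k L)).her hb) hx h1 h2
    refine Or.inr ⟨fun y hy => ?_, _, ⟨ch, rfl⟩, fun hf => hch ?_⟩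
    · rw [← hτ]
      exact (congrArg τ (RingHom.mem_ker.1 hy)).trans (map_zero τ)
    · rw [RingHom.mem_ker, map_fv] at hf
      refine Eq.trans ?_ hf
      congr 1
      · exact hF.symm
      · simp only [Frame.co, Frame.map, Matrix.map_mul, dg_map, Matrix.map_map]
        congr 2
        · congr 1
          ext a b
          exact (α.commutes _).symm
        · congr 1
          ext a b
          exact (α.commutes _).symm
        · ext a
          exact (α.commutes _).symm

variable {K : Type} [CommRing K] [Algebra k K] [IsNoetherianRing K]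

theorem TT.cox' (hk : Fintype.card k = q ^ 2) {H : Matrix (Fin (2 * i + 1)) (Fin (2 * i + 1)) k}
    (h : Her H q) : TT k K (Cox H q (q ^ 2) i) q (q ^ 2) := by
  have := cox_finiteType (G := H) (r := q) (Q := q ^ 2) (κ := i)
  rcases Nat.eq_zero_or_pos i with rfl | hi
  · exact TT.of_surj (cox_zero_surj H)
  · obtain ⟨p, e, hp, hc, he, rfl⟩ := exists_pow_of_card (k := k) (Or.inr hk)
    obtain ⟨ex, hy⟩ := hyp_unitary hp he hi h.det.ne_zero ⟨rfl, rfl, h.herm, Or.inl rfl⟩
    exact TT.cox hy hk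

/-- vanishing on a quotient -/
def Zq {A : Type} [CommRing A] (χ : Val A) (P : Ideal A) : Prop := χ.val (A ⧸ P) = 0

theorem strata (hk : Fintype.card k = q ^ 2) (hn : d ≤ n) {X : Set (Val (K ⊗[k] SV G q d))}
    (hX : Fam (Fr k K (SV G q d)) q (Fintype.card k) X) (hE : ∀ χ ∈ X, Ext1 k K _ χ) (i : ℕ) :
    ∀ (σ : Type) [Fintype σ] [DecidableEq σ] (F : Frame G q σ i), Fintype.card σ + i = d →
      ∀ χ ∈ X, ∀ P : Ideal (K ⊗[k] SV G q d), P.IsPrime → F.In (P.comap (inr k K _)) →
        Zq χ P := by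
  induction i using Nat.strong_induction_on with
  | h i ih =>
    intro σ _ _ F hd
    obtain ⟨c, ψ, h⟩ := F.exists_str hk hd hn
    have := cox_finiteType (G := F.H) (r := q) (Q := q ^ 2) (κ := i)
    have hT : TT k K F.Par q (q ^ 2) := (TT.cox' hk (F.her (fb_of_card hk k))).mv hk _
    have hnext : ∀ χ ∈ X, ∀ P : Ideal (K ⊗[k] SV G q d), P.IsPrime →
        (∃ j, i = j + 1 ∧ ∃ F' : Frame G q (σ ⊕ Unit) j, F'.In (P.comap (inr k K _))) →
        Zq χ P := by
      rintro χ hχ P hP ⟨j, hj, F', hF'⟩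
      exact ih j (by omega) _ F' (by simp; omega) χ hχ P hP hF'
    have hp := hT.piece ψ (h.pc hk) hX hE fun χ hχ P hP h1 h2 => by
      rcases h.cases hk hd _ (hP.comap _) (fun a b => h1 (h.isIn hk a b)) with h3 | ⟨-, f, h3, h4⟩
      · exact hnext χ hχ P hP h3
      · exact absurd (h2 f h3) h4
    intro χ hχ P hP hw
    rcases h.cases hk hd _ (hP.comap _) hw with h3 | ⟨h3, -⟩
    · exact hnext χ hχ P hP h3
    · exact hp χ hχ P hP h3

theorem dec_sv (k : Type) [Field k] [Fintype k] (q d : ℕ) (hk : Fintype.card k = q ^ 2)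
    (G : Matrix (Fin (2 * d + 1)) (Fin (2 * d + 1)) k) (hG : G.det ≠ 0)
    (herm : ∀ a b, G a b = G b a ^ q)
    (K : Type) [CommRing K] [Algebra k K] [IsNoetherianRing K] :
    Dec (Fr k K (SV G q d)) q (Fintype.card k) (Prods k K (SV G q d)) := by
  refine TT.dec (Q := 0) fun X hX hE χ hχ M _ _ _ => ?_
  have := noeth_tensor k K (SV G q d)
  obtain ⟨F⟩ := exists_base ⟨fb_of_card hk k, herm, hG.isUnit⟩
  exact val_of_primes (hX.add χ hχ) M kill_bot fun P hP _ =>
    strata hk (by omega) hX hE d Empty F (by simp) χ hχ P hP fun a => a.elim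

end Pool.Agent.CXD
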