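import Pool.Agent.P.MP_2ce3e7_ag.CV4
import Pool.Agent.P.MP_2ce3e7_ag.CWO
import Pool.Agent.P.MP_2ce3e7_ag.CWG3
import Pool.Agent.P.MP_2ce3e7_ag.CWJ3
import Pool.Agent.P.MP_2ce3e7_ag.CZE

/-! The induction on the strata of the projective model. -/

set_option linter.unusedSectionVars false
set_option linter.unusedVariables false

open Matrix LaurentPolynomial
open scoped TensorProduct

noncomputable section

namespace Pool.Agent.CXD

section Piece
variable {k K A B D σ : Type} [Field k] [Fintype k] [CommRing K] [Algebra k K] [IsNoetherianRing K]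
  [CommRing A] [Algebra k A] [CommRing B] [Algebra k B] [Algebra.FiniteType k B] [CommRing D]
  [Algebra k D] [Algebra.FiniteType k D] [Fintype σ] {𝒜 : ℤ → Set A} {z : σ → A}
  {θ : A →ₐ[k] A[T;T⁻¹]} [Gd 𝒜] [Gk k 𝒜] {r Q : ℕ}

theorem exists_point_tensor (P : Ideal (K ⊗[k] A)) (hP : P.IsPrime) :
    ∃ (L : Type) (_ : Field L) (_ : IsAlgClosed L) (_ : Algebra k L) (α : K ⊗[k] A →ₐ[k] L),
      RingHom.ker α.toRingHom = P := exists_closed_point P hP

theorem gen_unit_int : AddSubgroup.closure ({((), 1)} : Set (Unit × ℤ)) = ⊤ := by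
  refine eq_top_iff.2 fun x _ => ?_
  have h : x = x.2 • (((), 1) : Unit × ℤ) := Prod.ext rfl (by simp)
  rw [h]
  exact zsmul_mem (AddSubgroup.subset_closure (by simp)) _

theorem Std.piece (h : Std 𝒜 z θ) (hT : TT k K B r Q) {ι : B →ₐ[k] D} {s : Type} [Fintype s]
    {p : D →+ B} {y y' : s → D} (het : Et ι.toRingHom (frb k B) (frb k D) s p y y')
    (ψ : A →ₐ[k] D) {S : Set A} (hS : Pc (hat θ.toRingHom ψ.toRingHom) S)
    (hz : ∀ f ∈ S, ∃ i, z i ∣ f) {m : ℕ}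
    (hm : ∀ c, ∀ a ∈ cl (tg k (tv K) 𝒜) c, ∃ w, mp K ι w = mp K ψ a ^ (1 + m))
    {X : Set (GM (tg k (tv K) 𝒜) → ℚ)} (hX : FamG (verF k (tv K) 𝒜) r (Fintype.card k) X)
    (hE : ∀ l ∈ X, ExtG k (tv K) 𝒜 l)
    (hv : ∀ l ∈ X, ∀ P : Ideal (K ⊗[k] A), P.IsPrime →
      RingHom.ker (hat θ.toRingHom ψ.toRingHom) ≤ P.comap (inr k K A) →
        (∀ f ∈ S, inr k K A f ∈ P) → ZG l P) :
    ∀ l ∈ X, ∀ P : Ideal (K ⊗[k] A), P.IsPrime → RingHom.ker (hat (thR K θ) (mp K ψ)) ≤ P →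
      ZG l P := by
  have hft := h.finiteType
  have hn := noeth_tensor k K A
  have hn' := noeth_tensor k K D
  have hc := h.chR ψ (tv K)
  have hS' := h.pcR (K := K) hS
  have hv' : ∀ l ∈ X, VnG (RingHom.ker (hat (thR K θ) (mp K ψ))) (inr k K A '' S) l := fun l hl =>
    (hX.add l hl).vn_of_primes fun P hP hk hf =>
      hv l hl P hP (fun a ha => hk (h.ker_inr ψ ha)) fun f hf' => hf _ ⟨f, hf', rfl⟩
  have hD : Hm (Fr k K D) (tg k (tv K) (tv D)) (tg k (tv K) (tv D))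
      (mu Unit Unit (Fintype.card k)) := hm_Fr fun _ _ => rfl
  obtain ⟨L, hL, hF⟩ := FamG.lau hc hS' (hm_Fr card_smul_eq_zero) hD (Fr_finite k K A)
    (Fr_finite k K D) (mp_Fr ψ) (m := Fintype.card k) (by exact_mod_cast Fintype.card_ne_zero)
    (fun c => Prod.ext (nsmul_eq_mul _ _) rfl)
    (by rintro _ ⟨f, -, rfl⟩; exact ⟨_, Fintype.card_pos, Fr_inr f⟩) hX hv'
  have h0 := fun χ hχ => hT.bc het (hF.toFam hD (Fr_finite k K D)) (by
    rintro _ ⟨_, ⟨l, hl, rfl⟩, rfl⟩ N M _ _ hN _ _ hM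
    obtain ⟨L', j', hj'⟩ := lau_exists_lat (h := h.ch ψ) (W := GM.triv (tv D) M) hS hM
    obtain ⟨J, hJ⟩ := h.box_latR ψ (N := GM.triv (tv K) N) hN hj'
    have hb := gbox_finite (k := k) (N := GM.triv (tv K) N) (M := GM.triv (tv D) M) hN hM
    obtain ⟨J', hJ'⟩ := hL _ hb
    refine Eq.trans ?_ ((hJ'.val (hX.add l hl) (hv' l hl) lau_kill hJ).trans
      (hE l hl _ _ hN hj'.fin))
    exact (hF.add _ ⟨l, hl, rfl⟩).congr hb (M := GM.triv _ (Box k K D N M)) (f := LinearMap.id)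
      (isG_of_subsingleton _) Function.bijective_id) (χ := χ) hχ
  intro l hl P hP hk
  refine pieceG hc hS' (hX.add l hl) (hv' l hl) (fun P' hP' hf => Or.inr ?_) (fun H hH => ?_) P hP hk
  · obtain ⟨_, ⟨f, hf, rfl⟩, hf'⟩ := hf
    obtain ⟨i, g, rfl⟩ := hz f hf
    refine shf_of_gen hP' gen_unit_int ?_
    rintro _ rfl
    refine ⟨_, tmul_mem_cl cl_one (mem_cl (h.deg i)), fun hi => hf' ?_⟩
    rw [map_mul]
    exact P'.mul_mem_right _ hi
  · let 𝔫 : Ideal (K ⊗[k] B) := (Ideal.span (mp K ψ '' H)).comap (mp K ι)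
    refine ⟨GM.triv _ (K ⊗[k] D ⧸ 𝔫.map (mp K ι)), 1, inferInstance, ?_, fun w hw => ?_,
      fun L' j' hj' => ?_⟩
    · rintro _ ⟨a, ha, rfl⟩ x
      obtain ⟨c, hc'⟩ := hH a ha
      obtain ⟨w, hw⟩ := hm c a hc'
      refine ⟨1 + m, kill_quot le_rfl _ (hw ▸ Ideal.mem_map_of_mem _ ?_) x⟩
      rw [Ideal.mem_comap, hw, pow_add, pow_one]
      exact Ideal.mul_mem_right _ _ (Ideal.subset_span ⟨a, ha, rfl⟩)
    · refine Ideal.map_comap_le (f := mp K ι) (Ideal.Quotient.eq_zero_iff_mem.1 ?_)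
      rw [← hw]
      exact congrArg (Ideal.Quotient.mk _) (mul_one w).symm
    · obtain ⟨J, hJ⟩ := hL (GM.triv _ (K ⊗[k] D ⧸ 𝔫.map (mp K ι))) inferInstance
      exact (hj'.val (hX.add l hl) (hv' l hl) lau_kill hJ).trans
        (h0 _ ⟨_, ⟨l, hl, rfl⟩, rfl⟩ 𝔫)

end Piece

variable {k : Type} [Field k] [Fintype k] {n q i d : ℕ} {σ : Type} [Fintype σ] [DecidableEq σ]
  {G : Matrix (Fin n) (Fin n) k} {θ : Pl G q d →ₐ[k] (Pl G q d)[T;T⁻¹]}
  {K : Type} [CommRing K] [Algebra k K] [IsNoetherianRing K]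

theorem Frame.casesG (F : Frame G q σ i) (hk : Fintype.card k = q ^ 2) (ε : Fin d ≃ σ ⊕ Fin i)
    (hn : d ≤ n) (hθ : Std (hom (plI G q d)) (crd (plI G q d)) θ) {ψ : Pl G q d →ₐ[k] Dv F.H q i}
    (hψ : ∀ I, ψ (crd (plI G q d) I) = plu (F.uD ε) I) (P : Ideal (K ⊗[k] Pl G q d))
    (hP : P.IsPrime) (hw : F.InG (P.comap (inr k K _))) :
    (∀ I, inr k K _ (crd (plI G q d) I) ∈ P) ∨
      (∃ j, i = j + 1 ∧ ∃ F' : Frame G q (σ ⊕ Unit) j, F'.InG (P.comap (inr k K _))) ∨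
        (RingHom.ker (hat (thR K θ) (mp K ψ)) ≤ P ∧ ∃ f ∈ F.bz d, inr k K _ f ∉ P) := by
  obtain ⟨L, _, _, _, α, rfl⟩ := exists_point_tensor P hP
  refine or_iff_not_imp_left.2 fun hz => ?_
  obtain ⟨I, hI⟩ := not_forall.1 hz
  let β : Pl G q d →ₐ[k] L := α.comp Algebra.TensorProduct.includeRight
  have hβ : β.toRingHom.comp (algebraMap k (Pl G q d)) = algebraMap k L := β.comp_algebraMap
  have hpk : Pk (G.map (algebraMap k L)) q fun J => β (crd (plI G q d) J) := by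
    have := (pk_crd (d := d) hk G).map β.toRingHom
    rwa [mm_CZC hβ] at this
  rcases F.point_cases hk ε hn hpk (I := I) hI ((F.inG_iff β).1 hw) with ⟨j, hj, F', hF'⟩ |
    ⟨x, hx, ⟨t, ht⟩, ch, hch⟩
  · exact Or.inl ⟨j, hj, F', (F'.inG_iff β).2 hF'⟩
  · obtain ⟨τ, hτ⟩ := exists_pointD F.H hx
    refine Or.inr ⟨hθ.ker_right ψ α τ t fun J => (ht J).trans ?_, _, ⟨I, ch, rfl⟩, fun hf =>
      hch ((F.map_map β.toRingHom hβ _ I ch).symm.trans hf)⟩
    rw [hψ]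
    refine congrArg (· * (t : L)) ((map_plu τ.toRingHom _ J).trans ?_).symm
    congr 1
    have e : τ.toRingHom.comp (algebraMap k (Dv F.H q i)) = algebraMap k L := τ.comp_algebraMap
    rw [Frame.uD, Frame.ub_map]
    simp only [Frame.ub, Frame.bs, Frame.map, mm_CZC e]
    congr 4
    exact funext hτ

theorem strataG (hk : Fintype.card k = q ^ 2) (hn : d ≤ n)
    (hθ : Std (hom (plI G q d)) (crd (plI G q d)) θ)
    {X : Set (GM (tg k (tv K) (hom (plI G q d))) → ℚ)}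
    (hX : FamG (verF k (tv K) (hom (plI G q d))) q (Fintype.card k) X) (hE : ∀ l ∈ X, ExtG k _ _ l)
    (hv : ∀ l ∈ X, VnG ⊥ (Set.range fun I => inr k K _ (crd (plI G q d) I)) l) (i : ℕ) :
    ∀ (σ : Type) [Fintype σ] [DecidableEq σ] (F : Frame G q σ i), Fintype.card σ + i = d →
      ∀ l ∈ X, ∀ P : Ideal (K ⊗[k] Pl G q d), P.IsPrime → F.InG (P.comap (inr k K _)) →
        ZG l P := by
  induction i using Nat.strong_induction_on with
  | h i ih =>
    intro σ _ _ F hd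
    obtain ⟨ε⟩ : Nonempty (Fin d ≃ σ ⊕ Fin i) := Fintype.card_eq.1 (by simp [hd])
    obtain ⟨ψ, hψ⟩ := F.exists_psi ε hk
    obtain ⟨s, _, p, y, y', het⟩ := exists_et (i := i) F.H hk
    have := cox_finiteType (G := F.H) (r := q) (Q := q ^ 2) (κ := i)
    have hrest : ∀ l ∈ X, ∀ P : Ideal (K ⊗[k] Pl G q d), P.IsPrime →
        F.InG (P.comap (inr k K _)) →
        ZG l P ∨ (RingHom.ker (hat (thR K θ) (mp K ψ)) ≤ P ∧ ∃ f ∈ F.bz d, inr k K _ f ∉ P) := by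
      intro l hl P hP hw
      rcases F.casesG hk ε hn hθ hψ P hP hw with h1 | ⟨j, hj, F', hF'⟩ | h3
      · exact Or.inl fun C hC => (hv l hl).mono hC (by rintro _ ⟨I, rfl⟩; exact h1 I)
      · exact Or.inl (ih j (by omega) _ F' (by simp; omega) l hl P hP hF')
      · exact Or.inr h3
    have hp := hθ.piece (TT.cox' (K := K) hk (F.her (fb_of_card hk k))) het ψ (Frame.pcG hk hθ hψ)
      (by rintro _ ⟨I, ch, rfl⟩; exact ⟨I, Dvd.intro _ rfl⟩)
      (fun c a ha => Frame.pow_mem hθ hψ K ha) hX hE fun l hl P hP h1 h2 =>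
        (hrest l hl P hP fun J a b => h1 (Frame.isInG hθ hψ J a b)).resolve_right
          fun ⟨_, f, h3, h4⟩ => h4 (h2 f h3)
    exact fun l hl P hP hw => (hrest l hl P hP hw).elim id fun h3 => hp l hl P hP h3.1

theorem numTors_sv (k : Type) [Field k] [Fintype k] (q d : ℕ) (hd : 0 < d)
    (hk : Fintype.card k = q ^ 2) (G : Matrix (Fin (2 * d + 1)) (Fin (2 * d + 1)) k)
    (hG : G.det ≠ 0) (herm : ∀ a b, G a b = G b a ^ q) :
    NumTors k (hom (plI G q d)) (crd (plI G q d)) := by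
  obtain ⟨θ, h⟩ := exists_pl_theta (G := G) hk hd
  have hθ := hom_std _ θ h
  have hft := hθ.finiteType
  have hn := noeth_tensor k (Pl G q d) (Pl G q d)
  refine hθ.numTors (r := q) (Q := q ^ 2) fun K _ _ _ X hX hE hv l hl M hM => ?_
  have := noeth_tensor k K (Pl G q d)
  obtain ⟨F⟩ := exists_base ⟨fb_of_card hk k, herm, hG.isUnit⟩
  exact (hX.add l hl).of_primes M hM fun P hP _ =>
    strataG hk (by omega) hθ hX hE hv d Empty F (by simp) l hl P hP fun _ a => a.elim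

end Pool.Agent.CXD
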