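import Pool.Agent.P.MP_2ce3e7_ag.CX0

/-! Additive functions on modules. -/

set_option linter.unusedSectionVars false
set_option linter.unusedVariables false

open Function

noncomputable section

namespace Pool.Agent.CXD

/-- rational valued functions on modules -/
structure Val (R : Type) [CommRing R] where
  val : (M : Type) → [AddCommGroup M] → [Module R M] → ℚ

variable {R R' : Type} [CommRing R] [CommRing R']

/-- `b` kills `M` -/
def Kill (b : Ideal R) (M : Type) [AddCommGroup M] [Module R M] : Prop :=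
  ∀ x ∈ b, ∀ y : M, x • y = 0

/-- additive on short exact sequences of finite modules killed by `b` -/
def IsAdd (χ : Val R) (b : Ideal R) : Prop :=
  ∀ (M N P : Type) [AddCommGroup M] [Module R M] [AddCommGroup N] [Module R N]
    [AddCommGroup P] [Module R P] [Module.Finite R N] (f : M →ₗ[R] N) (g : N →ₗ[R] P),
    Injective f → Surjective g → Exact f g → Kill b N → χ.val N = χ.val M + χ.val P

/-- linear combination -/
def Val.lin (s t : ℚ) (χ χ' : Val R) : Val R := ⟨fun M _ _ => s * χ.val M + t * χ'.val M⟩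

/-- Euler characteristic of multiplication by `a` -/
def rho (a : R) (χ : Val R) : Val R :=
  ⟨fun M _ _ => χ.val (M ⧸ LinearMap.range (LinearMap.lsmul R M a)) -
    χ.val (LinearMap.ker (LinearMap.lsmul R M a))⟩

/-- Euler characteristic for `a l, …, a (l + m - 1)` -/
def Eu (χ : Val R) (a : ℕ → R) : ℕ → ℕ → Val R
  | _, 0 => χ
  | l, m + 1 => rho (a l) (Eu χ a (l + 1) m)

/-- the ideal generated by `a j`, `j < l` -/
def lev (a : ℕ → R) (l : ℕ) : Ideal R := Ideal.span (a '' {j | j < l})

/-- restriction of scalars -/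
def push (ψ : R →+* R') (χ : Val R) : Val R' :=
  ⟨fun M _ _ => @Val.val R _ χ M _ (Module.compHom M ψ)⟩

open Classical in
/-- from modules over the quotient ring to modules killed by the ideal -/
def lift (b : Ideal R) (χ : Val (R ⧸ b)) : Val R :=
  ⟨fun M _ _ => if h : Module.IsTorsionBySet R M b then @Val.val (R ⧸ b) _ χ M _ h.module else 0⟩

variable {χ : Val R} {b : Ideal R} {M N : Type} [AddCommGroup M] [Module R M] [AddCommGroup N]
  [Module R N]

theorem Kill.mono {b' : Ideal R} (h : Kill b' M) (hb : b ≤ b') : Kill b M :=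
  fun x hx y => h x (hb hx) y

theorem kill_bot : Kill (⊥ : Ideal R) M := fun x hx y => by rw [Ideal.mem_bot.1 hx, zero_smul]

theorem Kill.of_injective (h : Kill b N) (f : M →ₗ[R] N) (hf : Injective f) : Kill b M :=
  fun x hx y => hf (by rw [map_smul, h x hx, map_zero])

theorem Kill.of_surjective (h : Kill b M) (f : M →ₗ[R] N) (hf : Surjective f) : Kill b N :=
  fun x hx y => by
    obtain ⟨z, rfl⟩ := hf y
    rw [← map_smul, h x hx, map_zero]

theorem kill_quot {I : Ideal R} (h : b ≤ I) : Kill b (R ⧸ I) := fun x hx y => by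
  have : x ∈ Module.annihilator R (R ⧸ I) := by
    rw [Ideal.annihilator_quotient]
    exact h hx
  exact Module.mem_annihilator.1 this y

theorem kill_iff : Kill b M ↔ b ≤ Module.annihilator R M :=
  ⟨fun h x hx => Module.mem_annihilator.2 (h x hx), fun h x hx => Module.mem_annihilator.1 (h hx)⟩

theorem IsAdd.mono {b' : Ideal R} (h : IsAdd χ b) (hb : b ≤ b') : IsAdd χ b' :=
  fun M N P _ _ _ _ _ _ _ f g hf hg he hk => h M N P f g hf hg he (hk.mono hb)

theorem IsAdd.zero (h : IsAdd χ b) (M : Type) [AddCommGroup M] [Module R M] [Subsingleton M] :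
    χ.val M = 0 := by
  have h := h M M M LinearMap.id LinearMap.id
    (fun a b _ => Subsingleton.elim a b) (fun a => ⟨a, rfl⟩)
    (fun y => ⟨fun _ => ⟨y, rfl⟩, fun _ => Subsingleton.elim _ _⟩)
    (fun _ _ _ => Subsingleton.elim _ _)
  simpa using h

theorem IsAdd.congr (h : IsAdd χ b) [Module.Finite R N] (e : M ≃ₗ[R] N) (hk : Kill b N) :
    χ.val M = χ.val N := by
  have h1 := h M N PUnit e.toLinearMap 0 e.injective
    (fun a => ⟨0, Subsingleton.elim _ _⟩)
    (fun y => ⟨fun _ => e.surjective y, fun _ => Subsingleton.elim _ _⟩) hk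
  rw [h1, h.zero PUnit, add_zero]

theorem IsAdd.ker_range (h : IsAdd χ b) [Module.Finite R M] (f : M →ₗ[R] N) (hk : Kill b M) :
    χ.val M = χ.val (LinearMap.ker f) + χ.val (LinearMap.range f) := by
  refine h _ _ _ (LinearMap.ker f).subtype f.rangeRestrict (LinearMap.ker f).injective_subtype
    f.surjective_rangeRestrict ?_ hk
  rw [LinearMap.exact_iff, LinearMap.ker_rangeRestrict, Submodule.range_subtype]

theorem IsAdd.lin {χ' : Val R} (h : IsAdd χ b) (h' : IsAdd χ' b) (s t : ℚ) :
    IsAdd (Val.lin s t χ χ') b := by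
  intro M N P _ _ _ _ _ _ _ f g hf hg he hk
  simp only [Val.lin]
  rw [h M N P f g hf hg he hk, h' M N P f g hf hg he hk]
  ring

theorem lev_succ (a : ℕ → R) (l : ℕ) : lev a (l + 1) = lev a l ⊔ Ideal.span {a l} := by
  rw [lev, lev, ← Ideal.span_union]
  congr 1
  ext x
  constructor
  · rintro ⟨j, hj, rfl⟩
    rcases Nat.lt_succ_iff_lt_or_eq.1 hj with h | h
    · exact Or.inl ⟨j, h, rfl⟩
    · exact Or.inr (by rw [h]; rfl)
  · rintro (⟨j, hj, rfl⟩ | h)
    · exact ⟨j, Nat.lt_succ_of_lt hj, rfl⟩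
    · exact ⟨l, Nat.lt_succ_self l, h.symm⟩

theorem lev_zero (a : ℕ → R) : lev a 0 = ⊥ := by simp [lev]

theorem lev_le {a : ℕ → R} {l : ℕ} {I : Ideal R} : lev a l ≤ I ↔ ∀ j < l, a j ∈ I := by
  rw [lev, Ideal.span_le]
  exact ⟨fun h j hj => h ⟨j, hj, rfl⟩, by rintro h _ ⟨j, hj, rfl⟩; exact h j hj⟩

theorem Eu_lin (s t : ℚ) (χ χ' : Val R) (a : ℕ → R) (l m : ℕ) :
    Eu (Val.lin s t χ χ') a l m = Val.lin s t (Eu χ a l m) (Eu χ' a l m) := by
  induction m generalizing l with
  | zero => rfl
  | succ m ih =>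
    rw [Eu, Eu, Eu, ih]
    simp only [rho, Val.lin]
    congr 1
    funext M _ _
    ring

theorem push_lin (ψ : R →+* R') (s t : ℚ) (χ χ' : Val R) :
    push ψ (Val.lin s t χ χ') = Val.lin s t (push ψ χ) (push ψ χ') := rfl

theorem lift_lin (s t : ℚ) (χ χ' : Val (R ⧸ b)) :
    lift b (Val.lin s t χ χ') = Val.lin s t (lift b χ) (lift b χ') := by
  simp only [lift, Val.lin]
  congr 1
  funext M _ _
  split_ifs <;> simp

theorem push_push {R'' : Type} [CommRing R''] (ψ : R →+* R') (ψ' : R' →+* R'') (χ : Val R) :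
    push ψ' (push ψ χ) = push (ψ'.comp ψ) χ := rfl

theorem push_id (χ : Val R) : push (RingHom.id R) χ = χ := rfl

end Pool.Agent.CXD
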