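import Pool.Agent.P.MP_2ce3e7_ag.CW0
import Pool.Agent.P.MP_2ce3e7_ag.CXA

/-! Graded modules: basic constructions. -/

set_option linter.unusedSectionVars false
set_option linter.unusedVariables false

open Function

noncomputable section

namespace Pool.Agent.CXD

variable {A Γ : Type} [CommRing A] [AddCommGroup Γ] {𝒜 : Γ → Set A}

/-- sums of elements of degree `c` -/
abbrev cl (𝒜 : Γ → Set A) (c : Γ) : AddSubgroup A := AddSubgroup.closure (𝒜 c)

/-- the homogeneous elements generate the ring -/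
class Gd (𝒜 : Γ → Set A) : Prop where
  one : (1 : A) ∈ 𝒜 0
  mul : ∀ c d, ∀ a ∈ 𝒜 c, ∀ b ∈ 𝒜 d, a * b ∈ 𝒜 (c + d)
  gen : AddSubgroup.closure (⋃ c, 𝒜 c) = ⊤

theorem mem_cl {c : Γ} {a : A} (h : a ∈ 𝒜 c) : a ∈ cl 𝒜 c := AddSubgroup.subset_closure h

theorem Gd.ind (𝒜 : Γ → Set A) [Gd 𝒜] {p : A → Prop} (h0 : p 0) (h1 : ∀ c, ∀ a ∈ 𝒜 c, p a)
    (h2 : ∀ a b, p a → p b → p (a + b)) (h3 : ∀ a, p a → p (-a)) (a : A) : p a := by
  have ha : a ∈ AddSubgroup.closure (⋃ c, 𝒜 c) := by rw [Gd.gen]; trivial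
  induction ha using AddSubgroup.closure_induction with
  | mem x hx => obtain ⟨c, hc⟩ := Set.mem_iUnion.1 hx; exact h1 c x hc
  | zero => exact h0
  | add x y _ _ hx hy => exact h2 x y hx hy
  | neg x _ hx => exact h3 x hx

theorem cl_one [Gd 𝒜] : (1 : A) ∈ cl 𝒜 0 := mem_cl Gd.one

theorem cl_mul [Gd 𝒜] {c d : Γ} {a b : A} (ha : a ∈ cl 𝒜 c) (hb : b ∈ cl 𝒜 d) :
    a * b ∈ cl 𝒜 (c + d) := by
  induction ha using AddSubgroup.closure_induction with
  | mem x hx =>
    induction hb using AddSubgroup.closure_induction with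
    | mem y hy => exact mem_cl (Gd.mul c d x hx y hy)
    | zero => rw [mul_zero]; exact zero_mem _
    | add y z _ _ hy hz => rw [mul_add]; exact add_mem hy hz
    | neg y _ hy => rw [mul_neg]; exact neg_mem hy
  | zero => rw [zero_mul]; exact zero_mem _
  | add x y _ _ hx hy => rw [add_mul]; exact add_mem hx hy
  | neg x _ hx => rw [neg_mul]; exact neg_mem hx

theorem cl_pow [Gd 𝒜] {c : Γ} {a : A} (ha : a ∈ cl 𝒜 c) (m : ℕ) : a ^ m ∈ cl 𝒜 (m • c) := by
  induction m with
  | zero => rw [pow_zero, zero_smul]; exact cl_one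
  | succ m ih => rw [pow_succ, succ_nsmul]; exact cl_mul ih ha

theorem Gd.dec (𝒜 : Γ → Set A) [Gd 𝒜] (a : A) :
    ∃ b : Γ →₀ A, (∀ c, b c ∈ cl 𝒜 c) ∧ ∑ c ∈ b.support, b c = a := by
  classical
  have key : ∃ b : Γ →₀ A, (∀ c, b c ∈ cl 𝒜 c) ∧ (b.sum fun _ x => x) = a := by
    refine Gd.ind 𝒜 (p := fun a => ∃ b : Γ →₀ A, (∀ c, b c ∈ cl 𝒜 c) ∧ (b.sum fun _ x => x) = a)
      ⟨0, fun c => zero_mem _, Finsupp.sum_zero_index⟩ ?_ ?_ ?_ a
    · intro c x hx
      refine ⟨Finsupp.single c x, fun e => ?_, Finsupp.sum_single_index rfl⟩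
      by_cases h : c = e
      · subst h; rw [Finsupp.single_eq_same]; exact mem_cl hx
      · rw [Finsupp.single_apply, if_neg h]; exact zero_mem _
    · rintro x y ⟨b, hb, rfl⟩ ⟨b', hb', rfl⟩
      exact ⟨b + b', fun c => add_mem (hb c) (hb' c),
        Finsupp.sum_add_index' (fun _ => rfl) fun _ _ _ => rfl⟩
    · rintro x ⟨b, hb, rfl⟩
      refine ⟨-b, fun c => neg_mem (hb c), ?_⟩
      simp only [Finsupp.sum, Finsupp.support_neg, Finsupp.neg_apply, Finset.sum_neg_distrib]
  exact key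

namespace GM

variable (M : GM 𝒜)

theorem π_cl {c : Γ} {a : A} (ha : a ∈ cl 𝒜 c) (d : Γ) (x : M.M) :
    M.π (c + d) (a • x) = a • M.π d x := by
  induction ha using AddSubgroup.closure_induction with
  | mem a ha => exact M.π_smul c d a ha x
  | zero => rw [zero_smul, zero_smul, map_zero]
  | add a b _ _ ha hb => rw [add_smul, add_smul, map_add, ha, hb]
  | neg a _ ha => rw [neg_smul, neg_smul, map_neg, ha]

variable {M} in
theorem hom_smul {c d : Γ} {a : A} (ha : a ∈ cl 𝒜 c) {x : M.M} (hx : M.π d x = x) :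
    M.π (c + d) (a • x) = a • x := by
  rw [M.π_cl ha, hx]

variable {M} in
theorem π_of_ne {d e : Γ} {x : M.M} (hx : M.π d x = x) (h : e ≠ d) : M.π e x = 0 := by
  rw [← hx, M.π_ne e d x h]

theorem ind {p : M.M → Prop} (h0 : p 0) (h1 : ∀ d x, M.π d x = x → p x)
    (h2 : ∀ x y, p x → p y → p (x + y)) (x : M.M) : p x := by
  obtain ⟨s, hs⟩ := M.sum_π x
  rw [← hs]
  exact Finset.sum_induction _ p h2 h0 fun d _ => h1 d _ (M.π_self d x)

theorem fin_supp (x : M.M) : {d | M.π d x ≠ 0}.Finite := by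
  obtain ⟨s, hs⟩ := M.sum_π x
  refine s.finite_toSet.subset fun d hd => ?_
  by_contra hds
  apply hd
  rw [← hs, map_sum]
  exact Finset.sum_eq_zero fun e he => M.π_ne d e x fun h => hds (h ▸ he)

theorem sum_of_supp (x : M.M) (s : Finset Γ) (h : ∀ d, M.π d x ≠ 0 → d ∈ s) :
    ∑ d ∈ s, M.π d x = x := by
  classical
  obtain ⟨t, ht⟩ := M.sum_π x
  have h1 : ∑ d ∈ s, M.π d x = ∑ d ∈ s ∪ t, M.π d x :=
    Finset.sum_subset Finset.subset_union_left fun d _ hd => by
      by_contra h0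
      exact hd (h d h0)
  have h2 : ∑ d ∈ t, M.π d x = ∑ d ∈ s ∪ t, M.π d x :=
    Finset.sum_subset Finset.subset_union_right fun d _ hd => by
      rw [← ht, map_sum]
      exact Finset.sum_eq_zero fun e he => M.π_ne d e x fun h => hd (h ▸ he)
  rw [h1, ← h2, ht]

theorem eq_zero {x : M.M} (h : ∀ d, M.π d x = 0) : x = 0 := by
  obtain ⟨s, hs⟩ := M.sum_π x
  rw [← hs]
  exact Finset.sum_eq_zero fun d _ => h d

theorem hom_ext {X : Type} [AddCommGroup X] {f g : M.M →+ X}
    (h : ∀ d x, M.π d x = x → f x = g x) : f = g := by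
  ext x
  refine M.ind (p := fun x => f x = g x) ?_ h ?_ x
  · rw [map_zero, map_zero]
  · intro x y hx hy
    rw [map_add, map_add, hx, hy]

theorem exists_glue {X : Type} [AddCommGroup X] (F : Γ → M.M →+ X) :
    ∃ g : M.M →+ X, ∀ d x, M.π d x = x → g x = F d x := by
  have hfin : ∀ x : M.M, (Function.support fun d => F d (M.π d x)).Finite := fun x =>
    (M.fin_supp x).subset fun d hd h0 => hd (by
      change F d (M.π d x) = 0
      rw [h0, map_zero])
  refine ⟨AddMonoidHom.mk' (fun x => ∑ᶠ d, F d (M.π d x)) fun x y => ?_, fun d x hx => ?_⟩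
  · simp only [map_add]
    exact finsum_add_distrib (hfin x) (hfin y)
  · change ∑ᶠ e, F e (M.π e x) = F d x
    rw [finsum_eq_single _ d fun e he => by rw [π_of_ne hx he, map_zero], hx]

/-- the map that is `F d` in degree `d` -/
def glue {X : Type} [AddCommGroup X] (F : Γ → M.M →+ X) : M.M →+ X := (M.exists_glue F).choose

theorem glue_hom {X : Type} [AddCommGroup X] (F : Γ → M.M →+ X) {d : Γ} {x : M.M}
    (hx : M.π d x = x) : M.glue F x = F d x := (M.exists_glue F).choose_spec d x hx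

theorem π_id [Subsingleton Γ] (d : Γ) (x : M.M) : M.π d x = x := by
  have h := M.sum_of_supp x {d} fun e _ => Finset.mem_singleton.2 (Subsingleton.elim e d)
  rwa [Finset.sum_singleton] at h

end GM

/-- graded submodules -/
def St (M : GM 𝒜) (L : Submodule A M.M) : Prop := ∀ d, ∀ x ∈ L, M.π d x ∈ L

/-- a graded submodule -/
abbrev GM.sub (M : GM 𝒜) (L : Submodule A M.M) (h : St M L) : GM 𝒜 where
  M := L
  π d := ((M.π d).comp L.subtype.toAddMonoidHom).codRestrict L fun x => h d x.1 x.2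
  π_self d x := Subtype.ext (M.π_self d x.1)
  π_ne d e x hde := Subtype.ext (M.π_ne d e x.1 hde)
  sum_π x := (M.sum_π x.1).imp fun s hs => Subtype.ext (by
    rw [AddSubmonoidClass.coe_finsetSum]; exact hs)
  π_smul c d a ha x := Subtype.ext (M.π_smul c d a ha x.1)

/-- the quotient by a graded submodule -/
abbrev GM.quo (M : GM 𝒜) (L : Submodule A M.M) (h : St M L) : GM 𝒜 where
  M := M.M ⧸ L
  π d := QuotientAddGroup.map L.toAddSubgroup L.toAddSubgroup (M.π d) fun x hx => h d x hx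
  π_self d x := by
    obtain ⟨y, rfl⟩ := L.mkQ_surjective x
    exact congrArg L.mkQ (M.π_self d y)
  π_ne d e x hde := by
    obtain ⟨y, rfl⟩ := L.mkQ_surjective x
    exact (congrArg L.mkQ (M.π_ne d e y hde)).trans (map_zero _)
  sum_π x := by
    obtain ⟨y, rfl⟩ := L.mkQ_surjective x
    obtain ⟨s, hs⟩ := M.sum_π y
    exact ⟨s, (map_sum L.mkQ _ s).symm.trans (congrArg L.mkQ hs)⟩
  π_smul c d a ha x := by
    obtain ⟨y, rfl⟩ := L.mkQ_surjective x
    exact congrArg L.mkQ (M.π_smul c d a ha y)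

/-- the shift of the grading -/
abbrev GM.shift (M : GM 𝒜) (u : Γ) : GM 𝒜 where
  M := M.M
  π d := M.π (u + d)
  π_self d x := M.π_self _ x
  π_ne d e x hde := M.π_ne _ _ x fun h => hde (add_left_cancel h)
  sum_π x := by
    classical
    obtain ⟨s, hs⟩ := M.sum_π x
    refine ⟨s.image fun d => -u + d, ?_⟩
    rw [Finset.sum_image fun a _ b _ h => add_left_cancel h]
    simpa using hs
  π_smul c d a ha x := by rw [add_left_comm]; exact M.π_smul c _ a ha x

/-- a power of a graded module -/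
abbrev GM.pi (M : GM 𝒜) (D : ℕ) : GM 𝒜 where
  M := Fin D → M.M
  π d := (M.π d).compLeft (Fin D)
  π_self d x := funext fun i => M.π_self d (x i)
  π_ne d e x hde := funext fun i => M.π_ne d e (x i) hde
  sum_π x := by
    classical
    choose s hs using fun i => M.fin_supp (x i) |>.exists_finset
    refine ⟨Finset.univ.biUnion s, funext fun i => ?_⟩
    rw [Finset.sum_apply]
    exact M.sum_of_supp (x i) _ fun d hd =>
      Finset.mem_biUnion.2 ⟨i, Finset.mem_univ _, (hs i d).2 hd⟩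
  π_smul c d a ha x := funext fun i => M.π_smul c d a ha (x i)

/-- the trivial grading -/
abbrev GM.triv (𝒜 : Γ → Set A) [Subsingleton Γ] (W : Type) [AddCommGroup W] [Module A W] :
    GM 𝒜 where
  M := W
  π _ := AddMonoidHom.id W
  π_self _ _ := rfl
  π_ne d e _ hde := absurd (Subsingleton.elim d e) hde
  sum_π x := ⟨{0}, Finset.sum_singleton _ _⟩
  π_smul _ _ _ _ _ := rfl

variable {M N P : GM 𝒜}

theorem sub_π {L : Submodule A M.M} (h : St M L) (d : Γ) (x : L) :
    ((M.sub L h).π d x).1 = M.π d x.1 := rfl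

theorem quo_π {L : Submodule A M.M} (h : St M L) (d : Γ) (x : M.M) :
    (M.quo L h).π d (L.mkQ x) = L.mkQ (M.π d x) := rfl

theorem isG_subtype {L : Submodule A M.M} (h : St M L) :
    IsG (M := M.sub L h) (N := M) L.subtype := fun _ _ => rfl

theorem isG_mkQ {L : Submodule A M.M} (h : St M L) : IsG (M := M) (N := M.quo L h) L.mkQ :=
  fun _ _ => rfl

theorem isG_id : IsG (M := M) (N := M) LinearMap.id := fun _ _ => rfl

theorem isG_of_subsingleton [Subsingleton Γ] (f : M.M →ₗ[A] N.M) : IsG f := fun d x => by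
  rw [M.π_id, N.π_id]

theorem IsG.comp {g : N.M →ₗ[A] P.M} {f : M.M →ₗ[A] N.M} (hg : IsG g) (hf : IsG f) :
    IsG (g ∘ₗ f) := fun d x => (congrArg g (hf d x)).trans (hg d _)

theorem IsG.hom {f : M.M →ₗ[A] N.M} (hf : IsG f) {d : Γ} {x : M.M} (hx : M.π d x = x) :
    N.π d (f x) = f x := by rw [← hf, hx]

theorem IsG.of_hom {f : M.M →ₗ[A] N.M} (h : ∀ d x, M.π d x = x → N.π d (f x) = f x) : IsG f := by
  intro d x
  refine M.ind (p := fun x => f (M.π d x) = N.π d (f x)) ?_ ?_ ?_ x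
  · simp only [map_zero]
  · intro e y hy
    by_cases hde : d = e
    · subst hde; rw [hy, h d y hy]
    · rw [GM.π_of_ne hy hde, GM.π_of_ne (h e y hy) hde, map_zero]
  · intro x y hx hy
    simp only [map_add, hx, hy]

theorem isG_lsmul {u : Γ} {z : A} (hz : z ∈ cl 𝒜 u) :
    IsG (M := M.shift (-u)) (N := M) (LinearMap.lsmul A M.M z) := by
  intro d x
  change z • M.π (-u + d) x = M.π d (z • x)
  rw [← M.π_cl hz, add_neg_cancel_left]

theorem IsG.ker {f : M.M →ₗ[A] N.M} (hf : IsG f) : St M (LinearMap.ker f) := by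
  intro d x hx
  rw [LinearMap.mem_ker] at hx ⊢
  rw [hf, hx, map_zero]

theorem IsG.range {f : M.M →ₗ[A] N.M} (hf : IsG f) : St N (LinearMap.range f) := by
  rintro d _ ⟨x, rfl⟩
  exact ⟨M.π d x, hf d x⟩

theorem St.comap {f : M.M →ₗ[A] N.M} (hf : IsG f) {L : Submodule A N.M} (h : St N L) :
    St M (L.comap f) := by
  intro d x hx
  rw [Submodule.mem_comap] at hx ⊢
  rw [hf]
  exact h d _ hx

theorem St.map {f : M.M →ₗ[A] N.M} (hf : IsG f) {L : Submodule A M.M} (h : St M L) :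
    St N (L.map f) := by
  rintro d _ ⟨x, hx, rfl⟩
  exact ⟨M.π d x, h d x hx, hf d x⟩

theorem st_bot : St M ⊥ := by
  intro d x hx
  rw [Submodule.mem_bot] at hx ⊢
  rw [hx, map_zero]

theorem st_top : St M ⊤ := fun _ _ _ => trivial

theorem St.inf {L L' : Submodule A M.M} (h : St M L) (h' : St M L') : St M (L ⊓ L') :=
  fun d x hx => ⟨h d x hx.1, h' d x hx.2⟩

theorem St.sup {L L' : Submodule A M.M} (h : St M L) (h' : St M L') : St M (L ⊔ L') := by
  intro d x hx
  obtain ⟨y, hy, z, hz, rfl⟩ := Submodule.mem_sup.1 hx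
  rw [map_add]
  exact add_mem (Submodule.mem_sup_left (h d y hy)) (Submodule.mem_sup_right (h' d z hz))

theorem π_cl_CWA {c : Γ} {a : A} (ha : a ∈ cl 𝒜 c) (d : Γ) (x : M.M) :
    M.π d (a • x) = a • M.π (d - c) x := by
  rw [← M.π_cl ha, add_sub_cancel]

theorem smul_mem_CWA [Gd 𝒜] {L : Submodule A M.M} {x : M.M} (hx : ∀ d, M.π d x ∈ L) (a : A)
    (d : Γ) : M.π d (a • x) ∈ L := by
  refine Gd.ind 𝒜 (p := fun a => M.π d (a • x) ∈ L) ?_ ?_ ?_ ?_ a
  · rw [zero_smul, map_zero]; exact zero_mem _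
  · intro c a ha
    rw [π_cl_CWA (mem_cl ha)]
    exact L.smul_mem _ (hx _)
  · intro a b ha hb
    rw [add_smul, map_add]; exact add_mem ha hb
  · intro a ha
    rw [neg_smul, map_neg]; exact neg_mem ha

theorem comps_CWA (M : GM 𝒜) (s : Finset M.M) :
    ∃ t : Finset M.M, Submodule.span A (s : Set M.M) ≤ Submodule.span A (t : Set M.M) ∧
      ∀ x ∈ t, ∃ d, M.π d x = x := by
  classical
  refine ⟨s.biUnion fun x => (M.fin_supp x).toFinset.image fun d => M.π d x, ?_, ?_⟩
  · refine Submodule.span_le.2 fun x hx => ?_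
    rw [← M.sum_of_supp x (M.fin_supp x).toFinset fun d hd => (Set.Finite.mem_toFinset _).2 hd]
    refine Submodule.sum_mem _ fun d hd => Submodule.subset_span ?_
    exact Finset.mem_coe.2 (Finset.mem_biUnion.2 ⟨x, hx, Finset.mem_image_of_mem _ hd⟩)
  · intro y hy
    obtain ⟨x, -, hy⟩ := Finset.mem_biUnion.1 hy
    obtain ⟨d, -, rfl⟩ := Finset.mem_image.1 hy
    exact ⟨d, M.π_self d x⟩

theorem st_span [Gd 𝒜] {s : Set M.M} (hs : ∀ x ∈ s, ∃ d, M.π d x = x) :
    St M (Submodule.span A s) := by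
  intro d x hx
  induction hx using Submodule.span_induction generalizing d with
  | mem x hx =>
    obtain ⟨e, he⟩ := hs x hx
    by_cases hde : d = e
    · subst hde; rw [he]; exact Submodule.subset_span hx
    · rw [GM.π_of_ne he hde]; exact zero_mem _
  | zero => rw [map_zero]; exact zero_mem _
  | add x y _ _ hx hy => rw [map_add]; exact add_mem (hx d) (hy d)
  | smul a x _ hx => exact smul_mem_CWA hx a d

theorem St.smul [Gd 𝒜] {L : Submodule A M.M} (h : St M L) {S : Set A}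
    (hS : ∀ f ∈ S, ∃ c, f ∈ cl 𝒜 c) : St M (Ideal.span S • L) := by
  intro d x hx
  refine Submodule.smul_induction_on
    (p := fun x => ∀ d, M.π d x ∈ Ideal.span S • L) hx ?_ ?_ d
  · intro r hr n hn
    induction hr using Submodule.span_induction with
    | mem r hr =>
      intro d
      obtain ⟨c, hc⟩ := hS r hr
      rw [π_cl_CWA hc]
      exact Submodule.smul_mem_smul (Ideal.subset_span hr) (h _ n hn)
    | zero => intro d; rw [zero_smul, map_zero]; exact zero_mem _
    | add a b _ _ ha hb => intro d; rw [add_smul, map_add]; exact add_mem (ha d) (hb d)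
    | smul a r _ hr => intro d; rw [smul_assoc]; exact smul_mem_CWA hr a d
  · intro x y hx hy d
    rw [map_add]; exact add_mem (hx d) (hy d)

theorem exists_hull [Gd 𝒜] {L : Submodule A M.M} (h : L.FG) :
    ∃ L' : Submodule A M.M, L ≤ L' ∧ L'.FG ∧ St M L' := by
  obtain ⟨s, rfl⟩ := h
  obtain ⟨t, ht, hh⟩ := comps_CWA M s
  exact ⟨Submodule.span A (t : Set M.M), ht, ⟨t, rfl⟩, st_span hh⟩

theorem GM.exists_gens (M : GM 𝒜) [Module.Finite A M.M] :
    ∃ s : Finset M.M, Submodule.span A (s : Set M.M) = ⊤ ∧ ∀ x ∈ s, ∃ d, M.π d x = x := by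
  obtain ⟨s, hs⟩ := Module.Finite.fg_top (R := A) (M := M.M)
  obtain ⟨t, ht, hh⟩ := comps_CWA M s
  exact ⟨t, top_le_iff.1 (hs ▸ ht), hh⟩

/-- the homogeneous part of a combination of homogeneous generators -/
theorem GM.π_mem [Gd 𝒜] (M : GM 𝒜) {s : Set M.M} (hs : Submodule.span A s = ⊤) (g : M.M → Γ)
    (hg : ∀ x ∈ s, M.π (g x) x = x) (d : Γ) (y : M.M) :
    M.π d y ∈ AddSubgroup.closure {w | ∃ x ∈ s, ∃ a ∈ 𝒜 (d - g x), w = a • x} := by
  have key : ∀ y ∈ Submodule.span A s, ∀ a : A,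
      M.π d (a • y) ∈ AddSubgroup.closure {w | ∃ x ∈ s, ∃ a ∈ 𝒜 (d - g x), w = a • x} := by
    intro y hy
    induction hy using Submodule.span_induction with
    | mem x hx =>
      intro a
      refine Gd.ind 𝒜 (p := fun a => M.π d (a • x) ∈
        AddSubgroup.closure {w | ∃ x ∈ s, ∃ a ∈ 𝒜 (d - g x), w = a • x}) ?_ ?_ ?_ ?_ a
      · rw [zero_smul, map_zero]; exact zero_mem _
      · intro c a ha
        rw [π_cl_CWA (mem_cl ha)]
        by_cases hc : d - c = g x
        · rw [hc, hg x hx]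
          refine AddSubgroup.subset_closure ⟨x, hx, a, ?_, rfl⟩
          rw [← hc, sub_sub_cancel]; exact ha
        · rw [GM.π_of_ne (hg x hx) hc, smul_zero]; exact zero_mem _
      · intro a b ha hb
        rw [add_smul, map_add]; exact add_mem ha hb
      · intro a ha
        rw [neg_smul, map_neg]; exact neg_mem ha
    | zero => intro a; rw [smul_zero, map_zero]; exact zero_mem _
    | add x y _ _ hx hy => intro a; rw [smul_add, map_add]; exact add_mem (hx a) (hy a)
    | smul r x _ hx => intro a; rw [smul_smul]; exact hx _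
  have h1 := key y (hs ▸ Submodule.mem_top) 1
  rwa [one_smul] at h1

end Pool.Agent.CXD
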