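import Pool.Agent.P.MP_2ce3e7_ag.CWA

/-! Additive functions on graded modules. -/

set_option linter.unusedSectionVars false
set_option linter.unusedVariables false

open Function

noncomputable section

namespace Pool.Agent.CXD

variable {A Γ : Type} [CommRing A] [AddCommGroup Γ] {𝒜 : Γ → Set A}

/-- additive on short exact sequences of finite graded modules -/
def GAdd (l : GM 𝒜 → ℚ) : Prop :=
  ∀ M N P : GM 𝒜, Module.Finite A N.M → Ses M N P → l N = l M + l P

/-- the elements of `S` are locally nilpotent -/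
def Nil (S : Set A) (M : Type) [AddCommGroup M] [Module A M] : Prop :=
  ∀ f ∈ S, ∀ x : M, ∃ m : ℕ, f ^ m • x = 0

/-- vanishing on the modules that are killed by `𝔟` and supported on the zero set of `S` -/
def VnG (𝔟 : Ideal A) (S : Set A) (l : GM 𝒜 → ℚ) : Prop :=
  ∀ M : GM 𝒜, Module.Finite A M.M → Kill 𝔟 M.M → Nil S M.M → l M = 0

section
variable {S : Set A} {X Y : Type} [AddCommGroup X] [Module A X] [AddCommGroup Y] [Module A Y]

theorem Nil.of_injective (h : Nil S Y) (f : X →ₗ[A] Y) (hf : Injective f) : Nil S X := by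
  intro a ha x
  obtain ⟨m, hm⟩ := h a ha (f x)
  exact ⟨m, hf (by rw [map_smul, hm, map_zero])⟩

theorem Nil.of_surjective (h : Nil S X) (f : X →ₗ[A] Y) (hf : Surjective f) : Nil S Y := by
  intro a ha y
  obtain ⟨x, rfl⟩ := hf y
  obtain ⟨m, hm⟩ := h a ha x
  exact ⟨m, by rw [← map_smul, hm, map_zero]⟩

theorem Nil.exists_pow [Module.Finite A X] (h : Nil S X) {f : A} (hf : f ∈ S) :
    ∃ m : ℕ, ∀ x : X, f ^ m • x = 0 := by
  obtain ⟨s, hs⟩ := Module.Finite.fg_top (R := A) (M := X)
  choose m hm using h f hf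
  refine ⟨s.sup m, fun x => ?_⟩
  have hx : x ∈ Submodule.span A (s : Set X) := hs ▸ Submodule.mem_top
  induction hx using Submodule.span_induction with
  | mem y hy =>
    obtain ⟨e, he⟩ := Nat.exists_eq_add_of_le (Finset.le_sup (f := m) hy)
    rw [he, add_comm, pow_add, mul_smul, hm, smul_zero]
  | zero => simp
  | add y z _ _ hy hz => rw [smul_add, hy, hz, add_zero]
  | smul a y _ hy => rw [smul_comm, hy, smul_zero]

theorem Nil.mem_prime [Module.Finite A X] (h : Nil S X) {P : Ideal A} (hP : P.IsPrime)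
    (ha : Module.annihilator A X ≤ P) {f : A} (hf : f ∈ S) : f ∈ P := by
  obtain ⟨m, hm⟩ := h.exists_pow hf
  exact hP.mem_of_pow_mem m (ha (Module.mem_annihilator.2 hm))

end

variable {l : GM 𝒜 → ℚ} {M N P : GM 𝒜}

theorem ses_sub_quo {L : Submodule A M.M} (h : St M L) : Ses (M.sub L h) M (M.quo L h) := by
  exact ⟨L.subtype, L.mkQ, isG_subtype h, isG_mkQ h, L.injective_subtype, L.mkQ_surjective,
    LinearMap.exact_subtype_mkQ L⟩

theorem GAdd.zero (h : GAdd l) (M : GM 𝒜) [Subsingleton M.M] : l M = 0 := by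
  have := h M M M (Module.Finite.of_finite) ⟨LinearMap.id, LinearMap.id, isG_id, isG_id,
    injective_id, surjective_id, fun y => ⟨fun _ => ⟨y, rfl⟩, fun _ => Subsingleton.elim _ _⟩⟩
  linarith

theorem GAdd.congr (h : GAdd l) (hN : Module.Finite A N.M) {f : M.M →ₗ[A] N.M} (hf : IsG f)
    (hb : Bijective f) : l M = l N := by
  have h0 := h.zero (N.sub ⊥ st_bot)
  have := h M N (N.sub ⊥ st_bot) hN ⟨f, 0, hf, fun d x => Subsingleton.elim _ _, hb.1,
    fun y => ⟨0, Subsingleton.elim _ _⟩, fun y => ⟨fun _ => hb.2 y, fun _ => rfl⟩⟩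
  linarith

theorem GAdd.of_inj (h : GAdd l) (hN : Module.Finite A N.M) {f : M.M →ₗ[A] N.M} (hf : IsG f)
    (hi : Injective f) : l N = l M + l (N.quo _ hf.range) := by
  exact h M N _ hN ⟨f, (LinearMap.range f).mkQ, hf, isG_mkQ _, hi, Submodule.mkQ_surjective _,
    LinearMap.exact_map_mkQ_range f⟩

theorem GAdd.of_surj (h : GAdd l) (hM : Module.Finite A M.M) {f : M.M →ₗ[A] N.M} (hf : IsG f)
    (hs : Surjective f) : l M = l (M.sub _ hf.ker) + l N := by
  exact h _ M N hM ⟨(LinearMap.ker f).subtype, f, isG_subtype _, hf,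
    Submodule.injective_subtype _, hs, LinearMap.exact_subtype_ker_map f⟩

theorem GAdd.four (h : GAdd l) (hM : Module.Finite A M.M) (hN : Module.Finite A N.M)
    {f : M.M →ₗ[A] N.M} (hf : IsG f) :
    l N - l M = l (N.quo _ hf.range) - l (M.sub _ hf.ker) := by
  have h1 := h _ N _ hN (ses_sub_quo hf.range)
  have h2 := h (M.sub _ hf.ker) M (N.sub _ hf.range) hM ⟨(LinearMap.ker f).subtype,
    f.rangeRestrict, isG_subtype _, fun d x => Subtype.ext (hf d x),
    Submodule.injective_subtype _, f.surjective_rangeRestrict, fun y => by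
      rw [← LinearMap.exact_subtype_ker_map f y]
      exact Subtype.ext_iff⟩
  linarith

/-- a right exact sequence -/
theorem GAdd.right [IsNoetherianRing A] (h : GAdd l) (hM : Module.Finite A M.M)
    (hN : Module.Finite A N.M) {f : M.M →ₗ[A] N.M} {g : N.M →ₗ[A] P.M} (hf : IsG f) (hg : IsG g)
    (hs : Surjective g) (he : Exact f g) : l N + l (M.sub _ hf.ker) = l M + l P := by
  have h1 := h.four hM hN hf
  have hP : Module.Finite A P.M := Module.Finite.of_surjective g hs
  have hk : LinearMap.ker g = LinearMap.range f := LinearMap.exact_iff.1 he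
  have h2 := h.congr (M := N.quo _ hf.range) hP (f := (LinearMap.range f).liftQ g hk.ge)
    (fun d x => by
      obtain ⟨y, rfl⟩ := (LinearMap.range f).mkQ_surjective x
      exact hg d y)
    ⟨LinearMap.ker_eq_bot.1 (Submodule.ker_liftQ_eq_bot _ _ _ hk.le), fun z => by
      obtain ⟨y, rfl⟩ := hs z
      exact ⟨(LinearMap.range f).mkQ y, rfl⟩⟩
  linarith

theorem GAdd.pi (h : GAdd l) (hM : Module.Finite A M.M) (D : ℕ) : l (M.pi D) = D * l M := by
  induction D with
  | zero => rw [h.zero (M.pi 0)]; simp
  | succ D ih =>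
    have := h M (M.pi (D + 1)) (M.pi D) inferInstance
      ⟨LinearMap.single A (fun _ : Fin (D + 1) => M.M) 0, LinearMap.funLeft A M.M Fin.succ,
        fun d x => funext fun i => by
          refine Fin.cases ?_ (fun j => ?_) i
          · change _ = M.π d _
            simp
          · change _ = M.π d _
            simp [Fin.succ_ne_zero],
        fun d x => rfl, Pi.single_injective (M := fun _ : Fin (D + 1) => M.M) 0,
        LinearMap.funLeft_surjective_of_injective _ _ _ (Fin.succ_injective D), fun y => by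
          refine ⟨fun hy => ⟨y 0, funext fun i => ?_⟩, ?_⟩
          · refine Fin.cases ?_ (fun j => ?_) i
            · simp
            · have : y j.succ = 0 := congrFun hy j
              simp [Fin.succ_ne_zero, this]
          · rintro ⟨x, rfl⟩
            funext j
            change (Pi.single 0 x : Fin (D + 1) → M.M) j.succ = 0
            simp [Fin.succ_ne_zero]⟩
    rw [this, ih]; push_cast; ring

theorem GAdd.nil [Gd 𝒜] [IsNoetherianRing A] (h : GAdd l) {𝔟 : Ideal A} {S : Set A}
    (hS : S.Finite) (hh : ∀ f ∈ S, ∃ c, f ∈ cl 𝒜 c)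
    (h0 : ∀ M : GM 𝒜, Module.Finite A M.M → Kill 𝔟 M.M → (∀ f ∈ S, ∀ x : M.M, f • x = 0) →
      l M = 0) : VnG 𝔟 S l := by
  have key : ∀ (n : ℕ) (M : GM 𝒜), Module.Finite A M.M → Kill 𝔟 M.M →
      (∀ a ∈ Ideal.span S ^ n, ∀ x : M.M, a • x = 0) → l M = 0 := by
    intro n
    induction n with
    | zero =>
      intro M _ _ hM
      have : Subsingleton M.M := ⟨fun x y => by
        rw [← one_smul A x, ← one_smul A y, hM 1 (by simp), hM 1 (by simp)]⟩
      exact h.zero M
    | succ n ih =>
      intro M hfin hk hM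
      have hL : St M (Ideal.span S • ⊤) := St.smul st_top hh
      have h1 := h _ M _ hfin (ses_sub_quo hL)
      have h2 := ih (M.sub _ hL) inferInstance
        (hk.of_injective (Submodule.subtype _) (Submodule.injective_subtype _)) fun a ha x => by
          refine Subtype.ext ?_
          obtain ⟨x, hx⟩ := x
          change a • x = 0
          refine Submodule.smul_induction_on hx (fun r hr y _ => ?_) fun y z hy hz => ?_
          · rw [← mul_smul]
            exact hM _ (by rw [pow_succ]; exact Ideal.mul_mem_mul ha hr) y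
          · rw [smul_add, hy, hz, add_zero]
      have h3 := h0 (M.quo _ hL) inferInstance
        (hk.of_surjective (Submodule.mkQ _) (Submodule.mkQ_surjective _)) fun f hf x => by
          obtain ⟨y, rfl⟩ := Submodule.mkQ_surjective _ x
          rw [← map_smul, Submodule.mkQ_apply, Submodule.Quotient.mk_eq_zero]
          exact Submodule.smul_mem_smul (Ideal.subset_span hf) Submodule.mem_top
      linarith
  intro M hfin hk hn
  obtain ⟨n, hle⟩ := Ideal.exists_pow_le_of_le_radical_of_fg (I := Ideal.span S)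
    (J := Module.annihilator A M.M) (Ideal.span_le.2 fun f hf => by
      obtain ⟨m, hm⟩ := hn.exists_pow hf
      exact ⟨m, Module.mem_annihilator.2 hm⟩) (IsNoetherian.noetherian _)
  exact key n M hfin hk fun a ha x => Module.mem_annihilator.1 (hle ha) x

end Pool.Agent.CXD
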