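import Pool.Agent.P.MP_2ce3e7_ag.CWA2

/-! Restriction of scalars together with a change of the grading. -/

set_option linter.unusedSectionVars false
set_option linter.unusedVariables false

open Function

noncomputable section

namespace Pool.Agent.CXD

variable {A A' A'' Γ Γ' Γ'' : Type} [CommRing A] [CommRing A'] [CommRing A''] [AddCommGroup Γ]
  [AddCommGroup Γ'] [AddCommGroup Γ''] {𝒜 : Γ → Set A} {𝒜' : Γ' → Set A'} {𝒜'' : Γ'' → Set A''}

/-- restriction of scalars -/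
def Cp (φ : A →+* A') (M : Type) : Type := M

local instance (φ : A →+* A') (M : Type) [AddCommGroup M] : AddCommGroup (Cp φ M) :=
  inferInstanceAs (AddCommGroup M)

local instance (φ : A →+* A') (M : Type) [AddCommGroup M] [Module A' M] : Module A (Cp φ M) :=
  Module.compHom M φ

/-- `R` is the sum of the parts of `M` of degrees `ν c`, with scalars restricted along `φ` -/
structure IsRes (φ : A →+* A') (ν : Γ → Γ') (R : GM 𝒜) (M : GM 𝒜') (j : R.M →+ M.M) : Prop where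
  inj : Injective j
  smul : ∀ a y, j (a • y) = φ a • j y
  π : ∀ c y, j (R.π c y) = M.π (ν c) (j y)
  sur : ∀ c x, ∃ y, j y = M.π (ν c) x

/-- `φ` multiplies degrees by `μ` -/
structure Hm (φ : A →+* A') (𝒜 : Γ → Set A) (𝒜' : Γ' → Set A') (μ : Γ →+ Γ') : Prop where
  inj : Injective μ
  mem : ∀ c, ∀ a ∈ 𝒜 c, φ a ∈ cl 𝒜' (μ c)

variable {φ : A →+* A'} {ν : Γ → Γ'} {μ : Γ →+ Γ'} {R R₂ R₃ : GM 𝒜} {M M₂ M₃ : GM 𝒜'}
  {j : R.M →+ M.M} {j₂ : R₂.M →+ M₂.M} {j₃ : R₃.M →+ M₃.M}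

theorem Hm.mem_cl (h : Hm φ 𝒜 𝒜' μ) {c : Γ} {a : A} (ha : a ∈ cl 𝒜 c) : φ a ∈ cl 𝒜' (μ c) := by
  induction ha using AddSubgroup.closure_induction with
  | mem x hx => exact h.mem c x hx
  | zero => rw [map_zero]; exact zero_mem _
  | add x y _ _ hx hy => rw [map_add]; exact add_mem hx hy
  | neg x _ hx => rw [map_neg]; exact neg_mem hx

theorem exists_res [Gd 𝒜] (h : Hm φ 𝒜 𝒜' μ) (g : Γ') (M : GM 𝒜') :
    ∃ (R : GM 𝒜) (j : R.M →+ M.M), IsRes φ (fun c => g + μ c) R M j := by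
  classical
  have key : ∀ (a : A) (x : M.M), (∀ γ, (∀ c, γ ≠ g + μ c) → M.π γ x = 0) →
      ∀ γ, (∀ c, γ ≠ g + μ c) → M.π γ (φ a • x) = 0 := by
    intro a x hx
    induction a using Gd.ind 𝒜 with
    | h0 => intro γ _; rw [map_zero, zero_smul, map_zero]
    | h1 c a ha =>
      intro γ hγ
      have e : γ = μ c + (γ - μ c) := by abel
      rw [e, M.π_cl (h.mem c a ha), hx (γ - μ c), smul_zero]
      intro c' hc'
      apply hγ (c' + c)
      rw [map_add, ← add_assoc, ← hc']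
      abel
    | h2 a b ha hb => intro γ hγ; rw [map_add, add_smul, map_add, ha γ hγ, hb γ hγ, add_zero]
    | h3 a ha => intro γ hγ; rw [map_neg, neg_smul, map_neg, ha γ hγ, neg_zero]
  let L : Submodule A (Cp φ M.M) :=
    { carrier := {x | ∀ γ, (∀ c, γ ≠ g + μ c) → M.π γ x = 0}
      add_mem' := fun {x y} hx hy γ hγ =>
        ((M.π γ).map_add x y).trans (by rw [hx γ hγ, hy γ hγ, add_zero])
      zero_mem' := fun γ _ => (M.π γ).map_zero
      smul_mem' := fun a x hx => key a x hx }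
  have hinj : Injective fun c => g + μ c := fun c c' hc => h.inj (add_left_cancel hc)
  let jj : L →+ M.M := L.subtype.toAddMonoidHom
  have hmem : ∀ (c : Γ) (x : M.M), M.π (g + μ c) x ∈ L := fun c x γ hγ => M.π_ne _ _ x (hγ c)
  let R : GM 𝒜 :=
    { M := L
      π := fun c => ((M.π (g + μ c)).comp jj).codRestrict L fun x => hmem c _
      π_self := fun d x => Subtype.ext (M.π_self _ x.1)
      π_ne := fun d e x hde => Subtype.ext (M.π_ne _ _ x.1 fun he => hde (hinj he))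
      sum_π := fun x => by
        have hf : ((fun c => g + μ c) ⁻¹' {d | M.π d (jj x) ≠ 0}).Finite :=
          (M.fin_supp (jj x)).preimage hinj.injOn
        refine ⟨hf.toFinset, Subtype.ext ?_⟩
        have h1 : ∑ d ∈ hf.toFinset.image (fun c => g + μ c), M.π d (jj x) = jj x := by
          refine M.sum_of_supp _ _ fun d hd => ?_
          by_cases hc : ∃ c, d = g + μ c
          · obtain ⟨c, rfl⟩ := hc
            exact Finset.mem_image_of_mem _ (hf.mem_toFinset.2 hd)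
          · exact absurd (x.2 d fun c hc' => hc ⟨c, hc'⟩) hd
        rw [Finset.sum_image fun a _ b _ hab => hinj hab] at h1
        rw [AddSubmonoidClass.coe_finsetSum]
        exact h1
      π_smul := fun c d a ha x => Subtype.ext (by
        have e : g + μ (c + d) = μ c + (g + μ d) := by rw [map_add]; abel
        change M.π (g + μ (c + d)) (φ a • jj x) = φ a • M.π (g + μ d) (jj x)
        rw [e, M.π_cl (h.mem c a ha)]) }
  exact ⟨R, jj, Subtype.val_injective, fun _ _ => rfl, fun _ _ => rfl,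
    fun c x => ⟨⟨_, hmem c x⟩, rfl⟩⟩

/-- the restriction -/
def res [Gd 𝒜] (h : Hm φ 𝒜 𝒜' μ) (g : Γ') (M : GM 𝒜') : GM 𝒜 := (exists_res h g M).choose

theorem isRes_res [Gd 𝒜] (h : Hm φ 𝒜 𝒜' μ) (g : Γ') (M : GM 𝒜') :
    ∃ j : (res h g M).M →+ M.M, IsRes φ (fun c => g + μ c) (res h g M) M j :=
  (exists_res h g M).choose_spec

theorem isRes_ver [Gd 𝒜] (h : Hm φ 𝒜 𝒜' μ) (M : GM 𝒜') :
    ∃ j : (res h 0 M).M →+ M.M, IsRes φ μ (res h 0 M) M j := by
  simpa only [zero_add] using isRes_res h 0 M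

theorem isRes_shift (M : GM 𝒜) (u : Γ) :
    IsRes (RingHom.id A) (fun c => u + c) (M.shift u) M (AddMonoidHom.id _) :=
  ⟨injective_id, fun _ _ => rfl, fun _ _ => rfl, fun _ _ => ⟨_, rfl⟩⟩

theorem IsRes.π_eq_zero (h : IsRes φ ν R M j) {γ : Γ'} (hγ : ∀ c, γ ≠ ν c) (y : R.M) :
    M.π γ (j y) = 0 := by
  induction y using R.ind with
  | h0 => rw [map_zero, map_zero]
  | h1 c y hy => rw [← hy, h.π, M.π_ne _ _ _ (hγ c)]
  | h2 x y hx hy => rw [map_add, map_add, hx, hy, add_zero]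

theorem IsRes.mem_range (h : IsRes φ ν R M j) {x : M.M} (hx : ∀ γ, (∀ c, γ ≠ ν c) → M.π γ x = 0) :
    ∃ y, j y = x := by
  obtain ⟨s, hs⟩ := M.sum_π x
  have h1 : ∀ γ, ∃ y, j y = M.π γ x := fun γ => by
    by_cases hc : ∃ c, γ = ν c
    · obtain ⟨c, rfl⟩ := hc
      exact h.sur c x
    · exact ⟨0, by rw [map_zero, hx γ fun c hc' => hc ⟨c, hc'⟩]⟩
  choose y hy using h1
  exact ⟨∑ γ ∈ s, y γ, by rw [map_sum, Finset.sum_congr rfl fun γ _ => hy γ, hs]⟩

theorem IsRes.comp {ψ : A'' →+* A} {ν' : Γ'' → Γ} {R' : GM 𝒜''} {j' : R'.M →+ R.M}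
    (h : IsRes φ ν R M j) (h' : IsRes ψ ν' R' R j') :
    IsRes (φ.comp ψ) (ν ∘ ν') R' M (j.comp j') := by
  refine ⟨h.inj.comp h'.inj, fun a y => ?_, fun c y => ?_, fun c x => ?_⟩
  · change j (j' (a • y)) = φ (ψ a) • j (j' y)
    rw [h'.smul, h.smul]
  · change j (j' (R'.π c y)) = M.π (ν (ν' c)) (j (j' y))
    rw [h'.π, h.π]
  · obtain ⟨y, hy⟩ := h.sur (ν' c) x
    obtain ⟨y', hy'⟩ := h'.sur c y
    refine ⟨y', ?_⟩
    change j (j' y') = M.π (ν (ν' c)) x
    rw [hy', h.π, hy, M.π_self]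

theorem IsRes.map (h : IsRes φ ν R M j) (h₂ : IsRes φ ν R₂ M₂ j₂) {f : M.M →ₗ[A'] M₂.M}
    (hf : IsG f) : ∃ g : R.M →ₗ[A] R₂.M, IsG g ∧ (∀ y, j₂ (g y) = f (j y)) ∧
      (Injective f → Injective g) ∧ (Surjective f → Surjective g) := by
  have h1 : ∀ y, ∃ z, j₂ z = f (j y) := fun y =>
    h₂.mem_range fun γ hγ => by rw [← hf, h.π_eq_zero hγ, map_zero]
  choose g hg using h1
  let G : R.M →ₗ[A] R₂.M :=
    { toFun := g
      map_add' := fun x y => h₂.inj (by rw [map_add, hg, hg, hg, map_add, map_add])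
      map_smul' := fun a y => h₂.inj (by
        rw [RingHom.id_apply, h₂.smul, hg, hg, h.smul, map_smul]) }
  have hG : ∀ y, j₂ (G y) = f (j y) := hg
  refine ⟨G, fun c y => h₂.inj ?_, hG, fun hi y y' hy => h.inj (hi ?_), fun hs z => ?_⟩
  · rw [hG, h.π, h₂.π, hG, hf]
  · rw [← hG, ← hG, hy]
  · induction z using R₂.ind with
    | h0 => exact ⟨0, map_zero _⟩
    | h1 c z hz =>
      obtain ⟨x, hx⟩ := hs (j₂ z)
      obtain ⟨y, hy⟩ := h.sur c x
      exact ⟨y, h₂.inj (by rw [hG, hy, hf, hx, ← h₂.π, hz])⟩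
    | h2 z z' hz hz' =>
      obtain ⟨y, rfl⟩ := hz
      obtain ⟨y', rfl⟩ := hz'
      exact ⟨y + y', map_add _ _ _⟩

theorem IsRes.ses (h : IsRes φ ν R M j) (h₂ : IsRes φ ν R₂ M₂ j₂) (h₃ : IsRes φ ν R₃ M₃ j₃)
    (hs : Ses M M₂ M₃) : Ses R R₂ R₃ := by
  obtain ⟨f, g, hf, hg, hi, hsu, he⟩ := hs
  obtain ⟨f', hf', e₁, hi', -⟩ := h.map h₂ hf
  obtain ⟨g', hg', e₂, -, hs'⟩ := h₂.map h₃ hg
  refine ⟨f', g', hf', hg', hi' hi, hs' hsu, fun y => ⟨fun hy => ?_, ?_⟩⟩
  · have h1 : g (j₂ y) = 0 := by rw [← e₂, hy, map_zero]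
    obtain ⟨x, hx⟩ := (he _).1 h1
    obtain ⟨z, hz⟩ := h.mem_range (x := x) fun γ hγ => hi (by
      rw [hf, hx, h₂.π_eq_zero hγ, map_zero])
    exact ⟨z, h₂.inj (by rw [e₁, hz, hx])⟩
  · rintro ⟨z, rfl⟩
    refine h₃.inj ?_
    rw [e₂, e₁, map_zero]
    exact (he _).2 ⟨_, rfl⟩

theorem IsRes.val {l : GM 𝒜 → ℚ} (hl : GAdd l) {j₂ : R₂.M →+ M.M} (h : IsRes φ ν R M j)
    (h₂ : IsRes φ ν R₂ M j₂) (hf : Module.Finite A R₂.M) : l R = l R₂ := by
  obtain ⟨g, hg, -, h1, h2⟩ := h.map h₂ isG_id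
  exact hl.congr hf hg ⟨h1 injective_id, h2 surjective_id⟩

theorem IsRes.finite [IsNoetherianRing A] [Gd 𝒜'] (h : IsRes φ ν R M j) (hM : Module.Finite A' M.M)
    (hF : ∀ g : Γ', ∃ (ι : Type) (_ : Fintype ι) (F : ι → A'), ∀ c, ∀ a ∈ 𝒜' (ν c - g),
      ∃ b : ι → A, a = ∑ i, φ (b i) * F i) : Module.Finite A R.M := by
  classical
  obtain ⟨s, hs, hh⟩ := M.exists_gens
  let g : M.M → Γ' := fun x => if hx : ∃ d, M.π d x = x then hx.choose else 0
  have hg : ∀ x ∈ (s : Set M.M), M.π (g x) x = x := fun x hx => by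
    have h1 := hh x hx
    simp only [g, dif_pos h1]
    exact h1.choose_spec
  choose ι inst F hF using hF
  let T : Set (Cp φ M.M) := ⋃ x ∈ (s : Set M.M), Set.range fun i : ι (g x) => F (g x) i • x
  have hT : T.Finite := s.finite_toSet.biUnion fun x _ => Set.finite_range _
  let J : R.M →ₗ[A] Cp φ M.M := { toFun := j, map_add' := j.map_add, map_smul' := h.smul }
  have h1 : ∀ (c : Γ) (w : M.M),
      w ∈ AddSubgroup.closure {w | ∃ x ∈ (s : Set M.M), ∃ a ∈ 𝒜' (ν c - g x), w = a • x} →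
      (show Cp φ M.M from w) ∈ Submodule.span A T := by
    intro c w hw
    induction hw using AddSubgroup.closure_induction with
    | mem w hw =>
      obtain ⟨x, hx, a, ha, rfl⟩ := hw
      obtain ⟨b, rfl⟩ := hF (g x) c a ha
      have e : (∑ i, φ (b i) * F (g x) i) • x =
          ∑ i, (b i • (show Cp φ M.M from F (g x) i • x) : Cp φ M.M) := by
        rw [Finset.sum_smul]
        exact Finset.sum_congr rfl fun i _ => mul_smul _ _ _
      rw [e]
      exact Submodule.sum_mem _ fun i _ => Submodule.smul_mem _ _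
        (Submodule.subset_span (Set.mem_biUnion hx ⟨i, rfl⟩))
    | zero => exact zero_mem _
    | add x y _ _ hx hy => exact add_mem hx hy
    | neg x _ hx => exact neg_mem hx
  have h2 : ∀ y, J y ∈ Submodule.span A T := fun y => by
    induction y using R.ind with
    | h0 => rw [map_zero]; exact zero_mem _
    | h1 c y hy =>
      have e : j y = M.π (ν c) (j y) := by rw [← h.π, hy]
      exact h1 c (j y) (by rw [e]; exact M.π_mem hs g hg (ν c) (j y))
    | h2 x y hx hy => rw [map_add]; exact add_mem hx hy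
  have : Module.Finite A (Submodule.span A T) := Module.Finite.span_of_finite A hT
  exact Module.Finite.of_injective (J.codRestrict _ h2) fun x y hxy =>
    h.inj (congrArg Subtype.val hxy)

theorem IsRes.finite' [IsNoetherianRing A] (h : IsRes φ ν R M j) (hM : Module.Finite A' M.M)
    (hφ : φ.Finite) : Module.Finite A R.M := by
  have h1 : @Module.Finite A M.M _ _ (Module.compHom M.M φ) := by
    let : Module A M.M := Module.compHom M.M φ
    let : Algebra A A' := φ.toAlgebra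
    have : IsScalarTower A A' M.M := ⟨fun b a y => mul_smul (φ b) a y⟩
    have : Module.Finite A A' := hφ
    exact Module.Finite.trans A' M.M
  have : Module.Finite A (Cp φ M.M) := h1
  let J : R.M →ₗ[A] Cp φ M.M := { toFun := j, map_add' := j.map_add, map_smul' := h.smul }
  exact Module.Finite.of_injective J h.inj

theorem IsRes.exists_proj [Gd 𝒜] (hm : Hm φ 𝒜 𝒜' μ) (h : IsRes φ μ R M j) :
    ∃ p : M.M →+ R.M, (∀ y, p (j y) = y) ∧ ∀ a x, p (φ a • x) = a • p x := by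
  classical
  choose q hq using h.sur
  let Q : Γ → M.M →+ R.M := fun c =>
    AddMonoidHom.mk' (q c) fun x y => h.inj (by rw [map_add, hq, hq, hq, map_add])
  let F : Γ' → M.M →+ R.M := fun γ => if hc : ∃ c, γ = μ c then Q hc.choose else 0
  have k1 : ∀ γ x, M.π γ x = x → (∃ c, γ = μ c) → j (M.glue F x) = x := fun γ x hx hc => by
    rw [M.glue_hom F hx]
    simp only [F, dif_pos hc]
    exact (hq _ x).trans (by rw [← hc.choose_spec, hx])
  have k2 : ∀ γ x, M.π γ x = x → (¬ ∃ c, γ = μ c) → M.glue F x = 0 := fun γ x hx hc => by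
    rw [M.glue_hom F hx]
    simp only [F, dif_neg hc]
    rfl
  refine ⟨M.glue F, fun y => ?_, fun a x => ?_⟩
  · induction y using R.ind with
    | h0 => rw [map_zero, map_zero]
    | h1 c y hy => exact h.inj (k1 (μ c) (j y) (by rw [← h.π, hy]) ⟨c, rfl⟩)
    | h2 x y hx hy => rw [map_add, map_add, hx, hy]
  · induction a using Gd.ind 𝒜 with
    | h0 => rw [map_zero, zero_smul, zero_smul, map_zero]
    | h1 c a ha =>
      induction x using M.ind with
      | h0 => rw [smul_zero, map_zero, smul_zero]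
      | h1 γ x hx =>
        have hax := GM.hom_smul (hm.mem c a ha) hx
        by_cases hc : ∃ c, γ = μ c
        · obtain ⟨c', hc'⟩ := hc
          refine h.inj ?_
          rw [k1 _ _ hax ⟨c + c', by rw [map_add, hc']⟩, h.smul, k1 γ x hx ⟨c', hc'⟩]
        · rw [k2 γ x hx hc, smul_zero]
          refine k2 _ _ hax ?_
          rintro ⟨c', hc'⟩
          exact hc ⟨c' - c, by rw [map_sub, ← hc']; abel⟩
      | h2 x y hx hy => rw [smul_add, map_add, map_add, hx, hy, smul_add]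
    | h2 a b ha hb => rw [map_add, add_smul, map_add, ha, hb, add_smul]
    | h3 a ha => rw [map_neg, neg_smul, map_neg, ha, neg_smul]

theorem IsRes.nil (h : IsRes φ ν R M j) {S : Set A} {S' : Set A'} (hS : Nil S' M.M)
    (hf : ∀ f ∈ S, ∃ g ∈ S', ∃ m, φ f = g ^ m ∧ 0 < m) : Nil S R.M := by
  intro f hfS y
  obtain ⟨g, hg, m, e, hm⟩ := hf f hfS
  obtain ⟨k, hk⟩ := hS g hg (j y)
  refine ⟨k, h.inj ?_⟩
  obtain ⟨m, rfl⟩ := Nat.exists_eq_add_one_of_ne_zero hm.ne'
  rw [h.smul, map_pow, e, ← pow_mul, add_mul, one_mul, pow_add, mul_smul, hk, smul_zero, map_zero]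

theorem IsRes.kill (h : IsRes φ ν R M j) {𝔟 : Ideal A} (hk : ∀ a ∈ 𝔟, ∀ x : M.M, φ a • x = 0) :
    Kill 𝔟 R.M := by
  intro a ha y
  exact h.inj (by rw [h.smul, hk a ha, map_zero])

theorem IsRes.subsingleton (h : IsRes φ ν R M j) (h0 : ∀ c x, M.π (ν c) x = 0) :
    Subsingleton R.M := by
  have h1 : ∀ y : R.M, y = 0 := fun y => R.eq_zero fun c => h.inj (by rw [h.π, h0, map_zero])
  exact ⟨fun x y => by rw [h1 x, h1 y]⟩

theorem GAdd.res [Gd 𝒜] {l : GM 𝒜 → ℚ} (hl : GAdd l) (h : Hm φ 𝒜 𝒜' μ) (g : Γ')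
    (hf : ∀ M : GM 𝒜', Module.Finite A' M.M → Module.Finite A (res h g M).M) :
    GAdd fun M : GM 𝒜' => l (res h g M) := by
  intro M N P hN hs
  obtain ⟨j₁, h₁⟩ := isRes_res h g M
  obtain ⟨j₂, h₂⟩ := isRes_res h g N
  obtain ⟨j₃, h₃⟩ := isRes_res h g P
  exact hl _ _ _ (hf N hN) (h₁.ses h₂ h₃ hs)

end Pool.Agent.CXD
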