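import Pool.Agent.P.MP_2ce3e7_ag.CWA3

/-! Graded lattices. -/

set_option linter.unusedSectionVars false
set_option linter.unusedVariables false

open Function

noncomputable section

namespace Pool.Agent.CXD

variable {A Γ : Type} [CommRing A] [AddCommGroup Γ] {𝒜 : Γ → Set A}

/-- a graded lattice -/
structure LatG (S : Set A) {L M : GM 𝒜} (j : L.M →ₗ[A] M.M) : Prop where
  fin : Module.Finite A L.M
  gr : IsG j
  inj : Injective j
  den : ∀ f ∈ S, ∀ y, ∃ (N : ℕ) (x : L.M), j x = f ^ N • y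

variable {S : Set A} {𝔟 : Ideal A} {l : GM 𝒜 → ℚ} {L L₂ L₃ M M₂ M₃ : GM 𝒜}

theorem exists_latG [Gd 𝒜] (M : GM 𝒜) {L : Submodule A M.M} (h : L.FG)
    (hd : ∀ f ∈ S, ∀ y, ∃ N : ℕ, f ^ N • y ∈ L) :
    ∃ (L' : GM 𝒜) (j : L'.M →ₗ[A] M.M), LatG S j := by
  obtain ⟨L', hle, hfg, hst⟩ := exists_hull (M := M) h
  refine ⟨M.sub L' hst, L'.subtype, Module.Finite.iff_fg.2 hfg, isG_subtype hst,
    L'.injective_subtype, fun f hf y => ?_⟩
  obtain ⟨N, hN⟩ := hd f hf y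
  exact ⟨N, ⟨_, hle hN⟩, rfl⟩

theorem val_aux_CWB (hl : GAdd l) (hv : VnG 𝔟 S l) (hL : Module.Finite A L.M) (hk : Kill 𝔟 L.M)
    {i : L₂.M →ₗ[A] L.M} (hi : IsG i) (hinj : Injective i)
    (hd : ∀ f ∈ S, ∀ x, ∃ (N : ℕ) (y : L₂.M), i y = f ^ N • x) : l L = l L₂ := by
  have h0 : l (L.quo _ hi.range) = 0 := by
    refine hv (L.quo _ hi.range) inferInstance
      (hk.of_surjective (LinearMap.range i).mkQ (LinearMap.range i).mkQ_surjective) ?_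
    intro f hf x
    obtain ⟨x, rfl⟩ := (LinearMap.range i).mkQ_surjective x
    obtain ⟨N, y, hy⟩ := hd f hf x
    refine ⟨N, ?_⟩
    rw [← map_smul, ← hy]
    exact (Submodule.Quotient.mk_eq_zero _).2 ⟨y, rfl⟩
  rw [hl.of_inj hL hi hinj, h0, add_zero]

theorem lift_CWB {i : L₂.M →ₗ[A] M.M} {j : L.M →ₗ[A] M.M} (hi : IsG i) (hj : IsG j)
    (hinj : Injective j) (hr : ∀ y, ∃ x, j x = i y) :
    ∃ g : L₂.M →ₗ[A] L.M, IsG g ∧ ∀ y, j (g y) = i y := by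
  choose g hg using hr
  refine ⟨⟨⟨g, fun a b => hinj ?_⟩, fun a b => hinj ?_⟩, fun d y => hinj ?_, hg⟩
  · rw [map_add, hg, hg, hg, map_add]
  · rw [map_smul, hg, hg, map_smul, RingHom.id_apply]
  · show j (g (L₂.π d y)) = j (L.π d (g y))
    rw [hg, hj, hg, hi]

variable [IsNoetherianRing A]

theorem LatG.val (hl : GAdd l) (hv : VnG 𝔟 S l) (hk : Kill 𝔟 M.M) {j : L.M →ₗ[A] M.M}
    {j₂ : L₂.M →ₗ[A] M.M} (h : LatG S j) (h₂ : LatG S j₂) : l L = l L₂ := by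
  have hst : St L ((LinearMap.range j₂).comap j) := St.comap h.gr h₂.gr.range
  have h1 : l L = l (L.sub _ hst) := by
    refine val_aux_CWB hl hv h.fin (hk.of_injective j h.inj) (isG_subtype hst)
      (Submodule.injective_subtype _) fun f hf x => ?_
    obtain ⟨N, y, hy⟩ := h₂.den f hf (j x)
    exact ⟨N, ⟨f ^ N • x, ⟨y, by rw [hy, map_smul]⟩⟩, rfl⟩
  obtain ⟨g, hg, hc⟩ := lift_CWB (L₂ := L.sub _ hst) (h.gr.comp (isG_subtype hst)) h₂.gr h₂.inj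
    fun y => y.2
  have h2 : l L₂ = l (L.sub _ hst) := by
    refine val_aux_CWB hl hv h₂.fin (hk.of_injective j₂ h₂.inj) hg (fun a b hab => ?_)
      fun f hf x => ?_
    · refine Subtype.ext (h.inj ?_)
      exact (hc a).symm.trans ((congrArg j₂ hab).trans (hc b))
    · obtain ⟨N, y, hy⟩ := h.den f hf (j₂ x)
      refine ⟨N, ⟨y, ⟨f ^ N • x, by rw [hy, map_smul]⟩⟩, h₂.inj ?_⟩
      exact (hc _).trans (hy.trans (map_smul j₂ _ _).symm)
  rw [h1, h2]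

theorem LatG.ses (hl : GAdd l) (hv : VnG 𝔟 S l) (hk : Kill 𝔟 M₂.M) {j : L.M →ₗ[A] M.M}
    {j₂ : L₂.M →ₗ[A] M₂.M} {j₃ : L₃.M →ₗ[A] M₃.M} (h : LatG S j) (h₂ : LatG S j₂)
    (h₃ : LatG S j₃) (hs : Ses M M₂ M₃) : l L₂ = l L + l L₃ := by
  obtain ⟨f, g, hf, hg, hi, hsu, he⟩ := hs
  have hG : IsG (g ∘ₗ j₂) := hg.comp h₂.gr
  have hG' : IsG (M := L₂) (N := M₃.sub _ hG.range) (g ∘ₗ j₂).rangeRestrict :=
    fun d x => Subtype.ext (hG d x)
  have := h₂.fin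
  have h0 := hl.of_surj h₂.fin hG' (g ∘ₗ j₂).surjective_rangeRestrict
  obtain ⟨k, hk1, hk2⟩ := lift_CWB (L₂ := L₂.sub _ hG'.ker) (h₂.gr.comp (isG_subtype hG'.ker)) hf
    hi fun y => (he _).1 (congrArg Subtype.val y.2)
  have l1 : LatG S (L := L₂.sub _ hG'.ker) k := by
    refine ⟨inferInstance, hk1, fun a b hab => ?_, fun a ha y => ?_⟩
    · refine Subtype.ext (h₂.inj ?_)
      exact (hk2 a).symm.trans ((congrArg f hab).trans (hk2 b))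
    · obtain ⟨N, x, hx⟩ := h₂.den a ha (f y)
      refine ⟨N, ⟨x, Subtype.ext ?_⟩, hi ?_⟩
      · show g (j₂ x) = 0
        rw [hx, map_smul, he.apply_apply_eq_zero, smul_zero]
      · exact (hk2 _).trans (hx.trans (map_smul f _ _).symm)
  have l3 : LatG S (L := M₃.sub _ hG.range) (LinearMap.range (g ∘ₗ j₂)).subtype := by
    refine ⟨inferInstance, isG_subtype _, Submodule.injective_subtype _, fun a ha y => ?_⟩
    obtain ⟨y, rfl⟩ := hsu y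
    obtain ⟨N, x, hx⟩ := h₂.den a ha y
    refine ⟨N, ⟨g (j₂ x), x, rfl⟩, ?_⟩
    show g (j₂ x) = _
    rw [hx, map_smul]
  rw [h0, LatG.val hl hv (hk.of_injective f hi) h l1, LatG.val hl hv (hk.of_surjective g hsu) h₃ l3]

theorem LatG.res {φ : A →+* A} {ν : Γ → Γ} (hφ : φ.Finite)
    (hS : ∀ f ∈ S, ∃ m, 0 < m ∧ φ f = f ^ m) {j : L.M →ₗ[A] M.M} (h : LatG S j) {R R' : GM 𝒜}
    {a : R.M →+ L.M} {b : R'.M →+ M.M} (ha : IsRes φ ν R L a) (hb : IsRes φ ν R' M b) :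
    ∃ j' : R.M →ₗ[A] R'.M, LatG S j' := by
  obtain ⟨g, hg, hc, hi, -⟩ := ha.map hb h.gr
  refine ⟨g, ha.finite' h.fin hφ, hg, hi h.inj, fun f hf y => ?_⟩
  obtain ⟨m, hm, hφf⟩ := hS f hf
  obtain ⟨N, x, hx⟩ := h.den f hf (b y)
  have e : j (f ^ (m * N - N) • x) = b (f ^ N • y) := by
    rw [map_smul, hx, smul_smul, ← pow_add, hb.smul, map_pow, hφf, ← pow_mul,
      Nat.sub_add_cancel (Nat.le_mul_of_pos_left N hm)]
  obtain ⟨z, hz⟩ := ha.mem_range (x := f ^ (m * N - N) • x) fun γ hγ =>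
    h.inj (by rw [h.gr, e, hb.π_eq_zero hγ, map_zero])
  exact ⟨N, z, hb.inj (by rw [hc, hz, e])⟩

end Pool.Agent.CXD
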