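import Pool.Agent.P.MP_2ce3e7_ag.CYA

/-! Lattices and the extension of an additive function. -/

set_option linter.unusedSectionVars false
set_option linter.unusedVariables false

open Function

noncomputable section

namespace Pool.Agent.CXD

variable {A A' : Type} [CommRing A] [CommRing A']

/-- `Ψ` is finite over the open set where some element of `S` does not vanish -/
structure Pc (Ψ : A →+* A') (S : Set A) : Prop where
  fin : S.Finite
  ft : Ψ.FiniteType
  int : ∀ f ∈ S, ∀ y : A', ∃ N : ℕ, Ψ.IsIntegralElem (Ψ f ^ N * y)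

/-- a lattice -/
structure Lat (Ψ : A →+* A') (S : Set A) {M M' : Type} [AddCommGroup M] [Module A M]
    [AddCommGroup M'] [Module A' M'] (j : M →ₛₗ[Ψ] M') : Prop where
  fin : Module.Finite A M
  inj : Injective j
  den : ∀ f ∈ S, ∀ y : M', ∃ (N : ℕ) (x : M), j x = Ψ f ^ N • y

/-- vanishing on the boundary -/
def Vn (Ψ : A →+* A') (S : Set A) (χ : Val A) : Prop :=
  ∀ P : Ideal A, P.IsPrime → RingHom.ker Ψ ≤ P → (∀ f ∈ S, f ∈ P) → χ.val (A ⧸ P) = 0

open Classical in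
/-- the value at a lattice -/
def ext (Ψ : A →+* A') (S : Set A) (χ : Val A) : Val A' :=
  ⟨fun M' _ _ => if h : ∃ (L : FG A) (j : L.M →ₛₗ[Ψ] M'), Lat Ψ S j then χ.val h.choose.M else 0⟩

variable {Ψ : A →+* A'} {S : Set A} {χ : Val A} {M M' : Type} [AddCommGroup M] [Module A M]
  [AddCommGroup M'] [Module A' M']

theorem one_CYB [Algebra A A'] [Algebra.FiniteType A A'] (M' : Type) [AddCommGroup M']
    [Module A' M'] [Module A M'] [IsScalarTower A A' M'] [Module.Finite A' M'] (u : A')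
    (hu : u ∈ Set.range (algebraMap A A')) (hi : ∀ y : A', ∃ N : ℕ, IsIntegral A (u ^ N * y)) :
    ∃ L : Submodule A M', L.FG ∧ ∀ y : M', ∃ N : ℕ, u ^ N • y ∈ L := by
  classical
  obtain ⟨s, hs⟩ := (Algebra.FiniteType.out : (⊤ : Subalgebra A A').FG)
  obtain ⟨T, hT⟩ := (Module.Finite.fg_top : (⊤ : Submodule A' M').FG)
  choose N hN using hi
  set B : Subalgebra A A' := Algebra.adjoin A ((fun y => u ^ N y * y) '' (s : Set A')) with hB
  have hBfg : B.toSubmodule.FG :=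
    fg_adjoin_of_finite (s.finite_toSet.image _) (by rintro _ ⟨y, _, rfl⟩; exact hN y)
  have huB : u ∈ B := by
    obtain ⟨a, rfl⟩ := hu
    exact B.algebraMap_mem a
  have hall : ∀ y : A', ∃ n : ℕ, u ^ n * y ∈ B := by
    intro y
    have hy : y ∈ Algebra.adjoin A (s : Set A') := hs ▸ Algebra.mem_top
    induction hy using Algebra.adjoin_induction with
    | mem x hx => exact ⟨N x, Algebra.subset_adjoin ⟨x, hx, rfl⟩⟩
    | algebraMap r => exact ⟨0, by rw [pow_zero, one_mul]; exact B.algebraMap_mem r⟩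
    | add x y _ _ hx hy =>
      obtain ⟨a, ha⟩ := hx
      obtain ⟨b, hb⟩ := hy
      refine ⟨a + b, ?_⟩
      have : u ^ (a + b) * (x + y) = u ^ b * (u ^ a * x) + u ^ a * (u ^ b * y) := by ring
      rw [this]
      exact B.add_mem (B.mul_mem (B.pow_mem huB _) ha) (B.mul_mem (B.pow_mem huB _) hb)
    | mul x y _ _ hx hy =>
      obtain ⟨a, ha⟩ := hx
      obtain ⟨b, hb⟩ := hy
      refine ⟨a + b, ?_⟩
      have : u ^ (a + b) * (x * y) = (u ^ a * x) * (u ^ b * y) := by ring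
      rw [this]
      exact B.mul_mem ha hb
  let μ : A' →ₗ[A] M' →ₗ[A] M' := (Algebra.lsmul A A M' : A' →ₐ[A] Module.End A M').toLinearMap
  have hμ : ∀ (a : A') (m : M'), μ a m = a • m := fun a m => rfl
  let L : Submodule A M' := Submodule.map₂ μ B.toSubmodule (Submodule.span A (T : Set M'))
  have hL : ∀ b ∈ B, ∀ m ∈ L, b • m ∈ L := by
    intro b hb m hm
    have : L ≤ L.comap (μ b) := by
      refine Submodule.map₂_le.2 fun c hc t ht => ?_
      rw [Submodule.mem_comap, hμ, hμ, ← mul_smul, ← hμ]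
      exact Submodule.apply_mem_map₂ μ (B.mul_mem hb hc) ht
    exact this hm
  refine ⟨L, hBfg.map₂ μ (Submodule.fg_span T.finite_toSet), fun y => ?_⟩
  have hy : y ∈ Submodule.span A' (T : Set M') := hT ▸ Submodule.mem_top
  induction hy using Submodule.span_induction with
  | mem x hx =>
    refine ⟨0, ?_⟩
    rw [← hμ]
    exact Submodule.apply_mem_map₂ μ (B.pow_mem huB 0) (Submodule.subset_span hx)
  | zero => exact ⟨0, by simp⟩
  | add x y _ _ hx hy =>
    obtain ⟨a, ha⟩ := hx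
    obtain ⟨b, hb⟩ := hy
    refine ⟨a + b, ?_⟩
    have : u ^ (a + b) • (x + y) = u ^ b • (u ^ a • x) + u ^ a • (u ^ b • y) := by
      rw [smul_add, ← mul_smul, ← mul_smul, ← pow_add, ← pow_add, add_comm b a]
    rw [this]
    exact L.add_mem (hL _ (B.pow_mem huB _) _ ha) (hL _ (B.pow_mem huB _) _ hb)
  | smul c x _ hx =>
    obtain ⟨a, ha⟩ := hx
    obtain ⟨b, hb⟩ := hall c
    refine ⟨a + b, ?_⟩
    have : u ^ (a + b) • c • x = (u ^ b * c) • (u ^ a • x) := by
      rw [← mul_smul, ← mul_smul]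
      congr 1
      ring
    rw [this]
    exact hL _ hb _ ha

theorem exists_lat (h : Pc Ψ S) (M' : Type) [AddCommGroup M'] [Module A' M'] [Module.Finite A' M'] :
    ∃ (L : FG A) (j : L.M →ₛₗ[Ψ] M'), Lat Ψ S j := by
  let : Algebra A A' := Ψ.toAlgebra
  let : Module A M' := Module.compHom M' Ψ
  have : IsScalarTower A A' M' := ⟨fun b a y => mul_smul (Ψ b) a y⟩
  have : Algebra.FiniteType A A' := h.ft
  have h1 : ∀ f : S, ∃ L : Submodule A M', L.FG ∧ ∀ y : M', ∃ N : ℕ, Ψ f ^ N • y ∈ L :=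
    fun f => one_CYB M' (Ψ f) ⟨f, rfl⟩ (h.int f f.2)
  choose L hL hN using h1
  have : Finite S := h.fin
  have hfg : (iSup L).FG := Submodule.fg_iSup L hL
  have hfin : Module.Finite A (iSup L : Submodule A M') := Module.Finite.iff_fg.2 hfg
  refine ⟨⟨(iSup L : Submodule A M')⟩,
    { toFun := fun x => x.1, map_add' := fun _ _ => rfl, map_smul' := fun _ _ => rfl },
    hfin, fun x y hxy => Subtype.ext hxy, fun f hf y => ?_⟩
  obtain ⟨N, hN⟩ := hN ⟨f, hf⟩ y
  exact ⟨N, ⟨_, le_iSup L ⟨f, hf⟩ hN⟩, rfl⟩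

theorem pow_mem_CYB {Q : Type} [AddCommGroup Q] [Module A Q] [Module.Finite A Q] (f : A)
    (hf : ∀ y : Q, ∃ N : ℕ, f ^ N • y = 0) : ∃ N : ℕ, f ^ N ∈ Module.annihilator A Q := by
  obtain ⟨n, v, hv⟩ := Module.Finite.exists_fin (R := A) (M := Q)
  choose N hN using hf
  refine ⟨∑ i, N (v i), Module.mem_annihilator.2 fun y => ?_⟩
  have hy : y ∈ Submodule.span A (Set.range v) := hv ▸ Submodule.mem_top
  induction hy using Submodule.span_induction with
  | mem x hx =>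
    obtain ⟨i, rfl⟩ := hx
    obtain ⟨c, hc⟩ := Nat.exists_eq_add_of_le
      (Finset.single_le_sum (f := fun i => N (v i)) (fun _ _ => Nat.zero_le _) (Finset.mem_univ i))
    rw [hc, add_comm, pow_add, mul_smul, hN, smul_zero]
  | zero => exact smul_zero _
  | add x y _ _ hx hy => rw [smul_add, hx, hy, add_zero]
  | smul c x _ hx => rw [smul_comm, hx, smul_zero]

theorem sub_CYB [IsNoetherianRing A] (hχ : IsAdd χ ⊥) (hv : Vn Ψ S χ) [Module.Finite A M]
    {P : Type} [AddCommGroup P] [Module A P] (i : P →ₗ[A] M) (hi : Injective i)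
    (hd : ∀ f ∈ S, ∀ x : M, ∃ (N : ℕ) (p : P), i p = f ^ N • x)
    (hk : Kill (RingHom.ker Ψ) M) : χ.val M = χ.val P := by
  have h1 := hχ P M (M ⧸ LinearMap.range i) i (LinearMap.range i).mkQ hi
    (Submodule.mkQ_surjective _) (LinearMap.exact_map_mkQ_range i) kill_bot
  have h2 : χ.val (M ⧸ LinearMap.range i) = 0 := by
    refine val_of_primes hχ _ kill_bot fun Q hQ hle => hv Q hQ ?_ fun f hf => ?_
    · exact (kill_iff.1 (hk.of_surjective _ (Submodule.mkQ_surjective _))).trans hle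
    · obtain ⟨N, hN⟩ := pow_mem_CYB (Q := M ⧸ LinearMap.range i) f fun y => by
        obtain ⟨y, rfl⟩ := Submodule.Quotient.mk_surjective _ y
        obtain ⟨N, p, hp⟩ := hd f hf y
        exact ⟨N, by
          rw [← Submodule.Quotient.mk_smul]
          exact (Submodule.Quotient.mk_eq_zero _).2 ⟨p, hp⟩⟩
      exact hQ.mem_of_pow_mem N (hle hN)
  rw [h1, h2, add_zero]

theorem kill_CYB {j : M →ₛₗ[Ψ] M'} (h : Lat Ψ S j) : Kill (RingHom.ker Ψ) M := fun x hx y =>
  h.inj (by rw [j.map_smulₛₗ, (RingHom.mem_ker).1 hx, zero_smul, map_zero])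

theorem lat_val [IsNoetherianRing A] (hχ : IsAdd χ ⊥) (hv : Vn Ψ S χ) {M₂ : Type} [AddCommGroup M₂]
    [Module A M₂] {j : M →ₛₗ[Ψ] M'} {j₂ : M₂ →ₛₗ[Ψ] M'} (h : Lat Ψ S j) (h₂ : Lat Ψ S j₂) :
    χ.val M = χ.val M₂ := by
  have := h.fin
  have := h₂.fin
  let P : Submodule A (M × M₂) :=
    { carrier := {x | j x.1 = j₂ x.2}
      add_mem' := fun {a b} ha hb => by
        have ha' : j a.1 = j₂ a.2 := ha
        have hb' : j b.1 = j₂ b.2 := hb
        change j (a.1 + b.1) = j₂ (a.2 + b.2)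
        rw [map_add, map_add, ha', hb']
      zero_mem' := by
        change j 0 = j₂ 0
        rw [map_zero, map_zero]
      smul_mem' := fun c a ha => by
        have ha' : j a.1 = j₂ a.2 := ha
        change j (c • a.1) = j₂ (c • a.2)
        rw [j.map_smulₛₗ, j₂.map_smulₛₗ, ha'] }
  have e1 : χ.val M = χ.val P := by
    refine sub_CYB hχ hv ((LinearMap.fst A M M₂).comp P.subtype) (fun x y hxy => ?_)
      (fun f hf x => ?_) (kill_CYB h)
    · have h1 : x.1.1 = y.1.1 := hxy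
      have hx : j x.1.1 = j₂ x.1.2 := x.2
      have hy : j y.1.1 = j₂ y.1.2 := y.2
      exact Subtype.ext (Prod.ext h1 (h₂.inj (by rw [← hx, ← hy, h1])))
    · obtain ⟨N, z, hz⟩ := h₂.den f hf (j x)
      refine ⟨N, ⟨(f ^ N • x, z), ?_⟩, rfl⟩
      change j (f ^ N • x) = j₂ z
      rw [hz, j.map_smulₛₗ, map_pow]
  have e2 : χ.val M₂ = χ.val P := by
    refine sub_CYB hχ hv ((LinearMap.snd A M M₂).comp P.subtype) (fun x y hxy => ?_)
      (fun f hf x => ?_) (kill_CYB h₂)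
    · have h1 : x.1.2 = y.1.2 := hxy
      have hx : j x.1.1 = j₂ x.1.2 := x.2
      have hy : j y.1.1 = j₂ y.1.2 := y.2
      exact Subtype.ext (Prod.ext (h.inj (by rw [hx, hy, h1])) h1)
    · obtain ⟨N, z, hz⟩ := h.den f hf (j₂ x)
      refine ⟨N, ⟨(z, f ^ N • x), ?_⟩, rfl⟩
      change j z = j₂ (f ^ N • x)
      rw [hz, j₂.map_smulₛₗ, map_pow]
  rw [e1, e2]

theorem ext_val [IsNoetherianRing A] (hχ : IsAdd χ ⊥) (hv : Vn Ψ S χ) {j : M →ₛₗ[Ψ] M'}
    (h : Lat Ψ S j) : (ext Ψ S χ).val M' = χ.val M := by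
  have := h.fin
  have hex : ∃ (L : FG A) (j : L.M →ₛₗ[Ψ] M'), Lat Ψ S j := ⟨⟨M⟩, j, h⟩
  simp only [ext]
  rw [dif_pos hex]
  obtain ⟨j', hj'⟩ := hex.choose_spec
  exact lat_val hχ hv hj' h

theorem isAdd_ext [IsNoetherianRing A] (h : Pc Ψ S) (hχ : IsAdd χ ⊥) (hv : Vn Ψ S χ) :
    IsAdd (ext Ψ S χ) ⊥ := by
  intro M N P _ _ _ _ _ _ _ f g hf hg he _
  obtain ⟨L, j, hj⟩ := exists_lat h N
  let gj : L.M →ₛₗ[Ψ] P :=
    { toFun := fun x => g (j x)
      map_add' := fun x y => by rw [map_add, map_add]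
      map_smul' := fun c x => by rw [j.map_smulₛₗ, map_smul] }
  have hgj : ∀ x, gj x = g (j x) := fun _ => rfl
  let L₁ : Submodule A L.M := LinearMap.ker gj
  have hex : ∀ x : L₁, ∃ y : M, f y = j x.1 := fun x => (he _).1 x.2
  choose t ht using hex
  let j₁ : L₁ →ₛₗ[Ψ] M :=
    { toFun := t
      map_add' := fun x y => hf (by rw [map_add, ht, ht, ht, Submodule.coe_add, map_add])
      map_smul' := fun c x => hf (by rw [map_smul, ht, ht, Submodule.coe_smul, j.map_smulₛₗ]) }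
  have hj₁ : Lat Ψ S j₁ := by
    refine ⟨inferInstance, fun x y hxy => Subtype.ext (hj.inj ?_), fun u hu y => ?_⟩
    · have h1 : t x = t y := hxy
      rw [← ht, ← ht, h1]
    · obtain ⟨n, x, hx⟩ := hj.den u hu (f y)
      have hx1 : x ∈ L₁ := by
        change g (j x) = 0
        rw [hx, map_smul, he.apply_apply_eq_zero, smul_zero]
      refine ⟨n, ⟨x, hx1⟩, hf ?_⟩
      change f (t _) = _
      rw [ht, map_smul, hx]
  let j₃ : (L.M ⧸ L₁) →ₛₗ[Ψ] P := L₁.liftQ gj le_rfl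
  have hj₃ : Lat Ψ S j₃ := by
    refine ⟨inferInstance, ?_, fun u hu y => ?_⟩
    · rw [injective_iff_map_eq_zero]
      intro x hx
      obtain ⟨x, rfl⟩ := Submodule.Quotient.mk_surjective _ x
      exact (Submodule.Quotient.mk_eq_zero _).2 hx
    · obtain ⟨y, rfl⟩ := hg y
      obtain ⟨n, x, hx⟩ := hj.den u hu y
      refine ⟨n, Submodule.Quotient.mk x, ?_⟩
      change g (j x) = _
      rw [hx, map_smul]
  rw [ext_val hχ hv hj, ext_val hχ hv hj₁, ext_val hχ hv hj₃]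
  exact hχ L₁ L.M (L.M ⧸ L₁) L₁.subtype L₁.mkQ L₁.injective_subtype (Submodule.mkQ_surjective _)
    (LinearMap.exact_subtype_mkQ L₁) kill_bot

theorem ext_lin (s t : ℚ) (χ χ' : Val A) :
    Eqv (ext Ψ S (Val.lin s t χ χ')) (Val.lin s t (ext Ψ S χ) (ext Ψ S χ')) := by
  intro M _ _ _
  simp only [ext, Val.lin]
  split_ifs <;> simp

theorem ext_eqv {χ χ' : Val A} (h : Eqv χ χ') : Eqv (ext Ψ S χ) (ext Ψ S χ') := by
  intro M _ _ _
  simp only [ext]
  split_ifs with h1
  · exact h _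
  · rfl

end Pool.Agent.CXD
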