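import Pool.Agent.P.MP_2ce3e7_ag.CWB
import Pool.Agent.P.MP_2ce3e7_ag.CYB

attribute [local instance] Pool.Agent.CXD.instAddCommGroupCp Pool.Agent.CXD.instModuleCp

/-! Laurent modules. -/

set_option linter.unusedSectionVars false
set_option linter.unusedVariables false

open Function LaurentPolynomial

noncomputable section

namespace Pool.Agent.CXD

/-- Laurent polynomials with coefficients in a module -/
def Lau (W : Type) [AddCommGroup W] : Type := ℤ →₀ W

section
variable (A W : Type) [CommRing A] [AddCommGroup W] [Module A W]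

local instance : AddCommGroup (Lau W) := inferInstanceAs (AddCommGroup (ℤ →₀ W))

/-- the shift operators -/
def shf : Multiplicative ℤ →* Module.End A (ℤ →₀ W) where
  toFun i := Finsupp.lmapDomain W A (· + i.toAdd)
  map_one' := by
    ext; simp
  map_mul' i j := by
    refine Finsupp.lhom_ext fun a b => ?_
    simp [add_left_comm, add_comm]

local instance : Module A[T;T⁻¹] (Lau W) :=
  Module.compHom (ℤ →₀ W) (AddMonoidAlgebra.lift A (Module.End A (ℤ →₀ W)) ℤ (shf A W)).toRingHom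

variable {A W}

/-- a monomial -/
def Lau.sg (i : ℤ) : W →+ Lau W := Finsupp.singleAddHom i

/-- a coefficient -/
def Lau.ev (i : ℤ) : Lau W →+ W := Finsupp.applyAddHom i

theorem Lau.smul_sg (a : A) (i j : ℤ) (w : W) :
    (C a * T j : A[T;T⁻¹]) • Lau.sg i w = Lau.sg (i + j) (a • w) := by
  change (AddMonoidAlgebra.lift A (Module.End A (ℤ →₀ W)) ℤ (shf A W)) (C a * T j)
    (Finsupp.single i w) = Finsupp.single (i + j) (a • w)
  rw [← single_eq_C_mul_T, AddMonoidAlgebra.lift_single, LinearMap.smul_apply]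
  change a • Finsupp.mapDomain (· + j) (Finsupp.single i w) = _
  rw [Finsupp.mapDomain_single, Finsupp.smul_single]

theorem ev_sg_CWC (i : ℤ) (w : W) : Lau.ev i (Lau.sg i w) = w := Finsupp.single_eq_same

theorem ev_sg_ne_CWC {i j : ℤ} (hij : i ≠ j) (w : W) : Lau.ev i (Lau.sg j w) = 0 :=
  Finsupp.single_eq_of_ne hij

theorem ind_CWC {p : Lau W → Prop} (h0 : p 0) (h1 : ∀ i w, p (Lau.sg i w))
    (h2 : ∀ x y, p x → p y → p (x + y)) (x : Lau W) : p x :=
  Finsupp.induction_linear (motive := p) x h0 h2 h1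

theorem ev_smul_CWC (a : A) (i j : ℤ) (x : Lau W) :
    Lau.ev (i + j) ((C a * T j : A[T;T⁻¹]) • x) = a • Lau.ev i x := by
  induction x using ind_CWC with
  | h0 => rw [smul_zero, map_zero, map_zero, smul_zero]
  | h1 k w =>
    rw [Lau.smul_sg]
    by_cases hk : i = k
    · subst hk
      rw [ev_sg_CWC, ev_sg_CWC]
    · rw [ev_sg_ne_CWC hk, ev_sg_ne_CWC (fun h => hk (add_right_cancel h)), smul_zero]
  | h2 x y hx hy => rw [smul_add, map_add, map_add, hx, hy, smul_add]

theorem sum_sg_CWC (x : Lau W) :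
    ∑ i ∈ Finsupp.support (x : ℤ →₀ W), Lau.sg i (Lau.ev i x) = x :=
  Finsupp.sum_single (x : ℤ →₀ W)

theorem Lau.ev_smul_sg (p : A[T;T⁻¹]) (i : ℤ) (w : W) :
    Lau.ev i (p • Lau.sg 0 w) = p.coeff i • w := by
  induction p using LaurentPolynomial.induction_on' with
  | add p q hp hq => rw [add_smul, map_add, hp, hq, AddMonoidAlgebra.coeff_add, Finsupp.add_apply,
      add_smul]
  | C_mul_T n a =>
    rw [Lau.smul_sg, zero_add, ← single_eq_C_mul_T, AddMonoidAlgebra.coeff_single]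
    by_cases hk : i = n
    · subst hk
      rw [ev_sg_CWC, Finsupp.single_eq_same]
    · rw [ev_sg_ne_CWC hk, Finsupp.single_eq_of_ne hk, zero_smul]

local instance Lau.finite [Module.Finite A W] : Module.Finite A[T;T⁻¹] (Lau W) := by
  obtain ⟨n, v, hv⟩ := Module.Finite.exists_fin (R := A) (M := W)
  refine ⟨Submodule.fg_def.2 ⟨Set.range fun k => Lau.sg 0 (v k), Set.finite_range _, ?_⟩⟩
  refine eq_top_iff.2 fun x _ => ?_
  induction x using ind_CWC with
  | h0 => exact Submodule.zero_mem _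
  | h2 x y hx hy => exact Submodule.add_mem _ (hx trivial) (hy trivial)
  | h1 i w =>
    have hw : w ∈ Submodule.span A (Set.range v) := hv ▸ Submodule.mem_top
    have h0 : Lau.sg 0 w ∈ Submodule.span A[T;T⁻¹] (Set.range fun k => Lau.sg 0 (v k)) := by
      induction hw using Submodule.span_induction with
      | mem x hx =>
        obtain ⟨k, rfl⟩ := hx
        exact Submodule.subset_span ⟨k, rfl⟩
      | zero => rw [map_zero]; exact Submodule.zero_mem _
      | add x y _ _ hx hy => rw [map_add]; exact Submodule.add_mem _ (hx trivial) (hy trivial)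
      | smul a x _ hx =>
        have := Lau.smul_sg a 0 0 x
        rw [add_zero] at this
        rw [← this]
        exact Submodule.smul_mem _ _ (hx trivial)
    have := Lau.smul_sg (1 : A) 0 i w
    rw [zero_add, one_smul] at this
    rw [← this]
    exact Submodule.smul_mem _ _ h0

end

attribute [local instance] instAddCommGroupLau instModuleLaurentPolynomialLau Lau.finite

variable {A A' Γ Γ' : Type} [CommRing A] [CommRing A'] [AddCommGroup Γ] [AddCommGroup Γ']
  {𝒜 : Γ → Set A} {𝒜' : Γ' → Set A'}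

/-- the homogenisation of `Ψ` -/
def hat (θ : A →+* A[T;T⁻¹]) (Ψ : A →+* A') : A →+* A'[T;T⁻¹] :=
  (AddMonoidAlgebra.mapRingHom ℤ Ψ).comp θ

/-- `θ` reads the first component of the degree, `Ψ` keeps the second component -/
structure Ch (θ : A →+* A[T;T⁻¹]) (Ψ : A →+* A') (𝒜 : Γ → Set A) (𝒜' : Γ' → Set A')
    (e : Γ ≃+ ℤ × Γ') : Prop where
  co : ∀ c, ∀ a ∈ 𝒜 c, θ a = C a * T (e c).1
  mem : ∀ c, ∀ a ∈ 𝒜 c, Ψ a ∈ cl 𝒜' (e c).2

variable {θ : A →+* A[T;T⁻¹]} {Ψ : A →+* A'} {e : Γ ≃+ ℤ × Γ'}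

theorem map_C_mul_T (f : A →+* A') (a : A) (i : ℤ) :
    AddMonoidAlgebra.mapRingHom ℤ f (C a * T i) = C (f a) * T i := by
  rw [← single_eq_C_mul_T, ← single_eq_C_mul_T, AddMonoidAlgebra.mapRingHom_single]

theorem Ch.hat_cl (h : Ch θ Ψ 𝒜 𝒜' e) {c : Γ} {a : A} (ha : a ∈ cl 𝒜 c) :
    hat θ Ψ a = C (Ψ a) * T (e c).1 := by
  induction ha using AddSubgroup.closure_induction with
  | mem x hx =>
    change AddMonoidAlgebra.mapRingHom ℤ Ψ (θ x) = _
    rw [h.co c x hx, map_C_mul_T]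
  | zero => rw [map_zero, map_zero, map_zero, zero_mul]
  | add x y _ _ hx hy => rw [map_add, hx, hy, map_add, map_add, add_mul]
  | neg x _ hx => rw [map_neg, hx, map_neg, map_neg, neg_mul]

theorem Ch.mem_cl (h : Ch θ Ψ 𝒜 𝒜' e) {c : Γ} {a : A} (ha : a ∈ cl 𝒜 c) :
    Ψ a ∈ cl 𝒜' (e c).2 := by
  induction ha using AddSubgroup.closure_induction with
  | mem x hx => exact h.mem c x hx
  | zero => rw [map_zero]; exact zero_mem _
  | add x y _ _ hx hy => rw [map_add]; exact add_mem hx hy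
  | neg x _ hx => rw [map_neg]; exact neg_mem hx

/-- a point through which `hat θ Ψ` factors -/
theorem Ch.ker_le [Gd 𝒜] (h : Ch θ Ψ 𝒜 𝒜' e) {L : Type} [CommRing L] (α : A →+* L) (β : A' →+* L)
    (t : Lˣ) (hα : ∀ c, ∀ a ∈ 𝒜 c, α a = β (Ψ a) * (t ^ (e c).1 : Lˣ)) :
    RingHom.ker (hat θ Ψ) ≤ RingHom.ker α := by
  have key : ∀ a, α a = LaurentPolynomial.eval₂ β t (hat θ Ψ a) := by
    intro a
    induction a using Gd.ind 𝒜 with
    | h0 => rw [map_zero, map_zero, map_zero]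
    | h1 c a ha => rw [h.hat_cl (CXD.mem_cl ha), map_mul, eval₂_C, eval₂_T, hα c a ha]
    | h2 a b ha hb => rw [map_add, map_add, map_add, ha, hb]
    | h3 a ha => rw [map_neg, map_neg, map_neg, ha]
  intro a ha
  rw [RingHom.mem_ker] at ha ⊢
  rw [key, ha, map_zero]

/-- the graded module of Laurent polynomials -/
def lau (h : Ch θ Ψ 𝒜 𝒜' e) (W : GM 𝒜') : GM 𝒜 where
  M := Cp (hat θ Ψ) (Lau W.M)
  π γ := (Lau.sg (e γ).1).comp ((W.π (e γ).2).comp (Lau.ev (e γ).1))
  π_self := by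
    intro d x
    change Lau.sg (e d).1 (W.π (e d).2 (Lau.ev (e d).1
      (Lau.sg (e d).1 (W.π (e d).2 (Lau.ev (e d).1 x))))) =
      Lau.sg (e d).1 (W.π (e d).2 (Lau.ev (e d).1 x))
    rw [ev_sg_CWC, W.π_self]
  π_ne := by
    intro d d' x hd
    change Lau.sg (e d).1 (W.π (e d).2 (Lau.ev (e d).1
      (Lau.sg (e d').1 (W.π (e d').2 (Lau.ev (e d').1 x))))) = (0 : Lau W.M)
    by_cases h1 : (e d).1 = (e d').1
    · have h2 : (e d).2 ≠ (e d').2 := fun h2 => hd (e.injective (Prod.ext h1 h2))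
      rw [h1, ev_sg_CWC, W.π_ne _ _ _ h2, map_zero]
    · rw [ev_sg_ne_CWC h1, map_zero, map_zero]
  sum_π := by
    classical
    intro x
    let y : Lau W.M := x
    let s : Finset ℤ := Finsupp.support (y : ℤ →₀ W.M)
    let t : Finset Γ' := s.biUnion fun i => (W.fin_supp (Lau.ev i y)).toFinset
    refine ⟨(s ×ˢ t).image e.symm, ?_⟩
    rw [Finset.sum_image fun a _ b _ hab => e.symm.injective hab, Finset.sum_product]
    change ∑ i ∈ s, ∑ d ∈ t, Lau.sg (e (e.symm (i, d))).1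
      (W.π (e (e.symm (i, d))).2 (Lau.ev (e (e.symm (i, d))).1 y)) = y
    simp only [AddEquiv.apply_symm_apply]
    refine Eq.trans (Finset.sum_congr rfl fun i hi => ?_) (sum_sg_CWC y)
    rw [← map_sum, W.sum_of_supp]
    intro d hd
    exact Finset.mem_biUnion.2 ⟨i, hi, (Set.Finite.mem_toFinset _).2 hd⟩
  π_smul := by
    intro c d a ha x
    let y : Lau W.M := x
    change Lau.sg (e (c + d)).1 (W.π (e (c + d)).2 (Lau.ev (e (c + d)).1 (hat θ Ψ a • y))) =
      hat θ Ψ a • Lau.sg (e d).1 (W.π (e d).2 (Lau.ev (e d).1 y))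
    rw [h.hat_cl (mem_cl ha), map_add, Prod.fst_add, Prod.snd_add, add_comm (e c).1, ev_smul_CWC,
      Lau.smul_sg, W.π_cl (h.mem c a ha)]

variable (h : Ch θ Ψ 𝒜 𝒜' e) (W : GM 𝒜')

/-- a monomial -/
def lsg (i : ℤ) : W.M →+ (lau h W).M := Lau.sg i

/-- a coefficient -/
def lev' (i : ℤ) : (lau h W).M →+ W.M := Lau.ev i

variable {h W}

theorem lev_lsg (i : ℤ) (w : W.M) : lev' h W i (lsg h W i w) = w := Finsupp.single_eq_same

theorem lev_lsg_ne {i j : ℤ} (hij : i ≠ j) (w : W.M) : lev' h W i (lsg h W j w) = 0 :=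
  Finsupp.single_eq_of_ne hij

theorem lau_ext {x y : (lau h W).M} (hxy : ∀ i, lev' h W i x = lev' h W i y) : x = y :=
  Finsupp.ext hxy

theorem lau_π (γ : Γ) (x : (lau h W).M) :
    (lau h W).π γ x = lsg h W (e γ).1 (W.π (e γ).2 (lev' h W (e γ).1 x)) := rfl

theorem lau_π_lsg {γ : Γ} {w : W.M} (hw : W.π (e γ).2 w = w) :
    (lau h W).π γ (lsg h W (e γ).1 w) = lsg h W (e γ).1 w := by
  rw [lau_π, lev_lsg, hw]

theorem lau_ind {p : (lau h W).M → Prop} (h0 : p 0)
    (h1 : ∀ i d w, W.π d w = w → p (lsg h W i w)) (h2 : ∀ x y, p x → p y → p (x + y))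
    (x : (lau h W).M) : p x := by
  refine ind_CWC (W := W.M) (p := p) h0 (fun i w => ?_) h2 x
  change p (lsg h W i w)
  induction w using W.ind with
  | h0 => rw [map_zero]; exact h0
  | h1 d w hw => exact h1 i d w hw
  | h2 x y hx hy => rw [map_add]; exact h2 _ _ hx hy

theorem lau_lift {X : Type} [AddCommGroup X] (F : ℤ → W.M →+ X) :
    ∃ g : (lau h W).M →+ X, ∀ i w, g (lsg h W i w) = F i w :=
  ⟨Finsupp.liftAddHom F, fun i w => Finsupp.liftAddHom_apply_single F i w⟩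

theorem smul_lsg {c : Γ} {a : A} (ha : a ∈ cl 𝒜 c) (i : ℤ) (w : W.M) :
    a • lsg h W i w = lsg h W (i + (e c).1) (Ψ a • w) := by
  change hat θ Ψ a • Lau.sg i w = Lau.sg (i + (e c).1) (Ψ a • w)
  rw [h.hat_cl ha, Lau.smul_sg]

theorem lev_smul_lsg (a : A) (i : ℤ) (w : W.M) :
    lev' h W i (a • lsg h W 0 w) = (hat θ Ψ a).coeff i • w := Lau.ev_smul_sg _ i w

theorem lau_kill : Kill (RingHom.ker (hat θ Ψ)) (lau h W).M := by
  intro a ha x
  let y : Lau W.M := x
  change hat θ Ψ a • y = 0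
  rw [RingHom.mem_ker.1 ha, zero_smul]

theorem lau_exists_lat [Gd 𝒜] {S : Set A} (hS : Pc (hat θ Ψ) S) (hW : Module.Finite A' W.M) :
    ∃ (L : GM 𝒜) (j : L.M →ₗ[A] (lau h W).M), LatG S j := by
  obtain ⟨L, j, hj⟩ := exists_lat hS (Lau W.M)
  let j' : L.M →ₗ[A] (lau h W).M :=
    { toFun := fun x => j x
      map_add' := fun x y => j.map_add x y
      map_smul' := fun a x => j.map_smulₛₗ a x }
  refine exists_latG (lau h W) (L := LinearMap.range j') ?_ fun f hf y => ?_
  · rw [LinearMap.range_eq_map]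
    exact Submodule.FG.map _ Module.Finite.fg_top
  · obtain ⟨N, x, hx⟩ := hj.den f hf y
    refine ⟨N, x, ?_⟩
    change j x = hat θ Ψ (f ^ N) • (show Lau W.M from y)
    rw [hx, map_pow]

end Pool.Agent.CXD
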