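import Pool.Agent.P.MP_2ce3e7_ag.CWA2

/-! Filtrations of graded modules with cyclic quotients. -/

set_option linter.unusedSectionVars false
set_option linter.unusedVariables false

open Function

noncomputable section

namespace Pool.Agent.CXD

variable {A Γ : Type} [CommRing A] [AddCommGroup Γ] {𝒜 : Γ → Set A}

/-- generated by one homogeneous element with annihilator `P` -/
def Cyc (C : GM 𝒜) (P : Ideal A) : Prop :=
  ∃ d x, C.π d x = x ∧ Submodule.span A {x} = ⊤ ∧ ∀ a : A, a • x = 0 ↔ a ∈ P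

/-- vanishing on the cyclic modules with annihilator `P` -/
def ZG (l : GM 𝒜 → ℚ) (P : Ideal A) : Prop := ∀ C : GM 𝒜, Cyc C P → l C = 0

/-- vanishing on the primes that strictly contain `P` -/
def VanG (l : GM 𝒜 → ℚ) (P : Ideal A) : Prop := ∀ P' : Ideal A, P'.IsPrime → P < P' → ZG l P'

variable {C M : GM 𝒜} {P : Ideal A} {l : GM 𝒜 → ℚ}

theorem Cyc.finite (h : Cyc C P) : Module.Finite A C.M := by
  obtain ⟨d, x, -, hs, -⟩ := h
  exact ⟨by rw [← hs]; exact Submodule.fg_span_singleton x⟩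

theorem Cyc.ann (h : Cyc C P) : Module.annihilator A C.M = P := by
  obtain ⟨d, x, -, hs, hP⟩ := h
  ext a
  rw [Module.mem_annihilator]
  refine ⟨fun h => (hP a).1 (h x), fun h m => ?_⟩
  have hm : m ∈ Submodule.span A {x} := by rw [hs]; trivial
  obtain ⟨b, rfl⟩ := Submodule.mem_span_singleton.1 hm
  rw [smul_comm, (hP a).2 h, smul_zero]

theorem Cyc.kill (h : Cyc C P) {𝔟 : Ideal A} (hb : 𝔟 ≤ P) : Kill 𝔟 C.M := by
  rw [kill_iff, h.ann]
  exact hb

theorem Cyc.nil (h : Cyc C P) {S : Set A} (hS : ∀ f ∈ S, f ∈ P) : Nil S C.M := by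
  intro f hf y
  refine ⟨1, ?_⟩
  rw [pow_one]
  exact Module.mem_annihilator.1 (by rw [h.ann]; exact hS f hf) y

theorem comp_CWF (b : Γ →₀ A) (hb : ∀ c, b c ∈ cl 𝒜 c) {d : Γ} {x : M.M} (hx : M.π d x = x)
    (c : Γ) : M.π (c + d) ((∑ e ∈ b.support, b e) • x) = b c • x := by
  rw [Finset.sum_smul, map_sum, Finset.sum_eq_single c]
  · exact GM.hom_smul (hb c) hx
  · exact fun e _ hn => GM.π_of_ne (GM.hom_smul (hb e) hx) fun h => hn (add_right_cancel h).symm
  · intro hn
    rw [Finsupp.notMem_support_iff.1 hn, zero_smul, map_zero]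

variable [Gd 𝒜]

theorem Cyc.hom (h : Cyc C P) {a : A} (ha : a ∈ P) :
    a ∈ AddSubgroup.closure {b | b ∈ P ∧ ∃ c, b ∈ cl 𝒜 c} := by
  obtain ⟨d, x, hx, -, hP⟩ := h
  obtain ⟨b, hb, rfl⟩ := Gd.dec 𝒜 a
  refine AddSubgroup.sum_mem _ fun c _ => AddSubgroup.subset_closure ⟨?_, c, hb c⟩
  rw [← hP, ← comp_CWF b hb hx c, (hP _).2 ha, map_zero]

theorem cyc_span (M : GM 𝒜) {d : Γ} {x : M.M} (hx : M.π d x = x) (hP : ∀ a : A, a • x = 0 ↔ a ∈ P)
    (h : St M (Submodule.span A {x})) : Cyc (M.sub _ h) P := by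
  refine ⟨d, ⟨x, Submodule.mem_span_singleton_self x⟩, Subtype.ext hx, ?_, fun a => ?_⟩
  · refine Submodule.eq_top_iff'.2 fun y => ?_
    obtain ⟨a, ha⟩ := Submodule.mem_span_singleton.1 y.2
    exact Submodule.mem_span_singleton.2 ⟨a, Subtype.ext ha⟩
  · exact Subtype.ext_iff.trans (hP a)

variable [UniqueSums Γ] [IsNoetherianRing A]

theorem exists_prime_hom (M : GM 𝒜) [Nontrivial M.M] :
    ∃ (d : Γ) (x : M.M) (P : Ideal A), M.π d x = x ∧ P.IsPrime ∧ ∀ a : A, a • x = 0 ↔ a ∈ P := by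
  classical
  have hne : {I : Ideal A | ∃ d x, M.π d x = x ∧ x ≠ 0 ∧ ∀ a : A, a • x = 0 ↔ a ∈ I}.Nonempty := by
    obtain ⟨y, hy⟩ := exists_ne (0 : M.M)
    have : ∃ d, M.π d y ≠ 0 := by
      by_contra hc
      push Not at hc
      exact hy (M.eq_zero hc)
    obtain ⟨d, hd⟩ := this
    exact ⟨Ideal.torsionOf A M.M (M.π d y), d, M.π d y, M.π_self d y, hd,
      fun a => (Ideal.mem_torsionOf_iff _ _).symm⟩
  obtain ⟨P, ⟨d, x, hx, hx0, hP⟩, hmax⟩ :=
    set_has_maximal_iff_noetherian.2 (inferInstance : IsNoetherian A A) _ hne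
  refine ⟨d, x, P, hx, ⟨?_, ?_⟩, hP⟩
  · intro ht
    refine hx0 ?_
    rw [← one_smul A x, hP, ht]
    trivial
  · intro a b hab
    by_contra hc
    push Not at hc
    obtain ⟨α, hα, rfl⟩ := Gd.dec 𝒜 a
    obtain ⟨β, hβ, rfl⟩ := Gd.dec 𝒜 b
    have key : ∀ γ : Γ →₀ A, ∑ c ∈ γ.support, γ c ∉ P →
        (γ.support.filter fun c => γ c • x ≠ 0).Nonempty := by
      intro γ hγ
      by_contra hn
      rw [Finset.not_nonempty_iff_eq_empty, Finset.filter_eq_empty_iff] at hn
      refine hγ ((hP _).1 ?_)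
      rw [Finset.sum_smul]
      exact Finset.sum_eq_zero fun c hc => not_not.1 (hn hc)
    obtain ⟨c0, hc0, e0, he0, hu⟩ :=
      UniqueSums.uniqueAdd_of_nonempty (key α hc.1) (key β hc.2)
    rw [Finset.mem_filter] at hc0 he0
    have van : ∀ c ∈ α.support, ∀ e ∈ β.support, ¬ (c = c0 ∧ e = e0) →
        M.π (c0 + e0 + d) ((α c * β e) • x) = 0 := by
      intro c hc e he hn
      by_cases h1 : α c • x = 0
      · rw [mul_comm, mul_smul, h1, smul_zero, map_zero]
      by_cases h2 : β e • x = 0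
      · rw [mul_smul, h2, smul_zero, map_zero]
      refine GM.π_of_ne (GM.hom_smul (cl_mul (hα c) (hβ e)) hx) fun h => hn ?_
      exact hu (Finset.mem_filter.2 ⟨hc, h1⟩) (Finset.mem_filter.2 ⟨he, h2⟩)
        (add_right_cancel h).symm
    have e1 : M.π (c0 + e0 + d) (((∑ c ∈ α.support, α c) * ∑ c ∈ β.support, β c) • x) =
        (α c0 * β e0) • x := by
      rw [Finset.sum_mul_sum, Finset.sum_smul, map_sum, Finset.sum_eq_single_of_mem c0 hc0.1,
        Finset.sum_smul, map_sum, Finset.sum_eq_single_of_mem e0 he0.1]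
      · exact GM.hom_smul (cl_mul (hα c0) (hβ e0)) hx
      · exact fun e he hn => van c0 hc0.1 e he fun h => hn h.2
      · intro c hc hn
        rw [Finset.sum_smul, map_sum]
        exact Finset.sum_eq_zero fun e he => van c hc e he fun h => hn h.1
    rw [(hP _).2 hab, map_zero, mul_smul] at e1
    have hle : P ≤ Ideal.torsionOf A M.M (β e0 • x) := fun r hr => by
      rw [Ideal.mem_torsionOf_iff, smul_comm, (hP r).2 hr, smul_zero]
    have hEq := (hle.lt_or_eq).resolve_left (hmax _ ⟨e0 + d, β e0 • x, GM.hom_smul (hβ e0) hx,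
      he0.2, fun a => (Ideal.mem_torsionOf_iff _ _).symm⟩)
    refine hc0.2 ((hP _).2 ?_)
    rw [hEq, Ideal.mem_torsionOf_iff]
    exact e1.symm

theorem devis {p : GM 𝒜 → Prop} (h0 : ∀ M : GM 𝒜, Subsingleton M.M → p M)
    (h1 : ∀ (C M N : GM 𝒜) (P : Ideal A), Module.Finite A M.M → P.IsPrime → Cyc C P → Ses C M N →
      p N → p M) (M : GM 𝒜) (hM : Module.Finite A M.M) : p M := by
  have main : ∀ L : Submodule A M.M, ∀ (N : GM 𝒜) (f : M.M →ₗ[A] N.M), Surjective f →
      LinearMap.ker f = L → p N := by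
    intro L
    induction L using IsNoetherian.induction with
    | hgt L ih =>
      intro N f hf hk
      rcases subsingleton_or_nontrivial N.M with hN | hN
      · exact h0 N hN
      obtain ⟨d, x, P, hx, hP, ha⟩ := exists_prime_hom N
      have hst : St N (Submodule.span A {x}) := st_span fun y hy => ⟨d, by rw [hy]; exact hx⟩
      refine h1 (N.sub _ hst) N (N.quo _ hst) P (Module.Finite.of_surjective f hf) hP
        (cyc_span N hx ha hst) (ses_sub_quo hst) ?_
      refine ih _ ?_ (N.quo _ hst) ((Submodule.span A {x}).mkQ ∘ₗ f)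
        ((Submodule.mkQ_surjective _).comp hf) rfl
      rw [← hk]
      refine lt_of_le_of_ne (LinearMap.ker_le_ker_comp _ _) fun he => ?_
      obtain ⟨y, hy⟩ := hf x
      have hy' : y ∈ LinearMap.ker ((Submodule.span A {x}).mkQ ∘ₗ f) := by
        rw [LinearMap.mem_ker, LinearMap.comp_apply, hy, Submodule.mkQ_apply,
          Submodule.Quotient.mk_eq_zero]
        exact Submodule.mem_span_singleton_self x
      rw [← he, LinearMap.mem_ker, hy] at hy'
      exact hP.ne_top ((Ideal.eq_top_iff_one P).2 ((ha 1).1 (by rw [hy', smul_zero])))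
  exact main _ M LinearMap.id surjective_id rfl

theorem GAdd.of_primes (hl : GAdd l) (M : GM 𝒜) (hM : Module.Finite A M.M)
    (h : ∀ P : Ideal A, P.IsPrime → Module.annihilator A M.M ≤ P → ZG l P) : l M = 0 := by
  revert h
  refine devis (p := fun M => (∀ P : Ideal A, P.IsPrime → Module.annihilator A M.M ≤ P → ZG l P) →
    l M = 0) (fun M hM _ => hl.zero M) ?_ M hM
  intro C M N P hM hP hC hs ih h
  rw [hl C M N hM hs]
  obtain ⟨f, g, -, -, hf, hg, -⟩ := hs
  rw [h P hP (by rw [← hC.ann]; exact f.annihilator_le_of_injective hf) C hC,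
    ih fun P' hP' ha => h P' hP' ((g.annihilator_le_of_surjective hg).trans ha), add_zero]

theorem GAdd.vn_of_primes (hl : GAdd l) {𝔟 : Ideal A} {S : Set A}
    (h : ∀ P : Ideal A, P.IsPrime → 𝔟 ≤ P → (∀ f ∈ S, f ∈ P) → ZG l P) : VnG 𝔟 S l :=
  fun M hM hk hn => hl.of_primes M hM fun P hP ha =>
    h P hP ((kill_iff.1 hk).trans ha) fun _ hf => hn.mem_prime hP ha hf

end Pool.Agent.CXD
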