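import Pool.Agent.P.MP_2ce3e7_ag.CYT

/-! Base change along an unramified covering. -/

set_option linter.unusedSectionVars false
set_option linter.unusedVariables false

open Function
open scoped TensorProduct

noncomputable section

namespace Pool.Agent.CXD

variable {C D : Type} [CommRing C] [CommRing D]

/-- dual bases for `ι` that are compatible with `φ`, `φ'` -/
structure Et (ι : C →+* D) (φ : C →+* C) (φ' : D →+* D) (s : Type) [Fintype s] (p : D →+ C)
    (y y' : s → D) : Prop where
  com : ∀ c, ι (φ c) = φ' (ι c)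
  lin : ∀ c x, p (ι c * x) = c * p x
  dual : ∀ x, ∑ a, ι (p (x * y' a)) * y a = x
  dual' : ∀ x, ∑ a, ι (p (x * φ' (y' a))) * φ' (y a) = x
  frob : ∀ x, p (φ' x) = φ (p x)

/-- base change -/
def bc (ι : C →+* D) (χ : Val D) : Val C :=
  ⟨fun W _ _ => letI := ι.toAlgebra; χ.val (D ⊗[C] W)⟩

variable {ι : C →+* D} {φ : C →+* C} {φ' : D →+* D} {s : Type} [Fintype s] {p : D →+ C}
  {y y' : s → D} {χ : Val D}

theorem bc_lin (a b : ℚ) (χ χ' : Val D) :
    bc ι (Val.lin a b χ χ') = Val.lin a b (bc ι χ) (bc ι χ') := rfl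

theorem bc_eqv {χ' : Val D} (h : Eqv χ χ') : Eqv (bc ι χ) (bc ι χ') := fun W _ _ _ => by
  letI := ι.toAlgebra
  exact h _

theorem bc_quot (h : IsAdd χ ⊥) (I : Ideal C) : (bc ι χ).val (C ⧸ I) = χ.val (D ⧸ I.map ι) := by
  letI := ι.toAlgebra
  exact h.congr (Algebra.TensorProduct.quotIdealMapEquivTensorQuot D I).symm.toLinearEquiv kill_bot

theorem Et.flat_CWG (h : Et ι φ φ' s p y y') : letI := ι.toAlgebra; Module.Flat C D := by
  letI := ι.toAlgebra
  have hs : ∀ (c : C) (x : D), c • x = ι c * x := fun _ _ => rfl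
  let i : D →ₗ[C] (s → C) :=
    { toFun := fun x a => p (x * y' a)
      map_add' := fun x x' => by
        funext a
        simp only [add_mul, map_add, Pi.add_apply]
      map_smul' := fun c x => by
        funext a
        simp only [hs, mul_assoc, h.lin, RingHom.id_apply, Pi.smul_apply, smul_eq_mul] }
  let r : (s → C) →ₗ[C] D := Fintype.linearCombination C y
  have hri : r.comp i = LinearMap.id := by
    ext x
    simp only [r, i, LinearMap.comp_apply, Fintype.linearCombination_apply, LinearMap.coe_mk,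
      AddHom.coe_mk, hs, LinearMap.id_apply]
    exact h.dual x
  haveI : Module.Projective C D := Module.Projective.of_split i r hri
  infer_instance

theorem Et.isAdd (h : Et ι φ φ' s p y y') (hχ : IsAdd χ ⊥) : IsAdd (bc ι χ) ⊥ := by
  letI := ι.toAlgebra
  haveI : Module.Flat C D := h.flat_CWG
  intro M N P _ _ _ _ _ _ _ f g hf hg he hk
  refine hχ _ _ _ (f.baseChange D) (g.baseChange D) ?_ ?_ ?_ kill_bot
  · rw [LinearMap.baseChange_eq_ltensor]
    exact Module.Flat.lTensor_preserves_injective_linearMap f hf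
  · rw [LinearMap.baseChange_eq_ltensor]
    exact LinearMap.lTensor_surjective _ hg
  · rw [LinearMap.baseChange_eq_ltensor, LinearMap.baseChange_eq_ltensor]
    exact Module.Flat.lTensor_exact _ he

/-- copy of `W` on which `C` acts through `φ` -/
def Cp_CWG (φ : C →+* C) (W : Type) : Type := W

local instance instAdd_CWG (φ : C →+* C) (W : Type) [i : AddCommGroup W] : AddCommGroup (Cp_CWG φ W) := i

local instance instMod_CWG (φ : C →+* C) (W : Type) [AddCommGroup W] [Module C W] :
    Module C (Cp_CWG φ W) := Module.compHom W φ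

/-- the identity -/
def toCp_CWG (φ : C →+* C) (W : Type) [AddCommGroup W] : W ≃+ Cp_CWG φ W := AddEquiv.refl W

theorem smul_CWG (φ : C →+* C) {W : Type} [AddCommGroup W] [Module C W] (c : C) (w : W) :
    c • toCp_CWG φ W w = toCp_CWG φ W (φ c • w) := rfl

theorem Et.iso_CWG [Algebra C D] (h : Et (algebraMap C D) φ φ' s p y y') (W : Type)
    [AddCommGroup W] [Module C W] :
    ∃ u : D ⊗[C] Cp_CWG φ W ≃+ D ⊗[C] W, ∀ (e : D) z, u (e • z) = φ' e • u z := by
  have hs : ∀ (c : C) (x : D), c • x = algebraMap C D c * x := fun c x => Algebra.smul_def c x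
  obtain ⟨u, hu⟩ : ∃ u : D ⊗[C] Cp_CWG φ W →+ D ⊗[C] W,
      ∀ d w, u (d ⊗ₜ toCp_CWG φ W w) = φ' d ⊗ₜ w := by
    refine ⟨TensorProduct.liftAddHom (AddMonoidHom.mk' (fun d => AddMonoidHom.mk'
      (fun w => φ' d ⊗ₜ (toCp_CWG φ W).symm w) fun w w' => ?_) fun d d' => ?_)
      fun c d w => ?_, fun d w => rfl⟩
    · rw [map_add, TensorProduct.tmul_add]
    · ext w
      simp only [AddMonoidHom.mk'_apply, map_add, TensorProduct.add_tmul, AddMonoidHom.add_apply]
    · obtain ⟨w, rfl⟩ := (toCp_CWG φ W).surjective w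
      simp only [AddMonoidHom.mk'_apply, smul_CWG, AddEquiv.symm_apply_apply]
      rw [hs, map_mul, ← h.com, ← hs, TensorProduct.smul_tmul]
  obtain ⟨v, hv⟩ : ∃ v : D ⊗[C] W →+ D ⊗[C] Cp_CWG φ W,
      ∀ d w, v (d ⊗ₜ w) = ∑ a, y a ⊗ₜ toCp_CWG φ W (p (d * φ' (y' a)) • w) := by
    refine ⟨TensorProduct.liftAddHom (AddMonoidHom.mk' (fun d => AddMonoidHom.mk'
      (fun w => ∑ a, y a ⊗ₜ toCp_CWG φ W (p (d * φ' (y' a)) • w)) fun w w' => ?_) fun d d' => ?_)
      fun c d w => ?_, fun d w => rfl⟩
    · simp only [smul_add, map_add, TensorProduct.tmul_add, Finset.sum_add_distrib]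
    · ext w
      simp only [AddMonoidHom.mk'_apply, add_mul, map_add, add_smul, TensorProduct.tmul_add,
        Finset.sum_add_distrib, AddMonoidHom.add_apply]
    · simp only [AddMonoidHom.mk'_apply]
      refine Finset.sum_congr rfl fun a _ => ?_
      rw [hs, mul_assoc, h.lin, mul_comm c, mul_smul]
  have huv : ∀ z, u (v z) = z := by
    intro z
    induction z using TensorProduct.induction_on with
    | zero => rw [map_zero, map_zero]
    | add a b ha hb => rw [map_add, map_add, ha, hb]
    | tmul d w =>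
      rw [hv, map_sum]
      conv_rhs => rw [← h.dual' d, TensorProduct.sum_tmul]
      refine Finset.sum_congr rfl fun a _ => ?_
      rw [hu, ← hs, TensorProduct.smul_tmul]
  have hvu : ∀ z, v (u z) = z := by
    intro z
    induction z using TensorProduct.induction_on with
    | zero => rw [map_zero, map_zero]
    | add a b ha hb => rw [map_add, map_add, ha, hb]
    | tmul d w =>
      obtain ⟨w, rfl⟩ := (toCp_CWG φ W).surjective w
      rw [hu, hv]
      conv_rhs => rw [← h.dual d, TensorProduct.sum_tmul]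
      refine Finset.sum_congr rfl fun a _ => ?_
      rw [← map_mul, h.frob, ← smul_CWG, ← hs, TensorProduct.smul_tmul]
  refine ⟨{ u with invFun := v, left_inv := hvu, right_inv := huv }, fun e z => ?_⟩
  change u (e • z) = φ' e • u z
  induction z using TensorProduct.induction_on with
  | zero => rw [smul_zero, map_zero, smul_zero]
  | add a b ha hb => rw [smul_add, map_add, ha, hb, map_add, smul_add]
  | tmul d w =>
    obtain ⟨w, rfl⟩ := (toCp_CWG φ W).surjective w
    rw [TensorProduct.smul_tmul', hu, hu, TensorProduct.smul_tmul', smul_eq_mul, smul_eq_mul,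
      map_mul]

theorem Et.push (h : Et ι φ φ' s p y y') (hχ : IsAdd χ ⊥) (hφ : φ.Finite) :
    Eqv (bc ι (push φ' χ)) (push φ (bc ι χ)) := by
  intro W _ _ _
  letI := ι.toAlgebra
  obtain ⟨u, hu⟩ := Et.iso_CWG (C := C) (D := D) h W
  haveI : Module.Finite C (Cp_CWG φ W) := finite_compHom φ hφ W
  have h1 : @Val.val D _ χ (D ⊗[C] W) _ (Module.compHom _ φ') = χ.val (D ⊗[C] Cp_CWG φ W) := by
    have key : ∀ {X Y : Type} [AddCommGroup X] [AddCommGroup Y] (mX : Module D X) [Module D Y]
        [Module.Finite D Y] (f : Y ≃+ X)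
        (hf : ∀ (a : D) (y : Y), f (a • y) = (letI := mX; a • f y)),
        @Val.val D _ χ X _ mX = χ.val Y := by
      intro X Y _ _ mX _ _ f hf
      letI := mX
      exact hχ.congr (LinearEquiv.symm { f with map_smul' := hf }) kill_bot
    exact key _ u hu
  exact h1

end Pool.Agent.CXD
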