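import Pool.Agent.P.MP_2ce3e7_ag.CWA3

/-! Tensor products of graded modules. -/

set_option linter.unusedSectionVars false
set_option linter.unusedVariables false

open Function
open scoped TensorProduct

noncomputable section

namespace Pool.Agent.CXD

variable {A A' Γ Γ' : Type} [CommRing A] [CommRing A'] [AddCommGroup Γ] [AddCommGroup Γ']
  {𝒜 : Γ → Set A} {𝒜' : Γ' → Set A'}

/-- a module over two rings -/
def Rr (ι : A →+* A') (M : Type) : Type := M

section
variable (ι : A →+* A') (M : Type) [AddCommGroup M] [Module A' M]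

local instance : AddCommGroup (Rr ι M) := inferInstanceAs (AddCommGroup M)

local instance Rr.big : Module A' (Rr ι M) := inferInstanceAs (Module A' M)

local instance Rr.small : Module A (Rr ι M) := Module.compHom M ι

local instance : SMulCommClass A A' (Rr ι M) := ⟨fun a b (x : M) => smul_comm (ι a) b x⟩

end

attribute [local instance] instAddCommGroupRr Rr.big Rr.small instSMulCommClassRr

variable {ι : A →+* A'} {δ : Γ →+ Γ'} [Gd 𝒜]

/-- pure tensors, before the grading -/
def tm_CWI (ι : A →+* A') (V : GM 𝒜) (Y : GM 𝒜') : Y.M →+ V.M →+ Rr ι Y.M ⊗[A] V.M :=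
  show Rr ι Y.M →+ V.M →+ Rr ι Y.M ⊗[A] V.M from
    LinearMap.toAddMonoidHom'.comp (TensorProduct.mk A (Rr ι Y.M) V.M).toAddMonoidHom

theorem tm_bal_CWI (V : GM 𝒜) (Y : GM 𝒜') (a : A) (y : Y.M) (v : V.M) :
    tm_CWI ι V Y (ι a • y) v = tm_CWI ι V Y y (a • v) :=
  TensorProduct.smul_tmul (R := A) (M := Rr ι Y.M) a y v

theorem tm_smul_CWI (V : GM 𝒜) (Y : GM 𝒜') (a : A') (y : Y.M) (v : V.M) :
    a • tm_CWI ι V Y y v = tm_CWI ι V Y (a • y) v := rfl

theorem tm_ind_CWI (V : GM 𝒜) (Y : GM 𝒜') {p : Rr ι Y.M ⊗[A] V.M → Prop} (h0 : p 0)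
    (h1 : ∀ γ y c v, Y.π γ y = y → V.π c v = v → p (tm_CWI ι V Y y v))
    (h2 : ∀ x x', p x → p x' → p (x + x')) (x : Rr ι Y.M ⊗[A] V.M) : p x := by
  induction x using TensorProduct.induction_on with
  | zero => exact h0
  | add x x' hx hx' => exact h2 x x' hx hx'
  | tmul y v =>
    have key : ∀ (y : Y.M) (v : V.M), p (tm_CWI ι V Y y v) := by
      intro y v
      induction y using Y.ind with
      | h0 => rw [map_zero, AddMonoidHom.zero_apply]; exact h0
      | h2 y y' hy hy' => rw [map_add, AddMonoidHom.add_apply]; exact h2 _ _ hy hy'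
      | h1 γ y hy =>
        induction v using V.ind with
        | h0 => rw [map_zero]; exact h0
        | h2 v v' hv hv' => rw [map_add]; exact h2 _ _ hv hv'
        | h1 c v hv => exact h1 γ y c v hy hv
    exact key y v

theorem exists_pi_CWI (h : Hm ι 𝒜 𝒜' δ) (V : GM 𝒜) (Y : GM 𝒜') (γ : Γ') :
    ∃ p : Rr ι Y.M ⊗[A] V.M →+ Rr ι Y.M ⊗[A] V.M, ∀ (y : Y.M) (c : Γ) (v : V.M), V.π c v = v →
      p (tm_CWI ι V Y y v) = tm_CWI ι V Y (Y.π (γ - δ c) y) v := by
  let G : Y.M →+ V.M →+ Rr ι Y.M ⊗[A] V.M := AddMonoidHom.mk'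
    (fun y => V.glue fun c => tm_CWI ι V Y (Y.π (γ - δ c) y)) (by
      intro y y'
      refine V.hom_ext fun c v hv => ?_
      rw [AddMonoidHom.add_apply, V.glue_hom _ hv, V.glue_hom _ hv, V.glue_hom _ hv, map_add,
        map_add, AddMonoidHom.add_apply])
  have hG : ∀ (y : Y.M) (c : Γ) (v : V.M), V.π c v = v →
      G y v = tm_CWI ι V Y (Y.π (γ - δ c) y) v := fun y c v hv => V.glue_hom _ hv
  have bal : ∀ (a : A) (y : Y.M) (v : V.M), G (ι a • y) v = G y (a • v) := by
    intro a y v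
    induction a using Gd.ind 𝒜 with
    | h0 => rw [map_zero, zero_smul, zero_smul, map_zero, map_zero, AddMonoidHom.zero_apply]
    | h2 a b ha hb =>
      rw [map_add, add_smul, add_smul, map_add, map_add, AddMonoidHom.add_apply, ha, hb]
    | h3 a ha => rw [map_neg, neg_smul, neg_smul, map_neg, map_neg, AddMonoidHom.neg_apply, ha]
    | h1 c' a ha =>
      induction v using V.ind with
      | h0 => rw [smul_zero, map_zero, map_zero]
      | h2 v v' hv hv' => rw [smul_add, map_add, map_add, hv, hv']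
      | h1 c v hv =>
        rw [hG _ c v hv, hG _ (c' + c) _ (GM.hom_smul (mem_cl ha) hv), ← tm_bal_CWI,
          ← Y.π_cl (h.mem c' a ha),
          show δ c' + (γ - δ (c' + c)) = γ - δ c by rw [map_add]; abel]
  exact ⟨TensorProduct.liftAddHom (R := A) (M := Rr ι Y.M) G bal, fun y c v hv => hG y c v hv⟩

theorem exists_tens_π (h : Hm ι 𝒜 𝒜' δ) (V : GM 𝒜) (Y : GM 𝒜') (γ : Γ') :
    ∃ p : Rr ι Y.M ⊗[A] V.M →+ Rr ι Y.M ⊗[A] V.M, ∀ (y : Y.M) (c : Γ) (v : V.M), V.π c v = v →
      p ((show Rr ι Y.M from y) ⊗ₜ v) = (show Rr ι Y.M from Y.π (γ - δ c) y) ⊗ₜ v := by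
  exact exists_pi_CWI h V Y γ

theorem spec_CWI (h : Hm ι 𝒜 𝒜' δ) (V : GM 𝒜) (Y : GM 𝒜') (γ : Γ') (y : Y.M) {c : Γ} {v : V.M}
    (hv : V.π c v = v) : (exists_tens_π h V Y γ).choose (tm_CWI ι V Y y v) =
      tm_CWI ι V Y (Y.π (γ - δ c) y) v :=
  (exists_tens_π h V Y γ).choose_spec y c v hv

/-- the tensor product over `A` -/
def tens (h : Hm ι 𝒜 𝒜' δ) (V : GM 𝒜) (Y : GM 𝒜') : GM 𝒜' where
  M := Rr ι Y.M ⊗[A] V.M
  π γ := (exists_tens_π h V Y γ).choose
  π_self := by
    intro d x
    induction x using tm_ind_CWI V Y with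
    | h0 => rw [map_zero, map_zero]
    | h2 x x' hx hx' => rw [map_add, map_add, hx, hx']
    | h1 γ y c v hy hv => rw [spec_CWI h V Y d y hv, spec_CWI h V Y d _ hv, Y.π_self]
  π_ne := by
    intro d e x hde
    induction x using tm_ind_CWI V Y with
    | h0 => rw [map_zero, map_zero]
    | h2 x x' hx hx' => rw [map_add, map_add, hx, hx', add_zero]
    | h1 γ y c v hy hv =>
      rw [spec_CWI h V Y e y hv, spec_CWI h V Y d _ hv,
        Y.π_ne _ _ _ fun hh => hde (sub_left_injective hh), map_zero, AddMonoidHom.zero_apply]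
  sum_π := by
    classical
    intro x
    suffices hs : ∃ s : Finset Γ', ∑ d ∈ s, (exists_tens_π h V Y d).choose x = x ∧
        ∀ d, d ∉ s → (exists_tens_π h V Y d).choose x = 0 from hs.imp fun s hs => hs.1
    induction x using tm_ind_CWI V Y with
    | h0 => exact ⟨∅, Finset.sum_empty, fun d _ => map_zero _⟩
    | h2 x x' hx hx' =>
      obtain ⟨s, hs, hs'⟩ := hx
      obtain ⟨t, ht, ht'⟩ := hx'
      refine ⟨s ∪ t, ?_, fun d hd => ?_⟩
      · simp only [map_add]
        rw [Finset.sum_add_distrib,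
          ← Finset.sum_subset Finset.subset_union_left fun d _ hd => hs' d hd,
          ← Finset.sum_subset Finset.subset_union_right fun d _ hd => ht' d hd, hs, ht]
      · rw [Finset.mem_union, not_or] at hd
        rw [map_add, hs' d hd.1, ht' d hd.2, add_zero]
    | h1 γ y c v hy hv =>
      refine ⟨{γ + δ c}, ?_, fun d hd => ?_⟩
      · rw [Finset.sum_singleton, spec_CWI h V Y _ y hv, add_sub_cancel_right, hy]
      · rw [Finset.mem_singleton] at hd
        rw [spec_CWI h V Y _ y hv, GM.π_of_ne hy fun hh => hd (by rw [← hh, sub_add_cancel]),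
          map_zero, AddMonoidHom.zero_apply]
  π_smul := by
    intro c d a ha x
    induction x using tm_ind_CWI V Y with
    | h0 => rw [smul_zero, map_zero, map_zero, smul_zero]
    | h2 x x' hx hx' => rw [smul_add, map_add, map_add, hx, hx', smul_add]
    | h1 γ y c' v hy hv =>
      rw [tm_smul_CWI, spec_CWI h V Y _ _ hv, spec_CWI h V Y _ _ hv, tm_smul_CWI, add_sub_assoc,
        Y.π_smul c _ a ha]

variable (h : Hm ι 𝒜 𝒜' δ) (V : GM 𝒜) (Y : GM 𝒜')

/-- pure tensors -/
def tt : Y.M →+ V.M →+ (tens h V Y).M :=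
  show Rr ι Y.M →+ V.M →+ Rr ι Y.M ⊗[A] V.M from
    LinearMap.toAddMonoidHom'.comp (TensorProduct.mk A (Rr ι Y.M) V.M).toAddMonoidHom

variable {h V Y}

theorem tt_smul (a : A') (y : Y.M) (v : V.M) : a • tt h V Y y v = tt h V Y (a • y) v := rfl

theorem tt_bal (a : A) (y : Y.M) (v : V.M) : tt h V Y (ι a • y) v = tt h V Y y (a • v) :=
  TensorProduct.smul_tmul (R := A) (M := Rr ι Y.M) a y v

theorem tens_π (γ : Γ') (y : Y.M) {c : Γ} {v : V.M} (hv : V.π c v = v) :
    (tens h V Y).π γ (tt h V Y y v) = tt h V Y (Y.π (γ - δ c) y) v :=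
  (exists_tens_π h V Y γ).choose_spec y c v hv

theorem tens_ind {p : (tens h V Y).M → Prop} (h0 : p 0)
    (h1 : ∀ γ y c v, Y.π γ y = y → V.π c v = v → p (tt h V Y y v))
    (h2 : ∀ x x', p x → p x' → p (x + x')) (x : (tens h V Y).M) : p x := by
  exact tm_ind_CWI V Y h0 h1 h2 x

theorem tens_lift {X : Type} [AddCommGroup X] (F : Y.M →+ V.M →+ X)
    (hF : ∀ a y v, F (ι a • y) v = F y (a • v)) :
    ∃ g : (tens h V Y).M →+ X, ∀ y v, g (tt h V Y y v) = F y v :=
  ⟨TensorProduct.liftAddHom (R := A) (M := Rr ι Y.M) F hF, fun _ _ => rfl⟩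

theorem tens_finite (hV : Module.Finite A V.M) (hY : Module.Finite A' Y.M) :
    Module.Finite A' (tens h V Y).M := by
  classical
  obtain ⟨s, hs⟩ := hV.fg_top
  obtain ⟨t, ht⟩ := hY.fg_top
  refine ⟨⟨(t ×ˢ s).image fun q => tt h V Y q.1 q.2, ?_⟩⟩
  rw [eq_top_iff]
  rintro x -
  set L := Submodule.span A' (((t ×ˢ s).image fun q => tt h V Y q.1 q.2 : Finset _) :
    Set (tens h V Y).M) with hL
  have key : ∀ (v : V.M) (y : Y.M), tt h V Y y v ∈ L := by
    intro v
    have hv : v ∈ Submodule.span A (s : Set V.M) := by rw [hs]; trivial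
    induction hv using Submodule.span_induction with
    | zero => intro y; rw [map_zero]; exact L.zero_mem
    | add v v' _ _ h1 h2 => intro y; rw [map_add]; exact L.add_mem (h1 y) (h2 y)
    | smul a v _ h1 => intro y; rw [← tt_bal]; exact h1 _
    | mem v hv =>
      intro y
      have hy : y ∈ Submodule.span A' (t : Set Y.M) := by rw [ht]; trivial
      induction hy using Submodule.span_induction with
      | zero => rw [map_zero, AddMonoidHom.zero_apply]; exact L.zero_mem
      | add y y' _ _ h1 h2 => rw [map_add, AddMonoidHom.add_apply]; exact L.add_mem h1 h2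
      | smul a y _ h1 => rw [← tt_smul]; exact L.smul_mem a h1
      | mem y hy =>
        refine Submodule.subset_span ?_
        rw [Finset.mem_coe, Finset.mem_image]
        exact ⟨(y, v), Finset.mem_product.2 ⟨hy, hv⟩, rfl⟩
  induction x using tens_ind with
  | h0 => exact L.zero_mem
  | h1 γ y c v _ _ => exact key v y
  | h2 x x' hx hx' => exact L.add_mem hx hx'

theorem tens_nil {S : Set A'} (hS : Nil S Y.M) : Nil S (tens h V Y).M := by
  intro f hf x
  induction x using tens_ind with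
  | h0 => exact ⟨0, smul_zero _⟩
  | h1 γ y c v _ _ =>
    obtain ⟨m, hm⟩ := hS f hf y
    exact ⟨m, by rw [tt_smul, hm, map_zero, AddMonoidHom.zero_apply]⟩
  | h2 x x' hx hx' =>
    obtain ⟨m, hm⟩ := hx
    obtain ⟨m', hm'⟩ := hx'
    refine ⟨m + m', ?_⟩
    rw [smul_add, pow_add, mul_smul, mul_smul, hm', smul_zero, add_zero, smul_comm, hm, smul_zero]

end Pool.Agent.CXD
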