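import Pool.Agent.P.MP_2ce3e7_ag.CWA3
import Pool.Agent.P.MP_2ce3e7_ag.CWG2

attribute [local instance] Pool.Agent.CXD.instAddCommGroupRs Pool.Agent.CXD.instModuleRs
  Pool.Agent.CXD.instModuleRs_1 Pool.Agent.CXD.instIsScalarTowerRs
  Pool.Agent.CXD.instSMulCommClassRs Pool.Agent.CXD.instAddCommGroupBox
  Pool.Agent.CXD.instModuleTensorProductBox Pool.Agent.CXD.finite_box

/-! Exterior products of graded modules. -/

set_option linter.unusedSectionVars false
set_option linter.unusedVariables false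

open Function
open scoped TensorProduct

noncomputable section

namespace Pool.Agent.CXD

/-- constants have degree zero -/
class Gk (k : Type) {A Γ : Type} [Field k] [CommRing A] [Algebra k A] [AddCommGroup Γ]
    (𝒜 : Γ → Set A) : Prop where
  alg : ∀ c : k, algebraMap k A c ∈ 𝒜 0

/-- the trivial grading -/
def tv (K : Type) : Unit → Set K := fun _ => Set.univ

instance (K : Type) [CommRing K] : Gd (tv K) where
  one := trivial
  mul _ _ _ _ _ _ := trivial
  gen := eq_top_iff.2 fun a _ => AddSubgroup.subset_closure (Set.mem_iUnion.2 ⟨(), trivial⟩)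

theorem mem_tv {K : Type} [CommRing K] (c : Unit) (a : K) : a ∈ cl (tv K) c := mem_cl trivial

variable (k : Type) {K B Γ₁ Γ₂ : Type} [Field k] [CommRing K] [Algebra k K] [CommRing B]
  [Algebra k B] [AddCommGroup Γ₁] [AddCommGroup Γ₂] (𝒜 : Γ₁ → Set K) (ℬ : Γ₂ → Set B)

instance : Gk k (tv K) := ⟨fun _ => trivial⟩

/-- the grading of a tensor product -/
def tg (γ : Γ₁ × Γ₂) : Set (K ⊗[k] B) := {x | ∃ a ∈ 𝒜 γ.1, ∃ b ∈ ℬ γ.2, x = a ⊗ₜ b}

/-- the inclusion of the first factor -/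
abbrev inl (k K B : Type) [Field k] [CommRing K] [Algebra k K] [CommRing B] [Algebra k B] :
    K →+* K ⊗[k] B := (Algebra.TensorProduct.includeLeft : K →ₐ[k] K ⊗[k] B).toRingHom

/-- multiplication of the second degree -/
def mu (Γ₁ Γ₂ : Type) [AddCommGroup Γ₁] [AddCommGroup Γ₂] (Q : ℕ) : Γ₁ × Γ₂ →+ Γ₁ × Γ₂ :=
  (AddMonoidHom.fst Γ₁ Γ₂).prod (Q • AddMonoidHom.snd Γ₁ Γ₂)

theorem mu_apply (Q : ℕ) (γ : Γ₁ × Γ₂) : mu Γ₁ Γ₂ Q γ = (γ.1, Q • γ.2) := rfl

variable {k 𝒜 ℬ}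

theorem tmul_mem_cl {c : Γ₁} {d : Γ₂} {a : K} {b : B} (ha : a ∈ cl 𝒜 c) (hb : b ∈ cl ℬ d) :
    a ⊗ₜ[k] b ∈ cl (tg k 𝒜 ℬ) (c, d) := by
  induction ha using AddSubgroup.closure_induction with
  | mem a ha =>
    induction hb using AddSubgroup.closure_induction with
    | mem b hb => exact mem_cl ⟨a, ha, b, hb, rfl⟩
    | zero => rw [TensorProduct.tmul_zero]; exact zero_mem _
    | add b b' _ _ h1 h2 => rw [TensorProduct.tmul_add]; exact add_mem h1 h2
    | neg b _ h1 => rw [TensorProduct.tmul_neg]; exact neg_mem h1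
  | zero => rw [TensorProduct.zero_tmul]; exact zero_mem _
  | add a a' _ _ h1 h2 => rw [TensorProduct.add_tmul]; exact add_mem h1 h2
  | neg a _ h1 => rw [TensorProduct.neg_tmul]; exact neg_mem h1

variable [Gd 𝒜] [Gd ℬ]

instance tg_gd : Gd (tg k 𝒜 ℬ) := by
  refine ⟨⟨1, Gd.one, 1, Gd.one, rfl⟩, ?_, eq_top_iff.2 fun z _ => ?_⟩
  · rintro c d _ ⟨a, ha, b, hb, rfl⟩ _ ⟨a', ha', b', hb', rfl⟩
    exact ⟨a * a', Gd.mul _ _ _ ha _ ha', b * b', Gd.mul _ _ _ hb _ hb',
      Algebra.TensorProduct.tmul_mul_tmul _ _ _ _⟩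
  · induction z using TensorProduct.induction_on with
    | zero => exact zero_mem _
    | add u v h1 h2 => exact add_mem (h1 trivial) (h2 trivial)
    | tmul a b =>
      refine Gd.ind 𝒜 (p := fun a => a ⊗ₜ[k] b ∈ AddSubgroup.closure (⋃ c, tg k 𝒜 ℬ c)) ?_
        (fun c a ha => ?_) (fun a a' h1 h2 => ?_) (fun a h1 => ?_) a
      · rw [TensorProduct.zero_tmul]; exact zero_mem _
      · refine Gd.ind ℬ (p := fun b => a ⊗ₜ[k] b ∈ AddSubgroup.closure (⋃ c, tg k 𝒜 ℬ c)) ?_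
          (fun d b hb => ?_) (fun b b' h1 h2 => ?_) (fun b h1 => ?_) b
        · rw [TensorProduct.tmul_zero]; exact zero_mem _
        · exact AddSubgroup.subset_closure (Set.mem_iUnion.2 ⟨(c, d), a, ha, b, hb, rfl⟩)
        · rw [TensorProduct.tmul_add]; exact add_mem h1 h2
        · rw [TensorProduct.tmul_neg]; exact neg_mem h1
      · rw [TensorProduct.add_tmul]; exact add_mem h1 h2
      · rw [TensorProduct.neg_tmul]; exact neg_mem h1

theorem hm_inl : Hm (inl k K B) 𝒜 (tg k 𝒜 ℬ) (AddMonoidHom.inl Γ₁ Γ₂) := by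
  exact ⟨fun _ _ h => congrArg Prod.fst h, fun c a ha => mem_cl ⟨a, ha, 1, Gd.one, rfl⟩⟩

theorem hm_inr : Hm (inr k K B) ℬ (tg k 𝒜 ℬ) (AddMonoidHom.inr Γ₁ Γ₂) := by
  exact ⟨fun _ _ h => congrArg Prod.snd h, fun c b hb => mem_cl ⟨1, Gd.one, b, hb, rfl⟩⟩

theorem inj_smul_CWJ {Q : ℕ} (h : ∀ d : Γ₂, Q • d = 0 → d = 0) {d e : Γ₂} (hde : Q • d = Q • e) :
    d = e :=
  sub_eq_zero.1 (h _ (by rw [smul_sub, hde, sub_self]))

theorem hm_Fr [Fintype k] (h : ∀ d : Γ₂, Fintype.card k • d = 0 → d = 0) :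
    Hm (Fr k K B) (tg k 𝒜 ℬ) (tg k 𝒜 ℬ) (mu Γ₁ Γ₂ (Fintype.card k)) := by
  refine ⟨fun γ δ hh => ?_, ?_⟩
  · rw [mu_apply, mu_apply, Prod.mk.injEq] at hh
    exact Prod.ext hh.1 (inj_smul_CWJ h hh.2)
  · rintro γ _ ⟨a, ha, b, hb, rfl⟩
    exact tmul_mem_cl (k := k) (mem_cl ha) (cl_pow (mem_cl hb) (Fintype.card k))

theorem hm_frb [Fintype k] (h : ∀ d : Γ₂, Fintype.card k • d = 0 → d = 0) :
    Hm (frb k B) ℬ ℬ (Fintype.card k • AddMonoidHom.id Γ₂) := by
  exact ⟨fun d e hh => inj_smul_CWJ h hh, fun c b hb => cl_pow (mem_cl hb) (Fintype.card k)⟩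

/-- the projections are linear over the field of constants -/
def piLin_CWJ [Gk k 𝒜] (N : GM 𝒜) (c : Γ₁) : Rs k K N.M →ₗ[k] Rs k K N.M where
  toFun x := N.π c x
  map_add' x y := (N.π c).map_add x y
  map_smul' t x := by
    have h := N.π_smul 0 c _ (Gk.alg (k := k) (𝒜 := 𝒜) t) x
    rw [zero_add] at h
    exact h

variable [Gk k 𝒜] [Gk k ℬ]

theorem exists_box_π (N : GM 𝒜) (M : GM ℬ) (γ : Γ₁ × Γ₂) :
    ∃ p : Box k K B N.M M.M →+ Box k K B N.M M.M,
      ∀ x y, p (bt k K B x y) = bt k K B (N.π γ.1 x) (M.π γ.2 y) := by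
  exact ⟨(TensorProduct.map (piLin_CWJ (k := k) N γ.1) (piLin_CWJ (k := k) M γ.2)).toAddMonoidHom,
    fun _ _ => rfl⟩

theorem bt_sum_CWJ {N M ι κ : Type} [AddCommGroup N] [Module K N] [AddCommGroup M] [Module B M]
    (s : Finset ι) (t : Finset κ) (f : ι → N) (g : κ → M) :
    ∑ p ∈ s ×ˢ t, bt k K B (f p.1) (g p.2) = bt k K B (∑ i ∈ s, f i) (∑ j ∈ t, g j) := by
  rw [Finset.sum_product]
  refine Eq.trans ?_ (TensorProduct.sum_tmul (R := k) (M := Rs k K N) (N := Rs k B M) s f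
    (∑ j ∈ t, g j)).symm
  exact Finset.sum_congr rfl fun i _ =>
    (TensorProduct.tmul_sum (R := k) (M := Rs k K N) (N := Rs k B M) (f i) t g).symm

theorem box_sum_CWJ (N : GM 𝒜) (M : GM ℬ)
    (P : Γ₁ × Γ₂ → Box k K B N.M M.M →+ Box k K B N.M M.M)
    (hP : ∀ γ x y, P γ (bt k K B x y) = bt k K B (N.π γ.1 x) (M.π γ.2 y))
    (z : Box k K B N.M M.M) : ∃ s : Finset (Γ₁ × Γ₂), ∀ t : Finset (Γ₁ × Γ₂), s ⊆ t →
      ∑ d ∈ t, P d z = z := by
  classical
  refine Box.induction (p := fun z => ∃ s : Finset (Γ₁ × Γ₂), ∀ t : Finset (Γ₁ × Γ₂), s ⊆ t →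
      ∑ d ∈ t, P d z = z) z ⟨∅, fun t _ => by simp⟩ (fun x y => ?_) ?_
  · refine ⟨(N.fin_supp x).toFinset ×ˢ (M.fin_supp y).toFinset, fun t ht => ?_⟩
    rw [← Finset.sum_subset ht]
    · simp only [hP]
      rw [bt_sum_CWJ _ _ (fun c => N.π c x) (fun d => M.π d y),
        N.sum_of_supp x _ fun d hd => (Set.Finite.mem_toFinset _).2 hd,
        M.sum_of_supp y _ fun d hd => (Set.Finite.mem_toFinset _).2 hd]
    · intro γ _ hγ
      rw [hP]
      by_cases h1 : N.π γ.1 x = 0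
      · rw [h1, bt_zero_left_CYC]
      · by_cases h2 : M.π γ.2 y = 0
        · rw [h2, bt_zero_right_CYC]
        · exact absurd (Finset.mem_product.2
            ⟨(Set.Finite.mem_toFinset _).2 h1, (Set.Finite.mem_toFinset _).2 h2⟩) hγ
  · rintro u v ⟨s, hs⟩ ⟨s', hs'⟩
    refine ⟨s ∪ s', fun t ht => ?_⟩
    simp only [map_add, Finset.sum_add_distrib]
    rw [hs t (Finset.subset_union_left.trans ht), hs' t (Finset.subset_union_right.trans ht)]

variable (k) in
/-- the exterior product -/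
def gbox (N : GM 𝒜) (M : GM ℬ) : GM (tg k 𝒜 ℬ) where
  M := Box k K B N.M M.M
  π γ := (exists_box_π N M γ).choose
  π_self := by
    intro γ z
    have hP := (exists_box_π (k := k) N M γ).choose_spec
    generalize (exists_box_π (k := k) N M γ).choose = P at hP ⊢
    refine Box.induction (p := fun z => P (P z) = P z) z (by simp only [map_zero])
      (fun x y => ?_) fun u v h1 h2 => ?_
    · rw [hP, hP, N.π_self, M.π_self]
    · rw [map_add, map_add, h1, h2]
  π_ne := by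
    intro γ δ z hne
    have hP := (exists_box_π (k := k) N M γ).choose_spec
    have hQ := (exists_box_π (k := k) N M δ).choose_spec
    generalize (exists_box_π (k := k) N M γ).choose = P at hP ⊢
    generalize (exists_box_π (k := k) N M δ).choose = Q at hQ ⊢
    refine Box.induction (p := fun z => P (Q z) = 0) z (by simp only [map_zero])
      (fun x y => ?_) fun u v h1 h2 => ?_
    · rw [hQ, hP]
      by_cases h1 : γ.1 = δ.1
      · rw [M.π_ne _ _ y fun h2 => hne (Prod.ext h1 h2), bt_zero_right_CYC]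
      · rw [N.π_ne _ _ x h1, bt_zero_left_CYC]
    · rw [map_add, map_add, h1, h2, add_zero]
  sum_π := by
    intro z
    obtain ⟨s, hs⟩ := box_sum_CWJ N M (fun γ => (exists_box_π (k := k) N M γ).choose)
      (fun γ => (exists_box_π (k := k) N M γ).choose_spec) z
    exact ⟨s, hs s (Finset.Subset.refl s)⟩
  π_smul := by
    rintro γ δ _ ⟨a, ha, b, hb, rfl⟩ z
    have hP := (exists_box_π (k := k) N M (γ + δ)).choose_spec
    have hQ := (exists_box_π (k := k) N M δ).choose_spec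
    generalize (exists_box_π (k := k) N M (γ + δ)).choose = P at hP ⊢
    generalize (exists_box_π (k := k) N M δ).choose = Q at hQ ⊢
    refine Box.induction (p := fun z => P ((a ⊗ₜ[k] b) • z) = (a ⊗ₜ[k] b) • Q z) z
      (by simp only [smul_zero, map_zero]) (fun x y => ?_) fun u v h1 h2 => ?_
    · rw [smul_bt, hP, hQ, smul_bt, Prod.fst_add, Prod.snd_add, N.π_smul _ _ a ha,
        M.π_smul _ _ b hb]
    · rw [smul_add, map_add, map_add, smul_add, h1, h2]

variable (k) in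
/-- pure tensors -/
def gb (N : GM 𝒜) (M : GM ℬ) : N.M →+ M.M →+ (gbox k N M).M :=
  show Rs k K N.M →+ Rs k B M.M →+ Rs k K N.M ⊗[k] Rs k B M.M from
    LinearMap.toAddMonoidHom'.comp (TensorProduct.mk k (Rs k K N.M) (Rs k B M.M)).toAddMonoidHom

variable {N : GM 𝒜} {M : GM ℬ}

theorem gb_eq (x : N.M) (y : M.M) : gb k N M x y = bt k K B x y := rfl

theorem smul_gb (a : K) (b : B) (x : N.M) (y : M.M) :
    (a ⊗ₜ[k] b) • gb k N M x y = gb k N M (a • x) (b • y) := rfl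

theorem gbox_π (γ : Γ₁ × Γ₂) (x : N.M) (y : M.M) :
    (gbox k N M).π γ (gb k N M x y) = gb k N M (N.π γ.1 x) (M.π γ.2 y) :=
  (exists_box_π N M γ).choose_spec x y

theorem gbox_ind {p : (gbox k N M).M → Prop} (h0 : p 0)
    (h1 : ∀ c x d y, N.π c x = x → M.π d y = y → p (gb k N M x y))
    (h2 : ∀ u v, p u → p v → p (u + v)) (u : (gbox k N M).M) : p u := by
  refine Box.induction (k := k) (K := K) (B := B) (N := N.M) (M := M.M) (p := p) u h0
    (fun x y => ?_) h2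
  change p (gb k N M x y)
  refine N.ind (p := fun x => p (gb k N M x y)) ?_ (fun c x hx => ?_) (fun x x' a1 a2 => ?_) x
  · rw [map_zero, AddMonoidHom.zero_apply]; exact h0
  · refine M.ind (p := fun y => p (gb k N M x y)) ?_ (fun d y hy => h1 c x d y hx hy)
      (fun y y' a1 a2 => ?_) y
    · rw [map_zero]; exact h0
    · rw [map_add]; exact h2 _ _ a1 a2
  · rw [map_add, AddMonoidHom.add_apply]; exact h2 _ _ a1 a2

theorem gbox_lift {X : Type} [AddCommGroup X] (F : N.M →+ M.M →+ X)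
    (hF : ∀ (c : k) x y, F (algebraMap k K c • x) y = F x (algebraMap k B c • y)) :
    ∃ g : (gbox k N M).M →+ X, ∀ x y, g (gb k N M x y) = F x y :=
  ⟨TensorProduct.liftAddHom (R := k) (M := Rs k K N.M) (N := Rs k B M.M) F hF, fun _ _ => rfl⟩

theorem gbox_finite (hN : Module.Finite K N.M) (hM : Module.Finite B M.M) :
    Module.Finite (K ⊗[k] B) (gbox k N M).M := finite_box

variable (k 𝒜 ℬ) in
/-- kills exterior products -/
def ExtG (l : GM (tg k 𝒜 ℬ) → ℚ) : Prop :=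
  ∀ (N : GM 𝒜) (M : GM ℬ), Module.Finite K N.M → Module.Finite B M.M → l (gbox k N M) = 0

end Pool.Agent.CXD
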