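import Pool.Agent.P.MP_2ce3e7_ag.CWS
import Pool.Agent.P.MP_2ce3e7_ag.CWI

/-! The diagonal. -/

set_option linter.unusedSectionVars false
set_option linter.unusedVariables false

open Function Filter LaurentPolynomial
open scoped TensorProduct

noncomputable section

namespace Pool.Agent.CXD

variable {k A σ : Type} [Field k] [CommRing A] [Algebra k A] [Fintype σ] {𝒜 : ℤ → Set A}
  {z : σ → A} {θ : A →ₐ[k] A[T;T⁻¹]} [Gd 𝒜]

/-- the module of the diagonal with its generator -/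
structure Dg (θ : A →ₐ[k] A[T;T⁻¹]) (Δ : GM (tg k 𝒜 𝒜)) (δ : Δ.M) : Prop where
  hom : Δ.π 0 δ = δ
  gen : Submodule.span (A ⊗[k] A) {δ} = ⊤
  ann : ∀ y : A ⊗[k] A, y • δ = 0 ↔ hat (thL θ A) (mlt k A) y = 0

theorem Std.exists_dg (h : Std 𝒜 z θ) : ∃ (Δ : GM (tg k 𝒜 𝒜)) (δ : Δ.M), Dg θ Δ δ := by
  obtain ⟨W, w, hw0, -, hann⟩ :=
    exists_quot_cyc (h.ch (AlgHom.id k A)) (H := ∅) (fun a ha => absurd ha (Set.notMem_empty a))
  have h0 : (lau h.chD W).π 0 (lsg h.chD W 0 w) = lsg h.chD W 0 w :=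
    lau_π_lsg (h := h.chD) (W := W) (γ := 0) (w := w) hw0
  have hst : St (lau h.chD W) (Submodule.span (A ⊗[k] A) {lsg h.chD W 0 w}) :=
    st_span fun x hx => ⟨0, by rw [Set.mem_singleton_iff.1 hx]; exact h0⟩
  refine ⟨(lau h.chD W).sub _ hst, ⟨lsg h.chD W 0 w, Submodule.mem_span_singleton_self _⟩,
    Subtype.ext h0, ?_, fun y => ?_⟩
  · refine eq_top_iff.2 fun x _ => ?_
    obtain ⟨a, ha⟩ := Submodule.mem_span_singleton.1 x.2
    exact Submodule.mem_span_singleton.2 ⟨a, Subtype.ext ha⟩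
  · constructor
    · intro hy
      have hy' : y • lsg h.chD W 0 w = 0 := congrArg Subtype.val hy
      ext i
      have h1 := lev_smul_lsg (h := h.chD) (W := W) y i w
      rw [hy', map_zero] at h1
      have h2 := (hann _).1 h1.symm
      rw [Ideal.span_empty, Ideal.mem_bot] at h2
      rw [h2]; rfl
    · intro hy
      exact Subtype.ext (lau_kill (h := h.chD) (W := W) y hy _)

variable {Δ : GM (tg k 𝒜 𝒜)} {δ : Δ.M}

theorem ind_CWL (hd : Dg θ Δ δ) {V : GM 𝒜} {p : (tens (hm_inl (k := k)) V Δ).M → Prop} (h0 : p 0)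
    (h1 : ∀ c, ∀ y ∈ tg k 𝒜 𝒜 c, ∀ b v, V.π b v = v → p (tt hm_inl V Δ (y • δ) v))
    (h2 : ∀ x x', p x → p x' → p (x + x')) (x : (tens (hm_inl (k := k)) V Δ).M) : p x := by
  have key : ∀ y : A ⊗[k] A, ∀ b v, V.π b v = v → p (tt hm_inl V Δ (y • δ) v) := by
    intro y
    refine Gd.ind (tg k 𝒜 𝒜)
      (p := fun y => ∀ b v, V.π b v = v → p (tt hm_inl V Δ (y • δ) v)) ?_ h1 ?_ ?_ y
    · intro b v _
      rw [zero_smul, map_zero, AddMonoidHom.zero_apply]; exact h0
    · intro y y' hy hy' b v hv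
      rw [add_smul, map_add, AddMonoidHom.add_apply]
      exact h2 _ _ (hy b v hv) (hy' b v hv)
    · intro y hy b v hv
      have := hy b (-v) (by rw [map_neg, hv])
      rw [map_neg] at this
      rw [neg_smul, map_neg, AddMonoidHom.neg_apply]
      exact this
  refine tens_ind h0 (fun γ x c v _ hv => ?_) h2 x
  obtain ⟨y, rfl⟩ := Submodule.mem_span_singleton.1 (hd.gen ▸ Submodule.mem_top : x ∈ _)
  exact key y c v hv

theorem deg_CWL (hd : Dg θ Δ δ) {V : GM 𝒜} {c : ℤ × ℤ} {y : A ⊗[k] A} (hy : y ∈ tg k 𝒜 𝒜 c)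
    {b : ℤ} {v : V.M} (hv : V.π b v = v) :
    (tens (hm_inl (k := k)) V Δ).π (c + (b, 0)) (tt hm_inl V Δ (y • δ) v) =
      tt hm_inl V Δ (y • δ) v := by
  rw [tens_π _ _ hv]
  have e : c + (b, 0) - AddMonoidHom.inl ℤ ℤ b = c + 0 := by simp
  rw [e, GM.hom_smul (mem_cl hy) hd.hom]

theorem lsg_deg_CWL (h : Std 𝒜 z θ) {V : GM 𝒜} {b : ℤ} {v : V.M} (hv : V.π b v = v) :
    (lau h.chD V).π (b, 0) (lsg h.chD V b v) = lsg h.chD V b v :=
  lau_π_lsg (h := h.chD) (W := V) (γ := (b, 0)) (w := v) (by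
    have e : (eD (b, 0)).2 = b := add_zero b
    rw [e, hv])

theorem Std.exists_mu (h : Std 𝒜 z θ) (hd : Dg θ Δ δ) (V : GM 𝒜) :
    ∃ μ : (tens (hm_inl (k := k)) V Δ).M →ₗ[A ⊗[k] A] (lau h.chD V).M, IsG μ ∧
      ∀ c v, V.π c v = v → μ (tt hm_inl V Δ δ v) = lsg h.chD V c v := by
  let ω : V.M →+ (lau h.chD V).M := V.glue fun c => lsg h.chD V c
  have hω : ∀ c v, V.π c v = v → ω v = lsg h.chD V c v := fun c v hv => V.glue_hom _ hv
  have hωs : ∀ (a : A) (v : V.M), ω (a • v) = inl k A A a • ω v := by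
    intro a
    refine Gd.ind 𝒜 (p := fun a => ∀ v : V.M, ω (a • v) = inl k A A a • ω v) ?_ ?_ ?_ ?_ a
    · intro v; rw [zero_smul, map_zero, map_zero, zero_smul]
    · intro c a ha v
      refine V.ind (p := fun v => ω (a • v) = inl k A A a • ω v) ?_ ?_ ?_ v
      · rw [smul_zero, map_zero, smul_zero]
      · intro d v hv
        rw [hω _ _ (GM.hom_smul (mem_cl ha) hv), hω _ _ hv,
          smul_lsg ((hm_inl (k := k) (𝒜 := 𝒜) (ℬ := 𝒜)).mem c a ha)]
        have e1 : (eD (AddMonoidHom.inl ℤ ℤ c)).1 = c := rfl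
        have e2 : mlt k A (inl k A A a) = a := mul_one a
        rw [e1, e2, add_comm]
      · intro v v' hv hv'
        rw [smul_add, map_add, map_add, smul_add, hv, hv']
    · intro a a' ha ha' v
      rw [add_smul, map_add, map_add, add_smul, ha, ha']
    · intro a ha v
      rw [neg_smul, map_neg, map_neg, neg_smul, ha]
  have hs : ∀ x : Δ.M, ∃ y : A ⊗[k] A, y • δ = x := fun x =>
    Submodule.mem_span_singleton.1 (hd.gen ▸ Submodule.mem_top : x ∈ _)
  choose s hs using hs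
  have hk : ∀ y y' : A ⊗[k] A, y • δ = y' • δ → ∀ u : (lau h.chD V).M, y • u = y' • u := by
    intro y y' hy u
    have h1 : (y - y') • δ = 0 := by rw [sub_smul, hy, sub_self]
    have h2 := lau_kill (h := h.chD) (W := V) _ ((hd.ann _).1 h1) u
    rwa [sub_smul, sub_eq_zero] at h2
  let F : Δ.M →+ V.M →+ (lau h.chD V).M := AddMonoidHom.mk'
    (fun x => AddMonoidHom.mk' (fun v => s x • ω v) fun v v' => by rw [map_add, smul_add])
    fun x x' => AddMonoidHom.ext fun v => by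
      change s (x + x') • ω v = s x • ω v + s x' • ω v
      rw [← add_smul]
      exact hk _ _ (by rw [add_smul, hs, hs, hs]) _
  have hF : ∀ (y : A ⊗[k] A) (v : V.M), F (y • δ) v = y • ω v := fun y v => hk _ _ (hs _) _
  obtain ⟨g, hg⟩ := tens_lift (h := hm_inl (k := k)) (V := V) (Y := Δ) F fun a x v => by
    rw [← hs x, smul_smul, hF, hF, hωs, smul_smul, mul_comm]
  have hgs : ∀ (b : A ⊗[k] A) x, g (b • x) = b • g x := by
    intro b x
    refine ind_CWL hd (p := fun x => g (b • x) = b • g x) ?_ ?_ ?_ x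
    · rw [smul_zero, map_zero, smul_zero]
    · intro c y _ d v _
      rw [tt_smul, hg, hg, smul_smul, hF, hF, smul_smul]
    · intro x x' hx hx'
      rw [smul_add, map_add, map_add, smul_add, hx, hx']
  refine ⟨{ toFun := g, map_add' := g.map_add, map_smul' := hgs }, fun d x => ?_, fun c v hv => ?_⟩
  · change g ((tens hm_inl V Δ).π d x) = (lau h.chD V).π d (g x)
    refine ind_CWL hd (p := fun x => g ((tens hm_inl V Δ).π d x) = (lau h.chD V).π d (g x))
      ?_ ?_ ?_ x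
    · simp only [map_zero]
    · intro c y hy b v hv
      have h1 := deg_CWL hd hy hv
      have h2 : (lau h.chD V).π (c + (b, 0)) (g (tt hm_inl V Δ (y • δ) v)) =
          g (tt hm_inl V Δ (y • δ) v) := by
        rw [hg, hF, hω b v hv]
        exact GM.hom_smul (mem_cl hy) (lsg_deg_CWL h hv)
      by_cases hdc : d = c + (b, 0)
      · rw [hdc, h1, h2]
      · rw [GM.π_of_ne h1 hdc, GM.π_of_ne h2 hdc, map_zero]
    · intro x x' hx hx'
      simp only [map_add, hx, hx']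
  · change g (tt hm_inl V Δ δ v) = _
    have := hF 1 v
    rw [one_smul, one_smul] at this
    rw [hg, this, hω c v hv]

theorem pow_mem_CWL (h : Std 𝒜 z θ) (i : σ) (j : ℕ) : z i ^ j ∈ cl 𝒜 (j : ℤ) := by
  have := cl_pow (mem_cl (h.deg i)) j
  rwa [nsmul_eq_mul, mul_one] at this

theorem Std.mu_nil (h : Std 𝒜 z θ) (hd : Dg θ Δ δ) {V : GM 𝒜}
    {μ : (tens (hm_inl (k := k)) V Δ).M →ₗ[A ⊗[k] A] (lau h.chD V).M} (hμ : IsG μ)
    (h1 : ∀ c v, V.π c v = v → μ (tt hm_inl V Δ δ v) = lsg h.chD V c v) :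
    Nil (Set.range fun i => inl k A A (z i)) (LinearMap.ker μ) := by
  rintro _ ⟨i0, rfl⟩ ⟨x, hx⟩
  have hneg : ∀ (d : ℤ × ℤ), d.2 < 0 → ∀ x, (tens (hm_inl (k := k)) V Δ).π d x = 0 := by
    intro d hd0 x
    refine ind_CWL hd (p := fun x => (tens (hm_inl (k := k)) V Δ).π d x = 0) (map_zero _) ?_ ?_ x
    · intro c y hy b v hv
      refine GM.π_of_ne (deg_CWL hd hy hv) fun e => ?_
      obtain ⟨a, -, a', ha', -⟩ := hy
      refine h.neg c.2 ?_ a' ha'
      rw [e] at hd0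
      simpa using hd0
    · intro x x' hx hx'
      rw [map_add, hx, hx', add_zero]
  have hpos : ∀ (i : ℤ) (j : ℕ), inl k A A (z i0) ^ j •
      (tens (hm_inl (k := k)) V Δ).π (i, (j : ℤ)) x = 0 := by
    intro i j
    obtain ⟨β, hβ⟩ := lau_lift (h := h.chD) (W := V)
      fun _ => tt (hm_inl (k := k)) V Δ (inr k A A (z i0 ^ j) • δ)
    have key : ∀ x, β (μ ((tens (hm_inl (k := k)) V Δ).π (i, (j : ℤ)) x)) =
        inl k A A (z i0) ^ j • (tens (hm_inl (k := k)) V Δ).π (i, (j : ℤ)) x := by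
      intro x
      refine ind_CWL hd (p := fun x => β (μ ((tens (hm_inl (k := k)) V Δ).π (i, (j : ℤ)) x)) =
        inl k A A (z i0) ^ j • (tens (hm_inl (k := k)) V Δ).π (i, (j : ℤ)) x) ?_ ?_ ?_ x
      · simp only [map_zero, smul_zero]
      · intro c y hy b v hv
        have hdeg := deg_CWL hd hy hv
        by_cases e : (i, (j : ℤ)) = c + (b, 0)
        · rw [e, hdeg, ← tt_smul, map_smul, h1 b v hv, smul_lsg (mem_cl hy), hβ, ← tt_bal,
            tt_smul, tt_smul]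
          have ej : (j : ℤ) = c.2 := by simpa using congrArg Prod.snd e
          obtain ⟨a, ha, a', ha', rfl⟩ := hy
          have e1 : inl k A A (mlt k A (a ⊗ₜ a')) * inr k A A (z i0 ^ j) =
              (a * a') ⊗ₜ[k] (z i0 ^ j) := by
            change ((a * a') ⊗ₜ[k] (1 : A)) * ((1 : A) ⊗ₜ[k] (z i0 ^ j)) = _
            rw [Algebra.TensorProduct.tmul_mul_tmul, mul_one, one_mul]
          have e2 : inl k A A (z i0) ^ j * (a ⊗ₜ[k] a') = (z i0 ^ j * a) ⊗ₜ[k] a' := by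
            rw [← map_pow]
            change ((z i0 ^ j) ⊗ₜ[k] (1 : A)) * _ = _
            rw [Algebra.TensorProduct.tmul_mul_tmul, one_mul]
          have m1 := tmul_mem_cl (k := k) (cl_mul (mem_cl ha) (mem_cl ha')) (pow_mem_CWL h i0 j)
          have m2 := tmul_mem_cl (k := k) (cl_mul (pow_mem_CWL h i0 j) (mem_cl ha)) (mem_cl ha')
          have e3 : ((a * a') ⊗ₜ[k] (z i0 ^ j)) • δ = ((z i0 ^ j * a) ⊗ₜ[k] a') • δ := by
            rw [← sub_eq_zero, ← sub_smul, hd.ann, map_sub, h.chD.hat_cl m1, h.chD.hat_cl m2,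
              mlt_tmul, mlt_tmul, sub_eq_zero]
            have f1 : (eD (c.1 + c.2, (j : ℤ))).1 = c.1 + c.2 := rfl
            have f2 : (eD ((j : ℤ) + c.1, c.2)).1 = (j : ℤ) + c.1 := rfl
            rw [f1, f2, ej, add_comm c.2 c.1]
            congr 2
            ring
          rw [smul_smul, smul_smul, e1, e2, e3]
        · rw [GM.π_of_ne hdeg e, map_zero, map_zero, smul_zero]
      · intro x x' hx hx'
        simp only [map_add, smul_add, hx, hx']
    rw [← key x, hμ, LinearMap.mem_ker.1 hx, map_zero, map_zero]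
  obtain ⟨s, hs⟩ := (tens (hm_inl (k := k)) V Δ).sum_π x
  refine ⟨s.sup fun d => d.2.toNat, Subtype.ext ?_⟩
  change inl k A A (z i0) ^ (s.sup fun d => d.2.toNat) • x = 0
  rw [← hs, Finset.smul_sum]
  refine Finset.sum_eq_zero fun d hds => ?_
  by_cases hd0 : d.2 < 0
  · rw [hneg d hd0, smul_zero]
  · obtain ⟨m, hm⟩ := Nat.exists_eq_add_of_le' (Finset.le_sup (f := fun d : ℤ × ℤ => d.2.toNat) hds)
    have e : d = (d.1, ((d.2.toNat : ℕ) : ℤ)) := Prod.ext rfl (by simp; omega)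
    rw [hm, pow_add, mul_smul]
    have := hpos d.1 d.2.toNat
    rw [← e] at this
    rw [this, smul_zero]

theorem Std.isRes_lau (h : Std 𝒜 z θ) (V : GM 𝒜) (t : ℤ) :
    IsRes (inr k A A) (fun c => (t, c)) (V.shift t) (lau h.chD V) (lsg h.chD V t) := by
  refine ⟨fun x y hxy => ?_, fun a y => ?_, fun c y => ?_, fun c x => ⟨_, rfl⟩⟩
  · have := congrArg (lev' h.chD V t) hxy
    rwa [lev_lsg, lev_lsg] at this
  · refine Gd.ind 𝒜 (p := fun a => lsg h.chD V t (a • y) = inr k A A a • lsg h.chD V t y)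
      ?_ ?_ ?_ ?_ a
    · rw [zero_smul, map_zero, map_zero, zero_smul]
    · intro c a ha
      rw [smul_lsg ((hm_inr (k := k) (𝒜 := 𝒜) (ℬ := 𝒜)).mem c a ha)]
      have e1 : (eD (AddMonoidHom.inr ℤ ℤ c)).1 = 0 := rfl
      have e2 : mlt k A (inr k A A a) = a := one_mul a
      rw [e1, e2, add_zero]
    · intro a a' ha ha'
      rw [add_smul, map_add, map_add, add_smul, ha, ha']
    · intro a ha
      rw [neg_smul, map_neg, map_neg, neg_smul, ha]
  · rw [lau_π]
    change _ = lsg h.chD V t (V.π (t + c) (lev' h.chD V t (lsg h.chD V t y)))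
    rw [lev_lsg]

end Pool.Agent.CXD
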