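import Pool.Agent.P.MP_2ce3e7_ag.CWN2
import Pool.Agent.P.MP_2ce3e7_ag.CWH
import Pool.Agent.P.MP_2ce3e7_ag.CWE

/-! The direct image along the first factor. -/

set_option linter.unusedSectionVars false
set_option linter.unusedVariables false

open Function Filter LaurentPolynomial
open scoped TensorProduct

noncomputable section

namespace Pool.Agent.CXD

variable {k A B σ Γ : Type} [Field k] [CommRing A] [Algebra k A] [CommRing B] [Algebra k B]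
  [Fintype σ] [AddCommGroup Γ] {𝒜 : ℤ → Set A} {z : σ → A} {θ : A →ₐ[k] A[T;T⁻¹]} [Gd 𝒜]
  {ℬ : Γ → Set B} [Gd ℬ]

/-- the part of degree `t` for the first grading -/
def slc (t : ℤ) (Y : GM (tg k 𝒜 ℬ)) : GM ℬ := res hm_inr (t, 0) Y

theorem isRes_slc (t : ℤ) (Y : GM (tg k 𝒜 ℬ)) :
    ∃ j : (slc t Y).M →+ Y.M, IsRes (inr k A B) (fun c => (t, c)) (slc t Y) Y j := by
  have h := isRes_res (hm_inr (k := k) (𝒜 := 𝒜) (ℬ := ℬ)) (t, 0) Y
  simp only [AddMonoidHom.inr_apply, Prod.mk_add_mk, add_zero, zero_add] at h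
  exact h

/-- the Euler characteristic of the direct image -/
def sv (l : GM ℬ → ℚ) (Y : GM (tg k 𝒜 ℬ)) : ℚ := ev0 fun t => l (slc t Y)

variable [IsNoetherianRing B] [IsNoetherianRing (A ⊗[k] B)] {l l₁ l₂ : GM ℬ → ℚ}
  {Y : GM (tg k 𝒜 ℬ)}

theorem Std.slc_finite (h : Std 𝒜 z θ) (hY : Module.Finite (A ⊗[k] B) Y.M) (t : ℤ) :
    Module.Finite B (slc t Y).M := by
  obtain ⟨j, hj⟩ := isRes_slc t Y
  refine hj.finite hY fun g => ?_
  obtain ⟨ι, hι, E, hE⟩ := h.fin_piece (t - g.1)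
  refine ⟨ι, hι, fun i => E i ⊗ₜ 1, fun c a ha => ?_⟩
  obtain ⟨a', ha', b', -, rfl⟩ := ha
  obtain ⟨β, rfl⟩ := hE a' ha'
  refine ⟨fun i => β i • b', ?_⟩
  rw [TensorProduct.sum_tmul]
  refine Finset.sum_congr rfl fun i _ => ?_
  change _ = ((1 : A) ⊗ₜ[k] (β i • b')) * (E i ⊗ₜ[k] (1 : B))
  rw [Algebra.TensorProduct.tmul_mul_tmul, one_mul, mul_one, TensorProduct.smul_tmul]

theorem slc_add_CWS (h : Std 𝒜 z θ) (hl : GAdd l) (t : ℤ) :
    GAdd fun M : GM (tg k 𝒜 ℬ) => l (slc t M) :=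
  hl.res hm_inr (t, 0) fun M hM => h.slc_finite hM t

theorem slc_zero_CWS (h : Std 𝒜 z θ) (hl : GAdd l) (hY : Module.Finite (A ⊗[k] B) Y.M)
    (hn : Nil (Set.range fun i => inl k A B (z i)) Y.M) : ∀ᶠ t in atTop, l (slc t Y) = 0 := by
  refine (h.slice_zero hY hn).mono fun t ht => ?_
  obtain ⟨j, hj⟩ := isRes_slc t Y
  have := hj.subsingleton ht
  exact hl.zero _

theorem Std.sv_pf (h : Std 𝒜 z θ) (hl : GAdd l) (hY : Module.Finite (A ⊗[k] B) Y.M) :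
    (fun t => l (slc t Y)) ∈ PF atTop := by
  refine hilb itg_atTop (fun t M => l (slc t M)) (slc_add_CWS h hl) (u := ((1 : ℤ), (0 : Γ)))
    (fun t M hM => ?_) (Set.finite_range fun i => inl k A B (z i)) ?_ (fun M hM h0 => ?_) Y hY
  · obtain ⟨j₁, h₁⟩ := isRes_slc (t + 1) (M.shift (-((1 : ℤ), (0 : Γ))))
    obtain ⟨j₂, h₂⟩ := isRes_slc t M
    have h₃ := (isRes_shift M (-((1 : ℤ), (0 : Γ)))).comp h₁
    have e : ((fun c : ℤ × Γ => -((1 : ℤ), (0 : Γ)) + c) ∘ fun c : Γ => (t + 1, c)) =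
        fun c : Γ => (t, c) := by
      funext c
      simp
    rw [RingHom.id_comp, e] at h₃
    exact h₃.val hl h₂ (h.slc_finite hM t)
  · rintro _ ⟨i, rfl⟩
    exact (hm_inl (k := k) (𝒜 := 𝒜) (ℬ := ℬ)).mem 1 (z i) (h.deg i)
  · refine ⟨0, (slc_zero_CWS h hl hM fun f hf x => ⟨1, ?_⟩).mono fun t ht => ?_⟩
    · rw [pow_one]; exact h0 f hf x
    · rw [Polynomial.eval_zero]; exact ht

theorem Std.sv_add (h : Std 𝒜 z θ) (hl : GAdd l) : GAdd (sv (k := k) (𝒜 := 𝒜) l) := by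
  intro M N P hN hs
  have hs' := hs
  obtain ⟨f, g, -, -, h1, h2, -⟩ := hs'
  have hM : Module.Finite (A ⊗[k] B) M.M := Module.Finite.of_injective f h1
  have hP : Module.Finite (A ⊗[k] B) P.M := Module.Finite.of_surjective g h2
  have e := ev0_lin (h.sv_pf hl hM) (h.sv_pf hl hP) 1 1
  simp only [one_mul] at e
  unfold sv
  rw [← e]
  exact ev0_congr (Eventually.of_forall fun t => slc_add_CWS h hl t M N P hN hs)

theorem Std.sv_left (h : Std 𝒜 z θ) (hl : GAdd l) :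
    VnG ⊥ (Set.range fun i => inl k A B (z i)) (sv (k := k) (𝒜 := 𝒜) l) := by
  intro M hM _ hn
  exact ev0_zero (slc_zero_CWS h hl hM hn)

theorem Std.sv_right (h : Std 𝒜 z θ) {τ : Type} {w : τ → B} (hv : VnG ⊥ (Set.range w) l) :
    VnG ⊥ (Set.range fun i => inr k A B (w i)) (sv (k := k) (𝒜 := 𝒜) l) := by
  intro M hM _ hn
  refine ev0_zero (Eventually.of_forall fun t => ?_)
  obtain ⟨j, hj⟩ := isRes_slc t M
  refine hv _ (h.slc_finite hM t) (fun x hx y => ?_) (hj.nil hn ?_)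
  · rw [Ideal.mem_bot.1 hx, zero_smul]
  · rintro _ ⟨i, rfl⟩
    exact ⟨_, ⟨i, rfl⟩, 1, (pow_one _).symm, one_pos⟩

theorem Std.sv_lin (h : Std 𝒜 z θ) (h₁ : GAdd l₁) (h₂ : GAdd l₂) {s t : ℚ}
    (hl : ∀ M : GM ℬ, Module.Finite B M.M → l M = s * l₁ M + t * l₂ M)
    (hY : Module.Finite (A ⊗[k] B) Y.M) : sv l Y = s * sv l₁ Y + t * sv l₂ Y := by
  unfold sv
  rw [← ev0_lin (h.sv_pf h₁ hY) (h.sv_pf h₂ hY)]
  exact ev0_congr (Eventually.of_forall fun u => hl _ (h.slc_finite hY u))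

theorem Std.sv_ver [Fintype k] [Algebra.FiniteType k B] (h : Std 𝒜 z θ) (hl : GAdd l)
    (h₁ : Hm (frb k B) ℬ ℬ (Fintype.card k • AddMonoidHom.id Γ))
    (h₂ : Hm (Fr k A B) (tg k 𝒜 ℬ) (tg k 𝒜 ℬ) (mu ℤ Γ (Fintype.card k)))
    (hY : Module.Finite (A ⊗[k] B) Y.M) :
    sv l (res h₂ 0 Y) = sv (fun M => l (res h₁ 0 M)) Y := by
  refine ev0_congr (Eventually.of_forall fun t => ?_)
  obtain ⟨a, ha⟩ := isRes_ver h₂ Y
  obtain ⟨b, hb⟩ := isRes_slc t (res h₂ 0 Y)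
  obtain ⟨c, hc⟩ := isRes_slc t Y
  obtain ⟨d, hd⟩ := isRes_ver h₁ (slc t Y)
  have h₃ := ha.comp hb
  have h₄ := hc.comp hd
  have e : (Fr k A B).comp (inr k A B) = (inr k A B).comp (frb k B) :=
    RingHom.ext fun y => (Fr_inr y).trans (map_pow (inr k A B) y _).symm
  rw [e] at h₃
  exact IsRes.val hl h₃ h₄ (res_finite h₁ (frobAlg_finite k B) _ (h.slc_finite hY t))

end Pool.Agent.CXD
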