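import Pool.Agent.P.MP_2ce3e7_ag.CWS
import Pool.Agent.P.MP_2ce3e7_ag.CWI

/-! The direct image of an exterior product. -/

set_option linter.unusedSectionVars false
set_option linter.unusedVariables false

open Function Filter LaurentPolynomial
open scoped TensorProduct

noncomputable section

namespace Pool.Agent.CXD

theorem exists_dual_basis (k A : Type) [Field k] [CommRing A] [Algebra k A] {X : Type}
    [AddCommGroup X] [Module A X] {S : Set X} {ι : Type} [Fintype ι] {E : ι → X}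
    (hS : ∀ x ∈ S, ∃ b : ι → k, x = ∑ i, algebraMap k A (b i) • E i)
    (hS' : ∀ (c : k), ∀ x ∈ S, algebraMap k A c • x ∈ S) :
    ∃ (u : Fin (dimK k A S) → X) (ξ : Fin (dimK k A S) → X →+ k),
      (∀ i, u i ∈ AddSubgroup.closure S) ∧
      (∀ i c x, ξ i (algebraMap k A c • x) = c * ξ i x) ∧
      (∀ i j, ξ i (u j) = if i = j then 1 else 0) ∧
      ∀ x ∈ S, x = ∑ i, algebraMap k A (ξ i x) • u i := by
  letI : Module k X := Module.compHom X (algebraMap k A)
  have hsm : ∀ (c : k) (x : X), c • x = algebraMap k A c • x := fun _ _ => rfl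
  have hle : Submodule.span k S ≤ Submodule.span k (Set.range E) := by
    refine Submodule.span_le.2 fun x hx => ?_
    obtain ⟨b, rfl⟩ := hS x hx
    exact Submodule.sum_mem _ fun i _ =>
      Submodule.smul_mem _ (b i) (Submodule.subset_span ⟨i, rfl⟩)
  have h1 : FiniteDimensional k (Submodule.span k (Set.range E)) :=
    FiniteDimensional.span_of_finite k (Set.finite_range E)
  have h2 : FiniteDimensional k (Submodule.span k S) := Submodule.finiteDimensional_of_le hle
  let B : Module.Basis (Fin (dimK k A S)) k (Submodule.span k S) :=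
    Module.finBasis k (Submodule.span k S)
  have hex : ∀ i, ∃ g : X →ₗ[k] k, g.comp (Submodule.span k S).subtype = B.coord i := fun i =>
    LinearMap.exists_extend (B.coord i)
  choose g hg using hex
  have hg' : ∀ i (w : Submodule.span k S), g i w.1 = B.repr w i := fun i w =>
    LinearMap.congr_fun (hg i) w
  have hcl : ∀ x ∈ Submodule.span k S, x ∈ AddSubgroup.closure S := by
    intro x hx
    induction hx using Submodule.span_induction with
    | mem x hx => exact AddSubgroup.subset_closure hx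
    | zero => exact zero_mem _
    | add x y _ _ hx hy => exact add_mem hx hy
    | smul c x _ hx =>
      rw [hsm]
      clear * - hx hS'
      induction hx using AddSubgroup.closure_induction with
      | mem x hx => exact AddSubgroup.subset_closure (hS' c x hx)
      | zero => rw [smul_zero]; exact zero_mem _
      | add x y _ _ hx hy => rw [smul_add]; exact add_mem hx hy
      | neg x _ hx => rw [smul_neg]; exact neg_mem hx
  refine ⟨fun i => (B i).1, fun i => (g i).toAddMonoidHom, fun i => hcl _ (B i).2, ?_, ?_, ?_⟩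
  · intro i c x
    exact (g i).map_smul c x
  · intro i j
    show g i (B j).1 = _
    rw [hg', B.repr_self, Finsupp.single_apply]
    simp only [eq_comm]
  · intro x hx
    have h3 := congrArg Subtype.val (B.sum_repr ⟨x, Submodule.subset_span hx⟩)
    rw [AddSubmonoidClass.coe_finsetSum] at h3
    refine h3.symm.trans (Finset.sum_congr rfl fun i _ => ?_)
    have h4 : g i x = B.repr ⟨x, Submodule.subset_span hx⟩ i :=
      hg' i ⟨x, Submodule.subset_span hx⟩
    show _ = algebraMap k A (g i x) • (B i).1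
    rw [h4]
    rfl

/-- the combinations of a finite family -/
def sp_CWS2 (k A : Type) [Field k] [CommRing A] [Algebra k A] {X : Type} [AddCommGroup X]
    [Module A X] {ι : Type} [Fintype ι] (E : ι → X) : AddSubgroup X where
  carrier := {x | ∃ b : ι → k, x = ∑ i, algebraMap k A (b i) • E i}
  zero_mem' := ⟨0, by simp⟩
  add_mem' := by
    rintro _ _ ⟨b, rfl⟩ ⟨c, rfl⟩
    exact ⟨b + c, by simp [add_smul, Finset.sum_add_distrib]⟩
  neg_mem' := by
    rintro _ ⟨b, rfl⟩
    exact ⟨-b, by simp⟩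

theorem mem_sp_CWS2 (k A : Type) [Field k] [CommRing A] [Algebra k A] {X : Type} [AddCommGroup X]
    [Module A X] {ι : Type} [Fintype ι] (E : ι → X) (c : k) (i : ι) :
    algebraMap k A c • E i ∈ sp_CWS2 k A E := by
  classical
  refine ⟨Pi.single i c, ?_⟩
  rw [Finset.sum_eq_single i]
  · rw [Pi.single_eq_same]
  · intro j _ hj
    rw [Pi.single_eq_of_ne hj, map_zero, zero_smul]
  · intro hi
    exact absurd (Finset.mem_univ i) hi

variable {k A B σ Γ : Type} [Field k] [CommRing A] [Algebra k A] [CommRing B] [Algebra k B]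
  [Fintype σ] [AddCommGroup Γ] {𝒜 : ℤ → Set A} {z : σ → A} {θ : A →ₐ[k] A[T;T⁻¹]} [Gd 𝒜]
  {ℬ : Γ → Set B} [Gd ℬ]

theorem Std.fin_part (h : Std 𝒜 z θ) {N : GM 𝒜} (hN : Module.Finite A N.M) :
    (∀ a, ∃ (ι : Type) (_ : Fintype ι) (E : ι → N.M), ∀ y, ∃ b : ι → k,
      N.π a y = ∑ i, algebraMap k A (b i) • E i) ∧ ∃ a₀, ∀ a < a₀, ∀ y, N.π a y = 0 := by
  classical
  obtain ⟨s, hs, hh⟩ := N.exists_gens
  choose! g hg using hh
  choose ι hι E hE using h.fin_piece
  refine ⟨fun a => ?_, ?_⟩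
  · refine ⟨Σ x : s, ι (a - g x), inferInstance, fun p => E _ p.2 • p.1.1, fun y => ?_⟩
    have key : AddSubgroup.closure {w | ∃ x ∈ (s : Set N.M), ∃ c ∈ 𝒜 (a - g x), w = c • x} ≤
        sp_CWS2 k A (fun p : (Σ x : s, ι (a - g x)) => E _ p.2 • p.1.1) := by
      refine (AddSubgroup.closure_le _).2 ?_
      rintro _ ⟨x, hx, c, hc, rfl⟩
      obtain ⟨b, rfl⟩ := hE _ c hc
      rw [Finset.sum_smul]
      refine AddSubgroup.sum_mem _ fun i _ => ?_
      rw [Algebra.smul_def, mul_smul]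
      exact mem_sp_CWS2 k A (fun p : (Σ x : s, ι (a - g x)) => E _ p.2 • p.1.1) (b i) ⟨⟨x, hx⟩, i⟩
    exact key (N.π_mem hs g hg a y)
  · obtain ⟨a₀, ha₀⟩ := (s.finite_toSet.image g).bddBelow
    refine ⟨a₀, fun a ha y => ?_⟩
    have key : AddSubgroup.closure {w | ∃ x ∈ (s : Set N.M), ∃ c ∈ 𝒜 (a - g x), w = c • x} ≤ ⊥ := by
      refine (AddSubgroup.closure_le _).2 ?_
      rintro _ ⟨x, hx, c, hc, rfl⟩
      have h1 : a₀ ≤ g x := ha₀ ⟨x, hx, rfl⟩
      exact absurd hc (h.neg _ (by omega) c)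
    exact AddSubgroup.mem_bot.1 (key (N.π_mem hs g hg a y))

theorem Std.fin_tpc (h : Std 𝒜 z θ) {N V : GM 𝒜} (hN : Module.Finite A N.M)
    (hV : Module.Finite A V.M) (t : ℤ) : ∃ (ι : Type) (_ : Fintype ι) (E : ι → N.M ⊗[A] V.M),
      ∀ x ∈ tpc N V t, ∃ b : ι → k, x = ∑ i, algebraMap k A (b i) • E i := by
  classical
  obtain ⟨h1, a₀, ha₀⟩ := h.fin_part hN
  obtain ⟨h2, b₀, hb₀⟩ := h.fin_part hV
  choose ι hι E hE using h1
  choose κ hκ F hF using h2
  refine ⟨Σ a : Finset.Icc a₀ (t - b₀), ι a × κ (t - a), inferInstance,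
    fun p => E _ p.2.1 ⊗ₜ F _ p.2.2, ?_⟩
  rintro _ ⟨a, y, v, rfl⟩
  show _ ∈ sp_CWS2 k A
    (fun p : (Σ a : Finset.Icc a₀ (t - b₀), ι a × κ (t - a)) => E _ p.2.1 ⊗ₜ[A] F _ p.2.2)
  by_cases ha : a < a₀
  · rw [ha₀ a ha, TensorProduct.zero_tmul]
    exact zero_mem _
  by_cases hb : t - a < b₀
  · rw [hb₀ _ hb, TensorProduct.tmul_zero]
    exact zero_mem _
  have hm : a ∈ Finset.Icc a₀ (t - b₀) := Finset.mem_Icc.2 ⟨by omega, by omega⟩
  obtain ⟨b, hb⟩ := hE a y
  obtain ⟨c, hc⟩ := hF (t - a) v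
  rw [hb, hc, TensorProduct.sum_tmul]
  refine AddSubgroup.sum_mem _ fun i _ => ?_
  rw [TensorProduct.tmul_sum]
  refine AddSubgroup.sum_mem _ fun j _ => ?_
  rw [TensorProduct.smul_tmul_smul, ← map_mul]
  exact mem_sp_CWS2 k A
    (fun p : (Σ a : Finset.Icc a₀ (t - b₀), ι a × κ (t - a)) => E _ p.2.1 ⊗ₜ[A] F _ p.2.2)
    (b i * c j) ⟨⟨a, hm⟩, i, j⟩

end Pool.Agent.CXD
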