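import Pool.Agent.P.MP_2ce3e7_ag.CXA

/-! Euler characteristics, restriction of scalars. -/

set_option linter.unusedSectionVars false
set_option linter.unusedVariables false

open Function

noncomputable section

namespace Pool.Agent.CXD

variable {R R' : Type} [CommRing R] [CommRing R'] {χ : Val R} {b : Ideal R}
  {M N : Type} [AddCommGroup M] [Module R M] [AddCommGroup N] [Module R N]

theorem exact_CXA2 (h : IsAdd χ b) {X Y Z : Type} [AddCommGroup X] [Module R X] [AddCommGroup Y]
    [Module R Y] [AddCommGroup Z] [Module R Z] [Module.Finite R Y] (u : X →ₗ[R] Y)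
    (v : Y →ₗ[R] Z) (e : Exact u v) (hk : Kill b Y) :
    χ.val Y = χ.val (LinearMap.range u) + χ.val (LinearMap.range v) := by
  rw [h.ker_range v hk, e.linearMap_ker_eq]

theorem sup_CXA2 {a : R} (hk : Kill b M) (ha : ∀ y : M, a • y = 0) :
    Kill (b ⊔ Ideal.span {a}) M :=
  kill_iff.2 (sup_le (kill_iff.1 hk)
    ((Ideal.span_singleton_le_iff_mem _).2 (Module.mem_annihilator.2 ha)))

theorem ker_CXA2 (a : R) (hk : Kill b M) :
    Kill (b ⊔ Ideal.span {a}) (LinearMap.ker (LinearMap.lsmul R M a)) :=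
  sup_CXA2 (hk.of_injective _ (Submodule.injective_subtype _)) fun y => Subtype.ext y.2

theorem quot_CXA2 (a : R) (hk : Kill b M) :
    Kill (b ⊔ Ideal.span {a}) (M ⧸ LinearMap.range (LinearMap.lsmul R M a)) :=
  sup_CXA2 (hk.of_surjective _ (Submodule.mkQ_surjective _)) fun y => by
    obtain ⟨y, rfl⟩ := Submodule.Quotient.mk_surjective _ y
    exact (Submodule.Quotient.mk_eq_zero _).2 ⟨y, rfl⟩

theorem isAdd_rho [IsNoetherianRing R] {a : R} (h : IsAdd χ (b ⊔ Ideal.span {a})) :
    IsAdd (rho a χ) b := by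
  intro M N P _ _ _ _ _ _ _ f g hf hg he kN
  have kM := kN.of_injective f hf
  have kP := kN.of_surjective g hg
  have : Module.Finite R M := Module.Finite.of_injective f hf
  have : Module.Finite R P := Module.Finite.of_surjective g hg
  let i₁ := LinearMap.lsmul R M a
  let i₂ := LinearMap.lsmul R N a
  let i₃ := LinearMap.lsmul R P a
  have h₁ : ∀ y, f (i₁ y) = i₂ (f y) := fun y => map_smul f a y
  have h₂ : ∀ y, g (i₂ y) = i₃ (g y) := fun y => map_smul g a y
  let F1 : LinearMap.ker i₁ →ₗ[R] LinearMap.ker i₂ := f.restrict (fun y hy => by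
    rw [LinearMap.mem_ker] at hy ⊢
    rw [← h₁, hy, map_zero])
  let F2 : LinearMap.ker i₂ →ₗ[R] LinearMap.ker i₃ := g.restrict (fun y hy => by
    rw [LinearMap.mem_ker] at hy ⊢
    rw [← h₂, hy, map_zero])
  let G1 : (M ⧸ LinearMap.range i₁) →ₗ[R] (N ⧸ LinearMap.range i₂) :=
    Submodule.mapQ _ _ f (by
      rintro _ ⟨y, rfl⟩
      exact ⟨f y, (h₁ y).symm⟩)
  let G2 : (N ⧸ LinearMap.range i₂) →ₗ[R] (P ⧸ LinearMap.range i₃) :=
    Submodule.mapQ _ _ g (by
      rintro _ ⟨y, rfl⟩
      exact ⟨g y, (h₂ y).symm⟩)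
  have k1 : f.comp i₁ = i₂.comp f := LinearMap.ext h₁
  have k2 : g.comp i₂ = i₃.comp g := LinearMap.ext h₂
  have eF : Exact F1 F2 := by
    intro y
    constructor
    · intro hy
      have h0 : g y.1 = 0 := congrArg Subtype.val hy
      obtain ⟨z, hz⟩ := (he _).1 h0
      refine ⟨⟨z, ?_⟩, Subtype.ext hz⟩
      rw [LinearMap.mem_ker]
      apply hf
      rw [h₁, hz, map_zero]
      exact y.2
    · rintro ⟨z, rfl⟩
      exact Subtype.ext (he.apply_apply_eq_zero z.1)
  have eG : Exact G1 G2 := by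
    intro y
    obtain ⟨y, rfl⟩ := Submodule.Quotient.mk_surjective _ y
    constructor
    · intro hy
      have h0 : g y ∈ LinearMap.range i₃ := (Submodule.Quotient.mk_eq_zero _).1 hy
      obtain ⟨w, hw⟩ := h0
      obtain ⟨v, rfl⟩ := hg w
      obtain ⟨z, hz⟩ := (he (y - i₂ v)).1 (by rw [map_sub, h₂, hw, sub_self])
      refine ⟨Submodule.Quotient.mk z, ?_⟩
      refine (Submodule.Quotient.eq _).2 ⟨-v, ?_⟩
      rw [hz, map_neg]
      abel
    · rintro ⟨z, hz⟩
      obtain ⟨z, rfl⟩ := Submodule.Quotient.mk_surjective _ z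
      rw [← hz]
      refine (Submodule.Quotient.mk_eq_zero _).2 ?_
      rw [he.apply_apply_eq_zero z]
      exact zero_mem _
  have e2 := SnakeLemma.exact_δ'_right i₁ i₂ i₃ f g he f g he k1 k2
    (LinearMap.ker i₂).subtype (LinearMap.exact_subtype_ker_map i₂)
    (LinearMap.ker i₃).subtype (LinearMap.exact_subtype_ker_map i₃)
    (LinearMap.range i₁).mkQ (LinearMap.exact_map_mkQ_range i₁) hg hf F2
    (LinearMap.ext fun _ => rfl) (Submodule.subtype_injective _)
  have e3 := SnakeLemma.exact_δ'_left i₁ i₂ i₃ f g he f g he k1 k2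
    (LinearMap.ker i₃).subtype (LinearMap.exact_subtype_ker_map i₃)
    (LinearMap.range i₁).mkQ (LinearMap.exact_map_mkQ_range i₁)
    (LinearMap.range i₂).mkQ (LinearMap.exact_map_mkQ_range i₂) hg hf G1
    (LinearMap.ext fun _ => rfl) (Submodule.mkQ_surjective _)
  have iF : Injective F1 := fun y z hyz => Subtype.ext (hf (congrArg Subtype.val hyz))
  have sG : Surjective G2 := by
    intro y
    obtain ⟨y, rfl⟩ := Submodule.Quotient.mk_surjective _ y
    obtain ⟨z, rfl⟩ := hg y
    exact ⟨Submodule.Quotient.mk z, rfl⟩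
  have a1 := h.congr (LinearEquiv.ofInjective F1 iF)
    ((ker_CXA2 a kN).of_injective _ (Submodule.injective_subtype _))
  have a2 := exact_CXA2 h _ _ eF (ker_CXA2 a kN)
  have a3 := exact_CXA2 h _ _ e2 (ker_CXA2 a kP)
  have a4 := exact_CXA2 h _ _ e3 (quot_CXA2 a kM)
  have a5 := exact_CXA2 h _ _ eG (quot_CXA2 a kN)
  have a6 := h.congr (LinearEquiv.ofTop (LinearMap.range G2) (LinearMap.range_eq_top.2 sG))
    (quot_CXA2 a kP)
  change χ.val (N ⧸ LinearMap.range i₂) - χ.val (LinearMap.ker i₂) =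
    (χ.val (M ⧸ LinearMap.range i₁) - χ.val (LinearMap.ker i₁)) +
      (χ.val (P ⧸ LinearMap.range i₃) - χ.val (LinearMap.ker i₃))
  rw [a1, a2, a3, a4, a5, a6]
  abel

theorem rho_zero {a : R} (h : IsAdd χ (b ⊔ Ideal.span {a})) [Module.Finite R M]
    (hk : Kill (b ⊔ Ideal.span {a}) M) : (rho a χ).val M = 0 := by
  have ha : LinearMap.lsmul R M a = 0 := LinearMap.ext fun y =>
    hk a (Ideal.mem_sup_right (Ideal.mem_span_singleton_self a)) y
  have a1 := h.congr (Submodule.quotEquivOfEqBot _ (LinearMap.range_eq_bot.2 ha)) hk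
  have a2 := h.congr (LinearEquiv.ofTop _ (LinearMap.ker_eq_top.2 ha)) hk
  change χ.val _ - χ.val _ = 0
  rw [a1, a2, sub_self]

theorem rho_reg {a : R} (h : IsAdd χ (b ⊔ Ideal.span {a})) [Module.Finite R M] (hk : Kill b M)
    (ha : ∀ y : M, a • y = 0 → y = 0) (g : M →ₗ[R] N) (hg : Surjective g)
    (hker : ∀ y, g y = 0 ↔ ∃ z, a • z = y) : (rho a χ).val M = χ.val N := by
  have : Subsingleton (LinearMap.ker (LinearMap.lsmul R M a)) :=
    subsingleton_of_forall_eq 0 fun y => Subtype.ext (ha _ y.2)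
  have e : LinearMap.ker g = LinearMap.range (LinearMap.lsmul R M a) :=
    Submodule.ext fun y => hker y
  have a1 := h.congr ((g.quotKerEquivOfSurjective hg).symm.trans (Submodule.quotEquivOfEq _ _ e))
    (quot_CXA2 a hk)
  change χ.val _ - χ.val _ = _
  rw [← a1, h.zero (LinearMap.ker (LinearMap.lsmul R M a)), sub_zero]

theorem isAdd_Eu [IsNoetherianRing R] {a : ℕ → R} (l m : ℕ) (h : IsAdd χ (lev a (l + m))) :
    IsAdd (Eu χ a l m) (lev a l) := by
  induction m generalizing l with
  | zero => exact h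
  | succ m ih =>
    refine isAdd_rho ?_
    rw [← lev_succ]
    exact ih (l + 1) (by rwa [add_right_comm, add_assoc])

theorem finite_compHom (ψ : R →+* R') (hψ : ψ.Finite) (M : Type) [AddCommGroup M] [Module R' M]
    [Module.Finite R' M] : @Module.Finite R M _ _ (Module.compHom M ψ) := by
  let : Module R M := Module.compHom M ψ
  let : Algebra R R' := ψ.toAlgebra
  have : IsScalarTower R R' M := ⟨fun b a y => mul_smul (ψ b) a y⟩
  have : Module.Finite R R' := hψ
  exact Module.Finite.trans R' M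

theorem isAdd_push (ψ : R →+* R') (hψ : ψ.Finite) {b' : Ideal R'} (h : IsAdd χ b)
    (hb : b ≤ b'.comap ψ) : IsAdd (push ψ χ) b' := by
  intro M N P _ _ _ _ _ _ _ f g hf hg he hk
  let : Module R M := Module.compHom M ψ
  let : Module R N := Module.compHom N ψ
  let : Module R P := Module.compHom P ψ
  have := finite_compHom ψ hψ N
  exact h M N P ⟨f.toAddHom, fun b y => f.map_smul (ψ b) y⟩
    ⟨g.toAddHom, fun b y => g.map_smul (ψ b) y⟩ hf hg he fun x hx y => hk (ψ x) (hb hx) y

theorem isAdd_lift {χ : Val (R ⧸ b)} (h : IsAdd χ ⊥) : IsAdd (lift b χ) b := by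
  intro M N P _ _ _ _ _ _ _ f g hf hg he hk
  have tN : Module.IsTorsionBySet R N b := fun y x => hk x.1 x.2 y
  have tM : Module.IsTorsionBySet R M b := fun y x => hk.of_injective f hf x.1 x.2 y
  have tP : Module.IsTorsionBySet R P b := fun y x => hk.of_surjective g hg x.1 x.2 y
  simp only [lift, dif_pos tM, dif_pos tN, dif_pos tP]
  let := tM.module
  let := tN.module
  let := tP.module
  have := tN.isScalarTower (S := R)
  have : Module.Finite (R ⧸ b) N := Module.Finite.of_restrictScalars_finite R _ _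
  refine h M N P ⟨f.toAddHom, fun c y => ?_⟩ ⟨g.toAddHom, fun c y => ?_⟩ hf hg he kill_bot
  · obtain ⟨c, rfl⟩ := Ideal.Quotient.mk_surjective c
    exact f.map_smul c y
  · obtain ⟨c, rfl⟩ := Ideal.Quotient.mk_surjective c
    exact g.map_smul c y

theorem push_lift (χ : Val (R ⧸ b)) : push (Ideal.Quotient.mk b) (lift b χ) = χ := by
  obtain ⟨v⟩ := χ
  simp only [push, lift]
  congr 1
  funext M _ i
  have t : @Module.IsTorsionBySet R M _ _ (Module.compHom M (Ideal.Quotient.mk b)) b :=
    fun y x => by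
      change Ideal.Quotient.mk b x.1 • y = 0
      rw [Ideal.Quotient.eq_zero_iff_mem.2 x.2, zero_smul]
  rw [dif_pos t]
  refine congrArg (@v M _) (Module.ext' _ _ fun c y => ?_)
  obtain ⟨c, rfl⟩ := Ideal.Quotient.mk_surjective c
  rfl

/-- a finite free module -/
theorem IsAdd.val_free (h : IsAdd χ ⊥) (h0 : χ.val R = 0) [Module.Finite R M] [Module.Free R M] :
    χ.val M = 0 := by
  have k : ∀ d : ℕ, χ.val (Fin d → R) = 0 := fun d => by
    induction d with
    | zero => exact h.zero _
    | succ d ih =>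
      have a1 := h.congr (Fin.consLinearEquiv R fun _ : Fin (d + 1) => R) kill_bot
      have a2 := h R (R × (Fin d → R)) (Fin d → R) (LinearMap.inl R _ _) (LinearMap.snd R _ _)
        LinearMap.inl_injective LinearMap.snd_surjective Function.Exact.inl_snd kill_bot
      rw [← a1, a2, h0, ih, add_zero]
  rcases subsingleton_or_nontrivial R with hR | hR
  · have := Module.subsingleton R M
    exact h.zero M
  · rw [h.congr (Module.finBasis R M).equivFun kill_bot, k]

end Pool.Agent.CXD
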