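import Pool.Agent.P.MP_2ce3e7_ag.CXA2

/-! Devissage. -/

set_option linter.unusedSectionVars false
set_option linter.unusedVariables false

open Function
open scoped TensorProduct

noncomputable section

namespace Pool.Agent.CXD

variable {R R' : Type} [CommRing R] [CommRing R'] {χ : Val R} {b : Ideal R}

theorem val_of_primes [IsNoetherianRing R] (h : IsAdd χ b) (M : Type) [AddCommGroup M] [Module R M]
    [Module.Finite R M] (hk : Kill b M)
    (hM : ∀ P : Ideal R, P.IsPrime → Module.annihilator R M ≤ P → χ.val (R ⧸ P) = 0) :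
    χ.val M = 0 := by
  revert hk hM
  induction ‹Module.Finite R M› using
    IsNoetherianRing.induction_on_isQuotientEquivQuotientPrime R with
  | subsingleton N => exact fun _ _ => h.zero N
  | quotient N p f =>
    intro hk hM
    rw [h.congr f (hk.of_surjective f.toLinearMap f.surjective)]
    refine hM p.1 p.2 ?_
    rw [f.annihilator_eq, Ideal.annihilator_quotient]
  | exact N₁ N₂ N₃ f g hf hg hfg h₁ h₃ =>
    intro hk hM
    rw [h N₁ N₂ N₃ f g hf hg hfg hk,
      h₁ (hk.of_injective f hf)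
        fun P hP hle => hM P hP ((f.annihilator_le_of_injective hf).trans hle),
      h₃ (hk.of_surjective g hg)
        fun P hP hle => hM P hP ((g.annihilator_le_of_surjective hg).trans hle), add_zero]

/-- `χ` vanishes on the primes that strictly contain `𝔭` -/
def Van (χ : Val R) (𝔭 : Ideal R) : Prop := ∀ P : Ideal R, P.IsPrime → 𝔭 < P → χ.val (R ⧸ P) = 0

/-- the generic length -/
theorem exists_mult [IsNoetherianRing R] (𝔭 : Ideal R) (h𝔭 : 𝔭.IsPrime) (M : Type) [AddCommGroup M]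
    [Module R M] [Module.Finite R M] (hk : Kill 𝔭 M) :
    ∃ ν : ℕ, (Module.annihilator R M ≤ 𝔭 → 0 < ν) ∧
      ∀ χ : Val R, IsAdd χ ⊥ → Van χ 𝔭 → χ.val M = ν * χ.val (R ⧸ 𝔭) := by
  revert hk
  induction ‹Module.Finite R M› using
    IsNoetherianRing.induction_on_isQuotientEquivQuotientPrime R with
  | subsingleton N =>
    intro hk
    refine ⟨0, fun hle => absurd ?_ h𝔭.ne_top, fun χ hχ _ => by rw [hχ.zero N]; simp⟩
    rw [eq_top_iff]
    refine le_trans (fun x _ => Module.mem_annihilator.2 fun y => Subsingleton.elim _ _) hle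
  | quotient N p f =>
    intro hk
    have hann : Module.annihilator R N = p.1 := by
      rw [f.annihilator_eq, Ideal.annihilator_quotient]
    have hle : 𝔭 ≤ p.1 := hann ▸ kill_iff.1 hk
    rcases hle.eq_or_lt with he | hlt
    · refine ⟨1, fun _ => one_pos, fun χ hχ _ => ?_⟩
      rw [hχ.congr f kill_bot, he]
      simp
    · refine ⟨0, fun h' => absurd (hann ▸ h') (not_le_of_gt hlt), fun χ hχ hv => ?_⟩
      rw [hχ.congr f kill_bot, hv p.1 p.2 hlt]
      simp
  | exact N₁ N₂ N₃ f g hf hg hfg h₁ h₃ =>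
    intro hk
    obtain ⟨ν₁, hp₁, hv₁⟩ := h₁ (hk.of_injective f hf)
    obtain ⟨ν₃, hp₃, hv₃⟩ := h₃ (hk.of_surjective g hg)
    refine ⟨ν₁ + ν₃, fun hle => ?_, fun χ hχ hv => ?_⟩
    · have hmul : Module.annihilator R N₁ * Module.annihilator R N₃ ≤ 𝔭 := by
        refine le_trans (Ideal.mul_le.2 fun a ha c hc => Module.mem_annihilator.2 fun y => ?_) hle
        have hy : g (c • y) = 0 := by
          rw [map_smul]
          exact Module.mem_annihilator.1 hc _
        obtain ⟨z, hz⟩ := (hfg _).1 hy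
        rw [mul_smul, ← hz, ← map_smul, Module.mem_annihilator.1 ha z, map_zero]
      rcases h𝔭.mul_le.1 hmul with h' | h'
      · exact Nat.add_pos_left (hp₁ h') _
      · exact Nat.add_pos_right _ (hp₃ h')
    · rw [hχ N₁ N₂ N₃ f g hf hg hfg kill_bot, hv₁ χ hχ hv, hv₃ χ hχ hv]
      push_cast
      ring

theorem annihilator_compHom (ψ : R →+* R') (I : Ideal R') :
    @Module.annihilator R (R' ⧸ I) _ _ (Module.compHom (R' ⧸ I) ψ) = I.comap ψ := by
  let : Module R (R' ⧸ I) := Module.compHom (R' ⧸ I) ψ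
  ext x
  have h1 : ψ x ∈ Module.annihilator R' (R' ⧸ I) ↔ ψ x ∈ I := by
    rw [Ideal.annihilator_quotient]
  rw [Module.mem_annihilator, Ideal.mem_comap, ← h1, Module.mem_annihilator]
  rfl

theorem Van.push [IsNoetherianRing R] (ψ : R →+* R') (hψ : ψ.Finite) (h : IsAdd χ ⊥)
    {𝔭 : Ideal R'} (h𝔭 : 𝔭.IsPrime) (hv : Van χ (𝔭.comap ψ)) : Van (push ψ χ) 𝔭 := by
  intro P hP hlt
  let : Module R (R' ⧸ P) := Module.compHom (R' ⧸ P) ψ
  have : Module.Finite R (R' ⧸ P) := finite_compHom ψ hψ (R' ⧸ P)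
  have hlt' : 𝔭.comap ψ < P.comap ψ := by
    let : Algebra R R' := ψ.toAlgebra
    have : Module.Finite R R' := hψ
    obtain ⟨x, hxP, hx𝔭⟩ := SetLike.exists_of_lt hlt
    exact Ideal.comap_lt_comap_of_integral_mem_sdiff (R := R) hlt.le ⟨hxP, hx𝔭⟩
      (Algebra.IsIntegral.isIntegral x)
  refine val_of_primes h (R' ⧸ P) kill_bot fun Q hQ hle => hv Q hQ (hlt'.trans_le ?_)
  rwa [annihilator_compHom] at hle

/-- the generic degree of a finite map -/
theorem exists_deg [IsNoetherianRing R] (ψ : R →+* R') (hψ : ψ.Finite) (𝔭 : Ideal R')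
    (h𝔭 : 𝔭.IsPrime) : ∃ ν : ℕ, 0 < ν ∧ ∀ χ : Val R, IsAdd χ ⊥ → Van χ (𝔭.comap ψ) →
      (push ψ χ).val (R' ⧸ 𝔭) = ν * χ.val (R ⧸ 𝔭.comap ψ) := by
  let : Module R (R' ⧸ 𝔭) := Module.compHom (R' ⧸ 𝔭) ψ
  have : Module.Finite R (R' ⧸ 𝔭) := finite_compHom ψ hψ (R' ⧸ 𝔭)
  have hann : Module.annihilator R (R' ⧸ 𝔭) = 𝔭.comap ψ := annihilator_compHom ψ 𝔭
  obtain ⟨ν, hν, hv⟩ := exists_mult (𝔭.comap ψ) (h𝔭.comap ψ) (R' ⧸ 𝔭) (kill_iff.2 hann.ge)
  exact ⟨ν, hν hann.le, hv⟩

theorem rk0_le_one (R : Type) [CommRing R] [IsNoetherianRing R] (Φ : Val R → ℚ)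
    (hlin : ∀ s t χ χ', Φ (Val.lin s t χ χ') = s * Φ χ + t * Φ χ')
    (h : ∀ χ : Val R, IsAdd χ ⊥ → Φ χ = 0 →
      ∀ (M : Type) [AddCommGroup M] [Module R M] [Module.Finite R M], χ.val M = 0) :
    rk0 R ≤ 1 := by
  classical
  let ch : Module.Dual ℚ (ℚ ⊗[ℤ] G0 R) → Val R := fun lam =>
    ⟨fun M _ _ => if hM : Module.Finite R M then
      lam ((1 : ℚ) ⊗ₜ[ℤ] (QuotientAddGroup.mk (FreeAbelianGroup.of (@FG.mk R _ M _ _ hM)) : G0 R))
      else 0⟩
  have hadd : ∀ lam, IsAdd (ch lam) ⊥ := by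
    intro lam M N P _ _ _ _ _ _ hN f g hf hg he _
    have hM : Module.Finite R M := Module.Finite.of_injective f hf
    have hP : Module.Finite R P := Module.Finite.of_surjective g hg
    simp only [ch]
    rw [dif_pos hM, dif_pos hN, dif_pos hP, ← map_add, ← TensorProduct.tmul_add,
      ← QuotientAddGroup.mk_add]
    congr 2
    rw [eq_comm, QuotientAddGroup.eq]
    refine AddSubgroup.subset_closure ⟨⟨M⟩, ⟨N⟩, ⟨P⟩, f, g, hf, hg, he, ?_⟩
    abel
  have hchl : ∀ (s t : ℚ) l l', ch (s • l + t • l') = Val.lin s t (ch l) (ch l') := by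
    intro s t l l'
    simp only [ch, Val.lin]
    congr 1
    funext M _ _
    split_ifs <;> simp
  have hzero : ∀ lam, Φ (ch lam) = 0 → lam = 0 := by
    intro lam h0
    have h1 : ∀ z : FreeAbelianGroup (FG R),
        lam ((1 : ℚ) ⊗ₜ[ℤ] (QuotientAddGroup.mk z : G0 R)) = 0 := by
      intro z
      induction z using FreeAbelianGroup.induction_on with
      | zero => simp
      | of M =>
        have h2 := h (ch lam) (hadd lam) h0 M.M
        simp only [ch] at h2
        rw [dif_pos M.fin] at h2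
        exact h2
      | neg M hM => rw [QuotientAddGroup.mk_neg, TensorProduct.tmul_neg, map_neg, hM, neg_zero]
      | add x y hx hy => rw [QuotientAddGroup.mk_add, TensorProduct.tmul_add, map_add, hx, hy,
          add_zero]
    refine LinearMap.ext fun v => ?_
    induction v using TensorProduct.induction_on with
    | zero => simp
    | tmul c y =>
      obtain ⟨z, rfl⟩ := QuotientAddGroup.mk_surjective y
      have : c ⊗ₜ[ℤ] (QuotientAddGroup.mk z : G0 R) =
          c • ((1 : ℚ) ⊗ₜ[ℤ] (QuotientAddGroup.mk z : G0 R)) := by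
        rw [TensorProduct.smul_tmul', smul_eq_mul, mul_one]
      rw [this, map_smul, h1, smul_zero, LinearMap.zero_apply]
    | add x y hx hy => rw [map_add, hx, hy, map_add]
  let Ψ : Module.Dual ℚ (ℚ ⊗[ℤ] G0 R) →ₗ[ℚ] ℚ :=
    { toFun := fun lam => Φ (ch lam)
      map_add' := fun l l' => by
        have := hchl 1 1 l l'
        rw [one_smul, one_smul] at this
        rw [this, hlin, one_mul, one_mul]
      map_smul' := fun s l => by
        have := hchl s 0 l l
        rw [zero_smul, add_zero] at this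
        rw [this, hlin, zero_mul, add_zero]
        rfl }
  have hΨ : Injective Ψ := (injective_iff_map_eq_zero Ψ).2 hzero
  have hinj := hΨ.comp (Module.Basis.ofVectorSpace ℚ (ℚ ⊗[ℤ] G0 R)).toDual_injective
  have h3 := LinearMap.lift_rank_le_of_injective
    (Ψ ∘ₗ (Module.Basis.ofVectorSpace ℚ (ℚ ⊗[ℤ] G0 R)).toDual) hinj
  rw [Module.rank_self] at h3
  simpa [rk0] using h3

end Pool.Agent.CXD
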