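import Pool.Agent.P.MP_2ce3e7_ag.CXA2

/-! Graded pieces of quotients of a graded algebra. -/

set_option linter.unusedSectionVars false
set_option linter.unusedVariables false

open Function

noncomputable section

namespace Pool.Agent.CXD

variable {P B : Type} [CommRing P] [CommRing B] [Algebra P B] (𝒜 : ℕ → Submodule P B)

/-- the image of the piece of degree `τ` in `B ⧸ I` -/
def piece (I : Ideal B) (τ : ℕ) : Submodule P (B ⧸ I) :=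
  (𝒜 τ).map (Ideal.Quotient.mkₐ P I).toLinearMap

/-- the Hilbert function for `E` -/
def Fv (E : Val P) (I : Ideal B) : ℕ → ℚ := fun τ => E.val (piece 𝒜 I τ)

/-- the sequences that vanish eventually -/
def Z0 : AddSubgroup (ℕ → ℚ) where
  carrier := {f | ∃ τ₀, ∀ τ, τ₀ ≤ τ → f τ = 0}
  zero_mem' := ⟨0, fun _ _ => rfl⟩
  add_mem' := by
    rintro f g ⟨a, ha⟩ ⟨b, hb⟩
    exact ⟨max a b, fun τ h => by
      rw [Pi.add_apply, ha τ (le_of_max_le_left h), hb τ (le_of_max_le_right h), add_zero]⟩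
  neg_mem' := by
    rintro f ⟨a, ha⟩
    exact ⟨a, fun τ h => by rw [Pi.neg_apply, ha τ h, neg_zero]⟩

/-- invariant under shifts in both directions -/
def Good (𝒢 : AddSubgroup (ℕ → ℚ)) : Prop := ∀ (f : ℕ → ℚ) (c : ℕ), (fun τ => f (τ + c)) ∈ 𝒢 ↔ f ∈ 𝒢

/-- difference operator -/
def dif (c : ℕ) : (ℕ → ℚ) →+ (ℕ → ℚ) where
  toFun f := fun τ => f (τ + c) - f τ
  map_zero' := by funext τ; simp
  map_add' f g := by funext τ; simp only [Pi.add_apply]; ring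

/-- the sequences killed eventually by the difference operators for `c j, …, c (j + m - 1)` -/
def Cls (c : ℕ → ℕ) : ℕ → ℕ → AddSubgroup (ℕ → ℚ)
  | _, 0 => Z0
  | j, m + 1 => (Cls c (j + 1) m).comap (dif (c j))

/-- eventually constant -/
def Lim (f : ℕ → ℚ) (v : ℚ) : Prop := ∃ τ₀, ∀ τ, τ₀ ≤ τ → f τ = v

theorem mem_Z0 {f : ℕ → ℚ} : f ∈ Z0 ↔ ∃ τ₀, ∀ τ, τ₀ ≤ τ → f τ = 0 := Iff.rfl

theorem good_Z0 : Good Z0 := by
  intro f c
  constructor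
  · rintro ⟨a, ha⟩
    refine ⟨a + c, fun τ h => ?_⟩
    have := ha (τ - c) (by omega)
    simpa only [show τ - c + c = τ by omega] using this
  · rintro ⟨a, ha⟩
    exact ⟨a, fun τ h => ha (τ + c) (by omega)⟩

theorem Good.dif {𝒢 : AddSubgroup (ℕ → ℚ)} (h : Good 𝒢) (c : ℕ) : Good (𝒢.comap (dif c)) := by
  intro f e
  rw [AddSubgroup.mem_comap, AddSubgroup.mem_comap, ← h (CXD.dif c f) e]
  have : CXD.dif c (fun τ => f (τ + e)) = fun τ => CXD.dif c f (τ + e) := by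
    funext τ
    change f (τ + c + e) - f (τ + e) = f (τ + e + c) - f (τ + e)
    rw [add_right_comm]
  rw [this]

theorem Good.le_dif {𝒢 : AddSubgroup (ℕ → ℚ)} (h : Good 𝒢) (c : ℕ) : 𝒢 ≤ 𝒢.comap (CXD.dif c) := by
  intro f hf
  exact 𝒢.sub_mem ((h f c).2 hf) hf

theorem good_Cls (c : ℕ → ℕ) (j m : ℕ) : Good (Cls c j m) := by
  induction m generalizing j with
  | zero => exact good_Z0
  | succ m ih => exact (ih (j + 1)).dif (c j)

theorem Lim.of_sub {f g : ℕ → ℚ} {v : ℚ} (h : f - g ∈ Z0) (hg : Lim g v) : Lim f v := by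
  obtain ⟨a, ha⟩ := h
  obtain ⟨b, hb⟩ := hg
  refine ⟨max a b, fun τ h => ?_⟩
  have h1 := ha τ (le_of_max_le_left h)
  rw [Pi.sub_apply, sub_eq_zero] at h1
  rw [h1, hb τ (le_of_max_le_right h)]

theorem Lim.eq_zero {f : ℕ → ℚ} {v : ℚ} (h : Lim f v) (h0 : f ∈ Z0) : v = 0 := by
  obtain ⟨a, ha⟩ := h
  obtain ⟨b, hb⟩ := h0
  rw [← ha (max a b) (le_max_left _ _), hb (max a b) (le_max_right _ _)]

theorem mem_piece_CXB {I : Ideal B} {τ : ℕ} (y : piece 𝒜 I τ) :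
    ∃ x ∈ 𝒜 τ, Ideal.Quotient.mk I x = y.1 := y.2

theorem mk_mem_CXB (I : Ideal B) {τ : ℕ} {x : B} (hx : x ∈ 𝒜 τ) :
    Ideal.Quotient.mk I x ∈ piece 𝒜 I τ := ⟨x, hx, rfl⟩

theorem map_CXB {I J : Ideal B} (g : B) (hIJ : ∀ x ∈ I, x * g ∈ J) {τ σ : ℕ}
    (hg : ∀ x ∈ 𝒜 τ, x * g ∈ 𝒜 σ) : ∃ f : piece 𝒜 I τ →ₗ[P] piece 𝒜 J σ,
      ∀ (y : piece 𝒜 I τ) (x : B), Ideal.Quotient.mk I x = y.1 →
        (f y).1 = Ideal.Quotient.mk J (x * g) := by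
  let φ : (B ⧸ I) →ₗ[B] (B ⧸ J) := Submodule.mapQ I J (LinearMap.mulRight B g) hIJ
  have hφ : ∀ x, φ (Ideal.Quotient.mk I x) = Ideal.Quotient.mk J (x * g) := fun x => rfl
  refine ⟨(φ.restrictScalars P).restrict (p := piece 𝒜 I τ) (q := piece 𝒜 J σ) ?_, ?_⟩
  · rintro _ ⟨x, hx, rfl⟩
    exact ⟨x * g, hg x hx, (hφ x).symm⟩
  · intro y x hx
    rw [← hφ, hx]
    rfl

variable [hf : ∀ τ, Module.Finite P (𝒜 τ)]

instance piece_finite (I : Ideal B) (τ : ℕ) : Module.Finite P (piece 𝒜 I τ) :=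
  Module.Finite.map _ _

theorem kill_piece {b : Ideal P} {I : Ideal B} (h : b.map (algebraMap P B) ≤ I) (τ : ℕ) :
    Kill b (piece 𝒜 I τ) := by
  intro a ha y
  obtain ⟨x, -, hx⟩ := mem_piece_CXB 𝒜 y
  apply Subtype.ext
  change a • y.1 = 0
  rw [← hx, ← Ideal.Quotient.mkₐ_eq_mk P, ← map_smul, Ideal.Quotient.mkₐ_eq_mk,
    Ideal.Quotient.eq_zero_iff_mem, Algebra.smul_def]
  exact I.mul_mem_right _ (h (Ideal.mem_map_of_mem _ ha))

variable [GradedAlgebra 𝒜] {𝒜} {E : Val P} {b : Ideal P} {I : Ideal B}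

theorem hom_colon (hI : I.IsHomogeneous 𝒜) {g : B} {c : ℕ} (hg : g ∈ 𝒜 c) :
    Ideal.IsHomogeneous 𝒜 (I.colon {g}) := by
  intro i x hx
  rw [Submodule.mem_colon_singleton, smul_eq_mul] at hx ⊢
  have := hI (i + c) hx
  rwa [DirectSum.coe_decompose_mul_add_of_right_mem 𝒜 hg] at this

theorem hom_sup (hI : I.IsHomogeneous 𝒜) {g : B} {c : ℕ} (hg : g ∈ 𝒜 c) :
    (I ⊔ Ideal.span {g}).IsHomogeneous 𝒜 := by
  refine hI.sup (Ideal.homogeneous_span 𝒜 _ ?_)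
  rintro _ rfl
  exact ⟨c, hg⟩

theorem comp_CXB (hI : I.IsHomogeneous 𝒜) {g : B} {c : ℕ} (hg : g ∈ 𝒜 c) {τ : ℕ} {x : B}
    (hx : x ∈ 𝒜 (τ + c)) (h : x ∈ I ⊔ Ideal.span {g}) : ∃ w ∈ 𝒜 τ, x - w * g ∈ I := by
  obtain ⟨i, hi, z, hz, rfl⟩ := Submodule.mem_sup.1 h
  obtain ⟨w, rfl⟩ := Ideal.mem_span_singleton'.1 hz
  refine ⟨DirectSum.decompose 𝒜 w τ, SetLike.coe_mem _, ?_⟩
  have h1 := DirectSum.decompose_of_mem_same 𝒜 hx
  rw [DirectSum.decompose_add, DirectSum.add_apply, Submodule.coe_add,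
    DirectSum.coe_decompose_mul_add_of_right_mem 𝒜 hg] at h1
  rw [← h1, add_sub_cancel_right]
  exact hI (τ + c) hi

theorem factor_CXB (I : Ideal B) (g : B) (σ : ℕ) :
    ∃ f : piece 𝒜 I σ →ₗ[P] piece 𝒜 (I ⊔ Ideal.span {g}) σ, Surjective f ∧
      ∀ (y : piece 𝒜 I σ) (x : B), Ideal.Quotient.mk I x = y.1 →
        (f y = 0 ↔ x ∈ I ⊔ Ideal.span {g}) := by
  obtain ⟨f, hf⟩ := map_CXB 𝒜 (I := I) (J := I ⊔ Ideal.span {g}) 1
    (fun x hx => by rw [mul_one]; exact Ideal.mem_sup_left hx) (τ := σ) (σ := σ)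
    (fun x hx => by rwa [mul_one])
  refine ⟨f, fun y => ?_, fun y x hx => ?_⟩
  · obtain ⟨x, h1, h2⟩ := mem_piece_CXB 𝒜 y
    refine ⟨⟨_, mk_mem_CXB 𝒜 I h1⟩, Subtype.ext ?_⟩
    rw [hf _ x rfl, mul_one, h2]
  · rw [Subtype.ext_iff, hf y x hx, mul_one]
    exact Ideal.Quotient.eq_zero_iff_mem

theorem Fv_cut (hE : IsAdd E b) (hb : b.map (algebraMap P B) ≤ I) (hI : I.IsHomogeneous 𝒜)
    {g : B} {c : ℕ} (hg : g ∈ 𝒜 c) (τ : ℕ) :
    Fv 𝒜 E I (τ + c) = Fv 𝒜 E (I.colon {g}) τ + Fv 𝒜 E (I ⊔ Ideal.span {g}) (τ + c) := by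
  obtain ⟨f, hf⟩ := map_CXB 𝒜 (I := I.colon {g}) (J := I) g
    (fun x hx => Submodule.mem_colon_singleton.1 hx) (τ := τ) (σ := τ + c)
    (fun x hx => SetLike.mul_mem_graded hx hg)
  obtain ⟨f', h1, h2⟩ := factor_CXB (𝒜 := 𝒜) I g (τ + c)
  refine hE _ _ _ f f' ?_ h1 (fun y => ?_) (kill_piece 𝒜 hb _)
  · refine (injective_iff_map_eq_zero f).2 fun y hy => ?_
    obtain ⟨x, -, hx⟩ := mem_piece_CXB 𝒜 y
    have h3 := hf y x hx
    rw [hy] at h3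
    apply Subtype.ext
    rw [← hx]
    exact Ideal.Quotient.eq_zero_iff_mem.2
      (Submodule.mem_colon_singleton.2 (Ideal.Quotient.eq_zero_iff_mem.1 h3.symm))
  · obtain ⟨x, hx, hxy⟩ := mem_piece_CXB 𝒜 y
    rw [h2 y x hxy]
    constructor
    · intro h
      obtain ⟨w, hw, h3⟩ := comp_CXB hI hg hx h
      refine ⟨⟨_, mk_mem_CXB 𝒜 _ hw⟩, Subtype.ext ?_⟩
      rw [hf _ w rfl, ← hxy]
      exact (Ideal.Quotient.eq.2 h3).symm
    · rintro ⟨z, rfl⟩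
      obtain ⟨w, -, hw⟩ := mem_piece_CXB 𝒜 z
      rw [hf z w hw, Ideal.Quotient.eq] at hxy
      have : x = x - w * g + w * g := by ring
      rw [this]
      exact Submodule.add_mem_sup hxy (Ideal.mem_span_singleton'.2 ⟨w, rfl⟩)

theorem Fv_rho {a : P} (hE : IsAdd E (b ⊔ Ideal.span {a})) (hb : b.map (algebraMap P B) ≤ I)
    (hI : I.IsHomogeneous 𝒜) (ha : ∀ x, algebraMap P B a * x ∈ I → x ∈ I) :
    Fv 𝒜 (rho a E) I = Fv 𝒜 E (I ⊔ Ideal.span {algebraMap P B a}) := by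
  funext τ
  obtain ⟨f', h1, h2⟩ := factor_CXB (𝒜 := 𝒜) I (algebraMap P B a) τ
  have hs : ∀ (y : piece 𝒜 I τ) (x : B), Ideal.Quotient.mk I x = y.1 →
      (a • y).1 = Ideal.Quotient.mk I (algebraMap P B a * x) := fun y x hx => by
    change a • y.1 = _
    rw [← hx, ← Algebra.smul_def, ← Ideal.Quotient.mkₐ_eq_mk P, map_smul]
  refine rho_reg hE (kill_piece 𝒜 hb τ) (fun y hy => ?_) f' h1 fun y => ?_
  · obtain ⟨x, -, hx⟩ := mem_piece_CXB 𝒜 y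
    have h3 := hs y x hx
    rw [hy] at h3
    apply Subtype.ext
    rw [← hx]
    exact Ideal.Quotient.eq_zero_iff_mem.2 (ha x (Ideal.Quotient.eq_zero_iff_mem.1 h3.symm))
  · obtain ⟨x, hx, hxy⟩ := mem_piece_CXB 𝒜 y
    rw [h2 y x hxy]
    constructor
    · intro h
      obtain ⟨w, hw, h3⟩ := comp_CXB hI (SetLike.algebraMap_mem_graded 𝒜 a) (τ := τ) hx h
      refine ⟨⟨_, mk_mem_CXB 𝒜 _ hw⟩, Subtype.ext ?_⟩
      rw [hs _ w rfl, ← hxy, mul_comm]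
      exact (Ideal.Quotient.eq.2 h3).symm
    · rintro ⟨z, rfl⟩
      obtain ⟨w, -, hw⟩ := mem_piece_CXB 𝒜 z
      rw [hs z w hw, Ideal.Quotient.eq] at hxy
      have : x = x - algebraMap P B a * w + w * algebraMap P B a := by ring
      rw [this]
      exact Submodule.add_mem_sup hxy (Ideal.mem_span_singleton'.2 ⟨w, rfl⟩)

theorem Fv_rho_zero {a : P} (hE : IsAdd E (b ⊔ Ideal.span {a})) (hb : b.map (algebraMap P B) ≤ I)
    (ha : algebraMap P B a ∈ I) : Fv 𝒜 (rho a E) I = 0 := by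
  funext τ
  refine rho_zero hE (kill_piece 𝒜 ?_ τ)
  rw [Ideal.map_sup, Ideal.map_span, Set.image_singleton]
  exact sup_le hb ((Ideal.span_singleton_le_iff_mem _).2 ha)

end Pool.Agent.CXD
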