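import Pool.Agent.P.MP_2ce3e7_ag.CXB

/-! Noetherian induction on homogeneous ideals. -/

set_option linter.unusedSectionVars false
set_option linter.unusedVariables false

open Function

noncomputable section

namespace Pool.Agent.CXD

variable {P B : Type} [CommRing P] [CommRing B] [Algebra P B] {𝒜 : ℕ → Submodule P B}
  [hf : ∀ τ, Module.Finite P (𝒜 τ)] [GradedAlgebra 𝒜] {E : Val P} {b : Ideal P} {I : Ideal B}

theorem le_colon_CXB2 (I : Ideal B) (g : B) : I ≤ I.colon {g} := fun x hx => by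
  rw [Submodule.mem_colon_singleton, smul_eq_mul]
  exact I.mul_mem_right g hx

theorem lt_sup_CXB2 {I : Ideal B} {g : B} (hg : g ∉ I) : I < I ⊔ Ideal.span {g} := by
  refine lt_of_le_of_ne le_sup_left fun h => hg ?_
  rw [h]
  exact Ideal.mem_sup_right (Ideal.mem_span_singleton_self g)

theorem Fv_of_primes [IsNoetherianRing B] {𝒢 : AddSubgroup (ℕ → ℚ)} (h𝒢 : Good 𝒢) (hE : IsAdd E b)
    (hb : b.map (algebraMap P B) ≤ I) (hI : I.IsHomogeneous 𝒜)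
    (h : ∀ J : Ideal B, J.IsPrime → J.IsHomogeneous 𝒜 → I ≤ J → Fv 𝒜 E J ∈ 𝒢) : Fv 𝒜 E I ∈ 𝒢 := by
  revert hb hI h
  refine IsNoetherian.induction (P := fun I : Ideal B => b.map (algebraMap P B) ≤ I →
    I.IsHomogeneous 𝒜 → (∀ J : Ideal B, J.IsPrime → J.IsHomogeneous 𝒜 → I ≤ J → Fv 𝒜 E J ∈ 𝒢) →
    Fv 𝒜 E I ∈ 𝒢) ?_ I
  intro I ih hb hI h
  by_cases ht : I = ⊤
  · have h0 : Fv 𝒜 E I = 0 := by
      funext τ
      have : Subsingleton (B ⧸ I) := Ideal.Quotient.subsingleton_iff.2 ht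
      exact hE.zero _
    rw [h0]
    exact zero_mem _
  by_cases hp : Ideal.IsPrime I
  · exact h I hp hI le_rfl
  have hex : ∃ x y : B, SetLike.IsHomogeneousElem 𝒜 x ∧ x * y ∈ I ∧ x ∉ I ∧ y ∉ I := by
    by_contra hne
    refine hp (hI.isPrime_of_homogeneous_mem_or_mem ht ?_)
    intro x y hx hy hxy
    by_contra hor
    rw [not_or] at hor
    exact hne ⟨x, y, hx, hxy, hor.1, hor.2⟩
  obtain ⟨x, y, ⟨c, hx⟩, hxy, hxI, hyI⟩ := hex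
  have h1 : I < I.colon {x} := by
    refine lt_of_le_of_ne (le_colon_CXB2 I x) fun he => hyI ?_
    rw [he, Submodule.mem_colon_singleton, smul_eq_mul, mul_comm]
    exact hxy
  have h2 : I < I ⊔ Ideal.span {x} := lt_sup_CXB2 hxI
  have i1 : Fv 𝒜 E (I.colon {x}) ∈ 𝒢 := ih _ h1 (hb.trans h1.le) (hom_colon hI hx)
    fun J hJ hJh hle => h J hJ hJh (h1.le.trans hle)
  have i2 : Fv 𝒜 E (I ⊔ Ideal.span {x}) ∈ 𝒢 := ih _ h2 (hb.trans h2.le) (hom_sup hI hx)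
    fun J hJ hJh hle => h J hJ hJh (h2.le.trans hle)
  have key : (fun τ => Fv 𝒜 E I (τ + c)) =
      Fv 𝒜 E (I.colon {x}) + fun τ => Fv 𝒜 E (I ⊔ Ideal.span {x}) (τ + c) := by
    funext τ
    exact Fv_cut hE hb hI hx τ
  rw [← h𝒢 _ c, key]
  exact add_mem i1 ((h𝒢 _ c).2 i2)

theorem Fv_sat [IsNoetherianRing B] {𝒢 : AddSubgroup (ℕ → ℚ)} (h𝒢 : Good 𝒢) (hE : IsAdd E b)
    (hb : b.map (algebraMap P B) ≤ I) (hI : I.IsHomogeneous 𝒜) {K : Ideal B}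
    (hK : K.IsHomogeneous 𝒜) (hIK : I ≤ K) (T : Set B) (hT : ∀ F ∈ K, ∃ u ∈ T, u * F ∈ I)
    (h : ∀ J : Ideal B, J.IsHomogeneous 𝒜 → I ≤ J → (∃ u ∈ T, u ∈ J) → Fv 𝒜 E J ∈ 𝒢) :
    Fv 𝒜 E I - Fv 𝒜 E K ∈ 𝒢 := by
  classical
  revert hb hI hIK hT h
  refine IsNoetherian.induction (P := fun I : Ideal B => b.map (algebraMap P B) ≤ I →
    I.IsHomogeneous 𝒜 → I ≤ K → (∀ F ∈ K, ∃ u ∈ T, u * F ∈ I) →
    (∀ J : Ideal B, J.IsHomogeneous 𝒜 → I ≤ J → (∃ u ∈ T, u ∈ J) → Fv 𝒜 E J ∈ 𝒢) →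
    Fv 𝒜 E I - Fv 𝒜 E K ∈ 𝒢) ?_ I
  intro I ih hb hI hIK hT h
  by_cases hKI : K ≤ I
  · rw [le_antisymm hIK hKI, sub_self]
    exact zero_mem _
  obtain ⟨F, hFK, hFI⟩ := SetLike.not_le_iff_exists.1 hKI
  have hex : ∃ c, (DirectSum.decompose 𝒜 F c : B) ∉ I := by
    by_contra hne
    refine hFI ?_
    rw [← DirectSum.sum_support_decompose 𝒜 F]
    refine Ideal.sum_mem _ fun c _ => ?_
    by_contra hc
    exact hne ⟨c, hc⟩
  obtain ⟨c, hc⟩ := hex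
  have hgK : (DirectSum.decompose 𝒜 F c : B) ∈ K := hK c hFK
  have hg : (DirectSum.decompose 𝒜 F c : B) ∈ 𝒜 c := (DirectSum.decompose 𝒜 F c).2
  generalize (DirectSum.decompose 𝒜 F c : B) = g at hc hgK hg
  have h2 : I < I ⊔ Ideal.span {g} := lt_sup_CXB2 hc
  have i1 : Fv 𝒜 E (I.colon {g}) ∈ 𝒢 := by
    refine h _ (hom_colon hI hg) (le_colon_CXB2 I g) ?_
    obtain ⟨u, huT, hu⟩ := hT g hgK
    refine ⟨u, huT, ?_⟩
    rw [Submodule.mem_colon_singleton, smul_eq_mul]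
    exact hu
  have i2 : Fv 𝒜 E (I ⊔ Ideal.span {g}) - Fv 𝒜 E K ∈ 𝒢 := by
    refine ih _ h2 (hb.trans h2.le) (hom_sup hI hg)
      (sup_le hIK ((Ideal.span_singleton_le_iff_mem K).2 hgK)) ?_ ?_
    · intro F' hF'
      obtain ⟨u, huT, hu⟩ := hT F' hF'
      exact ⟨u, huT, h2.le hu⟩
    · exact fun J hJ hle hu => h J hJ (h2.le.trans hle) hu
  have key : (fun τ => (Fv 𝒜 E I - Fv 𝒜 E K) (τ + c)) = Fv 𝒜 E (I.colon {g}) +
      fun τ => (Fv 𝒜 E (I ⊔ Ideal.span {g}) - Fv 𝒜 E K) (τ + c) := by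
    funext τ
    simp only [Pi.add_apply, Pi.sub_apply]
    rw [Fv_cut hE hb hI hg τ]
    ring
  rw [← h𝒢 _ c, key]
  exact add_mem i1 ((h𝒢 _ c).2 i2)

theorem Fv_prod (hE : IsAdd E b) {h : B} {c : ℕ} (hh : h ∈ 𝒜 c) (K : ℕ → Ideal B) (e : ℕ)
    (hb : ∀ i ≤ e, b.map (algebraMap P B) ≤ K i) (hK : ∀ i ≤ e, (K i).IsHomogeneous 𝒜)
    (hc : ∀ i < e, (K (i + 1)).colon {h} = K i) {v w : ℚ} (hv : Lim (Fv 𝒜 E (K 0)) v)
    (hw : ∀ i < e, Lim (Fv 𝒜 E (K (i + 1) ⊔ Ideal.span {h})) w) :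
    Lim (Fv 𝒜 E (K e)) (v + e * w) := by
  induction e with
  | zero => simpa using hv
  | succ e ih =>
    obtain ⟨τ₀, h0⟩ := ih (fun i hi => hb i (Nat.le_succ_of_le hi))
      (fun i hi => hK i (Nat.le_succ_of_le hi)) (fun i hi => hc i (Nat.lt_succ_of_lt hi))
      (fun i hi => hw i (Nat.lt_succ_of_lt hi))
    obtain ⟨τ₁, h1⟩ := hw e (Nat.lt_succ_self e)
    refine ⟨τ₀ + τ₁ + c, fun τ hτ => ?_⟩
    obtain ⟨σ, rfl⟩ : ∃ σ, τ = σ + c := ⟨τ - c, by omega⟩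
    rw [Fv_cut hE (hb _ le_rfl) (hK _ le_rfl) hh σ, hc e (Nat.lt_succ_self e), h0 σ (by omega),
      h1 _ (by omega)]
    push_cast
    ring

theorem Fv_dif (hE : IsAdd E b) (hb : b.map (algebraMap P B) ≤ I) (hI : I.IsHomogeneous 𝒜)
    (hp : I.IsPrime) {g : B} {c : ℕ} (hg : g ∈ 𝒜 c) (hgI : g ∉ I) {𝒢 : AddSubgroup (ℕ → ℚ)}
    (h𝒢 : Good 𝒢) : Fv 𝒜 E I ∈ 𝒢.comap (dif c) ↔ Fv 𝒜 E (I ⊔ Ideal.span {g}) ∈ 𝒢 := by
  have hcol : I.colon {g} = I := by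
    refine le_antisymm (fun x hx => ?_) (le_colon_CXB2 I g)
    rw [Submodule.mem_colon_singleton, smul_eq_mul] at hx
    exact (hp.mem_or_mem hx).resolve_right hgI
  have key : dif c (Fv 𝒜 E I) = fun τ => Fv 𝒜 E (I ⊔ Ideal.span {g}) (τ + c) := by
    funext τ
    have h1 := Fv_cut hE hb hI hg τ
    rw [hcol] at h1
    change Fv 𝒜 E I (τ + c) - Fv 𝒜 E I τ = _
    rw [h1]
    ring
  rw [AddSubgroup.mem_comap, key]
  exact h𝒢 _ c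

end Pool.Agent.CXD
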