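import Pool.Agent.P.MP_2ce3e7_ag.CXG

/-! The three families satisfy the common hypotheses. -/

set_option linter.unusedSectionVars false
set_option linter.unusedVariables false

open MvPolynomial

noncomputable section

namespace Pool.Agent.CXD

variable {n p r Q κ : ℕ}

theorem res_unitary {p e m j w : ℕ} (hp : p.Prime) (he : 0 < e) (hm : 0 < m) :
    (w : ℚ) ^ (2 * e * m) ≠ (-((p ^ e * ((p ^ e) ^ 2) ^ j : ℕ) : ℚ)) ^ m := by
  intro h
  have h1 : ((w ^ (2 * e * m) : ℕ) : ℚ) = (((p ^ e * ((p ^ e) ^ 2) ^ j) ^ m : ℕ) : ℚ) := by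
    have h2 := congrArg abs h
    rw [abs_pow, abs_pow, abs_neg, Nat.abs_cast, Nat.abs_cast] at h2
    rw [Nat.cast_pow, h2, Nat.cast_pow _ m]
  have h3 : w ^ (2 * e * m) = p ^ (e * (2 * j + 1) * m) := by
    rw [Nat.cast_injective h1]
    ring
  have h4 := congrArg (fun x => x.factorization p) h3
  simp only [Nat.factorization_pow, Finsupp.smul_apply, smul_eq_mul,
    hp.factorization_self, mul_one] at h4
  have h5 : e * m * (2 * w.factorization p) = e * m * (2 * j + 1) := by
    calc e * m * (2 * w.factorization p) = 2 * e * m * w.factorization p := by ring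
      _ = e * (2 * j + 1) * m := h4
      _ = e * m * (2 * j + 1) := by ring
  have h6 := Nat.eq_of_mul_eq_mul_left (Nat.mul_pos he hm) h5
  omega

theorem res_odd {f m x w : ℕ} (hm : Odd m) (hw : 0 < w) : (w : ℚ) ^ f ≠ (-(x : ℚ)) ^ m := by
  intro h
  rw [hm.neg_pow] at h
  have h1 : (0 : ℚ) < (w : ℚ) ^ f := by positivity
  have h2 : (0 : ℚ) ≤ (x : ℚ) ^ m := by positivity
  linarith

theorem hyp_unitary {k : Type} [Field k] [CharP k p] {G : Matrix (Fin n) (Fin n) k} {e : ℕ}
    (hp : p.Prime) (he : 0 < e) (hκ : 0 < κ) (hG : G.det ≠ 0) (h : Unitary G (p ^ e) r Q κ) :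
    ∃ ex, Hyp p G r Q κ 1 ex 1 := by
  have hfix : ∀ a b, G a b ^ Q = G a b := by
    intro a b
    rw [h.hQ, pow_two, pow_mul, ← h.herm b a, ← h.herm a b]
  have key : ∀ ex, ex ≤ 1 → n = 2 * κ + 1 + ex → Hyp p G r Q κ 1 ex 1 := by
    intro ex h1 h2
    exact
      { prime := hp
        char := inferInstance
        hr := ⟨e, h.hr⟩
        hQ := ⟨e * 2, by omega, by rw [h.hQ, pow_mul]⟩
        hδ := le_rfl
        hex := h1
        hκ := hκ
        dim := h2
        hQr := by rw [pow_one, h.hQ, h.hr, pow_two]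
        sym := fun a b => by rw [one_mul, h.hr]; exact h.herm a b
        unit := isUnit_one
        fix := hfix
        det := isUnit_iff_ne_zero.mpr hG
        alt := fun h0 => by omega }
  rcases h.dim with h1 | h1
  · exact ⟨0, key 0 (by omega) (by omega)⟩
  · exact ⟨1, key 1 le_rfl (by omega)⟩

theorem hyp_symplectic {k : Type} [Field k] [CharP k p] {G : Matrix (Fin n) (Fin n) k} {e : ℕ}
    (hp : p.Prime) (he : 0 < e) (hκ : 0 < κ) (hG : G.det ≠ 0) (h : Symplectic G (p ^ e) r Q κ) :
    Hyp p G r Q κ 0 0 (-1) := by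
  exact
    { prime := hp
      char := inferInstance
      hr := ⟨0, by rw [h.hr, pow_zero]⟩
      hQ := ⟨e, he, h.hQ⟩
      hδ := by omega
      hex := by omega
      hκ := hκ
      dim := by rw [h.dim]; rfl
      hQr := by rw [pow_zero, h.hr, mul_one]
      sym := fun a b => by rw [h.hr, pow_one, neg_one_mul]; exact h.skew a b
      unit := isUnit_one.neg
      fix := fun a b => by rw [h.hQ]; exact h.fix a b
      det := isUnit_iff_ne_zero.mpr hG
      alt := fun _ => by
        unfold bj bform
        rw [h.hr, ← Finset.sum_product']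
        refine Finset.sum_involution (fun x _ => x.swap) ?_ ?_ ?_ ?_
        · rintro ⟨a, b⟩ _
          simp only [Prod.swap, Matrix.map_apply, pow_zero, pow_one]
          rw [h.skew a b, map_neg]
          ring
        · rintro ⟨a, b⟩ _ hne heq
          apply hne
          have hab : b = a := congrArg Prod.fst heq
          subst hab
          simp only [Matrix.map_apply, h.diag, map_zero, mul_zero, zero_mul]
        · intro x _
          simp
        · intro x _
          simp }

theorem hyp_orthogonal {k : Type} [Field k] [CharP k p] {G : Matrix (Fin n) (Fin n) k} {e : ℕ}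
    (hp : p.Prime) (he : 0 < e) (hκ : 0 < κ) (hG : G.det ≠ 0) (h : Orthogonal G (p ^ e) r Q κ) :
    Hyp p G r Q κ 0 1 1 := by
  exact
    { prime := hp
      char := inferInstance
      hr := ⟨0, by rw [h.hr, pow_zero]⟩
      hQ := ⟨e, he, h.hQ⟩
      hδ := by omega
      hex := le_rfl
      hκ := hκ
      dim := by rw [h.dim]
      hQr := by rw [pow_zero, h.hr, mul_one]
      sym := fun a b => by rw [h.hr, pow_one, one_mul]; exact h.symm a b
      unit := isUnit_one
      fix := fun a b => by rw [h.hQ]; exact h.fix a b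
      det := isUnit_iff_ne_zero.mpr hG
      alt := fun h0 => by omega }

end Pool.Agent.CXD
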