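import Pool.Agent.P.MP_2ce3e7_ag.CXM

/-! The relation between the Frobenius images. -/

set_option linter.unusedSectionVars false
set_option linter.unusedVariables false

open MvPolynomial
open scoped TensorProduct

noncomputable section

namespace Pool.Agent.CXD

attribute [local instance] MvPolynomial.gradedAlgebra

variable {n : ℕ} {K L : Type} [CommRing K] [Field L] [IsNoetherianRing K]
  {p r Q κ δ ex : ℕ} {G : Matrix (Fin n) (Fin n) K} {η : K} {σ : Po n K →+* L}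
  {χ : Val (Po n K)} {a₀ s t : ℕ} {E : Matrix (Fin n) (Fin n) L}

theorem C_mem_gr (f : Po n K) : (C f : Bo n K) ∈ gr n (Po n K) 0 := isHomogeneous_C _ _

theorem tw_ne {g : Bo n K} {i : Fin n} {c : L} (hc : c ≠ 0) (hg : tw σ E s t g = X i * C c) :
    tw σ E s t g ≠ 0 := by
  rw [hg]
  exact mul_ne_zero (X_ne_zero i) (by simpa using hc)

theorem isUnit_C {c : L} (hc : c ≠ 0) : IsUnit (C c : Po n L) := (IsUnit.mk0 c hc).map C

/-- passage to the saturation -/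
theorem sat_step (h : Hyp p G r Q κ δ ex η) (hg : Gen G r Q κ δ σ a₀ E)
    (hχ : Chi G r Q κ (RingHom.ker σ) χ) (hd : κ + ex * δ ≤ s)
    (hJ : (Jw σ E s t).IsHomogeneous (gr n (Po n K))) {g : Bo n K} {c : ℕ}
    (hgc : g ∈ gr n (Po n K) c) {I : Ideal (Bo n K)} (hI : I.IsHomogeneous (gr n (Po n K)))
    (h1 : Jw σ E s t ⊔ Ideal.span {g} ≤ I) (h2 : I ≤ Kw σ E s t g) {l m : ℕ} (hl : l + m = κ + 1)
    (hb : (lev (eqn G r Q κ) l).map C ≤ I) :
    Fv (gr n (Po n K)) (Eu χ (eqn G r Q κ) l m) I -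
      Fv (gr n (Po n K)) (Eu χ (eqn G r Q κ) l m) (Kw σ E s t g) ∈ Z0 := by
  obtain ⟨k1, k2⟩ := Kw_hom hg.bas.det hg.den hg.pri.hom hJ hgc
  have hE : IsAdd (Eu χ (eqn G r Q κ) l m) (lev (eqn G r Q κ) l) :=
    isAdd_Eu l m (by rw [hl]; exact hχ.add)
  have hex := h.hex
  have hle : ex * δ ≤ δ := by nlinarith
  refine Fv_sat good_Z0 hE hb hI k1 h2 (Tset (RingHom.ker σ))
    (fun F hF => (k2 F hF).imp fun u hu => ⟨hu.1, h1 hu.2⟩) fun J hJ' hIJ hu => ?_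
  have hJJ : Jw σ E s t ≤ J := (le_sup_left.trans h1).trans hIJ
  exact neg_a (a₀ := a₀) h hg.pri hχ m l hl ⟨hJ', ker_le_Jw.trans hJJ, hu⟩ (hb.trans hIJ)
    fun j hj => hJJ (sec_mem h hg (by omega) (by omega))

/-- cutting with an equation -/
theorem eqn_step (h : Hyp p G r Q κ δ ex η) (hg : Gen G r Q κ δ σ a₀ E)
    (hχ : Chi G r Q κ (RingHom.ker σ) χ) (hd : κ + ex * δ ≤ s)
    (hJ : (Jw σ E s t).IsHomogeneous (gr n (Po n K))) {l m : ℕ} (hl : l + 1 + m = κ + 1)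
    (hb : (lev (eqn G r Q κ) l).map C ≤ Jw σ E s t)
    (hne : tw σ E s t (C (eqn G r Q κ l)) ≠ 0) {v : ℚ}
    (hv : Lim (Fv (gr n (Po n K)) (Eu χ (eqn G r Q κ) (l + 1) m)
      (Kw σ E s t (C (eqn G r Q κ l)))) v) :
    Lim (Fv (gr n (Po n K)) (Eu χ (eqn G r Q κ) l (m + 1)) (Jw σ E s t)) v := by
  have hE : IsAdd (Eu χ (eqn G r Q κ) (l + 1) m)
      (lev (eqn G r Q κ) l ⊔ Ideal.span {eqn G r Q κ l}) := by
    rw [← lev_succ]
    exact isAdd_Eu (l + 1) m (by rw [hl]; exact hχ.add)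
  rw [Eu, Fv_rho hE hb hJ fun x hx => (Jw_prime.mem_or_mem hx).resolve_left hne]
  refine Lim.of_sub (sat_step h hg hχ hd hJ (C_mem_gr _) (hom_sup hJ (C_mem_gr _)) le_rfl
    sup_le_Kw hl ?_) hv
  rw [lev_succ, Ideal.map_sup, Ideal.map_span, Set.image_singleton]
  exact sup_le_sup_right hb _

/-- an equation that is a product of powers of two linear forms -/
theorem prod_step (h : Hyp p G r Q κ δ ex η) (hg : Gen G r Q κ δ σ a₀ E)
    (hχ : Chi G r Q κ (RingHom.ker σ) χ) (hd : κ + ex * δ ≤ s)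
    (hJ : (Jw σ E s t).IsHomogeneous (gr n (Po n K))) {l m : ℕ} (hl : l + 1 + m = κ + 1)
    (hb : (lev (eqn G r Q κ) l).map C ≤ Jw σ E s t) {g g' : Bo n K} {c c' e : ℕ}
    (hgc : g ∈ gr n (Po n K) c) (hgc' : g' ∈ gr n (Po n K) c') {i i' : Fin n} {x x' y : L}
    (hx : x ≠ 0) (hx' : x' ≠ 0) (hy : y ≠ 0) (e1 : tw σ E s t g = X i * C x)
    (e2 : tw σ E s t g' = X i' * C x')
    (e3 : tw σ E s t (C (eqn G r Q κ l)) = X i * X i' ^ e * C y) {v w : ℚ}
    (hv : Lim (Fv (gr n (Po n K)) (Eu χ (eqn G r Q κ) (l + 1) m) (Kw σ E s t g)) v)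
    (hw : Lim (Fv (gr n (Po n K)) (Eu χ (eqn G r Q κ) (l + 1) m) (Kw σ E s t g')) w) :
    Lim (Fv (gr n (Po n K)) (Eu χ (eqn G r Q κ) l (m + 1)) (Jw σ E s t)) (v + e * w) := by
  have hE : IsAdd (Eu χ (eqn G r Q κ) (l + 1) m) (lev (eqn G r Q κ) (l + 1)) :=
    isAdd_Eu (l + 1) m (by rw [hl]; exact hχ.add)
  have e4 : tw σ E s t (g * g' ^ e) * C y = tw σ E s t (C (eqn G r Q κ l)) * C (x * x' ^ e) := by
    rw [map_mul, map_pow, e1, e2, e3, map_mul, map_pow]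
    ring
  have hK : Kw σ E s t (C (eqn G r Q κ l)) = Kw σ E s t (g * g' ^ e) := by
    ext F
    rw [mem_Kw, mem_Kw, ← (isUnit_C hy).mul_right_dvd (a := tw σ E s t (g * g' ^ e)), e4,
      (isUnit_C (mul_ne_zero hx (pow_ne_zero e hx'))).mul_right_dvd]
  have hgi : ∀ j, g * g' ^ j ∈ gr n (Po n K) (c + j * c') := fun j =>
    IsHomogeneous.mul hgc (by rw [mul_comm]; exact IsHomogeneous.pow hgc' j)
  have hb' : ∀ j ≤ e, (lev (eqn G r Q κ) (l + 1)).map C ≤ Kw σ E s t (g * g' ^ j) := by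
    intro j hj
    rw [lev_succ, Ideal.map_sup, Ideal.map_span, Set.image_singleton, sup_le_iff]
    refine ⟨hb.trans (le_sup_left.trans sup_le_Kw), ?_⟩
    rw [Ideal.span_singleton_le_iff_mem, mem_Kw]
    have : C (eqn G r Q κ l) ∈ Kw σ E s t (g * g' ^ e) := by
      rw [← hK, mem_Kw]
    exact (map_dvd _ (mul_dvd_mul_left g (pow_dvd_pow g' hj))).trans (mem_Kw.1 this)
  have hh : ∀ j, (Kw σ E s t (g * g' ^ j)).IsHomogeneous (gr n (Po n K)) := fun j =>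
    (Kw_hom hg.bas.det hg.den hg.pri.hom hJ (hgi j)).1
  refine eqn_step h hg hχ hd hJ hl hb ?_ ?_
  · rw [e3]
    exact mul_ne_zero (mul_ne_zero (X_ne_zero i) (pow_ne_zero _ (X_ne_zero i')))
      (by simpa using hy)
  rw [hK]
  refine Fv_prod hE hgc' (fun j => Kw σ E s t (g * g' ^ j)) e hb' (fun j _ => hh j)
    (fun j _ => ?_) (by simpa using hv) fun j hj => ?_
  · rw [pow_succ, ← mul_assoc]
    exact Kw_colon (tw_ne hx' e2)
  · refine Lim.of_sub (sat_step h hg hχ hd hJ hgc' (hom_sup (hh _) hgc')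
      (sup_le_sup_right (le_sup_left.trans sup_le_Kw) _) ?_ hl
      ((hb' (j + 1) hj).trans le_sup_left)) hw
    refine sup_le (fun F hF => ?_) (le_sup_right.trans sup_le_Kw)
    rw [mem_Kw] at hF ⊢
    exact (map_dvd _ (by rw [pow_succ, ← mul_assoc]; exact dvd_mul_left _ _)).trans hF

theorem bottom (h : Hyp p G r Q κ δ ex η) (hg : Gen G r Q κ δ σ a₀ E)
    (hχ : Chi G r Q κ (RingHom.ker σ) χ) (hd : κ + ex * δ ≤ s) (hs : s < 2 * κ + δ)
    (hJ : (Jw σ E s (s + 1)).IsHomogeneous (gr n (Po n K))) :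
    Lim (Fv (gr n (Po n K)) (Eu χ (eqn G r Q κ) κ 1) (Jw σ E s (s + 1)))
      (Yv G r Q κ σ χ (a₀ + s)) := by
  have hn := h.dim
  have hκ := h.hκ
  obtain ⟨e, he, hQ⟩ := h.hQ
  have hq : 0 < Q ^ (a₀ + s) := pow_pos (by rw [hQ]; exact pow_pos h.prime.pos e) _
  have hb : σ (bj G r Q κ) ≠ 0 := hg.pri.nmem
  let i₀ : Fin n := ⟨s, by omega⟩
  have e1 : tw σ E s (s + 1) (C (eqn G r Q κ κ)) =
      X i₀ ^ (1 + r * Q ^ κ) * C (σ (bj G r Q κ) ^ Q ^ (a₀ + s)) - 1 := by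
    rw [eqn, if_neg (lt_irrefl κ), map_sub, map_sub, map_one, map_one,
      tw_node (s := s) (t := s + 1) h hg i₀ i₀ rfl rfl (by omega) (by omega) (by omega) (by omega)]
    ring
  refine eqn_step h hg hχ hd hJ (m := 0) rfl (lev_le_Jw h hg (by omega) (by omega) (by omega))
    ?_ ⟨n * Q ^ (a₀ + s), fun τ hτ => ?_⟩
  · rw [e1]
    intro h0
    have := congrArg (eval (0 : Fin n → L)) h0
    simp at this
  · have hker : ∀ F, gra (Ideal.Quotient.mk (RingHom.ker (ps σ (σ (bj G r Q κ)) (1 + r * Q ^ κ))))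
        (Q ^ (a₀ + s)) F = 0 ↔ gra (ps σ (σ (bj G r Q κ)) (1 + r * Q ^ κ)) (Q ^ (a₀ + s)) F = 0 := by
      intro F
      have : (RingHom.kerLift (ps σ (σ (bj G r Q κ)) (1 + r * Q ^ κ))).comp
          (gra (Ideal.Quotient.mk (RingHom.ker (ps σ (σ (bj G r Q κ)) (1 + r * Q ^ κ))))
          (Q ^ (a₀ + s))) = gra (ps σ (σ (bj G r Q κ)) (1 + r * Q ^ κ)) (Q ^ (a₀ + s)) := by
        refine MvPolynomial.ringHom_ext (fun f => ?_) fun a => ?_
        · rw [RingHom.comp_apply, gra_C, gra_C, RingHom.kerLift_mk]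
        · rw [RingHom.comp_apply, gra_X, gra_X, RingHom.kerLift_mk]
      rw [← this, RingHom.comp_apply, map_eq_zero_iff _ (RingHom.kerLift_injective _)]
    refine val_graph hχ.add hq (fun f hf => rel_le_ps hg.pri (h.expand_rel _ hf))
      (gra_surj _ Ideal.Quotient.mk_surjective (bj_hom (G := G) (r := r) (Q := Q) κ)
        (by omega) ?_ hq (h.coprime _) hτ) fun F hF => ?_
    · rw [← map_one (Ideal.Quotient.mk _), Ideal.Quotient.eq]
      refine rel_le_ps hg.pri (Ideal.subset_span ⟨κ, Nat.lt_succ_self κ, ?_⟩)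
      rw [eqn, if_neg (lt_irrefl κ)]
    · rw [hker]
      exact mem_Kw_iff (s := s) i₀ rfl (fun a => congrFun (hg.bas.row i₀ hs) a) (by omega) hq
        (h.coprime _) e1 hF

theorem tree (h : Hyp p G r Q κ δ ex η) (hg : Gen G r Q κ δ σ a₀ E)
    (hχ : Chi G r Q κ (RingHom.ker σ) χ) (m : ℕ) : ∀ l s : ℕ, l + m = κ → 1 ≤ l + δ →
    κ + ex * δ ≤ s → s + m + 1 ≤ 2 * κ + δ →
    (Jw σ E s (s + m + 1)).IsHomogeneous (gr n (Po n K)) →
    Lim (Fv (gr n (Po n K)) (Eu χ (eqn G r Q κ) l (m + 1)) (Jw σ E s (s + m + 1)))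
      (ops (fun j => (r * Q ^ j : ℕ)) (Yv G r Q κ σ χ) l m (a₀ + s)) := by
  induction m with
  | zero =>
    intro l s hl hl' hd hs hJ
    obtain rfl : l = κ := by omega
    exact bottom h hg hχ hd (by omega) hJ
  | succ m ih =>
    intro l s hl hl' hd hs hJ
    have hn := h.dim
    let i₀ : Fin n := ⟨s, by omega⟩
    let i₁ : Fin n := ⟨s + m + 1, by omega⟩
    obtain ⟨x, hx, e1⟩ := tw_left (s := s) (t := s + (m + 1) + 1) h hg i₀ rfl (by omega) (by omega)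
      (Or.inl hs)
    obtain ⟨j, x', hx', e2⟩ := tw_right (s := s) (t := s + (m + 1) + 1) h hg i₁ rfl (by omega)
      (by omega) hs
    have k1 : Kw σ E s (s + (m + 1) + 1) (sec G r Q (a₀ + κ + s)) =
        Jw σ E (s + 1) (s + 1 + m + 1) :=
      Kw_step i₀ (by omega) (by omega) (fun i => by simp only [i₀, ne_eq, Fin.ext_iff]; omega) hx e1
    have k2 : Kw σ E s (s + (m + 1) + 1) (sec G r Q j) = Jw σ E s (s + m + 1) :=
      Kw_step i₁ (by omega) (by omega) (fun i => by simp only [i₁, ne_eq, Fin.ext_iff]; omega)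
        hx' e2
    have e3 : tw σ E s (s + (m + 1) + 1) (C (eqn G r Q κ l)) =
        X i₀ * X i₁ ^ (r * Q ^ l) * C (σ (bj G r Q κ) ^ Q ^ (a₀ + s)) := by
      rw [eqn, if_pos (by omega)]
      exact tw_node (s := s) (t := s + (m + 1) + 1) h hg i₀ i₁ rfl rfl (by omega) hs (by omega) hl'
    refine prod_step h hg hχ hd hJ (by omega) (lev_le_Jw h hg (by omega) hs (by omega))
      (sec_hom _) (sec_hom _) hx hx' (pow_ne_zero _ hg.pri.nmem) e1 e2 e3 ?_ ?_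
    · rw [k1]
      refine ih (l + 1) (s + 1) (by omega) (by omega) (by omega) (by omega) ?_
      rw [← k1]
      exact (Kw_hom hg.bas.det hg.den hg.pri.hom hJ (sec_hom _)).1
    · rw [k2]
      refine ih (l + 1) s (by omega) (by omega) (by omega) (by omega) ?_
      rw [← k2]
      exact (Kw_hom hg.bas.det hg.den hg.pri.hom hJ (sec_hom _)).1

theorem start (h : Hyp p G r Q κ δ ex η) (hg : Gen G r Q κ δ σ a₀ E)
    (hχ : Chi G r Q κ (RingHom.ker σ) χ) {l m₀ : ℕ} (hl : l + m₀ = κ + 1)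
    (hl0 : lev (eqn G r Q κ) l = ⊥)
    (h0 : ∀ (N : Type) [AddCommGroup N] [Module K N] [Module.Finite K N],
      (Eu χ (eqn G r Q κ) l m₀).val (Po n K ⊗[K] N) = 0) (j : ℕ) : ∀ m, j + m = κ + ex * δ →
    (Jw σ E j n).IsHomogeneous (gr n (Po n K)) ∧
      Fv (gr n (Po n K)) (Eu χ (eqn G r Q κ) l m₀) (Jw σ E j n) ∈
        Cls (fun i => r * Q ^ (a₀ + κ + i)) j m := by
  have hE : IsAdd (Eu χ (eqn G r Q κ) l m₀) ⊥ := by
    rw [← hl0]
    exact isAdd_Eu l m₀ (by rw [hl]; exact hχ.add)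
  have hex := h.hex
  have hle : ex * δ ≤ δ := by nlinarith
  induction j with
  | zero =>
    intro m _
    rw [Jw_zero hg.bas.det]
    refine ⟨hom_map_io hg.pri.hom, ?_⟩
    have : Fv (gr n (Po n K)) (Eu χ (eqn G r Q κ) l m₀) ((RingHom.ker σ).map io) = 0 := by
      funext τ
      obtain ⟨e⟩ := piece_tensor (RingHom.ker σ) τ
      exact (hE.congr e kill_bot).symm.trans (h0 _)
    rw [this]
    exact zero_mem _
  | succ j ih =>
    intro m hm
    obtain ⟨hJ, hC⟩ := ih (m + 1) (by omega)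
    have hn := h.dim
    have hκ := h.hκ
    let i₀ : Fin n := ⟨j, by omega⟩
    obtain ⟨x, hx, e1⟩ := tw_left (s := j) (t := n) h hg i₀ rfl (by omega) (by omega)
      (Or.inr (by omega))
    have k1 : Kw σ E j n (sec G r Q (a₀ + κ + j)) = Jw σ E (j + 1) n :=
      Kw_step i₀ (by omega) le_rfl (fun i => by simp only [i₀, ne_eq, Fin.ext_iff]; omega) hx e1
    obtain ⟨k2, k3⟩ := Kw_hom hg.bas.det hg.den hg.pri.hom hJ
      (sec_hom (G := G) (r := r) (Q := Q) (a₀ + κ + j))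
    rw [← k1]
    refine ⟨k2, ?_⟩
    have hb : ∀ I : Ideal (Bo n K), (⊥ : Ideal (Po n K)).map (algebraMap _ (Bo n K)) ≤ I :=
      fun I => by rw [Ideal.map_bot]; exact bot_le
    have c1 := (Fv_dif hE (hb _) hJ Jw_prime (sec_hom _) (tw_ne hx e1) (good_Cls _ _ _)).1 hC
    have c2 := Fv_sat (good_Cls (fun i => r * Q ^ (a₀ + κ + i)) (j + 1) m) hE (hb _)
      (hom_sup hJ (sec_hom _)) k2 sup_le_Kw (Tset (RingHom.ker σ)) k3 fun J hJ' hIJ hu =>
      neg_s (a₀ := a₀) h hg.pri hχ hl hl0 m (j + 1) hm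
        ⟨hJ', ker_le_Jw.trans (le_sup_left.trans hIJ), hu⟩ fun i hi => by
          rcases Nat.lt_succ_iff_lt_or_eq.1 hi with hi | rfl
          · exact hIJ (Ideal.mem_sup_left (sec_mem h hg hi (by omega)))
          · exact hIJ (Ideal.mem_sup_right (Ideal.mem_span_singleton_self _))
    simpa using sub_mem c1 c2

theorem core_gen (h : Hyp p G r Q κ δ ex η) (hg : Gen G r Q κ δ σ a₀ E)
    (hχ : Chi G r Q κ (RingHom.ker σ) χ)
    (h0 : ∀ (N : Type) [AddCommGroup N] [Module K N] [Module.Finite K N],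
      (Eu χ (eqn G r Q κ) (1 - (δ + ex)) (κ + 1 - (1 - (δ + ex)))).val (Po n K ⊗[K] N) = 0) :
    ops (fun j => (r * Q ^ j : ℕ)) (Yv G r Q κ σ χ) (1 + ex * δ - δ) (κ - (1 + ex * δ - δ))
      (a₀ + (κ + ex * δ)) = 0 := by
  have hn := h.dim
  have hκ := h.hκ
  have hδ := h.hδ
  obtain ⟨hJ, hC⟩ := start h hg hχ (by omega) h.lev_start h0 (κ + ex * δ) 0 rfl
  rcases Nat.le_one_iff_eq_zero_or_eq_one.1 h.hex with rfl | rfl
  · simp only [zero_mul, add_zero] at hJ hC ⊢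
    have e1 : n = κ + (κ - (1 - δ)) + 1 := by omega
    have e2 : κ + 1 - (1 - δ) = κ - (1 - δ) + 1 := by omega
    rw [e2] at hC
    have := tree h hg hχ (κ - (1 - δ)) (1 - δ) κ (by omega) (by omega) (by omega) (by omega)
      (by rw [← e1]; exact hJ)
    rw [← e1] at this
    exact this.eq_zero hC
  · simp only [one_mul, Nat.add_sub_cancel] at hJ hC ⊢
    have e0 : 1 - (δ + 1) = 0 := by omega
    rw [e0, Nat.sub_zero] at hC
    let i₀ : Fin n := ⟨2 * κ + δ, by omega⟩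
    obtain ⟨⟨y, hy, e3⟩, g, e, x, hge, hx, e1⟩ := tw_zed (s := κ + δ) h hg i₀ rfl le_rfl (by omega)
    have k1 : Kw σ E (κ + δ) n g = Jw σ E (κ + δ) (κ + δ + (κ - 1) + 1) :=
      Kw_step i₀ le_rfl (by omega) (fun i => by
        have := i.isLt
        simp only [i₀, ne_eq, Fin.ext_iff]; omega) hx e1
    have e2 : κ - 1 + 1 = κ := by omega
    have hv := tree h hg hχ (κ - 1) 1 (κ + δ) (by omega) (by omega) (by omega) (by omega)
      (by rw [← k1]; exact (Kw_hom hg.bas.det hg.den hg.pri.hom hJ hge).1)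
    rw [← k1, e2] at hv
    have := prod_step (l := 0) (m := κ) h hg hχ (by omega) hJ (by omega)
      (by rw [lev_zero, Ideal.map_bot]; exact bot_le) hge hge hx hx hy e1 e1
      (by rw [eqn, if_pos hκ]; exact e3) hv hv
    have h1 := this.eq_zero hC
    have h2 : (1 + (r : ℚ)) ≠ 0 := by positivity
    exact (mul_eq_zero.1 ((by ring : (1 + (r : ℚ)) * _ = _).trans h1)).resolve_left h2

theorem core (h : Hyp p G r Q κ δ ex η) {𝔮 : Ideal (Po n K)} (h𝔮 : Pri G r Q κ 𝔮) :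
    ∃ 𝔞 : Ideal (Po n K), rel G r Q κ ≤ 𝔞 ∧
      (∀ (c : ℕ) (f : Po n K), f.IsHomogeneous c → (f ∈ 𝔞 ↔ f ∈ 𝔮)) ∧
      ∀ χ : Val (Po n K), Chi G r Q κ 𝔮 χ →
        (∀ (N : Type) [AddCommGroup N] [Module K N] [Module.Finite K N],
          (Eu χ (eqn G r Q κ) (1 - (δ + ex)) (κ + 1 - (1 - (δ + ex)))).val (Po n K ⊗[K] N) = 0) →
        ∀ i, 1 + (κ + ex * δ) ≤ i → ops (fun j => (r * Q ^ j : ℕ))
          (fun j => (push (expand (Q ^ j) : Po n K →ₐ[K] Po n K).toRingHom χ).val (Po n K ⧸ 𝔞))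
          (1 + ex * δ - δ) (κ - (1 + ex * δ - δ)) i = 0 := by
  have := h𝔮.prime
  let σ : Po n K →+* FractionRing (Po n K ⧸ 𝔮) :=
    (algebraMap (Po n K ⧸ 𝔮) (FractionRing (Po n K ⧸ 𝔮))).comp (Ideal.Quotient.mk 𝔮)
  have hk : RingHom.ker σ = 𝔮 := by
    ext f
    rw [RingHom.mem_ker, RingHom.comp_apply, map_eq_zero_iff _ (IsFractionRing.injective _ _),
      Ideal.Quotient.eq_zero_iff_mem]
  have hden : ∀ y, ∃ f h, σ h ≠ 0 ∧ σ h * y = σ f := by
    intro y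
    obtain ⟨a, b, hb, rfl⟩ := IsFractionRing.div_surjective (A := Po n K ⧸ 𝔮) y
    obtain ⟨f, rfl⟩ := Ideal.Quotient.mk_surjective a
    obtain ⟨g, rfl⟩ := Ideal.Quotient.mk_surjective b
    have hg : σ g ≠ 0 := IsFractionRing.to_map_ne_zero_of_mem_nonZeroDivisors (R := Po n K ⧸ 𝔮) hb
    exact ⟨f, g, hg, mul_div_cancel₀ _ hg⟩
  have hp : Pri G r Q κ (RingHom.ker σ) := hk.symm ▸ h𝔮
  refine ⟨RingHom.ker (ps σ (σ (bj G r Q κ)) (1 + r * Q ^ κ)), rel_le_ps hp, fun c f hf => ?_,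
    fun χ hχ h0 i hi => ?_⟩
  · rw [RingHom.mem_ker, ps_eq_zero hp.nmem (by omega) hf, ← RingHom.mem_ker, hk]
  · obtain ⟨a, rfl⟩ : ∃ a, i = 1 + a + (κ + ex * δ) := ⟨i - (1 + (κ + ex * δ)), by omega⟩
    obtain ⟨E, hE⟩ := exists_bas (h.map (σ.comp C)) hp.onX (1 + a)
    exact core_gen h ⟨hp, hden, hE, by omega⟩ (hk.symm ▸ hχ) h0

end Pool.Agent.CXD
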