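import Pool.Agent.P.MP_2ce3e7_ag.CXR2
import Pool.Agent.P.MP_2ce3e7_ag.CXM2
import Pool.Agent.P.MP_2ce3e7_ag.CXH

/-! The final assembly. -/

set_option linter.unusedSectionVars false
set_option linter.unusedVariables false

open MvPolynomial
open scoped TensorProduct

noncomputable section

namespace Pool.Agent.CXD

variable {n : ℕ} {K : Type} [CommRing K] {p r Q κ δ ex : ℕ} {G : Matrix (Fin n) (Fin n) K} {η : K}

theorem finite_pow {R : Type} [CommRing R] {φ : R →+* R} (h : φ.Finite) (i : ℕ) :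
    (φ ^ i).Finite := by
  induction i with
  | zero => exact RingHom.Finite.id R
  | succ i ih => rw [pow_succ]; exact ih.comp h

theorem rel_thm [IsNoetherianRing K] (h : Hyp p G r Q κ δ ex η) {χ : Val (Cox G r Q κ)}
    (hχ : IsAdd χ ⊥) (φ : Cox G r Q κ →+* Cox G r Q κ) (hf : φ.Finite)
    (hφ : ∀ (i : ℕ) (y : Cox G r Q κ) (f : Po n K),
      Ideal.Quotient.mk _ f = y.1 → Ideal.Quotient.mk _ (expand (Q ^ i) f) = ((φ ^ i) y).1)
    (h0 : ∀ (N : Type) [AddCommGroup N] [Module K N] [Module.Finite K N],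
      (Eu (tl χ) (eqn G r Q κ) (1 - (δ + ex)) (κ + 1 - (1 - (δ + ex)))).val (Po n K ⊗[K] N) = 0)
    (𝔭 : Ideal (Cox G r Q κ)) (h𝔭 : 𝔭.IsPrime) (hv : ∀ i, Van χ (𝔭.comap (φ ^ i))) (i : ℕ)
    (hi : 1 + (κ + ex * δ) ≤ i) :
    ops (fun j => (r * Q ^ j : ℕ)) (fun j => (push (φ ^ j) χ).val (Cox G r Q κ ⧸ 𝔭))
      (1 + ex * δ - δ) (κ - (1 + ex * δ - δ)) i = 0 := by
  have := cox_noeth (G := G) (r := r) (Q := Q) (κ := κ)
  obtain ⟨𝔮, ho⟩ := exists_over 𝔭 h𝔭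
  obtain ⟨𝔞, h1, h2, h3⟩ := core h ho.pri
  have h4 := h3 (tl χ) (chi_tl hχ ho φ hφ hv) h0 i hi
  have hk := ker_toQ ho h1 h2
  obtain ⟨ν, hν, h5⟩ := exists_mult_hom (toQ 𝔞 h1) (toQ_finite 𝔞 h1) (hk.symm ▸ h𝔭)
  rw [hk] at h5
  have h6 : (fun j => (push (expand (Q ^ j) : Po n K →ₐ[K] Po n K).toRingHom (tl χ)).val
      (Po n K ⧸ 𝔞)) = fun j => ν * (push (φ ^ j) χ).val (Cox G r Q κ ⧸ 𝔭) := by
    funext j
    rw [tl_expand h χ 𝔞 h1 (φ ^ j) j (hφ j)]
    exact h5 _ (isAdd_push _ (finite_pow hf j) hχ bot_le)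
      (Van.push _ (finite_pow hf j) hχ h𝔭 (hv j))
  rw [h6, ops_mul] at h4
  exact (mul_eq_zero.1 h4).resolve_left (by exact_mod_cast hν.ne')

theorem mv_expand_card (k : Type) [Field k] [Fintype k] (g : Po n k) :
    expand (Fintype.card k) g = g ^ Fintype.card k := by
  obtain ⟨p, hp⟩ := CharP.exists k
  rcases FiniteField.card k p with ⟨⟨a, npos⟩, ⟨hp, hn⟩⟩
  have : Fact p.Prime := ⟨hp⟩
  dsimp at hn
  rw [hn, ← MvPolynomial.map_iterateFrobenius_expand, iterateFrobenius_eq_pow,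
    FiniteField.frobenius_pow hn, RingHom.one_def, MvPolynomial.map_id]

theorem main_hyp (k : Type) [Field k] [Fintype k] {G : Matrix (Fin n) (Fin n) k} {η : k} {m f : ℕ}
    (h : Hyp p G r Q κ δ ex η) (hk : Fintype.card k = Q ^ m) (hf : Q ^ m = p ^ f)
    (hres : ∀ w j : ℕ, 0 < w → (w : ℚ) ^ f ≠ (-((r * Q ^ j : ℕ) : ℚ)) ^ m) :
    rk0 (Cox G r Q κ) ≤ 1 := by
  have := cox_noeth (G := G) (r := r) (Q := Q) (κ := κ)
  have := cox_finiteType (G := G) (r := r) (Q := Q) (κ := κ)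
  obtain ⟨φ, hφf, hφ⟩ := exists_phi h
  have hm : 0 < m := by
    rcases Nat.eq_zero_or_pos m with rfl | hm
    · exact absurd (hk.trans (pow_zero Q)) Fintype.one_lt_card.ne'
    · exact hm
  refine rk0_le_one _ (fun χ =>
    (Eu (tl χ) (eqn G r Q κ) (1 - (δ + ex)) (κ + 1 - (1 - (δ + ex)))).val (Po n k))
    (fun s t χ χ' => by simp only [tl]; rw [push_lin, lift_lin, Eu_lin]; rfl)
    fun χ hχ h0 M _ _ _ => ?_
  rcases subsingleton_or_nontrivial (Cox G r Q κ) with hs | hs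
  · have := Module.subsingleton (Cox G r Q κ) M
    exact hχ.zero M
  have hc := h.char
  have : CharP (Cox G r Q κ) p := charP_of_injective_algebraMap (algebraMap k _).injective p
  have : Fact p.Prime := ⟨h.prime⟩
  refine final φ (frobenius _ p) hφf (frob_finite k _ p) (fun 𝔭 h𝔭 => ?_) (f := f) hm ?_ hχ _ _ _ _
    (fun w hw j _ _ => hres w j hw) (fun 𝔭 h𝔭 hv i hi => rel_thm h hχ φ hφf hφ ?_ 𝔭 h𝔭 hv i hi) M
  · ext x
    rw [Ideal.mem_comap, frobenius_def, h𝔭.pow_mem_iff_mem p h.prime.pos]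
  · refine RingHom.ext fun y => Subtype.ext ?_
    obtain ⟨g, hg⟩ := Ideal.Quotient.mk_surjective y.1
    rw [← hφ m y g hg, ← iterateFrobenius_eq_pow, iterateFrobenius_def, ← hf, ← hk,
      mv_expand_card, map_pow, hg]
    rfl
  · intro N _ _ _
    have hE : IsAdd (Eu (tl χ) (eqn G r Q κ) (1 - (δ + ex)) (κ + 1 - (1 - (δ + ex)))) ⊥ := by
      rw [← h.lev_start]
      refine isAdd_Eu _ _ ?_
      rw [show 1 - (δ + ex) + (κ + 1 - (1 - (δ + ex))) = κ + 1 by omega]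
      exact tl_add hχ
    exact hE.val_free h0

theorem main (k : Type) [Field k] [Fintype k] (p e m n κ r Q : ℕ) [CharP k p] (he : 0 < e)
    (hκ : 0 < κ) (hk : Fintype.card k = Q ^ m) (G : Matrix (Fin n) (Fin n) k) (hG : G.det ≠ 0)
    (h : Unitary G (p ^ e) r Q κ ∨
      Odd m ∧ (Symplectic G (p ^ e) r Q κ ∨ Orthogonal G (p ^ e) r Q κ)) :
    rk0 (Cox G r Q κ) ≤ 1 := by
  have hp : p.Prime := CharP.char_is_prime k p
  have hm : 0 < m := by
    rcases Nat.eq_zero_or_pos m with rfl | hm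
    · exact absurd (hk.trans (pow_zero Q)) Fintype.one_lt_card.ne'
    · exact hm
  rcases h with h | ⟨ho, h | h⟩
  · obtain ⟨ex, hy⟩ := hyp_unitary hp he hκ hG h
    refine main_hyp k (f := 2 * e * m) hy hk (by rw [h.hQ]; ring) fun w j _ => ?_
    rw [h.hr, h.hQ]
    exact res_unitary hp he hm
  · exact main_hyp k (f := e * m) (hyp_symplectic hp he hκ hG h) hk (by rw [h.hQ]; ring)
      fun w j hw => res_odd ho hw
  · exact main_hyp k (f := e * m) (hyp_orthogonal hp he hκ hG h) hk (by rw [h.hQ]; ring)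
      fun w j hw => res_odd ho hw

end Pool.Agent.CXD
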