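import Pool.Agent.P.MP_2ce3e7_ag.CXA3

/-! The comparison of eigenvalues. -/

set_option linter.unusedSectionVars false
set_option linter.unusedVariables false

noncomputable section

namespace Pool.Agent.CXD

/-- the product of the operators `T + ε j`, `l ≤ j < l + m`, where `T` is the shift -/
def ops (ε Y : ℕ → ℚ) : ℕ → ℕ → ℕ → ℚ
  | _, 0 => Y
  | l, m + 1 => fun i => ops ε Y (l + 1) m (i + 1) + ε l * ops ε Y (l + 1) m i

theorem ops_mul (ε Y : ℕ → ℚ) (c : ℚ) (l m i : ℕ) :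
    ops ε (fun j => c * Y j) l m i = c * ops ε Y l m i := by
  induction m generalizing l i with
  | zero => rfl
  | succ m ih =>
    simp only [ops]
    rw [ih, ih]
    ring

theorem ops_per_CXF {ε Y : ℕ → ℚ} {W : ℚ} {m₀ : ℕ} (hY : ∀ i, Y (i + m₀) = W * Y i) (l m i : ℕ) :
    ops ε Y l m (i + m₀) = W * ops ε Y l m i := by
  induction m generalizing l i with
  | zero => exact hY i
  | succ m ih =>
    simp only [ops]
    rw [Nat.add_right_comm i m₀ 1, ih, ih]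
    ring

theorem geom_CXF {Z : ℕ → ℚ} {e : ℚ} {i₀ : ℕ} (h : ∀ i, i₀ ≤ i → Z (i + 1) + e * Z i = 0)
    (i : ℕ) (hi : i₀ ≤ i) (k : ℕ) : Z (i + k) = (-e) ^ k * Z i := by
  induction k with
  | zero => simp
  | succ k ih =>
    have h1 := h (i + k) (le_trans hi (Nat.le_add_right _ _))
    rw [ih] at h1
    rw [← Nat.add_assoc, pow_succ]
    linear_combination h1

theorem ops_zero {ε Y : ℕ → ℚ} {W : ℚ} {m₀ : ℕ} (hY : ∀ i, Y (i + m₀) = W * Y i) (l m i₀ : ℕ)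
    (hW : ∀ j, l ≤ j → j < l + m → W ≠ (-ε j) ^ m₀) (h : ∀ i, i₀ ≤ i → ops ε Y l m i = 0) :
    ∀ i, i₀ ≤ i → Y i = 0 := by
  induction m generalizing l with
  | zero => exact h
  | succ m ih =>
    refine ih (l + 1) (fun j hj hj' => hW j (by omega) (by omega)) fun i hi => ?_
    have h1 := geom_CXF (Z := ops ε Y (l + 1) m) (e := ε l) h i hi m₀
    rw [ops_per_CXF hY] at h1
    have h2 : (W - (-ε l) ^ m₀) * ops ε Y (l + 1) m i = 0 := by linear_combination h1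
    exact (mul_eq_zero.1 h2).resolve_left (sub_ne_zero.2 (hW l le_rfl (by omega)))

theorem up_CXF {A B : Type} [CommRing A] [CommRing B] (ψ : A →+* B) (hψ : ψ.Finite) (I : Ideal B)
    (P : Ideal A) (hP : P.IsPrime) (h : I.comap ψ < P) :
    ∃ Q : Ideal B, Q.IsPrime ∧ I < Q ∧ Q.comap ψ = P := by
  let _ := ψ.toAlgebra
  have : Module.Finite A B := hψ
  obtain ⟨Q, hQ, hQp, hQc⟩ := Ideal.exists_ideal_over_prime_of_isIntegral P I h.le
  refine ⟨Q, hQp, lt_of_le_of_ne hQ ?_, hQc⟩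
  rintro rfl
  exact h.ne hQc

variable {R : Type} [CommRing R] [IsNoetherianRing R]

theorem finite_pow_CXF {φ : R →+* R} (hφ : φ.Finite) (k : ℕ) : (φ ^ k).Finite := by
  induction k with
  | zero => exact RingHom.Finite.id R
  | succ k ih =>
    rw [pow_succ]
    exact RingHom.Finite.comp ih hφ

theorem deg_pow_CXF (F : R →+* R) (hF : F.Finite) {𝔭 : Ideal R} (h𝔭 : 𝔭.IsPrime)
    (hFp : 𝔭.comap F = 𝔭) : ∃ w : ℕ, 0 < w ∧ ∀ (k : ℕ) (c : Val R), IsAdd c ⊥ → Van c 𝔭 →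
      (push (F ^ k) c).val (R ⧸ 𝔭) = (w : ℚ) ^ k * c.val (R ⧸ 𝔭) := by
  obtain ⟨w, hw, h⟩ := exists_deg F hF 𝔭 h𝔭
  rw [hFp] at h
  refine ⟨w, hw, fun k => ?_⟩
  induction k with
  | zero =>
    intro c _ _
    rw [pow_zero, pow_zero, one_mul]
    rfl
  | succ k ih =>
    intro c hc hv
    have h1 := ih (push F c) (isAdd_push F hF hc bot_le)
      (Van.push F hF hc h𝔭 (by rw [hFp]; exact hv))
    rw [h c hc hv, push_push] at h1
    rw [pow_succ, RingHom.mul_def, h1]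
    ring

theorem final (φ F : R →+* R) (hφ : φ.Finite) (hF : F.Finite)
    (hFp : ∀ 𝔭 : Ideal R, 𝔭.IsPrime → 𝔭.comap F = 𝔭) {m₀ f : ℕ} (hm : 0 < m₀) (hpow : φ ^ m₀ = F ^ f)
    {χ : Val R} (hχ : IsAdd χ ⊥) (ε : ℕ → ℚ) (l m i₀ : ℕ)
    (hres : ∀ w : ℕ, 0 < w → ∀ j, l ≤ j → j < l + m → (w : ℚ) ^ f ≠ (-ε j) ^ m₀)
    (hrel : ∀ 𝔭 : Ideal R, 𝔭.IsPrime → (∀ i, Van χ (𝔭.comap (φ ^ i))) →
      ∀ i, i₀ ≤ i → ops ε (fun j => (push (φ ^ j) χ).val (R ⧸ 𝔭)) l m i = 0)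
    (M : Type) [AddCommGroup M] [Module R M] [Module.Finite R M] : χ.val M = 0 := by
  have key : ∀ 𝔭 : Ideal R, 𝔭.IsPrime → ∀ i : ℕ, χ.val (R ⧸ 𝔭.comap (φ ^ i)) = 0 := by
    intro 𝔭
    induction 𝔭 using IsNoetherian.induction with
    | hgt 𝔭 ih =>
      intro h𝔭
      have hv : ∀ i : ℕ, Van χ (Ideal.comap (φ ^ i) 𝔭) := by
        intro i P hP hlt
        obtain ⟨Q, hQ, hlt', rfl⟩ := up_CXF (φ ^ i) (finite_pow_CXF hφ i) 𝔭 P hP hlt
        exact ih Q hlt' hQ i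
      obtain ⟨w, hw, hdeg⟩ := deg_pow_CXF F hF h𝔭 (hFp 𝔭 h𝔭)
      have hY : ∀ j : ℕ, (push (φ ^ (j + m₀)) χ).val (R ⧸ 𝔭) =
          (w : ℚ) ^ f * (push (φ ^ j) χ).val (R ⧸ 𝔭) := by
        intro j
        rw [← hdeg f (push (φ ^ j) χ) (isAdd_push _ (finite_pow_CXF hφ j) hχ bot_le)
          (Van.push _ (finite_pow_CXF hφ j) hχ h𝔭 (hv j)), push_push, ← RingHom.mul_def, ← hpow,
          ← pow_add, add_comm]
      have h0 := ops_zero (Y := fun j => (push (φ ^ j) χ).val (R ⧸ 𝔭)) hY l m i₀ (hres w hw)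
        (hrel 𝔭 h𝔭 hv)
      have hk : ∀ j k : ℕ, (push (φ ^ (j + k * m₀)) χ).val (R ⧸ 𝔭) =
          ((w : ℚ) ^ f) ^ k * (push (φ ^ j) χ).val (R ⧸ 𝔭) := by
        intro j k
        induction k with
        | zero => simp
        | succ k ihk =>
          rw [Nat.succ_mul, ← Nat.add_assoc, hY, ihk]
          ring
      intro j
      have h1 : (push (φ ^ (j + i₀ * m₀)) χ).val (R ⧸ 𝔭) = 0 :=
        h0 (j + i₀ * m₀) (le_trans (Nat.le_mul_of_pos_right _ hm) (Nat.le_add_left _ _))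
      have hw0 : (w : ℚ) ≠ 0 := Nat.cast_ne_zero.2 hw.ne'
      rw [hk] at h1
      have h2 := (mul_eq_zero.1 h1).resolve_left (pow_ne_zero _ (pow_ne_zero _ hw0))
      obtain ⟨ν, hν, hd⟩ := exists_deg (φ ^ j) (finite_pow_CXF hφ j) 𝔭 h𝔭
      rw [hd χ hχ (hv j)] at h2
      exact (mul_eq_zero.1 h2).resolve_left (Nat.cast_ne_zero.2 hν.ne')
  refine val_of_primes hχ M kill_bot fun P hP _ => ?_
  have h := key P hP 0
  rwa [pow_zero, RingHom.one_def, Ideal.comap_id] at h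

end Pool.Agent.CXD
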