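import Pool.Agent.P.MP_2ce3e7_ag.CXG

/-! The sections and the equations in the coordinates given by a basis. -/

set_option linter.unusedSectionVars false
set_option linter.unusedVariables false

open MvPolynomial Matrix

noncomputable section

namespace Pool.Agent.CXD

variable {n : ℕ} {A : Type} [CommRing A] {p r Q κ δ ex : ℕ} {G : Matrix (Fin n) (Fin n) A} {η : A}
  {ξ : Fin n → A} {a₀ : ℕ} {E : Matrix (Fin n) (Fin n) A} {u : Fin n → A} {s t : ℕ}

theorem rne_CXG2 (h : Hyp p G r Q κ δ ex η) : r ≠ 0 := by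
  obtain ⟨e, rfl⟩ := h.hr
  exact pow_ne_zero _ h.prime.ne_zero

theorem rQne_CXG2 (h : Hyp p G r Q κ δ ex η) (l : ℕ) : r * Q ^ l ≠ 0 := by
  refine mul_ne_zero (rne_CXG2 h) (pow_ne_zero _ ?_)
  obtain ⟨e, -, rfl⟩ := h.hQ
  exact pow_ne_zero _ h.prime.ne_zero

theorem term_CXG2 (h : Hyp p G r Q κ δ ex η) (hξ : OnX G r Q κ ξ) (hE : Bas G r Q κ δ ξ a₀ E)
    (hu : Supp u s t) {j : ℕ} (i : Fin n)
    (h1 : s ≤ i.val → i.val < t → i.val < 2 * κ + δ → a₀ + i < j + δ + κ ∧ j < a₀ + i + κ)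
    (h2 : s ≤ i.val → i.val < t → i.val = 2 * κ + δ → a₀ ≤ j ∧ j < a₀ + (2 * κ + δ)) :
    u i * bform G r (E i) (fr Q j ξ) = 0 := by
  by_cases hi : s ≤ i.val ∧ i.val < t
  · by_cases hw : i.val < 2 * κ + δ
    · obtain ⟨a, b⟩ := h1 hi.1 hi.2 hw
      rw [hE.row i hw, h.gram_zero hξ.zero a b, mul_zero]
    · have hd := h.dim
      have hx := h.hex
      have hlt := i.isLt
      have e : i.val = 2 * κ + δ := by omega
      obtain ⟨a, b⟩ := h2 hi.1 hi.2 e
      rw [hE.perp i e j a b, mul_zero]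
  · rw [hu i hi, zero_mul]

theorem sec_van (h : Hyp p G r Q κ δ ex η) (hξ : OnX G r Q κ ξ) (hE : Bas G r Q κ δ ξ a₀ E)
    (hu : Supp u s t) {j : ℕ} (h1 : a₀ + κ ≤ j) (h2 : j < a₀ + κ + s)
    (h3 : j < a₀ + (2 * κ + δ)) : bform G r (u ᵥ* E) (fr Q j ξ) = 0 := by
  rw [bform_left]
  exact Finset.sum_eq_zero fun i _ =>
    term_CXG2 h hξ hE hu i (fun _ _ _ => by omega) (fun _ _ _ => by omega)

theorem sec_left (h : Hyp p G r Q κ δ ex η) (hξ : OnX G r Q κ ξ) (hE : Bas G r Q κ δ ξ a₀ E)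
    (hu : Supp u s t) (i₀ : Fin n) (hi : i₀.val = s) (hs : s < 2 * κ + δ)
    (ht : t ≤ 2 * κ + δ ∨ s < κ + δ) : bform G r (u ᵥ* E) (fr Q (a₀ + s + κ) ξ) =
      u i₀ * bform G r (fr Q (a₀ + s) ξ) (fr Q (a₀ + s + κ) ξ) := by
  rw [bform_left, Finset.sum_eq_single i₀, hE.row i₀ (by omega), hi]
  · intro i _ hne
    have hne' : i.val ≠ i₀.val := fun e => hne (Fin.ext e)
    exact term_CXG2 h hξ hE hu i (fun _ _ _ => by omega) (fun _ _ _ => by omega)
  · intro h'; exact absurd (Finset.mem_univ _) h'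

theorem sec_right (h : Hyp p G r Q κ δ ex η) (hξ : OnX G r Q κ ξ) (hE : Bas G r Q κ δ ξ a₀ E)
    (hu : Supp u s t) (i₁ : Fin n) (hi : i₁.val + 1 = t) (ht : t ≤ 2 * κ + δ) {j : ℕ}
    (hj : a₀ + i₁.val = j + δ + κ) : bform G r (u ᵥ* E) (fr Q j ξ) =
      u i₁ * bform G r (fr Q (j + δ + κ) ξ) (fr Q j ξ) := by
  rw [bform_left, Finset.sum_eq_single i₁, hE.row i₁ (by omega), hj]
  · intro i _ hne
    have hne' : i.val ≠ i₁.val := fun e => hne (Fin.ext e)
    exact term_CXG2 h hξ hE hu i (fun _ _ _ => by omega) (fun _ _ _ => by omega)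
  · intro h'; exact absurd (Finset.mem_univ _) h'

theorem van_CXG2 (h : Hyp p G r Q κ δ ex η) (hξ : OnX G r Q κ ξ) (hE : Bas G r Q κ δ ξ a₀ E)
    (hu : Supp u s t) (ht : t ≤ 2 * κ + δ) {l : ℕ} (i : Fin n)
    (h1 : s ≤ i.val → i.val < t → t ≤ i + l + δ + κ ∧ i + l < s + κ) :
    u i ^ (r * Q ^ l) * bform G r (u ᵥ* E) (fr Q l (E i)) = 0 := by
  by_cases hi : s ≤ i.val ∧ i.val < t
  · obtain ⟨a, b⟩ := h1 hi.1 hi.2
    rw [hE.row i (by omega), fr_fr, bform_left, Finset.sum_eq_zero, mul_zero]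
    exact fun k _ => term_CXG2 h hξ hE hu k (fun _ _ _ => by omega) (fun _ _ _ => by omega)
  · rw [hu i hi, zero_pow (rQne_CXG2 h l), zero_mul]

theorem eqn_van (h : Hyp p G r Q κ δ ex η) (hξ : OnX G r Q κ ξ) (hE : Bas G r Q κ δ ξ a₀ E)
    (hu : Supp u s t) (ht : t ≤ 2 * κ + δ) {l : ℕ} (hl : l + t ≤ s + κ) :
    bform G r (u ᵥ* E) (fr Q l (u ᵥ* E)) = 0 := by
  rw [h.bform_right]
  exact Finset.sum_eq_zero fun i _ => van_CXG2 h hξ hE hu ht i (fun _ _ => by omega)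

theorem eqn_node (h : Hyp p G r Q κ δ ex η) (hξ : OnX G r Q κ ξ) (hE : Bas G r Q κ δ ξ a₀ E)
    (hu : Supp u s t) (i₀ i₁ : Fin n) (hi₀ : i₀.val = s) (hi₁ : i₁.val + 1 = t) (hst : s < t)
    (ht : t ≤ 2 * κ + δ) {l : ℕ} (hl : l + t = s + κ + 1) (hl' : 1 ≤ l + δ) :
    bform G r (u ᵥ* E) (fr Q l (u ᵥ* E)) =
      u i₀ * u i₁ ^ (r * Q ^ l) * bform G r (fr Q (a₀ + s) ξ) (fr Q (a₀ + s + κ) ξ) := by
  rw [h.bform_right, Finset.sum_eq_single i₁, hE.row i₁ (by omega), fr_fr,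
    show a₀ + i₁.val + l = a₀ + s + κ by omega,
    sec_left h hξ hE hu i₀ hi₀ (by omega) (Or.inl ht)]
  · ring
  · intro i _ hne
    have hne' : i.val ≠ i₁.val := fun e => hne (Fin.ext e)
    exact van_CXG2 h hξ hE hu ht i (fun _ _ => by omega)
  · intro h'; exact absurd (Finset.mem_univ _) h'

theorem eqn_zed (h : Hyp p G r Q κ δ ex η) (hξ : OnX G r Q κ ξ) (hE : Bas G r Q κ δ ξ a₀ E)
    (hu : Supp u s t) (i₀ : Fin n) (hi : i₀.val = 2 * κ + δ) (hs : κ + δ ≤ s) :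
    bform G r (u ᵥ* E) (fr Q 0 (u ᵥ* E)) = u i₀ * u i₀ ^ r * bform G r (E i₀) (E i₀) := by
  have hd := h.dim
  have hx := h.hex
  have key : bform G r (u ᵥ* E) (E i₀) = u i₀ * bform G r (E i₀) (E i₀) := by
    rw [bform_left, Finset.sum_eq_single i₀]
    · intro i _ hne
      have hne' : i.val ≠ i₀.val := fun e => hne (Fin.ext e)
      have hlt := i.isLt
      by_cases hi' : s ≤ i.val ∧ i.val < t
      · rw [hE.row i (by omega), show a₀ + i.val = (a₀ + i.val - δ) + δ by omega, ← fr_fr,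
          h.bform_sym, hE.perp i₀ hi _ (by omega) (by omega), zero_pow (rne_CXG2 h), mul_zero,
          mul_zero]
      · rw [hu i hi', zero_mul]
    · intro h'; exact absurd (Finset.mem_univ _) h'
  rw [h.bform_right, Finset.sum_eq_single i₀, fr_zero, key, pow_zero, mul_one]
  · ring
  · intro i _ hne
    have hne' : i.val ≠ i₀.val := fun e => hne (Fin.ext e)
    have hlt := i.isLt
    by_cases hi' : s ≤ i.val ∧ i.val < t
    · rw [hE.row i (by omega), fr_fr,
        sec_van h hξ hE hu (by omega) (by omega) (by omega), mul_zero]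
    · rw [hu i hi', zero_pow (rQne_CXG2 h 0), zero_mul]
  · intro h'; exact absurd (Finset.mem_univ _) h'

/-- cofactors of one row -/
theorem exists_cof {C L : Type} [CommRing C] [CommRing L] (σ : MvPolynomial (Fin n) C →+* L)
    (E : Matrix (Fin n) (Fin n) L) (i₀ : Fin n) (c : Fin n → ℕ)
    (hE : ∀ i, i ≠ i₀ → ∀ a, E i a = σ (X a) ^ c i) :
    ∃ (lam : Fin n → MvPolynomial (Fin n) C) (e : ℕ), (∀ a, (lam a).IsHomogeneous e) ∧
      ∀ i, ∑ a, σ (lam a) * E i a = if i = i₀ then E.det else 0 := by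
  refine ⟨fun a => det ((Matrix.of fun i b : Fin n => (X b : MvPolynomial (Fin n) C) ^ c i).updateRow
    i₀ (Pi.single a 1)), ∑ i, if i = i₀ then 0 else c i, fun a => ?_, fun i => ?_⟩
  · beta_reduce
    rw [← det_transpose, det_apply']
    refine IsHomogeneous.sum _ _ _ fun τ _ => ?_
    have h1 : (∏ i, ((Matrix.of fun i b : Fin n => (X b : MvPolynomial (Fin n) C) ^ c i).updateRow
        i₀ (Pi.single a 1))ᵀ (τ i) i).IsHomogeneous (∑ i, if i = i₀ then 0 else c i) := by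
      refine IsHomogeneous.prod _ _ _ fun i _ => ?_
      rw [transpose_apply]
      by_cases hi : i = i₀
      · rw [if_pos hi, hi, updateRow_self]
        by_cases ha : τ i₀ = a
        · rw [ha, Pi.single_eq_same]; exact isHomogeneous_one _ _
        · rw [Pi.single_eq_of_ne ha]; exact isHomogeneous_zero _ _ _
      · rw [if_neg hi, updateRow_ne hi, of_apply]
        exact isHomogeneous_X_pow _ _
    have h2 := (isHomogeneous_C (Fin n) ((Equiv.Perm.sign τ : ℤ) : C)).mul h1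
    rw [zero_add, map_intCast] at h2
    exact h2
  · have h1 : ∀ a, σ (det ((Matrix.of fun i b : Fin n =>
        (X b : MvPolynomial (Fin n) C) ^ c i).updateRow i₀ (Pi.single a 1))) =
        det (E.updateRow i₀ (Pi.single a 1)) := by
      intro a
      rw [RingHom.map_det]
      congr 1
      ext k b
      rw [RingHom.mapMatrix_apply, map_apply]
      by_cases hk : k = i₀
      · rw [hk, updateRow_self, updateRow_self]
        by_cases hb : b = a
        · rw [hb, Pi.single_eq_same, Pi.single_eq_same, map_one]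
        · rw [Pi.single_eq_of_ne hb, Pi.single_eq_of_ne hb, map_zero]
      · rw [updateRow_ne hk, updateRow_ne hk, of_apply, map_pow, hE k hk]
    simp only [h1]
    have h2 : ∑ a, det (E.updateRow i₀ (Pi.single a 1)) * E i a = (E * adjugate E) i i₀ := by
      rw [mul_apply]
      exact Finset.sum_congr rfl fun a _ => by rw [adjugate_apply, mul_comm]
    rw [h2, mul_adjugate, Matrix.smul_apply, one_apply, smul_eq_mul]
    split_ifs <;> simp

end Pool.Agent.CXD
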