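import Pool.Agent.P.MP_2ce3e7_ag.CXG2

/-! Existence of the basis; the incidence variety is a union of graphs. -/

set_option linter.unusedSectionVars false
set_option linter.unusedVariables false

open MvPolynomial Matrix

noncomputable section

namespace Pool.Agent.CXD

variable {n : ℕ} {F : Type} [Field F] {p r Q κ δ ex : ℕ} {G : Matrix (Fin n) (Fin n) F} {η : F}
  {ξ : Fin n → F}

theorem key_CXG3 (h : Hyp p G r Q κ δ ex η) (hξ : OnX G r Q κ ξ) (a₀ : ℕ)
    {E : Matrix (Fin n) (Fin n) F} (row : ∀ i : Fin n, i.val < 2 * κ + δ → E i = fr Q (a₀ + i) ξ)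
    (perp : ∀ i : Fin n, ¬ i.val < 2 * κ + δ → ∀ j, a₀ ≤ j → j < a₀ + (2 * κ + δ) →
      bform G r (E i) (fr Q j ξ) = 0) {u : Fin n → F} (hu : u ᵥ* E = 0) :
    ∀ i : Fin n, i.val < 2 * κ + δ → u i = 0 := by
  have h0 : ∀ y : Fin n → F, ∑ i, u i * bform G r (E i) y = 0 := by
    intro y
    rw [← bform_left, hu]
    simp [bform]
  have hlow : ∀ m : ℕ, ∀ i : Fin n, i.val < m → i.val < κ + δ → u i = 0 := by
    intro m
    induction m with
    | zero => intro i hi; omega
    | succ m ih =>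
      intro s hs hs'
      have h1 := h0 (fr Q (a₀ + s + κ) ξ)
      rw [Finset.sum_eq_single s] at h1
      · rw [row s (by omega)] at h1
        exact (mul_eq_zero.1 h1).resolve_right (h.gram_left hξ (a₀ + s)).ne_zero
      · intro i _ his
        have his' : i.val ≠ s.val := fun e => his (Fin.ext e)
        by_cases hi : i.val < s.val
        · rw [ih i (by omega) (by omega), zero_mul]
        · by_cases hw : i.val < 2 * κ + δ
          · rw [row i hw, h.gram_zero hξ.zero (by omega) (by omega), mul_zero]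
          · rw [perp i hw _ (by omega) (by omega), mul_zero]
      · intro hn; exact absurd (Finset.mem_univ _) hn
  have hup : ∀ m : ℕ, ∀ i : Fin n, 2 * κ + δ ≤ i.val + m → κ + δ ≤ i.val →
      i.val < 2 * κ + δ → u i = 0 := by
    intro m
    induction m with
    | zero => intro i hi _ _; omega
    | succ m ih =>
      intro s hs hs' hs''
      obtain ⟨j, hj⟩ : ∃ j, a₀ + s.val = j + δ + κ := ⟨a₀ + s.val - δ - κ, by omega⟩
      have h1 := h0 (fr Q j ξ)
      rw [Finset.sum_eq_single s] at h1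
      · rw [row s hs'', hj] at h1
        exact (mul_eq_zero.1 h1).resolve_right (h.gram_right hξ j).ne_zero
      · intro i _ his
        have his' : i.val ≠ s.val := fun e => his (Fin.ext e)
        by_cases hw : i.val < 2 * κ + δ
        · by_cases hi : i.val < s.val
          · rw [row i hw, h.gram_zero hξ.zero (by omega) (by omega), mul_zero]
          · rw [ih i (by omega) (by omega) hw, zero_mul]
        · rw [perp i hw _ (by omega) (by omega), mul_zero]
      · intro hn; exact absurd (Finset.mem_univ _) hn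
  intro i hi
  by_cases hl : i.val < κ + δ
  · exact hlow (i.val + 1) i (by omega) hl
  · exact hup (2 * κ + δ) i (by omega) (by omega) hi

theorem perp_CXG3 (h : Hyp p G r Q κ δ ex η) (ξ : Fin n → F) (a₀ : ℕ) :
    ∃ z : Fin n → F, (ex = 1 → z ≠ 0) ∧ ∀ j, a₀ ≤ j → j < a₀ + (2 * κ + δ) →
      bform G r z (fr Q j ξ) = 0 := by
  by_cases hex : ex = 1
  · let L : (Fin n → F) →ₗ[F] (Fin (2 * κ + δ) → F) :=
      { toFun := fun z k => bform G r z (fr Q (a₀ + k) ξ)
        map_add' := by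
          intro x y
          funext k
          simp [bform, add_mul, Finset.sum_add_distrib]
        map_smul' := by
          intro c x
          funext k
          simp [bform, Finset.mul_sum, mul_assoc] }
    have hk : LinearMap.ker L ≠ ⊥ := by
      apply LinearMap.ker_ne_bot_of_finrank_lt
      have := h.dim
      simp only [Module.finrank_fintype_fun_eq_card, Fintype.card_fin]
      omega
    obtain ⟨z, hz, hz0⟩ := Submodule.exists_mem_ne_zero_of_ne_bot hk
    refine ⟨z, fun _ => hz0, fun j h1 h2 => ?_⟩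
    have h3 := congrFun (LinearMap.mem_ker.1 hz) ⟨j - a₀, by omega⟩
    have h4 : a₀ + (j - a₀) = j := by omega
    have h5 : bform G r z (fr Q (a₀ + (j - a₀)) ξ) = 0 := h3
    rwa [h4] at h5
  · exact ⟨0, fun e => absurd e hex, fun j _ _ => by simp [bform]⟩

theorem coord_CXG3 {E : Matrix (Fin n) (Fin n) F} (hE : IsUnit E.det) (y : Fin n → F) :
    ∃ u : Fin n → F, y = u ᵥ* E :=
  ⟨y ᵥ* E⁻¹, by rw [vecMul_vecMul, nonsing_inv_mul E hE, vecMul_one]⟩

theorem single_CXG3 {E : Matrix (Fin n) (Fin n) F} {u : Fin n → F} (i₀ : Fin n)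
    (hu : ∀ i, i ≠ i₀ → u i = 0) : u ᵥ* E = u i₀ • E i₀ := by
  funext b
  simp only [vecMul, dotProduct, Pi.smul_apply, smul_eq_mul]
  rw [Finset.sum_eq_single i₀]
  · intro i _ hi
    rw [hu i hi, zero_mul]
  · intro hn; exact absurd (Finset.mem_univ _) hn

theorem rpos_CXG3 (h : Hyp p G r Q κ δ ex η) : r ≠ 0 := by
  obtain ⟨e, he⟩ := h.hr
  rw [he]
  exact pow_ne_zero _ h.prime.ne_zero

theorem Qpos_CXG3 (h : Hyp p G r Q κ δ ex η) (j : ℕ) : Q ^ j ≠ 0 := by
  obtain ⟨e, _, he⟩ := h.hQ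
  rw [he]
  exact pow_ne_zero _ (pow_ne_zero _ h.prime.ne_zero)

theorem desc_CXG3 (h : Hyp p G r Q κ δ ex η) (hξ : OnX G r Q κ ξ) {a₀ : ℕ}
    {E : Matrix (Fin n) (Fin n) F} (hE : Bas G r Q κ δ ξ a₀ E) {u : Fin n → F}
    (hy : ∀ j < κ, bform G r (u ᵥ* E) (fr Q j (u ᵥ* E)) = 0) (m : ℕ) :
    ∀ l s t : ℕ, l + m = κ → l + t = s + κ + 1 → 1 ≤ l + δ → t ≤ 2 * κ + δ → Supp u s t →
      ∃ s', s' + 1 ≤ 2 * κ + δ ∧ Supp u s' (s' + 1) := by
  induction m with
  | zero =>
    intro l s t h1 h2 h3 h4 hu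
    have ht : t = s + 1 := by omega
    subst ht
    exact ⟨s, h4, hu⟩
  | succ m ih =>
    intro l s t h1 h2 h3 h4 hu
    have hd := h.dim
    have h5 := eqn_node h hξ hE hu ⟨s, by omega⟩ ⟨t - 1, by omega⟩ rfl
      (by show t - 1 + 1 = t; omega) (by omega) h4 h2 h3
    rw [hy l (by omega)] at h5
    rcases mul_eq_zero.1 ((mul_eq_zero.1 h5.symm).resolve_right
      (h.gram_left hξ (a₀ + s)).ne_zero) with h6 | h6
    · refine ih (l + 1) (s + 1) t (by omega) (by omega) (by omega) h4 fun i hi => ?_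
      by_cases his : i.val = s
      · have : i = ⟨s, by omega⟩ := Fin.ext his
        rw [this]; exact h6
      · exact hu i (by omega)
    · have h7 := pow_eq_zero_iff (mul_ne_zero (rpos_CXG3 h) (Qpos_CXG3 h l)) |>.1 h6
      refine ih (l + 1) s (t - 1) (by omega) (by omega) (by omega) (by omega) fun i hi => ?_
      by_cases his : i.val = t - 1
      · have : i = ⟨t - 1, by omega⟩ := Fin.ext his
        rw [this]; exact h7
      · exact hu i (by omega)

theorem exists_bas (h : Hyp p G r Q κ δ ex η) (hξ : OnX G r Q κ ξ) (a₀ : ℕ) :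
    ∃ E, Bas G r Q κ δ ξ a₀ E := by
  obtain ⟨z, hz0, hz⟩ := perp_CXG3 h ξ a₀
  have hd := h.dim
  have hex := h.hex
  let E : Matrix (Fin n) (Fin n) F :=
    Matrix.of fun i => if i.val < 2 * κ + δ then fr Q (a₀ + i) ξ else z
  have row : ∀ i : Fin n, i.val < 2 * κ + δ → E i = fr Q (a₀ + i) ξ := fun i hi => if_pos hi
  have last : ∀ i : Fin n, ¬ i.val < 2 * κ + δ → E i = z := fun i hi => if_neg hi
  have perp : ∀ i : Fin n, ¬ i.val < 2 * κ + δ → ∀ j, a₀ ≤ j → j < a₀ + (2 * κ + δ) →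
      bform G r (E i) (fr Q j ξ) = 0 := fun i hi j h1 h2 => by rw [last i hi]; exact hz j h1 h2
  have hdet : IsUnit E.det := by
    rw [isUnit_iff_ne_zero]
    intro h0
    obtain ⟨u, hu0, hu⟩ := Matrix.exists_vecMul_eq_zero_iff.2 h0
    have h1 := key_CXG3 h hξ a₀ row perp hu
    apply hu0
    funext i
    by_cases hi : i.val < 2 * κ + δ
    · exact h1 i hi
    · have hi' := i.isLt
      rw [single_CXG3 i fun k hk => h1 k (by
        have := k.isLt
        have : k.val ≠ i.val := fun e => hk (Fin.ext e)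
        omega), last i hi] at hu
      exact (smul_eq_zero.1 hu).resolve_right (hz0 (by omega))
  refine ⟨E, row, hdet, fun i hi => perp i (by omega), fun i hi => ?_⟩
  have hi' := i.isLt
  rw [last i (by omega), isUnit_iff_ne_zero]
  intro h0
  have h1 : ∀ k, bform G r z (E k) = 0 := by
    intro k
    by_cases hk : k.val < 2 * κ + δ
    · rw [row k hk]; exact hz _ (by omega) (by omega)
    · rw [last k hk]; exact h0
  have h2 : ∀ y, bform G r z y = 0 := by
    intro y
    obtain ⟨u, rfl⟩ := coord_CXG3 hdet y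
    have h3 := h.bform_right (E := E) 0 z u
    rw [fr_zero] at h3
    rw [h3]
    refine Finset.sum_eq_zero fun k _ => ?_
    rw [fr_zero, h1, mul_zero]
  have h3 : z ᵥ* G = 0 := by
    funext b
    have h4 := h2 (Pi.single b 1)
    simp only [bform] at h4
    simp only [vecMul, dotProduct, Pi.zero_apply]
    rw [← h4]
    refine Finset.sum_congr rfl fun a _ => ?_
    rw [Finset.sum_eq_single b]
    · simp
    · intro c _ hc
      rw [Pi.single_eq_of_ne hc, zero_pow (rpos_CXG3 h), mul_zero]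
    · intro hn; exact absurd (Finset.mem_univ _) hn
  apply hz0 (by omega)
  have h5 : z ᵥ* G ᵥ* G⁻¹ = 0 := by rw [h3, zero_vecMul]
  rwa [vecMul_vecMul, mul_nonsing_inv G h.det, vecMul_one] at h5

theorem point_main (h : Hyp p G r Q κ δ ex η) (hξ : OnX G r Q κ ξ) (a₀ : ℕ) {y : Fin n → F}
    (hy : ∀ j < κ, bform G r y (fr Q j y) = 0)
    (hs : ∀ j, a₀ + κ ≤ j → j < a₀ + κ + (κ + ex * δ) → bform G r y (fr Q j ξ) = 0) :
    ∃ (i : ℕ) (c : F), i < a₀ + (2 * κ + δ) ∧ y = c • fr Q i ξ := by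
  obtain ⟨E, hE⟩ := exists_bas h hξ a₀
  obtain ⟨u, rfl⟩ := coord_CXG3 hE.det y
  have hd := h.dim
  have hex := h.hex
  have hδ := h.hδ
  have hκ := h.hκ
  have hed : ex * δ ≤ δ := by
    calc ex * δ ≤ 1 * δ := Nat.mul_le_mul_right _ hex
      _ = δ := one_mul _
  have h1 : ∀ s, s ≤ κ + ex * δ → Supp u s n := by
    intro s
    induction s with
    | zero => intro _ i hi; exact absurd ⟨Nat.zero_le _, i.isLt⟩ hi
    | succ s ih =>
      intro hs' i hi
      have hi' := i.isLt
      by_cases his : i.val = s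
      · have h2 := sec_left h hξ hE (ih (by omega)) i his (by omega) (Or.inr (by omega))
        rw [hs _ (by omega) (by omega)] at h2
        exact (mul_eq_zero.1 h2.symm).resolve_right (h.gram_left hξ (a₀ + s)).ne_zero
      · exact ih (by omega) i (by omega)
  have h2 : Supp u (κ + ex * δ) (2 * κ + δ) := by
    intro i hi
    have hi' := i.isLt
    by_cases his : i.val = 2 * κ + δ
    · have he : ex = 1 := by omega
      have h3 := eqn_zed h hξ hE (h1 _ le_rfl) i his (by rw [he, one_mul])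
      rw [hy 0 hκ] at h3
      rcases mul_eq_zero.1 ((mul_eq_zero.1 h3.symm).resolve_right (hE.zz i his).ne_zero) with
        h4 | h4
      · exact h4
      · exact (pow_eq_zero_iff (rpos_CXG3 h)).1 h4
    · exact h1 _ le_rfl i (by omega)
  obtain ⟨s, hs1, hs2⟩ := desc_CXG3 h hξ hE hy (κ - (1 + ex * δ - δ)) (1 + ex * δ - δ)
    (κ + ex * δ) (2 * κ + δ) (by omega) (by omega) (by omega) le_rfl h2
  refine ⟨a₀ + s, u ⟨s, by omega⟩, by omega, ?_⟩
  rw [single_CXG3 ⟨s, by omega⟩ fun k hk => hs2 k (by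
    have : k.val ≠ s := fun e => hk (Fin.ext e)
    omega), hE.row _ (by show s < _; omega)]

theorem geom (h : Hyp p G r Q κ δ ex η) (a₀ : ℕ) {x x' : Fin n → F} (hx : x ≠ 0)
    (hz : ∀ j < κ, bform G r x (fr Q j x) = 0) (hx' : OnX G r Q κ x')
    (hs : ∀ j, a₀ + κ ≤ j → j < a₀ + κ + (κ + ex * δ) → bform G r x' (fr Q j x) = 0) :
    ∃ (i : ℕ) (c : F), x' = c • fr Q i x := by
  have hκ := h.hκ
  obtain ⟨M, hM⟩ : ∃ M, M + 1 = 2 * (a₀ + κ) + (κ + ex * δ) :=
    ⟨2 * (a₀ + κ) + (κ + ex * δ) - 1, by omega⟩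
  obtain ⟨i, c, hi, hc⟩ := point_main h hx' a₀ (y := fr Q (M + δ) x) (fun j hj => by
      rw [fr_fr, add_comm (M + δ) j, ← fr_fr (M + δ) j, h.bform_fr, hz j hj,
        zero_pow (Qpos_CXG3 h _)])
    (fun j h1 h2 => by
      obtain ⟨k, hk⟩ : ∃ k, M = k + j := ⟨M - j, by omega⟩
      rw [← fr_fr, h.bform_sym, hk, ← fr_fr, h.bform_fr, hs k (by omega) (by omega),
        zero_pow (Qpos_CXG3 h _), zero_pow (rpos_CXG3 h), mul_zero])
  obtain ⟨k, hk⟩ : ∃ k, M + δ = k + i := ⟨M + δ - i, by omega⟩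
  rw [hk, ← fr_fr] at hc
  obtain ⟨a, ha⟩ : ∃ a, x a ≠ 0 := Function.ne_iff.1 hx
  have hv : fr Q k x a ≠ 0 := pow_ne_zero _ ha
  refine ⟨k, x' a / fr Q k x a, ?_⟩
  funext b
  obtain ⟨e, _, he⟩ := h.hQ
  have := h.char
  have : Fact p.Prime := ⟨h.prime⟩
  have h1 : ∀ d, fr Q k x d ^ Q ^ i = c * x' d ^ Q ^ i := fun d => congrFun hc d
  have h2 : (fr Q k x a * x' b - fr Q k x b * x' a) ^ Q ^ i = 0 := by
    have h3 : Q ^ i = p ^ (e * i) := by rw [he, pow_mul]
    have h4 := sub_pow_char_pow (p := p) (n := e * i) (fr Q k x a * x' b) (fr Q k x b * x' a)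
    rw [← h3] at h4
    rw [h4, mul_pow, mul_pow, h1, h1]
    ring
  have h5 := sub_eq_zero.1 ((pow_eq_zero_iff (Qpos_CXG3 h i)).1 h2)
  simp only [Pi.smul_apply, smul_eq_mul]
  field_simp
  linear_combination h5

end Pool.Agent.CXD
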