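import Pool.Agent.P.MP_2ce3e7_ag.CXT
import Pool.Agent.P.MP_2ce3e7_ag.CXL

/-! Ideals of families of coordinate subspaces. -/

set_option linter.unusedSectionVars false
set_option linter.unusedVariables false

open MvPolynomial

noncomputable section

namespace Pool.Agent.CXD

attribute [local instance] MvPolynomial.gradedAlgebra

variable {n : ℕ} {K L : Type} [CommRing K] [Field L]

/-- restriction to the generic point of the family of subspaces -/
def tw (σ : Po n K →+* L) (E : Matrix (Fin n) (Fin n) L) (s t : ℕ) : Bo n K →+* Po n L :=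
  (par E s t : Po n L →+* Po n L).comp (th σ)

/-- the ideal of the family -/
def Jw (σ : Po n K →+* L) (E : Matrix (Fin n) (Fin n) L) (s t : ℕ) : Ideal (Bo n K) :=
  RingHom.ker (tw σ E s t)

/-- the ideal of the closure of a generic hypersurface section -/
def Kw (σ : Po n K →+* L) (E : Matrix (Fin n) (Fin n) L) (s t : ℕ) (g : Bo n K) : Ideal (Bo n K) :=
  (Ideal.span {tw σ E s t g}).comap (tw σ E s t)

variable {σ : Po n K →+* L} {E : Matrix (Fin n) (Fin n) L} {s t s' t' : ℕ} {g h : Bo n K}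

theorem mem_Jw : g ∈ Jw σ E s t ↔ tw σ E s t g = 0 := Iff.rfl

theorem mem_Kw : h ∈ Kw σ E s t g ↔ tw σ E s t g ∣ tw σ E s t h := Ideal.mem_span_singleton

theorem tw_apply_CXK (F : Bo n K) : tw σ E s t F = par E s t (th σ F) := rfl

theorem par_C_CXK (c : L) : par E s t (C c) = C c := by
  simp [par]

theorem kil_C_CXK (c : L) : (kil s t (C c) : Po n L) = C c := by
  simp [kil]

theorem kil_tw_CXK (F : Bo n K) : kil s t (tw σ E s t F) = tw σ E s t F := by
  rw [tw_apply_CXK, kil_par le_rfl le_rfl]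

theorem tw_io (f : Po n K) : tw σ E s t (io f) = C (σ f) := by
  rw [tw_apply_CXK, th_io, par_C_CXK]

theorem tw_X (a : Fin n) : tw σ E s t (X a) = C (σ (X a)) := by
  rw [tw_apply_CXK, th_X, par_C_CXK]

theorem tw_C_X (a : Fin n) : tw σ E s t (C (X a)) = Matrix.vecMul (uW L n s t) (E.map C) a := by
  rw [tw_apply_CXK, th_C, map_X, par, aeval_X]

theorem tw_C_C (c : K) : tw σ E s t (C (C c)) = C (σ (C c)) := by
  rw [tw_apply_CXK, th_C, map_C, par_C_CXK]
  rfl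

theorem Jw_prime : (Jw σ E s t).IsPrime := by
  exact RingHom.ker_isPrime _

theorem ker_le_Jw : (RingHom.ker σ).map io ≤ Jw σ E s t := by
  rw [← th_ker]
  intro F hF
  rw [mem_Jw, tw_apply_CXK, RingHom.mem_ker.1 hF, map_zero]

theorem Jw_zero (hE : IsUnit E.det) : Jw σ E 0 n = (RingHom.ker σ).map io := by
  refine le_antisymm ?_ ker_le_Jw
  rw [← th_ker]
  intro F hF
  rw [mem_Jw, tw_apply_CXK] at hF
  exact RingHom.mem_ker.2 (par_inj hE (hF.trans (map_zero _).symm))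

theorem sup_le_Kw : Jw σ E s t ⊔ Ideal.span {g} ≤ Kw σ E s t g := by
  refine sup_le (fun F hF => ?_) ((Ideal.span_singleton_le_iff_mem _).2 (mem_Kw.2 dvd_rfl))
  rw [mem_Kw, mem_Jw.1 hF]
  exact dvd_zero _

theorem Kw_den (hE : IsUnit E.det) (hσ : ∀ y : L, ∃ f h, σ h ≠ 0 ∧ σ h * y = σ f) (F : Bo n K) :
    F ∈ Kw σ E s t g ↔ ∃ h, h ∉ RingHom.ker σ ∧ io h * F ∈ Jw σ E s t ⊔ Ideal.span {g} := by
  constructor
  · intro hF
    obtain ⟨H, hH⟩ := mem_Kw.1 hF
    obtain ⟨H', hH'⟩ := par_surj (s := s) (t := t) hE H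
    obtain ⟨h, F', hh, hF'⟩ := th_den σ hσ H'
    refine ⟨h, hh, ?_⟩
    have e1 : tw σ E s t F = tw σ E s t g * kil s t H := by
      rw [← kil_tw_CXK F, hH, map_mul, kil_tw_CXK]
    have e2 : tw σ E s t F' = C (σ h) * kil s t H := by
      rw [tw_apply_CXK, ← hF', map_mul, par_C_CXK, hH']
    have e3 : io h * F - g * F' ∈ Jw σ E s t := by
      rw [mem_Jw, map_sub, map_mul, map_mul, tw_io, e1, e2]
      ring
    have e4 : io h * F = (io h * F - g * F') + g * F' := by ring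
    rw [e4]
    exact Submodule.add_mem_sup e3 (Ideal.mul_mem_right _ _ (Ideal.mem_span_singleton_self g))
  · rintro ⟨h, hh, hF⟩
    have e1 := mem_Kw.1 (sup_le_Kw hF)
    rw [map_mul, tw_io] at e1
    have hu : IsUnit (C (σ h) : Po n L) := (IsUnit.mk0 _ hh).map C
    exact mem_Kw.2 (hu.dvd_mul_left.1 e1)

theorem Kw_step (i₀ : Fin n) (hs : s ≤ s') (ht : t' ≤ t)
    (hi : ∀ i : Fin n, (s' ≤ i.val ∧ i.val < t') ↔ (s ≤ i.val ∧ i.val < t) ∧ i ≠ i₀) {c : L}
    (hc : c ≠ 0) (hg : tw σ E s t g = X i₀ * C c) : Kw σ E s t g = Jw σ E s' t' := by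
  ext F
  have hu : IsUnit (C c : Po n L) := (IsUnit.mk0 _ hc).map C
  rw [mem_Kw, mem_Jw, hg, hu.mul_right_dvd, tw_apply_CXK, tw_apply_CXK, par_step i₀ hs ht hi]

theorem Kw_colon (hh : tw σ E s t h ≠ 0) : (Kw σ E s t (g * h)).colon {h} = Kw σ E s t g := by
  ext F
  rw [Submodule.mem_colon_singleton, smul_eq_mul, mem_Kw, mem_Kw, map_mul, map_mul,
    mul_dvd_mul_iff_right hh]

theorem Kw_hom (hE : IsUnit E.det) (hσ : ∀ y : L, ∃ f h, σ h ≠ 0 ∧ σ h * y = σ f)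
    (h𝔮 : (RingHom.ker σ).IsHomogeneous (gr n K))
    (hJ : (Jw σ E s t).IsHomogeneous (gr n (Po n K))) {c : ℕ} (hg : g ∈ gr n (Po n K) c) :
    (Kw σ E s t g).IsHomogeneous (gr n (Po n K)) ∧
      ∀ F ∈ Kw σ E s t g, ∃ u ∈ Tset (RingHom.ker σ), u * F ∈ Jw σ E s t ⊔ Ideal.span {g} := by
  have hp : (RingHom.ker σ).IsPrime := RingHom.ker_isPrime σ
  have hI := hom_sup hJ hg
  have hq : (RingHom.ker σ).map io ≤ Jw σ E s t ⊔ Ideal.span {g} := ker_le_Jw.trans le_sup_left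
  refine ⟨sat_hom hp h𝔮 hI hq (Kw_den hE hσ), fun F hF => ?_⟩
  obtain ⟨h, hh, hF'⟩ := (Kw_den hE hσ F).1 hF
  exact den_hom hp hI hq hh h𝔮 hF'

end Pool.Agent.CXD
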