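import Pool.Agent.P.MP_2ce3e7_ag.CXO
import Pool.Agent.P.MP_2ce3e7_ag.CXK
import Pool.Agent.P.MP_2ce3e7_ag.CXG

/-! The last step: points of the graph. -/

set_option linter.unusedSectionVars false
set_option linter.unusedVariables false

open MvPolynomial

noncomputable section

namespace Pool.Agent.CXD

attribute [local instance] MvPolynomial.gradedAlgebra

variable {n : ℕ} {K L : Type} [CommRing K] [Field L]

/-- the equation `b * v ^ N = 1` -/
def poN (b : L) (N : ℕ) : Polynomial L := Polynomial.C b * Polynomial.X ^ N - 1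

/-- the point `v • ξ` with `b * v ^ N = 1` -/
def ps (σ : Po n K →+* L) (b : L) (N : ℕ) : Po n K →+* AdjoinRoot (poN b N) :=
  eval₂Hom ((AdjoinRoot.of (poN b N)).comp (σ.comp C))
    fun a => AdjoinRoot.root (poN b N) * AdjoinRoot.of (poN b N) (σ (X a))

variable {σ : Po n K →+* L} {b : L} {N : ℕ}

theorem ps_hom {f : Po n K} {c : ℕ} (hf : f.IsHomogeneous c) :
    ps σ b N f = AdjoinRoot.root (poN b N) ^ c * AdjoinRoot.of (poN b N) (σ f) := by
  have h : eval₂Hom ((AdjoinRoot.of (poN b N)).comp (σ.comp C))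
      (fun a => AdjoinRoot.of (poN b N) (σ (X a))) = (AdjoinRoot.of (poN b N)).comp σ := by
    refine MvPolynomial.ringHom_ext (fun r => ?_) (fun a => ?_)
    · simp
    · simp
  unfold ps
  rw [eval_scale _ _ _ hf, h]
  rfl

theorem eval_poN_CXP {R : Type} [CommRing R] (f : L →+* R) (x : R) :
    Polynomial.eval₂ f x (poN b N) = f b * x ^ N - 1 := by
  simp [poN, Polynomial.eval₂_sub, Polynomial.eval₂_pow]

theorem root_eq : AdjoinRoot.of (poN b N) b * AdjoinRoot.root (poN b N) ^ N = 1 := by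
  have h := AdjoinRoot.eval₂_root (poN b N)
  rw [eval_poN_CXP] at h
  exact sub_eq_zero.1 h

theorem root_unit_CXP (hN : 0 < N) : IsUnit (AdjoinRoot.root (poN b N)) := by
  have h : IsUnit (AdjoinRoot.root (poN b N) ^ N) :=
    IsUnit.of_mul_eq_one_right _ (root_eq (b := b) (N := N))
  exact (isUnit_pow_iff hN.ne').1 h

theorem exists_ab_CXP {q : ℕ} (hN : 0 < N) (hq : 0 < q) (hc : Nat.Coprime q N) :
    ∃ α β : ℕ, α * q = 1 + N * β := by
  have h1 := Nat.ModEq.pow_totient hc
  have h2 : 1 ≤ q ^ Nat.totient N := Nat.one_le_pow _ _ hq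
  obtain ⟨β, hβ⟩ := (Nat.modEq_iff_dvd' h2).1 h1.symm
  have h3 : 0 < Nat.totient N := Nat.totient_pos.2 hN
  refine ⟨q ^ (Nat.totient N - 1), β, ?_⟩
  rw [← pow_succ, Nat.sub_add_cancel h3]
  omega

theorem tw_row_CXP {E : Matrix (Fin n) (Fin n) L} {s : ℕ} (i₀ : Fin n) (hi : i₀.val = s)
    (a : Fin n) : tw σ E s (s + 1) (C (X a)) = X i₀ * C (E i₀ a) := by
  rw [tw_C_X]
  unfold Matrix.vecMul dotProduct
  rw [Finset.sum_eq_single i₀]
  · have : s ≤ i₀.val ∧ i₀.val < s + 1 := by omega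
    simp [uW, this]
  · intro i _ hne
    have : ¬ (s ≤ i.val ∧ i.val < s + 1) := by
      intro h
      exact hne (Fin.ext (by omega))
    simp only [uW, if_neg this, zero_mul]
  · intro h
    exact absurd (Finset.mem_univ _) h

theorem ps_C_CXP (c : K) : ps σ b N (C c) = AdjoinRoot.of (poN b N) (σ (C c)) := by
  simp [ps]

theorem ps_X_CXP (a : Fin n) :
    ps σ b N (X a) = AdjoinRoot.root (poN b N) * AdjoinRoot.of (poN b N) (σ (X a)) := by
  simp [ps]

theorem ps_eq_zero (hb : b ≠ 0) (hN : 0 < N) {f : Po n K} {c : ℕ} (hf : f.IsHomogeneous c) :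
    ps σ b N f = 0 ↔ σ f = 0 := by
  have hd : (poN b N).degree ≠ 0 := by
    have h1 : (Polynomial.C b * Polynomial.X ^ N : Polynomial L).degree = N :=
      Polynomial.degree_C_mul_X_pow N hb
    have h2 : (0 : WithBot ℕ) < (Polynomial.C b * Polynomial.X ^ N : Polynomial L).degree := by
      rw [h1]; exact_mod_cast hN
    have h3 := Polynomial.degree_sub_C (a := (1 : L)) h2
    rw [Polynomial.C_1] at h3
    unfold poN
    rw [h3]
    exact h2.ne'
  rw [ps_hom hf, ((root_unit_CXP hN).pow c).mul_right_eq_zero]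
  exact map_eq_zero_iff _ (AdjoinRoot.of.injective_of_degree_ne_zero hd)

theorem mem_Kw_iff {E : Matrix (Fin n) (Fin n) L} {s q : ℕ} (i₀ : Fin n) (hi : i₀.val = s)
    (hE : ∀ a, E i₀ a = σ (X a) ^ q) (hN : 0 < N) (hq : 0 < q) (hc : Nat.Coprime q N) {g : Bo n K}
    (hg : tw σ E s (s + 1) g = X i₀ ^ N * C (b ^ q) - 1) {F : Bo n K} {τ : ℕ}
    (hF : F ∈ gr n (Po n K) τ) : F ∈ Kw σ E s (s + 1) g ↔ gra (ps σ b N) q F = 0 := by
  let ev : Bo n K →+* AdjoinRoot (poN b N) :=
    eval₂Hom ((ps σ b N).comp (expand q : Po n K →ₐ[K] Po n K).toRingHom)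
      fun a => AdjoinRoot.of (poN b N) (σ (X a))
  have hgra : gra (ps σ b N) q F = AdjoinRoot.root (poN b N) ^ τ * ev F := by
    unfold gra
    simp only [ps_X_CXP]
    exact eval_scale _ _ _ hF
  have e1 : ∀ c : K, ev (C (C c)) = AdjoinRoot.of (poN b N) (σ (C c)) := by
    intro c
    simp [ev, ps_C_CXP]
  have e2 : ∀ a, ev (C (X a)) =
      AdjoinRoot.root (poN b N) ^ q * AdjoinRoot.of (poN b N) (E i₀ a) := by
    intro a
    simp [ev, ps_X_CXP, hE, mul_pow]
  have e3 : ∀ a, ev (X a) = AdjoinRoot.of (poN b N) (σ (X a)) := by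
    intro a
    simp [ev]
  rw [hgra, ((root_unit_CXP hN).pow τ).mul_right_eq_zero]
  constructor
  · intro h
    let ω : Po n L →+* AdjoinRoot (poN b N) :=
      eval₂Hom (AdjoinRoot.of (poN b N)) fun _ => AdjoinRoot.root (poN b N) ^ q
    have w1 : ∀ y : L, ω (C y) = AdjoinRoot.of (poN b N) y := by
      intro y
      simp [ω]
    have w2 : ∀ j, ω (X j) = AdjoinRoot.root (poN b N) ^ q := by
      intro j
      simp [ω]
    have hω : ω.comp (tw σ E s (s + 1)) = ev := by
      refine MvPolynomial.ringHom_ext' ?_ (fun a => ?_)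
      · refine MvPolynomial.ringHom_ext (fun c => ?_) (fun a => ?_)
        · rw [RingHom.comp_apply, RingHom.comp_apply, RingHom.comp_apply, tw_C_C, w1, e1]
        · rw [RingHom.comp_apply, RingHom.comp_apply, RingHom.comp_apply, tw_row_CXP i₀ hi,
            map_mul, w1, w2, e2]
      · rw [RingHom.comp_apply, tw_X, w1, e3]
    obtain ⟨H, hH⟩ := mem_Kw.1 h
    have h0 : ω (tw σ E s (s + 1) g) = 0 := by
      rw [hg, map_sub, map_mul, map_pow, w1, w2, map_one, map_pow, ← pow_mul, mul_comm q N,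
        pow_mul, ← mul_pow, mul_comm, root_eq, one_pow, sub_self]
    rw [← hω, RingHom.comp_apply, hH, map_mul, h0, zero_mul]
  · intro h
    obtain ⟨α, β, hab⟩ := exists_ab_CXP hN hq hc
    let mk := Ideal.Quotient.mk (Ideal.span {tw σ E s (s + 1) g})
    have hu : mk (X i₀) ^ N * mk (C b) ^ q = 1 := by
      have h0 : mk (X i₀ ^ N * C (b ^ q) - 1) = 0 :=
        Ideal.Quotient.eq_zero_iff_mem.2 (Ideal.mem_span_singleton.2 (dvd_of_eq hg))
      rw [map_sub, map_mul, map_pow, map_one, map_pow, map_pow] at h0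
      exact sub_eq_zero.1 h0
    have hv1 : mk (C b) * (mk (X i₀) ^ α * mk (C b) ^ β) ^ N = 1 := by
      have : mk (C b) * (mk (X i₀) ^ α * mk (C b) ^ β) ^ N =
          (mk (X i₀) ^ N) ^ α * mk (C b) ^ (1 + N * β) := by ring
      rw [this, ← hab, mul_comm α q, pow_mul, ← mul_pow, hu, one_pow]
    have hv2 : (mk (X i₀) ^ α * mk (C b) ^ β) ^ q = mk (X i₀) := by
      have : (mk (X i₀) ^ α * mk (C b) ^ β) ^ q =
          mk (X i₀) ^ (α * q) * (mk (C b) ^ q) ^ β := by ring
      rw [this, hab, pow_add, pow_one, pow_mul, mul_assoc, ← mul_pow, hu, one_pow, mul_one]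
    have hl : Polynomial.eval₂ (mk.comp C) (mk (X i₀) ^ α * mk (C b) ^ β) (poN b N) = 0 := by
      rw [eval_poN_CXP, RingHom.comp_apply, hv1, sub_self]
    let ψ := AdjoinRoot.lift (mk.comp C) (mk (X i₀) ^ α * mk (C b) ^ β) hl
    have p1 : ∀ y : L, ψ (AdjoinRoot.of (poN b N) y) = mk (C y) := fun y => AdjoinRoot.lift_of hl
    have p2 : ψ (AdjoinRoot.root (poN b N)) = mk (X i₀) ^ α * mk (C b) ^ β :=
      AdjoinRoot.lift_root hl
    have hψ : ψ.comp ev = mk.comp (tw σ E s (s + 1)) := by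
      refine MvPolynomial.ringHom_ext' ?_ (fun a => ?_)
      · refine MvPolynomial.ringHom_ext (fun c => ?_) (fun a => ?_)
        · simp only [RingHom.comp_apply]
          rw [tw_C_C, e1, p1]
        · simp only [RingHom.comp_apply]
          rw [tw_row_CXP i₀ hi, e2, map_mul, map_pow, p1, p2, hv2, map_mul]
      · simp only [RingHom.comp_apply]
        rw [tw_X, e3, p1]
    have h1 : mk (tw σ E s (s + 1) F) = 0 := by
      rw [← RingHom.comp_apply, ← hψ, RingHom.comp_apply, h, map_zero]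
    exact mem_Kw.2 (Ideal.mem_span_singleton.1 (Ideal.Quotient.eq_zero_iff_mem.1 h1))

end Pool.Agent.CXD
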