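import Pool.Agent.P.MP_2ce3e7_ag.CXN
import Pool.Agent.P.MP_2ce3e7_ag.CXP
import Pool.Agent.P.MP_2ce3e7_ag.CXF

/-! The tree of cuts. -/

set_option linter.unusedSectionVars false
set_option linter.unusedVariables false

open MvPolynomial
open scoped TensorProduct

noncomputable section

namespace Pool.Agent.CXD

attribute [local instance] MvPolynomial.gradedAlgebra

variable {n : ℕ} {K L : Type} [CommRing K] [Field L]

/-- the generic point of the prime, with a basis -/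
structure Gen (G : Matrix (Fin n) (Fin n) K) (r Q κ δ : ℕ) (σ : Po n K →+* L) (a₀ : ℕ)
    (E : Matrix (Fin n) (Fin n) L) : Prop where
  pri : Pri G r Q κ (RingHom.ker σ)
  den : ∀ y : L, ∃ f h, σ h ≠ 0 ∧ σ h * y = σ f
  bas : Bas (G.map (σ.comp C)) r Q κ δ (fun a => σ (X a)) a₀ E
  pos : 1 ≤ a₀

/-- the classes of the Frobenius images -/
def Yv (G : Matrix (Fin n) (Fin n) K) (r Q κ : ℕ) (σ : Po n K →+* L) (χ : Val (Po n K)) (i : ℕ) : ℚ :=
  (push (expand (Q ^ i) : Po n K →ₐ[K] Po n K).toRingHom χ).val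
    (Po n K ⧸ RingHom.ker (ps σ (σ (bj G r Q κ)) (1 + r * Q ^ κ)))

variable {p r Q κ δ ex : ℕ} {G : Matrix (Fin n) (Fin n) K} {η : K} {σ : Po n K →+* L}
  {χ : Val (Po n K)} {a₀ s t : ℕ} {E : Matrix (Fin n) (Fin n) L}

theorem Pri.onX (h : Pri G r Q κ (RingHom.ker σ)) :
    OnX (G.map (σ.comp C)) r Q κ fun a => σ (X a) := by
  refine ⟨fun j hj => ?_, ?_⟩
  · rw [← hom_bj σ j]
    exact h.mem j hj
  · rw [← hom_bj σ κ]
    exact isUnit_iff_ne_zero.2 h.nmem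

theorem rel_le_ps (h : Pri G r Q κ (RingHom.ker σ)) :
    rel G r Q κ ≤ RingHom.ker (ps σ (σ (bj G r Q κ)) (1 + r * Q ^ κ)) := by
  rw [rel_eq, lev_le]
  intro j hj
  rw [RingHom.mem_ker, eqn]
  split_ifs with hjκ
  · rw [ps_hom (bj_hom j), RingHom.mem_ker.1 (h.mem j hjκ), map_zero, mul_zero]
  · rw [map_sub, map_one, ps_hom (bj_hom κ), mul_comm (AdjoinRoot.root _ ^ _), root_eq, sub_self]

theorem mat_CXM : G.map (((tw σ E s t).comp C).comp C) = (G.map (σ.comp C)).map C := by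
  ext1 a b
  exact tw_C_C (G a b)

theorem hyp_CXM (h : Hyp p G r Q κ δ ex η) (σ : Po n K →+* L) :
    Hyp p ((G.map (σ.comp C)).map (C : L →+* Po n L)) r Q κ δ ex (C ((σ.comp C) η)) :=
  (h.map (σ.comp C)).map C

theorem onx_CXM (hg : Gen G r Q κ δ σ a₀ E) :
    OnX ((G.map (σ.comp C)).map (C : L →+* Po n L)) r Q κ fun a => C (σ (X a)) :=
  hg.pri.onX.map C

theorem bas_CXM (hg : Gen G r Q κ δ σ a₀ E) :
    Bas ((G.map (σ.comp C)).map (C : L →+* Po n L)) r Q κ δ (fun a => C (σ (X a))) a₀ (E.map C) :=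
  hg.bas.map C

theorem uW_CXM (i : Fin n) (h1 : s ≤ i.val) (h2 : i.val < t) : uW L n s t i = X i :=
  if_pos ⟨h1, h2⟩

theorem gram_CXM (i j : ℕ) :
    bform ((G.map (σ.comp C)).map (C : L →+* Po n L)) r (fr Q i fun a => C (σ (X a)))
      (fr Q j fun a => C (σ (X a))) =
    C (bform (G.map (σ.comp C)) r (fr Q i fun a => σ (X a)) (fr Q j fun a => σ (X a))) := by
  rw [map_bform, map_fr, map_fr]

theorem tw_sec (j : ℕ) : tw σ E s t (sec G r Q j) =
    bform ((G.map (σ.comp C)).map C) r (Matrix.vecMul (uW L n s t) (E.map C))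
      (fr Q j fun a => C (σ (X a))) := by
  rw [hom_sec, mat_CXM]
  simp only [tw_C_X, tw_X]

theorem tw_bj (j : ℕ) : tw σ E s t (C (bj G r Q j)) =
    bform ((G.map (σ.comp C)).map C) r (Matrix.vecMul (uW L n s t) (E.map C))
      (fr Q j (Matrix.vecMul (uW L n s t) (E.map C))) := by
  have h1 := hom_bj (G := G) (r := r) (Q := Q) ((tw σ E s t).comp C) j
  rw [mat_CXM] at h1
  simp only [RingHom.comp_apply, tw_C_X] at h1
  exact h1

theorem supp_uW : Supp (uW L n s t) s t := by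
  intro i hi
  exact if_neg hi

theorem sec_mem (h : Hyp p G r Q κ δ ex η) (hg : Gen G r Q κ δ σ a₀ E) {j : ℕ} (hj : j < s)
    (hj' : j < κ + δ) : sec G r Q (a₀ + κ + j) ∈ Jw σ E s t := by
  rw [mem_Jw, tw_sec]
  have hκ := h.hκ
  exact sec_van (hyp_CXM h σ) (onx_CXM hg) (bas_CXM hg) supp_uW (by omega) (by omega) (by omega)

/-- the section that removes the first vector -/
theorem tw_left (h : Hyp p G r Q κ δ ex η) (hg : Gen G r Q κ δ σ a₀ E) (i₀ : Fin n)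
    (hi : i₀.val = s) (hst : s < t) (hs : s < 2 * κ + δ) (ht : t ≤ 2 * κ + δ ∨ s < κ + δ) :
    ∃ c : L, c ≠ 0 ∧ tw σ E s t (sec G r Q (a₀ + κ + s)) = X i₀ * C c := by
  have hu := (h.map (σ.comp C)).gram_left hg.pri.onX (a₀ + s)
  refine ⟨_, hu.ne_zero, ?_⟩
  rw [tw_sec, show a₀ + κ + s = a₀ + s + κ by ring,
    sec_left (hyp_CXM h σ) (onx_CXM hg) (bas_CXM hg) supp_uW i₀ hi hs ht,
    uW_CXM i₀ (by omega) (by omega), gram_CXM]

/-- the section that removes the last vector -/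
theorem tw_right (h : Hyp p G r Q κ δ ex η) (hg : Gen G r Q κ δ σ a₀ E) (i₁ : Fin n)
    (hi : i₁.val + 1 = t) (hst : s < t) (hs : κ ≤ s) (ht : t ≤ 2 * κ + δ) :
    ∃ (j : ℕ) (c : L), c ≠ 0 ∧ tw σ E s t (sec G r Q j) = X i₁ * C c := by
  have h1 := hg.pos
  have h2 := h.hδ
  obtain ⟨j, hj⟩ : ∃ j, a₀ + i₁.val = j + δ + κ := ⟨a₀ + i₁.val - δ - κ, by omega⟩
  have hu := (h.map (σ.comp C)).gram_right hg.pri.onX j
  refine ⟨j, _, hu.ne_zero, ?_⟩
  rw [tw_sec, sec_right (hyp_CXM h σ) (onx_CXM hg) (bas_CXM hg) supp_uW i₁ hi ht hj,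
    uW_CXM i₁ (by omega) (by omega), gram_CXM]

theorem lev_le_Jw (h : Hyp p G r Q κ δ ex η) (hg : Gen G r Q κ δ σ a₀ E) (hst : s < t)
    (ht : t ≤ 2 * κ + δ) {l : ℕ} (hl : l + t = s + κ + 1) :
    (lev (eqn G r Q κ) l).map C ≤ Jw σ E s t := by
  rw [Ideal.map_le_iff_le_comap, lev_le]
  intro j hj
  rw [Ideal.mem_comap, mem_Jw, eqn, if_pos (by omega), tw_bj]
  exact eqn_van (hyp_CXM h σ) (onx_CXM hg) (bas_CXM hg) supp_uW ht (by omega)

theorem tw_node (h : Hyp p G r Q κ δ ex η) (hg : Gen G r Q κ δ σ a₀ E) (i₀ i₁ : Fin n)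
    (hi₀ : i₀.val = s) (hi₁ : i₁.val + 1 = t) (hst : s < t) (ht : t ≤ 2 * κ + δ) {l : ℕ}
    (hl : l + t = s + κ + 1) (hl' : 1 ≤ l + δ) : tw σ E s t (C (bj G r Q l)) =
      X i₀ * X i₁ ^ (r * Q ^ l) * C (σ (bj G r Q κ) ^ Q ^ (a₀ + s)) := by
  rw [tw_bj, eqn_node (hyp_CXM h σ) (onx_CXM hg) (bas_CXM hg) supp_uW i₀ i₁ hi₀ hi₁ hst ht hl hl',
    uW_CXM i₀ (by omega) (by omega), uW_CXM i₁ (by omega) (by omega), gram_CXM,
    show a₀ + s + κ = κ + (a₀ + s) by ring, ← fr_fr (a₀ + s) κ, (h.map (σ.comp C)).bform_fr,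
    ← hom_bj σ κ]

theorem tw_zed (h : Hyp p G r Q κ δ ex η) (hg : Gen G r Q κ δ σ a₀ E) (i₀ : Fin n)
    (hi : i₀.val = 2 * κ + δ) (hs : κ + δ ≤ s) (hst : s ≤ 2 * κ + δ) :
    (∃ c : L, c ≠ 0 ∧ tw σ E s n (C (bj G r Q 0)) = X i₀ * X i₀ ^ r * C c) ∧
      ∃ (g : Bo n K) (e : ℕ) (c : L), g ∈ gr n (Po n K) e ∧ c ≠ 0 ∧ tw σ E s n g = X i₀ * C c := by
  have hn := i₀.2
  have hd := h.dim
  have he := h.hex
  refine ⟨⟨_, (hg.bas.zz i₀ hi).ne_zero, ?_⟩, ?_⟩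
  · rw [tw_bj, eqn_zed (hyp_CXM h σ) (onx_CXM hg) (bas_CXM hg) supp_uW i₀ hi hs,
      uW_CXM i₀ (by omega) hn, map_bform]
    rfl
  · obtain ⟨lam, e, hlam, hsum⟩ := exists_cof σ E i₀ (fun i => Q ^ (a₀ + i.val)) (by
      intro i hne a
      have h1 : i.val ≠ i₀.val := fun h2 => hne (Fin.ext h2)
      have h2 := i.2
      rw [hg.bas.row i (by omega)]
      rfl)
    refine ⟨∑ a, io (lam a) * C (X a), e, E.det, ?_, hg.bas.det.ne_zero, ?_⟩
    · refine Submodule.sum_mem _ fun a _ => ?_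
      exact (show (io (lam a)).IsHomogeneous e from io_hom (hlam a)).mul (isHomogeneous_C _ _)
    · simp only [map_sum, map_mul, tw_io, tw_C_X, Matrix.vecMul, dotProduct, Matrix.map_apply,
        Finset.mul_sum]
      rw [Finset.sum_comm]
      have h3 : ∀ i : Fin n, ∑ a, C (σ (lam a)) * (uW L n s n i * C (E i a)) =
          uW L n s n i * C (if i = i₀ then E.det else 0) := by
        intro i
        rw [← hsum i, map_sum, Finset.mul_sum]
        refine Finset.sum_congr rfl fun a _ => ?_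
        rw [map_mul]
        ring
      rw [Finset.sum_congr rfl fun i _ => h3 i, Finset.sum_eq_single i₀]
      · rw [if_pos rfl, uW_CXM i₀ (by omega) hn]
      · intro i _ hne
        rw [if_neg hne, map_zero, mul_zero]
      · intro h4
        exact absurd (Finset.mem_univ _) h4

end Pool.Agent.CXD
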