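import Pool.Agent.P.MP_2ce3e7_ag.CXB

/-! The generic fibre of a bigraded polynomial ring. -/

set_option linter.unusedSectionVars false
set_option linter.unusedVariables false

open MvPolynomial
open scoped TensorProduct

noncomputable section

namespace Pool.Agent.CXD

attribute [local instance] MvPolynomial.gradedAlgebra

/-- polynomials in one set of variables -/
abbrev Po (n : ℕ) (C : Type) [CommRing C] := MvPolynomial (Fin n) C

/-- polynomials in two sets of variables: outer `x`, inner `x'` -/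
abbrev Bo (n : ℕ) (C : Type) [CommRing C] := MvPolynomial (Fin n) (MvPolynomial (Fin n) C)

/-- the grading -/
abbrev gr (n : ℕ) (C : Type) [CommRing C] : ℕ → Submodule C (MvPolynomial (Fin n) C) :=
  homogeneousSubmodule (Fin n) C

variable {n : ℕ} {K L : Type} [CommRing K] [CommRing L]

instance gr_finite (τ : ℕ) : Module.Finite K (gr n K τ) :=
  Module.Finite.iff_fg.2 (homogeneousSubmodule_fg (Fin n) K τ)

/-- polynomials in `x` -/
def io : Po n K →+* Bo n K := MvPolynomial.map C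

/-- specialise `x` to a point -/
def th (σ : Po n K →+* L) : Bo n K →+* Po n L :=
  eval₂Hom (MvPolynomial.map (σ.comp C)) fun a => C (σ (X a))

/-- homogeneous elements outside `𝔮` -/
def Tset (𝔮 : Ideal (Po n K)) : Set (Bo n K) :=
  {u | ∃ (c : ℕ) (h : Po n K), h.IsHomogeneous c ∧ h ∉ 𝔮 ∧ u = io h}

/-- scaling the variables of a form -/
theorem eval_scale {A R : Type} [CommRing A] [CommRing R] (f : A →+* R) (x : Fin n → R) (v : R)
    {F : Po n A} {τ : ℕ} (hF : F.IsHomogeneous τ) :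
    eval₂Hom f (fun a => v * x a) F = v ^ τ * eval₂Hom f x F := by
  rw [F.as_sum, map_sum, map_sum, Finset.mul_sum]
  refine Finset.sum_congr rfl fun d hd => ?_
  have h1 : τ = ∑ i ∈ d.support, d i := hF.degree_eq_sum_deg_support hd
  simp only [eval₂Hom_monomial, Finsupp.prod, mul_pow, Finset.prod_mul_distrib,
    Finset.prod_pow_eq_pow_sum, ← h1]
  ring

theorem expand_hom {F : Po n K} {τ : ℕ} (hF : F.IsHomogeneous τ) (q : ℕ) :
    (expand q F).IsHomogeneous (τ * q) := by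
  rw [mul_comm]
  exact hF.aeval _ fun i => by simpa using (isHomogeneous_X K i).pow q

theorem io_X (a : Fin n) : io (X a : Po n K) = X a := map_X _ _

theorem io_C (c : K) : io (C c : Po n K) = C (C c) := map_C _ _

theorem th_io (σ : Po n K →+* L) (h : Po n K) : th σ (io h) = C (σ h) := by
  have : (th σ).comp io = (C : L →+* Po n L).comp σ := by
    refine ringHom_ext (fun c => ?_) fun a => ?_
    · simp [th, io]
    · simp [th, io]
  exact RingHom.congr_fun this h

theorem th_C (σ : Po n K →+* L) (f : Po n K) : th σ (C f) = MvPolynomial.map (σ.comp C) f := by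
  simp [th]

theorem th_X (σ : Po n K →+* L) (a : Fin n) : th σ (X a) = C (σ (X a)) := by
  simp [th]

theorem io_hom {h : Po n K} {c : ℕ} (hh : h.IsHomogeneous c) : io h ∈ gr n (Po n K) c :=
  hh.map _

/-- exchange of the two sets of variables -/
def sw_CXT : Bo n K →+* Bo n K := eval₂Hom io fun a => C (X a)

theorem sw_C_CXT (f : Po n K) : sw_CXT (C f : Bo n K) = io f := by simp [sw_CXT]

theorem sw_X_CXT (a : Fin n) : sw_CXT (X a : Bo n K) = C (X a) := by simp [sw_CXT]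

theorem sw_io_CXT (f : Po n K) : sw_CXT (io f : Bo n K) = C f := by
  have : (sw_CXT : Bo n K →+* Bo n K).comp io = (C : Po n K →+* Bo n K) := by
    refine ringHom_ext (fun c => ?_) fun a => ?_
    · rw [RingHom.comp_apply, io_C, sw_C_CXT, io_C]
    · rw [RingHom.comp_apply, io_X, sw_X_CXT]
  exact RingHom.congr_fun this f

theorem sw_sw_CXT (F : Bo n K) : sw_CXT (sw_CXT F) = F := by
  have : (sw_CXT : Bo n K →+* Bo n K).comp sw_CXT = RingHom.id _ := by
    refine ringHom_ext (fun c => ?_) fun a => ?_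
    · rw [RingHom.comp_apply, sw_C_CXT, sw_io_CXT, RingHom.id_apply]
    · rw [RingHom.comp_apply, sw_X_CXT, sw_C_CXT, io_X, RingHom.id_apply]
  exact RingHom.congr_fun this F

theorem th_eq_CXT (σ : Po n K →+* L) (F : Bo n K) :
    th σ F = MvPolynomial.map σ (sw_CXT F) := by
  have : th σ = (MvPolynomial.map σ).comp sw_CXT := by
    refine ringHom_ext (fun c => ?_) fun a => ?_
    · rw [RingHom.comp_apply, sw_C_CXT, th_C, io, map_map]
    · rw [RingHom.comp_apply, sw_X_CXT, th_X, map_C]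
  exact RingHom.congr_fun this F

theorem th_ker (σ : Po n K →+* L) : RingHom.ker (th σ) = (RingHom.ker σ).map io := by
  apply le_antisymm
  · intro F hF
    rw [RingHom.mem_ker, th_eq_CXT, ← RingHom.mem_ker, MvPolynomial.ker_map] at hF
    have h2 := Ideal.mem_map_of_mem (sw_CXT : Bo n K →+* Bo n K) hF
    rw [sw_sw_CXT, Ideal.map_map] at h2
    have h3 : (sw_CXT : Bo n K →+* Bo n K).comp C = io := RingHom.ext sw_C_CXT
    rwa [h3] at h2
  · rw [Ideal.map_le_iff_le_comap]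
    intro f hf
    rw [Ideal.mem_comap, RingHom.mem_ker, th_io, RingHom.mem_ker.1 hf, map_zero]

theorem th_den [IsDomain L] (σ : Po n K →+* L)
    (hσ : ∀ y : L, ∃ f h, σ h ≠ 0 ∧ σ h * y = σ f) (H : Po n L) :
    ∃ h F, σ h ≠ 0 ∧ C (σ h) * H = th σ F := by
  induction H using MvPolynomial.induction_on with
  | C y =>
    obtain ⟨f, h, h1, h2⟩ := hσ y
    exact ⟨h, io f, h1, by rw [th_io, ← h2, map_mul]⟩
  | add p q hp hq =>
    obtain ⟨h1, F1, a1, b1⟩ := hp
    obtain ⟨h2, F2, a2, b2⟩ := hq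
    refine ⟨h1 * h2, io h2 * F1 + io h1 * F2, by rw [map_mul]; exact mul_ne_zero a1 a2, ?_⟩
    rw [map_add, map_mul (th σ), map_mul (th σ), th_io, th_io, ← b1, ← b2, map_mul, map_mul]
    ring
  | mul_X p a hp =>
    obtain ⟨h1, F1, a1, b1⟩ := hp
    refine ⟨h1, F1 * C (X a), a1, ?_⟩
    rw [map_mul (th σ), th_C, map_X, ← b1, mul_assoc]

theorem hom_map_io {𝔮 : Ideal (Po n K)} (h : 𝔮.IsHomogeneous (gr n K)) :
    (𝔮.map io).IsHomogeneous (gr n (Po n K)) := by
  obtain ⟨S, hS⟩ := (Ideal.IsHomogeneous.iff_exists (gr n K) 𝔮).1 h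
  rw [hS, Ideal.map_span]
  refine Ideal.homogeneous_span _ _ ?_
  rintro _ ⟨_, ⟨⟨x, c, hx⟩, -, rfl⟩, rfl⟩
  exact ⟨c, io_hom hx⟩

theorem dec_CXT (f : Po n K) (i : ℕ) :
    (DirectSum.decompose (gr n K) f i : Po n K) = homogeneousComponent i f :=
  decomposition.decompose'_apply f i

theorem dec_io_CXT (f : Po n K) (i : ℕ) :
    (DirectSum.decompose (gr n (Po n K)) (io f) i : Bo n K) = io (homogeneousComponent i f) := by
  rw [dec_CXT]
  ext d : 1
  rw [io, coeff_homogeneousComponent, coeff_map, coeff_map, coeff_homogeneousComponent]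
  split_ifs <;> simp

/-- an element whose top component is regular modulo a homogeneous ideal is regular -/
theorem reg_CXT {J : Ideal (Po n K)} (hJ : J.IsHomogeneous (gr n K)) {h F : Po n K} {c : ℕ}
    (hc : ∀ i, c < i → (DirectSum.decompose (gr n K) h i : Po n K) ∈ J)
    (hr : ∀ G, (DirectSum.decompose (gr n K) h c : Po n K) * G ∈ J → G ∈ J) (hF : h * F ∈ J) :
    F ∈ J := by
  have key : ∀ m d, F.totalDegree < d + m → (DirectSum.decompose (gr n K) F d : Po n K) ∈ J := by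
    intro m
    induction m with
    | zero =>
      intro d hd
      rw [dec_CXT, homogeneousComponent_eq_zero _ _ (by simpa using hd)]
      exact J.zero_mem
    | succ m ih =>
      intro d hd
      apply hr
      have h1 := hJ (c + d) hF
      rw [DirectSum.decompose_mul, DirectSum.coe_mul_apply_eq_sum_antidiagonal,
        ← Finset.add_sum_erase _ _ (a := (c, d)) (by simp)] at h1
      refine (Ideal.add_mem_iff_left J ?_).1 h1
      refine J.sum_mem fun ij hij => ?_
      obtain ⟨h2, h3⟩ := Finset.mem_erase.1 hij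
      rw [Finset.HasAntidiagonal.mem_antidiagonal] at h3
      by_cases h4 : c < ij.1
      · exact J.mul_mem_right _ (hc _ h4)
      · have h5 : d < ij.2 := by
          by_contra h5
          exact h2 (Prod.ext (by simp only; omega) (by simp only; omega))
        exact J.mul_mem_left _ (ih _ (by omega))
  rw [mem_iff_homogeneousComponent_mem hJ]
  intro d
  rw [← dec_CXT]
  exact key (F.totalDegree + 1) d (by omega)

theorem Tset_mul_CXT {𝔮 : Ideal (Po n K)} (hp : 𝔮.IsPrime) {u v : Bo n K} (hu : u ∈ Tset 𝔮)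
    (hv : v ∈ Tset 𝔮) : u * v ∈ Tset 𝔮 := by
  obtain ⟨c, h, h1, h2, rfl⟩ := hu
  obtain ⟨c', h', h1', h2', rfl⟩ := hv
  exact ⟨c + c', h * h', h1.mul h1', fun h3 => (hp.mem_or_mem h3).elim h2 h2', (map_mul _ _ _).symm⟩

theorem Tset_one_CXT {𝔮 : Ideal (Po n K)} (hp : 𝔮.IsPrime) : (1 : Bo n K) ∈ Tset 𝔮 :=
  ⟨0, 1, isHomogeneous_one _ _, (Ideal.ne_top_iff_one _).1 hp.ne_top, (map_one _).symm⟩

/-- the saturation of `I` by homogeneous elements outside `𝔮` -/
def sat_CXT {𝔮 : Ideal (Po n K)} (hp : 𝔮.IsPrime) (I : Ideal (Bo n K)) : Ideal (Bo n K) where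
  carrier := {F | ∃ u ∈ Tset 𝔮, u * F ∈ I}
  zero_mem' := ⟨1, Tset_one_CXT hp, by simp⟩
  add_mem' := by
    rintro F G ⟨u, hu, h1⟩ ⟨v, hv, h2⟩
    refine ⟨u * v, Tset_mul_CXT hp hu hv, ?_⟩
    have : u * v * (F + G) = v * (u * F) + u * (v * G) := by ring
    rw [this]
    exact I.add_mem (I.mul_mem_left _ h1) (I.mul_mem_left _ h2)
  smul_mem' := by
    rintro a F ⟨u, hu, h1⟩
    refine ⟨u, hu, ?_⟩
    have : u * (a • F) = a * (u * F) := by rw [smul_eq_mul]; ring
    rw [this]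
    exact I.mul_mem_left _ h1

theorem mem_sat_CXT {𝔮 : Ideal (Po n K)} (hp : 𝔮.IsPrime) {I : Ideal (Bo n K)} {F : Bo n K} :
    F ∈ sat_CXT hp I ↔ ∃ u ∈ Tset 𝔮, u * F ∈ I := Iff.rfl

theorem sat_hom_CXT {𝔮 : Ideal (Po n K)} (hp : 𝔮.IsPrime) {I : Ideal (Bo n K)}
    (hI : I.IsHomogeneous (gr n (Po n K))) : (sat_CXT hp I).IsHomogeneous (gr n (Po n K)) := by
  rintro d F ⟨u, hu, h1⟩
  refine ⟨u, hu, ?_⟩
  obtain ⟨c, h, h2, -, rfl⟩ := hu
  rw [← DirectSum.coe_decompose_mul_add_of_left_mem _ (io_hom h2)]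
  exact hI _ h1

/-- homogeneous denominators suffice -/
theorem den_hom {𝔮 : Ideal (Po n K)} (hp : 𝔮.IsPrime) {I : Ideal (Bo n K)}
    (hI : I.IsHomogeneous (gr n (Po n K))) (hq : 𝔮.map io ≤ I) {h : Po n K} (hh : h ∉ 𝔮)
    (h𝔮 : 𝔮.IsHomogeneous (gr n K)) {F : Bo n K} (hF : io h * F ∈ I) :
    ∃ u ∈ Tset 𝔮, u * F ∈ I := by
  classical
  have hle : I ≤ sat_CXT hp I := fun G hG => ⟨1, Tset_one_CXT hp, by rwa [one_mul]⟩
  have hex : ∃ c, homogeneousComponent c h ∉ 𝔮 := by
    by_contra hne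
    push Not at hne
    exact hh ((mem_iff_homogeneousComponent_mem h𝔮 h).2 hne)
  obtain ⟨c0, hc0⟩ := hex
  have hb : ∀ c, homogeneousComponent c h ∉ 𝔮 → c ≤ h.totalDegree := by
    intro c hc
    by_contra hlt
    exact hc (by rw [homogeneousComponent_eq_zero _ _ (by omega)]; exact 𝔮.zero_mem)
  have h1 : homogeneousComponent
      (Nat.findGreatest (fun c => homogeneousComponent c h ∉ 𝔮) h.totalDegree) h ∉ 𝔮 :=
    Nat.findGreatest_spec (P := fun c => homogeneousComponent c h ∉ 𝔮) (hb c0 hc0) hc0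
  refine (mem_sat_CXT hp).1 (reg_CXT (sat_hom_CXT hp hI) (h := io h)
    (c := Nat.findGreatest (fun c => homogeneousComponent c h ∉ 𝔮) h.totalDegree)
    (fun i hi => ?_) (fun G hG => ?_) (hle hF))
  · rw [dec_io_CXT]
    refine hle (hq (Ideal.mem_map_of_mem _ ?_))
    by_contra hne
    exact absurd (Nat.le_findGreatest (P := fun c => homogeneousComponent c h ∉ 𝔮) (hb i hne) hne)
      (by omega)
  · rw [dec_io_CXT] at hG
    obtain ⟨u, hu, h2⟩ := hG
    exact ⟨_, Tset_mul_CXT hp hu ⟨_, _, homogeneousComponent_isHomogeneous _ _, h1, rfl⟩,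
      by rwa [mul_assoc]⟩

theorem sat_hom {𝔮 : Ideal (Po n K)} (hp : 𝔮.IsPrime) (h𝔮 : 𝔮.IsHomogeneous (gr n K))
    {I J : Ideal (Bo n K)} (hI : I.IsHomogeneous (gr n (Po n K))) (hq : 𝔮.map io ≤ I)
    (hJ : ∀ F, F ∈ J ↔ ∃ h, h ∉ 𝔮 ∧ io h * F ∈ I) : J.IsHomogeneous (gr n (Po n K)) := by
  have : J = sat_CXT hp I := by
    ext F
    rw [hJ, mem_sat_CXT]
    constructor
    · rintro ⟨h, h1, h2⟩
      exact den_hom hp hI hq h1 h𝔮 h2
    · rintro ⟨_, ⟨c, h, -, h1, rfl⟩, h2⟩
      exact ⟨h, h1, h2⟩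
  rw [this]
  exact sat_hom_CXT hp hI

theorem map_ten_CXT (𝔮 : Ideal (Po n K)) :
    𝔮.map io = (𝔮.map (Algebra.TensorProduct.includeRight (R := K) (A := Po n K))).map
      (algebraTensorAlgEquiv (σ := Fin n) K (Po n K) : Po n K ⊗[K] Po n K →+* Bo n K) := by
  have h1 : 𝔮.map (Algebra.TensorProduct.includeRight (R := K) (A := Po n K)) =
      𝔮.map (Algebra.TensorProduct.includeRight (R := K) (A := Po n K)).toRingHom := rfl
  rw [h1, Ideal.map_map]
  congr 1
  refine RingHom.ext fun f => ?_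
  simp [io]

/-- base change of the quotient -/
def ten_CXT (𝔮 : Ideal (Po n K)) :
    Po n K ⊗[K] (Po n K ⧸ 𝔮) ≃ₐ[Po n K] (Bo n K ⧸ 𝔮.map io) :=
  (Algebra.TensorProduct.tensorQuotientEquiv (R := K) (Po n K) (Po n K) (Po n K) 𝔮).trans
    (Ideal.quotientEquivAlg _ _ (algebraTensorAlgEquiv (σ := Fin n) K (Po n K)) (map_ten_CXT 𝔮))

theorem ten_tmul_CXT (𝔮 : Ideal (Po n K)) (a f : Po n K) :
    ten_CXT 𝔮 (a ⊗ₜ Ideal.Quotient.mk 𝔮 f) = Ideal.Quotient.mk _ (a • io f) := by
  have : (a • io f : Bo n K) = algebraTensorAlgEquiv (σ := Fin n) K (Po n K) (a ⊗ₜ f) := by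
    rw [algebraTensorAlgEquiv_tmul]
    rfl
  rw [this]
  rfl

theorem piece_tensor (𝔮 : Ideal (Po n K)) (τ : ℕ) :
    Nonempty ((Po n K ⊗[K] piece (gr n K) 𝔮 τ) ≃ₗ[Po n K] piece (gr n (Po n K)) (𝔮.map io) τ) := by
  let ψ : Po n K ⊗[K] piece (gr n K) 𝔮 τ →ₗ[Po n K] (Bo n K ⧸ 𝔮.map io) :=
    (ten_CXT 𝔮).toLinearMap ∘ₗ (piece (gr n K) 𝔮 τ).subtype.baseChange (Po n K)
  have hψ : ∀ (a f : Po n K) (hf : Ideal.Quotient.mk 𝔮 f ∈ piece (gr n K) 𝔮 τ),
      ψ (a ⊗ₜ ⟨_, hf⟩) = Ideal.Quotient.mk _ (a • io f) := fun a f hf => ten_tmul_CXT 𝔮 a f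
  have hinj : Function.Injective ψ :=
    (ten_CXT 𝔮).injective.comp
      (Module.Flat.lTensor_preserves_injective_linearMap (M := Po n K) _
        (piece (gr n K) 𝔮 τ).injective_subtype)
  have hr : LinearMap.range ψ = piece (gr n (Po n K)) (𝔮.map io) τ := by
    apply le_antisymm
    · rintro _ ⟨z, rfl⟩
      induction z using TensorProduct.induction_on with
      | zero => rw [map_zero]; exact Submodule.zero_mem _
      | add x y hx hy => rw [map_add]; exact Submodule.add_mem _ hx hy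
      | tmul a y =>
        obtain ⟨_, f, hf, rfl⟩ := y
        have := hψ a f ⟨f, hf, rfl⟩
        exact this ▸ ⟨a • io f, Submodule.smul_mem _ _ (io_hom hf), rfl⟩
    · rintro _ ⟨F, hF, rfl⟩
      have hF' : F.IsHomogeneous τ := hF
      rw [F.as_sum, map_sum]
      refine Submodule.sum_mem _ fun d hd => ?_
      have hd' : (monomial d (1 : K) : Po n K).IsHomogeneous τ :=
        isHomogeneous_monomial _ (by
          rw [Finsupp.degree_eq_weight_one]
          exact hF' (mem_support_iff.1 hd))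
      refine ⟨coeff d F ⊗ₜ ⟨_, monomial d 1, hd', rfl⟩, (hψ _ _ _).trans ?_⟩
      rw [io, map_monomial, map_one, smul_monomial, smul_eq_mul, mul_one]
      rfl
  exact ⟨(LinearEquiv.ofInjective ψ hinj).trans (LinearEquiv.ofEq _ _ hr)⟩

end Pool.Agent.CXD
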