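import Pool.Agent.P.MP_2ce3e7_ag.CXA3
import Pool.Agent.P.MP_2ce3e7_ag.CXB2
import Pool.Agent.P.MP_2ce3e7_ag.CXT
import Pool.Agent.P.MP_2ce3e7_ag.CXG3

/-! Negligible ideals. -/

set_option linter.unusedSectionVars false
set_option linter.unusedVariables false

open MvPolynomial
open scoped TensorProduct

noncomputable section

namespace Pool.Agent.CXD

attribute [local instance] MvPolynomial.gradedAlgebra

variable {n : ℕ} {K : Type} [CommRing K]

/-- the section `β(x', φ ^ j x)` -/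
def sec (G : Matrix (Fin n) (Fin n) K) (r Q j : ℕ) : Bo n K :=
  bform (G.map ((C : Po n K →+* Bo n K).comp C)) r (fun a => C (X a)) (fr Q j X)

/-- `V(𝔯)` lies in the image under a power of Frobenius of a proper closed part of `V(𝔮)` -/
def Low (Q : ℕ) (𝔮 𝔯 : Ideal (Po n K)) : Prop :=
  ∃ i, (∀ (c : ℕ) (f : Po n K), f.IsHomogeneous c → expand (Q ^ i) f ∈ 𝔮 → f ∈ 𝔯) ∧
    ∃ (c : ℕ) (w : Po n K), w.IsHomogeneous c ∧ w ∈ 𝔯 ∧ expand (Q ^ i) w ∉ 𝔮

/-- the hypotheses on the prime -/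
structure Pri (G : Matrix (Fin n) (Fin n) K) (r Q κ : ℕ) (𝔮 : Ideal (Po n K)) : Prop where
  prime : 𝔮.IsPrime
  hom : 𝔮.IsHomogeneous (gr n K)
  mem : ∀ j < κ, bj G r Q j ∈ 𝔮
  nmem : bj G r Q κ ∉ 𝔮

/-- the hypotheses on the additive function -/
structure Chi (G : Matrix (Fin n) (Fin n) K) (r Q κ : ℕ) (𝔮 : Ideal (Po n K)) (χ : Val (Po n K)) :
    Prop where
  add : IsAdd χ (rel G r Q κ)
  low : ∀ 𝔯 : Ideal (Po n K), 𝔯.IsPrime → rel G r Q κ ≤ 𝔯 → Low Q 𝔮 𝔯 → χ.val (Po n K ⧸ 𝔯) = 0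

/-- negligible ideals -/
structure Neg (𝔮 : Ideal (Po n K)) (I : Ideal (Bo n K)) : Prop where
  hom : I.IsHomogeneous (gr n (Po n K))
  le : 𝔮.map io ≤ I
  mem : ∃ u ∈ Tset 𝔮, u ∈ I

variable {p r Q κ δ ex : ℕ} {G : Matrix (Fin n) (Fin n) K} {η : K} {𝔮 : Ideal (Po n K)}
  {χ : Val (Po n K)} {a₀ : ℕ} {I : Ideal (Bo n K)}

theorem rel_eq : rel G r Q κ = lev (eqn G r Q κ) (κ + 1) := rfl

theorem sec_hom (j : ℕ) : sec G r Q j ∈ gr n (Po n K) (r * Q ^ j) := by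
  have h1 : ∀ (u v : Po n K) (b : Fin n),
      (C u * C v * (X b ^ Q ^ j) ^ r : Bo n K) ∈ gr n (Po n K) (r * Q ^ j) := fun u v b => by
    have h2 := ((isHomogeneous_X (Po n K) b).pow (r * Q ^ j)).C_mul (u * v)
    rw [one_mul, C_mul, mul_comm r (Q ^ j), pow_mul, mul_comm (Q ^ j) r] at h2
    exact h2
  exact Submodule.sum_mem _ fun a _ => Submodule.sum_mem _ fun b _ => h1 _ _ b

theorem hom_sec {A : Type} [CommRing A] (f : Bo n K →+* A) (j : ℕ) :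
    f (sec G r Q j) = bform (G.map ((f.comp C).comp C)) r (fun a => f (C (X a)))
      (fr Q j fun a => f (X a)) := by
  rw [sec, map_bform, map_fr]
  rfl

theorem Hyp.lev_start (h : Hyp p G r Q κ δ ex η) : lev (eqn G r Q κ) (1 - (δ + ex)) = ⊥ := by
  refine le_bot_iff.1 (lev_le.2 fun j hj => ?_)
  obtain rfl : j = 0 := by omega
  rw [eqn, if_pos h.hκ, h.alt (by omega)]
  exact Submodule.zero_mem _

theorem low_mono_CXN {𝔯 𝔯' : Ideal (Po n K)} (h : Low Q 𝔮 𝔯) (hr : 𝔯 ≤ 𝔯') : Low Q 𝔮 𝔯' := by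
  obtain ⟨i, h1, c, w, h2, h3, h4⟩ := h
  exact ⟨i, fun c f hf hq => hr (h1 c f hf hq), c, w, h2, hr h3, h4⟩

theorem neg_mono_CXN {J : Ideal (Bo n K)} (h : Neg 𝔮 I) (hJ : J.IsHomogeneous (gr n (Po n K)))
    (hIJ : I ≤ J) : Neg 𝔮 J := by
  obtain ⟨u, h1, h2⟩ := h.mem
  exact ⟨hJ, h.le.trans hIJ, u, h1, hIJ h2⟩

theorem low_field_CXN {F : Type} [Field F] (f : Bo n K →+* F) (hf : ∀ x, f x = 0 ↔ x ∈ I)
    (h : Hyp p G r Q κ δ ex η) (h𝔮 : Pri G r Q κ 𝔮) (hI : Neg 𝔮 I)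
    (hX : ∃ a, X a ∉ I) (hr : (rel G r Q κ).map C ≤ I)
    (hs : ∀ j < κ + ex * δ, sec G r Q (a₀ + κ + j) ∈ I) : Low Q 𝔮 (I.comap C) := by
  have hQ : Q ≠ 0 := by
    obtain ⟨e, -, rfl⟩ := h.hQ
    exact pow_ne_zero _ h.prime.ne_zero
  have e1 : (f.comp io).comp C = (f.comp C).comp C :=
    RingHom.ext fun c => congrArg f (io_C c)
  have e2 : (fun a => (f.comp io) (X a)) = fun a => f (X a) :=
    funext fun a => congrArg f (io_X a)
  have hq : ∀ g ∈ 𝔮, f (io g) = 0 := fun g hg => (hf _).2 (hI.le (Ideal.mem_map_of_mem _ hg))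
  have hrel : ∀ j < κ + 1, (f.comp C) (eqn G r Q κ j) = 0 := fun j hj =>
    (hf _).2 (hr (Ideal.mem_map_of_mem _ (Ideal.subset_span ⟨j, hj, rfl⟩)))
  obtain ⟨i, c, hc⟩ := geom (h.map ((f.comp C).comp C)) a₀ (x := fun a => f (X a))
    (x' := fun a => f (C (X a)))
    (by
      obtain ⟨a, ha⟩ := hX
      exact fun h0 => ha ((hf _).1 (congrFun h0 a)))
    (fun j hj => by
      have h1 := hom_bj (G := G) (r := r) (Q := Q) (f.comp io) j
      rw [e1, e2] at h1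
      exact h1.symm.trans (hq _ (h𝔮.mem j hj)))
    ⟨fun j hj => by
      have h1 := hrel j (by omega)
      rw [eqn, if_pos hj, hom_bj] at h1
      exact h1,
    by
      have h1 := hrel κ (by omega)
      rw [eqn, if_neg (lt_irrefl _), map_sub, map_one, sub_eq_zero, hom_bj] at h1
      exact IsUnit.of_mul_eq_one 1 ((mul_one _).trans h1)⟩
    (fun j h1 h2 => by
      obtain ⟨k, rfl⟩ := Nat.exists_eq_add_of_le h1
      exact (hom_sec f _).symm.trans ((hf _).2 (hs k (by omega))))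
  have e3 : (f.comp C : Po n K →+* F) =
      eval₂Hom ((f.comp C).comp C) fun a => c * fr Q i (fun a => f (X a)) a :=
    MvPolynomial.ringHom_ext (fun a => by rw [eval₂Hom_C]; rfl) fun a => by
      rw [eval₂Hom_X']
      exact congrFun hc a
  have e4 : (f.comp io).comp (expand (Q ^ i) : Po n K →ₐ[K] Po n K).toRingHom =
      eval₂Hom ((f.comp C).comp C) (fr Q i fun a => f (X a)) :=
    MvPolynomial.ringHom_ext
      (fun a => by
        rw [eval₂Hom_C]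
        show f (io (expand (Q ^ i) (C a))) = f (C (C a))
        rw [expand_C, io_C])
      fun a => by
        rw [eval₂Hom_X']
        show f (io (expand (Q ^ i) (X a))) = f (X a) ^ Q ^ i
        rw [expand_X, map_pow, io_X, map_pow]
  have key : ∀ (e : ℕ) (g : Po n K), g.IsHomogeneous e → f (io (expand (Q ^ i) g)) = 0 →
      g ∈ I.comap C := fun e g hg h0 => by
    refine (hf _).1 ?_
    have h1 := RingHom.congr_fun e3 g
    rw [eval_scale _ _ _ hg, ← e4] at h1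
    refine h1.trans ?_
    show c ^ e * f (io (expand (Q ^ i) g)) = 0
    rw [h0, mul_zero]
  obtain ⟨u, ⟨e, g, hg, hgq, rfl⟩, hu⟩ := hI.mem
  obtain ⟨w, hw, hw'⟩ := h.exists_root i hg
  refine ⟨i, fun e g hg hq' => key e g hg (hq _ hq'), e, w, hw, key e w hw ?_, ?_⟩
  · rw [hw', map_pow, map_pow, (hf _).2 hu, zero_pow (pow_ne_zero _ hQ)]
  · rw [hw']
    exact fun h0 => hgq (h𝔮.prime.mem_of_pow_mem _ h0)

theorem ex_field_CXN {B : Type} [CommRing B] (I : Ideal B) (hp : I.IsPrime) :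
    ∃ (F : Type) (_ : Field F) (f : B →+* F), ∀ x, f x = 0 ↔ x ∈ I := by
  refine ⟨FractionRing (B ⧸ I), inferInstance,
    (algebraMap (B ⧸ I) (FractionRing (B ⧸ I))).comp (Ideal.Quotient.mk I), fun x => ?_⟩
  rw [RingHom.comp_apply, IsFractionRing.to_map_eq_zero_iff, Ideal.Quotient.eq_zero_iff_mem]

theorem low_of_prime (h : Hyp p G r Q κ δ ex η) (h𝔮 : Pri G r Q κ 𝔮) (hI : Neg 𝔮 I)
    (hp : I.IsPrime) (hX : ∃ a, X a ∉ I) (hr : (rel G r Q κ).map C ≤ I)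
    (hs : ∀ j < κ + ex * δ, sec G r Q (a₀ + κ + j) ∈ I) : Low Q 𝔮 (I.comap C) := by
  obtain ⟨F, _, f, hf⟩ := ex_field_CXN I hp
  exact low_field_CXN f hf h h𝔮 hI hX hr hs

theorem piece_sub_CXN {J : Ideal (Bo n K)} (hX : ∀ a, X a ∈ J) {τ : ℕ} (hτ : 1 ≤ τ) :
    Subsingleton (piece (gr n (Po n K)) J τ) := by
  refine subsingleton_of_forall_eq 0 ?_
  rintro ⟨_, F, hF, rfl⟩
  refine Subtype.ext (Ideal.Quotient.eq_zero_iff_mem.2 ?_)
  have h1 : Ideal.span (X '' Set.univ) ≤ J := by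
    rw [Ideal.span_le]
    rintro _ ⟨a, -, rfl⟩
    exact hX a
  refine h1 (mem_ideal_span_X_image.2 fun d hd => ?_)
  have h2 : τ = ∑ i ∈ d.support, d i :=
    IsHomogeneous.degree_eq_sum_deg_support (φ := F) hF hd
  by_contra h3
  have h4 : ∑ i ∈ d.support, d i = 0 := Finset.sum_eq_zero fun a _ => by
    by_contra h5
    exact h3 ⟨a, Set.mem_univ a, h5⟩
  omega

variable [IsNoetherianRing K]

theorem neg_end (h : Hyp p G r Q κ δ ex η) (h𝔮 : Pri G r Q κ 𝔮) (hχ : Chi G r Q κ 𝔮 χ)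
    (hI : Neg 𝔮 I) (hr : (rel G r Q κ).map C ≤ I)
    (hs : ∀ j < κ + ex * δ, sec G r Q (a₀ + κ + j) ∈ I) : Fv (gr n (Po n K)) χ I ∈ Z0 := by
  refine Fv_of_primes good_Z0 hχ.add hr hI.hom fun J hp hJ hIJ => ?_
  by_cases hX : ∀ a, X a ∈ J
  · refine ⟨1, fun τ hτ => ?_⟩
    have := piece_sub_CXN hX hτ
    exact hχ.add.zero _
  · have hl := low_of_prime h h𝔮 (neg_mono_CXN hI hJ hIJ) hp (not_forall.1 hX) (hr.trans hIJ)
      fun j hj => hIJ (hs j hj)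
    refine ⟨0, fun τ _ => val_of_primes hχ.add _ (kill_piece _ (hr.trans hIJ) τ)
      fun P hP ha => ?_⟩
    have h1 : J.comap C ≤ P :=
      (kill_iff.1 (kill_piece (gr n (Po n K)) (b := J.comap C) Ideal.map_comap_le τ)).trans ha
    exact hχ.low P hP ((Ideal.map_le_iff_le_comap.1 (hr.trans hIJ)).trans h1) (low_mono_CXN hl h1)

theorem neg_a (h : Hyp p G r Q κ δ ex η) (h𝔮 : Pri G r Q κ 𝔮) (hχ : Chi G r Q κ 𝔮 χ) (m l : ℕ)
    (hl : l + m = κ + 1) (hI : Neg 𝔮 I) (hr : (lev (eqn G r Q κ) l).map C ≤ I)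
    (hs : ∀ j < κ + ex * δ, sec G r Q (a₀ + κ + j) ∈ I) :
    Fv (gr n (Po n K)) (Eu χ (eqn G r Q κ) l m) I ∈ Z0 := by
  induction m generalizing l I with
  | zero =>
    obtain rfl : l = κ + 1 := hl
    exact neg_end h h𝔮 hχ hI hr hs
  | succ m ih =>
    have h0 : IsAdd (Eu χ (eqn G r Q κ) l (m + 1)) (lev (eqn G r Q κ) l) :=
      isAdd_Eu l (m + 1) (by rw [hl]; exact hχ.add)
    have h1 : IsAdd (Eu χ (eqn G r Q κ) (l + 1) m)
        (lev (eqn G r Q κ) l ⊔ Ideal.span {eqn G r Q κ l}) := by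
      rw [← lev_succ]
      exact isAdd_Eu (l + 1) m (by rw [show l + 1 + m = κ + 1 by omega]; exact hχ.add)
    refine Fv_of_primes good_Z0 h0 hr hI.hom fun J hp hJ hIJ => ?_
    rw [Eu]
    by_cases ha : C (eqn G r Q κ l) ∈ J
    · rw [Fv_rho_zero h1 (hr.trans hIJ) ha]
      exact zero_mem _
    · rw [Fv_rho h1 (hr.trans hIJ) hJ fun x hx => (hp.mem_or_mem hx).resolve_left ha]
      refine ih (l + 1) (by omega)
        (neg_mono_CXN hI (hom_sup hJ (c := 0) (isHomogeneous_C _ _)) (hIJ.trans le_sup_left))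
        ?_ fun j hj => (hIJ.trans le_sup_left) (hs j hj)
      rw [lev_succ, Ideal.map_sup, Ideal.map_span, Set.image_singleton]
      exact sup_le_sup (hr.trans hIJ) le_rfl

theorem neg_s (h : Hyp p G r Q κ δ ex η) (h𝔮 : Pri G r Q κ 𝔮) (hχ : Chi G r Q κ 𝔮 χ) {l m₀ : ℕ}
    (hl : l + m₀ = κ + 1) (hl0 : lev (eqn G r Q κ) l = ⊥) (m j : ℕ) (hj : j + m = κ + ex * δ)
    (hI : Neg 𝔮 I) (hs : ∀ i < j, sec G r Q (a₀ + κ + i) ∈ I) :
    Fv (gr n (Po n K)) (Eu χ (eqn G r Q κ) l m₀) I ∈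
      Cls (fun i => r * Q ^ (a₀ + κ + i)) j m := by
  have hb : ∀ J : Ideal (Bo n K), (lev (eqn G r Q κ) l).map C ≤ J := fun J => by
    rw [hl0, Ideal.map_bot]
    exact bot_le
  have h0 : IsAdd (Eu χ (eqn G r Q κ) l m₀) (lev (eqn G r Q κ) l) :=
    isAdd_Eu l m₀ (by rw [hl]; exact hχ.add)
  induction m generalizing j I with
  | zero =>
    obtain rfl : j = κ + ex * δ := hj
    exact neg_a h h𝔮 hχ m₀ l hl hI (hb I) hs
  | succ m ih =>
    refine Fv_of_primes (good_Cls _ j (m + 1)) h0 (hb I) hI.hom fun J hp hJ hIJ => ?_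
    rw [Cls]
    by_cases ha : sec G r Q (a₀ + κ + j) ∈ J
    · refine (good_Cls _ (j + 1) m).le_dif _ (ih (j + 1) (by omega) (neg_mono_CXN hI hJ hIJ)
        fun i hi => ?_)
      rcases Nat.lt_succ_iff_lt_or_eq.1 hi with h1 | rfl
      · exact hIJ (hs i h1)
      · exact ha
    · refine (Fv_dif h0 (hb J) hJ hp (sec_hom _) ha (good_Cls _ (j + 1) m)).2
        (ih (j + 1) (by omega) (neg_mono_CXN hI (hom_sup hJ (sec_hom _)) (hIJ.trans le_sup_left))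
          fun i hi => ?_)
      rcases Nat.lt_succ_iff_lt_or_eq.1 hi with h1 | rfl
      · exact (hIJ.trans le_sup_left) (hs i h1)
      · exact Ideal.mem_sup_right (Ideal.subset_span rfl)

end Pool.Agent.CXD
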