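import Pool.Agent.P.MP_2ce3e7_ag.CXT

/-! Surjectivity onto the graph of a power of Frobenius. -/

set_option linter.unusedSectionVars false
set_option linter.unusedVariables false

open MvPolynomial

noncomputable section

namespace Pool.Agent.CXD

attribute [local instance] MvPolynomial.gradedAlgebra

variable {n : ℕ} {K R : Type} [CommRing K] [CommRing R]

/-- `x ↦ x`, `x' ↦ x ^ q` followed by `π` -/
def gra (π : Po n K →+* R) (q : ℕ) : Bo n K →+* R :=
  eval₂Hom (π.comp (expand q : Po n K →ₐ[K] Po n K).toRingHom) fun a => π (X a)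

theorem gra_C (π : Po n K →+* R) (q : ℕ) (f : Po n K) : gra π q (C f) = π (expand q f) := by
  rw [gra, eval₂Hom_C]
  rfl

theorem gra_X (π : Po n K →+* R) (q : ℕ) (a : Fin n) : gra π q (X a) = π (X a) := by
  rw [gra, eval₂Hom_X']

theorem gra_mono_CXO (π : Po n K →+* R) (q : ℕ) (d : Fin n →₀ ℕ) (c : K) :
    gra π q (monomial d (C c)) = π (monomial d c) := by
  rw [monomial_eq, monomial_eq, map_mul, map_mul, gra_C, expand_C, Finsupp.prod, Finsupp.prod,
    map_prod, map_prod]
  congr 1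
  refine Finset.prod_congr rfl fun a _ => ?_
  rw [map_pow, map_pow, gra_X]

theorem hit_mono_CXO (π : Po n K →+* R) {q τ : ℕ} (hq : 0 < q) (hτ : n * q ≤ τ) (μ : ℕ) :
    ∀ (d : Fin n →₀ ℕ) (c : K), d.degree = τ + q * μ →
      ∃ F ∈ gr n (Po n K) τ, gra π q F = π (monomial d c) := by
  induction μ with
  | zero =>
    intro d c hd
    refine ⟨monomial d (C c), ?_, gra_mono_CXO π q d c⟩
    exact isHomogeneous_monomial _ (by simpa using hd)
  | succ μ ih =>
    intro d c hd
    obtain ⟨a, ha⟩ : ∃ a, q ≤ d a := by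
      by_contra h
      push Not at h
      have h1 : d.degree ≤ n * q := by
        rw [Finsupp.degree_eq_sum]
        calc ∑ a, d a ≤ ∑ _a : Fin n, q := Finset.sum_le_sum fun a _ => (h a).le
          _ = n * q := by simp
      have h2 : q * (μ + 1) = q * μ + q := by ring
      omega
    have hle : Finsupp.single a q ≤ d := Finsupp.single_le_iff.2 ha
    obtain ⟨d', rfl⟩ := exists_add_of_le hle
    have hd' : d'.degree = τ + q * μ := by
      rw [map_add, Finsupp.degree_single] at hd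
      have h2 : q * (μ + 1) = q * μ + q := by ring
      omega
    obtain ⟨F, hF, hF'⟩ := ih d' c hd'
    refine ⟨C (X a) * F, ?_, ?_⟩
    · rw [C_mul']
      exact Submodule.smul_mem _ _ hF
    · rw [map_mul, gra_C, hF', expand_X, ← map_mul, X_pow_eq_monomial, monomial_mul, one_mul]

theorem hit_hom_CXO (π : Po n K →+* R) {q τ : ℕ} (hq : 0 < q) (hτ : n * q ≤ τ) (μ : ℕ)
    {f : Po n K} (hf : f.IsHomogeneous (τ + q * μ)) :
    ∃ F ∈ gr n (Po n K) τ, gra π q F = π f := by
  have key : ∀ s : Finset (Fin n →₀ ℕ), s ⊆ f.support →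
      ∃ F ∈ gr n (Po n K) τ, gra π q F = π (∑ d ∈ s, monomial d (coeff d f)) := by
    intro s
    induction s using Finset.induction_on with
    | empty => exact fun _ => ⟨0, Submodule.zero_mem _, by simp⟩
    | insert d s hd ih =>
      intro hs
      obtain ⟨F, hF, hF'⟩ := ih fun x hx => hs (Finset.mem_insert_of_mem hx)
      have h1 : d.degree = τ + q * μ := by
        have := hf.degree_eq_sum_deg_support (hs (Finset.mem_insert_self d s))
        rw [this, Finsupp.degree_apply]
      obtain ⟨F', hG, hG'⟩ := hit_mono_CXO π hq hτ μ d (coeff d f) h1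
      refine ⟨F' + F, Submodule.add_mem _ hG hF, ?_⟩
      rw [Finset.sum_insert hd, map_add, map_add, hF', hG']
  obtain ⟨F, hF, hF'⟩ := key f.support (Finset.Subset.refl _)
  exact ⟨F, hF, by rw [hF', ← f.as_sum]⟩

theorem arith_CXO {N q : ℕ} (hN : 0 < N) (hq : 0 < q) (hc : Nat.Coprime q N) (c τ : ℕ) :
    ∃ s μ, c + N * s = τ + q * μ := by
  have h1 : N ^ Nat.totient q ≡ 1 [MOD q] := Nat.ModEq.pow_totient hc.symm
  obtain ⟨t, ht⟩ : ∃ t, Nat.totient q = t + 1 :=
    ⟨Nat.totient q - 1, by have := Nat.totient_pos.2 hq; omega⟩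
  rw [ht] at h1
  have h2 : 1 ≤ N ^ (t + 1) := Nat.one_le_pow _ _ hN
  obtain ⟨k, hk⟩ := (Nat.modEq_iff_dvd' h2).1 h1.symm
  have h3 : N ^ (t + 1) = 1 + q * k := by omega
  obtain ⟨q', rfl⟩ : ∃ q', q = q' + 1 := ⟨q - 1, by omega⟩
  refine ⟨N ^ t * (τ + q' * c), c + k * (τ + q' * c), ?_⟩
  calc c + N * (N ^ t * (τ + q' * c)) = c + N ^ (t + 1) * (τ + q' * c) := by ring
    _ = _ := by rw [h3]; ring

theorem gra_surj (π : Po n K →+* R) (hπ : Function.Surjective π) {b : Po n K} {N q τ : ℕ}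
    (hb : b.IsHomogeneous N) (hN : 0 < N) (h1 : π b = 1) (hq : 0 < q) (hc : Nat.Coprime q N)
    (hτ : n * q ≤ τ) (y : R) : ∃ F ∈ gr n (Po n K) τ, gra π q F = y := by
  obtain ⟨f, rfl⟩ := hπ y
  have key : ∀ s : Finset ℕ,
      ∃ F ∈ gr n (Po n K) τ, gra π q F = π (∑ c ∈ s, homogeneousComponent c f) := by
    intro s
    induction s using Finset.induction_on with
    | empty => exact ⟨0, Submodule.zero_mem _, by simp⟩
    | insert c s hd ih =>
      obtain ⟨F, hF, hF'⟩ := ih
      obtain ⟨t, μ, h⟩ := arith_CXO hN hq hc c τ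
      have h2 : (homogeneousComponent c f * b ^ t).IsHomogeneous (τ + q * μ) := by
        rw [← h]
        exact (homogeneousComponent_isHomogeneous c f).mul (hb.pow t)
      obtain ⟨F', hG, hG'⟩ := hit_hom_CXO π hq hτ μ h2
      refine ⟨F' + F, Submodule.add_mem _ hG hF, ?_⟩
      rw [Finset.sum_insert hd, map_add, map_add, hF', hG', map_mul, map_pow, h1, one_pow, mul_one]
  obtain ⟨F, hF, hF'⟩ := key (Finset.range (f.totalDegree + 1))
  exact ⟨F, hF, by rw [hF', sum_homogeneousComponent]⟩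

/-- expansion is a finite map -/
theorem expand_finite {q : ℕ} (hq : 0 < q) :
    (expand q : Po n K →ₐ[K] Po n K).toRingHom.Finite := by
  refine RingHom.IsIntegral.to_finite ?_ ?_
  · intro f
    induction f using MvPolynomial.induction_on with
    | C a =>
      have h : (C a : Po n K) = (expand q : Po n K →ₐ[K] Po n K).toRingHom (C a) :=
        (expand_C q a).symm
      rw [h]
      exact RingHom.isIntegralElem_map _
    | add f g hf hg => exact RingHom.IsIntegralElem.add _ hf hg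
    | mul_X f a hf =>
      refine RingHom.IsIntegralElem.mul _ hf ?_
      refine ⟨Polynomial.X ^ q - Polynomial.C (X a), Polynomial.monic_X_pow_sub_C _ hq.ne', ?_⟩
      simp
  · refine RingHom.FiniteType.of_comp_finiteType (f := algebraMap K (Po n K)) ?_
    have h : (expand q : Po n K →ₐ[K] Po n K).toRingHom.comp (algebraMap K (Po n K)) =
        algebraMap K (Po n K) := (expand q : Po n K →ₐ[K] Po n K).comp_algebraMap
    rw [h]
    exact RingHom.finiteType_algebraMap.2 inferInstance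

theorem val_graph {χ : Val (Po n K)} {b 𝔞 : Ideal (Po n K)} (hχ : IsAdd χ b) {q τ : ℕ} (hq : 0 < q)
    (hb : ∀ f ∈ b, expand q f ∈ 𝔞) {I : Ideal (Bo n K)}
    (hs : ∀ y, ∃ F ∈ gr n (Po n K) τ, gra (Ideal.Quotient.mk 𝔞) q F = y)
    (hI : ∀ F ∈ gr n (Po n K) τ, F ∈ I ↔ gra (Ideal.Quotient.mk 𝔞) q F = 0) :
    Fv (gr n (Po n K)) χ I τ =
      (push (expand q : Po n K →ₐ[K] Po n K).toRingHom χ).val (Po n K ⧸ 𝔞) := by
  have key : ∀ (M : Type) [AddCommGroup M] [Module (Po n K) M]
      (g : gr n (Po n K) τ →ₗ[Po n K] M), Function.Surjective g →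
      (∀ F : gr n (Po n K) τ, g F = 0 ↔ F.1 ∈ I) → Kill b M →
      χ.val (piece (gr n (Po n K)) I τ) = χ.val M := by
    intro M _ _ g hg h0 hk
    have : Module.Finite (Po n K) M := Module.Finite.of_surjective g hg
    let g' : gr n (Po n K) τ →ₗ[Po n K] piece (gr n (Po n K)) I τ :=
      (Ideal.Quotient.mkₐ (Po n K) I).toLinearMap.submoduleMap (gr n (Po n K) τ)
    have hg' : Function.Surjective g' := LinearMap.submoduleMap_surjective _ _
    have hker : LinearMap.ker g' = LinearMap.ker g := by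
      ext F
      rw [LinearMap.mem_ker, LinearMap.mem_ker, h0, ← Ideal.Quotient.eq_zero_iff_mem,
        Subtype.ext_iff]
      rfl
    exact hχ.congr ((g'.quotKerEquivOfSurjective hg').symm.trans
      ((Submodule.quotEquivOfEq _ _ hker).trans (g.quotKerEquivOfSurjective hg))) hk
  letI inst : Module (Po n K) (Po n K ⧸ 𝔞) :=
    Module.compHom (Po n K ⧸ 𝔞) (expand q : Po n K →ₐ[K] Po n K).toRingHom
  have hsm : ∀ (f : Po n K) (y : Po n K ⧸ 𝔞),
      @HSMul.hSMul _ _ _ (@instHSMul _ _ inst.toSMul) f y =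
        Ideal.Quotient.mk 𝔞 (expand q f) * y := by
    intro f y
    obtain ⟨z, rfl⟩ := Ideal.Quotient.mk_surjective y
    rfl
  refine @key (Po n K ⧸ 𝔞) _ inst
    (@LinearMap.mk _ _ _ _ _ _ _ _ _ _ inst
      ⟨fun F => gra (Ideal.Quotient.mk 𝔞) q F.1, fun F G => map_add _ _ _⟩ ?_) ?_ ?_ ?_
  · intro f F
    refine Eq.trans ?_ (hsm f _).symm
    show gra (Ideal.Quotient.mk 𝔞) q (f • F.1) = _
    rw [← C_mul', map_mul, gra_C]
  · intro y
    obtain ⟨F, hF, h⟩ := hs y
    exact ⟨⟨F, hF⟩, h⟩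
  · exact fun F => (hI F.1 F.2).symm
  · intro f hf y
    refine (hsm f y).trans ?_
    rw [Ideal.Quotient.eq_zero_iff_mem.2 (hb f hf), zero_mul]

end Pool.Agent.CXD
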