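import Pool.Agent.P.MP_2ce3e7_ag.CXR
import Pool.Agent.P.MP_2ce3e7_ag.CXN

/-! From the coordinate ring to the polynomial ring. -/

set_option linter.unusedSectionVars false
set_option linter.unusedVariables false

open MvPolynomial

noncomputable section

namespace Pool.Agent.CXD

attribute [local instance] MvPolynomial.gradedAlgebra

variable {n : ℕ} {K : Type} [CommRing K] {p r Q κ δ ex : ℕ} {G : Matrix (Fin n) (Fin n) K} {η : K}

/-- the additive function on modules over the polynomial ring -/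
def tl (χ : Val (Cox G r Q κ)) : Val (Po n K) :=
  lift (rel G r Q κ) (push (Cox G r Q κ).val.toRingHom χ)

/-- the map from the coordinate ring to a quotient of the polynomial ring -/
def toQ (𝔞 : Ideal (Po n K)) (h : rel G r Q κ ≤ 𝔞) : Cox G r Q κ →+* Po n K ⧸ 𝔞 :=
  (Ideal.Quotient.factor h).comp (Cox G r Q κ).val.toRingHom

/-- the homogeneous prime that belongs to a prime of the coordinate ring -/
structure Over (G : Matrix (Fin n) (Fin n) K) (r Q κ : ℕ) (𝔭 : Ideal (Cox G r Q κ))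
    (𝔮 : Ideal (Po n K)) : Prop where
  pri : Pri G r Q κ 𝔮
  iff : ∀ (s : ℕ) (f : Po n K) (y : Cox G r Q κ), f.IsHomogeneous ((1 + r * Q ^ κ) * s) →
    Ideal.Quotient.mk _ f = y.1 → (y ∈ 𝔭 ↔ f ∈ 𝔮)

theorem tl_add {χ : Val (Cox G r Q κ)} (hχ : IsAdd χ ⊥) : IsAdd (tl χ) (rel G r Q κ) := by
  exact isAdd_lift (isAdd_push _ cox_finite hχ bot_le)

theorem toQ_finite (𝔞 : Ideal (Po n K)) (h : rel G r Q κ ≤ 𝔞) : (toQ 𝔞 h).Finite := by
  exact (RingHom.Finite.of_surjective _ (Ideal.Quotient.factor_surjective h)).comp cox_finite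

theorem exists_over (𝔭 : Ideal (Cox G r Q κ)) (h𝔭 : 𝔭.IsPrime) : ∃ 𝔮, Over G r Q κ 𝔭 𝔮 := by
  have : Algebra.IsIntegral (Cox G r Q κ) (Po n K ⧸ rel G r Q κ) :=
    ⟨fun x => (cox_finite (G := G) (r := r) (Q := Q) (κ := κ)).to_isIntegral x⟩
  have hb : (⊥ : Ideal (Po n K ⧸ rel G r Q κ)).comap
      (algebraMap (Cox G r Q κ) (Po n K ⧸ rel G r Q κ)) ≤ 𝔭 := by
    intro y hy
    have h0 : y = 0 := Subtype.ext (Ideal.mem_bot.1 (Ideal.mem_comap.1 hy))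
    rw [h0]
    exact 𝔭.zero_mem
  obtain ⟨P, -, hP, hc⟩ := Ideal.exists_ideal_over_prime_of_isIntegral 𝔭 ⊥ hb
  have hP' : (P.comap (Ideal.Quotient.mk (rel G r Q κ))).IsPrime := Ideal.comap_isPrime _ _
  have key : ∀ (c : ℕ) (f : Po n K), f.IsHomogeneous c →
      (f ∈ ((P.comap (Ideal.Quotient.mk (rel G r Q κ))).homogeneousCore (gr n K)).toIdeal ↔
        Ideal.Quotient.mk (rel G r Q κ) f ∈ P) := fun c f hf =>
    ⟨fun h => Ideal.toIdeal_homogeneousCore_le (gr n K) _ h,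
      fun h => Ideal.mem_homogeneousCore_of_homogeneous_of_mem ⟨c, hf⟩ h⟩
  refine ⟨((P.comap (Ideal.Quotient.mk (rel G r Q κ))).homogeneousCore (gr n K)).toIdeal,
    ⟨hP'.homogeneousCore, HomogeneousIdeal.isHomogeneous _, fun j hj => ?_, fun h => ?_⟩,
    fun s f y hf hy => ?_⟩
  · rw [key _ _ (bj_hom j)]
    have h1 : bj G r Q j ∈ rel G r Q κ :=
      Ideal.subset_span ⟨j, Nat.lt_succ_of_lt hj, by simp [eqn, hj]⟩
    rw [Ideal.Quotient.eq_zero_iff_mem.2 h1]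
    exact P.zero_mem
  · rw [key _ _ (bj_hom κ)] at h
    have h1 : bj G r Q κ - 1 ∈ rel G r Q κ :=
      Ideal.subset_span ⟨κ, Nat.lt_succ_self κ, by simp [eqn]⟩
    rw [Ideal.Quotient.eq.2 h1, map_one] at h
    exact hP.ne_top ((Ideal.eq_top_iff_one _).2 h)
  · rw [key _ _ hf, hy, ← hc]
    exact Iff.rfl

theorem tl_quot (χ : Val (Cox G r Q κ)) (𝔞 : Ideal (Po n K)) (h : rel G r Q κ ≤ 𝔞) :
    (tl χ).val (Po n K ⧸ 𝔞) = (push (toQ 𝔞 h) χ).val (Po n K ⧸ 𝔞) := by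
  have ht : Module.IsTorsionBySet (Po n K) (Po n K ⧸ 𝔞) (rel G r Q κ) :=
    fun y x => kill_quot h x.1 x.2 y
  simp only [tl, lift, push]
  rw [dif_pos ht]
  congr 1
  refine Module.ext' _ _ fun y m => ?_
  obtain ⟨f, hf⟩ := Ideal.Quotient.mk_surjective y.1
  have h1 : toQ 𝔞 h y = Ideal.Quotient.mk 𝔞 f := by
    change Ideal.Quotient.factor h y.1 = _
    rw [← hf, Ideal.Quotient.factor_mk]
  letI := ht.module
  change y.1 • m = toQ 𝔞 h y * m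
  rw [h1, ← hf]
  rfl

theorem tl_expand (hy : Hyp p G r Q κ δ ex η) (χ : Val (Cox G r Q κ)) (𝔞 : Ideal (Po n K))
    (h : rel G r Q κ ≤ 𝔞) (ψ : Cox G r Q κ →+* Cox G r Q κ) (i : ℕ)
    (hψ : ∀ (y : Cox G r Q κ) (f : Po n K),
      Ideal.Quotient.mk _ f = y.1 → Ideal.Quotient.mk _ (expand (Q ^ i) f) = (ψ y).1) :
    (push (expand (Q ^ i) : Po n K →ₐ[K] Po n K).toRingHom (tl χ)).val (Po n K ⧸ 𝔞) =
      (push (toQ 𝔞 h) (push ψ χ)).val (Po n K ⧸ 𝔞) := by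
  have ht : @Module.IsTorsionBySet (Po n K) (Po n K ⧸ 𝔞) _ _
      (Module.compHom (Po n K ⧸ 𝔞) (expand (Q ^ i) : Po n K →ₐ[K] Po n K).toRingHom)
      (rel G r Q κ) :=
    fun y x => kill_quot h _ (hy.expand_rel i x.2) y
  simp only [tl, lift, push]
  rw [dif_pos ht]
  congr 1
  refine Module.ext' _ _ fun y m => ?_
  obtain ⟨f, hf⟩ := Ideal.Quotient.mk_surjective y.1
  have h1 : toQ 𝔞 h (ψ y) = Ideal.Quotient.mk 𝔞 (expand (Q ^ i) f) := by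
    change Ideal.Quotient.factor h (ψ y).1 = _
    rw [← hψ y f hf, Ideal.Quotient.factor_mk]
  letI := @Module.IsTorsionBySet.module (Po n K) (Po n K ⧸ 𝔞) _ _
      (Module.compHom (Po n K ⧸ 𝔞) (expand (Q ^ i) : Po n K →ₐ[K] Po n K).toRingHom) _ _ ht
  change y.1 • m = toQ 𝔞 h (ψ y) * m
  rw [h1, ← hf]
  rfl

theorem ker_toQ {𝔭 : Ideal (Cox G r Q κ)} {𝔮 𝔞 : Ideal (Po n K)} (ho : Over G r Q κ 𝔭 𝔮)
    (h : rel G r Q κ ≤ 𝔞) (h𝔞 : ∀ (c : ℕ) (f : Po n K), f.IsHomogeneous c → (f ∈ 𝔞 ↔ f ∈ 𝔮)) :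
    RingHom.ker (toQ 𝔞 h) = 𝔭 := by
  ext y
  obtain ⟨s, f, hf, hy⟩ := mem_cox.1 y.2
  have h1 : toQ 𝔞 h y = Ideal.Quotient.mk 𝔞 f := by
    change Ideal.Quotient.factor h y.1 = _
    rw [← hy, Ideal.Quotient.factor_mk]
  rw [RingHom.mem_ker, h1, Ideal.Quotient.eq_zero_iff_mem, h𝔞 _ _ hf, ho.iff s f y hf hy]

theorem chi_tl [IsNoetherianRing K] {χ : Val (Cox G r Q κ)} (hχ : IsAdd χ ⊥)
    {𝔭 : Ideal (Cox G r Q κ)} {𝔮 : Ideal (Po n K)} (ho : Over G r Q κ 𝔭 𝔮)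
    (φ : Cox G r Q κ →+* Cox G r Q κ) (hφ : ∀ (i : ℕ) (y : Cox G r Q κ) (f : Po n K),
      Ideal.Quotient.mk _ f = y.1 → Ideal.Quotient.mk _ (expand (Q ^ i) f) = ((φ ^ i) y).1)
    (hv : ∀ i, Van χ (𝔭.comap (φ ^ i))) : Chi G r Q κ 𝔮 (tl χ) := by
  refine ⟨tl_add hχ, fun 𝔯 h𝔯 h hl => ?_⟩
  obtain ⟨i, h1, c, w, hw, hw𝔯, hw𝔮⟩ := hl
  rw [tl_quot χ 𝔯 h]
  have hq : ∀ (y : Cox G r Q κ) (f : Po n K), Ideal.Quotient.mk _ f = y.1 →
      toQ 𝔯 h y = Ideal.Quotient.mk 𝔯 f := fun y f hy => by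
    change Ideal.Quotient.factor h y.1 = _
    rw [← hy, Ideal.Quotient.factor_mk]
  have hmem : ∀ (s : ℕ) (f : Po n K) (y : Cox G r Q κ), f.IsHomogeneous ((1 + r * Q ^ κ) * s) →
      Ideal.Quotient.mk _ f = y.1 → (y ∈ 𝔭.comap (φ ^ i) ↔ expand (Q ^ i) f ∈ 𝔮) :=
    fun s f y hf hy => by
      rw [Ideal.mem_comap]
      refine ho.iff (s * Q ^ i) _ _ ?_ (hφ i y f hy)
      rw [← mul_assoc]
      exact expand_hom hf _
  have hlt : 𝔭.comap (φ ^ i) < RingHom.ker (toQ 𝔯 h) := by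
    refine lt_of_le_of_ne (fun y hy => ?_) fun he => ?_
    · obtain ⟨s, f, hf, hfy⟩ := mem_cox.1 y.2
      rw [RingHom.mem_ker, hq y f hfy, Ideal.Quotient.eq_zero_iff_mem]
      exact h1 _ f hf ((hmem s f y hf hfy).1 hy)
    · have hN : (w ^ (1 + r * Q ^ κ)).IsHomogeneous ((1 + r * Q ^ κ) * c) := by
        rw [mul_comm _ c]
        exact hw.pow _
      have hy : Ideal.Quotient.mk (rel G r Q κ) (w ^ (1 + r * Q ^ κ)) ∈ Cox G r Q κ :=
        mem_cox.2 ⟨c, _, hN, rfl⟩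
      have h2 : (⟨_, hy⟩ : Cox G r Q κ) ∈ RingHom.ker (toQ 𝔯 h) := by
        rw [RingHom.mem_ker, hq ⟨_, hy⟩ _ rfl, Ideal.Quotient.eq_zero_iff_mem]
        exact Ideal.pow_mem_of_mem _ hw𝔯 _ (by omega)
      rw [← he, hmem c _ ⟨_, hy⟩ hN rfl, map_pow] at h2
      exact hw𝔮 (ho.pri.prime.mem_of_pow_mem _ h2)
  have : IsNoetherianRing (Cox G r Q κ) := cox_noeth
  letI : Module (Cox G r Q κ) (Po n K ⧸ 𝔯) := Module.compHom _ (toQ 𝔯 h)
  have : Module.Finite (Cox G r Q κ) (Po n K ⧸ 𝔯) :=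
    finite_compHom (toQ 𝔯 h) (toQ_finite 𝔯 h) _
  refine val_of_primes hχ (Po n K ⧸ 𝔯) kill_bot fun P hP hA => hv i P hP (hlt.trans_le ?_)
  refine le_trans (fun y hy => Module.mem_annihilator.2 fun m => ?_) hA
  change toQ 𝔯 h y * m = 0
  rw [RingHom.mem_ker.1 hy, zero_mul]

/-- the generic length of a finite algebra -/
theorem exists_mult_hom {R R' : Type} [CommRing R] [CommRing R'] [IsNoetherianRing R]
    (ψ : R →+* R') (hψ : ψ.Finite) (hp : (RingHom.ker ψ).IsPrime) :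
    ∃ ν : ℕ, 0 < ν ∧ ∀ χ : Val R, IsAdd χ ⊥ → Van χ (RingHom.ker ψ) →
      (push ψ χ).val R' = ν * χ.val (R ⧸ RingHom.ker ψ) := by
  letI : Module R R' := Module.compHom _ ψ
  have : Module.Finite R R' := finite_compHom ψ hψ _
  have hk : Kill (RingHom.ker ψ) R' := fun x hx y => by
    change ψ x * y = 0
    rw [RingHom.mem_ker.1 hx, zero_mul]
  obtain ⟨ν, h1, h2⟩ := exists_mult (RingHom.ker ψ) hp R' hk
  refine ⟨ν, h1 fun x hx => ?_, h2⟩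
  have h3 : ψ x * 1 = 0 := Module.mem_annihilator.1 hx (1 : R')
  rw [RingHom.mem_ker, ← mul_one (ψ x), h3]

end Pool.Agent.CXD
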