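import Pool.Agent.P.MP_2ce3e7_ag.CYB
import Pool.Agent.P.MP_2ce3e7_ag.CY0

/-! Exterior products of modules. -/

set_option linter.unusedSectionVars false
set_option linter.unusedVariables false

open Function
open scoped TensorProduct

noncomputable section

namespace Pool.Agent.CXD

/-- a module over an algebra, seen as a vector space -/
def Rs (k B M : Type) : Type := M

section

variable (k B M : Type) [Field k] [CommRing B] [Algebra k B] [AddCommGroup M] [Module B M]

local instance : AddCommGroup (Rs k B M) := inferInstanceAs (AddCommGroup M)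

local instance : Module B (Rs k B M) := inferInstanceAs (Module B M)

local instance : Module k (Rs k B M) := Module.compHom M (algebraMap k B)

local instance : IsScalarTower k B (Rs k B M) :=
  ⟨fun c b y => by
    change (c • b) • y = algebraMap k B c • b • y
    rw [Algebra.smul_def, mul_smul]⟩

local instance : SMulCommClass B k (Rs k B M) :=
  ⟨fun b c y => by
    change b • algebraMap k B c • y = algebraMap k B c • b • y
    rw [smul_comm]⟩

end

attribute [local instance] instAddCommGroupRs instModuleRs instModuleRs_1 instIsScalarTowerRs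
  instSMulCommClassRs

variable (k K B : Type) [Field k] [CommRing K] [Algebra k K] [CommRing B] [Algebra k B]
  (N M : Type) [AddCommGroup N] [Module K N] [AddCommGroup M] [Module B M]

/-- the exterior product -/
def Box : Type := Rs k K N ⊗[k] Rs k B M

local instance : AddCommGroup (Box k K B N M) := inferInstanceAs (AddCommGroup (Rs k K N ⊗[k] Rs k B M))

/-- the action on the exterior product -/
def act : K ⊗[k] B →ₐ[k] Module.End k (Rs k K N ⊗[k] Rs k B M) :=
  Module.endTensorEndAlgHom.comp
    (Algebra.TensorProduct.map (Algebra.lsmul k k (Rs k K N)) (Algebra.lsmul k k (Rs k B M)))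

local instance : Module (K ⊗[k] B) (Box k K B N M) :=
  Module.compHom (Rs k K N ⊗[k] Rs k B M) (act k K B N M).toRingHom

variable {N M}

/-- a pure tensor -/
def bt (x : N) (y : M) : Box k K B N M := (show Rs k K N from x) ⊗ₜ[k] (show Rs k B M from y)

/-- the inclusion of the second factor -/
abbrev inr : B →+* K ⊗[k] B := (Algebra.TensorProduct.includeRight : B →ₐ[k] K ⊗[k] B).toRingHom

variable {k K B}

theorem smul_bt (a : K) (b : B) (x : N) (y : M) :
    (a ⊗ₜ[k] b) • bt k K B x y = bt k K B (a • x) (b • y) := rfl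

theorem Box.induction {p : Box k K B N M → Prop} (z : Box k K B N M) (h0 : p 0)
    (h1 : ∀ x y, p (bt k K B x y)) (h2 : ∀ u v, p u → p v → p (u + v)) : p z :=
  TensorProduct.induction_on (motive := p) z h0 h1 h2

/-- the base change of an algebra map -/
def mp (K : Type) [CommRing K] [Algebra k K] {B' : Type} [CommRing B'] [Algebra k B']
    (ψ : B →ₐ[k] B') : K ⊗[k] B →+* K ⊗[k] B' :=
  (Algebra.TensorProduct.map (AlgHom.id k K) ψ).toRingHom

theorem mp_tmul {B' : Type} [CommRing B'] [Algebra k B'] (ψ : B →ₐ[k] B') (a : K) (b : B) :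
    mp K ψ (a ⊗ₜ b) = a ⊗ₜ ψ b := rfl

variable (k) in
/-- a function of the second factor -/
def bx (N : Type) [AddCommGroup N] [Module K N] (χ : Val (K ⊗[k] B)) : Val B :=
  ⟨fun M _ _ => χ.val (Box k K B N M)⟩

variable (k) in
/-- a function of the first factor -/
def xb (M : Type) [AddCommGroup M] [Module B M] (χ : Val (K ⊗[k] B)) : Val K :=
  ⟨fun N _ _ => χ.val (Box k K B N M)⟩

theorem bt_add_left_CYC (x x' : N) (y : M) :
    bt k K B (x + x') y = bt k K B x y + bt k K B x' y :=
  TensorProduct.add_tmul (R := k) (M := Rs k K N) (N := Rs k B M) x x' y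

theorem bt_add_right_CYC (x : N) (y y' : M) :
    bt k K B x (y + y') = bt k K B x y + bt k K B x y' :=
  TensorProduct.tmul_add (R := k) (M := Rs k K N) (N := Rs k B M) x y y'

theorem bt_zero_left_CYC (y : M) : bt k K B (0 : N) y = 0 :=
  TensorProduct.zero_tmul (R := k) (Rs k K N) (N := Rs k B M) y

theorem bt_zero_right_CYC (x : N) : bt k K B x (0 : M) = 0 :=
  TensorProduct.tmul_zero (R := k) (M := Rs k K N) (Rs k B M) x

/-- a semilinear map as a linear map of vector spaces -/
def rsMap_CYC {B' M' : Type} [CommRing B'] [Algebra k B'] [AddCommGroup M'] [Module B' M']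
    (ψ : B →ₐ[k] B') (j : M →ₛₗ[ψ.toRingHom] M') : Rs k B M →ₗ[k] Rs k B' M' where
  toFun y := j y
  map_add' y y' := j.map_add y y'
  map_smul' c y := by
    have h : j (algebraMap k B c • (show M from y)) =
        algebraMap k B' c • j (show M from y) := by
      rw [j.map_smulₛₗ]
      exact congrArg (fun b : B' => b • j (show M from y)) (ψ.commutes c)
    exact h

/-- a linear map as a linear map of vector spaces -/
def rsLin_CYC {M₂ : Type} [AddCommGroup M₂] [Module B M₂] (f : M →ₗ[B] M₂) :
    Rs k B M →ₗ[k] Rs k B M₂ where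
  toFun y := f y
  map_add' y y' := f.map_add y y'
  map_smul' c y := f.map_smul (algebraMap k B c) y

local instance finite_box [Module.Finite K N] [Module.Finite B M] :
    Module.Finite (K ⊗[k] B) (Box k K B N M) := by
  obtain ⟨s, hs⟩ := Module.Finite.fg_top (R := K) (M := N)
  obtain ⟨t, ht⟩ := Module.Finite.fg_top (R := B) (M := M)
  refine ⟨Submodule.fg_def.2 ⟨Set.image2 (bt k K B) (s : Set N) (t : Set M),
    s.finite_toSet.image2 _ t.finite_toSet, eq_top_iff.2 fun z _ => ?_⟩⟩
  refine Box.induction z (zero_mem _) (fun x y => ?_) fun u v hu hv => add_mem hu hv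
  have hx : x ∈ Submodule.span K (s : Set N) := hs ▸ Submodule.mem_top
  have hy : y ∈ Submodule.span B (t : Set M) := ht ▸ Submodule.mem_top
  induction hx using Submodule.span_induction with
  | mem x hx =>
    induction hy using Submodule.span_induction with
    | mem y hy => exact Submodule.subset_span (Set.mem_image2_of_mem hx hy)
    | zero => rw [bt_zero_right_CYC]; exact zero_mem _
    | add y y' _ _ h1 h2 => rw [bt_add_right_CYC]; exact add_mem h1 h2
    | smul b y _ h1 =>
      have := Submodule.smul_mem _ ((1 : K) ⊗ₜ[k] b) h1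
      rwa [smul_bt, one_smul] at this
  | zero => rw [bt_zero_left_CYC]; exact zero_mem _
  | add x x' _ _ h1 h2 => rw [bt_add_left_CYC]; exact add_mem h1 h2
  | smul a x _ h1 =>
    have := Submodule.smul_mem _ (a ⊗ₜ[k] (1 : B)) h1
    rwa [smul_bt, one_smul] at this

theorem kill_box {b : Ideal B} (h : Kill b M) : Kill (b.map (inr k K B)) (Box k K B N M) := by
  refine kill_iff.2 (Ideal.map_le_iff_le_comap.2 fun c hc => Module.mem_annihilator.2 fun z => ?_)
  refine Box.induction (p := fun z => inr k K B c • z = 0) z (smul_zero _) (fun x y => ?_)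
    fun u v hu hv => ?_
  · change ((1 : K) ⊗ₜ[k] c) • bt k K B x y = 0
    rw [smul_bt, h c hc y, bt_zero_right_CYC]
  · rw [smul_add, hu, hv, add_zero]

theorem exists_box_map {B' M' : Type} [CommRing B'] [Algebra k B'] [AddCommGroup M'] [Module B' M']
    (ψ : B →ₐ[k] B') (j : M →ₛₗ[ψ.toRingHom] M') :
    ∃ J : Box k K B N M →ₛₗ[mp K ψ] Box k K B' N M',
      (∀ x y, J (bt k K B x y) = bt k K B' x (j y)) ∧ (Injective j → Injective J) ∧
        (Surjective j → Surjective J) := by
  let L : Box k K B N M →+ Box k K B' N M' :=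
    (LinearMap.lTensor (Rs k K N) (rsMap_CYC ψ j)).toAddMonoidHom
  have hL : ∀ x y, L (bt k K B x y) = bt k K B' x (j y) := fun x y => rfl
  refine ⟨{ toFun := L, map_add' := L.map_add, map_smul' := fun c z => ?_ }, hL, fun h => ?_,
    fun h => ?_⟩
  · induction c using TensorProduct.induction_on with
    | zero => rw [zero_smul, map_zero, map_zero, zero_smul]
    | add c d hc hd => rw [add_smul, map_add, map_add, add_smul, hc, hd]
    | tmul a b =>
      refine Box.induction (p := fun z => L (a ⊗ₜ[k] b • z) = mp K ψ (a ⊗ₜ[k] b) • L z) z ?_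
        (fun x y => ?_) fun u v hu hv => ?_
      · rw [smul_zero, map_zero, smul_zero]
      · rw [smul_bt, hL, hL, mp_tmul, smul_bt, j.map_smulₛₗ]
        rfl
      · rw [smul_add, map_add, map_add, smul_add, hu, hv]
  · exact Module.Flat.lTensor_preserves_injective_linearMap (M := Rs k K N) (rsMap_CYC ψ j) h
  · exact LinearMap.lTensor_surjective (Rs k K N) (g := rsMap_CYC ψ j) h

theorem exists_box_lin {M₂ : Type} [AddCommGroup M₂] [Module B M₂] (f : M →ₗ[B] M₂) :
    ∃ F : Box k K B N M →ₗ[K ⊗[k] B] Box k K B N M₂, ∀ x y, F (bt k K B x y) = bt k K B x (f y) := by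
  let L : Box k K B N M →+ Box k K B N M₂ :=
    (LinearMap.lTensor (Rs k K N) (rsLin_CYC (k := k) f)).toAddMonoidHom
  have hL : ∀ x y, L (bt k K B x y) = bt k K B x (f y) := fun x y => rfl
  refine ⟨{ toFun := L, map_add' := L.map_add, map_smul' := fun c z => ?_ }, hL⟩
  rw [RingHom.id_apply]
  induction c using TensorProduct.induction_on with
  | zero => rw [zero_smul, map_zero, zero_smul]
  | add c d hc hd => rw [add_smul, map_add, add_smul, hc, hd]
  | tmul a b =>
    refine Box.induction (p := fun z => L (a ⊗ₜ[k] b • z) = a ⊗ₜ[k] b • L z) z ?_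
      (fun x y => ?_) fun u v hu hv => ?_
    · rw [smul_zero, map_zero, smul_zero]
    · rw [smul_bt, hL, hL, smul_bt, f.map_smul]
    · rw [smul_add, map_add, map_add, smul_add, hu, hv]

theorem eq_lTensor_CYC {M₂ : Type} [AddCommGroup M₂] [Module B M₂] {f : M →ₗ[B] M₂}
    {F : Box k K B N M →ₗ[K ⊗[k] B] Box k K B N M₂}
    (hF : ∀ x y, F (bt k K B x y) = bt k K B x (f y)) :
    (F : Box k K B N M → Box k K B N M₂) =
      LinearMap.lTensor (Rs k K N) (rsLin_CYC (k := k) f) := by
  let L : Box k K B N M →+ Box k K B N M₂ :=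
    (LinearMap.lTensor (Rs k K N) (rsLin_CYC (k := k) f)).toAddMonoidHom
  have hL : ∀ x y, L (bt k K B x y) = bt k K B x (f y) := fun x y => rfl
  funext z
  change F z = L z
  refine Box.induction (p := fun z => F z = L z) z ?_ (fun x y => ?_) fun u v hu hv => ?_
  · rw [map_zero, map_zero]
  · rw [hF, hL]
  · rw [map_add, map_add, hu, hv]

theorem box_exact {M₂ M₃ : Type} [AddCommGroup M₂] [Module B M₂] [AddCommGroup M₃] [Module B M₃]
    {f : M →ₗ[B] M₂} {g : M₂ →ₗ[B] M₃} {F : Box k K B N M →ₗ[K ⊗[k] B] Box k K B N M₂}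
    {G : Box k K B N M₂ →ₗ[K ⊗[k] B] Box k K B N M₃}
    (hF : ∀ x y, F (bt k K B x y) = bt k K B x (f y))
    (hG : ∀ x y, G (bt k K B x y) = bt k K B x (g y)) :
    (Injective f → Injective F) ∧ (Surjective g → Surjective G) ∧ (Exact f g → Exact F G) := by
  rw [eq_lTensor_CYC hF, eq_lTensor_CYC hG]
  refine ⟨fun h => ?_, fun h => ?_, fun h => ?_⟩
  · exact Module.Flat.lTensor_preserves_injective_linearMap (M := Rs k K N)
      (rsLin_CYC (k := k) f) h
  · exact LinearMap.lTensor_surjective (Rs k K N) (g := rsLin_CYC (k := k) g) h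
  · exact Module.Flat.lTensor_exact (Rs k K N) (f := rsLin_CYC (k := k) f)
      (g := rsLin_CYC (k := k) g) h

theorem isAdd_bx [Module.Finite K N] {χ : Val (K ⊗[k] B)} {b : Ideal B}
    (h : IsAdd χ (b.map (inr k K B))) : IsAdd (bx k N χ) b := by
  intro M₁ M₂ M₃ _ _ _ _ _ _ _ f g hf hg he hk
  obtain ⟨F, hF⟩ := exists_box_lin (k := k) (K := K) (N := N) f
  obtain ⟨G, hG⟩ := exists_box_lin (k := k) (K := K) (N := N) g
  obtain ⟨h1, h2, h3⟩ := box_exact hF hG
  exact h _ _ _ F G (h1 hf) (h2 hg) (h3 he) (kill_box hk)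

end Pool.Agent.CXD
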