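import Pool.Agent.P.MP_2ce3e7_ag.CYC

attribute [local instance] Pool.Agent.CXD.instAddCommGroupRs Pool.Agent.CXD.instModuleRs
  Pool.Agent.CXD.instModuleRs_1 Pool.Agent.CXD.instIsScalarTowerRs
  Pool.Agent.CXD.instSMulCommClassRs Pool.Agent.CXD.instAddCommGroupBox
  Pool.Agent.CXD.instModuleTensorProductBox Pool.Agent.CXD.finite_box

/-! Exterior products of cyclic modules. -/

set_option linter.unusedSectionVars false
set_option linter.unusedVariables false

open Function
open scoped TensorProduct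

noncomputable section

namespace Pool.Agent.CXD

variable {k K B : Type} [Field k] [CommRing K] [Algebra k K] [CommRing B] [Algebra k B]
  {N M : Type} [AddCommGroup N] [Module K N] [AddCommGroup M] [Module B M]

variable (k) in
/-- a linear map seen over the base field -/
def rsl_CYC1 {N₂ : Type} [AddCommGroup N₂] [Module K N₂] (f : N →ₗ[K] N₂) :
    Rs k K N →ₗ[k] Rs k K N₂ where
  toFun x := f x
  map_add' x y := f.map_add x y
  map_smul' c x := f.map_smul (algebraMap k K c) x

variable (k B M) in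
/-- the induced map on exterior products -/
def rbox_CYC1 {N₂ : Type} [AddCommGroup N₂] [Module K N₂] (f : N →ₗ[K] N₂) :
    Box k K B N M →ₗ[K ⊗[k] B] Box k K B N₂ M where
  toFun z := LinearMap.rTensor (Rs k B M) (rsl_CYC1 k f) z
  map_add' x y := (LinearMap.rTensor (Rs k B M) (rsl_CYC1 k f)).map_add x y
  map_smul' s z := by
    have hadd : ∀ u v : Box k K B N M,
        (LinearMap.rTensor (Rs k B M) (rsl_CYC1 k f) (u + v : Box k K B N M) : Box k K B N₂ M) =
          ((show Box k K B N₂ M from LinearMap.rTensor (Rs k B M) (rsl_CYC1 k f) u) +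
            (show Box k K B N₂ M from LinearMap.rTensor (Rs k B M) (rsl_CYC1 k f) v)) :=
      fun u v => (LinearMap.rTensor (Rs k B M) (rsl_CYC1 k f)).map_add u v
    let F : Box k K B N M →+ Box k K B N₂ M :=
      (LinearMap.rTensor (Rs k B M) (rsl_CYC1 k f)).toAddMonoidHom
    change F (s • z) = s • F z
    induction s using TensorProduct.induction_on with
    | zero => rw [zero_smul, zero_smul, map_zero]
    | add s t hs ht => rw [add_smul, add_smul, map_add, hs, ht]
    | tmul a b =>
      induction z using Box.induction with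
      | h0 => rw [smul_zero, map_zero, smul_zero]
      | h2 u v hu hv => rw [smul_add, map_add, map_add, smul_add, hu, hv]
      | h1 x y =>
        rw [smul_bt]
        change bt k K B (f (a • x)) (b • y) = (a ⊗ₜ[k] b) • bt k K B (f x) y
        rw [smul_bt, map_smul]

theorem isAdd_xb [Module.Finite B M] {χ : Val (K ⊗[k] B)} (h : IsAdd χ ⊥) :
    IsAdd (xb k M χ) ⊥ := by
  intro N₁ N₂ N₃ _ _ _ _ _ _ _ f g hf hg he _
  refine h _ _ _ (rbox_CYC1 k B M f) (rbox_CYC1 k B M g) ?_ ?_ ?_ kill_bot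
  · exact Module.Flat.rTensor_preserves_injective_linearMap (M := Rs k B M) (rsl_CYC1 k f) hf
  · exact LinearMap.rTensor_surjective (Rs k B M) (g := rsl_CYC1 k g) hg
  · exact Module.Flat.rTensor_exact (Rs k B M) (f := rsl_CYC1 k f) (g := rsl_CYC1 k g) he

variable (k) in
/-- the identity map as a linear equivalence over the base field -/
def rse_CYC1 (I : Ideal K) : Rs k K (K ⧸ I) ≃ₗ[k] K ⧸ I where
  toFun x := x
  invFun x := x
  map_add' _ _ := rfl
  map_smul' c x := algebraMap_smul K c (show K ⧸ I from x)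
  left_inv _ := rfl
  right_inv _ := rfl

theorem box_quot (I : Ideal K) (J : Ideal B) :
    Nonempty (Box k K B (K ⧸ I) (B ⧸ J) ≃ₗ[K ⊗[k] B] (K ⊗[k] B) ⧸ prodI k K B I J) := by
  let E : Box k K B (K ⧸ I) (B ⧸ J) ≃+ (K ⧸ I) ⊗[k] (B ⧸ J) :=
    (TensorProduct.congr (rse_CYC1 k I) (rse_CYC1 k J)).toAddEquiv
  let φ : (K ⊗[k] B) →ₗ[K ⊗[k] B] Box k K B (K ⧸ I) (B ⧸ J) :=
    LinearMap.toSpanSingleton _ _ (bt k K B (1 : K ⧸ I) (1 : B ⧸ J))
  have hφ : ∀ s, E (φ s) =
      Algebra.TensorProduct.map (Ideal.Quotient.mkₐ k I) (Ideal.Quotient.mkₐ k J) s := by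
    intro s
    induction s using TensorProduct.induction_on with
    | zero => simp only [map_zero]
    | add s t hs ht => simp only [map_add, hs, ht]
    | tmul a b =>
      have h1 : φ (a ⊗ₜ[k] b) = bt k K B (a • (1 : K ⧸ I)) (b • (1 : B ⧸ J)) := smul_bt a b _ _
      rw [h1, Algebra.TensorProduct.map_tmul]
      change (a • (1 : K ⧸ I)) ⊗ₜ[k] (b • (1 : B ⧸ J)) = _
      rw [← Algebra.algebraMap_eq_smul_one, ← Algebra.algebraMap_eq_smul_one]
      rfl
  have hs : Surjective φ := by
    intro z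
    obtain ⟨s, hs⟩ := TensorProduct.map_surjective
      (g := (Ideal.Quotient.mkₐ k I).toLinearMap) (Ideal.Quotient.mkₐ_surjective k I)
      (g' := (Ideal.Quotient.mkₐ k J).toLinearMap) (Ideal.Quotient.mkₐ_surjective k J) (E z)
    exact ⟨s, E.injective ((hφ s).trans hs)⟩
  have hk : LinearMap.ker φ = prodI k K B I J := by
    have h1 := Algebra.TensorProduct.map_ker (Ideal.Quotient.mkₐ k I) (Ideal.Quotient.mkₐ k J)
      (Ideal.Quotient.mkₐ_surjective k I) (Ideal.Quotient.mkₐ_surjective k J)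
    have h2 : RingHom.ker (Ideal.Quotient.mkₐ k I) = I := Ideal.Quotient.mkₐ_ker k I
    have h3 : RingHom.ker (Ideal.Quotient.mkₐ k J) = J := Ideal.Quotient.mkₐ_ker k J
    rw [h2, h3] at h1
    ext s
    rw [prodI, ← h1, LinearMap.mem_ker, RingHom.mem_ker, ← hφ]
    exact (map_eq_zero_iff E E.injective).symm
  exact ⟨(φ.quotKerEquivOfSurjective hs).symm.trans (Submodule.quotEquivOfEq _ _ hk)⟩

end Pool.Agent.CXD
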