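import Pool.Agent.P.MP_2ce3e7_ag.CYC1

attribute [local instance] Pool.Agent.CXD.instAddCommGroupRs Pool.Agent.CXD.instModuleRs
  Pool.Agent.CXD.instModuleRs_1 Pool.Agent.CXD.instIsScalarTowerRs
  Pool.Agent.CXD.instSMulCommClassRs Pool.Agent.CXD.instAddCommGroupBox
  Pool.Agent.CXD.instModuleTensorProductBox Pool.Agent.CXD.finite_box

/-! Functions that kill exterior products. -/

set_option linter.unusedSectionVars false
set_option linter.unusedVariables false

open Function
open scoped TensorProduct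

noncomputable section

namespace Pool.Agent.CXD

variable (k K B : Type) [Field k] [CommRing K] [Algebra k K] [CommRing B] [Algebra k B]

/-- kills products of closed subschemes -/
def Ext0 (χ : Val (K ⊗[k] B)) : Prop := ∀ I J, χ.val (K ⊗[k] B ⧸ prodI k K B I J) = 0

/-- kills exterior products -/
def Ext1 (χ : Val (K ⊗[k] B)) : Prop :=
  ∀ (N M : Type) [AddCommGroup N] [Module K N] [Module.Finite K N] [AddCommGroup M] [Module B M]
    [Module.Finite B M], χ.val (Box k K B N M) = 0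

variable {k K B} {B' : Type} [CommRing B'] [Algebra k B'] {χ : Val (K ⊗[k] B)} {N M : Type}
  [AddCommGroup N] [Module K N] [AddCommGroup M] [Module B M]

theorem Ext1.ext0 (h : Ext1 k K B χ) (hχ : IsAdd χ ⊥) : Ext0 k K B χ := by
  intro I J
  obtain ⟨e⟩ := box_quot (k := k) I J
  rw [← hχ.congr e kill_bot]
  exact h _ _

theorem Ext0.ext1 [IsNoetherianRing K] [IsNoetherianRing B] (h : Ext0 k K B χ) (hχ : IsAdd χ ⊥) :
    Ext1 k K B χ := by
  intro N M _ _ _ _ _ _
  have hb : IsAdd (bx k N χ) ⊥ := isAdd_bx (hχ.mono bot_le)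
  refine val_of_primes hb M kill_bot fun P _ _ => ?_
  have hx : IsAdd (xb k (B ⧸ P) χ) ⊥ := isAdd_xb hχ
  refine val_of_primes hx N kill_bot fun Q _ _ => ?_
  obtain ⟨e⟩ := box_quot (k := k) Q P
  exact (hχ.congr e kill_bot).trans (h Q P)

theorem mp_finite {ψ : B →ₐ[k] B'} (hψ : ψ.toRingHom.Finite) : (mp K ψ).Finite := by
  exact RingHom.Finite.tensorProductMap (f := AlgHom.id k K) (AlgHom.Finite.id k K) hψ

theorem mp_inr (ψ : B →ₐ[k] B') (b : B) : mp K ψ (inr k K B b) = inr k K B' (ψ b) := rfl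

theorem ker_mp (ψ : B →ₐ[k] B') :
    RingHom.ker (mp K ψ) = (RingHom.ker ψ.toRingHom).map (inr k K B) := by
  have h1 : RingHom.ker (Algebra.TensorProduct.map (AlgHom.id k K) ψ) =
      (RingHom.ker ψ).map (Algebra.TensorProduct.includeRight : B →ₐ[k] K ⊗[k] B) := by
    rw [← Submodule.restrictScalars_inj k]
    have : (RingHom.ker (Algebra.TensorProduct.map (AlgHom.id k K) ψ)).restrictScalars k =
      LinearMap.ker (LinearMap.lTensor K (AlgHom.toLinearMap ψ)) := rfl
    rw [this, Ideal.map_includeRight_eq,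
      (Module.Flat.lTensor_exact K ψ.toLinearMap.exact_subtype_ker_map).linearMap_ker_eq]
    rfl
  exact h1

theorem tmul_CYC2 (ψ : B →ₐ[k] B') (a : K) (y : B') :
    a ⊗ₜ[k] y = mp K ψ (a ⊗ₜ[k] 1) * inr k K B' y := by
  change _ = (a ⊗ₜ[k] ψ 1) * ((1 : K) ⊗ₜ[k] y)
  rw [Algebra.TensorProduct.tmul_mul_tmul, map_one, mul_one, one_mul]

theorem int_CYC2 (ψ : B →ₐ[k] B') {y : B'} (h : ψ.toRingHom.IsIntegralElem y) :
    (mp K ψ).IsIntegralElem (inr k K B' y) := by
  obtain ⟨p, hp, h0⟩ := h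
  refine ⟨p.map (inr k K B), hp.map _, ?_⟩
  have e : (mp K ψ).comp (inr k K B) = (inr k K B').comp ψ.toRingHom := RingHom.ext fun _ => rfl
  rw [Polynomial.eval₂_map, e, ← Polynomial.hom_eval₂, h0, map_zero]

theorem pc_mp {ψ : B →ₐ[k] B'} {S : Set B} (h : Pc ψ.toRingHom S) :
    Pc (mp K ψ) (inr k K B '' S) := by
  refine ⟨h.fin.image _, ?_, ?_⟩
  · classical
    let : Algebra B B' := ψ.toRingHom.toAlgebra
    let : Algebra (K ⊗[k] B) (K ⊗[k] B') := (mp K ψ).toAlgebra
    obtain ⟨s, hs⟩ := (show Algebra.FiniteType B B' from h.ft).out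
    refine ⟨⟨s.image (inr k K B'), ?_⟩⟩
    have h1 : ∀ y : B', inr k K B' y ∈
        Algebra.adjoin (K ⊗[k] B) (↑(s.image (inr k K B')) : Set (K ⊗[k] B')) := by
      intro y
      have hy : y ∈ Algebra.adjoin B (s : Set B') := by rw [hs]; trivial
      induction hy using Algebra.adjoin_induction with
      | mem x hx =>
        exact Algebra.subset_adjoin (Finset.mem_coe.2 (Finset.mem_image_of_mem _ hx))
      | algebraMap b => exact Subalgebra.algebraMap_mem _ (inr k K B b)
      | add u v _ _ hu hv => rw [map_add]; exact add_mem hu hv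
      | mul u v _ _ hu hv => rw [map_mul]; exact mul_mem hu hv
    rw [eq_top_iff]
    rintro z -
    induction z using TensorProduct.induction_on with
    | zero => exact zero_mem _
    | tmul a y =>
      rw [tmul_CYC2 ψ]
      exact mul_mem (Subalgebra.algebraMap_mem _ (a ⊗ₜ[k] (1 : B))) (h1 y)
    | add u v hu hv => exact add_mem hu hv
  · rintro _ ⟨f, hf, rfl⟩ z
    induction z using TensorProduct.induction_on with
    | zero => exact ⟨0, by rw [mul_zero]; exact RingHom.isIntegralElem_zero _⟩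
    | tmul a y =>
      obtain ⟨n, hn⟩ := h.int f hf y
      refine ⟨n, ?_⟩
      rw [tmul_CYC2 ψ, mul_left_comm, mp_inr, ← map_pow, ← map_mul]
      exact RingHom.IsIntegralElem.mul _ (RingHom.isIntegralElem_map _) (int_CYC2 ψ hn)
    | add u v hu hv =>
      obtain ⟨n, hn⟩ := hu
      obtain ⟨m, hm⟩ := hv
      refine ⟨n + m, ?_⟩
      have e : mp K ψ (inr k K B f) ^ (n + m) * (u + v) =
          mp K ψ (inr k K B f ^ m) * (mp K ψ (inr k K B f) ^ n * u) +
            mp K ψ (inr k K B f ^ n) * (mp K ψ (inr k K B f) ^ m * v) := by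
        rw [map_pow, map_pow]
        ring
      rw [e]
      exact RingHom.IsIntegralElem.add _
        (RingHom.IsIntegralElem.mul _ (RingHom.isIntegralElem_map _) hn)
        (RingHom.IsIntegralElem.mul _ (RingHom.isIntegralElem_map _) hm)

/-- the exterior product and restriction of scalars -/
theorem push_box (hχ : IsAdd χ ⊥) [Module.Finite K N] (ψ : B →ₐ[k] B') (hψ : ψ.toRingHom.Finite)
    (M' : Type) [AddCommGroup M'] [Module B' M'] [Module.Finite B' M'] :
    (push (mp K ψ) χ).val (Box k K B' N M') = (push ψ.toRingHom (bx k N χ)).val M' := by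
  let : Module B M' := Module.compHom M' ψ.toRingHom
  have : Module.Finite B M' := finite_compHom _ hψ M'
  let j : M' →ₛₗ[ψ.toRingHom] M' :=
    { toFun := id, map_add' := fun _ _ => rfl, map_smul' := fun _ _ => rfl }
  obtain ⟨J, -, hi, hs⟩ := exists_box_map (K := K) (N := N) ψ j
  let : Module (K ⊗[k] B) (Box k K B' N M') := Module.compHom _ (mp K ψ)
  let J' : Box k K B N M' →ₗ[K ⊗[k] B] Box k K B' N M' :=
    { toFun := J, map_add' := J.map_add, map_smul' := J.map_smulₛₗ }
  let e := LinearEquiv.ofBijective J' ⟨hi injective_id, hs surjective_id⟩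
  exact hχ.congr e.symm kill_bot

theorem Ext1.push (h : Ext1 k K B χ) (hχ : IsAdd χ ⊥) (ψ : B →ₐ[k] B')
    (hψ : ψ.toRingHom.Finite) : Ext1 k K B' (push (mp K ψ) χ) := by
  intro N M' _ _ _ _ _ _
  rw [push_box hχ ψ hψ]
  exact @h N M' _ _ _ _ (Module.compHom M' ψ.toRingHom) (finite_compHom _ hψ M')

theorem box_lat [Module.Finite K N] {ψ : B →ₐ[k] B'} {S : Set B} {M' : Type} [AddCommGroup M']
    [Module B' M'] {j : M →ₛₗ[ψ.toRingHom] M'} (h : Lat ψ.toRingHom S j) :
    ∃ J : Box k K B N M →ₛₗ[mp K ψ] Box k K B' N M', Lat (mp K ψ) (inr k K B '' S) J := by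
  obtain ⟨J, hJ, hi, -⟩ := exists_box_map (K := K) (N := N) ψ j
  have := h.fin
  refine ⟨J, inferInstance, hi h.inj, ?_⟩
  rintro _ ⟨f, hf, rfl⟩ z
  induction z using Box.induction with
  | h0 => exact ⟨0, 0, by rw [map_zero, smul_zero]⟩
  | h1 x y =>
    obtain ⟨n, m, hm⟩ := h.den f hf y
    refine ⟨n, bt k K B x m, ?_⟩
    rw [hJ, hm, mp_inr, ← map_pow (inr k K B')]
    have e := smul_bt (k := k) (1 : K) (ψ f ^ n) x y
    rw [one_smul] at e
    exact e.symm
  | h2 u v hu hv =>
    obtain ⟨n, x, hx⟩ := hu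
    obtain ⟨m, y, hy⟩ := hv
    refine ⟨n + m, inr k K B f ^ m • x + inr k K B f ^ n • y, ?_⟩
    rw [map_add, J.map_smulₛₗ, J.map_smulₛₗ, hx, hy, map_pow, map_pow, smul_add, ← mul_smul,
      ← mul_smul, ← pow_add, ← pow_add, add_comm m n]

end Pool.Agent.CXD
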