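import Pool.Agent.P.MP_2ce3e7_ag.CXE
import Pool.Agent.P.MP_2ce3e7_ag.CYT

/-! Base change of the coordinate ring. -/

set_option linter.unusedSectionVars false
set_option linter.unusedVariables false

open MvPolynomial
open scoped TensorProduct

noncomputable section

namespace Pool.Agent.CXD

variable {k K : Type} [Field k] [CommRing K] [Algebra k K] {n r Q κ : ℕ}
  {G : Matrix (Fin n) (Fin n) k}

/-- the canonical isomorphism of coordinate rings -/
def IsCan (e : K ⊗[k] Cox G r Q κ ≃+* Cox (G.map (algebraMap k K)) r Q κ) : Prop :=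
  ∀ (a : K) (y : Cox G r Q κ) (f : Po n k), Ideal.Quotient.mk _ f = y.1 →
    (e (a ⊗ₜ y)).1 = Ideal.Quotient.mk _ (C a * MvPolynomial.map (algebraMap k K) f)

/-- the canonical isomorphism of polynomial rings -/
def IsPo (u : Po n K ≃+* K ⊗[k] Po n k) : Prop :=
  ∀ (a : K) (f : Po n k), u (C a * MvPolynomial.map (algebraMap k K) f) = a ⊗ₜ f

theorem map_bj_CYD (j : ℕ) : MvPolynomial.map (algebraMap k K) (bj G r Q j) =
    bj (G.map (algebraMap k K)) r Q j := by
  simp [bj, bform]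

theorem map_eqn (j : ℕ) : MvPolynomial.map (algebraMap k K) (eqn G r Q κ j) =
    eqn (G.map (algebraMap k K)) r Q κ j := by
  unfold eqn
  split_ifs
  · exact map_bj_CYD j
  · rw [map_sub, map_one, map_bj_CYD]

theorem exists_po : ∃ u : Po n K ≃+* K ⊗[k] Po n k, IsPo u := by
  refine ⟨(MvPolynomial.algebraTensorAlgEquiv k K).symm.toRingEquiv, fun a f => ?_⟩
  change (MvPolynomial.algebraTensorAlgEquiv k K).symm _ = _
  rw [AlgEquiv.symm_apply_eq, algebraTensorAlgEquiv_tmul, smul_eq_C_mul]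

theorem IsPo.eqn {u : Po n K ≃+* K ⊗[k] Po n k} (hu : IsPo u) (j : ℕ) :
    u.toRingHom (eqn (G.map (algebraMap k K)) r Q κ j) = inr k K (Po n k) (eqn G r Q κ j) := by
  have := hu 1 (CXD.eqn G r Q κ j)
  rw [map_one, one_mul, map_eqn] at this
  exact this

theorem rel_map_CYD {f : Po n k} (hf : f ∈ rel G r Q κ) :
    MvPolynomial.map (algebraMap k K) f ∈ rel (G.map (algebraMap k K)) r Q κ := by
  have : rel G r Q κ ≤ (rel (G.map (algebraMap k K)) r Q κ).comap
      (MvPolynomial.map (algebraMap k K)) := by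
    refine Ideal.span_le.2 ?_
    rintro _ ⟨j, hj, rfl⟩
    change MvPolynomial.map _ _ ∈ rel (G.map (algebraMap k K)) r Q κ
    rw [map_eqn]
    exact Ideal.subset_span ⟨j, hj, rfl⟩
  exact this hf

theorem exists_inj_CYD : ∃ e : K ⊗[k] (Po n k ⧸ rel G r Q κ) →+*
    Po n K ⧸ rel (G.map (algebraMap k K)) r Q κ, Function.Injective e ∧
      ∀ (a : K) (f : Po n k), e (a ⊗ₜ Ideal.Quotient.mk _ f) =
        Ideal.Quotient.mk _ (C a * MvPolynomial.map (algebraMap k K) f) := by
  obtain ⟨u, hu⟩ := exists_po (k := k) (K := K) (n := n)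
  let ρ : (Po n k ⧸ rel G r Q κ) →ₐ[k] Po n K ⧸ rel (G.map (algebraMap k K)) r Q κ :=
    Ideal.Quotient.liftₐ _ ((Ideal.Quotient.mkₐ k _).comp (mapAlgHom (Algebra.ofId k K)))
      fun f hf => Ideal.Quotient.eq_zero_iff_mem.2 (rel_map_CYD hf)
  let e := Algebra.TensorProduct.lift
    (Algebra.ofId K (Po n K ⧸ rel (G.map (algebraMap k K)) r Q κ)) ρ fun _ _ => Commute.all _ _
  have he : ∀ (a : K) (f : Po n k), e (a ⊗ₜ Ideal.Quotient.mk _ f) =
      Ideal.Quotient.mk _ (C a * MvPolynomial.map (algebraMap k K) f) := fun a f => by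
    rw [Algebra.TensorProduct.lift_tmul, map_mul]
    rfl
  have h1 : ∀ z, e (mp K (Ideal.Quotient.mkₐ k (rel G r Q κ)) z) =
      Ideal.Quotient.mk _ (u.symm z) := by
    intro z
    induction z using TensorProduct.induction_on with
    | zero => simp
    | tmul a f => rw [mp_tmul, ← hu, RingEquiv.symm_apply_apply]; exact he a f
    | add x y hx hy => rw [map_add, map_add, hx, hy, map_add, map_add]
  have h2 : Function.Surjective (mp K (Ideal.Quotient.mkₐ k (rel G r Q κ))) :=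
    Algebra.TensorProduct.map_surjective _ _ Function.surjective_id
      (Ideal.Quotient.mkₐ_surjective k _)
  have h3 : rel (G.map (algebraMap k K)) r Q κ ≤
      (RingHom.ker (mp K (Ideal.Quotient.mkₐ k (rel G r Q κ)))).comap u.toRingHom := by
    refine Ideal.span_le.2 ?_
    rintro _ ⟨j, hj, rfl⟩
    change mp K _ (u.toRingHom _) = 0
    rw [hu.eqn, mp_inr]
    have : Ideal.Quotient.mkₐ k (rel G r Q κ) (eqn G r Q κ j) = 0 :=
      Ideal.Quotient.eq_zero_iff_mem.2 (Ideal.subset_span ⟨j, hj, rfl⟩)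
    rw [this, map_zero]
  refine ⟨e.toRingHom, (injective_iff_map_eq_zero _).2 fun z hz => ?_, he⟩
  obtain ⟨z, rfl⟩ := h2 z
  have h4 := h3 (Ideal.Quotient.eq_zero_iff_mem.1 ((h1 z).symm.trans hz))
  change mp K _ (u (u.symm z)) = 0 at h4
  rwa [RingEquiv.apply_symm_apply] at h4

theorem exists_can :
    ∃ e : K ⊗[k] Cox G r Q κ ≃+* Cox (G.map (algebraMap k K)) r Q κ, IsCan e := by
  obtain ⟨e, hi, he⟩ := exists_inj_CYD (K := K) (G := G) (r := r) (Q := Q) (κ := κ)
  have h1 : Function.Injective (mp K (Cox G r Q κ).val) := by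
    rw [RingHom.injective_iff_ker_eq_bot, ker_mp,
      (RingHom.injective_iff_ker_eq_bot (Cox G r Q κ).val.toRingHom).1 Subtype.val_injective,
      Ideal.map_bot]
  let e' := e.comp (mp K (Cox G r Q κ).val)
  have h2 : ∀ (a : K) (y : Cox G r Q κ) (f : Po n k), Ideal.Quotient.mk _ f = y.1 →
      e' (a ⊗ₜ y) = Ideal.Quotient.mk _ (C a * MvPolynomial.map (algebraMap k K) f) := by
    intro a y f hf
    rw [← he, hf]
    rfl
  have h3 : ∀ z, e' z ∈ Cox (G.map (algebraMap k K)) r Q κ := by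
    intro z
    induction z using TensorProduct.induction_on with
    | zero => rw [map_zero]; exact zero_mem _
    | tmul a y =>
      obtain ⟨s, f, hf, hy⟩ := mem_cox.1 y.2
      rw [h2 a y f hy]
      exact mem_cox.2 ⟨s, _, (hf.map _).C_mul a, rfl⟩
    | add x y hx hy => rw [map_add]; exact add_mem hx hy
  let e'' : K ⊗[k] Cox G r Q κ →+* Cox (G.map (algebraMap k K)) r Q κ := e'.codRestrict _ h3
  suffices hs : Function.Surjective e'' from
    ⟨RingEquiv.ofBijective e'' ⟨fun x y h => h1 (hi (congrArg Subtype.val h)), hs⟩, h2⟩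
  intro y
  obtain ⟨s, F, hF, hy⟩ := mem_cox.1 y.2
  have h4 : ∀ d ∈ F.support, Ideal.Quotient.mk (rel G r Q κ) (monomial d 1) ∈ Cox G r Q κ :=
    fun d hd => mem_cox.2 ⟨s, _, isHomogeneous_monomial _ (by
      rw [Finsupp.degree_eq_weight_one]
      exact hF (mem_support_iff.1 hd)), rfl⟩
  refine ⟨∑ d ∈ F.support.attach, coeff d.1 F ⊗ₜ ⟨_, h4 d.1 d.2⟩, Subtype.ext ?_⟩
  change e' _ = _
  rw [map_sum, ← hy]
  conv_rhs => rw [F.as_sum, ← Finset.sum_attach, map_sum]
  refine Finset.sum_congr rfl fun d _ => ?_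
  rw [h2 _ _ _ rfl, map_monomial, map_one, C_mul_monomial, mul_one]

theorem IsCan.mp {e : K ⊗[k] Cox G r Q κ ≃+* Cox (G.map (algebraMap k K)) r Q κ} (he : IsCan e)
    (ψ : Cox G r Q κ →ₐ[k] Cox G r Q κ) (hψ : ∀ (y : Cox G r Q κ) (f : Po n k),
      Ideal.Quotient.mk _ f = y.1 → Ideal.Quotient.mk _ (expand Q f) = (ψ y).1)
    (φ : Cox (G.map (algebraMap k K)) r Q κ →+* Cox (G.map (algebraMap k K)) r Q κ)
    (hφ : ∀ (y : Cox (G.map (algebraMap k K)) r Q κ) (f : Po n K),
      Ideal.Quotient.mk _ f = y.1 → Ideal.Quotient.mk _ (expand Q f) = (φ y).1) :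
    e.toRingHom.comp (mp K ψ) = φ.comp e.toRingHom := by
  refine RingHom.ext fun z => ?_
  induction z using TensorProduct.induction_on with
  | zero => rw [RingHom.map_zero, RingHom.map_zero]
  | add x y hx hy => rw [RingHom.map_add, RingHom.map_add, hx, hy]
  | tmul a y =>
    obtain ⟨f, hf⟩ := Ideal.Quotient.mk_surjective y.1
    apply Subtype.ext
    change (e (a ⊗ₜ ψ y)).1 = (φ (e (a ⊗ₜ y))).1
    rw [← hφ _ _ (he a y f hf).symm, he a _ (expand Q f) (hψ y f hf), map_expand,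
      map_mul (expand Q), expand_C]

theorem IsCan.fr [Fintype k] (hQ : Fintype.card k = Q)
    {e : K ⊗[k] Cox G r Q κ ≃+* Cox (G.map (algebraMap k K)) r Q κ} (he : IsCan e)
    (φ : Cox (G.map (algebraMap k K)) r Q κ →+* Cox (G.map (algebraMap k K)) r Q κ)
    (hφ : ∀ (y : Cox (G.map (algebraMap k K)) r Q κ) (f : Po n K),
      Ideal.Quotient.mk _ f = y.1 → Ideal.Quotient.mk _ (expand Q f) = (φ y).1) :
    e.toRingHom.comp (Fr k K (Cox G r Q κ)) = φ.comp e.toRingHom := by
  refine RingHom.ext fun z => ?_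
  induction z using TensorProduct.induction_on with
  | zero => rw [RingHom.map_zero, RingHom.map_zero]
  | add x y hx hy => rw [RingHom.map_add, RingHom.map_add, hx, hy]
  | tmul a y =>
    obtain ⟨f, hf⟩ := Ideal.Quotient.mk_surjective y.1
    apply Subtype.ext
    change (e (a ⊗ₜ (y ^ Fintype.card k))).1 = (φ (e (a ⊗ₜ y))).1
    rw [← hφ _ _ (he a y f hf).symm, he a _ (f ^ Fintype.card k) (by rw [map_pow, hf]; rfl),
      ← mv_expand_card, map_expand, hQ, map_mul (expand Q), expand_C]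

end Pool.Agent.CXD
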