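import Pool.Agent.P.MP_2ce3e7_ag.CYD

attribute [local instance] Pool.Agent.CXD.instAddCommGroupRs Pool.Agent.CXD.instModuleRs
  Pool.Agent.CXD.instModuleRs_1 Pool.Agent.CXD.instIsScalarTowerRs
  Pool.Agent.CXD.instSMulCommClassRs Pool.Agent.CXD.instAddCommGroupBox
  Pool.Agent.CXD.instModuleTensorProductBox Pool.Agent.CXD.finite_box

/-! Exterior products over the polynomial ring. -/

set_option linter.unusedSectionVars false
set_option linter.unusedVariables false

open MvPolynomial
open scoped TensorProduct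

noncomputable section

namespace Pool.Agent.CXD

variable {k K : Type} [Field k] [CommRing K] [Algebra k K] {n r Q κ : ℕ}
  {G : Matrix (Fin n) (Fin n) k} {u : Po n K ≃+* K ⊗[k] Po n k}

theorem val_congr_CYD2 {A X Y : Type} [CommRing A] {χ : Val A} (hχ : IsAdd χ ⊥) [AddCommGroup X]
    [AddCommGroup Y] (mX : Module A X) [Module A Y] [Module.Finite A Y] (f : Y ≃+ X)
    (hf : ∀ (a : A) (y : Y), f (a • y) = (letI := mX; a • f y)) :
    @Val.val A _ χ X _ mX = χ.val Y := by
  let := mX
  exact hχ.congr (LinearEquiv.symm { f with map_smul' := hf }) kill_bot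

theorem two_CYD2 {B P D : Type} [CommRing B] [Algebra k B] [CommRing P] [Algebra k P] [CommRing D]
    [Algebra k D] (ψ₁ : B →ₐ[k] D) (ψ₂ : P →ₐ[k] D) (N M : Type) [AddCommGroup N] [Module K N]
    [AddCommGroup M] [Module B M] [Module P M] [Module D M]
    (h₁ : ∀ (b : B) (y : M), b • y = ψ₁ b • y) (h₂ : ∀ (b : P) (y : M), b • y = ψ₂ b • y) :
    ∃ f : Box k K B N M ≃+ Box k K P N M, ∀ (s : K ⊗[k] B) (t : K ⊗[k] P),
      mp K ψ₁ s = mp K ψ₂ t → ∀ z, f (s • z) = t • f z := by
  obtain ⟨J₁, -, i₁, s₁⟩ := exists_box_map (K := K) (N := N) (M := M) (M' := M) ψ₁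
    { toFun := fun y => y, map_add' := fun _ _ => rfl, map_smul' := h₁ }
  obtain ⟨J₂, -, i₂, s₂⟩ := exists_box_map (K := K) (N := N) (M := M) (M' := M) ψ₂
    { toFun := fun y => y, map_add' := fun _ _ => rfl, map_smul' := h₂ }
  have b₁ : Function.Bijective J₁ := ⟨i₁ fun _ _ h => h, s₁ fun y => ⟨y, rfl⟩⟩
  have b₂ : Function.Bijective J₂ := ⟨i₂ fun _ _ h => h, s₂ fun y => ⟨y, rfl⟩⟩
  let e₁ := AddEquiv.ofBijective J₁.toAddMonoidHom b₁
  let e₂ := AddEquiv.ofBijective J₂.toAddMonoidHom b₂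
  have he : ∀ z, J₂ (e₂.symm z) = z := fun z => e₂.apply_symm_apply z
  refine ⟨e₁.trans e₂.symm, fun s t h z => b₂.1 ?_⟩
  change J₂ (e₂.symm (J₁ (s • z))) = J₂ (t • e₂.symm (J₁ z))
  rw [he, J₂.map_smulₛₗ, he, J₁.map_smulₛₗ, h]

theorem rep_CYD2 {e : K ⊗[k] Cox G r Q κ ≃+* Cox (G.map (algebraMap k K)) r Q κ} (he : IsCan e)
    (hu : IsPo u) (s : K ⊗[k] Cox G r Q κ) : ∃ F : Po n K, Ideal.Quotient.mk _ F = (e s).1 ∧
      mp K (Cox G r Q κ).val s = mp K (Ideal.Quotient.mkₐ k (rel G r Q κ)) (u F) := by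
  induction s using TensorProduct.induction_on with
  | zero => exact ⟨0, by rw [map_zero, map_zero]; rfl, by rw [map_zero, map_zero, map_zero]⟩
  | tmul a y =>
    obtain ⟨f, hf⟩ := Ideal.Quotient.mk_surjective y.1
    refine ⟨_, (he a y f hf).symm, ?_⟩
    rw [hu, mp_tmul, mp_tmul, Ideal.Quotient.mkₐ_eq_mk, hf]
    rfl
  | add s t hs ht =>
    obtain ⟨F, h1, h2⟩ := hs
    obtain ⟨F', h1', h2'⟩ := ht
    refine ⟨F + F', ?_, ?_⟩
    · rw [map_add, map_add, h1, h1']
      rfl
    · rw [map_add, map_add, map_add, h2, h2']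

theorem tl_box {e : K ⊗[k] Cox G r Q κ ≃+* Cox (G.map (algebraMap k K)) r Q κ} (he : IsCan e)
    (hu : IsPo u) {χ : Val (K ⊗[k] Cox G r Q κ)} (hχ : IsAdd χ ⊥) (hE : Ext1 k K _ χ)
    (N M : Type) [AddCommGroup N] [Module K N] [Module.Finite K N] [AddCommGroup M]
    [Module (Po n k) M] [Module.Finite (Po n k) M] (hk : Kill (rel G r Q κ) M) :
    (push u.toRingHom (tl (push e.toRingHom χ))).val (Box k K (Po n k) N M) = 0 := by
  have hT : Module.IsTorsionBySet (Po n k) M (rel G r Q κ) := fun y a => hk a.1 a.2 y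
  let mD : Module (Po n k ⧸ rel G r Q κ) M := hT.module
  have : IsScalarTower (Po n k) (Po n k ⧸ rel G r Q κ) M := hT.isScalarTower
  have fD : Module.Finite (Po n k ⧸ rel G r Q κ) M :=
    Module.Finite.of_restrictScalars_finite (Po n k) _ _
  let mC : Module (Cox G r Q κ) M := Module.compHom M (Cox G r Q κ).val.toRingHom
  have fC : Module.Finite (Cox G r Q κ) M := finite_compHom _ cox_finite M
  obtain ⟨f, hf⟩ := two_CYD2 (K := K) (Cox G r Q κ).val (Ideal.Quotient.mkₐ k (rel G r Q κ)) N M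
    (fun _ _ => rfl) (fun b y => (hT.mk_smul b y).symm)
  let mP : Module (Po n K) (Box k K (Po n k) N M) := Module.compHom _ u.toRingHom
  have hle : rel (G.map (algebraMap k K)) r Q κ ≤
      ((rel G r Q κ).map (inr k K (Po n k))).comap u.toRingHom := by
    refine Ideal.span_le.2 ?_
    rintro _ ⟨j, hj, rfl⟩
    change u.toRingHom _ ∈ (rel G r Q κ).map (inr k K (Po n k))
    rw [hu.eqn]
    exact Ideal.mem_map_of_mem _ (Ideal.subset_span ⟨j, hj, rfl⟩)
  have hT' : Module.IsTorsionBySet (Po n K) (Box k K (Po n k) N M)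
      (rel (G.map (algebraMap k K)) r Q κ) := fun z a => kill_box hk _ (hle a.2) z
  simp only [push, tl, lift]
  rw [dif_pos hT', ← hE N M]
  refine val_congr_CYD2 hχ _ f fun s z => ?_
  obtain ⟨F, h1, h2⟩ := rep_CYD2 he hu s
  rw [hf s _ h2]
  let := hT'.module
  change _ = (e s).1 • f z
  rw [← h1, hT'.mk_smul]
  rfl

theorem bt_addl_CYD2 {B N M : Type} [CommRing B] [Algebra k B] [AddCommGroup N] [Module K N]
    [AddCommGroup M] [Module B M] (x x' : N) (y : M) :
    bt k K B (x + x') y = bt k K B x y + bt k K B x' y :=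
  TensorProduct.add_tmul (R := k) (show Rs k K N from x) (show Rs k K N from x')
    (show Rs k B M from y)

theorem fwd_CYD2 (hu : IsPo u) (N : Type) [AddCommGroup N] [Module K N] :
    ∃ f : Po n K ⊗[K] N →+ Box k K (Po n k) N (Po n k),
      ∀ F x, f (F ⊗ₜ x) = u F • bt k K (Po n k) x (1 : Po n k) := by
  have hC : ∀ a : K, u (C a) = a ⊗ₜ 1 := fun a => by rw [← hu a 1, map_one, mul_one]
  refine ⟨TensorProduct.liftAddHom (AddMonoidHom.mk' (fun F => AddMonoidHom.mk'
    (fun x => u F • bt k K (Po n k) x (1 : Po n k)) fun x x' => ?_) fun F F' => ?_)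
    fun a F x => ?_, fun F x => rfl⟩
  · rw [bt_addl_CYD2, smul_add]
  · ext x
    change u (F + F') • bt k K (Po n k) x (1 : Po n k) = u F • _ + u F' • _
    rw [map_add, add_smul]
  · change u (a • F) • bt k K (Po n k) x (1 : Po n k) = u F • bt k K (Po n k) (a • x) (1 : Po n k)
    rw [smul_eq_C_mul, mul_comm, map_mul, mul_smul, hC, smul_bt, one_smul]

theorem bwd_CYD2 (N : Type) [AddCommGroup N] [Module K N] :
    ∃ g : Box k K (Po n k) N (Po n k) →+ Po n K ⊗[K] N,
      ∀ x y, g (bt k K (Po n k) x y) = MvPolynomial.map (algebraMap k K) y ⊗ₜ x := by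
  refine ⟨TensorProduct.liftAddHom (R := k) (M := Rs k K N) (N := Rs k (Po n k) (Po n k))
    (AddMonoidHom.mk' (fun x => AddMonoidHom.mk'
    (fun y => MvPolynomial.map (algebraMap k K) (show Po n k from y) ⊗ₜ[K] (show N from x))
      fun y y' => ?_) fun x x' => ?_) fun a x y => ?_, fun x y => rfl⟩
  · rw [← TensorProduct.add_tmul, ← map_add]
  · ext y
    exact TensorProduct.tmul_add (R := K) _ (show N from x) (show N from x')
  · change MvPolynomial.map (algebraMap k K) (show Po n k from y) ⊗ₜ[K]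
      (algebraMap k K a • (show N from x)) =
      MvPolynomial.map (algebraMap k K) (C a * (show Po n k from y)) ⊗ₜ[K] (show N from x)
    rw [map_mul, map_C, ← smul_eq_C_mul, TensorProduct.smul_tmul]

theorem po_box (hu : IsPo u) {c : Val (Po n K)} (hc : IsAdd c ⊥) (N : Type) [AddCommGroup N]
    [Module K N] [Module.Finite K N] :
    (push u.toRingHom c).val (Box k K (Po n k) N (Po n k)) = c.val (Po n K ⊗[K] N) := by
  obtain ⟨f, hf⟩ := fwd_CYD2 hu N
  obtain ⟨g, hg⟩ := bwd_CYD2 (k := k) (K := K) (n := n) N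
  have h1 : ∀ (t : K ⊗[k] Po n k) (x : N),
      g (t • bt k K (Po n k) x (1 : Po n k)) = u.symm t ⊗ₜ x := by
    intro t x
    induction t using TensorProduct.induction_on with
    | zero =>
      rw [map_zero, TensorProduct.zero_tmul]
      exact (congrArg g (zero_smul (K ⊗[k] Po n k) _)).trans g.map_zero
    | tmul a y =>
      rw [smul_bt, hg, ← hu, u.symm_apply_apply, smul_eq_mul, mul_one, ← smul_eq_C_mul,
        TensorProduct.smul_tmul]
    | add s t hs ht => rw [add_smul, map_add, hs, ht, map_add, TensorProduct.add_tmul]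
  have hl : Function.LeftInverse g f := by
    intro z
    induction z using TensorProduct.induction_on with
    | zero => rw [map_zero, map_zero]
    | tmul F x => rw [hf, h1, u.symm_apply_apply]
    | add s t hs ht => rw [map_add, map_add, hs, ht]
  have hr : Function.RightInverse g f := by
    intro z
    induction z using Box.induction with
    | h0 => rw [map_zero, map_zero]
    | h1 x y =>
      have h2 := hu 1 y
      rw [C_1, one_mul] at h2
      rw [hg, hf, h2, smul_bt, one_smul, smul_eq_mul, mul_one]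
    | h2 s t hs ht => rw [map_add, map_add, hs, ht]
  refine val_congr_CYD2 hc (Module.compHom _ u.toRingHom)
    (AddEquiv.ofBijective f ⟨hl.injective, hr.surjective⟩) fun F z => ?_
  change f (F • z) = u F • f z
  induction z using TensorProduct.induction_on with
  | zero => rw [smul_zero, map_zero, smul_zero]
  | tmul F' x => rw [TensorProduct.smul_tmul', hf, hf, smul_eq_mul, map_mul, mul_smul]
  | add s t hs ht => rw [smul_add, map_add, hs, ht, map_add, smul_add]

end Pool.Agent.CXD
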