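import Pool.Agent.P.MP_2ce3e7_ag.CYA

/-! Polynomial rings. -/

set_option linter.unusedSectionVars false
set_option linter.unusedVariables false

open Function Polynomial
open scoped TensorProduct

noncomputable section

namespace Pool.Agent.CXD

variable {A A' : Type} [CommRing A] [CommRing A']

/-- inverse image from the affine line -/
def pm (c : Val A[X]) : Val A := ⟨fun M _ _ => c.val (A[X] ⊗[A] M)⟩

variable {c : Val A[X]}

theorem isAdd_pm (h : IsAdd c ⊥) : IsAdd (pm c) ⊥ := by
  intro M N P _ _ _ _ _ _ _ f g hf hg he hk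
  refine h _ _ _ (f.baseChange A[X]) (g.baseChange A[X]) ?_ ?_ ?_ kill_bot
  · rw [LinearMap.baseChange_eq_ltensor]
    exact Module.Flat.lTensor_preserves_injective_linearMap f hf
  · rw [LinearMap.baseChange_eq_ltensor]
    exact LinearMap.lTensor_surjective _ hg
  · rw [LinearMap.baseChange_eq_ltensor, LinearMap.baseChange_eq_ltensor]
    exact Module.Flat.lTensor_exact _ he

theorem pm_quot (h : IsAdd c ⊥) (I : Ideal A) :
    (pm c).val (A ⧸ I) = c.val (A[X] ⧸ I.map (C : A →+* A[X])) :=
  h.congr (Algebra.TensorProduct.quotIdealMapEquivTensorQuot A[X] I).symm.toLinearEquiv kill_bot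

theorem pm_lin (s t : ℚ) (c c' : Val A[X]) : pm (Val.lin s t c c') = Val.lin s t (pm c) (pm c') :=
  rfl

theorem pm_eqv {c' : Val A[X]} (h : Eqv c c') : Eqv (pm c) (pm c') := fun M _ _ _ => h _

attribute [local instance] Polynomial.algebra in
theorem mapRingHom_finite {φ : A →+* A'} (hφ : φ.Finite) : (mapRingHom φ).Finite := by
  let : Algebra A A' := φ.toAlgebra
  exact RingHom.finite_isStableUnderBaseChange A A' A[X] A'[X] hφ

attribute [local instance] Polynomial.algebra in
theorem pm_map (h : IsAdd c ⊥) {φ : A →+* A'} (hφ : φ.Finite) :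
    Eqv (pm (push (mapRingHom φ) c)) (push φ (pm c)) := by
  intro M _ _ _
  let : Algebra A A' := φ.toAlgebra
  let : Module A M := Module.compHom M φ
  have : IsScalarTower A A' M := ⟨fun b a y => mul_smul (φ b) a y⟩
  have : Module.Finite A M := finite_compHom φ hφ M
  have h1 := h.congr (Algebra.IsPushout.cancelBaseChange A A[X] A' A'[X] M) kill_bot
  refine Eq.trans ?_ h1
  show @Val.val A[X] _ c (A'[X] ⊗[A'] M) _ (Module.compHom _ (mapRingHom φ)) = _
  congr 1

end Pool.Agent.CXD
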