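import Pool.Agent.P.MP_2ce3e7_ag.CYA
import Pool.Agent.P.MP_2ce3e7_ag.CY0

/-! Additive functions and linear forms on the Grothendieck group. -/

set_option linter.unusedSectionVars false
set_option linter.unusedVariables false

open Function
open scoped TensorProduct

noncomputable section

namespace Pool.Agent.CXD

/-- the rational Grothendieck group -/
abbrev GV (A : Type) [CommRing A] := ℚ ⊗[ℤ] G0 A

variable {A : Type} [CommRing A] [IsNoetherianRing A]

/-- the linear form `lam` belongs to `χ` -/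
def Rep (χ : Val A) (lam : GV A →ₗ[ℚ] ℚ) : Prop := ∀ M : FG A, lam (cls M) = χ.val M.M

/-- restriction of scalars along a finite endomorphism -/
def FG.res (φ : A →+* A) (hφ : φ.Finite) (M : FG A) : FG A :=
  @FG.mk A _ M.M _ (Module.compHom M.M φ) (finite_compHom φ hφ M.M)

theorem isPush_res (φ : A →+* A) (hφ : φ.Finite) (M : FG A) : IsPush φ M (M.res φ hφ) :=
  ⟨AddEquiv.refl _, fun _ _ => rfl⟩

theorem span_cls : Submodule.span ℚ (Set.range (cls : FG A → GV A)) = ⊤ := by
  rw [eq_top_iff]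
  rintro v -
  have h1 : ∀ z : FreeAbelianGroup (FG A),
      ((1 : ℚ) ⊗ₜ[ℤ] (QuotientAddGroup.mk z : G0 A)) ∈
        Submodule.span ℚ (Set.range (cls : FG A → GV A)) := by
    intro z
    induction z using FreeAbelianGroup.induction_on with
    | zero => simp
    | of M => exact Submodule.subset_span ⟨M, rfl⟩
    | neg M hM =>
      rw [QuotientAddGroup.mk_neg, TensorProduct.tmul_neg]
      exact Submodule.neg_mem _ hM
    | add x y hx hy =>
      rw [QuotientAddGroup.mk_add, TensorProduct.tmul_add]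
      exact Submodule.add_mem _ hx hy
  induction v using TensorProduct.induction_on with
  | zero => exact Submodule.zero_mem _
  | tmul c y =>
    obtain ⟨z, rfl⟩ := QuotientAddGroup.mk_surjective y
    have : c ⊗ₜ[ℤ] (QuotientAddGroup.mk z : G0 A) =
        c • ((1 : ℚ) ⊗ₜ[ℤ] (QuotientAddGroup.mk z : G0 A)) := by
      rw [TensorProduct.smul_tmul', smul_eq_mul, mul_one]
    rw [this]
    exact Submodule.smul_mem _ _ (h1 z)
  | add x y hx hy => exact Submodule.add_mem _ hx hy

theorem exists_lin {W : Type*} [AddCommGroup W] [Module ℚ W] (c : FG A → W)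
    (hc : ∀ (M N P : FG A) (f : M.M →ₗ[A] N.M) (g : N.M →ₗ[A] P.M), Injective f → Surjective g →
      Exact f g → c N = c M + c P) : ∃ T : GV A →ₗ[ℚ] W, ∀ M, T (cls M) = c M := by
  have hk : AddSubgroup.closure (ses A) ≤ (FreeAbelianGroup.lift c).ker := by
    rw [AddSubgroup.closure_le]
    rintro z ⟨M, N, P, f, g, hf, hg, he, rfl⟩
    rw [SetLike.mem_coe, AddMonoidHom.mem_ker, map_sub, map_sub, FreeAbelianGroup.lift_apply_of,
      FreeAbelianGroup.lift_apply_of, FreeAbelianGroup.lift_apply_of, hc M N P f g hf hg he]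
    abel
  refine ⟨LinearMap.liftBaseChange ℚ
    (QuotientAddGroup.lift _ (FreeAbelianGroup.lift c) hk).toIntLinearMap, fun M => ?_⟩
  rw [cls, LinearMap.liftBaseChange_tmul, one_smul, AddMonoidHom.coe_toIntLinearMap,
    QuotientAddGroup.lift_mk, FreeAbelianGroup.lift_apply_of]

theorem cls_add (M N P : FG A) (f : M.M →ₗ[A] N.M) (g : N.M →ₗ[A] P.M) (hf : Injective f)
    (hg : Surjective g) (he : Exact f g) : cls N = cls M + cls P := by
  rw [cls, cls, cls, ← TensorProduct.tmul_add, ← QuotientAddGroup.mk_add]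
  congr 1
  rw [eq_comm, QuotientAddGroup.eq]
  refine AddSubgroup.subset_closure ⟨M, N, P, f, g, hf, hg, he, ?_⟩
  abel

theorem exists_rep {χ : Val A} (h : IsAdd χ ⊥) : ∃ lam, Rep χ lam := by
  exact exists_lin (fun M : FG A => χ.val M.M)
    fun M N P f g hf hg he => h M.M N.M P.M f g hf hg he kill_bot

theorem exists_val (lam : GV A →ₗ[ℚ] ℚ) : ∃ χ : Val A, IsAdd χ ⊥ ∧ Rep χ lam := by
  classical
  refine ⟨⟨fun M _ _ => if hM : Module.Finite A M then lam (cls (@FG.mk A _ M _ _ hM)) else 0⟩,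
    ?_, fun M => ?_⟩
  · intro M N P _ _ _ _ _ _ hN f g hf hg he _
    have hM : Module.Finite A M := Module.Finite.of_injective f hf
    have hP : Module.Finite A P := Module.Finite.of_surjective g hg
    simp only
    rw [dif_pos hM, dif_pos hN, dif_pos hP, ← map_add]
    congr 1
    exact cls_add ⟨M⟩ ⟨N⟩ ⟨P⟩ f g hf hg he
  · simp only
    rw [dif_pos M.fin]

theorem exists_T (φ : A →+* A) (hφ : φ.Finite) :
    ∃ T : GV A →ₗ[ℚ] GV A, ∀ M, T (cls M) = cls (M.res φ hφ) := by
  refine exists_lin (fun M : FG A => cls (M.res φ hφ)) fun M N P f g hf hg he => ?_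
  exact cls_add (M.res φ hφ) (N.res φ hφ) (P.res φ hφ)
    { toFun := f, map_add' := f.map_add, map_smul' := fun a y => f.map_smul (φ a) y }
    { toFun := g, map_add' := g.map_add, map_smul' := fun a y => g.map_smul (φ a) y } hf hg he

theorem evP_res (φ : A →+* A) (hφ : φ.Finite) (T : Module.End ℚ (GV A))
    (hT : ∀ M, T (cls M) = cls (M.res φ hφ)) (P : Polynomial ℚ) (M : FG A) :
    evP P (fun a => M.res (φ ^ a) (finite_pow_CXF hφ a)) = Polynomial.aeval T P (cls M) := by
  have hres : ∀ (ψ ψ' : A →+* A) (h : ψ.Finite) (h' : ψ'.Finite), ψ = ψ' →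
      M.res ψ h = M.res ψ' h' := by
    rintro ψ ψ' h h' rfl
    rfl
  have hp : ∀ a : ℕ, (T ^ a) (cls M) = cls (M.res (φ ^ a) (finite_pow_CXF hφ a)) := by
    intro a
    induction a with
    | zero =>
      rw [pow_zero, hres (φ ^ 0) (RingHom.id A) _ (RingHom.Finite.id A) (pow_zero φ)]
      rfl
    | succ a ih =>
      rw [pow_succ', Module.End.mul_apply, ih, hT,
        hres (φ ^ (a + 1)) ((φ ^ a).comp φ) _ (RingHom.Finite.comp (finite_pow_CXF hφ a) hφ)
          (pow_succ φ a)]
      rfl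
  rw [Polynomial.aeval_endomorphism, evP]
  refine Finset.sum_congr rfl fun a _ => ?_
  simp only
  rw [hp]

end Pool.Agent.CXD
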