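import Pool.Agent.P.MP_2ce3e7_ag.CY0

/-! An affine model of the variety of isotropic subspaces of a Hermitian space. -/

namespace Pool.Agent.CXD

open Matrix Polynomial

variable {n : ℕ} {A : Type} [CommRing A]

/-- `e` is a projector of rank `d`, its row space is isotropic for `x G (y ^ q)ᵀ`, and
`(1 - e) m e = 0`. -/
def svEq (G : Matrix (Fin n) (Fin n) A) (q d : ℕ) (e m : Matrix (Fin n) (Fin n) A) : Set A :=
  {x | (∃ a b, x = (e * e - e) a b) ∨
    (∃ j, x = (e.charpoly - X ^ (n - d) * (X - 1) ^ d).coeff j) ∨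
    (∃ a b, x = (e * G * (e.map (· ^ q))ᵀ) a b) ∨ ∃ a b, x = ((1 - e) * m * e) a b}

/-- Two generic matrices. -/
noncomputable def gen (k : Type) [Field k] (n : ℕ) (c : Bool) :
    Matrix (Fin n) (Fin n) (MvPolynomial (Bool × Fin n × Fin n) k) :=
  Matrix.of fun a b => MvPolynomial.X (c, a, b)

/-- The coordinate ring of the affine model. -/
abbrev SV {k : Type} [Field k] (G : Matrix (Fin n) (Fin n) k) (q d : ℕ) : Type :=
  MvPolynomial (Bool × Fin n × Fin n) k ⧸
    Ideal.span (svEq (G.map MvPolynomial.C) q d (gen k n true) (gen k n false))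

end Pool.Agent.CXD
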