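import Pool.Agent.P.MP_2ce3e7_ag.CZS2

/-! The projector that belongs to a frame and a point. -/

set_option linter.unusedSectionVars false
set_option linter.unusedVariables false

open Matrix

noncomputable section

namespace Pool.Agent.CXD

variable {R R' : Type} [CommRing R] [CommRing R'] {n m q i d : ℕ} {σ : Type} [Fintype σ]
  [DecidableEq σ]

/-- the matrix with rows `φ ^ (s + l) x`, `l < i` -/
def rows (q i s : ℕ) (x : Fin m → R) : Matrix (Fin i) (Fin m) R :=
  Matrix.of fun l => fr (q ^ 2) (s + l) x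

/-- a unitriangular Gram matrix -/
def gm (H : Matrix (Fin m) (Fin m) R) (q i : ℕ) (x : Fin m → R) : Matrix (Fin i) (Fin i) R :=
  rows q i 0 x * H * dg q (rows q i i x)

/-- its inverse -/
def gi (H : Matrix (Fin m) (Fin m) R) (q i : ℕ) (x : Fin m → R) : Matrix (Fin i) (Fin i) R :=
  ∑ j ∈ Finset.range i, (1 - gm H q i x) ^ j

/-- `H * cm` is a projector onto the span of the `φ ^ l x`, `l < i` -/
def cm (H : Matrix (Fin m) (Fin m) R) (q i : ℕ) (x : Fin m → R) : Matrix (Fin m) (Fin m) R :=
  dg q (rows q i i x) * gi H q i x * rows q i 0 x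

variable {G : Matrix (Fin n) (Fin n) R}

/-- the projector -/
def Frame.pr (F : Frame G q σ i) (c : Matrix (Fin (2 * i + 1)) (Fin (2 * i + 1)) R) :
    Matrix (Fin n) (Fin n) R := G * dg q F.w' * F.w + G * dg q F.P * c * F.P

/-- a basis of the isotropic subspace -/
def Frame.bs (F : Frame G q σ i) (x : Fin (2 * i + 1) → R) : Matrix (σ ⊕ Fin i) (Fin n) R :=
  fromRows F.w (rows q i 0 x * F.P)

/-- the coordinates of the rows of `e` in the basis `P` -/
def Frame.co (F : Frame G q σ i) (e : Matrix (Fin n) (Fin n) R) :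
    Matrix (Fin n) (Fin (2 * i + 1)) R := e * G * dg q F.P * F.Hi

theorem rows_map_CZB (f : R →+* R') (s : ℕ) (x : Fin m → R) :
    (rows q i s x).map f = rows q i s fun a => f (x a) := by
  ext l a
  exact congrFun (map_fr f (s + l.1) x) a

theorem gi_map_CZB (f : R →+* R') (H : Matrix (Fin m) (Fin m) R) (x : Fin m → R) :
    (gi H q i x).map f = gi (H.map f) q i fun a => f (x a) := by
  have e : (gm H q i x).map f = gm (H.map f) q i fun a => f (x a) := by
    rw [gm, gm, Matrix.map_mul, Matrix.map_mul, dg_map, rows_map_CZB, rows_map_CZB]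
  rw [gi, gi, ← e, ← RingHom.mapMatrix_apply, ← RingHom.mapMatrix_apply, map_sum]
  simp only [map_pow, map_sub, map_one]

theorem cm_map (f : R →+* R') (H : Matrix (Fin m) (Fin m) R) (x : Fin m → R) :
    (cm H q i x).map f = cm (H.map f) q i fun a => f (x a) := by
  rw [cm, cm, Matrix.map_mul, Matrix.map_mul, dg_map, rows_map_CZB, rows_map_CZB, gi_map_CZB]

theorem Frame.pr_map (F : Frame G q σ i) (f : R →+* R')
    (c : Matrix (Fin (2 * i + 1)) (Fin (2 * i + 1)) R) :
    (F.pr c).map f = (F.map f).pr (c.map f) := by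
  rw [Frame.pr, Frame.pr, Matrix.map_add _ (map_add f)]
  simp only [Matrix.map_mul, dg_map]
  rfl

theorem Frame.co_map (F : Frame G q σ i) (f : R →+* R') (e : Matrix (Fin n) (Fin n) R) :
    (F.co e).map f = (F.map f).co (e.map f) := by
  rw [Frame.co, Frame.co]
  simp only [Matrix.map_mul, dg_map]
  rfl

theorem gm_gi {H : Matrix (Fin m) (Fin m) R} (h : Her H q) {x : Fin m → R} (hx : On H q i x) :
    gm H q i x * gi H q i x = 1 := by
  have h1 : ∀ l k : Fin i, k.1 ≤ l.1 → (1 - gm H q i x) l k = 0 := by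
    intro l k hk
    rw [Matrix.sub_apply, gm, gram_apply]
    change _ - bform H q (fr (q ^ 2) (0 + l.1) x) (fr (q ^ 2) (i + k.1) x) = 0
    rcases hk.lt_or_eq with hk | hk
    · rw [h.gram_zero hx.zero (by omega) (by omega), Matrix.one_apply_ne, sub_zero]
      intro e
      rw [e] at hk
      exact lt_irrefl _ hk
    · obtain rfl : k = l := Fin.ext hk
      rw [zero_add, add_comm i, h.gram_one hx, Matrix.one_apply_eq, sub_self]
  have h2 : ∀ (j : ℕ) (l k : Fin i), k.1 < l.1 + j → ((1 - gm H q i x) ^ j) l k = 0 := by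
    intro j
    induction j with
    | zero =>
      intro l k hk
      rw [pow_zero, Matrix.one_apply_ne]
      intro e
      rw [e] at hk
      exact lt_irrefl _ hk
    | succ j ih =>
      intro l k hk
      rw [pow_succ, Matrix.mul_apply]
      refine Finset.sum_eq_zero fun a _ => ?_
      by_cases ha : a.1 < l.1 + j
      · rw [ih l a ha, zero_mul]
      · rw [h1 a k (by omega), mul_zero]
  have h3 : (1 - gm H q i x) ^ i = 0 := by
    ext l k
    exact h2 i l k (by have := k.2; omega)
  have h4 := mul_neg_geom_sum (1 - gm H q i x) i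
  rwa [sub_sub_cancel, h3, sub_zero] at h4

variable (F : Frame G q σ i) {x : Fin (2 * i + 1) → R}

theorem Frame.exists_dual (h : Fb R q) (hx : On F.H q i x) :
    ∃ Y : Matrix (Fin n) (σ ⊕ Fin i) R, F.bs x * Y = 1 ∧ F.pr (cm F.H q i x) = Y * F.bs x := by
  refine ⟨fromCols (G * dg q F.w')
    (G * dg q F.P * dg q (rows q i i x) * gi F.H q i x), ?_, ?_⟩
  · rw [Frame.bs, fromRows_mul_fromCols, ← fromBlocks_one]
    have e1 : F.w * (G * dg q F.w') = 1 := by rw [← Matrix.mul_assoc, F.ww']
    have e2 : F.w * (G * dg q F.P * dg q (rows q i i x) * gi F.H q i x) = 0 := by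
      rw [← Matrix.mul_assoc, ← Matrix.mul_assoc, ← Matrix.mul_assoc, F.wP, Matrix.zero_mul,
        Matrix.zero_mul]
    have e3 : rows q i 0 x * F.P * (G * dg q F.w') = 0 := by
      rw [Matrix.mul_assoc, ← Matrix.mul_assoc F.P, F.Pw', Matrix.mul_zero]
    have e4 : rows q i 0 x * F.P * (G * dg q F.P * dg q (rows q i i x) * gi F.H q i x) = 1 := by
      rw [← gm_gi (F.her h) hx, gm, ← F.PP]
      simp only [Matrix.mul_assoc]
    rw [e1, e2, e3, e4]
  · rw [Frame.bs, fromCols_mul_fromRows, Frame.pr, cm]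
    simp only [Matrix.mul_assoc]

theorem Frame.bs_iso (h : Fb R q) (hx : On F.H q i x) : F.bs x * G * dg q (F.bs x) = 0 := by
  have e0 : dg q (F.bs x) = fromCols (dg q F.w) (dg q F.P * dg q (rows q i 0 x)) := by
    rw [← h.dg_mul]
    ext a (b | b) <;> rfl
  rw [e0, Frame.bs, fromRows_mul, fromRows_mul_fromCols, ← fromBlocks_zero]
  have e2 : F.w * G * (dg q F.P * dg q (rows q i 0 x)) = 0 := by
    rw [← Matrix.mul_assoc, F.wP, Matrix.zero_mul]
  have e3 : rows q i 0 x * F.P * G * dg q F.w = 0 := by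
    rw [Matrix.mul_assoc, Matrix.mul_assoc, ← Matrix.mul_assoc F.P, F.Pw, Matrix.mul_zero]
  have e4 : rows q i 0 x * F.P * G * (dg q F.P * dg q (rows q i 0 x)) = 0 := by
    have e5 : rows q i 0 x * F.P * G * (dg q F.P * dg q (rows q i 0 x)) =
        rows q i 0 x * F.H * dg q (rows q i 0 x) := by
      rw [← F.PP]
      simp only [Matrix.mul_assoc]
    rw [e5]
    ext l k
    rw [gram_apply]
    exact (F.her h).gram_zero hx.zero (l := 0 + l.1) (m := 0 + k.1) (by have := l.2; omega)
      (by have := k.2; omega)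
  rw [F.ww, e2, e3, e4]

end Pool.Agent.CXD
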