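import Pool.Agent.P.MP_2ce3e7_ag.CZB

/-! Properties of the projector. -/

set_option linter.unusedSectionVars false
set_option linter.unusedVariables false

open Matrix

noncomputable section

namespace Pool.Agent.CXD

variable {R : Type} [CommRing R] {n q i d : ℕ} {σ : Type} [Fintype σ] [DecidableEq σ]
  {G : Matrix (Fin n) (Fin n) R} (F : Frame G q σ i) {x : Fin (2 * i + 1) → R}

theorem Frame.bs_pr_CZB2 (h : Fb R q) (hx : On F.H q i x) :
    F.bs x * F.pr (cm F.H q i x) = F.bs x := by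
  obtain ⟨Y, h1, h2⟩ := F.exists_dual h hx
  rw [h2, ← Matrix.mul_assoc, h1, Matrix.one_mul]

theorem Frame.pr_idem_CZB2 (h : Fb R q) (hx : On F.H q i x) :
    F.pr (cm F.H q i x) * F.pr (cm F.H q i x) = F.pr (cm F.H q i x) := by
  obtain ⟨Y, h1, h2⟩ := F.exists_dual h hx
  have h3 := F.bs_pr_CZB2 h hx
  calc F.pr (cm F.H q i x) * F.pr (cm F.H q i x) = Y * F.bs x * F.pr (cm F.H q i x) := by
        rw [← h2]
    _ = Y * F.bs x := by rw [Matrix.mul_assoc, h3]
    _ = F.pr (cm F.H q i x) := h2.symm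

theorem Frame.factor_CZB2 (h : Fb R q) (hx : On F.H q i x) (N : Matrix (Fin n) (Fin n) R) :
    ∃ Y : Matrix (Fin n) (σ ⊕ Fin i) R,
      F.bs x * Y = 1 ∧ eM (F.pr (cm F.H q i x)) N = Y * F.bs x := by
  obtain ⟨Y, h1, h2⟩ := F.exists_dual h hx
  have h3 := F.bs_pr_CZB2 h hx
  refine ⟨(1 + (1 - F.pr (cm F.H q i x)) * N) * Y, ?_, ?_⟩
  · have h4 : F.bs x * (1 - F.pr (cm F.H q i x)) = 0 := by
      rw [Matrix.mul_sub, Matrix.mul_one, h3, sub_self]
    rw [← Matrix.mul_assoc, Matrix.mul_add, Matrix.mul_one, ← Matrix.mul_assoc, h4,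
      Matrix.zero_mul, add_zero, h1]
  · rw [eM_eq (F.pr_idem_CZB2 h hx), Matrix.mul_assoc, ← h2]

theorem Frame.sv (h : Fb R q) (hx : On F.H q i x) (hd : Fintype.card σ + i = d) (hn : d ≤ n)
    (N : Matrix (Fin n) (Fin n) R) :
    Sv G q d (eM (F.pr (cm F.H q i x)) N) (mM (F.pr (cm F.H q i x)) N) := by
  obtain ⟨Y, h1, h2⟩ := F.factor_CZB2 h hx N
  refine ⟨eM_idem (F.pr_idem_CZB2 h hx), ?_, ?_, eM_cut (F.pr_idem_CZB2 h hx)⟩
  · rw [h2]
    refine charpoly_of_factor Y (F.bs x) h1 ?_ hn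
    rw [Fintype.card_sum, Fintype.card_fin, hd]
  · have h3 := F.bs_iso h hx
    rw [h2, h.dg_mul]
    calc Y * F.bs x * G * (dg q (F.bs x) * dg q Y)
        = Y * (F.bs x * G * dg q (F.bs x)) * dg q Y := by simp only [Matrix.mul_assoc]
      _ = 0 := by rw [h3, Matrix.mul_zero, Matrix.zero_mul]

theorem Frame.pr_idem (h : Fb R q) (hx : On F.H q i x) :
    F.pr (cm F.H q i x) * F.pr (cm F.H q i x) = F.pr (cm F.H q i x) :=
  F.pr_idem_CZB2 h hx

theorem Frame.w_pr_CZB2 (c : Matrix (Fin (2 * i + 1)) (Fin (2 * i + 1)) R) :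
    F.w * F.pr c = F.w := by
  unfold Frame.pr
  calc F.w * (G * dg q F.w' * F.w + G * dg q F.P * c * F.P)
      = (F.w * G * dg q F.w') * F.w + (F.w * G * dg q F.P) * c * F.P := by
        simp only [Matrix.mul_add, Matrix.mul_assoc]
    _ = F.w := by rw [F.ww', F.wP, Matrix.one_mul, Matrix.zero_mul, Matrix.zero_mul, add_zero]

theorem Frame.w_eM (h : Fb R q) (hx : On F.H q i x) (N : Matrix (Fin n) (Fin n) R) :
    F.w * eM (F.pr (cm F.H q i x)) N = F.w := by
  have h1 := F.w_pr_CZB2 (cm F.H q i x)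
  calc F.w * eM (F.pr (cm F.H q i x)) N
      = F.w * F.pr (cm F.H q i x) * eM (F.pr (cm F.H q i x)) N := by rw [h1]
    _ = F.w := by rw [Matrix.mul_assoc, mul_eM (F.pr_idem h hx), h1]

theorem Frame.co_eM (h : Fb R q) (hx : On F.H q i x) (N : Matrix (Fin n) (Fin n) R) :
    ∃ C : Matrix (Fin n) (Fin i) R, F.co (eM (F.pr (cm F.H q i x)) N) = C * rows q i 0 x := by
  obtain ⟨Y, h1, h2⟩ := F.factor_CZB2 h hx N
  refine ⟨Y.toCols₂, ?_⟩
  have h3 : F.bs x * G * dg q F.P * F.Hi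
      = fromRows (0 : Matrix σ (Fin (2 * i + 1)) R) (rows q i 0 x) := by
    unfold Frame.bs
    rw [fromRows_mul, fromRows_mul, fromRows_mul, F.wP, Matrix.zero_mul]
    congr 1
    calc rows q i 0 x * F.P * G * dg q F.P * F.Hi
        = rows q i 0 x * ((F.P * G * dg q F.P) * F.Hi) := by simp only [Matrix.mul_assoc]
      _ = rows q i 0 x := by rw [F.PP, F.inv, Matrix.mul_one]
  unfold Frame.co
  rw [h2]
  calc Y * F.bs x * G * dg q F.P * F.Hi = Y * (F.bs x * G * dg q F.P * F.Hi) := by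
        simp only [Matrix.mul_assoc]
    _ = fromCols Y.toCols₁ Y.toCols₂ *
          fromRows (0 : Matrix σ (Fin (2 * i + 1)) R) (rows q i 0 x) := by
        rw [h3, fromCols_toCols]
    _ = Y.toCols₂ * rows q i 0 x := by
        rw [fromCols_mul_fromRows, Matrix.mul_zero, zero_add]

variable {e m' : Matrix (Fin n) (Fin n) R}

theorem Frame.e_eq (h : Fb R q) (he : Sv G q d e m') (hw : F.w * e = F.w) :
    e = e * G * dg q F.w' * F.w + F.co e * F.P := by
  have h1 : e * G * dg q F.w = 0 := by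
    calc e * G * dg q F.w = e * G * dg q (F.w * e) := by rw [hw]
      _ = (e * G * dg q e) * dg q F.w := by rw [h.dg_mul]; simp only [Matrix.mul_assoc]
      _ = 0 := by rw [he.iso, Matrix.zero_mul]
  unfold Frame.co
  calc e = e * (G * dg q F.w' * F.w + G * dg q F.P * F.Hi * F.P + G * dg q F.w * F.z) := by
        rw [F.dec, Matrix.mul_one]
    _ = e * G * dg q F.w' * F.w + e * G * dg q F.P * F.Hi * F.P + (e * G * dg q F.w) * F.z := by
        simp only [Matrix.mul_add, Matrix.mul_assoc]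
    _ = _ := by rw [h1, Matrix.zero_mul, add_zero]

theorem Frame.co_fix (h : Fb R q) (he : Sv G q d e m') (hw : F.w * e = F.w) :
    F.co e * F.P * e = F.co e * F.P := by
  have h1 : F.co e * F.P = e - e * G * dg q F.w' * F.w :=
    eq_sub_of_add_eq' (F.e_eq h he hw).symm
  rw [h1, Matrix.sub_mul, he.idem, Matrix.mul_assoc _ F.w e, hw]

theorem Frame.co_iso (h : Fb R q) (he : Sv G q d e m') (hw : F.w * e = F.w) :
    F.co e * F.H * dg q (F.co e) = 0 := by
  have h1 := F.co_fix h he hw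
  calc F.co e * F.H * dg q (F.co e) = (F.co e * F.P) * G * dg q (F.co e * F.P) := by
        rw [h.dg_mul, ← F.PP]; simp only [Matrix.mul_assoc]
    _ = (F.co e * F.P * e) * G * dg q (F.co e * F.P * e) := by rw [h1]
    _ = (F.co e * F.P) * (e * G * dg q e) * dg q (F.co e * F.P) := by
        rw [h.dg_mul (F.co e * F.P) e]; simp only [Matrix.mul_assoc]
    _ = 0 := by rw [he.iso, Matrix.mul_zero, Matrix.zero_mul]

theorem Frame.same (h : Fb R q) (he : Sv G q d e m') (hw : F.w * e = F.w) (hx : On F.H q i x)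
    {C : Matrix (Fin n) (Fin i) R} (h1 : F.co e = C * rows q i 0 x)
    {C' : Matrix (Fin i) (Fin n) R} (h2 : rows q i 0 x = C' * F.co e) :
    e * F.pr (cm F.H q i x) = e ∧ F.pr (cm F.H q i x) * e = F.pr (cm F.H q i x) := by
  constructor
  · have h3 : e = fromCols (e * G * dg q F.w') C * F.bs x := by
      unfold Frame.bs
      rw [fromCols_mul_fromRows, ← Matrix.mul_assoc, ← h1]
      exact F.e_eq h he hw
    calc e * F.pr (cm F.H q i x)
        = fromCols (e * G * dg q F.w') C * F.bs x * F.pr (cm F.H q i x) := by rw [← h3]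
      _ = fromCols (e * G * dg q F.w') C * F.bs x := by
          rw [Matrix.mul_assoc, F.bs_pr_CZB2 h hx]
      _ = e := h3.symm
  · obtain ⟨Y, h3, h4⟩ := F.exists_dual h hx
    have h5 : F.bs x * e = F.bs x := by
      unfold Frame.bs
      rw [fromRows_mul, hw, h2, Matrix.mul_assoc C', Matrix.mul_assoc C', F.co_fix h he hw]
    rw [h4, Matrix.mul_assoc, h5]

end Pool.Agent.CXD
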