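import Pool.Agent.P.MP_2ce3e7_ag.CZA

/-! Construction of frames. -/

set_option linter.unusedSectionVars false
set_option linter.unusedVariables false

open Matrix

noncomputable section

namespace Pool.Agent.CXD

variable {k : Type} [Field k] [Fintype k] {n q i : ℕ} {σ τ : Type} [Fintype σ] [DecidableEq σ]
  [Fintype τ] [DecidableEq τ]

theorem exists_base {G : Matrix (Fin (2 * i + 1)) (Fin (2 * i + 1)) k} (h : Her G q) :
    Nonempty (Frame G q Empty i) := by
  refine ⟨{ w := 0, w' := 0, z := 0, P := 1, H := G, Hi := G⁻¹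
            ww := Matrix.ext fun a => a.elim
            wP := Matrix.ext fun a => a.elim
            Pw := Matrix.ext fun _ a => a.elim
            ww' := Matrix.ext fun a => a.elim
            Pw' := Matrix.ext fun _ a => a.elim
            PP := by rw [h.fb.dg_one, Matrix.one_mul, Matrix.mul_one]
            inv := Matrix.mul_nonsing_inv G h.det
            herm := h.herm
            dec := ?_ }⟩
  rw [h.fb.dg_one, Matrix.mul_zero, Matrix.mul_one, Matrix.mul_one, zero_add, add_zero,
    Matrix.mul_nonsing_inv G h.det]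

theorem dg_rows_CZF {α β γ : Type} (A : Matrix α γ k) (B : Matrix β γ k) :
    dg q (fromRows A B) = fromCols (dg q A) (dg q B) := by
  ext a (b | b) <;> rfl

theorem left_CZF {α β : Type} {m : ℕ} (G : Matrix (Fin n) (Fin n) k) (A : Matrix α (Fin m) k)
    (P : Matrix (Fin m) (Fin n) k) (X : Matrix β (Fin n) k) :
    A * P * G * dg q X = A * (P * G * dg q X) := by
  simp only [Matrix.mul_assoc]

theorem right_CZF {α β : Type} {m : ℕ} (h : Fb k q) (G : Matrix (Fin n) (Fin n) k)
    (A : Matrix α (Fin m) k) (P : Matrix (Fin m) (Fin n) k) (X : Matrix β (Fin n) k) :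
    X * G * dg q (A * P) = X * G * dg q P * dg q A := by
  simp only [h.dg_mul, Matrix.mul_assoc]

theorem both_CZF {α β : Type} {G : Matrix (Fin n) (Fin n) k} (h : Fb k q) (F : Frame G q σ i)
    (A : Matrix α (Fin (2 * i + 1)) k) (B : Matrix β (Fin (2 * i + 1)) k) :
    A * F.P * G * dg q (B * F.P) = A * F.H * dg q B := by
  rw [right_CZF h, left_CZF, F.PP]

theorem exists_comp {G : Matrix (Fin n) (Fin n) k} (h : Fb k q) (F : Frame G q σ i) {j : ℕ}
    (F₁ : Frame F.H q τ j) : ∃ F' : Frame G q (σ ⊕ τ) j, F'.w = fromRows F.w (F₁.w * F.P) := by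
  have hb : dg q F₁.w' * F₁.w + dg q F₁.P * F₁.Hi * F₁.P + dg q F₁.w * F₁.z = F.Hi := by
    have h1 : F.Hi * F.H = 1 := mul_eq_one_comm.1 F.inv
    have h2 := congrArg (F.Hi * ·) F₁.dec
    simp only [Matrix.mul_add, ← Matrix.mul_assoc, h1, Matrix.one_mul, Matrix.mul_one] at h2
    exact h2
  refine ⟨{ w := fromRows F.w (F₁.w * F.P), w' := fromRows F.w' (F₁.w' * F.P)
            z := fromRows F.z (F₁.z * F.P), P := F₁.P * F.P, H := F₁.H, Hi := F₁.Hi
            ww := ?_, wP := ?_, Pw := ?_, ww' := ?_, Pw' := ?_, PP := ?_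
            inv := F₁.inv, herm := F₁.herm, dec := ?_ }, rfl⟩
  · rw [dg_rows_CZF, fromRows_mul, fromRows_mul_fromCols, both_CZF h, right_CZF h, left_CZF, F.ww,
      F.wP, F.Pw, F₁.ww, Matrix.zero_mul, Matrix.mul_zero, fromBlocks_zero]
  · rw [fromRows_mul, fromRows_mul, both_CZF h, right_CZF h, F.wP, F₁.wP, Matrix.zero_mul,
      fromRows_zero]
  · rw [dg_rows_CZF, mul_fromCols, both_CZF h, left_CZF, F.Pw, F₁.Pw, Matrix.mul_zero,
      fromCols_zero]
  · rw [dg_rows_CZF, fromRows_mul, fromRows_mul_fromCols, both_CZF h, right_CZF h, left_CZF, F.ww',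
      F.wP, F.Pw', F₁.ww', Matrix.zero_mul, Matrix.mul_zero, fromBlocks_one]
  · rw [dg_rows_CZF, mul_fromCols, both_CZF h, left_CZF, F.Pw', F₁.Pw', Matrix.mul_zero,
      fromCols_zero]
  · rw [both_CZF h, F₁.PP]
  · rw [← F.dec, ← hb, dg_rows_CZF, dg_rows_CZF, mul_fromCols, mul_fromCols, fromCols_mul_fromRows,
      fromCols_mul_fromRows]
    simp only [h.dg_mul, Matrix.mul_add, Matrix.add_mul, Matrix.mul_assoc]
    abel

end Pool.Agent.CXD
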