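import Pool.Agent.P.MP_2ce3e7_ag.CZB
import Pool.Agent.P.MP_2ce3e7_ag.CZG2

/-! Recovering the point from the subspace. -/

set_option linter.unusedSectionVars false
set_option linter.unusedVariables false

open Matrix

noncomputable section

namespace Pool.Agent.CXD

variable {R R' : Type} [CommRing R] [CommRing R'] {n q i : ℕ}

/-- the rows of `c` and their images under `φ ^ i` -/
def stack (q : ℕ) (c : Matrix (Fin n) (Fin (2 * i + 1)) R) : Fin n ⊕ Fin n → Fin (2 * i + 1) → R :=
  Sum.elim c fun a => fr (q ^ 2) i (c a)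

/-- chosen rows, and a last row `u` -/
def pick (q : ℕ) (c : Matrix (Fin n) (Fin (2 * i + 1)) R) (ch : Fin (2 * i) → Fin n ⊕ Fin n)
    (u : Fin (2 * i + 1) → R) : Matrix (Fin (2 * i + 1)) (Fin (2 * i + 1)) R :=
  Matrix.of (Fin.snoc (α := fun _ => Fin (2 * i + 1) → R) (fun j => stack q c (ch j)) u)

/-- a vector orthogonal to the chosen rows -/
def yv (H : Matrix (Fin (2 * i + 1)) (Fin (2 * i + 1)) R) (q : ℕ)
    (c : Matrix (Fin n) (Fin (2 * i + 1)) R) (ch : Fin (2 * i) → Fin n ⊕ Fin n) :
    Fin (2 * i + 1) → R := fun a =>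
  (((pick q c ch 0).map (· ^ q) * Hᵀ).updateRow (Fin.last _) (Pi.single a 1)).det

/-- a function that does not vanish on a part of the stratum -/
def fv (H : Matrix (Fin (2 * i + 1)) (Fin (2 * i + 1)) R) (q : ℕ)
    (c : Matrix (Fin n) (Fin (2 * i + 1)) R) (ch : Fin (2 * i) → Fin n ⊕ Fin n) : R :=
  bform H q (yv H q c ch) (fr (q ^ 2) i (yv H q c ch))

variable {H : Matrix (Fin (2 * i + 1)) (Fin (2 * i + 1)) R} {c : Matrix (Fin n) (Fin (2 * i + 1)) R}
  {ch : Fin (2 * i) → Fin n ⊕ Fin n} {x : Fin (2 * i + 1) → R}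

theorem upd_CZY (u u' r : Fin (2 * i + 1) → R) :
    ((pick q c ch u).map (· ^ q) * Hᵀ).updateRow (Fin.last _) r =
      ((pick q c ch u').map (· ^ q) * Hᵀ).updateRow (Fin.last _) r := by
  ext j b
  refine Fin.lastCases ?_ (fun j => ?_) j
  · simp only [updateRow_self]
  · rw [updateRow_ne (Fin.castSucc_ne_last j), updateRow_ne (Fin.castSucc_ne_last j)]
    simp only [pick, Matrix.mul_apply, Matrix.map_apply, Matrix.of_apply, Fin.snoc_castSucc]

theorem mulVec_CZY (M : Matrix (Fin (2 * i + 1)) (Fin (2 * i + 1)) R) (y : Fin (2 * i + 1) → R)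
    (j : Fin (2 * i + 1)) : ((M.map (· ^ q) * Hᵀ) *ᵥ y) j = bform H q y (M j) := by
  simp only [bform, Matrix.mulVec, dotProduct, Matrix.mul_apply, Matrix.map_apply,
    Matrix.transpose_apply, Finset.sum_mul]
  exact Finset.sum_congr rfl fun a _ => Finset.sum_congr rfl fun b _ => by ring

theorem row_CZY {α β γ : Type} [Fintype β] (A : Matrix α β R) (B : Matrix β γ R) (a : α) :
    (A * B) a = ∑ l, A a l • B l := by
  funext b
  simp [Matrix.mul_apply, Finset.sum_apply]

theorem map_yv (f : R →+* R') (a : Fin (2 * i + 1)) :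
    f (yv H q c ch a) = yv (H.map f) q (c.map f) ch a := by
  unfold yv
  rw [RingHom.map_det]
  congr 1
  ext j b
  refine Fin.lastCases ?_ (fun j => ?_) j
  · simp only [RingHom.mapMatrix_apply, Matrix.map_apply, updateRow_self, Pi.single_apply]
    split_ifs <;> simp
  · simp only [RingHom.mapMatrix_apply, Matrix.map_apply, updateRow_ne (Fin.castSucc_ne_last j),
      pick, Matrix.mul_apply, Matrix.of_apply, Fin.snoc_castSucc, Matrix.transpose_apply, map_sum,
      map_mul, map_pow]
    refine Finset.sum_congr rfl fun e _ => ?_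
    congr 2
    rcases ch j with a | a
    · rfl
    · simp [stack, fr]

theorem map_fv (f : R →+* R') : f (fv H q c ch) = fv (H.map f) q (c.map f) ch := by
  unfold fv
  rw [map_bform, map_fr]
  have e : (fun a => f (yv H q c ch a)) = yv (H.map f) q (c.map f) ch := funext (map_yv f)
  rw [e]

theorem yv_eq (h : Her H q) (hx : On H q i x) {C : Matrix (Fin n) (Fin i) R}
    (hc : c = C * rows q i 0 x) : yv H q c ch =
      ((pick q c ch (fr (q ^ 2) (2 * i) x)).map (· ^ q) * Hᵀ).det • fr (q ^ 2) i x := by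
  set W := (pick q c ch (fr (q ^ 2) (2 * i) x)).map (· ^ q) * Hᵀ with hW
  have hc' : ∀ a, c a = ∑ l : Fin i, C a l • fr (q ^ 2) l x := fun a => by
    rw [hc, row_CZY]
    refine Finset.sum_congr rfl fun l _ => ?_
    congr 1
    funext b
    simp [rows]
  have h1 : W *ᵥ fr (q ^ 2) i x = Pi.single (Fin.last _) 1 := by
    funext j
    rw [hW, mulVec_CZY]
    refine Fin.lastCases ?_ (fun j => ?_) j
    · have e : pick q c ch (fr (q ^ 2) (2 * i) x) (Fin.last _) = fr (q ^ 2) (i + i) x := by
        funext b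
        simp only [pick, Matrix.of_apply, Fin.snoc_last, two_mul]
      rw [e, h.gram_one hx, Pi.single_eq_same]
    · have e : pick q c ch (fr (q ^ 2) (2 * i) x) j.castSucc = stack q c (ch j) := by
        funext b
        simp only [pick, Matrix.of_apply, Fin.snoc_castSucc]
      rw [e, Pi.single_eq_of_ne (Fin.castSucc_ne_last j)]
      rcases ch j with a | a
      · show bform H q _ (c a) = 0
        rw [hc', h.fb.bform_sum]
        refine Finset.sum_eq_zero fun l _ => ?_
        rw [h.gram_zero hx.zero (by omega) (by omega), mul_zero]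
      · show bform H q _ (fr (q ^ 2) i (c a)) = 0
        rw [hc', h.fb.fr_sum, h.fb.bform_sum]
        refine Finset.sum_eq_zero fun l _ => ?_
        rw [fr_fr, h.gram_zero hx.zero (by omega) (by omega), mul_zero]
  have h2 : W.adjugate *ᵥ (W *ᵥ fr (q ^ 2) i x) = W.det • fr (q ^ 2) i x := by
    rw [Matrix.mulVec_mulVec, adjugate_mul, Matrix.smul_mulVec, Matrix.one_mulVec]
  rw [← h2, h1, Matrix.mulVec_single_one]
  funext a
  rw [Matrix.col_apply, adjugate_apply, hW, upd_CZY _ 0]
  rfl

theorem fv_eq (h : Her H q) (hx : On H q i x) {lam : R} (hy : yv H q c ch = lam • fr (q ^ 2) i x) :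
    fv H q c ch = lam ^ (1 + q * (q ^ 2) ^ i) := by
  unfold fv
  rw [hy, bform_smul_fr, fr_fr, h.gram_one hx, mul_one]

theorem exists_pick {L ι : Type} [Field L] {s : ℕ} (v : ι → Fin (s + 1) → L) {u : Fin (s + 1) → L}
    (hu : u ≠ 0) (h : Submodule.span L (insert u (Set.range v)) = ⊤) :
    ∃ ch : Fin s → ι,
      LinearIndependent L (Fin.snoc (α := fun _ => Fin (s + 1) → L) (fun j => v (ch j)) u) := by
  classical
  have h0 : LinearIndepOn L id ({u} : Set (Fin (s + 1) → L)) := LinearIndepOn.singleton (v := id) hu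
  obtain ⟨b, hb1, hb2, hb3, hb4⟩ := exists_linearIndepOn_id_extension h0
    (Set.singleton_subset_iff.2 (Set.mem_insert u (Set.range v)))
  have hfin : b.Finite := LinearIndependent.setFinite hb4
  have hsp : Submodule.span L b = ⊤ := by
    rw [eq_top_iff, ← h]
    exact Submodule.span_le.2 hb3
  have hub : u ∈ b := hb2 rfl
  have := hfin.fintype
  have hcard : b.toFinset.card = s + 1 := by
    have e := finrank_span_set_eq_card hb4
    rw [hsp, finrank_top, Module.finrank_fin_fun] at e
    exact e.symm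
  have hc : (b.toFinset.erase u).card = s := by
    rw [Finset.card_erase_of_mem (Set.mem_toFinset.2 hub), hcard]
    rfl
  let e := (Finset.equivFinOfCardEq hc).symm
  have he : ∀ j, (e j).1 ≠ u ∧ (e j).1 ∈ b := fun j => by
    have := Finset.mem_erase.1 (e j).2
    exact ⟨this.1, Set.mem_toFinset.1 this.2⟩
  have hv : ∀ j, ∃ a, v a = (e j).1 := fun j => ((hb1 (he j).2).resolve_left (he j).1)
  choose ch hch using hv
  refine ⟨ch, ?_⟩
  let g : Fin (s + 1) → b := Fin.snoc (α := fun _ => b) (fun j => ⟨(e j).1, (he j).2⟩) ⟨u, hub⟩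
  have hg : Function.Injective g := by
    refine Fin.snoc_injective_of_injective (fun j j' hj => ?_) ?_
    · exact e.injective (Subtype.ext (congrArg (fun z : b => z.1) hj))
    · rintro ⟨j, hj⟩
      exact (he j).1 (congrArg (fun z : b => z.1) hj)
  have key := LinearIndependent.comp hb4 g hg
  have e2 : (Fin.snoc (α := fun _ => Fin (s + 1) → L) (fun j => v (ch j)) u) =
      (fun z : b => id z.1) ∘ g := by
    funext j
    refine Fin.lastCases ?_ (fun j => ?_) j
    · simp [g]
    · simp [g, hch]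
  rw [e2]
  exact key

theorem exists_fv_ne {L : Type} [Field L] {H : Matrix (Fin (2 * i + 1)) (Fin (2 * i + 1)) L}
    {c : Matrix (Fin n) (Fin (2 * i + 1)) L} {x : Fin (2 * i + 1) → L} (h : Her H q)
    (hx : On H q i x) {C : Matrix (Fin n) (Fin i) L} (h1 : c = C * rows q i 0 x)
    {C' : Matrix (Fin i) (Fin n) L} (h2 : rows q i 0 x = C' * c) : ∃ ch, fv H q c ch ≠ 0 := by
  obtain ⟨F, hF⟩ := h.fb
  have hu : fr (q ^ 2) (2 * i) x ≠ 0 := fun h0 => by
    have e := h.gram_one hx i
    rw [← two_mul, h0] at e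
    simp [bform, ← hF] at e
  have hx' : ∀ l : Fin i, fr (q ^ 2) l x = ∑ a, C' l a • c a := fun l => by
    rw [← row_CZY, ← h2]
    funext b
    simp [rows]
  have hsp : Submodule.span L (insert (fr (q ^ 2) (2 * i) x) (Set.range (stack q c))) = ⊤ := by
    rw [eq_top_iff, ← On.span_top h hx, Submodule.span_le]
    rintro _ ⟨l, rfl⟩
    by_cases a1 : (l : ℕ) < i
    · have e := hx' ⟨l, a1⟩
      show fr (q ^ 2) l x ∈ Submodule.span L _
      rw [e]
      exact Submodule.sum_mem _ fun a _ => Submodule.smul_mem _ _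
        (Submodule.subset_span (Or.inr ⟨Sum.inl a, rfl⟩))
    · by_cases a2 : (l : ℕ) < 2 * i
      · have e := congrArg (fr (q ^ 2) i) (hx' ⟨l - i, by omega⟩)
        rw [fr_fr, h.fb.fr_sum] at e
        have e' : (l : ℕ) = l - i + i := by omega
        show fr (q ^ 2) l x ∈ Submodule.span L _
        rw [e', e]
        exact Submodule.sum_mem _ fun a _ => Submodule.smul_mem _ _
          (Submodule.subset_span (Or.inr ⟨Sum.inr a, rfl⟩))
      · have e' : (l : ℕ) = 2 * i := by omega
        show fr (q ^ 2) l x ∈ Submodule.span L _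
        rw [e']
        exact Submodule.subset_span (Or.inl rfl)
  obtain ⟨ch, hch⟩ := exists_pick (stack q c) hu hsp
  refine ⟨ch, ?_⟩
  rw [fv_eq h hx (yv_eq h hx h1)]
  refine pow_ne_zero _ ?_
  have hM : IsUnit (pick q c ch (fr (q ^ 2) (2 * i) x)) :=
    Matrix.linearIndependent_rows_iff_isUnit.1 hch
  have e : (fun t : L => t ^ q) = F := funext fun t => (hF t).symm
  rw [e, Matrix.det_mul, Matrix.det_transpose]
  refine mul_ne_zero ?_ h.det.ne_zero
  have e2 := RingHom.map_det F (pick q c ch (fr (q ^ 2) (2 * i) x))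
  rw [RingHom.mapMatrix_apply] at e2
  rw [← e2]
  exact (((Matrix.isUnit_iff_isUnit_det _).1 hM).map F).ne_zero

end Pool.Agent.CXD
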