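import Pool.Agent.P.MP_2ce3e7_ag.CZW
import Pool.Agent.P.MP_2ce3e7_ag.CZY
import Pool.Agent.P.MP_2ce3e7_ag.CZF
import Pool.Agent.P.MP_2ce3e7_ag.CZF2
import Pool.Agent.P.MP_2ce3e7_ag.CZB2
import Pool.Agent.P.MP_2ce3e7_ag.CXE
import Pool.Agent.P.MP_2ce3e7_ag.CYB

/-! The parametrisation of a stratum. -/

set_option linter.unusedSectionVars false
set_option linter.unusedVariables false

open Matrix

noncomputable section

namespace Pool.Agent.CXD

variable {k : Type} [Field k] [Fintype k] {n q i d : ℕ} {σ : Type} [Fintype σ] [DecidableEq σ]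
  {G : Matrix (Fin n) (Fin n) k} (F : Frame G q σ i)

/-- the coordinate ring of the parameter space -/
abbrev Frame.Par : Type := MvPolynomial (Fin n × Fin n) (Cox F.H q (q ^ 2) i)

/-- the same over the cover -/
abbrev Frame.ParD : Type := MvPolynomial (Fin n × Fin n) (Dv F.H q i)

/-- the inclusion -/
def Frame.up : F.Par →+* F.ParD := MvPolynomial.map (Cox F.H q (q ^ 2) i).val.toRingHom

/-- the universal point -/
def Frame.xP : Fin (2 * i + 1) → F.ParD := fun a => MvPolynomial.C (xD F.H q i a)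

/-- the generic matrix -/
def gN (n : ℕ) (A : Type) [CommRing A] : Matrix (Fin n) (Fin n) (MvPolynomial (Fin n × Fin n) A) :=
  Matrix.of fun a b => MvPolynomial.X (a, b)

/-- the section over the parameter space -/
def Frame.e0 (c : Matrix (Fin (2 * i + 1)) (Fin (2 * i + 1)) (Cox F.H q (q ^ 2) i)) :
    Matrix (Fin n) (Fin n) F.Par := (F.map (algebraMap k F.Par)).pr (c.map MvPolynomial.C)

/-- the data of the parametrisation -/
structure Frame.Str (d : ℕ) (c : Matrix (Fin (2 * i + 1)) (Fin (2 * i + 1)) (Cox F.H q (q ^ 2) i))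
    (ψ : SV G q d →ₐ[k] F.Par) : Prop where
  hc : c.map (Cox F.H q (q ^ 2) i).val =
    cm (F.H.map (algebraMap k (Dv F.H q i))) q i (xD F.H q i)
  he : (eS q d G).map ψ = eM (F.e0 c) (gN n _)
  hm : (mS q d G).map ψ = mM (F.e0 c) (gN n _)

/-- the functions that define the boundary -/
def Frame.bd (d : ℕ) : Set (SV G q d) :=
  Set.range (fv (F.H.map (algebraMap k (SV G q d))) q
    ((F.map (algebraMap k (SV G q d))).co (eS q d G)))

/-- the subspace contains the rows of `w` -/
def Frame.In {d : ℕ} (p : Ideal (SV G q d)) : Prop :=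
  ∀ a b, (F.w.map (algebraMap k (SV G q d)) * eS q d G - F.w.map (algebraMap k (SV G q d))) a b ∈ p

theorem Frame.up_inj : Function.Injective F.up :=
  MvPolynomial.map_injective _ Subtype.val_injective

theorem Frame.up_alg : F.up.comp (algebraMap k F.Par) = algebraMap k F.ParD := by
  ext1 t
  rw [RingHom.comp_apply, MvPolynomial.algebraMap_apply, MvPolynomial.algebraMap_apply, Frame.up,
    MvPolynomial.map_C]
  rfl

section Gen

variable {B C : Type} [CommRing B] [CommRing C] [Algebra k B] [Algebra k C] {g : B →+* C}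

theorem mm_CZC {α β : Type} (e : g.comp (algebraMap k B) = algebraMap k C) (M : Matrix α β k) :
    (M.map (algebraMap k B)).map g = M.map (algebraMap k C) := by
  rw [← e, Matrix.map_map]
  rfl

theorem pr_CZC (e : g.comp (algebraMap k B) = algebraMap k C)
    (c : Matrix (Fin (2 * i + 1)) (Fin (2 * i + 1)) B) :
    ((F.map (algebraMap k B)).pr c).map g = (F.map (algebraMap k C)).pr (c.map g) := by
  rw [Frame.pr_map]
  simp only [Frame.pr, Frame.map, mm_CZC e]

theorem co_CZC (e : g.comp (algebraMap k B) = algebraMap k C) (c : Matrix (Fin n) (Fin n) B) :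
    ((F.map (algebraMap k B)).co c).map g = (F.map (algebraMap k C)).co (c.map g) := by
  rw [Frame.co_map]
  simp only [Frame.co, Frame.map, mm_CZC e]

theorem on_CZC (e : g.comp (algebraMap k B) = algebraMap k C) {x : Fin (2 * i + 1) → B}
    (hx : On (F.H.map (algebraMap k B)) q i x) :
    On (F.map (algebraMap k C)).H q i fun a => g (x a) := by
  have h := hx.map g
  rw [mm_CZC e] at h
  exact h

theorem cm_CZC (e : g.comp (algebraMap k B) = algebraMap k C) (x : Fin (2 * i + 1) → B) :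
    (cm (F.H.map (algebraMap k B)) q i x).map g =
      cm (F.map (algebraMap k C)).H q i fun a => g (x a) := by
  rw [cm_map, mm_CZC e]
  rfl

theorem eM_CZC (g : B →+* C) (e N : Matrix (Fin n) (Fin n) B) :
    (eM e N).map g = eM (e.map g) (N.map g) :=
  map_eM (e₀ := e) (N := N) (RingHom.mapMatrix g)

theorem mM_CZC (g : B →+* C) (e N : Matrix (Fin n) (Fin n) B) :
    (mM e N).map g = mM (e.map g) (N.map g) :=
  map_mM (e₀ := e) (N := N) (RingHom.mapMatrix g)

variable {x : Fin (2 * i + 1) → C} {e₀ : Matrix (Fin n) (Fin n) B}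

theorem lift_CZC (hk : Fintype.card k = q ^ 2) (hd : Fintype.card σ + i = d) (hn : d ≤ n)
    (e : g.comp (algebraMap k B) = algebraMap k C) (hg : Function.Injective g)
    (hx : On (F.map (algebraMap k C)).H q i x)
    (h0 : e₀.map g = (F.map (algebraMap k C)).pr (cm (F.map (algebraMap k C)).H q i x))
    (N : Matrix (Fin n) (Fin n) B) :
    ∃ ψ : SV G q d →ₐ[k] B, (eS q d G).map ψ = eM e₀ N ∧ (mS q d G).map ψ = mM e₀ N := by
  have h1 := (F.map (algebraMap k C)).sv (fb_of_card hk _) hx hd hn (N.map g)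
  rw [← h0, ← eM_CZC, ← mM_CZC, ← mm_CZC e G] at h1
  exact (Sv.of_map g hg h1).exists_lift

theorem idem_CZC (hk : Fintype.card k = q ^ 2) (hg : Function.Injective g)
    (hx : On (F.map (algebraMap k C)).H q i x)
    (h0 : e₀.map g = (F.map (algebraMap k C)).pr (cm (F.map (algebraMap k C)).H q i x)) :
    e₀ * e₀ = e₀ := by
  have h1 := (F.map (algebraMap k C)).pr_idem (fb_of_card hk _) hx
  rw [← h0, ← Matrix.map_mul] at h1
  exact Matrix.map_injective hg h1

theorem psi_CZC (e : g.comp (algebraMap k B) = algebraMap k C) {S : Type} [CommRing S]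
    [Algebra k S] (ψ : S →ₐ[k] B) :
    (g.comp ψ.toRingHom).comp (algebraMap k S) = algebraMap k C := by
  rw [RingHom.comp_assoc, ← e]
  congr 1
  exact RingHom.ext fun t => ψ.commutes t

variable {S : Type} [CommRing S] [Algebra k S] {ψ : S →ₐ[k] B} {E : Matrix (Fin n) (Fin n) S}
  {N : Matrix (Fin n) (Fin n) B}

theorem eS_CZC
    (h0 : e₀.map g = (F.map (algebraMap k C)).pr (cm (F.map (algebraMap k C)).H q i x))
    (he : E.map ψ = eM e₀ N) : E.map (g.comp ψ.toRingHom) =
    eM ((F.map (algebraMap k C)).pr (cm (F.map (algebraMap k C)).H q i x)) (N.map g) := by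
  rw [← h0, ← eM_CZC, ← he]
  rfl

theorem in_CZC (hk : Fintype.card k = q ^ 2)
    (e : g.comp (algebraMap k B) = algebraMap k C) (hg : Function.Injective g)
    (hx : On (F.map (algebraMap k C)).H q i x)
    (h0 : e₀.map g = (F.map (algebraMap k C)).pr (cm (F.map (algebraMap k C)).H q i x))
    (he : E.map ψ = eM e₀ N) (a : σ) (b : Fin n) :
    (F.w.map (algebraMap k S) * E - F.w.map (algebraMap k S)) a b ∈ RingHom.ker ψ.toRingHom := by
  rw [RingHom.mem_ker]
  apply hg
  have h1 := (F.map (algebraMap k C)).w_eM (fb_of_card hk _) hx (N.map g)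
  rw [← eS_CZC F h0 he] at h1
  have h2 : (F.w.map (algebraMap k S) * E).map (g.comp ψ.toRingHom) =
      (F.w.map (algebraMap k S)).map (g.comp ψ.toRingHom) := by
    rw [Matrix.map_mul, mm_CZC (psi_CZC e ψ)]
    exact h1
  have h3 := congrFun (congrFun h2 a) b
  rw [map_zero, Matrix.sub_apply, map_sub, map_sub, sub_eq_zero]
  exact h3

theorem yv_CZC (hk : Fintype.card k = q ^ 2)
    (e : g.comp (algebraMap k B) = algebraMap k C)
    (hx : On (F.map (algebraMap k C)).H q i x)
    (h0 : e₀.map g = (F.map (algebraMap k C)).pr (cm (F.map (algebraMap k C)).H q i x))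
    (he : E.map ψ = eM e₀ N) (ch : Fin (2 * i) → Fin n ⊕ Fin n) : ∃ lam : C,
      (∀ a, g (ψ (yv (F.H.map (algebraMap k S)) q
        ((F.map (algebraMap k S)).co E) ch a)) = lam * fr (q ^ 2) i x a) ∧
      g (ψ (fv (F.H.map (algebraMap k S)) q
        ((F.map (algebraMap k S)).co E) ch)) = lam ^ (1 + q * (q ^ 2) ^ i) := by
  obtain ⟨D, hD⟩ := (F.map (algebraMap k C)).co_eM (fb_of_card hk _) hx (N.map g)
  have hH := (F.map (algebraMap k C)).her (fb_of_card hk _)
  obtain ⟨lam, hy⟩ : ∃ lam : C, yv (F.map (algebraMap k C)).H q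
      ((F.map (algebraMap k C)).co (eM ((F.map (algebraMap k C)).pr
        (cm (F.map (algebraMap k C)).H q i x)) (N.map g))) ch = lam • fr (q ^ 2) i x :=
    ⟨_, yv_eq (ch := ch) hH hx hD⟩
  have hf := fv_eq hH hx hy
  refine ⟨lam, fun a => ?_, ?_⟩
  · have h1 := map_yv (H := F.H.map (algebraMap k S)) (q := q)
      (c := (F.map (algebraMap k S)).co E) (ch := ch) (g.comp ψ.toRingHom) a
    rw [mm_CZC (psi_CZC e ψ), co_CZC F (psi_CZC e ψ), eS_CZC F h0 he] at h1
    exact h1.trans (congrFun hy a)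
  · have h1 := map_fv (H := F.H.map (algebraMap k S)) (q := q)
      (c := (F.map (algebraMap k S)).co E) (ch := ch) (g.comp ψ.toRingHom)
    rw [mm_CZC (psi_CZC e ψ), co_CZC F (psi_CZC e ψ), eS_CZC F h0 he] at h1
    exact h1.trans hf

end Gen

theorem C_alg_CZC : (MvPolynomial.C : Dv F.H q i →+* F.ParD).comp (algebraMap k (Dv F.H q i)) =
    algebraMap k F.ParD := by
  ext1 t
  rw [RingHom.comp_apply, MvPolynomial.algebraMap_apply]

theorem Frame.on_xP : On (F.map (algebraMap k F.ParD)).H q i F.xP :=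
  on_CZC (B := Dv F.H q i) (C := F.ParD) (g := MvPolynomial.C) F (C_alg_CZC F) (on_xD F.H)

variable {F} {c : Matrix (Fin (2 * i + 1)) (Fin (2 * i + 1)) (Cox F.H q (q ^ 2) i)}
  {ψ : SV G q d →ₐ[k] F.Par}

theorem Frame.up_e0 (hc : c.map (Cox F.H q (q ^ 2) i).val =
      cm (F.H.map (algebraMap k (Dv F.H q i))) q i (xD F.H q i)) : (F.e0 c).map F.up =
    (F.map (algebraMap k F.ParD)).pr (cm (F.map (algebraMap k F.ParD)).H q i F.xP) := by
  have h1 : (c.map MvPolynomial.C).map F.up =
      (c.map (Cox F.H q (q ^ 2) i).val).map (MvPolynomial.C : Dv F.H q i →+* F.ParD) := by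
    ext1 a b
    exact MvPolynomial.map_C _ _
  have h2 := pr_CZC (B := F.Par) (C := F.ParD) (g := F.up) F F.up_alg (c.map MvPolynomial.C)
  have h3 := cm_CZC (B := Dv F.H q i) (C := F.ParD) (g := MvPolynomial.C) F (C_alg_CZC F)
    (xD F.H q i)
  exact h2.trans (congrArg _ (h1.trans ((congrArg
    (fun M => Matrix.map M (MvPolynomial.C : Dv F.H q i →+* F.ParD)) hc).trans h3)))

theorem Frame.exists_str (F : Frame G q σ i) (hk : Fintype.card k = q ^ 2)
    (hd : Fintype.card σ + i = d) (hn : d ≤ n) : ∃ c ψ, F.Str d c ψ := by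
  obtain ⟨c, hc⟩ := exists_cm (q := q) (i := i) F.H
  obtain ⟨ψ, h2, h3⟩ := lift_CZC (B := F.Par) (C := F.ParD) (g := F.up) F hk hd hn F.up_alg
    F.up_inj F.on_xP (Frame.up_e0 hc) (gN n _)
  exact ⟨c, ψ, hc, h2, h3⟩

theorem Frame.Str.idem (hk : Fintype.card k = q ^ 2) (h : F.Str d c ψ) :
    F.e0 c * F.e0 c = F.e0 c :=
  idem_CZC (B := F.Par) (C := F.ParD) (g := F.up) F hk F.up_inj F.on_xP (Frame.up_e0 h.hc)

theorem Frame.Str.isIn (hk : Fintype.card k = q ^ 2) (h : F.Str d c ψ) :
    F.In (RingHom.ker ψ.toRingHom) := fun a b =>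
  in_CZC (B := F.Par) (C := F.ParD) (g := F.up) (S := SV G q d) F hk F.up_alg F.up_inj F.on_xP
    (Frame.up_e0 h.hc) h.he a b

theorem Frame.Str.yv (hk : Fintype.card k = q ^ 2) (h : F.Str d c ψ)
    (ch : Fin (2 * i) → Fin n ⊕ Fin n) : ∃ lam : F.ParD,
      (∀ a, F.up (ψ (yv (F.H.map (algebraMap k (SV G q d))) q
        ((F.map (algebraMap k (SV G q d))).co (eS q d G)) ch a)) = lam * fr (q ^ 2) i F.xP a) ∧
      F.up (ψ (fv (F.H.map (algebraMap k (SV G q d))) q
        ((F.map (algebraMap k (SV G q d))).co (eS q d G)) ch)) = lam ^ (1 + q * (q ^ 2) ^ i) :=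
  yv_CZC (B := F.Par) (C := F.ParD) (g := F.up) (S := SV G q d) F hk F.up_alg F.on_xP
    (Frame.up_e0 h.hc) h.he ch

end Pool.Agent.CXD
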