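import Pool.Agent.P.MP_2ce3e7_ag.CZA

/-! The Frobenius map on subspaces. -/

set_option linter.unusedSectionVars false
set_option linter.unusedVariables false

open Matrix Module

noncomputable section

namespace Pool.Agent.CXD

variable {L : Type} [Field L] {m q : ℕ}

/-- a stable subspace contains a rational vector -/
theorem exists_rat {k : Type} [Field k] [Fintype k] [Algebra k L] {Q : ℕ} (hk : Fintype.card k = Q)
    (T : Submodule L (Fin m → L)) (hT : T ≠ ⊥) (hst : ∀ v ∈ T, fr Q 1 v ∈ T) :
    ∃ v : Fin m → k, v ≠ 0 ∧ (fun a => algebraMap k L (v a)) ∈ T := by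
  classical
  have hQ : 1 < Q := hk ▸ Fintype.one_lt_card
  have hex : ∃ c, ∃ v ∈ T, v ≠ 0 ∧ (Finset.univ.filter fun a => v a ≠ 0).card = c := by
    obtain ⟨v, hv, h0⟩ := Submodule.exists_mem_ne_zero_of_ne_bot hT
    exact ⟨_, v, hv, h0, rfl⟩
  obtain ⟨u, hu, hu0, huc⟩ := Nat.find_spec hex
  obtain ⟨a, ha⟩ := Function.ne_iff.1 hu0
  have ha' : u a ≠ 0 := ha
  set v : Fin m → L := (u a)⁻¹ • u with hv
  have hvT : v ∈ T := T.smul_mem _ hu
  have hva : v a = 1 := by simp [hv, ha']
  have hfix : fr Q 1 v - v = 0 := by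
    by_contra hne
    have hle := Nat.find_min' hex ⟨fr Q 1 v - v, T.sub_mem (hst v hvT) hvT, hne, rfl⟩
    rw [← huc] at hle
    refine absurd hle (not_le.2 (Finset.card_lt_card ⟨fun b hb => ?_, fun hsub => ?_⟩))
    · simp only [Finset.mem_filter, Finset.mem_univ, true_and] at hb ⊢
      intro hb0
      apply hb
      have hvb : v b = 0 := by simp [hv, hb0]
      simp [fr, hvb, zero_pow (show Q ≠ 0 by omega)]
    · have := hsub (Finset.mem_filter.2 ⟨Finset.mem_univ a, ha'⟩)
      simp [fr, hva] at this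
  have hrange : ∀ b, ∃ t : k, algebraMap k L t = v b := by
    intro b
    have h1 : v b ^ Q = v b := by
      have := congrFun hfix b
      simpa [fr, sub_eq_zero] using this
    have hsp : (Polynomial.X ^ Fintype.card k - Polynomial.X : Polynomial k).Splits := by
      rw [Polynomial.splits_iff_card_roots, FiniteField.roots_X_pow_card_sub_X,
        FiniteField.X_pow_card_sub_X_natDegree_eq k Fintype.one_lt_card]
      rfl
    refine hsp.mem_range_of_isRoot (i := algebraMap k L)
      (FiniteField.X_pow_card_sub_X_ne_zero k Fintype.one_lt_card) ?_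
    simp [Polynomial.IsRoot, hk, h1]
  choose w hw using hrange
  refine ⟨w, fun h0 => ?_, ?_⟩
  · have := hw a
    rw [h0, hva] at this
    simp at this
  · have : (fun a => algebraMap k L (w a)) = v := funext hw
    rw [this]
    exact hvT

theorem Fb.pos_CZG {Q : ℕ} (h : Fb L Q) : 0 < Q := by
  obtain ⟨F, hF⟩ := h
  rcases Nat.eq_zero_or_pos Q with h0 | h0
  · have := hF 0
    rw [h0, map_zero, pow_zero] at this
    exact absurd this zero_ne_one
  · exact h0

theorem Fb.inj_CZG {Q : ℕ} (h : Fb L Q) (j : ℕ) {s t : L} (hst : s ^ Q ^ j = t ^ Q ^ j) :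
    s = t := by
  obtain ⟨F, hF⟩ := h
  induction j generalizing s t with
  | zero => simpa using hst
  | succ j ih =>
    apply ih
    apply F.injective
    rw [hF, hF, ← pow_mul, ← pow_mul, ← pow_succ, hst]

variable [IsAlgClosed L]

theorem Fb.fr_bij {Q : ℕ} (h : Fb L Q) (j : ℕ) :
    Function.Bijective (fr Q j : (Fin m → L) → Fin m → L) := by
  refine ⟨fun x y hxy => funext fun a => h.inj_CZG j (congrFun hxy a), fun y => ?_⟩
  choose x hx using fun a => IsAlgClosed.exists_pow_nat_eq (y a) (pow_pos h.pos_CZG j)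
  exact ⟨x, funext hx⟩

theorem Fb.exists_sub {Q : ℕ} (h : Fb L Q) (m : ℕ) :
    ∃ Φ : Submodule L (Fin m → L) ≃o Submodule L (Fin m → L),
      (∀ T v, fr Q 1 v ∈ Φ T ↔ v ∈ T) ∧ ∀ T, finrank L (Φ T) = finrank L T := by
  have hb := h.fr_bij (m := m) 1
  have hp := h.pos_CZG
  obtain ⟨F, hF⟩ := h
  have hFs : Function.Surjective F := fun t => by
    obtain ⟨z, hz⟩ := IsAlgClosed.exists_pow_nat_eq t hp
    exact ⟨z, by rw [hF, hz]⟩
  haveI : RingHomSurjective F := ⟨hFs⟩
  let f : (Fin m → L) →ₛₗ[F] (Fin m → L) :=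
    { toFun := fr Q 1
      map_add' := fun x y => by
        funext a
        simp only [fr, pow_one, Pi.add_apply, ← hF, map_add]
      map_smul' := fun c x => by
        funext a
        simp only [fr, pow_one, Pi.smul_apply, smul_eq_mul, ← hF, map_mul] }
  have hf : Function.Bijective f := hb
  refine ⟨Submodule.orderIsoMapComapOfBijective f hf, fun T v => ?_, fun T => ?_⟩
  · show f v ∈ T.map f ↔ v ∈ T
    constructor
    · rintro ⟨w, hw, hwv⟩
      rwa [← hf.1 hwv]
    · exact fun hv => ⟨v, hv, rfl⟩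
  · show finrank L (T.map f) = finrank L T
    let g : T →+ T.map f :=
      { toFun := fun v => ⟨f v, v, v.2, rfl⟩
        map_zero' := Subtype.ext (map_zero f)
        map_add' := fun x y => Subtype.ext (map_add f x.1 y.1) }
    have hg : Function.Bijective g := by
      refine ⟨fun x y hxy => Subtype.ext (hf.1 (congrArg Subtype.val hxy)), ?_⟩
      rintro ⟨_, w, hw, rfl⟩
      exact ⟨⟨w, hw⟩, rfl⟩
    have := rank_eq_of_equiv_equiv F (AddEquiv.ofBijective g hg) ⟨F.injective, hFs⟩
      fun r x => Subtype.ext (f.map_smulₛₗ r x.1)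
    unfold finrank
    rw [this]

theorem Her.exists_perp {H : Matrix (Fin m) (Fin m) L} (h : Her H q)
    (U : Submodule L (Fin m → L)) : ∃ W : Submodule L (Fin m → L),
      (∀ y, y ∈ W ↔ ∀ u ∈ U, bform H q y u = 0) ∧ finrank L W + finrank L U = m := by
  obtain ⟨Φ, hΦ, hr⟩ := h.fb.exists_sub m
  have hb := h.fb.fr_bij (m := m) 1
  have hB : (Matrix.toBilin' Hᵀ).Nondegenerate := by
    apply LinearMap.BilinForm.nondegenerate_toBilin'_of_det_ne_zero'
    rw [Matrix.det_transpose]
    exact h.det.ne_zero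
  have key : ∀ y u, Matrix.toBilin' Hᵀ (fr q 1 u) y = bform H q y u := by
    intro y u
    rw [Matrix.toBilin'_apply, bform, Finset.sum_comm]
    refine Finset.sum_congr rfl fun a _ => Finset.sum_congr rfl fun b _ => ?_
    simp only [fr, pow_one, Matrix.transpose_apply]
    ring
  refine ⟨(Matrix.toBilin' Hᵀ).orthogonal (Φ U), fun y => ?_, ?_⟩
  · rw [LinearMap.BilinForm.mem_orthogonal_iff]
    constructor
    · intro hy u hu
      rw [← key]
      exact hy _ ((hΦ U u).2 hu)
    · intro hy n hn
      obtain ⟨u, rfl⟩ := hb.2 n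
      have := hy u ((hΦ U u).1 hn)
      rw [← key] at this
      exact this
  · rw [LinearMap.BilinForm.finrank_orthogonal hB, hr]
    have := Submodule.finrank_le U
    simp only [finrank_fintype_fun_eq_card, Fintype.card_fin] at this ⊢
    omega

end Pool.Agent.CXD
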