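import Pool.Agent.P.MP_2ce3e7_ag.CZA
import Pool.Agent.P.MP_2ce3e7_ag.CZ0

/-! Points of the affine model. -/

set_option linter.unusedSectionVars false
set_option linter.unusedVariables false

open Matrix

noncomputable section

namespace Pool.Agent.CXD

section Ring

variable {A : Type} [Ring A]

/-- the projector with parameter `N` -/
def eM (e₀ N : A) : A := e₀ + (1 - e₀) * N * e₀

/-- the second matrix with parameter `N` -/
def mM (e₀ N : A) : A :=
  (1 + (1 - e₀) * N * e₀) * (N - (1 - e₀) * N * e₀) * (1 - (1 - e₀) * N * e₀)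

/-- the parameter -/
def nM (e₀ e m : A) : A := (1 - (e - e₀)) * m * (1 + (e - e₀)) + (e - e₀)

variable {e₀ e m N : A}

theorem d1_CZS (h : e₀ * e₀ = e₀) : e₀ * ((1 - e₀) * N * e₀) = 0 := by
  have : e₀ * (1 - e₀) = 0 := by rw [mul_sub, mul_one, h, sub_self]
  rw [← mul_assoc, ← mul_assoc, this, zero_mul, zero_mul]

theorem d2_CZS (h : e₀ * e₀ = e₀) : ((1 - e₀) * N * e₀) * e₀ = (1 - e₀) * N * e₀ := by
  rw [mul_assoc, h]

theorem dd_CZS {c : A} (h1 : e₀ * c = 0) (h2 : c * e₀ = c) : c * c = 0 := by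
  calc c * c = (c * e₀) * c := by rw [h2]
    _ = 0 := by rw [mul_assoc, h1, mul_zero]

theorem inv1_CZS {c : A} (h : c * c = 0) : (1 - c) * (1 + c) = 1 := by
  rw [sub_mul, one_mul, mul_add, mul_one, h, add_zero, add_sub_cancel_right]

theorem inv2_CZS {c : A} (h : c * c = 0) : (1 + c) * (1 - c) = 1 := by
  rw [add_mul, one_mul, mul_sub, mul_one, h, sub_zero, sub_add_cancel]

theorem eM_eq (h : e₀ * e₀ = e₀) : eM e₀ N = (1 + (1 - e₀) * N) * e₀ := by
  rw [eM, add_mul, one_mul]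

theorem mul_eM (h : e₀ * e₀ = e₀) : e₀ * eM e₀ N = e₀ := by
  rw [eM, mul_add, d1_CZS h, h, add_zero]

theorem eM_idem (h : e₀ * e₀ = e₀) : eM e₀ N * eM e₀ N = eM e₀ N := by
  have h1 := d1_CZS (N := N) h
  have h2 := d2_CZS (N := N) h
  have h3 := dd_CZS h1 h2
  unfold eM
  generalize (1 - e₀) * N * e₀ = c at h1 h2 h3 ⊢
  rw [add_mul, mul_add, mul_add, h, h1, h2, h3, add_zero, add_zero]

theorem eM_cut (h : e₀ * e₀ = e₀) : (1 - eM e₀ N) * mM e₀ N * eM e₀ N = 0 := by
  have h1 := d1_CZS (N := N) h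
  have h2 := d2_CZS (N := N) h
  have h3 := dd_CZS h1 h2
  unfold eM mM
  obtain ⟨c, hc⟩ : ∃ c, c = (1 - e₀) * N * e₀ := ⟨_, rfl⟩
  rw [← hc] at h1 h2 h3 ⊢
  have a1 : (1 - c) * (e₀ + c) = e₀ := by
    rw [sub_mul, one_mul, mul_add, h2, h3, add_zero, add_sub_cancel_right]
  have a2 : (1 - (e₀ + c)) * (1 + c) = 1 - e₀ := by
    rw [sub_mul, one_mul, add_mul, mul_add, mul_add, mul_one, mul_one, h1, h3]
    abel
  calc (1 - (e₀ + c)) * ((1 + c) * (N - c) * (1 - c)) * (e₀ + c)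
      = ((1 - (e₀ + c)) * (1 + c)) * (N - c) * ((1 - c) * (e₀ + c)) := by
        simp only [mul_assoc]
    _ = (1 - e₀) * N * e₀ - (1 - e₀) * (c * e₀) := by
        rw [a1, a2, mul_sub (1 - e₀), sub_mul, mul_assoc (1 - e₀) c]
    _ = 0 := by
        rw [← hc, h2, sub_mul, one_mul, h1, sub_zero, sub_self]

theorem nM_eM (h : e₀ * e₀ = e₀) : nM e₀ (eM e₀ N) (mM e₀ N) = N := by
  have h1 := d1_CZS (N := N) h
  have h2 := d2_CZS (N := N) h
  have h3 := dd_CZS h1 h2
  unfold nM eM mM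
  generalize (1 - e₀) * N * e₀ = c at h1 h2 h3 ⊢
  rw [add_sub_cancel_left]
  calc (1 - c) * ((1 + c) * (N - c) * (1 - c)) * (1 + c) + c
      = ((1 - c) * (1 + c)) * (N - c) * ((1 - c) * (1 + c)) + c := by
        simp only [mul_assoc]
    _ = N := by rw [inv1_CZS h3, one_mul, mul_one, sub_add_cancel]

theorem eM_nM (h : e₀ * e₀ = e₀) (h1 : e * e₀ = e) (h2 : e₀ * e = e₀) (h3 : e * e = e)
    (h4 : (1 - e) * m * e = 0) : eM e₀ (nM e₀ e m) = e ∧ mM e₀ (nM e₀ e m) = m := by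
  obtain ⟨c, rfl⟩ : ∃ c, e = e₀ + c := ⟨e - e₀, by abel⟩
  have c1 : e₀ * c = 0 := by
    rw [mul_add, h] at h2
    simpa using h2
  have c2 : c * e₀ = c := by
    rw [add_mul, h] at h1
    simpa using h1
  have c3 := dd_CZS c1 c2
  have hn : nM e₀ (e₀ + c) m = (1 - c) * m * (1 + c) + c := by
    rw [nM, add_sub_cancel_left]
  have a1 : (1 - e₀) * (1 - c) = 1 - (e₀ + c) := by
    rw [sub_mul, one_mul, mul_sub, mul_one, c1]
    abel
  have a2 : (1 + c) * e₀ = e₀ + c := by rw [add_mul, one_mul, c2]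
  have hd : (1 - e₀) * nM e₀ (e₀ + c) m * e₀ = c := by
    calc (1 - e₀) * nM e₀ (e₀ + c) m * e₀
        = ((1 - e₀) * (1 - c)) * m * ((1 + c) * e₀) + (1 - e₀) * (c * e₀) := by
          rw [hn]
          simp only [mul_add (1 - e₀), add_mul _ _ e₀, mul_assoc]
      _ = c := by rw [a1, a2, h4, zero_add, c2, sub_mul, one_mul, c1, sub_zero]
  refine ⟨by rw [eM, hd], ?_⟩
  rw [mM, hd, hn, add_sub_cancel_right]
  calc (1 + c) * ((1 - c) * m * (1 + c)) * (1 - c)
      = ((1 + c) * (1 - c)) * m * ((1 + c) * (1 - c)) := by simp only [mul_assoc]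
    _ = m := by rw [inv2_CZS c3, one_mul, mul_one]

theorem map_eM {A' : Type} [Ring A'] (f : A →+* A') : f (eM e₀ N) = eM (f e₀) (f N) := by
  simp [eM]

theorem map_mM {A' : Type} [Ring A'] (f : A →+* A') : f (mM e₀ N) = mM (f e₀) (f N) := by
  simp [mM]

end Ring

variable {R R' : Type} [CommRing R] [CommRing R'] {n q d : ℕ}

/-- the equations of the model -/
structure Sv (G : Matrix (Fin n) (Fin n) R) (q d : ℕ) (e m : Matrix (Fin n) (Fin n) R) : Prop where
  idem : e * e = e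
  chp : e.charpoly = Polynomial.X ^ (n - d) * (Polynomial.X - 1) ^ d
  iso : e * G * dg q e = 0
  cut : (1 - e) * m * e = 0

variable {G e m : Matrix (Fin n) (Fin n) R}

theorem m1_CZS (f : R →+* R') : (e * G * dg q e).map f = e.map f * G.map f * dg q (e.map f) := by
  rw [Matrix.map_mul, Matrix.map_mul, dg_map]

theorem m2_CZS (f : R →+* R') :
    ((1 - e) * m * e).map f = (1 - e.map f) * m.map f * e.map f := by
  have : ((1 - e) * m * e).map f = f.mapMatrix ((1 - e) * m * e) := rfl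
  rw [this, map_mul, map_mul, map_sub, map_one]
  rfl

theorem m3_CZS (f : R →+* R') :
    (Polynomial.X ^ (n - d) * (Polynomial.X - 1) ^ d : Polynomial R).map f =
      Polynomial.X ^ (n - d) * (Polynomial.X - 1) ^ d := by
  simp

theorem Sv.map (h : Sv G q d e m) (f : R →+* R') : Sv (G.map f) q d (e.map f) (m.map f) := by
  refine ⟨?_, ?_, ?_, ?_⟩
  · rw [← Matrix.map_mul, h.idem]
  · rw [Matrix.charpoly_map, h.chp, m3_CZS]
  · rw [← m1_CZS, h.iso, Matrix.map_zero _ (map_zero f)]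
  · rw [← m2_CZS, h.cut, Matrix.map_zero _ (map_zero f)]

theorem Sv.of_map (f : R →+* R') (hf : Function.Injective f)
    (h : Sv (G.map f) q d (e.map f) (m.map f)) : Sv G q d e m := by
  refine ⟨?_, ?_, ?_, ?_⟩
  · apply Matrix.map_injective hf
    show (e * e).map f = e.map f
    rw [Matrix.map_mul, h.idem]
  · apply Polynomial.map_injective f hf
    rw [← Matrix.charpoly_map, h.chp, m3_CZS]
  · apply Matrix.map_injective hf
    show (e * G * dg q e).map f = (0 : Matrix (Fin n) (Fin n) R).map f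
    rw [m1_CZS, h.iso, Matrix.map_zero _ (map_zero f)]
  · apply Matrix.map_injective hf
    show ((1 - e) * m * e).map f = (0 : Matrix (Fin n) (Fin n) R).map f
    rw [m2_CZS, h.cut, Matrix.map_zero _ (map_zero f)]

theorem sv_iff_CZS (f : R →+* R') :
    Sv (G.map f) q d (e.map f) (m.map f) ↔ ∀ x ∈ svEq G q d e m, f x = 0 := by
  have k1 : ∀ a b, f ((e * e - e) a b) = (e.map f * e.map f - e.map f) a b := by
    intro a b
    rw [← Matrix.map_mul, Matrix.sub_apply, Matrix.sub_apply, map_sub]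
    rfl
  have k2 : ∀ j, f ((e.charpoly - Polynomial.X ^ (n - d) * (Polynomial.X - 1) ^ d).coeff j) =
      ((e.map f).charpoly - Polynomial.X ^ (n - d) * (Polynomial.X - 1) ^ d).coeff j := by
    intro j
    rw [← Polynomial.coeff_map, Polynomial.map_sub, m3_CZS, Matrix.charpoly_map]
  have k3 : ∀ a b, f ((e * G * (e.map (· ^ q))ᵀ) a b) =
      (e.map f * G.map f * dg q (e.map f)) a b := by
    intro a b
    rw [← m1_CZS]
    rfl
  have k4 : ∀ a b, f (((1 - e) * m * e) a b) = ((1 - e.map f) * m.map f * e.map f) a b := by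
    intro a b
    rw [← m2_CZS]
    rfl
  constructor
  · rintro h x (⟨a, b, rfl⟩ | ⟨j, rfl⟩ | ⟨a, b, rfl⟩ | ⟨a, b, rfl⟩)
    · rw [k1, h.idem, sub_self]; rfl
    · rw [k2, h.chp, sub_self]; rfl
    · rw [k3, h.iso]; rfl
    · rw [k4, h.cut]; rfl
  · intro h
    refine ⟨?_, ?_, ?_, ?_⟩
    · rw [← sub_eq_zero]
      ext a b
      rw [← k1]
      exact h _ (Or.inl ⟨a, b, rfl⟩)
    · rw [← sub_eq_zero]
      ext j
      rw [← k2]
      exact h _ (Or.inr (Or.inl ⟨j, rfl⟩))
    · ext a b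
      rw [← k3]
      exact h _ (Or.inr (Or.inr (Or.inl ⟨a, b, rfl⟩)))
    · ext a b
      rw [← k4]
      exact h _ (Or.inr (Or.inr (Or.inr ⟨a, b, rfl⟩)))

variable {k : Type} [Field k] (G₀ : Matrix (Fin n) (Fin n) k) (q d)

/-- the universal projector -/
def eS : Matrix (Fin n) (Fin n) (SV G₀ q d) := (gen k n true).map (Ideal.Quotient.mk _)

/-- the universal second matrix -/
def mS : Matrix (Fin n) (Fin n) (SV G₀ q d) := (gen k n false).map (Ideal.Quotient.mk _)

theorem sv_univ : Sv (G₀.map (algebraMap k (SV G₀ q d))) q d (eS q d G₀) (mS q d G₀) := by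
  have h := (sv_iff_CZS (G := G₀.map MvPolynomial.C) (q := q) (d := d) (e := gen k n true)
    (m := gen k n false) (Ideal.Quotient.mk (Ideal.span (svEq (G₀.map MvPolynomial.C) q d
      (gen k n true) (gen k n false))))).2
    (fun x hx => Ideal.Quotient.eq_zero_iff_mem.2 (Ideal.subset_span hx))
  exact h

variable {G₀ q d} [Algebra k R]

theorem Sv.exists_lift (h : Sv (G₀.map (algebraMap k R)) q d e m) :
    ∃ ψ : SV G₀ q d →ₐ[k] R, (eS q d G₀).map ψ = e ∧ (mS q d G₀).map ψ = m := by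
  let φ : MvPolynomial (Bool × Fin n × Fin n) k →ₐ[k] R :=
    MvPolynomial.aeval (fun s => if s.1 then e s.2.1 s.2.2 else m s.2.1 s.2.2)
  have e1 : (gen k n true).map (φ : MvPolynomial (Bool × Fin n × Fin n) k →+* R) = e := by
    ext a b
    simp [gen, φ]
  have e2 : (gen k n false).map (φ : MvPolynomial (Bool × Fin n × Fin n) k →+* R) = m := by
    ext a b
    simp [gen, φ]
  have e3 : (G₀.map MvPolynomial.C).map (φ : MvPolynomial (Bool × Fin n × Fin n) k →+* R) = G₀.map (algebraMap k R) := by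
    ext a b
    simp [φ]
  have h' := (sv_iff_CZS (G := G₀.map MvPolynomial.C) (q := q) (d := d) (e := gen k n true)
    (m := gen k n false) (φ : MvPolynomial (Bool × Fin n × Fin n) k →+* R)).1 (by rw [e1, e2, e3]; exact h)
  have hI : ∀ a ∈ Ideal.span (svEq (G₀.map MvPolynomial.C) q d (gen k n true) (gen k n false)),
      φ a = 0 := by
    intro a ha
    have : Ideal.span (svEq (G₀.map MvPolynomial.C) q d (gen k n true) (gen k n false)) ≤
        RingHom.ker (φ : MvPolynomial (Bool × Fin n × Fin n) k →+* R) := Ideal.span_le.2 (fun x hx => h' x hx)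
    exact this ha
  refine ⟨Ideal.Quotient.liftₐ _ φ hI, ?_, ?_⟩
  · rw [← e1]
    ext a b
    rfl
  · rw [← e2]
    ext a b
    rfl

theorem sv_hom_ext {ψ ψ' : SV G₀ q d →ₐ[k] R} (h1 : (eS q d G₀).map ψ = (eS q d G₀).map ψ')
    (h2 : (mS q d G₀).map ψ = (mS q d G₀).map ψ') : ψ = ψ' := by
  apply Ideal.Quotient.algHom_ext
  apply MvPolynomial.algHom_ext
  rintro ⟨c, a, b⟩
  cases c
  · exact congrFun (congrFun h2 a) b
  · exact congrFun (congrFun h1 a) b

end Pool.Agent.CXD
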