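import Pool.Agent.P.MP_2ce3e7_ag.CDb
import Pool.Agent.P.MP_e12fcd_ag.Weil.PushA

/-! The cone over a family of points is a proper chain. -/

set_option autoImplicit false

noncomputable section

namespace Pool.Agent.Tate

open Set Module Filter Topology Pool.Agent.Weil Pool.Agent.Ferm

variable {m : ℕ} [NeZero m] {ι : Type} {d : ℕ}

/-- `w` lies over `x`, zero blocks allowed -/
def ConeR (x : XS m ι) (w : ι × Fin 3 → ℂ) : Prop :=
  ∃ j, ∃ u ∈ Om m ι, ∃ l : ι → ℂ, x = xp j u ∧ w = cn j u l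

theorem ConeR.chart {j : ι → FI m} {u : ι → ℂ} {w : ι × Fin 3 → ℂ} (hu : u ∈ Om m ι)
    (h : ConeR (xp j u) w) : ∃ l : ι → ℂ, w = cn j u l := by
  obtain ⟨j', u', hu', l, e, rfl⟩ := h
  choose c hc using fun i => ((xp_eq_iff hu hu').1 e i).2.2
  refine ⟨l * c, funext fun v => ?_⟩
  simp only [cn, hc, Pi.smul_apply, smul_eq_mul, Pi.mul_apply, mul_assoc]

omit [NeZero m] in
theorem Cone_ne {j : ι → FI m} {u l : ι → ℂ} (h : Nz (cn j u l)) (i : ι) : l i ≠ 0 := by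
  obtain ⟨b, hb⟩ := h i
  exact left_ne_zero_of_mul hb

theorem Cone_minor {j : ι → FI m} {u : ι → ℂ} {w : ι × Fin 3 → ℂ} :
    (∃ l : ι → ℂ, w = cn j u l) ↔
      ∀ i a b, w (i, a) * FP m (j i) (u i) b = w (i, b) * FP m (j i) (u i) a := by
  refine ⟨?_, fun h => ?_⟩
  · rintro ⟨l, rfl⟩ i a b
    simp only [cn]
    ring
  · choose b hb using fun i => FCurveX.FP_ne (j i) (u i)
    refine ⟨fun i => w (i, b i) / FP m (j i) (u i) (b i), funext fun v => ?_⟩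
    rw [cn, div_mul_eq_mul_div, eq_div_iff (hb _)]
    exact h v.1 v.2 _

theorem Cone_id {V : Type} [NormedAddCommGroup V] : IsChart (id : V → V) univ :=
  ⟨isOpen_univ, continuousOn_id, injOn_id _, fun W _ hW => by rwa [image_id]⟩

variable [Fintype ι]

theorem Cone_cont (j : ι → FI m) (i : ι) (b : Fin 3) :
    ContinuousOn (fun u : ι → ℂ => FP m (j i) (u i) b) (Om m ι) :=
  (FP_an (j i) b).continuousOn.comp (continuous_apply i).continuousOn fun _ hu => hu i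

theorem Cone_closed : IsClosed {p : (ι × Fin 3 → ℂ) × XS m ι | ConeR p.2 p.1} := by
  rw [← isOpen_compl_iff, isOpen_iff_forall_mem_open]
  rintro ⟨w, x⟩ h
  obtain ⟨j, u, hu, rfl⟩ := exists_xp x
  obtain ⟨i, a, b, h1⟩ : ∃ i a b,
      w (i, a) * FP m (j i) (u i) b - w (i, b) * FP m (j i) (u i) a ≠ 0 := by
    by_contra h2
    push Not at h2
    obtain ⟨l, hl⟩ := Cone_minor.2 fun i a b => sub_eq_zero.1 (h2 i a b)
    exact h ⟨j, u, hu, l, rfl, hl⟩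
  have h3 : ∀ b, ContinuousOn (fun p : (ι × Fin 3 → ℂ) × (ι → ℂ) => FP m (j i) (p.2 i) b)
      (univ ×ˢ Om m ι) := fun b => (Cone_cont j i b).comp continuousOn_snd fun _ hp => hp.2
  have h4 : ∀ v, ContinuousOn (fun p : (ι × Fin 3 → ℂ) × (ι → ℂ) => p.1 v) (univ ×ˢ Om m ι) :=
    fun v => ((continuous_apply v).comp continuous_fst).continuousOn
  have h5 := (((h4 (i, a)).mul (h3 b)).sub ((h4 (i, b)).mul (h3 a))).isOpen_inter_preimage
    (isOpen_univ.prod isOpen_Om) (isOpen_compl_singleton (x := 0))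
  refine ⟨_, ?_, (PC.chart_prod Cone_id (isChart_xp j)).opn _ inter_subset_left h5,
    (w, u), ⟨⟨trivial, hu⟩, h1⟩, rfl⟩
  rintro _ ⟨⟨w', u'⟩, ⟨h6, h7⟩, rfl⟩ h8
  exact h7 (sub_eq_zero.2 (Cone_minor.1 (ConeR.chart h6.2 h8) i a b))

namespace CC
variable (c : CC m ι d)

/-- the total space of the cone -/
def cZ : Set ((ι × Fin 3 → ℂ) × c.Z) := {p | ConeR (c.π p.2) p.1}

/-- the parameter domains -/
def cU (a : c.J) : Set ((Fin d → ℂ) × (ι → ℂ)) := c.U a ×ˢ {l | ∀ i, l i ≠ 0}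

/-- the parametrisations -/
def cφ (a : c.J) (p : (Fin d → ℂ) × (ι → ℂ)) : ι × Fin 3 → ℂ := cn (c.j a) (c.u a p.1) p.2

open Classical in
/-- the charts -/
def cι (a : c.J) (p : (Fin d → ℂ) × (ι → ℂ)) : c.cZ :=
  ⟨(if p.1 ∈ c.U a then c.cφ a p else 0, c.e a p.1), by
    split_ifs with h
    · exact ⟨_, _, c.mem a _ h, p.2, c.lift a _ h, rfl⟩
    · obtain ⟨j, u, hu, e⟩ := exists_xp (c.π (c.e a p.1))
      exact ⟨j, u, hu, 0, e, funext fun v => (zero_mul _).symm⟩⟩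

variable {c}

theorem cι_val {a : c.J} {p : (Fin d → ℂ) × (ι → ℂ)} (h : p.1 ∈ c.U a) :
    (c.cι a p).1 = (c.cφ a p, c.e a p.1) := by
  simp only [cι, if_pos h]

theorem cZ_chart {a : c.J} {y : Fin d → ℂ} (hy : y ∈ c.U a) {z : c.cZ} (h : z.1.2 = c.e a y) :
    ∃ l, z.1.1 = c.cφ a (y, l) ∧ c.cι a (y, l) = z := by
  have h1 : ConeR (c.π z.1.2) z.1.1 := z.2
  rw [h, c.lift a y hy] at h1
  obtain ⟨l, hl⟩ := h1.chart (c.mem a y hy)
  exact ⟨l, hl, Subtype.ext ((cι_val hy).trans (Prod.ext hl.symm h.symm))⟩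

theorem an_cφ (a : c.J) : AnalyticOnNhd ℂ (c.cφ a) (c.U a ×ˢ univ) := fun p hp =>
  AnalyticAt.comp (f := fun q : (Fin d → ℂ) × (ι → ℂ) => (c.u a q.1, q.2))
    (analytic_cn (c.j a) _ ⟨c.mem a _ hp.1, trivial⟩)
    (((c.an a _ hp.1).comp analyticAt_fst).prod analyticAt_snd)

theorem isOpen_cU (a : c.J) : IsOpen (c.cU a) := by
  refine (c.chart a).isOpen.prod ?_
  rw [setOf_forall]
  exact isOpen_iInter_of_finite fun i => isOpen_ne_fun (continuous_apply i) continuous_const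

theorem chart_cι (a : c.J) : IsChart (c.cι a) (c.cU a) := by
  refine ⟨isOpen_cU a, ?_, fun p hp q hq h => ?_, fun W hW ho => ?_⟩
  · rw [IsInducing.subtypeVal.continuousOn_iff]
    refine ContinuousOn.congr (f := fun p => (c.cφ a p, c.e a p.1)) ?_ fun p hp => cι_val hp.1
    exact ((an_cφ a).continuousOn.mono fun p hp => ⟨hp.1, trivial⟩).prodMk
      ((c.chart a).cont.comp continuousOn_fst fun p hp => hp.1)
  · have h1 := congrArg Subtype.val h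
    rw [cι_val hp.1, cι_val hq.1, Prod.mk.injEq] at h1
    have h2 := (c.chart a).inj hp.1 hq.1 h1.2
    refine Prod.ext h2 (funext fun i => ?_)
    obtain ⟨b, hb⟩ := FCurveX.FP_ne (c.j a i) (c.u a q.1 i)
    have h3 := congrFun h1.1 (i, b)
    simp only [cφ, cn, h2] at h3
    exact mul_right_cancel₀ hb h3
  · rw [isOpen_iff_forall_mem_open]
    rintro _ ⟨⟨y, l⟩, hp, rfl⟩
    have hy : y ∈ c.U a := (hW hp).1
    choose b hb using fun i => FCurveX.FP_ne (c.j a i) (c.u a y i)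
    have h1 : ∀ i, ContinuousOn (fun p : (ι × Fin 3 → ℂ) × (Fin d → ℂ) =>
        FP m (c.j a i) (c.u a p.2 i) (b i)) (univ ×ˢ c.U a) := fun i =>
      (Cone_cont (c.j a) i (b i)).comp ((c.an a).continuousOn.comp continuousOn_snd
        fun _ hp => hp.2) fun p hp => c.mem a _ hp.2
    have h2 : IsOpen ((univ ×ˢ c.U a) ∩ (fun (p : (ι × Fin 3 → ℂ) × (Fin d → ℂ)) i =>
        FP m (c.j a i) (c.u a p.2 i) (b i)) ⁻¹' {l | ∀ i, l i ≠ 0}) := by
      refine (continuousOn_pi.2 h1).isOpen_inter_preimage (isOpen_univ.prod (c.chart a).isOpen) ?_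
      rw [setOf_forall]
      exact isOpen_iInter_of_finite fun i => isOpen_ne_fun (continuous_apply i) continuous_const
    have h3 := ContinuousOn.isOpen_inter_preimage (f := fun p => (p.2, fun i =>
      p.1 (i, b i) / FP m (c.j a i) (c.u a p.2 i) (b i))) (continuousOn_snd.prodMk
      (continuousOn_pi.2 fun i => ((continuous_apply (i, b i)).comp continuous_fst).continuousOn.div
        ((h1 i).mono inter_subset_left) fun p hp => (by exact hp.2 i))) h2 ho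
    have h4 := ((PC.chart_prod Cone_id (c.chart a)).opn _
      (inter_subset_left.trans inter_subset_left) h3).preimage
      (continuous_subtype_val (p := fun p => p ∈ c.cZ))
    have h5 : ∀ y' l', (∀ i, FP m (c.j a i) (c.u a y' i) (b i) ≠ 0) →
        (fun i => c.cφ a (y', l') (i, b i) / FP m (c.j a i) (c.u a y' i) (b i)) = l' :=
      fun y' l' h => funext fun i => mul_div_cancel_right₀ _ (h i)
    refine ⟨_, ?_, h4, (c.cφ a (y, l), y), ⟨⟨⟨trivial, hy⟩, hb⟩, ?_⟩, (cι_val hy).symm⟩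
    · rintro z ⟨⟨w, y'⟩, ⟨⟨⟨-, h6⟩, h7⟩, h8⟩, h9⟩
      obtain ⟨l', e1, e2⟩ := cZ_chart h6 (z := z) (congrArg Prod.snd h9).symm
      have e3 : w = c.cφ a (y', l') := (congrArg Prod.fst h9).trans e1
      subst e3
      exact ⟨(y', l'), (congrArg (fun t => (y', t) ∈ W) (h5 y' l' h7)).mp h8, e2⟩
    · exact (congrArg (fun t => (y, t) ∈ W) (h5 y l hb)).mpr hp

theorem imm_cφ (a : c.J) : ∀ p ∈ c.cU a, Function.Injective (fderiv ℂ (c.cφ a) p) := by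
  rintro ⟨y, l⟩ ⟨hy, hl⟩
  have h1 := (c.an a y hy).differentiableAt.hasFDerivAt
  have h2 : HasFDerivAt (fun q : (Fin d → ℂ) × (ι → ℂ) => (c.u a q.1, q.2))
      (((fderiv ℂ (c.u a) y).comp (ContinuousLinearMap.fst ℂ _ _)).prod
        (ContinuousLinearMap.snd ℂ _ _)) (y, l) :=
    (h1.comp (y, l) hasFDerivAt_fst).prodMk hasFDerivAt_snd
  have h3 := (analytic_cn (c.j a) (c.u a y, l) ⟨c.mem a y hy, trivial⟩).differentiableAt.hasFDerivAt
  have h4 : HasFDerivAt (c.cφ a) _ (y, l) := HasFDerivAt.comp (y, l)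
    (f := fun q : (Fin d → ℂ) × (ι → ℂ) => (c.u a q.1, q.2)) h3 h2
  rw [h4.fderiv, injective_iff_map_eq_zero]
  rintro ⟨dy, dl⟩ h
  have h5 : dcn (c.j a) (c.u a y) l (fderiv ℂ (c.u a) y dy) dl = 0 :=
    (fderiv_cn (c.mem a y hy) _ _).symm.trans h
  obtain ⟨h6, h7⟩ := dcn_eq_zero (c.mem a y hy) hl h5
  exact Prod.ext ((injective_iff_map_eq_zero _).1 (c.imm a y hy) dy h6) h7

theorem good_iff {z : c.cZ} :
    (∃ a, z ∈ c.cι a '' c.cU a) ↔ (∃ a, z.1.2 ∈ c.e a '' c.U a) ∧ Nz z.1.1 := by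
  constructor
  · rintro ⟨a, p, hp, rfl⟩
    rw [cι_val hp.1]
    exact ⟨⟨a, p.1, hp.1, rfl⟩, (ov_cn (c.mem a _ hp.1) hp.2).nz⟩
  · rintro ⟨⟨a, y, hy, e⟩, h⟩
    obtain ⟨l, e1, e2⟩ := cZ_chart hy e.symm
    rw [e1] at h
    exact ⟨a, (y, l), ⟨hy, Cone_ne h⟩, e2⟩

theorem small_cι : Thin (finrank ℂ ((Fin d → ℂ) × (ι → ℂ)))
    ((fun z : c.cZ => z.1.1) '' {z | ∀ a, z ∉ c.cι a '' c.cU a}) := by
  classical
  have r1 : finrank ℂ ((Fin d → ℂ) × (ι → ℂ)) = d + finrank ℂ (ι → ℂ) := by simp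
  have t1 := thin_iUnion fun j : ι → FI m => ((c.thin j).prod_param (φ := id) (U := univ)
    (P := ι → ℂ) analyticOnNhd_id).image (g := fun p => cn j p.1 p.2)
      ((analytic_cn j).mono fun p hp => ⟨hp.1.1, trivial⟩)
  have t2 := thin_iUnion fun s : c.J × ι => thin_of_param (m := d + finrank ℂ (ι → ℂ))
    (P := (Fin d → ℂ) × ({i // i ≠ s.2} → ℂ)) (U := c.U s.1 ×ˢ univ)
    (φ := fun p => c.cφ s.1 (p.1, fun i => if h : i ≠ s.2 then p.2 ⟨i, h⟩ else 0))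
    (by simpa using Fintype.card_pos_iff.2 ⟨s.2⟩) fun p hp =>
      AnalyticAt.comp (f := fun p : (Fin d → ℂ) × ({i // i ≠ s.2} → ℂ) =>
        (p.1, fun i => if h : i ≠ s.2 then p.2 ⟨i, h⟩ else 0)) (an_cφ s.1 _ ⟨hp.1, trivial⟩)
        (analyticAt_fst.prod (analyticAt_pi_iff.2 fun i => by
          split_ifs with h
          · exact analyticAt_pi_iff.1 analyticAt_snd _
          · exact analyticAt_const))
  rw [r1]
  refine (t1.union t2).mono ?_ le_rfl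
  rintro _ ⟨z, hz, rfl⟩
  by_cases h : ∃ a, z.1.2 ∈ c.e a '' c.U a
  · obtain ⟨a, y, hy, e⟩ := h
    obtain ⟨l, e1, e2⟩ := cZ_chart hy e.symm
    obtain ⟨i, hi⟩ : ∃ i, l i = 0 := by
      by_contra h1
      exact hz a ⟨(y, l), ⟨hy, fun i hi => h1 ⟨i, hi⟩⟩, e2⟩
    refine Or.inr (mem_iUnion.2 ⟨(a, i), (y, fun k => l k.1), ⟨hy, trivial⟩, ?_⟩)
    have e3 : (fun k => if h : k ≠ i then l k else 0) = l := funext fun k => by
      split_ifs with h
      · rfl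
      · rw [not_not.1 h, hi]
    exact (congrArg (fun t => c.cφ a (y, t)) e3).trans e1.symm
  · obtain ⟨j, u, hu, l, e1, e2⟩ := z.2
    exact Or.inl (mem_iUnion.2 ⟨j, (u, l), ⟨⟨hu, z.1.2, fun a ha => h ⟨a, ha⟩, e1⟩,
      l, trivial, rfl⟩, e2.symm⟩)

variable (c)

/-- the cone -/
def cone : PChain (ι × Fin 3 → ℂ) ((Fin d → ℂ) × (ι → ℂ)) where
  Z := c.cZ
  t2 := inferInstanceAs (T2Space {p : (ι × Fin 3 → ℂ) × c.Z // p ∈ c.cZ})
  F z := z.1.1
  proper := isProperMap_fst_of_compactSpace.comp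
    (Cone_closed.preimage (continuous_id.prodMap c.cont)).isProperMap_subtypeVal
  J := c.J
  U := c.cU
  ι := c.cι
  φ := c.cφ
  chart := chart_cι
  an a := (an_cφ a).mono fun _ hp => ⟨hp.1, trivial⟩
  lift _ _ hp := congrArg Prod.fst (cι_val hp.1)
  imm := imm_cφ
  small := small_cι

end CC

theorem CC.exists_cone {m : ℕ} [NeZero m] {ι : Type} [Fintype ι] {d : ℕ} (c : CC m ι d) :
    ∃ p : PChain (ι × Fin 3 → ℂ) ((Fin d → ℂ) × (ι → ℂ)), p.F '' p.good = c.gd ∧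
      (∀ w, Nz w → (w ∈ range p.F ↔ ∃ z, Ov (c.π z) w)) ∧
      ∀ l : ι → ℂ, (∀ i, l i ≠ 0) → ∀ w ∈ p.F '' p.goodᶜ, tsm l w ∈ p.F '' p.goodᶜ := by
  refine ⟨c.cone, Subset.antisymm ?_ ?_, fun w hw => ⟨?_, ?_⟩, ?_⟩
  · rintro _ ⟨z, hz, rfl⟩
    obtain ⟨a, p, hp, rfl⟩ := mem_iUnion.1 hz
    exact ⟨a, p.1, hp.1, p.2, hp.2, c.cone.lift a p hp⟩
  · rintro _ ⟨a, y, hy, l, hl, rfl⟩
    exact ⟨c.cι a (y, l), mem_iUnion.2 ⟨a, (y, l), ⟨hy, hl⟩, rfl⟩, c.cone.lift a (y, l) ⟨hy, hl⟩⟩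
  · rintro ⟨z, rfl⟩
    obtain ⟨j, u, hu, l, e1, e2⟩ := z.2
    exact ⟨z.1.2, j, u, hu, l, Cone_ne (e2 ▸ hw : Nz (cn j u l)), e1, e2⟩
  · rintro ⟨z, j, u, hu, l, -, e1, e2⟩
    exact ⟨⟨(w, z), j, u, hu, l, e1, e2⟩, rfl⟩
  · rintro l - _ ⟨z, hz, rfl⟩
    obtain ⟨j, u, hu, l', e1, e2⟩ := z.2
    refine ⟨⟨(tsm l z.1.1, z.1.2), j, u, hu, l * l', e1, by rw [← tsm_cn, ← e2]⟩, fun h => ?_, rfl⟩
    obtain ⟨h1, h2⟩ := CC.good_iff.1 (mem_iUnion.1 h)
    exact hz (mem_iUnion.2 (CC.good_iff.2 ⟨h1, fun i =>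
      (h2 i).imp fun b hb => right_ne_zero_of_mul hb⟩))

end Pool.Agent.Tate
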