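import Pool.Agent.P.MP_2ce3e7_ag.DefsK

/-! Shared definitions of the project. -/

set_option autoImplicit false

noncomputable section

namespace Pool.Agent.Tate

open MvPolynomial TensorProduct

section Ring
variable {k ι σ Γ : Type} [CommRing k]

/-- the ideal of the power of the Fermat curve -/
def Fer (m : ℕ) (k ι : Type) [CommRing k] : Ideal (S k ι) := Ideal.span (Set.range (fer m k))

/-- homogeneous of multidegree `d` -/
abbrev Hg (f : S k ι) (d : ι → ℤ) : Prop := f.IsWeightedHomogeneous wt d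

/-- homogeneous component -/
abbrev cmp (d : ι → ℤ) : S k ι →ₗ[k] S k ι := weightedHomogeneousComponent wt d

/-- graded ideals for the weight `w` -/
def GrW [AddCommMonoid Γ] (w : σ → Γ) (J : Ideal (MvPolynomial σ k)) : Prop :=
  ∀ d, ∀ f ∈ J, weightedHomogeneousComponent w d f ∈ J

/-- multigraded ideals -/
abbrev GrI (J : Ideal (S k ι)) : Prop := GrW wt J

/-- the largest graded ideal inside `J` -/
def core [AddCommMonoid Γ] (w : σ → Γ) (J : Ideal (MvPolynomial σ k)) : Ideal (MvPolynomial σ k) :=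
  Ideal.span {f | f ∈ J ∧ ∃ d, f.IsWeightedHomogeneous w d}

/-- extension of the contraction of `p` to the polynomials in the variables from `U` -/
def extc (U : Set σ) (p : Ideal (MvPolynomial σ k)) : Ideal (MvPolynomial σ k) :=
  Ideal.span {f | f ∈ p ∧ f ∈ supported k U}

/-- irrelevant monomials -/
def mono (k : Type) [CommRing k] [Fintype ι] (α : ι → Fin 3) : S k ι := ∏ i, X (i, α i)

/-- the ideal has no zero in the power of the projective plane -/
def Irr [Fintype ι] (J : Ideal (S k ι)) : Prop := ∀ α, ∃ N : ℕ, mono k α ^ N ∈ J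

/-- diagonal substitution -/
def sc (c : σ → k) : MvPolynomial σ k →ₐ[k] MvPolynomial σ k := aeval fun v => C (c v) * X v

/-- renaming of the factors -/
def rn {κ : Type} (f : ι → κ) : S k ι →ₐ[k] S k κ := rename (Prod.map f id)

/-- proportional families modulo the Fermat equations -/
def Prp (m : ℕ) {A : Type} (u g : A → S k ι) : Prop := ∀ a b, u a * g b - u b * g a ∈ Fer m k ι

/-- the entries of the families in `U` have no common zero on the power of the curve -/
def Suff (m : ℕ) [Fintype ι] {A : Type} (U : Set (A → S k ι)) : Prop :=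
  Irr (Ideal.span {f | ∃ u ∈ U, ∃ a, f = u a} ⊔ Fer m k ι)

/-- a homogeneous family that generates an invertible ideal sheaf -/
structure Inv (m : ℕ) [Fintype ι] {A : Type} (g : A → S k ι) (δ : ι → ℤ) : Prop where
  hom : ∀ a, Hg (g a) δ
  ne : ∃ b, g b ∉ Fer m k ι
  suff : Suff m {u | Prp m u g}

/-- the same over the integers, uniformly in the field -/
structure IntInv (m : ℕ) [Fintype ι] {A : Type} (g : A → S ℤ ι) (δ : ι → ℤ) : Prop where
  hom : ∀ a, Hg (g a) δ
  ne : ∀ (K : Type) [Field K], (m : K) ≠ 0 → ∃ b, map (Int.castRingHom K) (g b) ∉ Fer m K ι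
  suff : ∀ (K : Type) [Field K], (m : K) ≠ 0 →
    Suff m ((fun u a => map (Int.castRingHom K) (u a)) '' {u | Prp m u g})

/-- the degree of the minors -/
def dm (i j : ι) : ι → ℤ := wt (i, 0) + wt (j, 0)

/-- the family generating the product of the ideals of the diagonals of pairs of factors -/
def gT (k : Type) [CommRing k] {I : Type} (α β : I → ι) (T : Finset I) (a : I → Fin 3) : S k ι :=
  ∏ i ∈ T, minor k (α i) (β i) (a i)

/-- monomial substitution -/
def phi {κ : Type} (τ : ι → κ) (c : ι × Fin 3 → k) (q : ι → ℕ) : S k ι →ₐ[k] S k κ :=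
  aeval fun v => C (c v) * X (τ v.1, v.2) ^ q v.1

/-- the ideal of the diagonal of the square of the curve -/
def PD0 (m : ℕ) (k : Type) [CommRing k] : Ideal (S k (Unit ⊕ Unit)) :=
  core wt ((Fer m k Unit).comap (rn fun _ => ()))

end Ring

section Points
variable {K ι σ : Type} [Field K]

/-- all blocks are nonzero -/
def Nz (x : ι × Fin 3 → K) : Prop := ∀ i, ∃ j, x (i, j) ≠ 0

/-- torus action -/
def tsm (l : ι → K) (x : ι × Fin 3 → K) : ι × Fin 3 → K := fun v => l v.1 * x v

/-- affine zero set -/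
def ZS (J : Ideal (MvPolynomial σ K)) : Set (σ → K) := {x | ∀ f ∈ J, eval x f = 0}

/-- points of the power of the projective plane -/
abbrev Pt (K ι : Type) [Field K] : Type := ι → Projectivization K (Fin 3 → K)

/-- homogeneous coordinates -/
def rep (x : Pt K ι) : ι × Fin 3 → K := fun v => (x v.1).rep v.2

/-- projective zero set -/
def VV (J : Ideal (S K ι)) : Set (Pt K ι) := {x | rep x ∈ ZS J}

/-- differential of a polynomial at a point -/
def dif [Fintype σ] (f : MvPolynomial σ K) (x v : σ → K) : K := ∑ w, eval x (pderiv w f) * v w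

/-- Zariski tangent space -/
def Tan [Fintype σ] (J : Ideal (MvPolynomial σ K)) (x : σ → K) : Set (σ → K) :=
  {v | ∀ f ∈ J, dif f x v = 0}

/-- torus directions -/
def TorD (x : ι × Fin 3 → K) : Set (ι × Fin 3 → K) := {v | ∃ l, v = tsm l x}

/-- the ideal is generated by `c` elements near `x` -/
def LocGen (J : Ideal (MvPolynomial σ K)) (c : ℕ) (x : σ → K) : Prop :=
  ∃ (s : MvPolynomial σ K) (f : Fin c → MvPolynomial σ K), eval x s ≠ 0 ∧ (∀ i, f i ∈ J) ∧
    ∀ g ∈ J, s * g ∈ Ideal.span (Set.range f)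

/-- the ideal is generated near `x` by `c` elements with independent differentials -/
def Smo [Fintype σ] (J : Ideal (MvPolynomial σ K)) (c : ℕ) (x : σ → K) : Prop :=
  ∃ (s : MvPolynomial σ K) (f : Fin c → MvPolynomial σ K), eval x s ≠ 0 ∧ (∀ i, f i ∈ J) ∧
    (∀ g ∈ J, s * g ∈ Ideal.span (Set.range f)) ∧
    LinearIndependent K fun i w => eval x (pderiv w (f i))

/-- transversal intersection of two graded ideals -/
structure Transv [Fintype ι] (J J' : Ideal (S K ι)) : Prop where
  fin : (VV J ∩ VV J').Finite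
  loc : ∀ x ∈ VV J ∩ VV J', ∃ c c', c + c' ≤ 3 * Fintype.card ι ∧ LocGen J c (rep x) ∧
    LocGen J' c' (rep x) ∧ Tan J (rep x) ∩ Tan J' (rep x) ⊆ TorD (rep x)

/-- points of the Fermat curve -/
def OnF (m : ℕ) (x : Fin 3 → K) : Prop := x 0 ^ m + x 1 ^ m = x 2 ^ m

end Points

section Chars

/-- characters of the group acting on one factor, and the group itself -/
abbrev Ch (m : ℕ) : Type := ZMod m × ZMod m

/-- nondegenerate characters -/
def Nd {m : ℕ} (a : Ch m) : Prop := a.1 ≠ 0 ∧ a.2 ≠ 0 ∧ a.1 + a.2 ≠ 0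

instance {m : ℕ} (a : Ch m) : Decidable (Nd a) := by unfold Nd; infer_instance

/-- the three exponents of a character -/
def ex3 {m : ℕ} (a : Ch m) : Fin 3 → ZMod m := ![a.1, a.2, -a.1 - a.2]

/-- value of the character `a` at `g` -/
def ch1 {m : ℕ} [NeZero m] (a g : Ch m) : ℂ := ZMod.stdAddChar (a.1 * g.1 + a.2 * g.2)

/-- value of the character `a` at `g`, all factors -/
def ch {m : ℕ} [NeZero m] {ι : Type} [Fintype ι] (a g : ι → Ch m) : ℂ := ∏ i, ch1 (a i) (g i)

/-- balanced families of characters (Hodge condition) -/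
def Bal {m : ℕ} {ι : Type} [Fintype ι] (a : ι → Ch m) : Prop :=
  ∀ t : ℕ, t.Coprime m → 2 * (Finset.univ.filter fun i =>
    ((t : ZMod m) * (a i).1).val + ((t : ZMod m) * (a i).2).val < m).card = Fintype.card ι

/-- primitive roots of unity -/
abbrev Rt (m : ℕ) (k : Type) [Field k] : Type := {z : k // IsPrimitiveRoot z m}

/-- scaling factors of a diagonal automorphism -/
def c3 {m : ℕ} {k ι : Type} [Field k] (ζ : Rt m k) (g : ι → Fin 3 → ZMod m) (v : ι × Fin 3) : k :=
  ζ.1 ^ (g v.1 v.2).val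

/-- the group elements fix the last coordinate -/
def up {m : ℕ} {ι : Type} (g : ι → Ch m) (i : ι) : Fin 3 → ZMod m := ![(g i).1, (g i).2, 0]

open Classical in
/-- power residue character -/
def chr {m : ℕ} [NeZero m] {F : Type} [Field F] [Fintype F] (z : F) (b : ZMod m) (u : F) : ℂ :=
  ∑ t : ZMod m, if u ^ ((Fintype.card F - 1) / m) = z ^ t.val then ZMod.stdAddChar (b * t) else 0

/-- Jacobi sums -/
def Jac {m : ℕ} [NeZero m] {F : Type} [Field F] [Fintype F] (z : F) (a : Ch m) : ℂ :=
  ∑ u : F, chr z a.1 u * chr z a.2 (1 - u)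

end Chars

section Aff
variable {I V : Type*} [Fintype I] [AddCommGroup V] [Module ℂ V]

/-- `h` is eventually the multi-affine function with coefficients `c` -/
def Aff (h : (I → ℤ) → V) (c : Finset I → V) : Prop :=
  ∀ᶠ d in Filter.atTop, h d = ∑ T : Finset I, (∏ l ∈ T, (d l : ℂ)) • c T

end Aff

section Modules
variable {m : ℕ} {k ι κ : Type} [Field k]

/-- graded submodules -/
def Gr (M : GM m k ι) (W : Submodule (S k ι) M.M) : Prop := ∀ d, ∀ x ∈ W, M.π d x ∈ W

/-- annihilator -/
def GM.ann (M : GM m k ι) : Ideal (S k ι) := Module.annihilator (S k ι) M.M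

/-- Hilbert function -/
def hilb (M : GM m k ι) (d : ι → ℤ) : ℕ := Module.finrank k (LinearMap.range (M.π d))

/-- a graded submodule as a graded module -/
def GM.sub [Finite ι] (M : GM m k ι) (W : Submodule (S k ι) M.M) (h : Gr M W) : GM m k ι where
  M := W
  tower := ⟨fun a f x => Subtype.ext (smul_assoc a f x.1)⟩
  fg := inferInstance
  π d := (M.π d).restrict (p := W.restrictScalars k) (q := W.restrictScalars k) (h d)
  π_self d x := Subtype.ext (M.π_self d x)
  π_ne d e x hde := Subtype.ext (M.π_ne d e x hde)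
  sum_π x := by
    obtain ⟨s, hs⟩ := M.sum_π x
    exact ⟨s, Subtype.ext (by rw [Submodule.coe_sum]; exact hs)⟩
  π_X v d x := Subtype.ext (M.π_X v d x)
  fer_smul i x := Subtype.ext (M.fer_smul i x)

/-- projection on a quotient -/
def GM.quoπ (M : GM m k ι) (W : Submodule (S k ι) M.M) (h : Gr M W) (d : ι → ℤ) :
    (M.M ⧸ W) →ₗ[k] (M.M ⧸ W) :=
  Submodule.mapQ (W.restrictScalars k) (W.restrictScalars k) (M.π d) (h d)

theorem GM.quoπ_mk (M : GM m k ι) (W : Submodule (S k ι) M.M) (h : Gr M W) (d : ι → ℤ) (x : M.M) :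
    M.quoπ W h d (W.mkQ x) = W.mkQ (M.π d x) := rfl

/-- the quotient by a graded submodule -/
def GM.quo (M : GM m k ι) (W : Submodule (S k ι) M.M) (h : Gr M W) : GM m k ι where
  M := M.M ⧸ W
  fg := inferInstance
  π := M.quoπ W h
  π_self d x := by
    obtain ⟨x, rfl⟩ := W.mkQ_surjective x
    rw [quoπ_mk, quoπ_mk, M.π_self]
  π_ne d e x hde := by
    obtain ⟨x, rfl⟩ := W.mkQ_surjective x
    rw [quoπ_mk, quoπ_mk, M.π_ne d e x hde, map_zero]
  sum_π x := by
    obtain ⟨x, rfl⟩ := W.mkQ_surjective x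
    obtain ⟨s, hs⟩ := M.sum_π x
    exact ⟨s, by simp only [quoπ_mk]; rw [← map_sum, hs]⟩
  π_X v d x := by
    obtain ⟨x, rfl⟩ := W.mkQ_surjective x
    rw [← map_smul, quoπ_mk, quoπ_mk, M.π_X, map_smul]
  fer_smul i x := by
    obtain ⟨x, rfl⟩ := W.mkQ_surjective x
    rw [← map_smul, M.fer_smul, map_zero]

/-- shift of the grading -/
def GM.sh (n : ι → ℤ) (M : GM m k ι) : GM m k ι where
  M := M.M
  fg := M.fg
  π d := M.π (d + n)
  π_self d x := M.π_self _ x
  π_ne d e x hde := M.π_ne _ _ x fun h => hde (add_right_cancel h)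
  sum_π x := by
    classical
    obtain ⟨s, hs⟩ := M.sum_π x
    refine ⟨s.image fun d => d - n, ?_⟩
    rw [Finset.sum_image fun a _ b _ h => sub_left_injective h]
    simpa only [sub_add_cancel] using hs
  π_X v d x := by rw [add_right_comm]; exact M.π_X v _ x
  fer_smul := M.fer_smul

/-- a finite power of a module -/
def GM.pw (A : Type) [Finite A] (M : GM m k ι) : GM m k ι where
  M := A → M.M
  fg := inferInstance
  π d := (M.π d).compLeft A
  π_self d x := funext fun a => M.π_self d (x a)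
  π_ne d e x hde := funext fun a => M.π_ne d e (x a) hde
  sum_π x := by
    classical
    cases nonempty_fintype A
    choose s hs using fun a => M.sum_π (x a)
    refine ⟨Finset.univ.biUnion s, funext fun a => ?_⟩
    rw [Finset.sum_apply]
    refine ((Finset.sum_subset (Finset.subset_biUnion_of_mem s (Finset.mem_univ a))
      fun d _ hd => ?_).symm).trans (hs a)
    change M.π d (x a) = 0
    rw [← hs a, map_sum]
    exact Finset.sum_eq_zero fun e he => M.π_ne d e _ fun h => hd (h ▸ he)
  π_X v d x := funext fun a => M.π_X v d (x a)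
  fer_smul i x := funext fun a => M.fer_smul i (x a)

/-- inclusion of a graded submodule -/
def GM.subι [Finite ι] (M : GM m k ι) (W : Submodule (S k ι) M.M) (h : Gr M W) :
    Hom (M.sub W h) M := ⟨W.subtype, fun _ _ => rfl⟩

/-- projection to a quotient -/
def GM.quop (M : GM m k ι) (W : Submodule (S k ι) M.M) (h : Gr M W) :
    Hom M (M.quo W h) := ⟨W.mkQ, fun _ _ => rfl⟩

/-- relations of the complexified Grothendieck group -/
def relC (m : ℕ) (k ι : Type) [Field k] : Submodule ℂ (GM m k ι →₀ ℂ) :=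
  Submodule.span ℂ {z | (∃ (M N P : GM m k ι) (f : Hom M N) (g : Hom N P), SES f g ∧
      z = Finsupp.single N 1 - Finsupp.single M 1 - Finsupp.single P 1) ∨
    ∃ M : GM m k ι, Tors M ∧ z = Finsupp.single M 1}

/-- the complexified Grothendieck group -/
def G (m : ℕ) (k ι : Type) [Field k] : Type 1 := (GM m k ι →₀ ℂ) ⧸ relC m k ι

instance : AddCommGroup (G m k ι) := inferInstanceAs (AddCommGroup (_ ⧸ relC m k ι))
instance : Module ℂ (G m k ι) := inferInstanceAs (Module ℂ (_ ⧸ relC m k ι))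

/-- the class of a module -/
def cls (M : GM m k ι) : G m k ι := (relC m k ι).mkQ (Finsupp.single M 1)

/-- `M` is the cyclic module `S/J` shifted by `n`, with generator `x` -/
structure IsCyc (J : Ideal (S k ι)) (n : ι → ℤ) (M : GM m k ι) (x : M.M) : Prop where
  deg : M.π (-n) x = x
  gen : ∀ y, ∃ f : S k ι, y = f • x
  ann : ∀ f : S k ι, f • x = 0 ↔ f ∈ J

open Classical in
/-- the class of `S/J` shifted by `n` -/
def cy (m : ℕ) (J : Ideal (S k ι)) (n : ι → ℤ) : G m k ι :=
  if h : ∃ M : GM m k ι, ∃ x, IsCyc J n M x then cls h.choose else 0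

/-- a linear map kills the classes of the modules annihilated by `J` -/
def Kil {V : Type*} [AddCommGroup V] [Module ℂ V] (e : G m k ι →ₗ[ℂ] V) (J : Ideal (S k ι)) :
    Prop := ∀ M : GM m k ι, J ≤ M.ann → e (cls M) = 0

/-- data of a monomial substitution -/
structure PD (m : ℕ) (k ι κ : Type) [Field k] where
  τ : ι → κ
  inj : Function.Injective τ
  c : ι × Fin 3 → k
  c_ne : ∀ v, c v ≠ 0
  q : ι → ℕ
  q_pos : ∀ i, 0 < q i
  o : κ → ℤ
  fer : ∀ i, phi τ c q (fer m k i) ∈ Fer m k κ

/-- the ring map -/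
def PD.φ (D : PD m k ι κ) : S k ι →ₐ[k] S k κ := phi D.τ D.c D.q

/-- the map on degrees -/
def PD.val (D : PD m k ι κ) (e : ι → ℤ) : κ → ℤ :=
  D.o + Function.extend D.τ (fun i => D.q i * e i) 0

/-- `N` is the part of `M` in the degrees `D.val e`, with the action through `D.φ` -/
structure IsPull (D : PD m k ι κ) (M : GM m k κ) (N : GM m k ι) (j : N.M →ₗ[k] M.M) : Prop where
  inj : Function.Injective j
  smul : ∀ (f : S k ι) x, j (f • x) = D.φ f • j x
  π : ∀ e x, j (N.π e x) = M.π (D.val e) (j x)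
  surj : ∀ e x, M.π (D.val e) x ∈ LinearMap.range j

/-- `P` is the external product of `M` and `N` -/
structure IsBox (M : GM m k ι) (N : GM m k κ) (P : GM m k (ι ⊕ κ))
    (j : M.M ⊗[k] N.M ≃ₗ[k] P.M) : Prop where
  smul : ∀ (f : S k (ι ⊕ κ)) t, j (boxHom M N f t) = f • j t
  π : ∀ d t, P.π d (j t) = j (TensorProduct.map (M.π (d ∘ Sum.inl)) (N.π (d ∘ Sum.inr)) t)

/-- `T` is, modulo torsion, the twist of `M` by the ideal generated by `g` -/
structure IsL [Fintype ι] {A : Type} [Fintype A] [DecidableEq A] (g : A → S k ι) (δ : ι → ℤ)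
    (M T : GM m k ι) (p : (A → M.M) →ₗ[S k ι] T.M) : Prop where
  surj : Function.Surjective p
  π : ∀ d ξ, T.π d (p ξ) = p fun a => M.π (d - δ) (ξ a)
  ker : ∃ U : Set (A → S k ι), Suff m U ∧ ∀ u ∈ U, Prp m u g ∧
    (∀ ξ, p ξ = 0 → ∑ a, u a • ξ a = 0) ∧
    ∀ a b x, p (Pi.single a (u b • x)) = p (Pi.single b (u a • x))

variable {k' : Type} [Field k']

/-- `N` is the base change of `M` -/
structure IsBC [Algebra k k'] (M : GM m k ι) (N : GM m k' ι) (j : k' ⊗[k] M.M ≃ₗ[k'] N.M) :
    Prop where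
  smul : ∀ (f : S k ι) x, j (1 ⊗ₜ (f • x)) = map (algebraMap k k') f • j (1 ⊗ₜ x)
  π : ∀ d x, N.π d (j (1 ⊗ₜ x)) = j (1 ⊗ₜ M.π d x)

/-- `N` is `M` with the scalars restricted along `s` -/
structure IsRes (s : k →+* k') (M : GM m k' ι) (N : GM m k ι) (j : N.M ≃+ M.M) : Prop where
  smul : ∀ (f : S k ι) x, j (f • x) = map s f • j x
  π : ∀ d x, j (N.π d x) = M.π d (j x)

end Modules

end Pool.Agent.Tate
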