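import Pool.Agent.P.MP_2ce3e7_ag.ADefs
import Pool.Agent.P.MP_2ce3e7_ag.Avg

/-! Averaging over the characters leaves one term. -/

set_option autoImplicit false

noncomputable section

namespace Pool.Agent.Tate

open Pool.Agent.Weil

namespace Expd

variable {m : ℕ} [NeZero m] {ι : Type} [Fintype ι] [DecidableEq ι]

/-- the sum of the labels in every block -/
def sg (B : Finset (IX m ι)) : ι → Ch m :=
  fun i => ∑ a : {a : Ch m // Nd a}, if (i, a) ∈ B then a.1 else 0

omit [Fintype ι] [DecidableEq ι] in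
theorem ch1_sum {α : Type} (s : Finset α) (f : α → Ch m) (g : Ch m) :
    ch1 (∑ a ∈ s, f a) g = ∏ a ∈ s, ch1 (f a) g := by
  classical
  induction s using Finset.induction_on with
  | empty => simp [ch1_zero]
  | insert a s ha ih => rw [Finset.sum_insert ha, Finset.prod_insert ha, ch1_add_left, ih]

theorem prod_eq (B : Finset (IX m ι)) (g : ι → Ch m) :
    ∏ j : IX m ι, (if j ∈ B then ch1 j.2.1 (g j.1) else 1) = ch (sg B) g := by
  rw [Fintype.prod_prod_type, ch]
  refine Finset.prod_congr rfl fun i _ => ?_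
  rw [sg, ch1_sum]
  refine Finset.prod_congr rfl fun a _ => ?_
  split_ifs
  · rfl
  · rw [ch1_zero]

omit [Fintype ι] in
theorem exists_mem {B : Finset (IX m ι)} {b : ι → Ch m} (hb : ∀ i, Nd (b i)) (h : sg B = b)
    (i : ι) : ∃ a, (i, a) ∈ B := by
  by_contra hc
  push Not at hc
  have h0 : b i = 0 := by
    rw [← h, sg]
    exact Finset.sum_eq_zero fun a _ => if_neg (hc a)
  exact (hb i).1 (by rw [h0]; rfl)

theorem card_key {B : Finset (IX m ι)} {b : ι → Ch m} (hb : ∀ i, Nd (b i)) (h : sg B = b) :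
    Fintype.card ι ≤ B.card ∧
      (B.card ≤ Fintype.card ι → ∀ j : IX m ι, j ∈ B ↔ j.2.1 = b j.1) := by
  choose f hf using exists_mem hb h
  have hinj : Function.Injective (fun i => ((i, f i) : IX m ι)) :=
    fun i i' e => congrArg Prod.fst e
  have hsub : Finset.univ.image (fun i => ((i, f i) : IX m ι)) ⊆ B := by
    intro j hj
    obtain ⟨i, -, rfl⟩ := Finset.mem_image.1 hj
    exact hf i
  have hcard : (Finset.univ.image (fun i => ((i, f i) : IX m ι))).card = Fintype.card ι := by
    rw [Finset.card_image_of_injective _ hinj, Finset.card_univ]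
  refine ⟨hcard ▸ Finset.card_le_card hsub, fun hle => ?_⟩
  have heq : Finset.univ.image (fun i => ((i, f i) : IX m ι)) = B :=
    Finset.eq_of_subset_of_card_le hsub (hcard ▸ hle)
  have hmem : ∀ i a, (i, a) ∈ B ↔ a = f i := by
    intro i a
    rw [← heq, Finset.mem_image]
    constructor
    · rintro ⟨i', -, e⟩
      obtain ⟨e1, e2⟩ := Prod.ext_iff.1 e
      simp only at e1 e2
      subst e1
      exact e2.symm
    · rintro rfl
      exact ⟨i, Finset.mem_univ _, rfl⟩
  have hfb : ∀ i, (f i).1 = b i := by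
    intro i
    rw [← h, sg, Finset.sum_eq_single (f i)]
    · rw [if_pos (hf i)]
    · intro a _ ha
      exact if_neg fun hc => ha ((hmem i a).1 hc)
    · intro hc
      exact absurd (Finset.mem_univ _) hc
  rintro ⟨i, a⟩
  rw [hmem]
  constructor
  · rintro rfl
    exact hfb i
  · intro e
    exact Subtype.ext (e.trans (hfb i).symm)

omit [Fintype ι] in
theorem sg_of {B : Finset (IX m ι)} {b : ι → Ch m} (hb : ∀ i, Nd (b i))
    (h : ∀ j : IX m ι, j ∈ B ↔ j.2.1 = b j.1) : sg B = b := by
  funext i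
  rw [sg, Finset.sum_eq_single (⟨b i, hb i⟩ : {a : Ch m // Nd a})]
  · rw [if_pos ((h (i, ⟨b i, hb i⟩)).2 rfl)]
  · intro a _ ha
    exact if_neg fun hc => ha (Subtype.ext ((h (i, a)).1 hc))
  · intro hc
    exact absurd (Finset.mem_univ _) hc

theorem expand_one {M : Type} [AddCommGroup M] [Module ℂ M]
    (T : M [⋀^(IX m ι ⊕ IX m ι)]→ₗ[ℂ] ℂ) (r : IX m ι → M) (r' : IX m ι ⊕ IX m ι → M)
    (g g' : ι → Ch m) :
    T (Sum.elim (fun j => ch1 j.2.1 (g j.1) • r j) (fun j => ch1 j.2.1 (g' j.1) • r j) + r') =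
      ∑ A : Finset (IX m ι ⊕ IX m ι), ch (sg A.toLeft) g * ch (sg A.toRight) g' *
        T (fun j => if j ∈ A then Sum.elim r r j else r' j) := by
  rw [AlternatingMap.map_add_univ]
  refine Finset.sum_congr rfl fun A _ => ?_
  have e : ∀ [∀ j, Decidable (j ∈ A)], A.piecewise (Sum.elim (fun j : IX m ι => ch1 j.2.1 (g j.1) • r j)
      (fun j : IX m ι => ch1 j.2.1 (g' j.1) • r j)) r' =
      fun j => (Sum.elim (fun j : IX m ι => if j ∈ A.toLeft then ch1 j.2.1 (g j.1) else 1)
        (fun j : IX m ι => if j ∈ A.toRight then ch1 j.2.1 (g' j.1) else 1) j : ℂ) •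
        (@ite _ (j ∈ A) (Finset.decidableMem _ _) (Sum.elim r r j) (r' j)) := by
    intro _
    funext j
    rcases j with j | j
    · by_cases hj : Sum.inl j ∈ A
      · rw [Finset.piecewise_eq_of_mem _ _ _ hj]
        simp [hj]
      · rw [Finset.piecewise_eq_of_notMem _ _ _ hj]
        simp [hj]
    · by_cases hj : Sum.inr j ∈ A
      · rw [Finset.piecewise_eq_of_mem _ _ _ hj]
        simp [hj]
      · rw [Finset.piecewise_eq_of_notMem _ _ _ hj]
        simp [hj]
  rw [@e (_), AlternatingMap.map_smul_univ, Fintype.prod_sum_type, smul_eq_mul]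
  simp only [Sum.elim_inl, Sum.elim_inr]
  rw [prod_eq, prod_eq]

end Expd

open Expd in
theorem expand {m : ℕ} [NeZero m] {ι M : Type} [Fintype ι] [DecidableEq ι] [AddCommGroup M]
    [Module ℂ M] (T : M [⋀^(IX m ι ⊕ IX m ι)]→ₗ[ℂ] ℂ) (r : IX m ι → M) (r' : IX m ι ⊕ IX m ι → M)
    (hz : ∀ A : Finset (IX m ι ⊕ IX m ι), 2 * Fintype.card ι < A.card →
      T (fun j => if j ∈ A then Sum.elim r r j else r' j) = 0)
    {b : ι → Ch m} (hb : ∀ i, Nd (b i)) :
    ∑ g : ι → Ch m, ∑ g' : ι → Ch m, ch (-b) g * ch b g' *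
      T (Sum.elim (fun j => ch1 j.2.1 (g j.1) • r j) (fun j => ch1 j.2.1 (g' j.1) • r j) + r') =
    (((m : ℂ) ^ 2) ^ Fintype.card ι) ^ 2 *
      T (Sum.elim (fun j => if j.2.1 = b j.1 then r j else r' (Sum.inl j))
        fun j => if j.2.1 = -b j.1 then r j else r' (Sum.inr j)) := by
  have hb' : ∀ i, Nd ((-b) i) := fun i => (hb i).neg
  have h1 : ∑ g : ι → Ch m, ∑ g' : ι → Ch m, ch (-b) g * ch b g' *
      T (Sum.elim (fun j => ch1 j.2.1 (g j.1) • r j) (fun j => ch1 j.2.1 (g' j.1) • r j) + r') =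
      ∑ A : Finset (IX m ι ⊕ IX m ι), (∑ g, ch (-b + sg A.toLeft) g) *
        (∑ g', ch (b + sg A.toRight) g') *
        T (fun j => if j ∈ A then Sum.elim r r j else r' j) := by
    simp only [expand_one, Finset.mul_sum, Finset.sum_mul, ch_add_left]
    rw [Finset.sum_congr rfl fun g _ => Finset.sum_comm, Finset.sum_comm]
    refine Finset.sum_congr rfl fun A _ => ?_
    rw [Finset.sum_comm]
    refine Finset.sum_congr rfl fun g _ => Finset.sum_congr rfl fun g' _ => ?_
    ring
  rw [h1]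
  let A0 : Finset (IX m ι ⊕ IX m ι) :=
    (Finset.univ.filter fun j : IX m ι => j.2.1 = b j.1).disjSum
      (Finset.univ.filter fun j : IX m ι => j.2.1 = -b j.1)
  have hl : ∀ j : IX m ι, Sum.inl j ∈ A0 ↔ j.2.1 = b j.1 := fun j => by simp [A0]
  have hr : ∀ j : IX m ι, Sum.inr j ∈ A0 ↔ j.2.1 = -b j.1 := fun j => by simp [A0]
  rw [Finset.sum_eq_single A0]
  · have e1 : sg A0.toLeft = b := sg_of hb fun j => by rw [Finset.mem_toLeft, hl]
    have e2 : sg A0.toRight = -b := sg_of hb' fun j => by rw [Finset.mem_toRight, hr]; rfl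
    rw [e1, e2, sum_ch, sum_ch, if_pos (neg_add_cancel b), if_pos (add_neg_cancel b), ← sq]
    have e3 : (fun j => if j ∈ A0 then Sum.elim r r j else r' j) =
        Sum.elim (fun j : IX m ι => if j.2.1 = b j.1 then r j else r' (Sum.inl j))
          fun j : IX m ι => if j.2.1 = -b j.1 then r j else r' (Sum.inr j) := by
      funext j
      rcases j with j | j
      · simp only [Sum.elim_inl, hl]
      · simp only [Sum.elim_inr, hr]
    rw [e3]
  · intro A _ hA
    rw [sum_ch, sum_ch]
    by_cases e1 : -b + sg A.toLeft = 0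
    swap
    · rw [if_neg e1, zero_mul, zero_mul]
    by_cases e2 : b + sg A.toRight = 0
    swap
    · rw [if_neg e2, mul_zero, zero_mul]
    have e1' : sg A.toLeft = b := by
      have := neg_add_eq_zero.1 e1
      exact this.symm
    have e2' : sg A.toRight = -b := (neg_eq_of_add_eq_zero_right e2).symm
    obtain ⟨c1, k1⟩ := card_key hb e1'
    obtain ⟨c2, k2⟩ := card_key hb' e2'
    have hc : A.toLeft.card + A.toRight.card = A.card := Finset.card_toLeft_add_card_toRight
    by_cases hcard : 2 * Fintype.card ι < A.card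
    · rw [hz A hcard, mul_zero]
    · exfalso
      apply hA
      have k1' := k1 (by omega)
      have k2' := k2 (by omega)
      ext j
      rcases j with j | j
      · rw [hl, ← k1' j, Finset.mem_toLeft]
      · rw [hr, ← Finset.mem_toRight, k2' j]
        rfl
  · intro hc
    exact absurd (Finset.mem_univ _) hc

end Pool.Agent.Tate
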