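import Pool.Agent.P.MP_2ce3e7_ag.Xch
import Pool.Agent.P.MP_2ce3e7_ag.Area
import Pool.Agent.P.MP_2ce3e7_ag.Expand

/-! The averaged class of the triple product does not vanish. -/

set_option autoImplicit false

noncomputable section

namespace Pool.Agent.Tate

open MeasureTheory Set Module Filter Topology Pool.Agent.Weil Pool.Agent.Ferm

theorem countA_equiv {m : ℕ} {ι ρ : Type} {b : ι → Ch m} (hb : ∀ i, Nd (b i))
    (e : ρ ≃ {j : IX m ι // j.2.1 ≠ b j.1}) : ∃ A : ι ⊕ ρ ≃ IX m ι,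
      (∀ i, A (Sum.inl i) = (i, ⟨b i, hb i⟩)) ∧ ∀ a, A (Sum.inr a) = (e a).1 := by
  classical
  let f : ι ≃ {j : IX m ι // j.2.1 = b j.1} :=
    { toFun := fun i => ⟨(i, ⟨b i, hb i⟩), rfl⟩
      invFun := fun j => j.1.1
      left_inv := fun _ => rfl
      right_inv := fun j => Subtype.ext (Prod.ext rfl (Subtype.ext j.2.symm)) }
  exact ⟨(Equiv.sumCongr f e).trans (Equiv.sumCompl fun j : IX m ι => j.2.1 = b j.1),
    fun _ => rfl, fun _ => rfl⟩

theorem countA_neg {V ρ : Type} [NormedAddCommGroup V] [NormedSpace ℂ V] [Fintype ρ]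
    (T : Alt V ρ) {x : ρ → Cov V} (h : T x ≠ 0) : T (fun a => -x a) ≠ 0 := by
  have h1 := T.map_smul_univ (fun _ => (-1 : ℂ)) x
  simp only [neg_smul, one_smul] at h1
  rw [h1]
  exact smul_ne_zero (Finset.prod_ne_zero_iff.2 fun _ _ => by norm_num) h

theorem countA_fst {V W P P' : Type} [NormedAddCommGroup V] [NormedSpace ℂ V]
    [NormedAddCommGroup W] [NormedSpace ℂ W] [NormedAddCommGroup P] [NormedSpace ℂ P]
    [NormedAddCommGroup P'] [NormedSpace ℂ P'] {f : P → V} {g : P' → W} {u p : P × P'}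
    (hf : DifferentiableAt ℂ f u.1) (hg : DifferentiableAt ℂ g u.2) (hp : p.1 = 0) :
    (fderiv ℂ (Prod.map f g) u p).1 = 0 := by
  rw [(HasFDerivAt.prodMap u hf.hasFDerivAt hg.hasFDerivAt).fderiv]
  simp [hp]

theorem CD.exists_class3 {m : ℕ} [NeZero m] (D : CD m) {ι : Type} [Fintype ι] [DecidableEq ι]
    {b : ι → Ch m} (hb : ∀ i, Nd (b i)) {s : ℕ} {c c' : Chain (VS m ι) (LL m ι) (Fin s → ℂ)}
    {T T' : Alt (VS m ι) (Fin s ⊕ Fin s)} (hT : c.IsClass volume (frame s) T)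
    (hT' : c'.IsClass volume (frame s) T') (e : Fin s ⊕ Fin s ≃ {j : IX m ι // j.2.1 ≠ b j.1})
    (e' : Fin s ⊕ Fin s ≃ {j : IX m ι // j.2.1 ≠ (-b) j.1})
    (h : T (fun a => cov (e a).1.1 (e a).1.2.1) ≠ 0)
    (h' : T' (fun a => cov (e' a).1.1 (e' a).1.2.1) ≠ 0) :
    ∃ (μ : Measure ((ι → ℂ) × (Fin s → ℂ) × (Fin s → ℂ))) (_ : μ.IsAddHaarMeasure)
      (ε : Basis (IX m ι ⊕ IX m ι) ℝ ((ι → ℂ) × (Fin s → ℂ) × (Fin s → ℂ)))
      (R : Alt (VS m ι × VS m ι × VS m ι) (IX m ι ⊕ IX m ι)), (D.X3 c c').IsClass μ ε R ∧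
      ∑ g, ∑ g', ch (-b) g * ch b g' * R (fun r => pull (q3 g g') (zeta r)) ≠ 0 := by
  obtain ⟨εs, hεs⟩ := exists_frame_basis s
  rw [← hεs] at hT hT'
  obtain ⟨S2, hS2, eS2⟩ := cprod_class volume volume (isLat_LL m ι) (isLat_LL m ι) c c' εs εs hT hT'
  obtain ⟨ε1, T1, hT1, h1⟩ := D.exists_class hb
  have i1 : ((volume : Measure (Fin s → ℂ)).prod (volume : Measure (Fin s → ℂ))).IsAddHaarMeasure :=
    Measure.prod.instIsAddHaarMeasure _ _
  have i2 : ((volume : Measure (ι → ℂ)).prod ((volume : Measure (Fin s → ℂ)).prod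
      (volume : Measure (Fin s → ℂ)))).IsAddHaarMeasure := Measure.prod.instIsAddHaarMeasure _ _
  obtain ⟨S3, hS3, eS3⟩ := cprod_class (volume : Measure (ι → ℂ))
    ((volume : Measure (Fin s → ℂ)).prod (volume : Measure (Fin s → ℂ))) (isLat_LL m ι)
    ((isLat_LL m ι).prod (isLat_LL m ι)) (D.Xc ι) (cprod (isLat_LL m ι) (isLat_LL m ι) c c')
    ε1 (εs.prod εs) hT1 hS2
  have hb' : ∀ i, Nd ((-b) i) := fun i => (hb i).neg
  obtain ⟨A, hA1, hA2⟩ := countA_equiv hb e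
  obtain ⟨A', hA1', hA2'⟩ := countA_equiv hb' e'
  let E := (Equiv.sumSumSumComm ι ι (Fin s ⊕ Fin s) (Fin s ⊕ Fin s)).trans (Equiv.sumCongr A A')
  have hR := SOps.isClass_reindex hS3 E
  refine ⟨_, i2, _, _, hR, ?_⟩
  let r : IX m ι → Cov (VS m ι × VS m ι × VS m ι) := fun j => pull p1 (cov j.1 j.2.1)
  let r' : IX m ι ⊕ IX m ι → Cov (VS m ι × VS m ι × VS m ι) :=
    Sum.elim (fun j => -pull p2 (cov j.1 j.2.1)) fun j => -pull p3 (cov j.1 j.2.1)
  have hq : ∀ g g' : ι → Ch m, (fun x => pull (q3 g g') (zeta x)) =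
      Sum.elim (fun j => ch1 j.2.1 (g j.1) • r j) (fun j => ch1 j.2.1 (g' j.1) • r j) + r' := by
    intro g g'
    funext x
    refine ContinuousLinearMap.ext fun v => ?_
    rcases x with j | j
    · have h2 := DFunLike.congr_fun (pull_dgs g j.1 j.2.1) v.1
      change cov j.1 j.2.1 (dgs g v.1) = ch1 j.2.1 (g j.1) • cov j.1 j.2.1 v.1 at h2
      change cov j.1 j.2.1 (dgs g v.1 - v.2.1) =
        ch1 j.2.1 (g j.1) • cov j.1 j.2.1 v.1 + -cov j.1 j.2.1 v.2.1
      rw [map_sub, h2, sub_eq_add_neg]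
    · have h2 := DFunLike.congr_fun (pull_dgs g' j.1 j.2.1) v.1
      change cov j.1 j.2.1 (dgs g' v.1) = ch1 j.2.1 (g' j.1) • cov j.1 j.2.1 v.1 at h2
      change cov j.1 j.2.1 (dgs g' v.1 - v.2.2) =
        ch1 j.2.1 (g' j.1) • cov j.1 j.2.1 v.1 + -cov j.1 j.2.1 v.2.2
      rw [map_sub, h2, sub_eq_add_neg]
  have hz : ∀ B : Finset (IX m ι ⊕ IX m ι), 2 * Fintype.card ι < B.card →
      (S3.domDomCongr E) (fun j => if j ∈ B then Sum.elim r r j else r' j) = 0 := by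
    intro B hB
    refine class_eq_zero hR B
      (LinearMap.ker (LinearMap.fst ℝ (ι → ℂ) ((Fin s → ℂ) × (Fin s → ℂ)))) ?_ _ ?_
    · have h2 := LinearMap.finrank_range_add_finrank_ker
        (LinearMap.fst ℝ (ι → ℂ) ((Fin s → ℂ) × (Fin s → ℂ)))
      have h3 := Submodule.finrank_le
        (LinearMap.range (LinearMap.fst ℝ (ι → ℂ) ((Fin s → ℂ) × (Fin s → ℂ))))
      have h4 : finrank ℝ (ι → ℂ) = 2 * Fintype.card ι := by
        rw [finrank_pi_fintype, Finset.sum_const, Complex.finrank_real_complex, smul_eq_mul,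
          Finset.card_univ, mul_comm]
      omega
    · intro j u hu a ha p hp
      have h2 : (fderiv ℂ (Prod.map ((D.Xc ι).φ j.1)
          ((cprod (isLat_LL m ι) (isLat_LL m ι) c c').φ j.2)) u p).1 = 0 :=
        countA_fst ((D.Xc ι).an j.1 u.1 hu.1).differentiableAt
          ((cprod (isLat_LL m ι) (isLat_LL m ι) c c').an j.2 u.2 hu.2).differentiableAt hp
      rw [if_pos ha]
      rcases a with a | a
      · exact (congrArg (cov a.1 a.2.1) h2).trans (map_zero _)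
      · exact (congrArg (cov a.1 a.2.1) h2).trans (map_zero _)
  simp only [hq]
  rw [expand (S3.domDomCongr E) r r' hz hb]
  refine mul_ne_zero (pow_ne_zero _ (pow_ne_zero _ (pow_ne_zero _
    (Nat.cast_ne_zero.2 (NeZero.ne m))))) ?_
  have key : (Sum.elim (fun j : IX m ι => if j.2.1 = b j.1 then r j else r' (Sum.inl j))
      fun j : IX m ι => if j.2.1 = -b j.1 then r j else r' (Sum.inr j)) ∘ E =
      Sum.elim (fun a => pull (ContinuousLinearMap.fst ℂ (VS m ι) (VS m ι × VS m ι))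
        (Sum.elim (fun i => cov i (b i)) (fun i => cov i (-b i)) a))
      (fun x => pull (ContinuousLinearMap.snd ℂ (VS m ι) (VS m ι × VS m ι))
        (Sum.elim (fun a => pull (ContinuousLinearMap.fst ℂ (VS m ι) (VS m ι))
            (-cov (e a).1.1 (e a).1.2.1))
          (fun a => pull (ContinuousLinearMap.snd ℂ (VS m ι) (VS m ι))
            (-cov (e' a).1.1 (e' a).1.2.1)) x)) := by
    funext x
    rcases x with (i | i) | (a | a)
    · change (if (A (Sum.inl i)).2.1 = b (A (Sum.inl i)).1 then r (A (Sum.inl i))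
        else r' (Sum.inl (A (Sum.inl i)))) = _
      rw [hA1, if_pos rfl]
      rfl
    · change (if (A' (Sum.inl i)).2.1 = -b (A' (Sum.inl i)).1 then r (A' (Sum.inl i))
        else r' (Sum.inr (A' (Sum.inl i)))) = _
      rw [hA1']
      exact (if_pos rfl).trans rfl
    · change (if (A (Sum.inr a)).2.1 = b (A (Sum.inr a)).1 then r (A (Sum.inr a))
        else r' (Sum.inl (A (Sum.inr a)))) = _
      rw [hA2, if_neg (e a).2]
      rfl
    · change (if (A' (Sum.inr a)).2.1 = -b (A' (Sum.inr a)).1 then r (A' (Sum.inr a))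
        else r' (Sum.inr (A' (Sum.inr a)))) = _
      rw [hA2']
      exact (if_neg (e' a).2).trans rfl
  rw [AlternatingMap.domDomCongr_apply, key, eS3, eS2]
  exact mul_ne_zero h1 (mul_ne_zero (countA_neg T h) (countA_neg T' h'))

end Pool.Agent.Tate
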