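import Pool.Agent.P.MP_2ce3e7_ag.Avg

/-! Jacobi sums: norm and Stickelberger congruence. -/

set_option autoImplicit false

noncomputable section

namespace Pool.Agent.Tate

variable {m : ℕ} [NeZero m]

section Aux
variable {F : Type} [Field F] [Fintype F] {z : F}

theorem jac_mul_div (hz : IsPrimitiveRoot z m) :
    (Fintype.card F - 1) / m * m = Fintype.card F - 1 :=
  Nat.div_mul_cancel (hz.dvd_of_pow_eq_one _
    (FiniteField.pow_card_sub_one_eq_one z (hz.ne_zero (NeZero.ne m))))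

theorem jac_div_ne (hz : IsPrimitiveRoot z m) : (Fintype.card F - 1) / m ≠ 0 := by
  intro h
  have h1 := jac_mul_div hz
  have h2 : 1 < Fintype.card F := Fintype.one_lt_card
  rw [h, zero_mul] at h1
  omega

omit [Fintype F] [NeZero m] in
theorem jac_pow_mod (hz : IsPrimitiveRoot z m) (n : ℕ) : z ^ (n % m) = z ^ n := by
  conv_rhs => rw [← Nat.mod_add_div n m, pow_add, pow_mul, hz.pow_eq_one, one_pow, mul_one]

omit [Fintype F] in
theorem jac_pow_add (hz : IsPrimitiveRoot z m) (s t : ZMod m) :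
    z ^ (s + t).val = z ^ s.val * z ^ t.val := by
  rw [ZMod.val_add, jac_pow_mod hz, pow_add]

omit [Fintype F] in
theorem jac_pow_mul (hz : IsPrimitiveRoot z m) (s t : ZMod m) :
    z ^ (s * t).val = (z ^ s.val) ^ t.val := by
  rw [ZMod.val_mul, jac_pow_mod hz, pow_mul]

theorem jac_ind (hz : IsPrimitiveRoot z m) {u : F} (hu : u ≠ 0) :
    ∃ t : ZMod m, u ^ ((Fintype.card F - 1) / m) = z ^ t.val := by
  have h : (u ^ ((Fintype.card F - 1) / m)) ^ m = 1 := by
    rw [← pow_mul, jac_mul_div hz, FiniteField.pow_card_sub_one_eq_one u hu]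
  obtain ⟨i, hi, e⟩ := hz.eq_pow_of_pow_eq_one h
  exact ⟨i, by rw [ZMod.val_cast_of_lt hi, e]⟩

theorem jac_sum_of {R : Type*} [AddCommMonoid R] (hz : IsPrimitiveRoot z m) (φ : ZMod m → R)
    {u : F} {t : ZMod m} (h : u ^ ((Fintype.card F - 1) / m) = z ^ t.val) :
    (open Classical in
      ∑ s : ZMod m, if u ^ ((Fintype.card F - 1) / m) = z ^ s.val then φ s else 0) = φ t := by
  rw [Finset.sum_eq_single t, if_pos h]
  · intro s _ hs
    rw [if_neg]
    intro h'
    exact hs (ZMod.val_injective m (hz.pow_inj (ZMod.val_lt s) (ZMod.val_lt t) (h'.symm.trans h)))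
  · simp

theorem jac_sum_zero {R : Type*} [AddCommMonoid R] (hz : IsPrimitiveRoot z m) (φ : ZMod m → R) :
    (open Classical in
      ∑ s : ZMod m, if (0 : F) ^ ((Fintype.card F - 1) / m) = z ^ s.val then φ s else 0) = 0 := by
  refine Finset.sum_eq_zero fun s _ => if_neg ?_
  rw [zero_pow (jac_div_ne hz)]
  exact (pow_ne_zero _ (hz.ne_zero (NeZero.ne m))).symm

theorem jac_exists {R : Type*} [AddCommMonoid R] (hz : IsPrimitiveRoot z m) (φ : ZMod m → R) :
    ∃ C : F → R, C 0 = 0 ∧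
      ∀ u (t : ZMod m), u ^ ((Fintype.card F - 1) / m) = z ^ t.val → C u = φ t :=
  ⟨fun u => (open Classical in
      ∑ s : ZMod m, if u ^ ((Fintype.card F - 1) / m) = z ^ s.val then φ s else 0),
    jac_sum_zero hz φ, fun _ _ h => jac_sum_of hz φ h⟩

theorem jac_chr_of (hz : IsPrimitiveRoot z m) (b : ZMod m) {u : F} {t : ZMod m}
    (h : u ^ ((Fintype.card F - 1) / m) = z ^ t.val) : chr z b u = ZMod.stdAddChar (b * t) :=
  jac_sum_of hz (fun s => ZMod.stdAddChar (b * s)) h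

theorem jac_chr_zero (hz : IsPrimitiveRoot z m) (b : ZMod m) : chr z b 0 = 0 :=
  jac_sum_zero hz (fun s => ZMod.stdAddChar (b * s))

/-- the power residue character -/
def jacM (hz : IsPrimitiveRoot z m) (b : ZMod m) : MulChar F ℂ where
  toFun := chr z b
  map_one' := by
    rw [jac_chr_of hz b (t := 0) (by simp), mul_zero, AddChar.map_zero_eq_one]
  map_mul' u v := by
    rcases eq_or_ne u 0 with rfl | hu
    · rw [zero_mul, jac_chr_zero hz, zero_mul]
    rcases eq_or_ne v 0 with rfl | hv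
    · rw [mul_zero, jac_chr_zero hz, mul_zero]
    obtain ⟨s, hs⟩ := jac_ind hz hu
    obtain ⟨t, ht⟩ := jac_ind hz hv
    rw [jac_chr_of hz b hs, jac_chr_of hz b ht, jac_chr_of hz b (t := s + t)
      (by rw [mul_pow, hs, ht, jac_pow_add hz]), mul_add, AddChar.map_add_eq_mul]
  map_nonunit' u hu := by
    have : u = 0 := by simpa using hu
    rw [this, jac_chr_zero hz]

theorem jacM_apply (hz : IsPrimitiveRoot z m) (b : ZMod m) (u : F) : jacM hz b u = chr z b u := rfl

theorem jacM_add (hz : IsPrimitiveRoot z m) (b c : ZMod m) :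
    jacM hz b * jacM hz c = jacM hz (b + c) := by
  refine MulChar.ext fun u => ?_
  obtain ⟨t, ht⟩ := jac_ind hz u.ne_zero
  rw [MulChar.coeToFun_mul, Pi.mul_apply, jacM_apply, jacM_apply, jacM_apply, jac_chr_of hz _ ht,
    jac_chr_of hz _ ht, jac_chr_of hz _ ht, add_mul, AddChar.map_add_eq_mul]

theorem jacM_zero (hz : IsPrimitiveRoot z m) : jacM hz 0 = 1 := by
  refine MulChar.ext fun u => ?_
  obtain ⟨t, ht⟩ := jac_ind hz u.ne_zero
  rw [jacM_apply, jac_chr_of hz _ ht, zero_mul, AddChar.map_zero_eq_one, MulChar.one_apply_coe]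

theorem jacM_neg (hz : IsPrimitiveRoot z m) (b : ZMod m) : jacM hz (-b) = (jacM hz b)⁻¹ :=
  eq_inv_of_mul_eq_one_left (by rw [jacM_add, neg_add_cancel, jacM_zero])

theorem jac_gen : ∃ g : F, IsPrimitiveRoot g (Fintype.card F - 1) := by
  classical
  obtain ⟨g, hg⟩ := IsCyclic.exists_generator (α := Fˣ)
  have h := IsPrimitiveRoot.orderOf g
  rw [orderOf_eq_card_of_forall_mem_zpowers hg, Nat.card_eq_fintype_card,
    Fintype.card_units] at h
  exact ⟨g, IsPrimitiveRoot.coe_units_iff.2 h⟩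

theorem jacM_ne (hz : IsPrimitiveRoot z m) {b : ZMod m} (hb : b ≠ 0) : jacM hz b ≠ 1 := by
  intro h
  obtain ⟨g, hg⟩ := jac_gen (F := F)
  have h2 : 1 < Fintype.card F := Fintype.one_lt_card
  have hg' := hg.pow (by omega) (jac_mul_div hz).symm
  obtain ⟨i, -, hi⟩ := hg'.eq_pow_of_pow_eq_one hz.pow_eq_one
  have h3 : (g ^ i) ^ ((Fintype.card F - 1) / m) = z ^ (1 : ZMod m).val := by
    rw [ZMod.val_one_eq_one_mod, jac_pow_mod hz, pow_one, ← hi, ← pow_mul, ← pow_mul, mul_comm]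
  have h4 := jac_chr_of hz b h3
  have hu : IsUnit (g ^ i) := (pow_ne_zero _ (hg.ne_zero (by omega))).isUnit
  rw [← jacM_apply hz, h, MulChar.one_apply hu, mul_one] at h4
  exact hb (ZMod.injective_stdAddChar (by rw [← h4, AddChar.map_zero_eq_one]))

theorem jac_conj (hz : IsPrimitiveRoot z m) (a : Ch m) :
    Jac z (-a) = (starRingEnd ℂ) (Jac z a) := by
  have h : ∀ (b : ZMod m) (u : F), chr z (-b) u = (starRingEnd ℂ) (chr z b u) := by
    intro b u
    rcases eq_or_ne u 0 with rfl | hu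
    · rw [jac_chr_zero hz, jac_chr_zero hz, map_zero]
    · obtain ⟨t, ht⟩ := jac_ind hz hu
      rw [jac_chr_of hz _ ht, jac_chr_of hz _ ht, neg_mul, AddChar.map_neg_eq_conj]
  simp only [Jac, map_sum, map_mul, Prod.fst_neg, Prod.snd_neg, h]

end Aux

theorem Jac_mul {F : Type} [Field F] [Fintype F] {z : F} (hz : IsPrimitiveRoot z m) {a : Ch m}
    (ha : Nd a) : Jac z a * Jac z (-a) = Fintype.card F := by
  classical
  have hc : ringChar ℂ ≠ ringChar F := by
    rw [ringChar.eq_zero]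
    exact (CharP.ringChar_ne_zero_of_finite F).symm
  have h := jacobiSum_mul_jacobiSum_inv hc (jacM_ne hz ha.1) (jacM_ne hz ha.2.1)
    (by rw [jacM_add]; exact jacM_ne hz ha.2.2)
  rw [← jacM_neg, ← jacM_neg] at h
  exact h

theorem norm_Jac {F : Type} [Field F] [Fintype F] {z : F} (hz : IsPrimitiveRoot z m) {a : Ch m}
    (ha : Nd a) : ‖Jac z a‖ ^ 2 = Fintype.card F := by
  have h := Jac_mul hz ha
  rw [jac_conj hz, Complex.mul_conj, Complex.normSq_eq_norm_sq] at h
  exact_mod_cast h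

variable {p : ℕ} [Fact p.Prime]

open Polynomial in
/-- values at `e(1/m)` of integer polynomials that do not vanish at `y` -/
def JacGood (m : ℕ) [NeZero m] (y : ZMod p) (x : ℂ) : Prop :=
  ∃ P : ℤ[X], aeval (ZMod.stdAddChar (1 : ZMod m) : ℂ) P = x ∧ aeval y P ≠ 0

theorem JacGood.mul {y : ZMod p} {x x' : ℂ} (h : JacGood m y x) (h' : JacGood m y x') :
    JacGood m y (x * x') := by
  obtain ⟨P, h1, h2⟩ := h
  obtain ⟨P', h1', h2'⟩ := h'
  exact ⟨P * P', by rw [map_mul, h1, h1'], by rw [map_mul]; exact mul_ne_zero h2 h2'⟩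

theorem JacGood.neg {y : ZMod p} {x : ℂ} (h : JacGood m y x) : JacGood m y (-x) := by
  obtain ⟨P, h1, h2⟩ := h
  exact ⟨-P, by rw [map_neg, h1], by rw [map_neg]; exact neg_ne_zero.2 h2⟩

theorem jacGood_one (y : ZMod p) : JacGood m y 1 := ⟨1, map_one _, by simp⟩

theorem JacGood.pow {y : ZMod p} {x : ℂ} (h : JacGood m y x) (n : ℕ) : JacGood m y (x ^ n) := by
  induction n with
  | zero => simpa using jacGood_one y
  | succ n ih => rw [pow_succ]; exact ih.mul h

theorem jacGood_prod {y : ZMod p} {ι : Type} (A : Finset ι) {x : ι → ℂ}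
    (h : ∀ i ∈ A, JacGood m y (x i)) : JacGood m y (∏ i ∈ A, x i) :=
  Finset.prod_induction _ _ (fun _ _ => JacGood.mul) (jacGood_one y) h

theorem jac_std (b : ZMod m) :
    (ZMod.stdAddChar (1 : ZMod m) : ℂ) ^ b.val = ZMod.stdAddChar b := by
  rw [← AddChar.map_nsmul_eq_pow, nsmul_eq_mul, mul_one, ZMod.natCast_zmod_val]

theorem jac_std_prim : IsPrimitiveRoot (ZMod.stdAddChar (1 : ZMod m) : ℂ) m := by
  refine IsPrimitiveRoot.mk ?_ fun l hl => ?_
  · rw [← AddChar.map_nsmul_eq_pow, nsmul_eq_mul, mul_one, ZMod.natCast_self,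
      AddChar.map_zero_eq_one]
  · rw [← AddChar.map_nsmul_eq_pow, nsmul_eq_mul, mul_one,
      ← AddChar.map_zero_eq_one (ZMod.stdAddChar (N := m))] at hl
    exact (ZMod.natCast_eq_zero_iff l m).1 (ZMod.injective_stdAddChar hl)

open Polynomial in
theorem jacGood_not {y : ZMod p} (hy : IsPrimitiveRoot y m) {x x' : ℂ} (h : JacGood m y x)
    (h' : JacGood m y x') {k : ℕ} (hk : k ≠ 0) : x ≠ (p : ℂ) ^ k * x' := by
  intro e
  obtain ⟨P, h1, h2⟩ := h
  obtain ⟨P', h1', -⟩ := h'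
  have hm : 0 < m := Nat.pos_of_ne_zero (NeZero.ne m)
  have h3 : aeval (ZMod.stdAddChar (1 : ZMod m) : ℂ) (P - (p : ℤ[X]) ^ k * P') = 0 := by
    rw [map_sub, map_mul, map_pow, map_natCast, h1, h1', e, sub_self]
  have h4 := minpoly.isIntegrallyClosed_dvd (jac_std_prim.isIntegral hm) h3
  rw [← cyclotomic_eq_minpoly jac_std_prim hm] at h4
  have h5 : aeval y (cyclotomic m ℤ) = 0 := by
    rw [aeval_def, ← eval_map, algebraMap_int_eq, map_cyclotomic_int]
    exact hy.isRoot_cyclotomic hm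
  have h6 := aeval_eq_zero_of_dvd_aeval_eq_zero h4 h5
  rw [map_sub, map_mul, map_pow, map_natCast, ZMod.natCast_self, zero_pow hk, zero_mul,
    sub_zero] at h6
  exact h2 h6

theorem jac_sum_pow (k : ℕ) (hk : k ≠ 0) :
    ∑ u : ZMod p, u ^ k = if p - 1 ∣ k then -1 else 0 := by
  classical
  have h := FiniteField.sum_pow_units (ZMod p) k
  rw [ZMod.card] at h
  rw [← h, ← Finset.sum_erase (a := 0) _ (zero_pow hk)]
  refine (Finset.sum_bij (fun (x : (ZMod p)ˣ) _ => (x : ZMod p)) ?_ ?_ ?_ ?_).symm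
  · intro x _
    simp
  · intro x _ y _ e
    exact Units.ext e
  · intro u hu
    exact ⟨Units.mk0 u (Finset.ne_of_mem_erase hu), Finset.mem_univ _, rfl⟩
  · intro x _
    rfl

theorem jac_binom {A B : ℕ} (hA0 : A ≠ 0) (hA : A < p - 1) (hB : B < p - 1)
    (hAB : p - 1 ≤ A + B) : ∑ u : ZMod p, u ^ A * (1 - u) ^ B ≠ 0 := by
  have e : ∀ u : ZMod p, u ^ A * (1 - u) ^ B =
      ∑ j ∈ Finset.range (B + 1), (-1) ^ j * (B.choose j : ZMod p) * u ^ (A + j) := by
    intro u
    rw [sub_eq_neg_add, add_pow, Finset.mul_sum]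
    refine Finset.sum_congr rfl fun j _ => ?_
    rw [neg_pow u, pow_add]
    ring
  simp only [e]
  rw [Finset.sum_comm]
  simp only [← Finset.mul_sum]
  rw [Finset.sum_eq_single (p - 1 - A)]
  · rw [jac_sum_pow _ (by omega), if_pos (by rw [Nat.add_sub_cancel' hA.le])]
    refine mul_ne_zero (mul_ne_zero (pow_ne_zero _ (by simp)) ?_) (by simp)
    rw [Ne, ZMod.natCast_eq_zero_iff]
    intro hd
    have h1 : p ∣ B.factorial := by
      rw [← Nat.choose_mul_factorial_mul_factorial (show p - 1 - A ≤ B by omega), mul_assoc]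
      exact hd.mul_right _
    have := (Fact.out : p.Prime).dvd_factorial.1 h1
    omega
  · intro j hj hne
    rw [jac_sum_pow _ (by omega), if_neg, mul_zero]
    rintro ⟨c, hc⟩
    have hj' := Finset.mem_range.1 hj
    rcases c with _ | _ | c
    · omega
    · omega
    · have : (p - 1) * (c + 1 + 1) = (p - 1) * c + 2 * (p - 1) := by ring
      omega
  · intro h
    exact absurd (Finset.mem_range.2 (by omega)) h

open Polynomial in
theorem jacGood_Jac {z : ZMod p} (hz : IsPrimitiveRoot z m) (t : ℕ) {a : Ch m}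
    (h : m < ((t : ZMod m) * a.1).val + ((t : ZMod m) * a.2).val) :
    JacGood m (z ^ t) (Jac z a) := by
  choose C hC0 hC using fun b : ZMod m => jac_exists hz fun s => (X : ℤ[X]) ^ (b * s).val
  have hN := jac_mul_div hz
  have hN0 := jac_div_ne hz
  have h1 : ∀ b u, aeval (ZMod.stdAddChar (1 : ZMod m) : ℂ) (C b u) = chr z b u := by
    intro b u
    rcases eq_or_ne u 0 with rfl | hu
    · rw [hC0, jac_chr_zero hz, map_zero]
    · obtain ⟨s, hs⟩ := jac_ind hz hu
      rw [hC b u s hs, jac_chr_of hz b hs, map_pow, aeval_X, jac_std]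
  have h2 : ∀ b u, ((t : ZMod m) * b).val ≠ 0 → aeval (z ^ t) (C b u) =
      u ^ ((Fintype.card (ZMod p) - 1) / m * ((t : ZMod m) * b).val) := by
    intro b u hb
    rcases eq_or_ne u 0 with rfl | hu
    · rw [hC0, map_zero, zero_pow (mul_ne_zero hN0 hb)]
    · obtain ⟨s, hs⟩ := jac_ind hz hu
      rw [hC b u s hs, map_pow, aeval_X, pow_mul u, hs,
        ← jac_pow_mul hz, ← jac_pow_mod hz t, ← ZMod.val_natCast, ← jac_pow_mul hz]
      congr 2
      ring
  have l1 := ZMod.val_lt ((t : ZMod m) * a.1)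
  have l2 := ZMod.val_lt ((t : ZMod m) * a.2)
  refine ⟨∑ u, C a.1 u * C a.2 (1 - u), by simp only [map_sum, map_mul, h1, Jac], ?_⟩
  simp only [map_sum, map_mul, h2 a.1 _ (by omega), h2 a.2 _ (by omega)]
  rw [ZMod.card] at hN hN0 ⊢
  have hN1 : 0 < (p - 1) / m := Nat.pos_of_ne_zero hN0
  refine jac_binom (mul_ne_zero hN0 (by omega)) ?_ ?_ ?_
  · conv_rhs => rw [← hN]
    exact Nat.mul_lt_mul_of_pos_left l1 hN1
  · conv_rhs => rw [← hN]
    exact Nat.mul_lt_mul_of_pos_left l2 hN1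
  · conv_lhs => rw [← hN]
    rw [← mul_add]
    exact Nat.mul_le_mul_left _ h.le

theorem bal_of_pow {z : ZMod p} (hz : IsPrimitiveRoot z m) {ι : Type} [Fintype ι] {a : ι → Ch m}
    (ha : ∀ i, Nd (a i)) {f : ℕ} (hf : f ≠ 0) {e : ℤ}
    (h : (∏ i, -Jac z (a i)) ^ f = (p : ℂ) ^ e) : Bal a := by
  classical
  intro t ht
  have hp : (p : ℂ) ≠ 0 := Nat.cast_ne_zero.2 (Fact.out : p.Prime).ne_zero
  have hu : ∀ b : ZMod m, b ≠ 0 → (t : ZMod m) * b ≠ 0 := fun b hb h0 =>
    hb (((ZMod.isUnit_iff_coprime t m).2 ht).mul_right_eq_zero.1 h0)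
  set c : ι → Prop := fun i => ((t : ZMod m) * (a i).1).val + ((t : ZMod m) * (a i).2).val < m
    with hc
  have hU : JacGood m (z ^ t) ((∏ i ∈ Finset.univ.filter c, -Jac z (-a i)) ^ f) := by
    refine (jacGood_prod _ fun i hi => (jacGood_Jac hz t ?_).neg).pow f
    have h0 : c i := (Finset.mem_filter.1 hi).2
    have l1 := ZMod.val_lt ((t : ZMod m) * (a i).1)
    have l2 := ZMod.val_lt ((t : ZMod m) * (a i).2)
    simp only [hc] at h0
    rw [Prod.fst_neg, Prod.snd_neg, mul_neg, mul_neg, ZMod.neg_val, ZMod.neg_val,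
      if_neg (hu _ (ha i).1), if_neg (hu _ (ha i).2.1)]
    omega
  have hV : JacGood m (z ^ t) ((∏ i ∈ Finset.univ.filter fun i => ¬ c i, -Jac z (a i)) ^ f) := by
    refine (jacGood_prod _ fun i hi => (jacGood_Jac hz t ?_).neg).pow f
    have h0 : ¬ c i := (Finset.mem_filter.1 hi).2
    simp only [hc, not_lt] at h0
    refine lt_of_le_of_ne h0 fun e => hu _ (ha i).2.2 ?_
    rw [mul_add, ← ZMod.natCast_zmod_val ((t : ZMod m) * (a i).1),
      ← ZMod.natCast_zmod_val ((t : ZMod m) * (a i).2), ← Nat.cast_add, ← e, ZMod.natCast_self]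
  have hy := hz.pow_of_coprime t ht
  have key : (p : ℂ) ^ ((Finset.univ.filter c).card * f) *
      (∏ i ∈ Finset.univ.filter fun i => ¬ c i, -Jac z (a i)) ^ f =
      (p : ℂ) ^ e * (∏ i ∈ Finset.univ.filter c, -Jac z (-a i)) ^ f := by
    rw [← h, ← Finset.prod_filter_mul_prod_filter_not Finset.univ c, pow_mul, ← mul_pow,
      ← mul_pow, mul_right_comm, ← Finset.prod_mul_distrib, ← Finset.prod_const]
    congr 2
    refine Finset.prod_congr rfl fun i _ => ?_
    rw [neg_mul_neg, Jac_mul hz (ha i), ZMod.card]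
  have he : e = ((Finset.univ.filter c).card * f : ℕ) := by
    generalize (Finset.univ.filter c).card * f = n at key
    rcases lt_trichotomy e n with h1 | h1 | h1
    · obtain ⟨k, hk⟩ := Int.eq_ofNat_of_zero_le (sub_nonneg.2 h1.le)
      refine absurd ?_ (jacGood_not hy hU hV (k := k) (by omega))
      refine mul_left_cancel₀ (zpow_ne_zero e hp) ?_
      rw [← key, ← mul_assoc, ← zpow_natCast _ k, ← zpow_add₀ hp, ← hk, add_sub_cancel,
        zpow_natCast]
    · exact h1
    · obtain ⟨k, hk⟩ := Int.eq_ofNat_of_zero_le (sub_nonneg.2 h1.le)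
      refine absurd ?_ (jacGood_not hy hV hU (k := k) (by omega))
      refine mul_left_cancel₀ (pow_ne_zero n hp) ?_
      rw [key, ← mul_assoc, ← zpow_natCast _ k, ← zpow_natCast _ n, ← zpow_add₀ hp, ← hk,
        add_sub_cancel]
  rw [he, zpow_natCast] at h
  have h2 := congrArg (fun x : ℂ => ‖x‖ ^ 2) h
  simp only [norm_pow, norm_prod, norm_neg, Complex.norm_natCast] at h2
  rw [← pow_mul, mul_comm f, pow_mul, ← Finset.prod_pow] at h2
  simp only [norm_Jac hz (ha _), ZMod.card, Finset.prod_const, Finset.card_univ, ← pow_mul] at h2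
  have hp1 : (1 : ℝ) < p := by exact_mod_cast (Fact.out : p.Prime).one_lt
  have h3 := pow_right_injective₀ (zero_lt_one.trans hp1) hp1.ne' h2
  refine Nat.eq_of_mul_eq_mul_right (Nat.pos_of_ne_zero hf) ?_
  rw [h3]
  ring

theorem Bal.even {ι : Type} [Fintype ι] {a : ι → Ch m} (h : Bal a) : Even (Fintype.card ι) := by
  have := h 1 (Nat.coprime_one_left m)
  exact ⟨_, this.symm.trans (two_mul _)⟩

theorem exists_root (h : p ≡ 1 [MOD m]) : ∃ z : ZMod p, IsPrimitiveRoot z m := by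
  obtain ⟨g, hg⟩ := jac_gen (F := ZMod p)
  rw [ZMod.card] at hg
  have h2 := (Fact.out : p.Prime).one_lt
  obtain ⟨c, hc⟩ := (Nat.modEq_iff_dvd' h2.le).1 h.symm
  exact ⟨g ^ c, hg.pow (by omega) (hc.trans (mul_comm _ _))⟩

omit [NeZero m] in
theorem root_of_rt {F k : Type} [Field F] [Field k] (φ : F →+* k) {z : F} {ζ : Rt m k}
    (h : ζ.1 = φ z) : IsPrimitiveRoot z m := by
  have := ζ.2
  rw [h] at this
  exact this.of_map_of_injective φ.injective

omit [NeZero m] in
theorem exists_rt {F k : Type} [Field F] [Field k] (φ : F →+* k) {z : F}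
    (hz : IsPrimitiveRoot z m) : ∃ ζ : Rt m k, ζ.1 = φ z := by
  exact ⟨⟨φ z, hz.map_of_injective φ.injective⟩, rfl⟩

end Pool.Agent.Tate
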