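import Pool.Agent.P.MP_2ce3e7_ag.St1
import Pool.Agent.P.MP_2ce3e7_ag.Jac

/-! The number of points of the Fermat curve. -/

set_option autoImplicit false

noncomputable section

namespace Pool.Agent.Tate

variable {m : ℕ} [NeZero m] {F F' : Type} [Field F] [Fintype F] [Field F'] {z : F}
  (hz : IsPrimitiveRoot z m) (φ : F →+* F') {s : ℕ}
include hz

theorem hasse_davenport [Fintype F'] (hF : Fintype.card F' = Fintype.card F ^ s) {a : Ch m}
    (ha : Nd a) : -Jac (φ z) a = (-Jac z a) ^ s := by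
  obtain ⟨p, hp⟩ := CharP.exists F
  obtain ⟨e, hpp, he⟩ := FiniteField.card F p
  have : Fact p.Prime := ⟨hpp⟩
  have : CharP F' p := charP_of_injective_ringHom φ.injective p
  obtain ⟨ζ, hζ⟩ := exists_rt φ hz
  have : NeZero (m : F') := ⟨ζ.ne⟩
  have h1 := tr_fr_Da ζ p (RingHom.id F') (z := φ z) hζ (e := e * s)
    (by rw [hF, he, pow_mul]) ha
  have h2 : Da ζ a ∈ E1 ζ (Sum.inl ()) a := P1_mem _ _ _
  rw [fr_single_pow p φ hζ he ha h2 s, map_smul, tr_Da ζ p ha] at h1
  rw [← h1, smul_eq_mul, mul_neg_one, neg_neg]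

include φ in
theorem card_curve [Finite F'] (hF : Nat.card F' = Fintype.card F ^ s) :
    (Nat.card {x : Projectivization F' (Fin 3 → F') // OnF m x.rep} : ℂ) =
      1 + (Fintype.card F : ℂ) ^ s - ∑ a ∈ Finset.univ.filter (Nd (m := m)), (-Jac z a) ^ s := by
  obtain ⟨p, hp⟩ := CharP.exists F
  obtain ⟨e, hpp, he⟩ := FiniteField.card F p
  have : Fact p.Prime := ⟨hpp⟩
  let K := AlgebraicClosure F'
  let ψ : F →+* K := (algebraMap F' K).comp φ
  have : CharP K p := charP_of_injective_ringHom ψ.injective p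
  obtain ⟨ζ, hζ⟩ := exists_rt ψ hz
  have : NeZero (m : K) := ⟨ζ.ne⟩
  have hF' : Nat.card F' = p ^ (e * s) := by rw [hF, he, pow_mul]
  have hQ : 1 < p ^ (e * s) := by
    rw [← hF']
    exact Finite.one_lt_card
  have hs : (e : ℕ) * s ≠ 0 := fun h => by
    rw [h, pow_zero] at hQ
    exact lt_irrefl _ hQ
  have h1 : (p : ZMod m) ^ ((e : ℕ) * s) = 1 := by
    rw [pow_mul, rt_pow ζ p ψ hζ he, one_pow]
  have h2 := tr_fix ζ p 0 (e * s) (Or.inl hs) (fix_finite ζ 0 hQ)
  rw [fix_card ζ p F' hF', Pi.single_zero, tw3_zero, Module.End.one_apply,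
    ← sum_P1 (ζ := ζ) (Sum.inl ()) (Dg m K), map_sum, map_sum] at h2
  have h3 : ∀ a : Ch m,
      tr (fr p (Pi.single (Sum.inl ()) (e * s)) (P1 ζ (Sum.inl ()) a (Dg m K))) =
      (if a = 0 then 1 + (Fintype.card F : ℂ) ^ s else 0) -
        if Nd a then (-Jac z a) ^ s else 0 := by
    intro a
    have h4 : Da ζ a ∈ E1 ζ (Sum.inl ()) a := P1_mem _ _ _
    change tr (fr p (Pi.single (Sum.inl ()) (e * s)) (Da ζ a)) = _
    by_cases ha : Nd a
    · have h0 : a ≠ 0 := fun h => ha.1 (by rw [h]; rfl)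
      rw [fr_single_pow p ψ hζ he ha h4 s, map_smul, tr_Da ζ p ha, if_neg h0, if_pos ha,
        smul_eq_mul, mul_neg_one, zero_sub]
    · by_cases h0 : a = 0
      · rw [if_pos h0, if_neg ha, h0, tr_fr_Da_zero ζ p hs h1, he, sub_zero, add_comm]
        push_cast
        rw [pow_mul]
      · rw [deg_part h0 ha h4, map_zero, map_zero, if_neg h0, if_neg ha, sub_zero]
  rw [← h2, Finset.sum_congr rfl fun a _ => h3 a, Finset.sum_sub_distrib, Finset.sum_filter,
    Finset.sum_ite_eq' Finset.univ (0 : Ch m), if_pos (Finset.mem_univ _)]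

end Pool.Agent.Tate
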