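import Pool.Agent.P.MP_2ce3e7_ag.DT1

/-! The rules for good varieties. -/

set_option linter.unusedSectionVars false
set_option linter.unusedVariables false

open Function Matrix

noncomputable section

namespace Pool.Agent.CXD

variable (k : Type) {Ω : Type} [Field k] [Field Ω] [Algebra k Ω] {α β γ : Type} [Af Ω α] [Af Ω β]
  [Af Ω γ]

/-- `f` is a finite map from `p'` to `p` -/
def Fm0 (p' : β → Prop) (f : β → α) : Prop :=
  ∃ (κ : Type) (_ : Fintype κ) (y : β → κ → Ω) (N : ℕ) (m : α → κ → κ → Ω) (b : α → κ → Ω)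
    (r : α × (κ → Ω) → β), 1 < N ∧ Pm k y ∧ Pm k m ∧ Pm k b ∧ Pm k r ∧
    (∀ z, p' z → ∀ i, y z i ^ N = ∑ j, m (f z) i j * y z j + b (f z) i) ∧
    ∀ z, p' z → r (f z, y z) = z

/-- there is a finite surjective map from `p'` to `p` -/
def Fi (p' : β → Prop) (p : α → Prop) : Prop :=
  ∃ f : β → α, Pm k f ∧ Fm0 k p' f ∧ ∀ x, p x ↔ ∃ z, p' z ∧ f z = x

/-- classes of varieties -/
structure Gp (Ω : Type) where
  good : ∀ {α : Type} [Af Ω α], (α → Prop) → Prop

/-- the rules -/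
structure Ax (G : Gp Ω) : Prop where
  split : ∀ {α : Type} [Af Ω α] {p : α → Prop} {g : α → Ω}, Cz k p → Pm k g →
    G.good (fun x => p x ∧ g x = 0) → G.good (fun y : α × Ω => p y.1 ∧ g y.1 * y.2 = 1) → G.good p
  fin : ∀ {α β : Type} [Af Ω α] [Af Ω β] {p' : β → Prop} {p : α → Prop}, Fi k p' p → G.good p' →
    G.good p
  line : ∀ {α : Type} [Af Ω α] {p : α → Prop}, G.good p → G.good fun y : α × Ω => p y.1
  opn : ∀ {α : Type} [Af Ω α] {p : α → Prop} {g : α → Ω}, Pm k g → G.good p →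
    G.good fun y : α × Ω => p y.1 ∧ g y.1 * y.2 = 1
  blow : ∀ {α : Type} [Af Ω α] {p : α → Prop} {s g : α → Ω}, Cz k p → Pm k s → Pm k g →
    G.good (fun y : α × Ω => p y.1 ∧ y.2 * s y.1 + g y.1 = 0) → G.good (fun x => p x ∧ s x = 0) →
    G.good fun x => p x ∧ s x = 0 ∧ g x = 0
  empty : ∀ {α : Type} [Af Ω α], G.good fun _ : α => False

/-- the rules, together with the point and products with Hermitian cones -/
structure Ay (q : ℕ) (G : Gp Ω) : Prop extends Ax k G where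
  pt : G.good fun _ : Fin 0 → Ω => True
  cone : ∀ {α : Type} [Af Ω α] {p : α → Prop} (κ : Type) [Fintype κ], Cz k p → G.good p →
    G.good fun y : α × (κ → Ω) => p y.1 ∧ ∑ i, y.2 i ^ (q + 1) = 0

/-- good after multiplication by `Y` -/
def Gp.mul (G : Gp Ω) (Y : γ → Prop) : Gp Ω :=
  ⟨fun {α} _ p => G.good fun y : α × γ => p y.1 ∧ Y y.2⟩

/-- good after multiplication by every Hermitian cone -/
def Gp.star (G : Gp Ω) (q : ℕ) : Gp Ω :=
  ⟨fun {α} _ p => ∀ N : ℕ, G.good fun y : α × (Fin N → Ω) => p y.1 ∧ ∑ i, y.2 i ^ (q + 1) = 0⟩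

/-- the field has `q ^ 2` elements -/
structure Su (k : Type) [Field k] (q : ℕ) : Prop where
  card : Nat.card k = q ^ 2
  lt : 1 < q

/-- the Frobenius map of an affine space -/
def frob (Q : ℕ) (x : α) : α := pt α fun j => co x j ^ Q

variable {k}

@[fun_prop]
theorem Pm.frob (Q : ℕ) {f : α → β} (hf : Pm k f) : Pm k fun x => frob Q (f x) :=
  Pm.pt (Pm.pi fun j => (hf.co j).pow Q)

theorem co_frob (Q : ℕ) (x : α) (j : Af.ι α) : co (frob Q x) j = co x j ^ Q := co_pt _ j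

variable {p : α → Prop} {p' : β → Prop} {G : Gp Ω}

theorem Fm0.emb {f : β → α} {r : α → β} (hr : Pm k r) (h : ∀ z, p' z → r (f z) = z) :
    Fm0 k p' f :=
  ⟨Empty, inferInstance, fun _ => 0, 2, fun _ _ => 0, fun _ => 0, fun x => r x.1, one_lt_two,
    by fun_prop, Pm.pi fun i => i.elim, by fun_prop, by fun_prop, fun _ _ i => i.elim, h⟩

/-- one new generator `y` with `y ^ N = m * y + b` -/
theorem Fm0.one {f : β → α} (y : β → Ω) (N : ℕ) (m b : α → Ω) (r : α × Ω → β) (hN : 1 < N)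
    (hy : Pm k y) (hm : Pm k m) (hb : Pm k b) (hr : Pm k r)
    (h1 : ∀ z, p' z → y z ^ N = m (f z) * y z + b (f z)) (h2 : ∀ z, p' z → r (f z, y z) = z) :
    Fm0 k p' f :=
  ⟨Unit, inferInstance, fun z _ => y z, N, fun x _ _ => m x, fun x _ => b x,
    fun x => r (x.1, x.2 ()), hN, by fun_prop, by fun_prop, by fun_prop, by fun_prop,
    fun z hz _ => by simpa using h1 z hz, h2⟩

theorem Fi.mk' (f : β → α) (hf : Pm k f) (h : Fm0 k p' f) (h1 : ∀ z, p' z → p (f z))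
    (h2 : ∀ x, p x → ∃ z, p' z ∧ f z = x) : Fi k p' p :=
  ⟨f, hf, h, fun x => ⟨h2 x, fun ⟨z, hz, e⟩ => e ▸ h1 z hz⟩⟩

/-- isomorphisms -/
theorem Fi.iso (f : β → α) (r : α → β) (hf : Pm k f) (hr : Pm k r) (h1 : ∀ z, p' z → p (f z))
    (h2 : ∀ x, p x → p' (r x)) (h3 : ∀ z, p' z → r (f z) = z) (h4 : ∀ x, p x → f (r x) = x) :
    Fi k p' p := Fi.mk' f hf (Fm0.emb hr h3) h1 fun x hx => ⟨r x, h2 x hx, h4 x hx⟩

theorem Ax.iso (h : Ax k G) (f : β → α) (r : α → β) (hf : Pm k f) (hr : Pm k r)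
    (h1 : ∀ z, p' z → p (f z)) (h2 : ∀ x, p x → p' (r x)) (h3 : ∀ z, p' z → r (f z) = z)
    (h4 : ∀ x, p x → f (r x) = x) (hp : G.good p') : G.good p :=
  h.fin (Fi.iso f r hf hr h1 h2 h3 h4) hp

theorem Gp.congr (G : Gp Ω) {p p' : α → Prop} (hp : G.good p') (e : ∀ x, p x ↔ p' x) : G.good p := by
  rwa [show p = p' from funext fun x => propext (e x)]

theorem Ax.of_not (h : Ax k G) (e : ∀ x, ¬p x) : G.good p :=
  G.congr h.empty fun x => iff_false_intro (e x)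

end Pool.Agent.CXD
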