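import Pool.Agent.P.MP_2ce3e7_ag.DA0

/-! The Frobenius map. -/

set_option linter.unusedSectionVars false
set_option linter.unusedVariables false

open Function Matrix

noncomputable section

namespace Pool.Agent.CXD

section
variable {k R : Type} [Field k] [CommRing R] [Algebra k R] {q : ℕ} (h : Su k q)
include h

theorem Su.finite : Finite k :=
  Nat.finite_of_card_ne_zero (by
    rw [h.card]
    exact pow_ne_zero 2 (lt_trans one_pos h.lt).ne')

theorem Su.pos : 0 < q := lt_trans one_pos h.lt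

theorem Su.pow_card (c : k) : c ^ q ^ 2 = c := by
  have := h.finite
  have := Fintype.ofFinite k
  rw [← h.card, Nat.card_eq_fintype_card]
  exact FiniteField.pow_card c

variable (R) in
theorem Su.exists_hom : ∃ φ : R →+* R, ∀ x, φ x = x ^ q := by
  have := h.finite
  have := Fintype.ofFinite k
  obtain ⟨n, hp, hn⟩ := FiniteField.card k (ringChar k)
  have h1 : q ∣ ringChar k ^ (n : ℕ) := by
    rw [← hn, ← Nat.card_eq_fintype_card, h.card]
    exact dvd_pow_self q two_ne_zero
  obtain ⟨e, -, he⟩ := (Nat.dvd_prime_pow hp).1 h1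
  rcases subsingleton_or_nontrivial R with hR | hR
  · exact ⟨RingHom.id R, fun x => Subsingleton.elim _ _⟩
  · have := charP_of_injective_algebraMap (algebraMap k R).injective (ringChar k)
    have := Fact.mk hp
    exact ⟨iterateFrobenius R (ringChar k) e, fun x => by rw [iterateFrobenius_def, he]⟩

theorem Su.add_pow (x y : R) : (x + y) ^ q = x ^ q + y ^ q := by
  obtain ⟨φ, hφ⟩ := h.exists_hom R
  simp only [← hφ, map_add]

theorem Su.sub_pow (x y : R) : (x - y) ^ q = x ^ q - y ^ q := by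
  obtain ⟨φ, hφ⟩ := h.exists_hom R
  simp only [← hφ, map_sub]

theorem Su.neg_pow (x : R) : (-x) ^ q = -x ^ q := by
  obtain ⟨φ, hφ⟩ := h.exists_hom R
  simp only [← hφ, map_neg]

theorem Su.sum_pow {ι : Type} (s : Finset ι) (x : ι → R) :
    (∑ i ∈ s, x i) ^ q = ∑ i ∈ s, x i ^ q := by
  obtain ⟨φ, hφ⟩ := h.exists_hom R
  simp only [← hφ, map_sum]

variable (R) in
theorem Su.hom_DA1 : ∃ φ : R →+* R, (∀ x, x ^ q = φ x) ∧
    ∀ (l m : Type) (M : Matrix l m R), fm q M = M.map φ := by
  obtain ⟨φ, hφ⟩ := h.exists_hom R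
  exact ⟨φ, fun x => (hφ x).symm, fun l m M => Matrix.ext fun i j => (hφ _).symm⟩

variable {l m n : Type} [Fintype l] [Fintype m] [Fintype n]

theorem Su.fm_mul (M : Matrix l m R) (N : Matrix m n R) : fm q (M * N) = fm q M * fm q N := by
  obtain ⟨φ, h1, h2⟩ := h.hom_DA1 R
  simp only [h2, Matrix.map_mul]

theorem Su.fm_add (M N : Matrix l m R) : fm q (M + N) = fm q M + fm q N :=
  Matrix.ext fun i j => h.add_pow _ _

theorem Su.fm_sub (M N : Matrix l m R) : fm q (M - N) = fm q M - fm q N :=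
  Matrix.ext fun i j => h.sub_pow _ _

theorem Su.fm_zero : fm q (0 : Matrix l m R) = 0 :=
  Matrix.ext fun i j => zero_pow h.pos.ne'

theorem Su.fm_smul (c : R) (M : Matrix l m R) : fm q (c • M) = c ^ q • fm q M :=
  Matrix.ext fun i j => mul_pow _ _ _

theorem Su.fm_mulVec (M : Matrix l m R) (v : m → R) :
    fm q M *ᵥ (fun i => v i ^ q) = fun i => (M *ᵥ v) i ^ q := by
  funext i
  simp only [Matrix.mulVec, dotProduct, h.sum_pow, mul_pow, fm_apply]

variable [DecidableEq l] [DecidableEq m]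

theorem Su.fm_one : fm q (1 : Matrix m m R) = 1 := by
  obtain ⟨φ, h1, h2⟩ := h.hom_DA1 R
  rw [h2, Matrix.map_one _ φ.map_zero φ.map_one]

theorem Su.fm_single (i : l) (j : m) (c : R) :
    fm q (Matrix.single i j c) = Matrix.single i j (c ^ q) := by
  ext a b
  rw [fm_apply, Matrix.single_apply, Matrix.single_apply]
  split_ifs
  exacts [rfl, zero_pow h.pos.ne']

theorem Su.fm_det (M : Matrix m m R) : (fm q M).det = M.det ^ q := by
  obtain ⟨φ, h1, h2⟩ := h.hom_DA1 R
  rw [h2, h1, RingHom.map_det, RingHom.mapMatrix_apply]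

theorem Su.fm_adjugate (M : Matrix m m R) : fm q M.adjugate = (fm q M).adjugate := by
  obtain ⟨φ, h1, h2⟩ := h.hom_DA1 R
  rw [h2, h2]
  exact RingHom.map_adjugate φ M

end

theorem fm_fm {R l m : Type} [CommRing R] (q r : ℕ) (M : Matrix l m R) :
    fm q (fm r M) = fm (r * q) M := Matrix.ext fun i j => (pow_mul _ _ _).symm

theorem fm_transpose {R l m : Type} [CommRing R] (q : ℕ) (M : Matrix l m R) :
    fm q Mᵀ = (fm q M)ᵀ := rfl

variable {k Ω : Type} [Field k] [Field Ω] [Algebra k Ω] {α β γ : Type} [Af Ω α] [Af Ω β] [Af Ω γ]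
  {G : Gp Ω} {q : ℕ} {p : α → Prop}

theorem frob_self (Q : ℕ) (x : Ω) : frob Q x = x ^ Q := rfl

theorem Su.kr_iff (h : Su k q) (x : Ω) : Kr k x ↔ x ^ q ^ 2 = x := by
  rw [kr_self]
  refine ⟨?_, fun hx => ?_⟩
  · rintro ⟨a, rfl⟩
    rw [← map_pow, h.pow_card]
  · classical
    have := h.finite
    have := Fintype.ofFinite k
    have hc : Fintype.card k = q ^ 2 := by rw [← Nat.card_eq_fintype_card, h.card]
    have h1 : 1 < Fintype.card k := Fintype.one_lt_card
    have hm : (Polynomial.X ^ Fintype.card k - Polynomial.X : Polynomial k).Monic :=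
      Polynomial.monic_X_pow_sub (by rw [Polynomial.degree_X]; exact_mod_cast h1)
    have h2 := Polynomial.prod_multiset_X_sub_C_of_monic_of_roots_card_eq hm (by
      rw [FiniteField.roots_X_pow_card_sub_X, FiniteField.X_pow_card_sub_X_natDegree_eq k h1]
      rfl)
    rw [FiniteField.roots_X_pow_card_sub_X] at h2
    have h3 := congrArg (Polynomial.aeval x) h2
    rw [← Finset.prod_eq_multiset_prod, map_prod, map_sub, map_pow, Polynomial.aeval_X, hc, hx,
      sub_self, Finset.prod_eq_zero_iff] at h3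
    obtain ⟨a, -, ha⟩ := h3
    rw [map_sub, Polynomial.aeval_X, Polynomial.aeval_C, sub_eq_zero] at ha
    exact ⟨a, ha⟩

theorem Su.aeval_DA1 (h : Su k q) {ι : Type} (v : ι → Ω) (P : MvPolynomial ι k) :
    MvPolynomial.aeval (fun i => v i ^ q ^ 2) P = MvPolynomial.aeval v P ^ q ^ 2 := by
  induction P using MvPolynomial.induction_on with
  | C a => rw [MvPolynomial.aeval_C, MvPolynomial.aeval_C, ← map_pow, h.pow_card]
  | add P P' h1 h2 =>
    rw [map_add, map_add, h1, h2, sq, pow_mul, pow_mul, pow_mul, h.add_pow, h.add_pow]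
  | mul_X P i h1 => rw [map_mul, map_mul, h1, MvPolynomial.aeval_X, MvPolynomial.aeval_X, mul_pow]

theorem Su.frob_comm (h : Su k q) {f : α → β} (hf : Pm k f) (x : α) :
    f (frob (q ^ 2) x) = frob (q ^ 2) (f x) := by
  refine co_ext fun j => ?_
  obtain ⟨P, hP⟩ := hf j
  rw [co_frob, co, co, hP, hP, ← h.aeval_DA1]
  exact congrArg (fun v => MvPolynomial.aeval v P) (funext fun i => co_frob _ x i)

theorem Su.frob_iff (h : Su k q) (hp : Cz k p) (x : α) : p (frob (q ^ 2) x) ↔ p x := by
  obtain ⟨T, h1, h2⟩ := hp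
  rw [h2, h2]
  refine forall₂_congr fun f hf => ?_
  rw [h.frob_comm (h1 f hf), frob_self, pow_eq_zero_iff (pow_pos h.pos 2).ne']

theorem frob_surj [IsAlgClosed Ω] {Q : ℕ} (hQ : 0 < Q) : Surjective (frob Q : α → α) := by
  intro x
  choose v hv using fun j => IsAlgClosed.exists_pow_nat_eq (co x j) hQ
  exact ⟨pt α v, co_ext fun j => by rw [co_frob, co_pt, hv]⟩

theorem Su.finite_kr (h : Su k q) : {x : α | Kr k x}.Finite := by
  have := h.finite
  refine (Set.finite_range fun a : Af.ι α → k => pt α (algebraMap k Ω ∘ a)).subset fun x hx => ?_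
  choose a ha using (show Kr k x from hx).out
  exact ⟨a, co_ext fun j => by rw [co_pt, co, ha]; rfl⟩

end Pool.Agent.CXD
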