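import Pool.Agent.P.MP_2ce3e7_ag.DA1

/-! Derived rules: unions and affine spaces. -/

set_option linter.unusedSectionVars false
set_option linter.unusedVariables false

open Function Matrix

noncomputable section

namespace Pool.Agent.CXD

variable {k Ω : Type} [Field k] [Field Ω] [Algebra k Ω] {α β γ : Type} [Af Ω α] [Af Ω β] [Af Ω γ]
  {G : Gp Ω} {q : ℕ} {p : α → Prop}

theorem Ax.union (h : Ax k G) {p' : α → Prop} (c : Cz k p) (c' : Cz k p') (hp : G.good p)
    (hp' : G.good p') : G.good fun x => p x ∨ p' x := by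
  have hW : G.good fun y : α × Ω => (p y.1 ∧ y.2 = 0) ∨ (p' y.1 ∧ y.2 = 1) := by
    refine h.split (g := fun y : α × Ω => y.2) (by fun_prop) (by fun_prop) ?_ ?_
    · refine h.iso (fun x : α => (x, (0 : Ω))) (fun y : α × Ω => y.1) (by fun_prop) (by fun_prop)
        (fun x hx => ⟨Or.inl ⟨hx, rfl⟩, rfl⟩) ?_ (fun _ _ => rfl) ?_ hp
      · rintro ⟨x, t⟩ ⟨h1 | h1, h2⟩
        · exact h1.1
        · exact absurd (h1.2.symm.trans h2) one_ne_zero
      · rintro ⟨x, t⟩ ⟨_, h2⟩
        exact Prod.ext rfl h2.symm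
    · refine h.iso (fun x : α => ((x, (1 : Ω)), (1 : Ω))) (fun y : (α × Ω) × Ω => y.1.1)
        (by fun_prop) (by fun_prop) (fun x hx => ⟨Or.inr ⟨hx, rfl⟩, one_mul _⟩) ?_
        (fun _ _ => rfl) ?_ hp'
      · rintro ⟨⟨x, t⟩, u⟩ ⟨h1 | h1, h2⟩
        · simp [show t = 0 from h1.2] at h2
        · exact h1.1
      · rintro ⟨⟨x, t⟩, u⟩ ⟨h1 | h1, h2⟩
        · simp [show t = 0 from h1.2] at h2
        · obtain rfl : t = 1 := h1.2
          obtain rfl : u = 1 := by simpa using h2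
          rfl
  refine h.fin (Fi.mk' (fun y : α × Ω => y.1) (by fun_prop)
    (Fm0.one (fun y : α × Ω => y.2) 2 (fun _ => 1) (fun _ => 0) (fun y => y) one_lt_two
      (by fun_prop) (by fun_prop) (by fun_prop) (by fun_prop) ?_ fun _ _ => rfl) ?_ ?_) hW
  · rintro ⟨x, t⟩ (h1 | h1)
    · simp [show t = 0 from h1.2]
    · simp [show t = 1 from h1.2]
  · exact fun z hz => hz.imp And.left And.left
  · rintro x (hx | hx)
    · exact ⟨(x, 0), Or.inl ⟨hx, rfl⟩, rfl⟩
    · exact ⟨(x, 1), Or.inr ⟨hx, rfl⟩, rfl⟩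

theorem Cz.bex {ι : Type} (s : Finset ι) {p : ι → α → Prop} (c : ∀ i ∈ s, Cz k (p i)) :
    Cz k fun x => ∃ i ∈ s, p i x := by
  classical
  induction s using Finset.induction_on with
  | empty => exact (Cz.const False).congr fun x => by simp
  | insert a s ha ih =>
    exact ((c a (Finset.mem_insert_self _ _)).or
      (ih fun i hi => c i (Finset.mem_insert_of_mem hi))).congr fun x => by simp

theorem Ax.bunion (h : Ax k G) {ι : Type} (s : Finset ι) {p : ι → α → Prop}
    (c : ∀ i ∈ s, Cz k (p i)) (hp : ∀ i ∈ s, G.good (p i)) :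
    G.good fun x => ∃ i ∈ s, p i x := by
  classical
  induction s using Finset.induction_on with
  | empty => exact h.of_not fun x => by simp
  | insert a s ha ih =>
    have c' : ∀ i ∈ s, Cz k (p i) := fun i hi => c i (Finset.mem_insert_of_mem hi)
    exact G.congr (h.union (c a (Finset.mem_insert_self _ _)) (Cz.bex s c')
      (hp a (Finset.mem_insert_self _ _))
      (ih c' fun i hi => hp i (Finset.mem_insert_of_mem hi))) fun x => by simp

theorem Ax.fin_DA2 (h : Ax k G) (n : ℕ) (hp : G.good p) :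
    G.good fun y : α × (Fin n → Ω) => p y.1 := by
  induction n with
  | zero =>
    exact h.iso (fun x : α => (x, (0 : Fin 0 → Ω))) (fun y : α × (Fin 0 → Ω) => y.1)
      (by fun_prop) (by fun_prop) (fun _ hx => hx) (fun _ hx => hx) (fun _ _ => rfl)
      (fun _ _ => Prod.ext rfl (Subsingleton.elim _ _)) hp
  | succ n ih =>
    refine h.iso (fun y : (α × (Fin n → Ω)) × Ω => (y.1.1, vecCons y.2 y.1.2))
      (fun y : α × (Fin (n + 1) → Ω) => ((y.1, fun i => y.2 i.succ), y.2 0))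
      (by fun_prop) (by fun_prop) (fun _ hx => hx) (fun _ hx => hx) (fun _ _ => rfl)
      (fun y _ => Prod.ext rfl (funext fun i => Fin.cases rfl (fun _ => rfl) i)) (h.line ih)

theorem Ax.lines (h : Ax k G) (κ : Type) [Fintype κ] (hp : G.good p) :
    G.good fun y : α × (κ → Ω) => p y.1 := by
  have e := Fintype.equivFin κ
  exact h.iso (fun y : α × (Fin (Fintype.card κ) → Ω) => (y.1, fun i => y.2 (e i)))
    (fun y : α × (κ → Ω) => (y.1, fun i => y.2 (e.symm i))) (by fun_prop) (by fun_prop)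
    (fun _ hx => hx) (fun _ hx => hx) (fun _ _ => by simp) (fun _ _ => by simp)
    (h.fin_DA2 _ hp)

theorem Ax.aff (h : Ax k G) (β : Type) [Af Ω β] (hp : G.good p) :
    G.good fun y : α × β => p y.1 :=
  h.iso (fun y : α × (Af.ι β → Ω) => (y.1, pt β y.2))
    (fun y : α × β => (y.1, fun j => co y.2 j)) (by fun_prop) (by fun_prop)
    (fun _ hx => hx) (fun _ hx => hx) (fun _ _ => Prod.ext rfl (funext fun j => co_pt _ j))
    (fun _ _ => Prod.ext rfl (pt_co _)) (h.lines _ hp)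

theorem Ax.supp (h : Ax k G) {κ : Type} [Fintype κ] (D : κ → Prop) (hp : G.good p) :
    G.good fun y : α × (κ → Ω) => p y.1 ∧ ∀ i, D i → y.2 i = 0 := by
  classical
  refine h.iso (fun y : α × ({i // ¬D i} → Ω) =>
      (y.1, fun i => if e : D i then 0 else y.2 ⟨i, e⟩))
    (fun y : α × (κ → Ω) => (y.1, fun i : {i // ¬D i} => y.2 i.1)) (by fun_prop) (by fun_prop)
    (fun _ hx => ⟨hx, fun i hi => dif_pos hi⟩) (fun _ hx => hx.1)
    (fun _ _ => Prod.ext rfl (funext fun i => dif_neg i.2))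
    (fun y hy => Prod.ext rfl (funext fun i => ?_)) (h.lines _ hp)
  by_cases e : D i
  · exact (dif_pos e).trans (hy.2 i e).symm
  · exact dif_neg e

theorem Ax.msupp (h : Ax k G) {l m : Type} [Fintype l] [Fintype m] (D : l → m → Prop)
    (hp : G.good p) :
    G.good fun y : α × Matrix l m Ω => p y.1 ∧ ∀ i j, D i j → y.2 i j = 0 :=
  h.iso (fun y : α × (l × m → Ω) => (y.1, Matrix.of fun i j => y.2 (i, j)))
    (fun y : α × Matrix l m Ω => (y.1, fun ij : l × m => y.2 ij.1 ij.2)) (by fun_prop)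
    (Pm.mk (by fun_prop) (Pm.pi fun ij => Pm.entry (by fun_prop) _ _))
    (fun _ hx => ⟨hx.1, fun i j hi => hx.2 (i, j) hi⟩)
    (fun _ hx => ⟨hx.1, fun ij hi => hx.2 _ _ hi⟩) (fun _ _ => rfl) (fun _ _ => rfl)
    (h.supp (fun ij : l × m => D ij.1 ij.2) hp)

theorem Ax.gm (h : Ax k G) (hp : G.good p) :
    G.good fun y : α × Ω × Ω => p y.1 ∧ y.2.1 * y.2.2 = 1 :=
  h.iso (fun y : (α × Ω) × Ω => (y.1.1, y.1.2, y.2))
    (fun y : α × Ω × Ω => ((y.1, y.2.1), y.2.2)) (by fun_prop) (by fun_prop)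
    (fun _ hx => hx) (fun _ hx => hx) (fun _ _ => rfl) (fun _ _ => rfl)
    (h.opn (g := fun y : α × Ω => y.2) (by fun_prop) (h.line hp))

theorem Ax.unline (h : Ax k G) (c : Cz k p) (hp : G.good fun y : α × Ω => p y.1) : G.good p := by
  have h1 := h.blow (p := fun y : α × Ω => p y.1) (s := fun _ => 0) (g := fun y => y.2)
    (by fun_prop) (by fun_prop) (by fun_prop) ?_ (G.congr hp fun x => by simp)
  · refine h.iso (fun y : α × Ω => y.1) (fun x : α => (x, (0 : Ω))) (by fun_prop) (by fun_prop)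
      (fun _ hx => hx.1) (fun _ hx => ⟨hx, rfl, rfl⟩) (fun _ hx => Prod.ext rfl hx.2.2.symm)
      (fun _ _ => rfl) h1
  · refine h.iso (fun y : α × Ω => ((y.1, (0 : Ω)), y.2)) (fun y : (α × Ω) × Ω => (y.1.1, y.2))
      (by fun_prop) (by fun_prop) (fun _ hx => ⟨hx, by simp⟩) (fun _ hx => hx.1)
      (fun _ _ => rfl) ?_ hp
    rintro ⟨⟨x, v⟩, t⟩ ⟨_, h2⟩
    obtain rfl : v = 0 := by simpa using h2
    rfl

theorem Ax.ungm [IsAlgClosed Ω] (h : Ax k G) (c : Cz k p)
    (hp : G.good fun y : α × Ω × Ω => p y.1 ∧ y.2.1 * y.2.2 = 1) : G.good p := by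
  refine h.unline c (h.fin (Fi.mk' (fun y : α × Ω × Ω => (y.1, y.2.1 + y.2.2)) (by fun_prop)
    (Fm0.one (fun y : α × Ω × Ω => y.2.1) 2 (fun x : α × Ω => x.2) (fun _ => -1)
      (fun x : (α × Ω) × Ω => (x.1.1, x.2, x.1.2 - x.2)) one_lt_two (by fun_prop) (by fun_prop)
      (by fun_prop) (by fun_prop) (fun z hz => ?_) fun z _ => by simp)
    (fun _ hz => hz.1) ?_) hp)
  · linear_combination -hz.2
  · rintro ⟨x, w⟩ hx
    obtain ⟨v, hv⟩ := IsAlgClosed.exists_root
      (Polynomial.C (1 : Ω) * Polynomial.X ^ 2 + Polynomial.C (-w) * Polynomial.X +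
        Polynomial.C 1) (by rw [Polynomial.degree_quadratic one_ne_zero]; norm_num)
    refine ⟨(x, v, w - v), ⟨hx, ?_⟩, by simp⟩
    simp only [Polynomial.IsRoot, Polynomial.eval_add, Polynomial.eval_mul, Polynomial.eval_C,
      Polynomial.eval_pow, Polynomial.eval_X] at hv
    linear_combination -hv

/-- an affine space -/
theorem Ax.univ (h : Ax k G) (h0 : G.good fun _ : Fin 0 → Ω => True) (α : Type) [Af Ω α] :
    G.good fun _ : α => True :=
  h.iso (fun y : (Fin 0 → Ω) × α => y.2) (fun x : α => ((0 : Fin 0 → Ω), x)) (by fun_prop)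
    (by fun_prop) (fun _ hx => hx) (fun _ hx => hx)
    (fun _ _ => Prod.ext (Subsingleton.elim _ _) rfl) (fun _ _ => rfl) (h.aff α h0)

/-- a function with rational values -/
theorem Ax.rat (h : Ax k G) (hq : Su k q) (c : Cz k p) {w : α → Ω} (hw : Pm k w)
    (h1 : ∀ x, p x → w x ^ q ^ 2 = w x)
    (h2 : ∀ a : k, G.good fun x => p x ∧ w x = algebraMap k Ω a) : G.good p := by
  have := hq.finite
  have := Fintype.ofFinite k
  refine G.congr (h.bunion Finset.univ (p := fun (a : k) x => p x ∧ w x = algebraMap k Ω a)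
    (fun a _ => by fun_prop) fun a _ => h2 a) fun x => ⟨fun hx => ?_, fun ⟨_, _, hx⟩ => hx.1⟩
  obtain ⟨a, ha⟩ := kr_self.1 ((hq.kr_iff (w x)).2 (h1 x hx))
  exact ⟨a, Finset.mem_univ _, hx, ha⟩

/-- a set of rational points -/
theorem Ax.points (h : Ax k G) (hq : Su k q) (h0 : G.good fun _ : Fin 0 → Ω => True)
    (h1 : ∀ x, p x → Kr k x) : G.good p := by
  have hf : {x : α | p x}.Finite := hq.finite_kr.subset h1
  refine G.congr (h.bunion hf.toFinset (p := fun x₀ x => x = x₀) (fun x₀ hx => ?_) fun x₀ hx => ?_)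
    fun x => by simp
  · have := h1 x₀ (hf.mem_toFinset.1 hx)
    fun_prop
  · have := h1 x₀ (hf.mem_toFinset.1 hx)
    exact h.iso (fun _ : Fin 0 → Ω => x₀) (fun _ : α => (0 : Fin 0 → Ω)) (by fun_prop)
      (by fun_prop) (fun _ _ => rfl) (fun _ _ => trivial) (fun _ _ => Subsingleton.elim _ _)
      (fun _ hx => hx.symm) h0

end Pool.Agent.CXD
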