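import Pool.Agent.P.MP_2ce3e7_ag.DA2

/-! Products. -/

set_option linter.unusedSectionVars false
set_option linter.unusedVariables false

open Function Matrix

noncomputable section

namespace Pool.Agent.CXD

variable {k Ω : Type} [Field k] [Field Ω] [Algebra k Ω] {α β γ : Type} [Af Ω α] [Af Ω β] [Af Ω γ]
  {G : Gp Ω} {q : ℕ} {p : α → Prop}

theorem Ax.swap_DA3 (h : Ax k G) {P : (α × β) × γ → Prop} (hp : G.good P) :
    G.good fun y : (α × γ) × β => P ((y.1.1, y.2), y.1.2) :=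
  h.iso (fun y : (α × β) × γ => ((y.1.1, y.2), y.1.2)) (fun y : (α × γ) × β => ((y.1.1, y.2), y.1.2))
    (by fun_prop) (by fun_prop) (fun _ hz => hz) (fun _ hz => hz) (fun _ _ => rfl) (fun _ _ => rfl)
    hp

theorem Fi.prod {p' : β → Prop} (h : Fi k p' p) (Y : γ → Prop) :
    Fi k (fun y : β × γ => p' y.1 ∧ Y y.2) fun y : α × γ => p y.1 ∧ Y y.2 := by
  obtain ⟨f, hf, ⟨κ, _, y, N, m, b, r, hN, hy, hm, hb, hr, h1, h2⟩, h3⟩ := h
  refine Fi.mk' (fun z : β × γ => (f z.1, z.2)) (by fun_prop)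
    ⟨κ, inferInstance, fun z => y z.1, N, fun x => m x.1, fun x => b x.1,
      fun x => (r (x.1.1, x.2), x.1.2), hN, by fun_prop, by fun_prop, by fun_prop, by fun_prop,
      fun z hz => h1 z.1 hz.1, fun z hz => Prod.ext (h2 z.1 hz.1) rfl⟩
    (fun z hz => ⟨(h3 _).2 ⟨z.1, hz.1, rfl⟩, hz.2⟩) fun x hx => ?_
  obtain ⟨z, hz, e⟩ := (h3 x.1).1 hx.1
  exact ⟨(z, x.2), ⟨hz, hx.2⟩, Prod.ext e rfl⟩

theorem Ax.mul (h : Ax k G) {Y : γ → Prop} (c : Cz k Y) : Ax k (G.mul Y) :=
  { split := fun {α} _ {p g} cp hg h1 h2 =>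
      h.split (p := fun y : α × γ => p y.1 ∧ Y y.2) (g := fun y => g y.1) (by fun_prop)
        (by fun_prop) (G.congr h1 fun _ => and_right_comm)
        (G.congr (h.swap_DA3 h2) fun _ => and_right_comm)
    fin := fun hf hp => h.fin (hf.prod Y) hp
    line := fun hp => h.swap_DA3 (h.line hp)
    opn := fun {α} _ {p g} hg hp =>
      G.congr (h.swap_DA3 (h.opn (g := fun y : α × γ => g y.1) (by fun_prop) hp))
        fun _ => and_right_comm
    blow := fun {α} _ {p s g} cp hs hg h1 h2 =>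
      G.congr (h.blow (p := fun y : α × γ => p y.1 ∧ Y y.2) (s := fun y => s y.1)
        (g := fun y => g y.1) (by fun_prop) (by fun_prop) (by fun_prop)
        (G.congr (h.swap_DA3 h1) fun _ => and_right_comm) (G.congr h2 fun _ => and_right_comm))
        fun _ => and_right_comm
    empty := h.of_not fun _ hx => hx.1 }

theorem Ay.mul (h : Ay k q G) {Y : γ → Prop} (c : Cz k Y) (hY : G.good Y) : Ay k q (G.mul Y) :=
  { toAx := h.toAx.mul c
    pt := h.toAx.iso (fun y : γ => ((0 : Fin 0 → Ω), y)) (fun y : (Fin 0 → Ω) × γ => y.2)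
      (by fun_prop) (by fun_prop) (fun _ hz => ⟨trivial, hz⟩) (fun _ hz => hz.2) (fun _ _ => rfl)
      (fun _ _ => Prod.ext (Subsingleton.elim _ _) rfl) hY
    cone := fun {α} _ {p} κ _ cp hp =>
      G.congr (h.toAx.swap_DA3 (h.cone (p := fun y : α × γ => p y.1 ∧ Y y.2) κ (by fun_prop) hp))
        fun _ => and_right_comm }

theorem Ax.star (h : Ax k G) (q : ℕ) : Ax k (G.star q) :=
  have c : ∀ N : ℕ, Cz k fun y : Fin N → Ω => ∑ i, y i ^ (q + 1) = 0 := fun N => by fun_prop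
  { split := fun cp hg h1 h2 N => (h.mul (c N)).split cp hg (h1 N) (h2 N)
    fin := fun hf hp N => (h.mul (c N)).fin hf (hp N)
    line := fun hp N => (h.mul (c N)).line (hp N)
    opn := fun hg hp N => (h.mul (c N)).opn hg (hp N)
    blow := fun cp hs hg h1 h2 N => (h.mul (c N)).blow cp hs hg (h1 N) (h2 N)
    empty := fun N => (h.mul (c N)).empty }

theorem Ax.of_star (h : Ax k G) (hp : (G.star q).good p) : G.good p :=
  h.iso (fun y : α × (Fin 0 → Ω) => y.1) (fun x : α => (x, 0)) (by fun_prop) (by fun_prop)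
    (fun _ hz => hz.1) (fun _ hx => ⟨hx, Finset.sum_empty⟩)
    (fun _ _ => Prod.ext rfl (Subsingleton.elim _ _)) (fun _ _ => rfl) (hp 0)

theorem Ay.pi (h : Ay k q G) (N : ℕ) {α : Fin N → Type} [∀ b, Af Ω (α b)] (p : ∀ b, α b → Prop)
    (c : ∀ b, Cz k (p b)) (hp : ∀ b (G' : Gp Ω), Ay k q G' → G'.good (p b)) :
    G.good fun y : ∀ b, α b => ∀ b, p b (y b) := by
  induction N generalizing G with
  | zero =>
    exact h.toAx.iso (fun _ : Fin 0 → Ω => fun b => b.elim0) (fun _ => 0)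
      (Pm.pi fun i => i.elim0) (by fun_prop) (fun _ _ b => b.elim0) (fun _ _ => trivial)
      (fun _ _ => Subsingleton.elim _ _) (fun _ _ => funext fun b => b.elim0) h.pt
  | succ N ih =>
    exact h.toAx.iso (fun y : (∀ b : Fin N, α b.succ) × α 0 => (Fin.cons y.2 y.1 : ∀ b, α b))
      (fun y => (fun b => y b.succ, y 0))
      (Pm.pi fun i => Fin.cases (Pm.snd Pm.id) (fun b => (Pm.fst Pm.id).eval b) i)
      (Pm.mk (Pm.pi fun b => Pm.apply b.succ) (Pm.apply 0))
      (fun _ hz b => Fin.cases hz.2 hz.1 b) (fun _ hx => ⟨fun b => hx b.succ, hx 0⟩)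
      (fun _ _ => rfl) (fun x _ => Fin.cons_self_tail x)
      (ih (h.mul (c 0) (hp 0 G h)) (fun b => p b.succ) (fun b => c b.succ) fun b => hp b.succ)

end Pool.Agent.CXD
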