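import Pool.Agent.P.MP_2ce3e7_ag.DA3

/-! Products of cones. -/

set_option linter.unusedSectionVars false
set_option linter.unusedVariables false

open Function Matrix

noncomputable section

namespace Pool.Agent.CXD

variable {k Ω : Type} [Field k] [Field Ω] [Algebra k Ω] {α β γ : Type} [Af Ω α] [Af Ω β] [Af Ω γ]
  {G : Gp Ω} {q : ℕ} {p : α → Prop}

theorem Ax.cone_equiv (h : Ax k G) {κ κ' : Type} [Fintype κ] [Fintype κ'] (e : κ ≃ κ')
    (hp : G.good fun y : α × (κ → Ω) => p y.1 ∧ ∑ i, y.2 i ^ (q + 1) = 0) :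
    G.good fun y : α × (κ' → Ω) => p y.1 ∧ ∑ i, y.2 i ^ (q + 1) = 0 := by
  refine h.iso (fun z : α × (κ → Ω) => (z.1, fun j => z.2 (e.symm j)))
    (fun x : α × (κ' → Ω) => (x.1, fun i => x.2 (e i))) (by fun_prop) (by fun_prop)
    (fun z hz => ⟨hz.1, (e.symm.sum_comp fun i => z.2 i ^ (q + 1)).trans hz.2⟩)
    (fun x hx => ⟨hx.1, (e.sum_comp fun i => x.2 i ^ (q + 1)).trans hx.2⟩) (fun z _ => ?_)
    (fun x _ => ?_) hp
  · simp
  · simp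

theorem Ax.cone_DA4 (h : Ax k G) (hp : (G.star q).good p) (κ : Type) [Fintype κ] :
    G.good fun y : α × (κ → Ω) => p y.1 ∧ ∑ i, y.2 i ^ (q + 1) = 0 :=
  h.cone_equiv (Fintype.equivFin κ).symm (hp _)

theorem sum_DA4 {κ : Type} [Fintype κ] (q : ℕ) (d : Ω) (y : κ → Ω) :
    ∑ i, (d * y i) ^ (q + 1) = d ^ (q + 1) * ∑ i, y i ^ (q + 1) := by
  simp only [mul_pow, Finset.mul_sum]

theorem Ax.open_DA4 [IsAlgClosed Ω] (h : Ax k G) (hp : (G.star q).good p) (κ κ' : Type)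
    [Fintype κ] [Fintype κ'] : G.good fun y : (((α × (κ → Ω)) × (κ' → Ω)) × Ω) × Ω =>
      (p y.1.1.1.1 ∧ y.1.2 * ∑ i, y.1.1.1.2 i ^ (q + 1) + ∑ i, y.1.1.2 i ^ (q + 1) = 0) ∧
        y.1.2 * y.2 = 1 := by
  refine h.fin (Fi.mk' (fun z : (α × (κ ⊕ κ' → Ω)) × Ω × Ω =>
    ((((z.1.1, fun i => z.2.2 * z.1.2 (Sum.inl i)), fun i => z.1.2 (Sum.inr i)), z.2.1 ^ (q + 1)),
      z.2.2 ^ (q + 1))) (by fun_prop) ?_ (fun z hz => ?_) fun x hx => ?_)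
    (h.gm (h.cone_DA4 hp (κ ⊕ κ')))
  · refine Fm0.one (fun z => z.2.1) (q + 2) (fun x => x.1.2) (fun _ => 0)
      (fun w => ((w.1.1.1.1.1, Sum.elim (fun i => w.2 * w.1.1.1.1.2 i) w.1.1.1.2),
        w.2, w.2 ^ q * w.1.2)) (by omega) (by fun_prop) (by fun_prop) (by fun_prop) (by fun_prop)
      (fun z _ => by ring) ?_
    rintro ⟨⟨x, Y⟩, d, e⟩ ⟨-, hz⟩
    have hz' : d * e = 1 := hz
    refine Prod.ext (Prod.ext rfl (funext fun i => ?_)) (Prod.ext rfl ?_)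
    · rcases i with i | i
      · show d * (e * Y (Sum.inl i)) = Y (Sum.inl i)
        rw [← mul_assoc, hz', one_mul]
      · rfl
    · show d ^ q * e ^ (q + 1) = e
      rw [pow_succ, ← mul_assoc, ← mul_pow, hz', one_pow, one_mul]
  · obtain ⟨⟨x, Y⟩, d, e⟩ := z
    obtain ⟨⟨h1, h2⟩, hz⟩ := hz
    have hz' : d ^ (q + 1) * e ^ (q + 1) = 1 := by
      rw [← mul_pow, show d * e = 1 from hz, one_pow]
    refine ⟨⟨h1, ?_⟩, hz'⟩
    show d ^ (q + 1) * ∑ i, (e * Y (Sum.inl i)) ^ (q + 1) + ∑ i, Y (Sum.inr i) ^ (q + 1) = 0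
    rw [sum_DA4, ← mul_assoc, hz', one_mul]
    exact (Fintype.sum_sum_type fun i => Y i ^ (q + 1)).symm.trans h2
  · obtain ⟨⟨⟨⟨x, y⟩, y'⟩, c⟩, u⟩ := x
    obtain ⟨⟨h1, h2⟩, hc⟩ := hx
    obtain ⟨d, rfl⟩ := IsAlgClosed.exists_pow_nat_eq c (Nat.succ_pos q)
    have hc' : d ^ (q + 1) * u = 1 := hc
    have he : d * (d ^ q * u) = 1 := by rw [← mul_assoc, ← pow_succ', hc']
    refine ⟨((x, Sum.elim (fun i => d * y i) y'), d, d ^ q * u), ⟨⟨h1, ?_⟩, he⟩, ?_⟩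
    · show ∑ i, Sum.elim (fun i => d * y i) y' i ^ (q + 1) = 0
      rw [Fintype.sum_sum_type]
      exact (congrArg (· + _) (sum_DA4 q d y)).trans h2
    · refine Prod.ext (Prod.ext (Prod.ext (Prod.ext rfl (funext fun i => ?_)) rfl) rfl) ?_
      · show d ^ q * u * (d * y i) = y i
        rw [← mul_assoc, mul_comm _ d, he, one_mul]
      · show (d ^ q * u) ^ (q + 1) = u
        have h3 : d ^ (q + 1) * (d ^ q * u) ^ (q + 1) = 1 := by rw [← mul_pow, he, one_pow]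
        linear_combination u * h3 - (d ^ q * u) ^ (q + 1) * hc'

theorem Ax.merge [IsAlgClosed Ω] (h : Ax k G) (c : Cz k p) (hp : (G.star q).good p) (κ κ' : Type)
    [Fintype κ] [Fintype κ'] : G.good fun y : (α × (κ → Ω)) × (κ' → Ω) =>
      (p y.1.1 ∧ ∑ i, y.1.2 i ^ (q + 1) = 0) ∧ ∑ i, y.2 i ^ (q + 1) = 0 := by
  refine G.congr (h.blow (p := fun y : (α × (κ → Ω)) × (κ' → Ω) => p y.1.1)
    (s := fun y => ∑ i, y.1.2 i ^ (q + 1)) (g := fun y => ∑ i, y.2 i ^ (q + 1)) (by fun_prop)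
    (by fun_prop) (by fun_prop) ?_ (h.lines κ' (h.cone_DA4 hp κ))) fun _ => and_assoc
  refine h.split (g := fun y => y.2) (by fun_prop) (by fun_prop) ?_ (h.open_DA4 hp κ κ')
  refine h.iso (fun z : (α × (κ' → Ω)) × (κ → Ω) => (((z.1.1, z.2), z.1.2), (0 : Ω)))
    (fun x => ((x.1.1.1, x.1.2), x.1.1.2)) (by fun_prop) (by fun_prop)
    (fun z hz => ⟨⟨hz.1, (congrArg (· + _) (zero_mul _)).trans ((zero_add _).trans hz.2)⟩, rfl⟩)
    (fun x hx => ⟨hx.1.1, ?_⟩) (fun z _ => rfl) (fun x hx => Prod.ext rfl hx.2.symm)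
    (h.lines κ (h.cone_DA4 hp κ'))
  have h1 := hx.1.2
  rwa [show x.2 = 0 from hx.2, zero_mul, zero_add] at h1

theorem Ax.ay_star [IsAlgClosed Ω] (h : Ax k G)
    (hc : ∀ N : ℕ, G.good fun y : Fin N → Ω => ∑ i, y i ^ (q + 1) = 0) : Ay k q (G.star q) where
  toAx := h.star q
  pt N := h.iso (fun z : Fin N → Ω => ((0 : Fin 0 → Ω), z)) (fun x => x.2) (by fun_prop)
    (by fun_prop) (fun z hz => ⟨trivial, hz⟩) (fun x hx => hx.2) (fun z _ => rfl)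
    (fun x _ => Prod.ext (Subsingleton.elim _ _) rfl) (hc N)
  cone κ _ c hp N := h.merge c hp κ (Fin N)

end Pool.Agent.CXD
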