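import Pool.Agent.P.MP_2ce3e7_ag.DA2

/-! The iterated Cayley trick. -/

set_option linter.unusedSectionVars false
set_option linter.unusedVariables false

open Function Matrix

noncomputable section

namespace Pool.Agent.CXD

variable {k Ω : Type} [Field k] [Field Ω] [Algebra k Ω] {α β γ : Type} [Af Ω α] [Af Ω β] [Af Ω γ]
  {G : Gp Ω} {q : ℕ} {p : α → Prop}

theorem sum_update_DA5 {ε : Type} [Fintype ε] [DecidableEq ε] (v w : ε → Ω) (e : ε) (t : Ω) :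
    ∑ a, update v e t a * w a = (t - v e) * w e + ∑ a, v a * w a := by
  rw [Fintype.sum_eq_add_sum_subtype_ne _ e, Fintype.sum_eq_add_sum_subtype_ne (fun a => v a * w a) e,
    update_self, Finset.sum_congr rfl fun (a : {a // a ≠ e}) _ => by rw [update_of_ne a.2]]
  ring

theorem step_DA5 [IsAlgClosed Ω] (h : Ax k G) (c : Cz k p) {ε : Type} [Fintype ε] [DecidableEq ε]
    {f : ε → α → Ω} (hf : ∀ e, Pm k (f e)) (e : ε)
    (h1 : G.good fun y : α × (ε → Ω) =>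
      p y.1 ∧ (∀ a, a ≠ e → y.2 a = 0) ∧ ∑ a, y.2 a * f a y.1 = 0) :
    G.good fun x => p x ∧ f e x = 0 := by
  have he := hf e
  refine h.ungm (by fun_prop) ?_
  refine h.iso (fun z : (α × (ε → Ω)) × Ω => (z.1.1, z.1.2 e, z.2))
    (fun x : α × Ω × Ω => ((x.1, Pi.single e x.2.1), x.2.2)) (by fun_prop) (by fun_prop)
    ?_ ?_ ?_ ?_ (h.opn (g := fun y => y.2 e) (by fun_prop) h1)
  · rintro ⟨⟨x, v⟩, u⟩ ⟨⟨h2, h3, h4⟩, h5⟩
    rw [Finset.sum_eq_single e (fun a _ ha => by rw [h3 a ha, zero_mul]) (by simp)] at h4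
    exact ⟨⟨h2, (mul_eq_zero.1 h4).resolve_left (left_ne_zero_of_mul_eq_one h5)⟩, h5⟩
  · rintro ⟨x, v, u⟩ ⟨⟨h2, h3⟩, h4⟩
    refine ⟨⟨h2, fun a ha => Pi.single_eq_of_ne ha _, ?_⟩, by simpa using h4⟩
    rw [Finset.sum_eq_single e (fun a _ ha => by simp [ha]) (by simp)]
    exact mul_eq_zero_of_right _ h3
  · rintro ⟨⟨x, v⟩, u⟩ ⟨⟨h2, h3, h4⟩, h5⟩
    refine Prod.ext (Prod.ext rfl (funext fun a => ?_)) rfl
    by_cases ha : a = e
    · simp [ha]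
    · simpa [ha] using (h3 a ha).symm
  · rintro ⟨x, v, u⟩ -
    simp

theorem blow_DA5 (h : Ax k G) (c : Cz k p) {ε : Type} [Fintype ε] [DecidableEq ε]
    {f : ε → α → Ω} (hf : ∀ e, Pm k (f e)) {e : ε} {D : ε → Prop} (hD : D e)
    (h0 : G.good fun x => p x ∧ f e x = 0)
    (h1 : G.good fun y : α × (ε → Ω) =>
      p y.1 ∧ (∀ a, D a ∧ a ≠ e → y.2 a = 0) ∧ ∑ a, y.2 a * f a y.1 = 0) :
    G.good fun y : α × (ε → Ω) =>
      (p y.1 ∧ f e y.1 = 0) ∧ (∀ a, D a → y.2 a = 0) ∧ ∑ a, y.2 a * f a y.1 = 0 := by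
  have he := hf e
  have hg : Pm k fun y : α × (ε → Ω) => ∑ a, y.2 a * f a y.1 :=
    Pm.sum _ fun a => (Pm.id.snd.eval a).mul ((hf a).comp Pm.id.fst)
  refine G.congr (h.blow (p := fun y : α × (ε → Ω) => p y.1 ∧ ∀ a, D a → y.2 a = 0)
    (s := fun y => f e y.1) (by fun_prop) (by fun_prop) hg ?_
    (G.congr (h.supp D h0) fun y => by tauto)) fun y => by tauto
  refine h.iso (fun z : α × (ε → Ω) => ((z.1, update z.2 e 0), z.2 e))
    (fun x : (α × (ε → Ω)) × Ω => (x.1.1, update x.1.2 e x.2)) (by fun_prop) (by fun_prop)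
    ?_ ?_ ?_ ?_ h1
  · rintro ⟨x, v⟩ ⟨h2, h3, h4⟩
    refine ⟨⟨h2, fun a ha => ?_⟩, ?_⟩
    · by_cases e1 : a = e
      · simp [e1]
      · simpa [e1] using h3 a ⟨ha, e1⟩
    · simp only [sum_update_DA5 v fun a => f a x]
      linear_combination h4
  · rintro ⟨⟨x, v⟩, t⟩ ⟨⟨h2, h3⟩, h4⟩
    refine ⟨h2, fun a ha => by simpa [ha.2] using h3 a ha.1, ?_⟩
    have h5 : v e = 0 := h3 e hD
    simp only [sum_update_DA5 v fun a => f a x, h5]
    linear_combination h4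
  · rintro ⟨x, v⟩ -
    simp
  · rintro ⟨⟨x, v⟩, t⟩ ⟨⟨h2, h3⟩, h4⟩
    have h5 : v e = 0 := h3 e hD
    simp [← h5]

theorem Ax.cayley [IsAlgClosed Ω] (h : Ax k G) (c : Cz k p) (hp : G.good p) {ε : Type} [Fintype ε]
    [DecidableEq ε] {f : ε → α → Ω} (hf : ∀ e, Pm k (f e)) (𝓕 : Set (Finset ε))
    (h1 : ∀ E ∈ 𝓕, E.Nonempty → ∃ e ∈ E, E.erase e ∈ 𝓕)
    (h2 : ∀ E ∈ 𝓕, G.good fun y : α × (ε → Ω) =>
      p y.1 ∧ (∀ e, e ∉ E → y.2 e = 0) ∧ ∑ e, y.2 e * f e y.1 = 0) :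
    ∀ E ∈ 𝓕, G.good fun x => p x ∧ ∀ e ∈ E, f e x = 0 := by
  have key : ∀ (n : ℕ), ∀ D ∈ 𝓕, D.card = n → (G.good fun x => p x ∧ ∀ e ∈ D, f e x = 0) ∧
      ∀ E ∈ 𝓕, D ⊆ E → G.good fun y : α × (ε → Ω) => (p y.1 ∧ ∀ e ∈ D, f e y.1 = 0) ∧
        (∀ a, a ∉ E \ D → y.2 a = 0) ∧ ∑ a, y.2 a * f a y.1 = 0 := by
    intro n
    induction n with
    | zero =>
      intro D _ hD
      obtain rfl := Finset.card_eq_zero.1 hD
      exact ⟨G.congr hp fun x => by simp, fun E hE _ => G.congr (h2 E hE) fun y => by simp⟩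
    | succ n ih =>
      intro D hD hn
      obtain ⟨e, he, hD'⟩ := h1 D hD (Finset.card_pos.1 (by omega))
      obtain ⟨-, i2⟩ := ih _ hD' (by rw [Finset.card_erase_of_mem he, hn]; rfl)
      have c' : Cz k fun x => p x ∧ ∀ a ∈ D.erase e, f a x = 0 :=
        c.and (Cz.all fun a => Cz.all fun _ => Cz.eq (hf a) (Pm.const (0 : Ω)))
      have e1 : ∀ x, (p x ∧ ∀ a ∈ D, f a x = 0) ↔
          (p x ∧ ∀ a ∈ D.erase e, f a x = 0) ∧ f e x = 0 := fun x =>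
        ⟨fun hx => ⟨⟨hx.1, fun a ha => hx.2 a (Finset.mem_of_mem_erase ha)⟩, hx.2 e he⟩,
          fun hx => ⟨hx.1.1, fun a ha => by
            by_cases e2 : a = e
            · rw [e2, hx.2]
            · exact hx.1.2 a (Finset.mem_erase.2 ⟨e2, ha⟩)⟩⟩
      have e2 : ∀ E, D ⊆ E → ∀ a, a ∉ E \ D ∧ a ≠ e ↔ a ∉ E \ D.erase e := fun E hE a => by
        have := @hE a
        by_cases e3 : a = e
        · subst e3
          simp [hE he]
        · simp [e3]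
      have h0 := step_DA5 h c' hf e (G.congr (i2 D hD (Finset.erase_subset _ _)) fun y => by
        simp only [← e2 D subset_rfl]
        simp)
      refine ⟨G.congr h0 e1, fun E hE hs => ?_⟩
      refine G.congr (blow_DA5 h c' hf (D := fun a => a ∉ E \ D) (by simp [he]) h0
        (G.congr (i2 E hE ((Finset.erase_subset _ _).trans hs)) fun y => ?_)) fun y => ?_
      · simp only [e2 E hs]
      · rw [e1]
  exact fun E hE => (key _ E hE rfl).1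

end Pool.Agent.CXD
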