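import Pool.Agent.P.MP_2ce3e7_ag.DA2

/-! Hypersurfaces that are linear in some variables. -/

set_option linter.unusedSectionVars false
set_option linter.unusedVariables false

open Function Matrix

noncomputable section

namespace Pool.Agent.CXD

variable {k Ω : Type} [Field k] [Field Ω] [Algebra k Ω] {α β γ : Type} [Af Ω α] [Af Ω β] [Af Ω γ]
  {G : Gp Ω} {q : ℕ} {p : α → Prop}

theorem sum_single_DA6 {n : Type} [Fintype n] [DecidableEq n] (y s : n → Ω) (a : n) (t : Ω) :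
    ∑ b, (y + Pi.single a t : n → Ω) b * s b = ∑ b, y b * s b + t * s a := by
  simp [add_mul, Finset.sum_add_distrib, Pi.single_apply]

theorem Ax.lin (h : Ax k G) (c : Cz k p) {n : Type} [Fintype n] [DecidableEq n] {s : α → n → Ω}
    {g : α → Ω} (hs : Pm k s) (hg : Pm k g)
    (h1 : ∀ D : Finset n, G.good fun x => p x ∧ ∀ a ∈ D, s x a = 0)
    (h2 : G.good fun x => p x ∧ (∀ a, s x a = 0) ∧ g x = 0) :
    G.good fun y : α × (n → Ω) => p y.1 ∧ ∑ a, y.2 a * s y.1 a + g y.1 = 0 := by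
  have key : ∀ E : Finset n, G.good fun y : α × (n → Ω) =>
      p y.1 ∧ (∀ a, a ∉ E → s y.1 a = 0) ∧ ∑ a, y.2 a * s y.1 a + g y.1 = 0 := by
    intro E
    induction E using Finset.induction_on with
    | empty =>
      refine G.congr (h.lines n h2) fun y => ⟨fun ⟨a, b, e⟩ => ?_, fun ⟨a, b, e⟩ => ?_⟩
      · have b' : ∀ a, s y.1 a = 0 := fun a => b a (Finset.notMem_empty a)
        exact ⟨a, b', by simpa [b'] using e⟩
      · exact ⟨a, fun a _ => b a, by simp [b, e]⟩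
    | insert a E ha ih =>
      refine h.split (g := fun y => s y.1 a) (by fun_prop) (by fun_prop)
        (G.congr ih fun y => ⟨fun ⟨⟨a1, a2, a3⟩, a4⟩ => ⟨a1, fun b hb => ?_, a3⟩,
          fun ⟨a1, a2, a3⟩ => ⟨⟨a1, fun b hb => a2 b fun e => hb (Finset.mem_insert_of_mem e),
            a3⟩, a2 a ha⟩⟩) ?_
      · by_cases e : b = a
        · rw [e, a4]
        · exact a2 b fun e' => (Finset.mem_insert.1 e').elim e hb
      refine h.iso
        (fun z : (α × (n → Ω)) × Ω => ((z.1.1, z.1.2 + Pi.single a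
          (-z.2 * (∑ b, z.1.2 b * s z.1.1 b + g z.1.1))), z.2))
        (fun z : (α × (n → Ω)) × Ω => ((z.1.1, z.1.2 + Pi.single a (-z.1.2 a)), z.2))
        (by fun_prop) (by fun_prop) ?_ ?_ ?_ ?_
        (h.opn (g := fun y => s y.1 a) (by fun_prop) (h.supp (· = a) (h1 (insert a E)ᶜ)))
      · rintro ⟨⟨x, y⟩, u⟩ ⟨⟨⟨a1, a2⟩, a3⟩, a4⟩
        refine ⟨⟨a1, fun b hb => a2 b (Finset.mem_compl.2 hb), ?_⟩, a4⟩
        simp only [sum_single_DA6] at a4 ⊢
        linear_combination (-(∑ b, y b * s x b + g x)) * a4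
      · rintro ⟨⟨x, y⟩, u⟩ ⟨⟨a1, a2, a3⟩, a4⟩
        refine ⟨⟨⟨a1, fun b hb => a2 b (Finset.mem_compl.1 hb)⟩, ?_⟩, a4⟩
        rintro _ rfl
        simp
      · rintro ⟨⟨x, y⟩, u⟩ ⟨⟨⟨a1, a2⟩, a3⟩, a4⟩
        have a5 : y a = 0 := a3 a rfl
        simp only [Pi.add_apply, Pi.single_eq_same, a5, zero_add, add_assoc, ← Pi.single_add,
          add_neg_cancel, Pi.single_zero, add_zero]
      · rintro ⟨⟨x, y⟩, u⟩ ⟨⟨a1, a2, a3⟩, a4⟩
        have a5 : -y a + -u * (∑ b, y b * s x b + -y a * s x a + g x) = 0 := by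
          simp only at a3 a4
          linear_combination (-u) * a3 + y a * a4
        simp only [sum_single_DA6]
        rw [add_assoc y, ← Pi.single_add, a5, Pi.single_zero, add_zero]
  exact G.congr (key Finset.univ) fun y =>
    ⟨fun ⟨a, b⟩ => ⟨a, fun i hi => absurd (Finset.mem_univ i) hi, b⟩, fun ⟨a, _, b⟩ => ⟨a, b⟩⟩

theorem Ax.linq [IsAlgClosed Ω] (h : Ax k G) (hq : Su k q) (c : Cz k p) {n : Type} [Fintype n]
    [DecidableEq n] {s : α → n → Ω} {g : α → Ω} (hs : Pm k s) (hg : Pm k g)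
    (h1 : ∀ D : Finset n, G.good fun x => p x ∧ ∀ a ∈ D, s x a = 0)
    (h2 : G.good fun x => p x ∧ (∀ a, s x a = 0) ∧ g x = 0) :
    G.good fun y : α × (n → Ω) => p y.1 ∧ ∑ a, y.2 a ^ q * s y.1 a + g y.1 = 0 := by
  have h0 : q ≠ 0 := hq.pos.ne'
  have h3 := h.lin c (s := fun x a => s x a ^ q) (g := fun x => g x ^ q) (by fun_prop)
    (by fun_prop) (fun D => G.congr (h1 D) fun x => by simp only [pow_eq_zero_iff h0])
    (G.congr h2 fun x => by simp only [pow_eq_zero_iff h0])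
  have key : ∀ (x : α) (y : n → Ω),
      ∑ a, y a ^ q * s (frob (q ^ 2) x) a + g (frob (q ^ 2) x) =
        (∑ a, y a * s x a ^ q + g x ^ q) ^ q := by
    intro x y
    rw [hq.add_pow, hq.sum_pow, hq.frob_comm hg, frob_self, ← pow_mul, ← sq]
    refine congrArg (· + _) (Finset.sum_congr rfl fun a _ => ?_)
    rw [hq.frob_comm (hs.eval a), frob_self, mul_pow, ← pow_mul, ← sq]
  refine h.fin (Fi.mk' (fun z : α × (n → Ω) => (frob (q ^ 2) z.1, z.2)) (by fun_prop) ?_ ?_ ?_) h3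
  · exact ⟨Af.ι α, inferInstance, fun z i => co z.1 i, q ^ 2, fun _ _ _ => 0, fun x i => co x.1 i,
      fun x => (pt α x.2, x.1.2), one_lt_pow₀ hq.lt two_ne_zero, by fun_prop, by fun_prop,
      by fun_prop, by fun_prop, fun z _ i => by simp [co_frob],
      fun z _ => Prod.ext (pt_co z.1) rfl⟩
  · rintro ⟨x, y⟩ ⟨a1, a2⟩
    refine ⟨(hq.frob_iff c x).2 a1, (key x y).trans ?_⟩
    exact (pow_eq_zero_iff h0).2 a2
  · rintro ⟨x, y⟩ ⟨a1, a2⟩
    obtain ⟨x', rfl⟩ := frob_surj (pow_pos hq.pos 2) x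
    exact ⟨(x', y), ⟨(hq.frob_iff c x').1 a1, (pow_eq_zero_iff h0).1 ((key x' y).symm.trans a2)⟩,
      rfl⟩

/-- a part of a column -/
def ext_DA6 {n ι : Type} [DecidableEq n] [DecidableEq ι] (D : Finset n) (i : ι) (v : n → Ω) :
    Matrix n ι Ω := Matrix.of fun a j => if a ∈ D ∧ j = i then v a else 0

@[fun_prop]
theorem pm_ext_DA6 {n ι : Type} [Fintype n] [Fintype ι] [DecidableEq n] [DecidableEq ι]
    (D : Finset n) (i : ι) {v : α → n → Ω} (hv : Pm k v) : Pm k fun x => ext_DA6 D i (v x) :=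
  Pm.mat fun a j => Pm.ite (a ∈ D ∧ j = i) (hv.eval a) (Pm.const (0 : Ω))

theorem ext_mulVec_DA6 {n ι : Type} [Fintype ι] [DecidableEq n] [DecidableEq ι] {D : Finset n}
    (i : ι) (v : n → Ω) (M : Matrix n ι Ω) (γ : ι → Ω) {a : n} (ha : a ∈ D) :
    ((M + ext_DA6 D i v) *ᵥ γ) a = (M *ᵥ γ) a + v a * γ i := by
  rw [add_mulVec, Pi.add_apply]
  simp [ext_DA6, mulVec, dotProduct, ha]

/-- some rows of a matrix are orthogonal to a vector with given support -/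
theorem Ax.rows (h : Ax k G) (c : Cz k p) (hp : G.good p) {n ι : Type} [Fintype n] [Fintype ι]
    [DecidableEq n] [DecidableEq ι] (D : Finset n) (Γ : Finset ι) :
    G.good fun y : α × (ι → Ω) × Matrix n ι Ω =>
      p y.1 ∧ (∀ i, i ∉ Γ → y.2.1 i = 0) ∧ ∀ a ∈ D, (y.2.2 *ᵥ y.2.1) a = 0 := by
  induction Γ using Finset.induction_on with
  | empty =>
    refine h.iso (fun z : α × Matrix n ι Ω => (z.1, 0, z.2))
      (fun y : α × (ι → Ω) × Matrix n ι Ω => (y.1, y.2.2)) (by fun_prop) (by fun_prop)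
      (fun z hz => ⟨hz, fun _ _ => rfl, fun a _ => by simp⟩) (fun y hy => hy.1) (fun z _ => rfl)
      (fun y hy => ?_) (h.aff (Matrix n ι Ω) hp)
    exact Prod.ext rfl (Prod.ext (funext fun i => (hy.2.1 i (Finset.notMem_empty i)).symm) rfl)
  | insert i Γ hi ih =>
    refine h.split (g := fun y => y.2.1 i) (by fun_prop) (by fun_prop)
      (G.congr ih fun y => ⟨fun ⟨⟨a1, a2, a3⟩, a4⟩ => ⟨a1, fun b hb => ?_, a3⟩,
        fun ⟨a1, a2, a3⟩ => ⟨⟨a1, fun b hb => a2 b fun e => hb (Finset.mem_insert_of_mem e),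
          a3⟩, a2 i hi⟩⟩) ?_
    · by_cases e : b = i
      · rw [e, a4]
      · exact a2 b fun e' => (Finset.mem_insert.1 e').elim e hb
    refine h.iso
      (fun z : ((α × (ι → Ω)) × Ω) × Matrix n ι Ω => ((z.1.1.1, z.1.1.2,
        z.2 + ext_DA6 D i (-z.1.2 • (z.2 *ᵥ z.1.1.2))), z.1.2))
      (fun y : (α × (ι → Ω) × Matrix n ι Ω) × Ω => (((y.1.1, y.1.2.1), y.2),
        y.1.2.2 + ext_DA6 D i (-y.1.2.2.col i)))
      (by fun_prop) (by fun_prop) ?_ ?_ ?_ ?_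
      (h.msupp (fun a j => a ∈ D ∧ j = i) (h.opn (g := fun y => y.2 i) (by fun_prop)
        (h.supp (· ∉ insert i Γ) hp)))
    · rintro ⟨⟨⟨x, γ⟩, u⟩, M⟩ ⟨⟨⟨a1, a2⟩, a3⟩, a4⟩
      refine ⟨⟨a1, a2, fun a ha => ?_⟩, a3⟩
      simp only [ext_mulVec_DA6 i _ M γ ha, Pi.smul_apply, smul_eq_mul] at a3 ⊢
      linear_combination (-(M *ᵥ γ) a) * a3
    · rintro ⟨⟨x, γ, M⟩, u⟩ ⟨⟨a1, a2, a3⟩, a4⟩
      refine ⟨⟨⟨a1, a2⟩, a4⟩, ?_⟩
      rintro a _ ⟨ha, rfl⟩
      simp [ext_DA6, ha]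
    · rintro ⟨⟨⟨x, γ⟩, u⟩, M⟩ ⟨⟨⟨a1, a2⟩, a3⟩, a4⟩
      refine Prod.ext rfl (Matrix.ext fun a j => ?_)
      by_cases e : a ∈ D ∧ j = i
      · have a5 : M a j = 0 := a4 a j e
        obtain ⟨ha, rfl⟩ := e
        simp [ext_DA6, ha, a5]
      · simp [ext_DA6, e]
    · rintro ⟨⟨x, γ, M⟩, u⟩ ⟨⟨a1, a2, a3⟩, a4⟩
      refine Prod.ext (Prod.ext rfl (Prod.ext rfl (Matrix.ext fun a j => ?_))) rfl
      by_cases e : a ∈ D ∧ j = i
      · obtain ⟨ha, rfl⟩ := e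
        have a5 : (M *ᵥ γ) a = 0 := a3 a ha
        have a6 := ext_mulVec_DA6 j (-M.col j) M γ ha
        simp only [Matrix.add_apply]
        simp only [ext_DA6, Matrix.of_apply, ha, and_self, if_true, Pi.smul_apply, smul_eq_mul,
          Pi.neg_apply, Matrix.col_apply] at a4 a6 ⊢
        rw [a6, a5]
        linear_combination M a j * a4
      · simp [ext_DA6, e]

end Pool.Agent.CXD
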