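import Pool.Agent.P.MP_2ce3e7_ag.DW0
import Pool.Agent.P.MP_2ce3e7_ag.DA1

/-! Powers of the characteristic and change of the field of constants. -/

set_option linter.unusedSectionVars false
set_option linter.unusedVariables false

open Function Matrix

noncomputable section

namespace Pool.Agent.CXD

/-- `q` is a power of the characteristic -/
structure Sch (k : Type) [Field k] (q : ℕ) : Prop where
  prime : (ringChar k).Prime
  pw : ∃ e, 0 < e ∧ q = ringChar k ^ e

theorem sch_of_card {k : Type} [Field k] [Fintype k] {q s : ℕ} (h : Fintype.card k = q ^ s) :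
    Sch k q := by
  obtain ⟨n, hp, hn⟩ := FiniteField.card k (ringChar k)
  have h0 := Fintype.one_lt_card (α := k)
  have h1 : q ∣ ringChar k ^ (n : ℕ) := by
    rw [← hn, h]
    refine dvd_pow_self q ?_
    rintro rfl
    rw [h] at h0
    exact lt_irrefl _ h0
  obtain ⟨e, -, he⟩ := (Nat.dvd_prime_pow hp).1 h1
  refine ⟨hp, e, Nat.pos_of_ne_zero ?_, he⟩
  rintro rfl
  rw [h, he, pow_zero, one_pow] at h0
  exact lt_irrefl _ h0

theorem Su.sch {k : Type} [Field k] {q : ℕ} (h : Su k q) : Sch k q := by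
  have := h.finite
  have := Fintype.ofFinite k
  exact sch_of_card (Nat.card_eq_fintype_card.symm.trans h.card)

section
variable {k R : Type} [Field k] [CommRing R] [Algebra k R] {q : ℕ} (h : Sch k q)
include h

theorem Sch.lt : 1 < q := by
  obtain ⟨e, he, rfl⟩ := h.pw
  exact Nat.one_lt_pow he.ne' h.prime.one_lt

variable (R) in
theorem Sch.exists_hom : ∃ φ : R →+* R, ∀ x, φ x = x ^ q := by
  obtain ⟨e, -, he⟩ := h.pw
  rcases subsingleton_or_nontrivial R with hR | hR
  · exact ⟨RingHom.id R, fun x => Subsingleton.elim _ _⟩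
  · have := charP_of_injective_algebraMap (algebraMap k R).injective (ringChar k)
    have := Fact.mk h.prime
    exact ⟨iterateFrobenius R (ringChar k) e, fun x => by rw [iterateFrobenius_def, he]⟩

theorem Sch.add_pow (x y : R) : (x + y) ^ q = x ^ q + y ^ q := by
  obtain ⟨φ, hφ⟩ := h.exists_hom R
  simp only [← hφ, map_add]

theorem Sch.fm_mul {l m n : Type} [Fintype m] (M : Matrix l m R) (N : Matrix m n R) :
    fm q (M * N) = fm q M * fm q N := by
  obtain ⟨φ, hφ⟩ := h.exists_hom R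
  have e : ∀ (l m : Type) (M : Matrix l m R), fm q M = M.map φ :=
    fun l m M => Matrix.ext fun i j => (hφ _).symm
  simp only [e, Matrix.map_mul]

theorem Sch.fm_zero {l m : Type} : fm q (0 : Matrix l m R) = 0 :=
  Matrix.ext fun i j => zero_pow (one_pos.trans h.lt).ne'

theorem Sch.two (ho : Odd q) : (2 : k) ≠ 0 := by
  intro h2
  have : CharP k 2 := (CharP.charP_iff_prime_eq_zero Nat.prime_two).2 (by exact_mod_cast h2)
  obtain ⟨e, he, rfl⟩ := h.pw
  rw [ringChar.eq k 2] at ho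
  exact (Nat.not_even_iff_odd.2 ho) ((Nat.even_pow' he.ne').2 even_two)

end

theorem Sch.pp_mul {k Ω : Type} [Field k] [Field Ω] [Algebra k Ω] {q : ℕ} (hq : Sch k q)
    {l a b a' b' : ℕ} {u : Matrix (Fin l) (Fin a) Ω} {v : Matrix (Fin l) (Fin b) Ω} (h : Pp q u v)
    (w : Matrix (Fin a) (Fin a') Ω) (w' : Matrix (Fin b) (Fin b') Ω) : Pp q (u * w) (v * w') := by
  have e : uᵀ * fm q v = 0 := h
  change (u * w)ᵀ * fm q (v * w') = 0
  rw [hq.fm_mul, transpose_mul, Matrix.mul_assoc, ← Matrix.mul_assoc uᵀ, e, Matrix.zero_mul,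
    Matrix.mul_zero]

theorem exists_su (k : Type) [Field k] [Fintype k] {q r : ℕ} (h : Fintype.card k = q ^ (2 * r)) :
    ∃ (k₀ : Type) (_ : Field k₀) (_ : Algebra k₀ k), Su k₀ q := by
  have hq := sch_of_card h
  obtain ⟨e, he, h1⟩ := hq.pw
  have := Fact.mk hq.prime
  let := ZMod.algebra k (ringChar k)
  have h2 : 2 * e ≠ 0 := by omega
  have h3 : Module.finrank (ZMod (ringChar k)) k = 2 * e * r := by
    refine Nat.pow_right_injective hq.prime.two_le ?_
    have h4 := FiniteField.pow_finrank_eq_card (ringChar k) k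
    beta_reduce
    rw [h4, h, h1, ← pow_mul]
    congr 1
    ring
  obtain ⟨f⟩ := FiniteField.nonempty_algHom_of_finrank_dvd (F := ZMod (ringChar k))
    (K := GaloisField (ringChar k) (2 * e)) (L := k)
    (by rw [GaloisField.finrank _ h2, h3]; exact Dvd.intro _ rfl)
  refine ⟨GaloisField (ringChar k) (2 * e), inferInstance, f.toRingHom.toAlgebra, ?_, hq.lt⟩
  rw [GaloisField.card _ _ h2, h1, ← pow_mul, mul_comm]

variable {k₀ k Ω : Type} [Field k₀] [Field k] [Field Ω] [Algebra k₀ k] [Algebra k Ω] [Algebra k₀ Ω]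
  [IsScalarTower k₀ k Ω] {α β : Type} [Af Ω α] [Af Ω β]

variable (k) in
theorem Pm.up {f : α → β} (h : Pm k₀ f) : Pm k f := fun j => (h j).elim fun p hp =>
  ⟨MvPolynomial.map (algebraMap k₀ k) p, fun x => by rw [hp, MvPolynomial.aeval_map_algebraMap]⟩

variable (k) in
theorem Cz.up {p : α → Prop} (h : Cz k₀ p) : Cz k p :=
  h.elim fun T hT => ⟨T, fun f hf => (hT.1 f hf).up k, hT.2⟩

variable (k) in
theorem Fi.up {p' : β → Prop} {p : α → Prop} (h : Fi k₀ p' p) : Fi k p' p := by
  obtain ⟨f, hf, ⟨κ, _, y, N, m, b, r, h1, h2, h3, h4, h5, h6⟩, h7⟩ := h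
  exact ⟨f, hf.up k, ⟨κ, _, y, N, m, b, r, h1, h2.up k, h3.up k, h4.up k, h5.up k, h6⟩, h7⟩

variable (k₀) {G : Gp Ω} {R : Gq Ω}

theorem Ax.down (h : Ax k G) : Ax k₀ G :=
  ⟨fun c g => h.split (c.up k) (g.up k), fun f => h.fin (f.up k), h.line, fun g => h.opn (g.up k),
    fun c s g => h.blow (c.up k) (s.up k) (g.up k), h.empty⟩

theorem Aq.down (h : Aq k G R) : Aq k₀ G R :=
  ⟨fun f r hf hr => h.iso f r (hf.up k) (hr.up k),
    fun g f r c hg hf hr => h.piece g f r (c.up k) (fun i => (hg i).up k) (hf.up k)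
      fun i => (hr i).up k,
    fun v => h.vs ⟨v.cp.up k, v.cE.up k, fun J => (v.ps J).up k, fun m => (v.pμ m).up k,
      fun i J => (v.pη i J).up k, v.pb.up k, v.base, v.smul,
      fun J => (v.sec J).imp fun _ => Exists.imp fun _ h => ⟨h.1.up k, h.2⟩, v.rel⟩⟩

end Pool.Agent.CXD
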