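import Pool.Agent.P.MP_2ce3e7_ag.DA2

/-! Hermitian cones. -/

set_option linter.unusedSectionVars false
set_option linter.unusedVariables false

open Function Matrix

noncomputable section

namespace Pool.Agent.CXD

variable {k Ω : Type} [Field k] [Field Ω] [Algebra k Ω] {α β γ : Type} [Af Ω α] [Af Ω β] [Af Ω γ]
  {G : Gp Ω} {q : ℕ} {p : α → Prop}

theorem gen_DB1 (hq : Su k q) : ∃ g : k, g ^ (q ^ 2 - 1) = 1 ∧
    ∀ n, 0 < n → n < q ^ 2 - 1 → g ^ n ≠ 1 := by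
  have := hq.finite
  obtain ⟨g, hg⟩ := IsCyclic.exists_ofOrder_eq_natCard (α := kˣ)
  rw [Nat.card_units, hq.card] at hg
  refine ⟨g, ?_, fun n h0 h1 h2 => ?_⟩
  · rw [← hg, ← Units.val_pow_eq_pow_val, pow_orderOf_eq_one, Units.val_one]
  · exact pow_ne_one_of_lt_orderOf h0.ne' (hg ▸ h1) (Units.ext (by simpa using h2))

theorem Su.exists_hyp (hq : Su k q) :
    ∃ ζ l : k, ζ ^ (q + 1) = -1 ∧ l ^ q + l + 1 = 0 := by
  obtain ⟨g, g1, g2⟩ := gen_DB1 hq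
  have hlt := hq.lt
  have hz : ∃ ζ : k, ζ ^ (q + 1) = -1 := by
    rcases Nat.even_or_odd q with he | ⟨m, rfl⟩
    · have := hq.neg_pow (1 : k)
      rw [he.neg_one_pow, one_pow] at this
      exact ⟨1, by rw [one_pow, ← this]⟩
    · have e : (2 * m + 1) ^ 2 - 1 = m * (2 * m + 1 + 1) * 2 := by
        rw [Nat.sub_eq_iff_eq_add (Nat.one_le_pow _ _ (by omega))]; ring
      have hm : 0 < m * (2 * m + 1 + 1) := Nat.mul_pos (by omega) (by omega)
      rw [e] at g1 g2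
      refine ⟨g ^ m, ?_⟩
      rw [← pow_mul]
      rw [pow_mul] at g1
      exact (mul_self_eq_one_iff.1 ((sq _).symm.trans g1)).resolve_left (g2 _ hm (by omega))
  have hx : ∃ x : k, x ^ q + x ≠ 0 := by
    by_contra hn
    push Not at hn
    have h1 := hn 1
    have h2 := hn g
    obtain ⟨m, rfl⟩ : ∃ m, q = m + 1 := ⟨q - 1, by omega⟩
    have e : (m + 1) ^ 2 - 1 = m * (m + 2) := by
      rw [Nat.sub_eq_iff_eq_add (Nat.one_le_pow _ _ (by omega))]; ring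
    rw [e] at g1 g2
    have g0 : g ≠ 0 := by
      rintro rfl
      rw [zero_pow (Nat.mul_ne_zero (by omega) (by omega))] at g1
      exact zero_ne_one g1
    refine g2 m (by omega) (lt_mul_of_one_lt_right (by omega) (by omega)) ?_
    rw [one_pow] at h1
    apply mul_right_cancel₀ g0
    linear_combination h2 - g * h1
  obtain ⟨ζ, hζ⟩ := hz
  obtain ⟨x, hx⟩ := hx
  have hc : (x ^ q + x) ^ q = x ^ q + x := by
    rw [hq.add_pow, ← pow_mul, ← sq, hq.pow_card, add_comm]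
  refine ⟨ζ, -(x / (x ^ q + x)), hζ, ?_⟩
  rw [hq.neg_pow, div_pow, hc]
  field_simp
  ring

/-- hyperbolic coordinates -/
theorem Su.exists_coord (hq : Su k q) : ∃ f r : Ω × Ω → Ω × Ω, Pm k f ∧ Pm k r ∧
    (∀ x, r (f x) = x) ∧ (∀ x, f (r x) = x) ∧
      ∀ x, (f x).1 ^ (q + 1) + (f x).2 ^ (q + 1) = x.1 * x.2 ^ q + x.1 ^ q * x.2 := by
  obtain ⟨ζ, l, h1, h2⟩ := hq.exists_hyp
  have e1 := congrArg (algebraMap k Ω) h1
  have e2 := congrArg (algebraMap k Ω) h2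
  simp only [map_pow, map_neg, map_one, map_add, map_zero] at e1 e2
  have z0 : algebraMap k Ω ζ ≠ 0 := by
    intro h
    rw [h, zero_pow (Nat.succ_ne_zero _)] at e1
    exact one_ne_zero (neg_eq_zero.1 e1.symm)
  refine ⟨fun x => (x.1 + (1 + algebraMap k Ω l) * x.2,
      algebraMap k Ω ζ * (x.1 + algebraMap k Ω l * x.2)),
    fun y => (y.2 * (algebraMap k Ω ζ)⁻¹ - algebraMap k Ω l * (y.1 - y.2 * (algebraMap k Ω ζ)⁻¹),
      y.1 - y.2 * (algebraMap k Ω ζ)⁻¹), by fun_prop, by fun_prop, fun x => ?_, fun x => ?_,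
    fun x => ?_⟩
  · refine Prod.ext ?_ ?_ <;> simp only <;> field_simp <;> ring
  · refine Prod.ext ?_ ?_ <;> simp only <;> field_simp <;> ring
  · simp only
    rw [mul_pow, e1, pow_succ, pow_succ, hq.add_pow, hq.add_pow, mul_pow, mul_pow, hq.add_pow,
      one_pow]
    linear_combination x.2 ^ q * x.2 * e2

theorem cover_DB1 (h : Ax k G) (hq : Su k q) (h0 : G.good fun _ : Fin 0 → Ω => True) (N : ℕ)
    (ih : G.good fun y : Ω × (Fin N → Ω) => y.1 ^ q + y.1 + ∑ i, y.2 i ^ (q + 1) = 0) :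
    G.good fun z : ((Ω × (Fin N → Ω)) × Ω) × Ω =>
      z.1.1.1 ^ q + z.1.1.1 + z.1.2 * (z.2 ^ q ^ 2 - z.2) + ∑ i, z.1.1.2 i ^ (q + 1) = 0 := by
  refine h.split (g := fun z => z.2 ^ q ^ 2 - z.2) (by fun_prop) (by fun_prop) ?_ ?_
  · refine h.rat hq (w := fun z => z.2) (by fun_prop) (by fun_prop)
      (fun z hz => sub_eq_zero.1 hz.2) fun a => ?_
    have ha : algebraMap k Ω a ^ q ^ 2 = algebraMap k Ω a := by rw [← map_pow, hq.pow_card]
    refine h.iso (fun y : (Ω × (Fin N → Ω)) × Ω => (y, algebraMap k Ω a)) (fun z => z.1)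
      (by fun_prop) (by fun_prop) ?_ ?_ ?_ ?_ (h.line ih)
    · intro y hy
      refine ⟨⟨?_, sub_eq_zero.2 ha⟩, rfl⟩
      simp only [ha, sub_self, mul_zero, add_zero]
      exact hy
    · rintro z ⟨⟨h1, h2⟩, -⟩
      rw [h2, mul_zero, add_zero] at h1
      exact h1
    · intro y _; rfl
    · rintro z ⟨-, h3⟩
      exact Prod.ext rfl h3.symm
  · refine h.iso (fun y : ((Ω × (Fin N → Ω)) × Ω) × Ω => ((((y.1.1,
        -y.2 * (y.1.1.1 ^ q + y.1.1.1 + ∑ i, y.1.1.2 i ^ (q + 1))), y.1.2), y.2) :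
          (((Ω × (Fin N → Ω)) × Ω) × Ω) × Ω))
      (fun z => ((z.1.1.1, z.1.2), z.2)) (by fun_prop) (by fun_prop) ?_ ?_ ?_ ?_
      (h.opn (g := fun z => z.2 ^ q ^ 2 - z.2) (by fun_prop) (h.univ h0 _))
    · rintro ⟨⟨⟨s, y⟩, w⟩, t⟩ ⟨-, h2⟩
      refine ⟨?_, h2⟩
      simp only at h2 ⊢
      linear_combination -(s ^ q + s + ∑ i, y i ^ (q + 1)) * h2
    · rintro z ⟨-, h2⟩
      exact ⟨trivial, h2⟩
    · intro y _; rfl
    · rintro ⟨⟨⟨⟨s, y⟩, u⟩, w⟩, t⟩ ⟨h1, h2⟩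
      simp only [Prod.mk.injEq, and_true, true_and] at h1 h2 ⊢
      linear_combination -t * h1 + u * h2

theorem Ax.tr_step [IsAlgClosed Ω] (h : Ax k G) (hq : Su k q)
    (h0 : G.good fun _ : Fin 0 → Ω => True) (N : ℕ)
    (ih : G.good fun y : Ω × (Fin N → Ω) => y.1 ^ q + y.1 + ∑ i, y.2 i ^ (q + 1) = 0) :
    G.good fun y : Ω × (Fin (N + 2) → Ω) => y.1 ^ q + y.1 + ∑ i, y.2 i ^ (q + 1) = 0 := by
  obtain ⟨f, r, hf, hr, h1, h2, h3⟩ := hq.exists_coord (Ω := Ω)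
  have key : ∀ (s u w : Ω) (y : Fin N → Ω), (s - u * w) ^ q + (s - u * w) +
      ∑ i, vecCons (f (u, w ^ q)).1 (vecCons (f (u, w ^ q)).2 y) i ^ (q + 1) =
      s ^ q + s + u * (w ^ q ^ 2 - w) + ∑ i, y i ^ (q + 1) := by
    intro s u w y
    have e := h3 (u, w ^ q)
    simp only [Fin.sum_univ_succ, cons_val_zero, cons_val_succ] at e ⊢
    rw [hq.sub_pow, mul_pow, sq, pow_mul]
    linear_combination e
  refine h.fin (Fi.mk' (fun z : ((Ω × (Fin N → Ω)) × Ω) × Ω => ((z.1.1.1 - z.1.2 * z.2,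
      vecCons (f (z.1.2, z.2 ^ q)).1 (vecCons (f (z.1.2, z.2 ^ q)).2 z.1.1.2)) :
        Ω × (Fin (N + 2) → Ω))) (by fun_prop)
    (Fm0.one (fun z => z.2) q (fun _ => 0) (fun x => (r (x.2 0, x.2 1)).2)
      (fun x => (((x.1.1 + (r (x.1.2 0, x.1.2 1)).1 * x.2, fun i => x.1.2 i.succ.succ),
        (r (x.1.2 0, x.1.2 1)).1), x.2)) hq.lt (by fun_prop) (by fun_prop) (by fun_prop)
      (by fun_prop) ?_ ?_) ?_ ?_) (cover_DB1 h hq h0 N ih)
  · intro z _
    simp [h1]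
  · rintro ⟨⟨⟨s, y⟩, u⟩, w⟩ _
    simp [h1]
  · rintro ⟨⟨⟨s, y⟩, u⟩, w⟩ hz
    exact (key s u w y).trans hz
  · rintro ⟨s, Y⟩ hx
    obtain ⟨w, hw⟩ := IsAlgClosed.exists_pow_nat_eq (r (Y 0, Y 1)).2 hq.pos
    have e : vecCons (f ((r (Y 0, Y 1)).1, w ^ q)).1 (vecCons (f ((r (Y 0, Y 1)).1, w ^ q)).2
        fun i : Fin N => Y i.succ.succ) = Y := by
      rw [hw, Prod.mk.eta, h2]
      funext i
      refine Fin.cases rfl (fun j => Fin.cases rfl (fun _ => rfl) j) i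
    refine ⟨(((s + (r (Y 0, Y 1)).1 * w, fun i => Y i.succ.succ), (r (Y 0, Y 1)).1), w), ?_,
      Prod.ext (add_sub_cancel_right _ _) e⟩
    have := key (s + (r (Y 0, Y 1)).1 * w) (r (Y 0, Y 1)).1 w fun i => Y i.succ.succ
    rw [e, add_sub_cancel_right] at this
    exact this.symm.trans hx

theorem Ax.tr_all [IsAlgClosed Ω] (h : Ax k G) (hq : Su k q)
    (h0 : G.good fun _ : Fin 0 → Ω => True)
    (h1 : G.good fun y : Ω × Ω => y.1 ^ q + y.1 + y.2 ^ (q + 1) = 0) (N : ℕ) :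
    G.good fun y : Ω × (Fin N → Ω) => y.1 ^ q + y.1 + ∑ i, y.2 i ^ (q + 1) = 0 := by
  induction N using Nat.twoStepInduction with
  | zero =>
    refine h.points hq h0 ?_
    rintro ⟨s, y⟩ hx
    simp only [Finset.univ_eq_empty, Finset.sum_empty, add_zero] at hx
    have e : s ^ q = -s := eq_neg_of_add_eq_zero_left hx
    have : Kr k s := (hq.kr_iff s).2 (by rw [sq, pow_mul, e, hq.neg_pow, e, neg_neg])
    have : Kr k y := kr_pi fun i => i.elim0
    infer_instance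
  | one =>
    refine h.iso (fun y : Ω × Ω => ((y.1, fun _ => y.2) : Ω × (Fin 1 → Ω))) (fun z => (z.1, z.2 0))
      (by fun_prop) (by fun_prop) ?_ ?_ ?_ ?_ h1
    · intro y hy
      simpa using hy
    · intro z hz
      simpa using hz
    · intro y _; rfl
    · intro z _
      exact Prod.ext rfl (funext fun i => by rw [Subsingleton.elim i 0])
  | more N ih _ => exact h.tr_step hq h0 N ih

end Pool.Agent.CXD
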