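import Pool.Agent.P.MP_2ce3e7_ag.DB1

/-! Hermitian cones, continued. -/

set_option linter.unusedSectionVars false
set_option linter.unusedVariables false

open Function Matrix

noncomputable section

namespace Pool.Agent.CXD

variable {k Ω : Type} [Field k] [Field Ω] [Algebra k Ω] {α β γ : Type} [Af Ω α] [Af Ω β] [Af Ω γ]
  {G : Gp Ω} {q : ℕ} {p : α → Prop}

theorem Ax.cone_step [IsAlgClosed Ω] (h : Ax k G) (hq : Su k q) (N : ℕ)
    (h1 : G.good fun y : Ω × (Fin N → Ω) => y.1 ^ q + y.1 + ∑ i, y.2 i ^ (q + 1) = 0)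
    (ih : G.good fun y : Fin N → Ω => ∑ i, y i ^ (q + 1) = 0) :
    G.good fun y : Fin (N + 2) → Ω => ∑ i, y i ^ (q + 1) = 0 := by
  obtain ⟨f, r, hf, hr, e1, e2, e3⟩ := hq.exists_coord (Ω := Ω)
  have hq0 : q ≠ 0 := hq.pos.ne'
  have hW : G.good fun z : (Ω × Ω) × (Fin N → Ω) =>
      z.1.1 * z.1.2 ^ q + z.1.1 ^ q * z.1.2 + ∑ i, z.2 i ^ (q + 1) = 0 := by
    refine h.split (g := fun z => z.1.2) (by fun_prop) (by fun_prop) ?_ ?_
    · refine h.iso (fun w : (Fin N → Ω) × Ω => ((w.2, 0), w.1)) (fun z => (z.2, z.1.1))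
        (by fun_prop) (by fun_prop) ?_ ?_ (fun _ _ => rfl) ?_ (h.line ih)
      · rintro ⟨y, u⟩ hy
        exact ⟨by simpa [hq0] using hy, rfl⟩
      · rintro ⟨⟨u, v⟩, y⟩ ⟨h2, rfl⟩
        simpa [hq0] using h2
      · rintro ⟨⟨u, v⟩, y⟩ ⟨h2, rfl⟩
        rfl
    · refine h.iso
        (fun w : (Ω × (Fin N → Ω)) × Ω × Ω => (((w.1.1 * w.2.1, w.2.1), w.2.1 • w.1.2), w.2.2))
        (fun z => ((z.1.1.1 * z.2, z.2 • z.1.2), z.1.1.2, z.2))
        (by fun_prop) (by fun_prop) ?_ ?_ ?_ ?_ (h.gm h1)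
      · rintro ⟨⟨s, y⟩, v, e⟩ ⟨h2, h3⟩
        refine ⟨?_, h3⟩
        simp only [Pi.smul_apply, smul_eq_mul, mul_pow, ← Finset.mul_sum] at h2 ⊢
        linear_combination v ^ (q + 1) * h2
      · rintro ⟨⟨⟨u, v⟩, y⟩, e⟩ ⟨h2, h3⟩
        refine ⟨?_, h3⟩
        have h4 : v ^ q * e ^ q = 1 := by rw [← mul_pow, show v * e = 1 from h3, one_pow]
        simp only [Pi.smul_apply, smul_eq_mul, mul_pow, ← Finset.mul_sum] at h2 h3 ⊢
        linear_combination e ^ (q + 1) * h2 - u * e * h4 - u ^ q * e ^ q * h3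
      · rintro ⟨⟨s, y⟩, v, e⟩ ⟨-, h3⟩
        have h4 : e * v = 1 := (mul_comm _ _).trans h3
        simp only [smul_smul, mul_assoc, show v * e = 1 from h3, h4, mul_one, one_smul]
      · rintro ⟨⟨⟨u, v⟩, y⟩, e⟩ ⟨-, h3⟩
        have h4 : e * v = 1 := (mul_comm _ _).trans h3
        simp only [smul_smul, mul_assoc, show v * e = 1 from h3, h4, mul_one, one_smul]
  refine h.iso
    (fun z : (Ω × Ω) × (Fin N → Ω) => vecCons (f z.1).1 (vecCons (f z.1).2 z.2))
    (fun y => (r (y 0, y 1), fun i => y i.succ.succ)) (by fun_prop) (by fun_prop) ?_ ?_ ?_ ?_ hW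
  · intro z hz
    rw [Fin.sum_univ_succ, Fin.sum_univ_succ]
    simp only [cons_val_zero, cons_val_succ]
    linear_combination hz + e3 z.1
  · intro y hy
    rw [Fin.sum_univ_succ, Fin.sum_univ_succ] at hy
    have h2 := e3 (r (y 0, y 1))
    rw [e2] at h2
    simp only [Fin.succ_zero_eq_one] at hy h2 ⊢
    linear_combination hy - h2
  · intro z _
    simp only [cons_val_zero, cons_val_one, cons_val_succ, Prod.mk.eta, e1]
  · intro y _
    funext i
    simp only [e2]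
    refine Fin.cases rfl (fun i => Fin.cases rfl (fun i => rfl) i) i

theorem Ax.cone_all [IsAlgClosed Ω] (h : Ax k G) (hq : Su k q)
    (h0 : G.good fun _ : Fin 0 → Ω => True)
    (h1 : G.good fun y : Ω × Ω => y.1 ^ q + y.1 + y.2 ^ (q + 1) = 0) (N : ℕ) :
    G.good fun y : Fin N → Ω => ∑ i, y i ^ (q + 1) = 0 := by
  induction N using Nat.twoStepInduction with
  | zero => exact G.congr h0 fun y => by simp
  | one =>
    refine h.points hq h0 fun y hy => kr_pi fun i => ?_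
    rw [Fin.sum_univ_one] at hy
    rw [Subsingleton.elim i 0, pow_eq_zero_iff (Nat.succ_ne_zero q) |>.1 hy]
    infer_instance
  | more N ih _ => exact h.cone_step hq N (h.tr_all hq h0 h1 N) ih

/-- the curve is the union of its rational points and their complement -/
theorem Ax.curve (h : Ax k G) (hq : Su k q) (h0 : G.good fun _ : Fin 0 → Ω => True)
    (h1 : G.good fun y : (Ω × Ω) × Ω => y.1.1 ^ q + y.1.1 + y.1.2 ^ (q + 1) = 0 ∧
      (y.1.1 + y.1.1 ^ q ^ 3 + y.1.2 ^ (1 + q ^ 3)) * y.2 = 1) :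
    G.good fun y : Ω × Ω => y.1 ^ q + y.1 + y.2 ^ (q + 1) = 0 := by
  refine h.split (g := fun y => y.1 + y.1 ^ q ^ 3 + y.2 ^ (1 + q ^ 3)) (by fun_prop) (by fun_prop)
    (h.points hq h0 ?_) h1
  rintro ⟨s, y⟩ ⟨h2, h3⟩
  have fr : ∀ a b c d : Ω, a + b + c * d = 0 → a ^ q + b ^ q + c ^ q * d ^ q = 0 := fun a b c d e => by
    rw [← mul_pow, ← hq.add_pow, ← hq.add_pow, e, zero_pow hq.pos.ne']
  have p2 : ∀ a : Ω, a ^ q ^ 2 = (a ^ q) ^ q := fun a => by rw [sq, pow_mul]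
  have p3 : ∀ a : Ω, a ^ q ^ 3 = ((a ^ q) ^ q) ^ q := fun a => by rw [pow_succ, pow_mul, p2]
  simp only [pow_succ y q, pow_add y 1, pow_one, p3] at h2 h3
  have h4 := fr _ _ _ _ h2
  have h5 := fr _ _ _ _ h4
  have h6 : ((y ^ q) ^ q - y) ^ (q + 1) = 0 := by
    rw [pow_succ, hq.sub_pow]
    linear_combination h5 - h4 + h2 - h3
  have h7 := sub_eq_zero.1 (pow_eq_zero_iff (Nat.succ_ne_zero q) |>.1 h6)
  have : Kr k y := (hq.kr_iff y).2 ((p2 y).trans h7)
  have : Kr k s := (hq.kr_iff s).2 ((p2 s).trans (by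
    rw [h7] at h4
    linear_combination h4 - h2))
  infer_instance

end Pool.Agent.CXD
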