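import Pool.Agent.P.MP_2ce3e7_ag.DT2
import Pool.Agent.P.MP_2ce3e7_ag.DA1

/-! The Lang map. -/

set_option linter.unusedSectionVars false
set_option linter.unusedVariables false

open Function Matrix

noncomputable section

namespace Pool.Agent.CXD

variable {k Ω : Type} [Field k] [Field Ω] [Algebra k Ω] {α β γ : Type} [Af Ω α] [Af Ω β] [Af Ω γ]

variable {ι : Type} [Fintype ι] [DecidableEq ι] {q : ℕ}

/-- the Lang map -/
def lang (q : ℕ) (y : Matrix ι ι Ω × Ω) : Matrix ι ι Ω × Ω := ((y.1ᵀ * fm q y.1)ᵀ, y.2 ^ (q + 1))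

theorem pm_lang : Pm k (lang q : Matrix ι ι Ω × Ω → _) := by
  unfold lang
  fun_prop

theorem Su.lang_det (h : Su k q) {y : Matrix ι ι Ω × Ω} (hy : y.1.det * y.2 = 1) :
    (lang q y).1.det * (lang q y).2 = 1 := by
  unfold lang
  rw [det_transpose, det_mul, det_transpose, h.fm_det, ← pow_succ', ← mul_pow, hy, one_pow]

theorem Su.lang_rel (h : Su k q) {y : Matrix ι ι Ω × Ω} (hy : y.1.det * y.2 = 1) :
    fm (q ^ 2) y.1 =
      y.1 * ((lang q y).2 • (lang q y).1.adjugate * (fm q (lang q y).1)ᵀ) := by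
  have h1 : (lang q y).1 = (fm q y.1)ᵀ * y.1 := by
    unfold lang
    rw [transpose_mul, transpose_transpose]
  have h2 : (fm q y.1)ᵀ * (y.1 * (lang q y).2 • (lang q y).1.adjugate) = 1 := by
    rw [← Matrix.mul_assoc, ← h1, Matrix.mul_smul, mul_adjugate, smul_smul, mul_comm, h.lang_det hy,
      one_smul]
  have h3 : (fm q (lang q y).1)ᵀ = (fm q y.1)ᵀ * fm (q ^ 2) y.1 := by
    rw [h1, h.fm_mul, transpose_mul, fm_transpose, transpose_transpose, fm_fm, sq]
  rw [h3, ← Matrix.mul_assoc, ← Matrix.mul_assoc, mul_eq_one_comm.1 h2, Matrix.one_mul]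

theorem Su.lang_inv (h : Su k q) {y : Matrix ι ι Ω × Ω} (hy : y.1.det * y.2 = 1) :
    y.2 = y.1.det ^ q * (lang q y).2 := by
  unfold lang
  rw [pow_succ, ← mul_assoc, ← mul_pow, hy, one_pow, one_mul]

theorem krull_DB3 {A : Type} [CommRing A] [IsDomain A] [IsNoetherianRing A] {S : Set A}
    (hI : Ideal.span S ≠ ⊤) (σ : A →+* A) (h1 : ∀ f, σ f - f ∈ Ideal.span S)
    (h2 : ∀ a ∈ S, σ a - a ∈ Ideal.span S ^ 2) {P : A} (hP : σ P = 0) : P = 0 := by
  have h3 : ∀ a ∈ Ideal.span S, σ a ∈ Ideal.span S := fun a ha => by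
    simpa using add_mem (h1 a) ha
  have h4 : ∀ a ∈ Ideal.span S, σ a - a ∈ Ideal.span S ^ 2 := fun a ha => by
    induction ha using Submodule.span_induction with
    | mem a ha => exact h2 a ha
    | zero => simp
    | add a b _ _ ia ib =>
      rw [map_add, add_sub_add_comm]
      exact add_mem ia ib
    | smul r a ha ia =>
      rw [smul_eq_mul, map_mul, show σ r * σ a - r * a = (σ r - r) * σ a + r * (σ a - a) by ring]
      exact add_mem (sq (Ideal.span S) ▸ Ideal.mul_mem_mul (h1 r) (h3 a ha))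
        (Ideal.mul_mem_left _ _ ia)
  have h5 : ∀ m, ∀ f ∈ Ideal.span S ^ m, σ f - f ∈ Ideal.span S ^ (m + 1) := fun m => by
    induction m with
    | zero => exact fun f _ => by simpa using h1 f
    | succ m ih =>
      intro f hf
      rw [pow_succ] at hf
      refine Submodule.mul_induction_on hf (fun x hx a ha => ?_) fun a b ia ib => ?_
      · rw [map_mul, show σ x * σ a - x * a = (σ x - x) * σ a + x * (σ a - a) by ring]
        exact add_mem (pow_succ (Ideal.span S) (m + 1) ▸ Ideal.mul_mem_mul (ih x hx) (h3 a ha))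
          (pow_add (Ideal.span S) m 2 ▸ Ideal.mul_mem_mul hx (h4 a ha))
      · rw [map_add, add_sub_add_comm]
        exact add_mem ia ib
  rw [← Ideal.mem_bot, ← Ideal.iInf_pow_eq_bot_of_isDomain _ hI, Ideal.mem_iInf]
  intro m
  induction m with
  | zero => simp
  | succ m ih => simpa [hP] using h5 m P ih

theorem Su.lang_dense [IsAlgClosed Ω] (h : Su k q) (g : Matrix ι ι Ω → Ω) (hg : Pm k g)
    (h0 : ∀ z : Matrix ι ι Ω, z.det ≠ 0 → g (zᵀ * fm q z)ᵀ = 0) (c : Matrix ι ι Ω) : g c = 0 := by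
  obtain ⟨p, hp⟩ : ∃ p : MvPolynomial ((_ : ι) × (_ : ι) × Unit) k,
    ∀ x, g x = MvPolynomial.aeval (fun s => x s.1 s.2.1) p := pm_self.1 hg
  obtain ⟨P, hP⟩ : ∃ P : MvPolynomial (ι × ι) Ω, ∀ x : Matrix ι ι Ω,
      g x = MvPolynomial.aeval (fun s => x s.1 s.2) P := by
    refine ⟨MvPolynomial.aeval (fun s => MvPolynomial.X (s.1, s.2.1)) p, fun x => ?_⟩
    have := MvPolynomial.comp_aeval_apply (f := fun s : (_ : ι) × (_ : ι) × Unit =>
      (MvPolynomial.X (s.1, s.2.1) : MvPolynomial (ι × ι) Ω))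
      ((MvPolynomial.aeval fun s : ι × ι => x s.1 s.2).restrictScalars k) p
    simpa [hp] using this.symm
  obtain ⟨Y, hY⟩ : ∃ Y : Matrix ι ι (MvPolynomial (ι × ι) Ω), ∀ i j, Y i j = MvPolynomial.X (i, j) :=
    ⟨of fun i j => MvPolynomial.X (i, j), fun _ _ => rfl⟩
  obtain ⟨σ, hσ⟩ : ∃ σ : MvPolynomial (ι × ι) Ω →ₐ[Ω] MvPolynomial (ι × ι) Ω,
    σ = MvPolynomial.aeval fun s => (Yᵀ * fm q Y)ᵀ s.1 s.2 := ⟨_, rfl⟩
  have hd : ∀ x : Matrix ι ι Ω, MvPolynomial.aeval (fun s : ι × ι => x s.1 s.2) Y.det = x.det := by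
    intro x
    rw [AlgHom.map_det]
    congr 1
    ext i j
    simp [hY]
  have e1 : σ P * Y.det = 0 := MvPolynomial.funext fun v => by
    obtain ⟨x, rfl⟩ : ∃ x : Matrix ι ι Ω, v = fun s => x s.1 s.2 := ⟨of fun i j => v (i, j), rfl⟩
    rw [map_zero, ← MvPolynomial.coe_aeval_eq_eval, RingHom.coe_coe, map_mul, hd]
    by_cases hx : x.det = 0
    · rw [hx, mul_zero]
    · rw [hσ, MvPolynomial.comp_aeval_apply, ← zero_mul x.det, ← h0 x hx, hP]
      congr 3
      funext s
      simp [mul_apply, fm_apply, hY]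
  have e2 : σ P = 0 := (mul_eq_zero.1 e1).resolve_right fun e => by
    simpa [e] using hd 1
  have e3 : ∀ s : ι × ι, σ (MvPolynomial.X s) - MvPolynomial.X s ∈
      Ideal.span (Set.range fun t : ι × ι => (Y - 1) t.1 t.2) ^ 2 := fun s => by
    have e : (Yᵀ * fm q Y)ᵀ - Y = (fm q (Y - 1))ᵀ * Y := by
      have := h.fm_add (Y - 1) 1
      rw [sub_add_cancel, h.fm_one] at this
      rw [this, transpose_mul, transpose_transpose, transpose_add, transpose_one, Matrix.add_mul,
        Matrix.one_mul, add_sub_cancel_right]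
    rw [hσ, MvPolynomial.aeval_X, ← hY s.1 s.2, ← Matrix.sub_apply, e, mul_apply]
    exact sum_mem fun a _ => Ideal.mul_mem_right _ _ (Ideal.pow_le_pow_right h.lt
      (Ideal.pow_mem_pow (Ideal.subset_span (Set.mem_range_self (a, s.1))) q))
  have e4 : P = 0 := by
    refine krull_DB3 (S := Set.range fun t : ι × ι => (Y - 1) t.1 t.2) (fun e => ?_) σ (fun f => ?_)
      ?_ e2
    · refine RingHom.ker_ne_top (MvPolynomial.aeval fun s : ι × ι => (1 : Matrix ι ι Ω) s.1 s.2 :
        MvPolynomial (ι × ι) Ω →ₐ[Ω] Ω) (top_le_iff.1 (e ▸ Ideal.span_le.2 ?_))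
      rintro _ ⟨t, rfl⟩
      simp [RingHom.mem_ker, hY, one_apply]
    · induction f using MvPolynomial.induction_on with
      | C a => simp [hσ]
      | add a b ia ib =>
        rw [map_add, add_sub_add_comm]
        exact add_mem ia ib
      | mul_X a s ia =>
        rw [map_mul, show ∀ u v w x : MvPolynomial (ι × ι) Ω,
          u * v - w * x = (u - w) * v + w * (v - x) from fun _ _ _ _ => by ring]
        exact add_mem (Ideal.mul_mem_right _ _ ia)
          (Ideal.mul_mem_left _ _ (Ideal.pow_le_self two_ne_zero (e3 s)))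
    · rintro _ ⟨t, rfl⟩
      simpa [hY, one_apply, apply_ite σ] using e3 t
  rw [hP, e4, map_zero]

end Pool.Agent.CXD
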