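import Pool.Agent.P.MP_2ce3e7_ag.DB3

/-! The Lang map is onto. -/

set_option linter.unusedSectionVars false
set_option linter.unusedVariables false

open Function Matrix

noncomputable section

namespace Pool.Agent.CXD

variable {k Ω : Type} [Field k] [Field Ω] [Algebra k Ω] {α β γ : Type} [Af Ω α] [Af Ω β] [Af Ω γ]

variable {ι : Type} [Fintype ι] [DecidableEq ι] {q : ℕ}

theorem Su.lang_fm0 (h : Su k q) :
    Fm0 k (fun y : Matrix ι ι Ω × Ω => y.1.det * y.2 = 1) (lang q) := by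
  refine ⟨ι × ι, inferInstance, fun z ij => z.1 ij.1 ij.2, q ^ 2,
    fun x ij ij' => if ij.1 = ij'.1 then (x.2 • x.1.adjugate * (fm q x.1)ᵀ) ij'.2 ij.2 else 0,
    fun _ => 0, fun w => (of fun i j => w.2 (i, j), (of fun i j => w.2 (i, j)).det ^ q * w.1.2),
    Nat.one_lt_pow two_ne_zero h.lt, ?_, ?_, ?_, ?_, ?_, ?_⟩
  · exact Pm.pi fun ij => Pm.id.fst.entry _ _
  · exact Pm.pi fun ij => Pm.pi fun ij' =>
      Pm.ite _ (Pm.entry (by fun_prop) _ _) (Pm.const (0 : Ω))
  · exact Pm.const _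
  · have h1 : Pm k fun w : (Matrix ι ι Ω × Ω) × (ι × ι → Ω) =>
        (of fun i j => w.2 (i, j) : Matrix ι ι Ω) := Pm.mat fun i j => Pm.id.snd.eval (i, j)
    exact h1.mk ((h1.det.pow q).mul Pm.id.fst.snd)
  · intro z hz ij
    have h1 := congrFun (congrFun (h.lang_rel hz) ij.1) ij.2
    rw [fm_apply, Matrix.mul_apply] at h1
    beta_reduce
    rw [Fintype.sum_prod_type, Pi.zero_apply, add_zero, Finset.sum_eq_single ij.1]
    · exact h1.trans (Finset.sum_congr rfl fun j _ => by rw [if_pos rfl, mul_comm])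
    · exact fun i _ hi => Finset.sum_eq_zero fun j _ => by rw [if_neg hi.symm, zero_mul]
    · exact fun hi => absurd (Finset.mem_univ _) hi
  · intro z hz
    exact Prod.ext rfl (h.lang_inv hz).symm

theorem clear_DB4 (P : MvPolynomial (Af.ι (Matrix ι ι Ω × Ω)) k) :
    ∃ (M : ℕ) (g : Matrix ι ι Ω → Ω), Pm k g ∧ ∀ x : Matrix ι ι Ω × Ω, x.1.det * x.2 = 1 →
      g x.1 = x.1.det ^ M * MvPolynomial.aeval (Af.e x) P := by
  induction P using MvPolynomial.induction_on with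
  | C a =>
    exact ⟨0, fun _ => algebraMap k Ω a, Pm.const _, fun x _ => by
      rw [pow_zero, one_mul, MvPolynomial.aeval_C]⟩
  | add P P' h h' =>
    obtain ⟨M, g, h1, h2⟩ := h
    obtain ⟨M', g', h1', h2'⟩ := h'
    refine ⟨M + M', fun c => c.det ^ M' * g c + c.det ^ M * g' c, by fun_prop, fun x hx => ?_⟩
    beta_reduce
    rw [h2 x hx, h2' x hx, map_add]
    ring
  | mul_X P n h =>
    obtain ⟨M, g, h1, h2⟩ := h
    rcases n with j | j
    · refine ⟨M, fun c => g c * co c j, by fun_prop, fun x hx => ?_⟩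
      beta_reduce
      rw [h2 x hx, map_mul, MvPolynomial.aeval_X, mul_assoc]
      rfl
    · refine ⟨M + 1, g, h1, fun x hx => ?_⟩
      rw [h2 x hx, map_mul, MvPolynomial.aeval_X]
      change _ = _ * (_ * x.2)
      linear_combination (-(x.1.det ^ M * MvPolynomial.aeval (Af.e x) P)) * hx

theorem Su.lang_surj [IsAlgClosed Ω] (h : Su k q) (c : Matrix ι ι Ω × Ω) (hc : c.1.det * c.2 = 1) :
    ∃ y : Matrix ι ι Ω × Ω, y.1.det * y.2 = 1 ∧ lang q y = c := by
  refine Fm0.surj (p := fun c : Matrix ι ι Ω × Ω => c.1.det * c.2 = 1) h.lang_fm0 pm_lang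
    (by fun_prop) (fun z hz => h.lang_det hz) (fun g hg h0 x hx => ?_) c hc
  obtain ⟨P, hP⟩ := pm_self.1 hg
  obtain ⟨M, g', h1, h2⟩ := clear_DB4 P
  have h3 := h.lang_dense g' h1 (fun z hz => ?_) x.1
  · rw [h2 x hx, ← hP] at h3
    exact (mul_eq_zero.1 h3).resolve_left (pow_ne_zero _ (left_ne_zero_of_mul_eq_one hx))
  · have h4 : (z, z.det⁻¹).1.det * (z, z.det⁻¹).2 = 1 := mul_inv_cancel₀ hz
    have h5 := h2 _ (h.lang_det h4)
    rw [← hP, h0 _ h4, mul_zero] at h5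
    exact h5

end Pool.Agent.CXD
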