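import Pool.Agent.P.MP_2ce3e7_ag.DH0
import Pool.Agent.P.MP_2ce3e7_ag.DA3

/-! One more step in a chain of frames. -/

set_option linter.unusedSectionVars false
set_option linter.unusedVariables false

open Function Matrix

noncomputable section

namespace Pool.Agent.CXD

variable {k Ω : Type} [Field k] [Field Ω] [Algebra k Ω] {α : Type} [Af Ω α] {G : Gp Ω} {q : ℕ}
  {ι : Type} [Fintype ι] [DecidableEq ι] [LinearOrder ι] {p : α → Prop} {M : α → Matrix ι ι Ω}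
  {a : α × Matrix ι ι Ω × Ω → α} {C P : ι → Finset ι}

/-- invertible upper triangular matrices -/
def Tri (b : Matrix ι ι Ω × Ω) : Prop := b.1.BlockTriangular id ∧ b.1.det * b.2 = 1

variable (k) in
/-- an action of the group of upper triangular matrices -/
structure Act (p : α → Prop) (M : α → Matrix ι ι Ω) (a : α × Matrix ι ι Ω × Ω → α) : Prop where
  cz : Cz k p
  pmM : Pm k M
  pma : Pm k a
  mem : ∀ x b, p x → Tri b → p (a (x, b))
  mul : ∀ x b b', a (a (x, b), b') = a (x, b * b')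
  one : ∀ x, a (x, 1) = x
  row : ∀ x b, Tri b → ∃ N, Tri N ∧ M (a (x, b)) = b.1ᵀ * M x * N.1

/-- the new variety -/
def FP (p : α → Prop) (M : α → Matrix ι ι Ω) (C P : ι → Finset ι)
    (y : α × Matrix ι ι Ω × Ω) : Prop :=
  p y.1 ∧ y.2.1.det * y.2.2 = 1 ∧ Col C y.2.1 ∧ Row P (y.2.1ᵀ * M y.1)

/-- the inverse matrix -/
def tinv (b : Matrix ι ι Ω × Ω) : Matrix ι ι Ω × Ω := (b.2 • b.1.adjugate, b.1.det)

theorem pm_tinv : Pm k (tinv : Matrix ι ι Ω × Ω → _) := by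
  unfold tinv
  fun_prop

@[fun_prop]
theorem Pm.pmul {f g : α → Matrix ι ι Ω × Ω} (hf : Pm k f) (hg : Pm k g) :
    Pm k fun x => f x * g x := (hf.fst.mmul hg.fst).mk (hf.snd.mul hg.snd)

theorem mul_tinv {b : Matrix ι ι Ω × Ω} (h : b.1.det * b.2 = 1) : b * tinv b = 1 := by
  refine Prod.ext ?_ ((mul_comm _ _).trans h)
  change b.1 * (b.2 • b.1.adjugate) = 1
  rw [Matrix.mul_smul, mul_adjugate, smul_smul, mul_comm, h, one_smul]

theorem tinv_mul {b : Matrix ι ι Ω × Ω} (h : b.1.det * b.2 = 1) : tinv b * b = 1 := by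
  refine Prod.ext ?_ h
  change (b.2 • b.1.adjugate) * b.1 = 1
  rw [Matrix.smul_mul, adjugate_mul, smul_smul, mul_comm, h, one_smul]

theorem tinv_det {b : Matrix ι ι Ω × Ω} (h : b.1.det * b.2 = 1) :
    (tinv b).1.det * (tinv b).2 = 1 := by
  have e : (tinv b).1 * b.1 = 1 := congrArg Prod.fst (tinv_mul h)
  have e' := congrArg det e
  rwa [det_mul, det_one] at e'

theorem Tri.tinv {b : Matrix ι ι Ω × Ω} (h : Tri b) : Tri (tinv b) := by
  refine ⟨?_, tinv_det h.2⟩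
  have e : b.1 * (CXD.tinv b).1 = 1 := congrArg Prod.fst (mul_tinv h.2)
  let _ := invertibleOfRightInverse _ _ e
  rw [← inv_eq_right_inv e]
  exact blockTriangular_inv_of_blockTriangular h.1

theorem Act.cz_fp (h : Act k p M a) : Cz k (FP p M C P) := by
  have := h.cz
  have := h.pmM
  unfold FP
  fun_prop

theorem Ax.f1 (h : Ax k G) {i : ι} (hi : C i = ∅) : G.good (FP p M C P) := by
  refine h.of_not fun y hy => ?_
  have e := hy.2.1
  rw [det_eq_zero_of_column_eq_zero i fun j => hy.2.2.1 i j (by simp [hi]), zero_mul] at e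
  exact zero_ne_one e

theorem df0_row (ha : Act k p M a) (hP : Lw P) (x : α) {b : Matrix ι ι Ω × Ω} (hb : Tri b) :
    Row P (M (a (x, b))) ↔ Row P (b.1ᵀ * M x) := by
  obtain ⟨N, hN, e⟩ := ha.row x b hb
  rw [e]
  refine ⟨fun h => ?_, Row.mul_tri hP hN.1⟩
  have e' : N.1 * (tinv N).1 = 1 := congrArg Prod.fst (mul_tinv hN.2)
  have h' := Row.mul_tri hP hN.tinv.1 h
  rwa [Matrix.mul_assoc, e', Matrix.mul_one] at h'

theorem df0_sub (σ : ι ≃ ι) (u X : Matrix ι ι Ω) :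
    Row P ((u.submatrix id σ)ᵀ * X) ↔ Row (P ∘ σ.symm) (uᵀ * X) := by
  refine ⟨fun h i j hj => ?_, fun h i j hj => h (σ i) j (by simpa using hj)⟩
  obtain ⟨i, rfl⟩ := σ.surjective i
  exact h i j (by simpa using hj)

theorem Ax.f3 (h : Ax k G) (ha : Act k p M a) (hP : Lw P) {σ : ι ≃ ι}
    (hσ : ∀ i j, j ∈ C i ↔ j ≤ σ i) (h1 : G.good fun x => p x ∧ Row (P ∘ σ.symm) (M x)) :
    G.good (FP p M C P) := by
  have hm := ha.pma
  have ht := pm_tinv (k := k) (Ω := Ω) (ι := ι)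
  have hQ : Lw (P ∘ σ.symm) := fun i => hP (σ.symm i)
  have he : ∀ w : Ω, ((Equiv.Perm.sign σ : ℤ) : Ω) * (((Equiv.Perm.sign σ : ℤ) : Ω) * w) = w := by
    intro w
    rw [← mul_assoc, ← Int.cast_mul, ← Units.val_mul, Int.units_mul_self]
    simp
  have s1 : ∀ u : Matrix ι ι Ω, (u.submatrix id σ).submatrix id σ.symm = u := fun u => by
    ext i j
    simp
  have s2 : ∀ u : Matrix ι ι Ω, (u.submatrix id σ.symm).submatrix id σ = u := fun u => by
    ext i j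
    simp
  have t2 : ∀ y, FP p M C P y →
      Tri (y.2.1.submatrix id σ.symm, ((Equiv.Perm.sign σ : ℤ) : Ω) * y.2.2) := by
    rintro ⟨x, g, w⟩ ⟨-, h4, h5, -⟩
    refine ⟨fun i j hj => h5 _ _ fun e => ?_, ?_⟩
    · rw [hσ, σ.apply_symm_apply] at e
      exact e.not_gt hj
    · have e := he (g.det * w)
      simp only [det_permute', Equiv.Perm.sign_symm] at h4 ⊢
      linear_combination e + h4
  refine h.iso
    (fun z : (α × Matrix ι ι Ω) × Ω => (a (z.1.1, tinv (z.1.2, z.2)), z.1.2.submatrix id σ,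
      ((Equiv.Perm.sign σ : ℤ) : Ω) * z.2))
    (fun y => ((a (y.1, y.2.1.submatrix id σ.symm, ((Equiv.Perm.sign σ : ℤ) : Ω) * y.2.2),
      y.2.1.submatrix id σ.symm), ((Equiv.Perm.sign σ : ℤ) : Ω) * y.2.2))
    (by fun_prop) (by fun_prop) ?_ ?_ ?_ ?_
    (h.opn (g := fun y => y.2.det) (by fun_prop) (h.msupp (fun i j : ι => j < i) h1))
  · rintro ⟨⟨x, u⟩, w⟩ ⟨⟨⟨h2, h3⟩, h4⟩, h5⟩
    have hb : Tri (u, w) := ⟨fun i j hj => h4 i j hj, h5⟩
    refine ⟨ha.mem _ _ h2 hb.tinv, ?_, fun i j hj => h4 j (σ i) (not_le.1 fun e => ?_), ?_⟩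
    · have e := he (u.det * w)
      simp only [det_permute'] at h5 ⊢
      linear_combination e + h5
    · exact hj ((hσ i j).2 e)
    · refine (df0_sub σ _ _).2 ((df0_row ha hQ _ hb).1 ?_)
      rwa [ha.mul, tinv_mul h5, ha.one]
  · intro y hy
    have hb := t2 y hy
    refine ⟨⟨⟨ha.mem _ _ hy.1 hb, (df0_row ha hQ _ hb).2 ((df0_sub σ _ _).1 ?_)⟩,
      fun i j hj => hb.1 hj⟩, hb.2⟩
    rw [s2]
    exact hy.2.2.2
  · rintro ⟨⟨x, u⟩, w⟩ ⟨-, h5⟩
    simp only [s1, he]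
    rw [ha.mul, tinv_mul h5, ha.one]
  · intro y hy
    simp only [s2, he]
    rw [ha.mul, mul_tinv (t2 y hy).2, ha.one]

end Pool.Agent.CXD
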