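import Pool.Agent.P.MP_2ce3e7_ag.DH0

/-! Elementary matrices. -/

set_option linter.unusedSectionVars false
set_option linter.unusedVariables false

open Function Matrix

noncomputable section

namespace Pool.Agent.CXD

variable {k Ω : Type} [Field k] [Field Ω] [Algebra k Ω] {α : Type} [Af Ω α] {G : Gp Ω} {q : ℕ}
  {ι n : Type} [Fintype ι] [DecidableEq ι] [Fintype n] [DecidableEq n]
  [LinearOrder ι] {P : ι → Finset ι} {Γ : Finset ι}

/-- an elementary matrix -/
def el (i i' : ι) (t : Ω) : Matrix ι ι Ω := 1 + Matrix.single i i' t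

@[fun_prop]
theorem Pm.el (i i' : ι) {t : α → Ω} (ht : Pm k t) : Pm k fun x => el i i' (t x) := by
  unfold CXD.el
  fun_prop

theorem el_mul {i i' : ι} (h : i ≠ i') (s t : Ω) : el i i' s * el i i' t = el i i' (s + t) := by
  unfold el
  rw [add_mul, one_mul, mul_add, mul_one, single_mul_single_of_ne _ _ _ _ h.symm, add_zero,
    single_add]
  abel

theorem el_zero (i i' : ι) : el i i' (0 : Ω) = 1 := by simp [el]

theorem el_neg_mul {i i' : ι} (h : i ≠ i') (t : Ω) : el i i' (-t) * el i i' t = 1 := by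
  rw [el_mul h, neg_add_cancel, el_zero]

theorem el_mul_neg {i i' : ι} (h : i ≠ i') (t : Ω) : el i i' t * el i i' (-t) = 1 := by
  rw [el_mul h, add_neg_cancel, el_zero]

theorem el_transpose (i i' : ι) (t : Ω) : (el i i' t)ᵀ = el i' i t := by
  simp [el, transpose_single]

theorem Su.fm_el (hq : Su k q) (i i' : ι) (t : Ω) : fm q (el i i' t) = el i i' (t ^ q) := by
  unfold el
  rw [hq.fm_add, hq.fm_one, hq.fm_single]

theorem el_tri {i i' : ι} (h : i < i') (t : Ω) : (el i i' t).BlockTriangular id :=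
  blockTriangular_one.add (blockTriangular_single (b := id) h.le t)

theorem el_mul_apply {l : Type} (i i' : ι) (t : Ω) (c : Matrix ι l Ω) (a : ι) (b : l) :
    (el i i' t * c) a b = c a b + if a = i then t * c i' b else 0 := by
  unfold el
  rw [Matrix.add_mul, Matrix.one_mul, Matrix.add_apply]
  split_ifs with h
  · rw [h, single_mul_apply_same]
  · rw [single_mul_apply_of_ne _ _ _ _ _ h]

theorem mul_el_apply {l : Type} (i i' : ι) (t : Ω) (c : Matrix l ι Ω) (a : l) (b : ι) :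
    (c * el i i' t) a b = c a b + if b = i' then c a i * t else 0 := by
  unfold el
  rw [Matrix.mul_add, Matrix.mul_one, Matrix.add_apply]
  split_ifs with h
  · rw [h, mul_single_apply_same]
  · rw [mul_single_apply_of_ne _ _ _ _ _ h]

theorem el_det {i i' : ι} (h : i ≠ i') (t : Ω) : (el i i' t).det = 1 :=
  det_transvection_of_ne i i' h t

theorem col_drop {c : Matrix ι ι Ω} {i m : ι} : Col (drop P i m) c ↔ Col P c ∧ c m i = 0 := by
  refine ⟨fun h => ⟨fun a b hb => h a b fun e => hb (mem_drop.1 e).1,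
    h i m fun e => (mem_drop.1 e).2 ⟨rfl, rfl⟩⟩, fun h a b hb => ?_⟩
  by_cases e : b ∈ P a
  · obtain ⟨rfl, rfl⟩ : a = i ∧ b = m := by_contra fun e' => hb (mem_drop.2 ⟨e, e'⟩)
    exact h.2
  · exact h.1 a b e

/-- the action of an elementary matrix -/
def elA (q : ℕ) (i i' : ι) (t : Ω) (y : Matrix ι ι Ω × Matrix n ι Ω) :
    Matrix ι ι Ω × Matrix n ι Ω := (el i i' (t ^ q) * y.1 * el i' i t, y.2 * el i i' (-t))

@[fun_prop]
theorem Pm.elA (i i' : ι) {t : α → Ω} {y : α → Matrix ι ι Ω × Matrix n ι Ω} (ht : Pm k t)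
    (hy : Pm k y) : Pm k fun x => elA q i i' (t x) (y x) := by
  unfold CXD.elA
  fun_prop

theorem Su.elA_elA (hq : Su k q) {i i' : ι} (h : i ≠ i') {s t : Ω} (e : s + t = 0)
    (y : Matrix ι ι Ω × Matrix n ι Ω) : elA q i i' s (elA q i i' t y) = y := by
  have e1 : s ^ q + t ^ q = 0 := by rw [← hq.add_pow, e, zero_pow hq.pos.ne']
  have e2 : -t + -s = 0 := by rw [← neg_add, add_comm, e, neg_zero]
  unfold elA
  refine Prod.ext ?_ ?_
  · simp only [← Matrix.mul_assoc]
    rw [el_mul h, e1, el_zero, Matrix.one_mul, Matrix.mul_assoc, el_mul h.symm, add_comm, e, el_zero,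
      Matrix.mul_one]
  · simp only [Matrix.mul_assoc]
    rw [el_mul h, e2, el_zero, Matrix.mul_one]

theorem Su.hp_elA (hq : Su k q) (hP : Lw P) {i i' : ι} (hi : i < i') (hs : P i' ⊆ P i) (t : Ω)
    {y : Matrix ι ι Ω × Matrix n ι Ω} (hy : HP Ω q n P y) : HP Ω q n P (elA q i i' t y) := by
  refine ⟨?_, ?_⟩
  · unfold elA
    rw [Matrix.mul_assoc]
    exact Col.tri_mul hP (el_tri hi _) (hy.1.mul_single hs t)
  · have := hq.trace_mul y.1 (el i i' t) (y.2 * el i i' (-t))
    rw [Matrix.mul_assoc y.2, el_neg_mul hi.ne, Matrix.mul_one, hy.2, hq.fm_el, el_transpose] at this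
    exact this.symm

theorem hp_drop {i m : ι} {y : Matrix ι ι Ω × Matrix n ι Ω} :
    HP Ω q n (drop P i m) y ↔ HP Ω q n P y ∧ y.1 m i = 0 := by
  unfold HP
  rw [col_drop]
  tauto

theorem hr_erase {i : ι} {y : (ι → Ω) × Matrix ι ι Ω × Matrix n ι Ω} :
    HR Ω q n P (Γ.erase i) y ↔ HR Ω q n P Γ y ∧ y.1 i = 0 := by
  unfold HR
  refine ⟨fun h => ⟨⟨fun a ha => h.1 a fun e => ha (Finset.mem_of_mem_erase e), h.2⟩,
    h.1 i (Finset.notMem_erase _ _)⟩, fun h => ⟨fun a ha => ?_, h.1.2⟩⟩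
  by_cases e : a = i
  · rw [e, h.2]
  · exact h.1.1 a fun e' => ha (Finset.mem_erase.2 ⟨e, e'⟩)

theorem el_mulVec (i i' : ι) (t : Ω) (v : ι → Ω) (a : ι) :
    (el i i' t *ᵥ v) a = v a + if a = i then t * v i' else 0 := by
  unfold el
  rw [add_mulVec, one_mulVec, Pi.add_apply, single_mulVec_eq, Pi.smul_apply, Pi.single_apply]
  simp

end Pool.Agent.CXD
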