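import Pool.Agent.P.MP_2ce3e7_ag.DF0
import Pool.Agent.P.MP_2ce3e7_ag.DHE

/-! The folding lemma. -/

set_option linter.unusedSectionVars false
set_option linter.unusedVariables false

open Function Matrix

noncomputable section

namespace Pool.Agent.CXD

variable {k Ω : Type} [Field k] [Field Ω] [Algebra k Ω] {α : Type} [Af Ω α] {G : Gp Ω} {q : ℕ}
  {ι : Type} [Fintype ι] [DecidableEq ι] [LinearOrder ι] {p : α → Prop} {M : α → Matrix ι ι Ω}
  {a : α × Matrix ι ι Ω × Ω → α} {C P : ι → Finset ι}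

theorem fp_drop {i m : ι} {y : α × Matrix ι ι Ω × Ω} :
    FP p M (drop C i m) P y ↔ FP p M C P y ∧ y.2.1 m i = 0 := by
  unfold FP
  rw [col_drop]
  tauto

theorem fp_el {i i' : ι} (hi : i ≠ i') (he : C i' ⊆ C i) (hs : P i ⊆ P i') (t : Ω)
    {y : α × Matrix ι ι Ω × Ω} (hy : FP p M C P y) :
    FP p M C P (y.1, y.2.1 * el i' i t, y.2.2) := by
  refine ⟨hy.1, ?_, hy.2.2.1.mul_single he t, fun a b hb => ?_⟩
  · change (y.2.1 * el i' i t).det * y.2.2 = 1
    rw [det_mul, el_det hi.symm, mul_one, hy.2.1]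
  · change ((y.2.1 * el i' i t)ᵀ * M y.1) a b = 0
    rw [transpose_mul, el_transpose, Matrix.mul_assoc, el_mul_apply, hy.2.2.2 a b hb, zero_add]
    split_ifs with e
    · rw [hy.2.2.2 i' b (hs (e ▸ hb)), mul_zero]
    · rfl

theorem Ax.f2 (h : Ax k G) (ha : Act k p M a) {i i' m : ι} (hi : i ≠ i') (he : C i = C i')
    (hm : m ∈ C i') (hs : P i ⊆ P i') (h1 : G.good (FP p M (drop C i' m) P))
    (h2 : G.good (FP p M (drop C i m) P)) : G.good (FP p M C P) := by
  refine h.split (g := fun y => y.2.1 m i') ha.cz_fp (by fun_prop)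
    (G.congr h1 fun y => fp_drop.symm) ?_
  refine h.iso (fun z => ((z.1.1.1, z.1.1.2.1 * el i' i z.2, z.1.1.2.2), z.1.2))
    (fun x => (((x.1.1, x.1.2.1 * el i' i (-(x.1.2.1 m i * x.2)), x.1.2.2), x.2),
      x.1.2.1 m i * x.2))
    (by fun_prop) (by fun_prop) ?_ ?_ ?_ ?_
    (h.line (h.opn (g := fun y => y.2.1 m i') (by fun_prop) h2))
  · rintro z ⟨h3, h4⟩
    refine ⟨fp_el hi he.ge hs _ (fp_drop.1 h3).1, ?_⟩
    simp only [mul_el_apply, if_neg hi.symm, add_zero]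
    exact h4
  · rintro x ⟨h3, h4⟩
    refine ⟨fp_drop.2 ⟨fp_el hi he.ge hs _ h3, ?_⟩, ?_⟩
    · simp only [mul_el_apply, if_true]
      linear_combination (-x.1.2.1 m i) * h4
    · simp only [mul_el_apply, if_neg hi.symm, add_zero]
      exact h4
  · rintro z ⟨h3, h4⟩
    have h6 : (z.1.1.2.1 * el i' i z.2) m i * z.1.2 = z.2 := by
      rw [mul_el_apply, if_pos rfl, (fp_drop.1 h3).2]
      linear_combination z.2 * h4
    rw [h6, Matrix.mul_assoc, el_mul_neg hi.symm, Matrix.mul_one]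
  · rintro x ⟨h3, h4⟩
    rw [Matrix.mul_assoc, el_neg_mul hi.symm, Matrix.mul_one]

theorem Ax.fold (h : Ax k G) (ha : Act k p M a)
    (h1 : ∀ P : ι → Finset ι, Lw P → G.good fun x => p x ∧ Row P (M x)) (hP : Lw P) (hC : Lw C) :
    G.good (FP p M C P) := by
  induction hn : ∑ i, (C i).card using Nat.strong_induction_on generalizing C with
  | _ n ih =>
    subst hn
    rcases hC.cases with ⟨i, hi⟩ | ⟨i, i', m, hi, he, hm, hx⟩ | ⟨σ, hσ⟩
    · exact h.f1 hi
    · have h2 := ih _ (sum_drop hm) (hC.drop hx) rfl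
      have h3 := ih _ (sum_drop (i := i) (he ▸ hm)) (hC.drop (he ▸ hx)) rfl
      rcases hP.total i i' with e | e
      · exact h.f2 ha hi.ne he hm e h2 h3
      · exact h.f2 ha hi.ne' he.symm (he ▸ hm) e h3 h2
    · exact h.f3 ha hP hσ (h1 _ fun i j j' e hj => hP _ j j' e hj)

end Pool.Agent.CXD
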