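import Pool.Agent.P.MP_2ce3e7_ag.DHE
import Pool.Agent.P.MP_2ce3e7_ag.DB4

/-! The triangular case. -/

set_option linter.unusedSectionVars false
set_option linter.unusedVariables false

open Function Matrix

noncomputable section

namespace Pool.Agent.CXD

variable {k Ω : Type} [Field k] [Field Ω] [Algebra k Ω] {α : Type} [Af Ω α] {G : Gp Ω} {q : ℕ}
  {ι n : Type} [Fintype ι] [DecidableEq ι] [Fintype n] [DecidableEq n]
  [LinearOrder ι] [IsAlgClosed Ω] {P : ι → Finset ι} {Γ : Finset ι}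

/-- a vector as a matrix -/
def dh2_mat (x : n × ι → Ω) : Matrix n ι Ω := Matrix.of fun a i => x (a, i)

/-- a matrix as a vector -/
def dh2_vec (x : Matrix n ι Ω) : n × ι → Ω := fun e => x e.1 e.2

@[fun_prop]
theorem dh2_pm_mat {f : α → n × ι → Ω} (hf : Pm k f) : Pm k fun x => dh2_mat (f x) :=
  Pm.mat fun a i => hf.eval (a, i)

@[fun_prop]
theorem dh2_pm_vec {f : α → Matrix n ι Ω} (hf : Pm k f) : Pm k fun x => dh2_vec (f x) :=
  Pm.pi fun e => hf.entry e.1 e.2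

theorem dh2_key (hq : Su k q) (y : Matrix ι ι Ω × Ω) (x : Matrix n ι Ω) :
    ((lang q y).1 * (xᵀ * fm q x)).trace = ∑ e, dh2_vec (x * y.1ᵀ) e ^ (q + 1) := by
  have h1 := hq.trace_mul (1 : Matrix ι ι Ω) y.1ᵀ x
  rw [Matrix.mul_one, transpose_transpose, Matrix.one_mul] at h1
  have h2 : (lang q y).1 = fm q y.1ᵀ * y.1 := by
    unfold lang
    rw [transpose_mul, transpose_transpose, fm_transpose]
  rw [h2, ← h1, Fintype.sum_prod_type, Finset.sum_comm]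
  refine Finset.sum_congr rfl fun i _ => Finset.sum_congr rfl fun a _ => ?_
  rw [pow_succ']
  rfl

theorem dh2_col (y : Matrix ι ι Ω × Ω) :
    Col P (lang q y).1 ↔ Row (fun i => (P i)ᶜ) (y.1ᵀ * fm q y.1) :=
  ⟨fun h i j hj => h i j (Finset.mem_compl.1 hj), fun h i j hj => h i j (Finset.mem_compl.2 hj)⟩

theorem dh2_inv {y : Matrix ι ι Ω × Ω} (hy : y.1.det * y.2 = 1) (x : Matrix n ι Ω) :
    x * (y.2 • y.1.adjugate)ᵀ * y.1ᵀ = x ∧ x * y.1ᵀ * (y.2 • y.1.adjugate)ᵀ = x := by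
  constructor
  · rw [Matrix.mul_assoc, ← transpose_mul, Matrix.mul_smul, mul_adjugate, smul_smul, mul_comm, hy,
      one_smul, transpose_one, Matrix.mul_one]
  · rw [Matrix.mul_assoc, ← transpose_mul, Matrix.smul_mul, adjugate_mul, smul_smul, mul_comm, hy,
      one_smul, transpose_one, Matrix.mul_one]

/-- the finite cover of the open part -/
def dh2_f (q : ℕ) (z : (Matrix ι ι Ω × Ω) × (n × ι → Ω)) : (Matrix ι ι Ω × Matrix n ι Ω) × Ω :=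
  (((lang q z.1).1, dh2_mat z.2 * (z.1.2 • z.1.1.adjugate)ᵀ), (lang q z.1).2)

theorem dh2_pm_f : Pm k (dh2_f q : (Matrix ι ι Ω × Ω) × (n × ι → Ω) → _) := by
  unfold dh2_f lang
  fun_prop

theorem dh2_fm0 (hq : Su k q) : Fm0 k (fun z : (Matrix ι ι Ω × Ω) × (n × ι → Ω) =>
    ZP Ω q (fun i => (P i)ᶜ) z.1 ∧ ∑ e, z.2 e ^ (q + 1) = 0) (dh2_f q) := by
  obtain ⟨κ, _, y, N, m, b, r, hN, hy, hm, hb, hr, e1, e2⟩ := hq.lang_fm0 (ι := ι) (Ω := Ω)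
  refine ⟨κ, inferInstance, fun z => y z.1, N, fun x => m (x.1.1, x.2), fun x => b (x.1.1, x.2),
    fun x => (r ((x.1.1.1, x.1.2), x.2), dh2_vec (x.1.1.2 * (r ((x.1.1.1, x.1.2), x.2)).1ᵀ)), hN,
    by fun_prop, by fun_prop, by fun_prop, by fun_prop, fun z hz => e1 z.1 hz.1.1,
    fun z hz => ?_⟩
  have e3 : r (((dh2_f q z).1.1, (dh2_f q z).2), y z.1) = z.1 := e2 z.1 hz.1.1
  refine Prod.ext e3 ?_
  change dh2_vec ((dh2_f q z).1.2 * (r (((dh2_f q z).1.1, (dh2_f q z).2), y z.1)).1ᵀ) = z.2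
  rw [e3]
  exact congrArg dh2_vec (dh2_inv hz.1.1 (dh2_mat z.2)).1

theorem Ay.h3 (h : Ay k q G) (hq : Su k q) {σ : ι ≃ ι} (hσ : ∀ i j, j ∈ P i ↔ j ≤ σ i)
    (h1 : ∀ i, G.good (HP Ω q n (drop P i (σ i)))) (h2 : G.good (ZP Ω q fun i => (P i)ᶜ)) :
    G.good (HP Ω q n P) := by
  refine h.split (g := fun y => y.1.det) (Cz.hp P Pm.id) (by fun_prop) ?_ ?_
  · refine G.congr (h.toAx.bunion Finset.univ (fun i _ => Cz.hp _ Pm.id) fun i _ => h1 i)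
      fun y => ⟨fun hy => ?_, fun ⟨i, _, hi⟩ => ?_⟩
    · obtain ⟨i, hi⟩ := (Col.det_eq hσ hy.1.1).1 hy.2
      exact ⟨i, Finset.mem_univ i, hp_drop.2 ⟨hy.1, hi⟩⟩
    · have h3 := hp_drop.1 hi
      exact ⟨h3.1, (Col.det_eq hσ h3.1.1).2 ⟨i, h3.2⟩⟩
  · refine h.fin (Fi.mk' (dh2_f q) dh2_pm_f (dh2_fm0 hq) ?_ ?_)
      (h.cone (n × ι) (Cz.zp _ Pm.id) h2)
    · rintro z ⟨h3, h4⟩
      refine ⟨⟨(dh2_col z.1).2 h3.2, (dh2_key hq z.1 _).trans ?_⟩, hq.lang_det h3.1⟩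
      rw [← h4]
      exact congrArg (fun x => ∑ e, dh2_vec x e ^ (q + 1)) (dh2_inv h3.1 (dh2_mat z.2)).1
    · rintro x ⟨h3, h4⟩
      obtain ⟨y, hy, e⟩ := hq.lang_surj (x.1.1, x.2) h4
      have e1 : (lang q y).1 = x.1.1 := congrArg Prod.fst e
      have e2 : (lang q y).2 = x.2 := congrArg Prod.snd e
      refine ⟨(y, dh2_vec (x.1.2 * y.1ᵀ)), ⟨⟨hy, (dh2_col y).1 (e1 ▸ h3.1)⟩, ?_⟩, ?_⟩
      · rw [← dh2_key hq y, e1]
        exact h3.2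
      · exact Prod.ext (Prod.ext e1 (dh2_inv hy x.1.2).2) e2

end Pool.Agent.CXD
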