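import Pool.Agent.P.MP_2ce3e7_ag.DH0
import Pool.Agent.P.MP_2ce3e7_ag.DA6

/-! An empty column of the pattern. -/

set_option linter.unusedSectionVars false
set_option linter.unusedVariables false

open Function Matrix

noncomputable section

namespace Pool.Agent.CXD

variable {k Ω : Type} [Field k] [Field Ω] [Algebra k Ω] {α : Type} [Af Ω α] {G : Gp Ω} {q : ℕ}
  {ι n : Type} [Fintype ι] [DecidableEq ι] [Fintype n] [DecidableEq n]
  [LinearOrder ι] [IsAlgClosed Ω] {P : ι → Finset ι} {Γ : Finset ι}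

/-- add the index `a` -/
def dh3f (a : ι) (y : (({i // i ≠ a} → Ω) × Matrix {i // i ≠ a} {i // i ≠ a} Ω ×
    Matrix n {i // i ≠ a} Ω) × (n → Ω)) : Matrix ι ι Ω × Matrix n ι Ω :=
  (Matrix.of fun j i => if hi : i = a then 0 else if hj : j = a then y.1.1 ⟨i, hi⟩
      else y.1.2.1 ⟨j, hj⟩ ⟨i, hi⟩,
    Matrix.of fun r i => if hi : i = a then y.2 r else y.1.2.2 r ⟨i, hi⟩)

/-- remove the index `a` -/
def dh3r (a : ι) (x : Matrix ι ι Ω × Matrix n ι Ω) : (({i // i ≠ a} → Ω) ×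
    Matrix {i // i ≠ a} {i // i ≠ a} Ω × Matrix n {i // i ≠ a} Ω) × (n → Ω) :=
  ((fun i => x.1 a i.1, x.1.submatrix Subtype.val Subtype.val, x.2.submatrix id Subtype.val),
    fun r => x.2 r a)

theorem dh3_pf (a : ι) : Pm k (dh3f (Ω := Ω) (n := n) a) := by
  unfold dh3f
  refine Pm.mk (Pm.mat fun j i => ?_) (Pm.mat fun r i => ?_)
  · refine Pm.dite _ (fun _ => Pm.const (0 : Ω)) fun hi => Pm.dite _ (fun _ => ?_) fun hj => ?_
    · exact Pm.id.fst.fst.eval _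
    · exact Pm.id.fst.snd.fst.entry _ _
  · refine Pm.dite _ (fun _ => ?_) fun hi => ?_
    · exact Pm.id.snd.eval _
    · exact Pm.id.fst.snd.snd.entry _ _

theorem dh3_pr (a : ι) : Pm k (dh3r (Ω := Ω) (n := n) a) := by
  unfold dh3r
  exact Pm.mk (Pm.mk (Pm.pi fun i => Pm.id.fst.entry _ _) (Pm.mk (Pm.id.fst.submatrix _ _)
    (Pm.id.snd.submatrix _ _))) (Pm.pi fun r => Pm.id.snd.entry _ _)

theorem dh3_rf (a : ι) (y : (({i // i ≠ a} → Ω) × Matrix {i // i ≠ a} {i // i ≠ a} Ω ×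
    Matrix n {i // i ≠ a} Ω) × (n → Ω)) : dh3r a (dh3f a y) = y := by
  refine Prod.ext (Prod.ext ?_ (Prod.ext ?_ ?_)) ?_
  · funext i
    simp [dh3r, dh3f, i.2]
  · ext j i
    simp [dh3r, dh3f, i.2, j.2]
  · ext r i
    simp [dh3r, dh3f, i.2]
  · funext r
    simp [dh3r, dh3f]

theorem dh3_fr (a : ι) {x : Matrix ι ι Ω × Matrix n ι Ω} (h : ∀ j, x.1 j a = 0) :
    dh3f a (dh3r a x) = x := by
  refine Prod.ext ?_ ?_
  · ext j i
    by_cases hi : i = a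
    · simp [dh3f, hi, h]
    · by_cases hj : j = a <;> simp [dh3r, dh3f, hi, hj]
  · ext r i
    by_cases hi : i = a <;> simp [dh3r, dh3f, hi]

theorem dh3_trace (a : ι) {x : Matrix ι ι Ω × Matrix n ι Ω} (h : ∀ j, x.1 j a = 0) :
    (x.1 * (x.2ᵀ * fm q x.2)).trace =
      ∑ r, (dh3r a x).2 r ^ q * ((dh3r a x).1.2.2 *ᵥ (dh3r a x).1.1) r +
        ((dh3r a x).1.2.1 * ((dh3r a x).1.2.2ᵀ * fm q (dh3r a x).1.2.2)).trace := by
  have e : ∀ j, ∑ i, x.1 j i * ∑ r, x.2 r i * x.2 r j ^ q =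
      ∑ i : {i // i ≠ a}, x.1 j i * ∑ r, x.2 r i * x.2 r j ^ q := fun j => by
    rw [Fintype.sum_eq_add_sum_subtype_ne _ a, h, zero_mul, zero_add]
  rw [trace_eq, trace_eq, Fintype.sum_eq_add_sum_subtype_ne _ a]
  simp only [e]
  congr 1
  simp only [dh3r, mulVec, dotProduct, submatrix_apply, id, Finset.mul_sum]
  rw [Finset.sum_comm]
  refine Finset.sum_congr rfl fun r _ => Finset.sum_congr rfl fun i _ => ?_
  ring

theorem dh3_col {a : ι} (ha : P a = ∅) {x : Matrix ι ι Ω × Matrix n ι Ω} :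
    Col P x.1 ↔ (∀ j, x.1 j a = 0) ∧
      (∀ i, i ∉ (Finset.univ.filter fun i : {i // i ≠ a} => a ∈ P i.1) → (dh3r a x).1.1 i = 0) ∧
        Col (del a P) (dh3r a x).1.2.1 := by
  refine ⟨fun h => ⟨fun j => h a j (by simp [ha]), fun i hi => h _ _ (by simpa using hi),
    fun i j hj => h _ _ fun e => hj (mem_del.2 e)⟩, fun ⟨h1, h2, h3⟩ i j hj => ?_⟩
  by_cases hi : i = a
  · rw [hi, h1]
  · by_cases e : j = a
    · subst e
      exact h2 ⟨i, hi⟩ (by simpa using hj)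
    · exact h3 ⟨i, hi⟩ ⟨j, e⟩ fun e' => hj (mem_del.1 e')

theorem dh3_rows (h : Ay k q G) (D' : Finset n) (Γ : Finset ι) :
    G.good fun x : (ι → Ω) × Matrix ι ι Ω × Matrix n ι Ω =>
      ((∀ i, i ∉ Γ → x.1 i = 0) ∧ Col P x.2.1) ∧ ∀ r ∈ D', (x.2.2 *ᵥ x.1) r = 0 := by
  have h0 := h.toAx.rows (by fun_prop) (h.toAx.msupp (fun j i => j ∉ P i) h.pt) D' Γ
  refine h.toAx.iso (fun z => (z.2.1, z.1.2, z.2.2)) (fun x => ((0, x.2.1), x.1, x.2.2))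
    (by fun_prop) (by fun_prop) ?_ ?_ ?_ ?_ h0
  · rintro z ⟨⟨-, h1⟩, h2, h3⟩
    exact ⟨⟨h2, fun i j hj => h1 j i hj⟩, h3⟩
  · rintro x ⟨⟨h1, h2⟩, h3⟩
    exact ⟨⟨trivial, fun j i hj => h2 i j hj⟩, h1, h3⟩
  · intro z _
    exact Prod.ext (Prod.ext (Subsingleton.elim _ _) rfl) rfl
  · intro x _
    rfl

theorem Ay.h1 (h : Ay k q G) (hq : Su k q) {a : ι} (ha : P a = ∅)
    (h1 : G.good (HR Ω q n (del a P) (Finset.univ.filter fun i => a ∈ P i.1))) :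
    G.good (HP Ω q n P) := by
  have h2 := h.toAx.linq hq
    (p := fun x : ({i // i ≠ a} → Ω) × Matrix {i // i ≠ a} {i // i ≠ a} Ω ×
      Matrix n {i // i ≠ a} Ω =>
      (∀ i, i ∉ (Finset.univ.filter fun i : {i // i ≠ a} => a ∈ P i.1) → x.1 i = 0) ∧
        Col (del a P) x.2.1) (by fun_prop) (s := fun x => x.2.2 *ᵥ x.1)
    (g := fun x => (x.2.1 * (x.2.2ᵀ * fm q x.2.2)).trace) (by fun_prop) (by fun_prop)
    (fun D => dh3_rows h D _)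
    (G.congr h1 fun x => ⟨fun e => ⟨e.1.1, funext e.2.1, e.1.2, e.2.2⟩,
      fun e => ⟨⟨e.1, e.2.2.1⟩, congrFun e.2.1, e.2.2.2⟩⟩)
  refine h.toAx.iso (dh3f a) (dh3r a) (dh3_pf a) (dh3_pr a) ?_ ?_ (fun z _ => dh3_rf a z)
    (fun x hx => dh3_fr a ((dh3_col ha).1 hx.1).1) h2
  · rintro z ⟨h3, h4⟩
    have e : ∀ j, (dh3f a z).1 j a = 0 := fun j => by simp [dh3f]
    refine ⟨(dh3_col ha).2 ⟨e, ?_⟩, ?_⟩
    · rwa [dh3_rf]
    · rwa [dh3_trace a e, dh3_rf]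
  · rintro x ⟨h3, h4⟩
    obtain ⟨e, h5⟩ := (dh3_col ha).1 h3
    exact ⟨h5, by rwa [dh3_trace a e] at h4⟩

end Pool.Agent.CXD
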