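import Pool.Agent.P.MP_2ce3e7_ag.DH0

/-! Relations with small support. -/

set_option linter.unusedSectionVars false
set_option linter.unusedVariables false

open Function Matrix

noncomputable section

namespace Pool.Agent.CXD

variable {k Ω : Type} [Field k] [Field Ω] [Algebra k Ω] {α : Type} [Af Ω α] {G : Gp Ω} {q : ℕ}
  {ι n : Type} [Fintype ι] [DecidableEq ι] [Fintype n] [DecidableEq n]
  [LinearOrder ι] [IsAlgClosed Ω] {P : ι → Finset ι} {Γ : Finset ι}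

theorem Ax.r0 (h : Ax k G) (h1 : G.good (HP Ω q n P)) : G.good (HR Ω q n P ∅) :=
  h.iso (fun y => (0, y)) (fun x => x.2) (by fun_prop) (by fun_prop)
    (fun z hz => ⟨fun _ _ => rfl, mulVec_zero _, hz⟩) (fun x hx => hx.2.2) (fun _ _ => rfl)
    (fun x hx => Prod.ext (funext fun i => (hx.1 i (Finset.notMem_empty i)).symm) rfl) h1

/-- a matrix from a block and the remaining entries -/
def dh4C (a : ι) (c : Matrix {i // i ≠ a} {i // i ≠ a} Ω) (e : Matrix ι ι Ω) : Matrix ι ι Ω :=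
  Matrix.of fun j i => if h : j ≠ a ∧ i ≠ a then c ⟨j, h.1⟩ ⟨i, h.2⟩ else e j i

/-- extension by zero -/
def dh4X (a : ι) (x : Matrix n {i // i ≠ a} Ω) : Matrix n ι Ω :=
  Matrix.of fun r i => if h : i ≠ a then x r ⟨i, h⟩ else 0

@[fun_prop]
theorem Pm.dh4C (a : ι) {c : α → Matrix {i // i ≠ a} {i // i ≠ a} Ω} {e : α → Matrix ι ι Ω}
    (hc : Pm k c) (he : Pm k e) : Pm k fun z => dh4C a (c z) (e z) :=
  Pm.mat fun j i => Pm.dite (j ≠ a ∧ i ≠ a) (fun h => hc.entry ⟨j, h.1⟩ ⟨i, h.2⟩)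
    fun _ => he.entry j i

@[fun_prop]
theorem Pm.dh4X (a : ι) {x : α → Matrix n {i // i ≠ a} Ω} (hx : Pm k x) :
    Pm k fun z => dh4X a (x z) :=
  Pm.mat fun r i => Pm.dite (i ≠ a) (fun h => hx.entry r ⟨i, h⟩) fun _ => Pm.const (0 : Ω)

theorem dh4C_sub (a : ι) (c : Matrix {i // i ≠ a} {i // i ≠ a} Ω) (e : Matrix ι ι Ω) :
    (dh4C a c e).submatrix Subtype.val Subtype.val = c :=
  Matrix.ext fun j i => dif_pos (⟨j.2, i.2⟩ : j.1 ≠ a ∧ i.1 ≠ a)

theorem dh4X_sub (a : ι) (x : Matrix n {i // i ≠ a} Ω) :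
    (dh4X a x).submatrix id Subtype.val = x := Matrix.ext fun _ i => dif_pos i.2

theorem dh4_trace (hq : 0 < q) (a : ι) (c : Matrix ι ι Ω) {x : Matrix n ι Ω}
    (hx : ∀ r, x r a = 0) : (c * (xᵀ * fm q x)).trace =
      (c.submatrix (Subtype.val : {i // i ≠ a} → ι) (Subtype.val : {i // i ≠ a} → ι) *
        ((x.submatrix id (Subtype.val : {i // i ≠ a} → ι))ᵀ *
          fm q (x.submatrix id (Subtype.val : {i // i ≠ a} → ι)))).trace := by
  rw [trace_eq, trace_eq, Fintype.sum_eq_add_sum_subtype_ne _ a]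
  simp only [hx, zero_pow hq.ne', mul_zero, Finset.sum_const_zero, zero_add]
  refine Finset.sum_congr rfl fun j _ => ?_
  rw [Fintype.sum_eq_add_sum_subtype_ne _ a]
  simp only [hx, zero_mul, mul_zero, Finset.sum_const_zero, zero_add, submatrix_apply, id]

theorem Ax.r1 (h : Ax k G) (hq : Su k q) (a : ι) (h1 : G.good (HP Ω q n P))
    (h2 : G.good (HP Ω q n (del a P))) : G.good (HR Ω q n P {a}) := by
  refine h.split (g := fun y => y.1 a) (Cz.hr P {a} Pm.id) (by fun_prop)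
    (G.congr (h.r0 h1) fun y => ⟨fun e => ⟨fun i _ => ?_, e.1.2⟩, fun e =>
      ⟨⟨fun i _ => e.1 i (Finset.notMem_empty i), e.2⟩, e.1 a (Finset.notMem_empty a)⟩⟩) ?_
  · by_cases hi : i = a
    · exact hi ▸ e.2
    · exact e.1.1 i fun m => hi (Finset.mem_singleton.1 m)
  refine h.iso (fun z => ((Pi.single a z.1.2.1, dh4C a z.1.1.1 z.2, dh4X a z.1.1.2), z.1.2.2))
    (fun x => (((x.1.2.1.submatrix Subtype.val Subtype.val, x.1.2.2.submatrix id Subtype.val),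
      x.1.1 a, x.2), dh4C a 0 x.1.2.1)) (by fun_prop) (by fun_prop) ?_ ?_ ?_ ?_
    (h.msupp (fun j i => (j ≠ a ∧ i ≠ a) ∨ j ∉ P i) (h.gm h2))
  · rintro ⟨⟨⟨c, x⟩, s, v⟩, e⟩ ⟨⟨⟨h3, h4⟩, h5⟩, h6⟩
    have h7 : ∀ r, dh4X a x r a = 0 := fun r => dif_neg fun m => m rfl
    refine ⟨⟨fun i hi => Pi.single_eq_of_ne (fun m => hi (Finset.mem_singleton.2 m)) _,
      funext fun r => ?_, fun i j hj => ?_, ?_⟩, 
      (congrArg (· * v) (Pi.single_eq_same (M := fun _ => Ω) a s)).trans h5⟩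
    · simp [h7]
    · by_cases m : j ≠ a ∧ i ≠ a
      · exact (dif_pos m).trans (h3 ⟨i, m.2⟩ ⟨j, m.1⟩ fun t => hj (mem_del.1 t))
      · exact (dif_neg m).trans (h6 j i (Or.inr hj))
    · rw [dh4_trace hq.pos a _ h7, dh4C_sub, dh4X_sub]
      exact h4
  all_goals
    have key : ∀ (γ : ι → Ω) (x : Matrix n ι Ω) (w : Ω), (∀ i, i ∉ ({a} : Finset ι) → γ i = 0) →
        x *ᵥ γ = 0 → γ a * w = 1 → Pi.single a (γ a) = γ ∧ ∀ r, x r a = 0 := by
      intro γ x w h3 h4 h5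
      have h6 : Pi.single a (γ a) = γ := funext fun i => by
        by_cases hi : i = a
        · rw [hi, Pi.single_eq_same]
        · rw [Pi.single_eq_of_ne hi, h3 i fun m => hi (Finset.mem_singleton.1 m)]
      refine ⟨h6, fun r => ?_⟩
      have h7 := congrFun h4 r
      rw [← h6] at h7
      simpa [left_ne_zero_of_mul_eq_one h5] using h7
  · rintro ⟨⟨γ, c, x⟩, w⟩ ⟨⟨h3, h4, h5, h6⟩, h7⟩
    refine ⟨⟨⟨fun i j hj => h5 i.1 j.1 fun t => hj (mem_del.2 t), ?_⟩, h7⟩, fun j i hd => ?_⟩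
    · exact (dh4_trace hq.pos a c (key γ x w h3 h4 h7).2).symm.trans h6
    · by_cases m : j ≠ a ∧ i ≠ a
      · exact dif_pos m
      · exact (dif_neg m).trans (h5 i j (hd.resolve_left m))
  · rintro ⟨⟨⟨c, x⟩, s, v⟩, e⟩ ⟨-, h6⟩
    simp only [dh4C_sub, dh4X_sub, Pi.single_eq_same]
    refine Prod.ext rfl (Matrix.ext fun j i => ?_)
    by_cases m : j ≠ a ∧ i ≠ a
    · exact (dif_pos m).trans (h6 j i (Or.inl m)).symm
    · exact (dif_neg m).trans (dif_neg m)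
  · rintro ⟨⟨γ, c, x⟩, w⟩ ⟨⟨h3, h4, -⟩, h7⟩
    obtain ⟨h8, h9⟩ := key γ x w h3 h4 h7
    refine Prod.ext (Prod.ext h8 (Prod.ext (Matrix.ext fun j i => ?_) (Matrix.ext fun r i => ?_))) rfl
    · by_cases m : j ≠ a ∧ i ≠ a
      · exact dif_pos m
      · exact (dif_neg m).trans (dif_neg m)
    · by_cases m : i ≠ a
      · exact dif_pos m
      · exact (dif_neg m).trans (not_not.1 m ▸ (h9 r).symm)

end Pool.Agent.CXD
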