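import Pool.Agent.P.MP_2ce3e7_ag.DHE

/-! Clearing a coefficient of the relation. -/

set_option linter.unusedSectionVars false
set_option linter.unusedVariables false

open Function Matrix

noncomputable section

namespace Pool.Agent.CXD

variable {k Ω : Type} [Field k] [Field Ω] [Algebra k Ω] {α : Type} [Af Ω α] {G : Gp Ω} {q : ℕ}
  {ι n : Type} [Fintype ι] [DecidableEq ι] [Fintype n] [DecidableEq n]
  [LinearOrder ι] [IsAlgClosed Ω] {P : ι → Finset ι} {Γ : Finset ι}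

theorem Su.hr_elA (hq : Su k q) (hP : Lw P) {i i' : ι} (hi : i < i') (hm : i ∈ Γ)
    (hs : P i' ⊆ P i) (t : Ω) {y : (ι → Ω) × Matrix ι ι Ω × Matrix n ι Ω} (hy : HR Ω q n P Γ y) :
    HR Ω q n P Γ (el i i' t *ᵥ y.1, elA q i i' t y.2) := by
  refine ⟨fun a ha => ?_, ?_, hq.hp_elA hP hi hs t hy.2.2⟩
  · have e : a ≠ i := fun e => ha (e ▸ hm)
    change (el i i' t *ᵥ y.1) a = 0
    rw [el_mulVec, if_neg e, hy.1 a ha, add_zero]
  · change (y.2.2 * el i i' (-t)) *ᵥ (el i i' t *ᵥ y.1) = 0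
    rw [mulVec_mulVec, Matrix.mul_assoc, el_neg_mul hi.ne, Matrix.mul_one, hy.2.1]

theorem Ax.r2 (h : Ax k G) (hq : Su k q) (hP : Lw P) {i i' : ι} (hi : i < i') (hm : i ∈ Γ)
    (hm' : i' ∈ Γ) (hs : P i' ⊆ P i) (h1 : G.good (HR Ω q n P (Γ.erase i')))
    (h2 : G.good (HR Ω q n P (Γ.erase i))) : G.good (HR Ω q n P Γ) := by
  refine h.split (g := fun y => y.1 i') (Cz.hr P Γ Pm.id) (by fun_prop)
    (G.congr h1 fun y => hr_erase.symm) ?_
  refine h.iso (fun z => ((el i i' z.2 *ᵥ z.1.1.1, elA q i i' z.2 z.1.1.2), z.1.2))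
    (fun x => (((el i i' (-(x.1.1 i * x.2)) *ᵥ x.1.1, elA q i i' (-(x.1.1 i * x.2)) x.1.2), x.2),
      x.1.1 i * x.2))
    (by fun_prop) (by fun_prop) ?_ ?_ ?_ ?_
    (h.line (h.opn (g := fun y => y.1 i') (by fun_prop) h2))
  · rintro z ⟨h3, h4⟩
    refine ⟨hq.hr_elA hP hi hm hs _ (hr_erase.1 h3).1, ?_⟩
    simp only [el_mulVec, if_neg hi.ne', add_zero]
    exact h4
  · rintro x ⟨h3, h4⟩
    refine ⟨hr_erase.2 ⟨hq.hr_elA hP hi hm hs _ h3, ?_⟩, ?_⟩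
    · simp only [el_mulVec, if_true]
      linear_combination (-x.1.1 i) * h4
    · simp only [el_mulVec, if_neg hi.ne', add_zero]
      exact h4
  · rintro z ⟨h3, h4⟩
    have h6 : (el i i' z.2 *ᵥ z.1.1.1) i * z.1.2 = z.2 := by
      rw [el_mulVec, if_pos rfl, (hr_erase.1 h3).2]
      linear_combination z.2 * h4
    rw [h6, hq.elA_elA hi.ne (neg_add_cancel _), mulVec_mulVec, el_neg_mul hi.ne, one_mulVec]
  · rintro x ⟨h3, h4⟩
    rw [hq.elA_elA hi.ne (add_neg_cancel _), mulVec_mulVec, el_mul_neg hi.ne, one_mulVec]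

end Pool.Agent.CXD
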