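import Pool.Agent.P.MP_2ce3e7_ag.DHE

/-! Exchanging two columns of the pattern. -/

set_option linter.unusedSectionVars false
set_option linter.unusedVariables false

open Function Matrix

noncomputable section

namespace Pool.Agent.CXD

variable {k Ω : Type} [Field k] [Field Ω] [Algebra k Ω] {α : Type} [Af Ω α] {G : Gp Ω} {q : ℕ}
  {ι n : Type} [Fintype ι] [DecidableEq ι] [Fintype n] [DecidableEq n]
  [LinearOrder ι] [IsAlgClosed Ω] {P : ι → Finset ι} {Γ : Finset ι}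

/-- a rank one perturbation of the identity -/
def dh6N (i : ι) (u : Ω) (γ : ι → Ω) : Matrix ι ι Ω := 1 + vecMulVec (Pi.single i u) γ

@[fun_prop]
theorem Pm.dh6N (i : ι) {u : α → Ω} {γ : α → ι → Ω} (hu : Pm k u) (hγ : Pm k γ) :
    Pm k fun x => dh6N i (u x) (γ x) := by
  unfold CXD.dh6N
  fun_prop

theorem dh6_mul_eq (i : ι) (u : Ω) (γ : ι → Ω) (c : Matrix ι ι Ω) :
    c * dh6N i u γ = c + vecMulVec (fun a => c a i * u) γ := by
  unfold dh6N
  rw [Matrix.mul_add, Matrix.mul_one, mul_vecMulVec, mulVec_single]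
  rfl

theorem dh6_apply (i : ι) (u : Ω) (γ : ι → Ω) (c : Matrix ι ι Ω) (a b : ι) :
    (c * dh6N i u γ) a b = c a b + c a i * u * γ b := by
  rw [dh6_mul_eq]
  rfl

theorem dh6_cancel {i : ι} {u v : Ω} {γ : ι → Ω} (h : γ i = 0) (e : u + v = 0) (c : Matrix ι ι Ω) :
    c * dh6N i u γ * dh6N i v γ = c := by
  ext a b
  rw [dh6_apply, dh6_apply, dh6_apply, h]
  linear_combination c a i * γ b * e

theorem dh6_trace (i : ι) (u : Ω) {γ : ι → Ω} (c : Matrix ι ι Ω) {x : Matrix n ι Ω}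
    (h : x *ᵥ γ = 0) :
    (c * dh6N i u γ * (xᵀ * fm q x)).trace = (c * (xᵀ * fm q x)).trace := by
  rw [dh6_mul_eq, Matrix.add_mul, trace_add, trace_rel _ _ _ h, add_zero]

theorem dh6_trace_el (hq : Su k q) {i i' : ι} (hi : i ≠ i') (t : Ω)
    (y : Matrix ι ι Ω × Matrix n ι Ω) :
    ((elA q i i' t y).1 * ((elA q i i' t y).2ᵀ * fm q (elA q i i' t y).2)).trace =
      (y.1 * (y.2ᵀ * fm q y.2)).trace := by
  have := hq.trace_mul y.1 (el i i' t) (y.2 * el i i' (-t))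
  rw [Matrix.mul_assoc y.2, el_neg_mul hi, Matrix.mul_one, hq.fm_el, el_transpose] at this
  exact this.symm

/-- the forward change of coordinates -/
def dh6R (q : ℕ) (i i' : ι) (t u : Ω) (y : (ι → Ω) × Matrix ι ι Ω × Matrix n ι Ω) :
    (ι → Ω) × Matrix ι ι Ω × Matrix n ι Ω :=
  (el i i' (-t) *ᵥ y.1, (elA q i i' (-t) y.2).1 * dh6N i u (el i i' (-t) *ᵥ y.1),
    (elA q i i' (-t) y.2).2)

/-- the backward change of coordinates -/
def dh6F (q : ℕ) (i i' : ι) (t u : Ω) (y : (ι → Ω) × Matrix ι ι Ω × Matrix n ι Ω) :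
    (ι → Ω) × Matrix ι ι Ω × Matrix n ι Ω :=
  (el i i' t *ᵥ y.1, elA q i i' t (y.2.1 * dh6N i (-u) y.1, y.2.2))

@[fun_prop]
theorem Pm.dh6R (i i' : ι) {t u : α → Ω} {y : α → (ι → Ω) × Matrix ι ι Ω × Matrix n ι Ω}
    (ht : Pm k t) (hu : Pm k u) (hy : Pm k y) : Pm k fun x => dh6R q i i' (t x) (u x) (y x) := by
  unfold CXD.dh6R
  fun_prop

@[fun_prop]
theorem Pm.dh6F (i i' : ι) {t u : α → Ω} {y : α → (ι → Ω) × Matrix ι ι Ω × Matrix n ι Ω}
    (ht : Pm k t) (hu : Pm k u) (hy : Pm k y) : Pm k fun x => dh6F q i i' (t x) (u x) (y x) := by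
  unfold CXD.dh6F
  fun_prop

theorem dh6_RF (hq : Su k q) {i i' : ι} (hi : i ≠ i') (t u : Ω)
    {y : (ι → Ω) × Matrix ι ι Ω × Matrix n ι Ω} (h : y.1 i = 0) :
    dh6R q i i' t u (dh6F q i i' t u y) = y := by
  unfold dh6R dh6F
  simp only []
  rw [hq.elA_elA hi (neg_add_cancel t), mulVec_mulVec, el_neg_mul hi, one_mulVec]
  simp only []
  rw [dh6_cancel h (neg_add_cancel u)]

theorem dh6_FR (hq : Su k q) {i i' : ι} (hi : i ≠ i') (t u : Ω)
    {y : (ι → Ω) × Matrix ι ι Ω × Matrix n ι Ω} (h : (el i i' (-t) *ᵥ y.1) i = 0) :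
    dh6F q i i' t u (dh6R q i i' t u y) = y := by
  unfold dh6R dh6F
  simp only []
  rw [dh6_cancel h (add_neg_cancel u), mulVec_mulVec, el_mul_neg hi, one_mulVec, Prod.mk.eta,
    hq.elA_elA hi (add_neg_cancel t)]

theorem dh6_hr_R (hq : Su k q) (hP : Lw P) {i i' : ι} (hi : i < i') (hm' : i' ∈ Γ)
    (hs : P i ⊆ P i') (hl : ∀ j ∈ Γ, j ≠ i → P i' ⊆ P j) {t u : Ω}
    {y : (ι → Ω) × Matrix ι ι Ω × Matrix n ι Ω} (hy : HR Ω q n P Γ y) (h1 : t * y.1 i' = y.1 i)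
    (h2 : y.1 i * u = 1) : HR Ω q n (P ∘ Equiv.swap i i') (Γ.erase i) (dh6R q i i' t u y) := by
  obtain ⟨h3, h4, h5, h6⟩ := hy
  have e0 : (el i i' (-t) *ᵥ y.1) i = 0 := by
    rw [el_mulVec, if_pos rfl]
    linear_combination -h1
  have e1 : ∀ a, a ≠ i → (el i i' (-t) *ᵥ y.1) a = y.1 a := fun a ha => by
    rw [el_mulVec, if_neg ha, add_zero]
  have e2 : (elA q i i' (-t) y.2).2 *ᵥ (el i i' (-t) *ᵥ y.1) = 0 := by
    unfold elA
    simp only []
    rw [mulVec_mulVec, Matrix.mul_assoc, el_neg_mul hi.ne, Matrix.mul_one, h4]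
  have hP' : Lw (P ∘ Equiv.swap i i') := fun a => hP _
  refine ⟨fun a ha => ?_, e2, ?_, ?_⟩
  · by_cases e : a = i
    · rw [e]
      exact e0
    · exact (e1 a e).trans (h3 a fun e' => ha (Finset.mem_erase.2 ⟨e, e'⟩))
  · unfold dh6R elA
    simp only []
    rw [Matrix.mul_assoc, Matrix.mul_assoc, ← Matrix.mul_assoc y.2.1]
    refine Col.tri_mul hP' (el_tri hi _) fun b a ha => ?_
    rw [dh6_apply, mul_el_apply, mul_el_apply, if_pos rfl]
    by_cases e : b = i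
    · subst e
      rw [Function.comp_apply, Equiv.swap_apply_left] at ha
      rw [e0, h5 b a fun e' => ha (hs e'), h5 i' a ha]
      simp
    · rw [if_neg e, e1 b e]
      by_cases e' : b = i'
      · subst e'
        rw [Function.comp_apply, Equiv.swap_apply_right] at ha
        rw [h5 i a ha]
        linear_combination (-y.2.1 a b * u) * h1 - y.2.1 a b * h2
      · rw [Function.comp_apply, Equiv.swap_apply_of_ne_of_ne e e'] at ha
        by_cases hb : b ∈ Γ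
        · have := hl b hb e
          rw [h5 b a ha, h5 i' a fun e' => ha (this e'), h5 i a fun e' => ha (this (hs e'))]
          simp
        · rw [h5 b a ha, h3 b hb]
          simp
  · exact (dh6_trace i u _ e2).trans ((dh6_trace_el hq hi.ne _ _).trans h6)

theorem dh6_hr_F (hq : Su k q) (hP : Lw P) {i i' : ι} (hi : i < i') (hm : i ∈ Γ)
    (hs : P i ⊆ P i') (hl : ∀ j ∈ Γ, j ≠ i → P i' ⊆ P j) {t u : Ω}
    {y : (ι → Ω) × Matrix ι ι Ω × Matrix n ι Ω}
    (hy : HR Ω q n (P ∘ Equiv.swap i i') (Γ.erase i) y) (h1 : t * u * y.1 i' = 1) :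
    HR Ω q n P Γ (dh6F q i i' t u y) := by
  obtain ⟨h3, h4, h5, h6⟩ := hy
  have e0 : y.1 i = 0 := h3 i (Finset.notMem_erase _ _)
  have e1 : ∀ a, a ∉ P i' → y.2.1 a i = 0 := fun a ha =>
    h5 i a (by rwa [Function.comp_apply, Equiv.swap_apply_left])
  have e2 : ∀ a, a ∉ P i → y.2.1 a i' = 0 := fun a ha =>
    h5 i' a (by rwa [Function.comp_apply, Equiv.swap_apply_right])
  refine ⟨fun a ha => ?_, ?_, ?_, ?_⟩
  · unfold dh6F
    simp only []
    rw [el_mulVec, if_neg fun e : a = i => ha (e ▸ hm), add_zero]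
    exact h3 a fun e => ha (Finset.mem_of_mem_erase e)
  · unfold dh6F elA
    simp only []
    rw [mulVec_mulVec, Matrix.mul_assoc, el_neg_mul hi.ne, Matrix.mul_one, h4]
  · unfold dh6F elA
    simp only []
    rw [Matrix.mul_assoc]
    refine Col.tri_mul hP (el_tri hi _) fun b a ha => ?_
    rw [mul_el_apply, dh6_apply, dh6_apply]
    by_cases e : b = i
    · subst e
      rw [if_pos rfl, e0, e2 a ha]
      linear_combination (-y.2.1 a b) * h1
    · rw [if_neg e]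
      by_cases e' : b = i'
      · subst e'
        rw [e1 a ha, e2 a fun e' => ha (hs e')]
        simp
      · rw [h5 b a (by rwa [Function.comp_apply, Equiv.swap_apply_of_ne_of_ne e e'])]
        by_cases hb : b ∈ Γ
        · rw [e1 a fun e' => ha (hl b hb e e')]
          simp
        · rw [h3 b fun e' => hb (Finset.mem_of_mem_erase e')]
          simp
  · exact (dh6_trace_el hq hi.ne t (y.2.1 * dh6N i (-u) y.1, y.2.2)).trans
      ((dh6_trace i _ _ h4).trans h6)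

theorem Ax.r3_open (h : Ax k G) (hq : Su k q) (hP : Lw P) {i i' : ι} (hi : i < i') (hm : i ∈ Γ)
    (hm' : i' ∈ Γ) (hs : P i ⊆ P i') (hl : ∀ j ∈ Γ, j ≠ i → P i' ⊆ P j)
    (h3 : G.good (HR Ω q n (P ∘ Equiv.swap i i') (Γ.erase i))) :
    G.good fun y : (((ι → Ω) × Matrix ι ι Ω × Matrix n ι Ω) × Ω) × Ω =>
      (HR Ω q n P Γ y.1.1 ∧ y.1.1.1 i * y.1.2 = 1) ∧ y.1.1.1 i' * y.2 = 1 := by
  refine h.iso (fun z => ((dh6F q i i' (z.2.1 * z.1.2) z.2.2 z.1.1, z.2.2), z.1.2))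
    (fun x => ((dh6R q i i' (x.1.1.1 i * x.2) x.1.2 x.1.1, x.2), x.1.1.1 i, x.1.2))
    (by fun_prop) (by fun_prop) ?_ ?_ ?_ ?_
    (h.gm (h.opn (g := fun y => y.1 i') (by fun_prop) h3))
  · rintro z ⟨⟨h4, h5⟩, h6⟩
    have e0 : z.1.1.1 i = 0 := h4.1 i (Finset.notMem_erase _ _)
    refine ⟨⟨dh6_hr_F hq hP hi hm hs hl h4 ?_, ?_⟩, ?_⟩
    · linear_combination z.2.1 * z.2.2 * h5 + h6
    · unfold dh6F
      simp only []
      rw [el_mulVec, if_pos rfl, e0]
      linear_combination z.2.1 * z.2.2 * h5 + h6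
    · unfold dh6F
      simp only []
      rwa [el_mulVec, if_neg hi.ne', add_zero]
  · rintro x ⟨⟨h4, h5⟩, h6⟩
    refine ⟨⟨dh6_hr_R hq hP hi hm' hs hl h4 ?_ h5, ?_⟩, h5⟩
    · linear_combination x.1.1.1 i * h6
    · unfold dh6R
      simp only []
      rwa [el_mulVec, if_neg hi.ne', add_zero]
  · rintro z ⟨⟨h4, h5⟩, h6⟩
    have e0 : z.1.1.1 i = 0 := h4.1 i (Finset.notMem_erase _ _)
    have e1 : (dh6F q i i' (z.2.1 * z.1.2) z.2.2 z.1.1).1 i = z.2.1 := by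
      unfold dh6F
      simp only []
      rw [el_mulVec, if_pos rfl, e0]
      linear_combination z.2.1 * h5
    simp only []
    rw [e1, dh6_RF hq hi.ne _ _ e0]
  · rintro x ⟨⟨h4, h5⟩, h6⟩
    simp only []
    rw [dh6_FR hq hi.ne]
    rw [el_mulVec, if_pos rfl]
    linear_combination -x.1.1.1 i * h6

theorem Ax.r3 (h : Ax k G) (hq : Su k q) (hP : Lw P) {i i' : ι} (hi : i < i') (hm : i ∈ Γ)
    (hm' : i' ∈ Γ) (hs : P i ⊆ P i') (hl : ∀ j ∈ Γ, j ≠ i → P i' ⊆ P j)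
    (h1 : G.good (HR Ω q n P (Γ.erase i))) (h2 : G.good (HR Ω q n P (Γ.erase i')))
    (h3 : G.good (HR Ω q n (P ∘ Equiv.swap i i') (Γ.erase i))) : G.good (HR Ω q n P Γ) := by
  refine h.split (g := fun y => y.1 i) (Cz.hr P Γ Pm.id) (by fun_prop)
    (G.congr h1 fun y => hr_erase.symm) ?_
  refine h.split (g := fun y => y.1.1 i') (by fun_prop) (by fun_prop) ?_
    (h.r3_open hq hP hi hm hm' hs hl h3)
  refine G.congr (h.opn (g := fun y => y.1 i) (by fun_prop) h2) fun y => ?_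
  rw [hr_erase]
  tauto

end Pool.Agent.CXD
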