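import Pool.Agent.P.MP_2ce3e7_ag.DH0
import Pool.Agent.P.MP_2ce3e7_ag.DA5

/-! From hypersurfaces to frames. -/

set_option linter.unusedSectionVars false
set_option linter.unusedVariables false

open Function Matrix

noncomputable section

namespace Pool.Agent.CXD

variable {k Ω : Type} [Field k] [Field Ω] [Algebra k Ω] {α : Type} [Af Ω α] {G : Gp Ω} {q : ℕ}
  {ι n : Type} [Fintype ι] [DecidableEq ι] [Fintype n] [DecidableEq n]
  [LinearOrder ι] [IsAlgClosed Ω] {P : ι → Finset ι} {Γ : Finset ι}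

theorem Ay.z_step (h : Ay k q G) (hq : Su k q) (hP : Lw P)
    (h1 : ∀ P' : ι → Finset ι, Lw P' → (∀ i, (P' i).card < Fintype.card ι) →
      G.good (HP Ω q ι P')) : G.good (ZP Ω q P) := by
  by_cases hu : ∃ i, P i = Finset.univ
  · obtain ⟨i, hi⟩ := hu
    refine h.toAx.of_not fun y hy => ?_
    have e : (y.1ᵀ * fm q y.1).det = 0 :=
      det_eq_zero_of_row_eq_zero i fun j => hy.2 i j (hi ▸ Finset.mem_univ j)
    rw [det_mul, det_transpose, hq.fm_det] at e
    have h0 : y.1.det ≠ 0 := left_ne_zero_of_mul_eq_one hy.1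
    exact mul_ne_zero h0 (pow_ne_zero _ h0) e
  have key := h.toAx.cayley (p := fun _ : Matrix ι ι Ω => True) (Cz.const _)
    (h.toAx.univ h.pt _) (ε := ι × ι) (f := fun e x => (xᵀ * fm q x) e.1 e.2)
    (fun e => Pm.entry (by fun_prop) _ _)
    {E | ∃ P' : ι → Finset ι, Lw P' ∧ (∀ i, (P' i).card < Fintype.card ι) ∧
      ∀ e, e ∈ E ↔ e.2 ∈ P' e.1} ?_ ?_ (Finset.univ.filter fun e => e.2 ∈ P e.1)
    ⟨P, hP, fun i => (Finset.card_lt_iff_ne_univ _).2 fun e => hu ⟨i, e⟩, by simp⟩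
  · refine G.congr (h.opn (g := fun x => x.det) (by fun_prop) key) fun y => ?_
    simp only [ZP, Row, Finset.mem_filter, Finset.mem_univ, true_and, Prod.forall]
    exact and_comm
  · rintro E ⟨P', a1, a2, a3⟩ ⟨⟨i, j⟩, hj⟩
    have hn : (P' i).Nonempty := ⟨j, (a3 _).1 hj⟩
    refine ⟨(i, (P' i).max' hn), (a3 _).2 ((P' i).max'_mem hn), drop P' i ((P' i).max' hn),
      a1.drop fun a ha => (P' i).le_max' a ha, fun a => (card_drop _ _ a).trans_lt (a2 a),
      fun e => ?_⟩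
    rw [Finset.mem_erase, mem_drop, a3, and_comm, Ne, Prod.ext_iff]
  · rintro E ⟨P', a1, a2, a3⟩
    have e : ∀ (c x : Matrix ι ι Ω), (c * (xᵀ * fm q x)).trace =
        ∑ e : ι × ι, c e.2 e.1 * (xᵀ * fm q x) e.1 e.2 := fun c x => by
      rw [Fintype.sum_prod_type, Finset.sum_comm]
      rfl
    refine h.toAx.iso (fun z : Matrix ι ι Ω × Matrix ι ι Ω => (z.2, fun e => z.1 e.2 e.1))
      (fun y => (Matrix.of fun j i => y.2 (i, j), y.1)) (by fun_prop) (by fun_prop) ?_ ?_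
      (fun z _ => rfl) (fun y _ => rfl) (h1 P' a1 a2)
    · rintro z ⟨b1, b2⟩
      exact ⟨trivial, fun a ha => b1 _ _ fun b => ha ((a3 a).2 b), (e _ _).symm.trans b2⟩
    · rintro y ⟨-, b1, b2⟩
      exact ⟨fun i j hj => b1 (i, j) fun b => hj ((a3 _).1 b), (e _ _).trans b2⟩

end Pool.Agent.CXD
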