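import Pool.Agent.P.MP_2ce3e7_ag.DH1
import Pool.Agent.P.MP_2ce3e7_ag.DH2
import Pool.Agent.P.MP_2ce3e7_ag.DH3
import Pool.Agent.P.MP_2ce3e7_ag.DH4
import Pool.Agent.P.MP_2ce3e7_ag.DH5
import Pool.Agent.P.MP_2ce3e7_ag.DH6
import Pool.Agent.P.MP_2ce3e7_ag.DH7

/-! The induction. -/

set_option linter.unusedSectionVars false
set_option linter.unusedVariables false

open Function Matrix

noncomputable section

namespace Pool.Agent.CXD

variable {k Ω : Type} [Field k] [Field Ω] [Algebra k Ω] [IsAlgClosed Ω] {G : Gp Ω} {q : ℕ}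

theorem Ax.all_r (h : Ax k G) (hq : Su k q) {ι n : Type} [Fintype ι] [DecidableEq ι] [Fintype n]
    [DecidableEq n] [LinearOrder ι] (r : ℕ)
    (h1 : ∀ P : ι → Finset ι, Lw P → (∀ i, (P i).card ≤ r) → G.good (HP Ω q n P))
    (h2 : ∀ (a : ι) (P : {i // i ≠ a} → Finset {i // i ≠ a}), Lw P → (∀ i, (P i).card ≤ r) →
      G.good (HP Ω q n P)) (Γ : Finset ι) (P : ι → Finset ι) (hP : Lw P)
    (hr : ∀ i, (P i).card ≤ r) : G.good (HR Ω q n P Γ) := by
  induction hN : Γ.card generalizing P Γ with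
  | zero =>
    rw [Finset.card_eq_zero.1 hN]
    exact h.r0 (h1 P hP hr)
  | succ N ih =>
    have hne : Γ.Nonempty := Finset.card_pos.1 (by omega)
    have hi := Γ.min'_mem hne
    have hc : ∀ j ∈ Γ, (Γ.erase j).card = N := fun j hj => by
      rw [Finset.card_erase_of_mem hj, hN]
      rfl
    rcases (Γ.erase (Γ.min' hne)).eq_empty_or_nonempty with he | he
    · have e : Γ = {Γ.min' hne} := (Finset.erase_eq_empty_iff _ _).1 he |>.resolve_left hne.ne_empty
      rw [e]
      exact h.r1 hq _ (h1 P hP hr) (h2 _ _ (hP.del _) fun i => (card_del _ i).trans (hr _))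
    · obtain ⟨i', hi', hmin⟩ := Finset.exists_min_image _ (fun j => (P j).card) he
      obtain ⟨hn, hm'⟩ := Finset.mem_erase.1 hi'
      have hlt : Γ.min' hne < i' := lt_of_le_of_ne (Γ.min'_le _ hm') hn.symm
      rcases hP.total i' (Γ.min' hne) with hs | hs
      · exact h.r2 hq hP hlt hi hm' hs (ih _ P hP hr (hc _ hm')) (ih _ P hP hr (hc _ hi))
      · refine h.r3 hq hP hlt hi hm' hs (fun j hj hji => ?_) (ih _ P hP hr (hc _ hi))
          (ih _ P hP hr (hc _ hm')) (ih _ _ (fun a => hP _) (fun a => hr _) (hc _ hi))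
        rcases hP.total i' j with h3 | h3
        · exact h3
        · exact (Finset.eq_of_subset_of_card_le h3 (hmin j (Finset.mem_erase.2 ⟨hji, hj⟩))).ge

theorem Ay.all_h (h : Ay k q G) (hq : Su k q) (r : ℕ)
    (h1 : ∀ (ι : Type) [Fintype ι] [DecidableEq ι] [LinearOrder ι], Fintype.card ι ≤ r →
      ∀ P : ι → Finset ι, Lw P → G.good (ZP Ω q P))
    (n : Type) [Fintype n] [DecidableEq n] (ι : Type) [Fintype ι] [DecidableEq ι] [LinearOrder ι]
    (P : ι → Finset ι) (hP : Lw P) (hr : ∀ i, (P i).card ≤ r) : G.good (HP Ω q n P) := by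
  induction hN : Fintype.card ι using Nat.strong_induction_on generalizing ι with
  | _ N ihN =>
  induction hM : ∑ a, (P a).card using Nat.strong_induction_on generalizing P with
  | _ M ihM =>
  have hd : ∀ i m, m ∈ P i → (∀ j ∈ P i, j ≤ m) → G.good (HP Ω q n (drop P i m)) :=
    fun i m hm hmax => ihM _ (hM ▸ sum_drop hm) _ (hP.drop hmax)
      (fun a => (card_drop i m a).trans (hr a)) rfl
  rcases hP.cases with ⟨a, ha⟩ | ⟨i, i', m, hi, he, hm, hmax⟩ | ⟨σ, hσ⟩
  · have c1 : Fintype.card {i // i ≠ a} < N :=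
      hN ▸ Fintype.card_subtype_lt (x := a) (by simp)
    exact h.h1 hq ha (h.toAx.all_r hq r (fun P' h2 h3 => ihN _ c1 _ P' h2 h3 rfl)
      (fun b P' h2 h3 => ihN _ ((Fintype.card_subtype_le _).trans_lt c1) _ P' h2 h3 rfl) _ _
      (hP.del a) fun i => (card_del a i).trans (hr _))
  · exact h.toAx.h2 hq hP hi he hm hmax (hd i' m hm hmax) (hd i m (he ▸ hm) (he ▸ hmax))
  · refine h.h3 hq hσ (fun i => hd i _ ((hσ i _).2 le_rfl) fun j hj => (hσ i j).1 hj)
      (@h1 ι _ _ (inferInstanceAs (LinearOrder ιᵒᵈ)) ?_ _ fun i j j' hj hm => ?_)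
    · rcases (Finset.univ : Finset ι).eq_empty_or_nonempty with he | he
      · rw [← Finset.card_univ, he]
        exact Nat.zero_le r
      · have e : P (σ.symm (Finset.univ.max' he)) = Finset.univ :=
          Finset.eq_univ_of_forall fun j => (hσ _ j).2 (by
            rw [Equiv.apply_symm_apply]
            exact Finset.le_max' _ _ (Finset.mem_univ j))
        rw [← Finset.card_univ, ← e]
        exact hr _
    · exact Finset.mem_compl.2 fun hj' => Finset.mem_compl.1 hm (hP i j' j hj hj')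

theorem Ay.all_z (h : Ay k q G) (hq : Su k q) (ι : Type) [Fintype ι] [DecidableEq ι]
    [LinearOrder ι] (P : ι → Finset ι) (hP : Lw P) : G.good (ZP Ω q P) := by
  induction hN : Fintype.card ι using Nat.strong_induction_on generalizing ι with
  | _ N ih =>
  refine h.z_step hq hP fun P' hP' hc => ?_
  rcases Nat.eq_zero_or_pos N with h0 | h0
  · have : IsEmpty ι := Fintype.card_eq_zero_iff.1 (hN.trans h0)
    exact G.congr (h.toAx.univ h.pt _) fun y =>
      iff_true_intro ⟨fun i => isEmptyElim i, Finset.sum_of_isEmpty _⟩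
  · exact h.all_h hq (N - 1) (fun ι' _ _ _ h1 P'' h2 => ih _ (by omega) ι' P'' h2 rfl) ι ι P' hP'
      fun i => by
        have := hc i
        omega

end Pool.Agent.CXD
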