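import Pool.Agent.P.MP_2ce3e7_ag.DF1
import Pool.Agent.P.MP_2ce3e7_ag.DH8

/-! Chains of frames. -/

set_option linter.unusedSectionVars false
set_option linter.unusedVariables false

open Function Matrix

noncomputable section

namespace Pool.Agent.CXD

variable {k Ω : Type} [Field k] [Field Ω] [Algebra k Ω] {G : Gp Ω} {q : ℕ}
  {ι : Type} [Fintype ι] [DecidableEq ι] [LinearOrder ι]

variable (Ω) in
/-- chains of frames -/
def Ec (d : ℕ) (C : Fin d → ι → Finset ι) (y : Fin (d + 1) → Matrix ι ι Ω × Ω) : Prop :=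
  (∀ c, (y c).1.det * (y c).2 = 1) ∧
    ∀ c : Fin d, Col (C c) ((y c.castSucc).1.adjugate * (y c.succ).1)

variable (Ω) in
/-- chains of frames with a condition on the last and the first member -/
def Es (q d : ℕ) (C : Fin d → ι → Finset ι) (P : ι → Finset ι)
    (y : Fin (d + 1) → Matrix ι ι Ω × Ω) : Prop :=
  Ec Ω d C y ∧ Row P ((y (Fin.last d)).1ᵀ * fm q (y 0).1)

theorem cz_ec (d : ℕ) (C : Fin d → ι → Finset ι) : Cz k (Ec Ω d C) := by
  unfold Ec
  fun_prop

theorem cz_es (d : ℕ) (C : Fin d → ι → Finset ι) (P : ι → Finset ι) :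
    Cz k (Es Ω q d C P) := by
  have := cz_ec (k := k) (Ω := Ω) d C
  unfold Es
  fun_prop

theorem df2_det {b b' : Matrix ι ι Ω × Ω} (h : b.1.det * b.2 = 1) (h' : b'.1.det * b'.2 = 1) :
    (b * b').1.det * (b * b').2 = 1 := by
  rw [Prod.fst_mul, Prod.snd_mul, det_mul, mul_mul_mul_comm, h, h', mul_one]

theorem df2_smul {P : ι → Finset ι} {c : Matrix ι ι Ω} (t : Ω) (h : Col P c) : Col P (t • c) :=
  fun i j hj => by rw [Matrix.smul_apply, h i j hj, smul_zero]

theorem Su.act_ec (hq : Su k q) (d : ℕ) {C : Fin d → ι → Finset ι} (h1 : ∀ c, Lw (C c))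
    (h2 : ∀ c, Monotone (C c)) :
    Act k (Ec Ω d C) (fun y => (y (Fin.last d)).1ᵀ * fm q (y 0).1)
      fun y => update y.1 (Fin.last d) (y.1 (Fin.last d) * y.2) where
  cz := cz_ec d C
  pmM := by fun_prop
  pma := by fun_prop
  mem x b hx hb := by
    refine ⟨fun c => ?_, fun c => ?_⟩
    · by_cases e : c = Fin.last d
      · rw [e, update_self]
        exact df2_det (hx.1 _) hb.2
      · rw [update_of_ne e]
        exact hx.1 c
    · rw [update_of_ne (Fin.castSucc_ne_last c)]
      by_cases e : c.succ = Fin.last d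
      · rw [e, update_self, Prod.fst_mul, ← Matrix.mul_assoc]
        exact Col.mul_tri (h2 c) hb.1 (e ▸ hx.2 c)
      · rw [update_of_ne e]
        exact hx.2 c
  mul x b b' := by simp only [update_idem, update_self, mul_assoc]
  one x := by simp only [mul_one, update_eq_self]
  row x b hb := by
    by_cases e : (0 : Fin (d + 1)) = Fin.last d
    · refine ⟨(fm q b.1, b.2 ^ q), ⟨fun i j hij => ?_, ?_⟩, ?_⟩
      · change b.1 i j ^ q = 0
        rw [hb.1 hij, zero_pow hq.pos.ne']
      · rw [hq.fm_det, ← mul_pow, hb.2, one_pow]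
      · simp only [e, update_self, Prod.fst_mul, transpose_mul, hq.fm_mul, Matrix.mul_assoc]
    · refine ⟨1, ⟨blockTriangular_one, by simp⟩, ?_⟩
      simp only [update_of_ne e, update_self, Prod.fst_mul, Prod.fst_one, transpose_mul,
        Matrix.mul_assoc, Matrix.mul_one]

/-- add a member to a chain -/
def df2_f {d : ℕ} (z : (Fin (d + 1) → Matrix ι ι Ω × Ω) × Matrix ι ι Ω × Ω) :
    Fin (d + 1 + 1) → Matrix ι ι Ω × Ω :=
  Fin.snoc (α := fun _ => Matrix ι ι Ω × Ω) z.1 (z.1 (Fin.last d) * z.2)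

/-- remove the last member of a chain -/
def df2_r {d : ℕ} (y : Fin (d + 1 + 1) → Matrix ι ι Ω × Ω) :
    (Fin (d + 1) → Matrix ι ι Ω × Ω) × Matrix ι ι Ω × Ω :=
  (fun c => y c.castSucc, tinv (y (Fin.last d).castSucc) * y (Fin.last (d + 1)))

theorem df2_pm_f {d : ℕ} : Pm k (df2_f (ι := ι) (Ω := Ω) (d := d)) := by
  unfold df2_f
  fun_prop

theorem df2_pm_r {d : ℕ} : Pm k (df2_r (ι := ι) (Ω := Ω) (d := d)) := by
  have := pm_tinv (k := k) (Ω := Ω) (ι := ι)
  unfold df2_r
  fun_prop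

theorem df2_last {d : ℕ} (z : (Fin (d + 1) → Matrix ι ι Ω × Ω) × Matrix ι ι Ω × Ω) :
    df2_f z (Fin.last (d + 1)) = z.1 (Fin.last d) * z.2 := Fin.snoc_last ..

theorem df2_cast {d : ℕ} (z : (Fin (d + 1) → Matrix ι ι Ω × Ω) × Matrix ι ι Ω × Ω)
    (c : Fin (d + 1)) : df2_f z c.castSucc = z.1 c := Fin.snoc_castSucc ..

variable [IsAlgClosed Ω]

theorem Ay.es (h : Ay k q G) (hq : Su k q) (d : ℕ) (C : Fin d → ι → Finset ι)
    (h1 : ∀ c, Lw (C c)) (h2 : ∀ c, Monotone (C c)) (P : ι → Finset ι) (hP : Lw P) :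
    G.good (Es Ω q d C P) := by
  induction d generalizing P with
  | zero =>
    refine h.iso (fun z _ => z) (fun y => y 0) (by fun_prop) (by fun_prop) ?_ ?_ (fun _ _ => rfl)
      ?_ (h.all_z hq ι P hP)
    · exact fun z hz => ⟨⟨fun _ => hz.1, fun c => c.elim0⟩, hz.2⟩
    · exact fun y hy => ⟨hy.1.1 0, hy.2⟩
    · exact fun y _ => funext fun c => congrArg y (Subsingleton.elim (α := Fin 1) _ _)
  | succ d ih =>
    refine h.iso df2_f df2_r df2_pm_f df2_pm_r ?_ ?_ ?_ ?_
      (h.fold (hq.act_ec d (C := fun c => C c.castSucc) (fun _ => h1 _) fun _ => h2 _)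
        (fun P' hP' => ih (fun c => C c.castSucc) (fun _ => h1 _) (fun _ => h2 _) P' hP') hP
        (h1 (Fin.last d)))
    · rintro z ⟨h3, h4, h5, h6⟩
      refine ⟨⟨fun c => ?_, fun c => ?_⟩, ?_⟩
      · induction c using Fin.lastCases with
        | last =>
          rw [df2_last]
          exact df2_det (h3.1 _) h4
        | cast c =>
          rw [df2_cast]
          exact h3.1 c
      · induction c using Fin.lastCases with
        | last =>
          rw [df2_cast, Fin.succ_last, df2_last, Prod.fst_mul, ← Matrix.mul_assoc, adjugate_mul,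
            Matrix.smul_mul, Matrix.one_mul]
          exact df2_smul _ h5
        | cast c =>
          rw [df2_cast, Fin.succ_castSucc, df2_cast]
          exact h3.2 c
      · rw [df2_last, ← Fin.castSucc_zero, df2_cast, Prod.fst_mul, transpose_mul, Matrix.mul_assoc]
        exact h6
    · rintro y ⟨⟨h3, h4⟩, h5⟩
      refine ⟨⟨fun c => h3 _, fun c => ?_⟩, df2_det (tinv_det (h3 _)) (h3 _), ?_, ?_⟩
      · have h6 := h4 c.castSucc
        rwa [Fin.succ_castSucc] at h6
      · have h6 := df2_smul (y (Fin.last d).castSucc).2 (h4 (Fin.last d))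
        rwa [Fin.succ_last, ← Matrix.smul_mul] at h6
      · have h6 : y (Fin.last d).castSucc * (df2_r y).2 = y (Fin.last (d + 1)) := by
          unfold df2_r
          rw [← mul_assoc, mul_tinv (h3 _), one_mul]
        rw [← h6, Prod.fst_mul, transpose_mul, Matrix.mul_assoc] at h5
        exact h5
    · rintro z ⟨h3, h4, h5, h6⟩
      refine Prod.ext (funext fun c => df2_cast z c) ?_
      unfold df2_r
      rw [df2_cast, df2_last, ← mul_assoc, tinv_mul (h3.1 _), one_mul]
    · rintro y ⟨⟨h3, h4⟩, h5⟩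
      funext c
      induction c using Fin.lastCases with
      | last =>
        rw [df2_last]
        unfold df2_r
        rw [← mul_assoc, mul_tinv (h3 _), one_mul]
      | cast c => exact df2_cast _ c

theorem Ay.es_pi (h : Ay k q G) (hq : Su k q) (N d : ℕ) {n : Fin N → ℕ}
    (C : ∀ b, Fin d → Fin (n b) → Finset (Fin (n b))) (h1 : ∀ b c, Lw (C b c))
    (h2 : ∀ b c, Monotone (C b c)) (P : ∀ b, Fin (n b) → Finset (Fin (n b)))
    (hP : ∀ b, Lw (P b)) :
    G.good fun y : ∀ b : Fin N, Fin (d + 1) → Matrix (Fin (n b)) (Fin (n b)) Ω × Ω =>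
      ∀ b, Es Ω q d (C b) (P b) (y b) :=
  h.pi N _ (fun b => cz_es d _ _) fun b G' h' => h'.es hq d _ (h1 b) (h2 b) _ (hP b)

end Pool.Agent.CXD
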