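import Pool.Agent.P.MP_2ce3e7_ag.CWK
import Pool.Agent.P.MP_2ce3e7_ag.CYP

/-! The relative form of the property `TT`. -/

set_option linter.unusedSectionVars false
set_option linter.unusedVariables false

open Function
open scoped TensorProduct

noncomputable section

namespace Pool.Agent.CXD

theorem Fam.cast {A : Type} [CommRing A] {φ : A →+* A} {r Q : ℕ} {X : Set (Val A)}
    (h : Fam φ r Q X) (r' Q' : ℕ) : Fam φ r' Q X := ⟨h.fin, h.add, h.st, h.div⟩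

theorem FamG.cast {A Γ : Type} [CommRing A] [AddCommGroup Γ] {𝒜 : Γ → Set A} {T : GM 𝒜 → GM 𝒜}
    {r Q : ℕ} {X : Set (GM 𝒜 → ℚ)} (h : FamG T r Q X) (r' Q' : ℕ) : FamG T r' Q X :=
  ⟨h.add, h.st, h.div⟩

/-- the ideals that contain `S` -/
def Zs {B : Type} [CommRing B] (S : Set B) : Set (Ideal B) := {P | ∀ f ∈ S, f ∈ P}

variable (k K B : Type) [Field k] [Fintype k] [CommRing K] [Algebra k K] [CommRing B] [Algebra k B]

/-- a divisible family that kills exterior products and the primes over `V` kills the primes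
over `U` -/
def TP (U V : Set (Ideal B)) : Prop :=
  ∀ X : Set (Val (K ⊗[k] B)), Fam (Fr k K B) 0 (Fintype.card k) X → (∀ χ ∈ X, Ext1 k K B χ) →
    (∀ χ ∈ X, ∀ P : Ideal (K ⊗[k] B), P.IsPrime → P.comap (inr k K B) ∈ V →
      χ.val (K ⊗[k] B ⧸ P) = 0) →
    ∀ χ ∈ X, ∀ P : Ideal (K ⊗[k] B), P.IsPrime → P.comap (inr k K B) ∈ U →
      χ.val (K ⊗[k] B ⧸ P) = 0

/-- the property `TT` for the complement of the zero set of `S` -/
def TQ (S : Set B) : Prop := TP k K B Set.univ (Zs S)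

variable {k K B} {B' : Type} [CommRing B'] [Algebra k B'] {r Q : ℕ} {U U' V V' W : Set (Ideal B)}
  {S : Set B}

theorem TT.cast (h : TT k K B r Q) (r' Q' : ℕ) : TT k K B r' Q' :=
  fun X hX => h X (hX.cast r Q)

theorem TP.mono (h : TP k K B U V) (hU : ∀ P : Ideal B, P.IsPrime → P ∈ U' → P ∈ U)
    (hV : ∀ P : Ideal B, P.IsPrime → P ∈ V → P ∈ V') : TP k K B U' V' :=
  fun X hX hE hv χ hχ P hP hm => h X hX hE
    (fun χ hχ P hP hm => hv χ hχ P hP (hV _ (Ideal.comap_isPrime _ P) hm)) χ hχ P hP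
    (hU _ (Ideal.comap_isPrime _ P) hm)

theorem TP.trans (h : TP k K B U V) (h' : TP k K B V W) : TP k K B U W :=
  fun X hX hE hv => h X hX hE (h' X hX hE hv)

theorem TP.refl : TP k K B U U := fun _ _ _ hv => hv

theorem TP.of_forall (h : ∀ P : Ideal B, P.IsPrime → P ∈ U → ∃ U', P ∈ U' ∧ TP k K B U' V) :
    TP k K B U V := fun X hX hE hv χ hχ P hP hm => by
  obtain ⟨U', h1, h2⟩ := h _ (Ideal.comap_isPrime _ P) hm
  exact h2 X hX hE hv χ hχ P hP h1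

variable [IsNoetherianRing K] [Algebra.FiniteType k B] [Algebra.FiniteType k B']

theorem TP.nul (h : TP k K B Set.univ V) {X : Set (Val (K ⊗[k] B))}
    (hX : Fam (Fr k K B) r (Fintype.card k) X) (hE : ∀ χ ∈ X, Ext1 k K B χ)
    (hv : ∀ χ ∈ X, ∀ P : Ideal (K ⊗[k] B), P.IsPrime → P.comap (inr k K B) ∈ V →
      χ.val (K ⊗[k] B ⧸ P) = 0) : ∀ χ ∈ X, Nul χ := fun χ hχ M _ _ _ =>
  have := noeth_tensor k K B
  val_of_primes (hX.add χ hχ) M kill_bot fun P hP _ =>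
    h X (hX.cast 0 0) hE hv χ hχ P hP trivial

theorem TQ.nul (h : TQ k K B S) {X : Set (Val (K ⊗[k] B))}
    (hX : Fam (Fr k K B) r (Fintype.card k) X) (hE : ∀ χ ∈ X, Ext1 k K B χ)
    (hv : ∀ χ ∈ X, ∀ P : Ideal (K ⊗[k] B), P.IsPrime → (∀ f ∈ S, inr k K B f ∈ P) →
      χ.val (K ⊗[k] B ⧸ P) = 0) : ∀ χ ∈ X, Nul χ := TP.nul h hX hE hv

theorem TQ.of (h : ∀ X : Set (Val (K ⊗[k] B)), Fam (Fr k K B) 0 (Fintype.card k) X →
    (∀ χ ∈ X, Ext1 k K B χ) → (∀ χ ∈ X, ∀ P : Ideal (K ⊗[k] B), P.IsPrime → (∀ f ∈ S, inr k K B f ∈ P) →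
      χ.val (K ⊗[k] B ⧸ P) = 0) → ∀ χ ∈ X, Nul χ) : TQ k K B S :=
  fun X hX hE hv χ hχ _ _ _ => h X hX hE hv χ hχ _

theorem TP.tt (h : TP k K B Set.univ ∅) : TT k K B r Q :=
  fun _ hX hE => h.nul hX hE fun _ _ _ _ hm => hm.elim

theorem TT.tp (h : TT k K B r Q) : TP k K B U V :=
  fun X hX hE _ χ hχ _ _ _ => h X (hX.cast r Q) hE χ hχ _

theorem TP.piece (hT : TT k K B' r Q) (ψ : B →ₐ[k] B') (hS : Pc ψ.toRingHom S) :
    TP k K B {P | RingHom.ker ψ.toRingHom ≤ P} (Zs S) := fun X hX hE hv =>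
  TT.piece hT ψ hS (hX.cast r Q) hE fun χ hχ P hP _ hf => hv χ hχ P hP hf

end Pool.Agent.CXD
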