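import Pool.Agent.P.MP_2ce3e7_ag.DG0

/-! Finite maps. -/

set_option linter.unusedSectionVars false
set_option linter.unusedVariables false

open Function
open scoped TensorProduct

noncomputable section

namespace Pool.Agent.CXD

variable {k K B B' : Type} [Field k] [Fintype k] [CommRing K] [Algebra k K] [IsNoetherianRing K]
  [CommRing B] [Algebra k B] [Algebra.FiniteType k B] [CommRing B'] [Algebra k B']
  [Algebra.FiniteType k B'] {r Q : ℕ}

theorem nul_DG1 {A A' : Type} [CommRing A] [CommRing A'] [IsNoetherianRing A] (Ψ : A →+* A')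
    (hΨ : Ψ.Finite) {χ : Val A} (hχ : IsAdd χ ⊥) (h0 : Nul (push Ψ χ)) (P : Ideal A)
    (hP : P.IsPrime) (hk : RingHom.ker Ψ ≤ P) : χ.val (A ⧸ P) = 0 := by
  have hpc : Pc Ψ {1} := ⟨Set.finite_singleton _, hΨ.finiteType, fun f _ y => ⟨0, by
    rw [pow_zero, one_mul]
    exact hΨ.to_isIntegral y⟩⟩
  have hv : Vn Ψ {1} χ := fun Q hQ _ h1 => absurd ((Ideal.eq_top_iff_one Q).2 (h1 1 rfl)) hQ.ne_top
  refine piece_prime hpc hχ hv (fun M _ _ _ => ?_) P hP hk
  let : Module A M := Module.compHom M Ψ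
  let j : M →ₛₗ[Ψ] M := { toFun := id, map_add' := fun _ _ => rfl, map_smul' := fun _ _ => rfl }
  have hj : Lat Ψ {1} j := ⟨finite_compHom Ψ hΨ M, injective_id, fun f _ y => ⟨0, y, by
    rw [pow_zero, one_smul]
    rfl⟩⟩
  rw [ext_val hχ hv hj]
  exact h0 M

theorem TP.fin (ψ : B →ₐ[k] B') (hf : ψ.toRingHom.Finite) (hn : ∀ b, ψ b = 0 → IsNilpotent b)
    {V : Set (Ideal B)} {V' : Set (Ideal B')}
    (hV : ∀ P' : Ideal B', P'.IsPrime → P' ∈ V' → ∀ P : Ideal B, P.IsPrime →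
      P'.comap ψ.toRingHom ≤ P → P ∈ V) (h : TP k K B' Set.univ V') : TP k K B Set.univ V := by
  intro X hX hE hv χ hχ P hP _
  have := noeth_tensor k K B
  have hF := hX.push (Fr_finite k K B') (mp K ψ) (mp_finite hf) (mp_Fr _)
  have hE' : ∀ c ∈ push (mp K ψ) '' X, Ext1 k K B' c := by
    rintro _ ⟨c, hc, rfl⟩
    exact Ext1.push (hE c hc) (hX.add c hc) _ hf
  have hv' : ∀ c ∈ push (mp K ψ) '' X, ∀ P' : Ideal (K ⊗[k] B'), P'.IsPrime →
      P'.comap (inr k K B') ∈ V' → c.val (K ⊗[k] B' ⧸ P') = 0 := by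
    rintro _ ⟨c, hc, rfl⟩ P' hP' hm
    let : Module (K ⊗[k] B) (K ⊗[k] B' ⧸ P') := Module.compHom _ (mp K ψ)
    have : Module.Finite (K ⊗[k] B) (K ⊗[k] B' ⧸ P') := finite_compHom _ (mp_finite hf) _
    refine val_of_primes (hX.add c hc) (K ⊗[k] B' ⧸ P') kill_bot fun Q hQ hle => ?_
    rw [annihilator_compHom] at hle
    exact hv c hc Q hQ (hV _ (Ideal.comap_isPrime _ P') hm _ (Ideal.comap_isPrime _ Q)
      fun b hb => hle hb)
  refine nul_DG1 (mp K ψ) (mp_finite hf) (hX.add χ hχ) (h.nul hF hE' hv' _ ⟨χ, hχ, rfl⟩) P hP ?_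
  rw [ker_mp]
  exact Ideal.map_le_iff_le_comap.2 fun b hb =>
    nilpotent_iff_mem_prime.1 (hn b hb) _ (Ideal.comap_isPrime _ P)

theorem TT.fin (ψ : B →ₐ[k] B') (hf : ψ.toRingHom.Finite) (hn : ∀ b, ψ b = 0 → IsNilpotent b)
    (h : TT k K B' r Q) : TT k K B r Q :=
  (TP.fin ψ hf hn (V := ∅) (V' := ∅) (fun _ _ h => h.elim) h.tp).tt

theorem TT.of_surj_nil (ψ : B →ₐ[k] B') (hs : Surjective ψ) (hn : ∀ b, ψ b = 0 → IsNilpotent b)
    (h : TT k K B r Q) : TT k K B' r Q := by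
  have : IsNoetherianRing B := Algebra.FiniteType.isNoetherianRing k B
  obtain ⟨N, hN⟩ := IsNoetherianRing.isNilpotent_nilradical B
  let F : B →ₐ[k] B := FiniteField.frobeniusAlgHom k B ^ N
  have hF : ∀ (n : ℕ) (a : B),
      (FiniteField.frobeniusAlgHom k B ^ n) a = a ^ Fintype.card k ^ n := by
    intro n
    induction n with
    | zero => exact fun a => by rw [pow_zero, pow_zero, pow_one, AlgHom.one_apply]
    | succ n ih =>
      intro a
      rw [pow_succ', AlgHom.mul_apply, ih, pow_succ, pow_mul]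
      rfl
  have hfin : ∀ n : ℕ, (FiniteField.frobeniusAlgHom k B ^ n).toRingHom.Finite := by
    intro n
    induction n with
    | zero => exact RingHom.Finite.id B
    | succ n ih =>
      rw [pow_succ]
      exact RingHom.Finite.comp ih (frobAlg_finite k B)
  have hk : RingHom.ker ψ.toRingHom ≤ RingHom.ker F.toRingHom := by
    intro a ha
    have h1 : a ^ N = 0 := by
      have h2 : a ^ N ∈ nilradical B ^ N := Ideal.pow_mem_pow (mem_nilradical.2 (hn a ha)) N
      rw [hN] at h2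
      exact Ideal.mem_bot.1 h2
    exact (hF N a).trans (pow_eq_zero_of_le (Nat.lt_pow_self Fintype.one_lt_card).le h1)
  let σ : B' →ₐ[k] B := AlgHom.liftOfSurjective ψ hs F hk
  have hσ : ∀ a, σ (ψ a) = F a := AlgHom.liftOfSurjective_apply ψ hs F hk
  refine TT.fin σ ?_ (fun b hb => ?_) h
  · refine RingHom.Finite.of_comp_finite (f := ψ.toRingHom) ?_
    have e : σ.toRingHom.comp ψ.toRingHom = F.toRingHom := RingHom.ext hσ
    rw [e]
    exact hfin N
  · obtain ⟨a, rfl⟩ := hs b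
    rw [hσ] at hb
    exact IsNilpotent.map ⟨_, (hF N a).symm.trans hb⟩ ψ

theorem TT.of_range {D : Type} [CommRing D] [Algebra k D] (α : B →ₐ[k] D) (β : B' →ₐ[k] D)
    (hn : ∀ b, α b = 0 → IsNilpotent b) (hi : Injective β) (h1 : ∀ b, ∃ b', β b' = α b)
    (h2 : ∀ b', ∃ b, β b' = α b) (h : TT k K B r Q) : TT k K B' r Q := by
  let ψ : B →ₐ[k] B' := ((AlgEquiv.ofInjective β hi).symm : β.range →ₐ[k] B').comp
    (α.codRestrict β.range h1)
  have hψ : ∀ b, β (ψ b) = α b := fun b =>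
    congrArg Subtype.val ((AlgEquiv.ofInjective β hi).apply_symm_apply (α.codRestrict β.range h1 b))
  refine TT.of_surj_nil ψ (fun b' => ?_) (fun b hb => hn b ?_) h
  · obtain ⟨b, hb⟩ := h2 b'
    exact ⟨b, hi ((hψ b).trans hb.symm)⟩
  · rw [← hψ, hb, map_zero]

theorem TT.poly0 (h : TT k K B 0 0) : TT k K (Polynomial B) 0 0 :=
  ((h.cast 0 (Fintype.card k)).poly rfl).cast 0 0

end Pool.Agent.CXD
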