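import Pool.Agent.P.MP_2ce3e7_ag.DG0

attribute [local instance] Pool.Agent.CXD.instAdd_CWG Pool.Agent.CXD.instMod_CWG

/-! Open subsets. -/

set_option linter.unusedSectionVars false
set_option linter.unusedVariables false

open Function
open scoped TensorProduct

noncomputable section

namespace Pool.Agent.CXD

section
variable {C D : Type} [CommRing C] [CommRing D] [Algebra C D] (G : C) [IsLocalization.Away G D]
  {φ : C →+* C} {φ' : D →+* D} {χ : Val D}

theorem surj_DG2 {V : Type} [AddCommGroup V] [Module C V] (z : D ⊗[C] V) :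
    ∃ (n : ℕ) (v : V), algebraMap C D G ^ n • z = (1 : D) ⊗ₜ v := by
  obtain ⟨⟨v, _, n, rfl⟩, h⟩ :=
    IsLocalizedModule.surj (Submonoid.powers G) (TensorProduct.mk C D V 1) z
  refine ⟨n, v, ?_⟩
  rw [← map_pow, algebraMap_smul]
  exact h

theorem zero_DG2 {V : Type} [AddCommGroup V] [Module C V] (v : V) :
    (1 : D) ⊗ₜ[C] v = 0 ↔ ∃ n : ℕ, G ^ n • v = 0 := by
  refine (IsLocalizedModule.eq_zero_iff (Submonoid.powers G) (TensorProduct.mk C D V 1)).trans ?_
  exact ⟨fun ⟨⟨_, n, rfl⟩, h⟩ => ⟨n, h⟩, fun ⟨n, h⟩ => ⟨⟨_, n, rfl⟩, h⟩⟩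

theorem iso_DG2 (hc : ∀ c, algebraMap C D (φ c) = φ' (algebraMap C D c)) {q : ℕ}
    (hG : φ G = G ^ (q + 1)) (W : Type) [AddCommGroup W] [Module C W] :
    ∃ u : D ⊗[C] Cp_CWG φ W ≃+ D ⊗[C] W, ∀ (e : D) z, u (e • z) = φ' e • u z := by
  have hs : ∀ (c : C) (x : D), c • x = algebraMap C D c * x := fun c x => Algebra.smul_def c x
  obtain ⟨u, hu⟩ : ∃ u : D ⊗[C] Cp_CWG φ W →+ D ⊗[C] W,
      ∀ d w, u (d ⊗ₜ toCp_CWG φ W w) = φ' d ⊗ₜ w := by
    refine ⟨TensorProduct.liftAddHom (AddMonoidHom.mk' (fun d => AddMonoidHom.mk'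
      (fun w => φ' d ⊗ₜ (toCp_CWG φ W).symm w) fun w w' => ?_) fun d d' => ?_)
      fun c d w => ?_, fun d w => rfl⟩
    · rw [map_add, TensorProduct.tmul_add]
    · ext w
      simp only [AddMonoidHom.mk'_apply, map_add, TensorProduct.add_tmul, AddMonoidHom.add_apply]
    · obtain ⟨w, rfl⟩ := (toCp_CWG φ W).surjective w
      simp only [AddMonoidHom.mk'_apply, smul_CWG, AddEquiv.symm_apply_apply]
      rw [hs, map_mul, ← hc, ← hs, TensorProduct.smul_tmul]
  have hl : ∀ (e : D) z, u (e • z) = φ' e • u z := by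
    intro e z
    induction z using TensorProduct.induction_on with
    | zero => rw [smul_zero, map_zero, smul_zero]
    | add a b ha hb => rw [smul_add, map_add, ha, hb, map_add, smul_add]
    | tmul d w =>
      obtain ⟨w, rfl⟩ := (toCp_CWG φ W).surjective w
      rw [TensorProduct.smul_tmul', hu, hu, TensorProduct.smul_tmul', smul_eq_mul, smul_eq_mul,
        map_mul]
  have hU : IsUnit (algebraMap C D G) := IsLocalization.Away.algebraMap_isUnit G
  have hi : Injective u := (injective_iff_map_eq_zero u).2 fun z hz => by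
    obtain ⟨n, v, hv⟩ := surj_DG2 G z
    obtain ⟨w, rfl⟩ := (toCp_CWG φ W).surjective v
    have h1 := congrArg u hv
    rw [hl, hz, smul_zero, hu, map_one] at h1
    obtain ⟨m, hm⟩ := (zero_DG2 G w).1 h1.symm
    have h2 : (1 : D) ⊗ₜ[C] toCp_CWG φ W w = 0 := (zero_DG2 G _).2 ⟨m, by
      rw [smul_CWG, map_pow, hG, ← pow_mul, add_mul, one_mul, pow_add, mul_smul, hm, smul_zero,
        map_zero]⟩
    exact (hU.pow n).smul_eq_zero.1 (hv.trans h2)
  have hj : Surjective u := fun z => by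
    obtain ⟨n, w, hw⟩ := surj_DG2 G z
    obtain ⟨e, he⟩ := (hU.pow n).exists_left_inv
    refine ⟨e • (1 : D) ⊗ₜ toCp_CWG φ W (G ^ (q * n) • w), ?_⟩
    have h1 : φ' e * (algebraMap C D G ^ (q * n) * algebraMap C D G ^ n) = 1 := by
      rw [← pow_add, show q * n + n = (q + 1) * n by ring, pow_mul, ← map_pow, ← hG, hc, ← map_pow,
        ← map_mul, he, map_one]
    rw [hl, hu, map_one, TensorProduct.tmul_smul, ← hw, ← algebraMap_smul D (G ^ (q * n)), map_pow,
      ← mul_smul, ← mul_smul, mul_assoc, h1, one_smul]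
  exact ⟨AddEquiv.ofBijective u ⟨hi, hj⟩, hl⟩

end

section
variable {C D : Type} [CommRing C] [CommRing D] {ι : C →+* D} {φ : C →+* C} {φ' : D →+* D}
  {χ : Val D} {G : C}

theorem isAdd_DG2 (h : letI := ι.toAlgebra; IsLocalization.Away G D) (hχ : IsAdd χ ⊥) :
    IsAdd (bc ι χ) ⊥ := by
  let := ι.toAlgebra
  have : Module.Flat C D := IsLocalization.flat D (Submonoid.powers G)
  intro M N P _ _ _ _ _ _ _ f g hf hg he hk
  refine hχ _ _ _ (f.baseChange D) (g.baseChange D) ?_ ?_ ?_ kill_bot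
  · rw [LinearMap.baseChange_eq_ltensor]
    exact Module.Flat.lTensor_preserves_injective_linearMap f hf
  · rw [LinearMap.baseChange_eq_ltensor]
    exact LinearMap.lTensor_surjective _ hg
  · rw [LinearMap.baseChange_eq_ltensor, LinearMap.baseChange_eq_ltensor]
    exact Module.Flat.lTensor_exact _ he

theorem push_DG2 (h : letI := ι.toAlgebra; IsLocalization.Away G D)
    (hc : ∀ c, ι (φ c) = φ' (ι c)) {q : ℕ} (hG : φ G = G ^ (q + 1)) (hχ : IsAdd χ ⊥)
    (hφ : φ.Finite) : Eqv (bc ι (push φ' χ)) (push φ (bc ι χ)) := by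
  intro W _ _ _
  let := ι.toAlgebra
  obtain ⟨u, hu⟩ := iso_DG2 (C := C) (D := D) (φ' := φ') G hc hG W
  have : Module.Finite C (Cp_CWG φ W) := finite_compHom φ hφ W
  have h1 : @Val.val D _ χ (D ⊗[C] W) _ (Module.compHom _ φ') = χ.val (D ⊗[C] Cp_CWG φ W) := by
    have key : ∀ {X Y : Type} [AddCommGroup X] [AddCommGroup Y] (mX : Module D X) [Module D Y]
        [Module.Finite D Y] (f : Y ≃+ X)
        (hf : ∀ (a : D) (y : Y), f (a • y) = (letI := mX; a • f y)),
        @Val.val D _ χ X _ mX = χ.val Y := by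
      intro X Y _ _ mX _ _ f hf
      let := mX
      exact hχ.congr (LinearEquiv.symm { f with map_smul' := hf }) kill_bot
    exact key _ u hu
  exact h1

theorem mc_DG2 (h : letI := ι.toAlgebra; IsLocalization.Away G D) (P : Ideal D) :
    (P.comap ι).map ι = P := by
  let := ι.toAlgebra
  exact IsLocalization.map_under (Submonoid.powers G) D P

end

variable {k K B B' : Type} [Field k] [Fintype k] [CommRing K] [Algebra k K] [IsNoetherianRing K]
  [CommRing B] [Algebra k B] [Algebra.FiniteType k B] [CommRing B'] [Algebra k B']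
  [Algebra.FiniteType k B'] {r Q : ℕ}

theorem away_DG2 (ψ : B →ₐ[k] B') (g : B) (hu : IsUnit (ψ g))
    (hs : ∀ y, ∃ (N : ℕ) (a : B), ψ a = ψ g ^ N * y) (hk : ∀ a, ψ a = 0 → ∃ N : ℕ, g ^ N * a = 0) :
    letI := (mp K ψ).toAlgebra; IsLocalization.Away (inr k K B g) (K ⊗[k] B') := by
  let := (mp K ψ).toAlgebra
  have h0 : ∀ a, mp K ψ a = 0 → ∃ N : ℕ, inr k K B g ^ N * a = 0 := by
    intro a ha
    have h1 : a ∈ (RingHom.ker ψ.toRingHom).map (inr k K B) := ker_mp (K := K) ψ ▸ ha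
    clear ha
    induction h1 using Submodule.span_induction with
    | mem x hx =>
      obtain ⟨b, hb, rfl⟩ := hx
      obtain ⟨N, hN⟩ := hk b hb
      exact ⟨N, by rw [← map_pow, ← map_mul, hN, map_zero]⟩
    | zero => exact ⟨0, mul_zero _⟩
    | add x y _ _ hx hy =>
      obtain ⟨n, hn⟩ := hx
      obtain ⟨m, hm⟩ := hy
      exact ⟨n + m, by linear_combination inr k K B g ^ m * hn + inr k K B g ^ n * hm⟩
    | smul c x _ hx =>
      obtain ⟨n, hn⟩ := hx
      exact ⟨n, by rw [smul_eq_mul, mul_left_comm, hn, mul_zero]⟩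
  refine IsLocalization.Away.mk _ (hu.map (inr k K B')) (fun y => ?_) fun a b hab => ?_
  · change ∃ (n : ℕ) (a : K ⊗[k] B), y * mp K ψ (inr k K B g) ^ n = mp K ψ a
    induction y using TensorProduct.induction_on with
    | zero => exact ⟨0, 0, by rw [zero_mul, map_zero]⟩
    | tmul c y =>
      obtain ⟨N, a, ha⟩ := hs y
      refine ⟨N, c ⊗ₜ a, ?_⟩
      rw [mp_tmul, ha, mp_inr, ← map_pow]
      change (c ⊗ₜ[k] y) * ((1 : K) ⊗ₜ[k] (ψ g ^ N)) = _
      rw [Algebra.TensorProduct.tmul_mul_tmul, mul_one, mul_comm]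
    | add x y hx hy =>
      obtain ⟨n, a, hn⟩ := hx
      obtain ⟨m, b, hm⟩ := hy
      refine ⟨n + m, inr k K B g ^ m * a + inr k K B g ^ n * b, ?_⟩
      rw [map_add, map_mul, map_mul, map_pow, map_pow, ← hn, ← hm]
      ring
  · obtain ⟨N, hN⟩ := h0 (a - b) (by rw [map_sub]; exact sub_eq_zero.2 hab)
    exact ⟨N, by linear_combination hN⟩

theorem TT.opn (ψ : B →ₐ[k] B') (g : B) (hu : IsUnit (ψ g))
    (hs : ∀ y, ∃ (N : ℕ) (a : B), ψ a = ψ g ^ N * y) (hk : ∀ a, ψ a = 0 → ∃ N : ℕ, g ^ N * a = 0)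
    (h : TT k K B r Q) : TT k K B' r Q := by
  intro X hX hE χ hχ M _ _ _
  have hA := away_DG2 (K := K) ψ g hu hs hk
  have hn : IsNoetherianRing B := Algebra.FiniteType.isNoetherianRing k B
  have := noeth_tensor k K B'
  obtain ⟨q, hq⟩ : ∃ q, Fintype.card k = q + 1 :=
    ⟨_, (Nat.succ_pred_eq_of_pos Fintype.card_pos).symm⟩
  have hF := hX.map (Fr_finite k K B) (CXD.bc (mp K ψ)) 0 (by simp)
    (fun a b c c' => fun _ _ _ _ => rfl) (fun _ _ => bc_eqv)
    (fun c hc => isAdd_DG2 hA (hX.add c hc)) fun c hc W _ _ _ => by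
      rw [push_DG2 hA (fun c => RingHom.congr_fun (mp_Fr ψ) c) (hq ▸ Fr_inr g) (hX.add c hc)
        (Fr_finite k K B) W]
      simp [Val.lin]
  refine val_of_primes (hX.add χ hχ) M kill_bot fun P _ _ => ?_
  have h0 := h _ hF (by
    rintro _ ⟨c, hc, rfl⟩
    refine Ext0.ext1 (fun I J => ?_) (isAdd_DG2 hA (hX.add c hc))
    rw [bc_quot (hX.add c hc), prodI_map]
    exact (hE c hc).ext0 (hX.add c hc) I _) _ ⟨χ, hχ, rfl⟩ (K ⊗[k] B ⧸ P.comap (mp K ψ))
  rwa [bc_quot (hX.add χ hχ), mc_DG2 hA] at h0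

end Pool.Agent.CXD
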