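import Pool.Agent.P.MP_2ce3e7_ag.DA2

/-! Patterns. -/

set_option linter.unusedSectionVars false
set_option linter.unusedVariables false

open Function Matrix

noncomputable section

namespace Pool.Agent.CXD

variable {k Ω : Type} [Field k] [Field Ω] [Algebra k Ω] {α : Type} [Af Ω α] {G : Gp Ω} {q : ℕ}
  {ι n : Type} [Fintype ι] [DecidableEq ι] [Fintype n] [DecidableEq n]

/-- families of lower sets -/
def Lw [LinearOrder ι] (P : ι → Finset ι) : Prop := ∀ i j j', j' ≤ j → j ∈ P i → j' ∈ P i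

/-- row `i` vanishes on `P i` -/
def Row (P : ι → Finset ι) (M : Matrix ι ι Ω) : Prop := ∀ i, ∀ j ∈ P i, M i j = 0

/-- column `i` is supported on `P i` -/
def Col (P : ι → Finset ι) (c : Matrix ι ι Ω) : Prop := ∀ i j, j ∉ P i → c j i = 0

variable (Ω) in
/-- frames with prescribed orthogonality relations -/
def ZP (q : ℕ) (P : ι → Finset ι) (y : Matrix ι ι Ω × Ω) : Prop :=
  y.1.det * y.2 = 1 ∧ Row P (y.1ᵀ * fm q y.1)

variable (Ω) in
/-- the Cayley hypersurface -/
def HP (q : ℕ) (n : Type) [Fintype n] (P : ι → Finset ι) (y : Matrix ι ι Ω × Matrix n ι Ω) : Prop :=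
  Col P y.1 ∧ (y.1 * (y.2ᵀ * fm q y.2)).trace = 0

variable (Ω) in
/-- the Cayley hypersurface with a linear relation between the vectors -/
def HR (q : ℕ) (n : Type) [Fintype n] (P : ι → Finset ι) (Γ : Finset ι)
    (y : (ι → Ω) × Matrix ι ι Ω × Matrix n ι Ω) : Prop :=
  (∀ i, i ∉ Γ → y.1 i = 0) ∧ y.2.2 *ᵥ y.1 = 0 ∧ HP Ω q n P y.2

/-- remove the index `a` -/
def del (a : ι) (P : ι → Finset ι) (i : {i // i ≠ a}) : Finset {i // i ≠ a} :=
  (P i.1).subtype (· ≠ a)

/-- remove `m` from `P i` -/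
def drop (P : ι → Finset ι) (i m : ι) : ι → Finset ι := update P i ((P i).erase m)

theorem mem_del {a : ι} {P : ι → Finset ι} {i j : {i // i ≠ a}} : j ∈ del a P i ↔ j.1 ∈ P i.1 :=
  Finset.mem_subtype

theorem mem_drop {P : ι → Finset ι} {i m a b : ι} :
    b ∈ drop P i m a ↔ b ∈ P a ∧ ¬(a = i ∧ b = m) := by
  unfold drop
  by_cases h : a = i
  · subst h
    simp [and_comm]
  · simp [h]

@[fun_prop]
theorem Cz.row (P : ι → Finset ι) {f : α → Matrix ι ι Ω} (hf : Pm k f) :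
    Cz k fun x => Row P (f x) := by
  unfold Row
  fun_prop

@[fun_prop]
theorem Cz.col (P : ι → Finset ι) {f : α → Matrix ι ι Ω} (hf : Pm k f) :
    Cz k fun x => Col P (f x) := by
  unfold Col
  fun_prop

@[fun_prop]
theorem Cz.zp (P : ι → Finset ι) {f : α → Matrix ι ι Ω × Ω} (hf : Pm k f) :
    Cz k fun x => ZP Ω q P (f x) := by
  unfold ZP
  fun_prop

@[fun_prop]
theorem Cz.hp (P : ι → Finset ι) {f : α → Matrix ι ι Ω × Matrix n ι Ω} (hf : Pm k f) :
    Cz k fun x => HP Ω q n P (f x) := by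
  unfold HP
  fun_prop

@[fun_prop]
theorem Cz.hr (P : ι → Finset ι) (Γ : Finset ι) {f : α → (ι → Ω) × Matrix ι ι Ω × Matrix n ι Ω}
    (hf : Pm k f) : Cz k fun x => HR Ω q n P Γ (f x) := by
  unfold HR
  fun_prop

theorem trace_eq (c : Matrix ι ι Ω) (x : Matrix n ι Ω) :
    (c * (xᵀ * fm q x)).trace = ∑ j, ∑ i, c j i * ∑ a, x a i * x a j ^ q := rfl

/-- the symmetry of the Cayley hypersurface -/
theorem Su.trace_mul (h : Su k q) (c b : Matrix ι ι Ω) (x : Matrix n ι Ω) :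
    (c * ((x * b)ᵀ * fm q (x * b))).trace = (fm q b * c * bᵀ * (xᵀ * fm q x)).trace := by
  rw [h.fm_mul, transpose_mul, ← Matrix.mul_assoc, ← Matrix.mul_assoc, trace_mul_comm]
  simp only [Matrix.mul_assoc]

theorem trace_rel (w γ : ι → Ω) (x : Matrix n ι Ω) (h : x *ᵥ γ = 0) :
    (vecMulVec w γ * (xᵀ * fm q x)).trace = 0 := by
  rw [vecMulVec_mul, ← vecMul_vecMul, vecMul_transpose, h, zero_vecMul, vecMulVec_zero,
    trace_zero]

variable [LinearOrder ι] {P : ι → Finset ι}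

theorem Lw.del (h : Lw P) (a : ι) : Lw (del a P) := fun i j j' hj hm =>
  mem_del.2 (h _ _ _ hj (mem_del.1 hm))

theorem card_del (a : ι) (i : {i // i ≠ a}) : (del a P i).card ≤ (P i.1).card := by
  rw [del, Finset.card_subtype]
  exact Finset.card_filter_le _ _

theorem Lw.drop (h : Lw P) {i m : ι} (hm : ∀ j ∈ P i, j ≤ m) : Lw (drop P i m) := by
  intro a j j' hj hd
  rw [mem_drop] at hd ⊢
  refine ⟨h _ _ _ hj hd.1, fun e => hd.2 ⟨e.1, le_antisymm (hm j (e.1 ▸ hd.1)) (e.2 ▸ hj)⟩⟩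

theorem card_drop (i m a : ι) : (drop P i m a).card ≤ (P a).card :=
  Finset.card_le_card fun _ hb => (mem_drop.1 hb).1

theorem sum_drop {i m : ι} (hm : m ∈ P i) : ∑ a, (drop P i m a).card < ∑ a, (P a).card := by
  refine Finset.sum_lt_sum (fun a _ => card_drop i m a) ⟨i, Finset.mem_univ _, ?_⟩
  rw [drop, update_self]
  exact Finset.card_erase_lt_of_mem hm

theorem Lw.total (h : Lw P) (i j : ι) : P i ⊆ P j ∨ P j ⊆ P i := by
  by_contra hc
  rw [not_or, Finset.not_subset, Finset.not_subset] at hc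
  obtain ⟨⟨a, ha, ha'⟩, b, hb, hb'⟩ := hc
  rcases le_total a b with e | e
  · exact ha' (h _ _ _ e hb)
  · exact hb' (h _ _ _ e ha)

/-- the three cases -/
theorem Lw.cases (h : Lw P) : (∃ a, P a = ∅) ∨
    (∃ i i' m, i < i' ∧ P i = P i' ∧ m ∈ P i' ∧ ∀ j ∈ P i', j ≤ m) ∨
      ∃ σ : ι ≃ ι, ∀ i j, j ∈ P i ↔ j ≤ σ i := by
  by_cases h0 : ∃ a, P a = ∅
  · exact Or.inl h0
  have hne : ∀ a, (P a).Nonempty := fun a => Finset.nonempty_iff_ne_empty.2 fun e => h0 ⟨a, e⟩
  have hm : ∀ i j, j ∈ P i ↔ j ≤ (P i).max' (hne i) := fun i j =>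
    ⟨Finset.le_max' _ _, fun e => h _ _ _ e (Finset.max'_mem _ _)⟩
  refine Or.inr ?_
  by_cases hi : Injective P
  · refine Or.inr ⟨Equiv.ofBijective (fun i => (P i).max' (hne i))
      (Finite.injective_iff_bijective.1 fun i i' e => hi (Finset.ext fun j => ?_)), hm⟩
    rw [hm, hm, show (P i).max' (hne i) = (P i').max' (hne i') from e]
  · obtain ⟨i, i', e, hn⟩ := not_injective_iff.1 hi
    rcases lt_or_gt_of_ne hn with l | l
    · exact Or.inl ⟨i, i', _, l, e, Finset.max'_mem _ (hne i'), fun j => (hm i' j).1⟩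
    · exact Or.inl ⟨i', i, _, l, e.symm, Finset.max'_mem _ (hne i), fun j => (hm i j).1⟩

/-- left multiplication by an upper triangular matrix -/
theorem Col.tri_mul (h : Lw P) {b c : Matrix ι ι Ω} (hb : b.BlockTriangular id) (hc : Col P c) :
    Col P (b * c) := fun i j hj => by
  rw [mul_apply]
  refine Finset.sum_eq_zero fun l _ => ?_
  rcases lt_or_ge l j with e | e
  · rw [hb e, zero_mul]
  · rw [hc i l fun hl => hj (h _ _ _ e hl), mul_zero]

/-- right multiplication by an upper triangular matrix -/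
theorem Row.mul_tri (h : Lw P) {b M : Matrix ι ι Ω} (hb : b.BlockTriangular id) (hM : Row P M) :
    Row P (M * b) := fun i j hj => by
  rw [mul_apply]
  refine Finset.sum_eq_zero fun l _ => ?_
  rcases lt_or_ge j l with e | e
  · rw [hb e, mul_zero]
  · rw [hM i l (h _ _ _ e hj), zero_mul]

theorem Col.mul_tri (h : Monotone P) {b c : Matrix ι ι Ω} (hb : b.BlockTriangular id)
    (hc : Col P c) : Col P (c * b) := fun i j hj => by
  rw [mul_apply]
  refine Finset.sum_eq_zero fun l _ => ?_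
  rcases lt_or_ge i l with e | e
  · rw [hb e, mul_zero]
  · rw [hc l j fun hl => hj (h e hl), zero_mul]

/-- a column operation -/
theorem Col.mul_single {c : Matrix ι ι Ω} (hc : Col P c) {i i' : ι} (h : P i' ⊆ P i) (t : Ω) :
    Col P (c * (1 + Matrix.single i' i t)) := fun a j hj => by
  rw [Matrix.mul_add, Matrix.mul_one, Matrix.add_apply, hc a j hj, zero_add]
  by_cases e : a = i
  · subst e
    rw [mul_single_apply_same, hc i' j fun hl => hj (h hl), zero_mul]
  · exact mul_single_apply_of_ne _ _ _ _ _ e _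

theorem Col.det_eq {σ : ι ≃ ι} (hσ : ∀ i j, j ∈ P i ↔ j ≤ σ i) {c : Matrix ι ι Ω} (hc : Col P c) :
    c.det = 0 ↔ ∃ i, c (σ i) i = 0 := by
  have h1 : (c.submatrix id σ.symm).BlockTriangular id := fun a b hab =>
    hc _ _ fun hl => not_le.2 hab (by simpa using (hσ _ _).1 hl)
  have h2 := det_permute' σ.symm c
  rw [det_of_isUpperTriangular h1] at h2
  have h3 : ((Equiv.Perm.sign σ.symm : ℤ) : Ω) ≠ 0 := by
    rcases Int.units_eq_one_or (Equiv.Perm.sign σ.symm) with e | e <;> simp [e]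
  rw [← mul_eq_zero_iff_left h3, ← h2, Finset.prod_eq_zero_iff]
  exact ⟨fun ⟨a, _, ha⟩ => ⟨σ.symm a, by simpa using ha⟩,
    fun ⟨i, hi⟩ => ⟨σ i, Finset.mem_univ _, by simpa using hi⟩⟩

end Pool.Agent.CXD
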