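import Pool.Agent.P.MP_2ce3e7_ag.DHE

/-! Two equal columns of the pattern. -/

set_option linter.unusedSectionVars false
set_option linter.unusedVariables false

open Function Matrix

noncomputable section

namespace Pool.Agent.CXD

variable {k Ω : Type} [Field k] [Field Ω] [Algebra k Ω] {α : Type} [Af Ω α] {G : Gp Ω} {q : ℕ}
  {ι n : Type} [Fintype ι] [DecidableEq ι] [Fintype n] [DecidableEq n]
  [LinearOrder ι] [IsAlgClosed Ω] {P : ι → Finset ι} {Γ : Finset ι}

theorem elA_apply (hP : Lw P) {i i' m : ι} (hi : i < i') (he : P i = P i')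
    (hmax : ∀ j ∈ P i', j ≤ m) (t : Ω) {y : Matrix ι ι Ω × Matrix n ι Ω} (hy : Col P y.1) :
    (elA q i i' t y).1 m i = y.1 m i + y.1 m i' * t ∧ (elA q i i' t y).1 m i' = y.1 m i' := by
  unfold elA
  simp only [mul_el_apply, el_mul_apply, if_true, hi.ne', if_false, add_zero]
  split_ifs with h
  · have e : i' ∉ P i' := fun e => (hmax _ e).not_gt (h ▸ hi)
    rw [hy i' i' e, hy i i' (he ▸ e)]
    simp
  · simp

theorem Ax.h2 (h : Ax k G) (hq : Su k q) (hP : Lw P) {i i' m : ι} (hi : i < i') (he : P i = P i')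
    (hm : m ∈ P i') (hmax : ∀ j ∈ P i', j ≤ m) (h1 : G.good (HP Ω q n (drop P i' m)))
    (h2 : G.good (HP Ω q n (drop P i m))) : G.good (HP Ω q n P) := by
  refine h.split (g := fun y => y.1 m i') (Cz.hp P Pm.id) (by fun_prop)
    (G.congr h1 fun y => hp_drop.symm) ?_
  refine h.iso (fun z => (elA q i i' z.2 z.1.1, z.1.2))
    (fun x => ((elA q i i' (-(x.1.1 m i * x.2)) x.1, x.2), x.1.1 m i * x.2))
    (by fun_prop) (by fun_prop) ?_ ?_ ?_ ?_
    (h.line (h.opn (g := fun y => y.1 m i') (by fun_prop) h2))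
  · rintro z ⟨h3, h4⟩
    have h5 := (hp_drop.1 h3).1
    exact ⟨hq.hp_elA hP hi he.ge _ h5, by rwa [(elA_apply hP hi he hmax _ h5.1).2]⟩
  · rintro x ⟨h3, h4⟩
    have h5 := elA_apply (q := q) hP hi he hmax (-(x.1.1 m i * x.2)) h3.1
    refine ⟨hp_drop.2 ⟨hq.hp_elA hP hi he.ge _ h3, ?_⟩, by rwa [h5.2]⟩
    rw [h5.1]
    linear_combination (-x.1.1 m i) * h4
  · rintro z ⟨h3, h4⟩
    have h5 := hp_drop.1 h3
    have h6 : (elA q i i' z.2 z.1.1).1 m i * z.1.2 = z.2 := by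
      rw [(elA_apply hP hi he hmax _ h5.1.1).1, h5.2]
      linear_combination z.2 * h4
    rw [h6, hq.elA_elA hi.ne (neg_add_cancel _)]
  · rintro x ⟨h3, h4⟩
    rw [hq.elA_elA hi.ne (add_neg_cancel _)]

end Pool.Agent.CXD
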