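import Pool.Agent.P.MP_2ce3e7_ag.CWJ3
import Pool.Agent.P.MP_2ce3e7_ag.CWN3

/-! Gradings given by a coaction. -/

set_option linter.unusedSectionVars false
set_option linter.unusedVariables false

open Function LaurentPolynomial
open scoped TensorProduct

noncomputable section

namespace Pool.Agent.CXD

variable {k A B K Γ : Type} [Field k] [CommRing A] [Algebra k A] [CommRing B] [Algebra k B]
  [CommRing K] [Algebra k K] [AddCommGroup Γ]

/-- `θ` reads the degree -/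
structure Co (𝒜 : ℤ → Set A) (θ : A →ₐ[k] A[T;T⁻¹]) : Prop where
  co : ∀ c, ∀ a ∈ 𝒜 c, θ a = C a * T c

variable {𝒜 : ℤ → Set A} {θ : A →ₐ[k] A[T;T⁻¹]}

theorem Std.toCo {σ : Type} [Fintype σ] {z : σ → A} (h : Std 𝒜 z θ) : Co 𝒜 θ := ⟨h.co⟩

theorem Co.ch (h : Co 𝒜 θ) (ψ : A →ₐ[k] K) : Ch θ.toRingHom ψ.toRingHom 𝒜 (tv K) e1 :=
  ⟨h.co, fun _ _ _ => mem_tv _ _⟩

theorem Co.chR (h : Co 𝒜 θ) (ψ : A →ₐ[k] B) (𝒦 : Γ → Set K) :
    Ch (thR K θ) (mp K ψ) (tg k 𝒦 𝒜) (tg k 𝒦 (tv B)) (eR Γ) := by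
  refine ⟨?_, ?_⟩
  · rintro c x ⟨b, hb, a, ha, rfl⟩
    rw [thR_tmul, h.co _ a ha, map_C_mul_T, ← tmul_CWN3, map_mul]
    change _ = _ * T c.2
    ring
  · rintro c x ⟨b, hb, a, ha, rfl⟩
    exact mem_cl ⟨b, hb, ψ a, trivial, rfl⟩

theorem pc_thR {ψ : A →ₐ[k] B} {S : Set A} (hS : Pc (hat θ.toRingHom ψ.toRingHom) S) :
    Pc (hat (thR K θ) (mp K ψ)) (inr k K A '' S) := by
  refine hS.trans (g' := AddMonoidAlgebra.mapRingHom ℤ (inr k K B)) (RingHom.ext fun a => ?_)
    (gen_CWN3 _ fun a b n => ?_)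
  · exact (hatR_CWN3 ψ 1 a).trans (by rw [map_one, map_one, one_mul]; rfl)
  · rw [mul_assoc, ← map_C_mul_T]
    refine mul_mem (Subring.subset_closure (Or.inl ⟨a ⊗ₜ 1, ?_⟩))
      (Subring.subset_closure (Or.inr ⟨_, rfl⟩))
    rw [hatR_CWN3, map_one, map_one, mul_one]

theorem ker_thR (ψ : A →ₐ[k] B) {a : A} (ha : a ∈ RingHom.ker (hat θ.toRingHom ψ.toRingHom)) :
    inr k K A a ∈ RingHom.ker (hat (thR K θ) (mp K ψ)) := by
  have h0 : hat θ.toRingHom ψ.toRingHom a = 0 := ha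
  refine (hatR_CWN3 ψ 1 a).trans ?_
  rw [h0, map_zero, mul_zero]

variable [Gd 𝒜]

theorem Co.top (h : Co 𝒜 θ) {ψ : A →ₐ[k] K} (hψ : Surjective ψ) {z : A} (hz : z ∈ 𝒜 1)
    (hj : ψ z = 1) (𝒯 : Subring K[T;T⁻¹]) (h1 : ∀ a, hat θ.toRingHom ψ.toRingHom a ∈ 𝒯)
    (h2 : T (-1) ∈ 𝒯) (p : K[T;T⁻¹]) : p ∈ 𝒯 := by
  have h0 : ∀ c, ∀ a ∈ 𝒜 c, hat θ.toRingHom ψ.toRingHom a = C (ψ a) * T c := fun c a ha =>
    (h.ch ψ).hat_cl (mem_cl ha)
  have h3 : T 1 ∈ 𝒯 := by
    have h4 := h1 z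
    rwa [h0 _ _ hz, hj, map_one, one_mul] at h4
  have h4 : ∀ n, T n ∈ 𝒯 := by
    intro n
    induction n using Int.induction_on with
    | zero => exact one_mem _
    | succ n ih => rw [T_add]; exact mul_mem ih h3
    | pred n ih => rw [T_sub]; exact mul_mem ih h2
  have h5 : ∀ a, C (ψ a) ∈ 𝒯 := by
    refine Gd.ind 𝒜 ?_ (fun c a ha => ?_) (fun a b ha hb => ?_) fun a ha => ?_
    · rw [map_zero, map_zero]; exact zero_mem _
    · have h6 := mul_mem (h1 a) (h4 (-c))
      rwa [h0 _ _ ha, mul_assoc, ← T_add, add_neg_cancel, T_zero, mul_one] at h6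
    · rw [map_add, map_add]; exact add_mem ha hb
    · rw [map_neg, map_neg]; exact neg_mem ha
  induction p using LaurentPolynomial.induction_on' with
  | add p q hp hq => exact add_mem hp hq
  | C_mul_T n x =>
    obtain ⟨a, rfl⟩ := hψ x
    exact mul_mem (h5 a) (h4 n)

/-- the chart `z = 1` -/
theorem Co.pc_one (h : Co 𝒜 θ) {ψ : A →ₐ[k] K} (hψ : Surjective ψ) {z : A} (hz : z ∈ 𝒜 1)
    (hj : ψ z = 1) : Pc (hat θ.toRingHom ψ.toRingHom) {z} := by
  refine ⟨Set.finite_singleton _, ft_CWN3 {T (-1)} (h.top hψ hz hj _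
    (fun a => Subring.subset_closure (Or.inl ⟨a, rfl⟩))
    (Subring.subset_closure (Or.inr (Finset.mem_coe.2 (Finset.mem_singleton_self _))))), ?_⟩
  intro f hf
  rw [Set.mem_singleton_iff.1 hf]
  refine h.top hψ hz hj (sat_CZC2 _ _) (sat_map_CWN3 _ _) ⟨1, ?_⟩
  have h0 : hat θ.toRingHom ψ.toRingHom z = C (ψ z) * T 1 := (h.ch ψ).hat_cl (mem_cl hz)
  rw [h0, hj, map_one, one_mul, pow_one, ← T_add, add_neg_cancel, T_zero]
  exact RingHom.isIntegralElem_one _

variable [Gk k 𝒜] {𝒦 : Γ → Set K} [Gd 𝒦] [Gk k 𝒦]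

theorem exists_lam_DL1 (h : Co 𝒜 θ) (ψ : A →ₐ[k] B) (N : GM 𝒦) (M : GM (tv B)) :
    ∃ g : (lau (h.ch ψ) M).M →+ N.M →+ (lau (h.chR ψ 𝒦) (gbox k N M)).M,
      (∀ i m n, g (lsg (h.ch ψ) M i m) n = lsg (h.chR ψ 𝒦) (gbox k N M) i (gb k N M n m)) ∧
      (∀ (a : A) (b : K) u n, g (a • u) (b • n) = (b ⊗ₜ[k] a) • g u n) ∧
      ∀ (s : Γ) (t : ℤ) u n, g ((lau (h.ch ψ) M).π t u) (N.π s n) =
        (lau (h.chR ψ 𝒦) (gbox k N M)).π (s, t) (g u n) := by
  obtain ⟨g, hg⟩ := lau_lift (h := h.ch ψ) (W := M)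
    (fun i => ((gb k N M).compr₂ (lsg (h.chR ψ 𝒦) (gbox k N M) i)).flip)
  have h1 : ∀ i m n, g (lsg (h.ch ψ) M i m) n =
      lsg (h.chR ψ 𝒦) (gbox k N M) i (gb k N M n m) := fun i m n => by
    rw [hg]; rfl
  refine ⟨g, h1, fun a b u n => ?_, fun s t u n => ?_⟩
  · induction a using Gd.ind 𝒜 with
    | h0 => rw [zero_smul, map_zero, TensorProduct.tmul_zero, zero_smul]; rfl
    | h2 a a' ha ha' =>
      rw [add_smul, map_add, AddMonoidHom.add_apply, ha, ha', TensorProduct.tmul_add, add_smul]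
    | h3 a ha =>
      rw [neg_smul, map_neg, AddMonoidHom.neg_apply, ha, TensorProduct.tmul_neg, neg_smul]
    | h1 c a ha =>
      induction b using Gd.ind 𝒦 with
      | h0 => rw [zero_smul, map_zero, TensorProduct.zero_tmul, zero_smul]
      | h2 b b' hb hb' => rw [add_smul, map_add, hb, hb', TensorProduct.add_tmul, add_smul]
      | h3 b hb => rw [neg_smul, map_neg, hb, TensorProduct.neg_tmul, neg_smul]
      | h1 d b hb =>
        induction u using lau_ind with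
        | h0 => rw [smul_zero, map_zero, AddMonoidHom.zero_apply, AddMonoidHom.zero_apply, smul_zero]
        | h2 u v hu hv =>
          rw [smul_add, map_add, map_add, AddMonoidHom.add_apply, AddMonoidHom.add_apply, hu, hv,
            smul_add]
        | h1 i e w hw =>
          rw [smul_lsg (mem_cl ha), h1, h1, smul_lsg (tmul_mem_cl (mem_cl hb) (mem_cl ha)),
            mp_tmul, smul_gb]
          rfl
  · induction u using lau_ind with
    | h0 => rw [map_zero, map_zero, AddMonoidHom.zero_apply, AddMonoidHom.zero_apply, map_zero]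
    | h2 u v hu hv =>
      rw [map_add, map_add, map_add, AddMonoidHom.add_apply, AddMonoidHom.add_apply, hu, hv,
        map_add]
    | h1 i e w hw =>
      rw [h1, lau_π, lau_π, h1]
      change lsg _ _ t (gb k N M (N.π s n) (M.π () (lev' (h.ch ψ) M t (lsg (h.ch ψ) M i w)))) =
        lsg _ _ t ((gbox k N M).π (s, ()) (lev' (h.chR ψ 𝒦) (gbox k N M) t
          (lsg (h.chR ψ 𝒦) (gbox k N M) i (gb k N M n w))))
      by_cases hi : t = i
      · subst hi
        rw [lev_lsg, lev_lsg, gbox_π]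
      · rw [lev_lsg_ne hi, lev_lsg_ne hi, map_zero, map_zero, map_zero, map_zero, map_zero]

theorem Co.box_latR (h : Co 𝒜 θ) (ψ : A →ₐ[k] B) {N : GM 𝒦} {M : GM (tv B)}
    (hN : Module.Finite K N.M) {S : Set A} {L : GM 𝒜}
    {j : L.M →ₗ[A] (lau (h.ch ψ) M).M} (hj : LatG S j) :
    ∃ J : (gbox k N L).M →ₗ[K ⊗[k] A] (lau (h.chR ψ 𝒦) (gbox k N M)).M,
      LatG (inr k K A '' S) J := by
  obtain ⟨g, h1, h2, h3⟩ := exists_lam_DL1 h ψ N M
  obtain ⟨J, hJ⟩ := gbox_lift (k := k) (N := N) (M := L) (g.comp j.toAddMonoidHom).flip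
    (fun c n x => by
      change g (j x) (algebraMap k K c • n) = g (j (algebraMap k A c • x)) n
      have e1 := h2 1 (algebraMap k K c) (j x) n
      have e2 := h2 (algebraMap k A c) 1 (j x) n
      rw [one_smul] at e1 e2
      rw [j.map_smul, e1, e2, alg_tmul_CWJ3])
  have hJ' : ∀ n x, J (gb k N L n x) = g (j x) n := hJ
  have hl : ∀ (r : K ⊗[k] A) u, J (r • u) = r • J u := fun r u => by
    induction r using TensorProduct.induction_on with
    | zero => rw [zero_smul, zero_smul, map_zero]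
    | add r r' hr hr' => rw [add_smul, add_smul, map_add, hr, hr']
    | tmul b a =>
      induction u using gbox_ind with
      | h0 => rw [smul_zero, map_zero, smul_zero]
      | h2 u v hu hv => rw [smul_add, map_add, map_add, hu, hv, smul_add]
      | h1 c n d x hn hx => rw [smul_gb, hJ', hJ', j.map_smul, h2]
  obtain ⟨r, hr, hr'⟩ := exists_retr k j hj.inj
  have hG : ∀ i : ℤ, ∃ G : (gbox k N M).M →+ (gbox k N L).M,
      ∀ n m, G (gb k N M n m) = gb k N L n (r (lsg (h.ch ψ) M i m)) := fun i =>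
    gbox_lift (k := k) (N := N) (M := M)
      ((gb k N L).flip.comp (r.comp (lsg (h.ch ψ) M i))).flip (fun c n m => by
        change gb k N L (algebraMap k K c • n) (r (lsg (h.ch ψ) M i m)) =
          gb k N L n (r (lsg (h.ch ψ) M i (algebraMap k B c • m)))
        have e1 := smul_lsg (h := h.ch ψ) (W := M) (mem_cl (Gk.alg (𝒜 := 𝒜) c)) i m
        have e2 : lsg (h.ch ψ) M i (algebraMap k B c • m) =
            algebraMap k A c • lsg (h.ch ψ) M i m := by
          rw [e1, ← ψ.commutes c]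
          exact congrArg (fun t => lsg (h.ch ψ) M t (ψ (algebraMap k A c) • m)) (add_zero i).symm
        have e3 := smul_gb (k := k) (N := N) (M := L) (algebraMap k K c) 1 n
          (r (lsg (h.ch ψ) M i m))
        have e4 := smul_gb (k := k) (N := N) (M := L) 1 (algebraMap k A c) n
          (r (lsg (h.ch ψ) M i m))
        rw [one_smul] at e3 e4
        rw [e2, hr', ← e3, ← e4, alg_tmul_CWJ3])
  choose G hG using hG
  obtain ⟨R, hR⟩ := lau_lift (h := h.chR ψ 𝒦) (W := gbox k N M) G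
  have hRg : ∀ u n, R (g u n) = gb k N L n (r u) := fun u n => by
    induction u using lau_ind with
    | h0 => rw [map_zero, AddMonoidHom.zero_apply, map_zero, map_zero, map_zero]
    | h2 u v hu hv => rw [map_add, AddMonoidHom.add_apply, map_add, hu, hv, map_add, map_add]
    | h1 i e w hw => rw [h1, hR, hG]
  have hRJ : ∀ u, R (J u) = u := fun u => by
    induction u using gbox_ind with
    | h0 => rw [map_zero, map_zero]
    | h2 u v hu hv => rw [map_add, map_add, hu, hv]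
    | h1 c n d x hn hx => rw [hJ', hRg, hr]
  refine ⟨⟨⟨J, J.map_add⟩, hl⟩, gbox_finite hN hj.fin, fun γ u => ?_,
    LeftInverse.injective hRJ, ?_⟩
  · change J ((gbox k N L).π γ u) = (lau (h.chR ψ 𝒦) (gbox k N M)).π γ (J u)
    induction u using gbox_ind with
    | h0 => rw [map_zero, map_zero, map_zero]
    | h2 u v hu hv => rw [map_add, map_add, map_add, map_add, hu, hv]
    | h1 c n d x hn hx => rw [gbox_π, hJ', hJ', hj.gr, h3]
  · rintro _ ⟨f, hf, rfl⟩ y
    change ∃ (n : ℕ) (x : (gbox k N L).M), J x = inr k K A f ^ n • y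
    have hadd : ∀ y y' : (lau (h.chR ψ 𝒦) (gbox k N M)).M,
        (∃ (n : ℕ) (x : (gbox k N L).M), J x = inr k K A f ^ n • y) →
        (∃ (n : ℕ) (x : (gbox k N L).M), J x = inr k K A f ^ n • y') →
        ∃ (n : ℕ) (x : (gbox k N L).M), J x = inr k K A f ^ n • (y + y') := by
      rintro y y' ⟨n, x, hx⟩ ⟨n', x', hx'⟩
      refine ⟨n + n', inr k K A f ^ n' • x + inr k K A f ^ n • x', ?_⟩
      rw [map_add, hl, hl, hx, hx', smul_smul, smul_smul, smul_add, ← pow_add, ← pow_add,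
        add_comm n' n]
    induction y using lau_ind with
    | h0 => exact ⟨0, 0, by rw [map_zero, smul_zero]⟩
    | h2 u v hu hv => exact hadd u v hu hv
    | h1 i e w hw =>
      clear hw
      induction w using gbox_ind with
      | h0 => exact ⟨0, 0, by rw [map_zero, map_zero, smul_zero]⟩
      | h2 u v hu hv => rw [map_add]; exact hadd _ _ hu hv
      | h1 c n d m hn hm =>
        obtain ⟨p, x, hx⟩ := hj.den f hf (lsg (h.ch ψ) M i m)
        have e1 := h2 (f ^ p) 1 (lsg (h.ch ψ) M i m) n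
        rw [one_smul] at e1
        refine ⟨p, gb k N L n x, ?_⟩
        rw [hJ', hx, e1, h1, ← map_pow]
        rfl

end Pool.Agent.CXD
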