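import Pool.Agent.P.MP_2ce3e7_ag.DL1
import Pool.Agent.P.MP_2ce3e7_ag.CWK
import Pool.Agent.P.MP_2ce3e7_ag.CYT

attribute [local instance] Pool.Agent.CXD.instAddCommGroupRs Pool.Agent.CXD.instModuleRs
  Pool.Agent.CXD.instModuleRs_1 Pool.Agent.CXD.instIsScalarTowerRs
  Pool.Agent.CXD.instSMulCommClassRs Pool.Agent.CXD.instAddCommGroupBox
  Pool.Agent.CXD.instModuleTensorProductBox Pool.Agent.CXD.finite_box

/-! From graded families to families on a chart. -/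

set_option linter.unusedSectionVars false
set_option linter.unusedVariables false

open Function LaurentPolynomial
open scoped TensorProduct

noncomputable section

namespace Pool.Agent.CXD

variable {k K A D : Type} [Field k] [Fintype k] [CommRing K] [Algebra k K] [IsNoetherianRing K]
  [CommRing A] [Algebra k A] [Algebra.FiniteType k A] [CommRing D] [Algebra k D]
  [Algebra.FiniteType k D] {𝒜 : ℤ → Set A} {θ : A →ₐ[k] A[T;T⁻¹]} [Gd 𝒜] [Gk k 𝒜] {r Q : ℕ}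

theorem Co.chart (h : Co 𝒜 θ) (ψ : A →ₐ[k] D) {S : Set A}
    (hS : Pc (hat θ.toRingHom ψ.toRingHom) S) {X : Set (GM (tg k (tv K) 𝒜) → ℚ)}
    (hX : FamG (verF k (tv K) 𝒜) r (Fintype.card k) X) (hE : ∀ l ∈ X, ExtG k (tv K) 𝒜 l)
    (hv : ∀ l ∈ X, VnG (RingHom.ker (hat (thR K θ) (mp K ψ))) (inr k K A '' S) l) :
    ∃ Θ : (GM (tg k (tv K) 𝒜) → ℚ) → Val (K ⊗[k] D), Fam (Fr k K D) r (Fintype.card k) (Θ '' X) ∧
      (∀ l ∈ X, Ext1 k K D (Θ l)) ∧
      ∀ l ∈ X, ∀ (W : Type) [AddCommGroup W] [Module (K ⊗[k] D) W] [Module.Finite (K ⊗[k] D) W]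
        (L : GM (tg k (tv K) 𝒜))
        (j : L.M →ₗ[K ⊗[k] A] (lau (h.chR ψ (tv K)) (GM.triv _ W)).M),
        LatG (inr k K A '' S) j → (Θ l).val W = l L := by
  have hn := noeth_tensor k K A
  have hn' := noeth_tensor k K D
  have hc := h.chR ψ (tv K)
  have hS' := pc_thR (K := K) hS
  have hD : Hm (Fr k K D) (tg k (tv K) (tv D)) (tg k (tv K) (tv D))
      (mu Unit Unit (Fintype.card k)) := hm_Fr fun _ _ => rfl
  obtain ⟨L, hL, hF⟩ := FamG.lau hc hS' (hm_Fr card_smul_eq_zero) hD (Fr_finite k K A)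
    (Fr_finite k K D) (mp_Fr ψ) (m := Fintype.card k) (by exact_mod_cast Fintype.card_ne_zero)
    (fun c => Prod.ext (nsmul_eq_mul _ _) rfl)
    (by rintro _ ⟨f, -, rfl⟩; exact ⟨_, Fintype.card_pos, Fr_inr f⟩) hX hv
  refine ⟨fun l => toVal fun W => l (L W), ?_, fun l hl N M _ _ hN _ _ hM => ?_,
    fun l hl W _ _ hW L' j' hj' => ?_⟩
  · have h1 := hF.toFam hD (Fr_finite k K D)
    rwa [Set.image_image] at h1
  · obtain ⟨L', j', hj'⟩ := lau_exists_lat (h := h.ch ψ) (W := GM.triv (tv D) M) hS hM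
    obtain ⟨J, hJ⟩ := h.box_latR ψ (N := GM.triv (tv K) N) hN hj'
    have hb := gbox_finite (k := k) (N := GM.triv (tv K) N) (M := GM.triv (tv D) M) hN hM
    obtain ⟨J', hJ'⟩ := hL _ hb
    refine Eq.trans ?_ ((hJ'.val (hX.add l hl) (hv l hl) lau_kill hJ).trans
      (hE l hl _ _ hN hj'.fin))
    exact (hF.add _ ⟨l, hl, rfl⟩).congr hb (M := GM.triv _ (Box k K D N M)) (f := LinearMap.id)
      (isG_of_subsingleton _) Function.bijective_id
  · obtain ⟨J, hJ⟩ := hL (GM.triv _ W) hW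
    exact hJ.val (hX.add l hl) (hv l hl) lau_kill hj'

end Pool.Agent.CXD
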