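import Pool.Agent.P.MP_2ce3e7_ag.CYA2
import Pool.Agent.P.MP_2ce3e7_ag.CWA3

attribute [local instance] Pool.Agent.CXD.instAddCommGroupCp Pool.Agent.CXD.instModuleCp

/-! The index of a linear map. -/

set_option linter.unusedSectionVars false
set_option linter.unusedVariables false

open Function

noncomputable section

namespace Pool.Agent.CXD

variable {R R' : Type} [CommRing R] [CommRing R'] {χ : Val R} {b : Ideal R}
  {M N P M' N' P' : Type} [AddCommGroup M] [Module R M] [AddCommGroup N] [Module R N]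
  [AddCommGroup P] [Module R P] [AddCommGroup M'] [Module R M'] [AddCommGroup N'] [Module R N']
  [AddCommGroup P'] [Module R P']

/-- cokernel minus kernel -/
def ind (χ : Val R) (u : M →ₗ[R] N) : ℚ :=
  χ.val (N ⧸ LinearMap.range u) - χ.val (LinearMap.ker u)

/-- `b` kills the kernel and the cokernel -/
structure Kb (b : Ideal R) (u : M →ₗ[R] N) : Prop where
  ker : ∀ a ∈ b, ∀ x, u x = 0 → a • x = 0
  cok : ∀ a ∈ b, ∀ y, ∃ x, u x = a • y

theorem Kb.kk {u : M →ₗ[R] N} (h : Kb b u) : Kill b (LinearMap.ker u) :=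
  fun a ha x => Subtype.ext (h.ker a ha x.1 x.2)

theorem Kb.kc {u : M →ₗ[R] N} (h : Kb b u) : Kill b (N ⧸ LinearMap.range u) := fun a ha y => by
  obtain ⟨y, rfl⟩ := Submodule.Quotient.mk_surjective _ y
  exact (Submodule.Quotient.mk_eq_zero _).2 (h.cok a ha y)

theorem kb_span {u : M →ₗ[R] N} {S : Set R} (h1 : ∀ a ∈ S, ∀ x, u x = 0 → a • x = 0)
    (h2 : ∀ a ∈ S, ∀ y, ∃ x, u x = a • y) : Kb (Ideal.span S) u := by
  refine ⟨fun a ha x hx => ?_, fun a ha y => ?_⟩
  · exact (Ideal.mem_torsionOf_iff x a).1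
      (Ideal.span_le.2 (fun c hc => (Ideal.mem_torsionOf_iff x c).2 (h1 c hc x hx)) ha)
  · exact Ideal.span_le.2 (show S ⊆ ((LinearMap.range u).comap (LinearMap.toSpanSingleton R N y))
      from fun c hc => h2 c hc y) ha

theorem ind_lin (s t : ℚ) (χ χ' : Val R) (u : M →ₗ[R] N) :
    ind (Val.lin s t χ χ') u = s * ind χ u + t * ind χ' u := by
  simp only [ind, Val.lin]
  ring

variable [IsNoetherianRing R]

theorem ind_eq (h : IsAdd χ b) [Module.Finite R M] [Module.Finite R N] {u : M →ₗ[R] N}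
    (hu : Kb b u) (g : N →ₗ[R] P) (hg : Surjective g) (eg : ∀ y, g y = 0 ↔ ∃ x, u x = y)
    (f : P' →ₗ[R] M) (hf : Injective f) (ef : ∀ y, (∃ z, f z = y) ↔ u y = 0) :
    ind χ u = χ.val P - χ.val P' := by
  have eg' : LinearMap.ker g = LinearMap.range u := Submodule.ext eg
  have ef' : LinearMap.range f = LinearMap.ker u := Submodule.ext ef
  rw [h.congr ((g.quotKerEquivOfSurjective hg).symm.trans (Submodule.quotEquivOfEq _ _ eg')) hu.kc,
    h.congr ((LinearEquiv.ofInjective f hf).trans (LinearEquiv.ofEq _ _ ef')) hu.kk]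
  rfl

theorem ind_bij (h : IsAdd χ b) {u : M →ₗ[R] N} (hu : Bijective u) : ind χ u = 0 := by
  have h1 : Subsingleton (N ⧸ LinearMap.range u) :=
    Submodule.Quotient.subsingleton_iff.2 (LinearMap.range_eq_top.2 hu.2)
  have h2 : Subsingleton (LinearMap.ker u) :=
    subsingleton_of_forall_eq 0 fun y => Subtype.ext (hu.1 (y.2.trans (map_zero u).symm))
  rw [ind, h.zero, h.zero, sub_zero]

theorem ind_kill (h : IsAdd χ b) [Module.Finite R M] [Module.Finite R N] (u : M →ₗ[R] N)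
    (kM : Kill b M) (kN : Kill b N) : ind χ u = χ.val N - χ.val M := by
  rw [h.ker_range u kM, h (LinearMap.range u) N _ _ _ (Submodule.injective_subtype _)
    (Submodule.mkQ_surjective _) (LinearMap.exact_subtype_mkQ _) kN, ind]
  ring

/-- restriction of scalars -/
theorem ind_semi (h : IsAdd χ b) [Module.Finite R M] [Module.Finite R N] {u : M →ₗ[R] N}
    (hu : Kb b u) (φ : R →+* R') {X Y : Type} [AddCommGroup X] [Module R' X] [AddCommGroup Y]
    [Module R' Y] (v : X →ₗ[R'] Y) (e : M →+ X) (e' : N →+ Y) (he : Bijective e)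
    (he' : Bijective e') (h1 : ∀ (a : R) x, e (a • x) = φ a • e x)
    (h2 : ∀ (a : R) x, e' (a • x) = φ a • e' x) (hc : ∀ x, e' (u x) = v (e x)) :
    ind χ u = ind (push φ χ) v := by
  let E := AddEquiv.ofBijective e he
  have hE : ∀ x, e (E.symm x) = x := E.apply_symm_apply
  refine ind_eq (P := Cp φ (Y ⧸ LinearMap.range v)) (P' := Cp φ (LinearMap.ker v)) h hu
    ⟨⟨fun y => (LinearMap.range v).mkQ (e' y), fun x y => ?_⟩, fun a y => ?_⟩ (fun y => ?_)
    (fun y => ?_) ⟨⟨fun z => E.symm (show LinearMap.ker v from z).1, fun x y => E.symm.map_add _ _⟩,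
      fun a z => he.1 ?_⟩ (fun x y hxy => Subtype.ext (E.symm.injective hxy)) fun y => ?_
  · rw [map_add, map_add]
    rfl
  · exact (congrArg (LinearMap.range v).mkQ (h2 a y)).trans
      ((LinearMap.range v).mkQ.map_smul (φ a) (e' y))
  · obtain ⟨y, rfl⟩ := (LinearMap.range v).mkQ_surjective y
    obtain ⟨x, rfl⟩ := he'.2 y
    exact ⟨x, rfl⟩
  · refine (Submodule.Quotient.mk_eq_zero _).trans ⟨?_, ?_⟩
    · rintro ⟨x, hx⟩
      exact ⟨E.symm x, he'.1 (by rw [hc, hE, hx])⟩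
    · rintro ⟨x, rfl⟩
      exact ⟨e x, (hc x).symm⟩
  · exact (hE _).trans ((h1 a _).trans (congrArg _ (hE _))).symm
  · constructor
    · rintro ⟨z, rfl⟩
      refine he'.1 ((hc _).trans ?_)
      rw [map_zero]
      exact (congrArg v (hE _)).trans z.2
    · intro hy
      refine ⟨(⟨e y, ?_⟩ : LinearMap.ker v), E.symm_apply_apply y⟩
      rw [LinearMap.mem_ker, ← hc, hy, map_zero]

theorem ind_congr (h : IsAdd χ b) [Module.Finite R M] [Module.Finite R N] {u : M →ₗ[R] N}
    (hu : Kb b u) (v : M' →ₗ[R] N') (e : M →ₗ[R] M') (e' : N →ₗ[R] N') (he : Bijective e)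
    (he' : Bijective e') (hc : ∀ x, e' (u x) = v (e x)) : ind χ u = ind χ v :=
  ind_semi h hu (RingHom.id R) v e.toAddMonoidHom e'.toAddMonoidHom he he' e.map_smul e'.map_smul hc

/-- the snake lemma -/
theorem ind_ses (h : IsAdd χ b) [Module.Finite R N] [Module.Finite R N'] {f : M →ₗ[R] N}
    {g : N →ₗ[R] P} {f' : M' →ₗ[R] N'} {g' : N' →ₗ[R] P'} (hs : Sx f g) (hs' : Sx f' g')
    {i₁ : M →ₗ[R] M'} {i₂ : N →ₗ[R] N'} {i₃ : P →ₗ[R] P'} (h₁ : ∀ y, f' (i₁ y) = i₂ (f y))
    (h₂ : ∀ y, g' (i₂ y) = i₃ (g y)) (k₁ : Kb b i₁) (k₂ : Kb b i₂) (k₃ : Kb b i₃) :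
    ind χ i₂ = ind χ i₁ + ind χ i₃ := by
  obtain ⟨hf, hg, he⟩ := hs
  obtain ⟨hf', hg', he'⟩ := hs'
  have : Module.Finite R M := Module.Finite.of_injective f hf
  have : Module.Finite R P := Module.Finite.of_surjective g hg
  have : Module.Finite R M' := Module.Finite.of_injective f' hf'
  have : Module.Finite R P' := Module.Finite.of_surjective g' hg'
  let F1 : LinearMap.ker i₁ →ₗ[R] LinearMap.ker i₂ := f.restrict (fun y hy => by
    rw [LinearMap.mem_ker] at hy ⊢
    rw [← h₁, hy, map_zero])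
  let F2 : LinearMap.ker i₂ →ₗ[R] LinearMap.ker i₃ := g.restrict (fun y hy => by
    rw [LinearMap.mem_ker] at hy ⊢
    rw [← h₂, hy, map_zero])
  let G1 : (M' ⧸ LinearMap.range i₁) →ₗ[R] (N' ⧸ LinearMap.range i₂) :=
    Submodule.mapQ _ _ f' (by
      rintro _ ⟨y, rfl⟩
      exact ⟨f y, (h₁ y).symm⟩)
  let G2 : (N' ⧸ LinearMap.range i₂) →ₗ[R] (P' ⧸ LinearMap.range i₃) :=
    Submodule.mapQ _ _ g' (by
      rintro _ ⟨y, rfl⟩
      exact ⟨g y, (h₂ y).symm⟩)
  have k1 : f'.comp i₁ = i₂.comp f := LinearMap.ext h₁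
  have k2 : g'.comp i₂ = i₃.comp g := LinearMap.ext h₂
  have eF : Exact F1 F2 := by
    intro y
    constructor
    · intro hy
      have h0 : g y.1 = 0 := congrArg Subtype.val hy
      obtain ⟨z, hz⟩ := (he _).1 h0
      refine ⟨⟨z, ?_⟩, Subtype.ext hz⟩
      rw [LinearMap.mem_ker]
      apply hf'
      rw [h₁, hz, map_zero]
      exact y.2
    · rintro ⟨z, rfl⟩
      exact Subtype.ext (he.apply_apply_eq_zero z.1)
  have eG : Exact G1 G2 := by
    intro y
    obtain ⟨y, rfl⟩ := Submodule.Quotient.mk_surjective _ y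
    constructor
    · intro hy
      have h0 : g' y ∈ LinearMap.range i₃ := (Submodule.Quotient.mk_eq_zero _).1 hy
      obtain ⟨w, hw⟩ := h0
      obtain ⟨v, rfl⟩ := hg w
      obtain ⟨z, hz⟩ := (he' (y - i₂ v)).1 (by rw [map_sub, h₂, hw, sub_self])
      refine ⟨Submodule.Quotient.mk z, ?_⟩
      refine (Submodule.Quotient.eq _).2 ⟨-v, ?_⟩
      rw [hz, map_neg]
      abel
    · rintro ⟨z, hz⟩
      obtain ⟨z, rfl⟩ := Submodule.Quotient.mk_surjective _ z
      rw [← hz]
      refine (Submodule.Quotient.mk_eq_zero _).2 ?_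
      rw [he'.apply_apply_eq_zero z]
      exact zero_mem _
  have e2 := SnakeLemma.exact_δ'_right i₁ i₂ i₃ f g he f' g' he' k1 k2
    (LinearMap.ker i₂).subtype (LinearMap.exact_subtype_ker_map i₂)
    (LinearMap.ker i₃).subtype (LinearMap.exact_subtype_ker_map i₃)
    (LinearMap.range i₁).mkQ (LinearMap.exact_map_mkQ_range i₁) hg hf' F2
    (LinearMap.ext fun _ => rfl) (Submodule.subtype_injective _)
  have e3 := SnakeLemma.exact_δ'_left i₁ i₂ i₃ f g he f' g' he' k1 k2
    (LinearMap.ker i₃).subtype (LinearMap.exact_subtype_ker_map i₃)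
    (LinearMap.range i₁).mkQ (LinearMap.exact_map_mkQ_range i₁)
    (LinearMap.range i₂).mkQ (LinearMap.exact_map_mkQ_range i₂) hg hf' G1
    (LinearMap.ext fun _ => rfl) (Submodule.mkQ_surjective _)
  have iF : Injective F1 := fun y z hyz => Subtype.ext (hf (congrArg Subtype.val hyz))
  have sG : Surjective G2 := by
    intro y
    obtain ⟨y, rfl⟩ := Submodule.Quotient.mk_surjective _ y
    obtain ⟨z, rfl⟩ := hg' y
    exact ⟨Submodule.Quotient.mk z, rfl⟩
  have a1 := h.congr (LinearEquiv.ofInjective F1 iF)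
    (k₂.kk.of_injective _ (Submodule.injective_subtype _))
  have a2 := exact_CXA2 h _ _ eF k₂.kk
  have a3 := exact_CXA2 h _ _ e2 k₃.kk
  have a4 := exact_CXA2 h _ _ e3 k₁.kc
  have a5 := exact_CXA2 h _ _ eG k₂.kc
  have a6 := h.congr (LinearEquiv.ofTop (LinearMap.range G2) (LinearMap.range_eq_top.2 sG)) k₃.kc
  rw [ind, ind, ind, a1, a2, a3, a4, a5, a6]
  abel

theorem ind_comp (h : IsAdd χ b) [Module.Finite R M] [Module.Finite R N] [Module.Finite R P]
    {u : M →ₗ[R] N} {v : N →ₗ[R] P} {w : M →ₗ[R] P} (hw : ∀ x, w x = v (u x)) (ku : Kb b u)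
    (kv : Kb b v) (kw : Kb b w) : ind χ w = ind χ u + ind χ v := by
  let c : M × N →ₗ[R] N × P :=
    (u ∘ₗ LinearMap.fst R M N - LinearMap.snd R M N).prod (v ∘ₗ LinearMap.snd R M N)
  have hc : ∀ x y, c (x, y) = (u x - y, v y) := fun _ _ => rfl
  have kc : Kb b c := by
    refine ⟨fun a ha ⟨x, y⟩ hx => ?_, fun a ha ⟨y, z⟩ => ?_⟩
    · rw [hc, Prod.mk_eq_zero, sub_eq_zero] at hx
      have h1 := kw.ker a ha x (by rw [hw, hx.1, hx.2])
      exact Prod.ext h1 (by rw [← hx.1]; exact (map_smul u a x).symm.trans (by rw [h1, map_zero]; rfl))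
    · obtain ⟨x, hx⟩ := kw.cok a ha (z + v y)
      refine ⟨(x, u x - a • y), ?_⟩
      rw [hc, sub_sub_cancel, map_sub, ← hw, hx, map_smul, smul_add, add_sub_cancel_right]
      rfl
  have h1 := ind_ses h (i₂ := c) (f := LinearMap.inl R M N) (g := LinearMap.snd R M N)
    (f' := LinearMap.inl R N P) (g' := LinearMap.snd R N P)
    ⟨LinearMap.inl_injective, LinearMap.snd_surjective, Function.Exact.inl_snd⟩
    ⟨LinearMap.inl_injective, LinearMap.snd_surjective, Function.Exact.inl_snd⟩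
    (fun y => by rw [LinearMap.inl_apply, LinearMap.inl_apply, hc, sub_zero, map_zero])
    (fun y => rfl) ku kc kv
  have h2 := ind_ses h (i₂ := c) (i₃ := LinearMap.id) (f := LinearMap.id.prod u)
    (g := u ∘ₗ LinearMap.fst R M N - LinearMap.snd R M N) (f' := LinearMap.inr R N P)
    (g' := LinearMap.fst R N P)
    ⟨fun x y hxy => congrArg Prod.fst hxy, fun y => ⟨(0, -y), by simp⟩, fun ⟨x, y⟩ =>
      ⟨fun h0 => ⟨x, Prod.ext rfl (sub_eq_zero.1 h0)⟩, fun ⟨z, hz⟩ => hz ▸ sub_self (u z)⟩⟩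
    ⟨LinearMap.inr_injective, LinearMap.fst_surjective, Function.Exact.inr_fst⟩
    (fun y => Prod.ext (sub_self (u y)).symm (hw y)) (fun y => rfl) kw kc
    ⟨fun a _ x hx => by rw [show x = 0 from hx, smul_zero], fun a _ y => ⟨_, rfl⟩⟩
  rw [ind_bij h (u := LinearMap.id) bijective_id, add_zero] at h2
  rw [← h2, h1]

/-- powers -/
theorem rho_pow {x : R} {n : ℕ} (h : IsAdd χ (b ⊔ Ideal.span {x ^ n})) [Module.Finite R M]
    (hk : Kill b M) : (rho (x ^ n) χ).val M = n * (rho x χ).val M := by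
  have kb : ∀ m ≤ n, Kb (b ⊔ Ideal.span {x ^ n}) (LinearMap.lsmul R M (x ^ m)) := fun m hm => by
    obtain ⟨d, rfl⟩ := Nat.exists_eq_add_of_le hm
    rw [← Ideal.span_eq b, ← Ideal.span_union]
    refine kb_span ?_ ?_
    · rintro a (ha | rfl) y hy
      · exact hk a ha y
      · rw [pow_add, mul_comm, mul_smul]
        exact (congrArg _ hy).trans (smul_zero _)
    · rintro a (ha | rfl) y
      · exact ⟨0, by rw [hk a ha y, map_zero]⟩
      · exact ⟨x ^ d • y, by rw [pow_add, mul_smul]; rfl⟩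
  have key : ∀ m ≤ n, ind χ (LinearMap.lsmul R M (x ^ m)) = m * (rho x χ).val M := fun m => by
    induction m with
    | zero =>
      intro _
      rw [ind_bij h ⟨fun y z e => by simpa using e, fun y => ⟨y, by simp⟩⟩]
      simp
    | succ m ih =>
      intro hm
      have k1 := kb 1 (by omega)
      rw [pow_one] at k1
      rw [ind_comp h (fun y => (congrArg (· • y) (pow_succ' x m)).trans (mul_smul _ _ _)) (kb m (by omega)) k1 (kb _ hm),
        ih (by omega)]
      push_cast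
      change _ + (rho x χ).val M = _
      ring
  exact key n le_rfl

end Pool.Agent.CXD
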