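import Pool.Agent.P.MP_2ce3e7_ag.DL3
import Pool.Agent.P.MP_2ce3e7_ag.CYT
import Pool.Agent.P.MP_2ce3e7_ag.CYC3

attribute [local instance] Pool.Agent.CXD.instAddCommGroupCp Pool.Agent.CXD.instModuleCp
  Pool.Agent.CXD.instAddCommGroupRs Pool.Agent.CXD.instModuleRs Pool.Agent.CXD.instModuleRs_1
  Pool.Agent.CXD.instIsScalarTowerRs Pool.Agent.CXD.instSMulCommClassRs
  Pool.Agent.CXD.instAddCommGroupBox Pool.Agent.CXD.instModuleTensorProductBox
  Pool.Agent.CXD.finite_box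

/-! Families of functions on the modules that are killed by an ideal. -/

set_option linter.unusedSectionVars false
set_option linter.unusedVariables false

open Function
open scoped TensorProduct

noncomputable section

namespace Pool.Agent.CXD

section
variable {A A' : Type} [CommRing A] [CommRing A']

/-- equal on finite modules killed by `b` -/
def EqK (b : Ideal A) (χ χ' : Val A) : Prop :=
  ∀ (M : Type) [AddCommGroup M] [Module A M] [Module.Finite A M], Kill b M → χ.val M = χ'.val M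

/-- zero on finite modules killed by `b` -/
def NuK (b : Ideal A) (χ : Val A) : Prop :=
  ∀ (M : Type) [AddCommGroup M] [Module A M] [Module.Finite A M], Kill b M → χ.val M = 0

/-- divisible families on the modules killed by `b` -/
structure FamK (φ : A →+* A) (Q : ℕ) (b : Ideal A) (X : Set (Val A)) : Prop where
  add : ∀ χ ∈ X, IsAdd χ b
  st : ∀ χ ∈ X, ∃ χ' ∈ X, ∃ s : ℚ, EqK b (push φ χ) (Val.lin s 0 χ' χ')
  div : ∀ χ ∈ X, ∀ ε : ℚ, Adm 0 Q ε → ∃ χ' ∈ X, ∃ s : ℚ,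
    EqK b χ (Val.lin s (s * ε) (push φ χ') χ')

open Classical in
/-- extension along a surjective map -/
def lft (ψ : A →+* A') (χ : Val A') : Val A :=
  ⟨fun M _ i => if h : ∃ j : Module A' M, Module.compHom M ψ = i then @Val.val A' _ χ M _ h.choose
    else 0⟩

variable {ψ : A →+* A'} {φ : A →+* A} {φ' : A' →+* A'} {χ χ' : Val A} {X : Set (Val A)} {r Q : ℕ}

theorem push_lft (hψ : Surjective ψ) (c : Val A') : push ψ (lft ψ c) = c := by
  obtain ⟨v⟩ := c
  simp only [push, lft]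
  congr 1
  funext M _ i
  have h : ∃ j : Module A' M, Module.compHom M ψ = (letI := i; Module.compHom M ψ) := ⟨i, rfl⟩
  rw [dif_pos h]
  refine congrArg (@v M _) (Module.ext' _ _ fun a y => ?_)
  obtain ⟨a, rfl⟩ := hψ a
  exact congrArg (fun I : Module A M => I.smul a y) h.choose_spec

theorem exists_mod (hψ : Surjective ψ) {M : Type} [AddCommGroup M] [i : Module A M]
    (hk : Kill (RingHom.ker ψ) M) : ∃ j : Module A' M, Module.compHom M ψ = i := by
  let ρ : A' →+* AddMonoid.End M := ψ.liftOfSurjective hψ ⟨Module.toAddMonoidEnd A M,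
    fun a ha => (RingHom.mem_ker).2 (AddMonoidHom.ext fun y => hk a ha y)⟩
  refine ⟨Module.compHom M ρ, Module.ext' _ _ fun a y => ?_⟩
  have e : ρ (ψ a) = Module.toAddMonoidEnd A M a := ψ.liftOfRightInverse_comp_apply _ _ _ a
  exact congrArg (fun e : AddMonoid.End M => e y) e

theorem finite_of_compHom (M : Type) [AddCommGroup M] [Module A' M]
    (h : @Module.Finite A M _ _ (Module.compHom M ψ)) : Module.Finite A' M := by
  let : Module A M := Module.compHom M ψ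
  let : Algebra A A' := ψ.toAlgebra
  have : IsScalarTower A A' M := ⟨fun b a y => mul_smul (ψ b) a y⟩
  exact Module.Finite.of_restrictScalars_finite A A' M

theorem kill_compHom (M : Type) [AddCommGroup M] [Module A' M] :
    @Kill A _ (RingHom.ker ψ) M _ (Module.compHom M ψ) := fun a ha y => by
  change ψ a • y = 0
  rw [RingHom.mem_ker.1 ha, zero_smul]

theorem eqK_iff (hψ : Surjective ψ) : EqK (RingHom.ker ψ) χ χ' ↔ Eqv (push ψ χ) (push ψ χ') := by
  refine ⟨fun h M _ _ _ => @h M _ (Module.compHom M ψ)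
    (finite_compHom ψ (RingHom.Finite.of_surjective ψ hψ) M) (kill_compHom M),
    fun h M _ i hM hk => ?_⟩
  obtain ⟨j, rfl⟩ := exists_mod hψ hk
  exact @h M _ j (finite_of_compHom M hM)

theorem nuK_iff (hψ : Surjective ψ) : NuK (RingHom.ker ψ) χ ↔ Nul (push ψ χ) :=
  eqK_iff (χ' := ⟨fun _ _ _ => 0⟩) hψ

theorem isAdd_iff (hψ : Surjective ψ) : IsAdd χ (RingHom.ker ψ) ↔ IsAdd (push ψ χ) ⊥ := by
  refine ⟨fun h => isAdd_push ψ (RingHom.Finite.of_surjective ψ hψ) h le_rfl,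
    fun h M N P _ iM _ iN _ iP hN f g hf hg he hk => ?_⟩
  obtain ⟨jM, rfl⟩ := exists_mod hψ (hk.of_injective f hf)
  obtain ⟨jP, rfl⟩ := exists_mod hψ (hk.of_surjective g hg)
  obtain ⟨jN, rfl⟩ := exists_mod hψ hk
  have := finite_of_compHom N hN
  let := Module.compHom M ψ
  let := Module.compHom N ψ
  let := Module.compHom P ψ
  refine h M N P ⟨f.toAddHom, fun a y => ?_⟩ ⟨g.toAddHom, fun a y => ?_⟩ hf hg he kill_bot
  · obtain ⟨a, rfl⟩ := hψ a
    exact f.map_smul a y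
  · obtain ⟨a, rfl⟩ := hψ a
    exact g.map_smul a y

theorem famK_iff (hψ : Surjective ψ) (hc : ψ.comp φ = φ'.comp ψ) (hφ' : φ'.Finite) :
    FamK φ Q (RingHom.ker ψ) X ↔ Fam φ' r Q (push ψ '' X) := by
  have e : ∀ χ : Val A, push ψ (push φ χ) = push φ' (push ψ χ) := fun χ => by
    rw [push_push, hc, push_push]
  refine ⟨fun h => ⟨hφ', ?_, ?_, ?_⟩, fun h => ⟨fun χ hχ => ?_, fun χ hχ => ?_, fun χ hχ ε hε => ?_⟩⟩
  · rintro _ ⟨χ, hχ, rfl⟩
    exact (isAdd_iff hψ).1 (h.add χ hχ)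
  · rintro _ ⟨χ, hχ, rfl⟩
    obtain ⟨χ', hχ', s, hs⟩ := h.st χ hχ
    exact ⟨_, ⟨χ', hχ', rfl⟩, s, e χ ▸ (eqK_iff hψ).1 hs⟩
  · rintro _ ⟨χ, hχ, rfl⟩ ε hε
    obtain ⟨χ', hχ', s, hs⟩ := h.div χ hχ ε hε
    exact ⟨_, ⟨χ', hχ', rfl⟩, s, e χ' ▸ (eqK_iff hψ).1 hs⟩
  · exact (isAdd_iff hψ).2 (h.add _ ⟨χ, hχ, rfl⟩)
  · obtain ⟨_, ⟨χ', hχ', rfl⟩, s, hs⟩ := h.st _ ⟨χ, hχ, rfl⟩
    exact ⟨χ', hχ', s, (eqK_iff hψ).2 (by rw [e]; exact hs)⟩
  · obtain ⟨_, ⟨χ', hχ', rfl⟩, s, hs⟩ := h.div _ ⟨χ, hχ, rfl⟩ ε hε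
    exact ⟨χ', hχ', s, (eqK_iff hψ).2 (by rw [push_lin, e]; exact hs)⟩

theorem FamK.rho [IsNoetherianRing A] {b : Ideal A} {x : A} {n : ℕ}
    (h : FamK φ n (b ⊔ Ideal.span {x}) X) (hφ : φ.Finite) (hb : b ≤ b.comap φ) (hn : 0 < n)
    (hx : φ x = x ^ n) : FamK φ n b (rho x '' X) := by
  have hn' : (n : ℚ) ≠ 0 := by exact_mod_cast hn.ne'
  have he : ∀ {c c' : Val A}, EqK (b ⊔ Ideal.span {x}) c c' → EqK b (CXD.rho x c) (CXD.rho x c') :=
    fun e M _ _ _ hk => congrArg₂ (· - ·) (e _ (quot_CXA2 x hk)) (e _ (ker_CXA2 x hk))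
  have hl : ∀ (s t : ℚ) (c c' : Val A) (M : Type) [AddCommGroup M] [Module A M],
      (CXD.rho x (Val.lin s t c c')).val M = s * (CXD.rho x c).val M + t * (CXD.rho x c').val M :=
    fun s t c c' M _ _ => ind_lin s t c c' _
  have hc : ∀ χ ∈ X, ∀ (M : Type) [AddCommGroup M] [Module A M] [Module.Finite A M], Kill b M →
      (push φ (CXD.rho x χ)).val M = n * (CXD.rho x (push φ χ)).val M := fun χ hχ M _ _ _ hk => by
    rw [← rho_push_CYA2 φ hφ (h.add χ hχ) M fun z hz y => hk _ (hb hz) y, hx]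
    refine rho_pow (isAdd_push φ hφ (h.add χ hχ) (sup_le (hb.trans (Ideal.comap_mono le_sup_left))
      ((Ideal.span_singleton_le_iff_mem _).2 ?_))) hk
    rw [Ideal.mem_comap, hx]
    exact Ideal.mem_sup_right (Ideal.mem_span_singleton_self _)
  refine ⟨?_, ?_, ?_⟩
  · rintro _ ⟨χ, hχ, rfl⟩
    exact isAdd_rho (h.add χ hχ)
  · rintro _ ⟨χ, hχ, rfl⟩
    obtain ⟨χ', hχ', s, hs⟩ := h.st χ hχ
    refine ⟨_, ⟨χ', hχ', rfl⟩, n * s, fun M _ _ _ hk => ?_⟩
    rw [hc χ hχ M hk, he hs M hk, hl]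
    simp only [Val.lin]
    ring
  · rintro _ ⟨χ, hχ, rfl⟩ ε hε
    obtain ⟨χ', hχ', s, hs⟩ := h.div χ hχ (ε / n) (pow_one (n : ℚ) ▸ hε.div 1)
    refine ⟨_, ⟨χ', hχ', rfl⟩, s / n, fun M _ _ _ hk => ?_⟩
    rw [he hs M hk, hl]
    simp only [Val.lin]
    rw [hc χ' hχ' M hk]
    field_simp

end

variable (k K : Type) {B B' : Type} [Field k] [Fintype k] [CommRing K] [Algebra k K] [CommRing B]
  [Algebra k B] [CommRing B'] [Algebra k B'] {r Q : ℕ}

/-- kills exterior products with modules killed by `b` -/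
def ExtK (b : Ideal B) (χ : Val (K ⊗[k] B)) : Prop :=
  ∀ (N M : Type) [AddCommGroup N] [Module K N] [Module.Finite K N] [AddCommGroup M] [Module B M]
    [Module.Finite B M], Kill b M → χ.val (Box k K B N M) = 0

/-- the property `TT` for the zero set of `b` -/
def TK (b : Ideal B) : Prop :=
  ∀ X : Set (Val (K ⊗[k] B)), FamK (Fr k K B) (Fintype.card k) (b.map (inr k K B)) X →
    (∀ χ ∈ X, ExtK k K b χ) → ∀ χ ∈ X, NuK (b.map (inr k K B)) χ

variable {k K}

theorem mp_surj {ψ : B →ₐ[k] B'} (hψ : Surjective ψ) : Surjective (mp K ψ) :=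
  Algebra.TensorProduct.map_surjective _ _ surjective_id hψ

theorem extK_iff {ψ : B →ₐ[k] B'} (hψ : Surjective ψ) {χ : Val (K ⊗[k] B)}
    (hχ : IsAdd χ (RingHom.ker (mp K ψ))) :
    ExtK k K (RingHom.ker ψ.toRingHom) χ ↔ Ext1 k K B' (push (mp K ψ) χ) := by
  have key : ∀ (N M : Type) [AddCommGroup N] [Module K N] [Module.Finite K N] [AddCommGroup M]
      [Module B' M] [Module.Finite B' M],
      χ.val (Box k K B N (Cp ψ.toRingHom M)) = (push (mp K ψ) χ).val (Box k K B' N M) := by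
    intro N M _ _ _ _ _ _
    obtain ⟨J, -, hi, hs⟩ := exists_box_map (K := K) (N := N) (M := Cp ψ.toRingHom M) (M' := M) ψ
      { toFun := id, map_add' := fun _ _ => rfl, map_smul' := fun _ _ => rfl }
    have : Module.Finite (K ⊗[k] B) (Cp (mp K ψ) (Box k K B' N M)) :=
      finite_compHom _ (RingHom.Finite.of_surjective _ (mp_surj hψ)) (Box k K B' N M)
    let J' : Box k K B N (Cp ψ.toRingHom M) →ₗ[K ⊗[k] B] Cp (mp K ψ) (Box k K B' N M) :=
      { toFun := J, map_add' := J.map_add, map_smul' := J.map_smulₛₗ }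
    have hk : Kill (RingHom.ker (mp K ψ)) (Cp (mp K ψ) (Box k K B' N M)) :=
      kill_compHom (Box k K B' N M)
    have h1 := hχ.congr (LinearEquiv.ofBijective J' ⟨hi injective_id, hs surjective_id⟩) hk
    exact h1
  refine ⟨fun h N M _ _ _ _ _ _ => ?_, fun h N M _ _ _ _ i hM hk => ?_⟩
  · have : Module.Finite B (Cp ψ.toRingHom M) :=
      finite_compHom _ (RingHom.Finite.of_surjective _ hψ) M
    exact (key N M).symm.trans (h N _ (kill_compHom M))
  · obtain ⟨j, rfl⟩ := exists_mod (ψ := ψ.toRingHom) hψ hk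
    have := finite_of_compHom M hM
    exact (key N M).trans (h N M)

theorem tt_iff_tk [Algebra.FiniteType k B'] (ψ : B →ₐ[k] B') (hψ : Surjective ψ) :
    TT k K B' r Q ↔ TK k K (RingHom.ker ψ.toRingHom) := by
  have hs := mp_surj (K := K) hψ
  have hF := fun X => famK_iff (r := r) (Q := Fintype.card k) (X := X) hs (mp_Fr ψ)
    (Fr_finite k K B')
  rw [TK, ← ker_mp]
  refine ⟨fun h X hX hE χ hχ => (nuK_iff hs).2 (h _ ((hF X).1 hX) ?_ _ ⟨χ, hχ, rfl⟩),
    fun h X hX hE χ hχ => ?_⟩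
  · rintro _ ⟨c, hc, rfl⟩
    exact (extK_iff hψ (hX.add c hc)).1 (hE c hc)
  · have e : push (mp K ψ) '' (lft (mp K ψ) '' X) = X := by
      rw [Set.image_image]
      simp only [push_lft hs, Set.image_id']
    have h1 := (hF _).2 (e.symm ▸ hX)
    rw [← push_lft hs χ]
    refine (nuK_iff hs).1 (h _ h1 ?_ _ ⟨χ, hχ, rfl⟩)
    rintro _ ⟨c, hc, rfl⟩
    refine (extK_iff hψ (h1.add _ ⟨c, hc, rfl⟩)).2 ?_
    rw [push_lft hs]
    exact hE c hc

theorem ind_box [IsNoetherianRing (K ⊗[k] B)] {χ : Val (K ⊗[k] B)} {b : Ideal B}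
    (hχ : IsAdd χ (b.map (inr k K B))) (hE : ExtK k K b χ) {N M M' : Type} [AddCommGroup N]
    [Module K N] [Module.Finite K N] [AddCommGroup M] [Module B M] [Module.Finite B M]
    [AddCommGroup M'] [Module B M'] [Module.Finite B M'] [IsNoetherianRing B] {f : M →ₗ[B] M'}
    (hf : Kb b f) {F : Box k K B N M →ₗ[K ⊗[k] B] Box k K B N M'}
    (hF : ∀ x y, F (bt k K B x y) = bt k K B x (f y)) : ind χ F = 0 := by
  obtain ⟨G, hG⟩ := exists_box_lin (k := k) (K := K) (N := N) (LinearMap.range f).mkQ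
  obtain ⟨E, hE'⟩ := exists_box_lin (k := k) (K := K) (N := N) (LinearMap.ker f).subtype
  obtain ⟨-, h2, h3⟩ := box_exact hF hG
  obtain ⟨h4, -, h5⟩ := box_exact hE' hF
  have e1 := h3 (LinearMap.exact_map_mkQ_range f)
  have e2 := h5 (LinearMap.exact_subtype_ker_map f)
  have k1 := kill_box (k := k) (K := K) (N := N) hf.kc
  have k2 := kill_box (k := k) (K := K) (N := N) hf.kk
  rw [ind_eq hχ ⟨fun a ha x hx => ?_, fun a ha y => (e1 _).1 (by rw [map_smul, k1 a ha])⟩ G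
    (h2 (Submodule.mkQ_surjective _)) e1 E (h4 (Submodule.injective_subtype _))
    fun y => (e2 y).symm, hE _ _ hf.kc, hE _ _ hf.kk, sub_zero]
  obtain ⟨z, rfl⟩ := (e2 x).1 hx
  rw [← map_smul, k2 a ha, map_zero]

/-- the Euler characteristic of `g` vanishes -/
theorem TK.rho [IsNoetherianRing K] [Algebra.FiniteType k B] {b : Ideal B} (h : TK k K b) {g : B}
    {X : Set (Val (K ⊗[k] B))}
    (hX : FamK (Fr k K B) (Fintype.card k) ((b ⊔ Ideal.span {g}).map (inr k K B)) X)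
    (hE : ∀ χ ∈ X, ExtK k K (b ⊔ Ideal.span {g}) χ) :
    ∀ χ ∈ X, NuK (b.map (inr k K B)) (CXD.rho (inr k K B g) χ) := by
  have := noeth_tensor k K B
  have : IsNoetherianRing B := Algebra.FiniteType.isNoetherianRing k B
  have hX' := hX
  rw [Ideal.map_sup, Ideal.map_span, Set.image_singleton] at hX'
  refine fun χ hχ => h _ (hX'.rho (Fr_finite k K B) ?_ Fintype.card_pos (Fr_inr g)) ?_ _ ⟨χ, hχ, rfl⟩
  · refine Ideal.map_le_iff_le_comap.2 fun a ha => ?_
    rw [Ideal.mem_comap, Ideal.mem_comap, Fr_inr]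
    exact Ideal.pow_mem_of_mem _ (Ideal.mem_map_of_mem _ ha) _ Fintype.card_pos
  · rintro _ ⟨c, hc, rfl⟩ N M _ _ _ _ _ _ hk
    refine ind_box (f := LinearMap.lsmul B M g) (hX.add c hc) (hE c hc)
      ⟨fun a ha x hx => congrArg Subtype.val (ker_CXA2 g hk a ha ⟨x, hx⟩), fun a ha y => ?_⟩
      (lsmul_bt_CYC3 g)
    exact (Submodule.Quotient.mk_eq_zero _).1 (quot_CXA2 g hk a ha (Submodule.Quotient.mk y))

end Pool.Agent.CXD
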