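import Pool.Agent.P.MP_2ce3e7_ag.DL4
import Pool.Agent.P.MP_2ce3e7_ag.CWK

attribute [local instance] Pool.Agent.CXD.instAddCommGroupCp Pool.Agent.CXD.instModuleCp
  Pool.Agent.CXD.instAddCommGroupRs Pool.Agent.CXD.instModuleRs Pool.Agent.CXD.instModuleRs_1
  Pool.Agent.CXD.instIsScalarTowerRs Pool.Agent.CXD.instSMulCommClassRs
  Pool.Agent.CXD.instAddCommGroupBox Pool.Agent.CXD.instModuleTensorProductBox
  Pool.Agent.CXD.finite_box

/-! The homogeneous parts of a graded module. -/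

set_option linter.unusedSectionVars false
set_option linter.unusedVariables false

open Function
open scoped TensorProduct

noncomputable section

namespace Pool.Agent.CXD

section
variable {A A' Γ : Type} [CommRing A] [CommRing A'] [AddCommGroup Γ] {𝒜 : Γ → Set A'}
  {ι : A →+* A'}

/-- `ι` has values in degree zero and every degree is finite over `A` -/
structure Dz (ι : A →+* A') (𝒜 : Γ → Set A') : Prop where
  mem : ∀ a, ι a ∈ cl 𝒜 0
  fin : ∀ c, ∃ (κ : Type) (_ : Fintype κ) (F : κ → A'), ∀ a ∈ 𝒜 c,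
    ∃ b : κ → A, a = ∑ i, ι (b i) * F i

/-- the part of degree `d` -/
def prt (h : Dz ι 𝒜) (M : GM 𝒜) (d : Γ) : Submodule A (Cp ι M.M) where
  carrier := {x | M.π d x = x}
  add_mem' := fun {x y} hx hy => (M.π d).map_add x y |>.trans (congrArg₂ (· + ·) hx hy)
  zero_mem' := (M.π d).map_zero
  smul_mem' a x hx := by
    have := GM.hom_smul (M := M) (h.mem a) hx
    rwa [zero_add] at this

variable {h : Dz ι 𝒜} {M N P : GM 𝒜} {d e : Γ}

/-- the underlying element -/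
def pv : prt h M d →+ M.M := (prt h M d).subtype.toAddMonoidHom

theorem pv_smul (a : A) (x : prt h M d) : pv (a • x) = ι a • pv x := rfl

theorem pv_π (x : prt h M d) : M.π d (pv x) = pv x := x.2

theorem pv_inj : Injective (pv : prt h M d → M.M) := Subtype.val_injective

theorem pv_ext {x y : prt h M d} (e : pv x = pv y) : x = y := pv_inj e

variable (h) in
theorem exists_pv {x : M.M} (hx : M.π d x = x) : ∃ y : prt h M d, pv y = x := ⟨⟨x, hx⟩, rfl⟩

variable (h) in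
/-- the map on homogeneous parts -/
def slg (f : M.M →ₗ[A'] N.M) (hf : ∀ x, M.π d x = x → N.π e (f x) = f x) :
    prt h M d →ₗ[A] prt h N e where
  toFun x := ⟨f (pv x), hf _ (pv_π x)⟩
  map_add' x y := Subtype.ext (f.map_add _ _)
  map_smul' a x := Subtype.ext (f.map_smul _ _)

theorem pv_slg (f : M.M →ₗ[A'] N.M) (hf : ∀ x, M.π d x = x → N.π e (f x) = f x) (x : prt h M d) :
    pv (slg h f hf x) = f (pv x) := rfl

variable (h M) in
/-- multiplication by a homogeneous element -/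
def slm {c : Γ} {z : A'} (hz : z ∈ cl 𝒜 c) (he : c + d = e) : prt h M d →ₗ[A] prt h M e :=
  slg h (LinearMap.lsmul A' M.M z) fun x hx => he ▸ GM.hom_smul hz hx

theorem pv_slm {c : Γ} {z : A'} (hz : z ∈ cl 𝒜 c) (he : c + d = e) (x : prt h M d) :
    pv (slm h M hz he x) = z • pv x := rfl

theorem sx_prt {f : M.M →ₗ[A'] N.M} {g : N.M →ₗ[A'] P.M} (hf : IsG f) (hg : IsG g) (hs : Sx f g)
    (d : Γ) : Sx (slg h (d := d) f fun _ => hf.hom) (slg h (d := d) g fun _ => hg.hom) := by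
  obtain ⟨h1, h2, h3⟩ := hs
  refine ⟨fun x y e => pv_ext (h1 (congrArg pv e)), fun y => ?_, fun y => ⟨fun hy => ?_, ?_⟩⟩
  · obtain ⟨x, hx⟩ := h2 (pv y)
    exact ⟨⟨N.π d x, N.π_self d x⟩, pv_ext ((hg d x).trans (by rw [hx, pv_π]))⟩
  · obtain ⟨x, hx⟩ := (h3 (pv y)).1 (congrArg pv hy)
    exact ⟨⟨M.π d x, M.π_self d x⟩, pv_ext ((hf d x).trans (by rw [hx, pv_π]))⟩
  · rintro ⟨x, rfl⟩
    exact pv_ext (h3.apply_apply_eq_zero _)

theorem prt_finite [IsNoetherianRing A] [Gd 𝒜] (h : Dz ι 𝒜) (hM : Module.Finite A' M.M) (d : Γ) :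
    Module.Finite A (prt h M d) := by
  have h1 : IsRes ι (fun _ => d) (GM.triv (tv A) (prt h M d)) M pv :=
    ⟨pv_inj, pv_smul, fun _ y => (pv_π y).symm, fun _ x => exists_pv h (M.π_self d x)⟩
  refine h1.finite hM fun g => ?_
  obtain ⟨κ, _, F, hF⟩ := h.fin (d - g)
  exact ⟨κ, inferInstance, F, fun _ => hF⟩

theorem prt_sub (h0 : ∀ x, M.π d x = 0) : Subsingleton (prt h M d) :=
  subsingleton_of_forall_eq 0 fun y => pv_ext ((pv_π y).symm.trans ((h0 _).trans (map_zero _).symm))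

theorem prt_res {A₁ A₁' Γ₁ : Type} [CommRing A₁] [CommRing A₁'] [AddCommGroup Γ₁]
    {𝒜₁ : Γ₁ → Set A₁'} {ι₁ : A₁ →+* A₁'} (h₁ : Dz ι₁ 𝒜₁) {φ : A₁ →+* A} {φ' : A₁' →+* A'}
    (hc : φ'.comp ι₁ = ι.comp φ) {ν : Γ₁ → Γ} {R : GM 𝒜₁} {j : R.M →+ M.M}
    (hj : IsRes φ' ν R M j) {c : Γ₁} (hd : ν c = d) :
    ∃ E : prt h₁ R c →+ prt h M d, Bijective E ∧ (∀ (a : A₁) x, E (a • x) = φ a • E x) ∧
      ∀ x, pv (E x) = j (pv x) := by
  subst hd
  refine ⟨⟨⟨fun x => ⟨j (pv x), (hj.π c _).symm.trans (congrArg j (pv_π x))⟩,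
    Subtype.ext (map_zero j)⟩, fun x y => Subtype.ext (map_add j _ _)⟩,
    ⟨fun x y e => pv_ext (hj.inj (congrArg pv e)), fun y => ?_⟩, fun a x => pv_ext ?_, fun _ => rfl⟩
  · obtain ⟨x, hx⟩ := hj.sur c (pv y)
    refine ⟨⟨R.π c x, R.π_self c x⟩, pv_ext ((hj.π c x).trans ?_)⟩
    rw [hx, M.π_self, pv_π]
  · exact (hj.smul _ _).trans (congrArg (· • j (pv x)) (RingHom.congr_fun hc a))

variable (h) in
/-- the value at the part of degree `d` -/
def slv (χ : Val A) (d : Γ) (M : GM 𝒜) : ℚ := χ.val (prt h M d)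

variable [IsNoetherianRing A] [Gd 𝒜] {χ : Val A} {b : Ideal A}

theorem gadd_slv (hχ : IsAdd χ ⊥) (d : Γ) : GAdd (slv h χ d) := by
  rintro M N P hN ⟨f, g, hf, hg, hs⟩
  obtain ⟨h1, h2, h3⟩ := sx_prt (h := h) hf hg hs d
  have := prt_finite h hN d
  exact hχ _ _ _ _ _ h1 h2 h3 kill_bot

theorem slv_shift (u : Γ) (he : u + d = e) : slv h χ d (M.shift u) = slv h χ e M := by
  subst he
  rfl

theorem slv_res (hχ : IsAdd χ ⊥) {φ : A →+* A} {φ' : A' →+* A'} (hc : φ'.comp ι = ι.comp φ)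
    {ν : Γ → Γ} {j : N.M →+ M.M} (hj : IsRes φ' ν N M j) (hN : Module.Finite A' N.M)
    (hd : ν e = d) : slv h χ e N = slv h (push φ χ) d M := by
  obtain ⟨E, h1, h2, -⟩ := prt_res (h := h) h hc hj hd
  have := prt_finite h hN e
  let E' : prt h N e →ₗ[A] Cp φ (prt h M d) := ⟨E.toAddHom, h2⟩
  exact (hχ.congr (LinearEquiv.ofBijective E' h1).symm kill_bot).symm

end

variable {k K B B' Γ : Type} [Field k] [CommRing K] [Algebra k K] [CommRing B] [Algebra k B]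
  [CommRing B'] [Algebra k B'] [AddCommGroup Γ] {ℬ : Γ → Set B'} {ι : B →ₐ[k] B'}

theorem Dz.tensor (h : Dz ι.toRingHom ℬ) : Dz (mp K ι) (tg k (tv K) ℬ) := by
  refine ⟨fun a => ?_, fun c => ?_⟩
  · induction a using TensorProduct.induction_on with
    | zero => rw [map_zero]; exact zero_mem _
    | tmul a b => exact tmul_mem_cl (mem_tv () a) (h.mem b)
    | add x y hx hy => rw [map_add]; exact add_mem hx hy
  · obtain ⟨κ, _, F, hF⟩ := h.fin c.2
    refine ⟨κ, inferInstance, fun i => inr k K B' (F i), ?_⟩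
    rintro _ ⟨a, -, b, hb, rfl⟩
    obtain ⟨y, rfl⟩ := hF b hb
    refine ⟨fun i => a ⊗ₜ y i, ?_⟩
    rw [TensorProduct.tmul_sum]
    refine Finset.sum_congr rfl fun i _ => ?_
    change _ = (a ⊗ₜ[k] ι (y i)) * ((1 : K) ⊗ₜ[k] F i)
    rw [Algebra.TensorProduct.tmul_mul_tmul, mul_one]
    rfl

variable [Gd ℬ] [Gk k ℬ]

theorem prt_box (h : Dz ι.toRingHom ℬ) (N : GM (tv K)) (M : GM ℬ) (d : Γ) :
    ∃ E : Box k K B N.M (prt h M d) →ₗ[K ⊗[k] B] prt h.tensor (gbox k N M) ((), d),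
      Bijective E ∧ ∀ x y, pv (E (bt k K B x y)) = gb k N M x (pv y) := by
  obtain ⟨J, hJ, hi, -⟩ := exists_box_map (K := K) (N := N.M) (M := prt h M d) (M' := M.M) ι
    { toFun := pv, map_add' := map_add _, map_smul' := pv_smul }
  let J' : Box k K B N.M (prt h M d) →+ (gbox k N M).M := J.toAddMonoidHom
  have hJ' : ∀ x y, J' (bt k K B x y) = gb k N M x (pv y) := hJ
  have h1 : ∀ z, (gbox k N M).π ((), d) (J' z) = J' z := fun z => by
    induction z using Box.induction with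
    | h0 => rw [map_zero, map_zero]
    | h1 x y => rw [hJ', gbox_π, N.π_id, pv_π]
    | h2 u v hu hv => rw [map_add, map_add, hu, hv]
  have h2 : ∀ z, ∃ y, J' y = (gbox k N M).π ((), d) z := fun z => by
    induction z using gbox_ind with
    | h0 => exact ⟨0, by rw [map_zero, map_zero]⟩
    | h1 c x e y _ _ =>
      exact ⟨bt k K B x ⟨M.π d y, M.π_self d y⟩, by rw [hJ', gbox_π, N.π_id]; rfl⟩
    | h2 u v hu hv =>
      obtain ⟨x, hx⟩ := hu
      obtain ⟨y, hy⟩ := hv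
      exact ⟨x + y, by rw [map_add, map_add, hx, hy]⟩
  refine ⟨⟨⟨fun z => ⟨J' z, h1 z⟩, fun x y => Subtype.ext (map_add J' x y)⟩,
    fun a x => Subtype.ext (J.map_smulₛₗ a x)⟩, ⟨fun x y e => hi pv_inj (congrArg pv e), fun y => ?_⟩,
    hJ'⟩
  obtain ⟨x, hx⟩ := h2 (pv y)
  exact ⟨x, pv_ext (hx.trans (pv_π y))⟩

theorem slv_box [IsNoetherianRing B] (h : Dz ι.toRingHom ℬ) {χ : Val (K ⊗[k] B)} (hχ : IsAdd χ ⊥)
    (hE : Ext1 k K B χ) {N : GM (tv K)} {M : GM ℬ} (hN : Module.Finite K N.M)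
    (hM : Module.Finite B' M.M) (d : Γ) : slv h.tensor χ ((), d) (gbox k N M) = 0 := by
  obtain ⟨E, hb, -⟩ := prt_box h N M d
  have := prt_finite h hM d
  exact (hχ.congr (LinearEquiv.ofBijective E hb).symm kill_bot).trans (hE _ _)

end Pool.Agent.CXD
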