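import Pool.Agent.P.MP_2ce3e7_ag.DL5
import Pool.Agent.P.MP_2ce3e7_ag.CWH

/-! Coefficients of eventual polynomials; families on graded modules. -/

set_option linter.unusedSectionVars false
set_option linter.unusedVariables false

open Function Filter

noncomputable section

namespace Pool.Agent.CXD

/-- a coefficient of the eventual polynomial -/
def cfe (j : ℕ) (f : ℤ → ℚ) : ℚ := (hp f).coeff j

variable {j : ℕ} {f g u : ℤ → ℚ}

theorem cfe_eq {p : Polynomial ℚ} (h : ∀ᶠ t : ℤ in atTop, f t = p.eval (t : ℚ)) :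
    cfe j f = p.coeff j := by rw [cfe, hp_eq h]

theorem cfe_lin (hf : f ∈ PF atTop) (hg : g ∈ PF atTop) {a b : ℚ}
    (h : ∀ᶠ t in atTop, u t = a * f t + b * g t) : cfe j u = a * cfe j f + b * cfe j g := by
  obtain ⟨p, h1⟩ := hf
  obtain ⟨q, h2⟩ := hg
  rw [cfe_eq h1, cfe_eq h2, cfe_eq (p := Polynomial.C a * p + Polynomial.C b * q)
    ((h1.and (h2.and h)).mono fun t ht => by simp [ht.1, ht.2.1, ht.2.2])]
  simp

theorem pf_lin (hf : f ∈ PF atTop) (hg : g ∈ PF atTop) {a b : ℚ}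
    (h : ∀ᶠ t in atTop, u t = a * f t + b * g t) : u ∈ PF atTop := by
  obtain ⟨p, h1⟩ := hf
  obtain ⟨q, h2⟩ := hg
  exact ⟨Polynomial.C a * p + Polynomial.C b * q,
    (h1.and (h2.and h)).mono fun t ht => by simp [ht.1, ht.2.1, ht.2.2]⟩

theorem pf_const {c : ℚ} (h : ∀ᶠ t in atTop, f t = c) : f ∈ PF atTop :=
  ⟨Polynomial.C c, h.mono fun t ht => by rw [ht, Polynomial.eval_C]⟩

theorem cfe_const {c : ℚ} (h : ∀ᶠ t in atTop, f t = c) : cfe 0 f = c := by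
  rw [cfe_eq (p := Polynomial.C c) (h.mono fun t ht => by rw [ht, Polynomial.eval_C]),
    Polynomial.coeff_C_zero]

theorem cfe_zero (h : ∀ᶠ t in atTop, f t = 0) : cfe j f = 0 := by
  rw [cfe_eq (p := 0) (h.mono fun t ht => by rw [ht, Polynomial.eval_zero]), Polynomial.coeff_zero]

theorem cfe_scale (hf : f ∈ PF atTop) {Q : ℕ} (hQ : 0 < Q) (h : ∀ t, u t = f (Q * t)) :
    cfe j u = (Q : ℚ) ^ j * cfe j f := by
  obtain ⟨p, h1⟩ := hf
  have h2 : Tendsto (fun t : ℤ => (Q : ℤ) * t) atTop atTop :=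
    Tendsto.const_mul_atTop' (by exact_mod_cast hQ) tendsto_id
  rw [cfe_eq h1, cfe_eq (p := p.comp (Polynomial.C (Q : ℚ) * Polynomial.X))
    ((h2.eventually h1).mono fun t ht => by rw [h, ht]; simp), Polynomial.comp_C_mul_X_coeff,
    mul_comm]

theorem const_of_step (h : ∀ᶠ t in atTop, f (t + 1) = f t) : ∃ c, ∀ᶠ t in atTop, f t = c := by
  obtain ⟨N, hN⟩ := eventually_atTop.1 h
  refine ⟨f N, eventually_atTop.2 ⟨N, fun t ht => ?_⟩⟩
  induction t, ht using Int.leInduction with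
  | base => rfl
  | succ t ht ih => rw [hN t ht, ih]

variable {A A' Γ : Type} [CommRing A] [CommRing A'] [AddCommGroup Γ] {𝒜 : Γ → Set A'}
  [IsNoetherianRing A'] {φ : A →+* A} {b : Ideal A} {X : Set (Val A)} {r Q : ℕ}

theorem Fam.famK (h : Fam φ r Q X) : FamK φ Q ⊥ X :=
  ⟨h.add, fun χ hχ => (h.st χ hχ).imp fun _ h1 => ⟨h1.1, h1.2.imp fun _ e M _ _ _ _ => e M⟩,
    fun χ hχ ε hε => (h.div χ hχ ε hε).imp fun _ h1 => ⟨h1.1, h1.2.imp fun _ e M _ _ _ _ => e M⟩⟩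

theorem FamK.coef (h : FamK φ Q b X) {T : GM 𝒜 → GM 𝒜} (F : Val A → ℤ → GM 𝒜 → ℚ) (j : ℕ)
    {c : ℚ} (hc : 0 < c) {i : ℕ} (hi : c = (Q : ℚ) ^ i) (hF : ∀ (χ χ₁ χ₂ : Val A) (s t : ℚ), EqK b χ (Val.lin s t χ₁ χ₂) →
      ∀ M : GM 𝒜, Module.Finite A' M.M → ∀ n, F χ n M = s * F χ₁ n M + t * F χ₂ n M)
    (hP : ∀ χ ∈ X, ∀ M : GM 𝒜, Module.Finite A' M.M → (fun n => F χ n M) ∈ PF atTop)
    (hadd : ∀ χ ∈ X, ∀ n, GAdd (F χ n))
    (hcom : ∀ χ ∈ X, ∀ M : GM 𝒜, Module.Finite A' M.M →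
      cfe j (fun n => F χ n (T M)) = c * cfe j fun n => F (push φ χ) n M) :
    FamG T r Q ((fun χ M => cfe j fun n => F χ n M) '' X) := by
  refine ⟨?_, ?_, ?_⟩
  · rintro _ ⟨χ, hχ, rfl⟩ M N P hN hs
    obtain ⟨f, g, -, -, h1, h2, -⟩ := id hs
    refine (cfe_lin (a := 1) (b := 1) (hP χ hχ M (Module.Finite.of_injective f h1))
      (hP χ hχ P (Module.Finite.of_surjective g h2)) (Eventually.of_forall fun n => ?_)).trans ?_
    · rw [hadd χ hχ n M N P hN hs, one_mul, one_mul]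
    · rw [one_mul, one_mul]
  · rintro _ ⟨χ, hχ, rfl⟩
    obtain ⟨χ', hχ', s, hs⟩ := h.st χ hχ
    refine ⟨_, ⟨χ', hχ', rfl⟩, c * s, fun M hM => ?_⟩
    refine (hcom χ hχ M hM).trans ?_
    rw [cfe_lin (hP χ' hχ' M hM) (hP χ' hχ' M hM) (Eventually.of_forall (hF _ _ _ _ _ hs M hM))]
    ring
  · rintro _ ⟨χ, hχ, rfl⟩ ε hε
    obtain ⟨χ', hχ', s, hs⟩ := h.div χ hχ (ε / c) (hi ▸ Adm.div hε i)
    obtain ⟨χ₁, hχ₁, s₁, hs₁⟩ := h.st χ' hχ'
    refine ⟨_, ⟨χ', hχ', rfl⟩, s / c, fun M hM => ?_⟩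
    have h1 := pf_lin (hP χ₁ hχ₁ M hM) (hP χ₁ hχ₁ M hM)
      (Eventually.of_forall (hF _ _ _ _ _ hs₁ M hM))
    change cfe j (fun n => F χ n M) =
      s / c * cfe j (fun n => F χ' n (T M)) + s / c * ε * cfe j fun n => F χ' n M
    rw [hcom χ' hχ' M hM, cfe_lin h1 (hP χ' hχ' M hM) (Eventually.of_forall (hF _ _ _ _ _ hs M hM))]
    field_simp

end Pool.Agent.CXD
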