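import Pool.Agent.P.MP_2ce3e7_ag.DL6
import Pool.Agent.P.MP_2ce3e7_ag.CWN2

/-! The index of `τ` on the homogeneous parts. -/

set_option linter.unusedSectionVars false
set_option linter.unusedVariables false

open Function Filter

noncomputable section

namespace Pool.Agent.CXD

/-- degrees -/
abbrev ud (n : ℤ) : Unit × ℤ := ((), n)

theorem ud_add {a b c : ℤ} (h : a + b = c) : ud a + ud b = ud c := congrArg ud h

variable {A A' : Type} [CommRing A] [CommRing A']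

theorem kb_slm {Γ : Type} [AddCommGroup Γ] {𝒜 : Γ → Set A'} {ι : A →+* A'} (h : Dz ι 𝒜) (M : GM 𝒜)
    {c d e : Γ} {z : A'} (hz : z ∈ cl 𝒜 c) (he : c + d = e) {x y : A} {v w : A'}
    (hv : v ∈ cl 𝒜 (-c)) (hw : w ∈ cl 𝒜 (-c)) (hx : v * z = ι x) (hy : w * z = ι y) :
    Kb (Ideal.span {x} ⊔ Ideal.span {y}) (slm h M hz he) := by
  have key : ∀ a ∈ ({x} ∪ {y} : Set A), ∃ u ∈ cl 𝒜 (-c), u * z = ι a := by
    rintro _ (rfl | rfl)
    exacts [⟨v, hv, hx⟩, ⟨w, hw, hy⟩]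
  rw [← Ideal.span_union]
  refine kb_span (fun a ha p hp => pv_ext ?_) fun a ha p => ?_
  · obtain ⟨u, -, hu⟩ := key a ha
    have h0 : z • pv p = 0 := congrArg pv hp
    rw [pv_smul, ← hu, mul_smul, h0, smul_zero, map_zero]
  · obtain ⟨u, hu, hu'⟩ := key a ha
    refine ⟨slm h M hu (by rw [← he, neg_add_cancel_left]) p, pv_ext ?_⟩
    rw [pv_slm, pv_slm, pv_smul, ← hu', mul_comm, mul_smul]

/-- the graded ring `A[x, y, τ] / (x τ - g, y τ - s)` -/
structure Bw (ι : A →+* A') (𝒜 : Unit × ℤ → Set A') (s g : A) (x y τ : A') : Prop where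
  dz : Dz ι 𝒜
  dx : x ∈ cl 𝒜 (ud 1)
  dy : y ∈ cl 𝒜 (ud 1)
  dt : τ ∈ cl 𝒜 (ud (-1))
  ex : x * τ = ι g
  ey : y * τ = ι s
  gen : ∀ γ, ∀ a ∈ 𝒜 γ, ∃ (b : A) (i j m : ℕ), (i + j - m : ℤ) = γ.2 ∧ a = ι b * x ^ i * y ^ j * τ ^ m

variable {ι : A →+* A'} {𝒜 : Unit × ℤ → Set A'} {s g : A} {x y τ : A'} [Gd 𝒜]
  (h : Bw ι 𝒜 s g x y τ) {χ : Val A} {M : GM 𝒜}

/-- the index of `τ` from degree `n + 1` to degree `n` -/
def gam (χ : Val A) (n : ℤ) (M : GM 𝒜) : ℚ :=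
  ind χ (slm h.dz M h.dt (ud_add (by ring) : ud (-1) + ud (n + 1) = ud n))

theorem Bw.kb (M : GM 𝒜) {d e : Unit × ℤ} (he : ud (-1) + d = e) :
    Kb (Ideal.span {s} ⊔ Ideal.span {g}) (slm h.dz M h.dt he) :=
  kb_slm h.dz M h.dt he h.dy h.dx h.ey h.ex

theorem gam_eq {d e : Unit × ℤ} (he : ud (-1) + d = e) {n : ℤ} (hn : e = ud n) :
    ind χ (slm h.dz M h.dt he) = gam h χ n M := by
  obtain rfl : d = ud (n + 1) := add_left_cancel (he.trans (hn.trans (ud_add (by ring)).symm))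
  subst hn
  rfl

theorem gam_shift (n : ℤ) : gam h χ (n + 1) (M.shift (-ud 1)) = gam h χ n M :=
  (gam_eq h (M := M) (n := n) (d := -ud 1 + ud (n + 1 + 1)) (e := -ud 1 + ud (n + 1))
    (congrArg ud (by simp)) (congrArg ud (by simp)) :)

variable [IsNoetherianRing A] [IsNoetherianRing A']

theorem gam_lin {χ₁ χ₂ : Val A} {a b : ℚ}
    (e : EqK (Ideal.span {s} ⊔ Ideal.span {g}) χ (Val.lin a b χ₁ χ₂)) (hM : Module.Finite A' M.M)
    (n : ℤ) : gam h χ n M = a * gam h χ₁ n M + b * gam h χ₂ n M := by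
  have := prt_finite h.dz hM
  exact (congrArg₂ (· - ·) (e _ (h.kb M _).kc) (e _ (h.kb M _).kk)).trans (ind_lin a b χ₁ χ₂ _)

theorem gam_add (hχ : IsAdd χ (Ideal.span {s} ⊔ Ideal.span {g})) (n : ℤ) : GAdd (gam h χ n) := by
  rintro M N P hN ⟨f, g, hf, hg, hs⟩
  have := prt_finite h.dz hN
  exact ind_ses hχ (sx_prt hf hg hs _) (sx_prt hf hg hs _) (fun y => pv_ext (f.map_smul _ _))
    (fun y => pv_ext (g.map_smul _ _)) (h.kb M _) (h.kb N _) (h.kb P _)

include h in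
theorem Bw.vanish (hM : Module.Finite A' M.M) (hx : ∀ p : M.M, x • p = 0)
    (hy : ∀ p : M.M, y • p = 0) : ∀ᶠ n in atTop, ∀ p, M.π (ud n) p = 0 := by
  have h1 := M.vanish hM (AddMonoidHom.snd Unit ℤ) (I := Ideal.span {x, y}) (n := 1)
    (fun n γ hn a ha => ?_) ?_
  · exact h1.mono fun n hn => hn (ud n) rfl
  · obtain ⟨b, i, j, m, e, rfl⟩ := h.gen γ a ha
    have hn' : (n : ℤ) ≤ γ.2 := hn
    refine Ideal.mul_mem_right _ _ (Ideal.pow_le_pow_right (show n ≤ i + j by omega) ?_)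
    rw [pow_add, mul_assoc]
    exact Ideal.mul_mem_left _ _ (Ideal.mul_mem_mul
      (Ideal.pow_mem_pow (Ideal.subset_span (by simp)) _)
      (Ideal.pow_mem_pow (Ideal.subset_span (by simp)) _))
  · rw [pow_one, kill_iff, Ideal.span_le]
    rintro _ (rfl | rfl)
    exacts [Module.mem_annihilator.2 hx, Module.mem_annihilator.2 hy]

theorem gam_tors (hχ : IsAdd χ (Ideal.span {s} ⊔ Ideal.span {g}))
    (h0 : NuK (Ideal.span {s}) (rho g χ)) (hM : Module.Finite A' M.M) (hy : ∀ p : M.M, y • p = 0) :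
    ∀ᶠ n in atTop, gam h χ n M = 0 := by
  have hg := isG_lsmul (M := M) h.dx
  have h1 := h.vanish (M := M.quo _ hg.range) (inferInstanceAs (Module.Finite A' (M.M ⧸ _)))
    (fun p => by
      obtain ⟨p, rfl⟩ := (LinearMap.range (LinearMap.lsmul A' M.M x)).mkQ_surjective p
      exact (Submodule.Quotient.mk_eq_zero _).2 ⟨p, rfl⟩)
    (fun p => by
      obtain ⟨p, rfl⟩ := (LinearMap.range (LinearMap.lsmul A' M.M x)).mkQ_surjective p
      rw [← map_smul, hy, map_zero])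
  have h2 := h.vanish (M := (M.shift (-ud 1)).sub _ hg.ker)
    (inferInstanceAs (Module.Finite A' (LinearMap.ker (LinearMap.lsmul A' M.M x))))
    (fun p => Subtype.ext p.2) fun p => Subtype.ext (hy p.1)
  have h3 : Tendsto (fun n : ℤ => n + 1) atTop atTop := tendsto_atTop_add_const_right _ _ tendsto_id
  refine (h3.eventually (h1.and h2)).mono fun n ⟨e1, e2⟩ => ?_
  have := prt_finite h.dz hM
  have hn : ud 1 + ud n = ud (n + 1) := ud_add (add_comm _ _)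
  have hb : Bijective (slm h.dz M h.dx hn) := by
    refine ⟨(injective_iff_map_eq_zero _).2 fun p hp => pv_ext ?_, fun p => ?_⟩
    · have e4 : x • (pv p : M.M) = 0 := congrArg pv hp
      have e3 : M.π (-ud 1 + ud (n + 1)) (pv p) = 0 :=
        congrArg Subtype.val (e2 ⟨(pv p : M.M), e4⟩)
      rw [← hn, neg_add_cancel_left, pv_π] at e3
      exact e3
    · obtain ⟨u, hu⟩ := (Submodule.Quotient.mk_eq_zero _).1 (e1 (Submodule.Quotient.mk (pv p)))
      obtain ⟨v, hv⟩ := exists_pv h.dz (M.π_self (ud n) u)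
      refine ⟨v, pv_ext ?_⟩
      rw [pv_slm, hv, ← M.π_cl h.dx, hn]
      exact (congrArg _ hu).trans ((M.π_self _ _).trans (pv_π p))
  have hk : Kill (Ideal.span {s}) (prt h.dz M (ud n)) := by
    rw [kill_iff, Ideal.span_singleton_le_iff_mem, Module.mem_annihilator]
    exact fun p => pv_ext (by rw [pv_smul, ← h.ey, mul_smul, hy, map_zero])
  have h4 := ind_comp hχ (u := slm h.dz M h.dx hn) (w := LinearMap.lsmul A _ g)
    (v := slm h.dz M h.dt (ud_add (by ring) : ud (-1) + ud (n + 1) = ud n))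
    (fun p => pv_ext (by rw [pv_slm, pv_slm, ← mul_smul, mul_comm, h.ex]; rfl))
    ⟨fun a _ p hp => by rw [hb.1 (hp.trans (map_zero _).symm), smul_zero], fun a _ p => hb.2 _⟩
    (h.kb M _) ⟨fun a ha p hp => congrArg Subtype.val (ker_CXA2 g hk a ha ⟨p, hp⟩),
      fun a ha p => (Submodule.Quotient.mk_eq_zero _).1
        (quot_CXA2 g hk a ha (Submodule.Quotient.mk p))⟩
  rw [ind_bij hχ hb, zero_add] at h4
  exact h4.symm.trans (h0 _ hk)

theorem gam_const (hχ : IsAdd χ (Ideal.span {s} ⊔ Ideal.span {g}))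
    (h0 : NuK (Ideal.span {s}) (rho g χ)) (hM : Module.Finite A' M.M) :
    ∃ c, ∀ᶠ n in atTop, gam h χ n M = c := by
  have hg := isG_lsmul (M := M) h.dy
  have h1 := gam_tors h hχ h0 (M := M.quo _ hg.range)
    (inferInstanceAs (Module.Finite A' (M.M ⧸ _))) fun p => by
      obtain ⟨p, rfl⟩ := (LinearMap.range (LinearMap.lsmul A' M.M y)).mkQ_surjective p
      exact (Submodule.Quotient.mk_eq_zero _).2 ⟨p, rfl⟩
  have h2 := gam_tors h hχ h0 (M := (M.shift (-ud 1)).sub _ hg.ker)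
    (inferInstanceAs (Module.Finite A' (LinearMap.ker (LinearMap.lsmul A' M.M y))))
    fun p => Subtype.ext p.2
  have h3 : Tendsto (fun n : ℤ => n + 1) atTop atTop := tendsto_atTop_add_const_right _ _ tendsto_id
  refine const_of_step ((h3.eventually (h1.and h2)).mono fun n ⟨e1, e2⟩ => ?_)
  have h4 := (gam_add h hχ (n + 1)).four (M := M.shift (-ud 1)) (N := M) hM hM hg
  rw [e1, e2, gam_shift, sub_zero, sub_eq_zero] at h4
  exact h4

theorem gam_pow {Q : ℕ} (hχ : IsAdd χ (Ideal.span {s ^ Q} ⊔ Ideal.span {g ^ Q}))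
    (hM : Module.Finite A' M.M) (n : ℤ) {m : ℕ} (hm : m ≤ Q) {d : Unit × ℤ}
    (he : m • ud (-1) + d = ud n) :
    ind χ (slm h.dz M (cl_pow h.dt m) he) = ∑ i ∈ Finset.range m, gam h χ (n + i) M := by
  have := prt_finite h.dz hM
  have kb : ∀ m ≤ Q, ∀ {z : A'} {c d e : Unit × ℤ} (hz : z ∈ cl 𝒜 c) (he : c + d = e), z = τ ^ m →
      c = m • ud (-1) → Kb (Ideal.span {s ^ Q} ⊔ Ideal.span {g ^ Q}) (slm h.dz M hz he) := by
    rintro m hm _ _ d e hz he rfl rfl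
    obtain ⟨l, rfl⟩ := Nat.exists_eq_add_of_le hm
    have e1 : 0 + m • ud 1 = -(m • ud (-1)) := congrArg ud (by simp)
    refine kb_slm h.dz M hz he (e1 ▸ cl_mul (h.dz.mem (s ^ l)) (cl_pow h.dy m))
      (e1 ▸ cl_mul (h.dz.mem (g ^ l)) (cl_pow h.dx m)) ?_ ?_
    · rw [mul_assoc, ← mul_pow, h.ey, ← map_pow, ← map_mul, ← pow_add, add_comm]
    · rw [mul_assoc, ← mul_pow, h.ex, ← map_pow, ← map_mul, ← pow_add, add_comm]
  induction m generalizing d with
  | zero =>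
    obtain rfl : d = ud n := by rw [← he, zero_smul, zero_add]
    rw [ind_bij hχ ⟨fun p p' e => pv_ext (by simpa [pv_slm] using congrArg pv e),
      fun p => ⟨p, pv_ext (by simp [pv_slm])⟩⟩, Finset.sum_range_zero]
  | succ m ih =>
    have e1 : ud (-1) + d = ud (n + m) := by
      have e2 : ((m + 1 : ℕ) : ℤ) * -1 + d.2 = n := congrArg Prod.snd he
      exact congrArg ud (show -1 + d.2 = n + m by push_cast at e2; omega)
    have e2 : m • ud (-1) + ud (n + m) = ud n := congrArg ud (by simp)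
    rw [ind_comp hχ (u := slm h.dz M h.dt e1) (v := slm h.dz M (cl_pow h.dt m) e2)
      (fun p => pv_ext (by rw [pv_slm, pv_slm, pv_slm, pow_succ, mul_smul]))
      (kb 1 (by omega) _ _ (pow_one _).symm (one_smul _ _).symm) (kb m (by omega) _ _ rfl rfl)
      (kb _ hm _ _ rfl rfl), ih (by omega), gam_eq h e1 rfl, Finset.sum_range_succ, add_comm]

theorem gam_res (hχ : IsAdd χ (Ideal.span {s} ⊔ Ideal.span {g})) {φ : A →+* A} {φ' : A' →+* A'}
    (hφ : φ.Finite) (hc : φ'.comp ι = ι.comp φ) {Q : ℕ} (hs : φ s = s ^ Q) (hg : φ g = g ^ Q)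
    (ht : φ' τ = τ ^ Q) {ν : Unit × ℤ → Unit × ℤ} (hν : ∀ n, ν (ud n) = ud (Q * n)) {R : GM 𝒜}
    {j : R.M →+ M.M} (hj : IsRes φ' ν R M j) (hR : Module.Finite A' R.M)
    (hM : Module.Finite A' M.M) (n : ℤ) :
    gam h χ n R = ∑ i ∈ Finset.range Q, gam h (push φ χ) (Q * n + i) M := by
  have := prt_finite h.dz hR
  obtain ⟨E, h1, h2, h3⟩ := prt_res (h := h.dz) h.dz hc hj (hν (n + 1))
  obtain ⟨E', h1', h2', h3'⟩ := prt_res (h := h.dz) h.dz hc hj (hν n)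
  have e : Q • ud (-1) + ud (Q * (n + 1)) = ud (Q * n) := congrArg ud (by simp; ring)
  refine (ind_semi hχ (h.kb R _) φ (slm h.dz M (cl_pow h.dt Q) e) E E' h1 h1' h2 h2'
    fun p => pv_ext ?_).trans (gam_pow h (isAdd_push φ hφ hχ (sup_le ?_ ?_)) hM _ le_rfl e)
  · rw [h3', pv_slm, pv_slm, h3, hj.smul, ht]
  · rw [Ideal.span_singleton_le_iff_mem, Ideal.mem_comap, hs]
    exact Ideal.mem_sup_left (Ideal.mem_span_singleton_self _)
  · rw [Ideal.span_singleton_le_iff_mem, Ideal.mem_comap, hg]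
    exact Ideal.mem_sup_right (Ideal.mem_span_singleton_self _)

theorem Bw.famG {φ : A →+* A} {φ' : A' →+* A'} (hφ : φ.Finite) (hφ' : φ'.Finite)
    (hc : φ'.comp ι = ι.comp φ) {Q : ℕ} (hQ : 0 < Q) (hs : φ s = s ^ Q) (hg : φ g = g ^ Q)
    (ht : φ' τ = τ ^ Q) {μ : Unit × ℤ →+ Unit × ℤ} (hμ : ∀ n, μ (ud n) = ud (Q * n))
    (hm : Hm φ' 𝒜 𝒜 μ) {X : Set (Val A)} (hX : FamK φ Q (Ideal.span {s} ⊔ Ideal.span {g}) X)
    (h0 : ∀ χ ∈ X, NuK (Ideal.span {s}) (rho g χ)) (r Q' : ℕ) :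
    FamG (res hm 0) r Q ((fun χ M => cfe 0 fun n => gam h χ n M) '' X) := by
  refine hX.coef (gam h) 0 (c := Q) (by exact_mod_cast hQ) (pow_one _).symm
    (fun χ χ₁ χ₂ a b e M hM => gam_lin h e hM)
    (fun χ hχ M hM => (gam_const h (hX.add χ hχ) (h0 χ hχ) hM).elim fun c => pf_const)
    (fun χ hχ => gam_add h (hX.add χ hχ)) fun χ hχ M hM => ?_
  obtain ⟨χ', hχ', a, ha⟩ := hX.st χ hχ
  obtain ⟨c, hc'⟩ := gam_const h (hX.add χ' hχ') (h0 χ' hχ') hM
  have h1 : ∀ᶠ n in atTop, gam h (push φ χ) n M = a * c :=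
    hc'.mono fun n hn => by rw [gam_lin h ha hM, hn, zero_mul, add_zero]
  obtain ⟨j, hj⟩ := isRes_ver hm M
  obtain ⟨N, hN⟩ := eventually_atTop.1 h1
  rw [cfe_const h1, cfe_const (c := Q * (a * c))]
  refine eventually_atTop.2 ⟨max N 0, fun n hn => ?_⟩
  rw [gam_res h (hX.add χ hχ) hφ hc hs hg ht hμ hj (res_finite hm hφ' M hM) hM,
    Finset.sum_congr rfl fun i _ => hN _ ?_, Finset.sum_const, Finset.card_range, nsmul_eq_mul]
  have := max_le_iff.1 hn
  nlinarith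

end Pool.Agent.CXD
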