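import Pool.Agent.P.MP_2ce3e7_ag.DL7

attribute [local instance] Pool.Agent.CXD.instAddCommGroupCp Pool.Agent.CXD.instModuleCp
  Pool.Agent.CXD.instAddCommGroupLau Pool.Agent.CXD.instModuleLaurentPolynomialLau
  Pool.Agent.CXD.Lau.finite

/-! The test module. -/

set_option linter.unusedSectionVars false
set_option linter.unusedVariables false

open Function Filter Polynomial
open LaurentPolynomial hiding C

noncomputable section

namespace Pool.Agent.CXD

theorem lev_smul {A A' Γ Γ' : Type} [CommRing A] [CommRing A'] [AddCommGroup Γ] [AddCommGroup Γ']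
    {𝒜 : Γ → Set A} {𝒜' : Γ' → Set A'} {θ : A →+* A[T;T⁻¹]} {Ψ : A →+* A'} {e : Γ ≃+ ℤ × Γ'}
    {h : Ch θ Ψ 𝒜 𝒜' e} {W : GM 𝒜'} {c : Γ} {a : A} (ha : a ∈ cl 𝒜 c) (i : ℤ) (u : (lau h W).M) :
    lev' h W (i + (e c).1) (a • u) = Ψ a • lev' h W i u := by
  let y : Lau W.M := u
  change Lau.ev _ (hat θ Ψ a • y) = Ψ a • Lau.ev i y
  rw [h.hat_cl ha, ev_smul_CWC]

variable {A A' D : Type} [CommRing A] [CommRing A'] [CommRing D] {ι : A →+* A'}
  {𝒜 : Unit × ℤ → Set A'} {s g : A} {x y τ : A'} [Gd 𝒜] [IsNoetherianRing A] [IsNoetherianRing A']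
  {χ : Val A} {𝒟 : Unit × Unit → Set D} {θ : A' →+* A'[T;T⁻¹]} {Ψ : A' →+* D}

theorem Bw.test (h : Bw ι 𝒜 s g x y τ) (hχ : IsAdd χ (Ideal.span {s} ⊔ Ideal.span {g}))
    (hc : Ch θ Ψ 𝒜 𝒟 (eR Unit)) {P : Ideal A} (hP : Ideal.span {s} ⊔ Ideal.span {g} ≤ P)
    (ρ : D →+* (A ⧸ P)[X]) (h1 : ∀ a, ρ (Ψ (ι a)) = C (Ideal.Quotient.mk P a)) (h2 : ρ (Ψ x) = X)
    (h3 : Ψ y = 1) (h4 : ρ (Ψ τ) = 0) :
    ∃ (L : GM 𝒜) (j : L.M →ₗ[A'] (lau hc (GM.triv 𝒟 (Cp ρ (A ⧸ P)[X]))).M), LatG {y} j ∧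
      ∀ n, 0 ≤ n → gam h χ n L = -χ.val (A ⧸ P) := by
  classical
  let W := GM.triv 𝒟 (Cp ρ (A ⧸ P)[X])
  let Y := lau hc W
  let lv : ℤ → Y.M →+ (A ⧸ P)[X] := fun i => lev' hc W i
  let ls : ℤ → (A ⧸ P)[X] →+ Y.M := fun i => lsg hc W i
  have e1 : ∀ i p, lv i (ls i p) = p := fun i p => lev_lsg (h := hc) (W := W) i p
  have e2 : ∀ i j p, i ≠ j → lv i (ls j p) = 0 := fun i j p e => lev_lsg_ne (h := hc) (W := W) e p
  have e3 : ∀ (d : Unit × ℤ) u, Y.π d u = ls d.2 (lv d.2 u) := fun _ _ => rfl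
  have e4 : ∀ {c a}, a ∈ cl 𝒜 c → ∀ i u, lv i (a • u) = ρ (Ψ a) * lv (i - c.2) u :=
    fun {c a} ha i u => by
      have := lev_smul (h := hc) (W := W) ha (i - c.2) u
      rwa [show i - c.2 + (eR Unit c).1 = i from sub_add_cancel _ _] at this
  have e5 : ∀ {c a}, a ∈ cl 𝒜 c → ∀ i p, a • ls i p = ls (i + c.2) (ρ (Ψ a) * p) :=
    fun ha i p => smul_lsg (h := hc) (W := W) ha i p
  have e6 : ∀ u v, (∀ i, lv i u = lv i v) → u = v := fun u v => lau_ext (h := hc) (W := W)
  let L : Submodule A' Y.M :=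
    { carrier := {u | ∀ (i : ℤ) (n : ℕ), i < n → (lv i u).coeff n = 0}
      add_mem' := fun hu hv i n hn => by rw [map_add, coeff_add, hu i n hn, hv i n hn, add_zero]
      zero_mem' := fun i n hn => by rw [map_zero, coeff_zero]
      smul_mem' := fun a u hu i n hn => by
        induction a using Gd.ind 𝒜 with
        | h0 => rw [zero_smul, map_zero, coeff_zero]
        | h2 a b ha hb => rw [add_smul, map_add, coeff_add, ha, hb, add_zero]
        | h3 a ha => rw [neg_smul, map_neg, coeff_neg, ha, neg_zero]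
        | h1 c a ha =>
          rw [e4 (mem_cl ha)]
          obtain ⟨b, i', j, m, e, rfl⟩ := h.gen c a ha
          simp only [map_mul, map_pow, h1, h2, h3, h4, one_pow, mul_one]
          rcases m with _ | m
          · rw [pow_zero, mul_one, mul_assoc, coeff_C_mul, coeff_X_pow_mul']
            split_ifs with h5
            · rw [hu _ _ (by omega), mul_zero]
            · exact mul_zero _
          · rw [pow_succ, mul_zero, mul_zero, zero_mul, coeff_zero] }
  have hL : ∀ (i : ℤ) p, (∀ n : ℕ, i < n → coeff p n = 0) → ls i p ∈ L := fun i p hp j n hn => by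
    by_cases e : j = i
    · rw [e, e1, hp n (e ▸ hn)]
    · rw [e2 _ _ _ e, coeff_zero]
  have hst : St Y L := fun d u hu => hL _ _ (hu _)
  have hfg : L.FG := by
    refine ⟨{ls 0 1}, le_antisymm (Submodule.span_le.2 ?_) fun u hu => ?_⟩
    · rw [Finset.coe_singleton, Set.singleton_subset_iff]
      exact hL _ _ fun n hn => by rw [coeff_one, if_neg (by omega)]
    · obtain ⟨t, ht⟩ := Y.sum_π u
      rw [← ht]
      refine Submodule.sum_mem _ fun d _ => ?_
      rw [e3, (lv d.2 u).as_sum_support, map_sum]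
      refine Submodule.sum_mem _ fun n hn => ?_
      obtain ⟨a, ha⟩ := Ideal.Quotient.mk_surjective ((lv d.2 u).coeff n)
      have hn' : (n : ℤ) ≤ d.2 := not_lt.1 fun h5 => mem_support_iff.1 hn (hu _ _ h5)
      have h5 := e5 (cl_mul (cl_mul (h.dz.mem a) (cl_pow h.dx n)) (cl_pow h.dy (d.2 - n).toNat)) 0 1
      simp only [map_mul, map_pow, h1, h2, h3, one_pow, mul_one, C_mul_X_pow_eq_monomial, ha] at h5
      rw [show 0 + (0 + n • ud 1 + (d.2 - n).toNat • ud 1).2 = d.2 by simp; omega] at h5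
      rw [← h5]
      exact Submodule.smul_mem _ _ (Submodule.subset_span (by simp))
  have hfin : Module.Finite A' (Y.sub L hst).M := Module.Finite.iff_fg.2 hfg
  refine ⟨Y.sub L hst, L.subtype, ⟨hfin, isG_subtype hst, L.injective_subtype, ?_⟩, fun n hn => ?_⟩
  · intro f hf u
    rw [Set.mem_singleton_iff.1 hf]
    have h5 : ∀ (N : ℕ) i u, lv i (y ^ N • u) = lv (i - N) u := fun N i u => by
      rw [e4 (cl_pow h.dy N), map_pow, h3, one_pow, map_one, one_mul]
      simp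
    obtain ⟨t, ht⟩ := Y.sum_π u
    obtain ⟨N, hN⟩ : ∃ N : ℕ, ∀ d ∈ t, ((lv d.2 u).natDegree - d.2).toNat ≤ N :=
      ⟨_, fun d hd => Finset.single_le_sum
        (f := fun d : Unit × ℤ => ((lv d.2 u).natDegree - d.2).toNat) (fun _ _ => Nat.zero_le _) hd⟩
    refine ⟨N, ⟨y ^ N • u, fun i m hm => ?_⟩, rfl⟩
    rw [h5]
    by_cases h6 : ud (i - N) ∈ t
    · have h7 := hN _ h6
      exact coeff_eq_zero_of_natDegree_lt (by simp only at h7; omega)
    · rw [← ht, map_sum, Finset.sum_eq_zero fun d hd => ?_, coeff_zero]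
      exact e2 _ d.2 _ fun e => h6 (by rw [e]; exact hd)
  · have := prt_finite h.dz hfin
    have hk : ∀ d, Kill (Ideal.span {s} ⊔ Ideal.span {g}) (prt h.dz (Y.sub L hst) d) :=
      fun d a ha p => pv_ext (Subtype.ext (e6 _ _ fun i => by
        refine (e4 (h.dz.mem a) i _).trans ?_
        rw [h1, Ideal.Quotient.eq_zero_iff_mem.2 (hP ha), map_zero, zero_mul]
        exact (map_zero _).symm))
    have hn' : ud 1 + ud n = ud (n + 1) := ud_add (add_comm _ _)
    have h5 : ∀ i u, lv i (y • u) = lv (i - 1) u := fun i u => by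
      rw [e4 h.dy, h3, map_one, one_mul]
    let κ : prt h.dz (Y.sub L hst) (ud (n + 1)) →ₗ[A] A ⧸ P :=
      { toFun := fun p => (lv (n + 1) (pv p).1).coeff (n + 1).toNat
        map_add' := fun p q => by
          rw [map_add, Submodule.coe_add, map_add, coeff_add]
        map_smul' := fun a p => by
          rw [pv_smul, Submodule.coe_smul, e4 (h.dz.mem a), h1, coeff_C_mul]
          simp
          rfl }
    have h6 := hχ _ _ _ (slm h.dz _ h.dy hn') κ (fun p q e => pv_ext (Subtype.ext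
      (e6 _ _ fun i => ?_))) (fun a => ?_) (fun p => ⟨fun hp => ?_, ?_⟩) (hk _)
    · rw [gam, ind_kill hχ _ (hk _) (hk _), h6]
      ring
    · have e' : y • (pv p).1 = y • (pv q).1 := congrArg Subtype.val (congrArg pv e)
      rw [← add_sub_cancel_right i 1, ← h5, ← h5, e']
    · refine ⟨⟨⟨ls (n + 1) (monomial (n + 1).toNat a), hL _ _ fun m hm => ?_⟩,
        Subtype.ext (congrArg (ls (n + 1)) (e1 _ _))⟩, ?_⟩
      · rw [coeff_monomial, if_neg (by omega)]
      · exact (congrArg (coeff · _) (e1 _ _)).trans (coeff_monomial_same _ _)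
    · refine ⟨⟨⟨ls n (lv (n + 1) (pv p).1), hL _ _ fun m hm => ?_⟩,
        Subtype.ext (congrArg (ls n) (e1 _ _))⟩, pv_ext (Subtype.ext ?_)⟩
      · by_cases e : m = (n + 1).toNat
        · rw [e]; exact hp
        · exact (pv p).2 _ _ (by omega)
      · refine (e5 h.dy _ _).trans ?_
        rw [h3, map_one, one_mul]
        exact congrArg Subtype.val (pv_π p)
    · rintro ⟨q, rfl⟩
      refine (congrArg (coeff · _) (h5 _ _)).trans ?_
      exact (pv q).2 _ _ (by omega)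

end Pool.Agent.CXD
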