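import Pool.Agent.P.MP_2ce3e7_ag.DG0
import Pool.Agent.P.MP_2ce3e7_ag.DL9

/-! Blowing up. -/

set_option linter.unusedSectionVars false
set_option linter.unusedVariables false

open Function Polynomial
open scoped TensorProduct

noncomputable section

namespace Pool.Agent.CXD

variable {k K B : Type} [Field k] [Fintype k] [CommRing K] [Algebra k K] [IsNoetherianRing K]
  [CommRing B] [Algebra k B] [Algebra.FiniteType k B] {r Q : ℕ}

theorem TT.blow' (s g : B) (h1 : TT k K (B[X] ⧸ Ideal.span {X * C s + C g}) r Q)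
    (h2 : TT k K (B ⧸ Ideal.span {s}) r Q) : TT k K (B ⧸ Ideal.span {s, g}) r Q :=
  TT.blow s g h1 h2

end Pool.Agent.CXD
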