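import Pool.Agent.P.MP_2ce3e7_ag.DM1
import Pool.Agent.P.MP_2ce3e7_ag.CWE

attribute [local instance] Pool.Agent.CXD.instAddCommGroupCp Pool.Agent.CXD.instModuleCp

/-! The Euler characteristic of a new variable. -/

set_option linter.unusedSectionVars false
set_option linter.unusedVariables false

open Function

noncomputable section

namespace Pool.Agent.CXD

variable {R B Γ Γ' : Type} [CommRing R] [CommRing B] [AddCommGroup Γ] [AddCommGroup Γ']
  {𝒜 : Γ → Set R} {ℬ : Γ → Set B} {ι : R →+* B}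

/-- restriction along a map that keeps the degree -/
abbrev rsG (h : Hm ι 𝒜 ℬ (AddMonoidHom.id Γ)) (N : GM ℬ) : GM 𝒜 where
  M := Cp ι N.M
  π := N.π
  π_self := N.π_self
  π_ne := N.π_ne
  sum_π := N.sum_π
  π_smul c d a ha x := N.π_cl (h.mem c a ha) d x

variable (ι) in
/-- a linear map over the small ring -/
def rsL {X Y : Type} [AddCommGroup X] [Module B X] [AddCommGroup Y] [Module B Y]
    (f : X →ₗ[B] Y) : Cp ι X →ₗ[R] Cp ι Y where
  toFun := f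
  map_add' := f.map_add
  map_smul' a x := f.map_smul (ι a) x

variable (ι) in
/-- multiplication by an element of the large ring -/
def mulL (X : Type) [AddCommGroup X] [Module B X] (b : B) : Cp ι X →ₗ[R] Cp ι X :=
  rsL ι (LinearMap.lsmul B X b)

theorem isG_mul (h : Hm ι 𝒜 ℬ (AddMonoidHom.id Γ)) {b : B} {v : Γ} (hb : b ∈ cl ℬ v) (N : GM ℬ)
    {w w' : Γ} (e : v + w' = w) :
    IsG (M := (rsG h N).shift w') (N := (rsG h N).shift w) (mulL ι N.M b) :=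
  fun d x => by
    have h1 := N.π_cl hb (w' + d) x
    rw [← add_assoc, e] at h1
    exact h1.symm

/-- `B` is generated by `R` and an element `t` of degree `u` -/
structure Ad (ι : R →+* B) (𝒜 : Γ → Set R) (ℬ : Γ → Set B) (t : B) (u : Γ) : Prop where
  hm : Hm ι 𝒜 ℬ (AddMonoidHom.id Γ)
  deg : t ∈ cl ℬ u
  gen : Subring.closure (insert t (Set.range ι)) = ⊤

variable {t : B} {u : Γ}

/-- the Euler characteristic of `t` -/
def Ad.rl (h : Ad ι 𝒜 ℬ t u) (l : GM 𝒜 → ℚ) (N : GM ℬ) : ℚ :=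
  gix l (isG_mul h.hm h.deg N (add_zero u))

theorem Ad.div (h : Ad ι 𝒜 ℬ t u) (b : B) : ∃ a b', b = ι a + t * b' := by
  have hb : b ∈ Subring.closure (insert t (Set.range ι)) := h.gen ▸ Subring.mem_top b
  induction hb using Subring.closure_induction with
  | mem x hx =>
    rcases hx with rfl | ⟨a, rfl⟩
    · exact ⟨0, 1, by rw [map_zero, zero_add, mul_one]⟩
    · exact ⟨a, 0, by rw [mul_zero, add_zero]⟩
  | zero => exact ⟨0, 0, by rw [map_zero, mul_zero, add_zero]⟩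
  | one => exact ⟨1, 0, by rw [map_one, mul_zero, add_zero]⟩
  | add x y _ _ hx hy =>
    obtain ⟨a, c, rfl⟩ := hx
    obtain ⟨a', c', rfl⟩ := hy
    exact ⟨a + a', c + c', by rw [map_add]; ring⟩
  | neg x _ hx =>
    obtain ⟨a, c, rfl⟩ := hx
    exact ⟨-a, -c, by rw [map_neg]; ring⟩
  | mul x y _ _ hx hy =>
    obtain ⟨a, c, rfl⟩ := hx
    obtain ⟨a', c', rfl⟩ := hy
    exact ⟨a * a', ι a * c' + c * ι a' + c * t * c', by rw [map_mul]; ring⟩

theorem Ad.fin (h : Ad ι 𝒜 ℬ t u) {X Y : Type} [AddCommGroup X] [Module B X] [AddCommGroup Y]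
    [Module R Y] (hX : Module.Finite B X) (g : Cp ι X →ₗ[R] Y) (hg : Surjective g)
    (h0 : ∀ x : X, g (show Cp ι X from t • x) = 0) : Module.Finite R Y := by
  obtain ⟨n, v, hv⟩ := Module.Finite.exists_fin (R := B) (M := X)
  let G : X →+ Y := g.toAddMonoidHom
  refine ⟨Submodule.fg_def.2 ⟨Set.range fun i => G (v i), Set.finite_range _,
    eq_top_iff.2 fun y _ => ?_⟩⟩
  obtain ⟨x, rfl⟩ := hg y
  obtain ⟨c, hc⟩ := (Submodule.mem_span_range_iff_exists_fun B).1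
    (hv ▸ Submodule.mem_top : (show X from x) ∈ Submodule.span B (Set.range v))
  have e : g x = ∑ i, G (c i • v i) := (congrArg G hc.symm).trans (map_sum G _ _)
  rw [e]
  refine sum_mem fun i _ => ?_
  obtain ⟨a, b, hb⟩ := h.div (c i)
  have e1 : G (ι a • v i) = a • G (v i) := g.map_smul a (v i)
  have e2 : G (t • b • v i) = 0 := h0 _
  rw [hb, add_smul, map_add, mul_smul, e1, e2, add_zero]
  exact Submodule.smul_mem _ _ (Submodule.subset_span ⟨i, rfl⟩)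

theorem FamG.smap {𝒜' : Γ' → Set B} {T : GM 𝒜 → GM 𝒜} {T' : GM 𝒜' → GM 𝒜'} {r Q : ℕ}
    {X : Set (GM 𝒜 → ℚ)} (h : FamG T r Q X) (Θ : (GM 𝒜 → ℚ) → GM 𝒜' → ℚ) {c : ℚ} (hc : 0 < c)
    {i : ℕ} (hi : c = (Q : ℚ) ^ i) (hadd : ∀ l ∈ X, GAdd (Θ l))
    (hlin : ∀ (l l₁ l₂ : GM 𝒜 → ℚ) (a b : ℚ),
      (∀ M : GM 𝒜, Module.Finite R M.M → l M = a * l₁ M + b * l₂ M) →
      ∀ W : GM 𝒜', Module.Finite B W.M → Θ l W = a * Θ l₁ W + b * Θ l₂ W)
    (hcom : ∀ l ∈ X, ∀ W : GM 𝒜', Module.Finite B W.M →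
      Θ l (T' W) = c * Θ (fun M => l (T M)) W) : FamG T' r Q (Θ '' X) := by
  refine ⟨?_, ?_, ?_⟩
  · rintro _ ⟨l, hl, rfl⟩
    exact hadd l hl
  · rintro _ ⟨l, hl, rfl⟩
    obtain ⟨l', hl', s, e⟩ := h.st l hl
    refine ⟨_, ⟨l', hl', rfl⟩, c * s, fun W hW => ?_⟩
    rw [hcom l hl W hW, hlin _ l' l' s 0 (fun M hM => by rw [e M hM, zero_mul, add_zero]) W hW]
    ring
  · rintro _ ⟨l, hl, rfl⟩ ε hε
    obtain ⟨l', hl', s, e⟩ := h.div l hl (ε / c) (hi ▸ Adm.div hε i)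
    refine ⟨_, ⟨l', hl', rfl⟩, s / c, fun W hW => ?_⟩
    rw [hcom l' hl' W hW, hlin l (fun M => l' (T M)) l' s (s * (ε / c)) e W hW]
    field_simp

variable [IsNoetherianRing R] [IsNoetherianRing B] [Gd 𝒜] [Gd ℬ] {l : GM 𝒜 → ℚ}

theorem Ad.fd (h : Ad ι 𝒜 ℬ t u) {X : Type} [AddCommGroup X] [Module B X]
    (hX : Module.Finite B X) : Fd (mulL ι X t) := by
  refine ⟨h.fin (X := LinearMap.ker (LinearMap.lsmul B X t)) inferInstance
    ⟨⟨fun x => ⟨x.1, x.2⟩, fun _ _ => rfl⟩, fun _ _ => rfl⟩ (fun x => ⟨⟨x.1, x.2⟩, rfl⟩)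
    fun x => Subtype.ext x.2, h.fin hX (Submodule.mkQ _) (Submodule.mkQ_surjective _) fun x => ?_⟩
  exact (Submodule.Quotient.mk_eq_zero _).2 ⟨x, rfl⟩

end Pool.Agent.CXD
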