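import Pool.Agent.P.MP_2ce3e7_ag.DM1B
import Pool.Agent.P.MP_2ce3e7_ag.DM2

attribute [local instance] Pool.Agent.CXD.instAddCommGroupCp Pool.Agent.CXD.instModuleCp

/-! Families of Euler characteristics. -/

set_option linter.unusedSectionVars false
set_option linter.unusedVariables false

open Function

noncomputable section

namespace Pool.Agent.CXD

variable {R B Γ : Type} [CommRing R] [CommRing B] [AddCommGroup Γ] {𝒜 : Γ → Set R} {ℬ : Γ → Set B}
  {ι : R →+* B} {t : B} {u : Γ} [IsNoetherianRing R] [IsNoetherianRing B] [Gd 𝒜] [Gd ℬ]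
  {l : GM 𝒜 → ℚ}

theorem Ad.gadd (h : Ad ι 𝒜 ℬ t u) (hl : GAdd l) : GAdd (h.rl l) := by
  rintro M N P hN ⟨f, g, gf, gg, h1, h2, h3⟩
  have hM : Module.Finite B M.M := Module.Finite.of_injective f h1
  have hP : Module.Finite B P.M := Module.Finite.of_surjective g h2
  exact gix_ses hl (M := (rsG h.hm M).shift 0) (N := (rsG h.hm N).shift 0)
    (P := (rsG h.hm P).shift 0) (M' := (rsG h.hm M).shift u) (N' := (rsG h.hm N).shift u)
    (P' := (rsG h.hm P).shift u) (f := rsL ι (X := M.M) (Y := N.M) f)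
    (g := rsL ι (X := N.M) (Y := P.M) g) (f' := rsL ι (X := M.M) (Y := N.M) f)
    (g' := rsL ι (X := N.M) (Y := P.M) g)
    (fun d x => gf _ x) (fun d x => gg _ x) (fun d x => gf _ x) (fun d x => gg _ x)
    ⟨h1, h2, h3⟩ ⟨h1, h2, h3⟩ (isG_mul h.hm h.deg M (add_zero u))
    (isG_mul h.hm h.deg N (add_zero u)) (isG_mul h.hm h.deg P (add_zero u))
    (fun y => f.map_smul t y) (fun y => g.map_smul t y) (h.fd hM) (h.fd hN) (h.fd hP)

theorem Ad.vn (h : Ad ι 𝒜 ℬ t u) (hl : GAdd l) (hs : Shi l) (𝔟 : Ideal B) :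
    VnG 𝔟 {t} (h.rl l) := by
  refine (h.gadd hl).nil (Set.finite_singleton t) (fun f hf => ⟨u, hf ▸ h.deg⟩)
    fun N hN _ h0 => ?_
  have hF : Module.Finite R (Cp ι N.M) :=
    h.fin hN LinearMap.id surjective_id fun x => h0 t rfl x
  have h1 := hl.four (M := (rsG h.hm N).shift 0) (N := (rsG h.hm N).shift u) hF hF
    (isG_mul h.hm h.deg N (add_zero u))
  rw [hs (rsG h.hm N) u hF, hs (rsG h.hm N) 0 hF, sub_self] at h1
  exact h1.symm

theorem Ad.rl_nil (h : Ad ι 𝒜 ℬ t u) {Z : Set R} (hv : VnG ⊥ Z l) (N : GM ℬ)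
    (hN : Module.Finite B N.M) (hn : Nil (ι '' Z) N.M) : h.rl l N = 0 := by
  have hz : Nil Z (Cp ι N.M) := fun a ha x => by
    obtain ⟨m, hm⟩ := hn (ι a) ⟨a, ha, rfl⟩ x
    refine ⟨m, ?_⟩
    rw [← map_pow] at hm
    exact hm
  have hd := h.fd hN
  have hg := isG_mul h.hm h.deg N (add_zero u)
  have h1 := hv (((rsG h.hm N).shift u).quo _ hg.range) hd.cok kill_bot
    (hz.of_surjective (Submodule.mkQ _) (Submodule.mkQ_surjective _))
  have h2 := hv (((rsG h.hm N).shift 0).sub _ hg.ker) hd.ker kill_bot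
    (hz.of_injective (Submodule.subtype _) (Submodule.injective_subtype _))
  exact (congrArg₂ (· - ·) h1 h2).trans (sub_self 0)

theorem step_DM2B (h : Ad ι 𝒜 ℬ t u) (hl : GAdd l) (hs : Shi l) (W : GM ℬ)
    (hW : Module.Finite B W.M) {w w' : Γ} (e : u + w' = w) :
    gix l (isG_mul h.hm h.deg W e) = h.rl l W := by
  have hd := h.fd hW
  have hg := isG_mul h.hm h.deg W (add_zero u)
  have hg' := isG_mul h.hm h.deg W e
  have h1 : l (((rsG h.hm W).shift w).quo _ hg'.range) =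
      l ((((rsG h.hm W).shift u).quo _ hg.range).shift w') :=
    hl.congr hd.cok (f := LinearMap.id) (fun d x => by
      obtain ⟨y, rfl⟩ := Submodule.mkQ_surjective _ x
      exact congrArg (fun c => (LinearMap.range (mulL ι W.M t)).mkQ (W.π c y))
        (by rw [← e, add_assoc])) bijective_id
  have h2 : l (((rsG h.hm W).shift w').sub _ hg'.ker) =
      l ((((rsG h.hm W).shift 0).sub _ hg.ker).shift w') :=
    hl.congr hd.ker (f := LinearMap.id) (fun d x => Subtype.ext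
      (congrArg (fun c => W.π c x.1) (zero_add (w' + d)).symm)) bijective_id
  have h3 := hs (((rsG h.hm W).shift u).quo _ hg.range) w' hd.cok
  have h4 := hs (((rsG h.hm W).shift 0).sub _ hg.ker) w' hd.ker
  exact congrArg₂ (· - ·) (h1.trans h3) (h2.trans h4)

theorem pow_DM2B (h : Ad ι 𝒜 ℬ t u) (hl : GAdd l) (hs : Shi l) (W : GM ℬ)
    (hW : Module.Finite B W.M) (n : ℕ) : Fd (mulL ι W.M (t ^ n)) ∧
      gix l (isG_mul h.hm (cl_pow h.deg n) W (add_zero (n • u))) = n * h.rl l W := by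
  induction n with
  | zero =>
    have e : ∀ x, mulL ι W.M (t ^ 0) x = x := fun x : W.M => by
      change t ^ 0 • x = x
      rw [pow_zero, one_smul]
    have s1 : Subsingleton (LinearMap.ker (mulL ι W.M (t ^ 0))) :=
      ⟨fun x y => Subtype.ext (((e x.1).symm.trans x.2).trans ((e y.1).symm.trans y.2).symm)⟩
    have s2 : Subsingleton (Cp ι W.M ⧸ LinearMap.range (mulL ι W.M (t ^ 0))) :=
      Submodule.Quotient.subsingleton_iff.2 (LinearMap.range_eq_top.2 fun x => ⟨x, e x⟩)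
    have hg := isG_mul h.hm (cl_pow h.deg 0) W (add_zero (0 • u))
    refine ⟨⟨Module.Finite.of_finite, Module.Finite.of_finite⟩, ?_⟩
    have h1 := @GAdd.zero _ _ _ _ _ _ hl (((rsG h.hm W).shift (0 • u)).quo _ hg.range) s2
    have h2 := @GAdd.zero _ _ _ _ _ _ hl (((rsG h.hm W).shift 0).sub _ hg.ker) s1
    rw [Nat.cast_zero, zero_mul]
    exact (congrArg₂ (· - ·) h1 h2).trans (sub_self 0)
  | succ n ih =>
    have e : u + n • u = (n + 1) • u := (succ_nsmul' u n).symm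
    have h1 := gix_comp hl (isG_mul h.hm (cl_pow h.deg n) W (add_zero (n • u)))
      (isG_mul h.hm h.deg W e) (isG_mul h.hm (cl_pow h.deg (n + 1)) W (add_zero ((n + 1) • u)))
      (fun x : W.M => by
        change t ^ (n + 1) • x = t • t ^ n • x
        rw [pow_succ', mul_smul]) ih.1 (h.fd hW)
    refine ⟨h1.1, ?_⟩
    rw [h1.2, ih.2, step_DM2B h hl hs W hW e]
    push_cast
    ring

theorem Ad.famG (h : Ad ι 𝒜 ℬ t u) {φ : R →+* R} {φ' : B →+* B} {μ : Γ →+ Γ} (hφ : Hm φ 𝒜 𝒜 μ)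
    (hφ' : Hm φ' ℬ ℬ μ) (hf : φ.Finite) (hf' : φ'.Finite) (hc : ∀ a, φ' (ι a) = ι (φ a)) {m : ℕ}
    (hm : 0 < m) (ht : φ' t = t ^ m) (hu : μ u = m • u) {r : ℕ} {X : Set (GM 𝒜 → ℚ)}
    (hX : FamG (res hφ 0) r m X) (hs : ∀ l ∈ X, Shi l) : FamG (res hφ' 0) r m (h.rl '' X) := by
  refine hX.smap h.rl (c := m) (Nat.cast_pos.2 hm) (pow_one _).symm
    (fun l hl => h.gadd (hX.add l hl)) ?_ ?_
  · intro l l₁ l₂ a b H W hW
    have hd := h.fd hW
    have hg := isG_mul h.hm h.deg W (add_zero u)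
    have h1 := H (((rsG h.hm W).shift u).quo _ hg.range) hd.cok
    have h2 := H (((rsG h.hm W).shift 0).sub _ hg.ker) hd.ker
    unfold Ad.rl gix
    rw [h1, h2]
    ring
  · intro l hl W hW
    have hl1 := hX.add l hl
    have a1 : GAdd fun M => l (res hφ 0 M) := hl1.res hφ 0 (res_finite hφ hf)
    have a2 : Shi fun M => l (res hφ 0 M) := by
      obtain ⟨l₁, hl₁, s, H⟩ := hX.st l hl
      intro M w hM
      change l (res hφ 0 (M.shift w)) = l (res hφ 0 M)
      rw [H (M.shift w) hM, H M hM, hs l₁ hl₁ M w hM]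
    obtain ⟨hd, a3⟩ := pow_DM2B h a1 a2 W hW m
    rw [← a3]
    obtain ⟨j, hj⟩ := isRes_ver hφ' W
    have hr : ∀ w w', μ w = w' → IsRes φ μ ((rsG h.hm (res hφ' 0 W)).shift w)
        ((rsG h.hm W).shift w') j := by
      rintro w _ rfl
      refine ⟨hj.inj, fun a y => ?_, fun c y => ?_, fun c x => ?_⟩
      · have h1 := hj.smul (ι a) y
        rw [hc] at h1
        exact h1
      · have h1 := hj.π (w + c) y
        rw [map_add] at h1
        exact h1
      · have h1 := hj.sur (w + c) x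
        rw [map_add] at h1
        exact h1
    have hg := isG_mul h.hm h.deg (res hφ' 0 W) (add_zero u)
    have hg' := isG_mul h.hm (cl_pow h.deg m) W (add_zero (m • u))
    have hcm : ∀ x, j (mulL ι (res hφ' 0 W).M t x) = mulL ι W.M (t ^ m) (j x) := fun x => by
      have h1 := hj.smul t x
      rw [ht] at h1
      exact h1
    obtain ⟨j₁, k₁⟩ := isRes_ker (hr 0 0 (map_zero μ)) (hr u _ hu) hg hg' hcm
    obtain ⟨j₂, k₂⟩ := isRes_cok (hr 0 0 (map_zero μ)) (hr u _ hu) hg hg' hcm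
    obtain ⟨j₃, k₃⟩ := isRes_ver hφ (((rsG h.hm W).shift 0).sub _ hg'.ker)
    obtain ⟨j₄, k₄⟩ := isRes_ver hφ (((rsG h.hm W).shift (m • u)).quo _ hg'.range)
    exact congrArg₂ (· - ·) (k₂.val hl1 k₄ (res_finite hφ hf _ hd.cok))
      (k₁.val hl1 k₃ (res_finite hφ hf _ hd.ker))

end Pool.Agent.CXD
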