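import Pool.Agent.P.MP_2ce3e7_ag.DM2

attribute [local instance] Pool.Agent.CXD.instAddCommGroupCp Pool.Agent.CXD.instModuleCp

/-! The lattice of polynomials with coefficients in a graded module. -/

set_option linter.unusedSectionVars false
set_option linter.unusedVariables false

open Function LaurentPolynomial

noncomputable section

namespace Pool.Agent.CXD

variable {R B Γ Γ' : Type} [CommRing R] [CommRing B] [AddCommGroup Γ] [AddCommGroup Γ']
  [Subsingleton Γ'] {𝒜 : Γ → Set R} {ℬ : Γ → Set B} {𝒜' : Γ' → Set R} {ι : R →+* B} {t : B}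
  {u : Γ} {θ : B →+* B[T;T⁻¹]} {Ψ : B →+* R} {e : Γ ≃+ ℤ × Γ'} [IsNoetherianRing R]
  [IsNoetherianRing B] [Gd 𝒜] [Gd ℬ] {l : GM 𝒜 → ℚ}

theorem Ad.rees (h : Ad ι 𝒜 ℬ t u) (hc : Ch θ Ψ ℬ 𝒜' e) (h1 : ∀ a, Ψ (ι a) = a) (h2 : Ψ t = 1)
    (h3 : (e u).1 = 1) (hl : GAdd l) (hs : Shi l) (M : GM 𝒜) (hM : Module.Finite R M.M) :
    ∃ (L : GM ℬ) (j : L.M →ₗ[B] (lau hc (GM.triv 𝒜' M.M)).M), LatG {t} j ∧ h.rl l L = l M := by
  let W := GM.triv 𝒜' M.M
  have hd : ∀ d, e.symm ((e d).1, 0) = d := fun d =>
    e.symm_apply_eq.2 (Prod.ext rfl (Subsingleton.elim _ _))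
  let s : M.M →+ (lau hc W).M := M.glue fun d => lsg hc W (e d).1
  have s1 : ∀ d x, M.π d x = x → s x = lsg hc W (e d).1 x := fun d x hx => M.glue_hom _ hx
  have a1 : ∀ c, ∀ a ∈ 𝒜 c, ∀ i (w : M.M),
      ι a • lsg hc W i w = lsg hc W (i + (e c).1) (a • w) := fun c a ha i w => by
    have h0 := smul_lsg (h := hc) (W := W) (h.hm.mem c a ha) i w
    rwa [h1] at h0
  have t1 : ∀ (n : ℕ) i (w : M.M), t ^ n • lsg hc W i w = lsg hc W (i + n) w := fun n i w => by
    have h0 := smul_lsg (h := hc) (W := W) (cl_pow h.deg n) i w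
    rwa [map_pow, h2, one_pow, one_smul, map_nsmul, Prod.smul_fst, h3, nsmul_one] at h0
  have lin : ∀ {X Y : Type} [AddCommGroup X] [Module R X] [AddCommGroup Y] [Module R Y]
      (f : X →+ Y), (∀ c, ∀ a ∈ 𝒜 c, ∀ x, f (a • x) = a • f x) → ∀ (a : R) x,
        f (a • x) = a • f x := fun f hf a x => by
    induction a using Gd.ind 𝒜 with
    | h0 => rw [zero_smul, zero_smul, map_zero]
    | h1 c a ha => exact hf c a ha x
    | h2 a b ha hb => rw [add_smul, add_smul, map_add, ha, hb]
    | h3 a ha => rw [neg_smul, neg_smul, map_neg, ha]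
  have s2 : ∀ (a : R) x, s (a • x) = ι a • s x :=
    lin (Y := Cp ι (lau hc W).M) s fun c a ha x => by
      change s (a • x) = ι a • s x
      induction x using M.ind with
      | h0 => rw [smul_zero, map_zero, smul_zero]
      | h1 d x hx => rw [s1 _ _ (GM.hom_smul (mem_cl ha) hx), s1 d x hx, a1 c a ha, map_add,
          Prod.fst_add, add_comm]
      | h2 x y hx hy => rw [smul_add, map_add, map_add, hx, hy, smul_add]
  obtain ⟨p, hp⟩ := lau_lift (h := hc) (W := W) fun i => M.π (e.symm (i, 0))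
  have p1 : ∀ i (w : M.M), p (lsg hc W i w) = M.π (e.symm (i, 0)) w := hp
  have p2 : ∀ (a : R) (y : (lau hc W).M), p (ι a • y) = a • p y :=
    lin (X := Cp ι (lau hc W).M) p fun c a ha (y : (lau hc W).M) => by
      change p (ι a • y) = a • p y
      induction y using lau_ind with
      | h0 => rw [smul_zero, map_zero, smul_zero]
      | h1 i d w hw =>
        rw [a1 c a ha, p1, p1, ← M.π_cl (mem_cl ha), ← hd c, ← map_add, e.apply_symm_apply,
          Prod.mk_add_mk, add_zero, add_comm]
      | h2 x y hx hy => rw [smul_add, map_add, map_add, hx, hy, smul_add]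
  have p3 : ∀ x, p (s x) = x := fun x => by
    induction x using M.ind with
    | h0 => rw [map_zero, map_zero]
    | h1 d x hx => rw [s1 d x hx, p1, hd, hx]
    | h2 x y hx hy => rw [map_add, map_add, hx, hy]
  have p4 : ∀ d y, p ((lau hc W).π d y) = M.π d (p y) := fun d y => by
    induction y using lau_ind with
    | h0 => rw [map_zero, map_zero, map_zero]
    | h2 x y hx hy => rw [map_add, map_add, map_add, map_add, hx, hy]
    | h1 i c w hw =>
      rw [lau_π, p1, p1, hd]
      by_cases hi : (e d).1 = i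
      · rw [← hi, lev_lsg, hd, M.π_self]
        rfl
      · rw [lev_lsg_ne hi, map_zero, map_zero, M.π_ne]
        rintro rfl
        exact hi (by rw [e.apply_symm_apply])
  obtain ⟨G, hG, hG'⟩ := M.exists_gens
  let L : Submodule B (lau hc W).M := Submodule.span B (s '' G)
  have hL : St (lau hc W) L := st_span (by
    rintro _ ⟨x, hx, rfl⟩
    obtain ⟨d, hx'⟩ := hG' x hx
    exact ⟨d, by rw [s1 d x hx']; exact lau_π_lsg rfl⟩)
  have sL : ∀ x, s x ∈ L := fun x => by
    have hx : x ∈ Submodule.span R (G : Set M.M) := hG ▸ Submodule.mem_top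
    induction hx using Submodule.span_induction with
    | mem x hx => exact Submodule.subset_span ⟨x, hx, rfl⟩
    | zero => rw [map_zero]; exact zero_mem _
    | add x y _ _ hx hy => rw [map_add]; exact add_mem hx hy
    | smul a x _ hx => rw [s2]; exact L.smul_mem _ hx
  have d1 : ∀ y ∈ L, ∃ x, ∃ y' ∈ L, y = s x + t • y' := fun y hy => by
    induction hy using Submodule.span_induction with
    | mem y hy =>
      obtain ⟨x, -, rfl⟩ := hy
      exact ⟨x, 0, zero_mem _, by rw [smul_zero, add_zero]⟩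
    | zero => exact ⟨0, 0, zero_mem _, by rw [map_zero, smul_zero, add_zero]⟩
    | add x y _ _ hx hy =>
      obtain ⟨a, b, hb, rfl⟩ := hx
      obtain ⟨a', b', hb', rfl⟩ := hy
      exact ⟨a + a', b + b', add_mem hb hb', by rw [map_add, smul_add]; abel⟩
    | smul c x _ hx =>
      obtain ⟨a, b, hb, rfl⟩ := hx
      obtain ⟨a', b', rfl⟩ := h.div c
      refine ⟨a' • a, b' • s a + (ι a' + t * b') • b,
        add_mem (L.smul_mem _ (sL a)) (L.smul_mem _ hb), ?_⟩
      rw [s2, smul_add, smul_add, smul_comm _ t b, add_smul _ _ (s a), mul_smul, add_assoc]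
  have d2 : ∀ (b : B) x (n : ℕ), p (t ^ (n + 1) • b • s x) = 0 := fun b => by
    have hb : b ∈ Subring.closure (insert t (Set.range ι)) := h.gen ▸ Subring.mem_top b
    have key : ∀ y : (lau hc W).M, (∀ n : ℕ, p (t ^ (n + 1) • y) = 0) →
        ∀ n : ℕ, p (t ^ (n + 1) • b • y) = 0 := by
      induction hb using Subring.closure_induction with
      | mem x hx =>
        rcases hx with rfl | ⟨a, rfl⟩
        · intro y hy n
          rw [← mul_smul, ← pow_succ, hy]
        · intro y hy n
          rw [smul_comm, p2, hy, smul_zero]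
      | zero => intro y hy n; rw [zero_smul, smul_zero, map_zero]
      | one => intro y hy n; rw [one_smul, hy]
      | add a b _ _ ha hb =>
        intro y hy n
        rw [add_smul, smul_add, map_add, ha y hy, hb y hy, add_zero]
      | neg a _ ha => intro y hy n; rw [neg_smul, smul_neg, map_neg, ha y hy, neg_zero]
      | mul a b _ _ ha hb => intro y hy n; rw [mul_smul, ha _ (hb y hy)]
    intro x
    refine key _ fun n => ?_
    induction x using M.ind with
    | h0 => rw [map_zero, smul_zero, map_zero]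
    | h2 x y hx hy => rw [map_add, smul_add, map_add, hx, hy, add_zero]
    | h1 d x hx =>
      rw [s1 d x hx, t1, p1]
      refine GM.π_of_ne hx fun h0 => ?_
      have h4 := congrArg (fun c => (e c).1) h0
      simp only [e.apply_symm_apply] at h4
      omega
  have d3 : ∀ y ∈ L, p (t • y) = 0 := fun y hy => by
    have key : ∀ b : B, p (t • b • y) = 0 := by
      induction hy using Submodule.span_induction with
      | mem y hy =>
        obtain ⟨x, -, rfl⟩ := hy
        intro b
        have h0 := d2 b x 0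
        rwa [zero_add, pow_one] at h0
      | zero => intro b; rw [smul_zero, smul_zero, map_zero]
      | add x y _ _ hx hy => intro b; rw [smul_add, smul_add, map_add, hx, hy, add_zero]
      | smul c x _ hx => intro b; rw [← mul_smul b, hx]
    have h0 := key 1
    rwa [one_smul] at h0
  obtain ⟨v, hv⟩ := lau_lift (h := hc) (W := W) fun i => lsg hc W (i - 1)
  have v1 : ∀ y, v (t • y) = y := fun y => by
    induction y using lau_ind with
    | h0 => rw [smul_zero, map_zero]
    | h2 x y hx hy => rw [smul_add, map_add, hx, hy]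
    | h1 i c w hw =>
      have h0 := t1 1 i w
      rw [pow_one] at h0
      rw [h0, hv, Nat.cast_one, add_sub_cancel_right]
  have fin : Module.Finite B L := Module.Finite.span_of_finite B (G.finite_toSet.image s)
  refine ⟨(lau hc W).sub L hL, L.subtype, ⟨fin, isG_subtype hL, L.injective_subtype, ?_⟩, ?_⟩
  · intro f hf y
    rw [show f = t from hf]
    have up : ∀ (y : (lau hc W).M) (n m : ℕ), t ^ n • y ∈ L → t ^ (m + n) • y ∈ L :=
      fun y n m hy => by rw [pow_add, mul_smul]; exact L.smul_mem _ hy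
    have add : ∀ y y' : (lau hc W).M, (∃ n : ℕ, t ^ n • y ∈ L) → (∃ n : ℕ, t ^ n • y' ∈ L) →
        ∃ n : ℕ, t ^ n • (y + y') ∈ L := by
      rintro y y' ⟨n, hn⟩ ⟨m, hm⟩
      exact ⟨m + n, by rw [smul_add]; exact add_mem (up y n m hn) (add_comm n m ▸ up y' m n hm)⟩
    suffices H : ∃ n : ℕ, t ^ n • y ∈ L from H.imp fun n hn => ⟨⟨_, hn⟩, rfl⟩
    induction y using lau_ind with
    | h0 => exact ⟨0, by rw [smul_zero]; exact zero_mem _⟩
    | h2 x y hx hy => exact add x y hx hy
    | h1 i c w hw =>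
      clear hw
      induction w using M.ind with
      | h0 => exact ⟨0, by rw [map_zero, smul_zero]; exact zero_mem _⟩
      | h2 x y hx hy => rw [map_add]; exact add _ _ hx hy
      | h1 d x hx =>
        have h0 := L.smul_mem (t ^ (i - (e d).1).toNat) (sL x)
        rw [s1 d x hx, t1] at h0
        refine ⟨((e d).1 - i).toNat, ?_⟩
        rw [t1, show i + ((e d).1 - i).toNat = (e d).1 + (i - (e d).1).toNat by omega]
        exact h0
  · let g : Cp ι L →ₗ[R] M.M :=
      ⟨⟨fun y => p (show L from y).1, fun x y => p.map_add _ _⟩, fun a y => p2 a _⟩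
    have h0 := gix_eq hl (M := (rsG h.hm ((lau hc W).sub L hL)).shift 0)
      (N := (rsG h.hm ((lau hc W).sub L hL)).shift u)
      (isG_mul h.hm h.deg ((lau hc W).sub L hL) (add_zero u)) (h.fd fin) (C := M.shift u) (g := g) (fun d y => p4 _ _) (fun x => ⟨⟨s x, sL x⟩, p3 x⟩)
      (fun y => ⟨fun hy => ?_, ?_⟩) (D := M.sub ⊥ st_bot) (i := 0)
      (fun d x => (map_zero _).symm) (fun x y _ => Subsingleton.elim x y) fun y => ⟨?_, fun hy => ?_⟩
    · rw [Ad.rl, h0, hs M u hM, hl.zero (M.sub ⊥ st_bot), sub_zero]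
    · obtain ⟨x, y', hy', e1⟩ := d1 _ y.2
      have e2 : p y.1 = 0 := hy
      rw [e1, map_add, p3, d3 _ hy', add_zero] at e2
      rw [e2, map_zero, zero_add] at e1
      exact ⟨⟨y', hy'⟩, Subtype.ext e1.symm⟩
    · rintro ⟨x, rfl⟩
      exact d3 _ x.2
    · rintro ⟨z, rfl⟩
      exact map_zero _
    · exact ⟨0, Subtype.ext ((v1 y.1).symm.trans ((congrArg v (congrArg Subtype.val hy)).trans
        (map_zero v))).symm⟩

end Pool.Agent.CXD
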