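import Pool.Agent.P.MP_2ce3e7_ag.DM2
import Pool.Agent.P.MP_2ce3e7_ag.CWJ

attribute [local instance] Pool.Agent.CXD.instAddCommGroupCp Pool.Agent.CXD.instModuleCp
  Pool.Agent.CXD.instAddCommGroupRs Pool.Agent.CXD.instModuleRs Pool.Agent.CXD.instModuleRs_1
  Pool.Agent.CXD.instIsScalarTowerRs Pool.Agent.CXD.instSMulCommClassRs
  Pool.Agent.CXD.instAddCommGroupBox Pool.Agent.CXD.instModuleTensorProductBox
  Pool.Agent.CXD.finite_box

/-! The Euler characteristic of a new variable on exterior products. -/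

set_option linter.unusedSectionVars false
set_option linter.unusedVariables false

open Function
open scoped TensorProduct

noncomputable section

namespace Pool.Agent.CXD

variable {k K A B : Type} [Field k] [CommRing K] [Algebra k K] [CommRing A] [Algebra k A]
  [CommRing B] [Algebra k B] {𝒜 : ℤ → Set A} {ℬ : ℤ → Set B} [Gd 𝒜] [Gd ℬ] [Gk k 𝒜] [Gk k ℬ]
  {ι : A →ₐ[k] B} {t : B} {u : ℤ}

theorem Ad.tensor (h : Ad ι.toRingHom 𝒜 ℬ t u) :
    Ad (mp K ι) (tg k (tv K) 𝒜) (tg k (tv K) ℬ) (inr k K B t) ((), u) := by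
  refine ⟨⟨injective_id, ?_⟩, tmul_mem_cl (mem_tv _ _) h.deg, eq_top_iff.2 fun z _ => ?_⟩
  · rintro c _ ⟨a, ha, b, hb, rfl⟩
    exact tmul_mem_cl (k := k) (mem_tv _ _) (h.hm.mem c.2 b hb)
  · have h1 : ∀ y : B, inr k K B y ∈
        Subring.closure (insert (inr k K B t) (Set.range (mp K ι))) := by
      intro y
      have h2 : Subring.closure (insert t (Set.range ι.toRingHom)) ≤ Subring.comap (inr k K B)
          (Subring.closure (insert (inr k K B t) (Set.range (mp K ι)))) := by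
        refine Subring.closure_le.2 ?_
        rintro _ (rfl | ⟨a, rfl⟩)
        · exact Subring.subset_closure (Set.mem_insert _ _)
        · exact Subring.subset_closure (Set.mem_insert_of_mem _ ⟨inr k K A a, rfl⟩)
      exact h2 (h.gen ▸ Subring.mem_top y)
    induction z using TensorProduct.induction_on with
    | zero => exact zero_mem _
    | add x y hx hy => exact add_mem (hx trivial) (hy trivial)
    | tmul a y =>
      have e : a ⊗ₜ[k] y = mp K ι (a ⊗ₜ[k] 1) * inr k K B y := by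
        rw [mp_tmul, map_one]
        change _ = (a ⊗ₜ[k] 1) * (1 ⊗ₜ[k] y)
        rw [Algebra.TensorProduct.tmul_mul_tmul, mul_one, one_mul]
      rw [e]
      exact mul_mem (Subring.subset_closure (Set.mem_insert_of_mem _ ⟨_, rfl⟩)) (h1 y)

theorem isG_box_DM4 {N : GM (tv K)} {M M' : GM 𝒜} {f : M.M →ₗ[A] M'.M} (hf : IsG f)
    {F : (gbox k N M).M →ₗ[K ⊗[k] A] (gbox k N M').M}
    (e : ∀ x y, F (gb k N M x y) = gb k N M' x (f y)) : IsG F := by
  intro γ z
  induction z using gbox_ind with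
  | h0 => simp only [map_zero]
  | h1 c x d y hx hy => rw [gbox_π, e, e, gbox_π, hf]
  | h2 x y hx hy => simp only [map_add, hx, hy]

theorem box_parts_DM4 (N : GM (tv K)) {M M' : GM 𝒜} {f : M.M →ₗ[A] M'.M} (hf : IsG f)
    {F : (gbox k N M).M →ₗ[K ⊗[k] A] (gbox k N M').M}
    (e : ∀ x y, F (gb k N M x y) = gb k N M' x (f y)) :
    ∃ (G : (gbox k N M').M →ₗ[K ⊗[k] A] (gbox k N (M'.quo _ hf.range)).M)
      (E : (gbox k N (M.sub _ hf.ker)).M →ₗ[K ⊗[k] A] (gbox k N M).M),
      IsG G ∧ Surjective G ∧ Exact F G ∧ IsG E ∧ Injective E ∧ Exact E F := by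
  obtain ⟨G, hG⟩ := exists_box_lin (k := k) (K := K) (N := N.M) (LinearMap.range f).mkQ
  obtain ⟨E, hE⟩ := exists_box_lin (k := k) (K := K) (N := N.M) (LinearMap.ker f).subtype
  obtain ⟨-, h2, h3⟩ := box_exact (k := k) (K := K) (N := N.M) (F := F) e hG
  obtain ⟨h4, -, h5⟩ := box_exact (k := k) (K := K) (N := N.M) (G := F) hE e
  exact ⟨G, E, isG_box_DM4 (isG_mkQ hf.range) hG, h2 (Submodule.mkQ_surjective _),
    h3 (LinearMap.exact_map_mkQ_range f), isG_box_DM4 (isG_subtype hf.ker) hE,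
    h4 (Submodule.injective_subtype _), h5 (LinearMap.exact_subtype_ker_map f)⟩

theorem gix_box {l : GM (tg k (tv K) 𝒜) → ℚ} (hl : GAdd l) (hE : ExtG k (tv K) 𝒜 l)
    {N : GM (tv K)} (hN : Module.Finite K N.M) {M M' : GM 𝒜} {f : M.M →ₗ[A] M'.M} (hf : IsG f)
    (hd : Fd f) {F : (gbox k N M).M →ₗ[K ⊗[k] A] (gbox k N M').M} (hF : IsG F)
    (e : ∀ x y, F (gb k N M x y) = gb k N M' x (f y)) : gix l hF = 0 := by
  obtain ⟨G, E, g1, g2, g3, e1, e2, e3⟩ := box_parts_DM4 N hf e
  have c1 := gbox_finite (k := k) (N := N) (M := M'.quo _ hf.range) hN hd.cok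
  have c2 := gbox_finite (k := k) (N := N) (M := M.sub _ hf.ker) hN hd.ker
  have hF' : Fd F := by
    constructor
    · refine Module.Finite.of_surjective
        (E.codRestrict (LinearMap.ker F) fun z => e3.apply_apply_eq_zero z) ?_
      rintro ⟨y, hy⟩
      obtain ⟨z, rfl⟩ := (e3 y).1 hy
      exact ⟨z, rfl⟩
    · exact Module.Finite.equiv ((G.quotKerEquivOfSurjective g2).symm.trans
        (Submodule.quotEquivOfEq _ _ g3.linearMap_ker_eq))
  rw [gix_eq hl hF hF' g1 g2 g3 e1 e2 fun y => (e3 y).symm, hE _ _ hN hd.cok, hE _ _ hN hd.ker,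
    sub_zero]

theorem Ad.extG [IsNoetherianRing A] [IsNoetherianRing B] [IsNoetherianRing (K ⊗[k] A)]
    [IsNoetherianRing (K ⊗[k] B)] (h : Ad ι.toRingHom 𝒜 ℬ t u) {l : GM (tg k (tv K) 𝒜) → ℚ}
    (hl : GAdd l) (hE : ExtG k (tv K) 𝒜 l) : ExtG k (tv K) ℬ ((h.tensor (K := K)).rl l) := by
  intro N M hN hM
  have hf := isG_mul h.hm h.deg M (add_zero u)
  obtain ⟨F, hF⟩ := exists_box_lin (k := k) (K := K) (N := N.M) (mulL ι.toRingHom M.M t)
  obtain ⟨J, hJ, hi, hs⟩ := exists_box_map (k := k) (K := K) (N := N.M)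
    (M := Cp ι.toRingHom M.M) (M' := M.M) ι
    { toFun := id, map_add' := fun _ _ => rfl, map_smul' := fun _ _ => rfl }
  have hπ : ∀ (w : ℤ) (γ : Unit × ℤ) (z : (gbox k N ((rsG h.hm M).shift w)).M),
      J ((gbox k N ((rsG h.hm M).shift w)).π γ z) = (gbox k N M).π (((), w) + γ) (J z) := by
    intro w γ z
    let J' : (gbox k N ((rsG h.hm M).shift w)).M →+ (gbox k N M).M := J.toAddMonoidHom
    change J' _ = (gbox k N M).π (((), w) + γ) (J' z)
    induction z using gbox_ind with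
    | h0 => simp only [map_zero]
    | h1 c x d y hx hy =>
      rw [gbox_π]
      exact (hJ _ _).trans ((congrArg ((gbox k N M).π (((), w) + γ)) (hJ x y)).trans
        (gbox_π (N := N) (M := M) (((), w) + γ) x y)).symm
    | h2 x y hx hy => simp only [map_add, hx, hy]
  have key : ∀ w : ℤ, IsRes (RingHom.id _) id (gbox k N ((rsG h.hm M).shift w))
      ((rsG (h.tensor (K := K)).hm (gbox k N M)).shift ((), w)) J.toAddMonoidHom := by
    intro w
    refine ⟨hi injective_id, fun a y => J.map_smulₛₗ a y, hπ w, fun c x => ?_⟩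
    obtain ⟨y, rfl⟩ := hs surjective_id x
    exact ⟨_, hπ w c y⟩
  have gF : IsG (M := gbox k N ((rsG h.hm M).shift 0)) (N := gbox k N ((rsG h.hm M).shift u)) F :=
    isG_box_DM4 hf hF
  have hc : ∀ z, J (F z) = inr k K B t • J z := by
    intro z
    refine Box.induction (p := fun z => J (F z) = inr k K B t • J z) z
      (by simp only [map_zero, smul_zero]) (fun x y => ?_) fun x y hx hy => ?_
    · rw [hF, hJ, hJ]
      have e := smul_bt (k := k) (K := K) (B := B) (M := M.M) (1 : K) t x y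
      rw [one_smul] at e
      exact e.symm
    · simp only [map_add, smul_add, hx, hy]
  have hT := h.tensor (K := K)
  refine (gix_congr hl (key 0) (key u) gF (isG_mul hT.hm hT.deg (gbox k N M) (add_zero _)) hc
    (hT.fd (X := (gbox k N M).M) (gbox_finite hN hM))).symm.trans ?_
  exact gix_box hl hE hN hf (h.fd hM) gF hF

end Pool.Agent.CXD
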