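import Pool.Agent.P.MP_2ce3e7_ag.DM1

/-! Differences along the shifts. -/

set_option linter.unusedSectionVars false
set_option linter.unusedVariables false

open Function

noncomputable section

namespace Pool.Agent.CXD

theorem fwd_scale (f : ℤ → ℚ) (n m : ℕ) (h : (fwdDiff (1 : ℤ))^[n + 1] f = 0) :
    (fwdDiff (m : ℤ))^[n] f = fun x => (m : ℚ) ^ n * (fwdDiff (1 : ℤ))^[n] f x := by
  have e : fwdDiff_aux.fwdDiffₗ ℤ ℚ (m : ℤ) =
      (∑ i ∈ Finset.range m, fwdDiff_aux.shiftₗ ℤ ℚ 1 ^ i) * fwdDiff_aux.fwdDiffₗ ℤ ℚ 1 := by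
    have e1 : fwdDiff_aux.fwdDiffₗ ℤ ℚ 1 = fwdDiff_aux.shiftₗ ℤ ℚ 1 - 1 :=
      (add_sub_cancel_right _ _).symm
    rw [e1, geom_sum_mul]
    refine LinearMap.ext fun g => funext fun y => ?_
    rw [LinearMap.sub_apply, Pi.sub_apply, fwdDiff_aux.shiftₗ_pow_apply, nsmul_one]
    rfl
  have hc : Commute (∑ i ∈ Finset.range m, fwdDiff_aux.shiftₗ ℤ ℚ 1 ^ i)
      (fwdDiff_aux.fwdDiffₗ ℤ ℚ 1) :=
    Commute.sum_left _ _ _ fun i _ =>
      (((Commute.refl _).add_left (Commute.one_left _)).pow_left i)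
  have h1 : fwdDiff_aux.shiftₗ ℤ ℚ 1 ((fwdDiff (1 : ℤ))^[n] f) = (fwdDiff (1 : ℤ))^[n] f := by
    rw [iterate_succ_apply'] at h
    exact (congrArg (· + (fwdDiff (1 : ℤ))^[n] f) h).trans (zero_add _)
  rw [← fwdDiff_aux.coe_fwdDiffₗ_pow, e, hc.mul_pow, Module.End.mul_apply,
    fwdDiff_aux.coe_fwdDiffₗ_pow]
  generalize (fwdDiff (1 : ℤ))^[n] f = g at h1
  have h2 : ∀ i : ℕ, (fwdDiff_aux.shiftₗ ℤ ℚ 1 ^ i) g = g := fun i => by
    rw [Module.End.pow_apply]
    exact iterate_fixed h1 i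
  have h3 : (∑ i ∈ Finset.range m, fwdDiff_aux.shiftₗ ℤ ℚ 1 ^ i) g = (m : ℤ) • g := by
    rw [LinearMap.sum_apply, Finset.sum_congr rfl fun i _ => h2 i, Finset.sum_const,
      Finset.card_range, natCast_zsmul]
  clear h
  induction n with
  | zero => simp
  | succ n ih =>
    rw [pow_succ, Module.End.mul_apply, h3, map_smul, ih]
    funext x
    simp only [Pi.smul_apply, zsmul_eq_mul, Int.cast_natCast]
    ring

variable {R Γ : Type} [CommRing R] [AddCommGroup Γ] {𝒜 : Γ → Set R}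

/-- iterated differences along the shifts -/
def dn (u : Γ) (a : ℤ) (n : ℕ) (l : GM 𝒜 → ℚ) (M : GM 𝒜) : ℚ :=
  (fwdDiff a)^[n] (fun x : ℤ => l (M.shift (x • u))) 0

variable {u : Γ} {l : GM 𝒜 → ℚ}

theorem dn_eq (a : ℤ) (n : ℕ) (M : GM 𝒜) : dn u a n l M = ∑ i ∈ Finset.range (n + 1),
    (((-1) ^ (n - i) * n.choose i : ℤ) : ℚ) * l (M.shift (((i : ℤ) * a) • u)) := by
  rw [dn, fwdDiff_iter_eq_sum_shift]
  refine Finset.sum_congr rfl fun i _ => ?_
  rw [zero_add, zsmul_eq_mul, nsmul_eq_mul]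

theorem GAdd.dn (hl : GAdd l) (a : ℤ) (n : ℕ) : GAdd (dn u a n l) := by
  rintro M N P hN ⟨f, g, hf, hg, hs⟩
  rw [dn_eq, dn_eq, dn_eq, ← Finset.sum_add_distrib]
  refine Finset.sum_congr rfl fun i _ => ?_
  rw [← mul_add, hl (M.shift _) (N.shift _) (P.shift _) hN
    ⟨f, g, fun d x => hf _ x, fun d x => hg _ x, hs⟩]

theorem top_DM5 [IsNoetherianRing R] {σ : Type} [DecidableEq σ] {z : σ → R}
    (hz : ∀ i, z i ∈ cl 𝒜 u) (hl : GAdd l) (hv : VnG ⊥ (Set.range z) l) (S : Finset σ) :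
    ∀ M : GM 𝒜, Module.Finite R M.M → (∀ i, i ∉ S → ∀ x : M.M, ∃ m : ℕ, z i ^ m • x = 0) →
      (fwdDiff (1 : ℤ))^[S.card] (fun x : ℤ => l (M.shift (x • u))) = 0 := by
  induction S using Finset.induction with
  | empty =>
    intro M hM hn
    funext x
    refine hv (M.shift (x • u)) hM kill_bot ?_
    rintro _ ⟨i, rfl⟩
    exact hn i (Finset.notMem_empty i)
  | insert j S hj ih =>
    intro M hM hn
    have hC : St M (LinearMap.range (LinearMap.lsmul R M.M (z j))) := (isG_lsmul (hz j)).range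
    have hD : St M (LinearMap.ker (LinearMap.lsmul R M.M (z j))) := by
      intro d x hx
      change z j • M.π d x = 0
      rw [← M.π_cl (hz j), show z j • x = 0 from hx, map_zero]
    have h1 := ih (M.quo _ hC) inferInstance fun i hi x => by
      obtain ⟨y, rfl⟩ := Submodule.mkQ_surjective _ x
      by_cases e : i = j
      · refine ⟨1, ?_⟩
        rw [pow_one, ← map_smul, Submodule.mkQ_apply, Submodule.Quotient.mk_eq_zero, e]
        exact ⟨y, rfl⟩
      · obtain ⟨m, hm⟩ := hn i (fun h => (Finset.mem_insert.1 h).elim e hi) y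
        exact ⟨m, by rw [← map_smul, hm, map_zero]⟩
    have h2 := ih (M.sub _ hD) inferInstance fun i hi x => by
      by_cases e : i = j
      · refine ⟨1, Subtype.ext ?_⟩
        rw [pow_one, e]
        exact x.2
      · obtain ⟨m, hm⟩ := hn i (fun h => (Finset.mem_insert.1 h).elim e hi) x.1
        exact ⟨m, Subtype.ext hm⟩
    have h3 : fwdDiff (1 : ℤ) (fun x : ℤ => l (M.shift (x • u))) +
        (fun x : ℤ => l ((M.sub _ hD).shift (x • u))) =
        fun x : ℤ => l ((M.quo _ hC).shift ((x + 1) • u)) := by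
      funext x
      have hf : IsG (M := M.shift (x • u)) (N := M.shift ((x + 1) • u))
          (LinearMap.lsmul R M.M (z j)) := by
        intro d y
        change z j • M.π (x • u + d) y = M.π ((x + 1) • u + d) (z j • y)
        rw [← M.π_cl (hz j), add_smul, one_smul, add_comm (x • u) u, add_assoc]
      exact eq_sub_iff_add_eq.1
        (hl.four (M := M.shift (x • u)) (N := M.shift ((x + 1) • u)) hM hM hf)
    have h4 := congrArg (fwdDiff (1 : ℤ))^[S.card] h3
    rw [fwdDiff_iter_add, h2, add_zero] at h4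
    rw [Finset.card_insert_of_notMem hj, iterate_succ_apply, h4]
    funext y
    exact (fwdDiff_iter_comp_add 1 (fun x : ℤ => l ((M.quo _ hC).shift (x • u))) 1 _ y).trans
      (congrFun h1 _)

theorem dn_top [IsNoetherianRing R] [Gd 𝒜] {σ : Type} [Fintype σ] {z : σ → R}
    (hz : ∀ i, z i ∈ cl 𝒜 u) (hl : GAdd l) (hv : VnG ⊥ (Set.range z) l) (M : GM 𝒜)
    (hM : Module.Finite R M.M) : dn u 1 (Fintype.card σ) l M = 0 := by
  classical
  exact congrFun (top_DM5 hz hl hv Finset.univ M hM fun i hi => absurd (Finset.mem_univ i) hi) 0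

end Pool.Agent.CXD
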