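import Pool.Agent.P.MP_2ce3e7_ag.DM2
import Pool.Agent.P.MP_2ce3e7_ag.DM5

/-! Reduction to families that are invariant under shifts. -/

set_option linter.unusedSectionVars false
set_option linter.unusedVariables false

open Function

noncomputable section

namespace Pool.Agent.CXD

variable {R Γ : Type} [CommRing R] [AddCommGroup Γ] {𝒜 : Γ → Set R} {u : Γ}

theorem shift_shift_DM5B {l : GM 𝒜 → ℚ} (hl : GAdd l) (M : GM 𝒜) (hM : Module.Finite R M.M)
    (a b : Γ) : l ((M.shift a).shift b) = l (M.shift (a + b)) :=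
  hl.congr (M := (M.shift a).shift b) (N := M.shift (a + b)) hM (f := LinearMap.id)
    (fun d x => by
      change M.π (a + (b + d)) x = M.π (a + b + d) x
      rw [add_assoc]) bijective_id

theorem dn_shift_DM5B {l : GM 𝒜 → ℚ} (hl : GAdd l) (M : GM 𝒜) (hM : Module.Finite R M.M)
    (a : ℤ) (n : ℕ) (y : ℤ) : dn u a n l (M.shift (y • u)) =
      (fwdDiff a)^[n] (fun x : ℤ => l (M.shift (x • u))) y := by
  have e : (fun x : ℤ => l ((M.shift (y • u)).shift (x • u))) =
      fun x : ℤ => (fun x : ℤ => l (M.shift (x • u))) (x + y) := by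
    funext x
    rw [shift_shift_DM5B hl M hM, ← add_zsmul, add_comm y x]
  have h := fwdDiff_iter_comp_add a (fun x : ℤ => l (M.shift (x • u))) y n 0
  rw [zero_add] at h
  rw [← h]
  exact congrArg (fun g => (fwdDiff a)^[n] g 0) e

theorem const_DM5B (g : ℤ → ℚ) (h : fwdDiff (1 : ℤ) g = 0) (y : ℤ) : g y = g 0 := by
  have h1 : ∀ x, g (x + 1) = g x := fun x => by
    have := congrFun h x
    simp only [fwdDiff, Pi.zero_apply] at this
    linarith
  induction y using Int.induction_on with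
  | zero => rfl
  | succ i ih => rw [h1, ih]
  | pred i ih => rw [← h1, sub_add_cancel, ih]

theorem res_shift_DM5B [IsNoetherianRing R] [Gd 𝒜] {φ : R →+* R} {μ : Γ →+ Γ}
    (hφ : Hm φ 𝒜 𝒜 μ) (hf : φ.Finite) {l : GM 𝒜 → ℚ} (hl : GAdd l) (W : GM 𝒜)
    (hW : Module.Finite R W.M) (w : Γ) :
    l ((res hφ 0 W).shift w) = l (res hφ 0 (W.shift (μ w))) := by
  obtain ⟨j, hj⟩ := isRes_ver hφ W
  obtain ⟨j', hj'⟩ := isRes_ver hφ (W.shift (μ w))
  have a1 : IsRes φ (fun c => μ w + μ c) ((res hφ 0 W).shift w) W j :=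
    ⟨hj.inj, hj.smul, fun c y => (hj.π (w + c) y).trans (by rw [map_add]),
      fun c x => (hj.sur (w + c) x).imp fun y hy => hy.trans (by rw [map_add])⟩
  have a2 : IsRes φ (fun c => μ w + μ c) (res hφ 0 (W.shift (μ w))) W j' :=
    ⟨hj'.inj, hj'.smul, hj'.π, hj'.sur⟩
  exact a1.val hl a2 (res_finite hφ hf (W.shift (μ w)) hW)

/-- `p` is any property that passes to combinations of shifts -/
theorem FamG.of_shi [IsNoetherianRing R] [Gd 𝒜] {σ : Type} [Fintype σ] {z : σ → R}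
    (hz : ∀ i, z i ∈ cl 𝒜 u) (hu : ∀ w : Γ, ∃ x : ℤ, w = x • u) {φ : R →+* R} {μ : Γ →+ Γ}
    (hφ : Hm φ 𝒜 𝒜 μ) (hf : φ.Finite) {m : ℕ} (hm : 0 < m) (hμ : μ u = m • u) {r : ℕ}
    {p : (GM 𝒜 → ℚ) → Prop} (hp : ∀ l n, GAdd l → p l → p (dn u 1 n l))
    (H : ∀ X : Set (GM 𝒜 → ℚ), FamG (res hφ 0) r m X → (∀ l ∈ X, Shi l) → (∀ l ∈ X, p l) →
      (∀ l ∈ X, VnG ⊥ (Set.range z) l) → ∀ l ∈ X, ∀ M : GM 𝒜, Module.Finite R M.M → l M = 0)
    {X : Set (GM 𝒜 → ℚ)} (hX : FamG (res hφ 0) r m X) (h1 : ∀ l ∈ X, p l)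
    (h2 : ∀ l ∈ X, VnG ⊥ (Set.range z) l) :
    ∀ l ∈ X, ∀ M : GM 𝒜, Module.Finite R M.M → l M = 0 := by
  have step : ∀ n : ℕ, (∀ l ∈ X, ∀ M : GM 𝒜, Module.Finite R M.M → dn u 1 (n + 1) l M = 0) →
      ∀ l ∈ X, ∀ M : GM 𝒜, Module.Finite R M.M → dn u 1 n l M = 0 := by
    intro n C
    have C' : ∀ l ∈ X, ∀ M : GM 𝒜, Module.Finite R M.M →
        (fwdDiff (1 : ℤ))^[n + 1] (fun x : ℤ => l (M.shift (x • u))) = 0 := fun l hl M hM => by
      funext y
      rw [← dn_shift_DM5B (hX.add l hl) M hM]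
      exact C l hl _ hM
    have hF : FamG (res hφ 0) r m (dn u 1 n '' X) := by
      refine hX.smap (dn u 1 n) (c := (m : ℚ) ^ n) (pow_pos (Nat.cast_pos.2 hm) n) rfl
        (fun l hl => (hX.add l hl).dn 1 n) ?_ ?_
      · intro l l₁ l₂ a b h W hW
        rw [dn_eq, dn_eq, dn_eq, Finset.mul_sum, Finset.mul_sum, ← Finset.sum_add_distrib]
        refine Finset.sum_congr rfl fun i _ => ?_
        rw [h (W.shift _) hW]
        ring
      · intro l hl W hW
        obtain ⟨l₁, hl₁, s, hs⟩ := hX.st l hl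
        have e1 : dn u 1 n l (res hφ 0 W) = dn u m n (fun M => l (res hφ 0 M)) W := by
          rw [dn_eq, dn_eq]
          refine Finset.sum_congr rfl fun i _ => ?_
          rw [res_shift_DM5B hφ hf (hX.add l hl) W hW, map_zsmul, hμ, mul_one, mul_zsmul,
            natCast_zsmul u m]
        have e2 : (fun x : ℤ => l (res hφ 0 (W.shift (x • u)))) =
            s • fun x : ℤ => l₁ (W.shift (x • u)) := by
          funext x
          exact hs _ hW
        have e3 : (fwdDiff (1 : ℤ))^[n + 1] (fun x : ℤ => l (res hφ 0 (W.shift (x • u)))) = 0 := by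
          rw [e2, fwdDiff_iter_const_smul, C' l₁ hl₁ W hW, smul_zero]
        rw [e1]
        exact congrFun (fwd_scale _ n m e3) 0
    intro l hl M hM
    refine H _ hF ?_ ?_ ?_ _ ⟨l, hl, rfl⟩ M hM
    · rintro _ ⟨l, hl, rfl⟩ M w hM
      obtain ⟨y, rfl⟩ := hu w
      rw [dn_shift_DM5B (hX.add l hl) M hM]
      refine const_DM5B _ ?_ y
      have h := C' l hl M hM
      rwa [Function.iterate_succ_apply'] at h
    · rintro _ ⟨l, hl, rfl⟩
      exact hp l n (hX.add l hl) (h1 l hl)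
    · rintro _ ⟨l, hl, rfl⟩ M hM hK hN
      rw [dn_eq]
      refine Finset.sum_eq_zero fun i _ => ?_
      rw [h2 l hl (M.shift _) hM hK hN, mul_zero]
  have all : ∀ k n : ℕ, n + k = Fintype.card σ →
      ∀ l ∈ X, ∀ M : GM 𝒜, Module.Finite R M.M → dn u 1 n l M = 0 := by
    intro k
    induction k with
    | zero =>
      intro n hn l hl M hM
      rw [add_zero] at hn
      rw [hn]
      exact dn_top hz (hX.add l hl) (h2 l hl) M hM
    | succ k ih => exact fun n hn => step n (ih (n + 1) (by omega))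
  intro l hl M hM
  have h0 : l (M.shift ((0 : ℤ) • u)) = 0 := all _ 0 (zero_add _) l hl M hM
  rw [← h0]
  exact (hX.add l hl).congr (M := M) (N := M.shift ((0 : ℤ) • u)) hM (f := LinearMap.id)
    (fun d x => by
      change M.π d x = M.π ((0 : ℤ) • u + d) x
      rw [zero_zsmul, zero_add]) bijective_id

end Pool.Agent.CXD
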