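import Pool.Agent.P.MP_2ce3e7_ag.DM2
import Pool.Agent.P.MP_2ce3e7_ag.DL1

/-! The grading of the polynomial ring. -/

set_option linter.unusedSectionVars false
set_option linter.unusedVariables false

open Function LaurentPolynomial

noncomputable section

namespace Pool.Agent.CXD

variable {k A : Type} [Field k] [CommRing A] [Algebra k A]

/-- the new variable has degree one -/
def px (𝒜 : ℤ → Set A) (d : ℤ) : Set (Polynomial A) :=
  {p | ∃ n : ℕ, ∃ a ∈ 𝒜 (d - n), p = Polynomial.C a * Polynomial.X ^ n}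

variable {𝒜 : ℤ → Set A} [Gd 𝒜]

theorem mem_px_DM6 {c d : ℤ} {a : A} (ha : a ∈ 𝒜 c) (n : ℕ) (e : d - n = c) :
    Polynomial.C a * Polynomial.X ^ n ∈ px 𝒜 d := ⟨n, a, e ▸ ha, rfl⟩

theorem C_mem_px_DM6 {c : ℤ} {a : A} (ha : a ∈ 𝒜 c) : Polynomial.C a ∈ px 𝒜 c := by
  simpa using mem_px_DM6 ha 0 (d := c) (by simp)

instance px_gd : Gd (px 𝒜) where
  one := by simpa using C_mem_px_DM6 (Gd.one (𝒜 := 𝒜))
  mul c d := by
    rintro _ ⟨n, a, ha, rfl⟩ _ ⟨m, b, hb, rfl⟩
    rw [mul_mul_mul_comm, ← map_mul, ← pow_add]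
    exact mem_px_DM6 (Gd.mul _ _ a ha b hb) _ (by push_cast; ring)
  gen := by
    refine eq_top_iff.2 fun p _ => ?_
    induction p using Polynomial.induction_on' with
    | add p q hp hq => exact add_mem (hp trivial) (hq trivial)
    | monomial n a =>
      refine Gd.ind 𝒜 (p := fun a => Polynomial.monomial n a ∈
        AddSubgroup.closure (⋃ c, px 𝒜 c)) ?_ (fun c a ha => ?_) (fun a b ha hb => ?_)
        (fun a ha => ?_) a
      · rw [map_zero]
        exact zero_mem _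
      · rw [← Polynomial.C_mul_X_pow_eq_monomial]
        exact AddSubgroup.subset_closure
          (Set.mem_iUnion.2 ⟨c + n, mem_px_DM6 ha n (add_sub_cancel_right _ _)⟩)
      · rw [map_add]
        exact add_mem ha hb
      · rw [map_neg]
        exact neg_mem ha

instance px_gk [Gk k 𝒜] : Gk k (px 𝒜) := ⟨fun c => C_mem_px_DM6 (Gk.alg c)⟩

theorem X_mem_px : (Polynomial.X : Polynomial A) ∈ px 𝒜 1 := by
  simpa using mem_px_DM6 (Gd.one (𝒜 := 𝒜)) 1 (d := 1) (by simp)

theorem ad_px : Ad (Polynomial.CAlgHom : A →ₐ[k] Polynomial A).toRingHom 𝒜 (px 𝒜)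
    Polynomial.X 1 := by
  refine ⟨⟨injective_id, fun c a ha => mem_cl (C_mem_px_DM6 ha)⟩, mem_cl X_mem_px,
    eq_top_iff.2 fun p _ => ?_⟩
  induction p using Polynomial.induction_on' with
  | add p q hp hq => exact add_mem (hp trivial) (hq trivial)
  | monomial n a =>
    rw [← Polynomial.C_mul_X_pow_eq_monomial]
    exact mul_mem (Subring.subset_closure (Or.inr ⟨a, rfl⟩))
      (pow_mem (Subring.subset_closure (Set.mem_insert _ _)) n)

theorem Co.px {θ : A →ₐ[k] A[T;T⁻¹]} (h : Co 𝒜 θ) :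
    ∃ θ' : Polynomial A →ₐ[k] (Polynomial A)[T;T⁻¹], Co (px 𝒜) θ' := by
  refine ⟨Polynomial.aevalTower ((AddMonoidAlgebra.mapAlgHom ℤ Polynomial.CAlgHom).comp θ)
    (C Polynomial.X * T 1), ⟨?_⟩⟩
  rintro c _ ⟨n, a, ha, rfl⟩
  have e : AddMonoidAlgebra.mapAlgHom ℤ (Polynomial.CAlgHom : A →ₐ[k] Polynomial A)
      (C a * T (c - n)) = C (Polynomial.C a) * T (c - n) :=
    map_C_mul_T (Polynomial.C : A →+* Polynomial A) a _
  rw [map_mul, map_pow, Polynomial.aevalTower_C, Polynomial.aevalTower_X, AlgHom.comp_apply,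
    h.co _ a ha, e, mul_pow, T_pow, mul_mul_mul_comm, ← T_add, ← map_pow, ← map_mul, mul_one,
    sub_add_cancel]

end Pool.Agent.CXD
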