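import Pool.Agent.P.MP_2ce3e7_ag.DG0
import Pool.Agent.P.MP_2ce3e7_ag.DL2
import Pool.Agent.P.MP_2ce3e7_ag.DM2B
import Pool.Agent.P.MP_2ce3e7_ag.DM3
import Pool.Agent.P.MP_2ce3e7_ag.DM4
import Pool.Agent.P.MP_2ce3e7_ag.DM5B
import Pool.Agent.P.MP_2ce3e7_ag.DM6

/-! Descent along the multiplicative group. -/

set_option linter.unusedSectionVars false
set_option linter.unusedVariables false

open Function LaurentPolynomial
open scoped TensorProduct

noncomputable section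

namespace Pool.Agent.CXD

variable {k K A σ : Type} [Field k] [Fintype k] [CommRing K] [Algebra k K] [IsNoetherianRing K]
  [CommRing A] [Algebra k A] [Algebra.FiniteType k A] [Fintype σ] {𝒜 : ℤ → Set A}
  {θ : A →ₐ[k] A[T;T⁻¹]} [Gd 𝒜] [Gk k 𝒜] {z : σ → A}

theorem ext_dn_DLT (u : Unit × ℤ) (l : GM (tg k (tv K) 𝒜) → ℚ) (n : ℕ) (hl : GAdd l)
    (hE : ExtG k (tv K) 𝒜 l) : ExtG k (tv K) 𝒜 (dn u 1 n l) := fun N M hN hM => by
  have h0 : ∀ w : Unit × ℤ, l ((gbox k N M).shift w) = 0 := fun w => by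
    refine Eq.trans (hl.congr (M := (gbox k N M).shift w) (N := gbox k N (M.shift w.2))
      (gbox_finite hN hM) (f := LinearMap.id) (fun d x => ?_) bijective_id)
      (hE N (M.shift w.2) hN hM)
    change (gbox k N M).π (w + d) x = (gbox k N (M.shift w.2)).π d x
    induction x using gbox_ind with
    | h0 => exact (map_zero _).trans (map_zero ((gbox k N (M.shift w.2)).π d)).symm
    | h2 x y hx hy =>
      exact (map_add _ x y).trans ((congrArg₂ (· + ·) hx hy).trans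
        (map_add ((gbox k N (M.shift w.2)).π d) x y).symm)
    | h1 c x e y hx hy =>
      exact (gbox_π (w + d) x y).trans (gbox_π (k := k) (N := N) (M := M.shift w.2) d x y).symm
  rw [dn_eq]
  exact Finset.sum_eq_zero fun i _ => by rw [h0, mul_zero]

theorem Co.td (h : Co 𝒜 θ) (hz : ∀ i, z i ∈ 𝒜 1) (hT : TQ k K A (Set.range z)) (r Q : ℕ) :
    TG k K 𝒜 z r Q := by
  have hn := noeth_tensor k K A
  have hn' := noeth_tensor k K (Polynomial A)
  have hn₁ : IsNoetherianRing A := Algebra.FiniteType.isNoetherianRing k A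
  have hd : ∀ i, inr k K A (z i) ∈ cl (tg k (tv K) 𝒜) ((), 1) := fun i =>
    tmul_mem_cl (mem_tv _ _) (mem_cl (hz i))
  intro X hX hE hv
  refine FamG.of_shi (u := ((), 1)) hd (fun w => ⟨w.2, Prod.ext rfl (mul_one w.2).symm⟩)
    (hm_Fr card_smul_eq_zero) (Fr_finite k K A) Fintype.card_pos rfl (p := ExtG k (tv K) 𝒜)
    (ext_dn_DLT _) ?_ hX hE hv
  clear hX hE hv X
  intro X hX hs hE hv
  obtain ⟨θ', h'⟩ := h.px
  let ψ : Polynomial A →ₐ[k] A := (Polynomial.aeval (1 : A)).restrictScalars k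
  have hψ : ∀ a, ψ (Polynomial.C a) = a := fun a => Polynomial.aeval_C _ a
  have hψX : ψ Polynomial.X = 1 := Polynomial.aeval_X _
  have hS := h'.pc_one (ψ := ψ) (fun a => ⟨_, hψ a⟩) X_mem_px hψX
  have hA := (ad_px (k := k) (𝒜 := 𝒜)).tensor (K := K)
  have hΨ : ∀ a, mp K ψ (mp K Polynomial.CAlgHom a) = a := fun a => by
    induction a using TensorProduct.induction_on with
    | zero => rw [map_zero, map_zero]
    | add x y hx hy => rw [map_add, map_add, hx, hy]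
    | tmul x y => exact congrArg (x ⊗ₜ[k] ·) (hψ y)
  have hF := hA.famG (hm_Fr card_smul_eq_zero) (hm_Fr card_smul_eq_zero) (Fr_finite k K A)
    (Fr_finite k K _) (fun a => (RingHom.congr_fun (mp_Fr _) a).symm) Fintype.card_pos
    (Fr_inr _) rfl hX hs
  obtain ⟨Θ, h1, h2, h3⟩ := h'.chart ψ hS hF
    (by rintro _ ⟨l, hl, rfl⟩; exact (ad_px (k := k)).extG (hX.add l hl) (hE l hl))
    (by
      rintro _ ⟨l, hl, rfl⟩
      rw [Set.image_singleton]
      exact hA.vn (hX.add l hl) (hs l hl) _)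
  have hN := hT.nul h1 (by rintro _ ⟨l, hl, rfl⟩; exact h2 l hl) (by
    rintro _ ⟨_, ⟨l, hl, rfl⟩, rfl⟩ P hP hf
    obtain ⟨L, j, hj⟩ := lau_exists_lat (h := h'.chR ψ (tv K))
      (W := GM.triv _ (K ⊗[k] A ⧸ P)) (pc_thR (K := K) hS) inferInstance
    rw [h3 _ ⟨l, hl, rfl⟩ _ L j hj]
    refine hA.rl_nil (hv l hl) L hj.fin (Nil.of_injective (lau_nil _
      (S' := Set.range fun i => inr k K A (z i)) ?_ ?_) j hj.inj)
    · rintro _ ⟨i, rfl⟩ x
      obtain ⟨x, rfl⟩ := Ideal.Quotient.mk_surjective x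
      refine ⟨1, ?_⟩
      rw [pow_one]
      exact Ideal.Quotient.eq_zero_iff_mem.2 (P.mul_mem_right _ (hf _ ⟨i, rfl⟩))
    · rintro _ ⟨_, ⟨i, rfl⟩, rfl⟩
      exact ⟨⟨_, hA.hm.mem_cl (hd i)⟩, i, (hΨ _).symm⟩)
  intro l hl M hM
  obtain ⟨L, j, hj, e⟩ := hA.rees (h'.chR ψ (tv K)) hΨ (congrArg ((1 : K) ⊗ₜ[k] ·) hψX) rfl
    (hX.add l hl) (hs l hl) M hM
  rw [← e, ← h3 _ ⟨l, hl, rfl⟩ M.M L j (by rwa [Set.image_singleton])]
  exact hN _ ⟨_, ⟨l, hl, rfl⟩, rfl⟩ _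

end Pool.Agent.CXD
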