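import Pool.Agent.P.MP_2ce3e7_ag.DLV1

/-! The degree of the Hilbert polynomial on the boundary. -/

set_option linter.unusedSectionVars false
set_option linter.unusedVariables false

open Function Filter

noncomputable section

namespace Pool.Agent.CXD

variable {A Γ ι₀ : Type} [CommRing A] [AddCommGroup Γ] {𝒜 : Γ → Set A} [Gd 𝒜] [UniqueSums Γ]
  [IsNoetherianRing A] {F : ℤ → GM 𝒜 → ℚ} {u : Γ} {σ : ι₀ → A}

theorem gadd_cfe (hF : ∀ t, GAdd (F t))
    (hP : ∀ M : GM 𝒜, Module.Finite A M.M → (fun t => F t M) ∈ PF atTop) (r : ℕ) :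
    GAdd fun M => cfe r fun t => F t M := by
  intro M N P hN hs
  obtain ⟨f, g, -, -, h1, h2, -⟩ := id hs
  refine (cfe_lin (a := 1) (b := 1) (hP M (Module.Finite.of_injective f h1))
    (hP P (Module.Finite.of_surjective g h2)) (Eventually.of_forall fun n => ?_)).trans ?_
  · rw [hF n M N P hN hs, one_mul, one_mul]
  · rw [one_mul, one_mul]

theorem Cyc.inj {C : GM 𝒜} {P : Ideal A} (h : Cyc C P) (hP : P.IsPrime) {z : A} (hz : z ∉ P) :
    Injective (LinearMap.lsmul A C.M z) := by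
  obtain ⟨d, x, -, hs, hx⟩ := h
  refine (injective_iff_map_eq_zero _).2 fun y hy => ?_
  obtain ⟨a, rfl⟩ := Submodule.mem_span_singleton.1 (hs ▸ Submodule.mem_top : y ∈ _)
  exact (hx a).2 ((hP.mem_or_mem ((hx _).1 ((mul_smul z a x).trans hy))).resolve_left hz)

theorem bdry_step (hF : ∀ t, GAdd (F t))
    (hP : ∀ M : GM 𝒜, Module.Finite A M.M → (fun t => F t M) ∈ PF atTop)
    (hu : ∀ t (M : GM 𝒜), F (t + 1) (M.shift (-u)) = F t M) (hσ : ∀ J, σ J ∈ cl 𝒜 0)
    (h0 : ∀ t (M : GM 𝒜), Module.Finite A M.M → (∀ J (x : M.M), σ J • x = 0) → F t M = 0)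
    {η : ι₀ → A} (hη : ∀ J, η J ∈ cl 𝒜 u) {P : Ideal A} (hp : P.IsPrime)
    (hrel : ∀ J J', σ J * η J' - σ J' * η J ∈ P) {m : ℕ}
    (ih : ∀ r, m ≤ r → ∀ M : GM 𝒜, Module.Finite A M.M → Kill P M.M →
      (∀ J (x : M.M), η J • x = 0) → (cfe r fun t => F t M) = 0) (r : ℕ) (hr : m + 1 ≤ r) :
    ZG (fun M => cfe r fun t => F t M) P := by
  intro C hC
  have hf := hC.finite
  have hk := hC.kill le_rfl
  by_cases h1 : ∀ J, σ J ∈ P
  · exact cfe_zero (Eventually.of_forall fun t => h0 t C hf fun J => hk _ (h1 J))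
  obtain ⟨J₀, h1⟩ := not_forall.1 h1
  by_cases h2 : η J₀ ∈ P
  · refine ih r (by omega) C hf hk fun J => hk _ ((hp.mem_or_mem ?_).resolve_left h1)
    simpa using P.add_mem (hrel J₀ J) (P.mul_mem_left (σ J) h2)
  have he : ∀ J (x : C.M), η J₀ • σ J • x = σ J₀ • η J • x := fun J x => by
    have := hk _ (hrel J J₀) x
    rwa [sub_smul, sub_eq_zero, mul_comm, mul_smul, mul_smul] at this
  have ha := isG_lsmul (M := C) (hη J₀)
  have hb : IsG (M := C) (N := C) (LinearMap.lsmul A C.M (σ J₀)) := fun d x => by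
    have := C.π_cl (hσ J₀) d x
    rw [zero_add] at this
    exact this.symm
  have s1 := St.comap hb ha.range
  have s2 := St.comap ha hb.range
  have ib := (hC.inj hp h1).comp (Submodule.injective_subtype
    ((LinearMap.range (LinearMap.lsmul A C.M (η J₀))).comap (LinearMap.lsmul A C.M (σ J₀))))
  obtain ⟨g, hg, hg'⟩ := lift_CWB (ha.comp (isG_subtype s2)) (hb.comp (isG_subtype s1)) ib
    fun y => y.2.elim fun x hx => ⟨⟨x, y.1, hx.symm⟩, hx⟩
  have hb' : Bijective g := ⟨fun y y' e => Subtype.ext (hC.inj hp h2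
    ((hg' y).symm.trans ((congrArg _ e).trans (hg' y')))),
    fun x => x.2.elim fun y hy => ⟨⟨y, x.1, hy.symm⟩, ib ((hg' _).trans hy)⟩⟩
  have hq : Module.Finite A (C.quo _ s1).M := inferInstanceAs (Module.Finite A (C.M ⧸ _))
  refine cfe_step (hP C hf) (hP _ hq) (fun t => ?_) (fun r hr => ih r hr _ hq
    (hk.of_surjective _ (Submodule.mkQ_surjective _)) fun J x => ?_) r hr
  · rw [← hu t C, hF _ _ C _ hf (ses_sub_quo s1), hF _ _ (C.shift (-u)) _ hf (ses_sub_quo s2),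
      (hF _).congr (inferInstanceAs (Module.Finite A (Submodule.comap _ _))) hg hb',
      h0 _ ((C.shift (-u)).quo _ s2) (inferInstanceAs (Module.Finite A (C.M ⧸ _))) fun J x => ?_]
    · ring
    · obtain ⟨x, rfl⟩ := Submodule.Quotient.mk_surjective _ x
      exact (Submodule.Quotient.mk_eq_zero _).2 ⟨η J • x, (he J x).symm⟩
  · obtain ⟨x, rfl⟩ := Submodule.Quotient.mk_surjective _ x
    exact (Submodule.Quotient.mk_eq_zero _).2 ⟨σ J • x, he J x⟩

theorem bdry (hF : ∀ t, GAdd (F t))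
    (hP : ∀ M : GM 𝒜, Module.Finite A M.M → (fun t => F t M) ∈ PF atTop)
    (hu : ∀ t (M : GM 𝒜), F (t + 1) (M.shift (-u)) = F t M) (hσ : ∀ J, σ J ∈ cl 𝒜 0)
    (h0 : ∀ t (M : GM 𝒜), Module.Finite A M.M → (∀ J (x : M.M), σ J • x = 0) → F t M = 0)
    {j : ℕ} {η : Fin j → ι₀ → A} (hη : ∀ i J, η i J ∈ cl 𝒜 u) {Z : Set A}
    (H : ∀ P : Ideal A, P.IsPrime → (∀ z ∈ Z, z ∈ P) → (∀ J, σ J ∈ P) ∨
      ((∀ i J J', σ J * η i J' - σ J' * η i J ∈ P) ∧ ((∀ i J, η i J ∈ P) → (∀ J, σ J ∈ P) ∨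
        ∀ C, Cyc C P → ∀ᶠ t in atTop, F t C = 0))) (r : ℕ) (hr : j ≤ r) :
    VnG ⊥ Z fun M => cfe r fun t => F t M := by
  have h1 : ∀ P : Ideal A, (∀ J, σ J ∈ P) → ∀ r, ZG (fun M => cfe r fun t => F t M) P :=
    fun P h r C hC => cfe_zero (Eventually.of_forall fun t =>
      h0 t C hC.finite fun J => hC.kill le_rfl _ (h J))
  have key : ∀ m ≤ j, ∀ P : Ideal A, P.IsPrime → (∀ z ∈ Z, z ∈ P) →
      (∀ i : Fin j, m ≤ i.1 → ∀ J, η i J ∈ P) → ∀ r, m ≤ r →
        ZG (fun M => cfe r fun t => F t M) P := fun m => by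
    induction m with
    | zero =>
      intro _ P hp hZ h2 r _
      rcases H P hp hZ with h | ⟨-, h⟩
      · exact h1 P h r
      · exact (h fun i => h2 i (Nat.zero_le _)).elim (h1 P · r) fun h C hC => cfe_zero (h C hC)
    | succ m ih =>
      intro hm P hp hZ h2
      rcases H P hp hZ with h | ⟨h, -⟩
      · exact fun r _ => h1 P h r
      refine bdry_step hF hP hu hσ h0 (hη ⟨m, hm⟩) hp (h _) fun r hr M hM hk h3 =>
        (gadd_cfe hF hP r).of_primes M hM fun P' hp' ha => ?_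
      have h4 := (kill_iff.1 hk).trans ha
      refine ih (by omega) P' hp' (fun z hz => h4 (hZ z hz)) (fun i hi J => ?_) r hr
      rcases hi.eq_or_lt with e | e
      · obtain rfl : i = ⟨m, hm⟩ := Fin.ext e.symm
        exact ha (Module.mem_annihilator.2 (h3 J))
      · exact h4 (h2 i e J)
  exact (gadd_cfe hF hP r).vn_of_primes fun P hp _ hZ =>
    key j le_rfl P hp hZ (fun i hi => absurd i.2 (by omega)) r hr

end Pool.Agent.CXD
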