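import Pool.Agent.P.MP_2ce3e7_ag.DL7
import Pool.Agent.P.MP_2ce3e7_ag.DL1

/-! Algebras generated in degree one over a ring. -/

set_option linter.unusedSectionVars false
set_option linter.unusedVariables false

open Function Filter LaurentPolynomial
open scoped TensorProduct

noncomputable section

namespace Pool.Agent.CXD

section
variable {B₀ B n : Type} [CommRing B₀] [CommRing B] [Fintype n]

/-- forms in the elements `x r` -/
def pg (ι : B₀ →+* B) (x : n → B) : ℕ → Set B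
  | 0 => Set.range ι
  | m + 1 => {a | ∃ b : n → B, (∀ r, b r ∈ pg ι x m) ∧ a = ∑ r, x r * b r}

/-- the grading by the degree in the elements `x r` -/
def pz (ι : B₀ →+* B) (x : n → B) (c : ℤ) : Set B := {a | ∃ m : ℕ, (m : ℤ) = c ∧ a ∈ pg ι x m}

variable {ι : B₀ →+* B} {x : n → B}

theorem pg_smul (c : B₀) {l : ℕ} {b : B} (hb : b ∈ pg ι x l) : ι c * b ∈ pg ι x l := by
  induction l generalizing b with
  | zero =>
    obtain ⟨d, rfl⟩ := hb
    exact ⟨c * d, map_mul _ _ _⟩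
  | succ l ih =>
    obtain ⟨d, hd, rfl⟩ := hb
    exact ⟨_, fun r => ih (hd r), by simp only [Finset.mul_sum, mul_left_comm]⟩

theorem pg_mul {m l : ℕ} {a b : B} (ha : a ∈ pg ι x m) (hb : b ∈ pg ι x l) :
    a * b ∈ pg ι x (l + m) := by
  induction m generalizing a with
  | zero =>
    obtain ⟨d, rfl⟩ := ha
    exact pg_smul d hb
  | succ m ih =>
    obtain ⟨d, hd, rfl⟩ := ha
    exact ⟨_, fun r => ih (hd r), by simp only [Finset.sum_mul, mul_assoc]⟩

theorem pz_lin (c : n → B₀) : ∑ r, ι (c r) * x r ∈ pz ι x 1 :=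
  ⟨1, rfl, _, fun r => ⟨c r, rfl⟩, by simp only [mul_comm]⟩

theorem pz_x (r : n) : x r ∈ pz ι x 1 := by
  classical
  have h := pz_lin (ι := ι) (x := x) (Pi.single r 1)
  rwa [Finset.sum_eq_single r (fun i _ hi => by rw [Pi.single_eq_of_ne hi, map_zero, zero_mul])
    (fun h => absurd (Finset.mem_univ r) h), Pi.single_eq_same, map_one, one_mul] at h

theorem gd_pz (h : ∀ a, ∃ f : MvPolynomial n B₀, a = MvPolynomial.eval₂ ι x f) : Gd (pz ι x) := by
  have hm : ∀ c d, ∀ a ∈ pz ι x c, ∀ b ∈ pz ι x d, a * b ∈ pz ι x (c + d) := by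
    rintro _ _ a ⟨m, rfl, ha⟩ b ⟨l, rfl, hb⟩
    exact ⟨l + m, by push_cast; ring, pg_mul ha hb⟩
  refine ⟨⟨0, rfl, 1, map_one _⟩, hm, eq_top_iff.2 fun a ha => ?_⟩
  obtain ⟨f, rfl⟩ := h a
  clear ha
  induction f using MvPolynomial.induction_on with
  | C b => exact AddSubgroup.subset_closure (Set.mem_iUnion.2 ⟨0, 0, rfl, b, by simp⟩)
  | add p q hp hq => rw [MvPolynomial.eval₂_add]; exact add_mem hp hq
  | mul_X p r hp =>
    rw [MvPolynomial.eval₂_mul, MvPolynomial.eval₂_X]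
    generalize MvPolynomial.eval₂ ι x p = a at hp
    induction hp using AddSubgroup.closure_induction with
    | mem a ha =>
      obtain ⟨c, hc⟩ := Set.mem_iUnion.1 ha
      exact AddSubgroup.subset_closure (Set.mem_iUnion.2 ⟨_, hm _ _ a hc _ (pz_x r)⟩)
    | zero => rw [zero_mul]; exact zero_mem _
    | add a b _ _ ha hb => rw [add_mul]; exact add_mem ha hb
    | neg a _ ha => rw [neg_mul]; exact neg_mem ha

theorem dz_pz : Dz ι (pz ι x) := by
  have key : ∀ m : ℕ, ∃ (κ : Type) (_ : Fintype κ) (F : κ → B), ∀ a ∈ pg ι x m,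
      ∃ b : κ → B₀, a = ∑ i, ι (b i) * F i := fun m => by
    induction m with
    | zero =>
      refine ⟨Unit, inferInstance, fun _ => 1, ?_⟩
      rintro _ ⟨b, rfl⟩
      exact ⟨fun _ => b, by simp⟩
    | succ m ih =>
      obtain ⟨κ, _, F, hF⟩ := ih
      refine ⟨n × κ, inferInstance, fun p => x p.1 * F p.2, ?_⟩
      rintro _ ⟨b, hb, rfl⟩
      choose β hβ using fun r => hF (b r) (hb r)
      refine ⟨fun p => β p.1 p.2, ?_⟩
      rw [Fintype.sum_prod_type]
      refine Finset.sum_congr rfl fun r _ => ?_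
      rw [hβ r, Finset.mul_sum]
      exact Finset.sum_congr rfl fun i _ => mul_left_comm _ _ _
  refine ⟨fun a => mem_cl ⟨0, rfl, a, rfl⟩, fun c => ?_⟩
  obtain ⟨κ, _, F, hF⟩ := key c.toNat
  refine ⟨κ, inferInstance, F, ?_⟩
  rintro a ⟨m, rfl, ha⟩
  exact hF a ha

theorem pg_pow {m : ℕ} {a : B} (ha : a ∈ pg ι x m) : a ∈ Ideal.span (Set.range x) ^ m := by
  induction m generalizing a with
  | zero => simp
  | succ m ih =>
    obtain ⟨b, hb, rfl⟩ := ha
    rw [pow_succ']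
    exact Ideal.sum_mem _ fun r _ => Ideal.mul_mem_mul (Ideal.subset_span ⟨r, rfl⟩) (ih (hb r))

theorem cl_prod {Γ σ : Type} [AddCommGroup Γ] {𝒜 : Γ → Set B} [Gd 𝒜] {u : Γ} {z : σ → B}
    (hz : ∀ i, z i ∈ cl 𝒜 u) (α : σ → ℕ) (s : Finset σ) :
    ∏ i ∈ s, z i ^ α i ∈ cl 𝒜 ((∑ i ∈ s, α i) • u) := by
  classical
  induction s using Finset.induction_on with
  | empty => simpa using cl_one
  | insert a s ha ih =>
    rw [Finset.prod_insert ha, Finset.sum_insert ha, add_smul]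
    exact cl_mul (cl_pow (hz a) _) ih

open MvPolynomial in
theorem mono_indep {σ κ : Type} [Fintype σ] [Fintype κ] (s : B) {α : κ → σ → ℕ} (hα : Injective α)
    (c : κ → B) (h : ∑ a, MvPolynomial.C (c a) *
      ∏ i, (MvPolynomial.C s * X i : MvPolynomial σ B) ^ α a i = 0) (a : κ) :
    c a * s ^ ∑ i, α a i = 0 := by
  classical
  have e : ∀ a, MvPolynomial.C (c a) * ∏ i, (MvPolynomial.C s * X i : MvPolynomial σ B) ^ α a i =
      monomial (Finsupp.equivFunOnFinite.symm (α a)) (c a * s ^ ∑ i, α a i) := fun a => by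
    rw [monomial_eq, Finsupp.prod_fintype _ _ fun _ => pow_zero _]
    simp only [mul_pow, Finset.prod_mul_distrib, Finset.prod_pow_eq_pow_sum, map_mul, map_pow,
      mul_assoc, Finsupp.equivFunOnFinite_symm_apply_apply]
  have h1 := congrArg (coeff (Finsupp.equivFunOnFinite.symm (α a))) h
  rwa [Finset.sum_congr rfl fun a _ => e a, coeff_sum, Finset.sum_eq_single a (fun b _ hb => by
    rw [coeff_monomial, if_neg fun h2 => hb (hα (Finsupp.equivFunOnFinite.symm.injective h2))])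
    (fun h => absurd (Finset.mem_univ a) h), coeff_monomial, if_pos rfl] at h1

end

variable {k K B₀ B n : Type} [Field k] [CommRing K] [Algebra k K] [CommRing B₀] [Algebra k B₀]
  [CommRing B] [Algebra k B] [Fintype n] {ι : B₀ →ₐ[k] B} {x : n → B}

instance : Gk k (pz ι.toRingHom x) := ⟨fun c => ⟨0, rfl, algebraMap k B₀ c, ι.commutes c⟩⟩

theorem co_pz {θ : B →ₐ[k] B[T;T⁻¹]} (h0 : ∀ b, θ (ι b) = C (ι b))
    (h1 : ∀ r, θ (x r) = C (x r) * T 1) : Co (pz ι.toRingHom x) θ := by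
  refine ⟨?_⟩
  rintro _ a ⟨m, rfl, ha⟩
  induction m generalizing a with
  | zero =>
    obtain ⟨b, rfl⟩ := ha
    exact (h0 b).trans (mul_one _).symm
  | succ m ih =>
    obtain ⟨b, hb, rfl⟩ := ha
    rw [map_sum, map_sum, Finset.sum_mul]
    refine Finset.sum_congr rfl fun r _ => ?_
    rw [map_mul, map_mul, h1, ih _ (hb r), Nat.cast_succ, T_add]
    ring

theorem pz_vanish [Gd (pz ι.toRingHom x)] {M : GM (tg k (tv K) (pz ι.toRingHom x))}
    (hM : Module.Finite (K ⊗[k] B) M.M) (hx : ∀ r (p : M.M), inr k K B (x r) • p = 0) :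
    ∀ᶠ t in atTop, ∀ p, M.π (ud t) p = 0 := by
  have h1 := M.vanish hM (AddMonoidHom.snd Unit ℤ) (n := 1)
    (I := (Ideal.span (Set.range x)).map (inr k K B)) (fun n γ hn a ha => ?_) ?_
  · exact h1.mono fun n hn => hn (ud n) rfl
  · obtain ⟨a, -, b, ⟨m, e, hb⟩, rfl⟩ := ha
    have hn' : (n : ℤ) ≤ γ.2 := hn
    rw [← tmul_CWN3, ← Ideal.map_pow]
    exact Ideal.mul_mem_left _ _ (Ideal.mem_map_of_mem _
      (Ideal.pow_le_pow_right (show n ≤ m by omega) (pg_pow hb)))
  · rw [pow_one, kill_iff, Ideal.map_le_iff_le_comap, Ideal.span_le]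
    rintro _ ⟨r, rfl⟩
    exact Module.mem_annihilator.2 (hx r)

end Pool.Agent.CXD
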