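import Pool.Agent.P.MP_2ce3e7_ag.DLT
import Pool.Agent.P.MP_2ce3e7_ag.DLV2
import Pool.Agent.P.MP_2ce3e7_ag.DLV3

/-! Adding a vector. -/

set_option linter.unusedSectionVars false
set_option linter.unusedVariables false

open Function Filter LaurentPolynomial
open scoped TensorProduct

noncomputable section

namespace Pool.Agent.CXD

variable {k K B₀ B n ι₀ ι₁ : Type} [Field k] [Fintype k] [CommRing K] [Algebra k K]
  [IsNoetherianRing K] [CommRing B₀] [Algebra k B₀] [Algebra.FiniteType k B₀] [CommRing B]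
  [Algebra k B] [Algebra.FiniteType k B] [Fintype n] [Finite ι₀] [Finite ι₁]

/-- a linear form -/
def lfm (ι : B₀ →ₐ[k] B) (x : n → B) (c : n → B₀) : B := ∑ r, ι (c r) * x r

theorem TQ.vs (ι : B₀ →ₐ[k] B) (x : n → B) (θ : B →ₐ[k] B[T;T⁻¹])
    (h0 : ∀ b, θ (ι b) = C (ι b)) (h1 : ∀ r, θ (x r) = C (x r) * T 1)
    (hgen : ∀ a, ∃ f : MvPolynomial n B₀, a = MvPolynomial.eval₂ ι.toRingHom x f) {j : ℕ}
    (s : ι₀ → B₀) (μ : ι₁ → n → B₀) (η : Fin j → ι₀ → n → B₀) (b : n → Fin j → B₀)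
    (hsec : ∀ J, ∃ (ψ : B →ₐ[k] MvPolynomial (Fin (j + 1)) B₀) (I : Fin (j + 1) → n),
      (∀ a, ψ (ι a) = MvPolynomial.C a) ∧
        ∀ i, ψ (x (I i)) = MvPolynomial.C (s J) * MvPolynomial.X i)
    (hrel : ∀ P : Ideal B, P.IsPrime → (∀ m, lfm ι x (μ m) ∈ P) → (∀ J, ι (s J) ∈ P) ∨
      ((∀ i J J', ι (s J) * lfm ι x (η i J') - ι (s J') * lfm ι x (η i J) ∈ P) ∧
        ∀ J r, ι (s J) * x r - ∑ i, ι (b r i) * lfm ι x (η i J) ∈ P))
    (hT : TQ k K B (Set.range fun m => lfm ι x (μ m))) : TQ k K B₀ (Set.range s) := by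
  classical
  refine TQ.of fun Y hY hE hv => ?_
  have := noeth_tensor k K B₀
  have := noeth_tensor k K B
  have : IsNoetherianRing B₀ := Algebra.FiniteType.isNoetherianRing k B₀
  have := Fintype.ofFinite ι₁
  have := gd_pz hgen
  have hco := co_pz h0 h1
  have dz : Dz ι.toRingHom (pz ι.toRingHom x) := dz_pz
  have dx : ∀ r, inr k K B (x r) ∈ cl (tg k (tv K) (pz ι.toRingHom x)) (ud 1) := fun r =>
    tmul_mem_cl cl_one (mem_cl (pz_x r))
  let F : Val (K ⊗[k] B₀) → ℤ → GM (tg k (tv K) (pz ι.toRingHom x)) → ℚ := fun χ t =>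
    slv dz.tensor χ (ud t)
  have hu : ∀ χ t M, F χ (t + 1) (M.shift (-ud 1)) = F χ t M := fun χ t M =>
    slv_shift _ (congrArg ud (by simp))
  have hz : ∀ χ, IsAdd χ ⊥ → ∀ M, Module.Finite (K ⊗[k] B) M.M →
      (∀ r (p : M.M), inr k K B (x r) • p = 0) → ∀ᶠ t in atTop, F χ t M = 0 :=
    fun χ hχ M hM h => (pz_vanish hM h).mono fun t ht => by
      have := prt_sub (h := dz.tensor) ht
      exact hχ.zero _
  have hP : ∀ χ, IsAdd χ ⊥ → ∀ M, Module.Finite (K ⊗[k] B) M.M → (fun t => F χ t M) ∈ PF atTop :=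
    fun χ hχ => hilb itg_atTop (F χ) (fun t => gadd_slv hχ _) (fun t M _ => hu χ t M)
      (Set.finite_range fun r => inr k K B (x r)) (by rintro _ ⟨r, rfl⟩; exact dx r)
      fun M hM h => pf_const (hz χ hχ M hM fun r => h _ ⟨r, rfl⟩)
  have key : ∀ r, j ≤ r → ∀ χ ∈ Y, ∀ M, Module.Finite (K ⊗[k] B) M.M →
      (cfe r fun t => F χ t M) = 0 := fun r hr χ hχ => by
    refine hco.td (fun m => pz_lin (μ m)) hT 0 0 _ (hY.famK.coef F r
      (c := (Fintype.card k : ℚ) ^ r) (pow_pos (by exact_mod_cast Fintype.card_pos) r) rfl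
      (fun c c₁ c₂ a b e M hM t => ?_) (fun c hc => hP c (hY.add c hc))
      (fun c hc t => gadd_slv (hY.add c hc) _) fun c hc M hM => ?_) ?_ ?_ _ ⟨χ, hχ, rfl⟩
    · have := prt_finite dz.tensor hM
      exact e _ kill_bot
    · obtain ⟨J, hJ⟩ := isRes_ver (hm_Fr (k := k) (𝒜 := tv K) card_smul_eq_zero) M
      exact cfe_scale (hP _ (isAdd_push _ hY.fin (hY.add c hc) bot_le) M hM) Fintype.card_pos
        fun t => slv_res (hY.add c hc) (mp_Fr ι).symm hJ (res_finite _ (Fr_finite k K B) M hM)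
          (Prod.ext rfl (nsmul_eq_mul _ _))
    · rintro _ ⟨c, hc, rfl⟩ N M hN hM
      exact cfe_zero (Eventually.of_forall fun t => slv_box dz (hY.add c hc) (hE c hc) hN hM t)
    · rintro _ ⟨c, hc, rfl⟩
      refine bdry (σ := fun J => inr k K B (ι (s J))) (η := fun i J => inr k K B (lfm ι x (η i J)))
        (fun t => gadd_slv (hY.add c hc) _) (hP c (hY.add c hc)) (hu c)
        (fun J => dz.tensor.mem (inr k K B₀ (s J))) (fun t M hM h => ?_)
        (fun i J => tmul_mem_cl cl_one (mem_cl (pz_lin _))) (fun P hp hZ => ?_) r hr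
      · have := prt_finite dz.tensor hM
        refine val_of_primes (hY.add c hc) _ kill_bot fun P hp hle => hv c hc P hp ?_
        rintro _ ⟨J, rfl⟩
        exact hle (Module.mem_annihilator.2 fun p => pv_ext (h J _))
      · refine (hrel (P.comap (inr k K B)) (hp.comap _) fun m => hZ _ ⟨m, rfl⟩).imp_right
          fun h => ⟨fun i J J' => by simpa only [Ideal.mem_comap, map_sub, map_mul] using h.1 i J J',
            fun h2 => or_iff_not_imp_left.2 fun h3 C hC => ?_⟩
        obtain ⟨J, h3⟩ := not_forall.1 h3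
        refine hz c (hY.add c hc) C hC.finite fun r => hC.kill le_rfl _ ?_
        have h4 := (P.comap (inr k K B)).add_mem (h.2 J r)
          (Ideal.sum_mem _ fun i (_ : i ∈ Finset.univ) => Ideal.mul_mem_left _ (ι (b r i)) (h2 i J))
        rw [sub_add_cancel, Ideal.mem_comap, map_mul] at h4
        exact (hp.mem_or_mem h4).resolve_left h3
  intro χ hχ M _ _ _
  refine val_of_primes (hY.add χ hχ) M kill_bot fun P hp h => ?_
  clear h
  induction P using IsNoetherian.induction with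
  | hgt P ih =>
  by_cases h2 : ∀ J, inr k K B₀ (s J) ∈ P
  · exact hv χ hχ P hp (by rintro _ ⟨J, rfl⟩; exact h2 J)
  obtain ⟨J, h2⟩ := not_forall.1 h2
  obtain ⟨ψ, I, p0, p1⟩ := hsec J
  obtain ⟨W, w, w0, w1, w2⟩ := exists_quot_cyc (hco.chR (AlgHom.id k B) (tv K))
    (H := mp K ι '' P) (by rintro _ ⟨a, -, rfl⟩; exact ⟨_, dz.tensor.mem a⟩)
  have hW : Module.Finite _ W.M := ⟨⟨{w}, by simpa using w1⟩⟩
  let π := Ideal.Quotient.mkₐ k P
  let Φ : K ⊗[k] B →+* MvPolynomial (Fin (j + 1)) (K ⊗[k] B₀ ⧸ P) :=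
    (Algebra.TensorProduct.productMap ((IsScalarTower.toAlgHom k _ _).comp
      (π.comp Algebra.TensorProduct.includeLeft)) ((MvPolynomial.mapAlgHom
        (π.comp Algebra.TensorProduct.includeRight)).comp ψ)).toRingHom
  have f0 : ∀ a y, Φ (a ⊗ₜ y) = MvPolynomial.C (π (inl k K B₀ a)) *
      MvPolynomial.map (π.toRingHom.comp (inr k K B₀)) (ψ y) := fun _ _ => rfl
  have f1 : ∀ a, Φ (mp K ι a) = MvPolynomial.C (π a) := fun a => by
    induction a using TensorProduct.induction_on with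
    | zero => simp only [map_zero]
    | tmul a y =>
      rw [mp_tmul, f0, p0, MvPolynomial.map_C, ← tmul_CWN3, map_mul, map_mul]
      rfl
    | add u v hu hv => simp only [map_add, hu, hv]
  have f2 : ∀ i, Φ (inr k K B (x (I i))) =
      MvPolynomial.C (π (inr k K B₀ (s J))) * MvPolynomial.X i := fun i => by
    refine (f0 1 _).trans ?_
    rw [p1, map_one, map_one, map_one, one_mul, map_mul, MvPolynomial.map_C, MvPolynomial.map_X]
    rfl
  refine growth (hP χ (hY.add χ hχ) W hW) (fun r hr => key r hr χ hχ W hW) fun m => ?_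
  let α : (Fin j → Fin m) → Fin (j + 1) → ℕ := fun a =>
    Fin.cons ((j + 1) * m - ∑ i, (a i).1) fun i => (a i).1
  have a1 : Injective α := fun a a' e => funext fun i => Fin.ext (congrFun e i.succ)
  have a2 : ∀ a, ∑ i, α a i = (j + 1) * m := fun a => by
    have h3 : ∑ i, (a i).1 ≤ j * m := by
      simpa using Finset.sum_le_card_nsmul Finset.univ (fun i => (a i).1) m fun i _ => (a i).2.le
    rw [Fin.sum_univ_succ]
    exact Nat.sub_add_cancel (h3.trans (Nat.mul_le_mul_right _ (Nat.le_succ j)))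
  have := prt_finite dz.tensor hW
  refine (rank_ge (M := prt dz.tensor W (ud ((j + 1 : ℕ) * m))) (hY.add χ hχ) hp
    (fun P' hp' hlt => ih P' hlt hp') (fun a ha p => pv_ext ?_)
    (fun a => slm dz.tensor W (cl_prod (fun i => dx (I i)) (α a) Finset.univ)
      (congrArg ud (by simp [a2])) (⟨w, w0⟩ : prt dz.tensor W 0)) fun c hc a => ?_).imp
    fun ν h => ⟨by simpa using h.1, h.2⟩
  · obtain ⟨y, hy⟩ := Submodule.mem_span_singleton.1 (w1 ▸ Submodule.mem_top : pv p ∈ _)
    rw [pv_smul, ← hy, smul_comm, (w2 _).2 (Ideal.subset_span ⟨a, ha, rfl⟩), smul_zero, map_zero]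
  · have h3 : (∑ a, mp K ι (c a) * ∏ i, inr k K B (x (I i)) ^ α a i) • w = 0 := by
      have h4 := congrArg pv hc
      rw [map_sum, map_zero] at h4
      rw [Finset.sum_smul, ← h4]
      exact Finset.sum_congr rfl fun a _ => mul_smul _ _ _
    have h4 : Φ _ = 0 := (Ideal.span_le (I := RingHom.ker Φ)).2 (by
      rintro _ ⟨a, ha, rfl⟩
      exact (f1 a).trans ((congrArg _ (Ideal.Quotient.eq_zero_iff_mem.2 ha)).trans (map_zero _)))
      ((w2 _).1 h3)
    simp only [map_sum, map_mul, map_prod, map_pow, f1, f2] at h4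
    have h5 := mono_indep _ a1 (fun a => π (c a)) h4 a
    rw [← map_pow, ← map_mul] at h5
    exact (hp.mem_or_mem (Ideal.Quotient.eq_zero_iff_mem.1 h5)).resolve_right
      fun h6 => h2 (hp.mem_of_pow_mem _ h6)

end Pool.Agent.CXD
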