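import Pool.Agent.P.MP_2ce3e7_ag.DL6

/-! Degrees of eventual polynomials; a lower bound for the generic rank. -/

set_option linter.unusedSectionVars false
set_option linter.unusedVariables false

open Function Filter Polynomial

noncomputable section

namespace Pool.Agent.CXD

variable {f g : ℤ → ℚ}

theorem cfe_step (hf : f ∈ PF atTop) (hg : g ∈ PF atTop) (h : ∀ t, f (t + 1) - f t = g (t + 1))
    {m : ℕ} (h0 : ∀ r, m ≤ r → cfe r g = 0) (r : ℕ) (hr : m + 1 ≤ r) : cfe r f = 0 := by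
  obtain ⟨p, h1⟩ := hf
  obtain ⟨q, h2⟩ := hg
  have h3 : Tendsto (fun n : ℤ => n + 1) atTop atTop := tendsto_atTop_add_const_right _ _ tendsto_id
  have e1 : hp (fun t => g (t + 1)) = taylor 1 q :=
    hp_eq ((h3.eventually h2).mono fun t ht => by rw [ht, taylor_eval]; simp)
  have e2 : hp (fun t => g (t + 1)) = taylor 1 p - p :=
    hp_eq (((h3.eventually h1).and h1).mono fun t ht => by
      rw [← h, ht.1, ht.2, eval_sub, taylor_eval]; simp)
  have e3 : (taylor 1 p - p).degree < m := by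
    rw [← e2, e1, degree_taylor, degree_lt_iff_coeff_zero]
    exact fun r hr => (cfe_eq h2).symm.trans (h0 r hr)
  rw [cfe_eq h1]
  by_contra hc
  have h4 := le_natDegree_of_ne_zero hc
  obtain ⟨e, he⟩ : ∃ e, p.natDegree = e + 1 := ⟨p.natDegree - 1, by omega⟩
  have h5 := (degree_lt_iff_coeff_zero _ _).1 e3 e (by omega)
  have h6 : (hasseDeriv e p).natDegree ≤ 1 := (natDegree_hasseDeriv_le p e).trans (by omega)
  rw [coeff_sub, taylor_coeff, eq_X_add_C_of_natDegree_le_one h6, hasseDeriv_coeff,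
    hasseDeriv_coeff, add_comm 1 e, Nat.choose_succ_self_right, ← he] at h5
  have h7 : p.coeff p.natDegree ≠ 0 := mt leadingCoeff_eq_zero.1 fun h => hc (by simp [h])
  have h8 : (p.natDegree : ℚ) ≠ 0 := by rw [he]; positivity
  exact mul_ne_zero h8 h7 (by simpa using h5)

theorem growth (hf : f ∈ PF atTop) {j : ℕ} (h0 : ∀ r, j ≤ r → cfe r f = 0) {c : ℚ}
    (h : ∀ m : ℕ, ∃ ν : ℕ, m ^ j ≤ ν ∧ f ((j + 1 : ℕ) * m) = ν * c) : c = 0 := by
  by_contra hc
  obtain ⟨p, h1⟩ := hf
  let q := X * (C c⁻¹ * p.comp (C ((j + 1 : ℕ) : ℚ) * X))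
  have h2 : q.degree < (X ^ (j + 1) : ℚ[X]).degree := by
    rw [degree_X_pow, degree_lt_iff_coeff_zero]
    intro r hr
    obtain ⟨r, rfl⟩ : ∃ r', r = r' + 1 := ⟨r - 1, by omega⟩
    rw [coeff_X_mul, coeff_C_mul, comp_C_mul_X_coeff, ← cfe_eq h1, h0 r (by omega), zero_mul,
      mul_zero]
  have h3 := tendsto_atTop_of_leadingCoeff_nonneg (X ^ (j + 1) - q)
    (by rw [degree_sub_eq_left_of_degree_lt h2, degree_X_pow]; exact_mod_cast Nat.succ_pos j)
    (by rw [leadingCoeff_sub_of_degree_lt h2, leadingCoeff_X_pow]; exact zero_le_one)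
  have h4 : Tendsto (fun m : ℕ => ((j + 1 : ℕ) : ℤ) * m) atTop atTop :=
    Tendsto.const_mul_atTop' (by positivity) tendsto_natCast_atTop_atTop
  obtain ⟨m, h5, h6⟩ := ((h4.eventually h1).and
    ((h3.comp tendsto_natCast_atTop_atTop).eventually_gt_atTop 0)).exists
  obtain ⟨ν, h7, h8⟩ := h m
  have h9 : ((m : ℚ) ^ j) ≤ ν := by exact_mod_cast h7
  have e : q.eval (m : ℚ) = m * ν := by
    rw [h8] at h5
    simp only [q, eval_mul, eval_X, eval_C, eval_comp]
    push_cast at h5 ⊢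
    rw [← h5]
    field_simp
  simp only [comp_apply, eval_sub, eval_pow, eval_X, e] at h6
  rw [pow_succ] at h6
  nlinarith [mul_le_mul_of_nonneg_left h9 (Nat.cast_nonneg (α := ℚ) m)]

theorem val_pi {A : Type} [CommRing A] {χ : Val A} (hχ : IsAdd χ ⊥) (N : Type) [AddCommGroup N]
    [Module A N] [Module.Finite A N] (κ : Type) [Fintype κ] :
    χ.val (κ → N) = Fintype.card κ * χ.val N := by
  rw [hχ.congr (LinearEquiv.funCongrLeft A N (Fintype.equivFin κ).symm) kill_bot]
  induction Fintype.card κ with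
  | zero => rw [hχ.zero]; simp
  | succ d ih =>
    rw [← hχ.congr (Fin.consLinearEquiv A fun _ : Fin (d + 1) => N) kill_bot,
      hχ N (N × (Fin d → N)) (Fin d → N) (LinearMap.inl A _ _) (LinearMap.snd A _ _)
        LinearMap.inl_injective LinearMap.snd_surjective Function.Exact.inl_snd kill_bot, ih]
    push_cast
    ring

theorem rank_ge {A M κ : Type} [CommRing A] [IsNoetherianRing A] [AddCommGroup M] [Module A M]
    [Module.Finite A M] [Fintype κ] {χ : Val A} (hχ : IsAdd χ ⊥) {P : Ideal A} (hP : P.IsPrime)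
    (hv : Van χ P) (hk : Kill P M) (e : κ → M)
    (he : ∀ c : κ → A, ∑ a, c a • e a = 0 → ∀ a, c a ∈ P) :
    ∃ ν : ℕ, Fintype.card κ ≤ ν ∧ χ.val M = ν * χ.val (A ⧸ P) := by
  let F : (κ → A) →ₗ[A] M := Fintype.linearCombination A e
  let G : (κ → A) →ₗ[A] κ → A ⧸ P := (Submodule.mkQ P).compLeft κ
  have hG : Surjective G := (Submodule.mkQ_surjective P).comp_left
  have hker : LinearMap.ker G = LinearMap.ker F := by
    ext c
    refine ⟨fun h => Finset.sum_eq_zero fun a _ => hk _ ?_ _, fun h => funext fun a => ?_⟩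
    · exact (Submodule.Quotient.mk_eq_zero _).1 (congrFun h a)
    · exact (Submodule.Quotient.mk_eq_zero _).2 (he c h a)
  obtain ⟨ν, -, hν⟩ := exists_mult P hP (M ⧸ LinearMap.range F)
    (hk.of_surjective _ (Submodule.mkQ_surjective _))
  refine ⟨Fintype.card κ + ν, Nat.le_add_right _ _, ?_⟩
  rw [hχ _ M _ _ _ (Submodule.injective_subtype _) (Submodule.mkQ_surjective _)
    (LinearMap.exact_subtype_mkQ (LinearMap.range F)) kill_bot, hν χ hχ hv,
    hχ.congr (F.quotKerEquivRange.symm.trans ((Submodule.quotEquivOfEq _ _ hker.symm).trans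
      (G.quotKerEquivOfSurjective hG))) kill_bot, val_pi hχ]
  push_cast
  ring

end Pool.Agent.CXD
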