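import Pool.Agent.P.MP_2ce3e7_ag.CWA3

/-! The index of a graded map. -/

set_option linter.unusedSectionVars false
set_option linter.unusedVariables false

open Function

noncomputable section

namespace Pool.Agent.CXD

variable {R R' Γ Γ' : Type} [CommRing R] [CommRing R'] [AddCommGroup Γ] [AddCommGroup Γ']
  {𝒜 : Γ → Set R} {𝒜' : Γ' → Set R'}

/-- finite kernel and cokernel -/
structure Fd {X Y : Type} [AddCommGroup X] [Module R X] [AddCommGroup Y] [Module R Y]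
    (f : X →ₗ[R] Y) : Prop where
  ker : Module.Finite R (LinearMap.ker f)
  cok : Module.Finite R (Y ⧸ LinearMap.range f)

/-- cokernel minus kernel -/
def gix (l : GM 𝒜 → ℚ) {M N : GM 𝒜} {f : M.M →ₗ[R] N.M} (hf : IsG f) : ℚ :=
  l (N.quo _ hf.range) - l (M.sub _ hf.ker)

/-- invariant under shifts -/
def Shi (l : GM 𝒜 → ℚ) : Prop := ∀ (M : GM 𝒜) (w : Γ), Module.Finite R M.M → l (M.shift w) = l M

variable {l : GM 𝒜 → ℚ} {M N P M' N' P' : GM 𝒜}

theorem gix_eq (hl : GAdd l) {f : M.M →ₗ[R] N.M} (hf : IsG f) (hd : Fd f) {C D : GM 𝒜}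
    {g : N.M →ₗ[R] C.M} (hg : IsG g) (sg : Surjective g) (eg : ∀ y, g y = 0 ↔ ∃ x, f x = y)
    {i : D.M →ₗ[R] M.M} (hi : IsG i) (ii : Injective i) (ei : ∀ y, (∃ z, i z = y) ↔ f y = 0) :
    gix l hf = l C - l D := by
  have h1 := hd.cok
  have h2 := hd.ker
  let G : (N.M ⧸ LinearMap.range f) →ₗ[R] C.M :=
    (LinearMap.range f).liftQ g fun y hy => (eg y).2 hy
  have sG : Surjective G := fun c => by
    obtain ⟨y, rfl⟩ := sg c
    exact ⟨(LinearMap.range f).mkQ y, rfl⟩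
  have a1 := hl.congr (M := N.quo _ hf.range) (N := C) (Module.Finite.of_surjective G sG) (f := G)
    (fun d x => by
      obtain ⟨y, rfl⟩ := (LinearMap.range f).mkQ_surjective x
      exact hg d y)
    ⟨(injective_iff_map_eq_zero G).2 fun x hx => by
      obtain ⟨y, rfl⟩ := (LinearMap.range f).mkQ_surjective x
      exact (Submodule.Quotient.mk_eq_zero _).2 ((eg y).1 hx), sG⟩
  have a2 := hl.congr (M := D) (N := M.sub _ hf.ker) h2
    (f := i.codRestrict (LinearMap.ker f) fun z => (ei _).1 ⟨z, rfl⟩)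
    (fun d x => Subtype.ext (hi d x))
    ⟨fun x y h => ii (congrArg Subtype.val h), fun y => ((ei y.1).2 y.2).imp fun z => Subtype.ext⟩
  rw [gix, a1, a2]

theorem isRes_ker {φ : R →+* R'} {ν : Γ → Γ'} {X Y : GM 𝒜'} {a : M.M →+ X.M} {b : N.M →+ Y.M}
    (ha : IsRes φ ν M X a) (hb : IsRes φ ν N Y b) {f : M.M →ₗ[R] N.M} {g : X.M →ₗ[R'] Y.M}
    (hf : IsG f) (hg : IsG g) (hc : ∀ x, b (f x) = g (a x)) :
    ∃ j, IsRes φ ν (M.sub _ hf.ker) (X.sub _ hg.ker) j := by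
  refine ⟨(a.comp (LinearMap.ker f).subtype.toAddMonoidHom).codRestrict (LinearMap.ker g)
    fun x => ?_, fun x y h => Subtype.ext (ha.inj (congrArg Subtype.val h)),
    fun c y => Subtype.ext (ha.smul c y.1), fun c y => Subtype.ext (ha.π c y.1), fun c x => ?_⟩
  · exact (hc x.1).symm.trans ((congrArg b x.2).trans (map_zero b))
  · obtain ⟨y, hy⟩ := ha.sur c x.1
    refine ⟨⟨y, hb.inj ?_⟩, Subtype.ext hy⟩
    rw [hc, hy, hg, map_zero, LinearMap.mem_ker.1 x.2, map_zero]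

theorem isRes_cok {φ : R →+* R'} {ν : Γ → Γ'} {X Y : GM 𝒜'} {a : M.M →+ X.M} {b : N.M →+ Y.M}
    (ha : IsRes φ ν M X a) (hb : IsRes φ ν N Y b) {f : M.M →ₗ[R] N.M} {g : X.M →ₗ[R'] Y.M}
    (hf : IsG f) (hg : IsG g) (hc : ∀ x, b (f x) = g (a x)) :
    ∃ j, IsRes φ ν (N.quo _ hf.range) (Y.quo _ hg.range) j := by
  let j : (N.M ⧸ LinearMap.range f) →+ (Y.M ⧸ LinearMap.range g) :=
    QuotientAddGroup.map (LinearMap.range f).toAddSubgroup (LinearMap.range g).toAddSubgroup b (by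
      rintro _ ⟨x, rfl⟩
      exact ⟨a x, (hc x).symm⟩)
  refine ⟨j, (injective_iff_map_eq_zero j).2 fun y hy => ?_, fun c y => ?_, fun c y => ?_,
    fun c y => ?_⟩
  · obtain ⟨y, rfl⟩ := (LinearMap.range f).mkQ_surjective y
    obtain ⟨x, hx⟩ : b y ∈ LinearMap.range g := (Submodule.Quotient.mk_eq_zero _).1 hy
    obtain ⟨s, hs⟩ := N.sum_π y
    refine (Submodule.Quotient.mk_eq_zero _).2 (hs ▸ sum_mem fun c _ => ?_)
    obtain ⟨x', hx'⟩ := ha.sur c x
    exact ⟨x', hb.inj (by rw [hc, hx', hg, hx, hb.π])⟩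
  · obtain ⟨y, rfl⟩ := (LinearMap.range f).mkQ_surjective y
    exact congrArg (LinearMap.range g).mkQ (hb.smul c y)
  · obtain ⟨y, rfl⟩ := (LinearMap.range f).mkQ_surjective y
    exact congrArg (LinearMap.range g).mkQ (hb.π c y)
  · obtain ⟨y, rfl⟩ := (LinearMap.range g).mkQ_surjective y
    obtain ⟨x, hx⟩ := hb.sur c y
    exact ⟨(LinearMap.range f).mkQ x, congrArg (LinearMap.range g).mkQ hx⟩

theorem gix_congr (hl : GAdd l) {a : M.M →+ M'.M} {b : N.M →+ N'.M}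
    (ha : IsRes (RingHom.id R) id M M' a) (hb : IsRes (RingHom.id R) id N N' b)
    {f : M.M →ₗ[R] N.M} {g : M'.M →ₗ[R] N'.M} (hf : IsG f) (hg : IsG g)
    (hc : ∀ x, b (f x) = g (a x)) (hd : Fd g) : gix l hf = gix l hg := by
  have h0 : ∀ X : GM 𝒜, IsRes (RingHom.id R) id X X (AddMonoidHom.id _) := fun X =>
    ⟨injective_id, fun _ _ => rfl, fun _ _ => rfl, fun _ _ => ⟨_, rfl⟩⟩
  obtain ⟨i, hi⟩ := isRes_ker ha hb hf hg hc
  obtain ⟨j, hj⟩ := isRes_cok ha hb hf hg hc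
  rw [gix, gix, hi.val hl (h0 _) hd.ker, hj.val hl (h0 _) hd.cok]

end Pool.Agent.CXD
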