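import Pool.Agent.P.MP_2ce3e7_ag.DM1

/-! Additivity of the index. -/

set_option linter.unusedSectionVars false
set_option linter.unusedVariables false

open Function

noncomputable section

namespace Pool.Agent.CXD

variable {R Γ : Type} [CommRing R] [AddCommGroup Γ] {𝒜 : Γ → Set R} {l : GM 𝒜 → ℚ}
  {M N P M' N' P' : GM 𝒜} [IsNoetherianRing R]

theorem ex_DM1B (hl : GAdd l) {a : M.M →ₗ[R] N.M} {b : N.M →ₗ[R] P.M} (ha : IsG a) (hb : IsG b)
    (he : Exact a b) (hN : Module.Finite R N.M) :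
    l N = l (N.sub _ ha.range) + l (P.sub _ hb.range) :=
  hl _ _ _ hN ⟨(LinearMap.range a).subtype, b.rangeRestrict, isG_subtype _,
    fun d x => Subtype.ext (hb d x), Submodule.injective_subtype _, b.surjective_rangeRestrict,
    fun y => Subtype.ext_iff.trans ((he y).trans
      ⟨fun h => ⟨⟨y, h⟩, rfl⟩, fun ⟨z, hz⟩ => hz ▸ z.2⟩)⟩

theorem six_DM1B (hl : GAdd l) {a₁ : M.M →ₗ[R] N.M} {a₂ : N.M →ₗ[R] P.M} {a₃ : P.M →ₗ[R] M'.M}
    {a₄ : M'.M →ₗ[R] N'.M} {a₅ : N'.M →ₗ[R] P'.M} (g₁ : IsG a₁) (g₂ : IsG a₂) (g₃ : IsG a₃)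
    (g₄ : IsG a₄) (g₅ : IsG a₅) (i₁ : Injective a₁) (e₂ : Exact a₁ a₂) (e₃ : Exact a₂ a₃)
    (e₄ : Exact a₃ a₄) (e₅ : Exact a₄ a₅) (s₅ : Surjective a₅) (f₂ : Module.Finite R N.M)
    (f₃ : Module.Finite R P.M) (f₄ : Module.Finite R M'.M) (f₅ : Module.Finite R N'.M) :
    l N' - l N = (l M' - l M) + (l P' - l P) := by
  have h1 := hl.congr (M := M) (N := N.sub _ g₁.range) inferInstance (f := a₁.rangeRestrict)
    (fun d x => Subtype.ext (g₁ d x))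
    ⟨fun x y e => i₁ (congrArg Subtype.val e), a₁.surjective_rangeRestrict⟩
  have h2 := ex_DM1B hl g₁ g₂ e₂ f₂
  have h3 := ex_DM1B hl g₂ g₃ e₃ f₃
  have h4 := ex_DM1B hl g₃ g₄ e₄ f₄
  have h5 := ex_DM1B hl g₄ g₅ e₅ f₅
  have h6 := hl.congr (Module.Finite.of_surjective a₅ s₅) (isG_subtype g₅.range)
    ⟨Submodule.injective_subtype _, fun y => ⟨⟨y, s₅ y⟩, rfl⟩⟩
  linarith

theorem fin_DM1B {X Y Z : Type} [AddCommGroup X] [Module R X] [AddCommGroup Y] [Module R Y]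
    [AddCommGroup Z] [Module R Z] {a : X →ₗ[R] Y} {b : Y →ₗ[R] Z} (he : Exact a b)
    (hX : Module.Finite R X) (hZ : Module.Finite R Z) : Module.Finite R Y :=
  have := isNoetherian_of_range_eq_ker a b (LinearMap.exact_iff.1 he).symm
  inferInstance

theorem gix_ses (hl : GAdd l) {f : M.M →ₗ[R] N.M} {g : N.M →ₗ[R] P.M} {f' : M'.M →ₗ[R] N'.M}
    {g' : N'.M →ₗ[R] P'.M} (gf : IsG f) (gg : IsG g) (gf' : IsG f') (gg' : IsG g') (hs : Sx f g)
    (hs' : Sx f' g') {i₁ : M.M →ₗ[R] M'.M} {i₂ : N.M →ₗ[R] N'.M} {i₃ : P.M →ₗ[R] P'.M}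
    (g₁ : IsG i₁) (g₂ : IsG i₂) (g₃ : IsG i₃) (h₁ : ∀ y, f' (i₁ y) = i₂ (f y))
    (h₂ : ∀ y, g' (i₂ y) = i₃ (g y)) (k₁ : Fd i₁) (k₂ : Fd i₂) (k₃ : Fd i₃) :
    gix l g₂ = gix l g₁ + gix l g₃ := by
  obtain ⟨hf, hg, he⟩ := hs
  obtain ⟨hf', hg', he'⟩ := hs'
  let F1 : LinearMap.ker i₁ →ₗ[R] LinearMap.ker i₂ := f.restrict (fun y hy => by
    rw [LinearMap.mem_ker] at hy ⊢
    rw [← h₁, hy, map_zero])
  let F2 : LinearMap.ker i₂ →ₗ[R] LinearMap.ker i₃ := g.restrict (fun y hy => by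
    rw [LinearMap.mem_ker] at hy ⊢
    rw [← h₂, hy, map_zero])
  let G1 : (M'.M ⧸ LinearMap.range i₁) →ₗ[R] (N'.M ⧸ LinearMap.range i₂) :=
    Submodule.mapQ _ _ f' (by
      rintro _ ⟨y, rfl⟩
      exact ⟨f y, (h₁ y).symm⟩)
  let G2 : (N'.M ⧸ LinearMap.range i₂) →ₗ[R] (P'.M ⧸ LinearMap.range i₃) :=
    Submodule.mapQ _ _ g' (by
      rintro _ ⟨y, rfl⟩
      exact ⟨g y, (h₂ y).symm⟩)
  have k1 : f'.comp i₁ = i₂.comp f := LinearMap.ext h₁
  have k2 : g'.comp i₂ = i₃.comp g := LinearMap.ext h₂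
  have eF : Exact F1 F2 := by
    intro y
    constructor
    · intro hy
      have h0 : g y.1 = 0 := congrArg Subtype.val hy
      obtain ⟨z, hz⟩ := (he _).1 h0
      refine ⟨⟨z, ?_⟩, Subtype.ext hz⟩
      rw [LinearMap.mem_ker]
      apply hf'
      rw [h₁, hz, map_zero]
      exact y.2
    · rintro ⟨z, rfl⟩
      exact Subtype.ext (he.apply_apply_eq_zero z.1)
  have eG : Exact G1 G2 := by
    intro y
    obtain ⟨y, rfl⟩ := Submodule.Quotient.mk_surjective _ y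
    constructor
    · intro hy
      have h0 : g' y ∈ LinearMap.range i₃ := (Submodule.Quotient.mk_eq_zero _).1 hy
      obtain ⟨w, hw⟩ := h0
      obtain ⟨v, rfl⟩ := hg w
      obtain ⟨z, hz⟩ := (he' (y - i₂ v)).1 (by rw [map_sub, h₂, hw, sub_self])
      refine ⟨Submodule.Quotient.mk z, ?_⟩
      refine (Submodule.Quotient.eq _).2 ⟨-v, ?_⟩
      rw [hz, map_neg]
      abel
    · rintro ⟨z, hz⟩
      obtain ⟨z, rfl⟩ := Submodule.Quotient.mk_surjective _ z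
      rw [← hz]
      refine (Submodule.Quotient.mk_eq_zero _).2 ?_
      rw [he'.apply_apply_eq_zero z]
      exact zero_mem _
  have e2 := SnakeLemma.exact_δ'_right i₁ i₂ i₃ f g he f' g' he' k1 k2
    (LinearMap.ker i₂).subtype (LinearMap.exact_subtype_ker_map i₂)
    (LinearMap.ker i₃).subtype (LinearMap.exact_subtype_ker_map i₃)
    (LinearMap.range i₁).mkQ (LinearMap.exact_map_mkQ_range i₁) hg hf' F2
    (LinearMap.ext fun _ => rfl) (Submodule.subtype_injective _)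
  have e3 := SnakeLemma.exact_δ'_left i₁ i₂ i₃ f g he f' g' he' k1 k2
    (LinearMap.ker i₃).subtype (LinearMap.exact_subtype_ker_map i₃)
    (LinearMap.range i₁).mkQ (LinearMap.exact_map_mkQ_range i₁)
    (LinearMap.range i₂).mkQ (LinearMap.exact_map_mkQ_range i₂) hg hf' G1
    (LinearMap.ext fun _ => rfl) (Submodule.mkQ_surjective _)
  have iF : Injective F1 := fun y z hyz => Subtype.ext (hf (congrArg Subtype.val hyz))
  have sG : Surjective G2 := by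
    intro y
    obtain ⟨y, rfl⟩ := Submodule.Quotient.mk_surjective _ y
    obtain ⟨z, rfl⟩ := hg' y
    exact ⟨Submodule.Quotient.mk z, rfl⟩
  refine six_DM1B (M := M.sub _ g₁.ker) (N := N.sub _ g₂.ker) (P := P.sub _ g₃.ker)
    (M' := M'.quo _ g₁.range) (N' := N'.quo _ g₂.range) (P' := P'.quo _ g₃.range) hl
    (fun d x => Subtype.ext (gf d x.1)) (fun d x => Subtype.ext (gg d x.1)) (fun d x => ?_)
    (fun d x => ?_) (fun d x => ?_) iF eF e2 e3 eG sG k₂.ker k₃.ker k₁.cok k₂.cok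
  · obtain ⟨y, hy⟩ := hg x.1
    obtain ⟨z, hz⟩ := (he' (i₂ y)).1 (by rw [h₂, hy]; exact x.2)
    have a1 := SnakeLemma.δ'_eq i₁ i₂ i₃ f g he f' g' he' k1 k2
      (LinearMap.ker i₃).subtype (LinearMap.exact_subtype_ker_map i₃)
      (LinearMap.range i₁).mkQ (LinearMap.exact_map_mkQ_range i₁) hg hf' x y hy z hz
    have a2 := SnakeLemma.δ'_eq i₁ i₂ i₃ f g he f' g' he' k1 k2
      (LinearMap.ker i₃).subtype (LinearMap.exact_subtype_ker_map i₃)
      (LinearMap.range i₁).mkQ (LinearMap.exact_map_mkQ_range i₁) hg hf'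
      ((P.sub _ g₃.ker).π d x) (N.π d y) ((gg d y).trans (congrArg (P.π d) hy)) (M'.π d z)
      ((gf' d z).trans ((congrArg (N'.π d) hz).trans (g₂ d y).symm))
    exact a2.trans (congrArg ((M'.quo _ g₁.range).π d) a1).symm
  · obtain ⟨y, rfl⟩ := Submodule.Quotient.mk_surjective _ x
    exact congrArg (LinearMap.range i₂).mkQ (gf' d y)
  · obtain ⟨y, rfl⟩ := Submodule.Quotient.mk_surjective _ x
    exact congrArg (LinearMap.range i₃).mkQ (gg' d y)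

theorem gix_comp (hl : GAdd l) {u : M.M →ₗ[R] N.M} {v : N.M →ₗ[R] P.M} {w : M.M →ₗ[R] P.M}
    (gu : IsG u) (gv : IsG v) (gw : IsG w) (hw : ∀ x, w x = v (u x)) (ku : Fd u) (kv : Fd v) :
    Fd w ∧ gix l gw = gix l gu + gix l gv := by
  let a₁ : LinearMap.ker u →ₗ[R] LinearMap.ker w := Submodule.inclusion fun x hx => by
    rw [LinearMap.mem_ker] at hx ⊢
    rw [hw, hx, map_zero]
  let a₂ : LinearMap.ker w →ₗ[R] LinearMap.ker v := u.restrict fun x hx => (hw x).symm.trans hx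
  let a₃ : LinearMap.ker v →ₗ[R] N.M ⧸ LinearMap.range u :=
    (LinearMap.range u).mkQ ∘ₗ (LinearMap.ker v).subtype
  let a₄ : (N.M ⧸ LinearMap.range u) →ₗ[R] P.M ⧸ LinearMap.range w :=
    Submodule.mapQ _ _ v (by
      rintro _ ⟨y, rfl⟩
      exact ⟨y, hw y⟩)
  let a₅ : (P.M ⧸ LinearMap.range w) →ₗ[R] P.M ⧸ LinearMap.range v :=
    Submodule.mapQ _ _ LinearMap.id (by
      rintro _ ⟨y, rfl⟩
      exact ⟨u y, (hw y).symm⟩)
  have e₂ : Exact a₁ a₂ := fun y =>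
    ⟨fun h => ⟨⟨y.1, congrArg Subtype.val h⟩, rfl⟩, fun ⟨z, hz⟩ => hz ▸ Subtype.ext z.2⟩
  have e₃ : Exact a₂ a₃ := fun y => (Submodule.Quotient.mk_eq_zero _).trans
    ⟨fun ⟨x, hx⟩ => ⟨⟨x, (hw x).trans ((congrArg v hx).trans y.2)⟩, Subtype.ext hx⟩,
      fun ⟨z, hz⟩ => ⟨z.1, congrArg Subtype.val hz⟩⟩
  have e₄ : Exact a₃ a₄ := fun y => by
    obtain ⟨y, rfl⟩ := Submodule.Quotient.mk_surjective _ y
    refine (Submodule.Quotient.mk_eq_zero _).trans ⟨fun ⟨x, hx⟩ => ⟨⟨y - u x, ?_⟩, ?_⟩, ?_⟩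
    · rw [LinearMap.mem_ker, map_sub, ← hw, hx, sub_self]
    · exact (Submodule.Quotient.eq _).2 ⟨-x, by rw [map_neg]; exact (sub_sub_cancel_left _ _).symm⟩
    · rintro ⟨z, hz⟩
      obtain ⟨x, hx⟩ := (Submodule.Quotient.eq _).1 hz
      have hz0 : v z.1 = 0 := z.2
      have hx' : u x = z.1 - y := hx
      exact ⟨-x, by rw [map_neg, hw, hx', map_sub, hz0, zero_sub, neg_neg]⟩
  have e₅ : Exact a₄ a₅ := fun y => by
    obtain ⟨y, rfl⟩ := Submodule.Quotient.mk_surjective _ y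
    refine (Submodule.Quotient.mk_eq_zero _).trans ⟨fun ⟨x, hx⟩ =>
      ⟨Submodule.Quotient.mk x, congrArg (LinearMap.range w).mkQ hx⟩, ?_⟩
    rintro ⟨z, hz⟩
    obtain ⟨z, rfl⟩ := Submodule.Quotient.mk_surjective _ z
    obtain ⟨x, hx⟩ := (Submodule.Quotient.eq _).1 hz
    have hx' : w x = v z - y := hx
    exact ⟨z - u x, by rw [map_sub, ← hw, hx']; exact sub_sub_cancel _ _⟩
  have kw : Fd w := ⟨fin_DM1B e₂ ku.ker kv.ker, fin_DM1B e₅ ku.cok kv.cok⟩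
  refine ⟨kw, six_DM1B (M := M.sub _ gu.ker) (N := M.sub _ gw.ker) (P := N.sub _ gv.ker)
    (M' := N.quo _ gu.range) (N' := P.quo _ gw.range) (P' := P.quo _ gv.range) hl
    (fun d x => rfl) (fun d x => Subtype.ext (gu d x.1)) (fun d x => rfl)
    (fun d x => ?_) (fun d x => ?_) (Submodule.inclusion_injective _) e₂ e₃ e₄ e₅ (fun y => ?_)
    kw.ker kv.ker ku.cok kw.cok⟩
  · obtain ⟨y, rfl⟩ := Submodule.Quotient.mk_surjective _ x
    exact congrArg (LinearMap.range w).mkQ (gv d y)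
  · obtain ⟨y, rfl⟩ := Submodule.Quotient.mk_surjective _ x
    rfl
  · obtain ⟨y, rfl⟩ := Submodule.Quotient.mk_surjective _ y
    exact ⟨Submodule.Quotient.mk y, rfl⟩

end Pool.Agent.CXD
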