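import Pool.Agent.P.MP_2ce3e7_ag.DL4
import Pool.Agent.P.MP_2ce3e7_ag.DG0
import Pool.Agent.P.MP_2ce3e7_ag.CWN3

/-! Hypersurfaces that are linear in a group of variables. -/

set_option linter.unusedSectionVars false
set_option linter.unusedVariables false

open Function
open scoped TensorProduct

noncomputable section

namespace Pool.Agent.CXD

section
variable {A : Type} [CommRing A] {χ : Val A} {b b' : Ideal A} {φ : A →+* A} {Y : Set (Val A)}

theorem FamK.mono {Q : ℕ} (h : FamK φ Q b Y) (hb : b ≤ b') : FamK φ Q b' Y :=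
  ⟨fun χ hχ => (h.add χ hχ).mono hb,
    fun χ hχ => (h.st χ hχ).imp fun _ h => ⟨h.1, h.2.imp fun _ e M _ _ _ hk => e M (hk.mono hb)⟩,
    fun χ hχ ε hε => (h.div χ hχ ε hε).imp fun _ h =>
      ⟨h.1, h.2.imp fun _ e M _ _ _ hk => e M (hk.mono hb)⟩⟩

variable [IsNoetherianRing A]

theorem val_sub (h : IsAdd χ b) {J P : Ideal A} (hb : b ≤ J) (hJ : J ≤ P) {x : A}
    (h1 : ∀ f ∈ P, ∃ N : ℕ, x ^ N * f ∈ J)
    (h2 : ∀ Q : Ideal A, Q.IsPrime → J ≤ Q → x ∈ Q → χ.val (A ⧸ Q) = 0) :
    χ.val (A ⧸ J) = χ.val (A ⧸ P) := by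
  obtain ⟨N, hN⟩ := uniform_CYH2 P J x h1
  have k1 : Kill b (A ⧸ J) := kill_quot hb
  rw [h _ (A ⧸ J) (A ⧸ P) (LinearMap.ker (Submodule.factor hJ)).subtype (Submodule.factor hJ)
    (Submodule.injective_subtype _) (Submodule.factor_surjective _)
    (LinearMap.exact_subtype_ker_map _) k1,
    val_of_primes h _ (k1.of_injective _ (Submodule.injective_subtype _)) fun Q hQ hann => ?_,
    zero_add]
  have hk : ∀ y : A, (∀ f ∈ P, y * f ∈ J) → y ∈ Q := fun y hy => hann (Module.mem_annihilator.2 (by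
    rintro ⟨z, hz⟩
    obtain ⟨z, rfl⟩ := Submodule.Quotient.mk_surjective J z
    exact Subtype.ext ((Submodule.Quotient.mk_eq_zero J).2
      (hy z ((Submodule.Quotient.mk_eq_zero P).1 hz)))))
  exact h2 Q hQ (fun y hy => hk y fun f _ => J.mul_mem_right _ hy) (hQ.mem_of_pow_mem N (hk _ hN))

open Polynomial in
theorem val_coord {l d : A} (h : IsAdd χ (⊥ ⊔ Ideal.span {l})) (h0 : NuK ⊥ (rho l χ)) {P : Ideal A}
    (hP : P.IsPrime) (hl : l ∈ P) (hd : d ∉ P) (ρ : A →+* (A ⧸ P)[X])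
    (h1 : ∀ a, (ρ a).eval 0 = Ideal.Quotient.mk P a) (h2 : ρ l = C (Ideal.Quotient.mk P d) * X)
    (h3 : ρ d = C (Ideal.Quotient.mk P d)) (h4 : ∀ y, ∃ (N : ℕ) (a : A), ρ a = ρ d ^ N * y)
    (h5 : ∀ Q : Ideal A, Q.IsPrime → RingHom.ker ρ ≤ Q → l ∈ Q → d ∈ Q → χ.val (A ⧸ Q) = 0) :
    χ.val (A ⧸ P) = 0 := by
  have hn : ρ l ≠ 0 := by
    rw [h2]
    exact mul_ne_zero (C_ne_zero.2 fun e => hd (Ideal.Quotient.eq_zero_iff_mem.1 e)) X_ne_zero
  have hJ : RingHom.ker ρ ⊔ Ideal.span {l} ≤ P := sup_le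
    (fun a ha => Ideal.Quotient.eq_zero_iff_mem.1 (by rw [← h1, RingHom.mem_ker.1 ha, eval_zero]))
    ((Ideal.span_singleton_le_iff_mem P).2 hl)
  rw [← val_sub h (sup_le bot_le le_sup_right) hJ (x := d) (fun f hf => ?_) fun Q hQ hJ hd =>
    h5 Q hQ (le_sup_left.trans hJ) (hJ (Ideal.mem_sup_right (Ideal.mem_span_singleton_self l))) hd,
    ← rho_reg h (M := A ⧸ RingHom.ker ρ) kill_bot (fun y hy => ?_)
      (Submodule.factor le_sup_left) (Submodule.factor_surjective _) fun y => ?_]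
  · exact h0 _ kill_bot
  · obtain ⟨y, rfl⟩ := Submodule.Quotient.mk_surjective _ y
    have e : ρ (l * y) = 0 := (Submodule.Quotient.mk_eq_zero (RingHom.ker ρ)).1 hy
    rw [map_mul] at e
    exact (Submodule.Quotient.mk_eq_zero _).2 ((mul_eq_zero.1 e).resolve_left hn)
  · obtain ⟨y, rfl⟩ := Submodule.Quotient.mk_surjective _ y
    refine (Submodule.Quotient.mk_eq_zero _).trans ⟨fun hy => ?_, fun ⟨z, hz⟩ => ?_⟩
    · obtain ⟨u, hu, v, hv, rfl⟩ := Submodule.mem_sup.1 hy
      obtain ⟨w, rfl⟩ := Ideal.mem_span_singleton'.1 hv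
      refine ⟨Submodule.Quotient.mk w, (Submodule.Quotient.eq (RingHom.ker ρ)).2 ?_⟩
      change l * w - (u + w * l) ∈ _
      rw [mul_comm l w, sub_add_cancel_right]
      exact neg_mem hu
    · obtain ⟨z, rfl⟩ := Submodule.Quotient.mk_surjective _ z
      have e := (Submodule.Quotient.eq (RingHom.ker ρ)).1 hz
      rw [← sub_sub_cancel (l • z) y]
      exact sub_mem (Ideal.mem_sup_right (Ideal.mul_mem_right _ _
        (Ideal.mem_span_singleton_self l))) (Ideal.mem_sup_left e)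
  · obtain ⟨y, hy⟩ : X ∣ ρ f := X_dvd_iff.2 (by
      rw [coeff_zero_eq_eval_zero, h1, Ideal.Quotient.eq_zero_iff_mem.2 hf])
    obtain ⟨N, a, ha⟩ := h4 y
    refine ⟨N + 1, Submodule.mem_sup.2 ⟨d ^ (N + 1) * f - a * l, ?_, a * l,
      Ideal.mul_mem_left _ _ (Ideal.mem_span_singleton_self l), sub_add_cancel _ _⟩⟩
    rw [RingHom.mem_ker, map_sub, map_mul, map_mul, map_pow, hy, ha, h2, h3]
    ring

end

variable {k K B n : Type} [Field k] [Fintype k] [CommRing K] [Algebra k K] [IsNoetherianRing K]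
  [CommRing B] [Algebra k B] [Algebra.FiniteType k B] [Fintype n] {r Q : ℕ}

open MvPolynomial in
theorem exists_flow {R : Type} [CommRing R] [Algebra k R] (π : K ⊗[k] MvPolynomial n B →ₐ[k] R)
    (hπ : Surjective π) (D : n → B) (g : B) (j : n)
    (hl : π (inr k K _ (∑ i, X i * C (D i) + C g)) = 0) :
    ∃ ρ : K ⊗[k] MvPolynomial n B →+* Polynomial R, (∀ a, (ρ a).eval 0 = π a) ∧
      ρ (inr k K _ (∑ i, X i * C (D i) + C g)) =
        Polynomial.C (π (inr k K _ (C (D j)))) * Polynomial.X ∧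
      (∀ b, ρ (inr k K _ (C b)) = Polynomial.C (π (inr k K _ (C b)))) ∧
      ∀ y, ∃ (N : ℕ) (a : K ⊗[k] MvPolynomial n B), ρ a = ρ (inr k K _ (C (D j))) ^ N * y := by
  classical
  let π' := (Polynomial.CAlgHom : R →ₐ[k] Polynomial R).comp π
  let ρ₀ : MvPolynomial n B →ₐ[k] Polynomial R :=
    aevalTower ((π'.comp Algebra.TensorProduct.includeRight).comp
      (IsScalarTower.toAlgHom k B (MvPolynomial n B)))
      fun i => Polynomial.C (π (inr k K _ (X i))) + if i = j then Polynomial.X else 0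
  have r1 : ∀ b, ρ₀ (C b) = Polynomial.C (π (inr k K _ (C b))) := fun b => aevalTower_C _ _ b
  have r2 : ∀ i, ρ₀ (X i) = Polynomial.C (π (inr k K _ (X i))) +
      if i = j then Polynomial.X else 0 := fun i => aevalTower_X _ _ i
  let ρ := (Algebra.TensorProduct.productMap (π'.comp Algebra.TensorProduct.includeLeft)
    ρ₀).toRingHom
  have r3 : ∀ a b, ρ (a ⊗ₜ b) = Polynomial.C (π (inl k K _ a)) * ρ₀ b := fun _ _ => rfl
  have r4 : ∀ b, ρ (inr k K _ b) = ρ₀ b := fun b =>
    (r3 1 b).trans (by rw [map_one, map_one, map_one, one_mul])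
  have r5 : ρ (inr k K _ (∑ i, X i * C (D i) + C g)) =
      Polynomial.C (π (inr k K _ (C (D j)))) * Polynomial.X := by
    rw [r4, ← add_zero (_ * Polynomial.X), ← Polynomial.C_0, ← hl]
    simp only [map_add, map_sum, map_mul, r1, r2, add_mul, Finset.sum_add_distrib, ite_mul,
      zero_mul, Finset.sum_ite_eq', Finset.mem_univ, if_true]
    ring
  have r6 := fun b => (r4 (C b)).trans (r1 b)
  let 𝒯 : Subring (Polynomial R) :=
    { carrier := {y | ∃ N : ℕ, ρ (inr k K _ (C (D j))) ^ N * y ∈ ρ.range}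
      mul_mem' := by
        rintro a b ⟨N, h⟩ ⟨M, h'⟩
        exact ⟨N + M, by rw [pow_add, mul_mul_mul_comm]; exact mul_mem h h'⟩
      one_mem' := ⟨0, by rw [pow_zero, one_mul]; exact one_mem _⟩
      add_mem' := by
        rintro a b ⟨N, h⟩ ⟨M, h'⟩
        refine ⟨N + M, ?_⟩
        rw [mul_add, pow_add, mul_assoc _ _ b, mul_comm (_ ^ N), mul_assoc _ _ a]
        exact add_mem (mul_mem (pow_mem (ρ.mem_range_self _) _) h)
          (mul_mem (pow_mem (ρ.mem_range_self _) _) h')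
      zero_mem' := ⟨0, by rw [mul_zero]; exact zero_mem _⟩
      neg_mem' := by
        rintro a ⟨N, h⟩
        exact ⟨N, by rw [mul_neg]; exact neg_mem h⟩ }
  have t0 : ∀ a, ρ a ∈ 𝒯 := fun a => ⟨0, a, by rw [pow_zero, one_mul]⟩
  have t1 : Polynomial.X ∈ 𝒯 := ⟨1, _, by rw [r5, pow_one, r6]⟩
  have t2 : ∀ a, Polynomial.C (π a) ∈ 𝒯 ∧ (ρ a).eval 0 = π a := fun a => by
    induction a using TensorProduct.induction_on with
    | zero => simp only [map_zero, Polynomial.eval_zero, zero_mem, and_self]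
    | add u v hu hv =>
      rw [map_add, map_add, map_add, Polynomial.eval_add, hu.2, hv.2]
      exact ⟨add_mem hu.1 hv.1, rfl⟩
    | tmul a b =>
      have t3 : Polynomial.C (π (inr k K _ b)) ∈ 𝒯 ∧ (ρ₀ b).eval 0 = π (inr k K _ b) := by
        induction b using MvPolynomial.induction_on with
        | C b => exact ⟨r6 b ▸ t0 _, by rw [r1, Polynomial.eval_C]⟩
        | add u v hu hv =>
          rw [map_add, map_add, map_add, map_add, Polynomial.eval_add, hu.2, hv.2]
          exact ⟨add_mem hu.1 hv.1, rfl⟩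
        | mul_X u i hu =>
          rw [map_mul, map_mul, map_mul, map_mul, Polynomial.eval_mul, hu.2, r2]
          refine ⟨mul_mem hu.1 ?_, by split_ifs <;> simp⟩
          rw [eq_sub_of_add_eq ((r4 _).trans (r2 i)).symm]
          refine sub_mem (t0 _) ?_
          split_ifs
          exacts [t1, zero_mem _]
      have t4 := t0 (a ⊗ₜ 1)
      rw [r3, map_one, mul_one] at t4
      rw [r3, ← tmul_CWN3, map_mul, map_mul, Polynomial.eval_mul, Polynomial.eval_C, t3.2]
      exact ⟨mul_mem t4 t3.1, rfl⟩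
  refine ⟨ρ, fun a => (t2 a).2, r5, r6, fun y => ?_⟩
  change y ∈ 𝒯
  induction y using Polynomial.induction_on' with
  | add p q hp hq => exact add_mem hp hq
  | monomial m c =>
    obtain ⟨a, rfl⟩ := hπ c
    rw [← Polynomial.C_mul_X_pow_eq_monomial]
    exact mul_mem (t2 a).1 (pow_mem t1 m)

open MvPolynomial in
theorem TT.aff (D : n → B) (g : B) (h1 : TT k K B r Q)
    (h2 : TT k K (B ⧸ Ideal.span (insert g (Set.range D))) r Q) :
    TT k K (MvPolynomial n B ⧸ Ideal.span {∑ i, X i * C (D i) + C g}) r Q := by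
  classical
  have : Algebra.FiniteType k (MvPolynomial n B) :=
    Algebra.FiniteType.trans (S := B) inferInstance inferInstance
  have := noeth_tensor k K (MvPolynomial n B)
  have e : ∀ I : Ideal (MvPolynomial n B), RingHom.ker (Ideal.Quotient.mkₐ k I).toRingHom = I :=
    fun I => Ideal.mk_ker
  have t1 : TK k K (⊥ : Ideal (MvPolynomial n B)) := by
    have h := (tt_iff_tk (AlgHom.id k _) surjective_id).1 ((h1.cast r _).mv rfl n)
    rwa [(RingHom.injective_iff_ker_eq_bot _).1 injective_id] at h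
  have t2 : TK k K ((Ideal.span (insert g (Set.range D))).map (C : B →+* MvPolynomial n B)) := by
    let ψ : MvPolynomial n B →ₐ[k] MvPolynomial n (B ⧸ Ideal.span (insert g (Set.range D))) :=
      mapAlgHom (Ideal.Quotient.mkₐ k _)
    have hψ : Surjective ψ := map_surjective _ Ideal.Quotient.mk_surjective
    have h := (tt_iff_tk ψ hψ).1 ((h2.cast r _).mv rfl n)
    have e2 := ker_map (σ := n) (Ideal.Quotient.mk (Ideal.span (insert g (Set.range D))))
    rw [Ideal.mk_ker] at e2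
    exact e2 ▸ h
  rw [tt_iff_tk _ (Ideal.Quotient.mkₐ_surjective k _), e]
  set l : MvPolynomial n B := ∑ i, X i * C (D i) + C g with hl
  intro Y hY hE χ hχ
  rw [← bot_sup_eq (Ideal.span {l})] at hY hE
  have h0 := t1.rho hY hE χ hχ
  have hle : ⊥ ⊔ Ideal.span {l} ≤
      (Ideal.span (insert g (Set.range D))).map (C : B →+* MvPolynomial n B) :=
    sup_le bot_le ((Ideal.span_singleton_le_iff_mem _).2 (add_mem (sum_mem fun i _ =>
      Ideal.mul_mem_left _ _ (Ideal.mem_map_of_mem _ (Ideal.subset_span (Or.inr ⟨i, rfl⟩))))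
      (Ideal.mem_map_of_mem _ (Ideal.subset_span (Or.inl rfl)))))
  have hb := t2 Y (hY.mono (Ideal.map_mono hle))
    (fun c hc N M _ _ _ _ _ _ hk => hE c hc N M (hk.mono hle)) χ hχ
  have hA := hY.add χ hχ
  rw [Ideal.map_sup, Ideal.map_bot, Ideal.map_span, Set.image_singleton] at hA
  rw [Ideal.map_bot] at h0
  have key : ∀ (S : Finset n) (P : Ideal (K ⊗[k] MvPolynomial n B)), P.IsPrime →
      inr k K _ l ∈ P → (∀ i ∉ S, inr k K _ (C (D i)) ∈ P) →
      χ.val (K ⊗[k] MvPolynomial n B ⧸ P) = 0 := by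
    intro S
    induction S using Finset.induction_on with
    | empty =>
      intro P hP p1 p2
      refine hb _ (kill_quot ?_)
      rw [Ideal.map_map, Ideal.map_le_iff_le_comap, Ideal.span_le]
      rintro _ (rfl | ⟨i, rfl⟩)
      · rw [hl, map_add, map_sum] at p1
        exact (P.add_mem_iff_right (sum_mem fun i _ => by
          rw [map_mul]; exact P.mul_mem_left _ (p2 i (Finset.notMem_empty i)))).1 p1
      · exact p2 i (Finset.notMem_empty i)
    | insert j S hj ih =>
      intro P hP p1 p2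
      by_cases hd : inr k K _ (C (D j)) ∈ P
      · exact ih P hP p1 fun i hi => by
          by_cases hij : i = j
          · rw [hij]; exact hd
          · exact p2 i fun h => (Finset.mem_insert.1 h).elim hij hi
      obtain ⟨ρ, r1, r2, r3, r4⟩ := exists_flow (k := k) (K := K) (R := _ ⧸ P)
        (Ideal.Quotient.mkₐ k P) (Ideal.Quotient.mkₐ_surjective k P) D g j
        (Ideal.Quotient.eq_zero_iff_mem.2 p1)
      refine val_coord hA h0 hP p1 hd ρ r1 r2 (r3 _) r4 fun Q hQ q1 q2 q3 =>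
        ih Q hQ q2 fun i hi => ?_
      by_cases hij : i = j
      · rw [hij]; exact q3
      · exact q1 ((r3 _).trans (Polynomial.C_eq_zero.2 (Ideal.Quotient.eq_zero_iff_mem.2
          (p2 i fun h => (Finset.mem_insert.1 h).elim hij hi))))
  intro M _ _ _ hk
  rw [Ideal.map_span, Set.image_singleton] at hk
  refine val_of_primes hA M (by rwa [bot_sup_eq]) fun P hP hle => key Finset.univ P hP
    (hle (kill_iff.1 hk (Ideal.mem_span_singleton_self _))) fun i hi => absurd (Finset.mem_univ i) hi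

end Pool.Agent.CXD
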