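import Pool.Agent.P.MP_2ce3e7_ag.DL4
import Pool.Agent.P.MP_2ce3e7_ag.CYP

attribute [local instance] Pool.Agent.CXD.instAddCommGroupCp Pool.Agent.CXD.instModuleCp
  Pool.Agent.CXD.instAddCommGroupRs Pool.Agent.CXD.instModuleRs Pool.Agent.CXD.instModuleRs_1
  Pool.Agent.CXD.instIsScalarTowerRs Pool.Agent.CXD.instSMulCommClassRs
  Pool.Agent.CXD.instAddCommGroupBox Pool.Agent.CXD.instModuleTensorProductBox
  Pool.Agent.CXD.finite_box

/-! Extension by zero and differences of translates. -/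

set_option linter.unusedSectionVars false
set_option linter.unusedVariables false

open Function
open scoped TensorProduct

noncomputable section

namespace Pool.Agent.CXD

section
variable {A A' : Type} [CommRing A] [CommRing A']

/-- the value on `e M` -/
def idv (e : A) (c : Val A) : Val A :=
  ⟨fun M _ _ => c.val (LinearMap.range (LinearMap.lsmul A M e))⟩

variable {c : Val A} {e : A} {b b' : Ideal A} {φ τ : A →+* A} {Y : Set (Val A)} {M W : Type}
  [AddCommGroup M] [Module A M] [AddCommGroup W] [Module A W]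

theorem kill_idv (h2 : Ideal.span {e} * b ≤ b') (hk : Kill b' M) :
    Kill b (LinearMap.range (LinearMap.lsmul A M e)) := by
  rintro x hx ⟨_, y, rfl⟩
  refine Subtype.ext ?_
  change x • e • y = 0
  rw [smul_smul, mul_comm]
  exact hk _ (h2 (Ideal.mul_mem_mul (Ideal.mem_span_singleton_self e) hx)) y

theorem idv_eq (h : IsAdd c b) [Module.Finite A M] (hk : Kill b W) (j : W →ₗ[A] M)
    (hj : Injective j) (h1 : ∀ z, ∃ y, e • y = j z) (h2 : ∀ y, ∃ z, j z = e • y) :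
    (idv e c).val M = c.val W := by
  let j' : W →ₗ[A] LinearMap.range (LinearMap.lsmul A M e) := j.codRestrict _ h1
  have hs : Surjective j' := by
    rintro ⟨_, y, rfl⟩
    exact (h2 y).imp fun z hz => Subtype.ext hz
  exact (h.congr (LinearEquiv.ofBijective j' ⟨fun u v huv => hj (congrArg Subtype.val huv), hs⟩)
    (hk.of_surjective j' hs)).symm

theorem isAdd_idv (h : IsAdd c b) (h1 : e - 1 ∈ b) (h2 : Ideal.span {e} * b ≤ b') :
    IsAdd (idv e c) b' := by
  intro M N P _ _ _ _ _ _ _ f g hf hg he hk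
  refine h _ _ _ (f.restrict (p := LinearMap.range (LinearMap.lsmul A M e)) ?_)
    (g.restrict (q := LinearMap.range (LinearMap.lsmul A P e)) ?_) ?_ ?_ ?_ (kill_idv h2 hk)
  · rintro _ ⟨y, rfl⟩
    exact ⟨f y, (f.map_smul e y).symm⟩
  · rintro _ ⟨y, rfl⟩
    exact ⟨g y, (g.map_smul e y).symm⟩
  · exact fun u v huv => Subtype.ext (hf (congrArg Subtype.val huv))
  · rintro ⟨_, y, rfl⟩
    obtain ⟨y, rfl⟩ := hg y
    exact ⟨⟨_, y, rfl⟩, Subtype.ext (g.map_smul e y)⟩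
  · refine fun y => ⟨fun hy => ?_, ?_⟩
    · obtain ⟨x, hx⟩ := (he y.1).1 (congrArg Subtype.val hy)
      refine ⟨⟨_, x, rfl⟩, Subtype.ext ((f.map_smul e x).trans ?_)⟩
      have h3 := congrArg Subtype.val (kill_idv h2 hk _ h1 y)
      rw [hx, ← sub_eq_zero, ← one_smul A y.1, smul_smul, mul_one, ← sub_smul]
      exact h3
    · rintro ⟨x, rfl⟩
      exact Subtype.ext ((he _).2 ⟨x.1, rfl⟩)

theorem FamK.idv {n Q : ℕ} (h : FamK φ Q b Y) (hφ : φ.Finite) (hb : b ≤ b.comap φ)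
    (h1 : e - 1 ∈ b) (h2 : Ideal.span {e} * b ≤ b') (hn : 0 < n) (hx : φ e = e ^ n) :
    FamK φ Q b' (idv e '' Y) := by
  have hc : ∀ χ ∈ Y, ∀ (M : Type) [AddCommGroup M] [Module A M] [Module.Finite A M], Kill b' M →
      (push φ (CXD.idv e χ)).val M = (CXD.idv e (push φ χ)).val M := fun χ hχ M _ _ _ hk => by
    have : Module.Finite A (Cp φ M) := finite_compHom φ hφ M
    have h3 : ∀ y : M, φ e • y = e • y := fun y => by
      obtain ⟨m, rfl⟩ := Nat.exists_eq_add_of_lt hn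
      obtain ⟨u, hu⟩ := sub_one_dvd_pow_sub_one e (0 + m)
      rw [← sub_eq_zero, ← sub_smul, hx, pow_succ', ← mul_sub_one, hu]
      exact hk _ (h2 (Ideal.mul_mem_mul (Ideal.mem_span_singleton_self e)
        (b.mul_mem_right u h1))) y
    refine idv_eq (M := Cp φ M) (W := Cp φ (LinearMap.range (LinearMap.lsmul A M e))) (h.add χ hχ)
      (fun x hx => kill_idv h2 hk _ (hb hx))
      { toFun := Subtype.val, map_add' := fun _ _ => rfl, map_smul' := fun _ _ => rfl }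
      Subtype.val_injective ?_ fun y => ⟨⟨_, y, rfl⟩, (h3 y).symm⟩
    rintro ⟨_, y, rfl⟩
    exact ⟨y, h3 y⟩
  refine ⟨?_, ?_, ?_⟩
  · rintro _ ⟨χ, hχ, rfl⟩
    exact isAdd_idv (h.add χ hχ) h1 h2
  · rintro _ ⟨χ, hχ, rfl⟩
    obtain ⟨χ', hχ', s, hs⟩ := h.st χ hχ
    exact ⟨_, ⟨χ', hχ', rfl⟩, s, fun M _ _ _ hk => (hc χ hχ M hk).trans (hs _ (kill_idv h2 hk))⟩
  · rintro _ ⟨χ, hχ, rfl⟩ ε hε
    obtain ⟨χ', hχ', s, hs⟩ := h.div χ hχ ε hε
    refine ⟨_, ⟨χ', hχ', rfl⟩, s, fun M _ _ _ hk => (hs _ (kill_idv h2 hk)).trans ?_⟩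
    simp only [Val.lin]
    rw [hc χ' hχ' M hk]
    rfl

/-- the difference with a translate -/
def dfv (τ : A →+* A) (c : Val A) : Val A := Val.lin 1 (-1) c (push τ c)

theorem FamK.dfv {Q : ℕ} (h : FamK φ Q b Y) (hτ : τ.Finite) (hb : b ≤ b.comap τ)
    (hc : τ.comp φ = φ.comp τ) : FamK φ Q b (dfv τ '' Y) := by
  have he : ∀ {c c' : Val A}, EqK b c c' → EqK b (push τ c) (push τ c') := fun e M _ _ _ hk =>
    have : Module.Finite A (Cp τ M) := finite_compHom τ hτ M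
    e (Cp τ M) fun x hx => hk _ (hb hx)
  have hp : ∀ χ, push φ (push τ χ) = push τ (push φ χ) := fun χ => by
    rw [push_push, push_push, hc]
  refine ⟨?_, ?_, ?_⟩
  · rintro _ ⟨χ, hχ, rfl⟩
    exact (h.add χ hχ).lin (isAdd_push τ hτ (h.add χ hχ) hb) _ _
  · rintro _ ⟨χ, hχ, rfl⟩
    obtain ⟨χ', hχ', s, hs⟩ := h.st χ hχ
    refine ⟨_, ⟨χ', hχ', rfl⟩, s, fun M _ _ _ hk => ?_⟩
    have h1 := hs M hk
    have h2 := he hs M hk
    simp only [CXD.dfv, push_lin, hp] at h1 h2 ⊢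
    simp only [Val.lin] at h1 h2 ⊢
    rw [h1, h2]
    ring
  · rintro _ ⟨χ, hχ, rfl⟩ ε hε
    obtain ⟨χ', hχ', s, hs⟩ := h.div χ hχ ε hε
    refine ⟨_, ⟨χ', hχ', rfl⟩, s, fun M _ _ _ hk => ?_⟩
    have h1 := hs M hk
    have h2 := he hs M hk
    simp only [CXD.dfv, push_lin, hp] at h1 h2 ⊢
    simp only [Val.lin] at h1 h2 ⊢
    rw [h1, h2]
    ring

open Polynomial in
theorem eqK_shift [IsNoetherianRing A'] {ψ : A →+* A'[X]} (hψ : Surjective ψ)
    (h : IsAdd c (RingHom.ker ψ)) (σ : A'[X] ≃+* A'[X]) (hσ : ∀ a, σ (C a) = C a)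
    (hc : ψ.comp τ = σ.toRingHom.comp ψ) : EqK (RingHom.ker ψ) (push τ c) c := by
  have h' := (isAdd_iff hψ).1 h
  rw [eqK_iff hψ, push_push, hc, ← push_push]
  intro M _ _ _
  have h1 := homotopy ((isAdd_push _ (equiv_finite σ) h' bot_le).lin h' 1 (-1)) (fun I => ?_) M
  · simp only [Val.lin] at h1
    linarith
  have hI : I.map (C : A' →+* A'[X]) = (I.map (C : A' →+* A'[X])).map (σ.symm : A'[X] →+* A'[X]) := by
    rw [Ideal.map_map]
    exact congrArg (fun f : A' →+* A'[X] => I.map f)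
      (RingHom.ext fun a => (σ.symm_apply_eq.2 (hσ a).symm).symm)
  simp only [Val.lin]
  rw [semi_CYH1 h' σ.toRingHom (Ideal.quotientEquiv _ _ σ.symm hI).toAddEquiv fun p w => ?_]
  · ring
  · obtain ⟨w, rfl⟩ := Ideal.Quotient.mk_surjective w
    change Ideal.Quotient.mk _ (σ.symm (σ p * w)) = Ideal.Quotient.mk _ (p * σ.symm w)
    rw [map_mul, σ.symm_apply_apply]

end

variable {k K B : Type} [Field k] [Fintype k] [CommRing K] [Algebra k K] [CommRing B]
  [Algebra k B] {c : Val (K ⊗[k] B)} {b b' : Ideal B}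

theorem fr_le (b : Ideal B) : b.map (inr k K B) ≤ (b.map (inr k K B)).comap (Fr k K B) := by
  refine Ideal.map_le_iff_le_comap.2 fun a ha => ?_
  rw [Ideal.mem_comap, Ideal.mem_comap, Fr_inr]
  exact Ideal.pow_mem_of_mem _ (Ideal.mem_map_of_mem _ ha) _ Fintype.card_pos

theorem ExtK.idv {e : B} (hE : ExtK k K b c) (h : IsAdd c (b.map (inr k K B)))
    (h2 : Ideal.span {e} * b ≤ b') : ExtK k K b' (idv (inr k K B e) c) := by
  intro N M _ _ _ _ _ _ hk
  obtain ⟨F, hF⟩ := exists_box_lin (k := k) (K := K) (N := N)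
    (LinearMap.range (LinearMap.lsmul B M e)).subtype
  obtain ⟨G, hG⟩ := exists_box_lin (k := k) (K := K) (N := N) (LinearMap.lsmul B M e).rangeRestrict
  have h3 : ∀ u, F (G u) = inr k K B e • u := fun u => by
    induction u using Box.induction with
    | h0 => simp only [map_zero, smul_zero]
    | h1 u v => rw [hG, hF]; exact (lsmul_bt_CYC3 e u v).symm
    | h2 u v hu hv => simp only [map_add, smul_add, hu, hv]
  have h4 := (box_exact hF hG).2.1
  rw [idv_eq h (kill_box (kill_idv h2 hk)) F ((box_exact hF hG).1 (Submodule.injective_subtype _))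
    (fun z => ?_) fun y => ⟨G y, h3 y⟩]
  · exact hE _ _ (kill_idv h2 hk)
  · obtain ⟨u, rfl⟩ := h4 (LinearMap.surjective_rangeRestrict _) z
    exact ⟨u, (h3 u).symm⟩

theorem ExtK.dfv {τ : B →ₐ[k] B} (hE : ExtK k K b c) (h : IsAdd c (b.map (inr k K B)))
    (hτ : τ.toRingHom.Finite) (hb : b ≤ b.comap τ) : ExtK k K b (dfv (mp K τ) c) := by
  intro N M _ _ _ _ _ _ hk
  have : Module.Finite B (Cp τ.toRingHom M) := finite_compHom _ hτ M
  have hk' : Kill b (Cp τ.toRingHom M) := fun x hx => hk _ (hb hx)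
  obtain ⟨J, -, hi, hs⟩ := exists_box_map (K := K) (N := N) (M := Cp τ.toRingHom M) (M' := M) τ
    { toFun := id, map_add' := fun _ _ => rfl, map_smul' := fun _ _ => rfl }
  let J' : Box k K B N (Cp τ.toRingHom M) →ₗ[K ⊗[k] B] Cp (mp K τ) (Box k K B N M) :=
    { toFun := J, map_add' := J.map_add, map_smul' := J.map_smulₛₗ }
  have h1 := h.congr (LinearEquiv.ofBijective J' ⟨hi injective_id, hs surjective_id⟩).symm
    (kill_box hk')
  change 1 * c.val _ + -1 * c.val (Cp (mp K τ) (Box k K B N M)) = 0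
  rw [h1, hE _ _ hk, hE _ _ hk']
  ring

end Pool.Agent.CXD
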