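import Pool.Agent.P.MP_2ce3e7_ag.DL9

attribute [local instance] Pool.Agent.CXD.instAddCommGroupCp Pool.Agent.CXD.instModuleCp
  Pool.Agent.CXD.instAddCommGroupRs Pool.Agent.CXD.instModuleRs Pool.Agent.CXD.instModuleRs_1
  Pool.Agent.CXD.instIsScalarTowerRs Pool.Agent.CXD.instSMulCommClassRs
  Pool.Agent.CXD.instAddCommGroupBox Pool.Agent.CXD.instModuleTensorProductBox
  Pool.Agent.CXD.finite_box Pool.Agent.CXD.instAdd_CWG Pool.Agent.CXD.instMod_CWG
  Pool.Agent.CXD.instAddCommGroupLau Pool.Agent.CXD.instModuleLaurentPolynomialLau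
  Pool.Agent.CXD.Lau.finite

/-! The rule for two equations, for one family. -/

set_option linter.unusedSectionVars false
set_option linter.unusedVariables false

open Function Filter
open scoped TensorProduct

noncomputable section

namespace Pool.Agent.CXD

variable {k K B : Type} [Field k] [CommRing K] [Algebra k K] [CommRing B] [Algebra k B]
  [Algebra.FiniteType k B] [Fintype k] [IsNoetherianRing K] {r Q : ℕ}

open Polynomial in
theorem blow_DN3 {s g : B} (hT : TT k K (B[X] ⧸ Ideal.span {X * C s + C g}) r Q)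
    {Y : Set (Val (K ⊗[k] B))}
    (hY : FamK (Fr k K B) (Fintype.card k) ((Ideal.span {s} ⊔ Ideal.span {g}).map (inr k K B)) Y)
    (hE : ∀ χ ∈ Y, ExtK k K (Ideal.span {s} ⊔ Ideal.span {g}) χ)
    (h0 : ∀ χ ∈ Y, NuK ((Ideal.span {s}).map (inr k K B)) (rho (inr k K B g) χ)) :
    ∀ χ ∈ Y, NuK ((Ideal.span {s} ⊔ Ideal.span {g}).map (inr k K B)) χ := by
  intro χ hχ
  have := noeth_tensor k K B
  have : IsNoetherianRing B := Algebra.FiniteType.isNoetherianRing k B
  have : Algebra.FiniteType k B[X] := Algebra.FiniteType.trans (S := B) inferInstance inferInstance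
  obtain ⟨B', _, _, _, ι, x, y, τ, hx, hy, _, hu⟩ := exists_bl (k := k) s g
  have := noeth_tensor k K B'
  have : Gk k (bg ι.toRingHom x y τ) := ⟨fun c => ⟨algebraMap k B c, 0, 0, 0, rfl, by simp⟩⟩
  have dx : x ∈ bg ι.toRingHom x y τ 1 := ⟨1, 1, 0, 0, rfl, by simp⟩
  have dy : y ∈ bg ι.toRingHom x y τ 1 := ⟨1, 0, 1, 0, rfl, by simp⟩
  have dt : τ ∈ bg ι.toRingHom x y τ (-1) := ⟨1, 0, 0, 1, rfl, by simp⟩
  have hT0 : ∀ a b : B', LaurentPolynomial.C a * LaurentPolynomial.T 1 *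
      (LaurentPolynomial.C b * LaurentPolynomial.T (-1)) = LaurentPolynomial.C (a * b) :=
    fun a b => by rw [mul_mul_mul_comm, ← LaurentPolynomial.T_add, ← map_mul]; simp
  obtain ⟨θ, t0, t1, t2, t3⟩ := hu _ (AddMonoidAlgebra.singleZeroAlgHom.comp ι) _ _ _
    ((hT0 x τ).trans (congrArg _ hx)) ((hT0 y τ).trans (congrArg _ hy))
  have hco : Co (bg ι.toRingHom x y τ) θ := ⟨by
    rintro _ _ ⟨b, i, j, m, rfl, rfl⟩
    have t0' : θ (ι.toRingHom b) = LaurentPolynomial.C (ι.toRingHom b) := t0 b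
    simp only [map_mul, map_pow, t0', t1, t2, t3, mul_pow, LaurentPolynomial.T_pow, sub_eq_add_neg,
      LaurentPolynomial.T_add, mul_one, mul_neg]
    ring⟩
  let I : Ideal B[X] := Ideal.span {X * C s + C g}
  let β : B →ₐ[k] B[X] ⧸ I := IsScalarTower.toAlgHom k B _
  obtain ⟨ψ, p0, p1, p2, p3⟩ := hu _ β (Ideal.Quotient.mk I (-X)) 1 (β s)
    (Ideal.Quotient.eq.2 (Ideal.mem_span_singleton'.2 ⟨-1, by simp; ring⟩)) (one_mul _)
  have hψ : Surjective ψ := fun z => by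
    obtain ⟨p, rfl⟩ := Ideal.Quotient.mk_surjective z
    change _ ∈ ψ.range
    induction p using Polynomial.induction_on' with
    | add p q hp hq => rw [map_add]; exact add_mem hp hq
    | monomial n b =>
      rw [← C_mul_X_pow_eq_monomial, map_mul, map_pow]
      exact mul_mem ⟨ι b, p0 b⟩ (pow_mem (ψ.mem_range.2 ⟨-x, by simp [p1]⟩) n)
  have dz := dz_bg (ι := ι.toRingHom) hx hy
  have bw : Bw (mp K ι) (tg k (tv K) (bg ι.toRingHom x y τ)) (inr k K B s) (inr k K B g)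
      (inr k K B' x) (inr k K B' y) (inr k K B' τ) := by
    refine ⟨dz.tensor, tmul_mem_cl cl_one (mem_cl dx), tmul_mem_cl cl_one (mem_cl dy),
      tmul_mem_cl cl_one (mem_cl dt), by rw [← map_mul, hx]; rfl, by rw [← map_mul, hy]; rfl, ?_⟩
    rintro c _ ⟨a, -, _, ⟨b, i, j, m, e, rfl⟩, rfl⟩
    refine ⟨a ⊗ₜ b, i, j, m, e, ?_⟩
    rw [mp_tmul, ← tmul_CWN3, ← tmul_CWN3]
    simp only [map_mul, map_pow, mul_assoc]
    rfl
  have hA := hY.add
  rw [Ideal.map_sup, Ideal.map_span, Ideal.map_span, Set.image_singleton, Set.image_singleton]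
    at hY ⊢
  rw [Ideal.map_span, Set.image_singleton] at h0
  have hG := bw.famG (Fr_finite k K B) (Fr_finite k K B') (mp_Fr ι).symm Fintype.card_pos
    (Fr_inr s) (Fr_inr g) (Fr_inr τ) (fun n => Prod.ext rfl (nsmul_eq_mul _ _))
    (hm_Fr card_smul_eq_zero) hY h0 r Q
  obtain ⟨Θ, hF, hE', hΘ⟩ := hco.chart ψ (hco.pc_one hψ dy p2) hG (by
    rintro _ ⟨c, hc, rfl⟩ N M hN hM
    refine cfe_zero (Eventually.of_forall fun n => ?_)
    have := prt_finite dz hM
    have := prt_finite bw.dz (gbox_finite (k := k) hN hM)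
    obtain ⟨E, e1, e2⟩ := prt_box (k := k) dz N M (n + 1)
    obtain ⟨E', e1', e2'⟩ := prt_box (k := k) dz N M n
    obtain ⟨F, hF⟩ := exists_box_lin (k := k) (K := K) (N := N.M)
      (slm dz M (mem_cl dt) (by ring : -1 + (n + 1) = n))
    refine (ind_congr (hY.add c hc) (bw.kb _ _) F (LinearEquiv.ofBijective E e1).symm.toLinearMap
      (LinearEquiv.ofBijective E' e1').symm.toLinearMap (LinearEquiv.bijective _)
      (LinearEquiv.bijective _) fun p => ?_).trans (ind_box (hA c hc) (hE c hc)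
        (kb_slm dz M _ _ (mem_cl dy) (mem_cl dx) hy hx) hF)
    obtain ⟨p, rfl⟩ := e1.2 p
    refine (LinearEquiv.symm_apply_eq _).2 (Eq.trans ?_
      (congrArg (fun z => E' (F z)) ((LinearEquiv.ofBijective E e1).symm_apply_apply p).symm))
    induction p using Box.induction with
    | h0 => simp only [map_zero]
    | h1 u v =>
      refine pv_ext ?_
      rw [hF, e2', pv_slm, pv_slm, e2]
      exact (smul_gb 1 τ u _).trans (by rw [one_smul])
    | h2 u v hu hv => simp only [map_add, hu, hv]) (by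
    rintro _ ⟨c, hc, rfl⟩
    refine (hG.add _ ⟨c, hc, rfl⟩).nil ((Set.finite_singleton y).image _) ?_ fun M hM _ h1 =>
      cfe_zero (gam_tors bw (hY.add c hc) (h0 c hc) hM (h1 _ ⟨y, rfl, rfl⟩))
    rintro _ ⟨_, rfl, rfl⟩
    exact ⟨_, bw.dy⟩)
  intro M _ _ _ hk
  refine val_of_primes (hY.add χ hχ) M hk fun P hP hle => ?_
  have hP' := (kill_iff.1 hk).trans hle
  have z1 : Ideal.Quotient.mk P (inr k K B s) = 0 := Ideal.Quotient.eq_zero_iff_mem.2
    (hP' (Ideal.mem_sup_left (Ideal.mem_span_singleton_self _)))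
  have z2 : Ideal.Quotient.mk P (inr k K B g) = 0 := Ideal.Quotient.eq_zero_iff_mem.2
    (hP' (Ideal.mem_sup_right (Ideal.mem_span_singleton_self _)))
  let π : K ⊗[k] B →ₐ[k] (K ⊗[k] B ⧸ P)[X] := CAlgHom.comp (Ideal.Quotient.mkₐ k P)
  have hπ : ∀ a, π a = C (Ideal.Quotient.mk P a) := fun _ => rfl
  let ρ₀ : (B[X] ⧸ I) →ₐ[k] (K ⊗[k] B ⧸ P)[X] := Ideal.Quotient.liftₐ I
    (aevalTower (π.comp Algebra.TensorProduct.includeRight) (-X)) fun a ha => by
      obtain ⟨b, rfl⟩ := Ideal.mem_span_singleton'.1 ha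
      rw [map_mul, map_add, map_mul, aevalTower_C, aevalTower_C]
      change _ * (_ * C (Ideal.Quotient.mk P (inr k K B s)) +
        C (Ideal.Quotient.mk P (inr k K B g))) = 0
      rw [z1, z2, map_zero, mul_zero, add_zero, mul_zero]
  have r0 : ∀ b, ρ₀ (β b) = π (inr k K B b) := fun b => aevalTower_C _ _ b
  let ρ : K ⊗[k] (B[X] ⧸ I) →+* (K ⊗[k] B ⧸ P)[X] :=
    (Algebra.TensorProduct.productMap (π.comp Algebra.TensorProduct.includeLeft) ρ₀).toRingHom
  have r1 : ∀ a b, ρ (a ⊗ₜ b) = π (inl k K B a) * ρ₀ b := fun _ _ => rfl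
  have r2 : ∀ b, ρ (mp K ψ (inr k K B' b)) = ρ₀ (ψ b) := fun b =>
    (r1 1 (ψ b)).trans (by rw [map_one, map_one, one_mul])
  have q1 : ∀ a, ρ (mp K ψ (mp K ι a)) = C (Ideal.Quotient.mk P a) := fun a => by
    induction a using TensorProduct.induction_on with
    | zero => simp only [map_zero]
    | tmul a b => rw [mp_tmul, mp_tmul, r1, p0, r0, ← map_mul, tmul_CWN3, hπ]
    | add u v hu hv => simp only [map_add, hu, hv]
  have q2 : ρ (mp K ψ (inr k K B' x)) = X := by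
    rw [r2, p1]
    change aevalTower (π.comp Algebra.TensorProduct.includeRight) (-X) (-X) = X
    rw [map_neg, aevalTower_X, neg_neg]
  obtain ⟨L, j, hj, hL⟩ := bw.test (hY.add χ hχ) (hco.chR ψ (tv K)) hP' ρ q1 q2
    (by rw [mp_inr, p2, map_one]) (by rw [r2, p3, r0, hπ, z1, map_zero])
  have hρ : Surjective ρ := poly_surj (fun b => (Ideal.Quotient.mk_surjective (I := P) b).elim
    fun a ha => ⟨mp K ψ (mp K ι a), ha ▸ q1 a⟩) ⟨_, q2⟩
  have := cp_finite (A := K ⊗[k] (B[X] ⧸ I)) (A' := (K ⊗[k] B ⧸ P)[X]) ρ hρ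
  have h1 := hΘ _ ⟨χ, hχ, rfl⟩ _ L j (by rwa [Set.image_singleton])
  rw [hT _ hF (by rintro _ ⟨l, hl, rfl⟩; exact hE' l hl) _ ⟨_, ⟨χ, hχ, rfl⟩, rfl⟩] at h1
  exact neg_eq_zero.1 (h1.trans (cfe_const (eventually_atTop.2 ⟨0, hL⟩))).symm

end Pool.Agent.CXD
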