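import Pool.Agent.P.MP_2ce3e7_ag.DN2
import Pool.Agent.P.MP_2ce3e7_ag.DN3

attribute [local instance] Pool.Agent.CXD.instAddCommGroupCp Pool.Agent.CXD.instModuleCp

/-! Equations `c f = x w (x)` with a translation that fixes `x w (x)`. -/

set_option linter.unusedSectionVars false
set_option linter.unusedVariables false

open Function Polynomial
open scoped TensorProduct

noncomputable section

namespace Pool.Agent.CXD

variable {k K B : Type} [Field k] [CommRing K] [Algebra k K] [CommRing B] [Algebra k B]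
  [Algebra.FiniteType k B] [Fintype k] [IsNoetherianRing K] {r Q : ℕ}

theorem shift_DN4 (f t : B) (τ : B[X] →ₐ[k] B[X]) (t1 : ∀ b, τ (C b) = C b) (t2 : τ X = X + C t)
    {c : Val (K ⊗[k] B[X])} (h : IsAdd c ((Ideal.span {C f}).map (inr k K B[X]))) :
    EqK ((Ideal.span {C f}).map (inr k K B[X])) (push (mp K τ) c) c := by
  let π := Ideal.Quotient.mkₐ k (Ideal.span {f})
  have := noeth_tensor k K (B ⧸ Ideal.span {f})
  obtain ⟨e, e1, e2⟩ := exists_polyEquiv (k := k) (K := K) (B := B ⧸ Ideal.span {f})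
  have hs : Surjective (mapAlgHom π) := map_surjective _ Ideal.Quotient.mk_surjective
  let ψ := e.symm.toRingHom.comp (mp K (mapAlgHom π))
  have hk : RingHom.ker ψ = (Ideal.span {C f}).map (inr k K B[X]) := by
    have h1 := ker_mapRingHom (Ideal.Quotient.mk (Ideal.span {f}))
    rw [Ideal.mk_ker, Ideal.map_span, Set.image_singleton] at h1
    rw [← h1]
    exact (RingHom.ker_comp_of_injective _ e.symm.injective).trans (ker_mp _)
  have p1 : ∀ (a : K) (b : B), ψ (a ⊗ₜ C b) = C (a ⊗ₜ π b) := fun a b =>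
    e.symm_apply_eq.2 (by rw [e1, mp_tmul, coe_mapAlgHom, map_C]; rfl)
  have p2 : ψ (1 ⊗ₜ X) = X := e.symm_apply_eq.2 (by rw [e2, mp_tmul, coe_mapAlgHom, map_X])
  rw [← hk] at h ⊢
  refine eqK_shift (e.symm.surjective.comp (mp_surj hs)) h
    (taylorEquiv ((1 : K) ⊗ₜ[k] π t)).toRingEquiv (fun a => taylor_C _ a)
    (Algebra.TensorProduct.ringHom_ext (RingHom.ext fun a => ?_) (ringHom_ext (fun b => ?_) ?_))
  · change ψ (a ⊗ₜ τ (C 1)) = taylor _ (ψ (a ⊗ₜ C 1))
    rw [t1, p1, taylor_C]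
  · change ψ (1 ⊗ₜ τ (C b)) = taylor _ (ψ (1 ⊗ₜ C b))
    rw [t1, p1, taylor_C]
  · change ψ (1 ⊗ₜ τ X) = taylor _ (ψ (1 ⊗ₜ X))
    rw [t2, TensorProduct.tmul_add, map_add, p1, p2, taylor_X]

theorem TT.asb (f t : B) (w : B[X]) (h0 : w.eval 0 = 1) (h1 : w.eval t = 0)
    (h2 : (X * w).comp (X + C t) = X * w)
    (hT : TT k K (B[X][X] ⧸ Ideal.span {X * C (C f) + C (-(X * w))}) r Q) :
    TT k K (B ⧸ Ideal.span {f}) r Q := by
  intro Y hY hE χ hχ W _ _ _
  have : Algebra.FiniteType k B[X] := Algebra.FiniteType.trans (S := B) inferInstance inferInstance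
  have := noeth_tensor k K B[X]
  let ψ : B[X] →ₐ[k] B ⧸ Ideal.span {f} := aevalTower (Ideal.Quotient.mkₐ k _) 0
  have p0 : ∀ p, ψ p = Ideal.Quotient.mk _ (p.eval 0) := fun p => by
    rw [← eval₂_at_apply]
    rfl
  have hψ : Surjective ψ := fun y => (Ideal.Quotient.mk_surjective y).imp' C fun b hb => by
    rw [p0, eval_C, hb]
  have hs := mp_surj (K := K) hψ
  let τ : B[X] →ₐ[k] B[X] := (taylorAlgHom t).restrictScalars k
  have t0 : ∀ p, τ p = p.comp (X + C t) := fun _ => rfl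
  have hτ : Surjective τ := (taylorEquiv t).surjective
  have fτ : τ.toRingHom.Finite := RingHom.Finite.of_surjective _ hτ
  have tg : τ (-(X * w)) = -(X * w) := by rw [map_neg, t0, h2]
  let I : Ideal B[X] := Ideal.span {C f} ⊔ Ideal.span {-(X * w)}
  have i1 : C f ∈ I := Ideal.mem_sup_left (Ideal.mem_span_singleton_self _)
  have i2 : -(X * w) ∈ I := Ideal.mem_sup_right (Ideal.mem_span_singleton_self _)
  have hI : ∀ J : Ideal B[X], C f ∈ J → -(X * w) ∈ J → I ≤ J := fun J a b =>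
    sup_le ((Ideal.span_singleton_le_iff_mem _).2 a) ((Ideal.span_singleton_le_iff_mem _).2 b)
  have k1 : w - 1 ∈ RingHom.ker ψ.toRingHom := by
    change ψ (w - 1) = 0
    rw [p0, eval_sub, h0, eval_one, sub_self, map_zero]
  have k2 : Ideal.span {w} * RingHom.ker ψ.toRingHom ≤ I := by
    refine Ideal.span_singleton_mul_le_iff.2 fun x hx => ?_
    obtain ⟨a, ha⟩ := Ideal.mem_span_singleton'.1 (Ideal.Quotient.eq_zero_iff_mem.1
      ((p0 x).symm.trans hx))
    rw [← X_mul_divX_add x, coeff_zero_eq_eval_zero, ← ha, map_mul, show w * (X * divX x + C a * C f)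
      = (-divX x) * -(X * w) + w * C a * C f by ring]
    exact add_mem (I.mul_mem_left _ i2) (I.mul_mem_left _ i1)
  have k3 : I ≤ I.comap τ := hI _ (by rw [Ideal.mem_comap, t0, C_comp]; exact i1)
    (by rw [Ideal.mem_comap, tg]; exact i2)
  have k4 : I.map (inr k K B[X]) ≤ (I.map (inr k K B[X])).comap (mp K τ) :=
    Ideal.map_le_iff_le_comap.2 fun a ha => by
      rw [Ideal.mem_comap, Ideal.mem_comap, mp_inr]
      exact Ideal.mem_map_of_mem _ (k3 ha)
  have k5 : Ideal.span {inr k K B[X] w} * (RingHom.ker ψ.toRingHom).map (inr k K B[X]) ≤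
      I.map (inr k K B[X]) := by
    have h := Ideal.map_mono (f := inr k K B[X]) k2
    rwa [Ideal.map_mul, Ideal.map_span, Set.image_singleton] at h
  have e : push (mp K ψ) '' (lft (mp K ψ) '' Y) = Y := by
    rw [Set.image_image]
    simp only [push_lft hs, Set.image_id']
  have f1 := (famK_iff (r := r) (Q := Fintype.card k) hs (mp_Fr ψ) (Fr_finite k K _)).2 (e.symm ▸ hY)
  have x1 : ∀ c ∈ lft (mp K ψ) '' Y, ExtK k K (RingHom.ker ψ.toRingHom) c := by
    rintro _ ⟨c, hc, rfl⟩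
    refine (extK_iff hψ (f1.add _ ⟨c, hc, rfl⟩)).2 ?_
    rw [push_lft hs]
    exact hE c hc
  rw [ker_mp] at f1
  have f2 := f1.idv (Fr_finite k K _) (fr_le _) (e := inr k K B[X] w)
    (by rw [← map_one (inr k K B[X]), ← map_sub]; exact Ideal.mem_map_of_mem _ k1) k5
    Fintype.card_pos (Fr_inr w)
  have f3 := f2.dfv (mp_finite fτ) k4 (mp_Fr τ)
  have h3 := blow_DN3 hT f3 (by
    rintro _ ⟨_, ⟨c, hc, rfl⟩, rfl⟩
    exact ((x1 c hc).idv (f1.add c hc) k2).dfv (f2.add _ ⟨c, hc, rfl⟩) fτ k3) (by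
    rintro _ ⟨c, hc, rfl⟩ M _ _ _ hk
    have a1 := f2.add c hc
    rw [Ideal.map_sup, Ideal.map_span _ {-(X * w)}, Set.image_singleton] at a1
    have a2 := rho_push_CYA2 (mp K τ) (mp_finite fτ) a1 M fun z hz => hk _ (by
      refine Ideal.mem_comap.1 (Ideal.map_le_iff_le_comap.2 ?_ hz)
      rw [Ideal.span_singleton_le_iff_mem, Ideal.mem_comap, Ideal.mem_comap, mp_inr, t0, C_comp]
      exact Ideal.mem_map_of_mem _ (Ideal.mem_span_singleton_self _))
    rw [mp_inr, tg, shift_DN4 f t τ (fun b => C_comp) X_comp (isAdd_rho a1) M hk] at a2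
    refine (ind_lin 1 (-1) c (push (mp K τ) c) _).trans ?_
    change 1 * (rho _ c).val M + -1 * (rho _ (push (mp K τ) c)).val M = 0
    rw [a2]
    ring)
  have := finite_compHom _ (RingHom.Finite.of_surjective _ hs) W
  have : Module.Finite (K ⊗[k] B[X]) (Cp (mp K ψ) W) := this
  have k6 : Kill ((RingHom.ker ψ.toRingHom).map (inr k K B[X])) (Cp (mp K ψ) W) :=
    ker_mp (K := K) ψ ▸ kill_compHom W
  have h4 := h3 _ ⟨_, ⟨_, ⟨χ, hχ, rfl⟩, rfl⟩, rfl⟩ (Cp (mp K ψ) W) (k6.mono (Ideal.map_mono (hI _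
    ((p0 _).trans (Ideal.Quotient.eq_zero_iff_mem.2 (Ideal.mem_span_singleton.2 (by simp))))
    ((p0 _).trans (by simp)))))
  have a1 := f1.add _ ⟨χ, hχ, rfl⟩
  have a2 : ∀ y : Cp (mp K ψ) W, inr k K B[X] w • y = y := fun y => by
    change mp K ψ (inr k K B[X] w) • (show W from y) = y
    rw [mp_inr, p0, h0, map_one, map_one, one_smul]
  have a3 : Subsingleton (LinearMap.range (LinearMap.lsmul (K ⊗[k] B[X])
      (Cp (mp K τ) (Cp (mp K ψ) W)) (inr k K B[X] w))) := by
    refine subsingleton_of_forall_eq 0 ?_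
    rintro ⟨_, y, rfl⟩
    refine Subtype.ext ?_
    change mp K ψ (mp K τ (inr k K B[X] w)) • (show W from y) = 0
    rw [mp_inr, mp_inr, p0, t0, eval_comp, eval_add, eval_X, eval_C, zero_add, h1, map_zero, map_zero,
      zero_smul]
  change 1 * (idv _ _).val _ + -1 * (lft (mp K ψ) χ).val (LinearMap.range (LinearMap.lsmul _
    (Cp (mp K τ) (Cp (mp K ψ) W)) (inr k K B[X] w))) = 0 at h4
  rw [a1.zero, idv_eq a1 k6 LinearMap.id injective_id (fun z => ⟨z, a2 z⟩) fun y => ⟨_, rfl⟩,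
    mul_zero, add_zero, one_mul] at h4
  rw [← push_lft hs χ]
  exact h4

theorem TT.asb' {B₁ : Type} [CommRing B₁] [Algebra k B₁] [Algebra.FiniteType k B₁]
    (e : B[X] ≃ₐ[k] B₁) (f t : B) (w : B[X]) (h0 : w.eval 0 = 1) (h1 : w.eval t = 0)
    (h2 : (X * w).comp (X + C t) = X * w)
    (hT : TT k K (B₁[X] ⧸ Ideal.span {X * C (e (C f)) + C (e (-(X * w)))}) r Q) :
    TT k K (B ⧸ Ideal.span {f}) r Q := by
  have : Algebra.FiniteType k B[X] := Algebra.FiniteType.trans (S := B) inferInstance inferInstance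
  have : Algebra.FiniteType k B[X][X] :=
    Algebra.FiniteType.trans (S := B[X]) inferInstance inferInstance
  have : Algebra.FiniteType k B₁[X] :=
    Algebra.FiniteType.trans (S := B₁) inferInstance inferInstance
  refine TT.asb f t w h0 h1 h2 (hT.of_bij (Ideal.quotientEquivAlg _ _ (mapAlgEquiv e) ?_))
  rw [Ideal.map_span, Set.image_singleton, mapAlgEquiv_coe_ringHom, coe_mapRingHom,
    Polynomial.map_add, Polynomial.map_mul, map_X, map_C, map_C]
  rfl

end Pool.Agent.CXD
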