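import Pool.Agent.P.MP_2ce3e7_ag.DV2
import Pool.Agent.P.MP_2ce3e7_ag.DLB

/-! The rules hold. -/

set_option linter.unusedSectionVars false
set_option linter.unusedVariables false

open Function
open scoped TensorProduct

noncomputable section

namespace Pool.Agent.CXD

variable {k K Ω : Type} [Field k] [Fintype k] [CommRing K] [Algebra k K] [IsNoetherianRing K]
  [Field Ω] [Algebra k Ω] [IsAlgClosed Ω] {α β : Type} [Af Ω α] [Af Ω β] {p p₀ p₁ : α → Prop}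
  {p' p₀' : β → Prop}

theorem exists_quot_DV3 {A : Type} [CommRing A] [Algebra k A] [Algebra.FiniteType k A]
    (c : Cz k p) (e : A ≃ₐ[k] Rg k p) (S : Set A) (hp : ∀ x, p₁ x → p x)
    (h1 : ∀ x (hx : p₁ x), ∀ a ∈ S, (e a).1 ⟨x, hp x hx⟩ = 0)
    (h2 : ∀ x : {x // p x}, (∀ a ∈ S, (e a).1 x = 0) → p₁ x.1) :
    ∃ ψ : (A ⧸ Ideal.span S) →ₐ[k] Rg k p₁, Surjective ψ ∧ ∀ b, ψ b = 0 → IsNilpotent b := by
  let ρ : A →ₐ[k] Rg k p₁ := (pb (Pm.id (k := k) (α := α)) hp).comp (e : A →ₐ[k] Rg k p)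
  have hρ : ∀ a (x : {x // p₁ x}), (ρ a).1 x = (e a).1 ⟨x.1, hp _ x.2⟩ := fun _ _ => rfl
  have hk : ∀ a ∈ Ideal.span S, ρ a = 0 := fun a ha =>
    (Ideal.span_le (I := RingHom.ker ρ.toRingHom)).2
      (fun b hb => rg_ext fun x => (hρ b x).trans (h1 x.1 x.2 b hb)) ha
  refine ⟨Ideal.Quotient.liftₐ _ ρ hk, fun y => ?_, fun b hb => ?_⟩
  · obtain ⟨f, hf, rfl⟩ := rg_surj y
    refine ⟨Ideal.Quotient.mk _ (e.symm (rg p hf)), rg_ext fun x => ?_⟩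
    refine (hρ (e.symm (rg p hf)) x).trans ?_
    rw [AlgEquiv.apply_symm_apply]
    rfl
  · obtain ⟨a, rfl⟩ := Ideal.Quotient.mk_surjective b
    refine nil_of_pts (k := k) Ω _ fun φ => ?_
    obtain ⟨x, hx⟩ := exists_pt c
      ((φ.comp (Ideal.Quotient.mkₐ k (Ideal.span S))).comp (e.symm : Rg k p →ₐ[k] A))
    have hx' : ∀ u : A, φ (Ideal.Quotient.mk _ u) = (e u).1 x := fun u => by
      rw [← hx (e u)]
      exact congrArg (fun v => φ (Ideal.Quotient.mk _ v)) (e.symm_apply_apply u).symm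
    have hp₁ : p₁ x.1 := h2 x fun u hu => by
      rw [← hx' u, Ideal.Quotient.eq_zero_iff_mem.2 (Ideal.subset_span hu), map_zero]
    rw [hx']
    exact (hρ a ⟨x.1, hp₁⟩).symm.trans (congrArg (fun t : Rg k p₁ => t.1 ⟨x.1, hp₁⟩) hb)

theorem gs_blow {s g : α → Ω} (c : Cz k p) (hs : Pm k s) (hg : Pm k g)
    (h1 : (GS k K Ω).good fun y : α × Ω => p y.1 ∧ y.2 * s y.1 + g y.1 = 0)
    (h2 : (GS k K Ω).good fun x => p x ∧ s x = 0) :
    (GS k K Ω).good fun x => p x ∧ s x = 0 ∧ g x = 0 := by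
  obtain ⟨e, hC, hX⟩ := exists_polyE (k := k) (Ω := Ω) p
  have hv : ∀ y : {y : α × Ω // p y.1},
      (e (Polynomial.X * Polynomial.C (rg p hs) + Polynomial.C (rg p hg))).1 y =
        y.1.2 * s y.1.1 + g y.1.1 := fun y => by
    rw [← evx_apply, map_add, map_mul, map_add, map_mul, evx_apply, evx_apply, evx_apply, hC, hC,
      hX]
    rfl
  obtain ⟨ψ₁, s₁, n₁⟩ := exists_quot_DV3 (p := fun y : α × Ω => p y.1)
    (p₁ := fun y : α × Ω => p y.1 ∧ y.2 * s y.1 + g y.1 = 0) (c.comp Pm.id.fst) e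
    {Polynomial.X * Polynomial.C (rg p hs) + Polynomial.C (rg p hg)} (fun _ h => h.1)
    (fun y hy a ha => by
      rw [Set.mem_singleton_iff.1 ha, hv]
      exact hy.2)
    (fun y hy => ⟨y.2, (hv y).symm.trans (hy _ rfl)⟩)
  obtain ⟨ψ₂, s₂, n₂⟩ := exists_quot_DV3 (p₁ := fun x => p x ∧ s x = 0) c AlgEquiv.refl
    {rg p hs} (fun _ h => h.1)
    (fun x hx a ha => by
      rw [Set.mem_singleton_iff.1 ha]
      exact hx.2)
    (fun x hx => ⟨x.2, hx _ rfl⟩)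
  obtain ⟨ψ₃, s₃, n₃⟩ := exists_quot_DV3 (p₁ := fun x => p x ∧ s x = 0 ∧ g x = 0) c AlgEquiv.refl
    {rg p hs, rg p hg} (fun _ h => h.1)
    (fun x hx a ha => by
      rcases ha with ha | ha
      · rw [ha]
        exact hx.2.1
      · rw [Set.mem_singleton_iff.1 ha]
        exact hx.2.2)
    (fun x hx => ⟨x.2, hx _ (Or.inl rfl), hx _ (Or.inr rfl)⟩)
  exact TT.of_surj_nil (Q := 0) ψ₃ s₃ n₃ (TT.blow' (rg p hs) (rg p hg)
    (TT.fin ψ₁ (RingHom.Finite.of_surjective _ s₁) n₁ h1)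
    (TT.fin ψ₂ (RingHom.Finite.of_surjective _ s₂) n₂ h2))

theorem gs_ax : Ax k (GS k K Ω) := ⟨gs_split, gs_fin, gs_line, gs_opn, gs_blow, gs_empty⟩

end Pool.Agent.CXD
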