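import Pool.Agent.P.MP_2ce3e7_ag.DN1
import Pool.Agent.P.MP_2ce3e7_ag.DN4
import Pool.Agent.P.MP_2ce3e7_ag.DV3
import Pool.Agent.P.MP_2ce3e7_ag.DB1
import Pool.Agent.P.MP_2ce3e7_ag.DA7

/-! Two more rules. -/

set_option linter.unusedSectionVars false
set_option linter.unusedVariables false

open Function Matrix
open scoped TensorProduct

noncomputable section

namespace Pool.Agent.CXD

variable {k K Ω : Type} [Field k] [Fintype k] [CommRing K] [Algebra k K] [IsNoetherianRing K]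
  [Field Ω] [Algebra k Ω] [IsAlgClosed Ω] {α : Type} [Af Ω α] {p : α → Prop} {q : ℕ}

open MvPolynomial in
theorem gs_aff {n : Type} [Fintype n] {D : α → n → Ω} {g : α → Ω} (c : Cz k p) (hD : Pm k D)
    (hg : Pm k g) (h1 : (GS k K Ω).good p)
    (h2 : (GS k K Ω).good fun x => p x ∧ D x = 0 ∧ g x = 0) :
    (GS k K Ω).good fun y : α × (n → Ω) => p y.1 ∧ y.2 ⬝ᵥ D y.1 + g y.1 = 0 := by
  obtain ⟨e, hC, hX⟩ := exists_mvE (k := k) (Ω := Ω) p n
  have hv : ∀ y : {y : α × (n → Ω) // p y.1},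
      (e (∑ i, X i * C (rg p (hD.eval i)) + C (rg p hg))).1 y = y.1.2 ⬝ᵥ D y.1.1 + g y.1.1 :=
    fun y => by
      rw [← evx_apply]
      simp only [map_add, map_sum, map_mul, evx_apply, hC, hX]
      rfl
  obtain ⟨ψ₁, s₁, n₁⟩ := exists_quot_DV3 (p := fun y : α × (n → Ω) => p y.1)
    (p₁ := fun y : α × (n → Ω) => p y.1 ∧ y.2 ⬝ᵥ D y.1 + g y.1 = 0) (c.comp Pm.id.fst) e
    {∑ i, X i * C (rg p (hD.eval i)) + C (rg p hg)} (fun _ h => h.1)
    (fun y hy a ha => by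
      rw [Set.mem_singleton_iff.1 ha, hv]
      exact hy.2)
    (fun y hy => ⟨y.2, (hv y).symm.trans (hy _ rfl)⟩)
  obtain ⟨ψ₂, s₂, n₂⟩ := exists_quot_DV3 (p₁ := fun x => p x ∧ D x = 0 ∧ g x = 0) c AlgEquiv.refl
    (insert (rg p hg) (Set.range fun i => rg p (hD.eval i))) (fun _ h => h.1)
    (by
      rintro x hx _ (rfl | ⟨i, rfl⟩)
      exacts [hx.2.2, congrFun hx.2.1 i])
    (fun x hx => ⟨x.2, funext fun i => hx _ (Or.inr ⟨i, rfl⟩), hx _ (Or.inl rfl)⟩)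
  have : Algebra.FiniteType k (MvPolynomial n (Rg k p)) :=
    Algebra.FiniteType.trans (S := Rg k p) inferInstance inferInstance
  exact TT.of_surj_nil (Q := 0) ψ₁ s₁ n₁ (TT.aff _ _ h1
    (TT.fin ψ₂ (RingHom.Finite.of_surjective _ s₂) n₂ h2))

open Polynomial in
theorem TT.asq {B B₁ : Type} [CommRing B] [Algebra k B] [Algebra.FiniteType k B] [CommRing B₁]
    [Algebra k B₁] [Algebra.FiniteType k B₁] (hq : Sch k q) {a t : k} (ht : t ≠ 0)
    (ha : a * t ^ q + t = 0) (e : B[X] ≃ₐ[k] B₁) (f : B) (hT : TT k K (B₁[X] ⧸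
      Ideal.span {X * C (e (C f)) + C (-(algebraMap k B₁ a * e X ^ q + e X))}) 0 0) :
    TT k K (B ⧸ Ideal.span {f}) 0 0 := by
  obtain ⟨m, rfl⟩ : ∃ m, q = m + 2 := ⟨q - 2, by have := hq.lt; omega⟩
  have hw : X * (C (algebraMap k B a) * X ^ (m + 1) + 1) =
      C (algebraMap k B a) * X ^ (m + 2) + X := by ring
  have h3 : a * t ^ (m + 1) + 1 = 0 := mul_left_cancel₀ ht (by linear_combination ha)
  refine TT.asb' e f (algebraMap k _ t) (C (algebraMap k B a) * X ^ (m + 1) + 1) (by simp) ?_ ?_ ?_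
  · simpa using congrArg (algebraMap k B) h3
  · have h4 := congrArg (fun z => (C (algebraMap k B z))) ha
    simp only [map_add, map_mul, map_pow, map_zero] at h4
    rw [hw, add_comp, mul_comp, C_comp, pow_comp, X_comp, hq.add_pow]
    linear_combination h4
  · rwa [hw, map_neg, map_add, map_mul, map_pow, ← Polynomial.algebraMap_apply, e.commutes]

open Polynomial in
theorem gs_as (hq : Sch k q) {a t : k} (ht : t ≠ 0) (ha : a * t ^ q + t = 0) {f : α → Ω}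
    (c : Cz k p) (hf : Pm k f) (h : (GS k K Ω).good fun y : (α × Ω) × Ω => p y.1.1 ∧
      y.2 * f y.1.1 = algebraMap k Ω a * y.1.2 ^ q + y.1.2) :
    (GS k K Ω).good fun x => p x ∧ f x = 0 := by
  obtain ⟨e₁, hC₁, hX₁⟩ := exists_polyE (k := k) (Ω := Ω) p
  obtain ⟨e₂, hC₂, hX₂⟩ := exists_polyE (k := k) (Ω := Ω) fun y : α × Ω => p y.1
  have hv : ∀ y : {y : (α × Ω) × Ω // p y.1.1},
      (e₂ (X * C (e₁ (C (rg p hf))) + C (-(algebraMap k _ a * e₁ X ^ q + e₁ X)))).1 y =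
        y.1.2 * f y.1.1.1 - (algebraMap k Ω a * y.1.1.2 ^ q + y.1.1.2) := fun y => by
    rw [← evx_apply, map_add, map_mul, map_add, map_mul, evx_apply, evx_apply, evx_apply, hC₂, hC₂,
      hX₂, hC₁, sub_eq_add_neg, ← hX₁ ⟨y.1.1, y.2⟩]
    rfl
  obtain ⟨ψ₁, s₁, n₁⟩ := exists_quot_DV3 (p := fun y : (α × Ω) × Ω => p y.1.1)
    (p₁ := fun y : (α × Ω) × Ω => p y.1.1 ∧
      y.2 * f y.1.1 = algebraMap k Ω a * y.1.2 ^ q + y.1.2) (c.comp Pm.id.fst.fst) e₂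
    {X * C (e₁ (C (rg p hf))) + C (-(algebraMap k _ a * e₁ X ^ q + e₁ X))} (fun _ h => h.1)
    (fun y hy a ha => by
      rw [Set.mem_singleton_iff.1 ha, hv]
      exact sub_eq_zero.2 hy.2)
    (fun y hy => ⟨y.2, sub_eq_zero.1 ((hv y).symm.trans (hy _ rfl))⟩)
  obtain ⟨ψ₂, s₂, n₂⟩ := exists_quot_DV3 (p₁ := fun x => p x ∧ f x = 0) c AlgEquiv.refl
    {rg p hf} (fun _ h => h.1)
    (fun x hx a ha => by
      rw [Set.mem_singleton_iff.1 ha]
      exact hx.2)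
    (fun x hx => ⟨x.2, hx _ rfl⟩)
  exact TT.of_surj_nil ψ₂ s₂ n₂ (TT.asq hq ht ha e₁ (rg p hf)
    (TT.fin ψ₁ (RingHom.Finite.of_surjective _ s₁) n₁ h))

theorem Su.exists_neg (hq : Su k q) : ∃ t : k, t ≠ 0 ∧ t ^ q + t = 0 := by
  obtain ⟨g, g1, g2⟩ := gen_DB1 hq
  refine ⟨g ^ q - g, fun h => ?_, by rw [hq.sub_pow, ← pow_mul, ← sq, hq.pow_card]; ring⟩
  obtain ⟨m, rfl⟩ : ∃ m, q = m + 2 := ⟨q - 2, by have := hq.lt; omega⟩
  have e : (m + 2) ^ 2 - 1 = (m + 1) * (m + 3) := by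
    rw [Nat.sub_eq_iff_eq_add (Nat.one_le_pow _ _ (by omega))]; ring
  rw [e] at g1 g2
  have g0 : g ≠ 0 := by
    rintro rfl
    rw [zero_pow (Nat.mul_ne_zero (by omega) (by omega))] at g1
    exact zero_ne_one g1
  refine g2 (m + 1) (by omega) (lt_mul_of_one_lt_right (by omega) (by omega)) ?_
  apply mul_right_cancel₀ g0
  linear_combination h

theorem gs_asb' (hq : Sch k q) (h0 : ∃ t : k, t ≠ 0 ∧ t ^ q + t = 0) {f : α → Ω} (c : Cz k p)
    (hf : Pm k f)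
    (h : (GS k K Ω).good fun y : α × Ω × Ω => p y.1 ∧ y.2.1 * f y.1 = y.2.2 ^ q + y.2.2) :
    (GS k K Ω).good fun x => p x ∧ f x = 0 := by
  obtain ⟨t, ht, ha⟩ := h0
  refine gs_as hq (a := 1) ht (by rwa [one_mul]) c hf (gs_ax.iso (fun y => ((y.1, y.2.2), y.2.1))
    (fun y => (y.1.1, y.2, y.1.2)) (by fun_prop) (by fun_prop) (fun z hz => ?_) (fun z hz => ?_)
    (fun _ _ => rfl) (fun _ _ => rfl) h)
  · rwa [map_one, one_mul]
  · rwa [map_one, one_mul] at hz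

theorem gs_asb (hq : Su k q) {f : α → Ω} (c : Cz k p) (hf : Pm k f)
    (h : (GS k K Ω).good fun y : α × Ω × Ω => p y.1 ∧ y.2.1 * f y.1 = y.2.2 ^ q + y.2.2) :
    (GS k K Ω).good fun x => p x ∧ f x = 0 := gs_asb' hq.sch hq.exists_neg c hf h

theorem gs_asm (hq : Su k q) {f : α → Ω} (c : Cz k p) (hf : Pm k f)
    (h : (GS k K Ω).good fun y : α × Ω × Ω => p y.1 ∧ y.2.1 * f y.1 = y.2.2 ^ q - y.2.2) :
    (GS k K Ω).good fun x => p x ∧ f x = 0 := by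
  refine gs_as hq.sch (a := -1) one_ne_zero (by simp) c hf (gs_ax.iso (fun y => ((y.1, y.2.2), -y.2.1))
    (fun y => (y.1.1, -y.2, y.1.2)) (by fun_prop) (by fun_prop) (fun z hz => ⟨hz.1, ?_⟩)
    (fun z hz => ⟨hz.1, ?_⟩) (fun _ _ => by simp) (fun _ _ => by simp) h)
  · rw [map_neg, map_one]
    linear_combination -hz.2
  · have h1 := hz.2
    rw [map_neg, map_one] at h1
    linear_combination -h1

end Pool.Agent.CXD
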