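import Pool.Agent.P.MP_2ce3e7_ag.DA0

/-! The rules for good open varieties. -/

set_option linter.unusedSectionVars false
set_option linter.unusedVariables false

open Function Matrix

noncomputable section

namespace Pool.Agent.CXD

variable (k : Type) {Ω : Type} [Field k] [Field Ω] [Algebra k Ω]

/-- classes of pairs of varieties -/
structure Gq (Ω : Type) where
  rel : ∀ {α : Type} [Af Ω α], (α → Prop) → (α → Prop) → Prop

/-- `E` is a cone of rank greater than `j` over `p`, and the zero set of the linear forms `μ` is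
spanned by the `j` columns of `b` outside the zero set of the functions `s` -/
structure Vs {α n ι₀ ι₁ : Type} [Af Ω α] [Fintype n] [DecidableEq n] (p : α → Prop)
    (E : α × (n → Ω) → Prop) (j : ℕ) (s : ι₀ → α → Ω) (μ : ι₁ → α → n → Ω)
    (η : Fin j → ι₀ → α → n → Ω) (b : α → n → Fin j → Ω) : Prop where
  cp : Cz k p
  cE : Cz k E
  ps : ∀ J, Pm k (s J)
  pμ : ∀ m, Pm k (μ m)
  pη : ∀ i J, Pm k (η i J)
  pb : Pm k b
  base : ∀ y, E y → p y.1
  smul : ∀ x v (t : Ω), E (x, v) → E (x, t • v)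
  sec : ∀ J, ∃ (w : α → Fin (j + 1) → n → Ω) (I : Fin (j + 1) → n), Pm k w ∧
    (∀ x (y : Fin (j + 1) → Ω), p x → E (x, ∑ i, y i • w x i)) ∧
      ∀ x i i', p x → w x i (I i') = if i = i' then s J x else 0
  rel : ∀ x v, E (x, v) → (∀ m, μ m x ⬝ᵥ v = 0) → ∀ J₀, s J₀ x ≠ 0 →
    (∀ i J J', s J x * (η i J' x ⬝ᵥ v) = s J' x * (η i J x ⬝ᵥ v)) ∧
      ∀ J r, s J x * v r = ∑ i, b x r i * (η i J x ⬝ᵥ v)

/-- the rules -/
structure Aq (G : Gp Ω) (R : Gq Ω) : Prop where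
  iso : ∀ {α β : Type} [Af Ω α] [Af Ω β] {p p₀ : α → Prop} {p' p₀' : β → Prop} (f : β → α)
    (r : α → β), Pm k f → Pm k r → (∀ z, p' z → p (f z)) → (∀ x, p x → p' (r x)) →
    (∀ z, p' z → r (f z) = z) → (∀ x, p x → f (r x) = x) → (∀ z, p' z → p₀' z → p₀ (f z)) →
    R.rel p' p₀' → R.rel p p₀
  piece : ∀ {α β ι : Type} [Af Ω α] [Af Ω β] [Finite ι] {p p₀ : α → Prop} {p' : β → Prop}
    (g : ι → α → Ω) (f : β → α) (r : ι → α × Ω → β), Cz k p → (∀ i, Pm k (g i)) → Pm k f →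
    (∀ i, Pm k (r i)) → (∀ z, p' z → p (f z)) →
    (∀ x i, p x → g i x ≠ 0 → ∃ z, p' z ∧ f z = x) →
    (∀ i z u, p' z → g i (f z) * u = 1 → r i (f z, u) = z) →
    (∀ x, p x → (∀ i, g i x = 0) → p₀ x) → G.good p' → R.rel p p₀
  vs : ∀ {α n ι₀ ι₁ : Type} [Af Ω α] [Fintype n] [DecidableEq n] [Finite ι₀] [Finite ι₁]
    {p : α → Prop} {E : α × (n → Ω) → Prop} {j : ℕ} {s : ι₀ → α → Ω} {μ : ι₁ → α → n → Ω}
    {η : Fin j → ι₀ → α → n → Ω} {b : α → n → Fin j → Ω}, Vs k p E j s μ η b →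
    R.rel E (fun y => ∀ m, μ m y.1 ⬝ᵥ y.2 = 0) → R.rel p fun x => ∀ J, s J x = 0

end Pool.Agent.CXD
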