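import Mathlib

/-! Configurations of flags for the unitary groups. -/

namespace Pool.Agent.CXD

open Matrix

variable {Ω : Type} [Field Ω] {N d m : ℕ}

/-- The columns of `v` are linear combinations of the columns of `u`. -/
def Sb {n a b : ℕ} (u : Matrix (Fin n) (Fin a) Ω) (v : Matrix (Fin n) (Fin b) Ω) : Prop :=
  ∃ w : Matrix (Fin a) (Fin b) Ω, v = u * w

/-- `∑ r, x r * y r ^ q = 0` for the columns `x` of `u` and `y` of `v`. -/
def Pp (q : ℕ) {n a b : ℕ} (u : Matrix (Fin n) (Fin a) Ω) (v : Matrix (Fin n) (Fin b) Ω) :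
    Prop :=
  uᵀ * v.map (· ^ q) = 0

/-- The subspaces are indexed by a factor, a place in the chain and a place in the flag. -/
abbrev Ix (N d m : ℕ) : Type := Fin N × Fin (d + 1) × Fin m

/-- Chains of flags whose last member is related to the Frobenius twist of the first. -/
structure Cfg (q : ℕ) {n : Fin N → ℕ} {δ : Ix N d m → ℕ} (E : Ix N d m → Set (Fin m))
    (u : ∀ s : Ix N d m, Matrix (Fin (n s.1)) (Fin (δ s)) Ω) : Prop where
  flag : ∀ b c i j, i ≤ j → Sb (u (b, c, j)) (u (b, c, i))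
  step : ∀ b (c : Fin d) i, ∀ j ∈ E (b, c.castSucc, i), Sb (u (b, c.castSucc, i)) (u (b, c.succ, j))
  last : ∀ b i, ∀ j ∈ E (b, Fin.last d, i), Pp q (u (b, Fin.last d, i)) (u (b, 0, j))

/-- The cone over the variety of configurations in the Plücker–Segre embedding. -/
def cone (Ω : Type) [Field Ω] (n : Fin N → ℕ) (q : ℕ) (δ : Ix N d m → ℕ)
    (E : Ix N d m → Set (Fin m)) : Set ((∀ s : Ix N d m, Fin (δ s) → Fin (n s.1)) → Ω) :=
  {z | ∃ (t : Ω) (u : ∀ s : Ix N d m, Matrix (Fin (n s.1)) (Fin (δ s)) Ω), Cfg q E u ∧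
    ∀ I, z I = t * ∏ s, ((u s).submatrix (I s) id).det}

/-- The ideal of the cone. -/
noncomputable def cI (k : Type) [Field k] (n : Fin N → ℕ) (q : ℕ) (δ : Ix N d m → ℕ)
    (E : Ix N d m → Set (Fin m)) :
    Ideal (MvPolynomial (∀ s : Ix N d m, Fin (δ s) → Fin (n s.1)) k) :=
  MvPolynomial.vanishingIdeal k (cone (AlgebraicClosure k) n q δ E)

end Pool.Agent.CXD
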