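import Pool.Agent.P.MP_2ce3e7_ag.DTa

/-! The devissage theorem. -/

set_option autoImplicit false

noncomputable section

namespace Pool.Agent.Tate

open MvPolynomial

section DT

variable {m : ℕ} {k ι₀ κ σ H : Type} [Field k] [AddCommGroup H] [Fintype ι₀] [Fintype κ]
  [Fintype H] (D : QD m k ι₀ κ σ H) {V : Type*} [AddCommGroup V] [Module ℂ V]
  (e : G m k (ι₀ ⊕ κ) →ₗ[ℂ] V)

/-- the property that is proved by induction over the primes of the ring of the quotient -/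
def DT_Phi (p : Ideal (MvPolynomial (σ ⊕ κ × Fin 3) k)) : Prop :=
  ∀ P n, D.Good P → ¬ Irr P → P.comap D.θ = p → e (cy m P n) = 0

variable {D e}

omit [Fintype ι₀] [Fintype κ] [Fintype H] in
theorem DT_comap_comap (P : Ideal (S k (ι₀ ⊕ κ))) (g g' : H) :
    (P.comap (sc (D.c g))).comap (sc (D.c g')) = P.comap (sc (D.c (g + g'))) := by
  ext f
  simp only [Ideal.mem_comap]
  rw [sc_sc, D.c_add]

omit [Fintype ι₀] [Fintype κ] [Fintype H] in
theorem DT_comap_zero (P : Ideal (S k (ι₀ ⊕ κ))) : P.comap (sc (D.c 0)) = P := by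
  ext f
  simp only [Ideal.mem_comap]
  rw [D.c_zero, sc_one]

omit [Fintype ι₀] [Fintype κ] in
theorem DT_conj_le {P : Ideal (S k (ι₀ ⊕ κ))} {g : H} (h : P ≤ P.comap (sc (D.c g))) :
    P.comap (sc (D.c g)) ≤ P := by
  have h1 : ∀ n : ℕ, P ≤ P.comap (sc (D.c (n • g))) := by
    intro n
    induction n with
    | zero => rw [zero_smul, DT_comap_zero]
    | succ n ih =>
      rw [succ_nsmul, ← DT_comap_comap]
      exact h.trans (Ideal.comap_mono ih)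
  have h2 : 0 < addOrderOf g := addOrderOf_pos g
  obtain ⟨n, hn⟩ := Nat.exists_eq_succ_of_ne_zero h2.ne'
  have h3 : n • g + g = 0 := by
    rw [← succ_nsmul, ← Nat.succ_eq_add_one, ← hn]
    exact addOrderOf_nsmul_eq_zero g
  have h4 := Ideal.comap_mono (f := sc (D.c g)) (h1 n)
  rwa [DT_comap_comap, h3, DT_comap_zero] at h4

omit [Fintype H] in
/-- reduction to good primes that are not irrelevant -/
theorem DT_red (h2 : ∀ b ∈ D.β, Kil e (D.I ⊔ Ideal.span {b})) {P : Ideal (S k (ι₀ ⊕ κ))}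
    {n : ι₀ ⊕ κ → ℤ} (hg : GrI P) (hP : P.IsPrime) (hI : D.I ≤ P)
    (h : D.Good P → ¬ Irr P → e (cy m P n) = 0) : e (cy m P n) = 0 := by
  by_cases hi : Irr P
  · rw [cy_irr hi, map_zero]
  by_cases hb : ∃ b ∈ D.β, b ∈ P
  · obtain ⟨b, hb, hbP⟩ := hb
    exact (h2 b hb).cy (sup_le hI ((Ideal.span_singleton_le_iff_mem _).2 hbP)) n
  · exact h ⟨hg, hP, hI, fun b hb' hbP => hb ⟨b, hb', hbP⟩⟩ hi

/-- larger primes are killed -/
theorem DT_above (h2 : ∀ b ∈ D.β, Kil e (D.I ⊔ Ideal.span {b})) {P : Ideal (S k (ι₀ ⊕ κ))}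
    (hP : D.Good P) (hi : ¬ Irr P)
    (hab : ∀ p', GrW D.w p' → p'.IsPrime → P.comap D.θ < p' → DT_Phi D e p')
    {P' : Ideal (S k (ι₀ ⊕ κ))} (hg : GrI P') (hP' : P'.IsPrime) (hlt : P < P')
    (n : ι₀ ⊕ κ → ℤ) : e (cy m P' n) = 0 := by
  refine DT_red h2 hg hP' (hP.le.trans hlt.le) fun hG hi' => ?_
  have hle : P.comap D.θ ≤ P'.comap D.θ := Ideal.comap_mono hlt.le
  rcases hle.eq_or_lt with heq | hl
  · obtain ⟨g, hg'⟩ := QD.exists_eq hP hG hi hi' heq.symm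
    have h1 : P ≤ P.comap (sc (D.c g)) := hg' ▸ hlt.le
    exact absurd (hg' ▸ DT_conj_le h1 : P' ≤ P) (not_le_of_gt hlt)
  · exact hab _ (QD.grW_comap hg) (Ideal.comap_isPrime _ _) hl P' n hG hi' rfl

/-- shifts do not matter -/
theorem DT_shift (h2 : ∀ b ∈ D.β, Kil e (D.I ⊔ Ideal.span {b})) {P : Ideal (S k (ι₀ ⊕ κ))}
    (hP : D.Good P) (hi : ¬ Irr P)
    (hab : ∀ p', GrW D.w p' → p'.IsPrime → P.comap D.θ < p' → DT_Phi D e p')
    (n n' : ι₀ ⊕ κ → ℤ) : e (cy m P n) = e (cy m P n') := by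
  obtain ⟨α, hα⟩ := exists_var_notMem hP.prime hi
  refine cy_shift hP.gr hP.prime (D.fer.trans hP.le) α hα (fun i => ?_) n n'
  refine kil_of_primes fun P' s hg hP' _ hl => DT_above h2 hP hi hab hg hP' ?_ s
  refine lt_of_le_of_ne (le_sup_left.trans hl) fun heq => hα i ?_
  rw [heq]
  exact hl (Ideal.mem_sup_right (Ideal.mem_span_singleton_self _))

/-- counting the factors of a prime filtration -/
theorem DT_count
    (h1 : ∀ g P n, GrI P → D.I ≤ P → e (cy m (P.comap (sc (D.c g))) n) = e (cy m P n))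
    (h2 : ∀ b ∈ D.β, Kil e (D.I ⊔ Ideal.span {b})) {P : Ideal (S k (ι₀ ⊕ κ))}
    (hP : D.Good P) (hi : ¬ Irr P)
    (hab : ∀ p', GrW D.w p' → p'.IsPrime → P.comap D.θ < p' → DT_Phi D e p')
    {J : Ideal (S k (ι₀ ⊕ κ))} (hJ : GrI J) (hIJ : D.I ≤ J) (hJP : J ≤ P) {n₀ : ι₀ ⊕ κ → ℤ}
    (h0 : e (cy m J n₀) = 0)
    (hor : ∀ P', D.Good P' → J ≤ P' → P'.comap D.θ ≠ P.comap D.θ → DT_Phi D e (P'.comap D.θ))
    (hbel : ∀ P', D.Good P' → J ≤ P' → P' ≤ P → P'.comap D.θ = P.comap D.θ)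
    (n : ι₀ ⊕ κ → ℤ) : e (cy m P n) = 0 := by
  classical
  obtain ⟨M, x, hM, hcls⟩ := exists_cy (m := m) hJ (D.fer.trans hIJ) n₀
  obtain ⟨N, Q, s, hQ, hmin, hsum⟩ := dv M
  rw [hM.ann_eq] at hQ hmin
  set T : Finset (Fin N) := Finset.univ.filter fun i =>
    D.Good (Q i) ∧ ¬ Irr (Q i) ∧ (Q i).comap D.θ = P.comap D.θ with hT
  have hval : ∀ i, e (cy m (Q i) (s i)) = if i ∈ T then e (cy m P n) else 0 := by
    intro i
    split_ifs with hiT
    · obtain ⟨hG, hi', heq⟩ := (Finset.mem_filter.1 hiT).2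
      obtain ⟨g, hg⟩ := QD.exists_eq hP hG hi hi' heq
      rw [hg, h1 g P _ hP.gr hP.le]
      exact DT_shift h2 hP hi hab _ _
    · refine DT_red h2 (hQ i).1 (hQ i).2.1 (hIJ.trans (hQ i).2.2) fun hG hi' => ?_
      refine hor _ hG (hQ i).2.2 (fun heq => hiT ?_) _ _ hG hi' rfl
      exact Finset.mem_filter.2 ⟨Finset.mem_univ _, hG, hi', heq⟩
  have hne : T.Nonempty := by
    obtain ⟨i, hi'⟩ := hmin P hP.prime hJP
    have hG : D.Good (Q i) :=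
      ⟨(hQ i).1, (hQ i).2.1, hIJ.trans (hQ i).2.2, fun b hb hbQ => hP.nb b hb (hi' hbQ)⟩
    exact ⟨i, Finset.mem_filter.2 ⟨Finset.mem_univ _, hG, fun h => hi (h.mono hi'),
      hbel _ hG (hQ i).2.2 hi'⟩⟩
  rw [hcls, hsum, map_sum, Finset.sum_congr rfl fun i _ => hval i, Finset.sum_ite_mem,
    Finset.univ_inter, Finset.sum_const, ← Nat.cast_smul_eq_nsmul ℂ] at h0
  exact (smul_eq_zero.1 h0).resolve_left (Nat.cast_ne_zero.2 hne.card_pos.ne')

omit [Fintype ι₀] [Fintype κ] [Fintype H] in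
theorem DT_θ_rename (f : S k κ) : D.θ (rename Sum.inr f) = rn Sum.inr f := by
  have : D.θ.comp (rename Sum.inr) = rn Sum.inr := by
    refine MvPolynomial.algHom_ext fun v => ?_
    rw [AlgHom.comp_apply, rename_X, rn_X, QD.θ, aeval_X, Sum.elim_inr]
  exact AlgHom.congr_fun this f

omit [Fintype ι₀] [Fintype κ] [Fintype H] [AddCommGroup H] in
theorem DT_grI_comap {P : Ideal (S k (ι₀ ⊕ κ))} (h : GrI P) :
    GrI (P.comap (rn (Sum.inr : κ → ι₀ ⊕ κ))) := by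
  classical
  let v : (κ → ℤ) →+ (ι₀ ⊕ κ → ℤ) :=
    { toFun := fun d => Sum.elim 0 d
      map_zero' := by ext (i | i) <;> rfl
      map_add' := fun d d' => by ext (i | i) <;> simp }
  refine GrW.comap h (rn Sum.inr) v (fun d d' hd => funext fun i => congrFun hd (Sum.inr i))
    fun s => ?_
  have hv : v (wt s) = wt ((Sum.inr s.1 : ι₀ ⊕ κ), s.2) := by
    ext (i | i)
    · rw [wt_apply, if_neg Sum.inl_ne_inr]; rfl
    · change wt s i = _
      rw [wt_apply, wt_apply]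
      simp only [Sum.inr.injEq]
  rw [rn_X, hv]
  exact hg_X _

/-- primes that are extended from the base -/
theorem DT_ruleB
    (h1 : ∀ g P n, GrI P → D.I ≤ P → e (cy m (P.comap (sc (D.c g))) n) = e (cy m P n))
    (h2 : ∀ b ∈ D.β, Kil e (D.I ⊔ Ideal.span {b}))
    (h3 : ∀ Q : Ideal (S k κ), GrI Q → Fer m k κ ≤ Q → ∀ n,
      e (cy m (D.I ⊔ Q.map (rn Sum.inr)) n) = 0)
    {p : Ideal (MvPolynomial (σ ⊕ κ × Fin 3) k)} (hp : extc (Set.range Sum.inr) p = p)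
    (hab : ∀ p', GrW D.w p' → p'.IsPrime → p < p' → DT_Phi D e p') : DT_Phi D e p := by
  intro P n hP hi hPp
  subst hPp
  have hQ := DT_grI_comap hP.gr
  have hF : Fer m k κ ≤ P.comap (rn (Sum.inr : κ → ι₀ ⊕ κ)) := fun f hf =>
    hP.le (D.fer (rn_mem_Fer _ hf))
  have hle : ∀ P' : Ideal (S k (ι₀ ⊕ κ)),
      D.I ⊔ (P.comap (rn (Sum.inr : κ → ι₀ ⊕ κ))).map (rn Sum.inr) ≤ P' →
      P.comap D.θ ≤ P'.comap D.θ := by
    intro P' hl
    rw [← hp, extc_range Sum.inr_injective, Ideal.map_le_iff_le_comap]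
    intro f hf
    rw [Ideal.mem_comap, Ideal.mem_comap, DT_θ_rename] at hf ⊢
    exact hl (Ideal.mem_sup_right (Ideal.mem_map_of_mem _ hf))
  refine DT_count h1 h2 hP hi hab (D.grI.sup (hQ.map_rn Sum.inr_injective)) le_sup_left
    (sup_le hP.le Ideal.map_comap_le) (h3 _ hQ hF n) (fun P' hG hl hne => ?_)
    (fun P' _ hl hl' => le_antisymm (Ideal.comap_mono hl') (hle P' hl)) n
  have := hG.prime
  exact hab _ (QD.grW_comap hG.gr) (Ideal.comap_isPrime _ _) (lt_of_le_of_ne (hle P' hl) hne.symm)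

/-- primes that are cut out by one more equation -/
theorem DT_ruleR
    (h1 : ∀ g P n, GrI P → D.I ≤ P → e (cy m (P.comap (sc (D.c g))) n) = e (cy m P n))
    (h2 : ∀ b ∈ D.β, Kil e (D.I ⊔ Ideal.span {b}))
    {p p₁ : Ideal (MvPolynomial (σ ⊕ κ × Fin 3) k)} {ψ : MvPolynomial (σ ⊕ κ × Fin 3) k}
    {d : ι₀ ⊕ κ → ℤ} (hg₁ : GrW D.w p₁) (hp₁ : p₁.IsPrime) (hl : p₁ ≤ p)
    (he : extc (Set.range Sum.inr) p₁ = extc (Set.range Sum.inr) p) (hψ : ψ ∈ p) (hψ₁ : ψ ∉ p₁)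
    (hd : ψ.IsWeightedHomogeneous D.w d)
    (hmin : ∀ p', p'.IsPrime → p₁ ≤ p' → ψ ∈ p' → p' ≤ p → p' = p)
    (hab : ∀ p', GrW D.w p' → p'.IsPrime → p < p' → DT_Phi D e p')
    (hoth : ∀ p', GrW D.w p' → p'.IsPrime → p₁ ≤ p' → ψ ∈ p' → p' ≠ p → DT_Phi D e p')
    (hvar : ∀ p' y, GrW D.w p' → p'.IsPrime → p₁ ≤ p' → y ∈ Set.range Sum.inr → X y ∉ p₁ →
      X y ∈ p' → DT_Phi D e p') : DT_Phi D e p := by
  intro P n hP hi hPp
  subst hPp
  obtain ⟨P₁, hP₁, hPP, hc⟩ : ∃ P₁, D.Good P₁ ∧ P₁ ≤ P ∧ P₁.comap D.θ = p₁ := by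
    obtain ⟨P₀, hP₀, hc⟩ := QD.exists_over hP hg₁ hp₁ hl he
    obtain ⟨g, hg⟩ := QD.exists_le hP hP₀ hi (hc ▸ hl)
    refine ⟨_, hP₀.conj (-g), ?_, by rw [QD.comap_conj hP₀.gr, hc]⟩
    have h := Ideal.comap_mono (f := sc (D.c (-g))) hg
    rwa [DT_comap_comap, add_neg_cancel, DT_comap_zero] at h
  subst hc
  have hi₁ : ¬ Irr P₁ := fun h => hi (h.mono hPP)
  have hF₁ : Fer m k (ι₀ ⊕ κ) ≤ P₁ := D.fer.trans hP₁.le
  have hsh : ∀ n n', e (cy m P₁ n) = e (cy m P₁ n') := by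
    obtain ⟨α, hα⟩ := exists_var_notMem hP₁.prime hi₁
    choose γ hγ using D.β_var
    refine cy_shift hP₁.gr hP₁.prime hF₁ (Sum.elim γ fun i => α (Sum.inr i)) ?_ ?_
    · rintro (i | i)
      · exact hP₁.nb _ (hγ i)
      · exact hα _
    · rintro (i | i)
      · exact fun M hM => h2 _ (hγ i) M ((sup_le_sup_right hP₁.le _).trans hM)
      · refine kil_of_primes fun P' s hg hP' _ hl' => ?_
        have hl₁ : P₁ ≤ P' := le_sup_left.trans hl'
        refine DT_red h2 hg hP' (hP₁.le.trans hl₁) fun hG hi' => ?_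
        have hX : D.θ (X (Sum.inr (i, α (Sum.inr i)))) = X (Sum.inr i, α (Sum.inr i)) := by
          rw [QD.θ, aeval_X, Sum.elim_inr]
        refine hvar _ (Sum.inr (i, α (Sum.inr i))) (QD.grW_comap hg) (Ideal.comap_isPrime _ _)
          (Ideal.comap_mono hl₁) ⟨_, rfl⟩ ?_ ?_ P' s hG hi' rfl
        · rw [Ideal.mem_comap, hX]
          exact hα _
        · rw [Ideal.mem_comap, hX]
          exact hl' (Ideal.mem_sup_right (Ideal.mem_span_singleton_self _))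
  have hθ : Hg (D.θ ψ) d := QD.θ_hom hd
  have h0 : e (cy m (P₁ ⊔ Ideal.span {D.θ ψ}) n) = 0 := by
    have h := congrArg e (cy_mul (m := m) hP₁.gr hF₁ hθ
      (fun g hg => (hP₁.prime.mem_or_mem hg).resolve_left hψ₁) n)
    rw [map_add, hsh (n - d) n] at h
    exact (left_eq_add.1 h)
  have hgs : GrI (Ideal.span {D.θ ψ}) := grW_span fun f hf => ⟨d, by
    rw [Set.mem_singleton_iff.1 hf]; exact hθ⟩
  have hmem : ∀ P' : Ideal (S k (ι₀ ⊕ κ)), P₁ ⊔ Ideal.span {D.θ ψ} ≤ P' → ψ ∈ P'.comap D.θ :=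
    fun P' h => h (Ideal.mem_sup_right (Ideal.mem_span_singleton_self _))
  refine DT_count h1 h2 hP hi hab (hP₁.gr.sup hgs) (hP₁.le.trans le_sup_left)
    (sup_le hPP ((Ideal.span_singleton_le_iff_mem _).2 hψ)) h0 (fun P' hG hl' hne => ?_)
    (fun P' hG hl' hl'' => ?_) n
  · have := hG.prime
    exact hoth _ (QD.grW_comap hG.gr) (Ideal.comap_isPrime _ _)
      (Ideal.comap_mono (le_sup_left.trans hl')) (hmem P' hl') hne
  · have := hG.prime
    exact hmin _ (Ideal.comap_isPrime _ _) (Ideal.comap_mono (le_sup_left.trans hl'))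
      (hmem P' hl') (Ideal.comap_mono hl'')

end DT

theorem QD.kil {m : ℕ} {k ι₀ κ σ H : Type} [Field k] [AddCommGroup H] [Fintype ι₀] [Fintype κ]
    [Fintype H] [Finite σ] (D : QD m k ι₀ κ σ H) {V : Type*} [AddCommGroup V] [Module ℂ V]
    (e : G m k (ι₀ ⊕ κ) →ₗ[ℂ] V)
    (h1 : ∀ g P n, GrI P → D.I ≤ P → e (cy m (P.comap (sc (D.c g))) n) = e (cy m P n))
    (h2 : ∀ b ∈ D.β, Kil e (D.I ⊔ Ideal.span {b}))
    (h3 : ∀ Q : Ideal (S k κ), GrI Q → Fer m k κ ≤ Q → ∀ n,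
      e (cy m (D.I ⊔ Q.map (rn Sum.inr)) n) = 0) : Kil e D.I := by
  refine kil_of_primes fun P n hg hP _ hI => DT_red h2 hg hP hI fun hG hi => ?_
  refine prime_ind D.w (Set.range Sum.inr) (DT_Phi D e)
    (fun p _ _ hp hab => DT_ruleB h1 h2 h3 hp hab)
    (fun p p₁ ψ d _ _ hg₁ hp₁ hl he hψ hψ₁ hd hmin hab hoth hvar =>
      DT_ruleR h1 h2 hg₁ hp₁ hl he hψ hψ₁ hd hmin hab hoth hvar)
    (P.comap D.θ) (QD.grW_comap hg) (Ideal.comap_isPrime _ _) P n hG hi rfl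

end Pool.Agent.Tate
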