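import Mathlib

/-! Affine spaces and polynomial maps. -/

set_option linter.unusedSectionVars false
set_option linter.unusedVariables false
set_option warn.classDefReducibility false

open Function

noncomputable section

namespace Pool.Agent.CXD

/-- affine spaces over `Ω` -/
class Af (Ω : outParam Type) (α : Type) where
  ι : Type
  [fin : Fintype ι]
  e : α ≃ (ι → Ω)

attribute [instance] Af.fin

section
variable (Ω : Type)

instance Af.self [Field Ω] : Af Ω Ω := ⟨Unit, (Equiv.funUnique Unit Ω).symm⟩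

instance Af.prod (α β : Type) [a : Af Ω α] [b : Af Ω β] : Af Ω (α × β) :=
  ⟨a.ι ⊕ b.ι, (a.e.prodCongr b.e).trans (Equiv.sumArrowEquivProdArrow _ _ _).symm⟩

instance Af.pi (κ : Type) [Fintype κ] (α : κ → Type) [a : ∀ i, Af Ω (α i)] : Af Ω (∀ i, α i) :=
  letI := Classical.decEq κ
  ⟨Σ i, (a i).ι, (Equiv.piCongrRight fun i => (a i).e).trans (Equiv.piCurry fun _ _ => Ω).symm⟩

instance Af.mat (m n : Type) [Fintype m] [Fintype n] [Field Ω] : Af Ω (Matrix m n Ω) :=
  Af.pi Ω m fun _ => n → Ω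

end

variable (k : Type) {Ω : Type} [Field k] [Field Ω] [Algebra k Ω] {α β γ : Type} [Af Ω α] [Af Ω β]
  [Af Ω γ]

/-- polynomial maps with coefficients in `k` -/
@[fun_prop]
def Pm {α β : Type} [Af Ω α] [Af Ω β] (f : α → β) : Prop :=
  ∀ j, ∃ p : MvPolynomial (Af.ι α) k, ∀ x, Af.e (f x) j = MvPolynomial.aeval (Af.e x) p

/-- rational points -/
class Kr (c : α) : Prop where
  out : ∀ j, ∃ a : k, Af.e c j = algebraMap k Ω a

variable {k}

theorem pm_self {f : α → Ω} :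
    Pm k f ↔ ∃ p : MvPolynomial (Af.ι α) k, ∀ x, f x = MvPolynomial.aeval (Af.e x) p :=
  ⟨fun h => h (), fun h _ => h⟩

theorem pm_iff {f : α → β} : Pm k f ↔ ∀ j, Pm k fun x => Af.e (f x) j :=
  ⟨fun h j _ => h j, fun h j => h j ()⟩

theorem kr_self {c : Ω} : Kr k c ↔ ∃ a : k, c = algebraMap k Ω a :=
  ⟨fun h => h.out (), fun h => ⟨fun _ => h⟩⟩

@[fun_prop]
theorem Pm.const (c : β) [h : Kr k c] : Pm k fun _ : α => c := fun j =>
  (h.out j).elim fun a ha => ⟨MvPolynomial.C a, fun x => by rw [ha, MvPolynomial.aeval_C]⟩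

@[fun_prop]
theorem Pm.id : Pm k fun x : α => x := fun j =>
  ⟨MvPolynomial.X j, fun x => by rw [MvPolynomial.aeval_X]⟩

@[fun_prop]
theorem Pm.comp {f : β → γ} {g : α → β} (hf : Pm k f) (hg : Pm k g) : Pm k fun x => f (g x) := by
  intro j
  obtain ⟨p, hp⟩ := hf j
  choose r hr using hg
  refine ⟨MvPolynomial.aeval r p, fun x => ?_⟩
  rw [hp, ← AlgHom.comp_apply, MvPolynomial.comp_aeval]
  exact congrArg (fun v => MvPolynomial.aeval v p) (funext fun i => hr i x)

@[fun_prop]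
theorem Pm.pi {κ : Type} [Fintype κ] {δ : κ → Type} [∀ i, Af Ω (δ i)] {f : α → ∀ i, δ i}
    (h : ∀ i, Pm k fun x => f x i) : Pm k fun x i => f x i := fun j => h j.1 j.2

@[fun_prop]
theorem Pm.apply {κ : Type} [Fintype κ] {δ : κ → Type} [∀ i, Af Ω (δ i)] (i : κ) :
    Pm k fun x : ∀ i, δ i => x i := fun j =>
  Pm.id (k := k) (α := ∀ i, δ i) (show Σ i, Af.ι (δ i) from ⟨i, j⟩)

theorem Pm.eval {κ : Type} [Fintype κ] {δ : κ → Type} [∀ i, Af Ω (δ i)] {f : α → ∀ i, δ i}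
    (h : Pm k f) (i : κ) : Pm k fun x => f x i := fun j => h ⟨i, j⟩

@[fun_prop]
theorem Pm.fst {f : α → β × γ} (h : Pm k f) : Pm k fun x => (f x).1 := fun j => h (Sum.inl j)

@[fun_prop]
theorem Pm.snd {f : α → β × γ} (h : Pm k f) : Pm k fun x => (f x).2 := fun j => h (Sum.inr j)

@[fun_prop]
theorem Pm.mk {f : α → β} {g : α → γ} (hf : Pm k f) (hg : Pm k g) : Pm k fun x => (f x, g x) :=
  fun j => match j with
    | Sum.inl j => hf j
    | Sum.inr j => hg j

theorem Pm.congr {f g : α → β} (hf : Pm k f) (h : ∀ x, g x = f x) : Pm k g := by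
  rwa [show g = f from funext h]

/-- a coordinate -/
def co (x : α) (j : Af.ι α) : Ω := Af.e x j

/-- the point with given coordinates -/
def pt (α : Type) [Af Ω α] (v : Af.ι α → Ω) : α := Af.e.symm v

theorem co_pt (v : Af.ι α → Ω) (j : Af.ι α) : co (pt α v) j = v j :=
  congrFun (Af.e.apply_symm_apply v) j

theorem pt_co (x : α) : pt α (co x) = x := Af.e.symm_apply_apply x

theorem co_ext {x y : α} (h : ∀ j, co x j = co y j) : x = y := Af.e.injective (funext h)

@[fun_prop]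
theorem Pm.co {f : α → β} (hf : Pm k f) (j : Af.ι β) : Pm k fun x => co (f x) j := pm_iff.1 hf j

@[fun_prop]
theorem Pm.pt {f : α → Af.ι β → Ω} (hf : Pm k f) : Pm k fun x => pt β (f x) :=
  pm_iff.2 fun j => (hf.eval j).congr fun x => co_pt _ j

@[fun_prop]
theorem Pm.add {f g : α → Ω} (hf : Pm k f) (hg : Pm k g) : Pm k fun x => f x + g x := by
  obtain ⟨p, hp⟩ := pm_self.1 hf
  obtain ⟨r, hr⟩ := pm_self.1 hg
  exact pm_self.2 ⟨p + r, fun x => by rw [map_add, hp, hr]⟩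

@[fun_prop]
theorem Pm.mul {f g : α → Ω} (hf : Pm k f) (hg : Pm k g) : Pm k fun x => f x * g x := by
  obtain ⟨p, hp⟩ := pm_self.1 hf
  obtain ⟨r, hr⟩ := pm_self.1 hg
  exact pm_self.2 ⟨p * r, fun x => by rw [map_mul, hp, hr]⟩

@[fun_prop]
theorem Pm.neg {f : α → Ω} (hf : Pm k f) : Pm k fun x => -f x := by
  obtain ⟨p, hp⟩ := pm_self.1 hf
  exact pm_self.2 ⟨-p, fun x => by rw [map_neg, hp]⟩

@[fun_prop]
theorem Pm.sub {f g : α → Ω} (hf : Pm k f) (hg : Pm k g) : Pm k fun x => f x - g x :=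
  (hf.add hg.neg).congr fun x => sub_eq_add_neg _ _

@[fun_prop]
theorem Pm.pow {f : α → Ω} (hf : Pm k f) (n : ℕ) : Pm k fun x => f x ^ n := by
  obtain ⟨p, hp⟩ := pm_self.1 hf
  exact pm_self.2 ⟨p ^ n, fun x => by rw [map_pow, hp]⟩

instance : Kr k (0 : Ω) := kr_self.2 ⟨0, (map_zero _).symm⟩

instance : Kr k (1 : Ω) := kr_self.2 ⟨1, (map_one _).symm⟩

instance (c : k) : Kr k (algebraMap k Ω c) := kr_self.2 ⟨c, rfl⟩

instance (n : ℕ) : Kr k (n : Ω) := kr_self.2 ⟨n, (map_natCast _ n).symm⟩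

instance (n : ℤ) : Kr k (n : Ω) := kr_self.2 ⟨n, (map_intCast _ n).symm⟩

instance (c : Ω) [h : Kr k c] : Kr k c⁻¹ :=
  (kr_self.1 h).elim fun a ha => kr_self.2 ⟨a⁻¹, by rw [ha, map_inv₀]⟩

theorem kr_pi {κ : Type} [Fintype κ] {δ : κ → Type} [∀ i, Af Ω (δ i)] {c : ∀ i, δ i}
    (h : ∀ i, Kr k (c i)) : Kr k c := ⟨fun j => (h j.1).out j.2⟩

theorem Kr.eval {κ : Type} [Fintype κ] {δ : κ → Type} [∀ i, Af Ω (δ i)] {c : ∀ i, δ i}
    (h : Kr k c) (i : κ) : Kr k (c i) := ⟨fun j => h.out ⟨i, j⟩⟩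

instance (a : α) (b : β) [ha : Kr k a] [hb : Kr k b] : Kr k (a, b) :=
  ⟨fun j => match j with
    | Sum.inl j => ha.out j
    | Sum.inr j => hb.out j⟩

instance {κ : Type} [Fintype κ] : Kr k (0 : κ → Ω) := kr_pi fun _ => inferInstanceAs (Kr k (0 : Ω))

@[fun_prop]
theorem Pm.sum {κ : Type} (s : Finset κ) {f : α → κ → Ω} (hf : ∀ i, Pm k fun x => f x i) :
    Pm k fun x => ∑ i ∈ s, f x i := by
  classical
  induction s using Finset.induction_on with
  | empty => exact (Pm.const (0 : Ω)).congr fun x => Finset.sum_empty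
  | insert a s ha ih => exact ((hf a).add ih).congr fun x => Finset.sum_insert ha

@[fun_prop]
theorem Pm.prod {κ : Type} (s : Finset κ) {f : α → κ → Ω} (hf : ∀ i, Pm k fun x => f x i) :
    Pm k fun x => ∏ i ∈ s, f x i := by
  classical
  induction s using Finset.induction_on with
  | empty => exact (Pm.const (1 : Ω)).congr fun x => Finset.prod_empty
  | insert a s ha ih => exact ((hf a).mul ih).congr fun x => Finset.prod_insert ha

@[fun_prop]
theorem Pm.ite (p : Prop) [Decidable p] {f g : α → β} (hf : Pm k f) (hg : Pm k g) :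
    Pm k fun x => if p then f x else g x := by
  split_ifs
  exacts [hf, hg]

@[fun_prop]
theorem Pm.dite (p : Prop) [Decidable p] {f : p → α → β} {g : ¬p → α → β}
    (hf : ∀ h, Pm k (f h)) (hg : ∀ h, Pm k (g h)) :
    Pm k fun x => if h : p then f h x else g h x := by
  split_ifs with h
  exacts [hf h, hg h]

@[fun_prop]
theorem Pm.update {κ : Type} [Fintype κ] [DecidableEq κ] {f : α → κ → β} {g : α → β} (i : κ)
    (hf : Pm k f) (hg : Pm k g) : Pm k fun x => Function.update (f x) i (g x) :=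
  Pm.pi fun j => (Pm.ite (j = i) hg (hf.eval j)).congr fun x => Function.update_apply _ _ _ _

@[fun_prop]
theorem Pm.elim {κ κ' : Type} [Fintype κ] [Fintype κ'] {f : α → κ → β} {g : α → κ' → β}
    (hf : Pm k f) (hg : Pm k g) : Pm k fun x => Sum.elim (f x) (g x) :=
  Pm.pi fun j => match j with
    | Sum.inl j => hf.eval j
    | Sum.inr j => hg.eval j

@[fun_prop]
theorem Pm.vecCons {n : ℕ} {f : α → β} {g : α → Fin n → β} (hf : Pm k f) (hg : Pm k g) :
    Pm k fun x => Matrix.vecCons (f x) (g x) :=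
  Pm.pi fun j => Fin.cases hf (fun i => hg.eval i) j

@[fun_prop]
theorem Pm.snoc {n : ℕ} {f : α → β} {g : α → Fin n → β} (hg : Pm k g) (hf : Pm k f) :
    Pm k fun x => Fin.snoc (α := fun _ => β) (g x) (f x) :=
  Pm.pi fun j => Fin.lastCases (hf.congr fun x => Fin.snoc_last ..)
    (fun i => (hg.eval i).congr fun x => Fin.snoc_castSucc ..) j

theorem Pm.vcomp {κ κ' : Type} [Fintype κ] [Fintype κ'] {f : α → κ → β} (hf : Pm k f)
    (σ : κ' → κ) : Pm k fun x => f x ∘ σ := Pm.pi fun j => hf.eval (σ j)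

section
variable {κ : Type} [Fintype κ] {f g : α → κ → Ω} {c : α → Ω}

@[fun_prop]
theorem Pm.vadd (hf : Pm k f) (hg : Pm k g) : Pm k fun x => f x + g x :=
  Pm.pi fun j => (hf.eval j).add (hg.eval j)

@[fun_prop]
theorem Pm.vsub (hf : Pm k f) (hg : Pm k g) : Pm k fun x => f x - g x :=
  Pm.pi fun j => (hf.eval j).sub (hg.eval j)

@[fun_prop]
theorem Pm.vneg (hf : Pm k f) : Pm k fun x => -f x := Pm.pi fun j => (hf.eval j).neg

@[fun_prop]
theorem Pm.vsmul (hc : Pm k c) (hf : Pm k f) : Pm k fun x => c x • f x :=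
  Pm.pi fun j => hc.mul (hf.eval j)

@[fun_prop]
theorem Pm.vsum {ι : Type} (s : Finset ι) {f : α → ι → κ → Ω} (hf : ∀ i, Pm k fun x => f x i) :
    Pm k fun x => ∑ i ∈ s, f x i :=
  Pm.pi fun j => (Pm.sum s fun i => (hf i).eval j).congr fun x => Finset.sum_apply ..

@[fun_prop]
theorem Pm.dot (hf : Pm k f) (hg : Pm k g) : Pm k fun x => f x ⬝ᵥ g x :=
  Pm.sum _ fun j => (hf.eval j).mul (hg.eval j)

@[fun_prop]
theorem Pm.single [DecidableEq κ] (i : κ) (hc : Pm k c) :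
    Pm k fun x => (Pi.single i (c x) : κ → Ω) :=
  Pm.pi fun j => (Pm.ite (j = i) hc (Pm.const (0 : Ω))).congr fun x => Pi.single_apply ..

end

end Pool.Agent.CXD
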