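import Pool.Agent.P.MP_2ce3e7_ag.DT0

/-! Polynomial maps given by matrices, closed conditions. -/

set_option linter.unusedSectionVars false
set_option linter.unusedVariables false

open Function Matrix

noncomputable section

namespace Pool.Agent.CXD

variable {k Ω : Type} [Field k] [Field Ω] [Algebra k Ω] {α β γ : Type} [Af Ω α] [Af Ω β] [Af Ω γ]

/-- entrywise power -/
def fm {R l m : Type} [CommRing R] (q : ℕ) (M : Matrix l m R) : Matrix l m R := M.map (· ^ q)

theorem fm_apply {R l m : Type} [CommRing R] (q : ℕ) (M : Matrix l m R) (i : l) (j : m) :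
    fm q M i j = M i j ^ q := rfl

section
variable {l m n : Type} [Fintype l] [Fintype m] [Fintype n] {f g : α → Matrix l m Ω} {c : α → Ω}

theorem Pm.mat (h : ∀ i j, Pm k fun x => f x i j) : Pm k f := Pm.pi fun i => Pm.pi fun j => h i j

theorem Pm.entry (hf : Pm k f) (i : l) (j : m) : Pm k fun x => f x i j :=
  Pm.eval (Pm.eval (δ := fun _ => m → Ω) hf i) j

instance : Kr k (0 : Matrix l m Ω) := kr_pi fun _ => inferInstanceAs (Kr k (0 : m → Ω))

instance [DecidableEq m] : Kr k (1 : Matrix m m Ω) :=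
  kr_pi fun i => kr_pi fun j => by
    rw [Matrix.one_apply]
    split_ifs <;> infer_instance

instance (M : Matrix l m k) : Kr k (M.map (algebraMap k Ω)) :=
  kr_pi fun i => kr_pi fun j => inferInstanceAs (Kr k (algebraMap k Ω (M i j)))

@[fun_prop]
theorem Pm.of {f : α → l → m → Ω} (hf : Pm k f) : Pm k fun x => Matrix.of (f x) := hf

@[fun_prop]
theorem Pm.madd (hf : Pm k f) (hg : Pm k g) : Pm k fun x => f x + g x :=
  Pm.mat fun i j => (hf.entry i j).add (hg.entry i j)

@[fun_prop]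
theorem Pm.msub (hf : Pm k f) (hg : Pm k g) : Pm k fun x => f x - g x :=
  Pm.mat fun i j => (hf.entry i j).sub (hg.entry i j)

@[fun_prop]
theorem Pm.mneg (hf : Pm k f) : Pm k fun x => -f x := Pm.mat fun i j => (hf.entry i j).neg

@[fun_prop]
theorem Pm.msmul (hc : Pm k c) (hf : Pm k f) : Pm k fun x => c x • f x :=
  Pm.mat fun i j => hc.mul (hf.entry i j)

@[fun_prop]
theorem Pm.mmul {g : α → Matrix m n Ω} (hf : Pm k f) (hg : Pm k g) : Pm k fun x => f x * g x :=
  Pm.mat fun i j => Pm.sum _ fun a => (hf.entry i a).mul (hg.entry a j)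

@[fun_prop]
theorem Pm.transpose (hf : Pm k f) : Pm k fun x => (f x)ᵀ := Pm.mat fun i j => hf.entry j i

@[fun_prop]
theorem Pm.submatrix {l' m' : Type} [Fintype l'] [Fintype m'] (hf : Pm k f) (a : l' → l)
    (b : m' → m) : Pm k fun x => (f x).submatrix a b := Pm.mat fun i j => hf.entry (a i) (b j)

@[fun_prop]
theorem Pm.fm (q : ℕ) (hf : Pm k f) : Pm k fun x => fm q (f x) :=
  Pm.mat fun i j => (hf.entry i j).pow q

@[fun_prop]
theorem Pm.mulVec {v : α → m → Ω} (hf : Pm k f) (hv : Pm k v) : Pm k fun x => f x *ᵥ v x :=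
  Pm.pi fun i => Pm.sum _ fun a => (hf.entry i a).mul (hv.eval a)

@[fun_prop]
theorem Pm.vecMul {v : α → l → Ω} (hv : Pm k v) (hf : Pm k f) : Pm k fun x => v x ᵥ* f x :=
  Pm.pi fun j => Pm.sum _ fun a => (hv.eval a).mul (hf.entry a j)

@[fun_prop]
theorem Pm.vecMulVec {v : α → l → Ω} {w : α → m → Ω} (hv : Pm k v) (hw : Pm k w) :
    Pm k fun x => vecMulVec (v x) (w x) := Pm.mat fun i j => (hv.eval i).mul (hw.eval j)

@[fun_prop]
theorem Pm.col (hf : Pm k f) (j : m) : Pm k fun x => (f x).col j := Pm.pi fun i => hf.entry i j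

@[fun_prop]
theorem Pm.row (hf : Pm k f) (i : l) : Pm k fun x => (f x).row i := Pm.pi fun j => hf.entry i j

@[fun_prop]
theorem Pm.updateCol [DecidableEq m] {v : α → l → Ω} (hf : Pm k f) (j : m) (hv : Pm k v) :
    Pm k fun x => (f x).updateCol j (v x) :=
  Pm.mat fun a b => (Pm.ite (b = j) (hv.eval a) (hf.entry a b)).congr fun x =>
    Matrix.updateCol_apply ..

@[fun_prop]
theorem Pm.updateRow [DecidableEq l] {v : α → m → Ω} (hf : Pm k f) (i : l) (hv : Pm k v) :
    Pm k fun x => (f x).updateRow i (v x) :=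
  Pm.mat fun a b => (Pm.ite (a = i) (hv.eval b) (hf.entry a b)).congr fun x =>
    Matrix.updateRow_apply ..

@[fun_prop]
theorem Pm.msingle [DecidableEq l] [DecidableEq m] (i : l) (j : m) (hc : Pm k c) :
    Pm k fun x => Matrix.single i j (c x) :=
  Pm.mat fun a b => Pm.ite (i = a ∧ j = b) hc (Pm.const (0 : Ω))

@[fun_prop]
theorem Pm.diagonal [DecidableEq m] {v : α → m → Ω} (hv : Pm k v) :
    Pm k fun x => Matrix.diagonal (v x) :=
  Pm.mat fun a b => Pm.ite (a = b) (hv.eval a) (Pm.const (0 : Ω))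

@[fun_prop]
theorem Pm.trace {f : α → Matrix m m Ω} (hf : Pm k f) : Pm k fun x => (f x).trace :=
  Pm.sum _ fun a => hf.entry a a

@[fun_prop]
theorem Pm.det [DecidableEq m] {f : α → Matrix m m Ω} (hf : Pm k f) : Pm k fun x => (f x).det :=
  (Pm.sum Finset.univ fun σ : Equiv.Perm m => (Pm.const ((Equiv.Perm.sign σ : ℤ) : Ω)).mul
    (Pm.prod Finset.univ fun i => hf.entry (σ i) i)).congr fun x => Matrix.det_apply' _

@[fun_prop]
theorem Pm.adjugate [DecidableEq m] {f : α → Matrix m m Ω} (hf : Pm k f) :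
    Pm k fun x => (f x).adjugate :=
  Pm.mat fun i j => (hf.updateRow j (Pm.single i (Pm.const (1 : Ω)))).det.congr fun x =>
    Matrix.adjugate_apply ..

end

variable (k) in
/-- closed conditions -/
@[fun_prop]
def Cz {α : Type} [Af Ω α] (p : α → Prop) : Prop :=
  ∃ T : Set (α → Ω), (∀ f ∈ T, Pm k f) ∧ ∀ x, p x ↔ ∀ f ∈ T, f x = 0

variable {p p' : α → Prop}

theorem Cz.congr (h : Cz k p) (e : ∀ x, p' x ↔ p x) : Cz k p' := by
  rwa [show p' = p from funext fun x => propext (e x)]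

@[fun_prop]
theorem Cz.const (a : Prop) : Cz k fun _ : α => a := by
  by_cases h : a
  · exact ⟨∅, fun _ h => h.elim, fun x => by simp [h]⟩
  · refine ⟨{fun _ => 1}, ?_, fun x => by simp [h]⟩
    rintro _ rfl
    exact Pm.const (1 : Ω)

@[fun_prop]
theorem Cz.comp {p : β → Prop} {f : α → β} (hp : Cz k p) (hf : Pm k f) : Cz k fun x => p (f x) := by
  obtain ⟨T, h1, h2⟩ := hp
  refine ⟨(fun g x => g (f x)) '' T, ?_, fun x => ?_⟩
  · rintro _ ⟨g, hg, rfl⟩
    exact (h1 g hg).comp hf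
  · beta_reduce
    rw [h2, Set.forall_mem_image]

@[fun_prop]
theorem Cz.all {ι : Sort*} {p : ι → α → Prop} (h : ∀ i, Cz k (p i)) : Cz k fun x => ∀ i, p i x := by
  choose T h1 h2 using h
  refine ⟨⋃ i, T i, fun f hf => ?_, fun x => ?_⟩
  · obtain ⟨i, hi⟩ := Set.mem_iUnion.1 hf
    exact h1 i f hi
  · simp only [h2, Set.mem_iUnion, forall_exists_index]
    exact ⟨fun h f i hi => h i f hi, fun h i f hi => h f i hi⟩

@[fun_prop]
theorem Cz.and (h : Cz k p) (h' : Cz k p') : Cz k fun x => p x ∧ p' x := by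
  obtain ⟨T, h1, h2⟩ := h
  obtain ⟨T', h1', h2'⟩ := h'
  refine ⟨T ∪ T', fun f hf => hf.elim (h1 f) (h1' f), fun x => ?_⟩
  beta_reduce
  rw [h2, h2']
  exact ⟨fun h f hf => hf.elim (h.1 f) (h.2 f), fun h =>
    ⟨fun f hf => h f (Or.inl hf), fun f hf => h f (Or.inr hf)⟩⟩

@[fun_prop]
theorem Cz.or (h : Cz k p) (h' : Cz k p') : Cz k fun x => p x ∨ p' x := by
  obtain ⟨T, h1, h2⟩ := h
  obtain ⟨T', h1', h2'⟩ := h'
  refine ⟨Set.image2 (fun f g x => f x * g x) T T', ?_, fun x => ?_⟩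
  · rintro _ ⟨f, hf, g, hg, rfl⟩
    exact (h1 f hf).mul (h1' g hg)
  · beta_reduce
    rw [h2, h2', Set.forall_mem_image2]
    refine ⟨fun h f hf g hg => h.elim (fun h => mul_eq_zero_of_left (h f hf) _)
      (fun h => mul_eq_zero_of_right _ (h g hg)), fun h => or_iff_not_imp_left.2 fun h3 g hg => ?_⟩
    push Not at h3
    obtain ⟨f, hf, h3⟩ := h3
    exact (mul_eq_zero.1 (h f hf g hg)).resolve_left h3

@[fun_prop]
theorem Cz.eq {f g : α → β} (hf : Pm k f) (hg : Pm k g) : Cz k fun x => f x = g x := by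
  refine ⟨Set.range fun j x => co (f x) j - co (g x) j, ?_, fun x => ?_⟩
  · rintro _ ⟨j, rfl⟩
    exact (hf.co j).sub (hg.co j)
  · rw [Set.forall_mem_range]
    exact ⟨fun h j => sub_eq_zero.2 (congrArg (co · j) h), fun h => co_ext fun j => sub_eq_zero.1 (h j)⟩

end Pool.Agent.CXD
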