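import Pool.Agent.P.MP_2ce3e7_ag.DA0

/-! Rings of polynomial functions. -/

set_option linter.unusedSectionVars false
set_option linter.unusedVariables false

open Function

noncomputable section

namespace Pool.Agent.CXD

variable {k Ω : Type} [Field k] [Field Ω] [Algebra k Ω] {α β γ : Type} [Af Ω α] [Af Ω β] [Af Ω γ]

variable (k) in
/-- evaluation of polynomials -/
def evp (p : α → Prop) : MvPolynomial (Af.ι α) k →ₐ[k] ({x // p x} → Ω) :=
  MvPolynomial.aeval fun j x => co x.1 j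

variable (k) in
/-- the ring of polynomial functions -/
def Rg (p : α → Prop) : Subalgebra k ({x // p x} → Ω) := (evp k p).range

variable {p p₁ : α → Prop} {p' : β → Prop}

theorem evp_apply (P : MvPolynomial (Af.ι α) k) (x : {x // p x}) :
    evp k p P x = MvPolynomial.aeval (co x.1) P := by
  have := MvPolynomial.comp_aeval (R := k) (fun (j : Af.ι α) (x : {x // p x}) => co x.1 j)
    (Pi.evalAlgHom k (fun _ : {x // p x} => Ω) x)
  exact DFunLike.congr_fun this P

theorem mem_rg {h : {x // p x} → Ω} : h ∈ Rg k p ↔ ∃ f : α → Ω, Pm k f ∧ ∀ x, h x = f x.1 := by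
  constructor
  · rintro ⟨P, rfl⟩
    exact ⟨fun x => MvPolynomial.aeval (co x) P, pm_self.2 ⟨P, fun _ => rfl⟩,
      fun x => evp_apply P x⟩
  · rintro ⟨f, hf, e⟩
    obtain ⟨P, hP⟩ := pm_self.1 hf
    exact ⟨P, funext fun x => (evp_apply P x).trans ((e x).trans (hP x.1)).symm⟩

variable (p) in
/-- a polynomial function -/
def rg {f : α → Ω} (hf : Pm k f) : Rg k p := ⟨fun x => f x.1, mem_rg.2 ⟨f, hf, fun _ => rfl⟩⟩

theorem rg_val {f : α → Ω} (hf : Pm k f) (x : {x // p x}) : (rg p hf).1 x = f x.1 := rfl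

theorem rg_surj (h : Rg k p) : ∃ (f : α → Ω) (hf : Pm k f), h = rg p hf :=
  (mem_rg.1 h.2).elim fun f hf => ⟨f, hf.1, Subtype.ext (funext hf.2)⟩

theorem rg_ext {h h' : Rg k p} (e : ∀ x, h.1 x = h'.1 x) : h = h' := Subtype.ext (funext e)

instance : Algebra.FiniteType k (Rg k p) :=
  Algebra.FiniteType.of_surjective (evp k p).rangeRestrict (evp k p).rangeRestrict_surjective

/-- evaluation at a point -/
def evx (x : {x // p x}) : Rg k p →ₐ[k] Ω := (Pi.evalAlgHom k (fun _ => Ω) x).comp (Rg k p).val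

theorem evx_apply (x : {x // p x}) (h : Rg k p) : evx x h = h.1 x := rfl

/-- the inverse image of functions -/
def pb {f : β → α} (hf : Pm k f) (h : ∀ z, p' z → p (f z)) : Rg k p →ₐ[k] Rg k p' where
  toFun g := ⟨fun z => g.1 ⟨f z.1, h z.1 z.2⟩, by
    obtain ⟨u, hu, rfl⟩ := rg_surj g
    exact mem_rg.2 ⟨_, hu.comp hf, fun _ => rfl⟩⟩
  map_one' := rfl
  map_mul' _ _ := rfl
  map_zero' := rfl
  map_add' _ _ := rfl
  commutes' _ := rfl

theorem pb_val {f : β → α} (hf : Pm k f) (h : ∀ z, p' z → p (f z)) (g : Rg k p)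
    (z : {z // p' z}) : (pb hf h g).1 z = g.1 ⟨f z.1, h z.1 z.2⟩ := rfl

theorem pb_rg {f : β → α} (hf : Pm k f) (h : ∀ z, p' z → p (f z)) {g : α → Ω} (hg : Pm k g) :
    pb hf h (rg p hg) = rg p' (hg.comp hf) := rfl

theorem map_aeval_DT2 {σ A B : Type} [CommRing A] [CommRing B] [Algebra k A] [Algebra k B]
    (φ : A →ₐ[k] B) (v : σ → A) (P : MvPolynomial σ k) :
    φ (MvPolynomial.aeval v P) = MvPolynomial.aeval (fun j => φ (v j)) P :=
  DFunLike.congr_fun (MvPolynomial.comp_aeval (R := k) v φ) P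

theorem rg_aeval_DT2 {u : β → α} (hu : Pm k u) {f : α → Ω} (hf : Pm k f)
    {P : MvPolynomial (Af.ι α) k} (hP : ∀ x, f x = MvPolynomial.aeval (Af.e x) P) :
    rg p' (hf.comp hu) = MvPolynomial.aeval (fun j => rg p' (hu.co j)) P :=
  rg_ext fun z => (hP (u z.1)).trans (map_aeval_DT2 (evx z) (fun j => rg p' (hu.co j)) P).symm

/-- the coordinates generate the ring -/
theorem rg_adjoin :
    Algebra.adjoin k (Set.range fun j => rg p ((Pm.id (k := k) (α := α)).co j)) = ⊤ := by
  rw [Algebra.adjoin_range_eq_range_aeval, eq_top_iff]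
  intro h _
  obtain ⟨f, hf, rfl⟩ := rg_surj h
  obtain ⟨P, hP⟩ := pm_self.1 hf
  exact ⟨P, (rg_aeval_DT2 Pm.id hf hP).symm⟩

theorem finite_of_rel {A B κ : Type} [CommRing A] [CommRing B] [Fintype κ] (ψ : A →+* B)
    (y : κ → B) {N : ℕ} (hN : 1 < N) (m : κ → κ → A) (b : κ → A)
    (h1 : ∀ i, y i ^ N = ∑ j, ψ (m i j) * y j + ψ (b i))
    (h2 : Subring.closure (Set.range ψ ∪ Set.range y) = ⊤) : ψ.Finite := by
  classical
  let := ψ.toAlgebra
  let mon : (κ → ℕ) → B := fun a => ∏ i, y i ^ a i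
  have hadd : ∀ a a', mon (a + a') = mon a * mon a' := fun a a' => by
    simp only [mon, Pi.add_apply, pow_add, Finset.prod_mul_distrib]
  have hsin : ∀ j n, mon (Pi.single j n) = y j ^ n := fun j n => by
    simp only [mon]
    rw [Finset.prod_eq_single j]
    · rw [Pi.single_eq_same]
    · intro i _ hi
      rw [Pi.single_eq_of_ne hi, pow_zero]
    · intro h
      exact absurd (Finset.mem_univ j) h
  let S : Submodule A B := Submodule.span A (Set.range fun a : κ → Fin N => mon fun i => a i)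
  have hs : ∀ (c : A) (x : B), x ∈ S → ψ c * x ∈ S := fun c x hx => S.smul_mem c hx
  have hm : ∀ n, ∀ a : κ → ℕ, ∑ i, a i = n → mon a ∈ S := by
    intro n
    induction n using Nat.strong_induction_on with
    | _ n ih =>
      intro a ha
      by_cases hlt : ∀ i, a i < N
      · exact Submodule.subset_span ⟨fun i => ⟨a i, hlt i⟩, rfl⟩
      · push Not at hlt
        obtain ⟨i, hi⟩ := hlt
        obtain ⟨a', rfl⟩ : ∃ a' : κ → ℕ, a = Pi.single i N + a' := by
          refine ⟨a - Pi.single i N, funext fun j => ?_⟩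
          by_cases hj : j = i
          · subst hj
            simp only [Pi.add_apply, Pi.sub_apply, Pi.single_eq_same]
            omega
          · simp [Pi.single_eq_of_ne hj]
        have hsum : ∀ (j : κ) (t : ℕ), ∑ l, (Pi.single j t + a' : κ → ℕ) l = t + ∑ l, a' l :=
          fun j t => by simp [Finset.sum_add_distrib]
        rw [hsum] at ha
        rw [hadd, hsin, h1, add_mul, Finset.sum_mul]
        refine S.add_mem (S.sum_mem fun j _ => ?_) (hs _ _ (ih _ (by omega) a' rfl))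
        rw [mul_assoc, ← pow_one (y j), ← hsin, ← hadd]
        exact hs _ _ (ih _ (by rw [hsum]; omega) _ rfl)
  have hmul : ∀ x ∈ Subring.closure (Set.range ψ ∪ Set.range y), ∀ s ∈ S, x * s ∈ S := by
    intro x hx
    induction hx using Subring.closure_induction with
    | mem x hx =>
      rcases hx with ⟨c, rfl⟩ | ⟨j, rfl⟩
      · exact hs c
      · intro s hs'
        induction hs' using Submodule.span_induction with
        | mem s h =>
          obtain ⟨a, rfl⟩ := h
          rw [← pow_one (y j), ← hsin, ← hadd]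
          exact hm _ _ rfl
        | zero => rw [mul_zero]; exact S.zero_mem
        | add s t _ _ h h' => rw [mul_add]; exact S.add_mem h h'
        | smul c s _ h => rw [mul_smul_comm]; exact S.smul_mem c h
    | zero => intro s _; rw [zero_mul]; exact S.zero_mem
    | one => intro s h; rwa [one_mul]
    | add x z _ _ h h' => intro s t; rw [add_mul]; exact S.add_mem (h s t) (h' s t)
    | neg x _ h => intro s t; rw [neg_mul]; exact S.neg_mem (h s t)
    | mul x z _ _ h h' => intro s t; rw [mul_assoc]; exact h _ (h' s t)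
  have h0 : (1 : B) ∈ S := by
    have := hm _ 0 rfl
    simpa [mon] using this
  have hS : S = ⊤ := eq_top_iff.2 fun x _ => by
    have := hmul x (h2 ▸ Subring.mem_top x) 1 h0
    rwa [mul_one] at this
  exact ⟨hS ▸ Submodule.fg_span (Set.finite_range _)⟩

theorem Fm0.finite {f : β → α} (h0 : Fm0 k p' f) (hf : Pm k f) (h : ∀ z, p' z → p (f z)) :
    (pb hf h).toRingHom.Finite := by
  obtain ⟨κ, _, y, N, m, b, r, hN, hy, hm, hb, hr, h1, h2⟩ := h0
  refine finite_of_rel (pb hf h).toRingHom (fun i => rg p' (hy.eval i)) hN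
    (fun i j => rg p ((hm.eval i).eval j)) (fun i => rg p (hb.eval i)) (fun i => ?_) ?_
  · refine rg_ext fun z => ?_
    rw [← evx_apply, ← evx_apply, map_pow, map_add, map_sum]
    simp only [map_mul]
    exact h1 z.1 z.2 i
  · refine eq_top_iff.2 fun g _ => ?_
    obtain ⟨u, hu, rfl⟩ := rg_surj g
    obtain ⟨P, hP⟩ := pm_self.1 (hu.comp hr)
    have e : rg p' hu = rg p' ((hu.comp hr).comp (hf.mk hy)) :=
      rg_ext fun z => (congrArg u (h2 z.1 z.2)).symm
    rw [e, rg_aeval_DT2 (hf.mk hy) (hu.comp hr) hP]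
    clear hP e
    induction P using MvPolynomial.induction_on with
    | C a =>
      rw [MvPolynomial.aeval_C]
      exact Subring.subset_closure (Or.inl ⟨algebraMap k _ a, (pb hf h).commutes a⟩)
    | add P Q hP hQ => rw [map_add]; exact Subring.add_mem _ hP hQ
    | mul_X P j hP =>
      rw [map_mul, MvPolynomial.aeval_X]
      refine Subring.mul_mem _ hP (Subring.subset_closure ?_)
      rcases j with j | ⟨i, ⟨⟩⟩
      · exact Or.inl ⟨rg p (Pm.id.co j), rfl⟩
      · exact Or.inr ⟨i, rfl⟩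

theorem exists_pt (c : Cz k p) (φ : Rg k p →ₐ[k] Ω) : ∃ x : {x // p x}, ∀ h, φ h = h.1 x := by
  obtain ⟨T, h1, h2⟩ := c
  have key : ∀ (f : α → Ω) (hf : Pm k f),
      φ (rg p hf) = f (pt α fun j => φ (rg p ((Pm.id (k := k) (α := α)).co j))) := by
    intro f hf
    obtain ⟨P, hP⟩ := pm_self.1 hf
    rw [hP, show rg p hf = _ from rg_aeval_DT2 Pm.id hf hP, map_aeval_DT2]
    exact congrArg (fun v => MvPolynomial.aeval v P)
      (funext fun j => (co_pt (fun j => φ (rg p ((Pm.id (k := k) (α := α)).co j))) j).symm)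
  refine ⟨⟨_, (h2 _).2 fun f hf => (key f (h1 f hf)).symm.trans ?_⟩, fun h => ?_⟩
  · rw [show rg p (h1 f hf) = 0 from rg_ext fun x => (h2 x.1).1 x.2 f hf, map_zero]
  · obtain ⟨f, hf, rfl⟩ := rg_surj h
    exact key f hf

variable [IsAlgClosed Ω]

variable (Ω) in
theorem mem_of_pts {B : Type} [CommRing B] [Algebra k B] [Algebra.FiniteType k B] (P : Ideal B)
    (hP : P.IsRadical) (b : B) (h : ∀ φ : B →ₐ[k] Ω, (∀ a ∈ P, φ a = 0) → φ b = 0) : b ∈ P := by
  have : IsJacobsonRing B := isJacobsonRing_of_finiteType (A := k)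
  rw [← IsJacobsonRing.out this hP, Ideal.jacobson, Ideal.mem_sInf]
  rintro m ⟨hPm, hm⟩
  let := Ideal.Quotient.field m
  have : Module.Finite k (B ⧸ m) := finite_of_finite_type_of_isJacobsonRing k (B ⧸ m)
  let l : (B ⧸ m) →ₐ[k] Ω := IsAlgClosed.lift
  have := h (l.comp (Ideal.Quotient.mkₐ k m)) fun a ha => by
    rw [AlgHom.comp_apply, Ideal.Quotient.mkₐ_eq_mk, Ideal.Quotient.eq_zero_iff_mem.2 (hPm ha),
      map_zero]
  rw [AlgHom.comp_apply, Ideal.Quotient.mkₐ_eq_mk, map_eq_zero] at this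
  exact Ideal.Quotient.eq_zero_iff_mem.1 this

variable (Ω) in
theorem nil_of_pts {B : Type} [CommRing B] [Algebra k B] [Algebra.FiniteType k B] (b : B)
    (h : ∀ φ : B →ₐ[k] Ω, φ b = 0) : IsNilpotent b :=
  mem_nilradical.1 (mem_of_pts (k := k) Ω (nilradical B) (Ideal.radical_isRadical _) b
    fun φ _ => h φ)

theorem mem_of_zero (c : Cz k p) (P : Ideal (Rg k p)) (hP : P.IsPrime) (h : Rg k p)
    (e : ∀ x, (∀ a ∈ P, a.1 x = 0) → h.1 x = 0) : h ∈ P := by
  refine mem_of_pts (k := k) Ω P hP.isRadical h fun φ hφ => ?_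
  obtain ⟨x, hx⟩ := exists_pt c φ
  rw [hx]
  exact e x fun a ha => (hx a).symm.trans (hφ a ha)

theorem extend_DT2 {A B : Type} [CommRing A] [CommRing B] (ψ : A →+* B) (hψ : ψ.Finite)
    (hi : Injective ψ) (e : A →+* Ω) : ∃ e' : B →+* Ω, ∀ a, e' (ψ a) = e a := by
  let := ψ.toAlgebra
  have : Module.Finite A B := hψ
  have : (RingHom.ker e).IsPrime := RingHom.ker_isPrime e
  obtain ⟨Q, -, hQ, hc⟩ := Ideal.exists_ideal_over_prime_of_isIntegral (S := B) (RingHom.ker e) ⊥
    (fun a ha => by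
      have : a = 0 := hi ((Ideal.mem_bot.1 (Ideal.mem_comap.1 ha)).trans (map_zero ψ).symm)
      rw [this]
      exact Ideal.zero_mem _)
  let l : A ⧸ Q.comap (algebraMap A B) →+* Ω :=
    Ideal.Quotient.lift _ e fun a ha => RingHom.mem_ker.1 (hc ▸ ha)
  have hl : Injective l := RingHom.lift_injective_of_ker_le_ideal _ _ hc.ge
  let := l.toAlgebra
  have : FaithfulSMul (A ⧸ Q.comap (algebraMap A B)) Ω :=
    (faithfulSMul_iff_algebraMap_injective _ _).2 hl
  have : FaithfulSMul (A ⧸ Q.comap (algebraMap A B)) (B ⧸ Q) :=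
    (faithfulSMul_iff_algebraMap_injective _ _).2 Ideal.algebraMap_quotient_injective
  let g : (B ⧸ Q) →ₐ[A ⧸ Q.comap (algebraMap A B)] Ω := IsAlgClosed.lift
  exact ⟨g.toRingHom.comp (Ideal.Quotient.mk Q), fun a => g.commutes (Ideal.Quotient.mk _ a)⟩

/-- a finite dominant map is onto -/
theorem Fm0.surj {f : β → α} (h0 : Fm0 k p' f) (hf : Pm k f) (c : Cz k p')
    (h : ∀ z, p' z → p (f z))
    (hd : ∀ g : α → Ω, Pm k g → (∀ z, p' z → g (f z) = 0) → ∀ x, p x → g x = 0) (x : α)
    (hx : p x) : ∃ z, p' z ∧ f z = x := by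
  have hi : Injective (pb hf h).toRingHom := (injective_iff_map_eq_zero _).2 fun g hg => by
    obtain ⟨u, hu, rfl⟩ := rg_surj g
    exact rg_ext fun w => hd u hu
      (fun z hz => congrArg (fun t : Rg k p' => t.1 ⟨z, hz⟩) hg) w.1 w.2
  obtain ⟨e', he⟩ := extend_DT2 _ (h0.finite hf h) hi (evx (k := k) ⟨x, hx⟩).toRingHom
  let φ : Rg k p' →ₐ[k] Ω := ⟨e', fun a => by
    have := he (algebraMap k _ a)
    exact this.trans ((evx (k := k) (⟨x, hx⟩ : {x // p x})).commutes a)⟩
  obtain ⟨z, hz⟩ := exists_pt c φ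
  exact ⟨z.1, z.2, co_ext fun j =>
    (hz (pb hf h (rg p (Pm.id.co j)))).symm.trans (he (rg p (Pm.id.co j)))⟩

end Pool.Agent.CXD
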