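import Pool.Agent.P.MP_2ce3e7_ag.DT2

/-! Products with affine spaces and actions of the multiplicative group. -/

set_option linter.unusedSectionVars false
set_option linter.unusedVariables false

open Function LaurentPolynomial

noncomputable section

namespace Pool.Agent.CXD

variable {k Ω : Type} [Field k] [Field Ω] [Algebra k Ω] {α β γ : Type} [Af Ω α] [Af Ω β] [Af Ω γ]

variable {p : α → Prop} [Infinite Ω]

theorem exists_mvE (p : α → Prop) (κ : Type) [Fintype κ] :
    ∃ e : MvPolynomial κ (Rg k p) ≃ₐ[k] Rg k fun y : α × (κ → Ω) => p y.1,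
      (∀ h (y : {y : α × (κ → Ω) // p y.1}), (e (MvPolynomial.C h)).1 y = h.1 ⟨y.1.1, y.2⟩) ∧
        ∀ i (y : {y : α × (κ → Ω) // p y.1}), (e (MvPolynomial.X i)).1 y = y.1.2 i := by
  classical
  let q : α × (κ → Ω) → Prop := fun y => p y.1
  have hf : Pm k fun y : α × (κ → Ω) => y.1 := Pm.id.fst
  have hv : ∀ i, Pm k fun y : α × (κ → Ω) => y.2 i := fun i => Pm.id.snd.eval i
  let φ : Rg k p →ₐ[k] Rg k q := pb hf fun _ h => h
  let e₀ : MvPolynomial κ (Rg k p) →ₐ[k] Rg k q := MvPolynomial.aevalTower φ fun i => rg q (hv i)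
  have hC : ∀ h, e₀ (MvPolynomial.C h) = φ h := fun h => MvPolynomial.aevalTower_C _ _ h
  have hX : ∀ i, e₀ (MvPolynomial.X i) = rg q (hv i) := fun i => MvPolynomial.aevalTower_X _ _ i
  have hev : ∀ (P : MvPolynomial κ (Rg k p)) (y : {y // q y}), evx y (e₀ P) =
      MvPolynomial.eval y.1.2 (MvPolynomial.map (evx (k := k) (p := p) ⟨y.1.1, y.2⟩).toRingHom P) := by
    intro P y
    induction P using MvPolynomial.induction_on with
    | C a => rw [hC, MvPolynomial.map_C, MvPolynomial.eval_C]; rfl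
    | add P Q h1 h2 => simp only [map_add, h1, h2]
    | mul_X P i h1 =>
      rw [map_mul, map_mul, map_mul, map_mul, h1, hX, MvPolynomial.map_X, MvPolynomial.eval_X]
      rfl
  have hinj : Injective e₀ := by
    refine fun P Q hP => MvPolynomial.ext _ _ fun m => rg_ext fun x => ?_
    have h0 : MvPolynomial.map (evx (k := k) x).toRingHom P =
        MvPolynomial.map (evx (k := k) x).toRingHom Q :=
      MvPolynomial.funext fun v =>
        (hev P ⟨(x.1, v), x.2⟩).symm.trans (hP ▸ hev Q ⟨(x.1, v), x.2⟩)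
    have h1 := congrArg (MvPolynomial.coeff m) h0
    rw [MvPolynomial.coeff_map, MvPolynomial.coeff_map] at h1
    exact h1
  have hsurj : Surjective e₀ := by
    rw [← AlgHom.range_eq_top, eq_top_iff, ← rg_adjoin]
    refine Algebra.adjoin_le ?_
    rintro _ ⟨j, rfl⟩
    cases j with
    | inl j => exact ⟨MvPolynomial.C (rg p ((Pm.id (k := k) (α := α)).co j)), (hC _).trans rfl⟩
    | inr j => exact ⟨MvPolynomial.X j.1, (hX _).trans rfl⟩
  refine ⟨AlgEquiv.ofBijective e₀ ⟨hinj, hsurj⟩, fun h y => ?_, fun i y => ?_⟩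
  · exact congrArg (fun g : Rg k q => g.1 y) (hC h)
  · exact congrArg (fun g : Rg k q => g.1 y) (hX i)

theorem exists_polyE (p : α → Prop) :
    ∃ e : Polynomial (Rg k p) ≃ₐ[k] Rg k fun y : α × Ω => p y.1,
      (∀ h (y : {y : α × Ω // p y.1}), (e (Polynomial.C h)).1 y = h.1 ⟨y.1.1, y.2⟩) ∧
        ∀ y : {y : α × Ω // p y.1}, (e Polynomial.X).1 y = y.1.2 := by
  let q : α × Ω → Prop := fun y => p y.1
  have hf : Pm k fun y : α × Ω => y.1 := Pm.id.fst
  have hv : Pm k fun y : α × Ω => y.2 := Pm.id.snd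
  let φ : Rg k p →ₐ[k] Rg k q := pb hf fun _ h => h
  let e₀ : Polynomial (Rg k p) →ₐ[k] Rg k q := Polynomial.aevalTower φ (rg q hv)
  have hC : ∀ h, e₀ (Polynomial.C h) = φ h := fun h => Polynomial.aevalTower_C _ _ h
  have hX : e₀ Polynomial.X = rg q hv := Polynomial.aevalTower_X _ _
  have hev : ∀ (P : Polynomial (Rg k p)) (y : {y // q y}), evx y (e₀ P) =
      Polynomial.eval y.1.2 (P.map (evx (k := k) (p := p) ⟨y.1.1, y.2⟩).toRingHom) := by
    intro P y
    induction P using Polynomial.induction_on with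
    | C a => rw [hC, Polynomial.map_C, Polynomial.eval_C]; rfl
    | add P Q h1 h2 => rw [map_add, map_add, h1, h2, Polynomial.map_add, Polynomial.eval_add]
    | monomial n a h1 =>
      rw [pow_succ, ← mul_assoc, map_mul, map_mul, h1, hX, Polynomial.map_mul _ (q := Polynomial.X),
        Polynomial.eval_mul (q := Polynomial.map _ Polynomial.X), Polynomial.map_X,
        Polynomial.eval_X]
      rfl
  have hinj : Injective e₀ := by
    refine fun P Q hP => Polynomial.ext fun m => rg_ext fun x => ?_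
    have h0 : P.map (evx (k := k) x).toRingHom = Q.map (evx (k := k) x).toRingHom :=
      Polynomial.funext fun v =>
        (hev P ⟨(x.1, v), x.2⟩).symm.trans (hP ▸ hev Q ⟨(x.1, v), x.2⟩)
    have h1 := congrArg (fun P => Polynomial.coeff P m) h0
    simp only [Polynomial.coeff_map] at h1
    exact h1
  have hsurj : Surjective e₀ := by
    rw [← AlgHom.range_eq_top, eq_top_iff, ← rg_adjoin]
    refine Algebra.adjoin_le ?_
    rintro _ ⟨j, rfl⟩
    cases j with
    | inl j => exact ⟨Polynomial.C (rg p ((Pm.id (k := k) (α := α)).co j)), (hC _).trans rfl⟩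
    | inr j => exact ⟨Polynomial.X, hX.trans rfl⟩
  refine ⟨AlgEquiv.ofBijective e₀ ⟨hinj, hsurj⟩, fun h y => ?_, fun y => ?_⟩
  · exact congrArg (fun g : Rg k q => g.1 y) (hC h)
  · exact congrArg (fun g : Rg k q => g.1 y) hX

theorem exists_theta {m : α × Ω → α} (hm : Pm k m) (h : ∀ x t, p x → p (m (x, t))) :
    ∃ θ : Rg k p →ₐ[k] (Rg k p)[T;T⁻¹], ∀ (f : Rg k p) (n : ℕ),
      (∀ (x : {x // p x}) t, f.1 ⟨m (x.1, t), h _ _ x.2⟩ = t ^ n * f.1 x) →
        θ f = C f * T n := by
  obtain ⟨e, hC, hX⟩ := exists_polyE (k := k) (Ω := Ω) p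
  let ψ : Rg k p →ₐ[k] Rg k fun y : α × Ω => p y.1 := pb hm fun z hz => h z.1 z.2 hz
  refine ⟨((Polynomial.toLaurentAlg (R := Rg k p)).restrictScalars k).comp
    ((e.symm : _ →ₐ[k] _).comp ψ), fun f n hf => ?_⟩
  have h1 : e (Polynomial.C f * Polynomial.X ^ n) = ψ f := by
    refine rg_ext fun y => ?_
    have h2 : evx y (e (Polynomial.C f * Polynomial.X ^ n)) = f.1 ⟨y.1.1, y.2⟩ * y.1.2 ^ n := by
      rw [map_mul, map_pow, map_mul, map_pow, evx_apply, evx_apply, hC, hX]
    rw [← evx_apply, h2, mul_comm]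
    exact (hf ⟨y.1.1, y.2⟩ y.1.2).symm
  have h3 : e.symm (ψ f) = Polynomial.C f * Polynomial.X ^ n := by
    rw [← h1, AlgEquiv.symm_apply_apply]
  change Polynomial.toLaurent (e.symm (ψ f)) = _
  rw [h3, Polynomial.toLaurent_C_mul_X_pow]

end Pool.Agent.CXD
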