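import Pool.Agent.P.MP_2ce3e7_ag.Ind
import Pool.Agent.P.MP_2ce3e7_ag.Cyc

/-! Data for the devissage theorem; conjugacy and lying over. -/

set_option autoImplicit false

noncomputable section

namespace Pool.Agent.Tate

open MvPolynomial

theorem dta_scale {k τ R : Type} [CommRing k] [CommRing R] [Algebra k R] {w : τ → ℕ}
    {ψ : MvPolynomial τ k} {N : ℕ} (h : ψ.IsWeightedHomogeneous w N) (l : R) (z : τ → R) :
    aeval (fun v => l ^ w v * z v) ψ = l ^ N * aeval z ψ := by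
  rw [aeval_def, aeval_def, eval₂_eq, eval₂_eq, Finset.mul_sum]
  refine Finset.sum_congr rfl fun s hs => ?_
  rw [← h (mem_support_iff.1 hs), Finsupp.weight_apply, Finsupp.sum, ← Finset.prod_pow_eq_pow_sum,
    mul_left_comm, ← Finset.prod_mul_distrib]
  refine congrArg _ (Finset.prod_congr rfl fun v _ => ?_)
  rw [mul_pow, ← pow_mul, smul_eq_mul, mul_comm (w v)]

theorem dta_point {k A : Type} [Field k] [CommRing A] [Algebra k A] {p : Ideal A}
    (hp : p.IsPrime) : ∃ (Ω : Type) (_ : Field Ω) (_ : Algebra k Ω) (_ : IsAlgClosed Ω)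
      (π : A →ₐ[k] Ω), ∀ f, π f = 0 ↔ f ∈ p := by
  refine ⟨AlgebraicClosure (FractionRing (A ⧸ p)), inferInstance, inferInstance, inferInstance,
    ((IsScalarTower.toAlgHom k (FractionRing (A ⧸ p)) _).comp
      (IsScalarTower.toAlgHom k (A ⧸ p) (FractionRing (A ⧸ p)))).comp (Ideal.Quotient.mkₐ k p),
    fun f => ?_⟩
  simp only [AlgHom.comp_apply, IsScalarTower.toAlgHom_apply, Ideal.Quotient.mkₐ_eq_mk]
  rw [map_eq_zero_iff _ (algebraMap (FractionRing (A ⧸ p)) _).injective,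
    map_eq_zero_iff _ (IsFractionRing.injective (A ⧸ p) _), Ideal.Quotient.eq_zero_iff_mem]

theorem dta_mono {k ι : Type} [Field k] [Fintype ι] (α : ι → Fin 3) (n : ι → ℕ) :
    Hg (∏ i, (X (i, α i) : S k ι) ^ n i) fun i => (n i : ℤ) := by
  classical
  have h := IsWeightedHomogeneous.prod Finset.univ (fun i => (X (i, α i) : S k ι) ^ n i)
    (fun i => n i • wt (i, α i)) fun i _ => (hg_X (i, α i)).pow (n i)
  have e : (∑ i, n i • wt (i, α i)) = fun i => (n i : ℤ) := by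
    funext j
    simp [Finset.sum_apply, wt_apply]
  rwa [e] at h

/-- graded prime avoidance -/
theorem dta_avoid {k ι : Type} [Field k] [Fintype ι] (α : ι → Fin 3) {J : Ideal (S k ι)}
    (hJ : GrI J) (T : Finset (Ideal (S k ι))) (hT : ∀ Q ∈ T, GrI Q ∧ Q.IsPrime ∧ ¬ J ≤ Q ∧
      ∀ i, (X (i, α i) : S k ι) ∉ Q) : ∃ b d, Hg b d ∧ b ∈ J ∧ ∀ Q ∈ T, b ∉ Q := by
  classical
  induction T using Finset.strongInduction with
  | H T ih =>
  rcases T.eq_empty_or_nonempty with rfl | hne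
  · exact ⟨0, 0, isWeightedHomogeneous_zero _ _ _, J.zero_mem, by simp⟩
  obtain ⟨Q, hQ⟩ := T.exists_minimal hne
  obtain ⟨b, d, hb, hbJ, hbT⟩ := ih (T.erase Q) (Finset.erase_ssubset hQ.1)
    fun Q' h => hT Q' (Finset.mem_of_mem_erase h)
  by_cases hbQ : b ∈ Q
  swap
  · refine ⟨b, d, hb, hbJ, fun Q' h => ?_⟩
    by_cases e : Q' = Q
    · rwa [e]
    · exact hbT Q' (Finset.mem_erase.2 ⟨e, h⟩)
  obtain ⟨-, hp, hJQ, -⟩ := hT Q hQ.1
  have hg : GrI (J ⊓ (T.erase Q).inf id) := hJ.inf fun e f hf => by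
    rw [Submodule.mem_finsetInf] at hf ⊢
    exact fun Q' h => (hT Q' (Finset.mem_of_mem_erase h)).1 e f (hf Q' h)
  have hn : ¬ J ⊓ (T.erase Q).inf id ≤ Q := by
    rw [hp.inf_le, hp.inf_le']
    rintro (h | ⟨Q', h, h'⟩)
    · exact hJQ h
    · rw [Finset.mem_erase] at h
      exact h.1 (le_antisymm h' (hQ.2 h.2 h'))
  obtain ⟨c, e, hc, hcJ, hcQ⟩ : ∃ c e, Hg c e ∧ c ∈ J ⊓ (T.erase Q).inf id ∧ c ∉ Q := by
    by_contra hcon
    refine hn (hg.le_of_hom fun f e hf hm => ?_)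
    by_contra h
    exact hcon ⟨f, e, hf, hm, h⟩
  have hm : ∀ Q' ∈ T, ∀ n : ι → ℕ, (∏ i, (X (i, α i) : S k ι) ^ n i) ∉ Q' := by
    intro Q' h n hmem
    obtain ⟨-, hp', -, hx⟩ := hT Q' h
    obtain ⟨i, -, hi⟩ := Ideal.IsPrime.prod_mem_iff.1 hmem
    exact hx i (hp'.mem_of_pow_mem _ hi)
  refine ⟨b * ∏ i, X (i, α i) ^ (e i - d i).toNat + c * ∏ i, X (i, α i) ^ (d i - e i).toNat,
    d + fun i => ((e i - d i).toNat : ℤ), (hb.mul (dta_mono α _)).add ?_,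
    J.add_mem (J.mul_mem_right _ hbJ) (J.mul_mem_right _ hcJ.1), fun Q' h hmem => ?_⟩
  · have e1 : (d + fun i => ((e i - d i).toNat : ℤ)) = e + fun i => ((d i - e i).toNat : ℤ) := by
      funext i
      simp only [Pi.add_apply]
      omega
    rw [e1]
    exact hc.mul (dta_mono α _)
  · by_cases e1 : Q' = Q
    · subst e1
      exact (hp.mem_or_mem ((Ideal.add_mem_iff_right _ (Q'.mul_mem_right _ hbQ)).1 hmem)).elim hcQ
        (hm _ h _)
    · have h1 := Finset.mem_erase.2 ⟨e1, h⟩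
      have h2 : c ∈ Q' := Submodule.mem_finsetInf.1 hcJ.2 Q' h1
      exact ((hT Q' h).2.1.mem_or_mem ((Ideal.add_mem_iff_left _ (Q'.mul_mem_right _ h2)).1
        hmem)).elim (hbT Q' h1) (hm _ h _)

theorem dta_notMem {R : Type} [CommRing R] {P : Ideal R} (hP : P.IsPrime) {β : Set R}
    (h : ∀ b ∈ β, b ∉ P) {s : R} (hs : s ∈ Submonoid.closure β) : s ∉ P :=
  Submonoid.closure_le.2 (show β ⊆ (P.primeCompl : Set R) from h) hs

theorem dta_C_mul {k τ : Type} [Field k] {P : Ideal (MvPolynomial τ k)} {u : k} (hu : u ≠ 0)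
    {f : MvPolynomial τ k} : C u * f ∈ P ↔ f ∈ P :=
  Ideal.unit_mul_mem_iff_mem P ((Ne.isUnit hu).map C)

/-- the algebraic data of a quotient by a finite diagonal group -/
structure QD (m : ℕ) (k ι₀ κ σ H : Type) [Field k] [AddCommGroup H] where
  I : Ideal (S k (ι₀ ⊕ κ))
  grI : GrI I
  fer : Fer m k (ι₀ ⊕ κ) ≤ I
  c : H → (ι₀ ⊕ κ) × Fin 3 → k
  c_zero : c 0 = 1
  c_add : ∀ h h', c (h + h') = c h * c h'
  c_inr : ∀ h i j, c h (Sum.inr i, j) = 1
  stab : ∀ h, ∀ f ∈ I, sc (c h) f ∈ I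
  β : Set (S k (ι₀ ⊕ κ))
  β_semi : ∀ b ∈ β, ∀ h, ∃ u : k, sc (c h) b = C u * b
  β_var : ∀ i, ∃ j, X (Sum.inl i, j) ∈ β
  r : σ → S k (ι₀ ⊕ κ)
  δ : ι₀ ⊕ κ → ℤ
  δ_ne : ∃ i, δ (Sum.inl i) ≠ 0
  r_hom : ∀ s, Hg (r s) δ
  r_semi : ∀ h, ∃ u : k, ∀ s, sc (c h) (r s) = C u * r s
  inv : ∀ b d, Hg b d → (∀ h, sc (c h) b = b) → ∃ s ∈ Submonoid.closure β,
    ∃ s' ∈ Submonoid.closure β, ∃ (ψ : MvPolynomial (σ ⊕ κ × Fin 3) k),
      s * b - s' * aeval (Sum.elim r fun v => X (Sum.inr v.1, v.2)) ψ ∈ I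
  Γ : Set (MvPolynomial σ k)
  Γ_ne : ∀ γ ∈ Γ, ∀ P : Ideal (S k (ι₀ ⊕ κ)), P.IsPrime → I ≤ P → (∀ b ∈ β, b ∉ P) →
    aeval r γ ∉ P
  lift : ∀ (Ω : Type) [Field Ω] [Algebra k Ω] [IsAlgClosed Ω] (ρ : σ → Ω) (y : κ × Fin 3 → Ω),
    (∀ i, OnF m fun j => y (i, j)) → (∀ γ ∈ Γ, aeval ρ γ ≠ 0) →
    ∃ x : (ι₀ ⊕ κ) × Fin 3 → Ω, (∀ f ∈ I, aeval x f = 0) ∧ (∀ b ∈ β, aeval x b ≠ 0) ∧
      (∀ i j, x (Sum.inr i, j) = y (i, j)) ∧ ∃ l : Ω, l ≠ 0 ∧ ∀ s, aeval x (r s) = l * ρ s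

namespace QD

variable {m : ℕ} {k ι₀ κ σ H : Type} [Field k] [AddCommGroup H] (D : QD m k ι₀ κ σ H)

/-- the map from the ring of the quotient -/
def θ : MvPolynomial (σ ⊕ κ × Fin 3) k →ₐ[k] S k (ι₀ ⊕ κ) :=
  aeval (Sum.elim D.r fun v => X (Sum.inr v.1, v.2))

/-- the weights on the ring of the quotient -/
def w : σ ⊕ κ × Fin 3 → ι₀ ⊕ κ → ℤ := Sum.elim (fun _ => D.δ) fun v => wt (Sum.inr v.1, v.2)

/-- good primes -/
structure Good (P : Ideal (S k (ι₀ ⊕ κ))) : Prop where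
  gr : GrI P
  prime : P.IsPrime
  le : D.I ≤ P
  nb : ∀ b ∈ D.β, b ∉ P

variable {D} {P P' : Ideal (S k (ι₀ ⊕ κ))}

theorem θ_X (s : σ ⊕ κ × Fin 3) :
    (D.θ (X s)).IsWeightedHomogeneous wt (AddMonoidHom.id _ (D.w s)) := by
  rw [θ, aeval_X]
  cases s with
  | inl s => exact D.r_hom s
  | inr v => exact hg_X _

theorem θ_hom {ψ : MvPolynomial (σ ⊕ κ × Fin 3) k} {d : ι₀ ⊕ κ → ℤ}
    (h : ψ.IsWeightedHomogeneous D.w d) : Hg (D.θ ψ) d :=
  hom_map D.θ (AddMonoidHom.id _) θ_X h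

theorem grW_comap (h : GrI P) : GrW D.w (P.comap D.θ) :=
  GrW.comap h D.θ (AddMonoidHom.id _) Function.injective_id θ_X

theorem sc_c_c (g g' : H) (f : S k (ι₀ ⊕ κ)) :
    sc (D.c g) (sc (D.c g') f) = sc (D.c (g + g')) f := by
  rw [sc_sc, D.c_add]

theorem sc_c_zero (f : S k (ι₀ ⊕ κ)) : sc (D.c 0) f = f := by
  rw [D.c_zero, sc_one]

theorem sc_c_eq_zero {g : H} {f : S k (ι₀ ⊕ κ)} (h : sc (D.c g) f = 0) : f = 0 := by
  rw [← sc_c_zero (D := D) f, ← neg_add_cancel g, ← sc_c_c, h, map_zero]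

theorem c_ne (g : H) (v : (ι₀ ⊕ κ) × Fin 3) : D.c g v ≠ 0 := by
  intro h
  have := sc_c_eq_zero (D := D) (g := g) (f := X v) (by rw [sc_X, h, C_0, zero_mul])
  exact X_ne_zero v this

theorem conj_conj (P : Ideal (S k (ι₀ ⊕ κ))) (g g' : H) :
    (P.comap (sc (D.c g))).comap (sc (D.c g')) = P.comap (sc (D.c (g + g'))) := by
  ext f
  simp only [Ideal.mem_comap, sc_c_c]

theorem conj_zero (P : Ideal (S k (ι₀ ⊕ κ))) : P.comap (sc (D.c 0)) = P := by
  ext f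
  simp only [Ideal.mem_comap, sc_c_zero]

theorem Good.conj (h : D.Good P) (g : H) : D.Good (P.comap (sc (D.c g))) := by
  have := h.prime
  refine ⟨h.gr.comap_sc _, Ideal.comap_isPrime _ _, fun f hf => h.le (D.stab g f hf),
    fun b hb hm => ?_⟩
  obtain ⟨u, hu⟩ := D.β_semi b hb g
  rw [Ideal.mem_comap, hu] at hm
  by_cases h0 : u = 0
  · rw [h0, C_0, zero_mul] at hu
    exact h.nb b hb (sc_c_eq_zero hu ▸ P.zero_mem)
  · exact h.nb b hb ((dta_C_mul h0).1 hm)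

theorem exists_deg {ψ : MvPolynomial (σ ⊕ κ × Fin 3) k} {d : ι₀ ⊕ κ → ℤ}
    (h : ψ.IsWeightedHomogeneous D.w d) :
    ∃ N : ℕ, ψ.IsWeightedHomogeneous (Sum.elim (fun _ => 1) fun _ => 0) N := by
  classical
  obtain ⟨i, hi⟩ := D.δ_ne
  refine ⟨(d (Sum.inl i) / D.δ (Sum.inl i)).toNat, fun s hs => ?_⟩
  have e : d (Sum.inl i) = (Finsupp.weight (Sum.elim (fun _ => 1) fun _ => 0 :
      σ ⊕ κ × Fin 3 → ℕ) s : ℕ) * D.δ (Sum.inl i) := by
    rw [← h hs, Finsupp.weight_apply, Finsupp.weight_apply, Finsupp.sum, Finsupp.sum,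
      Finset.sum_apply, Nat.cast_sum, Finset.sum_mul]
    refine Finset.sum_congr rfl fun v _ => ?_
    cases v with
    | inl t => simp [w]
    | inr t => simp [w, wt_apply]
  rw [e, Int.mul_ediv_cancel _ hi, Int.toNat_natCast]

theorem comap_conj (h : GrI P) (g : H) : (P.comap (sc (D.c g))).comap D.θ = P.comap D.θ := by
  obtain ⟨u, hu0, hu⟩ : ∃ u : k, u ≠ 0 ∧ ∀ s, sc (D.c g) (D.r s) = C u * D.r s := by
    obtain ⟨u, hu⟩ := D.r_semi g
    by_cases h0 : u = 0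
    · refine ⟨1, one_ne_zero, fun s => ?_⟩
      have := hu s
      rw [h0, C_0, zero_mul] at this
      rw [this, sc_c_eq_zero this, mul_zero]
    · exact ⟨u, h0, hu⟩
  have key : ∀ ψ d, ψ.IsWeightedHomogeneous D.w d →
      (ψ ∈ (P.comap (sc (D.c g))).comap D.θ ↔ ψ ∈ P.comap D.θ) := by
    intro ψ d hψ
    obtain ⟨N, hN⟩ := exists_deg hψ
    have e : (sc (D.c g)).comp D.θ = aeval fun v => (C u : S k (ι₀ ⊕ κ)) ^
        (Sum.elim (fun _ => 1) (fun _ => 0) v : ℕ) *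
        Sum.elim D.r (fun v => X (Sum.inr v.1, v.2)) v := by
      refine algHom_ext fun v => ?_
      rw [AlgHom.comp_apply, θ, aeval_X, aeval_X]
      cases v with
      | inl s => simpa using hu s
      | inr v => simp [sc_X, D.c_inr]
    rw [Ideal.mem_comap, Ideal.mem_comap, Ideal.mem_comap, ← AlgHom.comp_apply, e,
      dta_scale hN, ← C_pow, dta_C_mul (pow_ne_zero N hu0)]
    rfl
  exact le_antisymm ((grW_comap (h.comap_sc _)).le_of_hom fun f d hf => (key f d hf).1)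
    ((grW_comap h).le_of_hom fun f d hf => (key f d hf).2)

variable [Fintype ι₀] [Fintype κ] [Fintype H]

/-- going up -/
theorem exists_le (h : D.Good P) (h' : D.Good P') (hi : ¬ Irr P)
    (hl : P'.comap D.θ ≤ P.comap D.θ) : ∃ g, P' ≤ P.comap (sc (D.c g)) := by
  classical
  by_contra hcon
  obtain ⟨α, hα⟩ := exists_var_notMem h.prime hi
  obtain ⟨b, d, hb, hbP, hbT⟩ := dta_avoid α h'.gr
    (Finset.univ.image fun g => P.comap (sc (D.c g))) fun Q hQ => by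
      obtain ⟨g, -, rfl⟩ := Finset.mem_image.1 hQ
      refine ⟨(h.conj g).gr, (h.conj g).prime, fun hle => hcon ⟨g, hle⟩, fun i hm => hα i ?_⟩
      rwa [Ideal.mem_comap, sc_X, dta_C_mul (c_ne g _)] at hm
  have hp := h.prime
  obtain ⟨s, hs, s', hs', ψ, hψ⟩ := D.inv (∏ g, sc (D.c g) b) (∑ _g : H, d)
    (IsWeightedHomogeneous.prod _ _ _ fun g _ => hg_sc _ hb) fun g => by
      rw [map_prod]
      simp only [sc_c_c]
      exact Fintype.prod_equiv (Equiv.addLeft g) _ _ fun _ => rfl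
  have h1 : (∏ g, sc (D.c g) b) ∈ P' :=
    Ideal.prod_mem _ (Finset.mem_univ 0) (by rwa [sc_c_zero])
  have h2 : s' * D.θ ψ ∈ P' := by
    have := P'.sub_mem (P'.mul_mem_left s h1) (h'.le hψ)
    rwa [sub_sub_cancel] at this
  have h3 : D.θ ψ ∈ P :=
    hl ((h'.prime.mem_or_mem h2).resolve_left (dta_notMem h'.prime h'.nb hs'))
  have h4 : s * ∏ g, sc (D.c g) b ∈ P := by
    have := P.add_mem (h.le hψ) (P.mul_mem_left s' h3)
    rwa [θ, sub_add_cancel] at this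
  obtain ⟨g, -, hg⟩ := Ideal.IsPrime.prod_mem_iff.1
    ((hp.mem_or_mem h4).resolve_left (dta_notMem hp h.nb hs))
  exact hbT _ (Finset.mem_image_of_mem _ (Finset.mem_univ g)) hg

omit [Fintype ι₀] [Fintype κ] in
theorem conj_le {g : H} (h : P ≤ P.comap (sc (D.c g))) : P.comap (sc (D.c g)) ≤ P := by
  have key : ∀ n : ℕ, P.comap (sc (D.c g)) ≤ P.comap (sc (D.c ((n + 1) • g))) := by
    intro n
    induction n with
    | zero => rw [zero_add, one_nsmul]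
    | succ n ih =>
      refine ih.trans ?_
      rw [succ_nsmul' g (n + 1), ← conj_conj]
      exact Ideal.comap_mono h
  have := key (Fintype.card H - 1)
  rwa [Nat.sub_add_cancel Fintype.card_pos, card_nsmul_eq_zero, conj_zero] at this

theorem exists_eq (h : D.Good P) (h' : D.Good P') (hi : ¬ Irr P) (hi' : ¬ Irr P')
    (hl : P'.comap D.θ = P.comap D.θ) : ∃ g, P' = P.comap (sc (D.c g)) := by
  obtain ⟨g, hg⟩ := exists_le h h' hi hl.le
  obtain ⟨g', hg'⟩ := exists_le h' h hi' hl.ge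
  have h1 : P'.comap (sc (D.c g')) ≤ P.comap (sc (D.c (g + g'))) := by
    rw [← conj_conj]
    exact Ideal.comap_mono hg
  have h2 : P'.comap (sc (D.c g')) = P := le_antisymm (h1.trans (conj_le (hg'.trans h1))) hg'
  exact ⟨-g', by rw [← h2, conj_conj, add_neg_cancel, conj_zero]⟩

/-- lying over -/
theorem exists_over (h : D.Good P) {p₁ : Ideal (MvPolynomial (σ ⊕ κ × Fin 3) k)}
    (hg : GrW D.w p₁) (hp : p₁.IsPrime) (hl : p₁ ≤ P.comap D.θ)
    (he : extc (Set.range Sum.inr) p₁ = extc (Set.range Sum.inr) (P.comap D.θ)) :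
    ∃ P₁, D.Good P₁ ∧ P₁.comap D.θ = p₁ := by
  obtain ⟨Ω, _, _, _, π, hπ⟩ := dta_point (k := k) hp
  obtain ⟨x, hx1, hx2, hx3, l, hl0, hx4⟩ := D.lift Ω (fun s => π (X (Sum.inl s)))
    (fun v => π (X (Sum.inr v))) (fun i => by
      have h1 : (X (Sum.inr (i, 0)) ^ m + X (Sum.inr (i, 1)) ^ m - X (Sum.inr (i, 2)) ^ m :
          MvPolynomial (σ ⊕ κ × Fin 3) k) ∈ p₁ := by
        refine extc_le (Set.range Sum.inr) _ ?_
        rw [he]
        refine Ideal.subset_span ⟨?_, ?_⟩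
        · have := h.le (D.fer (fer_mem (Sum.inr i)))
          simpa [Ideal.mem_comap, θ, Tate.fer] using this
        · have hX : ∀ j, (X (Sum.inr (i, j)) : MvPolynomial (σ ⊕ κ × Fin 3) k) ∈
              supported k (Set.range Sum.inr) := fun j => X_mem_supported.2 ⟨_, rfl⟩
          exact sub_mem (add_mem (pow_mem (hX 0) m) (pow_mem (hX 1) m)) (pow_mem (hX 2) m)
      have h2 := (hπ _).2 h1
      rw [map_sub, map_add, map_pow, map_pow, map_pow, sub_eq_zero] at h2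
      exact h2) fun γ hγ h0 => by
      have e1 : aeval (fun s => π (X (Sum.inl s))) γ = π (rename Sum.inl γ) := by
        rw [← AlgHom.comp_apply]
        refine DFunLike.congr_fun (algHom_ext fun s => ?_) γ
        simp
      have e2 : D.θ (rename Sum.inl γ) = aeval D.r γ := by
        rw [θ, aeval_rename]
        rfl
      rw [e1, hπ] at h0
      exact D.Γ_ne γ hγ P h.prime h.le h.nb (e2 ▸ hl h0)
  have hgr : GrI (core wt (RingHom.ker (aeval (R := k) x))) := grW_core _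
  have key : ∀ ψ d, ψ.IsWeightedHomogeneous D.w d →
      (ψ ∈ (core wt (RingHom.ker (aeval (R := k) x))).comap D.θ ↔ ψ ∈ p₁) := by
    intro ψ d hψ
    obtain ⟨N, hN⟩ := exists_deg hψ
    have e : (aeval x).comp D.θ = aeval fun v => l ^
        (Sum.elim (fun _ => 1) (fun _ => 0) v : ℕ) * π (X v) := by
      refine algHom_ext fun v => ?_
      rw [AlgHom.comp_apply, θ, aeval_X, aeval_X]
      cases v with
      | inl s => simpa using hx4 s
      | inr v => simpa using hx3 v.1 v.2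
    have e' : aeval (fun v => π (X v)) ψ = π ψ :=
      DFunLike.congr_fun (algHom_ext (g := π) fun v => aeval_X _ _) ψ
    rw [Ideal.mem_comap, mem_core (θ_hom hψ), RingHom.mem_ker, ← AlgHom.comp_apply, e,
      dta_scale hN, e', mul_eq_zero, hπ, or_iff_right (pow_ne_zero N hl0)]
  refine ⟨_, ⟨hgr, core_isPrime (RingHom.ker_isPrime _), D.grI.le_core hx1,
    fun b hb hm => hx2 b hb (core_le _ hm)⟩, le_antisymm
      ((grW_comap hgr).le_of_hom fun f d hf => (key f d hf).1)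
      (hg.le_of_hom fun f d hf => (key f d hf).2)⟩

end QD

end Pool.Agent.Tate
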