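import Pool.Agent.P.MP_2ce3e7_ag.DG1
import Pool.Agent.P.MP_2ce3e7_ag.DG2
import Pool.Agent.P.MP_2ce3e7_ag.DT3
import Pool.Agent.P.MP_2ce3e7_ag.DQ0

/-! Good varieties. -/

set_option linter.unusedSectionVars false
set_option linter.unusedVariables false

open Function
open scoped TensorProduct

noncomputable section

namespace Pool.Agent.CXD

variable {k K Ω : Type} [Field k] [Fintype k] [CommRing K] [Algebra k K] [IsNoetherianRing K]
  [Field Ω] [Algebra k Ω] [IsAlgClosed Ω] {α β : Type} [Af Ω α] [Af Ω β] {p p₀ p₁ : α → Prop}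
  {p' p₀' : β → Prop}

variable (k K Ω) in
/-- the varieties whose coordinate ring has the property `TT` -/
def GS : Gp Ω := ⟨fun {α} _ p => TT k K (Rg k p) 0 0⟩

variable (k) in
/-- the ideals whose zero set is contained in `p₀` -/
def Up (p p₀ : α → Prop) : Set (Ideal (Rg k p)) :=
  {P | ∀ x : {x // p x}, (∀ a ∈ P, a.1 x = 0) → p₀ x.1}

variable (k K Ω) in
/-- the relative form -/
def GQ : Gq Ω := ⟨fun {α} _ p p₀ => TP k K (Rg k p) Set.univ (Up k p p₀)⟩

theorem gs_iff : (GS k K Ω).good p ↔ TT k K (Rg k p) 0 0 := Iff.rfl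

theorem gq_iff : (GQ k K Ω).rel p p₀ ↔ TP k K (Rg k p) Set.univ (Up k p p₀) := Iff.rfl

theorem up_iff (c : Cz k p) {ι : Type} {s : ι → α → Ω} (hs : ∀ J, Pm k (s J))
    {P : Ideal (Rg k p)} (hP : P.IsPrime) :
    P ∈ Up k p (fun x => ∀ J, s J x = 0) ↔ P ∈ Zs (Set.range fun J => rg p (hs J)) :=
  ⟨fun h _ ⟨J, e⟩ => e ▸ mem_of_zero c P hP _ fun x hx => h x hx J,
    fun h x hx J => hx _ (h _ ⟨J, rfl⟩)⟩

theorem gq_iff_tq (c : Cz k p) {ι : Type} {s : ι → α → Ω} (hs : ∀ J, Pm k (s J)) :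
    (GQ k K Ω).rel p (fun x => ∀ J, s J x = 0) ↔
      TQ k K (Rg k p) (Set.range fun J => rg p (hs J)) :=
  ⟨fun h => TP.mono h (fun _ _ h => h) fun _ hP => (up_iff c hs hP).1,
    fun h => TP.mono h (fun _ _ h => h) fun _ hP => (up_iff c hs hP).2⟩

end Pool.Agent.CXD
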