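import Pool.Agent.P.MP_2ce3e7_ag.DV0

/-! The first rules. -/

set_option linter.unusedSectionVars false
set_option linter.unusedVariables false

open Function
open scoped TensorProduct

noncomputable section

namespace Pool.Agent.CXD

variable {k K Ω : Type} [Field k] [Fintype k] [CommRing K] [Algebra k K] [IsNoetherianRing K]
  [Field Ω] [Algebra k Ω] [IsAlgClosed Ω] {α β : Type} [Af Ω α] [Af Ω β] {p p₀ p₁ : α → Prop}
  {p' p₀' : β → Prop}

theorem gs_fin (h : Fi k p' p) (hp : (GS k K Ω).good p') : (GS k K Ω).good p := by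
  obtain ⟨f, hf, h0, h1⟩ := h
  have h2 : ∀ z, p' z → p (f z) := fun z hz => (h1 _).2 ⟨z, hz, rfl⟩
  refine TT.fin (Q := 0) (pb hf h2) (h0.finite hf h2) (fun b hb => ?_) hp
  obtain rfl : b = 0 := rg_ext fun x => by
    obtain ⟨x, hx⟩ := x
    obtain ⟨z, hz, rfl⟩ := (h1 x).1 hx
    exact congrArg (fun t : Rg k p' => t.1 ⟨z, hz⟩) hb
  exact IsNilpotent.zero

theorem gs_line (hp : (GS k K Ω).good p) : (GS k K Ω).good fun y : α × Ω => p y.1 := by
  obtain ⟨e, -⟩ := exists_polyE (k := k) (Ω := Ω) p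
  exact TT.of_bij (TT.poly0 hp) e.symm

/-- clearing the denominator -/
theorem exists_clear {g : α → Ω} (hg : Pm k g) {F : α × Ω → Ω} (hF : Pm k F) :
    ∃ (N : ℕ) (a : α → Ω), Pm k a ∧ ∀ x u, g x * u = 1 → a x = g x ^ N * F (x, u) := by
  obtain ⟨P, hP⟩ := pm_self.1 hF
  simp only [hP]
  clear hP hF
  induction P using MvPolynomial.induction_on with
  | C c =>
    exact ⟨0, fun _ => algebraMap k Ω c, Pm.const _, fun x u _ => by
      rw [pow_zero, one_mul, MvPolynomial.aeval_C]⟩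
  | add P Q h1 h2 =>
    obtain ⟨N, a, ha, e⟩ := h1
    obtain ⟨M, b, hb, e'⟩ := h2
    refine ⟨N + M, fun x => g x ^ M * a x + g x ^ N * b x,
      ((hg.pow M).mul ha).add ((hg.pow N).mul hb), fun x u h => ?_⟩
    beta_reduce
    rw [e x u h, e' x u h, map_add]
    ring
  | mul_X P j h1 =>
    obtain ⟨N, a, ha, e⟩ := h1
    rcases j with j | ⟨⟨⟩⟩
    · refine ⟨N, fun x => a x * co x j, ha.mul (Pm.id.co j), fun x u h => ?_⟩
      beta_reduce
      rw [e x u h, map_mul, MvPolynomial.aeval_X, mul_assoc]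
      rfl
    · refine ⟨N + 1, a, ha, fun x u h => ?_⟩
      rw [e x u h, map_mul, MvPolynomial.aeval_X]
      change _ = _ * (_ * u)
      linear_combination (-(g x ^ N * MvPolynomial.aeval (Af.e (x, u)) P)) * h

theorem gs_opn {g : α → Ω} (hg : Pm k g) (hp : (GS k K Ω).good p) :
    (GS k K Ω).good fun y : α × Ω => p y.1 ∧ g y.1 * y.2 = 1 := by
  refine TT.opn (Q := 0)
    (pb (p' := fun y : α × Ω => p y.1 ∧ g y.1 * y.2 = 1) Pm.id.fst fun _ h => h.1)
    (rg p hg) (IsUnit.of_mul_eq_one (rg _ Pm.id.snd) (rg_ext fun y => y.2.2)) (fun y => ?_)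
    (fun a ha => ⟨1, rg_ext fun x => ?_⟩) hp
  · obtain ⟨F, hF, rfl⟩ := rg_surj y
    obtain ⟨N, a, ha, e⟩ := exists_clear hg hF
    refine ⟨N, rg p ha, rg_ext fun z => ?_⟩
    rw [← evx_apply, ← evx_apply, map_mul, map_pow]
    exact e _ _ z.2.2
  · rw [pow_one]
    change g x.1 * a.1 x = 0
    by_cases h : g x.1 = 0
    · rw [h, zero_mul]
    · exact mul_eq_zero_of_right _ (congrArg (fun t : Rg k _ => t.1 ⟨(x.1, (g x.1)⁻¹),
        x.2, mul_inv_cancel₀ h⟩) ha)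

theorem gs_empty : (GS k K Ω).good fun _ : α => False :=
  TT.of_surj (Q := 0) fun _ => ⟨0, rg_ext fun x => x.2.elim⟩

theorem gs_pt : (GS k K Ω).good fun _ : Fin 0 → Ω => True := by
  refine TT.of_surj (Q := 0) fun b => ?_
  have h : b ∈ (⊤ : Subalgebra k (Rg k fun _ : Fin 0 → Ω => True)) := trivial
  have : IsEmpty (Af.ι (Fin 0 → Ω)) := ⟨fun j => j.1.elim0⟩
  rw [← rg_adjoin, Set.range_eq_empty, Algebra.adjoin_empty] at h
  exact Algebra.mem_bot.1 h

theorem gq_iso (f : β → α) (r : α → β) (hf : Pm k f) (hr : Pm k r) (h1 : ∀ z, p' z → p (f z))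
    (h2 : ∀ x, p x → p' (r x)) (h3 : ∀ z, p' z → r (f z) = z) (h4 : ∀ x, p x → f (r x) = x)
    (h5 : ∀ z, p' z → p₀' z → p₀ (f z)) (h : (GQ k K Ω).rel p' p₀') : (GQ k K Ω).rel p p₀ := by
  have e1 : ∀ a, pb hf h1 (pb (k := k) hr h2 a) = a := fun a => rg_ext fun z =>
    congrArg a.1 (Subtype.ext (h3 z.1 z.2))
  refine TP.fin (pb hf h1) (RingHom.Finite.of_surjective _ fun a => ⟨_, e1 a⟩) (fun b hb => ?_)
    (fun P' _ hP' P _ hle x hx => ?_) h
  · obtain rfl : b = 0 := rg_ext fun x =>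
      (congrArg b.1 (Subtype.ext (h4 x.1 x.2))).symm.trans
        (congrArg (fun t : Rg k p' => t.1 ⟨r x.1, h2 _ x.2⟩) hb)
    exact IsNilpotent.zero
  · rw [← h4 x.1 x.2]
    refine h5 _ (h2 _ x.2) (hP' ⟨r x.1, h2 _ x.2⟩ fun a ha => hx (pb hr h2 a) (hle ?_))
    exact Ideal.mem_comap.2 ((e1 a).symm ▸ ha : pb hf h1 (pb hr h2 a) ∈ P')

end Pool.Agent.CXD
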