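import Pool.Agent.P.MP_2ce3e7_ag.DV1

/-! Pieces. -/

set_option linter.unusedSectionVars false
set_option linter.unusedVariables false

open Function
open scoped TensorProduct

noncomputable section

namespace Pool.Agent.CXD

variable {k K Ω : Type} [Field k] [Fintype k] [CommRing K] [Algebra k K] [IsNoetherianRing K]
  [Field Ω] [Algebra k Ω] [IsAlgClosed Ω] {α β : Type} [Af Ω α] [Af Ω β] {p p₀ p₁ : α → Prop}
  {p' p₀' : β → Prop}

theorem ft_DV2 {A B : Type} [CommRing A] [CommRing B] [Algebra k A] [Algebra k B]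
    [Algebra.FiniteType k B] (ψ : A →ₐ[k] B) : ψ.toRingHom.FiniteType := by
  refine RingHom.FiniteType.of_comp_finiteType (f := algebraMap k A) ?_
  have e : ψ.toRingHom.comp (algebraMap k A) = algebraMap k B := RingHom.ext ψ.commutes
  rw [e]
  exact RingHom.finiteType_algebraMap.2 inferInstance

theorem tp_closed (c : Cz k p) (h : ∀ x, p₁ x → p x) (hp : (GS k K Ω).good p₁) :
    TP k K (Rg k p) (Up k p p₁) ∅ := by
  have hS : Pc (pb (k := k) (Ω := Ω) (p := p) (p' := p₁) Pm.id h).toRingHom {1} := by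
    refine ⟨Set.finite_singleton _, ft_DV2 _, fun f hf y => ⟨0, ?_⟩⟩
    obtain ⟨u, hu, rfl⟩ := rg_surj y
    rw [pow_zero, one_mul]
    exact RingHom.isIntegralElem_map
      (pb (k := k) (Ω := Ω) (p := p) (p' := p₁) Pm.id h).toRingHom (x := rg p hu)
  refine (TP.piece (gs_iff.1 hp) _ hS).mono (fun P hP hm a ha => ?_) fun P hP hm => ?_
  · refine mem_of_zero c P hP a fun x hx => ?_
    exact congrFun (congrArg Subtype.val (RingHom.mem_ker.1 ha)) ⟨x.1, hm x hx⟩
  · exact hP.ne_top ((Ideal.eq_top_iff_one P).2 (hm 1 rfl))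

theorem gq_piece {ι : Type} [Finite ι] (g : ι → α → Ω) (f : β → α) (r : ι → α × Ω → β)
    (c : Cz k p) (hg : ∀ i, Pm k (g i)) (hf : Pm k f) (hr : ∀ i, Pm k (r i))
    (h1 : ∀ z, p' z → p (f z)) (h2 : ∀ x i, p x → g i x ≠ 0 → ∃ z, p' z ∧ f z = x)
    (h3 : ∀ i z u, p' z → g i (f z) * u = 1 → r i (f z, u) = z)
    (h4 : ∀ x, p x → (∀ i, g i x = 0) → p₀ x) (hp : (GS k K Ω).good p') :
    (GQ k K Ω).rel p p₀ := by
  have hS : Pc (pb (p := p) hf h1).toRingHom (Set.range fun i => rg p (hg i)) := by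
    refine ⟨Set.finite_range _, ft_DV2 _, ?_⟩
    rintro _ ⟨i, rfl⟩ y
    obtain ⟨Y, hY, rfl⟩ := rg_surj y
    obtain ⟨N, a, ha, e⟩ := exists_clear (hg i) (hY.comp (hr i))
    refine ⟨N + 1, ?_⟩
    have e2 : (pb (p := p) hf h1).toRingHom (rg p (hg i)) ^ (N + 1) * rg p' hY =
        (pb (p := p) hf h1).toRingHom (rg p ((hg i).mul ha)) := by
      refine rg_ext fun z => ?_
      change g i (f z.1) ^ (N + 1) * Y z.1 = g i (f z.1) * a (f z.1)
      by_cases h0 : g i (f z.1) = 0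
      · rw [h0, zero_mul, pow_succ, mul_zero, zero_mul]
      · have h5 := mul_inv_cancel₀ h0
        rw [e _ _ h5, h3 i z.1 _ z.2 h5]
        ring
    rw [e2]
    exact RingHom.isIntegralElem_map _
  have hT := TP.piece (gs_iff.1 hp) _ hS
  have hz : ∀ P : Ideal (Rg k p), P ∈ Zs (Set.range fun i => rg p (hg i)) → P ∈ Up k p p₀ :=
    fun P hm x hx => h4 x.1 x.2 fun i => hx _ (hm _ ⟨i, rfl⟩)
  refine gq_iff.2 (TP.of_forall fun P hP _ => ?_)
  by_cases hm : P ∈ Zs (Set.range fun i => rg p (hg i))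
  · exact ⟨_, hz P hm, TP.refl⟩
  · refine ⟨_, ?_, hT.mono (fun _ _ h => h) fun P _ => hz P⟩
    have : ∃ i, rg p (hg i) ∉ P := by
      by_contra hn
      exact hm (by
        rintro _ ⟨i, rfl⟩
        by_contra h5
        exact hn ⟨i, h5⟩)
    obtain ⟨i, hi⟩ := this
    intro a ha
    have e : rg p (hg i) * a = 0 := by
      refine rg_ext fun x => ?_
      change g i x.1 * a.1 x = 0
      by_cases h0 : g i x.1 = 0
      · rw [h0, zero_mul]
      · obtain ⟨z, hz1, hz2⟩ := h2 x.1 i x.2 h0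
        have h5 : a.1 ⟨f z, h1 z hz1⟩ = 0 :=
          congrFun (congrArg Subtype.val (RingHom.mem_ker.1 ha)) ⟨z, hz1⟩
        have h6 : x = ⟨f z, h1 z hz1⟩ := Subtype.ext hz2.symm
        rw [h6, h5, mul_zero]
    exact (hP.mem_or_mem (e ▸ P.zero_mem)).resolve_left hi

theorem gs_split {g : α → Ω} (c : Cz k p) (hg : Pm k g)
    (h1 : (GS k K Ω).good fun x => p x ∧ g x = 0)
    (h2 : (GS k K Ω).good fun y : α × Ω => p y.1 ∧ g y.1 * y.2 = 1) : (GS k K Ω).good p := by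
  have h3 : (GQ k K Ω).rel p fun x => p x ∧ g x = 0 :=
    gq_piece (ι := Unit) (fun _ => g) (fun y : α × Ω => y.1) (fun _ y => y) c (fun _ => hg)
      Pm.id.fst (fun _ => Pm.id) (fun _ h => h.1)
      (fun x _ hx h0 => ⟨(x, (g x)⁻¹), ⟨hx, mul_inv_cancel₀ h0⟩, rfl⟩)
      (fun _ z u hz hu => Prod.ext rfl (by
        have h0 : g z.1 ≠ 0 := left_ne_zero_of_mul_eq_one hu
        exact mul_left_cancel₀ h0 (hu.trans hz.2.symm)))
      (fun x hx h0 => ⟨hx, h0 ()⟩) h2
  exact gs_iff.2 (TP.tt ((gq_iff.1 h3).trans (tp_closed c (fun _ h => h.1) h1)))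

end Pool.Agent.CXD
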