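import Pool.Agent.P.MP_2ce3e7_ag.DV2
import Pool.Agent.P.MP_2ce3e7_ag.DLV

/-! Adding a vector. -/

set_option linter.unusedSectionVars false
set_option linter.unusedVariables false

open Function Matrix
open scoped TensorProduct

noncomputable section

namespace Pool.Agent.CXD

variable {k K Ω : Type} [Field k] [Fintype k] [CommRing K] [Algebra k K] [IsNoetherianRing K]
  [Field Ω] [Algebra k Ω] [IsAlgClosed Ω] {α β : Type} [Af Ω α] [Af Ω β] {p p₀ p₁ : α → Prop}
  {p' p₀' : β → Prop}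

theorem lfm_DV4 {n : Type} [Fintype n] {E : α × (n → Ω) → Prop} (hb : ∀ y, E y → p y.1)
    {c : α → n → Ω} (hc : Pm k c) :
    lfm (pb (Pm.id (k := k)).fst hb) (fun r => rg E ((Pm.id (k := k)).snd.eval r))
      (fun r => rg p (hc.eval r)) =
      rg E ((hc.comp (Pm.id (k := k) (α := α × (n → Ω))).fst).dot (Pm.id (k := k)).snd) := by
  refine rg_ext fun y => ?_
  rw [← evx_apply, lfm, map_sum]
  simp only [map_mul]
  rfl

theorem gq_vs {n ι₀ ι₁ : Type} [Fintype n] [DecidableEq n] [Finite ι₀] [Finite ι₁]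
    {E : α × (n → Ω) → Prop} {j : ℕ} {s : ι₀ → α → Ω} {μ : ι₁ → α → n → Ω}
    {η : Fin j → ι₀ → α → n → Ω} {b : α → n → Fin j → Ω} (h : Vs k p E j s μ η b)
    (h1 : (GQ k K Ω).rel E fun y => ∀ m, μ m y.1 ⬝ᵥ y.2 = 0) :
    (GQ k K Ω).rel p fun x => ∀ J, s J x = 0 := by
  have hf : Pm k fun y : α × (n → Ω) => y.1 := Pm.id.fst
  have hv : Pm k fun y : α × (n → Ω) => y.2 := Pm.id.snd
  have hm : Pm k fun y : (α × (n → Ω)) × Ω => (y.1.1, y.2 • y.1.2) := by fun_prop
  obtain ⟨θ, hθ⟩ := exists_theta (k := k) (p := E) hm fun x t hx => h.smul x.1 x.2 t hx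
  have hd : ∀ {c : α → n → Ω}, Pm k c → Pm k fun y : α × (n → Ω) => c y.1 ⬝ᵥ y.2 :=
    fun hc => (hc.comp hf).dot hv
  have hl : ∀ {c : α → n → Ω} (hc : Pm k c), lfm (pb hf h.base) (fun r => rg E (hv.eval r))
      (fun r => rg p (hc.eval r)) = rg E (hd hc) := fun hc => lfm_DV4 h.base hc
  refine (gq_iff_tq h.cp h.ps).2 (TQ.vs (pb hf h.base) (fun r => rg E (hv.eval r)) θ
    (fun a => ?_) (fun r => ?_) (fun a => ?_) (fun J => rg p (h.ps J))
    (fun m r => rg p ((h.pμ m).eval r)) (fun i J r => rg p ((h.pη i J).eval r))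
    (fun r i => rg p ((h.pb.eval r).eval i)) (fun J => ?_) (fun P hP hμ => ?_) ?_)
  · have := hθ (pb hf h.base a) 0 fun x t => by rw [pow_zero, one_mul]; rfl
    rwa [Nat.cast_zero, LaurentPolynomial.T_zero, mul_one] at this
  · have := hθ (rg E (hv.eval r)) 1 fun x t => by rw [pow_one]; rfl
    rwa [Nat.cast_one] at this
  · have ha : a ∈ (MvPolynomial.aevalTower (pb hf h.base) fun r => rg E (hv.eval r)).range := by
      have h2 : (⊤ : Subalgebra k (Rg k E)) ≤
          (MvPolynomial.aevalTower (pb hf h.base) fun r => rg E (hv.eval r)).range := by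
        rw [← rg_adjoin]
        refine Algebra.adjoin_le ?_
        rintro _ ⟨i, rfl⟩
        cases i with
        | inl i =>
          exact ⟨MvPolynomial.C (rg p ((Pm.id (k := k) (α := α)).co i)),
            (MvPolynomial.aevalTower_C _ _ _).trans rfl⟩
        | inr i => exact ⟨MvPolynomial.X i.1, (MvPolynomial.aevalTower_X _ _ _).trans rfl⟩
      exact h2 trivial
    obtain ⟨f, hf'⟩ := ha
    exact ⟨f, hf'.symm⟩
  · obtain ⟨w, I, hw, h2, h3⟩ := h.sec J
    obtain ⟨e, hC, hX⟩ := exists_mvE (k := k) (Ω := Ω) p (Fin (j + 1))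
    have hg : Pm k fun y : α × (Fin (j + 1) → Ω) => (y.1, ∑ i, y.2 i • w y.1 i) :=
      Pm.id.fst.mk (Pm.vsum _ fun i => (Pm.id.snd.eval i).vsmul ((hw.comp Pm.id.fst).eval i))
    refine ⟨(e.symm : _ →ₐ[k] _).comp (pb (p' := fun y : α × (Fin (j + 1) → Ω) => p y.1) hg
      fun y hy => h2 y.1 y.2 hy), I, fun a => ?_, fun i => ?_⟩
    · exact e.symm_apply_eq.2 (rg_ext fun y => (hC a y).symm)
    · refine e.symm_apply_eq.2 (rg_ext fun y => ?_)
      have h4 : evx y (e (MvPolynomial.C (rg p (h.ps J)) * MvPolynomial.X i)) =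
          s J y.1.1 * y.1.2 i := by
        rw [map_mul, map_mul, evx_apply, evx_apply, hC, hX]
        rfl
      refine Eq.trans ?_ h4.symm
      change (∑ i', y.1.2 i' • w y.1.1 i') (I i) = _
      rw [Finset.sum_apply, Finset.sum_eq_single i]
      · rw [Pi.smul_apply, h3 _ _ _ y.2, if_pos rfl, smul_eq_mul, mul_comm]
      · intro i' _ hi
        rw [Pi.smul_apply, h3 _ _ _ y.2, if_neg hi, smul_zero]
      · intro hi
        exact absurd (Finset.mem_univ i) hi
  · refine or_iff_not_imp_left.2 fun h2 => ?_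
    push Not at h2
    obtain ⟨J₀, h2⟩ := h2
    have key : ∀ a : Rg k E, (∀ y : {y // E y}, (∀ m, μ m y.1.1 ⬝ᵥ y.1.2 = 0) →
        s J₀ y.1.1 ≠ 0 → evx y a = 0) → a ∈ P := fun a ha => by
      refine (hP.mem_or_mem (mem_of_zero h.cE P hP (pb hf h.base (rg p (h.ps J₀)) * a)
        fun y hy => ?_)).resolve_left h2
      change s J₀ y.1.1 * evx y a = 0
      by_cases h3 : s J₀ y.1.1 = 0
      · rw [h3, zero_mul]
      · rw [ha y (fun m => hy _ (hl (h.pμ m) ▸ hμ m)) h3, mul_zero]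
    refine ⟨fun i J J' => key _ fun y h3 h4 => ?_, fun J r => key _ fun y h3 h4 => ?_⟩
    · rw [hl (h.pη i J), hl (h.pη i J'), map_sub, map_mul, map_mul]
      exact sub_eq_zero.2 ((h.rel y.1.1 y.1.2 y.2 h3 J₀ h4).1 i J J')
    · rw [map_sub, map_sum, map_mul]
      simp only [fun i => hl (h.pη i J), map_mul]
      exact sub_eq_zero.2 ((h.rel y.1.1 y.1.2 y.2 h3 J₀ h4).2 J r)
  · have := (gq_iff_tq h.cE fun m => hd (h.pμ m)).1 h1
    rwa [show (fun m => rg E (hd (h.pμ m))) = _ from funext fun m => (hl (h.pμ m)).symm] at this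

theorem gq_aq : Aq k (GS k K Ω) (GQ k K Ω) := ⟨gq_iso, gq_piece, gq_vs⟩

end Pool.Agent.CXD
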