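import Pool.Agent.P.MP_2ce3e7_ag.DV0
import Pool.Agent.P.MP_2ce3e7_ag.CZE
import Pool.Agent.P.MP_2ce3e7_ag.DA7

/-! The Hermitian curve. -/

set_option linter.unusedSectionVars false
set_option linter.unusedVariables false

open Function
open scoped TensorProduct

noncomputable section

namespace Pool.Agent.CXD

variable {k K Ω : Type} [Field k] [Fintype k] [CommRing K] [Algebra k K] [IsNoetherianRing K]
  [Field Ω] [Algebra k Ω] [IsAlgClosed Ω] {α β : Type} [Af Ω α] [Af Ω β] {p p₀ p₁ : α → Prop}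
  {p' p₀' : β → Prop}

theorem pm_aeval_DV5 {σ : Type} [Fintype σ] (f : MvPolynomial σ k) :
    Pm k fun x : σ → Ω => MvPolynomial.aeval x f := by
  induction f using MvPolynomial.induction_on with
  | C a => exact (Pm.const (algebraMap k Ω a)).congr fun x => MvPolynomial.aeval_C _ _
  | add f g hf hg => exact (hf.add hg).congr fun x => map_add _ _ _
  | mul_X f j hf =>
    exact (hf.mul (Pm.apply j)).congr fun x => by rw [map_mul, MvPolynomial.aeval_X]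

theorem hom_DV5 {σ : Type} {f : MvPolynomial σ k} {N : ℕ} (hf : f.IsHomogeneous N) (t : Ω)
    (v : σ → Ω) : MvPolynomial.aeval (fun a => v a * t) f = t ^ N * MvPolynomial.aeval v f := by
  rw [MvPolynomial.aeval_def, MvPolynomial.aeval_def, MvPolynomial.eval₂_eq, MvPolynomial.eval₂_eq,
    Finset.mul_sum]
  refine Finset.sum_congr rfl fun s hs => ?_
  rw [hf.degree_eq_sum_deg_support hs, ← Finset.prod_pow_eq_pow_sum, mul_left_comm,
    ← Finset.prod_mul_distrib]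
  exact congrArg _ (Finset.prod_congr rfl fun a _ => by rw [mul_pow, mul_comm])

variable (k) in
/-- the Hermitian matrix -/
def hm_DV5 : Matrix (Fin 3) (Fin 3) k := !![0, 1, 0; 1, 0, 0; 0, 0, 1]

/-- the values of the forms -/
def bv_DV5 (N : ℕ) (x : Fin 3 → Ω) : Ω := x 0 * x 1 ^ N + x 1 * x 0 ^ N + x 2 ^ (1 + N)

theorem bj_DV5 (q j : ℕ) (x : Fin 3 → Ω) :
    MvPolynomial.aeval x (bj (hm_DV5 k) q (q ^ 2) j) = bv_DV5 (q * (q ^ 2) ^ j) x := by
  simp [bj, bform, hm_DV5, bv_DV5, Fin.sum_univ_three, ← pow_mul, mul_comm q, pow_add]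

theorem bv_mul_DV5 (N : ℕ) (t : Ω) (v : Fin 3 → Ω) :
    bv_DV5 N (fun a => v a * t) = t ^ (1 + N) * bv_DV5 N v := by
  simp only [bv_DV5, mul_pow, pow_add]
  ring

theorem bv_one_DV5 (N : ℕ) (s y : Ω) : bv_DV5 N ![s, 1, y] = s + s ^ N + y ^ (1 + N) := by
  simp [bv_DV5]

theorem exists_W_DV5 {q : ℕ} (hq : q ≠ 0) : ∃ W : MvPolynomial (Fin 3) k, W.IsHomogeneous (q ^ 3) ∧
    ∀ x : Fin 3 → Ω, bv_DV5 q x = 0 → bv_DV5 (q ^ 3) x = x 1 * MvPolynomial.aeval x W := by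
  obtain ⟨n, rfl⟩ := Nat.exists_eq_succ_of_ne_zero hq
  have hX := fun i : Fin 3 => MvPolynomial.isHomogeneous_X k i
  refine ⟨.X 0 * .X 1 ^ (n ^ 3 + 3 * n ^ 2 + 3 * n) + .X 0 ^ (n + 1) ^ 3 + .X 1 ^ (n ^ 2 + n) *
    (-(.X 0 * .X 1 ^ n + .X 0 ^ (n + 1))) ^ (n ^ 2 + n + 1), ?_, fun x hx => ?_⟩
  · have h1 : (.X 0 * .X 1 ^ n + .X 0 ^ (n + 1) : MvPolynomial (Fin 3) k).IsHomogeneous (n + 1) :=
      .add ((by ring : 1 + 1 * n = n + 1) ▸ (hX 0).mul ((hX 1).pow n))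
        (MvPolynomial.isHomogeneous_X_pow 0 _)
    refine .add (.add ?_ ?_) ?_
    · exact (by simp only [Nat.succ_eq_add_one]; ring :
        1 + 1 * (n ^ 3 + 3 * n ^ 2 + 3 * n) = n.succ ^ 3) ▸ (hX 0).mul ((hX 1).pow _)
    · exact MvPolynomial.isHomogeneous_X_pow 0 _
    · exact (by simp only [Nat.succ_eq_add_one]; ring :
        1 * (n ^ 2 + n) + (n + 1) * (n ^ 2 + n + 1) = n.succ ^ 3) ▸
          ((hX 1).pow _).mul (h1.neg.pow _)
  · simp only [Nat.succ_eq_add_one, bv_DV5] at hx ⊢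
    have e : x 2 ^ (1 + (n + 1)) = x 1 * -(x 0 * x 1 ^ n + x 0 ^ (n + 1)) := by
      linear_combination hx
    have e1 : 1 + (n + 1) ^ 3 = (1 + (n + 1)) * (n ^ 2 + n + 1) := by ring
    have e2 : x 1 ^ (n + 1) ^ 3 = x 1 * x 1 ^ (n ^ 3 + 3 * n ^ 2 + 3 * n) := by
      rw [← pow_succ']
      congr 1
      ring
    rw [e1, pow_mul, e, mul_pow, e2, pow_succ' (x 1) (n ^ 2 + n)]
    simp only [map_add, map_mul, map_pow, map_neg, MvPolynomial.aeval_X]
    generalize (-(x 0 * x 1 ^ n + x 0 ^ (n + 1))) ^ (n ^ 2 + n + 1) = c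
    generalize x 1 ^ (n ^ 3 + 3 * n ^ 2 + 3 * n) = a
    generalize x 1 ^ (n ^ 2 + n) = b
    generalize x 0 ^ (n + 1) ^ 3 = d
    ring

theorem adm_DV5 {q r : ℕ} (hq : Sch k q) (hr : 0 < r) (j : ℕ) :
    Adm q ((q ^ 2) ^ r) (-(-(q * (q ^ 2) ^ j : ℕ) : ℚ) ^ r) := by
  rintro ⟨p, e, μ, hp, h1, h2, h3⟩
  obtain ⟨a, ha, rfl⟩ := hq.pw
  have hc := hq.prime
  generalize ringChar k = c at *
  rw [← pow_mul, ← pow_mul] at h1
  have h4 : c = p := (Nat.prime_dvd_prime_iff_eq hc hp).1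
    (hc.dvd_of_dvd_pow (h1 ▸ dvd_pow_self c (by positivity)))
  subst h4
  obtain rfl := Nat.pow_right_injective hc.two_le h1
  have h5 : ((c : ℚ) ^ (1 + 2 * j)) ^ (a * r) = (μ ^ 2) ^ (a * r) := by
    have h6 := congrArg abs h3
    rw [neg_neg, abs_pow, abs_neg, abs_of_nonneg (Nat.cast_nonneg _),
      abs_of_nonneg (by positivity)] at h6
    push_cast at h6
    rw [← pow_mul μ, show 2 * (a * r) = a * (2 * r) by ring, ← h6]
    ring
  have h6 := (pow_left_inj₀ (by positivity) (by positivity) (by positivity)).1 h5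
  have := Fact.mk hc
  have h7 := congrArg (padicValRat c) h6
  rw [padicValRat.pow, padicValRat.pow, padicValRat.self hc.one_lt] at h7
  push_cast at h7
  omega

theorem gs_curve' {q r : ℕ} (hk : Fintype.card k = q ^ (2 * r)) :
    (GS k K Ω).good fun y : (Ω × Ω) × Ω => y.1.1 ^ q + y.1.1 + y.1.2 ^ (q + 1) = 0 ∧
      (y.1.1 + y.1.1 ^ q ^ 3 + y.1.2 ^ (1 + q ^ 3)) * y.2 = 1 := by
  have hs := sch_of_card hk
  have hq : q ≠ 0 := (one_pos.trans hs.lt).ne'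
  have hT : TT k K (Cox (hm_DV5 k) q (q ^ 2) 1) q (q ^ 2) := by
    have hr : 0 < r := Nat.pos_of_ne_zero (by
      rintro rfl
      exact (Fintype.one_lt_card (α := k)).ne' hk)
    have h1 := adm_DV5 hs hr
    obtain ⟨e, he, rfl⟩ := hs.pw
    obtain ⟨ex, hy⟩ := hyp_unitary (G := hm_DV5 k) hs.prime he one_pos
      (by simp [hm_DV5, Matrix.det_fin_three]) ⟨rfl, rfl, fun a b => by
        fin_cases a <;> fin_cases b <;> simp [hm_DV5, zero_pow hq], Or.inl rfl⟩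
    rw [pow_mul] at hk
    exact TT.cox_pow hy hr hk (hk ▸ h1)
  have := cox_finiteType (G := hm_DV5 k) (r := q) (Q := q ^ 2) (κ := 1)
  obtain ⟨W, hW, hx1⟩ := exists_W_DV5 (k := k) (Ω := Ω) hq
  have eq0 : q * (q ^ 2) ^ 0 = q := by ring
  have eq1 : q * (q ^ 2) ^ 1 = q ^ 3 := by ring
  let p' : (Fin 3 → Ω) → Prop := fun x => bv_DV5 q x = 0 ∧ bv_DV5 (q ^ 3) x = 1
  have hp' : ∀ x : Fin 3 → Ω, p' x ↔
      ∀ j < 1 + 1, MvPolynomial.aeval x (eqn (hm_DV5 k) q (q ^ 2) 1 j) = 0 := fun x => by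
    have e0 : MvPolynomial.aeval x (eqn (hm_DV5 k) q (q ^ 2) 1 0) = bv_DV5 q x := by
      rw [eqn, if_pos one_pos, bj_DV5, eq0]
    have e1 : MvPolynomial.aeval x (eqn (hm_DV5 k) q (q ^ 2) 1 1) = bv_DV5 (q ^ 3) x - 1 := by
      rw [eqn, if_neg (lt_irrefl 1), map_sub, bj_DV5, eq1, map_one]
    refine ⟨fun h j hj => ?_, fun h => ⟨e0 ▸ h 0 (by omega), sub_eq_zero.1 (e1 ▸ h 1 (by omega))⟩⟩
    obtain rfl | rfl : j = 0 ∨ j = 1 := by omega
    exacts [e0.trans h.1, e1.trans (sub_eq_zero.2 h.2)]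
  have hw : ∀ x, p' x → x 1 * MvPolynomial.aeval x W = 1 := fun x hx => (hx1 x hx.1).symm.trans hx.2
  let π₀ : MvPolynomial (Fin 3) k →ₐ[k] Rg k p' := MvPolynomial.aeval fun a => rg p' (Pm.apply a)
  have hπ₀ : ∀ f x, (π₀ f).1 x = MvPolynomial.aeval x.1 f := fun f x =>
    map_aeval_DT2 (evx x) (fun a => rg p' (Pm.apply a)) f
  let π : (MvPolynomial (Fin 3) k ⧸ rel (hm_DV5 k) q (q ^ 2) 1) →ₐ[k] Rg k p' :=
    Ideal.Quotient.liftₐ _ π₀ fun f hf => by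
      refine (Ideal.span_le.2 ?_ : _ ≤ RingHom.ker π₀) hf
      rintro _ ⟨j, hj, rfl⟩
      exact rg_ext fun x => (hπ₀ _ x).trans ((hp' x.1).1 x.2 j hj)
  have hπ : ∀ f x, (π (Ideal.Quotient.mk _ f)).1 x = MvPolynomial.aeval x.1 f := hπ₀
  let g : (Fin 3 → Ω) → (Ω × Ω) × Ω := fun x =>
    ((x 0 * MvPolynomial.aeval x W, x 2 * MvPolynomial.aeval x W), x 1 ^ (1 + q ^ 3))
  have hg : Pm k g := by
    have := pm_aeval_DV5 (Ω := Ω) W
    fun_prop
  have hx : ∀ x, p' x → x = fun a => ![(g x).1.1, 1, (g x).1.2] a * x 1 := fun x h => by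
    funext a
    fin_cases a
    · exact ((mul_assoc _ _ _).trans (by rw [mul_comm _ (x 1), hw x h, mul_one]; rfl)).symm
    · exact (one_mul _).symm
    · exact ((mul_assoc _ _ _).trans (by rw [mul_comm _ (x 1), hw x h, mul_one]; rfl)).symm
  let p : (Ω × Ω) × Ω → Prop := fun y => y.1.1 ^ q + y.1.1 + y.1.2 ^ (q + 1) = 0 ∧
    (y.1.1 + y.1.1 ^ q ^ 3 + y.1.2 ^ (1 + q ^ 3)) * y.2 = 1
  have hm : ∀ x, p' x → p (g x) := fun x h => by
    have h1 := h.1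
    have h2 := h.2
    rw [hx x h, bv_mul_DV5, bv_one_DV5] at h1 h2
    refine ⟨?_, (mul_comm _ _).trans h2⟩
    rw [add_comm _ (g x).1.1, add_comm q]
    exact (mul_eq_zero.1 h1).resolve_left (pow_ne_zero _ (left_ne_zero_of_mul_eq_one (hw x h)))
  have hs : ∀ y, p y → ∃ x, p' x ∧ g x = y := fun ⟨⟨s, y⟩, u⟩ h => by
    obtain ⟨t, ht⟩ := IsAlgClosed.exists_pow_nat_eq u (n := 1 + q ^ 3) (by omega)
    have h0 : p' fun a => ![s, 1, y] a * t := by
      refine ⟨?_, ?_⟩ <;> rw [bv_mul_DV5, bv_one_DV5]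
      · rw [add_comm s, add_comm 1 q]
        exact mul_eq_zero_of_right _ h.1
      · rw [ht, mul_comm]
        exact h.2
    have h1 := hw _ h0
    refine ⟨_, h0, Prod.ext (Prod.ext ?_ ?_) ((congrArg (· ^ _) (one_mul t)).trans ht)⟩
    · change s * t * _ = s
      change 1 * t * _ = 1 at h1
      linear_combination s * h1
    · change y * t * _ = y
      change 1 * t * _ = 1 at h1
      linear_combination y * h1
  refine (TT.of_range (π.comp (Cox _ q (q ^ 2) 1).val) (pb (p := p) hg hm) (fun b hb => ?_)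
    ((injective_iff_map_eq_zero _).2 fun a ha => rg_ext fun y => ?_) (fun b => ?_) (fun b' => ?_)
    hT).cast 0 0
  · obtain ⟨f, hf⟩ := Ideal.Quotient.mk_surjective b.1
    obtain ⟨n, hn⟩ : IsNilpotent b.1 := nil_of_pts (k := k) Ω _ fun φ => by
      have e : ∀ f, φ (Ideal.Quotient.mk _ f) =
          MvPolynomial.aeval (fun a => φ (Ideal.Quotient.mk _ (.X a))) f := fun f =>
        DFunLike.congr_fun (MvPolynomial.aeval_unique (φ.comp (Ideal.Quotient.mkₐ k _))) f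
      rw [← hf, e]
      refine (hπ f ⟨_, (hp' _).2 fun j hj => ?_⟩).symm.trans ?_
      · have hj' : eqn (hm_DV5 k) q (q ^ 2) 1 j ∈ rel (hm_DV5 k) q (q ^ 2) 1 :=
          Ideal.subset_span ⟨j, hj, rfl⟩
        rw [← e, Ideal.Quotient.eq_zero_iff_mem.2 hj', map_zero]
      · rw [hf]
        exact congrArg (fun t : Rg k p' => t.1 _) hb
    exact ⟨n, Subtype.ext hn⟩
  · obtain ⟨x, h, e⟩ := hs y.1 y.2
    have e1 : y = ⟨g x, hm x h⟩ := Subtype.ext e.symm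
    rw [e1]
    exact congrArg (fun t : Rg k p' => t.1 ⟨x, h⟩) ha
  · refine (Algebra.adjoin_le ?_ : _ ≤ (pb (k := k) (p := p) hg hm).range.comap π) b.2
    rintro _ ⟨f, hf, rfl⟩
    have hF : Pm k fun y : (Ω × Ω) × Ω => y.2 * MvPolynomial.aeval ![y.1.1, 1, y.1.2] f := by
      refine Pm.mul (by fun_prop) ((pm_aeval_DV5 f).comp (Pm.pi fun a => ?_))
      fin_cases a
      exacts [Pm.id.fst.fst, Pm.const (1 : Ω), Pm.id.fst.snd]
    refine ⟨rg p hF, rg_ext fun x => Eq.trans ?_ (hπ f x).symm⟩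
    rw [hx x.1 x.2, hom_DV5 hf, eq1]
    rfl
  · have key : ∀ f : MvPolynomial (Fin 3) k, f.IsHomogeneous (1 + q ^ 3) → ∀ c : Rg k p',
        (∀ x, MvPolynomial.aeval x.1 f = c.1 x) →
        c ∈ (π.comp (Cox (hm_DV5 k) q (q ^ 2) 1).val).range := fun f hf c hc =>
      ⟨⟨Ideal.Quotient.mk _ f, Algebra.subset_adjoin ⟨f, by rw [eq1]; exact hf, rfl⟩⟩,
        rg_ext fun x => (hπ f x).trans (hc x)⟩
    have hX := fun i : Fin 3 => MvPolynomial.isHomogeneous_X k i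
    have : (⊤ : Subalgebra k (Rg k p)) ≤ (π.comp (Cox (hm_DV5 k) q (q ^ 2) 1).val).range.comap
        (pb hg hm) := by
      rw [← rg_adjoin]
      refine Algebra.adjoin_le ?_
      rintro _ ⟨(⟨⟩ | ⟨⟩) | ⟨⟩, rfl⟩
      · exact key _ ((hX 0).mul hW) _ fun x => by rw [map_mul, MvPolynomial.aeval_X]; rfl
      · exact key _ ((hX 2).mul hW) _ fun x => by rw [map_mul, MvPolynomial.aeval_X]; rfl
      · exact key _ (MvPolynomial.isHomogeneous_X_pow 1 _) _ fun x => by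
          rw [map_pow, MvPolynomial.aeval_X]; rfl
    obtain ⟨b, hb⟩ := this (Algebra.mem_top : b' ∈ _)
    exact ⟨b, hb.symm⟩

theorem gs_curve {q : ℕ} (hk : Fintype.card k = q ^ 2) :
    (GS k K Ω).good fun y : (Ω × Ω) × Ω => y.1.1 ^ q + y.1.1 + y.1.2 ^ (q + 1) = 0 ∧
      (y.1.1 + y.1.1 ^ q ^ 3 + y.1.2 ^ (1 + q ^ 3)) * y.2 = 1 := gs_curve' (r := 1) hk

end Pool.Agent.CXD
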