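import Pool.Agent.P.MP_2ce3e7_ag.DV0
import Pool.Agent.P.MP_2ce3e7_ag.DL1
import Pool.Agent.P.MP_2ce3e7_ag.CWN2

/-! The homogeneous coordinate ring. -/

set_option linter.unusedSectionVars false
set_option linter.unusedVariables false

open Function LaurentPolynomial
open scoped TensorProduct

noncomputable section

namespace Pool.Agent.CXD

variable {k Ω σ : Type} [Field k] [Fintype k] [Field Ω] [Algebra k Ω] [IsAlgClosed Ω] [Fintype σ]
  {V : Set (σ → Ω)}

theorem exists_rgE (V : Set (σ → Ω)) :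
    ∃ e : (MvPolynomial σ k ⧸ MvPolynomial.vanishingIdeal k V) ≃ₐ[k] Rg k fun z => z ∈ V,
      ∀ i (z : {z // z ∈ V}), (e (crd _ i)).1 z = z.1 i := by
  let φ : MvPolynomial σ k →ₐ[k] Rg k fun z => z ∈ V :=
    MvPolynomial.aeval fun i => rg _ (Pm.apply (k := k) (δ := fun _ : σ => Ω) i)
  have h1 : ∀ P (x : {z // z ∈ V}), (φ P).1 x = MvPolynomial.aeval x.1 P := fun P x => by
    have e : (evx x).comp φ = MvPolynomial.aeval x.1 :=
      MvPolynomial.algHom_ext fun i => by
        rw [AlgHom.comp_apply, MvPolynomial.aeval_X, MvPolynomial.aeval_X]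
        rfl
    exact DFunLike.congr_fun e P
  have h2 : Surjective φ := by
    rw [← AlgHom.range_eq_top, eq_top_iff, ← rg_adjoin, Algebra.adjoin_le_iff]
    rintro _ ⟨j, rfl⟩
    exact ⟨MvPolynomial.X j.1, (MvPolynomial.aeval_X _ _).trans (rg_ext fun x => rfl)⟩
  have h3 : MvPolynomial.vanishingIdeal k V = RingHom.ker φ := by
    ext P
    rw [MvPolynomial.mem_vanishingIdeal_iff, RingHom.mem_ker]
    exact ⟨fun h => rg_ext fun x => (h1 P x).trans (h x.1 x.2),
      fun h x hx => (h1 P ⟨x, hx⟩).symm.trans (by rw [h]; rfl)⟩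
  refine ⟨(Ideal.quotientEquivAlgOfEq k h3).trans (Ideal.quotientKerAlgEquivOfSurjective h2),
    fun i z => ?_⟩
  exact (h1 (MvPolynomial.X i) z).trans (MvPolynomial.aeval_X _ i)

theorem exists_std (h : ∀ z ∈ V, ∀ t : Ω, t • z ∈ V) :
    ∃ θ, Std (k := k) (hom (MvPolynomial.vanishingIdeal k V))
      (crd (MvPolynomial.vanishingIdeal k V)) θ := by
  obtain ⟨e, he⟩ := exists_rgE (k := k) V
  obtain ⟨θ, hθ⟩ := exists_theta (k := k) (p := fun z => z ∈ V)
    (m := fun y : (σ → Ω) × Ω => y.2 • y.1) (by fun_prop) fun x t hx => h x hx t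
  refine ⟨(AddMonoidAlgebra.mapAlgHom ℤ e.symm.toAlgHom).comp (θ.comp e.toAlgHom),
    hom_std _ _ fun i => ?_⟩
  have h1 := hθ (e (crd _ i)) 1 fun x t => by
    rw [pow_one]
    exact (he i _).trans (congrArg (fun a => t * a) (he i x).symm)
  have h2 := map_C_mul_T e.symm.toAlgHom.toRingHom (e (crd _ i)) 1
  change AddMonoidAlgebra.mapRingHom ℤ e.symm.toAlgHom.toRingHom (θ (e (crd _ i))) = _
  rw [h1]
  exact h2.trans (congrArg (fun a => C a * T 1) (e.symm_apply_apply _))

theorem tq_of_gq {K : Type} [CommRing K] [Algebra k K] [IsNoetherianRing K]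
    (c : Cz k fun z => z ∈ V) (h : (GQ k K Ω).rel (fun z => z ∈ V) fun z => ∀ i, z i = 0) :
    TQ k K (MvPolynomial σ k ⧸ MvPolynomial.vanishingIdeal k V)
      (Set.range (crd (MvPolynomial.vanishingIdeal k V))) := by
  obtain ⟨e, he⟩ := exists_rgE (k := k) V
  have hs : ∀ i : σ, Pm k fun z : σ → Ω => z i := fun i =>
    Pm.apply (k := k) (δ := fun _ : σ => Ω) i
  have h1 := (gq_iff_tq (K := K) c (s := fun i z => z i) hs).1 h
  refine TP.fin e.toAlgHom (RingHom.Finite.of_surjective _ e.surjective)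
    (fun b hb => ?_) (fun P' _ hP' P _ hle => ?_) h1
  · have : b = 0 := e.injective (hb.trans (map_zero e).symm)
    rw [this]
    exact IsNilpotent.zero
  · rintro _ ⟨i, rfl⟩
    refine hle (Ideal.mem_comap.2 (hP' _ ⟨i, ?_⟩))
    exact rg_ext fun z => (he i z).symm

end Pool.Agent.CXD
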