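import Pool.Agent.P.MP_2ce3e7_ag.DW5
import Pool.Agent.P.MP_2ce3e7_ag.DA4
import Pool.Agent.P.MP_2ce3e7_ag.DB2

/-! The geometric theorem. -/

set_option linter.unusedSectionVars false
set_option linter.unusedVariables false

open Function Matrix

noncomputable section

namespace Pool.Agent.CXD

variable {k Ω : Type} [Field k] [Field Ω] [Algebra k Ω] {N d m q : ℕ} {n : Fin N → ℕ}
  {δ : Ix N d m → ℕ}
  {E : Ix N d m → Set (Fin m)}

theorem Aq.cone [IsAlgClosed Ω] {G : Gp Ω} {R : Gq Ω} (h : Aq k G R) (ha : Ax k G) (hq : Su k q)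
    (h0 : G.good fun _ : Fin 0 → Ω => True)
    (h1 : G.good fun y : (Ω × Ω) × Ω => y.1.1 ^ q + y.1.1 + y.1.2 ^ (q + 1) = 0 ∧
      (y.1.1 + y.1.1 ^ q ^ 3 + y.1.2 ^ (1 + q ^ 3)) * y.2 = 1)
    (hδ : ∀ b c, Monotone fun i => δ (b, c, i)) (hn : ∀ s, δ s ≤ n s.1) :
    R.rel (fun z => z ∈ cone Ω n q δ E) fun z => ∀ I, z I = 0 :=
  h.tw_all hq hδ (h.tw_top ha hq hδ hn (ha.of_star
    ((ha.ay_star (ha.cone_all hq h0 (ha.curve hq h0 h1))).es_pi hq N d _ lw_pcol mono_pcol _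
      lw_prow)))

end Pool.Agent.CXD
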