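import Pool.Agent.P.MP_2ce3e7_ag.DV3
import Pool.Agent.P.MP_2ce3e7_ag.DV4
import Pool.Agent.P.MP_2ce3e7_ag.DV5
import Pool.Agent.P.MP_2ce3e7_ag.DV6
import Pool.Agent.P.MP_2ce3e7_ag.DLT
import Pool.Agent.P.MP_2ce3e7_ag.DW6

/-! The theorems. -/

set_option linter.unusedSectionVars false
set_option linter.unusedVariables false

open Function
open scoped TensorProduct

noncomputable section

namespace Pool.Agent.CXD

variable (k : Type) [Field k] [Fintype k] (q r N d m : ℕ) (n : Fin N → ℕ)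
  (hk : Fintype.card k = q ^ (2 * r)) (δ : Ix N d m → ℕ) (E : Ix N d m → Set (Fin m))
  (hδ : ∀ b c, Monotone fun i => δ (b, c, i)) (hn : ∀ s, δ s ≤ n s.1)
include hk hδ hn

theorem exists_tg_c : ∃ θ, Std (k := k) (hom (cI k n q δ E)) (crd (cI k n q δ E)) θ ∧
    ∀ (K : Type) [CommRing K] [Algebra k K] [IsNoetherianRing K],
      TG k K (hom (cI k n q δ E)) (crd (cI k n q δ E)) 0 0 := by
  obtain ⟨k₀, _, _, hq⟩ := exists_su k hk
  obtain ⟨θ, hθ⟩ := exists_std (k := k) (V := cone (AlgebraicClosure k) n q δ E)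
    fun z hz t => cone_smul hz t
  exact ⟨θ, hθ, fun K _ _ _ => hθ.toCo.td hθ.deg
    (tq_of_gq (hq.cz_cone.up k)
      ((gq_aq.down k₀).cone (gs_ax.down k₀) hq gs_pt (gs_curve' hk) hδ hn)) 0 0⟩

end Pool.Agent.CXD
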