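import Pool.Agent.P.MP_2ce3e7_ag.DS0
import Pool.Agent.P.MP_2ce3e7_ag.DH0
import Pool.Agent.P.MP_2ce3e7_ag.DQ0

/-! Plücker coordinates of configurations. -/

set_option linter.unusedSectionVars false
set_option linter.unusedVariables false

open Function Matrix

noncomputable section

namespace Pool.Agent.CXD

variable {k Ω : Type} [Field k] [Field Ω] [Algebra k Ω] {N d m q : ℕ} {n : Fin N → ℕ}
  {δ : Ix N d m → ℕ}
  {E : Ix N d m → Set (Fin m)}

/-- the indices of the coordinates -/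
abbrev Sg (n : Fin N → ℕ) (δ : Ix N d m → ℕ) : Type := ∀ s : Ix N d m, Fin (δ s) → Fin (n s.1)

/-- the products of minors -/
def mnz (u : ∀ s : Ix N d m, Matrix (Fin (n s.1)) (Fin (δ s)) Ω) (I : Sg n δ) : Ω :=
  ∏ s, ((u s).submatrix (I s) id).det

/-- a matrix whose columns span the subspace with index `s` -/
def emz (z : Sg n δ → Ω) (s : Ix N d m) (I : Sg n δ) : Matrix (Fin (n s.1)) (Fin (δ s)) Ω :=
  Matrix.of fun r a => z (update I s (update (I s) a r))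

/-- the vector lies in the subspace with index `s` -/
def Ins (z : Sg n δ → Ω) (s : Ix N d m) (v : Fin (n s.1) → Ω) : Prop :=
  ∀ I, z I • v = emz z s I *ᵥ fun a => v (I s a)

theorem mem_cone {z : Sg n δ → Ω} : z ∈ cone Ω n q δ E ↔
    ∃ (t : Ω) (u : ∀ s : Ix N d m, Matrix (Fin (n s.1)) (Fin (δ s)) Ω), Cfg q E u ∧ ∀ I, z I = t * mnz u I := Iff.rfl

section
variable {α : Type} [Af Ω α]

@[fun_prop]
theorem Pm.mnz {u : α → ∀ s : Ix N d m, Matrix (Fin (n s.1)) (Fin (δ s)) Ω} (hu : Pm k u) (I : Sg n δ) :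
    Pm k fun x => mnz (u x) I := by
  unfold CXD.mnz
  fun_prop

@[fun_prop]
theorem Pm.emz {z : α → Sg n δ → Ω} (hz : Pm k z) (s : Ix N d m) (I : Sg n δ) :
    Pm k fun x => emz (z x) s I := by
  unfold CXD.emz
  fun_prop

@[fun_prop]
theorem Cz.ins {z : α → Sg n δ → Ω} (hz : Pm k z) (s : Ix N d m) {v : α → Fin (n s.1) → Ω}
    (hv : Pm k v) : Cz k fun x => Ins (z x) s (v x) := by
  unfold Ins
  fun_prop

end

variable {z : Sg n δ → Ω} {t : Ω} {u : ∀ s : Ix N d m, Matrix (Fin (n s.1)) (Fin (δ s)) Ω} {s : Ix N d m}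
  {v v' : Fin (n s.1) → Ω}

theorem dw0_det {l j : ℕ} (u : Matrix (Fin l) (Fin j) Ω) (I : Fin j → Fin l) (a : Fin j)
    (r : Fin l) :
    (u.submatrix (update I a r) id).det = (u * (u.submatrix I id).adjugate) r a := by
  have e : u.submatrix (update I a r) id = (u.submatrix I id).updateRow a (u r) := by
    ext i i'
    rw [updateRow_apply, submatrix_apply, update_apply]
    split_ifs <;> rfl
  rw [e, ← cramer_transpose_apply, cramer_eq_adjugate_mulVec, ← adjugate_transpose,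
    mulVec_transpose]
  rfl

theorem emz_eq (h : ∀ I, z I = t * mnz u I) (s : Ix N d m) (I : Sg n δ) :
    emz z s I = (t * ∏ s' ∈ Finset.univ.erase s, ((u s').submatrix (I s') id).det) •
      (u s * ((u s).submatrix (I s) id).adjugate) := by
  ext r a
  unfold emz mnz at *
  rw [of_apply, h, ← Finset.mul_prod_erase _ _ (Finset.mem_univ s), update_self, Matrix.smul_apply,
    smul_eq_mul, dw0_det, mul_assoc, mul_comm (∏ _ ∈ _, _)]
  congr 2
  exact Finset.prod_congr rfl fun s' hs => by rw [update_of_ne (Finset.ne_of_mem_erase hs)]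

theorem ins_mulVec (h : ∀ I, z I = t * mnz u I) (s : Ix N d m) (w : Fin (δ s) → Ω) :
    Ins z s (u s *ᵥ w) := by
  intro I
  have e : (fun a => (u s *ᵥ w) (I s a)) = (u s).submatrix (I s) id *ᵥ w := rfl
  rw [emz_eq h, e, smul_mulVec, mulVec_mulVec, Matrix.mul_assoc, adjugate_mul, Matrix.mul_smul,
    Matrix.mul_one, smul_mulVec, smul_smul, h, mnz,
    ← Finset.mul_prod_erase _ _ (Finset.mem_univ s), mul_assoc, mul_comm (∏ _ ∈ _, _)]

theorem Ins.exists (hv : Ins z s v) (h : ∀ I, z I = t * mnz u I) {I : Sg n δ} (hI : z I ≠ 0) :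
    ∃ w, v = u s *ᵥ w := by
  have e := hv I
  rw [emz_eq h, smul_mulVec, ← mulVec_mulVec, ← mulVec_smul] at e
  exact ⟨(z I)⁻¹ • _, by rw [mulVec_smul, ← e, smul_smul, inv_mul_cancel₀ hI, one_smul]⟩

theorem ins_zero : Ins z s 0 := fun I => by
  rw [smul_zero]
  exact (mulVec_zero _).symm

theorem Ins.add (h : Ins z s v) (h' : Ins z s v') : Ins z s (v + v') := fun I => by
  rw [smul_add, h I, h' I, ← mulVec_add]
  rfl

theorem Ins.smul (h : Ins z s v) (c : Ω) : Ins z s (c • v) := fun I => by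
  rw [smul_comm, h I, ← mulVec_smul]
  rfl

theorem ins_sum {ι : Type} (T : Finset ι) {w : ι → Fin (n s.1) → Ω} (h : ∀ i ∈ T, Ins z s (w i)) :
    Ins z s (∑ i ∈ T, w i) :=
  Finset.sum_induction _ _ (fun _ _ => Ins.add) ins_zero h

theorem emz_diag (h : z ∈ cone Ω n q δ E) (s : Ix N d m) (I : Sg n δ) :
    (emz z s I).submatrix (I s) id = z I • (1 : Matrix (Fin (δ s)) (Fin (δ s)) Ω) := by
  obtain ⟨t, u, -, h⟩ := mem_cone.1 h
  have e : ∀ A : Matrix (Fin (δ s)) (Fin (δ s)) Ω,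
      (u s * A).submatrix (I s) id = (u s).submatrix (I s) id * A := fun _ => rfl
  rw [emz_eq h, submatrix_smul, Pi.smul_apply, Pi.smul_apply, e, mul_adjugate, smul_smul, h, mnz,
    ← Finset.mul_prod_erase _ _ (Finset.mem_univ s), mul_assoc, mul_comm (∏ _ ∈ _, _)]

theorem ins_emz (h : ∀ I, z I = t * mnz u I) {b : Fin N} {s s' : Fin (d + 1) × Fin m}
    (w : Matrix (Fin (δ (b, s))) (Fin (δ (b, s'))) Ω) (hw : u (b, s') = u (b, s) * w) (I : Sg n δ) (a : Fin (δ (b, s'))) :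
    Ins z (b, s) ((emz z (b, s') I).col a) := by
  rw [emz_eq h, ← Matrix.mul_smul, ← mulVec_single_one, ← mulVec_mulVec]
  generalize (_ : Matrix (Fin (δ (b, s'))) (Fin (δ (b, s'))) Ω) *ᵥ _ = v
  rw [hw, ← mulVec_mulVec]
  exact ins_mulVec h _ _

theorem ins_col (h : z ∈ cone Ω n q δ E) (b : Fin N) (c : Fin (d + 1)) {i j : Fin m} (hij : i ≤ j)
    (I : Sg n δ) (a : Fin (δ (b, c, i))) : Ins z (b, c, j) ((emz z (b, c, i) I).col a) := by
  obtain ⟨t, u, hu, h⟩ := mem_cone.1 h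
  obtain ⟨w, hw⟩ := hu.flag b c i j hij
  exact ins_emz h w hw I a

theorem mnz_mul (u : ∀ s : Ix N d m, Matrix (Fin (n s.1)) (Fin (δ s)) Ω)
    (w : ∀ s, Matrix (Fin (δ s)) (Fin (δ s)) Ω) (I : Sg n δ) :
    mnz (fun s => u s * w s) I = (∏ s, (w s).det) * mnz u I := by
  unfold mnz
  rw [← Finset.prod_mul_distrib]
  refine Finset.prod_congr rfl fun s _ => ?_
  rw [mul_comm, ← det_mul]
  rfl

theorem dw0_sb {l a b : ℕ} {u : Matrix (Fin l) (Fin a) Ω} {v : Matrix (Fin l) (Fin b) Ω}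
    (h : Sb u v) {w : Matrix (Fin a) (Fin a) Ω} (hw : w.det ≠ 0) (w' : Matrix (Fin b) (Fin b) Ω) :
    Sb (u * w) (v * w') := by
  obtain ⟨x, rfl⟩ := h
  refine ⟨w⁻¹ * x * w', ?_⟩
  simp only [Matrix.mul_assoc]
  rw [mul_nonsing_inv_cancel_left _ _ hw.isUnit]

theorem Su.pp_mul (hq : Su k q) {l a b a' b' : ℕ} {u : Matrix (Fin l) (Fin a) Ω}
    {v : Matrix (Fin l) (Fin b) Ω} (h : Pp q u v) (w : Matrix (Fin a) (Fin a') Ω)
    (w' : Matrix (Fin b) (Fin b') Ω) : Pp q (u * w) (v * w') := by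
  have e : uᵀ * fm q v = 0 := h
  change (u * w)ᵀ * fm q (v * w') = 0
  rw [hq.fm_mul, transpose_mul, Matrix.mul_assoc, ← Matrix.mul_assoc uᵀ, e, Matrix.zero_mul,
    Matrix.mul_zero]

theorem Cfg.mul (hq : Su k q) (h : Cfg q E u) {w : ∀ s, Matrix (Fin (δ s)) (Fin (δ s)) Ω}
    (hw : ∀ s, (w s).det ≠ 0) : Cfg q E fun s => u s * w s :=
  ⟨fun b c i j hij => dw0_sb (h.flag b c i j hij) (hw _) _,
    fun b c i j hj => dw0_sb (h.step b c i j hj) (hw _) _,
    fun b i j hj => hq.pp_mul (h.last b i j hj) _ _⟩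

theorem cone_smul (h : z ∈ cone Ω n q δ E) (c : Ω) : c • z ∈ cone Ω n q δ E := by
  obtain ⟨t, u, hu, h⟩ := mem_cone.1 h
  exact mem_cone.2 ⟨c * t, u, hu, fun I => by rw [Pi.smul_apply, h, smul_eq_mul, mul_assoc]⟩

end Pool.Agent.CXD
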