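import Pool.Agent.P.MP_2ce3e7_ag.DW0

/-! The cone is closed. -/

set_option linter.unusedSectionVars false
set_option linter.unusedVariables false

open Function Matrix

noncomputable section

namespace Pool.Agent.CXD

variable {k Ω : Type} [Field k] [Field Ω] [Algebra k Ω] {N d m q : ℕ} {n : Fin N → ℕ}
  {δ : Ix N d m → ℕ}
  {E : Ix N d m → Set (Fin m)}

theorem dw1_pl {z : Sg n δ → Ω} {t : Ω} {u : ∀ s : Ix N d m, Matrix (Fin (n s.1)) (Fin (δ s)) Ω}
    (h : ∀ I, z I = t * mnz u I) (I J : Sg n δ) :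
    z I * mnz (fun s => emz z s I) J = z I ^ (∑ s, δ s) * z J := by
  have e : ∀ s, ((u s).submatrix (I s) id).det * ((emz z s I).submatrix (J s) id).det =
      z I ^ δ s * ((u s).submatrix (J s) id).det := fun s => by
    have e1 : ∀ A : Matrix (Fin (δ s)) (Fin (δ s)) Ω,
        (u s * A).submatrix (J s) id = (u s).submatrix (J s) id * A := fun _ => rfl
    rw [emz_eq h, ← Matrix.mul_smul, e1, mul_comm, ← det_mul, Matrix.mul_assoc, Matrix.smul_mul,
      adjugate_mul, smul_smul, det_mul, det_smul, det_one, Fintype.card_fin, mul_one, mul_comm, h I,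
      mnz, ← Finset.mul_prod_erase _ _ (Finset.mem_univ s), mul_assoc t, mul_comm (∏ _ ∈ _, _)]
  have e2 := Finset.prod_congr (s₁ := Finset.univ) rfl fun s _ => e s
  rw [Finset.prod_mul_distrib, Finset.prod_mul_distrib, Finset.prod_pow_eq_pow_sum] at e2
  have e3 := h I
  have e4 := h J
  unfold mnz at *
  linear_combination t * e2 + (∏ s, ((emz z s I).submatrix (J s) id).det) * e3 -
    z I ^ (∑ s, δ s) * e4

theorem dw1_sb {z : Sg n δ → Ω} {I : Sg n δ} (hI : z I ≠ 0) {s : Ix N d m} {j : ℕ}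
    {v : Matrix (Fin (n s.1)) (Fin j) Ω} (h : ∀ a, Ins z s (v.col a)) : Sb (emz z s I) v := by
  refine ⟨(z I)⁻¹ • v.submatrix (I s) id, ?_⟩
  ext r a
  have e : z I * v r a = (emz z s I * v.submatrix (I s) id) r a := congrFun (h a I) r
  rw [Matrix.mul_smul, Matrix.smul_apply, ← e, smul_eq_mul, inv_mul_cancel_left₀ hI]

theorem Su.cz_cone (hq : Su k q) : Cz k fun z => z ∈ cone Ω n q δ E := by
  refine Cz.congr (p := fun z : Sg n δ → Ω => ∀ I,
    (∀ J, z I * mnz (fun s => emz z s I) J = z I ^ (∑ s, δ s) * z J) ∧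
    (∀ b c i j, i ≤ j → ∀ a, Ins z (b, c, j) ((emz z (b, c, i) I).col a)) ∧
    (∀ b (c : Fin d) i, ∀ j ∈ E (b, c.castSucc, i), ∀ a,
      Ins z (b, c.castSucc, i) ((emz z (b, c.succ, j) I).col a)) ∧
    ∀ b i, ∀ j ∈ E (b, Fin.last d, i),
      (emz z (b, Fin.last d, i) I)ᵀ * fm q (emz z (b, 0, j) I) = 0) (by fun_prop) fun z => ?_
  refine ⟨fun hz I => ?_, fun hz => ?_⟩
  · obtain ⟨t, u, hu, h⟩ := mem_cone.1 hz
    refine ⟨dw1_pl h I, fun b c i j hij a => ins_col hz b c hij I a, fun b c i j hj a => ?_,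
      fun b i j hj => ?_⟩
    · obtain ⟨w, hw⟩ := hu.step b c i j hj
      exact ins_emz h w hw I a
    · rw [emz_eq h, emz_eq h, ← Matrix.mul_smul, ← Matrix.mul_smul]
      exact hq.pp_mul (hu.last b i j hj) _ _
  · by_cases h0 : ∃ I, z I ≠ 0
    · obtain ⟨I, hI⟩ := h0
      obtain ⟨h1, h2, h3, h4⟩ := hz I
      refine mem_cone.2 ⟨z I / z I ^ (∑ s, δ s), fun s => emz z s I,
        ⟨fun b c i j hij => dw1_sb hI (h2 b c i j hij), fun b c i j hj => dw1_sb hI (h3 b c i j hj),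
          h4⟩, fun J => ?_⟩
      rw [div_mul_eq_mul_div, h1, mul_div_cancel_left₀ _ (pow_ne_zero _ hI)]
    · push Not at h0
      exact mem_cone.2 ⟨0, fun _ => 0, ⟨fun b c i j _ => ⟨0, (Matrix.mul_zero _).symm⟩,
        fun b c i j _ => ⟨0, (Matrix.mul_zero _).symm⟩, fun b i j _ => by
          rw [Pp, transpose_zero, Matrix.zero_mul]⟩, fun I => by rw [h0, zero_mul]⟩

end Pool.Agent.CXD
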