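import Pool.Agent.P.MP_2ce3e7_ag.DW1

/-! The tower of incomplete frames. -/

set_option linter.unusedSectionVars false
set_option linter.unusedVariables false

open Function Matrix

noncomputable section

namespace Pool.Agent.CXD

variable {k Ω : Type} [Field k] [Field Ω] [Algebra k Ω] {N d m q : ℕ} {n : Fin N → ℕ}
  {δ : Ix N d m → ℕ}
  {E : Ix N d m → Set (Fin m)}

/-- the first `τ` columns of `x`, completed by standard basis vectors -/
def cmp {n : ℕ} (τ : ℕ) (x : Matrix (Fin n) (Fin n) Ω) (J : Fin n → Fin n) : Matrix (Fin n) (Fin n) Ω :=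
  Matrix.of fun r a => if (a : ℕ) < τ then x r a else if r = J a then 1 else 0

variable (Ω) in
/-- the ambient space -/
abbrev Am (n : Fin N → ℕ) (δ : Ix N d m → ℕ) : Type :=
  (Sg n δ → Ω) × ∀ c : Fin N × Fin (d + 1), Matrix (Fin (n c.1)) (Fin (n c.1)) Ω

/-- the indices of the charts -/
abbrev Jx (n : Fin N → ℕ) (δ : Ix N d m → ℕ) : Type :=
  Sg n δ × ∀ c : Fin N × Fin (d + 1), Fin (n c.1) → Fin (n c.1)

variable (Ω) in
/-- a point of the cone with `τ c` vectors that are adapted to the flag `c` -/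
def Tw (n : Fin N → ℕ) (q : ℕ) (δ : Ix N d m → ℕ) (E : Ix N d m → Set (Fin m))
    (τ : Fin N × Fin (d + 1) → ℕ) (y : Am Ω n δ) : Prop :=
  y.1 ∈ cone Ω n q δ E ∧
    (∀ (c : Fin N × Fin (d + 1)) (a : Fin (n c.1)), τ c ≤ a → (y.2 c).col a = 0) ∧
    ∀ (s : Ix N d m) (a : Fin (n s.1)), (a : ℕ) < δ s → Ins y.1 s ((y.2 (s.1, s.2.1)).col a)

/-- the functions that define the boundary -/
def bdf (τ : Fin N × Fin (d + 1) → ℕ) (J : Jx n δ) (y : Am Ω n δ) : Ω :=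
  y.1 J.1 * ∏ c, (cmp (τ c) (y.2 c) (J.2 c)).det

variable (Ω) in
/-- one more vector -/
def Ev (n : Fin N → ℕ) (q : ℕ) (δ : Ix N d m → ℕ) (E : Ix N d m → Set (Fin m))
    (τ : Fin N × Fin (d + 1) → ℕ) (c : Fin N × Fin (d + 1))
    (y : Am Ω n δ × (Fin (n c.1) → Ω)) : Prop :=
  Tw Ω n q δ E τ y.1 ∧ ∀ i, τ c < δ (c.1, c.2, i) → Ins y.1.1 (c.1, c.2, i) y.2

/-- the linear forms given by Cramer's rule -/
def crm (τ : Fin N × Fin (d + 1) → ℕ) (c : Fin N × Fin (d + 1)) (a : Fin (n c.1)) (J : Jx n δ)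
    (y : Am Ω n δ) (r : Fin (n c.1)) : Ω :=
  (y.1 J.1 * ∏ c' ∈ Finset.univ.erase c, (cmp (τ c') (y.2 c') (J.2 c')).det) *
    (cmp (τ c) (y.2 c) (J.2 c)).adjugate a r

variable {τ : Fin N × Fin (d + 1) → ℕ} {c : Fin N × Fin (d + 1)}

@[fun_prop]
theorem Pm.cmp {α : Type} [Af Ω α] {n : ℕ} (τ : ℕ) {x : α → Matrix (Fin n) (Fin n) Ω} (hx : Pm k x)
    (J : Fin n → Fin n) : Pm k fun y => cmp τ (x y) J := by
  unfold CXD.cmp
  fun_prop

theorem pm_bdf (J : Jx n δ) : Pm k (bdf (Ω := Ω) τ J) := by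
  unfold bdf
  fun_prop

theorem pm_crm (a : Fin (n c.1)) (J : Jx n δ) : Pm k (crm (Ω := Ω) τ c a J) := by
  unfold crm
  fun_prop

theorem Su.cz_tw (hq : Su k q) : Cz k (Tw Ω n q δ E τ) := by
  have := hq.cz_cone (Ω := Ω) (n := n) (δ := δ) (E := E)
  unfold Tw
  refine Cz.and (this.comp (by fun_prop)) (by fun_prop)

theorem Su.cz_ev (hq : Su k q) : Cz k (Ev Ω n q δ E τ c) := by
  have := hq.cz_tw (Ω := Ω) (n := n) (δ := δ) (E := E) (τ := τ)
  unfold Ev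
  fun_prop

theorem crm_dot (a : Fin (n c.1)) (J : Jx n δ) (y : Am Ω n δ) (v : Fin (n c.1) → Ω) :
    crm τ c a J y ⬝ᵥ v =
      (y.1 J.1 * ∏ c' ∈ Finset.univ.erase c, (cmp (τ c') (y.2 c') (J.2 c')).det) *
        ((cmp (τ c) (y.2 c) (J.2 c)).updateCol a v).det := by
  rw [← cramer_apply, cramer_eq_adjugate_mulVec]
  simp only [crm, dotProduct, mulVec, Finset.mul_sum, mul_assoc]

theorem ev_sec (hδ : ∀ b c, Monotone fun i => δ (b, c, i)) (hc : τ c < n c.1) (J : Jx n δ) :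
    ∃ (w : Am Ω n δ → Fin (τ c + 1) → Fin (n c.1) → Ω) (I : Fin (τ c + 1) → Fin (n c.1)),
      Pm k w ∧
      (∀ x (y : Fin (τ c + 1) → Ω), Tw Ω n q δ E τ x → Ev Ω n q δ E τ c (x, ∑ i, y i • w x i)) ∧
        ∀ x i i', Tw Ω n q δ E τ x → w x i (I i') = if i = i' then bdf τ J x else 0 := by
  classical
  by_cases hS : ∃ i, τ c < δ (c.1, c.2, i)
  · obtain ⟨i₀, h0, hm⟩ := wellFounded_lt.has_min {i | τ c < δ (c.1, c.2, i)} hS
    have h1 : τ c + 1 ≤ δ (c.1, c.2, i₀) := h0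
    refine ⟨fun x i => (∏ c', (cmp (τ c') (x.2 c') (J.2 c')).det) •
      (emz x.1 (c.1, c.2, i₀) J.1).col (Fin.castLE h1 i),
      fun i => J.1 (c.1, c.2, i₀) (Fin.castLE h1 i), by fun_prop, fun x y hx => ⟨hx, fun i hi => ?_⟩,
      fun x i i' hx => ?_⟩
    · exact ins_sum (z := x.1) (s := (c.1, c.2, i)) Finset.univ fun j _ =>
        ((ins_col hx.1 c.1 c.2 (not_lt.1 (hm i hi)) J.1 (Fin.castLE h1 j)).smul _).smul (y j)
    · have e := congrFun (congrFun (emz_diag hx.1 (c.1, c.2, i₀) J.1) (Fin.castLE h1 i'))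
        (Fin.castLE h1 i)
      rw [submatrix_apply, id, Matrix.smul_apply, one_apply, smul_eq_mul] at e
      change _ * emz x.1 (c.1, c.2, i₀) J.1 _ _ = _
      rw [e, bdf]
      by_cases h : i = i'
      · rw [if_pos h, if_pos (by rw [h]), mul_one, mul_comm]
      · rw [if_neg h, if_neg fun h' => h (Fin.castLE_injective _ h').symm, mul_zero, mul_zero]
  · have := pm_bdf (k := k) (Ω := Ω) (τ := τ) J
    refine ⟨fun x i r => if r = Fin.castLE hc i then bdf τ J x else 0, Fin.castLE hc, by fun_prop,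
      fun x y hx => ⟨hx, fun i hi => (hS ⟨i, hi⟩).elim⟩, fun x i i' hx => ?_⟩
    exact if_congr ⟨fun h' => (Fin.castLE_injective _ h').symm, fun h => by rw [h]⟩ rfl rfl

end Pool.Agent.CXD
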