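import Pool.Agent.P.MP_2ce3e7_ag.DW2

/-! One step in the tower. -/

set_option linter.unusedSectionVars false
set_option linter.unusedVariables false

open Function Matrix

noncomputable section

namespace Pool.Agent.CXD

variable {k Ω : Type} [Field k] [Field Ω] [Algebra k Ω] {N d m q : ℕ} {n : Fin N → ℕ}
  {δ : Ix N d m → ℕ}
  {E : Ix N d m → Set (Fin m)}
variable {τ : Fin N × Fin (d + 1) → ℕ} {c : Fin N × Fin (d + 1)}

theorem dw3_cramer {n : ℕ} (B : Matrix (Fin n) (Fin n) Ω) (l : Fin n → Ω) (a : Fin n) :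
    (B.updateCol a (B *ᵥ l)).det = B.det * l a := by
  rw [← cramer_apply, cramer_eq_adjugate_mulVec, mulVec_mulVec, adjugate_mul, smul_mulVec,
    one_mulVec]
  rfl

theorem exists_coef {n j : ℕ} (hj : j < n) (x : Matrix (Fin n) (Fin n) Ω) (v : Fin n → Ω)
    (h : ∀ J, ((cmp j x J).updateCol ⟨j, hj⟩ v).det = 0) {J₀ : Fin n → Fin n}
    (h0 : (cmp j x J₀).det ≠ 0) :
    ∃ l : Fin n → Ω, (∀ a : Fin n, j ≤ a → l a = 0) ∧ ∀ J, v = cmp j x J *ᵥ l := by
  have hv : v = cmp j x J₀ *ᵥ ((cmp j x J₀)⁻¹ *ᵥ v) := by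
    rw [mulVec_mulVec, mul_nonsing_inv _ h0.isUnit, one_mulVec]
  generalize (cmp j x J₀)⁻¹ *ᵥ v = l at hv
  have h1 : ∀ a : Fin n, j ≤ a → l a = 0 := fun a ha => by
    have e : (cmp j x (J₀ ∘ Equiv.swap ⟨j, hj⟩ a)).updateCol ⟨j, hj⟩ v =
        ((cmp j x J₀).updateCol a v).submatrix id (Equiv.swap ⟨j, hj⟩ a) := by
      ext r b
      rw [submatrix_apply, updateCol_apply, updateCol_apply, id]
      by_cases hb : b = ⟨j, hj⟩
      · rw [if_pos hb, hb, Equiv.swap_apply_left, if_pos rfl]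
      · rw [if_neg hb, if_neg fun e => hb (by
          rw [← Equiv.eq_symm_apply, Equiv.symm_swap, Equiv.swap_apply_right] at e
          exact e)]
        by_cases hb' : b = a
        · subst hb'
          simp only [cmp, of_apply, Function.comp_apply, Equiv.swap_apply_right]
          rw [if_neg (not_lt.2 ha), if_neg (lt_irrefl _)]
        · simp only [cmp, of_apply, Function.comp_apply, Equiv.swap_apply_of_ne_of_ne hb hb']
    have e2 := h (J₀ ∘ Equiv.swap ⟨j, hj⟩ a)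
    rw [e, det_permute', mul_eq_zero, hv, dw3_cramer, mul_eq_zero] at e2
    rcases e2 with e2 | e2 | e2
    · rcases Int.units_eq_one_or (Equiv.Perm.sign (Equiv.swap (⟨j, hj⟩ : Fin n) a)) with e3 | e3 <;>
        simp [e3] at e2
    · exact (h0 e2).elim
    · exact e2
  refine ⟨l, h1, fun J => hv.trans (funext fun r => ?_)⟩
  change ∑ a, cmp j x J₀ r a * l a = ∑ a, cmp j x J r a * l a
  refine Finset.sum_congr rfl fun a _ => ?_
  by_cases ha : (a : ℕ) < j
  · simp only [cmp, of_apply, if_pos ha]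
  · rw [h1 a (not_lt.1 ha), mul_zero, mul_zero]

theorem dw3_dot (a : Fin (n c.1)) (J : Jx n δ) (y : Am Ω n δ) (l : Fin (n c.1) → Ω) :
    crm τ c a J y ⬝ᵥ (cmp (τ c) (y.2 c) (J.2 c) *ᵥ l) = bdf τ J y * l a := by
  rw [crm_dot, dw3_cramer, bdf, ← Finset.mul_prod_erase _ _ (Finset.mem_univ c)]
  ring

theorem Su.vs_tw (hq : Su k q) (hδ : ∀ b c, Monotone fun i => δ (b, c, i)) (hc : τ c < n c.1) :
    Vs k (Tw Ω n q δ E τ) (Ev Ω n q δ E τ c) (τ c) (bdf τ) (crm τ c ⟨τ c, hc⟩)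
      (fun i => crm τ c (Fin.castLE hc.le i)) fun y r i => y.2 c r (Fin.castLE hc.le i) := by
  refine ⟨hq.cz_tw, hq.cz_ev, pm_bdf, pm_crm _, fun i => pm_crm _, ?_, fun y hy => hy.1,
    fun x v t hx => ⟨hx.1, fun i hi => (hx.2 i hi).smul t⟩, ev_sec hδ hc, ?_⟩
  · exact Pm.pi fun r => Pm.pi fun i => (Pm.id.snd.eval c).entry r _
  intro x v hx hm J₀ h0
  have h1 := h0
  rw [bdf, ← Finset.mul_prod_erase _ _ (Finset.mem_univ c)] at h1
  obtain ⟨l, hl, hv⟩ := exists_coef hc (x.2 c) v (J₀ := J₀.2 c) (fun J => by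
    have e := hm (J₀.1, update J₀.2 c J)
    rw [crm_dot] at e
    simp only [update_self] at e
    rw [Finset.prod_congr rfl fun c' hc' => by rw [update_of_ne (Finset.ne_of_mem_erase hc')]] at e
    refine (mul_eq_zero.1 e).resolve_left fun e' => h1 ?_
    linear_combination (cmp (τ c) (x.2 c) (J₀.2 c)).det * e')
    (left_ne_zero_of_mul (right_ne_zero_of_mul h1))
  have h2 : ∀ a J, crm τ c a J x ⬝ᵥ v = bdf τ J x * l a := fun a J => by
    rw [← dw3_dot, ← hv]
  refine ⟨fun i J J' => ?_, fun J r => ?_⟩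
  · rw [h2, h2]
    ring
  · have e : ∑ i : Fin (τ c), x.2 c r (Fin.castLE hc.le i) * l (Fin.castLE hc.le i) = v r := by
      rw [hv (J.2 c)]
      refine Fintype.sum_of_injective (Fin.castLE hc.le) (Fin.castLE_injective _) _ _
        (fun a ha => ?_) fun i => ?_
      · rw [hl a (not_lt.1 fun e => ha ⟨⟨a, e⟩, rfl⟩), mul_zero]
      · simp only [cmp, of_apply, Fin.val_castLE, if_pos i.2]
    rw [← e, Finset.mul_sum]
    refine Finset.sum_congr rfl fun i _ => ?_
    rw [h2]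
    ring

/-- replace one column -/
def dw3_put (c : Fin N × Fin (d + 1)) (j : Fin (n c.1)) (y : Am Ω n δ) (v : Fin (n c.1) → Ω) :
    Am Ω n δ := (y.1, update y.2 c ((y.2 c).updateCol j v))

theorem dw3_pm {α : Type} [Af Ω α] (j : Fin (n c.1)) {y : α → Am Ω n δ} {v : α → Fin (n c.1) → Ω}
    (hy : Pm k y) (hv : Pm k v) : Pm k fun x => dw3_put c j (y x) (v x) := by
  refine hy.fst.mk (Pm.pi fun c' => ?_)
  by_cases e : c' = c
  · subst e
    exact ((hy.snd.eval c').updateCol j hv).congr fun x => update_self ..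
  · exact (hy.snd.eval c').congr fun x => update_of_ne e ..

theorem dw3_col {j : Fin (n c.1)} {y : Am Ω n δ} {v : Fin (n c.1) → Ω}
    (P : ∀ c' : Fin N × Fin (d + 1), Fin (n c'.1) → (Fin (n c'.1) → Ω) → Prop) (h1 : P c j v)
    (h2 : ∀ c' (a : Fin (n c'.1)), (c' = c → (a : ℕ) ≠ j) → P c' a ((y.2 c').col a))
    (c' : Fin N × Fin (d + 1))
    (a : Fin (n c'.1)) : P c' a (((dw3_put c j y v).2 c').col a) := by
  unfold dw3_put
  by_cases e : c' = c
  · subst e
    simp only [update_self]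
    by_cases e' : a = j
    · subst e'
      have e2 : ((y.2 c').updateCol a v).col a = v := funext fun r => updateCol_self
      rwa [e2]
    · have e2 : ((y.2 c').updateCol j v).col a = (y.2 c').col a := funext fun r => updateCol_ne e'
      rw [e2]
      exact h2 c' a fun _ e3 => e' (Fin.ext e3)
  · simp only [update_of_ne e]
    exact h2 c' a fun e' => (e e').elim

theorem dw3_self (j : Fin (n c.1)) (y : Am Ω n δ) (v : Fin (n c.1) → Ω) :
    ((dw3_put c j y v).2 c).col j = v := by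
  simp only [dw3_put, update_self]
  exact funext fun r => updateCol_self

theorem dw3_back (j : Fin (n c.1)) (y : Am Ω n δ) (v : Fin (n c.1) → Ω) :
    dw3_put c j (dw3_put c j y v) ((y.2 c).col j) = y := by
  simp only [dw3_put, update_self, update_idem, updateCol_idem]
  have e : (y.2 c).updateCol j ((y.2 c).col j) = y.2 c := updateCol_eq_self _ _
  rw [e, update_eq_self]

theorem Aq.tw_step {G : Gp Ω} {R : Gq Ω} (h : Aq k G R) (hq : Su k q)
    (hδ : ∀ b c, Monotone fun i => δ (b, c, i)) (hc : τ c < n c.1)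
    (h1 : R.rel (Tw Ω n q δ E (update τ c (τ c + 1)))
      fun y => ∀ J, bdf (update τ c (τ c + 1)) J y = 0) :
    R.rel (Tw Ω n q δ E τ) fun y => ∀ J, bdf τ J y = 0 := by
  refine h.vs (hq.vs_tw hδ hc) (h.iso
    (fun y => (dw3_put c ⟨τ c, hc⟩ y 0, (y.2 c).col ⟨τ c, hc⟩))
    (fun x => dw3_put c ⟨τ c, hc⟩ x.1 x.2)
    ((dw3_pm _ Pm.id (Pm.const _)).mk ((Pm.id.snd.eval c).col _))
    (dw3_pm _ Pm.id.fst Pm.id.snd) ?_ ?_ ?_ ?_ ?_ h1)
  · rintro z ⟨h2, h3, h4⟩
    refine ⟨⟨h2, dw3_col (fun c' a w => τ c' ≤ a → w = 0) (fun _ => rfl)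
      fun c' a e ha => h3 c' a ?_, fun s => ?_⟩, fun i hi => h4 (c.1, c.2, i) ⟨τ c, hc⟩ hi⟩
    · by_cases e' : c' = c
      · subst e'
        rw [update_self]
        exact lt_of_le_of_ne ha (e rfl).symm
      · rwa [update_of_ne e']
    · exact fun a => dw3_col (c := c) (j := ⟨τ c, hc⟩) (y := z) (v := 0)
        (fun c' a w => ∀ i, (a : ℕ) < δ (c'.1, c'.2, i) → Ins z.1 (c'.1, c'.2, i) w)
        (fun i _ => ins_zero (δ := δ) (z := z.1) (s := (c.1, c.2, i)))
        (fun c' a _ i => h4 (c'.1, c'.2, i) a) (s.1, s.2.1) a s.2.2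
  · rintro x ⟨⟨h2, h3, h4⟩, h5⟩
    refine ⟨h2, dw3_col (fun c' a w => update τ c (τ c + 1) c' ≤ a → w = 0) (fun e => ?_)
      fun c' a e ha => h3 c' a ?_, fun s => ?_⟩
    · rw [update_self] at e
      exact (Nat.not_succ_le_self _ e).elim
    · by_cases e' : c' = c
      · subst e'
        rw [update_self] at ha
        exact Nat.le_of_succ_le ha
      · rwa [update_of_ne e'] at ha
    · exact fun a => dw3_col (y := x.1)
        (fun c' a w => ∀ i, (a : ℕ) < δ (c'.1, c'.2, i) → Ins x.1.1 (c'.1, c'.2, i) w)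
        h5 (fun c' a _ i => h4 (c'.1, c'.2, i) a) (s.1, s.2.1) a s.2.2
  · exact fun z _ => dw3_back _ z 0
  · rintro x ⟨⟨h2, h3, h4⟩, h5⟩
    refine Prod.ext ?_ (dw3_self _ _ _)
    have e := dw3_back ⟨τ c, hc⟩ x.1 x.2
    rwa [h3 c ⟨τ c, hc⟩ le_rfl] at e
  · intro z _ h2 J
    have e := h2 J
    have e2 : (cmp (τ c) ((z.2 c).updateCol ⟨τ c, hc⟩ 0) (J.2 c)).updateCol ⟨τ c, hc⟩
        ((z.2 c).col ⟨τ c, hc⟩) = cmp (τ c + 1) (z.2 c) (J.2 c) := by
      ext r a
      simp only [updateCol_apply, cmp, of_apply]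
      by_cases ha : a = ⟨τ c, hc⟩
      · rw [if_pos ha, ha, if_pos (Nat.lt_succ_self _)]
        rfl
      · rw [if_neg ha, if_neg ha]
        have : (a : ℕ) ≠ τ c := fun e => ha (Fin.ext e)
        exact if_congr (by omega) rfl rfl
    rw [bdf, ← Finset.mul_prod_erase _ _ (Finset.mem_univ c), update_self,
      Finset.prod_congr rfl fun c' hc' => by rw [update_of_ne (Finset.ne_of_mem_erase hc')]] at e
    rw [crm_dot]
    simp only [dw3_put, update_self]
    rw [e2, Finset.prod_congr rfl fun c' hc' => by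
      rw [update_of_ne (Finset.ne_of_mem_erase hc')]]
    linear_combination e

end Pool.Agent.CXD
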