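import Pool.Agent.P.MP_2ce3e7_ag.DW0
import Pool.Agent.P.MP_2ce3e7_ag.DF2

/-! Frames and configurations. -/

set_option linter.unusedSectionVars false
set_option linter.unusedVariables false

open Function Matrix

noncomputable section

namespace Pool.Agent.CXD

variable {k Ω : Type} [Field k] [Field Ω] [Algebra k Ω] {N d m q : ℕ} {n : Fin N → ℕ}
  {δ : Ix N d m → ℕ}
  {E : Ix N d m → Set (Fin m)}

open Classical in
/-- the pattern of a step -/
def pcol (n : Fin N → ℕ) (δ : Ix N d m → ℕ) (E : Ix N d m → Set (Fin m)) (b : Fin N) (c : Fin d)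
    (a : Fin (n b)) : Finset (Fin (n b)) :=
  Finset.univ.filter fun r => ∀ i, ∀ j ∈ E (b, c.castSucc, i), (a : ℕ) < δ (b, c.succ, j) →
    (r : ℕ) < δ (b, c.castSucc, i)

open Classical in
/-- the pattern of the last step -/
def prow (n : Fin N → ℕ) (δ : Ix N d m → ℕ) (E : Ix N d m → Set (Fin m)) (b : Fin N)
    (a : Fin (n b)) : Finset (Fin (n b)) :=
  Finset.univ.filter fun r => ∃ i, ∃ j ∈ E (b, Fin.last d, i), (a : ℕ) < δ (b, Fin.last d, i) ∧
    (r : ℕ) < δ (b, 0, j)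

/-- the first columns -/
def fst' (hn : ∀ s, δ s ≤ n s.1)
    (x : ∀ c : Fin N × Fin (d + 1), Matrix (Fin (n c.1)) (Fin (n c.1)) Ω) (s : Ix N d m) :
    Matrix (Fin (n s.1)) (Fin (δ s)) Ω := (x (s.1, s.2.1)).submatrix id (Fin.castLE (hn s))

theorem dw4_pcol {b : Fin N} {c : Fin d} {a r : Fin (n b)} : r ∈ pcol n δ E b c a ↔
    ∀ i, ∀ j ∈ E (b, c.castSucc, i), (a : ℕ) < δ (b, c.succ, j) →
      (r : ℕ) < δ (b, c.castSucc, i) := by
  simp only [pcol, Finset.mem_filter, Finset.mem_univ, true_and]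

theorem dw4_prow {b : Fin N} {a r : Fin (n b)} : r ∈ prow n δ E b a ↔
    ∃ i, ∃ j ∈ E (b, Fin.last d, i), (a : ℕ) < δ (b, Fin.last d, i) ∧ (r : ℕ) < δ (b, 0, j) := by
  simp only [prow, Finset.mem_filter, Finset.mem_univ, true_and]

theorem lw_pcol (b : Fin N) (c : Fin d) : Lw (pcol n δ E b c) := fun a r r' e hr =>
  dw4_pcol.2 fun i j hj ha => lt_of_le_of_lt (Fin.le_def.1 e) (dw4_pcol.1 hr i j hj ha)

theorem mono_pcol (b : Fin N) (c : Fin d) : Monotone (pcol n δ E b c) := fun a a' e r hr =>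
  dw4_pcol.2 fun i j hj ha => dw4_pcol.1 hr i j hj (lt_of_le_of_lt (Fin.le_def.1 e) ha)

theorem lw_prow (b : Fin N) : Lw (prow n δ E b) := fun a r r' e hr => by
  obtain ⟨i, j, hj, ha, h⟩ := dw4_prow.1 hr
  exact dw4_prow.2 ⟨i, j, hj, ha, lt_of_le_of_lt (Fin.le_def.1 e) h⟩

theorem dw4_mul {l s t : ℕ} (hs : s ≤ l) (g γ : Matrix (Fin l) (Fin l) Ω) (f : Fin t → Fin l)
    (h : ∀ (a : Fin t) (r : Fin l), ¬(r : ℕ) < s → γ r (f a) = 0) :
    (g * γ).submatrix id f =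
      g.submatrix id (Fin.castLE hs) * γ.submatrix (Fin.castLE hs) f := by
  ext r a
  simp only [submatrix_apply, mul_apply, id]
  symm
  refine Finset.sum_of_injOn (Fin.castLE hs) (Fin.castLE_injective hs).injOn
    (fun _ _ => Finset.mem_univ _) (fun x _ hx => ?_) fun _ _ => rfl
  rw [h a x, mul_zero]
  intro e
  exact hx ⟨⟨x, e⟩, by simp, rfl⟩

theorem dw4_sb {l s t : ℕ} (hs : s ≤ l) (ht : t ≤ l) {g g' : Matrix (Fin l) (Fin l) Ω} {u : Ω}
    (hu : g.det * u = 1) :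
    Sb (g.submatrix id (Fin.castLE hs)) (g'.submatrix id (Fin.castLE ht)) ↔
      ∀ a r : Fin l, (a : ℕ) < t → ¬(r : ℕ) < s → (g.adjugate * g') r a = 0 := by
  constructor
  · rintro ⟨w, hw⟩ a r ha hr
    have e1 : (g.adjugate * g') r a =
        (g.adjugate * g'.submatrix id (Fin.castLE ht)) r ⟨a, ha⟩ := rfl
    have e2 : g.adjugate * g.submatrix id (Fin.castLE hs) =
        (g.adjugate * g).submatrix id (Fin.castLE hs) := rfl
    rw [e1, hw, ← Matrix.mul_assoc, e2, adjugate_mul, mul_apply]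
    refine Finset.sum_eq_zero fun x _ => ?_
    have e3 : r ≠ Fin.castLE hs x := fun e => hr (by rw [e]; exact x.2)
    rw [submatrix_apply, Matrix.smul_apply, id, one_apply_ne e3, smul_zero, zero_mul]
  · intro h
    have e : g' = g * (u • (g.adjugate * g')) := by
      rw [Matrix.mul_smul, ← Matrix.mul_assoc, mul_adjugate, Matrix.smul_mul, Matrix.one_mul,
        smul_smul, mul_comm, hu, one_smul]
    refine ⟨(u • (g.adjugate * g')).submatrix (Fin.castLE hs) (Fin.castLE ht), ?_⟩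
    rw [← dw4_mul hs g _ _ fun a r hr => by
      rw [Matrix.smul_apply, h (Fin.castLE ht a) r a.2 hr, smul_zero], ← e]

theorem cfg_iff (hδ : ∀ b c, Monotone fun i => δ (b, c, i)) (hn : ∀ s, δ s ≤ n s.1)
    (y : ∀ b : Fin N, Fin (d + 1) → Matrix (Fin (n b)) (Fin (n b)) Ω × Ω)
    (hy : ∀ b c, (y b c).1.det * (y b c).2 = 1) :
    (∀ b, Es Ω q d (pcol n δ E b) (prow n δ E b) (y b)) ↔
      Cfg q E (fst' hn fun c => (y c.1 c.2).1) := by
  have e : ∀ b i j a r, ((fst' hn (fun c => (y c.1 c.2).1) (b, Fin.last d, i))ᵀ *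
      (fst' hn (fun c => (y c.1 c.2).1) (b, 0, j)).map (· ^ q)) a r =
      ((y b (Fin.last d)).1ᵀ * fm q (y b 0).1) (Fin.castLE (hn (b, Fin.last d, i)) a)
        (Fin.castLE (hn (b, 0, j)) r) := fun _ _ _ _ _ => rfl
  constructor
  · intro h
    refine ⟨fun b c i j hij => ?_, fun b c i j hj => ?_, fun b i j hj => ?_⟩
    · refine (dw4_sb (hn (b, c, j)) (hn (b, c, i)) (hy b c)).2 fun a r ha hr => ?_
      have e3 : r ≠ a := fun e => hr (by rw [e]; exact lt_of_lt_of_le ha (hδ b c hij))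
      rw [adjugate_mul, Matrix.smul_apply, one_apply_ne e3, smul_zero]
    · exact (dw4_sb (hn (b, c.castSucc, i)) (hn (b, c.succ, j)) (hy b c.castSucc)).2
        fun a r ha hr => (h b).1.2 c a r fun hm => hr (dw4_pcol.1 hm i j hj ha)
    · ext a r
      exact (e b i j a r).trans ((h b).2 _ _ (dw4_prow.2 ⟨i, j, hj, a.2, r.2⟩))
  · intro h b
    refine ⟨⟨hy b, fun c a r hr => ?_⟩, fun a r hr => ?_⟩
    · by_contra hne
      refine hr (dw4_pcol.2 fun i j hj ha => ?_)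
      by_contra hr'
      exact hne ((dw4_sb (hn (b, c.castSucc, i)) (hn (b, c.succ, j)) (hy b c.castSucc)).1
        (h.step b c i j hj) a r ha hr')
    · obtain ⟨i, j, hj, ha, hr'⟩ := dw4_prow.1 hr
      exact (e b i j ⟨a, ha⟩ ⟨r, hr'⟩).symm.trans
        (congrFun (congrFun (h.last b i j hj) ⟨a, ha⟩) ⟨r, hr'⟩)

end Pool.Agent.CXD
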