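import Pool.Agent.P.MP_2ce3e7_ag.DW3
import Pool.Agent.P.MP_2ce3e7_ag.DW4

/-! The top and the bottom of the tower. -/

set_option linter.unusedSectionVars false
set_option linter.unusedVariables false

open Function Matrix

noncomputable section

namespace Pool.Agent.CXD

variable {k Ω : Type} [Field k] [Field Ω] [Algebra k Ω] {N d m q : ℕ} {n : Fin N → ℕ}
  {δ : Ix N d m → ℕ}
  {E : Ix N d m → Set (Fin m)}
variable {G : Gp Ω} {R : Gq Ω}

theorem dw5_col (hn : ∀ s, δ s ≤ n s.1)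
    (x : ∀ c : Fin N × Fin (d + 1), Matrix (Fin (n c.1)) (Fin (n c.1)) Ω) (s : Ix N d m)
    (a : Fin (δ s)) : (fst' hn x s).col a = (x (s.1, s.2.1)).col (Fin.castLE (hn s) a) := rfl

theorem dw5_cmp {l : ℕ} (x : Matrix (Fin l) (Fin l) Ω) (J : Fin l → Fin l) : cmp l x J = x := by
  ext r a
  exact if_pos a.2

theorem dw5_cmp0 {l : ℕ} (x : Matrix (Fin l) (Fin l) Ω) : cmp 0 x id = 1 := by
  ext r a
  simp [cmp, Matrix.one_apply]

@[fun_prop]
theorem dw5_pm {α : Type} [Af Ω α] (hn : ∀ s, δ s ≤ n s.1)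
    {x : α → ∀ c : Fin N × Fin (d + 1), Matrix (Fin (n c.1)) (Fin (n c.1)) Ω} (hx : Pm k x) :
    Pm k fun y => fst' hn (x y) :=
  Pm.pi fun s => (hx.eval (s.1, s.2.1)).submatrix _ _

theorem Su.top_cfg (hq : Su k q) (hn : ∀ s, δ s ≤ n s.1) {y : Am Ω n δ}
    (h : Tw Ω n q δ E (fun c => n c.1) y) {I : Sg n δ} (hI : y.1 I ≠ 0) (hd : ∀ c, (y.2 c).det ≠ 0) :
    Cfg q E (fst' hn y.2) ∧ ∃ t : Ω, t ≠ 0 ∧ ∀ J, y.1 J = t * mnz (fst' hn y.2) J := by
  obtain ⟨t, u, hu, hz⟩ := mem_cone.1 h.1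
  choose w hw using fun (s : Ix N d m) (a : Fin (δ s)) =>
    (h.2.2 s (Fin.castLE (hn s) a) a.2).exists hz hI
  have e : fst' hn y.2 = fun s => u s * Matrix.of fun i a => w s a i := by
    funext s
    ext r a
    exact congrFun (hw s a) r
  have hW : ∀ s, (Matrix.of fun i a => w s a i).det ≠ 0 := by
    intro s h0
    have e1 : (y.2 (s.1, s.2.1)).adjugate.submatrix (Fin.castLE (hn s)) id * fst' hn y.2 s =
        (y.2 (s.1, s.2.1)).det • (1 : Matrix (Fin (δ s)) (Fin (δ s)) Ω) := by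
      have e2 := congrArg (fun M => M.submatrix (Fin.castLE (hn s)) (Fin.castLE (hn s)))
        (adjugate_mul (y.2 (s.1, s.2.1)))
      simp only [submatrix_smul, Pi.smul_apply,
        submatrix_one _ (Fin.castLE_injective (hn s))] at e2
      exact e2
    have e3 := congrArg Matrix.det e1
    rw [e, ← Matrix.mul_assoc, det_mul, h0, mul_zero, det_smul, det_one, mul_one] at e3
    exact pow_ne_zero _ (hd _) e3.symm
  have hP := Finset.prod_ne_zero_iff.2 fun s (_ : s ∈ Finset.univ) => hW s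
  rw [e]
  refine ⟨hu.mul hq hW, t / ∏ s, (Matrix.of fun i a => w s a i).det,
    div_ne_zero (fun h0 => hI (by rw [hz, h0, zero_mul])) hP, fun J => ?_⟩
  rw [mnz_mul, hz, ← mul_assoc, div_mul_cancel₀ _ hP]

theorem Aq.tw_top (h : Aq k G R) (ha : Ax k G) (hq : Su k q)
    (hδ : ∀ b c, Monotone fun i => δ (b, c, i)) (hn : ∀ s, δ s ≤ n s.1)
    (h1 : G.good fun y : ∀ b : Fin N, Fin (d + 1) → Matrix (Fin (n b)) (Fin (n b)) Ω × Ω =>
      ∀ b, Es Ω q d (pcol n δ E b) (prow n δ E b) (y b)) :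
    R.rel (Tw Ω n q δ E fun c => n c.1) fun y => ∀ J, bdf (fun c => n c.1) J y = 0 := by
  refine h.piece (fun I (x : Am Ω n δ) => x.1 I * mnz (fst' hn x.2) I * ∏ c, (x.2 c).det)
    (fun z : (∀ b : Fin N, Fin (d + 1) → Matrix (Fin (n b)) (Fin (n b)) Ω × Ω) × Ω =>
      (fun I => z.2 * mnz (fst' hn fun c => (z.1 c.1 c.2).1) I, fun c => (z.1 c.1 c.2).1))
    (fun I (x : Am Ω n δ × Ω) => (fun b c => (x.1.2 (b, c), x.2 * x.1.1 I *
      mnz (fst' hn x.1.2) I * ∏ c' ∈ Finset.univ.erase (b, c), (x.1.2 c').det),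
      x.1.1 I ^ 2 * (∏ c, (x.1.2 c).det) * x.2))
    hq.cz_tw (fun I => by fun_prop) (by fun_prop) (fun I => by fun_prop) ?_ ?_ ?_ ?_ (ha.line h1)
  · rintro ⟨y, t⟩ hy
    refine ⟨mem_cone.2 ⟨t, _, (cfg_iff hδ hn y fun b => (hy b).1.1).1 hy, fun I => rfl⟩,
      fun c a h0 => absurd a.2 (not_lt.2 h0), fun s a h0 => ?_⟩
    have e := ins_mulVec (t := t) (u := fst' hn fun c => (y c.1 c.2).1) (fun I => rfl) s
      (Pi.single ⟨a, h0⟩ 1)
    rw [mulVec_single_one, dw5_col] at e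
    exact e
  · intro x I hx h0
    have h2 : ∀ c, (x.2 c).det ≠ 0 := fun c =>
      Finset.prod_ne_zero_iff.1 (right_ne_zero_of_mul h0) c (Finset.mem_univ c)
    obtain ⟨h3, t, -, ht⟩ := hq.top_cfg hn hx (left_ne_zero_of_mul (left_ne_zero_of_mul h0)) h2
    exact ⟨(fun b c => (x.2 (b, c), (x.2 (b, c)).det⁻¹), t),
      (cfg_iff hδ hn _ fun b c => mul_inv_cancel₀ (h2 _)).2 h3,
      Prod.ext (funext fun J => (ht J).symm) rfl⟩
  · rintro I ⟨y, t⟩ u hy h0
    refine Prod.ext (funext fun b => funext fun c => Prod.ext rfl ?_) ?_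
    · have e := (hy b).1.1 c
      simp only [← Finset.mul_prod_erase _ _ (Finset.mem_univ (b, c))] at h0 e ⊢
      linear_combination (y b c).2 * h0 - (u * (t * mnz (fst' hn fun c => (y c.1 c.2).1) I) *
        mnz (fst' hn fun c => (y c.1 c.2).1) I *
          ∏ c' ∈ Finset.univ.erase (b, c), (y c'.1 c'.2).1.det) * e
    · simp only at h0 ⊢
      linear_combination t * h0
  · intro x hx h0 J
    by_contra h2
    simp only [bdf, dw5_cmp] at h2
    have h3 : ∀ c, (x.2 c).det ≠ 0 := fun c =>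
      Finset.prod_ne_zero_iff.1 (right_ne_zero_of_mul h2) c (Finset.mem_univ c)
    have h4 := left_ne_zero_of_mul h2
    obtain ⟨-, t, -, ht⟩ := hq.top_cfg hn hx h4 h3
    exact mul_ne_zero (mul_ne_zero h4 (right_ne_zero_of_mul (ht J.1 ▸ h4)))
      (right_ne_zero_of_mul h2) (h0 J.1)

theorem Aq.tw_all (h : Aq k G R) (hq : Su k q) (hδ : ∀ b c, Monotone fun i => δ (b, c, i))
    (h1 : R.rel (Tw Ω n q δ E fun c => n c.1) fun y => ∀ J, bdf (fun c => n c.1) J y = 0) :
    R.rel (fun z => z ∈ cone Ω n q δ E) fun z => ∀ I, z I = 0 := by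
  have key : ∀ (M : ℕ) (τ : Fin N × Fin (d + 1) → ℕ), (∀ c, τ c ≤ n c.1) →
      ∑ c, (n c.1 - τ c) = M → R.rel (Tw Ω n q δ E τ) fun y => ∀ J, bdf τ J y = 0 := by
    intro M
    induction M using Nat.strong_induction_on with
    | _ M ih =>
      intro τ hτ hM
      by_cases e : ∃ c, τ c < n c.1
      · obtain ⟨c, hc⟩ := e
        refine h.tw_step hq hδ hc (ih _ ?_ _ (fun c' => ?_) rfl)
        · rw [← hM]
          refine Finset.sum_lt_sum (fun c' _ => ?_) ⟨c, Finset.mem_univ c, ?_⟩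
          · rw [update_apply]
            split_ifs with e
            · subst e
              omega
            · exact le_rfl
          · rw [update_self]
            omega
        · rw [update_apply]
          split_ifs with e
          · subst e
            exact hc
          · exact hτ c'
      · obtain rfl : τ = fun c => n c.1 :=
          funext fun c => le_antisymm (hτ c) (not_lt.1 fun hc => e ⟨c, hc⟩)
        exact h1
  refine h.iso (fun y : Am Ω n δ => y.1) (fun z => (z, fun c => 0)) (by fun_prop) (by fun_prop)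
    (fun y hy => hy.1) (fun z hz => ⟨hz, fun c a _ => rfl, fun s a _ => ins_zero⟩)
    (fun y hy => Prod.ext rfl (funext fun c => ?_)) (fun z _ => rfl) (fun y hy h0 I => ?_)
    (key _ (fun _ => 0) (fun c => Nat.zero_le _) rfl)
  · ext r a
    exact (congrFun (hy.2.1 c a (Nat.zero_le _)) r).symm
  · simpa only [bdf, dw5_cmp0, det_one, Finset.prod_const_one, mul_one] using h0 (I, fun c => id)

end Pool.Agent.CXD
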