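import Pool.Agent.P.MP_2ce3e7_ag.Defs

/-! The Grothendieck group of coherent sheaves on a power of the Fermat curve. -/

set_option autoImplicit false

noncomputable section

namespace Pool.Agent.Tate

variable {m : ℕ} {k ι : Type} [Field k]

/-- Graded homomorphisms. -/
structure Hom (M N : GM m k ι) where
  f : M.M →ₗ[S k ι] N.M
  π : ∀ d x, f (M.π d x) = N.π d (f x)

/-- Short exact sequences. -/
def SES {M N P : GM m k ι} (f : Hom M N) (g : Hom N P) : Prop :=
  Function.Injective f.f ∧ Function.Surjective g.f ∧ Function.Exact f.f g.f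

/-- Modules that vanish in all large degrees. -/
def Tors (M : GM m k ι) : Prop := ∃ d₀ : ι → ℤ, ∀ d, d₀ ≤ d → M.π d = 0

/-- The relations of the Grothendieck group. -/
def rels (m : ℕ) (k ι : Type) [Field k] : AddSubgroup (FreeAbelianGroup (GM m k ι)) :=
  AddSubgroup.closure {z | (∃ (M N P : GM m k ι) (f : Hom M N) (g : Hom N P), SES f g ∧
      z = FreeAbelianGroup.of N - FreeAbelianGroup.of M - FreeAbelianGroup.of P) ∨
    ∃ M : GM m k ι, Tors M ∧ z = FreeAbelianGroup.of M}

end Pool.Agent.Tate
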