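import Pool.Agent.P.MP_2ce3e7_ag.TRa

/-! Transversal intersections. -/

set_option autoImplicit false

noncomputable section

namespace Pool.Agent.Tate

open MvPolynomial

variable {m : ℕ} {K ι : Type} [Field K] [IsAlgClosed K] [NeZero (m : K)] [Fintype ι]
  [DecidableEq ι]

section Aux
omit [IsAlgClosed K] [NeZero (m : K)] [Fintype ι]

omit [DecidableEq ι] in
theorem tr_JT_empty (J : Ideal (S K (ι ⊕ ι))) : JT J ∅ = J := by
  simp [JT]

theorem tr_JT_insert (J : Ideal (S K (ι ⊕ ι))) (i : ι) (T : Finset ι) :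
    JT J (insert i T) = JT J T ⊔ Ideal.span (Set.range (minor K (Sum.inl i) (Sum.inr i))) := by
  rw [JT, JT, Finset.iSup_insert, sup_assoc, sup_comm (Ideal.span _)]

theorem tr_grI_JT {J : Ideal (S K (ι ⊕ ι))} (hJ : GrI J) (T : Finset ι) : GrI (JT J T) := by
  induction T using Finset.induction_on with
  | empty => rwa [tr_JT_empty]
  | insert i T _ ih =>
    rw [tr_JT_insert]
    refine ih.sup (grW_span ?_)
    rintro _ ⟨a, rfl⟩
    exact ⟨_, hg_minor _ _ a⟩

omit [DecidableEq ι] in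
theorem tr_ZS_anti {σ : Type} {J J' : Ideal (MvPolynomial σ K)} (h : J ≤ J') {x : σ → K}
    (hx : x ∈ ZS J') : x ∈ ZS J := fun f hf => hx f (h hf)

omit [DecidableEq ι] in
theorem tr_minor_mem (J : Ideal (S K (ι ⊕ ι))) {T : Finset ι} {i : ι} (hi : i ∈ T) (a : Fin 3) :
    minor K (Sum.inl i) (Sum.inr i) a ∈ JT J T := by
  have h : Ideal.span (Set.range (minor K (Sum.inl i) (Sum.inr i))) ≤ JT J T :=
    le_sup_of_le_right (le_iSup₂ (f := fun i (_ : i ∈ T) =>
      Ideal.span (Set.range (minor K (Sum.inl i : ι ⊕ ι) (Sum.inr i)))) i hi)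
  exact h (Ideal.subset_span ⟨a, rfl⟩)

omit [DecidableEq ι] in
theorem tr_mem_ZS_JT {J : Ideal (S K (ι ⊕ ι))} {T : Finset ι} {x : (ι ⊕ ι) × Fin 3 → K}
    (h1 : x ∈ ZS J) (h2 : ∀ i ∈ T, ∀ a, eval x (minor K (Sum.inl i) (Sum.inr i) a) = 0) :
    x ∈ ZS (JT J T) := by
  have h : JT J T ≤ RingHom.ker (eval x) := by
    refine sup_le (fun f hf => h1 f hf) (iSup₂_le fun i hi => Ideal.span_le.2 ?_)
    rintro _ ⟨a, rfl⟩
    exact h2 i hi a
  exact fun f hf => h hf

omit [DecidableEq ι] in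
theorem tr_rn_eq {κ : Type} (f : ι → κ) :
    (rn f : S K ι →ₐ[K] S K κ) = aeval fun v : ι × Fin 3 => (X (f v.1, v.2) : S K κ) := by
  refine algHom_ext fun v => ?_
  rw [rn_X, aeval_X]

theorem tr_cross {a b : Fin 3 → K} (h : ∀ c, a (c + 1) * b (c + 2) - a (c + 2) * b (c + 1) = 0)
    {j : Fin 3} (hj : b j ≠ 0) : ∃ l, ∀ i, a i = l * b i := by
  have h0 : a 1 * b 2 - a 2 * b 1 = 0 := h 0
  have h1 : a 2 * b 0 - a 0 * b 2 = 0 := h 1
  have h2 : a 0 * b 1 - a 1 * b 0 = 0 := h 2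
  have key : ∀ i i', a i * b i' = a i' * b i := by
    intro i i'
    fin_cases i <;> fin_cases i' <;> simp only [Fin.zero_eta, Fin.mk_one, Fin.reduceFinMk] <;>
      first
      | linear_combination h0
      | linear_combination -h0
      | linear_combination h1
      | linear_combination -h1
      | linear_combination h2
      | linear_combination -h2
  refine ⟨a j / b j, fun i => ?_⟩
  field_simp
  exact key i j

theorem tr_locGen_sup {σ : Type} {J J' : Ideal (MvPolynomial σ K)} {c c' : ℕ} {x : σ → K}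
    (h : LocGen J c x) (h' : LocGen J' c' x) : LocGen (J ⊔ J') (c + c') x := by
  obtain ⟨s, f, hs, hf, hg⟩ := h
  obtain ⟨s', f', hs', hf', hg'⟩ := h'
  refine ⟨s * s', Fin.append f f', by rw [map_mul]; exact mul_ne_zero hs hs', fun i => ?_,
    fun g hgm => ?_⟩
  · refine Fin.addCases (fun i => ?_) (fun i => ?_) i
    · rw [Fin.append_left]
      exact Ideal.mem_sup_left (hf i)
    · rw [Fin.append_right]
      exact Ideal.mem_sup_right (hf' i)
  · obtain ⟨g1, h1, g2, h2, rfl⟩ := Submodule.mem_sup.1 hgm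
    have l1 : Ideal.span (Set.range f) ≤ Ideal.span (Set.range (Fin.append f f')) := by
      refine Ideal.span_mono ?_
      rintro _ ⟨i, rfl⟩
      exact ⟨Fin.castAdd c' i, Fin.append_left _ _ i⟩
    have l2 : Ideal.span (Set.range f') ≤ Ideal.span (Set.range (Fin.append f f')) := by
      refine Ideal.span_mono ?_
      rintro _ ⟨i, rfl⟩
      exact ⟨Fin.natAdd c i, Fin.append_right _ _ i⟩
    have e : s * s' * (g1 + g2) = s' * (s * g1) + s * (s' * g2) := by ring
    rw [e]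
    exact Ideal.add_mem _ (Ideal.mul_mem_left _ _ (l1 (hg g1 h1)))
      (Ideal.mul_mem_left _ _ (l2 (hg' g2 h2)))

theorem tr_dif_sub {σ : Type} [Fintype σ] (f g : MvPolynomial σ K) (x v : σ → K) :
    dif (f - g) x v = dif f x v - dif g x v := by
  have h := dif_add (f - g) g x v
  rw [sub_add_cancel] at h
  rw [h, add_sub_cancel_right]

end Aux

theorem tr_cy {J : Ideal (S K (ι ⊕ ι))} (hJ : GrI J) (hF : Fer m K (ι ⊕ ι) ≤ J)
    (hfin : (VV (JT J Finset.univ)).Finite)
    (h : ∀ x ∈ VV (JT J Finset.univ), ∃ c ≤ 3 * Fintype.card ι, LocGen J c (rep x) ∧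
      Tan (JT J Finset.univ) (rep x) ⊆ TorD (rep x)) :
    tr (cy m J 0) = (VV (JT J Finset.univ)).ncard := by
  have hm : (m : K) ≠ 0 := NeZero.ne _
  have hm0 : m ≠ 0 := by
    rintro rfl
    exact hm Nat.cast_zero
  have hne : ∀ i : ι, (Sum.inl i : ι ⊕ ι) ≠ Sum.inr i := fun i => Sum.inl_ne_inr
  have hFT : ∀ T, Fer m K (ι ⊕ ι) ≤ JT J T := fun T => hF.trans le_sup_left
  have main : ∀ T : Finset ι, dgT m K Sum.inl Sum.inr Finset.univ (cy m J 0) =
      dgT m K Sum.inl Sum.inr (Finset.univ \ T) (cy m (JT J T) 0) := by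
    intro T
    induction T using Finset.induction_on with
    | empty => rw [tr_JT_empty, Finset.sdiff_empty]
    | insert i T hi ih =>
      have hR : Finset.univ \ T = insert i (Finset.univ \ insert i T) := by
        ext l
        simp only [Finset.mem_sdiff, Finset.mem_univ, true_and, Finset.mem_insert, not_or]
        constructor
        · intro hl
          by_cases hli : l = i
          · exact Or.inl hli
          · exact Or.inr ⟨hli, hl⟩
        · rintro (rfl | hl)
          · exact hi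
          · exact hl.2
      have hiR : i ∉ Finset.univ \ insert i T := by simp
      have hinv := inv_minor (m := m) hm (hne i)
      obtain ⟨Q, hQ1, hQ2, hQ3⟩ := L2_cy hm hinv (tr_grI_JT hJ T) (hFT T) 0
      have hvan : dgT m K Sum.inl Sum.inr (Finset.univ \ insert i T) (cls Q) = 0 := by
        refine dgT_van hne _ Q (irr_iff.2 fun x hx hz => ?_)
        have hxQ : x ∈ ZS Q.ann := tr_ZS_anti le_sup_left hx
        have hxJ : x ∈ ZS (JT J Finset.univ) := by
          refine tr_mem_ZS_JT (tr_ZS_anti (le_sup_left.trans (le_sup_left.trans hQ2)) hxQ) ?_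
          intro l _ a
          by_cases hl : l ∈ insert i T
          · refine hxQ _ (hQ2 ?_)
            rw [← tr_JT_insert]
            exact tr_minor_mem J hl a
          · exact hx _ (tr_minor_mem Q.ann (Finset.mem_sdiff.2 ⟨Finset.mem_univ l, hl⟩) a)
        obtain ⟨y, l, hl, hy⟩ := hz.exists_pt
        have hyJ : rep y ∈ ZS (JT J Finset.univ) := by
          rw [hy]
          exact ((tr_grI_JT hJ _).tsm_mem hl).2 hxJ
        have hyQ : rep y ∈ ZS Q.ann := by
          rw [hy]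
          exact (Q.grI_ann.tsm_mem hl).2 hxQ
        obtain ⟨c, hc, hl1, hl2⟩ := h y hyJ
        obtain ⟨s, hs, hs'⟩ := loc_reg hF hyJ (nz_rep y) hc hl1 hl2 hi
        refine irr_iff.1 hinv.suff (rep y) ?_ (nz_rep y)
        rw [ZS_sup]
        refine ⟨mem_ZS_span.2 ?_, tr_ZS_anti (hFT _) hyJ⟩
        rintro _ ⟨u, hu, b, rfl⟩
        have h3 := hyQ _ (hQ3 s hs' u hu b)
        rw [map_mul] at h3
        exact (mul_eq_zero.1 h3).resolve_left hs
      rw [ih, hR, dgT_insert _ _ hiR, Module.End.mul_apply, LinearMap.sub_apply,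
        Module.End.one_apply, Lm, hQ1, map_sub, hvan, sub_zero, tr_JT_insert]
  have h1 := main Finset.univ
  rw [Finset.sdiff_self, dgT_empty, Module.End.one_apply] at h1
  have h2 := coef_points hm0 (tr_grI_JT hJ Finset.univ) (hFT _) hfin
    (fun y hy => (h y hy).choose_spec.2.2) 0
  show chi (dgT m K Sum.inl Sum.inr Finset.univ (cy m J 0)) = _
  rw [h1, chi_apply, h2, Pi.single_eq_same]

theorem prg_transv {J J' : Ideal (S K ι)} (hJ : GrI J) (hF : Fer m K ι ≤ J) (hJ' : GrI J')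
    (hF' : Fer m K ι ≤ J') (h : Transv J J') :
    prg (cy m J 0) (cy m J' 0) = (VV J ∩ VV J').ncard := by
  set JJ : Ideal (S K (ι ⊕ ι)) := J.map (rn Sum.inl) ⊔ J'.map (rn Sum.inr) with hJJ
  have hG : GrI JJ := (hJ.map_rn Sum.inl_injective).sup (hJ'.map_rn Sum.inr_injective)
  have hFJ : Fer m K (ι ⊕ ι) ≤ JJ := by
    rw [← Fer_sum]
    exact sup_le_sup (Ideal.map_mono hF) (Ideal.map_mono hF')
  have hz1 : ∀ x : (ι ⊕ ι) × Fin 3 → K, x ∈ ZS (J.map (rn Sum.inl : S K ι →ₐ[K] S K (ι ⊕ ι))) ↔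
      (fun w : ι × Fin 3 => x (Sum.inl w.1, w.2)) ∈ ZS J := by
    intro x
    rw [tr_rn_eq, mem_ZS_map]
    simp only [eval_X]
  have hz2 : ∀ x : (ι ⊕ ι) × Fin 3 → K, x ∈ ZS (J'.map (rn Sum.inr : S K ι →ₐ[K] S K (ι ⊕ ι))) ↔
      (fun w : ι × Fin 3 => x (Sum.inr w.1, w.2)) ∈ ZS J' := by
    intro x
    rw [tr_rn_eq, mem_ZS_map]
    simp only [eval_X]
  let dg : Pt K ι → Pt K (ι ⊕ ι) := fun y => Sum.elim y y
  have hinj : Function.Injective dg := fun y y' hy => funext fun i => congrFun hy (Sum.inl i)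
  have hV : VV (JT JJ Finset.univ) = dg '' (VV J ∩ VV J') := by
    ext z
    constructor
    · intro hz
      have hz0 : rep z ∈ ZS JJ := tr_ZS_anti le_sup_left hz
      rw [hJJ, ZS_sup] at hz0
      have hcr : ∀ i : ι, ∃ l, ∀ a, rep z (Sum.inl i, a) = l * rep z (Sum.inr i, a) := by
        intro i
        obtain ⟨j, hj⟩ := nz_rep z (Sum.inr i)
        refine tr_cross (a := fun a => rep z (Sum.inl i, a)) (b := fun a => rep z (Sum.inr i, a))
          (fun c => ?_) hj
        have h1 := hz _ (tr_minor_mem JJ (Finset.mem_univ i) c)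
        simpa only [minor, map_sub, map_mul, eval_X] using h1
      choose l hl using hcr
      have he : (z ∘ Sum.inl : Pt K ι) = z ∘ Sum.inr :=
        pt_eq (l := l) (funext fun v => hl v.1 v.2)
      have r1 : (fun w : ι × Fin 3 => rep z (Sum.inl w.1, w.2)) = rep (z ∘ Sum.inl) := rfl
      have r2 : (fun w : ι × Fin 3 => rep z (Sum.inr w.1, w.2)) = rep (z ∘ Sum.inr) := rfl
      have q1 := (hz1 (rep z)).1 hz0.1
      have q2 := (hz2 (rep z)).1 hz0.2
      rw [r1] at q1
      rw [r2, ← he] at q2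
      refine ⟨z ∘ Sum.inl, ⟨q1, q2⟩, ?_⟩
      funext i
      rcases i with i | i
      · rfl
      · exact congrFun he i
    · rintro ⟨y, ⟨hy1, hy2⟩, rfl⟩
      refine tr_mem_ZS_JT ?_ fun i _ a => ?_
      · rw [hJJ, ZS_sup]
        have r1 : (fun w : ι × Fin 3 => rep (dg y) (Sum.inl w.1, w.2)) = rep y := rfl
        have r2 : (fun w : ι × Fin 3 => rep (dg y) (Sum.inr w.1, w.2)) = rep y := rfl
        refine ⟨(hz1 (rep (dg y))).2 ?_, (hz2 (rep (dg y))).2 ?_⟩
        · rw [r1]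
          exact hy1
        · rw [r2]
          exact hy2
      · simp only [minor, map_sub, map_mul, eval_X]
        show rep y (i, a + 1) * rep y (i, a + 2) - rep y (i, a + 2) * rep y (i, a + 1) = 0
        ring
  have h0 : (Sum.elim (0 : ι → ℤ) (0 : ι → ℤ) : ι ⊕ ι → ℤ) = 0 := by
    funext i
    rcases i with i | i <;> rfl
  rw [prg_apply, boxG_cy hJ hF hJ' hF', h0, ← hJJ, tr_cy hG hFJ (hV ▸ h.fin.image dg), hV,
    Set.ncard_image_of_injective _ hinj]
  rw [hV]
  rintro _ ⟨y, hy, rfl⟩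
  obtain ⟨c, c', hc, hl, hl', ht⟩ := h.loc y hy
  have e1 : (fun w : ι × Fin 3 => eval (rep (dg y)) (X (Sum.inl w.1, w.2) : S K (ι ⊕ ι))) =
      rep y := funext fun w => by rw [eval_X]; rfl
  have e2 : (fun w : ι × Fin 3 => eval (rep (dg y)) (X (Sum.inr w.1, w.2) : S K (ι ⊕ ι))) =
      rep y := funext fun w => by rw [eval_X]; rfl
  refine ⟨c + c', hc, ?_, fun v hv => ?_⟩
  · rw [hJJ, tr_rn_eq, tr_rn_eq]
    exact tr_locGen_sup (LocGen.map _ (e1.symm ▸ hl)) (LocGen.map _ (e2.symm ▸ hl'))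
  · have hv0 : v ∈ Tan JJ (rep (dg y)) := fun f hf => hv f (Ideal.mem_sup_left hf)
    rw [hJJ, Tan_sup, tr_rn_eq, tr_rn_eq] at hv0
    have hv1 := (mem_Tan_map _ (e1.symm ▸ hy.1) v).1 hv0.1
    have hv2 := (mem_Tan_map _ (e2.symm ▸ hy.2) v).1 hv0.2
    rw [e1] at hv1
    rw [e2] at hv2
    simp only [dif_X] at hv1 hv2
    have hcr : ∀ i : ι, ∃ l, ∀ a, v (Sum.inl i, a) - v (Sum.inr i, a) = l * rep y (i, a) := by
      intro i
      obtain ⟨j, hj⟩ := nz_rep y i
      refine tr_cross (a := fun a => v (Sum.inl i, a) - v (Sum.inr i, a))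
        (b := fun a => rep y (i, a)) (fun c => ?_) hj
      have h1 := hv _ (tr_minor_mem JJ (Finset.mem_univ i) c)
      simp only [minor, tr_dif_sub, dif_mul, dif_X, eval_X] at h1
      have h2 : rep y (i, c + 1) * v (Sum.inr i, c + 2) + rep y (i, c + 2) * v (Sum.inl i, c + 1) -
          (rep y (i, c + 2) * v (Sum.inr i, c + 1) + rep y (i, c + 1) * v (Sum.inl i, c + 2))
          = 0 := h1
      linear_combination h2
    choose l hl2 using hcr
    have hv3 : (fun w : ι × Fin 3 => v (Sum.inl w.1, w.2)) ∈ Tan J' (rep y) := by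
      intro f hf
      have e3 : (fun w : ι × Fin 3 => v (Sum.inl w.1, w.2)) =
          (fun w : ι × Fin 3 => v (Sum.inr w.1, w.2)) + tsm l (rep y) := funext fun w => by
        have := hl2 w.1 w.2
        show v (Sum.inl w.1, w.2) = v (Sum.inr w.1, w.2) + l w.1 * rep y (w.1, w.2)
        linear_combination this
      rw [e3, (dif_linear f (rep y)).map_add, hv2 f hf, hJ'.torD_sub hy.2 ⟨l, rfl⟩ f hf, add_zero]
    obtain ⟨l1, hl1⟩ := ht ⟨hv1, hv3⟩
    refine ⟨Sum.elim l1 (l1 - l), funext ?_⟩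
    rintro ⟨i | i, a⟩
    · exact congrFun hl1 (i, a)
    · have h1 : v (Sum.inl i, a) = l1 i * rep y (i, a) := congrFun hl1 (i, a)
      have h2 := hl2 i a
      show v (Sum.inr i, a) = (l1 i - l i) * rep y (i, a)
      linear_combination h1 - h2

end Pool.Agent.Tate
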