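import Pool.Agent.P.MP_2ce3e7_ag.Fix
import Pool.Agent.P.MP_2ce3e7_ag.BCb
import Pool.Agent.P.MP_2ce3e7_ag.AppT
import Pool.Agent.P.MP_2ce3e7_ag.TR

/-! Traces on the square of the curve. -/

set_option autoImplicit false

noncomputable section

namespace Pool.Agent.Tate

open MvPolynomial

variable {m : ℕ} [NeZero m] {k : Type} [Field k] [NeZero (m : k)] (ζ : Rt m k)

omit [NeZero m] [NeZero (m : k)] in
theorem fixB_gr (j : Fin 3) : GrI (Fer m k Unit ⊔ Ideal.span {X ((), j)}) :=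
  GrW.sup grI_Fer (grW_span fun f hf =>
    ⟨wt ((), j), by rw [Set.mem_singleton_iff.1 hf]; exact hg_X _⟩)

omit [NeZero m] in
theorem fixB_neZero : NeZero (m : AlgebraicClosure k) :=
  ⟨by
    rw [← map_natCast (algebraMap k (AlgebraicClosure k))]
    exact (map_ne_zero _).2 (NeZero.ne _)⟩

/-- the root of unity in the algebraic closure -/
def fixB_rt : Rt m (AlgebraicClosure k) :=
  ⟨algebraMap k _ ζ.1, ζ.2.map_of_injective (algebraMap k (AlgebraicClosure k)).injective⟩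

omit [NeZero m] [NeZero (m : k)] in
theorem fixB_bc_hc (K : Type) [Field K] [Algebra k K] : bcG K (hc m k) = hc m K := by
  rw [hc, map_sub, bcG_cy_Fer, bcG_cy_Fer, hc]

omit [NeZero m] [NeZero (m : k)] in
theorem fixB_bc_Oc (K : Type) [Field K] [Algebra k K] : bcG K (Oc m k) = Oc m K := bcG_cy_Fer _

omit [NeZero m] [NeZero (m : k)] in
theorem fixB_mem_VV (j : Fin 3) (y : Pt k Unit) :
    y ∈ VV (Fer m k Unit ⊔ Ideal.span {X ((), j)}) ↔ OnF m (y ()).rep ∧ (y ()).rep j = 0 := by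
  change rep y ∈ ZS _ ↔ _
  rw [ZS_sup, Set.mem_inter_iff, mem_ZS_Fer, mem_ZS_span]
  simp only [Set.mem_singleton_iff, forall_eq, eval_X]
  exact ⟨fun h => ⟨h.1 (), h.2⟩, fun h => ⟨fun _ => h.1, h.2⟩⟩

omit [NeZero (m : k)] in
include ζ in
theorem fixB_VV [IsAlgClosed k] (j : Fin 3) :
    (VV (Fer m k Unit ⊔ Ideal.span {X ((), j)})).Finite ∧
      (VV (Fer m k Unit ⊔ Ideal.span {X ((), j)})).ncard = m := by
  obtain ⟨h1, h2⟩ := ncard_hyper ζ j
  have e : VV (Fer m k Unit ⊔ Ideal.span {X ((), j)}) = (fun y : Pt k Unit => y ()) ⁻¹'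
      {x : Projectivization k (Fin 3 → k) | OnF m x.rep ∧ x.rep j = 0} :=
    Set.ext fun y => fixB_mem_VV j y
  have hi : Function.Injective fun y : Pt k Unit => y () := fun y y' h => funext fun _ => h
  rw [e]
  refine ⟨h1.preimage hi.injOn, ?_⟩
  rw [Set.ncard_preimage_of_injective_subset_range hi fun x _ => ⟨fun _ => x, rfl⟩, h2]

theorem fixB_tan {y : Pt k Unit} (hy : y ∈ VV (Fer m k Unit ⊔ Ideal.span {X ((), 0)})) :
    Tan (Fer m k Unit ⊔ Ideal.span {X ((), 0)}) (rep y) ⊆ TorD (rep y) := by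
  intro v hv
  obtain ⟨h1, h2⟩ := (fixB_mem_VV 0 y).1 hy
  have hm : m ≠ 0 := NeZero.ne m
  have hv0 : v ((), 0) = 0 := by
    have := hv (X ((), 0)) (Ideal.mem_sup_right (Ideal.subset_span rfl))
    rwa [dif_X] at this
  have hv1 := hv (fer m k ()) (Ideal.mem_sup_left (fer_mem ()))
  have e : fer m k () = X ((), 0) ^ m + X ((), 1) ^ m + C (-1) * X ((), 2) ^ m := by
    rw [fer, map_neg, map_one]; ring
  rw [e, dif_add, dif_add, dif_mul, dif_C, dif_pow, dif_pow, dif_pow, dif_X, dif_X, dif_X, hv0,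
    eval_C, eval_X, eval_X, eval_X] at hv1
  have hnz := (y ()).rep_nonzero
  unfold OnF at h1
  rw [h2, zero_pow hm, zero_add] at h1
  have hx2 : (y ()).rep 2 ≠ 0 := by
    intro h
    rw [h, zero_pow hm] at h1
    refine hnz (funext fun j => ?_)
    fin_cases j
    · exact h2
    · exact pow_eq_zero_iff hm |>.1 h1
    · exact h
  have hx1 : (y ()).rep 1 ≠ 0 := by
    intro h
    rw [h, zero_pow hm] at h1
    exact pow_ne_zero m hx2 h1.symm
  have h3 : (y ()).rep 1 ^ (m - 1) * v ((), 1) = (y ()).rep 2 ^ (m - 1) * v ((), 2) := by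
    refine mul_left_cancel₀ (NeZero.ne (m : k)) ?_
    simp only [rep] at hv1
    linear_combination hv1
  rw [← pow_sub_one_mul hm, ← pow_sub_one_mul hm ((y ()).rep 2)] at h1
  refine ⟨fun _ => v ((), 1) / (y ()).rep 1, funext fun ⟨i, j⟩ => ?_⟩
  change v ((), j) = v ((), 1) / (y ()).rep 1 * (y ()).rep j
  fin_cases j
  · change v ((), 0) = v ((), 1) / (y ()).rep 1 * (y ()).rep 0
    rw [hv0, h2, mul_zero]
  · change v ((), 1) = v ((), 1) / (y ()).rep 1 * (y ()).rep 1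
    field_simp
  · change v ((), 2) = v ((), 1) / (y ()).rep 1 * (y ()).rep 2
    rw [div_mul_eq_mul_div, eq_div_iff hx1]
    refine mul_left_cancel₀ (pow_ne_zero (m - 1) hx2) ?_
    linear_combination (-(y ()).rep 1) * h3 + v ((), 1) * h1

theorem hc_eq (j : Fin 3) : hc m k = cy m (Fer m k Unit ⊔ Ideal.span {X ((), j)}) 0 := by
  have hm : (m : k) ≠ 0 := NeZero.ne _
  have h := cy_mul (m := m) grI_Fer le_rfl (hg_X (k := k) ((), j))
    (fun g hg => ((fer_isPrime hm).mem_or_mem hg).resolve_left (X_notMem_Fer hm _)) 0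
  have e : (0 : Unit → ℤ) - wt ((), j) = -1 := by
    funext i
    simp [wt_apply]
  rw [e] at h
  rw [hc, h, add_sub_cancel_left]

include ζ in
theorem coef_hc : coef (hc m k) = Pi.single ∅ (m : ℂ) := by
  haveI := fixB_neZero (m := m) (k := k)
  rw [← coef_bcG (k' := AlgebraicClosure k) (NeZero.ne m), fixB_bc_hc, hc_eq 0,
    coef_points (NeZero.ne m) (fixB_gr 0) le_sup_left (fixB_VV (fixB_rt ζ) 0).1
      fun y hy => fixB_tan hy, (fixB_VV (fixB_rt ζ) 0).2]

include ζ in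
theorem coef_Oc : coef (Oc m k) {()} = m := by
  have e : shG (Pi.single () 1) (cy m (Fer m k Unit) (-1)) = Oc m k := by
    rw [shG_cy grI_Fer le_rfl, Oc]
    congr 1
  have h1 := coef_step (NeZero.ne m) () (cy m (Fer m k Unit) (-1)) ∅
  have h2 := coef_step (NeZero.ne m) () (cy m (Fer m k Unit) (-1)) {()}
  have h3 := congrFun (coef_hc ζ) ∅
  rw [e] at h1 h2
  rw [hc, map_sub, Pi.sub_apply, Pi.single_eq_same] at h3
  rw [if_neg (Finset.notMem_empty _), insert_empty_eq] at h1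
  rw [if_pos (Finset.mem_singleton_self _), add_zero] at h2
  change coef (Oc m k) ∅ - _ = _ at h3
  linear_combination h2 - h1 + h3

include ζ in
theorem prg_Oc_hc : prg (Oc m k) (hc m k) = m := by
  haveI := fixB_neZero (m := m) (k := k)
  have hV := fixB_VV (fixB_rt ζ) 0
  have e : VV (Fer m (AlgebraicClosure k) Unit) ∩
      VV (Fer m (AlgebraicClosure k) Unit ⊔ Ideal.span {X ((), 0)}) =
      VV (Fer m (AlgebraicClosure k) Unit ⊔ Ideal.span {X ((), 0)}) :=
    Set.inter_eq_right.2 fun y hy f hf => hy f (Ideal.mem_sup_left hf)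
  rw [← prg_bcG (k' := AlgebraicClosure k), fixB_bc_hc, fixB_bc_Oc, hc_eq 0, Oc,
    prg_transv grI_Fer le_rfl (fixB_gr 0) le_sup_left, e, hV.2]
  refine ⟨by rw [e]; exact hV.1, fun y hy => ⟨1, 2, by simp, ?_, ?_, ?_⟩⟩
  · refine ⟨1, fun _ => fer m _ (), by simp, fun _ => fer_mem (), fun g hg => ?_⟩
    rw [one_mul]
    refine Ideal.span_mono ?_ hg
    rintro _ ⟨i, rfl⟩
    exact ⟨0, rfl⟩
  · refine ⟨1, ![fer m _ (), X ((), 0)], by simp, fun i => ?_, fun g hg => ?_⟩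
    · fin_cases i
      · exact Ideal.mem_sup_left (fer_mem ())
      · exact Ideal.mem_sup_right (Ideal.subset_span rfl)
    · rw [one_mul]
      have hle : Fer m (AlgebraicClosure k) Unit ⊔ Ideal.span {X ((), 0)} ≤
          Ideal.span (Set.range ![fer m (AlgebraicClosure k) (), X ((), 0)]) := by
        refine sup_le (Ideal.span_mono ?_) (Ideal.span_mono ?_)
        · rintro _ ⟨i, rfl⟩
          exact ⟨0, rfl⟩
        · rintro _ rfl
          exact ⟨1, rfl⟩
      exact hle hg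
  · exact fun v hv => fixB_tan hy.2 hv.2

theorem prg_hc_hc : prg (hc m k) (hc m k) = 0 := by
  haveI := fixB_neZero (m := m) (k := k)
  have hm : m ≠ 0 := NeZero.ne m
  have e : VV (Fer m (AlgebraicClosure k) Unit ⊔ Ideal.span {X ((), 0)}) ∩
      VV (Fer m (AlgebraicClosure k) Unit ⊔ Ideal.span {X ((), 1)}) = ∅ := by
    refine Set.eq_empty_of_forall_notMem fun y hy => ?_
    obtain ⟨h1, h2⟩ := (fixB_mem_VV 0 y).1 hy.1
    obtain ⟨-, h3⟩ := (fixB_mem_VV 1 y).1 hy.2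
    unfold OnF at h1
    rw [h2, h3, zero_pow hm, add_zero] at h1
    refine (y ()).rep_nonzero (funext fun j => ?_)
    fin_cases j
    · exact h2
    · exact h3
    · exact pow_eq_zero_iff hm |>.1 h1.symm
  have h := prg_transv (m := m) (fixB_gr (k := AlgebraicClosure k) 0) le_sup_left (fixB_gr 1)
    le_sup_left ⟨by rw [e]; exact Set.finite_empty, fun y hy => by rw [e] at hy; exact hy.elim⟩
  rw [← hc_eq, ← hc_eq, e, Set.ncard_empty, Nat.cast_zero] at h
  rw [← prg_bcG (k' := AlgebraicClosure k), fixB_bc_hc, h]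

variable (p : ℕ) [Fact p.Prime] [CharP k p]

omit [NeZero m] in
theorem fixB_up {ι : Type} [DecidableEq ι] (i : ι) (g : Ch m) :
    up (Pi.single i g : ι → Ch m) = Pi.single i ![g.1, g.2, 0] := by
  funext i'
  by_cases h : i' = i
  · subst h
    simp [up]
  · funext j
    fin_cases j <;> simp [up, h]

theorem fixB_tr {s : ℕ} (h1 : (p : ZMod m) ^ s = 1) (a : Ch m) :
    tr (fr p (Pi.single (Sum.inl ()) s) (Da ζ a)) = ((m : ℂ) ^ 2)⁻¹ * ∑ g : Ch m, ch1 a (-g) *
      tr (tw3 ζ (Pi.single (Sum.inl ()) ![g.1, g.2, 0])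
        (fr p (Pi.single (Sum.inl ()) s) (Dg m k))) := by
  rw [Da, fr_P1 p (by rintro (i | i) <;> simp [h1]), P1, avg_apply, map_smul, map_sum]
  simp only [map_smul, smul_eq_mul, tw, fixB_up, Fintype.card_prod, ZMod.card, Nat.cast_mul, sq]

include p in
theorem fixB_tr0 [IsAlgClosed k] (a : Ch m) : tr (Da ζ a) = ((m : ℂ) ^ 2)⁻¹ *
    (tr (Dg m k) + m * ∑ j, ((if ex3 a j = 0 then (m : ℂ) else 0) - 1)) := by
  have h := fixB_tr ζ p (s := 0) (pow_zero _) a
  rw [← Finset.add_sum_erase _ _ (Finset.mem_univ 0)] at h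
  have e0 : (![(0 : Ch m).1, (0 : Ch m).2, 0] : Fin 3 → ZMod m) = 0 := by
    funext j
    fin_cases j <;> rfl
  rw [← sum_one a]
  have e1 : ∀ g ∈ Finset.univ.erase (0 : Ch m), ch1 a (-g) *
      tr (tw3 ζ (Pi.single (Sum.inl ()) ![g.1, g.2, 0])
        (fr p (Pi.single (Sum.inl ()) 0) (Dg m k))) =
      ch1 a (-g) * (if g.1 = 0 ∨ g.2 = 0 ∨ g.1 = g.2 then (m : ℂ) else 0) := by
    intro g hg
    have hg0 := Finset.ne_of_mem_erase hg
    obtain ⟨f1, f2⟩ := fix_one ζ hg0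
    rw [tr_fix ζ p _ 0 (Or.inr ?_) (by rwa [pow_zero]), pow_zero, f2]
    · split_ifs <;> simp
    · by_cases h1 : g.1 = 0
      · exact ⟨1, 2, fun h2 => hg0 (Prod.ext h1 h2)⟩
      · exact ⟨0, 2, h1⟩
  rw [Finset.sum_congr rfl e1, e0, Pi.single_zero, Pi.single_zero, tw3_zero, fr_zero, neg_zero,
    ch1_comm, ch1_zero, one_mul, Module.End.one_apply, Module.End.one_apply,
    Module.End.one_apply] at h
  exact h

include p in
theorem fixB_trDa [IsAlgClosed k] {a : Ch m} (ha : Nd a) : tr (Da ζ a) = -1 := by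
  have hm : (m : ℂ) ≠ 0 := Nat.cast_ne_zero.2 (NeZero.ne m)
  have h0 : P1 ζ (Sum.inl ()) (0, a.2) (Dg m k) = 0 :=
    deg_part (a := (0, a.2)) (fun h => ha.2.1 (congrArg Prod.snd h)) (fun h => h.1 rfl)
      (P1_mem (Sum.inl ()) (0, a.2) (Dg m k))
  have h1 := fixB_tr0 ζ p (0, a.2)
  have h2 := fixB_tr0 ζ p a
  have s1 : ∑ j, ((if ex3 ((0, a.2) : Ch m) j = 0 then (m : ℂ) else 0) - 1) = m - 3 := by
    have e0 : ex3 ((0, a.2) : Ch m) 0 = 0 := rfl
    have e1 : ex3 ((0, a.2) : Ch m) 1 ≠ 0 := ha.2.1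
    have e2 : ex3 ((0, a.2) : Ch m) 2 ≠ 0 := by
      change -(0 : ZMod m) - a.2 ≠ 0
      rw [neg_zero, zero_sub, neg_ne_zero]
      exact ha.2.1
    rw [Fin.sum_univ_three, if_pos e0, if_neg e1, if_neg e2]
    ring
  have s2 : ∑ j, ((if ex3 a j = 0 then (m : ℂ) else 0) - 1) = -3 := by
    rw [Fin.sum_univ_three, if_neg (nd_iff.1 ha 0), if_neg (nd_iff.1 ha 1),
      if_neg (nd_iff.1 ha 2)]
    ring
  rw [Da, h0, map_zero, s1] at h1
  rw [s2] at h2
  rw [h2]
  generalize tr (Dg m k) = t at h1 ⊢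
  have h3 := (mul_eq_zero.1 h1.symm).resolve_left (inv_ne_zero (pow_ne_zero 2 hm))
  field_simp
  linear_combination h3

include p in
theorem tr_Da {a : Ch m} (ha : Nd a) : tr (Da ζ a) = -1 := by
  haveI := fixB_neZero (m := m) (k := k)
  rw [← tr_bcG (k' := AlgebraicClosure k), bcG_Da (ζ' := fixB_rt ζ) rfl]
  exact fixB_trDa _ p ha

theorem tr_fr_Da_zero {s : ℕ} (hs : s ≠ 0) (h1 : (p : ZMod m) ^ s = 1) :
    tr (fr p (Pi.single (Sum.inl ()) s) (Da ζ 0)) = (p : ℂ) ^ s + 1 := by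
  haveI := fixB_neZero (m := m) (k := k)
  have hm : (m : ℂ) ≠ 0 := Nat.cast_ne_zero.2 (NeZero.ne m)
  rw [← tr_bcG (k' := AlgebraicClosure k), bcG_fr, bcG_Da (ζ' := fixB_rt ζ) rfl,
    fixB_tr _ p h1]
  have hq : 1 < p ^ s := Nat.one_lt_pow hs (Fact.out : p.Prime).one_lt
  simp only [ch1_zero, one_mul, tr_fix (fixB_rt ζ) p _ s (Or.inl hs) (fix_finite _ _ hq)]
  rw [← Nat.cast_sum, sum_fix_zero (fixB_rt ζ) p hs]
  push_cast
  field_simp

omit [NeZero (m : k)] in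
theorem fixB_span {x : G m k Unit} (hx : x ∈ E1 ζ () 0) :
    ∃ α β : ℂ, x = α • Oc m k + β • hc m k := by
  have hm : m ≠ 0 := NeZero.ne m
  obtain ⟨u, v, h⟩ := triv_part (box_mem_E1_left hx (cy m (Fer m k Empty) 0))
  refine ⟨chi u, chi v, ?_⟩
  rw [G_empty hm u, G_empty hm v, map_smul, map_smul] at h
  have h2 := congrArg (reG (Equiv.sumEmpty Unit Empty)) h
  rwa [map_add, map_smul, map_smul, box_one hm, box_one hm, box_one hm] at h2

include ζ in
/-- Frobenius on the trivial part of the curve -/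
theorem exists_O {s : ℕ} (h1 : (p : ZMod m) ^ s = 1) :
    ∃ c : ℂ, fr p (fun _ => s) (hc m k) = hc m k ∧
      fr p (fun _ => s) (Oc m k - c • hc m k) = (p : ℂ) ^ s • (Oc m k - c • hc m k) := by
  have hm : m ≠ 0 := NeZero.ne m
  have hmc : (m : ℂ) ≠ 0 := Nat.cast_ne_zero.2 hm
  have hO : ∀ n, cy m (Fer m k Unit) n ∈ E1 ζ () 0 := fun n => mem_Ga.1 (cy_Fer_mem n) ()
  obtain ⟨α, β, e1⟩ := fixB_span ζ (fr_mem_E1 p (s := fun _ => s) (fun _ => h1)
    (Submodule.sub_mem _ (hO 0) (hO (-1))))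
  obtain ⟨α', β', e2⟩ := fixB_span ζ (fr_mem_E1 p (s := fun _ => s) (fun _ => h1) (hO 0))
  change fr p (fun _ => s) (hc m k) = _ at e1
  change fr p (fun _ => s) (Oc m k) = _ at e2
  have c0 : ∀ x : G m k Unit, coef (fr p (fun _ => s) x) ∅ = coef x ∅ := fun x => by
    rw [fr, coef_pull hm rfl rfl, Finset.prod_empty, one_mul]
  have c1 : ∀ x : G m k Unit, coef (fr p (fun _ => s) x) {()} = (p : ℂ) ^ s * coef x {()} :=
    fun x => by
      rw [fr, coef_pull hm rfl rfl, Finset.prod_singleton, ← Nat.cast_pow]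
      rfl
  have hh0 : coef (hc m k) ∅ = m := by rw [coef_hc ζ, Pi.single_eq_same]
  have hh1 : coef (hc m k) {()} = 0 := by
    rw [coef_hc ζ, Pi.single_eq_of_ne (Finset.singleton_ne_empty _)]
  have a0 := c0 (hc m k)
  have a1 := c1 (hc m k)
  have b0 := c0 (Oc m k)
  have b1 := c1 (Oc m k)
  rw [e1] at a0 a1
  rw [e2] at b0 b1
  simp only [map_add, map_smul, Pi.add_apply, Pi.smul_apply, smul_eq_mul, hh0, hh1,
    coef_Oc ζ] at a0 a1 b0 b1
  have hα : α = 0 := mul_right_cancel₀ hmc (by linear_combination a1)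
  have hβ : β = 1 := mul_right_cancel₀ hmc (by rw [hα] at a0; linear_combination a0)
  have hα' : α' = (p : ℂ) ^ s := mul_right_cancel₀ hmc (by linear_combination b1)
  rw [hα, hβ, zero_smul, one_smul, zero_add] at e1
  refine ⟨coef (Oc m k) ∅ / m, e1, ?_⟩
  have hβ' : β' = coef (Oc m k) ∅ / m - (p : ℂ) ^ s * (coef (Oc m k) ∅ / m) := by
    rw [hα'] at b0
    field_simp
    linear_combination b0
  rw [map_sub, map_smul, e1, e2, hα', hβ', smul_sub, smul_smul, sub_smul]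
  abel

variable {F : Type} [Field F] [Fintype F] (φ : F →+* k) {z : F} (hζ : ζ.1 = φ z) {e : ℕ}
  (hF : Fintype.card F = p ^ e)
include hζ hF

omit [NeZero (m : k)] [Fact p.Prime] [CharP k p] in
theorem rt_pow : (p : ZMod m) ^ e = 1 := by
  have hz : IsPrimitiveRoot z m := by
    have := ζ.2
    rw [hζ] at this
    exact this.of_map_of_injective φ.injective
  have h1 := hz.dvd_of_pow_eq_one _
    (FiniteField.pow_card_sub_one_eq_one z (hz.ne_zero (NeZero.ne m)))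
  have h2 : 1 ≤ Fintype.card F := Fintype.card_pos
  have h3 := (ZMod.natCast_eq_natCast_iff _ _ m).2 ((Nat.modEq_iff_dvd' h2).2 h1)
  rw [hF, Nat.cast_pow, Nat.cast_one] at h3
  exact h3.symm

theorem tr_fr_Da {a : Ch m} (ha : Nd a) :
    tr (fr p (Pi.single (Sum.inl ()) e) (Da ζ a)) = Jac z a := by
  haveI := fixB_neZero (m := m) (k := k)
  have hm : (m : ℂ) ≠ 0 := Nat.cast_ne_zero.2 (NeZero.ne m)
  have hq : 1 < p ^ e := hF ▸ Fintype.one_lt_card
  have he : e ≠ 0 := by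
    rintro rfl
    simp at hq
  rw [← tr_bcG (k' := AlgebraicClosure k), bcG_fr, bcG_Da (ζ' := fixB_rt ζ) rfl,
    fixB_tr _ p (rt_pow ζ p φ hζ hF)]
  simp only [tr_fix (fixB_rt ζ) p _ e (Or.inl he) (fix_finite _ _ hq)]
  rw [← hF, sum_fix_jac (fixB_rt ζ) ((algebraMap k (AlgebraicClosure k)).comp φ) (z := z)
    (congrArg (algebraMap k (AlgebraicClosure k)) hζ) ha]
  field_simp

end Pool.Agent.Tate
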