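import Pool.Agent.P.MP_2ce3e7_ag.AppN2
import Pool.Agent.P.MP_2ce3e7_ag.FixB
import Pool.Agent.P.MP_2ce3e7_ag.BoxB

/-! Nondegenerate isotypic parts have rank at most one. -/

set_option autoImplicit false

noncomputable section

namespace Pool.Agent.Tate

open MvPolynomial

variable {m : ℕ} [NeZero m] {k ι : Type} [Field k] [NeZero (m : k)] [Fintype ι] [DecidableEq ι]
  {ζ : Rt m k} (p : ℕ) [Fact p.Prime] [CharP k p]

/-- the statement of `tr_inj` for one index type -/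
def St1Inj (ζ : Rt m k) (ι : Type) [Fintype ι] [DecidableEq ι] : Prop :=
  ∀ a : ι → Ch m, (∀ i, Nd (a i)) → ∀ x : G m k (ι ⊕ ι),
    x ∈ Ga ζ (Sum.elim a (-a)) → tr x = 0 → x = 0

theorem st1_equiv {κ : Type} [Fintype κ] [DecidableEq κ] (e : ι ≃ κ) (h : St1Inj ζ κ) :
    St1Inj ζ ι := by
  intro a ha x hx h0
  refine reG_inj (e.sumCongr e) (h (a ∘ e.symm) (fun i => ha _) _ ?_ ?_)
  · rw [reG_Ga]
    convert hx using 2
    funext i
    rcases i with i | i <;> simp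
  · rw [tr_reG, h0]

theorem st1_empty [IsEmpty ι] : St1Inj ζ ι := by
  intro a _ x _ h0
  rw [tr_empty] at h0
  rw [G_empty (NeZero.ne m) x, h0, zero_smul]

include p in
theorem st1_step (h : St1Inj ζ ι) : St1Inj ζ (Unit ⊕ ι) := by
  intro a ha x hx h0
  obtain ⟨x', rfl⟩ : ∃ x', x = reG (Equiv.sumSumSumComm Unit Unit ι ι) x' :=
    ⟨reG (Equiv.sumSumSumComm Unit Unit ι ι).symm x,
      (reG_symm (Equiv.sumSumSumComm Unit Unit ι ι).symm x).symm⟩
  rw [reG_Ga] at hx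
  have hx1 := mem_Ga.1 hx (Sum.inl (Sum.inl ()))
  have hx2 := mem_Ga.1 hx (Sum.inl (Sum.inr ()))
  obtain ⟨y, rfl⟩ := nd_part (ha (Sum.inl ())) hx1 hx2
  have h1 := pr_of_mem hx
  have hD : Da ζ (a (Sum.inl ())) ∈ Ga ζ ((Sum.elim a (-a) ∘
      Equiv.sumSumSumComm Unit Unit ι ι) ∘ Sum.inl) := by
    convert Da_mem (ζ := ζ) (a (Sum.inl ())) using 2
    funext i
    rcases i with i | i <;> rfl
  rw [pr_box, pr_of_mem hD] at h1
  have hb : (Sum.elim a (-a) ∘ Equiv.sumSumSumComm Unit Unit ι ι) ∘ Sum.inr =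
      Sum.elim (a ∘ Sum.inr) (-(a ∘ Sum.inr)) := by
    funext i
    rcases i with i | i <;> rfl
  rw [hb] at h1
  rw [← h1] at h0 ⊢
  rw [tr_mul, tr_Da ζ p (ha _), neg_one_mul, neg_eq_zero] at h0
  rw [h (a ∘ Sum.inr) (fun i => ha _) _ (pr_mem _ _) h0, map_zero, map_zero]

include p in
theorem st1_fin (n : ℕ) : St1Inj ζ (Fin n) := by
  induction n with
  | zero => exact st1_empty
  | succ n ih =>
    exact st1_equiv (Fintype.equivOfCardEq (by simp [add_comm])) (st1_step p ih)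

section Line
include p

theorem tr_inj {a : ι → Ch m} (ha : ∀ i, Nd (a i)) {x : G m k (ι ⊕ ι)}
    (hx : x ∈ Ga ζ (Sum.elim a (-a))) (h : tr x = 0) : x = 0 :=
  st1_equiv (Fintype.equivFin ι) (st1_fin p _) a ha x hx h

theorem nd_line {a : ι → Ch m} (ha : ∀ i, Nd (a i)) {u w x : G m k ι} (hw : w ∈ Ga ζ (-a))
    (h : prg u w ≠ 0) (hx : x ∈ Ga ζ a) (h0 : prg x w = 0) : x = 0 := by
  have h1 : boxG x w = 0 := tr_inj p ha (box_mem_Ga hx hw) h0
  have h2 : boxG (boxG w u) x = 0 := by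
    rw [← box_comm, ← box_assoc, h1, map_zero, LinearMap.zero_apply, map_zero, map_zero]
  have h3 := trR_box (boxG w u) x
  rw [h2, map_zero, ← prg_apply, prg_comm] at h3
  exact (smul_eq_zero.1 h3.symm).resolve_left h

theorem nd_span {a : ι → Ch m} (ha : ∀ i, Nd (a i)) {u w x : G m k ι} (hu : u ∈ Ga ζ a)
    (hw : w ∈ Ga ζ (-a)) (h : prg u w ≠ 0) (hx : x ∈ Ga ζ a) : ∃ c : ℂ, x = c • u := by
  refine ⟨prg x w / prg u w, sub_eq_zero.1 (nd_line p ha hw h
    (Submodule.sub_mem _ hx (Submodule.smul_mem _ _ hu)) ?_)⟩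
  rw [map_sub, map_smul, LinearMap.sub_apply, LinearMap.smul_apply, smul_eq_mul,
    div_mul_cancel₀ _ h, sub_self]

end Line

variable {F : Type} [Field F] [Fintype F] (φ : F →+* k) {z : F} (hζ : ζ.1 = φ z) {e : ℕ}
  (hF : Fintype.card F = p ^ e)
include hζ hF

theorem st1_fr_Da {a : Ch m} (ha : Nd a) :
    fr p (Pi.single (Sum.inl ()) e) (Da ζ a) = (-Jac z a) • Da ζ a := by
  have hp : ∀ i : Unit ⊕ Unit,
      (p : ZMod m) ^ (Pi.single (Sum.inl ()) e : Unit ⊕ Unit → ℕ) i = 1 := by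
    rintro (i | i)
    · simpa using rt_pow ζ p φ hζ hF
    · simp
  refine sub_eq_zero.1 (tr_inj (ζ := ζ) p (a := fun _ : Unit => a) (fun _ => ha)
    (Submodule.sub_mem _ (fr_mem_Ga p hp (Da_mem a)) (Submodule.smul_mem _ _ (Da_mem a))) ?_)
  rw [map_sub, map_smul, tr_fr_Da ζ p φ hζ hF ha, tr_Da ζ p ha]
  simp

theorem fr_single {i : ι} {a : Ch m} (ha : Nd a) {x : G m k ι} (hx : x ∈ E1 ζ i a) :
    fr p (Pi.single i e) x = (-Jac z a) • x := by
  have hD := mem_Ga.1 (Da_mem (ζ := ζ) a)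
  let s : (Unit ⊕ Unit) ⊕ ι ≃ (Unit ⊕ Unit) ⊕ ι :=
    Equiv.swap (Sum.inr i) (Sum.inl (Sum.inl ()))
  have h1 : reG s (boxG (Da ζ a) x) ∈ E1 ζ (Sum.inl (Sum.inl ())) a := by
    have := (reG_E1 s).2 (box_mem_E1_right (Da ζ a) hx)
    rwa [show s (Sum.inr i) = Sum.inl (Sum.inl ()) from Equiv.swap_apply_left _ _] at this
  have h2 : reG s (boxG (Da ζ a) x) ∈ E1 ζ (Sum.inl (Sum.inr ())) (-a) := by
    have := (reG_E1 s).2 (box_mem_E1_left (hD (Sum.inr ())) x)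
    rwa [show s (Sum.inl (Sum.inr ())) = Sum.inl (Sum.inr ()) from
      Equiv.swap_apply_of_ne_of_ne (by simp) (by simp)] at this
  obtain ⟨y, hy⟩ := nd_part ha h1 h2
  have e1 : (Pi.single (Sum.inr i) e : (Unit ⊕ Unit) ⊕ ι → ℕ) ∘ s.symm =
      Pi.single (Sum.inl (Sum.inl ())) e := by
    funext l
    simp only [Function.comp_apply, Pi.single_apply, Equiv.symm_apply_eq]
    rw [show s (Sum.inr i) = Sum.inl (Sum.inl ()) from Equiv.swap_apply_left _ _]
  have e2 : (Pi.single (Sum.inl (Sum.inl ())) e : (Unit ⊕ Unit) ⊕ ι → ℕ) ∘ Sum.inl =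
      Pi.single (Sum.inl ()) e := by
    funext l
    simp [Pi.single_apply]
  have e3 : (Pi.single (Sum.inl (Sum.inl ())) e : (Unit ⊕ Unit) ⊕ ι → ℕ) ∘ Sum.inr = 0 := by
    funext l
    simp
  have e4 : (Pi.single (Sum.inr i) e : (Unit ⊕ Unit) ⊕ ι → ℕ) ∘ Sum.inl = 0 := by
    funext l
    simp
  have e5 : (Pi.single (Sum.inr i) e : (Unit ⊕ Unit) ⊕ ι → ℕ) ∘ Sum.inr = Pi.single i e := by
    funext l
    simp [Pi.single_apply]
  have h3 : reG s (fr p (Pi.single (Sum.inr i) e) (boxG (Da ζ a) x)) =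
      (-Jac z a) • reG s (boxG (Da ζ a) x) := by
    rw [reG_fr, e1, hy, fr_box, e2, e3, fr_zero, st1_fr_Da p φ hζ hF ha, map_smul]
    rfl
  have h4 : boxG (Da ζ a) (fr p (Pi.single i e) x - (-Jac z a) • x) = 0 := by
    refine reG_inj s ?_
    rw [fr_box, e4, e5, fr_zero] at h3
    rw [map_sub, map_sub, map_smul, map_smul, ← h3]
    exact sub_self _
  have h5 := trR_box (Da ζ a) (fr p (Pi.single i e) x - (-Jac z a) • x)
  rw [h4, map_zero, tr_Da ζ p ha, neg_one_smul, eq_comm, neg_eq_zero] at h5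
  exact sub_eq_zero.1 h5

theorem fr_single_pow {i : ι} {a : Ch m} (ha : Nd a) {x : G m k ι} (hx : x ∈ E1 ζ i a) (s : ℕ) :
    fr p (Pi.single i (e * s)) x = (-Jac z a) ^ s • x := by
  induction s with
  | zero => rw [mul_zero, Pi.single_zero, fr_zero, pow_zero, one_smul]; rfl
  | succ s ih =>
    rw [mul_add, mul_one, Pi.single_add, fr_add, Module.End.mul_apply,
      fr_single p φ hζ hF ha hx, map_smul, ih, smul_smul, pow_succ']

theorem fr_Ga {a : ι → Ch m} (ha : ∀ i, Nd (a i)) {x : G m k ι} (hx : x ∈ Ga ζ a) (s : ℕ) :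
    fr p (fun _ => e * s) x = (∏ i, -Jac z (a i)) ^ s • x := by
  have h : ∀ T : Finset ι, fr p (∑ i ∈ T, Pi.single i (e * s)) x =
      (∏ i ∈ T, -Jac z (a i)) ^ s • x := by
    intro T
    induction T using Finset.induction_on with
    | empty => rw [Finset.sum_empty, Finset.prod_empty, fr_zero, one_pow, one_smul]; rfl
    | insert i T hi ih =>
      rw [Finset.sum_insert hi, Finset.prod_insert hi, fr_add, Module.End.mul_apply, ih, map_smul,
        fr_single_pow p φ hζ hF (ha i) (mem_Ga.1 hx i), smul_smul, mul_pow, mul_comm]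
  rw [← h Finset.univ, Finset.univ_sum_single fun _ => e * s]

end Pool.Agent.Tate
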