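import Pool.Agent.P.MP_2ce3e7_ag.Res
import Pool.Agent.P.MP_2ce3e7_ag.BCb
import Pool.Agent.P.MP_2ce3e7_ag.St1
import Pool.Agent.P.MP_2ce3e7_ag.Jac

/-! Descent to the ground field. -/

set_option autoImplicit false

noncomputable section

namespace Pool.Agent.Tate

open MvPolynomial

variable {m : ℕ} [NeZero m] {k ι : Type} [Field k] [Fintype ι] [DecidableEq ι]

omit [NeZero m] [DecidableEq ι] [Fintype ι] in
theorem desc_comap {k' K : Type} [Field k'] [Field K] (s : k' →+* K) {J : Ideal (S K ι)}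
    (hJ : GrI J) (hF : Fer m K ι ≤ J) {t : Set (S K ι)} (ht : Ideal.span t = J)
    (hc : ∀ f ∈ t, (f.coeffs : Set K) ⊆ Set.range s) :
    GrI (J.comap (map s : S k' ι →+* S K ι)) ∧ Fer m k' ι ≤ J.comap (map s : S k' ι →+* S K ι) ∧
      (J.comap (map s : S k' ι →+* S K ι)).map (map s : S k' ι →+* S K ι) = J := by
  classical
  refine ⟨fun d f hf => ?_, ?_, le_antisymm Ideal.map_comap_le ?_⟩
  · rw [Ideal.mem_comap] at hf ⊢
    have : map s (weightedHomogeneousComponent wt d f) =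
        weightedHomogeneousComponent wt d (map s f) := by
      ext e
      rw [coeff_map, coeff_weightedHomogeneousComponent, coeff_weightedHomogeneousComponent,
        coeff_map]
      split_ifs <;> simp
    rw [this]
    exact hJ d _ hf
  · refine Ideal.span_le.2 ?_
    rintro _ ⟨i, rfl⟩
    refine Ideal.mem_comap.2 (hF (Ideal.subset_span ⟨i, ?_⟩))
    simp [fer]
  · conv_lhs => rw [← ht]
    refine Ideal.span_le.2 fun f hf => ?_
    obtain ⟨g, hg⟩ := mem_range_map_iff_coeffs_subset.2 (hc f hf)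
    rw [← hg]
    refine Ideal.mem_map_of_mem _ (Ideal.mem_comap.2 ?_)
    rw [hg, ← ht]
    exact Ideal.subset_span hf

omit [NeZero m] [DecidableEq ι] in
theorem exists_finite_field {K : Type} [Field K] [Algebra k K] [Algebra.IsAlgebraic k K]
    {J J' : Ideal (S K ι)} (hJ : GrI J) (hF : Fer m K ι ≤ J) (hJ' : GrI J')
    (hF' : Fer m K ι ≤ J') : ∃ k' : IntermediateField k K, FiniteDimensional k k' ∧
      ∃ J₀ J₀' : Ideal (S k' ι), GrI J₀ ∧ Fer m k' ι ≤ J₀ ∧ GrI J₀' ∧ Fer m k' ι ≤ J₀' ∧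
        J₀.map (map (algebraMap k' K) : S k' ι →+* S K ι) = J ∧
        J₀'.map (map (algebraMap k' K) : S k' ι →+* S K ι) = J' := by
  classical
  obtain ⟨t, ht⟩ := (IsNoetherian.noetherian J : J.FG)
  obtain ⟨t', ht'⟩ := (IsNoetherian.noetherian J' : J'.FG)
  let c : Finset K := (t ∪ t').biUnion fun f => f.coeffs
  let k' : IntermediateField k K := IntermediateField.adjoin k (c : Set K)
  have hc : ∀ f ∈ t ∪ t', (f.coeffs : Set K) ⊆ Set.range (algebraMap k' K) := fun f hf x hx =>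
    ⟨⟨x, IntermediateField.subset_adjoin k _ (Finset.mem_biUnion.2 ⟨f, hf, hx⟩)⟩, rfl⟩
  obtain ⟨a1, a2, a3⟩ := desc_comap (algebraMap k' K) hJ hF ht
    fun f hf => hc f (Finset.mem_union_left _ hf)
  obtain ⟨b1, b2, b3⟩ := desc_comap (algebraMap k' K) hJ' hF' ht'
    fun f hf => hc f (Finset.mem_union_right _ hf)
  exact ⟨k', IntermediateField.finiteDimensional_adjoin
    fun x _ => Algebra.IsIntegral.isIntegral x, _, _, a1, a2, b1, b2, a3, b3⟩

omit [NeZero m] [DecidableEq ι] in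
theorem desc_cy {e : G m k ι →ₗ[ℂ] ℂ} {x : G m k ι} (h : e x ≠ 0) :
    ∃ (J : Ideal (S k ι)) (n : ι → ℤ), GrI J ∧ Fer m k ι ≤ J ∧ e (cy m J n) ≠ 0 := by
  by_contra hc
  push Not at hc
  refine h ?_
  clear h
  induction x using G.ind with
  | h1 M =>
    obtain ⟨n, P, s, h1, -, h3⟩ := dv M
    rw [h3, map_sum]
    exact Finset.sum_eq_zero fun i _ => hc _ _ (h1 i).1 (M.Fer_le_ann.trans (h1 i).2.2)
  | h0 => exact map_zero _
  | h2 x y a b => rw [map_add, a, b, add_zero]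
  | h3 c x a => rw [map_smul, a, smul_zero]

/-- a pair can be chosen among projections of cyclic modules -/
theorem HasPair.cyc [NeZero (m : k)] {ζ : Rt m k} {a : ι → Ch m} (h : HasPair ζ a) :
    ∃ (J J' : Ideal (S k ι)) (n n' : ι → ℤ), GrI J ∧ Fer m k ι ≤ J ∧ GrI J' ∧ Fer m k ι ≤ J' ∧
      prg (pr ζ a (cy m J n)) (pr ζ (-a) (cy m J' n')) ≠ 0 := by
  obtain ⟨x, hx, y, hy, hxy⟩ := h
  rw [← pr_of_mem hx, ← pr_of_mem hy] at hxy
  obtain ⟨J, n, h1, h2, h3⟩ := desc_cy (e := (prg.flip (pr ζ (-a) y)) ∘ₗ pr ζ a) (x := x) hxy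
  obtain ⟨J', n', h1', h2', h3'⟩ :=
    desc_cy (e := (prg (pr ζ a (cy m J n))) ∘ₗ pr ζ (-a)) (x := y) h3
  exact ⟨J, J', n, n', h1, h2, h1', h2', h3'⟩

variable [Fintype k] [NeZero (m : k)] {ζ : Rt m k}

theorem desc_fix {k' : Type} [Field k'] [Algebra k k'] [FiniteDimensional k k']
    [NeZero (m : k')] {ζ' : Rt m k'} (h' : ζ'.1 = algebraMap k k' ζ.1) {a : ι → Ch m}
    (ha : ∀ i, Nd (a i)) {e : ℤ} (he : ∏ i, -Jac ζ.1 (a i) = (Fintype.card k : ℂ) ^ e)
    {x y : G m k' ι} (hx : x ∈ Ga ζ' a) (hy : y ∈ Ga ζ' (-a)) (h : prg x y ≠ 0) :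
    bcG k' (resG (algebraMap k k') x) = (Module.finrank k k' : ℂ) • x := by
  classical
  obtain ⟨p, hp⟩ := CharP.exists k
  obtain ⟨f, hpp, hf⟩ := FiniteField.card k p
  have : Fact p.Prime := ⟨hpp⟩
  have : CharP k' p := charP_of_injective_ringHom (algebraMap k k').injective p
  have : Finite k' := Module.finite_of_finite k
  let σ := FiniteField.frobeniusAlgEquivOfAlgebraic k k'
  have fin : ∀ τ : k' ≃ₐ[k] k', (τ : k' →+* k').Finite := fun τ =>
    RingHom.Finite.of_surjective _ τ.surjective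
  have hx0 : x ≠ 0 := fun h0 => h (by rw [h0, map_zero, LinearMap.zero_apply])
  have hmem : resG (σ : k' →+* k') x ∈ Ga ζ' a := by
    rw [← pr_of_mem hx, resG_pr (fin σ) (ζ := ζ') (by rw [h']; exact (σ.commutes _).symm)]
    exact pr_mem _ _
  obtain ⟨c, hc⟩ := nd_span p ha hx hy h hmem
  have hfr := fr_Ga p (algebraMap k k') h' hf ha hx 1
  rw [mul_one, pow_one, he] at hfr
  have hq := qlike_fr_res (m := m) (ι := ι) p (f := f) (s := (σ : k' →+* k')) σ.bijective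
    fun b => by rw [← hf]; rfl
  obtain ⟨i, -, hi⟩ := hq.eigen (NeZero.ne m) (pow_pos hpp.pos _) hx0
    (c := c * (Fintype.card k : ℂ) ^ e) (by
      rw [Module.End.mul_apply, hc, map_smul, hfr, smul_smul])
  have hpow : ∀ n : ℕ, resG ((σ ^ n : k' ≃ₐ[k] k') : k' →+* k') x = c ^ n • x := by
    intro n
    induction n with
    | zero => rw [pow_zero, pow_zero, one_smul]; exact resG_id x
    | succ n ih =>
      have : ((σ ^ (n + 1) : k' ≃ₐ[k] k') : k' →+* k') =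
          (σ : k' →+* k').comp ((σ ^ n : k' ≃ₐ[k] k') : k' →+* k') := by
        rw [pow_succ']; rfl
      rw [this, ← resG_comp (fin _) (fin _), hc, map_smul, ih, smul_smul, pow_succ']
  have hN : c ^ Module.finrank k k' = 1 := by
    have h1 := hpow (Module.finrank k k')
    rw [← FiniteField.orderOf_frobeniusAlgEquivOfAlgebraic k k', pow_orderOf_eq_one] at h1
    have h2 : x = c ^ orderOf σ • x := (resG_id x).symm.trans h1
    rw [← FiniteField.orderOf_frobeniusAlgEquivOfAlgebraic k k']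
    have h3 : (c ^ orderOf σ - 1) • x = 0 := by rw [sub_smul, ← h2, one_smul, sub_self]
    exact sub_eq_zero.1 ((smul_eq_zero.1 h3).resolve_right hx0)
  have hq0 : (0 : ℝ) < Fintype.card k := Nat.cast_pos.2 Fintype.card_pos
  have hc1 : c = 1 := by
    have h1 : c = (((Fintype.card k : ℝ) ^ ((i : ℤ) - e) : ℝ) : ℂ) := by
      have h0 : (Fintype.card k : ℂ) ≠ 0 := Nat.cast_ne_zero.2 Fintype.card_ne_zero
      rw [← hf] at hi
      push_cast
      rw [zpow_sub₀ h0, zpow_natCast, ← hi, mul_div_cancel_right₀ _ (zpow_ne_zero _ h0)]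
    rw [h1] at hN ⊢
    have h2 : ((Fintype.card k : ℝ) ^ ((i : ℤ) - e)) ^ Module.finrank k k' = 1 := by
      exact_mod_cast hN
    rw [(pow_eq_one_iff_of_nonneg (zpow_pos hq0 _).le Module.finrank_pos.ne').1 h2]
    rfl
  rw [bcG_resG, Finset.sum_congr rfl (g := fun _ => x) fun τ _ => ?_, Finset.sum_const,
    Finset.card_univ, ← Nat.card_eq_fintype_card, IsGalois.card_aut_eq_finrank, Nat.cast_smul_eq_nsmul]
  obtain ⟨n, rfl⟩ := (FiniteField.bijective_frobeniusAlgEquivOfAlgebraic_pow k k').2 τ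
  rw [hpow, hc1, one_pow, one_smul]

theorem desc_finite {k' : Type} [Field k'] [Algebra k k'] [FiniteDimensional k k']
    [NeZero (m : k')] {ζ' : Rt m k'} (h' : ζ'.1 = algebraMap k k' ζ.1) {a : ι → Ch m}
    (ha : ∀ i, Nd (a i)) {e : ℤ} (he : ∏ i, -Jac ζ.1 (a i) = (Fintype.card k : ℂ) ^ e)
    (h : HasPair ζ' a) : HasPair ζ a := by
  obtain ⟨x, hx, y, hy, hxy⟩ := h
  have h0 : (Fintype.card k : ℂ) ≠ 0 := Nat.cast_ne_zero.2 Fintype.card_ne_zero
  have ha' : ∀ i, Nd ((-a) i) := fun i => by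
    obtain ⟨h1, h2, h3⟩ := ha i
    refine ⟨neg_ne_zero.2 h1, neg_ne_zero.2 h2, fun h4 => h3 ?_⟩
    rw [← neg_eq_zero, neg_add]
    exact h4
  have he' : ∏ i, -Jac ζ.1 ((-a) i) = (Fintype.card k : ℂ) ^ ((Fintype.card ι : ℤ) - e) := by
    rw [zpow_sub₀ h0, eq_div_iff (zpow_ne_zero _ h0), ← he, ← Finset.prod_mul_distrib,
      zpow_natCast, ← Finset.card_univ (α := ι), ← Finset.prod_const]
    refine Finset.prod_congr rfl fun i _ => ?_
    rw [neg_mul_neg, mul_comm]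
    exact Jac_mul ζ.2 (ha i)
  have e1 := desc_fix h' ha he hx hy hxy
  have e2 := desc_fix h' ha' he' hy (by rwa [neg_neg]) (by rwa [prg_comm])
  have fin : (algebraMap k k').Finite := RingHom.finite_algebraMap.2 inferInstance
  refine ⟨resG (algebraMap k k') x, ?_, resG (algebraMap k k') y, ?_, ?_⟩
  · rw [← pr_of_mem hx, resG_pr fin h']
    exact pr_mem _ _
  · rw [← pr_of_mem hy, resG_pr fin h']
    exact pr_mem _ _
  · have hN : (Module.finrank k k' : ℂ) ≠ 0 := Nat.cast_ne_zero.2 Module.finrank_pos.ne'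
    rw [← prg_bcG (k' := k'), e1, e2, map_smul, map_smul, LinearMap.smul_apply]
    exact smul_ne_zero hN (smul_ne_zero hN hxy)

theorem desc {K : Type} [Field K] [Algebra k K] [Algebra.IsAlgebraic k K] [NeZero (m : K)]
    {ζ' : Rt m K} (h' : ζ'.1 = algebraMap k K ζ.1) {a : ι → Ch m} (ha : ∀ i, Nd (a i)) {e : ℤ}
    (he : ∏ i, -Jac ζ.1 (a i) = (Fintype.card k : ℂ) ^ e) (h : HasPair ζ' a) : HasPair ζ a := by
  obtain ⟨J, J', n, n', h1, h2, h3, h4, h5⟩ := h.cyc
  obtain ⟨k', hfd, J₀, J₀', a1, a2, a3, a4, rfl, rfl⟩ := exists_finite_field (k := k) h1 h2 h3 h4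
  obtain ⟨ζ₀, hζ₀⟩ := exists_rt (algebraMap k k') ζ.2
  have : NeZero (m : k') := ⟨ζ₀.ne⟩
  have hz : ζ'.1 = algebraMap k' K ζ₀.1 := by
    rw [h', hζ₀, ← IsScalarTower.algebraMap_apply]
  rw [← bcG_cy a1 a2, ← bcG_cy a3 a4, ← bcG_pr hz, ← bcG_pr hz, prg_bcG] at h5
  exact desc_finite hζ₀ ha he ⟨_, pr_mem _ _, _, pr_mem _ _, h5⟩

end Pool.Agent.Tate
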