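import Pool.Agent.P.MP_2ce3e7_ag.ES0
import Pool.Agent.P.MP_2ce3e7_ag.CPG2
import Pool.Agent.P.MP_2ce3e7_ag.CPB2
import Pool.Agent.P.MP_2ce3e7_ag.CWO
import Pool.Agent.P.MP_2ce3e7_ag.CPE
import Pool.Agent.P.MP_2ce3e7_ag.DL6

/-! Basic definitions for the trace formula. -/

set_option linter.unusedSectionVars false
set_option linter.unusedVariables false

open Function Filter
open scoped TensorProduct Polynomial

noncomputable section

namespace Pool.Agent.CXD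

section
variable {D Γ τ : Type} [CommRing D] [AddCommGroup Γ]

theorem hm_id (𝒟 : Γ → Set D) : Hm (RingHom.id D) 𝒟 𝒟 (AddMonoidHom.id Γ) :=
  ⟨injective_id, fun _ _ ha => mem_cl ha⟩

variable {𝒟 : Γ → Set D}

/-- the tensor product of two graded modules -/
abbrev tid [Gd 𝒟] (V Y : GM 𝒟) : GM 𝒟 := tens (hm_id 𝒟) V Y

/-- finite modules have finite resolutions by modules that are projective outside the zero set
of `s` -/
def Rgl (𝒟 : Γ → Set D) (s : τ → D) : Prop :=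
  ∃ (𝒬 : ℕ → GM 𝒟 → Prop) (g : ℕ), Rsv 𝒬 g ∧ ∀ M, 𝒬 0 M ↔ QL s M

/-- the higher Tor modules are supported on the zero set of `S` -/
def Tn (S : Set D) (N : Type) [AddCommGroup N] [Module D N] :
    ℕ → (M : Type) → [AddCommGroup M] → [Module D M] → Prop
  | 0, _, _, _ => True
  | n + 1, M, _, _ => ∀ (K F : Type) [AddCommGroup K] [Module D K] [AddCommGroup F] [Module D F]
      (f : K →ₗ[D] F) (g : F →ₗ[D] M), Module.Flat D F → Sx f g →
        (∀ ξ : N ⊗[D] K, f.lTensor N ξ = 0 → ∀ s ∈ S, ∃ m : ℕ, s ^ m • ξ = 0) ∧ Tn S N n K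

end

variable (k : Type) {A σ : Type} [Field k] [CommRing A] [Algebra k A] {𝒜 : ℤ → Set A}

/-- the Euler characteristic -/
def chi (M : GM 𝒜) : ℚ := (hpol k M).eval 0

/-- the products of coordinates -/
def zz (z : σ → A) (p : σ × σ) : A ⊗[k] A := z p.1 ⊗ₜ z p.2

/-- the equations of the graph of the Frobenius map -/
def gI (z : σ → A) (m : ℕ) : Ideal (A ⊗[k] A) :=
  Ideal.span (Set.range fun p : σ × σ => (z p.1 ^ m) ⊗ₜ[k] z p.2 - (z p.2 ^ m) ⊗ₜ[k] z p.1)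

/-- the equations of the fixed points -/
def fI (z : σ → A) (m : ℕ) : Ideal A :=
  Ideal.span (Set.range fun p : σ × σ => z p.1 ^ m * z p.2 - z p.2 ^ m * z p.1)

/-- the points with coordinates in the field with `m` elements -/
def Fx (z : σ → A) (m : ℕ) : Type :=
  {x : A →ₐ[k] AlgebraicClosure k // (∀ i, x (z i) ^ m = x (z i)) ∧ ∃ i, x (z i) ≠ 0}

/-- the Grothendieck group of `Proj A` -/
abbrev G1 (𝒜 : ℤ → Set A) (z : σ → A) : Type 1 := UG 𝒜 (Set.range z)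

/-- the Grothendieck group of the product -/
abbrev G2 (𝒜 : ℤ → Set A) (z : σ → A) : Type 1 := UG (tg k 𝒜 𝒜) (Set.range (zz k z))

/-- the classes of dimension less than `j` -/
def dimF (𝒜 : ℤ → Set A) (z : σ → A) (j : ℕ) : Submodule ℚ (G1 𝒜 z) :=
  Submodule.span ℚ {u | ∃ M : GM 𝒜, Module.Finite A M.M ∧ (hpol k M).degree < j ∧ u = ucl _ M}

variable [Gd 𝒜]

/-- the Euler characteristic on the product -/
def chi2 (Y : GM (tg k 𝒜 𝒜)) : ℚ := sv (chi k) Y

/-- `β` is the Euler pairing -/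
structure IsB (z : σ → A) (β : G1 𝒜 z →ₗ[ℚ] G1 𝒜 z →ₗ[ℚ] ℚ) : Prop where
  val : ∀ M V : GM 𝒜, Module.Finite A M.M → QL z V → β (ucl _ M) (ucl _ V) = chi k (tid V M)
  symm : ∀ u v, β u v = β v u

/-- `bx` is the exterior product -/
def IsX [Gk k 𝒜] (z : σ → A) (bx : G1 𝒜 z →ₗ[ℚ] G1 𝒜 z →ₗ[ℚ] G2 k 𝒜 z) : Prop :=
  ∀ W M : GM 𝒜, Module.Finite A W.M → Module.Finite A M.M →
    bx (ucl _ W) (ucl _ M) = ucl _ (gbox k W M)

variable [Fintype k]

/-- the Frobenius map on graded modules -/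
abbrev ver1 (M : GM 𝒜) : GM 𝒜 := res (hm_frb (k := k) card_smul_eq_zero) 0 M

/-- `T` is the push-forward along the Frobenius map -/
def IsT1 (z : σ → A) (T : Module.End ℚ (G1 𝒜 z)) : Prop :=
  ∀ M : GM 𝒜, Module.Finite A M.M → T (ucl _ M) = ucl _ (ver1 k M)

/-- `T` is the push-forward along the Frobenius map of the second factor -/
def IsT2 (z : σ → A) (T : Module.End ℚ (G2 k 𝒜 z)) : Prop :=
  ∀ Y : GM (tg k 𝒜 𝒜), Module.Finite (A ⊗[k] A) Y.M → T (ucl _ Y) = ucl _ (verF k 𝒜 𝒜 Y)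

end Pool.Agent.CXD
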