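import Pool.Agent.P.MP_2ce3e7_ag.EA0

attribute [local instance] Pool.Agent.CXD.instAddCommGroupCp Pool.Agent.CXD.instModuleCp

/-! The Hilbert polynomial. -/

set_option linter.unusedSectionVars false
set_option linter.unusedVariables false

open Function Filter
open scoped TensorProduct Polynomial LaurentPolynomial

noncomputable section

namespace Pool.Agent.CXD

variable {k A σ : Type} [Field k] [CommRing A] [Algebra k A] [Fintype σ] {𝒜 : ℤ → Set A}
  {z : σ → A} {θ : A →ₐ[k] A[T;T⁻¹]} [Gd 𝒜] [Gk k 𝒜] [IsNoetherianRing A]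
  {M N P : GM 𝒜}

theorem dz_EA1 (h : Std 𝒜 z θ) : Dz (algebraMap k A) 𝒜 := by
  refine ⟨fun a => mem_cl (Gk.alg a), fun c => ?_⟩
  obtain ⟨ι, _, E, hE⟩ := h.fin_piece c
  refine ⟨ι, inferInstance, E, fun a ha => ?_⟩
  obtain ⟨b, hb⟩ := hE a ha
  exact ⟨b, by simpa only [Algebra.smul_def] using hb⟩

theorem dim_EA1 (hD : Dz (algebraMap k A) 𝒜) (M : GM 𝒜) (t : ℤ) :
    dimK k A (Set.range (M.π t)) = Module.finrank k (prt hD M t) := by
  have e : (Set.range (M.π t) : Set (Cp (algebraMap k A) M.M)) = (prt hD M t : Set _) := by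
    ext x
    constructor
    · rintro ⟨y, rfl⟩
      exact M.π_self t y
    · intro hx
      exact ⟨x, hx⟩
  have e2 : Submodule.span k (Set.range (M.π t) : Set (Cp (algebraMap k A) M.M)) = prt hD M t := by
    rw [e, Submodule.span_eq]
  rw [← e2]
  rfl

theorem Std.dim_add (h : Std 𝒜 z θ) (t : ℤ) :
    GAdd fun M : GM 𝒜 => (dimK k A (Set.range (M.π t)) : ℚ) := by
  rintro M N P hN ⟨f, g, hf, hg, hs⟩
  have hD := dz_EA1 h
  obtain ⟨h1, h2, h3⟩ := sx_prt (h := hD) hf hg hs t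
  have := prt_finite hD hN t
  simp only [dim_EA1 hD]
  have h4 := LinearMap.finrank_range_add_finrank_ker (slg hD (d := t) g fun _ => hg.hom)
  rw [h3.linearMap_ker_eq, LinearMap.finrank_range_of_inj h1, LinearMap.range_eq_top.2 h2,
    finrank_top] at h4
  rw [← h4]
  push_cast
  ring

theorem dim_zero_EA1 (h : Std 𝒜 z θ) {t : ℤ} (h0 : M.π t = 0) :
    dimK k A (Set.range (M.π t)) = 0 := by
  have hD := dz_EA1 h
  rw [dim_EA1 hD]
  have := prt_sub (h := hD) (M := M) (d := t) fun x => by rw [h0]; rfl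
  exact Module.finrank_zero_of_subsingleton

theorem nil_ev_EA1 (h : Std 𝒜 z θ) (hM : Module.Finite A M.M) (hn : Nil (Set.range z) M.M) :
    ∀ᶠ t : ℤ in atTop, (dimK k A (Set.range (M.π t)) : ℚ) = (0 : ℚ[X]).eval (t : ℚ) :=
  (h.tors hM hn).mono fun t ht => by rw [dim_zero_EA1 h ht]; simp

theorem Std.hpol_spec (h : Std 𝒜 z θ) (hM : Module.Finite A M.M) :
    ∀ᶠ t : ℤ in atTop, (dimK k A (Set.range (M.π t)) : ℚ) = (hpol k M).eval (t : ℚ) := by
  have h1 : (fun t : ℤ => (dimK k A (Set.range (M.π t)) : ℚ)) ∈ PF atTop := by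
    refine hilb itg_atTop (fun t M => (dimK k A (Set.range (M.π t)) : ℚ)) h.dim_add (u := 1) ?_
      (Z := Set.range z) (Set.finite_range z) ?_ ?_ M hM
    · intro t M _
      have e : (M.shift (-1)).π (t + 1) = M.π t := by
        change M.π (-1 + (t + 1)) = M.π t
        rw [neg_add_cancel_comm_assoc]
      change (dimK k A (Set.range ((M.shift (-1)).π (t + 1))) : ℚ) = _
      rw [e]
    · rintro _ ⟨i, rfl⟩
      exact mem_cl (h.deg i)
    · intro M hM h0
      exact ⟨0, nil_ev_EA1 h hM fun f hf x => ⟨1, by rw [pow_one, h0 f hf]⟩⟩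
  obtain ⟨p, hp⟩ := h1
  have e : hpol k M = p := hp_eq hp
  rw [e]
  exact hp

theorem Std.hpol_ses (h : Std 𝒜 z θ) (hN : Module.Finite A N.M) (hs : Ses M N P) :
    hpol k N = hpol k M + hpol k P := by
  obtain ⟨hM, hP⟩ := fin_CWM hN hs
  refine hp_eq (((h.hpol_spec hM).and (h.hpol_spec hP)).mono fun t ht => ?_)
  rw [Polynomial.eval_add, ← ht.1, ← ht.2]
  exact h.dim_add t M N P hN hs

theorem Std.hpol_nil (h : Std 𝒜 z θ) (hM : Module.Finite A M.M) (hn : Nil (Set.range z) M.M) :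
    hpol k M = 0 := hp_eq (nil_ev_EA1 h hM hn)

theorem Std.nil_of_hpol (h : Std 𝒜 z θ) (hM : Module.Finite A M.M) (h0 : hpol k M = 0) :
    Nil (Set.range z) M.M := by
  have hD := dz_EA1 h
  obtain ⟨t₀, ht₀⟩ := eventually_atTop.1 (h.hpol_spec hM)
  have h1 : ∀ t, t₀ ≤ t → ∀ x, M.π t x = x → x = 0 := by
    intro t ht x hx
    have h2 := ht₀ t ht
    rw [h0, Polynomial.eval_zero, Nat.cast_eq_zero, dim_EA1 hD] at h2
    have := prt_finite hD hM t
    have h3 := Module.finrank_zero_iff.1 h2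
    obtain ⟨y, rfl⟩ := exists_pv hD hx
    rw [Subsingleton.elim y 0, map_zero]
  rintro _ ⟨i, rfl⟩ x
  induction x using GM.ind with
  | h0 => exact ⟨0, smul_zero _⟩
  | h1 d x hx =>
    refine ⟨(t₀ - d).toNat, h1 _ ?_ _ (GM.hom_smul (pow_mem_CWL h i _) hx)⟩
    omega
  | h2 x y hx hy =>
    obtain ⟨m, hm⟩ := hx
    obtain ⟨n, hn⟩ := hy
    refine ⟨m + n, ?_⟩
    rw [smul_add, pow_add, mul_smul, mul_smul, hn, smul_comm, hm, smul_zero, smul_zero, add_zero]

theorem Std.gadd_coeff (h : Std 𝒜 z θ) (j : ℕ) : GAdd fun M : GM 𝒜 => (hpol k M).coeff j := by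
  intro M N P hN hs
  change (hpol k N).coeff j = (hpol k M).coeff j + (hpol k P).coeff j
  rw [h.hpol_ses hN hs, Polynomial.coeff_add]

theorem Std.vn_coeff (h : Std 𝒜 z θ) (j : ℕ) :
    VnG ⊥ (Set.range z) fun M : GM 𝒜 => (hpol k M).coeff j := by
  intro M hM _ hn
  change (hpol k M).coeff j = 0
  rw [h.hpol_nil hM hn, Polynomial.coeff_zero]

theorem Std.gadd_chi (h : Std 𝒜 z θ) : GAdd (chi k (𝒜 := 𝒜)) := by
  intro M N P hN hs
  rw [chi, chi, chi, h.hpol_ses hN hs, Polynomial.eval_add]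

theorem Std.vn_chi (h : Std 𝒜 z θ) : VnG ⊥ (Set.range z) (chi k (𝒜 := 𝒜)) := by
  intro M hM _ hn
  rw [chi, h.hpol_nil hM hn, Polynomial.eval_zero]

end Pool.Agent.CXD
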