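import Pool.Agent.P.MP_2ce3e7_ag.EA1

attribute [local instance] Pool.Agent.CXD.instAddCommGroupCp Pool.Agent.CXD.instModuleCp

/-! The degree of the Hilbert polynomial. -/

set_option linter.unusedSectionVars false
set_option linter.unusedVariables false

open Function Filter
open scoped TensorProduct Polynomial LaurentPolynomial

noncomputable section

namespace Pool.Agent.CXD

variable {k A σ : Type} [Field k] [CommRing A] [Algebra k A] [Fintype σ] {𝒜 : ℤ → Set A}
  {z : σ → A} {θ : A →ₐ[k] A[T;T⁻¹]} [Gd 𝒜] [Gk k 𝒜] [IsNoetherianRing A]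
  {M N P : GM 𝒜}

theorem lc_nonneg_EA1B {p : ℚ[X]} (hp : ∀ᶠ t : ℤ in atTop, 0 ≤ p.eval (t : ℚ)) :
    0 ≤ p.leadingCoeff := by
  by_contra hlt
  rcases le_or_gt p.degree 0 with hd | hd
  · obtain ⟨t, ht⟩ := hp.exists
    rw [Polynomial.eq_C_of_degree_le_zero hd, Polynomial.eval_C] at ht
    rw [Polynomial.eq_C_of_degree_le_zero hd, Polynomial.leadingCoeff_C] at hlt
    exact hlt ht
  · have h1 := (Polynomial.tendsto_atBot_of_leadingCoeff_nonpos p hd (not_le.1 hlt).le).comp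
      (tendsto_intCast_atTop_atTop (R := ℚ))
    obtain ⟨t, ht1, ht2⟩ := (hp.and (h1.eventually (eventually_lt_atBot 0))).exists
    exact absurd ht1 (not_le.2 ht2)

theorem degree_le_add {p q : ℚ[X]} (hp : ∀ᶠ t : ℤ in atTop, 0 ≤ p.eval (t : ℚ))
    (hq : ∀ᶠ t : ℤ in atTop, 0 ≤ q.eval (t : ℚ)) : p.degree ≤ (p + q).degree := by
  by_cases h0 : p = 0
  · rw [h0, Polynomial.degree_zero]; exact bot_le
  · have h1 : 0 < p.leadingCoeff :=
      (lc_nonneg_EA1B hp).lt_of_ne' (Polynomial.leadingCoeff_ne_zero.2 h0)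
    have h2 := lc_nonneg_EA1B hq
    rw [Polynomial.degree_add_eq_of_leadingCoeff_add_ne_zero (by linarith)]
    exact le_max_left _ _

theorem Std.nonneg_EA1B (h : Std 𝒜 z θ) (hM : Module.Finite A M.M) :
    ∀ᶠ t : ℤ in atTop, 0 ≤ (hpol k M).eval (t : ℚ) :=
  (h.hpol_spec hM).mono fun t ht => by rw [← ht]; exact Nat.cast_nonneg _

theorem Std.deg_ses (h : Std 𝒜 z θ) (hN : Module.Finite A N.M) (hs : Ses M N P) :
    (hpol k M).degree ≤ (hpol k N).degree ∧ (hpol k P).degree ≤ (hpol k N).degree := by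
  obtain ⟨hM, hP⟩ := fin_CWM hN hs
  rw [h.hpol_ses hN hs]
  refine ⟨degree_le_add (h.nonneg_EA1B hM) (h.nonneg_EA1B hP), ?_⟩
  rw [add_comm]
  exact degree_le_add (h.nonneg_EA1B hP) (h.nonneg_EA1B hM)

theorem Std.hpol_shift (h : Std 𝒜 z θ) (hM : Module.Finite A M.M) (c : ℤ) :
    hpol k (M.shift c) = (hpol k M).comp (Polynomial.X + Polynomial.C (c : ℚ)) := by
  refine hp_eq (((tendsto_atTop_add_const_left atTop c tendsto_id).eventually
    (h.hpol_spec hM)).mono fun t ht => ?_)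
  refine Eq.trans ht ?_
  simp [add_comm]

theorem Std.dz_EA1B (h : Std 𝒜 z θ) : Dz (algebraMap k A) 𝒜 :=
  ⟨fun a => mem_cl (Gk.alg a), fun c => by
    obtain ⟨ι, _, E, hE⟩ := h.fin_piece c
    refine ⟨ι, inferInstance, E, fun a ha => (hE a ha).imp fun b hb => ?_⟩
    rw [hb]
    exact Finset.sum_congr rfl fun i _ => Algebra.smul_def _ _⟩

theorem dim_prt_EA1B (hD : Dz (algebraMap k A) 𝒜) (M : GM 𝒜) (t : ℤ) :
    dimK k A (Set.range (M.π t)) = Module.finrank k (prt hD M t) := by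
  have e : (Set.range (M.π t) : Set (Cp (algebraMap k A) M.M)) = prt hD M t := by
    ext x
    exact ⟨fun ⟨y, hy⟩ => hy ▸ M.π_self t y, fun hx => ⟨x, hx⟩⟩
  have e2 : Submodule.span k (M := Cp (algebraMap k A) M.M) (Set.range (M.π t)) = prt hD M t := by
    rw [e]; exact Submodule.span_eq _
  rw [← e2]
  rfl

theorem Std.hpol_ver [Fintype k] (h : Std 𝒜 z θ) (hM : Module.Finite A M.M) :
    hpol k (ver1 k M) = (hpol k M).comp (Polynomial.C (Fintype.card k : ℚ) * Polynomial.X) := by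
  obtain ⟨j, hj⟩ := isRes_ver (hm_frb (k := k) (ℬ := 𝒜) card_smul_eq_zero) M
  have h2 : Tendsto (fun t : ℤ => (Fintype.card k : ℤ) * t) atTop atTop :=
    Tendsto.const_mul_atTop' (by exact_mod_cast Fintype.card_pos) tendsto_id
  refine hp_eq ((h2.eventually (h.hpol_spec hM)).mono fun t ht => ?_)
  obtain ⟨E, hE1, hE2, -⟩ := prt_res (h := h.dz_EA1B) (d := (Fintype.card k : ℤ) * t) h.dz_EA1B
    (φ := RingHom.id k) (RingHom.ext fun a => (FiniteField.frobeniusAlgHom k A).commutes a) hj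
    (c := t) (by simp)
  let E' : prt h.dz_EA1B (ver1 k M) t →ₗ[k] prt h.dz_EA1B M ((Fintype.card k : ℤ) * t) :=
    ⟨E.toAddHom, hE2⟩
  rw [dim_prt_EA1B h.dz_EA1B, (LinearEquiv.ofBijective E' hE1).finrank_eq,
    ← dim_prt_EA1B h.dz_EA1B, ht]
  simp

/-- the dimension drops on a proper closed subset -/
theorem Std.deg_lt (h : Std 𝒜 z θ) {C C' : GM 𝒜} {p p' : Ideal A} (hp : p.IsPrime)
    (hp' : p'.IsPrime) (hlt : p < p') (hC : Cyc C p) (hC' : Cyc C' p') {j : ℕ}
    (hj : (hpol k C).degree < (j + 1 : ℕ)) : (hpol k C').degree < j := by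
  obtain ⟨a, ha', c, ha, hap⟩ : ∃ a ∈ p', ∃ c, a ∈ cl 𝒜 c ∧ a ∉ p := by
    by_contra hne
    refine hlt.not_ge fun b hb => ?_
    have h1 : AddSubgroup.closure {b | b ∈ p' ∧ ∃ c, b ∈ cl 𝒜 c} ≤ p.toAddSubgroup :=
      (AddSubgroup.closure_le _).2 fun y hy => by
        by_contra hy'
        obtain ⟨c, hc⟩ := hy.2
        exact hne ⟨y, hy.1, c, hc, hy'⟩
    exact h1 (hC'.hom hb)
  have hF := hC.finite
  obtain ⟨d, x, hx, hsp, hann⟩ := hC
  obtain ⟨d', x', hx', hsp', hann'⟩ := hC'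
  have hgen : ∀ y : C.M, ∃ b : A, b • x = y := fun y =>
    Submodule.mem_span_singleton.1 (by rw [hsp]; trivial)
  have hst := (isG_lsmul (M := C) ha).range
  have hinj : Injective (LinearMap.lsmul A C.M a) := by
    refine (injective_iff_map_eq_zero _).2 fun y hy => ?_
    obtain ⟨b, rfl⟩ := hgen y
    have h1 : (a * b) • x = 0 := by rw [mul_smul]; exact hy
    exact (hann b).2 ((hp.mem_or_mem ((hann _).1 h1)).resolve_left hap)
  have hs : Ses (C.shift (-c)) C (C.quo _ hst) :=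
    ⟨LinearMap.lsmul A C.M a, Submodule.mkQ _, isG_lsmul ha, isG_mkQ hst, hinj,
      Submodule.mkQ_surjective _, LinearMap.exact_map_mkQ_range _⟩
  have hQF : Module.Finite A (C.quo _ hst).M := (fin_CWM hF hs).2
  have hdQ : (hpol k (C.quo _ hst)).degree < j := by
    have e : hpol k (C.quo _ hst) =
        hpol k C - Polynomial.taylor ((-c : ℤ) : ℚ) (hpol k C) := by
      have h1 := h.hpol_ses hF hs
      rw [h.hpol_shift hF, ← Polynomial.taylor_apply] at h1
      exact eq_sub_of_add_eq' h1.symm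
    rw [e]
    by_cases h0 : hpol k C = 0
    · rw [h0, map_zero, sub_zero, Polynomial.degree_zero]
      exact WithBot.bot_lt_coe j
    · have h1 := Polynomial.degree_sub_lt_left (Polynomial.degree_taylor _ ((-c : ℤ) : ℚ)).symm h0
        (Polynomial.leadingCoeff_taylor _ _).symm
      refine h1.trans_le ?_
      rw [Polynomial.degree_eq_natDegree h0] at hj ⊢
      have h2 : (hpol k C).natDegree < j + 1 := by exact_mod_cast hj
      exact_mod_cast Nat.lt_succ_iff.1 h2
  have hcy : Cy ((C.quo _ hst).shift d) (Submodule.mkQ _ x)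
      (LinearMap.ker (LinearMap.toSpanSingleton A (C.quo _ hst).M (Submodule.mkQ _ x))) := by
    refine ⟨?_, ?_, fun b => Iff.rfl⟩
    · change (C.quo _ hst).π (d + 0) (Submodule.mkQ _ x) = _
      rw [add_zero, quo_π, hx]
    · refine eq_top_iff.2 fun y _ => ?_
      obtain ⟨y, rfl⟩ := Submodule.mkQ_surjective _ y
      obtain ⟨b, rfl⟩ := hgen y
      exact Submodule.mem_span_singleton.2 ⟨b, (map_smul _ _ _).symm⟩
  obtain ⟨f, hf1, hf2⟩ := hcy.lift hx' fun b hb => by
    have h1 : Submodule.mkQ (LinearMap.range (LinearMap.lsmul A C.M a)) (b • x) = 0 := by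
      rw [map_smul]; exact hb
    obtain ⟨y, hy⟩ := (Submodule.Quotient.mk_eq_zero _).1 h1
    obtain ⟨b', rfl⟩ := hgen y
    have h2 : (b - a * b') • x = 0 := by
      rw [sub_smul, mul_smul, ← hy]; exact sub_self _
    have h3 := p'.add_mem (hlt.le ((hann _).1 h2)) (p'.mul_mem_right b' ha')
    rw [sub_add_cancel] at h3
    exact (hann' b).2 h3
  have hsur : Surjective f := fun y => by
    obtain ⟨b, rfl⟩ : ∃ b : A, b • x' = y :=
      Submodule.mem_span_singleton.1 (by rw [hsp']; trivial)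
    exact ⟨_, hf2 b⟩
  have h3 := (h.deg_ses (N := ((C.quo _ hst).shift d).shift (-d')) hQF (ses_ker hf1 hsur)).2
  rw [h.hpol_shift (M := (C.quo _ hst).shift d) hQF, h.hpol_shift hQF, ← Polynomial.taylor_apply,
    ← Polynomial.taylor_apply, Polynomial.degree_taylor, Polynomial.degree_taylor] at h3
  exact h3.trans_lt hdQ

end Pool.Agent.CXD
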