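import Pool.Agent.P.MP_2ce3e7_ag.EA1

/-! The Euler pairing. -/

set_option linter.unusedSectionVars false
set_option linter.unusedVariables false

open Function Filter
open scoped TensorProduct Polynomial LaurentPolynomial

noncomputable section

namespace Pool.Agent.CXD

variable {k A σ : Type} [Field k] [CommRing A] [Algebra k A] [Fintype σ] {𝒜 : ℤ → Set A}
  {z : σ → A} {θ : A →ₐ[k] A[T;T⁻¹]} [Gd 𝒜] [Gk k 𝒜] [IsNoetherianRing A]
  {M V : GM 𝒜}

omit [IsNoetherianRing A] in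
theorem dimK_EA2 {X Y : Type} [AddCommGroup X] [Module A X] [AddCommGroup Y] [Module A Y]
    (e : X →ₗ[A] Y) (he : Injective e) {S : Set X} {T : Set Y}
    (h1 : ∀ x ∈ S, e x ∈ AddSubgroup.closure T) (h2 : T ⊆ e '' S) : dimK k A S = dimK k A T := by
  let _ := Module.compHom X (algebraMap k A)
  let _ := Module.compHom Y (algebraMap k A)
  let e' : X →ₗ[k] Y :=
    { toFun := e, map_add' := map_add e, map_smul' := fun c x => e.map_smul (algebraMap k A c) x }
  have h3 : (Submodule.span k S).map e' = Submodule.span k T := by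
    rw [Submodule.map_span]
    refine le_antisymm (Submodule.span_le.2 ?_) (Submodule.span_mono h2)
    rintro _ ⟨x, hx, rfl⟩
    exact (AddSubgroup.closure_le (Submodule.span k T).toAddSubgroup).2 Submodule.subset_span
      (h1 x hx)
  show Module.finrank k (Submodule.span k S) = Module.finrank k (Submodule.span k T)
  rw [← h3]
  exact (Submodule.equivMapOfInjective e' he _).finrank_eq

omit [IsNoetherianRing A] [Gk k 𝒜] in
theorem pair_eq (M V : GM 𝒜) : pair k M V = chi k (tid V M) := by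
  obtain ⟨e, he⟩ := lin_CPB2 (hm_id 𝒜) (V := V) (Y := M) (X := M.M ⊗[A] V.M) (fun y v => y ⊗ₜ v)
    (fun y y' v => TensorProduct.add_tmul _ _ _) (fun y v v' => TensorProduct.tmul_add _ _ _)
    (fun a y v => TensorProduct.smul_tmul a y v) fun r y v => rfl
  let g : M.M ⊗[A] V.M →+ (tid V M).M := TensorProduct.liftAddHom (tt (hm_id 𝒜) V M)
    fun a y v => tt_bal (h := hm_id 𝒜) a y v
  have hg : ∀ x, g (e x) = x := fun x => by
    induction x using tens_ind with
    | h0 => simp only [map_zero]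
    | h1 γ y c v _ _ => rw [he]; rfl
    | h2 x x' hx hx' => rw [map_add, map_add, hx, hx']
  have key : ∀ t, dimK k A (Set.range ((tid V M).π t)) = dimK k A (tpc M V t) := fun t => by
    refine dimK_EA2 e (LeftInverse.injective hg) ?_ ?_
    · rintro _ ⟨x, rfl⟩
      induction x using tens_ind with
      | h0 => rw [map_zero, map_zero]; exact zero_mem _
      | h1 γ y c v _ hv =>
        rw [tens_π t y hv, he]
        exact AddSubgroup.subset_closure ⟨t - c, y, v, by rw [sub_sub_cancel, hv]; rfl⟩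
      | h2 x x' hx hx' => rw [map_add, map_add]; exact add_mem hx hx'
    · rintro _ ⟨a, y, v, rfl⟩
      refine ⟨_, ⟨tt (hm_id 𝒜) V M y (V.π (t - a) v), rfl⟩, ?_⟩
      rw [tens_π t y (V.π_self _ _), he, AddMonoidHom.id_apply, sub_sub_cancel]
  simp only [pair, chi, hpol, key]

theorem swap_EA2 {D Γ : Type} [CommRing D] [AddCommGroup Γ] {𝒟 : Γ → Set D} [Gd 𝒟] (V Y : GM 𝒟) :
    ∃ g : (tid V Y).M →ₗ[D] (tid Y V).M,
      ∀ y v, g (tt (hm_id 𝒟) V Y y v) = tt (hm_id 𝒟) Y V v y :=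
  lin_CPB2 (hm_id 𝒟) (fun y v => tt (hm_id 𝒟) Y V v y) (fun y y' v => map_add _ _ _)
    (fun y v v' => ttl_CPB2 _ _ _ _) (fun a y v => (tt_bal (h := hm_id 𝒟) a v y).symm)
    fun r y v => (tt_bal (h := hm_id 𝒟) r v y).symm

omit [IsNoetherianRing A] [Gk k 𝒜] in
theorem tid_comm {D Γ : Type} [CommRing D] [AddCommGroup Γ] {𝒟 : Γ → Set D} [Gd 𝒟] (V Y : GM 𝒟) :
    ∃ g : (tid V Y).M →ₗ[D] (tid Y V).M, IsG g ∧ Bijective g := by
  obtain ⟨g, hg⟩ := swap_EA2 V Y
  obtain ⟨g', hg'⟩ := swap_EA2 Y V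
  refine ⟨g, fun d x => ?_, bijective_iff_has_inverse.2 ⟨g', fun x => ?_, fun x => ?_⟩⟩
  · induction x using tens_ind with
    | h0 => simp only [map_zero]
    | h1 γ y c v hy hv =>
      rw [tens_π d y hv, hg, hg, tens_π d v hy, AddMonoidHom.id_apply, AddMonoidHom.id_apply]
      by_cases h : d = γ + c
      · rw [h, add_sub_cancel_right, add_sub_cancel_left, hy, hv]
      · rw [GM.π_of_ne hy fun hh => h (by rw [← hh, sub_add_cancel]),
          GM.π_of_ne hv fun hh => h (by rw [← hh, add_sub_cancel]), map_zero, map_zero,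
          AddMonoidHom.zero_apply]
    | h2 x x' hx hx' => simp only [map_add, hx, hx']
  · induction x using tens_ind with
    | h0 => simp only [map_zero]
    | h1 γ y c v _ _ => rw [hg, hg']
    | h2 x x' hx hx' => rw [map_add, map_add, hx, hx']
  · induction x using tens_ind with
    | h0 => simp only [map_zero]
    | h1 γ y c v _ _ => rw [hg', hg]
    | h2 x x' hx hx' => rw [map_add, map_add, hx, hx']

section
variable {D Γ τ : Type} [CommRing D] [AddCommGroup Γ] {𝒟 : Γ → Set D} [Gd 𝒟] [IsNoetherianRing D]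
  {s : τ → D} {l : GM 𝒟 → ℚ}

theorem gadd_tid (hl : GAdd l) (hv : VnG ⊥ (Set.range s) l) {V : GM 𝒟} (hV : QL s V) :
    GAdd fun M => l (tid V M) := fun Y₁ Y₂ Y₃ hY hs => by
  obtain ⟨F, G, hF, hG, h1, h2, h3⟩ := tens_sesY (hm_id 𝒟) hV.2 hs
  obtain ⟨f, -, -, -, hi, -⟩ := hs
  have hY₁ := tens_finite (h := hm_id 𝒟) hV.1 (Module.Finite.of_injective f hi)
  have h4 := hl.right hY₁ (tens_finite hV.1 hY) hF hG h1 h2
  rw [hv (GM.sub _ _ hF.ker) inferInstance kill_bot h3, add_zero] at h4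
  exact h4

theorem vn_tid (hv : VnG ⊥ (Set.range s) l) {V : GM 𝒟} (hV : Module.Finite D V.M) :
    VnG ⊥ (Set.range s) fun M => l (tid V M) :=
  fun M hM _ hn => hv _ (tens_finite hV hM) kill_bot (tens_nil hn)

theorem addOn_tid (hl : GAdd l) (hv : VnG ⊥ (Set.range s) l) {M : GM 𝒟}
    (hM : Module.Finite D M.M) : AddOn (QL s) fun V => l (tid V M) :=
  fun V₁ V₂ V₃ k1 k2 k3 hs => by
  obtain ⟨F, G, hF, hG, h1, h2, h3⟩ := tens_sesV (hm_id 𝒟) k3.2 hs M
  have hY₁ := tens_finite (h := hm_id 𝒟) k1.1 hM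
  have h4 := hl.right hY₁ (tens_finite k2.1 hM) hF hG h1 h2
  rw [hv (GM.sub _ _ hF.ker) inferInstance kill_bot h3, add_zero] at h4
  exact h4

theorem nil_tid (hv : VnG ⊥ (Set.range s) l) {M V : GM 𝒟} (hM : Module.Finite D M.M)
    (hV : Module.Finite D V.M) (hn : Nil (Set.range s) V.M) : l (tid V M) = 0 :=
  hv _ (tens_finite hV hM) kill_bot fun f hf => tens_nilV (hm_id 𝒟) hn M f ⟨f, hf, rfl⟩

end

end Pool.Agent.CXD
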