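import Pool.Agent.P.MP_2ce3e7_ag.EA0

/-! Resolutions. -/

set_option linter.unusedSectionVars false
set_option linter.unusedVariables false

open Function Filter
open scoped TensorProduct Polynomial

noncomputable section

namespace Pool.Agent.CXD

variable {D Γ τ τ' : Type} [CommRing D] [AddCommGroup Γ] {𝒟 : Γ → Set D} [Gd 𝒟]
  [IsNoetherianRing D] {s : τ → D} {w : τ' → D}

theorem Rgl.lin (h : Rgl 𝒟 s) {W : Type*} [AddCommGroup W] [Module ℚ W] {φ : GM 𝒟 → W}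
    (hφ : AddOn (QL s) φ)
    (hn : ∀ M : GM 𝒟, Module.Finite D M.M → Nil (Set.range s) M.M → φ M = 0) :
    ∃ Λ : UG 𝒟 (Set.range s) →ₗ[ℚ] W, ∀ M, QL s M → Λ (ucl _ M) = φ M := by
  obtain ⟨𝒬, g, hR, hQ⟩ := h
  obtain ⟨φ', h1, h2⟩ := hR.exists_ext (φ := φ) fun M N P hM hN hP hs =>
    hφ M N P ((hQ M).1 hM) ((hQ N).1 hN) ((hQ P).1 hP) hs
  obtain ⟨Λ, hΛ⟩ := exists_ulin (S := Set.range s) φ' h1 fun M hM hnil => by
    rw [h2 M ((hQ M).2 ⟨hM, fun j => Qp.of_nil hnil ⟨j, rfl⟩⟩), hn M hM hnil]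
  exact ⟨Λ, fun M hM => (hΛ M hM.1).trans (h2 M ((hQ M).2 hM))⟩

theorem Rgl.span (h : Rgl 𝒟 s) :
    Submodule.span ℚ {u : UG 𝒟 (Set.range s) | ∃ M : GM 𝒟, QL s M ∧ u = ucl _ M} = ⊤ := by
  obtain ⟨𝒬, g, hR, hQ⟩ := h
  simpa only [hQ] using hR.span (Set.range s)

theorem Rgl.ext (h : Rgl 𝒟 s) {W : Type*} [AddCommGroup W] [Module ℚ W]
    {f g : UG 𝒟 (Set.range s) →ₗ[ℚ] W} (hfg : ∀ M, QL s M → f (ucl _ M) = g (ucl _ M)) :
    f = g :=
  LinearMap.ext_on h.span (by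
    rintro _ ⟨M, hM, rfl⟩
    exact hfg M hM)

theorem ug_ext {S : Set D} {W : Type*} [AddCommGroup W] [Module ℚ W] {f g : UG 𝒟 S →ₗ[ℚ] W}
    (hfg : ∀ M : GM 𝒟, Module.Finite D M.M → f (ucl _ M) = g (ucl _ M)) : f = g :=
  LinearMap.ext_on span_ucl (by
    rintro _ ⟨M, hM, rfl⟩
    exact hfg M hM)

/-- equal values under all additive functions give equal classes -/
theorem ucl_eq {S : Set D} {M N : GM 𝒟}
    (h : ∀ l : GM 𝒟 → ℚ, GAdd l → VnG ⊥ S l → l M = l N) : ucl S M = ucl S N := by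
  refine sub_eq_zero.1 ((Module.forall_dual_apply_eq_zero_iff ℚ _).1 fun lam => ?_)
  rw [map_sub, sub_eq_zero]
  exact h (fun M => lam (ucl S M))
    (fun _ _ _ hN hs => (congrArg lam (ucl_ses hN hs)).trans (map_add _ _ _))
    fun _ _ _ hn => (congrArg lam (ucl_nil hn)).trans (map_zero _)

theorem exists_form' {S : Set D} {l : GM 𝒟 → ℚ} (hl : GAdd l) (hv : VnG ⊥ S l) :
    ∃ lam : UG 𝒟 S →ₗ[ℚ] ℚ, ∀ M : GM 𝒟, Module.Finite D M.M → lam (ucl S M) = l M :=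
  exists_ulin l hl fun M hM hn => hv M hM kill_bot hn

theorem gadd_ucl {S : Set D} (lam : UG 𝒟 S →ₗ[ℚ] ℚ) : GAdd fun M : GM 𝒟 => lam (ucl S M) :=
  fun _ _ _ hN hs => (congrArg lam (ucl_ses hN hs)).trans (map_add _ _ _)

theorem vn_ucl {S : Set D} (lam : UG 𝒟 S →ₗ[ℚ] ℚ) : VnG ⊥ S fun M : GM 𝒟 => lam (ucl S M) :=
  fun _ _ _ hn => (congrArg lam (ucl_nil hn)).trans (map_zero _)

theorem Qp.radical {X : Type} [AddCommGroup X] [Module D X] [Module.Finite D X]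
    (h : ∀ j, Qp (w j) X) {a : D} (ha : a ∈ (Ideal.span (Set.range w)).radical) : Qp a X := by
  choose n m α β hαβ using h
  have h1 : (Ideal.span (Set.range w)).radical ≤
      (Ideal.span (Set.range fun j => w j ^ m j)).radical := by
    refine Ideal.radical_le_radical_iff.2 (Ideal.span_le.2 ?_)
    rintro _ ⟨j, rfl⟩
    exact ⟨m j, Ideal.subset_span ⟨j, rfl⟩⟩
  obtain ⟨N, hN⟩ := h1 ha
  obtain ⟨d, hd⟩ := Finsupp.mem_span_range_iff_exists_finsupp.1 hN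
  refine (qp_pi a (Σ j : d.support, Fin (n j))).retract (m := N)
    (LinearMap.pi fun p => LinearMap.proj p.2 ∘ₗ α p.1)
    (∑ j : d.support, d j • β j ∘ₗ LinearMap.pi fun i => LinearMap.proj (Sigma.mk j i))
    fun x => ?_
  rw [LinearMap.sum_apply, ← hd, Finsupp.sum, Finset.sum_smul, ← Finset.sum_coe_sort d.support]
  refine Finset.sum_congr rfl fun j _ => ?_
  rw [smul_assoc, ← hαβ j x]
  rfl

theorem rgl_of {U : GM 𝒟} {e : U.M} (hU : Cy U e ⊥) [Finite τ']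
    (hg : ∀ j, ∃ g, GlD (Localization (Submonoid.powers (w j))) g) (h1 : ∀ j, ∃ i, s i ∣ w j)
    (h2 : ∀ i, s i ∈ (Ideal.span (Set.range w)).radical) : Rgl 𝒟 s := by
  choose g hg using hg
  obtain ⟨G, hG⟩ := Finite.exists_le g
  obtain ⟨𝒬, hR, hQ⟩ := exists_rsv hU fun j => (hg j).mono (hG j)
  refine ⟨𝒬, G, hR, fun M => (hQ M).trans ⟨fun h => ⟨h.1, fun i => ?_⟩, fun h => ⟨h.1, fun j => ?_⟩⟩⟩
  · have := h.1
    exact Qp.radical h.2 (h2 i)
  · obtain ⟨i, c, hc⟩ := h1 j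
    rw [hc, mul_comm]
    exact (h.2 i).mul c

theorem ql_iff {A σ : Type} [CommRing A] [IsNoetherianRing A] {𝒜 : ℤ → Set A} {z : σ → A}
    {V : GM 𝒜} : QL z V ↔ Module.Finite A V.M ∧ LF z V :=
  and_congr_right fun h => forall_congr' fun i => qp_iff (z i)

/-- the derived tensor product of Tor-independent modules -/
theorem Rgl.tn (h : Rgl 𝒟 s) {U : GM 𝒟} {e : U.M} (hU : Cy U e ⊥) {l : GM 𝒟 → ℚ} (hl : GAdd l)
    (hv : VnG ⊥ (Set.range s) l) {Y : GM 𝒟} (hY : Module.Finite D Y.M)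
    {Λ : UG 𝒟 (Set.range s) →ₗ[ℚ] ℚ} (hΛ : ∀ F, QL s F → Λ (ucl _ F) = l (tid F Y)) {M : GM 𝒟}
    (hM : Module.Finite D M.M) (ht : ∀ n, Tn (Set.range s) Y.M n M.M) :
    Λ (ucl _ M) = l (tid M Y) := by
  obtain ⟨𝒬, g, hR, hQ⟩ := h
  have main : ∀ n, ∀ M : GM 𝒟, 𝒬 n M → (∀ n', Tn (Set.range s) Y.M n' M.M) →
      Λ (ucl _ M) = l (tid M Y) := by
    intro n
    induction n with
    | zero => exact fun M hM _ => hΛ M ((hQ M).1 hM)
    | succ n ih =>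
      intro M hM ht
      obtain ⟨F, f, hf, hs, hF, hflat⟩ : ∃ (F : GM 𝒟) (f : F.M →ₗ[D] M.M), IsG f ∧ Surjective f ∧
          QL s F ∧ Module.Flat D F.M := by
        obtain ⟨r, c, f, hf, hs⟩ := hU.cover M (hR.fin _ M hM) kill_bot
        obtain ⟨c₀, -, -⟩ := hU.exists_coord
        let E : (GM.piF fun i => U.shift (c i)).M ≃ₗ[D] (Fin r → D) :=
          LinearEquiv.piCongrRight (φ := fun _ : Fin r => U.M) (ψ := fun _ : Fin r => D)
            fun _ => c₀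
        exact ⟨_, f, hf, hs, hU.ql_piF s c, Module.Flat.of_linearEquiv E⟩
      have hK := hR.ker n _ _ _ (ses_ker hf hs) (rsv_zero_CPG hR n ((hQ F).2 hF)) hM
      have hKf := hR.fin _ _ hK
      have hx : Sx (LinearMap.ker f).subtype f :=
        ⟨Submodule.injective_subtype _, hs, LinearMap.exact_subtype_ker_map f⟩
      have h1 := ih _ hK fun n' => (ht (n' + 1) _ _ _ _ hflat hx).2
      obtain ⟨a, b, ha, hb, hbs, hab, -, ea⟩ := tens_rightV (hm_id 𝒟) (V := F.sub _ hf.ker)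
        (isG_subtype _) hf hs hx.2.2 Y
      have hT := tens_finite (h := hm_id 𝒟) hKf hY
      have h2 := hl.right hT (tens_finite (h := hm_id 𝒟) hF.1 hY) ha hb hbs hab
      have h3 : l ((tid (F.sub _ hf.ker) Y).sub _ ha.ker) = 0 := by
        refine hv _ (inferInstanceAs (Module.Finite D (LinearMap.ker a))) kill_bot ?_
        rintro t ht' ⟨x, hx0⟩
        obtain ⟨m, hm⟩ := (ht 1 _ _ _ _ hflat hx).1 x ((ea x).symm.trans hx0) t ht'
        exact ⟨m, Subtype.ext hm⟩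
      have h4 := hΛ F hF
      rw [ucl_ses hF.1 (ses_ker hf hs), map_add, h1] at h4
      rw [h3] at h2
      linarith
  exact main g M (hR.all M hM) ht

end Pool.Agent.CXD
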