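import Pool.Agent.P.MP_2ce3e7_ag.EA2
import Pool.Agent.P.MP_2ce3e7_ag.EA3

/-! The pairing on the Grothendieck group. -/

set_option linter.unusedSectionVars false
set_option linter.unusedVariables false

open Function Filter
open scoped TensorProduct Polynomial LaurentPolynomial

noncomputable section

namespace Pool.Agent.CXD

variable {k A σ : Type} [Field k] [CommRing A] [Algebra k A] [Fintype σ] {𝒜 : ℤ → Set A}
  {z : σ → A} {θ : A →ₐ[k] A[T;T⁻¹]} [Gd 𝒜] [Gk k 𝒜] [IsNoetherianRing A]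

theorem Rgl.pairing {D Γ τ : Type} [CommRing D] [AddCommGroup Γ] {𝒟 : Γ → Set D} [Gd 𝒟]
    [IsNoetherianRing D] {s : τ → D} (h : Rgl 𝒟 s) {l : GM 𝒟 → ℚ} (hl : GAdd l)
    (hv : VnG ⊥ (Set.range s) l) :
    ∃ B : UG 𝒟 (Set.range s) →ₗ[ℚ] UG 𝒟 (Set.range s) →ₗ[ℚ] ℚ, ∀ M V : GM 𝒟,
      Module.Finite D M.M → QL s V → B (ucl _ M) (ucl _ V) = l (tid V M) := by
  have h1 : ∀ M : GM 𝒟, ∃ Λ : UG 𝒟 (Set.range s) →ₗ[ℚ] ℚ, Module.Finite D M.M →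
      ∀ V, QL s V → Λ (ucl _ V) = l (tid V M) := fun M => by
    by_cases hM : Module.Finite D M.M
    · obtain ⟨Λ, hΛ⟩ := h.lin (addOn_tid hl hv hM) fun V hV hn => nil_tid hv hM hV hn
      exact ⟨Λ, fun _ => hΛ⟩
    · exact ⟨0, fun h' => absurd h' hM⟩
  choose c hc using h1
  refine (exists_ulin (S := Set.range s) c (fun M N P hN hs => ?_) fun M hM hn => ?_).imp
    fun B hB M V hM hV => by rw [hB M hM, hc M hM V hV]
  · obtain ⟨hM, hP⟩ := fin_CWM hN hs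
    refine h.ext fun V hV => ?_
    rw [LinearMap.add_apply, hc M hM V hV, hc N hN V hV, hc P hP V hV]
    exact gadd_tid hl hv hV M N P hN hs
  · refine h.ext fun V hV => ?_
    rw [hc M hM V hV, LinearMap.zero_apply]
    exact vn_tid hv hV.1 M hM kill_bot hn

theorem Std.exists_beta (h : Std 𝒜 z θ) (hr : Rgl 𝒜 z) :
    ∃ β : G1 𝒜 z →ₗ[ℚ] G1 𝒜 z →ₗ[ℚ] ℚ, IsB k z β := by
  obtain ⟨β, hβ⟩ := hr.pairing h.gadd_chi h.vn_chi
  have hs : β = β.flip := hr.ext fun M hM => hr.ext fun V hV => by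
    obtain ⟨g, hg, hb⟩ := tid_comm V M
    rw [LinearMap.flip_apply, hβ M V hM.1 hV, hβ V M hV.1 hM]
    exact h.gadd_chi.congr (tens_finite hM.1 hV.1) hg hb
  exact ⟨β, hβ, fun u v => by conv_lhs => rw [hs, LinearMap.flip_apply]⟩

/-- the numerical classes -/
theorem Std.numF_equiv (h : Std 𝒜 z θ) (hr : Rgl 𝒜 z) {β : G1 𝒜 z →ₗ[ℚ] G1 𝒜 z →ₗ[ℚ] ℚ}
    (hβ : IsB k z β) (hnd : ∀ u, (∀ v, β u v = 0) → u = 0) (j : ℕ) :
    Nonempty (dimF k 𝒜 z j ≃ₗ[ℚ] numF k 𝒜 z j) := by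
  let Φ : G1 𝒜 z →ₗ[ℚ] ({V : FGM 𝒜 // LF z V.1} → ℚ) :=
    LinearMap.pi fun V => β.flip (ucl _ V.1.1)
  have hΦ : ∀ M : GM 𝒜, Module.Finite A M.M → Φ (ucl _ M) = fun V => pair k M V.1.1 :=
    fun M hM => funext fun V => by
      rw [pair_eq]
      exact hβ.val M V.1.1 hM (ql_iff.2 ⟨V.1.2, V.2⟩)
  have hi : Injective Φ := (injective_iff_map_eq_zero Φ).2 fun u hu => by
    have h0 : β u = 0 := hr.ext fun V hV =>
      congrFun hu ⟨⟨V, (ql_iff.1 hV).1⟩, (ql_iff.1 hV).2⟩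
    exact hnd u fun v => by rw [h0, LinearMap.zero_apply]
  have he : (dimF k 𝒜 z j).map Φ = numF k 𝒜 z j := by
    rw [dimF, numF, Submodule.map_span]
    congr 1
    ext f
    constructor
    · rintro ⟨u, ⟨M, hM, hd, rfl⟩, rfl⟩
      exact ⟨⟨M, hM⟩, hd, hΦ M hM⟩
    · rintro ⟨M, hd, rfl⟩
      exact ⟨_, ⟨M.1, M.2, hd, rfl⟩, hΦ M.1 M.2⟩
  exact ⟨(Submodule.equivMapOfInjective Φ hi _).trans (LinearEquiv.ofEq _ _ he)⟩

end Pool.Agent.CXD
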