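import Pool.Agent.P.MP_2ce3e7_ag.EA3

attribute [local instance] Pool.Agent.CXD.instAddCommGroupRs Pool.Agent.CXD.instModuleRs
  Pool.Agent.CXD.instModuleRs_1 Pool.Agent.CXD.instIsScalarTowerRs
  Pool.Agent.CXD.instSMulCommClassRs Pool.Agent.CXD.instAddCommGroupBox
  Pool.Agent.CXD.instModuleTensorProductBox Pool.Agent.CXD.finite_box

/-! Exterior products. -/

set_option linter.unusedSectionVars false
set_option linter.unusedVariables false

open Function Filter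
open scoped TensorProduct Polynomial LaurentPolynomial

noncomputable section

namespace Pool.Agent.CXD

variable {k A σ : Type} [Field k] [CommRing A] [Algebra k A] [Fintype σ] {𝒜 : ℤ → Set A}
  {z : σ → A} {θ : A →ₐ[k] A[T;T⁻¹]} [Gd 𝒜] [Gk k 𝒜] [IsNoetherianRing A]
  [IsNoetherianRing (A ⊗[k] A)]
  {l : GM (tg k 𝒜 𝒜) → ℚ}

theorem nil_zz_left {X : Type} [AddCommGroup X] [Module (A ⊗[k] A) X]
    (h : Nil (Set.range fun i => inl k A A (z i)) X) : Nil (Set.range (zz k z)) X := by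
  rintro _ ⟨p, rfl⟩ x
  obtain ⟨m, hm⟩ := h _ ⟨p.1, rfl⟩ x
  exact ⟨m, by rw [zz, ← tmul_CWN3, mul_pow, mul_comm, mul_smul, hm, smul_zero]⟩

theorem nil_zz_right {X : Type} [AddCommGroup X] [Module (A ⊗[k] A) X]
    (h : Nil (Set.range fun i => inr k A A (z i)) X) : Nil (Set.range (zz k z)) X := by
  rintro _ ⟨p, rfl⟩ x
  obtain ⟨m, hm⟩ := h _ ⟨p.2, rfl⟩ x
  exact ⟨m, by rw [zz, ← tmul_CWN3, mul_pow, mul_smul, hm, smul_zero]⟩

theorem vn_zz (hl : GAdd l) (h₁ : VnG ⊥ (Set.range fun i => inl k A A (z i)) l)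
    (h₂ : VnG ⊥ (Set.range fun i => inr k A A (z i)) l) : VnG ⊥ (Set.range (zz k z)) l := by
  refine hl.vn_of_primes fun P hP _ hf C hC => ?_
  by_cases c : ∀ i, inl k A A (z i) ∈ P
  · exact h₁.mono hC (by rintro _ ⟨i, rfl⟩; exact c i)
  · obtain ⟨i, hi⟩ := not_forall.1 c
    refine h₂.mono hC ?_
    rintro _ ⟨j, rfl⟩
    have h3 := hf _ ⟨(i, j), rfl⟩
    rw [zz, ← tmul_CWN3] at h3
    exact (hP.mem_or_mem h3).resolve_left hi

theorem gbox_ind_EB1 {W M : GM 𝒜} {p : (gbox k W M).M → Prop} (h0 : p 0)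
    (h1 : ∀ w y, p (gb k W M w y)) (h2 : ∀ u v, p u → p v → p (u + v))
    (u : (gbox k W M).M) : p u :=
  gbox_ind h0 (fun _ w _ y _ _ => h1 w y) h2 u

theorem gbox_map_EB1 {W W₂ M M₂ : GM 𝒜} {f : W.M →ₗ[A] W₂.M} (hf : IsG f) {g : M.M →ₗ[A] M₂.M}
    (hg : IsG g) : ∃ F : (gbox k W M).M →ₗ[A ⊗[k] A] (gbox k W₂ M₂).M, IsG F ∧
      ∀ w y, F (gb k W M w y) = gb k W₂ M₂ (f w) (g y) := by
  obtain ⟨L, hL⟩ := gbox_lift (k := k) (N := W) (M := M)
    ((((gb k W₂ M₂).comp f.toAddMonoidHom).flip.comp g.toAddMonoidHom).flip) (fun c w y => by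
      change gb k W₂ M₂ (f (algebraMap k A c • w)) (g y) =
        gb k W₂ M₂ (f w) (g (algebraMap k A c • y))
      rw [f.map_smul, g.map_smul, alg_gb_CWS3])
  have hL' : ∀ w y, L (gb k W M w y) = gb k W₂ M₂ (f w) (g y) := hL
  have hlin : ∀ (c : A ⊗[k] A) z, L (c • z) = c • L z := by
    intro c z
    induction c using TensorProduct.induction_on with
    | zero => rw [zero_smul, map_zero, zero_smul]
    | add c d hc hd => rw [add_smul, map_add, add_smul, hc, hd]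
    | tmul a b =>
      induction z using gbox_ind_EB1 with
      | h0 => rw [smul_zero, map_zero, smul_zero]
      | h1 w y => rw [smul_gb, hL', hL', smul_gb, f.map_smul, g.map_smul]
      | h2 u v hu hv => rw [smul_add, map_add, map_add, smul_add, hu, hv]
  refine ⟨{ toFun := L, map_add' := L.map_add, map_smul' := hlin }, fun d z => ?_, hL'⟩
  change L ((gbox k W M).π d z) = (gbox k W₂ M₂).π d (L z)
  induction z using gbox_ind_EB1 with
  | h0 => simp only [map_zero]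
  | h1 w y => rw [gbox_π, hL', hL', gbox_π, hf d.1 w, hg d.2 y]
  | h2 u v hu hv => simp only [map_add, hu, hv]

theorem eq_rTensor_EB1 {W W₂ M : GM 𝒜} {f : W.M →ₗ[A] W₂.M}
    {F : (gbox k W M).M →ₗ[A ⊗[k] A] (gbox k W₂ M).M}
    (hF : ∀ w y, F (gb k W M w y) = gb k W₂ M (f w) y) :
    (F : (gbox k W M).M → (gbox k W₂ M).M) =
      LinearMap.rTensor (Rs k A M.M) (rsLin_CYC (k := k) f) := by
  let L : (gbox k W M).M →+ (gbox k W₂ M).M :=
    (LinearMap.rTensor (Rs k A M.M) (rsLin_CYC (k := k) f)).toAddMonoidHom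
  have hL : ∀ w y, L (gb k W M w y) = gb k W₂ M (f w) y := fun x y => rfl
  funext z
  change F z = L z
  induction z using gbox_ind_EB1 with
  | h0 => rw [map_zero, map_zero]
  | h1 w y => rw [hF, hL]
  | h2 u v hu hv => rw [map_add, map_add, hu, hv]

theorem gbox_ses_left {W W₂ W₃ : GM 𝒜} (hs : Ses W W₂ W₃) (M : GM 𝒜) :
    Ses (gbox k W M) (gbox k W₂ M) (gbox k W₃ M) := by
  obtain ⟨f, g, hf, hg, h1, h2, h3⟩ := hs
  obtain ⟨F, hF, hF'⟩ := gbox_map_EB1 (k := k) (M := M) (M₂ := M) hf isG_id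
  obtain ⟨G, hG, hG'⟩ := gbox_map_EB1 (k := k) (M := M) (M₂ := M) hg isG_id
  refine ⟨F, G, hF, hG, ?_, ?_, ?_⟩
  · rw [eq_rTensor_EB1 (f := f) hF']
    exact Module.Flat.rTensor_preserves_injective_linearMap (M := Rs k A M.M)
      (rsLin_CYC (k := k) f) h1
  · rw [eq_rTensor_EB1 (f := g) hG']
    exact LinearMap.rTensor_surjective (Rs k A M.M) (g := rsLin_CYC (k := k) g) h2
  · rw [eq_rTensor_EB1 (f := f) hF', eq_rTensor_EB1 (f := g) hG']
    exact Module.Flat.rTensor_exact (Rs k A M.M) (f := rsLin_CYC (k := k) f)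
      (g := rsLin_CYC (k := k) g) h3

theorem gbox_ses_right (W : GM 𝒜) {M M₂ M₃ : GM 𝒜} (hs : Ses M M₂ M₃) :
    Ses (gbox k W M) (gbox k W M₂) (gbox k W M₃) := by
  obtain ⟨f, g, hf, hg, h1, h2, h3⟩ := hs
  obtain ⟨F, hF, hF'⟩ := gbox_map_EB1 (k := k) (W := W) (W₂ := W) isG_id hf
  obtain ⟨G, hG, hG'⟩ := gbox_map_EB1 (k := k) (W := W) (W₂ := W) isG_id hg
  obtain ⟨e1, e2, e3⟩ := box_exact (k := k) (K := A) (B := A) (N := W.M) (f := f) (g := g)
    (F := F) (G := G) hF' hG'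
  exact ⟨F, G, hF, hG, e1 h1, e2 h2, e3 h3⟩

theorem nil_gbox_left_EB1 {W : GM 𝒜} (h : Nil (Set.range z) W.M) (M : GM 𝒜) :
    Nil (Set.range fun i => inl k A A (z i)) (gbox k W M).M := by
  rintro _ ⟨i, rfl⟩ u
  induction u using gbox_ind_EB1 with
  | h0 => exact ⟨0, smul_zero _⟩
  | h1 w y =>
    obtain ⟨m, hm⟩ := h _ ⟨i, rfl⟩ w
    exact ⟨m, by rw [← map_pow, inl_gb_CWS3, hm, map_zero, AddMonoidHom.zero_apply]⟩
  | h2 a b ha hb =>
    obtain ⟨m, hm⟩ := ha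
    obtain ⟨n, hn⟩ := hb
    refine ⟨m + n, ?_⟩
    rw [smul_add, pow_add, mul_smul, mul_smul, hn, smul_zero, add_zero, smul_comm, hm, smul_zero]

theorem nil_gbox_right_EB1 (W : GM 𝒜) {M : GM 𝒜} (h : Nil (Set.range z) M.M) :
    Nil (Set.range fun i => inr k A A (z i)) (gbox k W M).M := by
  rintro _ ⟨i, rfl⟩ u
  induction u using gbox_ind_EB1 with
  | h0 => exact ⟨0, smul_zero _⟩
  | h1 w y =>
    obtain ⟨m, hm⟩ := h _ ⟨i, rfl⟩ y
    exact ⟨m, by rw [← map_pow, inr_gb_CWS3, hm, map_zero]⟩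
  | h2 a b ha hb =>
    obtain ⟨m, hm⟩ := ha
    obtain ⟨n, hn⟩ := hb
    refine ⟨m + n, ?_⟩
    rw [smul_add, pow_add, mul_smul, mul_smul, hn, smul_zero, add_zero, smul_comm, hm, smul_zero]

theorem exists_bx (z : σ → A) : ∃ bx : G1 𝒜 z →ₗ[ℚ] G1 𝒜 z →ₗ[ℚ] G2 k 𝒜 z, IsX k z bx := by
  classical
  have h1 : ∀ W : GM 𝒜, Module.Finite A W.M → ∃ T : G1 𝒜 z →ₗ[ℚ] G2 k 𝒜 z,
      ∀ M : GM 𝒜, Module.Finite A M.M → T (ucl _ M) = ucl _ (gbox k W M) := fun W hW =>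
    exists_ulin (fun M => ucl _ (gbox k W M))
      (fun M N P hN hs => ucl_ses (gbox_finite hW hN) (gbox_ses_right W hs))
      fun M _ hn => ucl_nil (nil_zz_right (nil_gbox_right_EB1 W hn))
  choose c hc using h1
  obtain ⟨bx, hbx⟩ := exists_ulin (S := Set.range z)
    (fun W : GM 𝒜 => if hW : Module.Finite A W.M then c W hW else 0)
    (fun M N P hN hs => by
      obtain ⟨hM, hP⟩ := fin_CWM hN hs
      rw [dif_pos hM, dif_pos hN, dif_pos hP]
      refine ug_ext fun V hV => ?_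
      rw [LinearMap.add_apply, hc _ _ V hV, hc _ _ V hV, hc _ _ V hV]
      exact ucl_ses (gbox_finite hN hV) (gbox_ses_left hs V))
    (fun W hW hn => by
      rw [dif_pos hW]
      refine ug_ext fun V hV => ?_
      rw [hc _ _ V hV, LinearMap.zero_apply]
      exact ucl_nil (nil_zz_left (nil_gbox_left_EB1 hn V)))
  refine ⟨bx, fun W M hW hM => ?_⟩
  rw [hbx W hW, dif_pos hW, hc _ _ M hM]

theorem Std.gadd_chi2 (h : Std 𝒜 z θ) (h₁ : GAdd (chi k (𝒜 := 𝒜))) : GAdd (chi2 k (𝒜 := 𝒜)) :=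
  h.sv_add h₁

theorem Std.vn_chi2 (h : Std 𝒜 z θ) (h₁ : GAdd (chi k (𝒜 := 𝒜)))
    (h₂ : VnG ⊥ (Set.range z) (chi k (𝒜 := 𝒜))) :
    VnG ⊥ (Set.range (zz k z)) (chi2 k (𝒜 := 𝒜)) :=
  vn_zz (h.sv_add h₁) (h.sv_left h₁) (h.sv_right h₂)

end Pool.Agent.CXD
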