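import Pool.Agent.P.MP_2ce3e7_ag.EB1

/-! The decomposition of the diagonal. -/

set_option linter.unusedSectionVars false
set_option linter.unusedVariables false

open Function Filter
open scoped TensorProduct Polynomial LaurentPolynomial

noncomputable section

namespace Pool.Agent.CXD

variable {k A σ : Type} [Field k] [Fintype k] [CommRing A] [Algebra k A] [Fintype σ] {𝒜 : ℤ → Set A}
  {z : σ → A} {θ : A →ₐ[k] A[T;T⁻¹]} [Gd 𝒜] [Gk k 𝒜] [IsNoetherianRing A]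
  [IsNoetherianRing (A ⊗[k] A)]
  {r Q : ℕ} {bx : G1 𝒜 z →ₗ[ℚ] G1 𝒜 z →ₗ[ℚ] G2 k 𝒜 z} {T₁ : Module.End ℚ (G1 𝒜 z)}
  {T₂ : Module.End ℚ (G2 k 𝒜 z)}

theorem verF_finite_EB2 (h : Std 𝒜 z θ) {Y : GM (tg k 𝒜 𝒜)} (hY : Module.Finite (A ⊗[k] A) Y.M) :
    Module.Finite (A ⊗[k] A) (verF k 𝒜 𝒜 Y).M := by
  have := h.finiteType
  exact res_finite (hm_Fr card_smul_eq_zero) (Fr_finite k A A) Y hY

theorem Std.exists_T2 (h : Std 𝒜 z θ) : ∃ T : Module.End ℚ (G2 k 𝒜 z), IsT2 k z T := by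
  have hF : Hm (Fr k A A) (tg k 𝒜 𝒜) (tg k 𝒜 𝒜) (mu ℤ ℤ (Fintype.card k)) :=
    hm_Fr card_smul_eq_zero
  refine exists_ulin (fun Y : GM (tg k 𝒜 𝒜) => ucl (Set.range (zz k z)) (verF k 𝒜 𝒜 Y))
    (fun M N P hN hs => ?_) fun M hM hn => ?_
  · obtain ⟨j₁, h₁⟩ := isRes_ver hF M
    obtain ⟨j₂, h₂⟩ := isRes_ver hF N
    obtain ⟨j₃, h₃⟩ := isRes_ver hF P
    exact ucl_ses (verF_finite_EB2 h hN) (h₁.ses h₂ h₃ hs)
  · obtain ⟨j, hj⟩ := isRes_ver hF M
    refine ucl_nil (hj.nil (S' := Set.range fun p => Fr k A A (zz k z p)) (hn.of_radical ?_) ?_)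
    · rintro _ ⟨p, rfl⟩
      refine Ideal.le_radical ?_
      obtain ⟨m, hm⟩ := Nat.exists_eq_add_one_of_ne_zero (Fintype.card_ne_zero (α := k))
      have e : Fr k A A (zz k z p) = ((1 : A) ⊗ₜ[k] (z p.2 ^ m)) * zz k z p := by
        rw [zz, Fr_tmul, Algebra.TensorProduct.tmul_mul_tmul, one_mul, hm, pow_succ]
      change Fr k A A (zz k z p) ∈ _
      rw [e]
      exact Ideal.mul_mem_left _ _ (Ideal.subset_span ⟨p, rfl⟩)
    · rintro _ ⟨p, rfl⟩
      exact ⟨_, ⟨p, rfl⟩, 1, (pow_one _).symm, one_pos⟩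

theorem gbox_ver (W M : GM 𝒜) : ∃ J : (gbox k W (ver1 k M)).M →+ (gbox k W M).M,
    IsRes (Fr k A A) (mu ℤ ℤ (Fintype.card k)) (gbox k W (ver1 k M)) (gbox k W M) J := by
  have hψ : Hm (frb k A) 𝒜 𝒜 (Fintype.card k • AddMonoidHom.id ℤ) := hm_frb card_smul_eq_zero
  obtain ⟨j, hj⟩ : ∃ j : (ver1 k M).M →+ M.M,
    IsRes (frb k A) (Fintype.card k • AddMonoidHom.id ℤ : ℤ →+ ℤ) (ver1 k M) M j := isRes_ver hψ M
  have hc : ∀ c : k, frb k A (algebraMap k A c) = algebraMap k A c := fun c =>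
    (FiniteField.frobeniusAlgHom k A).commutes c
  obtain ⟨J, hJ⟩ := gbox_lift (k := k) (N := W) (M := ver1 k M)
    (((gb k W M).flip.comp j).flip) (fun c w y => by
      change gb k W M (algebraMap k A c • w) (j y) = gb k W M w (j (algebraMap k A c • y))
      rw [hj.smul, hc, alg_gb_CWS3])
  have hJ' : ∀ w y, J (gb k W (ver1 k M) w y) = gb k W M w (j y) := hJ
  obtain ⟨p, hp, hp'⟩ := IsRes.exists_proj hψ hj
  obtain ⟨P, hP⟩ := gbox_lift (k := k) (N := W) (M := M)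
    (((gb k W (ver1 k M)).flip.comp p).flip) (fun c w y => by
      change gb k W (ver1 k M) (algebraMap k A c • w) (p y) =
        gb k W (ver1 k M) w (p (algebraMap k A c • y))
      rw [alg_gb_CWS3, ← hp', hc])
  have hP' : ∀ w y, P (gb k W M w y) = gb k W (ver1 k M) w (p y) := hP
  refine ⟨J, ?_, fun a x => ?_, fun c x => ?_, fun c x => ?_⟩
  · refine Function.LeftInverse.injective (g := P) fun x => ?_
    induction x using gbox_ind with
    | h0 => simp only [map_zero]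
    | h1 c w d y _ _ => rw [hJ', hP', hp]
    | h2 u v hu hv => rw [map_add, map_add, hu, hv]
  · induction a using TensorProduct.induction_on with
    | zero => rw [zero_smul, map_zero, map_zero, zero_smul]
    | add c d hc hd => rw [add_smul, map_add, map_add, add_smul, hc, hd]
    | tmul a b =>
      rw [Fr_tmul]
      induction x using gbox_ind with
      | h0 => rw [smul_zero, map_zero, smul_zero]
      | h1 c w d y _ _ =>
        rw [smul_gb, hJ', hJ', smul_gb, hj.smul]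
        rfl
      | h2 u v hu hv => rw [smul_add, map_add, map_add, smul_add, hu, hv]
  · induction x using gbox_ind with
    | h0 => simp only [map_zero]
    | h1 c' w d y _ _ =>
      rw [gbox_π, hJ', hJ', gbox_π, hj.π]
      rfl
    | h2 u v hu hv => simp only [map_add, hu, hv]
  · induction x using gbox_ind with
    | h0 => exact ⟨0, by simp only [map_zero]⟩
    | h1 c' w d y _ _ =>
      obtain ⟨y', hy'⟩ := hj.sur c.2 y
      refine ⟨gb k W (ver1 k M) (W.π c.1 w) y', ?_⟩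
      rw [hJ', gbox_π, hy']
      rfl
    | h2 u v hu hv =>
      obtain ⟨u', hu'⟩ := hu
      obtain ⟨v', hv'⟩ := hv
      exact ⟨u' + v', by rw [map_add, map_add, hu', hv']⟩

theorem Std.T2_bx (h : Std 𝒜 z θ) (hx : IsX k z bx) (h₁ : IsT1 k z T₁) (h₂ : IsT2 k z T₂)
    (u v : G1 𝒜 z) : T₂ (bx u v) = bx u (T₁ v) := by
  have := h.finiteType
  have hF : Hm (Fr k A A) (tg k 𝒜 𝒜) (tg k 𝒜 𝒜) (mu ℤ ℤ (Fintype.card k)) :=
    hm_Fr card_smul_eq_zero
  have key : bx.compr₂ T₂ = bx.compl₂ T₁ := by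
    refine ug_ext fun W hW => ug_ext fun M hM => ?_
    have hv : Module.Finite A (ver1 k M).M :=
      res_finite (hm_frb card_smul_eq_zero) (frobAlg_finite k A) M hM
    rw [LinearMap.compr₂_apply, LinearMap.compl₂_apply, h₁ M hM, hx W M hW hM, hx W _ hW hv,
      h₂ _ (gbox_finite hW hM)]
    obtain ⟨J, hJ⟩ := gbox_ver (k := k) W M
    obtain ⟨J', hJ'⟩ := isRes_ver hF (gbox k W M)
    exact ucl_eq fun l hl _ => hJ'.val hl hJ (gbox_finite hW hv)
  exact LinearMap.congr_fun (LinearMap.congr_fun key u) v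

theorem Std.exists_dec (h : Std 𝒜 z θ)
    (hT : ∀ (K : Type) [CommRing K] [Algebra k K] [IsNoetherianRing K], TG k K 𝒜 z r Q)
    (hx : IsX k z bx) (h₁ : IsT1 k z T₁) (h₂ : IsT2 k z T₂) (y : G2 k 𝒜 z) :
    ∃ P ∈ Pol r (Fintype.card k), ∃ (n : ℕ) (u v : Fin n → G1 𝒜 z),
      Polynomial.aeval T₂ P y = ∑ i, bx (u i) (v i) := by
  let E : Submodule ℚ (G2 k 𝒜 z) := Submodule.span ℚ {y | ∃ u v, y = bx u v}
  have hE : ∀ v ∈ E, T₂ v ∈ E := fun v hv => by
    have h0 : E ≤ E.comap T₂ := Submodule.span_le.2 (by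
      rintro _ ⟨u, w, rfl⟩
      exact Submodule.subset_span ⟨u, T₁ w, h.T2_bx hx h₁ h₂ u w⟩)
    exact h0 hv
  obtain ⟨F, hF⟩ := exists_sat r (Fintype.card k) hE
  let X : Set (GM (tg k 𝒜 𝒜) → ℚ) := {l | ∃ lam : G2 k 𝒜 z →ₗ[ℚ] ℚ, (∀ v ∈ F, lam v = 0) ∧
    l = fun Y => lam (ucl _ Y)}
  have hfam : FamG (verF k 𝒜 𝒜) r (Fintype.card k) X := by
    refine ⟨?_, ?_, ?_⟩
    · rintro _ ⟨lam, -, rfl⟩
      exact gadd_ucl lam
    · rintro _ ⟨lam, hl, rfl⟩
      refine ⟨_, ⟨lam ∘ₗ T₂, fun v hv => hl _ (sat_st hE hF v hv), rfl⟩, 1, fun M hM => ?_⟩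
      simp only [one_mul, LinearMap.comp_apply]
      rw [h₂ M hM]
    · rintro _ ⟨lam, hl, rfl⟩ ε hε
      obtain ⟨mu, h4, h5⟩ := sat_div hE hF hε lam hl
      refine ⟨_, ⟨mu, h4, rfl⟩, 1, fun M hM => ?_⟩
      simp only [one_mul]
      rw [h5, h₂ M hM]
  have key := h.tg2 hT hfam (by
      rintro _ ⟨lam, hl, rfl⟩ N M hN hM
      refine hl _ (sat_le hF (Submodule.subset_span ⟨_, _, (hx N M hN hM).symm⟩)))
    (by
      rintro _ ⟨lam, hl, rfl⟩ Y hY - hn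
      change lam (ucl _ Y) = 0
      rw [ucl_nil (nil_zz_left hn), map_zero])
    (by
      rintro _ ⟨lam, hl, rfl⟩ Y hY - hn
      change lam (ucl _ Y) = 0
      rw [ucl_nil (nil_zz_right hn), map_zero])
  have hy : y ∈ F := mem_of_forms fun lam hl => by
    have h0 : lam = 0 := ug_ext fun M hM => key _ ⟨lam, hl, rfl⟩ M hM
    rw [h0, LinearMap.zero_apply]
  obtain ⟨P, hP, hm⟩ := (hF y).1 hy
  obtain ⟨n, f, g, hs⟩ := Submodule.mem_span_set'.1 hm
  choose u v huv using fun i => (g i).2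
  refine ⟨P, hP, n, fun i => f i • u i, v, ?_⟩
  rw [← hs]
  refine Finset.sum_congr rfl fun i _ => ?_
  rw [huv i, map_smul, LinearMap.smul_apply]

end Pool.Agent.CXD
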