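import Pool.Agent.P.MP_2ce3e7_ag.EB1
import Pool.Agent.P.MP_2ce3e7_ag.EA2

/-! The action of correspondences. -/

set_option linter.unusedSectionVars false
set_option linter.unusedVariables false

open Function Filter
open scoped TensorProduct Polynomial LaurentPolynomial

noncomputable section

namespace Pool.Agent.CXD

variable {k A σ : Type} [Field k] [Fintype k] [CommRing A] [Algebra k A] [Fintype σ] {𝒜 : ℤ → Set A}
  {z : σ → A} {θ : A →ₐ[k] A[T;T⁻¹]} [Gd 𝒜] [Gk k 𝒜] [IsNoetherianRing A]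
  [IsNoetherianRing (A ⊗[k] A)]
  {bx : G1 𝒜 z →ₗ[ℚ] G1 𝒜 z →ₗ[ℚ] G2 k 𝒜 z} {T₁ : Module.End ℚ (G1 𝒜 z)}
  {T₂ : Module.End ℚ (G2 k 𝒜 z)} {β : G1 𝒜 z →ₗ[ℚ] G1 𝒜 z →ₗ[ℚ] ℚ} {Δ : GM (tg k 𝒜 𝒜)} {δ : Δ.M}

theorem Std.vn_cor (h : Std 𝒜 z θ) {l : GM 𝒜 → ℚ} (hl : GAdd l) (hv : VnG ⊥ (Set.range z) l)
    {V : GM 𝒜} (hV : QL z V) : VnG ⊥ (Set.range (zz k z)) (cor k l V) := by
  obtain ⟨h1, h2⟩ := ql_iff.1 hV
  exact vn_zz (h.cor_add hl h1 h2)
    (fun Y hY _ hn => h.sv_left hl _ (tens_finite h1 hY) kill_bot (tens_nil hn))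
    fun Y hY _ hn => h.sv_right hv _ (tens_finite h1 hY) kill_bot (tens_nil hn)

theorem Std.exists_act (h : Std 𝒜 z θ) {V : GM 𝒜} (hV : QL z V) :
    ∃ κ : (G1 𝒜 z →ₗ[ℚ] ℚ) →ₗ[ℚ] (G2 k 𝒜 z →ₗ[ℚ] ℚ), ∀ lam (Y : GM (tg k 𝒜 𝒜)),
      Module.Finite (A ⊗[k] A) Y.M →
        κ lam (ucl _ Y) = cor k (fun M => lam (ucl _ M)) V Y := by
  obtain ⟨h1, h2⟩ := ql_iff.1 hV
  choose κ hκ using fun lam : G1 𝒜 z →ₗ[ℚ] ℚ =>
    exists_form' (h.cor_add (gadd_ucl lam) h1 h2) (h.vn_cor (gadd_ucl lam) (vn_ucl lam) hV)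
  refine ⟨⟨⟨κ, fun a b => ug_ext fun Y hY => ?_⟩, fun c a => ug_ext fun Y hY => ?_⟩, hκ⟩
  · rw [LinearMap.add_apply, hκ _ Y hY, hκ _ Y hY, hκ _ Y hY]
    exact (h.sv_lin (gadd_ucl a) (gadd_ucl b) (s := 1) (t := 1) (fun M _ => by simp)
      (tens_finite h1 hY)).trans (by simp [cor])
  · change κ (c • a) _ = c * κ a _
    rw [hκ _ Y hY, hκ _ Y hY]
    exact (h.sv_lin (gadd_ucl a) (gadd_ucl a) (s := c) (t := 0) (fun M _ => by simp)
      (tens_finite h1 hY)).trans (by simp [cor])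

theorem Std.act_eq (h : Std 𝒜 z θ) (hr : Rgl 𝒜 z) (hd : Dg θ Δ δ) (hx : IsX k z bx)
    (h₁ : IsT1 k z T₁) (h₂ : IsT2 k z T₂) (hβ : IsB k z β) {P : ℚ[X]} {n : ℕ}
    {u v : Fin n → G1 𝒜 z} (hP : Polynomial.aeval T₂ P (ucl _ Δ) = ∑ i, bx (u i) (v i))
    (x : G1 𝒜 z) : Polynomial.aeval T₁ P x = ∑ i, β (u i) x • v i := by
  have := h.finiteType
  suffices key : Polynomial.aeval T₁ P = ∑ i, (β (u i)).smulRight (v i) by
    rw [key, LinearMap.sum_apply]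
    rfl
  refine hr.ext fun V hV => ?_
  obtain ⟨h1, h2⟩ := ql_iff.1 hV
  obtain ⟨κ, hκ⟩ := h.exists_act hV
  have ha : ∀ lam, κ lam ∘ₗ T₂ = κ (lam ∘ₗ T₁) := fun lam => ug_ext fun Y hY => by
    rw [LinearMap.comp_apply, h₂ Y hY,
      hκ _ (verF k 𝒜 𝒜 Y) (res_finite (hm_Fr card_smul_eq_zero) (Fr_finite k A A) _ hY),
      hκ _ _ hY,
      h.cor_ver (gadd_ucl lam) h1 hY]
    exact (h.sv_lin (gadd_ucl (lam ∘ₗ T₁)) (gadd_ucl lam) (s := 1) (t := 0)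
      (fun M hM => by rw [LinearMap.comp_apply, h₁ M hM, one_mul, zero_mul, add_zero])
      (tens_finite h1 hY)).trans (by simp [cor])
  have hp : ∀ (m : ℕ) lam, κ lam ∘ₗ (T₂ ^ m) = κ (lam ∘ₗ (T₁ ^ m)) := fun m => by
    induction m with
    | zero => intro lam; simp [Module.End.one_eq_id]
    | succ m ih =>
      intro lam
      rw [pow_succ', pow_succ', Module.End.mul_eq_comp, Module.End.mul_eq_comp,
        ← LinearMap.comp_assoc, ← LinearMap.comp_assoc, ha, ih]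
  have hb : ∀ (Q : ℚ[X]) lam,
      κ lam ∘ₗ Polynomial.aeval T₂ Q = κ (lam ∘ₗ Polynomial.aeval T₁ Q) := fun Q lam => by
    induction Q using Polynomial.induction_on' with
    | add p q hp hq => simp only [map_add, LinearMap.comp_add, hp, hq]
    | monomial m a =>
      simp only [Polynomial.aeval_monomial, ← Algebra.smul_def, LinearMap.comp_smul, map_smul, hp]
  refine sub_eq_zero.1 ((Module.forall_dual_apply_eq_zero_iff ℚ _).1 fun lam => ?_)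
  have hc : bx.compr₂ (κ lam) = (β.flip (ucl _ V)).smulRight lam :=
    ug_ext fun W hW => ug_ext fun M hM => by
      change κ lam (bx _ _) = β _ _ * lam _
      rw [hx W M hW hM, hκ _ _ (gbox_finite hW hM), cor, h.sv_box (gadd_ucl lam) hW h1 hM, pair_eq,
        hβ.val W V hW hV]
  have hc' : ∀ a b, κ lam (bx a b) = β a (ucl _ V) * lam b := fun a b =>
    LinearMap.congr_fun (LinearMap.congr_fun hc a) b
  have e1 := LinearMap.congr_fun (hb P lam) (ucl _ Δ)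
  rw [LinearMap.comp_apply, hP, hκ _ _ hd.finite, cor,
    h.sv_dg hd (gadd_ucl _) (vn_ucl _) h1, map_sum] at e1
  rw [map_sub, sub_eq_zero, LinearMap.sum_apply, map_sum]
  refine e1.symm.trans (Finset.sum_congr rfl fun i _ => ?_)
  rw [hc', LinearMap.smulRight_apply, map_smul, smul_eq_mul]

end Pool.Agent.CXD
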