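import Pool.Agent.P.MP_2ce3e7_ag.EB1
import Pool.Agent.P.MP_2ce3e7_ag.EA2

/-! Tensor products with exterior products. -/

set_option linter.unusedSectionVars false
set_option linter.unusedVariables false

open Function Filter
open scoped TensorProduct Polynomial LaurentPolynomial

noncomputable section

namespace Pool.Agent.CXD

variable {k A σ : Type} [Field k] [CommRing A] [Algebra k A] [Fintype σ] {𝒜 : ℤ → Set A}
  {z : σ → A} {θ : A →ₐ[k] A[T;T⁻¹]} [Gd 𝒜] [Gk k 𝒜] [IsNoetherianRing A]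
  [IsNoetherianRing (A ⊗[k] A)]

/-- triple tensors -/
def tr_EB4 (W V : GM 𝒜) (F : GM (tg k 𝒜 𝒜)) (f : F.M) :
    W.M →+ V.M →+ (tens (hm_inr (k := k)) V (tens (hm_inl (k := k)) W F)).M :=
  (tt (hm_inr (k := k)) V (tens (hm_inl (k := k)) W F)).comp (tt (hm_inl (k := k)) W F f)

section
variable {W V : GM 𝒜} {F : GM (tg k 𝒜 𝒜)}

theorem tr_def_EB4 (f : F.M) (w : W.M) (v : V.M) : tr_EB4 W V F f w v =
    tt (hm_inr (k := k)) V (tens (hm_inl (k := k)) W F) (tt (hm_inl (k := k)) W F f w) v := rfl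

theorem tr_smul_EB4 (r : A ⊗[k] A) (f : F.M) (w : W.M) (v : V.M) :
    tr_EB4 W V F (r • f) w v = r • tr_EB4 W V F f w v := by
  rw [tr_def_EB4, tr_def_EB4, tt_smul, tt_smul]

theorem tr_add_EB4 (f f' : F.M) (w : W.M) (v : V.M) :
    tr_EB4 W V F (f + f') w v = tr_EB4 W V F f w v + tr_EB4 W V F f' w v := by
  rw [tr_def_EB4, tr_def_EB4, tr_def_EB4, ttl_CPB2, ttl_CPB2]

theorem tr_zero_EB4 (w : W.M) (v : V.M) : tr_EB4 W V F 0 w v = 0 := by
  have := tr_smul_EB4 (F := F) 0 0 w v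
  rwa [zero_smul, zero_smul] at this

theorem tr_inl_EB4 (a : A) (f : F.M) (w : W.M) (v : V.M) :
    tr_EB4 W V F (inl k A A a • f) w v = tr_EB4 W V F f (a • w) v := by
  rw [tr_def_EB4, tr_def_EB4, tt_bal]

theorem tr_inr_EB4 (b : A) (f : F.M) (w : W.M) (v : V.M) :
    tr_EB4 W V F (inr k A A b • f) w v = tr_EB4 W V F f w (b • v) := by
  rw [tr_def_EB4, tr_def_EB4, ← tt_smul, tt_bal]

theorem fwd_EB4 (W V : GM 𝒜) (F : GM (tg k 𝒜 𝒜)) :
    ∃ g : (tid F (gbox k W V)).M →ₗ[A ⊗[k] A]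
      (tens (hm_inr (k := k)) V (tens (hm_inl (k := k)) W F)).M,
      ∀ f w v, g (tt (hm_id _) F (gbox k W V) (gb k W V w v) f) = tr_EB4 W V F f w v := by
  have h1 : ∀ f : F.M, ∃ G : (gbox k W V).M →+
      (tens (hm_inr (k := k)) V (tens (hm_inl (k := k)) W F)).M,
      ∀ w v, G (gb k W V w v) = tr_EB4 W V F f w v := fun f =>
    gbox_lift (k := k) (N := W) (M := V) (tr_EB4 W V F f) fun c w v => by
      rw [← tr_inl_EB4, ← tr_inr_EB4]
      exact congrArg (fun r : A ⊗[k] A => tr_EB4 W V F (r • f) w v) (alg_tmul_CWJ2 c)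
  choose G hG using h1
  have h2 : ∀ y f f', G (f + f') y = G f y + G f' y := by
    intro y f f'
    induction y using gbox_ind with
    | h0 => simp only [map_zero, add_zero]
    | h1 c w d v _ _ => rw [hG, hG, hG, tr_add_EB4]
    | h2 x y hx hy => rw [map_add, map_add, map_add, hx, hy]; abel
  have h4 : ∀ (r : A ⊗[k] A) f y, G (r • f) y = r • G f y := by
    intro r f y
    induction y using gbox_ind with
    | h0 => simp only [map_zero, smul_zero]
    | h1 c w d v _ _ => rw [hG, hG, tr_smul_EB4]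
    | h2 x y hx hy => rw [map_add, map_add, hx, hy, smul_add]
  have h5 : ∀ (r : A ⊗[k] A) y f, G f (r • y) = r • G f y := by
    intro r y f
    induction r using TensorProduct.induction_on with
    | zero => rw [zero_smul, zero_smul, map_zero]
    | add r r' hr hr' => rw [add_smul, add_smul, map_add, hr, hr']
    | tmul a b =>
      induction y using gbox_ind with
      | h0 => simp only [map_zero, smul_zero]
      | h1 c w d v _ _ =>
        rw [smul_gb, hG, hG, ← tr_smul_EB4, ← tr_inr_EB4, ← tr_inl_EB4, ← mul_smul, tmul_CWN3]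
      | h2 x y hx hy => rw [smul_add, map_add, map_add, hx, hy, smul_add]
  obtain ⟨g, hg⟩ := lin_CPB2 (hm_id (tg k 𝒜 𝒜)) (V := F) (Y := gbox k W V) (fun y f => G f y)
    (fun y y' f => map_add _ _ _) h2 (fun r y f => (h5 r y f).trans (h4 r f y).symm) h5
  exact ⟨g, fun f w v => (hg _ _).trans (hG f w v)⟩

theorem bwd_EB4 (W V : GM 𝒜) (F : GM (tg k 𝒜 𝒜)) :
    ∃ g : (tens (hm_inr (k := k)) V (tens (hm_inl (k := k)) W F)).M →+ (tid F (gbox k W V)).M,
      ∀ f w v, g (tr_EB4 W V F f w v) = tt (hm_id _) F (gbox k W V) (gb k W V w v) f := by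
  have hb : ∀ (r : A ⊗[k] A) y f, tt (hm_id (tg k 𝒜 𝒜)) F (gbox k W V) y (r • f) =
      tt (hm_id (tg k 𝒜 𝒜)) F (gbox k W V) (r • y) f := fun r y f => (tt_bal r y f).symm
  have h1 : ∀ v : V.M, ∃ H : (tens (hm_inl (k := k)) W F).M →+ (tid F (gbox k W V)).M,
      ∀ f w, H (tt (hm_inl (k := k)) W F f w) =
        tt (hm_id _) F (gbox k W V) (gb k W V w v) f := fun v =>
    add_CPB2 (hm_inl (k := k)) (V := W) (Y := F)
      (fun f w => tt (hm_id _) F (gbox k W V) (gb k W V w v) f) (fun f f' w => map_add _ _ _)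
      (fun f w w' => by rw [map_add, AddMonoidHom.add_apply, ttl_CPB2])
      (fun a f w => by rw [hb, inl_gb_CWS3])
  choose H hH using h1
  obtain ⟨g, hg⟩ := add_CPB2 (hm_inr (k := k)) (V := V) (Y := tens (hm_inl (k := k)) W F)
    (fun p v => H v p) (fun p p' v => map_add _ _ _)
    (fun p v v' => by
      induction p using tens_ind with
      | h0 => simp only [map_zero, add_zero]
      | h1 γ f c w _ _ => rw [hH, hH, hH, map_add, ttl_CPB2]
      | h2 x y hx hy => rw [map_add, map_add, map_add, hx, hy]; abel)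
    (fun b p v => by
      induction p using tens_ind with
      | h0 => simp only [map_zero, smul_zero]
      | h1 γ f c w _ _ => rw [tt_smul, hH, hH, hb, inr_gb_CWS3]
      | h2 x y hx hy => rw [smul_add, map_add, map_add, hx, hy])
  exact ⟨g, fun f w v => (hg _ _).trans (hH v f w)⟩

end

theorem box_tens (W V : GM 𝒜) (F : GM (tg k 𝒜 𝒜)) :
    ∃ g : (tid F (gbox k W V)).M →ₗ[A ⊗[k] A]
      (tens (hm_inr (k := k)) V (tens (hm_inl (k := k)) W F)).M, IsG g ∧ Bijective g := by
  obtain ⟨g, hg⟩ := fwd_EB4 W V F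
  obtain ⟨g', hg'⟩ := bwd_EB4 W V F
  refine ⟨g, fun γ x => ?_, bijective_iff_has_inverse.2 ⟨g', fun x => ?_, fun x => ?_⟩⟩
  · induction x using tens_ind with
    | h0 => simp only [map_zero]
    | h2 x y hx hy => simp only [map_add, hx, hy]
    | h1 γ' y c f hy hf =>
      clear hy
      induction y using gbox_ind with
      | h0 => simp only [map_zero, AddMonoidHom.zero_apply]
      | h2 x y hx hy => simp only [map_add, AddMonoidHom.add_apply, hx, hy]
      | h1 d w e v hw hv =>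
        rw [tens_π γ _ hf, gbox_π, hg, hg, tr_def_EB4 f w v, tens_π γ _ hv, tens_π _ _ hw,
          ← tr_def_EB4]
        by_cases hc : γ = c + (d, e)
        · subst hc
          have e1 : (c + (d, e) - AddMonoidHom.id (ℤ × ℤ) c).1 = d := by simp
          have e2 : (c + (d, e) - AddMonoidHom.id (ℤ × ℤ) c).2 = e := by simp
          have e3 : c + (d, e) - AddMonoidHom.inr ℤ ℤ e - AddMonoidHom.inl ℤ ℤ d = c := by
            ext <;> simp
          rw [e1, e2, e3, hw, hv, hf]
        · have e3 : γ - AddMonoidHom.inr ℤ ℤ e - AddMonoidHom.inl ℤ ℤ d ≠ c := by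
            rintro rfl
            exact hc (by ext <;> simp)
          rw [GM.π_of_ne hf e3, tr_zero_EB4]
          by_cases h1 : (γ - AddMonoidHom.id (ℤ × ℤ) c).1 = d
          · have h2 : (γ - AddMonoidHom.id (ℤ × ℤ) c).2 ≠ e := fun h2 =>
              hc (by rw [← h1, ← h2]; ext <;> simp)
            rw [GM.π_of_ne hv h2, map_zero]
          · rw [GM.π_of_ne hw h1, map_zero, AddMonoidHom.zero_apply]
  · induction x using tens_ind with
    | h0 => simp only [map_zero]
    | h2 x y hx hy => simp only [map_add, hx, hy]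
    | h1 γ' y c f hy hf =>
      clear hy
      induction y using gbox_ind with
      | h0 => simp only [map_zero, AddMonoidHom.zero_apply]
      | h2 x y hx hy => simp only [map_add, AddMonoidHom.add_apply, hx, hy]
      | h1 d w e v hw hv => rw [hg, hg']
  · induction x using tens_ind with
    | h0 => simp only [map_zero]
    | h2 x y hx hy => simp only [map_add, hx, hy]
    | h1 γ' p e v hp hv =>
      clear hp
      induction p using tens_ind with
      | h0 => simp only [map_zero, AddMonoidHom.zero_apply]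
      | h2 x y hx hy => simp only [map_add, AddMonoidHom.add_apply, hx, hy]
      | h1 c f d w hf hw => rw [← tr_def_EB4, hg', hg]

theorem slc_tens (V : GM 𝒜) (Y : GM (tg k 𝒜 𝒜)) (t : ℤ) :
    ∃ g : (slc t (tens (hm_inr (k := k)) V Y)).M →ₗ[A] (tid V (slc t Y)).M,
      IsG g ∧ Bijective g := by
  have e : ∀ c : ℤ, ((t, 0) : ℤ × ℤ) + AddMonoidHom.inr ℤ ℤ c = (t, c) := fun c => by simp
  obtain ⟨j, hj⟩ := isRes_slc t Y
  have hj' : IsRes (inr k A A) (AddMonoidHom.inr ℤ ℤ) (slc t Y) (Y.shift (t, 0)) j :=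
    ⟨hj.inj, hj.smul, fun c y => (hj.π c y).trans (by rw [← e]),
      fun c x => (hj.sur c x).imp fun y hy => hy.trans (by rw [← e])⟩
  obtain ⟨J, hJ⟩ := tens_res' (hm_id 𝒜) (hm_inr (k := k)) (hm_inr (k := k)) (fun _ => rfl)
    (fun _ => rfl) V hj'
  obtain ⟨s, hs, hb⟩ := tens_shiftY (hm_inr (k := k) (𝒜 := 𝒜) (ℬ := 𝒜)) V Y (t, 0)
  have hs' : ∀ (c : ℤ) x,
      s ((tens (hm_inr (k := k)) V (Y.shift (t, 0))).π (AddMonoidHom.inr ℤ ℤ c) x) =
        (tens (hm_inr (k := k)) V Y).π (t, c) (s x) := fun c x =>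
    (hs _ x).trans (congrArg (fun u => (tens (hm_inr (k := k)) V Y).π u (s x)) (e c))
  have h2 : IsRes (inr k A A) (fun c => (t, c)) (tid V (slc t Y)) (tens (hm_inr (k := k)) V Y)
      (s.toAddMonoidHom.comp J) := by
    refine ⟨hb.1.comp hJ.inj, fun a y => ?_, fun c y => ?_, fun c x => ?_⟩
    · exact (congrArg s (hJ.smul a y)).trans (s.map_smul _ _)
    · exact (congrArg s (hJ.π c y)).trans (hs' c _)
    · obtain ⟨x', rfl⟩ := hb.2 x
      obtain ⟨y, hy⟩ := hJ.sur c x'
      exact ⟨y, (congrArg s hy).trans (hs' c _)⟩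
  obtain ⟨j₁, h₁⟩ := isRes_slc t (tens (hm_inr (k := k)) V Y)
  exact h₁.iso h2

theorem Std.sv_box_tid (h : Std 𝒜 z θ) {l : GM 𝒜 → ℚ} (hl : GAdd l) {W V : GM 𝒜}
    (hW : Module.Finite A W.M) (hV : Module.Finite A V.M) {F : GM (tg k 𝒜 𝒜)}
    (hF : Module.Finite (A ⊗[k] A) F.M) :
    sv l (tid F (gbox k W V)) = cor k (fun M => l (tid V M)) W F := by
  obtain ⟨g, hg, hb⟩ := box_tens W V F
  have h1 := tens_finite (h := hm_inl (k := k)) hW hF
  rw [(h.sv_add hl).congr (tens_finite hV h1) hg hb]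
  unfold cor sv
  refine congrArg ev0 (funext fun t => ?_)
  obtain ⟨g', hg', hb'⟩ := slc_tens V (tens (hm_inl (k := k)) W F) t
  exact hl.congr (tens_finite hV (h.slc_finite h1 t)) hg' hb'

end Pool.Agent.CXD
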