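import Pool.Agent.P.MP_2ce3e7_ag.EB3
import Pool.Agent.P.MP_2ce3e7_ag.EB4
import Pool.Agent.P.MP_2ce3e7_ag.EA4

/-! The intersection with the diagonal. -/

set_option linter.unusedSectionVars false
set_option linter.unusedVariables false

open Function Filter
open scoped TensorProduct Polynomial LaurentPolynomial

noncomputable section

namespace Pool.Agent.CXD

variable {k A σ : Type} [Field k] [Fintype k] [CommRing A] [Algebra k A] [Fintype σ] {𝒜 : ℤ → Set A}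
  {z : σ → A} {θ : A →ₐ[k] A[T;T⁻¹]} [Gd 𝒜] [Gk k 𝒜] [IsNoetherianRing A]
  [IsNoetherianRing (A ⊗[k] A)]
  {bx : G1 𝒜 z →ₗ[ℚ] G1 𝒜 z →ₗ[ℚ] G2 k 𝒜 z} {β : G1 𝒜 z →ₗ[ℚ] G1 𝒜 z →ₗ[ℚ] ℚ}
  {Δ : GM (tg k 𝒜 𝒜)} {δ : Δ.M}

theorem Std.exists_lam (h : Std 𝒜 z θ) (hr : Rgl 𝒜 z) (hr₂ : Rgl (tg k 𝒜 𝒜) (zz k z))
    (hd : Dg θ Δ δ) (hx : IsX k z bx) (hβ : IsB k z β) :
    ∃ lam : G2 k 𝒜 z →ₗ[ℚ] ℚ, (∀ u v, lam (bx u v) = β u v) ∧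
      ∀ Y : GM (tg k 𝒜 𝒜), Module.Finite (A ⊗[k] A) Y.M →
        (∀ n, Tn (Set.range (zz k z)) Y.M n Δ.M) → lam (ucl _ Y) = chi2 k (tid Δ Y) := by
  have a2 := h.gadd_chi2 h.gadd_chi
  have v2 := h.vn_chi2 h.gadd_chi h.vn_chi
  obtain ⟨B, hB⟩ := hr₂.pairing a2 v2
  obtain ⟨U, e, hU⟩ := h.exists_rg
  have hU₂ := hU.gbox (k := k) hU
  rw [Ideal.map_bot] at hU₂
  refine ⟨B.flip (ucl _ Δ), fun u v => ?_, fun Y hY ht =>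
    hr₂.tn hU₂ a2 v2 hY (Λ := B (ucl _ Y)) (fun F hF => hB Y F hY hF) hd.finite ht⟩
  refine LinearMap.congr_fun (LinearMap.congr_fun (f := bx.compr₂ (B.flip (ucl _ Δ))) (g := β)
    (hr.ext fun W hW => hr.ext fun V hV => ?_) u) v
  obtain ⟨fW, lW⟩ := ql_iff.1 hW
  obtain ⟨fV, lV⟩ := ql_iff.1 hV
  have a1 := gadd_tid h.gadd_chi h.vn_chi hV
  have v1 := vn_tid h.vn_chi fV
  obtain ⟨Λ, hΛ⟩ := exists_form' (h.cor_add a1 fW lW) (h.vn_cor a1 v1 hW)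
  have fb : Module.Finite (A ⊗[k] A) (gbox k W V).M := gbox_finite fW fV
  have e1 : B (ucl _ (gbox k W V)) = Λ := hr₂.ext fun F hF => by
    have fF : Module.Finite (A ⊗[k] A) F.M := hF.1
    rw [hB _ F fb hF, hΛ F fF]
    exact h.sv_box_tid h.gadd_chi fW fV fF
  rw [LinearMap.compr₂_apply, hx W V fW fV, LinearMap.flip_apply, e1, hΛ Δ hd.finite,
    hβ.val W V fW hV]
  exact h.sv_dg hd a1 v1 fW

end Pool.Agent.CXD
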