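import Pool.Agent.P.MP_2ce3e7_ag.EA0

/-! Rules for Tor-independence. -/

set_option linter.unusedSectionVars false
set_option linter.unusedVariables false

open Function Filter
open scoped TensorProduct Polynomial

noncomputable section

namespace Pool.Agent.CXD

variable {R M M' N N' N₁ N₂ N₃ : Type} [CommRing R] [AddCommGroup M] [Module R M]
  [AddCommGroup M'] [Module R M'] [AddCommGroup N] [Module R N] [AddCommGroup N'] [Module R N']
  [AddCommGroup N₁] [Module R N₁] [AddCommGroup N₂] [Module R N₂] [AddCommGroup N₃] [Module R N₃]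
  {S : Set R} {n : ℕ}

theorem one_iff_EC1 (f : M →ₗ[R] M') :
    (∀ ξ : N ⊗[R] M, f.lTensor N ξ = 0 → ∀ s ∈ ({(1 : R)} : Set R), ∃ m : ℕ, s ^ m • ξ = 0) ↔
      Injective (f.lTensor N) := by
  rw [injective_iff_map_eq_zero]
  constructor
  · intro h ξ hξ
    obtain ⟨m, hm⟩ := h ξ hξ 1 rfl
    simpa using hm
  · intro h ξ hξ s _
    exact ⟨0, by rw [h ξ hξ, smul_zero]⟩

theorem comm_EC1 (a : N →ₗ[R] N') (f : M →ₗ[R] M') (ξ : N ⊗[R] M) :
    f.lTensor N' (a.rTensor M ξ) = a.rTensor M' (f.lTensor N ξ) := by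
  rw [← LinearMap.comp_apply, ← LinearMap.comp_apply, LinearMap.rTensor_comp_lTensor,
    LinearMap.lTensor_comp_rTensor]

theorem tn_flat [Module.Flat R N] : Tn S N n M := by
  induction n generalizing M with
  | zero => trivial
  | succ n ih =>
    intro K F _ _ _ _ f g hF hs
    refine ⟨fun ξ hξ s _ => ⟨0, ?_⟩, ih⟩
    have := Module.Flat.lTensor_preserves_injective_linearMap (M := N) f hs.1
    rw [(injective_iff_map_eq_zero _).1 this ξ hξ, smul_zero]

theorem Tn.ses {a : N₁ →ₗ[R] N₂} {b : N₂ →ₗ[R] N₃} (hs : Sx a b) (h₁ : Tn {(1 : R)} N₁ n M)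
    (h₂ : Tn {(1 : R)} N₂ n M) (hi : Injective (a.rTensor M)) : Tn {(1 : R)} N₃ n M := by
  induction n generalizing M with
  | zero => trivial
  | succ n ih =>
    intro K F _ _ _ _ f g hF hfg
    obtain ⟨p₁, q₁⟩ := h₁ K F f g hF hfg
    obtain ⟨p₂, q₂⟩ := h₂ K F f g hF hfg
    rw [one_iff_EC1] at p₁ p₂
    refine ⟨(one_iff_EC1 f).2 ?_, ih q₁ q₂ ?_⟩
    · exact lTensor_injective_of_exact_of_exact_of_rTensor_injective hs.2.2 hs.2.1 hfg.2.2
        hfg.2.1 hi p₂
    · rw [injective_iff_map_eq_zero]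
      intro ξ hξ
      have h3 := comm_EC1 a f ξ
      rw [hξ, map_zero] at h3
      have h4 := Module.Flat.rTensor_preserves_injective_linearMap (M := F) a hs.1
      exact (injective_iff_map_eq_zero _).1 p₁ ξ ((injective_iff_map_eq_zero _).1 h4 _ h3.symm)

theorem Tn.retract (h : Tn S N n M) (a : N' →ₗ[R] N) (b : N →ₗ[R] N') (hab : ∀ x, b (a x) = x) :
    Tn S N' n M := by
  induction n generalizing M with
  | zero => trivial
  | succ n ih =>
    intro K F _ _ _ _ f g hF hfg
    obtain ⟨p, q⟩ := h K F f g hF hfg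
    refine ⟨fun ξ hξ s hs => ?_, ih q⟩
    obtain ⟨m, hm⟩ := p (a.rTensor K ξ) (by rw [comm_EC1, hξ, map_zero]) s hs
    refine ⟨m, ?_⟩
    have hba : b ∘ₗ a = LinearMap.id := LinearMap.ext hab
    have h3 := congrArg (b.rTensor K) hm
    rwa [map_smul, map_zero, ← LinearMap.comp_apply, ← LinearMap.rTensor_comp, hba,
      LinearMap.rTensor_id, LinearMap.id_apply] at h3

theorem Tn.congr (h : Tn S N n M) (e : M ≃ₗ[R] M') : Tn S N n M' := by
  cases n with
  | zero => trivial
  | succ n =>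
    intro K F _ _ _ _ f g hF hfg
    refine h K F f (e.symm.toLinearMap ∘ₗ g) hF ⟨hfg.1, e.symm.surjective.comp hfg.2.1, ?_⟩
    intro y
    rw [← hfg.2.2 y]
    simp

theorem tn_glue {τ : Type} (w : τ → R) {I : Ideal R} (hI : Kill I N)
    (hS : ∀ s ∈ S, s ∈ (I ⊔ Ideal.span (Set.range w)).radical)
    (h : ∀ i, ∃ (P : Type) (_ : AddCommGroup P) (_ : Module R P) (j : N →ₗ[R] P),
      IsLocalizedModule (Submonoid.powers (w i)) j ∧ Tn {(1 : R)} P n M) : Tn S N n M := by
  induction n generalizing M with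
  | zero => trivial
  | succ n ih =>
    intro K F _ _ _ _ f g hF hfg
    refine ⟨fun ξ hξ s hs => ?_, ih fun i => ?_⟩
    · have key : I ⊔ Ideal.span (Set.range w) ≤ (Ideal.torsionOf R _ ξ).radical := by
        refine sup_le (fun x hx => Ideal.le_radical ?_) ?_
        · rw [Ideal.mem_torsionOf_iff]
          have : ∀ η : N ⊗[R] K, x • η = 0 := by
            intro η
            induction η using TensorProduct.induction_on with
            | zero => exact smul_zero _
            | tmul y z => rw [TensorProduct.smul_tmul', hI x hx y, TensorProduct.zero_tmul]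
            | add y z hy hz => rw [smul_add, hy, hz, add_zero]
          exact this ξ
        · rw [Ideal.span_le]
          rintro _ ⟨i, rfl⟩
          obtain ⟨P, _, _, j, hj, hT⟩ := h i
          have p := (one_iff_EC1 f).1 (hT K F f g hF hfg).1
          have h0 : j.rTensor K ξ = 0 :=
            (injective_iff_map_eq_zero _).1 p _ (by rw [comm_EC1, hξ, map_zero])
          have h1 : TensorProduct.AlgebraTensorModule.rTensor R K j ξ = 0 := h0
          obtain ⟨⟨_, m, rfl⟩, hm⟩ :=
            (IsLocalizedModule.eq_zero_iff (Submonoid.powers (w i)) _).1 h1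
          exact ⟨m, (Ideal.mem_torsionOf_iff _ _).2 hm⟩
      obtain ⟨m, hm⟩ := Ideal.radical_le_radical_iff.2 key (hS s hs)
      exact ⟨m, (Ideal.mem_torsionOf_iff _ _).1 hm⟩
    · obtain ⟨P, i₁, i₂, j, hj, hT⟩ := h i
      exact ⟨P, i₁, i₂, j, hj, (hT K F f g hF hfg).2⟩

end Pool.Agent.CXD
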