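import Pool.Agent.P.MP_2ce3e7_ag.EC1

/-! Regular sequences and Tor-independence. -/

set_option linter.unusedSectionVars false
set_option linter.unusedVariables false

open Function Filter
open scoped TensorProduct Polynomial

noncomputable section

namespace Pool.Agent.CXD

variable {R L : Type} [CommRing R] [CommRing L]

/-- `b` is regular modulo `J` -/
def Nzd (J : Ideal L) (b : L) : Prop := ∀ x, b * x ∈ J → x ∈ J

/-- the ideal of the first `i` members -/
def lv {e : ℕ} (b : Fin e → L) (i : ℕ) : Ideal L := Ideal.span (b '' {j | j.val < i})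

/-- a regular sequence modulo `J` -/
def Rq {e : ℕ} (J : Ideal L) (b : Fin e → L) : Prop := ∀ i : Fin e, Nzd (J ⊔ lv b i) (b i)

variable [Algebra R L] {I : Ideal R} {J J' : Ideal L} {n e : ℕ}

/-- the map of `L` onto the tensor product of the two quotients -/
def psi_EC2 (I : Ideal R) (J : Ideal L) : L →ₐ[R] (L ⧸ J) ⊗[R] (R ⧸ I) :=
  (Algebra.TensorProduct.includeLeft).comp (Ideal.Quotient.mkₐ R J)

theorem psi_apply_EC2 (x : L) :
    psi_EC2 I J x = (Ideal.Quotient.mk J x) ⊗ₜ[R] (1 : R ⧸ I) := rfl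

theorem psi_surj_EC2 : Surjective (psi_EC2 I J) := by
  intro ξ
  induction ξ using TensorProduct.induction_on with
  | zero => exact ⟨0, map_zero _⟩
  | add x y hx hy =>
    obtain ⟨u, rfl⟩ := hx
    obtain ⟨v, rfl⟩ := hy
    exact ⟨u + v, map_add _ _ _⟩
  | tmul x r =>
    obtain ⟨u, rfl⟩ := Ideal.Quotient.mk_surjective x
    obtain ⟨s, rfl⟩ := Ideal.Quotient.mk_surjective r
    refine ⟨s • u, ?_⟩
    rw [map_smul, psi_apply_EC2, ← TensorProduct.tmul_smul]
    have : s • (1 : R ⧸ I) = Ideal.Quotient.mk I s := by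
      rw [Algebra.smul_def, mul_one]; rfl
    rw [this]

theorem psi_zero_EC2 (x : L) : psi_EC2 I J x = 0 ↔ x ∈ J ⊔ I.map (algebraMap R L) := by
  constructor
  · intro hx
    let K : Ideal L := J ⊔ I.map (algebraMap R L)
    let g : (R ⧸ I) →ₐ[R] L ⧸ K := Ideal.Quotient.liftₐ I (Algebra.ofId R (L ⧸ K)) (by
      intro r hr
      change Ideal.Quotient.mk K (algebraMap R L r) = 0
      exact Ideal.Quotient.eq_zero_iff_mem.2
        (Ideal.mem_sup_right (Ideal.mem_map_of_mem _ hr)))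
    let f : (L ⧸ J) →ₐ[R] L ⧸ K := Ideal.Quotient.factorₐ R le_sup_left
    have h := congrArg (Algebra.TensorProduct.lift f g (fun _ _ => Commute.all _ _)) hx
    rw [map_zero, psi_apply_EC2, Algebra.TensorProduct.lift_tmul, map_one, mul_one] at h
    exact Ideal.Quotient.eq_zero_iff_mem.1 h
  · intro hx
    have hle : J ⊔ I.map (algebraMap R L) ≤ RingHom.ker (psi_EC2 I J) := by
      refine sup_le (fun y hy => ?_) (Ideal.map_le_iff_le_comap.2 fun r hr => ?_)
      · rw [RingHom.mem_ker, psi_apply_EC2, Ideal.Quotient.eq_zero_iff_mem.2 hy,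
          TensorProduct.zero_tmul]
      · rw [Ideal.mem_comap, RingHom.mem_ker, AlgHom.commutes,
          Algebra.TensorProduct.algebraMap_apply']
        have : algebraMap R (R ⧸ I) r = 0 := Ideal.Quotient.eq_zero_iff_mem.2 hr
        rw [this, TensorProduct.tmul_zero]
    exact hle hx

theorem lv_succ_EC2 (b : Fin e → L) (i : ℕ) (hi : i < e) :
    lv b (i + 1) = lv b i ⊔ Ideal.span {b ⟨i, hi⟩} := by
  unfold lv
  rw [← Ideal.span_union]
  refine congrArg Ideal.span ?_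
  ext y
  constructor
  · rintro ⟨j, hj, rfl⟩
    rcases Nat.lt_succ_iff_lt_or_eq.1 hj with h | h
    · exact Or.inl ⟨j, h, rfl⟩
    · exact Or.inr (congrArg b (Fin.ext h))
  · rintro (⟨j, hj, rfl⟩ | h)
    · exact ⟨j, Nat.lt_succ_of_lt hj, rfl⟩
    · exact ⟨⟨i, hi⟩, Nat.lt_succ_self i, h.symm⟩

theorem ti_step {b : L} (h : Tn {(1 : R)} (L ⧸ J) n (R ⧸ I)) (h1 : Nzd J b)
    (h2 : Nzd (J ⊔ I.map (algebraMap R L)) b) :
    Tn {(1 : R)} (L ⧸ (J ⊔ Ideal.span {b})) n (R ⧸ I) := by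
  let a : (L ⧸ J) →ₗ[R] L ⧸ J := LinearMap.mulLeft R (Ideal.Quotient.mk J b)
  let q : (L ⧸ J) →ₗ[R] L ⧸ (J ⊔ Ideal.span {b}) :=
    (Ideal.Quotient.factorₐ R (le_sup_left : J ≤ J ⊔ Ideal.span {b})).toLinearMap
  have ha : ∀ x : L, a (Ideal.Quotient.mk J x) = Ideal.Quotient.mk J (b * x) := fun x => by
    rw [map_mul]; rfl
  have hq : ∀ x : L, q (Ideal.Quotient.mk J x) = Ideal.Quotient.mk _ x := fun x => rfl
  refine Tn.ses (a := a) (b := q) ⟨?_, ?_, ?_⟩ h h ?_
  · rw [injective_iff_map_eq_zero]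
    intro y hy
    obtain ⟨x, rfl⟩ := Ideal.Quotient.mk_surjective y
    rw [ha] at hy
    exact Ideal.Quotient.eq_zero_iff_mem.2 (h1 x (Ideal.Quotient.eq_zero_iff_mem.1 hy))
  · intro y
    obtain ⟨x, rfl⟩ := Ideal.Quotient.mk_surjective y
    exact ⟨_, hq x⟩
  · intro y
    obtain ⟨x, rfl⟩ := Ideal.Quotient.mk_surjective y
    rw [hq, Ideal.Quotient.eq_zero_iff_mem]
    constructor
    · intro hx
      obtain ⟨j, hj, z, hz, rfl⟩ := Submodule.mem_sup.1 hx
      obtain ⟨c, rfl⟩ := Ideal.mem_span_singleton'.1 hz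
      refine ⟨Ideal.Quotient.mk J c, ?_⟩
      rw [ha, map_add, Ideal.Quotient.eq_zero_iff_mem.2 hj, zero_add, mul_comm]
    · rintro ⟨w, hw⟩
      obtain ⟨c, rfl⟩ := Ideal.Quotient.mk_surjective w
      rw [ha, Ideal.Quotient.eq] at hw
      have : x = -(b * c - x) + c * b := by ring
      rw [this]
      exact add_mem (Ideal.mem_sup_left (neg_mem hw))
        (Ideal.mem_sup_right (Ideal.mem_span_singleton'.2 ⟨c, rfl⟩))
  · rw [injective_iff_map_eq_zero]
    intro ξ hξ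
    obtain ⟨x, rfl⟩ := psi_surj_EC2 ξ
    rw [psi_apply_EC2, LinearMap.rTensor_tmul, ha, ← psi_apply_EC2, psi_zero_EC2] at hξ
    exact (psi_zero_EC2 x).2 (h2 x hξ)

theorem ti_seq [Module.Flat R L] {b : Fin e → L} (h1 : Rq ⊥ b)
    (h2 : Rq (I.map (algebraMap R L)) b) :
    Tn {(1 : R)} (L ⧸ Ideal.span (Set.range b)) n (R ⧸ I) := by
  have key : ∀ i : ℕ, i ≤ e → ∀ K : Ideal L, K = lv b i → Tn {(1 : R)} (L ⧸ K) n (R ⧸ I) := by
    intro i
    induction i with
    | zero =>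
      intro _ K hK
      have hb : K = ⊥ := by
        rw [hK]
        unfold lv
        rw [Ideal.span_eq_bot]
        rintro _ ⟨j, hj, rfl⟩
        exact absurd hj (Nat.not_lt_zero _)
      subst hb
      let ε : (L ⧸ (⊥ : Ideal L)) ≃ₐ[R] L := AlgEquiv.quotientBot R L
      exact Tn.retract (tn_flat (N := L)) ε.toLinearMap ε.symm.toLinearMap
        (fun x => ε.symm_apply_apply x)
    | succ i ih =>
      intro hi K hK
      have hi' : i < e := hi
      rw [lv_succ_EC2 b i hi'] at hK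
      subst hK
      refine ti_step (ih hi'.le _ rfl) ?_ ?_
      · have := h1 ⟨i, hi'⟩
        rwa [bot_sup_eq] at this
      · have := h2 ⟨i, hi'⟩
        rwa [sup_comm] at this
  refine key e le_rfl _ ?_
  unfold lv
  refine congrArg Ideal.span ?_
  ext y
  constructor
  · rintro ⟨j, rfl⟩
    exact ⟨j, j.2, rfl⟩
  · rintro ⟨j, _, rfl⟩
    exact ⟨j, rfl⟩

theorem ti_retr {M : Type} [AddCommGroup M] [Module R M] (h : Tn {(1 : R)} (L ⧸ J) n M)
    (hJ : J ≤ J') {t : L} (h1 : ∀ x ∈ J', t * x ∈ J) (h2 : 1 - t ∈ J') :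
    Tn {(1 : R)} (L ⧸ J') n M := by
  let a : (L ⧸ J') →ₗ[L] L ⧸ J := Submodule.mapQ J' J (LinearMap.mulLeft L t) (fun x hx => h1 x hx)
  refine Tn.retract h (a.restrictScalars R) (Ideal.Quotient.factorₐ R hJ).toLinearMap ?_
  intro y
  obtain ⟨x, rfl⟩ := Ideal.Quotient.mk_surjective y
  change Ideal.Quotient.mk J' (t * x) = Ideal.Quotient.mk J' x
  rw [Ideal.Quotient.eq]
  have : t * x - x = -x * (1 - t) := by ring
  rw [this]
  exact J'.mul_mem_left _ h2

end Pool.Agent.CXD
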