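import Pool.Agent.P.MP_2ce3e7_ag.EC2

/-! Examples of regular sequences. -/

set_option linter.unusedSectionVars false
set_option linter.unusedVariables false

open Function Filter
open scoped TensorProduct Polynomial

noncomputable section

namespace Pool.Agent.CXD

variable {S L : Type} [CommRing S] [CommRing L] {e : ℕ} {J : Ideal S} {b : Fin e → S}

theorem Nzd.map {φ : S →+* L} (hφ : φ.Flat) {a : S} (h : Nzd J a) : Nzd (J.map φ) (φ a) := by
  let _ := φ.toAlgebra
  have : Module.Flat S L := hφ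
  have h1 : Injective (LinearMap.lsmul S (S ⧸ J) a) := by
    rw [injective_iff_map_eq_zero]
    intro y hy
    obtain ⟨x, rfl⟩ := Ideal.Quotient.mk_surjective y
    exact Ideal.Quotient.eq_zero_iff_mem.2 (h x (Ideal.Quotient.eq_zero_iff_mem.1 hy))
  have h2 := Module.Flat.lTensor_preserves_injective_linearMap (M := L) _ h1
  have h3 : ∀ z : L ⊗[S] (S ⧸ J), (LinearMap.lsmul S (S ⧸ J) a).lTensor L z = a • z := by
    intro z
    induction z using TensorProduct.induction_on with
    | zero => rw [map_zero, smul_zero]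
    | tmul x y => rw [LinearMap.lTensor_tmul, LinearMap.lsmul_apply, TensorProduct.tmul_smul]
    | add x y hx hy => rw [map_add, smul_add, hx, hy]
  have h4 : ∀ x : L, x ∈ J.map φ ↔ x ∈ J • (⊤ : Submodule S L) := by
    intro x
    rw [Ideal.smul_top_eq_map]
    rfl
  intro x hx
  let E := TensorProduct.tensorQuotEquivQuotSMul L J
  have h5 : a • (Submodule.Quotient.mk x : L ⧸ J • (⊤ : Submodule S L)) = 0 := by
    rw [← Submodule.Quotient.mk_smul, Submodule.Quotient.mk_eq_zero]
    exact (h4 _).1 hx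
  have h6 : E.symm (Submodule.Quotient.mk x) = 0 := by
    apply h2
    rw [h3, map_zero, ← map_smul, h5, map_zero]
  rw [LinearEquiv.map_eq_zero_iff, Submodule.Quotient.mk_eq_zero] at h6
  exact (h4 _).2 h6

theorem lv_map_EC3 (φ : S →+* L) (b : Fin e → S) (i : ℕ) :
    (lv b i).map φ = lv (fun j => φ (b j)) i := by
  unfold lv
  rw [Ideal.map_span, Set.image_image]

theorem Rq.map {φ : S →+* L} (hφ : φ.Flat) (h : Rq J b) : Rq (J.map φ) fun i => φ (b i) := by
  intro i
  have h1 := Nzd.map hφ (h i)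
  rwa [Ideal.map_sup, lv_map_EC3] at h1

theorem Rq.comap {π : S →+* L} (hπ : Surjective π) (h : Rq ⊥ fun i => π (b i)) :
    Rq (RingHom.ker π) b := by
  intro i x hx
  have h1 : RingHom.ker π ⊔ lv b i = (lv (fun j => π (b j)) i).comap π := by
    rw [← lv_map_EC3, Ideal.comap_map_of_surjective π hπ, sup_comm]
    rfl
  rw [h1, Ideal.mem_comap] at hx ⊢
  have h2 := h i (π x)
  rw [bot_sup_eq] at h2
  exact h2 (by rwa [map_mul] at hx)

theorem Rq.neg (h : Rq J b) : Rq J fun i => -b i := by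
  intro i x hx
  have h1 : lv (fun j => -b j) i = lv b i := by
    unfold lv
    apply le_antisymm
    · refine Ideal.span_le.2 ?_
      rintro _ ⟨j, hj, rfl⟩
      exact neg_mem (Ideal.subset_span ⟨j, hj, rfl⟩)
    · refine Ideal.span_le.2 ?_
      rintro _ ⟨j, hj, rfl⟩
      exact neg_mem_iff.1 (Ideal.subset_span ⟨j, hj, rfl⟩)
  rw [h1] at hx ⊢
  refine h i x ?_
  rw [neg_mul] at hx
  exact neg_mem_iff.1 hx

theorem nzd_monic_EC3 (J : Ideal S) {q : S[X]} (hq : q.Monic) : Nzd (J.map Polynomial.C) q := by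
  have h1 : J.map Polynomial.C = RingHom.ker (Polynomial.mapRingHom (Ideal.Quotient.mk J)) := by
    rw [Polynomial.ker_mapRingHom, Ideal.mk_ker]
  intro x hx
  rw [h1, RingHom.mem_ker] at hx ⊢
  rw [map_mul] at hx
  exact (hq.map (Ideal.Quotient.mk J)).mul_right_eq_zero_iff.1 hx

theorem rq_monic (p : Fin e → S[X]) (hp : ∀ i, (p i).Monic) :
    Rq ⊥ fun i => (Polynomial.aeval (MvPolynomial.X i) (p i) : MvPolynomial (Fin e) S) := by
  intro i
  let E : MvPolynomial (Fin e) S ≃ₐ[S] (MvPolynomial {j // j ≠ i} S)[X] :=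
    (MvPolynomial.renameEquiv S (Equiv.optionSubtypeNe i).symm).trans
      (MvPolynomial.optionEquivLeft S _)
  have hi : E.symm Polynomial.X = MvPolynomial.X i := by
    rw [AlgEquiv.symm_apply_eq]
    simp [E]
  have hj : ∀ j : {j // j ≠ i}, E.symm (Polynomial.C (MvPolynomial.X j)) = MvPolynomial.X j.1 := by
    intro j
    rw [AlgEquiv.symm_apply_eq]
    simp [E, Equiv.optionSubtypeNe_symm_of_ne j.2]
  let ψ : (MvPolynomial {j // j ≠ i} S)[X] →+* MvPolynomial (Fin e) S := E.symm.toAlgHom.toRingHom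
  have hψ : Bijective ψ := E.symm.bijective
  let J₀ : Ideal (MvPolynomial {j // j ≠ i} S) := Ideal.span
    ((fun j : {j // j ≠ i} => Polynomial.aeval (MvPolynomial.X j) (p j.1)) '' {j | j.1.val < i.val})
  have h1 := Nzd.map (φ := ψ) (RingHom.Flat.of_bijective hψ)
    (nzd_monic_EC3 J₀ ((hp i).map (algebraMap S (MvPolynomial {j // j ≠ i} S))))
  have h2 : ψ ((p i).map (algebraMap S (MvPolynomial {j // j ≠ i} S))) =
      Polynomial.aeval (MvPolynomial.X i) (p i) := by
    rw [← hi, Polynomial.aeval_algHom_apply, Polynomial.aeval_X_left_eq_map]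
    rfl
  have h3 : ∀ j : {j // j ≠ i}, ψ
      (Polynomial.C (Polynomial.aeval (MvPolynomial.X j) (p j.1))) =
      Polynomial.aeval (MvPolynomial.X j.1) (p j.1) := by
    intro j
    rw [← hj, Polynomial.aeval_algHom_apply]
    exact congrArg E.symm (Polynomial.aeval_algHom_apply
      (Polynomial.CAlgHom (R := S) (A := MvPolynomial {j // j ≠ i} S)) (MvPolynomial.X j) (p j.1)).symm
  have h4 : (J₀.map Polynomial.C).map ψ =
      ⊥ ⊔ lv (fun i => (Polynomial.aeval (MvPolynomial.X i) (p i) : MvPolynomial (Fin e) S)) i := by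
    rw [bot_sup_eq, Ideal.map_span, Ideal.map_span, Set.image_image, Set.image_image]
    unfold lv
    refine congrArg Ideal.span (Set.ext fun y => ⟨?_, ?_⟩)
    · rintro ⟨j, hj', rfl⟩
      exact ⟨j.1, hj', (h3 j).symm⟩
    · rintro ⟨j, hj', rfl⟩
      have hne : j ≠ i := fun h => by rw [h] at hj'; exact lt_irrefl i.val hj'
      exact ⟨⟨j, hne⟩, hj', h3 ⟨j, hne⟩⟩
  rwa [h2, h4] at h1

end Pool.Agent.CXD
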