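import Pool.Agent.P.MP_2ce3e7_ag.EA0

/-! Smooth algebras. -/

set_option linter.unusedSectionVars false
set_option linter.unusedVariables false

open Function Filter
open scoped TensorProduct Polynomial LaurentPolynomial

noncomputable section

namespace Pool.Agent.CXD

section
variable {P C L : Type} [CommRing P] [CommRing C] [CommRing L] [Algebra P C] [Algebra P L]
  [Algebra.FormallyUnramified P C] [Algebra.EssFiniteType P C]

theorem un_idem (α β : C →ₐ[P] L) : ∃ t : L, (∀ y, t * (α y - β y) = 0) ∧
    1 - t ∈ Ideal.span (Set.range fun y => α y - β y) := by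
  obtain ⟨t, h1, h2⟩ :=
    (Algebra.FormallyUnramified.iff_exists_tensorProduct (R := P) (S := C)).1 inferInstance
  refine ⟨Algebra.TensorProduct.productMap α β t, fun y => ?_, ?_⟩
  · have := congrArg (Algebra.TensorProduct.productMap α β) (h1 y)
    simp only [map_mul, map_sub, Algebra.TensorProduct.productMap_apply_tmul, map_one, one_mul,
      mul_one, map_zero] at this
    linear_combination -this
  · have h3 : 1 - t ∈ KaehlerDifferential.ideal P C := by
      simp only [KaehlerDifferential.ideal, RingHom.mem_ker, map_sub, map_one, h2, sub_self]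
    rw [← KaehlerDifferential.span_range_eq_ideal] at h3
    have h4 := Ideal.mem_map_of_mem (Algebra.TensorProduct.productMap α β) h3
    rw [map_sub, map_one, Ideal.map_span] at h4
    refine Ideal.span_le.2 ?_ h4
    rintro _ ⟨_, ⟨y, rfl⟩, rfl⟩
    simp only [map_sub, Algebra.TensorProduct.productMap_apply_tmul, map_one, one_mul, mul_one]
    rw [← neg_sub]
    exact Submodule.neg_mem _ (Ideal.subset_span ⟨y, rfl⟩)

theorem GlD.unr [Module.Flat P C] {g : ℕ} (h : GlD P g) : GlD C g := by
  intro M _ _
  let _ : Module P M := Module.compHom M (algebraMap P C)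
  have : IsScalarTower P C M := IsScalarTower.of_compHom P C M
  have h1 : CategoryTheory.HasProjectiveDimensionLT (ModuleCat.of C (C ⊗[P] M)) (g + 1) :=
    (h M).baseChange C
  let r : CategoryTheory.Retract (ModuleCat.of C M) (ModuleCat.of C (C ⊗[P] M)) :=
    { i := ModuleCat.ofHom (Algebra.FormallyUnramified.sec P C M)
      r := ModuleCat.ofHom (TensorProduct.AlgebraTensorModule.lift
        ((Algebra.lsmul C C M).toLinearMap.flip.restrictScalars P).flip)
      retract := by
        rw [← ModuleCat.ofHom_comp, Algebra.FormallyUnramified.comp_sec]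
        rfl }
  exact r.hasProjectiveDimensionLT (g + 1)

end

variable (k C C' : Type) [Field k] [CommRing C] [Algebra k C] [CommRing C'] [Algebra k C']

theorem exists_coord [Algebra.IsStandardSmooth k C] :
    ∃ (e : ℕ) (x : MvPolynomial (Fin e) k →ₐ[k] C), x.toRingHom.Etale := by
  obtain ⟨e, g, hg, hE⟩ := RingHom.IsStandardSmooth.exists_etale_mvPolynomial
    (f := algebraMap k C) (RingHom.isStandardSmooth_algebraMap.2 inferInstance)
  exact ⟨e, { toRingHom := g, commutes' := fun r => RingHom.congr_fun hg r }, hE⟩

theorem gld_std [Algebra.IsStandardSmooth k C] : ∃ g, GlD C g := by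
  obtain ⟨e, x, hx⟩ := exists_coord k C
  obtain ⟨g, hg⟩ := gld_mv k (Fin e)
  let _ := x.toRingHom.toAlgebra
  have : Algebra.Etale (MvPolynomial (Fin e) k) C := hx.toAlgebra
  exact ⟨g, hg.unr⟩

theorem std_laurent [Algebra.IsStandardSmooth k C] : Algebra.IsStandardSmooth k C[T;T⁻¹] := by
  have h1 : Algebra.IsStandardSmooth C (MvPolynomial Unit C) :=
    Algebra.IsStandardSmooth.of_basis_kaehlerDifferential
      (KaehlerDifferential.mvPolynomialBasis C Unit) (by
        rintro _ ⟨i, rfl⟩
        exact ⟨MvPolynomial.X i, (KaehlerDifferential.mvPolynomialBasis_apply C Unit i).symm⟩)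
  have h2 : Algebra.IsStandardSmooth C C[X] :=
    Algebra.IsStandardSmooth.of_algEquiv (MvPolynomial.uniqueAlgEquiv C Unit)
  have h3 : Algebra.IsStandardSmooth C[X] C[T;T⁻¹] :=
    Algebra.IsStandardSmooth.localization_away (Polynomial.X : C[X])
  have : IsScalarTower C C[X] C[T;T⁻¹] := IsScalarTower.of_algebraMap_eq fun r => by
    simp [LaurentPolynomial.algebraMap_eq_toLaurent, LaurentPolynomial.algebraMap_apply]
  have h4 : Algebra.IsStandardSmooth C C[T;T⁻¹] := Algebra.IsStandardSmooth.trans C C[X] _
  exact Algebra.IsStandardSmooth.trans k C _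

theorem std_tensor [Algebra.IsStandardSmooth k C] [Algebra.IsStandardSmooth k C'] :
    Algebra.IsStandardSmooth k (C ⊗[k] C') := 
  Algebra.IsStandardSmooth.trans k C _

theorem red_std_EC4 [Algebra.IsStandardSmooth k C] : IsReduced C := by
  obtain ⟨e, x, hx⟩ := exists_coord k C
  let _ := x.toRingHom.toAlgebra
  have : Algebra.Etale (MvPolynomial (Fin e) k) C := hx.toAlgebra
  have := Algebra.FormallyUnramified.isReduced_of_field (FractionRing (MvPolynomial (Fin e) k))
    (FractionRing (MvPolynomial (Fin e) k) ⊗[MvPolynomial (Fin e) k] C)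
  exact isReduced_of_injective (Algebra.TensorProduct.includeRight
    (R := MvPolynomial (Fin e) k) (A := FractionRing (MvPolynomial (Fin e) k)) (B := C))
    (Algebra.TensorProduct.includeRight_injective (IsFractionRing.injective _ _))

theorem red_smooth [Algebra.Smooth k C] : IsReduced C := by
  obtain ⟨s, hs, h⟩ := Algebra.Smooth.exists_span_eq_top_isStandardSmooth k C
  refine ⟨fun a ha => ?_⟩
  have h1 : (⊤ : Ideal C) ≤ (Submodule.span C {a}).annihilator.radical := by
    rw [← hs, Ideal.span_le]
    intro f hf
    have := h f hf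
    have := red_std_EC4 k (Localization.Away f)
    obtain ⟨⟨_, n, rfl⟩, hn⟩ := (IsLocalization.map_eq_zero_iff (Submonoid.powers f)
      (Localization.Away f) a).1 (ha.map _).eq_zero
    exact ⟨n, (Submodule.mem_annihilator_span_singleton _ _).2 hn⟩
  obtain ⟨n, hn⟩ := h1 (Submodule.mem_top (x := 1))
  simpa using (Submodule.mem_annihilator_span_singleton _ _).1 hn

end Pool.Agent.CXD
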