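import Pool.Agent.P.MP_2ce3e7_ag.EC3
import Pool.Agent.P.MP_2ce3e7_ag.EC4

/-! The graph of the Frobenius map is transversal to the diagonal. -/

set_option linter.unusedSectionVars false
set_option linter.unusedVariables false

open Function Filter
open scoped TensorProduct Polynomial

noncomputable section

namespace Pool.Agent.CXD

section
variable {k C Q : Type} [Field k] [CommRing C] [Algebra k C] [CommRing Q] [Algebra k Q] {e : ℕ}

theorem span_neg_EC5 {τ : Type} (f : τ → Q) :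
    Ideal.span (Set.range fun i => -f i) = Ideal.span (Set.range f) := by
  refine le_antisymm (Ideal.span_le.2 ?_) (Ideal.span_le.2 ?_)
  · rintro _ ⟨i, rfl⟩
    exact Submodule.neg_mem _ (Ideal.subset_span ⟨i, rfl⟩)
  · rintro _ ⟨i, rfl⟩
    exact (Submodule.neg_mem_iff _).1 (Ideal.subset_span ⟨i, rfl⟩)

theorem graph_EC5 (x : MvPolynomial (Fin e) k →ₐ[k] C) (hx : x.toRingHom.Flat) (c : Fin e → C) :
    Rq ⊥ fun i => ((1 : C) ⊗ₜ[k] x (MvPolynomial.X i) - c i ⊗ₜ[k] (1 : C) : C ⊗[k] C) := by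
  let ε := (MvPolynomial.algebraTensorAlgEquiv (σ := Fin e) k C).symm
  let μ := Algebra.TensorProduct.map (AlgHom.id C C) x
  have hε : (ε : MvPolynomial (Fin e) C →+* C ⊗[k] MvPolynomial (Fin e) k).Flat :=
    RingHom.Flat.of_bijective ε.bijective
  have hμ : (μ : C ⊗[k] MvPolynomial (Fin e) k →+* C ⊗[k] C).Flat :=
    RingHom.Flat.tensorProductMap (RingHom.Flat.id C) hx
  have h := ((rq_monic (fun i => Polynomial.X - Polynomial.C (c i))
    (fun i => Polynomial.monic_X_sub_C _)).map hε).map hμ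
  rw [Ideal.map_bot, Ideal.map_bot] at h
  have he : (fun i => ((1 : C) ⊗ₜ[k] x (MvPolynomial.X i) - c i ⊗ₜ[k] (1 : C) : C ⊗[k] C)) =
      fun i => (μ : C ⊗[k] MvPolynomial (Fin e) k →+* C ⊗[k] C)
        ((ε : MvPolynomial (Fin e) C →+* C ⊗[k] MvPolynomial (Fin e) k)
          (Polynomial.aeval (MvPolynomial.X i) (Polynomial.X - Polynomial.C (c i)))) := by
    funext i
    rw [map_sub, Polynomial.aeval_X, Polynomial.aeval_C, map_sub, map_sub]
    have h1 : (ε : MvPolynomial (Fin e) C →+* C ⊗[k] MvPolynomial (Fin e) k)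
        (MvPolynomial.X i) = 1 ⊗ₜ MvPolynomial.X i :=
      MvPolynomial.algebraTensorAlgEquiv_symm_X k C i
    have h2 : (ε : MvPolynomial (Fin e) C →+* C ⊗[k] MvPolynomial (Fin e) k)
        (algebraMap C _ (c i)) = c i ⊗ₜ 1 := ε.commutes (c i)
    rw [h1, h2]
    simp [μ]
  rw [he]
  exact h

theorem diag_EC5 (x : MvPolynomial (Fin e) k →ₐ[k] C) (hx : x.toRingHom.Flat) {m : ℕ}
    (hm : 1 < m) :
    Rq (KaehlerDifferential.ideal k C) fun i => ((1 : C) ⊗ₜ[k] x (MvPolynomial.X i) -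
      (x (MvPolynomial.X i) ^ m) ⊗ₜ[k] (1 : C) : C ⊗[k] C) := by
  have hs : Surjective (Algebra.TensorProduct.lmul' k (S := C)).toRingHom := fun c =>
    ⟨c ⊗ₜ 1, by simp⟩
  refine Rq.comap hs ?_
  have hmon : (Polynomial.X ^ m - Polynomial.X : k[X]).Monic := by
    refine Polynomial.monic_X_pow_sub ?_
    rw [Polynomial.degree_X]
    exact_mod_cast hm
  have h := ((rq_monic (e := e) (fun _ => (Polynomial.X ^ m - Polynomial.X : k[X]))
    (fun _ => hmon)).map hx).neg
  rw [Ideal.map_bot] at h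
  have he : (fun i => (Algebra.TensorProduct.lmul' k (S := C)).toRingHom
      ((1 : C) ⊗ₜ[k] x (MvPolynomial.X i) - (x (MvPolynomial.X i) ^ m) ⊗ₜ[k] (1 : C))) =
      fun i => -x.toRingHom (Polynomial.aeval (MvPolynomial.X i)
        (Polynomial.X ^ m - Polynomial.X : k[X])) := by
    funext i
    simp
  rw [he]
  exact h

theorem idem_EC5 (x : MvPolynomial (Fin e) k →ₐ[k] C) (hx : x.toRingHom.Etale)
    (α β : C →ₐ[k] Q) (h : ∀ i, α (x (MvPolynomial.X i)) = β (x (MvPolynomial.X i))) :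
    ∃ t : Q, (∀ y, t * (α y - β y) = 0) ∧
      1 - t ∈ Ideal.span (Set.range fun y => α y - β y) := by
  have hc : α.comp x = β.comp x := MvPolynomial.algHom_ext h
  let _ : Algebra (MvPolynomial (Fin e) k) C := x.toRingHom.toAlgebra
  let _ : Algebra (MvPolynomial (Fin e) k) Q := (β.comp x).toRingHom.toAlgebra
  have _ : Algebra.Etale (MvPolynomial (Fin e) k) C := hx
  let α' : C →ₐ[MvPolynomial (Fin e) k] Q :=
    { α.toRingHom with commutes' := fun p => DFunLike.congr_fun hc p }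
  let β' : C →ₐ[MvPolynomial (Fin e) k] Q := { β.toRingHom with commutes' := fun _ => rfl }
  exact un_idem α' β'

end

theorem tor_indep {k C R L : Type} [Field k] [CommRing C] [Algebra k C]
    [Algebra.IsStandardSmooth k C] [CommRing R] [CommRing L] [Algebra k L] [Algebra R L]
    [Module.Flat R L] (ι : C ⊗[k] C →ₐ[k] L) (hι : ι.toRingHom.Flat) (fb : C →ₐ[k] C) {m : ℕ}
    (hm : 1 < m) (hfb : ∀ c, fb c = c ^ m) {I : Ideal R}
    (hI : I.map (algebraMap R L) =
      Ideal.span (Set.range fun c : C => ι (c ⊗ₜ 1) - ι (1 ⊗ₜ c))) (n : ℕ) :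
    Tn {(1 : R)} (L ⧸ Ideal.span (Set.range fun c : C => ι ((c ^ m) ⊗ₜ 1) - ι (1 ⊗ₜ c))) n
      (R ⧸ I) := by
  obtain ⟨e, x, hx⟩ := exists_coord k C
  have hxf : x.toRingHom.Flat := (RingHom.Etale.iff_flat_and_formallyUnramified.1 hx).1
  let b : Fin e → C ⊗[k] C := fun i => (1 : C) ⊗ₜ[k] x (MvPolynomial.X i) -
    (x (MvPolynomial.X i) ^ m) ⊗ₜ[k] (1 : C)
  have h1 : Rq ⊥ fun i => ι.toRingHom (b i) := by
    have h := (graph_EC5 x hxf fun i => x (MvPolynomial.X i) ^ m).map hι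
    rwa [Ideal.map_bot] at h
  have h2 : Rq (I.map (algebraMap R L)) fun i => ι.toRingHom (b i) := by
    have h := (diag_EC5 x hxf hm).map hι
    have hJ : I.map (algebraMap R L) = (KaehlerDifferential.ideal k C).map ι.toRingHom := by
      rw [hI, ← KaehlerDifferential.span_range_eq_ideal, Ideal.map_span, ← Set.range_comp,
        ← span_neg_EC5]
      congr 2
      funext c
      simp
    rw [hJ]
    exact h
  let J : Ideal L := Ideal.span (Set.range fun i => ι.toRingHom (b i))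
  let π : L →ₐ[k] L ⧸ J := Ideal.Quotient.mkₐ k J
  let α : C →ₐ[k] L ⧸ J := ((π.comp ι).comp Algebra.TensorProduct.includeLeft).comp fb
  let β : C →ₐ[k] L ⧸ J := (π.comp ι).comp Algebra.TensorProduct.includeRight
  have hd : ∀ y, α y - β y = Ideal.Quotient.mk J (ι ((y ^ m) ⊗ₜ 1) - ι (1 ⊗ₜ y)) := by
    intro y
    rw [map_sub, ← hfb]
    rfl
  obtain ⟨t, ht1, ht2⟩ := idem_EC5 x hx α β fun i => by
    rw [← sub_eq_zero, hd, Ideal.Quotient.eq_zero_iff_mem, ← neg_sub, ← map_sub]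
    exact J.neg_mem (Ideal.subset_span ⟨i, rfl⟩)
  obtain ⟨t, rfl⟩ := Ideal.Quotient.mk_surjective t
  have hJ : J ≤ Ideal.span (Set.range fun c : C => ι ((c ^ m) ⊗ₜ 1) - ι (1 ⊗ₜ c)) := by
    refine Ideal.span_le.2 ?_
    rintro _ ⟨i, rfl⟩
    have h : ι.toRingHom (b i) = -(ι ((x (MvPolynomial.X i) ^ m) ⊗ₜ 1) -
        ι (1 ⊗ₜ x (MvPolynomial.X i))) := by
      rw [neg_sub, ← map_sub]
      rfl
    exact (congrArg (· ∈ _) h).mpr
      (Submodule.neg_mem _ (Ideal.subset_span ⟨x (MvPolynomial.X i), rfl⟩))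
  refine ti_retr (ti_seq h1 h2) hJ (t := t) (fun z hz => ?_) ?_
  · refine Submodule.span_induction (p := fun z _ => t * z ∈ J) ?_ ?_ ?_ ?_ hz
    · rintro _ ⟨y, rfl⟩
      rw [← Ideal.Quotient.eq_zero_iff_mem, map_mul, ← hd]
      exact ht1 y
    · rw [mul_zero]
      exact J.zero_mem
    · intro u v _ _ hu hv
      rw [mul_add]
      exact J.add_mem hu hv
    · intro a u _ hu
      rw [smul_eq_mul, mul_left_comm]
      exact J.mul_mem_left a hu
  · have h : Ideal.Quotient.mk J (1 - t) ∈ (Ideal.span (Set.range fun c : C =>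
        ι ((c ^ m) ⊗ₜ 1) - ι (1 ⊗ₜ c))).map (Ideal.Quotient.mk J) := by
      rw [map_sub, map_one, Ideal.map_span, ← Set.range_comp]
      simpa only [hd, Function.comp_def] using ht2
    rw [Ideal.mem_quotient_iff_mem_sup, sup_eq_left.2 hJ] at h
    exact h

end Pool.Agent.CXD
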