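import Pool.Agent.P.MP_2ce3e7_ag.EA0

/-! Localisations. -/

set_option linter.unusedSectionVars false
set_option linter.unusedVariables false

open Function Filter
open scoped TensorProduct Polynomial LaurentPolynomial

noncomputable section

namespace Pool.Agent.CXD

/-- `η` inverts `w` -/
structure Aw {A E : Type} [CommRing A] [CommRing E] (η : A →+* E) (w : A) : Prop where
  unit : IsUnit (η w)
  surj : ∀ y, ∃ (n : ℕ) (a : A), y * η w ^ n = η a
  ker : ∀ a, η a = 0 → ∃ n : ℕ, w ^ n * a = 0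

section
variable {A E : Type} [CommRing A] [CommRing E] {η : A →+* E} {w : A}

theorem Aw.loc (h : Aw η w) : letI := η.toAlgebra; IsLocalization.Away w E := by
  let := η.toAlgebra
  refine IsLocalization.Away.mk w h.unit h.surj fun a b e => ?_
  obtain ⟨n, hn⟩ := h.ker (a - b) (by rw [map_sub]; exact sub_eq_zero.2 e)
  exact ⟨n, by rwa [mul_sub, sub_eq_zero] at hn⟩

theorem Aw.flat (h : Aw η w) : η.Flat := by
  let := η.toAlgebra
  have := h.loc
  exact IsLocalization.flat E (Submonoid.powers w)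

theorem Aw.equiv (h : Aw η w) : Nonempty (E ≃+* Localization (Submonoid.powers w)) := by
  let := η.toAlgebra
  have := h.loc
  exact ⟨(IsLocalization.algEquiv (Submonoid.powers w) E
    (Localization (Submonoid.powers w))).toRingEquiv⟩

theorem Aw.mem_ED0 (h : Aw η w) {G : Ideal A} {a : A} (ha : η a ∈ G.map η) :
    ∃ n : ℕ, w ^ n * a ∈ G := by
  let := η.toAlgebra
  have := h.loc
  obtain ⟨_, ⟨n, rfl⟩, hn⟩ :=
    (IsLocalization.algebraMap_mem_map_algebraMap_iff (Submonoid.powers w) E G a).1 ha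
  exact ⟨n, hn⟩

theorem Aw.quot [Algebra A E] (h : Aw (algebraMap A E) w) (G : Ideal A) :
    ∃ j : (A ⧸ G) →ₗ[A] (E ⧸ G.map (algebraMap A E)),
      IsLocalizedModule (Submonoid.powers w) j := by
  let j : (A ⧸ G) →ₗ[A] (E ⧸ G.map (algebraMap A E)) :=
    G.liftQ (Algebra.linearMap A (E ⧸ G.map (algebraMap A E))) fun a ha =>
      Ideal.Quotient.eq_zero_iff_mem.2 (Ideal.mem_map_of_mem _ ha)
  have hj : ∀ a, j (Ideal.Quotient.mk G a) = Ideal.Quotient.mk _ (algebraMap A E a) :=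
    fun _ => rfl
  refine ⟨j, ?_, fun y => ?_, fun {x₁ x₂} e => ?_⟩
  · rintro ⟨_, n, rfl⟩
    have hu : IsUnit (algebraMap A (E ⧸ G.map (algebraMap A E)) w) :=
      h.unit.map (Ideal.Quotient.mk _)
    have e : algebraMap A (Module.End A (E ⧸ G.map (algebraMap A E))) w =
        Algebra.lmul A _ (algebraMap A (E ⧸ G.map (algebraMap A E)) w) :=
      ((Algebra.lmul A _).commutes w).symm
    change IsUnit (algebraMap A _ (w ^ n))
    rw [map_pow, e]
    exact (hu.map _).pow n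
  · obtain ⟨y, rfl⟩ := Ideal.Quotient.mk_surjective y
    obtain ⟨n, a, ha⟩ := h.surj y
    refine ⟨(Ideal.Quotient.mk G a, ⟨w ^ n, n, rfl⟩), ?_⟩
    rw [hj, ← ha, ← map_pow, mul_comm, ← Algebra.smul_def]
    rfl
  · obtain ⟨a, rfl⟩ := Ideal.Quotient.mk_surjective x₁
    obtain ⟨b, rfl⟩ := Ideal.Quotient.mk_surjective x₂
    rw [hj, hj, Ideal.Quotient.eq, ← map_sub] at e
    obtain ⟨n, hn⟩ := h.mem_ED0 e
    refine ⟨⟨w ^ n, n, rfl⟩, ?_⟩
    change Ideal.Quotient.mk G (w ^ n * a) = Ideal.Quotient.mk G (w ^ n * b)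
    rwa [Ideal.Quotient.eq, ← mul_sub]

theorem Aw.rad (h : Aw η w) {S : Set A} (hS : Ideal.span (η '' S) = ⊤) :
    w ∈ (Ideal.span S).radical := by
  obtain ⟨n, hn⟩ := h.mem_ED0 (G := Ideal.span S) (a := 1) (by
    rw [Ideal.map_span, hS]; trivial)
  exact ⟨n, by rwa [mul_one] at hn⟩

end

theorem kerL_ED0 {k A E B : Type} [Field k] [CommRing A] [Algebra k A] [CommRing E] [Algebra k E]
    [CommRing B] [Algebra k B] {η : A →ₐ[k] E} {w : A} (h : Aw η.toRingHom w) (x : A ⊗[k] B)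
    (hx : Algebra.TensorProduct.map η (AlgHom.id k B) x = 0) :
    ∃ n : ℕ, (w ⊗ₜ 1 : A ⊗[k] B) ^ n * x = 0 := by
  obtain ⟨y, rfl⟩ := (Module.Flat.rTensor_exact B
    (LinearMap.exact_subtype_ker_map η.toLinearMap) x).1 hx
  clear hx
  induction y using TensorProduct.induction_on with
  | zero => exact ⟨0, by simp⟩
  | tmul a b =>
    obtain ⟨n, hn⟩ := h.ker a.1 a.2
    exact ⟨n, by simp [Algebra.TensorProduct.tmul_pow, hn]⟩
  | add y y' hy hy' =>
    obtain ⟨n, hn⟩ := hy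
    obtain ⟨m, hm⟩ := hy'
    refine ⟨n + m, ?_⟩
    rw [map_add]
    linear_combination (w ⊗ₜ 1 : A ⊗[k] B) ^ m * hn + (w ⊗ₜ 1 : A ⊗[k] B) ^ n * hm

theorem kerR_ED0 {k A E B : Type} [Field k] [CommRing A] [Algebra k A] [CommRing E] [Algebra k E]
    [CommRing B] [Algebra k B] {η : A →ₐ[k] E} {w : A} (h : Aw η.toRingHom w) (x : B ⊗[k] A)
    (hx : Algebra.TensorProduct.map (AlgHom.id k B) η x = 0) :
    ∃ n : ℕ, (1 ⊗ₜ w : B ⊗[k] A) ^ n * x = 0 := by
  obtain ⟨y, rfl⟩ := (Module.Flat.lTensor_exact B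
    (LinearMap.exact_subtype_ker_map η.toLinearMap) x).1 hx
  clear hx
  induction y using TensorProduct.induction_on with
  | zero => exact ⟨0, by simp⟩
  | tmul b a =>
    obtain ⟨n, hn⟩ := h.ker a.1 a.2
    exact ⟨n, by simp [Algebra.TensorProduct.tmul_pow, hn]⟩
  | add y y' hy hy' =>
    obtain ⟨n, hn⟩ := hy
    obtain ⟨m, hm⟩ := hy'
    refine ⟨n + m, ?_⟩
    rw [map_add]
    linear_combination (1 ⊗ₜ w : B ⊗[k] A) ^ m * hn + (1 ⊗ₜ w : B ⊗[k] A) ^ n * hm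

theorem Aw.tensor {k A E A' E' : Type} [Field k] [CommRing A] [Algebra k A] [CommRing E]
    [Algebra k E] [CommRing A'] [Algebra k A'] [CommRing E'] [Algebra k E'] {η : A →ₐ[k] E}
    {η' : A' →ₐ[k] E'} {w : A} {w' : A'} (h : Aw η.toRingHom w) (h' : Aw η'.toRingHom w') :
    Aw (Algebra.TensorProduct.map η η').toRingHom (w ⊗ₜ w') := by
  refine ⟨?_, fun y => ?_, fun x hx => ?_⟩
  · have e : (Algebra.TensorProduct.map η η').toRingHom (w ⊗ₜ w') =
        Algebra.TensorProduct.includeLeftRingHom (η w) *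
          Algebra.TensorProduct.includeRight (R := k) (A := E) (η' w') := by simp
    rw [e]
    exact (h.unit.map _).mul (h'.unit.map _)
  · induction y using TensorProduct.induction_on with
    | zero => exact ⟨0, 0, by simp⟩
    | tmul y y' =>
      obtain ⟨n, a, ha⟩ := h.surj y
      obtain ⟨m, b, hb⟩ := h'.surj y'
      have ha' : y * η w ^ n = η a := ha
      have hb' : y' * η' w' ^ m = η' b := hb
      refine ⟨n + m, (a * w ^ m) ⊗ₜ (b * w' ^ n), ?_⟩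
      change y ⊗ₜ y' * (η w ⊗ₜ η' w') ^ (n + m) = η (a * w ^ m) ⊗ₜ η' (b * w' ^ n)
      rw [Algebra.TensorProduct.tmul_pow, Algebra.TensorProduct.tmul_mul_tmul, map_mul, map_mul,
        ← ha', ← hb', map_pow, map_pow, mul_assoc, mul_assoc, ← pow_add, ← pow_add, add_comm m n]
    | add y y' hy hy' =>
      obtain ⟨n, a, ha⟩ := hy
      obtain ⟨m, b, hb⟩ := hy'
      refine ⟨n + m, a * (w ⊗ₜ w') ^ m + b * (w ⊗ₜ w') ^ n, ?_⟩
      rw [map_add, map_mul, map_mul, ← ha, ← hb, map_pow, map_pow]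
      ring
  · have e : Algebra.TensorProduct.map η (AlgHom.id k E')
        (Algebra.TensorProduct.map (AlgHom.id k A) η' x) = 0 := by
      rw [← AlgHom.comp_apply, ← Algebra.TensorProduct.map_comp]
      exact hx
    obtain ⟨n, hn⟩ := kerL_ED0 h _ e
    obtain ⟨m, hm⟩ := kerR_ED0 h' ((w ⊗ₜ 1) ^ n * x) (by
      rw [map_mul, map_pow, Algebra.TensorProduct.map_tmul, map_one]
      exact hn)
    refine ⟨n + m, ?_⟩
    have e1 : (w ⊗ₜ w' : A ⊗[k] A') = (w ⊗ₜ 1) * (1 ⊗ₜ w') := by simp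
    rw [e1]
    linear_combination ((w ⊗ₜ 1 : A ⊗[k] A') ^ m * (1 ⊗ₜ w') ^ n) * hm

variable {k A σ : Type} [Field k] [CommRing A] [Algebra k A]

/-- the homogenisation of `ψ` -/
def hatA (θ : A →ₐ[k] A[T;T⁻¹]) {C : Type} [CommRing C] [Algebra k C] (ψ : A →ₐ[k] C) :
    A →ₐ[k] C[T;T⁻¹] := (AddMonoidAlgebra.mapAlgHom ℤ ψ).comp θ

theorem hatA_eq (θ : A →ₐ[k] A[T;T⁻¹]) {C : Type} [CommRing C] [Algebra k C] (ψ : A →ₐ[k] C) :
    (hatA θ ψ).toRingHom = hat θ.toRingHom ψ.toRingHom := rfl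

/-- a chart with étale coordinates -/
structure Cht (𝒜 : ℤ → Set A) (z : σ → A) (θ : A →ₐ[k] A[T;T⁻¹]) (w : A) {C : Type} [CommRing C]
    [Algebra k C] (ψ : A →ₐ[k] C) : Prop where
  hom : ∃ c, w ∈ cl 𝒜 c
  one : ∃ i, ψ (z i) = 1 ∧ z i ∣ w
  loc : Aw (hatA θ ψ).toRingHom w
  sm : Algebra.IsStandardSmooth k C

/-- a finite atlas -/
def Atl (𝒜 : ℤ → Set A) (z : σ → A) (θ : A →ₐ[k] A[T;T⁻¹]) : Prop :=
  ∃ (τ : Type) (_ : Finite τ) (w : τ → A), (∀ i, z i ∈ (Ideal.span (Set.range w)).radical) ∧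
    ∀ j, ∃ (C : Type) (_ : CommRing C) (_ : Algebra k C) (ψ : A →ₐ[k] C), Cht 𝒜 z θ (w j) ψ

end Pool.Agent.CXD
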