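import Pool.Agent.P.MP_2ce3e7_ag.EA0

/-! Cyclic modules. -/

set_option linter.unusedSectionVars false
set_option linter.unusedVariables false

open Function Filter
open scoped TensorProduct Polynomial LaurentPolynomial

noncomputable section

namespace Pool.Agent.CXD

variable {D Γ : Type} [CommRing D] [AddCommGroup Γ] {𝒟 : Γ → Set D} [Gd 𝒟] [IsNoetherianRing D]
  {U U' : GM 𝒟} {e : U.M} {e' : U'.M} {I I' : Ideal D} {S : Set D} {l : GM 𝒟 → ℚ}

theorem Cy.quot (h : Cy U e ⊥) {H : Set D} (hH : ∀ a ∈ H, ∃ c, a ∈ cl 𝒟 c) :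
    ∃ (V : GM 𝒟) (v : V.M), Cy V v (Ideal.span H) := by
  obtain ⟨c, hc, -⟩ := h.exists_coord
  refine ⟨U.quo (Ideal.span H • ⊤) (st_top.smul hH), (Ideal.span H • ⊤ : Submodule D U.M).mkQ e,
    ?_, ?_, fun a => ?_⟩
  · rw [quo_π, h.hom]
  · rw [eq_top_iff]
    rintro y -
    obtain ⟨x, rfl⟩ := (Ideal.span H • ⊤ : Submodule D U.M).mkQ_surjective y
    obtain ⟨a, rfl⟩ := h.exists_smul x
    exact Submodule.mem_span_singleton.2 ⟨a, (map_smul _ _ _).symm⟩
  · have e1 : a • (Ideal.span H • ⊤ : Submodule D U.M).mkQ e = 0 ↔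
        a • e ∈ (Ideal.span H • ⊤ : Submodule D U.M) := by
      rw [← map_smul, Submodule.mkQ_apply, Submodule.Quotient.mk_eq_zero]
    refine e1.trans ⟨fun ha => ?_, fun ha => Submodule.smul_mem_smul ha trivial⟩
    rw [← hc a]
    refine Submodule.smul_induction_on (p := fun x => c x ∈ Ideal.span H) ha ?_ ?_
    · intro r hr y _
      rw [map_smul, smul_eq_mul]
      exact Ideal.mul_mem_right _ _ hr
    · intro x y hx hy
      rw [map_add]
      exact add_mem hx hy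

theorem Cy.equiv (h : Cy U e I) : Nonempty (U.M ≃ₗ[D] D ⧸ I) := by
  have hs : Surjective (LinearMap.toSpanSingleton D U.M e) := fun y => h.exists_smul y
  have hk : LinearMap.ker (LinearMap.toSpanSingleton D U.M e) = I := Submodule.ext fun a => h.ann a
  exact ⟨(LinearMap.quotKerEquivOfSurjective _ hs).symm.trans (Submodule.quotEquivOfEq _ _ hk)⟩

theorem surj_val_EE0 (hl : GAdd l) (hv : VnG ⊥ S l) {W : GM 𝒟} {w : W.M}
    (hw : ∀ y, ∃ a : D, a • w = y) (h : Cy U e I) {f : W.M →ₗ[D] U.M} (hf : IsG f) (hfw : f w = e)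
    (h1 : ∀ a ∈ I, ∀ s ∈ S, ∃ m : ℕ, (s ^ m * a) • w = 0) : l W = l U := by
  have hW : Module.Finite D W.M :=
    Module.Finite.of_surjective (LinearMap.toSpanSingleton D W.M w) hw
  have hs : Surjective f := fun y => by
    obtain ⟨a, rfl⟩ := h.exists_smul y
    exact ⟨a • w, by rw [map_smul, hfw]⟩
  have hK : Module.Finite D (LinearMap.ker f) := inferInstance
  rw [hl.of_surj hW hf hs, hv (W.sub _ hf.ker) hK kill_bot, zero_add]
  rintro s hs ⟨x, hx⟩
  obtain ⟨a, rfl⟩ := hw x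
  rw [LinearMap.mem_ker, map_smul, hfw] at hx
  obtain ⟨m, hm⟩ := h1 a ((h.ann a).1 hx) s hs
  exact ⟨m, Subtype.ext ((mul_smul _ _ _).symm.trans hm)⟩

theorem cy_val (hl : GAdd l) (hv : VnG ⊥ S l) (h : Cy U e I) (h' : Cy U' e' I')
    (h1 : ∀ a ∈ I, ∀ s ∈ S, ∃ m : ℕ, s ^ m * a ∈ I')
    (h2 : ∀ a ∈ I', ∀ s ∈ S, ∃ m : ℕ, s ^ m * a ∈ I) : l U = l U' := by
  have hst : St (U.prod U') (Submodule.span D {(e, e')}) := st_span (M := U.prod U') (by
    rintro _ rfl
    exact ⟨0, Prod.ext h.hom h'.hom⟩)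
  have hw : ∀ y : ((U.prod U').sub _ hst).M,
      ∃ a : D, a • (⟨(e, e'), Submodule.mem_span_singleton_self _⟩ :
        ((U.prod U').sub _ hst).M) = y := fun y => by
    obtain ⟨a, ha⟩ := Submodule.mem_span_singleton.1 y.2
    exact ⟨a, Subtype.ext ha⟩
  have e1 := surj_val_EE0 hl hv hw h
    (f := LinearMap.fst D U.M U'.M ∘ₗ (Submodule.span D {(e, e')}).subtype) (fun _ _ => rfl) rfl
    fun a ha s hs => (h1 a ha s hs).imp fun m hm => Subtype.ext
      (Prod.ext ((h.ann _).2 (I.mul_mem_left _ ha)) ((h'.ann _).2 hm))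
  have e2 := surj_val_EE0 hl hv hw h'
    (f := LinearMap.snd D U.M U'.M ∘ₗ (Submodule.span D {(e, e')}).subtype) (fun _ _ => rfl) rfl
    fun a ha s hs => (h2 a ha s hs).imp fun m hm => Subtype.ext
      (Prod.ext ((h.ann _).2 hm) ((h'.ann _).2 (I'.mul_mem_left _ ha)))
  exact e1.symm.trans e2

theorem sat_span {H : Set D} (h : ∀ a ∈ H, ∀ s ∈ S, ∃ m : ℕ, s ^ m * a ∈ I') :
    ∀ a ∈ Ideal.span H, ∀ s ∈ S, ∃ m : ℕ, s ^ m * a ∈ I' := by
  intro a ha s hs
  induction ha using Submodule.span_induction with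
  | mem a ha => exact h a ha s hs
  | zero => exact ⟨0, by rw [mul_zero]; exact zero_mem _⟩
  | add a b _ _ ha hb =>
    obtain ⟨m, hm⟩ := ha
    obtain ⟨n, hn⟩ := hb
    refine ⟨m + n, ?_⟩
    have e1 : s ^ (m + n) * (a + b) = s ^ n * (s ^ m * a) + s ^ m * (s ^ n * b) := by ring
    rw [e1]
    exact add_mem (I'.mul_mem_left _ hm) (I'.mul_mem_left _ hn)
  | smul r a _ ha =>
    obtain ⟨m, hm⟩ := ha
    refine ⟨m, ?_⟩
    rw [smul_eq_mul, mul_left_comm]
    exact I'.mul_mem_left _ hm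

theorem coord_EE0 {A Δ E : Type} [CommRing A] [AddCommGroup Δ] [CommRing E] {𝒜 : Δ → Set A}
    {W : GM 𝒜} {w : W.M} {K : Ideal A} (h : Cy W w K) (ρ : A →+* E) (hρ : ∀ a ∈ K, ρ a = 0) :
    ∃ c : W.M → E, ∀ a, c (a • w) = ρ a := by
  choose s hs using h.exists_smul
  refine ⟨fun y => ρ (s y), fun a => sub_eq_zero.1 ?_⟩
  rw [← map_sub]
  exact hρ _ ((h.ann _).1 (by rw [sub_smul, hs, sub_self]))

theorem Cy.tens {D₀ Γ₀ : Type} [CommRing D₀] [AddCommGroup Γ₀] {𝒟₀ : Γ₀ → Set D₀} [Gd 𝒟₀]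
    {ι : D₀ →+* D} {μ : Γ₀ →+ Γ} (hι : Hm ι 𝒟₀ 𝒟 μ) {V : GM 𝒟₀} {v : V.M} {J : Ideal D₀}
    (hV : Cy V v J) (h : Cy U e I) : Cy (tens hι V U) (tt hι V U e v) (I ⊔ J.map ι) := by
  obtain ⟨c, hc⟩ := coord_EE0 h (Ideal.Quotient.mk (I ⊔ J.map ι)) fun a ha =>
    Ideal.Quotient.eq_zero_iff_mem.2 (Ideal.mem_sup_left ha)
  obtain ⟨c', hc'⟩ := coord_EE0 hV ((Ideal.Quotient.mk (I ⊔ J.map ι)).comp ι) fun a ha =>
    Ideal.Quotient.eq_zero_iff_mem.2 (Ideal.mem_sup_right (Ideal.mem_map_of_mem ι ha))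
  obtain ⟨g, hg⟩ := lin_CPB2 hι (V := V) (Y := U) (X := D ⧸ (I ⊔ J.map ι))
    (fun y x => c y * c' x)
    (fun y y' x => by
      obtain ⟨a, rfl⟩ := h.exists_smul y
      obtain ⟨a', rfl⟩ := h.exists_smul y'
      rw [← add_smul, hc, hc, hc, map_add, add_mul])
    (fun y x x' => by
      obtain ⟨b, rfl⟩ := hV.exists_smul x
      obtain ⟨b', rfl⟩ := hV.exists_smul x'
      rw [← add_smul, hc', hc', hc', map_add, mul_add])
    (fun r y x => by
      obtain ⟨a, rfl⟩ := h.exists_smul y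
      obtain ⟨b, rfl⟩ := hV.exists_smul x
      rw [smul_smul, smul_smul, hc, hc, hc', hc', map_mul, map_mul, RingHom.comp_apply,
        RingHom.comp_apply]
      ring)
    (fun r y x => by
      obtain ⟨a, rfl⟩ := h.exists_smul y
      rw [smul_smul, hc, hc, map_mul, mul_assoc]
      rfl)
  refine ⟨by rw [tens_π _ _ hV.hom, map_zero, sub_zero, h.hom], ?_,
    fun r => ⟨fun hr => ?_, fun hr => ?_⟩⟩
  · rw [eq_top_iff]
    rintro x -
    induction x using tens_ind with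
    | h0 => exact zero_mem _
    | h2 x x' hx hx' => exact add_mem hx hx'
    | h1 γ y d x _ _ =>
      obtain ⟨a, rfl⟩ := h.exists_smul y
      obtain ⟨b, rfl⟩ := hV.exists_smul x
      refine Submodule.mem_span_singleton.2 ⟨ι b * a, ?_⟩
      rw [tt_smul, mul_smul, tt_bal]
  · have h1 := congrArg g hr
    have h2 := hc' 1
    rw [one_smul, map_one] at h2
    rw [tt_smul, hg, map_zero, hc, h2, mul_one] at h1
    exact Ideal.Quotient.eq_zero_iff_mem.1 h1
  · obtain ⟨a, ha, b, hb, rfl⟩ := Submodule.mem_sup.1 hr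
    have h1 : a • tt hι V U e v = 0 := by
      rw [tt_smul, (h.ann a).2 ha, map_zero, AddMonoidHom.zero_apply]
    rw [add_smul, h1, zero_add]
    clear hr
    induction hb using Submodule.span_induction with
    | mem r hr =>
      obtain ⟨a, ha, rfl⟩ := hr
      rw [tt_smul, tt_bal, (hV.ann a).2 ha, map_zero]
    | zero => exact zero_smul _ _
    | add r r' _ _ h1 h2 => rw [add_smul, h1, h2, add_zero]
    | smul r r' _ h1 => rw [smul_eq_mul, mul_smul, h1, smul_zero]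

/-- dehomogenisation -/
theorem hom_sat {A : Type} [CommRing A] {𝒜 : ℤ → Set A} (M : GM 𝒜) {x : A} (hx : x ∈ cl 𝒜 1)
    {d : ℤ} {v : M.M} (hv : M.π d v = v) {y : M.M} (hy : v = (x - 1) • y) :
    ∃ m : ℕ, x ^ m • v = 0 := by
  have h0 : ∀ c, M.π c v = x • M.π (c - 1) y - M.π c y := fun c => by
    rw [hy, sub_smul, one_smul, map_sub, π_cl_CWA hx]
  have h1 : ∀ c, c ≠ d → M.π c y = x • M.π (c - 1) y := fun c hc => by
    have h := h0 c
    rw [GM.π_of_ne hv hc] at h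
    exact (sub_eq_zero.1 h.symm).symm
  have h2 : ∀ g : ℕ → ℤ, Injective g → ∃ n, M.π (g n) y = 0 := fun g hg => by
    obtain ⟨n, hn⟩ := ((M.fin_supp y).preimage hg.injOn).exists_notMem
    exact ⟨n, not_not.1 hn⟩
  have h3 : ∀ n : ℕ, M.π (d - 1) y = x ^ n • M.π (d - 1 - n) y := fun n => by
    induction n with
    | zero => rw [pow_zero, one_smul, Nat.cast_zero, sub_zero]
    | succ n ih =>
      rw [ih, h1 (d - 1 - n) (by omega), pow_succ, mul_smul, Nat.cast_succ, sub_sub (d - 1)]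
  have h4 : ∀ n : ℕ, M.π (d + n) y = x ^ n • M.π d y := fun n => by
    induction n with
    | zero => rw [pow_zero, one_smul, Nat.cast_zero, add_zero]
    | succ n ih =>
      rw [h1 (d + (n + 1 : ℕ)) (by omega), pow_succ', mul_smul, ← ih, Nat.cast_succ, ← add_assoc,
        add_sub_cancel_right]
  obtain ⟨n, hn⟩ := h2 (fun n => d - 1 - n) fun a b h => by
    simp only at h
    omega
  obtain ⟨m, hm⟩ := h2 (fun n => d + n) fun a b h => by
    simp only at h
    omega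
  have h5 := h0 d
  rw [hv, h3 n, hn, smul_zero, smul_zero, zero_sub] at h5
  exact ⟨m, by rw [h5, smul_neg, ← h4, hm, neg_zero]⟩

theorem Std.alg_ext {k A σ : Type} [Field k] [CommRing A] [Algebra k A] [Fintype σ]
    {𝒜 : ℤ → Set A} {z : σ → A} {θ : A →ₐ[k] A[T;T⁻¹]} [Gd 𝒜] (h : Std 𝒜 z θ) {L : Type}
    [CommRing L] [Algebra k L] {α β : A →ₐ[k] L} (hz : ∀ i, α (z i) = β (z i)) : α = β := by
  have h1 := h.hom_ext (α := α.toRingHom) (β := β.toRingHom) (t := 1)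
    (fun c => (α.commutes c).trans (β.commutes c).symm)
    fun i => (hz i).trans (mul_one _).symm
  ext a
  refine Gd.ind 𝒜 (p := fun a => α a = β a) ?_ (fun c a ha => ?_) ?_ ?_ a
  · rw [map_zero, map_zero]
  · have h2 := h1 c a ha
    rw [one_zpow, Units.val_one, mul_one] at h2
    exact h2
  · intro a b ha hb
    rw [map_add, map_add, ha, hb]
  · intro a ha
    rw [map_neg, map_neg, ha]

end Pool.Agent.CXD
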