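import Pool.Agent.P.MP_2ce3e7_ag.ED0
import Pool.Agent.P.MP_2ce3e7_ag.EE0

/-! Existence of charts. -/

set_option linter.unusedSectionVars false
set_option linter.unusedVariables false

open Function Filter
open scoped TensorProduct Polynomial LaurentPolynomial

noncomputable section

namespace Pool.Agent.CXD

variable {k A σ : Type} [Field k] [CommRing A] [Algebra k A] [Fintype σ] {𝒜 : ℤ → Set A}
  {z : σ → A} {θ : A →ₐ[k] A[T;T⁻¹]} [Gd 𝒜] [Gk k 𝒜] [IsNoetherianRing A]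

theorem Std.exists_lift (h : Std 𝒜 z θ) {B : Type} [CommRing B] [Algebra k B] {ψ : A →ₐ[k] B}
    (hψ : Surjective ψ) {i : σ} (hi : ψ (z i) = 1) (f : B) :
    ∃ (c : ℕ) (F : A), F ∈ cl 𝒜 (c : ℤ) ∧ ψ F = f := by
  obtain ⟨a, rfl⟩ := hψ f
  refine Gd.ind 𝒜 (p := fun a => ∃ (c : ℕ) (F : A), F ∈ cl 𝒜 (c : ℤ) ∧ ψ F = ψ a)
    ⟨0, 0, zero_mem _, rfl⟩ ?_ ?_ ?_ a
  · intro c a ha
    obtain ⟨n, rfl⟩ := Int.eq_ofNat_of_zero_le (not_lt.1 fun hc => h.neg c hc a ha)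
    exact ⟨n, a, mem_cl ha, rfl⟩
  · rintro a b ⟨c, F, hF, e⟩ ⟨d, G, hG, e'⟩
    refine ⟨c + d, F * z i ^ d + z i ^ c * G, ?_, ?_⟩
    · rw [Nat.cast_add]
      exact add_mem (cl_mul hF (pow_mem_CWL h i d)) (cl_mul (pow_mem_CWL h i c) hG)
    · rw [map_add, map_mul, map_mul, map_pow, map_pow, hi, one_pow, one_pow, mul_one, one_mul, e, e',
        map_add]
  · rintro a ⟨c, F, hF, e⟩
    exact ⟨c, -F, neg_mem hF, by rw [map_neg, map_neg, e]⟩

open LaurentPolynomial in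
theorem hat_ED1 (h : Std 𝒜 z θ) {B : Type} [CommRing B] [Algebra k B] (ψ : A →ₐ[k] B) {d : ℤ}
    {a : A} (ha : a ∈ cl 𝒜 d) : (hatA θ ψ).toRingHom a = C (ψ a) * T d := (h.ch ψ).hat_cl ha

open LaurentPolynomial in
theorem aw_ED1 (h : Std 𝒜 z θ) {i : σ} {c : ℤ} {F : A} (hF : F ∈ cl 𝒜 c) {B : Type} [CommRing B]
    [Algebra k B] (ψ : A →ₐ[k] B) (h1 : ψ (z i) = 1) (hu : IsUnit (ψ F))
    (hs : ∀ y, ∃ (n : ℕ) (d : ℤ) (G : A), G ∈ cl 𝒜 d ∧ y * ψ F ^ n = ψ G)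
    (hk : ∀ b, ψ b = 0 → ∃ (n : ℕ) (y : A), F ^ n * b = (z i - 1) * y) :
    Aw (hatA θ ψ).toRingHom (z i * F) := by
  classical
  have hη := fun d a (ha : a ∈ cl 𝒜 d) => hat_ED1 h ψ ha
  generalize (hatA θ ψ).toRingHom = η at hη ⊢
  have hz := mem_cl (h.deg i)
  have e1 : η (z i) = T 1 := by rw [hη _ _ hz, h1, map_one, one_mul]
  have e2 : η (z i * F) = C (ψ F) * T (1 + c) := by
    rw [hη _ _ (cl_mul hz hF), map_mul, h1, one_mul]
  refine ⟨e2 ▸ (hu.map C).mul (isUnit_T _), fun y => ?_, fun a ha => ?_⟩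
  · obtain ⟨w, hw⟩ : ∃ w, w = z i * F := ⟨_, rfl⟩
    rw [← hw] at e2 ⊢
    have mul : ∀ y y' : B[T;T⁻¹], (∃ (n : ℕ) (a : A), y * η w ^ n = η a) →
        (∃ (n : ℕ) (a : A), y' * η w ^ n = η a) → ∃ (n : ℕ) (a : A), y * y' * η w ^ n = η a := by
      rintro y y' ⟨n, a, e⟩ ⟨n', a', e'⟩
      exact ⟨n + n', a * a', by rw [map_mul, ← e, ← e']; ring⟩
    have hp : ∃ (n : ℕ) (a : A), T 1 * η w ^ n = η a := ⟨0, z i, by rw [pow_zero, mul_one, e1]⟩
    have hm : ∃ (n : ℕ) (a : A), T (-1) * η w ^ n = η a := ⟨1, F, by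
      rw [pow_one, hw, map_mul, e1, ← mul_assoc, ← T_add, neg_add_cancel, T_zero, one_mul]⟩
    have hT : ∀ e : ℤ, ∃ (n : ℕ) (a : A), T e * η w ^ n = η a := fun e => by
      induction e using Int.induction_on with
      | zero => exact ⟨0, 1, by rw [pow_zero, mul_one, T_zero, map_one]⟩
      | succ n ih => rw [T_add]; exact mul _ _ ih hp
      | pred n ih => rw [sub_eq_add_neg, T_add]; exact mul _ _ ih hm
    induction y using LaurentPolynomial.induction_on' with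
    | add p q hp hq =>
      obtain ⟨n, a, e⟩ := hp
      obtain ⟨n', a', e'⟩ := hq
      refine ⟨n + n', a * w ^ n' + a' * w ^ n, ?_⟩
      rw [map_add, map_mul, map_mul, map_pow, map_pow, ← e, ← e']
      ring
    | C_mul_T e y =>
      refine mul _ _ ?_ (hT e)
      obtain ⟨n, d, G, hG, e3⟩ := hs y
      obtain ⟨m, a, e4⟩ := hT (n * (1 + c) - d)
      refine ⟨n + m, G * a, ?_⟩
      rw [map_mul, ← e4, hη _ _ hG, ← e3, pow_add, ← mul_assoc, ← mul_assoc, mul_T_assoc,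
        add_sub_cancel, e2, mul_pow, T_pow, map_mul, map_pow]
      ring
  · obtain ⟨b, hb, rfl⟩ := Gd.dec 𝒜 a
    obtain ⟨U, e, hU⟩ := h.exists_rg
    refine Finset.sum_induction _ (fun a => ∃ n : ℕ, (z i * F) ^ n * a = 0) ?_ ⟨0, mul_zero _⟩
      fun d hd => ?_
    · rintro a a' ⟨n, e⟩ ⟨n', e'⟩
      exact ⟨n + n', by rw [mul_add, pow_add, mul_assoc _ _ a', e', mul_comm (_ ^ n), mul_assoc, e,
        mul_zero, mul_zero, add_zero]⟩
    · have e3 : (η (∑ c ∈ b.support, b c)).coeff d = ψ (b d) := by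
        rw [map_sum, AddMonoidAlgebra.coeff_sum, Finsupp.finsetSum_apply,
          Finset.sum_eq_single_of_mem d hd fun d' _ hd' => ?_]
        · rw [hη _ _ (hb d), ← single_eq_C_mul_T, AddMonoidAlgebra.coeff_single,
            Finsupp.single_eq_same]
        · rw [hη _ _ (hb d'), ← single_eq_C_mul_T, AddMonoidAlgebra.coeff_single,
            Finsupp.single_apply, if_neg hd']
      rw [ha] at e3
      obtain ⟨n, y, e4⟩ := hk (b d) e3.symm
      obtain ⟨m, e5⟩ := hom_sat U hz (GM.hom_smul (cl_mul (cl_pow hF n) (hb d)) hU.hom)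
        (y := y • e) (by rw [e4, mul_smul])
      rw [← mul_smul, hU.ann, Ideal.mem_bot] at e5
      refine ⟨m + n, ?_⟩
      calc (z i * F) ^ (m + n) * b d = z i ^ n * F ^ m * (z i ^ m * (F ^ n * b d)) := by ring
        _ = 0 := by rw [e5, mul_zero]

theorem mk_ED1 (x : A) : Ideal.Quotient.mkₐ k (Ideal.span {x - 1}) x = 1 := by
  rw [← map_one (Ideal.Quotient.mkₐ k (Ideal.span {x - 1}))]
  exact Ideal.Quotient.eq.2 (Ideal.mem_span_singleton_self _)

theorem Std.aw (h : Std 𝒜 z θ) (i : σ) {c : ℤ} {F : A} (hF : F ∈ cl 𝒜 c) (C : Type) [CommRing C]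
    [Algebra k C] [Algebra (A ⧸ Ideal.span {z i - 1}) C]
    [IsScalarTower k (A ⧸ Ideal.span {z i - 1}) C]
    [IsLocalization.Away (Ideal.Quotient.mk (Ideal.span {z i - 1}) F) C] :
    Aw (hatA θ ((IsScalarTower.toAlgHom k (A ⧸ Ideal.span {z i - 1}) C).comp
      (Ideal.Quotient.mkₐ k (Ideal.span {z i - 1})))).toRingHom (z i * F) := by
  refine aw_ED1 h hF _ (by rw [AlgHom.comp_apply, mk_ED1, map_one])
    (IsLocalization.Away.algebraMap_isUnit (Ideal.Quotient.mk (Ideal.span {z i - 1}) F))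
    (fun y => ?_) fun b hb => ?_
  · obtain ⟨n, s, e⟩ := IsLocalization.Away.surj (Ideal.Quotient.mk (Ideal.span {z i - 1}) F) y
    obtain ⟨d, G, hG, rfl⟩ := h.exists_lift (Ideal.Quotient.mkₐ_surjective k _) (mk_ED1 (z i)) s
    exact ⟨n, d, G, hG, e⟩
  · obtain ⟨n, e⟩ := IsLocalization.Away.exists_of_eq (S := C)
      (Ideal.Quotient.mk (Ideal.span {z i - 1}) F) (a := Ideal.Quotient.mk _ b) (b := 0)
      (hb.trans (map_zero _).symm)
    rw [mul_zero, ← map_pow, ← map_mul, Ideal.Quotient.eq_zero_iff_mem,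
      Ideal.mem_span_singleton] at e
    exact ⟨n, e⟩

theorem Std.atl (h : Std 𝒜 z θ) (hs : ∀ i, Algebra.Smooth k (A ⧸ Ideal.span {z i - 1})) :
    Atl 𝒜 z θ := by
  have h1 : ∀ i, ∃ s : Finset (A ⧸ Ideal.span {z i - 1}),
      Ideal.span (s : Set (A ⧸ Ideal.span {z i - 1})) = ⊤ ∧
        ∀ x ∈ s, Algebra.IsStandardSmooth k (Localization.Away x) := fun i => by
    obtain ⟨s, h1, h2⟩ :=
      Algebra.Smooth.exists_span_eq_top_isStandardSmooth k (A ⧸ Ideal.span {z i - 1})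
    obtain ⟨s', h3, h4⟩ := (Ideal.span_eq_top_iff_finite s).1 h1
    exact ⟨s', h4, fun x hx => h2 x (h3 hx)⟩
  choose s hs1 hs2 using h1
  choose c F hF e using fun i (x : A ⧸ Ideal.span {z i - 1}) =>
    h.exists_lift (Ideal.Quotient.mkₐ_surjective k _) (mk_ED1 (z i)) x
  refine ⟨Σ i, s i, inferInstance, fun j => z j.1 * F j.1 j.2, fun i => ?_, fun j => ?_⟩
  · have : IsLocalization.Away (Ideal.Quotient.mk (Ideal.span {z i - 1}) 1)
        (A ⧸ Ideal.span {z i - 1}) :=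
      IsLocalization.away_of_isUnit_of_bijective _ (isUnit_one.map _) bijective_id
    have h2 := h.aw i cl_one (A ⧸ Ideal.span {z i - 1})
    rw [mul_one] at h2
    refine h2.rad (eq_top_iff.2 ?_)
    rw [← Ideal.map_top (LaurentPolynomial.C (R := A ⧸ Ideal.span {z i - 1})), ← hs1 i,
      Ideal.map_span, Ideal.span_le]
    rintro _ ⟨x, hx, rfl⟩
    refine (Ideal.mul_unit_mem_iff_mem _ (LaurentPolynomial.isUnit_T (1 + c i x))).1
      (Ideal.subset_span ⟨_, ⟨⟨i, x, hx⟩, rfl⟩, ?_⟩)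
    rw [hat_ED1 h _ (cl_mul (mem_cl (h.deg i)) (hF i x)), AlgHom.comp_apply, map_mul, mk_ED1,
      one_mul, e]
    rfl
  · obtain ⟨i, x, hx⟩ := j
    have : IsLocalization.Away (Ideal.Quotient.mk (Ideal.span {z i - 1}) (F i x))
        (Localization.Away x) := by
      rw [show Ideal.Quotient.mk (Ideal.span {z i - 1}) (F i x) = x from e i x]
      infer_instance
    exact ⟨Localization.Away x, inferInstance, inferInstance, _,
      ⟨_, cl_mul (mem_cl (h.deg i)) (hF i x)⟩,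
      ⟨i, by rw [AlgHom.comp_apply, mk_ED1, map_one], dvd_mul_right _ _⟩,
      h.aw i (hF i x) (Localization.Away x), hs2 i x hx⟩

end Pool.Agent.CXD
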