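import Pool.Agent.P.MP_2ce3e7_ag.ED0
import Pool.Agent.P.MP_2ce3e7_ag.EC4
import Pool.Agent.P.MP_2ce3e7_ag.EA3

/-! Regularity. -/

set_option linter.unusedSectionVars false
set_option linter.unusedVariables false

open Function Filter
open scoped TensorProduct Polynomial LaurentPolynomial

noncomputable section

namespace Pool.Agent.CXD

variable {k A σ : Type} [Field k] [CommRing A] [Algebra k A] [Fintype σ] {𝒜 : ℤ → Set A}
  {z : σ → A} {θ : A →ₐ[k] A[T;T⁻¹]} [Gd 𝒜] [Gk k 𝒜] [IsNoetherianRing A]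
  [IsNoetherianRing (A ⊗[k] A)]

theorem tmul_span_ED2 {τ : Type} {w : τ → A} {a b : A} (ha : a ∈ Ideal.span (Set.range w))
    (hb : b ∈ Ideal.span (Set.range w)) :
    a ⊗ₜ[k] b ∈ Ideal.span (Set.range fun p : τ × τ => w p.1 ⊗ₜ[k] w p.2) := by
  induction ha using Submodule.span_induction with
  | zero => rw [TensorProduct.zero_tmul]; exact Ideal.zero_mem _
  | add x y _ _ hx hy => rw [TensorProduct.add_tmul]; exact Ideal.add_mem _ hx hy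
  | smul c x _ hx =>
    have : (c • x) ⊗ₜ[k] b = (c ⊗ₜ[k] (1 : A)) * (x ⊗ₜ[k] b) := by
      rw [Algebra.TensorProduct.tmul_mul_tmul, one_mul, smul_eq_mul]
    rw [this]; exact Ideal.mul_mem_left _ _ hx
  | mem x hx =>
    obtain ⟨i, rfl⟩ := hx
    induction hb using Submodule.span_induction with
    | zero => rw [TensorProduct.tmul_zero]; exact Ideal.zero_mem _
    | add x y _ _ hx hy => rw [TensorProduct.tmul_add]; exact Ideal.add_mem _ hx hy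
    | smul c x _ hx =>
      have : w i ⊗ₜ[k] (c • x) = ((1 : A) ⊗ₜ[k] c) * (w i ⊗ₜ[k] x) := by
        rw [Algebra.TensorProduct.tmul_mul_tmul, one_mul, smul_eq_mul]
      rw [this]; exact Ideal.mul_mem_left _ _ hx
    | mem x hx =>
      obtain ⟨j, rfl⟩ := hx
      exact Ideal.subset_span ⟨(i, j), rfl⟩

theorem Std.rgl (h : Std 𝒜 z θ) (ha : Atl 𝒜 z θ) : Rgl 𝒜 z := by
  obtain ⟨τ, _, w, h2, hc⟩ := ha
  obtain ⟨U, e, hU⟩ := h.exists_rg
  refine rgl_of (w := w) hU (fun j => ?_) (fun j => ?_) h2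
  · obtain ⟨C, _, _, ψ, hψ⟩ := hc j
    have := hψ.sm
    have := std_laurent k C
    obtain ⟨g, hg⟩ := gld_std k C[T;T⁻¹]
    obtain ⟨ε⟩ := hψ.loc.equiv
    exact ⟨g, hg.equiv ε⟩
  · obtain ⟨C, _, _, ψ, hψ⟩ := hc j
    obtain ⟨i, -, hi⟩ := hψ.one
    exact ⟨i, hi⟩

theorem Std.rgl2 (h : Std 𝒜 z θ) (ha : Atl 𝒜 z θ) : Rgl (tg k 𝒜 𝒜) (zz k z) := by
  obtain ⟨τ, _, w, h2, hc⟩ := ha
  obtain ⟨U, e, hU⟩ := h.exists_rg
  have hB := Cy.gbox (k := k) hU hU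
  rw [Ideal.map_bot] at hB
  refine rgl_of (w := fun p : τ × τ => w p.1 ⊗ₜ[k] w p.2) hB (fun j => ?_) (fun j => ?_)
    (fun i => ?_)
  · obtain ⟨C, _, _, ψ, hψ⟩ := hc j.1
    obtain ⟨C', _, _, ψ', hψ'⟩ := hc j.2
    have := hψ.sm
    have := hψ'.sm
    have := std_laurent k C
    have := std_laurent k C'
    have := std_tensor k C[T;T⁻¹] C'[T;T⁻¹]
    obtain ⟨g, hg⟩ := gld_std k (C[T;T⁻¹] ⊗[k] C'[T;T⁻¹])
    obtain ⟨ε⟩ := (hψ.loc.tensor hψ'.loc).equiv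
    exact ⟨g, hg.equiv ε⟩
  · obtain ⟨C, _, _, ψ, hψ⟩ := hc j.1
    obtain ⟨C', _, _, ψ', hψ'⟩ := hc j.2
    obtain ⟨i, -, a, hi⟩ := hψ.one
    obtain ⟨i', -, a', hi'⟩ := hψ'.one
    exact ⟨(i, i'), a ⊗ₜ a', by rw [hi, hi', zz, Algebra.TensorProduct.tmul_mul_tmul]⟩
  · obtain ⟨n, hn⟩ := h2 i.1
    obtain ⟨m, hm⟩ := h2 i.2
    refine ⟨n + m, ?_⟩
    rw [zz, Algebra.TensorProduct.tmul_pow]
    refine tmul_span_ED2 ?_ ?_
    · rw [pow_add]; exact Ideal.mul_mem_right _ _ hn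
    · rw [pow_add]; exact Ideal.mul_mem_left _ _ hm

end Pool.Agent.CXD
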