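import Pool.Agent.P.MP_2ce3e7_ag.ED0
import Pool.Agent.P.MP_2ce3e7_ag.EE0

/-! Transversality in a chart. -/

set_option linter.unusedSectionVars false
set_option linter.unusedVariables false

open Function Filter
open scoped TensorProduct Polynomial LaurentPolynomial

noncomputable section

namespace Pool.Agent.CXD

variable {k A σ : Type} [Field k] [CommRing A] [Algebra k A] [Fintype σ] {𝒜 : ℤ → Set A}
  {z : σ → A} {θ : A →ₐ[k] A[T;T⁻¹]} [Gd 𝒜] [Gk k 𝒜] [IsNoetherianRing A]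
  [IsNoetherianRing (A ⊗[k] A)]
  {w : A} {C : Type} [CommRing C] [Algebra k C] {ψ : A →ₐ[k] C}

theorem hat_ED3 (h : Std 𝒜 z θ) (ψ : A →ₐ[k] C) {c : ℤ} {a : A} (ha : a ∈ 𝒜 c) :
    hatA θ ψ a = LaurentPolynomial.C (ψ a) * LaurentPolynomial.T c :=
  (h.ch ψ).hat_cl (mem_cl ha)

/-- algebra maps out of a chart are determined by the values on the coordinates -/
theorem Cht.ext (hc : Cht 𝒜 z θ w ψ) (h : Std 𝒜 z θ) {L : Type} [CommRing L] [Algebra k L]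
    {α β : C →ₐ[k] L} (hz : ∀ i, α (ψ (z i)) = β (ψ (z i))) : α = β := by
  have h1 : α.comp ψ = β.comp ψ := h.alg_ext hz
  have h2 : ∀ a, α (ψ a) = β (ψ a) := fun a => DFunLike.congr_fun h1 a
  have h3 : ∀ a, LaurentPolynomial.eval₂ (RingHom.id C) 1 (hatA θ ψ a) = ψ a := by
    intro a
    induction a using Gd.ind 𝒜 with
    | h0 => rw [map_zero, map_zero, map_zero]
    | h1 c a ha =>
      rw [hat_ED3 h ψ ha, LaurentPolynomial.eval₂_C_mul_T, one_zpow, Units.val_one, mul_one,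
        RingHom.id_apply]
    | h2 a b ha hb => rw [map_add, map_add, map_add, ha, hb]
    | h3 a ha => rw [map_neg, map_neg, map_neg, ha]
  have hu : IsUnit (ψ w) := by
    rw [← h3]
    exact hc.loc.unit.map _
  ext y
  obtain ⟨n, a, hy⟩ := hc.loc.surj (LaurentPolynomial.C y)
  have h4 : y * ψ w ^ n = ψ a := by
    have := congrArg (LaurentPolynomial.eval₂ (RingHom.id C) 1) hy
    rw [map_mul, map_pow, LaurentPolynomial.eval₂_C] at this
    rw [← h3 w, ← h3 a]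
    exact this
  refine ((hu.map β).pow n).mul_right_cancel ?_
  have h5 := h2 a
  rw [← h4, map_mul, map_mul, map_pow, map_pow, h2] at h5
  exact h5

variable (k C) in
/-- the constants -/
def cc : C ⊗[k] C →ₐ[k] C[T;T⁻¹] ⊗[k] C[T;T⁻¹] :=
  Algebra.TensorProduct.map AddMonoidAlgebra.singleZeroAlgHom AddMonoidAlgebra.singleZeroAlgHom

theorem cc_flat : (cc k C).toRingHom.Flat := by
  have h : (algebraMap C C[T;T⁻¹]).Flat := RingHom.flat_algebraMap_iff.2 inferInstance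
  exact RingHom.Flat.tensorProductMap h h

theorem cc_ED3 (a b : C) :
    cc k C (a ⊗ₜ b) = LaurentPolynomial.C a ⊗ₜ LaurentPolynomial.C b := rfl

theorem gen_ED3 (h : Std 𝒜 z θ) (ψ : A →ₐ[k] C) (m : ℕ) (i j : σ) :
    Algebra.TensorProduct.map (hatA θ ψ) (hatA θ ψ) ((z i ^ m) ⊗ₜ z j) =
      (LaurentPolynomial.T 1 ^ m) ⊗ₜ LaurentPolynomial.T 1 *
        (cc k C ((ψ (z i) ^ m) ⊗ₜ 1) * cc k C (1 ⊗ₜ ψ (z j))) := by
  rw [Algebra.TensorProduct.map_tmul, map_pow, hat_ED3 h ψ (h.deg i), hat_ED3 h ψ (h.deg j),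
    cc_ED3, cc_ED3, Algebra.TensorProduct.tmul_mul_tmul, Algebra.TensorProduct.tmul_mul_tmul,
    map_one, map_pow, mul_one, one_mul, mul_pow, mul_comm (LaurentPolynomial.T 1 ^ m),
    mul_comm (LaurentPolynomial.T 1)]

theorem Cht.map_gI (hc : Cht 𝒜 z θ w ψ) (h : Std 𝒜 z θ) (fb : C →ₐ[k] C) {m : ℕ}
    (hfb : ∀ c, fb c = c ^ m) :
    (gI k z m).map (Algebra.TensorProduct.map (hatA θ ψ) (hatA θ ψ)).toRingHom =
      Ideal.span (Set.range fun c : C => cc k C ((c ^ m) ⊗ₜ 1) - cc k C (1 ⊗ₜ c)) := by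
  have key : ∀ i j, (Algebra.TensorProduct.map (hatA θ ψ) (hatA θ ψ)).toRingHom
      ((z i ^ m) ⊗ₜ[k] z j - (z j ^ m) ⊗ₜ[k] z i) =
      (LaurentPolynomial.T 1 ^ m) ⊗ₜ LaurentPolynomial.T 1 *
        (cc k C ((ψ (z i) ^ m) ⊗ₜ 1) * cc k C (1 ⊗ₜ ψ (z j)) -
          cc k C ((ψ (z j) ^ m) ⊗ₜ 1) * cc k C (1 ⊗ₜ ψ (z i))) := by
    intro i j
    rw [map_sub, mul_sub, ← gen_ED3 h, ← gen_ED3 h]
    rfl
  apply le_antisymm
  · rw [Ideal.map_le_iff_le_comap, gI, Ideal.span_le]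
    rintro _ ⟨p, rfl⟩
    refine Ideal.mem_comap.2 ?_
    rw [key]
    refine Ideal.mul_mem_left _ _ ?_
    have e : ∀ a b c d : C[T;T⁻¹] ⊗[k] C[T;T⁻¹], a * d - c * b = c * (a - b) - a * (c - d) :=
      fun a b c d => by ring
    rw [e]
    exact sub_mem (Ideal.mul_mem_left _ _ (Ideal.subset_span ⟨_, rfl⟩))
      (Ideal.mul_mem_left _ _ (Ideal.subset_span ⟨_, rfl⟩))
  · obtain ⟨i₀, h0, -⟩ := hc.one
    obtain ⟨I, hI⟩ : ∃ I, I =
      (gI k z m).map (Algebra.TensorProduct.map (hatA θ ψ) (hatA θ ψ)).toRingHom := ⟨_, rfl⟩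
    have hu : IsUnit (((LaurentPolynomial.T 1 ^ m) ⊗ₜ LaurentPolynomial.T 1 :
        C[T;T⁻¹] ⊗[k] C[T;T⁻¹])) := by
      have h1 := ((LaurentPolynomial.isUnit_T (R := C) 1).pow m).map
        (Algebra.TensorProduct.includeLeft (R := k) (S := k) (B := C[T;T⁻¹]))
      have h2 := (LaurentPolynomial.isUnit_T (R := C) 1).map
        (Algebra.TensorProduct.includeRight (R := k) (A := C[T;T⁻¹]))
      simpa using h1.mul h2
    have h1 : ∀ i, cc k C ((ψ (z i) ^ m) ⊗ₜ 1) - cc k C (1 ⊗ₜ ψ (z i)) ∈ I := by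
      intro i
      have h2 : (Algebra.TensorProduct.map (hatA θ ψ) (hatA θ ψ)).toRingHom
          ((z i ^ m) ⊗ₜ[k] z i₀ - (z i₀ ^ m) ⊗ₜ[k] z i) ∈ I :=
        hI ▸ Ideal.mem_map_of_mem _ (Ideal.subset_span ⟨(i, i₀), rfl⟩)
      rw [key, h0, one_pow, ← Algebra.TensorProduct.one_def, map_one, mul_one, one_mul] at h2
      exact (Ideal.unit_mul_mem_iff_mem I hu).1 h2
    have h3 := hc.ext h (L := (C[T;T⁻¹] ⊗[k] C[T;T⁻¹]) ⧸ I)
      (α := (Ideal.Quotient.mkₐ k I).comp ((cc k C).comp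
        ((Algebra.TensorProduct.includeLeft (S := k)).comp fb)))
      (β := (Ideal.Quotient.mkₐ k I).comp ((cc k C).comp Algebra.TensorProduct.includeRight))
      (fun i => by
        refine Ideal.Quotient.eq.2 ?_
        have := h1 i
        rw [← hfb] at this
        exact this)
    rw [← hI, Ideal.span_le]
    rintro _ ⟨c, rfl⟩
    have h4 := Ideal.Quotient.eq.1 (DFunLike.congr_fun h3 c)
    simp only [← hfb]
    exact h4

theorem unit_ED3 : ∃ u : (C[T;T⁻¹])ˣ, ∀ c : ℤ, ((u ^ c : (C[T;T⁻¹])ˣ) : C[T;T⁻¹]) =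
    LaurentPolynomial.T c := by
  let τ : Multiplicative ℤ →* C[T;T⁻¹] :=
    { toFun := fun c => LaurentPolynomial.T c.toAdd
      map_one' := rfl
      map_mul' := fun a b => LaurentPolynomial.T_add _ _ }
  refine ⟨τ.toHomUnits (Multiplicative.ofAdd 1), fun c => ?_⟩
  rw [← map_zpow, MonoidHom.coe_toHomUnits]
  change LaurentPolynomial.T _ = _
  simp

theorem ker_ED3 (h : Std 𝒜 z θ) (ψ : A →ₐ[k] C) {L : Type} [CommRing L]
    (π : C[T;T⁻¹] ⊗[k] C[T;T⁻¹] →+* L)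
    (hπ : ∀ c : C, π (cc k C (c ⊗ₜ 1)) = π (cc k C (1 ⊗ₜ c))) :
    RingHom.ker (hat (thL θ A) (mlt k A)) ≤
      RingHom.ker (π.comp (Algebra.TensorProduct.map (hatA θ ψ) (hatA θ ψ)).toRingHom) := by
  obtain ⟨u, hu⟩ := unit_ED3 (C := C)
  let l : C[T;T⁻¹] →+* L := π.comp Algebra.TensorProduct.includeLeftRingHom
  let r : C[T;T⁻¹] →+* L := π.comp (Algebra.TensorProduct.includeRight (R := k)).toRingHom
  have hlr : ∀ c : C, l (LaurentPolynomial.C c) = r (LaurentPolynomial.C c) := fun c => by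
    have := hπ c
    rw [cc_ED3, cc_ED3, map_one] at this
    exact this
  refine h.chD.ker_le _ (r.comp (hatA θ ψ).toRingHom)
    (Units.map l.toMonoidHom u * (Units.map r.toMonoidHom u)⁻¹) ?_
  rintro c _ ⟨a, ha, b, hb, rfl⟩
  have e1 : (π.comp (Algebra.TensorProduct.map (hatA θ ψ) (hatA θ ψ)).toRingHom) (a ⊗ₜ b) =
      l (hatA θ ψ a) * r (hatA θ ψ b) := by
    change π (hatA θ ψ a ⊗ₜ hatA θ ψ b) = π (hatA θ ψ a ⊗ₜ 1) * π (1 ⊗ₜ hatA θ ψ b)
    rw [← map_mul, Algebra.TensorProduct.tmul_mul_tmul, mul_one, one_mul]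
  have e2 : (r.comp (hatA θ ψ).toRingHom) (mlt k A (a ⊗ₜ b)) =
      r (hatA θ ψ a) * r (hatA θ ψ b) := by
    rw [mlt_tmul, map_mul]
    rfl
  have e3 : (((Units.map l.toMonoidHom u * (Units.map r.toMonoidHom u)⁻¹) ^ (eD c).1 : Lˣ) : L) =
      l (LaurentPolynomial.T c.1) * r (LaurentPolynomial.T (-c.1)) := by
    rw [mul_zpow, inv_zpow', ← map_zpow, ← map_zpow, Units.val_mul, Units.coe_map,
      Units.coe_map, hu, hu]
    rfl
  have e4 : r (LaurentPolynomial.T c.1) * r (LaurentPolynomial.T (-c.1)) = 1 := by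
    rw [← map_mul, ← LaurentPolynomial.T_add, add_neg_cancel, LaurentPolynomial.T_zero, map_one]
  rw [e1, e2, e3, hat_ED3 h ψ ha, map_mul, map_mul, hlr]
  linear_combination (-(r (LaurentPolynomial.C (ψ a)) * l (LaurentPolynomial.T c.1) *
    r (hatA θ ψ b))) * e4

theorem Cht.map_dg (hc : Cht 𝒜 z θ w ψ) (h : Std 𝒜 z θ) :
    (RingHom.ker (hat (thL θ A) (mlt k A))).map
        (Algebra.TensorProduct.map (hatA θ ψ) (hatA θ ψ)).toRingHom =
      Ideal.span (Set.range fun c : C => cc k C (c ⊗ₜ 1) - cc k C (1 ⊗ₜ c)) := by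
  apply le_antisymm
  · obtain ⟨J, hJ⟩ : ∃ J, J =
      Ideal.span (Set.range fun c : C => cc k C (c ⊗ₜ 1) - cc k C (1 ⊗ₜ c)) := ⟨_, rfl⟩
    rw [← hJ, Ideal.map_le_iff_le_comap]
    intro y hy
    have hk := ker_ED3 h ψ (L := (C[T;T⁻¹] ⊗[k] C[T;T⁻¹]) ⧸ J) (Ideal.Quotient.mk J)
      (fun c => Ideal.Quotient.eq.2 (hJ ▸ Ideal.subset_span ⟨c, rfl⟩)) hy
    exact Ideal.mem_comap.2 (Ideal.Quotient.eq_zero_iff_mem.1 hk)
  · have h1 := hc.map_gI h (AlgHom.id k C) (m := 1) (fun c => (pow_one c).symm)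
    simp only [pow_one] at h1
    rw [← h1]
    refine Ideal.map_mono ?_
    rw [gI, Ideal.span_le]
    rintro _ ⟨p, rfl⟩
    have h2 : ∀ i j, hat (thL θ A) (mlt k A) (z i ⊗ₜ z j) =
        LaurentPolynomial.C (z i * z j) * LaurentPolynomial.T 1 := fun i j =>
      h.chD.hat_cl (c := (1, 1)) (mem_cl ⟨z i, h.deg i, z j, h.deg j, rfl⟩)
    refine RingHom.mem_ker.2 ?_
    simp only [pow_one]
    rw [map_sub, h2, h2, mul_comm (z p.1), sub_self]

end Pool.Agent.CXD
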