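import Pool.Agent.P.MP_2ce3e7_ag.EE0

/-! The ideal of the graph. -/

set_option linter.unusedSectionVars false
set_option linter.unusedVariables false

open Function Filter
open scoped TensorProduct Polynomial LaurentPolynomial

noncomputable section

namespace Pool.Agent.CXD

variable {k A σ : Type} [Field k] [Fintype k] [CommRing A] [Algebra k A] [Fintype σ] {𝒜 : ℤ → Set A}
  {z : σ → A} {θ : A →ₐ[k] A[T;T⁻¹]} [Gd 𝒜] [Gk k 𝒜] [IsNoetherianRing A]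
  [IsNoetherianRing (A ⊗[k] A)]

theorem exists_fb (k C : Type) [Field k] [Fintype k] [CommRing C] [Algebra k C] (s : ℕ) :
    ∃ fb : C →ₐ[k] C, ∀ c, fb c = c ^ Fintype.card k ^ s := by
  refine ⟨FiniteField.frobeniusAlgHom k C ^ s, fun c => ?_⟩
  induction s with
  | zero => simp
  | succ s ih =>
    rw [pow_succ', AlgHom.mul_apply, ih, FiniteField.coe_frobeniusAlgHom]
    simp only [← pow_mul, ← pow_succ]

theorem gI_one_ED4 (h : Std 𝒜 z θ) (m : ℕ) (fb : A →ₐ[k] A) (hfb : ∀ c, fb c = c ^ m) (i : σ)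
    (j : ℕ) : ∀ b ∈ cl 𝒜 (j : ℤ),
      (z i ^ (m * j)) ⊗ₜ[k] b - fb b ⊗ₜ[k] (z i ^ j) ∈ gI k z m := by
  have add : ∀ (j : ℕ) (b c : A),
      (z i ^ (m * j)) ⊗ₜ[k] b - fb b ⊗ₜ[k] (z i ^ j) ∈ gI k z m →
      (z i ^ (m * j)) ⊗ₜ[k] c - fb c ⊗ₜ[k] (z i ^ j) ∈ gI k z m →
      (z i ^ (m * j)) ⊗ₜ[k] (b + c) - fb (b + c) ⊗ₜ[k] (z i ^ j) ∈ gI k z m := by
    intro j b c hb hc
    rw [map_add, TensorProduct.tmul_add, TensorProduct.add_tmul, add_sub_add_comm]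
    exact add_mem hb hc
  have red : ∀ j : ℕ, (∀ b ∈ 𝒜 (j : ℤ),
      (z i ^ (m * j)) ⊗ₜ[k] b - fb b ⊗ₜ[k] (z i ^ j) ∈ gI k z m) → ∀ b ∈ cl 𝒜 (j : ℤ),
      (z i ^ (m * j)) ⊗ₜ[k] b - fb b ⊗ₜ[k] (z i ^ j) ∈ gI k z m := by
    intro j H b hb
    induction hb using AddSubgroup.closure_induction with
    | mem b hb => exact H b hb
    | zero => simp
    | add b c _ _ hb hc => exact add j b c hb hc
    | neg b _ hb =>
      rw [map_neg, TensorProduct.tmul_neg, TensorProduct.neg_tmul, ← neg_sub']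
      exact neg_mem hb
  induction j with
  | zero =>
    refine red 0 fun b hb => ?_
    obtain ⟨c, rfl⟩ := h.zero b (by simpa using hb)
    rw [fb.commutes, Algebra.algebraMap_eq_smul_one, TensorProduct.tmul_smul,
      TensorProduct.smul_tmul']
    simp
  | succ j ih =>
    refine red (j + 1) fun b hb => ?_
    obtain ⟨c, hc, rfl⟩ := h.succ j (Int.natCast_nonneg j) b (by simpa using hb)
    rw [map_sum, TensorProduct.tmul_sum, TensorProduct.sum_tmul, ← Finset.sum_sub_distrib]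
    refine Ideal.sum_mem _ fun l _ => ?_
    have e : (z i ^ (m * (j + 1))) ⊗ₜ[k] (z l * c l) - fb (z l * c l) ⊗ₜ[k] (z i ^ (j + 1)) =
        ((z i ^ m) ⊗ₜ[k] z l) * ((z i ^ (m * j)) ⊗ₜ[k] c l - fb (c l) ⊗ₜ[k] (z i ^ j)) +
        (fb (c l) ⊗ₜ[k] (z i ^ j)) * ((z i ^ m) ⊗ₜ[k] z l - (z l ^ m) ⊗ₜ[k] z i) := by
      simp only [mul_sub, Algebra.TensorProduct.tmul_mul_tmul]
      rw [map_mul, hfb (z l), mul_add, mul_one, pow_add, pow_succ, mul_comm (z i ^ m) (z i ^ (m * j)),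
        mul_comm (z i ^ m) (fb (c l)), mul_comm (z l) (z i ^ j), mul_comm (z l ^ m) (fb (c l))]
      abel
    rw [e]
    exact add_mem (Ideal.mul_mem_left _ _ (ih _ (mem_cl (hc l))))
      (Ideal.mul_mem_left _ _ (Ideal.subset_span ⟨(i, l), rfl⟩))

theorem Std.gI_move (h : Std 𝒜 z θ) (s : ℕ) (i : σ) (j : ℕ) {b : A} (hb : b ∈ cl 𝒜 (j : ℤ))
    (a : A) : (a * z i ^ (Fintype.card k ^ s * j)) ⊗ₜ[k] b -
      (a * b ^ Fintype.card k ^ s) ⊗ₜ[k] (z i ^ j) ∈ gI k z (Fintype.card k ^ s) := by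
  obtain ⟨fb, hfb⟩ := exists_fb k A s
  have h1 := Ideal.mul_mem_left _ (a ⊗ₜ[k] (1 : A)) (gI_one_ED4 h _ fb hfb i j b hb)
  rwa [mul_sub, Algebra.TensorProduct.tmul_mul_tmul, Algebra.TensorProduct.tmul_mul_tmul, one_mul,
    one_mul, hfb] at h1

theorem Std.zz_rad (h : Std 𝒜 z θ) {τ : Type} {w : τ → A} (hw : ∀ j, ∃ c, w j ∈ cl 𝒜 c)
    (hz : ∀ i, z i ∈ (Ideal.span (Set.range w)).radical) (s : ℕ) (p : σ × σ) :
    zz k z p ∈ (gI k z (Fintype.card k ^ s) ⊔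
      Ideal.span (Set.range fun j => w j ⊗ₜ[k] w j)).radical := by
  rw [Ideal.radical_eq_sInf, Ideal.mem_sInf]
  rintro P ⟨hP, hp⟩
  obtain ⟨i, i'⟩ := p
  have hG : gI k z (Fintype.card k ^ s) ≤ P := le_sup_left.trans hP
  have hW : ∀ j, inl k A A (w j) * inr k A A (w j) ∈ P := fun j => by
    rw [tmul_CWN3]
    exact hP (Ideal.mem_sup_right (Ideal.subset_span ⟨j, rfl⟩))
  show z i ⊗ₜ[k] z i' ∈ P
  rw [← tmul_CWN3]
  by_contra hn
  have h1 : inl k A A (z i) ∉ P := fun h1 => hn (Ideal.mul_mem_right _ _ h1)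
  have h2 : inr k A A (z i') ∉ P := fun h2 => hn (Ideal.mul_mem_left _ _ h2)
  have h3 : inr k A A (z i) ∉ P := by
    intro h3
    have h4 : (z i ^ Fintype.card k ^ s) ⊗ₜ[k] z i' - (z i' ^ Fintype.card k ^ s) ⊗ₜ[k] z i ∈ P :=
      hG (Ideal.subset_span ⟨(i, i'), rfl⟩)
    rw [← tmul_CWN3, ← tmul_CWN3] at h4
    have h5 := add_mem h4 (Ideal.mul_mem_left P (inl k A A (z i' ^ Fintype.card k ^ s)) h3)
    rw [sub_add_cancel, map_pow] at h5
    exact (hp.mem_or_mem h5).elim (fun h6 => h1 (hp.mem_of_pow_mem _ h6)) h2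
  have h4 : ∃ j, inl k A A (w j) ∉ P := by
    by_contra h4
    push Not at h4
    have := hp
    have h5 : Ideal.span (Set.range w) ≤ P.comap (inl k A A) :=
      Ideal.span_le.2 (by rintro _ ⟨j, rfl⟩; exact h4 j)
    exact h1 (((Ideal.comap_isPrime (inl k A A) P).radical_le_iff.2 h5) (hz i))
  obtain ⟨j, hj⟩ := h4
  have h5 : inr k A A (w j) ∈ P := (hp.mem_or_mem (hW j)).resolve_left hj
  obtain ⟨c, hc⟩ := hw j
  rcases lt_or_ge c 0 with h0 | h0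
  · have h6 : 𝒜 c = ∅ := Set.eq_empty_iff_forall_notMem.2 (h.neg c h0)
    rw [cl, h6, AddSubgroup.closure_empty, AddSubgroup.mem_bot] at hc
    exact hj (by rw [hc, map_zero]; exact P.zero_mem)
  obtain ⟨c, rfl⟩ := Int.eq_ofNat_of_zero_le h0
  have h6 := hG (h.gI_move s i c hc 1)
  rw [one_mul, one_mul, ← tmul_CWN3, ← tmul_CWN3] at h6
  have h7 := sub_mem (Ideal.mul_mem_left P (inl k A A (z i ^ (Fintype.card k ^ s * c))) h5) h6
  rw [sub_sub_cancel, map_pow, map_pow] at h7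
  exact (hp.mem_or_mem h7).elim (fun h8 => hj (hp.mem_of_pow_mem _ h8))
    fun h8 => h3 (hp.mem_of_pow_mem _ h8)

end Pool.Agent.CXD
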