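import Pool.Agent.P.MP_2ce3e7_ag.ED3
import Pool.Agent.P.MP_2ce3e7_ag.ED4
import Pool.Agent.P.MP_2ce3e7_ag.EC5

/-! Transversality. -/

set_option linter.unusedSectionVars false
set_option linter.unusedVariables false

open Function Filter
open scoped TensorProduct Polynomial LaurentPolynomial

noncomputable section

namespace Pool.Agent.CXD

variable {k A σ : Type} [Field k] [Fintype k] [CommRing A] [Algebra k A] [Fintype σ] {𝒜 : ℤ → Set A}
  {z : σ → A} {θ : A →ₐ[k] A[T;T⁻¹]} [Gd 𝒜] [Gk k 𝒜] [IsNoetherianRing A]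
  [IsNoetherianRing (A ⊗[k] A)]

theorem loc_ED5 {R E : Type} [CommRing R] [CommRing E] (η : R →+* E) {w : R} (hw : Aw η w)
    (G I : Ideal R) (n : ℕ)
    (h : ∀ [Algebra R E] [Module.Flat R E], algebraMap R E = η →
      Tn {(1 : R)} (E ⧸ G.map (algebraMap R E)) n (R ⧸ I)) :
    ∃ (P : Type) (_ : AddCommGroup P) (_ : Module R P) (j : (R ⧸ G) →ₗ[R] P),
      IsLocalizedModule (Submonoid.powers w) j ∧ Tn {(1 : R)} P n (R ⧸ I) := by
  let _ : Algebra R E := η.toAlgebra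
  have _ : Module.Flat R E := hw.flat
  obtain ⟨j, hj⟩ := Aw.quot (A := R) (E := E) hw G
  exact ⟨_, _, _, j, hj, h rfl⟩

theorem Std.tn (h : Std 𝒜 z θ) (ha : Atl 𝒜 z θ) {Δ : GM (tg k 𝒜 𝒜)} {δ : Δ.M} (hd : Dg θ Δ δ)
    {s : ℕ} (hs : 0 < s) {Y : GM (tg k 𝒜 𝒜)} {e : Y.M}
    (hY : Cy Y e (gI k z (Fintype.card k ^ s))) (n : ℕ) :
    Tn (Set.range (zz k z)) Y.M n Δ.M := by
  obtain ⟨eY⟩ := hY.equiv
  have hd' : Cy Δ δ (RingHom.ker (hat (thL θ A) (mlt k A))) := ⟨hd.hom, hd.gen, hd.ann⟩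
  obtain ⟨eD⟩ := hd'.equiv
  refine Tn.congr (Tn.retract ?_ eY.toLinearMap eY.symm.toLinearMap eY.symm_apply_apply) eD.symm
  obtain ⟨τ, -, w, hz, hw⟩ := ha
  have hm : 1 < Fintype.card k ^ s := Nat.one_lt_pow hs.ne' Fintype.one_lt_card
  refine tn_glue (fun j => w j ⊗ₜ[k] w j) (I := gI k z (Fintype.card k ^ s)) ?_ ?_ fun j => ?_
  · intro x hx y
    obtain ⟨y, rfl⟩ := Ideal.Quotient.mk_surjective y
    exact Ideal.Quotient.eq_zero_iff_mem.2 (Ideal.mul_mem_right y _ hx)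
  · rintro _ ⟨p, rfl⟩
    refine h.zz_rad (fun j => ?_) hz s p
    obtain ⟨C, _, _, ψ, hc⟩ := hw j
    exact hc.hom
  · obtain ⟨C, _, _, ψ, hc⟩ := hw j
    obtain ⟨fb, hfb⟩ := exists_fb k C s
    have _ := hc.sm
    refine loc_ED5 _ (Aw.tensor hc.loc hc.loc) _ _ n fun he => ?_
    have h1 := hc.map_gI h fb hfb
    have h2 := hc.map_dg h
    rw [← he] at h1 h2
    have h3 := tor_indep (cc k C) cc_flat fb hm hfb h2 n
    rwa [← h1] at h3

end Pool.Agent.CXD
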