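import Pool.Agent.P.MP_2ce3e7_ag.EE0
import Pool.Agent.P.MP_2ce3e7_ag.EB1
import Pool.Agent.P.MP_2ce3e7_ag.ED4

/-! The graph of the Frobenius map. -/

set_option linter.unusedSectionVars false
set_option linter.unusedVariables false

open Function Filter
open scoped TensorProduct Polynomial LaurentPolynomial

noncomputable section

namespace Pool.Agent.CXD

variable {k A σ : Type} [Field k] [Fintype k] [CommRing A] [Algebra k A] [Fintype σ] {𝒜 : ℤ → Set A}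
  {z : σ → A} {θ : A →ₐ[k] A[T;T⁻¹]} [Gd 𝒜] [Gk k 𝒜] [IsNoetherianRing A]
  [IsNoetherianRing (A ⊗[k] A)]
  {Δ : GM (tg k 𝒜 𝒜)} {δ : Δ.M}

theorem Dg.cy (hd : Dg θ Δ δ) : Cy Δ δ (RingHom.ker (hat (thL θ A) (mlt k A))) :=
  ⟨hd.hom, hd.gen, hd.ann⟩

theorem Std.exists_graph (h : Std 𝒜 z θ) (m : ℕ) :
    ∃ (Y : GM (tg k 𝒜 𝒜)) (e : Y.M), Cy Y e (gI k z m) := by
  obtain ⟨U, e, hU⟩ := h.exists_rg
  have h1 := Cy.gbox (k := k) hU hU
  rw [Ideal.map_bot] at h1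
  refine h1.quot ?_
  rintro _ ⟨p, rfl⟩
  exact ⟨((m : ℤ), 1), sub_mem (tmul_mem_cl (pow_mem_CWL h _ m) (mem_cl (h.deg _)))
    (tmul_mem_cl (pow_mem_CWL h _ m) (mem_cl (h.deg _)))⟩

theorem nil_hom_EE1 {D Γ : Type} [CommRing D] [AddCommGroup Γ] {𝒟 : Γ → Set D} (M : GM 𝒟) (w : D)
    (h : ∀ d x, M.π d x = x → ∃ n : ℕ, w ^ n • x = 0) (x : M.M) : ∃ n : ℕ, w ^ n • x = 0 := by
  refine M.ind (p := fun x => ∃ n : ℕ, w ^ n • x = 0) ⟨0, smul_zero _⟩ h ?_ x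
  rintro x y ⟨m, hm⟩ ⟨n, hn⟩
  refine ⟨m + n, ?_⟩
  rw [smul_add, pow_add, mul_smul (w ^ m) _ y, hn, smul_zero, add_zero, mul_comm, mul_smul, hm,
    smul_zero]

theorem cong_EE1 (h : Std 𝒜 z θ) (hd : Dg θ Δ δ) {c c' : ℤ × ℤ} {y y' : A ⊗[k] A}
    (hy : y ∈ cl (tg k 𝒜 𝒜) c) (hy' : y' ∈ cl (tg k 𝒜 𝒜) c') (hc : c.1 = c'.1)
    (e : mlt k A y = mlt k A y') : y • δ = y' • δ := by
  rw [← sub_eq_zero, ← sub_smul, hd.ann, map_sub, h.chD.hat_cl hy, h.chD.hat_cl hy', e,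
    sub_eq_zero]
  exact congrArg (fun t => LaurentPolynomial.C (mlt k A y') * LaurentPolynomial.T t) hc

theorem mlt_EE1 (h : Std 𝒜 z θ) (hd : Dg θ Δ δ) {c : ℤ × ℤ} {y : A ⊗[k] A}
    (hy : y ∈ cl (tg k 𝒜 𝒜) c) (e : y • δ = 0) : mlt k A y = 0 := by
  rw [hd.ann, h.chD.hat_cl hy, (LaurentPolynomial.isUnit_T _).mul_left_eq_zero] at e
  have h1 := congrArg (fun p : A[T;T⁻¹] => p.coeff 0) e
  simpa using h1

theorem neg_EE1 (h : Std 𝒜 z θ) {c : ℤ × ℤ} (hc : c.2 < 0) {y : A ⊗[k] A}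
    (hy : y ∈ cl (tg k 𝒜 𝒜) c) : y = 0 := by
  refine AddSubgroup.mem_bot.1 ((AddSubgroup.closure_le ⊥).2 ?_ hy)
  rintro _ ⟨a, -, b, hb, -⟩
  exact absurd hb (h.neg _ hc b)

theorem deg_EE1 {φ : A ⊗[k] A →+* A ⊗[k] A} {m : ℕ} (hφ : ∀ a b, φ (a ⊗ₜ b) = a ⊗ₜ (b ^ m))
    {c : ℤ × ℤ} {y : A ⊗[k] A} (hy : y ∈ cl (tg k 𝒜 𝒜) c) :
    φ y ∈ cl (tg k 𝒜 𝒜) (c.1, m • c.2) := by
  induction hy using AddSubgroup.closure_induction with
  | mem x hx =>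
    obtain ⟨a, ha, b, hb, rfl⟩ := hx
    rw [hφ]
    exact tmul_mem_cl (mem_cl ha) (cl_pow (mem_cl hb) m)
  | zero => rw [map_zero]; exact zero_mem _
  | add x y _ _ hx hy => rw [map_add]; exact add_mem hx hy
  | neg x _ hx => rw [map_neg]; exact neg_mem hx

theorem move_EE1 (h : Std 𝒜 z θ) (s : ℕ) {φ : A ⊗[k] A →+* A ⊗[k] A}
    (hφ : ∀ a b, φ (a ⊗ₜ b) = a ⊗ₜ (b ^ Fintype.card k ^ s)) (i : σ) (c : ℤ) (n : ℕ)
    {y : A ⊗[k] A} (hy : y ∈ cl (tg k 𝒜 𝒜) (c, (n : ℤ))) :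
    inl k A A (z i) ^ (Fintype.card k ^ s * n) * y - mlt k A (φ y) ⊗ₜ[k] (z i ^ n) ∈
      gI k z (Fintype.card k ^ s) := by
  induction hy using AddSubgroup.closure_induction with
  | mem x hx =>
    obtain ⟨a, ha, b, hb, rfl⟩ := hx
    have e : inl k A A (z i) ^ (Fintype.card k ^ s * n) * (a ⊗ₜ[k] b) =
        (a * z i ^ (Fintype.card k ^ s * n)) ⊗ₜ[k] b := by
      rw [← map_pow]
      change ((z i ^ (Fintype.card k ^ s * n)) ⊗ₜ[k] (1 : A)) * _ = _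
      rw [Algebra.TensorProduct.tmul_mul_tmul, one_mul, mul_comm]
    rw [hφ, mlt_tmul, e]
    exact h.gI_move s i n (mem_cl hb) a
  | zero => simp
  | add x y _ _ hx hy =>
    rw [map_add, map_add, TensorProduct.add_tmul, mul_add, add_sub_add_comm]
    exact add_mem hx hy
  | neg x _ hx =>
    rw [map_neg, map_neg, TensorProduct.neg_tmul, mul_neg, ← neg_sub']
    exact neg_mem hx

theorem iter_EE1 (h : Std 𝒜 z θ) (hd : Dg θ Δ δ) {T₂ : Module.End ℚ (G2 k 𝒜 z)}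
    (h₂ : IsT2 k z T₂) (s : ℕ) :
    ∃ (φ : A ⊗[k] A →+* A ⊗[k] A) (ν : ℤ × ℤ → ℤ × ℤ) (R : GM (tg k 𝒜 𝒜)) (j : R.M →+ Δ.M),
      IsRes φ ν R Δ j ∧ (∀ a b, φ (a ⊗ₜ b) = a ⊗ₜ (b ^ Fintype.card k ^ s)) ∧
      (∀ c, ν c = (c.1, Fintype.card k ^ s • c.2)) ∧ Module.Finite (A ⊗[k] A) R.M ∧
      (T₂ ^ s) (ucl _ Δ) = ucl _ R := by
  induction s with
  | zero =>
    exact ⟨RingHom.id _, id, Δ, AddMonoidHom.id _,
      ⟨injective_id, fun _ _ => rfl, fun _ _ => rfl, fun _ _ => ⟨_, rfl⟩⟩,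
      fun a b => by rw [pow_zero, pow_one]; rfl, fun c => by rw [pow_zero, one_smul]; rfl,
      hd.finite, by rw [pow_zero]; rfl⟩
  | succ s ih =>
    obtain ⟨φ, ν, R, j, hj, hφ, hν, hR, e⟩ := ih
    have := h.finiteType
    obtain ⟨j', hj'⟩ := isRes_ver (hm_Fr (k := k) (𝒜 := 𝒜) (ℬ := 𝒜) card_smul_eq_zero) R
    refine ⟨_, _, _, _, hj.comp hj', fun a b => ?_, fun c => ?_,
      res_finite _ (Fr_finite k A A) R hR, ?_⟩
    · rw [RingHom.comp_apply, Fr_tmul, hφ, ← pow_mul, pow_succ']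
    · rw [comp_apply, hν, mu_apply, pow_succ, mul_smul]
    · rw [pow_succ', Module.End.mul_apply, e]
      exact h₂ R hR

theorem Std.graph_val (h : Std 𝒜 z θ) (hd : Dg θ Δ δ) (s : ℕ) {Y : GM (tg k 𝒜 𝒜)} {e : Y.M}
    (hY : Cy Y e (gI k z (Fintype.card k ^ s))) {T₂ : Module.End ℚ (G2 k 𝒜 z)}
    (h₂ : IsT2 k z T₂) : (T₂ ^ s) (ucl _ Δ) = ucl _ Y := by
  obtain ⟨φ, ν, R, j, hj, hφ, hν, hR, he⟩ := iter_EE1 h hd h₂ s
  have hm : 0 < Fintype.card k ^ s := pow_pos Fintype.card_pos s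
  have hν0 : ν 0 = 0 := by rw [hν, Prod.snd_zero, smul_zero]; rfl
  obtain ⟨δ', hδ⟩ := hj.sur 0 δ
  rw [hν0, hd.hom] at hδ
  have hδ0 : R.π 0 δ' = δ' := hj.inj (by rw [hj.π, hν0, hδ, hd.hom])
  have hI : ∀ a ∈ gI k z (Fintype.card k ^ s), a • δ' = 0 := by
    intro a ha
    refine hj.inj ?_
    rw [hj.smul, hδ, map_zero]
    induction ha using Submodule.span_induction with
    | mem x hx =>
      obtain ⟨p, rfl⟩ := hx
      rw [map_sub, hφ, hφ, sub_smul, sub_eq_zero]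
      exact cong_EE1 h hd (tmul_mem_cl (pow_mem_CWL h _ _) (pow_mem_CWL h _ _))
        (tmul_mem_cl (pow_mem_CWL h _ _) (pow_mem_CWL h _ _)) rfl (mul_comm _ _)
    | zero => rw [map_zero, zero_smul]
    | add x y _ _ hx hy => rw [map_add, add_smul, hx, hy, add_zero]
    | smul a x _ hx => rw [smul_eq_mul, map_mul, mul_smul, hx, smul_zero]
  obtain ⟨f, hf', hfe⟩ := hY.lift hδ0 hI
  have hf : IsG (M := Y) (N := R) f := fun d x => by
    have h1 : f (Y.π (-0 + d) x) = R.π d (f x) := hf' d x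
    rwa [neg_zero, zero_add] at h1
  have hker : Nil (Set.range fun i => inl k A A (z i)) (Y.sub _ hf.ker).M := by
    rintro _ ⟨i, rfl⟩
    refine nil_hom_EE1 (Y.sub _ hf.ker) _ ?_
    rintro ⟨c, d⟩ ⟨x, hx⟩ hxd
    obtain ⟨a, ha, rfl⟩ := hY.exists_hom (congrArg Subtype.val hxd : Y.π (c, d) x = x)
    rcases lt_or_ge d 0 with hd0 | hd0
    · exact ⟨0, Subtype.ext (by
        change _ • a • e = 0
        rw [neg_EE1 h hd0 ha, zero_smul, smul_zero])⟩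
    · lift d to ℕ using hd0
      have h1 : φ a • δ = 0 := by
        rw [← hδ, ← hj.smul, ← hfe, LinearMap.mem_ker.1 hx, map_zero]
      have h2 := move_EE1 h s hφ i c d ha
      rw [mlt_EE1 h hd (deg_EE1 hφ ha) h1, TensorProduct.zero_tmul, sub_zero] at h2
      refine ⟨Fintype.card k ^ s * d, Subtype.ext ?_⟩
      change _ • a • e = 0
      rw [smul_smul]
      exact (hY.ann _).2 h2
  have hquo : Nil (Set.range fun i => inl k A A (z i)) (R.quo _ hf.range).M := by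
    rintro _ ⟨i, rfl⟩
    refine nil_hom_EE1 (R.quo _ hf.range) _ ?_
    rintro ⟨c, d⟩ x hxd
    obtain ⟨r, rfl⟩ := (LinearMap.range f).mkQ_surjective x
    rw [← hxd, quo_π]
    have h0 : Δ.π (c, Fintype.card k ^ s • d) (j (R.π (c, d) r)) = j (R.π (c, d) r) := by
      rw [hj.π, hν, Δ.π_self]
    obtain ⟨a, ha, hae⟩ := hd.cy.exists_hom h0
    rcases lt_or_ge d 0 with hd0 | hd0
    · have h1 : R.π (c, d) r = 0 := hj.inj (by
        rw [← hae, neg_EE1 h (smul_neg_of_pos_of_neg hm hd0) ha, zero_smul, map_zero])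
      exact ⟨0, by rw [h1, map_zero, smul_zero]⟩
    · lift d to ℕ using hd0
      refine ⟨Fintype.card k ^ s * d, ?_⟩
      rw [← map_smul, Submodule.mkQ_apply, Submodule.Quotient.mk_eq_zero]
      refine ⟨(mlt k A a ⊗ₜ[k] (z i ^ d)) • e, hj.inj ?_⟩
      have h1 : φ (inl k A A (z i)) = inl k A A (z i) := (hφ (z i) 1).trans (by rw [one_pow]; rfl)
      rw [hfe, hj.smul, hj.smul, hδ, ← hae, map_pow, h1, hφ, smul_smul, ← map_pow]
      refine cong_EE1 h hd (tmul_mem_cl (h.chD.mem_cl ha) (cl_pow (pow_mem_CWL h i d) _))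
        (cl_mul (tmul_mem_cl (pow_mem_CWL h i _) cl_one) ha) ?_ ?_
      · change c + Fintype.card k ^ s • (d : ℤ) = ((Fintype.card k ^ s * d : ℕ) : ℤ) + c
        rw [nsmul_eq_mul, Nat.cast_mul, add_comm]
      · rw [map_mul, mlt_tmul, ← pow_mul, mul_comm d, mul_comm]
        exact congrArg (· * mlt k A a) (mul_one _).symm
  rw [he]
  refine ucl_eq fun l hl hv => ?_
  have hYf := hY.finite
  have h1 := hl.four hYf hR hf
  rw [hv (R.quo _ hf.range) inferInstance kill_bot (nil_zz_left hquo),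
    hv (Y.sub _ hf.ker) inferInstance kill_bot (nil_zz_left hker)] at h1
  linarith

end Pool.Agent.CXD
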