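import Pool.Agent.P.MP_2ce3e7_ag.EE1
import Pool.Agent.P.MP_2ce3e7_ag.EA1

/-! The fixed points. -/

set_option linter.unusedSectionVars false
set_option linter.unusedVariables false

open Function Filter
open scoped TensorProduct Polynomial LaurentPolynomial

noncomputable section

namespace Pool.Agent.CXD

variable {k A σ : Type} [Field k] [Fintype k] [CommRing A] [Algebra k A] [Fintype σ] {𝒜 : ℤ → Set A}
  {z : σ → A} {θ : A →ₐ[k] A[T;T⁻¹]} [Gd 𝒜] [Gk k 𝒜] [IsNoetherianRing A]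
  [IsNoetherianRing (A ⊗[k] A)]
  {Δ : GM (tg k 𝒜 𝒜)} {δ : Δ.M}

theorem fix_deg_EE2 (h : Std 𝒜 z θ) (m : ℕ) (i j : σ) :
    z i ^ m * z j - z j ^ m * z i ∈ cl 𝒜 ((m : ℤ) + 1) :=
  sub_mem (cl_mul (pow_mem_CWL h i m) (mem_cl (h.deg j)))
    (cl_mul (pow_mem_CWL h j m) (mem_cl (h.deg i)))

theorem Std.exists_fix (h : Std 𝒜 z θ) (m : ℕ) : ∃ (V : GM 𝒜) (v : V.M), Cy V v (fI z m) := by
  refine h.exists_cy ?_
  rintro _ ⟨p, rfl⟩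
  exact ⟨_, fix_deg_EE2 h m p.1 p.2⟩

theorem sat_sup_EE2 {D : Type} [CommRing D] {I J I' : Ideal D} {S : Set D}
    (h1 : ∀ a ∈ I, ∀ s ∈ S, ∃ m : ℕ, s ^ m * a ∈ I')
    (h2 : ∀ a ∈ J, ∀ s ∈ S, ∃ m : ℕ, s ^ m * a ∈ I') :
    ∀ a ∈ I ⊔ J, ∀ s ∈ S, ∃ m : ℕ, s ^ m * a ∈ I' := by
  intro a ha s hs
  obtain ⟨x, hx, y, hy, rfl⟩ := Submodule.mem_sup.1 ha
  obtain ⟨m, hm⟩ := h1 x hx s hs
  obtain ⟨n, hn⟩ := h2 y hy s hs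
  refine ⟨m + n, ?_⟩
  have e : s ^ (m + n) * (x + y) = s ^ n * (s ^ m * x) + s ^ m * (s ^ n * y) := by ring
  rw [e]
  exact add_mem (I'.mul_mem_left _ hm) (I'.mul_mem_left _ hn)

theorem key_EE2 (h : Std 𝒜 z θ) (m : ℕ) (i j l : σ) :
    (z l ⊗ₜ[k] (1 : A)) * ((z i ^ m) ⊗ₜ[k] z j - (z j ^ m) ⊗ₜ[k] z i) -
      ((z i ^ m * z j - z j ^ m * z i) ⊗ₜ[k] (1 : A)) * ((1 : A) ⊗ₜ[k] z l) ∈
      RingHom.ker (hat (thL θ A) (mlt k A)) := by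
  have hz : ∀ i, z i ∈ cl 𝒜 1 := fun i => mem_cl (h.deg i)
  have m1 := cl_mul (tmul_mem_cl (k := k) (hz l) (cl_one (𝒜 := 𝒜)))
    (sub_mem (tmul_mem_cl (k := k) (pow_mem_CWL h i m) (hz j))
      (tmul_mem_cl (k := k) (pow_mem_CWL h j m) (hz i)))
  have m2 := cl_mul (tmul_mem_cl (k := k) (fix_deg_EE2 h m i j) (cl_one (𝒜 := 𝒜)))
    (tmul_mem_cl (k := k) (cl_one (𝒜 := 𝒜)) (hz l))
  rw [RingHom.mem_ker, map_sub, h.chD.hat_cl m1, h.chD.hat_cl m2, sub_eq_zero]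
  have f1 : (eD (((1 : ℤ), (0 : ℤ)) + ((m : ℤ), (1 : ℤ)))).1 = 1 + (m : ℤ) := rfl
  have f2 : (eD (((m : ℤ) + 1, (0 : ℤ)) + ((0 : ℤ), (1 : ℤ)))).1 = (m : ℤ) + 1 + 0 := rfl
  rw [f1, f2, add_zero, add_comm (1 : ℤ)]
  congr 2
  rw [map_mul, map_mul, map_sub, mlt_tmul, mlt_tmul, mlt_tmul, mlt_tmul, mlt_tmul]
  ring

theorem Std.fix_val (h : Std 𝒜 z θ) (hd : Dg θ Δ δ) {m : ℕ} {Y : GM (tg k 𝒜 𝒜)} {e : Y.M}
    (hY : Cy Y e (gI k z m)) {V : GM 𝒜} {v : V.M} (hV : Cy V v (fI z m)) :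
    chi2 k (tid Δ Y) = chi k V := by
  rw [← h.sv_dg hd h.gadd_chi h.vn_chi hV.finite]
  have ez : ∀ i j : σ, zz k z (i, j) = (z i ⊗ₜ[k] (1 : A)) * ((1 : A) ⊗ₜ[k] z j) := by
    intro i j
    rw [Algebra.TensorProduct.tmul_mul_tmul, mul_one, one_mul]
    rfl
  refine cy_val (h.gadd_chi2 h.gadd_chi) (h.vn_chi2 h.gadd_chi h.vn_chi)
    (Cy.tens (hm_id _) hd.cy hY) (Cy.tens (hm_inl (k := k)) hV hd.cy)
    (sat_sup_EE2 (sat_span ?_) ?_) (sat_sup_EE2 ?_ ?_)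
  · rintro _ ⟨⟨i, j⟩, rfl⟩ _ ⟨⟨l, l'⟩, rfl⟩
    refine ⟨1, ?_⟩
    have h1 := Ideal.mem_sup_left (T := (fI z m).map (inl k A A)) (key_EE2 h m i j l)
    have h2 : ((z i ^ m * z j - z j ^ m * z i) ⊗ₜ[k] (1 : A)) ∈
        RingHom.ker (hat (thL θ A) (mlt k A)) ⊔ (fI z m).map (inl k A A) :=
      Ideal.mem_sup_right (Ideal.mem_map_of_mem (inl k A A)
        (Ideal.subset_span (Set.mem_range_self (i, j))))
    have h3 := Ideal.mul_mem_left _ ((1 : A) ⊗ₜ[k] z l')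
      (add_mem h1 (Ideal.mul_mem_right ((1 : A) ⊗ₜ[k] z l) _ h2))
    rw [sub_add_cancel, ← mul_assoc, mul_comm ((1 : A) ⊗ₜ[k] z l'), ← ez] at h3
    rw [pow_one]
    exact h3
  · intro a ha s _
    rw [Ideal.map_id] at ha
    exact ⟨0, by rw [pow_zero, one_mul]; exact Ideal.mem_sup_left ha⟩
  · intro a ha s _
    refine ⟨0, ?_⟩
    rw [pow_zero, one_mul, Ideal.map_id]
    exact Ideal.mem_sup_right ha
  · rw [fI, Ideal.map_span]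
    refine sat_span ?_
    rintro _ ⟨_, ⟨⟨i, j⟩, rfl⟩, rfl⟩ _ ⟨⟨l', l⟩, rfl⟩
    refine ⟨1, ?_⟩
    rw [Ideal.map_id]
    have h1 := Ideal.mem_sup_right (S := gI k z m) (key_EE2 h m i j l)
    have h2 : (z i ^ m) ⊗ₜ[k] z j - (z j ^ m) ⊗ₜ[k] z i ∈
        gI k z m ⊔ RingHom.ker (hat (thL θ A) (mlt k A)) :=
      Ideal.mem_sup_left (Ideal.subset_span (Set.mem_range_self (i, j)))
    have h3 := Ideal.mul_mem_left _ (z l' ⊗ₜ[k] (1 : A))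
      (sub_mem (Ideal.mul_mem_left _ (z l ⊗ₜ[k] (1 : A)) h2) h1)
    rw [sub_sub_cancel, mul_comm _ ((1 : A) ⊗ₜ[k] z l), ← mul_assoc, ← ez] at h3
    rw [pow_one]
    exact h3

end Pool.Agent.CXD
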