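import Pool.Agent.P.MP_2ce3e7_ag.EE0
import Pool.Agent.P.MP_2ce3e7_ag.EA1
import Pool.Agent.P.MP_2ce3e7_ag.ED4
import Pool.Agent.P.MP_2ce3e7_ag.DT2

/-! The fixed points are reduced. -/

set_option linter.unusedSectionVars false
set_option linter.unusedVariables false

open Function Filter
open scoped TensorProduct Polynomial LaurentPolynomial

noncomputable section

namespace Pool.Agent.CXD

variable {k A σ : Type} [Field k] [Fintype k] [CommRing A] [Algebra k A] [Fintype σ] {𝒜 : ℤ → Set A}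
  {z : σ → A} {θ : A →ₐ[k] A[T;T⁻¹]} [Gd 𝒜] [Gk k 𝒜] [IsNoetherianRing A]

variable (k 𝒜) in
/-- the forms that vanish at the rational points -/
def vI (z : σ → A) (m : ℕ) : Ideal A :=
  Ideal.span {a | (∃ c, a ∈ cl 𝒜 c) ∧ ∀ x : Fx k z m, x.1 a = 0}

theorem Std.mem_sup_EE3 (h : Std 𝒜 z θ) {s : ℕ} (hs : 0 < s) (i : σ) {a : A}
    (ha : ∀ x : Fx k z (Fintype.card k ^ s), x.1 a = 0) :
    a ∈ fI z (Fintype.card k ^ s) ⊔ Ideal.span {z i - 1} := by
  generalize hJ : fI z (Fintype.card k ^ s) ⊔ Ideal.span {z i - 1} = J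
  have h1 : Ideal.Quotient.mkₐ k J (z i) = 1 := by
    rw [← map_one (Ideal.Quotient.mkₐ k J)]
    exact Ideal.Quotient.eq.2 (hJ ▸ Ideal.mem_sup_right (Ideal.subset_span rfl))
  have h2 : ∀ j, Ideal.Quotient.mkₐ k J (z j) ^ Fintype.card k ^ s =
      Ideal.Quotient.mkₐ k J (z j) := fun j => by
    have h3 : Ideal.Quotient.mkₐ k J (z j ^ Fintype.card k ^ s * z i -
        z i ^ Fintype.card k ^ s * z j) = 0 :=
      Ideal.Quotient.eq_zero_iff_mem.2 (hJ ▸ Ideal.mem_sup_left (Ideal.subset_span ⟨(j, i), rfl⟩))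
    rwa [map_sub, map_mul, map_mul, map_pow, map_pow, h1, one_pow, one_mul, mul_one,
      sub_eq_zero] at h3
  obtain ⟨fb, hfb⟩ := exists_fb k (A ⧸ J) s
  have h4 : fb.comp (Ideal.Quotient.mkₐ k J) = Ideal.Quotient.mkₐ k J :=
    h.alg_ext fun j => by rw [AlgHom.comp_apply, hfb, h2]
  have h5 := DFunLike.congr_fun h4 a
  rw [AlgHom.comp_apply, hfb] at h5
  have := h.finiteType
  have : Algebra.FiniteType k (A ⧸ J) :=
    Algebra.FiniteType.of_surjective _ (Ideal.Quotient.mkₐ_surjective k J)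
  have h6 : IsNilpotent (Ideal.Quotient.mkₐ k J a) :=
    nil_of_pts (k := k) (AlgebraicClosure k) _ fun φ =>
      ha ⟨φ.comp (Ideal.Quotient.mkₐ k J), fun j => by
        rw [AlgHom.comp_apply, ← map_pow, h2], i, by
        rw [AlgHom.comp_apply, h1, map_one]
        exact one_ne_zero⟩
  obtain ⟨n, hn⟩ := Nat.exists_eq_add_of_lt (Nat.one_lt_pow hs.ne' (Fintype.one_lt_card (α := k)))
  have h7 : Ideal.Quotient.mkₐ k J a * (1 - Ideal.Quotient.mkₐ k J a ^ (n + 1)) = 0 := by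
    rw [hn] at h5
    linear_combination -h5
  exact Ideal.Quotient.eq_zero_iff_mem.1
    ((h6.pow_succ n).isUnit_one_sub.mul_left_eq_zero.1 h7)

theorem Std.sat_val (h : Std 𝒜 z θ) {s : ℕ} (hs : 0 < s) {V V' : GM 𝒜} {v : V.M} {v' : V'.M}
    (hV : Cy V v (fI z (Fintype.card k ^ s))) (hV' : Cy V' v' (vI k 𝒜 z (Fintype.card k ^ s))) :
    chi k V = chi k V' := by
  refine cy_val h.gadd_chi h.vn_chi hV hV' (sat_span ?_) (sat_span ?_)
  · rintro _ ⟨p, rfl⟩ w -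
    refine ⟨0, Ideal.mul_mem_left _ _ (Ideal.subset_span ⟨⟨_, AddSubgroup.sub_mem _
      (cl_mul (pow_mem_CWL h _ _) (mem_cl (h.deg _)))
      (cl_mul (pow_mem_CWL h _ _) (mem_cl (h.deg _)))⟩, fun x => ?_⟩)⟩
    rw [map_sub, map_mul, map_mul, map_pow, map_pow, x.2.1, x.2.1, mul_comm, sub_self]
  · rintro a ⟨⟨c, hc⟩, ha⟩ _ ⟨i, rfl⟩
    obtain ⟨f, hf, g, hg, rfl⟩ := Submodule.mem_sup.1 (h.mem_sup_EE3 hs i ha)
    obtain ⟨y, rfl⟩ := Ideal.mem_span_singleton'.1 hg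
    obtain ⟨n, hn⟩ := hom_sat V (mem_cl (h.deg i)) (V.hom_smul hc hV.hom) (y := y • v) (by
      rw [add_smul, (hV.ann f).2 hf, zero_add, smul_smul, mul_comm])
    exact ⟨n, (hV.ann _).1 (by rwa [mul_smul])⟩

end Pool.Agent.CXD
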