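import Pool.Agent.P.MP_2ce3e7_ag.EA0

/-! Descent for functions on a finite set. -/

set_option linter.unusedSectionVars false
set_option linter.unusedVariables false

open Function Filter
open scoped TensorProduct Polynomial

noncomputable section

namespace Pool.Agent.CXD

theorem mem_range_EE4 {k Ω : Type} [Field k] [Fintype k] [Field Ω] [Algebra k Ω] {c : Ω}
    (hc : c ^ Fintype.card k = c) : ∃ a : k, algebraMap k Ω a = c := by
  have h1 : 1 < Fintype.card k := Fintype.one_lt_card
  have h2 := Polynomial.roots_map_of_injective_of_card_eq_natDegree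
    (p := (Polynomial.X ^ Fintype.card k - Polynomial.X : k[X])) (algebraMap k Ω).injective (by
      rw [FiniteField.roots_X_pow_card_sub_X, FiniteField.X_pow_card_sub_X_natDegree_eq k h1]
      rfl)
  rw [Polynomial.map_sub, Polynomial.map_pow, Polynomial.map_X] at h2
  have h3 : c ∈ (Polynomial.X ^ Fintype.card k - Polynomial.X : Polynomial Ω).roots := by
    rw [Polynomial.mem_roots (FiniteField.X_pow_card_sub_X_ne_zero Ω h1)]
    simp [hc]
  rw [← h2] at h3
  obtain ⟨a, -, ha⟩ := Multiset.mem_map.1 h3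
  exact ⟨a, ha⟩

theorem indep_EE4 {k Ω X ι : Type} [Field k] [Fintype k] [Field Ω] [Algebra k Ω]
    (F : X → X) (hF : Surjective F) (v : ι → X → Ω)
    (h1 : ∀ i x, v i (F x) = v i x ^ Fintype.card k) (hv : LinearIndependent k v) :
    LinearIndependent Ω v := by
  classical
  rw [linearIndependent_iff'] at hv ⊢
  intro s
  induction s using Finset.induction_on with
  | empty => intro g _ i hi; simp at hi
  | insert a s ha ih =>
    intro g hg
    have h0 : g a = 0 := by
      by_contra hne
      have e1 : ∑ i ∈ insert a s, ((g a)⁻¹ * g i) • v i = 0 := by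
        simp_rw [mul_smul]
        rw [← Finset.smul_sum, hg, smul_zero]
      have e2 : ∑ i ∈ insert a s, (((g a)⁻¹ * g i) ^ Fintype.card k) • v i = 0 := by
        funext y
        obtain ⟨x, rfl⟩ := hF y
        have e := congrArg (FiniteField.frobeniusAlgHom k Ω) (congrFun e1 x)
        rw [Finset.sum_apply, map_sum, Pi.zero_apply, map_zero] at e
        rw [Finset.sum_apply, Pi.zero_apply, ← e]
        refine Finset.sum_congr rfl fun i _ => ?_
        rw [FiniteField.coe_frobeniusAlgHom]
        simp only [Pi.smul_apply, smul_eq_mul]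
        rw [h1, ← mul_pow]
      have e3 : ∑ i ∈ s, (((g a)⁻¹ * g i) ^ Fintype.card k - (g a)⁻¹ * g i) • v i = 0 := by
        rw [Finset.sum_insert ha, inv_mul_cancel₀ hne] at e1 e2
        rw [one_pow] at e2
        simp_rw [sub_smul]
        rw [Finset.sum_sub_distrib, sub_eq_zero]
        exact add_left_cancel (e2.trans e1.symm)
      have e4 : ∀ i, ∃ c : k, i ∈ insert a s → algebraMap k Ω c = (g a)⁻¹ * g i := by
        intro i
        by_cases hi : i ∈ insert a s
        · rcases Finset.mem_insert.1 hi with rfl | hi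
          · exact ⟨1, fun _ => by rw [map_one, inv_mul_cancel₀ hne]⟩
          · obtain ⟨c, hc⟩ := mem_range_EE4 (k := k) (sub_eq_zero.1 (ih _ e3 i hi))
            exact ⟨c, fun _ => hc⟩
        · exact ⟨0, fun h => absurd h hi⟩
      choose c hc using e4
      have e5 := hv (insert a s) c (by
        rw [← e1]
        refine Finset.sum_congr rfl fun i hi => ?_
        rw [← hc i hi, algebraMap_smul]) a (Finset.mem_insert_self _ _)
      have e6 := hc a (Finset.mem_insert_self _ _)
      rw [e5, map_zero, inv_mul_cancel₀ hne] at e6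
      exact zero_ne_one e6
    rw [Finset.sum_insert ha, h0, zero_smul, zero_add] at hg
    intro i hi
    rcases Finset.mem_insert.1 hi with rfl | hi
    · exact h0
    · exact ih g hg i hi

theorem span_EE4 {k Ω X : Type} [Field k] [Field Ω] [Algebra k Ω] [Finite X]
    (C : Subalgebra k (X → Ω)) (h2 : ∀ x y, x ≠ y → ∃ f ∈ C, f x ≠ f y) :
    Submodule.span Ω (C : Set (X → Ω)) = ⊤ := by
  classical
  have := Fintype.ofFinite X
  have e1 : Subalgebra.toSubmodule (Algebra.adjoin Ω (C : Set (X → Ω))) =
      Submodule.span Ω (C : Set (X → Ω)) := by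
    rw [Algebra.adjoin_eq_span]
    exact congrArg (fun T : Submonoid (X → Ω) => Submodule.span Ω (T : Set (X → Ω)))
      (Submonoid.closure_eq C.toSubmonoid)
  rw [← e1, eq_top_iff, ← (Pi.basisFun Ω X).span_eq, Submodule.span_le]
  rintro _ ⟨x, rfl⟩
  have e2 : ∀ y, ∃ f ∈ C, y ≠ x → f x ≠ f y := by
    intro y
    by_cases hy : y = x
    · exact ⟨0, C.zero_mem, fun h => absurd hy h⟩
    · obtain ⟨f, hf, hne⟩ := h2 x y (Ne.symm hy)
      exact ⟨f, hf, fun _ => hne⟩
  choose f hf hne using e2
  have e3 : Pi.basisFun Ω X x = ∏ y ∈ Finset.univ.erase x,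
      (f y x - f y y)⁻¹ • (f y - algebraMap Ω (X → Ω) (f y y)) := by
    funext z
    rw [Pi.basisFun_apply, Finset.prod_apply]
    by_cases hz : z = x
    · subst hz
      rw [Pi.single_eq_same]
      refine (Finset.prod_eq_one fun y hy => ?_).symm
      exact inv_mul_cancel₀ (sub_ne_zero.2 (hne y (Finset.ne_of_mem_erase hy)))
    · rw [Pi.single_eq_of_ne hz]
      refine (Finset.prod_eq_zero (Finset.mem_erase.2 ⟨hz, Finset.mem_univ z⟩) ?_).symm
      simp
  rw [e3]
  exact Subalgebra.prod_mem _ fun y _ => Subalgebra.smul_mem _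
    (Subalgebra.sub_mem _ (Algebra.subset_adjoin (hf y)) (Subalgebra.algebraMap_mem _ _)) _

theorem finrank_descent {k Ω X : Type} [Field k] [Fintype k] [Field Ω] [Algebra k Ω] [Finite X]
    (F : X → X) (hF : Bijective F) (C : Subalgebra k (X → Ω))
    (h1 : ∀ f ∈ C, ∀ x, f (F x) = f x ^ Fintype.card k)
    (h2 : ∀ x y, x ≠ y → ∃ f ∈ C, f x ≠ f y) :
    Module.Finite k C ∧ Module.finrank k C = Nat.card X := by
  have := Fintype.ofFinite X
  let b := Module.Free.chooseBasis k C
  have hk : LinearIndependent k (fun i => (b i : X → Ω)) :=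
    b.linearIndependent.map' C.val.toLinearMap (LinearMap.ker_eq_bot.2 Subtype.val_injective)
  have hΩ := indep_EE4 F hF.2 (fun i => (b i : X → Ω)) (fun i => h1 _ (b i).2) hk
  have hs : ⊤ ≤ Submodule.span Ω (Set.range fun i => (b i : X → Ω)) := by
    rw [← span_EE4 C h2, Submodule.span_le]
    intro f hf
    have e : (⟨f, hf⟩ : C) ∈ Submodule.span k (Set.range b) := by
      rw [b.span_eq]; trivial
    have e' := Submodule.mem_map_of_mem (f := C.val.toLinearMap) e
    rw [Submodule.map_span, ← Set.range_comp] at e'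
    exact Submodule.span_subset_span k Ω _ e'
  let b' := Module.Basis.mk hΩ hs
  have hfin := Module.Finite.finite_basis b'
  refine ⟨Module.Finite.of_basis b, ?_⟩
  rw [Module.finrank_eq_nat_card_basis b, ← Module.finrank_eq_nat_card_basis b',
    Module.finrank_fintype_fun_eq_card, Nat.card_eq_fintype_card]

theorem poly_ext_EE4 {p : ℚ[X]} {g : ℕ → ℚ} (hg : Injective g) (h : ∀ j, p.eval (g j) = 0) :
    p = 0 :=
  Polynomial.eq_zero_of_infinite_isRoot p
    ((Set.infinite_range_of_injective hg).mono (by rintro _ ⟨j, rfl⟩; exact h j))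

theorem const_of_window {p : ℚ[X]} {n : ℕ} (hn : 0 < n) {c : ℚ}
    (h : ∀ᶠ t : ℤ in atTop, ∑ i ∈ Finset.range n, p.eval ((t : ℚ) + i) = c) :
    p.eval 0 = c / n := by
  obtain ⟨t₀, ht₀⟩ := eventually_atTop.1 h
  have hn' : (n : ℚ) ≠ 0 := by exact_mod_cast hn.ne'
  have h1 : ∀ t : ℚ, ∑ i ∈ Finset.range n, p.eval (t + i) = c := by
    have e := poly_ext_EE4 (p := ∑ i ∈ Finset.range n,
        p.comp (Polynomial.X + Polynomial.C (i : ℚ)) - Polynomial.C c)
      (g := fun j => (t₀ : ℚ) + j) (fun a b hab => by simpa using hab) (fun j => by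
        have := ht₀ (t₀ + j) (by omega)
        push_cast at this
        simp [Polynomial.eval_finsetSum, this])
    intro t
    have := congrArg (Polynomial.eval t) e
    simpa [Polynomial.eval_finsetSum, sub_eq_zero] using this
  have h2 : ∀ t : ℚ, p.eval (t + n) = p.eval t := by
    intro t
    have e1 := Finset.sum_range_succ (fun i : ℕ => p.eval (t + i)) n
    have e2 := Finset.sum_range_succ' (fun i : ℕ => p.eval (t + i)) n
    have e3 : ∑ i ∈ Finset.range n, p.eval (t + ((i + 1 : ℕ) : ℚ)) = c := by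
      rw [← h1 (t + 1)]
      refine Finset.sum_congr rfl fun i _ => ?_
      congr 1
      push_cast
      ring
    rw [h1] at e1
    rw [e3, Nat.cast_zero, add_zero] at e2
    linarith
  have h3 : ∀ j : ℕ, p.eval ((j : ℚ) * n) = p.eval 0 := by
    intro j
    induction j with
    | zero => simp
    | succ j ih => rw [Nat.cast_succ, add_mul, one_mul, h2, ih]
  have h4 := poly_ext_EE4 (p := p - Polynomial.C (p.eval 0)) (g := fun j => (j : ℚ) * n)
    (fun a b hab => by simpa [hn.ne'] using hab) (fun j => by simp [h3])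
  have h5 : ∀ t, p.eval t = p.eval 0 := fun t => by
    simpa [sub_eq_zero] using congrArg (Polynomial.eval t) h4
  have h6 := h1 0
  rw [Finset.sum_congr rfl fun i _ => h5 _, Finset.sum_const, Finset.card_range, nsmul_eq_mul] at h6
  rw [← h6]
  field_simp

theorem card_fixed (k : Type) [Field k] [Fintype k] {s : ℕ} (hs : 0 < s) :
    ∃ S : Finset (AlgebraicClosure k), S.card = Fintype.card k ^ s - 1 ∧
      ∀ c ∈ S, c ≠ 0 ∧ c ^ Fintype.card k ^ s = c := by
  classical
  obtain ⟨p, hp⟩ := CharP.exists k
  obtain ⟨n, -, hn⟩ := FiniteField.card k p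
  have hΩ : CharP (AlgebraicClosure k) p := charP_of_injective_algebraMap' k p
  have h1 : 1 < Fintype.card k ^ s := Nat.one_lt_pow hs.ne' Fintype.one_lt_card
  have hd : p ∣ Fintype.card k ^ s :=
    (hn.symm ▸ dvd_pow_self p n.ne_zero : p ∣ Fintype.card k).trans (dvd_pow_self _ hs.ne')
  have hsep := galois_poly_separable (K := AlgebraicClosure k) p _ hd
  have hne := FiniteField.X_pow_card_sub_X_ne_zero (AlgebraicClosure k) h1
  have hmem : ∀ c, c ∈ (Polynomial.X ^ Fintype.card k ^ s - Polynomial.X :
      (AlgebraicClosure k)[X]).roots.toFinset ↔ c ^ Fintype.card k ^ s = c := by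
    intro c
    rw [Multiset.mem_toFinset, Polynomial.mem_roots hne]
    simp [sub_eq_zero]
  refine ⟨(Polynomial.X ^ Fintype.card k ^ s - Polynomial.X :
    (AlgebraicClosure k)[X]).roots.toFinset.erase 0, ?_, fun c hc =>
      ⟨Finset.ne_of_mem_erase hc, (hmem c).1 (Finset.mem_of_mem_erase hc)⟩⟩
  rw [Finset.card_erase_of_mem ((hmem 0).2 (zero_pow (by omega))),
    Multiset.toFinset_card_of_nodup (Polynomial.nodup_roots hsep),
    ← (IsAlgClosed.splits _).natDegree_eq_card_roots,
    FiniteField.X_pow_card_sub_X_natDegree_eq _ h1]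

end Pool.Agent.CXD
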