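import Pool.Agent.P.MP_2ce3e7_ag.EE3
import Pool.Agent.P.MP_2ce3e7_ag.EE4

/-! Functions on the set of rational points. -/

set_option linter.unusedSectionVars false
set_option linter.unusedVariables false

open Function Filter
open scoped TensorProduct Polynomial LaurentPolynomial

noncomputable section

namespace Pool.Agent.CXD

variable {k A σ : Type} [Field k] [Fintype k] [CommRing A] [Algebra k A] [Fintype σ] {𝒜 : ℤ → Set A}
  {z : σ → A} {θ : A →ₐ[k] A[T;T⁻¹]} [Gd 𝒜] [Gk k 𝒜] [IsNoetherianRing A]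

variable (k) in
/-- evaluation at the rational points -/
def evF (z : σ → A) (m : ℕ) : A →ₐ[k] (Fx k z m → AlgebraicClosure k) :=
  Pi.algHom k _ fun x => x.1

theorem Std.finite_fx (h : Std 𝒜 z θ) {m : ℕ} (hm : 1 < m) : Finite (Fx k z m) := by
  have : Finite {c : AlgebraicClosure k // c ^ m = c} := by
    refine ((Polynomial.finite_setOfPred_isRoot (FiniteField.X_pow_card_sub_X_ne_zero
      (AlgebraicClosure k) hm)).subset fun c (hc : c ^ m = c) => ?_).to_subtype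
    simpa [sub_eq_zero] using hc
  refine Finite.of_injective
    (fun (x : Fx k z m) (i : σ) => (⟨x.1 (z i), x.2.1 i⟩ : {c : AlgebraicClosure k // c ^ m = c}))
    fun x y e => Subtype.ext (h.alg_ext fun i => congrArg Subtype.val (congrFun e i))

theorem one_lt_EE5 (k : Type) [Field k] [Fintype k] {s : ℕ} (hs : 0 < s) :
    1 < Fintype.card k ^ s := Nat.one_lt_pow hs.ne' Fintype.one_lt_card

theorem evF_EE5 {m : ℕ} (a : A) (x : Fx k z m) : evF k z m a x = x.1 a := rfl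

theorem Std.finrank_ev (h : Std 𝒜 z θ) {s : ℕ} (hs : 0 < s) :
    Module.Finite k (evF k z (Fintype.card k ^ s)).range ∧
      Module.finrank k (evF k z (Fintype.card k ^ s)).range =
        Nat.card (Fx k z (Fintype.card k ^ s)) := by
  have := h.finite_fx (one_lt_EE5 k hs)
  have hf : ∀ c : AlgebraicClosure k,
      FiniteField.frobeniusAlgHom k (AlgebraicClosure k) c = c ^ Fintype.card k := fun c => rfl
  let F : Fx k z (Fintype.card k ^ s) → Fx k z (Fintype.card k ^ s) := fun x =>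
    ⟨(FiniteField.frobeniusAlgHom k (AlgebraicClosure k)).comp x.1,
      fun i => by rw [AlgHom.comp_apply, ← map_pow, x.2.1 i],
      x.2.2.imp fun i hi => by
        rw [AlgHom.comp_apply, hf]
        exact pow_ne_zero _ hi⟩
  refine finrank_descent F (Finite.injective_iff_bijective.1 fun x y e => ?_) _ ?_ ?_
  · exact Subtype.ext (AlgHom.ext fun a =>
      (FiniteField.frobeniusAlgHom k (AlgebraicClosure k)).toRingHom.injective
        (DFunLike.congr_fun (congrArg Subtype.val e) a))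
  · rintro _ ⟨a, rfl⟩ x
    exact hf _
  · intro x y hxy
    by_contra hc
    push Not at hc
    exact hxy (Subtype.ext (AlgHom.ext fun a => hc _ ⟨a, rfl⟩))

theorem scale_EE5 (h : Std 𝒜 z θ) {L : Type} [Field L] [Algebra k L] (x : A →ₐ[k] L) {c : L}
    (hc : c ≠ 0) : ∃ y : A →ₐ[k] L, ∀ d : ℤ, ∀ a ∈ cl 𝒜 d, y a = c ^ d * x a := by
  let ρ : A →+* L := (LaurentPolynomial.eval₂ (RingHom.id L) (Units.mk0 c hc)).comp
    (hat θ.toRingHom x.toRingHom)
  have hρ : ∀ d : ℤ, ∀ a ∈ cl 𝒜 d, ρ a = c ^ d * x a := fun d a ha => by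
    have e : hat θ.toRingHom x.toRingHom a = LaurentPolynomial.C (x a) * LaurentPolynomial.T d :=
      (h.ch x).hat_cl ha
    rw [RingHom.comp_apply, e, map_mul, LaurentPolynomial.eval₂_C, LaurentPolynomial.eval₂_T,
      Units.val_zpow_eq_zpow_val, Units.val_mk0, RingHom.id_apply, mul_comm]
  refine ⟨⟨ρ, fun r => ?_⟩, hρ⟩
  have := hρ 0 _ (mem_cl (Gk.alg r))
  rwa [zpow_zero, one_mul, x.commutes] at this

theorem Std.ev_indep (h : Std 𝒜 z θ) {s : ℕ} (hs : 0 < s) (t : ℤ)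
    (a : Fin (Fintype.card k ^ s - 1) → A) (ha : ∀ i, a i ∈ cl 𝒜 (t + (i.val : ℤ)))
    (h0 : evF k z (Fintype.card k ^ s) (∑ i, a i) = 0) (i : Fin (Fintype.card k ^ s - 1)) :
    evF k z (Fintype.card k ^ s) (a i) = 0 := by
  obtain ⟨S, hS, hc⟩ := card_fixed k hs
  let f : Fin (Fintype.card k ^ s - 1) → AlgebraicClosure k :=
    fun j => ((S.equivFinOfCardEq hS).symm j).1
  have hf : ∀ j, f j ∈ S := fun j => ((S.equivFinOfCardEq hS).symm j).2
  funext x
  refine congrFun (Matrix.eq_zero_of_forall_index_sum_pow_mul_eq_zero (f := f)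
    (v := fun i => x.1 (a i))
    (Subtype.val_injective.comp (S.equivFinOfCardEq hS).symm.injective) fun j => ?_) i
  obtain ⟨h1, h2⟩ := hc _ (hf j)
  obtain ⟨y, hy⟩ := scale_EE5 h x.1 h1
  have hz : ∀ i, y (z i) = f j * x.1 (z i) := fun i => by
    rw [hy 1 _ (mem_cl (h.deg i)), zpow_one]
  have e := congrFun h0 ⟨y, fun i => by rw [hz, mul_pow, h2, x.2.1 i],
    x.2.2.imp fun i hi => by rw [hz]; exact mul_ne_zero h1 hi⟩
  change y (∑ i, a i) = 0 at e
  rw [map_sum] at e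
  refine (mul_eq_zero.1 ?_).resolve_left (zpow_ne_zero t h1)
  refine Eq.trans ?_ e
  rw [Finset.mul_sum]
  refine Finset.sum_congr rfl fun i _ => ?_
  rw [hy _ _ (ha i), zpow_add₀ h1, zpow_natCast, mul_assoc]

theorem raise_EE5 (h : Std 𝒜 z θ) (n : ℕ) {d : ℤ} (hd : 1 ≤ d) {a : A} (ha : a ∈ cl 𝒜 d) :
    ∃ a' ∈ cl 𝒜 (d + n), evF k z (n + 1) a' = evF k z (n + 1) a := by
  induction ha using AddSubgroup.closure_induction with
  | mem a ha =>
    obtain ⟨c, rfl⟩ : ∃ c, d = c + 1 := ⟨d - 1, by ring⟩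
    obtain ⟨b, hb, rfl⟩ := h.succ c (by omega) a ha
    refine ⟨∑ i, z i ^ (n + 1) * b i, sum_mem fun i _ => ?_, funext fun x => ?_⟩
    · have := cl_mul (pow_mem_CWL h i (n + 1)) (mem_cl (hb i))
      rwa [show ((n + 1 : ℕ) : ℤ) + c = c + 1 + n by push_cast; ring] at this
    · simp only [evF_EE5, map_sum, map_mul, map_pow, x.2.1]
  | zero => exact ⟨0, zero_mem _, rfl⟩
  | add a b _ _ ha hb =>
    obtain ⟨a', h1, e1⟩ := ha
    obtain ⟨b', h2, e2⟩ := hb
    exact ⟨a' + b', add_mem h1 h2, by rw [map_add, map_add, e1, e2]⟩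
  | neg a _ ha =>
    obtain ⟨a', h1, e1⟩ := ha
    exact ⟨-a', neg_mem h1, by rw [map_neg, map_neg, e1]⟩

theorem raise2_EE5 (h : Std 𝒜 z θ) (n : ℕ) {d : ℤ} (hd : 1 ≤ d) {a : A} (ha : a ∈ cl 𝒜 d)
    (j : ℕ) : ∃ a' ∈ cl 𝒜 (d + j * n), evF k z (n + 1) a' = evF k z (n + 1) a := by
  induction j with
  | zero => exact ⟨a, by simpa using ha, rfl⟩
  | succ j ih =>
    obtain ⟨b, hb, e⟩ := ih
    obtain ⟨b', hb', e'⟩ := raise_EE5 h n (hd.trans (le_add_of_nonneg_right (by positivity))) hb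
    refine ⟨b', ?_, e'.trans e⟩
    rwa [show d + ((j + 1 : ℕ) : ℤ) * n = d + j * n + n by push_cast; ring]

variable (k 𝒜) in
/-- the values of the forms with degrees in a window -/
def win_EE5 (z : σ → A) (m n : ℕ) (t : ℤ) : Submodule k (Fx k z m → AlgebraicClosure k) where
  carrier := {φ | ∃ a : Fin n → A, (∀ i, a i ∈ cl 𝒜 (t + (i.val : ℤ))) ∧ φ = evF k z m (∑ i, a i)}
  zero_mem' := ⟨0, fun _ => zero_mem _, by simp⟩
  add_mem' := by
    rintro _ _ ⟨a, ha, rfl⟩ ⟨b, hb, rfl⟩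
    exact ⟨a + b, fun i => add_mem (ha i) (hb i), by
      simp only [Pi.add_apply, Finset.sum_add_distrib, map_add]⟩
  smul_mem' := by
    rintro c _ ⟨a, ha, rfl⟩
    refine ⟨c • a, fun i => ?_, by simp only [Pi.smul_apply, ← Finset.smul_sum, map_smul]⟩
    have := cl_mul (mem_cl (Gk.alg (𝒜 := 𝒜) c)) (ha i)
    rwa [zero_add, ← Algebra.smul_def] at this

theorem win_cl_EE5 (h : Std 𝒜 z θ) {n : ℕ} (hn : 0 < n) {d : ℤ} (hd : 1 ≤ d) {a : A}
    (ha : a ∈ cl 𝒜 d) : ∀ᶠ t : ℤ in atTop, evF k z (n + 1) a ∈ win_EE5 k 𝒜 z (n + 1) n t := by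
  classical
  filter_upwards [eventually_ge_atTop d] with t ht
  have hn' : (0 : ℤ) < n := by exact_mod_cast hn
  have h1 := Int.emod_nonneg (d - t) hn'.ne'
  have h2 := Int.emod_lt_of_pos (d - t) hn'
  have h3 := Int.emod_add_mul_ediv (d - t) n
  have h4 : 0 ≤ -((d - t) / n) := by nlinarith
  obtain ⟨j, hj⟩ := Int.eq_ofNat_of_zero_le h4
  obtain ⟨i, hi⟩ := Int.eq_ofNat_of_zero_le h1
  obtain ⟨b, hb, e⟩ := raise2_EE5 h n hd ha j
  refine ⟨Pi.single ⟨i, by omega⟩ b, fun l => ?_, by rw [Finset.sum_pi_single', if_pos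
    (Finset.mem_univ _), e]⟩
  by_cases hl : l = ⟨i, by omega⟩
  · subst hl
    rw [Pi.single_eq_same]
    rwa [show d + j * n = t + (i : ℤ) by rw [← hj, ← hi]; linarith] at hb
  · rw [Pi.single_eq_of_ne hl]
    exact zero_mem _

theorem win_all_EE5 (h : Std 𝒜 z θ) {n : ℕ} (hn : 0 < n) (b : A) :
    ∀ᶠ t : ℤ in atTop, evF k z (n + 1) b ∈ win_EE5 k 𝒜 z (n + 1) n t := by
  have h1 : ∀ i y, ∀ᶠ t : ℤ in atTop,
      evF k z (n + 1) (y * z i) ∈ win_EE5 k 𝒜 z (n + 1) n t := fun i y => by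
    induction y using Gd.ind 𝒜 with
    | h0 => exact Eventually.of_forall fun t => by rw [zero_mul, map_zero]; exact zero_mem _
    | h1 c y hy =>
      have hc : 0 ≤ c := not_lt.1 fun hc => h.neg c hc y hy
      exact win_cl_EE5 h hn (by omega) (cl_mul (mem_cl hy) (mem_cl (h.deg i)))
    | h2 y y' hy hy' =>
      filter_upwards [hy, hy'] with t e e'
      rw [add_mul, map_add]
      exact add_mem e e'
    | h3 y hy =>
      filter_upwards [hy] with t e
      rw [neg_mul, map_neg]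
      exact neg_mem e
  have h2 : b * (1 - ∏ i, (1 - z i ^ n)) ∈ Ideal.span (Set.range z) := by
    have h0 : ∀ i, Ideal.Quotient.mk (Ideal.span (Set.range z)) (z i) = 0 := fun i =>
      Ideal.Quotient.eq_zero_iff_mem.2 (Ideal.subset_span ⟨i, rfl⟩)
    refine Ideal.mul_mem_left _ _ (Ideal.Quotient.eq_zero_iff_mem.1 ?_)
    simp only [map_sub, map_one, map_prod, map_pow, h0, zero_pow hn.ne', sub_zero,
      Finset.prod_const_one, sub_self]
  obtain ⟨c, hc⟩ := Ideal.mem_span_range_iff_exists_fun.1 h2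
  have h3 : evF k z (n + 1) b = ∑ i, evF k z (n + 1) (c i * z i) := by
    rw [← map_sum, hc]
    funext x
    obtain ⟨i, hi⟩ := x.2.2
    have e : x.1 (1 - z i ^ n) = 0 := by
      have := x.2.1 i
      rw [pow_succ, mul_eq_right₀ hi] at this
      rw [map_sub, map_pow, this, map_one, sub_self]
    rw [evF_EE5, evF_EE5, map_mul, map_sub, map_prod, Finset.prod_eq_zero (Finset.mem_univ i) e,
      map_one, sub_zero, mul_one]
  filter_upwards [eventually_all.2 fun i => h1 i (c i)] with t ht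
  rw [h3]
  exact sum_mem fun i _ => ht i

theorem Std.ev_span (h : Std 𝒜 z θ) {s : ℕ} (hs : 0 < s) : ∀ᶠ t : ℤ in atTop, ∀ b : A,
    ∃ a : Fin (Fintype.card k ^ s - 1) → A, (∀ i, a i ∈ cl 𝒜 (t + (i.val : ℤ))) ∧
      evF k z (Fintype.card k ^ s) b = evF k z (Fintype.card k ^ s) (∑ i, a i) := by
  have hf := (h.finrank_ev hs).1
  have hm := one_lt_EE5 k hs
  generalize Fintype.card k ^ s = m at hf hm ⊢
  obtain ⟨n, rfl⟩ : ∃ n, m = n + 1 := ⟨m - 1, by omega⟩
  obtain ⟨T, hT⟩ : (Subalgebra.toSubmodule (evF k z (n + 1)).range).FG :=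
    Module.Finite.iff_fg.1 hf
  have h1 : ∀ φ ∈ T, ∀ᶠ t : ℤ in atTop, φ ∈ win_EE5 k 𝒜 z (n + 1) n t := fun φ hφ => by
    obtain ⟨b, rfl⟩ : φ ∈ Subalgebra.toSubmodule (evF k z (n + 1)).range :=
      hT ▸ Submodule.subset_span hφ
    exact win_all_EE5 h (by omega) b
  filter_upwards [(eventually_all_finset T).2 h1] with t ht b
  have h2 : evF k z (n + 1) b ∈ Submodule.span k (T : Set _) := hT ▸ ⟨b, rfl⟩
  exact Submodule.span_le.2 ht h2

end Pool.Agent.CXD
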