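import Pool.Agent.P.MP_2ce3e7_ag.EE5

attribute [local instance] Pool.Agent.CXD.instAddCommGroupCp Pool.Agent.CXD.instModuleCp

/-! The number of rational points. -/

set_option linter.unusedSectionVars false
set_option linter.unusedVariables false

open Function Filter
open scoped TensorProduct Polynomial LaurentPolynomial

noncomputable section

namespace Pool.Agent.CXD

variable {k A σ : Type} [Field k] [Fintype k] [CommRing A] [Algebra k A] [Fintype σ] {𝒜 : ℤ → Set A}
  {z : σ → A} {θ : A →ₐ[k] A[T;T⁻¹]} [Gd 𝒜] [Gk k 𝒜] [IsNoetherianRing A]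

theorem dz_EE6 (h : Std 𝒜 z θ) : Dz (algebraMap k A) 𝒜 := by
  refine ⟨fun a => mem_cl (Gk.alg a), fun c => ?_⟩
  obtain ⟨ι, hι, E, hE⟩ := h.fin_piece c
  refine ⟨ι, hι, E, fun a ha => ?_⟩
  obtain ⟨b, hb⟩ := hE a ha
  exact ⟨b, by simpa only [Algebra.smul_def] using hb⟩

theorem dim_EE6 (hD : Dz (algebraMap k A) 𝒜) (M : GM 𝒜) (t : ℤ) :
    dimK k A (Set.range (M.π t)) = Module.finrank k (prt hD M t) := by
  have e : Submodule.span k (M := Cp (algebraMap k A) M.M) (Set.range (M.π t)) = prt hD M t := by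
    apply le_antisymm
    · rw [Submodule.span_le]
      rintro _ ⟨x, rfl⟩
      exact M.π_self t x
    · intro x hx
      exact Submodule.subset_span ⟨x, hx⟩
  show Module.finrank k
    (Submodule.span k (M := Cp (algebraMap k A) M.M) (Set.range (M.π t))) = _
  rw [e]

theorem ker_EE6 {m : ℕ} {a : A} (ha : a ∈ vI k 𝒜 z m) : evF k z m a = 0 := by
  have : vI k 𝒜 z m ≤ RingHom.ker (evF k z m).toRingHom := by
    unfold vI
    rw [Ideal.span_le]
    rintro a ⟨-, ha⟩
    exact funext fun x => ha x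
  exact this ha

theorem map_EE6 {m : ℕ} {V : GM 𝒜} {v : V.M} (hV : Cy V v (vI k 𝒜 z m)) :
    ∃ g : V.M →+ (evF k z m).range, (∀ a : A, (g (a • v) : Fx k z m → AlgebraicClosure k) =
      evF k z m a) ∧ ∀ (c : k) (y : V.M), g (algebraMap k A c • y) = c • g y := by
  choose r hr using hV.exists_smul
  have uq : ∀ a : A, evF k z m (r (a • v)) = evF k z m a := fun a => by
    rw [← sub_eq_zero, ← map_sub]
    exact ker_EE6 ((hV.ann _).1 (by rw [sub_smul, hr, sub_self]))
  refine ⟨AddMonoidHom.mk' (fun y => ⟨evF k z m (r y), r y, rfl⟩) fun x y => Subtype.ext ?_,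
    uq, fun c y => Subtype.ext ?_⟩
  · have := uq (r x + r y)
    rw [add_smul, hr, hr, map_add] at this
    exact this
  · have := uq (c • r y)
    rw [map_smul, Algebra.smul_def, mul_smul, hr] at this
    exact this

theorem window_EE6 (h : Std 𝒜 z θ) {s : ℕ} (hs : 0 < s) {V : GM 𝒜} {v : V.M}
    (hV : Cy V v (vI k 𝒜 z (Fintype.card k ^ s))) : ∀ᶠ t : ℤ in atTop,
      ∑ i : Fin (Fintype.card k ^ s - 1), dimK k A (Set.range (V.π (t + (i.val : ℤ)))) =
        Nat.card (Fx k z (Fintype.card k ^ s)) := by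
  have hD := dz_EE6 h
  obtain ⟨g, hg, hk⟩ := map_EE6 hV
  filter_upwards [h.ev_span hs] with t ht
  have hf : ∀ i : Fin (Fintype.card k ^ s - 1), Module.Finite k (prt hD V (t + (i.val : ℤ))) :=
    fun i => prt_finite hD hV.finite _
  let Φ : (∀ i : Fin (Fintype.card k ^ s - 1), prt hD V (t + (i.val : ℤ))) →ₗ[k]
      (evF k z (Fintype.card k ^ s)).range :=
    { toFun := fun y => ∑ i, g (pv (y i))
      map_add' := fun x y => by
        rw [← Finset.sum_add_distrib]
        exact Finset.sum_congr rfl fun i _ => by rw [Pi.add_apply, map_add, map_add]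
      map_smul' := fun c x => by
        rw [RingHom.id_apply, Finset.smul_sum]
        exact Finset.sum_congr rfl fun i _ => by rw [Pi.smul_apply, pv_smul, hk] }
  have hΦ : ∀ (y : ∀ i : Fin (Fintype.card k ^ s - 1), prt hD V (t + (i.val : ℤ)))
      (a : Fin (Fintype.card k ^ s - 1) → A), (∀ i, a i • v = pv (y i)) →
      (Φ y : Fx k z (Fintype.card k ^ s) → AlgebraicClosure k) =
        evF k z (Fintype.card k ^ s) (∑ i, a i) := by
    intro y a ha
    have e : Φ y = g ((∑ i, a i) • v) := by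
      rw [Finset.sum_smul, map_sum]
      show ∑ i, g (pv (y i)) = _
      exact Finset.sum_congr rfl fun i _ => by rw [ha]
    rw [e, hg]
  have hb : Bijective Φ := by
    refine ⟨(injective_iff_map_eq_zero _).2 fun y hy => ?_, ?_⟩
    · choose a ha1 ha2 using fun i => hV.exists_hom (pv_π (y i))
      have h0 := hΦ y a ha2
      rw [hy] at h0
      funext i
      have h1 := h.ev_indep hs t a ha1 h0.symm i
      apply pv_ext
      rw [← ha2, Pi.zero_apply, map_zero]
      exact (hV.ann _).2 (Ideal.subset_span ⟨⟨_, ha1 i⟩, fun x => congrFun h1 x⟩)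
    · rintro ⟨_, b, rfl⟩
      obtain ⟨a, ha1, ha2⟩ := ht b
      have h1 : ∀ i : Fin (Fintype.card k ^ s - 1), V.π (t + (i.val : ℤ)) (a i • v) = a i • v :=
        fun i => by
          have := GM.hom_smul (ha1 i) hV.hom
          rwa [add_zero] at this
      choose y hy using fun i => exists_pv hD (h1 i)
      exact ⟨y, Subtype.ext ((hΦ y a fun i => (hy i).symm).trans ha2.symm)⟩
  rw [← (h.finrank_ev hs).2, ← (LinearEquiv.ofBijective Φ hb).finrank_eq,
    Module.finrank_pi_fintype]
  exact Finset.sum_congr rfl fun i _ => dim_EE6 hD V _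

theorem Std.count (h : Std 𝒜 z θ) {s : ℕ} (hs : 0 < s) {V : GM 𝒜} {v : V.M}
    (hV : Cy V v (vI k 𝒜 z (Fintype.card k ^ s))) :
    chi k V = npt k z (Fintype.card k ^ s) := by
  have h1 : 1 < Fintype.card k ^ s := Nat.one_lt_pow hs.ne' Fintype.one_lt_card
  have h2 : ∀ᶠ t : ℤ in atTop, ∀ i : Fin (Fintype.card k ^ s - 1),
      (dimK k A (Set.range (V.π (t + (i.val : ℤ)))) : ℚ) =
        (hpol k V).eval ((t + (i.val : ℤ) : ℤ) : ℚ) :=
    eventually_all.2 fun i =>
      (tendsto_atTop_add_const_right atTop (i.val : ℤ) tendsto_id).eventually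
        (h.hpol_spec hV.finite)
  have h3 : ∀ᶠ t : ℤ in atTop, ∑ i ∈ Finset.range (Fintype.card k ^ s - 1),
      (hpol k V).eval ((t : ℚ) + i) = (Nat.card (Fx k z (Fintype.card k ^ s)) : ℚ) := by
    filter_upwards [h2, window_EE6 h hs hV] with t e1 e2
    rw [← e2, Finset.sum_range, Nat.cast_sum]
    refine Finset.sum_congr rfl fun i _ => ?_
    rw [e1 i, Int.cast_add, Int.cast_natCast]
  have h4 := const_of_window (Nat.sub_pos_of_lt h1) h3
  rw [Nat.cast_sub h1.le, Nat.cast_one] at h4
  exact h4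

end Pool.Agent.CXD
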