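import Pool.Agent.P.MP_2ce3e7_ag.EA1B
import Pool.Agent.P.MP_2ce3e7_ag.EA3

/-! The dimension filtration. -/

set_option linter.unusedSectionVars false
set_option linter.unusedVariables false

open Function Filter
open scoped TensorProduct Polynomial LaurentPolynomial

noncomputable section

namespace Pool.Agent.CXD

variable {k A σ : Type} [Field k] [Fintype k] [CommRing A] [Algebra k A] [Fintype σ] {𝒜 : ℤ → Set A}
  {z : σ → A} {θ : A →ₐ[k] A[T;T⁻¹]} [Gd 𝒜] [Gk k 𝒜] [IsNoetherianRing A]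

theorem mem_dimF_EF1 {M : GM 𝒜} (hM : Module.Finite A M.M) {j : ℕ}
    (hd : (hpol k M).degree < j) : ucl (Set.range z) M ∈ dimF k 𝒜 z j :=
  Submodule.subset_span ⟨M, hM, hd, rfl⟩

theorem dimF_mono : Monotone (dimF k 𝒜 z) := fun i j hij =>
  Submodule.span_mono fun u ⟨M, hM, hd, hu⟩ =>
    ⟨M, hM, hd.trans_le (by exact_mod_cast hij), hu⟩

theorem Std.dimF_zero (h : Std 𝒜 z θ) : dimF k 𝒜 z 0 = ⊥ := by
  refine Submodule.span_eq_bot.2 ?_
  rintro _ ⟨M, hM, hd, rfl⟩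
  rw [Nat.cast_zero, Nat.WithBot.lt_zero_iff, Polynomial.degree_eq_bot] at hd
  exact ucl_nil (h.nil_of_hpol hM hd)

theorem dimF_top (u : G1 𝒜 z) : ∃ j, u ∈ dimF k 𝒜 z j := by
  have hu : u ∈ (⊤ : Submodule ℚ (UG 𝒜 (Set.range z))) := trivial
  rw [← span_ucl] at hu
  induction hu using Submodule.span_induction with
  | mem x hx =>
    obtain ⟨M, hM, rfl⟩ := hx
    refine ⟨(hpol k M).natDegree + 1, mem_dimF_EF1 hM (Polynomial.degree_le_natDegree.trans_lt ?_)⟩
    exact_mod_cast Nat.lt_succ_self _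
  | zero => exact ⟨0, Submodule.zero_mem _⟩
  | add x y _ _ hx hy =>
    obtain ⟨i, hi⟩ := hx
    obtain ⟨j, hj⟩ := hy
    exact ⟨max i j, Submodule.add_mem _ (dimF_mono (le_max_left i j) hi)
      (dimF_mono (le_max_right i j) hj)⟩
  | smul c x _ hx =>
    obtain ⟨i, hi⟩ := hx
    exact ⟨i, Submodule.smul_mem _ c hi⟩

theorem Std.cyc_EF1 (h : Std 𝒜 z θ) {T : Module.End ℚ (G1 𝒜 z)} (hT : IsT1 k z T) {j : ℕ}
    {C : GM 𝒜} {P : Ideal A} (hP : P.IsPrime) (hC : Cyc C P)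
    (hd : (hpol k C).degree < (j + 1 : ℕ)) :
    T (ucl _ C) - (Fintype.card k : ℚ) ^ j • ucl _ C ∈ dimF k 𝒜 z j := by
  by_cases hz : ∀ i, z i ∈ P
  · rw [ucl_nil (hC.nil (by rintro _ ⟨i, rfl⟩; exact hz i)), map_zero, smul_zero, sub_zero]
    exact Submodule.zero_mem _
  obtain ⟨i, hi⟩ := not_forall.1 hz
  have hs : Shf 𝒜 P := shf_of_gen hP (G := {1}) (by
    rw [← AddSubgroup.zmultiples_eq_closure, Int.zmultiples_one])
    (by rintro _ rfl; exact ⟨z i, mem_cl (h.deg i), hi⟩)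
  obtain ⟨h1, -⟩ := h.ver_cyc (hm_frb (k := k) card_smul_eq_zero) hP hC hi
  obtain ⟨ν, -, hl⟩ := exists_multG hP hs hC _
    (res_fin_CWM2 (hm_frb (k := k) card_smul_eq_zero) h C hC.finite) h1
  have h2 : T (ucl _ C) - (ν : ℚ) • ucl _ C ∈ dimF k 𝒜 z j := by
    refine mem_of_forms fun lam hlam => ?_
    have h3 := hl _ (gadd_ucl lam) fun P' hP' hlt C' hC' =>
      hlam _ (mem_dimF_EF1 hC'.finite (h.deg_lt hP hP' hlt hC hC' hd))
    rw [map_sub, map_smul, hT C hC.finite, smul_eq_mul]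
    exact sub_eq_zero.2 h3
  have h4 : (hpol k (ver1 k C)).coeff j = ν * (hpol k C).coeff j :=
    hl _ (h.gadd_coeff j) fun P' hP' hlt C' hC' =>
      Polynomial.coeff_eq_zero_of_degree_lt (h.deg_lt hP hP' hlt hC hC' hd)
  rw [h.hpol_ver hC.finite, Polynomial.comp_C_mul_X_coeff] at h4
  by_cases hc : (hpol k C).coeff j = 0
  · have h5 : ucl (Set.range z) C ∈ dimF k 𝒜 z j := by
      refine mem_dimF_EF1 hC.finite ((Polynomial.degree_lt_iff_coeff_zero _ _).2 fun m hm => ?_)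
      rcases hm.eq_or_lt with rfl | hm
      · exact hc
      · exact Polynomial.coeff_eq_zero_of_degree_lt (hd.trans_le (by exact_mod_cast hm))
    have h6 := Submodule.add_mem _ h2 (Submodule.smul_mem _ ((ν : ℚ) - (Fintype.card k : ℚ) ^ j) h5)
    rwa [sub_smul, sub_add_sub_cancel] at h6
  · rw [mul_comm] at h4
    rw [mul_right_cancel₀ hc h4]
    exact h2

theorem Std.dimF_step (h : Std 𝒜 z θ) {T : Module.End ℚ (G1 𝒜 z)} (hT : IsT1 k z T) (j : ℕ) :
    ∀ u ∈ dimF k 𝒜 z (j + 1), T u - (Fintype.card k : ℚ) ^ j • u ∈ dimF k 𝒜 z j := by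
  have key : ∀ M : GM 𝒜, Module.Finite A M.M → (hpol k M).degree < (j + 1 : ℕ) →
      T (ucl _ M) - (Fintype.card k : ℚ) ^ j • ucl _ M ∈ dimF k 𝒜 z j := by
    refine devis (p := fun M => (hpol k M).degree < (j + 1 : ℕ) →
      T (ucl _ M) - (Fintype.card k : ℚ) ^ j • ucl _ M ∈ dimF k 𝒜 z j) ?_ ?_
    · intro M hM _
      have h0 : Nil (Set.range z) M.M := fun f _ y => ⟨0, Subsingleton.elim _ _⟩
      rw [ucl_nil h0, map_zero, smul_zero, sub_zero]
      exact Submodule.zero_mem _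
    · intro C M N P hM hP hC hs ih hd
      obtain ⟨d1, d2⟩ := h.deg_ses hM hs
      rw [ucl_ses hM hs, map_add, smul_add, add_sub_add_comm]
      exact Submodule.add_mem _ (h.cyc_EF1 hT hP hC (d1.trans_lt hd)) (ih (d2.trans_lt hd))
  intro u hu
  induction hu using Submodule.span_induction with
  | mem x hx =>
    obtain ⟨M, hM, hd, rfl⟩ := hx
    exact key M hM hd
  | zero =>
    rw [map_zero, smul_zero, sub_zero]
    exact Submodule.zero_mem _
  | add x y _ _ hx hy =>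
    rw [map_add, smul_add, add_sub_add_comm]
    exact Submodule.add_mem _ hx hy
  | smul c x _ hx =>
    rw [map_smul, smul_comm, ← smul_sub]
    exact Submodule.smul_mem _ c hx

end Pool.Agent.CXD
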