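import Pool.Agent.P.MP_2ce3e7_ag.EA0

/-! Linear algebra. -/

set_option linter.unusedSectionVars false
set_option linter.unusedVariables false

open Function Filter
open scoped TensorProduct Polynomial

noncomputable section

namespace Pool.Agent.CXD

variable {V : Type*} [AddCommGroup V] [Module ℚ V] {T : Module.End ℚ V} {r Q : ℕ} {P : ℚ[X]}

theorem pol_eval (hP : P ∈ Pol r Q) {x : ℚ} (hx : Pw Q x) : P.eval x ≠ 0 := by
  unfold Pol at hP
  induction hP using Submonoid.closure_induction with
  | mem p hp =>
    obtain ⟨ε, hε, rfl⟩ := hp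
    simp only [Polynomial.eval_add, Polynomial.eval_X, Polynomial.eval_C]
    exact fun h1 => hε (neg_eq_of_add_eq_zero_left h1 ▸ hx)
  | one => simp
  | mul p q _ _ hp hq =>
    rw [Polynomial.eval_mul]
    exact mul_ne_zero hp hq

theorem cop_EF2 (hP : P ∈ Pol r Q) {p : ℚ[X]} (hp : p ∈ PwP Q) : IsCoprime P p := by
  unfold Pol at hP
  unfold PwP at hp
  induction hP using Submonoid.closure_induction with
  | mem a ha =>
    obtain ⟨ε, hε, rfl⟩ := ha
    induction hp using Submonoid.closure_induction with
    | mem b hb =>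
      obtain ⟨ν, hν, rfl⟩ := hb
      have h1 : (Polynomial.X + Polynomial.C ε : ℚ[X]) = Polynomial.X - Polynomial.C (-ε) := by
        simp
      rw [h1]
      apply Polynomial.isCoprime_X_sub_C_of_isUnit_sub
      exact IsUnit.mk0 _ (sub_ne_zero.2 fun h2 => hε (h2 ▸ hν))
    | one => exact isCoprime_one_right
    | mul b c _ _ hb hc => exact IsCoprime.mul_right hb hc
  | one => exact isCoprime_one_left
  | mul a b _ _ ha hb => exact IsCoprime.mul_left ha hb

theorem pol_inj (h : ∀ v, ∃ p ∈ PwP Q, Polynomial.aeval T p v = 0) (hP : P ∈ Pol r Q) :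
    Injective (Polynomial.aeval T P : Module.End ℚ V) := by
  rw [injective_iff_map_eq_zero]
  intro v hv
  obtain ⟨p, hp, hpv⟩ := h v
  obtain ⟨a, b, hab⟩ := cop_EF2 hP hp
  have h1 : (Polynomial.aeval T (a * P + b * p) : Module.End ℚ V) v = v := by
    rw [hab]; simp
  rw [map_add, map_mul, map_mul, LinearMap.add_apply, Module.End.mul_apply, Module.End.mul_apply,
    hv, hpv] at h1
  simpa using h1.symm

theorem trace_sum [Module.Finite ℚ V] {n : ℕ} (f : Fin n → V →ₗ[ℚ] ℚ) (v : Fin n → V)
    {S : Module.End ℚ V} (hS : ∀ x, S x = ∑ i, f i x • v i) :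
    LinearMap.trace ℚ V S = ∑ i, f i (v i) := by
  have h1 : S = ∑ i, (f i).smulRight (v i) := by
    ext x
    rw [hS x]
    simp [LinearMap.sum_apply]
  rw [h1, map_sum]
  exact Finset.sum_congr rfl fun i _ => LinearMap.trace_smulRight _ _

theorem trace_filt [Module.Finite ℚ V] (F : ℕ → Submodule ℚ V) (hm : Monotone F) (h0 : F 0 = ⊥)
    (ht : ∀ v, ∃ j, v ∈ F j) (c : ℕ → ℚ) (hc : ∀ j, ∀ v ∈ F (j + 1), T v - c j • v ∈ F j) :
    ∃ D : ℕ, (∀ j, D ≤ j → F (j + 1) = F j) ∧ ∀ s : ℕ, LinearMap.trace ℚ V (T ^ s) =
      ∑ j ∈ Finset.range D,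
        ((Module.finrank ℚ (F (j + 1)) : ℚ) - Module.finrank ℚ (F j)) * c j ^ s := by
  obtain ⟨D, hD⟩ := (monotone_stabilizes_iff_noetherian.2
    (inferInstance : IsNoetherian ℚ V)) ⟨F, hm⟩
  have hD' : ∀ j, D ≤ j → F D = F j := fun j hj => hD j hj
  have htop : ∀ v, v ∈ F D := by
    intro v
    obtain ⟨j, hj⟩ := ht v
    rw [hD' (max j D) (le_max_right _ _)]
    exact hm (le_max_left _ _) hj
  have hst : ∀ j, ∀ v ∈ F j, T v ∈ F j := by
    intro j v hv
    cases j with
    | zero =>
      rw [h0] at hv ⊢
      rw [Submodule.mem_bot] at hv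
      simp [hv]
    | succ j =>
      have h1 := hm (Nat.le_succ j) (hc j v hv)
      have h2 : T v = (T v - c j • v) + c j • v := by simp
      rw [h2]
      exact Submodule.add_mem _ h1 (Submodule.smul_mem _ _ hv)
  have hpow : ∀ j (s : ℕ), ∀ v ∈ F (j + 1), (T ^ s) v - c j ^ s • v ∈ F j := by
    intro j s v hv
    induction s with
    | zero => simp
    | succ s ih =>
      have h2 : (T ^ (s + 1)) v - c j ^ (s + 1) • v
          = T ((T ^ s) v - c j ^ s • v) + c j ^ s • (T v - c j • v) := by
        rw [pow_succ', Module.End.mul_apply, map_sub, map_smul, smul_sub, smul_smul, pow_succ]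
        abel
      rw [h2]
      exact Submodule.add_mem _ (hst j _ ih) (Submodule.smul_mem _ _ (hc j v hv))
  have hex : ∀ j, ∃ e : Module.End ℚ V, LinearMap.IsProj (F j) e := by
    intro j
    obtain ⟨G, hG⟩ := Submodule.exists_isCompl (F j)
    refine ⟨(F j).subtype ∘ₗ Submodule.projectionOnto _ _ hG, ?_, ?_⟩
    · intro x
      exact (Submodule.projectionOnto _ _ hG x).2
    · intro x hx
      exact congrArg Subtype.val (Submodule.projectionOnto_apply_left hG ⟨x, hx⟩)
  choose e he using hex
  have htr : ∀ j, LinearMap.trace ℚ V (e j) = (Module.finrank ℚ (F j) : ℚ) := fun j =>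
    (he j).trace
  refine ⟨D, fun j hj => ?_, fun s => ?_⟩
  · rw [← hD' j hj, ← hD' (j + 1) (Nat.le_succ_of_le hj)]
  · have key : ∀ j, LinearMap.trace ℚ V (T ^ s * e j) = ∑ i ∈ Finset.range j,
        ((Module.finrank ℚ (F (i + 1)) : ℚ) - Module.finrank ℚ (F i)) * c i ^ s := by
      intro j
      induction j with
      | zero =>
        have h1 : e 0 = 0 := by
          ext x
          have := (he 0).map_mem x
          rw [h0, Submodule.mem_bot] at this
          simpa using this
        simp [h1]
      | succ j ih =>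
        set S : Module.End ℚ V := T ^ s - c j ^ s • (1 : Module.End ℚ V) with hS
        have h1 : S * e (j + 1) = e j * (S * e (j + 1)) := by
          ext x
          have hx : S (e (j + 1) x) ∈ F j := by
            have := hpow j s _ ((he (j + 1)).map_mem x)
            simpa [hS] using this
          simp only [Module.End.mul_apply]
          exact ((he j).map_id _ hx).symm
        have h2 : e (j + 1) * e j = e j := by
          ext x
          simp only [Module.End.mul_apply]
          exact (he (j + 1)).map_id _ (hm (Nat.le_succ j) ((he j).map_mem x))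
        have h3 : LinearMap.trace ℚ V (S * e (j + 1)) = LinearMap.trace ℚ V (S * e j) := by
          rw [h1, LinearMap.trace_mul_comm, mul_assoc, h2]
        have h4 : ∀ i, LinearMap.trace ℚ V (S * e i)
            = LinearMap.trace ℚ V (T ^ s * e i) - c j ^ s * (Module.finrank ℚ (F i) : ℚ) := by
          intro i
          rw [hS, sub_mul, map_sub, smul_mul_assoc, one_mul, map_smul, htr, smul_eq_mul]
        rw [h4, h4] at h3
        rw [Finset.sum_range_succ, ← ih]
        linarith
    have h5 : e D = 1 := by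
      ext x
      exact (he D).map_id _ (htop x)
    rw [← key D, h5, mul_one]

end Pool.Agent.CXD
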