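import Pool.Agent.P.MP_2ce3e7_ag.EA0

/-! Rational power series. -/

set_option linter.unusedSectionVars false
set_option linter.unusedVariables false

open Function Filter
open scoped TensorProduct Polynomial

noncomputable section

namespace Pool.Agent.CXD

theorem series_of_rec {d : ℕ → ℚ} {P : ℚ[X]} {x : ℚ} (hx : x ≠ 0) (hP : P.eval x ≠ 0)
    (h : ∀ s, P.sum (fun m c => c * d (s + m)) = 0) :
    ∃ a b : ℚ[X], b.eval x⁻¹ ≠ 0 ∧ (b : PowerSeries ℚ) * PowerSeries.mk d = a := by
  refine ⟨PowerSeries.trunc P.natDegree ((P.reverse : PowerSeries ℚ) * PowerSeries.mk d),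
    P.reverse, fun h0 => hP ?_, ?_⟩
  · have := invertibleOfNonzero hx
    exact (Polynomial.eval₂_reverse_eq_zero_iff (RingHom.id ℚ) x P).1
      (by rw [invOf_eq_inv]; exact h0)
  · ext n
    rw [Polynomial.coeff_coe, PowerSeries.coeff_trunc]
    split_ifs with hn
    · rfl
    obtain ⟨s, rfl⟩ := Nat.exists_eq_add_of_le (not_lt.1 hn)
    rw [PowerSeries.coeff_mul, Finset.Nat.sum_antidiagonal_eq_sum_range_succ_mk, ← h s,
      Polynomial.sum_over_range _ (fun n => zero_mul _), ← Finset.sum_range_reflect _ (P.natDegree + 1)]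
    refine (Finset.sum_subset (Finset.range_mono (by omega)) fun i _ hi => ?_).symm.trans
      (Finset.sum_congr rfl fun i hi => ?_)
    · rw [Finset.mem_range, not_lt] at hi
      rw [Polynomial.coeff_coe, Polynomial.coeff_eq_zero_of_natDegree_lt
        (lt_of_le_of_lt (Polynomial.reverse_natDegree_le P) hi), zero_mul]
    · rw [Finset.mem_range] at hi
      have hi' : i ≤ P.natDegree := by omega
      rw [Polynomial.coeff_coe, Polynomial.coeff_reverse, Polynomial.revAt_le hi',
        PowerSeries.coeff_mk, show P.natDegree + 1 - 1 - i = P.natDegree - i by omega,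
        show P.natDegree + s - i = s + (P.natDegree - i) by omega]

/-- the shift -/
def shf_EF3 : Module.End ℚ (ℕ → ℚ) := LinearMap.funLeft ℚ ℚ (· + 1)

theorem pow_EF3 (m : ℕ) (d : ℕ → ℚ) (s : ℕ) : (shf_EF3 ^ m) d s = d (s + m) := by
  induction m generalizing s with
  | zero => rfl
  | succ m ih =>
    rw [pow_succ', Module.End.mul_apply]
    exact (ih (s + 1)).trans (by rw [add_assoc, add_comm 1])

theorem aeval_EF3 (P : ℚ[X]) (d : ℕ → ℚ) (s : ℕ) :
    Polynomial.aeval shf_EF3 P d s = P.sum fun m c => c * d (s + m) := by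
  rw [Polynomial.aeval_endomorphism, Polynomial.sum, Polynomial.sum, Finset.sum_apply]
  exact Finset.sum_congr rfl fun m _ => by rw [Pi.smul_apply, pow_EF3, smul_eq_mul]

theorem series_final {n : ℕ → ℚ} {P : ℚ[X]} {c ρ : ℕ → ℚ} {D : ℕ} (hc : Injective c)
    (h0 : ∀ j, c j ≠ 0) (hρ : ∀ j, D ≤ j → ρ j = 0) {j : ℕ} (hP : P.eval (c j) ≠ 0)
    (h : ∀ s, P.sum (fun m a =>
      a * (n (s + m) - ∑ i ∈ Finset.range D, ρ i * c i ^ (s + m))) = 0) :
    ∃ a b : ℚ[X], b.eval (c j)⁻¹ ≠ 0 ∧
      (b : PowerSeries ℚ) * PowerSeries.mk (fun s => n (s + 1) - ρ j * c j ^ (s + 1)) = a := by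
  classical
  let R : ℚ[X] := ∏ i ∈ (Finset.range D).erase j, (Polynomial.X - Polynomial.C (c i))
  let e : ℕ → ℚ := fun s => n s - ∑ i ∈ Finset.range D, ρ i * c i ^ s
  let g : ℕ → ℕ → ℚ := fun i s => c i ^ s
  have he : Polynomial.aeval shf_EF3 P e = 0 := funext fun s => (aeval_EF3 P e s).trans (h s)
  have hg : ∀ i ∈ (Finset.range D).erase j, Polynomial.aeval shf_EF3 R (g i) = 0 := fun i hi => by
    obtain ⟨R', hR'⟩ := Finset.dvd_prod_of_mem
      (fun i => (Polynomial.X - Polynomial.C (c i) : ℚ[X])) hi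
    have h1 : Polynomial.aeval shf_EF3 (Polynomial.X - Polynomial.C (c i)) (g i) = 0 := by
      rw [map_sub, Polynomial.aeval_X, Polynomial.aeval_C, LinearMap.sub_apply,
        Module.algebraMap_end_apply]
      funext s
      change c i ^ (s + 1) - c i * c i ^ s = 0
      ring
    rw [show R = R' * _ from hR'.trans (mul_comm _ _), map_mul, Module.End.mul_apply, h1, map_zero]
  have hd : (fun s => n s - ρ j * c j ^ s) = e + ∑ i ∈ (Finset.range D).erase j, ρ i • g i := by
    funext s
    rw [Pi.add_apply, Finset.sum_apply]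
    change _ = (n s - ∑ i ∈ Finset.range D, ρ i * c i ^ s) +
      ∑ i ∈ (Finset.range D).erase j, ρ i * c i ^ s
    by_cases hj : j ∈ Finset.range D
    · rw [← Finset.add_sum_erase _ _ hj]; ring
    · rw [Finset.erase_eq_of_notMem hj, hρ j (by simpa using hj)]; ring
  have hk : Polynomial.aeval shf_EF3 (P * R) (fun s => n s - ρ j * c j ^ s) = 0 := by
    rw [hd, map_add, map_sum]
    have h1 : Polynomial.aeval shf_EF3 (P * R) e = 0 := by
      rw [mul_comm, map_mul, Module.End.mul_apply, he, map_zero]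
    rw [h1, zero_add]
    refine Finset.sum_eq_zero fun i hi => ?_
    rw [map_smul, map_mul, Module.End.mul_apply, hg i hi, map_zero, smul_zero]
  refine series_of_rec (P := P * R) (h0 j) ?_ fun s => ?_
  · rw [Polynomial.eval_mul, Polynomial.eval_prod]
    refine mul_ne_zero hP (Finset.prod_ne_zero_iff.2 fun i hi => ?_)
    rw [Polynomial.eval_sub, Polynomial.eval_X, Polynomial.eval_C]
    exact sub_ne_zero.2 fun e => Finset.ne_of_mem_erase hi (hc e).symm
  · have h1 := congrFun hk (s + 1)
    rw [aeval_EF3] at h1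
    refine Eq.trans ?_ h1
    simp only [add_right_comm s 1]

end Pool.Agent.CXD
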