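import Pool.Agent.P.MP_2ce3e7_ag.EF2
import Pool.Agent.P.MP_2ce3e7_ag.EF3

/-! The trace formula. -/

set_option linter.unusedSectionVars false
set_option linter.unusedVariables false

open Function Filter
open scoped TensorProduct Polynomial

noncomputable section

namespace Pool.Agent.CXD

theorem lin_main {V W : Type*} [AddCommGroup V] [Module ℚ V] [AddCommGroup W] [Module ℚ W]
    {T : Module.End ℚ V} {T₂ : Module.End ℚ W} {bx : V →ₗ[ℚ] V →ₗ[ℚ] W}
    {β : V →ₗ[ℚ] V →ₗ[ℚ] ℚ} {lam : W →ₗ[ℚ] ℚ} {δ : W} {r Q n : ℕ} {P : ℚ[X]} {u v : Fin n → V}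
    (hpos : ∀ x, ∃ p ∈ PwP Q, Polynomial.aeval T p x = 0) (hP : P ∈ Pol r Q)
    (hbx : ∀ x y, T₂ (bx x y) = bx x (T y)) (hl : ∀ x y, lam (bx x y) = β x y)
    (hs : ∀ x y, β x y = β y x) (hδ : Polynomial.aeval T₂ P δ = ∑ i, bx (u i) (v i))
    (ha : ∀ x, Polynomial.aeval T P x = ∑ i, β (u i) x • v i) :
    Module.Finite ℚ V ∧ (∀ x, (∀ y, β x y = 0) → x = 0) ∧
      ∀ s, P.sum (fun m a =>
        a * (lam ((T₂ ^ (s + m)) δ) - LinearMap.trace ℚ V (T ^ (s + m)))) = 0 := by
  have hinj := pol_inj hpos hP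
  have hmem : ∀ x, Polynomial.aeval T P x ∈ Submodule.span ℚ (Set.range v) := fun x => by
    rw [ha]
    exact Submodule.sum_mem _ fun i _ =>
      Submodule.smul_mem _ _ (Submodule.subset_span ⟨i, rfl⟩)
  have : Module.Finite ℚ (Submodule.span ℚ (Set.range v)) :=
    Module.Finite.span_of_finite ℚ (Set.finite_range v)
  have hfin : Module.Finite ℚ V :=
    Module.Finite.of_injective (LinearMap.codRestrict _ (Polynomial.aeval T P) hmem)
      fun x y e => hinj (congrArg Subtype.val e)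
  refine ⟨hfin, fun x hx => hinj ?_, fun s => ?_⟩
  · rw [map_zero, ha]
    exact Finset.sum_eq_zero fun i _ => by rw [hs, hx, zero_smul]
  have hpw : ∀ (s : ℕ) x y, (T₂ ^ s) (bx x y) = bx x ((T ^ s) y) := by
    intro s x y
    induction s with
    | zero => rfl
    | succ s ih => rw [pow_succ', pow_succ', Module.End.mul_apply, Module.End.mul_apply, ih, hbx]
  have e1 : lam ((T₂ ^ s) (Polynomial.aeval T₂ P δ)) = ∑ i, β (u i) ((T ^ s) (v i)) := by
    rw [hδ, map_sum, map_sum]
    exact Finset.sum_congr rfl fun i _ => by rw [hpw, hl]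
  have e2 : LinearMap.trace ℚ V (T ^ s * Polynomial.aeval T P) =
      ∑ i, β (u i) ((T ^ s) (v i)) :=
    trace_sum (fun i => β (u i)) (fun i => (T ^ s) (v i)) fun x => by
      rw [Module.End.mul_apply, ha, map_sum]
      exact Finset.sum_congr rfl fun i _ => by rw [map_smul]
  have e3 := e1.trans e2.symm
  rw [Polynomial.aeval_eq_sum_range, Polynomial.aeval_eq_sum_range, LinearMap.sum_apply, map_sum,
    map_sum, Finset.mul_sum, map_sum, ← sub_eq_zero, ← Finset.sum_sub_distrib] at e3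
  rw [Polynomial.sum_over_range _ (fun m => zero_mul _), ← e3]
  refine Finset.sum_congr rfl fun m _ => ?_
  rw [LinearMap.smul_apply, map_smul, map_smul, mul_smul_comm, map_smul, pow_add, pow_add,
    Module.End.mul_apply, smul_eq_mul, smul_eq_mul, mul_sub]

end Pool.Agent.CXD
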