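import Pool.Agent.P.MP_2ce3e7_ag.DW1

/-! Normalised configurations over a ring. -/

set_option linter.unusedSectionVars false
set_option linter.unusedVariables false

open Function Matrix
open scoped TensorProduct

noncomputable section

namespace Pool.Agent.CXD

variable {S S' : Type} [CommRing S] [CommRing S'] {N d m q : ℕ} {n : Fin N → ℕ} {δ : Ix N d m → ℕ}
  {E : Ix N d m → Set (Fin m)}

/-- congruent matrices -/
def Cg (J : Ideal S) {α β : Type} (M M' : Matrix α β S) : Prop :=
  M.map (Ideal.Quotient.mk J) = M'.map (Ideal.Quotient.mk J)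

/-- the columns of `v` lie in the span of the columns of `u`, which is normalised in the rows `r` -/
def Sr {l a b : ℕ} (u : Matrix (Fin l) (Fin a) S) (r : Fin a → Fin l)
    (v : Matrix (Fin l) (Fin b) S) : Prop := v = u * v.submatrix r id

/-- a normalised flag -/
structure Nf {l : ℕ} {a : Fin m → ℕ} (r : ∀ i, Fin (a i) → Fin l)
    (u : ∀ i, Matrix (Fin l) (Fin (a i)) S) : Prop where
  one : ∀ i, (u i).submatrix (r i) id = 1
  flag : ∀ i j, i ≤ j → Sr (u j) (r j) (u i)

/-- normalised configurations -/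
structure Nc (q : ℕ) (E : Ix N d m → Set (Fin m)) (I : Sg n δ)
    (u : ∀ s : Ix N d m, Matrix (Fin (n s.1)) (Fin (δ s)) S) : Prop where
  nf : ∀ b c, Nf (l := n b) (a := fun i => δ (b, c, i)) (fun i => I (b, c, i)) fun i => u (b, c, i)
  step : ∀ b (c : Fin d) i, ∀ j ∈ E (b, c.castSucc, i),
    Sr (u (b, c.castSucc, i)) (I (b, c.castSucc, i)) (u (b, c.succ, j))
  last : ∀ b i, ∀ j ∈ E (b, Fin.last d, i),
    (u (b, Fin.last d, i))ᵀ * (u (b, 0, j)).map (· ^ q) = 0

/-- the products of minors -/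
def mz (u : ∀ s : Ix N d m, Matrix (Fin (n s.1)) (Fin (δ s)) S) (I : Sg n δ) : S :=
  ∏ s, ((u s).submatrix (I s) id).det

variable (k : Type) [Field k] in
/-- the universal normalised configuration -/
structure Un {D : Type} [CommRing D] [Algebra k D] (q : ℕ) (E : Ix N d m → Set (Fin m))
    (I : Sg n δ) (u : ∀ s : Ix N d m, Matrix (Fin (n s.1)) (Fin (δ s)) D) : Prop where
  ft : Algebra.FiniteType k D
  nc : Nc q E I u
  lift : ∀ (S : Type) [CommRing S] [Algebra k S]
    (v : ∀ s : Ix N d m, Matrix (Fin (n s.1)) (Fin (δ s)) S), Nc q E I v →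
      ∃ φ : D →ₐ[k] S, ∀ s, (u s).map φ = v s
  ext : ∀ (S : Type) [CommRing S] [Algebra k S] (φ ψ : D →ₐ[k] S),
    (∀ s, (u s).map φ = (u s).map ψ) → φ = ψ

variable {I : Sg n δ} {u : ∀ s : Ix N d m, Matrix (Fin (n s.1)) (Fin (δ s)) S}

theorem Sr.trans {l a b c : ℕ} {u : Matrix (Fin l) (Fin a) S} {r : Fin a → Fin l}
    {v : Matrix (Fin l) (Fin b) S} {r' : Fin b → Fin l} {w : Matrix (Fin l) (Fin c) S}
    (h : Sr u r v) (h' : Sr v r' w) : Sr u r w := by
  unfold Sr at *
  have e : w.submatrix r id = v.submatrix r id * w.submatrix r' id := by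
    conv_lhs => rw [h']
    rfl
  rw [e, ← Matrix.mul_assoc, ← h]
  exact h'

theorem Sr.map {l a b : ℕ} {u : Matrix (Fin l) (Fin a) S} {r : Fin a → Fin l}
    {v : Matrix (Fin l) (Fin b) S} (h : Sr u r v) (φ : S →+* S') : Sr (u.map φ) r (v.map φ) := by
  unfold Sr at *
  have e : (v.map φ).submatrix r id = (v.submatrix r id).map φ := rfl
  rw [e, ← Matrix.map_mul, ← h]

theorem pow_map_EG0 {α β : Type} (M : Matrix α β S) (φ : S →+* S') (q : ℕ) :
    (M.map φ).map (· ^ q) = (M.map (· ^ q)).map φ := by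
  ext i j
  simp only [Matrix.map_apply, map_pow]

theorem last_map_EG0 {l a b : ℕ} (M : Matrix (Fin l) (Fin a) S) (M' : Matrix (Fin l) (Fin b) S)
    (φ : S →+* S') (q : ℕ) :
    (M.map φ)ᵀ * (M'.map φ).map (· ^ q) = (Mᵀ * M'.map (· ^ q)).map φ := by
  rw [pow_map_EG0, Matrix.map_mul, Matrix.transpose_map]

theorem one_map_EG0 {a : ℕ} (φ : S →+* S') :
    (1 : Matrix (Fin a) (Fin a) S).map φ = 1 :=
  Matrix.map_one _ (map_zero φ) (map_one φ)

theorem eq_pts_EG0 {X : Type} {T : X → Type} [∀ x, CommRing (T x)] (ev : ∀ x, S →+* T x)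
    (hev : ∀ a, (∀ x, ev x a = 0) → a = 0) {α β : Type} {M M' : Matrix α β S}
    (h : ∀ x, M.map (ev x) = M'.map (ev x)) : M = M' := by
  ext i j
  refine sub_eq_zero.1 (hev _ fun x => ?_)
  have := congrFun (congrFun (h x) i) j
  simp only [Matrix.map_apply] at this
  rw [map_sub, this, sub_self]

theorem sr_pts_EG0 {X : Type} {T : X → Type} [∀ x, CommRing (T x)] (ev : ∀ x, S →+* T x)
    (hev : ∀ a, (∀ x, ev x a = 0) → a = 0) {l a b : ℕ} {u : Matrix (Fin l) (Fin a) S}
    {r : Fin a → Fin l} {v : Matrix (Fin l) (Fin b) S}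
    (h : ∀ x, Sr (u.map (ev x)) r (v.map (ev x))) : Sr u r v := by
  unfold Sr at *
  refine eq_pts_EG0 ev hev fun x => ?_
  rw [Matrix.map_mul]
  exact h x

theorem nc_pts_EG0 {X : Type} {T : X → Type} [∀ x, CommRing (T x)] (ev : ∀ x, S →+* T x)
    (hev : ∀ a, (∀ x, ev x a = 0) → a = 0)
    (h : ∀ x, Nc q E I fun s => (u s).map (ev x)) : Nc q E I u := by
  refine ⟨fun b c => ⟨fun i => ?_, fun i j hij => ?_⟩, fun b c i j hj => ?_, fun b i j hj => ?_⟩
  · refine eq_pts_EG0 ev hev fun x => ?_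
    rw [one_map_EG0]
    exact ((h x).nf b c).one i
  · exact sr_pts_EG0 ev hev fun x => ((h x).nf b c).flag i j hij
  · exact sr_pts_EG0 ev hev fun x => (h x).step b c i j hj
  · refine eq_pts_EG0 ev hev fun x => ?_
    rw [← last_map_EG0, Matrix.map_zero _ (map_zero _)]
    exact (h x).last b i j hj

theorem Nf.map {l : ℕ} {a : Fin m → ℕ} {r : ∀ i, Fin (a i) → Fin l}
    {u : ∀ i, Matrix (Fin l) (Fin (a i)) S} (h : Nf r u) (φ : S →+* S') :
    Nf r fun i => (u i).map φ := by
  refine ⟨fun i => ?_, fun i j hij => (h.flag i j hij).map φ⟩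
  have e : ((u i).map φ).submatrix (r i) id = ((u i).submatrix (r i) id).map φ := rfl
  rw [e, h.one i, one_map_EG0]

theorem Nc.map (h : Nc q E I u) (φ : S →+* S') : Nc q E I fun s => (u s).map φ := by
  refine ⟨fun b c => (h.nf b c).map φ, fun b c i j hj => (h.step b c i j hj).map φ,
    fun b i j hj => ?_⟩
  rw [last_map_EG0, h.last b i j hj, Matrix.map_zero _ (map_zero _)]

theorem Nc.of_pts {X : Type} (ev : X → S →+* S') (hev : ∀ a, (∀ x, ev x a = 0) → a = 0)
    (h : ∀ x, Nc q E I fun s => (u s).map (ev x)) : Nc q E I u :=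
  nc_pts_EG0 (T := fun _ => S') ev hev h

theorem map_mz (φ : S →+* S') (J : Sg n δ) : φ (mz u J) = mz (fun s => (u s).map φ) J := by
  unfold mz
  rw [map_prod]
  refine Finset.prod_congr rfl fun s _ => ?_
  rw [RingHom.map_det]
  rfl

theorem Nc.mz_one (h : Nc q E I u) : mz u I = 1 := by
  unfold mz
  refine Finset.prod_eq_one fun s _ => ?_
  obtain ⟨b, c, i⟩ := s
  have := (h.nf b c).one i
  beta_reduce at this
  rw [this, Matrix.det_one]

theorem exists_un (k : Type) [Field k] (q : ℕ) (E : Ix N d m → Set (Fin m)) (I : Sg n δ) :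
    ∃ (D : Type) (_ : CommRing D) (_ : Algebra k D)
      (u : ∀ s : Ix N d m, Matrix (Fin (n s.1)) (Fin (δ s)) D), Un k q E I u := by
  let P : Type := MvPolynomial (Σ s : Ix N d m, Fin (n s.1) × Fin (δ s)) k
  let U : ∀ s : Ix N d m, Matrix (Fin (n s.1)) (Fin (δ s)) P :=
    fun s => Matrix.of fun r a => MvPolynomial.X ⟨s, r, a⟩
  let X : Type := {K : Ideal P // Nc q E I fun s => (U s).map (Ideal.Quotient.mk K)}
  let J : Ideal P := ⨅ K : X, K.1
  have hJ : ∀ K : X, J ≤ K.1 := fun K => iInf_le _ K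
  refine ⟨P ⧸ J, inferInstance, inferInstance, fun s => (U s).map (Ideal.Quotient.mk J),
    inferInstance, ?_, ?_, ?_⟩
  · refine nc_pts_EG0 (T := fun K : X => P ⧸ K.1) (fun K => Ideal.Quotient.factor (hJ K)) ?_ ?_
    · intro a ha
      obtain ⟨a, rfl⟩ := Ideal.Quotient.mk_surjective a
      refine Ideal.Quotient.eq_zero_iff_mem.2 (Ideal.mem_iInf.2 fun K => ?_)
      have := ha K
      rw [Ideal.Quotient.factor_mk] at this
      exact Ideal.Quotient.eq_zero_iff_mem.1 this
    · intro K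
      exact K.2
  · intro S _ _ v hv
    let φ : P →ₐ[k] S := MvPolynomial.aeval fun p => v p.1 p.2.1 p.2.2
    have hφ : ∀ s, (U s).map φ = v s := fun s => by
      ext r a
      exact MvPolynomial.aeval_X _ _
    have hK : Nc q E I fun s => (U s).map (Ideal.Quotient.mk (RingHom.ker (φ : P →+* S))) := by
      refine nc_pts_EG0 (X := Unit) (T := fun _ => S)
        (fun _ => RingHom.kerLift (φ : P →+* S)) ?_ ?_
      · intro a ha
        exact (injective_iff_map_eq_zero _).1 (RingHom.kerLift_injective _) a (ha ())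
      · intro _
        have e : (fun s => ((U s).map (Ideal.Quotient.mk (RingHom.ker (φ : P →+* S)))).map
            (RingHom.kerLift (φ : P →+* S))) = v := by
          funext s
          rw [← hφ s]
          ext r a
          simp only [Matrix.map_apply, RingHom.kerLift_mk]
          rfl
        rw [e]
        exact hv
    refine ⟨Ideal.Quotient.liftₐ J φ fun a ha => hJ ⟨_, hK⟩ ha, fun s => ?_⟩
    rw [← hφ s]
    rfl
  · intro S _ _ φ ψ h
    refine Ideal.Quotient.algHom_ext k (MvPolynomial.algHom_ext fun p => ?_)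
    exact congrFun (congrFun (h p.1) p.2.1) p.2.2

end Pool.Agent.CXD
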