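import Pool.Agent.P.MP_2ce3e7_ag.EG0

/-! Lifting of subspaces and flags. -/

set_option linter.unusedSectionVars false
set_option linter.unusedVariables false

open Function Matrix
open scoped TensorProduct

noncomputable section

namespace Pool.Agent.CXD

variable {S : Type} [CommRing S] {J : Ideal S} {l m : ℕ}

/-- all entries lie in `J` -/
def Zr_EG1 (J : Ideal S) {α β : Type} (M : Matrix α β S) : Prop := ∀ i j, M i j ∈ J

theorem cg_EG1 {α β : Type} {M M' : Matrix α β S} : Cg J M M' ↔ Zr_EG1 J (M - M') := by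
  simp only [Cg, Zr_EG1, ← Matrix.ext_iff, Matrix.map_apply, Matrix.sub_apply, Ideal.Quotient.eq]

theorem Zr_EG1.add {α β : Type} {M N : Matrix α β S} (h : Zr_EG1 J M) (h' : Zr_EG1 J N) :
    Zr_EG1 J (M + N) := fun i j => J.add_mem (h i j) (h' i j)

theorem Zr_EG1.sub {α β : Type} {M N : Matrix α β S} (h : Zr_EG1 J M) (h' : Zr_EG1 J N) :
    Zr_EG1 J (M - N) := fun i j => J.sub_mem (h i j) (h' i j)

theorem Zr_EG1.left {α β γ : Type} [Fintype β] {N : Matrix β γ S} (h : Zr_EG1 J N)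
    (M : Matrix α β S) : Zr_EG1 J (M * N) :=
  fun _ j => J.sum_mem fun k _ => J.mul_mem_left _ (h k j)

theorem Zr_EG1.right {α β γ : Type} [Fintype β] {M : Matrix α β S} (h : Zr_EG1 J M)
    (N : Matrix β γ S) : Zr_EG1 J (M * N) :=
  fun i _ => J.sum_mem fun k _ => J.mul_mem_right _ (h i k)

theorem Zr_EG1.zero (hJ : J ^ 2 = ⊥) {α β γ : Type} [Fintype β] {M : Matrix α β S}
    {N : Matrix β γ S} (h : Zr_EG1 J M) (h' : Zr_EG1 J N) : M * N = 0 := by
  ext i j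
  refine Finset.sum_eq_zero fun k _ => ?_
  rw [← Ideal.mem_bot, ← hJ, sq]
  exact Ideal.mul_mem_mul (h i k) (h' k j)

theorem row_EG1 {b : ℕ} {γ : Type} (r : Fin b → Fin l) (M : Matrix (Fin l) γ S) :
    M.submatrix r id = (1 : Matrix (Fin l) (Fin l) S).submatrix r id * M := by
  conv_lhs => rw [← Matrix.one_mul M]
  rfl

theorem lift_sub (hJ : J ^ 2 = ⊥) {a b : ℕ} (r : Fin b → Fin l) {π : Matrix (Fin l) (Fin l) S}
    (hπ : π * π = π) {W : Matrix (Fin l) (Fin a) S} {r' : Fin a → Fin l}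
    (hW : W.submatrix r' id = 1) (hπW : π * W = 0) {V₀ : Matrix (Fin l) (Fin b) S}
    (h1 : Cg J (V₀.submatrix r id) 1) (h2 : Cg J (π * V₀) 0)
    (h3 : Cg J W (V₀ * W.submatrix r id)) :
    ∃ V, Cg J V V₀ ∧ V.submatrix r id = 1 ∧ π * V = 0 ∧ Sr V r W := by
  suffices h : ∃ V : Matrix (Fin l) (Fin b) S, Zr_EG1 J (V - V₀) ∧
      (1 : Matrix (Fin l) (Fin l) S).submatrix r id * V = 1 ∧
      π * V = 0 ∧ W = V * ((1 : Matrix (Fin l) (Fin l) S).submatrix r id * W) by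
    obtain ⟨V, v1, v2, v3, v4⟩ := h
    exact ⟨V, cg_EG1.2 v1, (row_EG1 r V).trans v2, v3, v4.trans (by rw [← row_EG1])⟩
  rw [cg_EG1, row_EG1 r] at h1 h3
  rw [cg_EG1, sub_zero] at h2
  rw [row_EG1 r'] at hW
  generalize (1 : Matrix (Fin l) (Fin l) S).submatrix r id = R at *
  generalize (1 : Matrix (Fin l) (Fin l) S).submatrix r' id = R' at *
  obtain ⟨D, hD⟩ : ∃ D, D = W - V₀ * (R * W) := ⟨_, rfl⟩
  rw [← hD] at h3
  obtain ⟨V₁, e1⟩ : ∃ V₁, V₁ = V₀ + D * (R' * V₀) := ⟨_, rfl⟩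
  have a1 : Zr_EG1 J (V₁ - V₀) := by rw [e1, add_sub_cancel_left]; exact h3.right _
  have a2 : V₁ * (R * W) = W := by
    have : V₀ * (R * W) = W - D := by rw [hD, sub_sub_cancel]
    rw [e1, Matrix.add_mul, Matrix.mul_assoc D, Matrix.mul_assoc R', this, Matrix.mul_sub,
      Matrix.mul_sub, hW, Matrix.mul_one, h3.zero hJ (h3.left R'), sub_zero, sub_add_cancel]
  obtain ⟨V₂, e2⟩ : ∃ V₂, V₂ = V₁ - π * V₁ := ⟨_, rfl⟩
  have b1 : Zr_EG1 J (V₂ - V₀) := by
    have := a1.sub ((a1.left π).add h2)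
    rwa [Matrix.mul_sub, sub_add_cancel, sub_right_comm, ← e2] at this
  have b2 : V₂ * (R * W) = W := by
    rw [e2, Matrix.sub_mul, Matrix.mul_assoc, a2, hπW, sub_zero]
  have b3 : π * V₂ = 0 := by rw [e2, Matrix.mul_sub, ← Matrix.mul_assoc, hπ, sub_self]
  obtain ⟨N, e3⟩ : ∃ N, N = R * V₂ - 1 := ⟨_, rfl⟩
  have c1 : Zr_EG1 J N := by
    have := (b1.left R).add h1
    rwa [Matrix.mul_sub, sub_add_sub_cancel, ← e3] at this
  have c2 : N * (R * W) = 0 := by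
    rw [e3, Matrix.sub_mul, Matrix.mul_assoc, b2, Matrix.one_mul, sub_self]
  refine ⟨V₂ - V₂ * N, ?_, ?_, ?_, ?_⟩
  · rw [sub_right_comm]
    exact b1.sub (c1.left _)
  · rw [Matrix.mul_sub, ← Matrix.mul_assoc, eq_add_of_sub_eq e3.symm, Matrix.add_mul,
      c1.zero hJ c1, Matrix.one_mul, zero_add, add_sub_cancel_left]
  · rw [Matrix.mul_sub, ← Matrix.mul_assoc, b3, Matrix.zero_mul, sub_zero]
  · rw [Matrix.sub_mul, b2, Matrix.mul_assoc, c2, Matrix.mul_zero, sub_zero]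

theorem sr_EG1 {a b : ℕ} {u : Matrix (Fin l) (Fin a) S} {r : Fin a → Fin l}
    {v : Matrix (Fin l) (Fin b) S} :
    Cg J v (u * v.submatrix r id) ↔
      Sr (u.map (Ideal.Quotient.mk J)) r (v.map (Ideal.Quotient.mk J)) := by
  rw [Cg, Matrix.map_mul]
  rfl

theorem low_EG1 (hJ : J ^ 2 = ⊥) {m' : ℕ} {a' : Fin m' → ℕ} {r' : ∀ i, Fin (a' i) → Fin l}
    {W : ∀ i, Matrix (Fin l) (Fin (a' i)) S} (hW : Nf r' W) (m : ℕ) :
    ∀ (a : Fin m → ℕ) (r : ∀ i, Fin (a i) → Fin l) (V₀ : ∀ i, Matrix (Fin l) (Fin (a i)) S)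
      (E : Fin m → Set (Fin m')) (π : Matrix (Fin l) (Fin l) S), π * π = π →
      (∀ i, ∀ j ∈ E i, π * W j = 0) → (∀ i, Cg J (π * V₀ i) 0) →
      (Nf r fun i => (V₀ i).map (Ideal.Quotient.mk J)) →
      (∀ i, ∀ j ∈ E i,
        Sr ((V₀ i).map (Ideal.Quotient.mk J)) (r i) ((W j).map (Ideal.Quotient.mk J))) →
      ∃ V : ∀ i, Matrix (Fin l) (Fin (a i)) S, (∀ i, Cg J (V i) (V₀ i)) ∧ Nf r V ∧
        (∀ i, ∀ j ∈ E i, Sr (V i) (r i) (W j)) ∧ ∀ i, π * V i = 0 := by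
  induction m with
  | zero =>
    exact fun a r V₀ E π _ _ _ _ _ => ⟨V₀, fun i => i.elim0, ⟨fun i => i.elim0, fun i => i.elim0⟩,
      fun i => i.elim0, fun i => i.elim0⟩
  | succ m ih =>
    intro a r V₀ E π hπ hπW h0 h1 h2
    have g1 : Cg J ((V₀ (Fin.last m)).submatrix (r (Fin.last m)) id) 1 :=
      (h1.one (Fin.last m)).trans (Matrix.map_one _ (map_zero _) (map_one _)).symm
    obtain ⟨U, u1, u2, u3, u4⟩ : ∃ U, Cg J U (V₀ (Fin.last m)) ∧
        U.submatrix (r (Fin.last m)) id = 1 ∧ π * U = 0 ∧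
        ∀ i, ∀ j ∈ E i, Sr U (r (Fin.last m)) (W j) := by
      rcases (⋃ i, E i).eq_empty_or_nonempty with h | h
      · obtain ⟨U, u1, u2, u3, -⟩ := lift_sub hJ (r (Fin.last m)) hπ (W := 0) (r' := Fin.elim0)
          (Subsingleton.elim _ _) (Matrix.mul_zero _) g1 (h0 _) (Subsingleton.elim _ _)
        exact ⟨U, u1, u2, u3, fun i j hj =>
          absurd (h ▸ Set.mem_iUnion.2 ⟨i, hj⟩) (Set.notMem_empty j)⟩
      · obtain ⟨j₀, hj₀, hmax⟩ := Set.exists_max_image _ id (Set.toFinite _) h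
        obtain ⟨i₀, hi₀⟩ := Set.mem_iUnion.1 hj₀
        obtain ⟨U, u1, u2, u3, u4⟩ := lift_sub hJ (r (Fin.last m)) hπ (hW.one j₀) (hπW i₀ j₀ hi₀) g1
          (h0 _) (sr_EG1.2 ((h1.flag i₀ _ (Fin.le_last _)).trans (h2 i₀ j₀ hi₀)))
        exact ⟨U, u1, u2, u3, fun i j hj =>
          u4.trans (hW.flag j j₀ (hmax j (Set.mem_iUnion.2 ⟨i, hj⟩)))⟩
    have hp : ∀ {b : ℕ} (M : Matrix (Fin l) (Fin b) S),
        (1 - U * (1 : Matrix (Fin l) (Fin l) S).submatrix (r (Fin.last m)) id) * M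
          = M - U * M.submatrix (r (Fin.last m)) id := fun M => by
      rw [Matrix.sub_mul, Matrix.one_mul, Matrix.mul_assoc, ← row_EG1]
    obtain ⟨V, v1, v2, v3, v4⟩ := ih (fun i => a i.castSucc) (fun i => r i.castSucc)
      (fun i => V₀ i.castSucc) (fun i => E i.castSucc)
      (1 - U * (1 : Matrix (Fin l) (Fin l) S).submatrix (r (Fin.last m)) id)
      (by
        rw [Matrix.mul_sub, Matrix.mul_one, ← Matrix.mul_assoc, hp U, u2, Matrix.mul_one, sub_self,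
          Matrix.zero_mul, sub_zero])
      (fun i j hj => (hp _).trans (sub_eq_zero.2 (u4 _ j hj)))
      (fun i => by
        have k1 := cg_EG1.1 (sr_EG1.2 (h1.flag i.castSucc _ (Fin.le_last _)))
        have k2 := k1.sub ((cg_EG1.1 u1).right ((V₀ i.castSucc).submatrix (r (Fin.last m)) id))
        rw [Matrix.sub_mul, sub_sub, add_sub_cancel] at k2
        rwa [cg_EG1, sub_zero, hp])
      ⟨fun i => h1.one _, fun i j h => h1.flag _ _ (Fin.castSucc_le_castSucc_iff.2 h)⟩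
      (fun i => h2 _)
    have v5 : ∀ i, Sr U (r (Fin.last m)) (V i) := fun i => sub_eq_zero.1 ((hp _).symm.trans (v4 i))
    refine ⟨Fin.lastCases (motive := fun i => Matrix (Fin l) (Fin (a i)) S) U V, fun i => ?_,
      ⟨fun i => ?_, fun i j => ?_⟩, fun i => ?_, fun i => ?_⟩
    · induction i using Fin.lastCases
      · rwa [Fin.lastCases_last]
      · rw [Fin.lastCases_castSucc]; exact v1 _
    · induction i using Fin.lastCases
      · rwa [Fin.lastCases_last]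
      · rw [Fin.lastCases_castSucc]; exact v2.one _
    · induction i using Fin.lastCases <;> induction j using Fin.lastCases <;>
        simp only [Fin.lastCases_last, Fin.lastCases_castSucc]
      · exact fun _ => by rw [Sr, u2, Matrix.mul_one]
      · exact fun h => absurd h (not_le.2 (Fin.castSucc_lt_last _))
      · exact fun _ => v5 _
      · exact fun h => v2.flag _ _ (Fin.castSucc_le_castSucc_iff.1 h)
    · induction i using Fin.lastCases
      · rw [Fin.lastCases_last]; exact u4 _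
      · rw [Fin.lastCases_castSucc]; exact v3 _
    · induction i using Fin.lastCases
      · rwa [Fin.lastCases_last]
      · rw [Fin.lastCases_castSucc, v5 _, ← Matrix.mul_assoc, u3, Matrix.zero_mul]

variable {a a' : Fin m → ℕ} {r : ∀ i, Fin (a i) → Fin l} {r' : ∀ i, Fin (a' i) → Fin l}
  {W : ∀ i, Matrix (Fin l) (Fin (a' i)) S} {V₀ : ∀ i, Matrix (Fin l) (Fin (a i)) S}

theorem lift_low (hJ : J ^ 2 = ⊥) (hW : Nf r' W) (E : Fin m → Set (Fin m))
    (h1 : Nf r fun i => (V₀ i).map (Ideal.Quotient.mk J))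
    (h2 : ∀ i, ∀ j ∈ E i,
      Sr ((V₀ i).map (Ideal.Quotient.mk J)) (r i) ((W j).map (Ideal.Quotient.mk J))) :
    ∃ V : ∀ i, Matrix (Fin l) (Fin (a i)) S, (∀ i, Cg J (V i) (V₀ i)) ∧ Nf r V ∧
      ∀ i, ∀ j ∈ E i, Sr (V i) (r i) (W j) := by
  obtain ⟨V, v1, v2, v3, -⟩ := low_EG1 hJ hW m a r V₀ E 0 (Matrix.zero_mul _)
    (fun _ _ _ => Matrix.zero_mul _) (fun _ => by rw [Matrix.zero_mul]; rfl) h1 h2
  exact ⟨V, v1, v2, v3⟩

end Pool.Agent.CXD
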