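import Pool.Agent.P.MP_2ce3e7_ag.EG1

/-! Lifting of flags that are orthogonal to a flag. -/

set_option linter.unusedSectionVars false
set_option linter.unusedVariables false

open Function Matrix
open scoped TensorProduct

noncomputable section

namespace Pool.Agent.CXD

variable {S : Type} [CommRing S] {J : Ideal S} {l m : ℕ}
  {a a' : Fin m → ℕ} {r : ∀ i, Fin (a i) → Fin l} {r' : ∀ i, Fin (a' i) → Fin l}
  {W : ∀ i, Matrix (Fin l) (Fin (a' i)) S} {V₀ : ∀ i, Matrix (Fin l) (Fin (a i)) S}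

theorem exists_proj_EG1B (J : Ideal S) (hW : Nf r' W) (F : Set (Fin m)) :
    ∃ π : Matrix (Fin l) (Fin l) S, π * π = π ∧
      (∀ (c : ℕ) (M : Matrix (Fin l) (Fin c) S), π * M = 0 ↔ ∀ j ∈ F, Mᵀ * W j = 0) ∧
      ∀ (c : ℕ) (M : Matrix (Fin l) (Fin c) S), (∀ j ∈ F, Cg J (Mᵀ * W j) 0) → Cg J (π * M) 0 := by
  rcases F.eq_empty_or_nonempty with rfl | hne
  · exact ⟨0, Matrix.zero_mul _, fun c M => ⟨fun _ j hj => hj.elim, fun _ => Matrix.zero_mul _⟩,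
      fun c M _ => by rw [Matrix.zero_mul]; rfl⟩
  obtain ⟨j₀, hj₀, hmax⟩ := Set.exists_max_image F id (Set.toFinite F) hne
  obtain ⟨R, hR⟩ : ∃ R : Matrix (Fin (a' j₀)) (Fin l) S, R * W j₀ = 1 := by
    refine ⟨(1 : Matrix (Fin l) (Fin l) S).submatrix (r' j₀) id, ?_⟩
    rw [← hW.one j₀]
    ext x y
    simp [Matrix.mul_apply, Matrix.one_apply]
  have hR' : (W j₀)ᵀ * Rᵀ = 1 := by rw [← transpose_mul, hR, transpose_one]
  have key : ∀ (c : ℕ) (M : Matrix (Fin l) (Fin c) S),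
      Rᵀ * (W j₀)ᵀ * M = Rᵀ * (Mᵀ * W j₀)ᵀ := fun c M => by
    rw [transpose_mul, transpose_transpose, Matrix.mul_assoc]
  refine ⟨Rᵀ * (W j₀)ᵀ, ?_, fun c M => ⟨fun h j hj => ?_, fun h => ?_⟩, fun c M h => ?_⟩
  · rw [Matrix.mul_assoc, ← Matrix.mul_assoc (W j₀)ᵀ, hR', Matrix.one_mul]
  · have h1 : (Mᵀ * W j₀)ᵀ = 0 := by
      rw [← Matrix.one_mul (Mᵀ * W j₀)ᵀ, ← hR', Matrix.mul_assoc, ← key, h, Matrix.mul_zero]
    have h2 : Mᵀ * W j₀ = 0 := transpose_eq_zero.1 h1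
    have h3 : W j = W j₀ * (W j).submatrix (r' j₀) id := hW.flag j j₀ (hmax j hj)
    rw [h3, ← Matrix.mul_assoc, h2, Matrix.zero_mul]
  · rw [key, h j₀ hj₀, transpose_zero, Matrix.mul_zero]
  · have h1 : (Mᵀ * W j₀).map (Ideal.Quotient.mk J) = 0 :=
      (h j₀ hj₀).trans (Matrix.map_zero _ (map_zero _))
    unfold Cg
    rw [key, Matrix.map_mul, transpose_map, transpose_map, h1, transpose_zero,
      Matrix.mul_zero, Matrix.map_zero _ (map_zero _)]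

theorem lift_aux_EG1B (hJ : J ^ 2 = ⊥) (hW : Nf r' W) (n : ℕ) :
    ∀ (b : Fin n → ℕ) (ρ : ∀ i, Fin (b i) → Fin l) (X : ∀ i, Matrix (Fin l) (Fin (b i)) S)
      (E : Fin n → Set (Fin m)) (c : ℕ) (r₀ : Fin c → Fin l) (U : Matrix (Fin l) (Fin c) S),
      U.submatrix r₀ id = 1 → (∀ i, ∀ j ∈ E i, Uᵀ * W j = 0) →
      (∀ i, Cg J U (X i * U.submatrix (ρ i) id)) →
      (Nf ρ fun i => (X i).map (Ideal.Quotient.mk J)) →
      (∀ i, ∀ j ∈ E i, Cg J ((X i)ᵀ * W j) 0) →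
      ∃ V : ∀ i, Matrix (Fin l) (Fin (b i)) S, (∀ i, Cg J (V i) (X i)) ∧ Nf ρ V ∧
        (∀ i, ∀ j ∈ E i, (V i)ᵀ * W j = 0) ∧ ∀ i, Sr (V i) (ρ i) U := by
  induction n with
  | zero =>
    intro b ρ X E c r₀ U _ _ _ _ _
    exact ⟨X, fun i => i.elim0, ⟨fun i => i.elim0, fun i => i.elim0⟩, fun i => i.elim0,
      fun i => i.elim0⟩
  | succ n ih =>
    intro b ρ X E c r₀ U hU hUW hUX h1 h2
    obtain ⟨π, hπ, hπ1, hπ2⟩ := exists_proj_EG1B J hW {j | ∃ i, j ∈ E i}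
    have hf : ∀ i, (X 0).map (Ideal.Quotient.mk J) = (X i).map (Ideal.Quotient.mk J) *
        ((X 0).map (Ideal.Quotient.mk J)).submatrix (ρ i) id :=
      fun i => h1.flag 0 i (Fin.zero_le i)
    have h3 : Cg J ((X 0).submatrix (ρ 0) id) 1 :=
      (h1.one 0).trans (Matrix.map_one _ (map_zero _) (map_one _)).symm
    have h4 : Cg J (π * X 0) 0 := by
      refine hπ2 _ _ ?_
      rintro j ⟨i, hj⟩
      have h5 : ((X i).map (Ideal.Quotient.mk J))ᵀ * (W j).map (Ideal.Quotient.mk J) = 0 := by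
        rw [← transpose_map, ← Matrix.map_mul]
        exact (h2 i j hj).trans (Matrix.map_zero _ (map_zero _))
      unfold Cg
      rw [Matrix.map_mul, transpose_map, hf i, transpose_mul, Matrix.mul_assoc, h5,
        Matrix.mul_zero, Matrix.map_zero _ (map_zero _)]
    obtain ⟨Y, hY1, hY2, hY3, hY4⟩ := lift_sub hJ (ρ 0) hπ hU
      ((hπ1 _ U).2 fun j ⟨i, hj⟩ => hUW i j hj) h3 h4 (hUX 0)
    have hY5 := (hπ1 _ Y).1 hY3
    obtain ⟨V, hV1, hV2, hV3, hV4⟩ := ih (fun i => b i.succ) (fun i => ρ i.succ)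
      (fun i => X i.succ) (fun i => E i.succ) (b 0) (ρ 0) Y hY2
      (fun i j hj => hY5 j ⟨i.succ, hj⟩)
      (fun i => by
        unfold Cg at hY1 ⊢
        rw [Matrix.map_mul, ← submatrix_map, hY1]
        exact hf i.succ)
      ⟨fun i => h1.one i.succ, fun i j hij => h1.flag i.succ j.succ (Fin.succ_le_succ_iff.2 hij)⟩
      (fun i j hj => h2 i.succ j hj)
    refine ⟨Fin.cons (α := fun i => Matrix (Fin l) (Fin (b i)) S) Y V,
      fun i => Fin.cases hY1 hV1 i, ⟨fun i => Fin.cases hY2 hV2.one i, fun i j => ?_⟩,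
      fun i => Fin.cases (fun j hj => hY5 j ⟨0, hj⟩) hV3 i,
      fun i => Fin.cases hY4 (fun i => (hV4 i).trans hY4) i⟩
    induction i using Fin.cases with
    | zero =>
      induction j using Fin.cases with
      | zero =>
        intro _
        change Y = Y * Y.submatrix (ρ 0) id
        rw [hY2, Matrix.mul_one]
      | succ j => exact fun _ => hV4 j
    | succ i =>
      induction j using Fin.cases with
      | zero => exact fun h => absurd h (not_le.2 (Fin.succ_pos i))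
      | succ j => exact fun h => hV2.flag i j (Fin.succ_le_succ_iff.1 h)

theorem lift_up (hJ : J ^ 2 = ⊥) (hW : Nf r' W) (E : Fin m → Set (Fin m))
    (h1 : Nf r fun i => (V₀ i).map (Ideal.Quotient.mk J))
    (h2 : ∀ i, ∀ j ∈ E i, Cg J ((V₀ i)ᵀ * W j) 0) :
    ∃ V : ∀ i, Matrix (Fin l) (Fin (a i)) S, (∀ i, Cg J (V i) (V₀ i)) ∧ Nf r V ∧
      ∀ i, ∀ j ∈ E i, (V i)ᵀ * W j = 0 := by
  obtain ⟨V, hV1, hV2, hV3, -⟩ := lift_aux_EG1B hJ hW m a r V₀ E 0 Fin.elim0 0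
    (Matrix.ext fun i => i.elim0) (fun i j _ => Matrix.ext fun i => i.elim0)
    (fun i => Matrix.ext fun _ j => j.elim0) h1 h2
  exact ⟨V, hV1, hV2, hV3⟩

end Pool.Agent.CXD
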