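import Pool.Agent.P.MP_2ce3e7_ag.EG1B

/-! Lifting of configurations. -/

set_option linter.unusedSectionVars false
set_option linter.unusedVariables false

open Function Matrix
open scoped TensorProduct

noncomputable section

namespace Pool.Agent.CXD

variable {S : Type} [CommRing S] {J : Ideal S} {N d m q : ℕ} {n : Fin N → ℕ} {δ : Ix N d m → ℕ}
  {E : Ix N d m → Set (Fin m)} {I : Sg n δ}

theorem chain_EG2 {T : Fin (d + 1) → Type} {P : T (Fin.last d) → Prop}
    {R : ∀ c : Fin d, T c.castSucc → T c.succ → Prop} (hP : ∃ x, P x)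
    (hR : ∀ c y, ∃ x, R c x y) :
    ∃ f : ∀ c, T c, P (f (Fin.last d)) ∧ ∀ c, R c (f c.castSucc) (f c.succ) := by
  obtain ⟨x, hx⟩ := hP
  choose g hg using hR
  refine ⟨fun c => Fin.reverseInduction x g c, ?_, fun c => ?_⟩
  · simpa only [Fin.reverseInduction_last] using hx
  · simpa only [Fin.reverseInduction_castSucc] using hg c _

theorem nc_lift (hJ : J ^ 2 = ⊥) (fq : S →+* S) (hq : ∀ a, fq a = a ^ q) (h2 : 1 < q)
    {u₀ : ∀ s : Ix N d m, Matrix (Fin (n s.1)) (Fin (δ s)) S}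
    (h : Nc q E I fun s => (u₀ s).map (Ideal.Quotient.mk J)) :
    ∃ u : ∀ s : Ix N d m, Matrix (Fin (n s.1)) (Fin (δ s)) S,
      (∀ s, Cg J (u s) (u₀ s)) ∧ Nc q E I u := by
  have hk : ∀ a ∈ J, fq a = 0 := by
    intro a ha
    obtain ⟨t, rfl⟩ := Nat.exists_eq_add_of_le (show 2 ≤ q from h2)
    have h0 : a ^ 2 = 0 := by
      rw [← Ideal.mem_bot, ← hJ]
      exact Ideal.pow_mem_pow ha 2
    rw [hq, pow_add, h0, zero_mul]
  have hW : ∀ {α β : Type} (M : Matrix α β S),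
      (M.map (Ideal.Quotient.mk J)).map (Ideal.Quotient.lift J fq hk) = M.map fq :=
    fun M => Matrix.ext fun _ _ => rfl
  have hp : ∀ {α β : Type} (M : Matrix α β S), M.map (· ^ q) = M.map fq :=
    fun M => Matrix.ext fun _ _ => (hq _).symm
  have key : ∀ b : Fin N, ∃ f : ∀ c : Fin (d + 1),
      {V : ∀ i, Matrix (Fin (n b)) (Fin (δ (b, c, i))) S // (∀ i, Cg J (V i) (u₀ (b, c, i))) ∧
        Nf (l := n b) (a := fun i => δ (b, c, i)) (fun i => I (b, c, i)) V},
      (∀ i, ∀ j ∈ E (b, Fin.last d, i),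
        ((f (Fin.last d)).1 i)ᵀ * (u₀ (b, 0, j)).map fq = 0) ∧
      ∀ c : Fin d, ∀ i, ∀ j ∈ E (b, c.castSucc, i),
        Sr ((f c.castSucc).1 i) (I (b, c.castSucc, i)) ((f c.succ).1 j) := by
    intro b
    refine chain_EG2 (T := fun c => {V : ∀ i, Matrix (Fin (n b)) (Fin (δ (b, c, i))) S //
        (∀ i, Cg J (V i) (u₀ (b, c, i))) ∧
        Nf (l := n b) (a := fun i => δ (b, c, i)) (fun i => I (b, c, i)) V})
      (P := fun x => ∀ i, ∀ j ∈ E (b, Fin.last d, i), (x.1 i)ᵀ * (u₀ (b, 0, j)).map fq = 0)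
      (R := fun c x y => ∀ i, ∀ j ∈ E (b, c.castSucc, i),
        Sr (x.1 i) (I (b, c.castSucc, i)) (y.1 j)) ?_ fun c y => ?_
    · have h1 := (h.nf b 0).map (Ideal.Quotient.lift J fq hk)
      simp only [hW] at h1
      obtain ⟨V, h3, h4, h5⟩ := lift_up (V₀ := fun i => u₀ (b, Fin.last d, i)) hJ h1
        (fun i => E (b, Fin.last d, i)) (h.nf b (Fin.last d)) fun i j hj => by
          have e : ((u₀ (b, 0, j)).map fq).map (Ideal.Quotient.mk J) =
              ((u₀ (b, 0, j)).map (Ideal.Quotient.mk J)).map (· ^ q) :=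
            Matrix.ext fun _ _ => by simp only [Matrix.map_apply, hq, map_pow]
          unfold Cg
          rw [Matrix.map_mul, e, Matrix.transpose_map, h.last b i j hj,
            Matrix.map_zero _ (map_zero _)]
      exact ⟨⟨V, h3, h4⟩, h5⟩
    · obtain ⟨V, h3, h4, h5⟩ := lift_low (V₀ := fun i => u₀ (b, c.castSucc, i)) hJ y.2.2
        (fun i => E (b, c.castSucc, i)) (h.nf b c.castSucc) fun i j hj => by
          rw [y.2.1 j]
          exact h.step b c i j hj
      exact ⟨⟨V, h3, h4⟩, h5⟩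
  choose f hf hf' using key
  refine ⟨fun s => (f s.1 s.2.1).1 s.2.2, fun s => (f s.1 s.2.1).2.1 s.2.2,
    fun b c => (f b c).2.2, fun b c => hf' b c, fun b i j hj => ?_⟩
  have e : ((f b 0).1 j).map (· ^ q) = (u₀ (b, 0, j)).map fq := by
    rw [hp, ← hW, (f b 0).2.1 j, hW]
  exact (congrArg (fun M => ((f b (Fin.last d)).1 i)ᵀ * M) e).trans (hf b i j hj)

end Pool.Agent.CXD
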