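import Pool.Agent.P.MP_2ce3e7_ag.EG2
import Pool.Agent.P.MP_2ce3e7_ag.DA7

/-! The universal configuration is smooth. -/

set_option linter.unusedSectionVars false
set_option linter.unusedVariables false

open Function Matrix
open scoped TensorProduct

noncomputable section

namespace Pool.Agent.CXD

variable {k : Type} [Field k] {N d m q : ℕ} {n : Fin N → ℕ} {δ : Ix N d m → ℕ}
  {E : Ix N d m → Set (Fin m)} {I : Sg n δ}

theorem Un.smooth (hq : Sch k q) {D : Type} [CommRing D] [Algebra k D]
    {u : ∀ s : Ix N d m, Matrix (Fin (n s.1)) (Fin (δ s)) D} (h : Un k q E I u) :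
    Algebra.Smooth k D := by
  refine ⟨.of_comp_surjective fun B _ _ J hJ g => ?_,
    Algebra.FinitePresentation.of_finiteType.1 h.ft⟩
  obtain ⟨fq, hfq⟩ := hq.exists_hom B
  have h0 : ∀ s, ∃ v : Matrix (Fin (n s.1)) (Fin (δ s)) B,
      v.map (Ideal.Quotient.mk J) = (u s).map (g : D →+* B ⧸ J) := fun s => by
    choose v hv using fun r a => Ideal.Quotient.mk_surjective (g (u s r a))
    exact ⟨Matrix.of v, Matrix.ext fun r a => hv r a⟩
  choose u₀ hu₀ using h0
  obtain ⟨v, hv, hn⟩ := nc_lift (E := E) (I := I) (u₀ := u₀) hJ fq hfq hq.lt (by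
    simp only [hu₀]
    exact h.nc.map (g : D →+* B ⧸ J))
  obtain ⟨φ, hφ⟩ := h.lift B v hn
  refine ⟨φ, h.ext _ _ _ fun s => ?_⟩
  have e : (v s).map (Ideal.Quotient.mk J) = (u s).map (g : D →+* B ⧸ J) := (hv s).trans (hu₀ s)
  rw [← hφ s] at e
  exact e

theorem smooth_retract {B D : Type} [CommRing B] [Algebra k B] [CommRing D] [Algebra k D]
    [Algebra.Smooth k D] [Algebra.FiniteType k B] (f : B →ₐ[k] D) (g : D →ₐ[k] B)
    (h : ∀ b, g (f b) = b) : Algebra.Smooth k B := by
  refine ⟨.of_comp_surjective fun C _ _ J hJ g₀ => ?_,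
    Algebra.FinitePresentation.of_finiteType.1 inferInstance⟩
  obtain ⟨φ, hφ⟩ := Algebra.FormallySmooth.comp_surjective k D J hJ (g₀.comp g)
  refine ⟨φ.comp f, AlgHom.ext fun b => ?_⟩
  have := AlgHom.congr_fun hφ (f b)
  simpa [h] using this

theorem chart_zero {Ω σ : Type} [Field Ω] [Algebra k Ω] {V : Set (σ → Ω)}
    (hV : ∀ x ∈ V, ∀ t : Ω, t • x ∈ V) (i : σ) {f : MvPolynomial σ k}
    (h : ∀ x ∈ V, x i = 1 → MvPolynomial.aeval x f = 0) :
    f ∈ MvPolynomial.vanishingIdeal k V ⊔ Ideal.span {MvPolynomial.X i - 1} := by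
  classical
  set M := f.totalDegree with hM
  set F : MvPolynomial σ k := ∑ a ∈ f.support,
    MvPolynomial.X i ^ (M + 1 - a.sum fun _ e => e) * MvPolynomial.monomial a (f.coeff a) with hF
  have h1 : f - F ∈ Ideal.span {(MvPolynomial.X i - 1 : MvPolynomial σ k)} := by
    rw [← Ideal.Quotient.eq]
    have e : Ideal.Quotient.mk (Ideal.span {(MvPolynomial.X i - 1 : MvPolynomial σ k)})
        (MvPolynomial.X i) = 1 := by
      rw [← map_one (Ideal.Quotient.mk _), Ideal.Quotient.eq]
      exact Ideal.subset_span rfl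
    conv_lhs => rw [f.as_sum]
    simp only [hF, map_sum, map_mul, map_pow, e, one_pow, one_mul]
  have h2 : F ∈ MvPolynomial.vanishingIdeal k V := by
    intro x hx
    have hd : ∀ a ∈ f.support, (a.sum fun _ e => e) ≤ M := fun a ha =>
      MvPolynomial.le_totalDegree ha
    by_cases h0 : x i = 0
    · rw [hF, map_sum]
      refine Finset.sum_eq_zero fun a ha => ?_
      have := hd a ha
      rw [map_mul, map_pow, MvPolynomial.aeval_X, h0, zero_pow (by omega), zero_mul]
    · have hy := h ((x i)⁻¹ • x) (hV x hx _) (by simp [h0])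
      have e : MvPolynomial.aeval x F = x i ^ (M + 1) * MvPolynomial.aeval ((x i)⁻¹ • x) f := by
        conv_rhs => rw [f.as_sum]
        rw [hF, map_sum, map_sum, Finset.mul_sum]
        refine Finset.sum_congr rfl fun a ha => ?_
        have h3 := hd a ha
        have h4 : x i ^ (M + 1) = x i ^ (M + 1 - a.sum fun _ e => e) * x i ^ a.sum fun _ e => e := by
          rw [← pow_add]
          congr 1
          omega
        have h5 : (a.prod fun j e => x j ^ e) =
            (x i ^ a.sum fun _ e => e) * a.prod fun j e => ((x i)⁻¹ • x) j ^ e := by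
          rw [Finsupp.prod, Finsupp.prod, Finsupp.sum, ← Finset.prod_pow_eq_pow_sum,
            ← Finset.prod_mul_distrib]
          refine Finset.prod_congr rfl fun j _ => ?_
          rw [← mul_pow, Pi.smul_apply, smul_eq_mul, mul_inv_cancel_left₀ h0]
        rw [map_mul, map_pow, MvPolynomial.aeval_X, MvPolynomial.aeval_monomial,
          MvPolynomial.aeval_monomial, h4, h5]
        ring
      rw [e, hy, mul_zero]
  have e : f = F + (f - F) := by ring
  rw [e]
  exact Submodule.add_mem_sup h2 h1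

end Pool.Agent.CXD
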