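import Pool.Agent.P.MP_2ce3e7_ag.EG3
import Pool.Agent.P.MP_2ce3e7_ag.EC4
import Pool.Agent.P.MP_2ce3e7_ag.DT2

/-! The charts are smooth. -/

set_option linter.unusedSectionVars false
set_option linter.unusedVariables false

open Function Matrix
open scoped TensorProduct

noncomputable section

namespace Pool.Agent.CXD

variable {k Ω : Type} [Field k] [Field Ω] [Algebra k Ω] {N d m q : ℕ} {n : Fin N → ℕ}
  {δ : Ix N d m → ℕ} {E : Ix N d m → Set (Fin m)} {I : Sg n δ}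

theorem Nc.mem_cone {u : ∀ s : Ix N d m, Matrix (Fin (n s.1)) (Fin (δ s)) Ω} (h : Nc q E I u) :
    mz u ∈ cone Ω n q δ E :=
  ⟨1, u, ⟨fun b c i j hij => ⟨_, (h.nf b c).flag i j hij⟩, fun b c i j hj => ⟨_, h.step b c i j hj⟩,
    h.last⟩, fun J => (one_mul _).symm⟩

theorem sr_EG4 {z : Sg n δ → Ω} (hI : z I = 1) {s : Ix N d m} {j : ℕ}
    {v : Matrix (Fin (n s.1)) (Fin j) Ω} (h : ∀ a, Ins z s (v.col a)) :
    Sr (emz z s I) (I s) v := by
  refine Matrix.ext fun r a => ?_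
  have e : z I * v r a = (emz z s I * v.submatrix (I s) id) r a := congrFun (h a I) r
  rwa [hI, one_mul] at e

theorem Sch.nc_emz (hq : Sch k q) {x : Sg n δ → Ω} (hx : x ∈ cone Ω n q δ E) (h1 : x I = 1) :
    Nc q E I (fun s => emz x s I) ∧ mz (fun s => emz x s I) = x := by
  obtain ⟨t, u, hu, h⟩ := mem_cone.1 hx
  refine ⟨⟨fun b c => ⟨fun i => ?_, fun i j hij => sr_EG4 h1 fun a => ins_col hx b c hij I a⟩,
    fun b c i j hj => ?_, fun b i j hj => ?_⟩, funext fun J => ?_⟩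
  · exact (emz_diag hx (b, c, i) I).trans (by rw [h1, one_smul])
  · obtain ⟨w, hw⟩ := hu.step b c i j hj
    exact sr_EG4 h1 fun a => ins_emz h w hw I a
  · rw [emz_eq h, emz_eq h, ← Matrix.mul_smul, ← Matrix.mul_smul]
    exact hq.pp_mul (hu.last b i j hj) _ _
  · have e := dw1_pl h I J
    rw [h1, one_mul, one_pow, one_mul] at e
    exact e

theorem lift_EG4 {σ S : Type} [CommRing S] [Algebra k S] (J : Ideal (MvPolynomial σ k)) (i : σ)
    (y : σ → S) (hy : ∀ a ∈ J, MvPolynomial.aeval y a = 0) (h1 : y i = 1) :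
    ∃ f : ((MvPolynomial σ k ⧸ J) ⧸ Ideal.span {crd J i - 1}) →ₐ[k] S, ∀ a,
      f (Ideal.Quotient.mk _ (Ideal.Quotient.mk J a)) = MvPolynomial.aeval y a := by
  refine ⟨Ideal.Quotient.liftₐ _ (Ideal.Quotient.liftₐ J (MvPolynomial.aeval y) hy)
    fun a ha => ?_, fun a => rfl⟩
  obtain ⟨c, rfl⟩ := Ideal.mem_span_singleton'.1 ha
  have e : Ideal.Quotient.liftₐ J (MvPolynomial.aeval y) hy (crd J i) = 1 :=
    (MvPolynomial.aeval_X y i).trans h1
  rw [map_mul, map_sub, e, map_one, sub_self, mul_zero]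

theorem aux_EG4 (hq : Sch k q) {B : Type} [CommRing B] [Algebra k B]
    (π : MvPolynomial (Sg n δ) k →ₐ[k] B) (hs : Surjective π) (h0 : ∀ a ∈ cI k n q δ E, π a = 0)
    (h1 : π (MvPolynomial.X I - 1) = 0)
    (hl : ∀ (S : Type) [CommRing S] [Algebra k S] (y : Sg n δ → S),
      (∀ a ∈ cI k n q δ E, MvPolynomial.aeval y a = 0) → y I = 1 →
      ∃ f : B →ₐ[k] S, ∀ a, f (π a) = MvPolynomial.aeval y a) : Algebra.Smooth k B := by
  obtain ⟨D, _, _, u, h⟩ := exists_un k q E I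
  have := h.smooth hq
  have := h.ft
  have := red_smooth k D
  have := Algebra.FiniteType.of_surjective π hs
  obtain ⟨f, hf⟩ := hl D (mz u) (fun a ha =>
    (nil_of_pts (k := k) (AlgebraicClosure k) _ fun φ => by
      rw [map_aeval_DT2]
      have e : (fun j => φ (mz u j)) = mz fun s => (u s).map φ.toRingHom :=
        funext fun j => map_mz φ.toRingHom j
      rw [e]
      exact MvPolynomial.mem_vanishingIdeal_iff.1 ha _ (h.nc.map φ.toRingHom).mem_cone).eq_zero)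
    h.nc.mz_one
  choose ev hev using fun x : {x // x ∈ cone (AlgebraicClosure k) n q δ E ∧ x I = 1} =>
    hl _ x.1 (fun a ha => MvPolynomial.mem_vanishingIdeal_iff.1 ha _ x.2.1) x.2.2
  have hz : ∀ b, (∀ x, (ev x).toRingHom b = 0) → b = 0 := by
    intro b hb
    obtain ⟨a, rfl⟩ := hs b
    obtain ⟨a₁, h₁, a₂, h₂, rfl⟩ := Submodule.mem_sup.1 (chart_zero (k := k)
      (fun x hx t => cone_smul hx t) I (f := a) fun x hx h1 => (hev ⟨x, hx, h1⟩ a).symm.trans
        (hb ⟨x, hx, h1⟩))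
    obtain ⟨c, rfl⟩ := Ideal.mem_span_singleton'.1 h₂
    rw [map_add, map_mul, h0 a₁ h₁, h1, mul_zero, add_zero]
  obtain ⟨v, hv⟩ : ∃ v : ∀ s : Ix N d m, Matrix (Fin (n s.1)) (Fin (δ s)) B,
      ∀ x s, (v s).map (ev x).toRingHom = emz x.1 s I :=
    ⟨fun s => Matrix.of fun r a => π (MvPolynomial.X (update I s (update (I s) a r))),
      fun x s => Matrix.ext fun r a => (hev x _).trans (MvPolynomial.aeval_X _ _)⟩
  have hv' : ∀ x, (fun s => (v s).map (ev x).toRingHom) = fun s => emz x.1 s I :=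
    fun x => funext (hv x)
  obtain ⟨g, hg⟩ := h.lift _ v (Nc.of_pts (fun x => (ev x).toRingHom) hz fun x => by
    rw [hv']; exact (hq.nc_emz x.2.1 x.2.2).1)
  have e : g.comp (MvPolynomial.aeval (mz u)) = π := by
    refine MvPolynomial.algHom_ext fun j => sub_eq_zero.1 (hz _ fun x => ?_)
    have e₁ : g (mz u j) = mz v j := (map_mz g.toRingHom j).trans (congrArg (mz · j) (funext hg))
    rw [map_sub, AlgHom.comp_apply, MvPolynomial.aeval_X, e₁, map_mz, hv',
      (hq.nc_emz x.2.1 x.2.2).2]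
    exact sub_eq_zero.2 ((hev x _).trans (MvPolynomial.aeval_X _ _)).symm
  refine smooth_retract f g fun b => ?_
  obtain ⟨a, rfl⟩ := hs b
  rw [hf]
  exact DFunLike.congr_fun e a

theorem Sch.smooth_chart (hq : Sch k q) (n : Fin N → ℕ) (δ : Ix N d m → ℕ)
    (E : Ix N d m → Set (Fin m)) (I : Sg n δ) :
    Algebra.Smooth k ((MvPolynomial (Sg n δ) k ⧸ cI k n q δ E) ⧸
      Ideal.span {crd (cI k n q δ E) I - 1}) := by
  refine aux_EG4 (E := E) (I := I) hq ((Ideal.Quotient.mkₐ k _).comp (Ideal.Quotient.mkₐ k _))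
    (Ideal.Quotient.mk_surjective.comp Ideal.Quotient.mk_surjective) (fun a ha => ?_) ?_
    fun S _ _ y hy h1 => lift_EG4 _ I y hy h1
  · rw [AlgHom.comp_apply, Ideal.Quotient.mkₐ_eq_mk, Ideal.Quotient.mkₐ_eq_mk,
      Ideal.Quotient.eq_zero_iff_mem.2 ha, map_zero]
  · rw [AlgHom.comp_apply, map_sub (Ideal.Quotient.mkₐ k (cI k n q δ E)), map_one]
    exact Ideal.Quotient.eq_zero_iff_mem.2 (Ideal.mem_span_singleton_self _)

end Pool.Agent.CXD
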