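import Pool.Agent.P.MP_2ce3e7_ag.EA4
import Pool.Agent.P.MP_2ce3e7_ag.EB2
import Pool.Agent.P.MP_2ce3e7_ag.EB5
import Pool.Agent.P.MP_2ce3e7_ag.ED1
import Pool.Agent.P.MP_2ce3e7_ag.ED2
import Pool.Agent.P.MP_2ce3e7_ag.ED5
import Pool.Agent.P.MP_2ce3e7_ag.EE2
import Pool.Agent.P.MP_2ce3e7_ag.EE6
import Pool.Agent.P.MP_2ce3e7_ag.EF1
import Pool.Agent.P.MP_2ce3e7_ag.EF4

/-! The strong Tate conjecture from the decomposition of the diagonal. -/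

set_option linter.unusedSectionVars false
set_option linter.unusedVariables false

open Function Filter
open scoped TensorProduct Polynomial LaurentPolynomial

noncomputable section

namespace Pool.Agent.CXD

variable {k A σ : Type} [Field k] [Fintype k] [CommRing A] [Algebra k A] [Fintype σ] {𝒜 : ℤ → Set A}
  {z : σ → A} {θ : A →ₐ[k] A[T;T⁻¹]} [Gd 𝒜] [Gk k 𝒜] [IsNoetherianRing A]
  [IsNoetherianRing (A ⊗[k] A)]
  {r Q : ℕ}

theorem pw_card (j : ℕ) : Pw (Fintype.card k) ((Fintype.card k : ℚ) ^ j) := by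
  obtain ⟨e, -, hp, hc, -⟩ := exists_frp k
  have h1 := Pw.zpow ⟨_, e, 1, hp, hc, one_pos, rfl⟩ j
  rwa [one_pow, one_mul, zpow_natCast] at h1

theorem Std.tate (h : Std 𝒜 z θ)
    (hT : ∀ (K : Type) [CommRing K] [Algebra k K] [IsNoetherianRing K], TG k K 𝒜 z r Q)
    (hs : ∀ i, Algebra.Smooth k (A ⧸ Ideal.span {z i - 1})) (j : ℕ) : Tate k 𝒜 z j := by
  have ha := h.atl hs
  have hr := h.rgl ha
  obtain ⟨Δ, δ, hd⟩ := h.exists_dg
  obtain ⟨β, hβ⟩ := h.exists_beta hr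
  obtain ⟨bx, hx⟩ := exists_bx (k := k) (𝒜 := 𝒜) z
  obtain ⟨T₁, h₁⟩ := h.exists_verT (hm_frb (k := k) card_smul_eq_zero)
  obtain ⟨T₂, h₂⟩ := h.exists_T2
  obtain ⟨P, hP, n, u, v, hδ⟩ := h.exists_dec hT hx h₁ h₂ (ucl _ Δ)
  obtain ⟨lam, hl, hl'⟩ := h.exists_lam hr (h.rgl2 ha) hd hx hβ
  obtain ⟨hfin, hnd, hrec⟩ := lin_main (h.pos_all _ h₁) hP (h.T2_bx hx h₁ h₂) hl hβ.symm hδ
    (h.act_eq hr hd hx h₁ h₂ hβ hδ)
  obtain ⟨D, hD, htr⟩ := trace_filt (T := T₁) (dimF k 𝒜 z) dimF_mono h.dimF_zero dimF_top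
    (fun j => (Fintype.card k : ℚ) ^ j) (h.dimF_step h₁)
  have hrk : ∀ i, Module.finrank ℚ (dimF k 𝒜 z i) = rkF k 𝒜 z i := fun i =>
    (h.numF_equiv hr hβ hnd i).elim fun e => e.finrank_eq
  have hQ : (1 : ℚ) < Fintype.card k := by exact_mod_cast Fintype.one_lt_card
  have hn : ∀ s, lam ((T₂ ^ (s + 1)) (ucl _ Δ)) = npt k z (Fintype.card k ^ (s + 1)) := fun s => by
    obtain ⟨Y, e, hY⟩ := h.exists_graph (Fintype.card k ^ (s + 1))
    obtain ⟨V, w, hV⟩ := h.exists_fix (Fintype.card k ^ (s + 1))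
    obtain ⟨V', w', hV'⟩ := h.exists_cy (H := {a | (∃ c, a ∈ cl 𝒜 c) ∧
      ∀ x : Fx k z (Fintype.card k ^ (s + 1)), x.1 a = 0}) fun a ha => ha.1
    rw [h.graph_val hd _ hY h₂, hl' Y hY.finite (h.tn ha hd s.succ_pos hY), h.fix_val hd hY hV,
      h.sat_val s.succ_pos hV hV', h.count s.succ_pos hV']
  refine ⟨(h.numF_equiv hr hβ hnd (j + 1)).elim fun e => Module.Finite.equiv e, ?_⟩
  obtain ⟨a, b, hb, hab⟩ := series_final (n := fun s => lam ((T₂ ^ s) (ucl _ Δ))) (P := P)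
    (c := fun j => (Fintype.card k : ℚ) ^ j) (ρ := rnk k 𝒜 z) (D := D)
    (pow_right_injective₀ (by linarith) hQ.ne') (fun j => by positivity)
    (fun i hi => by rw [rnk, ← hrk, ← hrk, hD i hi, sub_self]) (j := j)
    (pol_eval hP (pw_card j)) fun s => by
      refine Eq.trans ?_ (hrec s)
      simp only [htr, rnk, hrk]
  exact ⟨a, b, hb, by simpa only [hn] using hab⟩

end Pool.Agent.CXD
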