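import Pool.Agent.P.MP_2ce3e7_ag.EQ1

/-! Normalised isotropic configurations over a ring. -/

set_option linter.unusedSectionVars false
set_option linter.unusedVariables false

open Function Matrix
open scoped TensorProduct

noncomputable section

namespace Pool.Agent.CXD

variable {S S' : Type} [CommRing S] [CommRing S'] {N d m q : ℕ} {n : Fin N → ℕ} {δ : Ix N d m → ℕ}
  {E : Ix N d m → Set (Fin m)} {U : Set (Fin N)}

/-- normalised configurations -/
structure Ni (q : ℕ) (U : Set (Fin N)) (B K : ∀ b, Matrix (Fin (n b)) (Fin (n b)) S)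
    (E : Ix N d m → Set (Fin m)) (I : Sg n δ)
    (u : ∀ s : Ix N d m, Matrix (Fin (n s.1)) (Fin (δ s)) S) : Prop where
  nf : ∀ b c, Nf (l := n b) (a := fun i => δ (b, c, i)) (fun i => I (b, c, i)) fun i => u (b, c, i)
  step : ∀ b (c : Fin d) i, ∀ j ∈ E (b, c.castSucc, i),
    Sr (u (b, c.castSucc, i)) (I (b, c.castSucc, i)) (u (b, c.succ, j))
  uni : ∀ b ∈ U, ∀ i, ∀ j ∈ E (b, Fin.last d, i),
    (u (b, Fin.last d, i))ᵀ * (u (b, 0, j)).map (· ^ q) = 0
  frob : ∀ b ∉ U, ∀ i, ∀ j ∈ E (b, Fin.last d, i),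
    Sr (u (b, Fin.last d, i)) (I (b, Fin.last d, i)) ((u (b, 0, j)).map (· ^ q))
  iso : ∀ b ∉ U, ∀ c i, Io (B b) (K b) (u (b, c, i))

variable (k : Type) [Field k] in
/-- the universal normalised configuration -/
structure Ui {D : Type} [CommRing D] [Algebra k D] (q : ℕ) (U : Set (Fin N))
    (B K : ∀ b, Matrix (Fin (n b)) (Fin (n b)) k) (E : Ix N d m → Set (Fin m))
    (I : Sg n δ) (u : ∀ s : Ix N d m, Matrix (Fin (n s.1)) (Fin (δ s)) D) : Prop where
  ft : Algebra.FiniteType k D
  nc : Ni q U (fun b => (B b).map (algebraMap k D)) (fun b => (K b).map (algebraMap k D)) E I u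
  lift : ∀ (S : Type) [CommRing S] [Algebra k S]
    (v : ∀ s : Ix N d m, Matrix (Fin (n s.1)) (Fin (δ s)) S),
      Ni q U (fun b => (B b).map (algebraMap k S)) (fun b => (K b).map (algebraMap k S)) E I v →
        ∃ φ : D →ₐ[k] S, ∀ s, (u s).map φ = v s
  ext : ∀ (S : Type) [CommRing S] [Algebra k S] (φ ψ : D →ₐ[k] S),
    (∀ s, (u s).map φ = (u s).map ψ) → φ = ψ

variable {I : Sg n δ} {u : ∀ s : Ix N d m, Matrix (Fin (n s.1)) (Fin (δ s)) S}
  {B K : ∀ b, Matrix (Fin (n b)) (Fin (n b)) S}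

theorem ni_pts {X : Type} {T : X → Type} [∀ x, CommRing (T x)] (ev : ∀ x, S →+* T x)
    (hev : ∀ a, (∀ x, ev x a = 0) → a = 0) {B' K' : ∀ x b, Matrix (Fin (n b)) (Fin (n b)) (T x)}
    (hB : ∀ x b, (B b).map (ev x) = B' x b) (hK : ∀ x b, (K b).map (ev x) = K' x b)
    (h : ∀ x, Ni q U (B' x) (K' x) E I fun s => (u s).map (ev x)) : Ni q U B K E I u := by
  refine ⟨fun b c => ⟨fun i => ?_, fun i j hij => ?_⟩, fun b c i j hj => ?_,
    fun b hb i j hj => ?_, fun b hb i j hj => ?_, fun b hb c i => ?_⟩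
  · refine eq_pts_EG0 ev hev fun x => ?_
    rw [one_map_EG0]
    exact ((h x).nf b c).one i
  · exact sr_pts_EG0 ev hev fun x => ((h x).nf b c).flag i j hij
  · exact sr_pts_EG0 ev hev fun x => (h x).step b c i j hj
  · refine eq_pts_EG0 ev hev fun x => ?_
    rw [← last_map_EG0, Matrix.map_zero _ (map_zero _)]
    exact (h x).uni b hb i j hj
  · refine sr_pts_EG0 ev hev fun x => ?_
    rw [← pow_map_EG0]
    exact (h x).frob b hb i j hj
  · refine ⟨eq_pts_EG0 ev hev fun x => ?_, funext fun a => hev _ fun x => ?_⟩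
    · rw [← iso_map_EQ1, Matrix.map_zero _ (map_zero _), hB]
      exact ((h x).iso b hb c i).1
    · have := congrFun ((h x).iso b hb c i).2 a
      rw [← hK, iso_map_EQ1] at this
      exact this

theorem Ni.map (h : Ni q U B K E I u) (φ : S →+* S')
    {B' K' : ∀ b, Matrix (Fin (n b)) (Fin (n b)) S'} (hB : ∀ b, (B b).map φ = B' b)
    (hK : ∀ b, (K b).map φ = K' b) : Ni q U B' K' E I fun s => (u s).map φ := by
  refine ⟨fun b c => (h.nf b c).map φ, fun b c i j hj => (h.step b c i j hj).map φ,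
    fun b hb i j hj => ?_, fun b hb i j hj => ?_, fun b hb c i => ?_⟩
  · rw [last_map_EG0, h.uni b hb i j hj, Matrix.map_zero _ (map_zero _)]
  · rw [pow_map_EG0]
    exact (h.frob b hb i j hj).map φ
  · rw [← hB, ← hK]
    exact (h.iso b hb c i).map φ

theorem Ni.mz_one (h : Ni q U B K E I u) : mz u I = 1 := by
  unfold mz
  refine Finset.prod_eq_one fun s _ => ?_
  obtain ⟨b, c, i⟩ := s
  have := (h.nf b c).one i
  beta_reduce at this
  rw [this, Matrix.det_one]

theorem alg_map_EI0 {k : Type} [Field k] [Algebra k S] [Algebra k S'] (φ : S →ₐ[k] S')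
    {α β : Type} (C : Matrix α β k) :
    (C.map (algebraMap k S)).map (φ : S →+* S') = C.map (algebraMap k S') :=
  Matrix.ext fun _ _ => φ.commutes _

theorem exists_ui (k : Type) [Field k] (q : ℕ) (U : Set (Fin N))
    (B C : ∀ b, Matrix (Fin (n b)) (Fin (n b)) k) (E : Ix N d m → Set (Fin m)) (I : Sg n δ) :
    ∃ (D : Type) (_ : CommRing D) (_ : Algebra k D)
      (u : ∀ s : Ix N d m, Matrix (Fin (n s.1)) (Fin (δ s)) D), Ui k q U B C E I u := by
  let P : Type := MvPolynomial (Σ s : Ix N d m, Fin (n s.1) × Fin (δ s)) k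
  let V : ∀ s : Ix N d m, Matrix (Fin (n s.1)) (Fin (δ s)) P :=
    fun s => Matrix.of fun r a => MvPolynomial.X ⟨s, r, a⟩
  let X : Type := {K : Ideal P // Ni q U (fun b => (B b).map (algebraMap k (P ⧸ K)))
    (fun b => (C b).map (algebraMap k (P ⧸ K))) E I fun s => (V s).map (Ideal.Quotient.mk K)}
  let J : Ideal P := ⨅ K : X, K.1
  have hJ : ∀ K : X, J ≤ K.1 := fun K => iInf_le _ K
  refine ⟨P ⧸ J, inferInstance, inferInstance, fun s => (V s).map (Ideal.Quotient.mk J),
    inferInstance, ?_, ?_, ?_⟩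
  · refine ni_pts (T := fun K : X => P ⧸ K.1) (fun K => Ideal.Quotient.factor (hJ K)) ?_
      (B' := fun K b => (B b).map (algebraMap k (P ⧸ K.1)))
      (K' := fun K b => (C b).map (algebraMap k (P ⧸ K.1))) (fun K b => rfl) (fun K b => rfl) ?_
    · intro a ha
      obtain ⟨a, rfl⟩ := Ideal.Quotient.mk_surjective a
      refine Ideal.Quotient.eq_zero_iff_mem.2 (Ideal.mem_iInf.2 fun K => ?_)
      have := ha K
      rw [Ideal.Quotient.factor_mk] at this
      exact Ideal.Quotient.eq_zero_iff_mem.1 this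
    · intro K
      exact K.2
  · intro S _ _ v hv
    let φ : P →ₐ[k] S := MvPolynomial.aeval fun p => v p.1 p.2.1 p.2.2
    have hφ : ∀ s, (V s).map φ = v s := fun s => by
      ext r a
      exact MvPolynomial.aeval_X _ _
    have hK : Ni q U (fun b => (B b).map (algebraMap k (P ⧸ RingHom.ker (φ : P →+* S))))
        (fun b => (C b).map (algebraMap k (P ⧸ RingHom.ker (φ : P →+* S)))) E I
        fun s => (V s).map (Ideal.Quotient.mk (RingHom.ker (φ : P →+* S))) := by
      refine ni_pts (X := Unit) (T := fun _ => S)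
        (fun _ => RingHom.kerLift (φ : P →+* S)) ?_
        (B' := fun _ b => (B b).map (algebraMap k S)) (K' := fun _ b => (C b).map (algebraMap k S))
        (fun _ b => Matrix.ext fun r a => (RingHom.kerLift_mk _ _).trans (φ.commutes _))
        (fun _ b => Matrix.ext fun r a => (RingHom.kerLift_mk _ _).trans (φ.commutes _)) ?_
      · intro a ha
        exact (injective_iff_map_eq_zero _).1 (RingHom.kerLift_injective _) a (ha ())
      · intro _
        have e : (fun s => ((V s).map (Ideal.Quotient.mk (RingHom.ker (φ : P →+* S)))).map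
            (RingHom.kerLift (φ : P →+* S))) = v := by
          funext s
          rw [← hφ s]
          ext r a
          simp only [Matrix.map_apply, RingHom.kerLift_mk]
          rfl
        rw [e]
        exact hv
    refine ⟨Ideal.Quotient.liftₐ J φ fun a ha => hJ ⟨_, hK⟩ ha, fun s => ?_⟩
    rw [← hφ s]
    rfl
  · intro S _ _ φ ψ h
    refine Ideal.Quotient.algHom_ext k (MvPolynomial.algHom_ext fun p => ?_)
    exact congrFun (congrFun (h p.1) p.2.1) p.2.2

end Pool.Agent.CXD
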