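import Pool.Agent.P.MP_2ce3e7_ag.EQ1

/-! Lifting of isotropic subspaces and flags. -/

set_option linter.unusedSectionVars false
set_option linter.unusedVariables false

open Function Matrix
open scoped TensorProduct

noncomputable section

namespace Pool.Agent.CXD

variable {S : Type} [CommRing S] {J : Ideal S} {l m : ℕ}

theorem Zr_EG1.smul {α β : Type} {M : Matrix α β S} (h : Zr_EG1 J M) (t : S) :
    Zr_EG1 J (t • M) := fun i j => J.mul_mem_left t (h i j)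

theorem Zr_EG1.tr {α β : Type} {M : Matrix α β S} (h : Zr_EG1 J M) : Zr_EG1 J Mᵀ :=
  fun i j => h j i

theorem lift_iso (hJ : J ^ 2 = ⊥) {B K : Matrix (Fin l) (Fin l) S} (hB : Bfq B K) {a b : ℕ}
    (r : Fin b → Fin l) {W : Matrix (Fin l) (Fin a) S} {r' : Fin a → Fin l}
    (hW : W.submatrix r' id = 1) (hBW : Io B K W) {V₀ : Matrix (Fin l) (Fin b) S}
    (h1 : Cg J (V₀.submatrix r id) 1)
    (h2 : Io (B.map (Ideal.Quotient.mk J)) (K.map (Ideal.Quotient.mk J))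
      (V₀.map (Ideal.Quotient.mk J)))
    (h3 : Cg J W (V₀ * W.submatrix r id)) :
    ∃ V, Cg J V V₀ ∧ V.submatrix r id = 1 ∧ Io B K V ∧ Sr V r W := by
  obtain ⟨V₁, a1, a2, -, a3⟩ := lift_sub hJ r (π := 0) (Matrix.zero_mul _) hW (Matrix.zero_mul _)
    h1 (by rw [Matrix.zero_mul]; rfl) h3
  have hc := hB.cp
  have hB' := hB.map (Ideal.Quotient.mk J)
  rcases hB with ⟨rfl, rfl⟩ | ⟨B', ρ, μ, c, b1, b2, b3, b4⟩
  · exact ⟨V₁, a1, a2, ⟨by rw [Matrix.mul_zero, Matrix.zero_mul],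
      by rw [Matrix.mul_zero, Matrix.zero_mul]; rfl⟩, a3⟩
  suffices h : ∃ V : Matrix (Fin l) (Fin b) S, Zr_EG1 J (V - V₁) ∧
      (1 : Matrix (Fin l) (Fin l) S).submatrix r id * V = 1 ∧
      Io B K V ∧ W = V * ((1 : Matrix (Fin l) (Fin l) S).submatrix r id * W) by
    obtain ⟨V, v1, v2, v3, v4⟩ := h
    exact ⟨V, (cg_EG1.2 v1).trans a1, (row_EG1 r V).trans v2, v3, v4.trans (by rw [← row_EG1])⟩
  rw [← (show V₁.map _ = V₀.map _ from a1)] at h2
  unfold Sr at a3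
  rw [row_EG1 r] at a2 a3
  rw [row_EG1 r'] at hW
  generalize (1 : Matrix (Fin l) (Fin l) S).submatrix r id = R at *
  generalize (1 : Matrix (Fin l) (Fin l) S).submatrix r' id = R' at *
  obtain ⟨L, hL⟩ : ∃ L : Matrix (Fin b) (Fin l) S, Zr_EG1 J (L * (B * V₁) - 1) := by
    have hR : R.map (Ideal.Quotient.mk J) * V₁.map (Ideal.Quotient.mk J) = 1 := by
      rw [← Matrix.map_mul, a2, one_map_EG0]
    obtain ⟨c1, c2, c3⟩ := reg_map b1 b2 b3 (Ideal.Quotient.mk J)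
    obtain ⟨L', hL⟩ := h2.inv c1 c2 c3 hB'.cp hR
    choose L hL' using fun i j => Ideal.Quotient.mk_surjective (L' i j)
    refine ⟨Matrix.of L, cg_EG1.1 ?_⟩
    unfold Cg
    rw [Matrix.map_mul, Matrix.map_mul, one_map_EG0, ← hL]
    exact congrArg (· * _) (Matrix.ext hL')
  obtain ⟨C, hC⟩ : ∃ C, C = R * W := ⟨_, rfl⟩
  rw [← hC] at a3 ⊢
  obtain ⟨G, hG⟩ : ∃ G, G = V₁ᵀ * B * V₁ := ⟨_, rfl⟩
  obtain ⟨M, hM⟩ : ∃ M, M = V₁ᵀ * K * V₁ := ⟨_, rfl⟩
  have g0 : Zr_EG1 J G := fun i j => Ideal.Quotient.eq_zero_iff_mem.1 (by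
    have := h2.1
    rw [iso_map_EQ1, ← hG] at this
    exact congrFun (congrFun this i) j)
  have m0 : ∀ i, M i i ∈ J := fun i => Ideal.Quotient.eq_zero_iff_mem.1 (by
    have := h2.2
    rw [iso_map_EQ1, ← hM] at this
    exact congrFun this i)
  obtain ⟨e, he, hT, hd, he'⟩ : ∃ e : S, e * e = 1 ∧ Bᵀ = e • B ∧
      (∀ i, G i i = (1 + e) * M i i) ∧ (B = K + Kᵀ ∧ e = 1 ∨ K = 0) := by
    rcases b4 with b4 | ⟨b6, b4, b5⟩
    · refine ⟨1, one_mul _, by rw [one_smul, b4, transpose_add, transpose_transpose, add_comm],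
        fun i => ?_, Or.inl ⟨b4, rfl⟩⟩
      rw [hG, b4, ← sym_EQ1, ← hM, add_mul, one_mul]
      rfl
    · refine ⟨-1, by ring, by rw [b4, neg_smul, one_smul], fun i => ?_, Or.inr b6⟩
      have := alt_qv (A := B) (by rw [b4, add_neg_cancel]) b5 (V₁ *ᵥ Pi.single i 1)
      rw [← qv_EQ1, ← hG, mulVec_single_one, single_one_dotProduct] at this
      rw [add_neg_cancel, zero_mul]
      exact this
  have gT : e • Gᵀ = G := by
    rw [hG, transpose_mul, transpose_mul, transpose_transpose, hT, Matrix.smul_mul, Matrix.mul_smul,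
      smul_smul, he, one_smul, Matrix.mul_assoc]
  obtain ⟨T, hT'⟩ : ∃ T, T = hf_EQ1 G M := ⟨_, rfl⟩
  have t0 : Zr_EG1 J T := fun i j => by
    rw [hT', hf_EQ1, of_apply]
    split_ifs
    exacts [g0 i j, m0 i, J.zero_mem]
  have t1 : T + e • Tᵀ = G := hT' ▸ hf_add gT hd
  have t2 : ∀ i, T i i = M i i := fun i => by
    rw [hT', hf_EQ1, of_apply, if_neg (lt_irrefl _), if_pos rfl]
  obtain ⟨P, hP⟩ : ∃ P, P = C * (R' * V₁) := ⟨_, rfl⟩
  obtain ⟨Q, hQ⟩ : ∃ Q, Q = 1 - P := ⟨_, rfl⟩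
  have pC : Q * C = 0 := by
    rw [hQ, Matrix.sub_mul, hP, Matrix.mul_assoc, Matrix.mul_assoc, ← a3, hW, Matrix.mul_one,
      Matrix.one_mul, sub_self]
  have pW : Io B K (V₁ * P) := by
    rw [hP, ← Matrix.mul_assoc, ← a3]
    exact hBW.mul hc _
  have pG : Pᵀ * G * P = 0 := by
    rw [← pW.1, hG, transpose_mul]
    simp only [Matrix.mul_assoc]
  have pQ : P + Q = 1 := by rw [hQ, add_sub_cancel]
  obtain ⟨H, hH⟩ : ∃ H, H = -(Pᵀ * G * Q + Qᵀ * T * Q) := ⟨_, rfl⟩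
  have h0 : Zr_EG1 J H := fun i j => hH ▸
    J.neg_mem ((((g0.left _).right _).add ((t0.left _).right _)) i j)
  have hHC : H * C = 0 := by
    rw [hH, Matrix.neg_mul, Matrix.add_mul, Matrix.mul_assoc _ Q, Matrix.mul_assoc _ Q, pC,
      Matrix.mul_zero, Matrix.mul_zero, add_zero, neg_zero]
  have hHG : G + H + e • Hᵀ = 0 := by
    have k1 : e • Hᵀ = -(Qᵀ * G * P + Qᵀ * (e • Tᵀ) * Q) := by
      conv_rhs => rw [← gT]
      simp only [hH, transpose_neg, transpose_add, transpose_mul, transpose_transpose, smul_neg,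
        smul_add, Matrix.mul_smul, Matrix.smul_mul, Matrix.mul_assoc]
    have k2 : G = (P + Q)ᵀ * G * (P + Q) := by
      rw [pQ, transpose_one, Matrix.one_mul, Matrix.mul_one]
    have k3 : Qᵀ * G * Q = Qᵀ * T * Q + Qᵀ * (e • Tᵀ) * Q := by
      rw [← t1, Matrix.mul_add, Matrix.add_mul]
    rw [transpose_add, Matrix.add_mul, Matrix.add_mul, Matrix.mul_add, Matrix.mul_add, pG, k3] at k2
    rw [k1, hH]
    nth_rewrite 1 [k2]
    abel
  obtain ⟨D, hD⟩ : ∃ D, D = e • Lᵀ * H := ⟨_, rfl⟩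
  have d0 : Zr_EG1 J D := hD ▸ h0.left _
  have dC : D * C = 0 := by rw [hD, Matrix.mul_assoc, hHC, Matrix.mul_zero]
  have d1 : V₁ᵀ * B * D = H := by
    have := hL.tr.zero hJ h0
    rw [transpose_sub, transpose_one, Matrix.sub_mul, Matrix.one_mul, sub_eq_zero, transpose_mul,
      transpose_mul, hT] at this
    rw [← this, hD]
    simp only [Matrix.mul_smul, Matrix.smul_mul, Matrix.mul_assoc]
  have d2 : Dᵀ * B * V₁ = e • Hᵀ := by
    rw [← d1, transpose_mul, transpose_mul, transpose_transpose, hT, Matrix.smul_mul,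
      Matrix.mul_smul, smul_smul, he, one_smul, Matrix.mul_assoc]
  have d3 : Io B K (V₁ + D) := by
    refine io_of ?_ fun x => ?_
    · rw [transpose_add, Matrix.add_mul, Matrix.add_mul, Matrix.mul_add, Matrix.mul_add, ← hG, d1,
        d2, Zr_EG1.zero hJ (d0.tr.right B) d0, add_zero, hHG]
    rcases he' with ⟨b4, rfl⟩ | rfl
    swap
    · rw [zero_mulVec, dotProduct_zero]
    have g1 : M + Mᵀ = G := by rw [hM, sym_EQ1, ← b4, hG]
    have k0 : T + Tᵀ = G := by rw [← t1, one_smul]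
    have k1 := alt_qv (A := T - M) (by rw [transpose_sub, sub_add_sub_comm, k0, g1, sub_self])
      (funext fun i => sub_eq_zero.2 (t2 i)) (Q *ᵥ x)
    have k2 := pW.qv hc x
    have k3 : x ⬝ᵥ (V₁ᵀ * B * D) *ᵥ x = x ⬝ᵥ H *ᵥ x := by rw [d1]
    have k4 : x ⬝ᵥ (Dᵀ * K * D) *ᵥ x = 0 := by
      rw [Zr_EG1.zero hJ (d0.tr.right K) d0, zero_mulVec, dotProduct_zero]
    have k5 : V₁ *ᵥ x = V₁ *ᵥ (P *ᵥ x) + V₁ *ᵥ (Q *ᵥ x) := by
      rw [← mulVec_add, ← add_mulVec, pQ, one_mulVec]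
    rw [hH, neg_mulVec, add_mulVec, dotProduct_neg, dotProduct_add, qv_EQ1, qv_EQ1, qv_EQ1, hG,
      qv_EQ1, b4, add_mulVec K, add_mulVec K, dotProduct_add, dotProduct_add, tr_EQ1, tr_EQ1] at k3
    rw [sub_mulVec, dotProduct_sub, hM, qv_EQ1] at k1
    rw [← mulVec_mulVec] at k2
    rw [qv_EQ1] at k4
    rw [add_mulVec]
    rw [k5] at k3 ⊢
    simp only [mulVec_add, add_dotProduct, dotProduct_add] at k3 ⊢
    linear_combination k3 + k2 + k4 - k1
  have c1 : Zr_EG1 J (R * D) := d0.left R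
  refine ⟨(V₁ + D) * (1 - R * D), ?_, ?_, d3.mul hc _, ?_⟩
  · rw [Matrix.mul_sub, Matrix.mul_one, sub_right_comm, add_sub_cancel_left]
    exact d0.sub (c1.left _)
  · rw [← Matrix.mul_assoc, Matrix.mul_add, a2, Matrix.mul_sub, Matrix.mul_one, Matrix.add_mul,
      c1.zero hJ c1, Matrix.one_mul, add_zero, add_sub_cancel_right]
  · rw [Matrix.mul_assoc, Matrix.sub_mul, Matrix.mul_assoc, dC, Matrix.mul_zero, sub_zero,
      Matrix.one_mul, Matrix.add_mul, dC, add_zero]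
    exact a3

variable {a a' : Fin m → ℕ} {r : ∀ i, Fin (a i) → Fin l} {r' : ∀ i, Fin (a' i) → Fin l}
  {W : ∀ i, Matrix (Fin l) (Fin (a' i)) S} {V₀ : ∀ i, Matrix (Fin l) (Fin (a i)) S}

theorem lift_lowi (hJ : J ^ 2 = ⊥) {B K : Matrix (Fin l) (Fin l) S} (hB : Bfq B K)
    (hW : Nf r' W) (hBW : ∀ j, Io B K (W j)) (E : Fin m → Set (Fin m))
    (h1 : Nf r fun i => (V₀ i).map (Ideal.Quotient.mk J))
    (h0 : ∀ i, Io (B.map (Ideal.Quotient.mk J)) (K.map (Ideal.Quotient.mk J))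
      ((V₀ i).map (Ideal.Quotient.mk J)))
    (h2 : ∀ i, ∀ j ∈ E i,
      Sr ((V₀ i).map (Ideal.Quotient.mk J)) (r i) ((W j).map (Ideal.Quotient.mk J))) :
    ∃ V : ∀ i, Matrix (Fin l) (Fin (a i)) S, (∀ i, Cg J (V i) (V₀ i)) ∧ Nf r V ∧
      (∀ i, Io B K (V i)) ∧ ∀ i, ∀ j ∈ E i, Sr (V i) (r i) (W j) := by
  rcases m with _ | m
  · exact ⟨V₀, fun i => i.elim0, ⟨fun i => i.elim0, fun i => i.elim0⟩, fun i => i.elim0,
      fun i => i.elim0⟩
  have g1 : Cg J ((V₀ (Fin.last m)).submatrix (r (Fin.last m)) id) 1 :=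
    (h1.one (Fin.last m)).trans (Matrix.map_one _ (map_zero _) (map_one _)).symm
  obtain ⟨U, u1, u2, u3, u4⟩ : ∃ U, Cg J U (V₀ (Fin.last m)) ∧
      U.submatrix (r (Fin.last m)) id = 1 ∧ Io B K U ∧
      ∀ i, ∀ j ∈ E i, Sr U (r (Fin.last m)) (W j) := by
    rcases (⋃ i, E i).eq_empty_or_nonempty with h | h
    · obtain ⟨U, u1, u2, u3, -⟩ := lift_iso hJ hB (r (Fin.last m)) (W := 0) (r' := Fin.elim0)
        (Subsingleton.elim _ _) ⟨Subsingleton.elim _ _, Subsingleton.elim _ _⟩ g1 (h0 _)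
        (Subsingleton.elim _ _)
      exact ⟨U, u1, u2, u3, fun i j hj =>
        absurd (h ▸ Set.mem_iUnion.2 ⟨i, hj⟩) (Set.notMem_empty j)⟩
    · obtain ⟨j₀, hj₀, hmax⟩ := Set.exists_max_image _ id (Set.toFinite _) h
      obtain ⟨i₀, hi₀⟩ := Set.mem_iUnion.1 hj₀
      obtain ⟨U, u1, u2, u3, u4⟩ := lift_iso hJ hB (r (Fin.last m)) (hW.one j₀) (hBW j₀) g1
        (h0 _) (sr_EG1.2 ((h1.flag i₀ _ (Fin.le_last _)).trans (h2 i₀ j₀ hi₀)))
      exact ⟨U, u1, u2, u3, fun i j hj =>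
        u4.trans (hW.flag j j₀ (hmax j (Set.mem_iUnion.2 ⟨i, hj⟩)))⟩
  have hp : ∀ {b : ℕ} (M : Matrix (Fin l) (Fin b) S),
      (1 - U * (1 : Matrix (Fin l) (Fin l) S).submatrix (r (Fin.last m)) id) * M
        = M - U * M.submatrix (r (Fin.last m)) id := fun M => by
    rw [Matrix.sub_mul, Matrix.one_mul, Matrix.mul_assoc, ← row_EG1]
  obtain ⟨V, v1, v2, v3, v4⟩ := low_EG1 hJ hW (m + 1) a r V₀ E
    (1 - U * (1 : Matrix (Fin l) (Fin l) S).submatrix (r (Fin.last m)) id)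
    (by
      rw [Matrix.mul_sub, Matrix.mul_one, ← Matrix.mul_assoc, hp U, u2, Matrix.mul_one, sub_self,
        Matrix.zero_mul, sub_zero])
    (fun i j hj => (hp _).trans (sub_eq_zero.2 (u4 _ j hj)))
    (fun i => by
      have k1 := cg_EG1.1 (sr_EG1.2 (h1.flag i _ (Fin.le_last _)))
      have k2 := k1.sub ((cg_EG1.1 u1).right ((V₀ i).submatrix (r (Fin.last m)) id))
      rw [Matrix.sub_mul, sub_sub, add_sub_cancel] at k2
      rwa [cg_EG1, sub_zero, hp]) h1 h2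
  refine ⟨V, v1, v2, fun i => ?_, v3⟩
  have v5 : V i = U * (V i).submatrix (r (Fin.last m)) id :=
    sub_eq_zero.1 ((hp _).symm.trans (v4 i))
  generalize (V i).submatrix (r (Fin.last m)) id = C at v5
  rw [v5]
  exact u3.mul hB.cp _

end Pool.Agent.CXD
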