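import Pool.Agent.P.MP_2ce3e7_ag.EI0
import Pool.Agent.P.MP_2ce3e7_ag.EI1
import Pool.Agent.P.MP_2ce3e7_ag.EG3

/-! Lifting of isotropic configurations. -/

set_option linter.unusedSectionVars false
set_option linter.unusedVariables false

open Function Matrix
open scoped TensorProduct

noncomputable section

namespace Pool.Agent.CXD

variable {S : Type} [CommRing S] {J : Ideal S} {N d m q : ℕ} {n : Fin N → ℕ} {δ : Ix N d m → ℕ}
  {E : Ix N d m → Set (Fin m)} {I : Sg n δ} {U : Set (Fin N)}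

theorem ni_lift (hJ : J ^ 2 = ⊥) (fq : S →+* S) (hq : ∀ a, fq a = a ^ q) (h2 : 1 < q)
    {B K : ∀ b, Matrix (Fin (n b)) (Fin (n b)) S}
    (hB : ∀ b ∉ U, Bfq (B b) (K b) ∧ (B b).map fq = B b ∧ (K b).map fq = K b)
    {u₀ : ∀ s : Ix N d m, Matrix (Fin (n s.1)) (Fin (δ s)) S}
    (h : Ni q U (fun b => (B b).map (Ideal.Quotient.mk J))
      (fun b => (K b).map (Ideal.Quotient.mk J)) E I fun s => (u₀ s).map (Ideal.Quotient.mk J)) :
    ∃ u : ∀ s : Ix N d m, Matrix (Fin (n s.1)) (Fin (δ s)) S,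
      (∀ s, Cg J (u s) (u₀ s)) ∧ Ni q U B K E I u := by
  have hk : ∀ a ∈ J, fq a = 0 := by
    intro a ha
    obtain ⟨t, rfl⟩ := Nat.exists_eq_add_of_le (show 2 ≤ q from h2)
    have h0 : a ^ 2 = 0 := by
      rw [← Ideal.mem_bot, ← hJ]
      exact Ideal.pow_mem_pow ha 2
    rw [hq, pow_add, h0, zero_mul]
  have hW : ∀ {α β : Type} (M : Matrix α β S),
      (M.map (Ideal.Quotient.mk J)).map (Ideal.Quotient.lift J fq hk) = M.map fq :=
    fun M => Matrix.ext fun _ _ => rfl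
  have hp : ∀ {α β : Type} (M : Matrix α β S), M.map (· ^ q) = M.map fq :=
    fun M => Matrix.ext fun _ _ => (hq _).symm
  have he : ∀ {α β : Type} (M : Matrix α β S), (M.map fq).map (Ideal.Quotient.mk J) =
      (M.map (Ideal.Quotient.mk J)).map (· ^ q) :=
    fun M => Matrix.ext fun _ _ => by simp only [Matrix.map_apply, hq, map_pow]
  have hi := h.iso
  have hf0 : ∀ b ∉ U, ∀ j, Io (B b) (K b) ((u₀ (b, 0, j)).map fq) := fun b hb j => by
    have e := (hi b hb 0 j).map (Ideal.Quotient.lift J fq hk)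
    rwa [hW, hW, hW, (hB b hb).2.1, (hB b hb).2.2] at e
  have key : ∀ b : Fin N, ∃ f : ∀ c : Fin (d + 1),
      {V : ∀ i, Matrix (Fin (n b)) (Fin (δ (b, c, i))) S // (∀ i, Cg J (V i) (u₀ (b, c, i))) ∧
        Nf (l := n b) (a := fun i => δ (b, c, i)) (fun i => I (b, c, i)) V ∧
        (b ∉ U → ∀ i, Io (B b) (K b) (V i))},
      (∀ i, ∀ j ∈ E (b, Fin.last d, i),
        (b ∈ U → ((f (Fin.last d)).1 i)ᵀ * (u₀ (b, 0, j)).map fq = 0) ∧
        (b ∉ U → Sr ((f (Fin.last d)).1 i) (I (b, Fin.last d, i)) ((u₀ (b, 0, j)).map fq))) ∧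
      ∀ c : Fin d, ∀ i, ∀ j ∈ E (b, c.castSucc, i),
        Sr ((f c.castSucc).1 i) (I (b, c.castSucc, i)) ((f c.succ).1 j) := by
    intro b
    have h1 := (h.nf b 0).map (Ideal.Quotient.lift J fq hk)
    simp only [hW] at h1
    refine chain_EG2 (T := fun c => {V : ∀ i, Matrix (Fin (n b)) (Fin (δ (b, c, i))) S //
        (∀ i, Cg J (V i) (u₀ (b, c, i))) ∧
        Nf (l := n b) (a := fun i => δ (b, c, i)) (fun i => I (b, c, i)) V ∧
        (b ∉ U → ∀ i, Io (B b) (K b) (V i))})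
      (P := fun x => ∀ i, ∀ j ∈ E (b, Fin.last d, i),
        (b ∈ U → (x.1 i)ᵀ * (u₀ (b, 0, j)).map fq = 0) ∧
        (b ∉ U → Sr (x.1 i) (I (b, Fin.last d, i)) ((u₀ (b, 0, j)).map fq)))
      (R := fun c x y => ∀ i, ∀ j ∈ E (b, c.castSucc, i),
        Sr (x.1 i) (I (b, c.castSucc, i)) (y.1 j)) ?_ fun c y => ?_
    · by_cases hb : b ∈ U
      · obtain ⟨V, h3, h4, h5⟩ := lift_up (V₀ := fun i => u₀ (b, Fin.last d, i)) hJ h1
          (fun i => E (b, Fin.last d, i)) (h.nf b (Fin.last d)) fun i j hj => by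
            unfold Cg
            rw [Matrix.map_mul, he, Matrix.transpose_map, h.uni b hb i j hj,
              Matrix.map_zero _ (map_zero _)]
        exact ⟨⟨V, h3, h4, fun h' => absurd hb h'⟩,
          fun i j hj => ⟨fun _ => h5 i j hj, fun h' => absurd hb h'⟩⟩
      · obtain ⟨V, h3, h4, h5, h6⟩ := lift_lowi (l := n b) (a := fun i => δ (b, Fin.last d, i))
          (V₀ := fun i => u₀ (b, Fin.last d, i)) hJ
          (hB b hb).1 h1 (hf0 b hb)
          (fun i => E (b, Fin.last d, i)) (h.nf b (Fin.last d)) (hi b hb (Fin.last d))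
          fun i j hj => by
            rw [he]
            exact h.frob b hb i j hj
        exact ⟨⟨V, h3, h4, fun _ => h5⟩, fun i j hj => ⟨fun h' => absurd h' hb, fun _ => h6 i j hj⟩⟩
    · by_cases hb : b ∈ U
      · obtain ⟨V, h3, h4, h5⟩ := lift_low (V₀ := fun i => u₀ (b, c.castSucc, i)) hJ y.2.2.1
          (fun i => E (b, c.castSucc, i)) (h.nf b c.castSucc) fun i j hj => by
            rw [y.2.1 j]
            exact h.step b c i j hj
        exact ⟨⟨V, h3, h4, fun h' => absurd hb h'⟩, h5⟩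
      · obtain ⟨V, h3, h4, h5, h6⟩ := lift_lowi (l := n b) (a := fun i => δ (b, c.castSucc, i))
          (V₀ := fun i => u₀ (b, c.castSucc, i)) hJ
          (hB b hb).1 y.2.2.1 (y.2.2.2 hb) (fun i => E (b, c.castSucc, i)) (h.nf b c.castSucc)
          (hi b hb c.castSucc) fun i j hj => by
            rw [y.2.1 j]
            exact h.step b c i j hj
        exact ⟨⟨V, h3, h4, fun _ => h5⟩, h6⟩
  choose f hf hf' using key
  have e : ∀ b j, ((f b 0).1 j).map (· ^ q) = (u₀ (b, 0, j)).map fq := fun b j => by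
    rw [hp, ← hW, (f b 0).2.1 j, hW]
  refine ⟨fun s => (f s.1 s.2.1).1 s.2.2, fun s => (f s.1 s.2.1).2.1 s.2.2,
    fun b c => (f b c).2.2.1, fun b c => hf' b c, fun b hb i j hj => ?_, fun b hb i j hj => ?_,
    fun b hb c => (f b c).2.2.2 hb⟩
  · exact (congrArg (fun M => ((f b (Fin.last d)).1 i)ᵀ * M) (e b j)).trans ((hf b i j hj).1 hb)
  · exact (congrArg (Sr ((f b (Fin.last d)).1 i) (I (b, Fin.last d, i))) (e b j)).mpr
      ((hf b i j hj).2 hb)

variable {k : Type} [Field k]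

theorem Ui.smooth (hq : Sch k q) {B K : ∀ b, Matrix (Fin (n b)) (Fin (n b)) k}
    (hB : ∀ b ∉ U, Bfq (B b) (K b) ∧ (B b).map (· ^ q) = B b ∧ (K b).map (· ^ q) = K b)
    {D : Type} [CommRing D] [Algebra k D]
    {u : ∀ s : Ix N d m, Matrix (Fin (n s.1)) (Fin (δ s)) D} (h : Ui k q U B K E I u) :
    Algebra.Smooth k D := by
  refine ⟨.of_comp_surjective fun C _ _ J hJ g => ?_,
    Algebra.FinitePresentation.of_finiteType.1 h.ft⟩
  obtain ⟨fq, hfq⟩ := hq.exists_hom C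
  have h0 : ∀ s, ∃ v : Matrix (Fin (n s.1)) (Fin (δ s)) C,
      v.map (Ideal.Quotient.mk J) = (u s).map (g : D →+* C ⧸ J) := fun s => by
    choose v hv using fun r a => Ideal.Quotient.mk_surjective (g (u s r a))
    exact ⟨Matrix.of v, Matrix.ext fun r a => hv r a⟩
  choose u₀ hu₀ using h0
  have hm : ∀ {l : ℕ} (M : Matrix (Fin l) (Fin l) k), M.map (· ^ q) = M →
      (M.map (algebraMap k C)).map fq = M.map (algebraMap k C) := fun M hM => by
    ext r a
    have := congrFun (congrFun hM r) a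
    simp only [Matrix.map_apply] at this ⊢
    rw [hfq, ← map_pow, this]
  obtain ⟨v, hv, hn⟩ := ni_lift (E := E) (I := I) (U := U) (u₀ := u₀) hJ fq hfq hq.lt
    (B := fun b => (B b).map (algebraMap k C)) (K := fun b => (K b).map (algebraMap k C))
    (fun b hb => ⟨(hB b hb).1.map _, hm _ (hB b hb).2.1, hm _ (hB b hb).2.2⟩) (by
    simp only [hu₀]
    exact h.nc.map (g : D →+* C ⧸ J) (fun b => alg_map_EI0 g _) fun b => alg_map_EI0 g _)
  obtain ⟨φ, hφ⟩ := h.lift C v hn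
  refine ⟨φ, h.ext _ _ _ fun s => ?_⟩
  have e : (v s).map (Ideal.Quotient.mk J) = (u s).map (g : D →+* C ⧸ J) := (hv s).trans (hu₀ s)
  rw [← hφ s] at e
  exact e

end Pool.Agent.CXD
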