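import Pool.Agent.P.MP_2ce3e7_ag.EI2
import Pool.Agent.P.MP_2ce3e7_ag.EG4
import Pool.Agent.P.MP_2ce3e7_ag.SS0
import Pool.Agent.P.MP_2ce3e7_ag.TY0

/-! The charts of the varieties of isotropic configurations are smooth. -/

set_option linter.unusedSectionVars false
set_option linter.unusedVariables false

open Function Matrix
open scoped TensorProduct

noncomputable section

namespace Pool.Agent.CXD

variable {k Ω : Type} [Field k] [Field Ω] [Algebra k Ω] {N d m q : ℕ} {n : Fin N → ℕ}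
  {δ : Ix N d m → ℕ} {E : Ix N d m → Set (Fin m)} {I : Sg n δ} {U : Set (Fin N)}

section
variable {S S' : Type} [CommRing S] [CommRing S'] {l a : ℕ} {J K : Matrix (Fin l) (Fin l) S}
  {V : Matrix (Fin l) (Fin a) S}

theorem cp_EI3 (h : J = 0 ∨ K = 0) : J + (K + Kᵀ) = K + Kᵀ ∨ K = 0 :=
  h.imp_left fun h => by rw [h, zero_add]

theorem Io.out (h : Io (J + (K + Kᵀ)) K V) (h0 : J = 0 ∨ K = 0) : Vᵀ * J * V = 0 := by
  rcases h0 with rfl | rfl
  · rw [Matrix.mul_zero, Matrix.zero_mul]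
  · simpa only [transpose_zero, add_zero] using h.1

theorem io_in (h : Vᵀ * J * V = 0) (h' : ∀ x, (V *ᵥ x) ⬝ᵥ K *ᵥ (V *ᵥ x) = 0) :
    Io (J + (K + Kᵀ)) K V := by
  refine io_of ?_ h'
  rw [Matrix.mul_add, Matrix.add_mul, h, zero_add, ← sym_EQ1,
    alt_skew fun x => (qv_EQ1 V V K x x).trans (h' x), add_neg_cancel]

theorem bj_map (J K : Matrix (Fin l) (Fin l) S) (φ : S →+* S') :
    (J + (K + Kᵀ)).map φ = J.map φ + (K.map φ + (K.map φ)ᵀ) := by
  rw [Matrix.map_add _ (map_add φ), Matrix.map_add _ (map_add φ), Matrix.transpose_map]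

end

theorem Ni.mem {J K : ∀ b, Matrix (Fin (n b)) (Fin (n b)) Ω} (h0 : ∀ b ∉ U, J b = 0 ∨ K b = 0)
    {u : ∀ s : Ix N d m, Matrix (Fin (n s.1)) (Fin (δ s)) Ω}
    (h : Ni q U (fun b => J b + (K b + (K b)ᵀ)) K E I u) : mz u ∈ cns q δ U J K E :=
  ⟨1, u, ⟨fun b c i j hij => ⟨_, (h.nf b c).flag i j hij⟩, fun b c i j hj => ⟨_, h.step b c i j hj⟩,
    h.uni, fun b hb i j hj => ⟨_, h.frob b hb i j hj⟩, fun b hb c i => (h.iso b hb c i).out (h0 b hb),
    fun b hb c i => (h.iso b hb c i).qv (cp_EI3 (h0 b hb))⟩, fun J => (one_mul _).symm⟩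

theorem smul_EI3 {B K : ∀ b, Matrix (Fin (n b)) (Fin (n b)) Ω} {x : Sg n δ → Ω}
    (hx : x ∈ cns q δ U B K E) (c : Ω) : c • x ∈ cns q δ U B K E := by
  obtain ⟨t, u, hu, h⟩ := hx
  exact ⟨c * t, u, hu, fun J => by rw [Pi.smul_apply, h, smul_eq_mul, mul_assoc]⟩

theorem Sch.ni_emz (hq : Sch k q) {B K : ∀ b, Matrix (Fin (n b)) (Fin (n b)) Ω}
    (h0 : ∀ b ∉ U, B b = 0 ∨ K b = 0) {x : Sg n δ → Ω}
    (hx : x ∈ cns q δ U B K E) (h1 : x I = 1) :
    Ni q U (fun b => B b + (K b + (K b)ᵀ)) K E I (fun s => emz x s I) ∧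
      mz (fun s => emz x s I) = x := by
  obtain ⟨t, u, hu, h⟩ := hx
  replace h : ∀ I, x I = t * mnz u I := h
  have hx : x ∈ cone Ω n q δ fun _ => ∅ :=
    ⟨t, u, ⟨hu.flag, fun _ _ _ _ h => h.elim, fun _ _ _ h => h.elim⟩, h⟩
  refine ⟨⟨(hq.nc_emz hx h1).1.nf, fun b c i j hj => ?_, fun b hb i j hj => ?_,
    fun b hb i j hj => ?_, fun b hb c i => ?_⟩, (hq.nc_emz hx h1).2⟩
  · obtain ⟨w, hw⟩ := hu.step b c i j hj
    exact sr_EG4 h1 fun a => ins_emz h w hw I a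
  · rw [emz_eq h, emz_eq h, ← Matrix.mul_smul, ← Matrix.mul_smul]
    exact hq.pp_mul (hu.uni b hb i j hj) _ _
  · obtain ⟨w, hw⟩ := hu.frob b hb i j hj
    refine sr_EG4 h1 fun a => ?_
    rw [emz_eq h, ← Matrix.mul_smul]
    generalize ((_ : Ω) • Matrix.adjugate _ : Matrix (Fin (δ (b, 0, j))) (Fin (δ (b, 0, j))) Ω) = A
    have e : (u (b, 0, j) * A).map (· ^ q) = u (b, Fin.last d, i) * (w * fm q A) := by
      rw [← Matrix.mul_assoc, ← hw]
      exact hq.fm_mul _ _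
    rw [e, ← mulVec_single_one, ← mulVec_mulVec]
    exact ins_mulVec h _ _
  · rw [emz_eq h, ← Matrix.mul_smul]
    exact (io_in (hu.iso b hb c i) (hu.sing b hb c i)).mul (cp_EI3 (h0 b hb)) _

variable {J K : ∀ b, Matrix (Fin (n b)) (Fin (n b)) k}

/-- what is used of the forms -/
def Bfs (q : ℕ) {l : ℕ} (J K : Matrix (Fin l) (Fin l) k) : Prop :=
  (J = 0 ∨ K = 0) ∧ Bfq (J + (K + Kᵀ)) K ∧ (J + (K + Kᵀ)).map (· ^ q) = J + (K + Kᵀ) ∧
    K.map (· ^ q) = K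

theorem aux_EI3 (hq : Sch k q) (hB : ∀ b ∉ U, Bfs q (J b) (K b))
    {B : Type} [CommRing B] [Algebra k B]
    (π : MvPolynomial (Sg n δ) k →ₐ[k] B) (hs : Surjective π) (h0 : ∀ a ∈ sI q δ U J K E, π a = 0)
    (h1 : π (MvPolynomial.X I - 1) = 0)
    (hl : ∀ (S : Type) [CommRing S] [Algebra k S] (y : Sg n δ → S),
      (∀ a ∈ sI q δ U J K E, MvPolynomial.aeval y a = 0) → y I = 1 →
      ∃ f : B →ₐ[k] S, ∀ a, f (π a) = MvPolynomial.aeval y a) : Algebra.Smooth k B := by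
  obtain ⟨D, _, _, u, h⟩ := exists_ui k q U (fun b => J b + (K b + (K b)ᵀ)) K E I
  have := h.smooth hq fun b hb => (hB b hb).2
  have hc : ∀ b ∉ U, (J b).map (algebraMap k (AlgebraicClosure k)) = 0 ∨
      (K b).map (algebraMap k (AlgebraicClosure k)) = 0 := fun b hb =>
    (hB b hb).1.imp (fun h => by rw [h, Matrix.map_zero _ (map_zero _)])
      fun h => by rw [h, Matrix.map_zero _ (map_zero _)]
  have := h.ft
  have := red_smooth k D
  have := Algebra.FiniteType.of_surjective π hs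
  obtain ⟨f, hf⟩ := hl D (mz u) (fun a ha =>
    (nil_of_pts (k := k) (AlgebraicClosure k) _ fun φ => by
      rw [map_aeval_DT2]
      have e : (fun j => φ (mz u j)) = mz fun s => (u s).map φ.toRingHom :=
        funext fun j => map_mz φ.toRingHom j
      rw [e]
      exact MvPolynomial.mem_vanishingIdeal_iff.1 ha _
        ((h.nc.map φ.toRingHom (fun b => (alg_map_EI0 φ _).trans (bj_map _ _ _))
          fun b => alg_map_EI0 φ _).mem hc)).eq_zero)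
    h.nc.mz_one
  choose ev hev using fun x : {x // x ∈ cns q δ U
      (fun b => (J b).map (algebraMap k (AlgebraicClosure k)))
      (fun b => (K b).map (algebraMap k (AlgebraicClosure k))) E ∧ x I = 1} =>
    hl _ x.1 (fun a ha => MvPolynomial.mem_vanishingIdeal_iff.1 ha _ x.2.1) x.2.2
  have hz : ∀ b, (∀ x, (ev x).toRingHom b = 0) → b = 0 := by
    intro b hb
    obtain ⟨a, rfl⟩ := hs b
    obtain ⟨a₁, h₁, a₂, h₂, rfl⟩ := Submodule.mem_sup.1 (chart_zero (k := k)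
      (fun x hx t => smul_EI3 hx t) I (f := a) fun x hx h1 => (hev ⟨x, hx, h1⟩ a).symm.trans
        (hb ⟨x, hx, h1⟩))
    obtain ⟨c, rfl⟩ := Ideal.mem_span_singleton'.1 h₂
    rw [map_add, map_mul, h0 a₁ h₁, h1, mul_zero, add_zero]
  obtain ⟨v, hv⟩ : ∃ v : ∀ s : Ix N d m, Matrix (Fin (n s.1)) (Fin (δ s)) B,
      ∀ x s, (v s).map (ev x).toRingHom = emz x.1 s I :=
    ⟨fun s => Matrix.of fun r a => π (MvPolynomial.X (update I s (update (I s) a r))),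
      fun x s => Matrix.ext fun r a => (hev x _).trans (MvPolynomial.aeval_X _ _)⟩
  have hv' : ∀ x, (fun s => (v s).map (ev x).toRingHom) = fun s => emz x.1 s I :=
    fun x => funext (hv x)
  obtain ⟨g, hg⟩ := h.lift _ v (ni_pts (T := fun _ => AlgebraicClosure k)
    (fun x => (ev x).toRingHom) hz (fun x b => (alg_map_EI0 (ev x) _).trans (bj_map _ _ _))
    (fun x b => alg_map_EI0 (ev x) _) fun x => by
    rw [hv']; exact (hq.ni_emz hc x.2.1 x.2.2).1)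
  have e : g.comp (MvPolynomial.aeval (mz u)) = π := by
    refine MvPolynomial.algHom_ext fun j => sub_eq_zero.1 (hz _ fun x => ?_)
    have e₁ : g (mz u j) = mz v j := (map_mz g.toRingHom j).trans (congrArg (mz · j) (funext hg))
    rw [map_sub, AlgHom.comp_apply, MvPolynomial.aeval_X, e₁, map_mz, hv',
      (hq.ni_emz hc x.2.1 x.2.2).2]
    exact sub_eq_zero.2 ((hev x _).trans (MvPolynomial.aeval_X _ _)).symm
  refine smooth_retract f g fun b => ?_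
  obtain ⟨a, rfl⟩ := hs b
  rw [hf]
  exact DFunLike.congr_fun e a

theorem Sch.smooth_s (hq : Sch k q) (hB : ∀ b ∉ U, Bfs q (J b) (K b)) (I : Sg n δ) :
    Algebra.Smooth k ((MvPolynomial (Sg n δ) k ⧸ sI q δ U J K E) ⧸
      Ideal.span {crd (sI q δ U J K E) I - 1}) := by
  refine aux_EI3 (E := E) (I := I) hq hB ((Ideal.Quotient.mkₐ k _).comp (Ideal.Quotient.mkₐ k _))
    (Ideal.Quotient.mk_surjective.comp Ideal.Quotient.mk_surjective) (fun a ha => ?_) ?_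
    fun S _ _ y hy h1 => lift_EG4 _ I y hy h1
  · rw [AlgHom.comp_apply, Ideal.Quotient.mkₐ_eq_mk, Ideal.Quotient.mkₐ_eq_mk,
      Ideal.Quotient.eq_zero_iff_mem.2 ha, map_zero]
  · rw [AlgHom.comp_apply, map_sub (Ideal.Quotient.mkₐ k (sI q δ U J K E)), map_one]
    exact Ideal.Quotient.eq_zero_iff_mem.2 (Ideal.mem_span_singleton_self _)

theorem bfq_quad [Finite k] {l : ℕ} {K : Matrix (Fin l) (Fin l) k}
    (h : ∀ x, (K + Kᵀ) *ᵥ x = 0 → x ⬝ᵥ K *ᵥ x = 0 → x = 0) : Bfq (K + Kᵀ) K := by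
  by_cases h0 : (K + Kᵀ).det = 0
  swap
  · exact Or.inr ⟨_, 0, 0, 0, by
      rw [vecMulVec_zero, add_zero, nonsing_inv_mul _ (isUnit_iff_ne_zero.2 h0)],
      mulVec_zero _, smul_zero _, Or.inl rfl⟩
  obtain ⟨-, j, r, r1, r2, r3, r4, -⟩ := exists_rad h h0
  obtain ⟨μ, hμ⟩ : ∃ μ : Fin l → k, μ = Pi.single j 1 := ⟨_, rfl⟩
  have e1 : ∀ x, μ ⬝ᵥ x = x j := fun x => by rw [hμ, single_one_dotProduct]
  have e2 : ∀ x, (K + Kᵀ + vecMulVec μ μ) *ᵥ x = (K + Kᵀ) *ᵥ x + x j • μ := fun x => by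
    rw [add_mulVec _ (vecMulVec μ μ), vecMulVec_mulVec, e1, op_smul_eq_smul]
  have e3 : IsUnit (K + Kᵀ + vecMulVec μ μ).det := isUnit_iff_ne_zero.2 fun e => by
    obtain ⟨x, x0, x1⟩ := exists_mulVec_eq_zero_iff.2 e
    rw [e2] at x1
    have x2 := congrArg (r ⬝ᵥ ·) x1
    simp only [dotProduct_add, dotProduct_smul, dotProduct_zero] at x2
    rw [dot_addT, add_comm (r ⬝ᵥ _), ← dot_addT, r2, dotProduct_zero, zero_add, dotProduct_comm, e1,
      r1, smul_eq_mul, mul_one] at x2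
    rw [x2, zero_smul, add_zero] at x1
    exact x0 (r4 x x1 x2)
  refine Or.inr ⟨(K + Kᵀ + vecMulVec μ μ)⁻¹, r, μ, (r ⬝ᵥ K *ᵥ r)⁻¹, ?_, r2,
    by rw [inv_mul_cancel₀ r3, one_smul], Or.inl rfl⟩
  have e4 : (K + Kᵀ + vecMulVec μ μ)⁻¹ *ᵥ μ = r := by
    have := e2 r
    rw [r2, r1, zero_add, one_smul] at this
    nth_rewrite 3 [← this]
    rw [mulVec_mulVec, nonsing_inv_mul _ e3, one_mulVec]
  rw [← e4, ← mul_vecMulVec, ← Matrix.mul_add, nonsing_inv_mul _ e3]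

theorem Cla.bfo [Finite k] (hq : Sch k q) (h : Cla q δ U J K E) : ∀ b ∉ U, Bfs q (J b) (K b) := by
  intro b hb
  obtain ⟨r, -, -, -, h1, h2, h3⟩ := h.cls b hb
  refine ⟨h3.symm.imp And.left And.left, ?_, ?_, h2⟩
  · rcases h3 with ⟨h0, h3 | ⟨h3, h4⟩⟩ | ⟨h3, h4⟩
    · rw [h0, h3, transpose_zero, add_zero, add_zero]
      exact Or.inl ⟨rfl, rfl⟩
    · rw [h0, transpose_zero, add_zero, add_zero]
      exact Or.inr ⟨_, 0, 0, 0, by
        rw [vecMulVec_zero, add_zero, nonsing_inv_mul _ (isUnit_iff_ne_zero.2 h3)],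
        mulVec_zero _, smul_zero _, Or.inr ⟨rfl, alt_skew h4, funext (alt_diag (J := J b) h4)⟩⟩
    · rw [h3, zero_add]
      exact bfq_quad h4
  · obtain ⟨f, hf⟩ := hq.exists_hom k
    rw [← funext hf] at h1 h2 ⊢
    rw [bj_map, h1, h2]

end Pool.Agent.CXD
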