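import Pool.Agent.P.MP_2ce3e7_ag.DA2
import Pool.Agent.P.MP_2ce3e7_ag.DT2

/-! Affine bundles, roots and minors. -/

set_option linter.unusedSectionVars false
set_option linter.unusedVariables false

open Function Matrix

noncomputable section

namespace Pool.Agent.CXD

section
variable {Ω : Type} [Field Ω] {m n : Type} [Fintype m] [Fintype n] [DecidableEq n]

theorem det_mul_minors (L : Matrix n m Ω) (M : Matrix m n Ω) :
    (L * M).det = ∑ I : n → m, (∏ i, L i (I i)) * (M.submatrix I id).det := by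
  classical
  have e : L * M = fun i => ∑ j, L i j • M j := by
    ext i j
    simp [mul_apply]
  rw [e]
  refine (detRowAlternating.toMultilinearMap.map_sum fun i j => L i j • M j).trans ?_
  exact Finset.sum_congr rfl fun I _ => detRowAlternating.toMultilinearMap.map_smul_univ _ _

theorem exists_minor {M : Matrix m n Ω} (h : Injective M.mulVec) :
    ∃ I : n → m, (M.submatrix I id).det ≠ 0 := by
  classical
  obtain ⟨L, hL⟩ := (Matrix.toLin' M).exists_leftInverse_of_injective (LinearMap.ker_eq_bot.2 h)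
  by_contra h0
  push Not at h0
  have h1 := det_mul_minors (LinearMap.toMatrix' L) M
  rw [← LinearMap.toMatrix'_toLin' M, ← LinearMap.toMatrix'_comp, hL] at h1
  simp [h0] at h1

theorem inj_of_minor {M : Matrix m n Ω} {I : n → m} (h : (M.submatrix I id).det ≠ 0) :
    Injective M.mulVec := fun u v e =>
  mulVec_injective_iff_isUnit.2 ((isUnit_iff_isUnit_det _).2 h.isUnit)
    (funext fun i => congrFun e (I i))

theorem solve_minors {M : Matrix m n Ω} (a : (n → m) → Ω)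
    (h : a ⬝ᵥ (fun I => (M.submatrix I id).det) = 1) (c : n → Ω) :
    c = ∑ I, a I • ((M.submatrix I id).adjugate *ᵥ fun i => (M *ᵥ c) (I i)) := by
  have e : ∀ I : n → m, (fun i => (M *ᵥ c) (I i)) = M.submatrix I id *ᵥ c := fun _ => rfl
  simp only [e, mulVec_mulVec, adjugate_mul, smul_mulVec, one_mulVec, smul_smul]
  rw [← Finset.sum_smul]
  exact ((congrArg (· • c) h).trans (one_smul _ _)).symm

end

variable {k Ω : Type} [Field k] [Field Ω] [Algebra k Ω] {α β γ : Type} [Af Ω α] [Af Ω β] [Af Ω γ]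
  {G : Gp Ω} {q : ℕ} {p : α → Prop} {T : β → Prop}

theorem Ax.iso_iff (h : Ax k G) (f : β → α) (r : α → β) (hf : Pm k f) (hr : Pm k r)
    (h1 : ∀ z, T z → p (f z)) (h2 : ∀ x, p x → T (r x)) (h3 : ∀ z, T z → r (f z) = z)
    (h4 : ∀ x, p x → f (r x) = x) : G.good T ↔ G.good p :=
  ⟨h.iso f r hf hr h1 h2 h3 h4, h.iso r f hr hf h2 h1 h4 h3⟩

theorem Ax.unaff (h : Ax k G) (c : Cz k p) (hp : G.good fun y : α × β => p y.1) : G.good p := by
  have key : ∀ n : ℕ, (G.good fun y : α × (Fin n → Ω) => p y.1) → G.good p := fun n => by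
    induction n with
    | zero =>
      exact h.iso (fun y : α × (Fin 0 → Ω) => y.1) (fun x : α => (x, (0 : Fin 0 → Ω)))
        (by fun_prop) (by fun_prop) (fun _ hx => hx) (fun _ hx => hx)
        (fun _ _ => Prod.ext rfl (Subsingleton.elim _ _)) fun _ _ => rfl
    | succ n ih =>
      exact fun hp => ih (h.unline (by fun_prop) (h.iso
        (fun y : α × (Fin (n + 1) → Ω) => ((y.1, fun i => y.2 i.succ), y.2 0))
        (fun y : (α × (Fin n → Ω)) × Ω => (y.1.1, vecCons y.2 y.1.2))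
        (by fun_prop) (by fun_prop) (fun _ hx => hx) (fun _ hx => hx)
        (fun y _ => Prod.ext rfl (funext fun i => Fin.cases rfl (fun _ => rfl) i))
        (fun _ _ => rfl) hp))
  have e := Fintype.equivFin (Af.ι β)
  exact key _ (h.iso (fun y : α × β => (y.1, fun i => co y.2 (e.symm i)))
    (fun y => (y.1, pt β fun j => y.2 (e j))) (by fun_prop) (by fun_prop)
    (fun _ hx => hx) (fun _ hx => hx) (fun _ _ => by simp [pt_co])
    (fun _ _ => by simp [co_pt]) hp)

variable {κ : Type} [Fintype κ] {g : α → κ → Ω} [IsAlgClosed Ω]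

/-- partitions of unity -/
theorem Cz.unit (c : Cz k p) (hg : Pm k g) (h0 : ∀ x, p x → g x ≠ 0) :
    ∃ a : α → κ → Ω, Pm k a ∧ ∀ x, p x → a x ⬝ᵥ g x = 1 := by
  have h1 := mem_of_pts (k := k) Ω (Ideal.span (Set.range fun i => rg p (hg.eval i))).radical
    (Ideal.radical_isRadical _) 1 fun φ hφ => by
      obtain ⟨x, hx⟩ := exists_pt c φ
      exact (h0 x.1 x.2 (funext fun i => (hx _).symm.trans
        (hφ _ (Ideal.le_radical (Ideal.subset_span ⟨i, rfl⟩))))).elim
  obtain ⟨n, hn⟩ := h1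
  rw [one_pow] at hn
  obtain ⟨b, hb⟩ := Ideal.mem_span_range_iff_exists_fun.1 hn
  choose a ha e using fun i => rg_surj (b i)
  refine ⟨fun x i => a i x, Pm.pi ha, fun x hx => ?_⟩
  have h2 := congrArg (evx ⟨x, hx⟩) hb
  simp only [map_sum, map_mul, map_one, e] at h2
  exact h2

theorem Ax.unjou (h : Ax k G) (c : Cz k p) (hg : Pm k g) (h0 : ∀ x, p x → g x ≠ 0)
    (hp : G.good fun y : α × (κ → Ω) => p y.1 ∧ y.2 ⬝ᵥ g y.1 = 1) : G.good p := by
  obtain ⟨a, ha, h1⟩ := c.unit hg h0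
  refine h.unaff (β := κ → Ω) c (h.iso
    (fun y : (α × (κ → Ω)) × Ω => (y.1.1, y.1.2 + y.2 • a y.1.1))
    (fun y => ((y.1, y.2 - (y.2 ⬝ᵥ g y.1 - 1) • a y.1), y.2 ⬝ᵥ g y.1 - 1)) (by fun_prop)
    (by fun_prop) (fun _ hz => hz.1) (fun y hy => ⟨hy, ?_⟩) (fun z hz => ?_) (fun _ _ => by simp)
    (h.line hp))
  · simp [h1 _ hz.1, hz.2]
  · simp [h1 _ hy]

theorem Ax.root_iff (h : Ax k G) (hq : Su k q) (c : Cz k p) {f : α → Ω} (hf : Pm k f) :
    G.good p ↔ G.good fun y : α × Ω => p y.1 ∧ y.2 ^ q = f y.1 := by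
  refine ⟨h.fin (Fi.mk' (fun x => (frob (q ^ 2) x, f x ^ q)) (by fun_prop)
    ⟨Af.ι α, inferInstance, fun x j => co x j, q ^ 2, fun _ _ => 0, fun y j => co y.1 j,
      fun y => pt α y.2, Nat.one_lt_pow two_ne_zero hq.lt, by fun_prop, by fun_prop, by fun_prop,
      by fun_prop, fun z _ j => by simp [co_frob], fun z _ => pt_co z⟩
    (fun z hz => ⟨(hq.frob_iff c z).2 hz, ?_⟩) fun y hy => ?_),
    h.fin (Fi.mk' Prod.fst (by fun_prop) (Fm0.one Prod.snd q (fun _ => 0) f (fun y => y) hq.lt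
      (by fun_prop) (by fun_prop) hf (by fun_prop) (fun z hz => by simpa using hz.2) fun _ _ => rfl)
      (fun _ hz => hz.1) fun x hx => ?_)⟩
  · rw [hq.frob_comm hf, frob_self, ← pow_mul, sq]
  · obtain ⟨z, hz⟩ := frob_surj (pow_pos hq.pos 2) y.1
    refine ⟨z, (hq.frob_iff c z).1 (hz ▸ hy.1), Prod.ext hz (sub_eq_zero.1
      (pow_eq_zero_iff hq.pos.ne' |>.1 ?_))⟩
    rw [hq.sub_pow, hy.2, ← hz, hq.frob_comm hf, frob_self, ← pow_mul, sq, sub_self]
  · obtain ⟨v, hv⟩ := IsAlgClosed.exists_pow_nat_eq (f x) hq.pos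
    exact ⟨(x, v), ⟨hx, hv⟩, rfl⟩

theorem Su.cz_of_frob (hq : Su k q) (c : Cz k fun x => p (frob (q ^ 2) x)) : Cz k p :=
  c.congr fun x => by
    obtain ⟨y, rfl⟩ := frob_surj (pow_pos hq.pos 2) x
    exact (hq.frob_iff c y).symm

end Pool.Agent.CXD
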