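import Pool.Agent.P.MP_2ce3e7_ag.DA6
import Pool.Agent.P.MP_2ce3e7_ag.SAB

/-! Models, and maps that are polynomial on a model. -/

set_option linter.unusedSectionVars false
set_option linter.unusedVariables false

open Function Matrix

noncomputable section

namespace Pool.Agent.CXD

/-- the field has `q ^ 2` elements -/
class Sq (k : Type) [Field k] (q : outParam ℕ) : Prop where
  su : Su k q

variable (k : Type) {Ω : Type} [Field k] [Field Ω] [Algebra k Ω] {α β γ : Type} [Af Ω α] [Af Ω β]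
  [Af Ω γ]

/-- the Artin-Schreier cover -/
def AS (q : ℕ) (p : α → Prop) (ψ : α → Ω) (y : α × Ω) : Prop := p y.1 ∧ y.2 ^ q + y.2 = ψ y.1

open Classical in
/-- the power map as a permutation -/
def frq (q : ℕ) : Equiv.Perm Ω :=
  if h : Bijective fun t : Ω => t ^ q then Equiv.ofBijective _ h else 1

/-- a sign -/
def sg (ε : ℤˣ) : Ω := ((ε : ℤ) : Ω)

/-- the power map followed by a sign -/
def frz (q : ℕ) (ε : ℤˣ) : Equiv.Perm Ω := (frq q).trans (MulAction.toPerm ε)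

/-- the two new rules -/
structure Au (q : ℕ) (G : Gp Ω) : Prop extends Ax k G where
  aff : ∀ {α n : Type} [Af Ω α] [Fintype n] {p : α → Prop} {D : α → n → Ω} {g : α → Ω}, Cz k p →
    Pm k D → Pm k g → G.good p → G.good (fun x => p x ∧ D x = 0 ∧ g x = 0) →
    G.good fun y : α × (n → Ω) => p y.1 ∧ y.2 ⬝ᵥ D y.1 + g y.1 = 0
  asb : ∀ {α : Type} [Af Ω α] {p : α → Prop} {f : α → Ω}, Cz k p → Pm k f →
    G.good (fun y : α × Ω × Ω => p y.1 ∧ y.2.1 * f y.1 = y.2.2 ^ q + y.2.2) →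
    G.good fun x => p x ∧ f x = 0

/-- all rules -/
structure Az (q : ℕ) (G : Gp Ω) : Prop extends Au k q G, Ay k q G

/-- `P` is a model over `S`: base change to it does not change goodness -/
structure Md (S : α → Prop) (P : α × γ → Prop) : Prop where
  onto : ∀ x, S x → ∃ c, P (x, c)
  cz : ∀ {β : Type} [Af Ω β] {Q : β → Prop} {f : β → α}, Cz k Q → Pm k f → (∀ z, Q z → S (f z)) →
    Cz k fun y : β × γ => Q y.1 ∧ P (f y.1, y.2)
  sub : ∀ {β : Type} [Af Ω β] {Q : β → Prop} {f : β → α} (C : β → Prop), Cz k Q → Pm k f →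
    (∀ z, Q z → S (f z)) → (Cz k fun y : β × γ => (Q y.1 ∧ C y.1) ∧ P (f y.1, y.2)) →
    Cz k fun z => Q z ∧ C z
  iff : ∀ {β : Type} [Af Ω β] {Q : β → Prop} {f : β → α} (q : ℕ) (G : Gp Ω), Su k q → Au k q G →
    Cz k Q → Pm k f → (∀ z, Q z → S (f z)) →
    (G.good Q ↔ G.good fun y : β × γ => Q y.1 ∧ P (f y.1, y.2))

/-- on `p`, the map `f` is polynomial on some model -/
@[fun_prop]
def Pq {α β : Type} [Af Ω α] [Af Ω β] (p : Set α) (f : α → β) : Prop :=
  ∃ (γ : Type) (_ : Af Ω γ) (P : α × γ → Prop) (g : α × γ → β), Md k p P ∧ Pm k g ∧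
    ∀ x c, p x → P (x, c) → g (x, c) = f x

/-- `r` is closed relative to `p` -/
@[fun_prop]
def Cr {α : Type} [Af Ω α] (p : Set α) (r : α → Prop) : Prop :=
  ∀ (β : Type) (_ : Af Ω β) (Q : β → Prop) (f : β → α), Cz k Q → Pm k f → (∀ z, Q z → p (f z)) →
    Cz k fun z => Q z ∧ r (f z)

/-- the part of `p` cut out by `r` has a model that is closed over `p` -/
@[fun_prop]
def Lr {α : Type} [Af Ω α] (p : Set α) (r : α → Prop) : Prop :=
  ∃ (γ : Type) (_ : Af Ω γ) (P : α × γ → Prop), Md k (fun x => p x ∧ r x) P ∧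
    ∀ {β : Type} [Af Ω β] {Q : β → Prop} {f : β → α}, Cz k Q → Pm k f → (∀ z, Q z → p (f z)) →
      Cz k fun y : β × γ => Q y.1 ∧ r (f y.1) ∧ P (f y.1, y.2)

/-- sets with a closed model -/
abbrev Lc (p : α → Prop) : Prop := Lr k (fun _ => True) p

/-- some closed model is good -/
def Gy (G : Gp Ω) (p : α → Prop) : Prop :=
  ∃ (γ : Type) (_ : Af Ω γ) (P : α × γ → Prop), Md k p P ∧ (Cz k fun y => p y.1 ∧ P y) ∧
    G.good fun y => p y.1 ∧ P y

/-- equal modulo functions `D ^ q + D` -/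
def Eqs (q : ℕ) (p : α → Prop) (ψ ψ' : α → Ω) : Prop :=
  ∃ D : α → Ω, Pq k p D ∧ ∀ x, p x → ψ x = ψ' x + (D x ^ q + D x)

/-- the coordinates are linear -/
class Al (Ω β : Type) [Field Ω] [Af Ω β] [AddCommGroup β] [Module Ω β] : Prop where
  lin : IsLinearMap Ω (Af.e : β → Af.ι β → Ω)

instance : Al Ω Ω := ⟨⟨fun _ _ => rfl, fun _ _ => rfl⟩⟩

instance (α β : Type) [Af Ω α] [AddCommGroup α] [Module Ω α] [Af Ω β] [AddCommGroup β] [Module Ω β]
    [a : Al Ω α] [b : Al Ω β] : Al Ω (α × β) :=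
  ⟨⟨fun x y => funext fun j => match j with
      | Sum.inl j => congrFun (a.lin.map_add x.1 y.1) j
      | Sum.inr j => congrFun (b.lin.map_add x.2 y.2) j,
    fun c x => funext fun j => match j with
      | Sum.inl j => congrFun (a.lin.map_smul c x.1) j
      | Sum.inr j => congrFun (b.lin.map_smul c x.2) j⟩⟩

instance (κ : Type) [Fintype κ] (α : κ → Type) [∀ i, Af Ω (α i)] [∀ i, AddCommGroup (α i)]
    [∀ i, Module Ω (α i)] [a : ∀ i, Al Ω (α i)] : Al Ω (∀ i, α i) :=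
  ⟨⟨fun x y => funext fun j => congrFun ((a j.1).lin.map_add (x j.1) (y j.1)) j.2,
    fun c x => funext fun j => congrFun ((a j.1).lin.map_smul c (x j.1)) j.2⟩⟩

instance (m n : Type) [Fintype m] [Fintype n] : Al Ω (Matrix m n Ω) :=
  ⟨⟨fun _ _ => rfl, fun _ _ => rfl⟩⟩

variable {k} {q : ℕ} {p p₁ : α → Prop} {p' : β → Prop}

instance (ε : ℤˣ) : Kr k (sg ε : Ω) := inferInstanceAs (Kr k ((ε : ℤ) : Ω))

instance : Kr k (2 : Ω) := kr_self.2 ⟨2, (map_ofNat _ 2).symm⟩

theorem sg_mul_self (ε : ℤˣ) : (sg ε : Ω) * sg ε = 1 := by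
  rcases Int.units_eq_one_or ε with rfl | rfl <;> simp [sg]

theorem sg_one : (sg 1 : Ω) = 1 := by simp [sg]

theorem sg_neg (ε : ℤˣ) : (sg (-ε) : Ω) = -sg ε := by simp [sg]

theorem sg_ne (ε : ℤˣ) : (sg ε : Ω) ≠ 0 := left_ne_zero_of_mul_eq_one (sg_mul_self ε)

section
variable {δ : Type} [Af Ω δ] {P : α × γ → Prop}

theorem md_top (p : α → Prop) (γ : Type) [Af Ω γ] : Md k p fun _ : α × γ => True :=
  ⟨fun _ _ => ⟨pt γ 0, trivial⟩, fun c _ _ => by fun_prop,
    fun C _ _ _ c => (c.comp (f := fun z => (z, pt γ 0))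
      (Pm.mk Pm.id (Pm.pt (Pm.const 0)))).congr fun _ => (and_iff_left trivial).symm,
    fun q G _ h c _ _ => by
      simp only [and_true]
      exact ⟨h.toAx.aff γ, h.toAx.unaff c⟩⟩

theorem Md.mono (h : Md k p P) (e : ∀ x, p₁ x → p x) : Md k p₁ P :=
  ⟨fun x hx => h.onto x (e x hx), fun c hf hS => h.cz c hf fun z hz => e _ (hS z hz),
    fun C c hf hS => h.sub C c hf fun z hz => e _ (hS z hz),
    fun q G hq hG c hf hS => h.iff q G hq hG c hf fun z hz => e _ (hS z hz)⟩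

theorem Md.pull (h : Md k p P) {φ : β → α} (hφ : Pm k φ) :
    Md k (fun z => p (φ z)) fun y : β × γ => P (φ y.1, y.2) :=
  ⟨fun z => h.onto (φ z), fun c hf => h.cz c (hφ.comp hf), fun C c hf => h.sub C c (hφ.comp hf),
    fun q G hq hG c hf => h.iff q G hq hG c (hφ.comp hf)⟩

theorem cz_assoc {ε : Type} [Af Ω ε] {R : (ε × γ) × δ → Prop} :
    (Cz k fun y : ε × γ × δ => R ((y.1, y.2.1), y.2.2)) ↔ Cz k R :=
  ⟨fun c => c.comp (f := fun y : (ε × γ) × δ => (y.1.1, y.1.2, y.2)) (by fun_prop),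
    fun c => c.comp (by fun_prop)⟩

/-- a model over a model -/
theorem Md.trans (h : Md k p P) {P' : (α × γ) × δ → Prop} (h' : Md k (fun y => p y.1 ∧ P y) P') :
    Md k p fun y : α × γ × δ => P (y.1, y.2.1) ∧ P' ((y.1, y.2.1), y.2.2) :=
  ⟨fun x hx => (h.onto x hx).elim fun c hc => (h'.onto (x, c) ⟨hx, hc⟩).elim fun d hd =>
      ⟨(c, d), hc, hd⟩,
    fun {ε} _ {Q f} c hf hS => (cz_assoc.2 (h'.cz (f := fun y : ε × γ => (f y.1, y.2))
      (h.cz c hf hS) (by fun_prop) fun y hy => ⟨hS _ hy.1, hy.2⟩)).congr fun _ => and_assoc.symm,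
    fun {ε} _ {Q f} C c hf hS c' => h.sub C c hf hS ((h'.sub (f := fun y : ε × γ => (f y.1, y.2))
      (fun y => C y.1) (h.cz c hf hS) (by fun_prop) (fun y hy => ⟨hS _ hy.1, hy.2⟩)
      (cz_assoc.1 (c'.congr fun _ => by tauto))).congr fun _ => and_right_comm),
    fun {ε} _ {Q f} q G hq hG c hf hS => by
      rw [h.iff q G hq hG c hf hS, h'.iff (f := fun y : ε × γ => (f y.1, y.2)) q G hq hG
        (h.cz c hf hS) (by fun_prop) fun y hy => ⟨hS _ hy.1, hy.2⟩]
      exact hG.toAx.iso_iff (fun y => (y.1.1, y.1.2, y.2)) (fun y => ((y.1, y.2.1), y.2.2))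
        (by fun_prop) (by fun_prop) (fun _ hz => and_assoc.1 hz) (fun _ hz => and_assoc.2 hz)
        (fun _ _ => rfl) fun _ _ => rfl⟩

theorem Md.comap (h : Md k p P) {F : α × γ → β} (hF : Pm k F)
    (e : ∀ x c, p x → P (x, c) → p' (F (x, c))) {P' : β × δ → Prop} (h' : Md k p' P') :
    Md k p fun y : α × γ × δ => P (y.1, y.2.1) ∧ P' (F (y.1, y.2.1), y.2.2) :=
  h.trans ((h'.pull hF).mono fun y hy => e y.1 y.2 hy.1 hy.2)

theorem Md.prod (h : Md k p P) {P' : α × δ → Prop} (h' : Md k p P') :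
    Md k p fun y : α × γ × δ => P (y.1, y.2.1) ∧ P' (y.1, y.2.2) :=
  h.comap (Pm.fst Pm.id) (fun _ _ hy _ => hy) h'

end

theorem Pm.po {f : α → β} (h : Pm k f) : Pq k p f :=
  ⟨Ω, _, _, fun y => f y.1, md_top p Ω, by fun_prop, fun _ _ _ _ => rfl⟩

theorem Pq.mono {f : α → β} (h : Pq k p f) (e : ∀ x, p₁ x → p x) : Pq k p₁ f := by
  obtain ⟨γ, _, P, F, h, hF, e'⟩ := h
  exact ⟨γ, _, P, F, h.mono e, hF, fun x c hx => e' x c (e _ hx)⟩

theorem Pq.congr {f g : α → β} (h : Pq k p f) (e : ∀ x, p x → g x = f x) : Pq k p g := by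
  obtain ⟨γ, _, P, F, h, hF, e'⟩ := h
  exact ⟨γ, _, P, F, h, hF, fun x c hx hc => (e' x c hx hc).trans (e _ hx).symm⟩

@[fun_prop]
theorem Pq.id : Pq k p fun x : α => x := Pm.po Pm.id

@[fun_prop]
theorem Pq.const (c : β) [Kr k c] : Pq k p fun _ : α => c := Pm.po (Pm.const c)

@[fun_prop]
theorem Pq.apply {κ : Type} [Fintype κ] {δ : κ → Type} [∀ i, Af Ω (δ i)] (i : κ)
    {p : (∀ i, δ i) → Prop} : Pq k p fun x : ∀ i, δ i => x i := Pm.po (Pm.apply i)

variable [Sq k q] [IsAlgClosed Ω]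

theorem sg_pow (k : Type) [Field k] [Algebra k Ω] [Sq k q] (ε : ℤˣ) : (sg ε : Ω) ^ q = sg ε := by
  rcases Int.units_eq_one_or ε with rfl | rfl
  · rw [sg_one, one_pow]
  · rw [sg_neg, sg_one, (Sq.su (k := k)).neg_pow, one_pow]

theorem two_pow_eq (k : Type) [Field k] [Algebra k Ω] [Sq k q] : (2 : Ω) ^ q = 2 := by
  rw [← one_add_one_eq_two, (Sq.su (k := k)).add_pow, one_pow]

theorem fr_apply (k : Type) [Field k] [Algebra k Ω] [Sq k q] (t : Ω) : frq q t = t ^ q := by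
  have hq := Sq.su (k := k)
  have h : Bijective fun t : Ω => t ^ q := ⟨fun a b e => sub_eq_zero.1
    ((pow_eq_zero_iff hq.pos.ne').1 (by rw [hq.sub_pow, sub_eq_zero]; exact e)),
    fun t => IsAlgClosed.exists_pow_nat_eq t hq.pos⟩
  rw [frq, dif_pos h]
  rfl

theorem frs_apply (k : Type) [Field k] [Algebra k Ω] [Sq k q] (ε : ℤˣ) (t : Ω) :
    frz q ε t = sg ε * t ^ q := by
  rw [← fr_apply k, sg, ← zsmul_eq_mul]
  rfl

@[fun_prop]
theorem Pq.pull {f : β → γ} {g : α → β} (hf : Pq k p' f) (hg : Pq k p g)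
    (e : ∀ x, p x → p' (g x)) : Pq k p fun x => f (g x) := by
  obtain ⟨γ, _, P, F, h, hF, e1⟩ := hg
  obtain ⟨δ, _, P', U, h', hU, e2⟩ := hf
  have e3 : ∀ x c, p x → P (x, c) → p' (F (x, c)) := fun x c hx hc => e1 x c hx hc ▸ e x hx
  exact ⟨_, _, _, fun y => U (F (y.1, y.2.1), y.2.2), h.comap hF e3 h', by fun_prop,
    fun x c hx hc => (e2 _ _ (e3 _ _ hx hc.1) hc.2).trans (congrArg f (e1 _ _ hx hc.1))⟩

@[fun_prop]
theorem Pq.comp {f : β → γ} {g : α → β} (hf : Pq k (fun _ => True) f) (hg : Pq k p g) :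
    Pq k p fun x => f (g x) := hf.pull hg fun _ _ => trivial

@[fun_prop]
theorem Pq.mk {f : α → β} {g : α → γ} (hf : Pq k p f) (hg : Pq k p g) :
    Pq k p fun x => (f x, g x) := by
  obtain ⟨γ, _, P, F, h, hF, e⟩ := hf
  obtain ⟨δ, _, P', U, h', hU, e'⟩ := hg
  exact ⟨_, _, _, fun y => (F (y.1, y.2.1), U (y.1, y.2.2)), h.prod h', by fun_prop,
    fun x c hx hc => Prod.ext (e _ _ hx hc.1) (e' _ _ hx hc.2)⟩

@[fun_prop]
theorem Pq.pi {κ : Type} [Fintype κ] {δ : κ → Type} [∀ i, Af Ω (δ i)] {f : α → ∀ i, δ i}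
    (h : ∀ i, Pq k p fun x => f x i) : Pq k p fun x i => f x i := by
  classical
  have key : ∀ s : Finset κ, Pq k p fun x i => if i ∈ s then f x i else pt (δ i) 0 := fun s => by
    induction s using Finset.induction_on with
    | empty => exact Pm.po (Pm.pi fun i => by simpa using Pm.pt (Pm.const (0 : Af.ι (δ i) → Ω)))
    | insert a s ha ih =>
      refine (Pq.comp (Pm.po (?_ : Pm k fun y : (∀ i, δ i) × δ a => update y.1 a y.2))
        (ih.mk (h a))).congr fun x _ => funext fun i => ?_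
      · refine Pm.pi fun i => ?_
        by_cases e : i = a
        · subst e
          simpa using Pm.snd Pm.id
        · simpa [e] using (Pm.fst Pm.id).eval i
      · by_cases e : i = a
        · subst e
          simp
        · simp [e]
  simpa using key Finset.univ

@[fun_prop]
theorem Pq.fst {f : α → β × γ} (h : Pq k p f) : Pq k p fun x => (f x).1 :=
  Pq.comp (Pm.po (Pm.fst Pm.id)) h

@[fun_prop]
theorem Pq.snd {f : α → β × γ} (h : Pq k p f) : Pq k p fun x => (f x).2 :=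
  Pq.comp (Pm.po (Pm.snd Pm.id)) h

theorem Pq.eval {κ : Type} [Fintype κ] {δ : κ → Type} [∀ i, Af Ω (δ i)] {f : α → ∀ i, δ i}
    (h : Pq k p f) (i : κ) : Pq k p fun x => f x i := Pq.comp (Pq.apply i) h

theorem Pq.bin {δ : Type} [Af Ω δ] {F : β → γ → δ} {f : α → β} {g : α → γ}
    (h : Pm k fun y : β × γ => F y.1 y.2) (hf : Pq k p f) (hg : Pq k p g) :
    Pq k p fun x => F (f x) (g x) := Pq.comp (f := fun y : β × γ => F y.1 y.2) h.po (hf.mk hg)

@[fun_prop]
theorem Pq.add {f g : α → Ω} (hf : Pq k p f) (hg : Pq k p g) : Pq k p fun x => f x + g x :=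
  Pq.bin (F := fun a b => a + b) (by fun_prop) hf hg

@[fun_prop]
theorem Pq.mul {f g : α → Ω} (hf : Pq k p f) (hg : Pq k p g) : Pq k p fun x => f x * g x :=
  Pq.bin (F := fun a b => a * b) (by fun_prop) hf hg

@[fun_prop]
theorem Pq.sum {κ : Type} (s : Finset κ) {f : α → κ → Ω} (hf : ∀ i, Pq k p fun x => f x i) :
    Pq k p fun x => ∑ i ∈ s, f x i := by
  classical
  induction s using Finset.induction_on with
  | empty => exact Pq.const 0
  | insert a s ha ih => exact ((hf a).add ih).congr fun _ _ => Finset.sum_insert ha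

@[fun_prop]
theorem Pq.prod {κ : Type} (s : Finset κ) {f : α → κ → Ω} (hf : ∀ i, Pq k p fun x => f x i) :
    Pq k p fun x => ∏ i ∈ s, f x i := by
  classical
  induction s using Finset.induction_on with
  | empty => exact Pq.const 1
  | insert a s ha ih => exact ((hf a).mul ih).congr fun _ _ => Finset.prod_insert ha

@[fun_prop]
theorem Pq.vsum {ι κ : Type} [Fintype κ] (s : Finset ι) {f : α → ι → κ → Ω}
    (hf : ∀ i, Pq k p fun x => f x i) : Pq k p fun x => ∑ i ∈ s, f x i :=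
  (Pq.pi fun j => Pq.sum s fun i => (hf i).eval j).congr fun _ _ =>
    funext fun j => Finset.sum_apply j s _

@[fun_prop]
theorem Pq.ite (a : Prop) [Decidable a] {f g : α → β} (hf : Pq k p f) (hg : Pq k p g) :
    Pq k p fun x => if a then f x else g x := by
  split_ifs
  exacts [hf, hg]

@[fun_prop]
theorem Pq.dite (a : Prop) [Decidable a] {f : a → α → β} {g : ¬a → α → β}
    (hf : ∀ h, Pq k p (f h)) (hg : ∀ h, Pq k p (g h)) :
    Pq k p fun x => if h : a then f h x else g h x := by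
  split_ifs with h
  exacts [hf h, hg h]

@[fun_prop]
theorem Pq.neg {f : α → Ω} (hf : Pq k p f) :
    Pq k p fun x => -f x :=
  Pq.comp (f := fun y : Ω => -y) (Pm.po (by fun_prop)) hf

@[fun_prop]
theorem Pq.sub {f g : α → Ω} (hf : Pq k p f) (hg : Pq k p g) :
    Pq k p fun x => f x - g x :=
  Pq.bin (F := fun a b => a - b) (by fun_prop) hf hg

@[fun_prop]
theorem Pq.pow {f : α → Ω} (hf : Pq k p f) (n : ℕ) :
    Pq k p fun x => f x ^ n :=
  Pq.comp (f := fun y : Ω => y ^ n) (Pm.po (by fun_prop)) hf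

section
variable {κ : Type} [Fintype κ] {f g : α → κ → Ω} {c : α → Ω}

@[fun_prop]
theorem Pq.vadd (hf : Pq k p f) (hg : Pq k p g) :
    Pq k p fun x => f x + g x :=
  Pq.bin (F := fun a b => a + b) (by fun_prop) hf hg

@[fun_prop]
theorem Pq.vsub (hf : Pq k p f) (hg : Pq k p g) :
    Pq k p fun x => f x - g x :=
  Pq.bin (F := fun a b => a - b) (by fun_prop) hf hg

@[fun_prop]
theorem Pq.vneg (hf : Pq k p f) :
    Pq k p fun x => -f x :=
  Pq.comp (f := fun y : κ → Ω => -y) (Pm.po (by fun_prop)) hf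

@[fun_prop]
theorem Pq.vsmul (hc : Pq k p c) (hf : Pq k p f) :
    Pq k p fun x => c x • f x :=
  Pq.bin (F := fun a b => a • b) (by fun_prop) hc hf

@[fun_prop]
theorem Pq.dot (hf : Pq k p f) (hg : Pq k p g) :
    Pq k p fun x => f x ⬝ᵥ g x :=
  Pq.bin (F := fun a b => a ⬝ᵥ b) (by fun_prop) hf hg

@[fun_prop]
theorem Pq.single [DecidableEq κ] (i : κ) (hc : Pq k p c) :
    Pq k p fun x => (Pi.single i (c x) : κ → Ω) :=
  Pq.comp (f := fun y : Ω => (Pi.single i y : κ → Ω)) (Pm.po (by fun_prop)) hc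

end

@[fun_prop]
theorem Pq.update {κ : Type} [Fintype κ] [DecidableEq κ] {f : α → κ → β} {g : α → β} (i : κ)
    (hf : Pq k p f) (hg : Pq k p g) :
    Pq k p fun x => Function.update (f x) i (g x) :=
  Pq.bin (F := fun a b => Function.update a i b) (by fun_prop) hf hg

@[fun_prop]
theorem Pq.elim {κ κ' : Type} [Fintype κ] [Fintype κ'] {f : α → κ → β} {g : α → κ' → β}
    (hf : Pq k p f) (hg : Pq k p g) :
    Pq k p fun x => Sum.elim (f x) (g x) :=
  Pq.bin (F := fun a b => Sum.elim a b) (by fun_prop) hf hg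

@[fun_prop]
theorem Pq.snoc {n : ℕ} {f : α → β} {g : α → Fin n → β} (hg : Pq k p g) (hf : Pq k p f) :
    Pq k p fun x => Fin.snoc (α := fun _ => β) (g x) (f x) :=
  Pq.bin (F := fun a b => Fin.snoc (α := fun _ => β) a b) (by fun_prop) hg hf

section
variable {l m n : Type} [Fintype l] [Fintype m] [Fintype n] {f g : α → Matrix l m Ω} {c : α → Ω}

@[fun_prop]
theorem Pq.of {f : α → l → m → Ω} (hf : Pq k p f) : Pq k p fun x => Matrix.of (f x) := hf

theorem Pq.mat (h : ∀ i j, Pq k p fun x => f x i j) : Pq k p f := Pq.pi fun i => Pq.pi fun j => h i j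

theorem Pq.entry (hf : Pq k p f) (i : l) (j : m) : Pq k p fun x => f x i j :=
  Pq.eval (Pq.eval (δ := fun _ => m → Ω) hf i) j

@[fun_prop]
theorem Pq.madd (hf : Pq k p f) (hg : Pq k p g) :
    Pq k p fun x => f x + g x :=
  Pq.bin (F := fun a b => a + b) (by fun_prop) hf hg

@[fun_prop]
theorem Pq.msub (hf : Pq k p f) (hg : Pq k p g) :
    Pq k p fun x => f x - g x :=
  Pq.bin (F := fun a b => a - b) (by fun_prop) hf hg

@[fun_prop]
theorem Pq.msmul (hc : Pq k p c) (hf : Pq k p f) :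
    Pq k p fun x => c x • f x :=
  Pq.bin (F := fun a b => a • b) (by fun_prop) hc hf

@[fun_prop]
theorem Pq.mmul {g : α → Matrix m n Ω} (hf : Pq k p f) (hg : Pq k p g) :
    Pq k p fun x => f x * g x :=
  Pq.bin (F := fun a b => a * b) (by fun_prop) hf hg

@[fun_prop]
theorem Pq.transpose (hf : Pq k p f) :
    Pq k p fun x => (f x)ᵀ :=
  Pq.comp (f := fun y : Matrix l m Ω => yᵀ) (Pm.po (by fun_prop)) hf

@[fun_prop]
theorem Pq.submatrix {l' m' : Type} [Fintype l'] [Fintype m'] (hf : Pq k p f) (a : l' → l)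
    (b : m' → m) :
    Pq k p fun x => (f x).submatrix a b :=
  Pq.mat fun i j => hf.entry (a i) (b j)

@[fun_prop]
theorem Pq.fm (r : ℕ) (hf : Pq k p f) :
    Pq k p fun x => fm r (f x) :=
  Pq.comp (f := fun y : Matrix l m Ω => CXD.fm r y) (Pm.po (by fun_prop)) hf

@[fun_prop]
theorem Pq.mulVec {v : α → m → Ω} (hf : Pq k p f) (hv : Pq k p v) :
    Pq k p fun x => f x *ᵥ v x :=
  Pq.bin (F := fun a b => a *ᵥ b) (by fun_prop) hf hv

@[fun_prop]
theorem Pq.vecMul {v : α → l → Ω} (hv : Pq k p v) (hf : Pq k p f) :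
    Pq k p fun x => v x ᵥ* f x :=
  Pq.bin (F := fun a b => a ᵥ* b) (by fun_prop) hv hf

@[fun_prop]
theorem Pq.col (hf : Pq k p f) (j : m) :
    Pq k p fun x => (f x).col j :=
  Pq.comp (f := fun y : Matrix l m Ω => y.col j) (Pm.po (by fun_prop)) hf

@[fun_prop]
theorem Pq.row (hf : Pq k p f) (i : l) :
    Pq k p fun x => (f x).row i :=
  Pq.comp (f := fun y : Matrix l m Ω => y.row i) (Pm.po (by fun_prop)) hf

@[fun_prop]
theorem Pq.updateCol [DecidableEq m] {v : α → l → Ω} (hf : Pq k p f) (j : m) (hv : Pq k p v) :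
    Pq k p fun x => (f x).updateCol j (v x) :=
  Pq.mat fun a b => (Pq.ite (b = j) (hv.eval a) (hf.entry a b)).congr fun x _ =>
    Matrix.updateCol_apply ..

@[fun_prop]
theorem Pq.det [DecidableEq m] {f : α → Matrix m m Ω} (hf : Pq k p f) :
    Pq k p fun x => (f x).det :=
  Pq.comp (f := fun y : Matrix m m Ω => y.det) (Pm.po (by fun_prop)) hf

@[fun_prop]
theorem Pq.adjugate [DecidableEq m] {f : α → Matrix m m Ω} (hf : Pq k p f) :
    Pq k p fun x => (f x).adjugate :=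
  Pq.comp (f := fun y : Matrix m m Ω => y.adjugate) (Pm.po (by fun_prop)) hf

end

theorem Au.jou {G : Gp Ω} {q : ℕ} (h : Au k q G) {κ : Type} [Fintype κ] {g : α → κ → Ω}
    (c : Cz k p) (hg : Pm k g) (hp : G.good p) :
    G.good fun y : α × (κ → Ω) => p y.1 ∧ y.2 ⬝ᵥ g y.1 = 1 :=
  G.congr (h.aff (g := fun _ => -1) c hg (by fun_prop) hp (h.toAx.of_not fun _ hx => by
    simpa using hx.2.2)) fun y => and_congr_right fun _ => by rw [add_neg_eq_zero]

theorem md_jou (κ : Type) [Fintype κ] :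
    Md k (fun x : κ → Ω => x ≠ 0) fun y : (κ → Ω) × (κ → Ω) => y.2 ⬝ᵥ y.1 = 1 :=
  ⟨fun x hx => by
      classical
      obtain ⟨i, hi⟩ := Function.ne_iff.1 hx
      exact ⟨Pi.single i (x i)⁻¹, by simpa using inv_mul_cancel₀ hi⟩,
    fun c hf _ => by fun_prop, fun C c hf hS c' => by
      obtain ⟨a, ha, e⟩ := c.unit hf hS
      exact (c'.comp (Pm.mk Pm.id ha)).congr fun z => (and_iff_left_of_imp fun h => e z h.1).symm,
    fun q G _ h c hf hS => ⟨h.jou c hf, h.toAx.unjou c hf hS⟩⟩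

theorem md_root : Md k (fun _ : Ω => True) fun y : Ω × Ω => y.2 ^ q = y.1 :=
  have hq := Sq.su (k := k)
  ⟨fun x _ => IsAlgClosed.exists_pow_nat_eq x hq.pos, fun c hf _ => by fun_prop,
    fun {β} _ {Q f} C c hf _ c' => hq.cz_of_frob ((c'.comp (f := fun z => (frob (q ^ 2) z, f z ^ q))
      (by fun_prop)).congr fun z => (and_iff_left (by
        rw [hq.frob_comm hf, frob_self, ← pow_mul, sq])).symm),
    fun _ G _ h c hf _ => h.toAx.root_iff hq c hf⟩

theorem po_fr : Pq k (fun _ => True) (frq q : Ω → Ω) :=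
  (Pq.id.pow q).congr fun x _ => fr_apply k x

theorem po_fr_symm : Pq k (fun _ => True) ((frq q).symm : Ω → Ω) :=
  ⟨_, _, _, Prod.snd, md_root, by fun_prop, fun x c _ hc =>
    (Equiv.eq_symm_apply _).2 ((fr_apply k c).trans hc)⟩

theorem po_frs (ε : ℤˣ) : Pq k (fun _ => True) (frz q ε : Ω → Ω) :=
  ((Pq.const (sg ε)).mul (Pq.id.pow q)).congr fun x _ => frs_apply k ε x

theorem po_frs_symm (ε : ℤˣ) : Pq k (fun _ => True) ((frz q ε).symm : Ω → Ω) :=
  (po_fr_symm.comp ((Pq.const (sg ε)).mul Pq.id)).congr fun x _ => (Equiv.symm_apply_eq _).2 (by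
    rw [frs_apply k, ← fr_apply k, Equiv.apply_symm_apply, ← mul_assoc, sg_mul_self, one_mul])

theorem po_zpow {F : Equiv.Perm α} (h : Pq k (fun _ => True) F) (h' : Pq k (fun _ => True) F.symm)
    (j : ℤ) : Pq k (fun _ => True) (F ^ j : Equiv.Perm α) := by
  induction j using Int.induction_on with
  | zero => exact Pq.id
  | succ n ih => exact (ih.comp h).congr fun x _ => by rw [_root_.zpow_add_one]; rfl
  | pred n ih => exact (ih.comp h').congr fun x _ => by rw [_root_.zpow_sub_one]; rfl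

/-- the inverse of a function without zeros -/
@[fun_prop]
theorem Pq.inv {g : α → Ω} (hg : Pq k p g) (h : ∀ x, p x → g x ≠ 0) :
    Pq k p fun x => (g x)⁻¹ :=
  Pq.pull (f := fun v : Unit → Ω => (v ())⁻¹) (g := fun x _ => g x) (p' := fun v => v ≠ 0)
    ⟨Unit → Ω, _, _, fun y => y.2 (), md_jou Unit, by fun_prop, fun x c _ hc =>
      eq_inv_of_mul_eq_one_left (by simpa [dotProduct] using hc)⟩
    (Pq.pi fun _ => hg) fun x hx e => h x hx (congrFun e ())

/-- the solution of an injective linear system -/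
theorem Pq.solve {m n : Type} [Fintype m] [Fintype n] {M : α → Matrix m n Ω} {v : α → m → Ω}
    {c : α → n → Ω} (hM : Pq k p M) (hv : Pq k p v) (h1 : ∀ x w, p x → M x *ᵥ w = 0 → w = 0)
    (h2 : ∀ x, p x → M x *ᵥ c x = v x) : Pq k p c := by
  classical
  obtain ⟨γ, _, P, F, h, hF, e⟩ := hM.mk hv
  have e1 : ∀ x d, p x → P (x, d) → (F (x, d)).1 = M x := fun x d hx hd =>
    congrArg Prod.fst (e x d hx hd)
  refine ⟨_, _, _, fun y => ∑ I, y.2.2 I • (((F (y.1, y.2.1)).1.submatrix I _root_.id).adjugate *ᵥ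
    fun i => (F (y.1, y.2.1)).2 (I i)), h.comap
      (F := fun y I => ((F y).1.submatrix I _root_.id).det) (by fun_prop) (fun x d hx hd => ?_)
      (md_jou (n → m)), by fun_prop, fun x d hx hd => ?_⟩
  · obtain ⟨I, hI⟩ := exists_minor (M := M x) fun u w huw => sub_eq_zero.1
      (h1 x _ hx (by rw [mulVec_sub, huw, sub_self]))
    exact fun h0 => hI (e1 x d hx hd ▸ congrFun h0 I)
  · have h3 := hd.2
    simp only [e x d.1 hx hd.1, ← h2 x hx] at h3 ⊢
    exact (solve_minors d.2 h3 _).symm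

end Pool.Agent.CXD
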