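import Pool.Agent.P.MP_2ce3e7_ag.DN5
import Pool.Agent.P.MP_2ce3e7_ag.SA0

/-! The new rules hold. -/

namespace Pool.Agent.CXD

theorem gs_aw {k K Ω : Type} [Field k] [Fintype k] [CommRing K] [Algebra k K] [IsNoetherianRing K]
    [Field Ω] [Algebra k Ω] [IsAlgClosed Ω] {q : ℕ} (hq : Su k q) : Au k q (GS k K Ω) :=
  ⟨gs_ax, gs_aff, gs_asb hq⟩

theorem gs_aw' {k₀ k K Ω : Type} [Field k₀] [Field k] [Fintype k] [CommRing K] [Algebra k K]
    [IsNoetherianRing K] [Field Ω] [Algebra k Ω] [IsAlgClosed Ω] [Algebra k₀ k] [Algebra k₀ Ω]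
    [IsScalarTower k₀ k Ω] {q : ℕ} (hq : Su k₀ q) (hs : Sch k q) : Au k₀ q (GS k K Ω) := by
  have := hq.finite
  have := Fintype.ofFinite k₀
  obtain ⟨t, h1, h2⟩ := hq.exists_neg
  exact ⟨gs_ax.down k₀, fun c D g => gs_aff (c.up k) (D.up k) (g.up k),
    fun c f => gs_asb' hs ⟨algebraMap k₀ k t, (map_ne_zero _).2 h1, by
      rw [← map_pow, ← map_add, h2, map_zero]⟩ (c.up k) (f.up k)⟩

end Pool.Agent.CXD
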