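import Pool.Agent.P.MP_2ce3e7_ag.SO4

/-! The bijective case in odd dimension. -/

set_option linter.unusedSectionVars false
set_option linter.unusedVariables false

open Function Matrix

noncomputable section

namespace Pool.Agent.CXD
open Finset

variable {k Ω : Type} [Field k] [Field Ω] [Algebra k Ω] {q : ℕ} {ε σ τ : ℤˣ} {s D : ℕ} [NeZero s]
  {R : ℤ → Prop} {f f' f₁ f₂ g : ℤ → ℤ} {ι n : Type} [Fintype ι] [Fintype n] {b : ι → Bool}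
  {G : Gp Ω} {B : (n → Ω) → (n → Ω) → Ω} {F : Equiv.Perm (n → Ω)} {Q Q' : (ℤ → ℤ → Ω) → Prop}
  {r θ : ℤ} {e : ℤ → ℤ → Ω} {κ δ : Ω} {α β : Type} [Af Ω α] [Af Ω β] [IsAlgClosed Ω] [Sq k q]

theorem Au.yb_dec (h : Au k q G) (h2 : (2 : Ω) ≠ 0) (h3 : C3 s D R f g)
    (hc : (bd D R f (-1)).card = Fintype.card ι) {W : (ZMod s → ι ⊕ ι → Ω) × β → Prop}
    {χ : (ZMod s → ι ⊕ ι → Ω) × β → Ω}
    (hp : Gy k G (AS q (fun w => Zt q (-ε) b s R (fun u => max (f u - 1) (u - 1)) w.1 ∧ W w) χ)) :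
    Gy k G (AS q (fun y : (Ecf Ω s D × (ZMod s → ι ⊕ ι → Ω)) × β =>
      Yb q ε b s D R f y.1 ∧ W (y.1.2, y.2)) fun y => χ (y.1.2, y.2)) := by
  classical
  have hF : Sem k q (FV q (-ε) b : Equiv.Perm (ι ⊕ ι → Ω)) := sem_FV _ _
  have hz : ∀ (p : (ZMod s → ι ⊕ ι → Ω) → Prop) u,
      Pq k p fun X => pext (FV q (-ε) b) s X u := fun p u => Pq.pext hF.po hF.po' Pq.id u
  have hz' : ∀ (p : ((ZMod s → ι ⊕ ι → Ω) × β) × Ω → Prop) u,
      Pq k p fun X => pext (FV q (-ε) b) s X.1.1 u :=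
    fun p u => Pq.pext hF.po hF.po' (Pq.fst (Pq.fst Pq.id)) u
  have hp' := h.gopns (T := ZMod s) (g := fun c X => if R c.val then
    Bf (-ε) (pext (FV q (-ε) b) s X.1.1 (g c.val)) (pext (FV q (-ε) b) s X.1.1 c.val) else 1)
    (fun c => Pq.ite _ (Pq.bf _ (hz' _ _) (hz' _ _)) (Pq.const 1)) hp
  have h4 : ∀ X : ZMod s → ι ⊕ ι → Ω,
      (Zt q (-ε) b s R (fun u => max (f u - 1) (u - 1)) X ∧ ∀ c : ZMod s, (if R c.val then
        Bf (-ε) (pext (FV q (-ε) b) s X (g c.val)) (pext (FV q (-ε) b) s X c.val) else 1) ≠ 0) →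
      Zo ε R f g (pext (FV q (-ε) b) s X) := by
    intro X hX
    refine ⟨fun u v hu hv h5 h6 => hX.1.2.2 u v hu hv h5 (le_max_of_le_left (by omega)),
      fun v => ?_⟩
    refine per_ind s (P := fun v => R v →
      Bf (-ε) (pext (FV q (-ε) b) s X (g v)) (pext (FV q (-ε) b) s X v) ≠ 0) (fun v => ?_) 0
      (fun v h5 h6 hv => ?_) v
    · rw [h3.perR]
      refine imp_congr_right fun hv => ?_
      rw [h3.perg hv, pe_pext, pe_pext, Bf_FV _ _ _ _ k, ← fr_apply k,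
        mul_ne_zero_iff_left (sg_ne _), Ne, Ne]
      nth_rewrite 1 [← (sem_fr (k := k) (q := q) (Ω := Ω)).zero]
      rw [(frq q).injective.eq_iff]
    · rw [zero_add] at h6
      have h7 := hX.2 (v : ZMod s)
      rwa [val_SE1 h5 h6, if_pos hv] at h7
  obtain ⟨e, he, h5⟩ := exists_er (D := D) (hz _) h3.toIs h4
  have h6 : ∀ y : Ecf Ω s D × (ZMod s → ι ⊕ ι → Ω), Yb q ε b s D R f y →
      (Zt q (-ε) b s R (fun u => max (f u - 1) (u - 1)) y.2 ∧ ∀ c : ZMod s, (if R c.val then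
        Bf (-ε) (pext (FV q (-ε) b) s y.2 (g c.val)) (pext (FV q (-ε) b) s y.2 c.val)
          else 1) ≠ 0) := by
    intro y hy
    have h7 := Ys.zs hy h3
    refine ⟨⟨hy.acz, fun w => ?_, fun u v hu hv h8 h9 => h7.ot u v hu hv h8 ?_⟩, fun c => ?_⟩
    · rw [h3.clq_pred]
      exact (hy.hy w).lion
    · have := h3.lt u hu
      have h10 : v ≤ max (f u - 1) (u - 1) := h9
      omega
    · split_ifs with h8
      exacts [h7.ne _ h8, one_ne_zero]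
  refine h.giso (fun X : ((ZMod s → ι ⊕ ι → Ω) × β) × Ω =>
      (((rse s D (e X.1.1), X.1.1), X.1.2), X.2))
    (fun y : ((Ecf Ω s D × (ZMod s → ι ⊕ ι → Ω)) × β) × Ω => ((y.1.1.2, y.1.2), y.2))
    (Pq.mk (Pq.mk (Pq.mk ((Pq.rse he).pull (Pq.fst (Pq.fst Pq.id)) fun X hX => ⟨hX.1.1.1, hX.2⟩)
      (Pq.fst (Pq.fst Pq.id))) (Pq.snd (Pq.fst Pq.id))) (Pq.snd Pq.id)) (by fun_prop)
    (fun X hX => ⟨⟨?_, hX.1.1.2⟩, hX.1.2⟩)
    (fun y hy => ⟨⟨⟨(h6 _ hy.1.1).1, hy.1.2⟩, hy.2⟩, (h6 _ hy.1.1).2⟩) (fun _ _ => rfl)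
    (fun y hy => ?_) hp'
  · have hX' := And.intro hX.1.1.1 hX.2
    have h7 := (h5 _ hX').ys (b := b) k h2 h3 (h4 _ hX') (pe_pext _ X.1.1) hX'.1.1 hc
    change Ys q ε b s D R f (ee q ε (rse s D (e X.1.1))) _
    rwa [h7.am.ee_rse k]
  · refine Prod.ext (Prod.ext (Prod.ext ?_ rfl) rfl) rfl
    change rse s D (e y.1.1.2) = y.1.1.1
    rw [(h5 _ (h6 _ hy.1.1)).uni (Ys.er hy.1.1 h3) (Ys.zs hy.1.1 h3), rse_ee]

theorem yb_map_SO5 {b' : ι → Bool} (m : Matrix (ι ⊕ ι) (ι ⊕ ι) Ω)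
    (h1 : ∀ x y, Bf (-ε) (m *ᵥ x) (m *ᵥ y) = Bf (-ε) x y)
    (h2 : ∀ x, FV q (-ε) b' (m *ᵥ x) = m *ᵥ FV q (-ε) b x)
    {y : Ecf Ω s D × (ZMod s → ι ⊕ ι → Ω)} (hy : Yb q ε b s D R f y) :
    Yb q ε b' s D R f (y.1, fun c => m *ᵥ y.2 c) := by
  have e1 : pext (FV q (-ε) b') s (fun c => m *ᵥ y.2 c) =
      fun u => m.mulVecLin (pext (FV q (-ε) b) s y.2 u) :=
    funext fun u => pext_map (F := FV q (-ε) b) (F' := FV q (-ε) b') (fun x => m *ᵥ x)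
      (fun x => (h2 x).symm) u
  refine ⟨hy.am, hy.se, hy.piv, pe_pext _ _, fun u hu => ?_, fun u => ?_, fun θ u hu v hv => ?_⟩
  · change pext (FV q (-ε) b') s (fun c => m *ᵥ y.2 c) u = 0
    rw [e1]
    beta_reduce
    rw [hy.acz u hu, map_zero]
  · change Ew D (ee q ε y.1) (pext (FV q (-ε) b') s fun c => m *ᵥ y.2 c) u = 0
    rw [e1, ew_map, hy.ew, map_zero]
  · change Bf (-ε) (pext (FV q (-ε) b') s (fun c => m *ᵥ y.2 c) u)
        (pext (FV q (-ε) b') s (fun c => m *ᵥ y.2 c) v) = 0 ∧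
      Bf (-ε) (pext (FV q (-ε) b') s (fun c => m *ᵥ y.2 c) u)
        (Pv D (ee q ε y.1) (pext (FV q (-ε) b') s fun c => m *ᵥ y.2 c) θ v) =
          (if u = v then 1 else 0) ∧
      Bf (-ε) (Pv D (ee q ε y.1) (pext (FV q (-ε) b') s fun c => m *ᵥ y.2 c) θ u)
        (Pv D (ee q ε y.1) (pext (FV q (-ε) b') s fun c => m *ᵥ y.2 c) θ v) = 0
    rw [e1, pv_map, pv_map]
    simp only [mulVecLin_apply, h1]
    exact hy.hy θ u hu v hv

theorem Au.yb_false (h : Au k q G) (h2 : (2 : Ω) ≠ 0) (b : ι → Bool) {P : β → Prop}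
    {χ : Ecf Ω s D × β → Ω}
    (hp : Gy k G (AS q (fun y : (Ecf Ω s D × (ZMod s → ι ⊕ ι → Ω)) × β =>
      Yb q 1 (fun _ => false) s D R f y.1 ∧ P y.2) fun y => χ (y.1.1, y.2))) :
    Gy k G (AS q (fun y : (Ecf Ω s D × (ZMod s → ι ⊕ ι → Ω)) × β =>
      Yb q 1 b s D R f y.1 ∧ P y.2) fun y => χ (y.1.1, y.2)) := by
  classical
  obtain ⟨m, m', km, km', e1, e2, e3⟩ := exists_spl (q := q) k h2 b
  have e4 : m' * m = 1 := mul_eq_one_comm.1 e1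
  have i1 : ∀ x, m *ᵥ (m' *ᵥ x) = x := fun x => by rw [mulVec_mulVec, e1, one_mulVec]
  have i2 : ∀ x, m' *ᵥ (m *ᵥ x) = x := fun x => by rw [mulVec_mulVec, e4, one_mulVec]
  have pm : ∀ (a : Matrix (ι ⊕ ι) (ι ⊕ ι) Ω) [Kr k a]
      (p : (Ecf Ω s D × (ZMod s → ι ⊕ ι → Ω)) × β → Prop),
      Pq k p fun y => ((y.1.1, fun c => a *ᵥ y.1.2 c), y.2) := fun a _ p =>
    Pq.mk (Pq.mk (Pq.fst (Pq.fst Pq.id)) (Pq.pi fun c =>
      Pq.mulVec (Pq.const a) ((Pq.snd (Pq.fst Pq.id)).eval c))) (Pq.snd Pq.id)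
  have j1 : ∀ x y, Bf (-1) (m' *ᵥ x) (m' *ᵥ y) = Bf (-1) x y := fun x y => by rw [← e2, i1, i1]
  have j2 : ∀ x, FH q ι (m' *ᵥ x) = m' *ᵥ FV q (-1) b x := fun x => by
    have := e3 (m' *ᵥ x)
    rw [i1] at this
    rw [this, i2]
  exact h.as_iso (fun y => ((y.1.1, fun c => m *ᵥ y.1.2 c), y.2))
    (fun y => ((y.1.1, fun c => m' *ᵥ y.1.2 c), y.2)) (pm m _) (pm m' _)
    (fun y hy => ⟨yb_map_SO5 m e2 e3 hy.1, hy.2⟩)
    (fun y hy => ⟨yb_map_SO5 m' j1 j2 hy.1, hy.2⟩)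
    (fun y _ => by simp only [i2]) (fun y _ => by simp only [i1]) (Eqs.of_eq fun _ _ => rfl) hp

theorem pext_inl_SO5 (X : ZMod s → (ι ⊕ ι) ⊕ Unit → Ω) (u : ℤ) :
    pext (FV q 1 b) s (fun c j => X c (.inl j)) u = fun j => pext (FO q b τ) s X u (.inl j) :=
  pext_map (F := FO q b τ) (F' := FV q 1 b) (fun x j => x (.inl j)) (fun x => FO_inl x) u

theorem pext_inr_SO5 (X : ZMod s → (ι ⊕ ι) ⊕ Unit → Ω) (u : ℤ) :
    pext (frz q τ) s (fun c => X c (.inr ())) u = pext (FO q b τ) s X u (.inr ()) :=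
  pext_map (F := FO q b τ) (F' := frz q τ) (fun x => x (.inr ())) (fun x => FO_inr x) u

theorem ph_odd (X : ZMod s → (ι ⊕ ι) ⊕ Unit → Ω) :
    ph s D (Bod δ) e (pext (FO q b τ) s X) =
      δ * ph s D (· * ·) e (pext (frz q τ) s fun c => X c (.inr ())) +
        ph s D (Bf 1) e (pext (FV q 1 b) s fun c j => X c (.inl j)) := by
  simp only [ph, pext_inl_SO5 (τ := τ), pext_inr_SO5 (b := b), Bod, Finset.mul_sum,
    ← Finset.sum_add_distrib]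
  refine Finset.sum_congr rfl fun v _ => ?_
  simp only [mul_add, Finset.sum_add_distrib, Finset.mul_sum]
  have : ∀ a₁ a₂ a₃ a₄ a₅ a₆ : Ω, a₂ = a₅ → a₄ = a₆ →
      a₁ + a₂ + (a₃ + a₄) = a₅ + a₆ + (a₁ + a₃) := by
    rintro _ _ _ _ _ _ rfl rfl
    ring
  exact this _ _ _ _ _ _ (by ring) (Finset.sum_congr rfl fun u _ => by ring)

theorem acz_odd_SO5 (X : ZMod s → (ι ⊕ ι) ⊕ Unit → Ω) : Acz R (pext (FO q b τ) s X) ↔
    Acz R (pext (frz q τ) s fun c => X c (.inr ())) ∧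
      Acz R (pext (FV q 1 b) s fun c j => X c (.inl j)) := by
  constructor
  · intro H
    refine ⟨fun u hu => ?_, fun u hu => ?_⟩
    · rw [pext_inr_SO5 (b := b), H u hu]
      rfl
    · rw [pext_inl_SO5 (τ := τ), H u hu]
      rfl
  · rintro ⟨H1, H2⟩ u hu
    funext j
    rcases j with j | ⟨⟩
    · have := H2 u hu
      rw [pext_inl_SO5 (τ := τ)] at this
      exact congrFun this j
    · have := H1 u hu
      rwa [pext_inr_SO5 (b := b)] at this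

theorem Az.tq_three_odd (h : Az k q G) (h2 : (2 : Ω) ≠ 0) (hδ : δ ^ q = δ) (h0 : δ ≠ 0)
    (h3 : C3 s D R f g)
    (hT : GP k G q (-τ) δ (Bi D R f) s D R (fun u => max (f u - 1) (u - 1))
      (fun u => max (f u - 1) (u - 1)) fun _ => True) :
    GT k G q 1 (Bod δ) (FO q b τ) s D R f (fun u => u - 1) (Piv R f) := by
  refine h.toAu.cover (fd_bo hδ h0 b τ) h2 h3 fun b' => ?_
  have hc : (bd D R f (-1)).card = Fintype.card (Bi D R f) := (Fintype.card_coe _).symm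
  have kδ := kr_of_pow (k := k) hδ
  have g0 := h.toAu.gacz (sem_frs (k := k) τ) h3.toIs
    (h.toAu.gy_yb (ε := 1) (b := b') h2 h3 hc (h.zt h2 _ b' h3.toIs.pred))
  have g1 := h.gy_l h2 hδ h3.toIs.pred (2 * D + 1) hT
  have g2 := h.toAu.yb_dec (ε := 1) (b := fun _ => false) h2 h3 hc
    (W := fun w => Sw (2 * D + 1) (pext (FH q (Bi D R f)) s w.1) ∧ Wp q (-τ) s R w) g1
  have g3 := h.toAu.lstep (τ := τ) h3 hc hδ (g2.as_of_iff
    (fun y => ⟨fun H => ⟨H.1, Ys.sw H.1 h3 hc, H.2⟩, fun H => ⟨H.1, H.2.2⟩⟩) fun _ _ => rfl)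
  have g4 := h.toAu.yb_false h2 b' (P := fun t : ZMod s → Ω => Acz R (pext (frz q τ) s t))
    (χ := fun y => δ * ph s D (· * ·) (ee q 1 y.1) (pext (frz q τ) s y.2)) g3
  have pt : ∀ (p : (Ecf Ω s D × (ZMod s → Bi D R f ⊕ Bi D R f → Ω)) × (ZMod s → Ω) → Prop) u,
      Pq k p fun y => pext (frz q τ) s y.2 u := fun p u =>
    Pq.pext (sem_frs (k := k) τ).po (sem_frs (k := k) τ).po' (Pq.snd Pq.id) u
  have pe : ∀ (p : (Ecf Ω s D × (ZMod s → Bi D R f ⊕ Bi D R f → Ω)) × (ZMod s → Ω) → Prop) u v,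
      Pq k p fun y => ee q 1 y.1.1 u v := fun p u v => Pq.ee (Pq.fst (Pq.fst Pq.id)) 1 u v
  have g5 := h.planes (ε := 1) (b := b') (e := fun y => ee q 1 y.1.1)
    (z := fun y => pext (FV q (-1) b') s y.1.2) h2 h3 hc (pe _)
    (fun u => Pq.pext (sem_FV (k := k) (-1) b').po (sem_FV (k := k) (-1) b').po'
      (Pq.snd (Pq.fst Pq.id)) u) (fun _ hx => hx.1)
    ((Pq.const δ).mul (Pq.ph (pe _) fun u v => (pt _ u).mul (pt _ v))) g0 g4 b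
  refine h.toAu.as_iso
    (fun y : ((Ecf Ω s D × (ZMod s → Bi D R f ⊕ Bi D R f → Ω)) × (ZMod s → Ω)) ×
      (ZMod s → ι ⊕ ι → Ω) => (y.1.1, fun c => Sum.elim (y.2 c) fun _ : Unit => y.1.2 c))
    (fun y => ((y.1, fun c => y.2 c (.inr ())), fun c j => y.2 c (.inl j)))
    (Pq.mk (by fun_prop) (Pq.pi fun c => Pq.elim (by fun_prop) (by fun_prop))) (by fun_prop)
    (fun y hy => ⟨hy.1.1, (acz_odd_SO5 _).2 ⟨hy.1.2, hy.2⟩⟩)
    (fun y hy => ⟨⟨hy.1, ((acz_odd_SO5 _).1 hy.2).1⟩, ((acz_odd_SO5 _).1 hy.2).2⟩)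
    (fun y _ => rfl)
    (fun y _ => Prod.ext rfl (funext fun c => funext fun j => by rcases j with j | ⟨⟩ <;> rfl))
    (Eqs.of_eq fun y _ => ?_) g5
  exact ph_odd _

end Pool.Agent.CXD
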