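import Pool.Agent.P.MP_2ce3e7_ag.SOJ
import Pool.Agent.P.MP_2ce3e7_ag.SO5

/-! The varieties of interval systems in odd dimension are good. -/

set_option linter.unusedSectionVars false
set_option linter.unusedVariables false

open Function Matrix

noncomputable section

namespace Pool.Agent.CXD
variable {k Ω : Type} [Field k] [Field Ω] [Algebra k Ω] {q : ℕ} [Sq k q] [IsAlgClosed Ω] {G : Gp Ω}

theorem zo_all (h2 : (2 : Ω) ≠ 0) {s D : ℕ} [NeZero s] (m : ℕ) :
    ∀ (ι : Type) [Fintype ι], Fintype.card ι = m → ∀ (δ : Ω), δ ^ q = δ → δ ≠ 0 →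
      ∀ (b : ι → Bool) (τ : ℤˣ) (R : ℤ → Prop) (f : ℤ → ℤ) (G : Gp Ω), Az k q G → Is s D R f →
        Gy k G (Zg (Bod δ) (FO q b τ) s R f) := by
  induction m using Nat.strong_induction_on with
  | _ m ih =>
    intro ι _ hm δ hδ h0 b τ R f G h hi
    have hF := fd_bo (k := k) hδ h0 b τ
    have h4 : (4 : Ω) = 2 * 2 := by norm_num
    have h5 : (-4 * δ) ^ q = -4 * δ := by
      rw [mul_pow, (Sq.su : Su k q).neg_pow, h4, mul_pow, two_pow_eq k, hδ]
    have h6 : -4 * δ ≠ 0 := mul_ne_zero (neg_ne_zero.2 (h4 ▸ mul_ne_zero h2 h2)) h0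
    by_cases hc : ∀ w, (clq R f w).ncard ≤ m
    · refine h.zg hF h2 hi fun f' hi' hle => ?_
      refine gt_ind hF h2 m
        (fun R f r hi h0' h1 hR hf hp G h => h.tq_1a_odd h2 hδ h0 hi h0' h1 hR hf (hp G h))
        (fun R f g h3 hlt G h => h.tq_three_odd h2 hδ h0 h3 (h.gp_ind h2 hδ h0 _
          (fun R' f' g' σ h3' hlt' => h.gp_three h2 hδ h0 h3' fun b' τ' =>
            ih _ (hlt'.trans hlt) _ (Fintype.card_coe _) _ h5 h6 _ _ _ _ G h h3'.toIs.pred)
          h3.toIs.pred (fun w => ?_) _)) hi' (fun w => ?_) h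
      · rw [h3.clq_pred, Set.ncard_coe_finset, h3.card_bd w (-1)]
      · exact (Set.ncard_le_ncard (s := clq R f' w) (t := clq R f w)
          (fun u hu => ⟨hu.1, hu.2.1, hu.2.2.trans (hle u)⟩) (hi.fin w)).trans (hc w)
    · refine h.toAu.gnot fun X hX => hc fun w => ?_
      have := hF.card_le (hX.2.1 w) fun u hu v hv => by
        rcases le_total u v with e | e
        · exact hX.2.2 u v hu.1 hv.1 e (hv.2.1.trans hu.2.2)
        · rw [hF.comm, hX.2.2 v u hv.1 hu.1 e (hu.2.1.trans hv.2.2), mul_zero]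
      simp only [Fintype.card_sum, Fintype.card_unit, hm] at this
      omega

theorem Az.zo (h : Az k q G) (h2 : (2 : Ω) ≠ 0) {ι : Type} [Fintype ι] {δ : Ω} (hδ : δ ^ q = δ)
    (h0 : δ ≠ 0) (b : ι → Bool) (τ : ℤˣ) {s D : ℕ} [NeZero s] {R : ℤ → Prop} {f : ℤ → ℤ}
    (hi : Is s D R f) : Gy k G (Zg (Bod δ) (FO q b τ) s R f) :=
  zo_all h2 _ ι rfl δ hδ h0 b τ R f G h hi

end Pool.Agent.CXD
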