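import Pool.Agent.P.MP_2ce3e7_ag.SYE
import Pool.Agent.P.MP_2ce3e7_ag.SHO

/-! The varieties of bars in odd dimension. -/

set_option linter.unusedSectionVars false
set_option linter.unusedVariables false

open Function Matrix

noncomputable section

namespace Pool.Agent.CXD
variable {k Ω : Type} [Field k] [Field Ω] [Algebra k Ω] {G : Gp Ω} {q s D : ℕ} [Sq k q]
  [IsAlgClosed Ω] [NeZero s] {R : ℤ → Prop} {f : ℤ → ℤ}

variable {n : Type} [Fintype n] [DecidableEq n] {J : Matrix n n Ω}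

/-- a vector orthogonal to the first basis vectors -/
def emo (ι κ : Type) :
    (((ι ⊕ ι) ⊕ Unit → Ω) × (κ → Ω)) →ₗ[Ω] ((κ ⊕ ι) ⊕ (κ ⊕ ι)) ⊕ Unit → Ω where
  toFun y := Sum.elim (emy (fun j => y.1 (.inl j), y.2)) fun j => y.1 (.inr j)
  map_add' x y := by
    funext j
    rcases j with ((j | j) | (j | j)) | j <;> simp [emy]
  map_smul' t y := by
    funext j
    rcases j with ((j | j) | (j | j)) | j <;> simp [emy]

theorem Az.bar_all (h : Az k q G) (h2 : (2 : Ω) ≠ 0) (ε : ℤˣ) (h3 : J.det ≠ 0)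
    (h4 : Jᵀ = (sg ε : Ω) • J) (h5 : fm q J = (sg ε : Ω) • J) {κ : Type}
    [Fintype κ] {u : κ → n → Ω} (hu : ∀ a, fry n (frq q) (u a) = u a) (hi : Is s D R f)
    (hf : ∀ b, b ≤ f b) : Gy k G (Bary (fry n (frq q)) (J, 0) (fun _ => Set.univ) s R f u) := by
  rcases Nat.even_or_odd (Fintype.card n) with hn | ⟨m, hm⟩
  · exact h.bar_even h2 ε h3 h4 h5 hn hu hi hf
  classical
  by_cases hx : ∃ X, Bary (fry n (frq q)) (J, 0) (fun _ => Set.univ) s R f u X
  swap
  · exact h.toAu.gnot fun X hX => hx ⟨X, hX⟩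
  obtain ⟨X, hX⟩ := hx
  obtain ⟨u1, u2, hc, hM⟩ := pre_SYE k h3 h4 h5 hX
  have e (x : n → Ω) : fry n (frq q) x = 1 *ᵥ fun j => x j ^ q :=
    (funext fun j => fr_apply k _).trans (one_mulVec _).symm
  obtain rfl : ε = 1 := by
    refine (Int.units_eq_one_or ε).resolve_right ?_
    rintro rfl
    have e1 := congrArg Matrix.det h4
    rw [det_transpose, det_smul, sg_neg, sg_one, hm, pow_succ, pow_mul, neg_one_sq, one_pow] at e1
    exact mul_ne_zero h2 h3 (by linear_combination e1)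
  rw [sg_one, one_smul] at h4 hM
  obtain ⟨b, τ, g, g1, g2, g3, g4⟩ := wd_odd k h2 (ι := Fin (m - Fintype.card κ)) (one_pow q)
    one_ne_zero J 1 (by rw [Fintype.card_fin]; omega) h3 h4 hM u u1
    (fun a => (e _).symm.trans (hu a)) u2
  rw [← funext g4]
  refine h.toAu.bar_frame (C₁ := fun _ => 0) (fd_bo (one_pow q) one_ne_zero b τ) rfl g1
    (fun x y => by rw [isq_l, g2, and_iff_left rfl]) (fun x => (e _).trans (g3 x))
    (fun x => FO_FO k x) (emo _ κ) (Sum.map (Sum.map .inr .inr) id)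
    (fun a => .inl (.inl (.inl a))) (fun a => .inl (.inr (.inl a))) (Pm.pi ?_) (fun y => ?_)
    (fun _ _ => rfl) (fun x hx => funext ?_) (fun y y' => ?_) (fun _ => rfl) (fun y => funext ?_)
    (fun a => funext ?_) (fun a x => ?_) hi hf
    ((h.zo h2 (one_pow q) one_ne_zero b τ hi).congr zq_zero)
  · rintro (((j | j) | (j | j)) | j)
    exacts [Pm.id.snd.eval j, Pm.id.fst.eval _, Pm.const 0, Pm.id.fst.eval _, Pm.id.fst.eval _]
  · rintro ((j | j) | j) <;> rfl
  · rintro (((j | j) | (j | j)) | j)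
    exacts [rfl, rfl, (hx j).symm, rfl, rfl]
  · exact congrArg (· + _) (bf_emy 1 (fun j => y.1 (.inl j), y.2) (fun j => y'.1 (.inl j), y'.2))
  · rintro (j | j)
    · exact congrFun (fv_emy k 1 b (fun j => y.1 (.inl j), y.2)) j
    · rfl
  · rintro (((j | j) | (j | j)) | j) <;> simp [emo, emy, Pi.single_apply]
  · simp [Bod, Bf, Pi.single_apply]

end Pool.Agent.CXD
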