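import Pool.Agent.P.MP_2ce3e7_ag.SB2

/-! The variety of solutions is open in the variety of a smaller interval system. -/

set_option linter.unusedSectionVars false
set_option linter.unusedVariables false

open Function Matrix

noncomputable section

namespace Pool.Agent.CXD
open Finset

variable {k Ω : Type} [Field k] [Field Ω] [Algebra k Ω] {q : ℕ} {ε : ℤˣ} {s D : ℕ} [NeZero s]
  {R : ℤ → Prop} {f g : ℤ → ℤ} {ι : Type} [Fintype ι] {b : ι → Bool} {G : Gp Ω}
  {e : ℤ → ℤ → Ω} {θ : ℤ} [IsAlgClosed Ω]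
  [Sq k q] {z : ℤ → ι ⊕ ι → Ω}

theorem Er.per (k : Type) [Field k] [Algebra k Ω] [Sq k q] (he : Er ε D R f g z e)
    (h : C3 s D R f g) (hz : Zo ε R f g z) (hp : Pe (FV q (-ε) b) s z) (u v : ℤ) :
    e (u + s) (v + s) = -(sg ε * e u v ^ q) := by
  have hq : Su k q := Sq.su
  have hF : Sem k q (FV q (-ε) b : Equiv.Perm (ι ⊕ ι → Ω)) := sem_FV _ _
  have h0 : (0 : Ω) ^ q = 0 := by
    have := (sem_fr (k := k) (q := q) (Ω := Ω)).zero
    rwa [fr_apply k] at this
  have h2 := sg_mul_self (Ω := Ω) ε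
  have key : Er ε D R f g z fun u v => -(sg ε * e (u - s) (v - s) ^ q) := by
    refine ⟨fun u v hu hv h3 h4 => ?_, fun u v h3 h4 => ?_, fun u v h3 => ?_⟩
    · obtain ⟨u, rfl⟩ : ∃ u', u = u' + s := ⟨u - s, by ring⟩
      obtain ⟨v, rfl⟩ : ∃ v', v = v' + s := ⟨v - s, by ring⟩
      rw [h.perR] at hu hv
      rw [h.perf] at h4
      have h5 := congrArg (· ^ q) (he.rc u v hu hv (by omega) (by omega))
      have h6 : Pv D (fun u v => -(sg ε * e (u - s) (v - s) ^ q)) z (v + s) (u + s) =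
          (-sg ε : Ω) • FV q (-ε) b (Pv D e z v u) := by
        rw [Pv, Pv, hF.sum, Finset.smul_sum, show u + s + D = u + D + s by ring,
          ← Finset.map_add_right_Ioc, Finset.sum_map]
        refine Finset.sum_congr rfl fun w _ => ?_
        simp only [addRightEmbedding_apply, add_sub_cancel_right]
        rw [hp w, hF.smul, smul_smul, neg_mul]
      rw [h6, h.perg hv, hp, hp, Bf_smul_right, Bf_FV _ _ _ _ k, Bf_FV _ _ _ _ k, sg_neg]
      simp only [add_sub_cancel_right, add_left_inj]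
      rw [hq.add_pow, mul_pow] at h5
      have h7 : (if u = g v then (1 : Ω) else 0) ^ q = if u = g v then 1 else 0 := by
        split_ifs
        exacts [one_pow q, h0]
      rw [← h7, ← h5]
      linear_combination (e u v ^ q * Bf (-ε) (z (g v)) (z v) ^ q +
        Bf (-ε) (z (g v)) (Pv D e z v u) ^ q) * h2
    · obtain ⟨u, rfl⟩ : ∃ u', u = u' + s := ⟨u - s, by ring⟩
      obtain ⟨v, rfl⟩ : ∃ v', v = v' + s := ⟨v - s, by ring⟩
      rw [h.perR, h.perR, h.perf, add_le_add_iff_right] at h4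
      simp only [add_sub_cancel_right]
      rw [he.out u v (by omega) h4, h0, mul_zero, neg_zero]
    · rw [he.sym (u - s) (v - s) (by omega), mul_pow, sg_pow k]
      ring
  have h8 := congrFun (congrFun (he.uni key hz) (u + s)) (v + s)
  simpa only [add_sub_cancel_right] using h8

theorem Er.ys (k : Type) [Field k] [Algebra k Ω] [Sq k q] (he : Er ε D R f g z e)
    (h2 : (2 : Ω) ≠ 0) (h : C3 s D R f g) (hz : Zo ε R f g z) (hp : Pe (FV q (-ε) b) s z)
    (ha : Acz R z) (hc : (bd D R f (-1)).card = Fintype.card ι) : Ys q ε b s D R f e z := by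
  have hs := he.se h2 h hz hc
  refine ⟨⟨fun u v => ?_, he.per k h hz hp, fun u v h3 => he.out u v (by omega) fun h4 => ?_⟩, hs,
    fun u hu => left_ne_zero_of_mul_eq_one (he.piv h hu), hp, ha, he.ew h hz hc, he.hy h hz⟩
  · rcases lt_trichotomy u v with h3 | rfl | h3
    · exact he.sym v u h3
    · rcases Int.units_eq_one_or ε with rfl | rfl
      · rw [sg_one, one_mul]
      · rw [hs u u le_rfl fun h4 => by simpa using h4.2.2.2 rfl, mul_zero]
    · rw [he.sym u v h3, ← mul_assoc, sg_mul_self, one_mul]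
  · have := h.hi u
    omega

theorem row_SB3 {α : Type} [Af Ω α] {p : α → Prop} {z : α → ℤ → ι ⊕ ι → Ω}
    (hz : ∀ u, Pq k p fun x => z x u) (h : Is s D R f) (h1 : ∀ x, p x → Zo ε R f g (z x))
    (u : ℤ) (n : ℕ) : ∃ r : α → ℤ → Ω, (∀ v, Pq k p fun x => r x v) ∧
      ∀ x, p x → ∀ v, u + D - n < v → (R u → R v → v ≤ f u →
        r x v * Bf (-ε) (z x (g v)) (z x v) +
          Bf (-ε) (z x (g v)) (∑ w ∈ Ioc v (u + D), r x w • z x w) = if u = g v then 1 else 0) ∧
        (¬(R u ∧ R v ∧ v ≤ f u) → r x v = 0) := by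
  classical
  induction n with
  | zero =>
    refine ⟨fun _ _ => 0, fun _ => Pq.const 0, fun x _ v hv => ⟨fun _ _ h2 => ?_, fun _ => rfl⟩⟩
    have := h.hi u
    omega
  | succ n ih =>
    obtain ⟨r, hr, ih⟩ := ih
    refine ⟨fun x v => if v = u + D - n then (if R u ∧ R v ∧ v ≤ f u then
      ((if u = g v then 1 else 0) - Bf (-ε) (z x (g v)) (∑ w ∈ Ioc v (u + D), r x w • z x w)) *
        (Bf (-ε) (z x (g v)) (z x v))⁻¹ else 0) else r x v, fun v => ?_, fun x hx v hv => ?_⟩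
    · refine Pq.ite _ ?_ (hr v)
      by_cases h2 : R u ∧ R v ∧ v ≤ f u
      · simp only [if_pos h2]
        exact ((Pq.ite _ (Pq.const 1) (Pq.const 0)).sub (Pq.bf _ (hz _)
          (Pq.vsum _ fun w => (hr w).vsmul (hz w)))).mul
          ((Pq.bf _ (hz _) (hz _)).inv fun x hx => (h1 x hx).ne v h2.2.1)
      · simp only [if_neg h2]
        exact Pq.const 0
    · have h3 : ∑ w ∈ Ioc v (u + D), (if w = u + D - n then (if R u ∧ R w ∧ w ≤ f u then
          ((if u = g w then 1 else 0) -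
            Bf (-ε) (z x (g w)) (∑ w' ∈ Ioc w (u + D), r x w' • z x w')) *
          (Bf (-ε) (z x (g w)) (z x w))⁻¹ else 0) else r x w) • z x w =
          ∑ w ∈ Ioc v (u + D), r x w • z x w :=
        Finset.sum_congr rfl fun w hw => by
          rw [if_neg (by have := (mem_Ioc.1 hw).1; push_cast at hv; omega)]
      simp only [h3]
      by_cases h4 : v = u + D - n
      · simp only [if_pos h4]
        refine ⟨fun hu hv' h5 => ?_, fun h5 => if_neg h5⟩
        rw [if_pos ⟨hu, hv', h5⟩, inv_mul_cancel_right₀ ((h1 x hx).ne v hv'), sub_add_cancel]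
      · simp only [if_neg h4]
        exact ih x hx v (by push_cast at hv; omega)

theorem exists_er {α : Type} [Af Ω α] {p : α → Prop} {z : α → ℤ → ι ⊕ ι → Ω}
    (hz : ∀ u, Pq k p fun x => z x u) (h : Is s D R f) (h1 : ∀ x, p x → Zo ε R f g (z x)) :
    ∃ e : α → ℤ → ℤ → Ω, (∀ u v, Pq k p fun x => e x u v) ∧
      ∀ x, p x → Er ε D R f g (z x) (e x) := by
  choose r hr h2 using fun u => row_SB3 hz h h1 u (D + 1)
  refine ⟨fun x u v => if u ≤ v then r u x v else sg ε * r v x u,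
    fun u v => Pq.ite _ (hr u v) ((Pq.const _).mul (hr v u)), fun x hx =>
      ⟨fun u v hu hv h3 h4 => ?_, fun u v h3 h4 => ?_, fun u v h3 => ?_⟩⟩
  · beta_reduce
    rw [if_pos h3, ← (h2 u x hx v (by push_cast; omega)).1 hu hv h4, Pv]
    congr 2
    exact Finset.sum_congr rfl fun w hw => by
      rw [if_pos (by have := (mem_Ioc.1 hw).1; omega)]
  · beta_reduce
    rw [if_pos h3]
    exact (h2 u x hx v (by push_cast; omega)).2 h4
  · beta_reduce
    rw [if_neg h3.not_ge, if_pos h3.le]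

theorem Au.gy_yb (h : Au k q G) (h2 : (2 : Ω) ≠ 0) (h3 : C3 s D R f g)
    (hc : (bd D R f (-1)).card = Fintype.card ι)
    (hp : Gy k G (Zt (Ω := Ω) q (-ε) b s R fun u => max (f u - 1) (u - 1))) :
    Gy k G (Yb (Ω := Ω) q ε b s D R f) := by
  classical
  have hF : Sem k q (FV q (-ε) b : Equiv.Perm (ι ⊕ ι → Ω)) := sem_FV _ _
  have hz : ∀ (p : (ZMod s → ι ⊕ ι → Ω) → Prop) u,
      Pq k p fun X => pext (FV q (-ε) b) s X u := fun p u => Pq.pext hF.po hF.po' Pq.id u
  have hp' := h.gopns (T := ZMod s) (g := fun c X => if R c.val then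
    Bf (-ε) (pext (FV q (-ε) b) s X (g c.val)) (pext (FV q (-ε) b) s X c.val) else 1)
    (fun c => Pq.ite _ (Pq.bf _ (hz _ _) (hz _ _)) (Pq.const 1)) hp
  have h4 : ∀ X : ZMod s → ι ⊕ ι → Ω,
      (Zt q (-ε) b s R (fun u => max (f u - 1) (u - 1)) X ∧ ∀ c : ZMod s, (if R c.val then
        Bf (-ε) (pext (FV q (-ε) b) s X (g c.val)) (pext (FV q (-ε) b) s X c.val) else 1) ≠ 0) →
      Zo ε R f g (pext (FV q (-ε) b) s X) := by
    intro X hX
    refine ⟨fun u v hu hv h5 h6 => hX.1.2.2 u v hu hv h5 (le_max_of_le_left (by omega)),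
      fun v => ?_⟩
    refine per_ind s (P := fun v => R v →
      Bf (-ε) (pext (FV q (-ε) b) s X (g v)) (pext (FV q (-ε) b) s X v) ≠ 0) (fun v => ?_) 0
      (fun v h5 h6 hv => ?_) v
    · rw [h3.perR]
      refine imp_congr_right fun hv => ?_
      rw [h3.perg hv, pe_pext, pe_pext, Bf_FV _ _ _ _ k, ← fr_apply k,
        mul_ne_zero_iff_left (sg_ne _), Ne, Ne]
      nth_rewrite 1 [← (sem_fr (k := k) (q := q) (Ω := Ω)).zero]
      rw [(frq q).injective.eq_iff]
    · rw [zero_add] at h6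
      have h7 := hX.2 (v : ZMod s)
      rwa [val_SE1 h5 h6, if_pos hv] at h7
  obtain ⟨e, he, h5⟩ := exists_er (D := D) (hz _) h3.toIs h4
  have h6 : ∀ y : Ecf Ω s D × (ZMod s → ι ⊕ ι → Ω), Yb q ε b s D R f y →
      (Zt q (-ε) b s R (fun u => max (f u - 1) (u - 1)) y.2 ∧ ∀ c : ZMod s, (if R c.val then
        Bf (-ε) (pext (FV q (-ε) b) s y.2 (g c.val)) (pext (FV q (-ε) b) s y.2 c.val)
          else 1) ≠ 0) := by
    intro y hy
    have h7 := Ys.zs hy h3
    refine ⟨⟨hy.acz, fun w => ?_, fun u v hu hv h8 h9 => h7.ot u v hu hv h8 ?_⟩, fun c => ?_⟩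
    · rw [h3.clq_pred]
      exact (hy.hy w).lion
    · have := h3.lt u hu
      have h10 : v ≤ max (f u - 1) (u - 1) := h9
      omega
    · split_ifs with h8
      exacts [h7.ne _ h8, one_ne_zero]
  refine h.giso (fun X => (rse s D (e X), X)) (fun y => y.2) ((Pq.rse he).mk Pq.id) (Pq.snd Pq.id)
    (fun X hX => ?_) h6 (fun _ _ => rfl) (fun y hy => ?_) hp'
  · have h7 := (h5 X hX).ys (b := b) k h2 h3 (h4 X hX) (pe_pext _ X) hX.1.1 hc
    change Ys q ε b s D R f (ee q ε (rse s D (e X))) _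
    rwa [h7.am.ee_rse k]
  · refine Prod.ext ?_ rfl
    change rse s D (e y.2) = y.1
    rw [(h5 _ (h6 y hy)).uni (Ys.er hy h3) (Ys.zs hy h3), rse_ee]

end Pool.Agent.CXD
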