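import Pool.Agent.P.MP_2ce3e7_ag.TE0

/-! The Artin-Schreier varieties for quadratic forms. -/

set_option linter.unusedSectionVars false
set_option linter.unusedVariables false

open Function Matrix

noncomputable section

namespace Pool.Agent.CXD
open Finset

variable {k Ω : Type} [Field k] [Field Ω] [Algebra k Ω] {q : ℕ} {ε : ℤˣ} {s D : ℕ} [NeZero s]
  {R : ℤ → Prop} {f f' f₁ f₂ : ℤ → ℤ} {n : Type} [Fintype n] {G : Gp Ω}
  {B : (n → Ω) → (n → Ω) → Ω} {C : (n → Ω) → Ω} {F : Equiv.Perm (n → Ω)}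
  {Q Q' : (ℤ → ℤ → Ω) → Prop} {r κ : ℤ} {e : ℤ → ℤ → Ω}

variable [Sq k q] [IsAlgClosed Ω]

/-- the function on the base -/
def Uf (q : ℕ) (ε : ℤˣ) (B : (n → Ω) → (n → Ω) → Ω) (C : (n → Ω) → Ω) (F : Equiv.Perm (n → Ω))
    (s D : ℕ) (y : Ecf Ω s D × (ZMod s → n → Ω)) : Ω :=
  phq s D B C (ee q ε y.1) (pext F s y.2)

variable (k) in
/-- the Artin-Schreier variety is good -/
abbrev GU (G : Gp Ω) (q : ℕ) (ε : ℤˣ) (B : (n → Ω) → (n → Ω) → Ω) (C : (n → Ω) → Ω)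
    (F : Equiv.Perm (n → Ω)) (s D : ℕ) [NeZero s] (R : ℤ → Prop)
    (f f₁ : ℤ → ℤ) (Q : (ℤ → ℤ → Ω) → Prop) : Prop :=
  Gy k G (AS q (Tb q ε F s D R f f₁ Q) (Uf q ε B C F s D))

/-- the variety of an interval system in a quadratic space -/
def Zqs (B : (n → Ω) → (n → Ω) → Ω) (C : (n → Ω) → Ω) (F : Equiv.Perm (n → Ω)) (s : ℕ)
    (R : ℤ → Prop) (f : ℤ → ℤ) (X : ZMod s → n → Ω) : Prop :=
  Zg B F s R f X ∧ ∀ u, R u → u ≤ f u → C (pext F s X u) = 0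

theorem pq_uf (hF : Fq k q ε B C F) {p : Ecf Ω s D × (ZMod s → n → Ω) → Prop} : Pq k p (Uf q ε B C F s D) :=
  Pq.phq pq_te (fun u v => hF.toFo.pq (pq_tx hF.toFo u) (pq_tx hF.toFo v))
    fun u => hF.pc (pq_tx hF.toFo u)

theorem Au.uq_add (h : Au k q G) (hF : Fq k q ε B C F) (hi : Is s D R f₂) (hle : ∀ u, R u → f₁ u ≤ f₂ u)
    (hp : GU k G q ε B C F s D R f f₁ Q) : GU k G q ε B C F s D R f f₂ Q :=
  (h.gci hF.sem hi (x := fun y : (Ecf Ω s D × (ZMod s → n → Ω)) × Ω => pext F s y.1.2)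
    (fun u => Pq.pext hF.sem.po hF.sem.po' (Pq.snd (Pq.fst Pq.id)) u)
    (fun a _ => pe_pext F a.1.2) hp).congr fun _ =>
    ⟨fun H => ⟨⟨⟨H.1.1, H.1.2.1, fun w => (H.1.2.2.1 w).mono fun u hu =>
      ⟨hu.1, hu.2.1, hu.2.2.trans (hle u hu.1)⟩, H.1.2.2.2⟩, H.2⟩, H.1.2.2.1⟩,
      fun H => ⟨⟨H.1.1.1, H.1.1.2.1, H.2, H.1.1.2.2.2⟩, H.1.2⟩⟩

theorem GU.congr
    (hq : ∀ e, Amx q ε s D e → (Se ε R f e ∧ Q e ↔ Se ε R f' e ∧ Q' e))
    (hp : GU k G q ε B C F s D R f' f₁ Q') : GU k G q ε B C F s D R f f₁ Q :=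
  Gy.as_of_iff hp (fun _ =>
    ⟨fun H => ((hq _ (H.1.ad k)).1 ⟨H.1, H.2.2.2⟩).elim fun a b => ⟨a, H.2.1, H.2.2.1, b⟩,
      fun H => ((hq _ (H.1.ad k)).2 ⟨H.1, H.2.2.2⟩).elim fun a b => ⟨a, H.2.1, H.2.2.1, b⟩⟩)
    fun _ _ => rfl

theorem Au.uq_low (h : Au k q G) (hF : Fq k q ε B C F) (hi : Is s D R f) (hle : ∀ u, R u → f' u ≤ f u)
    (hq : ∀ e, Amx q ε s D e → (Se ε R f e ∧ Q e ↔ Se ε R f' e ∧ Q' e))
    (hp : GU k G q ε B C F s D R f' f' Q') : GU k G q ε B C F s D R f f Q :=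
  h.uq_add hF hi hle (GU.congr hq hp)

theorem Au.uq_opn (h : Au k q G) (hF : Fq k q ε B C F) (u v : ℤ) (hp : GU k G q ε B C F s D R f f₁ Q) :
    GU k G q ε B C F s D R f f₁ fun e => Q e ∧ e u v ≠ 0 :=
  Gy.as_of_iff (h.as_opn (pq_te u v) hp) (fun _ =>
    ⟨fun H => ⟨⟨H.1, H.2.1, H.2.2.1, H.2.2.2.1⟩, H.2.2.2.2⟩,
      fun H => ⟨H.1.1, H.1.2.1, H.1.2.2.1, H.1.2.2.2, H.2⟩⟩) fun _ _ => rfl

theorem Au.uq_split (h : Au k q G) (hF : Fq k q ε B C F) (hi : Is s D R f₁) (u v : ℤ)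
    (h1 : GU k G q ε B C F s D R f f₁ fun e => e u v = 0)
    (h2 : GU k G q ε B C F s D R f f₁ fun e => e u v ≠ 0) :
    GU k G q ε B C F s D R f f₁ fun _ => True :=
  h.as_split (lc_tb hF.toFo hi (Lr.const True)) (pq_uf hF) (pq_te u v)
    (Gy.as_of_iff h1 (fun _ => ⟨fun H => ⟨H.1.1, H.1.2.1, H.1.2.2.1, H.2⟩,
      fun H => ⟨⟨H.1, H.2.1, H.2.2.1, trivial⟩, H.2.2.2⟩⟩) fun _ _ => rfl)
    (Gy.as_of_iff h2 (fun _ => ⟨fun H => ⟨H.1.1, H.1.2.1, H.1.2.2.1, H.2⟩,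
      fun H => ⟨⟨H.1, H.2.1, H.2.2.1, trivial⟩, H.2.2.2⟩⟩) fun _ _ => rfl)

/-- the part where the last entry of the row `r` vanishes -/
theorem Au.uq_last (h : Au k q G) (hF : Fq k q ε B C F) (hi : Is s D R f) (hr : r ≤ f r)
    (hp : GU k G q ε B C F s D R (low s f r) (low s f r) fun _ => True) :
    GU k G q ε B C F s D R f f fun e => e r (f r) = 0 :=
  h.uq_low hF hi (fun u _ => low_le f r u)
    (fun _ ha => by rw [se_low k hi hr ha, and_true]) hp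

/-- no active place -/
theorem Az.uq_empty (h : Az k q G) (hF : Fq k q ε B C F) (hi : Is s D R f) (h0 : ∀ u, ¬R u) :
    GU k G q ε B C F s D R f f fun _ => True := by
  refine Gy.as_of_iff (h.toAu.as_zero (h.gy_tb hF.toFo hi hi)) (fun _ =>
    ⟨fun H => ⟨H.1, H.2.1, H.2.2.1⟩, fun H => ⟨H.1, H.2.1, H.2.2, trivial⟩⟩) fun y H => ?_
  unfold Uf phq
  refine sum_eq_zero fun v _ => ?_
  rw [H.1 v v le_rfl fun e => h0 _ e.1, zero_mul, zero_add, sum_eq_zero]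
  intro u hu
  rw [H.1 u v (mem_Ico.1 hu).2.le fun e => h0 _ e.1, zero_mul]

/-- an interval that ends at an inactive place -/
theorem Au.uq_zero (h : Au k q G) (hF : Fq k q ε B C F) (hi : Is s D R f) (hr : r ≤ f r) (h0 : ¬R (f r))
    (hp : GU k G q ε B C F s D R (low s f r) (low s f r) fun _ => True) :
    GU k G q ε B C F s D R f f fun _ => True :=
  h.uq_low hF hi (fun u _ => low_le f r u) (fun _ ha => by
    rw [se_low k hi hr ha, and_true, and_true]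
    exact ⟨fun H => ⟨H, H r (f r) hr fun e => h0 e.2.1⟩, fun H => H.1⟩) hp

theorem Au.uq_piv (h : Au k q G) (hF : Fq k q ε B C F) (hi : Is s D R f) (h1 : ∀ u, R u → u ≤ f u)
    (ih : ∀ r, R r → GU k G q ε B C F s D R (low s f r) (low s f r) fun _ => True)
    (hp : GU k G q ε B C F s D R f (fun u => u - 1) (Piv R f)) :
    GU k G q ε B C F s D R f f fun _ => True := by
  classical
  have c : Lc k (Tb q ε F s D R f f fun _ => True) := lc_tb hF.toFo hi (Lr.const True)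
  have hg : ∀ p : Ecf Ω s D × (ZMod s → n → Ω) → Prop, Pq k p fun y =>
      ∏ c : {c : ZMod s // R c.val}, ee q ε y.1 c.1.val (f c.1.val) :=
    fun p => Pq.prod _ fun c => pq_te _ _
  refine h.as_split c (pq_uf hF) (hg _) ?_ ?_
  · refine h.as_union (Lr.land c (Lr.eq (hg _) (Pq.const 0))) (pq_uf hF)
      (T := {c : ZMod s // R c.val}) (r := fun c y => ee q ε y.1 c.1.val (f c.1.val) = 0)
      (fun c => Cr.eq (pq_te _ _) (Pq.const 0)) (fun y H => ?_) fun c => ?_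
    · obtain ⟨c, -, hc⟩ := prod_eq_zero_iff.1 H.2
      exact ⟨c, hc⟩
    · exact Gy.as_of_iff (h.uq_last hF hi (h1 _ c.2) (ih _ c.2)) (fun _ =>
        ⟨fun H => ⟨H.1.1.1, H.1.1.2.1, H.1.1.2.2.1, H.2⟩, fun H =>
          ⟨⟨⟨H.1, H.2.1, H.2.2.1, trivial⟩, prod_eq_zero (mem_univ c) H.2.2.2⟩, H.2.2.2⟩⟩)
        fun _ _ => rfl
  · refine Gy.as_of_iff (h.uq_add hF hi (fun u _ => hi.lo u) hp) (fun y => ⟨fun H =>
      ⟨H.1.1, H.1.2.1, H.1.2.2.1, (piv_iff_SI0 k hi (H.1.1.ad k)).2 fun c hc =>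
        prod_ne_zero_iff.1 H.2 ⟨c, hc⟩ (mem_univ _)⟩, fun H =>
      ⟨⟨H.1, H.2.1, H.2.2.1, trivial⟩, prod_ne_zero_iff.2 fun c _ => H.2.2.2 _ c.2⟩⟩)
      fun _ _ => rfl

end Pool.Agent.CXD
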