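import Pool.Agent.P.MP_2ce3e7_ag.TB1
import Pool.Agent.P.MP_2ce3e7_ag.TI0
import Pool.Agent.P.MP_2ce3e7_ag.SB3

/-! The variety of singular solutions is open in the variety of a smaller interval system. -/

set_option linter.unusedSectionVars false
set_option linter.unusedVariables false

open Function Matrix

noncomputable section

namespace Pool.Agent.CXD
open Finset

variable {k Ω : Type} [Field k] [Field Ω] [Algebra k Ω] {q : ℕ} {ε : ℤˣ} {s D : ℕ} [NeZero s]
  {R : ℤ → Prop} {f g : ℤ → ℤ} {ι : Type} [Fintype ι] {b : ι → Bool} {G : Gp Ω}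
  {e : ℤ → ℤ → Ω} {θ : ℤ} [IsAlgClosed Ω] {z : ℤ → ι ⊕ ι → Ω}

theorem Er.cp (he : Er ε D R f g z e) (h : C3 s D R f g) (hz : Zo ε R f g z)
    (hq : ∀ u, R u → Cf (-ε) (z u) = 0) {u : ℤ} (hu : R u) (h1 : u ≤ θ) :
    Cf (-ε) (Pv D e z θ u) = 0 := by
  have key : ∀ (n : ℕ) (θ : ℤ), u ≤ θ → f u - n ≤ θ → Cf (-ε) (Pv D e z θ u) = 0 := by
    intro n
    induction n with
    | zero =>
      intro θ h1 h3
      rw [he.pv0_SB2 (u := u) (by omega) (by omega), Cf_zero]
    | succ n ih =>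
      intro θ h1 h3
      obtain ⟨θ, rfl⟩ : ∃ t, θ = t - 1 := ⟨θ + 1, by ring⟩
      rw [he.step_SB2 h]
      by_cases c : R θ
      · rw [Cf_add', Cf_smul, hq θ c, ih θ (by omega) (by omega), mul_zero, add_zero]
        rw [Bf_smul_left, he.zp_SB2 h hz hu c (by omega) (by omega) (h.lt θ c), if_neg (by omega),
          mul_zero]
      · rw [he.out u _ (by omega) fun d => c d.2.1, zero_smul, zero_add,
          ih θ (by omega) (by omega)]
  exact key (f u - θ).toNat θ h1 (by omega)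

theorem Er.seq (he : Er ε D R f g z e) (h : C3 s D R f g) (hz : Zo ε R f g z)
    (hq : ∀ u, R u → Cf (-ε) (z u) = 0) (hc : (bd D R f (-1)).card = Fintype.card ι) :
    Se ε R f e := by
  intro u v h1 h3
  by_cases c : R u ∧ R v ∧ v ≤ f u
  swap
  · exact he.out u v h1 c
  have h4 : ¬(u = v → ε = 1) := fun d => h3 ⟨c.1, c.2.1, c.2.2, d⟩
  obtain ⟨rfl, h5⟩ := Classical.not_imp.1 h4
  obtain rfl := (Int.units_eq_one_or ε).resolve_left h5
  have hv := c.1
  have a := he.ew h hz hc u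
  rw [Ew.split z (θ := u - 1) (by omega) (by omega)] at a
  have b : Cf (- -1) (Pv D e z (u - 1) u) = 0 := by
    rw [eq_neg_of_add_eq_zero_right a, Cf_neg]
    refine Cf_sum _ _ (fun w hw => ?_) fun w hw w' hw' => ?_
    · rcases he.low_SB2 h hw with c | c
      · rw [c, zero_smul, Cf_zero]
      · rw [Cf_smul, hq w (h.toIs.mem_bd.1 c).1, mul_zero]
    · rw [Bf_smul_left, Bf_smul_right]
      rcases he.low_SB2 h hw with c | c
      · rw [c, zero_mul]
      · rcases he.low_SB2 h hw' with c' | c'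
        · rw [c', zero_mul, mul_zero]
        · rw [(he.hy h hz _ w c w' c').1, mul_zero, mul_zero]
  rwa [he.step_SB2 h, Cf_add _ _ (neg_neg 1), Cf_smul, hq u hv, he.cp h hz hq hv le_rfl,
    Bf_smul_left, he.zp_SB2 h hz hv hv (by omega) (by omega) (h.lt u hv), if_pos rfl, mul_zero,
    mul_one, add_zero, zero_add] at b

variable [Sq k q]

theorem Er.yq (k : Type) [Field k] [Algebra k Ω] [Sq k q] (he : Er ε D R f g z e)
    (h : C3 s D R f g) (hz : Zo ε R f g z) (hq : ∀ u, R u → Cf (-ε) (z u) = 0)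
    (hp : Pe (FV q (-ε) b) s z) (ha : Acz R z) (hc : (bd D R f (-1)).card = Fintype.card ι) :
    Yq q ε b s D R f e z := by
  have hs := he.seq h hz hq hc
  refine ⟨⟨⟨fun u v => ?_, he.per k h hz hp, fun u v h3 => he.out u v (by omega) fun h4 => ?_⟩, hs,
    fun u hu => left_ne_zero_of_mul_eq_one (he.piv h hu), hp, ha, he.ew h hz hc, he.hy h hz⟩,
    fun θ u hu => ?_⟩
  · rcases lt_trichotomy u v with h3 | rfl | h3
    · exact he.sym v u h3
    · rcases Int.units_eq_one_or ε with rfl | rfl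
      · rw [sg_one, one_mul]
      · rw [hs u u le_rfl fun h4 => by simpa using h4.2.2.2 rfl, mul_zero]
    · rw [he.sym u v h3, ← mul_assoc, sg_mul_self, one_mul]
  · have := h.hi u
    omega
  · obtain ⟨a1, a2, -⟩ := h.toIs.mem_bd.1 hu
    exact ⟨hq u a1, he.cp h hz hq a1 a2⟩

theorem Au.gy_ybq (h : Au k q G) (h3 : C3 s D R f g)
    (hc : (bd D R f (-1)).card = Fintype.card ι)
    (hp : Gy k G (Zqs (Ω := Ω) (Bf (-ε)) (Cf (-ε)) (FV q (-ε) b) s R fun u => max (f u - 1) (u - 1))) :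
    Gy k G (Ybq (Ω := Ω) q ε b s D R f) := by
  classical
  have hF : Sem k q (FV q (-ε) b : Equiv.Perm (ι ⊕ ι → Ω)) := sem_FV _ _
  have hz : ∀ (p : (ZMod s → ι ⊕ ι → Ω) → Prop) u,
      Pq k p fun X => pext (FV q (-ε) b) s X u := fun p u => Pq.pext hF.po hF.po' Pq.id u
  have hp' := h.gopns (T := ZMod s) (g := fun c X => if R c.val then
    Bf (-ε) (pext (FV q (-ε) b) s X (g c.val)) (pext (FV q (-ε) b) s X c.val) else 1)
    (fun c => Pq.ite _ (Pq.bf _ (hz _ _) (hz _ _)) (Pq.const 1)) hp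
  have h4 : ∀ X : ZMod s → ι ⊕ ι → Ω,
      (Zqs (Bf (-ε)) (Cf (-ε)) (FV q (-ε) b) s R (fun u => max (f u - 1) (u - 1)) X ∧ ∀ c : ZMod s, (if R c.val then
        Bf (-ε) (pext (FV q (-ε) b) s X (g c.val)) (pext (FV q (-ε) b) s X c.val) else 1) ≠ 0) →
      Zo ε R f g (pext (FV q (-ε) b) s X) := by
    intro X hX
    refine ⟨fun u v hu hv h5 h6 => hX.1.1.2.2 u v hu hv h5 (le_max_of_le_left (by omega)),
      fun v => ?_⟩
    refine per_ind s (P := fun v => R v →
      Bf (-ε) (pext (FV q (-ε) b) s X (g v)) (pext (FV q (-ε) b) s X v) ≠ 0) (fun v => ?_) 0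
      (fun v h5 h6 hv => ?_) v
    · rw [h3.perR]
      refine imp_congr_right fun hv => ?_
      rw [h3.perg hv, pe_pext, pe_pext, Bf_FV _ _ _ _ k, ← fr_apply k,
        mul_ne_zero_iff_left (sg_ne _), Ne, Ne]
      nth_rewrite 1 [← (sem_fr (k := k) (q := q) (Ω := Ω)).zero]
      rw [(frq q).injective.eq_iff]
    · rw [zero_add] at h6
      have h7 := hX.2 (v : ZMod s)
      rwa [val_SE1 h5 h6, if_pos hv] at h7
  obtain ⟨e, he, h5⟩ := exists_er (D := D) (hz _) h3.toIs h4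
  have h6 : ∀ y : Ecf Ω s D × (ZMod s → ι ⊕ ι → Ω), Ybq q ε b s D R f y →
      (Zqs (Bf (-ε)) (Cf (-ε)) (FV q (-ε) b) s R (fun u => max (f u - 1) (u - 1)) y.2 ∧ ∀ c : ZMod s, (if R c.val then
        Bf (-ε) (pext (FV q (-ε) b) s y.2 (g c.val)) (pext (FV q (-ε) b) s y.2 c.val)
          else 1) ≠ 0) := by
    intro y hy
    have h7 := Ys.zs hy.1 h3
    refine ⟨⟨⟨hy.1.acz, fun w => ?_, fun u v hu hv h8 h9 => h7.ot u v hu hv h8 ?_⟩, fun u hu _ =>
      (hy.2 u u (h3.toIs.mem_bd.2 ⟨hu, le_rfl, h3.lt u hu⟩)).1⟩, fun c => ?_⟩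
    · rw [h3.clq_pred]
      exact (hy.1.hy w).lion
    · have := h3.lt u hu
      have h10 : v ≤ max (f u - 1) (u - 1) := h9
      omega
    · split_ifs with h8
      exacts [h7.ne _ h8, one_ne_zero]
  refine h.giso (fun X => (rse s D (e X), X)) (fun y => y.2) ((Pq.rse he).mk Pq.id) (Pq.snd Pq.id)
    (fun X hX => ?_) h6 (fun _ _ => rfl) (fun y hy => ?_) hp'
  · have h7 := (h5 X hX).yq (b := b) k h3 (h4 X hX) (fun u hu => hX.1.2 u hu
      (le_max_of_le_left (by have := h3.lt u hu; omega))) (pe_pext _ X) hX.1.1.1 hc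
    change Yq q ε b s D R f (ee q ε (rse s D (e X))) _
    rwa [h7.1.am.ee_rse k]
  · refine Prod.ext ?_ rfl
    change rse s D (e y.2) = y.1
    rw [(h5 _ (h6 y hy)).uni (Ys.er hy.1 h3) (Ys.zs hy.1 h3), rse_ee]

end Pool.Agent.CXD
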