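import Pool.Agent.P.MP_2ce3e7_ag.SB4

/-! The finite cover. -/

set_option linter.unusedSectionVars false
set_option linter.unusedVariables false

open Function Matrix

noncomputable section

namespace Pool.Agent.CXD
open Finset

variable {k Ω : Type} [Field k] [Field Ω] [Algebra k Ω] {q : ℕ} {ε : ℤˣ} {s D : ℕ} [NeZero s]
  {R : ℤ → Prop} {f g : ℤ → ℤ} {ι : Type} [Fintype ι] {b : ι → Bool} {G : Gp Ω}
  {e : ℤ → ℤ → Ω} {θ : ℤ} [IsAlgClosed Ω] [Sq k q]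

open Classical in
/-- the vectors of a frame -/
def zg (s : ℕ) (R : ℤ → Prop) {n : Type} [Fintype n] (m : Matrix n n Ω) (c : ℤ → n → Ω) :
    ZMod s → n → Ω := rsn s fun v => if R v then m *ᵥ c v else 0

/-- the frame of a solution -/
def gz (D : ℕ) (R : ℤ → Prop) (f : ℤ → ℤ) (e : ℤ → ℤ → Ω) (z : ℤ → Bi D R f ⊕ Bi D R f → Ω) :
    Matrix (Bi D R f ⊕ Bi D R f) (Bi D R f ⊕ Bi D R f) Ω :=
  (Matrix.of (Sum.elim (fun a : Bi D R f => z a) fun a : Bi D R f => Pv D e z (-1) a))ᵀ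

section
variable {W : Type} [AddCommGroup W] [Module Ω W]

theorem ew_shift_SB5 (z : ℤ → W) (u : ℤ) :
    Ew D (fun u v => e (u + s) (v + s)) (fun v => z (v + s)) u = Ew D e z (u + s) := by
  simp only [Ew]
  rw [show u + s - D = u - D + s by ring, show u + s + D = u + D + s by ring,
    ← Finset.map_add_right_Icc, Finset.sum_map]
  rfl

theorem pv_shift_SB5 (z : ℤ → W) (θ u : ℤ) :
    Pv D (fun u v => e (u + s) (v + s)) (fun v => z (v + s)) θ u = Pv D e z (θ + s) (u + s) := by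
  simp only [Pv]
  rw [show u + s + D = u + D + s by ring, ← Finset.map_add_right_Ioc, Finset.sum_map]
  rfl

theorem sum_frob_SB5 [Af Ω W] {F : Equiv.Perm W} (hF : Sem k q F) (ha : Amx q ε s D e)
    (z : ℤ → W) (S : Finset ℤ) (u : ℤ) :
    ∑ v ∈ S, e (u + s) (v + s) • F (z v) = -((sg ε : Ω) • F (∑ v ∈ S, e u v • z v)) := by
  rw [hF.sum, Finset.smul_sum, ← Finset.sum_neg_distrib]
  exact Finset.sum_congr rfl fun v _ => by rw [ha.per, hF.smul, neg_smul, smul_smul]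

theorem neg_sg_SB5 (x : W) : -((sg ε : Ω) • -((sg ε : Ω) • x)) = x := by
  rw [smul_neg, neg_neg, smul_smul, sg_mul_self, one_smul]

end

theorem Is.next_SB5 (h : Is s D R f) {v : ℤ} (hv : v ∈ bd D R f (-1) ∨ (R v ∧ 0 ≤ v)) :
    v + s ∈ bd D R f (-1) ∨ (R (v + s) ∧ 0 ≤ v + s) := by
  have h0 := pos_SE0 s
  rw [h.mem_bd, h.perR, h.perf]
  rw [h.mem_bd] at hv
  rcases hv with hv | hv
  · by_cases e : v + s ≤ -1
    · exact Or.inl ⟨hv.1, e, by linarith [hv.2.2]⟩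
    · exact Or.inr ⟨hv.1, by omega⟩
  · exact Or.inr ⟨hv.1, by linarith [hv.2]⟩

section
variable {b : Bi D R f → Bool} {c z : ℤ → Bi D R f ⊕ Bi D R f → Ω}
  {m : Matrix (Bi D R f ⊕ Bi D R f) (Bi D R f ⊕ Bi D R f) Ω}

theorem Us.col_SB5 (hc : Us D R f e c)
    (m : Matrix (Bi D R f ⊕ Bi D R f) (Bi D R f ⊕ Bi D R f) Ω) (a : Bi D R f) :
    m *ᵥ c a = m.col (.inl a) ∧ Pv D e (fun v => m *ᵥ c v) (-1) a = m.col (.inr a) := by
  refine ⟨by rw [hc.l, mulVec_single_one], (pv_map m.mulVecLin c (-1) a).trans ?_⟩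
  rw [mulVecLin_apply, hc.r, mulVec_single_one]

theorem Us.ew_SB5 (hc : Us D R f e c)
    (m : Matrix (Bi D R f ⊕ Bi D R f) (Bi D R f ⊕ Bi D R f) Ω) (u : ℤ) (hu : 0 ≤ u) :
    Ew D e (fun v => m *ᵥ c v) u = 0 :=
  (ew_map m.mulVecLin c u).trans (by rw [hc.ew u hu, map_zero])

theorem mc_inr_SB5 (m : Matrix (Bi D R f ⊕ Bi D R f) (Bi D R f ⊕ Bi D R f) Ω) (a : Bi D R f) :
    m *ᵥ Mc ε s D e c (.inr a) =
      -((sg ε : Ω) • Pv D e (fun v => m *ᵥ c v) (-1 + s) (a + s)) := by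
  rw [show Pv D e (fun v => m *ᵥ c v) (-1 + s) (a + s) = m *ᵥ Pv D e c (-1 + s) (a + s) from
    pv_map m.mulVecLin c _ _, ← mulVec_smul, ← mulVec_neg]
  rfl

theorem Yg.shift (k : Type) [Field k] [Algebra k Ω] [Sq k q] (hm : Yg q (-ε) b (Mc ε s D e c) m)
    (hc : Us D R f e c) (h : C3 s D R f g) (ha : Amx q ε s D e) (hs : Se ε R f e)
    (hp : Piv R f e) {v : ℤ} (hv : v ∈ bd D R f (-1) ∨ (R v ∧ 0 ≤ v)) :
    m *ᵥ c (v + s) = FV q (-ε) b (m *ᵥ c v) := by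
  have hF : Sem k q (FV q (-ε) b : Equiv.Perm (_ → Ω)) := sem_FV (-ε) b
  have h0 := pos_SE0 s
  refine h.ew_uni (q := q) (ε := ε) (e := fun u v => e (u + s) (v + s))
    (z := fun v => m *ᵥ c (v + s)) (z' := fun v => FV q (-ε) b (m *ᵥ c v))
    ⟨fun u v => ha.sym _ _, fun u v => ha.per _ _, fun u v h1 => ha.band _ _ (by omega)⟩
    (fun u v h1 h2 => ?_) (fun u hu => ?_) (fun u hu => ?_) (fun u hu => ?_)
    (fun u hu => ⟨?_, ?_⟩) hv
  · refine (ha.per u v).trans ?_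
    rw [hs u v h1 h2, zero_pow (Sq.su (k := k)).pos.ne', mul_zero, neg_zero]
  · have h1 := hp _ ((h.perR u).2 hu)
    rwa [h.perf] at h1
  · exact (ew_shift_SB5 (fun v => m *ᵥ c v) u).trans (hc.ew_SB5 m _ (by omega))
  · refine (sum_frob_SB5 hF ha (fun v => m *ᵥ c v) _ u).trans ?_
    rw [show ∑ v ∈ Icc (u - D) (u + D), e u v • m *ᵥ c v = 0 from hc.ew_SB5 m u hu, hF.zero,
      smul_zero, neg_zero]
  · rw [(hc.col_SB5 m ⟨u, hu⟩).1, hm.2]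
    rfl
  · refine (pv_shift_SB5 (fun v => m *ᵥ c v) (-1) u).trans
      (Eq.trans ?_ (sum_frob_SB5 hF ha (fun v => m *ᵥ c v) _ u).symm)
    rw [show ∑ v ∈ Ioc (-1) (u + D), e u v • m *ᵥ c v = m.col (.inr ⟨u, hu⟩) from
      (hc.col_SB5 m ⟨u, hu⟩).2, hm.2, mc_inr_SB5, neg_sg_SB5]

theorem Yg.pext_zg (k : Type) [Field k] [Algebra k Ω] [Sq k q] (hm : Yg q (-ε) b (Mc ε s D e c) m)
    (hc : Us D R f e c) (h : C3 s D R f g) (ha : Amx q ε s D e) (hs : Se ε R f e)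
    (hp : Piv R f e) {v : ℤ} (hv : v ∈ bd D R f (-1) ∨ (R v ∧ 0 ≤ v)) :
    pext (FV q (-ε) b) s (zg s R m c) v = m *ᵥ c v := by
  have h0 := pos_SE0 s
  have up : ∀ (n : ℕ) (v : ℤ), R v → 0 ≤ v → v < n →
      pext (FV q (-ε) b) s (zg s R m c) v = m *ᵥ c v := by
    intro n
    induction n with
    | zero => exact fun v _ h1 h2 => absurd h1 (by omega)
    | succ n ih =>
      intro v hv h1 h2
      by_cases e1 : v < s
      · rw [pext_of_mem h1 e1, zg, res_cast _ h1 e1, if_pos hv]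
      · obtain ⟨w, rfl⟩ : ∃ w, v = w + s := ⟨v - s, by ring⟩
        have hw := (h.perR w).1 hv
        rw [pe_pext _ _ w, ih w hw (by omega) (by omega),
          hm.shift k hc h ha hs hp (Or.inr ⟨hw, by omega⟩)]
  have dn : ∀ (n : ℕ) (v : ℤ), v ∈ bd D R f (-1) ∨ (R v ∧ 0 ≤ v) → -(n : ℤ) ≤ v →
      pext (FV q (-ε) b) s (zg s R m c) v = m *ᵥ c v := by
    intro n
    induction n with
    | zero =>
      rintro v (hv | hv) h1
      · exact absurd (h.mem_bd.1 hv).2.1 (by omega)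
      · exact up (v.toNat + 1) v hv.1 hv.2 (by omega)
    | succ n ih =>
      intro v hv h1
      apply (FV q (-ε) b).injective
      rw [← pe_pext _ _ v, ih _ (h.next_SB5 hv) (by omega), hm.shift k hc h ha hs hp hv]
  exact dn (-v).toNat v hv (by omega)

theorem Yg.ys (k : Type) [Field k] [Algebra k Ω] [Sq k q] (hm : Yg q (-ε) b (Mc ε s D e c) m)
    (hc : Us D R f e c) (h : C3 s D R f g) (ha : Amx q ε s D e) (hs : Se ε R f e)
    (hp : Piv R f e) : Ys q ε b s D R f e (pext (FV q (-ε) b) s (zg s R m c)) ∧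
      gz D R f e (pext (FV q (-ε) b) s (zg s R m c)) = m := by
  have h1 : ∀ v, v ∈ bd D R f (-1) ∨ (R v ∧ 0 ≤ v) →
      pext (FV q (-ε) b) s (zg s R m c) v = m *ᵥ c v := fun v hv => hm.pext_zg k hc h ha hs hp hv
  have h2 := h.ew_congr ha hs h1
  have h3 : ∀ u, Pv D e (pext (FV q (-ε) b) s (zg s R m c)) (-1) u = m *ᵥ Pv D e c (-1) u :=
    fun u => (h2.2 (-1) u le_rfl).trans (pv_map m.mulVecLin c (-1) u)
  refine ⟨h.ys k ha hs hp (pe_pext _ _) (((sem_FV (k := k) (-ε) b).act_iff h.perR _).2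
    fun a ha => if_neg ha) (fun u hu => (h2.1 u hu).trans (hc.ew_SB5 m u hu))
    fun u hu v hv => ?_, ?_⟩
  · rw [h1 u (Or.inl hu), h1 v (Or.inl hv), h3, h3, hm.1, hm.1, hm.1]
    exact hc.hy u hu v hv
  · ext i j
    rcases j with a | a
    · exact congrFun ((h1 a (Or.inl a.2)).trans (hc.col_SB5 m a).1) i
    · exact congrFun ((h2.2 (-1) a le_rfl).trans (hc.col_SB5 m a).2) i

theorem Ys.yg (k : Type) [Field k] [Algebra k Ω] [Sq k q] (hy : Ys q ε b s D R f e z)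
    (hc : Us D R f e c) (h : C3 s D R f g) :
    Yg q (-ε) b (Mc ε s D e c) (gz D R f e z) ∧ zg s R (gz D R f e z) c = rsn s z := by
  have h0 := pos_SE0 s
  have h1 : ∀ v, v ∈ bd D R f (-1) ∨ (R v ∧ 0 ≤ v) → z v = gz D R f e z *ᵥ c v := fun v hv =>
    h.ew_uni hy.am hy.se hy.piv (z' := fun v => gz D R f e z *ᵥ c v) (fun u _ => hy.ew u)
      (hc.ew_SB5 _) (fun u hu => ⟨(hc.col_SB5 (gz D R f e z) ⟨u, hu⟩).1.symm,
        (hc.col_SB5 (gz D R f e z) ⟨u, hu⟩).2.symm⟩) hv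
  refine ⟨⟨fun x y => ?_, fun j => ?_⟩, funext fun a => ?_⟩
  · refine ((bf_mulVec_iff 1 _).2 (fun i j => ?_) x y).trans (one_mul _)
    have h2 := hy.hy (-1)
    have h3 := hc.hy (ε := ε)
    rw [one_mul]
    rcases i with a | a <;> rcases j with a' | a'
    · rw [← hc.l, ← hc.l]
      exact (h2 a a.2 a' a'.2).1.trans (h3 a a.2 a' a'.2).1.symm
    · rw [← hc.l, ← hc.r]
      exact (h2 a a.2 a' a'.2).2.1.trans (h3 a a.2 a' a'.2).2.1.symm
    · rw [← hc.l, ← hc.r, Bf_comm, Bf_comm _ (c a')]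
      exact congrArg _ ((h2 a' a'.2 a a.2).2.1.trans (h3 a' a'.2 a a.2).2.1.symm)
    · rw [← hc.r, ← hc.r]
      exact (h2 a a.2 a' a'.2).2.2.trans (h3 a a.2 a' a'.2).2.2.symm
  · rcases j with a | a
    · exact (hy.pe a).symm.trans (h1 _ (h.next_SB5 (Or.inl a.2)))
    · rw [mc_inr_SB5, ← (h.ew_congr hy.am hy.se h1).2 _ _ (by omega),
        Pv.per (sem_FV (k := k) (-ε) b) hy.am hy.pe, neg_sg_SB5]
      rfl
  · by_cases e1 : R a.val
    · exact (if_pos e1).trans (h1 _ (Or.inr ⟨e1, Int.natCast_nonneg _⟩)).symm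
    · exact (if_neg e1).trans (hy.acz _ e1).symm

end

theorem Is.piv_SB5 (k : Type) [Field k] [Algebra k Ω] [Sq k q] (h : Is s D R f)
    (ha : Amx q ε s D e) : Piv R f e ↔ ∀ a : ZMod s, R a.val → e a.val (f a.val) ≠ 0 := by
  refine ⟨fun h1 a => h1 _, fun h1 u => ?_⟩
  refine per_ind s (P := fun u => R u → e u (f u) ≠ 0) (fun u => ?_) 0 (fun u h2 h3 => ?_) u
  · have h2 := ha.zero_iff k u (f u) 1
    rw [mul_one] at h2
    rw [h.perR, h.perf, Ne, h2]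
  · rw [zero_add] at h3
    have h4 := h1 (u : ZMod s)
    rwa [val_SE1 h2 h3] at h4

theorem ci_pred_SB5 {β : Type} [AddCommGroup β] [Module Ω β] (x : ℤ → β) :
    Ci Ω R (fun u => u - 1) x := fun w => by
  rw [show clq R (fun u => u - 1) w = ∅ from Set.eq_empty_of_forall_notMem fun u hu => by
    have h1 : u ≤ w := hu.2.1
    have h2 : w ≤ u - 1 := hu.2.2
    omega]
  exact linearIndepOn_empty _ _

theorem Au.cover (h : Au k q G) {n : Type} [Fintype n] {B : (n → Ω) → (n → Ω) → Ω}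
    {F : Equiv.Perm (n → Ω)} (hF : Fo k q ε B F) (h2 : (2 : Ω) ≠ 0) (h3 : C3 s D R f g)
    (hp : ∀ b' : Bi D R f → Bool, Gy k G (AS q
      (fun y : (Ecf Ω s D × (ZMod s → Bi D R f ⊕ Bi D R f → Ω)) × (ZMod s → n → Ω) =>
        Yb q ε b' s D R f y.1 ∧ Acz R (pext F s y.2)) fun y => Tf q ε B F s D (y.1.1, y.2))) :
    GT k G q ε B F s D R f (fun u => u - 1) (Piv R f) := by
  classical
  obtain ⟨c, hc, hu⟩ := h3.exists_us (k := k) (q := q) (ε := ε)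
    (p := fun E : Ecf Ω s D => Se ε R f (ee q ε E) ∧ Piv R f (ee q ε E)) (e := fun E => ee q ε E)
    (fun u v => Pq.ee Pq.id ε u v) fun x hx => ⟨hx.1.ad k, hx.1, hx.2⟩
  have hi : Is s D R fun u => u - 1 :=
    ⟨h3.perR, fun u => by ring, fun u => le_rfl, fun u => by omega⟩
  have l1 : Lc k (Tb q ε F s D R f (fun u => u - 1) (Piv R f)) :=
    (lc_tb (f := f) (Q := fun e => ∀ a : ZMod s, R a.val → e a.val (f a.val) ≠ 0) hF hi
      (Lr.all fun a => Lr.all fun _ => Lr.ne (Pq.ee Pq.id ε _ _) (Pq.const 0))).congr fun y _ =>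
      and_congr_right fun hs => and_congr_right' (and_congr_right' (h3.piv_SB5 k (hs.ad k)))
  have l2 := l1.as (pq_tf (s := s) (D := D) hF)
  have hM := Pq.mc (ε := ε) (s := s) (fun u v => Pq.ee (q := q) Pq.id ε u v) hc
  have c1 : ∀ b' : Bi D R f → Bool, Cr k
      (fun y : ((Ecf Ω s D × (ZMod s → n → Ω)) × Ω) ×
        Matrix (Bi D R f ⊕ Bi D R f) (Bi D R f ⊕ Bi D R f) Ω =>
        AS q (Tb q ε F s D R f (fun u => u - 1) (Piv R f)) (Tf q ε B F s D) y.1)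
      fun y => Yg q (-ε) b' (Mc ε s D (ee q ε y.1.1.1) (c y.1.1.1)) y.2 := fun b' =>
    Cr.yg (hM.pull (Pq.fst (Pq.fst (Pq.fst Pq.id))) fun y hy => ⟨hy.1.1, hy.1.2.2.2⟩)
      (Pq.snd Pq.id)
  have hM' := hM.pull (p := AS q (Tb q ε F s D R f (fun u => u - 1) (Piv R f)) (Tf q ε B F s D))
    (Pq.fst (Pq.fst Pq.id)) fun y hy => ⟨hy.1.1, hy.1.2.2.2⟩
  refine h.gfinm l2 (Cr.ex c1) (fun x hx => exists_comm.1 (exists_yg k h2 (-ε) _
    ((hu _ ⟨hx.1.1, hx.1.2.2.2⟩).iso h3 (hx.1.1.ad k) hx.1.1 hx.1.2.2.2))) (q ^ 2)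
    (one_lt_pow₀ (Sq.su (k := k)).lt two_ne_zero) _
    (hM'.of.transpose.mmul (hM'.of.transpose.fm q)) (fun x z _ hz => hz.elim fun b' hz => hz.fm k)
    (h.gunion ((l2.fst _).land (Cr.ex c1).lr) (fun b' => (c1 b').mono fun _ hy => hy.1)
      (fun _ hy => hy.2) fun b' => ?_)
  have hV : Sem k q (FV q (-ε) b' : Equiv.Perm (_ → Ω)) := sem_FV (-ε) b'
  refine h.giso (fun y => (((y.1.1.1, y.1.2), y.2),
      gz D R f (ee q ε y.1.1.1) (pext (FV q (-ε) b') s y.1.1.2)))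
    (fun x => (((x.1.1.1, zg s R x.2 (c x.1.1.1)), x.1.1.2), x.1.2)) ?_ ?_ (fun y hy => ?_)
    (fun x hx => ?_) (fun y hy => ?_) (fun x hx => ?_) (hp b')
  · have hz := fun u => Pq.pext (p := AS q
      (fun y : (Ecf Ω s D × (ZMod s → Bi D R f ⊕ Bi D R f → Ω)) × (ZMod s → n → Ω) =>
        Yb q ε b' s D R f y.1 ∧ Acz R (pext F s y.2)) fun y => Tf q ε B F s D (y.1.1, y.2))
      hV.po hV.po' (Pq.snd (Pq.fst (Pq.fst Pq.id))) u
    exact Pq.mk (by fun_prop) (Pq.transpose (Pq.of (Pq.elim (Pq.pi fun a => hz _) (Pq.pi fun a =>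
      Pq.pv (fun u v => Pq.ee (Pq.fst (Pq.fst (Pq.fst Pq.id))) ε u v) hz _ _))))
  · refine Pq.mk (Pq.mk (Pq.mk (by fun_prop) (Pq.rsn fun u => Pq.ite _ (Pq.mulVec (Pq.snd Pq.id)
      ((hc u).pull (Pq.fst (Pq.fst (Pq.fst Pq.id))) fun y hy => ⟨hy.1.1.1.1, hy.1.1.1.2.2.2⟩))
      (Pq.const 0))) (by fun_prop)) (by fun_prop)
  · have h4 := (hy.1.1.yg k (hu _ ⟨hy.1.1.se, hy.1.1.piv⟩) h3).1
    exact ⟨⟨⟨⟨hy.1.1.se, hy.1.2, ci_pred_SB5 _, hy.1.1.piv⟩, hy.2⟩, b', h4⟩, h4⟩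
  · have h4 := hx.1.1.1
    exact ⟨⟨(hx.2.ys k (hu _ ⟨h4.1, h4.2.2.2⟩) h3 (h4.1.ad k) h4.1 h4.2.2.2).1, h4.2.1⟩,
      hx.1.1.2⟩
  · have h4 := (hy.1.1.yg k (hu _ ⟨hy.1.1.se, hy.1.1.piv⟩) h3).2
    rw [res_pext] at h4
    exact Prod.ext (Prod.ext (Prod.ext rfl h4) rfl) rfl
  · have h4 := hx.1.1.1
    exact Prod.ext rfl (hx.2.ys k (hu _ ⟨h4.1, h4.2.2.2⟩) h3 (h4.1.ad k) h4.1 h4.2.2.2).2

end Pool.Agent.CXD
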