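import Pool.Agent.P.MP_2ce3e7_ag.TB4
import Pool.Agent.P.MP_2ce3e7_ag.TI0
import Pool.Agent.P.MP_2ce3e7_ag.SB5

/-! The finite cover in characteristic two. -/

set_option linter.unusedSectionVars false
set_option linter.unusedVariables false

open Function Matrix

noncomputable section

namespace Pool.Agent.CXD
open Finset

variable {k Ω : Type} [Field k] [Field Ω] [Algebra k Ω] {q : ℕ} {ε : ℤˣ} {s D : ℕ} [NeZero s]
  {R : ℤ → Prop} {f g : ℤ → ℤ} {ι : Type} [Fintype ι] {b : ι → Bool} {G : Gp Ω}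
  {e : ℤ → ℤ → Ω} {θ : ℤ} [IsAlgClosed Ω] [Sq k q]

section
variable {b : Bi D R f → Bool} {c z : ℤ → Bi D R f ⊕ Bi D R f → Ω}
  {m : Matrix (Bi D R f ⊕ Bi D R f) (Bi D R f ⊕ Bi D R f) Ω}

theorem hq_gz : Hq ε D R f e z (-1) ↔ ∀ j, Cf (-ε) ((gz D R f e z).col j) = 0 :=
  ⟨fun H j => match j with
    | .inl a => (H a a.2).1
    | .inr a => (H a a.2).2, fun H u hu => ⟨H (.inl ⟨u, hu⟩), H (.inr ⟨u, hu⟩)⟩⟩

theorem Ygq.yq (k : Type) [Field k] [Algebra k Ω] [Sq k q] (hm : Ygq q (-ε) b (Mc ε s D e c) m)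
    (hc : Us D R f e c) (h : C3 s D R f g) (ha : Amx q ε s D e) (hs : Se ε R f e)
    (hp : Piv R f e) : Yq q ε b s D R f e (pext (FV q (-ε) b) s (zg s R m c)) := by
  have h1 := hm.1.ys k hc h ha hs hp
  exact h1.1.yq k h (hq_gz.2 (by rw [h1.2]; exact hm.2))

theorem Yq.ygq (k : Type) [Field k] [Algebra k Ω] [Sq k q] (hy : Yq q ε b s D R f e z)
    (hc : Us D R f e c) (h : C3 s D R f g) : Ygq q (-ε) b (Mc ε s D e c) (gz D R f e z) :=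
  ⟨(hy.1.yg k hc h).1, hq_gz.1 (hy.2 _)⟩

end

theorem Au.coverq (h : Au k q G) {n : Type} [Fintype n] {B : (n → Ω) → (n → Ω) → Ω}
    {C : (n → Ω) → Ω} {F : Equiv.Perm (n → Ω)} (hF : Fq k q ε B C F) (h2 : (2 : Ω) = 0) (h3 : C3 s D R f g)
    (hp : ∀ b' : Bi D R f → Bool, Gy k G (AS q
      (fun y : (Ecf Ω s D × (ZMod s → Bi D R f ⊕ Bi D R f → Ω)) × (ZMod s → n → Ω) =>
        Ybq q ε b' s D R f y.1 ∧ Acz R (pext F s y.2)) fun y => Uf q ε B C F s D (y.1.1, y.2))) :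
    GU k G q ε B C F s D R f (fun u => u - 1) (Piv R f) := by
  classical
  obtain ⟨c, hc, hu⟩ := h3.exists_us (k := k) (q := q) (ε := ε)
    (p := fun E : Ecf Ω s D => Se ε R f (ee q ε E) ∧ Piv R f (ee q ε E)) (e := fun E => ee q ε E)
    (fun u v => Pq.ee Pq.id ε u v) fun x hx => ⟨hx.1.ad k, hx.1, hx.2⟩
  have hi : Is s D R fun u => u - 1 :=
    ⟨h3.perR, fun u => by ring, fun u => le_rfl, fun u => by omega⟩
  have l1 : Lc k (Tb q ε F s D R f (fun u => u - 1) (Piv R f)) :=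
    (lc_tb (f := f) (Q := fun e => ∀ a : ZMod s, R a.val → e a.val (f a.val) ≠ 0) hF.toFo hi
      (Lr.all fun a => Lr.all fun _ => Lr.ne (Pq.ee Pq.id ε _ _) (Pq.const 0))).congr fun y _ =>
      and_congr_right fun hs => and_congr_right' (and_congr_right' (h3.piv_SB5 k (hs.ad k)))
  have l2 := l1.as (pq_uf (s := s) (D := D) hF)
  have hM := Pq.mc (ε := ε) (s := s) (fun u v => Pq.ee (q := q) Pq.id ε u v) hc
  have c1 : ∀ b' : Bi D R f → Bool, Cr k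
      (fun y : ((Ecf Ω s D × (ZMod s → n → Ω)) × Ω) ×
        Matrix (Bi D R f ⊕ Bi D R f) (Bi D R f ⊕ Bi D R f) Ω =>
        AS q (Tb q ε F s D R f (fun u => u - 1) (Piv R f)) (Uf q ε B C F s D) y.1)
      fun y => Ygq q (-ε) b' (Mc ε s D (ee q ε y.1.1.1) (c y.1.1.1)) y.2 := fun b' =>
    Cr.ygq (hM.pull (Pq.fst (Pq.fst (Pq.fst Pq.id))) fun y hy => ⟨hy.1.1, hy.1.2.2.2⟩)
      (Pq.snd Pq.id)
  have hM' := hM.pull (p := AS q (Tb q ε F s D R f (fun u => u - 1) (Piv R f)) (Uf q ε B C F s D))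
    (Pq.fst (Pq.fst Pq.id)) fun y hy => ⟨hy.1.1, hy.1.2.2.2⟩
  refine h.gfinm l2 (Cr.ex c1) (fun x hx => exists_comm.1 (exists_ygq k h2 (-ε) _
    ((hu _ ⟨hx.1.1, hx.1.2.2.2⟩).iso h3 (hx.1.1.ad k) hx.1.1 hx.1.2.2.2)
    ((hu _ ⟨hx.1.1, hx.1.2.2.2⟩).isoq h3 (hx.1.1.ad k) hx.1.1 hx.1.2.2.2))) (q ^ 2)
    (one_lt_pow₀ (Sq.su (k := k)).lt two_ne_zero) _
    (hM'.of.transpose.mmul (hM'.of.transpose.fm q)) (fun x z _ hz => hz.elim fun b' hz => hz.1.fm k)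
    (h.gunion ((l2.fst _).land (Cr.ex c1).lr) (fun b' => (c1 b').mono fun _ hy => hy.1)
      (fun _ hy => hy.2) fun b' => ?_)
  have hV : Sem k q (FV q (-ε) b' : Equiv.Perm (_ → Ω)) := sem_FV (-ε) b'
  refine h.giso (fun y => (((y.1.1.1, y.1.2), y.2),
      gz D R f (ee q ε y.1.1.1) (pext (FV q (-ε) b') s y.1.1.2)))
    (fun x => (((x.1.1.1, zg s R x.2 (c x.1.1.1)), x.1.1.2), x.1.2)) ?_ ?_ (fun y hy => ?_)
    (fun x hx => ?_) (fun y hy => ?_) (fun x hx => ?_) (hp b')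
  · have hz := fun u => Pq.pext (p := AS q
      (fun y : (Ecf Ω s D × (ZMod s → Bi D R f ⊕ Bi D R f → Ω)) × (ZMod s → n → Ω) =>
        Ybq q ε b' s D R f y.1 ∧ Acz R (pext F s y.2)) fun y => Uf q ε B C F s D (y.1.1, y.2))
      hV.po hV.po' (Pq.snd (Pq.fst (Pq.fst Pq.id))) u
    exact Pq.mk (by fun_prop) (Pq.transpose (Pq.of (Pq.elim (Pq.pi fun a => hz _) (Pq.pi fun a =>
      Pq.pv (fun u v => Pq.ee (Pq.fst (Pq.fst (Pq.fst Pq.id))) ε u v) hz _ _))))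
  · refine Pq.mk (Pq.mk (Pq.mk (by fun_prop) (Pq.rsn fun u => Pq.ite _ (Pq.mulVec (Pq.snd Pq.id)
      ((hc u).pull (Pq.fst (Pq.fst (Pq.fst Pq.id))) fun y hy => ⟨hy.1.1.1.1, hy.1.1.1.2.2.2⟩))
      (Pq.const 0))) (by fun_prop)) (by fun_prop)
  · have h4 := Yq.ygq k hy.1.1 (hu _ ⟨hy.1.1.1.se, hy.1.1.1.piv⟩) h3
    exact ⟨⟨⟨⟨hy.1.1.1.se, hy.1.2, ci_pred_SB5 _, hy.1.1.1.piv⟩, hy.2⟩, b', h4⟩, h4⟩
  · have h4 := hx.1.1.1
    exact ⟨⟨hx.2.yq k (hu _ ⟨h4.1, h4.2.2.2⟩) h3 (h4.1.ad k) h4.1 h4.2.2.2, h4.2.1⟩,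
      hx.1.1.2⟩
  · have h4 := (hy.1.1.1.yg k (hu _ ⟨hy.1.1.1.se, hy.1.1.1.piv⟩) h3).2
    rw [res_pext] at h4
    exact Prod.ext (Prod.ext (Prod.ext rfl h4) rfl) rfl
  · have h4 := hx.1.1.1
    exact Prod.ext rfl (hx.2.1.ys k (hu _ ⟨h4.1, h4.2.2.2⟩) h3 (h4.1.ad k) h4.1 h4.2.2.2).2

end Pool.Agent.CXD
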