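import Pool.Agent.P.MP_2ce3e7_ag.SB9
import Pool.Agent.P.MP_2ce3e7_ag.SB5
import Pool.Agent.P.MP_2ce3e7_ag.SB3

/-! All planes. -/

set_option linter.unusedSectionVars false
set_option linter.unusedVariables false

open Function Matrix

noncomputable section

namespace Pool.Agent.CXD
open Finset

variable {k Ω : Type} [Field k] [Field Ω] [Algebra k Ω] {q : ℕ} {ε : ℤˣ} {s D : ℕ} [NeZero s]
  {R : ℤ → Prop} {f g : ℤ → ℤ} {ι : Type} [Fintype ι] {b : ι → Bool} {G : Gp Ω}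
  {e : ℤ → ℤ → Ω} {θ : ℤ} [IsAlgClosed Ω] [Sq k q]

theorem pext_pls_SBA {κ : Type} [Fintype κ] (b : κ → Bool) (X : ZMod s → κ ⊕ κ → Ω) (i : κ)
    (u : ℤ) : pext (F1 q ε (b i)) s (fun c => pls Ω κ (X c) i) u =
      pls Ω κ (pext (FV q ε b) s X u) i :=
  pext_map (F := FV q ε b) (F' := F1 q ε (b i)) (fun x => pls Ω κ x i)
    (fun x => pls_FV ε b x i) u

theorem bf_pls_SBA {κ : Type} [Fintype κ] (x y : κ ⊕ κ → Ω) :
    Bf ε x y = ∑ i, B1 ε (pls Ω κ x i) (pls Ω κ y i) := rfl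

theorem ph_planes {κ : Type} [Fintype κ] (b : κ → Bool) (X : ZMod s → κ ⊕ κ → Ω) :
    ph s D (Bf ε) e (pext (FV q ε b) s X) =
      ∑ i, ph s D (B1 ε) e (pext (F1 q ε (b i)) s fun c => pls Ω κ (X c) i) := by
  simp only [ph, pext_pls_SBA]
  rw [Finset.sum_comm]
  refine Finset.sum_congr rfl fun v _ => ?_
  rw [Finset.sum_add_distrib, ← Finset.mul_sum, ← Finset.mul_sum, ← bf_pls_SBA, Finset.sum_comm]
  congr 2
  refine Finset.sum_congr rfl fun u _ => ?_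
  rw [← Finset.mul_sum, ← bf_pls_SBA]

theorem acz_pls_SBA {κ : Type} [Fintype κ] (b : κ → Bool) (X : ZMod s → κ ⊕ κ → Ω) :
    Acz R (pext (FV q ε b) s X) ↔
      ∀ i, Acz R (pext (F1 q ε (b i)) s fun c => pls Ω κ (X c) i) := by
  constructor
  · intro H i u hu
    rw [pext_pls_SBA, H u hu]
    rfl
  · intro H u hu
    funext j
    rcases j with i | i
    · have := H i u hu
      rw [pext_pls_SBA] at this
      exact congrArg Prod.fst this
    · have := H i u hu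
      rw [pext_pls_SBA] at this
      exact congrArg Prod.snd this

variable {α : Type} [Af Ω α] {p : α → Prop} {ψ : α → Ω} {e : α → ℤ → ℤ → Ω}
  {z : α → ℤ → ι ⊕ ι → Ω}

theorem pq_plane_SBA (he : ∀ u v, Pq k p fun x => e x u v) (b₁ : Bool)
    {X : α → ZMod s → Ω × Ω} (hX : Pq k p X) :
    Pq k p fun x => ph s D (B1 ε) (e x) (pext (F1 q ε b₁) s (X x)) := by
  have h1 : ∀ u, Pq k p fun x => pext (F1 q ε b₁) s (X x) u :=
    fun u => Pq.pext (sem_F1 (k := k) ε b₁).po (sem_F1 (k := k) ε b₁).po' hX u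
  exact Pq.ph he fun u v => ((h1 u).fst.mul (h1 v).snd).add
    ((Pq.const _).mul ((h1 u).snd.mul (h1 v).fst))

theorem one_SBA (h : Az k q G) (h2 : (2 : Ω) ≠ 0) (h3 : C3 s D R f g)
    (hc : (bd D R f (-1)).card = Fintype.card ι) (he : ∀ u v, Pq k p fun x => e x u v)
    (hz : ∀ u, Pq k p fun x => z x u) (hy : ∀ x, p x → Ys q ε b s D R f (e x) (z x))
    (hψ : Pq k p ψ) (h0 : Gy k G p) (hp : Gy k G (AS q p ψ)) (b₁ : Bool) :
    Gy k G (AS q (fun y : α × (ZMod s → Ω × Ω) => p y.1 ∧ Acz R (pext (F1 q ε b₁) s y.2))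
      fun y => ψ y.1 + ph s D (B1 ε) (e y.1) (pext (F1 q ε b₁) s y.2)) := by
  cases b₁
  · exact h.toAu.hstep h2 h3 hc he hz hy hψ h0 hp
  · exact h.nstep h2 h3 hc he hz hy hψ h0 hp

theorem ind_SBA (h : Az k q G) (h2 : (2 : Ω) ≠ 0) (h3 : C3 s D R f g)
    (hc : (bd D R f (-1)).card = Fintype.card ι) (he : ∀ u v, Pq k p fun x => e x u v)
    (hz : ∀ u, Pq k p fun x => z x u) (hy : ∀ x, p x → Ys q ε b s D R f (e x) (z x))
    (hψ : Pq k p ψ) (h0 : Gy k G p) (hp : Gy k G (AS q p ψ)) (n : ℕ) :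
    ∀ {κ : Type} [Fintype κ] (b₀ : κ → Bool), Fintype.card κ = n →
    (Gy k G fun y : α × (κ → ZMod s → Ω × Ω) =>
      p y.1 ∧ ∀ i, Acz R (pext (F1 q ε (b₀ i)) s (y.2 i))) ∧
    Gy k G (AS q (fun y : α × (κ → ZMod s → Ω × Ω) =>
      p y.1 ∧ ∀ i, Acz R (pext (F1 q ε (b₀ i)) s (y.2 i)))
      fun y => ψ y.1 + ∑ i, ph s D (B1 ε) (e y.1) (pext (F1 q ε (b₀ i)) s (y.2 i))) := by
  induction n with
  | zero =>
    intro κ _ b₀ hn
    have := Fintype.card_eq_zero_iff.mp hn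
    exact ⟨(h.toAu.gline (κ → ZMod s → Ω × Ω) h0).congr fun y => by simp,
      (h.toAu.as_line (κ → ZMod s → Ω × Ω) hp).as_of_iff (fun y => by simp) fun y _ => by simp⟩
  | succ n ih =>
    intro κ _ b₀ hn
    have σ : κ ≃ Fin n ⊕ Unit := Fintype.equivOfCardEq (by simpa using hn)
    obtain ⟨g1, g2⟩ := ih (fun c : Fin n => b₀ (σ.symm (.inl c))) (Fintype.card_fin n)
    have pe : ∀ u v, Pq k (fun y : α × (Fin n → ZMod s → Ω × Ω) =>
        p y.1 ∧ ∀ i, Acz R (pext (F1 q ε (b₀ (σ.symm (.inl i)))) s (y.2 i)))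
        fun y => e y.1 u v := fun u v => (he u v).pull (Pq.fst Pq.id) fun _ hx => hx.1
    have g3 := h.toAu.gacz (sem_F1 (k := k) ε (b₀ (σ.symm (.inr ())))) h3.toIs g1
    have pz : ∀ u, Pq k (fun y : α × (Fin n → ZMod s → Ω × Ω) =>
        p y.1 ∧ ∀ i, Acz R (pext (F1 q ε (b₀ (σ.symm (.inl i)))) s (y.2 i)))
        fun y => z y.1 u := fun u => (hz u).pull (Pq.fst Pq.id) fun _ hx => hx.1
    have pψ : Pq k (fun y : α × (Fin n → ZMod s → Ω × Ω) =>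
        p y.1 ∧ ∀ i, Acz R (pext (F1 q ε (b₀ (σ.symm (.inl i)))) s (y.2 i)))
        fun y => ψ y.1 + ∑ i, ph s D (B1 ε) (e y.1)
          (pext (F1 q ε (b₀ (σ.symm (.inl i)))) s (y.2 i)) :=
      (hψ.pull (Pq.fst Pq.id) fun _ hx => hx.1).add
        (Pq.sum _ fun i => pq_plane_SBA pe _ ((Pq.snd Pq.id).eval i))
    have g4 := one_SBA h h2 h3 hc pe pz (fun y hy' => hy y.1 hy'.1) pψ g1 g2
      (b₀ (σ.symm (.inr ())))
    have hf : ∀ P : (α × (Fin n → ZMod s → Ω × Ω)) × (ZMod s → Ω × Ω) → Prop, Pq k P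
        fun y => (y.1.1, fun c => Sum.elim y.1.2 (fun _ => y.2) (σ c)) := fun P =>
      Pq.mk (by fun_prop) (Pq.pi fun c => Pq.eval (Pq.elim (by fun_prop) (by fun_prop)) (σ c))
    have hr : ∀ P : α × (κ → ZMod s → Ω × Ω) → Prop, Pq k P
        fun y => ((y.1, fun c => y.2 (σ.symm (Sum.inl c))), y.2 (σ.symm (Sum.inr ()))) :=
      fun P => by fun_prop
    have k1 : ∀ y : (α × (Fin n → ZMod s → Ω × Ω)) × (ZMod s → Ω × Ω),
        (p y.1.1 ∧ ∀ i, Acz R (pext (F1 q ε (b₀ (σ.symm (.inl i)))) s (y.1.2 i))) ∧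
          Acz R (pext (F1 q ε (b₀ (σ.symm (.inr ())))) s y.2) →
        p y.1.1 ∧ ∀ i, Acz R (pext (F1 q ε (b₀ i)) s (Sum.elim y.1.2 (fun _ => y.2) (σ i))) := by
      intro y hy'
      refine ⟨hy'.1.1, fun i => ?_⟩
      obtain ⟨i, rfl⟩ := σ.symm.surjective i
      rw [Equiv.apply_symm_apply]
      rcases i with i | i
      · exact hy'.1.2 i
      · exact hy'.2
    have k4 : ∀ y : α × (κ → ZMod s → Ω × Ω), (y.1, fun c =>
        Sum.elim (fun c => y.2 (σ.symm (Sum.inl c))) (fun _ => y.2 (σ.symm (Sum.inr ()))) (σ c)) =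
        y := fun y => Prod.ext rfl (funext fun c => by
      obtain ⟨c, rfl⟩ := σ.symm.surjective c
      rcases c with c | c <;> simp)
    refine ⟨h.toAu.giso _ _ (hf _) (hr _) k1 (fun y hy' => ⟨⟨hy'.1, fun i => hy'.2 _⟩, hy'.2 _⟩)
        (fun y _ => by simp) (fun y _ => k4 y) g3,
      h.toAu.as_iso _ _ (hf _) (hr _) k1 (fun y hy' => ⟨⟨hy'.1, fun i => hy'.2 _⟩, hy'.2 _⟩)
        (fun y _ => by simp) (fun y _ => k4 y) (Eqs.of_eq fun y _ => ?_) g4⟩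
    dsimp only
    rw [← σ.symm.sum_comp, Fintype.sum_sum_type, add_assoc]
    simp

theorem Az.planes_aux (h : Az k q G) (h2 : (2 : Ω) ≠ 0) (h3 : C3 s D R f g)
    (hc : (bd D R f (-1)).card = Fintype.card ι) (he : ∀ u v, Pq k p fun x => e x u v)
    (hz : ∀ u, Pq k p fun x => z x u) (hy : ∀ x, p x → Ys q ε b s D R f (e x) (z x))
    (hψ : Pq k p ψ) (h0 : Gy k G p) (hp : Gy k G (AS q p ψ)) {κ : Type} [Fintype κ]
    (b₀ : κ → Bool) :
    (Gy k G fun y : α × (κ → ZMod s → Ω × Ω) =>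
      p y.1 ∧ ∀ i, Acz R (pext (F1 q ε (b₀ i)) s (y.2 i))) ∧
    Gy k G (AS q (fun y : α × (κ → ZMod s → Ω × Ω) =>
      p y.1 ∧ ∀ i, Acz R (pext (F1 q ε (b₀ i)) s (y.2 i)))
      fun y => ψ y.1 + ∑ i, ph s D (B1 ε) (e y.1) (pext (F1 q ε (b₀ i)) s (y.2 i))) :=
  ind_SBA h h2 h3 hc he hz hy hψ h0 hp _ b₀ rfl

theorem Az.planes (h : Az k q G) (h2 : (2 : Ω) ≠ 0) (h3 : C3 s D R f g)
    (hc : (bd D R f (-1)).card = Fintype.card ι) (he : ∀ u v, Pq k p fun x => e x u v)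
    (hz : ∀ u, Pq k p fun x => z x u) (hy : ∀ x, p x → Ys q ε b s D R f (e x) (z x))
    (hψ : Pq k p ψ) (h0 : Gy k G p) (hp : Gy k G (AS q p ψ)) {κ : Type} [Fintype κ]
    (b₀ : κ → Bool) :
    Gy k G (AS q (fun y : α × (ZMod s → κ ⊕ κ → Ω) => p y.1 ∧ Acz R (pext (FV q ε b₀) s y.2))
      fun y => ψ y.1 + ph s D (Bf ε) (e y.1) (pext (FV q ε b₀) s y.2)) := by
  refine h.toAu.as_iso
    (fun y : α × (κ → ZMod s → Ω × Ω) =>
      (y.1, fun c => Sum.elim (fun i => (y.2 i c).1) fun i => (y.2 i c).2))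
    (fun y : α × (ZMod s → κ ⊕ κ → Ω) => (y.1, fun i c => (y.2 c (.inl i), y.2 c (.inr i))))
    (Pq.mk (by fun_prop) (Pq.pi fun c => Pq.elim (by fun_prop) (by fun_prop))) (by fun_prop)
    (fun y hy' => ⟨hy'.1, (acz_pls_SBA b₀ _).2 hy'.2⟩)
    (fun y hy' => ⟨hy'.1, (acz_pls_SBA b₀ _).1 hy'.2⟩) (fun y _ => rfl)
    (fun y _ => Prod.ext rfl (funext fun c => funext fun j => by rcases j with j | j <;> rfl))
    (Eqs.of_eq fun y _ => ?_) (h.planes_aux h2 h3 hc he hz hy hψ h0 hp b₀).2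
  dsimp only
  rw [ph_planes]
  rfl

/-- the open part in the bijective case -/
theorem Az.tq_three (h : Az k q G) (h2 : (2 : Ω) ≠ 0) (h3 : C3 s D R f g)
    (hp : ∀ b' : Bi D R f → Bool,
      Gy k G (Zt (Ω := Ω) q (-ε) b' s R fun u => max (f u - 1) (u - 1))) :
    GT k G q ε (Bf ε) (FV q ε b) s D R f (fun u => u - 1) (Piv R f) := by
  refine h.toAu.cover (fd_bf ε b) h2 h3 fun b' => ?_
  have hc : (bd D R f (-1)).card = Fintype.card (Bi D R f) := (Fintype.card_coe _).symm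
  have h0 := h.toAu.gy_yb h2 h3 hc (hp b')
  exact (h.planes (p := Yb q ε b' s D R f) (ψ := fun _ => 0) (e := fun y => ee q ε y.1)
    (z := fun y => pext (FV q (-ε) b') s y.2) h2 h3 hc pq_te
    (fun u => Pq.pext (sem_FV (k := k) (-ε) b').po (sem_FV (k := k) (-ε) b').po' (Pq.snd Pq.id) u)
    (fun _ hx => hx) (Pq.const 0) h0 (h.toAu.as_zero h0) b).as_of_iff (fun _ => Iff.rfl)
    fun y _ => (zero_add _).symm

end Pool.Agent.CXD
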