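import Pool.Agent.P.MP_2ce3e7_ag.TB9
import Pool.Agent.P.MP_2ce3e7_ag.SBA

/-! All planes, quadratic version. -/

set_option linter.unusedSectionVars false
set_option linter.unusedVariables false

open Function Matrix

noncomputable section

namespace Pool.Agent.CXD
open Finset

variable {k Ω : Type} [Field k] [Field Ω] [Algebra k Ω] {q : ℕ} {ε : ℤˣ} {s D : ℕ} [NeZero s]
  {R : ℤ → Prop} {f g : ℤ → ℤ} {ι : Type} [Fintype ι] {b : ι → Bool} {G : Gp Ω}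
  {e : ℤ → ℤ → Ω} {θ : ℤ} [IsAlgClosed Ω] [Sq k q]

theorem cf_pls {κ : Type} [Fintype κ] (x : κ ⊕ κ → Ω) : Cf ε x = ∑ i, C1 ε (pls Ω κ x i) := by
  unfold Cf C1
  split_ifs
  · rfl
  · exact sum_const_zero.symm

theorem phq_planes {κ : Type} [Fintype κ] (b : κ → Bool) (X : ZMod s → κ ⊕ κ → Ω) :
    phq s D (Bf ε) (Cf ε) e (pext (FV q ε b) s X) =
      ∑ i, phq s D (B1 ε) (C1 ε) e (pext (F1 q ε (b i)) s fun c => pls Ω κ (X c) i) := by
  simp only [phq, pext_pls_SBA]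
  rw [Finset.sum_comm]
  refine Finset.sum_congr rfl fun v _ => ?_
  rw [Finset.sum_add_distrib, ← Finset.mul_sum, ← cf_pls, Finset.sum_comm]
  congr 1
  refine Finset.sum_congr rfl fun u _ => ?_
  rw [← Finset.mul_sum, ← bf_pls_SBA]

variable {α : Type} [Af Ω α] {p : α → Prop} {ψ : α → Ω} {e : α → ℤ → ℤ → Ω}
  {z : α → ℤ → ι ⊕ ι → Ω}

theorem pq_plane_TBA (he : ∀ u v, Pq k p fun x => e x u v) (b₁ : Bool)
    {X : α → ZMod s → Ω × Ω} (hX : Pq k p X) :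
    Pq k p fun x => phq s D (B1 ε) (C1 ε) (e x) (pext (F1 q ε b₁) s (X x)) := by
  have h1 : ∀ u, Pq k p fun x => pext (F1 q ε b₁) s (X x) u :=
    fun u => Pq.pext (sem_F1 (k := k) ε b₁).po (sem_F1 (k := k) ε b₁).po' hX u
  exact Pq.phq he (fun u v => ((h1 u).fst.mul (h1 v).snd).add
    ((Pq.const _).mul ((h1 u).snd.mul (h1 v).fst))) fun u => Pq.c1 ε (h1 u)

theorem one_TBA (h : Az k q G) (h3 : C3 s D R f g)
    (hc : (bd D R f (-1)).card = Fintype.card ι) (he : ∀ u v, Pq k p fun x => e x u v)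
    (hz : ∀ u, Pq k p fun x => z x u) (hy : ∀ x, p x → Ys q ε b s D R f (e x) (z x))
    (hψ : Pq k p ψ) (h0 : Gy k G p) (hp : Gy k G (AS q p ψ)) (b₁ : Bool) :
    Gy k G (AS q (fun y : α × (ZMod s → Ω × Ω) => p y.1 ∧ Acz R (pext (F1 q ε b₁) s y.2))
      fun y => ψ y.1 + phq s D (B1 ε) (C1 ε) (e y.1) (pext (F1 q ε b₁) s y.2)) := by
  cases b₁
  · exact h.toAu.hstepq h3 hc he hz hy hψ h0 hp
  · exact h.nstepq h3 hc he hz hy hψ h0 hp

theorem ind_TBA (h : Az k q G) (h3 : C3 s D R f g)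
    (hc : (bd D R f (-1)).card = Fintype.card ι) (he : ∀ u v, Pq k p fun x => e x u v)
    (hz : ∀ u, Pq k p fun x => z x u) (hy : ∀ x, p x → Ys q ε b s D R f (e x) (z x))
    (hψ : Pq k p ψ) (h0 : Gy k G p) (hp : Gy k G (AS q p ψ)) (n : ℕ) :
    ∀ {κ : Type} [Fintype κ] (b₀ : κ → Bool), Fintype.card κ = n →
    (Gy k G fun y : α × (κ → ZMod s → Ω × Ω) =>
      p y.1 ∧ ∀ i, Acz R (pext (F1 q ε (b₀ i)) s (y.2 i))) ∧
    Gy k G (AS q (fun y : α × (κ → ZMod s → Ω × Ω) =>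
      p y.1 ∧ ∀ i, Acz R (pext (F1 q ε (b₀ i)) s (y.2 i)))
      fun y => ψ y.1 + ∑ i, phq s D (B1 ε) (C1 ε) (e y.1) (pext (F1 q ε (b₀ i)) s (y.2 i))) := by
  induction n with
  | zero =>
    intro κ _ b₀ hn
    have := Fintype.card_eq_zero_iff.mp hn
    exact ⟨(h.toAu.gline (κ → ZMod s → Ω × Ω) h0).congr fun y => by simp,
      (h.toAu.as_line (κ → ZMod s → Ω × Ω) hp).as_of_iff (fun y => by simp) fun y _ => by simp⟩
  | succ n ih =>
    intro κ _ b₀ hn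
    have σ : κ ≃ Fin n ⊕ Unit := Fintype.equivOfCardEq (by simpa using hn)
    obtain ⟨g1, g2⟩ := ih (fun c : Fin n => b₀ (σ.symm (.inl c))) (Fintype.card_fin n)
    have pe : ∀ u v, Pq k (fun y : α × (Fin n → ZMod s → Ω × Ω) =>
        p y.1 ∧ ∀ i, Acz R (pext (F1 q ε (b₀ (σ.symm (.inl i)))) s (y.2 i)))
        fun y => e y.1 u v := fun u v => (he u v).pull (Pq.fst Pq.id) fun _ hx => hx.1
    have g3 := h.toAu.gacz (sem_F1 (k := k) ε (b₀ (σ.symm (.inr ())))) h3.toIs g1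
    have pz : ∀ u, Pq k (fun y : α × (Fin n → ZMod s → Ω × Ω) =>
        p y.1 ∧ ∀ i, Acz R (pext (F1 q ε (b₀ (σ.symm (.inl i)))) s (y.2 i)))
        fun y => z y.1 u := fun u => (hz u).pull (Pq.fst Pq.id) fun _ hx => hx.1
    have pψ : Pq k (fun y : α × (Fin n → ZMod s → Ω × Ω) =>
        p y.1 ∧ ∀ i, Acz R (pext (F1 q ε (b₀ (σ.symm (.inl i)))) s (y.2 i)))
        fun y => ψ y.1 + ∑ i, phq s D (B1 ε) (C1 ε) (e y.1)
          (pext (F1 q ε (b₀ (σ.symm (.inl i)))) s (y.2 i)) :=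
      (hψ.pull (Pq.fst Pq.id) fun _ hx => hx.1).add
        (Pq.sum _ fun i => pq_plane_TBA pe _ ((Pq.snd Pq.id).eval i))
    have g4 := one_TBA h h3 hc pe pz (fun y hy' => hy y.1 hy'.1) pψ g1 g2
      (b₀ (σ.symm (.inr ())))
    have hf : ∀ P : (α × (Fin n → ZMod s → Ω × Ω)) × (ZMod s → Ω × Ω) → Prop, Pq k P
        fun y => (y.1.1, fun c => Sum.elim y.1.2 (fun _ => y.2) (σ c)) := fun P =>
      Pq.mk (by fun_prop) (Pq.pi fun c => Pq.eval (Pq.elim (by fun_prop) (by fun_prop)) (σ c))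
    have hr : ∀ P : α × (κ → ZMod s → Ω × Ω) → Prop, Pq k P
        fun y => ((y.1, fun c => y.2 (σ.symm (Sum.inl c))), y.2 (σ.symm (Sum.inr ()))) :=
      fun P => by fun_prop
    have k1 : ∀ y : (α × (Fin n → ZMod s → Ω × Ω)) × (ZMod s → Ω × Ω),
        (p y.1.1 ∧ ∀ i, Acz R (pext (F1 q ε (b₀ (σ.symm (.inl i)))) s (y.1.2 i))) ∧
          Acz R (pext (F1 q ε (b₀ (σ.symm (.inr ())))) s y.2) →
        p y.1.1 ∧ ∀ i, Acz R (pext (F1 q ε (b₀ i)) s (Sum.elim y.1.2 (fun _ => y.2) (σ i))) := by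
      intro y hy'
      refine ⟨hy'.1.1, fun i => ?_⟩
      obtain ⟨i, rfl⟩ := σ.symm.surjective i
      rw [Equiv.apply_symm_apply]
      rcases i with i | i
      · exact hy'.1.2 i
      · exact hy'.2
    have k4 : ∀ y : α × (κ → ZMod s → Ω × Ω), (y.1, fun c =>
        Sum.elim (fun c => y.2 (σ.symm (Sum.inl c))) (fun _ => y.2 (σ.symm (Sum.inr ()))) (σ c)) =
        y := fun y => Prod.ext rfl (funext fun c => by
      obtain ⟨c, rfl⟩ := σ.symm.surjective c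
      rcases c with c | c <;> simp)
    refine ⟨h.toAu.giso _ _ (hf _) (hr _) k1 (fun y hy' => ⟨⟨hy'.1, fun i => hy'.2 _⟩, hy'.2 _⟩)
        (fun y _ => by simp) (fun y _ => k4 y) g3,
      h.toAu.as_iso _ _ (hf _) (hr _) k1 (fun y hy' => ⟨⟨hy'.1, fun i => hy'.2 _⟩, hy'.2 _⟩)
        (fun y _ => by simp) (fun y _ => k4 y) (Eqs.of_eq fun y _ => ?_) g4⟩
    dsimp only
    rw [← σ.symm.sum_comp, Fintype.sum_sum_type, add_assoc]
    simp

theorem Az.planes_auxq (h : Az k q G) (h3 : C3 s D R f g)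
    (hc : (bd D R f (-1)).card = Fintype.card ι) (he : ∀ u v, Pq k p fun x => e x u v)
    (hz : ∀ u, Pq k p fun x => z x u) (hy : ∀ x, p x → Ys q ε b s D R f (e x) (z x))
    (hψ : Pq k p ψ) (h0 : Gy k G p) (hp : Gy k G (AS q p ψ)) {κ : Type} [Fintype κ]
    (b₀ : κ → Bool) :
    (Gy k G fun y : α × (κ → ZMod s → Ω × Ω) =>
      p y.1 ∧ ∀ i, Acz R (pext (F1 q ε (b₀ i)) s (y.2 i))) ∧
    Gy k G (AS q (fun y : α × (κ → ZMod s → Ω × Ω) =>
      p y.1 ∧ ∀ i, Acz R (pext (F1 q ε (b₀ i)) s (y.2 i)))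
      fun y => ψ y.1 + ∑ i, phq s D (B1 ε) (C1 ε) (e y.1) (pext (F1 q ε (b₀ i)) s (y.2 i))) :=
  ind_TBA h h3 hc he hz hy hψ h0 hp _ b₀ rfl

theorem Az.planesq (h : Az k q G) (h3 : C3 s D R f g)
    (hc : (bd D R f (-1)).card = Fintype.card ι) (he : ∀ u v, Pq k p fun x => e x u v)
    (hz : ∀ u, Pq k p fun x => z x u) (hy : ∀ x, p x → Ys q ε b s D R f (e x) (z x))
    (hψ : Pq k p ψ) (h0 : Gy k G p) (hp : Gy k G (AS q p ψ)) {κ : Type} [Fintype κ]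
    (b₀ : κ → Bool) :
    Gy k G (AS q (fun y : α × (ZMod s → κ ⊕ κ → Ω) => p y.1 ∧ Acz R (pext (FV q ε b₀) s y.2))
      fun y => ψ y.1 + phq s D (Bf ε) (Cf ε) (e y.1) (pext (FV q ε b₀) s y.2)) := by
  refine h.toAu.as_iso
    (fun y : α × (κ → ZMod s → Ω × Ω) =>
      (y.1, fun c => Sum.elim (fun i => (y.2 i c).1) fun i => (y.2 i c).2))
    (fun y : α × (ZMod s → κ ⊕ κ → Ω) => (y.1, fun i c => (y.2 c (.inl i), y.2 c (.inr i))))
    (Pq.mk (by fun_prop) (Pq.pi fun c => Pq.elim (by fun_prop) (by fun_prop))) (by fun_prop)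
    (fun y hy' => ⟨hy'.1, (acz_pls_SBA b₀ _).2 hy'.2⟩)
    (fun y hy' => ⟨hy'.1, (acz_pls_SBA b₀ _).1 hy'.2⟩) (fun y _ => rfl)
    (fun y _ => Prod.ext rfl (funext fun c => funext fun j => by rcases j with j | j <;> rfl))
    (Eqs.of_eq fun y _ => ?_) (h.planes_auxq h3 hc he hz hy hψ h0 hp b₀).2
  dsimp only
  rw [phq_planes]
  rfl

end Pool.Agent.CXD
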