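import Pool.Agent.P.MP_2ce3e7_ag.SI0

/-! From Artin-Schreier varieties to orthogonality conditions. -/

set_option linter.unusedSectionVars false
set_option linter.unusedVariables false

open Function Matrix

noncomputable section

namespace Pool.Agent.CXD
open Finset

variable {k Ω : Type} [Field k] [Field Ω] [Algebra k Ω] {q : ℕ} {ε : ℤˣ} {s D : ℕ} [NeZero s]
  {R : ℤ → Prop} {f f' f₁ f₂ : ℤ → ℤ} {n : Type} [Fintype n] {G : Gp Ω}
  {B : (n → Ω) → (n → Ω) → Ω} {F : Equiv.Perm (n → Ω)}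
  {Q Q' : (ℤ → ℤ → Ω) → Prop} {r κ : ℤ} {e : ℤ → ℤ → Ω}
  [Sq k q] [IsAlgClosed Ω]

open Classical in
/-- the allowed coordinates -/
def okf (ε : ℤˣ) (s D : ℕ) [NeZero s] (R : ℤ → Prop) (f : ℤ → ℤ) : Finset (ZMod s × Fin (D + 1)) :=
  univ.filter fun i => ok ε R f (i.1.val - i.2.val) i.1.val

theorem mem_okf_SI6 {i : ZMod s × Fin (D + 1)} :
    i ∈ okf ε s D R f ↔ ok ε R f (i.1.val - i.2.val) i.1.val := by
  simp only [okf, mem_filter, mem_univ, true_and]

theorem okf_erase (hi : Is s D R f) (h : (okf ε s D R f).Nonempty) : ∃ i ∈ okf ε s D R f, ∃ f',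
    Is s D R f' ∧ (∀ u, f' u ≤ f u) ∧ (okf ε s D R f).erase i = okf ε s D R f' := by
  obtain ⟨i, hio, hmax⟩ := exists_max_image _ (fun i : ZMod s × Fin (D + 1) => i.2.val) h
  have h0 := mem_okf_SI6.1 hio
  have hd := i.2.isLt
  obtain ⟨f', hf'⟩ : ∃ f' : ℤ → ℤ, ∀ w, f' w =
      if (w : ZMod s) = ((i.1.val - i.2.val : ℤ) : ZMod s) then w + i.2.val - 1 else f w :=
    ⟨_, fun _ => rfl⟩
  have hle : ∀ w, f' w ≤ f w := by
    intro w
    rw [hf']
    split_ifs with e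
    · obtain ⟨j, hj⟩ := (ZMod.intCast_eq_intCast_iff_dvd_sub _ _ _).1 e.symm
      have h1 := hi.mulf (i.1.val - i.2.val) j
      have h2 := h0.2.2.1
      rw [← hj, add_sub_cancel] at h1
      omega
    · exact le_rfl
  refine ⟨i, hio, f', ⟨hi.perR, fun w => ?_, fun w => ?_, fun w => (hle w).trans (hi.hi w)⟩, hle,
    ?_⟩
  · rw [hf', hf', Int.cast_add, Int.cast_natCast, ZMod.natCast_self, add_zero, hi.perf]
    split_ifs
    · ring
    · rfl
  · rw [hf']
    split_ifs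
    · omega
    · exact hi.lo w
  · ext j
    rw [mem_erase, mem_okf_SI6 (f := f')]
    refine ⟨fun ⟨hne, hj⟩ => ?_, fun hj => ⟨?_, mem_okf_SI6.2
      ⟨hj.1, hj.2.1, hj.2.2.1.trans (hle _), hj.2.2.2⟩⟩⟩
    · have h1 := mem_okf_SI6.1 hj
      refine ⟨h1.1, h1.2.1, ?_, h1.2.2.2⟩
      rw [hf']
      split_ifs with e
      · have h2 : j.2.val ≤ i.2.val := hmax j hj
        have h3 : j.2.val ≠ i.2.val := fun e' => hne (Prod.ext (by
          rw [e'] at e
          simpa using e) (Fin.ext e'))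
        omega
      · exact h1.2.2.1
    · rintro rfl
      have h1 := hj.2.2.1
      rw [hf', if_pos rfl] at h1
      omega

theorem sum_zmod_SI6 (g : ℤ → Ω) : ∑ v ∈ Ico (0 : ℤ) s, g v = ∑ c : ZMod s, g c.val := by
  refine (Finset.sum_nbij' (fun c : ZMod s => (c.val : ℤ)) (fun v => (v : ZMod s))
    (fun c _ => mem_Ico.2 ⟨Int.natCast_nonneg _, by exact_mod_cast ZMod.val_lt c⟩)
    (fun _ _ => mem_univ _) (fun c _ => by simp)
    (fun v hv => val_SE1 (mem_Ico.1 hv).1 (mem_Ico.1 hv).2) fun _ _ => rfl).symm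

theorem sum_fin_SI6 (g : ℤ → Ω) (v : ℤ) :
    ∑ u ∈ Ico (v - D) v, g u = ∑ δ : Fin D, g (v - (δ.succ.val : ℕ)) := by
  refine (Finset.sum_bij (fun (δ : Fin D) _ => v - (δ.succ.val : ℕ)) (fun δ _ => ?_)
    (fun a _ b _ e => ?_) (fun u hu => ?_) fun _ _ => rfl).symm
  · have := δ.isLt
    rw [mem_Ico, Fin.val_succ]
    omega
  · simp only [Fin.val_succ] at e
    exact Fin.ext (by omega)
  · rw [mem_Ico] at hu
    refine ⟨⟨(v - u - 1).toNat, by omega⟩, mem_univ _, ?_⟩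
    simp only [Fin.val_succ]
    omega

theorem tf_eq (E : Ecf Ω s D) (X : ZMod s → n → Ω) :
    Tf q ε B F s D (E, X) = ∑ i : ZMod s × Fin (D + 1), E i.1 i.2 *
      ((if i.2.val = 0 then 1 else 2) * B (pext F s X (i.1.val - i.2.val)) (pext F s X i.1.val)) := by
  rw [Tf, ph, sum_zmod_SI6, Fintype.sum_prod_type]
  refine Finset.sum_congr rfl fun c _ => ?_
  rw [Fin.sum_univ_succ, sum_fin_SI6, Finset.mul_sum]
  refine congrArg₂ _ ?_ (Finset.sum_congr rfl fun δ _ => ?_)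
  · have e := ee_coord q ε E c 0
    simp only [Fin.val_zero, Nat.cast_zero, sub_zero] at e
    simp only [e, Fin.val_zero, Nat.cast_zero, sub_zero, if_true, one_mul]
  · rw [ee_coord q ε E c δ.succ, if_neg (by simp)]
    ring

theorem ot_iff (hF : Fo k q ε B F) (h2 : (2 : Ω) ≠ 0) (hi : Is s D R f) {x : ℤ → n → Ω}
    (hx : Pe F s x) : (∀ u v, R u → R v → u ≤ v → v ≤ f u → B (x u) (x v) = 0) ↔
      ∀ i ∈ okf ε s D R f, B (x (i.1.val - i.2.val)) (x i.1.val) = 0 := by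
  refine ⟨fun H i hio => ?_, fun H u v hu hv h1 h3 => ?_⟩
  · have h0 := mem_okf_SI6.1 hio
    exact H _ _ h0.1 h0.2.1 (by omega) h0.2.2.1
  have key : ∀ v d : ℤ, R (v - d) → R v → 0 ≤ d → v ≤ f (v - d) → B (x (v - d)) (x v) = 0 := by
    intro v
    refine per_ind s (P := fun v => ∀ d : ℤ, R (v - d) → R v → 0 ≤ d → v ≤ f (v - d) →
      B (x (v - d)) (x v) = 0) (fun v => forall_congr' fun d => ?_) 0
      (fun v a1 a2 d b1 b2 b3 b4 => ?_) v
    · rw [show v + s - d = v - d + s by ring, hi.perR, hi.perR, hi.perf, hx, hx, hF.frob,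
        add_le_add_iff_right, mul_eq_zero, or_iff_right (sg_ne ε),
        pow_eq_zero_iff (Sq.su : Su k q).pos.ne']
    · rw [zero_add] at a2
      by_cases e : v - d = v → ε = 1
      · have b5 := hi.hi (v - d)
        have e1 := val_SE1 a1 a2
        have e2 : ((d.toNat : ℕ) : ℤ) = d := Int.toNat_of_nonneg b3
        have := H ((v : ZMod s), ⟨d.toNat, by omega⟩) (mem_okf_SI6.2 (by
          dsimp only
          rw [e1, e2]
          exact ⟨b1, b2, b4, e⟩))
        dsimp only at this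
        rwa [e1, e2] at this
      · rw [Classical.not_imp] at e
        have e1 := hF.comm (x v) (x v)
        rw [(Int.units_eq_one_or ε).resolve_left e.2, sg_neg, sg_one] at e1
        rw [e.1]
        exact (mul_eq_zero.1 (by linear_combination e1)).resolve_left h2
  have := key v (v - u)
  rw [sub_sub_cancel] at this
  exact this hu hv (by omega) h3

theorem Az.zg (h : Az k q G) (hF : Fo k q ε B F) (h2 : (2 : Ω) ≠ 0) (hi : Is s D R f)
    (hT : ∀ f', Is s D R f' → (∀ u, f' u ≤ f u) → GT k G q ε B F s D R f' f' fun _ => True) :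
    Gy k G (Zg B F s R f) := by
  classical
  have hx : ∀ (p : (ZMod s → n → Ω) → Prop) (u : ℤ), Pq k p fun X => pext F s X u :=
    fun p u => Pq.pext hF.sem.po hF.sem.po' Pq.id u
  have h0 : Gy k G fun X : ZMod s → n → Ω => Acz R (pext F s X) :=
    h.toAu.gunline Ω (h.toAu.giso (fun y : Ω × (ZMod s → n → Ω) => (y.2, y.1))
      (fun y => (y.2, y.1)) (by fun_prop) (by fun_prop) (fun _ hy => hy.2)
      (fun _ hy => ⟨trivial, hy⟩) (fun _ _ => rfl) (fun _ _ => rfl)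
      (h.toAu.gacz hF.sem hi (h.guniv Ω)))
  have hp := h.toAu.gci hF.sem hi (x := fun X => pext F s X) (hx _) (fun X _ => pe_pext F X) h0
  have key := h.toAu.as_cayley hp (f := fun (i : ZMod s × Fin (D + 1)) X =>
      (if i.2.val = 0 then 1 else 2) * B (pext F s X (i.1.val - i.2.val)) (pext F s X i.1.val))
    (fun i => (Pq.ite _ (Pq.const 1) (Pq.const 2)).mul (hF.pq (hx _ _) (hx _ _)))
    {E | ∃ f', Is s D R f' ∧ (∀ u, f' u ≤ f u) ∧ E = okf ε s D R f'} ?_ ?_ _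
    ⟨f, hi, fun _ => le_rfl, rfl⟩
  · refine key.congr fun X => ?_
    rw [Zg, and_assoc, ot_iff hF h2 hi (pe_pext F X)]
    refine and_congr_right fun _ => and_congr_right fun _ => forall₂_congr fun i _ => ?_
    rw [mul_eq_zero, or_iff_right]
    split_ifs
    exacts [one_ne_zero, h2]
  · rintro _ ⟨f', a1, a2, rfl⟩ hne
    obtain ⟨i, b1, f'', b2, b3, b4⟩ := okf_erase a1 hne
    exact ⟨i, b1, f'', b2, fun u => (b3 u).trans (a2 u), b4⟩
  · rintro _ ⟨f', a1, a2, rfl⟩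
    have T : GT k G q ε B F s D R f f (Se ε R f') := h.toAu.tq_low hF hi (fun u _ => a2 u)
      (fun e _ => ⟨fun H => ⟨H.2, trivial⟩, fun H => ⟨H.1.mono fun u _ => a2 u, H.1⟩⟩)
      (hT f' a1 a2)
    refine h.toAu.as_iso (fun y : Ecf Ω s D × (ZMod s → n → Ω) => (y.2, fun i => y.1 i.1 i.2))
      (fun y => (fun c δ => y.2 (c, δ), y.1)) ?_ ?_ (fun z hz => ⟨⟨hz.2.1, hz.2.2.1⟩, fun i hio =>
        (se_iff k a1 z.1).1 hz.2.2.2 i.1 i.2 fun H => hio (mem_okf_SI6.2 H)⟩)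
      (fun y hy => ?_) (fun _ _ => rfl) (fun _ _ => rfl)
      (Eqs.of_eq fun z _ => (tf_eq z.1 z.2).symm) T
    · exact (Pq.snd Pq.id).mk (Pq.pi fun i => ((Pq.fst Pq.id).eval i.1).eval i.2)
    · exact (Pq.pi fun c => Pq.pi fun δ => (Pq.snd Pq.id).eval (c, δ)).mk (Pq.fst Pq.id)
    · have H : Se ε R f' (ee q ε fun c δ => y.2 (c, δ)) := (se_iff k a1 _).2 fun c δ H =>
        hy.2 (c, δ) fun hio => H (mem_okf_SI6.1 hio)
      exact ⟨H.mono fun u _ => a2 u, hy.1.1, hy.1.2, H⟩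

end Pool.Agent.CXD
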