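import Pool.Agent.P.MP_2ce3e7_ag.TI0
import Pool.Agent.P.MP_2ce3e7_ag.SI6

/-! The Cayley trick. -/

set_option linter.unusedSectionVars false
set_option linter.unusedVariables false

open Function Matrix

noncomputable section

namespace Pool.Agent.CXD
open Finset

variable {k Ω : Type} [Field k] [Field Ω] [Algebra k Ω] {q : ℕ} {ε : ℤˣ} {s D : ℕ} [NeZero s]
  {R : ℤ → Prop} {f f' f₁ f₂ : ℤ → ℤ} {n : Type} [Fintype n] {G : Gp Ω}
  {B : (n → Ω) → (n → Ω) → Ω} {C : (n → Ω) → Ω} {F : Equiv.Perm (n → Ω)}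
  {Q Q' : (ℤ → ℤ → Ω) → Prop} {r κ : ℤ} {e : ℤ → ℤ → Ω}
  [Sq k q] [IsAlgClosed Ω]

/-- the coefficient of a coordinate -/
def cfq {W : Type} (B : W → W → Ω) (C : W → Ω) (x : ℤ → W) (v : ℤ) (d : ℕ) : Ω :=
  if d = 0 then C (x v) else B (x (v - d)) (x v)

theorem uf_eq (E : Ecf Ω s D) (X : ZMod s → n → Ω) :
    Uf q ε B C F s D (E, X) = ∑ i : ZMod s × Fin (D + 1), E i.1 i.2 *
      cfq B C (pext F s X) i.1.val i.2.val := by
  rw [Uf, phq, sum_zmod_SI6, Fintype.sum_prod_type]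
  refine Finset.sum_congr rfl fun c _ => ?_
  rw [Fin.sum_univ_succ, sum_fin_SI6]
  refine congrArg₂ _ ?_ (Finset.sum_congr rfl fun δ _ => ?_)
  · have e := ee_coord q ε E c 0
    simp only [Fin.val_zero, Nat.cast_zero, sub_zero] at e
    simp only [e, Fin.val_zero, cfq, if_true]
  · rw [ee_coord q ε E c δ.succ, cfq, if_neg (by simp)]

theorem oq_iff (hF : Fq k q ε B C F) (hi : Is s D R f) {x : ℤ → n → Ω} (hx : Pe F s x) :
    ((∀ u v, R u → R v → u ≤ v → v ≤ f u → B (x u) (x v) = 0) ∧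
      ∀ u, R u → u ≤ f u → C (x u) = 0) ↔
      ∀ i ∈ okf ε s D R f, cfq B C x i.1.val i.2.val = 0 := by
  refine ⟨fun H i hio => ?_, fun H => ?_⟩
  · have h0 := mem_okf_SI6.1 hio
    unfold cfq
    split_ifs with e
    · rw [e, Nat.cast_zero, sub_zero] at h0
      exact H.2 _ h0.1 h0.2.2.1
    · exact H.1 _ _ h0.1 h0.2.1 (by omega) h0.2.2.1
  have key : ∀ (v : ℤ) (d : ℕ), R (v - d) → R v → v ≤ f (v - d) → cfq B C x v d = 0 := by
    intro v
    refine per_ind s (P := fun v => ∀ d : ℕ, R (v - d) → R v → v ≤ f (v - d) →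
      cfq B C x v d = 0) (fun v => forall_congr' fun d => ?_) 0
      (fun v a1 a2 d b1 b2 b4 => ?_) v
    · rw [cfq, cfq, show v + s - d = v - d + s by ring, hi.perR, hi.perR, hi.perf, hx, hx, hF.frob,
        hF.cfr, add_le_add_iff_right]
      split_ifs
      · rw [pow_eq_zero_iff (Sq.su : Su k q).pos.ne']
      · rw [mul_eq_zero, or_iff_right (sg_ne ε), pow_eq_zero_iff (Sq.su : Su k q).pos.ne']
    · rw [zero_add] at a2
      by_cases e : v - d = v → ε = 1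
      · have b5 := hi.hi (v - d)
        have e1 := val_SE1 a1 a2
        have := H ((v : ZMod s), ⟨d, by omega⟩) (mem_okf_SI6.2 (by
          dsimp only
          rw [e1]
          exact ⟨b1, b2, b4, e⟩))
        dsimp only at this
        rwa [e1] at this
      · rw [Classical.not_imp] at e
        rw [cfq, if_pos (by omega), hF.czero e.2]
  have k0 : ∀ u, R u → u ≤ f u → C (x u) = 0 := fun u hu h3 => by
    have := key u 0
    rw [Nat.cast_zero, sub_zero] at this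
    exact this hu hu h3
  refine ⟨fun u v hu hv h1 h3 => ?_, k0⟩
  rcases h1.eq_or_lt with rfl | h1
  · rw [hF.ctwo, k0 u hu h3, mul_zero]
  have := key v (v - u).toNat
  rw [cfq, if_neg (by omega), Int.toNat_of_nonneg (by omega), sub_sub_cancel] at this
  exact this hu hv h3

theorem Az.zq (h : Az k q G) (hF : Fq k q ε B C F) (hi : Is s D R f)
    (hT : ∀ f', Is s D R f' → (∀ u, f' u ≤ f u) → GU k G q ε B C F s D R f' f' fun _ => True) :
    Gy k G (Zqs B C F s R f) := by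
  classical
  have hx : ∀ (p : (ZMod s → n → Ω) → Prop) (u : ℤ), Pq k p fun X => pext F s X u :=
    fun p u => Pq.pext hF.sem.po hF.sem.po' Pq.id u
  have h0 : Gy k G fun X : ZMod s → n → Ω => Acz R (pext F s X) :=
    h.toAu.gunline Ω (h.toAu.giso (fun y : Ω × (ZMod s → n → Ω) => (y.2, y.1))
      (fun y => (y.2, y.1)) (by fun_prop) (by fun_prop) (fun _ hy => hy.2)
      (fun _ hy => ⟨trivial, hy⟩) (fun _ _ => rfl) (fun _ _ => rfl)
      (h.toAu.gacz hF.sem hi (h.guniv Ω)))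
  have hp := h.toAu.gci hF.sem hi (x := fun X => pext F s X) (hx _) (fun X _ => pe_pext F X) h0
  have key := h.toAu.as_cayley hp (f := fun (i : ZMod s × Fin (D + 1)) X =>
      cfq B C (pext F s X) i.1.val i.2.val)
    (fun i => Pq.ite _ (hF.pc (hx _ _)) (hF.toFo.pq (hx _ _) (hx _ _)))
    {E | ∃ f', Is s D R f' ∧ (∀ u, f' u ≤ f u) ∧ E = okf ε s D R f'} ?_ ?_ _
    ⟨f, hi, fun _ => le_rfl, rfl⟩
  · refine key.congr fun X => ?_
    rw [Zqs, Zg, and_assoc, and_assoc, and_assoc, oq_iff hF hi (pe_pext F X)]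
  · rintro _ ⟨f', a1, a2, rfl⟩ hne
    obtain ⟨i, b1, f'', b2, b3, b4⟩ := okf_erase a1 hne
    exact ⟨i, b1, f'', b2, fun u => (b3 u).trans (a2 u), b4⟩
  · rintro _ ⟨f', a1, a2, rfl⟩
    have T : GU k G q ε B C F s D R f f (Se ε R f') := h.toAu.uq_low hF hi (fun u _ => a2 u)
      (fun e _ => ⟨fun H => ⟨H.2, trivial⟩, fun H => ⟨H.1.mono fun u _ => a2 u, H.1⟩⟩)
      (hT f' a1 a2)
    refine h.toAu.as_iso (fun y : Ecf Ω s D × (ZMod s → n → Ω) => (y.2, fun i => y.1 i.1 i.2))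
      (fun y => (fun c δ => y.2 (c, δ), y.1)) ?_ ?_ (fun z hz => ⟨⟨hz.2.1, hz.2.2.1⟩, fun i hio =>
        (se_iff k a1 z.1).1 hz.2.2.2 i.1 i.2 fun H => hio (mem_okf_SI6.2 H)⟩)
      (fun y hy => ?_) (fun _ _ => rfl) (fun _ _ => rfl)
      (Eqs.of_eq fun z _ => (uf_eq z.1 z.2).symm) T
    · exact (Pq.snd Pq.id).mk (Pq.pi fun i => ((Pq.fst Pq.id).eval i.1).eval i.2)
    · exact (Pq.pi fun c => Pq.pi fun δ => (Pq.snd Pq.id).eval (c, δ)).mk (Pq.fst Pq.id)
    · have H : Se ε R f' (ee q ε fun c δ => y.2 (c, δ)) := (se_iff k a1 _).2 fun c δ H =>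
        hy.2 (c, δ) fun hio => H (mem_okf_SI6.1 hio)
      exact ⟨H.mono fun u _ => a2 u, hy.1.1, hy.1.2, H⟩

end Pool.Agent.CXD
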