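import Pool.Agent.P.MP_2ce3e7_ag.TI5
import Pool.Agent.P.MP_2ce3e7_ag.TI6
import Pool.Agent.P.MP_2ce3e7_ag.TBA
import Pool.Agent.P.MP_2ce3e7_ag.TB3
import Pool.Agent.P.MP_2ce3e7_ag.TB5

/-! The varieties of interval systems are good in characteristic two. -/

set_option linter.unusedSectionVars false
set_option linter.unusedVariables false

open Function Matrix

noncomputable section

namespace Pool.Agent.CXD
variable {k Ω : Type} [Field k] [Field Ω] [Algebra k Ω] {q : ℕ} [Sq k q] [IsAlgClosed Ω] {G : Gp Ω}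

/-- the open part in the bijective case -/
theorem Az.uq_three {ε : ℤˣ} {s D : ℕ} [NeZero s] {R : ℤ → Prop} {f g : ℤ → ℤ} {ι : Type}
    [Fintype ι] {b : ι → Bool} (h : Az k q G) (h2 : (2 : Ω) = 0) (h3 : C3 s D R f g)
    (hp : ∀ b' : Bi D R f → Bool, Gy k G (Zqs (Ω := Ω) (Bf (-ε)) (Cf (-ε)) (FV q (-ε) b') s R
      fun u => max (f u - 1) (u - 1))) :
    GU k G q ε (Bf ε) (Cf ε) (FV q ε b) s D R f (fun u => u - 1) (Piv R f) := by
  refine h.toAu.coverq (fq_bf ε b) h2 h3 fun b' => ?_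
  have hc : (bd D R f (-1)).card = Fintype.card (Bi D R f) := (Fintype.card_coe _).symm
  have h0 := h.toAu.gy_ybq h3 hc (hp b')
  exact (h.planesq (p := Ybq q ε b' s D R f) (ψ := fun _ => 0) (e := fun y => ee q ε y.1)
    (z := fun y => pext (FV q (-ε) b') s y.2) h3 hc pq_te
    (fun u => Pq.pext (sem_FV (k := k) (-ε) b').po (sem_FV (k := k) (-ε) b').po' (Pq.snd Pq.id) u)
    (fun _ hx => hx.1) (Pq.const 0) h0 (h.toAu.as_zero h0) b).as_of_iff (fun _ => Iff.rfl)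
    fun y _ => (zero_add _).symm

theorem zq_all (h2 : (2 : Ω) = 0) {s D : ℕ} [NeZero s] (m : ℕ) :
    ∀ (ι : Type) [Fintype ι], Fintype.card ι = m → ∀ (ε : ℤˣ) (b : ι → Bool) (R : ℤ → Prop)
      (f : ℤ → ℤ) (G : Gp Ω), Az k q G → Is s D R f →
      Gy k G (Zqs (Ω := Ω) (Bf ε) (Cf ε) (FV q ε b) s R f) := by
  induction m using Nat.strong_induction_on with
  | _ m ih =>
    intro ι _ hm ε b R f G h hi
    by_cases hc : ∀ w, (clq R f w).ncard ≤ m
    · refine h.zq (fq_bf ε b) hi fun f' hi' hle => ?_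
      refine gu_ind (fq_bf ε b) m
        (fun R f r hi h0 h1 hR hf hp G h => h.uq_1a_end hi h0 h1 hR hf (hp G h))
        (fun R f g h3 hlt G h => h.uq_three h2 h3 fun b' =>
          ih _ hlt _ (Fintype.card_coe _) _ _ _ _ G h h3.toIs.pred) hi' (fun w => ?_) h
      exact (Set.ncard_le_ncard (s := clq R f' w) (t := clq R f w)
        (fun u hu => ⟨hu.1, hu.2.1, hu.2.2.trans (hle u)⟩) (hi.fin w)).trans (hc w)
    · refine h.toAu.gnot fun X hX => hc fun w =>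
        hm ▸ card_le_of_orth ε (hX.1.2.1 w) fun u hu v hv => ?_
      rcases le_total u v with e | e
      · exact hX.1.2.2 u v hu.1 hv.1 e (hv.2.1.trans hu.2.2)
      · rw [Bf_comm, hX.1.2.2 v u hv.1 hu.1 e (hu.2.1.trans hv.2.2), mul_zero]

theorem Az.zqt (h : Az k q G) (h2 : (2 : Ω) = 0) {ι : Type} [Fintype ι] (ε : ℤˣ) (b : ι → Bool)
    {s D : ℕ} [NeZero s] {R : ℤ → Prop} {f : ℤ → ℤ} (hi : Is s D R f) :
    Gy k G (Zqs (Ω := Ω) (Bf ε) (Cf ε) (FV q ε b) s R f) := zq_all h2 _ ι rfl ε b R f G h hi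

end Pool.Agent.CXD
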