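import Pool.Agent.P.MP_2ce3e7_ag.SYE
import Pool.Agent.P.MP_2ce3e7_ag.TH

/-! The varieties of bars in characteristic two. -/

set_option linter.unusedSectionVars false
set_option linter.unusedVariables false

open Function Matrix

noncomputable section

namespace Pool.Agent.CXD

variable {k Ω : Type} [Field k] [Field Ω] [Algebra k Ω] {G : Gp Ω} {q s D : ℕ} [Sq k q]
  [IsAlgClosed Ω] [NeZero s] {R : ℤ → Prop} {f : ℤ → ℤ}
  {n : Type} [Fintype n] [DecidableEq n] {J K : Matrix n n Ω} {P : Mp n Ω}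

theorem cf_emy {ι κ : Type} [Fintype ι] [Fintype κ] (ε : ℤˣ) (y : (ι ⊕ ι → Ω) × (κ → Ω)) :
    Cf ε (emy y) = Cf ε y.1 := by
  rw [Cf, Cf, Fintype.sum_sum_type]
  simp only [emy, Sum.elim_inl, Sum.elim_inr, Pi.zero_apply, mul_zero, Finset.sum_const_zero,
    zero_add]

theorem Az.bar_two (h : Az k q G) (h2 : (2 : Ω) = 0) (ε : ℤˣ) (h3 : J.det ≠ 0)
    (ha : ∀ x, x ⬝ᵥ J *ᵥ x = 0) (h0 : ε ≠ 1 → K = 0) (h1 : ε = 1 → J = K + Kᵀ)
    (h5 : fm q J = J) (h6 : fm q K = K)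
    (hP : ∀ v v', Isq P v v' ↔ v ⬝ᵥ J *ᵥ v' = 0 ∧ v ⬝ᵥ K *ᵥ v = 0) {κ : Type}
    [Fintype κ] {u : κ → n → Ω} (hu : ∀ a, fry n (frq q) (u a) = u a) (hi : Is s D R f)
    (hf : ∀ b, b ≤ f b) : Gy k G (Bary (fry n (frq q)) P (fun _ => Set.univ) s R f u) := by
  obtain ⟨m, hm⟩ := alt_even ha h3
  classical
  by_cases hx : ∃ X, Bary (fry n (frq q)) P (fun _ => Set.univ) s R f u X
  swap
  · exact h.toAu.gnot fun X hX => hx ⟨X, hX⟩
  obtain ⟨X, hX⟩ := hx
  have u1 := hX.pre.1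
  have u2 := fun a a' => (hP _ _).1 (hX.pre.2 a a')
  have hc := (fo_SYE (k := k) (ε := -1) h3 (by rw [alt_skew ha, sg_neg, sg_one, neg_one_smul])
    (by rw [sg_two h2, one_smul, h5])).card_le (linearIndepOn_univ_iff.2 u1)
      fun a _ a' _ => (u2 a a').1
  rw [Set.ncard_univ, Nat.card_eq_fintype_card] at hc
  have e (x : n → Ω) : fry n (frq q) x = 1 *ᵥ fun j => x j ^ q :=
    (funext fun j => fr_apply k _).trans (one_mulVec _).symm
  obtain ⟨b, g, g1, g2, g0, g3, g4⟩ := wd2 k h2 (ι := Fin (m - Fintype.card κ)) ε J K 1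
    (by rw [Fintype.card_fin]; omega) h3 ha h0 h1
    (by rw [transpose_one, Matrix.one_mul, Matrix.mul_one, h5])
    (fun x => by rw [← e, ← dot_fry k (h6.trans (one_smul Ω K).symm), one_mul]) u u1
    (fun a => (e _).symm.trans (hu a)) (fun a a' => (u2 a a').1) fun a => (u2 a a).2
  rw [← funext g4]
  refine h.toAu.bar_frame (fd_bf ε b) Cf_zero g1 (fun x y => by rw [hP, g2, g0])
    (fun x => (e _).trans (g3 x))
    (fun x => FV_FV ε _ x k) (eme _ κ) (Sum.map .inr .inr) (fun a => .inl (.inl a))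
    (fun a => .inr (.inl a)) (Pm.pi ?_) (fun y => ?_) (fun _ _ => rfl)
    (fun x hx => funext ?_) (bf_emy ε) (cf_emy ε) (fv_emy k ε b) (fun a => funext ?_)
    (fun a => bf_SYE ε _) hi hf (h.zqt h2 ε b hi)
  · rintro ((j | j) | (j | j))
    exacts [Pm.id.snd.eval j, Pm.id.fst.eval _, Pm.const 0, Pm.id.fst.eval _]
  · rintro (j | j) <;> rfl
  · rintro ((j | j) | (j | j))
    exacts [rfl, rfl, (hx j).symm, rfl]
  · rintro ((j | j) | (j | j)) <;> simp [eme, emy, Pi.single_apply]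

end Pool.Agent.CXD
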