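import Pool.Agent.P.MP_2ce3e7_ag.SY2

/-! Periodicity of the conditions. -/

set_option linter.unusedSectionVars false
set_option linter.unusedVariables false

open Function Matrix Submodule

noncomputable section

namespace Pool.Agent.CXD
variable {k Ω : Type} [Field k] [Field Ω] [Algebra k Ω] {n κ : Type} [Fintype n]

variable {q s i : ℕ} [Sq k q] [IsAlgClosed Ω] [NeZero s] {F : Equiv.Perm (n → Ω)}
  {J : Mp n Ω} {S : ℤ → Set n} {w : ZMod s → ℕ}

theorem Sem.fam (h : Sem k q F) (ι : Type) [Fintype ι] : Sem k q (fry ι F) :=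
  ⟨fun x y => funext fun a => h.add (x a) (y a), fun t x => funext fun a => h.smul t (x a),
    Pq.pi fun a => h.po.comp (Pq.apply a), Pq.pi fun a => h.po'.comp (Pq.apply a)⟩

theorem pext_fry {ι β : Type} (F : Equiv.Perm β) (X : ZMod s → ι → β) (c : ℤ) (a : ι) :
    pext (fry ι F) s X c a = pext F s (fun d => X d a) c :=
  (pext_map (F := fry ι F) (F' := F) (X := X) (fun z => z a) (fun _ => rfl) c).symm

theorem Sem.mem_lvs (h : Sem k q F) (x : Fin i → n → Ω) (l : ℕ) (v : n → Ω) :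
    F v ∈ lvs (fry _ F x) l ↔ v ∈ lvs x l :=
  (iff_of_eq (congrArg (fun A => F v ∈ Submodule.span Ω A) (Set.image_image F x _).symm)).trans
    (h.span _ v)

theorem Amy.oky (h : Amy k q s F J S) (c : ℤ) (A : Set (n → Ω)) :
    Oky J (S (c + s)) (F '' A) ↔ Oky J (S c) A :=
  and_congr (Set.forall_mem_image.trans (forall₂_congr fun v _ => Set.forall_mem_image.trans
    (forall₂_congr fun v' _ => h.iso v v')))
    (Set.forall_mem_image.trans (forall₂_congr fun v _ => h.sup c v))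

theorem Amy.sty (h : Amy k q s F J S) (c : ℤ) (l : ℕ) (x x' : Fin i → n → Ω) :
    Sty J (S (c + s)) l (fry _ F x) (fry _ F x') ↔ Sty J (S c) l x x' := by
  refine and_congr ?_ (and_congr ?_ (forall₃_congr fun l' _ _ => ?_))
  · rw [← linearIndepOn_univ_iff, ← linearIndepOn_univ_iff]
    exact h.sem.lion x Set.univ
  · rw [← h.oky c, ← Set.range_comp]
    rfl
  · rw [SetLike.ext_iff, SetLike.ext_iff, F.surjective.forall]
    simp only [h.sem.mem_lvs]

theorem per_iff_SY2B {P : ℤ → Prop} (h : ∀ u, P (u + s) ↔ P u) :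
    (∀ u, P u) ↔ ∀ c : ZMod s, P c.val :=
  ⟨fun h1 c => h1 _, fun h1 => per_ind s h 0 fun u h2 h3 => by
    have h4 := h1 (u : ZMod s)
    rwa [val_SE1 h2 (by omega)] at h4⟩

theorem pext_val_SY2B {β : Type} (G : Equiv.Perm β) (X : ZMod s → β) (c : ZMod s) :
    pext G s X c.val = X c := congrFun (res_pext G X) c

theorem Amy.yf_iff (h : Amy k q s F J S) (X : ZMod s → Fin i → n → Ω) : Yfy i F J S w X ↔
    ∀ c : ZMod s, Sty J (S c.val) (w c) (X c) (pext (fry _ F) s X (c.val + 1)) := by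
  refine (per_iff_SY2B (s := s) fun u => ?_).trans (forall_congr' fun c => ?_)
  · rw [add_right_comm u s 1, pe_pext _ X u, pe_pext _ X (u + 1), Int.cast_add, Int.cast_natCast,
      ZMod.natCast_self, add_zero, h.sty]
  · rw [pext_val_SY2B, Int.cast_natCast, ZMod.natCast_zmod_val]

theorem Amy.bar_iff (h : Amy k q s F J S) {D : ℕ} {R : ℤ → Prop} {f : ℤ → ℤ} (hi : Is s D R f)
    {u : κ → n → Ω} (hu : ∀ a, F (u a) = u a) (X : ZMod s → n → Ω) : Bary F J S s R f u X ↔
    (∀ c : ZMod s, ¬R c.val → X c = 0) ∧ ∀ c : ZMod s, LinearIndepOn Ω (Sum.elim (pext F s X) u)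
      (bsy κ R f c.val ∪ bsy κ R f (c.val + 1)) ∧
      Oky J (S c.val) (Sum.elim (pext F s X) u '' bsy κ R f c.val) := by
  refine and_congr (h.sem.act_iff hi.perR X) (per_iff_SY2B (s := s) fun c => ?_)
  have e : Sum.elim (pext F s X) u ∘ Sum.map (· + (s : ℤ)) id =
      fun j => F (Sum.elim (pext F s X) u j) := by
    funext j
    rcases j with j | j
    exacts [pe_pext F X j, (hu j).symm]
  rw [add_right_comm c s 1, hi.bsy_add, hi.bsy_add, ← Set.image_union, ← Set.image_comp, e,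
    ← Set.image_image F, h.oky, ← h.sem.lion _ (bsy κ R f c ∪ _), ← e]
  exact and_congr_left' (linearIndepOn_equiv
    ((Equiv.addRight (s : ℤ)).sumCongr (Equiv.refl κ))).symm

theorem Amy.yr_iff (h : Amy k q s F J S) {R : ℤ → Prop} (hR : ∀ c, R (c + s) ↔ R c)
    (X : ZMod s → Fin (i + 1) → n → Ω) : Yry i F J S w R X ↔ Yfy (i + 1) F J S w X ∧
      ∀ c : ZMod s, X c (Fin.last i) ∈ lvs (pext (fry _ F) s X (c.val - 1)) (i + 1) ↔
        ¬R c.val := by
  refine and_congr_right' ((per_iff_SY2B (s := s) fun u => ?_).trans (forall_congr' fun c => ?_))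
  · rw [hR, add_sub_right_comm u s 1, pe_pext _ X u, pe_pext _ X (u - 1)]
    exact iff_congr (h.sem.mem_lvs _ _ _) Iff.rfl
  · rw [pext_val_SY2B]

section
variable {α : Type} [Af Ω α] {p : α → Prop} {M M' : α → Fin i → n → Ω}

theorem Cr.oky_SY2B (hJ : Kr k J.1) (hK : Kr k J.2) (hM : Pq k p M) (T : Set n) :
    Cr k p fun x => Oky J T (Set.range (M x)) :=
  ((Cr.all fun a => Cr.all fun a' => (Cr.eq ((hM.eval a).dot ((Pq.const J.1).mulVec (hM.eval a')))
    (Pq.const 0)).and ((Cr.eq (((hM.eval a).dot ((Pq.const J.2).mulVec (hM.eval a'))).add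
      ((hM.eval a').dot ((Pq.const J.2).mulVec (hM.eval a)))) (Pq.const 0)).and
      (Cr.eq ((hM.eval a).dot ((Pq.const J.2).mulVec (hM.eval a))) (Pq.const 0)))).and (Cr.all fun a => Cr.all fun j => Cr.all fun _ : j ∉ T =>
      Cr.eq ((hM.eval a).eval j) (Pq.const 0))).congr fun x _ => by
        simp only [Oky, Isq, Set.forall_mem_range]

theorem Cr.lvs_SY2B (hM : Pq k p M) (hM' : Pq k p M') (l : ℕ)
    (h : ∀ x, p x → LinearIndependent Ω (M' x)) : Cr k p fun x => lvs (M x) l ≤ lvs (M' x) l :=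
  (Cr.all fun a => Cr.all fun _ : a.val < l => Cr.span hM' (hM.eval a) {a | a.val < l}
    fun x hx => (h x hx).linearIndepOn _).congr fun x _ => span_le.trans Set.image_subset_iff

end

theorem Sem.pq_SY2B (h : Sem k q F) (p : (ZMod s → Fin i → n → Ω) → Prop) (c : ℤ) :
    Pq k p fun X => pext (fry _ F) s X c := Pq.pext (h.fam _).po (h.fam _).po' Pq.id c

theorem Amy.lc_yf (h : Amy k q s F J S) : Lc k (Yfy i F J S w) := by
  refine ((Lr.all fun c : ZMod s => (Lr.li (Pq.apply c)).and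
    (Lr.li (h.sem.pq_SY2B _ (c.val + 1)))).land (Cr.all fun c : ZMod s =>
      (Cr.oky_SY2B h.kr h.kr' (Pq.apply c) (S c.val)).and (Cr.all fun l => Cr.all fun _ : l ≤ i =>
        Cr.all fun _ : l ≠ w c => (Cr.lvs_SY2B (Pq.apply c) (h.sem.pq_SY2B _ (c.val + 1)) l
          fun X hX => (hX c).2).and (Cr.lvs_SY2B (h.sem.pq_SY2B _ (c.val + 1)) (Pq.apply c) l
            fun X hX => (hX c).1))).lr).congr fun X _ => ⟨fun h1 => ?_, fun h1 => ?_⟩
  · have h2 := (h.yf_iff X).1 h1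
    exact ⟨fun c => ⟨(h2 c).1, (h1 _).1⟩, fun c => ⟨(h2 c).2.1, fun l a b =>
      le_antisymm_iff.1 ((h2 c).2.2 l a b)⟩⟩
  · exact (h.yf_iff X).2 fun c => ⟨(h1.1 c).1, (h1.2 c).1, fun l a b =>
      le_antisymm_iff.2 ((h1.2 c).2 l a b)⟩

theorem Amy.lc_yr (h : Amy k q s F J S) {R : ℤ → Prop} (hR : ∀ c, R (c + s) ↔ R c) :
    Lc k (Yry i F J S w R) := by
  refine (h.lc_yf.land (Lr.all fun c => ?_)).congr fun X _ => h.yr_iff hR X
  by_cases hc : R c.val
  · exact (Lr.nspan (h.sem.pq_SY2B _ (c.val - 1)) ((Pq.apply c).eval (Fin.last i))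
      {a | a.val < i + 1} fun X hX => (hX _).1.linearIndepOn _).congr fun X _ =>
        iff_false_right (not_not.2 hc)
  · exact (Cr.span (h.sem.pq_SY2B _ (c.val - 1)) ((Pq.apply c).eval (Fin.last i))
      {a | a.val < i + 1} fun X hX => (hX _).1.linearIndepOn _).lr.congr fun X _ =>
        iff_true_right hc

end Pool.Agent.CXD
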