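import Pool.Agent.P.MP_2ce3e7_ag.SYB
import Pool.Agent.P.MP_2ce3e7_ag.SY2B

/-! Odd quadrics in characteristic two. -/

set_option linter.unusedSectionVars false
set_option linter.unusedVariables false

open Function Matrix Submodule

noncomputable section

namespace Pool.Agent.CXD
variable {k Ω : Type} [Field k] [Field Ω] [Algebra k Ω] {G : Gp Ω} {q s i : ℕ} [Sq k q]
  [IsAlgClosed Ω] [NeZero s] {n : Type} [Fintype n] {w : ZMod s → ℕ}

theorem lvs_map {n' : Type} (π : (n → Ω) →ₗ[Ω] n' → Ω) (x : Fin i → n → Ω) (l : ℕ) :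
    lvs (fun a => π (x a)) l = (lvs x l).map π := by
  rw [lvs, lvs, map_span, Set.image_image]

/-- transport of frames along a projection that is injective on singular vectors -/
theorem Au.yf_lift (h : Au k q G) {n' : Type} [Fintype n'] {F : Equiv.Perm (n → Ω)}
    {F' : Equiv.Perm (n' → Ω)} {P : Mp n Ω} {P' : Mp n' Ω} (π : (n → Ω) →ₗ[Ω] n' → Ω)
    (τ : (n' → Ω) → n → Ω) (p1 : Pq k (fun _ => True) π) (p2 : Pq k (fun _ => True) τ)
    (h1 : ∀ y, π (τ y) = y) (h2 : ∀ v v', Isq P v v' → Isq P' (π v) (π v'))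
    (h3 : ∀ y y', Isq P' y y' → Isq P (τ y) (τ y')) (h4 : ∀ v, Isq P v v → τ (π v) = v)
    (h5 : ∀ v, π (F v) = F' (π v)) (h6 : ∀ y, τ (F' y) = F (τ y))
    (hp : Gy k G (Yfy i F' P' (fun _ => Set.univ) w)) :
    Gy k G (Yfy i F P (fun _ => Set.univ) w) := by
  have e1 (X : ZMod s → Fin i → n → Ω) (c : ℤ) : pext (fry _ F') s (fun c a => π (X c a)) c =
      fun a => π (pext (fry _ F) s X c a) :=
    pext_map (F := fry _ F) (F' := fry _ F') (fun x a => π (x a)) (fun x => funext fun a => h5 _) c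
  have e2 (Y : ZMod s → Fin i → n' → Ω) (c : ℤ) : pext (fry _ F) s (fun c a => τ (Y c a)) c =
      fun a => τ (pext (fry _ F') s Y c a) :=
    pext_map (F := fry _ F') (F' := fry _ F) (fun x a => τ (x a)) (fun x => funext fun a => h6 _) c
  have sing {x : Fin i → n → Ω} (ho : Oky P Set.univ (Set.range x)) {v : n → Ω}
      (hv : v ∈ span Ω (Set.range x)) : τ (π v) = v := h4 v ((oky_span.2 ho).1 v hv v hv)
  have up {x x' : Fin i → n → Ω} (ho : Oky P Set.univ (Set.range x))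
      (ho' : Oky P Set.univ (Set.range x')) {l : ℕ}
      (e : (lvs x l).map π = (lvs x' l).map π) : lvs x l ≤ lvs x' l := fun v hv => by
    obtain ⟨v', a1, a2⟩ := mem_map.1 (e ▸ mem_map_of_mem (f := π) hv)
    rwa [← sing ho (span_mono (Set.image_subset_range _ _) hv), ← a2,
      sing ho' (span_mono (Set.image_subset_range _ _) a1)]
  have ok {y : Fin i → n' → Ω} (ho : Oky P' Set.univ (Set.range y)) :
      Oky P Set.univ (Set.range fun a => τ (y a)) := ⟨by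
    rintro _ ⟨a, rfl⟩ _ ⟨a', rfl⟩
    exact h3 _ _ (ho.1 _ ⟨a, rfl⟩ _ ⟨a', rfl⟩), fun _ _ _ hj => absurd trivial hj⟩
  refine h.giso (fun (Y : ZMod s → Fin i → n' → Ω) c a => τ (Y c a)) (fun X c a => π (X c a))
    (Pq.pi fun c => Pq.pi fun a => p2.comp ((Pq.id.eval c).eval a))
    (Pq.pi fun c => Pq.pi fun a => p1.comp ((Pq.id.eval c).eval a)) (fun Y hY c => ?_)
    (fun X hX c => ?_) (fun Y _ => by simp only [h1]) (fun X hX => funext fun c => funext fun a => ?_)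
    hp
  · rw [e2, e2]
    refine ⟨LinearIndependent.of_comp π (by simpa only [comp_def, h1] using (hY c).1),
      ok (hY c).2.1, fun l a1 a2 => ?_⟩
    have e := (hY c).2.2 l a1 a2
    refine le_antisymm (up (ok (hY c).2.1) (ok (hY _).2.1) ?_) (up (ok (hY _).2.1) (ok (hY c).2.1) ?_)
    · simpa only [← lvs_map, h1] using e
    · simpa only [← lvs_map, h1] using e.symm
  · rw [e1, e1]
    refine ⟨(hX c).1.map (disjoint_def.2 fun v a1 a2 => ?_), ⟨?_, fun _ _ _ hj => absurd trivial hj⟩,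
      fun l a1 a2 => by rw [lvs_map, lvs_map, (hX c).2.2 l a1 a2]⟩
    · rw [← sing (hX c).2.1 a1, LinearMap.mem_ker.1 a2, ← π.map_zero,
        sing (hX c).2.1 (zero_mem _)]
    · rintro _ ⟨a, rfl⟩ _ ⟨a', rfl⟩
      exact h2 _ _ ((hX c).2.1.1 _ ⟨a, rfl⟩ _ ⟨a', rfl⟩)
  · exact sing (hX c.val).2.1 (subset_span ⟨a, congrFun (pext_val_SY2B _ X c) a⟩)

variable [DecidableEq n]

theorem Au.yf_odd (h : Au k q G) (h2 : (2 : Ω) = 0) (hq : Even q) {K : Matrix n n Ω}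
    (hK : fm q K = K) (j₀ : n) {r : n → Ω} (r1 : r j₀ = 1) (r2 : ∀ j, r j ^ q = r j)
    (r3 : (K + Kᵀ) *ᵥ r = 0) (r4 : r ⬝ᵥ K *ᵥ r ≠ 0)
    (hp : Gy k G (Yfy i (fry {j // j ≠ j₀} (frq q))
      ((K + Kᵀ).submatrix Subtype.val Subtype.val, 0) (fun _ => Set.univ) w)) :
    Gy k G (Yfy i (fry n (frq q)) (0, K) (fun _ => Set.univ) w) := by
  have hs : Su k q := Sq.su
  obtain ⟨d, hd⟩ := hq
  have hA : Amy k q s (fry n (frq q)) (0, K) fun _ => Set.univ :=
    amy_fr 1 s (by ext; simp [fm, hs.pos.ne']) hK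
  have k1 : Kr k K := hA.kr'
  have k2 : Kr k r := kr_pi fun j => (hs.kr_iff _).2 (by rw [sq, pow_mul, r2, r2])
  have k3 (j : n) : Kr k (r j) := Kr.eval k2 j
  let π : (n → Ω) →ₗ[Ω] {j // j ≠ j₀} → Ω :=
    ⟨⟨fun v j => v j - v j₀ * r j, fun v v' => funext fun j => by simp only [Pi.add_apply]; ring⟩,
      fun t v => funext fun j => by simp only [Pi.smul_apply, smul_eq_mul, RingHom.id_apply]; ring⟩
  let ρ : Ω → Ω := fun t => (frq q).symm t ^ d
  have hρ (t : Ω) : ρ t ^ 2 = t := by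
    rw [sq, ← pow_add, ← hd, ← fr_apply k, Equiv.apply_symm_apply]
  have b1 := bil_add K r3
  have b2 := quad_add K r3
  have b3 (v : n → Ω) : exz j₀ (π v) + v j₀ • r = v := exz_add r1 v
  let τ : ({j // j ≠ j₀} → Ω) → n → Ω := fun y =>
    exz j₀ y + ρ (exz j₀ y ⬝ᵥ K *ᵥ exz j₀ y * (r ⬝ᵥ K *ᵥ r)⁻¹) • r
  have a1 (y) : π (τ y) = y := funext fun j => by
    change exz j₀ y j + _ * r j - (exz j₀ y j₀ + _ * r j₀) * r j = _
    rw [exz, exz, dif_neg j.2, dif_pos rfl, r1, zero_add, mul_one, add_sub_cancel_right]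
  have a3 (y) : τ y ⬝ᵥ K *ᵥ τ y = 0 := by
    rw [b2, hρ, inv_mul_cancel_right₀ r4, ← two_mul, h2, zero_mul]
  have a4 (v) (hv : Isq (0, K) v v) : τ (π v) = v := by
    have e := (isq_r.1 hv).2
    rw [← b3 v, b2] at e
    refine Eq.trans (congrArg (exz j₀ (π v) + · • r) ?_) (b3 v)
    have e1 := hρ (exz j₀ (π v) ⬝ᵥ K *ᵥ exz j₀ (π v) * (r ⬝ᵥ K *ᵥ r)⁻¹)
    generalize ρ _ = t at e1 ⊢
    rw [eq_mul_inv_iff_mul_eq₀ r4] at e1
    refine sub_eq_zero.1 (pow_eq_zero_iff two_ne_zero |>.1 (mul_right_cancel₀ r4 ?_))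
    linear_combination e1 + e - (t * v j₀ * r ⬝ᵥ K *ᵥ r) * h2
  have a5 (v) : π (fry n (frq q) v) = fry _ (frq q) (π v) := funext fun j => by
    change frq q (v j) - frq q (v j₀) * r j = frq q (v j - v j₀ * r j)
    rw [fr_apply k, fr_apply k, fr_apply k, hs.sub_pow, mul_pow, r2]
  have px : Pq k (fun _ => True) (exz (A := Ω) j₀) :=
    Pq.pi fun j => Pq.dite _ (fun _ => Pq.const 0) fun e => Pq.apply _
  refine h.yf_lift π τ (Pq.pi fun j => (Pq.apply _).sub ((Pq.apply _).mul (Pq.const _)))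
    (px.vadd (((po_fr_symm.comp ((px.dot ((Pq.const K).mulVec px)).mul (((Pq.const r).dot
      ((Pq.const K).mulVec (Pq.const r))).inv fun _ _ => r4))).pow d).vsmul (Pq.const r))) a1
    (fun v v' hv => isq_l.2 ?_) (fun y y' hy => isq_r.2 ⟨?_, a3 y⟩) a4 a5 (fun y => ?_) hp
  · rw [← exz_dot, ← b1 _ _ (v j₀) (v' j₀), b3, b3]
    exact (isq_r.1 hv).1
  · rw [b1, exz_dot]
    exact isq_l.1 hy
  · rw [← a4 (fry n (frq q) (τ y)) ((hA.iso _ _).2 (isq_r.2 ⟨by
      rw [dot_addT, a3, add_zero], a3 y⟩)), a5, a1]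

end Pool.Agent.CXD
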