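import Pool.Agent.P.MP_2ce3e7_ag.SYC
import Pool.Agent.P.MP_2ce3e7_ag.SYF
import Pool.Agent.P.MP_2ce3e7_ag.TY1
import Pool.Agent.P.MP_2ce3e7_ag.TY2

/-! Frames of chains of isotropic flags. -/

set_option linter.unusedSectionVars false
set_option linter.unusedVariables false

open Function Matrix Submodule

noncomputable section

namespace Pool.Agent.CXD
variable {k Ω : Type} [Field k] [Field Ω] [Algebra k Ω] {q : ℕ} [Sq k q] [IsAlgClosed Ω] {G : Gp Ω}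

theorem Amy.frs_iff {n : Type} [Fintype n] {J : Mp n Ω} {m s : ℕ} [NeZero s]
    (h : Amy k q s (fry n (frq q)) J fun _ => Set.univ) (w : ZMod s → ℕ)
    (X : ZMod s → Fin m → n → Ω) :
    Frs q J m s w X ↔ Yfy m (fry n (frq q)) J (fun _ => Set.univ) w X := by
  rw [h.yf_iff]
  refine ⟨fun hX c => ⟨hX.1 c, ⟨?_, fun _ _ _ hj => absurd trivial hj⟩, hX.2.2 c⟩,
    fun hX => ⟨fun c => (hX c).1, fun c a a' => (hX c).2.1.1 _ ⟨a, rfl⟩ _ ⟨a', rfl⟩,
      fun c => (hX c).2.2⟩⟩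
  rintro _ ⟨a, rfl⟩ _ ⟨a', rfl⟩
  exact hX.2.1 c a a'

theorem Su.two_ne (hq : Su k q) (h : Odd q) : (2 : Ω) ≠ 0 := by
  intro h2
  have := hq.finite
  have := Fintype.ofFinite k
  obtain ⟨j, hj⟩ := h.pow (n := 2)
  have e := congrArg (algebraMap k Ω) (FiniteField.cast_card_eq_zero k)
  rw [← Nat.card_eq_fintype_card, hq.card, hj, map_natCast, map_zero] at e
  push_cast at e
  rw [h2, zero_mul, zero_add] at e
  exact one_ne_zero e

theorem exists_sg_SS4 (hq : Su k q) (ε : ℤˣ) : ∃ t : Ω, t ≠ 0 ∧ t ^ q = sg ε * t := by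
  obtain ⟨t, ht⟩ := IsAlgClosed.exists_pow_nat_eq (sg ε : Ω) (Nat.sub_pos_of_lt hq.lt)
  refine ⟨t, fun e => sg_ne (Ω := Ω) ε ?_, by rw [← ht, ← pow_succ, Nat.sub_add_cancel hq.pos]⟩
  rw [← ht, e, zero_pow (Nat.sub_pos_of_lt hq.lt).ne']

variable {n : Type} [Fintype n] [DecidableEq n] {m s : ℕ} [NeZero s] {w : ZMod s → ℕ}

theorem frs_congr {P P' : Mp n Ω} (h : ∀ x : Fin m → n → Ω,
    (∀ a a', Isq P (x a) (x a')) ↔ ∀ a a', Isq P' (x a) (x a')) (X : ZMod s → Fin m → n → Ω) :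
    Frs q P m s w X ↔ Frs q P' m s w X :=
  and_congr_right' (and_congr_left' (forall_congr' fun c => h (X c)))

theorem Az.yf_odd (h : Az k q G) (h2 : (2 : Ω) ≠ 0) (ε : ℤˣ) {J : Matrix n n Ω} (h3 : J.det ≠ 0)
    (h4 : Jᵀ = (sg ε : Ω) • J) (h5 : fm q J = (sg ε : Ω) • J) :
    Gy k G (Frs q (J, 0) m s w) := by
  have hA : Amy k q s (fry n (frq q)) (J, 0) fun _ => Set.univ := amy_fr ε s h5 (fm_zero_SYE k)
  refine Gy.congr ?_ (hA.frs_iff w)
  cases m with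
  | zero => exact h.yf_zero
  | succ i =>
    exact hA.step h (fun ν hν u _ hu D R e hi he => h.bar_all h2 ε h3 h4 h5 hu hi he) (Az.yf i)

theorem Az.yf_two (h : Az k q G) (h2 : (2 : Ω) = 0) (ε : ℤˣ) {J K : Matrix n n Ω} {P : Mp n Ω}
    (hA : Amy k q s (fry n (frq q)) P fun _ => Set.univ) (h3 : J.det ≠ 0)
    (ha : ∀ x, x ⬝ᵥ J *ᵥ x = 0) (h0 : ε ≠ 1 → K = 0) (h1 : ε = 1 → J = K + Kᵀ)
    (h5 : fm q J = J) (h6 : fm q K = K)
    (hP : ∀ v v', Isq P v v' ↔ v ⬝ᵥ J *ᵥ v' = 0 ∧ v ⬝ᵥ K *ᵥ v = 0) :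
    Gy k G (Yfy m (fry n (frq q)) P (fun _ => Set.univ) w) := by
  cases m with
  | zero => exact h.yf_zero
  | succ i =>
    exact hA.step h (fun ν hν u _ hu D R e hi he => h.bar_two h2 ε h3 ha h0 h1 h5 h6 hP hu hi he)
      (Az.yf i)

theorem Az.yf_sp (h : Az k q G) (h2 : (2 : Ω) = 0) {J : Matrix n n Ω} (h3 : J.det ≠ 0)
    (ha : ∀ x, x ⬝ᵥ J *ᵥ x = 0) (h5 : fm q J = J) :
    Gy k G (Yfy m (fry n (frq q)) (J, 0) (fun _ => Set.univ) w) :=
  h.yf_two h2 (-1) (amy_fr 1 s (by rw [h5, sg_one, one_smul]) (fm_zero_SYE k)) h3 ha (fun _ => rfl)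
    (fun e => absurd e (by decide)) h5 (fm_zero_SYE k) fun v v' => by simp [Isq]

theorem fm_map_SY {M : Matrix n n k} (h : M.map (· ^ q) = M) :
    fm q (M.map (algebraMap k Ω)) = M.map (algebraMap k Ω) := Matrix.ext fun i j =>
  (map_pow (algebraMap k Ω) _ _).symm.trans (congrArg (algebraMap k Ω) (congrFun (congrFun h i) j))

theorem det_map_SY {M : Matrix n n k} (h : M.det ≠ 0) : (M.map (algebraMap k Ω)).det ≠ 0 := by
  rw [← RingHom.mapMatrix_apply, ← RingHom.map_det]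
  exact (map_ne_zero _).2 h

theorem Az.frm (h : Az k q G) {J K : Matrix n n k} (hJ : J.map (· ^ q) = J)
    (hK : K.map (· ^ q) = K) (hc : K = 0 ∧ (J = 0 ∨ J.det ≠ 0 ∧ ∀ x, x ⬝ᵥ J *ᵥ x = 0) ∨
      J = 0 ∧ ∀ x, (K + Kᵀ) *ᵥ x = 0 → x ⬝ᵥ K *ᵥ x = 0 → x = 0) :
    Gy k G (Frs q (J.map (algebraMap k Ω), K.map (algebraMap k Ω)) m s w) := by
  have hq : Su k q := Sq.su
  have z : (0 : Matrix n n k).map (algebraMap k Ω) = 0 := Matrix.map_zero _ (map_zero _)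
  have f1 := fm_map_SY (Ω := Ω) hJ
  have f2 := fm_map_SY (Ω := Ω) hK
  refine Gy.congr ?_ fun X => ((amy_fr (k := k) 1 s (by rw [f1, sg_one, one_smul]) f2).frs_iff w X)
  rcases hc with ⟨rfl, rfl | ⟨h3, ha⟩⟩ | ⟨rfl, hs⟩ <;> rw [z] at *
  · exact Az.yf m n _ _ G (amy_fr 1 s (by rw [f1, smul_zero]) f1) h
  · have h4 := det_map_SY (Ω := Ω) h3
    have h5 : ∀ x, x ⬝ᵥ J.map (algebraMap k Ω) *ᵥ x = 0 := alt_iff.2
      ⟨by rw [← transpose_map, alt_skew ha, Matrix.map_neg _ (map_neg _)],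
        fun i => by rw [map_apply, alt_diag ha, map_zero]⟩
    by_cases h2 : (2 : Ω) = 0
    · exact h.yf_sp h2 h4 h5 f1
    obtain ⟨t, ht, ht'⟩ := exists_sg_SS4 (Ω := Ω) hq (-1)
    refine ((h.yf_odd h2 (-1) (J := t • J.map (algebraMap k Ω)) ?_ ?_ ?_).congr
      (frs_congr fun x => ?_)).congr fun X =>
        ((amy_fr (k := k) 1 s (by rw [f1, sg_one, one_smul]) f2).frs_iff w X).symm
    · rw [det_smul]
      exact mul_ne_zero (pow_ne_zero _ ht) h4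
    · rw [transpose_smul, alt_skew h5, sg_neg, sg_one, neg_one_smul, smul_neg]
    · rw [hq.fm_smul, ht', mul_smul, f1]
    · simp only [isq_l, smul_mulVec, dotProduct_smul, smul_eq_zero, ht, false_or]
  have e : (K + Kᵀ).map (algebraMap k Ω) = K.map (algebraMap k Ω) + (K.map (algebraMap k Ω))ᵀ :=
    Matrix.map_add _ (map_add _) _ _
  have f3 : fm q (K.map (algebraMap k Ω) + (K.map (algebraMap k Ω))ᵀ) =
      K.map (algebraMap k Ω) + (K.map (algebraMap k Ω))ᵀ := by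
    rw [hq.fm_add, fm_transpose, f2]
  have a1 (h2 : (2 : Ω) = 0) (x : n → Ω) :
      x ⬝ᵥ (K.map (algebraMap k Ω) + (K.map (algebraMap k Ω))ᵀ) *ᵥ x = 0 := by
    rw [dot_addT, ← two_mul, h2, zero_mul]
  by_cases h0 : (K + Kᵀ).det = 0
  · obtain ⟨h2, j₀, r, r1, r2, r3, r4, r5⟩ := have := hq.finite; exists_rad hs h0
    have h2' : (2 : Ω) = 0 := by rw [← map_ofNat (algebraMap k Ω), h2, map_zero]
    have r6 : (fun j => r j ^ q) - r = 0 := r4 _ (by
      have e1 := hq.fm_mulVec (K + Kᵀ) r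
      rw [hq.fm_add, fm_transpose, show fm q K = K from hK, r2] at e1
      rw [mulVec_sub, e1, r2]
      exact funext fun j => by simp [hq.pos.ne']) (by simp [r1])
    have m1 (M : Matrix n n k) : M.map (algebraMap k Ω) *ᵥ (algebraMap k Ω ∘ r) =
        algebraMap k Ω ∘ (M *ᵥ r) := funext fun j => (RingHom.map_mulVec _ M r j).symm
    refine h.toAu.yf_odd h2' (Nat.not_odd_iff_even.1 fun ho => hq.two_ne ho h2') f2 j₀
      (r := algebraMap k Ω ∘ r) (by rw [Function.comp_apply, r1, map_one]) (fun j => ?_) ?_ ?_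
      (h.yf_sp h2' ?_ (fun x => by rw [← exz_dot, a1 h2']) ?_)
    · exact (map_pow _ _ _).symm.trans (congrArg _ (sub_eq_zero.1 (congrFun r6 j)))
    · rw [← e, m1, r2]
      exact funext fun j => map_zero _
    · rw [m1, ← RingHom.map_dotProduct]
      exact (map_ne_zero _).2 r3
    · rw [← e]
      exact det_map_SY r5
    · exact congrArg (fun M => M.submatrix Subtype.val Subtype.val) f3
  have h4 := e ▸ det_map_SY (Ω := Ω) h0
  by_cases h2 : (2 : Ω) = 0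
  · exact h.yf_two h2 1 (amy_fr 1 s (by rw [f1, smul_zero]) f2) h4 (a1 h2) (fun e => absurd rfl e)
      (fun _ => rfl) f3 f2 fun v v' => isq_r
  refine ((h.yf_odd h2 1 h4 (by rw [transpose_add, transpose_transpose, add_comm, sg_one, one_smul])
    (by rw [f3, sg_one, one_smul])).congr (frs_congr fun x => ?_)).congr fun X =>
      ((amy_fr (k := k) 1 s (by rw [f1, smul_zero]) f2).frs_iff w X).symm
  simp only [isq_l, isq_r]
  refine ⟨fun H a a' => (H a a').1, fun H a a' => ⟨H a a', ?_⟩⟩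
  have e1 := H a a
  rw [dot_addT, ← two_mul] at e1
  exact (mul_eq_zero.1 e1).resolve_left h2

end Pool.Agent.CXD
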