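import Pool.Agent.P.MP_2ce3e7_ag.SS3
import Pool.Agent.P.MP_2ce3e7_ag.SY
import Pool.Agent.P.MP_2ce3e7_ag.DB2

/-! The geometric theorem for the classical groups. -/

set_option linter.unusedSectionVars false
set_option linter.unusedVariables false

open Function Matrix

noncomputable section

namespace Pool.Agent.CXD

variable {k Ω : Type} [Field k] [Field Ω] [Algebra k Ω] {N d m q : ℕ} {n : Fin N → ℕ}
  {δ : Ix N d m → ℕ} {U : Set (Fin N)} {J K : ∀ b, Matrix (Fin (n b)) (Fin (n b)) k}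
  {E : Ix N d m → Set (Fin m)} {G : Gp Ω} [Sq k q] [IsAlgClosed Ω]

/-- completion of frames to bases -/
theorem Au.gcomplete (h : Au k q G) {T : Type} [Fintype T] {l r : ℕ} (hr : r ≤ l)
    {p : (T → Fin r → Fin l → Ω) → Prop} (hp : Gy k G p) :
    Gy k G fun y : T → Matrix (Fin l) (Fin l) Ω × Ω =>
      (∀ c, (y c).1.det * (y c).2 = 1) ∧ p fun c => fcl hr (y c).1 := by
  let M : T → (T → Fin r → Fin l → Ω) × (T → {a : Fin l // ¬(a : ℕ) < r} → Fin l → Ω) →
      Matrix (Fin l) (Fin l) Ω := fun c z =>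
    Matrix.of fun x a => if e : (a : ℕ) < r then z.1 c ⟨a, e⟩ x else z.2 c ⟨a, e⟩ x
  have hM : ∀ c p', Pq k p' (M c) := fun c p' => Pm.po (by fun_prop)
  have e1 : ∀ z c, fcl hr (M c z) = z.1 c := fun z c => funext fun a => funext fun x =>
    dif_pos a.2
  have e2 : ∀ (y : T → Matrix (Fin l) (Fin l) Ω × Ω) c,
      M c (fun c => fcl hr (y c).1, fun c a => (y c).1.col a.1) = (y c).1 := fun y c => by
    ext x a
    by_cases e : (a : ℕ) < r
    · exact dif_pos e
    · exact dif_neg e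
  refine h.giso (fun z c => (M c z, (M c z).det⁻¹))
    (fun y => (fun c => fcl hr (y c).1, fun c a => (y c).1.col a.1))
    (Pq.pi fun c => (hM c _).mk ((hM c _).det.inv fun z hz => hz.2 c))
    (Pm.po (by unfold fcl; fun_prop)) (fun z hz => ⟨fun c => mul_inv_cancel₀ (hz.2 c), ?_⟩)
    (fun y hy => ⟨hy.2, fun c => (e2 y c).symm ▸ left_ne_zero_of_mul_eq_one (hy.1 c)⟩)
    (fun z _ => Prod.ext (funext (e1 z))
      (funext fun c => funext fun a => funext fun x => dif_neg a.2))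
    (fun y hy => funext fun c => Prod.ext (e2 y c)
      ((congrArg (fun g => g.det⁻¹) (e2 y c)).trans (inv_eq_of_mul_eq_one_right (hy.1 c))))
    (h.gopns (g := fun c z => (M c z).det) (fun c => (hM c _).det) (h.gline _ hp))
  rw [show (fun c => fcl hr (M c z)) = z.1 from funext (e1 z)]
  exact hz.1

theorem Az.fsv (h : Az k q G) (hc : Cla q δ U J K E)
    (b : Fin N) : G.good (Fsv q δ U (fun b => (J b).map (algebraMap k Ω))
      (fun b => (K b).map (algebraMap k Ω)) E b) := by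
  have hq : Su k q := Sq.su
  by_cases hb : b ∈ U
  · exact G.congr (h.toAy.es hq d _ (lw_pcol b) (mono_pcol b) _ (lw_prow b)) (fsv_uni hb)
  obtain ⟨r, hm, h1, h2, h3⟩ := hc.cls b hb
  choose w h2 using h2
  have hr : r ≤ n b := by
    obtain _ | r := r
    · exact Nat.zero_le _
    · exact ((h1 0 ⟨r, hm⟩).trans (min_self _)).ge.trans (hc.le (b, 0, ⟨r, hm⟩))
  exact (h.toAu.gd_iff (cz_fsv b)).1 (Gy.congr (h.toAu.gcomplete hr
    (h.frm (m := r) (s := d + 1) (w := w) h3.1 h3.2.1 h3.2.2)) (fsv_frs k hb hr hm h1 h2))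

theorem Aq.cns {R : Gq Ω} (h : Aq k G R) (ha : Au k q G)
    (h0 : G.good fun _ : Fin 0 → Ω => True)
    (h1 : G.good fun y : (Ω × Ω) × Ω => y.1.1 ^ q + y.1.1 + y.1.2 ^ (q + 1) = 0 ∧
      (y.1.1 + y.1.1 ^ q ^ 3 + y.1.2 ^ (1 + q ^ 3)) * y.2 = 1) (hc : Cla q δ U J K E) :
    R.rel (fun z => z ∈ cns q δ U (fun b => (J b).map (algebraMap k Ω))
      (fun b => (K b).map (algebraMap k Ω)) E) fun z => ∀ I, z I = 0 :=
  h.cnz ha.toAx (Su.cw_cfs Sq.su) hc.mono hc.le (G.congr (ha.toAx.of_star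
    ((ha.az_star (ha.toAx.cone_all Sq.su h0 (ha.toAx.curve Sq.su h0 h1))).pi N _ cz_fsv
      fun b G' h' => h'.fsv hc b)) (cfs_iff hc.mono hc.le))

end Pool.Agent.CXD
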