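import Pool.Agent.P.MP_2ce3e7_ag.DV7
import Pool.Agent.P.MP_2ce3e7_ag.SAG
import Pool.Agent.P.MP_2ce3e7_ag.SS4

/-! The theorems. -/

set_option linter.unusedSectionVars false
set_option linter.unusedVariables false

open Function
open scoped TensorProduct

noncomputable section

namespace Pool.Agent.CXD

open Matrix in
theorem Cla.down {k₀ k : Type} [Field k₀] [Field k] [Algebra k₀ k] {q N d m : ℕ} {n : Fin N → ℕ}
    {δ : Ix N d m → ℕ} {U : Set (Fin N)} {J K : ∀ b, Matrix (Fin (n b)) (Fin (n b)) k}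
    {E : Ix N d m → Set (Fin m)} (h : Cla q δ U J K E) (hq : Su k₀ q) :
    ∃ J₀ K₀ : ∀ b, Matrix (Fin (n b)) (Fin (n b)) k₀, Cla q δ U J₀ K₀ E ∧
      ∀ b ∉ U, (J₀ b).map (algebraMap k₀ k) = J b ∧ (K₀ b).map (algebraMap k₀ k) = K b := by
  have h0 : ∀ {l : ℕ} {M : Matrix (Fin l) (Fin l) k}, M.map (· ^ q) = M →
      ∃ B : Matrix (Fin l) (Fin l) k₀, B.map (algebraMap k₀ k) = M := fun {l M} h3 => by
    have h2 : ∀ i j, ∃ a : k₀, M i j = algebraMap k₀ k a := fun i j => by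
      have h4 : M i j ^ q = M i j := congrFun (congrFun h3 i) j
      exact kr_self.1 ((hq.kr_iff _).2 (by rw [sq, pow_mul, h4, h4]))
    choose B hB using h2
    exact ⟨Matrix.of B, Matrix.ext fun i j => (hB i j).symm⟩
  have h1 : ∀ b, ∃ B C : Matrix (Fin (n b)) (Fin (n b)) k₀,
      b ∉ U → B.map (algebraMap k₀ k) = J b ∧ C.map (algebraMap k₀ k) = K b := fun b => by
    by_cases hb : b ∈ U
    · exact ⟨0, 0, fun h => (h hb).elim⟩
    obtain ⟨r, -, -, -, h3, h4, -⟩ := h.cls b hb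
    obtain ⟨B, hB⟩ := h0 h3
    obtain ⟨C, hC⟩ := h0 h4
    exact ⟨B, C, fun _ => ⟨hB, hC⟩⟩
  choose J₀ K₀ hJ using h1
  refine ⟨J₀, K₀, ⟨h.mono, h.le, fun b hb => ?_⟩, hJ⟩
  obtain ⟨r, h1, h2, h3, h4, h5, h6⟩ := h.cls b hb
  have hφ := (algebraMap k₀ k).injective
  have hi := Matrix.map_injective (m := Fin (n b)) (n := Fin (n b)) hφ
  have z : ∀ {M : Matrix (Fin (n b)) (Fin (n b)) k₀}, M.map (algebraMap k₀ k) = 0 → M = 0 :=
    fun e => hi (e.trans (Matrix.map_zero _ (map_zero _)).symm)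
  have p : ∀ {M : Matrix (Fin (n b)) (Fin (n b)) k₀},
      (M.map (algebraMap k₀ k)).map (· ^ q) = M.map (algebraMap k₀ k) → M.map (· ^ q) = M :=
    fun e => hi (Matrix.ext fun i j =>
      (map_pow (algebraMap k₀ k) _ q).trans (congrFun (congrFun e i) j))
  have v (M : Matrix (Fin (n b)) (Fin (n b)) k₀) (x : Fin (n b) → k₀) :
      M.map (algebraMap k₀ k) *ᵥ (algebraMap k₀ k ∘ x) = algebraMap k₀ k ∘ (M *ᵥ x) :=
    funext fun j => (RingHom.map_mulVec _ M x j).symm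
  rw [← (hJ b hb).1] at h4 h6
  rw [← (hJ b hb).2] at h5 h6
  refine ⟨r, h1, h2, h3, p h4, p h5, h6.imp (And.imp z (Or.imp z (And.imp (fun c e => c ?_)
    fun c x => hφ ?_))) (And.imp z fun c x e e' => funext fun j => hφ ?_)⟩
  · rw [RingHom.map_dotProduct, ← v, c, map_zero]
  · refine (congrFun (c (algebraMap k₀ k ∘ x) ?_ ?_) j).trans (map_zero _).symm
    · rw [← transpose_map, ← Matrix.map_add _ (map_add _), v, e]
      exact funext fun j => map_zero _
    · rw [v, ← RingHom.map_dotProduct, e', map_zero]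
  · rw [← RingHom.mapMatrix_apply, ← RingHom.map_det, e, map_zero]

theorem cns_congr {Ω : Type} [Field Ω] {q N d m : ℕ} {n : Fin N → ℕ} {δ : Ix N d m → ℕ}
    {U : Set (Fin N)} {J J' K K' : ∀ b, Matrix (Fin (n b)) (Fin (n b)) Ω}
    {E : Ix N d m → Set (Fin m)} (h : ∀ b ∉ U, J b = J' b ∧ K b = K' b) :
    cns q δ U J K E = cns q δ U J' K' E :=
  Set.ext fun _ => exists₂_congr fun _ _ => and_congr_left fun _ =>
    ⟨fun c => ⟨c.flag, c.step, c.uni, c.frob, fun b hb => (h b hb).1 ▸ c.iso b hb,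
      fun b hb => (h b hb).2 ▸ c.sing b hb⟩,
      fun c => ⟨c.flag, c.step, c.uni, c.frob, fun b hb => (h b hb).1.symm ▸ c.iso b hb,
        fun b hb => (h b hb).2.symm ▸ c.sing b hb⟩⟩

variable (k : Type) [Field k] [Fintype k] (q r N d m : ℕ) (n : Fin N → ℕ)
  (hk : Fintype.card k = q ^ (2 * r)) (δ : Ix N d m → ℕ) (U : Set (Fin N))
  (J K : ∀ b, Matrix (Fin (n b)) (Fin (n b)) k) (E : Ix N d m → Set (Fin m)) (h : Cla q δ U J K E)
include hk h

theorem exists_tg_s : ∃ θ, Std (k := k) (hom (sI q δ U J K E)) (crd (sI q δ U J K E)) θ ∧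
    ∀ (A : Type) [CommRing A] [Algebra k A] [IsNoetherianRing A],
      TG k A (hom (sI q δ U J K E)) (crd (sI q δ U J K E)) 0 0 := by
  obtain ⟨k₀, _, _, hq⟩ := exists_su k hk
  have : Sq k₀ q := ⟨hq⟩
  obtain ⟨J₀, K₀, h₀, hJ⟩ := h.down hq
  obtain ⟨θ, hθ⟩ := exists_std (k := k)
    (V := cns q δ U (fun b => (J b).map (algebraMap k (AlgebraicClosure k)))
      (fun b => (K b).map (algebraMap k (AlgebraicClosure k))) E)
    fun z hz t => cns_smul hz t
  have e : cns q δ U (fun b => (J₀ b).map (algebraMap k₀ (AlgebraicClosure k)))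
      (fun b => (K₀ b).map (algebraMap k₀ (AlgebraicClosure k))) E =
      cns q δ U (fun b => (J b).map (algebraMap k (AlgebraicClosure k)))
      (fun b => (K b).map (algebraMap k (AlgebraicClosure k))) E :=
    cns_congr fun b hb => by
      rw [← (hJ b hb).1, ← (hJ b hb).2, Matrix.map_map, Matrix.map_map,
        IsScalarTower.algebraMap_eq k₀ k (AlgebraicClosure k)]
      exact ⟨rfl, rfl⟩
  exact ⟨θ, hθ, fun A _ _ _ => hθ.toCo.td hθ.deg (tq_of_gq (e ▸ hq.cz_cns.up k)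
    (e ▸ (gq_aq.down k₀).cns (gs_aw' hq (sch_of_card hk)) gs_pt (gs_curve' hk) h₀)) 0 0⟩

end Pool.Agent.CXD
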