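import Pool.Agent.P.MP_2ce3e7_ag.EH1
import Pool.Agent.P.MP_2ce3e7_ag.EI3
import Pool.Agent.P.MP_2ce3e7_ag.SV0

/-! The theorem for the classical groups. -/

set_option linter.unusedSectionVars false
set_option linter.unusedVariables false

open Function Filter
open scoped TensorProduct Polynomial

noncomputable section

namespace Pool.Agent.CXD

theorem tate_s (k : Type) [Field k] [Fintype k] (q r N d m : ℕ) (n : Fin N → ℕ)
    (hk : Fintype.card k = q ^ (2 * r)) (δ : Ix N d m → ℕ) (U : Set (Fin N))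
    (J K : ∀ b, Matrix (Fin (n b)) (Fin (n b)) k) (E : Ix N d m → Set (Fin m))
    (h : Cla q δ U J K E) (j : ℕ) :
    Tate k (hom (sI q δ U J K E)) (crd (sI q δ U J K E)) j := by
  obtain ⟨θ, hθ, hT⟩ := exists_tg_s k q r N d m n hk δ U J K E h
  have := noeth_tensor' k (MvPolynomial _ k ⧸ sI q δ U J K E) (MvPolynomial _ k ⧸ sI q δ U J K E)
  have hq := sch_of_card hk
  exact hθ.tate hT (hq.smooth_s (h.bfo hq)) j

end Pool.Agent.CXD
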