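import Pool.Agent.P.MP_2ce3e7_ag.EG2

/-! Singular subspaces of a pair of forms over a ring. -/

set_option linter.unusedSectionVars false
set_option linter.unusedVariables false

open Function Matrix

noncomputable section

namespace Pool.Agent.CXD

variable {S S' : Type} [CommRing S] [CommRing S'] {l a b : ℕ} {B K : Matrix (Fin l) (Fin l) S}

/-- isotropic for `B`, and the columns are singular for `K` -/
def Io {l a : ℕ} (B K : Matrix (Fin l) (Fin l) S) (V : Matrix (Fin l) (Fin a) S) : Prop :=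
  Vᵀ * B * V = 0 ∧ (Vᵀ * K * V).diag = 0

/-- the pair is zero, or symplectic, or a regular or semi-regular quadratic form -/
def Bfq {l : ℕ} (B K : Matrix (Fin l) (Fin l) S) : Prop :=
  (B = 0 ∧ K = 0) ∨ ∃ (B' : Matrix (Fin l) (Fin l) S) (ρ μ : Fin l → S) (c : S),
    B' * B + vecMulVec ρ μ = 1 ∧ B *ᵥ ρ = 0 ∧ (c * (ρ ⬝ᵥ K *ᵥ ρ)) • μ = μ ∧
      (B = K + Kᵀ ∨ K = 0 ∧ Bᵀ = -B ∧ B.diag = 0)

theorem Bfq.cp (h : Bfq B K) : B = K + Kᵀ ∨ K = 0 := by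
  rcases h with h | ⟨_, _, _, _, -, -, -, h | h⟩
  exacts [Or.inr h.2, Or.inl h, Or.inr h.1]

theorem iso_map_EQ1 (M : Matrix (Fin l) (Fin a) S) (C : Matrix (Fin l) (Fin l) S)
    (φ : S →+* S') : (M.map φ)ᵀ * C.map φ * M.map φ = (Mᵀ * C * M).map φ := by
  rw [Matrix.map_mul, Matrix.map_mul, Matrix.transpose_map]

theorem Io.map {V : Matrix (Fin l) (Fin a) S} (h : Io B K V) (φ : S →+* S') :
    Io (B.map φ) (K.map φ) (V.map φ) := by
  refine ⟨?_, funext fun i => ?_⟩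
  · rw [iso_map_EQ1, h.1, Matrix.map_zero _ (map_zero _)]
  · rw [iso_map_EQ1]
    exact (congrArg φ (congrFun h.2 i)).trans (map_zero φ)

theorem reg_map {B' : Matrix (Fin l) (Fin l) S} {ρ μ : Fin l → S} {c : S}
    (h1 : B' * B + vecMulVec ρ μ = 1) (h2 : B *ᵥ ρ = 0) (h3 : (c * (ρ ⬝ᵥ K *ᵥ ρ)) • μ = μ)
    (φ : S →+* S') : B'.map φ * B.map φ + vecMulVec (φ ∘ ρ) (φ ∘ μ) = 1 ∧ B.map φ *ᵥ φ ∘ ρ = 0 ∧
      (φ c * ((φ ∘ ρ) ⬝ᵥ K.map φ *ᵥ φ ∘ ρ)) • φ ∘ μ = φ ∘ μ := by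
  refine ⟨?_, funext fun i => ?_, funext fun i => ?_⟩
  · rw [← one_map_EG0 φ, ← h1, Matrix.map_add _ (map_add φ), Matrix.map_mul]
    refine congrArg _ (Matrix.ext fun i j => ?_)
    simp only [vecMulVec_apply, Matrix.map_apply, Function.comp_apply, map_mul]
  · rw [← RingHom.map_mulVec, h2]
    exact map_zero φ
  · have e : K.map φ *ᵥ φ ∘ ρ = φ ∘ (K *ᵥ ρ) :=
      funext fun i => (RingHom.map_mulVec φ K ρ i).symm
    rw [e, ← RingHom.map_dotProduct, Pi.smul_apply, Function.comp_apply, smul_eq_mul, ← map_mul,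
      ← map_mul]
    exact congrArg φ (congrFun h3 i)

theorem Bfq.map (h : Bfq B K) (φ : S →+* S') : Bfq (B.map φ) (K.map φ) := by
  rcases h with ⟨rfl, rfl⟩ | ⟨B', ρ, μ, c, h1, h2, h3, h4⟩
  · exact Or.inl ⟨Matrix.map_zero _ (map_zero φ), Matrix.map_zero _ (map_zero φ)⟩
  · obtain ⟨c1, c2, c3⟩ := reg_map h1 h2 h3 φ
    refine Or.inr ⟨_, _, _, _, c1, c2, c3, ?_⟩
    refine h4.imp (fun h => ?_) fun ⟨h, h', h''⟩ => ⟨?_, ?_, funext fun i => ?_⟩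
    · rw [h, Matrix.map_add _ (map_add φ), Matrix.transpose_map]
    · rw [h, Matrix.map_zero _ (map_zero φ)]
    · rw [← Matrix.transpose_map, h', Matrix.map_neg _ (map_neg φ)]
    · exact (congrArg φ (congrFun h'' i)).trans (map_zero φ)

theorem tr_EQ1 (A : Matrix (Fin a) (Fin b) S) (x : Fin b → S) (y : Fin a → S) :
    x ⬝ᵥ Aᵀ *ᵥ y = y ⬝ᵥ A *ᵥ x := by
  rw [mulVec_transpose, dotProduct_mulVec, dotProduct_comm]

theorem qv_EQ1 (V : Matrix (Fin l) (Fin a) S) (V' : Matrix (Fin l) (Fin b) S)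
    (K : Matrix (Fin l) (Fin l) S) (x : Fin a → S) (y : Fin b → S) :
    x ⬝ᵥ (Vᵀ * K * V') *ᵥ y = (V *ᵥ x) ⬝ᵥ K *ᵥ (V' *ᵥ y) := by
  rw [← mulVec_mulVec, ← mulVec_mulVec, tr_EQ1, dotProduct_comm]

/-- the upper triangular half -/
def hf_EQ1 (G M : Matrix (Fin a) (Fin a) S) : Matrix (Fin a) (Fin a) S :=
  Matrix.of fun i j => if i < j then G i j else if i = j then M i i else 0

theorem hf_add {G M : Matrix (Fin a) (Fin a) S} {e : S} (h : e • Gᵀ = G)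
    (h' : ∀ i, G i i = (1 + e) * M i i) : hf_EQ1 G M + e • (hf_EQ1 G M)ᵀ = G := by
  ext i j
  have h1 : e * G j i = G i j := congrFun (congrFun h i) j
  simp only [hf_EQ1, Matrix.add_apply, Matrix.smul_apply, transpose_apply, of_apply, smul_eq_mul]
  rcases lt_trichotomy i j with hij | rfl | hij
  · rw [if_pos hij, if_neg hij.not_gt, if_neg hij.ne', mul_zero, add_zero]
  · rw [if_neg (lt_irrefl _), if_pos rfl, h', add_mul, one_mul]
  · rw [if_neg hij.not_gt, if_neg hij.ne', if_pos hij, zero_add, h1]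

theorem alt_qv {A : Matrix (Fin a) (Fin a) S} (h : A + Aᵀ = 0) (h' : A.diag = 0) (x : Fin a → S) :
    x ⬝ᵥ A *ᵥ x = 0 := by
  have e := hf_add (G := A) (M := 0) (e := -1)
    (by rw [neg_smul, one_smul, neg_eq_iff_add_eq_zero, add_comm, h])
    fun i => (congrFun h' i).trans (mul_zero _).symm
  rw [← e, add_mulVec, dotProduct_add, smul_mulVec, dotProduct_smul, tr_EQ1, neg_smul, one_smul,
    add_neg_cancel]

theorem sym_EQ1 (V : Matrix (Fin l) (Fin a) S) (K : Matrix (Fin l) (Fin l) S) :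
    Vᵀ * K * V + (Vᵀ * K * V)ᵀ = Vᵀ * (K + Kᵀ) * V := by
  rw [transpose_mul, transpose_mul, transpose_transpose, Matrix.mul_add, Matrix.add_mul,
    Matrix.mul_assoc _ Kᵀ]

theorem Io.qv {V : Matrix (Fin l) (Fin a) S} (h : Io B K V) (hc : B = K + Kᵀ ∨ K = 0)
    (x : Fin a → S) : (V *ᵥ x) ⬝ᵥ K *ᵥ (V *ᵥ x) = 0 := by
  rcases hc with rfl | rfl
  · rw [← qv_EQ1]
    exact alt_qv ((sym_EQ1 V K).trans h.1) h.2 x
  · rw [zero_mulVec, dotProduct_zero]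

theorem io_of {V : Matrix (Fin l) (Fin a) S} (h : Vᵀ * B * V = 0)
    (h' : ∀ x, (V *ᵥ x) ⬝ᵥ K *ᵥ (V *ᵥ x) = 0) : Io B K V :=
  ⟨h, funext fun i => by
    have := h' (Pi.single i 1)
    rw [← qv_EQ1, mulVec_single_one, single_one_dotProduct] at this
    exact this⟩

theorem Io.mul {V : Matrix (Fin l) (Fin a) S} (h : Io B K V) (hc : B = K + Kᵀ ∨ K = 0)
    (A : Matrix (Fin a) (Fin b) S) : Io B K (V * A) := by
  refine io_of ?_ fun x => ?_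
  · rw [transpose_mul, Matrix.mul_assoc, Matrix.mul_assoc, ← Matrix.mul_assoc B,
      ← Matrix.mul_assoc Vᵀ, ← Matrix.mul_assoc Vᵀ, h.1, Matrix.zero_mul, Matrix.mul_zero]
  · rw [← mulVec_mulVec]
    exact h.qv hc _

/-- a singular direct summand does not meet the radical -/
theorem Io.inv {V : Matrix (Fin l) (Fin a) S} (h : Io B K V) {B' : Matrix (Fin l) (Fin l) S}
    {ρ μ : Fin l → S} {c : S} (h1 : B' * B + vecMulVec ρ μ = 1) (h2 : B *ᵥ ρ = 0)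
    (h3 : (c * (ρ ⬝ᵥ K *ᵥ ρ)) • μ = μ) (hc : B = K + Kᵀ ∨ K = 0) {R : Matrix (Fin a) (Fin l) S}
    (hR : R * V = 1) : ∃ L : Matrix (Fin a) (Fin l) S, L * (B * V) = 1 := by
  obtain ⟨s, hs⟩ : ∃ s, s = μ ᵥ* V := ⟨_, rfl⟩
  obtain ⟨t, ht⟩ : ∃ t, t = R *ᵥ ρ := ⟨_, rfl⟩
  obtain ⟨Y, hY⟩ : ∃ Y, Y = B * V := ⟨_, rfl⟩
  have e0 : B' * Y + vecMulVec ρ s = V := by
    rw [hY, hs, ← vecMulVec_mul, ← Matrix.mul_assoc, ← Matrix.add_mul, h1, Matrix.one_mul]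
  have e1 : R * B' * Y + vecMulVec t s = 1 := by
    rw [← hR, ← e0, Matrix.mul_add, mul_vecMulVec, ht, Matrix.mul_assoc]
  rw [← hY]
  suffices h : s ∈ LinearMap.range Y.vecMulLinear by
    obtain ⟨p, hp⟩ := h
    refine ⟨R * B' + vecMulVec t p, ?_⟩
    rw [Matrix.add_mul, vecMulVec_mul, ← e1]
    exact congrArg (fun z => R * B' * Y + vecMulVec t z) hp
  have e2 : ∀ z : Fin a → S, z - (z ⬝ᵥ t) • s ∈ LinearMap.range Y.vecMulLinear := fun z =>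
    ⟨z ᵥ* (R * B'), by
      rw [vecMulLinear_apply, vecMul_vecMul, eq_sub_of_add_eq e1, vecMul_sub, vecMul_one,
        vecMul_vecMulVec]⟩
  have e3 : ∀ p : Fin l → S, (p ⬝ᵥ Y *ᵥ t) • s ∈ LinearMap.range Y.vecMulLinear := fun p => by
    have := Submodule.sub_mem _ (LinearMap.mem_range_self Y.vecMulLinear p) (e2 (p ᵥ* Y))
    rwa [vecMulLinear_apply, sub_sub_cancel, ← dotProduct_mulVec] at this
  have e4 : (c * (ρ ⬝ᵥ K *ᵥ ρ)) • s = s := by rw [hs, ← smul_vecMul, h3]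
  rcases hc with hc | rfl
  swap
  · rw [← e4, zero_mulVec, dotProduct_zero, mul_zero, zero_smul]
    exact Submodule.zero_mem _
  have e5 := h.qv (Or.inl hc) t
  have e6 : V *ᵥ t = B' *ᵥ (Y *ᵥ t) + (s ⬝ᵥ t) • ρ := by
    rw [← e0, add_mulVec, vecMulVec_mulVec, mulVec_mulVec, op_smul_eq_smul]
  have e7 : ∀ x, x ⬝ᵥ K *ᵥ ρ + ρ ⬝ᵥ K *ᵥ x = 0 := fun x => by
    rw [← tr_EQ1 K x ρ, ← dotProduct_add, ← add_mulVec, ← hc, h2, dotProduct_zero]
  have e8 := e3 (-(c • ((B' *ᵥ (Y *ᵥ t)) ᵥ* (K * B'))))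
  rw [neg_dotProduct, smul_dotProduct, ← dotProduct_mulVec, ← mulVec_mulVec] at e8
  rw [e6] at e5
  generalize B' *ᵥ (Y *ᵥ t) = x at e5 e8
  simp only [mulVec_add, mulVec_smul, add_dotProduct, dotProduct_add, smul_dotProduct,
    dotProduct_smul, smul_eq_mul] at e5
  have e9 : -(c • (x ⬝ᵥ K *ᵥ x)) = (s ⬝ᵥ t) ^ 2 * (c * (ρ ⬝ᵥ K *ᵥ ρ)) := by
    rw [smul_eq_mul]
    linear_combination (-c) * e5 + c * (s ⬝ᵥ t) * e7 x
  rw [e9, mul_smul, e4] at e8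
  have e10 := Submodule.add_mem _ (Submodule.smul_mem _ (1 + s ⬝ᵥ t) (e2 s)) e8
  have e11 : (1 + s ⬝ᵥ t) • (s - (s ⬝ᵥ t) • s) + (s ⬝ᵥ t) ^ 2 • s = s := by module
  rwa [e11] at e10

end Pool.Agent.CXD
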