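import Pool.Agent.P.MP_2ce3e7_ag.CW0

/-! Cycles modulo numerical equivalence and the zeta function. -/

namespace Pool.Agent.CXD

variable (k : Type) [Field k] {A σ : Type} [CommRing A] [Algebra k A]

/-- The Hilbert polynomial; its degree is the dimension of the support of the sheaf. -/
noncomputable def hpol {𝒜 : ℤ → Set A} (M : GM 𝒜) : Polynomial ℚ :=
  hp fun t => dimK k A (Set.range (M.π t))

/-- The numerical classes of the sheaves whose support has dimension less than `j`. -/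
noncomputable def numF (𝒜 : ℤ → Set A) (z : σ → A) (j : ℕ) :
    Submodule ℚ ({V : FGM 𝒜 // LF z V.1} → ℚ) :=
  Submodule.span ℚ {f | ∃ M : FGM 𝒜, (hpol k M.1).degree < j ∧ f = fun V => pair k M.1 V.1.1}

/-- The dimension of this space. -/
noncomputable def rkF (𝒜 : ℤ → Set A) (z : σ → A) (j : ℕ) : ℕ := Module.finrank ℚ (numF k 𝒜 z j)

/-- The rank of the group of cycles of dimension `j` modulo numerical equivalence. -/
noncomputable def rnk (𝒜 : ℤ → Set A) (z : σ → A) (j : ℕ) : ℚ :=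
  (rkF k 𝒜 z (j + 1) : ℚ) - rkF k 𝒜 z j

/-- The number of points of `Proj A` over the field with `m` elements. -/
noncomputable def npt (z : σ → A) (m : ℕ) : ℚ :=
  (Nat.card {x : A →ₐ[k] AlgebraicClosure k //
    (∀ i, x (z i) ^ m = x (z i)) ∧ ∃ i, x (z i) ≠ 0} : ℚ) / ((m : ℚ) - 1)

/-- `Z' / Z - ρ * Q ^ j / (1 - Q ^ j * t)` is a rational function without pole at `Q ^ (-j)`. -/
def Tate [Fintype k] (𝒜 : ℤ → Set A) (z : σ → A) (j : ℕ) : Prop :=
  Module.Finite ℚ (numF k 𝒜 z (j + 1)) ∧ ∃ a b : Polynomial ℚ,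
    b.eval (((Fintype.card k : ℚ) ^ j)⁻¹) ≠ 0 ∧
      (b : PowerSeries ℚ) * PowerSeries.mk (fun s => npt k z (Fintype.card k ^ (s + 1)) -
        rnk k 𝒜 z j * ((Fintype.card k : ℚ) ^ j) ^ (s + 1)) = a

end Pool.Agent.CXD
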