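import Pool.Agent.P.MP_2ce3e7_ag.PairA

/-! The trace on the square and the pairing. -/

set_option autoImplicit false

noncomputable section

namespace Pool.Agent.Tate

open MvPolynomial

variable {m : ℕ} {k ι κ I : Type} [Field k] [NeZero (m : k)] [Fintype ι] [DecidableEq ι]
  [Fintype κ] [DecidableEq κ] [DecidableEq I]

theorem pair_ne (k : Type) [Field k] [NeZero (m : k)] : m ≠ 0 := by
  rintro rfl
  exact NeZero.ne ((0 : ℕ) : k) Nat.cast_zero

/-- a map that intertwines the twists intertwines the restrictions -/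
theorem pair_dgT_map (F : G m k ι →ₗ[ℂ] G m k κ) {α β : I → ι} {α' β' : I → κ}
    (h : ∀ i x, F (Lm m k (α i) (β i) x) = Lm m k (α' i) (β' i) (F x)) (T : Finset I)
    (x : G m k ι) : F (dgT m k α β T x) = dgT m k α' β' T (F x) := by
  induction T using Finset.induction_on generalizing x with
  | empty => rw [dgT_empty, dgT_empty]; rfl
  | insert i T hi ih =>
    rw [dgT_insert _ _ hi, dgT_insert _ _ hi, Module.End.mul_apply, Module.End.mul_apply, ih,
      LinearMap.sub_apply, LinearMap.sub_apply, Module.End.one_apply, Module.End.one_apply,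
      F.map_sub, h]

theorem pair_dgT_idx {I' : Type} [DecidableEq I'] (e : I ↪ I') (α β : I' → ι) (T : Finset I) :
    dgT m k α β (T.map e) = dgT m k (α ∘ e) (β ∘ e) T := by
  induction T using Finset.induction_on with
  | empty => rw [Finset.map_empty, dgT_empty, dgT_empty]
  | insert i T hi ih =>
    rw [Finset.map_insert, dgT_insert _ _ hi, dgT_insert _ _ (by simpa using hi), ih]
    rfl

theorem pair_dgT_union (α β : I → ι) {T T' : Finset I} (h : Disjoint T T') :
    dgT m k α β (T ∪ T') = dgT m k α β T * dgT m k α β T' := by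
  induction T' using Finset.induction_on with
  | empty => rw [Finset.union_empty, dgT_empty, mul_one]
  | insert i T' hi ih =>
    rw [Finset.disjoint_insert_right] at h
    rw [Finset.union_insert, dgT_insert _ _ hi, dgT_insert _ _ (by simp [h.1, hi]), ih h.2,
      mul_assoc]

theorem pair_dgT_sum {I' : Type} [DecidableEq I'] [Fintype I] [Fintype I'] (α β : I ⊕ I' → ι) :
    dgT m k α β Finset.univ = dgT m k (α ∘ Sum.inl) (β ∘ Sum.inl) Finset.univ *
      dgT m k (α ∘ Sum.inr) (β ∘ Sum.inr) Finset.univ := by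
  have e : (Finset.univ : Finset (I ⊕ I')) =
      Finset.univ.map Function.Embedding.inl ∪ Finset.univ.map Function.Embedding.inr := by
    ext (i | i) <;> simp
  rw [e, pair_dgT_union, pair_dgT_idx, pair_dgT_idx]
  · rfl
  · rw [Finset.disjoint_left]
    rintro (i | i) <;> simp

omit [DecidableEq ι] in
theorem pair_tr_apply (x : G m k (ι ⊕ ι)) :
    tr x = chi (dgT m k Sum.inl Sum.inr Finset.univ x) := rfl

theorem trR_box (y : G m k (ι ⊕ ι)) (u : G m k κ) : trR (boxG y u) = tr y • u := by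
  have h := pair_dgT_map (boxG.flip u) (α := Sum.inl) (β := Sum.inr)
    (α' := Sum.inl ∘ Sum.inl) (β' := Sum.inl ∘ Sum.inr)
    (fun i x => (Lm_box_left _ _ x u).symm) Finset.univ y
  exact (congrArg push h.symm).trans (push_box (pair_ne k) _ _)

theorem tr_reG (e : ι ≃ κ) (x : G m k (ι ⊕ ι)) : tr (reG (e.sumCongr e) x) = tr x := by
  have h := pair_dgT_map (reG (e.sumCongr e)) (α := Sum.inl) (β := Sum.inr)
    (α' := Sum.inl ∘ e.toEmbedding) (β' := Sum.inr ∘ e.toEmbedding)
    (fun i x => reG_Lm _ _ _ x) Finset.univ x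
  rw [pair_tr_apply, pair_tr_apply, ← Finset.map_univ_equiv e, pair_dgT_idx, ← h,
    chi_reG (pair_ne k)]

theorem tr_swap (x : G m k (ι ⊕ ι)) : tr (reG (Equiv.sumComm ι ι) x) = tr x := by
  have h := pair_dgT_map (reG (Equiv.sumComm ι ι)) (α := Sum.inl) (β := Sum.inr)
    (α' := Sum.inl) (β' := Sum.inr)
    (fun i x => by rw [reG_Lm, Lm_symm]; rfl) Finset.univ x
  rw [pair_tr_apply, pair_tr_apply, ← h, chi_reG (pair_ne k)]

theorem tr_mul (x : G m k (ι ⊕ ι)) (y : G m k (κ ⊕ κ)) :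
    tr (reG (Equiv.sumSumSumComm ι ι κ κ) (boxG x y)) = tr x * tr y := by
  have h := pair_dgT_map (reG (Equiv.sumSumSumComm ι ι κ κ)) (I := ι ⊕ κ)
    (α := Sum.map Sum.inl Sum.inl) (β := Sum.map Sum.inr Sum.inr) (α' := Sum.inl) (β' := Sum.inr)
    (fun i x => by rw [reG_Lm]; rcases i with i | i <;> rfl) Finset.univ (boxG x y)
  have h1 := pair_dgT_map (boxG x) (α := Sum.inl) (β := Sum.inr)
    (α' := Sum.map Sum.inl Sum.inl ∘ Sum.inr) (β' := Sum.map Sum.inr Sum.inr ∘ Sum.inr)
    (fun i y => (Lm_box_right _ _ x y).symm) Finset.univ y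
  have h2 := pair_dgT_map (boxG.flip (dgT m k Sum.inl Sum.inr Finset.univ y))
    (α := Sum.inl) (β := Sum.inr)
    (α' := Sum.map Sum.inl Sum.inl ∘ Sum.inl) (β' := Sum.map Sum.inr Sum.inr ∘ Sum.inl)
    (fun i x => (Lm_box_left _ _ x _).symm) Finset.univ x
  rw [LinearMap.flip_apply, LinearMap.flip_apply] at h2
  rw [pair_tr_apply, ← h, chi_reG (pair_ne k), pair_dgT_sum, Module.End.mul_apply, ← h1, ← h2,
    chi_box (pair_ne k)]
  rfl

theorem prg_comm (x y : G m k ι) : prg x y = prg y x := by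
  rw [prg_apply, prg_apply, ← box_comm x y, tr_swap]

theorem prg_reG (e : ι ≃ κ) (x y : G m k ι) : prg (reG e x) (reG e y) = prg x y := by
  rw [prg_apply, prg_apply, ← reG_box, tr_reG]

theorem prg_box (x x' : G m k ι) (y y' : G m k κ) :
    prg (boxG x y) (boxG x' y') = prg x x' * prg y y' := by
  rw [prg_apply, prg_apply, prg_apply, ← box_ssc, tr_mul]

variable [NeZero m] {ζ : Rt m k}

theorem tr_tw (g : ι → Ch m) (x : G m k (ι ⊕ ι)) : tr (tw ζ (Sum.elim g g) x) = tr x := by
  have hv : ∀ e, (twD ζ (up (Sum.elim g g))).val e = e := fun e => funext fun i => by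
    have h := (twD ζ (up (Sum.elim g g))).val_τ e i
    refine h.trans ?_
    change (0 : ℤ) + ((1 : ℕ) : ℤ) * e i = e i
    rw [Nat.cast_one, one_mul, zero_add]
  have h := pair_dgT_map (pullG (twD ζ (up (Sum.elim g g)))) (α := Sum.inl) (β := Sum.inr)
    (α' := Sum.inl) (β' := Sum.inr) (fun i x => by
      have hi := inv_minor (NeZero.ne (m : k)) (Sum.inl_ne_inr (a := i) (b := i))
      refine (Lg_pull (NeZero.ne (m : k)) Function.surjective_id hi hi
        (fun a => c3 ζ (up g) (i, a + 1) * c3 ζ (up g) (i, a + 2))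
        (fun a => mul_ne_zero (c3_ne _ _ _) (c3_ne _ _ _)) (fun a => ?_)
        (fun e => by rw [hv, hv]) x).symm
      have e1 : ∀ j, c3 ζ (up (Sum.elim g g)) (Sum.inl i, j) = c3 ζ (up g) (i, j) := fun _ => rfl
      have e2 : ∀ j, c3 ζ (up (Sum.elim g g)) (Sum.inr i, j) = c3 ζ (up g) (i, j) := fun _ => rfl
      rw [twD_φ, minor, map_sub, map_mul, map_mul, sc_X, sc_X, sc_X, sc_X, e1, e1, e2, e2, map_mul]
      ring) Finset.univ x
  exact (congrArg chi h.symm).trans (chi_pull (pair_ne k) Function.surjective_id rfl _)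

theorem tr_Ga {a b : ι → Ch m} (h : a + b ≠ 0) {x : G m k (ι ⊕ ι)}
    (hx : x ∈ Ga ζ (Sum.elim a b)) : tr x = 0 := by
  have h1 : ∀ g : ι → Ch m, tr x = ch (a + b) g * tr x := fun g => by
    have e : ch (Sum.elim a b) (Sum.elim g g) = ch (a + b) g := by
      rw [ch_add_left, ch, Fintype.prod_sum_type]
      rfl
    have e' := tr_tw (ζ := ζ) g x
    rw [hx (Sum.elim g g), map_smul, e] at e'
    exact e'.symm
  have h2 : ∑ _g : ι → Ch m, tr x = 0 := by
    rw [Finset.sum_congr rfl fun g _ => h1 g, ← Finset.sum_mul, sum_ch, if_neg h, zero_mul]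
  rw [Finset.sum_const, Finset.card_univ, nsmul_eq_mul] at h2
  exact (mul_eq_zero.1 h2).resolve_left (Nat.cast_ne_zero.2 Fintype.card_ne_zero)

theorem prg_Ga {a b : ι → Ch m} (h : a + b ≠ 0) {x y : G m k ι} (hx : x ∈ Ga ζ a)
    (hy : y ∈ Ga ζ b) : prg x y = 0 :=
  tr_Ga h (box_mem_Ga (a := Sum.elim a b) hx hy)

omit [NeZero (m : k)] in
theorem pair_pr_apply (a : ι → Ch m) (x : G m k ι) :
    pr ζ a x = (Fintype.card (ι → Ch m) : ℂ)⁻¹ • ∑ g, ch a g • tw ζ (-g) x := by
  rw [pr, avg_apply, ← Equiv.sum_comp (Equiv.neg (ι → Ch m))]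
  simp only [Equiv.neg_apply, neg_neg]

theorem prg_pr (a b : ι → Ch m) (x y : G m k ι) :
    prg (pr ζ a x) (pr ζ b y) = (Fintype.card (ι → Ch m) : ℂ)⁻¹ * (Fintype.card (ι → Ch m) : ℂ)⁻¹ *
      ∑ g, ∑ g', ch a g * ch b g' * prg (tw ζ (-g) x) (tw ζ (-g') y) := by
  rw [pair_pr_apply, pair_pr_apply, map_smul, map_smul, LinearMap.smul_apply, map_sum prg,
    LinearMap.sum_apply, smul_eq_mul, smul_eq_mul, mul_assoc]
  congr 2
  refine Finset.sum_congr rfl fun g _ => ?_
  rw [map_smul, LinearMap.smul_apply, map_sum, smul_eq_mul, Finset.mul_sum]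
  refine Finset.sum_congr rfl fun g' _ => ?_
  rw [map_smul, smul_eq_mul, mul_assoc]

variable (ζ) in
/-- the isotypic part `a` carries a class that is not numerically trivial -/
def HasPair (a : ι → Ch m) : Prop :=
  ∃ x ∈ (Ga ζ a : Submodule ℂ (G m k ι)), ∃ y ∈ Ga ζ (-a), prg x y ≠ 0

end Pool.Agent.Tate
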