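import Pool.Agent.P.MP_2ce3e7_ag.SpecA
import Pool.Agent.P.MP_2ce3e7_ag.Pair

/-! Specialisation preserves the pairing. -/

set_option autoImplicit false

noncomputable section

namespace Pool.Agent.Tate

open MvPolynomial Pool.Agent.P.MP_3c83d0_ag

variable {m : ℕ} {L Ω ι κ : Type} [Field L] [Field Ω] [Fintype ι] [DecidableEq ι] [Fintype κ]
  {P : Place L Ω}

omit [DecidableEq ι] in
theorem hilb_sp {J : Ideal (S L ι)} {n : ι → ℤ} {M : GM m L ι} {x : M.M} {M' : GM m Ω ι}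
    {x' : M'.M} (h : IsCyc J n M x) (h' : IsCyc (spI P J) n M' x') (d : ι → ℤ) :
    hilb M' d = hilb M d := by
  have h1 := h.hilb_eq d
  have h2 := h'.hilb_eq d
  have h3 := finrank_spI (P := P) h.grI (d + n)
  have h4 := finrank_hg L Ω (d + n)
  omega

omit [DecidableEq ι] in
theorem Spec_eq_of_hilb {J J' : Ideal (S Ω ι)} {n : ι → ℤ} {M M' : GM m Ω ι} {x : M.M}
    {x' : M'.M} (h : IsCyc J n M x) (h' : IsCyc J' n M' x') (hl : J ≤ J')
    (hh : ∀ d, hilb M' d = hilb M d) : J' = J := by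
  refine le_antisymm (GrW.le_of_hom h'.grI fun f d hf hJ => ?_) hl
  have h1 := h.hilb_eq (d - n)
  have h2 := h'.hilb_eq (d - n)
  have h3 := hh (d - n)
  rw [sub_add_cancel] at h1 h2
  have := finite_hg (k := Ω) d
  have hfin : FiniteDimensional Ω
      ↥(weightedHomogeneousSubmodule Ω (wt (ι := ι)) d ⊓ J'.restrictScalars Ω) :=
    Submodule.finiteDimensional_of_le inf_le_left
  have e := Submodule.eq_of_le_of_finrank_eq
    (S₁ := weightedHomogeneousSubmodule Ω (wt (ι := ι)) d ⊓ J.restrictScalars Ω)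
    (S₂ := weightedHomogeneousSubmodule Ω (wt (ι := ι)) d ⊓ J'.restrictScalars Ω)
    (inf_le_inf_left _ fun _ hy => hl hy) (by omega)
  exact (e.ge ⟨hf, hJ⟩).2

omit [Fintype ι] [DecidableEq ι] [Fintype κ] in
theorem Spec_map_le (f : ι → κ) {J : Ideal (S L ι)} {K : Ideal (S L κ)} (h : J.map (rn f) ≤ K) :
    (spI P J).map (rn f) ≤ spI P K := by
  rw [Ideal.map_le_iff_le_comap]
  refine Ideal.span_le.2 ?_
  rintro G ⟨F, hF, hG⟩
  exact Ideal.subset_span ⟨rn f F, h (Ideal.mem_map_of_mem _ hF), TP_rename _ hG⟩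

omit [DecidableEq ι] in
theorem spI_box {J : Ideal (S L ι)} {J' : Ideal (S L κ)} (hJ : GrI J) (hF : Fer m L ι ≤ J)
    (hJ' : GrI J') (hF' : Fer m L κ ≤ J') :
    spI P (J.map (rn Sum.inl) ⊔ J'.map (rn Sum.inr) : Ideal (S L (ι ⊕ κ))) =
      (spI P J).map (rn Sum.inl) ⊔ (spI P J').map (rn Sum.inr) := by
  obtain ⟨M, x, hM⟩ := exists_cyc hJ hF 0
  obtain ⟨N, y, hN⟩ := exists_cyc hJ' hF' 0
  obtain ⟨M', x', hM'⟩ := exists_cyc (GrW.spI (P := P) hJ) (Fer_le_spI hF) 0
  obtain ⟨N', y', hN'⟩ := exists_cyc (GrW.spI (P := P) hJ') (Fer_le_spI hF') 0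
  obtain ⟨B, j, hB⟩ := exists_isBox M N
  obtain ⟨B', j', hB'⟩ := exists_isBox M' N'
  have hc := hB.cyc hM hN
  have hc' := hB'.cyc hM' hN'
  obtain ⟨Q, z, hQ⟩ := exists_cyc (GrW.spI (P := P) hc.grI) (Fer_le_spI hc.Fer_le) (Sum.elim 0 0)
  refine Spec_eq_of_hilb hc' hQ
    (sup_le (Spec_map_le _ le_sup_left) (Spec_map_le _ le_sup_right)) fun d => ?_
  rw [hilb_sp hc hQ, hB.hilb_eq, hB'.hilb_eq, hilb_sp hM hM', hilb_sp hN hN']

section Aux
variable {k A : Type} [Field k]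

/-- vectors of homogeneous polynomials -/
def Spec_HA (k A : Type) [Field k] {ι : Type} (e : ι → ℤ) : Submodule k (A → S k ι) :=
  Submodule.pi Set.univ fun _ => weightedHomogeneousSubmodule k (wt (ι := ι)) e

/-- vectors of homogeneous polynomials, as a product -/
def Spec_HAe (k A : Type) [Field k] {ι : Type} (e : ι → ℤ) :
    Spec_HA k A e ≃ₗ[k] (A → weightedHomogeneousSubmodule k (wt (ι := ι)) e) where
  toFun ξ a := ⟨ξ.1 a, ξ.2 a trivial⟩
  invFun ξ := ⟨fun a => ξ a, fun a _ => (ξ a).2⟩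
  map_add' _ _ := rfl
  map_smul' _ _ := rfl
  left_inv _ := rfl
  right_inv _ := rfl

/-- multiples of a vector -/
def Spec_ph (A : Type) {M : GM m k ι} (x : M.M) : (A → S k ι) →ₗ[S k ι] (A → M.M) :=
  (LinearMap.toSpanSingleton (S k ι) M.M x).compLeft A

omit [Fintype ι] [DecidableEq ι] in
theorem Spec_ph_apply {M : GM m k ι} (x : M.M) (ξ : A → S k ι) (a : A) :
    Spec_ph A x ξ a = ξ a • x := rfl

omit [Fintype ι] [DecidableEq ι] in
theorem Spec_ph_π {J : Ideal (S k ι)} {M : GM m k ι} {x : M.M} (h : IsCyc J 0 M x)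
    (ξ : A → S k ι) (e : ι → ℤ) :
    (fun a => M.π e (Spec_ph A x ξ a)) = Spec_ph A x fun a => cmp e (ξ a) := by
  funext a
  have := M.π_smul_hom h.deg (ξ a) e
  rwa [neg_zero, add_zero] at this

omit [Fintype ι] [DecidableEq ι] in
theorem Spec_ph_surj {J : Ideal (S k ι)} {M : GM m k ι} {x : M.M} (h : IsCyc J 0 M x) :
    Function.Surjective (Spec_ph A x) := fun ξ => by
  choose f hf using fun a => h.gen (ξ a)
  exact ⟨f, funext fun a => (hf a).symm⟩

omit [DecidableEq ι] in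
theorem Spec_hilb [Fintype A] {J : Ideal (S k ι)} {M T : GM m k ι} {x : M.M}
    (h : IsCyc J 0 M x) {p : (A → M.M) →ₗ[S k ι] T.M} (hs : Function.Surjective p) {δ : ι → ℤ}
    (hπ : ∀ d ξ, T.π d (p ξ) = p fun a => M.π (d - δ) (ξ a)) {W : Submodule k (A → S k ι)}
    (hW : ∀ ξ, ξ ∈ W ↔ p (Spec_ph A x ξ) = 0) (d : ι → ℤ) :
    FiniteDimensional k ↥(Spec_HA k A (d - δ) ⊓ W) ∧
    hilb T d + Module.finrank k ↥(Spec_HA k A (d - δ) ⊓ W) = Fintype.card A *
      Module.finrank k (weightedHomogeneousSubmodule k (wt (ι := ι)) (d - δ)) := by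
  have := finite_hg (k := k) (d - δ)
  have hfin : FiniteDimensional k (Spec_HA k A (d - δ)) :=
    Module.Finite.equiv (Spec_HAe k A (d - δ)).symm
  refine ⟨Submodule.finiteDimensional_of_le inf_le_left, ?_⟩
  set θ : (A → S k ι) →ₗ[k] T.M := (p ∘ₗ Spec_ph A x).restrictScalars k with hθ
  have h1 := (θ.domRestrict (Spec_HA k A (d - δ))).finrank_range_add_finrank_ker
  have h2 : LinearMap.range (θ.domRestrict (Spec_HA k A (d - δ))) = LinearMap.range (T.π d) := by
    refine le_antisymm ?_ ?_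
    · rintro _ ⟨⟨ξ, hξ⟩, rfl⟩
      refine ⟨p (Spec_ph A x ξ), ?_⟩
      rw [hπ, Spec_ph_π h]
      change p (Spec_ph A x _) = p (Spec_ph A x ξ)
      congr 2
      funext a
      exact IsWeightedHomogeneous.weightedHomogeneousComponent_same (hξ a trivial)
    · rintro _ ⟨y, rfl⟩
      obtain ⟨η, rfl⟩ := hs y
      obtain ⟨ξ, rfl⟩ := Spec_ph_surj h η
      rw [hπ, Spec_ph_π h]
      exact ⟨⟨fun a => cmp (d - δ) (ξ a), fun a _ =>
        weightedHomogeneousComponent_isWeightedHomogeneous _ _⟩, rfl⟩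
  have h3 : LinearMap.ker (θ.domRestrict (Spec_HA k A (d - δ))) =
      (Spec_HA k A (d - δ) ⊓ W).comap (Spec_HA k A (d - δ)).subtype := by
    ext ξ
    rw [LinearMap.mem_ker, Submodule.mem_comap, Submodule.mem_inf, hW]
    exact ⟨fun h => ⟨ξ.2, h⟩, fun h => h.2⟩
  rw [h2, h3, (Submodule.comapSubtypeEquivOfLe inf_le_left).finrank_eq,
    (Spec_HAe k A (d - δ)).finrank_eq, Module.finrank_pi_fintype, Finset.sum_const,
    Finset.card_univ, smul_eq_mul] at h1
  exact h1

omit [Fintype ι] [DecidableEq ι] in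
theorem Spec_TP_uniq {F : S L ι} {G G' : S Ω ι} (h : P.TP F G) (h' : P.TP F G') : G = G' :=
  MvPolynomial.ext _ _ fun s => (TP_iff.1 h s).uniq (TP_iff.1 h' s)

omit [Fintype ι] [DecidableEq ι] in
theorem Spec_smul_mem (W : Submodule (S L ι) (A → S L ι)) (f : S Ω ι) {G : A → S Ω ι}
    (hG : G ∈ spM P (W.restrictScalars L)) : f • G ∈ spM P (W.restrictScalars L) := by
  induction f using MvPolynomial.induction_on generalizing G with
  | C c =>
    have : (C c : S Ω ι) • G = c • G := funext fun a => by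
      simp only [Pi.smul_apply, smul_eq_mul, C_mul']
    rw [this]
    exact Submodule.smul_mem _ c hG
  | add f f' h h' => rw [add_smul]; exact add_mem (h hG) (h' hG)
  | mul_X f v h =>
    rw [mul_smul]
    refine h ?_
    induction hG using Submodule.span_induction with
    | mem G hG =>
      obtain ⟨F, hF, hFG⟩ := hG
      refine Submodule.subset_span ⟨(X v : S L ι) • F, W.smul_mem _ hF, fun a => ?_⟩
      have := TP_int (P := P) (X v : S ℤ ι)
      rw [map_X, map_X] at this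
      exact TP_mul this (hFG a)
    | zero => rw [smul_zero]; exact zero_mem _
    | add G G' _ _ h h' => rw [smul_add]; exact add_mem h h'
    | smul c G _ h => rw [smul_comm]; exact Submodule.smul_mem _ c h

variable (P) in
/-- the reduction of a module of vectors of polynomials -/
def Spec_spS (W : Submodule (S L ι) (A → S L ι)) : Submodule (S Ω ι) (A → S Ω ι) where
  carrier := spM P (W.restrictScalars L)
  zero_mem' := zero_mem _
  add_mem' := add_mem
  smul_mem' f _ h := Spec_smul_mem W f h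

omit [Fintype ι] [DecidableEq ι] in
theorem Spec_cmp_mem {W : Submodule L (A → S L ι)} {e : ι → ℤ}
    (hW : ∀ F ∈ W, (fun a => cmp e (F a)) ∈ W) {G : A → S Ω ι} (hG : G ∈ spM P W) :
    (fun a => cmp e (G a)) ∈ spM P (Spec_HA L A e ⊓ W) := by
  change (cmp e).compLeft A G ∈ _
  induction hG using Submodule.span_induction with
  | mem G hG =>
    obtain ⟨F, hF, hFG⟩ := hG
    exact Submodule.subset_span ⟨fun a => cmp e (F a), ⟨fun a _ =>
      weightedHomogeneousComponent_isWeightedHomogeneous _ _, hW F hF⟩,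
      fun a => TP_cmp _ _ (hFG a)⟩
  | zero => rw [map_zero]; exact zero_mem _
  | add G G' _ _ h h' => rw [map_add]; exact add_mem h h'
  | smul c G _ h => rw [map_smul]; exact Submodule.smul_mem _ c h

omit [Fintype ι] [DecidableEq ι] in
theorem Spec_spM_mono {W W' : Submodule L (A → S L ι)} (h : W ≤ W') : spM P W ≤ spM P W' :=
  Submodule.span_mono fun _ ⟨F, hF, hG⟩ => ⟨F, h hF, hG⟩

omit [Fintype ι] [DecidableEq ι] in
theorem Spec_spM_inf {W : Submodule L (A → S L ι)} {e : ι → ℤ}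
    (hW : ∀ F ∈ W, (fun a => cmp e (F a)) ∈ W) :
    spM P (Spec_HA L A e ⊓ W) = Spec_HA Ω A e ⊓ spM P W := by
  refine le_antisymm (le_inf (Submodule.span_le.2 ?_) (Spec_spM_mono inf_le_right)) ?_
  · rintro G ⟨F, hF, hG⟩ a -
    have h1 := TP_cmp wt e (hG a)
    rw [IsWeightedHomogeneous.weightedHomogeneousComponent_same (hF.1 a trivial)] at h1
    rw [Spec_TP_uniq (hG a) h1]
    exact weightedHomogeneousComponent_isWeightedHomogeneous _ _
  · rintro G ⟨h1, h2⟩
    have := Spec_cmp_mem hW h2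
    rwa [show (fun a => cmp e (G a)) = G from funext fun a =>
      IsWeightedHomogeneous.weightedHomogeneousComponent_same (h1 a trivial)] at this

omit [Fintype ι] [DecidableEq ι] in
theorem Spec_mem_of_spI [Fintype A] [DecidableEq A] {J : Ideal (S L ι)}
    {W : Submodule L (A → S L ι)} (hW : ∀ a, ∀ F ∈ J, Pi.single a F ∈ W) {G : A → S Ω ι}
    (hG : ∀ a, G a ∈ spI P J) : G ∈ spM P W := by
  rw [← Finset.univ_sum_single G]
  refine sum_mem fun a _ => ?_
  have h := mem_spI.1 (hG a)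
  generalize G a = y at h
  change LinearMap.single Ω (fun _ : A => S Ω ι) a y ∈ _
  induction h using Submodule.span_induction with
  | mem y hy =>
    obtain ⟨F, hF, hy⟩ := hy
    refine Submodule.subset_span ⟨Pi.single a F, hW a F hF, fun b => ?_⟩
    rcases eq_or_ne b a with rfl | hb
    · simpa using hy
    · simpa [Pi.single_eq_of_ne hb] using TP_int (P := P) (0 : S ℤ ι)
  | zero => rw [map_zero]; exact zero_mem _
  | add G G' _ _ h h' => rw [map_add]; exact add_mem h h'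
  | smul c G _ h => rw [map_smul]; exact Submodule.smul_mem _ c h

omit [Fintype ι] [DecidableEq ι] in
theorem Spec_prp_map {u g : A → S ℤ ι} (h : Prp m u g) (k : Type) [Field k] :
    Prp m (fun a => map (Int.castRingHom k) (u a)) fun a => map (Int.castRingHom k) (g a) :=
  fun a b => by simpa only [map_sub, map_mul] using map_mem_Fer (Int.castRingHom k) (h a b)

omit [Fintype ι] [DecidableEq ι] in
theorem Spec_ph_single [DecidableEq A] {M : GM m k ι} (x : M.M) (u : A → S ℤ ι) (a b : A) :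
    Spec_ph A x (fun c => map (Int.castRingHom k)
      ((Pi.single a (u b) - Pi.single b (u a) : A → S ℤ ι) c)) =
      Pi.single a (map (Int.castRingHom k) (u b) • x) -
        Pi.single b (map (Int.castRingHom k) (u a) • x) := by
  funext c
  simp only [Spec_ph_apply, Pi.sub_apply, map_sub, sub_smul, Pi.single_apply]
  split_ifs <;> simp

end Aux

theorem coef_Lg_sp {A : Type} [Fintype A] [DecidableEq A] (hL : (m : L) ≠ 0) (hΩ : (m : Ω) ≠ 0)
    {g : A → S ℤ ι} {δ : ι → ℤ} (hg : IntInv m g δ) {J : Ideal (S L ι)} (hJ : GrI J)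
    (hF : Fer m L ι ≤ J) :
    coef (Lg m (fun a => map (Int.castRingHom Ω) (g a)) δ (cy m (spI P J) 0)) =
      coef (Lg m (fun a => map (Int.castRingHom L) (g a)) δ (cy m J 0)) := by
  have hm : m ≠ 0 := by rintro rfl; exact hL Nat.cast_zero
  obtain ⟨M, x, hM⟩ := exists_cyc hJ hF 0
  obtain ⟨M', x', hM'⟩ := exists_cyc (GrW.spI (P := P) hJ) (Fer_le_spI hF) 0
  obtain ⟨T, p, hT, -, hU⟩ := exists_isL hL (hg.inv L hL) M
  set W : Submodule (S L ι) (A → S L ι) := LinearMap.ker (p ∘ₗ Spec_ph A x) with hWdef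
  have hW : ∀ ξ, ξ ∈ W.restrictScalars L ↔ p (Spec_ph A x ξ) = 0 := fun _ => Iff.rfl
  have hWc : ∀ e, ∀ F ∈ W.restrictScalars L, (fun a => cmp e (F a)) ∈ W.restrictScalars L := by
    intro e F hF
    have := hT.π (e + δ) (Spec_ph A x F)
    rw [(hW F).1 hF, map_zero, add_sub_cancel_right, Spec_ph_π hM] at this
    exact (hW _).2 this.symm
  have hgr : Gr ((M'.sh (-δ)).pw A) ((Spec_spS P W).map (Spec_ph A x')) := by
    rintro d _ ⟨G, hG, rfl⟩
    exact ⟨fun a => cmp (d + -δ) (G a), Spec_spM_mono inf_le_right (Spec_cmp_mem (hWc _) hG),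
      (Spec_ph_π hM' G _).symm⟩
  set T' := ((M'.sh (-δ)).pw A).quo _ hgr with hT'def
  set p' : (A → M'.M) →ₗ[S Ω ι] T'.M := ((Spec_spS P W).map (Spec_ph A x')).mkQ with hp'
  have hp0 : ∀ ξ, p' ξ = 0 ↔ ξ ∈ (Spec_spS P W).map (Spec_ph A x') := fun ξ =>
    Submodule.Quotient.mk_eq_zero _
  have hW' : ∀ ξ, ξ ∈ spM P (W.restrictScalars L) ↔ p' (Spec_ph A x' ξ) = 0 := by
    intro ξ
    rw [hp0]
    refine ⟨fun h => ⟨ξ, h, rfl⟩, ?_⟩
    rintro ⟨G, hG, e⟩
    have h1 : ξ - G ∈ spM P (W.restrictScalars L) := by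
      refine Spec_mem_of_spI (J := J) (fun a F hF => (hW _).2 ?_) fun a => (hM'.ann _).1 ?_
      · have : Spec_ph A x (Pi.single a F) = 0 := funext fun b => by
          rw [Spec_ph_apply, Pi.single_apply]
          split_ifs
          · exact (hM.ann _).2 hF
          · exact zero_smul _ _
        rw [this, map_zero]
      · rw [← Spec_ph_apply, map_sub, e, sub_self]; rfl
    simpa using add_mem h1 hG
  have hT' : IsL (fun a => map (Int.castRingHom Ω) (g a)) δ M' T' p' := by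
    refine ⟨Submodule.mkQ_surjective _, fun d ξ => ?_, _, hg.suff Ω hΩ, ?_⟩
    · rw [sub_eq_add_neg]; rfl
    rintro _ ⟨u, hu, rfl⟩
    obtain ⟨h1, h2⟩ := hU _ (Spec_prp_map hu L)
    refine ⟨Spec_prp_map hu Ω, fun ξ hξ => ?_, fun a b y => ?_⟩
    · obtain ⟨G, hG, rfl⟩ := (hp0 ξ).1 hξ
      change G ∈ spM P (W.restrictScalars L) at hG
      clear hξ
      have : ∑ a, map (Int.castRingHom Ω) (u a) * G a ∈ spI P J := by
        induction hG using Submodule.span_induction with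
        | mem G hG =>
          obtain ⟨F, hF, hFG⟩ := hG
          refine Ideal.subset_span ⟨∑ a, map (Int.castRingHom L) (u a) * F a, (hM.ann _).1 ?_,
            TP_sum _ fun a _ => TP_mul (TP_int _) (hFG a)⟩
          simpa only [Finset.sum_smul, mul_smul, Spec_ph_apply] using h1 _ ((hW F).1 hF)
        | zero => simp
        | add G G' _ _ h h' =>
          simpa only [Pi.add_apply, mul_add, Finset.sum_add_distrib] using add_mem h h'
        | smul c G _ h =>
          simpa only [Pi.smul_apply, mul_smul_comm, ← Finset.smul_sum] using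
            (spI P J).smul_of_tower_mem c h
      simpa only [Finset.sum_smul, mul_smul, Spec_ph_apply] using (hM'.ann _).2 this
    · obtain ⟨f, rfl⟩ := hM'.gen y
      have h3 : p' (Spec_ph A x' fun c => map (Int.castRingHom Ω)
          ((Pi.single a (u b) - Pi.single b (u a) : A → S ℤ ι) c)) = 0 := by
        refine (hW' _).1 (Submodule.subset_span ⟨_, (hW _).2 ?_, fun c => TP_int _⟩)
        rw [Spec_ph_single, map_sub, h2, sub_self]
      rw [Spec_ph_single, map_sub, sub_eq_zero] at h3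
      have h4 : ∀ (c : A) (r : S Ω ι), p' (Pi.single c (r • f • x')) =
          f • p' (Pi.single c (r • x')) := fun c r => by
        rw [smul_comm r f, Pi.single_smul, map_smul]
      rw [h4, h4]
      exact congrArg (f • ·) h3
  have hh : ∀ d, hilb T' d = hilb T d := by
    intro d
    obtain ⟨h0, h1⟩ := Spec_hilb hM hT.surj hT.π hW d
    obtain ⟨-, h2⟩ := Spec_hilb hM' hT'.surj hT'.π hW' d
    have h3 := (finrank_spM (P := P) (Spec_HA L A (d - δ) ⊓ W.restrictScalars L)).2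
    rw [Spec_spM_inf (hWc _)] at h3
    rw [finrank_hg L Ω, ← h1] at h2
    exact Nat.add_right_cancel (h2.trans (congrArg _ h3.symm))
  rw [← hM.cls_eq, ← hM'.cls_eq, hT.Lg_cls hL (hg.inv L hL), hT'.Lg_cls hΩ (hg.inv Ω hΩ)]
  refine (aff_coef hm T').uniq ?_
  simpa only [hh] using aff_coef hm T

theorem prg_sp [NeZero (m : L)] [NeZero (m : Ω)] {J J' : Ideal (S L ι)} (hJ : GrI J)
    (hF : Fer m L ι ≤ J) (hJ' : GrI J') (hF' : Fer m L ι ≤ J') :
    prg (cy m (spI P J) 0) (cy m (spI P J') 0) = prg (cy m J 0) (cy m J' 0) := by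
  have hne : ∀ i : ι, (Sum.inl i : ι ⊕ ι) ≠ Sum.inr i := fun _ => Sum.inl_ne_inr
  have hg : GrI (J.map (rn Sum.inl) ⊔ J'.map (rn Sum.inr) : Ideal (S L (ι ⊕ ι))) :=
    GrW.sup (hJ.map_rn Sum.inl_injective) (hJ'.map_rn Sum.inr_injective)
  have hf : Fer m L (ι ⊕ ι) ≤ J.map (rn Sum.inl) ⊔ J'.map (rn Sum.inr) :=
    Fer_sum.ge.trans (sup_le_sup (Ideal.map_mono hF) (Ideal.map_mono hF'))
  have e0 : (Sum.elim 0 0 : ι ⊕ ι → ℤ) = 0 := funext fun i => by cases i <;> rfl
  rw [prg_apply, prg_apply, boxG_cy hJ hF hJ' hF', boxG_cy (GrW.spI hJ) (Fer_le_spI hF)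
    (GrW.spI hJ') (Fer_le_spI hF'), ← spI_box hJ hF hJ' hF', e0]
  simp only [tr, LinearMap.comp_apply, dgT_eq_sum hne, LinearMap.sum_apply, map_sum,
    LinearMap.smul_apply, map_smul, chi_apply]
  refine Finset.sum_congr rfl fun T _ => ?_
  have := coef_Lg_sp (P := P) (NeZero.ne (m : L)) (NeZero.ne (m : Ω)) (intInv_gT hne T) hg hf
  simp only [map_gT] at this
  exact congrArg (fun c : Finset (ι ⊕ ι) → ℂ => (-1 : ℂ) ^ T.card • c ∅) this

theorem spec_main [NeZero m] [NeZero (m : L)] [NeZero (m : Ω)] [CharZero L] [IsAlgClosed Ω]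
    (w : Rt m L) (ζ : Rt m Ω) {J J' : Ideal (S L ι)} (hJ : GrI J) (hF : Fer m L ι ≤ J)
    (hJ' : GrI J') (hF' : Fer m L ι ≤ J') : ∃ J₁ J₁' : Ideal (S Ω ι), GrI J₁ ∧ Fer m Ω ι ≤ J₁ ∧
      GrI J₁' ∧ Fer m Ω ι ≤ J₁' ∧ ∀ a b, prg (pr ζ a (cy m J₁ 0)) (pr ζ b (cy m J₁' 0)) =
        prg (pr w a (cy m J 0)) (pr w b (cy m J' 0)) := by
  obtain ⟨P, hP⟩ := exists_place_rt w ζ
  refine ⟨spI P J, spI P J', GrW.spI hJ, Fer_le_spI hF, GrW.spI hJ', Fer_le_spI hF',
    fun a b => ?_⟩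
  have hsc : ∀ (g : ι → Fin 3 → ZMod m) {K : Ideal (S L ι)}, Fer m L ι ≤ K →
      Fer m L ι ≤ K.map (sc (c3 w g)) := fun g K hK => Ideal.span_le.2 (by
    rintro _ ⟨i, rfl⟩
    rw [← sc_fer (c3_pow w g) i]
    exact Ideal.mem_map_of_mem _ (hK (fer_mem i)))
  rw [prg_pr, prg_pr]
  congr 1
  refine Finset.sum_congr rfl fun g _ => Finset.sum_congr rfl fun g' _ => ?_
  rw [tw_neg_cy ζ g (GrW.spI hJ) (Fer_le_spI hF), tw_neg_cy ζ g' (GrW.spI hJ') (Fer_le_spI hF'),
    tw_neg_cy w g hJ hF, tw_neg_cy w g' hJ' hF',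
    ← spI_sc (c := c3 w (up g)) (c' := c3 ζ (up g)) (fun v => hP.pow _) (c3_ne ζ _),
    ← spI_sc (c := c3 w (up g')) (c' := c3 ζ (up g')) (fun v => hP.pow _) (c3_ne ζ _),
    prg_sp (hJ.map_sc _) (hsc _ hF) (hJ'.map_sc _) (hsc _ hF')]

end Pool.Agent.Tate
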