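import Pool.Agent.P.MP_2ce3e7_ag.St2a

/-! Structure of the isotypic parts. -/

set_option autoImplicit false

noncomputable section

namespace Pool.Agent.Tate

open MvPolynomial

section Aux
variable {m : ℕ} [NeZero m] {k : Type} [Field k] [NeZero (m : k)] {ζ : Rt m k}
  {κ : Type} [Fintype κ] [DecidableEq κ]

/-- contraction with a class on the curve -/
def St2_con (w : G m k Unit) : G m k (Unit ⊕ κ) →ₗ[ℂ] G m k κ :=
  trR ∘ₗ reG (Equiv.sumAssoc Unit Unit κ).symm ∘ₗ boxG w

omit [NeZero m] in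
theorem St2_con_box (w y : G m k Unit) (u : G m k κ) :
    St2_con w (boxG y u) = prg w y • u := by
  simp only [St2_con, LinearMap.comp_apply]
  rw [← box_assoc, reG_symm, trR_box, prg_apply]

/-- the two embeddings -/
def St2_emb (O : G m k Unit) : (G m k κ × G m k κ) →ₗ[ℂ] G m k (Unit ⊕ κ) :=
  (boxG O).coprod (boxG (hc m k))

omit [NeZero m] [NeZero (m : k)] [DecidableEq κ] in
theorem St2_emb_apply (O : G m k Unit) (u v : G m k κ) :
    St2_emb O (u, v) = boxG O u + boxG (hc m k) v := rfl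

include ζ in
theorem St2_prg_O (c : ℂ) : prg (Oc m k - c • hc m k) (hc m k) = m := by
  rw [map_sub, map_smul, LinearMap.sub_apply, LinearMap.smul_apply, prg_Oc_hc ζ, prg_hc_hc,
    smul_zero, sub_zero]

theorem St2_inj {O : G m k Unit} (hO : prg O (hc m k) = m) :
    Function.Injective (St2_emb O : (G m k κ × G m k κ) →ₗ[ℂ] G m k (Unit ⊕ κ)) := by
  have hm : (m : ℂ) ≠ 0 := Nat.cast_ne_zero.2 (NeZero.ne m)
  rw [injective_iff_map_eq_zero]
  rintro ⟨u, v⟩ h
  rw [St2_emb_apply] at h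
  have h1 := congrArg (St2_con (hc m k)) h
  rw [map_add, St2_con_box, St2_con_box, prg_hc_hc, prg_comm, hO, zero_smul, add_zero,
    map_zero] at h1
  have hu : u = 0 := (smul_eq_zero.1 h1).resolve_left hm
  subst hu
  have h2 := congrArg (St2_con O) h
  rw [map_add, St2_con_box, St2_con_box, hO, smul_zero, zero_add, map_zero] at h2
  have hv : v = 0 := (smul_eq_zero.1 h2).resolve_left hm
  rw [hv]
  rfl

omit [NeZero (m : k)] in
theorem St2_hc_mem : hc m k ∈ Ga ζ (0 : Unit → Ch m) :=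
  Submodule.sub_mem _ (cy_Fer_mem _) (cy_Fer_mem _)

omit [NeZero (m : k)] in
theorem St2_O_mem (c : ℂ) : Oc m k - c • hc m k ∈ Ga ζ (0 : Unit → Ch m) :=
  Submodule.sub_mem _ (cy_Fer_mem _) (Submodule.smul_mem _ _ St2_hc_mem)

omit [NeZero (m : k)] in
theorem St2_mem (c : ℂ) {a : κ → Ch m} {u v : G m k κ} (hu : u ∈ Ga ζ a) (hv : v ∈ Ga ζ a) :
    St2_emb (Oc m k - c • hc m k) (u, v) ∈ Ga ζ (Sum.elim (fun _ : Unit => 0) a) :=
  Submodule.add_mem _ (box_mem_Ga (St2_O_mem c) hu) (box_mem_Ga St2_hc_mem hv)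

omit [NeZero (m : k)] in
theorem St2_surj (c : ℂ) {a : κ → Ch m} {x : G m k (Unit ⊕ κ)}
    (hx : x ∈ Ga ζ (Sum.elim (fun _ : Unit => 0) a)) :
    ∃ u ∈ Ga ζ a, ∃ v ∈ Ga ζ a, x = St2_emb (Oc m k - c • hc m k) (u, v) := by
  obtain ⟨u, v, h⟩ := triv_part (mem_Ga.1 hx (Sum.inl ()))
  have h1 := pr_of_mem hx
  have e1 : pr ζ (Sum.elim (fun _ : Unit => (0 : Ch m)) a ∘ Sum.inl) (Oc m k) = Oc m k :=
    pr_of_mem (cy_Fer_mem _)
  have e2 : pr ζ (Sum.elim (fun _ : Unit => (0 : Ch m)) a ∘ Sum.inl) (hc m k) = hc m k :=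
    pr_of_mem St2_hc_mem
  refine ⟨pr ζ a u, pr_mem a u, pr ζ a v + c • pr ζ a u,
    Submodule.add_mem _ (pr_mem a v) (Submodule.smul_mem _ _ (pr_mem a u)), ?_⟩
  rw [← h1]
  conv_lhs => rw [h]
  rw [map_add, pr_box, pr_box, e1, e2, St2_emb_apply, Sum.elim_comp_inr]
  simp only [map_add, map_sub, map_smul, LinearMap.sub_apply, LinearMap.smul_apply]
  abel

theorem St2_prg {O : G m k Unit} (hO : prg O (hc m k) = m) (u v u' v' : G m k κ) :
    prg (St2_emb O (u, v)) (St2_emb O (u', v')) =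
      prg O O * prg u u' + m * prg u v' + m * prg v u' := by
  simp only [St2_emb_apply, map_add, LinearMap.add_apply, prg_box]
  rw [prg_hc_hc, prg_comm (hc m k) O, hO]
  ring

omit [NeZero m] [NeZero (m : k)] [DecidableEq κ] in
theorem St2_fr (p : ℕ) [Fact p.Prime] [CharP k p] (f : ℕ) {O : G m k Unit} {q : ℂ}
    (h1 : fr p (fun _ => f) (hc m k) = hc m k) (h2 : fr p (fun _ => f) O = q • O)
    (u v : G m k κ) : fr p (fun _ => f) (St2_emb O (u, v)) =
      St2_emb O (q • fr p (fun _ => f) u, fr p (fun _ => f) v) := by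
  rw [St2_emb_apply, St2_emb_apply, map_add, fr_box, fr_box]
  change boxG (fr p (fun _ => f) O) (fr p (fun _ => f) u) +
    boxG (fr p (fun _ => f) (hc m k)) (fr p (fun _ => f) v) = _
  rw [h1, h2]
  simp only [map_smul, LinearMap.smul_apply]

omit [NeZero m] [Fintype κ] [DecidableEq κ] in
theorem St2_neg (a : κ → Ch m) :
    -(Sum.elim (fun _ : Unit => (0 : Ch m)) a) = Sum.elim (fun _ : Unit => 0) (-a) := by
  funext l
  rcases l with l | l <;> simp

omit [NeZero (m : k)] [DecidableEq κ] in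
theorem St2_card [Fintype k] (z : k) (a : κ → Ch m) (e : ℤ) :
    Nat.card {t : Unit ⊕ κ → Tau m // (∀ l, (t l).ch = Sum.elim (fun _ : Unit => 0) a l) ∧
      ∏ l, (t l).ev z = (Fintype.card k : ℂ) ^ e} =
    Nat.card {t : κ → Tau m // (∀ l, (t l).ch = a l) ∧
      ∏ l, (t l).ev z = (Fintype.card k : ℂ) ^ (e - 1)} +
    Nat.card {t : κ → Tau m // (∀ l, (t l).ch = a l) ∧
      ∏ l, (t l).ev z = (Fintype.card k : ℂ) ^ e} := by
  classical
  have hq : (Fintype.card k : ℂ) ≠ 0 := Nat.cast_ne_zero.2 Fintype.card_ne_zero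
  rw [← Nat.card_sum]
  symm
  refine Nat.card_eq_of_bijective (Sum.elim
    (fun t => ⟨Sum.elim (fun _ => Sum.inl true) t.1, ?_, ?_⟩)
    (fun t => ⟨Sum.elim (fun _ => Sum.inl false) t.1, ?_, ?_⟩)) ⟨?_, ?_⟩
  · rintro (l | l)
    · rfl
    · exact t.2.1 l
  · rw [Fintype.prod_sum_type]
    simp only [Sum.elim_inl, Sum.elim_inr, Finset.univ_unique, Finset.prod_singleton]
    rw [t.2.2, zpow_sub_one₀ hq]
    simp only [Tau.ev, Sum.elim_inl, if_true]
    field_simp
  · rintro (l | l)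
    · rfl
    · exact t.2.1 l
  · rw [Fintype.prod_sum_type]
    simp only [Sum.elim_inl, Sum.elim_inr, Finset.univ_unique, Finset.prod_singleton]
    rw [t.2.2]
    simp [Tau.ev]
  · rintro (t | t) (s | s) h
    · have h' := congrArg (fun w => w.1 ∘ Sum.inr) h
      exact congrArg Sum.inl (Subtype.ext h')
    · have h' := congrArg (fun w => w.1 (Sum.inl ())) h
      simp at h'
    · have h' := congrArg (fun w => w.1 (Sum.inl ())) h
      simp at h'
    · have h' := congrArg (fun w => w.1 ∘ Sum.inr) h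
      exact congrArg Sum.inr (Subtype.ext h')
  · rintro ⟨t, ht, he⟩
    rw [Fintype.prod_sum_type] at he
    simp only [Finset.univ_unique, Finset.prod_singleton] at he
    have h0 := ht (Sum.inl ())
    have hd : (default : Unit) = () := rfl
    rw [hd] at he
    rcases hb : t (Sum.inl ()) with b | b
    · rw [hb] at he
      cases b
      · refine ⟨Sum.inr ⟨t ∘ Sum.inr, fun l => ht (Sum.inr l), ?_⟩, Subtype.ext ?_⟩
        · simpa [Tau.ev] using he
        · funext l
          rcases l with l | l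
          · exact hb.symm
          · rfl
      · refine ⟨Sum.inl ⟨t ∘ Sum.inr, fun l => ht (Sum.inr l), ?_⟩, Subtype.ext ?_⟩
        · rw [zpow_sub_one₀ hq, ← he]
          simp only [Tau.ev, Sum.elim_inl, if_true, Function.comp]
          field_simp
        · funext l
          rcases l with l | l
          · exact hb.symm
          · rfl
    · rw [hb] at h0
      have h1 : b.1 = 0 := h0
      exact absurd (by rw [h1]; rfl) b.2.1

end Aux

variable {m : ℕ} [NeZero m] {k : Type} [Field k] [Fintype k] [NeZero (m : k)] {ζ : Rt m k} {p : ℕ}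
  [Fact p.Prime] [CharP k p] {f : ℕ} {ι κ : Type} [Fintype ι] [DecidableEq ι] [Fintype κ]
  [DecidableEq κ] (hf : Fintype.card k = p ^ f)
include hf

theorem Str.triv {a : κ → Ch m} (h : Str ζ p f a) :
    Str ζ p f (Sum.elim (fun _ : Unit => 0) a) := by
  have hm : (m : ℂ) ≠ 0 := Nat.cast_ne_zero.2 (NeZero.ne m)
  have hq : (Fintype.card k : ℂ) ≠ 0 := Nat.cast_ne_zero.2 Fintype.card_ne_zero
  have hq1 : (1 : ℝ) ≤ Fintype.card k := Nat.one_le_cast.2 Fintype.card_pos
  obtain ⟨c, h1, h2⟩ := exists_O ζ p (s := f) (rt_pow ζ p (RingHom.id k) rfl hf)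
  rw [← Nat.cast_pow, ← hf] at h2
  have hO := St2_prg_O (ζ := ζ) c
  have hinj := St2_inj (κ := κ) hO
  have hfr := St2_fr (κ := κ) p f h1 h2
  have heig : ∀ (u v : G m k κ) (d : ℂ),
      fr p (fun _ => f) (St2_emb (Oc m k - c • hc m k) (u, v)) =
        d • St2_emb (Oc m k - c • hc m k) (u, v) ↔
      fr p (fun _ => f) u = (d * (Fintype.card k : ℂ)⁻¹) • u ∧ fr p (fun _ => f) v = d • v := by
    intro u v d
    rw [hfr, ← map_smul (St2_emb (Oc m k - c • hc m k)), hinj.eq_iff, Prod.smul_mk,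
      Prod.mk.injEq, mul_comm d, mul_smul,
      eq_inv_smul_iff₀ hq]
  have hmap : ∀ (A B : Submodule ℂ (G m k κ)) (C : Submodule ℂ (G m k (Unit ⊕ κ))),
      (∀ x, x ∈ C ↔ ∃ u ∈ A, ∃ v ∈ B, x = St2_emb (Oc m k - c • hc m k) (u, v)) →
      Nonempty ((A × B) ≃ₗ[ℂ] C) := by
    intro A B C hC
    let L : (A × B) →ₗ[ℂ] G m k (Unit ⊕ κ) :=
      St2_emb (Oc m k - c • hc m k) ∘ₗ A.subtype.prodMap B.subtype
    have hL : Function.Injective L :=
      hinj.comp (Function.Injective.prodMap A.injective_subtype B.injective_subtype)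
    have : C = LinearMap.range L := by
      ext x
      rw [hC, LinearMap.mem_range]
      constructor
      · rintro ⟨u, hu, v, hv, rfl⟩
        exact ⟨(⟨u, hu⟩, ⟨v, hv⟩), rfl⟩
      · rintro ⟨⟨u, v⟩, rfl⟩
        exact ⟨u, u.2, v, v.2, rfl⟩
    rw [this]
    exact ⟨LinearEquiv.ofInjective L hL⟩
  have := h.fin
  refine ⟨?_, ?_, ?_, ?_⟩
  · obtain ⟨E⟩ := hmap (Ga ζ a) (Ga ζ a) (Ga ζ (Sum.elim (fun _ : Unit => 0) a)) fun x =>
      ⟨St2_surj c, by rintro ⟨u, hu, v, hv, rfl⟩; exact St2_mem c hu hv⟩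
    exact E.finiteDimensional
  · intro x hx hy
    obtain ⟨u, hu, v, hv, rfl⟩ := St2_surj c hx
    rw [St2_neg] at hy
    have hu0 : u = 0 := h.nd u hu fun y hy' => by
      have := hy _ (St2_mem c (Submodule.zero_mem _) hy')
      rw [St2_prg hO] at this
      simpa [hm] using this
    subst hu0
    have hv0 : v = 0 := h.nd v hv fun y hy' => by
      have := hy _ (St2_mem c hy' (Submodule.zero_mem _))
      rw [St2_prg hO] at this
      simpa [hm] using this
    subst hv0
    exact map_zero _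
  · intro x hx y hy d d' hd hd' hn
    rw [St2_neg] at hy
    obtain ⟨u, hu, v, hv, rfl⟩ := St2_surj c hx
    obtain ⟨u', hu', v', hv', rfl⟩ := St2_surj c hy
    obtain ⟨e1, e2⟩ := (heig _ _ _).1 hd
    obtain ⟨e1', e2'⟩ := (heig _ _ _).1 hd'
    rw [Fintype.card_sum, Fintype.card_unit, pow_add, pow_one] at hn
    have hq0 : (0 : ℝ) < Fintype.card k := by linarith
    have k1 : ‖d * d' * (Fintype.card k : ℂ)⁻¹‖ < (Fintype.card k : ℝ) ^ Fintype.card κ := by
      rw [norm_mul, norm_inv, Complex.norm_natCast, mul_inv_lt_iff₀ hq0, mul_comm _ (_ : ℝ)]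
      exact hn
    have k2 : ‖d * d' * (Fintype.card k : ℂ)⁻¹ * (Fintype.card k : ℂ)⁻¹‖ <
        (Fintype.card k : ℝ) ^ Fintype.card κ := by
      rw [norm_mul, norm_inv, Complex.norm_natCast, mul_inv_lt_iff₀ hq0]
      exact k1.trans_le (le_mul_of_one_le_right (by positivity) hq1)
    rw [St2_prg hO, h.van u hu u' hu' _ _ e1 e1' (by convert k2 using 2; ring),
      h.van u hu v' hv' _ _ e1 e2' (by convert k1 using 2; ring),
      h.van v hv u' hu' _ _ e2 e1' (by convert k1 using 2; ring)]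
    simp
  · intro e
    obtain ⟨E⟩ := hmap (Ga ζ a ⊓ Module.End.eigenspace (fr p fun _ => f)
        ((Fintype.card k : ℂ) ^ (e - 1)))
      (Ga ζ a ⊓ Module.End.eigenspace (fr p fun _ => f) ((Fintype.card k : ℂ) ^ e))
      (Ga ζ (Sum.elim (fun _ : Unit => 0) a) ⊓ Module.End.eigenspace (fr p fun _ => f)
        ((Fintype.card k : ℂ) ^ e)) fun x => by
      simp only [Submodule.mem_inf, Module.End.mem_eigenspace_iff, zpow_sub_one₀ hq]
      constructor
      · rintro ⟨hx, hd⟩
        obtain ⟨u, hu, v, hv, rfl⟩ := St2_surj c hx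
        obtain ⟨e1, e2⟩ := (heig _ _ _).1 hd
        exact ⟨u, ⟨hu, e1⟩, v, ⟨hv, e2⟩, rfl⟩
      · rintro ⟨u, ⟨hu, e1⟩, v, ⟨hv, e2⟩, rfl⟩
        exact ⟨St2_mem c hu hv, (heig _ _ _).2 ⟨e1, e2⟩⟩
    have i1 : ∀ W : Submodule ℂ (G m k κ), FiniteDimensional ℂ ↥(Ga ζ a ⊓ W) := fun W =>
      Submodule.finiteDimensional_of_le inf_le_left
    have := i1 (Module.End.eigenspace (fr p fun _ => f) ((Fintype.card k : ℂ) ^ (e - 1)))
    have := i1 (Module.End.eigenspace (fr p fun _ => f) ((Fintype.card k : ℂ) ^ e))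
    rw [← E.finrank_eq, Module.finrank_prod, h.dim, h.dim, St2_card]

theorem str_all (hex : HT ζ) (a : ι → Ch m) : Str ζ p f a := by
  have key : ∀ (n : ℕ) (ι : Type) [Fintype ι] [DecidableEq ι], Fintype.card ι = n →
      ∀ a : ι → Ch m, Str ζ p f a := by
    intro n
    induction n using Nat.strong_induction_on with
    | _ n ih =>
      intro ι _ _ hn a
      by_cases h1 : ∀ i, Nd (a i)
      · exact str_nd hf h1 fun e he => (hex ι a h1 e he).2
      obtain ⟨i, hi⟩ := not_forall.1 h1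
      by_cases h0 : a i = 0
      swap
      · exact str_deg h0 hi
      let e : Unit ⊕ {l // l ≠ i} ≃ ι :=
        { toFun := Sum.elim (fun _ => i) Subtype.val
          invFun := fun l => if h : l = i then Sum.inl () else Sum.inr ⟨l, h⟩
          left_inv := by
            rintro (l | ⟨l, hl⟩)
            · simp
            · simp [hl]
          right_inv := by
            intro l
            by_cases h : l = i
            · simp [h]
            · simp [h] }
      refine Str.reindex e ?_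
      have he : a ∘ e = Sum.elim (fun _ : Unit => 0) fun l : {l // l ≠ i} => a l.1 := by
        funext l
        rcases l with l | l
        · exact h0
        · rfl
      rw [he]
      refine Str.triv hf (ih _ ?_ _ rfl _)
      rw [← hn]
      exact Fintype.card_subtype_lt (x := i) (by simp)
  exact key _ ι rfl a

end Pool.Agent.Tate
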