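import Pool.Agent.P.MP_2ce3e7_ag.AnMain
import Pool.Agent.P.MP_2ce3e7_ag.Spec
import Pool.Agent.P.MP_2ce3e7_ag.Desc
import Pool.Agent.P.MP_2ce3e7_ag.St2
import Pool.Agent.P.MP_2ce3e7_ag.Curve

/-! Existence of cycles. -/

set_option autoImplicit false

noncomputable section

namespace Pool.Agent.Tate

open MvPolynomial

variable {m : ℕ} [NeZero m] (hm : ∀ l : ℕ, l.Prime → l ∣ m → l = 2 ∨ l % 4 = 3)
include hm

/-- balanced families carry cycles over every algebraically closed field -/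
theorem hasPair_of_bal {K ι : Type} [Field K] [IsAlgClosed K] [NeZero (m : K)] [Fintype ι]
    [DecidableEq ι] (ζ : Rt m K) {a : ι → Ch m} (ha : ∀ i, Nd (a i)) (hB : Bal a) :
    HasPair ζ a := by
  rcases isEmpty_or_nonempty ι with hι | hι
  · have h0 : a = 0 := Subsingleton.elim _ _
    subst h0
    refine ⟨cy m (Fer m K ι) 0, cy_Fer_mem 0, cy m (Fer m K ι) 0, ?_, ?_⟩
    · rw [neg_zero]
      exact cy_Fer_mem 0
    · rw [prg_apply, tr_empty, chi_box (NeZero.ne m), chi_one (NeZero.ne m), one_mul]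
      exact one_ne_zero
  · obtain ⟨w, J, J', hJ, hF, hJ', hF', hT, hS⟩ :=
      an_main hm (b := -a) (fun i => (ha i).neg) (hB.neg ha)
    have : NeZero (m : ℂ) := ⟨Nat.cast_ne_zero.2 (NeZero.ne m)⟩
    obtain ⟨J₁, J₁', -, -, -, -, h⟩ := spec_main w ζ hJ hF hJ' hF'
    refine ⟨_, pr_mem a (cy m J₁ 0), _, pr_mem (-a) (cy m J₁' 0), ?_⟩
    have hfer : ∀ (g : ι → Ch m) {I : Ideal (S ℂ ι)}, Fer m ℂ ι ≤ I →
        Fer m ℂ ι ≤ I.map (sc (c3 w (up g))) := by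
      intro g I hI
      rw [Fer, Ideal.span_le]
      rintro _ ⟨i, rfl⟩
      rw [← sc_fer (c3_pow w (up g)) i]
      exact Ideal.mem_map_of_mem _ (hI (fer_mem i))
    have hc : (Fintype.card (ι → Ch m) : ℂ)⁻¹ ≠ 0 :=
      inv_ne_zero (Nat.cast_ne_zero.2 Fintype.card_ne_zero)
    rw [h, prg_pr]
    refine mul_ne_zero (mul_ne_zero hc hc) ?_
    rw [neg_neg] at hS
    convert hS using 4 with g _ g' _
    rw [tw_neg_cy w g hJ hF, tw_neg_cy w g' hJ' hF']
    exact prg_transv (hJ.map_sc _) (hfer g hF) (hJ'.map_sc _) (hfer g' hF') (hT g g')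

theorem ht_of_one {p : ℕ} [Fact p.Prime] (h1 : p ≡ 1 [MOD m]) (k : Type) [Field k] [Fintype k]
    [CharP k p] [NeZero (m : k)] : ∃ ζ : Rt m k, HT ζ := by
  obtain ⟨z, hz⟩ := exists_root h1
  let φ : ZMod p →+* k := ZMod.castHom (dvd_refl p) k
  obtain ⟨ζ, hζ⟩ := exists_rt φ hz
  obtain ⟨f, -, hf⟩ := FiniteField.card k p
  refine ⟨ζ, fun ι _ _ a ha e he => ?_⟩
  have hB : Bal a := by
    refine bal_of_pow hz ha (f := f) f.ne_zero (e := (f : ℕ) * e) ?_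
    rw [← Finset.prod_pow, zpow_mul, zpow_natCast, ← Nat.cast_pow, ← hf, ← he, hζ]
    refine Finset.prod_congr rfl fun i _ => ?_
    exact (hasse_davenport hz φ (by rw [ZMod.card, hf]) (ha i)).symm
  refine ⟨hB.even, ?_⟩
  obtain ⟨ζ', hζ'⟩ := exists_rt (algebraMap k (AlgebraicClosure k)) ζ.2
  have : NeZero (m : AlgebraicClosure k) := ⟨Rt.ne ζ'⟩
  exact desc hζ' ha he (hasPair_of_bal hm ζ' ha hB)

end Pool.Agent.Tate
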