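import Pool.Agent.P.MP_2ce3e7_ag.Chi

/-! The dimension filtration. -/

set_option autoImplicit false

noncomputable section

namespace Pool.Agent.Tate

open MvPolynomial

variable {m : ℕ} {k ι : Type} [Field k] [Fintype ι] [DecidableEq ι]

/-- classes of dimension less than `j` -/
def Dim (j : ℕ) (x : G m k ι) : Prop := ∀ T : Finset ι, j ≤ T.card → coef x T = 0

/-- the span of the modules of dimension less than `j` -/
def Fil (m : ℕ) (k ι : Type) [Field k] [Fintype ι] (j : ℕ) : Submodule ℂ (G m k ι) :=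
  Submodule.span ℂ {x | ∃ M, x = cls M ∧ Dim j (cls M)}

theorem fil_dim_sum (hm : m ≠ 0) {A : Type} (s : Finset A) (Q : A → GM m k ι) {j : ℕ}
    (h : Dim j (∑ a ∈ s, cls (Q a))) : ∀ a ∈ s, Dim j (cls (Q a)) := by
  have key : ∀ n i : ℕ, Fintype.card ι + 1 ≤ i + n → j ≤ i → ∀ a ∈ s, Dim i (cls (Q a)) := by
    intro n
    induction n with
    | zero =>
      intro i hi _ a _ T hT
      have := T.card_le_univ
      omega
    | succ n ih =>
      intro i hi hji a ha T hT
      have h1 := ih (i + 1) (by omega) (by omega)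
      rcases hT.lt_or_eq with hlt | heq
      · exact h1 a ha T hlt
      · have h2 : ∀ b : A, ∃ r : ℝ, b ∈ s → 0 ≤ r ∧ coef (cls (Q b)) T = r := by
          intro b
          by_cases hb : b ∈ s
          · obtain ⟨r, hr⟩ := (aff_coef hm (Q b)).nonneg (j := i) (fun T' hT' => h1 b hb T' hT')
              T heq.symm
            exact ⟨r, fun _ => hr⟩
          · exact ⟨0, fun hb' => absurd hb' hb⟩
        choose r hr using h2
        have h3 := h T (by omega)
        rw [map_sum, Finset.sum_apply, Finset.sum_congr rfl fun b hb => (hr b hb).2] at h3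
        have h4 : ∑ b ∈ s, r b = 0 := by exact_mod_cast h3
        have h5 := (Finset.sum_eq_zero_iff_of_nonneg fun b hb => (hr b hb).1).1 h4 a ha
        rw [(hr a ha).2, h5, Complex.ofReal_zero]
  exact key (Fintype.card ι + 1) j (by omega) le_rfl

theorem dim_ses (hm : m ≠ 0) {M N P : GM m k ι} {j : ℕ} (h : cls N = cls M + cls P) :
    Dim j (cls N) ↔ Dim j (cls M) ∧ Dim j (cls P) := by
  constructor
  · intro hN
    have h1 := fil_dim_sum hm (Finset.univ : Finset Bool) (fun b => cond b M P) (j := j)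
      (by rw [Fintype.sum_bool]; exact h ▸ hN)
    exact ⟨h1 true (Finset.mem_univ _), h1 false (Finset.mem_univ _)⟩
  · rintro ⟨h1, h2⟩ T hT
    rw [h, map_add, Pi.add_apply, h1 T hT, h2 T hT, add_zero]

theorem dim_iff (hm : m ≠ 0) (M : GM m k ι) (j : ℕ) :
    (hp fun t => hilb M fun _ => t).natDegree ≤ j ↔ Dim (j + 1) (cls M) :=
  (aff_coef hm M).natDegree_le j

theorem Fil_mono {i j : ℕ} (h : i ≤ j) : Fil m k ι i ≤ Fil m k ι j := by
  refine Submodule.span_mono ?_
  rintro x ⟨M, rfl, hM⟩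
  exact ⟨M, rfl, fun T hT => hM T (h.trans hT)⟩

theorem Fil_zero (hm : m ≠ 0) : Fil m k ι 0 = ⊥ := by
  refine Submodule.span_eq_bot.2 ?_
  rintro x ⟨M, rfl, hM⟩
  refine cls_tors ((tors_iff_hilb M).2 ?_)
  filter_upwards [aff_coef hm M] with d hd
  rw [Finset.sum_eq_zero fun T _ => by rw [hM T (Nat.zero_le _), smul_zero]] at hd
  exact_mod_cast hd

theorem Fil_top : Fil m k ι (Fintype.card ι + 1) = ⊤ := by
  refine eq_top_iff.2 (span_cls.ge.trans (Submodule.span_mono ?_))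
  rintro x ⟨M, rfl⟩
  refine ⟨M, rfl, fun T hT => ?_⟩
  have := T.card_le_univ
  omega

omit [DecidableEq ι] in
theorem fil_coef {j : ℕ} {x : G m k ι} (hx : x ∈ Fil m k ι j) : Dim j x := by
  intro T hT
  induction hx using Submodule.span_induction with
  | mem x hx =>
    obtain ⟨M, rfl, hM⟩ := hx
    exact hM T hT
  | zero => rw [map_zero, Pi.zero_apply]
  | add x y _ _ hx hy => rw [map_add, Pi.add_apply, hx, hy, add_zero]
  | smul c x _ hx => rw [map_smul, Pi.smul_apply, hx, smul_zero]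

omit [DecidableEq ι] in
theorem fil_cy_mem {J : Ideal (S k ι)} (hJ : GrI J) (hF : Fer m k ι ≤ J) {n : ι → ℤ} {j : ℕ}
    (h : Dim j (cy m J n)) : cy m J n ∈ Fil m k ι j := by
  obtain ⟨M, x, -, hM⟩ := exists_cy hJ hF n
  exact Submodule.subset_span ⟨M, hM, hM ▸ h⟩

theorem fil_coef_shift (hm : m ≠ 0) {J : Ideal (S k ι)} (hJ : GrI J) (hF : Fer m k ι ≤ J)
    {n : ι → ℤ} {j : ℕ} (h : Dim (j + 1) (cy m J n)) (n' : ι → ℤ) (T : Finset ι)
    (hT : j ≤ T.card) : coef (cy m J n') T = coef (cy m J n) T := by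
  obtain ⟨M, x, hx, hM⟩ := exists_cy hJ hF n
  have h1 := (hx.sh (n' - n)).cls_eq
  rw [add_sub_cancel] at h1
  rw [← h1, hM]
  exact (aff_coef hm M).shift (n' - n) (aff_coef hm (M.sh (n' - n))) (j := j)
    (fun T' hT' => (hM ▸ h) T' hT') T hT

/-- the dimension drops on passing to a larger prime -/
theorem dim_drop (hm : m ≠ 0) {P P' : Ideal (S k ι)} (hg : GrI P) (hP : P.IsPrime)
    (hF : Fer m k ι ≤ P) (hg' : GrI P') (h : P < P') {j : ℕ} {n : ι → ℤ}
    (hd : Dim (j + 1) (cy m P n)) (n' : ι → ℤ) : Dim j (cy m P' n') := by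
  obtain ⟨f, d, hf, hf1, hf2⟩ : ∃ f d, Hg f d ∧ f ∈ P' ∧ f ∉ P := by
    by_contra hc
    push Not at hc
    exact h.not_ge (GrW.le_of_hom hg' hc)
  have hgr : GrI (P ⊔ Ideal.span {f}) :=
    GrW.sup hg (grW_span fun g hg0 => ⟨d, by rw [Set.mem_singleton_iff.1 hg0]; exact hf⟩)
  have hF1 : Fer m k ι ≤ P ⊔ Ideal.span {f} := hF.trans le_sup_left
  have h1 := cy_mul hg hF hf (fun g hfg => (hP.mem_or_mem hfg).resolve_left hf2) n'
  have h2 : Dim j (cy m (P ⊔ Ideal.span {f}) n') := by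
    intro T hT
    have h3 := congrArg (fun y => coef y T) h1
    simp only [map_add, Pi.add_apply] at h3
    rw [fil_coef_shift hm hg hF hd n' T hT, fil_coef_shift hm hg hF hd (n' - d) T hT] at h3
    exact left_eq_add.1 h3
  obtain ⟨M, x, hx, hM⟩ := exists_cy hgr hF1 n'
  obtain ⟨N, y, hy, hN⟩ := exists_cy hg' (hF.trans h.le) n'
  obtain ⟨p, -, hp, -⟩ := hx.exists_hom hy
    (sup_le h.le ((Ideal.span_singleton_le_iff_mem _).2 hf1))
  rw [hN]
  exact ((dim_ses hm (cls_surj p hp)).1 (hM ▸ h2)).2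

/-- shifts agree modulo the lower step of the filtration -/
theorem fil_shift_mem (hm : m ≠ 0) {P : Ideal (S k ι)} (hg : GrI P) (hP : P.IsPrime)
    (hF : Fer m k ι ≤ P) {j : ℕ} {n : ι → ℤ} (hd : Dim (j + 1) (cy m P n)) (n' : ι → ℤ) :
    (Fil m k ι j).mkQ (cy m P n') = (Fil m k ι j).mkQ (cy m P n) := by
  by_cases hI : Irr P
  · rw [cy_irr hI, cy_irr hI]
  · obtain ⟨α, hα⟩ := exists_var_notMem hP hI
    refine cy_shift hg hP hF α hα (fun i => kil_of_primes fun P' n'' hg' _ hF' hl => ?_) n' n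
    have hlt : P < P' := lt_of_le_of_ne (le_sup_left.trans hl) fun he =>
      hα i (he ▸ hl (Ideal.mem_sup_right (Ideal.mem_span_singleton_self _)))
    exact (Submodule.Quotient.mk_eq_zero _).2
      (fil_cy_mem hg' hF' (dim_drop hm hg hP hF hg' hlt hd n''))

/-- operators that behave like the `q`-th power map -/
def QLike (q : ℕ) (Φ : Module.End ℂ (G m k ι)) : Prop :=
  ∀ M : GM m k ι, ∃ N : GM m k ι, Φ (cls M) = cls N ∧ M.ann ≤ N.ann ∧
    ∀ d, hilb N d = hilb M fun i => q * d i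

theorem fil_step_prime (hm : m ≠ 0) {q : ℕ} (hq : 0 < q) {Φ : Module.End ℂ (G m k ι)}
    (h : QLike q Φ) (j : ℕ) {P : Ideal (S k ι)} (hg : GrI P) (hP : P.IsPrime)
    (hF : Fer m k ι ≤ P) {n : ι → ℤ} (hd : Dim (j + 1) (cy m P n)) :
    Φ (cy m P n) - (q : ℂ) ^ j • cy m P n ∈ Fil m k ι j := by
  classical
  obtain ⟨M, x, hx, hM⟩ := exists_cy hg hF n
  obtain ⟨N, hN, hann, hh⟩ := h M
  rw [hx.ann_eq] at hann
  have hc : ∀ T : Finset ι, coef (cls N) T = (q : ℂ) ^ T.card * coef (cy m P n) T := by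
    intro T
    have a1 := (aff_coef hm M).scale (fun _ => q) fun _ => hq
    have a2 := aff_coef hm N
    simp only [hh] at a2
    have := congrFun (a2.uniq a1) T
    rw [this, Finset.prod_const, smul_eq_mul, hM]
  obtain ⟨r, Q, s, hQ, -, hs⟩ := dv N
  have h1 : ∀ i, ∃ c : ℂ,
      (Fil m k ι j).mkQ (cy m (Q i) (s i)) = c • (Fil m k ι j).mkQ (cy m P n) := by
    intro i
    rcases (hann.trans (hQ i).2.2).lt_or_eq with hlt | heq
    · refine ⟨0, ?_⟩
      rw [zero_smul]
      exact (Submodule.Quotient.mk_eq_zero _).2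
        (fil_cy_mem (hQ i).1 (hF.trans hlt.le) (dim_drop hm hg hP hF (hQ i).1 hlt hd _))
    · refine ⟨1, ?_⟩
      rw [one_smul, ← heq]
      exact fil_shift_mem hm hg hP hF hd _
  choose c hc1 using h1
  have h2 : cls N - (∑ i, c i) • cy m P n ∈ Fil m k ι j := by
    refine (Submodule.Quotient.mk_eq_zero _).1 ?_
    change (Fil m k ι j).mkQ _ = 0
    rw [map_sub, map_smul, hs, map_sum, Finset.sum_congr rfl fun i _ => hc1 i, Finset.sum_smul,
      sub_self]
  have h3 : Φ (cy m P n) = cls N := by rw [hM, hN]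
  rw [h3]
  by_cases hj : Dim j (cy m P n)
  · have h4 := fil_cy_mem hg hF hj
    have h5 := (Fil m k ι j).add_mem h2 ((Fil m k ι j).smul_mem (∑ i, c i) h4)
    rw [sub_add_cancel] at h5
    exact (Fil m k ι j).sub_mem h5 ((Fil m k ι j).smul_mem _ h4)
  · obtain ⟨T, hT, hT0⟩ : ∃ T : Finset ι, j ≤ T.card ∧ coef (cy m P n) T ≠ 0 := by
      by_contra hcon
      push Not at hcon
      exact hj hcon
    have hTj : T.card = j := by
      rcases hT.lt_or_eq with hlt | heq
      · exact absurd (hd T hlt) hT0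
      · exact heq.symm
    have h4 := fil_coef h2 T hT
    rw [map_sub, map_smul, Pi.sub_apply, Pi.smul_apply, hc, hTj, smul_eq_mul, ← sub_mul] at h4
    have h5 : (q : ℂ) ^ j = ∑ i, c i := sub_eq_zero.1 ((mul_eq_zero.1 h4).resolve_right hT0)
    rw [h5]
    exact h2

theorem QLike.step (hm : m ≠ 0) {q : ℕ} (hq : 0 < q) {Φ : Module.End ℂ (G m k ι)}
    (h : QLike q Φ) (j : ℕ) {x : G m k ι} (hx : x ∈ Fil m k ι (j + 1)) :
    Φ x - (q : ℂ) ^ j • x ∈ Fil m k ι j := by
  have key : Fil m k ι (j + 1) ≤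
      (Fil m k ι j).comap (Φ - (q : ℂ) ^ j • (LinearMap.id : G m k ι →ₗ[ℂ] G m k ι)) := by
    refine Submodule.span_le.2 ?_
    rintro y ⟨M, rfl, hM⟩
    obtain ⟨r, Q, s, hQ, -, hs⟩ := dv M
    have hF : ∀ i, Fer m k ι ≤ Q i := fun i => M.Fer_le_ann.trans (hQ i).2.2
    choose R y _ hR using fun i => exists_cy (hQ i).1 (hF i) (s i)
    have h1 := fil_dim_sum hm Finset.univ R (j := j + 1) (by
      rw [← Finset.sum_congr rfl fun i _ => hR i, ← hs]; exact hM)
    rw [SetLike.mem_coe, hs]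
    refine Submodule.sum_mem _ fun i _ => ?_
    exact fil_step_prime hm hq h j (hQ i).1 (hQ i).2.1 (hF i)
      (hR i ▸ h1 i (Finset.mem_univ i))
  exact key hx

theorem fil_down (hm : m ≠ 0) {q : ℕ} (hq : 0 < q) {Φ : Module.End ℂ (G m k ι)}
    (h : QLike q Φ) {x : G m k ι} {c : ℂ} (hc : Φ x = c • x) {j : ℕ}
    (hx : x ∈ Fil m k ι (j + 1)) (hne : c ≠ (q : ℂ) ^ j) : x ∈ Fil m k ι j := by
  have h1 := h.step hm hq j hx
  rw [hc, ← sub_smul] at h1
  exact (Submodule.smul_mem_iff _ (sub_ne_zero.2 hne)).1 h1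

theorem QLike.eigen (hm : m ≠ 0) {q : ℕ} (hq : 0 < q) {Φ : Module.End ℂ (G m k ι)}
    (h : QLike q Φ) {x : G m k ι} (hx : x ≠ 0) {c : ℂ} (hc : Φ x = c • x) :
    ∃ i ≤ Fintype.card ι, c = (q : ℂ) ^ i := by
  by_contra hcon
  push Not at hcon
  have key : ∀ j, j ≤ Fintype.card ι + 1 → x ∈ Fil m k ι j → x ∈ Fil m k ι 0 := by
    intro j
    induction j with
    | zero => exact fun _ h0 => h0
    | succ j ih =>
      intro hj h0
      exact ih (by omega) (fil_down hm hq h hc h0 (hcon j (by omega)))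
  have h1 := key _ le_rfl (by rw [Fil_top]; exact Submodule.mem_top)
  rw [Fil_zero hm] at h1
  exact hx ((Submodule.mem_bot ℂ).1 h1)

theorem QLike.fil_eq (hm : m ≠ 0) {q : ℕ} (hq : 1 < q) {Φ : Module.End ℂ (G m k ι)}
    (h : QLike q Φ) (j : ℕ) :
    Fil m k ι j = ⨆ i < j, Module.End.eigenspace Φ ((q : ℂ) ^ i) := by
  have hq0 : 0 < q := by omega
  have hne : ∀ a b : ℕ, a ≠ b → (q : ℂ) ^ a ≠ (q : ℂ) ^ b := by
    intro a b hab he
    exact hab (Nat.pow_right_injective hq (by exact_mod_cast he))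
  apply le_antisymm
  · induction j with
    | zero => rw [Fil_zero hm]; exact bot_le
    | succ j ih =>
      intro x hx
      have h1 : (⨆ i < j, Module.End.eigenspace Φ ((q : ℂ) ^ i)) ≤
          (⨆ i < j, Module.End.eigenspace Φ ((q : ℂ) ^ i)).map
            (Φ - (q : ℂ) ^ j • (LinearMap.id : G m k ι →ₗ[ℂ] G m k ι)) := by
        refine iSup₂_le fun i hi v hv => ?_
        refine ⟨((q : ℂ) ^ i - (q : ℂ) ^ j)⁻¹ • v, Submodule.smul_mem _ _
          ((le_iSup₂_of_le (f := fun i (_ : i < j) => Module.End.eigenspace Φ ((q : ℂ) ^ i))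
            i hi le_rfl) hv), ?_⟩
        rw [map_smul, LinearMap.sub_apply, LinearMap.smul_apply, LinearMap.id_apply,
          Module.End.mem_eigenspace_iff.1 hv, ← sub_smul, smul_smul,
          inv_mul_cancel₀ (sub_ne_zero.2 (hne i j hi.ne)), one_smul]
      obtain ⟨z, hz, hz1⟩ := h1 (ih (h.step hm hq0 j hx))
      rw [LinearMap.sub_apply, LinearMap.smul_apply, LinearMap.id_apply] at hz1
      have h2 : x - z ∈ Module.End.eigenspace Φ ((q : ℂ) ^ j) := by
        rw [Module.End.mem_eigenspace_iff, map_sub, smul_sub, sub_eq_sub_iff_sub_eq_sub, hz1]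
      have h3 : (⨆ i < j, Module.End.eigenspace Φ ((q : ℂ) ^ i)) ≤
          ⨆ i < j + 1, Module.End.eigenspace Φ ((q : ℂ) ^ i) :=
        iSup₂_le fun i hi => le_iSup₂_of_le
          (f := fun i (_ : i < j + 1) => Module.End.eigenspace Φ ((q : ℂ) ^ i))
          i (by omega) le_rfl
      have h4 := (le_iSup₂_of_le
        (f := fun i (_ : i < j + 1) => Module.End.eigenspace Φ ((q : ℂ) ^ i))
          j (by omega) le_rfl) h2
      have h5 := Submodule.add_mem _ h4 (h3 hz)
      rwa [sub_add_cancel] at h5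
  · refine iSup₂_le fun i hi x hx => ?_
    have hc := Module.End.mem_eigenspace_iff.1 hx
    have key : ∀ t, x ∈ Fil m k ι (j + t) → x ∈ Fil m k ι j := by
      intro t
      induction t with
      | zero => exact id
      | succ t ih =>
        intro h0
        exact ih (fil_down hm hq0 h hc h0 (hne _ _ (by omega)))
    refine key (Fintype.card ι + 1) (Fil_mono (Nat.le_add_left _ _) ?_)
    rw [Fil_top]
    exact Submodule.mem_top

theorem qlike_fr (p : ℕ) [Fact p.Prime] [CharP k p] {f : ℕ} (hf : ∀ a : k, a ^ p ^ f = a) :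
    QLike (p ^ f) (fr p fun _ => f : Module.End ℂ (G m k ι)) := by
  intro M
  obtain ⟨N, j, hN⟩ := exists_isPull (frD m k p fun _ : ι => f) M
  have hφ : ∀ g : S k ι, (frD m k p fun _ : ι => f).φ g = g ^ p ^ f := by
    intro g
    induction g using MvPolynomial.induction_on with
    | C a => rw [← C_pow, hf]; exact AlgHom.commutes _ a
    | add g g' h1 h2 => rw [map_add, h1, h2, add_pow_char_pow]
    | mul_X g v h1 =>
      rw [map_mul, h1, mul_pow]
      congr 1
      rw [PD.φ_X]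
      change C 1 * X (v.1, v.2) ^ p ^ f = _
      rw [C_1, one_mul]
  refine ⟨N, hN.pullG_cls Function.surjective_id, fun g hg => GM.mem_ann.2 fun x => hN.inj ?_,
    fun d => ?_⟩
  · rw [hN.smul, hφ, map_zero]
    exact GM.mem_ann.1 (Ideal.pow_mem_of_mem _ hg _ (pow_pos (Fact.out : p.Prime).pos f)) _
  · rw [hN.hilb_eq]
    congr 1
    funext i
    refine ((frD m k p fun _ : ι => f).val_τ d i).trans ?_
    change (0 : ℤ) + ((p ^ f : ℕ) : ℤ) * d i = _
    rw [zero_add]

end Pool.Agent.Tate
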