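import Pool.Agent.P.MP_2ce3e7_ag.Core

/-! Linear algebra and power series for the final count. -/

set_option autoImplicit false

noncomputable section

namespace Pool.Agent.Tate

open Module

theorem la_succ {V : Type*} [AddCommGroup V] [Module ℂ V] (E : ℕ → Submodule ℂ V) (j : ℕ) :
    (⨆ i < j + 1, E i) = (⨆ i < j, E i) ⊔ E j := by
  refine le_antisymm (iSup₂_le fun i hi => ?_) (sup_le (iSup₂_le fun i hi => ?_) ?_)
  · rcases Nat.lt_succ_iff_lt_or_eq.1 hi with h | rfl
    · exact le_sup_of_le_left (le_iSup₂_of_le (f := fun i (_ : i < j) => E i) i h le_rfl)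
    · exact le_sup_right
  · exact le_iSup₂_of_le (f := fun i (_ : i < j + 1) => E i) i (Nat.lt_succ_of_lt hi) le_rfl
  · exact le_iSup₂_of_le (f := fun i (_ : i < j + 1) => E i) j (Nat.lt_succ_self j) le_rfl

theorem la_fil {V : Type*} [AddCommGroup V] [Module ℂ V] [FiniteDimensional ℂ V]
    (E : ℕ → Submodule ℂ V) (ind : iSupIndep E) (j : ℕ) :
    finrank ℂ ↥(⨆ i < j, E i) + finrank ℂ (E j) = finrank ℂ ↥(⨆ i < j + 1, E i) := by
  have h : Disjoint (⨆ i < j, E i) (E j) := by
    refine ((ind j).mono_right (iSup₂_le fun i hi => ?_)).symm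
    exact le_iSup₂_of_le (f := fun i (_ : i ≠ j) => E i) i hi.ne le_rfl
  rw [la_succ, ← Submodule.finrank_sup_add_finrank_inf_eq, h.eq_bot, finrank_bot, add_zero]

theorem ann_fil {V : Type*} [AddCommGroup V] [Module ℂ V] [FiniteDimensional ℂ V]
    (B : V →ₗ[ℂ] V →ₗ[ℂ] ℂ) (E : ℕ → Submodule ℂ V) (n : ℕ) (ind : iSupIndep E)
    (top : ⨆ i < n + 1, E i = ⊤) (symm : ∀ x y, B x y = B y x)
    (nd : ∀ x, (∀ y, B x y = 0) → x = 0)
    (van : ∀ i i', i + i' < n → ∀ x ∈ E i, ∀ y ∈ E i', B x y = 0)
    (dim : ∀ i ≤ n, finrank ℂ (E i) = finrank ℂ (E (n - i))) {j : ℕ} (hj : j ≤ n) (x : V) :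
    (∀ y ∈ ⨆ i < n - j + 1, E i, B x y = 0) ↔ x ∈ ⨆ i < j, E i := by
  have hd : ∀ j ≤ n, finrank ℂ ↥(⨆ i < j, E i) + finrank ℂ ↥(⨆ i < n - j + 1, E i) =
      finrank ℂ ↥(⨆ i < n + 1, E i) := by
    intro j
    induction j with
    | zero =>
      intro _
      have : (⨆ i < 0, E i) = ⊥ := by simp
      rw [this, finrank_bot, zero_add, Nat.sub_zero]
    | succ j ih =>
      intro hj
      have e : n - (j + 1) + 1 = n - j := by omega
      rw [e, ← ih (by omega), ← la_fil E ind j, ← la_fil E ind (n - j), dim j (by omega)]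
      omega
  have hle : (⨆ i < j, E i) ≤ LinearMap.BilinForm.orthogonal B (⨆ i < n - j + 1, E i) := by
    refine iSup₂_le fun i hi x hx y hy => ?_
    have : (⨆ i < n - j + 1, E i) ≤ LinearMap.ker (B x) :=
      iSup₂_le fun i' hi' y hy => van i i' (by omega) x hx y hy
    exact (symm y x).trans (this hy)
  have hnd : LinearMap.BilinForm.Nondegenerate B :=
    ⟨nd, fun y h => nd y fun x => (symm y x).trans (h x)⟩
  have heq := Submodule.eq_of_le_of_finrank_eq hle (by
    rw [LinearMap.BilinForm.finrank_orthogonal hnd, ← finrank_top ℂ V, ← top, ← hd j hj]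
    omega)
  rw [heq, LinearMap.BilinForm.mem_orthogonal_iff]
  exact forall₂_congr fun y _ => by rw [symm]

theorem finrank_fil {V : Type*} [AddCommGroup V] [Module ℂ V] [FiniteDimensional ℂ V]
    (E : ℕ → Submodule ℂ V) (ind : iSupIndep E) (j : ℕ) :
    finrank ℂ ↥(⨆ i < j, E i) + finrank ℂ (E j) = finrank ℂ ↥(⨆ i < j + 1, E i) := by
  exact la_fil E ind j

theorem rank_span {α β V : Type*} [AddCommGroup V] [Module ℂ V] [FiniteDimensional ℂ V]
    (B : V →ₗ[ℂ] V →ₗ[ℂ] ℂ) (f : α → β → ℚ) (u : α → V) (v : β → V)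
    (h : ∀ a b, (f a b : ℂ) = B (u a) (v b)) (K : Submodule ℂ V)
    (hK : ∀ x, x ∈ K ↔ x ∈ Submodule.span ℂ (Set.range u) ∧ ∀ b, B x (v b) = 0) (ρ : ℕ)
    (hρ : finrank ℂ K + ρ = finrank ℂ (Submodule.span ℂ (Set.range u))) :
    Module.rank ℚ (Submodule.span ℚ (Set.range f)) = ρ := by
  let Φ : V →ₗ[ℂ] β → ℂ := LinearMap.pi fun b => B.flip (v b)
  let c : (β → ℚ) → β → ℂ := fun w b => w b
  have hc : ∀ a, c (f a) = Φ (u a) := fun a => funext fun b => h a b
  set U := Submodule.span ℂ (Set.range u) with hU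
  have hk : K = U ⊓ LinearMap.ker Φ := by
    ext x
    rw [hK, Submodule.mem_inf, LinearMap.mem_ker, funext_iff]
    rfl
  have h1 : finrank ℂ (U.map Φ) = ρ := by
    have := LinearMap.finrank_range_add_finrank_ker (Φ.domRestrict U)
    rw [LinearMap.range_domRestrict, LinearMap.ker_domRestrict,
      ← Submodule.finrank_map_subtype_eq U, Submodule.map_comap_subtype, ← hk] at this
    omega
  obtain ⟨s, hs, hsp, hli⟩ := exists_linearIndependent ℚ (Set.range f)
  have hli' : LinearIndependent ℂ fun w : s => c w := by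
    rw [linearIndependent_iff'] at hli ⊢
    intro t g hg i hi
    refine (Module.forall_dual_apply_eq_zero_iff ℚ (g i)).1 fun φ => ?_
    refine hli t (fun i => φ (g i)) (funext fun b => ?_) i hi
    have := congrArg φ (congrFun hg b)
    simp only [Finset.sum_apply, Pi.smul_apply, smul_eq_mul, Pi.zero_apply, map_sum,
      map_zero] at this ⊢
    rw [← this]
    refine Finset.sum_congr rfl fun w _ => ?_
    rw [mul_comm (g w), ← Rat.smul_def, map_smul, smul_eq_mul, mul_comm]
  have h2 : Submodule.span ℂ (Set.range fun w : s => c w) = U.map Φ := by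
    rw [hU, Submodule.map_span]
    refine le_antisymm (Submodule.span_mono ?_) (Submodule.span_le.2 ?_)
    · rintro _ ⟨w, rfl⟩
      obtain ⟨a, ha⟩ := hs w.2
      exact ⟨u a, ⟨a, rfl⟩, by rw [← hc, ha]⟩
    · rintro _ ⟨_, ⟨a, rfl⟩, rfl⟩
      rw [← hc]
      have ha : f a ∈ Submodule.span ℚ s := hsp ▸ Submodule.subset_span ⟨a, rfl⟩
      generalize f a = w at ha
      induction ha using Submodule.span_induction with
      | mem w hw => exact Submodule.subset_span ⟨⟨w, hw⟩, rfl⟩
      | zero =>
        have : c 0 = 0 := funext fun b => Rat.cast_zero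
        rw [this]
        exact Submodule.zero_mem _
      | add w w' _ _ a b =>
        have : c (w + w') = c w + c w' := funext fun b => Rat.cast_add _ _
        rw [this]
        exact Submodule.add_mem _ a b
      | smul r w _ a =>
        have : c (r • w) = (r : ℂ) • c w := funext fun b => Rat.cast_mul _ _
        rw [this]
        exact Submodule.smul_mem _ _ a
  have h3 := _root_.rank_span hli'
  rw [Cardinal.mk_range_eq _ hli'.injective, h2, ← finrank_eq_rank, h1] at h3
  rw [← hsp, rank_span_set hli, h3]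

theorem la_prod {T : Type} (s : Finset T) (z l : T → PowerSeries ℂ)
    (h : ∀ t, PowerSeries.derivative ℂ (z t) = z t * l t) :
    PowerSeries.derivative ℂ (∏ t ∈ s, z t) = (∏ t ∈ s, z t) * ∑ t ∈ s, l t := by
  classical
  induction s using Finset.induction_on with
  | empty => simp
  | insert a s ha ih =>
    rw [Finset.prod_insert ha, Finset.sum_insert ha, Derivation.leibniz, ih, h, smul_eq_mul,
      smul_eq_mul]
    ring

theorem la_geo (a : ℂ) :
    (PowerSeries.mk fun n => a ^ n) * (1 - PowerSeries.C a * PowerSeries.X) = 1 := by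
  ext n
  rw [mul_sub, mul_one, ← mul_assoc, map_sub]
  cases n with
  | zero => simp
  | succ n =>
    rw [PowerSeries.coeff_succ_mul_X, PowerSeries.coeff_mul_C, PowerSeries.coeff_mk,
      PowerSeries.coeff_mk, PowerSeries.coeff_one, if_neg n.succ_ne_zero, pow_succ, sub_self]

theorem la_lin (a : ℂ) : PowerSeries.derivative ℂ (1 - PowerSeries.C a * PowerSeries.X) =
    -PowerSeries.C a := by
  rw [map_sub, PowerSeries.derivative_one, Derivation.leibniz, PowerSeries.derivative_X,
    PowerSeries.derivative_C]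
  simp

theorem la_geo' (a : ℂ) : PowerSeries.derivative ℂ (PowerSeries.mk fun n => a ^ n) =
    (PowerSeries.mk fun n => a ^ n) * (PowerSeries.C a * PowerSeries.mk fun n => a ^ n) := by
  have h := la_geo a
  have h' := congrArg (PowerSeries.derivative ℂ) h
  rw [Derivation.leibniz, la_lin, PowerSeries.derivative_one, smul_eq_mul, smul_eq_mul] at h'
  linear_combination (PowerSeries.mk fun n => a ^ n) * h' -
    PowerSeries.derivative ℂ (PowerSeries.mk fun n => a ^ n) * h

theorem exists_zeta {T : Type} [Fintype T] (ev : T → ℂ) (od : T → Prop) [DecidablePred od]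
    (N : ℕ → ℂ) (hN : ∀ s, N s = ∑ t, (if od t then -1 else 1) * ev t ^ (s + 1)) {c : ℂ}
    (hc : c ≠ 0) (h : ∀ t, od t → ev t ≠ c) :
    ∃ Z : PowerSeries ℂ, PowerSeries.constantCoeff Z = 1 ∧
      PowerSeries.derivative ℂ Z = Z * PowerSeries.mk N ∧
      ∃ P Q : Polynomial ℂ, P.eval c⁻¹ ≠ 0 ∧ Q.eval c⁻¹ ≠ 0 ∧
        Z * (Q * (Polynomial.X - Polynomial.C c⁻¹) ^ Nat.card {t // ev t = c} : Polynomial ℂ) =
          P := by
  classical
  let z : T → PowerSeries ℂ := fun t =>
    if od t then 1 - PowerSeries.C (ev t) * PowerSeries.X else PowerSeries.mk fun n => ev t ^ n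
  let l : T → PowerSeries ℂ := fun t => PowerSeries.C (if od t then -1 else 1) *
    (PowerSeries.C (ev t) * PowerSeries.mk fun n => ev t ^ n)
  let p : T → Polynomial ℂ := fun t =>
    if od t then 1 - Polynomial.C (ev t) * Polynomial.X else 1
  let q : T → Polynomial ℂ := fun t => if od t then 1 else
    if ev t = c then Polynomial.C (-c) else 1 - Polynomial.C (ev t) * Polynomial.X
  let r : T → Polynomial ℂ := fun t =>
    if ev t = c then Polynomial.X - Polynomial.C c⁻¹ else 1
  have hev : ∀ a, a ≠ c → (1 - Polynomial.C a * Polynomial.X : Polynomial ℂ).eval c⁻¹ ≠ 0 := by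
    intro a ha h0
    simp only [Polynomial.eval_sub, Polynomial.eval_one, Polynomial.eval_mul, Polynomial.eval_C,
      Polynomial.eval_X] at h0
    apply ha
    field_simp at h0
    linear_combination -h0
  have hcoe : ∀ a : ℂ, ((1 - Polynomial.C a * Polynomial.X : Polynomial ℂ) : PowerSeries ℂ) =
      1 - PowerSeries.C a * PowerSeries.X := fun a => by
    rw [Polynomial.coe_sub, Polynomial.coe_mul, Polynomial.coe_one, Polynomial.coe_C,
      Polynomial.coe_X]
  refine ⟨∏ t, z t, ?_, ?_, ∏ t, p t, ∏ t, q t, ?_, ?_, ?_⟩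
  · rw [map_prod]
    refine Finset.prod_eq_one fun t _ => ?_
    by_cases ht : od t
    · simp [z, ht]
    · simp [z, ht]
  · rw [la_prod Finset.univ z l fun t => ?_]
    · congr 1
      ext s
      rw [map_sum, PowerSeries.coeff_mk, hN]
      refine Finset.sum_congr rfl fun t _ => ?_
      simp only [l, PowerSeries.coeff_C_mul, PowerSeries.coeff_mk, pow_succ']
    · by_cases ht : od t
      · simp only [z, l, if_pos ht, la_lin, map_neg, map_one]
        linear_combination PowerSeries.C (ev t) * la_geo (ev t)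
      · simp only [z, l, if_neg ht, la_geo', map_one, one_mul]
  · rw [Polynomial.eval_prod]
    refine Finset.prod_ne_zero_iff.2 fun t _ => ?_
    by_cases ht : od t
    · simp only [p, if_pos ht]
      exact hev _ (h t ht)
    · simp [p, ht]
  · rw [Polynomial.eval_prod]
    refine Finset.prod_ne_zero_iff.2 fun t _ => ?_
    by_cases ht : od t
    · simp [q, ht]
    · by_cases hc' : ev t = c
      · simp [q, ht, hc', hc]
      · simp only [q, if_neg ht, if_neg hc']
        exact hev _ hc'
  · have hr : (Polynomial.X - Polynomial.C c⁻¹) ^ Nat.card {t // ev t = c} = ∏ t, r t := by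
      simp only [r]
      rw [Finset.prod_ite, Finset.prod_const_one, mul_one, Finset.prod_const,
        Nat.card_eq_fintype_card, Fintype.card_subtype]
    rw [hr, ← Finset.prod_mul_distrib, ← Polynomial.coeToPowerSeries.ringHom_apply,
      ← Polynomial.coeToPowerSeries.ringHom_apply, map_prod, map_prod, ← Finset.prod_mul_distrib]
    refine Finset.prod_congr rfl fun t _ => ?_
    rw [Polynomial.coeToPowerSeries.ringHom_apply, Polynomial.coeToPowerSeries.ringHom_apply]
    by_cases ht : od t
    · simp only [z, p, q, r, if_pos ht, if_neg (h t ht), mul_one, Polynomial.coe_one, hcoe]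
    · by_cases hc' : ev t = c
      · have e : Polynomial.C (-c) * (Polynomial.X - Polynomial.C c⁻¹) =
            1 - Polynomial.C c * Polynomial.X := by
          rw [mul_sub, ← Polynomial.C_mul, neg_mul, mul_inv_cancel₀ hc, map_neg, map_neg, map_one]
          ring
        simp only [z, p, q, r, if_neg ht, hc', if_true, e, hcoe, Polynomial.coe_one, la_geo]
      · simp only [z, p, q, r, if_neg ht, if_neg hc', mul_one, hcoe, Polynomial.coe_one, la_geo]

end Pool.Agent.Tate
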