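import Pool.Agent.P.MP_2ce3e7_ag.Pair

/-! The pairing of the statement is the pairing on classes. -/

set_option autoImplicit false

noncomputable section

namespace Pool.Agent.Tate

open TensorProduct

variable {m : ℕ} {k ι : Type} [Field k]

theorem link_syz {A V V' : Type} [Fintype A] [AddCommGroup V] [Module k V] [AddCommGroup V']
    [Module k V'] (g : A → S k ι) {ρ : S k ι →ₐ[k] Module.End k V}
    {ρ' : S k ι →ₐ[k] Module.End k V'} (φ : V →ₗ[k] V') (h : ∀ f x, φ (ρ f x) = ρ' f (φ x))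
    {ξ : A → V} (hξ : ξ ∈ syz m g ρ) : (φ.compLeft A) ξ ∈ syz m g ρ' := by
  have h1 : syz m g ρ ≤ (syz m g ρ').comap (φ.compLeft A) := by
    refine Submodule.span_le.2 ?_
    rintro _ ⟨c, x, hc, rfl⟩
    exact Submodule.subset_span ⟨c, φ x, hc, funext fun a => h _ _⟩
  exact h1 hξ

theorem link_finrank {V V' : Type} [AddCommGroup V] [Module k V] [AddCommGroup V'] [Module k V']
    (F : V →ₗ[k] V') (K W : Submodule k V) (h : ∀ x, F x = 0 ↔ x ∈ K) :
    Module.finrank k (W.map F) = Module.finrank k (W.map K.mkQ) := by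
  have h1 : K ≤ LinearMap.ker F := fun x hx => (h x).2 hx
  have h2 : Function.Injective (K.liftQ F h1) :=
    LinearMap.ker_eq_bot.1 (Submodule.ker_liftQ_eq_bot _ _ _ fun x hx => (h x).1 hx)
  rw [(Submodule.equivMapOfInjective _ h2 (W.map K.mkQ)).finrank_eq, ← Submodule.map_comp,
    Submodule.liftQ_mkQ]

theorem link_hilb {κ A : Type} [Fintype ι] [Fintype κ] [Fintype A] [DecidableEq A]
    {M : GM m k ι} {N : GM m k κ} {P T : GM m k (ι ⊕ κ)} {j : M.M ⊗[k] N.M ≃ₗ[k] P.M}
    (hB : IsBox M N P j) {g : A → S k (ι ⊕ κ)} {δ : ι ⊕ κ → ℤ}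
    {p : (A → P.M) →ₗ[S k (ι ⊕ κ)] T.M} (hL : IsL g δ P T p)
    (hK : ∀ ξ, p ξ = 0 ↔ ξ ∈ syz m g (Algebra.lsmul k k P.M)) (d : ι ⊕ κ → ℤ) :
    hilb T d = Module.finrank k ((Submodule.pi Set.univ fun _ : A => LinearMap.range
      (TensorProduct.map (M.π ((d - δ) ∘ Sum.inl)) (N.π ((d - δ) ∘ Sum.inr)))).map
        (syz m g (boxHom M N)).mkQ) := by
  rw [← link_finrank ((p.restrictScalars k).comp (j.toLinearMap.compLeft A))]
  · have h1 : LinearMap.range (T.π d) = (Submodule.pi Set.univ fun _ : A => LinearMap.range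
        (TensorProduct.map (M.π ((d - δ) ∘ Sum.inl)) (N.π ((d - δ) ∘ Sum.inr)))).map
          ((p.restrictScalars k).comp (j.toLinearMap.compLeft A)) := by
      refine le_antisymm ?_ ?_
      · rintro _ ⟨z, rfl⟩
        obtain ⟨ξ, rfl⟩ := hL.surj z
        refine ⟨fun a => TensorProduct.map (M.π ((d - δ) ∘ Sum.inl)) (N.π ((d - δ) ∘ Sum.inr))
          (j.symm (ξ a)), fun a _ => ⟨_, rfl⟩, ?_⟩
        rw [hL.π]
        refine congrArg p (funext fun a => ?_)
        have h2 := hB.π (d - δ) (j.symm (ξ a))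
        rw [j.apply_symm_apply] at h2
        exact h2.symm
      · rintro _ ⟨η, hη, rfl⟩
        choose t ht using fun a => hη a (Set.mem_univ a)
        refine ⟨p fun a => j (t a), ?_⟩
        rw [hL.π]
        refine congrArg p (funext fun a => ?_)
        rw [hB.π, ht]
        rfl
    rw [hilb, h1]
  · intro ξ
    refine (hK _).trans ⟨fun h => ?_, fun h => link_syz g j.toLinearMap (fun f x => hB.smul f x) h⟩
    have h2 := link_syz g (ρ' := boxHom M N) j.symm.toLinearMap (fun f x => by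
      refine j.injective ?_
      have h3 := hB.smul f (j.symm x)
      rw [j.apply_symm_apply] at h3
      exact (j.apply_symm_apply _).trans h3.symm) h
    have h3 : (j.symm.toLinearMap.compLeft A) ((j.toLinearMap.compLeft A) ξ) = ξ :=
      funext fun a => j.symm_apply_apply _
    rwa [h3] at h2

variable [NeZero (m : k)] [Fintype ι] [DecidableEq ι]

theorem pair_eq (M N : GM m k ι) : ((pair M N : ℚ) : ℂ) = prg (cls M) (cls N) := by
  have hm : (m : k) ≠ 0 := NeZero.ne _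
  have hm0 : m ≠ 0 := fun h => hm (by rw [h, Nat.cast_zero])
  obtain ⟨P, j, hB⟩ := exists_isBox M N
  have hne : ∀ i : ι, (Sum.inl i : ι ⊕ ι) ≠ Sum.inr i := fun _ => Sum.inl_ne_inr
  rw [prg_apply, hB.boxG_cls, tr, LinearMap.comp_apply, dgT_eq_sum hne, LinearMap.sum_apply,
    map_sum, pair, Rat.cast_sum]
  refine Finset.sum_congr rfl fun T _ => ?_
  obtain ⟨Q, p, hL, hK, -⟩ := exists_isL hm (inv_gT hm hne T) P
  rw [LinearMap.smul_apply, map_smul, hL.Lg_cls hm (inv_gT hm hne T), chi_apply,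
    ← (aff_coef hm0 Q).hp_zero, Rat.cast_mul, Rat.cast_pow, Rat.cast_neg, Rat.cast_one,
    smul_eq_mul]
  refine congrArg (fun h : ℕ → ℕ => (-1 : ℂ) ^ T.card * (((hp h).eval 0 : ℚ) : ℂ))
    (funext fun n => ?_)
  have h1 : ((fun _ : ι ⊕ ι => (n : ℤ)) - ∑ i ∈ T, dm (Sum.inl i) (Sum.inr i)) ∘ Sum.inl =
      fun i => if i ∈ T then (n : ℤ) - 1 else n := by
    funext i
    simp only [Function.comp_apply, Pi.sub_apply, Finset.sum_apply, dm, Pi.add_apply, wt_apply]
    by_cases h : i ∈ T <;> simp [h]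
  have h2 : ((fun _ : ι ⊕ ι => (n : ℤ)) - ∑ i ∈ T, dm (Sum.inl i) (Sum.inr i)) ∘ Sum.inr =
      fun i => if i ∈ T then (n : ℤ) - 1 else n := by
    funext i
    simp only [Function.comp_apply, Pi.sub_apply, Finset.sum_apply, dm, Pi.add_apply, wt_apply]
    by_cases h : i ∈ T <;> simp [h]
  rw [link_hilb hB hL hK, h1, h2]
  rfl

end Pool.Agent.Tate
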