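import Pool.Agent.P.MP_2ce3e7_ag.St3
import Pool.Agent.P.MP_2ce3e7_ag.LA
import Pool.Agent.P.MP_2ce3e7_ag.Link
import Pool.Agent.P.MP_2ce3e7_ag.Curve
import Pool.Agent.P.MP_2ce3e7_ag.DefsZ

/-! The two theorems from the existence of cycles. -/

set_option autoImplicit false

noncomputable section

namespace Pool.Agent.Tate

open MvPolynomial

variable {m : ℕ} [NeZero m] {k : Type} [Field k] [Fintype k] [NeZero (m : k)] {ζ : Rt m k}
  (h : HT ζ)
include h

omit h [NeZero m] [Fintype k] in
theorem final_lift {ι : Type} [Fintype ι] [DecidableEq ι] (x : FreeAbelianGroup (GM m k ι))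
    (N : GM m k ι) :
    prg (FreeAbelianGroup.lift (cls : GM m k ι → G m k ι) x) (cls N) =
      ((FreeAbelianGroup.lift (fun M => pair M N) x : ℚ) : ℂ) := by
  induction x using FreeAbelianGroup.induction_on with
  | zero => simp
  | of M => rw [FreeAbelianGroup.lift_apply_of, FreeAbelianGroup.lift_apply_of, pair_eq]
  | neg M hM => rw [map_neg, map_neg, map_neg, LinearMap.neg_apply, hM, Rat.cast_neg]
  | add x y hx hy =>
    rw [map_add, map_add, map_add, LinearMap.add_apply, hx, hy, Rat.cast_add]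

omit h [NeZero (m : k)] [Fintype k] in
theorem final_span {ι : Type} [Fintype ι] [DecidableEq ι] (P : GM m k ι → Prop) (j : ℕ)
    (hP : ∀ M, P M ↔ dimM M ≤ j) :
    Submodule.span ℂ (Set.range fun M : {M : GM m k ι // P M} => cls M.1) = Fil m k ι (j + 1) := by
  unfold Fil
  congr 1
  ext x
  constructor
  · rintro ⟨M, rfl⟩
    exact ⟨M.1, rfl, (dim_iff (NeZero.ne m) M.1 j).1 ((hP _).1 M.2)⟩
  · rintro ⟨M, rfl, hM⟩
    exact ⟨⟨M, (hP _).2 ((dim_iff (NeZero.ne m) M j).2 hM)⟩, rfl⟩

theorem final_B {ι : Type} [Fintype ι] [DecidableEq ι] (x : FreeAbelianGroup (GM m k ι))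
    (hx : ∀ N, FreeAbelianGroup.lift (fun M => pair M N) x = 0) :
    ∃ c : ℕ, 0 < c ∧ c • x ∈ rels m k ι := by
  obtain ⟨p, hp, f, hpr, hf⟩ := FiniteField.card' k
  have : Fact p.Prime := ⟨hpr⟩
  refine torsion_of_cls x (G_nd (fun a => str_all hf h a) fun y => ?_)
  refine G.ind (p := fun y => prg (FreeAbelianGroup.lift cls x) y = 0) (fun N => ?_)
    (map_zero _) (fun a b ha hb => ?_) (fun c a ha => ?_) y
  · rw [final_lift, hx N, Rat.cast_zero]
  · rw [map_add, ha, hb, add_zero]
  · rw [map_smul, ha, smul_zero]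

theorem rank_eq (n j : ℕ) :
    Module.rank ℚ (Submodule.span ℚ (Set.range fun M : {M : GM m k (Fin n) // dimM M ≤ j} =>
        fun N : {N : GM m k (Fin n) // dimM N + j ≤ n} => pair M.1 N.1)) =
      Nat.card {t : Fin n → Tau m // ∏ l, (t l).ev ζ.1 = (Fintype.card k : ℂ) ^ j} := by
  obtain ⟨p, hp, f, hpr, hf⟩ := FiniteField.card' k
  have : Fact p.Prime := ⟨hpr⟩
  have hm : m ≠ 0 := NeZero.ne m
  have hs : ∀ a : Fin n → Ch m, Str ζ p f a := fun a => str_all hf h a
  have := G_fin hs
  have hq : 1 < Fintype.card k := Fintype.one_lt_card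
  have hQ : QLike (Fintype.card k) (fr p fun _ => (f : ℕ) : Module.End ℂ (G m k (Fin n))) := by
    rw [hf]
    exact qlike_fr p fun a => by rw [← hf]; exact FiniteField.pow_card a
  have hinj : Function.Injective fun i : ℕ => (Fintype.card k : ℂ) ^ i := by
    intro a b hab
    have h1 : ((Fintype.card k ^ a : ℕ) : ℂ) = ((Fintype.card k ^ b : ℕ) : ℂ) := by
      rw [Nat.cast_pow, Nat.cast_pow]
      exact hab
    exact Nat.pow_right_injective hq (Nat.cast_injective h1)
  obtain ⟨E, hE⟩ : ∃ E : ℕ → Submodule ℂ (G m k (Fin n)), ∀ i, E i =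
      Module.End.eigenspace (fr p fun _ => (f : ℕ) : Module.End ℂ (G m k (Fin n)))
        ((Fintype.card k : ℂ) ^ i) := ⟨_, fun _ => rfl⟩
  have hind : iSupIndep E := by
    rw [funext hE]
    exact (Module.End.eigenspaces_iSupIndep _).comp hinj
  have hfil : ∀ i, Fil m k (Fin n) i = ⨆ l < i, E l := fun i => by
    rw [hQ.fil_eq hm hq i, funext hE]
  have hdim : ∀ i, Module.finrank ℂ (E i) =
      Nat.card {t : Fin n → Tau m // ∏ l, (t l).ev ζ.1 = (Fintype.card k : ℂ) ^ i} := fun i => by
    rw [hE i]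
    exact G_dim hs hf i
  have hu := final_span (fun M : GM m k (Fin n) => dimM M ≤ j) j fun _ => Iff.rfl
  rw [← hdim j]
  rcases le_or_gt j n with hj | hj
  · have hv := final_span (fun N : GM m k (Fin n) => dimM N + j ≤ n) (n - j) fun _ => by omega
    have hann := ann_fil prg E n hind
      (by rw [← hfil]; simpa only [Fintype.card_fin] using Fil_top (m := m) (k := k) (ι := Fin n))
      prg_comm (fun x hx => G_nd hs hx)
      (fun i i' hi x hx y hy => G_van hs hf (hE i ▸ hx) (hE i' ▸ hy)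
        (by rwa [Fintype.card_fin]))
      (fun i hi => by
        rw [hdim, hdim, card_symm (ι := Fin n) (by rwa [Fintype.card_fin]), Fintype.card_fin]) hj
    refine rank_span prg (fun (M : {M : GM m k (Fin n) // dimM M ≤ j})
      (N : {N : GM m k (Fin n) // dimM N + j ≤ n}) => pair M.1 N.1)
      (fun M => cls M.1) (fun N => cls N.1) (fun a b => pair_eq a.1 b.1)
      (Fil m k (Fin n) j) (fun x => ?_) _ ?_
    · rw [hu]
      constructor
      · intro hx
        refine ⟨Fil_mono (Nat.le_succ j) hx, fun b => ?_⟩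
        refine (hann x).2 (hfil j ▸ hx) _ ?_
        rw [← hfil, ← hv]
        exact Submodule.subset_span ⟨b, rfl⟩
      · rintro ⟨-, hx⟩
        rw [hfil, ← hann x, ← hfil, ← hv]
        intro y hy
        induction hy using Submodule.span_induction with
        | mem y hy =>
          obtain ⟨b, rfl⟩ := hy
          exact hx b
        | zero => exact map_zero _
        | add a b _ _ ha hb => rw [map_add, ha, hb, add_zero]
        | smul c a _ ha => rw [map_smul, ha, smul_zero]
    · rw [hu, hfil, hfil]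
      exact finrank_fil E hind j
  · have h0 : E j = ⊥ := by
      rw [eq_bot_iff]
      intro x hx
      by_contra hx0
      rw [hE, Module.End.mem_eigenspace_iff] at hx
      obtain ⟨i, hi, hc⟩ := hQ.eigen hm (by omega) hx0 hx
      have := hinj hc
      rw [Fintype.card_fin] at hi
      omega
    refine rank_span prg (fun (M : {M : GM m k (Fin n) // dimM M ≤ j})
      (N : {N : GM m k (Fin n) // dimM N + j ≤ n}) => pair M.1 N.1)
      (fun M => cls M.1) (fun N => cls N.1) (fun a b => pair_eq a.1 b.1)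
      _ (fun x => ⟨fun hx => ⟨hx, fun b => ?_⟩, fun hx => hx.1⟩) _ ?_
    · have := b.2
      omega
    · rw [h0, finrank_bot, add_zero]

omit h in
include ζ in
theorem npts_eq (n : ℕ) {F : Type} [Field F] [Finite F] (φ : k →+* F) {s : ℕ}
    (hF : Nat.card F = Fintype.card k ^ s) : (npts m n F : ℂ) = ∑ t : Fin n → Tau m,
      (if Odd (Finset.univ.filter fun l => (t l).isRight).card then -1 else 1) *
        (∏ l, (t l).ev ζ.1) ^ s := by
  have h1 : npts m n F =
      Nat.card {x : Projectivization F (Fin 3 → F) // OnF m x.rep} ^ n := by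
    unfold npts
    rw [Nat.card_congr (Equiv.subtypePiEquivPi (p := fun (_ : Fin n)
      (x : Projectivization F (Fin 3 → F)) => x.rep 0 ^ m + x.rep 1 ^ m = x.rep 2 ^ m)),
      Nat.card_pi, Finset.prod_const, Finset.card_univ, Fintype.card_fin]
    rfl
  have h2 : ∑ τ : Tau m, (if τ.isRight then -1 else 1 : ℂ) * τ.ev ζ.1 ^ s =
      1 + (Fintype.card k : ℂ) ^ s -
        ∑ a ∈ Finset.univ.filter (Nd (m := m)), (-Jac ζ.1 a) ^ s := by
    rw [Fintype.sum_sum_type, Fintype.sum_bool,
      Finset.sum_subtype (p := Nd (m := m)) (F := inferInstance) (Finset.univ.filter (Nd (m := m))) (by simp),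
      sub_eq_add_neg, ← Finset.sum_neg_distrib]
    simp [Tau.ev, add_comm]
  rw [h1, Nat.cast_pow, card_curve ζ.2 φ hF, ← h2]
  have h3 := Finset.prod_univ_sum (fun _ : Fin n => (Finset.univ : Finset (Tau m)))
    fun _ τ => (if τ.isRight then -1 else 1 : ℂ) * τ.ev ζ.1 ^ s
  rw [Finset.prod_const, Finset.card_univ, Fintype.card_fin, Fintype.piFinset_univ] at h3
  rw [h3]
  refine Finset.sum_congr rfl fun t _ => ?_
  rw [Finset.prod_mul_distrib, Finset.prod_pow, Finset.prod_ite, Finset.prod_const_one, mul_one,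
    Finset.prod_const]
  congr 1
  split_ifs with ho
  · exact ho.neg_one_pow
  · exact (Nat.not_odd_iff_even.1 ho).neg_one_pow

theorem final_A (p : ℕ) [Fact p.Prime] [CharP k p] (n j : ℕ) :
    ∃ (Z : PowerSeries ℂ) (ρ : ℕ), PowerSeries.constantCoeff Z = 1 ∧
      PowerSeries.derivative ℂ Z =
        Z * PowerSeries.mk (fun s => (npts m n (FiniteField.Extension k p (s + 1)) : ℂ)) ∧
      (∃ P Q : Polynomial ℂ, P.eval ((Nat.card k : ℂ) ^ j)⁻¹ ≠ 0 ∧
        Q.eval ((Nat.card k : ℂ) ^ j)⁻¹ ≠ 0 ∧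
        Z * (Q * (Polynomial.X - Polynomial.C ((Nat.card k : ℂ) ^ j)⁻¹) ^ ρ : Polynomial ℂ) = P) ∧
      Module.rank ℚ (Submodule.span ℚ (Set.range fun M : {M : GM m k (Fin n) // dimM M ≤ j} =>
        fun N : {N : GM m k (Fin n) // dimM N + j ≤ n} => pair M.1 N.1)) = ρ := by
  have hc : (Nat.card k : ℂ) ^ j ≠ 0 := pow_ne_zero _ (Nat.cast_ne_zero.2 Nat.card_pos.ne')
  obtain ⟨Z, h1, h2, h3⟩ := exists_zeta (fun t : Fin n → Tau m => ∏ l, (t l).ev ζ.1)
    (fun t => Odd (Finset.univ.filter fun l => (t l).isRight).card)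
    (fun s => (npts m n (FiniteField.Extension k p (s + 1)) : ℂ))
    (fun s => npts_eq n (algebraMap k (FiniteField.Extension k p (s + 1)))
      (by rw [FiniteField.natCard_extension, Nat.card_eq_fintype_card])) hc
    (fun t ht he => Nat.not_odd_iff_even.2
      (even_of_ev h (i := j) (by rw [he, Nat.card_eq_fintype_card])) ht)
  refine ⟨Z, _, h1, h2, h3, ?_⟩
  rw [rank_eq h n j, Nat.card_eq_fintype_card (α := k)]

end Pool.Agent.Tate
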