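import Pool.Agent.P.MP_2ce3e7_ag.Pts
import Pool.Agent.P.MP_2ce3e7_ag.Chi

/-! Finite reduced schemes. -/

set_option autoImplicit false

noncomputable section

namespace Pool.Agent.Tate

open MvPolynomial

variable {m : ℕ} {K ι : Type} [Field K] [IsAlgClosed K] [Fintype ι] [DecidableEq ι]

/-- the linear forms that cut out the closure of the torus orbit of `x` -/
def ptL (x : ι × Fin 3 → K) (a : ι → Fin 3) (w : ι × Fin 3) : S K ι :=
  X w - C (x w / x (w.1, a w.1)) * X (w.1, a w.1)

omit [IsAlgClosed K] [Fintype ι] [DecidableEq ι] in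
theorem pt_eval_L (x : ι × Fin 3 → K) (a : ι → Fin 3) (w : ι × Fin 3) (z : ι × Fin 3 → K) :
    eval z (ptL x a w) = z w - x w / x (w.1, a w.1) * z (w.1, a w.1) := by
  simp [ptL]

omit [IsAlgClosed K] [Fintype ι] [DecidableEq ι] in
theorem pt_eval_L_tsm {x : ι × Fin 3 → K} {a : ι → Fin 3} (ha : ∀ i, x (i, a i) ≠ 0)
    (w : ι × Fin 3) (l : ι → K) : eval (tsm l x) (ptL x a w) = 0 := by
  rw [pt_eval_L]
  have := ha w.1
  simp only [tsm]
  field_simp
  ring

omit [IsAlgClosed K] [Fintype ι] [DecidableEq ι] in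
theorem pt_eval_L_self {x : ι × Fin 3 → K} {a : ι → Fin 3} (ha : ∀ i, x (i, a i) ≠ 0)
    (w : ι × Fin 3) : eval x (ptL x a w) = 0 := by
  rw [pt_eval_L]
  have := ha w.1
  field_simp
  ring

omit [IsAlgClosed K] [Fintype ι] [DecidableEq ι] in
theorem pt_L_base {x : ι × Fin 3 → K} {a : ι → Fin 3} (ha : ∀ i, x (i, a i) ≠ 0) (i : ι) :
    ptL x a (i, a i) = 0 := by
  simp [ptL, div_self (ha i)]

omit [IsAlgClosed K] [Fintype ι] [DecidableEq ι] in
theorem pt_hg_L (x : ι × Fin 3 → K) (a : ι → Fin 3) (w : ι × Fin 3) : Hg (ptL x a w) (wt w) :=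
  (hg_X w).sub ((hg_X (w.1, a w.1)).C_mul _)

omit [DecidableEq ι] in
/-- a polynomial that vanishes on a torus orbit is a combination of the linear forms -/
theorem pt_mem_span {x : ι × Fin 3 → K} {a : ι → Fin 3} (ha : ∀ i, x (i, a i) ≠ 0) {f : S K ι}
    (hf : ∀ l : ι → K, (∀ i, l i ≠ 0) → eval (tsm l x) f = 0) :
    f ∈ Ideal.span (Set.range (ptL x a)) := by
  set θ : ι × Fin 3 → S K ι := fun w => C (x w / x (w.1, a w.1)) * X (w.1, a w.1) with hθ
  have h1 : ∀ g : S K ι, g - aeval θ g ∈ Ideal.span (Set.range (ptL x a)) := by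
    intro g
    induction g using MvPolynomial.induction_on with
    | C c => simp
    | add p q hp hq =>
      rw [map_add, add_sub_add_comm]
      exact add_mem hp hq
    | mul_X p w hp =>
      have e : p * X w - aeval θ (p * X w) = (p - aeval θ p) * X w + aeval θ p * ptL x a w := by
        rw [map_mul, aeval_X, ptL]
        ring
      rw [e]
      exact add_mem (Ideal.mul_mem_right _ _ hp)
        (Ideal.mul_mem_left _ _ (Ideal.subset_span ⟨w, rfl⟩))
  have h2 : ∀ z : ι × Fin 3 → K,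
      eval z (aeval θ f) = eval (tsm (fun i => z (i, a i) / x (i, a i)) x) f := by
    intro z
    have : ∀ g : S K ι,
        eval z (aeval θ g) = eval (tsm (fun i => z (i, a i) / x (i, a i)) x) g := by
      intro g
      induction g using MvPolynomial.induction_on with
      | C c => simp
      | add p q hp hq => rw [map_add, map_add, map_add, hp, hq]
      | mul_X p w hp =>
        rw [map_mul, map_mul, map_mul, hp, aeval_X, eval_X, hθ]
        simp only [tsm, map_mul, eval_C, eval_X]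
        ring
    exact this f
  have h3 : mono K a * aeval θ f = 0 := by
    refine MvPolynomial.funext fun z => ?_
    rw [map_mul, map_zero, h2]
    by_cases hz : ∀ i, z (i, a i) ≠ 0
    · rw [hf _ fun i => div_ne_zero (hz i) (ha i), mul_zero]
    · push Not at hz
      obtain ⟨i, hi⟩ := hz
      have : eval z (mono K a) = 0 := by
        rw [mono, map_prod]
        exact Finset.prod_eq_zero (Finset.mem_univ i) (by simpa using hi)
      rw [this, zero_mul]
  have h4 : mono K a ≠ 0 := Finset.prod_ne_zero_iff.2 fun i _ => X_ne_zero _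
  have h5 := h1 f
  rwa [(mul_eq_zero.1 h3).resolve_left h4, sub_zero] at h5

omit [IsAlgClosed K] [Fintype ι] in
theorem pt_pderiv_X (x : ι × Fin 3 → K) (v u : ι × Fin 3) :
    eval x (pderiv v (X u : S K ι)) = (Pi.single u (1 : K) : ι × Fin 3 → K) v := by
  by_cases h : u = v
  · subst h
    simp
  · rw [pderiv_X_of_ne h, map_zero, Pi.single_eq_of_ne (Ne.symm h)]

omit [IsAlgClosed K] in
/-- near a reduced point the ideal contains the linear forms -/
theorem pt_local {J : Ideal (S K ι)} {x : ι × Fin 3 → K} {a : ι → Fin 3}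
    (ha : ∀ i, x (i, a i) ≠ 0) (hJ : J ≤ Ideal.span (Set.range (ptL x a)))
    (ht : Tan J x ⊆ TorD x) :
    ∃ s : S K ι, eval x s ≠ 0 ∧ ∀ f ∈ Ideal.span (Set.range (ptL x a)), s * f ∈ J := by
  set P := Ideal.span (Set.range (ptL x a)) with hP
  set 𝔪 : Ideal (S K ι) := RingHom.ker (eval x) with h𝔪
  let g : S K ι →ₗ[K] (ι × Fin 3 → K) :=
    { toFun := fun f w => eval x (pderiv w f)
      map_add' := fun p q => by ext w; simp
      map_smul' := fun c p => by ext w; simp [smul_eq_C_mul] }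
  have hg : ∀ f w, g f w = eval x (pderiv w f) := fun _ _ => rfl
  let T : (ι × Fin 3 → K) → S K ι := fun u => ∑ w, C (u w) * ptL x a w
  have hTP : ∀ u, T u ∈ P := fun u =>
    Ideal.sum_mem _ fun w _ => Ideal.mul_mem_left _ _ (Ideal.subset_span ⟨w, rfl⟩)
  have hgL : ∀ w, g (ptL x a w) =
      Pi.single w 1 - (x w / x (w.1, a w.1)) • Pi.single (w.1, a w.1) 1 := by
    intro w
    ext v
    rw [hg, ptL, map_sub, pderiv_C_mul, map_sub, map_mul, eval_C, pt_pderiv_X, pt_pderiv_X]
    rfl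
  have hTadd : ∀ u v, T (u + v) = T u + T v := fun u v => by
    simp only [T, Pi.add_apply, map_add, add_mul, Finset.sum_add_distrib]
  have hTsm : ∀ (c : K) u, T (c • u) = C c * T u := fun c u => by
    simp only [T, Pi.smul_apply, smul_eq_mul, map_mul, Finset.mul_sum, mul_assoc]
  have hTs : ∀ w, T (Pi.single w 1) = ptL x a w := fun w => by
    simp only [T]
    rw [Finset.sum_eq_single w (fun v _ hv => by simp [Pi.single_eq_of_ne hv]) (by simp)]
    simp
  have hTL : ∀ w, T (g (ptL x a w)) = ptL x a w := fun w => by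
    rw [hgL, sub_eq_add_neg, ← neg_smul, hTadd, hTsm, hTs, hTs, pt_L_base ha, mul_zero, add_zero]
  have key : ∀ f ∈ P, eval x f = 0 ∧ f - T (g f) ∈ 𝔪 • P := by
    intro f hf
    induction hf using Submodule.span_induction with
    | mem f hf =>
      obtain ⟨w, rfl⟩ := hf
      exact ⟨pt_eval_L_self ha w, by rw [hTL, sub_self]; exact zero_mem _⟩
    | zero =>
      refine ⟨map_zero _, ?_⟩
      rw [map_zero, ← zero_smul K (0 : ι × Fin 3 → K), hTsm]
      simp
    | add p q _ _ hp hq =>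
      refine ⟨by rw [map_add, hp.1, hq.1, add_zero], ?_⟩
      rw [map_add, hTadd, add_sub_add_comm]
      exact add_mem hp.2 hq.2
    | smul c p _ hp =>
      rw [smul_eq_mul]
      refine ⟨by rw [map_mul, hp.1, mul_zero], ?_⟩
      have e1 : g (c * p) = eval x c • g p := by
        ext w
        rw [hg, Derivation.leibniz]
        simp [hp.1, hg]
      have e2 : c * p - T (g (c * p)) = c * (p - T (g p)) + (c - C (eval x c)) * T (g p) := by
        rw [e1, hTsm]
        ring
      rw [e2]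
      refine add_mem (Ideal.mul_mem_left _ _ hp.2) (Submodule.smul_mem_smul ?_ (hTP _))
      simp [h𝔪, RingHom.mem_ker]
  have hD : ∀ w, ∃ f ∈ J, g f = g (ptL x a w) := by
    intro w
    by_contra hn
    have hn' : g (ptL x a w) ∉ (J.restrictScalars K).map g := by
      rintro ⟨f, hf, e⟩
      exact hn ⟨f, hf, e⟩
    obtain ⟨φ, h1, h2⟩ := Submodule.exists_dual_map_eq_bot_of_notMem hn' inferInstance
    have hφ : ∀ f, dif f x (fun v => φ (Pi.single v 1)) = φ (g f) := by
      intro f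
      rw [LinearMap.pi_apply_eq_sum_univ φ (g f), dif]
      refine Finset.sum_congr rfl fun v _ => ?_
      rw [smul_eq_mul, hg]
      congr 2
      ext u
      simp [Pi.single_apply, eq_comm]
    obtain ⟨l, hl⟩ := ht (show (fun v => φ (Pi.single v 1)) ∈ Tan J x from fun f hf => by
      rw [hφ, ← Submodule.mem_bot K, ← h2]
      exact Submodule.mem_map_of_mem (Submodule.mem_map_of_mem hf))
    apply h1
    rw [hgL, map_sub, map_smul, congrFun hl w, congrFun hl (w.1, a w.1), smul_eq_mul,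
      ← pt_eval_L, pt_eval_L_tsm ha]
  have hle : P ≤ J ⊔ 𝔪 • P := by
    refine Ideal.span_le.2 ?_
    rintro _ ⟨w, rfl⟩
    obtain ⟨f, hf, e⟩ := hD w
    have h1 := (key f (hJ hf)).2
    rw [e, hTL] at h1
    have : ptL x a w = f - (f - ptL x a w) := by ring
    rw [SetLike.mem_coe, this]
    exact sub_mem (Submodule.mem_sup_left hf) (Submodule.mem_sup_right h1)
  obtain ⟨s, hs1, hs2⟩ := Submodule.exists_sub_one_mem_and_smul_le_of_fg_of_le_sup
    (Submodule.fg_span (Set.finite_range _)) le_rfl hle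
  refine ⟨s, ?_, fun f hf => hs2 (Submodule.smul_mem_pointwise_smul f s P hf)⟩
  have : eval x (s - 1) = 0 := hs1
  rw [map_sub, map_one, sub_eq_zero] at this
  rw [this]
  exact one_ne_zero

omit [IsAlgClosed K] in
theorem pt_pad {x : ι × Fin 3 → K} (hx : Nz x) {d : ι → ℤ} (hd : 0 ≤ d) :
    ∃ f : S K ι, Hg f d ∧ eval x f ≠ 0 := by
  choose a ha using hx
  refine ⟨∏ i, X (i, a i) ^ (d i).toNat, ?_, ?_⟩
  · have h := IsWeightedHomogeneous.prod Finset.univ
      (fun i => (X (i, a i) : S K ι) ^ (d i).toNat) (fun i => (d i).toNat • wt (i, a i))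
      (w := wt) fun i _ => (hg_X (i, a i)).pow _
    have e : ∑ i, (d i).toNat • wt (i, a i) = d := by
      ext j
      rw [Finset.sum_apply, Finset.sum_eq_single j (fun i _ hi => by simp [wt_apply, hi.symm])
        (by simp)]
      simp [wt_apply, Int.toNat_of_nonneg (hd j)]
    rwa [e] at h
  · rw [map_prod]
    exact Finset.prod_ne_zero_iff.2 fun i _ => by simp [ha i]

omit [IsAlgClosed K] in
theorem pt_sep {V : Set (Pt K ι)} (hV : V.Finite) (y : Pt K ι) :
    ∀ᶠ d in Filter.atTop, ∃ f : S K ι, Hg f d ∧ eval (rep y) f ≠ 0 ∧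
      ∀ y' ∈ V, y' ≠ y → eval (rep y') f = 0 := by
  classical
  have h1 : ∀ y' : Pt K ι, ∃ (f : S K ι) (e : ι → ℤ), Hg f e ∧ eval (rep y) f ≠ 0 ∧
      (y' ≠ y → eval (rep y') f = 0) := by
    intro y'
    by_cases hy : y' = y
    · exact ⟨1, 0, isWeightedHomogeneous_one _ _, by simp, fun h => absurd hy h⟩
    choose a ha using nz_rep y'
    by_contra hn
    apply hy
    refine (pt_eq (l := fun i => rep y (i, a i) / rep y' (i, a i)) (funext fun w => ?_)).symm
    have : eval (rep y) (ptL (rep y') a w) = 0 := by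
      by_contra h0
      exact hn ⟨_, _, pt_hg_L _ a w, h0, fun _ => pt_eval_L_self ha w⟩
    rw [pt_eval_L, sub_eq_zero] at this
    rw [this, tsm]
    ring
  choose f e hf h0 hz using h1
  filter_upwards [Filter.eventually_ge_atTop (∑ y' ∈ hV.toFinset, e y')] with d hd
  obtain ⟨q, hq, hq0⟩ := pt_pad (nz_rep y) (sub_nonneg.2 hd)
  refine ⟨q * ∏ y' ∈ hV.toFinset, f y', ?_, ?_, fun y' hy' hne => ?_⟩
  · have h := hq.mul (IsWeightedHomogeneous.prod hV.toFinset f e (w := wt) fun y' _ => hf y')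
    rwa [sub_add_cancel] at h
  · rw [map_mul, map_prod]
    exact mul_ne_zero hq0 (Finset.prod_ne_zero_iff.2 fun y' _ => h0 y')
  · rw [map_mul, map_prod, Finset.prod_eq_zero (hV.mem_toFinset.2 hy') (hz y' hne), mul_zero]

omit [IsAlgClosed K] in
theorem pt_rank {V : Set (Pt K ι)} (hV : V.Finite) {I : Ideal (S K ι)}
    (hI : ∀ f d, Hg f d → (f ∈ I ↔ ∀ y ∈ V, eval (rep y) f = 0)) :
    ∀ᶠ d in Filter.atTop, V.ncard + Module.finrank K
      ↥(weightedHomogeneousSubmodule K (wt (ι := ι)) d ⊓ I.restrictScalars K) =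
      Module.finrank K (weightedHomogeneousSubmodule K (wt (ι := ι)) d) := by
  classical
  have := hV.fintype
  filter_upwards [(Filter.eventually_all_finite hV).2 fun y _ => pt_sep hV y] with d hd
  have := finite_hg (k := K) d
  set W := weightedHomogeneousSubmodule K (wt (ι := ι)) d with hW
  let E : W →ₗ[K] (V → K) :=
    { toFun := fun f y => eval (rep y.1) f.1
      map_add' := fun p q => by ext y; simp
      map_smul' := fun c p => by ext y; simp [smul_eq_C_mul] }
  have hE : ∀ f y, E f y = eval (rep y.1) f.1 := fun _ _ => rfl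
  have h1 : LinearMap.range E = ⊤ := by
    rw [eq_top_iff, ← (Pi.basisFun K V).span_eq, Submodule.span_le]
    rintro _ ⟨y, rfl⟩
    obtain ⟨f, hf, h0, hz⟩ := hd y.1 y.2
    refine ⟨(eval (rep y.1) f)⁻¹ • ⟨f, hf⟩, ?_⟩
    ext y'
    rw [map_smul, Pi.smul_apply, hE, Pi.basisFun_apply, smul_eq_mul]
    by_cases hy : y' = y
    · subst hy
      simp [inv_mul_cancel₀ h0]
    · rw [hz y'.1 y'.2 fun e => hy (Subtype.ext e), mul_zero, Pi.single_eq_of_ne hy]
  have h2 : LinearMap.ker E = (W ⊓ I.restrictScalars K).comap W.subtype := by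
    ext f
    rw [LinearMap.mem_ker, Submodule.mem_comap, Submodule.mem_inf, Submodule.restrictScalars_mem,
      Submodule.subtype_apply, hI f.1 d f.2]
    exact ⟨fun h => ⟨f.2, fun y hy => congrFun h ⟨y, hy⟩⟩, fun h => funext fun y => h.2 y.1 y.2⟩
  have h3 := LinearMap.finrank_range_add_finrank_ker E
  rw [h1, h2, finrank_top, Module.finrank_fintype_fun_eq_card,
    (Submodule.comapSubtypeEquivOfLe inf_le_left).finrank_eq] at h3
  rw [← h3, Set.ncard_eq_toFinset_card', Set.toFinset_card]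

theorem hilb_points {J : Ideal (S K ι)} {n : ι → ℤ} {M : GM m K ι} {x : M.M} (h : IsCyc J n M x)
    (hfin : (VV J).Finite) (ht : ∀ y ∈ VV J, Tan J (rep y) ⊆ TorD (rep y)) :
    ∀ᶠ d in Filter.atTop, hilb M d = (VV J).ncard := by
  set A : Set (ι × Fin 3 → K) :=
    {z | ∃ y ∈ VV J, ∃ l : ι → K, (∀ i, l i ≠ 0) ∧ z = tsm l (rep y)} with hA
  set I := vanishingIdeal K A with hI
  have hmem : ∀ f, f ∈ I ↔ ∀ z ∈ A, eval z f = 0 := fun f => by
    rw [hI, mem_vanishingIdeal_iff]
    simp only [aeval_eq_eval]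
  have hAt : ∀ l : ι → K, (∀ i, l i ≠ 0) → ∀ z ∈ A, tsm l z ∈ A := by
    rintro l hl _ ⟨y, hy, l', hl', rfl⟩
    exact ⟨y, hy, l * l', fun i => mul_ne_zero (hl i) (hl' i), funext fun v => by
      simp [tsm, mul_assoc]⟩
  have hIg : GrI I := grI_vanishing hAt
  have hJI : J ≤ I := fun f hf => (hmem f).2 (by
    rintro _ ⟨y, hy, l, hl, rfl⟩
    exact (h.grI.tsm_mem hl).2 hy f hf)
  have hhom : ∀ f d, Hg f d → (f ∈ I ↔ ∀ y ∈ VV J, eval (rep y) f = 0) := by
    intro f d hf
    rw [hmem]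
    refine ⟨fun H y hy => H _ ⟨y, hy, 1, fun _ => one_ne_zero, funext fun v => by simp [tsm]⟩, ?_⟩
    rintro H _ ⟨y, hy, l, -, rfl⟩
    rw [eval_tsm hf, H y hy, mul_zero]
  obtain ⟨N, y0, hN⟩ := exists_cyc hIg (h.Fer_le.trans hJI) n
  obtain ⟨p, hp1, hp2, -⟩ := h.exists_hom hN hJI
  have hses : SES (M.subι _ p.gr_ker) p :=
    ⟨Subtype.val_injective, hp2, fun z => ⟨fun hz => ⟨⟨z, hz⟩, rfl⟩, by
      rintro ⟨z, rfl⟩
      exact z.2⟩⟩
  have hirr : Irr (M.sub _ p.gr_ker).ann := by
    refine irr_iff.2 fun z hz hnz => ?_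
    have hs : ∃ s : S K ι, eval z s ≠ 0 ∧ ∀ f ∈ I, s * f ∈ J := by
      by_cases hzJ : z ∈ ZS J
      · obtain ⟨y, l, hl, hy⟩ := hnz.exists_pt
        have hyV : y ∈ VV J := by
          change rep y ∈ ZS J
          rw [hy]
          exact (h.grI.tsm_mem hl).2 hzJ
        have hzA : z ∈ A := ⟨y, hyV, l⁻¹, fun i => inv_ne_zero (hl i), funext fun v => by
          rw [hy]
          simp [tsm, hl v.1]⟩
        choose a ha using hnz
        have hIP : I ≤ Ideal.span (Set.range (ptL z a)) := fun f hf =>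
          pt_mem_span ha fun l' hl' => (hmem f).1 hf _ (hAt l' hl' z hzA)
        have htz : Tan J z ⊆ TorD z := by
          intro v hv
          have h1 := ht y hyV (hy ▸ (h.grI.tan_tsm hl).2 hv)
          obtain ⟨l', e⟩ := h1
          refine ⟨l', funext fun w => mul_left_cancel₀ (hl w.1) ?_⟩
          have := congrFun e w
          rw [hy] at this
          simp only [tsm] at this ⊢
          rw [this]
          ring
        obtain ⟨s, hs0, hs⟩ := pt_local ha (hJI.trans hIP) htz
        exact ⟨s, hs0, fun f hf => hs f (hIP hf)⟩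
      · obtain ⟨s, hs⟩ := not_forall.1 hzJ
        obtain ⟨hsJ, hs0⟩ := Classical.not_imp.1 hs
        exact ⟨s, hs0, fun f _ => Ideal.mul_mem_right _ _ hsJ⟩
    obtain ⟨s, hs0, hs⟩ := hs
    refine hs0 (hz s (GM.mem_ann.2 fun u => Subtype.ext ?_))
    obtain ⟨f, hf⟩ := h.gen u.1
    have hu : p.f u.1 = 0 := u.2
    rw [hf, map_smul, hp1, hN.ann] at hu
    change s • u.1 = 0
    rw [hf, smul_smul, h.ann]
    exact hs f hu
  have h0 := (tors_iff_hilb _).1 ((tors_iff_irr _).2 hirr)
  have h1 := (Filter.tendsto_atTop_add_const_right Filter.atTop n Filter.tendsto_id).eventually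
    (pt_rank hfin hhom)
  filter_upwards [h0, h1] with d hd0 hd1
  have h2 := hN.hilb_eq d
  have h3 := hilb_ses hses d
  simp only [id] at hd1
  omega

theorem coef_points (hm : m ≠ 0) {J : Ideal (S K ι)} (hJ : GrI J) (hF : Fer m K ι ≤ J)
    (hfin : (VV J).Finite) (ht : ∀ y ∈ VV J, Tan J (rep y) ⊆ TorD (rep y)) (n : ι → ℤ) :
    coef (cy m J n) = Pi.single ∅ ((VV J).ncard : ℂ) := by
  obtain ⟨M, x, h, e⟩ := exists_cy hJ hF n
  rw [e]
  refine (aff_coef hm M).uniq ((aff_const ((VV J).ncard : ℂ)).congr ?_)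
  filter_upwards [hilb_points h hfin ht] with d hd
  rw [hd]

end Pool.Agent.Tate
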