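import Pool.Agent.P.MP_2ce3e7_ag.FixC
import Pool.Agent.P.MP_2ce3e7_ag.PT
import Pool.Agent.P.MP_2ce3e7_ag.Pair

/-! The trace of a twisted Frobenius map is the number of fixed points. -/

set_option autoImplicit false

noncomputable section

namespace Pool.Agent.Tate

open MvPolynomial

section Aux
variable {m : ℕ} {k ι κ A : Type} [Field k] [Fintype ι] [Fintype κ]

theorem trfix_cls_eq {N Q Q' : GM m k ι} (f : Hom N Q) (f' : Hom N Q')
    (hf : Function.Surjective f.f) (hf' : Function.Surjective f'.f)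
    (h : LinearMap.ker f.f = LinearMap.ker f'.f) : cls Q = cls Q' := by
  have h1 := cls_surj f hf
  have h2 := cls_surj f' hf'
  have key : ∀ (W W' : Submodule (S k ι) N.M) (a : Gr N W) (a' : Gr N W'), W = W' →
      cls (N.sub W a) = cls (N.sub W' a') := by
    rintro W W' a a' rfl
    rfl
  rw [key _ _ f.gr_ker f'.gr_ker h] at h1
  exact add_left_cancel (h1.symm.trans h2)

theorem trfix_mem_smul [Fintype A] {R V : Type} [CommRing R] [AddCommGroup V] [Module R V]
    (g : A → R) (x : V) :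
    x ∈ Ideal.span (Set.range g) • (⊤ : Submodule R V) ↔ ∃ y : A → V, x = ∑ a, g a • y a := by
  classical
  constructor
  · intro hx
    refine Submodule.smul_induction_on hx ?_ ?_
    · intro r hr n _
      obtain ⟨c, rfl⟩ := (Ideal.mem_span_range_iff_exists_fun).1 hr
      refine ⟨fun a => c a • n, ?_⟩
      rw [Finset.sum_smul]
      exact Finset.sum_congr rfl fun a _ => by rw [mul_comm, mul_smul]
    · rintro _ _ ⟨y, rfl⟩ ⟨y', rfl⟩
      exact ⟨y + y', by simp [Finset.sum_add_distrib]⟩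
  · rintro ⟨y, rfl⟩
    exact Submodule.sum_mem _ fun a _ =>
      Submodule.smul_mem_smul (Ideal.subset_span ⟨a, rfl⟩) Submodule.mem_top

omit [Fintype ι] [Fintype κ] in
theorem trfix_pull_mem [Fintype A] {D : PD m k ι κ} {M : GM m k κ} {N : GM m k ι}
    {j : N.M →ₗ[k] M.M} (h : IsPull D M N j) {g : A → S k ι} {δ : ι → ℤ} (hg : ∀ a, Hg (g a) δ)
    (x : N.M) : j x ∈ Ideal.span (Set.range fun a => D.φ (g a)) • (⊤ : Submodule (S k κ) M.M) ↔
      x ∈ Ideal.span (Set.range g) • (⊤ : Submodule (S k ι) N.M) := by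
  constructor
  · intro hx
    obtain ⟨y, hy⟩ := (trfix_mem_smul _ _).1 hx
    refine N.mem_of_π
      (W := (Ideal.span (Set.range g) • (⊤ : Submodule (S k ι) N.M)).toAddSubgroup) fun e => ?_
    have hz : ∀ a, ∃ z, j z = M.π (D.val (e - δ)) (y a) := fun a => h.surj _ _
    choose z hz using hz
    refine (trfix_mem_smul _ _).2 ⟨z, h.inj ?_⟩
    have he : D.val e = D.val (e - δ) + (D.val δ - D.o) := by
      rw [← D.val_add, sub_add_cancel]
    rw [h.π, hy, map_sum, map_sum]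
    refine Finset.sum_congr rfl fun a _ => ?_
    rw [h.smul, hz, he, M.π_smul (D.hg_φ (hg a))]
  · intro hx
    obtain ⟨y, rfl⟩ := (trfix_mem_smul _ _).1 hx
    exact (trfix_mem_smul _ _).2 ⟨fun a => j (y a), by simp only [map_sum, h.smul]⟩

/-- restriction of the pull-back of a prime cyclic module to a divisor -/
theorem trfix_chi [DecidableEq ι] [DecidableEq κ] [Fintype A] [DecidableEq A] (hm : (m : k) ≠ 0)
    {D : PD m k ι κ} (hs : Function.Surjective D.τ) (ho : D.o = 0) {g : A → S k ι} {δ : ι → ℤ}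
    (hg : Inv m g δ) {P : Ideal (S k κ)} (hG : GrI P) (hP : P.IsPrime) (hF : Fer m k κ ≤ P)
    (hb : ∃ b, D.φ (g b) ∉ P) (n : κ → ℤ) :
    chi (pullG D (cy m P n) - Lg m g δ (pullG D (cy m P n))) =
      chi (cy m (P ⊔ Ideal.span (Set.range fun a => D.φ (g a))) n) := by
  have hm0 : m ≠ 0 := by rintro rfl; exact hm Nat.cast_zero
  obtain ⟨M, x, hM, hc⟩ := exists_cy (m := m) hG hF n
  obtain ⟨N, j, hN⟩ := exists_isPull D M
  obtain ⟨Q, K, f, hf, hker, hcl, hK1, hK2⟩ := L2 hm hg N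
  have hK : cls K = 0 := by
    refine cls_irr (Irr.mono hg.suff (sup_le (Ideal.span_le.2 ?_) K.Fer_le_ann))
    rintro _ ⟨u, hu, a, rfl⟩
    have := hK2 1 (fun y hy => ?_) u hu a
    · rwa [one_mul] at this
    · obtain ⟨b, hb⟩ := hb
      obtain ⟨r, hr⟩ := hM.gen (j y)
      have h1 : (D.φ (g b) * r) • x = 0 := by
        rw [mul_smul, ← hr, ← hN.smul, hy, map_zero]
      have h2 : r ∈ P := (hP.mem_or_mem ((hM.ann _).1 h1)).resolve_left hb
      rw [one_smul]
      exact hN.inj (by rw [hr, (hM.ann _).2 h2, map_zero])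
  have hJ : GrI (Ideal.span (Set.range fun a => D.φ (g a))) :=
    grW_span (by rintro _ ⟨a, rfl⟩; exact ⟨_, D.hg_φ (hg.hom a)⟩)
  have hW := gr_smul_top M hJ
  obtain ⟨N', j', hN'⟩ := exists_isPull D (M.quo _ hW)
  obtain ⟨f', hf1, hf2, -⟩ := hN.exists_hom hN' (M.quop _ hW)
  have hsur : Function.Surjective (M.quop _ hW).f := Submodule.mkQ_surjective _
  have hz : ∀ y, (M.quop _ hW).f y = 0 ↔
      y ∈ Ideal.span (Set.range fun a => D.φ (g a)) • (⊤ : Submodule (S k κ) M.M) :=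
    fun y => Submodule.Quotient.mk_eq_zero _
  have hQ : cls Q = cls N' := by
    refine trfix_cls_eq f f' hf (hf2 hsur) (Submodule.ext fun y => ?_)
    rw [LinearMap.mem_ker, LinearMap.mem_ker, hker, ← trfix_pull_mem hN hg.hom, ← hz, ← hf1]
    exact ⟨fun h => hN'.inj (by rw [h, map_zero]), fun h => by rw [h, map_zero]⟩
  rw [hc, hN.pullG_cls hs, hcl, hK, sub_zero, hQ, ← hN'.pullG_cls hs, chi_pull hm0 hs ho,
    (hM.image _ hsur hz).cls_eq]

end Aux

section Lin
variable {K : Type} [Field K]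

theorem trfix_par {x w : Fin 3 → K} (hx : x ≠ 0)
    (h : ∀ b : Fin 3, x (b + 1) * w (b + 2) - x (b + 2) * w (b + 1) = 0) :
    ∃ l : K, ∀ j, w j = l * x j := by
  have h0 : x 1 * w 2 - x 2 * w 1 = 0 := h 0
  have h1 : x 2 * w 0 - x 0 * w 2 = 0 := h 1
  have h2 : x 0 * w 1 - x 1 * w 0 = 0 := h 2
  obtain ⟨i, hi⟩ := Function.ne_iff.1 hx
  refine ⟨w i / x i, fun j => ?_⟩
  have hi' : x i ≠ 0 := hi
  rw [div_mul_eq_mul_div, eq_div_iff hi']
  fin_cases i <;> fin_cases j <;> simp only [Fin.zero_eta, Fin.mk_one, Fin.reduceFinMk] <;>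
    first
    | rfl
    | linear_combination h0
    | linear_combination -h0
    | linear_combination h1
    | linear_combination -h1
    | linear_combination h2
    | linear_combination -h2

theorem trfix_two {n : ℕ} {a b v w e : K} (he : e ≠ 0) (hab : a ≠ 0 ∨ b ≠ 0)
    (h1 : a ^ (n + 1) = e * b ^ (n + 1)) (h2 : a ^ n * v = e * (b ^ n * w)) : a * w = b * v := by
  have hb : b ≠ 0 := by
    rintro rfl
    rw [zero_pow (Nat.succ_ne_zero n), mul_zero] at h1
    exact hab.elim (fun h => h (pow_eq_zero_iff (Nat.succ_ne_zero n) |>.1 h1)) fun h => h rfl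
  have h3 : e * b ^ n * (a * w - b * v) = 0 := by
    linear_combination v * h1 - a * h2
  exact sub_eq_zero.1 ((mul_eq_zero.1 h3).resolve_left (mul_ne_zero he (pow_ne_zero _ hb)))

theorem trfix_tan {n : ℕ} {x v : Fin 3 → K} (hx : x ≠ 0) (hF : OnF (n + 1) x)
    (hv : x 0 ^ n * v 0 + x 1 ^ n * v 1 - x 2 ^ n * v 2 = 0) (l : Fin 3) (h1 : x l = 0)
    (h2 : v l = 0) : ∃ c : K, ∀ j, v j = c * x j := by
  have hne : x 0 ≠ 0 ∨ x 1 ≠ 0 ∨ x 2 ≠ 0 := by
    by_contra hc
    push Not at hc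
    exact hx (funext fun j => by fin_cases j <;> simp [hc.1, hc.2.1, hc.2.2])
  unfold OnF at hF
  refine trfix_par hx ?_
  suffices hh : x 1 * v 2 - x 2 * v 1 = 0 ∧ x 2 * v 0 - x 0 * v 2 = 0 ∧
      x 0 * v 1 - x 1 * v 0 = 0 by
    intro b
    fin_cases b
    exacts [hh.1, hh.2.1, hh.2.2]
  fin_cases l
  · have h1' : x 0 = 0 := h1
    have h2' : v 0 = 0 := h2
    rw [h1', zero_pow (Nat.succ_ne_zero n)] at hF
    rw [h2'] at hv
    have := trfix_two (n := n) (a := x 1) (b := x 2) (v := v 1) (w := v 2) one_ne_zero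
      (by tauto) (by linear_combination hF) (by linear_combination hv)
    refine ⟨by linear_combination this, by rw [h1', h2']; ring, by rw [h1', h2']; ring⟩
  · have h1' : x 1 = 0 := h1
    have h2' : v 1 = 0 := h2
    rw [h1', zero_pow (Nat.succ_ne_zero n)] at hF
    rw [h2'] at hv
    have := trfix_two (n := n) (a := x 0) (b := x 2) (v := v 0) (w := v 2) one_ne_zero
      (by tauto) (by linear_combination hF) (by linear_combination hv)
    refine ⟨by rw [h1', h2']; ring, by linear_combination -this, by rw [h1', h2']; ring⟩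
  · have h1' : x 2 = 0 := h1
    have h2' : v 2 = 0 := h2
    rw [h1', zero_pow (Nat.succ_ne_zero n)] at hF
    rw [h2'] at hv
    have := trfix_two (n := n) (a := x 0) (b := x 1) (v := v 0) (w := v 1)
      (neg_ne_zero.2 one_ne_zero) (by tauto) (by linear_combination hF)
      (by linear_combination hv)
    refine ⟨by rw [h1', h2']; ring, by rw [h1', h2']; ring, by linear_combination this⟩

theorem trfix_inf [IsAlgClosed K] {m : ℕ} (hm : m ≠ 0) :
    {x : Projectivization K (Fin 3 → K) | OnF m x.rep}.Infinite := by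
  have hz : ∀ t : K, ∃ z : K, z ^ m = t ^ m + 1 := fun t =>
    IsAlgClosed.exists_pow_nat_eq _ (Nat.pos_of_ne_zero hm)
  choose z hz using hz
  have hne : ∀ t : K, (![t, 1, z t] : Fin 3 → K) ≠ 0 := fun t h => by
    simpa using congrFun h 1
  refine Set.infinite_of_injective_forall_mem
    (f := fun t => Projectivization.mk K ![t, 1, z t] (hne t)) (fun t t' h => ?_) fun t => ?_
  · obtain ⟨a, ha⟩ := (Projectivization.mk_eq_mk_iff' K _ _ _ _).1 h
    have h0 := congrFun ha 0
    have h1 := congrFun ha 1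
    simp at h0 h1
    rw [← h0, h1, one_mul]
  · obtain ⟨a, ha⟩ := Projectivization.exists_smul_eq_mk_rep K ![t, 1, z t] (hne t)
    change OnF m _
    rw [← ha]
    unfold OnF
    simp only [Pi.smul_apply, Units.smul_def, smul_eq_mul, mul_pow]
    simp only [Matrix.cons_val_zero, Matrix.cons_val_one, Matrix.cons_val]
    rw [hz]
    ring

theorem trfix_dif_sub {σ : Type} [Fintype σ] (f g : MvPolynomial σ K) (x v : σ → K) :
    dif (f - g) x v = dif f x v - dif g x v := by
  rw [eq_sub_iff_add_eq, ← dif_add, sub_add_cancel]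

theorem trfix_diag {m : ℕ} {x : Fin 3 → K} (hx : OnF m x) :
    (fun v : (Unit ⊕ Unit) × Fin 3 => x v.2) ∈ ZS (PD0 m K) := by
  intro f hf
  have h1 : rn (fun _ => ()) f ∈ Fer m K Unit :=
    core_le (w := wt) ((Fer m K Unit).comap (rn fun _ => ())) hf
  have h2 : (fun v : Unit × Fin 3 => x v.2) ∈ ZS (Fer m K Unit) := mem_ZS_Fer.2 fun _ => hx
  have h3 := h2 _ h1
  rw [rn, eval_rename] at h3
  exact h3

end Lin

variable {m : ℕ} [NeZero m] {K : Type} [Field K] [IsAlgClosed K] [NeZero (m : K)] (ζ : Rt m K)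
  (p : ℕ) [Fact p.Prime] [CharP K p]

/-- the twisted Frobenius map -/
def trfixD {ι : Type} (g : ι → Fin 3 → ZMod m) (s : ι → ℕ) : PD m K ι ι where
  τ := id
  inj := Function.injective_id
  c := c3 ζ g
  c_ne := c3_ne ζ g
  q i := p ^ s i
  q_pos _ := pow_pos (Fact.out : p.Prime).pos _
  o := 0
  fer i := by
    have h : phi id (c3 ζ g) (fun i => p ^ s i) = (frD m K p s).φ.comp (twD ζ g).φ := by
      ext1 v
      simp [phi, PD.φ, frD, twD]
    rw [h]
    exact (frD m K p s).φ_mem_Fer ((twD ζ g).φ_mem_Fer (fer_mem i))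

omit [IsAlgClosed K] [NeZero (m : K)] in
theorem trfix_pull {ι : Type} [Fintype ι] (g : ι → Fin 3 → ZMod m) (s : ι → ℕ) (x : G m K ι) :
    tw3 ζ g (fr p s x) = pullG (trfixD ζ p g s) x := by
  refine pullG_comp (D := frD m K p s) (D' := twD ζ g) Function.surjective_id
    Function.surjective_id Function.surjective_id (fun v => ?_) (fun e => ?_) x
  · simp [phi, PD.φ, frD, twD, trfixD]
  · funext i
    have h1 := (trfixD ζ p g s).val_τ e i
    have h2 := (frD m K p s).val_τ ((twD ζ g).val e) i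
    have h3 := (twD ζ g).val_τ e i
    change (trfixD ζ p g s).val e i = _ at h1
    change (frD m K p s).val _ i = _ at h2
    change (twD ζ g).val e i = _ at h3
    rw [h1, h2, h3]
    simp [frD, twD, trfixD]

omit [IsAlgClosed K] [NeZero (m : K)] in
theorem trfix_φ (g : Fin 3 → ZMod m) (s : ℕ) (b : Fin 3) :
    (trfixD ζ p (Pi.single (Sum.inl ()) g) (Pi.single (Sum.inl ()) s)).φ
      (minor K (Sum.inl ()) (Sum.inr ()) b : S K (Unit ⊕ Unit)) =
      C (ζ.1 ^ (g (b + 1)).val) * X (Sum.inl (), b + 1) ^ p ^ s * X (Sum.inr (), b + 2) -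
      C (ζ.1 ^ (g (b + 2)).val) * X (Sum.inl (), b + 2) ^ p ^ s * X (Sum.inr (), b + 1) := by
  simp [minor, phi, PD.φ, trfixD, c3]

omit [IsAlgClosed K] [NeZero (m : K)] [Fact p.Prime] in
/-- the tangent space at a fixed point -/
theorem trfix_tangent (hm : (m : K) ≠ 0) (g : Fin 3 → ZMod m) (s : ℕ)
    (h : s ≠ 0 ∨ ∃ j j', g j ≠ g j') {x v w : Fin 3 → K} (hx : x ≠ 0) (hF : OnF m x) {l : K}
    (hl : ∀ j, ζ.1 ^ (g j).val * x j ^ p ^ s = l * x j)
    (h1 : ∀ b : Fin 3, x (b + 1) * (w (b + 2) - v (b + 2)) - x (b + 2) * (w (b + 1) - v (b + 1)) = 0)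
    (h2 : ∀ b : Fin 3, x (b + 1) * (l * w (b + 2) - ζ.1 ^ (g (b + 2)).val *
        ((p ^ s : ℕ) * x (b + 2) ^ (p ^ s - 1) * v (b + 2))) -
      x (b + 2) * (l * w (b + 1) - ζ.1 ^ (g (b + 1)).val *
        ((p ^ s : ℕ) * x (b + 1) ^ (p ^ s - 1) * v (b + 1))) = 0)
    (h3 : m * x 0 ^ (m - 1) * v 0 + m * x 1 ^ (m - 1) * v 1 - m * x 2 ^ (m - 1) * v 2 = 0) :
    ∃ c c' : K, (∀ j, v j = c * x j) ∧ ∀ j, w j = c' * x j := by
  have hζ : ζ.1 ≠ 0 := ζ.2.ne_zero (NeZero.ne m)
  obtain ⟨i, hi⟩ := Function.ne_iff.1 hx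
  have hi' : x i ≠ 0 := hi
  have hl0 : l ≠ 0 := by
    rintro rfl
    have := hl i
    rw [zero_mul] at this
    exact mul_ne_zero (pow_ne_zero _ hζ) (pow_ne_zero _ hi') this
  obtain ⟨a, ha⟩ := trfix_par (w := fun j => w j - v j) hx h1
  obtain ⟨a', ha'⟩ := trfix_par (w := fun j => l * w j - ζ.1 ^ (g j).val *
    ((p ^ s : ℕ) * x j ^ (p ^ s - 1) * v j)) hx h2
  suffices hh : ∃ c : K, ∀ j, v j = c * x j by
    obtain ⟨c, hc⟩ := hh
    exact ⟨c, c + a, hc, fun j => by linear_combination ha j + hc j⟩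
  rcases eq_or_ne s 0 with rfl | hs
  · obtain ⟨j, j', hj⟩ := h.resolve_left (not_not.2 rfl)
    simp only [pow_zero, pow_one, Nat.cast_one, Nat.sub_self, one_mul] at ha' hl
    have hb : ∀ t, (l - ζ.1 ^ (g t).val) * v t = (a' - l * a) * x t := fun t => by
      linear_combination ha' t - l * ha t
    have hb0 : a' - l * a = 0 := by
      have h4 : ζ.1 ^ (g i).val = l := mul_right_cancel₀ hi' (hl i)
      have h5 := hb i
      rw [h4, sub_self, zero_mul] at h5
      exact (mul_eq_zero.1 h5.symm).resolve_right hi'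
    obtain ⟨t, ht⟩ : ∃ t, ζ.1 ^ (g t).val ≠ l := by
      by_contra hc
      push Not at hc
      exact hj (ZMod.val_injective m
        (ζ.2.pow_inj (ZMod.val_lt _) (ZMod.val_lt _) ((hc j).trans (hc j').symm)))
    have hx0 : x t = 0 := by
      by_contra hc
      exact ht (mul_right_cancel₀ hc (hl t))
    have hv0 : v t = 0 := by
      have h5 := hb t
      rw [hb0, zero_mul] at h5
      exact (mul_eq_zero.1 h5).resolve_left (sub_ne_zero.2 ht.symm)
    obtain ⟨n, hn⟩ := Nat.exists_eq_succ_of_ne_zero (NeZero.ne m)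
    have hn1 : m - 1 = n := by omega
    rw [hn1] at h3
    refine trfix_tan (n := n) hx (by rw [hn] at hF; exact hF) ?_ t hx0 hv0
    exact mul_left_cancel₀ hm (by linear_combination h3)
  · have hp : ((p ^ s : ℕ) : K) = 0 := by
      rw [Nat.cast_pow, CharP.cast_eq_zero, zero_pow hs]
    refine ⟨a' / l - a, fun j => ?_⟩
    have h4 := ha' j
    rw [hp] at h4
    field_simp
    linear_combination h4 - l * ha j

theorem tr_fix (g : Fin 3 → ZMod m) (s : ℕ) (h : s ≠ 0 ∨ ∃ j j', g j ≠ g j')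
    (hf : (fixSet ζ g (p ^ s)).Finite) :
    tr (tw3 ζ (Pi.single (Sum.inl ()) g) (fr p (Pi.single (Sum.inl ()) s) (Dg m K))) =
      (fixSet ζ g (p ^ s)).ncard := by
  have hm : (m : K) ≠ 0 := NeZero.ne _
  have hne : (Sum.inl () : Unit ⊕ Unit) ≠ Sum.inr () := Sum.inl_ne_inr
  set D := trfixD ζ p (Pi.single (Sum.inl () : Unit ⊕ Unit) g) (Pi.single (Sum.inl ()) s) with hD
  have hev : ∀ x : Projectivization K (Fin 3 → K),
      (∀ b, eval (fun v : (Unit ⊕ Unit) × Fin 3 => x.rep v.2)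
        (D.φ (minor K (Sum.inl ()) (Sum.inr ()) b)) = 0) ↔
      ∃ l : K, ∀ j, ζ.1 ^ (g j).val * x.rep j ^ p ^ s = l * x.rep j := by
    intro x
    simp only [hD, trfix_φ, map_sub, map_mul, map_pow, eval_C, eval_X]
    constructor
    · intro hb
      exact trfix_par (w := fun j => ζ.1 ^ (g j).val * x.rep j ^ p ^ s) x.rep_nonzero
        fun b => by linear_combination -hb b
    · rintro ⟨l, hl⟩ b
      rw [hl, hl]
      ring
  have hb : ∃ b, D.φ (minor K (Sum.inl ()) (Sum.inr ()) b) ∉ PD0 m K := by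
    by_contra hc
    push Not at hc
    exact trfix_inf (NeZero.ne m) (hf.subset fun x hx =>
      ⟨hx, (hev x).1 fun b => trfix_diag hx _ (hc b)⟩)
  set J := PD0 m K ⊔ Ideal.span (Set.range fun a => D.φ (minor K (Sum.inl ()) (Sum.inr ()) a))
    with hJ
  have hV : VV J = (fun x _ => x) '' fixSet ζ g (p ^ s) := by
    ext y
    change rep y ∈ ZS J ↔ _
    rw [hJ, ZS_sup, Set.mem_inter_iff, mem_ZS_span, Set.forall_mem_range]
    constructor
    · rintro ⟨h1, h2⟩
      obtain ⟨l, hl⟩ := trfix_par (x := (y (Sum.inl ())).rep) (w := (y (Sum.inr ())).rep)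
        (y _).rep_nonzero fun b => by simpa [minor, rep] using h1 _ (minor_mem_PD0 b)
      have hy : y = fun _ => y (Sum.inl ()) := by
        refine pt_eq (l := Sum.elim (fun _ => 1) fun _ => l) (funext ?_)
        rintro ⟨_ | _, j⟩
        · exact (one_mul _).symm
        · exact hl j
      refine ⟨y (Sum.inl ()), ⟨mem_ZS_Fer.1 (fun f hf => h1 f (Fer_le_PD0 hf)) (Sum.inl ()),
        (hev _).1 ?_⟩, hy.symm⟩
      rw [hy] at h2
      exact h2
    · rintro ⟨x, hx, rfl⟩
      exact ⟨trfix_diag hx.1, (hev x).2 hx.2⟩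
  have hG : GrI J := GrW.sup grI_PD0
    (grW_span (by rintro _ ⟨a, rfl⟩; exact ⟨_, D.hg_φ (hg_minor _ _ a)⟩))
  have ht : ∀ y ∈ VV J, Tan J (rep y) ⊆ TorD (rep y) := by
    intro y hy v hv
    rw [hV] at hy
    obtain ⟨x, ⟨hx, l, hl⟩, rfl⟩ := hy
    have key : ∃ c c' : K, (∀ j, v (Sum.inl (), j) = c * x.rep j) ∧
        ∀ j, v (Sum.inr (), j) = c' * x.rep j := by
      refine trfix_tangent ζ p hm g s h (v := fun j => v (Sum.inl (), j))
        (w := fun j => v (Sum.inr (), j)) x.rep_nonzero hx hl (fun b => ?_) (fun b => ?_) ?_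
      · have h1 := hv _ (Ideal.mem_sup_left (minor_mem_PD0 b))
        simp only [minor, trfix_dif_sub, dif_mul, dif_X, eval_X, rep] at h1
        linear_combination h1
      · have h1 := hv _ (Ideal.mem_sup_right (Ideal.subset_span ⟨b, rfl⟩))
        simp only [hD, trfix_φ, trfix_dif_sub, dif_mul, dif_pow, dif_C, dif_X, map_mul, map_pow,
          eval_X, eval_C, rep, hl] at h1
        linear_combination h1
      · have h1 := hv _ (Ideal.mem_sup_left (Fer_le_PD0 (fer_mem (Sum.inl ()))))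
        simp only [fer, trfix_dif_sub, dif_add, dif_pow, dif_X, eval_X, rep] at h1
        exact h1
    obtain ⟨c, c', hc, hc'⟩ := key
    refine ⟨Sum.elim (fun _ => c) fun _ => c', funext ?_⟩
    rintro ⟨_ | _, j⟩
    · exact hc j
    · exact hc' j
  have hfin : (VV J).Finite := hV ▸ hf.image _
  rw [trfix_pull, tr_unit, Lm, Dg, trfix_chi hm Function.surjective_id rfl (inv_minor hm hne)
    grI_PD0 (PD0_isPrime hm) Fer_le_PD0 hb, chi_apply,
    coef_points (NeZero.ne m) hG (Fer_le_PD0.trans le_sup_left) hfin ht, Pi.single_eq_same, hV,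
    Set.ncard_image_of_injective _ fun x x' hx => congrFun hx (Sum.inl ())]

end Pool.Agent.Tate
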