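import Pool.Agent.P.MP_2ce3e7_ag.FixCa

/-! Counting fixed points on the Fermat curve. -/

set_option autoImplicit false

noncomputable section

namespace Pool.Agent.Tate

namespace FixC

open Polynomial

variable {m : ℕ} [NeZero m] {K : Type} [Field K] (ζ : Rt m K)

theorem z_ne (t : ZMod m) : ζ.1 ^ t.val ≠ 0 := pow_ne_zero _ (ζ.2.ne_zero (NeZero.ne m))

theorem z_add (s t : ZMod m) : ζ.1 ^ (s + t).val = ζ.1 ^ s.val * ζ.1 ^ t.val := by
  rw [← pow_add, ZMod.val_add]
  conv_rhs => rw [← Nat.mod_add_div (s.val + t.val) m, pow_add, pow_mul, ζ.2.pow_eq_one, one_pow,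
    mul_one]

omit [NeZero m] in
theorem z_pow (t : ZMod m) : (ζ.1 ^ t.val) ^ m = 1 := by
  rw [← pow_mul, mul_comm, pow_mul, ζ.2.pow_eq_one, one_pow]

theorem z_neg (t : ZMod m) : ζ.1 ^ (-t).val * ζ.1 ^ t.val = 1 := by
  rw [← z_add, neg_add_cancel, ZMod.val_zero, pow_zero]

theorem z_inj {s t : ZMod m} (h : ζ.1 ^ s.val = ζ.1 ^ t.val) : s = t :=
  ZMod.val_injective m (ζ.2.pow_inj (ZMod.val_lt s) (ZMod.val_lt t) h)

theorem z_ex {w : K} (hw : w ^ m = 1) : ∃ t : ZMod m, ζ.1 ^ t.val = w := by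
  obtain ⟨i, hi, rfl⟩ := ζ.2.eq_pow_of_pow_eq_one hw
  exact ⟨i, by rw [ZMod.val_cast_of_lt hi]⟩

open Classical in
theorem sum_uniq {a b : K} (ha : a ≠ 0) (h : a ^ m = b ^ m) :
    ∑ t : ZMod m, (if ζ.1 ^ t.val * a = b then (1 : ℂ) else 0) = 1 := by
  obtain ⟨t0, ht0⟩ := z_ex ζ (w := b / a) (by rw [div_pow, ← h, div_self (pow_ne_zero _ ha)])
  rw [Finset.sum_eq_single t0]
  · rw [if_pos]
    rw [ht0]
    field_simp
  · intro t _ ht
    rw [if_neg]
    intro h'
    apply ht
    apply z_inj ζ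
    rw [ht0, ← h']
    field_simp
  · simp

/-- the condition on homogeneous coordinates -/
def FP (g : Fin 3 → ZMod m) (Q : ℕ) (v : Fin 3 → K) : Prop :=
  OnF m v ∧ ∃ l : K, ∀ j, ζ.1 ^ (g j).val * v j ^ Q = l * v j

omit [NeZero m] in
theorem FP.smul {g : Fin 3 → ZMod m} {Q : ℕ} {v : Fin 3 → K} (h : FP ζ g Q v) {c : K}
    (hc : c ≠ 0) : FP ζ g Q (c • v) := by
  obtain ⟨h1, l, hl⟩ := h
  refine ⟨?_, l * c ^ Q / c, fun j => ?_⟩
  · unfold OnF at h1 ⊢
    simp only [Pi.smul_apply, smul_eq_mul, mul_pow]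
    rw [← mul_add, h1]
  · simp only [Pi.smul_apply, smul_eq_mul, mul_pow]
    field_simp
    linear_combination hl j

omit [NeZero m] in
theorem mk_mem {g : Fin 3 → ZMod m} {Q : ℕ} {v : Fin 3 → K} (hv : v ≠ 0) :
    Projectivization.mk K v hv ∈ fixSet ζ g Q ↔ FP ζ g Q v := by
  obtain ⟨a, ha⟩ := Projectivization.exists_smul_eq_mk_rep K v hv
  change FP ζ g Q (Projectivization.mk K v hv).rep ↔ _
  rw [← ha, Units.smul_def]
  constructor
  · intro h
    have := h.smul ζ (inv_ne_zero a.ne_zero)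
    rwa [smul_smul, inv_mul_cancel₀ a.ne_zero, one_smul] at this
  · intro h
    exact h.smul ζ a.ne_zero

theorem ne1 (x y : K) : (![x, y, 1] : Fin 3 → K) ≠ 0 := fun h => by simpa using congrFun h 2

theorem ne2 (x : K) : (![x, 1, 0] : Fin 3 → K) ≠ 0 := fun h => by simpa using congrFun h 1

/-- the affine chart -/
def e1 (x : Σ _ : K, K × K) : Projectivization K (Fin 3 → K) :=
  Projectivization.mk K ![x.2.1, x.2.2, 1] (ne1 _ _)

/-- the line at infinity -/
def e2 (x : K) : Projectivization K (Fin 3 → K) := Projectivization.mk K ![x, 1, 0] (ne2 _)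

open Classical in
/-- roots of `u` that are fixed -/
def N (Q : ℕ) (t : ZMod m) (u : K) : Finset K :=
  (nthRootsFinset m u).filter fun x => ζ.1 ^ t.val * x ^ Q = x

open Classical in
/-- fixed points at infinity -/
def M (Q : ℕ) (g : Ch m) : Finset K :=
  (nthRootsFinset m (-1 : K)).filter fun x => ζ.1 ^ g.1.val * x ^ Q = ζ.1 ^ g.2.val * x

omit [NeZero m] in
theorem pow_fix {Q : ℕ} {t : ZMod m} {x : K} (h : ζ.1 ^ t.val * x ^ Q = x) :
    (x ^ m) ^ Q = x ^ m := by
  have := congrArg (· ^ m) h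
  simp only [mul_pow, z_pow, one_mul] at this
  rw [← pow_mul, mul_comm, pow_mul, this]

theorem count {Q : ℕ} (hQ : Q ≠ 0) (T : Finset K) (hT : ∀ u, u ^ Q = u → u ∈ T) (g : Ch m) :
    (fixSet ζ ![g.1, g.2, 0] Q).ncard =
      ∑ u ∈ T, (N ζ Q g.1 u).card * (N ζ Q g.2 (1 - u)).card + (M ζ Q g).card := by
  classical
  have hm : 0 < m := NeZero.pos m
  let A : Finset (Σ _ : K, K × K) := T.sigma fun u => N ζ Q g.1 u ×ˢ N ζ Q g.2 (1 - u)
  have hA : ∀ x : Σ _ : K, K × K, x ∈ A ↔ x.1 ∈ T ∧ (x.2.1 ^ m = x.1 ∧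
      ζ.1 ^ g.1.val * x.2.1 ^ Q = x.2.1) ∧ x.2.2 ^ m = 1 - x.1 ∧
      ζ.1 ^ g.2.val * x.2.2 ^ Q = x.2.2 := by
    intro x
    simp only [A, N, Finset.mem_sigma, Finset.mem_product, Finset.mem_filter,
      mem_nthRootsFinset hm]
  have hM : ∀ x, x ∈ M ζ Q g ↔ x ^ m = -1 ∧ ζ.1 ^ g.1.val * x ^ Q = ζ.1 ^ g.2.val * x := by
    intro x
    simp only [M, Finset.mem_filter, mem_nthRootsFinset hm]
  have hset : fixSet ζ ![g.1, g.2, 0] Q = ↑(A.image e1 ∪ (M ζ Q g).image e2) := by
    ext x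
    simp only [Finset.coe_union, Finset.coe_image, Set.mem_union, Set.mem_image, Finset.mem_coe]
    constructor
    · induction x using Projectivization.ind with
      | h v hv =>
      intro h
      rw [mk_mem] at h
      by_cases h2 : v 2 = 0
      · have h1 : v 1 ≠ 0 := by
          intro h1
          apply hv
          have h0 := h.1
          unfold OnF at h0
          rw [h1, h2, add_eq_right] at h0
          have h0' := pow_eq_zero_iff hm.ne' |>.1 h0
          funext j
          fin_cases j <;> simp [h0', h1, h2]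
        have hw : (v 1)⁻¹ • v = ![v 0 / v 1, 1, 0] := by
          funext j
          fin_cases j <;> simp [h1, h2, div_eq_inv_mul]
        have h' := h.smul ζ (inv_ne_zero h1)
        rw [hw] at h'
        obtain ⟨h0, l, hl⟩ := h'
        right
        refine ⟨v 0 / v 1, (hM _).2 ⟨?_, ?_⟩, ?_⟩
        · unfold OnF at h0
          simp only [Matrix.cons_val_zero, Matrix.cons_val_one, one_pow, Matrix.cons_val_two,
            Matrix.tail_cons, Matrix.head_cons, zero_pow hm.ne'] at h0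
          linear_combination h0
        · have a0 := hl 0
          have a1 := hl 1
          simp only [Matrix.cons_val_zero, Matrix.cons_val_one, one_pow, mul_one] at a0 a1
          rw [a0, a1]
        · unfold e2
          rw [Projectivization.mk_eq_mk_iff']
          exact ⟨_, hw⟩
      · have hw : (v 2)⁻¹ • v = ![v 0 / v 2, v 1 / v 2, 1] := by
          funext j
          fin_cases j <;> simp [h2, div_eq_inv_mul]
        have h' := h.smul ζ (inv_ne_zero h2)
        rw [hw] at h'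
        obtain ⟨h0, l, hl⟩ := h'
        have a0 := hl 0
        have a1 := hl 1
        have a2 := hl 2
        unfold OnF at h0
        simp only [Matrix.cons_val_zero, Matrix.cons_val_one, one_pow, mul_one,
          Matrix.cons_val_two, Matrix.tail_cons, Matrix.head_cons, ZMod.val_zero,
          pow_zero] at a0 a1 a2 h0
        rw [← a2, one_mul] at a0 a1
        left
        refine ⟨⟨(v 0 / v 2) ^ m, v 0 / v 2, v 1 / v 2⟩,
          (hA _).2 ⟨hT _ (pow_fix ζ a0), ⟨rfl, a0⟩, ?_, a1⟩, ?_⟩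
        · simp only
          linear_combination h0
        · unfold e1
          rw [Projectivization.mk_eq_mk_iff']
          exact ⟨_, hw⟩
    · rintro (⟨y, hy, rfl⟩ | ⟨y, hy, rfl⟩)
      · obtain ⟨-, ⟨b0, b1⟩, b2, b3⟩ := (hA y).1 hy
        unfold e1
        rw [mk_mem]
        refine ⟨?_, 1, fun j => ?_⟩
        · unfold OnF
          simp only [Matrix.cons_val_zero, Matrix.cons_val_one, one_pow,
            Matrix.cons_val_two, Matrix.tail_cons, Matrix.head_cons]
          linear_combination b0 + b2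
        · fin_cases j <;> simp [b1, b3]
      · obtain ⟨b0, b1⟩ := (hM y).1 hy
        unfold e2
        rw [mk_mem]
        refine ⟨?_, ζ.1 ^ g.2.val, fun j => ?_⟩
        · unfold OnF
          simp only [Matrix.cons_val_zero, Matrix.cons_val_one, one_pow,
            Matrix.cons_val_two, Matrix.tail_cons, Matrix.head_cons, zero_pow hm.ne']
          linear_combination b0
        · fin_cases j <;> simp [b1, hQ]
  rw [hset, Set.ncard_coe_finset, Finset.card_union_of_disjoint, Finset.card_image_of_injOn,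
    Finset.card_image_of_injOn, Finset.card_sigma]
  · simp only [Finset.card_product]
  · intro x _ y _ h
    unfold e2 at h
    rw [Projectivization.mk_eq_mk_iff'] at h
    obtain ⟨a, ha⟩ := h
    have a0 := congrFun ha 0
    have a1 := congrFun ha 1
    simp only [Pi.smul_apply, smul_eq_mul, Matrix.cons_val_zero, Matrix.cons_val_one,
      mul_one] at a0 a1
    rw [← a0, a1, one_mul]
  · rintro ⟨u, x, y⟩ hx ⟨u', x', y'⟩ hy h
    unfold e1 at h
    rw [Projectivization.mk_eq_mk_iff'] at h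
    obtain ⟨a, ha⟩ := h
    have a0 := congrFun ha 0
    have a1 := congrFun ha 1
    have a2 := congrFun ha 2
    simp only [Pi.smul_apply, smul_eq_mul, Matrix.cons_val_zero, Matrix.cons_val_one,
      mul_one, Matrix.cons_val_two, Matrix.tail_cons, Matrix.head_cons] at a0 a1 a2
    rw [a2, one_mul] at a0 a1
    have b := ((hA _).1 hx).2.1.1
    have b' := ((hA _).1 hy).2.1.1
    simp only at b b'
    rw [← b, ← b', a0, a1]
  · rw [Finset.disjoint_left]
    intro x hx hy
    obtain ⟨y, -, rfl⟩ := Finset.mem_image.1 hx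
    obtain ⟨w, -, h⟩ := Finset.mem_image.1 hy
    unfold e1 e2 at h
    rw [Projectivization.mk_eq_mk_iff'] at h
    obtain ⟨a, ha⟩ := h
    have a1 := congrFun ha 1
    have a2 := congrFun ha 2
    simp only [Pi.smul_apply, smul_eq_mul, Matrix.cons_val_zero, Matrix.cons_val_one,
      mul_one, Matrix.cons_val_two, Matrix.tail_cons, Matrix.head_cons] at a1 a2
    rw [a2, zero_mul] at a1
    exact zero_ne_one a1

open Classical in
/-- weighted number of the fixed roots of `u` -/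
def Φ (Q : ℕ) (α : ZMod m → ℂ) (u : K) : ℂ :=
  ∑ x ∈ nthRootsFinset m u, ∑ t : ZMod m, if ζ.1 ^ t.val * x ^ Q = x then α t else 0

open Classical in
/-- weighted number of the fixed points at infinity -/
def Ψ (Q : ℕ) (w : Ch m → ℂ) : ℂ :=
  ∑ x ∈ nthRootsFinset m (-1 : K), ∑ g : Ch m,
    if ζ.1 ^ g.1.val * x ^ Q = ζ.1 ^ g.2.val * x then w g else 0

theorem Φ_eq (Q : ℕ) (α : ZMod m → ℂ) (u : K) :
    Φ ζ Q α u = ∑ t, α t * (N ζ Q t u).card := by
  unfold Φ N
  rw [Finset.sum_comm]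
  refine Finset.sum_congr rfl fun t _ => ?_
  rw [Finset.card_filter]
  push_cast
  rw [Finset.mul_sum]
  simp

theorem Ψ_eq (Q : ℕ) (w : Ch m → ℂ) : Ψ ζ Q w = ∑ g, w g * (M ζ Q g).card := by
  unfold Ψ M
  rw [Finset.sum_comm]
  refine Finset.sum_congr rfl fun t _ => ?_
  rw [Finset.card_filter]
  push_cast
  rw [Finset.mul_sum]
  simp

theorem gen {Q : ℕ} (hQ : Q ≠ 0) (T : Finset K) (hT : ∀ u, u ^ Q = u → u ∈ T)
    (α β : ZMod m → ℂ) :
    ∑ g : Ch m, α g.1 * β g.2 * ((fixSet ζ ![g.1, g.2, 0] Q).ncard : ℂ) =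
      ∑ u ∈ T, Φ ζ Q α u * Φ ζ Q β (1 - u) + Ψ ζ Q fun g => α g.1 * β g.2 := by
  simp only [count ζ hQ T hT, Φ_eq, Ψ_eq]
  push_cast
  simp only [mul_add, Finset.sum_add_distrib]
  congr 1
  simp only [Finset.mul_sum, Finset.sum_mul]
  rw [Finset.sum_comm]
  refine Finset.sum_congr rfl fun u _ => ?_
  rw [Fintype.sum_prod_type, Finset.sum_comm]
  refine Finset.sum_congr rfl fun s _ => Finset.sum_congr rfl fun t _ => ?_
  ring

theorem roots_zero : nthRootsFinset m (0 : K) = {0} := by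
  ext x
  simp [mem_nthRootsFinset (NeZero.pos m), NeZero.ne m]

include ζ in
theorem card_roots [IsAlgClosed K] {u : K} (hu : u ≠ 0) : (nthRootsFinset m u).card = m := by
  classical
  rw [nthRootsFinset_def, Multiset.toFinset_card_of_nodup (ζ.2.nthRoots_nodup hu),
    ζ.2.card_nthRoots, if_pos (IsAlgClosed.exists_pow_nat_eq u (NeZero.pos m))]

theorem Φ_one [IsAlgClosed K] {Q : ℕ} (hQ : Q ≠ 0) {u : K} (hu : u ^ Q = u) :
    Φ ζ Q (fun _ => 1) u = m := by
  unfold Φ
  by_cases h0 : u = 0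
  · subst h0
    simp [roots_zero, hQ]
  · rw [Finset.sum_congr rfl (g := fun _ => 1)]
    · simp [card_roots ζ h0]
    · intro x hx
      have hx0 := ne_zero_of_mem_nthRootsFinset h0 hx
      rw [mem_nthRootsFinset (NeZero.pos m)] at hx
      exact sum_uniq ζ (pow_ne_zero _ hx0) (by rw [← pow_mul, mul_comm, pow_mul, hx, hu])

theorem Ψ_one [IsAlgClosed K] {Q : ℕ} (hu : (-1 : K) ^ Q = -1) :
    Ψ ζ Q (fun _ => 1) = (m : ℂ) ^ 2 := by
  unfold Ψ
  have h0 : (-1 : K) ≠ 0 := neg_ne_zero.2 one_ne_zero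
  rw [Finset.sum_congr rfl (g := fun _ => (m : ℂ))]
  · simp [card_roots ζ h0, sq]
  · intro x hx
    have hx0 := ne_zero_of_mem_nthRootsFinset h0 hx
    rw [mem_nthRootsFinset (NeZero.pos m)] at hx
    rw [Fintype.sum_prod_type, Finset.sum_comm, Finset.sum_congr rfl (g := fun _ => 1)]
    · simp
    · intro t _
      refine sum_uniq ζ (b := ζ.1 ^ t.val * x) (pow_ne_zero _ hx0) ?_
      rw [mul_pow, z_pow, one_mul, ← pow_mul, mul_comm, pow_mul, hx, hu]

theorem psi_ne {b : ZMod m} (hb : b ≠ 0) : ZMod.stdAddChar b ≠ (1 : ℂ) := fun h =>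
  hb (ZMod.injective_stdAddChar (by rw [h, AddChar.map_zero_eq_one]))

theorem Ψ_zero (Q : ℕ) {a : Ch m} (ha : a.1 + a.2 ≠ 0) :
    Ψ ζ Q (fun g => ZMod.stdAddChar (a.1 * -g.1) * ZMod.stdAddChar (a.2 * -g.2)) = 0 := by
  classical
  unfold Ψ
  refine Finset.sum_eq_zero fun x _ => ?_
  set f : Ch m → ℂ := fun g => if ζ.1 ^ g.1.val * x ^ Q = ζ.1 ^ g.2.val * x then
    ZMod.stdAddChar (a.1 * -g.1) * ZMod.stdAddChar (a.2 * -g.2) else 0 with hf
  have key : ∀ g : Ch m, f g = ZMod.stdAddChar (a.1 + a.2) * f (g + (1, 1)) := by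
    intro g
    simp only [hf, Prod.fst_add, Prod.snd_add, z_add]
    have hiff : ζ.1 ^ g.1.val * ζ.1 ^ (1 : ZMod m).val * x ^ Q =
        ζ.1 ^ g.2.val * ζ.1 ^ (1 : ZMod m).val * x ↔
        ζ.1 ^ g.1.val * x ^ Q = ζ.1 ^ g.2.val * x := by
      rw [mul_right_comm, mul_right_comm (ζ.1 ^ g.2.val), mul_left_inj' (z_ne ζ 1)]
    rw [hiff]
    split_ifs
    · simp only [← AddChar.map_add_eq_mul]
      congr 1
      ring
    · rw [mul_zero]
  have h1 : ∑ g, f g = ZMod.stdAddChar (a.1 + a.2) * ∑ g, f g := by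
    conv_rhs => rw [← Equiv.sum_comp (Equiv.addRight ((1, 1) : Ch m)) f, Finset.mul_sum]
    exact Finset.sum_congr rfl fun g _ => key g
  have h2 : (1 - ZMod.stdAddChar (a.1 + a.2)) * ∑ g, f g = 0 := by linear_combination h1
  rcases mul_eq_zero.1 h2 with h | h
  · exact absurd (sub_eq_zero.1 h).symm (psi_ne ha)
  · convert h

theorem Φ_chr [IsAlgClosed K] {F : Type} [Field F] [Fintype F] (φ : F →+* K) {z : F}
    (hζ : ζ.1 = φ z) {b : ZMod m} (hb : b ≠ 0) (u : F) :
    Φ ζ (Fintype.card F) (fun t => ZMod.stdAddChar (b * -t)) (φ u) = m * chr z b u := by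
  classical
  have hz : IsPrimitiveRoot z m := (hζ ▸ ζ.2).of_map_of_injective φ.injective
  have hz0 : z ≠ 0 := hz.ne_zero (NeZero.ne m)
  have hd : m ∣ Fintype.card F - 1 :=
    hz.dvd_of_pow_eq_one _ (FiniteField.pow_card_sub_one_eq_one z hz0)
  obtain ⟨r, hr⟩ := hd
  have hq : 1 < Fintype.card F := Fintype.one_lt_card
  have hr0 : r ≠ 0 := by
    rintro rfl
    omega
  have hrr : (Fintype.card F - 1) / m = r := by rw [hr, Nat.mul_div_cancel_left _ (NeZero.pos m)]
  have hQ : Fintype.card F = m * r + 1 := by omega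
  unfold Φ chr
  rw [hrr]
  by_cases h0 : u = 0
  · subst h0
    have e1 : ∀ t : ZMod m, ¬ ((0 : F) ^ r = z ^ t.val) := fun t => by
      rw [zero_pow hr0]
      exact (pow_ne_zero _ hz0).symm
    have e2 : ∑ t : ZMod m, ZMod.stdAddChar (b * -t) = (0 : ℂ) := by
      rw [← Equiv.sum_comp (Equiv.neg (ZMod m))]
      simp only [Equiv.neg_apply, neg_neg, mul_comm b]
      rw [AddChar.sum_mulShift b (ZMod.isPrimitive_stdAddChar m), if_neg hb]
      simp
    simp only [map_zero, roots_zero, Finset.sum_singleton, zero_pow Fintype.card_ne_zero, mul_zero,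
      if_true, e1, if_false, Finset.sum_const_zero, e2]
  · have h0' : φ u ≠ 0 := (map_ne_zero φ).2 h0
    rw [Finset.sum_congr rfl (g := fun _ => ∑ t : ZMod m,
      if u ^ r = z ^ t.val then ZMod.stdAddChar (b * t) else (0 : ℂ))]
    · simp [card_roots ζ h0']
    · intro x hx
      have hx0 := ne_zero_of_mem_nthRootsFinset h0' hx
      rw [mem_nthRootsFinset (NeZero.pos m)] at hx
      rw [← Equiv.sum_comp (Equiv.neg (ZMod m))]
      refine Finset.sum_congr rfl fun t _ => ?_
      simp only [Equiv.neg_apply, neg_neg]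
      have hiff : ζ.1 ^ (-t).val * x ^ Fintype.card F = x ↔ u ^ r = z ^ t.val := by
        rw [← φ.injective.eq_iff, map_pow, map_pow, ← hζ, hQ, pow_succ, pow_mul, hx, ← mul_assoc,
          mul_left_eq_self₀, or_iff_left hx0]
        constructor
        · intro h
          linear_combination ζ.1 ^ t.val * h - φ u ^ r * z_neg ζ t
        · intro h
          rw [h, z_neg]
      simp only [hiff]

end FixC

variable {m : ℕ} [NeZero m] {K : Type} [Field K] [IsAlgClosed K] (ζ : Rt m K)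
  (p : ℕ) [Fact p.Prime] [CharP K p]

theorem sum_fix_zero {s : ℕ} (hs : s ≠ 0) :
    ∑ g : Ch m, (fixSet ζ ![g.1, g.2, 0] (p ^ s)).ncard = m ^ 2 * (p ^ s + 1) := by
  classical
  have hp : p.Prime := Fact.out
  have hQ : 1 < p ^ s := Nat.one_lt_pow hs hp.one_lt
  let f : Polynomial K := Polynomial.X ^ p ^ s - Polynomial.X
  have hf : f ≠ 0 := FiniteField.X_pow_card_sub_X_ne_zero K hQ
  have hT : ∀ u, u ∈ f.roots.toFinset ↔ u ^ p ^ s = u := by
    intro u
    simp [f, Polynomial.mem_roots hf, sub_eq_zero]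
  have hc : f.roots.toFinset.card = p ^ s := by
    rw [Multiset.toFinset_card_of_nodup
      (Polynomial.nodup_roots (galois_poly_separable p _ (dvd_pow_self p hs))),
      IsAlgClosed.card_roots_eq_natDegree, FiniteField.X_pow_card_sub_X_natDegree_eq K hQ]
  have h := FixC.gen ζ (Q := p ^ s) (by omega) f.roots.toFinset (fun u hu => (hT u).2 hu)
    (fun _ => 1) (fun _ => 1)
  simp only [one_mul] at h
  rw [FixC.Ψ_one ζ (neg_one_pow_char_pow K p s),
    Finset.sum_congr (s₁ := f.roots.toFinset) rfl (g := fun _ => (m : ℂ) ^ 2),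
    Finset.sum_const, hc] at h
  · have h' : ((∑ g : Ch m, (fixSet ζ ![g.1, g.2, 0] (p ^ s)).ncard : ℕ) : ℂ) =
        ((m ^ 2 * (p ^ s + 1) : ℕ) : ℂ) := by
      push_cast
      rw [h]
      simp only [nsmul_eq_mul]
      push_cast
      ring
    exact_mod_cast h'
  · intro u hu
    rw [hT] at hu
    rw [FixC.Φ_one ζ (by omega) hu, FixC.Φ_one ζ (by omega), sq]
    rw [sub_pow_char_pow, one_pow, hu]

omit [Fact p.Prime] [CharP K p] in
theorem sum_fix_jac {F : Type} [Field F] [Fintype F] (φ : F →+* K) {z : F} (hζ : ζ.1 = φ z)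
    {a : Ch m} (ha : Nd a) :
    ∑ g : Ch m, ch1 a (-g) * ((fixSet ζ ![g.1, g.2, 0] (Fintype.card F)).ncard : ℂ) =
      (m : ℂ) ^ 2 * Jac z a := by
  classical
  have hQ : 1 < Fintype.card F := Fintype.one_lt_card
  let f : Polynomial K := Polynomial.X ^ Fintype.card F - Polynomial.X
  have hf : f ≠ 0 := FiniteField.X_pow_card_sub_X_ne_zero K hQ
  have hT : ∀ u, u ∈ f.roots.toFinset ↔ u ^ Fintype.card F = u := by
    intro u
    simp [f, Polynomial.mem_roots hf, sub_eq_zero]
  let T : Finset K := Finset.univ.map ⟨φ, φ.injective⟩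
  have hTe : T = f.roots.toFinset := by
    apply Finset.eq_of_subset_of_card_le
    · intro u hu
      obtain ⟨v, -, rfl⟩ := Finset.mem_map.1 hu
      rw [hT]
      change φ v ^ _ = φ v
      rw [← map_pow, FiniteField.pow_card]
    · rw [Finset.card_map, Finset.card_univ]
      refine (Multiset.toFinset_card_le _).trans ((Polynomial.card_roots' f).trans ?_)
      rw [FiniteField.X_pow_card_sub_X_natDegree_eq K hQ]
  have h := FixC.gen ζ (Q := Fintype.card F) (by omega) T (fun u hu => hTe ▸ (hT u).2 hu)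
    (fun t => ZMod.stdAddChar (a.1 * -t)) (fun t => ZMod.stdAddChar (a.2 * -t))
  rw [FixC.Ψ_zero ζ _ ha.2.2, add_zero, Finset.sum_map] at h
  simp only [ch1, Prod.fst_neg, Prod.snd_neg, AddChar.map_add_eq_mul]
  rw [h, Jac, Finset.mul_sum]
  refine Finset.sum_congr rfl fun u _ => ?_
  change FixC.Φ ζ _ _ (φ u) * FixC.Φ ζ _ _ (1 - φ u) = _
  rw [show 1 - φ u = φ (1 - u) by simp, FixC.Φ_chr ζ φ hζ ha.1, FixC.Φ_chr ζ φ hζ ha.2.1]
  ring

end Pool.Agent.Tate
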