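import Pool.Agent.P.MP_2ce3e7_ag.Avg

/-! Counting fixed points on the Fermat curve. -/

set_option autoImplicit false

noncomputable section

namespace Pool.Agent.Tate

variable {m : ℕ} [NeZero m] {K : Type} [Field K]

/-- fixed points of a twisted power map -/
def fixSet (ζ : Rt m K) (g : Fin 3 → ZMod m) (Q : ℕ) : Set (Projectivization K (Fin 3 → K)) :=
  {x | OnF m x.rep ∧ ∃ l : K, ∀ j, ζ.1 ^ (g j).val * x.rep j ^ Q = l * x.rep j}

omit [NeZero m] in
theorem fixCa_onF_smul {c : K} (hc : c ≠ 0) (v : Fin 3 → K) : OnF m (c • v) ↔ OnF m v := by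
  simp only [OnF, Pi.smul_apply, smul_eq_mul, mul_pow, ← mul_add]
  exact mul_right_inj' (pow_ne_zero _ hc)

theorem fixCa_rep (v : Fin 3 → K) (hv : v ≠ 0) :
    ∃ c : K, c ≠ 0 ∧ (Projectivization.mk K v hv).rep = c • v := by
  obtain ⟨a, ha⟩ := Projectivization.exists_smul_eq_mk_rep K v hv
  exact ⟨a, a.ne_zero, ha.symm⟩

theorem fixCa_mk (x : Projectivization K (Fin 3 → K)) {c : K} {v : Fin 3 → K} (hv : v ≠ 0)
    (h : c • v = x.rep) : Projectivization.mk K v hv = x := by
  rw [← x.mk_rep, eq_comm, Projectivization.mk_eq_mk_iff']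
  exact ⟨c, h⟩

theorem fixCa_two {v : Fin 3 → K} (h : OnF m v) (hv : v ≠ 0) :
    (v 0 = 0 → v 1 ≠ 0) ∧ (v 0 = 0 → v 2 ≠ 0) ∧ (v 1 = 0 → v 2 ≠ 0) := by
  have hm := NeZero.ne m
  have key : v 0 = 0 → v 1 = 0 → v 2 = 0 → False := fun a b c =>
    hv (funext fun i => by fin_cases i <;> assumption)
  unfold OnF at h
  refine ⟨fun a b => key a b ?_, fun a b => key a ?_ b, fun a b => key ?_ a b⟩
  · rw [a, b, zero_pow hm, add_zero, eq_comm] at h; exact pow_eq_zero_iff hm |>.1 h
  · rw [a, b, zero_pow hm, zero_add] at h; exact pow_eq_zero_iff hm |>.1 h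
  · rw [a, b, zero_pow hm, add_zero] at h; exact pow_eq_zero_iff hm |>.1 h

variable [IsAlgClosed K] (ζ : Rt m K)

include ζ in
theorem fixCa_aux {c : K} (hc : c ≠ 0) (v : K → Fin 3 → K) (a b : Fin 3) (ha : ∀ t, v t a = t)
    (hb : ∀ t, v t b = 1) (j : Fin 3) (hj : ∀ t, v t j = 0) (h1 : ∀ t, OnF m (v t) ↔ t ^ m = c)
    (h2 : ∀ w : Fin 3 → K, OnF m w → w ≠ 0 → w j = 0 → w b ≠ 0 ∧ w b • v (w a / w b) = w) :
    {x : Projectivization K (Fin 3 → K) | OnF m x.rep ∧ x.rep j = 0}.Finite ∧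
    {x : Projectivization K (Fin 3 → K) | OnF m x.rep ∧ x.rep j = 0}.ncard = m := by
  classical
  have hm := NeZero.pos m
  have hv : ∀ t, v t ≠ 0 := fun t h => by simpa [h] using hb t
  have e : {x : Projectivization K (Fin 3 → K) | OnF m x.rep ∧ x.rep j = 0} =
      (fun t => Projectivization.mk K (v t) (hv t)) '' (Polynomial.nthRootsFinset m c) := by
    ext x
    simp only [Set.mem_setOf_eq, Set.mem_image, Finset.mem_coe, Polynomial.mem_nthRootsFinset hm]
    constructor
    · rintro ⟨h, h'⟩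
      obtain ⟨e1, e2⟩ := h2 _ h x.rep_nonzero h'
      refine ⟨_, (h1 _).1 ((fixCa_onF_smul e1 _).1 ?_), fixCa_mk x _ e2⟩
      rwa [e2]
    · rintro ⟨t, ht, rfl⟩
      obtain ⟨u, hu, e⟩ := fixCa_rep (v t) (hv t)
      rw [e, fixCa_onF_smul hu, h1]
      exact ⟨ht, by simp [hj]⟩
  have inj : Function.Injective fun t => Projectivization.mk K (v t) (hv t) := by
    intro t t' h
    obtain ⟨u, hu⟩ := (Projectivization.mk_eq_mk_iff' K _ _ _ _).1 h
    have e1 := congrFun hu a
    have e2 := congrFun hu b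
    simp only [Pi.smul_apply, ha, hb, smul_eq_mul, mul_one] at e1 e2
    rw [← e1, e2, one_mul]
  rw [e, Set.ncard_image_of_injective _ inj, Set.ncard_coe_finset]
  refine ⟨(Finset.finite_toSet _).image _, ?_⟩
  rw [Polynomial.nthRootsFinset_def, Multiset.toFinset_card_of_nodup (ζ.2.nthRoots_nodup hc),
    ζ.2.card_nthRoots, if_pos (IsAlgClosed.exists_pow_nat_eq c hm)]

include ζ in
theorem ncard_hyper (j : Fin 3) :
    {x : Projectivization K (Fin 3 → K) | OnF m x.rep ∧ x.rep j = 0}.Finite ∧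
    {x : Projectivization K (Fin 3 → K) | OnF m x.rep ∧ x.rep j = 0}.ncard = m := by
  have hm := NeZero.ne m
  fin_cases j
  · refine fixCa_aux ζ one_ne_zero (fun t => ![0, t, 1]) 1 2 (fun _ => rfl) (fun _ => rfl) 0
      (fun _ => rfl) (fun t => by simp [OnF, hm]) fun w h hw h0 => ?_
    have := (fixCa_two h hw).2.1 h0
    exact ⟨this, funext fun i => by fin_cases i <;> simp [h0, mul_div_cancel₀ _ this]⟩
  · refine fixCa_aux ζ one_ne_zero (fun t => ![t, 0, 1]) 0 2 (fun _ => rfl) (fun _ => rfl) 1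
      (fun _ => rfl) (fun t => by simp [OnF, hm]) fun w h hw h0 => ?_
    have := (fixCa_two h hw).2.2 h0
    exact ⟨this, funext fun i => by fin_cases i <;> simp [h0, mul_div_cancel₀ _ this]⟩
  · refine fixCa_aux ζ (neg_ne_zero.2 one_ne_zero) (fun t => ![t, 1, 0]) 0 1 (fun _ => rfl)
      (fun _ => rfl) 2 (fun _ => rfl) (fun t => by simp [OnF, hm, add_eq_zero_iff_eq_neg])
      fun w h hw h0 => ?_
    have : w 1 ≠ 0 := fun h1 => (fixCa_two h hw).2.2 h1 h0
    exact ⟨this, funext fun i => by fin_cases i <;> simp [h0, mul_div_cancel₀ _ this]⟩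

omit [IsAlgClosed K] in
theorem fixCa_mem (G : Fin 3 → ZMod m) (x : Projectivization K (Fin 3 → K)) :
    x ∈ fixSet ζ G 1 ↔ OnF m x.rep ∧ ∀ i j, x.rep i ≠ 0 → x.rep j ≠ 0 → G i = G j := by
  refine and_congr_right fun _ => ⟨fun ⟨l, hl⟩ i j hi hj => ?_, fun h => ?_⟩
  · have e1 := hl i
    have e2 := hl j
    rw [pow_one] at e1 e2
    exact ZMod.val_injective m (ζ.2.pow_inj (ZMod.val_lt _) (ZMod.val_lt _)
      ((mul_right_cancel₀ hi e1).trans (mul_right_cancel₀ hj e2).symm))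
  · obtain ⟨i, hi⟩ := Function.ne_iff.1 x.rep_nonzero
    refine ⟨ζ.1 ^ (G i).val, fun j => ?_⟩
    by_cases hj : x.rep j = 0
    · simp [hj]
    · rw [h i j hi hj, pow_one]

theorem fix_one {g : Ch m} (hg : g ≠ 0) : (fixSet ζ ![g.1, g.2, 0] 1).Finite ∧
    (fixSet ζ ![g.1, g.2, 0] 1).ncard = if g.1 = 0 ∨ g.2 = 0 ∨ g.1 = g.2 then m else 0 := by
  obtain ⟨a, b⟩ := g
  have hg' : a = 0 → b ≠ 0 := fun h1 h2 => hg (by rw [h1, h2]; rfl)
  have key : ∀ x, x ∈ fixSet ζ ![a, b, 0] 1 ↔ OnF m x.rep ∧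
      ((x.rep 0 = 0 ∧ b = 0) ∨ (x.rep 1 = 0 ∧ a = 0) ∨ (x.rep 2 = 0 ∧ a = b)) := by
    intro x
    rw [fixCa_mem]
    refine and_congr_right fun h => ?_
    obtain ⟨t1, t2, t3⟩ := fixCa_two h x.rep_nonzero
    constructor
    · intro H
      by_cases h0 : x.rep 0 = 0
      · exact Or.inl ⟨h0, H 1 2 (t1 h0) (t2 h0)⟩
      by_cases h1 : x.rep 1 = 0
      · exact Or.inr (Or.inl ⟨h1, H 0 2 h0 (t3 h1)⟩)
      by_cases h2 : x.rep 2 = 0
      · exact Or.inr (Or.inr ⟨h2, H 0 1 h0 h1⟩)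
      · exact absurd (H 1 2 h1 h2) (hg' (H 0 2 h0 h2))
    · rintro (⟨h0, e⟩ | ⟨h0, e⟩ | ⟨h0, e⟩) i j hi hj <;> fin_cases i <;> fin_cases j <;>
        first | rfl | exact absurd h0 hi | exact absurd h0 hj | exact e | exact e.symm
  have fin : ∀ j : Fin 3, fixSet ζ ![a, b, 0] 1 =
      {x : Projectivization K (Fin 3 → K) | OnF m x.rep ∧ x.rep j = 0} → (a = 0 ∨ b = 0 ∨ a = b) →
      (fixSet ζ ![a, b, 0] 1).Finite ∧
      (fixSet ζ ![a, b, 0] 1).ncard = if a = 0 ∨ b = 0 ∨ a = b then m else 0 := by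
    intro j e h
    rw [e, if_pos h]
    exact ncard_hyper ζ j
  by_cases ha : a = 0
  · have hb := hg' ha
    refine fin 1 (Set.ext fun x => ?_) (Or.inl ha)
    rw [key]; simp [ha, hb, Ne.symm hb]
  by_cases hb : b = 0
  · refine fin 0 (Set.ext fun x => ?_) (Or.inr (Or.inl hb))
    rw [key]; simp [ha, hb]
  by_cases hab : a = b
  · refine fin 2 (Set.ext fun x => ?_) (Or.inr (Or.inr hab))
    rw [key]; simp [hab, hb]
  · have : fixSet ζ ![a, b, 0] 1 = ∅ := Set.ext fun x => by rw [key]; simp [ha, hb, hab]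
    simp [this, ha, hb, hab]

omit [IsAlgClosed K] in
theorem fix_finite (g : Fin 3 → ZMod m) {Q : ℕ} (hQ : 1 < Q) : (fixSet ζ g Q).Finite := by
  have hz : ζ.1 ≠ 0 := ζ.2.ne_zero (NeZero.ne m)
  have hR : ∀ i j, {r : K | ζ.1 ^ (g j).val * r ^ Q = ζ.1 ^ (g i).val * r}.Finite := by
    intro i j
    have h0 : (Polynomial.C (ζ.1 ^ (g j).val) * Polynomial.X ^ Q -
        Polynomial.C (ζ.1 ^ (g i).val) * Polynomial.X : Polynomial K) ≠ 0 := by
      intro h
      have := congrArg (fun P => Polynomial.coeff P Q) h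
      simp only [Polynomial.coeff_sub, Polynomial.coeff_C_mul, Polynomial.coeff_X_pow, if_true,
        Polynomial.coeff_X, if_neg hQ.ne, Polynomial.coeff_zero, mul_one, mul_zero, sub_zero] at this
      exact pow_ne_zero _ hz this
    refine (Polynomial.finite_setOfPred_isRoot h0).subset fun r hr => ?_
    simpa [Polynomial.IsRoot, sub_eq_zero] using hr
  choose i hi using fun x : Projectivization K (Fin 3 → K) => Function.ne_iff.1 x.rep_nonzero
  refine Set.Finite.of_injOn (f := fun x => (x.rep (i x))⁻¹ • x.rep) ?_ ?_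
    (Set.finite_iUnion fun i => Set.Finite.pi' fun j => hR i j)
  · rintro x ⟨-, l, hl⟩
    refine Set.mem_iUnion.2 ⟨i x, fun j => ?_⟩
    have h0 : x.rep (i x) ≠ 0 := hi x
    have e1 := hl j
    have e2 := hl (i x)
    simp only [Set.mem_setOf_eq, Pi.smul_apply, smul_eq_mul, mul_pow, inv_pow]
    field_simp
    linear_combination x.rep (i x) * e1 - x.rep j * e2
  · intro x _ y _ h
    have hx : x.rep (i x) ≠ 0 := hi x
    have hy : y.rep (i y) ≠ 0 := hi y
    have h' : (x.rep (i x))⁻¹ • x.rep = (y.rep (i y))⁻¹ • y.rep := h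
    have n1 : (y.rep (i y))⁻¹ • y.rep ≠ 0 := smul_ne_zero (inv_ne_zero hy) y.rep_nonzero
    rw [← fixCa_mk x n1 (c := x.rep (i x)) (by rw [← h', smul_inv_smul₀ hx]),
      fixCa_mk y n1 (c := y.rep (i y)) (smul_inv_smul₀ hy _)]

/-- the character sums of the fixed point numbers of the group -/
theorem sum_one (a : Ch m) :
    ∑ g ∈ Finset.univ.erase (0 : Ch m), ch1 a (-g) *
      (if g.1 = 0 ∨ g.2 = 0 ∨ g.1 = g.2 then (m : ℂ) else 0) =
      m * ∑ j, ((if ex3 a j = 0 then (m : ℂ) else 0) - 1) := by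
  have hs : ∀ b : ZMod m, ∑ t : ZMod m, ZMod.stdAddChar (t * b) = if b = 0 then (m : ℂ) else 0 := by
    intro b
    rw [AddChar.sum_mulShift b (ZMod.isPrimitive_stdAddChar m), ZMod.card]
    split_ifs <;> simp
  have e : ∀ g ∈ Finset.univ.erase (0 : Ch m), ch1 a (-g) *
      (if g.1 = 0 ∨ g.2 = 0 ∨ g.1 = g.2 then (m : ℂ) else 0) =
      m * ((if g.2 = 0 then ch1 a (-g) else 0) + (if g.1 = 0 then ch1 a (-g) else 0) +
        (if g.1 = g.2 then ch1 a (-g) else 0)) := by
    rintro ⟨x, y⟩ hg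
    have hg' : x = 0 → y ≠ 0 := fun h1 h2 => Finset.ne_of_mem_erase hg (by rw [h1, h2]; rfl)
    by_cases h1 : x = 0
    · have := hg' h1
      simp [h1, this, Ne.symm this, mul_comm]
    by_cases h2 : y = 0
    · simp [h1, h2, mul_comm]
    by_cases h3 : x = y
    · simp [h2, h3, mul_comm]
    · simp [h1, h2, h3]
  rw [Finset.sum_congr rfl e, ← Finset.mul_sum, Finset.sum_erase_eq_sub (Finset.mem_univ _),
    Finset.sum_add_distrib, Finset.sum_add_distrib, Fin.sum_univ_three]
  have s0 : ∑ g : Ch m, (if g.2 = 0 then ch1 a (-g) else 0) = if ex3 a 0 = 0 then (m : ℂ) else 0 := by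
    have := hs (-a.1)
    simp only [neg_eq_zero] at this
    rw [Fintype.sum_prod_type]
    simp only [Finset.sum_ite_eq', Finset.mem_univ, if_true]
    refine Eq.trans (Finset.sum_congr rfl fun t _ => ?_) this
    simp only [ch1, Prod.neg_mk]; congr 1; ring
  have s1 : ∑ g : Ch m, (if g.1 = 0 then ch1 a (-g) else 0) = if ex3 a 1 = 0 then (m : ℂ) else 0 := by
    have := hs (-a.2)
    simp only [neg_eq_zero] at this
    rw [Fintype.sum_prod_type_right]
    simp only [Finset.sum_ite_eq', Finset.mem_univ, if_true]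
    refine Eq.trans (Finset.sum_congr rfl fun t _ => ?_) this
    simp only [ch1, Prod.neg_mk]; congr 1; ring
  have s2 : ∑ g : Ch m, (if g.1 = g.2 then ch1 a (-g) else 0) = if ex3 a 2 = 0 then (m : ℂ) else 0 := by
    rw [Fintype.sum_prod_type]
    simp only [Finset.sum_ite_eq, Finset.mem_univ, if_true]
    refine Eq.trans (Finset.sum_congr rfl fun t _ => ?_) (hs (-a.1 - a.2))
    simp only [ch1, Prod.neg_mk]; congr 1; ring
  rw [s0, s1, s2]
  have z : ch1 a (-0) = 1 := by simp [ch1]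
  simp only [Prod.fst_zero, Prod.snd_zero, if_true, z]
  ring

variable (p : ℕ) [Fact p.Prime] [CharP K p]

theorem fix_card (F : Type) [Field F] [Finite F] [Algebra F K] {s : ℕ} (hF : Nat.card F = p ^ s) :
    (fixSet ζ 0 (p ^ s)).ncard =
      Nat.card {x : Projectivization F (Fin 3 → F) // OnF m x.rep} := by
  classical
  letI := Fintype.ofFinite F
  rw [Nat.card_eq_fintype_card] at hF
  rw [← hF]
  have hi := (algebraMap F K).injective
  have hfix : ∀ a : F, algebraMap F K a ^ Fintype.card F = algebraMap F K a := fun a => by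
    rw [← map_pow, FiniteField.pow_card]
  have hrange : ∀ t : K, t ^ Fintype.card F = t → ∃ a, algebraMap F K a = t := by
    intro t ht
    have h0 := FiniteField.X_pow_card_sub_X_ne_zero F (Fintype.one_lt_card (α := F))
    have hs : (Polynomial.X ^ Fintype.card F - Polynomial.X : Polynomial F).Splits := by
      rw [Polynomial.splits_iff_card_roots, FiniteField.roots_X_pow_card_sub_X,
        FiniteField.X_pow_card_sub_X_natDegree_eq F Fintype.one_lt_card]
      rfl
    exact hs.mem_range_of_isRoot h0 (by simp [Polynomial.IsRoot, ht])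
  have hne : ∀ v : Fin 3 → F, v ≠ 0 → (fun j => algebraMap F K (v j)) ≠ 0 := fun v hv h =>
    hv (funext fun j => hi (by simpa using congrFun h j))
  have hon : ∀ v : Fin 3 → F, OnF m (fun j => algebraMap F K (v j)) ↔ OnF m v := fun v => by
    simp only [OnF, ← map_pow, ← map_add, hi.eq_iff]
  let Φ : Projectivization F (Fin 3 → F) → Projectivization K (Fin 3 → K) := fun y =>
    Projectivization.mk K (fun j => algebraMap F K (y.rep j)) (hne _ y.rep_nonzero)
  have inj : Function.Injective Φ := by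
    intro x y h
    obtain ⟨u, hu⟩ := (Projectivization.mk_eq_mk_iff' K _ _ _ _).1 h
    obtain ⟨i, hy⟩ := Function.ne_iff.1 y.rep_nonzero
    have hy' : algebraMap F K (y.rep i) ≠ 0 := (map_ne_zero _).2 hy
    have e := fun j => congrFun hu j
    simp only [Pi.smul_apply, smul_eq_mul] at e
    rw [← fixCa_mk x y.rep_nonzero (c := x.rep i / y.rep i), y.mk_rep]
    funext j
    apply hi
    rw [Pi.smul_apply, smul_eq_mul, map_mul, map_div₀, ← e i, ← e j]
    field_simp
  have e : fixSet ζ 0 (Fintype.card F) = Φ '' {y | OnF m y.rep} := by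
    ext x
    simp only [fixSet, Pi.zero_apply, ZMod.val_zero, pow_zero, one_mul, Set.mem_setOf_eq,
      Set.mem_image]
    constructor
    · rintro ⟨h, l, hl⟩
      obtain ⟨i, hx⟩ := Function.ne_iff.1 x.rep_nonzero
      have hx' : x.rep i ≠ 0 := hx
      have hl0 : l ≠ 0 := fun h0 => pow_ne_zero _ hx' (by rw [hl i, h0, zero_mul])
      choose v hv using fun j => hrange (x.rep j / x.rep i) (by
        rw [div_pow, hl j, hl i, mul_div_mul_left _ _ hl0])
      have hv0 : v ≠ 0 := fun h0 => by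
        have := hv i
        rw [h0, div_self hx'] at this
        simp at this
      obtain ⟨c, hc, ec⟩ := fixCa_rep v hv0
      have hc' : algebraMap F K c ≠ 0 := (map_ne_zero _).2 hc
      have e2 : (x.rep i / algebraMap F K c) •
          (fun j => algebraMap F K ((Projectivization.mk F v hv0).rep j)) = x.rep := by
        funext j
        rw [ec, Pi.smul_apply, Pi.smul_apply, smul_eq_mul, smul_eq_mul, map_mul, hv]
        field_simp
      refine ⟨Projectivization.mk F v hv0, ?_, fixCa_mk x _ e2⟩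
      rw [← hon, ← fixCa_onF_smul (div_ne_zero hx' hc'), e2]
      exact h
    · rintro ⟨y, hy, rfl⟩
      obtain ⟨c, hc, ec⟩ := fixCa_rep (fun j => algebraMap F K (y.rep j)) (hne _ y.rep_nonzero)
      simp only [Φ, ec, fixCa_onF_smul hc, hon]
      refine ⟨hy, c ^ Fintype.card F / c, fun j => ?_⟩
      rw [Pi.smul_apply, smul_eq_mul, mul_pow, hfix]
      field_simp
  rw [e, Set.ncard_image_of_injective _ inj]
  rfl

end Pool.Agent.Tate
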