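import Pool.Agent.P.MP_2ce3e7_ag.Poly

/-! Points, tangent spaces and the Nullstellensatz. -/

set_option autoImplicit false

noncomputable section

namespace Pool.Agent.Tate

open MvPolynomial

section General
variable {K σ : Type} [Field K] [Fintype σ]

theorem dif_add (f g : MvPolynomial σ K) (x v : σ → K) :
    dif (f + g) x v = dif f x v + dif g x v := by
  simp only [dif, map_add, add_mul, Finset.sum_add_distrib]

theorem dif_mul (f g : MvPolynomial σ K) (x v : σ → K) :
    dif (f * g) x v = eval x f * dif g x v + eval x g * dif f x v := by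
  simp only [dif, Derivation.leibniz, smul_eq_mul, map_add, map_mul, add_mul,
    Finset.sum_add_distrib, Finset.mul_sum, mul_assoc]

theorem dif_C (a : K) (x v : σ → K) : dif (C a) x v = 0 := by
  simp [dif]

theorem dif_X (w : σ) (x v : σ → K) : dif (X w) x v = v w := by
  classical
  simp only [dif, pderiv_X, Pi.single_apply]
  rw [Finset.sum_eq_single w]
  · simp
  · intro b _ hb
    rw [if_neg (fun h => hb h.symm)]
    simp
  · simp

theorem dif_pow (f : MvPolynomial σ K) (n : ℕ) (x v : σ → K) :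
    dif (f ^ n) x v = n * eval x f ^ (n - 1) * dif f x v := by
  simp only [dif, Derivation.leibniz_pow, smul_eq_mul, nsmul_eq_mul, map_mul, map_pow,
    map_natCast, Finset.mul_sum, mul_assoc]

theorem dif_linear (f : MvPolynomial σ K) (x : σ → K) : IsLinearMap K (dif f x) := by
  constructor
  · intro u v
    simp only [dif, Pi.add_apply, mul_add, Finset.sum_add_distrib]
  · intro a v
    simp only [dif, Pi.smul_apply, smul_eq_mul, Finset.mul_sum]
    exact Finset.sum_congr rfl fun w _ => by ring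

omit [Fintype σ] in
theorem ptsA_eval_aeval {σ' : Type} (θ : σ → MvPolynomial σ' K) (f : MvPolynomial σ K)
    (x : σ' → K) : eval x (aeval θ f) = eval (fun w => eval x (θ w)) f := by
  induction f using MvPolynomial.induction_on with
  | C a => simp
  | add p q hp hq => simp only [map_add, hp, hq]
  | mul_X p w hp => simp only [map_mul, hp, aeval_X, eval_X]

omit [Fintype σ] in
theorem ptsA_sc_eval (c x : σ → K) :
    (fun w => eval x (C (c w) * X w : MvPolynomial σ K)) = c * x := by
  funext w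
  simp

theorem ptsA_sc_dif (c x v : σ → K) :
    (fun w => dif (C (c w) * X w : MvPolynomial σ K) x v) = c * v := by
  funext w
  rw [dif_mul, dif_X, dif_C, eval_C, mul_zero, add_zero, Pi.mul_apply]

theorem ptsA_dif_single [DecidableEq σ] (g : MvPolynomial σ K) (x : σ → K) (w : σ) :
    dif g x (Pi.single w 1) = eval x (pderiv w g) := by
  rw [dif, Finset.sum_eq_single w]
  · simp
  · intro b _ hb
    simp [hb]
  · simp

omit [Fintype σ] in
theorem ptsA_gen_map {σ' : Type} (θ : σ → MvPolynomial σ' K) {J : Ideal (MvPolynomial σ K)}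
    {c : ℕ} {s : MvPolynomial σ K} {f : Fin c → MvPolynomial σ K}
    (hg : ∀ g ∈ J, s * g ∈ Ideal.span (Set.range f)) :
    ∀ g ∈ J.map (aeval θ : _ →ₐ[K] _),
      aeval θ s * g ∈ Ideal.span (Set.range fun i => aeval θ (f i)) := by
  intro g hg'
  rw [Ideal.map] at hg'
  induction hg' using Submodule.span_induction with
  | mem g h =>
    obtain ⟨g, hgJ, rfl⟩ := h
    have h1 := Ideal.mem_map_of_mem (aeval θ : _ →ₐ[K] _) (hg g hgJ)
    rw [Ideal.map_span, ← Set.range_comp, map_mul] at h1
    exact h1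
  | zero => simp
  | add a b _ _ ha hb => rw [mul_add]; exact Ideal.add_mem _ ha hb
  | smul a b _ hb => rw [smul_eq_mul, mul_left_comm]; exact Ideal.mul_mem_left _ _ hb

/-- chain rule -/
theorem dif_aeval {σ' : Type} [Fintype σ'] (θ : σ → MvPolynomial σ' K) (f : MvPolynomial σ K)
    (x v : σ' → K) :
    dif (aeval θ f) x v = dif f (fun w => eval x (θ w)) fun w => dif (θ w) x v := by
  induction f using MvPolynomial.induction_on with
  | C a => rw [aeval_C, algebraMap_eq, dif_C, dif_C]
  | add p q hp hq => rw [map_add, dif_add, dif_add, hp, hq]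
  | mul_X p w hp =>
    rw [map_mul, dif_mul, dif_mul, hp, aeval_X, dif_X, eval_X, ptsA_eval_aeval]

theorem dif_sc (c : σ → K) (f : MvPolynomial σ K) (x v : σ → K) :
    dif (sc c f) x v = dif f (c * x) (c * v) := by
  have h := dif_aeval (fun w => C (c w) * X w) f x v
  rw [ptsA_sc_eval, ptsA_sc_dif] at h
  exact h

omit [Fintype σ] in
theorem mem_ZS_span {s : Set (MvPolynomial σ K)} {x : σ → K} :
    x ∈ ZS (Ideal.span s) ↔ ∀ f ∈ s, eval x f = 0 := by
  constructor
  · intro h f hf
    exact h f (Ideal.subset_span hf)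
  · intro h f hf
    have : Ideal.span s ≤ RingHom.ker (eval x) := Ideal.span_le.2 fun g hg => h g hg
    exact this hf

omit [Fintype σ] in
theorem ZS_sup (J J' : Ideal (MvPolynomial σ K)) : ZS (J ⊔ J') = ZS J ∩ ZS J' := by
  ext x
  constructor
  · intro h
    exact ⟨fun f hf => h f (Ideal.mem_sup_left hf), fun f hf => h f (Ideal.mem_sup_right hf)⟩
  · rintro ⟨h1, h2⟩ f hf
    obtain ⟨a, ha, b, hb, rfl⟩ := Submodule.mem_sup.1 hf
    rw [map_add, h1 a ha, h2 b hb, add_zero]

theorem mem_Tan_span {s : Set (MvPolynomial σ K)} {x v : σ → K} (hx : x ∈ ZS (Ideal.span s)) :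
    v ∈ Tan (Ideal.span s) x ↔ ∀ f ∈ s, dif f x v = 0 := by
  constructor
  · intro h f hf
    exact h f (Ideal.subset_span hf)
  · intro h f hf
    induction hf using Submodule.span_induction with
    | mem g hg => exact h g hg
    | zero => simp [dif]
    | add a b _ _ ha hb => rw [dif_add, ha, hb, add_zero]
    | smul a b hb ih => rw [smul_eq_mul, dif_mul, ih, hx b hb, mul_zero, zero_mul, add_zero]

theorem Tan_sup (J J' : Ideal (MvPolynomial σ K)) (x : σ → K) :
    Tan (J ⊔ J') x = Tan J x ∩ Tan J' x := by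
  ext v
  constructor
  · intro h
    exact ⟨fun f hf => h f (Ideal.mem_sup_left hf), fun f hf => h f (Ideal.mem_sup_right hf)⟩
  · rintro ⟨h1, h2⟩ f hf
    obtain ⟨a, ha, b, hb, rfl⟩ := Submodule.mem_sup.1 hf
    rw [dif_add, h1 a ha, h2 b hb, add_zero]

omit [Fintype σ] in
theorem mem_ZS_map {σ' : Type} (θ : σ → MvPolynomial σ' K) (J : Ideal (MvPolynomial σ K))
    (x : σ' → K) : x ∈ ZS (J.map (aeval θ : _ →ₐ[K] _)) ↔ (fun w => eval x (θ w)) ∈ ZS J := by
  rw [Ideal.map, mem_ZS_span]
  constructor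
  · intro h f hf
    rw [← ptsA_eval_aeval]
    exact h _ ⟨f, hf, rfl⟩
  · rintro h _ ⟨f, hf, rfl⟩
    rw [ptsA_eval_aeval]
    exact h f hf

theorem mem_Tan_map {σ' : Type} [Fintype σ'] (θ : σ → MvPolynomial σ' K)
    {J : Ideal (MvPolynomial σ K)} {x : σ' → K} (hx : (fun w => eval x (θ w)) ∈ ZS J)
    (v : σ' → K) : v ∈ Tan (J.map (aeval θ : _ →ₐ[K] _)) x ↔
      (fun w => dif (θ w) x v) ∈ Tan J fun w => eval x (θ w) := by
  have hx' := (mem_ZS_map θ J x).2 hx
  rw [Ideal.map] at hx' ⊢
  rw [mem_Tan_span hx']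
  constructor
  · intro h f hf
    rw [← dif_aeval]
    exact h _ ⟨f, hf, rfl⟩
  · rintro h _ ⟨f, hf, rfl⟩
    rw [dif_aeval]
    exact h f hf

omit [Fintype σ] in
theorem LocGen.map {σ' : Type} (θ : σ → MvPolynomial σ' K) {J : Ideal (MvPolynomial σ K)} {c : ℕ}
    {x : σ' → K} (h : LocGen J c fun w => eval x (θ w)) :
    LocGen (J.map (aeval θ : _ →ₐ[K] _)) c x := by
  obtain ⟨s, f, hs, hf, hg⟩ := h
  refine ⟨aeval θ s, fun i => aeval θ (f i), ?_, fun i => Ideal.mem_map_of_mem _ (hf i), ?_⟩
  · rwa [ptsA_eval_aeval]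
  · exact ptsA_gen_map θ hg

omit [Fintype σ] in
theorem mem_ZS_sc (c : σ → K) (J : Ideal (MvPolynomial σ K)) (x : σ → K) :
    x ∈ ZS (J.map (sc c)) ↔ c * x ∈ ZS J := by
  have h := mem_ZS_map (fun w => C (c w) * X w) J x
  rw [ptsA_sc_eval] at h
  exact h

theorem mem_Tan_sc (c : σ → K) {J : Ideal (MvPolynomial σ K)} {x : σ → K} (hx : c * x ∈ ZS J)
    (v : σ → K) : v ∈ Tan (J.map (sc c)) x ↔ c * v ∈ Tan J (c * x) := by
  have h := mem_Tan_map (fun w => C (c w) * X w) (J := J) (x := x)
    (by rw [ptsA_sc_eval]; exact hx) v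
  rw [ptsA_sc_eval, ptsA_sc_dif] at h
  exact h

omit [Fintype σ] in
theorem LocGen.map_sc (c : σ → K) {J : Ideal (MvPolynomial σ K)} {n : ℕ} {x : σ → K}
    (h : LocGen J n (c * x)) : LocGen (J.map (sc c)) n x := by
  exact LocGen.map (fun w => C (c w) * X w) (by rw [ptsA_sc_eval]; exact h)

theorem Smo.locGen {J : Ideal (MvPolynomial σ K)} {c : ℕ} {x : σ → K} (h : Smo J c x) :
    LocGen J c x := by
  obtain ⟨s, f, hs, hf, hg, -⟩ := h
  exact ⟨s, f, hs, hf, hg⟩

theorem Smo.map_sc {c : σ → K} (hc : ∀ w, c w ≠ 0) {J : Ideal (MvPolynomial σ K)} {n : ℕ}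
    {x : σ → K} (h : Smo J n (c * x)) : Smo (J.map (sc c)) n x := by
  classical
  obtain ⟨s, f, hs, hf, hg, hl⟩ := h
  refine ⟨sc c s, fun i => sc c (f i), ?_, fun i => Ideal.mem_map_of_mem _ (hf i),
    ptsA_gen_map _ hg, ?_⟩
  · have := ptsA_eval_aeval (fun w => C (c w) * X w) s x
    rw [ptsA_sc_eval] at this
    change eval x (aeval (fun w => C (c w) * X w) s) ≠ 0
    rwa [this]
  · have key : ∀ (g : MvPolynomial σ K) (w : σ),
        eval x (pderiv w (sc c g)) = c w * eval (c * x) (pderiv w g) := by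
      intro g w
      rw [← ptsA_dif_single, dif_sc, ← ptsA_dif_single, ← smul_eq_mul (c w),
        ← (dif_linear g (c * x)).map_smul]
      congr 1
      funext u
      by_cases hu : u = w
      · subst hu
        simp
      · simp [hu]
    rw [Fintype.linearIndependent_iff] at hl ⊢
    intro a ha
    apply hl a
    funext w
    have h1 := congrFun ha w
    simp only [Finset.sum_apply, Pi.smul_apply, smul_eq_mul, Pi.zero_apply, key] at h1 ⊢
    have h2 : c w * ∑ i, a i * eval (c * x) (pderiv w (f i)) = 0 := by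
      rw [Finset.mul_sum, ← h1]
      exact Finset.sum_congr rfl fun i _ => by ring
    exact (mul_eq_zero.1 h2).resolve_left (hc w)

/-- the tangent space at a smooth point -/
theorem Smo.tan_le {J : Ideal (MvPolynomial σ K)} {c : ℕ} {x : σ → K} (h : Smo J c x)
    (W : Submodule K (σ → K)) (hW : (W : Set (σ → K)) ⊆ Tan J x)
    (hd : Fintype.card σ ≤ c + Module.finrank K W) : Tan J x ⊆ W := by
  classical
  obtain ⟨s, f, -, hf, -, hl⟩ := h
  let A : Matrix (Fin c) σ K := fun i w => eval x (pderiv w (f i))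
  have hT : Tan J x ⊆ LinearMap.ker A.mulVecLin := by
    intro v hv
    change A.mulVecLin v = 0
    funext i
    exact hv (f i) (hf i)
  have hr : A.rank = c := by
    have := LinearIndependent.rank_matrix (M := A) hl
    simpa using this
  have hk := LinearMap.finrank_range_add_finrank_ker A.mulVecLin
  have hr' : Module.finrank K (LinearMap.range A.mulVecLin) = c := hr
  rw [hr', Module.finrank_fintype_fun_eq_card] at hk
  have hle : W ≤ LinearMap.ker A.mulVecLin := fun v hv => hT (hW hv)
  have heq : W = LinearMap.ker A.mulVecLin :=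
    Submodule.eq_of_le_of_finrank_le hle (by omega)
  rw [heq]
  exact hT

end General

end Pool.Agent.Tate
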