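import Pool.Agent.P.MP_2ce3e7_ag.Poly

/-! Pseudo-division and induction over graded primes. -/

set_option autoImplicit false

noncomputable section

namespace Pool.Agent.Tate

open MvPolynomial

variable {k σ ι : Type} [Field k]

theorem extc_le (U : Set σ) (p : Ideal (MvPolynomial σ k)) : extc U p ≤ p :=
  Ideal.span_le.2 fun _ h => h.1

theorem ind_mem {U : Set σ} {p : Ideal (MvPolynomial σ k)} {f : MvPolynomial σ k} (h : f ∈ p)
    (h' : f ∈ supported k U) : f ∈ extc U p := Ideal.subset_span ⟨h, h'⟩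

theorem extc_mono (U : Set σ) {p p' : Ideal (MvPolynomial σ k)} (h : p ≤ p') :
    extc U p ≤ extc U p' :=
  Ideal.span_mono fun _ hf => ⟨h hf.1, hf.2⟩

theorem extc_extc {U U' : Set σ} (h : U ⊆ U') (p : Ideal (MvPolynomial σ k)) :
    extc U (extc U' p) = extc U p :=
  le_antisymm (extc_mono U (extc_le U' p))
    (Ideal.span_mono fun _ hf => ⟨ind_mem hf.1 (supported_mono h hf.2), hf.2⟩)

theorem extc_univ (p : Ideal (MvPolynomial σ k)) : extc Set.univ p = p :=
  le_antisymm (extc_le _ p) fun _ hf => ind_mem hf (by simp [supported_univ])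

theorem extc_empty {p : Ideal (MvPolynomial σ k)} (h : p ≠ ⊤) : extc ∅ p = ⊥ := by
  refine Ideal.span_eq_bot.2 fun f hf => ?_
  obtain ⟨h1, h2⟩ := hf
  rw [supported_empty, Algebra.mem_bot] at h2
  obtain ⟨a, rfl⟩ := h2
  by_contra h0
  have ha : a ≠ 0 := fun ha => h0 (by simp [ha])
  exact h (Ideal.eq_top_of_isUnit_mem _ h1 ((IsUnit.mk0 a ha).map _))

theorem extc_range {σ' : Type} {f : σ' → σ} (hf : Function.Injective f)
    (p : Ideal (MvPolynomial σ k)) :
    extc (Set.range f) p = (p.comap (rename f)).map (rename f) := by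
  classical
  refine congrArg Ideal.span (Set.ext fun g => ⟨fun h => ?_, ?_⟩)
  · obtain ⟨q, rfl⟩ := exists_rename_eq_of_vars_subset_range g f hf (mem_supported.1 h.2)
    exact ⟨q, h.1, rfl⟩
  · rintro ⟨q, hq, rfl⟩
    refine ⟨hq, mem_supported.2 fun s hs => ?_⟩
    obtain ⟨i, -, rfl⟩ := Finset.mem_image.1 (vars_rename f q hs)
    exact ⟨i, rfl⟩

open Classical in
/-- the variables from `U` become coefficients -/
def indXi (k : Type) [Field k] (U : Set σ) :
    MvPolynomial σ k →ₐ[k] MvPolynomial σ (MvPolynomial σ k) :=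
  aeval fun s => if s ∈ U then C (X s) else X s

theorem indXi_of_mem {U : Set σ} {g : MvPolynomial σ k} (hg : g ∈ supported k U) :
    indXi k U g = C g := by
  induction hg using Algebra.adjoin_induction with
  | mem x hx =>
    obtain ⟨s, hs, rfl⟩ := hx
    simp [indXi, hs]
  | algebraMap r => simp [indXi]
  | add x y _ _ hx hy => simp [hx, hy]
  | mul x y _ _ hx hy => simp [hx, hy]

theorem indXi_eval (U : Set σ) (f : MvPolynomial σ k) : eval X (indXi k U f) = f := by
  induction f using MvPolynomial.induction_on with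
  | C a => simp [indXi]
  | add p q hp hq => simp [hp, hq]
  | mul_X p s hp =>
    rw [map_mul, map_mul, hp]
    by_cases hs : s ∈ U <;> simp [indXi, hs]

theorem indXi_coeff (U : Set σ) (f : MvPolynomial σ k) :
    ∀ e, coeff e (indXi k U f) ∈ supported k U := by
  classical
  induction f using MvPolynomial.induction_on with
  | C a =>
    intro e
    rw [indXi_of_mem (g := C a) (Subalgebra.algebraMap_mem (supported k U) a), coeff_C]
    split_ifs
    · exact Subalgebra.algebraMap_mem (supported k U) a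
    · exact zero_mem _
  | add p q hp hq => intro e; rw [map_add, coeff_add]; exact add_mem (hp e) (hq e)
  | mul_X p s hp =>
    intro e
    rw [map_mul]
    by_cases hs : s ∈ U
    · rw [indXi_of_mem (X_mem_supported.2 hs), mul_comm, coeff_C_mul]
      exact mul_mem (X_mem_supported.2 hs) (hp e)
    · have : indXi k U (X s) = X s := by simp [indXi, hs]
      rw [this, coeff_mul_X']
      split_ifs
      · exact hp _
      · exact zero_mem _

theorem extc_isPrime (U : Set σ) {p : Ideal (MvPolynomial σ k)} (h : p.IsPrime) :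
    (extc U p).IsPrime := by
  have key : extc U p =
      RingHom.ker ((MvPolynomial.map (Ideal.Quotient.mk p)).comp (indXi k U).toRingHom) := by
    refine le_antisymm (Ideal.span_le.2 fun g hg => ?_) fun f hf => ?_
    · simp [RingHom.mem_ker, indXi_of_mem hg.2, Ideal.Quotient.eq_zero_iff_mem.2 hg.1]
    · rw [← indXi_eval U f, eval_eq]
      refine Ideal.sum_mem _ fun e _ => Ideal.mul_mem_right _ _ (ind_mem ?_ (indXi_coeff U f e))
      have := congrArg (coeff e) (RingHom.mem_ker.1 hf)
      rw [RingHom.comp_apply, coeff_map, coeff_zero] at this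
      exact Ideal.Quotient.eq_zero_iff_mem.1 this
  rw [key]
  exact RingHom.ker_isPrime _

theorem ind_of_cmp (w : σ → ι → ℤ) {J : Ideal (MvPolynomial σ k)} {f : MvPolynomial σ k}
    (h : ∀ d, weightedHomogeneousComponent w d f ∈ J) : f ∈ J := by
  rw [← sum_weightedHomogeneousComponent (w := w) f]
  exact finsum_induction (· ∈ J) J.zero_mem (fun _ _ => J.add_mem) h

theorem ind_support (w : σ → ι → ℤ) (d : ι → ℤ) (f : MvPolynomial σ k) :
    (weightedHomogeneousComponent w d f).support ⊆ f.support := by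
  classical
  intro s hs
  rw [mem_support_iff, coeff_weightedHomogeneousComponent] at hs
  exact mem_support_iff.2 fun h => hs (by simp [h])

theorem ind_cmp_supported (w : σ → ι → ℤ) (d : ι → ℤ) {U : Set σ} {f : MvPolynomial σ k}
    (h : f ∈ supported k U) : weightedHomogeneousComponent w d f ∈ supported k U := by
  refine mem_supported.2 fun s hs => mem_supported.1 h ?_
  obtain ⟨e, he, hs⟩ := (mem_vars_iff_mem_support _).1 hs
  exact (mem_vars_iff_mem_support _).2 ⟨e, ind_support w d f he, hs⟩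

theorem GrW.extc {w : σ → ι → ℤ} (U : Set σ) {p : Ideal (MvPolynomial σ k)} (h : GrW w p) :
    GrW w (extc U p) := by
  have key : Tate.extc U p = Ideal.span
      {f | (f ∈ p ∧ f ∈ supported k U) ∧ ∃ d, f.IsWeightedHomogeneous w d} :=
    le_antisymm (Ideal.span_le.2 fun g hg => ind_of_cmp w fun d => Ideal.subset_span
      ⟨⟨h d g hg.1, ind_cmp_supported w d hg.2⟩, d,
        weightedHomogeneousComponent_isWeightedHomogeneous d g⟩)
      (Ideal.span_mono fun _ hf => hf.1)
  rw [key]
  exact grW_span fun _ hf => hf.2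

open Classical in
/-- polynomials in the variable `t` -/
def indTh (k : Type) [Field k] (t : σ) :
    MvPolynomial σ k →ₐ[k] Polynomial (MvPolynomial σ k) :=
  aeval fun s => if s = t then Polynomial.X else Polynomial.C (X s)

theorem indTh_X (t : σ) : indTh k t (X t) = Polynomial.X := by simp [indTh]

theorem indTh_X_ne {t s : σ} (h : s ≠ t) : indTh k t (X s) = Polynomial.C (X s) := by
  simp [indTh, h]

theorem indTh_C (t : σ) (a : k) : indTh k t (C a) = Polynomial.C (C a) := by simp [indTh]

theorem indTh_of_mem {U : Set σ} {t : σ} (ht : t ∉ U) {g : MvPolynomial σ k}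
    (hg : g ∈ supported k U) : indTh k t g = Polynomial.C g := by
  induction hg using Algebra.adjoin_induction with
  | mem x hx =>
    obtain ⟨s, hs, rfl⟩ := hx
    exact indTh_X_ne fun h => ht (h ▸ hs)
  | algebraMap r => exact indTh_C t r
  | add x y _ _ hx hy => simp [hx, hy]
  | mul x y _ _ hx hy => simp [hx, hy]

theorem indTh_eval (t : σ) (f : MvPolynomial σ k) : (indTh k t f).eval (X t) = f := by
  induction f using MvPolynomial.induction_on with
  | C a => simp [indTh_C]
  | add p q hp hq => simp [hp, hq]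
  | mul_X p s hp =>
    rw [map_mul, Polynomial.eval_mul, hp]
    by_cases hs : s = t
    · simp [hs, indTh_X]
    · simp [indTh_X_ne hs]

theorem indTh_coeff {U : Set σ} {t : σ} {f : MvPolynomial σ k}
    (hf : f ∈ supported k (insert t U)) : ∀ N, (indTh k t f).coeff N ∈ supported k U := by
  induction hf using Algebra.adjoin_induction with
  | mem x hx =>
    obtain ⟨s, hs, rfl⟩ := hx
    intro N
    by_cases h : s = t
    · rw [h, indTh_X, Polynomial.coeff_X]
      split_ifs
      · exact one_mem _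
      · exact zero_mem _
    · rw [indTh_X_ne h, Polynomial.coeff_C]
      split_ifs
      · exact X_mem_supported.2 (hs.resolve_left h)
      · exact zero_mem _
  | algebraMap r =>
    intro N
    rw [algebraMap_eq, indTh_C, Polynomial.coeff_C]
    split_ifs
    · exact Subalgebra.algebraMap_mem (supported k U) r
    · exact zero_mem _
  | add x y _ _ hx hy => intro N; rw [map_add, Polynomial.coeff_add]; exact add_mem (hx N) (hy N)
  | mul x y _ _ hx hy =>
    intro N
    rw [map_mul, Polynomial.coeff_mul]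
    exact sum_mem fun c _ => mul_mem (hx _) (hy _)

theorem indTh_extc {U : Set σ} {t : σ} (ht : t ∉ U) {p : Ideal (MvPolynomial σ k)}
    {f : MvPolynomial σ k} (hf : f ∈ extc U p) : ∀ N, (indTh k t f).coeff N ∈ p := by
  induction hf using Submodule.span_induction with
  | mem x hx =>
    intro N
    rw [indTh_of_mem ht hx.2, Polynomial.coeff_C]
    split_ifs
    · exact hx.1
    · exact zero_mem _
  | zero => intro N; simp
  | add x y _ _ hx hy => intro N; rw [map_add, Polynomial.coeff_add]; exact add_mem (hx N) (hy N)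
  | smul a x _ hx =>
    intro N
    rw [smul_eq_mul, map_mul, Polynomial.coeff_mul]
    exact sum_mem fun c _ => Ideal.mul_mem_left _ _ (hx _)

theorem indTh_monomial (t : σ) (s : σ →₀ ℕ) (a : k) :
    indTh k t (monomial s a) = Polynomial.monomial (s t) (monomial (s.erase t) a) := by
  classical
  have h1 : monomial (s.erase t) a ∈ supported k ({t}ᶜ : Set σ) := by
    refine mem_supported.2 fun x hx => ?_
    obtain ⟨e, he, hx⟩ := (mem_vars_iff_mem_support _).1 hx
    rw [Finset.mem_singleton.1 (support_monomial_subset he), Finsupp.support_erase] at hx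
    exact (Finset.mem_erase.1 hx).1
  have h2 : monomial s a = monomial (s.erase t) a * X t ^ s t := by
    rw [X_pow_eq_monomial, monomial_mul, mul_one, Finsupp.erase_add_single]
  rw [h2, map_mul, map_pow, indTh_X, indTh_of_mem (by simp) h1, Polynomial.C_mul_X_pow_eq_monomial]

theorem indTh_coeff_coeff (t : σ) (s : σ →₀ ℕ) (f : MvPolynomial σ k) :
    coeff (s.erase t) ((indTh k t f).coeff (s t)) = coeff s f := by
  classical
  induction f using MvPolynomial.induction_on' with
  | monomial u a =>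
    rw [indTh_monomial, Polynomial.coeff_monomial, coeff_monomial]
    by_cases h : u = s
    · simp [h]
    · rw [if_neg h]
      split_ifs with h1
      · rw [coeff_monomial, if_neg]
        intro h2
        exact h (by rw [← Finsupp.erase_add_single t u, h2, h1, Finsupp.erase_add_single])
      · rfl
  | add p q hp hq => simp [hp, hq]

theorem indTh_degree (t : σ) {f g : MvPolynomial σ k} (h : f.support ⊆ g.support) :
    (indTh k t f).degree ≤ (indTh k t g).degree := by
  rw [f.as_sum, map_sum]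
  refine (Polynomial.degree_sum_le _ _).trans (Finset.sup_le fun s hs => ?_)
  rw [indTh_monomial]
  refine (Polynomial.degree_monomial_le _ _).trans (Polynomial.le_degree_of_ne_zero fun h0 => ?_)
  have := indTh_coeff_coeff t s g
  rw [h0, coeff_zero] at this
  exact mem_support_iff.1 (h hs) this.symm

theorem indTh_pderiv (t : σ) (f : MvPolynomial σ k) :
    indTh k t (pderiv t f) = Polynomial.derivative (indTh k t f) := by
  classical
  induction f using MvPolynomial.induction_on with
  | C a => simp [indTh_C]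
  | add p q hp hq => simp [hp, hq]
  | mul_X p s hp =>
    rw [pderiv_mul, map_add, map_mul, map_mul, map_mul, hp, Polynomial.derivative_mul]
    by_cases hs : s = t
    · simp [hs, indTh_X]
    · simp [indTh_X_ne hs, pderiv_X_of_ne hs]

theorem ind_pderiv_mem {V : Set σ} (t : σ) {f : MvPolynomial σ k} (hf : f ∈ supported k V) :
    pderiv t f ∈ supported k V := by
  classical
  induction hf using Algebra.adjoin_induction with
  | mem x hx =>
    obtain ⟨s, -, rfl⟩ := hx
    by_cases hs : s = t
    · rw [hs, pderiv_X_self]; exact one_mem _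
    · rw [pderiv_X_of_ne hs]; exact zero_mem _
  | algebraMap r => rw [algebraMap_eq, pderiv_C]; exact zero_mem _
  | add x y _ _ hx hy => rw [map_add]; exact add_mem hx hy
  | mul x y h1 h2 hx hy => rw [pderiv_mul]; exact add_mem (mul_mem hx h2) (mul_mem h1 hy)

/-- adjoining one variable -/
theorem exists_step {w : σ → ι → ℤ} {U : Set σ} {t : σ} (ht : t ∉ U)
    {p : Ideal (MvPolynomial σ k)} (hp : p.IsPrime) (hg : GrW w p)
    (hne : extc (insert t U) p ≠ extc U p) :
    ∃ (ψ h : MvPolynomial σ k) (d : ι → ℤ), ψ ∈ p ∧ ψ ∈ supported k (insert t U) ∧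
      ψ ∉ extc U p ∧ ψ.IsWeightedHomogeneous w d ∧ h ∈ supported k U ∧ h ∉ p ∧
      (∀ f ∈ extc (insert t U) p, ∃ N : ℕ, h ^ N * f ∈ extc U p ⊔ Ideal.span {ψ}) ∧
      (CharZero k → pderiv t ψ ∉ p) := by
  have _ := hp
  have hsub : supported k U ≤ supported k (insert t U) := supported_mono (Set.subset_insert _ _)
  have hXt : X t ∈ supported k (insert t U) := X_mem_supported.2 (Set.mem_insert _ _)
  have hex : {f | f ∈ p ∧ f ∈ supported k (insert t U) ∧ f ∉ extc U p}.Nonempty := by
    by_contra h0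
    refine hne (le_antisymm (Ideal.span_le.2 fun f hf => ?_)
      (Ideal.span_mono fun f hf => ⟨hf.1, hsub hf.2⟩))
    by_contra h1
    exact h0 ⟨f, hf.1, hf.2, h1⟩
  obtain ⟨f₀, ⟨a1, a2, a3⟩, hmin⟩ :=
    (InvImage.wf (indTh k t) Polynomial.degree_lt_wf).has_min _ hex
  obtain ⟨d, hd⟩ : ∃ d, weightedHomogeneousComponent w d f₀ ∉ extc U p := by
    by_contra h0
    push Not at h0
    exact a3 (ind_of_cmp w h0)
  set ψ := weightedHomogeneousComponent w d f₀ with hψ
  have b1 : ψ ∈ p := hg d f₀ a1
  have b2 : ψ ∈ supported k (insert t U) := ind_cmp_supported w d a2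
  have low : ∀ f ∈ p, f ∈ supported k (insert t U) →
      (indTh k t f).degree < (indTh k t ψ).degree → f ∈ extc U p := fun f h1 h2 h3 => by
    by_contra h4
    exact hmin f ⟨h1, h2, h4⟩ (h3.trans_le (indTh_degree t (ind_support w d f₀)))
  have ne0 : indTh k t ψ ≠ 0 := fun h0 => hd (by
    rw [← indTh_eval t ψ, h0, Polynomial.eval_zero]; exact zero_mem _)
  set h := (indTh k t ψ).leadingCoeff with hh
  set n := (indTh k t ψ).natDegree with hn
  have c1 : h ∈ supported k U := indTh_coeff b2 _
  have c0 : h ≠ 0 := Polynomial.leadingCoeff_ne_zero.2 ne0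
  have c2 : h ∉ p := fun h0 => by
    have e1 : indTh k t (ψ - h * X t ^ n) = (indTh k t ψ).eraseLead := by
      rw [map_sub, map_mul, map_pow, indTh_X, indTh_of_mem ht c1,
        Polynomial.self_sub_C_mul_X_pow]
    have e2 := low (ψ - h * X t ^ n) (sub_mem b1 (Ideal.mul_mem_right _ _ h0))
      (sub_mem b2 (mul_mem (hsub c1) (pow_mem hXt _)))
      (by rw [e1]; exact Polynomial.degree_eraseLead_lt ne0)
    exact hd (by simpa using add_mem e2 (Ideal.mul_mem_right (X t ^ n) _ (ind_mem h0 c1)))
  have div : ∀ f, f ∈ p → f ∈ supported k (insert t U) →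
      ∃ N : ℕ, h ^ N * f ∈ extc U p ⊔ Ideal.span {ψ} := by
    intro f
    induction f using (InvImage.wf (indTh k t) Polynomial.degree_lt_wf).induction with
    | _ f ih =>
    intro h1 h2
    rcases lt_or_ge (indTh k t f).degree (indTh k t ψ).degree with h3 | h3
    · exact ⟨0, by simpa using Ideal.mem_sup_left (low f h1 h2 h3)⟩
    have f0 : indTh k t f ≠ 0 := fun h0 => ne0 (by
      rwa [h0, Polynomial.degree_zero, le_bot_iff, Polynomial.degree_eq_bot] at h3)
    have h4 : n ≤ (indTh k t f).natDegree := Polynomial.natDegree_le_natDegree h3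
    set a := (indTh k t f).leadingCoeff with ha
    have d1 : a ∈ supported k U := indTh_coeff h2 _
    have d0 : a ≠ 0 := Polynomial.leadingCoeff_ne_zero.2 f0
    set e := (indTh k t f).natDegree - n with he
    have e0 : (Polynomial.C h * indTh k t f).degree = (indTh k t f).degree :=
      Polynomial.degree_C_mul c0
    obtain ⟨N, hN⟩ := ih (h * f - a * X t ^ e * ψ) (by
      show (indTh k t _).degree < _
      rw [map_sub, map_mul, map_mul, map_mul, map_pow, indTh_X, indTh_of_mem ht c1,
        indTh_of_mem ht d1, ← e0]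
      refine Polynomial.degree_sub_lt_left ?_ (mul_ne_zero (Polynomial.C_ne_zero.2 c0) f0) ?_
      · rw [e0, Polynomial.degree_mul, Polynomial.degree_C_mul_X_pow _ d0,
          Polynomial.degree_eq_natDegree f0, Polynomial.degree_eq_natDegree ne0, ← hn,
          ← Nat.cast_add, he, Nat.sub_add_cancel h4]
      · simp [← ha, ← hh, mul_comm])
      (sub_mem (Ideal.mul_mem_left _ _ h1) (Ideal.mul_mem_left _ _ b1))
      (sub_mem (mul_mem (hsub c1) h2) (mul_mem (mul_mem (hsub d1) (pow_mem hXt _)) b2))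
    refine ⟨N + 1, ?_⟩
    have := add_mem hN (Ideal.mem_sup_right (S := extc U p)
      (Ideal.mul_mem_left _ (h ^ N * (a * X t ^ e)) (Ideal.mem_span_singleton_self ψ)))
    rwa [show h ^ N * (h * f - a * X t ^ e * ψ) + h ^ N * (a * X t ^ e) * ψ = h ^ (N + 1) * f by
      ring] at this
  refine ⟨ψ, h, d, b1, b2, hd, weightedHomogeneousComponent_isWeightedHomogeneous d f₀, c1, c2,
    fun f hf => ?_, fun _ h0 => ?_⟩
  · induction hf using Submodule.span_induction with
    | mem x hx => exact div x hx.1 hx.2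
    | zero => exact ⟨0, by simp⟩
    | add x y _ _ hx hy =>
      obtain ⟨N, hN⟩ := hx
      obtain ⟨M, hM⟩ := hy
      refine ⟨N + M, ?_⟩
      have := add_mem (Ideal.mul_mem_left _ (h ^ M) hN) (Ideal.mul_mem_left _ (h ^ N) hM)
      rwa [show h ^ M * (h ^ N * x) + h ^ N * (h ^ M * y) = h ^ (N + M) * (x + y) by ring] at this
    | smul a x _ hx =>
      obtain ⟨N, hN⟩ := hx
      exact ⟨N, by rw [smul_eq_mul, mul_left_comm]; exact Ideal.mul_mem_left _ _ hN⟩
  · have n0 : n ≠ 0 := fun h1 => c2 (by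
      have h2 := indTh_eval t ψ
      rw [Polynomial.eq_C_of_natDegree_eq_zero h1, Polynomial.eval_C, ← h1] at h2
      exact (show h = ψ from h2) ▸ b1)
    have e1 := indTh_extc ht (low _ h0 (ind_pderiv_mem t b2) (by
      rw [indTh_pderiv]; exact Polynomial.degree_derivative_lt ne0)) (n - 1)
    rw [indTh_pderiv, Polynomial.coeff_derivative, ← Nat.cast_succ, Nat.succ_eq_add_one,
      Nat.sub_add_cancel (Nat.one_le_iff_ne_zero.2 n0)] at e1
    have e2 : IsUnit ((n : ℕ) : MvPolynomial σ k) := by
      rw [← map_natCast (C : k →+* MvPolynomial σ k)]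
      exact (IsUnit.mk0 _ (Nat.cast_ne_zero.2 n0)).map _
    exact c2 ((Ideal.mul_unit_mem_iff_mem _ e2).1 e1)

theorem prime_ind [Finite σ] [Finite ι] (w : σ → ι → ℤ) (U : Set σ)
    (Φ : Ideal (MvPolynomial σ k) → Prop)
    (hB : ∀ p, GrW w p → p.IsPrime → extc U p = p →
      (∀ p', GrW w p' → p'.IsPrime → p < p' → Φ p') → Φ p)
    (hR : ∀ p p₁ ψ d, GrW w p → p.IsPrime → GrW w p₁ → p₁.IsPrime → p₁ ≤ p →
      extc U p₁ = extc U p → ψ ∈ p → ψ ∉ p₁ → ψ.IsWeightedHomogeneous w d →
      (∀ p', p'.IsPrime → p₁ ≤ p' → ψ ∈ p' → p' ≤ p → p' = p) →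
      (∀ p', GrW w p' → p'.IsPrime → p < p' → Φ p') →
      (∀ p', GrW w p' → p'.IsPrime → p₁ ≤ p' → ψ ∈ p' → p' ≠ p → Φ p') →
      (∀ p' y, GrW w p' → p'.IsPrime → p₁ ≤ p' → y ∈ U → X y ∉ p₁ → X y ∈ p' → Φ p') → Φ p)
    (p : Ideal (MvPolynomial σ k)) (hg : GrW w p) (hp : p.IsPrime) : Φ p := by
  classical
  obtain ⟨s, ⟨e⟩⟩ := Finite.exists_equiv_fin σ
  set V : ℕ → Set σ := fun r => U ∪ {x | (e x : ℕ) < r} with hV
  have V0 : V 0 = U := by simp [hV]
  have Vs : V s = Set.univ := Set.eq_univ_of_forall fun x => Or.inr (e x).2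
  have Vm : ∀ {i j}, i ≤ j → V i ⊆ V j := fun h =>
    Set.union_subset_union_right _ fun x hx => lt_of_lt_of_le hx h
  have wf : WellFounded (InvImage (Pi.Lex (· < ·) fun {_ : Fin (s + 1)} =>
      ((· > ·) : Ideal (MvPolynomial σ k) → _ → Prop))
      fun (q : Ideal (MvPolynomial σ k)) (r : Fin (s + 1)) => extc (V r) q) :=
    InvImage.wf _ (Pi.Lex.wellFounded _ fun _ => wellFounded_gt)
  induction p using wf.induction with
  | _ p ih =>
  have big : ∀ r ≤ s, ∀ p', GrW w p' → p'.IsPrime → extc (V r) p ≤ p' →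
      ∀ f ∈ supported k (V r), f ∈ p' → f ∉ p → Φ p' := by
    intro r hr p' h1 h2 h3 f h4 h5 h6
    refine ih p' ?_ h1 h2
    have hex : ∃ j, extc (V j) p' ≠ extc (V j) p :=
      ⟨r, fun h => h6 (extc_le _ _ (h ▸ ind_mem h5 h4))⟩
    have hj : Nat.find hex ≤ r :=
      Nat.find_min' hex fun h => h6 (extc_le _ _ (h ▸ ind_mem h5 h4))
    refine ⟨⟨Nat.find hex, by omega⟩, fun j hj' => not_not.1 (Nat.find_min hex hj'),
      lt_of_le_of_ne ?_ (Nat.find_spec hex).symm⟩
    show extc (V (Nat.find hex)) p ≤ extc (V (Nat.find hex)) p'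
    rw [← extc_extc (Vm hj) p]
    exact extc_mono _ h3
  have up : ∀ p', GrW w p' → p'.IsPrime → p < p' → Φ p' := fun p' h1 h2 h3 => by
    obtain ⟨f, h4, h5⟩ := SetLike.exists_of_lt h3
    exact big s le_rfl p' h1 h2 ((extc_le _ _).trans h3.le) f (by simp [Vs, supported_univ]) h4 h5
  have hex : ∃ r, extc (V r) p = p := ⟨s, by rw [Vs, extc_univ]⟩
  have hs : Nat.find hex ≤ s := Nat.find_min' hex (by rw [Vs, extc_univ])
  rcases h0 : Nat.find hex with _ | r
  · exact hB p hg hp (by simpa [h0, V0] using Nat.find_spec hex) up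
  have h1 : extc (V (r + 1)) p = p := h0 ▸ Nat.find_spec hex
  have h2 : extc (V r) p ≠ p := Nat.find_min hex (by omega)
  have hr : r < s := by omega
  have h3 : V (r + 1) = insert (e.symm ⟨r, hr⟩) (V r) := by
    ext x
    simp only [hV, Set.mem_union, Set.mem_insert_iff, Set.mem_ofPred_eq, Equiv.eq_symm_apply,
      Fin.ext_iff, Nat.lt_succ_iff_lt_or_eq]
    tauto
  have h4 : e.symm ⟨r, hr⟩ ∉ V r := fun h => h2 (by rwa [h3, Set.insert_eq_of_mem h] at h1)
  rw [h3] at h1
  obtain ⟨ψ, h, d, a1, -, a3, a4, a5, a6, a7, -⟩ := exists_step h4 hp hg (by rw [h1]; exact h2.symm)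
  have le : ∀ p' : Ideal (MvPolynomial σ k), p'.IsPrime → extc (V r) p ≤ p' → ψ ∈ p' → h ∉ p' →
      p ≤ p' := fun p' b1 b2 b3 b4 f hf => by
    obtain ⟨N, hN⟩ := a7 f (h1.symm ▸ hf)
    exact (b1.mem_or_mem (sup_le b2 ((Ideal.span_singleton_le_iff_mem _).2 b3) hN)).resolve_left
      fun b5 => b4 (b1.mem_of_pow_mem N b5)
  have hU : U ⊆ V r := Set.subset_union_left
  refine hR p (extc (V r) p) ψ d hg hp (hg.extc _) (extc_isPrime _ hp) (extc_le _ _)
    (extc_extc hU p) a1 a3 a4 (fun p' b1 b2 b3 b4 => le_antisymm b4 (le p' b1 b2 b3 fun b5 =>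
      a6 (b4 b5))) up (fun p' b1 b2 b3 b4 b5 => ?_) fun p' y b1 b2 b3 b4 b5 b6 => ?_
  · by_cases b6 : h ∈ p'
    · exact big r hr.le p' b1 b2 b3 h a5 b6 a6
    · exact up p' b1 b2 (lt_of_le_of_ne (le p' b2 b3 b4 b6) b5.symm)
  · have b7 : X y ∈ supported k (V r) := X_mem_supported.2 (hU b4)
    exact big r hr.le p' b1 b2 b3 _ b7 b6 fun b8 => b5 (ind_mem b8 b7)

end Pool.Agent.Tate
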