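import Pool.Agent.P.MP_2ce3e7_ag.FerP

/-! The ideals of the diagonals of pairs of factors are invertible. -/

set_option autoImplicit false

noncomputable section

namespace Pool.Agent.Tate

open MvPolynomial

section Alg
variable {R R' : Type} [CommRing R] [CommRing R']

/-- signed geometric sums -/
def minorB (m : ℕ) (x y : Fin 3 → R) (c l : Fin 3) : R :=
  (if l = 2 then -1 else 1) * ∑ r ∈ Finset.range m, (x l * y c) ^ r * (x c * y l) ^ (m - 1 - r)

/-- a family proportional to the minors -/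
def minorU (m : ℕ) (x y : Fin 3 → R) (c l : Fin 3) : R :=
  (if l = c then ∑ k, minorB m x y c k * x k else 0) - minorB m x y c l * x c

theorem minor_mapU (φ : R →+* R') (m : ℕ) (x y : Fin 3 → R) (c l : Fin 3) :
    φ (minorU m x y c l) = minorU m (fun a => φ (x a)) (fun a => φ (y a)) c l := by
  have hB : ∀ k, φ (minorB m x y c k) = minorB m (fun a => φ (x a)) (fun a => φ (y a)) c k := by
    intro k
    unfold minorB
    split_ifs <;> simp
  unfold minorU
  split_ifs <;> simp [hB]

theorem minor_cross (B x y : Fin 3 → R) (a b c : Fin 3) : ∃ t : R,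
    ((if a = c then ∑ k, B k * x k else 0) - B a * x c) *
        (x (b + 1) * y (b + 2) - x (b + 2) * y (b + 1)) -
      ((if b = c then ∑ k, B k * x k else 0) - B b * x c) *
        (x (a + 1) * y (a + 2) - x (a + 2) * y (a + 1)) =
      t * ∑ l, B l * (x l * y c - x c * y l) := by
  refine ⟨if b = a + 1 then x (a + 2) else if a = b + 1 then - x (b + 2) else 0, ?_⟩
  fin_cases a <;> fin_cases b <;> fin_cases c <;> simp [Fin.sum_univ_three] <;> ring

theorem minor_sumB (m : ℕ) (x y : Fin 3 → R) (c : Fin 3) :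
    ∑ l, minorB m x y c l * (x l * y c - x c * y l) =
      y c ^ m * (x 0 ^ m + x 1 ^ m - x 2 ^ m) - x c ^ m * (y 0 ^ m + y 1 ^ m - y 2 ^ m) := by
  have h : ∀ l, minorB m x y c l * (x l * y c - x c * y l) =
      (if l = 2 then -1 else 1) * ((x l * y c) ^ m - (x c * y l) ^ m) := by
    intro l
    rw [minorB, mul_assoc, geom_sum₂_mul]
  simp only [h, Fin.sum_univ_three, mul_pow]
  simp
  ring

theorem minor_comm {x y : Fin 3 → R}
    (h : ∀ a, x (a + 1) * y (a + 2) - x (a + 2) * y (a + 1) = 0) (a b : Fin 3) :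
    x a * y b = x b * y a := by
  have h0 : x 1 * y 2 - x 2 * y 1 = 0 := h 0
  have h1 : x 2 * y 0 - x 0 * y 2 = 0 := h 1
  have h2 : x 0 * y 1 - x 1 * y 0 = 0 := h 2
  fin_cases a <;> fin_cases b <;> simp <;>
    first
    | linear_combination h0
    | linear_combination -h0
    | linear_combination h1
    | linear_combination -h1
    | linear_combination h2
    | linear_combination -h2

theorem minor_nil {n : ℕ} {x y : Fin 3 → R} (h : ∀ a b, x a * y b = x b * y a)
    (hf : x 0 ^ (n + 1) + x 1 ^ (n + 1) - x 2 ^ (n + 1) = 0) (c : Fin 3)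
    (hu : minorU (n + 1) x y c c = 0) : ((n + 1 : ℕ) : R) * (x c * y c) ^ (n + 1) = 0 := by
  have hB : ∀ l, minorB (n + 1) x y c l =
      (if l = 2 then -1 else 1) * (((n + 1 : ℕ) : R) * (x l * y c) ^ n) := by
    intro l
    rw [minorB, h c l, geom_sum₂_self]
    rfl
  simp only [minorU, hB, if_true, Fin.sum_univ_three] at hu
  generalize ((n + 1 : ℕ) : R) = M at hu ⊢
  fin_cases c <;> simp [mul_pow] at hu ⊢
  · linear_combination (M * y 0 ^ (n + 1)) * hf - y 0 * hu
  · linear_combination (M * y 1 ^ (n + 1)) * hf - y 1 * hu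
  · linear_combination (-M * y 2 ^ (n + 1)) * hf + y 2 * hu

end Alg

variable {m : ℕ} {ι : Type} [Fintype ι]

omit [Fintype ι] in
theorem minor_prp_map {A k k' : Type} [CommRing k] [CommRing k'] (s : k →+* k')
    {u g : A → S k ι} (h : Prp m u g) : Prp m (fun a => map s (u a)) fun a => map s (g a) := by
  intro a b
  have := map_mem_Fer s (h a b)
  simpa using this

omit [Fintype ι] in
theorem minor_prp_self {A k : Type} [CommRing k] (g : A → S k ι) : Prp m g g := by
  intro a b
  rw [mul_comm, sub_self]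
  exact Ideal.zero_mem _

omit [Fintype ι] in
theorem minor_prp_U {k : Type} [CommRing k] (i j : ι) (c : Fin 3) :
    Prp m (minorU m (fun l => (X (i, l) : S k ι)) (fun l => X (j, l)) c) (minor k i j) := by
  intro a b
  obtain ⟨t, ht⟩ := minor_cross (minorB m (fun l => (X (i, l) : S k ι)) (fun l => X (j, l)) c)
    (fun l => (X (i, l) : S k ι)) (fun l => X (j, l)) a b c
  rw [minor_sumB] at ht
  unfold minorU minor
  rw [ht]
  exact Ideal.mul_mem_left _ _ (Ideal.sub_mem _ (Ideal.mul_mem_left _ _ (fer_mem i))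
    (Ideal.mul_mem_left _ _ (fer_mem j)))

theorem IntInv.inv {A : Type} {g : A → S ℤ ι} {δ : ι → ℤ} (h : IntInv m g δ) (K : Type) [Field K]
    (hm : (m : K) ≠ 0) : Inv m (fun a => map (Int.castRingHom K) (g a)) δ := by
  refine ⟨fun a d hd => h.hom a fun h0 => hd ?_, h.ne K hm, Irr.mono (h.suff K hm) ?_⟩
  · rw [coeff_map, h0, map_zero]
  · refine sup_le_sup_right (Ideal.span_mono ?_) _
    rintro f ⟨_, ⟨u, hu, rfl⟩, a, rfl⟩
    exact ⟨_, minor_prp_map _ hu, a, rfl⟩

theorem intInv_minor {i j : ι} (h : i ≠ j) : IntInv m (minor ℤ i j) (dm i j) := by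
  classical
  refine ⟨hg_minor i j, fun K _ hm => ?_, fun K _ hm α => ?_⟩
  · simpa only [map_minor] using exists_minor_notMem hm h
  set J : Ideal (S K ι) := Ideal.span {f | ∃ u ∈ (fun u a => map (Int.castRingHom K) (u a)) ''
    {u | Prp m u (minor ℤ i j)}, ∃ a, f = u a} ⊔ Fer m K ι with hJ
  have hent : ∀ u, Prp m u (minor ℤ i j) → ∀ a,
      Ideal.Quotient.mk J (map (Int.castRingHom K) (u a)) = 0 := fun u hu a =>
    Ideal.Quotient.eq_zero_iff_mem.2
      (Ideal.mem_sup_left (Ideal.subset_span ⟨_, ⟨u, hu, rfl⟩, a, rfl⟩))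
  set x : Fin 3 → S K ι ⧸ J := fun l => Ideal.Quotient.mk J (X (i, l)) with hx
  set y : Fin 3 → S K ι ⧸ J := fun l => Ideal.Quotient.mk J (X (j, l)) with hy
  have hc : ∀ a b, x a * y b = x b * y a := by
    refine minor_comm fun a => ?_
    have := hent _ (minor_prp_self _) a
    rw [map_minor] at this
    simpa only [minor, map_sub, map_mul] using this
  obtain ⟨n, rfl⟩ : ∃ n, m = n + 1 := by
    rcases m with _ | n
    · simp at hm
    · exact ⟨n, rfl⟩
  have hf : x 0 ^ (n + 1) + x 1 ^ (n + 1) - x 2 ^ (n + 1) = 0 := by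
    have : Ideal.Quotient.mk J (fer (n + 1) K i) = 0 :=
      Ideal.Quotient.eq_zero_iff_mem.2 (Ideal.mem_sup_right (fer_mem i))
    simpa only [fer, map_sub, map_add, map_pow] using this
  have hn : ∀ c, (x c * y c) ^ (n + 1) = 0 := by
    intro c
    have h1 := hent _ (minor_prp_U i j c) c
    rw [minor_mapU, minor_mapU] at h1
    simp only [map_X] at h1
    have h2 := minor_nil hc hf c h1
    have h3 : IsUnit (((n + 1 : ℕ) : S K ι ⧸ J)) := by
      have := (isUnit_iff_ne_zero.2 hm).map (algebraMap K (S K ι ⧸ J))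
      rwa [map_natCast] at this
    exact (h3.mul_right_eq_zero).1 h2
  refine ⟨2 * (n + 1), Ideal.Quotient.eq_zero_iff_mem.1 ?_⟩
  have hmono : mono K α = X (i, α i) * (X (j, α j) *
      ∏ l ∈ (Finset.univ.erase i).erase j, X (l, α l)) := by
    rw [mono, ← Finset.mul_prod_erase _ _ (Finset.mem_univ i),
      ← Finset.mul_prod_erase _ _ (Finset.mem_erase.2 ⟨h.symm, Finset.mem_univ j⟩)]
  rw [hmono, map_pow, map_mul, map_mul, ← mul_assoc, mul_pow]
  have : (x (α i) * y (α j)) ^ (2 * (n + 1)) = 0 := by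
    have e : (x (α i) * y (α j)) ^ 2 = (x (α i) * y (α i)) * (x (α j) * y (α j)) := by
      linear_combination (x (α i) * y (α j)) * hc (α i) (α j)
    rw [pow_mul, e, mul_pow, hn, zero_mul]
  rw [this, zero_mul]

omit [Fintype ι] in
theorem map_gT {k k' : Type} [CommRing k] [CommRing k'] (s : k →+* k') {I : Type} (α β : I → ι)
    (T : Finset I) (a : I → Fin 3) : map s (gT k α β T a) = gT k' α β T a := by
  simp only [gT, map_prod, map_minor]

theorem intInv_gT {I : Type} {α β : I → ι} (h : ∀ i, α i ≠ β i) (T : Finset I) :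
    IntInv m (gT ℤ α β T) (∑ i ∈ T, dm (α i) (β i)) := by
  classical
  refine ⟨fun a => IsWeightedHomogeneous.prod T _ _ fun i _ => hg_minor _ _ _,
    fun K _ hm => ?_, fun K _ hm => ?_⟩
  · choose b hb using fun i => exists_minor_notMem (k := K) hm (h i)
    refine ⟨b, fun hc => ?_⟩
    have := fer_isPrime (ι := ι) hm
    rw [map_gT, gT, Ideal.IsPrime.prod_mem_iff] at hc
    obtain ⟨i, _, hi⟩ := hc
    exact hb i hi
  induction T using Finset.induction_on with
  | empty =>
    intro γ
    refine ⟨0, Ideal.mem_sup_left (Ideal.subset_span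
      ⟨_, ⟨_, minor_prp_self (gT ℤ α β ∅), rfl⟩, fun _ => 0, ?_⟩)⟩
    simp [gT]
  | insert i T hi ih =>
    refine Irr.mono (Irr.mul ((intInv_minor (h i)).suff K hm) ih) ?_
    rw [Ideal.sup_mul, Ideal.mul_sup]
    refine sup_le (sup_le ?_ (Ideal.mul_le_right.trans le_sup_right))
      (Ideal.mul_le_left.trans le_sup_right)
    rw [Ideal.span_mul_span']
    refine le_sup_of_le_left (Ideal.span_mono ?_)
    rintro _ ⟨_, ⟨_, ⟨u, hu, rfl⟩, c, rfl⟩, _, ⟨_, ⟨v, hv, rfl⟩, a, rfl⟩, rfl⟩
    have hup : ∀ (b : I → Fin 3) (t : Fin 3),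
        gT ℤ α β T (Function.update b i t) = gT ℤ α β T b := by
      intro b t
      refine Finset.prod_congr rfl fun l hl => ?_
      rw [Function.update_of_ne (by rintro rfl; exact hi hl)]
    refine ⟨_, ⟨fun b => u (b i) * v (Function.update b i (a i)), fun b b' => ?_, rfl⟩,
      Function.update a i c, ?_⟩
    · have h1 := hu (b i) (b' i)
      have h2 := hv (Function.update b i (a i)) (Function.update b' i (a i))
      rw [hup, hup] at h2
      have e : ∀ d, gT ℤ α β (insert i T) d = minor ℤ (α i) (β i) (d i) * gT ℤ α β T d :=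
        fun d => Finset.prod_insert hi
      have := Ideal.add_mem _
        (Ideal.mul_mem_right (v (Function.update b i (a i)) * gT ℤ α β T b') _ h1)
        (Ideal.mul_mem_left _ (u (b' i) * minor ℤ (α i) (β i) (b i)) h2)
      rw [e, e]
      refine (congrArg (· ∈ Fer m ℤ ι) ?_).mp this
      ring
    · simp

theorem inv_minor {K : Type} [Field K] (hm : (m : K) ≠ 0) {i j : ι} (h : i ≠ j) :
    Inv m (minor K i j) (dm i j) := by
  have := (intInv_minor (m := m) h).inv K hm
  simpa only [map_minor] using this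

theorem inv_gT {K : Type} [Field K] (hm : (m : K) ≠ 0) {I : Type} {α β : I → ι}
    (h : ∀ i, α i ≠ β i) (T : Finset I) : Inv m (gT K α β T) (∑ i ∈ T, dm (α i) (β i)) := by
  have := (intInv_gT (m := m) h T).inv K hm
  simpa only [map_gT] using this

end Pool.Agent.Tate
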