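import Pool.Agent.P.MP_2ce3e7_ag.TwB
import Pool.Agent.P.MP_2ce3e7_ag.Minor
import Pool.Agent.P.MP_2ce3e7_ag.Chi
import Pool.Agent.P.MP_2ce3e7_ag.Eig

/-! The trace on the square and the pairing. -/

set_option autoImplicit false

noncomputable section

namespace Pool.Agent.Tate

open MvPolynomial

variable {m : ℕ} {k ι κ I : Type} [Field k] [NeZero (m : k)] [Fintype ι] [DecidableEq ι]
  [Fintype κ] [DecidableEq κ] [DecidableEq I]

/-- twist by the ideal of the diagonal of a pair of factors -/
def Lm (m : ℕ) (k : Type) [Field k] {ι : Type} [Fintype ι] (i j : ι) :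
    Module.End ℂ (G m k ι) := Lg m (minor k i j) (dm i j)

/-- derived restriction to an intersection of diagonals of pairs of factors -/
def dgT (m : ℕ) (k : Type) [Field k] [NeZero (m : k)] {ι I : Type} [Fintype ι] (α β : I → ι)
    (T : Finset I) : Module.End ℂ (G m k ι) :=
  T.noncommProd (fun i => 1 - Lm m k (α i) (β i)) fun _ _ _ _ _ =>
    (Commute.one_left _).sub_left ((Commute.one_right _).sub_right
      (Lg_comm (NeZero.ne (m : k)) _ _ _ _))

/-- the trace -/
def tr {ι : Type} [Fintype ι] : G m k (ι ⊕ ι) →ₗ[ℂ] ℂ :=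
  chi ∘ₗ dgT m k Sum.inl Sum.inr Finset.univ

/-- the relative trace -/
def trR {ι κ : Type} [Fintype ι] [Fintype κ] : G m k ((ι ⊕ ι) ⊕ κ) →ₗ[ℂ] G m k κ :=
  push ∘ₗ dgT m k (Sum.inl ∘ Sum.inl) (Sum.inl ∘ Sum.inr) Finset.univ

/-- the pairing -/
def prg {ι : Type} [Fintype ι] : G m k ι →ₗ[ℂ] G m k ι →ₗ[ℂ] ℂ := boxG.compr₂ tr

omit [DecidableEq ι] in
theorem prg_apply (x y : G m k ι) : prg x y = tr (boxG x y) := rfl

theorem dgT_empty (α β : I → ι) : dgT m k α β ∅ = 1 := by
  unfold dgT
  rw [Finset.noncommProd_empty]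

theorem dgT_insert (α β : I → ι) {i : I} {T : Finset I} (h : i ∉ T) :
    dgT m k α β (insert i T) = dgT m k α β T * (1 - Lm m k (α i) (β i)) := by
  unfold dgT
  rw [Finset.noncommProd_insert_of_notMem' _ _ _ _ h]

theorem pairA_mul [Fintype I] {α β : I → ι} (h : ∀ i, α i ≠ β i) {i : I} {U : Finset I}
    (hi : i ∉ U) : Lg m (gT k α β U) (∑ l ∈ U, dm (α l) (β l)) * Lm m k (α i) (β i) =
      Lg m (gT k α β (insert i U)) (∑ l ∈ insert i U, dm (α l) (β l)) := by
  have hm := NeZero.ne (m : k)
  have hs : Function.Surjective fun a : (I → Fin 3) × Fin 3 => Function.update a.1 i a.2 :=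
    fun a => ⟨(a, a i), Function.update_eq_self i a⟩
  rw [← Lg_comp hm (inv_gT hm h (insert i U)) hs, Lm,
    ← Lg_mul hm (inv_gT hm h U) (inv_minor hm (h i)), Finset.sum_insert hi, add_comm]
  have e : (fun a : (I → Fin 3) × Fin 3 => gT k α β U a.1 * minor k (α i) (β i) a.2) =
      gT k α β (insert i U) ∘ fun a : (I → Fin 3) × Fin 3 => Function.update a.1 i a.2 := by
    funext a
    simp only [Function.comp, gT]
    rw [Finset.prod_insert hi, Function.update_self, mul_comm]
    refine congrArg _ (Finset.prod_congr rfl fun l hl => ?_)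
    rw [Function.update_of_ne (ne_of_mem_of_not_mem hl hi)]
  rw [e]

theorem pairA_sum [Fintype I] {α β : I → ι} (h : ∀ i, α i ≠ β i) (T : Finset I) :
    dgT m k α β T = ∑ U ∈ T.powerset, (-1 : ℂ) ^ U.card •
      Lg m (gT k α β U) (∑ i ∈ U, dm (α i) (β i)) := by
  induction T using Finset.induction_on with
  | empty =>
    have e : gT k α β ∅ = fun _ => 1 := funext fun _ => Finset.prod_empty
    rw [dgT_empty, Finset.powerset_empty, Finset.sum_singleton, Finset.sum_empty, e,
      (Lg_one (NeZero.ne (m : k))).2, Finset.card_empty, pow_zero, one_smul]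
  | insert i T hi ih =>
    rw [dgT_insert α β hi, ih, Finset.sum_powerset_insert hi, mul_sub, mul_one, Finset.sum_mul,
      sub_eq_add_neg, ← Finset.sum_neg_distrib]
    refine congrArg _ (Finset.sum_congr rfl fun U hU => ?_)
    have hU' : i ∉ U := fun hc => hi (Finset.mem_powerset.1 hU hc)
    rw [smul_mul_assoc, pairA_mul h hU', Finset.card_insert_of_notMem hU', pow_succ, mul_neg_one,
      neg_smul]

theorem dgT_eq_sum [Fintype I] {α β : I → ι} (h : ∀ i, α i ≠ β i) :
    dgT m k α β Finset.univ = ∑ T : Finset I, (-1 : ℂ) ^ T.card •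
      Lg m (gT k α β T) (∑ i ∈ T, dm (α i) (β i)) := by
  rw [pairA_sum h, Finset.powerset_univ]

theorem tr_unit (x : G m k (Unit ⊕ Unit)) :
    tr x = chi (x - Lm m k (Sum.inl ()) (Sum.inr ()) x) := by
  have e : (Finset.univ : Finset Unit) = insert () ∅ := by
    ext a
    simp
  unfold tr
  rw [e, dgT_insert _ _ (Finset.notMem_empty _), dgT_empty, one_mul]
  rfl

theorem tr_empty [IsEmpty ι] (x : G m k (ι ⊕ ι)) : tr x = chi x := by
  unfold tr
  rw [Finset.univ_eq_empty, dgT_empty]
  rfl

/-- modules whose support does not meet the diagonals -/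
theorem dgT_van {α β : I → ι} (h : ∀ i, α i ≠ β i) (T : Finset I) (M : GM m k ι)
    (hM : Irr (M.ann ⊔ ⨆ i ∈ T, Ideal.span (Set.range (minor k (α i) (β i))))) :
    dgT m k α β T (cls M) = 0 := by
  have hm := NeZero.ne (m : k)
  induction T using Finset.induction_on generalizing M with
  | empty =>
    rw [dgT_empty]
    exact cls_irr (hM.mono (by simp))
  | insert i T hi ih =>
    obtain ⟨Q, K, p, hp, hk, he, hK, -⟩ := L2 hm (inv_minor hm (h i)) M
    have hQ : M.ann ⊔ Ideal.span (Set.range (minor k (α i) (β i))) ≤ Q.ann := by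
      refine sup_le (fun f hf => GM.mem_ann.2 fun y => ?_) fun f hf => GM.mem_ann.2 fun y => ?_
      · obtain ⟨x, rfl⟩ := hp y
        rw [← map_smul, GM.mem_ann.1 hf x, map_zero]
      · obtain ⟨x, rfl⟩ := hp y
        rw [← map_smul]
        exact (hk _).2 (Submodule.smul_mem_smul hf Submodule.mem_top)
    rw [Finset.iSup_insert, ← sup_assoc] at hM
    rw [dgT_insert α β hi, Module.End.mul_apply, LinearMap.sub_apply, Module.End.one_apply, Lm, he,
      map_sub, ih Q (hM.mono (sup_le_sup_right hQ _)), ih K (hM.mono (sup_le_sup_right hK _)),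
      sub_zero]

omit [NeZero (m : k)] [DecidableEq ι] in
theorem pairA_self (i : ι) : Lm m k i i = 0 := by
  refine Lg_of_not fun h => ?_
  obtain ⟨b, hb⟩ := h.ne
  refine hb ?_
  have : minor k i i b = 0 := by
    unfold minor
    ring
  rw [this]
  exact Ideal.zero_mem _

omit [NeZero (m : k)] [Fintype ι] [DecidableEq ι] [Fintype κ] [DecidableEq κ] in
theorem pairA_val (f : ι → κ) (hf : Function.Injective f) (d : ι → ℤ) (l : ι) :
    (reD m k f hf 0).val d (f l) = d l := by
  have : (reD m k f hf 0).val d (f l) = 0 + ((1 : ℕ) : ℤ) * d l := (reD m k f hf 0).val_τ d l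
  rw [this, zero_add, Nat.cast_one, one_mul]

theorem reG_Lm (e : ι ≃ κ) (i j : ι) (x : G m k ι) :
    reG e (Lm m k i j x) = Lm m k (e i) (e j) (reG e x) := by
  have hm := NeZero.ne (m : k)
  by_cases hij : i = j
  · subst hij
    rw [pairA_self, pairA_self, LinearMap.zero_apply, LinearMap.zero_apply, map_zero]
  · refine (Lg_pull hm (D := reD m k e.symm e.symm.injective 0) e.symm.surjective
      (inv_minor hm (e.injective.ne hij)) (inv_minor hm hij) (fun _ => 1) (fun _ => one_ne_zero)
      (fun a => ?_) (fun d => ?_) x).symm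
    · rw [reD_φ, rn_minor, e.symm_apply_apply, e.symm_apply_apply, C_1, one_mul]
    · funext l
      obtain ⟨l, rfl⟩ := e.symm.surjective l
      rw [Pi.sub_apply, pairA_val, pairA_val, Pi.sub_apply]
      simp [dm, wt_apply, Equiv.symm_apply_eq]

theorem Lm_symm (i j : ι) : Lm m k i j = Lm m k j i := by
  have hm := NeZero.ne (m : k)
  by_cases hij : i = j
  · rw [hij]
  · have hv : ∀ d, (reD m k id Function.injective_id (0 : ι → ℤ)).val d = d :=
      fun d => funext fun l => pairA_val id Function.injective_id d l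
    have hid : ∀ x : G m k ι, pullG (reD m k id Function.injective_id 0) x = x :=
      pullG_id Function.surjective_id (fun v => by rw [reD_φ, rn_X]; rfl) hv
    ext x
    have := Lg_pull hm (D := reD m k id Function.injective_id 0) Function.surjective_id
      (inv_minor hm hij) (inv_minor hm (Ne.symm hij)) (fun _ => -1)
      (fun _ => neg_ne_zero.2 one_ne_zero) (fun a => ?_) (fun d => ?_) x
    · rwa [hid, hid] at this
    · rw [reD_φ, rn_minor, map_neg, C_1]
      simp only [minor, id]
      ring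
    · rw [hv, hv, dm, dm, add_comm]

theorem Lm_box_left (i j : ι) (x : G m k ι) (y : G m k κ) :
    Lm m k (Sum.inl i) (Sum.inl j) (boxG x y) = boxG (Lm m k i j x) y := by
  have hm := NeZero.ne (m : k)
  by_cases hij : i = j
  · subst hij
    rw [pairA_self, pairA_self, LinearMap.zero_apply, LinearMap.zero_apply, map_zero,
      LinearMap.zero_apply]
  · have e1 : (fun a => (rn Sum.inl (minor k i j a) : S k (ι ⊕ κ))) =
        minor k (Sum.inl i) (Sum.inl j) := funext fun a => rn_minor _ _ _ _
    have e2 : Sum.elim (dm i j) (0 : κ → ℤ) = dm (Sum.inl i) (Sum.inl j) := by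
      funext l
      rcases l with l | l <;> simp [dm, wt_apply]
    have := Lg_box_left (κ := κ) hm (inv_minor hm hij)
      (by rw [e1, e2]; exact inv_minor hm (Sum.inl_injective.ne hij)) x y
    rwa [e1, e2] at this

theorem Lm_box_right (i j : κ) (x : G m k ι) (y : G m k κ) :
    Lm m k (Sum.inr i) (Sum.inr j) (boxG x y) = boxG x (Lm m k i j y) := by
  have hm := NeZero.ne (m : k)
  by_cases hij : i = j
  · subst hij
    rw [pairA_self, pairA_self, LinearMap.zero_apply, LinearMap.zero_apply, map_zero]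
  · have e1 : (fun a => (rn Sum.inr (minor k i j a) : S k (ι ⊕ κ))) =
        minor k (Sum.inr i) (Sum.inr j) := funext fun a => rn_minor _ _ _ _
    have e2 : Sum.elim (0 : ι → ℤ) (dm i j) = dm (Sum.inr i) (Sum.inr j) := by
      funext l
      rcases l with l | l <;> simp [dm, wt_apply]
    have := Lg_box_right (ι := ι) hm (inv_minor hm hij)
      (by rw [e1, e2]; exact inv_minor hm (Sum.inr_injective.ne hij)) x y
    rwa [e1, e2] at this

end Pool.Agent.Tate
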