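import Pool.Agent.P.MP_2ce3e7_ag.Core

/-! Graded polynomial rings. -/

set_option autoImplicit false

noncomputable section

namespace Pool.Agent.Tate

open MvPolynomial

section General
variable {k σ ι : Type} [Field k] {w : σ → ι → ℤ}

attribute [local instance] MvPolynomial.weightedGradedAlgebra

theorem polyA_iff {Γ : Type} [AddCommMonoid Γ] [DecidableEq Γ] {u : σ → Γ}
    {J : Ideal (MvPolynomial σ k)} :
    GrW u J ↔ J.IsHomogeneous (weightedHomogeneousSubmodule k u) := by
  constructor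
  · intro h d f hf
    have e : ((DirectSum.decompose (weightedHomogeneousSubmodule k u) f d :
        weightedHomogeneousSubmodule k u d) : MvPolynomial σ k) =
        weightedHomogeneousComponent u d f := weightedDecomposition.decompose'_apply k u f d
    rw [e]
    exact h d f hf
  · intro h d f hf
    exact weightedHomogeneousComponent_mem_of_mem k u h hf d

theorem polyA_prime {Γ : Type} [AddCommMonoid Γ] [LinearOrder Γ] [IsOrderedCancelAddMonoid Γ]
    {u : σ → Γ} {J : Ideal (MvPolynomial σ k)} (h : GrW u J) (h1 : J ≠ ⊤)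
    (h2 : ∀ f g d e, f.IsWeightedHomogeneous u d → g.IsWeightedHomogeneous u e → f * g ∈ J →
      f ∈ J ∨ g ∈ J) : J.IsPrime := by
  rw [polyA_iff] at h
  refine h.isPrime_of_homogeneous_mem_or_mem h1 ?_
  rintro f g ⟨d, hd⟩ ⟨d', hd'⟩ hfg
  exact h2 f g d d' hd hd' hfg

theorem polyA_sum (w : σ → ι → ℤ) (f : MvPolynomial σ k) :
    ∃ T : Finset (ι → ℤ), ∑ d ∈ T, weightedHomogeneousComponent w d f = f :=
  ⟨_, by
    rw [← finsum_eq_sum _ (weightedHomogeneousComponent_finsupp (w := w) f)]
    exact sum_weightedHomogeneousComponent w f⟩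

theorem polyA_hom_map {σ' ι' : Type} {w' : σ' → ι' → ℤ}
    (θ : MvPolynomial σ k →ₐ[k] MvPolynomial σ' k)
    (v : (ι → ℤ) →+ (ι' → ℤ)) (hθ : ∀ s, (θ (X s)).IsWeightedHomogeneous w' (v (w s)))
    {f : MvPolynomial σ k} {d : ι → ℤ} (hf : f.IsWeightedHomogeneous w d) :
    (θ f).IsWeightedHomogeneous w' (v d) := by
  induction hf using IsWeightedHomogeneous.induction_on with
  | zero => rw [map_zero]; exact isWeightedHomogeneous_zero k w' _
  | add p q hp hq ihp ihq => rw [map_add]; exact ihp.add ihq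
  | monomial s r hr =>
    rw [monomial_eq, map_mul, ← hr]
    have e : θ (C r) = C r := θ.commutes r
    rw [e]
    refine IsWeightedHomogeneous.C_mul ?_ r
    rw [Finsupp.prod, map_prod, Finsupp.weight_apply, Finsupp.sum, map_sum]
    refine IsWeightedHomogeneous.prod _ _ _ fun i _ => ?_
    rw [map_pow, map_nsmul]
    exact (hθ i).pow _

theorem grW_span {s : Set (MvPolynomial σ k)} (h : ∀ f ∈ s, ∃ d, f.IsWeightedHomogeneous w d) :
    GrW w (Ideal.span s) := by
  classical
  rw [polyA_iff]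
  exact Ideal.homogeneous_span _ _ fun f hf => (h f hf).imp fun d hd => hd

theorem GrW.sup {J J' : Ideal (MvPolynomial σ k)} (h : GrW w J) (h' : GrW w J') :
    GrW w (J ⊔ J') := by
  classical
  rw [polyA_iff] at h h' ⊢
  exact h.sup h'

theorem GrW.inf {J J' : Ideal (MvPolynomial σ k)} (h : GrW w J) (h' : GrW w J') :
    GrW w (J ⊓ J') := by
  exact fun d f hf => ⟨h d f hf.1, h' d f hf.2⟩

theorem GrW.eq_core {J : Ideal (MvPolynomial σ k)} (h : GrW w J) : core w J = J := by
  refine le_antisymm (Ideal.span_le.2 fun f hf => hf.1) fun f hf => ?_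
  obtain ⟨T, hT⟩ := polyA_sum w f
  rw [← hT]
  exact Ideal.sum_mem _ fun d _ => Ideal.subset_span
    ⟨h d f hf, d, weightedHomogeneousComponent_isWeightedHomogeneous d f⟩

theorem GrW.le_of_hom {J J' : Ideal (MvPolynomial σ k)} (h : GrW w J)
    (hl : ∀ f d, f.IsWeightedHomogeneous w d → f ∈ J → f ∈ J') : J ≤ J' := by
  rw [← h.eq_core]
  exact Ideal.span_le.2 fun f ⟨h1, d, h2⟩ => hl f d h2 h1

theorem GrW.exists_fin [Finite σ] {J : Ideal (MvPolynomial σ k)} (h : GrW w J) :
    ∃ (n : ℕ) (f : Fin n → MvPolynomial σ k) (d : Fin n → ι → ℤ),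
      (∀ i, (f i).IsWeightedHomogeneous w (d i)) ∧ J = Ideal.span (Set.range f) := by
  have hfg : (core w J).FG := IsNoetherian.noetherian _
  obtain ⟨T, hT, hs⟩ := (Submodule.fg_span_iff_fg_span_finset_subset _).1 hfg
  have hd : ∀ f : T, ∃ d, (f : MvPolynomial σ k).IsWeightedHomogeneous w d :=
    fun f => (hT f.2).2
  choose d hd using hd
  refine ⟨T.card, fun i => (T.equivFin.symm i : MvPolynomial σ k), fun i => d (T.equivFin.symm i),
    fun i => hd _, ?_⟩
  have e : Set.range (fun i => (T.equivFin.symm i : MvPolynomial σ k)) =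
      (T : Set (MvPolynomial σ k)) := by
    ext f
    constructor
    · rintro ⟨i, rfl⟩
      exact (T.equivFin.symm i).2
    · intro hf
      exact ⟨T.equivFin ⟨f, hf⟩, by simp⟩
  rw [e, ← h.eq_core]
  exact hs

theorem grW_core (J : Ideal (MvPolynomial σ k)) : GrW w (core w J) := by
  exact grW_span fun f hf => hf.2

theorem core_le (J : Ideal (MvPolynomial σ k)) : core w J ≤ J := by
  exact Ideal.span_le.2 fun f hf => hf.1

theorem GrW.le_core {J J' : Ideal (MvPolynomial σ k)} (h : GrW w J) (hl : J ≤ J') :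
    J ≤ core w J' := by
  exact h.le_of_hom fun f d hf hJ => Ideal.subset_span ⟨hl hJ, d, hf⟩

theorem mem_core {J : Ideal (MvPolynomial σ k)} {f : MvPolynomial σ k} {d : ι → ℤ}
    (hf : f.IsWeightedHomogeneous w d) : f ∈ core w J ↔ f ∈ J := by
  exact ⟨fun h => core_le J h, fun h => Ideal.subset_span ⟨h, d, hf⟩⟩

theorem GrW.isPrime [Finite ι] {J : Ideal (MvPolynomial σ k)} (h : GrW w J) (h1 : J ≠ ⊤)
    (h2 : ∀ f g d e, f.IsWeightedHomogeneous w d → g.IsWeightedHomogeneous w e → f * g ∈ J →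
      f ∈ J ∨ g ∈ J) : J.IsPrime := by
  obtain ⟨n, ⟨e⟩⟩ := Finite.exists_equiv_fin ι
  let _ : LinearOrder ι := LinearOrder.lift' e e.injective
  have : WellFoundedLT ι := Finite.to_wellFoundedLT
  exact polyA_prime (Γ := Lex (ι → ℤ)) (u := w) h h1 h2

theorem core_isPrime [Finite ι] {J : Ideal (MvPolynomial σ k)} (h : J.IsPrime) :
    (core w J).IsPrime := by
  refine (grW_core J).isPrime (fun ht => h.ne_top (top_le_iff.1 (ht ▸ core_le J))) ?_
  intro f g d e hf hg hfg
  rw [mem_core hf, mem_core hg]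
  exact h.mem_or_mem (core_le J hfg)

/-- images and preimages under maps that respect the gradings -/
theorem GrW.map {σ' ι' : Type} {w' : σ' → ι' → ℤ} {J : Ideal (MvPolynomial σ k)} (h : GrW w J)
    (θ : MvPolynomial σ k →ₐ[k] MvPolynomial σ' k) (v : (ι → ℤ) →+ (ι' → ℤ))
    (hθ : ∀ s, (θ (X s)).IsWeightedHomogeneous w' (v (w s))) : GrW w' (J.map θ) := by
  rw [← h.eq_core, core, Ideal.map_span]
  refine grW_span ?_
  rintro _ ⟨f, ⟨-, d, hd⟩, rfl⟩
  exact ⟨v d, polyA_hom_map θ v hθ hd⟩

theorem GrW.comap {σ' ι' : Type} {w' : σ' → ι' → ℤ} {J : Ideal (MvPolynomial σ' k)}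
    (h : GrW w' J) (θ : MvPolynomial σ k →ₐ[k] MvPolynomial σ' k) (v : (ι → ℤ) →+ (ι' → ℤ))
    (hv : Function.Injective v) (hθ : ∀ s, (θ (X s)).IsWeightedHomogeneous w' (v (w s))) :
    GrW w (J.comap θ) := by
  classical
  intro d f hf
  rw [Ideal.mem_comap] at hf ⊢
  have key : weightedHomogeneousComponent w' (v d) (θ f) =
      θ (weightedHomogeneousComponent w d f) := by
    obtain ⟨T, hT⟩ := polyA_sum w f
    conv_lhs => rw [← hT]
    conv_rhs => rw [← hT]
    simp only [map_sum]
    refine Finset.sum_congr rfl fun e _ => ?_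
    have h1 := weightedHomogeneousComponent_isWeightedHomogeneous (w := w) e f
    have h2 := polyA_hom_map θ v hθ h1
    by_cases hde : d = e
    · subst hde
      rw [h1.weightedHomogeneousComponent_same, h2.weightedHomogeneousComponent_same]
    · rw [h1.weightedHomogeneousComponent_ne d hde,
        h2.weightedHomogeneousComponent_ne (v d) fun he => hde (hv he), map_zero]
  rw [← key]
  exact h _ _ hf

theorem hom_map {σ' ι' : Type} {w' : σ' → ι' → ℤ} (θ : MvPolynomial σ k →ₐ[k] MvPolynomial σ' k)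
    (v : (ι → ℤ) →+ (ι' → ℤ)) (hθ : ∀ s, (θ (X s)).IsWeightedHomogeneous w' (v (w s)))
    {f : MvPolynomial σ k} {d : ι → ℤ} (hf : f.IsWeightedHomogeneous w d) :
    (θ f).IsWeightedHomogeneous w' (v d) := by
  exact polyA_hom_map θ v hθ hf

theorem sc_X (c : σ → k) (v : σ) : sc c (X v) = C (c v) * X v := by
  simp [sc]

theorem sc_sc (c c' : σ → k) (f : MvPolynomial σ k) : sc c (sc c' f) = sc (c * c') f := by
  have : (sc c).comp (sc c') = sc (c * c') := by
    refine algHom_ext fun v => ?_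
    have e : sc c (C (c' v)) = C (c' v) := (sc c).commutes (c' v)
    rw [AlgHom.comp_apply, sc_X, sc_X, map_mul, sc_X, e, Pi.mul_apply, map_mul]
    ring
  exact DFunLike.congr_fun this f

theorem sc_one (f : MvPolynomial σ k) : sc (1 : σ → k) f = f := by
  have : sc (1 : σ → k) = AlgHom.id k _ := algHom_ext fun v => by simp [sc_X]
  rw [this]
  rfl

theorem eval_sc (c x : σ → k) (f : MvPolynomial σ k) : eval x (sc c f) = eval (c * x) f := by
  induction f using MvPolynomial.induction_on with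
  | C a =>
    have e : sc c (C a) = C a := (sc c).commutes a
    rw [e, eval_C, eval_C]
  | add p q hp hq => rw [map_add, map_add, map_add, hp, hq]
  | mul_X p v hp => rw [map_mul, map_mul, map_mul, hp, sc_X, map_mul, eval_C, eval_X, eval_X,
      Pi.mul_apply]

theorem sc_monomial (c : σ → k) (s : σ →₀ ℕ) (a : k) :
    sc c (monomial s a) = monomial s ((s.prod fun v n => c v ^ n) * a) := by
  rw [sc, aeval_monomial, monomial_eq, algebraMap_eq]
  simp only [Finsupp.prod, mul_pow, Finset.prod_mul_distrib, map_mul, map_prod, map_pow]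
  ring

theorem comap_sc {c c' : σ → k} (h : c * c' = 1) (J : Ideal (MvPolynomial σ k)) :
    J.comap (sc c) = J.map (sc c') := by
  apply le_antisymm
  · intro f hf
    have e : sc c' (sc c f) = f := by rw [sc_sc, mul_comm, h, sc_one]
    rw [← e]
    exact Ideal.mem_map_of_mem _ hf
  · rw [Ideal.map_le_iff_le_comap]
    intro f hf
    rw [Ideal.mem_comap, Ideal.mem_comap, sc_sc, h, sc_one]
    exact hf

end General

end Pool.Agent.Tate
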