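import Pool.Agent.P.MP_2ce3e7_ag.Cyc

/-! Pull-back of modules along monomial substitutions. -/

set_option autoImplicit false

noncomputable section

namespace Pool.Agent.Tate

open MvPolynomial

variable {m : ℕ} {k ι κ μ : Type} [Field k]

theorem PD.φ_X (D : PD m k ι κ) (v : ι × Fin 3) :
    D.φ (X v) = C (D.c v) * X (D.τ v.1, v.2) ^ D.q v.1 := aeval_X _ _

theorem PD.val_τ (D : PD m k ι κ) (e : ι → ℤ) (i : ι) :
    D.val e (D.τ i) = D.o (D.τ i) + D.q i * e i := by
  simp only [PD.val, Pi.add_apply, D.inj.extend_apply]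

theorem PD.val_of_not (D : PD m k ι κ) (e : ι → ℤ) {l : κ} (h : ∀ i, D.τ i ≠ l) :
    D.val e l = D.o l := by
  simp only [PD.val, Pi.add_apply]
  rw [Function.extend_apply' _ _ _ (by rintro ⟨i, hi⟩; exact h i hi)]
  simp

theorem PD.val_inj (D : PD m k ι κ) : Function.Injective D.val := by
  intro e e' h
  funext i
  have h1 := congrFun h (D.τ i)
  rw [D.val_τ, D.val_τ] at h1
  have h2 : (D.q i : ℤ) ≠ 0 := by exact_mod_cast (D.q_pos i).ne'
  exact mul_left_cancel₀ h2 (add_left_cancel h1)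

theorem PD.val_add (D : PD m k ι κ) (e e' : ι → ℤ) :
    D.val (e + e') = D.val e + (D.val e' - D.o) := by
  funext l
  by_cases h : ∃ i, D.τ i = l
  · obtain ⟨i, rfl⟩ := h
    simp only [Pi.add_apply, Pi.sub_apply, D.val_τ]
    ring
  · push Not at h
    simp only [Pi.add_apply, Pi.sub_apply, D.val_of_not _ h]
    ring

theorem PD.pullA_val_zero (D : PD m k ι κ) : D.val 0 = D.o := by
  have h := D.val_add 0 0
  rw [add_zero, left_eq_add, sub_eq_zero] at h
  exact h

theorem PD.pullA_val_wt (D : PD m k ι κ) (v : ι × Fin 3) :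
    D.val (wt v) - D.o = D.q v.1 • wt (D.τ v.1, v.2) := by
  classical
  funext l
  by_cases h : ∃ i, D.τ i = l
  · obtain ⟨i, rfl⟩ := h
    simp only [Pi.sub_apply, D.val_τ, Pi.smul_apply, wt_apply, D.inj.eq_iff]
    split_ifs with hi
    · subst hi; simp
    · simp
  · push Not at h
    simp only [Pi.sub_apply, D.val_of_not _ h, Pi.smul_apply, wt_apply, if_neg (h v.1).symm]
    simp

theorem PD.pullA_hg_X (D : PD m k ι κ) (v : ι × Fin 3) :
    Hg (D.φ (X v)) (D.val (wt v) - D.o) := by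
  rw [D.φ_X, D.pullA_val_wt]
  have := (isWeightedHomogeneous_C (R := k) (wt (ι := κ)) (D.c v)).mul
    ((hg_X (k := k) (D.τ v.1, v.2)).pow (D.q v.1))
  rwa [zero_add] at this

theorem PD.hg_φ (D : PD m k ι κ) {f : S k ι} {e : ι → ℤ} (h : Hg f e) :
    Hg (D.φ f) (D.val e - D.o) :=
  hom_map D.φ (AddMonoidHom.mk' (fun e => D.val e - D.o) fun a b => by
    rw [D.val_add]; abel) D.pullA_hg_X h

theorem PD.φ_mem_Fer (D : PD m k ι κ) {f : S k ι} (h : f ∈ Fer m k ι) : D.φ f ∈ Fer m k κ := by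
  have : Fer m k ι ≤ (Fer m k κ).comap D.φ := Ideal.span_le.2 (by
    rintro _ ⟨i, rfl⟩
    exact D.fer i)
  exact this h

theorem PD.irr_map [Fintype ι] [Fintype κ] (D : PD m k ι κ) (h : Function.Surjective D.τ)
    {J : Ideal (S k ι)} (hJ : Irr J) : Irr (J.map D.φ) := by
  intro α
  obtain ⟨N, hN⟩ := hJ (α ∘ D.τ)
  have h1 : D.φ (mono k (α ∘ D.τ)) ∣ mono k α ^ ∑ i, D.q i := by
    rw [mono, mono, map_prod, ← Finset.prod_pow,
      ← (Equiv.ofBijective D.τ ⟨D.inj, h⟩).prod_comp fun l => (X (l, α l) : S k κ) ^ ∑ i, D.q i]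
    refine Finset.prod_dvd_prod_of_dvd _ _ fun i _ => ?_
    rw [D.φ_X, ((D.c_ne _).isUnit.map C).mul_left_dvd]
    exact pow_dvd_pow _ (Finset.single_le_sum (f := D.q) (fun _ _ => Nat.zero_le _)
      (Finset.mem_univ i))
  refine ⟨(∑ i, D.q i) * N, ?_⟩
  rw [pow_mul]
  refine Ideal.mem_of_dvd _ (pow_dvd_pow_of_dvd h1 N) ?_
  rw [← map_pow]
  exact Ideal.mem_map_of_mem _ hN

theorem PD.tendsto_val [Finite ι] (D : PD m k ι κ) (h : Function.Surjective D.τ) :
    Filter.Tendsto D.val Filter.atTop Filter.atTop := by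
  refine Filter.tendsto_atTop.2 fun b => Filter.eventually_atTop.2
    ⟨fun i => |b (D.τ i) - D.o (D.τ i)|, fun e he l => ?_⟩
  obtain ⟨i, rfl⟩ := h l
  have h1 : |b (D.τ i) - D.o (D.τ i)| ≤ e i := he i
  have h2 : (1 : ℤ) ≤ D.q i := by exact_mod_cast D.q_pos i
  have h3 := le_abs_self (b (D.τ i) - D.o (D.τ i))
  have h4 := abs_nonneg (b (D.τ i) - D.o (D.τ i))
  rw [D.val_τ]
  nlinarith

/-- the part of a module in the degrees of the pull-back -/
def pullA_W (D : PD m k ι κ) (M : GM m k κ) : Submodule k M.M where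
  carrier := {x | ∀ d, d ∉ Set.range D.val → M.π d x = 0}
  add_mem' ha hb d hd := by rw [map_add, ha d hd, hb d hd, add_zero]
  zero_mem' _ _ := map_zero _
  smul_mem' c x hx d hd := by rw [map_smul, hx d hd, smul_zero]

theorem pullA_π_mem (D : PD m k ι κ) (M : GM m k κ) (e : ι → ℤ) (x : M.M) :
    M.π (D.val e) x ∈ pullA_W D M := fun d hd =>
  M.π_ne _ _ _ fun h => hd ⟨e, h.symm⟩

theorem pullA_π_X (D : PD m k ι κ) (M : GM m k κ) (v : ι × Fin 3) (e : ι → ℤ) (x : M.M) :
    M.π (D.val (e + wt v)) (D.φ (X v) • x) = D.φ (X v) • M.π (D.val e) x := by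
  rw [D.val_add, M.π_smul (D.pullA_hg_X v)]

theorem pullA_smul_mem (D : PD m k ι κ) (M : GM m k κ) (f : S k ι) :
    ∀ x ∈ pullA_W D M, D.φ f • x ∈ pullA_W D M := by
  induction f using MvPolynomial.induction_on with
  | C a =>
    intro x hx
    rw [algHom_C, algebraMap_smul]
    exact Submodule.smul_mem _ _ hx
  | add f g hf hg =>
    intro x hx
    rw [map_add, add_smul]
    exact add_mem (hf x hx) (hg x hx)
  | mul_X f v hf =>
    intro x hx
    rw [map_mul, mul_smul]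
    refine hf _ fun d hd => ?_
    have h1 := M.π_smul (D.pullA_hg_X v) (d - (D.val (wt v) - D.o)) x
    rw [sub_add_cancel] at h1
    rw [h1, hx, smul_zero]
    rintro ⟨e, he⟩
    exact hd ⟨e + wt v, by rw [D.val_add, he, sub_add_cancel]⟩

theorem pullA_sum (D : PD m k ι κ) (M : GM m k κ) {x : M.M} (hx : x ∈ pullA_W D M) :
    ∃ s : Finset (ι → ℤ), ∑ e ∈ s, M.π (D.val e) x = x := by
  classical
  have hf := (M.finite_supp x).preimage (D.val_inj.injOn)
  refine ⟨hf.toFinset, ?_⟩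
  rw [← Finset.sum_image (f := fun d => M.π d x) fun a _ b _ h => D.val_inj h]
  refine M.sum_of_supp x fun d hd => ?_
  have : d ∈ Set.range D.val := by
    by_contra h
    exact hd (hx d h)
  obtain ⟨e, rfl⟩ := this
  exact Finset.mem_image_of_mem _ (hf.mem_toFinset.2 hd)

/-- the action on the pull-back -/
def pullA_ρ (D : PD m k ι κ) (M : GM m k κ) : S k ι →ₐ[k] Module.End k (pullA_W D M) where
  toFun f := (Algebra.lsmul k k M.M (D.φ f)).restrict (pullA_smul_mem D M f)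
  map_one' := by ext x; simp
  map_mul' f g := by ext x; simp
  map_zero' := by ext x; simp
  map_add' f g := by ext x; simp
  commutes' a := by ext x; simp [-algebraMap_eq]

theorem pullA_ρ_val (D : PD m k ι κ) (M : GM m k κ) (f : S k ι) (x : pullA_W D M) :
    (pullA_ρ D M f x).1 = D.φ f • x.1 := rfl

theorem pullA_fg [Fintype ι] [Fintype κ] (D : PD m k ι κ) (M : GM m k κ) :
    ∃ s : Set M.M, s.Finite ∧ s ⊆ pullA_W D M ∧
      pullA_W D M ≤ Submodule.span k {y | ∃ f, ∃ x ∈ s, y = D.φ f • x} := by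
  classical
  obtain ⟨n, x, d, hx, hsp⟩ := M.exists_gens
  let B : Fin n → κ × Fin 3 →₀ ℕ := fun i => Finsupp.equivFunOnFinite.symm fun v =>
    ∑ a, D.q a + (D.o v.1 - d i v.1).toNat
  let s : Set M.M := (⋃ i, (fun r => (monomial r 1 : S k κ) • x i) '' Set.Iic (B i)) ∩ pullA_W D M
  refine ⟨s, (Set.finite_iUnion fun i => (Set.finite_Iic _).image _).inter_of_left _,
    Set.inter_subset_right, ?_⟩
  set U := Submodule.span k {y | ∃ f, ∃ x ∈ s, y = D.φ f • x} with hU
  have hU1 : ∀ g, ∀ y ∈ U, D.φ g • y ∈ U := by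
    intro g y hy
    induction hy using Submodule.span_induction with
    | mem y hy =>
      obtain ⟨f, z, hz, rfl⟩ := hy
      exact Submodule.subset_span ⟨g * f, z, hz, by rw [map_mul, mul_smul]⟩
    | zero => rw [smul_zero]; exact zero_mem _
    | add y z _ _ hy hz => rw [smul_add]; exact add_mem hy hz
    | smul a y _ hy => rw [smul_comm]; exact Submodule.smul_mem _ _ hy
  have key : ∀ (i : Fin n) (r : κ × Fin 3 →₀ ℕ) (e : ι → ℤ),
      Finsupp.weight wt r = D.val e - d i → (monomial r 1 : S k κ) • x i ∈ U := by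
    intro i r
    induction r using WellFoundedLT.induction with
    | ind r ih =>
    intro e he
    by_cases h : ∃ v : ι × Fin 3, D.q v.1 ≤ r (D.τ v.1, v.2)
    · obtain ⟨v, hv⟩ := h
      have h1 : Finsupp.single (D.τ v.1, v.2) (D.q v.1) ≤ r := Finsupp.single_le_iff.2 hv
      obtain ⟨r', rfl⟩ := exists_add_of_le h1
      have h2 : r' < Finsupp.single (D.τ v.1, v.2) (D.q v.1) + r' :=
        lt_add_of_pos_left _ (pos_iff_ne_zero.2 (Finsupp.single_ne_zero.2 (D.q_pos _).ne'))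
      have h3 := ih r' h2 (e - wt v) (by
        have h4 := D.val_add (e - wt v) (wt v)
        rw [sub_add_cancel, D.pullA_val_wt] at h4
        rw [map_add, Finsupp.weight_single, h4] at he
        rw [← add_left_inj (D.q v.1 • wt (D.τ v.1, v.2)), add_comm, he]
        abel)
      have h5 : (monomial (Finsupp.single (D.τ v.1, v.2) (D.q v.1) + r') 1 : S k κ) =
          D.φ (C (D.c v)⁻¹ * X v) * monomial r' 1 := by
        rw [map_mul, algHom_C, D.φ_X, algebraMap_eq, ← mul_assoc, ← C_mul,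
          inv_mul_cancel₀ (D.c_ne v), C_1, one_mul, X_pow_eq_monomial, monomial_mul, one_mul]
      rw [h5, mul_smul]
      exact hU1 _ _ h3
    · push Not at h
      have hg : Hg (monomial r 1 : S k κ) (D.val e - d i) := isWeightedHomogeneous_monomial _ _ _ he
      refine Submodule.subset_span ⟨1, (monomial r 1 : S k κ) • x i,
        ⟨Set.mem_iUnion.2 ⟨i, r, fun v => ?_, rfl⟩, ?_⟩, by rw [map_one D.φ, one_smul]⟩
      · change r v ≤ ∑ a, D.q a + (D.o v.1 - d i v.1).toNat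
        by_cases hv : ∃ a, D.τ a = v.1
        · obtain ⟨a, ha⟩ := hv
          have h1 : r (D.τ a, v.2) < D.q a := h (a, v.2)
          have h2 := Finset.single_le_sum (f := D.q) (fun _ _ => Nat.zero_le _) (Finset.mem_univ a)
          rw [ha, Prod.mk.eta] at h1
          omega
        · push Not at hv
          have h1 := hg.deg (s := r) (by simp [mem_support_iff]) v.1
          have h2 : r v ≤ ∑ j, r (v.1, j) := Finset.single_le_sum (f := fun j => r (v.1, j))
            (fun _ _ => Nat.zero_le _) (Finset.mem_univ v.2)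
          rw [Pi.sub_apply, D.val_of_not _ hv] at h1
          omega
      · have h1 := M.π_smul hg (d i) (x i)
        rw [hx, add_sub_cancel] at h1
        rw [← h1]
        exact pullA_π_mem D M e _
  intro y hy
  obtain ⟨t, ht⟩ := pullA_sum D M hy
  rw [← ht]
  refine Submodule.sum_mem _ fun e _ => ?_
  obtain ⟨f, hf⟩ := (Submodule.mem_span_range_iff_exists_fun (S k κ)).1
    (hsp ▸ Submodule.mem_top : y ∈ Submodule.span (S k κ) (Set.range x))
  rw [← hf, map_sum]
  refine Submodule.sum_mem _ fun i _ => ?_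
  have h1 := M.π_smul_hom (hx i) (f i) (D.val e - d i)
  rw [sub_add_cancel] at h1
  have h2 : Hg (cmp (D.val e - d i) (f i)) (D.val e - d i) :=
    weightedHomogeneousComponent_isWeightedHomogeneous _ _
  rw [h1, (cmp (D.val e - d i) (f i)).as_sum, Finset.sum_smul]
  refine Submodule.sum_mem _ fun r hr => ?_
  rw [← mul_one (coeff r _), ← C_mul_monomial, mul_smul, M.C_smul]
  exact Submodule.smul_mem _ _ (key i r e (h2 (mem_support_iff.1 hr)))

variable [Fintype ι] [Fintype κ] [Fintype μ]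

theorem exists_isPull (D : PD m k ι κ) (M : GM m k κ) : ∃ N j, IsPull D M N j := by
  refine ⟨GM.ofRep (pullA_W D M) (pullA_ρ D M)
    (fun e => (M.π (D.val e)).restrict fun x _ => pullA_π_mem D M e x) ?_
    (fun e x => Subtype.ext (M.π_self _ _))
    (fun e e' x h => Subtype.ext (M.π_ne _ _ _ fun h' => h (D.val_inj h')))
    (fun x => ?_) (fun v e x => Subtype.ext (pullA_π_X D M v e x))
    (fun i x => Subtype.ext (GM.mem_ann.1 (M.Fer_le_ann (D.fer i)) x.1)),
    (pullA_W D M).subtype, Subtype.val_injective, fun _ _ => rfl, fun _ _ => rfl,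
    fun e x => ⟨⟨_, pullA_π_mem D M e x⟩, rfl⟩⟩
  · obtain ⟨s, h1, h2, h3⟩ := pullA_fg D M
    refine ⟨Subtype.val ⁻¹' s, h1.preimage Subtype.val_injective.injOn, eq_top_iff.2 fun w _ => ?_⟩
    have h4 : Submodule.span k {y | ∃ f, ∃ x ∈ s, y = D.φ f • x} ≤
        (Submodule.span k {y | ∃ f, ∃ x ∈ Subtype.val ⁻¹' s, y = pullA_ρ D M f x}).map
          (pullA_W D M).subtype := Submodule.span_le.2 (by
      rintro _ ⟨f, x, hx, rfl⟩
      exact ⟨_, Submodule.subset_span ⟨f, ⟨x, h2 hx⟩, hx, rfl⟩, rfl⟩)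
    obtain ⟨u, hu, e⟩ := h4 (h3 w.2)
    rwa [← show u = w from Subtype.ext e]
  · obtain ⟨s, hs⟩ := pullA_sum D M x.2
    exact ⟨s, Subtype.ext (by rw [Submodule.coe_sum]; exact hs)⟩

theorem IsPull.hilb_eq {D : PD m k ι κ} {M : GM m k κ} {N : GM m k ι} {j : N.M →ₗ[k] M.M}
    (h : IsPull D M N j) (e : ι → ℤ) : hilb N e = hilb M (D.val e) := by
  have h1 : LinearMap.range (M.π (D.val e)) = (LinearMap.range (N.π e)).map j := by
    refine le_antisymm ?_ ?_
    · rintro _ ⟨x, rfl⟩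
      obtain ⟨y, hy⟩ := h.surj e x
      exact ⟨_, ⟨y, rfl⟩, by rw [h.π, hy, M.π_self]⟩
    · rintro _ ⟨_, ⟨y, rfl⟩, rfl⟩
      exact ⟨_, (h.π e y).symm⟩
  rw [hilb, hilb, h1]
  exact (Submodule.equivMapOfInjective j h.inj _).finrank_eq

/-- functoriality -/
theorem IsPull.exists_hom {D : PD m k ι κ} {M M' : GM m k κ} {N N' : GM m k ι}
    {j : N.M →ₗ[k] M.M} {j' : N'.M →ₗ[k] M'.M} (h : IsPull D M N j) (h' : IsPull D M' N' j')
    (f : Hom M M') : ∃ g : Hom N N', (∀ x, j' (g.f x) = f.f (j x)) ∧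
      (Function.Surjective f.f → Function.Surjective g.f) ∧
      ∀ y, j' y ∈ LinearMap.range f.f → y ∈ LinearMap.range g.f := by
  have h1 : ∀ x, (f.f.restrictScalars k ∘ₗ j) x ∈ LinearMap.range j' := by
    intro x
    obtain ⟨s, hs⟩ := N.sum_π x
    rw [← hs, map_sum]
    refine Submodule.sum_mem _ fun e _ => ?_
    change f.f (j (N.π e x)) ∈ _
    rw [h.π, f.π]
    exact h'.surj e _
  obtain ⟨g, hg⟩ : ∃ g : N.M →ₗ[k] N'.M, ∀ x, j' (g x) = f.f (j x) :=
    ⟨(LinearEquiv.ofInjective j' h'.inj).symm.toLinearMap ∘ₗ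
      (f.f.restrictScalars k ∘ₗ j).codRestrict _ h1, fun x =>
        LinearEquiv.ofInjective_symm_apply j' (h := h'.inj) _⟩
  let g' : Hom N N' := Hom.mk' g
    (fun a x => h'.inj (by rw [hg, h.smul, map_smul, h'.smul, hg]))
    fun e x => h'.inj (by rw [hg, h.π, f.π, h'.π, hg])
  have h2 : ∀ y, j' y ∈ LinearMap.range f.f → y ∈ LinearMap.range g'.f := by
    rintro y ⟨z, hz⟩
    refine N'.mem_of_π (W := (LinearMap.range g'.f).toAddSubgroup) fun e => ?_
    obtain ⟨w, hw⟩ := h.surj e z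
    exact ⟨w, h'.inj ((hg w).trans (by rw [hw, f.π, hz, h'.π]))⟩
  exact ⟨g', hg, fun hs y => h2 y (hs _), h2⟩

theorem IsPull.comp {D : PD m k ι κ} {D' : PD m k μ ι} {D'' : PD m k μ κ} {M : GM m k κ}
    {N : GM m k ι} {P : GM m k μ} {j : N.M →ₗ[k] M.M} {j' : P.M →ₗ[k] N.M}
    (h : IsPull D M N j) (h' : IsPull D' N P j') (hφ : ∀ v, D''.φ (X v) = D.φ (D'.φ (X v)))
    (hv : ∀ e, D''.val e = D.val (D'.val e)) : IsPull D'' M P (j ∘ₗ j') := by
  have h1 : D''.φ = D.φ.comp D'.φ := MvPolynomial.algHom_ext hφ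
  refine ⟨h.inj.comp h'.inj, fun f x => ?_, fun e x => ?_, fun e x => ?_⟩
  · rw [h1, LinearMap.comp_apply, h'.smul, h.smul]; rfl
  · rw [hv, LinearMap.comp_apply, h'.π, h.π]; rfl
  · obtain ⟨y, hy⟩ := h.surj (D'.val e) x
    obtain ⟨z, hz⟩ := h'.surj e y
    exact ⟨z, by rw [LinearMap.comp_apply, hz, h.π, hy, M.π_self, hv]⟩

end Pool.Agent.Tate
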