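import Pool.Agent.P.MP_2ce3e7_ag.Core
import Pool.Agent.P.MP_fcbc4b_ag.RegSeq

/-! Independent differentials give a regular sequence. -/

set_option autoImplicit false

noncomputable section

namespace Pool.Agent.Tate

open MvPolynomial

section RS

variable {K σ : Type} [Field K] [Fintype σ] (x : σ → K)

/-- the affine linear polynomial with gradient `v` that vanishes at `x` -/
def rsL : (σ → K) →ₗ[K] MvPolynomial σ K := Fintype.linearCombination K fun w => X w - C (x w)

theorem rs_L_mem (v : σ → K) : rsL x v ∈ RingHom.ker (eval x) := by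
  simp [rsL, Fintype.linearCombination_apply, RingHom.mem_ker, map_sum]

theorem rs_taylor (g : MvPolynomial σ K) :
    g - C (eval x g) - rsL x (fun w => eval x (pderiv w g)) ∈ RingHom.ker (eval x) ^ 2 := by
  classical
  induction g using MvPolynomial.induction_on with
  | C a =>
    have : (fun w => eval x (pderiv w (C a : MvPolynomial σ K))) = 0 := by
      ext w
      simp
    rw [this, map_zero, eval_C, sub_self, sub_zero]
    exact Ideal.zero_mem _
  | add p q hp hq =>
    have e : (fun w => eval x (pderiv w (p + q))) =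
        (fun w => eval x (pderiv w p)) + fun w => eval x (pderiv w q) := by
      ext w
      simp
    have := Ideal.add_mem _ hp hq
    rw [e, map_add, map_add, map_add]
    convert this using 1
    ring
  | mul_X p i hp =>
    have e : (fun w => eval x (pderiv w (p * X i))) =
        x i • (fun w => eval x (pderiv w p)) + eval x p • (Pi.single i 1 : σ → K) := by
      ext w
      by_cases h : w = i
      · subst h
        simp
        ring
      · simp [h, Ne.symm h, mul_comm]
    have e2 : rsL x (Pi.single i 1) = X i - C (x i) := by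
      simp [rsL]
    have h1 : rsL x (fun w => eval x (pderiv w p)) * (X i - C (x i)) ∈ RingHom.ker (eval x) ^ 2 := by
      rw [pow_two]
      exact Ideal.mul_mem_mul (rs_L_mem x _) (by simp [RingHom.mem_ker])
    have := Ideal.add_mem _ h1 (Ideal.mul_mem_right (X i) _ hp)
    rw [e, map_add, map_smul, map_smul, e2, smul_eq_C_mul, smul_eq_C_mul, map_mul, eval_X, map_mul]
    convert this using 1
    ring

theorem rs_height : (Fintype.card σ : ℕ∞) ≤ (RingHom.ker (eval x)).height := by
  classical
  let φ : Finset σ → MvPolynomial σ K →ₐ[K] MvPolynomial σ K := fun T =>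
    aeval fun w => if w ∈ T then C (x w) else X w
  have key : ∀ T : Finset σ, (T.card : ℕ∞) ≤ (RingHom.ker (φ T)).height := by
    intro T
    induction T using Finset.induction_on with
    | empty => simp
    | insert w T hw ih =>
      have h1 : (φ (insert w T)).comp (φ T) = φ (insert w T) := by
        ext1 v
        by_cases h : v ∈ T <;> simp [φ, h]
      have hlt : RingHom.ker (φ T) < RingHom.ker (φ (insert w T)) := by
        refine lt_of_le_of_ne (fun g hg => ?_) fun h => ?_
        · rw [RingHom.mem_ker] at hg ⊢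
          rw [← h1, AlgHom.comp_apply, hg, map_zero]
        · have h2 : (X w - C (x w) : MvPolynomial σ K) ∈ RingHom.ker (φ (insert w T)) := by
            simp [RingHom.mem_ker, φ]
          rw [← h, RingHom.mem_ker] at h2
          have h3 := congrArg (eval fun _ => x w + 1) h2
          simp [φ, hw] at h3
      have := RingHom.ker_isPrime (φ T)
      have := RingHom.ker_isPrime (φ (insert w T))
      rw [Finset.card_insert_of_notMem hw, Nat.cast_succ]
      exact (add_le_add_left ih 1).trans (Ideal.height_add_one_le_of_lt_of_isPrime hlt)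
  refine (key Finset.univ).trans (Ideal.height_mono fun g hg => ?_)
  have h1 : (aeval x).comp (φ Finset.univ) = aeval x := by
    ext1 v
    simp [φ]
  rw [RingHom.mem_ker] at hg ⊢
  rw [← coe_aeval_eq_eval]
  change aeval x g = 0
  rw [← h1, AlgHom.comp_apply, hg, map_zero]

theorem rs_domain {A R : Type} [Fintype A] [CommRing R] [IsLocalRing R] [IsNoetherianRing R]
    (f : A → MvPolynomial σ K) (h0 : ∀ a, eval x (f a) = 0)
    (hi : LinearIndependent K fun a w => eval x (pderiv w (f a))) (ψ : MvPolynomial σ K →+* R)
    (hψm : (RingHom.ker (eval x)).map ψ = IsLocalRing.maximalIdeal R) (hψf : ∀ a, ψ (f a) = 0)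
    (h3 : ((Fintype.card σ : ℕ∞) : WithBot ℕ∞) ≤
      ringKrullDim R + ((Fintype.card A : ℕ∞) : WithBot ℕ∞)) : IsDomain R := by
  classical
  have hψ2 : ∀ g ∈ RingHom.ker (eval x) ^ 2, ψ g ∈ IsLocalRing.maximalIdeal R ^ 2 := fun g hg => by
    rw [← hψm, ← Ideal.map_pow]
    exact Ideal.mem_map_of_mem _ hg
  let U : Submodule K (σ → K) :=
    Submodule.span K (Set.range fun (a : A) w => eval x (pderiv w (f a)))
  have hU : Module.finrank K U = Fintype.card A := finrank_span_eq_card hi
  obtain ⟨V, hV⟩ := U.exists_isCompl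
  have hd := Submodule.finrank_add_eq_of_isCompl hV
  rw [hU, Module.finrank_fintype_fun_eq_card] at hd
  let b := Module.finBasis K V
  let s : Finset R := Finset.univ.image fun j => ψ (rsL x (b j))
  let N : Ideal R := Ideal.span (s : Set R) ⊔ IsLocalRing.maximalIdeal R ^ 2
  let Z : Submodule K (σ → K) := ((N.comap ψ).restrictScalars K).comap (rsL x)
  have hZ : ∀ v, v ∈ Z ↔ ψ (rsL x v) ∈ N := fun v => Iff.rfl
  have hUZ : U ≤ Z := by
    refine Submodule.span_le.2 ?_
    rintro _ ⟨a, rfl⟩
    have h1 := hψ2 _ (rs_taylor x (f a))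
    rw [h0, map_zero, sub_zero, map_sub, hψf, zero_sub] at h1
    exact (hZ _).2 (Ideal.mem_sup_right (neg_mem_iff.1 h1))
  have hVZ : V ≤ Z := by
    intro v hv
    have h1 := congrArg V.subtype (b.sum_repr ⟨v, hv⟩)
    simp only [map_sum, map_smul, Submodule.subtype_apply] at h1
    rw [← h1]
    refine Z.sum_mem fun j _ => Z.smul_mem _ ((hZ _).2 (Ideal.mem_sup_left (Ideal.subset_span ?_)))
    exact Finset.mem_coe.2 (Finset.mem_image_of_mem _ (Finset.mem_univ j))
  have hZt : ∀ v, ψ (rsL x v) ∈ N := fun v =>
    (hZ v).1 (sup_le hUZ hVZ (hV.sup_eq_top ▸ Submodule.mem_top))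
  have hspan : Ideal.span (s : Set R) = IsLocalRing.maximalIdeal R := by
    refine le_antisymm (Ideal.span_le.2 fun z hz => ?_) ?_
    · obtain ⟨j, -, rfl⟩ := Finset.mem_image.1 (Finset.mem_coe.1 hz)
      rw [← hψm]
      exact Ideal.mem_map_of_mem _ (rs_L_mem x _)
    · refine Submodule.le_of_le_smul_of_le_jacobson_bot (IsNoetherian.noetherian _)
        (IsLocalRing.maximalIdeal_le_jacobson _) ?_
      rw [smul_eq_mul, ← pow_two]
      change _ ≤ N
      rw [← hψm, Ideal.map_le_iff_le_comap]
      intro g hg
      have h1 := hψ2 _ (rs_taylor x g)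
      rw [show eval x g = 0 from hg, map_zero, sub_zero, map_sub] at h1
      have h2 := N.add_mem (Ideal.mem_sup_right h1) (hZt fun w => eval x (pderiv w g))
      rwa [sub_add_cancel] at h2
  refine (Pool.Agent.P.MP_fcbc4b_ag.regular_aux (Module.finrank K V) R s
    (Finset.card_image_le.trans (by simp)) hspan ?_).1
  rw [← hd] at h3
  generalize ringKrullDim R = k at h3
  induction k with
  | bot => simp at h3
  | coe k =>
    norm_cast at h3 ⊢
    induction k with
    | top => simp
    | coe k => norm_cast at h3 ⊢; omega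

theorem rs_loc {A R : Type} [Fintype A] [CommRing R] [Algebra (MvPolynomial σ K) R]
    [(RingHom.ker (eval x)).IsPrime] [IsLocalization.AtPrime R (RingHom.ker (eval x))]
    (f : A → MvPolynomial σ K) (h0 : ∀ a, eval x (f a) = 0)
    (hi : LinearIndependent K fun a w => eval x (pderiv w (f a))) :
    ((Ideal.span (Set.range f)).map (algebraMap _ R)).IsPrime := by
  have := IsLocalization.AtPrime.isLocalRing R (RingHom.ker (eval x))
  have : IsNoetherianRing R :=
    IsLocalization.isNoetherianRing (RingHom.ker (eval x)).primeCompl R inferInstance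
  rw [Ideal.map_span, ← Set.range_comp, ← Ideal.Quotient.isDomain_iff_prime]
  set s := Set.range (algebraMap (MvPolynomial σ K) R ∘ f) with hs
  have hmax := IsLocalization.AtPrime.map_eq_maximalIdeal (RingHom.ker (eval x)) R
  have hJm : Ideal.span s ≤ IsLocalRing.maximalIdeal R := by
    rw [← hmax, Ideal.span_le]
    rintro _ ⟨a, rfl⟩
    exact Ideal.mem_map_of_mem _ (h0 a)
  have : Nontrivial (R ⧸ Ideal.span s) := Ideal.Quotient.nontrivial_iff.mpr fun h =>
    (IsLocalRing.maximalIdeal.isMaximal R).ne_top (top_le_iff.mp (h ▸ hJm))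
  have : IsLocalRing (R ⧸ Ideal.span s) :=
    IsLocalRing.of_surjective' (Ideal.Quotient.mk _) Ideal.Quotient.mk_surjective
  refine rs_domain x f h0 hi ((Ideal.Quotient.mk _).comp (algebraMap _ R)) ?_ (fun a => ?_) ?_
  · rw [← Ideal.map_map, hmax]
    exact IsLocalRing.map_maximalIdeal_of_surjective _ Ideal.Quotient.mk_surjective
  · exact Ideal.Quotient.eq_zero_iff_mem.2 (Ideal.subset_span ⟨a, rfl⟩)
  · have h1 := ringKrullDim_le_ringKrullDim_quotient_add_encard s (by
      rw [IsLocalRing.ringJacobson_eq_maximalIdeal]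
      exact Ideal.subset_span.trans hJm)
    have h2 : s.encard ≤ (Fintype.card A : ℕ∞) := by
      rw [hs, ← Set.image_univ]
      refine (Set.encard_image_le _ _).trans ?_
      simp
    rw [IsLocalization.AtPrime.ringKrullDim_eq_height (RingHom.ker (eval x)) R] at h1
    exact ((WithBot.coe_le_coe.2 (rs_height x)).trans h1).trans
      (add_le_add_right (WithBot.coe_le_coe.2 h2) _)

end RS

theorem reg_of_indep {K σ A : Type} [Field K] [Fintype σ] [Fintype A] (x : σ → K)
    (f : Option A → MvPolynomial σ K) (h0 : ∀ a, eval x (f a) = 0)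
    (hi : LinearIndependent K fun a w => eval x (pderiv w (f a))) {y : MvPolynomial σ K}
    (hy : f none * y ∈ Ideal.span (Set.range fun a => f (some a))) :
    ∃ s, eval x s ≠ 0 ∧ s * y ∈ Ideal.span (Set.range fun a => f (some a)) := by
  have : (RingHom.ker (eval x : MvPolynomial σ K →+* K)).IsPrime := RingHom.ker_isPrime _
  have hp := rs_loc (R := Localization.AtPrime (RingHom.ker (eval x))) x (fun a => f (some a))
    (fun a => h0 _) (hi.comp some (Option.some_injective A))
  have h1 := Ideal.mem_map_of_mem (algebraMap _ (Localization.AtPrime (RingHom.ker (eval x)))) hy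
  rw [map_mul] at h1
  have h2 := (hp.mem_or_mem h1).resolve_left fun h => ?_
  · exact (IsLocalization.algebraMap_mem_map_algebraMap_iff
      (RingHom.ker (eval x)).primeCompl _ _ _).1 h2
  obtain ⟨t, ht, htI⟩ := (IsLocalization.algebraMap_mem_map_algebraMap_iff
    (RingHom.ker (eval x)).primeCompl _ _ _).1 h
  obtain ⟨c, hc⟩ := Ideal.mem_span_range_iff_exists_fun.1 htI
  have h2 := Fintype.linearIndependent_iff.1 hi
    (fun a => a.elim (-eval x t) fun a => eval x (c a)) (by
      ext w
      have := congrArg (fun g => eval x (pderiv w g)) hc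
      simp only [map_sum, pderiv_mul, map_add, map_mul, h0, mul_zero, zero_add] at this
      simp [Fintype.sum_option, this]) none
  exact ht (neg_eq_zero.1 h2)

end Pool.Agent.Tate
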