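import Pool.Agent.P.MP_2ce3e7_ag.ResA

/-! Restriction of scalars and Galois conjugation. -/

set_option autoImplicit false

noncomputable section

namespace Pool.Agent.Tate

open MvPolynomial TensorProduct

variable {m : ℕ} {k k' ι κ : Type} [Field k] [Field k'] [Fintype ι] [DecidableEq ι] [Fintype κ]

omit [Fintype ι] [DecidableEq ι] in
theorem Res_smul {s : k →+* k'} {M : GM m k' ι} {N : GM m k ι} {j : N.M ≃+ M.M}
    (h : IsRes s M N j) (a : k) (x : N.M) : j (a • x) = s a • j x := by
  rw [← N.C_smul, h.smul, map_C, M.C_smul]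

omit [Fintype ι] [DecidableEq ι] in
theorem Res_hilb {s : k →+* k'} (hb : Function.Bijective s) {M : GM m k' ι} {N : GM m k ι}
    {j : N.M ≃+ M.M} (h : IsRes s M N j) (d : ι → ℤ) : hilb N d = hilb M d := by
  let j' : LinearMap.range (N.π d) ≃+ LinearMap.range (M.π d) :=
    { toFun := fun x => ⟨j x.1, M.mem_range_π.2 (by rw [← h.π, N.mem_range_π.1 x.2])⟩
      invFun := fun y => ⟨j.symm y.1, N.mem_range_π.2 (j.injective (by
        rw [h.π, j.apply_symm_apply, M.mem_range_π.1 y.2]))⟩
      left_inv := fun x => Subtype.ext (j.symm_apply_apply x.1)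
      right_inv := fun y => Subtype.ext (j.apply_symm_apply y.1)
      map_add' := fun x y => Subtype.ext (j.map_add x.1 y.1) }
  have hr := rank_eq_of_equiv_equiv s j' hb fun a x => Subtype.ext (Res_smul h a x.1)
  unfold hilb Module.finrank
  rw [hr]

/-- the matrix of conjugates of a basis is invertible -/
theorem Res_matrix [Algebra k k'] [FiniteDimensional k k'] [DecidableEq (k' ≃ₐ[k] k')]
    (b : Module.Basis (k' ≃ₐ[k] k') k k') :
    IsUnit (Matrix.of fun σ i : k' ≃ₐ[k] k' => σ (b i)) :=
  Matrix.linearIndependent_rows_iff_isUnit.1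
    (((linearIndependent_algHom_toLinearMap k k' k').comp _
      (algEquivEquivAlgHom k k').injective).map' _ (b.constr k').symm.ker)

theorem Res_mul_smul {A V : Type} [Fintype A] [DecidableEq A] [AddCommGroup V] [Module k' V]
    {P Q : Matrix A A k'} (h : P * Q = 1) (y : A → V) (a : A) :
    ∑ b, P a b • ∑ c, Q b c • y c = y a := by
  simp only [Finset.smul_sum, smul_smul]
  rw [Finset.sum_comm]
  simp only [← Finset.sum_smul, ← Matrix.mul_apply, h, Matrix.one_apply, ite_smul, one_smul,
    zero_smul, Finset.sum_ite_eq, Finset.mem_univ, if_true]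

omit [Fintype ι] [DecidableEq ι] in
/-- the map from the base change of the restriction to a conjugate -/
theorem Res_hom [Algebra k k'] (σ : k' ≃ₐ[k] k') {M B Q : GM m k' ι} {N : GM m k ι}
    {j : N.M ≃+ M.M} (h : IsRes (algebraMap k k') M N j) {jb : k' ⊗[k] N.M ≃ₗ[k'] B.M}
    (hb : IsBC N B jb) {jq : Q.M ≃+ M.M} (hq : IsRes (σ : k' →+* k') M Q jq) :
    ∃ f : Hom B Q, ∀ a x, jq (f.f (jb (a ⊗ₜ x))) = σ a • j x := by
  letI : Module k Q.M := Module.compHom Q.M (algebraMap k k')
  haveI : IsScalarTower k k' Q.M := ⟨fun a b x => by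
    change (a • b) • x = algebraMap k k' a • b • x
    rw [Algebra.smul_def, mul_smul]⟩
  let g : N.M →ₗ[k] Q.M :=
    { toFun := fun x => jq.symm (j x)
      map_add' := fun x y => by rw [map_add, map_add]
      map_smul' := fun a x => jq.injective (by
        change jq (jq.symm (j (a • x))) = jq (algebraMap k k' a • jq.symm (j x))
        rw [jq.apply_symm_apply, Res_smul h, Res_smul hq, jq.apply_symm_apply]
        congr 1
        exact (σ.commutes a).symm) }
  have hg : ∀ x, jq (g x) = j x := fun x => jq.apply_symm_apply _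
  let F : B.M →ₗ[k'] Q.M := g.liftBaseChange k' ∘ₗ jb.symm.toLinearMap
  have hF : ∀ a x, F (jb (a ⊗ₜ x)) = a • g x := fun a x => by
    change g.liftBaseChange k' (jb.symm (jb (a ⊗ₜ x))) = _
    rw [jb.symm_apply_apply, LinearMap.liftBaseChange_tmul]
  have ht : ∀ (a : k') (x : N.M), jb (a ⊗ₜ x) = a • jb (1 ⊗ₜ x) := fun a x => by
    rw [← map_smul, smul_tmul', smul_eq_mul, mul_one]
  have hX : ∀ (v : ι × Fin 3) (y : B.M), F ((X v : S k' ι) • y) = (X v : S k' ι) • F y := by
    intro v y
    obtain ⟨t, rfl⟩ := jb.surjective y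
    induction t using TensorProduct.induction_on with
    | zero => simp
    | add t t' h1 h2 => rw [map_add, smul_add, map_add, map_add, h1, h2, smul_add]
    | tmul a x =>
      have h1 : (X v : S k' ι) • jb (a ⊗ₜ x) = jb (a ⊗ₜ ((X v : S k ι) • x)) := by
        rw [ht, ht a (_ • x), hb.smul, map_X, smul_comm]
      have h2 : g ((X v : S k ι) • x) = (X v : S k' ι) • g x := jq.injective (by
        rw [hg, h.smul, hq.smul, hg, map_X, map_X])
      rw [h1, hF, hF, h2, smul_comm]
  have hπ : ∀ d (y : B.M), F (B.π d y) = Q.π d (F y) := by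
    intro d y
    obtain ⟨t, rfl⟩ := jb.surjective y
    induction t using TensorProduct.induction_on with
    | zero => simp
    | add t t' h1 h2 => rw [map_add, map_add, map_add, map_add, h1, h2, map_add]
    | tmul a x =>
      have h1 : B.π d (jb (a ⊗ₜ x)) = jb (a ⊗ₜ N.π d x) := by
        rw [ht, ht a (N.π d x), map_smul, hb.π]
      have h2 : g (N.π d x) = Q.π d (g x) := jq.injective (by rw [hg, h.π, hq.π, hg])
      rw [h1, hF, hF, h2, map_smul]
  refine ⟨Hom.mk' F (smul_of_X (AlgHom.id k' _) F hX) hπ, fun a x => ?_⟩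
  change jq (F (jb (a ⊗ₜ x))) = _
  rw [hF, Res_smul hq, hg]
  rfl

theorem bcG_resG [Algebra k k'] [FiniteDimensional k k'] [IsGalois k k'] (x : G m k' ι) :
    bcG k' (resG (algebraMap k k') x) = ∑ σ : k' ≃ₐ[k] k', resG (σ : k' →+* k') x := by
  classical
  induction x using G.ind with
  | h0 => simp
  | h2 x y hx hy => simp only [map_add, hx, hy, Finset.sum_add_distrib]
  | h3 c x hx => simp only [map_smul, hx, Finset.smul_sum]
  | h1 M =>
    have hs : (algebraMap k k').Finite := RingHom.finite_algebraMap.2 inferInstance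
    have hσ : ∀ σ : k' ≃ₐ[k] k', (σ : k' →+* k').Finite := fun σ =>
      RingHom.Finite.of_surjective _ σ.surjective
    obtain ⟨N, j, h⟩ := exists_isRes (algebraMap k k') hs M
    obtain ⟨B, jb, hb⟩ := exists_isBC k' N
    choose Q jq hq using fun σ : k' ≃ₐ[k] k' => exists_isRes (σ : k' →+* k') (hσ σ) M
    choose f hf using fun σ : k' ≃ₐ[k] k' => Res_hom σ h hb (hq σ)
    rw [h.resG_cls hs, hb.bcG_cls, Finset.sum_congr rfl fun σ _ => (hq σ).resG_cls (hσ σ)]
    refine cls_sum Q f ?_
    let b := IsGalois.normalBasis k k'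
    obtain ⟨u, hu⟩ := Res_matrix b
    have hu' : ∀ σ i, u.1 σ i = σ (b i) := fun σ i => by rw [hu]; rfl
    have key : ∀ (c : (k' ≃ₐ[k] k') → N.M) σ,
        jq σ ((f σ).f (jb (∑ i, b i ⊗ₜ c i))) = ∑ i, u.1 σ i • j (c i) := fun c σ => by
      simp only [map_sum, hf, hu']
    constructor
    · intro y y' hy
      rw [← sub_eq_zero]
      obtain ⟨t, ht⟩ := jb.surjective (y - y')
      obtain ⟨c, rfl⟩ := TensorProduct.eq_repr_basis_left b t
      rw [Finsupp.sum_fintype _ _ fun i => tmul_zero _ _] at ht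
      have h0 : ∀ i, c i = 0 := fun i => by
        have h1 := Res_mul_smul u.inv_val (fun i => j (c i)) i
        have h2 : ∀ σ, ∑ i, u.1 σ i • j (c i) = 0 := fun σ => by
          rw [← key, ht, map_sub, show (f σ).f y = (f σ).f y' from congrFun hy σ, sub_self,
            map_zero]
        simp only [h2, smul_zero, Finset.sum_const_zero] at h1
        exact j.injective (by rw [map_zero]; exact h1.symm)
      rw [← ht]
      simp only [h0, tmul_zero, Finset.sum_const_zero, map_zero]
    · intro z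
      refine ⟨jb (∑ i, b i ⊗ₜ j.symm (∑ τ, u.2 i τ • jq τ (z τ))), funext fun σ => ?_⟩
      refine (jq σ).injective ?_
      rw [key]
      simp only [AddEquiv.apply_symm_apply]
      exact Res_mul_smul u.val_inv (fun τ => jq τ (z τ)) σ

omit [Fintype ι] [DecidableEq ι] in
theorem Res_map_φ (p : ℕ) [Fact p.Prime] [CharP k p] {f : ℕ} {s : k →+* k}
    (hs : ∀ a : k, s a = a ^ p ^ f) (g : S k ι) :
    map s ((frD m k p fun _ : ι => f).φ g) = g ^ p ^ f := by
  have h : (map s : S k ι →+* S k ι).comp (frD m k p fun _ : ι => f).φ.toRingHom =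
      iterateFrobenius (S k ι) p f := by
    refine MvPolynomial.ringHom_ext (fun a => ?_) fun v => ?_
    · change map s ((frD m k p fun _ : ι => f).φ (C a)) = C a ^ p ^ f
      rw [algHom_C, algebraMap_eq, map_C, hs, map_pow]
    · change map s ((frD m k p fun _ : ι => f).φ (X v)) = X v ^ p ^ f
      rw [PD.φ_X]
      change map s (C 1 * X v ^ p ^ f) = _
      rw [C_1, one_mul, map_pow, map_X]
  exact RingHom.congr_fun h g

theorem qlike_fr_res (p : ℕ) [Fact p.Prime] [CharP k p] {f : ℕ} {s : k →+* k}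
    (hb : Function.Bijective s) (hs : ∀ a : k, s a = a ^ p ^ f) :
    QLike (p ^ f) ((fr p fun _ => f) * resG s : Module.End ℂ (G m k ι)) := by
  intro M
  have hfin : s.Finite := RingHom.Finite.of_surjective _ hb.2
  obtain ⟨N₁, j₁, h₁⟩ := exists_isRes s hfin M
  obtain ⟨N, j, h⟩ := exists_isPull (frD m k p fun _ : ι => f) N₁
  refine ⟨N, ?_, fun g hg => GM.mem_ann.2 fun x => h.inj (j₁.injective ?_), fun d => ?_⟩
  · rw [Module.End.mul_apply, h₁.resG_cls hfin]
    exact h.pullG_cls Function.surjective_id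
  · obtain ⟨n, hn⟩ := Nat.exists_eq_succ_of_ne_zero (pow_pos (Fact.out : p.Prime).pos f).ne'
    rw [h.smul, h₁.smul, Res_map_φ p hs, map_zero, map_zero, hn, pow_succ, mul_smul,
      GM.mem_ann.1 hg, smul_zero]
  · rw [h.hilb_eq, Res_hilb hb h₁]
    congr 1
    funext i
    exact ((frD m k p fun _ : ι => f).val_τ d i).trans (zero_add _)

end Pool.Agent.Tate
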