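import Pool.Agent.P.MP_2ce3e7_ag.BC
import Pool.Agent.P.MP_2ce3e7_ag.Fil

/-! Restriction of scalars and Galois conjugation. -/

set_option autoImplicit false

noncomputable section

namespace Pool.Agent.Tate

open MvPolynomial TensorProduct

variable {m : ℕ} {k k' ι κ : Type} [Field k] [Field k'] [Fintype ι] [DecidableEq ι] [Fintype κ]

omit [Fintype ι] [DecidableEq ι] [Fintype κ] in
theorem resA_finite {σ : Type} {s : k →+* k'} (hs : s.Finite) :
    (MvPolynomial.map s : MvPolynomial σ k →+* MvPolynomial σ k').Finite := by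
  let : Algebra k k' := s.toAlgebra
  let : Algebra (MvPolynomial σ k) (MvPolynomial σ k') := MvPolynomial.algebraMvPolynomial
  have h : (algebraMap k k').Finite := hs
  exact RingHom.finite_isStableUnderBaseChange k k' (MvPolynomial σ k) (MvPolynomial σ k') h

omit [Fintype ι] [DecidableEq ι] in
theorem exists_isRes (s : k →+* k') (hs : s.Finite) (M : GM m k' ι) :
    ∃ (N : GM m k ι) (j : N.M ≃+ M.M), IsRes s M N j := by
  let : Module k M.M := Module.compHom M.M s
  let : Algebra (S k ι) (S k' ι) := (MvPolynomial.map s : S k ι →+* S k' ι).toAlgebra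
  let : Module (S k ι) M.M := Module.compHom M.M (MvPolynomial.map s : S k ι →+* S k' ι)
  have hk : ∀ (a : k) (x : M.M), a • x = s a • x := fun _ _ => rfl
  have hS : ∀ (f : S k ι) (x : M.M), f • x = map s f • x := fun _ _ => rfl
  have : IsScalarTower k (S k ι) M.M := ⟨fun a f x => by
    rw [hS, hk, hS, smul_eq_C_mul, map_mul, map_C, mul_smul, M.C_smul]⟩
  have : IsScalarTower (S k ι) (S k' ι) M.M := ⟨fun f g x => by
    rw [hS, Algebra.smul_def, mul_smul]
    rfl⟩
  have : Module.Finite (S k ι) (S k' ι) := resA_finite hs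
  have fg : Module.Finite (S k ι) M.M := Module.Finite.trans (S k' ι) M.M
  refine ⟨{ M := M.M
            fg := fg
            π := fun d =>
              { toFun := M.π d
                map_add' := (M.π d).map_add
                map_smul' := fun a x => (M.π d).map_smul (s a) x }
            π_self := M.π_self
            π_ne := M.π_ne
            sum_π := M.sum_π
            π_X := fun v d x => ?_
            fer_smul := fun i x => ?_ }, AddEquiv.refl _, fun _ _ => rfl, fun _ _ => rfl⟩
  · change M.π (d + wt v) (map s (X v : S k ι) • x) = map s (X v : S k ι) • M.π d x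
    rw [map_X]
    exact M.π_X v d x
  · rw [hS, map_fer]
    exact M.fer_smul i x

omit [Fintype ι] [DecidableEq ι] [Fintype κ] in
/-- functoriality of the restriction of scalars -/
theorem resA_hom {s : k →+* k'} {M M' : GM m k' ι} {N N' : GM m k ι} {j : N.M ≃+ M.M}
    {j' : N'.M ≃+ M'.M} (h : IsRes s M N j) (h' : IsRes s M' N' j') (f : Hom M M') :
    ∃ g : Hom N N', ∀ x, g.f x = j'.symm (f.f (j x)) := by
  refine ⟨⟨{ toFun := fun x => j'.symm (f.f (j x))
             map_add' := fun x y => by rw [map_add, map_add, map_add]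
             map_smul' := fun a x => ?_ }, fun d x => ?_⟩, fun _ => rfl⟩
  · apply j'.injective
    rw [RingHom.id_apply, h'.smul, j'.apply_symm_apply, j'.apply_symm_apply, h.smul, map_smul]
  · apply j'.injective
    change j' (j'.symm (f.f (j (N.π d x)))) = j' (N'.π d (j'.symm (f.f (j x))))
    rw [h'.π, j'.apply_symm_apply, j'.apply_symm_apply, h.π, f.π]

omit [DecidableEq ι] [Fintype κ] in
theorem resA_unique {s : k →+* k'} {M : GM m k' ι} {N N' : GM m k ι} {j : N.M ≃+ M.M}
    {j' : N'.M ≃+ M.M} (h : IsRes s M N j) (h' : IsRes s M N' j') : cls N = cls N' := by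
  obtain ⟨g, hg⟩ := resA_hom h h' (⟨LinearMap.id, fun _ _ => rfl⟩ : Hom M M)
  refine cls_iso g ?_
  have : (g.f : N.M → N'.M) = j.trans j'.symm := funext fun x => hg x
  rw [this]
  exact (j.trans j'.symm).bijective

theorem exists_resG (m : ℕ) (ι : Type) [Fintype ι] (s : k →+* k') :
    ∃ F : G m k' ι →ₗ[ℂ] G m k ι, s.Finite → ∀ M N j, IsRes s M N j → F (cls M) = cls N := by
  by_cases hs : s.Finite
  · choose R j hR using exists_isRes (m := m) (ι := ι) s hs
    have h1 : ∀ (M N P : GM m k' ι) (f : Hom M N) (g : Hom N P), SES f g →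
        cls (R N) = cls (R M) + cls (R P) := fun M N P f g h => by
      obtain ⟨f', hf'⟩ := resA_hom (hR M) (hR N) f
      obtain ⟨g', hg'⟩ := resA_hom (hR N) (hR P) g
      refine cls_ses (f := f') (g := g') ⟨fun x y hxy => ?_, fun y => ?_, fun y => ?_⟩
      · rw [hf', hf'] at hxy
        exact (j M).injective (h.1 ((j N).symm.injective hxy))
      · obtain ⟨x, hx⟩ := h.2.1 (j P y)
        exact ⟨(j N).symm x, by rw [hg', AddEquiv.apply_symm_apply, hx,
          AddEquiv.symm_apply_apply]⟩
      · rw [hg', EmbeddingLike.map_eq_zero_iff, h.2.2]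
        constructor
        · rintro ⟨x, hx⟩
          exact ⟨(j M).symm x, by rw [hf', AddEquiv.apply_symm_apply, hx,
            AddEquiv.symm_apply_apply]⟩
        · rintro ⟨x, rfl⟩
          exact ⟨j M x, by rw [hf', AddEquiv.apply_symm_apply]⟩
    have h2 : ∀ M : GM m k' ι, Tors M → cls (R M) = 0 := fun M ⟨d₀, hd⟩ => by
      refine cls_tors ⟨d₀, fun d hdd => LinearMap.ext fun x => (j M).injective ?_⟩
      rw [(hR M).π, hd d hdd, LinearMap.zero_apply, LinearMap.zero_apply, map_zero]
    obtain ⟨F, hF⟩ := exists_lift (fun M => cls (R M)) h1 h2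
    exact ⟨F, fun _ M N j' h => (hF M).trans (resA_unique (hR M) h)⟩
  · exact ⟨0, fun h => absurd h hs⟩

/-- restriction of scalars on classes -/
def resG {ι : Type} [Fintype ι] (s : k →+* k') : G m k' ι →ₗ[ℂ] G m k ι :=
  (exists_resG m ι s).choose

omit [DecidableEq ι] in
theorem IsRes.resG_cls {s : k →+* k'} (hs : s.Finite) {M : GM m k' ι} {N : GM m k ι}
    {j : N.M ≃+ M.M} (h : IsRes s M N j) : resG s (cls M) = cls N :=
  (exists_resG m ι s).choose_spec hs M N j h

theorem resG_comp {k'' : Type} [Field k''] {s : k →+* k'} {t : k' →+* k''} (hs : s.Finite)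
    (ht : t.Finite) (x : G m k'' ι) : resG s (resG t x) = resG (t.comp s) x := by
  have : (resG s : G m k' ι →ₗ[ℂ] G m k ι) ∘ₗ resG t = resG (t.comp s) := by
    refine G.ext fun M => ?_
    obtain ⟨N, j, h⟩ := exists_isRes t ht M
    obtain ⟨P, j', h'⟩ := exists_isRes s hs N
    have h'' : IsRes (t.comp s) M P (j'.trans j) :=
      ⟨fun f x => by
        rw [AddEquiv.trans_apply, AddEquiv.trans_apply, h'.smul, h.smul, MvPolynomial.map_map],
        fun d x => by rw [AddEquiv.trans_apply, AddEquiv.trans_apply, h'.π, h.π]⟩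
    rw [LinearMap.comp_apply, h.resG_cls ht, h'.resG_cls hs, h''.resG_cls (ht.comp hs)]
  exact LinearMap.congr_fun this x

theorem resG_id (x : G m k ι) : resG (RingHom.id k) x = x := by
  have : (resG (RingHom.id k) : G m k ι →ₗ[ℂ] G m k ι) = LinearMap.id := by
    refine G.ext fun M => ?_
    have h : IsRes (RingHom.id k) M M (AddEquiv.refl _) :=
      ⟨fun f x => by rw [MvPolynomial.map_id]; rfl, fun _ _ => rfl⟩
    exact h.resG_cls (RingHom.Finite.id k)
  exact LinearMap.congr_fun this x

theorem resG_pull {s : k →+* k'} (hs : s.Finite) {D : PD m k ι κ}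
    (hD : Function.Surjective D.τ) (x : G m k' κ) :
    resG s (pullG (D.map s) x) = pullG D (resG s x) := by
  have : (resG s : G m k' ι →ₗ[ℂ] G m k ι) ∘ₗ pullG (D.map s) = pullG D ∘ₗ resG s := by
    refine G.ext fun M => ?_
    obtain ⟨P, p, hp⟩ := exists_isPull (D.map s) M
    obtain ⟨M', j, hj⟩ := exists_isRes s hs M
    obtain ⟨P', i, hi⟩ := exists_isRes s hs P
    have key : ∀ (f : S k ι) (y : P'.M),
        j.symm (p (i (f • y))) = D.φ f • j.symm (p (i y)) := fun f y => by
      apply j.injective
      rw [hj.smul, j.apply_symm_apply, j.apply_symm_apply, hi.smul, hp.smul, PD.map_φ]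
    let q : P'.M →ₗ[k] M'.M :=
      { toFun := fun y => j.symm (p (i y))
        map_add' := fun y z => by rw [map_add, map_add, map_add]
        map_smul' := fun a y => by
          rw [← P'.C_smul, key, RingHom.id_apply, ← M'.C_smul]
          congr 1
          exact D.φ.commutes a }
    have hq : IsPull D M' P' q := by
      refine ⟨fun y z h => i.injective (hp.inj (j.symm.injective h)), key, fun e y => ?_,
        fun e y => ?_⟩
      · apply j.injective
        change j (j.symm (p (i (P'.π e y)))) = j (M'.π (D.val e) (j.symm (p (i y))))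
        rw [hj.π, j.apply_symm_apply, j.apply_symm_apply, hi.π, hp.π]
        rfl
      · obtain ⟨z, hz⟩ := hp.surj e (j y)
        refine ⟨i.symm z, j.injective ?_⟩
        change j (j.symm (p (i (i.symm z)))) = _
        rw [j.apply_symm_apply, i.apply_symm_apply, hz, hj.π]
        rfl
    rw [LinearMap.comp_apply, LinearMap.comp_apply, IsPull.pullG_cls (D := D.map s) hD hp,
      hi.resG_cls hs, hj.resG_cls hs, hq.pullG_cls hD]
  exact LinearMap.congr_fun this x

omit [Fintype ι] [DecidableEq ι] [Fintype κ] in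
theorem resA_ext {D D' : PD m k ι κ} (h1 : D.τ = D'.τ) (h2 : D.c = D'.c) (h3 : D.q = D'.q)
    (h4 : D.o = D'.o) : D = D' := by
  cases D
  cases D'
  cases h1
  cases h2
  cases h3
  cases h4
  rfl

theorem resG_fr (p : ℕ) [Fact p.Prime] [CharP k p] [CharP k' p] {s : k →+* k'} (hs : s.Finite)
    (t : ι → ℕ) (x : G m k' ι) : resG s (fr p t x) = fr p t (resG s x) := by
  have h : frD m k' p t = (frD m k p t).map s :=
    resA_ext rfl (funext fun _ => (map_one s).symm) rfl rfl
  unfold fr
  rw [h]
  exact resG_pull hs Function.surjective_id x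

theorem resG_pr [NeZero m] {s : k →+* k'} (hs : s.Finite) {ζ : Rt m k} {ζ' : Rt m k'}
    (h : ζ'.1 = s ζ.1) (a : ι → Ch m) (x : G m k' ι) :
    resG s (pr ζ' a x) = pr ζ a (resG s x) := by
  refine avg_comm (resG s) (fun g y => ?_) x
  have h' : twD ζ' (up g) = (twD ζ (up g)).map s :=
    resA_ext rfl (funext fun v => by
      change ζ'.1 ^ _ = s (ζ.1 ^ _)
      rw [map_pow, h]) rfl rfl
  unfold tw tw3
  rw [h']
  exact resG_pull hs Function.surjective_id y

end Pool.Agent.Tate
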