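import Pool.Agent.P.MP_2ce3e7_ag.SA0

/-! Relatively closed and locally closed conditions. -/

set_option linter.unusedSectionVars false
set_option linter.unusedVariables false

open Function Matrix

noncomputable section

namespace Pool.Agent.CXD
variable {k Ω : Type} [Field k] [Field Ω] [Algebra k Ω] {α β γ : Type} [Af Ω α] [Af Ω β] [Af Ω γ]
  {G : Gp Ω} {q : ℕ} {p r r₁ : α → Prop} {p' : β → Prop} [Sq k q] [IsAlgClosed Ω]

theorem Cr.congr (h : Cr k p r) (e : ∀ x, p x → (r₁ x ↔ r x)) : Cr k p r₁ :=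
  fun β _ Q f c hf hS => (h β _ Q f c hf hS).congr fun z => and_congr_right fun hz => e _ (hS z hz)

theorem Cr.mono {p₁ : α → Prop} (h : Cr k p r) (e : ∀ x, p₁ x → p x) : Cr k p₁ r :=
  fun β _ Q f c hf hS => h β _ Q f c hf fun z hz => e _ (hS z hz)

theorem Cz.cr (h : Cz k r) : Cr k p r := fun _ _ _ _ c hf _ => c.and (h.comp hf)

theorem Cr.cz (h : Cr k p r) (c : Cz k p) : Cz k fun x => p x ∧ r x :=
  h α _ p (fun x => x) c Pm.id fun _ h => h

@[fun_prop]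
theorem Cr.const (a : Prop) : Cr k p fun _ => a := (Cz.const a).cr

@[fun_prop]
theorem Cr.pull {r : β → Prop} {g : α → β} (h : Cr k p' r) (hg : Pq k p g)
    (e : ∀ x, p x → p' (g x)) : Cr k p fun x => r (g x) := by
  obtain ⟨γ, _, P, F, hP, hF, e1⟩ := hg
  refine fun ε _ Q f c hf hS => hP.sub _ c hf hS ((h _ _ _ (fun y : ε × γ => F (f y.1, y.2))
    (hP.cz c hf hS) (by fun_prop) fun y hy =>
      (e1 _ _ (hS _ hy.1) hy.2).symm ▸ e _ (hS _ hy.1)).congr fun y => ?_)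
  exact ⟨fun h => ⟨⟨h.1.1, h.2⟩, (congrArg r (e1 _ _ (hS _ h.1.1) h.2)).mpr h.1.2⟩,
    fun h => ⟨⟨h.1.1, (congrArg r (e1 _ _ (hS _ h.1.1) h.1.2)).mp h.2⟩, h.1.2⟩⟩

@[fun_prop]
theorem Cr.comp {r : β → Prop} {g : α → β} (h : Cr k (fun _ => True) r) (hg : Pq k p g) :
    Cr k p fun x => r (g x) := h.pull hg fun _ _ => trivial

@[fun_prop]
theorem Cr.eq {f g : α → β} (hf : Pq k p f) (hg : Pq k p g) : Cr k p fun x => f x = g x :=
  Cr.comp (r := fun y : β × β => y.1 = y.2) (Cz.cr (by fun_prop)) (hf.mk hg)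

@[fun_prop]
theorem Cr.and (h : Cr k p r) (h' : Cr k p r₁) : Cr k p fun x => r x ∧ r₁ x :=
  fun β _ Q f c hf hS => ((h β _ Q f c hf hS).and (h' β _ Q f c hf hS)).congr fun _ =>
    and_and_left

@[fun_prop]
theorem Cr.or (h : Cr k p r) (h' : Cr k p r₁) : Cr k p fun x => r x ∨ r₁ x :=
  fun β _ Q f c hf hS => ((h β _ Q f c hf hS).or (h' β _ Q f c hf hS)).congr fun _ =>
    and_or_left

@[fun_prop]
theorem Cr.all {ι : Sort*} {r : ι → α → Prop} (h : ∀ i, Cr k p (r i)) :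
    Cr k p fun x => ∀ i, r i x :=
  fun β _ Q f c hf hS => (c.and (Cz.all fun i => h i β _ Q f c hf hS)).congr fun _ =>
    and_congr_right fun hz => forall_congr' fun _ => (and_iff_right hz).symm

theorem Cr.bex {ι : Type} (S : Finset ι) {r : ι → α → Prop} (h : ∀ i ∈ S, Cr k p (r i)) :
    Cr k p fun x => ∃ i ∈ S, r i x :=
  fun β _ Q f c hf hS => (Cz.bex S fun i hi => h i hi β _ Q f c hf hS).congr fun _ =>
    ⟨fun ⟨a, i, b, d⟩ => ⟨i, b, a, d⟩, fun ⟨i, b, a, d⟩ => ⟨a, i, b, d⟩⟩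

@[fun_prop]
theorem Cr.ex {ι : Sort*} [Finite ι] {r : ι → α → Prop} (h : ∀ i, Cr k p (r i)) :
    Cr k p fun x => ∃ i, r i x := by
  obtain ⟨n, ⟨e⟩⟩ := Finite.exists_equiv_fin ι
  exact (Cr.bex Finset.univ fun i _ => h (e.symm i)).congr fun _ _ =>
    ⟨fun ⟨i, h⟩ => ⟨e i, Finset.mem_univ _, (e.symm_apply_apply i).symm ▸ h⟩,
      fun ⟨i, _, h⟩ => ⟨_, h⟩⟩

/-- the second condition may use the first -/
theorem Cr.and' (h : Cr k p r) (h' : Cr k (fun x => p x ∧ r x) r₁) :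
    Cr k p fun x => r x ∧ r₁ x :=
  fun β _ Q f c hf hS => (h' β _ _ f (h β _ Q f c hf hS) hf fun z hz =>
    ⟨hS z hz.1, hz.2⟩).congr fun _ => and_assoc.symm

theorem li_iff_minor {ι n : Type} [Fintype ι] [Fintype n] [DecidableEq ι] (M : ι → n → Ω) :
    LinearIndependent Ω M ↔ (fun I : ι → n => ((Matrix.of M)ᵀ.submatrix I id).det) ≠ 0 := by
  rw [Function.ne_iff]
  exact (mulVec_injective_iff (M := (Matrix.of M)ᵀ)).symm.trans
    ⟨exists_minor, fun ⟨_, h⟩ => inj_of_minor h⟩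

/-- membership in the span of independent vectors -/
theorem Cr.span {ι n : Type} [Fintype ι] [Fintype n] {M : α → ι → n → Ω} {v : α → n → Ω}
    (hM : Pq k p M) (hv : Pq k p v) (A : Set ι) (h : ∀ x, p x → LinearIndepOn Ω (M x) A) :
    Cr k p fun x => v x ∈ Submodule.span Ω (M x '' A) := by
  classical
  have h1 := Pq.pi fun i : A => hM.eval i.1
  have h2 : Cr k p fun x => ∀ I : Option A → n,
      ((Matrix.of fun o : Option A => (o.elim (v x) fun i => M x i : n → Ω))ᵀ.submatrix I id).det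
        = 0 := Cr.all fun I => Cr.eq (Pq.det (Pq.submatrix (Pq.transpose (Pq.of (Pq.pi fun o => by
      cases o
      exacts [hv, h1.eval _]))) _ _)) (Pq.const 0)
  refine h2.congr fun x hx => ?_
  rw [← not_iff_not, Set.image_eq_range]
  exact (((linearIndependent_option (v := fun o : Option A =>
    (o.elim (v x) fun i => M x i : n → Ω))).trans (and_iff_right (h x hx))).symm.trans
      (li_iff_minor _)).trans (not_congr funext_iff)

@[fun_prop]
theorem Cr.lr (h : Cr k p r) : Lr k p r :=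
  ⟨Ω, _, _, md_top _ Ω, fun {β} _ {Q f} c hf hS => ((h β _ Q f c hf hS).comp
    (Pm.fst Pm.id)).congr fun _ => by rw [and_true]⟩

theorem Lr.congr (h : Lr k p r) (e : ∀ x, p x → (r₁ x ↔ r x)) : Lr k p r₁ := by
  obtain ⟨γ, _, P, h, c⟩ := h
  exact ⟨γ, _, P, h.mono fun x hx => ⟨hx.1, (e x hx.1).1 hx.2⟩, fun cQ hf hS =>
    (c cQ hf hS).congr fun y => and_congr_right fun hy => and_congr_left' (e _ (hS _ hy))⟩

theorem Lr.mono {p₁ : α → Prop} (h : Lr k p r) (e : ∀ x, p₁ x → p x) : Lr k p₁ r := by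
  obtain ⟨γ, _, P, h, c⟩ := h
  exact ⟨γ, _, P, h.mono fun x hx => ⟨e x hx.1, hx.2⟩, fun cQ hf hS =>
    c cQ hf fun z hz => e _ (hS z hz)⟩

@[fun_prop]
theorem Lr.const (a : Prop) : Lr k p fun _ => a := (Cr.const a).lr

@[fun_prop]
theorem Lr.pull {r : β → Prop} {g : α → β} (h : Lr k p' r) (hg : Pq k p g)
    (e : ∀ x, p x → p' (g x)) : Lr k p fun x => r (g x) := by
  obtain ⟨γ, _, P, F, hP, hF, e1⟩ := hg
  obtain ⟨δ, _, P', h', c⟩ := h
  refine ⟨_, _, _, (hP.mono fun _ hx => hx.1).comap hF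
    (fun x d hx hd => (e1 x d hx.1 hd).symm ▸ ⟨e _ hx.1, hx.2⟩) h', fun {ε} _ {Q f} cQ hf hS => ?_⟩
  refine (cz_assoc.2 (c (f := fun y : ε × γ => F (f y.1, y.2)) (hP.cz cQ hf hS) (by fun_prop)
    fun y hy => (e1 _ _ (hS _ hy.1) hy.2).symm ▸ e _ (hS _ hy.1))).congr fun y => ?_
  exact ⟨fun h => ⟨⟨h.1, h.2.2.1⟩, (congrArg r (e1 _ _ (hS _ h.1) h.2.2.1)).mpr h.2.1, h.2.2.2⟩,
    fun h => ⟨h.1.1, (congrArg r (e1 _ _ (hS _ h.1.1) h.1.2)).mp h.2.1, h.1.2, h.2.2⟩⟩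

@[fun_prop]
theorem Lr.comp {r : β → Prop} {g : α → β} (h : Lr k (fun _ => True) r) (hg : Pq k p g) :
    Lr k p fun x => r (g x) := h.pull hg fun _ _ => trivial

/-- the second condition may use the first -/
theorem Lr.and' (h : Lr k p r) (h' : Lr k (fun x => p x ∧ r x) r₁) :
    Lr k p fun x => r x ∧ r₁ x := by
  obtain ⟨γ, _, P, h, c⟩ := h
  obtain ⟨δ, _, P', h', c'⟩ := h'
  exact ⟨_, _, _, (h.mono fun _ hx => ⟨hx.1, hx.2.1⟩).prod (h'.mono fun _ => and_assoc.2),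
    fun {ε} _ {Q f} cQ hf hS => (cz_assoc.2 (c' (f := fun y : ε × γ => f y.1) (c cQ hf hS)
      (by fun_prop) fun y hy => ⟨hS _ hy.1, hy.2.1⟩)).congr fun y => by tauto⟩

theorem Lr.land (h : Lc k p) (h' : Lr k p r) : Lc k fun x => p x ∧ r x :=
  h.and' (h'.mono fun _ hx => hx.2)

@[fun_prop]
theorem Lr.and (h : Lr k p r) (h' : Lr k p r₁) : Lr k p fun x => r x ∧ r₁ x :=
  h.and' (h'.mono fun _ hx => hx.1)

@[fun_prop]
theorem Lr.eq {f g : α → β} (hf : Pq k p f) (hg : Pq k p g) : Lr k p fun x => f x = g x :=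
  (Cr.eq hf hg).lr

@[fun_prop]
theorem Lr.or (h : Cr k p r) (h' : Cr k p r₁) : Lr k p fun x => r x ∨ r₁ x := (h.or h').lr

@[fun_prop]
theorem Lr.ex {ι : Sort*} [Finite ι] {r : ι → α → Prop} (h : ∀ i, Cr k p (r i)) :
    Lr k p fun x => ∃ i, r i x := (Cr.ex h).lr

theorem Lr.fst (c : Lc k p) (β : Type) [Af Ω β] : Lc k fun y : α × β => p y.1 :=
  c.comp (Pq.fst Pq.id)

theorem Lr.vne {κ : Type} [Fintype κ] {f : α → κ → Ω} (hf : Pq k p f) :
    Lr k p fun x => f x ≠ 0 :=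
  Lr.comp (r := fun v : κ → Ω => v ≠ 0) ⟨_, _, _, (md_jou κ).mono fun _ h => h.2,
    fun {β} _ {Q g} c hg _ => Cz.congr (p := fun y : β × (κ → Ω) => Q y.1 ∧ y.2 ⬝ᵥ g y.1 = 1)
      (by fun_prop) fun y => and_congr_right fun _ => and_iff_right_of_imp fun h e => by
        simp [e] at h⟩ hf

@[fun_prop]
theorem Lr.ne {f g : α → Ω} (hf : Pq k p f) (hg : Pq k p g) : Lr k p fun x => f x ≠ g x :=
  (Lr.vne (f := fun x (_ : Unit) => f x - g x) (by fun_prop)).congr fun _ _ => by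
    simp [funext_iff, sub_eq_zero]

theorem Lr.ball {ι : Type} (S : Finset ι) {r : ι → α → Prop} (h : ∀ i ∈ S, Lr k p (r i)) :
    Lr k p fun x => ∀ i ∈ S, r i x := by
  classical
  induction S using Finset.induction_on with
  | empty => exact (Lr.const True).congr fun _ _ => by simp
  | insert a s ha ih =>
    exact ((h a (Finset.mem_insert_self _ _)).and (ih fun i hi =>
      h i (Finset.mem_insert_of_mem hi))).congr fun _ _ => Finset.forall_mem_insert ..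

@[fun_prop]
theorem Lr.all {ι : Sort*} [Finite ι] {r : ι → α → Prop} (h : ∀ i, Lr k p (r i)) :
    Lr k p fun x => ∀ i, r i x := by
  obtain ⟨n, ⟨e⟩⟩ := Finite.exists_equiv_fin ι
  exact (Lr.ball Finset.univ fun i _ => h (e.symm i)).congr fun _ _ =>
    ⟨fun h i _ => h _, fun h i => e.symm_apply_apply i ▸ h (e i) (Finset.mem_univ _)⟩

@[fun_prop]
theorem Lr.li {ι n : Type} [Fintype ι] [Fintype n] {M : α → ι → n → Ω} (h : Pq k p M) :
    Lr k p fun x => LinearIndependent Ω (M x) := by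
  classical
  exact (Lr.vne (by fun_prop)).congr fun x _ => li_iff_minor (M x)

@[fun_prop]
theorem Lr.lion {ι n : Type} [Fintype ι] [Fintype n] {M : α → ι → n → Ω} (h : Pq k p M)
    (A : Set ι) : Lr k p fun x => LinearIndepOn Ω (M x) A := by
  classical
  exact Lr.li (M := fun x (i : A) => M x i) (Pq.pi fun i => h.eval i.1)

theorem Lr.as {ψ : α → Ω} (c : Lc k p) (hψ : Pq k p ψ) : Lc k (AS q p ψ) :=
  (c.fst Ω).land (Lr.eq (by fun_prop) (hψ.pull (Pq.fst Pq.id) fun _ h => h))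

theorem Gy.congr {p₁ : α → Prop} (hp : Gy k G p₁) (e : ∀ x, p x ↔ p₁ x) : Gy k G p := by
  rwa [show p = p₁ from funext fun x => propext (e x)]

theorem Gy.lc (hp : Gy k G p) : Lc k p := by
  obtain ⟨δ, _, P, h, c, -⟩ := hp
  exact ⟨δ, _, P, h.mono fun _ hx => hx.2, fun {β} _ {Q f} cQ hf _ => (cQ.comp (Pm.fst Pm.id)).and
    (c.comp (f := fun y : β × δ => (f y.1, y.2)) (by fun_prop))⟩

end Pool.Agent.CXD
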