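import Pool.Agent.P.MP_2ce3e7_ag.SA1
import Pool.Agent.P.MP_2ce3e7_ag.DA4

/-! The rules for sets with a model. -/

set_option linter.unusedSectionVars false
set_option linter.unusedVariables false

open Function Matrix

noncomputable section

namespace Pool.Agent.CXD
variable {k Ω : Type} [Field k] [Field Ω] [Algebra k Ω] {α β γ : Type} [Af Ω α] [Af Ω β] [Af Ω γ]
  {G : Gp Ω} {q : ℕ} {p r r₁ : α → Prop} {p' : β → Prop} [Sq k q] [IsAlgClosed Ω]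

section
variable {P : α × γ → Prop}

theorem Gy.elim (h : Au k q G) (hp : Gy k G p) (hP : Md k p P)
    (c : Cz k fun y : α × γ => p y.1 ∧ P y) : G.good fun y : α × γ => p y.1 ∧ P y := by
  obtain ⟨δ, _, P', h', c', g⟩ := hp
  rw [h'.iff q G Sq.su h c (Pm.fst Pm.id) fun _ hz => hz.1]
  rw [hP.iff q G Sq.su h c' (Pm.fst Pm.id) fun _ hz => hz.1] at g
  exact h.toAx.iso (fun y => ((y.1.1, y.2), y.1.2)) (fun y => ((y.1.1, y.2), y.1.2))
    (by fun_prop) (by fun_prop) (fun _ hz => and_right_comm.1 hz)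
    (fun _ hz => and_right_comm.1 hz) (fun _ _ => rfl) (fun _ _ => rfl) g

/-- a closed model over a given model -/
theorem Lr.over (c : Lc k p) (h' : Md k p P) : ∃ (δ : Type) (_ : Af Ω δ) (P' : α × δ × γ → Prop),
    Md k p P' ∧ (Cz k fun y => p y.1 ∧ P' y) ∧ ∀ y, P' y → P (y.1, y.2.2) := by
  obtain ⟨δ, _, R, h, c⟩ := c
  have c1 : Cz k fun y : α × δ => p y.1 ∧ R y :=
    (c (Cz.const True) Pm.id fun _ h => h).congr fun _ => (and_iff_right trivial).symm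
  exact ⟨_, _, _, (h.mono fun _ hx => ⟨trivial, hx⟩).prod h',
    (cz_assoc.2 (h'.cz c1 (Pm.fst Pm.id) fun _ hz => hz.1)).congr fun _ => and_assoc.symm,
    fun _ hy => hy.2⟩

/-- a closed model on which a given map is polynomial -/
theorem Lr.model (c : Lc k p) {a : α → β} (ha : Pq k p a) :
    ∃ (γ : Type) (_ : Af Ω γ) (P : α × γ → Prop) (A : α × γ → β), Md k p P ∧ Pm k A ∧
      (Cz k fun y => p y.1 ∧ P y) ∧ ∀ x c, p x → P (x, c) → a x = A (x, c) := by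
  obtain ⟨γ, _, P, A, h, hA, e⟩ := ha
  obtain ⟨δ, _, P', h', c', e'⟩ := c.over h
  exact ⟨_, _, P', fun y => A (y.1, y.2.2), h', by fun_prop, c',
    fun x d hx hd => (e x _ hx (e' _ hd)).symm⟩

/-- the transfer principle -/
theorem Md.gd_iff (hP : Md k p P) (h : Au k q G) (c : Cz k fun y : α × γ => p y.1 ∧ P y)
    {U : α × β → Prop} {C : (α × γ) × β → Prop} (cC : Cz k C)
    (e : ∀ x c y, p x → P (x, c) → (U (x, y) ↔ C ((x, c), y))) :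
    Gy k G (fun z : α × β => p z.1 ∧ U z) ↔
      G.good fun z : (α × γ) × β => (p z.1.1 ∧ P z.1) ∧ C z := by
  have h1 : Md k (fun z : α × β => p z.1 ∧ U z) fun y : (α × β) × γ => P (y.1.1, y.2) :=
    (hP.pull (Pm.fst Pm.id)).mono fun _ hz => hz.1
  have c1 : Cz k fun y : (α × β) × γ => (p y.1.1 ∧ U y.1) ∧ P (y.1.1, y.2) :=
    ((c.comp (f := fun y : (α × β) × γ => (y.1.1, y.2)) (by fun_prop)).and
      (cC.comp (f := fun y : (α × β) × γ => ((y.1.1, y.2), y.1.2)) (by fun_prop))).congr fun y =>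
      ⟨fun h => ⟨⟨h.1.1, h.2⟩, (e _ _ _ h.1.1 h.2).1 h.1.2⟩,
        fun h => ⟨⟨h.1.1, (e _ _ _ h.1.1 h.1.2).2 h.2⟩, h.1.2⟩⟩
  refine (⟨fun g => g.elim h h1 c1, fun g => ⟨_, _, _, h1, c1, g⟩⟩ : _ ↔ _).trans ?_
  exact h.toAx.iso_iff (fun y => ((y.1.1, y.2), y.1.2)) (fun y => ((y.1.1, y.2), y.1.2))
    (by fun_prop) (by fun_prop) (fun _ h => ⟨⟨h.1.1, h.2⟩, (e _ _ _ h.1.1 h.2).1 h.1.2⟩)
    (fun _ h => ⟨⟨h.1.1, (e _ _ _ h.1.1 h.1.2).2 h.2⟩, h.1.2⟩) (fun _ _ => rfl) fun _ _ => rfl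

theorem Md.gd_iff₀ (hP : Md k p P) (h : Au k q G) (c : Cz k fun y : α × γ => p y.1 ∧ P y)
    {C : α × γ → Prop} (cC : Cz k C) (e : ∀ x c, p x → P (x, c) → (r x ↔ C (x, c))) :
    Gy k G (fun x => p x ∧ r x) ↔ G.good fun z : α × γ => (p z.1 ∧ P z) ∧ C z := by
  have h1 : Md k (fun x => p x ∧ r x) P := hP.mono fun _ hz => hz.1
  have e1 : (fun y : α × γ => (p y.1 ∧ r y.1) ∧ P y) = fun z => (p z.1 ∧ P z) ∧ C z :=
    funext fun y => propext ⟨fun h => ⟨⟨h.1.1, h.2⟩, (e _ _ h.1.1 h.2).1 h.1.2⟩,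
      fun h => ⟨⟨h.1.1, (e _ _ h.1.1 h.1.2).2 h.2⟩, h.1.2⟩⟩
  have c1 : Cz k fun y : α × γ => (p y.1 ∧ r y.1) ∧ P y := e1 ▸ c.and cC
  rw [← e1]
  exact ⟨fun g => g.elim h h1 c1, fun g => ⟨_, _, _, h1, c1, g⟩⟩

end

theorem Au.gd_iff (h : Au k q G) (c : Cz k p) : Gy k G p ↔ G.good p := by
  rw [(md_top (k := k) p Ω).iff q G Sq.su h c Pm.id fun _ h => h]
  exact ⟨fun g => g.elim h (md_top p Ω) (by fun_prop),
    fun g => ⟨_, _, _, md_top p Ω, by fun_prop, g⟩⟩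

theorem Au.gnot (h : Au k q G) (e : ∀ x, ¬p x) : Gy k G p :=
  (h.gd_iff ((Cz.const False).congr fun x => iff_false_intro (e x))).2 (h.toAx.of_not e)

theorem Au.giso (h : Au k q G) (f : β → α) (r : α → β) (hf : Pq k p' f) (hr : Pq k p r)
    (h1 : ∀ z, p' z → p (f z)) (h2 : ∀ x, p x → p' (r x)) (h3 : ∀ z, p' z → r (f z) = z)
    (h4 : ∀ x, p x → f (r x) = x) (hp : Gy k G p') : Gy k G p := by
  obtain ⟨δ, _, Q, F, hQ, hF, cQ, eF⟩ := hp.lc.model hf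
  obtain ⟨γ, _, P, R, hP, hR, eR⟩ := hr
  have m1 : ∀ y : β × δ, p' y.1 ∧ Q y → p (F y) := fun y hy => eF _ _ hy.1 hy.2 ▸ h1 _ hy.1
  have m2 : ∀ x c, p x → P (x, c) → p' (R (x, c)) := fun x c hy hp =>
    (eR x c hy hp).symm ▸ h2 _ hy
  have m3 : ∀ y : α × γ × δ, p y.1 ∧ P (y.1, y.2.1) ∧ Q (R (y.1, y.2.1), y.2.2) →
      F (R (y.1, y.2.1), y.2.2) = y.1 := fun y hy => by
    rw [← eF _ _ (m2 _ _ hy.1 hy.2.1) hy.2.2, eR _ _ hy.1 hy.2.1]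
    exact h4 _ hy.1
  have m4 : ∀ y : (β × δ) × γ, (p' y.1.1 ∧ Q y.1) ∧ P (F y.1, y.2) → R (F y.1, y.2) = y.1.1 :=
    fun y hy => by
      rw [eR _ _ (m1 _ hy.1) hy.2, ← eF y.1.1 y.1.2 hy.1.1 hy.1.2]
      exact h3 _ hy.1.1
  exact ⟨_, _, _, hP.comap hR m2 hQ, (((hP.cz cQ hF m1).comp
    (f := fun y : α × γ × δ => ((R (y.1, y.2.1), y.2.2), y.2.1)) (by fun_prop)).and
      (Cz.eq (f := fun y => F (R (y.1, y.2.1), y.2.2)) (by fun_prop) (Pm.fst Pm.id))).congr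
      fun y => ⟨fun hy => ⟨⟨⟨m2 _ _ hy.1 hy.2.1, hy.2.2⟩, (m3 y hy).symm ▸ hy.2.1⟩, m3 y hy⟩,
        fun hy => ⟨hy.2 ▸ m1 _ hy.1.1, hy.2 ▸ hy.1.2, hy.1.1.2⟩⟩,
    h.toAx.iso (fun y : (β × δ) × γ => (F y.1, y.2, y.1.2))
      (fun y => ((R (y.1, y.2.1), y.2.2), y.2.1)) (by fun_prop) (by fun_prop)
      (fun y hy => ⟨m1 _ hy.1, hy.2, (m4 y hy).symm ▸ hy.1.2⟩)
      (fun y hy => ⟨⟨m2 _ _ hy.1 hy.2.1, hy.2.2⟩, (m3 y hy).symm ▸ hy.2.1⟩)
      (fun y hy => by rw [m4 y hy]) (fun y hy => by rw [m3 y hy])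
      ((hP.iff q G Sq.su h cQ hF m1).1 (hp.elim h hQ cQ))⟩

/-- finite maps -/
theorem Au.gfin (h : Au k q G) (c : Lc k p) {κ : Type} [Fintype κ] {r : α × (κ → Ω) → Prop}
    (hr : Cr k (fun y : α × (κ → Ω) => p y.1) r) (h1 : ∀ x, p x → ∃ z, r (x, z)) (N : ℕ)
    (hN : 1 < N) (m : α → κ → κ → Ω) (b : α → κ → Ω) (hm : Pq k p m) (hb : Pq k p b)
    (h2 : ∀ x z, p x → r (x, z) → ∀ i, z i ^ N = ∑ j, m x i j * z j + b x i)
    (hp : Gy k G fun y : α × (κ → Ω) => p y.1 ∧ r y) : Gy k G p := by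
  obtain ⟨γ, _, P, A, hP, hA, c1, e⟩ := c.model (hm.mk hb)
  have c2 := (hr.pull (p := fun z : (α × γ) × (κ → Ω) => p z.1.1 ∧ P z.1)
    (g := fun z => (z.1.1, z.2)) (Pm.po (by fun_prop)) fun _ h => h.1).cz
    (c1.comp (Pm.fst Pm.id))
  refine ⟨γ, _, P, hP, c1, h.toAx.fin (Fi.mk' Prod.fst (by fun_prop)
    ⟨κ, inferInstance, Prod.snd, N, fun y => (A y).1, fun y => (A y).2, fun y => y, hN,
      by fun_prop, by fun_prop, by fun_prop, by fun_prop, fun z hz i => ?_, fun _ _ => rfl⟩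
    (fun _ hz => hz.1) fun y hy => ?_)
    ((hP.gd_iff h c1 c2 fun x d y hx hd => (and_iff_right ⟨hx, hd⟩).symm).1 hp)⟩
  · have e' : A z.1 = _ := (e z.1.1 z.1.2 hz.1.1 hz.1.2).symm
    simp only [e']
    exact h2 _ _ hz.1.1 hz.2.2 i
  · obtain ⟨z, hz⟩ := h1 _ hy.1
    exact ⟨(y, z), ⟨hy, hy, hz⟩, rfl⟩

theorem Md.gd_ne {P : α × γ → Prop} (hP : Md k p P) (h : Au k q G)
    (c : Cz k fun y : α × γ => p y.1 ∧ P y) {κ : Type} [Fintype κ] {g : α → κ → Ω}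
    {A : α × γ → κ → Ω} (hA : Pm k A) (e : ∀ x c, p x → P (x, c) → g x = A (x, c)) :
    Gy k G (fun x => p x ∧ g x ≠ 0) ↔
      G.good fun z : (α × γ) × (κ → Ω) => (p z.1.1 ∧ P z.1) ∧ z.2 ⬝ᵥ A z.1 = 1 := by
  have h1 := (hP.mono (p₁ := fun x => p x ∧ g x ≠ 0) fun _ hx => hx.1).comap hA
    (fun x d hx hd => e x d hx.1 hd ▸ hx.2) (md_jou κ)
  have e1 : ∀ y : α × γ × (κ → Ω), ((p y.1 ∧ g y.1 ≠ 0) ∧ P (y.1, y.2.1) ∧
      y.2.2 ⬝ᵥ A (y.1, y.2.1) = 1) ↔ (p y.1 ∧ P (y.1, y.2.1)) ∧ y.2.2 ⬝ᵥ A (y.1, y.2.1) = 1 :=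
    fun y => ⟨fun h => ⟨⟨h.1.1, h.2.1⟩, h.2.2⟩, fun h => ⟨⟨h.1.1, fun h0 => by
      simpa [← e _ _ h.1.1 h.1.2, h0] using h.2⟩, h.1.2, h.2⟩⟩
  have c1 := (cz_assoc.2 ((c.comp (Pm.fst Pm.id)).and (Cz.eq (f := fun z : (α × γ) × (κ → Ω) =>
    z.2 ⬝ᵥ A z.1) (by fun_prop) (Pm.const 1)))).congr e1
  refine (⟨fun g => g.elim h h1 c1, fun g => ⟨_, _, _, h1, c1, g⟩⟩ : _ ↔ _).trans ?_
  exact h.toAx.iso_iff (fun y => ((y.1, y.2.1), y.2.2)) (fun y => (y.1.1, y.1.2, y.2))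
    (by fun_prop) (by fun_prop) (fun y hy => (e1 y).1 hy) (fun y hy => (e1 _).2 hy)
    (fun _ _ => rfl) fun _ _ => rfl

theorem Au.gvne (h : Au k q G) {κ : Type} [Fintype κ] {g : α → κ → Ω} (hg : Pq k p g)
    (hp : Gy k G p) : Gy k G fun x => p x ∧ g x ≠ 0 := by
  obtain ⟨γ, _, P, A, hP, hA, c, e⟩ := hp.lc.model hg
  exact (hP.gd_ne h c hA e).2 (h.jou c hA (hp.elim h hP c))

theorem Au.gsplit (h : Au k q G) (c : Lc k p) {g : α → Ω} (hg : Pq k p g)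
    (h1 : Gy k G fun x => p x ∧ g x = 0) (h2 : Gy k G fun x => p x ∧ g x ≠ 0) : Gy k G p := by
  obtain ⟨γ, _, P, A, hP, hA, c1, e⟩ := c.model hg
  refine ⟨γ, _, P, hP, c1, h.toAx.split c1 hA ((hP.gd_iff₀ h c1 (by fun_prop) fun x d hx hd => by
    rw [e x d hx hd]).1 h1) (h.toAx.iso (fun y => (y.1, y.2 ())) (fun y => (y.1, fun _ => y.2))
      (by fun_prop) (by fun_prop) (fun y hy => ⟨hy.1, ?_⟩) (fun y hy => ⟨hy.1, ?_⟩) (fun _ _ => rfl)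
      (fun _ _ => rfl) ((hP.gd_ne h c1 (g := fun x (_ : Unit) => g x) (A := fun y _ => A y)
        (by fun_prop) fun x d hx hd => funext fun _ => e x d hx hd).1
        (h2.congr fun x => by simp [funext_iff])))⟩
  · simpa [dotProduct, mul_comm] using hy.2
  · simpa [dotProduct, mul_comm] using hy.2

theorem Au.gopn (h : Au k q G) {g : α → Ω} (hg : Pq k p g) (hp : Gy k G p) :
    Gy k G fun x => p x ∧ g x ≠ 0 :=
  (h.gvne (g := fun x (_ : Unit) => g x) (by fun_prop) hp).congr fun x => by simp [funext_iff]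

theorem Au.gli (h : Au k q G) {ι n : Type} [Fintype ι] [Fintype n] {M : α → ι → n → Ω}
    (hM : Pq k p M) (A : Set ι) (hp : Gy k G p) :
    Gy k G fun x => p x ∧ LinearIndepOn Ω (M x) A := by
  classical
  have := Pq.pi fun i : A => hM.eval i.1
  exact (h.gvne (by fun_prop) hp).congr fun x =>
    and_congr_right' (li_iff_minor fun i : A => M x i)

theorem Au.gline (h : Au k q G) (β : Type) [Af Ω β] (hp : Gy k G p) :
    Gy k G fun y : α × β => p y.1 := by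
  obtain ⟨γ, _, P, hP, c, g⟩ := hp
  exact ((hP.gd_iff h c (Cz.const True) fun _ _ _ _ _ => Iff.rfl).2
    (G.congr (h.toAx.aff β g) fun _ => and_iff_left trivial)).congr
      fun _ => (and_iff_left trivial).symm

theorem Lr.sec {P : α × β → Prop} (c : Lc k P) {f : α → β} (hf : Pm k f)
    (e : ∀ x, p x ↔ P (x, f x)) : Lc k p :=
  (c.comp (Pm.po (Pm.id.mk hf))).congr fun x _ => e x

theorem Au.gunline (h : Au k q G) (β : Type) [Af Ω β] (hp : Gy k G fun y : α × β => p y.1) :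
    Gy k G p := by
  obtain ⟨γ, _, P, A, hP, hA, c, e⟩ :=
    (hp.lc.sec (p := p) (Pm.pt (Pm.const 0)) fun _ => Iff.rfl).model Pq.id
  exact ⟨γ, _, P, hP, c, h.toAx.unaff (β := β) c (G.congr ((hP.gd_iff h c (Cz.const True)
    fun _ _ _ _ _ => Iff.rfl).1 (hp.congr fun _ => and_iff_left trivial))
      fun _ => (and_iff_left trivial).symm)⟩

theorem Au.gblow (h : Au k q G) (c : Lc k p) {s g : α → Ω} (hs : Pq k p s) (hg : Pq k p g)
    (h1 : Gy k G fun y : α × Ω => p y.1 ∧ y.2 * s y.1 + g y.1 = 0)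
    (h2 : Gy k G fun x => p x ∧ s x = 0) : Gy k G fun x => p x ∧ s x = 0 ∧ g x = 0 := by
  obtain ⟨γ, _, P, A, hP, hA, c1, e⟩ := c.model (hs.mk hg)
  exact (hP.gd_iff₀ h c1 (by fun_prop) fun x d hx hd => by rw [← e x d hx hd]).2
    (h.toAx.blow c1 hA.fst hA.snd
      ((hP.gd_iff h c1 (by fun_prop) fun x d y hx hd => by rw [← e x d hx hd]).1 h1)
      ((hP.gd_iff₀ h c1 (by fun_prop) fun x d hx hd => by rw [← e x d hx hd]).1 h2))

theorem Au.gaff (h : Au k q G) {n : Type} [Fintype n] {D : α → n → Ω} {g : α → Ω}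
    (hD : Pq k p D) (hg : Pq k p g) (h1 : Gy k G p)
    (h2 : Gy k G fun x => p x ∧ D x = 0 ∧ g x = 0) :
    Gy k G fun y : α × (n → Ω) => p y.1 ∧ y.2 ⬝ᵥ D y.1 + g y.1 = 0 := by
  obtain ⟨γ, _, P, A, hP, hA, c1, e⟩ := h1.lc.model (hD.mk hg)
  exact (hP.gd_iff h c1 (by fun_prop) fun x d y hx hd => by rw [← e x d hx hd]).2
    (h.aff c1 hA.fst hA.snd (h1.elim h hP c1)
      ((hP.gd_iff₀ h c1 (by fun_prop) fun x d hx hd => by rw [← e x d hx hd]).1 h2))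

theorem Au.gasb (h : Au k q G) {f : α → Ω} (hf : Pq k p f)
    (h1 : Gy k G fun y : α × Ω × Ω => p y.1 ∧ y.2.1 * f y.1 = y.2.2 ^ q + y.2.2) :
    Gy k G fun x => p x ∧ f x = 0 := by
  obtain ⟨γ, _, P, A, hP, hA, c1, e⟩ := (h1.lc.sec (p := p) (Pm.const ((0 : Ω), (0 : Ω)))
    fun x => by simp [(Sq.su (k := k)).pos.ne']).model hf
  exact (hP.gd_iff₀ h c1 (by fun_prop) fun x d hx hd => by rw [← e x d hx hd]).2 (h.asb c1 hA
    ((hP.gd_iff h c1 (by fun_prop) fun x d y hx hd => by rw [← e x d hx hd]).1 h1))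

theorem Au.gunion (h : Au k q G) (c : Lc k p) {T : Type} [Finite T] {r : T → α → Prop}
    (hr : ∀ i, Cr k p (r i)) (h1 : ∀ x, p x → ∃ i, r i x)
    (hp : ∀ i, Gy k G fun x => p x ∧ r i x) : Gy k G p := by
  have := Fintype.ofFinite T
  obtain ⟨γ, _, P, A, hP, hA, c1, e⟩ := c.model Pq.id
  have c2 := fun i => ((hr i).pull (p := fun z : α × γ => p z.1 ∧ P z) (Pq.fst Pq.id)
    fun _ h => h.1).cz c1
  exact ⟨γ, _, P, hP, c1, G.congr (h.toAx.bunion Finset.univ (fun i _ => c1.and (c2 i)) fun i _ =>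
    (hP.gd_iff₀ h c1 (c2 i) fun x d hx hd => (and_iff_right ⟨hx, hd⟩).symm).1 (hp i)) fun y =>
      ⟨fun hy => (h1 _ hy.1).imp fun i hi => ⟨Finset.mem_univ _, hy, hy, hi⟩,
        fun ⟨_, _, hy⟩ => hy.1⟩⟩

theorem Az.gcone (h : Az k q G) (κ : Type) [Fintype κ] (hp : Gy k G p) :
    Gy k G fun y : α × (κ → Ω) => p y.1 ∧ ∑ i, y.2 i ^ (q + 1) = 0 := by
  obtain ⟨γ, _, P, hP, c, g⟩ := hp
  exact (hP.gd_iff h.toAu c (by fun_prop) fun _ _ _ _ _ => Iff.rfl).2 (h.cone κ c g)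

theorem Az.guniv (h : Az k q G) (α : Type) [Af Ω α] : Gy k G fun _ : α => True :=
  (h.toAu.gd_iff (Cz.const True)).2 (h.toAx.univ h.pt α)

theorem Au.mul (h : Au k q G) {Y : γ → Prop} (c : Cz k Y) : Au k q (G.mul Y) :=
  ⟨h.toAx.mul c, fun {α n} _ _ {p D g} cp hD hg h1 h2 =>
    G.congr (h.toAx.swap_DA3 (h.aff (p := fun y : α × γ => p y.1 ∧ Y y.2) (D := fun y => D y.1)
      (g := fun y => g y.1) (by fun_prop) (by fun_prop) (by fun_prop) h1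
      (G.congr h2 fun _ => and_right_comm))) fun _ => and_right_comm,
    fun {α} _ {p f} cp hf h1 =>
      G.congr (h.asb (p := fun y : α × γ => p y.1 ∧ Y y.2) (f := fun y => f y.1) (by fun_prop)
        (by fun_prop) (G.congr (h.toAx.swap_DA3 h1) fun _ => and_right_comm))
        fun _ => and_right_comm⟩

theorem Az.mul (h : Az k q G) {Y : γ → Prop} (c : Cz k Y) (hY : G.good Y) : Az k q (G.mul Y) :=
  { h.toAu.mul c, h.toAy.mul c hY with }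

theorem Au.star (h : Au k q G) : Au k q (G.star q) :=
  have c : ∀ N : ℕ, Cz k fun y : Fin N → Ω => ∑ i, y i ^ (q + 1) = 0 := fun N => by fun_prop
  ⟨h.toAx.star q, fun cp hD hg a b N => (h.mul (c N)).aff cp hD hg (a N) (b N),
    fun cp hf a N => (h.mul (c N)).asb cp hf (a N)⟩

theorem Au.az_star (h : Au k q G)
    (hc : ∀ N : ℕ, G.good fun y : Fin N → Ω => ∑ i, y i ^ (q + 1) = 0) : Az k q (G.star q) :=
  { h.star, h.toAx.ay_star hc with }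

theorem Az.gprod (h : Az k q G) (hp : Gy k G p) (hp' : ∀ G' : Gp Ω, Az k q G' → Gy k G' p') :
    Gy k G fun y : α × β => p y.1 ∧ p' y.2 := by
  obtain ⟨γ, _, P, hP, c, g⟩ := hp
  obtain ⟨δ, _, P', hP', c', g'⟩ := hp' _ (h.mul c g)
  exact ⟨_, _, _, ((hP.pull (Pm.fst Pm.id)).mono fun (y : α × β) hy => hy.1).prod
    ((hP'.pull (Pm.snd Pm.id)).mono fun _ hy => hy.2),
    ((c.comp (f := fun y : (α × β) × γ × δ => (y.1.1, y.2.1)) (by fun_prop)).and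
      (c'.comp (f := fun y : (α × β) × γ × δ => (y.1.2, y.2.2)) (by fun_prop))).congr
      fun _ => and_and_and_comm,
    h.toAx.iso (fun y : (β × δ) × α × γ => ((y.2.1, y.1.1), y.2.2, y.1.2))
      (fun y => ((y.1.2, y.2.2), y.1.1, y.2.1)) (by fun_prop) (by fun_prop)
      (fun _ hy => ⟨⟨hy.2.1, hy.1.1⟩, hy.2.2, hy.1.2⟩)
      (fun _ hy => ⟨⟨hy.1.2, hy.2.2⟩, hy.1.1, hy.2.1⟩) (fun _ _ => rfl) (fun _ _ => rfl) g'⟩

theorem Az.pi (h : Az k q G) (N : ℕ) {α : Fin N → Type} [∀ b, Af Ω (α b)]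
    (p : ∀ b, α b → Prop) (c : ∀ b, Cz k (p b))
    (hp : ∀ b (G' : Gp Ω), Az k q G' → G'.good (p b)) :
    G.good fun y : ∀ b, α b => ∀ b, p b (y b) := by
  induction N generalizing G with
  | zero => exact h.toAy.pi 0 p c fun b => b.elim0
  | succ N ih =>
    exact h.toAx.iso (fun y : (∀ b : Fin N, α b.succ) × α 0 => (Fin.cons y.2 y.1 : ∀ b, α b))
      (fun y => (fun b => y b.succ, y 0))
      (Pm.pi fun i => Fin.cases (Pm.snd Pm.id) (fun b => (Pm.fst Pm.id).eval b) i)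
      (Pm.mk (Pm.pi fun b => Pm.apply b.succ) (Pm.apply 0))
      (fun _ hz b => Fin.cases hz.2 hz.1 b) (fun _ hx => ⟨fun b => hx b.succ, hx 0⟩)
      (fun _ _ => rfl) (fun x _ => Fin.cons_self_tail x)
      (ih (h.mul (c 0) (hp 0 G h)) (fun b => p b.succ) (fun b => c b.succ) fun b => hp b.succ)

end Pool.Agent.CXD
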