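import Pool.Agent.P.MP_2ce3e7_ag.SA2

/-! Derived rules. -/

set_option linter.unusedSectionVars false
set_option linter.unusedVariables false

open Function Matrix

noncomputable section

namespace Pool.Agent.CXD
variable {k Ω : Type} [Field k] [Field Ω] [Algebra k Ω] {α β γ : Type} [Af Ω α] [Af Ω β] [Af Ω γ]
  {G : Gp Ω} {q : ℕ} {p r r₁ : α → Prop} {p' : β → Prop} [Sq k q] [IsAlgClosed Ω]

@[fun_prop]
theorem po_co_SA3 {f : α → β} (hf : Pq k p f) (j : Af.ι β) : Pq k p fun x => co (f x) j :=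
  Pq.comp (f := fun y : β => co y j) (Pm.po (by fun_prop)) hf

@[fun_prop]
theorem po_pt_SA3 {f : α → Af.ι β → Ω} (hf : Pq k p f) : Pq k p fun x => pt β (f x) :=
  Pq.comp (f := fun y : Af.ι β → Ω => pt β y) (Pm.po (by fun_prop)) hf

theorem ind_SA3 {T : Type} [Finite T] (r : T → α → Prop) (hp : Gy k G p)
    (step : ∀ i (p₁ : α → Prop), (∀ x, p₁ x → p x) → Gy k G p₁ → Gy k G fun x => p₁ x ∧ r i x) :
    Gy k G fun x => p x ∧ ∀ i, r i x := by
  classical
  have := Fintype.ofFinite T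
  have key : ∀ s : Finset T, Gy k G fun x => p x ∧ ∀ i ∈ s, r i x := by
    intro s
    induction s using Finset.induction_on with
    | empty => exact hp.congr fun x => by simp
    | insert a s ha ih =>
      exact (step a _ (fun _ hx => hx.1) ih).congr fun x => by
        simp only [Finset.forall_mem_insert]; tauto
  exact (key Finset.univ).congr fun x => by simp

theorem Au.gopns (h : Au k q G) {T : Type} [Finite T] {g : T → α → Ω} (hg : ∀ i, Pq k p (g i))
    (hp : Gy k G p) : Gy k G fun x => p x ∧ ∀ i, g i x ≠ 0 :=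
  ind_SA3 (fun i x => g i x ≠ 0) hp fun i _ e h1 => h.gopn ((hg i).mono e) h1

theorem Au.glis (h : Au k q G) {T ι n : Type} [Finite T] [Fintype ι] [Fintype n]
    {M : T → α → ι → n → Ω} (hM : ∀ c, Pq k p (M c)) (A : T → Set ι) (hp : Gy k G p) :
    Gy k G fun x => p x ∧ ∀ c, LinearIndepOn Ω (M c x) (A c) :=
  ind_SA3 (fun c x => LinearIndepOn Ω (M c x) (A c)) hp fun c _ e h1 =>
    h.gli ((hM c).mono e) (A c) h1

theorem free_SA3 (D : Af.ι β → Prop) [DecidablePred D] {y : β} (hy : ∀ j, D j → co y j = 0) :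
    (pt β fun j => if e : D j then 0 else co y (⟨j, e⟩ : {j // ¬D j}).1) = y := by
  refine co_ext fun j => ?_
  rw [co_pt]
  by_cases e : D j
  · exact (dif_pos e).trans (hy j e).symm
  · exact dif_neg e

/-- vanishing of some coordinates -/
theorem Au.gcsupp (h : Au k q G) (D : Af.ι β → Prop) (hp : Gy k G p) :
    Gy k G fun y : α × β => p y.1 ∧ ∀ j, D j → co y.2 j = 0 := by
  classical
  exact h.giso (fun y : α × ({j // ¬D j} → Ω) =>
      (y.1, pt β fun j => if e : D j then 0 else y.2 ⟨j, e⟩))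
    (fun y : α × β => (y.1, fun j : {j // ¬D j} => co y.2 j.1)) (by fun_prop) (by fun_prop)
    (fun _ hx => ⟨hx, fun j hj => (co_pt _ j).trans (dif_pos hj)⟩) (fun _ hx => hx.1)
    (fun _ _ => Prod.ext rfl (funext fun j => (co_pt _ j.1).trans (dif_neg j.2)))
    (fun y hy => Prod.ext rfl (free_SA3 D hy.2)) (h.gline _ hp)

theorem Au.gsupp (h : Au k q G) {κ : Type} [Fintype κ] (D : κ → Prop) (hp : Gy k G p) :
    Gy k G fun y : α × (κ → Ω) => p y.1 ∧ ∀ i, D i → y.2 i = 0 :=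
  (h.gcsupp (β := κ → Ω) (fun j : (Σ _ : κ, Unit) => D j.1) hp).congr fun _ => and_congr_right fun _ =>
    ⟨fun H j hj => H j.1 hj, fun H i hi => H ⟨i, ()⟩ hi⟩

theorem Au.gsupp2 (h : Au k q G) {l m : Type} [Fintype l] [Fintype m] (D : l → m → Prop)
    (hp : Gy k G p) :
    Gy k G fun y : α × (l → m → Ω) => p y.1 ∧ ∀ i j, D i j → y.2 i j = 0 :=
  (h.gcsupp (β := l → m → Ω) (fun j : (Σ _ : l, Σ _ : m, Unit) => D j.1 j.2.1)
    hp).congr fun _ => and_congr_right fun _ =>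
    ⟨fun H j hj => H j.1 j.2.1 hj, fun H i j hi => H ⟨i, j, ()⟩ hi⟩

theorem Au.guncsupp (h : Au k q G) (D : Af.ι β → Prop)
    (hp : Gy k G fun y : α × β => p y.1 ∧ ∀ j, D j → co y.2 j = 0) : Gy k G p := by
  classical
  exact h.gunline ({j // ¬D j} → Ω) (h.giso
    (fun y : α × β => (y.1, fun j : {j // ¬D j} => co y.2 j.1))
    (fun y : α × ({j // ¬D j} → Ω) => (y.1, pt β fun j => if e : D j then 0 else y.2 ⟨j, e⟩))
    (by fun_prop) (by fun_prop) (fun _ hx => hx.1)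
    (fun _ hx => ⟨hx, fun j hj => (co_pt _ j).trans (dif_pos hj)⟩)
    (fun y hy => Prod.ext rfl (free_SA3 D hy.2))
    (fun _ _ => Prod.ext rfl (funext fun j => (co_pt _ j.1).trans (dif_neg j.2))) hp)

theorem Au.gunsupp (h : Au k q G) {κ : Type} [Fintype κ] (D : κ → Prop)
    (hp : Gy k G fun y : α × (κ → Ω) => p y.1 ∧ ∀ i, D i → y.2 i = 0) : Gy k G p :=
  h.guncsupp (β := κ → Ω) (fun j => D j.1) (hp.congr fun _ => and_congr_right fun _ =>
    ⟨fun H i hi => H ⟨i, ()⟩ hi, fun H j hj => H j.1 hj⟩)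

theorem Au.gunsupp2 (h : Au k q G) {l m : Type} [Fintype l] [Fintype m] (D : l → m → Prop)
    (hp : Gy k G fun y : α × (l → m → Ω) => p y.1 ∧ ∀ i j, D i j → y.2 i j = 0) :
    Gy k G p :=
  h.guncsupp (β := l → m → Ω) (fun j => D j.1 j.2.1) (hp.congr fun _ => and_congr_right fun _ =>
    ⟨fun H i j hi => H ⟨i, j, ()⟩ hi, fun H j hj => H j.1 j.2.1 hj⟩)

theorem Au.gungm (h : Au k q G) (hp : Gy k G fun y : α × Ω => p y.1 ∧ y.2 ≠ 0) : Gy k G p := by
  have c : Lc k p := (hp.lc.comp (g := fun x : α => (x, (1 : Ω))) (by fun_prop)).congr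
    fun x _ => by simp
  refine h.gunline Ω (h.gfin (c.fst Ω) (κ := Unit)
    (r := fun y : (α × Ω) × (Unit → Ω) => y.2 () * (y.1.2 - y.2 ()) = 1) (by fun_prop) ?_ 2
    one_lt_two (fun y _ _ => y.2) (fun _ _ => -1) (by fun_prop) (by fun_prop) ?_ ?_)
  · rintro ⟨x, w⟩ _
    obtain ⟨v, hv⟩ := IsAlgClosed.exists_root
      (Polynomial.C (1 : Ω) * Polynomial.X ^ 2 + Polynomial.C (-w) * Polynomial.X +
        Polynomial.C 1) (by rw [Polynomial.degree_quadratic one_ne_zero]; norm_num)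
    refine ⟨fun _ => v, ?_⟩
    simp only [Polynomial.IsRoot, Polynomial.eval_add, Polynomial.eval_mul, Polynomial.eval_C,
      Polynomial.eval_pow, Polynomial.eval_X] at hv
    show v * (w - v) = 1
    linear_combination -hv
  · intro x z _ hz i
    have hz' : z () * (x.2 - z ()) = 1 := hz
    rw [Fintype.sum_unique]
    show z () ^ 2 = x.2 * z () + -1
    linear_combination -hz'
  · refine h.giso (fun y : α × Ω => ((y.1, y.2 + y.2⁻¹), fun _ : Unit => y.2))
      (fun y : (α × Ω) × (Unit → Ω) => (y.1.1, y.2 ())) ?_ (by fun_prop) (fun y hy => ⟨hy.1, ?_⟩)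
      (fun y hy => ⟨hy.1, left_ne_zero_of_mul_eq_one hy.2⟩) (fun _ _ => rfl) (fun y hy => ?_) hp
    · have := Pq.inv (k := k) (p := fun y : α × Ω => p y.1 ∧ y.2 ≠ 0) (g := fun y => y.2)
        (by fun_prop) fun _ hy => hy.2
      exact Pq.mk (Pq.mk (by fun_prop) (Pq.add (by fun_prop) this)) (by fun_prop)
    · show y.2 * (y.2 + y.2⁻¹ - y.2) = 1
      rw [add_sub_cancel_left, mul_inv_cancel₀ hy.2]
    · refine Prod.ext (Prod.ext rfl ?_) rfl
      show y.2 () + (y.2 ())⁻¹ = y.1.2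
      rw [inv_eq_of_mul_eq_one_right hy.2, add_sub_cancel]

/-- the matrix with a given complement -/
def blk_SA3 {ι : Type} (S : Matrix ι ι Ω) (a : Ω) (b c : ι → Ω) : Matrix (ι ⊕ Unit) (ι ⊕ Unit) Ω :=
  fromBlocks (of fun i j => S i j + b i * c j) (of fun i _ => b i * a) (of fun _ j => c j)
    (of fun _ _ => a)

theorem det_blk_SA3 {ι : Type} [Fintype ι] [DecidableEq ι] (S : Matrix ι ι Ω) (a : Ω)
    (b c : ι → Ω) : (blk_SA3 S a b c).det = S.det * a := by
  have : blk_SA3 S a b c = fromBlocks 1 (of fun i _ => b i) 0 1 *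
      fromBlocks S 0 (of fun _ j => c j) (of fun _ _ => a) := by
    rw [fromBlocks_multiply]
    ext (i | i) (j | j) <;> simp [blk_SA3, Matrix.mul_apply]
  rw [this, det_mul, det_fromBlocks_zero₂₁, det_fromBlocks_zero₁₂]
  simp

theorem gl_SA3 (h : Au k q G) (n : ℕ) : ∀ {ι α : Type} [Fintype ι] [DecidableEq ι] [Af Ω α]
    {p : α → Prop}, Fintype.card ι = n →
    (Gy k G fun y : α × Matrix ι ι Ω => p y.1 ∧ y.2.det ≠ 0) → Gy k G p := by
  induction n with
  | zero =>
    intro ι α _ _ _ p hc hp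
    have := Fintype.card_eq_zero_iff.mp hc
    exact h.gunline (Matrix ι ι Ω) (hp.congr fun y => by simp)
  | succ n ih =>
    intro ι α _ _ _ p hc hp
    have e : ι ≃ Fin n ⊕ Unit := Fintype.equivOfCardEq (by simpa using hc)
    have h1 : Gy k G fun y : α × Matrix (Fin n ⊕ Unit) (Fin n ⊕ Unit) Ω => p y.1 ∧ y.2.det ≠ 0 :=
      h.giso (fun y : α × Matrix ι ι Ω => (y.1, y.2.submatrix e.symm e.symm))
        (fun y => (y.1, y.2.submatrix e e)) (by fun_prop) (by fun_prop)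
        (fun y hy => ⟨hy.1, by rw [det_submatrix_equiv_self]; exact hy.2⟩)
        (fun y hy => ⟨hy.1, by rw [det_submatrix_equiv_self]; exact hy.2⟩)
        (fun _ _ => by simp) (fun _ _ => by simp) hp
    have hE : ∀ {P : α × Matrix (Fin n ⊕ Unit) (Fin n ⊕ Unit) Ω → Prop} (i j),
        Pq k P fun y => y.2 i j := fun i j => Pq.entry (by fun_prop) i j
    have h2 := h.gopn (hE (Sum.inr ()) (Sum.inr ())) h1
    have hi := Pq.inv (hE (P := fun y => (p y.1 ∧ y.2.det ≠ 0) ∧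
      y.2 (Sum.inr ()) (Sum.inr ()) ≠ 0) (Sum.inr ()) (Sum.inr ())) fun _ hy => hy.2
    have hb : ∀ y : Matrix (Fin n ⊕ Unit) (Fin n ⊕ Unit) Ω, y (Sum.inr ()) (Sum.inr ()) ≠ 0 →
        blk_SA3 (of fun i j => y (Sum.inl i) (Sum.inl j) -
          y (Sum.inl i) (Sum.inr ()) * (y (Sum.inr ()) (Sum.inr ()))⁻¹ * y (Sum.inr ()) (Sum.inl j))
          (y (Sum.inr ()) (Sum.inr ()))
          (fun i => y (Sum.inl i) (Sum.inr ()) * (y (Sum.inr ()) (Sum.inr ()))⁻¹)
          (fun j => y (Sum.inr ()) (Sum.inl j)) = y := by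
      intro y hy
      ext (i | i) (j | j) <;> simp [blk_SA3, hy]
    refine ih (ι := Fin n) (Fintype.card_fin n) (h.gungm (h.gunline ((Fin n → Ω) × (Fin n → Ω))
      (h.giso (fun y : α × Matrix (Fin n ⊕ Unit) (Fin n ⊕ Unit) Ω =>
        (((y.1, of fun i j => y.2 (Sum.inl i) (Sum.inl j) - y.2 (Sum.inl i) (Sum.inr ()) *
          (y.2 (Sum.inr ()) (Sum.inr ()))⁻¹ * y.2 (Sum.inr ()) (Sum.inl j)),
          y.2 (Sum.inr ()) (Sum.inr ())),
          (fun i => y.2 (Sum.inl i) (Sum.inr ()) * (y.2 (Sum.inr ()) (Sum.inr ()))⁻¹,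
            fun j => y.2 (Sum.inr ()) (Sum.inl j))))
        (fun y => (y.1.1.1, blk_SA3 y.1.1.2 y.1.2 y.2.1 y.2.2)) ?_ ?_ (fun y hy => ?_)
        (fun y hy => ?_) (fun y hy => Prod.ext rfl (hb y.2 hy.2)) (fun y hy => ?_) h2)))
    · exact Pq.mk (Pq.mk (Pq.mk (by fun_prop) (Pq.mat fun i j =>
        (hE _ _).sub (((hE _ _).mul hi).mul (hE _ _)))) (hE _ _))
        (Pq.mk (Pq.pi fun i => (hE _ _).mul hi) (Pq.pi fun j => hE _ _))
    · refine Pq.mk (by fun_prop) (Pq.mat ?_)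
      rintro (i | i) (j | j)
      · exact Pq.add (Pq.entry (f := fun y : ((α × Matrix (Fin n) (Fin n) Ω) × Ω) ×
          (Fin n → Ω) × (Fin n → Ω) => y.1.1.2) (by fun_prop) i j)
          (show Pq k _ fun y : ((α × Matrix (Fin n) (Fin n) Ω) × Ω) ×
            (Fin n → Ω) × (Fin n → Ω) => y.2.1 i * y.2.2 j by fun_prop)
      · exact (show Pq k _ fun y : ((α × Matrix (Fin n) (Fin n) Ω) × Ω) ×
            (Fin n → Ω) × (Fin n → Ω) => y.2.1 i * y.1.2 by fun_prop)
      · exact (show Pq k _ fun y : ((α × Matrix (Fin n) (Fin n) Ω) × Ω) ×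
            (Fin n → Ω) × (Fin n → Ω) => y.2.2 j by fun_prop)
      · exact (show Pq k _ fun y : ((α × Matrix (Fin n) (Fin n) Ω) × Ω) ×
            (Fin n → Ω) × (Fin n → Ω) => y.1.2 by fun_prop)
    · have e1 := hy.1.2
      rw [← hb y.2 hy.2, det_blk_SA3] at e1
      exact ⟨⟨hy.1.1, left_ne_zero_of_mul e1⟩, hy.2⟩
    · exact ⟨⟨hy.1.1, by rw [det_blk_SA3]; exact mul_ne_zero hy.1.2 hy.2⟩, hy.2⟩
    · obtain ⟨⟨⟨x, S⟩, a⟩, b, c⟩ := y
      have ha : a ≠ 0 := hy.2
      refine Prod.ext (Prod.ext (Prod.ext rfl ?_) rfl) (Prod.ext ?_ rfl)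
      · ext i j
        simp [blk_SA3, ha]
      · ext i
        simp [blk_SA3, ha]

theorem gls_SA3 (h : Au k q G) {ι : Type} [Fintype ι] [DecidableEq ι] (n : ℕ) :
    ∀ {κ α : Type} [Fintype κ] [Af Ω α] {p : α → Prop}, Fintype.card κ = n →
    (Gy k G fun y : α × (κ → Matrix ι ι Ω) => p y.1 ∧ ∀ c, (y.2 c).det ≠ 0) → Gy k G p := by
  induction n with
  | zero =>
    intro κ α _ _ p hc hp
    have := Fintype.card_eq_zero_iff.mp hc
    exact h.gunline (κ → Matrix ι ι Ω) (hp.congr fun y => by simp)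
  | succ n ih =>
    intro κ α _ _ p hc hp
    have e : κ ≃ Fin n ⊕ Unit := Fintype.equivOfCardEq (by simpa using hc)
    refine ih (κ := Fin n) (Fintype.card_fin n) (gl_SA3 h _ (ι := ι) rfl
      (h.giso (fun y : α × (κ → Matrix ι ι Ω) =>
        ((y.1, fun c => y.2 (e.symm (Sum.inl c))), y.2 (e.symm (Sum.inr ()))))
        (fun y : (α × (Fin n → Matrix ι ι Ω)) × Matrix ι ι Ω =>
          (y.1.1, fun c => Sum.elim y.1.2 (fun _ => y.2) (e c))) (by fun_prop) ?_
        (fun y hy => ⟨⟨hy.1, fun c => hy.2 _⟩, hy.2 _⟩) (fun y hy => ⟨hy.1.1, fun c => ?_⟩)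
        (fun y _ => Prod.ext rfl (funext fun c => ?_)) (fun y _ => by simp) hp))
    · exact Pq.mk (by fun_prop) (Pq.pi fun c => Pq.eval (Pq.elim (by fun_prop) (by fun_prop)) (e c))
    · obtain ⟨c, rfl⟩ := e.symm.surjective c
      rcases c with c | c <;> simp
    · have key : ∀ u : Fin n ⊕ Unit,
          Matrix.det (Sum.elim y.1.2 (fun _ => y.2) u : Matrix ι ι Ω) ≠ 0 := by
        rintro (u | u)
        · exact hy.1.2 u
        · exact hy.2
      exact key (e c)

theorem Au.gungl (h : Au k q G) {κ ι : Type} [Fintype κ] [Fintype ι] [DecidableEq ι]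
    (hp : Gy k G fun y : α × (κ → Matrix ι ι Ω) => p y.1 ∧ ∀ c, (y.2 c).det ≠ 0) :
    Gy k G p := gls_SA3 h _ rfl hp

theorem Au.ggraph (h : Au k q G) {g : α → β} (hg : Pq k p g) :
    (Gy k G fun y : α × β => p y.1 ∧ y.2 = g y.1) ↔ Gy k G p :=
  ⟨h.giso (fun y : α × β => y.1) (fun x => (x, g x)) (by fun_prop) (Pq.id.mk hg)
      (fun _ hy => hy.1) (fun _ hx => ⟨hx, rfl⟩) (fun _ hy => Prod.ext rfl hy.2.symm)
      fun _ _ => rfl,
    h.giso (fun x => (x, g x)) (fun y : α × β => y.1) (Pq.id.mk hg) (by fun_prop)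
      (fun _ hx => ⟨hx, rfl⟩) (fun _ hy => hy.1) (fun _ _ => rfl)
      fun _ hy => Prod.ext rfl hy.2.symm⟩

/-- a slice for an action of the additive group -/
theorem Au.gslice (h : Au k q G) {g : α → Ω} {a : α × Ω → α} (hg : Pq k p g)
    (ha : Pq k (fun y : α × Ω => p y.1) a) (h1 : ∀ x t, p x → p (a (x, t)))
    (h2 : ∀ x, p x → a (x, 0) = x) (h3 : ∀ x t t', p x → a (a (x, t), t') = a (x, t + t'))
    (h4 : ∀ x t, p x → g (a (x, t)) = g x + t) :
    Gy k G p ↔ Gy k G fun x => p x ∧ g x = 0 := by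
  have f1 : Pq k (fun y : α × Ω => p y.1 ∧ g y.1 = 0) a := ha.mono fun _ hy => hy.1
  have f2 : Pq k p fun x => (a (x, -g x), g x) :=
    (ha.pull (Pq.id.mk hg.neg) fun _ hx => hx).mk hg
  have f3 : ∀ y : α × Ω, p y.1 ∧ g y.1 = 0 → p (a y) := fun y hy => h1 y.1 y.2 hy.1
  have f4 : ∀ x, p x → p (a (x, -g x)) ∧ g (a (x, -g x)) = 0 := fun x hx =>
    ⟨h1 _ _ hx, by rw [h4 _ _ hx, add_neg_cancel]⟩
  have f5 : ∀ y : α × Ω, p y.1 ∧ g y.1 = 0 → (a (a y, -g (a y)), g (a y)) = y := by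
    rintro ⟨x, t⟩ ⟨hx, e⟩
    rw [h4 x t hx, show g x = 0 from e, zero_add, h3 x t _ hx, add_neg_cancel, h2 x hx]
  have f6 : ∀ x, p x → a (a (x, -g x), g x) = x := fun x hx => by
    rw [h3 x _ _ hx, neg_add_cancel, h2 x hx]
  exact ⟨fun hp => h.gunline Ω (h.giso _ a f2 f1 f4 f3 f6 f5 hp),
    fun hp => h.giso a _ f1 f2 f3 f4 f5 f6 (h.gline Ω hp)⟩

/-- a map with rational values -/
theorem Au.grat (h : Au k q G) (c : Lc k p) {w : α → β} (hw : Pq k p w)
    (h1 : ∀ x, p x → Kr k (w x)) (h2 : ∀ a : β, Kr k a → Gy k G fun x => p x ∧ w x = a) :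
    Gy k G p := by
  have : Finite {a : β // Kr k a} := ((Sq.su : Su k q).finite_kr (α := β)).to_subtype
  refine h.gunion c (T := {a : β // Kr k a}) (r := fun a x => w x = a.1) (fun a => ?_)
    (fun x hx => ⟨⟨w x, h1 x hx⟩, rfl⟩) fun a => h2 a.1 a.2
  have := a.2
  exact Cr.eq hw (Pq.const _)

/-- the product with a set of rational points -/
theorem Au.grats (h : Au k q G) (h1 : ∀ z, p' z → Kr k z) (hp : Gy k G p) :
    Gy k G fun y : α × β => p y.1 ∧ p' y.2 := by
  have : Finite {a : β // p' a} :=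
    (Set.Finite.subset ((Sq.su : Su k q).finite_kr (α := β))
      (show {a | p' a} ⊆ {x | Kr k x} from h1)).to_subtype
  have hr : ∀ (P : α × β → Prop) (a : {a : β // p' a}), Cr k P fun y => y.2 = a.1 := fun P a => by
    have := h1 a.1 a.2
    fun_prop
  refine h.gunion ((hp.lc.fst β).land ((Cr.ex (hr _)).lr.congr fun y _ =>
    ⟨fun hy => ⟨⟨y.2, hy⟩, rfl⟩, fun ⟨a, ha⟩ => ha ▸ a.2⟩)) (hr _)
    (fun y hy => ⟨⟨y.2, hy.2⟩, rfl⟩) fun a => ?_
  have := h1 a.1 a.2
  exact h.giso (fun x => (x, a.1)) (fun y : α × β => y.1) (by fun_prop) (by fun_prop)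
    (fun _ hx => ⟨⟨hx, a.2⟩, rfl⟩) (fun _ hy => hy.1.1) (fun _ _ => rfl)
    (fun _ hy => Prod.ext rfl hy.2.symm) hp

theorem lr_iff_SA3 {φ : α → Ω} (hφ : Pq k p φ) (a : Prop) : Lr k p fun x => φ x = 0 ↔ a := by
  by_cases e : a
  · exact (Lr.eq hφ (Pq.const 0)).congr fun x _ => by simp [e]
  · exact (Lr.ne hφ (Pq.const 0)).congr fun x _ => by simp [e]

/-- stratification by the set of vanishing functions -/
theorem Au.gzp (h : Au k q G) (c : Lc k p) {T : Type} [Finite T] {φ : T → α → Ω}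
    (hφ : ∀ a, Pq k p (φ a)) (h1 : ∀ Z : Set T, Gy k G fun x => p x ∧ ∀ a, φ a x = 0 ↔ a ∈ Z) :
    Gy k G p := by
  classical
  have := Fintype.ofFinite T
  have key : ∀ (s : Finset T) (Z : Set T),
      Gy k G fun x => p x ∧ ∀ a, a ∉ s → (φ a x = 0 ↔ a ∈ Z) := by
    intro s
    induction s using Finset.induction_on with
    | empty => exact fun Z => (h1 Z).congr fun x => by simp
    | insert a s ha ih =>
      intro Z
      refine h.gsplit (c.land (Lr.all fun b => Lr.all fun _ => lr_iff_SA3 (hφ b) _))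
        ((hφ a).mono fun _ hx => hx.1) ((ih (insert a Z)).congr fun x => ?_)
        ((ih (Z \ {a})).congr fun x => ?_)
      · refine ⟨fun H => ⟨H.1.1, fun b hb => ?_⟩, fun H => ⟨⟨H.1, fun b hb => ?_⟩, ?_⟩⟩
        · by_cases e : b = a
          · rw [e]; exact iff_of_true H.2 (Set.mem_insert _ _)
          · rw [H.1.2 b (by simp [e, hb])]; simp [e]
        · rw [Finset.mem_insert, not_or] at hb
          rw [H.2 b hb.2]; simp [hb.1]
        · exact (H.2 a ha).2 (Set.mem_insert _ _)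
      · refine ⟨fun H => ⟨H.1.1, fun b hb => ?_⟩, fun H => ⟨⟨H.1, fun b hb => ?_⟩, ?_⟩⟩
        · by_cases e : b = a
          · rw [e]; exact iff_of_false H.2 (by simp)
          · rw [H.1.2 b (by simp [e, hb])]; simp [e]
        · rw [Finset.mem_insert, not_or] at hb
          rw [H.2 b hb.2]; simp [hb.1]
        · exact fun e => ((H.2 a ha).1 e).2 rfl
  exact (key Finset.univ ∅).congr fun x => by simp

theorem Lr.zp {T : Type} [Finite T] {φ : T → α → Ω} (hφ : ∀ a, Pq k p (φ a)) (Z : Set T) :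
    Lr k p fun x => ∀ a, φ a x = 0 ↔ a ∈ Z := Lr.all fun a => lr_iff_SA3 (hφ a) _

theorem Au.graff (h : Au k q G) {n : Type} [Fintype n] [DecidableEq n] {D : α → n → Ω}
    {g : α → Ω} (hD : Pq k p D) (hg : Pq k p g)
    (h1 : ∀ S : Finset n, Gy k G fun x => p x ∧ ∀ a ∈ S, D x a = 0)
    (h2 : Gy k G fun y : α × (n → Ω) => p y.1 ∧ y.2 ⬝ᵥ D y.1 + g y.1 = 0) :
    Gy k G fun x => p x ∧ D x = 0 ∧ g x = 0 := by
  have c : Lc k p := ((h1 ∅).congr fun x => by simp).lc
  have hD' : Pq k (fun y : α × (n → Ω) => p y.1) fun y => D y.1 :=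
    hD.pull (by fun_prop) fun _ hy => hy
  have hg' : Pq k (fun y : α × (n → Ω) => p y.1) fun y => g y.1 :=
    hg.pull (by fun_prop) fun _ hy => hy
  have key : ∀ S : Finset n, Gy k G fun y : α × (n → Ω) =>
      (p y.1 ∧ (∀ a ∈ S, D y.1 a = 0) ∧ ∀ a ∈ S, y.2 a = 0) ∧ y.2 ⬝ᵥ D y.1 + g y.1 = 0 := by
    intro S
    induction S using Finset.induction_on with
    | empty => exact h2.congr fun y => by simp
    | insert a S ha ih =>
      refine (h.gblow (p := fun y : α × (n → Ω) =>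
        p y.1 ∧ (∀ b ∈ S, D y.1 b = 0) ∧ ∀ b ∈ insert a S, y.2 b = 0) (s := fun y => D y.1 a)
        (g := fun y => y.2 ⬝ᵥ D y.1 + g y.1) ((c.fst _).land (Lr.and
          (Lr.ball _ fun b _ => Lr.eq (hD'.eval b) (Pq.const 0))
          (Lr.ball _ fun b _ => by fun_prop))) ((hD'.eval a).mono fun _ hy => hy.1)
        (((Pq.dot (by fun_prop) hD').add hg').mono fun _ hy => hy.1) ?_ ?_).congr fun y => ?_
      · refine h.giso (fun y : α × (n → Ω) => ((y.1, y.2 - Pi.single a (y.2 a)), y.2 a))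
          (fun y : (α × (n → Ω)) × Ω => (y.1.1, y.1.2 + Pi.single a y.2)) (by fun_prop)
          (by fun_prop) (fun y hy => ⟨⟨hy.1.1, hy.1.2.1, fun b hb => ?_⟩, ?_⟩)
          (fun y hy => ⟨⟨hy.1.1, hy.1.2.1, fun b hb => ?_⟩, ?_⟩) (fun y _ => by simp)
          (fun y hy => ?_) ih
        · rcases Finset.mem_insert.mp hb with rfl | hb
          · simp
          · have e : b ≠ a := fun e => ha (e ▸ hb)
            simp [e, hy.1.2.2 b hb]
        · have := hy.2
          simp only [sub_dotProduct, single_dotProduct]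
          linear_combination this
        · have e := hy.1.2.2 a (Finset.mem_insert_self _ _)
          refine Prod.ext (Prod.ext rfl ?_) ?_ <;> simp [e]
        · have e : b ≠ a := fun e => ha (e ▸ hb)
          simp [e, hy.1.2.2 b (Finset.mem_insert_of_mem hb)]
        · have := hy.2
          simp only [add_dotProduct, single_dotProduct]
          linear_combination this
      · exact (h.gsupp (fun b => b ∈ insert a S) (h1 (insert a S))).congr fun y => by
          simp only [Finset.forall_mem_insert]; tauto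
      · simp only [Finset.forall_mem_insert]; tauto
  refine h.gunsupp (κ := n) (fun _ => True) ((key Finset.univ).congr fun y => ?_)
  refine ⟨fun H => ⟨⟨H.1.1, fun a _ => congrFun H.1.2.1 a, fun a _ => H.2 a trivial⟩, ?_⟩,
    fun H => ?_⟩
  · rw [H.1.2.1, H.1.2.2, dotProduct_zero, add_zero]
  · have e : D y.1 = 0 := funext fun a => H.1.2.1 a (Finset.mem_univ _)
    have e' := H.2
    rw [e, dotProduct_zero, zero_add] at e'
    exact ⟨⟨H.1.1, e, e'⟩, fun a _ => H.1.2.2 a (Finset.mem_univ _)⟩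

theorem Au.gfinm (h : Au k q G) (c : Lc k p) {l n : Type} [Fintype l] [Fintype n]
    {r : α × Matrix l n Ω → Prop} (hr : Cr k (fun y : α × Matrix l n Ω => p y.1) r)
    (h1 : ∀ x, p x → ∃ z, r (x, z)) (N : ℕ) (hN : 1 < N) (m : α → Matrix n n Ω) (hm : Pq k p m)
    (h2 : ∀ x z, p x → r (x, z) → fm N z = z * m x)
    (hp : Gy k G fun y : α × Matrix l n Ω => p y.1 ∧ r y) : Gy k G p := by
  classical
  have f1 : ∀ P : α × (l × n → Ω) → Prop,
      Pq k P fun y => (y.1, Matrix.of fun i j => y.2 (i, j)) := fun P => by fun_prop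
  refine h.gfin c (κ := l × n) (r := fun y => r (y.1, Matrix.of fun i j => y.2 (i, j)))
    (hr.pull (f1 _) fun _ hy => hy) (fun x hx => ?_) N hN
    (fun x a b => if a.1 = b.1 then m x b.2 a.2 else 0) (fun _ => 0)
    (Pq.pi fun a => Pq.pi fun b => Pq.ite _ (hm.entry _ _) (Pq.const 0)) (Pq.const 0)
    (fun x z hx hz a => ?_) ?_
  · obtain ⟨z, hz⟩ := h1 x hx
    exact ⟨fun a => z a.1 a.2, hz⟩
  · have := congrFun (congrFun (h2 x _ hx hz) a.1) a.2
    rw [fm_apply, Matrix.mul_apply] at this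
    rw [Fintype.sum_prod_type]
    simpa [mul_comm] using this
  · exact h.giso (fun y : α × Matrix l n Ω => (y.1, fun a : l × n => y.2 a.1 a.2))
      (fun y => (y.1, Matrix.of fun i j => y.2 (i, j)))
      (Pq.mk (by fun_prop) (Pq.pi fun a => Pq.entry (by fun_prop) _ _)) (f1 _)
      (fun _ hy => hy) (fun _ hy => hy) (fun _ _ => rfl) (fun _ _ => rfl) hp

/-- injective linear systems -/
theorem Pq.solve' [AddCommGroup β] [Module Ω β] [Al Ω β] [AddCommGroup γ] [Module Ω γ] [Al Ω γ]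
    {L : α → β → γ} {c : α → β} {v : α → γ}
    (hL : Pq k (fun y : α × β => p y.1) fun y => L y.1 y.2) (hv : Pq k p v)
    (h1 : ∀ x, p x → IsLinearMap Ω (L x)) (h2 : ∀ x w, p x → L x w = 0 → w = 0)
    (h3 : ∀ x, p x → L x (c x) = v x) : Pq k p c := by
  classical
  have e1 : ∀ w : Af.ι β → Ω, pt β w = ∑ j, w j • pt β (Pi.single j 1) := by
    intro w
    refine (Af.e (α := β)).injective ?_
    have := map_sum ((Al.lin (Ω := Ω) (β := β)).mk' _) (fun j => w j • pt β (Pi.single j 1))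
      Finset.univ
    simp only [map_smul, IsLinearMap.mk'_apply] at this
    rw [this]
    simp only [pt, Equiv.apply_symm_apply]
    ext i
    simp [Finset.sum_apply, Pi.single_apply]
  have e2 : ∀ x (w : Af.ι β → Ω), p x →
      (Matrix.of fun i j => co (L x (pt β (Pi.single j 1))) i) *ᵥ w = co (L x (pt β w)) := by
    intro x w hx
    have := map_sum (((Al.lin (Ω := Ω) (β := γ)).mk' _).comp ((h1 x hx).mk' _))
      (fun j => w j • pt β (Pi.single j 1)) Finset.univ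
    simp only [map_smul, LinearMap.comp_apply, IsLinearMap.mk'_apply] at this
    rw [← e1] at this
    ext i
    have e := congrFun this i
    rw [Finset.sum_apply] at e
    refine Eq.trans ?_ e.symm
    exact Finset.sum_congr rfl fun j _ => mul_comm _ _
  have z0 : Af.e (0 : γ) = 0 := (Al.lin (Ω := Ω) (β := γ)).map_zero
  have z1 : Af.e (0 : β) = 0 := (Al.lin (Ω := Ω) (β := β)).map_zero
  have key := Pq.solve (k := k) (p := p) (c := fun x => co (c x)) (v := fun x => co (v x))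
    (M := fun x => Matrix.of fun i j => co (L x (pt β (Pi.single j 1))) i)
    (Pq.mat fun i j => po_co_SA3 (hL.pull
      (g := fun x => (x, pt β (Pi.single j 1))) (by fun_prop) fun _ hx => hx) i)
    (Pq.pi fun i => po_co_SA3 hv i) (fun x w hx hw => ?_) fun x hx => by
      rw [e2 x _ hx, pt_co, h3 x hx]
  · exact (po_pt_SA3 key).congr fun x _ => (pt_co _).symm
  · rw [e2 x w hx] at hw
    have e := h2 x _ hx ((Af.e (α := γ)).injective (hw.trans z0.symm))
    rw [← z1, ← e]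
    exact ((Af.e (α := β)).apply_symm_apply w).symm

end Pool.Agent.CXD
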