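import Pool.Agent.P.MP_2ce3e7_ag.SA3

/-! Artin-Schreier covers and products. -/

set_option linter.unusedSectionVars false
set_option linter.unusedVariables false

open Function Matrix

noncomputable section

namespace Pool.Agent.CXD

variable {k Ω : Type} [Field k] [Field Ω] [Algebra k Ω] {α β γ : Type} [Af Ω α] [Af Ω β] [Af Ω γ]
  {G : Gp Ω} {q : ℕ} {p : α → Prop} {p' : β → Prop} [Sq k q] [IsAlgClosed Ω]

variable {ψ ψ' ψ'' : α → Ω}

theorem Eqs.of_eq (e : ∀ x, p x → ψ x = ψ' x) : Eqs k q p ψ ψ' :=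
  ⟨fun _ => 0, Pq.const 0, fun x hx => by
    rw [e x hx, zero_pow (Sq.su : Su k q).pos.ne', add_zero, add_zero]⟩

theorem Eqs.refl : Eqs k q p ψ ψ := Eqs.of_eq fun _ _ => rfl

theorem Eqs.symm (h : Eqs k q p ψ ψ') : Eqs k q p ψ' ψ := by
  obtain ⟨D, hD, e⟩ := h
  refine ⟨fun x => -D x, hD.neg, fun x hx => ?_⟩
  rw [e x hx, (Sq.su : Su k q).neg_pow]
  ring

theorem Eqs.trans (h : Eqs k q p ψ ψ') (h' : Eqs k q p ψ' ψ'') : Eqs k q p ψ ψ'' := by
  obtain ⟨D, hD, e⟩ := h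
  obtain ⟨D', hD', e'⟩ := h'
  refine ⟨fun x => D x + D' x, hD.add hD', fun x hx => ?_⟩
  rw [e x hx, e' x hx, (Sq.su : Su k q).add_pow]
  ring

theorem Eqs.add {χ χ' : α → Ω} (h : Eqs k q p ψ ψ') (h' : Eqs k q p χ χ') :
    Eqs k q p (fun x => ψ x + χ x) fun x => ψ' x + χ' x := by
  obtain ⟨D, hD, e⟩ := h
  obtain ⟨D', hD', e'⟩ := h'
  refine ⟨fun x => D x + D' x, hD.add hD', fun x hx => ?_⟩
  beta_reduce
  rw [e x hx, e' x hx, (Sq.su : Su k q).add_pow]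
  ring

theorem Eqs.sum {ι : Type} (S : Finset ι) {ψ ψ' : ι → α → Ω}
    (h : ∀ i ∈ S, Eqs k q p (ψ i) (ψ' i)) :
    Eqs k q p (fun x => ∑ i ∈ S, ψ i x) fun x => ∑ i ∈ S, ψ' i x := by
  classical
  induction S using Finset.induction_on with
  | empty => exact Eqs.refl
  | insert a S ha ih =>
    simp only [Finset.sum_insert ha]
    exact (h a (Finset.mem_insert_self _ _)).add (ih fun i hi => h i (Finset.mem_insert_of_mem hi))

theorem Eqs.smul {c : Ω} [Kr k c] (hc : c ^ q = c) (h : Eqs k q p ψ ψ') :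
    Eqs k q p (fun x => c * ψ x) fun x => c * ψ' x := by
  obtain ⟨D, hD, e⟩ := h
  refine ⟨fun x => c * D x, (Pq.const c).mul hD, fun x hx => ?_⟩
  beta_reduce
  rw [e x hx, mul_pow, hc]
  ring

theorem Eqs.pow (h : Pq k p ψ) : Eqs k q p (fun x => -ψ x ^ q) ψ := by
  refine ⟨fun x => -ψ x, h.neg, fun x _ => ?_⟩
  beta_reduce
  rw [(Sq.su : Su k q).neg_pow]
  ring

theorem Eqs.pull (h : Eqs k q p ψ ψ') {g : β → α} (hg : Pq k p' g)
    (e : ∀ z, p' z → p (g z)) : Eqs k q p' (fun z => ψ (g z)) fun z => ψ' (g z) := by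
  obtain ⟨D, hD, e'⟩ := h
  exact ⟨fun z => D (g z), hD.pull hg e, fun z hz => e' _ (e z hz)⟩

theorem tele_SA4 (s : ℕ) (f : ℤ → Ω) :
    ∑ u ∈ Finset.Ico (0 : ℤ) s, f (u + 1) = ∑ u ∈ Finset.Ico (0 : ℤ) s, f u + (f s - f 0) := by
  induction s with
  | zero => simp
  | succ s ih =>
    rw [Nat.cast_succ, ← Finset.insert_Ico_right_eq_Ico_add_one (Int.natCast_nonneg s),
      Finset.sum_insert Finset.right_notMem_Ico, Finset.sum_insert Finset.right_notMem_Ico, ih]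
    ring

/-- the sum over a period does not depend on the window -/
theorem eqs_window (s : ℕ) {τ : α → ℤ → Ω} (h : ∀ u, Pq k p fun x => τ x u)
    (h1 : ∀ x u, p x → τ x (u + s) = -τ x u ^ q) (j : ℤ) :
    Eqs k q p (fun x => ∑ u ∈ Finset.Ico (0 : ℤ) s, τ x (u + j))
      fun x => ∑ u ∈ Finset.Ico (0 : ℤ) s, τ x u := by
  have step : ∀ j : ℤ, Eqs k q p (fun x => ∑ u ∈ Finset.Ico (0 : ℤ) s, τ x (u + (j + 1)))
      fun x => ∑ u ∈ Finset.Ico (0 : ℤ) s, τ x (u + j) := fun j => by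
    refine ⟨fun x => -τ x j, (h j).neg, fun x hx => ?_⟩
    have e := tele_SA4 s fun u => τ x (u + j)
    simp only [add_assoc, add_comm 1 j, zero_add] at e
    beta_reduce
    rw [e, add_comm (s : ℤ) j, h1 x j hx, (Sq.su : Su k q).neg_pow]
    ring
  induction j using Int.induction_on with
  | zero => exact Eqs.of_eq fun x _ => by simp only [add_zero]
  | succ j ih => exact (step j).trans ih
  | pred j ih =>
    have := step (-j - 1)
    rw [sub_add_cancel] at this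
    exact this.symm.trans ih

theorem Au.as_congr (h : Au k q G) (e : Eqs k q p ψ ψ')
    (hp : Gy k G (AS q p ψ')) : Gy k G (AS q p ψ) := by
  obtain ⟨D, hD, e⟩ := e
  refine h.giso (fun y : α × Ω => (y.1, y.2 + D y.1)) (fun y : α × Ω => (y.1, y.2 - D y.1))
    (by fun_prop (disch := exact fun _ h => h.1)) (by fun_prop (disch := exact fun _ h => h.1))
    ?_ ?_ ?_ ?_ hp
  · rintro ⟨x, s⟩ ⟨h1, h2⟩
    refine ⟨h1, ?_⟩
    dsimp only at h2 ⊢
    rw [e x h1, ← h2, (Sq.su : Su k q).add_pow]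
    ring
  · rintro ⟨x, s⟩ ⟨h1, h2⟩
    refine ⟨h1, ?_⟩
    dsimp only at h2 ⊢
    rw [(Sq.su : Su k q).sub_pow]
    linear_combination h2 + e x h1
  · rintro ⟨x, s⟩ -
    simp
  · rintro ⟨x, s⟩ -
    simp

theorem Au.as_iso (h : Au k q G) {χ : β → Ω} (f : β → α) (r : α → β) (hf : Pq k p' f) (hr : Pq k p r)
    (h1 : ∀ z, p' z → p (f z)) (h2 : ∀ x, p x → p' (r x)) (h3 : ∀ z, p' z → r (f z) = z)
    (h4 : ∀ x, p x → f (r x) = x) (e : Eqs k q p' (fun z => ψ (f z)) χ)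
    (hp : Gy k G (AS q p' χ)) : Gy k G (AS q p ψ) := by
  refine h.giso (fun y : β × Ω => (f y.1, y.2)) (fun y : α × Ω => (r y.1, y.2))
    (by fun_prop (disch := exact fun _ h => h.1)) (by fun_prop (disch := exact fun _ h => h.1))
    (fun y hy => ⟨h1 _ hy.1, hy.2⟩) (fun y hy => ⟨h2 _ hy.1, ?_⟩)
    (fun y hy => Prod.ext (h3 _ hy.1) rfl) (fun y hy => Prod.ext (h4 _ hy.1) rfl)
    (h.as_congr e hp)
  exact hy.2.trans (congrArg ψ (h4 _ hy.1).symm)

theorem dot_SA4 {n : Type} [Fintype n] (S : n → Prop) [DecidablePred S] (v D : n → Ω)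
    (hv : ∀ a, ¬S a → v a = 0) :
    v ⬝ᵥ D = (fun a : {a // S a} => v a.1) ⬝ᵥ fun a : {a // S a} => D a.1 := by
  have h0 : ∑ a : {a // ¬S a}, v a.1 * D a.1 = 0 :=
    Finset.sum_eq_zero fun a _ => by rw [hv a.1 a.2, zero_mul]
  rw [dotProduct, ← Fintype.sum_subtype_add_sum_subtype S, h0, add_zero]
  rfl

/-- a function that is linear in some variables -/
theorem Au.as_aff (h : Au k q G) {n : Type} [Fintype n] (S : n → Prop)
    {D : α → n → Ω} (hD : Pq k p D) (hψ : Pq k p ψ) (h0 : ∀ x a, p x → ¬S a → D x a = 0)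
    (h1 : Gy k G p) (h2 : Gy k G (AS q (fun x => p x ∧ D x = 0) ψ)) :
    Gy k G (AS q (fun y : α × (n → Ω) => p y.1 ∧ ∀ a, ¬S a → y.2 a = 0)
      fun y => ψ y.1 + y.2 ⬝ᵥ D y.1) := by
  classical
  have h3 := h.gaff (p := fun y : α × Ω => p y.1) (D := fun y (a : {a // S a}) => D y.1 a.1)
    (g := fun y => ψ y.1 - (y.2 ^ q + y.2))
    (Pq.pi fun a => (hD.eval a.1).pull (Pq.fst Pq.id) fun _ h => h)
    (by fun_prop (disch := exact fun _ h => h)) (h.gline Ω h1) (h2.congr fun y => by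
      constructor
      · rintro ⟨a1, a2, a3⟩
        refine ⟨⟨a1, funext fun a => ?_⟩, (sub_eq_zero.1 a3).symm⟩
        by_cases ha : S a
        · exact congrFun a2 ⟨a, ha⟩
        · exact h0 _ a a1 ha
      · rintro ⟨⟨a1, a2⟩, a3⟩
        exact ⟨a1, funext fun a => congrFun a2 a.1, sub_eq_zero.2 a3.symm⟩)
  refine h.giso (fun w : (α × Ω) × ({a // S a} → Ω) =>
      ((w.1.1, fun a => if ha : S a then w.2 ⟨a, ha⟩ else 0), w.1.2))
    (fun y : (α × (n → Ω)) × Ω => ((y.1.1, y.2), fun a => y.1.2 a.1))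
    (by fun_prop) (by fun_prop) ?_ ?_ ?_ ?_ h3
  · rintro ⟨⟨x, s⟩, v⟩ ⟨a1, a2⟩
    refine ⟨⟨a1, fun a ha => dif_neg ha⟩, ?_⟩
    dsimp only at a2 ⊢
    rw [dot_SA4 S _ _ fun a ha => dif_neg ha]
    simp only [Subtype.property, dif_pos]
    linear_combination -a2
  · rintro ⟨⟨x, v⟩, s⟩ ⟨⟨a1, a2⟩, a3⟩
    refine ⟨a1, ?_⟩
    dsimp only at a3 ⊢
    rw [dot_SA4 S _ _ a2] at a3
    linear_combination -a3
  · rintro ⟨⟨x, s⟩, v⟩ -
    exact Prod.ext rfl (funext fun a => dif_pos a.2)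
  · rintro ⟨⟨x, v⟩, s⟩ ⟨⟨a1, a2⟩, a3⟩
    refine Prod.ext (Prod.ext rfl (funext fun a => ?_)) rfl
    by_cases ha : S a
    · exact dif_pos ha
    · exact (dif_neg ha).trans (a2 a ha).symm

theorem Au.as_raff (h : Au k q G) {n : Type} [Fintype n] [DecidableEq n]
    {D : α → n → Ω} (hD : Pq k p D) (hψ : Pq k p ψ)
    (h1 : ∀ S : Finset n, Gy k G fun x => p x ∧ ∀ a ∈ S, D x a = 0)
    (h2 : Gy k G (AS q (fun y : α × (n → Ω) => p y.1) fun y => ψ y.1 + y.2 ⬝ᵥ D y.1)) :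
    Gy k G (AS q (fun x => p x ∧ D x = 0) ψ) := by
  refine (h.graff (p := fun y : α × Ω => p y.1) (D := fun y => D y.1)
    (g := fun y => ψ y.1 - (y.2 ^ q + y.2)) (hD.pull (Pq.fst Pq.id) fun _ h => h)
    (by fun_prop (disch := exact fun _ h => h)) (fun S => h.gline Ω (h1 S)) ?_).congr fun y => ?_
  · refine h.giso (fun y : (α × (n → Ω)) × Ω => ((y.1.1, y.2), y.1.2))
      (fun w : (α × Ω) × (n → Ω) => ((w.1.1, w.2), w.1.2)) (by fun_prop) (by fun_prop)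
      (fun y hy => ⟨hy.1, ?_⟩) (fun w hw => ⟨hw.1, ?_⟩) (fun _ _ => rfl) (fun _ _ => rfl) h2
    · have := hy.2
      dsimp only at this ⊢
      linear_combination -this
    · have := hw.2
      dsimp only at this ⊢
      linear_combination -this
  · exact ⟨fun hy => ⟨hy.1.1, hy.1.2, sub_eq_zero.2 hy.2.symm⟩,
      fun hy => ⟨⟨hy.1, hy.2.1⟩, (sub_eq_zero.1 hy.2.2).symm⟩⟩

theorem sum_update_SA4 {ε : Type} [Fintype ε] [DecidableEq ε] (v w : ε → Ω) (e : ε) (t : Ω) :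
    ∑ a, update v e t a * w a = (t - v e) * w e + ∑ a, v a * w a := by
  rw [Fintype.sum_eq_add_sum_subtype_ne _ e, Fintype.sum_eq_add_sum_subtype_ne (fun a => v a * w a) e,
    update_self, Finset.sum_congr rfl fun (a : {a // a ≠ e}) _ => by rw [update_of_ne a.2]]
  ring

/-- one multiplier becomes a parameter -/
theorem move_SA4 (h : Au k q G) {ε : Type} [Fintype ε] [DecidableEq ε] {f : ε → α → Ω}
    {E : Finset ε} {e : ε} (he : e ∈ E) {g : α × γ → Ω}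
    (h1 : Gy k G fun y : (α × γ) × (ε → Ω) =>
      p y.1.1 ∧ (∀ a, a ∉ E → y.2 a = 0) ∧ ∑ a, y.2 a * f a y.1.1 + g y.1 = 0) :
    Gy k G fun y : (α × γ × Ω) × (ε → Ω) => p y.1.1 ∧ (∀ a, a ∉ E.erase e → y.2 a = 0) ∧
      ∑ a, y.2 a * f a y.1.1 + (y.1.2.2 * f e y.1.1 + g (y.1.1, y.1.2.1)) = 0 := by
  refine h.giso (fun y : (α × γ) × (ε → Ω) => ((y.1.1, y.1.2, y.2 e), update y.2 e 0))
    (fun y : (α × γ × Ω) × (ε → Ω) => ((y.1.1, y.1.2.1), update y.2 e y.1.2.2))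
    (by fun_prop) (by fun_prop) ?_ ?_ ?_ ?_ h1
  · rintro ⟨⟨x, c⟩, v⟩ ⟨h2, h3, h4⟩
    refine ⟨h2, fun a ha => ?_, ?_⟩
    · by_cases e1 : a = e
      · simp [e1]
      · simpa [e1] using h3 a fun hh => ha (Finset.mem_erase.2 ⟨e1, hh⟩)
    · simp only [sum_update_SA4 v fun a => f a x]
      linear_combination h4
  · rintro ⟨⟨x, c, t⟩, v⟩ ⟨h2, h3, h4⟩
    have h5 : v e = 0 := h3 e (Finset.notMem_erase e E)
    refine ⟨h2, fun a ha => ?_, ?_⟩
    · have e1 : a ≠ e := fun hh => ha (hh ▸ he)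
      simpa [e1] using h3 a fun hh => ha (Finset.mem_of_mem_erase hh)
    · simp only [sum_update_SA4 v fun a => f a x, h5]
      linear_combination h4
  · rintro ⟨⟨x, c⟩, v⟩ -
    simp
  · rintro ⟨⟨x, c, t⟩, v⟩ ⟨h2, h3, h4⟩
    have h5 : v e = 0 := h3 e (Finset.notMem_erase e E)
    simp [← h5]

/-- the Artin-Schreier form of the Cayley trick -/
theorem Au.as_cayley (h : Au k q G) (hp : Gy k G p) {ε : Type} [Fintype ε]
    [DecidableEq ε] {f : ε → α → Ω} (hf : ∀ e, Pq k p (f e)) (𝓕 : Set (Finset ε))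
    (h1 : ∀ E ∈ 𝓕, E.Nonempty → ∃ e ∈ E, E.erase e ∈ 𝓕)
    (h2 : ∀ E ∈ 𝓕, Gy k G (AS q (fun y : α × (ε → Ω) => p y.1 ∧ ∀ e, e ∉ E → y.2 e = 0)
      fun y => ∑ e, y.2 e * f e y.1)) :
    ∀ E ∈ 𝓕, Gy k G fun x => p x ∧ ∀ e ∈ E, f e x = 0 := by
  have key : ∀ (n : ℕ), ∀ E ∈ 𝓕, E.card = n → (Gy k G fun x => p x ∧ ∀ e ∈ E, f e x = 0) ∧
      ∀ (γ : Type) [Af Ω γ] (g : α × γ → Ω), Pq k (fun y : α × γ => p y.1) g →
        (Gy k G fun y : (α × γ) × (ε → Ω) =>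
          p y.1.1 ∧ (∀ a, a ∉ E → y.2 a = 0) ∧ ∑ a, y.2 a * f a y.1.1 + g y.1 = 0) →
        Gy k G fun y : α × γ => (p y.1 ∧ ∀ e ∈ E, f e y.1 = 0) ∧ g y = 0 := by
    intro n
    induction n with
    | zero =>
      intro E _ hE
      obtain rfl := Finset.card_eq_zero.1 hE
      refine ⟨hp.congr fun x => by simp, fun γ _ g hg h3 => ?_⟩
      refine h.giso (fun w : (α × γ) × (ε → Ω) => w.1) (fun y : α × γ => (y, fun _ => 0))
        (by fun_prop) (by fun_prop) ?_ ?_ ?_ (fun _ _ => rfl) h3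
      · rintro ⟨y, v⟩ ⟨a1, a2, a3⟩
        have a4 : ∀ a, v a = 0 := fun a => a2 a (Finset.notMem_empty a)
        exact ⟨⟨a1, by simp⟩, by simpa [a4] using a3⟩
      · rintro y ⟨a1, a2⟩
        exact ⟨a1.1, fun _ _ => rfl, by simpa using a2⟩
      · rintro ⟨y, v⟩ ⟨a1, a2, a3⟩
        exact Prod.ext rfl (funext fun a => (a2 a (Finset.notMem_empty a)).symm)
    | succ n ih =>
      intro E hE hn
      obtain ⟨e, he, hE'⟩ := h1 E hE (Finset.card_pos.1 (by omega))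
      obtain ⟨i1, i2⟩ := ih _ hE' (by rw [Finset.card_erase_of_mem he, hn]; rfl)
      have hfe := hf e
      have e1 : ∀ x, (p x ∧ ∀ a ∈ E, f a x = 0) ↔
          (p x ∧ ∀ a ∈ E.erase e, f a x = 0) ∧ f e x = 0 := fun x =>
        ⟨fun hx => ⟨⟨hx.1, fun a ha => hx.2 a (Finset.mem_of_mem_erase ha)⟩, hx.2 e he⟩,
          fun hx => ⟨hx.1.1, fun a ha => by
            by_cases e2 : a = e
            · rw [e2, hx.2]
            · exact hx.1.2 a (Finset.mem_erase.2 ⟨e2, ha⟩)⟩⟩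
      have i3 : ∀ (γ : Type) [Af Ω γ] (g : α × γ → Ω), Pq k (fun y : α × γ => p y.1) g →
          (Gy k G fun y : (α × γ) × (ε → Ω) =>
            p y.1.1 ∧ (∀ a, a ∉ E → y.2 a = 0) ∧ ∑ a, y.2 a * f a y.1.1 + g y.1 = 0) →
          Gy k G fun y : α × γ × Ω => (p y.1 ∧ ∀ a ∈ E.erase e, f a y.1 = 0) ∧
            y.2.2 * f e y.1 + g (y.1, y.2.1) = 0 := fun γ _ g hg h3 =>
        i2 (γ × Ω) (fun y => y.2.2 * f e y.1 + g (y.1, y.2.1))
          (((Pq.snd (Pq.snd Pq.id)).mul (hfe.pull (Pq.fst Pq.id) fun _ h => h)).add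
            (hg.pull ((Pq.fst Pq.id).mk (Pq.fst (Pq.snd Pq.id))) fun _ h => h))
          (move_SA4 h he h3)
      have z0 : Gy k G fun y : (α × Ω) × (ε → Ω) => p y.1.1 ∧ (∀ a, a ∉ E → y.2 a = 0) ∧
          ∑ a, y.2 a * f a y.1.1 + -(y.1.2 ^ q + y.1.2) = 0 := by
        refine h.giso (fun y : (α × (ε → Ω)) × Ω => ((y.1.1, y.2), y.1.2))
          (fun w : (α × Ω) × (ε → Ω) => ((w.1.1, w.2), w.1.2)) (by fun_prop) (by fun_prop)
          (fun y hy => ⟨hy.1.1, hy.1.2, ?_⟩) (fun w hw => ⟨⟨hw.1, hw.2.1⟩, ?_⟩)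
          (fun _ _ => rfl) (fun _ _ => rfl) (h2 E hE)
        · have := hy.2
          dsimp only at this ⊢
          linear_combination -this
        · have := hw.2.2
          dsimp only at this ⊢
          linear_combination -this
      have z1 : Gy k G fun x => p x ∧ ∀ a ∈ E, f a x = 0 := by
        have z2 := i3 Ω (fun y => -(y.2 ^ q + y.2)) (by fun_prop) z0
        refine (h.gasb (p := fun x => p x ∧ ∀ a ∈ E.erase e, f a x = 0)
          (hfe.mono fun _ hx => hx.1) ?_).congr e1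
        refine h.giso (fun y : α × Ω × Ω => (y.1, y.2.2, y.2.1))
          (fun y : α × Ω × Ω => (y.1, y.2.2, y.2.1)) (by fun_prop) (by fun_prop)
          (fun y hy => ⟨hy.1, ?_⟩) (fun y hy => ⟨hy.1, ?_⟩) (fun _ _ => rfl) (fun _ _ => rfl) z2
        · have := hy.2
          dsimp only at this ⊢
          linear_combination this
        · have := hy.2
          dsimp only at this ⊢
          linear_combination this
      refine ⟨z1, fun γ _ g hg h3 => ?_⟩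
      refine (h.gblow (p := fun y : α × γ => p y.1 ∧ ∀ a ∈ E.erase e, f a y.1 = 0)
        (s := fun y => f e y.1) (g := g) (h.gline γ i1).lc
        (hfe.pull (Pq.fst Pq.id) fun _ h => h.1) (hg.mono fun _ h => h.1) ?_
        ((h.gline γ z1).congr fun y => (e1 y.1).symm)).congr fun y => by rw [e1, and_assoc]
      exact h.giso (fun y : α × γ × Ω => ((y.1, y.2.1), y.2.2))
        (fun y : (α × γ) × Ω => (y.1.1, y.1.2, y.2)) (by fun_prop) (by fun_prop)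
        (fun _ hy => hy) (fun _ hy => hy) (fun _ _ => rfl) (fun _ _ => rfl) (i3 γ g hg h3)
  exact fun E hE => (key _ E hE rfl).1

end Pool.Agent.CXD
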