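import Pool.Agent.P.MP_2ce3e7_ag.SA4
import Pool.Agent.P.MP_2ce3e7_ag.DB4
import Pool.Agent.P.MP_2ce3e7_ag.DB1

/-! Hermitian functions and products. -/

set_option linter.unusedSectionVars false
set_option linter.unusedVariables false

open Function Matrix

noncomputable section

namespace Pool.Agent.CXD

variable {k Ω : Type} [Field k] [Field Ω] [Algebra k Ω] {α β γ : Type} [Af Ω α] [Af Ω β] [Af Ω γ]
  {G : Gp Ω} {q : ℕ} {p : α → Prop} {p' : β → Prop} [Sq k q] [IsAlgClosed Ω]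

theorem Az.as_herm (h : Az k q G) (hp : Gy k G p) (κ : Type) [Fintype κ] :
    Gy k G (AS q (fun y : α × (κ → Ω) => p y.1) fun y => -∑ i, y.2 i ^ (q + 1)) := by
  have hq : Su k q := Sq.su
  obtain ⟨f, r, hf, hr, e1, e2, e3⟩ := hq.exists_coord (Ω := Ω)
  have hW : Gy k G fun z : (α × (κ → Ω)) × Ω × Ω =>
      p z.1.1 ∧ z.2.1 * z.2.2 ^ q + z.2.1 ^ q * z.2.2 + ∑ i, z.1.2 i ^ (q + 1) = 0 := by
    refine h.toAu.giso
      (fun y : α × (κ ⊕ Unit ⊕ Unit → Ω) => ((y.1, fun i => y.2 (Sum.inl i)),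
        r (y.2 (Sum.inr (Sum.inl ())), y.2 (Sum.inr (Sum.inr ())))))
      (fun z => (z.1.1, Sum.elim z.1.2 (Sum.elim (fun _ => (f z.2).1) fun _ => (f z.2).2)))
      (Pm.po (by fun_prop)) (Pm.po (by fun_prop)) ?_ ?_ ?_ ?_ (h.gcone (κ ⊕ Unit ⊕ Unit) hp)
    · rintro ⟨x, y⟩ ⟨h1, h2⟩
      refine ⟨h1, ?_⟩
      have h3 := e3 (r (y (Sum.inr (Sum.inl ())), y (Sum.inr (Sum.inr ()))))
      rw [e2] at h3
      simp only [Fintype.sum_sum_type, Finset.univ_unique, Finset.sum_singleton,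
        PUnit.default_eq_unit] at h2 h3 ⊢
      linear_combination h2 - h3
    · rintro ⟨⟨x, y⟩, w⟩ ⟨h1, h2⟩
      refine ⟨h1, ?_⟩
      simp only [Fintype.sum_sum_type, Finset.univ_unique, Finset.sum_singleton, Sum.elim_inl,
        Sum.elim_inr] at h2 ⊢
      linear_combination h2 + e3 w
    · rintro ⟨x, y⟩ _
      refine Prod.ext rfl (funext fun i => ?_)
      simp only [e2]
      rcases i with i | i | i <;> rfl
    · rintro ⟨⟨x, y⟩, w⟩ _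
      simp only [Sum.elim_inl, Sum.elim_inr, Prod.mk.eta, e1]
  have hO := h.toAu.gopn (g := fun z : (α × (κ → Ω)) × Ω × Ω => z.2.2) (by fun_prop) hW
  refine h.toAu.gungm (h.toAu.giso
    (fun z : (α × (κ → Ω)) × Ω × Ω => (((z.1.1, z.2.2⁻¹ • z.1.2), z.2.1 * z.2.2⁻¹), z.2.2))
    (fun w => ((w.1.1.1, w.2 • w.1.1.2), w.1.2 * w.2, w.2))
    (by fun_prop (disch := exact fun _ h => h.2)) (Pm.po (by fun_prop)) ?_ ?_ ?_ ?_ hO)
  · rintro ⟨⟨x, y⟩, u, v⟩ ⟨⟨h1, h2⟩, h3⟩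
    refine ⟨⟨h1, ?_⟩, h3⟩
    have h4 : v * v⁻¹ = 1 := mul_inv_cancel₀ h3
    have h5 : v ^ q * v⁻¹ ^ q = 1 := by rw [← mul_pow, h4, one_pow]
    simp only [Pi.smul_apply, smul_eq_mul, mul_pow, ← Finset.mul_sum] at h2 ⊢
    linear_combination v⁻¹ ^ (q + 1) * h2 - u * v⁻¹ * h5 - u ^ q * v⁻¹ ^ q * h4
  · rintro ⟨⟨⟨x, y⟩, s⟩, v⟩ ⟨⟨h1, h2⟩, h3⟩
    refine ⟨⟨h1, ?_⟩, h3⟩
    simp only [Pi.smul_apply, smul_eq_mul, mul_pow, ← Finset.mul_sum] at h2 ⊢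
    linear_combination v ^ (q + 1) * h2
  · rintro ⟨⟨x, y⟩, u, v⟩ ⟨-, h3⟩
    have h4 : v ≠ 0 := h3
    simp only [smul_smul, mul_assoc, mul_inv_cancel₀ h4, inv_mul_cancel₀ h4, mul_one, one_smul]
  · rintro ⟨⟨⟨x, y⟩, s⟩, v⟩ ⟨-, h3⟩
    have h4 : v ≠ 0 := h3
    simp only [smul_smul, mul_assoc, mul_inv_cancel₀ h4, inv_mul_cancel₀ h4, mul_one, one_smul]

theorem kr_mat_SA5 {ι : Type} [Fintype ι] {z : Matrix ι ι Ω} (h : fm q (fm q z) = z) : Kr k z :=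
  kr_pi fun i => kr_pi fun j => ((Sq.su : Su k q).kr_iff _).2 (by
    rw [sq, pow_mul]
    exact congrFun (congrFun h i) j)

/-- Hermitian forms over `k` are sums of norms -/
theorem exists_herm {ι : Type} [Fintype ι] [DecidableEq ι] (c : Matrix ι ι Ω) [Kr k c]
    (h1 : c.det ≠ 0) (h2 : (fm q c)ᵀ = c) : ∃ z z' : Matrix ι ι Ω, Kr k z ∧ Kr k z' ∧ z * z' = 1 ∧
      ∀ y : ι → Ω, y ⬝ᵥ c *ᵥ (fun i => y i ^ q) = ∑ i, (z *ᵥ y) i ^ (q + 1) := by
  have hq : Su k q := Sq.su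
  have hc : (cᵀ, c.det⁻¹).1.det * (cᵀ, c.det⁻¹).2 = 1 := by
    rw [det_transpose]; exact mul_inv_cancel₀ h1
  obtain ⟨⟨z, d⟩, hy, he⟩ := hq.lang_surj _ hc
  have e1 := hq.lang_rel hy
  have e2 : zᵀ * fm q z = c := by
    have := congrArg (fun w : Matrix ι ι Ω × Ω => w.1ᵀ) he
    simpa only [lang, transpose_transpose] using this
  have e3 : (fm q cᵀ)ᵀ = cᵀ := by rw [fm_transpose, h2]
  rw [he, e3, Matrix.smul_mul, adjugate_mul, smul_smul, det_transpose, inv_mul_cancel₀ h1, one_smul,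
    Matrix.mul_one, sq, ← fm_fm] at e1
  have e4 : z * (d • z.adjugate) = 1 := by
    rw [Matrix.mul_smul, mul_adjugate, smul_smul, mul_comm, show z.det * d = 1 from hy, one_smul]
  have e5 : fm q (fm q (d • z.adjugate)) = d • z.adjugate := by
    have e := congrArg (fun w : Matrix ι ι Ω => fm q (fm q w)) e4
    simp only [hq.fm_mul, hq.fm_one] at e
    rw [show fm q (fm q z) = z from e1] at e
    rw [← Matrix.one_mul (fm q (fm q (d • z.adjugate))), ← mul_eq_one_comm.1 e4, Matrix.mul_assoc, e,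
      Matrix.mul_one]
  refine ⟨z, d • z.adjugate, kr_mat_SA5 e1, kr_mat_SA5 e5, e4, fun y => ?_⟩
  rw [← e2, ← Matrix.mulVec_mulVec, hq.fm_mulVec, Matrix.dotProduct_mulVec, Matrix.vecMul_transpose]
  exact Finset.sum_congr rfl fun i _ => (pow_succ' _ _).symm

variable (k G q) in
/-- good together with all Hermitian extensions -/
def HG (p : α → Prop) (ψ : α → Ω) : Prop :=
  Gy k G p ∧ ∀ N : ℕ,
    Gy k G (AS q (fun y : α × (Fin N → Ω) => p y.1) fun y => ψ y.1 - ∑ i, y.2 i ^ (q + 1))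

theorem Az.hg_zero (h : Az k q G) (hp : Gy k G p) : HG k G q p fun _ => 0 :=
  ⟨hp, fun N => by simpa using h.as_herm hp (Fin N)⟩

theorem Au.hg_as (h : Au k q G) {ψ : α → Ω} (h1 : HG k G q p ψ) :
    Gy k G (AS q p ψ) :=
  h.as_iso (fun y : α × (Fin 0 → Ω) => y.1) (fun x => (x, 0)) (by fun_prop) (by fun_prop)
    (fun _ hz => hz) (fun _ hx => hx) (fun z _ => Prod.ext rfl (Subsingleton.elim _ _))
    (fun _ _ => rfl) (Eqs.of_eq fun z _ => by simp) (h1.2 0)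

theorem Au.hg_herm (h : Au k q G) {ψ : α → Ω} (h1 : HG k G q p ψ)
    {ι : Type} [Fintype ι] [DecidableEq ι] (m : Matrix ι ι Ω) [Kr k m] (h2 : m.det ≠ 0)
    (h3 : (fm q m)ᵀ = m) (N : ℕ) :
    Gy k G (AS q (fun y : (α × (Fin N → Ω)) × (ι → Ω) => p y.1.1) fun y =>
      ψ y.1.1 - ∑ i, y.1.2 i ^ (q + 1) + y.2 ⬝ᵥ m *ᵥ fun i => y.2 i ^ q) := by
  have hq : Su k q := Sq.su
  have e0 : fm q (-m) = -fm q m := Matrix.ext fun i j => hq.neg_pow _
  have e1 : fm q m = mᵀ := by rw [← transpose_transpose (fm q m), h3]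
  have hm : Kr k (-m) := kr_mat_SA5 (q := q) (by
    have e2 : fm q (-mᵀ) = -fm q mᵀ := Matrix.ext fun i j => hq.neg_pow _
    rw [e0, e1, e2, fm_transpose, h3])
  obtain ⟨z, z', hz, hz', e2, e3⟩ := exists_herm (k := k) (-m)
    (by rw [det_neg]; exact mul_ne_zero (pow_ne_zero _ (neg_ne_zero.2 one_ne_zero)) h2)
    (by rw [e0, transpose_neg, h3])
  have e4 : z' * z = 1 := mul_eq_one_comm.1 e2
  obtain ⟨e⟩ : Nonempty (Fin N ⊕ ι ≃ Fin (N + Fintype.card ι)) :=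
    ⟨(Equiv.sumCongr (Equiv.refl _) (Fintype.equivFin ι)).trans finSumFinEquiv⟩
  refine h.as_iso
    (fun y : α × (Fin (N + Fintype.card ι) → Ω) =>
      ((y.1, fun i => y.2 (e (Sum.inl i))), z' *ᵥ fun j => y.2 (e (Sum.inr j))))
    (fun w => (w.1.1, fun a => Sum.elim w.1.2 (z *ᵥ w.2) (e.symm a)))
    (Pm.po (by fun_prop)) (Pm.po (by fun_prop)) (fun _ hy => hy) (fun _ hw => hw) ?_ ?_
    (Eqs.of_eq ?_) (h1.2 _)
  · rintro ⟨x, y⟩ _
    refine Prod.ext rfl (funext fun a => ?_)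
    obtain ⟨a, rfl⟩ := e.surjective a
    simp only [Matrix.mulVec_mulVec, e2, Matrix.one_mulVec, Equiv.symm_apply_apply]
    rcases a with a | a <;> rfl
  · rintro ⟨⟨x, y⟩, w⟩ _
    simp only [Equiv.symm_apply_apply, Sum.elim_inl, Sum.elim_inr, Matrix.mulVec_mulVec, e4,
      Matrix.one_mulVec]
  · rintro ⟨x, y⟩ _
    have e5 := e3 (z' *ᵥ fun j => y (e (Sum.inr j)))
    rw [Matrix.neg_mulVec, dotProduct_neg, Matrix.mulVec_mulVec, e2, Matrix.one_mulVec] at e5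
    have e6 := e.sum_comp fun a => y a ^ (q + 1)
    rw [Fintype.sum_sum_type] at e6
    simp only
    linear_combination -e5 - e6

end Pool.Agent.CXD
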