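import Pool.Agent.P.MP_2ce3e7_ag.SA5

/-! Slices and triangular systems. -/

set_option linter.unusedSectionVars false
set_option linter.unusedVariables false

open Function Matrix

noncomputable section

namespace Pool.Agent.CXD
variable {k Ω : Type} [Field k] [Field Ω] [Algebra k Ω] {α β γ : Type} [Af Ω α] [Af Ω β] [Af Ω γ]
  {G : Gp Ω} {q : ℕ} {p : α → Prop} {p' : β → Prop} [Sq k q] [IsAlgClosed Ω] {ψ : α → Ω}

theorem Au.as_line (h : Au k q G) (β : Type) [Af Ω β] (hp : Gy k G (AS q p ψ)) :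
    Gy k G (AS q (fun y : α × β => p y.1) fun y => ψ y.1) :=
  h.giso (fun y : (α × Ω) × β => ((y.1.1, y.2), y.1.2))
    (fun y : (α × β) × Ω => ((y.1.1, y.2), y.1.2)) (by fun_prop) (by fun_prop) (fun _ hz => hz)
    (fun _ hz => hz) (fun _ _ => rfl) (fun _ _ => rfl) (h.gline β hp)

theorem Au.as_opn (h : Au k q G) {g : α → Ω} (hg : Pq k p g) (hp : Gy k G (AS q p ψ)) :
    Gy k G (AS q (fun x => p x ∧ g x ≠ 0) ψ) :=
  (h.gopn (g := fun y : α × Ω => g y.1) (hg.pull (Pq.fst Pq.id) fun _ hy => hy.1) hp).congr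
    fun _ => and_right_comm

theorem Au.as_split (h : Au k q G) (c : Lc k p) (hψ : Pq k p ψ) {g : α → Ω} (hg : Pq k p g)
    (h1 : Gy k G (AS q (fun x => p x ∧ g x = 0) ψ))
    (h2 : Gy k G (AS q (fun x => p x ∧ g x ≠ 0) ψ)) : Gy k G (AS q p ψ) :=
  h.gsplit (c.as hψ) (g := fun y : α × Ω => g y.1) (hg.pull (Pq.fst Pq.id) fun _ hy => hy.1)
    (h1.congr fun _ => and_right_comm) (h2.congr fun _ => and_right_comm)

theorem Au.as_union (h : Au k q G) (c : Lc k p) (hψ : Pq k p ψ) {T : Type} [Finite T]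
    {r : T → α → Prop} (hr : ∀ i, Cr k p (r i)) (h1 : ∀ x, p x → ∃ i, r i x)
    (hp : ∀ i, Gy k G (AS q (fun x => p x ∧ r i x) ψ)) : Gy k G (AS q p ψ) :=
  h.gunion (c.as hψ) (r := fun i (y : α × Ω) => r i y.1)
    (fun i => (hr i).pull (Pq.fst Pq.id) fun _ hy => hy.1) (fun y hy => h1 y.1 hy.1)
    fun i => (hp i).congr fun _ => and_right_comm

theorem Au.as_rats (h : Au k q G) (h1 : ∀ z, p' z → Kr k z) (hp : Gy k G (AS q p ψ)) :
    Gy k G (AS q (fun y : α × β => p y.1 ∧ p' y.2) fun y => ψ y.1) :=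
  h.giso (fun y : (α × Ω) × β => ((y.1.1, y.2), y.1.2))
    (fun y : (α × β) × Ω => ((y.1.1, y.2), y.1.2)) (by fun_prop) (by fun_prop)
    (fun _ hz => ⟨⟨hz.1.1, hz.2⟩, hz.1.2⟩) (fun _ hz => ⟨⟨hz.1.1, hz.2⟩, hz.1.2⟩) (fun _ _ => rfl)
    (fun _ _ => rfl) (h.grats h1 hp)

theorem Gy.as_of_iff {p₁ : α → Prop} {ψ₁ : α → Ω} (hp : Gy k G (AS q p₁ ψ₁))
    (e : ∀ x, p x ↔ p₁ x) (e' : ∀ x, p x → ψ x = ψ₁ x) : Gy k G (AS q p ψ) :=
  hp.congr fun _ => ⟨fun hy => ⟨(e _).1 hy.1, hy.2.trans (e' _ hy.1)⟩,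
    fun hy => ⟨(e _).2 hy.1, hy.2.trans (e' _ ((e _).2 hy.1)).symm⟩⟩

theorem Au.as_slice (h : Au k q G) {g : α → Ω} {a : α × Ω → α} (hg : Pq k p g)
    (ha : Pq k (fun y : α × Ω => p y.1) a) (h1 : ∀ x t, p x → p (a (x, t)))
    (h2 : ∀ x, p x → a (x, 0) = x) (h3 : ∀ x t t', p x → a (a (x, t), t') = a (x, t + t'))
    (h4 : ∀ x t, p x → g (a (x, t)) = g x + t)
    (h5 : Eqs k q (fun y : α × Ω => p y.1) (fun y => ψ (a y)) fun y => ψ y.1)
    (hp : Gy k G (AS q (fun x => p x ∧ g x = 0) ψ)) : Gy k G (AS q p ψ) := by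
  have f1 : Pq k (fun y : α × Ω => p y.1 ∧ g y.1 = 0) a := ha.mono fun _ hy => hy.1
  have f2 : Pq k p fun x => (a (x, -g x), g x) :=
    (ha.pull (Pq.id.mk hg.neg) fun _ hx => hx).mk hg
  have f3 : ∀ y : α × Ω, p y.1 ∧ g y.1 = 0 → p (a y) := fun y hy => h1 y.1 y.2 hy.1
  have f4 : ∀ x, p x → p (a (x, -g x)) ∧ g (a (x, -g x)) = 0 := fun x hx =>
    ⟨h1 _ _ hx, by rw [h4 _ _ hx, add_neg_cancel]⟩
  have f5 : ∀ y : α × Ω, p y.1 ∧ g y.1 = 0 → (a (a y, -g (a y)), g (a y)) = y := by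
    rintro ⟨x, t⟩ ⟨hx, e⟩
    rw [h4 x t hx, show g x = 0 from e, zero_add, h3 x t _ hx, add_neg_cancel, h2 x hx]
  have f6 : ∀ x, p x → a (a (x, -g x), g x) = x := fun x hx => by
    rw [h3 x _ _ hx, neg_add_cancel, h2 x hx]
  exact h.as_iso a _ f1 f2 f3 f4 f5 f6 (h5.pull Pq.id fun _ hy => hy.1) (h.as_line Ω hp)

theorem Au.as_zero (h : Au k q G) (hp : Gy k G p) : Gy k G (AS q p fun _ => (0 : Ω)) := by
  have hq : Su k q := Sq.su
  refine h.grats (p' := fun s : Ω => s ^ q + s = 0) (fun s hs => (hq.kr_iff s).2 ?_) hp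
  have e : s ^ q = -s := eq_neg_of_add_eq_zero_left hs
  rw [sq, pow_mul, e, hq.neg_pow, e, neg_neg]

theorem root_SA6 (hq : 1 < q) (c : Ω) : ∃ z : Ω, z ^ q + z = c := by
  have e : (Polynomial.X ^ q + (Polynomial.X - Polynomial.C c) : Polynomial Ω).degree = q := by
    rw [Polynomial.degree_add_eq_left_of_degree_lt, Polynomial.degree_X_pow]
    rw [Polynomial.degree_X_pow, Polynomial.degree_X_sub_C]
    exact_mod_cast hq
  obtain ⟨z, hz⟩ := IsAlgClosed.exists_root _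
    (e.trans_ne (by exact_mod_cast (lt_trans one_pos hq).ne'))
  refine ⟨z, ?_⟩
  simp only [Polynomial.IsRoot, Polynomial.eval_add, Polynomial.eval_sub, Polynomial.eval_C,
    Polynomial.eval_pow, Polynomial.eval_X] at hz
  linear_combination hz

/-- sums of functions in separate variables -/
theorem Az.as_add (h : Az k q G) (c : Lc k p) (c' : Lc k p') (hψ : Pq k p ψ) {χ : β → Ω}
    (hχ : Pq k p' χ) (hp : Gy k G (AS q p ψ))
    (hp' : ∀ G' : Gp Ω, Az k q G' → Gy k G' (AS q p' χ)) :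
    Gy k G (AS q (fun y : α × β => p y.1 ∧ p' y.2) fun y => ψ y.1 + χ y.2) := by
  have hq : Su k q := Sq.su
  have c1 : Lc k fun y : α × β => p y.1 ∧ p' y.2 := (c.fst β).land (c'.comp (Pq.snd Pq.id))
  have e1 : Pq k (fun y : α × β => p y.1 ∧ p' y.2) fun y => ψ y.1 :=
    hψ.pull (Pq.fst Pq.id) fun _ hy => hy.1
  have e2 : Pq k (fun y : α × β => p y.1 ∧ p' y.2) fun y => χ y.2 :=
    hχ.pull (Pq.snd Pq.id) fun _ hy => hy.2
  refine h.toAu.gfin (c1.as (e1.add e2)) (κ := Unit)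
    (r := fun y : ((α × β) × Ω) × (Unit → Ω) => y.2 () ^ q + y.2 () = χ y.1.1.2)
    (Cr.eq (by fun_prop) (e2.pull (Pq.fst (Pq.fst Pq.id)) fun _ hy => hy.1))
    (fun x _ => (root_SA6 hq.lt (χ x.1.2)).elim fun z hz => ⟨fun _ => z, hz⟩) q hq.lt
    (fun _ _ _ => -1) (fun x _ => χ x.1.2) (by fun_prop)
    (Pq.pi fun _ => e2.pull (Pq.fst Pq.id) fun _ hy => hy.1) ?_ ?_
  · intro x z _ hz i
    have hz' : z () ^ q + z () = χ x.1.2 := hz
    rw [Fintype.sum_unique]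
    show z () ^ q = -1 * z () + χ x.1.2
    linear_combination hz'
  · refine h.toAu.giso
      (fun y : (α × Ω) × (β × Ω) => (((y.1.1, y.2.1), y.1.2 + y.2.2), fun _ : Unit => y.2.2))
      (fun y : ((α × β) × Ω) × (Unit → Ω) => ((y.1.1.1, y.1.2 - y.2 ()), (y.1.1.2, y.2 ())))
      (by fun_prop) (by fun_prop) ?_ ?_ (fun _ _ => by simp) (fun _ _ => by simp) (h.gprod hp hp')
    · rintro ⟨⟨x, s⟩, y, t⟩ ⟨⟨a1, a2⟩, b1, b2⟩
      refine ⟨⟨⟨a1, b1⟩, ?_⟩, b2⟩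
      dsimp only at a2 b2 ⊢
      rw [hq.add_pow]
      linear_combination a2 + b2
    · rintro ⟨⟨⟨x, y⟩, s⟩, t⟩ ⟨⟨⟨a1, b1⟩, a2⟩, b2⟩
      refine ⟨⟨a1, ?_⟩, b1, b2⟩
      dsimp only at a2 b2 ⊢
      rw [hq.sub_pow]
      linear_combination a2 - b2

theorem Az.as_form (h : Az k q G) {ι : Type} [Fintype ι] [DecidableEq ι] (m : Matrix ι ι Ω)
    [Kr k m] (h2 : m.det ≠ 0) (h3 : (fm q m)ᵀ = m) :
    Gy k G (AS q (fun _ : ι → Ω => True) fun y => y ⬝ᵥ m *ᵥ fun i => y i ^ q) :=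
  h.toAu.as_iso (fun y : ((Fin 0 → Ω) × (Fin 0 → Ω)) × (ι → Ω) => y.2) (fun y => ((0, 0), y))
    (by fun_prop) (by fun_prop) (fun _ _ => trivial) (fun _ _ => trivial)
    (fun _ _ => Prod.ext (Subsingleton.elim _ _) rfl) (fun _ _ => rfl)
    (Eqs.of_eq fun _ _ => by simp)
    (h.toAu.hg_herm (h.hg_zero (h.guniv (Fin 0 → Ω))) m h2 h3 0)

/-- triangular systems of graphs: the equation `i` prescribes the coordinate `σ i` -/
theorem Au.gtri (h : Au k q G) {n m : Type} [Fintype n] [DecidableEq n] (σ : m → n)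
    (hσ : Injective σ) (ρ : n → ℤ) {P : α × (n → Ω) → Prop} {Φ : m → α × (n → Ω) → Ω}
    (hΦ : ∀ i, Pq k P (Φ i)) (h1 : ∀ x y i t, P (x, y) → P (x, update y (σ i) t))
    (h2 : ∀ x y i j t, P (x, y) → ρ (σ j) ≤ ρ (σ i) → Φ i (x, update y (σ j) t) = Φ i (x, y))
    (hp : Gy k G P) (S : Finset m) : Gy k G fun y => P y ∧ ∀ i ∈ S, y.2 (σ i) = Φ i y := by
  classical
  induction S using Finset.induction_on_min_value fun i => ρ (σ i) with
  | empty => exact hp.congr fun _ => by simp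
  | insert j S hj hm ih =>
    refine ((h.gslice (p := fun y => P y ∧ ∀ i ∈ S, y.2 (σ i) = Φ i y)
      (g := fun y => y.2 (σ j) - Φ j y)
      (a := fun y => (y.1.1, update y.1.2 (σ j) (y.1.2 (σ j) + y.2)))
      (Pq.sub (by fun_prop) ((hΦ j).mono fun _ hy => hy.1)) (by fun_prop) ?_ ?_ ?_ ?_).1 ih).congr
      fun y => by simp only [Finset.forall_mem_insert, sub_eq_zero]; tauto
    · rintro ⟨x, y⟩ t ⟨a, b⟩
      refine ⟨h1 x y j _ a, fun i hi => ?_⟩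
      dsimp only
      rw [update_of_ne (hσ.ne fun e : i = j => hj (e ▸ hi)), h2 x y i j _ a (hm i hi)]
      exact b i hi
    · rintro ⟨x, y⟩ _
      simp
    · rintro ⟨x, y⟩ t t' _
      simp [add_assoc]
    · rintro ⟨x, y⟩ t ⟨a, _⟩
      dsimp only
      rw [update_self, h2 x y j j _ a le_rfl]
      ring

end Pool.Agent.CXD
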