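import Pool.Agent.P.MP_2ce3e7_ag.SI0

/-! Bijective interval systems: the recursion. -/

set_option linter.unusedSectionVars false
set_option linter.unusedVariables false

open Function Matrix

noncomputable section

namespace Pool.Agent.CXD
open Finset

variable {k Ω : Type} [Field k] [Field Ω] [Algebra k Ω] {q : ℕ} {ε : ℤˣ} {s D : ℕ} [NeZero s]
  {R : ℤ → Prop} {f g : ℤ → ℤ} {ι : Type} [Fintype ι] {b : ι → Bool} {G : Gp Ω}
  {e : ℤ → ℤ → Ω} {θ : ℤ} [IsAlgClosed Ω]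

/-- `f` permutes the active places, with inverse `g` -/
structure C3 (s D : ℕ) (R : ℤ → Prop) (f g : ℤ → ℤ) : Prop extends Is s D R f where
  lt : ∀ u, R u → u < f u
  Rf : ∀ u, R u → R (f u)
  Rg : ∀ v, R v → R (g v)
  gf : ∀ u, R u → g (f u) = u
  fg : ∀ v, R v → f (g v) = v

open Classical in
/-- the intervals that cross the gap after `θ` -/
def bd (D : ℕ) (R : ℤ → Prop) (f : ℤ → ℤ) (θ : ℤ) : Finset ℤ :=
  (Ioc (θ - D) θ).filter fun u => R u ∧ θ < f u

/-- the equations between the gaps after `-1` and after `θ`, with momenta `p` and `p'` -/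
def Tr {W : Type} [AddCommGroup W] [Module Ω W] (D : ℕ) (R : ℤ → Prop) (f : ℤ → ℤ)
    (e : ℤ → ℤ → Ω) (θ : ℤ) (a p p' : ℤ → W) : Prop :=
  (∀ u ∈ bd D R f (-1), p u = ∑ v ∈ Ioc (-1) θ, e u v • a v + if θ < f u then p' u else 0) ∧
    ∀ u, R u → 0 ≤ u → u ≤ θ →
      ∑ v ∈ Icc (u - D) θ, e u v • a v + (if θ < f u then p' u else 0) = 0

theorem Amx.bandZ_SB0 (ha : Amx q ε s D e) (u v : ℤ) (h : u + D < v) : e u v = 0 := by
  have hs : 0 < s := Nat.pos_of_ne_zero (NeZero.ne s)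
  have key : ∀ (n : ℕ) (u v : ℤ), 0 ≤ u + n → u + D < v → e u v = 0 := by
    intro n
    induction n with
    | zero =>
      intro u v h0 h
      lift u to ℕ using by omega
      lift v to ℕ using by omega
      exact ha.band u v (by omega)
    | succ n ih =>
      intro u v h0 h
      have h1 := ih (u + s) (v + s) (by push_cast at h0; omega) (by omega)
      rw [ha.per, neg_eq_zero, mul_eq_zero] at h1
      exact pow_eq_zero_iff' .. |>.1 (h1.resolve_left (sg_ne ε)) |>.1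
  exact key u.natAbs u v (by omega) h

theorem Is.mem_bd (h : Is s D R f) {u : ℤ} : u ∈ bd D R f θ ↔ R u ∧ u ≤ θ ∧ θ < f u := by
  have := h.hi u
  simp only [bd, mem_filter, mem_Ioc]
  constructor
  · rintro ⟨⟨-, h2⟩, h3, h4⟩
    exact ⟨h3, h2, h4⟩
  · rintro ⟨h2, h3, h4⟩
    exact ⟨⟨by omega, h3⟩, h2, h4⟩

theorem Is.bd_per (h : Is s D R f) {u : ℤ} : u + s ∈ bd D R f (θ + s) ↔ u ∈ bd D R f θ := by
  rw [h.mem_bd, h.mem_bd, h.perR, h.perf]
  exact and_congr_right fun _ => by omega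

theorem Is.pred (h : Is s D R f) :
    Is s D R fun u => max (f u - 1) (u - 1) :=
  ⟨h.perR, fun u => by rw [h.perf]; omega, fun u => le_max_right _ _,
    fun u => by have := h.hi u; omega⟩

theorem Is.exists_c3 (h : Is s D R f) (h1 : ∀ u, R u → u < f u ∧ R (f u))
    (h2 : ∀ u v, R u → R v → f u = f v → u = v) : ∃ g, C3 s D R f g := by
  classical
  have hs : (0 : ℤ) < s := by exact_mod_cast Nat.pos_of_ne_zero (NeZero.ne s)
  have hmod : ∀ x : ℤ, x % s = x + s * (-(x / s)) := fun x => by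
    have := Int.emod_add_mul_ediv x s
    linarith
  have hfin : {u : ℤ | 0 ≤ u ∧ u < s ∧ R u}.Finite :=
    (Set.finite_Ico (0 : ℤ) s).subset fun u hu => ⟨hu.1, hu.2.1⟩
  have hmaps : Set.MapsTo (fun u => f u % s) {u : ℤ | 0 ≤ u ∧ u < s ∧ R u}
      {u : ℤ | 0 ≤ u ∧ u < s ∧ R u} := fun u hu =>
    ⟨Int.emod_nonneg _ hs.ne', Int.emod_lt_of_pos _ hs, by
      show R (f u % s)
      rw [hmod, h.mulR]
      exact (h1 u hu.2.2).2⟩
  have hinj : Set.InjOn (fun u => f u % s) {u : ℤ | 0 ≤ u ∧ u < s ∧ R u} := by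
    intro u hu v hv e1
    have e2 : f u % s = f v % s := e1
    rw [hmod, hmod, ← h.mulf, ← h.mulf] at e2
    have e3 := h2 _ _ ((h.mulR _ _).2 hu.2.2) ((h.mulR _ _).2 hv.2.2) e2
    have e4 := congrArg (· % (s : ℤ)) e3
    simp only [Int.add_mul_emod_self_left] at e4
    rwa [Int.emod_eq_of_lt hu.1 hu.2.1, Int.emod_eq_of_lt hv.1 hv.2.1] at e4
  have hsurj : ∀ v, R v → ∃ u, R u ∧ f u = v := by
    intro v hv
    obtain ⟨u, hu, e1⟩ := ((hfin.injOn_iff_bijOn_of_mapsTo hmaps).1 hinj).surjOn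
      (show v % s ∈ {u : ℤ | 0 ≤ u ∧ u < s ∧ R u} from ⟨Int.emod_nonneg _ hs.ne',
        Int.emod_lt_of_pos _ hs, by rw [hmod, h.mulR]; exact hv⟩)
    have e2 : f u % s = v % s := e1
    rw [hmod, hmod] at e2
    refine ⟨u + s * (-(f u / s) + v / s), (h.mulR _ _).2 hu.2.2, ?_⟩
    rw [h.mulf]
    linarith
  choose! g hg hg' using hsurj
  exact ⟨g, h, fun u hu => (h1 u hu).1, fun u hu => (h1 u hu).2, hg,
    fun u hu => h2 _ _ (hg _ (h1 u hu).2) hu (hg' _ (h1 u hu).2), hg'⟩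

theorem C3.perg (h : C3 s D R f g) {v : ℤ} (hv : R v) : g (v + s) = g v + s := by
  have e1 := h.gf (g v + s) ((h.perR _).2 (h.Rg v hv))
  rwa [h.perf, h.fg v hv] at e1

theorem C3.glt (h : C3 s D R f g) {v : ℤ} (hv : R v) : g v < v := by
  have e1 := h.lt _ (h.Rg v hv)
  rwa [h.fg v hv] at e1

theorem C3.bd_of_not (h : C3 s D R f g) (hθ : ¬R θ) : bd D R f (θ - 1) = bd D R f θ := by
  ext u
  rw [h.toIs.mem_bd, h.toIs.mem_bd]
  refine and_congr_right fun hu => ?_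
  have e1 : u ≠ θ := fun e => hθ (e ▸ hu)
  have e2 : f u ≠ θ := fun e => hθ (e ▸ h.Rf u hu)
  omega

theorem C3.bd_step (h : C3 s D R f g) (hθ : R θ) :
    bd D R f θ = insert θ ((bd D R f (θ - 1)).erase (g θ)) ∧ g θ ∈ bd D R f (θ - 1) ∧
      θ ∉ bd D R f (θ - 1) := by
  have e0 := h.glt hθ
  refine ⟨?_, h.toIs.mem_bd.2 ⟨h.Rg θ hθ, by omega, by rw [h.fg θ hθ]; omega⟩,
    fun hc => by have := (h.toIs.mem_bd.1 hc).2.1; omega⟩
  ext u
  rw [mem_insert, mem_erase, h.toIs.mem_bd, h.toIs.mem_bd]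
  constructor
  · rintro ⟨h1, h2, h3⟩
    by_cases e1 : u = θ
    · exact Or.inl e1
    · refine Or.inr ⟨fun e2 => ?_, h1, by omega, by omega⟩
      rw [e2, h.fg θ hθ] at h3
      omega
  · rintro (rfl | ⟨h0, h1, h2, h3⟩)
    · exact ⟨hθ, le_rfl, h.lt _ hθ⟩
    · have e2 : f u ≠ θ := fun e => h0 (by rw [← e, h.gf u h1])
      exact ⟨h1, by omega, by omega⟩

theorem C3.card_bd (h : C3 s D R f g) (θ θ' : ℤ) : (bd D R f θ).card = (bd D R f θ').card := by
  have step : ∀ t : ℤ, (bd D R f t).card = (bd D R f (t - 1)).card := by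
    intro t
    by_cases ht : R t
    · obtain ⟨e1, e2, e3⟩ := h.bd_step ht
      rw [e1, card_insert_of_notMem fun hc => e3 (mem_of_mem_erase hc), card_erase_add_one e2]
    · rw [h.bd_of_not ht]
  have all : ∀ t : ℤ, (bd D R f t).card = (bd D R f 0).card := by
    intro t
    induction t using Int.induction_on with
    | zero => rfl
    | succ n ih => rw [step, add_sub_cancel_right, ih]
    | pred n ih => rw [← step, ih]
  rw [all θ, all θ']

theorem C3.ncard_clq (h : C3 s D R f g) (hθ : R θ) :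
    (clq R f θ).ncard = (bd D R f (-1)).card + 1 := by
  have e1 : clq R f θ = ↑(insert θ (bd D R f (θ - 1))) := by
    ext u
    rw [mem_coe, mem_insert, h.toIs.mem_bd]
    constructor
    · rintro ⟨h1, h2, h3⟩
      by_cases e : u = θ
      · exact Or.inl e
      · exact Or.inr ⟨h1, by omega, by omega⟩
    · rintro (rfl | ⟨h1, h2, h3⟩)
      · exact ⟨hθ, le_rfl, (h.lt _ hθ).le⟩
      · exact ⟨h1, by omega, by omega⟩
  rw [e1, Set.ncard_coe_finset, card_insert_of_notMem (h.bd_step hθ).2.2, h.card_bd (θ - 1) (-1)]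

theorem C3.clq_pred (h : C3 s D R f g) (θ : ℤ) :
    clq R (fun u => max (f u - 1) (u - 1)) θ = bd D R f θ := by
  ext u
  rw [mem_coe, h.toIs.mem_bd]
  exact and_congr_right fun _ => by
    show u ≤ θ ∧ θ ≤ max (f u - 1) (u - 1) ↔ _
    omega

section
variable {W W' : Type} [AddCommGroup W] [Module Ω W] [AddCommGroup W'] [Module Ω W']
  {a p p' a₁ p₁ p₁' z : ℤ → W}

theorem Tr.sub (h : Tr D R f e θ a p p') (h' : Tr D R f e θ a₁ p₁ p₁') :
    Tr D R f e θ (a - a₁) (p - p₁) (p' - p₁') := by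
  refine ⟨fun u hu => ?_, fun u h1 h2 h3 => ?_⟩
  · simp only [Pi.sub_apply, smul_sub, sum_sub_distrib]
    rw [h.1 u hu, h'.1 u hu]
    split_ifs <;> abel
  · have e1 := congrArg₂ (· - ·) (h.2 u h1 h2 h3) (h'.2 u h1 h2 h3)
    simp only [Pi.sub_apply, smul_sub, sum_sub_distrib]
    refine Eq.trans ?_ (e1.trans (sub_zero _))
    split_ifs <;> abel

theorem Tr.map (h : Tr D R f e θ a p p') (L : W →ₗ[Ω] W') :
    Tr D R f e θ (fun u => L (a u)) (fun u => L (p u)) fun u => L (p' u) := by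
  refine ⟨fun u hu => ?_, fun u h1 h2 h3 => ?_⟩
  · simp only [h.1 u hu, map_add, map_sum, map_smul, apply_ite L, map_zero]
  · simpa only [map_add, map_sum, map_smul, apply_ite L, map_zero] using
      congrArg L (h.2 u h1 h2 h3)

theorem Tr.congr (h : Tr D R f e θ a p p') (hi : Is s D R f) (ha : Amx q ε s D e)
    (hs : Se ε R f e) (h1 : ∀ v, v ∈ bd D R f (-1) ∨ (R v ∧ 0 ≤ v ∧ v ≤ θ) → a₁ v = a v)
    (h2 : ∀ u ∈ bd D R f (-1), p₁ u = p u) (h3 : ∀ u ∈ bd D R f θ, p₁' u = p' u)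
    (hθ : -1 ≤ θ) : Tr D R f e θ a₁ p₁ p₁' := by
  refine ⟨fun u hu => ?_, fun u k1 k2 k3 => ?_⟩
  · obtain ⟨k1, k2, k3⟩ := hi.mem_bd.1 hu
    rw [h2 u hu, h.1 u hu]
    refine congrArg₂ (· + ·) (sum_congr rfl fun v hv => ?_) ?_
    · by_cases e0 : e u v = 0
      · rw [e0, zero_smul, zero_smul]
      · rw [mem_Ioc] at hv
        rw [h1 v (Or.inr ⟨(hs.of_ne ha e0).2.1, by omega, hv.2⟩)]
    · split_ifs with e1
      · exact (h3 u (hi.mem_bd.2 ⟨k1, by omega, e1⟩)).symm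
      · rfl
  · refine Eq.trans ?_ (h.2 u k1 k2 k3)
    refine congrArg₂ (· + ·) (sum_congr rfl fun v hv => ?_) ?_
    · by_cases e0 : e u v = 0
      · rw [e0, zero_smul, zero_smul]
      · rw [mem_Icc] at hv
        obtain ⟨-, k4, -, k5, -⟩ := hs.of_ne ha e0
        by_cases e1 : 0 ≤ v
        · rw [h1 v (Or.inr ⟨k4, e1, hv.2⟩)]
        · rw [h1 v (Or.inl (hi.mem_bd.2 ⟨k4, by omega, by have := k5 (by omega); omega⟩))]
    · split_ifs with e1
      · exact h3 u (hi.mem_bd.2 ⟨k1, k3, e1⟩)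
      · rfl

theorem Is.tr_of_ew (h : Is s D R f) (ha : Amx q ε s D e) (hs : Se ε R f e) (hθ : -1 ≤ θ)
    (hz : ∀ u, 0 ≤ u → Ew D e z u = 0) : Tr D R f e θ z (Pv D e z (-1)) (Pv D e z θ) := by
  have key : ∀ u, u ≤ θ → (if θ < f u then Pv D e z θ u else 0) = Pv D e z θ u := by
    intro u hu
    split_ifs with e1
    · rfl
    · exact (Pv.zero hs z (by omega) (by omega)).symm
  refine ⟨fun u hu => ?_, fun u k1 k2 k3 => ?_⟩
  · rw [key u (by have := (h.mem_bd.1 hu).2.1; omega)]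
    obtain ⟨n, rfl⟩ : ∃ n : ℕ, θ = -1 + n := ⟨(θ + 1).toNat, by omega⟩
    clear key hθ
    induction n with
    | zero => simp
    | succ n ih =>
      have e1 : Ioc (-1 : ℤ) (-1 + (n + 1 : ℕ)) = insert (n : ℤ) (Ioc (-1 : ℤ) (-1 + n)) := by
        ext v
        simp only [mem_Ioc, mem_insert]
        omega
      have e2 := Pv.step (D := D) (e := e) z (θ := n) (u := u) (ha.bandZ_SB0 u n)
      rw [e1, sum_insert (by simp only [mem_Ioc]; omega), ih, show (-1 : ℤ) + n = n - 1 by ring, e2,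
        show (-1 : ℤ) + (n + 1 : ℕ) = n by push_cast; ring]
      abel
  · rw [key u k3]
    by_cases e1 : θ ≤ u + D
    · rw [← Ew.split z (by omega) e1]
      exact hz u k2
    · have e2 : Pv D e z θ u = 0 := by rw [Pv, Ioc_eq_empty (by omega), sum_empty]
      rw [e2, add_zero, ← hz u k2, Ew]
      refine (sum_subset (Icc_subset_Icc le_rfl (by omega)) fun v hv hv' => ?_).symm
      rw [mem_Icc] at hv hv'
      rw [ha.bandZ_SB0 u v (by omega), zero_smul]

/-- uniqueness of solutions -/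
theorem C3.tr_zero (h : C3 s D R f g) (ha : Amx q ε s D e) (hs : Se ε R f e) (hp : Piv R f e)
    (ht : Tr D R f e θ a p p') (h0 : ∀ u ∈ bd D R f (-1), a u = 0 ∧ p u = 0) (hθ : -1 ≤ θ) :
    (∀ v, R v → 0 ≤ v → v ≤ θ → a v = 0) ∧ ∀ u ∈ bd D R f θ, p' u = 0 := by
  have main : ∀ n : ℕ, ∀ v : ℤ, v < n → R v → 0 ≤ v → v ≤ θ → a v = 0 := by
    intro n
    induction n with
    | zero => exact fun v k1 _ k2 _ => by omega
    | succ n ih =>
      intro v k0 k1 k2 k3
      have hu := h.Rg v k1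
      have hlt := h.glt k1
      have hf := h.fg v k1
      have hhi := h.hi (g v)
      have hpiv : e (g v) v ≠ 0 := by
        have := hp _ hu
        rwa [hf] at this
      have other : ∀ w, w ≠ v → (0 ≤ w ∨ 0 ≤ g v) → e (g v) w • a w = 0 := by
        intro w hw hw0
        by_cases e0 : e (g v) w = 0
        · rw [e0, zero_smul]
        obtain ⟨-, k4, k5, k6, -⟩ := hs.of_ne ha e0
        have k7 : w < v := by
          by_cases e1 : g v ≤ w
          · have := k5 e1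
            omega
          · omega
        by_cases e1 : 0 ≤ w
        · rw [ih w (by push_cast at k0; omega) k4 e1 (by omega), smul_zero]
        · rw [(h0 w (h.toIs.mem_bd.2 ⟨k4, by omega, by have := k6 (by omega); omega⟩)).1,
            smul_zero]
      have fin : e (g v) v • a v = 0 := by
        by_cases e1 : 0 ≤ g v
        · have e2 := ht.2 (g v) hu e1 (by omega)
          rwa [if_neg (by omega), add_zero, sum_eq_single_of_mem v (mem_Icc.2 ⟨by omega, k3⟩)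
            fun w _ hw => other w hw (Or.inr e1)] at e2
        · have hb : g v ∈ bd D R f (-1) := h.toIs.mem_bd.2 ⟨hu, by omega, by omega⟩
          have e2 := ht.1 (g v) hb
          rw [if_neg (by omega), add_zero, (h0 _ hb).2,
            sum_eq_single_of_mem v (mem_Ioc.2 ⟨by omega, k3⟩)
              fun w hw' hw => other w hw (Or.inl (by have := (mem_Ioc.1 hw').1; omega))] at e2
          exact e2.symm
      exact (smul_eq_zero.1 fin).resolve_left hpiv
  have h1 : ∀ v, R v → 0 ≤ v → v ≤ θ → a v = 0 := fun v k1 k2 k3 =>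
    main (v.toNat + 1) v (by push_cast; omega) k1 k2 k3
  refine ⟨h1, fun u hu => ?_⟩
  obtain ⟨k1, k2, k3⟩ := h.toIs.mem_bd.1 hu
  have term : ∀ w, w ≤ θ → (0 ≤ w ∨ 0 ≤ u) → e u w • a w = 0 := by
    intro w hw hw0
    by_cases e0 : e u w = 0
    · rw [e0, zero_smul]
    obtain ⟨-, k4, -, k6, -⟩ := hs.of_ne ha e0
    by_cases e1 : 0 ≤ w
    · rw [h1 w k4 e1 hw, smul_zero]
    · rw [(h0 w (h.toIs.mem_bd.2 ⟨k4, by omega, by have := k6 (by omega); omega⟩)).1, smul_zero]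
  by_cases e1 : 0 ≤ u
  · have e2 := ht.2 u k1 e1 k2
    rwa [if_pos k3, sum_eq_zero fun w hw => term w (mem_Icc.1 hw).2 (Or.inr e1), zero_add] at e2
  · have hb : u ∈ bd D R f (-1) := h.toIs.mem_bd.2 ⟨k1, by omega, by omega⟩
    have e2 := ht.1 u hb
    rw [if_pos k3, (h0 _ hb).2, sum_eq_zero fun w hw => term w (mem_Ioc.1 hw).2
      (Or.inl (by have := (mem_Ioc.1 hw).1; omega)), zero_add] at e2
    exact e2.symm

theorem C3.ew_uni (h : C3 s D R f g) (ha : Amx q ε s D e) (hs : Se ε R f e) (hp : Piv R f e)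
    {z z' : ℤ → W} (hz : ∀ u, 0 ≤ u → Ew D e z u = 0) (hz' : ∀ u, 0 ≤ u → Ew D e z' u = 0)
    (h0 : ∀ u ∈ bd D R f (-1), z u = z' u ∧ Pv D e z (-1) u = Pv D e z' (-1) u) {v : ℤ}
    (hv : v ∈ bd D R f (-1) ∨ (R v ∧ 0 ≤ v)) : z v = z' v := by
  rcases hv with hv | ⟨k1, k2⟩
  · exact (h0 v hv).1
  have e1 := (h.toIs.tr_of_ew ha hs (θ := v) (by omega) hz).sub
    (h.toIs.tr_of_ew ha hs (θ := v) (by omega) hz')
  exact sub_eq_zero.1 ((h.tr_zero ha hs hp e1 (fun u hu => ⟨sub_eq_zero.2 (h0 u hu).1,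
    sub_eq_zero.2 (h0 u hu).2⟩) (by omega)).1 v k1 k2 le_rfl)

/-- sums only see the active places that meet the half line -/
theorem Is.ew_congr (h : Is s D R f) (ha : Amx q ε s D e) (hs : Se ε R f e) {z z' : ℤ → W}
    (h0 : ∀ v, v ∈ bd D R f (-1) ∨ (R v ∧ 0 ≤ v) → z v = z' v) :
    (∀ u, 0 ≤ u → Ew D e z u = Ew D e z' u) ∧ ∀ θ u, -1 ≤ θ → Pv D e z θ u = Pv D e z' θ u := by
  have term : ∀ u v, (0 ≤ v ∨ 0 ≤ u) → e u v • z v = e u v • z' v := by
    intro u v huv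
    by_cases e0 : e u v = 0
    · rw [e0, zero_smul, zero_smul]
    obtain ⟨-, k4, -, k6, -⟩ := hs.of_ne ha e0
    by_cases e1 : 0 ≤ v
    · rw [h0 v (Or.inr ⟨k4, e1⟩)]
    · rw [h0 v (Or.inl (h.mem_bd.2 ⟨k4, by omega, by have := k6 (by omega); omega⟩))]
  exact ⟨fun u hu => sum_congr rfl fun v _ => term u v (Or.inr hu),
    fun θ u hθ => sum_congr rfl fun v hv => term u v (Or.inl (by have := (mem_Ioc.1 hv).1; omega))⟩

theorem ew_map (L : W →ₗ[Ω] W') (z : ℤ → W) (u : ℤ) :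
    Ew D e (fun v => L (z v)) u = L (Ew D e z u) := by
  simp only [Ew, map_sum, map_smul]

theorem pv_map (L : W →ₗ[Ω] W') (z : ℤ → W) (θ u : ℤ) :
    Pv D e (fun v => L (z v)) θ u = L (Pv D e z θ u) := by
  simp only [Pv, map_sum, map_smul]

end

end Pool.Agent.CXD
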