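import Pool.Agent.P.MP_2ce3e7_ag.SB0

/-! Hyperbolic families. -/

set_option linter.unusedSectionVars false
set_option linter.unusedVariables false

open Function Matrix

noncomputable section

namespace Pool.Agent.CXD
open Finset

variable {k Ω : Type} [Field k] [Field Ω] [Algebra k Ω] {q : ℕ} {ε : ℤˣ} {s D : ℕ} [NeZero s]
  {R : ℤ → Prop} {f g : ℤ → ℤ} {ι : Type} [Fintype ι] {b : ι → Bool} {G : Gp Ω}
  {e : ℤ → ℤ → Ω} {θ : ℤ} [IsAlgClosed Ω]

/-- hyperbolic families -/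
def Hyb (ε : ℤˣ) (A : Finset ℤ) (z p : ℤ → ι ⊕ ι → Ω) : Prop :=
  ∀ u ∈ A, ∀ v ∈ A, Bf ε (z u) (z v) = 0 ∧ Bf ε (z u) (p v) = (if u = v then 1 else 0) ∧
    Bf ε (p u) (p v) = 0

/-- vectors and momenta at the gap after `θ` are hyperbolic -/
def Hy (ε : ℤˣ) (D : ℕ) (R : ℤ → Prop) (f : ℤ → ℤ) (e : ℤ → ℤ → Ω) (z : ℤ → ι ⊕ ι → Ω) (θ : ℤ) :
    Prop := Hyb (-ε) (bd D R f θ) z (Pv D e z θ)

/-- the vector with given products -/
def Yw (ε : ℤˣ) (A : Finset ℤ) (z p : ℤ → ι ⊕ ι → Ω) (a a' : ℤ → Ω) : ι ⊕ ι → Ω :=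
  ∑ u ∈ A, (a u • p u + (sg ε * a' u) • z u)

/-- the product with a fixed vector -/
def bfl (ε : ℤˣ) (y : ι ⊕ ι → Ω) : (ι ⊕ ι → Ω) →ₗ[Ω] Ω where
  toFun x := Bf ε x y
  map_add' x x' := Bf_add_left ε x x' y
  map_smul' t x := Bf_smul_left ε x y t

variable {A : Finset ℤ} {z p : ℤ → ι ⊕ ι → Ω} {a a' : ℤ → Ω}

theorem Hyb.z_yv (h : Hyb ε A z p) {u : ℤ} (hu : u ∈ A) : Bf ε (z u) (Yw ε A z p a a') = a u := by
  rw [Yw, Bf_sum_right, Finset.sum_eq_single_of_mem u hu]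
  · rw [Bf_add_right, Bf_smul_right, Bf_smul_right, (h u hu u hu).1, (h u hu u hu).2.1]
    simp
  · intro v hv hne
    rw [Bf_add_right, Bf_smul_right, Bf_smul_right, (h u hu v hv).1, (h u hu v hv).2.1,
      if_neg hne.symm]
    simp

theorem Hyb.p_yv (h : Hyb ε A z p) {u : ℤ} (hu : u ∈ A) : Bf ε (p u) (Yw ε A z p a a') = a' u := by
  rw [Yw, Bf_sum_right, Finset.sum_eq_single_of_mem u hu]
  · rw [Bf_add_right, Bf_smul_right, Bf_smul_right, (h u hu u hu).2.2, Bf_comm ε (z u) (p u),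
      (h u hu u hu).2.1, if_pos rfl]
    linear_combination a' u * sg_mul_self (Ω := Ω) ε
  · intro v hv hne
    rw [Bf_add_right, Bf_smul_right, Bf_smul_right, (h u hu v hv).2.2, Bf_comm ε (z v) (p u),
      (h v hv u hu).2.1, if_neg hne]
    simp

theorem Hyb.lion (h : Hyb ε A z p) : LinearIndepOn Ω z A := by
  rw [linearIndepOn_finset_iff]
  intro c hc u hu
  have e := congrArg (fun x => Bf ε x (p u)) hc
  simp only [Bf_zero_left] at e
  rw [Bf_sum_left, Finset.sum_eq_single_of_mem u hu] at e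
  · rwa [Bf_smul_left, (h u hu u hu).2.1, if_pos rfl, mul_one] at e
  · intro v hv hne
    rw [Bf_smul_left, (h v hv u hu).2.1, if_neg hne, mul_zero]

theorem Hyb.eq_zero (h : Hyb ε A z p) (hc : A.card = Fintype.card ι) {y : ι ⊕ ι → Ω}
    (h1 : ∀ u ∈ A, Bf ε (z u) y = 0 ∧ Bf ε (p u) y = 0) : y = 0 := by
  classical
  let T : (ι ⊕ ι → Ω) →ₗ[Ω] (A ⊕ A → Ω) :=
    { toFun := fun y => Sum.elim (fun u => Bf ε (z u) y) fun u => Bf ε (p u) y
      map_add' := fun x x' => funext fun j => by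
        rcases j with u | u <;> exact Bf_add_right ε _ x x'
      map_smul' := fun t x => funext fun j => by
        rcases j with u | u <;> exact Bf_smul_right ε _ x t }
  have hs : Surjective T := fun c => by
    refine ⟨Yw ε A z p (fun u => if hu : u ∈ A then c (.inl ⟨u, hu⟩) else 0)
      fun u => if hu : u ∈ A then c (.inr ⟨u, hu⟩) else 0, funext fun j => ?_⟩
    rcases j with u | u
    · exact (h.z_yv u.2).trans (dif_pos u.2)
    · exact (h.p_yv u.2).trans (dif_pos u.2)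
  have hi : Injective T := (LinearMap.injective_iff_surjective_of_finrank_eq_finrank (by
    simp only [Module.finrank_fintype_fun_eq_card, Fintype.card_sum, Fintype.card_coe, hc])).2 hs
  refine hi (funext fun j => ?_)
  rw [map_zero]
  rcases j with u | u
  exacts [(h1 u u.2).1, (h1 u u.2).2]

theorem Hyb.yv_eq (h : Hyb ε A z p) (hc : A.card = Fintype.card ι) (y : ι ⊕ ι → Ω) :
    Yw ε A z p (fun u => Bf ε (z u) y) (fun u => Bf ε (p u) y) = y :=
  sub_eq_zero.1 (h.eq_zero hc fun u hu =>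
    ⟨by rw [Bf_sub_right, h.z_yv hu, sub_self], by rw [Bf_sub_right, h.p_yv hu, sub_self]⟩)

theorem Hyb.bf_eq (h : Hyb ε A z p) (hc : A.card = Fintype.card ι) (y y' : ι ⊕ ι → Ω) :
    Bf ε y y' = ∑ u ∈ A, (sg ε * (Bf ε (p u) y * Bf ε (z u) y') + Bf ε (z u) y * Bf ε (p u) y') := by
  conv_lhs => rw [← h.yv_eq hc y', Yw, Bf_sum_right]
  refine Finset.sum_congr rfl fun u _ => ?_
  rw [Bf_add_right, Bf_smul_right, Bf_smul_right, Bf_comm ε (p u) y, Bf_comm ε (z u) y]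
  linear_combination (Bf ε (z u) y * Bf ε (p u) y') * sg_mul_self (Ω := Ω) ε

/-- one step of the recursion preserves hyperbolicity -/
theorem C3.hy_step (h : C3 s D R f g) (ha : Amx q ε s D e) (hs : Se ε R f e) (hp : Piv R f e)
    (h1 : Hy ε D R f e z (θ - 1)) (h2 : Ew D e z θ = 0) : Hy ε D R f e z θ := by
  classical
  have hst : ∀ u, Pv D e z θ u = Pv D e z (θ - 1) u - e u θ • z θ := fun u => by
    have h3 : u + D < θ → e u θ = 0 := fun h3 => by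
      by_contra h4
      have h5 := (hs.of_ne ha h4).2.2.1 (by omega)
      have := h.hi u
      omega
    rw [Pv.step z h3, add_sub_cancel_left]
  by_cases hθ : R θ
  swap
  · have h0 : Pv D e z θ = Pv D e z (θ - 1) := funext fun u => by
      have h3 : e u θ = 0 := by
        by_contra h3
        exact hθ (hs.of_ne ha h3).2.1
      rw [hst, h3, zero_smul, sub_zero]
    rw [Hy, h0, ← h.bd_of_not hθ]
    exact h1
  obtain ⟨hb, hw, hn⟩ := h.bd_step hθ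
  have hπ : e (g θ) θ ≠ 0 := by
    have := hp _ (h.Rg θ hθ)
    rwa [h.fg θ hθ] at this
  have hz : z θ = (e (g θ) θ)⁻¹ • Pv D e z (θ - 1) (g θ) := by
    have h3 := hst (g θ)
    rw [Pv.zero hs z (by linarith [h.glt hθ]) (h.fg θ hθ).le, eq_comm, sub_eq_zero] at h3
    rw [h3, smul_smul, inv_mul_cancel₀ hπ, one_smul]
  have hP : Pv D e z θ θ = (-e θ θ) • z θ - ∑ v ∈ bd D R f (θ - 1), e θ v • z v := by
    have h3 := Ew.split (D := D) (e := e) z (θ := θ) (u := θ) (by omega) (by omega)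
    have h4 : ∑ v ∈ insert θ (bd D R f (θ - 1)), e θ v • z v
        = ∑ v ∈ Icc (θ - D) θ, e θ v • z v := by
      refine Finset.sum_subset (fun v hv => ?_) fun v hv hv' => ?_
      · rcases Finset.mem_insert.1 hv with rfl | hv
        · exact Finset.mem_Icc.2 ⟨by omega, le_rfl⟩
        · obtain ⟨_, h5, h6⟩ := h.toIs.mem_bd.1 hv
          have := h.hi v
          exact Finset.mem_Icc.2 ⟨by omega, by omega⟩
      · by_contra h5
        obtain ⟨_, h6, _, h7, _⟩ := hs.of_ne ha (left_ne_zero_of_smul h5)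
        have h8 := (Finset.mem_Icc.1 hv).2
        have h9 := h7 h8
        rw [Finset.mem_insert, not_or, h.toIs.mem_bd] at hv'
        have := hv'.1
        exact hv'.2 ⟨h6, by omega, by omega⟩
    rw [h2, ← h4, Finset.sum_insert hn] at h3
    rw [neg_smul, eq_neg_of_add_eq_zero_right h3.symm]
    abel
  have e1 := sg_mul_self (Ω := Ω) ε
  have e2 := inv_mul_cancel₀ hπ
  have a1 : ∀ u ∈ bd D R f (θ - 1), Bf (-ε) (z u) (z θ)
      = (e (g θ) θ)⁻¹ * if u = g θ then 1 else 0 := fun u hu => by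
    rw [hz, Bf_smul_right, (h1 u hu _ hw).2.1]
  have a2 : ∀ u ∈ bd D R f (θ - 1), Bf (-ε) (Pv D e z (θ - 1) u) (z θ) = 0 := fun u hu => by
    rw [hz, Bf_smul_right, (h1 u hu _ hw).2.2, mul_zero]
  have a3 : Bf (-ε) (z θ) (z θ) = 0 := by
    nth_rewrite 1 [hz]
    rw [Bf_smul_left, a2 _ hw, mul_zero]
  have a4 : ∀ u ∈ bd D R f (θ - 1), Bf (-ε) (z u) (Pv D e z θ θ)
      = -e θ θ * ((e (g θ) θ)⁻¹ * if u = g θ then 1 else 0) := fun u hu => by
    rw [hP, Bf_sub_right, Bf_smul_right, a1 u hu, Bf_sum_right, Finset.sum_eq_zero, sub_zero]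
    intro v hv
    rw [Bf_smul_right, (h1 u hu v hv).1, mul_zero]
  have a5 : Bf (-ε) (z θ) (Pv D e z θ θ) = 1 := by
    rw [hP, Bf_sub_right, Bf_smul_right, a3, Bf_sum_right, Finset.sum_eq_single_of_mem _ hw]
    · rw [Bf_smul_right, Bf_comm (-ε) (z (g θ)) (z θ), a1 _ hw, if_pos rfl, sg_neg,
        ha.sym (g θ) θ]
      linear_combination (sg ε * sg ε) * e2 + e1
    · intro v hv hne
      rw [Bf_smul_right, Bf_comm (-ε) (z v) (z θ), a1 _ hv, if_neg hne]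
      simp
  have a6 : ∀ u ∈ bd D R f (θ - 1), Bf (-ε) (Pv D e z θ u) (Pv D e z θ θ) = 0 := fun u hu => by
    rw [hst u, Bf_sub_left, Bf_smul_left, a5, hP, Bf_sub_right, Bf_smul_right, a2 u hu,
      Bf_sum_right, Finset.sum_eq_single_of_mem _ hu]
    · rw [Bf_smul_right, Bf_comm (-ε) (z u), (h1 u hu u hu).2.1, if_pos rfl, sg_neg, ha.sym u θ]
      linear_combination e u θ * e1
    · intro v hv hne
      rw [Bf_smul_right, Bf_comm (-ε) (z v), (h1 v hv u hu).2.1, if_neg hne]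
      simp
  have a7 : Bf (-ε) (Pv D e z θ θ) (Pv D e z θ θ) = 0 := by
    nth_rewrite 1 [hP]
    rw [Bf_sub_left, Bf_smul_left, a5, Bf_sum_left, Finset.sum_eq_single_of_mem _ hw]
    · rw [Bf_smul_left, a4 _ hw, if_pos rfl, ha.sym (g θ) θ]
      linear_combination (sg ε * e θ θ) * e2 - ha.sym θ θ
    · intro v hv hne
      rw [Bf_smul_left, a4 _ hv, if_neg hne]
      simp
  intro u hu v hv
  rw [hb, Finset.mem_insert, Finset.mem_erase] at hu hv
  rcases hu with rfl | ⟨hu', hu⟩ <;> rcases hv with rfl | ⟨hv', hv⟩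
  · exact ⟨a3, by rw [a5, if_pos rfl], a7⟩
  · refine ⟨by rw [Bf_comm, a1 v hv, if_neg hv']; simp, ?_, by rw [Bf_comm, a6 v hv, mul_zero]⟩
    rw [hst v, Bf_sub_right, Bf_smul_right, a3, Bf_comm, a2 v hv,
      if_neg fun h3 : u = v => hn (h3 ▸ hv)]
    simp
  · refine ⟨by rw [a1 u hu, if_neg hu', mul_zero], ?_, a6 u hu⟩
    rw [a4 u hu, if_neg hu', if_neg fun h3 : u = v => hn (h3 ▸ hu)]
    simp
  · refine ⟨(h1 u hu v hv).1, ?_, ?_⟩
    · rw [hst v, Bf_sub_right, Bf_smul_right, a1 u hu, if_neg hu', (h1 u hu v hv).2.1]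
      simp
    · rw [hst u, hst v, Bf_sub_left, Bf_sub_right, Bf_sub_right, Bf_smul_left, Bf_smul_left,
        Bf_smul_right, Bf_smul_right, (h1 u hu v hv).2.2, a2 u hu, a3, Bf_comm (-ε) _ (z θ),
        a2 v hv]
      simp

theorem C3.hy_up (h : C3 s D R f g) (ha : Amx q ε s D e) (hs : Se ε R f e) (hp : Piv R f e)
    (h1 : Hy ε D R f e z (-1)) (h2 : ∀ u, 0 ≤ u → Ew D e z u = 0) (hθ : -1 ≤ θ) :
    Hy ε D R f e z θ := by
  induction θ, hθ using Int.leInduction with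
  | base => exact h1
  | succ n hn ih => exact h.hy_step ha hs hp (by rwa [add_sub_cancel_right]) (h2 _ (by omega))

variable [Sq k q]

theorem Is.hy_per (k : Type) [Field k] [Algebra k Ω] [Sq k q] (h : Is s D R f)
    (ha : Amx q ε s D e) (hz : Pe (FV q (-ε) b) s z) :
    Hy ε D R f e z (θ + s) ↔ Hy ε D R f e z θ := by
  have hi : ∀ x y : Ω, x ^ q = y ^ q ↔ x = y := fun x y => by
    rw [← fr_apply k, ← fr_apply k, (frq q).injective.eq_iff]
  have h0 : (0 : Ω) ^ q = 0 := by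
    rw [← fr_apply k]
    exact (sem_fr (k := k)).zero
  have h1 : ∀ x : Ω, x ^ q = 0 ↔ x = 0 := fun x => by
    nth_rewrite 1 [← h0]
    exact hi x 0
  have e1 := sg_mul_self (Ω := Ω) ε
  have key : ∀ u v, (Bf (-ε) (z (u + s)) (z (v + s)) = 0 ∧
      Bf (-ε) (z (u + s)) (Pv D e z (θ + s) (v + s)) = (if u + s = v + s then 1 else 0) ∧
      Bf (-ε) (Pv D e z (θ + s) (u + s)) (Pv D e z (θ + s) (v + s)) = 0) ↔
      (Bf (-ε) (z u) (z v) = 0 ∧ Bf (-ε) (z u) (Pv D e z θ v) = (if u = v then 1 else 0) ∧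
      Bf (-ε) (Pv D e z θ u) (Pv D e z θ v) = 0) := fun u v => by
    rw [Pv.per (sem_FV (k := k) (-ε) b) ha hz, Pv.per (sem_FV (k := k) (-ε) b) ha hz, hz, hz,
      ← neg_smul, ← neg_smul, Bf_smul_left, Bf_smul_right, Bf_smul_right, Bf_FV _ _ _ _ k,
      Bf_FV _ _ _ _ k, Bf_FV _ _ _ _ k, sg_neg]
    have hn : (-sg ε : Ω) ≠ 0 := neg_ne_zero.2 (sg_ne ε)
    refine and_congr ?_ (and_congr ?_ ?_)
    · rw [mul_eq_zero, or_iff_right hn, h1]
    · rw [← mul_assoc, neg_mul_neg, e1, one_mul, ← hi _ (if u = v then 1 else 0)]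
      simp only [add_left_inj]
      split_ifs
      · rw [one_pow]
      · rw [h0]
    · rw [mul_eq_zero, or_iff_right hn, mul_eq_zero, or_iff_right hn, mul_eq_zero,
        or_iff_right hn, h1]
  refine ⟨fun h2 u hu v hv => (key u v).1 (h2 _ (h.bd_per.2 hu) _ (h.bd_per.2 hv)),
    fun h2 u hu v hv => ?_⟩
  obtain ⟨u, rfl⟩ : ∃ u', u = u' + s := ⟨u - s, by ring⟩
  obtain ⟨v, rfl⟩ : ∃ v', v = v' + s := ⟨v - s, by ring⟩
  exact (key u v).2 (h2 _ (h.bd_per.1 hu) _ (h.bd_per.1 hv))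

theorem Pq.yv {α : Type} [Af Ω α] {P : α → Prop} {z p : α → ℤ → ι ⊕ ι → Ω} {a a' : α → ℤ → Ω}
    (hz : ∀ u, Pq k P fun x => z x u) (hp : ∀ u, Pq k P fun x => p x u)
    (ha : ∀ u, Pq k P fun x => a x u) (ha' : ∀ u, Pq k P fun x => a' x u) :
    Pq k P fun x => Yw ε A (z x) (p x) (a x) (a' x) :=
  Pq.vsum A fun u => ((ha u).vsmul (hp u)).vadd (((Pq.const _).mul (ha' u)).vsmul (hz u))

/-- periodic solutions that are hyperbolic -/
structure Ys (q : ℕ) (ε : ℤˣ) (b : ι → Bool) (s D : ℕ) (R : ℤ → Prop) (f : ℤ → ℤ)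
    (e : ℤ → ℤ → Ω) (z : ℤ → ι ⊕ ι → Ω) : Prop where
  am : Amx q ε s D e
  se : Se ε R f e
  piv : Piv R f e
  pe : Pe (FV q (-ε) b) s z
  acz : Acz R z
  ew : ∀ u, Ew D e z u = 0
  hy : ∀ θ, Hy ε D R f e z θ

/-- the variety of such solutions -/
def Yb (q : ℕ) (ε : ℤˣ) (b : ι → Bool) (s D : ℕ) (R : ℤ → Prop) (f : ℤ → ℤ)
    (y : Ecf Ω s D × (ZMod s → ι ⊕ ι → Ω)) : Prop :=
  Ys q ε b s D R f (ee q ε y.1) (pext (FV q (-ε) b) s y.2)

theorem C3.ys (k : Type) [Field k] [Algebra k Ω] [Sq k q] (h : C3 s D R f g) (ha : Amx q ε s D e)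
    (hs : Se ε R f e) (hp : Piv R f e) (hz : Pe (FV q (-ε) b) s z) (h1 : Acz R z)
    (h2 : ∀ u, 0 ≤ u → Ew D e z u = 0) (h3 : Hy ε D R f e z (-1)) : Ys q ε b s D R f e z :=
  ⟨ha, hs, hp, hz, h1, Ew.zero_of (sem_FV (k := k) (-ε) b) ha hz 0 fun u hu _ => h2 u hu,
    per_ind s (P := fun θ => Hy ε D R f e z θ) (fun θ => h.toIs.hy_per k ha hz) (-1)
      fun θ hθ _ => h.hy_up ha hs hp h3 h2 hθ⟩

/-- scalar solutions are products with a vector -/
theorem Ys.rep (hy : Ys q ε b s D R f e z) (h : C3 s D R f g) {p p' : ℤ → Ω} (hθ : -1 ≤ θ)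
    (ht : Tr D R f e θ a p p') :
    (∀ v, v ∈ bd D R f (-1) ∨ (R v ∧ 0 ≤ v ∧ v ≤ θ) →
      a v = Bf (-ε) (z v) (Yw (-ε) (bd D R f (-1)) z (Pv D e z (-1)) a p)) ∧
    ∀ u ∈ bd D R f θ,
      p' u = Bf (-ε) (Pv D e z θ u) (Yw (-ε) (bd D R f (-1)) z (Pv D e z (-1)) a p) := by
  have h1 := (h.toIs.tr_of_ew hy.am hy.se hθ fun u _ => hy.ew u).map
    (bfl (-ε) (Yw (-ε) (bd D R f (-1)) z (Pv D e z (-1)) a p))
  have h2 := h.tr_zero hy.am hy.se hy.piv (ht.sub h1) (fun u hu =>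
    ⟨sub_eq_zero.2 ((hy.hy (-1)).z_yv hu).symm, sub_eq_zero.2 ((hy.hy (-1)).p_yv hu).symm⟩) hθ
  refine ⟨fun v hv => ?_, fun u hu => sub_eq_zero.1 (h2.2 u hu)⟩
  rcases hv with hv | ⟨h3, h4, h5⟩
  · exact ((hy.hy (-1)).z_yv hv).symm
  · exact sub_eq_zero.1 (h2.1 v h3 h4 h5)

theorem Ys.tr (hy : Ys q ε b s D R f e z) (h : Is s D R f) (hθ : -1 ≤ θ) (y : ι ⊕ ι → Ω) :
    Tr D R f e θ (fun v => Bf (-ε) (z v) y) (fun u => Bf (-ε) (Pv D e z (-1) u) y)
      fun u => Bf (-ε) (Pv D e z θ u) y :=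
  (h.tr_of_ew hy.am hy.se hθ fun u _ => hy.ew u).map (bfl (-ε) y)

theorem Ys.eq_zero (hy : Ys q ε b s D R f e z) (h : C3 s D R f g)
    (hc : (bd D R f (-1)).card = Fintype.card ι) {y : ι ⊕ ι → Ω} (a : ℤ)
    (h1 : ∀ v, a ≤ v → Bf (-ε) (z v) y = 0) : y = 0 := by
  refine (hy.hy (a + D)).eq_zero ((h.card_bd _ _).trans hc) fun u hu => ⟨h1 u ?_, ?_⟩
  · obtain ⟨_, _, h2⟩ := h.toIs.mem_bd.1 hu
    have := h.hi u
    omega
  · rw [Pv, Bf_sum_left]
    refine Finset.sum_eq_zero fun v hv => ?_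
    have := (Finset.mem_Ioc.1 hv).1
    rw [Bf_smul_left, h1 v (by omega), mul_zero]

end Pool.Agent.CXD
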