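import Pool.Agent.P.MP_2ce3e7_ag.SB1

/-! The matrix is determined by the vectors. -/

set_option linter.unusedSectionVars false
set_option linter.unusedVariables false

open Function Matrix

noncomputable section

namespace Pool.Agent.CXD
open Finset

variable {k Ω : Type} [Field k] [Field Ω] [Algebra k Ω] {q : ℕ} {ε : ℤˣ} {s D : ℕ} [NeZero s]
  {R : ℤ → Prop} {f g : ℤ → ℤ} {ι : Type} [Fintype ι] {b : ι → Bool} {G : Gp Ω}
  {e : ℤ → ℤ → Ω} {θ : ℤ} [IsAlgClosed Ω]

/-- the recursion for the entries -/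
structure Er (ε : ℤˣ) (D : ℕ) (R : ℤ → Prop) (f g : ℤ → ℤ) (z : ℤ → ι ⊕ ι → Ω)
    (e : ℤ → ℤ → Ω) : Prop where
  rc : ∀ u v, R u → R v → u ≤ v → v ≤ f u → e u v * Bf (-ε) (z (g v)) (z v) +
    Bf (-ε) (z (g v)) (Pv D e z v u) = if u = g v then 1 else 0
  out : ∀ u v, u ≤ v → ¬(R u ∧ R v ∧ v ≤ f u) → e u v = 0
  sym : ∀ u v, v < u → e u v = sg ε * e v u

/-- orthogonal families with invertible pivots -/
structure Zo (ε : ℤˣ) (R : ℤ → Prop) (f g : ℤ → ℤ) (z : ℤ → ι ⊕ ι → Ω) : Prop where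
  ot : ∀ u v, R u → R v → u ≤ v → v < f u → Bf (-ε) (z u) (z v) = 0
  ne : ∀ v, R v → Bf (-ε) (z (g v)) (z v) ≠ 0

variable {z : ℤ → ι ⊕ ι → Ω} {e' : ℤ → ℤ → Ω}

theorem Er.uni (h : Er ε D R f g z e) (h' : Er ε D R f g z e') (hz : Zo ε R f g z) : e = e' := by
  have key : ∀ (u : ℤ) (n : ℕ) (v : ℤ), u ≤ v → f u - n < v → e u v = e' u v := by
    intro u n
    induction n with
    | zero =>
      intro v h1 h2
      rw [h.out u v h1 fun c => by omega, h'.out u v h1 fun c => by omega]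
    | succ n ih =>
      intro v h1 h2
      by_cases c : R u ∧ R v ∧ v ≤ f u
      · have e1 : Pv D e z v u = Pv D e' z v u := sum_congr rfl fun w hw => by
          have := (mem_Ioc.1 hw).1
          rw [ih w (by omega) (by omega)]
        have a := h.rc u v c.1 c.2.1 h1 c.2.2
        rw [e1, ← h'.rc u v c.1 c.2.1 h1 c.2.2, add_left_inj] at a
        exact mul_right_cancel₀ (hz.ne v c.2.1) a
      · rw [h.out u v h1 c, h'.out u v h1 c]
  have key' : ∀ u v, u ≤ v → e u v = e' u v := fun u v h1 =>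
    key u (f u - v + 1).toNat v h1 (by omega)
  funext u v
  rcases le_or_gt u v with c | c
  · exact key' u v c
  · rw [h.sym u v c, h'.sym u v c, key' v u c.le]

theorem Ys.zs (hy : Ys q ε b s D R f e z) (h : C3 s D R f g) : Zo ε R f g z := by
  refine ⟨fun u v hu hv h1 h2 => (hy.hy v u (h.toIs.mem_bd.2 ⟨hu, h1, h2⟩) v
    (h.toIs.mem_bd.2 ⟨hv, le_rfl, h.lt v hv⟩)).1, fun v hv h0 => ?_⟩
  have a := (h.bd_step hv).2.1
  have b := (hy.hy (v - 1) _ a _ a).2.1
  have := h.glt hv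
  rw [Pv.step z fun c => hy.se _ _ this.le fun d => by have := h.hi (g v); have := d.2.2.1; omega,
    Pv.zero hy.se z (by omega) (h.fg v hv).le, add_zero,
    Bf_smul_right, h0, mul_zero, if_pos rfl] at b
  exact zero_ne_one b

theorem Ys.er (hy : Ys q ε b s D R f e z) (h : C3 s D R f g) : Er ε D R f g z e := by
  refine ⟨fun u v hu hv h1 h2 => ?_, fun u v h1 h2 => hy.se u v h1 fun c => h2 ⟨c.1, c.2.1, c.2.2.1⟩,
    fun u v _ => hy.am.sym v u⟩
  have a := (h.bd_step hv).2.1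
  have hg := h.glt hv
  rw [← Bf_smul_right, ← Bf_add_right,
    ← Pv.step z fun c => by have := h.hi u; omega]
  rcases h1.lt_or_eq with h1 | rfl
  · rw [(hy.hy (v - 1) _ a u (h.toIs.mem_bd.2 ⟨hu, by omega, by omega⟩)).2.1]
    exact if_congr eq_comm rfl rfl
  · have b := hy.ew u
    rw [Ew.split z (θ := u - 1) (by omega) (by omega)] at b
    have c := congrArg (Bf (-ε) (z (g u))) b
    rw [Bf_add_right, Bf_zero_right, Bf_sum_right, sum_eq_zero, zero_add] at c
    · rw [c, if_neg hg.ne']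
    intro w hw
    have := (mem_Icc.1 hw).2
    rw [Bf_smul_right]
    by_cases h0 : e u w = 0
    · rw [h0, zero_mul]
    obtain ⟨-, d1, -, d2, -⟩ := hy.se.of_ne hy.am h0
    have := d2 (by omega)
    rw [(hy.hy (u - 1) _ a w (h.toIs.mem_bd.2 ⟨d1, by omega, by omega⟩)).1, mul_zero]

theorem Er.pv0_SB2 (he : Er ε D R f g z e) {θ u : ℤ} (h1 : u ≤ θ + 1) (h2 : f u ≤ θ) :
    Pv D e z θ u = 0 := sum_eq_zero fun w hw => by
  have := (mem_Ioc.1 hw).1
  rw [he.out u w (by omega) fun c => by omega, zero_smul]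

theorem Er.step_SB2 (he : Er ε D R f g z e) (h : C3 s D R f g) (θ u : ℤ) :
    Pv D e z (θ - 1) u = e u θ • z θ + Pv D e z θ u :=
  Pv.step z fun c => he.out u θ (by omega) fun d => by have := h.hi u; omega

theorem Er.piv (he : Er ε D R f g z e) (h : C3 s D R f g) {u : ℤ} (hu : R u) :
    e u (f u) * Bf (-ε) (z u) (z (f u)) = 1 := by
  have := h.lt u hu
  have a := he.rc u (f u) hu (h.Rf u hu) this.le le_rfl
  rwa [h.gf u hu, he.pv0_SB2 (by omega) le_rfl, Bf_zero_right, add_zero, if_pos rfl] at a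

theorem Er.zp_SB2 (he : Er ε D R f g z e) (h : C3 s D R f g) (hz : Zo ε R f g z) {u a θ : ℤ}
    (hu : R u) (ha : R a) (h1 : u ≤ θ + 1) (h2 : a ≤ θ + 1) (h3 : θ < f a) :
    Bf (-ε) (z a) (Pv D e z θ u) = if a = u then 1 else 0 := by
  obtain ⟨n, rfl⟩ : ∃ n : ℕ, θ = f a - 1 - n := ⟨(f a - 1 - θ).toNat, by omega⟩
  clear h3
  induction n with
  | zero =>
    rw [Nat.cast_zero, sub_zero] at h1 ⊢
    by_cases c : f a ≤ f u
    · have b := he.rc u (f a) hu (h.Rf a ha) (by omega) c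
      rw [h.gf a ha] at b
      rw [he.step_SB2 h, Bf_add_right, Bf_smul_right, b]
      exact if_congr eq_comm rfl rfl
    · rw [he.pv0_SB2 h1 (by omega), Bf_zero_right, if_neg fun d => c (by rw [d])]
  | succ n ih =>
    rw [Nat.cast_succ, ← sub_sub] at h1 h2 ⊢
    rw [he.step_SB2 h, Bf_add_right, Bf_smul_right, ih (by omega) (by omega), add_eq_right]
    by_cases c : R (f a - 1 - n)
    · rw [hz.ot a _ ha c (by omega) (by omega), mul_zero]
    · rw [he.out u _ (by omega) fun d => c d.2.1, zero_mul]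

theorem Er.pp_SB2 (he : Er ε D R f g z e) (h : C3 s D R f g) (hz : Zo ε R f g z) {u a θ : ℤ}
    (hu : R u) (ha : R a) (h1 : u ≤ θ) (h2 : a ≤ θ) :
    Bf (-ε) (Pv D e z θ a) (Pv D e z θ u) = 0 := by
  have key : ∀ (n : ℕ) (θ : ℤ), u ≤ θ → a ≤ θ → f u - n ≤ θ →
      Bf (-ε) (Pv D e z θ a) (Pv D e z θ u) = 0 := by
    intro n
    induction n with
    | zero =>
      intro θ h1 h2 h3
      rw [he.pv0_SB2 (u := u) (by omega) (by omega), Bf_zero_right]
    | succ n ih =>
      intro θ h1 h2 h3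
      obtain ⟨θ, rfl⟩ : ∃ t, θ = t - 1 := ⟨θ + 1, by ring⟩
      rw [he.step_SB2 h, he.step_SB2 h, Bf_add_left, Bf_add_right, Bf_add_right,
        ih θ (by omega) (by omega) (by omega)]
      simp only [Bf_smul_left, Bf_smul_right]
      by_cases c : R θ
      · have d := h.lt θ c
        rw [hz.ot θ θ c c le_rfl d, Bf_comm _ (z θ) (Pv D e z θ a),
          he.zp_SB2 h hz hu c (by omega) (by omega) d, he.zp_SB2 h hz ha c (by omega) (by omega) d,
          if_neg (by omega), if_neg (by omega)]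
        ring
      · rw [he.out u _ (by omega) fun d => c d.2.1, he.out a _ (by omega) fun d => c d.2.1]
        ring
  exact key (f u - θ).toNat θ h1 h2 (by omega)

theorem Er.hy (he : Er ε D R f g z e) (h : C3 s D R f g) (hz : Zo ε R f g z) (θ : ℤ) :
    Hy ε D R f e z θ := by
  intro u hu v hv
  obtain ⟨a1, a2, a3⟩ := h.toIs.mem_bd.1 hu
  obtain ⟨b1, b2, b3⟩ := h.toIs.mem_bd.1 hv
  refine ⟨?_, he.zp_SB2 h hz b1 a1 (by omega) (by omega) a3, he.pp_SB2 h hz b1 a1 b2 a2⟩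
  rcases le_total u v with c | c
  · exact hz.ot u v a1 b1 c (by omega)
  · rw [Bf_comm, hz.ot v u b1 a1 c (by omega), mul_zero]

theorem Er.low_SB2 (he : Er ε D R f g z e) (h : C3 s D R f g) {v w : ℤ}
    (hw : w ∈ Icc (v - D) (v - 1)) : e v w = 0 ∨ w ∈ bd D R f (v - 1) := by
  have := (mem_Icc.1 hw).2
  by_cases c : R w ∧ R v ∧ v ≤ f w
  · exact Or.inr (h.toIs.mem_bd.2 ⟨c.1, this, by omega⟩)
  · exact Or.inl (by rw [he.sym v w (by omega), he.out w v (by omega) c, mul_zero])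

theorem Er.zs_SB2 (he : Er ε D R f g z e) (h : C3 s D R f g) (hz : Zo ε R f g z) {v a : ℤ}
    (ha : a ∈ bd D R f (v - 1)) : Bf (-ε) (z a) (∑ w ∈ Icc (v - D) (v - 1), e v w • z w) = 0 := by
  rw [Bf_sum_right]
  refine sum_eq_zero fun w hw => ?_
  rw [Bf_smul_right]
  rcases he.low_SB2 h hw with c | c
  · rw [c, zero_mul]
  · rw [(he.hy h hz _ a ha w c).1, mul_zero]

theorem Er.ew (he : Er ε D R f g z e) (h : C3 s D R f g) (hz : Zo ε R f g z)
    (hc : (bd D R f (-1)).card = Fintype.card ι) (v : ℤ) : Ew D e z v = 0 := by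
  by_cases hv : R v
  swap
  · refine sum_eq_zero fun w _ => ?_
    rcases le_or_gt v w with c | c
    · rw [he.out v w c fun d => hv d.1, zero_smul]
    · rw [he.sym v w c, he.out w v c.le fun d => hv d.2.1, mul_zero, zero_smul]
  have d := h.lt v hv
  refine (he.hy h hz (v - 1)).eq_zero ((h.card_bd _ _).trans hc) fun a ha => ?_
  obtain ⟨a1, a2, a3⟩ := h.toIs.mem_bd.1 ha
  have := h.hi a
  rw [Ew.split z (θ := v - 1) (by omega) (by omega), Bf_add_right, Bf_add_right,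
    he.zs_SB2 h hz ha, he.zp_SB2 h hz hv a1 (by omega) (by omega) a3, if_neg (by omega),
    Bf_sum_right, sum_eq_single_of_mem a (mem_Icc.2 ⟨by omega, a2⟩)]
  · refine ⟨add_zero _, ?_⟩
    rw [Bf_smul_right, Bf_comm _ (z a), (he.hy h hz _ a ha a ha).2.1, if_pos rfl,
      he.step_SB2 h, he.step_SB2 h, Bf_add_left, Bf_add_right, Bf_add_right,
      he.pp_SB2 h hz hv a1 le_rfl (by omega)]
    simp only [Bf_smul_left, Bf_smul_right]
    rw [hz.ot v v hv hv le_rfl d, Bf_comm _ (z v) (Pv D e z v a),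
      he.zp_SB2 h hz hv hv (by omega) (by omega) d, he.zp_SB2 h hz a1 hv (by omega) (by omega) d,
      if_pos rfl, if_neg (by omega), he.sym v a (by omega), sg_neg]
    linear_combination (-e a v) * sg_mul_self (Ω := Ω) ε
  · intro w hw hne
    rw [Bf_smul_right]
    rcases he.low_SB2 h hw with c | c
    · rw [c, zero_mul]
    · rw [Bf_comm _ (z w), (he.hy h hz _ w c a ha).2.1, if_neg hne, mul_zero, mul_zero]

theorem Er.se (he : Er ε D R f g z e) (h2 : (2 : Ω) ≠ 0) (h : C3 s D R f g) (hz : Zo ε R f g z)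
    (hc : (bd D R f (-1)).card = Fintype.card ι) : Se ε R f e := by
  intro u v h1 h3
  by_cases c : R u ∧ R v ∧ v ≤ f u
  swap
  · exact he.out u v h1 c
  have h4 : ¬(u = v → ε = 1) := fun d => h3 ⟨c.1, c.2.1, c.2.2, d⟩
  obtain ⟨rfl, h5⟩ := Classical.not_imp.1 h4
  obtain rfl := (Int.units_eq_one_or ε).resolve_left h5
  have hv := c.1
  have d := h.lt u hv
  have a := he.ew h hz hc u
  rw [Ew.split z (θ := u - 1) (by omega) (by omega)] at a
  have b : Bf (- -1) (Pv D e z (u - 1) u) (Pv D e z (u - 1) u) = 0 := by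
    rw [eq_neg_of_add_eq_zero_right a, ← neg_one_smul Ω, Bf_smul_left, Bf_smul_right, Bf_sum_left,
      sum_eq_zero, mul_zero, mul_zero]
    intro w hw
    rw [Bf_smul_left]
    rcases he.low_SB2 h hw with c | c
    · rw [c, zero_mul]
    · rw [he.zs_SB2 h hz c, mul_zero]
  rw [he.step_SB2 h, Bf_add_left, Bf_add_right, Bf_add_right,
    he.pp_SB2 h hz hv hv le_rfl le_rfl] at b
  simp only [Bf_smul_left, Bf_smul_right] at b
  rw [hz.ot u u hv hv le_rfl d, Bf_comm _ (z u) (Pv D e z u u),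
    he.zp_SB2 h hz hv hv (by omega) (by omega) d, if_pos rfl, neg_neg, sg_one] at b
  exact (mul_eq_zero.1 (show 2 * e u u = 0 by linear_combination b)).resolve_left h2

end Pool.Agent.CXD
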