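import Pool.Agent.P.MP_2ce3e7_ag.SW0

/-! Normal forms of semilinear similitudes. -/

set_option linter.unusedSectionVars false
set_option linter.unusedVariables false

open Function Matrix

noncomputable section

namespace Pool.Agent.CXD
variable {k Ω : Type} [Field k] [Field Ω] [Algebra k Ω] {q : ℕ} [Sq k q] [IsAlgClosed Ω]

/-- a form with a semilinear similitude -/
structure Dt_SW1 (q : ℕ) (s : Ω) {V : Type} [AddCommGroup V] [Module Ω V]
    (B : V →ₗ[Ω] V →ₗ[Ω] Ω) (Φ : V → V) : Prop where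
  add : ∀ x y, Φ (x + y) = Φ x + Φ y
  smul : ∀ (t : Ω) x, Φ (t • x) = t ^ q • Φ x
  symm : ∀ x y, B y x = s * B x y
  nd : ∀ x, (∀ y, B x y = 0) → x = 0
  frb : ∀ x y, B (Φ x) (Φ y) = s * B x y ^ q
  ss : s * s = 1
  pos : q ≠ 0

/-- hyperbolic systems -/
structure Hs_SW1 (s : Ω) {V ι : Type} [AddCommGroup V] [Module Ω V]
    (B : V →ₗ[Ω] V →ₗ[Ω] Ω) (Φ : V → V) (b : ι → Bool) (e f : ι → V) : Prop where
  ee : ∀ i j, B (e i) (e j) = 0
  ff : ∀ i j, B (f i) (f j) = 0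
  ef1 : ∀ i, B (e i) (f i) = 1
  ef0 : ∀ i j, i ≠ j → B (e i) (f j) = 0
  pe : ∀ i, Φ (e i) = if b i then f i else e i
  pf : ∀ i, Φ (f i) = if b i then e i else s • f i

section
variable {s : Ω} {V : Type} [AddCommGroup V] [Module Ω V] {B : V →ₗ[Ω] V →ₗ[Ω] Ω} {Φ : V → V}

theorem Dt_SW1.zero (h : Dt_SW1 q s B Φ) : Φ 0 = 0 := by
  have := h.add 0 0
  rw [add_zero] at this
  exact left_eq_add.1 this

theorem Dt_SW1.sum (h : Dt_SW1 q s B Φ) {ι : Type} (S : Finset ι) (x : ι → V) :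
    Φ (∑ i ∈ S, x i) = ∑ i ∈ S, Φ (x i) :=
  map_sum (AddMonoidHom.mk' Φ h.add) x S

theorem Dt_SW1.sne (h : Dt_SW1 q s B Φ) : s ≠ 0 := left_ne_zero_of_mul_eq_one h.ss

theorem Dt_SW1.inj (h : Dt_SW1 q s B Φ) : Injective Φ := by
  refine (injective_iff_map_eq_zero (AddMonoidHom.mk' Φ h.add)).2 fun x hx => h.nd x fun y => ?_
  have e := h.frb x y
  have hx' : Φ x = 0 := hx
  rw [hx', map_zero, LinearMap.zero_apply] at e
  exact pow_eq_zero_iff h.pos |>.1 ((mul_eq_zero.1 e.symm).resolve_left h.sne)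

theorem Dt_SW1.orth (h : Dt_SW1 q s B Φ) {x y : V} (e : B x y = 0) : B (Φ x) (Φ y) = 0 := by
  rw [h.frb, e, zero_pow h.pos, mul_zero]

/-- fixed vectors in a stable subspace -/
theorem Dt_SW1.fixd (k : Type) [Field k] [Algebra k Ω] [Sq k q] [Module.Finite Ω V]
    (h : Dt_SW1 q s B Φ) (W : Submodule Ω V) (hW : ∀ x ∈ W, Φ x ∈ W) (l : V →ₗ[Ω] Ω) {x : V}
    (hx : x ∈ W) (hl : l x ≠ 0) : ∃ y ∈ W, Φ y = y ∧ l y ≠ 0 := by
  by_contra hc
  push Not at hc
  have e := gl_lang (Ω := Ω) k (V := W) (fun y => ⟨Φ y, hW y y.2⟩)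
    (fun a c => Subtype.ext (h.add a c)) (fun t a => Subtype.ext (h.smul t a))
    (fun a c hac => Subtype.ext (h.inj (congrArg Subtype.val hac)))
  have e2 : Submodule.span Ω {y : W | (⟨Φ y, hW y y.2⟩ : W) = y} ≤
      LinearMap.ker (l.comp W.subtype) :=
    Submodule.span_le.2 fun y hy => hc y y.2 (congrArg Subtype.val hy)
  rw [e] at e2
  exact hl (e2 (Submodule.mem_top (x := ⟨x, hx⟩)))

theorem Dt_SW1.fixd0 (k : Type) [Field k] [Algebra k Ω] [Sq k q] [Module.Finite Ω V]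
    (h : Dt_SW1 q s B Φ) (W : Submodule Ω V) (hW : ∀ x ∈ W, Φ x ∈ W) (h0 : W ≠ ⊥) :
    ∃ y ∈ W, Φ y = y ∧ y ≠ 0 := by
  obtain ⟨x, hx, hx0⟩ := Submodule.exists_mem_ne_zero_of_ne_bot h0
  obtain ⟨z, hz⟩ : ∃ z, B x z ≠ 0 := by
    by_contra hc
    push Not at hc
    exact hx0 (h.nd x hc)
  obtain ⟨y, hy, e, hl⟩ := h.fixd k W hW (B.flip z) hx hz
  exact ⟨y, hy, e, fun e0 => hl (by rw [e0, map_zero])⟩

/-- completion of fixed isotropic vectors -/
theorem Dt_SW1.dual (k : Type) [Field k] [Algebra k Ω] [Sq k q] [Module.Finite Ω V]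
    (h : Dt_SW1 q s B Φ) (h2 : (2 : Ω) ≠ 0) {κ : Type} [Fintype κ] {u : κ → V}
    (h3 : LinearIndependent Ω u) (h4 : ∀ a, Φ (u a) = u a) (h5 : ∀ a a', B (u a) (u a') = 0) :
    ∃ f, Hs_SW1 s B Φ (fun _ => false) u f := by
  classical
  have hq : Su k q := Sq.su
  have hl : LinearIndependent Ω (B ∘ u) :=
    h3.map' B (LinearMap.ker_eq_bot'.2 fun x hx => h.nd x fun y => by rw [hx]; rfl)
  have key (a : κ) : ∃ g, B (u a) g = 1 ∧ (∀ a', a' ≠ a → B (u a') g = 0) ∧ Φ g = s • g := by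
    let W : Submodule Ω V := ⨅ i : {i // i ≠ a}, LinearMap.ker (B (u i))
    have hm (x : V) : x ∈ W ↔ ∀ a', a' ≠ a → B (u a') x = 0 := by
      simp only [W, Submodule.mem_iInf, LinearMap.mem_ker, Subtype.forall]
    obtain ⟨x, hx, hx0⟩ : ∃ x ∈ W, B (u a) x ≠ 0 := by
      by_contra hc
      push Not at hc
      have := mem_span_of_iInf_ker_le_ker (L := fun i : {i // i ≠ a} => B (u i)) (K := B (u a)) hc
      refine hl.notMem_span_image (s := {i | i ≠ a}) (x := a) (fun e => e rfl) ?_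
      rwa [Set.image_eq_range]
    obtain ⟨y, hy, e, hc⟩ := h.fixd k W
      (fun x hx => (hm _).2 fun a' ha => by rw [← h4 a']; exact h.orth ((hm x).1 hx a' ha))
      (B (u a)) hx hx0
    have e1 := h.frb (u a) y
    rw [h4, e] at e1
    refine ⟨(B (u a) y)⁻¹ • y, by rw [map_smul, smul_eq_mul, inv_mul_cancel₀ hc],
      fun a' ha => by rw [map_smul, (hm y).1 hy a' ha, smul_zero], ?_⟩
    rw [h.smul, e, smul_smul, inv_pow]
    congr 1
    have e2 : B (u a) y ^ q = s * B (u a) y := by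
      linear_combination (-s) * e1 - B (u a) y ^ q * h.ss
    rw [e2, mul_inv, inv_eq_of_mul_eq_one_right h.ss]
  choose g g1 g0 gp using key
  have gu (a c : κ) : B (u a) (g c) = if a = c then 1 else 0 := by
    split_ifs with e
    · rw [e, g1]
    · exact g0 c a e
  have gg (a c : κ) : B (g a) (g c) ^ q = s * B (g a) (g c) := by
    have e := h.frb (g a) (g c)
    simp only [gp, map_smul, LinearMap.smul_apply, smul_eq_mul] at e
    linear_combination (-s) * e + (s * B (g a) (g c) - B (g a) (g c) ^ q) * h.ss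
  have fu (a c : κ) : B (u a) (g c + ∑ d, (-(2⁻¹ * B (g c) (g d))) • u d) =
      if a = c then 1 else 0 := by
    simp only [map_add, map_sum, map_smul, h5, smul_zero, Finset.sum_const_zero, add_zero, gu]
  refine ⟨fun a => g a + ∑ d, (-(2⁻¹ * B (g a) (g d))) • u d, h5, fun a c => ?_,
    fun a => by rw [fu, if_pos rfl], fun a c e => by rw [fu, if_neg e], fun a => h4 a, fun a => ?_⟩
  · rw [map_add B, LinearMap.add_apply, map_sum B, LinearMap.sum_apply]
    simp only [map_smul, LinearMap.smul_apply, fu, smul_eq_mul, mul_ite, mul_one, mul_zero,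
      Finset.sum_ite_eq', Finset.mem_univ, if_true]
    rw [map_add, map_sum]
    simp only [map_smul, h.symm (u _) (g a), gu, smul_eq_mul, mul_ite, mul_one, mul_zero,
      Finset.sum_ite_eq', Finset.mem_univ, if_true]
    rw [h.symm (g a) (g c)]
    have : (2 : Ω)⁻¹ * 2 = 1 := inv_mul_cancel₀ h2
    linear_combination (-B (g a) (g c)) * this - 2⁻¹ * B (g a) (g c) * h.ss
  · simp only [h.add, h.sum, h.smul, h4, gp, hq.neg_pow, mul_pow, inv_pow, two_pow_eq k, gg,
      smul_add, Finset.smul_sum, smul_smul, Bool.false_eq_true, if_false]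
    congr 1
    exact Finset.sum_congr rfl fun d _ => by congr 1; ring

/-- the orthogonal of a hyperbolic system -/
theorem Dt_SW1.split [Module.Finite Ω V] (h : Dt_SW1 q s B Φ) {κ : Type} [Fintype κ]
    {b : κ → Bool} {e f : κ → V} (H : Hs_SW1 s B Φ b e f) :
    ∃ (W : Submodule Ω V) (hW : ∀ x ∈ W, Φ x ∈ W), (∀ x ∈ W, ∀ i, B (e i) x = 0 ∧ B (f i) x = 0) ∧
      Dt_SW1 q s (B.compl₁₂ W.subtype W.subtype) (fun x : W => ⟨Φ x, hW x x.2⟩) ∧
      Module.finrank Ω W + 2 * Fintype.card κ = Module.finrank Ω V := by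
  classical
  let L : V →ₗ[Ω] (κ → Ω) × (κ → Ω) :=
    (LinearMap.pi fun i => B (e i)).prod (LinearMap.pi fun i => B (f i))
  have hm (x : V) : x ∈ LinearMap.ker L ↔ ∀ i, B (e i) x = 0 ∧ B (f i) x = 0 := by
    simp only [L, LinearMap.ker_prod, LinearMap.ker_pi, Submodule.mem_inf, Submodule.mem_iInf,
      LinearMap.mem_ker, forall_and]
  have ef (a c : κ) : B (e a) (f c) = if a = c then 1 else 0 := by
    split_ifs with e
    · rw [e, H.ef1]
    · exact H.ef0 a c e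
  have l1 (x y : κ → Ω) (i : κ) : B (e i) (∑ j, x j • f j + ∑ j, (s * y j) • e j) = x i := by
    simp only [map_add, map_sum, map_smul, H.ee, ef, smul_eq_mul, mul_ite, mul_one, mul_zero,
      Finset.sum_ite_eq, Finset.mem_univ, if_true, Finset.sum_const_zero, add_zero]
  have l2 (x y : κ → Ω) (i : κ) : B (f i) (∑ j, x j • f j + ∑ j, (s * y j) • e j) = y i := by
    simp only [map_add, map_sum, map_smul, H.ff, h.symm (e _) (f i), ef, smul_eq_mul, mul_ite,
      mul_one, mul_zero, Finset.sum_ite_eq', Finset.mem_univ, if_true, Finset.sum_const_zero,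
      zero_add]
    linear_combination y i * h.ss
  have hW : ∀ x ∈ LinearMap.ker L, Φ x ∈ LinearMap.ker L := by
    intro x hx
    refine (hm _).2 fun i => ?_
    have a1 := h.orth ((hm x).1 hx i).1
    have a2 := h.orth ((hm x).1 hx i).2
    rw [H.pe] at a1
    rw [H.pf] at a2
    cases hb : b i
    · simp only [hb, Bool.false_eq_true, if_false, map_smul, LinearMap.smul_apply, smul_eq_mul]
        at a1 a2
      exact ⟨a1, (mul_eq_zero.1 a2).resolve_left h.sne⟩
    · simp only [hb, if_true] at a1 a2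
      exact ⟨a2, a1⟩
  refine ⟨LinearMap.ker L, hW, fun x hx => (hm x).1 hx, ⟨fun x y => Subtype.ext (h.add x y),
    fun t x => Subtype.ext (h.smul t x), fun x y => h.symm x y, fun x hx => ?_,
    fun x y => h.frb x y, h.ss, h.pos⟩, ?_⟩
  · refine Subtype.ext (h.nd x fun y => ?_)
    have e1 := hx ⟨y - (∑ j, B (e j) y • f j + ∑ j, (s * B (f j) y) • e j), (hm _).2 fun i => by
      rw [map_sub, map_sub, l1 (fun j => B (e j) y) fun j => B (f j) y,
        l2 (fun j => B (e j) y) fun j => B (f j) y]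
      exact ⟨sub_self _, sub_self _⟩⟩
    have a1 (j : κ) : B x (e j) = 0 := by rw [h.symm, ((hm x).1 x.2 j).1, mul_zero]
    have a2 (j : κ) : B x (f j) = 0 := by rw [h.symm, ((hm x).1 x.2 j).2, mul_zero]
    simpa only [LinearMap.compl₁₂_apply, Submodule.subtype_apply, map_sub, map_add, map_sum,
      map_smul, a1, a2, smul_zero, Finset.sum_const_zero, add_zero, sub_zero] using e1
  · have hs : LinearMap.range L = ⊤ := LinearMap.range_eq_top.2 fun z =>
      ⟨∑ j, z.1 j • f j + ∑ j, (s * z.2 j) • e j, Prod.ext (funext (l1 z.1 z.2)) (funext (l2 z.1 z.2))⟩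
    have := L.finrank_range_add_finrank_ker
    rw [hs, finrank_top, Module.finrank_prod, Module.finrank_fintype_fun_eq_card] at this
    omega

theorem Hs_SW1.sum (h : Dt_SW1 q s B Φ) {κ ι : Type} {b : κ → Bool} {e f : κ → V}
    (H : Hs_SW1 s B Φ b e f) {W : Submodule Ω V} {hW : ∀ x ∈ W, Φ x ∈ W}
    (ho : ∀ x ∈ W, ∀ i, B (e i) x = 0 ∧ B (f i) x = 0) {b' : ι → Bool} {e' f' : ι → W}
    (H' : Hs_SW1 s (B.compl₁₂ W.subtype W.subtype) (fun x : W => ⟨Φ x, hW x x.2⟩) b' e' f') :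
    Hs_SW1 s B Φ (Sum.elim b b') (Sum.elim e fun i => e' i) (Sum.elim f fun i => f' i) := by
  have o1 (x : W) (i : κ) : B (e i) x = 0 := (ho x x.2 i).1
  have o2 (x : W) (i : κ) : B (f i) x = 0 := (ho x x.2 i).2
  have o3 (x : W) (i : κ) : B x (e i) = 0 := by rw [h.symm, o1, mul_zero]
  have o4 (x : W) (i : κ) : B x (f i) = 0 := by rw [h.symm, o2, mul_zero]
  refine ⟨?_, ?_, ?_, ?_, ?_, ?_⟩
  · rintro (i | i) (j | j)
    exacts [H.ee i j, o1 _ _, o3 _ _, H'.ee i j]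
  · rintro (i | i) (j | j)
    exacts [H.ff i j, o2 _ _, o4 _ _, H'.ff i j]
  · rintro (i | i)
    exacts [H.ef1 i, H'.ef1 i]
  · rintro (i | i) (j | j) hne
    exacts [H.ef0 i j fun e => hne (congrArg _ e), o1 _ _, o4 _ _,
      H'.ef0 i j fun e => hne (congrArg _ e)]
  · rintro (i | i)
    · exact H.pe i
    · exact (congrArg Subtype.val (H'.pe i)).trans (apply_ite Subtype.val _ _ _)
  · rintro (i | i)
    · exact H.pf i
    · exact (congrArg Subtype.val (H'.pf i)).trans (apply_ite Subtype.val _ _ _)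

theorem Hs_SW1.comp {κ ι : Type} {b : κ → Bool} {e f : κ → V} (H : Hs_SW1 s B Φ b e f)
    (σ : ι ≃ κ) : Hs_SW1 s B Φ (b ∘ σ) (e ∘ σ) (f ∘ σ) :=
  ⟨fun _ _ => H.ee _ _, fun _ _ => H.ff _ _, fun _ => H.ef1 _,
    fun _ _ hne => H.ef0 _ _ (σ.injective.ne hne), fun _ => H.pe _, fun _ => H.pf _⟩

/-- a stable hyperbolic plane -/
theorem Dt_SW1.plane (k : Type) [Field k] [Algebra k Ω] [Sq k q] [Module.Finite Ω V]
    (h : Dt_SW1 q s B Φ) (h2 : (2 : Ω) ≠ 0) (hd : 2 ≤ Module.finrank Ω V) :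
    ∃ (b : Unit → Bool) (e f : Unit → V), Hs_SW1 s B Φ b e f := by
  have hq : Su k q := Sq.su
  by_cases hc : ∃ u, Φ u = u ∧ u ≠ 0 ∧ B u u = 0
  · obtain ⟨u, a1, a2, a3⟩ := hc
    obtain ⟨f, hf⟩ := h.dual k h2 (u := fun _ : Unit => u)
      (linearIndependent_unique_iff.2 a2) (fun _ => a1) fun _ _ => a3
    exact ⟨_, _, f, hf⟩
  push Not at hc
  obtain ⟨v, -, v1, v0⟩ := h.fixd0 k ⊤ (fun _ _ => trivial) fun e => by
    have := congrArg (fun W : Submodule Ω V => Module.finrank Ω W) e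
    simp only [finrank_top, finrank_bot] at this
    omega
  obtain ⟨w, hw, w1, w0⟩ := h.fixd0 k (LinearMap.ker (B v))
    (fun x hx => by rw [LinearMap.mem_ker, ← v1]; exact h.orth hx) fun e => by
    have := (B v).finrank_range_add_finrank_ker
    have h1 := (LinearMap.range (B v)).finrank_le
    rw [e, finrank_bot] at this
    rw [Module.finrank_self] at h1
    omega
  have vv := hc v v1 v0
  have ww := hc w w1 w0
  have vw : B v w = 0 := hw
  have wv : B w v = 0 := by rw [h.symm, vw, mul_zero]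
  obtain rfl : s = 1 := mul_right_cancel₀ vv (by rw [← h.symm, one_mul])
  have fv := h.frb v v
  have fw := h.frb w w
  rw [v1, one_mul] at fv
  rw [w1, one_mul] at fw
  obtain ⟨t, ht⟩ := IsAlgClosed.exists_pow_nat_eq (-(B v v / B w w)) two_pos
  have ht1 : t ^ 2 * B w w + B v v = 0 := by rw [ht]; field_simp; ring
  have ht2 : (t ^ q) ^ 2 = t ^ 2 := by
    rw [← pow_mul, mul_comm, pow_mul, ht, hq.neg_pow, div_pow, ← fv, ← fw]
  have bb (x y : Ω) : B (v + x • w) (v + y • w) = B v v + x * y * B w w := by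
    simp only [map_add, map_smul, LinearMap.add_apply, LinearMap.smul_apply, vw, wv, smul_eq_mul]
    ring
  have pp (x : Ω) : Φ (v + x • w) = v + x ^ q • w := by rw [h.add, h.smul, v1, w1]
  rcases sq_eq_sq_iff_eq_or_eq_neg.1 ht2 with e | e
  · refine absurd ?_ (hc (v + t • w) (by rw [pp, e]) fun e0 => vv ?_)
    · rw [bb]
      linear_combination ht1
    · have := bb 0 t
      rw [e0, map_zero] at this
      linear_combination -this
  · have c0 : 2 * B v v ≠ 0 := mul_ne_zero h2 vv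
    obtain ⟨τ, hτ⟩ := IsAlgClosed.exists_pow_nat_eq (2 * B v v)⁻¹ q.succ_pos
    have τ0 : τ ≠ 0 := by
      rintro rfl
      exact inv_ne_zero c0 (by rw [← hτ, zero_pow q.succ_ne_zero])
    have τ1 : (τ ^ q) ^ q = τ := by
      refine mul_left_cancel₀ (pow_ne_zero q τ0) ?_
      rw [← mul_pow, ← pow_succ', ← pow_succ, hτ, inv_pow, mul_pow, two_pow_eq k, ← fv]
    refine ⟨fun _ => true, fun _ => τ • (v + t • w), fun _ => τ ^ q • (v + (-t) • w),
      fun _ _ => ?_, fun _ _ => ?_, fun _ => ?_, fun _ _ hne => absurd rfl hne, fun _ => ?_,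
      fun _ => ?_⟩
    · simp only [map_smul B τ, map_smul _ τ, LinearMap.smul_apply, bb, smul_eq_mul]
      linear_combination τ * τ * ht1
    · simp only [map_smul B (τ ^ q), map_smul _ (τ ^ q), LinearMap.smul_apply, bb, smul_eq_mul]
      linear_combination τ ^ q * τ ^ q * ht1
    · simp only [map_smul B τ, map_smul _ (τ ^ q), LinearMap.smul_apply, bb, smul_eq_mul]
      have := inv_mul_cancel₀ c0
      rw [← hτ, pow_succ] at this
      linear_combination this - τ ^ q * τ * ht1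
    · rw [h.smul, pp, e, if_pos rfl]
    · rw [h.smul, pp, τ1, hq.neg_pow, e, neg_neg, if_pos rfl]

end

theorem all_SW1 (k : Type) [Field k] [Algebra k Ω] [Sq k q] (h2 : (2 : Ω) ≠ 0) {s : Ω} (n : ℕ) :
    ∀ {V : Type} [AddCommGroup V] [Module Ω V] [Module.Finite Ω V] {B : V →ₗ[Ω] V →ₗ[Ω] Ω}
      {Φ : V → V}, Dt_SW1 q s B Φ → Module.finrank Ω V = 2 * n → ∀ (ι : Type) [Fintype ι],
      Fintype.card ι = n → ∃ (b : ι → Bool) (e f : ι → V), Hs_SW1 s B Φ b e f := by
  induction n with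
  | zero =>
    intro V _ _ _ B Φ h hd ι _ hι
    have := Fintype.card_eq_zero_iff.1 hι
    exact ⟨isEmptyElim, isEmptyElim, isEmptyElim, isEmptyElim, isEmptyElim, isEmptyElim,
      isEmptyElim, isEmptyElim, isEmptyElim⟩
  | succ n ih =>
    intro V _ _ _ B Φ h hd ι _ hι
    obtain ⟨b, e, f, H⟩ := h.plane k h2 (by omega)
    obtain ⟨W, hW, ho, hD, hr⟩ := h.split H
    rw [Fintype.card_unit] at hr
    obtain ⟨b', e', f', H'⟩ := ih hD (by omega) (Fin n) (Fintype.card_fin n)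
    exact ⟨_, _, _, (H.sum h ho H').comp (Fintype.equivOfCardEq (by simp [hι, add_comm]))⟩

/-- hyperbolic bases adapted to `Φ` and to given fixed vectors -/
theorem wd (k : Type) [Field k] [Algebra k Ω] [Sq k q] (h2 : (2 : Ω) ≠ 0) {n ι κ : Type} [Fintype n]
    [DecidableEq n] [Fintype ι] [DecidableEq ι] [Fintype κ] (ε : ℤˣ) (J M : Matrix n n Ω)
    (hn : Fintype.card n = 2 * (Fintype.card κ + Fintype.card ι)) (hJ : J.det ≠ 0)
    (hs : Jᵀ = (sg ε : Ω) • J) (hM : Mᵀ * J * M = (sg ε : Ω) • fm q J) (u : κ → n → Ω)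
    (h3 : LinearIndependent Ω u) (h4 : ∀ a, (M *ᵥ fun j => u a j ^ q) = u a)
    (h5 : ∀ a a', u a ⬝ᵥ J *ᵥ u a' = 0) :
    ∃ (b : ι → Bool) (g : Matrix n ((κ ⊕ ι) ⊕ (κ ⊕ ι)) Ω), Bijective g.mulVec ∧
      (∀ x y, (g *ᵥ x) ⬝ᵥ J *ᵥ (g *ᵥ y) = Bf ε x y) ∧
      (∀ x, (M *ᵥ fun j => (g *ᵥ x) j ^ q) = g *ᵥ FV q ε (Sum.elim (fun _ => false) b) x) ∧
      ∀ a, g.col (.inl (.inl a)) = u a := by
  classical
  have hq : Su k q := Sq.su
  let B : (n → Ω) →ₗ[Ω] (n → Ω) →ₗ[Ω] Ω := Matrix.toBilin' J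
  have hB (x y : n → Ω) : B x y = x ⬝ᵥ J *ᵥ y := Matrix.toBilin'_apply' J x y
  let Φ : (n → Ω) → n → Ω := fun x => M *ᵥ fun j => x j ^ q
  have h : Dt_SW1 q (sg ε) B Φ := by
    refine ⟨fun x y => ?_, fun t x => ?_, fun x y => ?_, fun x hx => ?_, fun x y => ?_,
      sg_mul_self ε, hq.pos.ne'⟩
    · simp only [Φ, ← mulVec_add, Pi.add_apply, hq.add_pow]
      rfl
    · simp only [Φ, ← mulVec_smul, Pi.smul_apply, smul_eq_mul, mul_pow]
      rfl
    · rw [hB, hB, dotProduct_mulVec, ← mulVec_transpose, dotProduct_comm, hs, smul_mulVec,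
        dotProduct_smul, smul_eq_mul]
    · refine eq_zero_of_vecMul_eq_zero hJ (funext fun j => ?_)
      have := hx (Pi.single j 1)
      rwa [hB, dotProduct_mulVec, dotProduct_single_one] at this
    · rw [hB, hB]
      simp only [Φ]
      rw [mulVec_mulVec, dotProduct_comm, dotProduct_mulVec, ← mulVec_transpose, mulVec_mulVec,
        ← Matrix.mul_assoc, hM, smul_mulVec, smul_dotProduct, smul_eq_mul, hq.fm_mulVec,
        dotProduct_comm]
      simp only [dotProduct, hq.sum_pow, mul_pow]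
  obtain ⟨f₀, H₀⟩ := h.dual k h2 h3 h4 fun a a' => (hB _ _).trans (h5 a a')
  obtain ⟨W, hW, ho, hD, hr⟩ := h.split H₀
  rw [Module.finrank_fintype_fun_eq_card] at hr
  obtain ⟨b, e', f', H'⟩ := all_SW1 k h2 (Fintype.card ι) hD (by omega) ι rfl
  have H := H₀.sum h ho H'
  generalize hE : (Sum.elim u fun i => (e' i : n → Ω)) = e at H
  generalize (Sum.elim f₀ fun i => (f' i : n → Ω)) = f at H
  generalize hb : Sum.elim (fun _ : κ => false) b = c at H
  have hg (x : (κ ⊕ ι) ⊕ (κ ⊕ ι) → Ω) : (Matrix.of (Sum.elim e f))ᵀ *ᵥ x =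
      ∑ i, (x (.inl i) • e i + x (.inr i) • f i) := by
    funext r
    rw [Finset.sum_add_distrib, Pi.add_apply, Finset.sum_apply, Finset.sum_apply, mulVec,
      dotProduct, Fintype.sum_sum_type]
    simp only [transpose_apply, of_apply, Sum.elim_inl, Sum.elim_inr, Pi.smul_apply, smul_eq_mul,
      mul_comm]
  have ef (a d : κ ⊕ ι) : B (e a) (f d) = if a = d then 1 else 0 := by
    split_ifs with e
    · rw [e, H.ef1]
    · exact H.ef0 a d e
  have hf (x y : (κ ⊕ ι) ⊕ (κ ⊕ ι) → Ω) : ((Matrix.of (Sum.elim e f))ᵀ *ᵥ x) ⬝ᵥ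
      J *ᵥ ((Matrix.of (Sum.elim e f))ᵀ *ᵥ y) = Bf ε x y := by
    rw [← hB, hg, hg, map_sum B, LinearMap.sum_apply]
    refine Finset.sum_congr rfl fun i _ => ?_
    simp only [map_add, map_smul, map_sum, LinearMap.add_apply, LinearMap.smul_apply, H.ee, H.ff,
      h.symm (e _) (f i), ef, smul_eq_mul, mul_ite, mul_one, mul_zero, zero_add, add_zero,
      Finset.sum_add_distrib, Finset.sum_ite_eq, Finset.sum_ite_eq', Finset.mem_univ, if_true]
    ring
  have hi : Injective (Matrix.of (Sum.elim e f))ᵀ.mulVecLin :=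
    (injective_iff_map_eq_zero _).2 fun x hx => Bf_nondeg ε x fun y => by
      rw [← hf, show (Matrix.of (Sum.elim e f))ᵀ *ᵥ x = 0 from hx, mulVec_zero, dotProduct_zero]
  refine ⟨b, (Matrix.of (Sum.elim e f))ᵀ, ⟨hi,
    (LinearMap.injective_iff_surjective_of_finrank_eq_finrank ?_).1 hi⟩, hf, fun x => ?_,
    fun a => ?_⟩
  · simp only [Module.finrank_fintype_fun_eq_card, Fintype.card_sum]
    omega
  · rw [hb]
    change Φ _ = _
    rw [hg, hg, h.sum]
    refine Finset.sum_congr rfl fun i _ => ?_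
    rw [h.add, h.smul, h.smul, H.pe, H.pf, FV_inl ε c x k, FV_inr ε c x k]
    cases c i
    · simp only [Bool.false_eq_true, if_false, smul_smul, mul_comm]
    · simp only [if_true, add_comm]
  · rw [← hE]
    rfl

end Pool.Agent.CXD
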