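import Pool.Agent.P.MP_2ce3e7_ag.SB1
import Pool.Agent.P.MP_2ce3e7_ag.SW1

/-! The universal solution and the transfer matrix. -/

set_option linter.unusedSectionVars false
set_option linter.unusedVariables false

open Function Matrix

noncomputable section

namespace Pool.Agent.CXD
open Finset

variable {k Ω : Type} [Field k] [Field Ω] [Algebra k Ω] {q : ℕ} {ε : ℤˣ} {s D : ℕ} [NeZero s]
  {R : ℤ → Prop} {f g : ℤ → ℤ} {ι : Type} [Fintype ι] {b : ι → Bool} {G : Gp Ω}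
  {e : ℤ → ℤ → Ω} {θ : ℤ} [IsAlgClosed Ω]

/-- the index set of the data -/
abbrev Bi (D : ℕ) (R : ℤ → Prop) (f : ℤ → ℤ) : Type := {u // u ∈ bd D R f (-1)}

/-- the solution with universal data -/
structure Us (D : ℕ) (R : ℤ → Prop) (f : ℤ → ℤ) (e : ℤ → ℤ → Ω)
    (c : ℤ → Bi D R f ⊕ Bi D R f → Ω) : Prop where
  l : ∀ a : Bi D R f, c a = Pi.single (.inl a) 1
  r : ∀ a : Bi D R f, Pv D e c (-1) a = Pi.single (.inr a) 1
  ew : ∀ u, 0 ≤ u → Ew D e c u = 0

/-- the columns of the transfer matrix -/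
def Mc (ε : ℤˣ) (s D : ℕ) {R : ℤ → Prop} {f : ℤ → ℤ} (e : ℤ → ℤ → Ω)
    (c : ℤ → Bi D R f ⊕ Bi D R f → Ω) : Bi D R f ⊕ Bi D R f → Bi D R f ⊕ Bi D R f → Ω :=
  Sum.elim (fun a => c (a + s)) fun a => -((sg ε : Ω) • Pv D e c (-1 + s) (a + s))

/-- isometries that turn the transfer matrix into the Frobenius map -/
def Yg (q : ℕ) (ε : ℤˣ) (b : ι → Bool) (M : ι ⊕ ι → ι ⊕ ι → Ω) (m : Matrix (ι ⊕ ι) (ι ⊕ ι) Ω) :
    Prop :=
  (∀ x y, Bf ε (m *ᵥ x) (m *ᵥ y) = Bf ε x y) ∧ ∀ j, FV q ε b (m.col j) = m *ᵥ M j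

variable [Sq k q]

theorem rec_SB4 {W : Type} (c0 : ℤ → W) (T : ℤ → (ℤ → W) → W)
    (hT : ∀ v c c', (∀ w, w < v → c w = c' w) → T v c = T v c') :
    ∃ c : ℤ → W, (∀ v, v < 0 → c v = c0 v) ∧ ∀ v, 0 ≤ v → c v = T v c := by
  let cs : ℕ → ℤ → W := fun n => Nat.rec c0 (fun n c => update c (n : ℤ) (T n c)) n
  have hs : ∀ n : ℕ, cs (n + 1) = update (cs n) (n : ℤ) (T n (cs n)) := fun n => rfl
  have hA : ∀ m n : ℕ, n ≤ m → ∀ w : ℤ, w < n → cs m w = cs n w := by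
    intro m n h w hw
    induction m, h using Nat.le_induction with
    | base => rfl
    | succ m h ih => rw [hs, update_of_ne (by omega), ih]
  refine ⟨fun w => cs (w.toNat + 1) w, fun v hv => hA (v.toNat + 1) 0 (Nat.zero_le _) v hv,
    fun v hv => ?_⟩
  obtain ⟨n, rfl⟩ := Int.eq_ofNat_of_zero_le hv
  simp only [Int.toNat_natCast]
  rw [hs, update_self]
  refine hT _ _ _ fun w hw => ?_
  rcases lt_or_ge w 0 with h0 | h0
  · rw [hA n 0 (Nat.zero_le _) w (by omega), hA (w.toNat + 1) 0 (Nat.zero_le _) w (by omega)]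
  · exact hA n (w.toNat + 1) (by omega) w (by omega)

theorem vsum_SB4 {α κ : Type} [Af Ω α] [Fintype κ] {p : α → Prop} (S : Finset ℤ)
    {F : α → ℤ → κ → Ω} (h : ∀ w ∈ S, Pq k p fun x => F x w) :
    Pq k p fun x => ∑ w ∈ S, F x w := by
  refine (Pq.vsum S (f := fun x w => if w ∈ S then F x w else 0) fun w => ?_).congr
    fun x _ => Finset.sum_congr rfl fun w hw => (if_pos hw).symm
  by_cases hw : w ∈ S
  · simp only [if_pos hw]
    exact h w hw
  · simp only [if_neg hw]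
    exact Pq.const _

theorem last_SB4 {W : Type} [AddCommGroup W] [Module Ω W] (h : C3 s D R f g) (hs : Se ε R f e)
    (z : ℤ → W) {u a : ℤ} (hu : R u) (ha : a ≤ f u) :
    ∑ v ∈ Icc a (u + D), e u v • z v = ∑ v ∈ Ico a (f u), e u v • z v + e u (f u) • z (f u) := by
  have h1 := h.hi u
  have h2 := h.lt u hu
  rw [add_comm _ (e u (f u) • z (f u)),
    ← Finset.sum_insert (s := Ico a (f u)) (f := fun v => e u v • z v) (by simp)]
  refine (Finset.sum_subset (fun v hv => ?_) fun v hv hv' => ?_).symm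
  · simp only [mem_insert, mem_Ico, mem_Icc] at hv ⊢
    omega
  · simp only [mem_insert, mem_Ico, mem_Icc] at hv hv'
    rw [hs u v (by omega) fun h3 => absurd h3.2.2.1 (by omega), zero_smul]

theorem C3.exists_us (h : C3 s D R f g) {α : Type} [Af Ω α] {p : α → Prop} {e : α → ℤ → ℤ → Ω}
    (he : ∀ u v, Pq k p fun x => e x u v)
    (h1 : ∀ x, p x → Amx q ε s D (e x) ∧ Se ε R f (e x) ∧ Piv R f (e x)) :
    ∃ c : α → ℤ → Bi D R f ⊕ Bi D R f → Ω, (∀ v, Pq k p fun x => c x v) ∧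
      ∀ x, p x → Us D R f (e x) (c x) := by
  classical
  let d : (Bi D R f → Bi D R f ⊕ Bi D R f) → ℤ → Bi D R f ⊕ Bi D R f → Ω := fun i u =>
    if hu : u ∈ bd D R f (-1) then Pi.single (i ⟨u, hu⟩) 1 else 0
  have hd : ∀ i u, Pq k p fun _ : α => d i u := fun i u => by
    by_cases hu : u ∈ bd D R f (-1)
    · simp only [d, dif_pos hu]
      exact Pq.single _ (Pq.const 1)
    · simp only [d, dif_neg hu]
      exact Pq.const _
  let lo : ℤ → ℤ := fun u => if u < 0 then 0 else u - D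
  obtain ⟨c, c0, c1⟩ := rec_SB4 (W := α → Bi D R f ⊕ Bi D R f → Ω) (fun v _ => d .inl v)
    (fun v c x => if R v then (e x (g v) v)⁻¹ •
      (d .inr (g v) - ∑ w ∈ Ico (lo (g v)) v, e x (g v) w • c w x) else 0)
    fun v c c' hc => funext fun x => by
      rw [Finset.sum_congr rfl fun w hw => by rw [hc w (mem_Ico.1 hw).2]]
  have key : ∀ x, p x → ∀ u, R u → 0 ≤ f u →
      ∑ v ∈ Icc (lo u) (u + D), e x u v • c v x = d .inr u := by
    intro x hx u hu h0
    have h2 := h.lt u hu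
    rw [last_SB4 h (h1 x hx).2.1 (fun v => c v x) hu (by simp only [lo]; split_ifs <;> omega),
      c1 _ h0]
    simp only [if_pos (h.Rf u hu), h.gf u hu]
    rw [smul_inv_smul₀ ((h1 x hx).2.2 u hu), add_sub_cancel]
  refine ⟨fun x v => c v x, fun v => ?_, fun x hx => ⟨fun a => ?_, fun a => ?_, fun u hu => ?_⟩⟩
  · have : ∀ n : ℕ, ∀ v : ℤ, v < n → Pq k p fun x => c v x := by
      intro n
      induction n with
      | zero => exact fun v hv => by rw [c0 v hv]; exact hd _ _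
      | succ n ih =>
        intro v hv
        rcases lt_or_ge v n with h2 | h2
        · exact ih v h2
        rw [c1 v (by omega)]
        by_cases hR : R v
        · simp only [if_pos hR]
          refine ((he _ _).inv fun x hx => ?_).vsmul ((hd _ _).vsub (vsum_SB4 _ fun w hw =>
            (he _ _).vsmul (ih w (by have := (mem_Ico.1 hw).2; omega))))
          have := (h1 x hx).2.2 _ (h.Rg v hR)
          rwa [h.fg v hR] at this
        · simp only [if_neg hR]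
          exact Pq.const _
    exact this (v.toNat + 1) v (by omega)
  · have h2 := h.toIs.mem_bd.1 a.2
    exact (congrFun (c0 a (by omega)) x).trans (dif_pos a.2)
  · have h2 := h.toIs.mem_bd.1 a.2
    have h3 := key x hx a h2.1 (by omega)
    simp only [lo, d, if_pos (show (a : ℤ) < 0 by omega), dif_pos a.2] at h3
    rw [← h3, Pv]
    exact Finset.sum_congr (by ext v; simp only [mem_Ioc, mem_Icc]; omega) fun _ _ => rfl
  · by_cases hR : R u
    · have h3 := key x hx u hR (by have := h.lt u hR; omega)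
      have h4 : u ∉ bd D R f (-1) := fun h4 => by have := h.toIs.mem_bd.1 h4; omega
      simp only [lo, d, if_neg (show ¬u < 0 by omega), dif_neg h4] at h3
      exact h3
    · refine Finset.sum_eq_zero fun v _ => ?_
      have h3 : e x u v = 0 := by
        by_contra h3
        exact hR ((h1 x hx).2.1.of_ne (h1 x hx).1 h3).1
      rw [h3, zero_smul]

section
variable [DecidableEq ι] (ε) (i j : ι)

theorem ll_SB4 : Bf ε (Pi.single (.inl i) (1 : Ω)) (Pi.single (.inl j) 1) = 0 := by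
  simp [Bf, Pi.single_apply]

theorem rr_SB4 : Bf ε (Pi.single (.inr i) (1 : Ω)) (Pi.single (.inr j) 1) = 0 := by
  simp [Bf, Pi.single_apply]

theorem lr_SB4 :
    Bf ε (Pi.single (.inl i) (1 : Ω)) (Pi.single (.inr j) 1) = if i = j then 1 else 0 := by
  simp [Bf, Pi.single_apply, eq_comm]

theorem rl_SB4 : Bf ε (Pi.single (.inr i) (1 : Ω)) (Pi.single (.inl j) 1) =
    sg ε * if j = i then 1 else 0 := by
  rw [Bf_comm, lr_SB4]

end

theorem Us.hy {c : ℤ → Bi D R f ⊕ Bi D R f → Ω} (hc : Us D R f e c) : Hy ε D R f e c (-1) := by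
  intro u hu v hv
  rw [hc.l ⟨u, hu⟩, hc.l ⟨v, hv⟩, hc.r ⟨u, hu⟩, hc.r ⟨v, hv⟩, ll_SB4, rr_SB4, lr_SB4]
  simp only [Subtype.mk.injEq, and_self]

theorem cols_SB4 {n : Type} [Fintype n] (m : Matrix n n Ω) (x : n → Ω) :
    m *ᵥ x = ∑ i, x i • m.col i := by
  funext r
  simp only [mulVec, dotProduct, Finset.sum_apply, Pi.smul_apply, smul_eq_mul, col_apply, mul_comm]

theorem bf_mulVec_iff [DecidableEq ι] (t : Ω) (m : Matrix (ι ⊕ ι) (ι ⊕ ι) Ω) :
    (∀ x y, Bf ε (m *ᵥ x) (m *ᵥ y) = t * Bf ε x y) ↔ ∀ i j, Bf ε (m.col i) (m.col j) =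
      t * Bf ε (Pi.single i 1) (Pi.single j 1) := by
  refine ⟨fun h i j => by rw [← h, mulVec_single_one, mulVec_single_one], fun h x y => ?_⟩
  have e1 : ∀ n : Matrix (ι ⊕ ι) (ι ⊕ ι) Ω, Bf ε (n *ᵥ x) (n *ᵥ y) =
      ∑ i, ∑ j, x i * (y j * Bf ε (n.col i) (n.col j)) := fun n => by
    rw [cols_SB4, cols_SB4, Bf_sum_left]
    refine Finset.sum_congr rfl fun i _ => ?_
    rw [Bf_smul_left, Bf_sum_right, Finset.mul_sum]
    exact Finset.sum_congr rfl fun j _ => by rw [Bf_smul_right]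
  have e2 := e1 1
  rw [one_mulVec, one_mulVec] at e2
  rw [e1, e2, Finset.mul_sum]
  refine Finset.sum_congr rfl fun i _ => ?_
  rw [Finset.mul_sum]
  refine Finset.sum_congr rfl fun j _ => ?_
  rw [h, ← mulVec_single_one, ← mulVec_single_one, one_mulVec, one_mulVec]
  ring

theorem neg_SB4 (t : Ω) (x : ι ⊕ ι → Ω) : -(t • x) = (-t) • x := (neg_smul t x).symm

theorem Us.iso {c : ℤ → Bi D R f ⊕ Bi D R f → Ω} (hc : Us D R f e c) (h : C3 s D R f g)
    (ha : Amx q ε s D e) (hs : Se ε R f e) (hp : Piv R f e) (x y : Bi D R f ⊕ Bi D R f → Ω) :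
    Bf (-ε) ((Matrix.of (Mc ε s D e c))ᵀ *ᵥ x) ((Matrix.of (Mc ε s D e c))ᵀ *ᵥ y) =
      sg (-ε) * Bf (-ε) x y := by
  have H := h.hy_up (θ := -1 + s) ha hs hp hc.hy hc.ew (by omega)
  have H' := fun a a' : Bi D R f => H _ (h.toIs.bd_per.2 a.2) _ (h.toIs.bd_per.2 a'.2)
  refine (bf_mulVec_iff _ _).2 (fun i j => ?_) x y
  change Bf (-ε) (Mc ε s D e c i) (Mc ε s D e c j) = _
  rcases i with a | a <;> rcases j with a' | a' <;>
    simp only [Mc, Sum.elim_inl, Sum.elim_inr, neg_SB4]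
  · rw [(H' a a').1, ll_SB4, mul_zero]
  · rw [Bf_smul_right, (H' a a').2.1, lr_SB4, sg_neg]
    simp only [add_left_inj, Subtype.ext_iff]
  · rw [Bf_comm, Bf_smul_right, (H' a' a).2.1, rl_SB4, sg_neg]
    simp only [add_left_inj, Subtype.ext_iff]
  · rw [Bf_smul_left, Bf_smul_right, (H' a a').2.2, rr_SB4, mul_zero, mul_zero, mul_zero]

theorem exists_yg (k : Type) [Field k] [Algebra k Ω] [Sq k q] (h2 : (2 : Ω) ≠ 0) (ε : ℤˣ)
    (M : ι ⊕ ι → ι ⊕ ι → Ω)
    (h : ∀ x y, Bf ε ((Matrix.of M)ᵀ *ᵥ x) ((Matrix.of M)ᵀ *ᵥ y) = sg ε * Bf ε x y) :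
    ∃ b m, Yg q ε b M m := by
  classical
  have hq : Su k q := Sq.su
  let J : Matrix (ι ⊕ ι) (ι ⊕ ι) Ω := Matrix.of fun i j => Bf ε (Pi.single i 1) (Pi.single j 1)
  have hJ : ∀ x y, x ⬝ᵥ J *ᵥ y = Bf ε x y := fun x y => by
    have e1 : ∀ z : ι ⊕ ι → Ω, z = ∑ i, z i • Pi.single i (1 : Ω) := fun z => pi_eq_sum_univ' z
    rw [e1 x, e1 y, Bf_sum_left, ← e1 x, ← e1 y, dotProduct]
    refine Finset.sum_congr rfl fun i _ => ?_
    rw [Bf_smul_left]
    nth_rewrite 2 [e1 y]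
    rw [Bf_sum_right, mulVec, dotProduct]
    congr 1
    exact Finset.sum_congr rfl fun j _ => by rw [Bf_smul_right, mul_comm]; rfl
  have hf : fm q J = J := by
    ext i j
    rw [fm_apply]
    rcases i with i | i <;> rcases j with j | j <;>
      simp only [J, of_apply, ll_SB4, rr_SB4, lr_SB4, rl_SB4, mul_pow, sg_pow k, ite_pow, one_pow,
        zero_pow hq.pos.ne']
  obtain ⟨b, g, -, g1, g2, -⟩ := wd (n := ι ⊕ ι) (ι := ι) (κ := Empty) k h2 ε J (Matrix.of M)ᵀ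
    (by simp [two_mul]) (fun h0 => by
      obtain ⟨v, hv, h3⟩ := exists_mulVec_eq_zero_iff.2 h0
      exact hv (Bf_nondeg ε v fun y => by rw [← hJ, h3, dotProduct_zero]))
    (by ext i j; exact Bf_comm ε _ _)
    (by
      ext i j
      have e1 := h (Pi.single i 1) (Pi.single j 1)
      rw [← hJ, mulVec_single_one, mulVec_single_one] at e1
      rw [hf, Matrix.mul_assoc]
      exact e1)
    (fun a => a.elim) linearIndependent_empty_type (fun a => a.elim) fun a => a.elim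
  let σ : ι ⊕ ι ≃ (Empty ⊕ ι) ⊕ (Empty ⊕ ι) :=
    (Equiv.emptySum Empty ι).symm.sumCongr (Equiv.emptySum Empty ι).symm
  let g' : Matrix (ι ⊕ ι) (ι ⊕ ι) Ω := g.submatrix id σ
  have e1 : ∀ x, g' *ᵥ x = g *ᵥ (x ∘ σ.symm) := fun x => submatrix_mulVec_equiv g x id σ
  have e2 : ∀ x y, Bf ε (g' *ᵥ x) (g' *ᵥ y) = Bf ε x y := fun x y => by
    rw [← hJ, e1, e1, g1, Bf, Bf, Fintype.sum_sum_type, Fintype.sum_empty, zero_add]
    rfl
  have e3 : ∀ x, ((Matrix.of M)ᵀ *ᵥ fun j => (g' *ᵥ x) j ^ q) = g' *ᵥ FV q ε b x := fun x => by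
    rw [e1, g2, e1]
    congr 1
    funext j
    rcases j with (j | j) | (j | j)
    · exact j.elim
    · rw [FV_inl ε _ _ k]
      exact (FV_inl ε b x k j).symm
    · exact j.elim
    · rw [FV_inr ε _ _ k]
      exact (FV_inr ε b x k j).symm
  have hd : IsUnit g'.det := isUnit_iff_ne_zero.2 fun h0 => by
    obtain ⟨v, hv, h3⟩ := exists_mulVec_eq_zero_iff.2 h0
    exact hv (Bf_nondeg ε v fun y => by rw [← e2, h3, Bf_zero_right])
  have e4 : ∀ x, g' *ᵥ (g'⁻¹ *ᵥ x) = x := fun x => by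
    rw [mulVec_mulVec, mul_nonsing_inv _ hd, one_mulVec]
  refine ⟨b, g'⁻¹, fun x y => by rw [← e2, e4, e4], fun j => ?_⟩
  have e5 := e3 (g'⁻¹.col j)
  rw [← mulVec_single_one, e4] at e5
  have e6 : (fun i => (Pi.single j (1 : Ω) : ι ⊕ ι → Ω) i ^ q) = Pi.single j 1 := by
    funext i
    simp only [Pi.single_apply, ite_pow, one_pow, zero_pow hq.pos.ne']
  rw [e6, mulVec_single_one, mulVec_single_one] at e5
  change _ = g'⁻¹ *ᵥ (Matrix.of M)ᵀ.col j
  rw [e5, mulVec_mulVec, nonsing_inv_mul _ hd, one_mulVec]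

theorem Yg.fm (k : Type) [Field k] [Algebra k Ω] [Sq k q] {M : ι ⊕ ι → ι ⊕ ι → Ω}
    {m : Matrix (ι ⊕ ι) (ι ⊕ ι) Ω} (h : Yg q ε b M m) :
    fm (q ^ 2) m = m * ((Matrix.of M)ᵀ * fm q (Matrix.of M)ᵀ) := by
  ext i j
  have e1 := FV_FV ε b (m.col j) k
  rw [h.2 j, cols_SB4, (sem_FV (k := k) ε b).sum] at e1
  simp only [(sem_FV (k := k) ε b).smul, h.2] at e1
  have e2 := congrFun e1 i
  rw [fm_apply, ← Matrix.mul_assoc, Matrix.mul_apply]
  refine e2.symm.trans ?_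
  rw [Finset.sum_apply]
  exact Finset.sum_congr rfl fun l _ => mul_comm _ _

theorem Cr.yg {α : Type} [Af Ω α] {p : α → Prop} {M : α → ι ⊕ ι → ι ⊕ ι → Ω}
    {m : α → Matrix (ι ⊕ ι) (ι ⊕ ι) Ω} (hM : Pq k p M) (hm : Pq k p m) :
    Cr k p fun x => Yg q ε b (M x) (m x) := by
  classical
  refine ((Cr.all fun i => Cr.all fun j => Cr.eq (Pq.bf ε (hm.col i) (hm.col j))
    ((Pq.const (1 : Ω)).mul (Pq.bf ε (Pq.single i (Pq.const 1)) (Pq.single j (Pq.const 1))))).and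
    (Cr.all fun j => Cr.eq ((sem_FV ε b).po.comp (hm.col j)) (hm.mulVec (hM.eval j)))).congr
    fun x _ => and_congr_left fun _ => ?_
  rw [← bf_mulVec_iff]
  simp only [one_mul]

theorem Pq.mc {α : Type} [Af Ω α] {p : α → Prop} {e : α → ℤ → ℤ → Ω}
    {c : α → ℤ → Bi D R f ⊕ Bi D R f → Ω} (he : ∀ u v, Pq k p fun x => e x u v)
    (hc : ∀ v, Pq k p fun x => c x v) : Pq k p fun x => Mc ε s D (e x) (c x) := by
  refine Pq.pi fun j => ?_
  rcases j with a | a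
  · exact hc _
  · exact ((Pq.const _).vsmul (Pq.pv he hc _ _)).vneg

end Pool.Agent.CXD
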