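import Pool.Agent.P.MP_2ce3e7_ag.SB1

/-! Planes with two stable lines. -/

set_option linter.unusedSectionVars false
set_option linter.unusedVariables false

open Function Matrix

noncomputable section

namespace Pool.Agent.CXD
open Finset

variable {k Ω : Type} [Field k] [Field Ω] [Algebra k Ω] {q : ℕ} {ε : ℤˣ} {s D : ℕ} [NeZero s]
  {R : ℤ → Prop} {f g : ℤ → ℤ} {ι : Type} [Fintype ι] {b : ι → Bool} {G : Gp Ω}
  {e : ℤ → ℤ → Ω} {θ : ℤ} [IsAlgClosed Ω] [Sq k q]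

/-- the form of a plane -/
def B1 (ε : ℤˣ) (x y : Ω × Ω) : Ω := x.1 * y.2 + sg ε * (x.2 * y.1)

theorem pext_F1_false (X : ZMod s → Ω × Ω) (u : ℤ) : pext (F1 q ε false) s X u =
    (pext (frq q) s (fun c => (X c).1) u, pext (frz q ε) s (fun c => (X c).2) u) :=
  Prod.ext (pext_map (F := F1 q ε false) Prod.fst (fun _ => rfl) u).symm
    (pext_map (F := F1 q ε false) Prod.snd (fun _ => rfl) u).symm

section
variable {z : ℤ → ι ⊕ ι → Ω} {a : ℤ → Ω} {y : ι ⊕ ι → Ω}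

theorem Ys.of_fix (k : Type) [Field k] [Algebra k Ω] [Sq k q] (hy : Ys q ε b s D R f e z)
    (h1 : FV q (-ε) b y = (sg (-ε) : Ω) • y) :
    Pe (frq q) s (fun v => Bf (-ε) (z v) y) ∧ Acz R (fun v => Bf (-ε) (z v) y) ∧
      ∀ u, Ew D e (fun v => Bf (-ε) (z v) y) u = 0 := by
  refine ⟨fun u => ?_, fun u hu => ?_, fun u => ?_⟩
  · have e1 := Bf_FV (-ε) b (z u) y k
    rw [h1, Bf_smul_right, ← hy.pe u] at e1
    rw [fr_apply k]
    exact mul_left_cancel₀ (sg_ne _) e1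
  · beta_reduce
    rw [hy.acz u hu, Bf_zero_left]
  · exact (ew_map (bfl (-ε) y) z u).trans (by rw [hy.ew, map_zero])

theorem Ys.fix (k : Type) [Field k] [Algebra k Ω] [Sq k q] (hy : Ys q ε b s D R f e z)
    (h : C3 s D R f g) (hc : (bd D R f (-1)).card = Fintype.card ι) (h1 : Pe (frq q) s a)
    (h2 : Acz R a) (h3 : ∀ u, Ew D e a u = 0)
    (h4 : y = Yw (-ε) (bd D R f (-1)) z (Pv D e z (-1)) a (Pv D e a (-1))) :
    FV q (-ε) b y = (sg (-ε) : Ω) • y ∧ ∀ v, a v = Bf (-ε) (z v) y := by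
  have e1 (v : ℤ) (hv : 0 ≤ v) : a v = Bf (-ε) (z v) y := by
    by_cases hR : R v
    · rw [h4]
      exact (hy.rep h (θ := v) (by omega) (h.toIs.tr_of_ew hy.am hy.se (by omega)
        fun u _ => h3 u)).1 v (Or.inr ⟨hR, hv, le_rfl⟩)
    · rw [h2 v hR, hy.acz v hR, Bf_zero_left]
  have e2 : y - (sg (-ε) : Ω) • FV q (-ε) b y = 0 := hy.eq_zero h hc s fun v hv => by
    obtain ⟨u, rfl⟩ : ∃ u, v = u + s := ⟨v - s, by ring⟩
    rw [Bf_sub_right, Bf_smul_right, ← e1 _ (by omega), hy.pe u, Bf_FV _ _ _ _ k, h1 u,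
      fr_apply k, e1 u (by omega), ← mul_assoc, sg_mul_self, one_mul, sub_self]
  have e3 : FV q (-ε) b y = (sg (-ε) : Ω) • y := by
    nth_rewrite 2 [sub_eq_zero.1 e2]
    rw [smul_smul, sg_mul_self, one_smul]
  exact ⟨e3, congrFun (h1.ext' (hy.of_fix k e3).1 fun u h0 _ => e1 u h0)⟩

theorem kr_of_fix (h1 : FV q ε b y = (sg ε : Ω) • y) : Kr k y := by
  have e1 := FV_FV ε b y k
  rw [h1, (sem_FV (k := k) ε b).smul, h1, sg_pow k, smul_smul, sg_mul_self, one_smul] at e1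
  exact kr_pi fun j => ((Sq.su : Su k q).kr_iff _).2 (congrFun e1 j).symm

end

variable {α : Type} [Af Ω α] {p : α → Prop} {ψ : α → Ω}

theorem eqs_h {e : α → ℤ → ℤ → Ω} {a a' : α → ℤ → Ω} (he : ∀ u v, Pq k p fun x => e x u v)
    (ha : ∀ u, Pq k p fun x => a x u) (ha' : ∀ u, Pq k p fun x => a' x u)
    (h1 : ∀ x, p x → Amx q ε s D (e x)) (h2 : ∀ x, p x → Pe (frq q) s (a x))
    (h3 : ∀ x, p x → Pe (frz q ε) s (a' x)) :
    Eqs k q p (fun x => ph s D (B1 ε) (e x) fun u => (a x u, a' x u))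
      fun x => ∑ v ∈ Ico (0 : ℤ) s, a' x v * (2 * sg ε * Ew D (e x) (a x) v) := by
  have l1 (φ : ℤ → Ω) (v : ℤ) : ∑ u ∈ Ico (v - D) v, φ u = ∑ δ ∈ Icc (1 : ℤ) D, φ (v + -δ) :=
    sum_nbij' (fun u => v - u) (fun δ => v + -δ) (fun u hu => by simp at hu ⊢; omega)
      (fun u hu => by simp at hu ⊢; omega) (fun u _ => by ring) (fun u _ => by ring)
      fun u _ => congrArg φ (by ring)
  have l2 (φ : ℤ → Ω) (v : ℤ) : ∑ u ∈ Ioc v (v + D), φ u = ∑ δ ∈ Icc (1 : ℤ) D, φ (v + δ) :=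
    sum_nbij' (fun u => u - v) (fun δ => v + δ) (fun u hu => by simp at hu ⊢; omega)
      (fun u hu => by simp at hu ⊢; omega) (fun u _ => by ring) (fun u _ => by ring)
      fun u _ => congrArg φ (by ring)
  have key := (Eqs.refl (k := k) (q := q) (p := p) (ψ := fun x => ∑ v ∈ Ico (0 : ℤ) s,
    a' x v * (2 * sg ε * ∑ u ∈ Icc (v - D) v, e x v u • a x u))).add
    (Eqs.sum (Icc (1 : ℤ) D) fun δ _ => eqs_window s
      (τ := fun x u => 2 * sg ε * (e x u (u + δ) * (a' x u * a x (u + δ))))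
      (fun u => ((Pq.const 2).mul (Pq.const _)).mul ((he _ _).mul ((ha' _).mul (ha _))))
      (fun x u hx => by
        rw [add_right_comm u s δ, (h1 x hx).per, h2 x hx, h3 x hx, fr_apply k, frs_apply k]
        simp only [mul_pow, two_pow_eq k, sg_pow k]
        linear_combination (-2 * sg ε * e x u (u + δ) ^ q * a' x u ^ q * a x (u + δ) ^ q) *
          sg_mul_self (Ω := Ω) ε) (-δ))
  refine ((Eqs.of_eq fun x hx => ?_).trans key).trans (Eqs.of_eq fun x hx => ?_)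
  · rw [ph, sum_comm, ← sum_add_distrib]
    refine sum_congr rfl fun v _ => ?_
    rw [← Ico_insert_right (by omega : v - D ≤ v), sum_insert right_notMem_Ico, l1, l1, mul_add,
      mul_add, mul_sum, mul_sum, mul_sum, add_assoc, ← sum_add_distrib]
    congr 1
    · simp only [B1, smul_eq_mul]
      linear_combination (a x v * a' x v) * (h1 x hx).sym v v
    · refine sum_congr rfl fun δ _ => ?_
      simp only [B1, smul_eq_mul, neg_add_cancel_right, (h1 x hx).sym (v + -δ) v]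
      linear_combination (-2 * e x (v + -δ) v * a x (v + -δ) * a' x v) * sg_mul_self (Ω := Ω) ε
  · rw [sum_comm, ← sum_add_distrib]
    refine sum_congr rfl fun v _ => ?_
    rw [Ew.split (θ := v) _ (by omega) (by omega), mul_add, mul_add, Pv, l2, mul_sum (Icc (1 : ℤ) D),
      mul_sum (Icc (1 : ℤ) D)]
    congr 1
    exact sum_congr rfl fun δ _ => by rw [smul_eq_mul]; ring

variable {e : α → ℤ → ℤ → Ω} {z : α → ℤ → ι ⊕ ι → Ω}

/-- the locus of scalar solutions consists of rational points -/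
theorem Au.hlocus (h : Au k q G) (h3 : C3 s D R f g) (hc : (bd D R f (-1)).card = Fintype.card ι)
    (he : ∀ u v, Pq k p fun x => e x u v) (hz : ∀ u, Pq k p fun x => z x u)
    (hy : ∀ x, p x → Ys q ε b s D R f (e x) (z x)) (hp : Gy k G (AS q p ψ)) :
    Gy k G (AS q (fun y : α × (ZMod s → Ω) => p y.1 ∧ Acz R (pext (frq q) s y.2) ∧
      ∀ u, Ew D (e y.1) (pext (frq q) s y.2) u = 0) fun y => ψ y.1) := by
  have ha (u : ℤ) : Pq k (fun y : α × (ZMod s → Ω) => p y.1 ∧ Acz R (pext (frq q) s y.2) ∧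
      ∀ u, Ew D (e y.1) (pext (frq q) s y.2) u = 0) fun y => pext (frq q) s y.2 u :=
    Pq.pext sem_fr.po sem_fr.po' (Pq.snd Pq.id) u
  refine h.as_iso (fun w : α × (ι ⊕ ι → Ω) => (w.1, rsn s fun v => Bf (-ε) (z w.1 v) w.2))
    (fun y => (y.1, Yw (-ε) (bd D R f (-1)) (z y.1) (Pv D (e y.1) (z y.1) (-1))
      (pext (frq q) s y.2) (Pv D (e y.1) (pext (frq q) s y.2) (-1))))
    ((Pq.fst Pq.id).mk (Pq.rsn fun u =>
      Pq.bf _ ((hz u).pull (Pq.fst Pq.id) fun _ h => h.1) (Pq.snd Pq.id)))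
    ((Pq.fst Pq.id).mk (Pq.yv (fun u => (hz u).pull (Pq.fst Pq.id) fun _ h => h.1)
      (Pq.pv (fun u v => (he u v).pull (Pq.fst Pq.id) fun _ h => h.1)
        (fun u => (hz u).pull (Pq.fst Pq.id) fun _ h => h.1) _) ha
      (Pq.pv1 (fun u v => (he u v).pull (Pq.fst Pq.id) fun _ h => h.1) ha _)))
    (fun w hw => ?_) (fun y hx => ?_) (fun w hw => ?_) (fun y hx => ?_) Eqs.refl
    (h.as_rats (p' := fun y => FV q (-ε) b y = (sg (-ε) : Ω) • y) (fun y hy => kr_of_fix hy) hp)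
  · have e1 := (hy _ hw.1).of_fix k hw.2
    dsimp only
    rw [e1.1.pext_res]
    exact ⟨hw.1, e1.2⟩
  · exact ⟨hx.1, ((hy _ hx.1).fix k h3 hc (pe_pext _ _) hx.2.1 hx.2.2 rfl).1⟩
  · refine Prod.ext rfl ?_
    dsimp only
    rw [((hy _ hw.1).of_fix k hw.2).1.pext_res,
      show Pv D (e w.1) (fun v => Bf (-ε) (z w.1 v) w.2) (-1) = _ from
        funext (pv_map (bfl (-ε) w.2) (z w.1) (-1))]
    exact Hyb.yv_eq ((hy _ hw.1).hy (-1)) hc w.2
  · refine Prod.ext rfl ?_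
    dsimp only
    rw [← funext ((hy _ hx.1).fix k h3 hc (pe_pext _ _) hx.2.1 hx.2.2 rfl).2, res_pext]

theorem Au.hstep (h : Au k q G) (h2 : (2 : Ω) ≠ 0) (h3 : C3 s D R f g)
    (hc : (bd D R f (-1)).card = Fintype.card ι) (he : ∀ u v, Pq k p fun x => e x u v)
    (hz : ∀ u, Pq k p fun x => z x u) (hy : ∀ x, p x → Ys q ε b s D R f (e x) (z x))
    (hψ : Pq k p ψ) (h0 : Gy k G p) (hp : Gy k G (AS q p ψ)) :
    Gy k G (AS q (fun y : α × (ZMod s → Ω × Ω) => p y.1 ∧ Acz R (pext (F1 q ε false) s y.2))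
      fun y => ψ y.1 + ph s D (B1 ε) (e y.1) (pext (F1 q ε false) s y.2)) := by
  have c0 : (2 * sg ε : Ω) ≠ 0 := mul_ne_zero h2 (sg_ne ε)
  have key := h.as_aff (p := fun y : α × (ZMod s → Ω) => p y.1 ∧ Acz R (pext (frq q) s y.2))
    (ψ := fun y => ψ y.1) (fun c : ZMod s => R c.val)
    (D := fun y c => 2 * sg ε * Ew D (e y.1) (pext (frq q) s y.2) c.val)
    (Pq.pi fun c => ((Pq.const 2).mul (Pq.const _)).mul
      (Pq.ev1 (fun u v => (he u v).pull (Pq.fst Pq.id) fun _ h => h.1)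
        (Pq.pext sem_fr.po sem_fr.po' (Pq.snd Pq.id)) _))
    (hψ.pull (Pq.fst Pq.id) fun _ h => h.1)
    (fun x c hx hR => mul_eq_zero_of_right _ (sum_eq_zero fun v _ => by
      rw [by_contra fun hn => hR ((hy _ hx.1).se.of_ne (hy _ hx.1).am (v := v) hn).1, zero_smul]))
    (h.gacz sem_fr h3.toIs h0) ((h.hlocus h3 hc he hz hy hp).as_of_iff (fun x => by
      rw [and_assoc]
      refine and_congr_right fun hx => and_congr_right fun _ => ⟨fun e1 => ?_, fun e1 => ?_⟩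
      · refine Ew.zero_of (k := k) sem_fr (hy _ hx).am (pe_pext _ _) 0 fun u a1 a2 => ?_
        have := congrFun e1 (u : ZMod s)
        rw [val_SE1 a1 (by omega)] at this
        exact (mul_eq_zero.1 this).resolve_left c0
      · exact funext fun c => mul_eq_zero_of_right _ (e1 _)) fun _ _ => rfl)
  have s0 := (sem_fr (k := k) (Ω := Ω)).act_iff (s := s) h3.perR
  have s1 := (sem_F1 (k := k) (Ω := Ω) ε false).act_iff (s := s) h3.perR
  refine h.as_iso (fun w : (α × (ZMod s → Ω)) × (ZMod s → Ω) => (w.1.1, fun c => (w.1.2 c, w.2 c)))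
    (fun y => ((y.1, fun c => (y.2 c).1), fun c => (y.2 c).2)) (by fun_prop) (by fun_prop)
    (fun w hw => ⟨hw.1.1, (s1 _).2 fun c hR => Prod.ext ((s0 _).1 hw.1.2 c hR) (hw.2 c hR)⟩)
    (fun y hx => ⟨⟨hx.1, (s0 _).2 fun c hR => congrArg Prod.fst ((s1 _).1 hx.2 c hR)⟩,
      fun c hR => congrArg Prod.snd ((s1 _).1 hx.2 c hR)⟩)
    (fun _ _ => rfl) (fun _ _ => rfl) (Eqs.refl.add ?_) key
  refine ((Eqs.of_eq fun w _ => ?_).trans (eqs_h (e := fun w => e w.1.1)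
    (a := fun w => pext (frq q) s w.1.2) (a' := fun w => pext (frz q ε) s w.2)
    (fun u v => ?_) (fun u => ?_) (fun u => ?_) (fun w hw => (hy _ hw.1.1).am)
    (fun _ _ => pe_pext _ _) fun _ _ => pe_pext _ _)).trans (Eqs.of_eq fun w _ => ?_)
  · exact congrArg _ (funext (pext_F1_false _))
  · exact (he u v).pull (Pq.fst (Pq.fst Pq.id)) fun _ h => h.1.1
  · exact Pq.pext sem_fr.po sem_fr.po' (Pq.snd (Pq.fst Pq.id)) u
  · exact Pq.pext (sem_frs ε).po (sem_frs ε).po' (Pq.snd Pq.id) u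
  · refine sum_nbij' (fun v => (v : ZMod s)) (fun c => c.val) (fun _ _ => mem_univ _)
      (fun c _ => mem_Ico.2 ⟨Int.natCast_nonneg _, by exact_mod_cast c.val_lt⟩)
      (fun v hv => val_SE1 (mem_Ico.1 hv).1 (mem_Ico.1 hv).2) (fun c _ => by simp) fun v hv => ?_
    beta_reduce
    rw [val_SE1 (mem_Ico.1 hv).1 (mem_Ico.1 hv).2, pext_of_mem (mem_Ico.1 hv).1 (mem_Ico.1 hv).2]

end Pool.Agent.CXD
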