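import Pool.Agent.P.MP_2ce3e7_ag.SB6
import Pool.Agent.P.MP_2ce3e7_ag.SB4

/-! Planes with exchanged lines: free boundary values. -/

set_option linter.unusedSectionVars false
set_option linter.unusedVariables false

open Function Matrix

noncomputable section

namespace Pool.Agent.CXD
open Finset

variable {k Ω : Type} [Field k] [Field Ω] [Algebra k Ω] {q : ℕ} {ε : ℤˣ} {s D : ℕ} [NeZero s]
  {R : ℤ → Prop} {f g : ℤ → ℤ} {ι : Type} [Fintype ι] {b : ι → Bool} {G : Gp Ω}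
  {e : ℤ → ℤ → Ω} {θ : ℤ} [IsAlgClosed Ω] [Sq k q]

/-- extension by zero of boundary values -/
def xa {D : ℕ} {R : ℤ → Prop} {f : ℤ → ℤ} (t : Bi D R f → Ω) (u : ℤ) : Ω :=
  if h : u ∈ bd D R f (-1) then t ⟨u, h⟩ else 0

/-- a sequence with boundary values and values on a period -/
def sqn {s D : ℕ} {R : ℤ → Prop} {f : ℤ → ℤ} (a : Bi D R f ⊕ ZMod s → Ω) (u : ℤ) : Ω :=
  if 0 ≤ u ∧ u < s then a (.inr u) else xa (fun i => a (.inl i)) u

/-- the values of a sequence -/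
def vls (s D : ℕ) (R : ℤ → Prop) (f : ℤ → ℤ) (a : ℤ → Ω) : Bi D R f ⊕ ZMod s → Ω :=
  Sum.elim (fun i => a i) (rsn s a)

/-- the periodicity constraints -/
def Dc (q : ℕ) {s D : ℕ} {R : ℤ → Prop} {f : ℤ → ℤ} (a a' : Bi D R f ⊕ ZMod s → Ω) :
    Bi D R f ⊕ Bi D R f → Ω :=
  Sum.elim (fun i => sqn a' (i + s) - a (.inl i) ^ q) fun i => sqn a (i + s) - a' (.inl i) ^ q

/-- vanishing at inactive places -/
def Aci {s D : ℕ} (R : ℤ → Prop) {f : ℤ → ℤ} (a : Bi D R f ⊕ ZMod s → Ω) : Prop :=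
  ∀ c : ZMod s, ¬R c.val → a (.inr c) = 0

theorem sqn_inl (h : Is s D R f) (a : Bi D R f ⊕ ZMod s → Ω) (i : Bi D R f) :
    sqn a i = a (.inl i) := by
  have h1 := (h.mem_bd.1 i.2).2.1
  rw [sqn, if_neg (by omega), xa, dif_pos i.2]

theorem sqn_inr (a : Bi D R f ⊕ ZMod s → Ω) (c : ZMod s) : sqn a c.val = a (.inr c) := by
  rw [sqn, if_pos ⟨Int.natCast_nonneg _, by exact_mod_cast ZMod.val_lt c⟩]
  simp

theorem vls_sqn (h : Is s D R f) (a : Bi D R f ⊕ ZMod s → Ω) : vls s D R f (sqn a) = a := by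
  funext j
  rcases j with i | c
  · exact sqn_inl h a i
  · exact sqn_inr a c

theorem sqn_vls (h : Is s D R f) (a : ℤ → Ω) {u : ℤ} (hu : u ∈ bd D R f (-1) ∨ (0 ≤ u ∧ u < s)) :
    sqn (vls s D R f a) u = a u := by
  rcases hu with hu | hu
  · exact sqn_inl h _ ⟨u, hu⟩
  · rw [sqn, if_pos hu]
    exact res_cast a hu.1 hu.2

/-- the quadratic function only sees boundary values and the period -/
theorem ph_congr {W : Type} {B : W → W → Ω} (h : Is s D R f) (hs : Se ε R f e) {x x' : ℤ → W}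
    (h1 : ∀ u, u ∈ bd D R f (-1) ∨ (0 ≤ u ∧ u < s) → x u = x' u) :
    ph s D B e x = ph s D B e x' := by
  refine Finset.sum_congr rfl fun v hv => ?_
  rw [Finset.mem_Ico] at hv
  rw [h1 v (Or.inr hv)]
  refine congrArg (fun t => e v v * B (x' v) (x' v) + 2 * t) (Finset.sum_congr rfl fun u hu => ?_)
  rw [Finset.mem_Ico] at hu
  by_cases h2 : ok ε R f u v
  · rw [h1 u ?_]
    by_cases h3 : 0 ≤ u
    · exact Or.inr ⟨h3, by omega⟩
    · exact Or.inl (h.mem_bd.2 ⟨h2.1, by omega, by have := h2.2.2.1; omega⟩)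
  · rw [hs u v hu.2.le h2, zero_mul, zero_mul]

theorem sqn_congr_SB7 {a a' : Bi D R f ⊕ ZMod s → Ω} {u : ℤ} (h1 : ∀ c, a (.inr c) = a' (.inr c))
    (h2 : ∀ i : Bi D R f, i.1 = u → a (.inl i) = a' (.inl i)) : sqn a u = sqn a' u := by
  unfold sqn xa
  split_ifs with h3 h4
  · exact h1 _
  · exact h2 _ rfl
  · rfl

theorem shift_SB7 (h : Is s D R f) {u : ℤ} (hu : u ∈ bd D R f (-1)) :
    u + s ∈ bd D R f (-1) ∨ (0 ≤ u + s ∧ u + s < s) := by
  obtain ⟨h1, h2, h3⟩ := h.mem_bd.1 hu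
  have h4 := pos_SE0 s
  by_cases h5 : 0 ≤ u + s
  · exact Or.inr ⟨h5, by omega⟩
  · exact Or.inl (h.mem_bd.2 ⟨(h.perR u).2 h1, by omega, by rw [h.perf]; omega⟩)

theorem F1_SB7 (k : Type) [Field k] [Algebra k Ω] [Sq k q] (x : Ω × Ω) :
    F1 q ε true x = (x.2 ^ q, x.1 ^ q) := Prod.ext (fr_apply k _) (fr_apply k _)

theorem vls_congr_SB7 {a a' : ℤ → Ω}
    (h1 : ∀ u, u ∈ bd D R f (-1) ∨ (0 ≤ u ∧ u < s) → a u = a' u) :
    vls s D R f a = vls s D R f a' := by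
  funext j
  rcases j with i | c
  · exact h1 _ (Or.inl i.2)
  · exact h1 _ (Or.inr ⟨Int.natCast_nonneg _, by exact_mod_cast ZMod.val_lt c⟩)

theorem key_SB7 (k : Type) [Field k] [Algebra k Ω] [Sq k q] (h : Is s D R f)
    {a a' : Bi D R f ⊕ ZMod s → Ω} (hd : Dc q a a' = 0) (u : ℤ)
    (hu : u ∈ bd D R f (-1) ∨ (0 ≤ u ∧ u < s)) :
    pext (F1 q ε true) s (fun c => (a (.inr c), a' (.inr c))) u = (sqn a u, sqn a' u) := by
  have h0 : ∀ u : ℤ, 0 ≤ u ∧ u < s →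
      pext (F1 q ε true) s (fun c => (a (.inr c), a' (.inr c))) u = (sqn a u, sqn a' u) :=
    fun u hu => by rw [pext_of_mem hu.1 hu.2, sqn, sqn, if_pos hu, if_pos hu]
  have key : ∀ n : ℕ, ∀ u : ℤ, -(n : ℤ) ≤ u → u ∈ bd D R f (-1) ∨ (0 ≤ u ∧ u < s) →
      pext (F1 q ε true) s (fun c => (a (.inr c), a' (.inr c))) u = (sqn a u, sqn a' u) := by
    intro n
    induction n with
    | zero =>
      rintro u h1 (hu | hu)
      · have := (h.mem_bd.1 hu).2.1
        omega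
      · exact h0 u hu
    | succ n ih =>
      rintro u h1 (hu | hu)
      · have h2 := pos_SE0 s
        have h3 := ih (u + s) (by omega) (shift_SB7 h hu)
        rw [pe_pext] at h3
        apply (F1 q ε true).injective
        rw [h3, F1_SB7 k, sqn_inl h a ⟨u, hu⟩, sqn_inl h a' ⟨u, hu⟩]
        exact Prod.ext (sub_eq_zero.1 (congrFun hd (.inr ⟨u, hu⟩)))
          (sub_eq_zero.1 (congrFun hd (.inl ⟨u, hu⟩)))
      · exact h0 u hu
  exact key (-u).toNat u (by omega) hu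

variable {α : Type} [Af Ω α] {p : α → Prop} {ψ : α → Ω}

theorem Pq.xa {t : α → Bi D R f → Ω} (h : Pq k p t) (u : ℤ) : Pq k p fun x => xa (t x) u :=
  Pq.dite _ (fun hu => h.eval ⟨u, hu⟩) fun _ => Pq.const 0

theorem Pq.sqn {a : α → Bi D R f ⊕ ZMod s → Ω} (h : Pq k p a) (u : ℤ) :
    Pq k p fun x => sqn (a x) u :=
  Pq.ite _ (h.eval _) (Pq.xa (Pq.pi fun i => h.eval (Sum.inl i)) u)

theorem Pq.vls {a : α → ℤ → Ω} (h : ∀ u, Pq k p fun x => a x u) :
    Pq k p fun x => vls s D R f (a x) :=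
  Pq.pi fun j => match j with
    | .inl i => h i
    | .inr c => h c.val

theorem Pq.dc {a a' : α → Bi D R f ⊕ ZMod s → Ω} (h : Pq k p a) (h' : Pq k p a') :
    Pq k p fun x => Dc q (a x) (a' x) :=
  Pq.pi fun j => match j with
    | .inl i => (h'.sqn (i + s)).sub ((h.eval (Sum.inl i)).pow q)
    | .inr i => (h.sqn (i + s)).sub ((h'.eval (Sum.inl i)).pow q)

theorem root_SB7 (k : Type) [Field k] [Algebra k Ω] [Sq k q] (x y : Ω) :
    x = (frq q).symm y ↔ y - x ^ q = 0 := by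
  rw [Equiv.eq_symm_apply, fr_apply k, sub_eq_zero, eq_comm]

theorem Au.ngraphs (h : Au k q G) (hi : Is s D R f) (hp : Gy k G p)
    (S : Finset (Bi D R f ⊕ Bi D R f)) :
    Gy k G fun y : α × (Bi D R f ⊕ ZMod s → Ω) × (Bi D R f ⊕ ZMod s → Ω) =>
      (p y.1 ∧ Aci R y.2.1 ∧ Aci R y.2.2) ∧ ∀ i ∈ S, Dc q y.2.1 y.2.2 i = 0 := by
  classical
  have hs := pos_SE0 s
  have h0 : Gy k G fun y : α × ((Bi D R f ⊕ ZMod s) ⊕ (Bi D R f ⊕ ZMod s) → Ω) =>
      p y.1 ∧ Aci R (fun j => y.2 (.inl j)) ∧ Aci R fun j => y.2 (.inr j) := by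
    refine (h.gsupp (Sum.elim (Sum.elim (fun _ => False) fun c : ZMod s => ¬R c.val)
      (Sum.elim (fun _ => False) fun c : ZMod s => ¬R c.val)) hp).congr fun y =>
        and_congr_right fun _ => ⟨fun H j hj => ?_, fun H => ⟨fun c hc => H (.inl (.inr c)) hc,
          fun c hc => H (.inr (.inr c)) hc⟩⟩
    rcases j with (i | c) | i | c
    · exact hj.elim
    · exact H.1 c hj
    · exact hj.elim
    · exact H.2 c hj
  have h1 := h.gtri (Sum.map Sum.inl Sum.inl : Bi D R f ⊕ Bi D R f → _)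
    (Sum.inl_injective.sumMap Sum.inl_injective)
    (Sum.elim (Sum.elim (fun i => i.1) fun _ => 0) (Sum.elim (fun i => i.1) fun _ => 0))
    (Φ := Sum.elim (fun i y => (frq q).symm (sqn (fun j => y.2 (.inr j)) (i + s)))
      fun i y => (frq q).symm (sqn (fun j => y.2 (.inl j)) (i + s))) ?_ ?_ ?_ h0 S
  · refine h.giso (fun y => (y.1, fun j => y.2 (.inl j), fun j => y.2 (.inr j)))
      (fun y => (y.1, Sum.elim y.2.1 y.2.2)) (by fun_prop) (by fun_prop)
      (fun y hy => ⟨hy.1, fun i hS => ?_⟩) (fun y hy => ⟨hy.1, fun i hS => ?_⟩)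
      (fun y _ => Prod.ext rfl (funext fun j => by rcases j with j | j <;> rfl)) (fun y _ => rfl) h1
    · rcases i with i | i
      · exact (root_SB7 k _ _).1 (hy.2 _ hS)
      · exact (root_SB7 k _ _).1 (hy.2 _ hS)
    · rcases i with i | i
      · exact (root_SB7 k _ _).2 (hy.2 _ hS)
      · exact (root_SB7 k _ _).2 (hy.2 _ hS)
  · rintro (i | i)
    · exact po_fr_symm.comp (Pq.sqn (Pq.pi fun j => (Pq.snd Pq.id).eval (Sum.inr j)) _)
    · exact po_fr_symm.comp (Pq.sqn (Pq.pi fun j => (Pq.snd Pq.id).eval (Sum.inl j)) _)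
  · rintro x y i t ⟨H1, H2, H3⟩
    refine ⟨H1, fun c hc => ?_, fun c hc => ?_⟩
    · dsimp only
      rw [update_of_ne (by cases i <;> simp)]
      exact H2 c hc
    · dsimp only
      rw [update_of_ne (by cases i <;> simp)]
      exact H3 c hc
  · rintro x y (i | i) (j | j) t - H <;>
      refine congrArg (frq q).symm (sqn_congr_SB7 (fun c => ?_) fun l hl => ?_) <;>
      dsimp only <;> rw [update_of_ne] <;> intro e <;>
      simp only [Sum.map_inl, Sum.map_inr, Sum.elim_inl, Sum.elim_inr, Sum.inl.injEq,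
        Sum.inr.injEq, reduceCtorEq] at e H <;>
      subst e <;> omega

theorem Au.niso (h : Au k q G) (hi : Is s D R f) {e : α → ℤ → ℤ → Ω}
    (hs : ∀ x, p x → Se ε R f (e x))
    (hp : Gy k G (AS q (fun y : α × (Bi D R f ⊕ ZMod s → Ω) × (Bi D R f ⊕ ZMod s → Ω) =>
      (p y.1 ∧ Aci R y.2.1 ∧ Aci R y.2.2) ∧ Dc q y.2.1 y.2.2 = 0)
      fun y => ψ y.1 + ph s D (B1 ε) (e y.1) fun u => (sqn y.2.1 u, sqn y.2.2 u))) :
    Gy k G (AS q (fun y : α × (ZMod s → Ω × Ω) => p y.1 ∧ Acz R (pext (F1 q ε true) s y.2))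
      fun y => ψ y.1 + ph s D (B1 ε) (e y.1) (pext (F1 q ε true) s y.2)) := by
  have hF : Sem k q (F1 q ε true : Equiv.Perm (Ω × Ω)) := sem_F1 ε true
  have hx : ∀ u, Pq k (fun y : α × (ZMod s → Ω × Ω) => p y.1 ∧ Acz R (pext (F1 q ε true) s y.2))
      fun y => pext (F1 q ε true) s y.2 u := fun u => Pq.pext hF.po hF.po' (Pq.snd Pq.id) u
  refine h.as_iso (fun y => (y.1, fun c => (y.2.1 (.inr c), y.2.2 (.inr c))))
    (fun y => (y.1, vls s D R f fun u => (pext (F1 q ε true) s y.2 u).1,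
      vls s D R f fun u => (pext (F1 q ε true) s y.2 u).2)) (by fun_prop)
    ((Pq.fst Pq.id).mk ((Pq.vls fun u => (hx u).fst).mk (Pq.vls fun u => (hx u).snd)))
    (fun y hy => ⟨hy.1.1, (hF.act_iff hi.perR _).2 fun c hc =>
      Prod.ext (hy.1.2.1 c hc) (hy.1.2.2 c hc)⟩)
    (fun y hy => ⟨⟨hy.1, fun c hc => congrArg Prod.fst (hy.2 _ hc),
      fun c hc => congrArg Prod.snd (hy.2 _ hc)⟩, funext fun j => ?a⟩)
    (fun y hy => Prod.ext rfl (Prod.ext ?b ?c))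
    (fun y hy => Prod.ext rfl (res_pext (F1 q ε true) y.2))
    (Eqs.of_eq fun y hy => congrArg (ψ y.1 + ·)
      (ph_congr hi (hs _ hy.1.1) (key_SB7 k hi hy.2))) hp
  case a =>
    rcases j with i | i
    · refine sub_eq_zero.2 ?_
      dsimp only
      rw [sqn_vls hi _ (shift_SB7 hi i.2), pe_pext, F1_SB7 k]
      rfl
    · refine sub_eq_zero.2 ?_
      dsimp only
      rw [sqn_vls hi _ (shift_SB7 hi i.2), pe_pext, F1_SB7 k]
      rfl
  case b =>
    exact (vls_congr_SB7 fun u hu => congrArg Prod.fst (key_SB7 (ε := ε) k hi hy.2 u hu)).trans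
      (vls_sqn hi _)
  case c =>
    exact (vls_congr_SB7 fun u hu => congrArg Prod.snd (key_SB7 (ε := ε) k hi hy.2 u hu)).trans
      (vls_sqn hi _)

end Pool.Agent.CXD
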