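import Pool.Agent.P.MP_2ce3e7_ag.SB7

/-! Planes with exchanged lines: the linear step. -/

set_option linter.unusedSectionVars false
set_option linter.unusedVariables false

open Function Matrix

noncomputable section

namespace Pool.Agent.CXD
open Finset

variable {k Ω : Type} [Field k] [Field Ω] [Algebra k Ω] {q : ℕ} {ε : ℤˣ} {s D : ℕ} [NeZero s]
  {R : ℤ → Prop} {f g : ℤ → ℤ} {ι : Type} [Fintype ι] {b : ι → Bool} {G : Gp Ω}
  {e : ℤ → ℤ → Ω} {θ : ℤ} [IsAlgClosed Ω] [Sq k q]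

/-- the coefficients of the second coordinates, up to the factor `2 ε` -/
def Dn {s D : ℕ} {R : ℤ → Prop} {f : ℤ → ℤ} (e : ℤ → ℤ → Ω) (a : Bi D R f ⊕ ZMod s → Ω)
    (t t' : Bi D R f → Ω) : Bi D R f ⊕ ZMod s → Ω :=
  Sum.elim (fun i => ∑ v ∈ Ioc (-1 : ℤ) (-1 + s), e i v * sqn a v + xa t' (i - s) - t i)
    fun c => ∑ v ∈ Icc ((c.val : ℤ) - D) (-1 + s), e c.val v * sqn a v + xa t' (c.val - s)

/-- the remaining term, up to the factor `-2 ε` -/
def Gn (q : ℕ) {s D : ℕ} {R : ℤ → Prop} {f : ℤ → ℤ} (a : Bi D R f ⊕ ZMod s → Ω)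
    (t t' : Bi D R f → Ω) : Ω :=
  ∑ i, (t' i * a (.inl i) ^ q + t i ^ q * sqn a (i + s))

theorem sum_zmod_SB8 (F : ℤ → Ω) : ∑ c : ZMod s, F c.val = ∑ v ∈ Ico (0 : ℤ) s, F v := by
  refine Finset.sum_bij' (fun c _ => (c.val : ℤ)) (fun v _ => (v : ZMod s)) (fun c _ => ?_)
    (fun v _ => mem_univ _) (fun c _ => by simp) (fun v hv => ?_) fun c _ => rfl
  · exact mem_Ico.2 ⟨Int.natCast_nonneg _, by exact_mod_cast ZMod.val_lt c⟩
  · exact val_SE1 (mem_Ico.1 hv).1 (mem_Ico.1 hv).2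

theorem xa_mem_SB8 (t : Bi D R f → Ω) (i : Bi D R f) : xa t i = t i := dif_pos i.2

theorem xa_not_SB8 (t : Bi D R f → Ω) {u : ℤ} (hu : u ∉ bd D R f (-1)) : xa t u = 0 := dif_neg hu

theorem xa_zero_SB8 (u : ℤ) : xa (0 : Bi D R f → Ω) u = 0 := by
  unfold xa
  split_ifs <;> rfl

theorem sqn_not_SB8 (a : Bi D R f ⊕ ZMod s → Ω) {u : ℤ} (hu : u ∉ bd D R f (-1))
    (h1 : ¬(0 ≤ u ∧ u < s)) : sqn a u = 0 := by
  unfold sqn
  rw [if_neg h1, xa_not_SB8 _ hu]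

theorem dot_SB8 (h : Is s D R f) (a' : Bi D R f ⊕ ZMod s → Ω) (F F' : ℤ → Ω) :
    a' ⬝ᵥ Sum.elim (fun i : Bi D R f => F i) (fun c : ZMod s => F' c.val) =
      ∑ u ∈ bd D R f (-1), sqn a' u * F u + ∑ u ∈ Ico (0 : ℤ) s, sqn a' u * F' u := by
  rw [dotProduct, Fintype.sum_sum_type, ← sum_zmod_SB8, ← Finset.sum_coe_sort (bd D R f (-1))]
  simp only [Sum.elim_inl, Sum.elim_inr, sqn_inl h, sqn_inr]

theorem shift_SB8 (h : Is s D R f) (i : Bi D R f) :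
    (i : ℤ) + s ∈ bd D R f (-1) ∨ (0 ≤ (i : ℤ) + s ∧ (i : ℤ) + s < s) := by
  obtain ⟨h1, h2, h3⟩ := h.mem_bd.1 i.2
  have := pos_SE0 s
  by_cases h0 : 0 ≤ (i : ℤ) + s
  · exact Or.inr ⟨h0, by omega⟩
  · exact Or.inl (h.mem_bd.2 ⟨(h.perR _).2 h1, by omega, by rw [h.perf]; omega⟩)

theorem ite_SB8 (h : Is s D R f) (t : Bi D R f → Ω) (u : ℤ) :
    (if -1 + (s : ℤ) < f u then xa t (u - s) else 0) = xa t (u - s) := by
  split_ifs with h1
  · rfl
  · refine (xa_not_SB8 t fun h2 => h1 ?_).symm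
    have h3 := (h.mem_bd.1 h2).2.2
    have h4 := h.perf (u - s)
    rw [sub_add_cancel] at h4
    omega

theorem ph_sqn (h : Is s D R f) (ha : Amx q ε s D e) (hs : Se ε R f e)
    (a a' : Bi D R f ⊕ ZMod s → Ω) :
    ph s D (B1 ε) e (fun u => (sqn a u, sqn a' u)) = 2 * sg ε * (a' ⬝ᵥ Dn e a 0 0) := by
  have e1 : Dn e a 0 0 = Sum.elim (fun i : Bi D R f => ∑ v ∈ Ico (0 : ℤ) s, e i v * sqn a v)
      fun c : ZMod s => ∑ v ∈ Ico ((c.val : ℤ) - D) c.val, e c.val v * sqn a v +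
        e c.val c.val * sqn a c.val + ∑ v ∈ Ioo (c.val : ℤ) s, e c.val v * sqn a v := by
    funext j
    rcases j with i | c
    · simp only [Dn, Sum.elim_inl, xa_zero_SB8, Pi.zero_apply, add_zero, sub_zero]
      refine Finset.sum_congr ?_ fun _ _ => rfl
      ext v
      simp only [mem_Ioc, mem_Ico]
      omega
    · simp only [Dn, Sum.elim_inr, xa_zero_SB8, add_zero]
      have hc : ((c.val : ℕ) : ℤ) < s := by exact_mod_cast ZMod.val_lt c
      have e2 : Icc ((c.val : ℤ) - D) (-1 + s) =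
          Ico ((c.val : ℤ) - D) c.val ∪ insert (c.val : ℤ) (Ioo (c.val : ℤ) s) := by
        ext v
        simp only [mem_Icc, mem_Ico, mem_union, mem_insert, mem_Ioo]
        omega
      rw [e2, sum_union, sum_insert (by simp), add_assoc]
      refine disjoint_left.2 fun v h1 h2 => ?_
      simp only [mem_Ico, mem_insert, mem_Ioo] at h1 h2
      omega
  have e3 : ∀ v ∈ Ico (0 : ℤ) s, ∑ u ∈ Ico (v - D) v, sqn a' u * (e u v * sqn a v) =
      ∑ u ∈ bd D R f (-1), sqn a' u * (e u v * sqn a v) +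
        ∑ u ∈ Ico 0 v, sqn a' u * (e u v * sqn a v) := by
    intro v hv
    rw [mem_Ico] at hv
    rw [← sum_union]
    · refine sum_congr_of_eq_on_inter (fun u h1 h2 => ?_) (fun u h1 h2 => ?_) fun _ _ _ => rfl
      · rw [mem_union, not_or, mem_Ico] at h2
        rw [mem_Ico] at h1
        rw [sqn_not_SB8 a' h2.1 (by omega), zero_mul]
      · have : u < v := by
          rcases mem_union.1 h1 with h3 | h3
          · have := (h.mem_bd.1 h3).2.1
            omega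
          · exact (mem_Ico.1 h3).2
        rw [mem_Ico] at h2
        have h3 : e u v = 0 := hs u v this.le fun h4 => by
          have := h4.2.2.1
          have := h.hi u
          omega
        rw [h3, zero_mul, mul_zero]
    · refine disjoint_left.2 fun u h1 h2 => ?_
      have := (h.mem_bd.1 h1).2.1
      rw [mem_Ico] at h2
      omega
  have e4 : ∑ v ∈ Ico (0 : ℤ) s, ∑ u ∈ Ico 0 v, sqn a' u * (e u v * sqn a v) =
      ∑ u ∈ Ico (0 : ℤ) s, ∑ v ∈ Ioo u s, sqn a' u * (e u v * sqn a v) :=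
    sum_comm' fun v u => by
      simp only [mem_Ico, mem_Ioo]
      omega
  rw [e1, dot_SB8 h a' (fun u => ∑ v ∈ Ico (0 : ℤ) s, e u v * sqn a v) fun u : ℤ =>
    ∑ v ∈ Ico (u - D) u, e u v * sqn a v + e u u * sqn a u + ∑ v ∈ Ioo u s, e u v * sqn a v]
  have e6 : ∑ u ∈ bd D R f (-1), sqn a' u * ∑ v ∈ Ico (0 : ℤ) s, e u v * sqn a v =
      ∑ v ∈ Ico (0 : ℤ) s, ∑ u ∈ bd D R f (-1), sqn a' u * (e u v * sqn a v) := by
    rw [sum_comm]
    simp only [mul_sum]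
  simp only [mul_add, sum_add_distrib, mul_sum (s := Ioo _ _)]
  rw [← e4, e6]
  simp only [← mul_add, ← sum_add_distrib]
  rw [ph, mul_sum]
  refine sum_congr rfl fun v hv => ?_
  have e5 : ∑ u ∈ Ico (v - D) v, e u v * B1 ε (sqn a u, sqn a' u) (sqn a v, sqn a' v) =
      sg ε * (sqn a' v * ∑ u ∈ Ico (v - D) v, e v u * sqn a u) +
        sg ε * ∑ u ∈ Ico (v - D) v, sqn a' u * (e u v * sqn a v) := by
    rw [mul_sum, mul_sum, mul_sum, ← sum_add_distrib]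
    refine sum_congr rfl fun u _ => ?_
    rw [B1, ha.sym v u]
    ring
  rw [e5, e3 v hv, B1]
  linear_combination (sqn a v * sqn a' v) * ha.sym v v

theorem dot_Dn (h : Is s D R f) (a a' : Bi D R f ⊕ ZMod s → Ω) (t t' : Bi D R f → Ω) :
    a' ⬝ᵥ Dn e a t t' =
      a' ⬝ᵥ Dn e a 0 0 + ∑ i, (t' i * sqn a' (i + s) - t i * a' (.inl i)) := by
  have e1 : Dn e a t t' = Dn e a 0 0 + Sum.elim (fun i : Bi D R f => xa t' (i - s) - xa t i)
      fun c : ZMod s => xa t' (c.val - s) := by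
    funext j
    rcases j with i | c
    · simp only [Dn, Pi.add_apply, Sum.elim_inl, xa_zero_SB8, Pi.zero_apply, xa_mem_SB8]
      ring
    · simp only [Dn, Pi.add_apply, Sum.elim_inr, xa_zero_SB8, add_zero]
  have e2 : ∑ u ∈ bd D R f (-1), sqn a' u * xa t' (u - s) +
      ∑ u ∈ Ico (0 : ℤ) s, sqn a' u * xa t' (u - s) = ∑ i, t' i * sqn a' (i + s) := by
    have e3 : ∑ i, t' i * sqn a' (i + s) =
        ∑ u ∈ (bd D R f (-1)).map (addRightEmbedding (s : ℤ)), sqn a' u * xa t' (u - s) := by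
      rw [sum_map, ← Finset.sum_coe_sort (bd D R f (-1))]
      refine sum_congr rfl fun i _ => ?_
      rw [addRightEmbedding_apply, add_sub_cancel_right, xa_mem_SB8, mul_comm]
    rw [e3, ← sum_union]
    · refine sum_congr_of_eq_on_inter (fun u h1 h2 => ?_) (fun u h1 h2 => ?_) fun _ _ _ => rfl
      · rw [xa_not_SB8 t' fun h3 => h2 (mem_map.2 ⟨_, h3, sub_add_cancel _ _⟩), mul_zero]
      · rw [mem_union, not_or, mem_Ico] at h2
        rw [sqn_not_SB8 a' h2.1 h2.2, zero_mul]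
    · refine disjoint_left.2 fun u h1 h2 => ?_
      have := (h.mem_bd.1 h1).2.1
      rw [mem_Ico] at h2
      omega
  have e4 : ∑ u ∈ bd D R f (-1), sqn a' u * xa t u = ∑ i, t i * a' (.inl i) := by
    rw [← Finset.sum_coe_sort (bd D R f (-1))]
    exact sum_congr rfl fun i _ => by rw [xa_mem_SB8, sqn_inl h, mul_comm]
  rw [e1, dotProduct_add, dot_SB8 h a' (fun u => xa t' (u - s) - xa t u) fun u => xa t' (u - s),
    sum_sub_distrib, ← e2, ← e4]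
  simp only [mul_sub, sum_sub_distrib]
  ring

theorem Dn_inactive (h : Is s D R f) (ha : Amx q ε s D e) (hs : Se ε R f e)
    (a : Bi D R f ⊕ ZMod s → Ω) (t t' : Bi D R f → Ω) {c : ZMod s} (hc : ¬R c.val) :
    Dn e a t t' (.inr c) = 0 := by
  have h1 : ∀ v, e c.val v = 0 := fun v => by_contra fun h2 => hc (hs.of_ne ha h2).1
  have h2 : ((c.val : ℕ) : ℤ) - s ∉ bd D R f (-1) := fun h3 =>
    hc (sub_add_cancel ((c.val : ℕ) : ℤ) s ▸ (h.perR _).2 (h.mem_bd.1 h3).1)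
  simp only [Dn, Sum.elim_inr, h1, zero_mul, sum_const_zero, xa_not_SB8 t' h2, add_zero]

theorem Dn_eq_zero (h : Is s D R f) (ha : Amx q ε s D e) (hs : Se ε R f e)
    (a : Bi D R f ⊕ ZMod s → Ω) (t t' : Bi D R f → Ω) :
    Dn e a t t' = 0 ↔ Tr D R f e (-1 + s) (sqn a) (xa t) fun u => xa t' (u - s) := by
  simp only [Tr, ite_SB8 h, smul_eq_mul]
  refine ⟨fun h0 => ⟨fun u hu => ?_, fun u _ h1 h2 => ?_⟩, fun ⟨h1, h2⟩ => funext fun j => ?_⟩
  · exact (xa_mem_SB8 t ⟨u, hu⟩).trans (sub_eq_zero.1 (congrFun h0 (.inl ⟨u, hu⟩))).symm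
  · have h3 := congrFun h0 (.inr (u : ZMod s))
    simp only [Dn, Sum.elim_inr] at h3
    rwa [val_SE1 h1 (by omega)] at h3
  · rcases j with i | c
    · exact sub_eq_zero.2 ((h1 i i.2).symm.trans (xa_mem_SB8 t i))
    · by_cases hc : R c.val
      · have hc' : ((c.val : ℕ) : ℤ) < s := by exact_mod_cast ZMod.val_lt c
        exact h2 _ hc (Int.natCast_nonneg _) (by omega)
      · exact Dn_inactive h ha hs a t t' hc

theorem Ys.gn (k : Type) [Field k] [Algebra k Ω] [Sq k q] {z : ℤ → ι ⊕ ι → Ω}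
    (hy : Ys q ε b s D R f e z) (h : C3 s D R f g) (hc : (bd D R f (-1)).card = Fintype.card ι)
    (y : ι ⊕ ι → Ω) :
    Gn q (vls s D R f fun v => Bf (-ε) (z v) y) (fun i => Bf (-ε) (Pv D e z (-1) i) y)
      (fun i => Bf (-ε) (Pv D e z (-1 + s) (i + s)) y) = Bf (-ε) y (FV q (-ε) b y) := by
  have hi := h.toIs
  have e1 : bd D R f (-1 + s) = (bd D R f (-1)).map (addRightEmbedding (s : ℤ)) := by
    ext u
    rw [mem_map]
    refine ⟨fun hu => ⟨u - s, hi.bd_per.1 ?_, sub_add_cancel _ _⟩, ?_⟩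
    · rwa [sub_add_cancel]
    · rintro ⟨v, hv, rfl⟩
      exact hi.bd_per.2 hv
  rw [Hyb.bf_eq (hy.hy (-1 + s)) ((h.card_bd _ _).trans hc), e1, sum_map,
    ← Finset.sum_coe_sort (bd D R f (-1)), Gn]
  refine sum_congr rfl fun i _ => ?_
  have e2 := Pv.per (sem_FV (k := k) (-ε) b) hy.am hy.pe (-1) i
  have e3 : Bf (-ε) (Pv D e z (-1 + s) (i + s)) (FV q (-ε) b y) =
      Bf (-ε) (Pv D e z (-1) i) y ^ q := by
    rw [e2, ← neg_smul, Bf_smul_left, Bf_FV _ _ _ _ k, sg_neg]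
    linear_combination (Bf (-ε) (Pv D e z (-1) i) y ^ q) * sg_mul_self (Ω := Ω) ε
  have e4 : Bf (-ε) (z (i + s)) (FV q (-ε) b y) = sg (-ε) * Bf (-ε) (z i) y ^ q := by
    rw [hy.pe, Bf_FV _ _ _ _ k]
  rw [addRightEmbedding_apply, e3, e4, sqn_vls hi _ (shift_SB8 hi i)]
  simp only [vls, Sum.elim_inl]
  linear_combination (-(Bf (-ε) (Pv D e z (-1 + s) (i + s)) y * Bf (-ε) (z i) y ^ q)) *
    sg_mul_self (Ω := Ω) (-ε)

variable {α : Type} [Af Ω α] {p : α → Prop} {ψ : α → Ω} {e : α → ℤ → ℤ → Ω}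
  {z : α → ℤ → ι ⊕ ι → Ω}

theorem Pq.dn (he : ∀ u v, Pq k p fun x => e x u v) {a : α → Bi D R f ⊕ ZMod s → Ω}
    {t t' : α → Bi D R f → Ω} (ha : Pq k p a) (ht : Pq k p t) (ht' : Pq k p t') :
    Pq k p fun x => Dn (e x) (a x) (t x) (t' x) :=
  Pq.elim (Pq.pi fun i => ((Pq.sum _ fun v => (he _ v).mul (ha.sqn v)).add (ht'.xa _)).sub
    (ht.eval i)) (Pq.pi fun c => (Pq.sum _ fun v => (he _ v).mul (ha.sqn v)).add (ht'.xa _))

theorem Pq.gn {a : α → Bi D R f ⊕ ZMod s → Ω} {t t' : α → Bi D R f → Ω} (ha : Pq k p a)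
    (ht : Pq k p t) (ht' : Pq k p t') : Pq k p fun x => Gn q (a x) (t x) (t' x) :=
  Pq.sum _ fun i => ((ht'.eval i).mul ((ha.eval _).pow q)).add
    (((ht.eval i).pow q).mul (ha.sqn _))

theorem Au.nlocus (h : Au k q G) (h3 : C3 s D R f g) (hc : (bd D R f (-1)).card = Fintype.card ι)
    (he : ∀ u v, Pq k p fun x => e x u v) (hz : ∀ u, Pq k p fun x => z x u)
    (hy : ∀ x, p x → Ys q ε b s D R f (e x) (z x))
    (hp : Gy k G (AS q (fun y : α × (ι ⊕ ι → Ω) => p y.1)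
      fun y => ψ y.1 + -(2 * sg ε) * Bf (-ε) y.2 (FV q (-ε) b y.2))) :
    Gy k G (AS q (fun y : α × (Bi D R f ⊕ ZMod s → Ω) × (Bi D R f → Ω) × (Bi D R f → Ω) =>
      (p y.1 ∧ Aci R y.2.1) ∧ Dn (e y.1) y.2.1 y.2.2.1 y.2.2.2 = 0)
      fun y => ψ y.1 + -(2 * sg ε) * Gn q y.2.1 y.2.2.1 y.2.2.2) := by
  have hi := h3.toIs
  have hs : (-1 : ℤ) ≤ -1 + s := by omega
  have hP : ∀ θ u, Pq k p fun x => Pv D (e x) (z x) θ u := Pq.pv he hz
  refine h.as_iso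
    (fun y : α × (ι ⊕ ι → Ω) => (y.1, vls s D R f fun v => Bf (-ε) (z y.1 v) y.2,
      fun i => Bf (-ε) (Pv D (e y.1) (z y.1) (-1) i) y.2,
      fun i => Bf (-ε) (Pv D (e y.1) (z y.1) (-1 + s) (i + s)) y.2))
    (fun y => (y.1, Yw (-ε) (bd D R f (-1)) (z y.1) (Pv D (e y.1) (z y.1) (-1)) (sqn y.2.1)
      (xa y.2.2.1))) ?_ ?_ (fun y hy' => ⟨⟨hy', fun c hc' => ?_⟩, ?_⟩) (fun y hy' => hy'.1.1)
    (fun y hy' => Prod.ext rfl ?_) (fun y hy' => ?_) (Eqs.of_eq fun y hy' => ?_) hp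
  · have h1 : Pq k (fun y : α × (ι ⊕ ι → Ω) => p y.1) fun y => y.1 := Pq.id.fst
    have h2 : Pq k (fun y : α × (ι ⊕ ι → Ω) => p y.1) fun y => y.2 := Pq.id.snd
    exact h1.mk ((Pq.vls fun v => Pq.bf _ ((hz v).pull h1 fun _ h => h) h2).mk
      ((Pq.pi fun i => Pq.bf _ ((hP _ _).pull h1 fun _ h => h) h2).mk
        (Pq.pi fun i => Pq.bf _ ((hP _ _).pull h1 fun _ h => h) h2)))
  · exact Pq.id.fst.mk (Pq.yv (fun u => (hz u).pull Pq.id.fst fun _ h => h.1.1)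
      (fun u => (hP _ u).pull Pq.id.fst fun _ h => h.1.1) (fun u => Pq.id.snd.fst.sqn u)
      fun u => Pq.id.snd.snd.fst.xa u)
  · change Bf (-ε) (z y.1 c.val) y.2 = 0
    rw [(hy _ hy').acz _ hc', Bf_zero_left]
  · have Y := hy _ hy'
    refine (Dn_eq_zero hi Y.am Y.se _ _ _).2 ((Y.tr hi hs y.2).congr hi Y.am Y.se
      (fun v hv => sqn_vls hi (fun v => Bf (-ε) (z y.1 v) y.2)
        (hv.imp_right fun h => ⟨h.2.1, by omega⟩))
      (fun u hu => xa_mem_SB8 _ ⟨u, hu⟩) (fun u hu => ?_) hs)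
    have hu' : u - s ∈ bd D R f (-1) := hi.bd_per.1 (by rwa [sub_add_cancel])
    exact (xa_mem_SB8 _ ⟨u - s, hu'⟩).trans (by simp only [sub_add_cancel])
  · refine Eq.trans ?_ (Hyb.yv_eq ((hy _ hy').hy (-1)) hc y.2)
    dsimp only [Yw]
    refine sum_congr rfl fun u hu => ?_
    rw [sqn_vls hi _ (Or.inl hu)]
    exact congrArg (fun w => _ + (sg (-ε) * w) • _) (xa_mem_SB8 _ ⟨u, hu⟩)
  · obtain ⟨x, a, t, t'⟩ := y
    have Y := hy _ hy'.1.1
    have hr := Y.rep h3 hs ((Dn_eq_zero hi Y.am Y.se _ _ _).1 hy'.2)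
    refine Prod.ext rfl (Prod.ext (funext fun j => ?_) (Prod.ext (funext fun i => ?_)
      (funext fun i => ?_)))
    · rcases j with i | c
      · exact (hr.1 i (Or.inl i.2)).symm.trans (sqn_inl hi a i)
      · by_cases hc' : R c.val
        · have h4 : ((c.val : ℕ) : ℤ) < s := by exact_mod_cast ZMod.val_lt c
          exact (hr.1 c.val (Or.inr ⟨hc', Int.natCast_nonneg _, by omega⟩)).symm.trans
            (sqn_inr a c)
        · change Bf (-ε) (z x c.val) _ = a (.inr c)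
          rw [Y.acz _ hc', Bf_zero_left]
          exact (hy'.1.2 c hc').symm
    · exact (Hyb.p_yv (Y.hy (-1)) i.2).trans (xa_mem_SB8 t i)
    · refine (hr.2 (i + s) (hi.bd_per.2 i.2)).symm.trans ?_
      simp only [add_sub_cancel_right, xa_mem_SB8]
  · rw [(hy _ hy').gn k h3 hc]

end Pool.Agent.CXD
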