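import Pool.Agent.P.MP_2ce3e7_ag.SA5

/-! Periodic sequences and the standard spaces. -/

set_option linter.unusedSectionVars false
set_option linter.unusedVariables false

open Function Matrix

noncomputable section

namespace Pool.Agent.CXD
variable (k : Type) {Ω : Type} [Field k] [Field Ω] [Algebra k Ω]

/-- semilinear permutations that are regular in both directions -/
structure Sem (q : ℕ) {β : Type} [Af Ω β] [AddCommGroup β] [Module Ω β] (F : Equiv.Perm β) :
    Prop where
  add : ∀ x y, F (x + y) = F x + F y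
  smul : ∀ (t : Ω) x, F (t • x) = t ^ q • F x
  po : Pq k (fun _ => True) F
  po' : Pq k (fun _ => True) F.symm

variable {k}

/-- the sequence with `x (u + s) = F (x u)` and given values on a period -/
def pext {β : Type} (F : Equiv.Perm β) (s : ℕ) (X : ZMod s → β) (u : ℤ) : β :=
  (F ^ (u / s)) (X u)

/-- the values on a period -/
def rsn {β : Type} (s : ℕ) (x : ℤ → β) (c : ZMod s) : β := x c.val

/-- twisted periodicity -/
def Pe {β : Type} (F : Equiv.Perm β) (s : ℕ) (x : ℤ → β) : Prop := ∀ u, x (u + s) = F (x u)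

/-- the standard form -/
def Bf {ι : Type} [Fintype ι] (ε : ℤˣ) (x y : ι ⊕ ι → Ω) : Ω :=
  ∑ i, (x (.inl i) * y (.inr i) + sg ε * (x (.inr i) * y (.inl i)))

/-- the twisted Frobenius map of a plane; `true` exchanges the two lines -/
def F1 (q : ℕ) (ε : ℤˣ) (b : Bool) : Equiv.Perm (Ω × Ω) :=
  if b then (Equiv.prodComm Ω Ω).trans ((frq q).prodCongr (frq q)) else (frq q).prodCongr (frz q ε)

/-- decomposition into planes -/
def pls (Ω ι : Type) : (ι ⊕ ι → Ω) ≃ (ι → Ω × Ω) :=
  (Equiv.sumArrowEquivProdArrow ι ι Ω).trans (Equiv.arrowProdEquivProdArrow ι _ _).symm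

/-- the twisted Frobenius map of the standard space -/
def FV {ι : Type} (q : ℕ) (ε : ℤˣ) (b : ι → Bool) : Equiv.Perm (ι ⊕ ι → Ω) :=
  ((pls Ω ι).trans (Equiv.piCongrRight fun i => F1 q ε (b i))).trans (pls Ω ι).symm

/-- interval systems -/
structure Is (s D : ℕ) (R : ℤ → Prop) (f : ℤ → ℤ) : Prop where
  perR : ∀ u, R (u + s) ↔ R u
  perf : ∀ u, f (u + s) = f u + s
  lo : ∀ u, u - 1 ≤ f u
  hi : ∀ u, f u ≤ u + D

/-- cliques -/
def clq (R : ℤ → Prop) (f : ℤ → ℤ) (w : ℤ) : Set ℤ := {u | R u ∧ u ≤ w ∧ w ≤ f u}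

/-- vanishing at inactive places -/
def Acz {β : Type} [Zero β] (R : ℤ → Prop) (x : ℤ → β) : Prop := ∀ u, ¬R u → x u = 0

/-- independence on all cliques -/
def Ci (Ω : Type) [Field Ω] {β : Type} [AddCommGroup β] [Module Ω β] (R : ℤ → Prop) (f : ℤ → ℤ)
    (x : ℤ → β) : Prop := ∀ w, LinearIndepOn Ω x (clq R f w)

/-- orthogonality of meeting vectors -/
def Ot {ι : Type} [Fintype ι] (ε : ℤˣ) (R : ℤ → Prop) (f : ℤ → ℤ) (x : ℤ → ι ⊕ ι → Ω) : Prop :=
  ∀ u v, R u → R v → u ≤ v → v ≤ f u → Bf ε (x u) (x v) = 0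

/-- the variety of an interval system -/
def Zt {ι : Type} [Fintype ι] (q : ℕ) (ε : ℤˣ) (b : ι → Bool) (s : ℕ) (R : ℤ → Prop) (f : ℤ → ℤ)
    (X : ZMod s → ι ⊕ ι → Ω) : Prop :=
  Acz R (pext (FV q ε b) s X) ∧ Ci Ω R f (pext (FV q ε b) s X) ∧ Ot ε R f (pext (FV q ε b) s X)

section
variable {β : Type} {F : Equiv.Perm β} {s : ℕ} [NeZero s] {X : ZMod s → β} {x y : ℤ → β}

theorem pos_SE0 (s : ℕ) [NeZero s] : (0 : ℤ) < s := by exact_mod_cast NeZero.pos s

theorem pe_pext (F : Equiv.Perm β) (X : ZMod s → β) : Pe F s (pext F s X) := by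
  intro u
  have h : (u + s) / s = 1 + u / s := by
    have := Int.add_mul_ediv_right u 1 (pos_SE0 s).ne'
    rw [one_mul] at this
    rw [this, add_comm]
  simp only [pext]
  rw [h, _root_.zpow_one_add, Equiv.Perm.mul_apply]
  simp

theorem pext_of_mem {u : ℤ} (h0 : 0 ≤ u) (h1 : u < s) : pext F s X u = X u := by
  simp only [pext]
  rw [Int.ediv_eq_zero_of_lt h0 h1, zpow_zero, Equiv.Perm.one_apply]

theorem res_pext (F : Equiv.Perm β) (X : ZMod s → β) : rsn s (pext F s X) = X := by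
  funext c
  simp only [rsn]
  rw [pext_of_mem (Int.natCast_nonneg _) (by exact_mod_cast ZMod.val_lt c)]
  simp

theorem res_cast (x : ℤ → β) {u : ℤ} (h0 : 0 ≤ u) (h1 : u < s) : rsn s x u = x u := by
  simp only [rsn]
  rw [ZMod.val_intCast, Int.emod_eq_of_lt h0 h1]

theorem Pe.zpow (h : Pe F s x) (u j : ℤ) : x (u + s * j) = (F ^ j) (x u) := by
  induction j using Int.induction_on with
  | zero => simp
  | succ j ih =>
    rw [mul_add, mul_one, ← add_assoc, h, ih, add_comm (j : ℤ), _root_.zpow_one_add,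
      Equiv.Perm.mul_apply]
  | pred j ih =>
    apply F.injective
    rw [← h, ← Equiv.Perm.mul_apply, ← _root_.zpow_one_add, show 1 + (-(j : ℤ) - 1) = -j by ring,
      ← ih]
    congr 1
    ring

theorem Pe.ext (h : Pe F s x) (h' : Pe F s y) (e : ∀ u, 0 ≤ u → u < s → x u = y u) : x = y := by
  funext u
  obtain ⟨r, hr⟩ := Int.eq_ofNat_of_zero_le (Int.emod_nonneg u (pos_SE0 s).ne')
  have h1 := Int.emod_lt_of_pos u (pos_SE0 s)
  rw [← Int.emod_add_mul_ediv u s, h.zpow, h'.zpow, hr, e r (Nat.zero_le _) (by omega)]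

theorem Pe.ext' (h : Pe F s x) (h' : Pe F s y) (e : ∀ u : ℤ, 0 ≤ u → u < s → x u = y u) : x = y :=
  h.ext h' fun u _ hu => e u (by omega) (by omega)

theorem Pe.pext_res (h : Pe F s x) : pext F s (rsn s x) = x := 
  (pe_pext F _).ext h fun u _ h1 => by
    rw [pext_of_mem (Int.natCast_nonneg u) (by omega), res_cast x (Int.natCast_nonneg u) (by omega)]

theorem mul_SE0 {s : ℕ} {P : ℤ → Prop} (h : ∀ u, P (u + s) ↔ P u) (u j : ℤ) :
    P (u + s * j) ↔ P u := by
  induction j using Int.induction_on with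
  | zero => simp
  | succ j ih => rw [mul_add, mul_one, ← add_assoc, h, ih]
  | pred j ih => rw [← h, ← ih, show u + s * (-(j : ℤ) - 1) + s = u + s * -j by ring]

/-- induction for periodic statements -/
theorem per_ind (s : ℕ) [NeZero s] {P : ℤ → Prop} (h : ∀ u, P (u + s) ↔ P u) (a : ℤ)
    (h0 : ∀ u, a ≤ u → u < a + s → P u) (u : ℤ) : P u := by
  have e := Int.emod_add_mul_ediv (u - a) s
  have h1 := Int.emod_nonneg (u - a) (pos_SE0 s).ne'
  have h2 := Int.emod_lt_of_pos (u - a) (pos_SE0 s)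
  rw [show u = a + (u - a) % s + s * ((u - a) / s) by linarith, mul_SE0 h]
  exact h0 _ (by linarith) (by linarith)

theorem pext_map {γ : Type} {F' : Equiv.Perm γ} (g : β → γ) (h : ∀ z, g (F z) = F' (g z))
    (u : ℤ) : pext F' s (fun c => g (X c)) u = g (pext F s X u) := by
  have hp : Pe F' s fun u => g (pext F s X u) := fun u => by
    simp only [pe_pext F X u, h]
  refine congrFun ((pe_pext F' _).ext hp fun u _ h1 => ?_) u
  simp only [pext_of_mem (Int.natCast_nonneg u) (show (u : ℤ) < s by omega)]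

theorem pext_update_of_ne (c : ZMod s) (z : β) {u : ℤ} (h : (u : ZMod s) ≠ c) :
    pext F s (update X c z) u = pext F s X u := by
  simp only [pext]
  rw [update_of_ne h]

end

section
variable {s D : ℕ} {R : ℤ → Prop} {f : ℤ → ℤ}

theorem Is.mulR (h : Is s D R f) (u j : ℤ) : R (u + s * j) ↔ R u := mul_SE0 h.perR u j

theorem Is.mulf (h : Is s D R f) (u j : ℤ) : f (u + s * j) = f u + s * j := by
  induction j using Int.induction_on with
  | zero => simp
  | succ j ih => rw [mul_add, mul_one, ← add_assoc, h.perf, ih, add_assoc]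
  | pred j ih =>
    have := h.perf (u + s * (-(j : ℤ) - 1))
    rw [show u + s * (-(j : ℤ) - 1) + s = u + s * -j by ring, ih] at this
    linarith

theorem Is.fin (h : Is s D R f) (w : ℤ) : (clq R f w).Finite := 
  (Set.finite_Icc (w - D) w).subset fun u hu => ⟨by linarith [hu.2.2, h.hi u], hu.2.1⟩

end

end Pool.Agent.CXD
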