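import Pool.Agent.P.MP_2ce3e7_ag.SE0

/-! Semilinear maps and the standard form. -/

set_option linter.unusedSectionVars false
set_option linter.unusedVariables false

open Function Matrix

noncomputable section

namespace Pool.Agent.CXD


variable {k Ω : Type} [Field k] [Field Ω] [Algebra k Ω]

variable {q : ℕ} [Sq k q] [IsAlgClosed Ω] {α β : Type} [Af Ω α] [Af Ω β] {p : α → Prop}

theorem Pq.pext {F : Equiv.Perm β} (h : Pq k (fun _ => True) F) (h' : Pq k (fun _ => True) F.symm)
    {s : ℕ} [NeZero s] {X : α → ZMod s → β} (hX : Pq k p X) (u : ℤ) :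
    Pq k p fun a => pext F s (X a) u :=
  Pq.comp (po_zpow h h' (u / s)) (hX.eval (u : ZMod s))

theorem Pq.rsn {s : ℕ} [NeZero s] {x : α → ℤ → β} (h : ∀ u, Pq k p fun a => x a u) :
    Pq k p fun a => rsn s (x a) := Pq.pi fun c => h _

theorem Lr.lionf {ι n : Type} [Fintype n] {M : α → ι → n → Ω} (h : ∀ i, Pq k p fun a => M a i)
    {A : Set ι} (hA : A.Finite) : Lr k p fun a => LinearIndepOn Ω (M a) A := by
  have := hA.fintype
  exact Lr.li (M := fun a (i : A) => M a i) (Pq.pi fun i => h i)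

theorem Au.glif {G : Gp Ω} (h : Au k q G) {T ι n : Type} [Finite T] [Fintype n]
    {M : α → ι → n → Ω} (hM : ∀ i, Pq k p fun a => M a i) {A : T → Set ι}
    (hA : ∀ c, (A c).Finite) (hp : Gy k G p) :
    Gy k G fun a => p a ∧ ∀ c, LinearIndepOn Ω (M a) (A c) := by
  have := (Set.finite_iUnion hA).fintype
  refine (h.glis (ι := (⋃ c, A c : Set ι)) (M := fun _ a i => M a i)
    (fun _ => Pq.pi fun i => hM i) (fun c => Subtype.val ⁻¹' A c) hp).congr fun a =>
      and_congr_right fun _ => forall_congr' fun c => ?_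
  have e : Subtype.val '' (Subtype.val ⁻¹' A c : Set (⋃ c, A c : Set ι)) = A c :=
    Set.image_preimage_eq_of_subset (by rw [Subtype.range_coe]; exact Set.subset_iUnion A c)
  refine ⟨fun h1 => ?_, fun h1 => ?_⟩
  · rw [← e] at h1
    exact h1.comp_of_image Subtype.val_injective.injOn
  · rw [← e]
    exact LinearIndepOn.image_of_comp _ _ h1

section
variable [AddCommGroup β] [Module Ω β] {F : Equiv.Perm β}

theorem Sem.zero (h : Sem k q F) : F 0 = 0 := by
  have e := h.add 0 0
  rw [add_zero] at e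
  exact left_eq_add.1 e

theorem Sem.sub (h : Sem k q F) (x y : β) : F (x - y) = F x - F y := by
  rw [eq_sub_iff_add_eq, ← h.add, sub_add_cancel]

theorem Sem.sum (h : Sem k q F) {ι : Type} (S : Finset ι) (x : ι → β) :
    F (∑ i ∈ S, x i) = ∑ i ∈ S, F (x i) :=
  map_sum (AddMonoidHom.mk' F h.add) x S

theorem Sem.add_SE1 (h : Sem k q F) (x y : β) : F.symm (x + y) = F.symm x + F.symm y :=
  F.injective (by rw [h.add, F.apply_symm_apply, F.apply_symm_apply, F.apply_symm_apply])

theorem Sem.smul_SE1 (h : Sem k q F) (t : Ω) (x : β) :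
    F.symm (t • x) = (frq q).symm t • F.symm x :=
  F.injective (by
    rw [h.smul, F.apply_symm_apply, F.apply_symm_apply, ← fr_apply k, Equiv.apply_symm_apply])

theorem Sem.lion (h : Sem k q F) {ι : Type} (x : ι → β) (A : Set ι) :
    LinearIndepOn Ω (fun i => F (x i)) A ↔ LinearIndepOn Ω x A := by
  refine ⟨fun h1 => ?_, fun h1 => ?_⟩
  · have h2 := LinearIndependent.map_of_surjective_injectiveₛ h1 (frq q).symm
      (AddMonoidHom.mk' F.symm h.add_SE1) (frq q).symm.surjective F.symm.injective h.smul_SE1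
    exact (iff_of_eq (congrArg (fun y : A → β => LinearIndependent Ω y)
      (funext fun i : A => F.symm_apply_apply (x i)))).1 h2
  · exact LinearIndependent.map_of_surjective_injectiveₛ h1 (frq q) (AddMonoidHom.mk' F h.add)
      (frq q).surjective F.injective fun t y => by rw [fr_apply k]; exact h.smul t y

theorem Sem.span (h : Sem k q F) (A : Set β) (x : β) :
    F x ∈ Submodule.span Ω (F '' A) ↔ x ∈ Submodule.span Ω A := by
  refine ⟨fun h1 => ?_, fun h1 => ?_⟩
  · have key : ∀ y ∈ Submodule.span Ω (F '' A), F.symm y ∈ Submodule.span Ω A := by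
      intro y hy
      induction hy using Submodule.span_induction with
      | mem y hy =>
        obtain ⟨a, ha, rfl⟩ := hy
        rw [F.symm_apply_apply]
        exact Submodule.subset_span ha
      | zero => rw [F.symm_apply_eq.2 h.zero.symm]; exact zero_mem _
      | add y z _ _ hy hz => rw [h.add_SE1]; exact add_mem hy hz
      | smul t y _ hy => rw [h.smul_SE1]; exact Submodule.smul_mem _ _ hy
    simpa using key _ h1
  · induction h1 using Submodule.span_induction with
    | mem y hy => exact Submodule.subset_span ⟨y, hy, rfl⟩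
    | zero => rw [h.zero]; exact zero_mem _
    | add y z _ _ hy hz => rw [h.add]; exact add_mem hy hz
    | smul t y _ hy => rw [h.smul]; exact Submodule.smul_mem _ _ hy

variable {s D : ℕ} [NeZero s] {R : ℤ → Prop} {f : ℤ → ℤ}

theorem val_SE1 {u : ℤ} (h0 : 0 ≤ u) (h1 : u < s) : (((u : ZMod s).val : ℕ) : ℤ) = u := by
  rw [ZMod.val_intCast, Int.emod_eq_of_lt h0 h1]

theorem Sem.act_iff (h : Sem k q F) (hR : ∀ u, R (u + s) ↔ R u) (X : ZMod s → β) :
    Acz R (pext F s X) ↔ ∀ c : ZMod s, ¬R c.val → X c = 0 := by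
  refine ⟨fun h1 c hc => (congrFun (res_pext F X) c).symm.trans (h1 _ hc), fun h1 u => ?_⟩
  refine per_ind s (P := fun u => ¬R u → pext F s X u = 0) (fun u => ?_) 0 (fun u h2 h3 h4 => ?_) u
  · rw [hR, pe_pext F X u]
    nth_rewrite 1 [← h.zero]
    rw [F.injective.eq_iff]
  · rw [zero_add] at h3
    rw [pext_of_mem h2 h3]
    exact h1 _ (by rwa [val_SE1 h2 h3])

theorem Sem.ci_iff (h : Sem k q F) (hi : Is s D R f) {x : ℤ → β} (hx : Pe F s x) :
    Ci Ω R f x ↔ ∀ c : ZMod s, LinearIndepOn Ω x (clq R f c.val) := by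
  refine ⟨fun h1 c => h1 _, fun h1 w => ?_⟩
  refine per_ind s (P := fun w => LinearIndepOn Ω x (clq R f w)) (fun w => ?_) 0
    (fun w h2 h3 => ?_) w
  · have e : clq R f (w + s) = Equiv.addRight (s : ℤ) '' clq R f w := by
      ext u
      obtain ⟨u, rfl⟩ := (Equiv.addRight (s : ℤ)).surjective u
      rw [(Equiv.addRight (s : ℤ)).injective.mem_set_image]
      simp only [clq, Equiv.coe_addRight, Set.mem_ofPred_eq, hi.perR, hi.perf,
        add_le_add_iff_right]
    rw [e, ← linearIndepOn_equiv, ← h.lion x]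
    exact iff_of_eq (congrArg (fun y => LinearIndepOn Ω y (clq R f w)) (funext fun u => hx u))
  · rw [zero_add] at h3
    have h4 := h1 (w : ZMod s)
    rwa [val_SE1 h2 h3] at h4

end

theorem sem_fr : Sem k q (frq q : Equiv.Perm Ω) :=
  ⟨fun x y => by simp only [fr_apply k, (Sq.su : Su k q).add_pow],
    fun t x => by simp only [fr_apply k, smul_eq_mul, mul_pow], po_fr, po_fr_symm⟩

theorem sem_frs (ε : ℤˣ) : Sem k q (frz q ε : Equiv.Perm Ω) :=
  ⟨fun x y => by simp only [frs_apply k, (Sq.su : Su k q).add_pow, mul_add],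
    fun t x => by simp only [frs_apply k, smul_eq_mul, mul_pow, mul_left_comm], po_frs ε,
    po_frs_symm ε⟩

theorem sem_F1 (ε : ℤˣ) (b : Bool) : Sem k q (F1 q ε b : Equiv.Perm (Ω × Ω)) := by
  cases b
  · exact ⟨fun x y => Prod.ext (sem_fr (k := k).add x.1 y.1) ((sem_frs (k := k) ε).add x.2 y.2),
      fun t x => Prod.ext (sem_fr (k := k).smul t x.1) ((sem_frs (k := k) ε).smul t x.2),
      (po_fr.comp (Pq.fst Pq.id)).mk ((po_frs ε).comp (Pq.snd Pq.id)),
      (po_fr_symm.comp (Pq.fst Pq.id)).mk ((po_frs_symm ε).comp (Pq.snd Pq.id))⟩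
  · exact ⟨fun x y => Prod.ext (sem_fr (k := k).add x.2 y.2) (sem_fr (k := k).add x.1 y.1),
      fun t x => Prod.ext (sem_fr (k := k).smul t x.2) (sem_fr (k := k).smul t x.1),
      (po_fr.comp (Pq.snd Pq.id)).mk (po_fr.comp (Pq.fst Pq.id)),
      (po_fr_symm.comp (Pq.snd Pq.id)).mk (po_fr_symm.comp (Pq.fst Pq.id))⟩

section
variable {ι : Type} [Fintype ι] (ε : ℤˣ) (b : ι → Bool) (x y z : ι ⊕ ι → Ω)

theorem pls_FV (i : ι) : pls Ω ι (FV q ε b x) i = F1 q ε (b i) (pls Ω ι x i) := rfl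

theorem FV_inl (k : Type) [Field k] [Algebra k Ω] [Sq k q] (i : ι) :
    FV q ε b x (.inl i) = (if b i then x (.inr i) else x (.inl i)) ^ q := by
  change (F1 q ε (b i) (x (.inl i), x (.inr i))).1 = _
  cases b i
  · exact fr_apply k _
  · exact fr_apply k _

theorem FV_inr (k : Type) [Field k] [Algebra k Ω] [Sq k q] (i : ι) :
    FV q ε b x (.inr i) = if b i then x (.inl i) ^ q else sg ε * x (.inr i) ^ q := by
  change (F1 q ε (b i) (x (.inl i), x (.inr i))).2 = _
  cases b i
  · exact frs_apply k _ _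
  · exact fr_apply k _

theorem FV_FV (k : Type) [Field k] [Algebra k Ω] [Sq k q] :
    FV q ε b (FV q ε b x) = fun j => x j ^ q ^ 2 := by
  funext j
  rcases j with i | i
  · rw [FV_inl ε b _ k, FV_inl ε b _ k, FV_inr ε b _ k]
    cases b i <;> simp [← pow_mul, sq]
  · rw [FV_inr ε b _ k, FV_inl ε b _ k, FV_inr ε b _ k]
    cases b i
    · simp only [Bool.false_eq_true, if_false]
      rw [mul_pow, sg_pow k, ← mul_assoc, sg_mul_self, one_mul, ← pow_mul, sq]
    · simp [← pow_mul, sq]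

theorem sem_FV : Sem k q (FV q ε b : Equiv.Perm (ι ⊕ ι → Ω)) := by
  have hp : ∀ i : ι, Pq k (fun _ => True) fun x : ι ⊕ ι → Ω => (x (.inl i), x (.inr i)) :=
    fun i => (Pq.apply _).mk (Pq.apply _)
  refine ⟨fun x y => funext fun j => ?_, fun t x => funext fun j => ?_,
    Pq.pi fun j => ?_, Pq.pi fun j => ?_⟩
  · rcases j with i | i
    · exact congrArg Prod.fst ((sem_F1 (k := k) ε (b i)).add (pls Ω ι x i) (pls Ω ι y i))
    · exact congrArg Prod.snd ((sem_F1 (k := k) ε (b i)).add (pls Ω ι x i) (pls Ω ι y i))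
  · rcases j with i | i
    · exact congrArg Prod.fst ((sem_F1 (k := k) ε (b i)).smul t (pls Ω ι x i))
    · exact congrArg Prod.snd ((sem_F1 (k := k) ε (b i)).smul t (pls Ω ι x i))
  · rcases j with i | i
    · exact ((sem_F1 (k := k) ε (b i)).po.comp (hp i)).fst
    · exact ((sem_F1 (k := k) ε (b i)).po.comp (hp i)).snd
  · rcases j with i | i
    · exact ((sem_F1 (k := k) ε (b i)).po'.comp (hp i)).fst
    · exact ((sem_F1 (k := k) ε (b i)).po'.comp (hp i)).snd

theorem Bf_FV (k : Type) [Field k] [Algebra k Ω] [Sq k q] :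
    Bf ε (FV q ε b x) (FV q ε b y) = sg ε * Bf ε x y ^ q := by
  rw [Bf, Bf, (Sq.su : Su k q).sum_pow, Finset.mul_sum]
  refine Finset.sum_congr rfl fun i _ => ?_
  have e := sg_mul_self (Ω := Ω) ε
  rw [FV_inl ε b _ k, FV_inl ε b _ k, FV_inr ε b _ k, FV_inr ε b _ k, (Sq.su : Su k q).add_pow,
    mul_pow, mul_pow, mul_pow, sg_pow k]
  cases b i
  · simp only [Bool.false_eq_true, if_false]
    ring
  · simp only [if_true]
    linear_combination (-(x (.inr i) ^ q * y (.inl i) ^ q)) * e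

theorem Bf_comm : Bf ε y x = sg ε * Bf ε x y := by
  rw [Bf, Bf, Finset.mul_sum]
  refine Finset.sum_congr rfl fun i _ => ?_
  linear_combination (-(x (.inr i) * y (.inl i))) * sg_mul_self (Ω := Ω) ε

theorem Bf_add_left : Bf ε (x + y) z = Bf ε x z + Bf ε y z := by
  rw [Bf, Bf, Bf, ← Finset.sum_add_distrib]
  exact Finset.sum_congr rfl fun i _ => by simp only [Pi.add_apply]; ring

theorem Bf_add_right : Bf ε x (y + z) = Bf ε x y + Bf ε x z := by
  rw [Bf, Bf, Bf, ← Finset.sum_add_distrib]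
  exact Finset.sum_congr rfl fun i _ => by simp only [Pi.add_apply]; ring

theorem Bf_sub_left : Bf ε (x - y) z = Bf ε x z - Bf ε y z := by
  rw [Bf, Bf, Bf, ← Finset.sum_sub_distrib]
  exact Finset.sum_congr rfl fun i _ => by simp only [Pi.sub_apply]; ring

theorem Bf_sub_right : Bf ε x (y - z) = Bf ε x y - Bf ε x z := by
  rw [Bf, Bf, Bf, ← Finset.sum_sub_distrib]
  exact Finset.sum_congr rfl fun i _ => by simp only [Pi.sub_apply]; ring

theorem Bf_smul_left (t : Ω) : Bf ε (t • x) y = t * Bf ε x y := by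
  rw [Bf, Bf, Finset.mul_sum]
  exact Finset.sum_congr rfl fun i _ => by simp only [Pi.smul_apply, smul_eq_mul]; ring

theorem Bf_smul_right (t : Ω) : Bf ε x (t • y) = t * Bf ε x y := by
  rw [Bf, Bf, Finset.mul_sum]
  exact Finset.sum_congr rfl fun i _ => by simp only [Pi.smul_apply, smul_eq_mul]; ring

theorem Bf_zero_left : Bf ε 0 x = 0 := by simp [Bf]

theorem Bf_zero_right : Bf ε x 0 = 0 := by simp [Bf]

theorem Bf_sum_left {κ : Type} (S : Finset κ) (x : κ → ι ⊕ ι → Ω) :
    Bf ε (∑ a ∈ S, x a) y = ∑ a ∈ S, Bf ε (x a) y :=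
  map_sum (AddMonoidHom.mk' (fun x => Bf ε x y) fun x x' => Bf_add_left ε x x' y) x S

theorem Bf_sum_right {κ : Type} (S : Finset κ) (y : κ → ι ⊕ ι → Ω) :
    Bf ε x (∑ a ∈ S, y a) = ∑ a ∈ S, Bf ε x (y a) :=
  map_sum (AddMonoidHom.mk' (fun y => Bf ε x y) fun y y' => Bf_add_right ε x y y') y S

theorem Bf_nondeg (h : ∀ y, Bf ε y x = 0) : x = 0 := by
  classical
  funext j
  rcases j with i | i
  · have e := h (Pi.single (.inr i) 1)
    simpa [Bf, Pi.single_apply, sg_ne] using e
  · have e := h (Pi.single (.inl i) 1)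
    simpa [Bf, Pi.single_apply] using e

/-- independent orthogonal vectors -/
theorem card_le_of_orth {κ : Type} {x : κ → ι ⊕ ι → Ω} {A : Set κ} (h : LinearIndepOn Ω x A)
    (h1 : ∀ a ∈ A, ∀ a' ∈ A, Bf ε (x a) (x a') = 0) : A.ncard ≤ Fintype.card ι := by
  have hf : Finite A := LinearIndependent.finite_of_isNoetherian h
  have := Fintype.ofFinite A
  let B : LinearMap.BilinForm Ω (ι ⊕ ι → Ω) := LinearMap.mk₂ Ω (Bf ε) (Bf_add_left ε)
    (fun t x y => Bf_smul_left ε x y t) (Bf_add_right ε) fun t x y => Bf_smul_right ε x y t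
  have hk : LinearMap.ker B = ⊥ := LinearMap.ker_eq_bot'.2 fun y hy => Bf_nondeg ε y fun w => by
    rw [Bf_comm, show Bf ε y w = 0 from LinearMap.congr_fun hy w, mul_zero]
  have h2 := B.finrank_add_finrank_orthogonal' (Submodule.span Ω (Set.range fun a : A => x a))
  have h3 : Submodule.span Ω (Set.range fun a : A => x a) ≤
      B.orthogonal (Submodule.span Ω (Set.range fun a : A => x a)) := by
    refine Submodule.span_le.2 ?_
    rintro _ ⟨a, rfl⟩ y hy
    have h4 : Submodule.span Ω (Set.range fun a : A => x a) ≤ LinearMap.ker (B.flip (x a)) := by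
      refine Submodule.span_le.2 ?_
      rintro _ ⟨a', rfl⟩
      exact h1 _ a'.2 _ a.2
    exact h4 hy
  have h5 := Submodule.finrank_mono h3
  rw [hk, inf_bot_eq, finrank_bot, Module.finrank_fintype_fun_eq_card, Fintype.card_sum] at h2
  rw [finrank_span_eq_card h] at h2 h5
  rw [← Nat.card_coe_set_eq, Nat.card_eq_fintype_card]
  omega

@[fun_prop]
theorem Pq.bf {x y : α → ι ⊕ ι → Ω} (hx : Pq k p x) (hy : Pq k p y) :
    Pq k p fun a => Bf ε (x a) (y a) :=
  Pq.sum _ fun i => ((hx.eval _).mul (hy.eval _)).add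
    ((Pq.const _).mul ((hx.eval _).mul (hy.eval _)))

end

end Pool.Agent.CXD
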