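import Pool.Agent.P.MP_2ce3e7_ag.SE1
import Pool.Agent.P.MP_2ce3e7_ag.SA6

/-! Periodic band matrices. -/

set_option linter.unusedSectionVars false
set_option linter.unusedVariables false

open Function Matrix

noncomputable section

namespace Pool.Agent.CXD
open Finset

variable {k Ω : Type} [Field k] [Field Ω] [Algebra k Ω]

/-- the coordinates of periodic band matrices -/
abbrev Ecf (Ω : Type) (s D : ℕ) : Type := ZMod s → Fin (D + 1) → Ω

/-- the entries above the diagonal -/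
def elo (q : ℕ) (ε : ℤˣ) {s D : ℕ} (E : Ecf Ω s D) (u v : ℤ) : Ω :=
  if h : (v - u).toNat < D + 1 then pext (frz q (-ε)) s (fun c => E c ⟨_, h⟩) v else 0

/-- the matrix with given coordinates -/
def ee (q : ℕ) (ε : ℤˣ) {s D : ℕ} (E : Ecf Ω s D) (u v : ℤ) : Ω :=
  if u ≤ v then elo q ε E u v else sg ε * elo q ε E v u

/-- the coordinates of a matrix -/
def rse (s D : ℕ) (e : ℤ → ℤ → Ω) : Ecf Ω s D := fun c δ => e (c.val - δ.val) c.val

/-- symmetric periodic band matrices -/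
structure Amx (q : ℕ) (ε : ℤˣ) (s D : ℕ) (e : ℤ → ℤ → Ω) : Prop where
  sym : ∀ u v, e v u = sg ε * e u v
  per : ∀ u v, e (u + s) (v + s) = -(sg ε * e u v ^ q)
  band : ∀ u v, u + D < v → e u v = 0

/-- the allowed places -/
def ok (ε : ℤˣ) (R : ℤ → Prop) (f : ℤ → ℤ) (u v : ℤ) : Prop :=
  R u ∧ R v ∧ v ≤ f u ∧ (u = v → ε = 1)

/-- support on the allowed places -/
def Se (ε : ℤˣ) (R : ℤ → Prop) (f : ℤ → ℤ) (e : ℤ → ℤ → Ω) : Prop :=
  ∀ u v, u ≤ v → ¬ok ε R f u v → e u v = 0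

section
variable {W : Type} [AddCommGroup W] [Module Ω W]

/-- the matrix applied to a sequence -/
def Ew (D : ℕ) (e : ℤ → ℤ → Ω) (z : ℤ → W) (u : ℤ) : W := ∑ v ∈ Icc (u - D) (u + D), e u v • z v

/-- the part beyond `θ` -/
def Pv (D : ℕ) (e : ℤ → ℤ → Ω) (z : ℤ → W) (θ u : ℤ) : W := ∑ v ∈ Ioc θ (u + D), e u v • z v

end

/-- the quadratic function -/
def ph {W : Type} (s D : ℕ) (B : W → W → Ω) (e : ℤ → ℤ → Ω) (x : ℤ → W) : Ω :=
  ∑ v ∈ Ico (0 : ℤ) s, (e v v * B (x v) (x v) + 2 * ∑ u ∈ Ico (v - D) v, e u v * B (x u) (x v))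

/-- lowering `f` on one residue class -/
def low (s : ℕ) (f : ℤ → ℤ) (r u : ℤ) : ℤ := if (u : ZMod s) = r then f u - 1 else f u

/-- removing one residue class -/
def rmv (s : ℕ) (R : ℤ → Prop) (r u : ℤ) : Prop := R u ∧ (u : ZMod s) ≠ r

variable (k) in
/-- a nondegenerate form with a compatible Frobenius map -/
structure Fo (q : ℕ) (ε : ℤˣ) {n : Type} [Fintype n] (B : (n → Ω) → (n → Ω) → Ω)
    (F : Equiv.Perm (n → Ω)) : Prop where
  sem : Sem k q F
  lin : ∀ y, IsLinearMap Ω fun x => B x y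
  lin' : ∀ x, IsLinearMap Ω (B x)
  comm : ∀ x y, B y x = sg ε * B x y
  frob : ∀ x y, B (F x) (F y) = sg ε * B x y ^ q
  po : Pq k (fun _ => True) fun y : (n → Ω) × (n → Ω) => B y.1 y.2
  nd : ∀ x, (∀ y, B y x = 0) → x = 0

variable {q : ℕ} {ε : ℤˣ} {s D : ℕ} [NeZero s] {R : ℤ → Prop} {f f' : ℤ → ℤ} {e : ℤ → ℤ → Ω}
  {r : ℤ}

theorem rse_ee (q : ℕ) (ε : ℤˣ) (E : Ecf Ω s D) : rse s D (ee q ε E) = E := by
  funext c δ
  have h0 : ((c.val : ℤ) - ((c.val : ℤ) - (δ.val : ℤ))).toNat = δ.val := by omega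
  have h1 : ((c.val : ℤ) - ((c.val : ℤ) - (δ.val : ℤ))).toNat < D + 1 := by
    rw [h0]; exact δ.isLt
  simp only [rse, ee, elo]
  rw [if_pos (by omega), dif_pos h1,
    pext_of_mem (Int.natCast_nonneg _) (by exact_mod_cast ZMod.val_lt c)]
  have h2 : (((c.val : ℕ) : ℤ) : ZMod s) = c := by simp
  rw [h2]
  exact congrArg (E c) (Fin.ext h0)

theorem ee_coord (q : ℕ) (ε : ℤˣ) (E : Ecf Ω s D) (c : ZMod s) (δ : Fin (D + 1)) :
    ee q ε E (c.val - δ.val) c.val = E c δ := congrFun (congrFun (rse_ee q ε E) c) δ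

theorem Se.of_ne (hs : Se ε R f e) (ha : Amx q ε s D e) {u v : ℤ} (h : e u v ≠ 0) :
    R u ∧ R v ∧ (u ≤ v → v ≤ f u) ∧ (v ≤ u → u ≤ f v) ∧ (u = v → ε = 1) := by
  have h1 : u ≤ v → ok ε R f u v := fun h2 => by_contra fun h3 => h (hs u v h2 h3)
  have h2 : v ≤ u → ok ε R f v u := fun h2 => by_contra fun h3 =>
    h (by rw [ha.sym v u, hs v u h2 h3, mul_zero])
  refine ⟨?_, ?_, fun h3 => (h1 h3).2.2.1, fun h3 => (h2 h3).2.2.1,
    fun h3 => (h1 h3.le).2.2.2 h3⟩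
  · rcases le_total u v with h3 | h3
    exacts [(h1 h3).1, (h2 h3).2.1]
  · rcases le_total u v with h3 | h3
    exacts [(h1 h3).2.1, (h2 h3).1]

theorem Se.mono (hs : Se ε R f' e) (h : ∀ u, R u → f' u ≤ f u) : Se ε R f e :=
  fun u v h1 h2 => hs u v h1 fun h3 => h2 ⟨h3.1, h3.2.1, h3.2.2.1.trans (h u h3.1), h3.2.2.2⟩

theorem cast_SE2 (u : ℤ) : ((u + s : ℤ) : ZMod s) = u := by simp

theorem mul_SE2 {u r : ℤ} (h : (u : ZMod s) = r) : ∃ j : ℤ, u = r + s * j := by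
  obtain ⟨j, hj⟩ := (ZMod.intCast_eq_intCast_iff_dvd_sub r u s).1 h.symm
  exact ⟨j, by linarith⟩

theorem Is.low (h : Is s D R f) (hr : r ≤ f r) : Is s D R (low s f r) := by
  refine ⟨h.perR, fun u => ?_, fun u => ?_, fun u => ?_⟩
  · simp only [CXD.low, cast_SE2, h.perf]
    split_ifs <;> ring
  · simp only [CXD.low]
    split_ifs with h1
    · obtain ⟨j, rfl⟩ := mul_SE2 h1
      rw [h.mulf]
      linarith
    · exact h.lo u
  · have := h.hi u
    simp only [CXD.low]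
    split_ifs <;> linarith

theorem Is.rmv (h : Is s D R f) (r : ℤ) : Is s D (rmv s R r) f :=
  ⟨fun u => by simp only [CXD.rmv, cast_SE2, h.perR], h.perf, h.lo, h.hi⟩

theorem low_le (f : ℤ → ℤ) (r u : ℤ) : low s f r u ≤ f u := by
  simp only [low]
  split_ifs <;> linarith

theorem Ew.split {W : Type} [AddCommGroup W] [Module Ω W] (z : ℤ → W) {θ u : ℤ}
    (h1 : u - D ≤ θ + 1) (h2 : θ ≤ u + D) :
    Ew D e z u = ∑ v ∈ Icc (u - D) θ, e u v • z v + Pv D e z θ u := by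
  have h : Icc (u - D) (u + D) = Icc (u - D) θ ∪ Ioc θ (u + D) := by
    ext v
    simp only [mem_Icc, mem_union, mem_Ioc]
    omega
  rw [Ew, Pv, h, sum_union]
  refine disjoint_left.2 fun v h3 h4 => ?_
  simp only [mem_Icc, mem_Ioc] at h3 h4
  omega

theorem Pv.step {W : Type} [AddCommGroup W] [Module Ω W] (z : ℤ → W) {θ u : ℤ}
    (h : u + D < θ → e u θ = 0) : Pv D e z (θ - 1) u = e u θ • z θ + Pv D e z θ u := by
  rcases lt_or_ge (u + D) θ with h1 | h1
  · rw [h h1, zero_smul, zero_add, Pv, Pv, Ioc_eq_empty (by omega), Ioc_eq_empty (by omega)]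
  · have h2 : Ioc (θ - 1) (u + D) = insert θ (Ioc θ (u + D)) := by
      ext v
      simp only [mem_insert, mem_Ioc]
      omega
    rw [Pv, Pv, h2, sum_insert (by simp)]

theorem Pv.zero {W : Type} [AddCommGroup W] [Module Ω W] (hs : Se ε R f e) (z : ℤ → W)
    {θ u : ℤ} (h1 : u ≤ θ + 1) (h2 : f u ≤ θ) : Pv D e z θ u = 0 := by
  refine sum_eq_zero fun v hv => ?_
  have h3 := (mem_Ioc.1 hv).1
  rw [hs u v (by omega) fun h4 => absurd h4.2.2.1 (by omega), zero_smul]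

variable [Sq k q] [IsAlgClosed Ω]

theorem elo_SE2 (k : Type) [Field k] [Algebra k Ω] [Sq k q] (E : Ecf Ω s D) (u v : ℤ) :
    elo q ε E (u + s) (v + s) = -(sg ε * elo q ε E u v ^ q) := by
  simp only [elo, add_sub_add_right_eq_sub]
  split_ifs with h
  · rw [pe_pext, frs_apply k, sg_neg, neg_mul]
  · rw [zero_pow (Sq.su : Su k q).pos.ne', mul_zero, neg_zero]

theorem zero_SE2 (k : Type) [Field k] [Algebra k Ω] [Sq k q] (t : Ω) :
    -(sg ε * t ^ q) = 0 ↔ t = 0 := by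
  rw [neg_eq_zero, mul_eq_zero, pow_eq_zero_iff (Sq.su : Su k q).pos.ne']
  exact or_iff_right (sg_ne ε)

theorem Se.ad (k : Type) [Field k] [Algebra k Ω] [Sq k q] {E : Ecf Ω s D}
    (hs : Se ε R f (ee q ε E)) : Amx q ε s D (ee q ε E) := by
  refine ⟨fun u v => ?_, fun u v => ?_, fun u v h => ?_⟩
  · rcases lt_trichotomy u v with h | rfl | h
    · simp only [ee]
      rw [if_neg (by omega), if_pos h.le]
    · rcases Int.units_eq_one_or ε with h | h
      · rw [h, sg_one, one_mul]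
      · rw [hs u u le_rfl fun h1 => absurd (h.symm.trans (h1.2.2.2 rfl)) (by decide), mul_zero]
    · simp only [ee]
      rw [if_pos h.le, if_neg (by omega), ← mul_assoc, sg_mul_self, one_mul]
  · simp only [ee, add_le_add_iff_right, elo_SE2 k]
    split_ifs
    · rfl
    · rw [mul_pow, sg_pow k, mul_neg]
  · simp only [ee, elo]
    rw [if_pos (by omega), dif_neg (by omega)]

theorem Amx.zero_iff (k : Type) [Field k] [Algebra k Ω] [Sq k q] (ha : Amx q ε s D e) (u v j : ℤ) :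
    e (u + s * j) (v + s * j) = 0 ↔ e u v = 0 := by
  have := mul_SE0 (s := s) (P := fun w => e (u + w) (v + w) = 0)
    (fun w => by rw [← add_assoc, ← add_assoc, ha.per, zero_SE2 k]) 0 j
  simpa using this

/-- the band condition at all integer places -/
theorem Amx.band' (k : Type) [Field k] [Algebra k Ω] [Sq k q] (ha : Amx q ε s D e) (u v : ℤ)
    (h : u + D < v) : e u v = 0 := by
  have hs := pos_SE0 s
  have h1 : 0 ≤ u + s * |u| := by nlinarith [abs_nonneg u, neg_abs_le u]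
  obtain ⟨a, h2⟩ := Int.eq_ofNat_of_zero_le h1
  obtain ⟨b, h3⟩ := Int.eq_ofNat_of_zero_le (show 0 ≤ v + s * |u| by omega)
  rw [← ha.zero_iff k u v |u|, h2, h3]
  exact ha.band a b (by omega)

theorem Amx.ee_rse (k : Type) [Field k] [Algebra k Ω] [Sq k q] (ha : Amx q ε s D e) :
    ee q ε (rse s D e) = e := by
  have key : ∀ u v, u ≤ v → elo q ε (rse s D e) u v = e u v := by
    intro u v h
    simp only [elo]
    split_ifs with h1
    · have hp : Pe (frz q (-ε)) s fun w => e (w - (v - u)) w := fun w => by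
        beta_reduce
        rw [add_sub_right_comm, ha.per, frs_apply k, sg_neg, neg_mul]
      have h2 := congrFun hp.pext_res v
      rw [sub_sub_cancel] at h2
      rw [← h2]
      congr 1
      funext c
      simp only [rse, rsn]
      rw [Int.toNat_of_nonneg (by omega)]
    · exact (ha.band' k u v (by omega)).symm
  funext u v
  simp only [ee]
  split_ifs with h
  · exact key u v h
  · rw [key v u (by omega), ← ha.sym]

theorem se_iff (k : Type) [Field k] [Algebra k Ω] [Sq k q] (hi : Is s D R f) (E : Ecf Ω s D) :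
    Se ε R f (ee q ε E) ↔
      ∀ (c : ZMod s) (δ : Fin (D + 1)), ¬ok ε R f (c.val - δ.val) c.val → E c δ = 0 := by
  refine ⟨fun h c δ h1 => (ee_coord q ε E c δ).symm.trans (h _ _ (by omega) h1),
    fun h u v h1 h2 => ?_⟩
  obtain ⟨d, rfl⟩ : ∃ d, u = v - d := ⟨v - u, by ring⟩
  simp only [ee]
  rw [if_pos h1]
  refine per_ind s (P := fun w => ¬ok ε R f (w - d) w → elo q ε E (w - d) w = 0)
    (fun w => ?_) 0 (fun w h3 h4 h5 => ?_) v h2
  · rw [add_sub_right_comm, elo_SE2 k, zero_SE2 k]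
    simp only [ok, hi.perR, hi.perf, add_le_add_iff_right, add_left_inj]
  · rw [zero_add] at h4
    simp only [elo]
    split_ifs with h6
    · rw [pext_of_mem h3 h4]
      refine h _ _ ?_
      rw [val_SE1 h3 h4]
      simp only []
      rwa [Int.toNat_of_nonneg (by omega), sub_sub_cancel]
    · rfl

theorem se_low (k : Type) [Field k] [Algebra k Ω] [Sq k q] (hi : Is s D R f) (hr : r ≤ f r)
    (ha : Amx q ε s D e) : Se ε R (low s f r) e ↔ Se ε R f e ∧ e r (f r) = 0 := by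
  refine ⟨fun h => ⟨h.mono fun u _ => low_le f r u, h r (f r) hr fun h1 => ?_⟩,
    fun h u v h1 h2 => ?_⟩
  · have h2 := h1.2.2.1
    simp only [low, if_true] at h2
    omega
  · by_cases h3 : ok ε R f u v
    · have h4 : ¬v ≤ low s f r u := fun h4 => h2 ⟨h3.1, h3.2.1, h4, h3.2.2.2⟩
      have h5 := h3.2.2.1
      simp only [low] at h4
      split_ifs at h4 with h6
      · obtain ⟨j, rfl⟩ := mul_SE2 h6
        rw [hi.mulf] at h4 h5
        rw [show v = f r + s * j by omega, ha.zero_iff k]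
        exact h.2
      · exact absurd h5 h4
    · exact h.1 u v h1 h3

section
variable {β : Type} [Af Ω β] [AddCommGroup β] [Module Ω β] {F : Equiv.Perm β} {z : ℤ → β}

theorem sum_SE2 (hF : Sem k q F) (ha : Amx q ε s D e) (hz : Pe F s z) (u : ℤ) (S : Finset ℤ) :
    ∑ v ∈ S.map (addRightEmbedding (s : ℤ)), e (u + s) v • z v =
      -((sg ε : Ω) • F (∑ v ∈ S, e u v • z v)) := by
  rw [sum_map, hF.sum, smul_sum, ← sum_neg_distrib]
  refine sum_congr rfl fun v _ => ?_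
  rw [addRightEmbedding_apply, ha.per, hz, hF.smul, neg_smul, mul_smul]

theorem Ew.per (hF : Sem k q F) (ha : Amx q ε s D e) (hz : Pe F s z) (u : ℤ) :
    Ew D e z (u + s) = -((sg ε : Ω) • F (Ew D e z u)) := by
  rw [Ew, Ew, ← sum_SE2 hF ha hz, map_add_right_Icc, add_sub_right_comm, add_right_comm u]

theorem Pv.per (hF : Sem k q F) (ha : Amx q ε s D e) (hz : Pe F s z) (θ u : ℤ) :
    Pv D e z (θ + s) (u + s) = -((sg ε : Ω) • F (Pv D e z θ u)) := by
  rw [Pv, Pv, ← sum_SE2 hF ha hz, map_add_right_Ioc, add_right_comm u]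

theorem Ew.zero_of (hF : Sem k q F) (ha : Amx q ε s D e) (hz : Pe F s z) (a : ℤ)
    (h : ∀ u, a ≤ u → u < a + s → Ew D e z u = 0) (u : ℤ) : Ew D e z u = 0 := by
  refine per_ind s (P := fun u => Ew D e z u = 0) (fun u => ?_) a h u
  rw [Ew.per hF ha hz, neg_eq_zero, smul_eq_zero_iff_right (sg_ne ε)]
  nth_rewrite 1 [← hF.zero]
  exact F.injective.eq_iff

end

variable {α : Type} [Af Ω α] {p : α → Prop}

theorem Pq.elo_SE2 {E : α → Ecf Ω s D} (h : Pq k p E) (ε : ℤˣ) (u v : ℤ) :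
    Pq k p fun a => elo q ε (E a) u v :=
  Pq.dite _ (fun _ => Pq.pext (po_frs _) (po_frs_symm _) (Pq.pi fun c => (h.eval c).eval _) v)
    fun _ => Pq.const 0

theorem Pq.ee {E : α → Ecf Ω s D} (h : Pq k p E) (ε : ℤˣ) (u v : ℤ) :
    Pq k p fun a => ee q ε (E a) u v :=
  Pq.ite _ (h.elo_SE2 ε u v) ((Pq.const (sg ε)).mul (h.elo_SE2 ε v u))

theorem Pq.rse {e : α → ℤ → ℤ → Ω} (h : ∀ u v, Pq k p fun a => e a u v) :
    Pq k p fun a => rse s D (e a) := Pq.pi fun c => Pq.pi fun δ => h _ _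

theorem Pq.ev {n : Type} [Fintype n] {e : α → ℤ → ℤ → Ω} {z : α → ℤ → n → Ω}
    (h : ∀ u v, Pq k p fun a => e a u v) (hz : ∀ u, Pq k p fun a => z a u) (u : ℤ) :
    Pq k p fun a => Ew D (e a) (z a) u := Pq.vsum _ fun v => (h u v).vsmul (hz v)

theorem Pq.pv {n : Type} [Fintype n] {e : α → ℤ → ℤ → Ω} {z : α → ℤ → n → Ω}
    (h : ∀ u v, Pq k p fun a => e a u v) (hz : ∀ u, Pq k p fun a => z a u) (θ u : ℤ) :
    Pq k p fun a => Pv D (e a) (z a) θ u := Pq.vsum _ fun v => (h u v).vsmul (hz v)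

theorem Pq.ev1 {e : α → ℤ → ℤ → Ω} {z : α → ℤ → Ω}
    (h : ∀ u v, Pq k p fun a => e a u v) (hz : ∀ u, Pq k p fun a => z a u) (u : ℤ) :
    Pq k p fun a => Ew D (e a) (z a) u := Pq.sum _ fun v => (h u v).mul (hz v)

theorem Pq.pv1 {e : α → ℤ → ℤ → Ω} {z : α → ℤ → Ω}
    (h : ∀ u v, Pq k p fun a => e a u v) (hz : ∀ u, Pq k p fun a => z a u) (θ u : ℤ) :
    Pq k p fun a => Pv D (e a) (z a) θ u := Pq.sum _ fun v => (h u v).mul (hz v)

theorem Pq.ph {W : Type} {B : W → W → Ω} {e : α → ℤ → ℤ → Ω} {x : α → ℤ → W}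
    (h : ∀ u v, Pq k p fun a => e a u v) (hx : ∀ u v, Pq k p fun a => B (x a u) (x a v)) :
    Pq k p fun a => ph s D B (e a) (x a) :=
  Pq.sum _ fun v => ((h v v).mul (hx v v)).add
    ((Pq.const 2).mul (Pq.sum _ fun u => (h u v).mul (hx u v)))

theorem Cr.se {e : α → ℤ → ℤ → Ω} (h : ∀ u v, Pq k p fun a => e a u v) :
    Cr k p fun a => Se ε R f (e a) :=
  Cr.all fun u => Cr.all fun v => Cr.all fun _ => Cr.all fun _ => Cr.eq (h u v) (Pq.const 0)

theorem fd_bf {ι : Type} [Fintype ι] (ε : ℤˣ) (b : ι → Bool) :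
    Fo k q ε (Bf ε : (ι ⊕ ι → Ω) → _) (FV q ε b) :=
  ⟨sem_FV ε b, fun y => ⟨fun x x' => Bf_add_left ε x x' y, fun t x => Bf_smul_left ε x y t⟩,
    fun x => ⟨fun y y' => Bf_add_right ε x y y', fun t y => Bf_smul_right ε x y t⟩,
    fun x y => Bf_comm ε x y, fun x y => Bf_FV ε b x y k,
    Pq.bf ε (Pq.fst Pq.id) (Pq.snd Pq.id), fun x h => Bf_nondeg ε x h⟩

theorem Fo.pq {n : Type} [Fintype n] {B : (n → Ω) → (n → Ω) → Ω} {F : Equiv.Perm (n → Ω)}
    (hF : Fo k q ε B F) {x y : α → n → Ω} (hx : Pq k p x) (hy : Pq k p y) :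
    Pq k p fun a => B (x a) (y a) := Pq.comp hF.po (hx.mk hy)

theorem lo_SE2 (g : ℤ → Ω) (v : ℤ) :
    ∑ u ∈ Ico (v - D) v, g u = ∑ d ∈ Icc (1 : ℤ) D, g (v - d) := by
  refine sum_nbij' (fun u => v - u) (fun d => v - d) ?_ ?_ ?_ ?_ ?_
  · intro u hu
    simp only [mem_Ico, mem_Icc] at hu ⊢
    omega
  · intro u hu
    simp only [mem_Ico, mem_Icc] at hu ⊢
    omega
  all_goals simp

theorem hi_SE2 (g : ℤ → Ω) (v : ℤ) :
    ∑ u ∈ Ioc v (v + D), g u = ∑ d ∈ Icc (1 : ℤ) D, g (v + d) := by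
  refine sum_nbij' (fun u => u - v) (fun d => v + d) ?_ ?_ ?_ ?_ ?_
  · intro u hu
    simp only [mem_Ioc, mem_Icc] at hu ⊢
    omega
  · intro u hu
    simp only [mem_Ioc, mem_Icc] at hu ⊢
    omega
  all_goals simp

theorem all_SE2 (g : ℤ → Ω) (v : ℤ) : ∑ u ∈ Icc (v - D) (v + D), g u =
    g v + ∑ d ∈ Icc (1 : ℤ) D, g (v - d) + ∑ d ∈ Icc (1 : ℤ) D, g (v + d) := by
  have h : Icc (v - D) (v + D) = insert v (Ico (v - D) v) ∪ Ioc v (v + D) := by
    ext u
    simp only [mem_Icc, mem_union, mem_insert, mem_Ico, mem_Ioc]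
    omega
  rw [h, sum_union, sum_insert (by simp), lo_SE2, hi_SE2]
  refine disjoint_left.2 fun u h3 h4 => ?_
  simp only [mem_insert, mem_Ico, mem_Ioc] at h3 h4
  omega

/-- the two-sided form of the quadratic function -/
theorem eqs_two {n : Type} [Fintype n] {B : (n → Ω) → (n → Ω) → Ω} {F : Equiv.Perm (n → Ω)}
    (hF : Fo k q ε B F) {e : α → ℤ → ℤ → Ω} {x : α → ℤ → n → Ω}
    (h : ∀ u v, Pq k p fun a => e a u v) (hx : ∀ u, Pq k p fun a => x a u)
    (h1 : ∀ a, p a → Amx q ε s D (e a)) (h2 : ∀ a, p a → Pe F s (x a)) :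
    Eqs k q p (fun a => ph s D B (e a) (x a))
      fun a => ∑ u ∈ Ico (0 : ℤ) s, B (x a u) (Ew D (e a) (x a) u) := by
  have hw : ∀ d : ℤ, Eqs k q p
      (fun a => ∑ u ∈ Ico (0 : ℤ) s, e a (u - d) u * B (x a (u - d)) (x a u))
      fun a => ∑ u ∈ Ico (0 : ℤ) s, e a (u + d - d) (u + d) * B (x a (u + d - d)) (x a (u + d)) :=
    fun d => (eqs_window s (τ := fun a u => e a (u - d) u * B (x a (u - d)) (x a u))
      (fun u => (h _ _).mul (hF.pq (hx _) (hx _))) (fun a u ha => by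
        rw [add_sub_right_comm, (h1 a ha).per, h2 a ha, h2 a ha, hF.frob, mul_pow]
        linear_combination (-(e a (u - d) u ^ q * B (x a (u - d)) (x a u) ^ q)) *
          sg_mul_self (Ω := Ω) ε) d).symm
  refine (Eqs.of_eq fun a ha => ?_).trans (((Eqs.refl (ψ := fun a => ∑ v ∈ Ico (0 : ℤ) s,
    (e a v v * B (x a v) (x a v) + ∑ d ∈ Icc (1 : ℤ) D,
      e a (v - d) v * B (x a (v - d)) (x a v)))).add
    (Eqs.sum (Icc (1 : ℤ) D) fun d _ => hw d)).trans (Eqs.of_eq fun a ha => ?_))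
  · rw [sum_comm, ← sum_add_distrib, CXD.ph]
    refine sum_congr rfl fun v _ => ?_
    rw [lo_SE2 (fun u => e a u v * B (x a u) (x a v))]
    ring
  · rw [sum_comm, ← sum_add_distrib]
    refine sum_congr rfl fun v _ => ?_
    have hl : B (x a v) (Ew D (e a) (x a) v) =
        ∑ u ∈ Icc (v - D) (v + D), e a v u * B (x a v) (x a u) := by
      have := map_sum (IsLinearMap.mk' _ (hF.lin' (x a v))) (fun u => e a v u • x a u)
        (Icc (v - D) (v + D))
      simp only [IsLinearMap.mk'_apply, (hF.lin' (x a v)).map_smul, smul_eq_mul] at this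
      exact this
    rw [hl, all_SE2 (fun u => e a v u * B (x a v) (x a u))]
    simp only [add_sub_cancel_right]
    congr 2
    refine sum_congr rfl fun d _ => ?_
    rw [(h1 a ha).sym (v - d) v, hF.comm (x a (v - d)) (x a v)]
    linear_combination (-(e a (v - d) v * B (x a (v - d)) (x a v))) * sg_mul_self (Ω := Ω) ε

end Pool.Agent.CXD
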