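import Pool.Agent.P.MP_2ce3e7_ag.SI5
import Pool.Agent.P.MP_2ce3e7_ag.SI6
import Pool.Agent.P.MP_2ce3e7_ag.SBA

/-! The varieties of interval systems are good. -/

set_option linter.unusedSectionVars false
set_option linter.unusedVariables false

open Function Matrix

noncomputable section

namespace Pool.Agent.CXD
variable {k Ω : Type} [Field k] [Field Ω] [Algebra k Ω] {q : ℕ} [Sq k q] [IsAlgClosed Ω] {G : Gp Ω}

theorem zt_all (h2 : (2 : Ω) ≠ 0) {s D : ℕ} [NeZero s] (m : ℕ) :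
    ∀ (ι : Type) [Fintype ι], Fintype.card ι = m → ∀ (ε : ℤˣ) (b : ι → Bool) (R : ℤ → Prop)
      (f : ℤ → ℤ) (G : Gp Ω), Az k q G → Is s D R f → Gy k G (Zt (Ω := Ω) q ε b s R f) := by
  induction m using Nat.strong_induction_on with
  | _ m ih =>
    intro ι _ hm ε b R f G h hi
    by_cases hc : ∀ w, (clq R f w).ncard ≤ m
    · refine h.zg (fd_bf ε b) h2 hi fun f' hi' hle => ?_
      refine gt_ind (fd_bf ε b) h2 m
        (fun R f r hi h0 h1 hR hf hp G h => h.tq_1a_end h2 hi h0 h1 hR hf (hp G h))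
        (fun R f g h3 hlt G h => h.tq_three h2 h3 fun b' =>
          ih _ hlt _ (Fintype.card_coe _) _ _ _ _ G h h3.toIs.pred) hi' (fun w => ?_) h
      exact (Set.ncard_le_ncard (s := clq R f' w) (t := clq R f w)
        (fun u hu => ⟨hu.1, hu.2.1, hu.2.2.trans (hle u)⟩) (hi.fin w)).trans (hc w)
    · refine h.toAu.gnot fun X hX => hc fun w => hm ▸ card_le_of_orth ε (hX.2.1 w) fun u hu v hv => ?_
      rcases le_total u v with e | e
      · exact hX.2.2 u v hu.1 hv.1 e (hv.2.1.trans hu.2.2)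
      · rw [Bf_comm, hX.2.2 v u hv.1 hu.1 e (hu.2.1.trans hv.2.2), mul_zero]

theorem Az.zt (h : Az k q G) (h2 : (2 : Ω) ≠ 0) {ι : Type} [Fintype ι] (ε : ℤˣ) (b : ι → Bool)
    {s D : ℕ} [NeZero s] {R : ℤ → Prop} {f : ℤ → ℤ} (hi : Is s D R f) :
    Gy k G (Zt (Ω := Ω) q ε b s R f) := zt_all h2 _ ι rfl ε b R f G h hi

end Pool.Agent.CXD
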