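import Pool.Agent.P.MP_2ce3e7_ag.SE2

/-! The Artin-Schreier varieties of interval systems. -/

set_option linter.unusedSectionVars false
set_option linter.unusedVariables false

open Function Matrix

noncomputable section

namespace Pool.Agent.CXD
open Finset

variable {k Ω : Type} [Field k] [Field Ω] [Algebra k Ω] {q : ℕ} {ε : ℤˣ} {s D : ℕ} [NeZero s]
  {R : ℤ → Prop} {f f' f₁ f₂ : ℤ → ℤ} {n : Type} [Fintype n] {G : Gp Ω}
  {B : (n → Ω) → (n → Ω) → Ω} {F : Equiv.Perm (n → Ω)}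
  {Q Q' : (ℤ → ℤ → Ω) → Prop} {r κ : ℤ} {e : ℤ → ℤ → Ω}

/-- matrices supported for `f` and vectors independent on the cliques of `f₁` -/
def Tb (q : ℕ) (ε : ℤˣ) (F : Equiv.Perm (n → Ω)) (s D : ℕ) (R : ℤ → Prop) (f f₁ : ℤ → ℤ)
    (Q : (ℤ → ℤ → Ω) → Prop) (y : Ecf Ω s D × (ZMod s → n → Ω)) : Prop :=
  Se ε R f (ee q ε y.1) ∧ Acz R (pext F s y.2) ∧ Ci Ω R f₁ (pext F s y.2) ∧
    Q (ee q ε y.1)

/-- the function on the base -/
def Tf (q : ℕ) (ε : ℤˣ) (B : (n → Ω) → (n → Ω) → Ω) (F : Equiv.Perm (n → Ω)) (s D : ℕ)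
    (y : Ecf Ω s D × (ZMod s → n → Ω)) : Ω :=
  ph s D B (ee q ε y.1) (pext F s y.2)

variable (k) in
/-- the Artin-Schreier variety is good -/
abbrev GT (G : Gp Ω) (q : ℕ) (ε : ℤˣ) (B : (n → Ω) → (n → Ω) → Ω) (F : Equiv.Perm (n → Ω))
    (s D : ℕ) [NeZero s] (R : ℤ → Prop)
    (f f₁ : ℤ → ℤ) (Q : (ℤ → ℤ → Ω) → Prop) : Prop :=
  Gy k G (AS q (Tb q ε F s D R f f₁ Q) (Tf q ε B F s D))

/-- the variety of an interval system in a space with a form -/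
def Zg (B : (n → Ω) → (n → Ω) → Ω) (F : Equiv.Perm (n → Ω)) (s : ℕ) (R : ℤ → Prop) (f : ℤ → ℤ)
    (X : ZMod s → n → Ω) : Prop :=
  Acz R (pext F s X) ∧ Ci Ω R f (pext F s X) ∧
    ∀ u v, R u → R v → u ≤ v → v ≤ f u → B (pext F s X u) (pext F s X v) = 0

variable [Sq k q] [IsAlgClosed Ω]

theorem pq_tx (hF : Fo k q ε B F) {p : Ecf Ω s D × (ZMod s → n → Ω) → Prop} (u : ℤ) :
    Pq k p fun y => pext F s y.2 u :=
  Pq.pext hF.sem.po hF.sem.po' (Pq.snd Pq.id) u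

theorem pq_te {β : Type} [Af Ω β] {p : Ecf Ω s D × β → Prop} (u v : ℤ) :
    Pq k p fun y => ee q ε y.1 u v := Pq.ee (Pq.fst Pq.id) ε u v

theorem pq_tf (hF : Fo k q ε B F) {p : Ecf Ω s D × (ZMod s → n → Ω) → Prop} : Pq k p (Tf q ε B F s D) :=
  Pq.ph pq_te fun u v => hF.pq (pq_tx hF u) (pq_tx hF v)

theorem lc_tb (hF : Fo k q ε B F) (hi : Is s D R f₁) (hQ : Lc k fun E : Ecf Ω s D => Q (ee q ε E)) :
    Lc k (Tb q ε F s D R f f₁ Q) :=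
  Lr.and (Cr.lr (Cr.se pq_te)) (Lr.and
    (Cr.lr (Cr.all fun u => Cr.all fun _ => Cr.eq (pq_tx hF u) (Pq.const 0))) (Lr.and
    (Lr.congr (Lr.all fun c : ZMod s => Lr.lionf (pq_tx hF) (hi.fin c.val))
      fun y _ => hF.sem.ci_iff hi (pe_pext F y.2)) (Lr.fst hQ _)))

theorem zero_iff_SI0 {β : Type} [Af Ω β] [AddCommGroup β] [Module Ω β] [a : Al Ω β] (x : β) :
    x = 0 ↔ ∀ j, co x j = 0 :=
  ⟨fun e j => by rw [e]; exact congrFun a.lin.map_zero j,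
    fun e => Af.e.injective ((funext e).trans a.lin.map_zero.symm)⟩

theorem Au.gacz (h : Au k q G) {α β : Type} [Af Ω α] {p : α → Prop} [Af Ω β] [AddCommGroup β] [Module Ω β]
    [Al Ω β] {F : Equiv.Perm β} (hF : Sem k q F) (hi : Is s D R f) (hp : Gy k G p) :
    Gy k G fun y : α × (ZMod s → β) => p y.1 ∧ Acz R (pext F s y.2) :=
  (h.gcsupp (β := ZMod s → β) (fun j : (Σ _ : ZMod s, Af.ι β) => ¬R j.1.val) hp).congr fun y =>
    and_congr_right fun _ => (hF.act_iff hi.perR y.2).trans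
      ⟨fun H j hj => (zero_iff_SI0 _).1 (H j.1 hj) j.2,
        fun H c hc => (zero_iff_SI0 _).2 fun j => H ⟨c, j⟩ hc⟩

theorem Au.gci (h : Au k q G) {α : Type} [Af Ω α] {p : α → Prop} (hF : Sem k q F)
    (hi : Is s D R f) {x : α → ℤ → n → Ω} (hx : ∀ u, Pq k p fun a => x a u)
    (h1 : ∀ a, p a → Pe F s (x a)) (hp : Gy k G p) : Gy k G fun a => p a ∧ Ci Ω R f (x a) :=
  (h.glif (T := ZMod s) hx (fun c => hi.fin c.val) hp).congr fun a =>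
    and_congr_right fun ha => hF.ci_iff hi (h1 a ha)

/-- the base is open in a linear space -/
theorem Az.gy_tb (h : Az k q G) (hF : Fo k q ε B F) {R' : ℤ → Prop} (hi : Is s D R f) (hi' : Is s D R' f₁) :
    Gy k G fun y : Ecf Ω s D × (ZMod s → n → Ω) => Se ε R f (ee q ε y.1) ∧
      Acz R' (pext F s y.2) ∧ Ci Ω R' f₁ (pext F s y.2) := by
  have h0 := h.toAu.gsupp2 (fun (c : ZMod s) (δ : Fin (D + 1)) => ¬ok ε R f (c.val - δ.val) c.val)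
    (h.guniv Ω)
  have h1 : Gy k G fun y : Ecf Ω s D × Ω => Se ε R f (ee q ε y.1) :=
    h.toAu.giso (fun y : Ω × Ecf Ω s D => (y.2, y.1)) (fun y : Ecf Ω s D × Ω => (y.2, y.1))
      ((Pq.snd Pq.id).mk (Pq.fst Pq.id)) ((Pq.snd Pq.id).mk (Pq.fst Pq.id))
      (fun z hz => (se_iff k hi _).2 hz.2) (fun z hz => ⟨trivial, (se_iff k hi _).1 hz⟩)
      (fun _ _ => rfl) (fun _ _ => rfl) h0
  have h2 := h.toAu.gacz hF.sem hi'
    (h.toAu.gunline (p := fun E : Ecf Ω s D => Se ε R f (ee q ε E)) Ω h1)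
  exact (h.toAu.gci hF.sem hi' (pq_tx hF) (fun a _ => pe_pext F a.2) h2).congr fun _ =>
    and_assoc.symm

theorem Au.tq_add (h : Au k q G) (hF : Fo k q ε B F) (hi : Is s D R f₂) (hle : ∀ u, R u → f₁ u ≤ f₂ u)
    (hp : GT k G q ε B F s D R f f₁ Q) : GT k G q ε B F s D R f f₂ Q :=
  (h.gci hF.sem hi (x := fun y : (Ecf Ω s D × (ZMod s → n → Ω)) × Ω => pext F s y.1.2)
    (fun u => Pq.pext hF.sem.po hF.sem.po' (Pq.snd (Pq.fst Pq.id)) u)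
    (fun a _ => pe_pext F a.1.2) hp).congr fun _ =>
    ⟨fun H => ⟨⟨⟨H.1.1, H.1.2.1, fun w => (H.1.2.2.1 w).mono fun u hu =>
      ⟨hu.1, hu.2.1, hu.2.2.trans (hle u hu.1)⟩, H.1.2.2.2⟩, H.2⟩, H.1.2.2.1⟩,
      fun H => ⟨⟨H.1.1.1, H.1.1.2.1, H.2, H.1.1.2.2.2⟩, H.1.2⟩⟩

theorem GT.congr
    (hq : ∀ e, Amx q ε s D e → (Se ε R f e ∧ Q e ↔ Se ε R f' e ∧ Q' e))
    (hp : GT k G q ε B F s D R f' f₁ Q') : GT k G q ε B F s D R f f₁ Q :=
  Gy.as_of_iff hp (fun _ =>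
    ⟨fun H => ((hq _ (H.1.ad k)).1 ⟨H.1, H.2.2.2⟩).elim fun a b => ⟨a, H.2.1, H.2.2.1, b⟩,
      fun H => ((hq _ (H.1.ad k)).2 ⟨H.1, H.2.2.2⟩).elim fun a b => ⟨a, H.2.1, H.2.2.1, b⟩⟩)
    fun _ _ => rfl

theorem Au.tq_low (h : Au k q G) (hF : Fo k q ε B F) (hi : Is s D R f) (hle : ∀ u, R u → f' u ≤ f u)
    (hq : ∀ e, Amx q ε s D e → (Se ε R f e ∧ Q e ↔ Se ε R f' e ∧ Q' e))
    (hp : GT k G q ε B F s D R f' f' Q') : GT k G q ε B F s D R f f Q :=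
  h.tq_add hF hi hle (GT.congr hq hp)

theorem Au.tq_opn (h : Au k q G) (hF : Fo k q ε B F) (u v : ℤ) (hp : GT k G q ε B F s D R f f₁ Q) :
    GT k G q ε B F s D R f f₁ fun e => Q e ∧ e u v ≠ 0 :=
  Gy.as_of_iff (h.as_opn (pq_te u v) hp) (fun _ =>
    ⟨fun H => ⟨⟨H.1, H.2.1, H.2.2.1, H.2.2.2.1⟩, H.2.2.2.2⟩,
      fun H => ⟨H.1.1, H.1.2.1, H.1.2.2.1, H.1.2.2.2, H.2⟩⟩) fun _ _ => rfl

theorem Au.tq_split (h : Au k q G) (hF : Fo k q ε B F) (hi : Is s D R f₁) (u v : ℤ)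
    (h1 : GT k G q ε B F s D R f f₁ fun e => e u v = 0)
    (h2 : GT k G q ε B F s D R f f₁ fun e => e u v ≠ 0) :
    GT k G q ε B F s D R f f₁ fun _ => True :=
  h.as_split (lc_tb hF hi (Lr.const True)) (pq_tf hF) (pq_te u v)
    (Gy.as_of_iff h1 (fun _ => ⟨fun H => ⟨H.1.1, H.1.2.1, H.1.2.2.1, H.2⟩,
      fun H => ⟨⟨H.1, H.2.1, H.2.2.1, trivial⟩, H.2.2.2⟩⟩) fun _ _ => rfl)
    (Gy.as_of_iff h2 (fun _ => ⟨fun H => ⟨H.1.1, H.1.2.1, H.1.2.2.1, H.2⟩,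
      fun H => ⟨⟨H.1, H.2.1, H.2.2.1, trivial⟩, H.2.2.2⟩⟩) fun _ _ => rfl)

/-- the part where the last entry of the row `r` vanishes -/
theorem Au.tq_last (h : Au k q G) (hF : Fo k q ε B F) (hi : Is s D R f) (hr : r ≤ f r)
    (hp : GT k G q ε B F s D R (low s f r) (low s f r) fun _ => True) :
    GT k G q ε B F s D R f f fun e => e r (f r) = 0 :=
  h.tq_low hF hi (fun u _ => low_le f r u)
    (fun _ ha => by rw [se_low k hi hr ha, and_true]) hp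

/-- no active place -/
theorem Az.tq_empty (h : Az k q G) (hF : Fo k q ε B F) (hi : Is s D R f) (h0 : ∀ u, ¬R u) :
    GT k G q ε B F s D R f f fun _ => True := by
  refine Gy.as_of_iff (h.toAu.as_zero (h.gy_tb hF hi hi)) (fun _ =>
    ⟨fun H => ⟨H.1, H.2.1, H.2.2.1⟩, fun H => ⟨H.1, H.2.1, H.2.2, trivial⟩⟩) fun y H => ?_
  unfold Tf ph
  refine sum_eq_zero fun v _ => ?_
  rw [H.1 v v le_rfl fun e => h0 _ e.1, zero_mul, zero_add, sum_eq_zero, mul_zero]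
  intro u hu
  rw [H.1 u v (mem_Ico.1 hu).2.le fun e => h0 _ e.1, zero_mul]

/-- an interval that ends at an inactive place -/
theorem Au.tq_zero (h : Au k q G) (hF : Fo k q ε B F) (hi : Is s D R f) (hr : r ≤ f r) (h0 : ¬R (f r))
    (hp : GT k G q ε B F s D R (low s f r) (low s f r) fun _ => True) :
    GT k G q ε B F s D R f f fun _ => True :=
  h.tq_low hF hi (fun u _ => low_le f r u) (fun _ ha => by
    rw [se_low k hi hr ha, and_true, and_true]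
    exact ⟨fun H => ⟨H, H r (f r) hr fun e => h0 e.2.1⟩, fun H => H.1⟩) hp

/-- all pivots are invertible -/
def Piv (R : ℤ → Prop) (f : ℤ → ℤ) (e : ℤ → ℤ → Ω) : Prop := ∀ u, R u → e u (f u) ≠ 0

theorem piv_iff_SI0 (k : Type) [Field k] [Algebra k Ω] [Sq k q] (hi : Is s D R f)
    (ha : Amx q ε s D e) : Piv R f e ↔ ∀ c : ZMod s, R c.val → e c.val (f c.val) ≠ 0 := by
  refine ⟨fun H c => H _, fun H => per_ind s (P := fun u => R u → e u (f u) ≠ 0) (fun u => ?_) 0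
    fun u h0 h1 => ?_⟩
  · have := ha.zero_iff k u (f u) 1
    rw [mul_one] at this
    rw [hi.perR, hi.perf, Ne, this]
  · have e : (((u : ZMod s).val : ℕ) : ℤ) = u := by
      rw [ZMod.val_intCast]
      exact Int.emod_eq_of_lt h0 (by simpa using h1)
    have := H u
    rwa [e] at this

theorem Au.tq_piv (h : Au k q G) (hF : Fo k q ε B F) (hi : Is s D R f) (h1 : ∀ u, R u → u ≤ f u)
    (ih : ∀ r, R r → GT k G q ε B F s D R (low s f r) (low s f r) fun _ => True)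
    (hp : GT k G q ε B F s D R f (fun u => u - 1) (Piv R f)) :
    GT k G q ε B F s D R f f fun _ => True := by
  classical
  have c : Lc k (Tb q ε F s D R f f fun _ => True) := lc_tb hF hi (Lr.const True)
  have hg : ∀ p : Ecf Ω s D × (ZMod s → n → Ω) → Prop, Pq k p fun y =>
      ∏ c : {c : ZMod s // R c.val}, ee q ε y.1 c.1.val (f c.1.val) :=
    fun p => Pq.prod _ fun c => pq_te _ _
  refine h.as_split c (pq_tf hF) (hg _) ?_ ?_
  · refine h.as_union (Lr.land c (Lr.eq (hg _) (Pq.const 0))) (pq_tf hF)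
      (T := {c : ZMod s // R c.val}) (r := fun c y => ee q ε y.1 c.1.val (f c.1.val) = 0)
      (fun c => Cr.eq (pq_te _ _) (Pq.const 0)) (fun y H => ?_) fun c => ?_
    · obtain ⟨c, -, hc⟩ := prod_eq_zero_iff.1 H.2
      exact ⟨c, hc⟩
    · exact Gy.as_of_iff (h.tq_last hF hi (h1 _ c.2) (ih _ c.2)) (fun _ =>
        ⟨fun H => ⟨H.1.1.1, H.1.1.2.1, H.1.1.2.2.1, H.2⟩, fun H =>
          ⟨⟨⟨H.1, H.2.1, H.2.2.1, trivial⟩, prod_eq_zero (mem_univ c) H.2.2.2⟩, H.2.2.2⟩⟩)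
        fun _ _ => rfl
  · refine Gy.as_of_iff (h.tq_add hF hi (fun u _ => hi.lo u) hp) (fun y => ⟨fun H =>
      ⟨H.1.1, H.1.2.1, H.1.2.2.1, (piv_iff_SI0 k hi (H.1.1.ad k)).2 fun c hc =>
        prod_ne_zero_iff.1 H.2 ⟨c, hc⟩ (mem_univ _)⟩, fun H =>
      ⟨⟨H.1, H.2.1, H.2.2.1, trivial⟩, prod_ne_zero_iff.2 fun c _ => H.2.2.2 _ c.2⟩⟩)
      fun _ _ => rfl

end Pool.Agent.CXD
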