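import Pool.Agent.P.MP_2ce3e7_ag.SI0

/-! Elementary operations. -/

set_option linter.unusedSectionVars false
set_option linter.unusedVariables false

open Function Matrix

noncomputable section

namespace Pool.Agent.CXD
open Finset

variable {k Ω : Type} [Field k] [Field Ω] [Algebra k Ω] {q : ℕ} {ε : ℤˣ} {s D : ℕ} [NeZero s]
  {R : ℤ → Prop} {f f' f₁ f₂ : ℤ → ℤ} {n : Type} [Fintype n] {G : Gp Ω}
  {B : (n → Ω) → (n → Ω) → Ω} {F : Equiv.Perm (n → Ω)}
  {Q Q' : (ℤ → ℤ → Ω) → Prop} {r κ : ℤ} {e : ℤ → ℤ → Ω}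

/-- the periodic sequence supported on the class of `r` -/
def tws (q s : ℕ) (r : ℤ) (τ : Ω) : ℤ → Ω := pext (frq q) s fun c => if c = r then τ else 0

/-- the operation on vectors -/
def opx {W : Type} [AddCommGroup W] [Module Ω W] (κ : ℤ) (t : ℤ → Ω) (x : ℤ → W) (w : ℤ) : W :=
  x w + t w • x (w - κ)

/-- the operation on matrices -/
def ope (κ : ℤ) (t : ℤ → Ω) (e : ℤ → ℤ → Ω) (u v : ℤ) : Ω :=
  e u v + t (u + κ) * e (u + κ) v + t (v + κ) * e u (v + κ) +
    t (u + κ) * t (v + κ) * e (u + κ) (v + κ)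

/-- the interval of `r - κ` reaches at least as far as that of `r` -/
structure Opd (s : ℕ) (R : ℤ → Prop) (f : ℤ → ℤ) (r κ : ℤ) : Prop where
  r0 : 0 ≤ r
  r1 : r < s
  pos : 0 < κ
  nd : ((r - κ : ℤ) : ZMod s) ≠ r
  Rr : R r
  Ru : R (r - κ)
  le : f r ≤ f (r - κ)

variable [Sq k q] [IsAlgClosed Ω] {τ τ' : Ω}

theorem pe_tw (q : ℕ) (r : ℤ) (τ : Ω) : Pe (frq q) s (tws q s r τ) := pe_pext _ _

theorem tw_self (h0 : 0 ≤ r) (h1 : r < s) : tws q s r τ r = τ := by
  rw [tws, pext_of_mem h0 h1, if_pos rfl]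

theorem tw_of_ne (k : Type) [Field k] [Algebra k Ω] [Sq k q] {u : ℤ} (h : (u : ZMod s) ≠ r) :
    tws q s r τ u = 0 := by
  rw [tws, pext, if_neg h]
  exact Equiv.Perm.zpow_apply_eq_self_of_apply_eq_self (sem_fr (k := k)).zero _

theorem tw_add (k : Type) [Field k] [Algebra k Ω] [Sq k q] (u : ℤ) :
    tws q s r (τ + τ') u = tws q s r τ u + tws q s r τ' u := by
  have hp : Pe (frq q) s fun u => tws q s r τ u + tws q s r τ' u := fun u => by
    simp only [pe_tw q r τ u, pe_tw q r τ' u, (sem_fr (k := k)).add]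
  refine congrFun ((pe_tw q r (τ + τ')).ext' hp fun u h0 h1 => ?_) u
  simp only [tws, pext_of_mem h0 h1]
  split_ifs <;> simp

theorem tw_zero (k : Type) [Field k] [Algebra k Ω] [Sq k q] : tws q s r (0 : Ω) = 0 := by
  funext u
  rw [tws, pext, ite_self]
  exact Equiv.Perm.zpow_apply_eq_self_of_apply_eq_self (sem_fr (k := k)).zero _

theorem Pq.tws {α : Type} [Af Ω α] {p : α → Prop} {τ : α → Ω} (h : Pq k p τ) (r u : ℤ) :
    Pq k p fun a => tws q s r (τ a) u :=
  Pq.pext (X := fun a (c : ZMod s) => if c = (r : ZMod s) then τ a else 0) po_fr po_fr_symm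
    (Pq.pi fun c => Pq.ite (c = (r : ZMod s)) h (Pq.const 0)) u

theorem ope_zero : ope κ 0 e = e := by
  funext u v
  simp [ope]

theorem opx_zero {W : Type} [AddCommGroup W] [Module Ω W] (x : ℤ → W) :
    opx κ (0 : ℤ → Ω) x = x := by
  funext u
  simp [opx]

theorem lc_opx_SI1 {W : Type} [AddCommGroup W] [Module Ω W] (t : ℤ → Ω) (x : ℤ → W) (l : ℤ →₀ Ω) :
    Finsupp.linearCombination Ω x
      (Finsupp.linearCombination Ω (opx κ t fun u => Finsupp.single u (1 : Ω)) l) =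
      Finsupp.linearCombination Ω (opx κ t x) l := by
  rw [Finsupp.apply_linearCombination]
  congr 2
  funext u
  simp [opx]

theorem lc_one_SI1 (l : ℤ →₀ Ω) :
    Finsupp.linearCombination Ω (fun u => Finsupp.single u (1 : Ω)) l = l := by
  simp [Finsupp.linearCombination_apply]

section
variable (k : Type) [Field k] [Algebra k Ω] [Sq k q] (ho : Opd s R f r κ)
include k ho

theorem Opd.cls_SI1 {u : ℤ} (h : tws q s r τ u ≠ 0) : ∃ j, u = r + s * j := by
  have h1 : (r : ZMod s) = u := (by_contra fun h' => h (tw_of_ne k h') : (u : ZMod s) = r).symm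
  obtain ⟨j, hj⟩ := (ZMod.intCast_eq_intCast_iff_dvd_sub _ _ _).1 h1
  exact ⟨j, by omega⟩

theorem Opd.mul_SI1 (u : ℤ) : tws q s r τ' u = 0 ∨ tws q s r τ (u + κ) = 0 := by
  by_contra h
  rw [not_or] at h
  have h1 : (u : ZMod s) = r := by_contra fun h' => h.1 (tw_of_ne k h')
  have h2 : ((u + κ : ℤ) : ZMod s) = r := by_contra fun h' => h.2 (tw_of_ne k h')
  apply ho.nd
  push_cast at h2 ⊢
  linear_combination h1 - h2

theorem Opd.up_SI1 : tws q s r τ (r + κ) = 0 :=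
  (ho.mul_SI1 (k := k) (τ' := 1) r).resolve_left (by rw [tw_self ho.r0 ho.r1]; exact one_ne_zero)

theorem Opd.key_SI1 (hi : Is s D R f) {u : ℤ} (h : tws q s r τ (u + κ) ≠ 0) :
    R u ∧ R (u + κ) ∧ f (u + κ) ≤ f u := by
  obtain ⟨j, hj⟩ := ho.cls_SI1 (k := k) h
  have h1 : u = r - κ + s * j := by omega
  rw [hj]
  refine ⟨?_, (hi.mulR _ _).2 ho.Rr, ?_⟩
  · rw [h1]
    exact (hi.mulR _ _).2 ho.Ru
  · rw [h1, hi.mulf, hi.mulf]
    have := ho.le
    omega

theorem Opd.ope_ope : ope κ (tws q s r τ') (ope κ (tws q s r τ) e) = ope κ (tws q s r (τ + τ')) e := by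
  funext u v
  simp only [ope, tw_add k]
  rcases ho.mul_SI1 (k := k) (τ := τ) (τ' := τ') (u + κ) with h1 | h1 <;>
    rcases ho.mul_SI1 (k := k) (τ := τ) (τ' := τ') (v + κ) with h2 | h2 <;> rw [h1, h2] <;> ring

theorem Opd.opx_opx {W : Type} [AddCommGroup W] [Module Ω W] (x : ℤ → W) :
    opx κ (tws q s r τ') (opx κ (tws q s r τ) x) = opx κ (tws q s r (τ + τ')) x := by
  funext w
  have h := ho.mul_SI1 (k := k) (τ := τ') (τ' := τ) (w - κ)
  rw [sub_add_cancel] at h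
  simp only [opx, tw_add k]
  rcases h with h | h <;> rw [h] <;> simp [add_smul, add_assoc]

theorem Opd.se (h2 : (2 : Ω) ≠ 0) (hi : Is s D R f) (ha : Amx q ε s D e) (hs : Se ε R f e) :
    Se ε R f (ope κ (tws q s r τ) e) := by
  intro u v huv hn
  have hκ := ho.pos
  by_cases h0 : R u ∧ R v ∧ v ≤ f u
  · have h1 : ¬(u = v → ε = 1) := fun h => hn ⟨h0.1, h0.2.1, h0.2.2, h⟩
    rw [Classical.not_imp] at h1
    obtain ⟨rfl, h3⟩ := h1
    have h4 : ∀ w, e w w = 0 := fun w => hs w w le_rfl fun h => h3 (h.2.2.2 rfl)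
    obtain rfl : ε = -1 := (Int.units_eq_one_or ε).resolve_left h3
    rw [ope, h4, h4, ha.sym u (u + κ), sg_neg, sg_one]
    ring
  have a1 : tws q s r τ (u + κ) * e (u + κ) v = 0 := by
    by_contra h
    obtain ⟨b1, -, b2⟩ := ho.key_SI1 (k := k) hi (left_ne_zero_of_mul h)
    obtain ⟨-, b3, b4, -⟩ := hs.of_ne ha (right_ne_zero_of_mul h)
    have := hi.lo (u + κ)
    exact h0 ⟨b1, b3, by omega⟩
  have a2 : tws q s r τ (v + κ) * e u (v + κ) = 0 := by
    by_contra h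
    obtain ⟨b1, -, -⟩ := ho.key_SI1 (k := k) hi (left_ne_zero_of_mul h)
    obtain ⟨b3, -, b4, -⟩ := hs.of_ne ha (right_ne_zero_of_mul h)
    exact h0 ⟨b3, b1, by omega⟩
  have a3 : tws q s r τ (u + κ) * tws q s r τ (v + κ) * e (u + κ) (v + κ) = 0 := by
    by_contra h
    obtain ⟨b1, -, b2⟩ := ho.key_SI1 (k := k) hi (left_ne_zero_of_mul (left_ne_zero_of_mul h))
    obtain ⟨b3, -, -⟩ := ho.key_SI1 (k := k) hi (right_ne_zero_of_mul (left_ne_zero_of_mul h))
    obtain ⟨-, -, b4, -⟩ := hs.of_ne ha (right_ne_zero_of_mul h)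
    exact h0 ⟨b1, b3, by omega⟩
  rw [ope, hs u v huv hn, a1, a2, a3]
  simp

theorem Opd.am (h2 : (2 : Ω) ≠ 0) (hi : Is s D R f) (ha : Amx q ε s D e) (hs : Se ε R f e) :
    Amx q ε s D (ope κ (tws q s r τ) e) := by
  refine ⟨fun u v => ?_, fun u v => ?_, fun u v h => ?_⟩
  · rw [ope, ope, ha.sym u v, ha.sym u (v + κ), ha.sym (u + κ) v, ha.sym (u + κ) (v + κ)]
    ring
  · rw [ope, ope, add_right_comm u, add_right_comm v, pe_tw q r τ, pe_tw q r τ, ha.per, ha.per,
      ha.per, ha.per]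
    simp only [fr_apply k, (Sq.su : Su k q).add_pow, mul_pow]
    ring
  · have := hi.hi u
    exact ho.se (k := k) h2 hi ha hs u v (by omega) fun h' => by
      have := h'.2.2.1
      omega

theorem Opd.acz {W : Type} [AddCommGroup W] [Module Ω W] (hi : Is s D R f) {x : ℤ → W}
    (hx : Acz R x) : Acz R (opx κ (tws q s r τ) x) := by
  intro u hu
  have h : tws q s r τ u = 0 := by
    by_contra h
    rw [← sub_add_cancel u κ] at h hu
    exact hu (ho.key_SI1 (k := k) hi h).2.1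
  rw [opx, hx u hu, h, zero_smul, add_zero]

theorem Opd.ci {W : Type} [AddCommGroup W] [Module Ω W] (hi : Is s D R f) {x : ℤ → W}
    (hx : Ci Ω R f x) : Ci Ω R f (opx κ (tws q s r τ) x) := by
  intro w
  have h0 := hx w
  rw [linearIndepOn_iff] at h0 ⊢
  intro l hl h1
  have h2 : Finsupp.linearCombination Ω (opx κ (tws q s r τ) fun u => Finsupp.single u (1 : Ω)) l ∈
      Finsupp.supported Ω Ω (clq R f w) := by
    refine (Submodule.span_le.2 ?_ : Submodule.span Ω (_ '' clq R f w) ≤ _)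
      ((Finsupp.mem_span_image_iff_linearCombination Ω).2 ⟨l, hl, rfl⟩)
    rintro _ ⟨u, hu, rfl⟩
    refine add_mem (Finsupp.single_mem_supported Ω _ hu) ?_
    by_cases h : tws q s r τ u = 0
    · rw [h, zero_smul]
      exact zero_mem _
    refine Submodule.smul_mem _ _ (Finsupp.single_mem_supported Ω _ ?_)
    rw [← sub_add_cancel u κ] at h
    obtain ⟨b1, -, b2⟩ := ho.key_SI1 (k := k) hi h
    rw [sub_add_cancel] at b2
    have := ho.pos
    exact ⟨b1, by linarith [hu.2.1], hu.2.2.trans b2⟩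
  have h3 := h0 _ h2 ((lc_opx_SI1 _ _ _).trans h1)
  have h4 := lc_opx_SI1 (κ := κ) (tws q s r τ)
    (opx κ (tws q s r (-τ)) fun u => Finsupp.single u (1 : Ω)) l
  rw [h3, map_zero, ho.opx_opx (k := k), neg_add_cancel, tw_zero k, opx_zero] at h4
  rw [← lc_one_SI1 l]
  exact h4.symm

theorem Opd.col (hi : Is s D R f) (ha : Amx q ε s D e) (hs : Se ε R f e) (hf : f r = r) (u : ℤ) :
    ope κ (tws q s r τ) e u r = e u r + if u = r - κ then τ * e r r else 0 := by
  rw [ope, ho.up_SI1 (k := k)]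
  split_ifs with h
  · rw [h, sub_add_cancel, tw_self ho.r0 ho.r1]
    ring
  · have a1 : tws q s r τ (u + κ) * e (u + κ) r = 0 := by
      by_contra h'
      obtain ⟨j, hj⟩ := ho.cls_SI1 (k := k) (left_ne_zero_of_mul h')
      obtain ⟨-, -, b1, b2, -⟩ := hs.of_ne ha (right_ne_zero_of_mul h')
      have b3 : f (u + κ) = u + κ := by rw [hj, hi.mulf, hf]
      omega
    rw [a1]
    ring

theorem Opd.two (hs : Se ε R f e) (hf : f (r - κ) = f r) (hr : r ≤ f r) :
    ope κ (tws q s r τ) e r (f r) = e r (f r) ∧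
      ope κ (tws q s r τ) e (r - κ) (f r) = e (r - κ) (f r) + τ * e r (f r) := by
  have hκ := ho.pos
  have a1 : e r (f r + κ) = 0 := hs _ _ (by omega) fun h => by
    have := h.2.2.1
    omega
  have a2 : e (r - κ) (f r + κ) = 0 := hs _ _ (by omega) fun h => by
    have := h.2.2.1
    omega
  constructor
  · rw [ope, ho.up_SI1 (k := k), a1]
    ring
  · rw [ope, sub_add_cancel, tw_self ho.r0 ho.r1, a1, a2]
    ring

end

theorem Sem.pe_opx {β : Type} [Af Ω β] [AddCommGroup β] [Module Ω β] {F : Equiv.Perm β}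
    (hF : Sem k q F) {t : ℤ → Ω} (ht : Pe (frq q) s t) {x : ℤ → β} (hx : Pe F s x) :
    Pe F s (opx κ t x) := by
  intro u
  rw [opx, opx, add_sub_right_comm, hx, hx, ht, hF.add, hF.smul, fr_apply k]

end Pool.Agent.CXD
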