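import Pool.Agent.P.MP_2ce3e7_ag.SI1

/-! Clearing an entry. -/

set_option linter.unusedSectionVars false
set_option linter.unusedVariables false

open Function Matrix

noncomputable section

namespace Pool.Agent.CXD
open Finset

variable {k Ω : Type} [Field k] [Field Ω] [Algebra k Ω] {q : ℕ} {ε : ℤˣ} {s D : ℕ} [NeZero s]
  {R : ℤ → Prop} {f f' f₁ f₂ : ℤ → ℤ} {n : Type} [Fintype n] {G : Gp Ω}
  {B : (n → Ω) → (n → Ω) → Ω} {F : Equiv.Perm (n → Ω)}
  {Q Q' : (ℤ → ℤ → Ω) → Prop} {r κ : ℤ} {e : ℤ → ℤ → Ω}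
  [Sq k q] [IsAlgClosed Ω]

theorem band_SI2 (ha : Amx q ε s D e) (u v : ℤ) (h : u + D < v) : e u v = 0 := by
  have key : ∀ (m : ℕ) (u v : ℤ), -(m : ℤ) ≤ u → u + D < v → e u v = 0 := fun m => by
    induction m with
    | zero =>
      intro u v h0 h1
      have h2 := ha.band u.toNat v.toNat (by omega)
      rwa [Int.toNat_of_nonneg (by omega), Int.toNat_of_nonneg (by omega)] at h2
    | succ m ih =>
      intro u v h0 h1
      have h2 := ih (u + s) (v + s) (by have := pos_SE0 s; omega) (by omega)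
      rw [ha.per, neg_eq_zero, mul_eq_zero] at h2
      exact eq_zero_of_pow_eq_zero (h2.resolve_left (sg_ne ε))
  exact key u.natAbs u v (by omega) h

theorem ew_big_SI2 {W : Type} [AddCommGroup W] [Module Ω W] (ha : Amx q ε s D e) (z : ℤ → W)
    (u c : ℤ) (S : Finset ℤ) (h : ∀ v, u - D ≤ v + c → v + c ≤ u + D → v ∈ S) :
    Ew D e z u = ∑ v ∈ S, e u (v + c) • z (v + c) := by
  refine Eq.trans (Finset.sum_subset (fun w hw => ?_) fun w _ hw => ?_)
    (Finset.sum_map S (Equiv.addRight c).toEmbedding fun w => e u w • z w)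
  · rw [Finset.mem_Icc] at hw
    exact Finset.mem_map.2 ⟨w - c, h _ (by omega) (by omega), by simp⟩
  · rw [Finset.mem_Icc, not_and_or, not_le, not_le] at hw
    rcases hw with hw | hw
    · rw [ha.sym, band_SI2 ha w u (by omega), mul_zero, zero_smul]
    · rw [band_SI2 ha u w hw, zero_smul]

theorem ew_opx_SI2 {W : Type} [AddCommGroup W] [Module Ω W] {t : ℤ → Ω} (ha : Amx q ε s D e)
    (x : ℤ → W) (u : ℤ) (S : Finset ℤ) (h : ∀ v, u - D ≤ v → v ≤ u + D → v ∈ S)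
    (h' : ∀ v, u - D ≤ v + κ → v + κ ≤ u + D → v ∈ S) :
    Ew D e (opx κ t x) u = ∑ v ∈ S, (e u v + t (v + κ) * e u (v + κ)) • x v := by
  have e1 : Ew D e (opx κ t x) u = Ew D e x u + Ew D e (fun w => t w • x (w - κ)) u := by
    simp only [Ew, opx, smul_add, Finset.sum_add_distrib]
  rw [e1, ew_big_SI2 ha x u 0 S (by simpa using h), ew_big_SI2 ha _ u κ S h',
    ← Finset.sum_add_distrib]
  refine Finset.sum_congr rfl fun v _ => ?_
  rw [add_zero, add_sub_cancel_right, smul_smul, add_smul, mul_comm]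

theorem ew_ope {W : Type} [AddCommGroup W] [Module Ω W] {t : ℤ → Ω} (ha : Amx q ε s D e)
    (ha' : Amx q ε s D (ope κ t e)) (x : ℤ → W) (u : ℤ) :
    Ew D (ope κ t e) x u =
      Ew D e (opx κ t x) u + t (u + κ) • Ew D e (opx κ t x) (u + κ) := by
  have h1 := le_abs_self κ
  have h2 := neg_abs_le κ
  have hS : ∀ v, u - D - |κ| ≤ v → v ≤ u + D + |κ| → v ∈ Icc (u - D - |κ|) (u + D + |κ|) :=
    fun v a b => Finset.mem_Icc.2 ⟨a, b⟩
  rw [ew_big_SI2 ha' x u 0 _ fun v a b => hS v (by omega) (by omega),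
    ew_opx_SI2 ha x u _ (fun v a b => hS v (by omega) (by omega))
      fun v a b => hS v (by omega) (by omega),
    ew_opx_SI2 ha x (u + κ) _ (fun v a b => hS v (by omega) (by omega))
      fun v a b => hS v (by omega) (by omega), Finset.smul_sum, ← Finset.sum_add_distrib]
  refine Finset.sum_congr rfl fun v _ => ?_
  rw [add_zero, smul_smul, ← add_smul, ope]
  congr 1
  ring

theorem eqs_op (hF : Fo k q ε B F) {α : Type} [Af Ω α] {p : α → Prop} {e : α → ℤ → ℤ → Ω} {t : α → ℤ → Ω}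
    {x : α → ℤ → n → Ω} (he : ∀ u v, Pq k p fun a => e a u v)
    (ht : ∀ u, Pq k p fun a => t a u) (hx : ∀ u, Pq k p fun a => x a u)
    (h1 : ∀ a, p a → Amx q ε s D (e a)) (h2 : ∀ a, p a → Amx q ε s D (ope κ (t a) (e a)))
    (h3 : ∀ a, p a → Pe (frq q) s (t a)) (h4 : ∀ a, p a → Pe F s (x a)) :
    Eqs k q p (fun a => ph s D B (ope κ (t a) (e a)) (x a))
      fun a => ph s D B (e a) (opx κ (t a) (x a)) := by
  have hy : ∀ u, Pq k p fun a => opx κ (t a) (x a) u := fun u =>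
    (hx u).vadd ((ht u).vsmul (hx _))
  have he' : ∀ u v, Pq k p fun a => ope κ (t a) (e a) u v := fun u v =>
    (((he u v).add ((ht _).mul (he _ _))).add ((ht _).mul (he _ _))).add
      (((ht _).mul (ht _)).mul (he _ _))
  have h5 : ∀ a, p a → Pe F s (opx κ (t a) (x a)) := fun a ha =>
    hF.sem.pe_opx (h3 a ha) (h4 a ha)
  have w := eqs_window (k := k) (q := q) (p := p) s
    (τ := fun a u => t a u * B (x a (u - κ)) (Ew D (e a) (opx κ (t a) (x a)) u))
    (fun u => (ht u).mul (hF.pq (hx _) (Pq.ev he hy u))) (fun a u ha => by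
      rw [h3 a ha, fr_apply k, show u + s - κ = u - κ + s by ring, h4 a ha,
        Ew.per hF.sem (h1 a ha) (h5 a ha), (hF.lin' _).map_neg, (hF.lin' _).map_smul, hF.frob,
        smul_eq_mul, ← mul_assoc, sg_mul_self, one_mul, mul_pow, mul_neg]) κ
  refine (eqs_two hF he' hx h2 h4).trans (Eqs.trans ?_ (eqs_two hF he hy h1 h5).symm)
  refine (Eqs.of_eq fun a ha => ?_).trans (((Eqs.refl (ψ := fun a => ∑ u ∈ Ico (0 : ℤ) s,
    B (x a u) (Ew D (e a) (opx κ (t a) (x a)) u))).add w).trans (Eqs.of_eq fun a ha => ?_))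
  · rw [← Finset.sum_add_distrib]
    refine Finset.sum_congr rfl fun u _ => ?_
    rw [ew_ope (h1 a ha) (h2 a ha), (hF.lin' _).map_add, (hF.lin' _).map_smul, smul_eq_mul,
      add_sub_cancel_right]
  · rw [← Finset.sum_add_distrib]
    refine Finset.sum_congr rfl fun u _ => ?_
    exact (((hF.lin _).map_add _ _).trans (congrArg _ ((hF.lin _).map_smul _ _))).symm

theorem Au.clr (h : Au k q G) (hF : Fo k q ε B F) (h2 : (2 : Ω) ≠ 0) (hi : Is s D R f) (ho : Opd s R f r κ) (v : ℤ)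
    (h3 : ∀ e, Q e → e r v ≠ 0)
    (h4 : ∀ e τ, Amx q ε s D e → Se ε R f e → Q e → Q (ope κ (tws q s r τ) e) ∧
      ope κ (tws q s r τ) e r v = e r v ∧
      ope κ (tws q s r τ) e (r - κ) v = e (r - κ) v + τ * e r v)
    (hp : GT k G q ε B F s D R f f fun e => Q e ∧ e (r - κ) v = 0) :
    GT k G q ε B F s D R f f Q := by
  have a1 : ∀ (E : Ecf Ω s D) (τ : Ω), Se ε R f (ee q ε E) →
      ee q ε (rse s D (ope κ (tws q s r τ) (ee q ε E))) = ope κ (tws q s r τ) (ee q ε E) :=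
    fun E τ hs => (ho.am (k := k) h2 hi (hs.ad k) hs).ee_rse k
  have a0 : ∀ (X : ZMod s → n → Ω) (τ : Ω), Pe F s (opx κ (tws q s r τ) (pext F s X)) :=
    fun X τ => hF.sem.pe_opx (pe_tw q r τ) (pe_pext F X)
  have a2 : ∀ (X : ZMod s → n → Ω) (τ : Ω),
      pext F s (rsn s (opx κ (tws q s r τ) (pext F s X))) = opx κ (tws q s r τ) (pext F s X) :=
    fun X τ => (a0 X τ).pext_res
  have b1 : ∀ u v, Pq k (fun y : (Ecf Ω s D × (ZMod s → n → Ω)) × Ω =>
      Tb q ε F s D R f f Q y.1) fun y => ee q ε y.1.1 u v := fun u v =>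
    Pq.ee (Pq.fst (Pq.fst Pq.id)) ε u v
  have b2 : ∀ u, Pq k (fun y : (Ecf Ω s D × (ZMod s → n → Ω)) × Ω =>
      Tb q ε F s D R f f Q y.1) fun y => pext F s y.1.2 u := fun u =>
    Pq.pext hF.sem.po hF.sem.po' (Pq.snd (Pq.fst Pq.id)) u
  have b3 : Pq k (fun y : (Ecf Ω s D × (ZMod s → n → Ω)) × Ω =>
      Tb q ε F s D R f f Q y.1) fun y => y.2 * (ee q ε y.1.1 r v)⁻¹ :=
    (Pq.snd Pq.id).mul ((b1 r v).inv fun y hy => h3 _ hy.2.2.2)
  have b4 : ∀ u, Pq k (fun y : (Ecf Ω s D × (ZMod s → n → Ω)) × Ω =>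
      Tb q ε F s D R f f Q y.1) fun y =>
        opx κ (tws q s r (-(y.2 * (ee q ε y.1.1 r v)⁻¹))) (pext F s y.1.2) u := fun u =>
    (b2 u).vadd ((b3.neg.tws r u).vsmul (b2 _))
  refine h.as_slice (g := fun y => ee q ε y.1 (r - κ) v)
    (a := fun y => (rse s D (ope κ (tws q s r (y.2 * (ee q ε y.1.1 r v)⁻¹)) (ee q ε y.1.1)),
      rsn s (opx κ (tws q s r (-(y.2 * (ee q ε y.1.1 r v)⁻¹))) (pext F s y.1.2))))
    (pq_te _ _) (Pq.mk (Pq.rse fun u w => (((b1 u w).add ((b3.tws r _).mul (b1 _ _))).add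
      ((b3.tws r _).mul (b1 _ _))).add (((b3.tws r _).mul (b3.tws r _)).mul (b1 _ _)))
      (Pq.rsn b4)) (fun y t hy => ?_) (fun y hy => ?_) (fun y t t' hy => ?_) (fun y t hy => ?_) ?_
    (hp.as_of_iff (fun y => ?_) fun _ _ => rfl)
  · obtain ⟨c1, c2, c3, c4⟩ := hy
    simp only [Tb, a1 _ _ c1, a2]
    exact ⟨ho.se (k := k) h2 hi (c1.ad k) c1, ho.acz (k := k) hi c2, ho.ci (k := k) hi c3,
      (h4 _ _ (c1.ad k) c1 c4).1⟩
  · simp only [zero_mul, neg_zero, tw_zero k, ope_zero, opx_zero, rse_ee, res_pext]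
  · simp only [a1 _ _ hy.1, a2, (h4 _ _ (hy.1.ad k) hy.1 hy.2.2.2).2.1, ho.ope_ope (k := k),
      ho.opx_opx (k := k), add_mul, neg_add]
  · simp only [a1 _ _ hy.1, (h4 _ _ (hy.1.ad k) hy.1 hy.2.2.2).2.2]
    rw [inv_mul_cancel_right₀ (h3 _ hy.2.2.2)]
  · refine (Eqs.of_eq fun y hy => ?_).trans ((eqs_op (κ := κ) hF b1 (fun u => b3.tws r u) b4
      (fun y hy => hy.1.ad k) (fun y hy => ho.am (k := k) h2 hi (hy.1.ad k) hy.1)
      (fun y _ => pe_tw q r _) fun y _ => a0 _ _).trans (Eqs.of_eq fun y hy => ?_))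
    · simp only [Tf, a1 _ _ hy.1, a2]
    · simp only [Tf, ho.opx_opx (k := k), neg_add_cancel, tw_zero k, opx_zero]
  · simp only [Tb, and_assoc]

/-- two intervals with the same end -/
theorem Au.tq_two (h : Au k q G) (hF : Fo k q ε B F) (h2 : (2 : Ω) ≠ 0) (hi : Is s D R f) (ho : Opd s R f r κ)
    (hf : f (r - κ) = f r) (hr : r ≤ f r)
    (h3 : GT k G q ε B F s D R (low s f r) (low s f r) fun _ => True)
    (h4 : GT k G q ε B F s D R (low s f (r - κ)) (low s f (r - κ)) fun _ => True) :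
    GT k G q ε B F s D R f f fun _ => True := by
  refine h.tq_split hF hi r (f r) (h.tq_last hF hi hr h3) (h.clr hF h2 hi ho (f r)
    (fun _ he => he) (fun e τ _ hs he => ?_) (GT.congr (fun e _ => ?_) (h.tq_opn hF r (f r)
      (h.tq_last hF hi (by have := ho.pos; omega) h4))))
  · obtain ⟨a, b⟩ := ho.two (k := k) (τ := τ) hs hf hr
    exact ⟨a ▸ he, a, b⟩
  · rw [hf, and_comm (a := e r (f r) ≠ 0)]

end Pool.Agent.CXD
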