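import Pool.Agent.P.MP_2ce3e7_ag.SI2

/-! Short intervals. -/

set_option linter.unusedSectionVars false
set_option linter.unusedVariables false

open Function Matrix

noncomputable section

namespace Pool.Agent.CXD
open Finset

variable {k Ω : Type} [Field k] [Field Ω] [Algebra k Ω] {q : ℕ} {ε : ℤˣ} {s D : ℕ} [NeZero s]
  {R : ℤ → Prop} {f f' f₁ f₂ : ℤ → ℤ} {n : Type} [Fintype n] {G : Gp Ω}
  {B : (n → Ω) → (n → Ω) → Ω} {F : Equiv.Perm (n → Ω)}
  {Q Q' : (ℤ → ℤ → Ω) → Prop} {r κ : ℤ} {e : ℤ → ℤ → Ω}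
  [Sq k q] [IsAlgClosed Ω]

omit [NeZero s] in
theorem cls_SI3 {u : ℤ} (h : (u : ZMod s) = r) : ∃ j, u = r + s * j := by
  obtain ⟨j, hj⟩ := (ZMod.intCast_eq_intCast_iff_dvd_sub _ _ _).1 h.symm
  exact ⟨j, by linarith⟩

omit [NeZero s] in
theorem le_SI3 (hi : Is s D R f) {u : ℤ} (h : (u : ZMod s) = r) : f u - u = f r - r := by
  obtain ⟨j, rfl⟩ := cls_SI3 h
  rw [hi.mulf]
  ring

theorem row_SI3 (hi : Is s D R f) (hs : Se ε R f e) (hf : f r ≤ r) {u v : ℤ}
    (h : (u : ZMod s) = r) (huv : u < v) : e u v = 0 :=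
  hs u v huv.le fun h' => by
    have := le_SI3 hi h
    have := h'.2.2.1
    omega

/-- the terms that contain the vector with index `r` -/
theorem ph_update (hF : Fo k q ε B F) (hi : Is s D R f)
    (ha : Amx q ε s D e) (hs : Se ε R f e) (h0 : 0 ≤ r) (h1 : r < s) (hf : f r ≤ r)
    (X : ZMod s → n → Ω) (hX : X r = 0) (y : n → Ω) :
    ph s D B e (pext F s (update X r y)) =
      ph s D B e (pext F s X) + (e r r * B y y +
        2 * B (∑ u ∈ Ico (r - D) r, e u r • pext F s X u) y) := by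
  have key : ∀ (v : ℤ) z, ∑ u ∈ Ico (v - D) v, e u v * B (pext F s (update X r y) u) z =
      ∑ u ∈ Ico (v - D) v, e u v * B (pext F s X u) z := fun v z =>
    sum_congr rfl fun u hu => by
      by_cases hc : (u : ZMod s) = r
      · rw [row_SI3 hi hs hf hc (mem_Ico.1 hu).2, zero_mul, zero_mul]
      · rw [pext_update_of_ne _ _ hc]
  have hr : r ∈ Ico (0 : ℤ) s := mem_Ico.2 ⟨h0, h1⟩
  have e1 : pext F s (update X r y) r = y := by rw [pext_of_mem h0 h1, update_self]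
  have e2 : pext F s X r = 0 := by rw [pext_of_mem h0 h1, hX]
  have e3 : ∀ x, B x 0 = 0 := fun x => (hF.lin' x).map_zero
  have e4 : B (∑ u ∈ Ico (r - D) r, e u r • pext F s X u) y =
      ∑ u ∈ Ico (r - D) r, e u r * B (pext F s X u) y := by
    refine (map_sum ((hF.lin y).mk' _) _ _).trans (sum_congr rfl fun u _ => ?_)
    exact (hF.lin y).map_smul _ _
  rw [ph, ph, ← add_sum_erase _ _ hr, ← add_sum_erase _ _ hr, key, e1, e2, e4]
  simp only [e3, mul_zero, sum_const_zero, add_zero, zero_add]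
  rw [add_comm]
  congr 1
  refine sum_congr rfl fun v hv => ?_
  obtain ⟨h2, h3⟩ := mem_erase.1 hv
  obtain ⟨h4, h5⟩ := mem_Ico.1 h3
  have hc : (v : ZMod s) ≠ r := fun hc =>
    h2 (by rw [← val_SE1 h4 h5, hc, val_SE1 h0 h1])
  rw [key, pext_update_of_ne _ _ hc]

theorem se_rmv (k : Type) [Field k] [Algebra k Ω] [Sq k q] (hi : Is s D R f) (ha : Amx q ε s D e)
    (hf : f r ≤ r) :
    Se ε (rmv s R r) f e ↔ Se ε R f e ∧ ∀ u, u ≤ r → e u r = 0 := by
  refine ⟨fun h => ⟨fun u v huv ho => h u v huv fun h' => ho ⟨h'.1.1, h'.2.1.1, h'.2.2⟩,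
    fun u hu => h u r hu fun h' => h'.2.1.2 rfl⟩, fun ⟨h1, h2⟩ u v huv ho => ?_⟩
  by_cases hv : (v : ZMod s) = r
  · obtain ⟨j, rfl⟩ := cls_SI3 hv
    rw [show u = u - s * j + s * j by ring, ha.zero_iff k]
    exact h2 _ (by linarith)
  · by_cases hu : (u : ZMod s) = r
    · exact row_SI3 hi h1 hf hu (lt_of_le_of_ne huv fun h => hv (h ▸ hu))
    · exact h1 u v huv fun h' => ho ⟨⟨h'.1, hu⟩, ⟨h'.2.1, hv⟩, h'.2.2⟩

theorem clq_rmv (hi : Is s D R f) (hf : f r < r) (w : ℤ) : clq (rmv s R r) f w = clq R f w := by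
  ext u
  refine ⟨fun h => ⟨h.1.1, h.2⟩, fun h => ⟨⟨h.1, fun hc => ?_⟩, h.2⟩⟩
  have := le_SI3 hi hc
  have := h.2.1
  have := h.2.2
  omega

theorem clq_low (hi : Is s D R f) (hf : f r = r) (w : ℤ) :
    clq R (low s f r) w = clq (rmv s R r) f w := by
  ext u
  simp only [clq, low, rmv, Set.mem_ofPred_eq]
  by_cases hc : (u : ZMod s) = r
  · have := le_SI3 hi hc
    rw [if_pos hc]
    exact ⟨fun h => by omega, fun h => absurd hc h.1.2⟩
  · rw [if_neg hc]
    exact ⟨fun h => ⟨⟨h.1, hc⟩, h.2⟩, fun h => ⟨h.1.1, h.2⟩⟩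

/-- an empty interval -/
theorem Az.tq_1b (h : Az k q G) (hF : Fo k q ε B F) (h2 : (2 : Ω) ≠ 0) (hi : Is s D R f) (h0 : 0 ≤ r) (h1 : r < s)
    (hR : R r) (hf : f r < r) (hp : GT k G q ε B F s D (rmv s R r) f f fun _ => True) :
    GT k G q ε B F s D R f f fun _ => True := by
  classical
  let p : Ecf Ω s D × (ZMod s → n → Ω) → Prop := fun y => Se ε R f (ee q ε y.1) ∧
    Acz (rmv s R r) (pext F s y.2) ∧ Ci Ω (rmv s R r) f (pext F s y.2)
  let γ : Ecf Ω s D × (ZMod s → n → Ω) → n → Ω := fun y =>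
    ∑ u ∈ Ico (r - D) r, ee q ε y.1 u r • pext F s y.2 u
  let A : Ecf Ω s D × (ZMod s → n → Ω) → n → Ω := fun y j => 2 * B (γ y) (Pi.single j 1)
  have hA : ∀ y z, z ⬝ᵥ A y = 2 * B (γ y) z := fun y z => by
    have := ((hF.lin' (γ y)).mk' _).pi_apply_eq_sum_univ z
    simp only [IsLinearMap.mk'_apply, smul_eq_mul] at this
    rw [this, dotProduct, mul_sum]
    refine sum_congr rfl fun j _ => ?_
    rw [show (fun i => if j = i then (1 : Ω) else 0) = Pi.single j 1 from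
      funext fun i => by simp [Pi.single_apply, eq_comm]]
    simp only [A]
    ring
  have hrr : ∀ e : ℤ → ℤ → Ω, Se ε R f e → e r r = 0 := fun e he =>
    he r r le_rfl fun h' => absurd h'.2.2.1 (not_le.2 hf)
  have hA0 : ∀ y, p y → (A y = 0 ↔ ∀ u, u ≤ r → ee q ε y.1 u r = 0) := fun y hy => by
    constructor
    · intro h3 u hu
      have h4 : γ y = 0 := hF.nd _ fun z => by
        have := hA y z
        rw [h3, dotProduct_zero] at this
        rw [hF.comm, (mul_eq_zero.1 this.symm).resolve_left h2, mul_zero]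
      by_contra h5
      have ha := hy.1.ad k
      have hm : ∀ u, u ≤ r → ee q ε y.1 u r ≠ 0 → u ∈ clq (rmv s R r) f r := fun u hu h5 => by
        rw [clq_rmv hi hf]
        exact ⟨(hy.1.of_ne ha h5).1, hu, (hy.1.of_ne ha h5).2.2.1 hu⟩
      have hlt : u < r := lt_of_le_of_ne hu fun h6 => h5 (h6 ▸ hrr _ hy.1)
      have hge : r - D ≤ u := by
        have := (hm u hu h5).2.2
        have := hi.hi u
        omega
      refine h5 (linearIndepOn_iff'.1 (hy.2.2 r)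
        ((Ico (r - D) r).filter fun u => ee q ε y.1 u r ≠ 0) (fun u => ee q ε y.1 u r)
        (fun u hu => ?_) ?_ u (mem_filter.2 ⟨mem_Ico.2 ⟨hge, hlt⟩, h5⟩))
      · obtain ⟨h6, h7⟩ := mem_filter.1 (mem_coe.1 hu)
        exact hm u (mem_Ico.1 h6).2.le h7
      · refine (sum_filter_of_ne (p := fun u => ee q ε y.1 u r ≠ 0)
          fun u _ h6 h7 => h6 ?_).trans h4
        rw [h7, zero_smul]
    · intro h3
      have h4 : γ y = 0 := sum_eq_zero fun u hu => by rw [h3 u (mem_Ico.1 hu).2.le, zero_smul]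
      funext j
      simp only [A, h4]
      rw [(hF.lin _).map_zero, mul_zero, Pi.zero_apply]
  have hγ : Pq k p γ := Pq.vsum _ fun u => (pq_te u r).vsmul (pq_tx hF u)
  have hPA : Pq k p A := Pq.pi fun j =>
    (Pq.const (2 : Ω)).mul (hF.pq hγ (Pq.single j (Pq.const 1)))
  have h3 := h.toAu.as_aff (fun _ => True) hPA (pq_tf hF) (fun _ _ _ h => absurd trivial h)
    (h.gy_tb hF hi (hi.rmv r)) (Gy.as_of_iff hp (fun y => ⟨fun ⟨hy, h4⟩ =>
      ⟨(se_rmv k hi (hy.1.ad k) hf.le).2 ⟨hy.1, (hA0 y hy).1 h4⟩, hy.2.1, hy.2.2, trivial⟩,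
      fun hy => by
        obtain ⟨h4, h5⟩ := (se_rmv k hi (hy.1.ad k) hf.le).1 hy.1
        exact ⟨⟨h4, hy.2.1, hy.2.2.1⟩, (hA0 y ⟨h4, hy.2.1, hy.2.2.1⟩).2 h5⟩⟩) fun _ _ => rfl)
  have hX : ∀ y, p y → y.2 r = 0 := fun y hy =>
    (pext_of_mem h0 h1).symm.trans (hy.2.1 r fun h' => h'.2 rfl)
  have hci : ∀ (X : ZMod s → n → Ω) z, Ci Ω R f (pext F s (update X r z)) ↔
      Ci Ω (rmv s R r) f (pext F s X) := fun X z => forall_congr' fun w => by
    rw [← clq_rmv hi hf w]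
    exact linearIndepOn_congr fun u hu => pext_update_of_ne _ _ hu.1.2
  refine h.toAu.as_iso (fun y => (y.1.1, update y.1.2 r y.2))
    (fun x => ((x.1, update x.2 r 0), x.2 r))
    ((Pq.fst (Pq.fst Pq.id)).mk (Pq.update _ (Pq.snd (Pq.fst Pq.id)) (Pq.snd Pq.id)))
    (((Pq.fst Pq.id).mk (Pq.update _ (Pq.snd Pq.id) (Pq.pi fun _ => Pq.const 0))).mk
      ((Pq.snd Pq.id).eval _))
    (fun y hy => ?_) (fun x hx => ?_) (fun y hy => ?_) (fun x hx => ?_)
    (Eqs.of_eq fun y hy => ?_) h3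
  · refine ⟨hy.1.1, fun u hu => ?_, (hci _ _).2 hy.1.2.2, trivial⟩
    have hc : (u : ZMod s) ≠ r := fun hc => by
      obtain ⟨j, rfl⟩ := cls_SI3 hc
      exact hu ((hi.mulR r j).2 hR)
    exact (pext_update_of_ne _ _ hc).trans (hy.1.2.1 u fun h' => hu h'.1)
  · refine ⟨⟨hx.1, fun u hu => ?_, (hci _ (x.2 r)).1 ?_⟩, fun _ h => absurd trivial h⟩
    · by_cases hc : (u : ZMod s) = r
      · obtain ⟨j, rfl⟩ := cls_SI3 hc
        change pext F s (update x.2 r 0) _ = 0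
        rw [(pe_pext F _).zpow, pext_of_mem h0 h1, update_self]
        exact Equiv.Perm.zpow_apply_eq_self_of_apply_eq_self hF.sem.zero j
      · exact (pext_update_of_ne _ _ hc).trans (hx.2.1 u fun h' => hu ⟨h', hc⟩)
    · simpa only [update_idem, update_eq_self] using hx.2.2.1
  · have := hX _ hy.1
    simp only [update_idem, update_self]
    rw [← this, update_eq_self]
  · simp only [update_idem, update_eq_self]
  · rw [hA, Tf, Tf, ph_update hF hi (hy.1.1.ad k) hy.1.1 h0 h1 hf.le _ (hX _ hy.1),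
      hrr _ hy.1.1, zero_mul, zero_add]

end Pool.Agent.CXD
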