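import Pool.Agent.P.MP_2ce3e7_ag.SI4
import Pool.Agent.P.MP_2ce3e7_ag.SB0

/-! The induction on interval systems. -/

set_option linter.unusedSectionVars false
set_option linter.unusedVariables false

open Function Matrix

noncomputable section

namespace Pool.Agent.CXD
open Finset

variable {k Ω : Type} [Field k] [Field Ω] [Algebra k Ω] {q : ℕ} {ε : ℤˣ} {s D : ℕ} [NeZero s]
  {R : ℤ → Prop} {f f' f₁ f₂ : ℤ → ℤ} {n : Type} [Fintype n] {G : Gp Ω}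
  {B : (n → Ω) → (n → Ω) → Ω} {F : Equiv.Perm (n → Ω)}
  {Q Q' : (ℤ → ℤ → Ω) → Prop} {r κ : ℤ} {e : ℤ → ℤ → Ω}
  [Sq k q] [IsAlgClosed Ω]

open Classical in
/-- the total length -/
def len (s : ℕ) (R : ℤ → Prop) (f : ℤ → ℤ) : ℕ :=
  ∑ u ∈ Ico (0 : ℤ) s, if R u then (f u - u + 2).toNat else 0

theorem shift_SI5 (s : ℕ) [NeZero s] (r : ℤ) :
    ∃ r₀ j : ℤ, 0 ≤ r₀ ∧ r₀ < s ∧ r = r₀ + s * j :=
  ⟨r % s, r / s, Int.emod_nonneg r (pos_SE0 s).ne', Int.emod_lt_of_pos r (pos_SE0 s),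
    (Int.emod_add_mul_ediv r s).symm⟩

theorem cast_SI5 (s : ℕ) (u j : ℤ) : ((u + s * j : ℤ) : ZMod s) = u := by
  push_cast
  simp

theorem len_low (hi : Is s D R f) (hR : R r) (hr : r ≤ f r) : len s R (low s f r) < len s R f := by
  obtain ⟨r₀, j, h0, h1, rfl⟩ := shift_SI5 s r
  rw [hi.mulR] at hR
  unfold len
  refine Finset.sum_lt_sum (fun u _ => ?_) ⟨r₀, Finset.mem_Ico.2 ⟨h0, h1⟩, ?_⟩
  · split_ifs
    · have := low_le (s := s) f (r₀ + s * j) u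
      omega
    · exact le_rfl
  · have h2 := hi.lo r₀
    have h3 : low s f (r₀ + s * j) r₀ = f r₀ - 1 := by
      unfold low
      rw [if_pos (cast_SI5 s r₀ j).symm]
    rw [if_pos hR, if_pos hR, h3]
    omega

theorem len_rmv (hi : Is s D R f) (hR : R r) : len s (rmv s R r) f < len s R f := by
  obtain ⟨r₀, j, h0, h1, rfl⟩ := shift_SI5 s r
  rw [hi.mulR] at hR
  unfold len
  refine Finset.sum_lt_sum (fun u _ => ?_) ⟨r₀, Finset.mem_Ico.2 ⟨h0, h1⟩, ?_⟩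
  · by_cases h : rmv s R (r₀ + s * j) u
    · rw [if_pos h, if_pos h.1]
    · rw [if_neg h]
      exact Nat.zero_le _
  · have h2 := hi.lo r₀
    have h3 : ¬rmv s R (r₀ + s * j) r₀ := fun h => h.2 (cast_SI5 s r₀ j).symm
    rw [if_neg h3, if_pos hR]
    omega

theorem opd_SI5 (hi : Is s D R f) {u v : ℤ} (hu : R u) (hv : R v) (huv : u < v) (hf : f u = f v)
    (hle : v ≤ f v) : ∃ r κ, Opd s R f r κ ∧ f (r - κ) = f r ∧ r ≤ f r := by
  obtain ⟨r, j, h0, h1, rfl⟩ := shift_SI5 s v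
  obtain ⟨w, rfl⟩ : ∃ w, u = w + s * j := ⟨u - s * j, by ring⟩
  rw [hi.mulR] at hu hv
  rw [hi.mulf] at hle
  rw [hi.mulf, hi.mulf] at hf
  have hf' : f w = f r := by linarith
  have e : r - (r - w) = w := by ring
  refine ⟨r, r - w, ⟨h0, h1, by linarith, ?_, hv, by rwa [e], by rw [e, hf']⟩, by rw [e, hf'],
    by linarith⟩
  rw [e]
  intro hc
  obtain ⟨i, hi'⟩ := (ZMod.intCast_eq_intCast_iff_dvd_sub w r s).1 hc
  have h2 := hi.mulf w i
  rw [show w + s * i = r by linarith] at h2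
  linarith

theorem Is.cases (hi : Is s D R f) : (∀ u, ¬R u) ∨ (∃ r : ℤ, 0 ≤ r ∧ r < s ∧ R r ∧ f r < r) ∨
    (∃ r, R r ∧ r ≤ f r ∧ ¬R (f r)) ∨ (∃ r : ℤ, 0 ≤ r ∧ r < s ∧ R r ∧ f r = r) ∨
    (∃ r κ, Opd s R f r κ ∧ f (r - κ) = f r ∧ r ≤ f r) ∨ ((∃ u, R u) ∧ ∃ g, C3 s D R f g) := by
  by_cases h1 : ∃ u, R u
  swap
  · exact .inl fun u hu => h1 ⟨u, hu⟩
  right
  by_cases h2 : ∃ r, R r ∧ f r < r
  · obtain ⟨r, hR, hr⟩ := h2
    obtain ⟨r₀, j, h0, h1, rfl⟩ := shift_SI5 s r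
    rw [hi.mulR] at hR
    rw [hi.mulf] at hr
    exact .inl ⟨r₀, h0, h1, hR, by linarith⟩
  right
  by_cases h3 : ∃ r, R r ∧ r ≤ f r ∧ ¬R (f r)
  · exact .inl h3
  right
  by_cases h4 : ∃ r, R r ∧ f r = r
  · obtain ⟨r, hR, hr⟩ := h4
    obtain ⟨r₀, j, h0, h1, rfl⟩ := shift_SI5 s r
    rw [hi.mulR] at hR
    rw [hi.mulf] at hr
    exact .inl ⟨r₀, h0, h1, hR, by linarith⟩
  right
  have h5 : ∀ u, R u → u < f u ∧ R (f u) := by
    intro u hu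
    have a1 : u ≤ f u := not_lt.1 fun h => h2 ⟨u, hu, h⟩
    refine ⟨lt_of_le_of_ne a1 fun h => h4 ⟨u, hu, h.symm⟩, ?_⟩
    by_contra h
    exact h3 ⟨u, hu, a1, h⟩
  by_cases h6 : ∀ u v, R u → R v → f u = f v → u = v
  · exact .inr ⟨h1, hi.exists_c3 h5 h6⟩
  left
  simp only [not_forall] at h6
  obtain ⟨u, v, hu, hv, hf, hne⟩ := h6
  rcases lt_or_gt_of_ne hne with h | h
  · exact opd_SI5 hi hu hv h hf (h5 v hv).1.le
  · exact opd_SI5 hi hv hu h hf.symm (h5 u hu).1.le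

theorem clq_low_SI5 (hi : Is s D R f) {m : ℕ} (hc : ∀ w, (clq R f w).ncard ≤ m) (r w : ℤ) :
    (clq R (low s f r) w).ncard ≤ m :=
  (Set.ncard_le_ncard (show clq R (low s f r) w ⊆ clq R f w from
    fun u hu => ⟨hu.1, hu.2.1, hu.2.2.trans (low_le f r u)⟩) (hi.fin w)).trans (hc w)

theorem clq_rmv_SI5 (hi : Is s D R f) {m : ℕ} (hc : ∀ w, (clq R f w).ncard ≤ m) (r w : ℤ) :
    (clq (rmv s R r) f w).ncard ≤ m :=
  (Set.ncard_le_ncard (show clq (rmv s R r) f w ⊆ clq R f w from fun u hu => ⟨hu.1.1, hu.2⟩)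
    (hi.fin w)).trans (hc w)

theorem gt_ind (hF : Fo k q ε B F) (h2 : (2 : Ω) ≠ 0) (m : ℕ)
    (h1 : ∀ R f (r : ℤ), Is s D R f → 0 ≤ r → r < s → R r → f r = r →
      (∀ G, Az k q G → GT k G q ε B F s D (rmv s R r) f f fun _ => True) → ∀ G, Az k q G →
      GT k G q ε B F s D R f (low s f r) fun e => e r r ≠ 0 ∧ ∀ u, u < r → e u r = 0)
    (h3 : ∀ R f g, C3 s D R f g → (bd D R f (-1)).card < m → ∀ G, Az k q G →
      GT k G q ε B F s D R f (fun u => u - 1) (Piv R f))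
    (hi : Is s D R f) (hc : ∀ w, (clq R f w).ncard ≤ m) (h : Az k q G) :
    GT k G q ε B F s D R f f fun _ => True := by
  induction hl : len s R f using Nat.strong_induction_on generalizing R f G with
  | _ l ih =>
    subst hl
    have il : ∀ r, R r → r ≤ f r → ∀ G, Az k q G →
        GT k G q ε B F s D R (low s f r) (low s f r) fun _ => True := fun r hR hr G hG =>
      ih _ (len_low hi hR hr) (hi.low hr) (clq_low_SI5 hi hc r) hG rfl
    have ir : ∀ r, R r → ∀ G, Az k q G →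
        GT k G q ε B F s D (rmv s R r) f f fun _ => True := fun r hR G hG =>
      ih _ (len_rmv hi hR) (hi.rmv r) (clq_rmv_SI5 hi hc r) hG rfl
    rcases hi.cases with h0 | ⟨r, r0, r1, hR, hf⟩ | ⟨r, hR, hr, h0⟩ | ⟨r, r0, r1, hR, hf⟩ |
      ⟨r, κ, ho, hf, hr⟩ | ⟨⟨u, hu⟩, g, hg⟩
    · exact h.tq_empty hF hi h0
    · exact h.tq_1b hF h2 hi r0 r1 hR hf (ir r hR G h)
    · exact h.toAu.tq_zero hF hi hr h0 (il r hR hr G h)
    · exact h.toAu.tq_1a hF h2 hi r0 r1 hR hf (il r hR hf.ge G h)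
        (h1 R f r hi r0 r1 hR hf (ir r hR) G h)
    · exact h.toAu.tq_two hF h2 hi ho hf hr (il r ho.Rr hr G h)
        (il (r - κ) ho.Ru (by linarith [ho.pos]) G h)
    · refine h.toAu.tq_piv hF hi (fun v hv => (hg.lt v hv).le)
        (fun r hR => il r hR (hg.lt r hR).le G h) (h3 R f g hg ?_ G h)
      have := hc u
      rw [hg.ncard_clq hu] at this
      omega

end Pool.Agent.CXD
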