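import Pool.Agent.P.MP_2ce3e7_ag.SE2
import Pool.Agent.P.MP_2ce3e7_ag.SW1

/-! The odd standard space. -/

set_option linter.unusedSectionVars false
set_option linter.unusedVariables false

open Function Matrix

noncomputable section

namespace Pool.Agent.CXD
variable {k Ω : Type} [Field k] [Field Ω] [Algebra k Ω] {ι : Type} [Fintype ι]

/-- the standard symmetric form in odd dimension -/
def Bod (δ : Ω) (x y : (ι ⊕ ι) ⊕ Unit → Ω) : Ω :=
  Bf 1 (fun j => x (.inl j)) (fun j => y (.inl j)) + δ * (x (.inr ()) * y (.inr ()))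

/-- the signed power map on all coordinates -/
def frv (q : ℕ) (σ : ℤˣ) (ι : Type) : Equiv.Perm (ι → Ω) := Equiv.piCongrRight fun _ => frz q σ

/-- the twisted Frobenius map in odd dimension -/
def FO (q : ℕ) (b : ι → Bool) (τ : ℤˣ) : Equiv.Perm ((ι ⊕ ι) ⊕ Unit → Ω) :=
  ((Equiv.sumArrowEquivProdArrow _ _ Ω).trans ((FV q 1 b).prodCongr (frv q τ Unit))).trans
    (Equiv.sumArrowEquivProdArrow _ _ Ω).symm

/-- a permutation followed by a sign -/
def sF {n : Type} (σ : ℤˣ) (F : Equiv.Perm (n → Ω)) : Equiv.Perm (n → Ω) :=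
  F.trans (MulAction.toPerm σ)

/-- the split symplectic Frobenius map -/
abbrev FH (q : ℕ) (ι : Type) : Equiv.Perm (ι ⊕ ι → Ω) := FV q (-1) fun _ => false

variable {q : ℕ} [Sq k q] [IsAlgClosed Ω] {δ : Ω} {b : ι → Bool} {τ σ ε : ℤˣ}

theorem sF_apply {n : Type} (σ : ℤˣ) (F : Equiv.Perm (n → Ω)) (x : n → Ω) :
    sF σ F x = (sg σ : Ω) • F x := by
  rw [sg, Int.cast_smul_eq_zsmul]
  rfl

theorem frv_apply (k : Type) [Field k] [Algebra k Ω] [Sq k q] {ι : Type} (x : ι → Ω) (i : ι) :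
    frv q σ ι x i = sg σ * x i ^ q := frs_apply k σ (x i)

theorem FO_inl (x : (ι ⊕ ι) ⊕ Unit → Ω) :
    (fun j => FO q b τ x (.inl j)) = FV q 1 b fun j => x (.inl j) := rfl

theorem FO_inr (x : (ι ⊕ ι) ⊕ Unit → Ω) : FO q b τ x (.inr ()) = frz q τ (x (.inr ())) := rfl

theorem FO_FO (k : Type) [Field k] [Algebra k Ω] [Sq k q] (x : (ι ⊕ ι) ⊕ Unit → Ω) :
    FO q b τ (FO q b τ x) = fun j => x j ^ q ^ 2 := by
  funext j
  rcases j with j | ⟨⟩
  · exact congrFun (FV_FV 1 b (fun j => x (.inl j)) k) j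
  · rw [FO_inr, FO_inr, frs_apply k, frs_apply k, mul_pow, sg_pow k, ← mul_assoc, sg_mul_self,
      one_mul, ← pow_mul, sq]

theorem sem_frv (σ : ℤˣ) : Sem k q (frv q σ ι : Equiv.Perm (ι → Ω)) :=
  ⟨fun x y => funext fun i => (sem_frs (k := k) σ).add (x i) (y i),
    fun t x => funext fun i => (sem_frs (k := k) σ).smul t (x i),
    Pq.pi fun i => (po_frs σ).comp (Pq.apply i), Pq.pi fun i => (po_frs_symm σ).comp (Pq.apply i)⟩

theorem Sem.sF {n : Type} [Fintype n] {F : Equiv.Perm (n → Ω)} (h : Sem k q F) (σ : ℤˣ) :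
    Sem k q (sF σ F) := by
  have hs : Pq k (fun _ => True) fun x : n → Ω => (sg σ : Ω) • x :=
    Pq.pi fun i => (Pq.const (sg σ)).mul (Pq.apply i)
  refine ⟨fun x y => ?_, fun t x => ?_, (hs.comp h.po).congr fun x _ => sF_apply σ F x,
    (h.po'.comp hs).congr fun x _ => (Equiv.symm_apply_eq _).2 ?_⟩
  · rw [sF_apply, sF_apply, sF_apply, h.add, smul_add]
  · rw [sF_apply, sF_apply, h.smul, smul_comm]
  · rw [sF_apply, Equiv.apply_symm_apply, smul_smul, sg_mul_self, one_smul]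

theorem kr_of_pow (h : δ ^ q = δ) : Kr k δ :=
  ((Sq.su : Su k q).kr_iff δ).2 (by rw [sq, pow_mul, h, h])

theorem sem_FO_SO0 (b : ι → Bool) (τ : ℤˣ) :
    Sem k q (FO q b τ : Equiv.Perm ((ι ⊕ ι) ⊕ Unit → Ω)) := by
  have hp : Pq k (fun _ => True) fun (x : (ι ⊕ ι) ⊕ Unit → Ω) j => x (.inl j) :=
    Pq.pi fun j => Pq.apply _
  refine ⟨fun x y => funext fun j => ?_, fun t x => funext fun j => ?_,
    Pq.pi fun j => ?_, Pq.pi fun j => ?_⟩
  · rcases j with j | ⟨⟩
    · exact congrFun ((sem_FV (k := k) 1 b).add (fun j => x (.inl j)) fun j => y (.inl j)) j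
    · exact (sem_frs (k := k) τ).add (x (.inr ())) (y (.inr ()))
  · rcases j with j | ⟨⟩
    · exact congrFun ((sem_FV (k := k) 1 b).smul t fun j => x (.inl j)) j
    · exact (sem_frs (k := k) τ).smul t (x (.inr ()))
  · rcases j with j | ⟨⟩
    · exact ((sem_FV (k := k) 1 b).po.comp hp).eval j
    · exact (po_frs τ).comp (Pq.apply (Sum.inr ()))
  · rcases j with j | ⟨⟩
    · exact ((sem_FV (k := k) 1 b).po'.comp hp).eval j
    · exact (po_frs_symm τ).comp (Pq.apply (Sum.inr ()))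

theorem fd_bo (h : δ ^ q = δ) (h0 : δ ≠ 0) (b : ι → Bool) (τ : ℤˣ) :
    Fo k q 1 (Bod δ) (FO q b τ) := by
  have := kr_of_pow (k := k) h
  refine ⟨sem_FO_SO0 b τ, fun y => ⟨fun x x' => ?_, fun t x => ?_⟩,
    fun x => ⟨fun y y' => ?_, fun t y => ?_⟩, fun x y => ?_, fun x y => ?_, ?_, fun x hx => ?_⟩
  · have e := Bf_add_left 1 (fun j => x (.inl j)) (fun j => x' (.inl j)) fun j => y (.inl j)
    simp only [Bod, Pi.add_apply]
    linear_combination e
  · have e := Bf_smul_left 1 (fun j => x (.inl j)) (fun j => y (.inl j)) t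
    simp only [Bod, Pi.smul_apply, smul_eq_mul]
    linear_combination e
  · have e := Bf_add_right 1 (fun j => x (.inl j)) (fun j => y (.inl j)) fun j => y' (.inl j)
    simp only [Bod, Pi.add_apply]
    linear_combination e
  · have e := Bf_smul_right 1 (fun j => x (.inl j)) (fun j => y (.inl j)) t
    simp only [Bod, Pi.smul_apply, smul_eq_mul]
    linear_combination e
  · rw [Bod, Bod, Bf_comm, sg_one]
    ring
  · have e := sg_mul_self (Ω := Ω) τ
    rw [Bod, Bod, FO_inl, FO_inl, FO_inr, FO_inr, Bf_FV 1 b _ _ k, frs_apply k, frs_apply k,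
      sg_one, (Sq.su : Su k q).add_pow, mul_pow, mul_pow, h]
    linear_combination δ * x (.inr ()) ^ q * y (.inr ()) ^ q * e
  · exact (Pq.bf 1 (Pq.pi fun j => (Pq.fst Pq.id).eval _) (Pq.pi fun j => (Pq.snd Pq.id).eval _)).add
      ((Pq.const δ).mul (((Pq.fst Pq.id).eval _).mul ((Pq.snd Pq.id).eval _)))
  · have e1 : (fun j => x (.inl j)) = 0 := Bf_nondeg 1 _ fun y => by
      simpa [Bod] using hx (Sum.elim y 0)
    have e2 := hx (Sum.elim 0 1)
    rw [Bod, e1, Bf_zero_right, zero_add] at e2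
    funext j
    rcases j with j | ⟨⟩
    · exact congrFun e1 j
    · simpa [h0] using e2

theorem Fo.card_le {n κ : Type} [Fintype n] {B : (n → Ω) → (n → Ω) → Ω} {F : Equiv.Perm (n → Ω)}
    (hF : Fo k q ε B F) {x : κ → n → Ω} {A : Set κ} (h : LinearIndepOn Ω x A)
    (h1 : ∀ a ∈ A, ∀ a' ∈ A, B (x a) (x a') = 0) : 2 * A.ncard ≤ Fintype.card n := by
  have hf : Finite A := LinearIndependent.finite_of_isNoetherian h
  have := Fintype.ofFinite A
  let B' : LinearMap.BilinForm Ω (n → Ω) := LinearMap.mk₂ Ω B (fun x x' y => (hF.lin y).map_add x x')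
    (fun t x y => (hF.lin y).map_smul t x) (fun x => (hF.lin' x).map_add)
    fun t x y => (hF.lin' x).map_smul t y
  have hk : LinearMap.ker B' = ⊥ := LinearMap.ker_eq_bot'.2 fun y hy => hF.nd y fun w => by
    rw [hF.comm, show B y w = 0 from LinearMap.congr_fun hy w, mul_zero]
  have h2 := B'.finrank_add_finrank_orthogonal' (Submodule.span Ω (Set.range fun a : A => x a))
  have h3 : Submodule.span Ω (Set.range fun a : A => x a) ≤
      B'.orthogonal (Submodule.span Ω (Set.range fun a : A => x a)) := by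
    refine Submodule.span_le.2 ?_
    rintro _ ⟨a, rfl⟩ y hy
    have h4 : Submodule.span Ω (Set.range fun a : A => x a) ≤ LinearMap.ker (B'.flip (x a)) := by
      refine Submodule.span_le.2 ?_
      rintro _ ⟨a', rfl⟩
      exact h1 _ a'.2 _ a.2
    exact h4 hy
  have h5 := Submodule.finrank_mono h3
  rw [hk, inf_bot_eq, finrank_bot, Module.finrank_fintype_fun_eq_card] at h2
  rw [finrank_span_eq_card h] at h2 h5
  rw [← Nat.card_coe_set_eq, Nat.card_eq_fintype_card]
  omega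

/-- a matrix acting plane by plane -/
def blk_SO0 [DecidableEq ι] (a b c d : ι → Ω) : Matrix (ι ⊕ ι) (ι ⊕ ι) Ω :=
  fromBlocks (diagonal a) (diagonal b) (diagonal c) (diagonal d)

theorem blk_inl_SO0 [DecidableEq ι] (a b c d : ι → Ω) (x : ι ⊕ ι → Ω) (i : ι) :
    (blk_SO0 a b c d *ᵥ x) (.inl i) = a i * x (.inl i) + b i * x (.inr i) := by
  simp [blk_SO0, fromBlocks_mulVec, mulVec_diagonal]

theorem blk_inr_SO0 [DecidableEq ι] (a b c d : ι → Ω) (x : ι ⊕ ι → Ω) (i : ι) :
    (blk_SO0 a b c d *ᵥ x) (.inr i) = c i * x (.inl i) + d i * x (.inr i) := by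
  simp [blk_SO0, fromBlocks_mulVec, mulVec_diagonal]

theorem kr_blk_SO0 [DecidableEq ι] {a b c d : ι → Ω} (ha : ∀ i, Kr k (a i)) (hb : ∀ i, Kr k (b i))
    (hc : ∀ i, Kr k (c i)) (hd : ∀ i, Kr k (d i)) : Kr k (blk_SO0 a b c d) := by
  have key : ∀ v : ι → Ω, (∀ i, Kr k (v i)) → ∀ i j, Kr k (diagonal v i j) := fun v hv i j => by
    rw [diagonal_apply]
    split_ifs
    exacts [hv i, inferInstance]
  refine kr_pi fun i => kr_pi fun j => ?_
  rcases i with i | i <;> rcases j with j | j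
  exacts [key a ha i j, key b hb i j, key c hc i j, key d hd i j]

/-- every symplectic model is split -/
theorem exists_spl (k : Type) [Field k] [Algebra k Ω] [Sq k q] (h2 : (2 : Ω) ≠ 0) [DecidableEq ι]
    (b : ι → Bool) : ∃ m m' : Matrix (ι ⊕ ι) (ι ⊕ ι) Ω, Kr k m ∧ Kr k m' ∧ m * m' = 1 ∧
      (∀ x y, Bf (-1) (m *ᵥ x) (m *ᵥ y) = Bf (-1) x y) ∧
      ∀ x, FV q (-1) b (m *ᵥ x) = m *ᵥ FH q ι x := by
  have hq : Su k q := Sq.su
  have e2 : (2⁻¹ : Ω) * 2 = 1 := inv_mul_cancel₀ h2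
  have e3 : (2⁻¹ : Ω) ^ q = 2⁻¹ := by rw [inv_pow, two_pow_eq k]
  have k1 : Kr k (-2⁻¹ : Ω) := kr_of_pow (by rw [hq.neg_pow, e3])
  have k2 : Kr k (-1 : Ω) := kr_of_pow (by rw [hq.neg_pow, one_pow])
  have ki : ∀ u v : Ω, Kr k u → Kr k v → ∀ i, Kr k (if b i then u else v) := fun u v hu hv i => by
    split_ifs
    exacts [hu, hv]
  refine ⟨blk_SO0 (fun _ => 1) (fun i => if b i then -2⁻¹ else 0) (fun i => if b i then 1 else 0)
      fun i => if b i then 2⁻¹ else 1,
    blk_SO0 (fun i => if b i then 2⁻¹ else 1) (fun i => if b i then 2⁻¹ else 0)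
      (fun i => if b i then -1 else 0) fun _ => 1,
    kr_blk_SO0 (fun _ => inferInstance) (ki _ _ k1 inferInstance)
      (ki _ _ inferInstance inferInstance) (ki _ _ inferInstance inferInstance),
    kr_blk_SO0 (ki _ _ inferInstance inferInstance) (ki _ _ inferInstance inferInstance)
      (ki _ _ k2 inferInstance) fun _ => inferInstance, ?_, fun x y => ?_, fun x => ?_⟩
  · refine Matrix.ext_of_mulVec_single fun j => ?_
    rw [← mulVec_mulVec, one_mulVec]
    generalize (Pi.single j 1 : ι ⊕ ι → Ω) = x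
    funext i
    rcases i with i | i
    · rw [blk_inl_SO0, blk_inl_SO0, blk_inr_SO0]
      cases b i
      · simp
      · simp only [if_true]
        linear_combination x (.inl i) * e2
    · rw [blk_inr_SO0, blk_inl_SO0, blk_inr_SO0]
      cases b i
      · simp
      · simp only [if_true]
        linear_combination x (.inr i) * e2
  · refine Finset.sum_congr rfl fun i _ => ?_
    rw [blk_inl_SO0, blk_inl_SO0, blk_inr_SO0, blk_inr_SO0, sg_neg, sg_one]
    cases b i
    · simp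
    · simp only [if_true]
      linear_combination (x (.inl i) * y (.inr i) - x (.inr i) * y (.inl i)) * e2
  · funext i
    rcases i with i | i
    · rw [FV_inl _ _ _ k, blk_inl_SO0, blk_inl_SO0, blk_inr_SO0, FV_inl _ _ _ k, FV_inr _ _ _ k,
        sg_neg, sg_one]
      cases b i
      · simp
      · simp only [if_true, Bool.false_eq_true, if_false, hq.add_pow, mul_pow, e3, one_pow]
        ring
    · rw [FV_inr _ _ _ k, blk_inl_SO0, blk_inr_SO0, blk_inr_SO0, FV_inl _ _ _ k, FV_inr _ _ _ k,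
        sg_neg, sg_one]
      cases b i
      · simp
      · simp only [if_true, Bool.false_eq_true, if_false, hq.add_pow, mul_pow, hq.neg_pow, e3,
          one_pow]
        ring

end Pool.Agent.CXD
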