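import Pool.Agent.P.MP_2ce3e7_ag.SO0
import Pool.Agent.P.MP_2ce3e7_ag.SI4

/-! Decorated Artin-Schreier varieties. -/

set_option linter.unusedSectionVars false
set_option linter.unusedVariables false

open Function Matrix

noncomputable section

namespace Pool.Agent.CXD
open Finset

variable {k Ω : Type} [Field k] [Field Ω] [Algebra k Ω] {q : ℕ} {ε σ τ : ℤˣ} {s D : ℕ} [NeZero s]
  {R : ℤ → Prop} {f f' f₁ f₂ g : ℤ → ℤ} {ι n : Type} [Fintype ι] [Fintype n] {b : ι → Bool}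
  {G : Gp Ω} {B : (n → Ω) → (n → Ω) → Ω} {F : Equiv.Perm (n → Ω)} {Q Q' : (ℤ → ℤ → Ω) → Prop}
  {r θ : ℤ} {e : ℤ → ℤ → Ω} {κ δ : Ω} {α β : Type} [Af Ω α] [Af Ω β] [IsAlgClosed Ω] [Sq k q]

theorem Au.as_chain (h : Au k q G) {p : α → Prop} {ψ : α → Ω} (c : Lc k p) (hψ : Pq k p ψ)
    {T : Type} [Fintype T] [DecidableEq T] {f : T → α → Ω} (hf : ∀ i, Pq k p (f i))
    (𝓕 : Set (Finset T)) (h1 : ∀ E ∈ 𝓕, E.Nonempty → ∃ i ∈ E, E.erase i ∈ 𝓕)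
    (h2 : ∀ E ∈ 𝓕, Gy k G fun x => p x ∧ ∀ i ∈ E, f i x = 0) {E : Finset T} (hE : E ∈ 𝓕)
    (hp : Gy k G (AS q (fun y : α × (T → Ω) => p y.1 ∧ ∀ i, i ∉ E → y.2 i = 0)
      fun y => ψ y.1 + ∑ i, y.2 i * f i y.1)) :
    Gy k G (AS q (fun x => p x ∧ ∀ i ∈ E, f i x = 0) ψ) := by
  have key : ∀ (m : ℕ), ∀ E ∈ 𝓕, E.card = m →
      ∀ (γ : Type) [Af Ω γ] (g : α × γ → Ω), Pq k (fun y : α × γ => p y.1) g →
        (Gy k G fun y : (α × γ) × (T → Ω) =>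
          p y.1.1 ∧ (∀ a, a ∉ E → y.2 a = 0) ∧ ∑ a, y.2 a * f a y.1.1 + g y.1 = 0) →
        Gy k G fun y : α × γ => (p y.1 ∧ ∀ e ∈ E, f e y.1 = 0) ∧ g y = 0 := by
    intro m
    induction m with
    | zero =>
      intro E _ hE γ _ g hg h3
      obtain rfl := Finset.card_eq_zero.1 hE
      refine h.giso (fun w : (α × γ) × (T → Ω) => w.1) (fun y : α × γ => (y, fun _ => 0))
        (by fun_prop) (by fun_prop) ?_ ?_ ?_ (fun _ _ => rfl) h3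
      · rintro ⟨y, v⟩ ⟨a1, a2, a3⟩
        have a4 : ∀ a, v a = 0 := fun a => a2 a (Finset.notMem_empty a)
        exact ⟨⟨a1, by simp⟩, by simpa [a4] using a3⟩
      · rintro y ⟨a1, a2⟩
        exact ⟨a1.1, fun _ _ => rfl, by simpa using a2⟩
      · rintro ⟨y, v⟩ ⟨a1, a2, a3⟩
        exact Prod.ext rfl (funext fun a => (a2 a (Finset.notMem_empty a)).symm)
    | succ m ih =>
      intro E hE hn γ _ g hg h3
      obtain ⟨e, he, hE'⟩ := h1 E hE (Finset.card_pos.1 (by omega))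
      have i1 := h2 _ hE'
      have i2 := ih _ hE' (by rw [Finset.card_erase_of_mem he, hn]; rfl)
      have hfe := hf e
      have e1 : ∀ x, (p x ∧ ∀ a ∈ E, f a x = 0) ↔
          (p x ∧ ∀ a ∈ E.erase e, f a x = 0) ∧ f e x = 0 := fun x =>
        ⟨fun hx => ⟨⟨hx.1, fun a ha => hx.2 a (Finset.mem_of_mem_erase ha)⟩, hx.2 e he⟩,
          fun hx => ⟨hx.1.1, fun a ha => by
            by_cases e2 : a = e
            · rw [e2, hx.2]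
            · exact hx.1.2 a (Finset.mem_erase.2 ⟨e2, ha⟩)⟩⟩
      have i3 : Gy k G fun y : α × γ × Ω => (p y.1 ∧ ∀ a ∈ E.erase e, f a y.1 = 0) ∧
          y.2.2 * f e y.1 + g (y.1, y.2.1) = 0 :=
        i2 (γ × Ω) (fun y => y.2.2 * f e y.1 + g (y.1, y.2.1))
          (((Pq.snd (Pq.snd Pq.id)).mul (hfe.pull (Pq.fst Pq.id) fun _ h => h)).add
            (hg.pull ((Pq.fst Pq.id).mk (Pq.fst (Pq.snd Pq.id))) fun _ h => h))
          (move_SA4 h he h3)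
      refine (h.gblow (p := fun y : α × γ => p y.1 ∧ ∀ a ∈ E.erase e, f a y.1 = 0)
        (s := fun y => f e y.1) (g := g) (h.gline γ i1).lc
        (hfe.pull (Pq.fst Pq.id) fun _ h => h.1) (hg.mono fun _ h => h.1) ?_
        ((h.gline γ (h2 E hE)).congr fun y => (e1 y.1).symm)).congr fun y => by rw [e1, and_assoc]
      exact h.giso (fun y : α × γ × Ω => ((y.1, y.2.1), y.2.2))
        (fun y : (α × γ) × Ω => (y.1.1, y.1.2, y.2)) (by fun_prop) (by fun_prop)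
        (fun _ hy => hy) (fun _ hy => hy) (fun _ _ => rfl) (fun _ _ => rfl) i3
  refine (key _ E hE rfl Ω (fun y => ψ y.1 - (y.2 ^ q + y.2))
    ((hψ.pull (Pq.fst Pq.id) fun _ h => h).sub (by fun_prop)) ?_).congr fun y =>
      and_congr_right fun _ => ⟨fun a => sub_eq_zero.2 a.symm, fun a => (sub_eq_zero.1 a).symm⟩
  refine h.giso (fun y : (α × (T → Ω)) × Ω => ((y.1.1, y.2), y.1.2))
    (fun w : (α × Ω) × (T → Ω) => ((w.1.1, w.2), w.1.2)) (by fun_prop) (by fun_prop)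
    (fun y hy => ⟨hy.1.1, hy.1.2, ?_⟩) (fun w hw => ⟨⟨hw.1, hw.2.1⟩, ?_⟩)
    (fun _ _ => rfl) (fun _ _ => rfl) hp
  · have := hy.2
    dsimp only at this ⊢
    linear_combination -this
  · have := hw.2.2
    dsimp only at this ⊢
    linear_combination -this

theorem Az.as_sq (h : Az k q G) (h2 : (2 : Ω) ≠ 0) (hδ : δ ^ q = δ) (h0 : δ ≠ 0) :
    Gy k G (AS q (fun y : Ω × Ω => y.1 ≠ 0) fun y => y.1 * (δ * (y.2 * y.2))) := by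
  have := kr_of_pow (k := k) hδ
  refine h.toAu.as_split (g := fun y => y.2) (Lr.ne (Pq.fst Pq.id) (Pq.const 0)) (by fun_prop)
    (by fun_prop) ?_ ?_
  · have g0 := (h.toAu.ggraph (g := fun _ : Ω => (0 : Ω)) (Pq.const 0)).2
      (h.toAu.gopn (g := fun x : Ω => x) Pq.id (h.guniv Ω))
    exact Gy.as_of_iff (h.toAu.as_zero g0)
      (fun _ => ⟨fun a => ⟨⟨trivial, a.1⟩, a.2⟩, fun a => ⟨a.1.2, a.2⟩⟩)
      fun y a => by rw [a.2, mul_zero, mul_zero, mul_zero]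
  · have g1 := h.toAu.gopn (g := fun y : Ω × Ω => y.2 ^ q + y.2) (by fun_prop)
      (h.toAu.gopn (g := fun y : Ω × Ω => y.1) (by fun_prop) (h.guniv (Ω × Ω)))
    have e : ∀ t : Ω, t ≠ 0 → δ * (t * t) ≠ 0 := fun t a => mul_ne_zero h0 (mul_ne_zero a a)
    refine h.toAu.giso
      (fun y : Ω × Ω => (((y.2 ^ q + y.2) * (δ * (y.1 * y.1))⁻¹, y.1), y.2))
      (fun w : (Ω × Ω) × Ω => (w.1.2, w.2))
      (((Pq.mul (by fun_prop) (Pq.inv (g := fun y : Ω × Ω => δ * (y.1 * y.1)) (by fun_prop)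
        fun y a => e _ a.1.2)).mk (Pq.fst Pq.id)).mk (Pq.snd Pq.id))
      (by fun_prop) ?_ ?_ (fun _ _ => rfl) ?_ g1
    · rintro ⟨t, u⟩ ⟨⟨-, a⟩, c⟩
      exact ⟨⟨mul_ne_zero c (inv_ne_zero (e t a)), a⟩, (inv_mul_cancel_right₀ (e t a) _).symm⟩
    · rintro ⟨⟨ρ, t⟩, u⟩ ⟨⟨a, c⟩, d⟩
      exact ⟨⟨trivial, c⟩, fun z => mul_ne_zero a (e t c) (d.symm.trans z)⟩
    · rintro ⟨⟨ρ, t⟩, u⟩ ⟨⟨a, c⟩, d⟩
      refine Prod.ext (Prod.ext ?_ rfl) rfl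
      exact (congrArg (· * (δ * (t * t))⁻¹) d).trans (mul_inv_cancel_right₀ (e t c) ρ)

theorem odd_SO1 (h : Az k q G) (h2 : (2 : Ω) ≠ 0) (hδ : δ ^ q = δ) (hδ0 : δ ≠ 0)
    {p : α → Prop} {φ : α → Ω} (hφ : Pq k p φ) (g0 : Gy k G p) (hp : Gy k G (AS q p φ)) :
    Gy k G (AS q (fun y : α × Ω × ((ι ⊕ ι) ⊕ Unit → Ω) => p y.1 ∧ y.2.1 ≠ 0)
      fun y => φ y.1 + y.2.1 * Bod δ y.2.2 y.2.2) := by
  have := kr_of_pow (k := k) hδ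
  have g1 : Gy k G fun y : (α × Ω × Ω) × (ι → Ω) => p y.1.1 ∧ y.1.2.1 ≠ 0 :=
    h.toAu.gline (p := fun y : α × Ω × Ω => p y.1 ∧ y.2.1 ≠ 0) (ι → Ω)
      (h.toAu.gopn (g := fun y : α × Ω × Ω => y.2.1) (by fun_prop) (h.toAu.gline (Ω × Ω) g0))
  have g2 : Gy k G (AS q (fun y : α × Ω × Ω => p y.1 ∧ y.2.1 ≠ 0)
      fun y => φ y.1 + y.2.1 * (δ * (y.2.2 * y.2.2))) :=
    h.as_add (p' := fun y : Ω × Ω => y.1 ≠ 0) (χ := fun y : Ω × Ω => y.1 * (δ * (y.2 * y.2)))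
      g0.lc (Lr.ne (Pq.fst Pq.id) (Pq.const 0)) hφ (by fun_prop) hp
      fun G' h' => h'.as_sq h2 hδ hδ0
  have g4 : Gy k G (AS q (fun y : (α × Ω × Ω) × (ι → Ω) => (p y.1.1 ∧ y.1.2.1 ≠ 0) ∧
      (fun i => 2 * y.1.2.1 * y.2 i) = 0)
      fun y => φ y.1.1 + y.1.2.1 * (δ * (y.1.2.2 * y.1.2.2))) :=
    h.toAu.as_iso (fun z => (z, 0)) (fun x => x.1) (by fun_prop) (by fun_prop)
      (fun z a => ⟨a, funext fun i => mul_zero _⟩) (fun x a => a.1) (fun _ _ => rfl)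
      (fun x a => Prod.ext rfl (funext fun i =>
        ((mul_eq_zero.1 (congrFun a.2 i)).resolve_left (mul_ne_zero h2 a.1.2)).symm))
      Eqs.refl g2
  have g3 := h.toAu.as_aff (fun _ : ι => True)
    (D := fun (y : (α × Ω × Ω) × (ι → Ω)) i => 2 * y.1.2.1 * y.2 i) (by fun_prop)
    ((hφ.pull (Pq.fst (Pq.fst Pq.id)) fun _ a => a.1).add (by fun_prop))
    (fun _ _ _ c => (c trivial).elim) g1 g4
  refine h.toAu.as_iso
    (fun z => (z.1.1.1, z.1.1.2.1, Sum.elim (Sum.elim z.1.2 z.2) fun _ => z.1.1.2.2))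
    (fun x => (((x.1, x.2.1, x.2.2 (.inr ())), fun i => x.2.2 (.inl (.inl i))),
      fun i => x.2.2 (.inl (.inr i)))) (by fun_prop)
    (by fun_prop) (fun z a => a.1) (fun x a => ⟨a, fun _ c => (c trivial).elim⟩) (fun _ _ => rfl)
    (fun x _ => Prod.ext rfl (Prod.ext rfl (funext fun i => by rcases i with (i | i) | ⟨⟩ <;> rfl)))
    (Eqs.of_eq fun z _ => ?_) g3
  simp only [Bod, Bf, sg_one, Sum.elim_inl, Sum.elim_inr, dotProduct, mul_add, mul_sum]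
  rw [add_assoc, add_comm (z.1.1.2.1 * _)]
  congr 2
  exact sum_congr rfl fun i _ => by ring

theorem Az.tq_1a_odd (h : Az k q G) (h2 : (2 : Ω) ≠ 0) (hδ : δ ^ q = δ) (hδ0 : δ ≠ 0)
    (hi : Is s D R f) (h0 : 0 ≤ r) (h1 : r < s) (hR : R r) (hf : f r = r)
    (hp : GT k G q 1 (Bod δ) (FO q b τ) s D (rmv s R r) f f fun _ => True) :
    GT k G q 1 (Bod δ) (FO q b τ) s D R f (low s f r)
      fun e => e r r ≠ 0 ∧ ∀ u, u < r → e u r = 0 := by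
  have hF : Fo k q 1 (Bod δ : ((ι ⊕ ι) ⊕ Unit → Ω) → _) (FO q b τ) := fd_bo hδ hδ0 b τ
  exact h.toAu.tq_1a_iso hF hi h0 h1 hR hf rfl (odd_SO1 h h2 hδ hδ0 (pq_tf hF)
    ((h.gy_tb hF (hi.rmv r) (hi.rmv r)).congr fun x => by simp only [Tb, and_true]) hp)

/-- the base with a decoration -/
def Db (q : ℕ) (ε : ℤˣ) (F : Equiv.Perm (n → Ω)) (s D : ℕ) (R : ℤ → Prop) (f f₁ : ℤ → ℤ)
    (Q : (ℤ → ℤ → Ω) → Prop) {β : Type} (W : (ZMod s → n → Ω) × β → Prop)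
    (y : (Ecf Ω s D × (ZMod s → n → Ω)) × β) : Prop :=
  Tb q ε F s D R f f₁ Q y.1 ∧ W (y.1.2, y.2)

/-- the function with a decoration -/
def Df (q : ℕ) (ε : ℤˣ) (B : (n → Ω) → (n → Ω) → Ω) (F : Equiv.Perm (n → Ω)) (s D : ℕ) {β : Type}
    (χ : (ZMod s → n → Ω) × β → Ω) (y : (Ecf Ω s D × (ZMod s → n → Ω)) × β) : Ω :=
  Tf q ε B F s D y.1 + χ (y.1.2, y.2)

variable (k) in
/-- the decorated variety is good -/
abbrev GD (G : Gp Ω) (q : ℕ) (ε : ℤˣ) (B : (n → Ω) → (n → Ω) → Ω) (F : Equiv.Perm (n → Ω))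
    (s D : ℕ) [NeZero s] (R : ℤ → Prop) (f f₁ : ℤ → ℤ) (Q : (ℤ → ℤ → Ω) → Prop)
    (W : (ZMod s → n → Ω) × β → Prop) (χ : (ZMod s → n → Ω) × β → Ω) : Prop :=
  Gy k G (AS q (Db q ε F s D R f f₁ Q W) (Df q ε B F s D χ))

variable {W : (ZMod s → n → Ω) × β → Prop} {χ : (ZMod s → n → Ω) × β → Ω}

theorem lc_db (hF : Fo k q ε B F) (hi : Is s D R f₁) (hQ : Lc k fun E : Ecf Ω s D => Q (ee q ε E))
    (hW : Lc k W) : Lc k (Db q ε F s D R f f₁ Q W) :=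
  Lr.and (Lr.fst (lc_tb hF hi hQ) β) (hW.comp ((Pq.snd (Pq.fst Pq.id)).mk (Pq.snd Pq.id)))

theorem pq_df (hF : Fo k q ε B F) (hχ : Pq k W χ) :
    Pq k (Db q ε F s D R f f₁ Q W) (Df q ε B F s D χ) :=
  ((pq_tf hF).comp (Pq.fst Pq.id)).add
    (hχ.pull ((Pq.snd (Pq.fst Pq.id)).mk (Pq.snd Pq.id)) fun _ a => a.2)

theorem pq_de_SO1 {p : (Ecf Ω s D × (ZMod s → n → Ω)) × β → Prop} (u v : ℤ) :
    Pq k p fun y => ee q ε y.1.1 u v := Pq.ee (Pq.fst (Pq.fst Pq.id)) ε u v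

theorem Au.gd_add (h : Au k q G) (hF : Fo k q ε B F) (hi : Is s D R f₂)
    (hle : ∀ u, R u → f₁ u ≤ f₂ u) (hp : GD k G q ε B F s D R f f₁ Q W χ) :
    GD k G q ε B F s D R f f₂ Q W χ :=
  (h.gci hF.sem hi
    (x := fun y : ((Ecf Ω s D × (ZMod s → n → Ω)) × β) × Ω => pext F s y.1.1.2)
    (fun u => Pq.pext hF.sem.po hF.sem.po' (Pq.snd (Pq.fst (Pq.fst Pq.id))) u)
    (fun a _ => pe_pext F a.1.1.2) hp).congr fun _ =>
    ⟨fun H => ⟨⟨⟨⟨H.1.1.1, H.1.1.2.1, fun w => (H.1.1.2.2.1 w).mono fun u hu =>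
      ⟨hu.1, hu.2.1, hu.2.2.trans (hle u hu.1)⟩, H.1.1.2.2.2⟩, H.1.2⟩, H.2⟩, H.1.1.2.2.1⟩,
      fun H => ⟨⟨⟨H.1.1.1.1, H.1.1.1.2.1, H.2, H.1.1.1.2.2.2⟩, H.1.1.2⟩, H.1.2⟩⟩

theorem GD.congr (hq : ∀ e, Amx q ε s D e → (Se ε R f e ∧ Q e ↔ Se ε R f' e ∧ Q' e))
    (hp : GD k G q ε B F s D R f' f₁ Q' W χ) : GD k G q ε B F s D R f f₁ Q W χ :=
  Gy.as_of_iff hp (fun _ => and_congr_left'
    ⟨fun H => ((hq _ (H.1.ad k)).1 ⟨H.1, H.2.2.2⟩).elim fun a b => ⟨a, H.2.1, H.2.2.1, b⟩,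
      fun H => ((hq _ (H.1.ad k)).2 ⟨H.1, H.2.2.2⟩).elim fun a b => ⟨a, H.2.1, H.2.2.1, b⟩⟩)
    fun _ _ => rfl

theorem Au.gd_opn (h : Au k q G) (u v : ℤ) (hp : GD k G q ε B F s D R f f₁ Q W χ) :
    GD k G q ε B F s D R f f₁ (fun e => Q e ∧ e u v ≠ 0) W χ :=
  Gy.as_of_iff (h.as_opn (pq_de_SO1 u v) hp) (fun _ =>
    ⟨fun H => ⟨⟨⟨H.1.1, H.1.2.1, H.1.2.2.1, H.1.2.2.2.1⟩, H.2⟩, H.1.2.2.2.2⟩,
      fun H => ⟨⟨H.1.1.1, H.1.1.2.1, H.1.1.2.2.1, H.1.1.2.2.2, H.2⟩, H.1.2⟩⟩) fun _ _ => rfl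

theorem Au.gd_split (h : Au k q G) (hF : Fo k q ε B F) (hW : Lc k W) (hχ : Pq k W χ)
    (hi : Is s D R f₁) (u v : ℤ) (h1 : GD k G q ε B F s D R f f₁ (fun e => e u v = 0) W χ)
    (h2 : GD k G q ε B F s D R f f₁ (fun e => e u v ≠ 0) W χ) :
    GD k G q ε B F s D R f f₁ (fun _ => True) W χ :=
  h.as_split (lc_db hF hi (Lr.const True) hW) (pq_df hF hχ) (pq_de_SO1 u v)
    (Gy.as_of_iff h1 (fun _ => ⟨fun H => ⟨⟨H.1.1.1, H.1.1.2.1, H.1.1.2.2.1, H.2⟩, H.1.2⟩,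
      fun H => ⟨⟨⟨H.1.1, H.1.2.1, H.1.2.2.1, trivial⟩, H.2⟩, H.1.2.2.2⟩⟩) fun _ _ => rfl)
    (Gy.as_of_iff h2 (fun _ => ⟨fun H => ⟨⟨H.1.1.1, H.1.1.2.1, H.1.1.2.2.1, H.2⟩, H.1.2⟩,
      fun H => ⟨⟨⟨H.1.1, H.1.2.1, H.1.2.2.1, trivial⟩, H.2⟩, H.1.2.2.2⟩⟩) fun _ _ => rfl)

theorem Au.gd_last (h : Au k q G) (hF : Fo k q ε B F) (hi : Is s D R f) (hr : r ≤ f r)
    (hp : GD k G q ε B F s D R (low s f r) (low s f r) (fun _ => True) W χ) :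
    GD k G q ε B F s D R f f (fun e => e r (f r) = 0) W χ :=
  h.gd_add hF hi (fun u _ => low_le f r u)
    (GD.congr (fun _ ha => by rw [se_low k hi hr ha, and_true]) hp)

theorem Au.gd_zero (h : Au k q G) (hF : Fo k q ε B F) (hi : Is s D R f) (hr : r ≤ f r)
    (h0 : ¬ok ε R f r (f r))
    (hp : GD k G q ε B F s D R (low s f r) (low s f r) (fun _ => True) W χ) :
    GD k G q ε B F s D R f f (fun _ => True) W χ :=
  GD.congr (fun _ _ => ⟨fun H => ⟨H.1, H.1 r (f r) hr h0⟩, fun H => ⟨H.1, trivial⟩⟩)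
    (h.gd_last hF hi hr hp)

theorem Au.gd_piv (h : Au k q G) (hF : Fo k q ε B F) (hW : Lc k W) (hχ : Pq k W χ)
    (hi : Is s D R f) (h1 : ∀ u, R u → u ≤ f u)
    (ih : ∀ r, R r → GD k G q ε B F s D R (low s f r) (low s f r) (fun _ => True) W χ)
    (hp : GD k G q ε B F s D R f (fun u => u - 1) (Piv R f) W χ) :
    GD k G q ε B F s D R f f (fun _ => True) W χ := by
  classical
  have c : Lc k (Db q ε F s D R f f (fun _ => True) W) := lc_db hF hi (Lr.const True) hW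
  have hg : ∀ p : (Ecf Ω s D × (ZMod s → n → Ω)) × β → Prop, Pq k p fun y =>
      ∏ c : {c : ZMod s // R c.val}, ee q ε y.1.1 c.1.val (f c.1.val) :=
    fun p => Pq.prod _ fun c => pq_de_SO1 _ _
  refine h.as_split c (pq_df hF hχ) (hg _) ?_ ?_
  · refine h.as_union (Lr.land c (Lr.eq (hg _) (Pq.const 0)))
      ((pq_df hF hχ).mono fun _ H => H.1)
      (T := {c : ZMod s // R c.val}) (r := fun c y => ee q ε y.1.1 c.1.val (f c.1.val) = 0)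
      (fun c => Cr.eq (pq_de_SO1 _ _) (Pq.const 0)) (fun y H => ?_) fun c => ?_
    · obtain ⟨c, -, hc⟩ := prod_eq_zero_iff.1 H.2
      exact ⟨c, hc⟩
    · exact Gy.as_of_iff (h.gd_last hF hi (h1 _ c.2) (ih _ c.2)) (fun _ =>
        ⟨fun H => ⟨⟨H.1.1.1.1, H.1.1.1.2.1, H.1.1.1.2.2.1, H.2⟩, H.1.1.2⟩, fun H =>
          ⟨⟨⟨⟨H.1.1, H.1.2.1, H.1.2.2.1, trivial⟩, H.2⟩, prod_eq_zero (mem_univ c) H.1.2.2.2⟩,
            H.1.2.2.2⟩⟩)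
        fun _ _ => rfl
  · refine Gy.as_of_iff (h.gd_add hF hi (fun u _ => hi.lo u) hp) (fun y => ⟨fun H =>
      ⟨⟨H.1.1.1, H.1.1.2.1, H.1.1.2.2.1, (piv_iff_SI0 k hi (H.1.1.1.ad k)).2 fun c hc =>
        prod_ne_zero_iff.1 H.2 ⟨c, hc⟩ (mem_univ _)⟩, H.1.2⟩, fun H =>
      ⟨⟨⟨H.1.1, H.1.2.1, H.1.2.2.1, trivial⟩, H.2⟩,
        prod_ne_zero_iff.2 fun c _ => H.1.2.2.2 _ c.2⟩⟩)
      fun _ _ => rfl

end Pool.Agent.CXD
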