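import Pool.Agent.P.MP_2ce3e7_ag.SO1

/-! Paths. -/

set_option linter.unusedSectionVars false
set_option linter.unusedVariables false

open Function Matrix

noncomputable section

namespace Pool.Agent.CXD
open Finset

variable {k Ω : Type} [Field k] [Field Ω] [Algebra k Ω] {q : ℕ} {ε σ τ : ℤˣ} {s D : ℕ} [NeZero s]
  {R : ℤ → Prop} {f f' f₁ f₂ g : ℤ → ℤ} {ι n : Type} [Fintype ι] [Fintype n] {b : ι → Bool}
  {G : Gp Ω} {B : (n → Ω) → (n → Ω) → Ω} {F : Equiv.Perm (n → Ω)} {Q Q' : (ℤ → ℤ → Ω) → Prop}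
  {r θ : ℤ} {e : ℤ → ℤ → Ω} {κ δ : Ω} {α β : Type} [Af Ω α] [Af Ω β] [IsAlgClosed Ω] [Sq k q]

/-- paths with steps `c θ • z θ` and extra jumps `J θ` -/
def Pa {W : Type} [AddCommGroup W] [Module Ω W] (c : ℤ → Ω) (z Y J : ℤ → W) : Prop :=
  ∀ θ, Y θ = Y (θ - 1) + c θ • z θ + J θ

/-- the area of a path -/
def Ps {W : Type} (s : ℕ) (B : W → W → Ω) (Y : ℤ → W) : Ω :=
  ∑ θ ∈ Ico (0 : ℤ) s, B (Y (θ - 1)) (Y θ)

/-- step lengths and positions -/
abbrev Cyp (Ω : Type) (s : ℕ) (ι : Type) : Type := (ZMod s → Ω) × (ZMod s → ι ⊕ ι → Ω)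

/-- periodic paths -/
def Wp (q : ℕ) (σ : ℤˣ) (s : ℕ) (R : ℤ → Prop) (w : (ZMod s → ι ⊕ ι → Ω) × Cyp Ω s ι) : Prop :=
  Acz R (pext (frz q σ) s w.2.1) ∧
    Pa (pext (frz q σ) s w.2.1) (pext (FH q ι) s w.1) (pext (sF σ (FH q ι)) s w.2.2) 0

/-- the area function -/
def Xp (q : ℕ) (σ : ℤˣ) (κ : Ω) (s : ℕ) (w : (ZMod s → ι ⊕ ι → Ω) × Cyp Ω s ι) : Ω :=
  κ * Ps s (Bf (-1)) (pext (sF σ (FH q ι)) s w.2.2)

variable (k) in
/-- the variety with a path is good -/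
abbrev GP (G : Gp Ω) (q : ℕ) (σ : ℤˣ) (κ : Ω) (ι : Type) [Fintype ι] (s D : ℕ) [NeZero s]
    (R : ℤ → Prop) (f f₁ : ℤ → ℤ) (Q : (ℤ → ℤ → Ω) → Prop) : Prop :=
  GD k G q (-1) (Bf (-1)) (FH q ι) s D R f f₁ Q (Wp q σ s R) (Xp q σ κ s)

theorem lc_wp : Lc k (Wp (Ω := Ω) (ι := ι) q σ s R) := by
  have h1 := sem_frs (k := k) (Ω := Ω) (q := q) σ
  have h2 := sem_FV (k := k) (Ω := Ω) (q := q) (ι := ι) (-1) fun _ => false
  have h3 := h2.sF σ
  have c : ∀ u, Pq k (fun _ => True) fun w : (ZMod s → ι ⊕ ι → Ω) × Cyp Ω s ι =>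
      pext (frz q σ) s w.2.1 u := Pq.pext h1.po h1.po' (Pq.fst (Pq.snd Pq.id))
  have z : ∀ u, Pq k (fun _ => True) fun w : (ZMod s → ι ⊕ ι → Ω) × Cyp Ω s ι =>
      pext (FH q ι) s w.1 u := Pq.pext h2.po h2.po' (Pq.fst Pq.id)
  have y : ∀ u, Pq k (fun _ => True) fun w : (ZMod s → ι ⊕ ι → Ω) × Cyp Ω s ι =>
      pext (sF σ (FH q ι)) s w.2.2 u := Pq.pext h3.po h3.po' (Pq.snd (Pq.snd Pq.id))
  exact Cr.lr (Cr.and (Cr.all fun u => Cr.all fun _ : ¬R u => Cr.eq (c u) (Pq.const 0))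
    (Cr.all fun θ => Cr.eq (y θ) (Pq.vadd (Pq.vadd (y (θ - 1)) (Pq.vsmul (c θ) (z θ)))
      (Pq.const (0 : ι ⊕ ι → Ω)))))

theorem pq_xp (hκ : κ ^ q = κ) {p : (ZMod s → ι ⊕ ι → Ω) × Cyp Ω s ι → Prop} :
    Pq k p (Xp q σ κ s) := by
  have := kr_of_pow (k := k) hκ
  have h3 := (sem_FV (k := k) (Ω := Ω) (q := q) (ι := ι) (-1) fun _ => false).sF σ
  have y : ∀ u, Pq k p fun w : (ZMod s → ι ⊕ ι → Ω) × Cyp Ω s ι =>
      pext (sF σ (FH q ι)) s w.2.2 u := Pq.pext h3.po h3.po' (Pq.snd (Pq.snd Pq.id))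
  exact (Pq.const κ).mul (Pq.sum _ fun θ => Pq.bf (-1) (y (θ - 1)) (y θ))

theorem Pq.ps {p : α → Prop} {Y : α → ℤ → ι ⊕ ι → Ω} (h : ∀ u, Pq k p fun x => Y x u) :
    Pq k p fun x => Ps s (Bf ε) (Y x) := Pq.sum _ fun θ => Pq.bf ε (h (θ - 1)) (h θ)

theorem pa_iff (hF : Sem k q F) {c : ℤ → Ω} {z Y J : ℤ → n → Ω} (hc : Pe (frz q σ) s c)
    (hz : Pe F s z) (hY : Pe (sF σ F) s Y) (hJ : Pe (sF σ F) s J) : Pa c z Y J ↔
      ∀ a : ZMod s, Y a.val = Y (a.val - 1) + c a.val • z a.val + J a.val := by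
  refine ⟨fun H a => H _, fun H => per_ind s
    (P := fun θ => Y θ = Y (θ - 1) + c θ • z θ + J θ) (fun u => ?_) 0 fun u h0 h1 => ?_⟩
  · have e : c (u + s) • z (u + s) = sF σ F (c u • z u) := by
      rw [hc u, hz u, frs_apply k, sF_apply, hF.smul, smul_smul]
    rw [add_sub_right_comm, hY u, hY (u - 1), hJ u, e, ← (hF.sF σ).add, ← (hF.sF σ).add,
      (sF σ F).injective.eq_iff]
  · rw [zero_add] at h1
    have := H u
    rwa [val_SE1 h0 h1] at this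

theorem Sem.pe_zero (hF : Sem k q F) : Pe F s 0 := fun _ => hF.zero.symm

theorem pext_sF (k : Type) [Field k] [Algebra k Ω] [Sq k q] (X : ZMod s → ι ⊕ ι → Ω) (u : ℤ)
    (j : ι ⊕ ι) : pext (sF σ (FH q ι)) s X u j =
      pext (frz q (Sum.elim (fun _ => σ) (fun _ => -σ) j)) s (fun c => X c j) u := by
  refine (pext_map (F := sF σ (FH q ι)) (X := X) (fun z => z j) (fun z => ?_) u).symm
  rw [sF_apply, frs_apply k, Pi.smul_apply, smul_eq_mul]
  rcases j with i | i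
  · rw [FV_inl _ _ _ k]
    simp
  · rw [FV_inr _ _ _ k]
    simp [sg_neg, sg_one]

theorem pext_FH (k : Type) [Field k] [Algebra k Ω] [Sq k q] (X : ZMod s → ι ⊕ ι → Ω) (u : ℤ)
    (j : ι ⊕ ι) : pext (FH q ι) s X u j =
      pext (frz q (Sum.elim (fun _ => 1) (fun _ => -1) j)) s (fun c => X c j) u := by
  refine (pext_map (F := FH q ι) (X := X) (fun z => z j) (fun z => ?_) u).symm
  rw [frs_apply k]
  rcases j with i | i
  · rw [FV_inl _ _ _ k]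
    simp [sg_one]
  · rw [FV_inr _ _ _ k]
    simp

theorem pext_frv (X : ZMod s → ι → Ω) (u : ℤ) (i : ι) :
    pext (frv q σ ι) s X u i = pext (frz q σ) s (fun c => X c i) u :=
  (pext_map (F := frv q σ ι) (X := X) (fun z => z i) (fun _ => rfl) u).symm

variable {p : α → Prop}

theorem val_pred_SO2 {b : ZMod s} (hb : b ≠ 0) : (b - 1).val + 1 = b.val := by
  obtain ⟨m, hm⟩ := Nat.exists_eq_succ_of_ne_zero (fun e => hb ((ZMod.val_eq_zero b).1 e))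
  have h1 := ZMod.val_lt b
  have h2 : b - 1 = (m : ZMod s) := by
    rw [← ZMod.natCast_zmod_val b, hm]
    simp
  rw [h2, ZMod.val_natCast_of_lt (by omega), hm]

theorem pval_SO2 {W : Type} (F : Equiv.Perm W) (X : ZMod s → W) (a : ZMod s) :
    pext F s X a.val = X a := congrFun (res_pext F X) a

theorem Au.gconst (h : Au k q G) (σ : ℤˣ) (T : Set (ZMod s)) (hp : Gy k G p) :
    Gy k G fun y : α × (ZMod s → Ω) =>
      p y.1 ∧ ∀ a ∈ T, y.2 a = pext (frz q σ) s y.2 (a.val - 1) := by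
  classical
  have h1 := sem_frs (k := k) (Ω := Ω) (q := q) σ
  by_cases hT : ∀ a, a ∈ T
  · refine h.grats (p' := fun y : ZMod s → Ω => ∀ a ∈ T, y a = pext (frz q σ) s y (a.val - 1))
      (fun y hy => kr_pi fun a => ?_) hp
    have e1 : ∀ u : ℤ, pext (frz q σ) s y u = pext (frz q σ) s y (u - 1) := by
      refine per_ind s (fun u => ?_) 0 fun u h0 h2 => ?_
      · rw [add_sub_right_comm, pe_pext _ y u, pe_pext _ y (u - 1), (frz q σ).injective.eq_iff]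
      · rw [zero_add] at h2
        have := hy u (hT _)
        rwa [val_SE1 h0 h2, ← pext_of_mem (F := frz q σ) (X := y) h0 h2] at this
    have e2 : ∀ (u : ℤ) (m : ℕ), pext (frz q σ) s y (u + m) = pext (frz q σ) s y u := by
      intro u m
      induction m with
      | zero => simp
      | succ m ih => rw [e1, ← ih]; congr 1; push_cast; ring
    have e3 := (e2 a.val s).symm.trans (pe_pext _ y a.val)
    rw [pval_SO2, frs_apply k] at e3
    refine ((Sq.su : Su k q).kr_iff _).2 ?_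
    have e4 : y a ^ q = sg σ * y a := by
      linear_combination (-sg σ) * e3 - y a ^ q * sg_mul_self (Ω := Ω) σ
    rw [sq, pow_mul, e4, mul_pow, sg_pow k, ← e3]
  · obtain ⟨a0, h0⟩ := not_forall.1 hT
    refine (h.gtri (n := ZMod s) (m := {a // a ≠ a0}) Subtype.val Subtype.val_injective
      (fun a => -((a - a0).val : ℤ)) (P := fun y => p y.1)
      (Φ := fun a y => pext (frz q σ) s y.2 (a.1.val - 1))
      (fun a => Pq.pext h1.po h1.po' (Pq.snd Pq.id) _) (fun _ _ _ _ H => H)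
      (fun x y i j t _ H => pext_update_of_ne _ _ fun e => ?_) (h.gline _ hp)
      (univ.filter fun a => a.1 ∈ T)).congr fun y => and_congr_right fun _ =>
        ⟨fun H a ha => H a.1 (mem_filter.1 ha).2, fun H a ha =>
          H ⟨a, fun e => h0 (e ▸ ha)⟩ (mem_filter.2 ⟨mem_univ _, ha⟩)⟩
    have e1 : j.1 - a0 = (i.1 - a0) - 1 := by
      rw [← e]
      push_cast
      rw [ZMod.natCast_zmod_val]
      ring
    have e2 := val_pred_SO2 (sub_ne_zero.2 i.2)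
    rw [← e1] at e2
    omega

theorem Au.pg1 (h : Au k q G) (σ : ℤˣ) {c : α → ZMod s → Ω} (hc : Pq k p c)
    (T A S : Set (ZMod s)) (hT : ∀ x a, p x → (c x a = 0 ↔ a ∈ T)) (hA : A ⊆ T) (hp : Gy k G p) :
    Gy k G fun y : α × (ZMod s → Ω) × (ZMod s → Ω) => p y.1 ∧ (∀ a ∈ A, y.2.1 a = 0) ∧
      ∀ a ∈ S, y.2.2 a = pext (frz q σ) s y.2.2 (a.val - 1) + c y.1 a * y.2.1 a := by
  classical
  have h1 := sem_frs (k := k) (Ω := Ω) (q := q) σ
  have h2 := h.gsupp (fun a => a ∈ A) (h.gconst σ (T ∩ S) hp)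
  have h3 := h.gtri (n := ZMod s) (m := {a // a ∉ T}) Subtype.val Subtype.val_injective
    (fun _ => 0) (Φ := fun a y => (y.1.2 a.1 - pext (frz q σ) s y.1.2 (a.1.val - 1)) *
      (c y.1.1 a.1)⁻¹)
    (fun a => (Pq.sub ((Pq.snd (Pq.fst Pq.id)).eval _)
      (Pq.pext h1.po h1.po' (Pq.snd (Pq.fst Pq.id)) _)).mul (Pq.inv
        ((hc.pull (Pq.fst (Pq.fst Pq.id)) fun _ H => H.1.1).eval _)
        fun y H e => a.2 ((hT _ _ H.1.1).1 e)))
    (fun x y i t H => ⟨H.1, fun a ha => (update_of_ne (fun e : a = i.1 => i.2 (e ▸ hA ha)) _ _).trans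
      (H.2 a ha)⟩) (fun _ _ _ _ _ _ _ => rfl) h2 (univ.filter fun a => a.1 ∈ S)
  refine h.giso (fun y : (α × (ZMod s → Ω)) × (ZMod s → Ω) => (y.1.1, y.2, y.1.2))
    (fun y => ((y.1, y.2.2), y.2.1)) (by fun_prop) (by fun_prop) ?_ ?_ (fun _ _ => rfl)
    (fun _ _ => rfl) h3
  · rintro ⟨⟨x, y2⟩, y1⟩ ⟨⟨⟨a1, a2⟩, a3⟩, a4⟩
    refine ⟨a1, a3, fun a ha => ?_⟩
    dsimp only at a2 a4 ⊢
    by_cases e : a ∈ T
    · rw [(hT x a a1).2 e, zero_mul, add_zero]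
      exact a2 a ⟨e, ha⟩
    · have h0 : c x a ≠ 0 := fun e' => e ((hT x a a1).1 e')
      rw [a4 ⟨a, e⟩ (mem_filter.2 ⟨mem_univ _, ha⟩)]
      field_simp
      ring
  · rintro ⟨x, y1, y2⟩ ⟨a1, a3, a2⟩
    dsimp only at a1 a2 a3 ⊢
    refine ⟨⟨⟨a1, fun a ha => ?_⟩, a3⟩, fun a ha => ?_⟩
    · have := a2 a ha.2
      rwa [(hT x a a1).2 ha.1, zero_mul, add_zero] at this
    · have h0 : c x a.1 ≠ 0 := fun e' => a.2 ((hT x a.1 a1).1 e')
      rw [eq_mul_inv_iff_mul_eq₀ h0]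
      linear_combination -(a2 a.1 (mem_filter.1 ha).2)

/-- fibre products of finitely many good families -/
theorem Au.gpi_SO2 (h : Au k q G) (w : β) [Kr k w] (r : n → α × β → Prop)
    (h1 : ∀ (j : n) (γ : Type) [Af Ω γ] (P : α × γ → Prop), (∀ y, P y → p y.1) → Gy k G P →
      Gy k G fun y : (α × γ) × β => P y.1 ∧ r j (y.1.1, y.2)) (hp : Gy k G p) :
    Gy k G fun y : α × (n → β) => p y.1 ∧ ∀ j, r j (y.1, y.2 j) := by
  classical
  have : Kr k fun _ : n => w := kr_pi fun _ => inferInstance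
  have key : ∀ S : Finset n, Gy k G fun y : α × (n → β) =>
      p y.1 ∧ (∀ j ∈ S, r j (y.1, y.2 j)) ∧ ∀ j, j ∉ S → y.2 j = w := fun S => by
    induction S using Finset.induction_on with
    | empty =>
      exact ((h.ggraph (g := fun _ (_ : n) => w) (Pq.const _)).2 hp).congr fun y =>
        and_congr_right fun _ => by simp [funext_iff]
    | insert j S hj ih =>
      refine h.giso (fun y : (α × (n → β)) × β => (y.1.1, update y.1.2 j y.2))
        (fun y => ((y.1, update y.2 j w), y.2 j)) (by fun_prop) (by fun_prop) ?_ ?_ ?_ ?_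
        (h1 j _ _ (fun _ H => H.1) ih)
      · rintro ⟨⟨x, v⟩, t⟩ ⟨⟨a1, a2, a3⟩, a4⟩
        refine ⟨a1, fun i hi => ?_, fun i hi => ?_⟩
        · rcases mem_insert.1 hi with rfl | hi
          · simpa using a4
          · dsimp only
            rw [update_of_ne (fun e : i = j => hj (e ▸ hi))]
            exact a2 i hi
        · dsimp only
          rw [update_of_ne (fun e : i = j => hi (e ▸ mem_insert_self _ _))]
          exact a3 i fun e => hi (mem_insert_of_mem e)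
      · rintro ⟨x, v⟩ ⟨a1, a2, a3⟩
        refine ⟨⟨a1, fun i hi => ?_, fun i hi => ?_⟩, a2 j (mem_insert_self _ _)⟩
        · dsimp only
          rw [update_of_ne (fun e : i = j => hj (e ▸ hi))]
          exact a2 i (mem_insert_of_mem hi)
        · dsimp only
          by_cases e : i = j
          · rw [e, update_self]
          · rw [update_of_ne e]
            exact a3 i fun H => (mem_insert.1 H).elim e hi
      · rintro ⟨⟨x, v⟩, t⟩ ⟨⟨a1, a2, a3⟩, a4⟩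
        have e : v j = w := a3 j hj
        simp [← e]
      · rintro ⟨x, v⟩ _
        simp
  exact (key univ).congr fun y => and_congr_right fun _ => by simp

theorem Au.pgood (h : Au k q G) (σ : n → ℤˣ) (A : Set (ZMod s)) (S : n → Set (ZMod s))
    (hp : Gy k G p) :
    Gy k G fun y : α × (ZMod s → n → Ω) × (ZMod s → Ω) × (ZMod s → n → Ω) =>
      p y.1 ∧ (∀ a ∈ A, y.2.1 a = 0 ∧ y.2.2.1 a = 0) ∧ ∀ j, ∀ a ∈ S j, y.2.2.2 a j =
        pext (frz q (σ j)) s (fun c => y.2.2.2 c j) (a.val - 1) + y.2.2.1 a * y.2.1 a j := by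
  classical
  have h1 := fun j => sem_frs (k := k) (Ω := Ω) (q := q) (σ j)
  have : Kr k (0 : n → Ω) := inferInstance
  refine h.gzp (T := ZMod s) (φ := fun a y => y.2.2.1 a) ((hp.lc.fst _).land (Cr.lr (Cr.and
    (Cr.all fun a => Cr.all fun _ : a ∈ A => Cr.and (Cr.eq (by fun_prop) (Pq.const 0))
      (Cr.eq (by fun_prop) (Pq.const 0)))
    (Cr.all fun j => Cr.all fun a => Cr.all fun _ : a ∈ S j => Cr.eq (by fun_prop)
      ((Pq.pext (h1 j).po (h1 j).po' (by fun_prop) _).add (by fun_prop))))))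
    (fun a => by fun_prop) fun Z => ?_
  by_cases hA : A ⊆ Z
  swap
  · exact h.gnot fun y H => hA fun a ha => (H.2 a).1 (H.1.2.1 a ha).2
  have h2 : Gy k G fun y : α × (ZMod s → Ω) => p y.1 ∧ ∀ a, y.2 a = 0 ↔ a ∈ Z :=
    (h.gopns (T := {a // a ∉ Z}) (g := fun a y => y.2 a.1) (fun a => by fun_prop)
      (h.gsupp (fun a => a ∈ Z) hp)).congr fun y =>
      ⟨fun H => ⟨⟨H.1, fun a => (H.2 a).2⟩, fun a e => a.2 ((H.2 a.1).1 e)⟩,
        fun H => ⟨H.1.1, fun a => ⟨fun e => by_contra fun e' => H.2 ⟨a, e'⟩ e, H.1.2 a⟩⟩⟩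
  have h3 := h.gpi_SO2 ((0 : ZMod s → Ω), (0 : ZMod s → Ω))
    (fun (j : n) (y : (α × (ZMod s → Ω)) × (ZMod s → Ω) × (ZMod s → Ω)) =>
      (∀ a ∈ A, y.2.1 a = 0) ∧ ∀ a ∈ S j,
        y.2.2 a = pext (frz q (σ j)) s y.2.2 (a.val - 1) + y.1.2 a * y.2.1 a)
    (fun j γ _ P hP H => h.pg1 (σ j) (c := fun y => y.1.2) (by fun_prop) Z A (S j)
      (fun x a hx => (hP x hx).2 a) hA H) h2
  refine h.giso
    (fun y : (α × (ZMod s → Ω)) × (n → (ZMod s → Ω) × (ZMod s → Ω)) =>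
      (y.1.1, fun a j => (y.2 j).1 a, y.1.2, fun a j => (y.2 j).2 a))
    (fun y => ((y.1, y.2.2.1), fun j => (fun a => y.2.1 a j, fun a => y.2.2.2 a j)))
    (by fun_prop) (by fun_prop) (fun y H => ?_) (fun y H => ?_) (fun _ _ => rfl)
    (fun _ _ => rfl) h3
  · exact ⟨⟨H.1.1, fun a ha => ⟨funext fun j => (H.2 j).1 a ha, (H.1.2 a).2 (hA ha)⟩,
      fun j => (H.2 j).2⟩, H.1.2⟩
  · exact ⟨⟨H.1.1, H.2⟩, fun j => ⟨fun a ha => congrFun (H.1.2.1 a ha).1 j, H.1.2.2 j⟩⟩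

theorem Az.gy_lb (h : Az k q G) {R' : ℤ → Prop} (hi : Is s D R f) (hi' : Is s D R' f₁) :
    Gy k G fun y : (Ecf Ω s D × (ZMod s → ι ⊕ ι → Ω)) × Cyp Ω s ι =>
      (Se (-1) R f (ee q (-1) y.1.1) ∧ Acz R' (pext (FH q ι) s y.1.2) ∧
        Ci Ω R' f₁ (pext (FH q ι) s y.1.2)) ∧ Wp q σ s R' (y.1.2, y.2) := by
  have s1 := sem_frs (k := k) (Ω := Ω) (q := q) σ
  have s2 := sem_FV (k := k) (Ω := Ω) (q := q) (ι := ι) (-1) fun _ => false
  have h0 := h.toAu.gsupp2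
    (fun (c : ZMod s) (δ : Fin (D + 1)) => ¬ok (-1) R f (c.val - δ.val) c.val) (h.guniv Ω)
  have h1 : Gy k G fun y : Ecf Ω s D × Ω => Se (-1) R f (ee q (-1) y.1) :=
    h.toAu.giso (fun y : Ω × Ecf Ω s D => (y.2, y.1)) (fun y : Ecf Ω s D × Ω => (y.2, y.1))
      ((Pq.snd Pq.id).mk (Pq.fst Pq.id)) ((Pq.snd Pq.id).mk (Pq.fst Pq.id))
      (fun z hz => (se_iff k hi _).2 hz.2) (fun z hz => ⟨trivial, (se_iff k hi _).1 hz⟩)
      (fun _ _ => rfl) (fun _ _ => rfl) h0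
  have h2 := h.toAu.pgood (s := s) (n := ι ⊕ ι) (Sum.elim (fun _ => σ) fun _ => -σ)
    {a | ¬R' a.val} (fun _ => Set.univ)
    (h.toAu.gunline (p := fun E : Ecf Ω s D => Se (-1) R f (ee q (-1) E)) Ω h1)
  have h3 := h.toAu.gci s2 hi' (x := fun y => pext (FH q ι) s y.2.1)
    (fun u => Pq.pext s2.po s2.po' (Pq.fst (Pq.snd Pq.id)) u) (fun a _ => pe_pext _ _) h2
  have key : ∀ (z Y : ZMod s → ι ⊕ ι → Ω) (C : ZMod s → Ω),
      Pa (pext (frz q σ) s C) (pext (FH q ι) s z) (pext (sF σ (FH q ι)) s Y) 0 ↔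
      ∀ j, ∀ a ∈ (Set.univ : Set (ZMod s)), Y a j =
        pext (frz q (Sum.elim (fun _ => σ) (fun _ => -σ) j)) s (fun c => Y c j) (a.val - 1) +
          C a * z a j := fun z Y C => by
    rw [pa_iff s2 (pe_pext _ _) (pe_pext _ _) (pe_pext _ _) (s2.sF σ).pe_zero]
    simp only [pval_SO2, Pi.zero_apply, add_zero, funext_iff, Pi.add_apply, Pi.smul_apply,
      smul_eq_mul, pext_sF k, Set.mem_univ, forall_const]
    exact forall_comm
  refine h.toAu.giso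
    (fun y : Ecf Ω s D × (ZMod s → ι ⊕ ι → Ω) × (ZMod s → Ω) × (ZMod s → ι ⊕ ι → Ω) =>
      ((y.1, y.2.1), y.2.2)) (fun y => (y.1.1, y.1.2, y.2))
    (((Pq.fst Pq.id).mk (Pq.fst (Pq.snd Pq.id))).mk (Pq.snd (Pq.snd Pq.id)))
    ((Pq.fst (Pq.fst Pq.id)).mk ((Pq.snd (Pq.fst Pq.id)).mk (Pq.snd Pq.id)))
    (fun y H => ?_) (fun y H => ?_) (fun _ _ => rfl) (fun _ _ => rfl) h3
  · exact ⟨⟨H.1.1, (s2.act_iff hi'.perR _).2 fun c hc => (H.1.2.1 c hc).1, H.2⟩,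
      (s1.act_iff hi'.perR _).2 fun c hc => (H.1.2.1 c hc).2, (key _ _ _).2 H.1.2.2⟩
  · exact ⟨⟨H.1.1, fun c hc => ⟨(s2.act_iff hi'.perR _).1 H.1.2.1 c hc,
      (s1.act_iff hi'.perR _).1 H.2.1 c hc⟩, (key _ _ _).1 H.2.2⟩, H.1.2.2⟩

end Pool.Agent.CXD
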