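import Pool.Agent.P.MP_2ce3e7_ag.SO2
import Pool.Agent.P.MP_2ce3e7_ag.SH

/-! Paths over spanning families. -/

set_option linter.unusedSectionVars false
set_option linter.unusedVariables false

open Function Matrix

noncomputable section

namespace Pool.Agent.CXD
open Finset

variable {k Ω : Type} [Field k] [Field Ω] [Algebra k Ω] {q : ℕ} {ε σ τ : ℤˣ} {s D : ℕ} [NeZero s]
  {R : ℤ → Prop} {f f' f₁ f₂ g : ℤ → ℤ} {ι n : Type} [Fintype ι] [Fintype n] {b : ι → Bool}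
  {G : Gp Ω} {B : (n → Ω) → (n → Ω) → Ω} {F : Equiv.Perm (n → Ω)} {Q Q' : (ℤ → ℤ → Ω) → Prop}
  {r θ : ℤ} {e : ℤ → ℤ → Ω} {κ δ : Ω} {α β : Type} [Af Ω α] [Af Ω β] [IsAlgClosed Ω] [Sq k q]

/-- the first `N` vectors span -/
def Sw (N : ℕ) (z : ℤ → n → Ω) : Prop :=
  LinearIndependent Ω fun (j : n) (θ : Fin N) => z θ.val j

/-- the signs of the coordinates -/
def sj_SO3 (σ : ℤˣ) (j : ι ⊕ ι) : Ω := Sum.elim (fun _ => sg σ) (fun _ => -sg σ) j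

theorem sj_mul_SO3 (j : ι ⊕ ι) : (sj_SO3 σ j : Ω) * sj_SO3 σ j = 1 := by
  have e := sg_mul_self (Ω := Ω) σ
  rcases j with j | j <;> simp only [sj_SO3, Sum.elim_inl, Sum.elim_inr] <;> linear_combination e

theorem sj_pow_SO3 (k : Type) [Field k] [Algebra k Ω] [Sq k q] (j : ι ⊕ ι) :
    (sj_SO3 σ j : Ω) ^ q = sj_SO3 σ j := by
  rcases j with j | j <;> simp only [sj_SO3, Sum.elim_inl, Sum.elim_inr]
  · exact sg_pow k σ
  · rw [(Sq.su : Su k q).neg_pow, sg_pow k σ]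

theorem sf_SO3 (k : Type) [Field k] [Algebra k Ω] [Sq k q] (x : ι ⊕ ι → Ω) (j : ι ⊕ ι) :
    sF σ (FH q ι) x j = sj_SO3 σ j * x j ^ q := by
  rw [sF_apply, Pi.smul_apply, smul_eq_mul]
  rcases j with j | j
  · rw [FV_inl _ _ _ k]
    simp [sj_SO3]
  · rw [FV_inr _ _ _ k, sg_neg, sg_one]
    simp [sj_SO3]

theorem dot_fh_SO3 (k : Type) [Field k] [Algebra k Ω] [Sq k q] {g : ι ⊕ ι → Ω}
    (hg : ∀ j, g j ^ q = -(sj_SO3 σ j * g j)) (x : ι ⊕ ι → Ω) :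
    sg σ * (g ⬝ᵥ FH q ι x) = -(g ⬝ᵥ x) ^ q := by
  rw [dotProduct, dotProduct, (Sq.su : Su k q).sum_pow, Finset.mul_sum, ← Finset.sum_neg_distrib]
  refine Finset.sum_congr rfl fun j _ => ?_
  have e := sf_SO3 (σ := σ) k x j
  rw [sF_apply, Pi.smul_apply, smul_eq_mul] at e
  rw [mul_pow, hg]
  linear_combination g j * e

theorem root_SO3 (k : Type) [Field k] [Algebra k Ω] [Sq k q] {g : Ω} {j : ι ⊕ ι}
    (h : -(sj_SO3 σ j * (frq q).symm g) - g = 0) : g ^ q = -(sj_SO3 σ j * g) := by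
  have e : g = -(sj_SO3 σ j * (frq q).symm g) := by linear_combination -h
  have e2 : g ^ q = (-(sj_SO3 σ j * (frq q).symm g)) ^ q := congrArg (· ^ q) e
  rw [(Sq.su : Su k q).neg_pow, mul_pow, sj_pow_SO3 k, ← fr_apply k ((frq q).symm g),
    Equiv.apply_symm_apply] at e2
  exact e2

theorem span_zero_SO3 (k : Type) [Field k] [Algebra k Ω] [Sq k q] {N : ℕ} {g : ι ⊕ ι → Ω}
    (hg : ∀ j, g j ^ q = -(sj_SO3 σ j * g j)) {X : ZMod s → ι ⊕ ι → Ω}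
    (hS : Sw N (pext (FH q ι) s X)) (h0 : ∀ a, g ⬝ᵥ X a = 0) : g = 0 := by
  have key : ∀ u : ℤ, g ⬝ᵥ pext (FH q ι) s X u = 0 := fun u => by
    refine per_ind s (P := fun u => g ⬝ᵥ pext (FH q ι) s X u = 0) (fun u => ?_) 0
      (fun u a1 a2 => ?_) u
    · have e := dot_fh_SO3 k hg (pext (FH q ι) s X u)
      rw [pe_pext (FH q ι) X u]
      refine ⟨fun h => ?_, fun h => ?_⟩
      · rw [h, mul_zero] at e
        exact (pow_eq_zero_iff (Sq.su : Su k q).pos.ne').1 (neg_eq_zero.1 e.symm)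
      · rw [h, zero_pow (Sq.su : Su k q).pos.ne', neg_zero] at e
        exact (mul_eq_zero.1 e).resolve_left (sg_ne σ)
    · rw [zero_add] at a2
      rw [pext_of_mem a1 a2]
      exact h0 _
  funext j
  refine Fintype.linearIndependent_iff.1 hS g ?_ j
  funext θ
  simpa [dotProduct] using key θ.val

/-- sums up to a time -/
def upto_SO3 {V : Type} [AddCommGroup V] (t : ZMod s → V) (θ : ℤ) : V :=
  ∑ a : ZMod s, if (a.val : ℤ) ≤ θ then t a else 0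

theorem upto_neg_SO3 {V : Type} [AddCommGroup V] (t : ZMod s → V) : upto_SO3 t (-1) = 0 :=
  Finset.sum_eq_zero fun a _ => if_neg (by omega)

theorem upto_top_SO3 {V : Type} [AddCommGroup V] (t : ZMod s → V) :
    upto_SO3 t (-1 + s) = ∑ a, t a :=
  Finset.sum_congr rfl fun a _ => if_pos (by have := ZMod.val_lt a; omega)

theorem upto_step_SO3 {V : Type} [AddCommGroup V] (t : ZMod s → V) (a : ZMod s) :
    upto_SO3 t a.val = upto_SO3 t (a.val - 1) + t a := by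
  classical
  have e : t a = ∑ a' : ZMod s, if a' = a then t a' else 0 := by simp
  rw [upto_SO3, upto_SO3, e, ← Finset.sum_add_distrib]
  refine Finset.sum_congr rfl fun a' _ => ?_
  by_cases h : a' = a
  · rw [if_pos h, if_pos (by rw [h]), if_neg (by rw [h]; omega), zero_add]
  · have h1 : a'.val ≠ a.val := fun h2 => h (ZMod.val_injective s h2)
    rw [if_neg h, add_zero]
    exact if_congr (by omega) rfl rfl

theorem fwd_SO3 {F : Equiv.Perm (n → Ω)} {t : ZMod s → n → Ω} {Y : n → Ω}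
    (h : F Y = Y + ∑ a, t a) {θ : ℤ} (h0 : -1 ≤ θ) (h1 : θ < s) :
    pext F s (fun a => Y + upto_SO3 t a.val) θ = Y + upto_SO3 t θ := by
  have key : ∀ θ : ℤ, 0 ≤ θ → θ < s →
      pext F s (fun a => Y + upto_SO3 t a.val) θ = Y + upto_SO3 t θ := fun θ a1 a2 => by
    rw [pext_of_mem a1 a2, val_SE1 a1 a2]
  rcases h0.lt_or_eq with h2 | rfl
  · exact key θ (by omega) h1
  · have hs := NeZero.pos s
    refine F.injective ?_
    rw [← pe_pext F _ (-1), key _ (by omega) (by omega), upto_top_SO3, upto_neg_SO3, add_zero, h]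

theorem bwd_SO3 {t : ZMod s → n → Ω} {Y : ℤ → n → Ω}
    (h : ∀ a : ZMod s, Y a.val = Y (a.val - 1) + t a) (m : ℕ) (hm : m ≤ s) :
    Y (m - 1) = Y (-1) + upto_SO3 t (m - 1) := by
  induction m with
  | zero => simp [upto_neg_SO3]
  | succ m ih =>
    have e : ((m : ZMod s).val : ℤ) = m := by rw [ZMod.val_natCast_of_lt (by omega)]
    have e1 := h (m : ZMod s)
    have e2 := upto_step_SO3 t (m : ZMod s)
    rw [e] at e1 e2
    rw [Nat.cast_succ, add_sub_cancel_right, e1, e2, ih (by omega), add_assoc]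

theorem wp_iff_SO3 (k : Type) [Field k] [Algebra k Ω] [Sq k q] (hi : Is s D R f)
    (w : (ZMod s → ι ⊕ ι → Ω) × Cyp Ω s ι) : Wp q σ s R w ↔
    (∀ a : ZMod s, ¬R a.val → w.2.1 a = 0) ∧ ∀ a : ZMod s,
      pext (sF σ (FH q ι)) s w.2.2 a.val =
        pext (sF σ (FH q ι)) s w.2.2 (a.val - 1) + w.2.1 a • w.1 a := by
  have hF : Sem k q (FH q ι : Equiv.Perm (ι ⊕ ι → Ω)) := sem_FV _ _
  rw [Wp, (sem_frs (k := k) σ).act_iff hi.perR,
    pa_iff hF (pe_pext _ _) (pe_pext _ _) (pe_pext _ _) (hF.sF σ).pe_zero]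
  refine and_congr_right fun _ => forall_congr' fun a => ?_
  have e1 : pext (frz q σ) s w.2.1 a.val = w.2.1 a := congrFun (res_pext _ _) a
  have e2 : pext (FH q ι) s w.1 a.val = w.1 a := congrFun (res_pext _ _) a
  rw [e1, e2, Pi.zero_apply, add_zero]

variable {p : α → Prop} {Z : α → ZMod s → ι ⊕ ι → Ω} {N : ℕ}

theorem Au.path_mult (h : Au k q G) [DecidableEq ι] (hi : Is s D R f) (hZ : Pq k p Z)
    (h1 : ∀ x, p x → Acz R (pext (FH q ι) s (Z x)) ∧ Sw N (pext (FH q ι) s (Z x)))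
    (hp : Gy k G p) (E : Finset (ι ⊕ ι)) :
    Gy k G (AS q (fun y : (α × (ZMod s → Ω) × (ι ⊕ ι → Ω)) × (ι ⊕ ι → Ω) =>
      (p y.1.1 ∧ ∀ a : ZMod s, ¬R a.val → y.1.2.1 a = 0) ∧ ∀ j, j ∉ E → y.2 j = 0)
      fun y => ∑ j, y.2 j *
        (sF σ (FH q ι) y.1.2.2 - y.1.2.2 - ∑ a, y.1.2.1 a • Z y.1.1 a) j) := by
  have hq : Su k q := Sq.su
  have hk : ∀ j : ι ⊕ ι, Kr k (sj_SO3 σ j : Ω) := fun j => kr_of_pow (sj_pow_SO3 (q := q) k j)
  have b2 := h.grats (p' := fun g : ι ⊕ ι → Ω => (∀ j, j ∉ E → g j = 0) ∧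
      ∀ j, -(sj_SO3 σ j * (frq q).symm (g j)) - g j = 0) (fun g hg => kr_pi fun j =>
        (hq.kr_iff _).2 (by
          have e := root_SO3 k (hg.2 j)
          rw [sq, pow_mul, e, hq.neg_pow, mul_pow, sj_pow_SO3 k, e]
          linear_combination g j * sj_mul_SO3 (Ω := Ω) (σ := σ) j)) hp
  have a1 := h.as_aff (ψ := fun _ => 0) (fun a : ZMod s => R a.val)
    (D := fun (w : α × (ι ⊕ ι → Ω)) a => -(w.2 ⬝ᵥ Z w.1 a))
    (Pq.pi fun a => ((Pq.snd Pq.id).dot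
      ((hZ.pull (Pq.fst Pq.id) fun _ hx => hx.1).eval a)).neg) (Pq.const 0)
    (fun w a hw ha => by
      have e : Z w.1 a = 0 := (congrFun (res_pext _ _) a).symm.trans ((h1 _ hw.1).1 _ ha)
      rw [e, dotProduct_zero, neg_zero]) b2
    (h.as_zero ((h.gsupp (κ := ι ⊕ ι) (fun _ => True) hp).congr fun w =>
      ⟨fun hw => ⟨hw.1.1, fun j _ => congrFun (span_zero_SO3 k (fun j => root_SO3 k (hw.1.2.2 j))
        (h1 _ hw.1.1).2 fun a => neg_eq_zero.1 (congrFun hw.2 a)) j⟩, fun hw => by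
        have e : w.2 = 0 := funext fun j => hw.2 j trivial
        have e0 : (frq q).symm (0 : Ω) = 0 := (Equiv.symm_apply_eq _).2 (by
          rw [fr_apply k, zero_pow hq.pos.ne'])
        refine ⟨⟨hw.1, fun j _ => hw.2 j trivial, fun j => ?_⟩, funext fun a => ?_⟩
        · rw [hw.2 j trivial, e0]
          simp
        · simp [e]⟩))
  have hD : ∀ P : (α × (ZMod s → Ω)) × (ι ⊕ ι → Ω) → Prop, Pq k P
      fun w j => sj_SO3 σ j * (frq q).symm (w.2 j) := fun P => Pq.pi fun j =>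
    (Pq.const _).mul (po_fr_symm.comp ((Pq.snd Pq.id).eval j))
  have b1 := h.gsupp (κ := ι ⊕ ι) (fun j => j ∉ E)
    (h.gsupp (κ := ZMod s) (fun a => ¬R a.val) hp)
  have a2 := h.as_aff (ψ := fun w => ∑ a, w.1.2 a * -(w.2 ⬝ᵥ Z w.1.1 a)) (fun _ : ι ⊕ ι => True)
    (D := fun (w : (α × (ZMod s → Ω)) × (ι ⊕ ι → Ω)) j =>
      -(sj_SO3 σ j * (frq q).symm (w.2 j)) - w.2 j)
    (Pq.pi fun j => ((hD _).eval j).neg.sub ((Pq.snd Pq.id).eval j))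
    (Pq.sum _ fun a => ((Pq.snd (Pq.fst Pq.id)).eval a).mul ((Pq.snd Pq.id).dot
      ((hZ.pull (Pq.fst (Pq.fst Pq.id)) fun _ hx => hx.1.1).eval a)).neg)
    (fun _ _ _ ha => absurd trivial ha) b1
    (h.as_iso (fun y : (α × (ι ⊕ ι → Ω)) × (ZMod s → Ω) => ((y.1.1, y.2), y.1.2))
      (fun w => ((w.1.1, w.2), w.1.2)) (by fun_prop) (by fun_prop)
      (fun y hy => ⟨⟨⟨hy.1.1, hy.2⟩, hy.1.2.1⟩, funext hy.1.2.2⟩)
      (fun w hw => ⟨⟨hw.1.1.1, hw.1.2, congrFun hw.2⟩, hw.1.1.2⟩) (fun _ _ => rfl)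
      (fun _ _ => rfl) (Eqs.of_eq fun y _ => by rw [zero_add]; rfl) a1)
  refine h.as_iso
    (fun y : ((α × (ZMod s → Ω)) × (ι ⊕ ι → Ω)) × (ι ⊕ ι → Ω) => ((y.1.1.1, y.1.1.2, y.2), y.1.2))
    (fun y => (((y.1.1, y.1.2.1), y.2), y.1.2.2)) (by fun_prop) (by fun_prop)
    (fun y hy => hy.1) (fun y hy => ⟨hy, fun _ ha => absurd trivial ha⟩) (fun _ _ => rfl)
    (fun _ _ => rfl) ⟨fun y => ∑ j, sj_SO3 σ j * (frq q).symm (y.1.2 j) * y.2 j,
      Pq.sum _ fun j => (((hD fun _ => True).comp (Pq.fst Pq.id)).eval j).mul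
        ((Pq.snd Pq.id).eval j), fun y _ => ?_⟩ a2
  have e1 : ∑ a, y.1.1.2 a * -(y.1.2 ⬝ᵥ Z y.1.1.1 a) =
      ∑ j, -(y.1.2 j * (∑ a, y.1.1.2 a • Z y.1.1.1 a) j) := by
    simp only [dotProduct, Finset.sum_apply, Pi.smul_apply, smul_eq_mul, Finset.mul_sum, mul_neg,
      Finset.sum_neg_distrib]
    rw [Finset.sum_comm]
    refine congrArg _ (Finset.sum_congr rfl fun j _ => Finset.sum_congr rfl fun a _ => ?_)
    ring
  dsimp only
  rw [e1, dotProduct, hq.sum_pow, ← Finset.sum_add_distrib, ← Finset.sum_add_distrib,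
    ← Finset.sum_add_distrib]
  refine Finset.sum_congr rfl fun j _ => ?_
  rw [Pi.sub_apply, Pi.sub_apply, sf_SO3 k, mul_pow, mul_pow, sj_pow_SO3 k,
    ← fr_apply k ((frq q).symm _), Equiv.apply_symm_apply]
  ring

theorem Au.path (h : Au k q G) (hi : Is s D R f) (hZ : Pq k p Z)
    (h1 : ∀ x, p x → Acz R (pext (FH q ι) s (Z x)) ∧ Sw N (pext (FH q ι) s (Z x)))
    (hp : Gy k G p) : Gy k G fun y : α × Cyp Ω s ι => p y.1 ∧ Wp q σ s R (Z y.1, y.2) := by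
  classical
  have hF : Sem k q (sF σ (FH q ι) : Equiv.Perm (ι ⊕ ι → Ω)) := (sem_FV _ _).sF σ
  have h0 : Gy k G fun y : α × (ZMod s → Ω) × (ι ⊕ ι → Ω) =>
      p y.1 ∧ ∀ a : ZMod s, ¬R a.val → y.2.1 a = 0 :=
    h.giso (fun y : (α × (ZMod s → Ω)) × (ι ⊕ ι → Ω) => (y.1.1, y.1.2, y.2))
      (fun y => ((y.1, y.2.1), y.2.2)) (by fun_prop) (by fun_prop) (fun _ hy => hy)
      (fun _ hy => hy) (fun _ _ => rfl) (fun _ _ => rfl)
      (h.gline _ (h.gsupp (κ := ZMod s) (fun a => ¬R a.val) hp))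
  have ht : ∀ (P : α × (ZMod s → Ω) × (ι ⊕ ι → Ω) → Prop) (hP : ∀ y, P y → p y.1) (a : ZMod s)
      (j : ι ⊕ ι), Pq k P fun y => y.2.1 a * Z y.1 a j := fun P hP a j =>
    ((Pq.fst (Pq.snd Pq.id)).eval a).mul (((hZ.pull (Pq.fst Pq.id) hP).eval a).eval j)
  have key := h.as_cayley h0 (f := fun (j : ι ⊕ ι) y =>
      (sF σ (FH q ι) y.2.2 - y.2.2 - ∑ a, y.2.1 a • Z y.1 a) j)
    (fun j => ((((hF.po.comp (Pq.snd (Pq.snd Pq.id))).eval j).sub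
      ((Pq.snd (Pq.snd Pq.id)).eval j)).sub
        (Pq.sum univ fun a => ht _ (fun _ hy => hy.1) a j)).congr fun y _ => by
          simp only [Pi.sub_apply, Finset.sum_apply, Pi.smul_apply, smul_eq_mul])
    Set.univ (fun E _ hE => hE.imp fun _ he => ⟨he, trivial⟩)
    (fun E _ => h.path_mult hi hZ h1 hp E) univ trivial
  have e0 : ∀ y : α × (ZMod s → Ω) × (ι ⊕ ι → Ω), (∀ j ∈ (univ : Finset (ι ⊕ ι)),
      (sF σ (FH q ι) y.2.2 - y.2.2 - ∑ a, y.2.1 a • Z y.1 a) j = 0) ↔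
      sF σ (FH q ι) y.2.2 = y.2.2 + ∑ a, y.2.1 a • Z y.1 a := fun y => by
    rw [← sub_eq_zero, ← sub_sub, funext_iff]
    simp only [mem_univ, true_imp_iff, Pi.zero_apply]
  refine h.giso (fun y : α × (ZMod s → Ω) × (ι ⊕ ι → Ω) =>
      (y.1, y.2.1, fun a : ZMod s => y.2.2 + upto_SO3 (fun a' => y.2.1 a' • Z y.1 a') a.val))
    (fun y => (y.1, y.2.1, pext (sF σ (FH q ι)) s y.2.2 (-1))) ?_ ?_ (fun y hy => ?_)
    (fun y hy => ?_) (fun y hy => ?_) (fun y hy => ?_) key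
  · refine (Pq.fst Pq.id).mk ((Pq.fst (Pq.snd Pq.id)).mk (Pq.pi fun a => Pq.pi fun j => ?_))
    refine (((Pq.snd (Pq.snd Pq.id)).eval j).add (Pq.sum univ fun a' : ZMod s =>
      Pq.ite ((a'.val : ℤ) ≤ a.val) (ht _ (fun _ hy => hy.1.1) a' j) (Pq.const 0))).congr
        fun y _ => ?_
    simp only [upto_SO3, Pi.add_apply, Finset.sum_apply, ite_apply, Pi.smul_apply, smul_eq_mul,
      Pi.zero_apply]
  · exact (Pq.fst Pq.id).mk ((Pq.fst (Pq.snd Pq.id)).mk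
      (Pq.pext hF.po hF.po' (Pq.snd (Pq.snd Pq.id)) _))
  · refine ⟨hy.1.1, (wp_iff_SO3 k hi _).2 ⟨hy.1.2, fun a => ?_⟩⟩
    have ha := ZMod.val_lt a
    dsimp only
    rw [fwd_SO3 ((e0 y).1 hy.2) (by omega) (by omega),
      fwd_SO3 ((e0 y).1 hy.2) (by omega) (by omega), upto_step_SO3, add_assoc]
  · have hw := (wp_iff_SO3 k hi _).1 hy.2
    refine ⟨⟨hy.1, hw.1⟩, (e0 _).2 ?_⟩
    have e := bwd_SO3 hw.2 s le_rfl
    dsimp only at e ⊢
    rw [← pe_pext _ _ (-1), ← upto_top_SO3, neg_add_eq_sub, e]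
  · have hs := NeZero.pos s
    refine Prod.ext rfl (Prod.ext rfl ?_)
    dsimp only
    rw [fwd_SO3 ((e0 y).1 hy.2) le_rfl (by omega), upto_neg_SO3, add_zero]
  · have hw := (wp_iff_SO3 k hi _).1 hy.2
    refine Prod.ext rfl (Prod.ext rfl (funext fun a => ?_))
    have e := bwd_SO3 hw.2 (a.val + 1) (ZMod.val_lt a)
    rw [Nat.cast_succ, add_sub_cancel_right] at e
    exact e.symm.trans (congrFun (res_pext _ _) a)

theorem Az.gy_l (h : Az k q G) (h2 : (2 : Ω) ≠ 0) (hκ : κ ^ q = κ) (hi : Is s D R f) (N : ℕ)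
    (hT : GP k G q σ κ ι s D R f f fun _ => True) :
    Gy k G (AS q (fun w : (ZMod s → ι ⊕ ι → Ω) × Cyp Ω s ι => Zt q (-1) (fun _ => false) s R f w.1 ∧
      Sw N (pext (FH q ι) s w.1) ∧ Wp q σ s R w) (Xp q σ κ s)) := by
  classical
  have hF : Fo k q (-1) (Bf (-1) : (ι ⊕ ι → Ω) → _) (FH q ι) := fd_bf _ _
  have hx : ∀ (p : (ZMod s → ι ⊕ ι → Ω) → Prop) (u : ℤ), Pq k p fun X => pext (FH q ι) s X u :=
    fun p u => Pq.pext hF.sem.po hF.sem.po' Pq.id u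
  have hl : ∀ p : (ZMod s → ι ⊕ ι → Ω) → Prop, (∀ X, p X → Acz R (pext (FH q ι) s X)) →
      Gy k G p → Gy k G fun y : (ZMod s → ι ⊕ ι → Ω) × Cyp Ω s ι =>
        ((p y.1 ∧ Ci Ω R f (pext (FH q ι) s y.1)) ∧ Sw N (pext (FH q ι) s y.1)) ∧
          Wp q σ s R y := fun p e hp =>
    h.toAu.path (N := N) (Z := fun X => X) hi Pq.id (fun X hX => ⟨e X hX.1.1, hX.2⟩)
      ((h.toAu.gli (M := fun X (j : ι ⊕ ι) (θ : Fin N) => pext (FH q ι) s X θ.val j)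
        (Pq.pi fun j => Pq.pi fun θ => (hx _ _).eval j) Set.univ
        (h.toAu.gci hF.sem hi (x := fun X => pext (FH q ι) s X) (hx _)
          (fun X _ => pe_pext _ X) hp)).congr fun X =>
            and_congr_right' (linearIndepOn_univ_iff (R := Ω)).symm)
  have h0 : Gy k G fun X : ZMod s → ι ⊕ ι → Ω => Acz R (pext (FH q ι) s X) :=
    h.toAu.gunline Ω (h.toAu.giso (fun y : Ω × (ZMod s → ι ⊕ ι → Ω) => (y.2, y.1))
      (fun y => (y.2, y.1)) (by fun_prop) (by fun_prop) (fun _ hy => hy.2)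
      (fun _ hy => ⟨trivial, hy⟩) (fun _ _ => rfl) (fun _ _ => rfl)
      (h.toAu.gacz hF.sem hi (h.guniv Ω)))
  have ot : ∀ f', Is s D R f' → ∀ X : ZMod s → ι ⊕ ι → Ω, Ot (-1) R f' (pext (FH q ι) s X) ↔
      ∀ i ∈ okf (-1) s D R f', (if i.2.val = 0 then 1 else 2) *
        Bf (-1) (pext (FH q ι) s X (i.1.val - i.2.val)) (pext (FH q ι) s X i.1.val) = 0 := by
    intro f' a1 X
    rw [Ot, ot_iff hF h2 a1 (pe_pext _ X)]
    refine forall₂_congr fun i _ => ?_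
    rw [mul_eq_zero, or_iff_right]
    split_ifs
    exacts [one_ne_zero, h2]
  have key := h.toAu.as_chain (hl _ (fun _ hX => hX) h0).lc (pq_xp (σ := σ) hκ)
    (f := fun (i : ZMod s × Fin (D + 1)) w => (if i.2.val = 0 then 1 else 2) *
      Bf (-1) (pext (FH q ι) s w.1 (i.1.val - i.2.val)) (pext (FH q ι) s w.1 i.1.val))
    (fun i => (Pq.ite _ (Pq.const 1) (Pq.const 2)).mul
      (hF.pq ((hx (fun _ => True) _).comp (Pq.fst Pq.id))
        ((hx (fun _ => True) _).comp (Pq.fst Pq.id))))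
    {E | ∃ f', Is s D R f' ∧ (∀ u, f' u ≤ f u) ∧ E = okf (-1) s D R f'} ?_ ?_
    ⟨f, hi, fun _ => le_rfl, rfl⟩ ?_
  · refine key.congr fun y => and_congr_left' ?_
    beta_reduce
    rw [← ot f hi]
    exact ⟨fun H => ⟨⟨⟨⟨H.1.1, H.1.2.1⟩, H.2.1⟩, H.2.2⟩, H.1.2.2⟩,
      fun H => ⟨⟨H.1.1.1.1, H.1.1.1.2, H.2⟩, H.1.1.2, H.1.2⟩⟩
  · rintro _ ⟨f', a1, a2, rfl⟩ hne
    obtain ⟨i, b1, f'', b2, b3, b4⟩ := okf_erase a1 hne
    exact ⟨i, b1, f'', b2, fun u => (b3 u).trans (a2 u), b4⟩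
  · rintro _ ⟨f', a1, a2, rfl⟩
    refine (hl _ (fun _ hX => hX.1) (h.zt h2 (-1) (fun _ => false) a1)).congr fun y => ?_
    rw [← ot f' a1]
    exact ⟨fun H => ⟨⟨⟨⟨H.1.1.1.1, fun w => (H.1.1.1.2 w).mono fun u hu =>
      ⟨hu.1, hu.2.1, hu.2.2.trans (a2 u)⟩, H.2⟩, H.1.1.1.2⟩, H.1.1.2⟩, H.1.2⟩,
      fun H => ⟨⟨⟨⟨H.1.1.1.1, H.1.1.2⟩, H.1.2⟩, H.2⟩, H.1.1.1.2.2⟩⟩
  · have T : Gy k G (AS q (fun y : (Ecf Ω s D × (ZMod s → ι ⊕ ι → Ω)) × Cyp Ω s ι =>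
        Db q (-1) (FH q ι) s D R f f (fun _ => True) (Wp q σ s R) y ∧
          Sw N (pext (FH q ι) s y.1.2)) (Df q (-1) (Bf (-1)) (FH q ι) s D (Xp q σ κ s))) :=
      (h.toAu.gli (M := fun y (j : ι ⊕ ι) (θ : Fin N) => pext (FH q ι) s y.1.1.2 θ.val j)
        (Pq.pi fun j => Pq.pi fun θ => ((hx (fun _ => True) _).comp
          (Pq.snd (Pq.fst (Pq.fst Pq.id)))).eval j) Set.univ hT).congr fun y => by
        rw [linearIndepOn_univ_iff]
        exact and_right_comm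
    refine h.toAu.as_iso (fun y : (Ecf Ω s D × (ZMod s → ι ⊕ ι → Ω)) × Cyp Ω s ι =>
        ((y.1.2, y.2), fun i => y.1.1 i.1 i.2))
      (fun y => ((fun c δ => y.2 (c, δ), y.1.1), y.1.2)) ?_ ?_
      (fun z hz => ⟨⟨⟨⟨hz.1.1.2.1, hz.1.1.2.2.1⟩, hz.2⟩, hz.1.2⟩, fun i hio =>
        (se_iff k hi z.1.1).1 hz.1.1.1 i.1 i.2 fun H => hio (mem_okf_SI6.2 H)⟩)
      (fun y hy => ?_) (fun _ _ => rfl) (fun _ _ => rfl)
      (Eqs.of_eq fun z _ => ?_) T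
    · exact ((Pq.snd (Pq.fst Pq.id)).mk (Pq.snd Pq.id)).mk
        (Pq.pi fun i => ((Pq.fst (Pq.fst Pq.id)).eval i.1).eval i.2)
    · exact ((Pq.pi fun c => Pq.pi fun δ => (Pq.snd Pq.id).eval (c, δ)).mk
        (Pq.fst (Pq.fst Pq.id))).mk (Pq.snd (Pq.fst Pq.id))
    · exact ⟨⟨⟨(se_iff k hi _).2 fun c δ H => hy.2 (c, δ) fun hio => H (mem_okf_SI6.1 hio),
        hy.1.1.1.1, hy.1.1.1.2, trivial⟩, hy.1.2⟩, hy.1.1.2⟩
    · rw [add_comm]
      exact congrArg (· + _) (tf_eq z.1.1 z.1.2).symm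

end Pool.Agent.CXD
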