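import Pool.Agent.P.MP_2ce3e7_ag.SO3

/-! The line is a path. -/

set_option linter.unusedSectionVars false
set_option linter.unusedVariables false

open Function Matrix

noncomputable section

namespace Pool.Agent.CXD
open Finset

variable {k Ω : Type} [Field k] [Field Ω] [Algebra k Ω] {q : ℕ} {ε σ τ : ℤˣ} {s D : ℕ} [NeZero s]
  {R : ℤ → Prop} {f f' f₁ f₂ g : ℤ → ℤ} {ι n : Type} [Fintype ι] [Fintype n] {b : ι → Bool}
  {G : Gp Ω} {B : (n → Ω) → (n → Ω) → Ω} {F : Equiv.Perm (n → Ω)} {Q Q' : (ℤ → ℤ → Ω) → Prop}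
  {r θ : ℤ} {e : ℤ → ℤ → Ω} {κ δ : Ω} {α β : Type} [Af Ω α] [Af Ω β] [IsAlgClosed Ω] [Sq k q]

/-- the path of a scalar sequence -/
def Yl (D : ℕ) (R : ℤ → Prop) (f : ℤ → ℤ) (e : ℤ → ℤ → Ω) (z : ℤ → ι ⊕ ι → Ω) (t : ℤ → Ω)
    (θ : ℤ) : ι ⊕ ι → Ω := Yw (-1) (bd D R f θ) z (Pv D e z θ) t (Pv D e t θ)

section
variable {z Y : ℤ → ι ⊕ ι → Ω} {t c : ℤ → Ω}

theorem low_SO4 {W : Type} [AddCommGroup W] [Module Ω W] (h : Is s D R f) (ha : Amx q 1 s D e)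
    (hs : Se 1 R f e) (x : ℤ → W) (θ : ℤ) : Ew D e x θ =
      ∑ u ∈ bd D R f (θ - 1), e u θ • x u + (e θ θ • x θ + Pv D e x θ θ) := by
  rw [Ew.split x (θ := θ - 1) (by omega) (by omega), Pv.step x (ha.bandZ_SB0 θ θ)]
  congr 1
  refine (sum_subset_zero_on_sdiff (fun u hu => ?_) (fun u hu => ?_) fun u _ => ?_).symm
  · have h1 := h.mem_bd.1 hu
    have h2 := h.hi u
    exact mem_Icc.2 ⟨by omega, h1.2.1⟩
  · obtain ⟨h1, h2⟩ := mem_sdiff.1 hu
    have h3 := (mem_Icc.1 h1).2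
    have h4 : e θ u = 0 := by_contra fun h5 => by
      obtain ⟨-, h6, -, h7, -⟩ := hs.of_ne ha h5
      have h8 := h7 (by omega)
      exact h2 (h.mem_bd.2 ⟨h6, h3, by omega⟩)
    rw [h4, zero_smul]
  · rw [ha.sym u θ, sg_one, one_mul]

theorem off_SO4 {W : Type} [AddCommGroup W] [Module Ω W] (ha : Amx q ε s D e)
    (hs : Se ε R f e) (x : ℤ → W) {θ : ℤ} (hθ : ¬R θ) : Ew D e x θ = 0 :=
  sum_eq_zero fun v _ => by
    rw [show e θ v = 0 from by_contra fun h5 => hθ (hs.of_ne ha h5).1, zero_smul]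

theorem self_SO4 (x : ι ⊕ ι → Ω) : Bf (-1) x x = 0 :=
  sum_eq_zero fun i _ => by
    rw [sg_neg, sg_one]
    ring

theorem mem_SO4 (h : C3 s D R f g) {θ : ℤ} (hθ : R θ) : θ ∈ bd D R f θ :=
  h.toIs.mem_bd.2 ⟨hθ, le_rfl, h.lt θ hθ⟩

theorem Ys.sw (hy : Ys q ε b s D R f e z) (h : C3 s D R f g)
    (hc : (bd D R f (-1)).card = Fintype.card ι) : Sw (2 * D + 1) z := by
  refine Fintype.linearIndependent_iff.2 fun c h1 => ?_
  obtain ⟨y, h2⟩ : ∃ y : ι ⊕ ι → Ω,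
      y = Sum.elim (fun i => sg (-ε) * c (.inr i)) fun i => c (.inl i) := ⟨_, rfl⟩
  have h3 : ∀ v : ℤ, 0 ≤ v → v ≤ 2 * D → Bf (-ε) (z v) y = 0 := by
    intro v h4 h5
    obtain ⟨m, rfl⟩ := Int.eq_ofNat_of_zero_le h4
    have h6 := congrFun h1 ⟨m, by omega⟩
    rw [Finset.sum_apply, Fintype.sum_sum_type, ← sum_add_distrib] at h6
    refine Eq.trans (sum_congr rfl fun i _ => ?_) h6
    simp only [h2, Sum.elim_inl, Sum.elim_inr, Pi.smul_apply, smul_eq_mul]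
    linear_combination z m (.inr i) * c (.inr i) * sg_mul_self (Ω := Ω) (-ε)
  have h4 : y = 0 := (hy.hy D).eq_zero ((h.card_bd _ _).trans hc) fun u hu => by
    have h5 := h.toIs.mem_bd.1 hu
    have h6 := h.hi u
    refine ⟨h3 u (by omega) (by omega), ?_⟩
    rw [Pv, Bf_sum_left]
    refine sum_eq_zero fun v hv => ?_
    have h7 := mem_Ioc.1 hv
    rw [Bf_smul_left, h3 v (by omega) (by omega), mul_zero]
  rw [h2] at h4
  intro j
  rcases j with i | i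
  · exact congrFun h4 (.inr i)
  · exact (mul_eq_zero.1 (congrFun h4 (.inl i))).resolve_left (sg_ne _)

theorem Ys.yl_pa (hy : Ys q 1 b s D R f e z) (h : C3 s D R f g)
    (hc : (bd D R f (-1)).card = Fintype.card ι) :
    Pa (fun θ => -Ew D e t θ) z (Yl D R f e z t) 0 := by
  intro θ
  have e1 : Yl D R f e z t (θ - 1) = ∑ u ∈ bd D R f (θ - 1),
      (t u • Pv D e z θ u + ((sg (-1) : Ω) * Pv D e t θ u) • z u) +
      ((∑ u ∈ bd D R f (θ - 1), e u θ • t u) • z θ -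
        t θ • ∑ u ∈ bd D R f (θ - 1), e u θ • z u) := by
    rw [sum_smul, smul_sum, ← sum_sub_distrib, ← sum_add_distrib, Yl, Yw]
    refine sum_congr rfl fun u _ => ?_
    rw [Pv.step z (hy.am.bandZ_SB0 u θ), Pv.step t (hy.am.bandZ_SB0 u θ), sg_neg, sg_one]
    simp only [smul_eq_mul]
    module
  have e2 := low_SO4 h.toIs hy.am hy.se z θ
  have e3 := low_SO4 h.toIs hy.am hy.se t θ
  rw [hy.ew] at e2
  beta_reduce
  rw [e1, Pi.zero_apply, add_zero, e3, eq_neg_of_add_eq_zero_left e2.symm, Yl, Yw]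
  by_cases hθ : R θ
  · obtain ⟨h1, h2, h3⟩ := h.bd_step hθ
    have h4 := h.glt hθ
    have h5 := (h.fg θ hθ).le
    rw [h1, sum_insert fun h6 => h3 (mem_of_mem_erase h6), sum_erase, sg_neg, sg_one]
    · simp only [smul_eq_mul]
      module
    · rw [Pv.zero hy.se z (by omega) h5, Pv.zero hy.se t (by omega) h5, smul_zero, mul_zero,
        zero_smul, add_zero]
  · have h1 : Pv D e z θ θ = 0 := sum_eq_zero fun v _ => by
      rw [show e θ v = 0 from by_contra fun h5 => hθ (hy.se.of_ne hy.am h5).1, zero_smul]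
    rw [h.bd_of_not hθ, hy.acz θ hθ, h1]
    simp

theorem Ys.yl_per (k : Type) [Field k] [Algebra k Ω] [Sq k q] (hy : Ys q 1 b s D R f e z)
    (h : Is s D R f) (ht : Pe (frz q τ) s t) :
    Pe (sF (-τ) (FV q (-1) b)) s (Yl D R f e z t) ∧ Pe (frz q (-τ)) s fun θ => -Ew D e t θ := by
  have hq : Su k q := Sq.su
  have hF := sem_FV (k := k) (q := q) (Ω := Ω) (-1) b
  refine ⟨fun θ => ?_, fun θ => ?_⟩
  · have e1 : bd D R f (θ + s) = (bd D R f θ).map (addRightEmbedding (s : ℤ)) := by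
      ext u
      obtain ⟨u, rfl⟩ := (Equiv.addRight (s : ℤ)).surjective u
      exact h.bd_per.trans (mem_map' (addRightEmbedding (s : ℤ))).symm
    rw [sF_apply, Yl, Yl, Yw, Yw, e1, sum_map, hF.sum, smul_sum]
    refine sum_congr rfl fun u _ => ?_
    rw [addRightEmbedding_apply, Pv.per hF hy.am hy.pe, Pv.per (sem_frs (k := k) τ) hy.am ht,
      hy.pe, ht, frs_apply k, frs_apply k, hF.add, hF.smul, hF.smul, mul_pow, sg_pow k, sg_neg,
      sg_neg, sg_one]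
    simp only [smul_eq_mul]
    module
  · simp only [Ew.per (sem_frs (k := k) τ) hy.am ht, frs_apply k, sg_neg, sg_one, hq.neg_pow,
      smul_eq_mul]
    ring

theorem Ys.yl_z (hy : Ys q 1 b s D R f e z) (h : C3 s D R f g) (ht : Acz R t) (θ : ℤ) :
    Bf (-1) (z θ) (Yl D R f e z t θ) = t θ := by
  by_cases hθ : R θ
  · exact (hy.hy θ).z_yv (mem_SO4 h hθ)
  · rw [hy.acz θ hθ, ht θ hθ, Bf_zero_left]

theorem Ys.yl_of_pa (hy : Ys q 1 b s D R f e z) (h : C3 s D R f g)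
    (hc : (bd D R f (-1)).card = Fintype.card ι) (h1 : Pa c z Y 0) (h2 : Acz R c) :
    Yl D R f e z (fun θ => Bf (-1) (z θ) (Y θ)) = Y ∧
      ∀ θ, -Ew D e (fun θ => Bf (-1) (z θ) (Y θ)) θ = c θ := by
  have e0 : ∀ θ, Y θ = Y (θ - 1) + c θ • z θ := fun θ => (h1 θ).trans (add_zero _)
  have e1 : ∀ u, R u → ∀ θ, u ≤ θ → θ < f u → Bf (-1) (z u) (Y θ) = Bf (-1) (z u) (Y u) := by
    intro u hu θ h3
    induction θ, h3 using Int.leInduction with
    | base => exact fun _ => rfl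
    | succ θ h3 ih =>
      intro h4
      rw [e0 (θ + 1), add_sub_cancel_right, Bf_add_right, Bf_smul_right, ih (by omega)]
      by_cases hθ : R (θ + 1)
      · rw [show Bf (-1) (z u) (z (θ + 1)) = 0 from (hy.hy (θ + 1) u
          (h.toIs.mem_bd.2 ⟨hu, by omega, h4⟩) _ (mem_SO4 h hθ)).1, mul_zero, add_zero]
      · rw [h2 _ hθ, zero_mul, add_zero]
  have e2 : ∀ u, R u → ∀ θ, θ ≤ u + D → u ≤ θ →
      Bf (-1) (Pv D e z θ u) (Y θ) = Pv D e (fun θ => Bf (-1) (z θ) (Y θ)) θ u := by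
    intro u hu θ h3
    induction θ, h3 using Int.leInductionDown with
    | base =>
      intro _
      rw [Pv, Pv, Ioc_self, sum_empty, sum_empty, Bf_zero_left]
    | pred θ h3 ih =>
      intro h4
      have e3 : c θ * Bf (-1) (Pv D e z θ u) (z θ) = 0 := by
        by_cases hθ : R θ
        · by_cases h5 : θ < f u
          · have h6 := (hy.hy θ θ (mem_SO4 h hθ) u (h.toIs.mem_bd.2 ⟨hu, by omega, h5⟩)).2.1
            rw [if_neg (by omega)] at h6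
            rw [Bf_comm, show Bf (-1) (z θ) (Pv D e z θ u) = 0 from h6, mul_zero, mul_zero]
          · rw [Pv.zero hy.se z (by omega) (by omega), Bf_zero_left, mul_zero]
        · rw [h2 _ hθ, zero_mul]
      rw [Pv.step z (hy.am.bandZ_SB0 u θ), Pv.step _ (hy.am.bandZ_SB0 u θ), ← ih (by omega),
        eq_sub_of_add_eq (e0 θ).symm, Bf_sub_right, Bf_add_left, Bf_add_left, Bf_smul_right,
        Bf_smul_right, Bf_smul_left, Bf_smul_left, self_SO4, e3, smul_eq_mul]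
      ring
  have e4 : Yl D R f e z (fun θ => Bf (-1) (z θ) (Y θ)) = Y := by
    funext θ
    refine Eq.trans ?_ ((hy.hy θ).yv_eq ((h.card_bd _ _).trans hc) (Y θ))
    rw [Yl, Yw, Yw]
    refine sum_congr rfl fun u hu => ?_
    have h3 := h.toIs.mem_bd.1 hu
    have h4 := h.hi u
    simp only [e1 u h3.1 θ h3.2.1 h3.2.2, e2 u h3.1 θ (by omega) h3.2.1]
  refine ⟨e4, fun θ => ?_⟩
  by_cases hθ : R θ
  · have h3 := hy.yl_pa (t := fun θ => Bf (-1) (z θ) (Y θ)) h hc θ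
    rw [e4, Pi.zero_apply, add_zero] at h3
    replace h3 := add_left_cancel ((e0 θ).symm.trans h3)
    have h4 := (hy.hy θ θ (mem_SO4 h hθ) θ (mem_SO4 h hθ)).2.1
    have h5 := congrArg (fun x => Bf (-1) x (Pv D e z θ θ)) h3
    simp only [Bf_smul_left] at h5
    rw [show Bf (-1) (z θ) (Pv D e z θ θ) = 1 from h4.trans (if_pos rfl), mul_one, mul_one] at h5
    exact h5.symm
  · rw [off_SO4 hy.am hy.se _ hθ, h2 θ hθ, neg_zero]

end

theorem fo_SO4 (τ : ℤˣ) :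
    Fo k q 1 (fun x y : Unit → Ω => x () * y ()) (frv q τ Unit) := by
  refine ⟨sem_frv τ, fun y => ⟨fun x x' => add_mul _ _ _, fun t x => mul_assoc _ _ _⟩,
    fun x => ⟨fun y y' => mul_add _ _ _, fun t y => mul_left_comm _ _ _⟩, fun x y => ?_,
    fun x y => ?_, ((Pq.fst Pq.id).eval ()).mul ((Pq.snd Pq.id).eval ()),
    fun x hx => funext fun _ => (one_mul _).symm.trans (hx 1)⟩
  · rw [sg_one, one_mul, mul_comm]
  · rw [frv_apply k, frv_apply k, sg_one, mul_pow]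
    linear_combination x () ^ q * y () ^ q * sg_mul_self (Ω := Ω) τ

theorem eqs_line {p : α → Prop} {e : α → ℤ → ℤ → Ω} {t : α → ℤ → Ω}
    (he : ∀ u v, Pq k p fun x => e x u v) (ht : ∀ u, Pq k p fun x => t x u)
    (h1 : ∀ x, p x → Amx q 1 s D (e x)) (h2 : ∀ x, p x → Pe (frz q τ) s (t x)) :
    Eqs k q p (fun x => ph s D (· * ·) (e x) (t x))
      fun x => ∑ v ∈ Ico (0 : ℤ) s, t x v * Ew D (e x) (t x) v := by
  refine (eqs_two (fo_SO4 τ) (x := fun a u _ => t a u) he (fun u => Pq.pi fun _ => ht u) h1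
    fun a ha u => funext fun _ => h2 a ha u).trans (Eqs.of_eq fun a _ => ?_)
  refine sum_congr rfl fun v _ => ?_
  rw [Ew, Ew, Finset.sum_apply]
  rfl

theorem pe_SO4 (k : Type) [Field k] [Algebra k Ω] [Sq k q] {z Y : ℤ → ι ⊕ ι → Ω}
    (hz : Pe (FH q ι) s z) (hY : Pe (sF (-τ) (FH q ι)) s Y) :
    Pe (frz q τ) s fun θ => Bf (-1) (z θ) (Y θ) := fun θ => by
  simp only [hz θ, hY θ, sF_apply, Bf_smul_right, Bf_FV _ _ _ _ k, frs_apply k, sg_neg, sg_one]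
  ring

theorem Au.lstep (h : Au k q G) (h3 : C3 s D R f g) (hc : (bd D R f (-1)).card = Fintype.card ι)
    (hδ : δ ^ q = δ)
    (hp : Gy k G (AS q (fun y : (Ecf Ω s D × (ZMod s → ι ⊕ ι → Ω)) × Cyp Ω s ι =>
      Yb q 1 (fun _ => false) s D R f y.1 ∧ Wp q (-τ) s R (y.1.2, y.2))
      fun y => Xp q (-τ) δ s (y.1.2, y.2))) :
    Gy k G (AS q (fun y : (Ecf Ω s D × (ZMod s → ι ⊕ ι → Ω)) × (ZMod s → Ω) =>
      Yb q 1 (fun _ => false) s D R f y.1 ∧ Acz R (pext (frz q τ) s y.2))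
      fun y => δ * ph s D (· * ·) (ee q 1 y.1.1) (pext (frz q τ) s y.2)) := by
  have := kr_of_pow (k := k) hδ
  have hF := sem_FV (k := k) (q := q) (Ω := Ω) (ι := ι) (-1) fun _ => false
  have hS := hF.sF (-τ)
  have hT := sem_frs (k := k) (q := q) (Ω := Ω) τ
  have e1 : ∀ y : (Ecf Ω s D × (ZMod s → ι ⊕ ι → Ω)) × Cyp Ω s ι, pext (frz q τ) s (rsn s fun θ =>
      Bf (-1) (pext (FH q ι) s y.1.2 θ) (pext (sF (-τ) (FH q ι)) s y.2.2 θ)) = fun θ =>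
      Bf (-1) (pext (FH q ι) s y.1.2 θ) (pext (sF (-τ) (FH q ι)) s y.2.2 θ) := fun y =>
    (pe_SO4 k (pe_pext _ _) (pe_pext _ _)).pext_res
  have p1 : ∀ {p : (Ecf Ω s D × (ZMod s → ι ⊕ ι → Ω)) × Cyp Ω s ι → Prop} θ, Pq k p fun y =>
      Bf (-1) (pext (FH q ι) s y.1.2 θ) (pext (sF (-τ) (FH q ι)) s y.2.2 θ) := fun θ =>
    Pq.bf (-1) (Pq.pext hF.po hF.po' (Pq.snd (Pq.fst Pq.id)) θ)
      (Pq.pext hS.po hS.po' (Pq.snd (Pq.snd Pq.id)) θ)
  have p2 : ∀ {p : (Ecf Ω s D × (ZMod s → ι ⊕ ι → Ω)) × (ZMod s → Ω) → Prop} u v,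
      Pq k p fun x => ee q 1 x.1.1 u v := fun u v => (Pq.fst (Pq.fst Pq.id)).ee 1 u v
  have p3 : ∀ {p : (Ecf Ω s D × (ZMod s → ι ⊕ ι → Ω)) × (ZMod s → Ω) → Prop} u,
      Pq k p fun x => pext (frz q τ) s x.2 u := fun u => Pq.pext hT.po hT.po' (Pq.snd Pq.id) u
  have p4 : ∀ {p : (Ecf Ω s D × (ZMod s → ι ⊕ ι → Ω)) × (ZMod s → Ω) → Prop} u,
      Pq k p fun x => pext (FH q ι) s x.1.2 u := fun u =>
    Pq.pext hF.po hF.po' (Pq.snd (Pq.fst Pq.id)) u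
  refine h.as_iso
    (fun y => (y.1, rsn s fun θ =>
      Bf (-1) (pext (FH q ι) s y.1.2 θ) (pext (sF (-τ) (FH q ι)) s y.2.2 θ)))
    (fun x => (x.1, rsn s (fun θ => -Ew D (ee q 1 x.1.1) (pext (frz q τ) s x.2) θ),
      rsn s (Yl D R f (ee q 1 x.1.1) (pext (FH q ι) s x.1.2) (pext (frz q τ) s x.2))))
    ((Pq.fst Pq.id).mk (Pq.rsn p1))
    ((Pq.fst Pq.id).mk ((Pq.rsn fun u => (Pq.ev1 p2 p3 u).neg).mk (Pq.rsn fun θ =>
      Pq.yv p4 (Pq.pv p2 p4 θ) p3 (Pq.pv1 p2 p3 θ))))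
    (fun y hy => ?_) (fun x hx => ?_) (fun y hy => ?_) (fun x hx => ?_) ?_ hp
  · refine ⟨hy.1, fun u hu => ?_⟩
    simp only [e1]
    rw [show pext (FH q ι) s y.1.2 u = 0 from hy.1.acz u hu, Bf_zero_left]
  · obtain ⟨h1, h2⟩ := Ys.yl_per k hx.1 h3.toIs (pe_pext (frz q τ) x.2)
    refine ⟨hx.1, ?_⟩
    simp only [Wp]
    rw [h2.pext_res, Pe.pext_res h1]
    exact ⟨fun u hu => neg_eq_zero.2 (off_SO4 hx.1.am hx.1.se _ hu), Ys.yl_pa hx.1 h3 hc⟩
  · obtain ⟨h1, h2⟩ := Ys.yl_of_pa hy.1 h3 hc hy.2.2 hy.2.1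
    simp only [e1]
    refine Prod.ext rfl (Prod.ext ?_ ?_)
    · exact (congrArg (rsn s) (funext h2)).trans (res_pext _ _)
    · exact (congrArg (rsn s) h1).trans (res_pext _ _)
  · refine Prod.ext rfl ?_
    simp only [Pe.pext_res (Ys.yl_per k hx.1 h3.toIs (pe_pext (frz q τ) x.2)).1]
    exact (congrArg (rsn s) (funext (Ys.yl_z hx.1 h3 hx.2))).trans (res_pext _ _)
  · simp only [e1]
    refine Eqs.smul hδ ((eqs_line (fun u v => (Pq.fst (Pq.fst Pq.id)).ee 1 u v) p1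
      (fun y hy => hy.1.am) fun y _ => pe_SO4 k (pe_pext _ _) (pe_pext _ _)).trans
      (Eqs.of_eq fun y hy => sum_congr rfl fun v _ => ?_))
    have h1 := (Ys.yl_of_pa hy.1 h3 hc hy.2.2 hy.2.1).2 v
    have h2 := eq_sub_of_add_eq ((hy.2.2 v).trans (add_zero _)).symm
    simp only at h1 h2
    rw [h2, Bf_sub_left, Bf_smul_left, self_SO4, ← h1]
    ring

end Pool.Agent.CXD
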