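import Pool.Agent.P.MP_2ce3e7_ag.SO2

/-! Functions that are absorbed by the matrix. -/

set_option linter.unusedSectionVars false
set_option linter.unusedVariables false

open Function Matrix

noncomputable section

namespace Pool.Agent.CXD
open Finset

variable {k Ω : Type} [Field k] [Field Ω] [Algebra k Ω] {q : ℕ} {ε σ τ : ℤˣ} {s D : ℕ} [NeZero s]
  {R : ℤ → Prop} {f f' f₁ f₂ g : ℤ → ℤ} {ι n : Type} [Fintype ι] [Fintype n] {b : ι → Bool}
  {G : Gp Ω} {B : (n → Ω) → (n → Ω) → Ω} {F : Equiv.Perm (n → Ω)} {Q Q' : (ℤ → ℤ → Ω) → Prop}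
  {r θ : ℤ} {e : ℤ → ℤ → Ω} {κ δ : Ω} {α β : Type} [Af Ω α] [Af Ω β] [IsAlgClosed Ω] [Sq k q]

variable (k) in
/-- `χ` is a combination of products of meeting vectors -/
def Ab (q s D : ℕ) (p : β → Prop) (R : ℤ → Prop) (f : ℤ → ℤ) (z : β → ℤ → ι ⊕ ι → Ω)
    (χ : β → Ω) : Prop :=
  ∃ Δ : β → ℤ → ℤ → Ω, (∀ u v, Pq k p fun x => Δ x u v) ∧
    (∀ x, p x → Amx q (-1) s D (Δ x) ∧ Se (-1) R f (Δ x)) ∧
    Eqs k q p χ fun x => ph s D (Bf (-1)) (Δ x) (z x)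

/-- a combination of the vectors born before `θ` -/
def Nv {W : Type} [AddCommGroup W] [Module Ω W] (D : ℕ) (ν : ℤ → ℤ → Ω) (z : ℤ → W) (θ : ℤ) : W :=
  ∑ u ∈ Ioc (θ - D) θ, ν θ u • z u

variable {p : β → Prop} {z : β → ℤ → ι ⊕ ι → Ω} {χ χ' ψ : β → Ω}

theorem ph_add {W : Type} (B : W → W → Ω) (e e' : ℤ → ℤ → Ω) (x : ℤ → W) :
    ph s D B (e + e') x = ph s D B e x + ph s D B e' x := by
  rw [ph, ph, ph, ← sum_add_distrib]
  refine sum_congr rfl fun v _ => ?_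
  simp only [Pi.add_apply, add_mul, sum_add_distrib]
  ring

theorem Amx.add (k : Type) [Field k] [Algebra k Ω] [Sq k q] {e' : ℤ → ℤ → Ω} (h : Amx q ε s D e)
    (h' : Amx q ε s D e') : Amx q ε s D (e + e') := by
  refine ⟨fun u v => ?_, fun u v => ?_, fun u v huv => ?_⟩
  · simp only [Pi.add_apply]
    rw [h.sym u v, h'.sym u v, mul_add]
  · simp only [Pi.add_apply]
    rw [h.per, h'.per, (Sq.su : Su k q).add_pow]
    ring
  · simp only [Pi.add_apply]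
    rw [h.band u v huv, h'.band u v huv, add_zero]

theorem pext_add_SO6 (k : Type) [Field k] [Algebra k Ω] [Sq k q] (σ t : ℤˣ) (X Y : ZMod s → Ω)
    (u : ℤ) : pext (frz q σ) s (fun c => X c + sg t * Y c) u =
      pext (frz q σ) s X u + sg t * pext (frz q σ) s Y u := by
  have hp : Pe (frz q σ) s fun u => pext (frz q σ) s X u + sg t * pext (frz q σ) s Y u :=
    fun u => by
      beta_reduce
      rw [pe_pext, pe_pext, frs_apply k, frs_apply k, frs_apply k, (Sq.su : Su k q).add_pow,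
        mul_pow, sg_pow k]
      ring
  refine congrFun ((pe_pext _ _).ext' hp fun u h0 h1 => ?_) u
  simp only [pext_of_mem h0 h1]

theorem elo_add_SO6 (k : Type) [Field k] [Algebra k Ω] [Sq k q] (t : ℤˣ) (E E' : Ecf Ω s D)
    (u v : ℤ) : elo q ε (E + (sg t : Ω) • E') u v = elo q ε E u v + sg t * elo q ε E' u v := by
  simp only [elo]
  split_ifs with h
  · exact pext_add_SO6 k _ t (fun c => E c ⟨_, h⟩) (fun c => E' c ⟨_, h⟩) v
  · rw [mul_zero, add_zero]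

theorem ee_add_rse (k : Type) [Field k] [Algebra k Ω] [Sq k q] (E : Ecf Ω s D)
    (h : Amx q ε s D e) (t : ℤˣ) :
    ee q ε (E + (sg t : Ω) • rse s D e) = ee q ε E + (sg t : Ω) • e := by
  funext u v
  have h1 := congrFun (congrFun (h.ee_rse k) u) v
  simp only [Pi.add_apply, Pi.smul_apply, smul_eq_mul]
  rw [← h1]
  simp only [ee, elo_add_SO6 k]
  split_ifs
  · rfl
  · ring

theorem se_add_SO6 {e' : ℤ → ℤ → Ω} (h : Se ε R f e) (h' : Se ε R f e') : Se ε R f (e + e') :=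
  fun u v h1 h2 => by
    simp only [Pi.add_apply]
    rw [h u v h1 h2, h' u v h1 h2, add_zero]

theorem se_smul_SO6 (h : Se ε R f e) (t : Ω) : Se ε R f (t • e) :=
  fun u v h1 h2 => by
    simp only [Pi.smul_apply]
    rw [h u v h1 h2, smul_zero]

theorem amx_smul_SO6 (k : Type) [Field k] [Algebra k Ω] [Sq k q] (h : Amx q ε s D e) (t : ℤˣ) :
    Amx q ε s D ((sg t : Ω) • e) := by
  refine ⟨fun u v => ?_, fun u v => ?_, fun u v huv => ?_⟩
  · simp only [Pi.smul_apply, smul_eq_mul]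
    rw [h.sym u v, mul_left_comm]
  · simp only [Pi.smul_apply, smul_eq_mul]
    rw [h.per, mul_pow, sg_pow k]
    ring
  · simp only [Pi.smul_apply, smul_eq_mul]
    rw [h.band u v huv, mul_zero]

theorem Ab.add (h : Ab k q s D p R f z χ) (h' : Ab k q s D p R f z χ') :
    Ab k q s D p R f z fun x => χ x + χ' x := by
  obtain ⟨Δ, a1, a2, a3⟩ := h
  obtain ⟨Δ', b1, b2, b3⟩ := h'
  exact ⟨fun x => Δ x + Δ' x, fun u v => (a1 u v).add (b1 u v),
    fun x hx => ⟨(a2 x hx).1.add k (b2 x hx).1, se_add_SO6 (a2 x hx).2 (b2 x hx).2⟩,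
    (a3.add b3).trans (Eqs.of_eq fun x _ => (ph_add _ _ _ _).symm)⟩

theorem ab_zero_SO6 : Ab k q s D p R f z fun _ => 0 := by
  refine ⟨fun _ _ _ => 0, fun u v => Pq.const 0, fun x _ => ⟨⟨fun u v => (mul_zero _).symm,
    fun u v => ?_, fun _ _ _ => rfl⟩, fun _ _ _ _ => rfl⟩, Eqs.of_eq fun x _ => ?_⟩
  · rw [zero_pow (Sq.su : Su k q).pos.ne', mul_zero, neg_zero]
  · simp only [ph, zero_mul, sum_const_zero, mul_zero, add_zero]

theorem Ab.sum {T : Type} (S : Finset T) {χ : T → β → Ω} (h : ∀ i ∈ S, Ab k q s D p R f z (χ i)) :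
    Ab k q s D p R f z fun x => ∑ i ∈ S, χ i x := by
  classical
  induction S using Finset.induction_on with
  | empty => simpa only [sum_empty] using ab_zero_SO6
  | insert a S ha ih =>
    simpa only [sum_insert ha] using
      (h a (mem_insert_self _ _)).add (ih fun i hi => h i (mem_insert_of_mem hi))

theorem Ab.congr (h : Ab k q s D p R f z χ') (e : Eqs k q p χ χ') : Ab k q s D p R f z χ := by
  obtain ⟨Δ, a1, a2, a3⟩ := h
  exact ⟨Δ, a1, a2, e.trans a3⟩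

/-- the matrix with one diagonal -/
def dg_SO6 (t : ℤ → Ω) (d a u v : ℤ) : Ω :=
  if v - u = d then 2⁻¹ * t (v - a) else if u - v = d then -(2⁻¹ * t (u - a)) else 0

theorem ab_lt_SO6 (h2 : (2 : Ω) ≠ 0) (hi : Is s D R f) (hz : ∀ u, Pq k p fun x => z x u)
    (h1 : ∀ x, p x → Pe (FH q ι) s (z x)) {t : β → ℤ → Ω} (ht : ∀ u, Pq k p fun x => t x u)
    (h3 : ∀ x, p x → Pe (frq q) s (t x)) {a a' : ℤ} (ha : a < a')
    (h4 : ∀ x θ, p x → t x θ ≠ 0 → R (θ + a) ∧ R (θ + a') ∧ θ + a' ≤ f (θ + a)) :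
    Ab k q s D p R f z
      fun x => ∑ θ ∈ Ico (0 : ℤ) s, t x θ * Bf (-1) (z x (θ + a)) (z x (θ + a')) := by
  have hq : Su k q := Sq.su
  have e3 : (2⁻¹ : Ω) ^ q = 2⁻¹ := by rw [inv_pow, two_pow_eq k]
  have k1 : Kr k (2⁻¹ : Ω) := kr_of_pow e3
  have h5 : ∀ x u v, p x → u ≤ v → dg_SO6 (t x) (a' - a) a' u v ≠ 0 →
      v - u = a' - a ∧ R u ∧ R v ∧ v ≤ f u := fun x u v hx huv h => by
    rw [dg_SO6] at h
    split_ifs at h with c1 c2
    · have h6 := h4 x _ hx (right_ne_zero_of_mul h)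
      rw [show v - a' + a = u by omega, sub_add_cancel] at h6
      exact ⟨c1, h6⟩
    · omega
    · exact absurd rfl h
  refine ⟨fun x => dg_SO6 (t x) (a' - a) a', fun u v => Pq.ite _ ((Pq.const _).mul (ht _))
    (Pq.ite _ ((Pq.const _).mul (ht _)).neg (Pq.const 0)), fun x hx => ⟨⟨fun u v => ?_,
      fun u v => ?_, fun u v huv => ?_⟩, fun u v huv ho => ?_⟩, ?_⟩
  · simp only [dg_SO6]
    rw [sg_neg, sg_one]
    split_ifs
    · omega
    · ring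
    · ring
    · ring
  · simp only [dg_SO6, add_sub_add_right_eq_sub]
    rw [sg_neg, sg_one, neg_one_mul, neg_neg]
    split_ifs
    · rw [add_sub_right_comm, h3 x hx, fr_apply k, mul_pow, e3]
    · rw [add_sub_right_comm, h3 x hx, fr_apply k, hq.neg_pow, mul_pow, e3]
    · rw [zero_pow hq.pos.ne']
  · by_contra h
    have h6 := (h5 x u v hx (by omega) h).2.2.2
    have h7 := hi.hi u
    omega
  · by_contra h
    obtain ⟨c1, c2, c3, c4⟩ := h5 x u v hx huv h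
    exact ho ⟨c2, c3, c4, fun h6 => by omega⟩
  · refine (eqs_window s (τ := fun x θ => t x θ * Bf (-1) (z x (θ + a)) (z x (θ + a')))
      (fun u => (ht u).mul (Pq.bf _ (hz _) (hz _))) (fun x u hx => ?_) (-a')).symm.trans
      (Eqs.of_eq fun x hx => sum_congr rfl fun v _ => ?_)
    · rw [h3 x hx, fr_apply k, add_right_comm u _ a, add_right_comm u _ a', h1 x hx,
        h1 x hx, Bf_FV _ _ _ _ k, sg_neg, sg_one, mul_pow]
      ring
    · have h6 : dg_SO6 (t x) (a' - a) a' v v = 0 := by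
        rw [dg_SO6, if_neg (by omega), if_neg (by omega)]
      beta_reduce
      rw [h6, zero_mul, zero_add, sum_eq_single (v - (a' - a))]
      · rw [dg_SO6, if_pos (by omega), ← mul_assoc, ← mul_assoc, mul_inv_cancel₀ h2, one_mul,
          show v + -a' + a = v - (a' - a) by ring, show v + -a' + a' = v by ring,
          sub_eq_add_neg v a']
      · intro u hu h7
        have h8 := mem_Ico.1 hu
        rw [dg_SO6, if_neg (by omega), if_neg (by omega), zero_mul]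
      · intro h7
        rw [mem_Ico] at h7
        refine mul_eq_zero_of_left (by_contra fun h => ?_) _
        have h8 := (h5 x _ v hx (by omega) h).2.2.2
        have h9 := hi.hi (v - (a' - a))
        omega

theorem ab_elem (h2 : (2 : Ω) ≠ 0) (hi : Is s D R f) (hz : ∀ u, Pq k p fun x => z x u)
    (h1 : ∀ x, p x → Pe (FH q ι) s (z x)) {t : β → ℤ → Ω} (ht : ∀ u, Pq k p fun x => t x u)
    (h3 : ∀ x, p x → Pe (frq q) s (t x)) (a a' : ℤ)
    (h4 : ∀ x θ, p x → t x θ ≠ 0 → a ≠ a' → R (θ + a) ∧ R (θ + a') ∧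
      (a < a' → θ + a' ≤ f (θ + a)) ∧ (a' < a → θ + a ≤ f (θ + a'))) :
    Ab k q s D p R f z
      fun x => ∑ θ ∈ Ico (0 : ℤ) s, t x θ * Bf (-1) (z x (θ + a)) (z x (θ + a')) := by
  rcases lt_trichotomy a a' with h | rfl | h
  · exact ab_lt_SO6 h2 hi hz h1 ht h3 h fun x θ hx h5 =>
      ⟨(h4 x θ hx h5 h.ne).1, (h4 x θ hx h5 h.ne).2.1, (h4 x θ hx h5 h.ne).2.2.1 h⟩
  · refine ab_zero_SO6.congr (Eqs.of_eq fun x _ => sum_eq_zero fun θ _ => ?_)
    have h5 := Bf_comm (-1) (z x (θ + a)) (z x (θ + a))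
    rw [sg_neg, sg_one] at h5
    rw [(mul_eq_zero.1 (show 2 * Bf (-1) (z x (θ + a)) (z x (θ + a)) = 0 by
      linear_combination h5)).resolve_left h2, mul_zero]
  · refine (ab_lt_SO6 h2 hi hz h1 (t := fun x θ => -t x θ) (fun u => (ht u).neg)
      (fun x hx u => ?_) h fun x θ hx h5 => ?_).congr
      (Eqs.of_eq fun x _ => sum_congr rfl fun θ _ => ?_)
    · beta_reduce
      rw [h3 x hx, fr_apply k, fr_apply k, (Sq.su : Su k q).neg_pow]
    · have h6 := h4 x θ hx (neg_ne_zero.1 h5) h.ne'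
      exact ⟨h6.2.1, h6.1, h6.2.2.2 h⟩
    · rw [Bf_comm, sg_neg, sg_one]
      ring

theorem ab_prod_SO6 (h2 : (2 : Ω) ≠ 0) (hκ : κ ^ q = κ) (hi : Is s D R f)
    (hz : ∀ u, Pq k p fun x => z x u) (h1 : ∀ x, p x → Pe (FH q ι) s (z x)) {l m : β → ℤ → Ω}
    (hl : ∀ u, Pq k p fun x => l x u) (hm : ∀ u, Pq k p fun x => m x u)
    (h3 : ∀ x θ, p x → l x (θ + s) = sg σ * l x θ ^ q)
    (h3' : ∀ x θ, p x → m x (θ + s) = sg σ * m x θ ^ q) (a a' : ℤ)
    (h4 : ∀ x θ, p x → l x θ ≠ 0 → m x θ ≠ 0 → R (θ + a) ∧ R (θ + a') ∧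
      (a < a' → θ + a' ≤ f (θ + a)) ∧ (a' < a → θ + a ≤ f (θ + a'))) :
    Ab k q s D p R f z fun x => ∑ θ ∈ Ico (0 : ℤ) s,
      κ * (l x θ * m x θ) * Bf (-1) (z x (θ + a)) (z x (θ + a')) := by
  have k1 : Kr k κ := kr_of_pow hκ
  refine ab_elem h2 hi hz h1 (t := fun x θ => κ * (l x θ * m x θ))
    (fun u => (Pq.const κ).mul ((hl u).mul (hm u))) (fun x hx u => ?_) a a' fun x θ hx h5 _ =>
      h4 x θ hx (left_ne_zero_of_mul (right_ne_zero_of_mul h5))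
        (right_ne_zero_of_mul (right_ne_zero_of_mul h5))
  beta_reduce
  rw [h3 x u hx, h3' x u hx, fr_apply k, mul_pow, mul_pow, hκ]
  linear_combination κ * l x u ^ q * m x u ^ q * sg_mul_self (Ω := Ω) σ

theorem nv_SO6 {W : Type} [AddCommGroup W] [Module Ω W] (ν : ℤ → ℤ → Ω) (z : ℤ → W) (θ : ℤ) :
    Nv D ν z θ = ∑ d ∈ Ico (0 : ℤ) D, ν θ (θ + -d) • z (θ + -d) := by
  refine sum_nbij' (fun u => θ - u) (fun d => θ + -d) ?_ ?_ ?_ ?_ ?_
  · intro u hu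
    simp only [mem_Ioc, mem_Ico] at hu ⊢
    omega
  · intro u hu
    simp only [mem_Ioc, mem_Ico] at hu ⊢
    omega
  all_goals simp

theorem bf_sF_SO6 (k : Type) [Field k] [Algebra k Ω] [Sq k q] (x y : ι ⊕ ι → Ω) :
    Bf (-1) (sF σ (FH q ι) x) (sF σ (FH q ι) y) = -Bf (-1) x y ^ q := by
  rw [sF_apply, sF_apply, Bf_smul_left, Bf_smul_right, Bf_FV _ _ _ _ k, ← mul_assoc, sg_mul_self,
    one_mul, sg_neg, sg_one, neg_one_mul]

/-- moving jumps changes the area by an absorbed function -/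
theorem ab_move (h2 : (2 : Ω) ≠ 0) (hκ : κ ^ q = κ) (hi : Is s D R f) {c : β → ℤ → Ω}
    {Y : β → ℤ → ι ⊕ ι → Ω} {ν : β → ℤ → ℤ → Ω} (hz : ∀ u, Pq k p fun x => z x u)
    (hc : ∀ u, Pq k p fun x => c x u) (hY : ∀ u, Pq k p fun x => Y x u)
    (hν : ∀ θ u, Pq k p fun x => ν x θ u)
    (h1 : ∀ x, p x → Pe (FH q ι) s (z x) ∧ Pe (frz q σ) s (c x) ∧ Pe (sF σ (FH q ι)) s (Y x) ∧
      Acz R (c x) ∧ Pa (c x) (z x) (Y x) 0)
    (h3 : ∀ x θ u, p x → ν x (θ + s) (u + s) = sg σ * ν x θ u ^ q)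
    (h4 : ∀ x θ u, p x → u ≤ θ → ν x θ u ≠ 0 → R u ∧ θ < f u) :
    Ab k q s D p R f z fun x =>
      κ * Ps s (Bf (-1)) (Y x + Nv D (ν x) (z x)) - κ * Ps s (Bf (-1)) (Y x) := by
  have k1 : Kr k κ := kr_of_pow hκ
  have hκ' : (-κ) ^ q = -κ := by rw [(Sq.su : Su k q).neg_pow, hκ]
  have hF : Sem k q (FH q ι : Equiv.Perm (ι ⊕ ι → Ω)) := sem_FV _ _
  have g1 : ∀ x, p x → Pe (FH q ι) s (z x) := fun x hx => (h1 x hx).1
  have g2 : ∀ x θ, p x → c x (θ + s) = sg σ * c x θ ^ q := fun x θ hx => by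
    rw [(h1 x hx).2.1, frs_apply k]
  have g3 : ∀ d x θ, p x → ν x (θ + s) (θ + s + -d) = sg σ * ν x θ (θ + -d) ^ q :=
    fun d x θ hx => by rw [add_right_comm θ, h3 x _ _ hx]
  have g4 : ∀ x θ, p x → c x θ ≠ 0 → R θ := fun x θ hx h => by_contra fun h' =>
    h ((h1 x hx).2.2.2.1 θ h')
  have hN : ∀ u, Pq k p fun x => Nv D (ν x) (z x) u := fun u =>
    Pq.vsum _ fun v => (hν u v).vsmul (hz v)
  have pN : ∀ x, p x → Pe (sF σ (FH q ι)) s (Nv D (ν x) (z x)) := fun x hx θ => by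
    rw [nv_SO6, nv_SO6, sF_apply, hF.sum, smul_sum]
    refine sum_congr rfl fun d _ => ?_
    rw [g3 d x θ hx, add_right_comm θ, g1 x hx, hF.smul, mul_smul]
  have A1 := Ab.sum (Ico (0 : ℤ) D) fun d hd => ab_prod_SO6 (σ := σ) h2 hκ' hi hz g1 hc
    (m := fun x θ => ν x θ (θ + -d)) (fun u => hν _ _) g2 (g3 d) 0 (-d) fun x θ hx c1 c2 => by
      have h5 := (mem_Ico.1 hd).1
      have h6 := h4 x θ _ hx (by omega) c2
      rw [add_zero]
      exact ⟨g4 x θ hx c1, h6.1, fun h => by omega, fun _ => h6.2.le⟩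
  have A2 := Ab.sum (Ico (0 : ℤ) D) fun d hd => ab_prod_SO6 (σ := σ) h2 hκ' hi hz g1
    (l := fun x θ => c x (θ + 1)) (fun u => hc _)
    (m := fun x θ => ν x θ (θ + -d)) (fun u => hν _ _)
    (fun x θ hx => by rw [add_right_comm θ, g2 x _ hx]) (g3 d) 1 (-d) fun x θ hx c1 c2 => by
      have h5 := (mem_Ico.1 hd).1
      have h6 := h4 x θ _ hx (by omega) c2
      exact ⟨g4 x _ hx c1, h6.1, fun h => by omega, fun _ => h6.2⟩
  have A3 := Ab.sum (Ico (0 : ℤ) D) fun d hd => Ab.sum (Ico (0 : ℤ) D) fun d' hd' =>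
    ab_prod_SO6 (σ := σ) h2 hκ hi hz g1
    (l := fun x θ => ν x (θ - 1) (θ - 1 + -d)) (fun u => hν _ _)
    (m := fun x θ => ν x θ (θ + -d')) (fun u => hν _ _)
    (fun x θ hx => by rw [add_sub_right_comm, g3 d x _ hx]) (g3 d') (-1 + -d) (-d')
    fun x θ hx c1 c2 => by
      have h5 := (mem_Ico.1 hd).1
      have h5' := (mem_Ico.1 hd').1
      have h6 := h4 x _ _ hx (by omega) c1
      have h7 := h4 x θ _ hx (by omega) c2
      rw [show θ + (-1 + -d) = θ - 1 + -d by ring]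
      exact ⟨h6.1, h7.1, fun h => by omega, fun _ => by omega⟩
  have w := eqs_window (k := k) (q := q) (p := p) s
    (τ := fun x θ => κ * Bf (-1) (Nv D (ν x) (z x) (θ - 1)) (Y x θ))
    (fun u => (Pq.const κ).mul (Pq.bf _ (hN _) (hY _))) (fun x u hx => by
      rw [add_sub_right_comm, pN x hx, (h1 x hx).2.2.1, bf_sF_SO6 k, mul_pow, hκ, mul_neg]) 1
  refine ((A1.add A2).add A3).congr ((Eqs.of_eq fun x hx => ?_).trans
    (((Eqs.refl (ψ := fun x => ∑ θ ∈ Ico (0 : ℤ) s,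
      (κ * Bf (-1) (Y x (θ - 1)) (Nv D (ν x) (z x) θ) +
        κ * Bf (-1) (Nv D (ν x) (z x) (θ - 1)) (Nv D (ν x) (z x) θ)))).add w.symm).trans
      (Eqs.of_eq fun x hx => ?_)))
  · rw [Ps, Ps, mul_sum, mul_sum, ← sum_sub_distrib, ← sum_add_distrib]
    refine sum_congr rfl fun θ _ => ?_
    rw [Pi.add_apply, Pi.add_apply, Bf_add_left, Bf_add_right, Bf_add_right]
    ring
  · have e1 : ∀ F : ℤ → ℤ → Ω, ∑ d ∈ Ico (0 : ℤ) D, ∑ θ ∈ Ico (0 : ℤ) s, F d θ =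
        ∑ θ ∈ Ico (0 : ℤ) s, ∑ d ∈ Ico (0 : ℤ) D, F d θ := fun F => sum_comm
    simp only [e1]
    rw [← sum_add_distrib, ← sum_add_distrib, ← sum_add_distrib]
    refine sum_congr rfl fun θ _ => ?_
    have p1 := (h1 x hx).2.2.2.2 θ
    have p2 := (h1 x hx).2.2.2.2 (θ + 1)
    rw [add_sub_cancel_right, p1, Pi.zero_apply, Pi.zero_apply, add_zero, add_zero] at p2
    have e2 : ∀ (u : ℤ) (t : Ω), ∑ d ∈ Ico (0 : ℤ) D,
        -κ * (t * ν x θ (θ + -d)) * Bf (-1) (z x u) (z x (θ + -d)) =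
          -κ * t * Bf (-1) (z x u) (Nv D (ν x) (z x) θ) := fun u t => by
      rw [nv_SO6, Bf_sum_right, mul_sum]
      refine sum_congr rfl fun d _ => ?_
      rw [Bf_smul_right]
      ring
    have e3 : ∑ d ∈ Ico (0 : ℤ) D, ∑ d' ∈ Ico (0 : ℤ) D,
        κ * (ν x (θ - 1) (θ - 1 + -d) * ν x θ (θ + -d')) *
          Bf (-1) (z x (θ + (-1 + -d))) (z x (θ + -d')) =
        κ * Bf (-1) (Nv D (ν x) (z x) (θ - 1)) (Nv D (ν x) (z x) θ) := by
      rw [nv_SO6, nv_SO6, Bf_sum_left, mul_sum]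
      refine sum_congr rfl fun d _ => ?_
      rw [Bf_sum_right, mul_sum]
      refine sum_congr rfl fun d' _ => ?_
      rw [Bf_smul_left, Bf_smul_right, show θ + (-1 + -d) = θ - 1 + -d by ring]
      ring
    rw [e2, e2, e3, add_sub_cancel_right, add_zero, Bf_comm _ (Y x (θ + 1)), p2, Bf_add_left,
      Bf_add_left, Bf_smul_left, Bf_smul_left, sg_neg, sg_one]
    ring

theorem Au.absorb (h : Au k q G) (hab : Ab k q s D p R f' z χ) (hle : ∀ u, R u → f' u ≤ f u)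
    (hQ : ∀ e Δ, Amx q (-1) s D Δ → Se (-1) R f' Δ → (Q (e + Δ) ↔ Q e))
    (hp : Gy k G (AS q (fun y : Ecf Ω s D × β =>
      (Se (-1) R f (ee q (-1) y.1) ∧ Q (ee q (-1) y.1)) ∧ p y.2)
      fun y => ph s D (Bf (-1)) (ee q (-1) y.1) (z y.2) + ψ y.2)) :
    Gy k G (AS q (fun y : Ecf Ω s D × β =>
      (Se (-1) R f (ee q (-1) y.1) ∧ Q (ee q (-1) y.1)) ∧ p y.2)
      fun y => ph s D (Bf (-1)) (ee q (-1) y.1) (z y.2) + ψ y.2 + χ y.2) := by
  obtain ⟨Δ, a1, a2, a3⟩ := hab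
  have key : ∀ (t : ℤˣ) (y : Ecf Ω s D × β),
      (Se (-1) R f (ee q (-1) y.1) ∧ Q (ee q (-1) y.1)) ∧ p y.2 →
      (Se (-1) R f (ee q (-1) (y.1 + (sg t : Ω) • rse s D (Δ y.2))) ∧
        Q (ee q (-1) (y.1 + (sg t : Ω) • rse s D (Δ y.2)))) ∧ p y.2 := fun t y hy => by
    rw [ee_add_rse k _ (a2 _ hy.2).1]
    exact ⟨⟨se_add_SO6 hy.1.1 (se_smul_SO6 ((a2 _ hy.2).2.mono hle) _),
      (hQ _ _ (amx_smul_SO6 k (a2 _ hy.2).1 t) (se_smul_SO6 (a2 _ hy.2).2 _)).2 hy.1.2⟩, hy.2⟩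
  have hP : ∀ t : ℤˣ, Pq k (fun y : Ecf Ω s D × β =>
      (Se (-1) R f (ee q (-1) y.1) ∧ Q (ee q (-1) y.1)) ∧ p y.2)
      fun y => (y.1 + (sg t : Ω) • rse s D (Δ y.2), y.2) := fun t =>
    Pq.mk (Pq.pi fun c => Pq.pi fun j => (((Pq.fst Pq.id).eval c).eval j).add
      ((Pq.const (sg t)).mul ((a1 _ _).pull (Pq.snd Pq.id) fun y hy => hy.2))) (Pq.snd Pq.id)
  refine h.as_congr (Eqs.refl.add (a3.pull (Pq.snd Pq.id) fun y hy => hy.2))
    (h.as_iso _ _ (hP (-1)) (hP 1) (key (-1)) (key 1) (fun y _ => ?_) (fun y _ => ?_)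
      (Eqs.of_eq fun y hy => ?_) hp)
  · simp only [sg_neg, sg_one, neg_smul, neg_add_cancel_right]
  · simp only [sg_neg, sg_one, neg_smul, add_neg_cancel_right]
  · rw [add_right_comm, ← ph_add, ee_add_rse k _ (a2 _ hy.2).1, sg_neg, sg_one, neg_one_smul,
      neg_add_cancel_right]

end Pool.Agent.CXD
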