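import Pool.Agent.P.MP_2ce3e7_ag.SO6

/-! Extra jumps. -/

set_option linter.unusedSectionVars false
set_option linter.unusedVariables false

open Function Matrix

noncomputable section

namespace Pool.Agent.CXD
open Finset

variable {k Ω : Type} [Field k] [Field Ω] [Algebra k Ω] {q : ℕ} {ε σ τ : ℤˣ} {s D : ℕ} [NeZero s]
  {R : ℤ → Prop} {f f' f₁ f₂ g : ℤ → ℤ} {ι n : Type} [Fintype ι] [Fintype n] {b : ι → Bool}
  {G : Gp Ω} {B : (n → Ω) → (n → Ω) → Ω} {F : Equiv.Perm (n → Ω)} {Q Q' : (ℤ → ℤ → Ω) → Prop}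
  {r θ : ℤ} {e : ℤ → ℤ → Ω} {κ δ : Ω} {α β : Type} [Af Ω α] [Af Ω β] [IsAlgClosed Ω] [Sq k q]

/-- extra jumps along earlier vectors -/
def Jv {W : Type} [AddCommGroup W] [Module Ω W] (D : ℕ) (m : ℤ → ℤ → Ω) (z : ℤ → W) (θ : ℤ) : W :=
  ∑ u ∈ Ico (θ - D) θ, m u θ • z u

/-- the jumps still to come -/
def nug (D : ℕ) (m : ℤ → ℤ → Ω) (θ u : ℤ) : Ω := -∑ w ∈ Ioc θ (u + D), m u w

/-- the base with extra jumps -/
def Lj (q : ℕ) (σ : ℤˣ) (s D : ℕ) (R : ℤ → Prop) (f : ℤ → ℤ) (Q : (ℤ → ℤ → Ω) → Prop)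
    (m : ℤ → ℤ → Ω) (y : (Ecf Ω s D × (ZMod s → ι ⊕ ι → Ω)) × Cyp Ω s ι) : Prop :=
  Tb q (-1) (FH q ι) s D R f f Q y.1 ∧ Acz R (pext (frz q σ) s y.2.1) ∧
    Pa (pext (frz q σ) s y.2.1) (pext (FH q ι) s y.1.2) (pext (sF σ (FH q ι)) s y.2.2)
      (Jv D m (pext (FH q ι) s y.1.2))

/-- the function of the variety with a path -/
abbrev Lf (q : ℕ) (σ : ℤˣ) (κ : Ω) (s D : ℕ) :
    (Ecf Ω s D × (ZMod s → ι ⊕ ι → Ω)) × Cyp Ω s ι → Ω :=
  Df q (-1) (Bf (-1)) (FH q ι) s D (Xp q σ κ s)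

theorem nv_step_SO7 {W : Type} [AddCommGroup W] [Module Ω W] (m : ℤ → ℤ → Ω) (z : ℤ → W) (θ : ℤ) :
    Nv D (nug D m) z θ = Nv D (nug D m) z (θ - 1) + nug D m θ θ • z θ + Jv D m z θ := by
  have h0 : θ - D ≤ θ := by omega
  have e1 : Nv D (nug D m) z θ = ∑ u ∈ Icc (θ - D) θ, nug D m θ u • z u := by
    rw [← add_sum_Ioc_eq_sum_Icc h0, nug, sub_add_cancel, Ioc_self, sum_empty, neg_zero, zero_smul,
      zero_add, Nv]
  have e2 : Ioc (θ - 1 - D) (θ - 1) = Ico (θ - D) θ := by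
    ext u
    simp only [mem_Ioc, mem_Ico]
    omega
  rw [e1, ← sum_Ico_add_eq_sum_Icc h0, Nv, Jv, e2, add_right_comm, ← sum_add_distrib]
  congr 1
  refine sum_congr rfl fun u hu => ?_
  have e3 : Ioc (θ - 1) (u + D) = insert θ (Ioc θ (u + D)) := by
    have := mem_Ico.1 hu
    ext v
    simp only [mem_insert, mem_Ioc]
    omega
  rw [← add_smul, nug, nug, e3, sum_insert (by simp)]
  congr 1
  ring

theorem pa_jump {W : Type} [AddCommGroup W] [Module Ω W] (m : ℤ → ℤ → Ω) (c : ℤ → Ω)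
    (z Y : ℤ → W) :
    Pa (fun θ => c θ + nug D m θ θ) z (Y + Nv D (nug D m) z) (Jv D m z) ↔ Pa c z Y 0 := by
  refine forall_congr' fun θ => ?_
  rw [Pi.add_apply, Pi.add_apply, nv_step_SO7 m z θ, add_smul, Pi.zero_apply, add_zero]
  constructor
  · intro h
    linear_combination (norm := module) h
  · intro h
    linear_combination (norm := module) h

theorem pext_add_SO7 {γ : Type} [Af Ω γ] [AddCommGroup γ] [Module Ω γ] {F : Equiv.Perm γ}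
    (hF : Sem k q F) {x : ℤ → γ} (hx : Pe F s x) (X : ZMod s → γ) :
    pext F s (X + rsn s x) = pext F s X + x :=
  (pe_pext F _).ext' (fun u => by rw [Pi.add_apply, Pi.add_apply, hF.add, pe_pext F X, hx])
    fun u h0 h1 => by
      rw [Pi.add_apply, pext_of_mem h0 h1, pext_of_mem h0 h1, Pi.add_apply, res_cast x h0 h1]

theorem nug_ne_SO7 {m : ℤ → ℤ → Ω} {θ u : ℤ} (h : nug D m θ u ≠ 0) : ∃ w, θ < w ∧ m u w ≠ 0 := by
  obtain ⟨w, hw, h1⟩ := exists_ne_zero_of_sum_ne_zero (neg_ne_zero.1 h)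
  exact ⟨w, (mem_Ioc.1 hw).1, h1⟩

theorem nug_per_SO7 (k : Type) [Field k] [Algebra k Ω] [Sq k q] {m : ℤ → ℤ → Ω}
    (h : ∀ u w, m (u + s) (w + s) = sg σ * m u w ^ q) (θ u : ℤ) :
    nug D m (θ + s) (u + s) = sg σ * nug D m θ u ^ q := by
  rw [nug, nug, add_right_comm u, ← map_add_right_Ioc, sum_map, (Sq.su : Su k q).neg_pow,
    (Sq.su : Su k q).sum_pow, mul_neg, mul_sum]
  exact congrArg _ (sum_congr rfl fun w _ => h u w)

theorem nv_per_SO7 (hF : Sem k q F) {ν : ℤ → ℤ → Ω} {z : ℤ → n → Ω}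
    (h : ∀ θ u, ν (θ + s) (u + s) = sg σ * ν θ u ^ q) (hz : Pe F s z) :
    Pe (sF σ F) s (Nv D ν z) := by
  intro θ
  rw [sF_apply, Nv, Nv, add_sub_right_comm, ← map_add_right_Ioc, sum_map, hF.sum, smul_sum]
  refine sum_congr rfl fun u _ => ?_
  rw [addRightEmbedding_apply, h, hz, hF.smul, mul_smul]

theorem Au.jump (h : Au k q G) (h2 : (2 : Ω) ≠ 0) (hκ : κ ^ q = κ) (hi' : Is s D R f')
    (hle : ∀ u, R u → f' u ≤ f u)
    (hQ : ∀ e Δ, Amx q (-1) s D Δ → Se (-1) R f' Δ → (Q (e + Δ) ↔ Q e)) {p : α → Prop}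
    {ψ : α → Ω} (A : Set (ZMod s)) {m : α → (ZMod s → Ω) → ℤ → ℤ → Ω}
    (hm : ∀ u w, Pq k (fun y : α × (ZMod s → Ω) => p y.1) fun y => m y.1 y.2 u w)
    (h1 : ∀ x C u w, p x → m x C (u + s) (w + s) = sg σ * m x C u w ^ q)
    (h3 : ∀ x C u w, p x → u < w → m x C u w ≠ 0 → R u ∧ w ≤ f' u ∧ (u : ZMod s) ∈ A)
    (h4 : ∀ x C C', (∀ a, a ∉ A → C a = C' a) → m x C = m x C')
    (hp : Gy k G (AS q (fun y : ((Ecf Ω s D × (ZMod s → ι ⊕ ι → Ω)) × Cyp Ω s ι) × α =>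
      Db q (-1) (FH q ι) s D R f f Q (Wp q σ s R) y.1 ∧ p y.2)
      fun y => Lf q σ κ s D y.1 + ψ y.2)) :
    Gy k G (AS q (fun y : ((Ecf Ω s D × (ZMod s → ι ⊕ ι → Ω)) × Cyp Ω s ι) × α =>
      Lj q σ s D R f Q (m y.2 y.1.2.1) y.1 ∧ p y.2) fun y => Lf q σ κ s D y.1 + ψ y.2) := by
  have hF : Sem k q (FH q ι : Equiv.Perm (ι ⊕ ι → Ω)) := sem_FV (-1) _
  have hS := hF.sF σ
  have hC : Sem k q (frz q σ : Equiv.Perm Ω) := sem_frs σ
  have n1 : ∀ x C θ u, p x → nug D (m x C) (θ + s) (u + s) = sg σ * nug D (m x C) θ u ^ q :=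
    fun x C θ u hx => nug_per_SO7 k (fun u w => h1 x C u w hx) θ u
  have n2 : ∀ x C θ u, p x → u ≤ θ → nug D (m x C) θ u ≠ 0 →
      R u ∧ θ < f' u ∧ (u : ZMod s) ∈ A := fun x C θ u hx hu hn => by
    obtain ⟨w, hw, h5⟩ := nug_ne_SO7 hn
    obtain ⟨a, b, c⟩ := h3 x C u w hx (by omega) h5
    exact ⟨a, by omega, c⟩
  have n3 : ∀ x C, p x → Pe (frz q σ) s fun θ => nug D (m x C) θ θ := fun x C hx θ =>
    (n1 x C θ θ hx).trans (frs_apply k σ _).symm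
  have n4 : ∀ x C (Z : ZMod s → ι ⊕ ι → Ω), p x →
      Pe (sF σ (FH q ι)) s (Nv D (nug D (m x C)) (pext (FH q ι) s Z)) := fun x C Z hx =>
    nv_per_SO7 hF (fun θ u => n1 x C θ u hx) (pe_pext _ Z)
  have n5 : ∀ x C a, p x → a ∉ A → rsn s (fun θ => nug D (m x C) θ θ) a = 0 :=
    fun x C a hx ha => by_contra fun hn => ha (by simpa using (n2 x C _ _ hx le_rfl hn).2.2)
  have n6 : ∀ x C, p x → m x (C + rsn s fun θ => nug D (m x C) θ θ) = m x C := fun x C hx =>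
    h4 x _ _ fun a ha => by rw [Pi.add_apply, n5 x C a hx ha, add_zero]
  have n7 : ∀ x C, p x → m x (C - rsn s fun θ => nug D (m x C) θ θ) = m x C := fun x C hx =>
    h4 x _ _ fun a ha => by rw [Pi.sub_apply, n5 x C a hx ha, sub_zero]
  have n8 : ∀ x C θ, p x → ¬R θ → nug D (m x C) θ θ = 0 := fun x C θ hx hr =>
    by_contra fun hn => hr (n2 x C θ θ hx le_rfl hn).1
  have pν : ∀ {γ : Type} [Af Ω γ] {P : γ → Prop} {x : γ → α} {C : γ → ZMod s → Ω}, Pq k P x →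
      Pq k P C → (∀ y, P y → p (x y)) → ∀ θ u, Pq k P fun y => nug D (m (x y) (C y)) θ u :=
    fun hx hC hP θ u => (Pq.sum _ fun w => (hm u w).pull (hx.mk hC) hP).neg
  have pN : ∀ {γ : Type} [Af Ω γ] {P : γ → Prop} {x : γ → α} {C : γ → ZMod s → Ω}
      {Z : γ → ZMod s → ι ⊕ ι → Ω}, Pq k P x → Pq k P C → Pq k P Z → (∀ y, P y → p (x y)) →
      ∀ θ, Pq k P fun y => Nv D (nug D (m (x y) (C y))) (pext (FH q ι) s (Z y)) θ :=
    fun hx hC hZ hP θ => Pq.vsum _ fun u => (pν hx hC hP θ u).vsmul (Pq.pext hF.po hF.po' hZ u)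
  let P : ((ZMod s → ι ⊕ ι → Ω) × Cyp Ω s ι) × α → Prop := fun y =>
    (Acz R (pext (FH q ι) s y.1.1) ∧ Ci Ω R f (pext (FH q ι) s y.1.1) ∧ Wp q σ s R y.1) ∧ p y.2
  have hab := ab_move (k := k) (D := D) (p := P) (R := R) (f := f') (σ := σ)
    (z := fun y => pext (FH q ι) s y.1.1) h2 hκ hi' (c := fun y => pext (frz q σ) s y.1.2.1)
    (Y := fun y => pext (sF σ (FH q ι)) s y.1.2.2) (ν := fun y => nug D (m y.2 y.1.2.1))
    (fun u => Pq.pext hF.po hF.po' (Pq.fst (Pq.fst Pq.id)) u)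
    (fun u => Pq.pext hC.po hC.po' (Pq.fst (Pq.snd (Pq.fst Pq.id))) u)
    (fun u => Pq.pext hS.po hS.po' (Pq.snd (Pq.snd (Pq.fst Pq.id))) u)
    (pν (Pq.snd Pq.id) (Pq.fst (Pq.snd (Pq.fst Pq.id))) fun _ hy => hy.2)
    (fun y hy => ⟨pe_pext _ _, pe_pext _ _, pe_pext _ _, hy.1.2.2.1, hy.1.2.2.2⟩)
    (fun y θ u hy => n1 _ _ θ u hy.2)
    fun y θ u hy hu hn => ⟨(n2 _ _ θ u hy.2 hu hn).1, (n2 _ _ θ u hy.2 hu hn).2.1⟩
  have s1 := h.absorb (ψ := fun y => Xp q σ κ s y.1 + ψ y.2) hab hle hQ (by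
    refine h.as_iso (fun y : ((Ecf Ω s D × (ZMod s → ι ⊕ ι → Ω)) × Cyp Ω s ι) × α =>
      (y.1.1.1, (y.1.1.2, y.1.2), y.2)) (fun y => (((y.1, y.2.1.1), y.2.1.2), y.2.2))
      ?_ ?_ ?_ ?_ (fun _ _ => rfl) (fun _ _ => rfl) (Eqs.of_eq fun y _ => ?_) hp
    · fun_prop
    · fun_prop
    · exact fun y hy => ⟨⟨hy.1.1.1, hy.1.1.2.2.2⟩, ⟨hy.1.1.2.1, hy.1.1.2.2.1, hy.1.2⟩, hy.2⟩
    · exact fun y hy => ⟨⟨⟨hy.1.1, hy.2.1.1, hy.2.1.2.1, hy.1.2⟩, hy.2.1.2.2⟩, hy.2.2⟩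
    · simp only [Df, Tf, add_assoc])
  refine h.as_iso
    (fun y : Ecf Ω s D × ((ZMod s → ι ⊕ ι → Ω) × Cyp Ω s ι) × α => (((y.1, y.2.1.1),
      y.2.1.2.1 + rsn s fun θ => nug D (m y.2.2 y.2.1.2.1) θ θ,
      y.2.1.2.2 + rsn s (Nv D (nug D (m y.2.2 y.2.1.2.1)) (pext (FH q ι) s y.2.1.1))), y.2.2))
    (fun y => (y.1.1.1, (y.1.1.2, y.1.2.1 - rsn s fun θ => nug D (m y.2 y.1.2.1) θ θ,
      y.1.2.2 - rsn s (Nv D (nug D (m y.2 y.1.2.1)) (pext (FH q ι) s y.1.1.2))), y.2))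
    ?_ ?_ ?_ ?_ ?_ ?_ (Eqs.of_eq ?_) s1
  · refine Pq.mk (Pq.mk (by fun_prop) (Pq.mk (Pq.vadd (by fun_prop) (Pq.rsn fun u =>
      pν (by fun_prop) (by fun_prop) (fun _ hy => hy.2.2) u u)) (Pq.pi fun a =>
      Pq.vadd (Pq.eval (by fun_prop) a)
        (pN (by fun_prop) (by fun_prop) (by fun_prop) (fun _ hy => hy.2.2) _)))) (by fun_prop)
  · refine Pq.mk (by fun_prop) (Pq.mk (Pq.mk (by fun_prop) (Pq.mk (Pq.vsub (by fun_prop)
      (Pq.rsn fun u => pν (by fun_prop) (by fun_prop) (fun _ hy => hy.2) u u)) (Pq.pi fun a =>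
      Pq.vsub (Pq.eval (by fun_prop) a)
        (pN (by fun_prop) (by fun_prop) (by fun_prop) (fun _ hy => hy.2) _)))) (by fun_prop))
  · rintro ⟨E, ⟨Z, C, Y⟩, x⟩ ⟨⟨a1, a2⟩, ⟨a3, a4, a5, a6⟩, hx⟩
    refine ⟨⟨⟨a1, a3, a4, a2⟩, ?_⟩, hx⟩
    dsimp only at hx ⊢
    rw [n6 x C hx, pext_add_SO7 hC (n3 x C hx), pext_add_SO7 hS (n4 x C Z hx)]
    exact ⟨fun θ hθ => by rw [Pi.add_apply, a5 θ hθ, n8 x C θ hx hθ, add_zero],
      (pa_jump (m x C) (pext (frz q σ) s C) _ _).2 a6⟩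
  · rintro ⟨⟨⟨E, Z⟩, C, Y⟩, x⟩ ⟨⟨⟨a1, a3, a4, a2⟩, a5, a6⟩, hx⟩
    refine ⟨⟨a1, a2⟩, ⟨a3, a4, ?_⟩, hx⟩
    dsimp only at hx a5 a6
    have b1 := pext_add_SO7 hC (n3 x C hx) (C - rsn s fun θ => nug D (m x C) θ θ)
    have b2 := pext_add_SO7 hS (n4 x C Z hx)
      (Y - rsn s (Nv D (nug D (m x C)) (pext (FH q ι) s Z)))
    rw [sub_add_cancel] at b1 b2
    rw [b1] at a5
    rw [b1, b2] at a6
    refine ⟨fun θ hθ => ?_, (pa_jump (m x C) _ _ _).1 a6⟩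
    have b3 := a5 θ hθ
    rwa [Pi.add_apply, n8 x C θ hx hθ, add_zero] at b3
  · rintro ⟨E, ⟨Z, C, Y⟩, x⟩ ⟨-, -, hx⟩
    dsimp only at hx ⊢
    rw [n6 x C hx, add_sub_cancel_right, add_sub_cancel_right]
  · rintro ⟨⟨⟨E, Z⟩, C, Y⟩, x⟩ ⟨-, hx⟩
    dsimp only at hx ⊢
    rw [n7 x C hx, sub_add_cancel, sub_add_cancel]
  · rintro ⟨E, ⟨Z, C, Y⟩, x⟩ ⟨-, -, hx⟩
    dsimp only [Lf, Df, Tf, Xp] at hx ⊢
    rw [pext_add_SO7 hS (n4 x C Z hx)]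
    ring

variable {j : ℤ}

theorem pa_opx_SO7 {W : Type} [AddCommGroup W] [Module Ω W] (h0 : 0 < j) (h1 : j ≤ D)
    (c t : ℤ → Ω) (z Y : ℤ → W) :
    Pa c z Y (Jv D (fun u w => if w = u + j then c w * t w else 0) z) ↔
      Pa c (opx j t z) Y 0 := by
  refine forall_congr' fun θ => ?_
  rw [Jv, sum_eq_single_of_mem (θ - j) (mem_Ico.2 ⟨by omega, by omega⟩) fun u _ hu => by
    rw [if_neg (by omega), zero_smul], if_pos (by ring), opx, Pi.zero_apply, add_zero, smul_add,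
    smul_smul, add_assoc]

theorem Au.gp_clr (h : Au k q G) (h2 : (2 : Ω) ≠ 0) (hκ : κ ^ q = κ) (hi : Is s D R f)
    (ho : Opd s R f r j) (hf : f (r - j) = f r) (hr : r < f r)
    (hp : GP k G q σ κ ι s D R f f fun e => e r (f r) ≠ 0 ∧ e (r - j) (f r) = 0) :
    GP k G q σ κ ι s D R f f fun e => e r (f r) ≠ 0 := by
  have hF : Fo k q (-1) (Bf (-1) : (ι ⊕ ι → Ω) → _) (FH q ι) := fd_bf (-1) _
  have hC : Sem k q (frz q σ : Equiv.Perm Ω) := sem_frs σ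
  have hj := ho.pos
  have hD : j ≤ D := by have := hi.hi (r - j); omega
  have l1 : low s f r (r - j) = f r := by rw [low, if_neg ho.nd, hf]
  have l2 : low s (low s f r) (r - j) (r - j) = f r - 1 := by rw [low, if_pos rfl, l1]
  have l3 : low s (low s f r) (r - j) r = f r - 1 := by
    rw [low, if_neg ho.nd.symm, low, if_pos rfl]
  have hi' : Is s D R (low s (low s f r) (r - j)) := (hi.low hr.le).low (by omega)
  have s1 := h.jump (α := Ω) (p := fun _ => True) (ψ := fun _ => 0) (f := f) h2 hκ hi'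
    (fun u _ => (low_le _ _ _).trans (low_le _ _ _))
    (Q := fun e => e r (f r) ≠ 0 ∧ e (r - j) (f r) = 0) (fun e Δ _ hs => by
      rw [Pi.add_apply, Pi.add_apply, Pi.add_apply, Pi.add_apply,
        hs r (f r) hr.le fun c => by have := c.2.2.1; omega,
        hs (r - j) (f r) (by omega) fun c => by have := c.2.2.1; omega, add_zero, add_zero])
    {((r - j : ℤ) : ZMod s)}
    (m := fun t C u w => if w = u + j then pext (frz q σ) s C w * tws q s r t w else 0)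
    (fun u w => Pq.ite _ ((Pq.pext hC.po hC.po' (Pq.snd Pq.id) w).mul ((Pq.fst Pq.id).tws r w))
      (Pq.const 0))
    (fun t C u w _ => by
      by_cases c : w = u + j
      · rw [if_pos c, if_pos (by omega), pe_pext, pe_tw, frs_apply k, fr_apply k, mul_pow, mul_assoc]
      · rw [if_neg c, if_neg (by omega), zero_pow (Sq.su : Su k q).pos.ne', mul_zero])
    (fun t C u w _ _ hn => by
      have c : w = u + j := by_contra fun c => hn (if_neg c)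
      rw [if_pos c, c] at hn
      obtain ⟨i, hi0⟩ := ho.cls_SI1 (k := k) (right_ne_zero_of_mul hn)
      have e : u = r - j + s * i := by omega
      refine ⟨(ho.key_SI1 (k := k) hi (right_ne_zero_of_mul hn)).1, ?_, ?_⟩
      · rw [c, hi0, e, hi'.mulf, l2]
        omega
      · rw [e]
        simp)
    (fun t C C' hc => by
      funext u w
      by_cases c : (w : ZMod s) = r
      · rw [pext, pext, hc _ fun c' => ho.nd (c'.symm.trans c)]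
      · rw [tw_of_ne k c, mul_zero, mul_zero])
    ((h.as_line Ω hp).as_of_iff (fun _ => and_iff_left trivial) fun _ _ => add_zero _)
  have a1 : ∀ (E : Ecf Ω s D) (τ : Ω), Se (-1) R f (ee q (-1) E) →
      ee q (-1) (rse s D (ope j (tws q s r τ) (ee q (-1) E))) = ope j (tws q s r τ) (ee q (-1) E) :=
    fun E τ hs => (ho.am (k := k) h2 hi (hs.ad k) hs).ee_rse k
  have a0 : ∀ (X : ZMod s → ι ⊕ ι → Ω) (τ : Ω),
      Pe (FH q ι) s (opx j (tws q s r τ) (pext (FH q ι) s X)) :=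
    fun X τ => hF.sem.pe_opx (pe_tw q r τ) (pe_pext _ X)
  have a2 : ∀ (X : ZMod s → ι ⊕ ι → Ω) (τ : Ω),
      pext (FH q ι) s (rsn s (opx j (tws q s r τ) (pext (FH q ι) s X))) =
        opx j (tws q s r τ) (pext (FH q ι) s X) := fun X τ => (a0 X τ).pext_res
  have pe : ∀ {γ : Type} [Af Ω γ] {P : γ → Prop} {E : γ → Ecf Ω s D} {t : γ → Ω}, Pq k P E →
      Pq k P t → Pq k P fun y => rse s D (ope j (tws q s r (t y)) (ee q (-1) (E y))) :=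
    fun hE ht => Pq.rse fun u w => ((((hE.ee _ u w).add ((ht.tws r _).mul (hE.ee _ _ _))).add
      ((ht.tws r _).mul (hE.ee _ _ _))).add (((ht.tws r _).mul (ht.tws r _)).mul (hE.ee _ _ _)))
  have px : ∀ {γ : Type} [Af Ω γ] {P : γ → Prop} {X : γ → ZMod s → ι ⊕ ι → Ω} {t : γ → Ω},
      Pq k P X → Pq k P t → ∀ u, Pq k P fun y => opx j (tws q s r (t y)) (pext (FH q ι) s (X y)) u :=
    fun hX ht u => (Pq.pext hF.sem.po hF.sem.po' hX u).vadd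
      ((ht.tws r u).vsmul (Pq.pext hF.sem.po hF.sem.po' hX _))
  have pt : Pq k (Db q (-1) (FH q ι) s D R f f (fun e => e r (f r) ≠ 0) (Wp q σ s R))
      fun y : (Ecf Ω s D × (ZMod s → ι ⊕ ι → Ω)) × Cyp Ω s ι =>
        -(ee q (-1) y.1.1 (r - j) (f r) * (ee q (-1) y.1.1 r (f r))⁻¹) :=
    ((Pq.ee (Pq.fst (Pq.fst Pq.id)) _ _ _).mul
      ((Pq.ee (Pq.fst (Pq.fst Pq.id)) _ _ _).inv fun y hy => hy.1.2.2.2)).neg
  refine h.as_iso
    (fun y : ((Ecf Ω s D × (ZMod s → ι ⊕ ι → Ω)) × Cyp Ω s ι) × Ω =>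
      ((rse s D (ope j (tws q s r (-y.2)) (ee q (-1) y.1.1.1)),
        rsn s (opx j (tws q s r y.2) (pext (FH q ι) s y.1.1.2))), y.1.2))
    (fun y => (((rse s D (ope j (tws q s r
          (-(ee q (-1) y.1.1 (r - j) (f r) * (ee q (-1) y.1.1 r (f r))⁻¹))) (ee q (-1) y.1.1)),
        rsn s (opx j (tws q s r
          (- -(ee q (-1) y.1.1 (r - j) (f r) * (ee q (-1) y.1.1 r (f r))⁻¹)))
          (pext (FH q ι) s y.1.2))), y.2),
      -(ee q (-1) y.1.1 (r - j) (f r) * (ee q (-1) y.1.1 r (f r))⁻¹)))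
    (Pq.mk (Pq.mk (pe (by fun_prop) (by fun_prop)) (Pq.rsn (px (by fun_prop) (by fun_prop))))
      (by fun_prop))
    (Pq.mk (Pq.mk (Pq.mk (pe (by fun_prop) pt) (Pq.rsn (px (by fun_prop) pt.neg))) (by fun_prop)) pt)
    ?_ ?_ ?_ ?_ ?_ s1
  · rintro ⟨⟨⟨E, Z⟩, C, Y⟩, t⟩ ⟨⟨⟨c1, c2, c3, c4, c5⟩, c6, c7⟩, -⟩
    dsimp only at c1 c2 c3 c4 c5 c6 c7
    simp only [Db, Tb, Wp, a1 _ _ c1, a2]
    exact ⟨⟨ho.se (k := k) h2 hi (c1.ad k) c1, ho.acz (k := k) hi c2, ho.ci (k := k) hi c3,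
      (ho.two (k := k) (τ := -t) c1 hf hr.le).1.symm ▸ c4⟩, c6, (pa_opx_SO7 hj hD _ _ _ _).1 c7⟩
  · rintro ⟨⟨E, Z⟩, C, Y⟩ ⟨⟨c1, c2, c3, c4⟩, c6, c7⟩
    dsimp only at c1 c2 c3 c4 c6 c7
    simp only [Lj, Tb, a1 _ _ c1, a2, (ho.two (k := k) c1 hf hr.le).1,
      (ho.two (k := k) c1 hf hr.le).2, pa_opx_SO7 hj hD, ho.opx_opx (k := k), neg_add_cancel,
      tw_zero k, opx_zero]
    refine ⟨⟨⟨ho.se (k := k) h2 hi (c1.ad k) c1, ho.acz (k := k) hi c2, ho.ci (k := k) hi c3,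
      c4, ?_⟩, c6, c7⟩, trivial⟩
    rw [neg_mul, inv_mul_cancel_right₀ c4, add_neg_cancel]
  · rintro ⟨⟨⟨E, Z⟩, C, Y⟩, t⟩ ⟨⟨⟨c1, c2, c3, c4, c5⟩, c6, c7⟩, -⟩
    dsimp only at c1 c4 c5
    simp only [a1 _ _ c1, a2, (ho.two (k := k) c1 hf hr.le).1, (ho.two (k := k) c1 hf hr.le).2,
      c5, zero_add, mul_inv_cancel_right₀ c4, neg_neg, ho.ope_ope (k := k), ho.opx_opx (k := k),
      neg_add_cancel, add_neg_cancel, tw_zero k, ope_zero, opx_zero, rse_ee, res_pext]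
  · rintro ⟨⟨E, Z⟩, C, Y⟩ ⟨⟨c1, c2, c3, c4⟩, c6, c7⟩
    dsimp only at c1
    simp only [a1 _ _ c1, a2, ho.ope_ope (k := k), ho.opx_opx (k := k),
      neg_add_cancel, add_neg_cancel, tw_zero k, ope_zero, opx_zero, rse_ee, res_pext]
  · refine (Eqs.of_eq fun y hy => ?_).trans (((eqs_op (κ := j) hF
      (fun u v => Pq.ee (Pq.fst (Pq.fst (Pq.fst Pq.id))) (-1) u v)
      (fun u => (Pq.snd Pq.id).neg.tws r u)
      (px (Pq.snd (Pq.fst (Pq.fst Pq.id))) (Pq.snd Pq.id))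
      (fun y hy => hy.1.1.1.ad k) (fun y hy => ho.am (k := k) h2 hi (hy.1.1.1.ad k) hy.1.1.1)
      (fun y _ => pe_tw q r _) fun y _ => a0 _ _).add
      (Eqs.refl (ψ := fun y => Xp q σ κ s (y.1.1.2, y.1.2)))).trans (Eqs.of_eq fun y hy => ?_))
    · simp only [Df, Tf, Xp, a1 _ _ hy.1.1.1, a2]
    · simp only [Df, Tf, ho.opx_opx (k := k), add_neg_cancel, tw_zero k, opx_zero, add_zero]

theorem Au.gp_two (h : Au k q G) (h2 : (2 : Ω) ≠ 0) (hκ : κ ^ q = κ) (hi : Is s D R f)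
    (ho : Opd s R f r j) (hf : f (r - j) = f r) (hr : r < f r)
    (h3 : GP k G q σ κ ι s D R (low s f r) (low s f r) fun _ => True)
    (h4 : GP k G q σ κ ι s D R (low s f (r - j)) (low s f (r - j)) fun _ => True) :
    GP k G q σ κ ι s D R f f fun _ => True := by
  have hF : Fo k q (-1) (Bf (-1) : (ι ⊕ ι → Ω) → _) (FH q ι) := fd_bf (-1) _
  refine h.gd_split hF lc_wp (pq_xp hκ) hi r (f r) (h.gd_last hF hi hr.le h3)
    (h.gp_clr h2 hκ hi ho hf hr (GD.congr (fun e _ => ?_) (h.gd_opn r (f r)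
      (h.gd_last hF hi (by have := ho.pos; omega) h4))))
  rw [hf, and_comm (a := e r (f r) ≠ 0)]

end Pool.Agent.CXD
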