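import Pool.Agent.P.MP_2ce3e7_ag.SO7

/-! Translation, the empty system, and vanishing steps. -/

set_option linter.unusedSectionVars false
set_option linter.unusedVariables false

open Function Matrix

noncomputable section

namespace Pool.Agent.CXD
open Finset

variable {k Ω : Type} [Field k] [Field Ω] [Algebra k Ω] {q : ℕ} {ε σ τ : ℤˣ} {s D : ℕ} [NeZero s]
  {R : ℤ → Prop} {f f' f₁ f₂ g : ℤ → ℤ} {ι n : Type} [Fintype ι] [Fintype n] {b : ι → Bool}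
  {G : Gp Ω} {B : (n → Ω) → (n → Ω) → Ω} {F : Equiv.Perm (n → Ω)} {Q Q' : (ℤ → ℤ → Ω) → Prop}
  {r θ : ℤ} {e : ℤ → ℤ → Ω} {κ δ : Ω} {α β : Type} [Af Ω α] [Af Ω β] [IsAlgClosed Ω] [Sq k q]

theorem Is.shift (hi : Is s D R f) (j : ℤ) :
    Is s D (fun u => R (u + j)) fun u => f (u + j) - j :=
  ⟨fun u => by simp only [add_right_comm u (s : ℤ) j, hi.perR],
    fun u => by simp only [add_right_comm u (s : ℤ) j, hi.perf]; ring,
    fun u => by have := hi.lo (u + j); linarith, fun u => by have := hi.hi (u + j); linarith⟩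

theorem pext_SO8 {W : Type} (F : Equiv.Perm W) (X : ZMod s → W) (j : ℤ) :
    pext F s (rsn s fun u => pext F s X (u + j)) = fun u => pext F s X (u + j) :=
  Pe.pext_res fun u => by rw [add_right_comm, pe_pext]

theorem ee_SO8 (k : Type) [Field k] [Algebra k Ω] [Sq k q] (ha : Amx q ε s D e) (j : ℤ) :
    ee q ε (rse s D fun u v => e (u + j) (v + j)) = fun u v => e (u + j) (v + j) :=
  Amx.ee_rse k ⟨fun u v => ha.sym _ _, fun u v => by
    rw [add_right_comm u, add_right_comm v, ha.per], fun u v h => ha.band' k _ _ (by linarith)⟩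

/-- translation of all sequences -/
def sh_SO8 (q : ℕ) (σ : ℤˣ) (s D : ℕ) (j : ℤ)
    (y : (Ecf Ω s D × (ZMod s → ι ⊕ ι → Ω)) × Cyp Ω s ι) :
    (Ecf Ω s D × (ZMod s → ι ⊕ ι → Ω)) × Cyp Ω s ι :=
  ((rse s D fun u v => ee q (-1) y.1.1 (u + j) (v + j),
    rsn s fun u => pext (FH q ι) s y.1.2 (u + j)),
    (rsn s fun u => pext (frz q σ) s y.2.1 (u + j),
      rsn s fun u => pext (sF σ (FH q ι)) s y.2.2 (u + j)))

theorem pq_SO8 (j : ℤ) {p : (Ecf Ω s D × (ZMod s → ι ⊕ ι → Ω)) × Cyp Ω s ι → Prop} :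
    Pq k p (sh_SO8 q σ s D j) := by
  have h1 : Sem k q (FH q ι : Equiv.Perm (ι ⊕ ι → Ω)) := sem_FV _ _
  exact ((Pq.rse fun u v => Pq.ee (Pq.fst (Pq.fst Pq.id)) _ _ _).mk
    (Pq.rsn fun u => Pq.pext h1.po h1.po' (Pq.snd (Pq.fst Pq.id)) _)).mk
    ((Pq.rsn fun u => Pq.pext (po_frs σ) (po_frs_symm σ) (Pq.fst (Pq.snd Pq.id)) _).mk
      (Pq.rsn fun u => Pq.pext (h1.sF σ).po (h1.sF σ).po' (Pq.snd (Pq.snd Pq.id)) _))

theorem db_SO8 (k : Type) [Field k] [Algebra k Ω] [Sq k q] (j : ℤ)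
    {y : (Ecf Ω s D × (ZMod s → ι ⊕ ι → Ω)) × Cyp Ω s ι}
    (hy : Db q (-1) (FH q ι) s D R f f (fun _ => True) (Wp q σ s R) y) :
    Db q (-1) (FH q ι) s D (fun u => R (u + j)) (fun u => f (u + j) - j) (fun u => f (u + j) - j)
      (fun _ => True) (Wp q σ s fun u => R (u + j)) (sh_SO8 q σ s D j y) := by
  obtain ⟨⟨h1, h2, h3, -⟩, h4, h5⟩ := hy
  simp only [Db, Tb, Wp, sh_SO8, pext_SO8, ee_SO8 k (h1.ad k)]
  refine ⟨⟨fun u v huv ho => h1 _ _ (by linarith) fun h' => ho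
    ⟨h'.1, h'.2.1, by linarith [h'.2.2.1], fun e => h'.2.2.2 (by rw [e])⟩, fun u hu => h2 _ hu,
    fun w => ?_, trivial⟩, fun u hu => h4 _ hu, fun θ => ?_⟩
  · refine LinearIndepOn.comp_of_image (f := fun u => u + j) ((h3 (w + j)).mono ?_)
      (add_left_injective j).injOn
    rintro _ ⟨u, hu, rfl⟩
    exact ⟨hu.1, by linarith [hu.2.1], by linarith [hu.2.2]⟩
  · have := h5 (θ + j)
    rw [add_sub_right_comm] at this
    exact this

theorem inv_SO8 (k : Type) [Field k] [Algebra k Ω] [Sq k q] {i j : ℤ} (hij : j + i = 0)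
    {y : (Ecf Ω s D × (ZMod s → ι ⊕ ι → Ω)) × Cyp Ω s ι} (hy : Se (-1) R f (ee q (-1) y.1.1)) :
    sh_SO8 q σ s D j (sh_SO8 q σ s D i y) = y := by
  simp only [sh_SO8, pext_SO8, ee_SO8 k (hy.ad k), add_assoc, hij, add_zero]
  exact Prod.ext (Prod.ext (rse_ee _ _ _) (res_pext _ _)) (Prod.ext (res_pext _ _) (res_pext _ _))

omit [NeZero s] in
theorem ph_SO8 {W : Type} (B : W → W → Ω) (e : ℤ → ℤ → Ω) (x : ℤ → W) :
    ph s D B e x = ∑ v ∈ Ico (0 : ℤ) s, e (v - 0) v * B (x (v - 0)) (x v) +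
      (∑ d ∈ Icc (1 : ℤ) D, ∑ v ∈ Ico (0 : ℤ) s, e (v - d) v * B (x (v - d)) (x v) +
        ∑ d ∈ Icc (1 : ℤ) D, ∑ v ∈ Ico (0 : ℤ) s, e (v - d) v * B (x (v - d)) (x v)) := by
  rw [sum_comm, ← sum_add_distrib, ← sum_add_distrib, ph]
  refine sum_congr rfl fun v _ => ?_
  rw [sub_zero, two_mul, sum_congr rfl fun d _ => rfl]
  congr 2 <;>
  · refine sum_nbij' (fun u => v - u) (fun d => v - d) ?_ ?_ ?_ ?_ ?_
    · intro u hu
      simp only [mem_Ico, mem_Icc] at hu ⊢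
      omega
    · intro u hu
      simp only [mem_Ico, mem_Icc] at hu ⊢
      omega
    all_goals simp

theorem eqs_SO8 (hF : Fo k q ε B F) {p : α → Prop} {e : α → ℤ → ℤ → Ω} {x : α → ℤ → n → Ω}
    (h : ∀ u v, Pq k p fun a => e a u v) (hx : ∀ u, Pq k p fun a => x a u)
    (h1 : ∀ a, p a → Amx q ε s D (e a)) (h2 : ∀ a, p a → Pe F s (x a)) (j : ℤ) :
    Eqs k q p (fun a => ph s D B (fun u v => e a (u + j) (v + j)) fun u => x a (u + j))
      fun a => ph s D B (e a) (x a) := by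
  have hw : ∀ d : ℤ, Eqs k q p
      (fun a => ∑ u ∈ Ico (0 : ℤ) s, e a (u + j - d) (u + j) * B (x a (u + j - d)) (x a (u + j)))
      fun a => ∑ u ∈ Ico (0 : ℤ) s, e a (u - d) u * B (x a (u - d)) (x a u) :=
    fun d => eqs_window s (τ := fun a u => e a (u - d) u * B (x a (u - d)) (x a u))
      (fun u => (h _ _).mul (hF.pq (hx _) (hx _))) (fun a u ha => by
        rw [add_sub_right_comm, (h1 a ha).per, h2 a ha, h2 a ha, hF.frob, mul_pow]
        linear_combination (-(e a (u - d) u ^ q * B (x a (u - d)) (x a u) ^ q)) *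
          sg_mul_self (Ω := Ω) ε) j
  simp only [ph_SO8, ← add_sub_right_comm]
  exact (hw 0).add ((Eqs.sum _ fun d _ => hw d).add (Eqs.sum _ fun d _ => hw d))

theorem Au.gp_shift (h : Au k q G) (hκ : κ ^ q = κ) (j : ℤ)
    (hp : GP k G q σ κ ι s D R f f fun _ => True) :
    GP k G q σ κ ι s D (fun u => R (u + j)) (fun u => f (u + j) - j) (fun u => f (u + j) - j)
      fun _ => True := by
  have hF : Fo k q (-1) (Bf (-1) : (ι ⊕ ι → Ω) → _) (FH q ι) := fd_bf _ _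
  have := kr_of_pow (k := k) hκ
  refine h.as_iso (sh_SO8 q σ s D j) (sh_SO8 q σ s D (-j)) (pq_SO8 j) (pq_SO8 (-j))
    (fun y hy => db_SO8 k j hy) (fun y hy => by simpa using db_SO8 k (-j) hy)
    (fun y hy => inv_SO8 k (neg_add_cancel j) hy.1.1)
    (fun y hy => inv_SO8 k (add_neg_cancel j) hy.1.1) ?_ hp
  have hY : ∀ u, Pq k (Db q (-1) (FH q ι) s D R f f (fun _ => True) (Wp q σ s R))
      fun y : (Ecf Ω s D × (ZMod s → ι ⊕ ι → Ω)) × Cyp Ω s ι =>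
        pext (sF σ (FH q ι)) s y.2.2 u :=
    fun u => Pq.pext (hF.sem.sF σ).po (hF.sem.sF σ).po' (Pq.snd (Pq.snd Pq.id)) u
  refine (Eqs.of_eq fun y hy => ?_).trans ((eqs_SO8 hF
    (fun u v => Pq.ee (Pq.fst (Pq.fst Pq.id)) _ u v)
    (fun u => Pq.pext hF.sem.po hF.sem.po' (Pq.snd (Pq.fst Pq.id)) u)
    (fun y hy => hy.1.1.ad k) (fun y _ => pe_pext _ _) j).add
    (Eqs.smul hκ (eqs_window s (fun u => hF.pq (hY (u - 1)) (hY u)) (fun y u _ => ?_) j)))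
  · simp only [Df, Tf, Xp, Ps, sh_SO8, pext_SO8, ee_SO8 k (hy.1.1.ad k), add_sub_right_comm]
  · rw [add_sub_right_comm, pe_pext, pe_pext, sF_apply, sF_apply, Bf_smul_left, Bf_smul_right,
      hF.frob, sg_neg, sg_one, ← mul_assoc, sg_mul_self]
    ring

theorem Az.gp_empty (h : Az k q G) (hi : Is s D R f) (h0 : ∀ u, ¬R u) :
    GP k G q σ κ ι s D R f f fun _ => True := by
  refine Gy.as_of_iff (h.toAu.as_zero (h.gy_lb (σ := σ) (ι := ι) hi hi)) (fun _ =>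
    ⟨fun H => ⟨⟨H.1.1, H.1.2.1, H.1.2.2.1⟩, H.2⟩,
      fun H => ⟨⟨H.1.1, H.1.2.1, H.1.2.2, trivial⟩, H.2⟩⟩) fun y H => ?_
  have e1 : Tf q (-1) (Bf (-1)) (FH q ι) s D y.1 = 0 := by
    unfold Tf ph
    refine sum_eq_zero fun v _ => ?_
    rw [H.1.1 v v le_rfl fun e => h0 _ e.1, zero_mul, zero_add, sum_eq_zero, mul_zero]
    intro u hu
    rw [H.1.1 u v (mem_Ico.1 hu).2.le fun e => h0 _ e.1, zero_mul]
  rw [Df, e1, zero_add, Xp, Ps, sum_eq_zero, mul_zero]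
  intro θ _
  rw [H.2.2 θ, H.2.1 θ (h0 θ), zero_smul, Pi.zero_apply, add_zero, add_zero, Bf]
  refine sum_eq_zero fun i _ => ?_
  rw [sg_neg, sg_one]
  ring

/-- an empty interval, with a decoration that does not see the vector -/
theorem Az.gd_SO8 (h : Az k q G) (hF : Fo k q ε B F) (h2 : (2 : Ω) ≠ 0) (hi : Is s D R f)
    (h0 : 0 ≤ r) (h1 : r < s) (hR : R r) (hf : f r < r) {W W' : (ZMod s → n → Ω) × β → Prop}
    {χ : (ZMod s → n → Ω) × β → Ω} (hW : ∀ X z c, W (update X r z, c) ↔ W' (X, c))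
    (hχ : ∀ X z c, χ (update X r z, c) = χ (X, c)) (hχ' : Pq k (fun _ => True) χ)
    (hb : Gy k G fun y : (Ecf Ω s D × (ZMod s → n → Ω)) × β => (Se ε R f (ee q ε y.1.1) ∧
      Acz (rmv s R r) (pext F s y.1.2) ∧ Ci Ω (rmv s R r) f (pext F s y.1.2)) ∧ W' (y.1.2, y.2))
    (hp : GD k G q ε B F s D (rmv s R r) f f (fun _ => True) W' χ) :
    GD k G q ε B F s D R f f (fun _ => True) W χ := by
  classical
  let p : Ecf Ω s D × (ZMod s → n → Ω) → Prop := fun y => Se ε R f (ee q ε y.1) ∧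
    Acz (rmv s R r) (pext F s y.2) ∧ Ci Ω (rmv s R r) f (pext F s y.2)
  let γ : Ecf Ω s D × (ZMod s → n → Ω) → n → Ω := fun y =>
    ∑ u ∈ Ico (r - D) r, ee q ε y.1 u r • pext F s y.2 u
  let A : Ecf Ω s D × (ZMod s → n → Ω) → n → Ω := fun y j => 2 * B (γ y) (Pi.single j 1)
  have hA : ∀ y z, z ⬝ᵥ A y = 2 * B (γ y) z := fun y z => by
    have := ((hF.lin' (γ y)).mk' _).pi_apply_eq_sum_univ z
    simp only [IsLinearMap.mk'_apply, smul_eq_mul] at this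
    rw [this, dotProduct, mul_sum]
    refine sum_congr rfl fun j _ => ?_
    rw [show (fun i => if j = i then (1 : Ω) else 0) = Pi.single j 1 from
      funext fun i => by simp [Pi.single_apply, eq_comm]]
    simp only [A]
    ring
  have hrr : ∀ e : ℤ → ℤ → Ω, Se ε R f e → e r r = 0 := fun e he =>
    he r r le_rfl fun h' => absurd h'.2.2.1 (not_le.2 hf)
  have hA0 : ∀ y, p y → (A y = 0 ↔ ∀ u, u ≤ r → ee q ε y.1 u r = 0) := fun y hy => by
    constructor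
    · intro h3 u hu
      have h4 : γ y = 0 := hF.nd _ fun z => by
        have := hA y z
        rw [h3, dotProduct_zero] at this
        rw [hF.comm, (mul_eq_zero.1 this.symm).resolve_left h2, mul_zero]
      by_contra h5
      have ha := hy.1.ad k
      have hm : ∀ u, u ≤ r → ee q ε y.1 u r ≠ 0 → u ∈ clq (rmv s R r) f r := fun u hu h5 => by
        rw [clq_rmv hi hf]
        exact ⟨(hy.1.of_ne ha h5).1, hu, (hy.1.of_ne ha h5).2.2.1 hu⟩
      have hlt : u < r := lt_of_le_of_ne hu fun h6 => h5 (h6 ▸ hrr _ hy.1)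
      have hge : r - D ≤ u := by
        have := (hm u hu h5).2.2
        have := hi.hi u
        omega
      refine h5 (linearIndepOn_iff'.1 (hy.2.2 r)
        ((Ico (r - D) r).filter fun u => ee q ε y.1 u r ≠ 0) (fun u => ee q ε y.1 u r)
        (fun u hu => ?_) ?_ u (mem_filter.2 ⟨mem_Ico.2 ⟨hge, hlt⟩, h5⟩))
      · obtain ⟨h6, h7⟩ := mem_filter.1 (mem_coe.1 hu)
        exact hm u (mem_Ico.1 h6).2.le h7
      · refine (sum_filter_of_ne (p := fun u => ee q ε y.1 u r ≠ 0)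
          fun u _ h6 h7 => h6 ?_).trans h4
        rw [h7, zero_smul]
    · intro h3
      have h4 : γ y = 0 := sum_eq_zero fun u hu => by rw [h3 u (mem_Ico.1 hu).2.le, zero_smul]
      funext j
      simp only [A, h4]
      rw [(hF.lin _).map_zero, mul_zero, Pi.zero_apply]
  have hγ : Pq k p γ := Pq.vsum _ fun u => (pq_te u r).vsmul (pq_tx hF u)
  have hPA : Pq k p A := Pq.pi fun j =>
    (Pq.const (2 : Ω)).mul (hF.pq hγ (Pq.single j (Pq.const 1)))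
  have h3 := h.toAu.as_aff (fun _ => True) (D := fun y => A y.1) (ψ := Df q ε B F s D χ)
    (hPA.pull (Pq.fst Pq.id) fun _ h => h.1)
    (((pq_tf hF (p := fun _ => True)).comp (Pq.fst Pq.id)).add
      (hχ'.comp ((Pq.snd (Pq.fst Pq.id)).mk (Pq.snd Pq.id))))
    (fun _ _ _ h => absurd trivial h) hb (Gy.as_of_iff hp (fun y => ⟨fun ⟨hy, h4⟩ =>
      ⟨⟨(se_rmv k hi (hy.1.1.ad k) hf.le).2 ⟨hy.1.1, (hA0 y.1 hy.1).1 h4⟩, hy.1.2.1, hy.1.2.2,
        trivial⟩, hy.2⟩,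
      fun hy => by
        obtain ⟨h4, h5⟩ := (se_rmv k hi (hy.1.1.ad k) hf.le).1 hy.1.1
        exact ⟨⟨⟨h4, hy.1.2.1, hy.1.2.2.1⟩, hy.2⟩,
          (hA0 y.1 ⟨h4, hy.1.2.1, hy.1.2.2.1⟩).2 h5⟩⟩) fun _ _ => rfl)
  have hX : ∀ y, p y → y.2 r = 0 := fun y hy =>
    (pext_of_mem h0 h1).symm.trans (hy.2.1 r fun h' => h'.2 rfl)
  have hci : ∀ (X : ZMod s → n → Ω) z, Ci Ω R f (pext F s (update X r z)) ↔
      Ci Ω (rmv s R r) f (pext F s X) := fun X z => forall_congr' fun w => by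
    rw [← clq_rmv hi hf w]
    exact linearIndepOn_congr fun u hu => pext_update_of_ne _ _ hu.1.2
  refine h.toAu.as_iso (fun y => ((y.1.1.1, update y.1.1.2 r y.2), y.1.2))
    (fun x => (((x.1.1, update x.1.2 r 0), x.2), x.1.2 r))
    (((Pq.fst (Pq.fst (Pq.fst Pq.id))).mk
      (Pq.update _ (Pq.snd (Pq.fst (Pq.fst Pq.id))) (Pq.snd Pq.id))).mk (Pq.snd (Pq.fst Pq.id)))
    ((((Pq.fst (Pq.fst Pq.id)).mk
      (Pq.update _ (Pq.snd (Pq.fst Pq.id)) (Pq.pi fun _ => Pq.const 0))).mk (Pq.snd Pq.id)).mk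
      ((Pq.snd (Pq.fst Pq.id)).eval _))
    (fun y hy => ?_) (fun x hx => ?_) (fun y hy => ?_) (fun x hx => ?_)
    (Eqs.of_eq fun y hy => ?_) h3
  · refine ⟨⟨hy.1.1.1, fun u hu => ?_, (hci _ _).2 hy.1.1.2.2, trivial⟩, (hW _ _ _).2 hy.1.2⟩
    have hc : (u : ZMod s) ≠ r := fun hc => by
      obtain ⟨j, rfl⟩ := cls_SI3 hc
      exact hu ((hi.mulR r j).2 hR)
    exact (pext_update_of_ne _ _ hc).trans (hy.1.1.2.1 u fun h' => hu h'.1)
  · refine ⟨⟨⟨hx.1.1, fun u hu => ?_, (hci _ (x.1.2 r)).1 ?_⟩, (hW _ (x.1.2 r) _).1 ?_⟩,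
      fun _ h => absurd trivial h⟩
    · by_cases hc : (u : ZMod s) = r
      · obtain ⟨j, rfl⟩ := cls_SI3 hc
        change pext F s (update x.1.2 r 0) _ = 0
        rw [(pe_pext F _).zpow, pext_of_mem h0 h1, update_self]
        exact Equiv.Perm.zpow_apply_eq_self_of_apply_eq_self hF.sem.zero j
      · exact (pext_update_of_ne _ _ hc).trans (hx.1.2.1 u fun h' => hu ⟨h', hc⟩)
    · simpa only [update_idem, update_eq_self] using hx.1.2.2.1
    · simpa only [update_idem, update_eq_self] using hx.2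
  · have := hX _ hy.1.1
    simp only [update_idem, update_self]
    rw [← this, update_eq_self]
  · simp only [update_idem, update_eq_self]
  · rw [hA, Df, Df, Tf, Tf, hχ, ph_update hF hi (hy.1.1.1.ad k) hy.1.1.1 h0 h1 hf.le _
      (hX _ hy.1.1), hrr _ hy.1.1.1, zero_mul, zero_add]
    exact add_right_comm _ _ _

theorem wp_SO8 (k : Type) [Field k] [Algebra k Ω] [Sq k q] (h0 : 0 ≤ r) (h1 : r < s)
    (X : ZMod s → ι ⊕ ι → Ω) (z : ι ⊕ ι → Ω) (c : Cyp Ω s ι) :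
    Wp q σ s R (update X r z, c) ∧ c.1 r = 0 ↔ Wp q σ s (rmv s R r) (X, c) := by
  have e1 : c.1 r = 0 → ∀ u : ℤ, (u : ZMod s) = r → pext (frz q σ) s c.1 u = 0 := fun hc u hu => by
    rw [pext, hu, hc]
    exact Equiv.Perm.zpow_apply_eq_self_of_apply_eq_self (sem_frs (k := k) σ).zero _
  have e2 : c.1 r = 0 → ∀ u, pext (frz q σ) s c.1 u • pext (FH q ι) s (update X r z) u =
      pext (frz q σ) s c.1 u • pext (FH q ι) s X u := fun hc u => by
    by_cases hu : (u : ZMod s) = r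
    · rw [e1 hc u hu, zero_smul, zero_smul]
    · rw [pext_update_of_ne _ _ hu]
  refine ⟨fun ⟨⟨h2, h3⟩, hc⟩ => ⟨fun u hu => ?_, fun θ => ?_⟩, fun ⟨h2, h3⟩ => ?_⟩
  · by_cases h4 : (u : ZMod s) = r
    · exact e1 hc u h4
    · exact h2 u fun h' => hu ⟨h', h4⟩
  · have := h3 θ
    rwa [e2 hc] at this
  · have hc : c.1 r = 0 := (pext_of_mem h0 h1).symm.trans (h2 r fun h' => h'.2 rfl)
    refine ⟨⟨fun u hu => h2 u fun h' => hu h'.1, fun θ => ?_⟩, hc⟩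
    have := h3 θ
    rwa [← e2 hc] at this

theorem Az.gp_1a (h : Az k q G) (h2 : (2 : Ω) ≠ 0) (hκ : κ ^ q = κ) (hi : Is s D R f) (h0 : 0 ≤ r)
    (h1 : r < s) (hR : R r) (hf : f r < r)
    (hp : GP k G q σ κ ι s D (rmv s R r) f f fun _ => True) :
    Gy k G (AS q (fun y : (Ecf Ω s D × (ZMod s → ι ⊕ ι → Ω)) × Cyp Ω s ι =>
      Db q (-1) (FH q ι) s D R f f (fun _ => True) (Wp q σ s R) y ∧ y.2.1 r = 0)
      (Lf q σ κ s D)) :=
  Gy.as_of_iff (h.gd_SO8 (fd_bf _ _) h2 hi h0 h1 hR hf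
    (W := fun w => Wp q σ s R w ∧ w.2.1 r = 0) (wp_SO8 k h0 h1) (fun _ _ _ => rfl) (pq_xp hκ)
    (h.gy_lb hi (hi.rmv r)) hp) (fun _ => and_assoc) fun _ _ => rfl

end Pool.Agent.CXD
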