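import Pool.Agent.P.MP_2ce3e7_ag.SO8
import Pool.Agent.P.MP_2ce3e7_ag.SB9

/-! Invertible steps. -/

set_option linter.unusedSectionVars false
set_option linter.unusedVariables false

open Function Matrix

noncomputable section

namespace Pool.Agent.CXD
open Finset

variable {k Ω : Type} [Field k] [Field Ω] [Algebra k Ω] {q : ℕ} {ε σ τ : ℤˣ} {s D : ℕ} [NeZero s]
  {R : ℤ → Prop} {f f' f₁ f₂ g : ℤ → ℤ} {ι n : Type} [Fintype ι] [Fintype n] {b : ι → Bool}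
  {G : Gp Ω} {B : (n → Ω) → (n → Ω) → Ω} {F : Equiv.Perm (n → Ω)} {Q Q' : (ℤ → ℤ → Ω) → Prop}
  {r θ : ℤ} {e : ℤ → ℤ → Ω} {κ δ : Ω} {α β : Type} [Af Ω α] [Af Ω β] [IsAlgClosed Ω] [Sq k q]

/-- the jumps at the class of `r` -/
def mj (q : ℕ) (σ : ℤˣ) (κ : Ω) (s : ℕ) {D : ℕ} (r : ℤ) (γ : Fin (D + 1) → Ω) (ρ : Ω) (u w : ℤ) :
    Ω :=
  if h : (w - u).toNat < D + 1 then
    pext (frz q σ) s (fun a => if a = r then 2 * (κ * ρ)⁻¹ * γ ⟨_, h⟩ else 0) w else 0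

/-- the parameters that split off -/
def Pj (D : ℕ) (R : ℤ → Prop) (f : ℤ → ℤ) (r : ℤ) (x : (Fin (D + 1) → Ω) × Ω × (ι ⊕ ι → Ω)) :
    Prop := (∀ d : Fin (D + 1), ¬ok (-1) R f (r - d.val) r → x.1 d = 0) ∧ x.2.1 ≠ 0

/-- the right side of the covering equation -/
def Nl (q : ℕ) (σ : ℤˣ) (κ : Ω) (s D : ℕ) (r : ℤ)
    (y : (Ecf Ω s D × (ZMod s → ι ⊕ ι → Ω)) × Cyp Ω s ι) : ι ⊕ ι → Ω :=
  pext (sF σ (FH q ι)) s y.2.2 (r - 1) - pext (sF σ (FH q ι)) s y.2.2 (-1) +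
    (2 * (κ * y.2.1 r)⁻¹) • ∑ u ∈ Ico (r - D) r, ee q (-1) y.1.1 u r • pext (FH q ι) s y.1.2 u

theorem self_SO9 (x : ι ⊕ ι → Ω) : Bf (-1) x x = 0 :=
  Finset.sum_eq_zero fun i _ => by rw [sg_neg, sg_one]; ring

theorem anti_SO9 (x y : ι ⊕ ι → Ω) : Bf (-1) y x = -Bf (-1) x y := by
  rw [Bf_comm, sg_neg, sg_one, neg_one_mul]

theorem root_SO9 (hq : 1 < q) (c d : Ω) : ∃ z : Ω, z ^ q = c * z + d := by
  have e : (Polynomial.X ^ q - (Polynomial.C c * Polynomial.X + Polynomial.C d) :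
      Polynomial Ω).degree = q := by
    rw [Polynomial.degree_sub_eq_left_of_degree_lt, Polynomial.degree_X_pow]
    rw [Polynomial.degree_X_pow]
    exact Polynomial.degree_linear_le.trans_lt (by exact_mod_cast hq)
  obtain ⟨z, hz⟩ := IsAlgClosed.exists_root _
    (e.trans_ne (by exact_mod_cast (lt_trans one_pos hq).ne'))
  refine ⟨z, ?_⟩
  simp only [Polynomial.IsRoot, Polynomial.eval_add, Polynomial.eval_sub, Polynomial.eval_C,
    Polynomial.eval_pow, Polynomial.eval_X, Polynomial.eval_mul] at hz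
  linear_combination hz

theorem ps_lang (k : Type) [Field k] [Algebra k Ω] [Sq k q] (hκ : κ ^ q = κ)
    {Y M : ℤ → ι ⊕ ι → Ω} {y : ι ⊕ ι → Ω} (hr : r = -1 + s) (h1 : ∀ θ, -1 ≤ θ → θ < r → Y θ = y + M θ)
    (h2 : Y r = sF σ (FH q ι) (y + M (-1))) (h3 : M r = sF (-σ) (FH q ι) (M (-1))) :
    κ * Bf (-1) (M r - M (r - 1)) (Y r - Y (r - 1)) + κ * Ps s (Bf (-1)) Y =
      κ * Ps s (Bf (-1)) M + κ * sg σ * Bf (-1) y (FH q ι y) +
        ((κ * Bf (-1) (M (-1)) y) ^ q + κ * Bf (-1) (M (-1)) y) := by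
  have hs := pos_SE0 s
  obtain ⟨N, rfl⟩ := Int.eq_ofNat_of_zero_le (show 0 ≤ r by omega)
  have e0 : (s : ℤ) = N + 1 := by omega
  have e1 : ∀ Z : ℤ → ι ⊕ ι → Ω, Ps s (Bf (-1)) Z = Bf (-1) (Z (N - 1)) (Z N) +
      ∑ θ ∈ Ico (0 : ℤ) N, Bf (-1) (Z (θ - 1)) (Z θ) := fun Z => by
    rw [Ps, e0, ← Finset.insert_Ico_right_eq_Ico_add_one (Int.natCast_nonneg N),
      Finset.sum_insert Finset.right_notMem_Ico]
  have e2 := tele_SA4 N fun u => Bf (-1) y (M (u - 1))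
  simp only [add_sub_cancel_right, zero_sub] at e2
  have e3 : ∑ θ ∈ Ico (0 : ℤ) N, Bf (-1) (Y (θ - 1)) (Y θ) =
      ∑ θ ∈ Ico (0 : ℤ) N, Bf (-1) (M (θ - 1)) (M θ) +
        (∑ θ ∈ Ico (0 : ℤ) N, Bf (-1) y (M θ) - ∑ θ ∈ Ico (0 : ℤ) N, Bf (-1) y (M (θ - 1))) := by
    rw [← Finset.sum_sub_distrib, ← Finset.sum_add_distrib]
    refine Finset.sum_congr rfl fun θ hθ => ?_
    rw [Finset.mem_Ico] at hθ
    rw [h1 θ (by omega) hθ.2, h1 (θ - 1) (by omega) (by omega), Bf_add_left, Bf_add_right,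
      Bf_add_right, self_SO9, anti_SO9 y (M (θ - 1))]
    ring
  have e4 := Bf_FV (-1) (fun _ : ι => false) (M (-1)) y k
  have e5 := sg_mul_self (Ω := Ω) σ
  rw [sg_neg, sg_one] at e4
  rw [e1, e1, e3, e2, h1 (N - 1) (by omega) (by omega), h2, h3, sF_apply, sF_apply,
    (sem_FV (k := k) (-1) _).add, mul_pow, hκ, sg_neg]
  generalize FH q ι (M (-1)) = a at e4 ⊢
  generalize FH q ι y = a' at e4 ⊢
  simp only [Bf_add_left, Bf_add_right, Bf_sub_left, Bf_sub_right, Bf_smul_left, Bf_smul_right,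
    self_SO9]
  rw [anti_SO9 a y, anti_SO9 a (M (N - 1)), anti_SO9 y (M (N - 1)), anti_SO9 (M (-1)) y]
  linear_combination (-κ) * e4 - κ * Bf (-1) a a' * e5

theorem form_SO9 (h : Az k q G) (h2 : (2 : Ω) ≠ 0) (hκ : κ ^ q = κ) (hκ0 : κ ≠ 0) :
    Gy k G (AS q (Pj (ι := ι) D R f r)
      fun x => κ * sg σ * Bf (-1) x.2.2 (FH q ι x.2.2)) := by
  classical
  have hq : Su k q := Sq.su
  obtain ⟨m, k1, m1, m2, m3⟩ := exists_hm (Ω := Ω) k h2 1 fun _ : ι => false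
  have t1 : (-(κ * sg σ * 2⁻¹)) ^ q = -(κ * sg σ * 2⁻¹) := by
    rw [hq.neg_pow, mul_pow, mul_pow, hκ, sg_pow k, inv_pow, two_pow_eq k]
  have t2 : -(κ * sg σ * 2⁻¹) ≠ 0 :=
    neg_ne_zero.2 (mul_ne_zero (mul_ne_zero hκ0 (sg_ne σ)) (inv_ne_zero h2))
  have t3 : (fm q (-(κ * sg σ * 2⁻¹) • m))ᵀ = -(κ * sg σ * 2⁻¹) • m := by
    rw [hq.fm_smul, t1, transpose_smul, m2]
  have t4 : Kr k (-(κ * sg σ * 2⁻¹) • m) := kr_mat_SA5 (by
    rw [← transpose_transpose (fm q (_ • m)), t3, fm_transpose, t3])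
  have g0 := h.as_form (-(κ * sg σ * 2⁻¹) • m)
    (by rw [det_smul]; exact mul_ne_zero (pow_ne_zero _ t2) m1) t3
  have g1 : Gy k G (AS q (fun _ : ι ⊕ ι → Ω => True)
      fun y => κ * sg σ * Bf (-1) y (FH q ι y)) :=
    g0.as_of_iff (fun _ => Iff.rfl) fun y _ => by
      rw [smul_mulVec, dotProduct_smul, ← m3, sg_one, smul_eq_mul]
      linear_combination (-(κ * sg σ * Bf (-1) y (FH q ι y))) * mul_inv_cancel₀ h2
  have g2 := h.toAu.gsupp (fun d : Fin (D + 1) => ¬ok (-1) R f (r - d.val) r)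
    (h.toAu.gopn (g := fun y => y.2) (Pq.snd Pq.id) (h.toAu.gline Ω g1))
  exact h.toAu.giso (fun y => ((y.2, y.1.2, y.1.1.1), y.1.1.2))
    (fun y => (((y.1.2.2, y.2), y.1.2.1), y.1.1)) (by fun_prop) (by fun_prop)
    (fun y hy => ⟨⟨hy.2, hy.1.2⟩, hy.1.1.2⟩) (fun y hy => ⟨⟨⟨trivial, hy.2⟩, hy.1.2⟩, hy.1.1⟩)
    (fun _ _ => rfl) (fun _ _ => rfl) g2

theorem Az.gp_src (h : Az k q G) (h2 : (2 : Ω) ≠ 0) (hκ : κ ^ q = κ) (hκ0 : κ ≠ 0)
    (hi : Is s D R f) (h0 : 0 ≤ r) (h1 : r < s) (hf : f r < r)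
    (hp : GP k G q (-σ) κ ι s D (rmv s R r) f f fun _ => True) :
    Gy k G (AS q (fun y : ((Ecf Ω s D × (ZMod s → ι ⊕ ι → Ω)) × Cyp Ω s ι) ×
      (Fin (D + 1) → Ω) × Ω × (ι ⊕ ι → Ω) =>
      Lj q (-σ) s D (rmv s R r) f (fun _ => True) (mj q (-σ) κ s r y.2.1 y.2.2.1) y.1 ∧
        Pj D R f r y.2)
      fun y => Lf q (-σ) κ s D y.1 + κ * sg σ * Bf (-1) y.2.2.2 (FH q ι y.2.2.2)) := by
  have hq : Su k q := Sq.su
  have kκ : Kr k κ := kr_of_pow hκ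
  have hF : Fo k q (-1) (Bf (-1) : (ι ⊕ ι → Ω) → _) (FH q ι) := fd_bf (-1) _
  have c' : Lc k (Pj (Ω := Ω) (ι := ι) D R f r) :=
    Lr.and (Cr.all fun d => Cr.all fun _ => Cr.eq ((Pq.fst Pq.id).eval d) (Pq.const 0)).lr
      (Lr.ne (Pq.fst (Pq.snd Pq.id)) (Pq.const 0))
  have g1 := h.as_add (lc_db hF (hi.rmv r) (Lr.const True) lc_wp) c' (pq_df hF (pq_xp hκ))
    (χ := fun x => κ * sg σ * Bf (-1) x.2.2 (FH q ι x.2.2))
    (((Pq.const κ).mul (Pq.const _)).mul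
      (Pq.bf _ (Pq.snd (Pq.snd Pq.id)) (hF.sem.po.comp (Pq.snd (Pq.snd Pq.id))))) hp
    fun G' h' => form_SO9 h' h2 hκ hκ0
  refine h.toAu.jump (Q := fun _ => True) h2 hκ (hi.rmv r) (fun _ _ => le_rfl)
    (fun _ _ _ _ => Iff.rfl) (p := Pj D R f r)
    (ψ := fun x => κ * sg σ * Bf (-1) x.2.2 (FH q ι x.2.2)) Set.univ
    (m := fun x _ => mj q (-σ) κ s r x.1 x.2.1) (fun u w => ?_) (fun x C u w _ => ?_)
    (fun x C u w hx huw hm => ?_) (fun _ _ _ _ => rfl) g1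
  · unfold mj
    refine Pq.dite _ (fun hd => Pq.pext (po_frs _) (po_frs_symm _)
      (Pq.pi fun a => Pq.ite _ (((Pq.const 2).mul (Pq.inv ((Pq.const κ).mul
        (Pq.fst (Pq.snd (Pq.fst Pq.id)))) fun y hy => mul_ne_zero hκ0 hy.2)).mul
        ((Pq.fst (Pq.fst Pq.id)).eval _)) (Pq.const 0)) w) fun _ => Pq.const 0
  · have e : w + s - (u + s) = w - u := by ring
    simp only [mj, e]
    split_ifs
    · rw [pe_pext, frs_apply k]
    · rw [zero_pow hq.pos.ne', mul_zero]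
  · unfold mj at hm
    split_ifs at hm with hd
    · have h3 : (if (w : ZMod s) = r then 2 * (κ * x.2.1)⁻¹ * x.1 ⟨_, hd⟩ else 0) ≠ 0 :=
        fun h3 => hm (by
          rw [pext, h3]
          exact Equiv.Perm.zpow_apply_eq_self_of_apply_eq_self (sem_frs (k := k) (-σ)).zero _)
      split_ifs at h3 with h4
      · have h5 : ok (-1) R f (r - ((w - u).toNat : ℕ)) r := by
          by_contra h5
          exact h3 (by rw [hx.1 _ h5, mul_zero])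
        obtain ⟨j, hj⟩ := (ZMod.intCast_eq_intCast_iff_dvd_sub r w s).1 h4.symm
        have e : u = r - ((w - u).toNat : ℕ) + s * j := by omega
        have h6 : w ≤ f u := by
          have := h5.2.2.1
          rw [e, hi.mulf]
          omega
        refine ⟨⟨by rw [e, hi.mulR]; exact h5.1, fun h7 => ?_⟩, h6, trivial⟩
        obtain ⟨j', hj'⟩ := (ZMod.intCast_eq_intCast_iff_dvd_sub r u s).1 h7.symm
        have h8 := hi.mulf r j'
        rw [show r + s * j' = u by omega] at h8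
        omega
      · exact absurd rfl h3
    · exact absurd rfl hm

theorem Au.gp_cov (h : Au k q G) (hκ : κ ^ q = κ) (hκ0 : κ ≠ 0) (hi : Is s D R f)
    (hp : Gy k G (AS q (fun y : ((Ecf Ω s D × (ZMod s → ι ⊕ ι → Ω)) × Cyp Ω s ι) × (ι ⊕ ι → Ω) =>
      (Db q (-1) (FH q ι) s D R f f (fun _ => True) (Wp q σ s R) y.1 ∧ y.1.2.1 r ≠ 0) ∧
        sF (-σ) (FH q ι) y.2 = y.2 + Nl q σ κ s D r y.1) fun y => Lf q σ κ s D y.1)) :
    Gy k G (AS q (fun y : (Ecf Ω s D × (ZMod s → ι ⊕ ι → Ω)) × Cyp Ω s ι =>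
      Db q (-1) (FH q ι) s D R f f (fun _ => True) (Wp q σ s R) y ∧ y.2.1 r ≠ 0)
      (Lf q σ κ s D)) := by
  classical
  have hq : Su k q := Sq.su
  have kκ : Kr k κ := kr_of_pow hκ
  have hF : Fo k q (-1) (Bf (-1) : (ι ⊕ ι → Ω) → _) (FH q ι) := fd_bf (-1) _
  have e0 := sg_mul_self (Ω := Ω) σ
  have c : Lc k fun y : (Ecf Ω s D × (ZMod s → ι ⊕ ι → Ω)) × Cyp Ω s ι =>
      Db q (-1) (FH q ι) s D R f f (fun _ => True) (Wp q σ s R) y ∧ y.2.1 r ≠ 0 :=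
    (lc_db hF hi (Lr.const True) lc_wp).land
      (Lr.ne ((Pq.fst (Pq.snd Pq.id)).eval _) (Pq.const 0))
  have hN : Pq k (fun y : (Ecf Ω s D × (ZMod s → ι ⊕ ι → Ω)) × Cyp Ω s ι =>
      Db q (-1) (FH q ι) s D R f f (fun _ => True) (Wp q σ s R) y ∧ y.2.1 r ≠ 0)
      (Nl q σ κ s D r) :=
    Pq.vadd (Pq.vsub (Pq.pext (hF.sem.sF σ).po (hF.sem.sF σ).po' (Pq.snd (Pq.snd Pq.id)) _)
      (Pq.pext (hF.sem.sF σ).po (hF.sem.sF σ).po' (Pq.snd (Pq.snd Pq.id)) _))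
      (Pq.vsmul ((Pq.const 2).mul (Pq.inv ((Pq.const κ).mul ((Pq.fst (Pq.snd Pq.id)).eval _))
        fun y hy => mul_ne_zero hκ0 hy.2)) (Pq.vsum _ fun u =>
          Pq.vsmul (Pq.ee (Pq.fst (Pq.fst Pq.id)) _ u r)
            (Pq.pext hF.sem.po hF.sem.po' (Pq.snd (Pq.fst Pq.id)) u)))
  have key : ∀ z v : ι ⊕ ι → Ω, sF (-σ) (FH q ι) z = z + v ↔ ∀ i, z i ^ q =
      sg (Sum.elim (fun _ => -σ) (fun _ => σ) i) * z i +
        sg (Sum.elim (fun _ => -σ) (fun _ => σ) i) * v i := fun z v => by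
    rw [funext_iff]
    refine forall_congr' fun i => ?_
    rw [sF_apply, Pi.smul_apply, Pi.add_apply, smul_eq_mul, sg_neg]
    rcases i with i | i
    · rw [FV_inl _ _ _ k, Sum.elim_inl, sg_neg]
      simp only [Bool.false_eq_true, if_false]
      exact ⟨fun e => by linear_combination (-sg σ) * e - z (.inl i) ^ q * e0,
        fun e => by linear_combination (-sg σ) * e + (z (.inl i) + v (.inl i)) * e0⟩
    · rw [FV_inr _ _ _ k, Sum.elim_inr, sg_neg, sg_one]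
      simp only [Bool.false_eq_true, if_false]
      exact ⟨fun e => by linear_combination (sg σ) * e - z (.inr i) ^ q * e0,
        fun e => by linear_combination (sg σ) * e + (z (.inr i) + v (.inr i)) * e0⟩
  refine h.gfin (c.as ((pq_df hF (pq_xp hκ)).mono fun _ hy => hy.1)) (κ := ι ⊕ ι)
    (r := fun y => sF (-σ) (FH q ι) y.2 = y.2 + Nl q σ κ s D r y.1.1)
    (Cr.eq ((hF.sem.sF (-σ)).po.comp (Pq.snd Pq.id))
      (Pq.vadd (Pq.snd Pq.id) (hN.pull (Pq.fst (Pq.fst Pq.id)) fun _ hy => hy.1)))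
    (fun x _ => ?_) q hq.lt
    (fun _ i j => if i = j then sg (Sum.elim (fun _ => -σ) (fun _ => σ) i) else 0)
    (fun x i => sg (Sum.elim (fun _ => -σ) (fun _ => σ) i) * Nl q σ κ s D r x.1 i)
    (Pq.pi fun i => Pq.pi fun j => Pq.ite _ (Pq.const _) (Pq.const 0))
    (Pq.pi fun i => (Pq.const _).mul ((hN.pull (Pq.fst Pq.id) fun _ hy => hy.1).eval i))
    (fun x z _ hz i => ?_) ?_
  · choose z hz using fun i : ι ⊕ ι => root_SO9 hq.lt
      (sg (Sum.elim (fun _ => -σ) (fun _ => σ) i) : Ω)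
      (sg (Sum.elim (fun _ => -σ) (fun _ => σ) i) * Nl q σ κ s D r x.1 i)
    exact ⟨z, (key _ _).2 hz⟩
  · rw [(key _ _).1 hz i]
    simp only [ite_mul, zero_mul, Finset.sum_ite_eq, Finset.mem_univ, if_true]
  · exact h.giso (fun y => ((y.1.1, y.2), y.1.2)) (fun y => ((y.1.1, y.2), y.1.2))
      (by fun_prop) (by fun_prop) (fun y hy => ⟨⟨hy.1.1, hy.2⟩, hy.1.2⟩)
      (fun y hy => ⟨⟨hy.1.1, hy.2⟩, hy.1.2⟩) (fun _ _ => rfl) (fun _ _ => rfl) hp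

end Pool.Agent.CXD
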