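import Pool.Agent.P.MP_2ce3e7_ag.SO9

/-! Removing an empty interval. -/

set_option linter.unusedSectionVars false
set_option linter.unusedVariables false

open Function Matrix

noncomputable section

namespace Pool.Agent.CXD
open Finset

variable {k Ω : Type} [Field k] [Field Ω] [Algebra k Ω] {q : ℕ} {ε σ τ : ℤˣ} {s D : ℕ} [NeZero s]
  {R : ℤ → Prop} {f f' f₁ f₂ g : ℤ → ℤ} {ι n : Type} [Fintype ι] [Fintype n] {b : ι → Bool}
  {G : Gp Ω} {B : (n → Ω) → (n → Ω) → Ω} {F : Equiv.Perm (n → Ω)} {Q Q' : (ℤ → ℤ → Ω) → Prop}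
  {r θ : ℤ} {e : ℤ → ℤ → Ω} {κ δ : Ω} {α β : Type} [Af Ω α] [Af Ω β] [IsAlgClosed Ω] [Sq k q]

/-- the new positions -/
def yf_SOA (q : ℕ) (σ : ℤˣ) (s : ℕ) (r : ℤ) (M : ZMod s → ι ⊕ ι → Ω) (y : ι ⊕ ι → Ω) :
    ZMod s → ι ⊕ ι → Ω :=
  update (fun a => y + M a) r (sF σ (FH q ι) (y + pext (sF (-σ) (FH q ι)) s M (-1)))

/-- the old positions -/
def mb_SOA (q : ℕ) (σ : ℤˣ) (s : ℕ) (r : ℤ) (Y : ZMod s → ι ⊕ ι → Ω) (L : ι ⊕ ι → Ω) :
    ZMod s → ι ⊕ ι → Ω :=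
  update (fun a => Y a - pext (sF σ (FH q ι)) s Y (-1) + L) r (sF (-σ) (FH q ι) L)

theorem mem_SOA (hr : r = -1 + s) : 0 ≤ r ∧ r < s := by
  have := pos_SE0 s
  omega

theorem ne_SOA (hr : r = -1 + s) (h0 : 0 ≤ θ) (h1 : θ < r) : (θ : ZMod s) ≠ r := fun hc => by
  have := val_SE1 (s := s) h0 (by omega)
  rw [hc, val_SE1 (mem_SOA hr).1 (mem_SOA hr).2] at this
  omega

theorem last_SOA {γ : Type} (F : Equiv.Perm γ) (hr : r = -1 + s) (X : ZMod s → γ) :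
    F (pext F s X (-1)) = X r := by
  rw [← pe_pext F X (-1), ← hr, pext_of_mem (mem_SOA hr).1 (mem_SOA hr).2]

theorem upd_SOA {γ : Type} (F : Equiv.Perm γ) (hr : r = -1 + s) (X : ZMod s → γ) (w : γ) :
    pext F s (update X r w) r = w := by
  rw [pext_of_mem (mem_SOA hr).1 (mem_SOA hr).2, update_self]

theorem neg_SOA {γ : Type} (F : Equiv.Perm γ) (hr : r = -1 + s) (X : ZMod s → γ) (w : γ) :
    pext F s (update X r (F w)) (-1) = w :=
  F.injective (by rw [last_SOA F hr, update_self])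

theorem yf1_SOA (hr : r = -1 + s) (M : ZMod s → ι ⊕ ι → Ω) (y : ι ⊕ ι → Ω) (θ : ℤ)
    (h0 : -1 ≤ θ) (h1 : θ < r) : pext (sF σ (FH q ι)) s (yf_SOA q σ s r M y) θ =
      y + pext (sF (-σ) (FH q ι)) s M θ := by
  rcases h0.eq_or_lt with rfl | h0
  · exact neg_SOA _ hr _ _
  · rw [yf_SOA, pext_update_of_ne _ _ (ne_SOA hr (by omega) h1),
      pext_of_mem (by omega) (by omega), pext_of_mem (by omega) (by omega)]

theorem mb1_SOA (hr : r = -1 + s) (Y : ZMod s → ι ⊕ ι → Ω) (L : ι ⊕ ι → Ω) (θ : ℤ)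
    (h0 : -1 ≤ θ) (h1 : θ < r) : pext (sF (-σ) (FH q ι)) s (mb_SOA q σ s r Y L) θ =
      pext (sF σ (FH q ι)) s Y θ - pext (sF σ (FH q ι)) s Y (-1) + L := by
  rcases h0.eq_or_lt with rfl | h0
  · rw [sub_self, zero_add]
    exact neg_SOA _ hr _ _
  · rw [mb_SOA, pext_update_of_ne _ _ (ne_SOA hr (by omega) h1),
      pext_of_mem (u := θ) (by omega) (by omega), pext_of_mem (u := θ) (by omega) (by omega)]

theorem mb_yf_SOA (hr : r = -1 + s) (M : ZMod s → ι ⊕ ι → Ω) (y : ι ⊕ ι → Ω) :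
    mb_SOA q σ s r (yf_SOA q σ s r M y) (pext (sF (-σ) (FH q ι)) s M (-1)) = M := by
  funext a
  by_cases ha : a = r
  · rw [ha, mb_SOA, update_self, last_SOA _ hr]
  · rw [mb_SOA, update_of_ne ha, yf1_SOA hr M y (-1) le_rfl (by have := mem_SOA hr; omega),
      yf_SOA, update_of_ne ha]
    abel

theorem yf_mb_SOA (hr : r = -1 + s) (Y : ZMod s → ι ⊕ ι → Ω) (L : ι ⊕ ι → Ω) :
    yf_SOA q σ s r (mb_SOA q σ s r Y L) (pext (sF σ (FH q ι)) s Y (-1) - L) = Y := by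
  funext a
  by_cases ha : a = r
  · rw [ha, yf_SOA, update_self, mb1_SOA hr Y L (-1) le_rfl (by have := mem_SOA hr; omega),
      sub_self, zero_add, sub_add_cancel, last_SOA _ hr]
  · rw [yf_SOA, update_of_ne ha, mb_SOA, update_of_ne ha]
    abel

theorem pq_yf_SOA {p : α → Prop} {M : α → ZMod s → ι ⊕ ι → Ω} {y : α → ι ⊕ ι → Ω}
    (hM : Pq k p M) (hy : Pq k p y) : Pq k p fun x => yf_SOA q σ s r (M x) (y x) := by
  have a := (sem_FV (k := k) (Ω := Ω) (q := q) (ι := ι) (-1) fun _ => false).sF σ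
  have a' := (sem_FV (k := k) (Ω := Ω) (q := q) (ι := ι) (-1) fun _ => false).sF (-σ)
  exact Pq.update _ (Pq.pi fun c => hy.vadd (hM.eval c))
    (a.po.comp (hy.vadd (Pq.pext a'.po a'.po' hM _)))

theorem pq_mb_SOA {p : α → Prop} {Y : α → ZMod s → ι ⊕ ι → Ω} {L : α → ι ⊕ ι → Ω}
    (hY : Pq k p Y) (hL : Pq k p L) : Pq k p fun x => mb_SOA q σ s r (Y x) (L x) := by
  have a := (sem_FV (k := k) (Ω := Ω) (q := q) (ι := ι) (-1) fun _ => false).sF σ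
  have a' := (sem_FV (k := k) (Ω := Ω) (q := q) (ι := ι) (-1) fun _ => false).sF (-σ)
  exact Pq.update _ (Pq.pi fun c => ((hY.eval c).vsub (Pq.pext a.po a.po' hY _)).vadd hL)
    (a'.po.comp hL)

theorem pa_SOA (hF : Sem k q F) {c : ℤ → Ω} {z Y J : ℤ → n → Ω} (hc : Pe (frz q σ) s c)
    (hz : Pe F s z) (hY : Pe (sF σ F) s Y) (hJ : Pe (sF σ F) s J)
    (h : ∀ θ : ℤ, 0 ≤ θ → θ < s → Y θ = Y (θ - 1) + c θ • z θ + J θ) : Pa c z Y J :=
  (pa_iff hF hc hz hY hJ).2 fun a => h _ (Int.natCast_nonneg _) (by exact_mod_cast ZMod.val_lt a)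

theorem mj_per_SOA (k : Type) [Field k] [Algebra k Ω] [Sq k q] (γ : Fin (D + 1) → Ω) (ρ : Ω)
    (u w : ℤ) : mj q σ κ s r γ ρ (u + s) (w + s) = sg σ * mj q σ κ s r γ ρ u w ^ q := by
  simp only [mj, add_sub_add_right_eq_sub]
  split_ifs with h
  · rw [pe_pext, frs_apply k]
  · rw [zero_pow (Sq.su : Su k q).pos.ne', mul_zero]

theorem jv_per_SOA (hF : Sem k q F) {m : ℤ → ℤ → Ω} {z : ℤ → n → Ω} (hz : Pe F s z)
    (hm : ∀ u w, m (u + s) (w + s) = sg σ * m u w ^ q) : Pe (sF σ F) s (Jv D m z) := fun θ => by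
  rw [Jv, Jv, sF_apply, hF.sum, smul_sum, add_sub_right_comm, ← map_add_right_Ico, sum_map]
  refine sum_congr rfl fun u _ => ?_
  rw [addRightEmbedding_apply, hm, hz, hF.smul, mul_smul]

theorem mj_ne_SOA (hr : r = -1 + s) (γ : Fin (D + 1) → Ω) (ρ : Ω) (u : ℤ) (h0 : 0 ≤ θ)
    (h1 : θ < r) : mj q σ κ s r γ ρ u θ = 0 := by
  simp only [mj]
  split_ifs with h
  · rw [pext_of_mem h0 (by omega), if_neg (ne_SOA hr h0 h1)]
  · rfl

theorem mj_eq_SOA (hr : r = -1 + s) (E : Ecf Ω s D) (ρ : Ω) {u : ℤ} (hu : u ≤ r) :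
    mj q σ κ s r (E r) ρ u r = 2 * (κ * ρ)⁻¹ * ee q (-1) E u r := by
  simp only [mj, ee, elo]
  rw [if_pos hu]
  split_ifs with h
  · rw [pext_of_mem (mem_SOA hr).1 (mem_SOA hr).2, pext_of_mem (mem_SOA hr).1 (mem_SOA hr).2,
      if_pos rfl]
  · rw [mul_zero]

theorem jv_ne_SOA (hr : r = -1 + s) (γ : Fin (D + 1) → Ω) (ρ : Ω) (z : ℤ → n → Ω) (h0 : 0 ≤ θ)
    (h1 : θ < r) : Jv D (mj q σ κ s r γ ρ) z θ = 0 :=
  sum_eq_zero fun u _ => by rw [mj_ne_SOA hr γ ρ u h0 h1, zero_smul]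

theorem jv_eq_SOA (hr : r = -1 + s) (E : Ecf Ω s D) (ρ : Ω) (z : ℤ → n → Ω) :
    Jv D (mj q σ κ s r (E r) ρ) z r =
      (2 * (κ * ρ)⁻¹) • ∑ u ∈ Ico (r - D) r, ee q (-1) E u r • z u := by
  rw [Jv, smul_sum]
  exact sum_congr rfl fun u hu => by rw [mj_eq_SOA hr E ρ (mem_Ico.1 hu).2.le, mul_smul]

theorem sum_SOA (hi : Is s D R f) (hs : Se ε R f e) (hf : f r < r) (X : ZMod s → n → Ω)
    (y : n → Ω) : ∑ u ∈ Ico (r - D) r, e u r • pext F s (update X r y) u =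
      ∑ u ∈ Ico (r - D) r, e u r • pext F s X u :=
  sum_congr rfl fun u hu => by
    by_cases hc : (u : ZMod s) = r
    · rw [row_SI3 hi hs hf.le hc (mem_Ico.1 hu).2, zero_smul, zero_smul]
    · rw [pext_update_of_ne _ _ hc]

theorem acz_SOA {γ : Type} [Zero γ] {F F' : Equiv.Perm γ} {X : ZMod s → γ}
    (h1 : Acz R (pext F s X) ↔ ∀ c : ZMod s, ¬R c.val → X c = 0) (h : Acz R (pext F s X))
    (h2 : Acz (rmv s R r) (pext F' s (update X r 0)) ↔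
      ∀ c : ZMod s, ¬rmv s R r c.val → update X r 0 c = 0) :
    Acz (rmv s R r) (pext F' s (update X r 0)) := h2.2 fun c hc => by
  by_cases w : c = r
  · rw [w, update_self]
  · rw [update_of_ne w]
    exact h1.1 h c fun v => hc ⟨v, by simpa using w⟩

theorem acz2_SOA {γ : Type} [Zero γ] {F F' : Equiv.Perm γ} {X : ZMod s → γ} {y : γ}
    (hr : r = -1 + s) (hR : R r)
    (h1 : Acz (rmv s R r) (pext F s X) ↔ ∀ c : ZMod s, ¬rmv s R r c.val → X c = 0)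
    (h : Acz (rmv s R r) (pext F s X))
    (h2 : Acz R (pext F' s (update X r y)) ↔ ∀ c : ZMod s, ¬R c.val → update X r y c = 0) :
    Acz R (pext F' s (update X r y)) := h2.2 fun c hc => by
  have w : c ≠ r := fun w => hc (by rwa [w, val_SE1 (mem_SOA hr).1 (mem_SOA hr).2])
  rw [update_of_ne w]
  exact h1.1 h c fun v => hc v.1

theorem zr_SOA {γ : Type} [Zero γ] {F : Equiv.Perm γ} {X : ZMod s → γ} (hr : r = -1 + s)
    (h : Acz (rmv s R r) (pext F s X)) : X r = 0 :=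
  (pext_of_mem (mem_SOA hr).1 (mem_SOA hr).2).symm.trans (h r fun b => b.2 rfl)

theorem ci_SOA (hi : Is s D R f) (hf : f r < r) (X : ZMod s → n → Ω) (z : n → Ω) :
    Ci Ω R f (pext F s (update X r z)) ↔ Ci Ω (rmv s R r) f (pext F s X) :=
  forall_congr' fun w => by
    rw [← clq_rmv hi hf w]
    exact linearIndepOn_congr fun u hu => pext_update_of_ne _ _ hu.1.2

theorem se1_SOA (k : Type) [Field k] [Algebra k Ω] [Sq k q] (hi : Is s D R f) (hr : r = -1 + s)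
    {E : Ecf Ω s D} (hs : Se ε (rmv s R r) f (ee q ε E)) {γ : Fin (D + 1) → Ω}
    (h : ∀ d : Fin (D + 1), ¬ok ε R f (r - d.val) r → γ d = 0) :
    Se ε R f (ee q ε (update E r γ)) := (se_iff k hi _).2 fun c d hc => by
  by_cases w : c = r
  · rw [w, val_SE1 (mem_SOA hr).1 (mem_SOA hr).2] at hc
    rw [w, update_self]
    exact h d hc
  · rw [update_of_ne w]
    exact (se_iff k (hi.rmv r) _).1 hs c d fun v => hc ⟨v.1.1, v.2.1.1, v.2.2⟩

theorem se2_SOA (k : Type) [Field k] [Algebra k Ω] [Sq k q] (hi : Is s D R f) (hf : f r < r)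
    {E : Ecf Ω s D} (hs : Se ε R f (ee q ε E)) :
    Se ε (rmv s R r) f (ee q ε (update E r 0)) := (se_iff k (hi.rmv r) _).2 fun c d hc => by
  by_cases w : c = r
  · rw [w, update_self, Pi.zero_apply]
  · rw [update_of_ne w]
    refine (se_iff k hi _).1 hs c d fun v => hc ⟨⟨v.1, fun t => ?_⟩, ⟨v.2.1, by simpa using w⟩, v.2.2⟩
    have := le_SI3 hi t
    have := v.2.2.1
    omega

theorem ez_SOA (k : Type) [Field k] [Algebra k Ω] [Sq k q] (hi : Is s D R f)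
    {E : Ecf Ω s D} (hs : Se ε (rmv s R r) f (ee q ε E)) : E r = 0 :=
  funext fun d => (se_iff k (hi.rmv r) _).1 hs r d fun v => v.2.1.2 (by simp)

theorem ph_SOA (hF : Fo k q ε B F) (E : Ecf Ω s D) (γ : Fin (D + 1) → Ω) {X : ZMod s → n → Ω}
    (hX : X r = 0) : ph s D B (ee q ε (update E r γ)) (pext F s X) =
      ph s D B (ee q ε E) (pext F s X) := by
  refine sum_congr rfl fun v hv => ?_
  rw [mem_Ico] at hv
  by_cases w : (v : ZMod s) = r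
  · have : pext F s X v = 0 := by rw [pext_of_mem hv.1 hv.2, w, hX]
    simp only [this, (hF.lin' _).map_zero, mul_zero]
  · have e1 : ∀ u, u ≤ v → ee q ε (update E r γ) u v = ee q ε E u v := fun u hu => by
      simp only [ee, elo, if_pos hu]
      split_ifs
      · rw [pext_of_mem hv.1 hv.2, pext_of_mem hv.1 hv.2, update_of_ne w]
      · rfl
    rw [e1 v le_rfl, sum_congr rfl fun u hu => by rw [e1 u (mem_Ico.1 hu).2.le]]

theorem Au.gp_iso (h : Au k q G) (h2 : (2 : Ω) ≠ 0) (hκ : κ ^ q = κ) (hκ0 : κ ≠ 0)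
    (hi : Is s D R f) (hr : r = -1 + s) (hR : R r) (hf : f r < r)
    (hp : Gy k G (AS q (fun y : ((Ecf Ω s D × (ZMod s → ι ⊕ ι → Ω)) × Cyp Ω s ι) ×
      (Fin (D + 1) → Ω) × Ω × (ι ⊕ ι → Ω) =>
      Lj q (-σ) s D (rmv s R r) f (fun _ => True) (mj q (-σ) κ s r y.2.1 y.2.2.1) y.1 ∧
        Pj D R f r y.2)
      fun y => Lf q (-σ) κ s D y.1 + κ * sg σ * Bf (-1) y.2.2.2 (FH q ι y.2.2.2))) :
    Gy k G (AS q (fun y : ((Ecf Ω s D × (ZMod s → ι ⊕ ι → Ω)) × Cyp Ω s ι) × (ι ⊕ ι → Ω) =>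
      (Db q (-1) (FH q ι) s D R f f (fun _ => True) (Wp q σ s R) y.1 ∧ y.1.2.1 r ≠ 0) ∧
        sF (-σ) (FH q ι) y.2 = y.2 + Nl q σ κ s D r y.1) fun y => Lf q σ κ s D y.1) := by
  obtain ⟨r0, r1⟩ := mem_SOA hr
  have hF : Fo k q (-1) (Bf (-1)) (FH q ι : Equiv.Perm (ι ⊕ ι → Ω)) := fd_bf (-1) _
  have a := hF.sem.sF σ
  have a' := hF.sem.sF (-σ)
  have hk : Kr k κ := kr_of_pow hκ
  have jump : ∀ {E : Ecf Ω s D} {Z M : ZMod s → ι ⊕ ι → Ω} {C : ZMod s → Ω}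
      {γ : Fin (D + 1) → Ω} {ρ : Ω}, C r = 0 →
      Pa (pext (frz q (-σ)) s C) (pext (FH q ι) s Z) (pext (sF (-σ) (FH q ι)) s M)
        (Jv D (mj q (-σ) κ s r γ ρ) (pext (FH q ι) s Z)) →
      pext (sF (-σ) (FH q ι)) s M r = pext (sF (-σ) (FH q ι)) s M (r - 1) + (2 * (κ * ρ)⁻¹) •
        ∑ u ∈ Ico (r - D) r, ee q (-1) (update E r γ) u r • pext (FH q ι) s Z u := by
    intro E Z M C γ ρ hc pa
    have e1 := jv_eq_SOA (q := q) (σ := -σ) (κ := κ) hr (update E r γ) ρ (pext (FH q ι) s Z)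
    rw [update_self] at e1
    rw [pa r, e1, pext_of_mem (X := C) r0 r1, hc, zero_smul, add_zero]
  refine h.as_iso
    (fun y => (((update y.1.1.1 r y.2.1, update y.1.1.2 r (y.2.2.1⁻¹ •
      (pext (sF σ (FH q ι)) s (yf_SOA q σ s r y.1.2.2 y.2.2.2) r -
        pext (sF σ (FH q ι)) s (yf_SOA q σ s r y.1.2.2 y.2.2.2) (r - 1)))),
      (update y.1.2.1 r y.2.2.1, yf_SOA q σ s r y.1.2.2 y.2.2.2)),
      pext (sF (-σ) (FH q ι)) s y.1.2.2 (-1)))
    (fun x => (((update x.1.1.1 r 0, update x.1.1.2 r 0),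
      (update x.1.2.1 r 0, mb_SOA q σ s r x.1.2.2 x.2)),
      (x.1.1.1 r, x.1.2.1 r, pext (sF σ (FH q ι)) s x.1.2.2 (-1) - x.2))) ?_ ?_ ?_ ?_ ?_ ?_ ?_ hp
  · have y1 := pq_yf_SOA (k := k) (q := q) (σ := σ) (r := r)
      (p := fun y : ((Ecf Ω s D × (ZMod s → ι ⊕ ι → Ω)) × Cyp Ω s ι) ×
        (Fin (D + 1) → Ω) × Ω × (ι ⊕ ι → Ω) =>
        Lj q (-σ) s D (rmv s R r) f (fun _ => True) (mj q (-σ) κ s r y.2.1 y.2.2.1) y.1 ∧
          Pj D R f r y.2) Pq.id.fst.snd.snd Pq.id.snd.snd.snd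
    exact ((((Pq.update _ Pq.id.fst.fst.fst Pq.id.snd.fst).mk (Pq.update _ Pq.id.fst.fst.snd
      ((Pq.id.snd.snd.fst.inv fun y hy => hy.2.2).vsmul
        ((Pq.pext a.po a.po' y1 _).vsub (Pq.pext a.po a.po' y1 _))))).mk
      ((Pq.update _ Pq.id.fst.snd.fst Pq.id.snd.snd.fst).mk y1))).mk
      (Pq.pext a'.po a'.po' Pq.id.fst.snd.snd _)
  · exact (((Pq.update _ Pq.id.fst.fst.fst (Pq.pi fun _ => Pq.const 0)).mk
      (Pq.update _ Pq.id.fst.fst.snd (Pq.pi fun _ => Pq.const 0))).mk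
      ((Pq.update _ Pq.id.fst.snd.fst (Pq.const 0)).mk
        (pq_mb_SOA Pq.id.fst.snd.snd Pq.id.snd))).mk
      ((Pq.id.fst.fst.fst.eval _).mk ((Pq.id.fst.snd.fst.eval _).mk
        ((Pq.pext a.po a.po' Pq.id.fst.snd.snd _).vsub Pq.id.snd)))
  · rintro ⟨⟨⟨E, Z⟩, C, M⟩, γ, ρ, y⟩ ⟨⟨⟨se, az, ci, -⟩, ac, pa⟩, hγ, hρ⟩
    dsimp only at se az ci ac pa hγ hρ
    have se' := se1_SOA k hi hr se hγ
    refine ⟨⟨⟨⟨se', acz2_SOA hr hR (hF.sem.act_iff (hi.rmv r).perR _) az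
      (hF.sem.act_iff hi.perR _), (ci_SOA hi hf _ _).2 ci, trivial⟩,
      acz2_SOA hr hR ((sem_frs (k := k) _).act_iff (hi.rmv r).perR _) ac
        ((sem_frs (k := k) _).act_iff hi.perR _),
      pa_SOA hF.sem (pe_pext _ _) (pe_pext _ _) (pe_pext _ _) a.pe_zero fun θ t0 t1 => ?_⟩,
      ?_⟩, ?_⟩
    · dsimp only
      rcases (show θ ≤ r by omega).eq_or_lt with rfl | t2
      · rw [upd_SOA _ hr, upd_SOA _ hr, smul_inv_smul₀ hρ, Pi.zero_apply]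
        abel
      · have c := ne_SOA hr t0 t2
        have e1 := pa θ
        rw [jv_ne_SOA hr γ ρ _ t0 t2, pext_of_mem (X := C) t0 t1] at e1
        rw [yf1_SOA hr M y θ (by omega) t2, yf1_SOA hr M y (θ - 1) (by omega) (by omega),
          pext_update_of_ne _ _ c, pext_update_of_ne _ _ c, pext_of_mem (X := C) t0 t1, e1,
          Pi.zero_apply]
        abel
    · dsimp only
      rwa [update_self]
    · simp only [Nl]
      rw [← pe_pext _ M (-1), ← hr, jump (E := E) (zr_SOA hr ac) pa, update_self,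
        sum_SOA hi se' hf, yf1_SOA hr M y (r - 1) (by omega) (by omega),
        yf1_SOA hr M y (-1) le_rfl (by omega)]
      abel
  · rintro ⟨⟨⟨E, Z⟩, C, Y⟩, L⟩ ⟨⟨⟨⟨se, az, ci, -⟩, ac, pa⟩, hc⟩, cov⟩
    dsimp only at se az ci ac pa hc
    simp only [Nl] at cov
    refine ⟨⟨⟨se2_SOA k hi hf se, acz_SOA (hF.sem.act_iff hi.perR _) az
      (hF.sem.act_iff (hi.rmv r).perR _), (ci_SOA hi hf _ (Z r)).1 ?_, trivial⟩,
      acz_SOA ((sem_frs (k := k) _).act_iff hi.perR _) ac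
        ((sem_frs (k := k) _).act_iff (hi.rmv r).perR _),
      pa_SOA hF.sem (pe_pext _ _) (pe_pext _ _) (pe_pext _ _)
        (jv_per_SOA hF.sem (pe_pext _ _) (mj_per_SOA k _ _)) fun θ t0 t1 => ?_⟩,
      fun d hd => (se_iff k hi _).1 se r d (by rwa [val_SE1 r0 r1]), hc⟩
    · simpa only [update_idem, update_eq_self] using ci
    · dsimp only
      rcases (show θ ≤ r by omega).eq_or_lt with rfl | t2
      · rw [jv_eq_SOA hr, sum_SOA hi se hf, upd_SOA _ hr, zero_smul, add_zero,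
          mb1_SOA hr Y L (θ - 1) (by omega) (by omega), mb_SOA, upd_SOA _ hr, cov]
        abel
      · have c := ne_SOA hr t0 t2
        have e1 := pa θ
        rw [pext_of_mem (X := C) t0 t1, Pi.zero_apply] at e1
        rw [jv_ne_SOA hr _ _ _ t0 t2, mb1_SOA hr Y L θ (by omega) t2,
          mb1_SOA hr Y L (θ - 1) (by omega) (by omega), pext_update_of_ne _ _ c,
          pext_update_of_ne _ _ c, pext_of_mem (X := C) t0 t1, e1]
        abel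
  · rintro ⟨⟨⟨E, Z⟩, C, M⟩, γ, ρ, y⟩ ⟨⟨⟨se, az, ci, -⟩, ac, pa⟩, hγ, hρ⟩
    dsimp only at se az ci ac pa hγ hρ ⊢
    rw [update_idem, update_idem, update_idem, update_self, update_self, mb_yf_SOA hr,
      yf1_SOA hr M y (-1) le_rfl (by omega), add_sub_cancel_right, update_eq_self_iff.2
        (ez_SOA k hi se).symm, update_eq_self_iff.2 (zr_SOA hr az).symm,
      update_eq_self_iff.2 (zr_SOA hr ac).symm]
  · rintro ⟨⟨⟨E, Z⟩, C, Y⟩, L⟩ ⟨⟨⟨⟨se, az, ci, -⟩, ac, pa⟩, hc⟩, cov⟩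
    dsimp only at se az ci ac pa hc ⊢
    have e1 := pa r
    rw [pext_of_mem (X := C) r0 r1, pext_of_mem (X := Z) r0 r1, Pi.zero_apply, add_zero] at e1
    rw [update_idem, update_idem, update_idem, yf_mb_SOA hr,
      mb1_SOA hr Y L (-1) le_rfl (by omega), sub_self, zero_add, e1, add_sub_cancel_left,
      inv_smul_smul₀ hc, update_eq_self, update_eq_self, update_eq_self]
  · refine ⟨fun y => κ * Bf (-1) (pext (sF (-σ) (FH q ι)) s y.1.2.2 (-1)) y.2.2.2,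
      (Pq.const κ).mul (Pq.bf _ (Pq.pext a'.po a'.po' Pq.id.fst.snd.snd _) Pq.id.snd.snd.snd), ?_⟩
    rintro ⟨⟨⟨E, Z⟩, C, M⟩, γ, ρ, y⟩ ⟨⟨⟨se, az, ci, -⟩, ac, pa⟩, hγ, hρ⟩
    dsimp only at se az ci ac pa hγ hρ
    have se' := se1_SOA k hi hr se hγ
    have e1 := ps_lang (σ := σ) k hκ hr (yf1_SOA hr M y) (upd_SOA _ hr _ _)
      (by rw [← pe_pext _ M (-1), ← hr])
    rw [jump (E := E) (zr_SOA hr ac) pa, add_sub_cancel_left, Bf_smul_left] at e1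
    simp only [Lf, Df, Tf, Xp]
    rw [ph_update hF hi (se'.ad k) se' r0 r1 hf.le Z (zr_SOA hr az), ph_SOA hF E γ (zr_SOA hr az),
      se' r r le_rfl fun t => absurd t.2.2.1 (not_le.2 hf), zero_mul, Bf_smul_right]
    have e2 : κ * (2 * (κ * ρ)⁻¹) = 2 * ρ⁻¹ := by field_simp
    rw [← mul_assoc, e2] at e1
    linear_combination e1

theorem Az.gp_one (h : Az k q G) (h2 : (2 : Ω) ≠ 0) (hκ : κ ^ q = κ) (hκ0 : κ ≠ 0)
    (hi : Is s D R f) (hR : R r) (hf : f r < r)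
    (hp : ∀ σ, GP k G q σ κ ι s D (rmv s R r) f f fun _ => True) :
    GP k G q σ κ ι s D R f f fun _ => True := by
  have main : ∀ {R : ℤ → Prop} {f : ℤ → ℤ} {r : ℤ}, r = -1 + s → Is s D R f → R r → f r < r →
      (∀ σ, GP k G q σ κ ι s D (rmv s R r) f f fun _ => True) →
      GP k G q σ κ ι s D R f f fun _ => True := by
    intro R f r hr hi hR hf hp
    obtain ⟨r0, r1⟩ := mem_SOA hr
    exact h.toAu.as_split (lc_db (fd_bf (-1) _) hi (Lr.const True) lc_wp)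
      (pq_df (fd_bf (-1) _) (pq_xp hκ)) (g := fun y => y.2.1 r) (Pq.id.snd.fst.eval _)
      (h.gp_1a h2 hκ hi r0 r1 hR hf (hp σ))
      (h.toAu.gp_cov hκ hκ0 hi (h.toAu.gp_iso h2 hκ hκ0 hi hr hR hf
        (h.gp_src h2 hκ hκ0 hi r0 r1 hf (hp (-σ)))))
  obtain ⟨j, rfl⟩ : ∃ j, r = -1 + s + j := ⟨r - (-1 + s), by ring⟩
  have e1 : (fun u => rmv s R (-1 + s + j) (u + j)) = rmv s (fun u => R (u + j)) (-1 + s) :=
    funext fun u => by
      simp only [rmv, Int.cast_add (_ : ℤ) j, ne_eq, add_left_inj]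
  have h3 := h.toAu.gp_shift hκ (-j) (main rfl (hi.shift j) hR (by omega) fun σ =>
    e1 ▸ h.toAu.gp_shift hκ j (hp σ))
  simpa only [neg_add_cancel_right, sub_neg_eq_add, sub_add_cancel] using h3

end Pool.Agent.CXD
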