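import Pool.Agent.P.MP_2ce3e7_ag.SO7
import Pool.Agent.P.MP_2ce3e7_ag.SBA

/-! The bijective case with a path: the linear steps. -/

set_option linter.unusedSectionVars false
set_option linter.unusedVariables false

open Function Matrix

noncomputable section

namespace Pool.Agent.CXD
open Finset

variable {k Ω : Type} [Field k] [Field Ω] [Algebra k Ω] {q : ℕ} {ε σ τ : ℤˣ} {s D : ℕ} [NeZero s]
  {R : ℤ → Prop} {f f' f₁ f₂ g : ℤ → ℤ} {ι n : Type} [Fintype ι] [Fintype n] {b : ι → Bool}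
  {G : Gp Ω} {B : (n → Ω) → (n → Ω) → Ω} {F : Equiv.Perm (n → Ω)} {Q Q' : (ℤ → ℤ → Ω) → Prop}
  {r θ : ℤ} {e : ℤ → ℤ → Ω} {κ δ : Ω} {α β : Type} [Af Ω α] [Af Ω β] [IsAlgClosed Ω] [Sq k q]

/-- the recursion with one more variable -/
def So {W : Type} [AddCommGroup W] [Module Ω W] (κ : Ω) (D : ℕ) (e : ℤ → ℤ → Ω) (c : ℤ → Ω)
    (a η : ℤ → W) (θ : ℤ) : Prop :=
  η θ = η (θ - 1) - (2 * κ * c θ) • a θ ∧ (4 : Ω) • Ew D e a θ + c θ • (η θ + η (θ - 1)) = 0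

/-- matrices with invertible pivots, and step lengths -/
def Bc (q : ℕ) (σ : ℤˣ) (s D : ℕ) (R : ℤ → Prop) (f : ℤ → ℤ) (y : Ecf Ω s D × (ZMod s → Ω)) :
    Prop := Se (-1) R f (ee q (-1) y.1) ∧ Piv R f (ee q (-1) y.1) ∧ Acz R (pext (frz q σ) s y.2)

/-- families of periodic solutions -/
def Sl (q : ℕ) (σ : ℤˣ) (κ : Ω) (ι : Type) (s D : ℕ) (R : ℤ → Prop) (e : ℤ → ℤ → Ω) (c : ℤ → Ω)
    (w : (ZMod s → ι → Ω) × (ZMod s → ι → Ω)) : Prop :=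
  Acz R (pext (frv q 1 ι) s w.1) ∧
    ∀ θ, So κ D e c (pext (frv q 1 ι) s w.1) (pext (frv q σ ι) s w.2) θ

/-- the constraints on the first coordinates -/
def P1 (q : ℕ) (σ : ℤˣ) (s D : ℕ) (R : ℤ → Prop) (f : ℤ → ℤ)
    (y : (Ecf Ω s D × (ZMod s → ι ⊕ ι → Ω)) × Cyp Ω s ι) : Prop :=
  Bc q σ s D R f (y.1.1, y.2.1) ∧ Acz R (pext (FH q ι) s y.1.2) ∧ ∀ (i : ι) (a : ZMod s),
    y.2.2 a (.inl i) =
      pext (sF σ (FH q ι)) s y.2.2 (a.val - 1) (.inl i) + y.2.1 a * y.1.2 a (.inl i)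

/-- the constraints on the second coordinates -/
def Dr (q : ℕ) (σ : ℤˣ) (s D : ℕ) (y : (Ecf Ω s D × (ZMod s → ι ⊕ ι → Ω)) × Cyp Ω s ι)
    (i : ZMod s × ι) : Ω :=
  y.2.2 i.1 (.inr i.2) - pext (sF σ (FH q ι)) s y.2.2 (i.1.val - 1) (.inr i.2) -
    y.2.1 i.1 * y.1.2 i.1 (.inr i.2)

/-- first coordinates and multipliers -/
def P2 (q : ℕ) (σ : ℤˣ) (s D : ℕ) (R : ℤ → Prop) (f : ℤ → ℤ)
    (w : (Ecf Ω s D × (ZMod s → Ω)) × (ZMod s → ι → Ω) × (ZMod s → ι → Ω) × (ZMod s → ι → Ω)) :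
    Prop :=
  Bc q σ s D R f w.1 ∧ Acz R (pext (frv q 1 ι) s w.2.1) ∧
    Pa (pext (frz q σ) s w.1.2) (pext (frv q 1 ι) s w.2.1) (pext (frv q σ ι) s w.2.2.1) 0

/-- the coefficients of the second coordinates -/
def D2 (q : ℕ) (σ : ℤˣ) (κ : Ω) (s D : ℕ)
    (w : (Ecf Ω s D × (ZMod s → Ω)) × (ZMod s → ι → Ω) × (ZMod s → ι → Ω) × (ZMod s → ι → Ω)) :
    (ZMod s × ι) ⊕ (ZMod s × ι) → Ω :=
  Sum.elim (fun i => -2 * Ew D (ee q (-1) w.1.1) (pext (frv q 1 ι) s w.2.1) i.1.val i.2 -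
      w.1.2 i.1 * w.2.2.2 i.1 i.2)
    fun i => κ * (pext (frv q σ ι) s w.2.2.1 (i.1.val - 1) i.2 -
      pext (frv q σ ι) s w.2.2.1 (i.1.val + 1) i.2) + w.2.2.2 i.1 i.2 -
      pext (frv q σ ι) s w.2.2.2 (i.1.val + 1) i.2

theorem Az.gy_bc (h : Az k q G) (hi : Is s D R f) :
    Gy k G fun E : Ecf Ω s D => Se ε R f (ee q ε E) ∧ Piv R f (ee q ε E) := by
  have h0 := h.toAu.gsupp2 (fun (c : ZMod s) (δ : Fin (D + 1)) => ¬ok ε R f (c.val - δ.val) c.val)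
    (h.guniv Ω)
  have h1 : Gy k G fun y : Ecf Ω s D × Ω => Se ε R f (ee q ε y.1) :=
    h.toAu.giso (fun y : Ω × Ecf Ω s D => (y.2, y.1)) (fun y : Ecf Ω s D × Ω => (y.2, y.1))
      ((Pq.snd Pq.id).mk (Pq.fst Pq.id)) ((Pq.snd Pq.id).mk (Pq.fst Pq.id))
      (fun z hz => (se_iff k hi _).2 hz.2) (fun z hz => ⟨trivial, (se_iff k hi _).1 hz⟩)
      (fun _ _ => rfl) (fun _ _ => rfl) h0
  exact (h.toAu.gopns (T := {c : ZMod s // R c.val})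
    (g := fun c E => ee q ε E c.1.val (f c.1.val)) (fun c => Pq.ee Pq.id ε _ _)
    (h.toAu.gunline (p := fun E : Ecf Ω s D => Se ε R f (ee q ε E)) Ω h1)).congr fun E =>
      and_congr_right fun hs => (piv_iff_SI0 k hi (hs.ad k)).trans
        ⟨fun H c => H c.1 c.2, fun H c hc => H ⟨c, hc⟩⟩

theorem lc_bc (hi : Is s D R f) : Lc k (Bc (Ω := Ω) q σ s D R f) :=
  Lr.congr (r := fun y : Ecf Ω s D × (ZMod s → Ω) => Se (-1) R f (ee q (-1) y.1) ∧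
      (∀ a : ZMod s, R a.val → ee q (-1) y.1 a.val (f a.val) ≠ 0) ∧ Acz R (pext (frz q σ) s y.2))
    (Lr.and (Cr.lr (Cr.se pq_te)) (Lr.and
      (Lr.all fun a => Lr.all fun _ => Lr.ne (pq_te _ _) (Pq.const 0))
      (Cr.lr (Cr.all fun u => Cr.all fun _ =>
        Cr.eq (Pq.pext (po_frs σ) (po_frs_symm σ) (Pq.snd Pq.id) u) (Pq.const 0)))))
    fun y _ => and_congr_right fun hs => and_congr_left' (piv_iff_SI0 k hi (hs.ad k))

theorem pext_val_SOB {β : Type} (F : Equiv.Perm β) (X : ZMod s → β) (a : ZMod s) :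
    pext F s X a.val = X a := congrFun (res_pext F X) a

theorem pa_SOB (hF : Sem k q F) (C : ZMod s → Ω) (Z Y : ZMod s → n → Ω) :
    Pa (pext (frz q σ) s C) (pext F s Z) (pext (sF σ F) s Y) 0 ↔
      ∀ (j : n) (a : ZMod s), Y a j = pext (sF σ F) s Y (a.val - 1) j + C a * Z a j := by
  rw [pa_iff hF (pe_pext _ C) (pe_pext _ Z) (pe_pext _ Y) (hF.sF σ).pe_zero]
  simp only [pext_val_SOB, Pi.zero_apply, add_zero]
  exact ⟨fun H j a => congrFun (H a) j, fun H a => funext fun j => H j a⟩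

theorem frv_SOB (k : Type) [Field k] [Algebra k Ω] [Sq k q] :
    (frv q σ ι : Equiv.Perm (ι → Ω)) = sF σ (frv q 1 ι) := by
  ext x i
  rw [sF_apply, Pi.smul_apply, frv_apply k, frv_apply k, sg_one, one_mul, smul_eq_mul]

theorem Az.gp_raff (h : Az k q G) (hκ : κ ^ q = κ) (hi : Is s D R f)
    (hp : Gy k G (AS q (fun y : ((Ecf Ω s D × (ZMod s → ι ⊕ ι → Ω)) × Cyp Ω s ι) ×
      (ZMod s × ι → Ω) => P1 q σ s D R f y.1)
      fun y => Lf q σ κ s D y.1 + y.2 ⬝ᵥ Dr q σ s D y.1)) :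
    GP k G q σ κ ι s D R f (fun u => u - 1) (Piv R f) := by
  classical
  have hF : Fo k q (-1) (Bf (-1)) (FH (Ω := Ω) q ι) := fd_bf (-1) _
  have hS := hF.sem.sF σ
  have hD : Pq k (P1 (Ω := Ω) (ι := ι) q σ s D R f) (Dr q σ s D) := Pq.pi fun i =>
    ((((Pq.snd (Pq.snd Pq.id)).eval i.1).eval (Sum.inr i.2)).sub
      ((Pq.pext hS.po hS.po' (Pq.snd (Pq.snd Pq.id)) _).eval (Sum.inr i.2))).sub
      (((Pq.fst (Pq.snd Pq.id)).eval i.1).mul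
        (((Pq.snd (Pq.fst Pq.id)).eval i.1).eval (Sum.inr i.2)))
  have hψ : Pq k (P1 (Ω := Ω) (ι := ι) q σ s D R f) (Lf q σ κ s D) :=
    ((pq_tf (s := s) (D := D) hF).comp (Pq.fst Pq.id)).add
      ((pq_xp (σ := σ) (s := s) hκ).comp ((Pq.snd (Pq.fst Pq.id)).mk (Pq.snd Pq.id)))
  refine Gy.as_of_iff (h.toAu.as_raff hD hψ (fun S => ?_) hp) (fun y => ?_) fun _ _ => rfl
  · refine h.toAu.giso (fun y => ((y.1, y.2.1), y.2.2)) (fun y => (y.1.1, y.1.2, y.2))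
      (by fun_prop) (by fun_prop) (fun y hy => ?_) (fun y hy => ?_) (fun _ _ => rfl)
      (fun _ _ => rfl) (h.toAu.pgood (Sum.elim (fun _ : ι => σ) fun _ : ι => -σ)
        {a : ZMod s | ¬R a.val} (Sum.elim (fun _ => Set.univ) fun i => {a | (a, i) ∈ S})
        (h.gy_bc (ε := -1) hi))
    · refine ⟨⟨⟨hy.1.1, hy.1.2, ((sem_frs (k := k) σ).act_iff hi.perR _).2 fun a ha =>
        (hy.2.1 a ha).2⟩, (hF.sem.act_iff hi.perR _).2 fun a ha => (hy.2.1 a ha).1,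
        fun i a => ?_⟩, fun a ha => ?_⟩
      · rw [pext_sF k]
        exact hy.2.2 (.inl i) a trivial
      · have e := hy.2.2 (.inr a.2) a.1 ha
        rw [Dr, pext_sF k]
        linear_combination e
    · refine ⟨⟨hy.1.1.1, hy.1.1.2.1⟩, fun a ha => ⟨(hF.sem.act_iff hi.perR _).1 hy.1.2.1 a ha,
        ((sem_frs (k := k) σ).act_iff hi.perR _).1 hy.1.1.2.2 a ha⟩, fun j a ha => ?_⟩
      rw [← pext_sF k]
      rcases j with i | i
      · exact hy.1.2.2 i a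
      · have e := hy.2 (a, i) ha
        rw [Dr] at e
        linear_combination e
  · refine ⟨fun H => ?_, fun H => ⟨⟨H.1.1.1, H.1.2.1, fun w => ?_, H.1.1.2.1⟩, H.1.1.2.2,
      (pa_SOB hF.sem _ _ _).2 fun j a => ?_⟩⟩
    · have e := (pa_SOB hF.sem _ _ _).1 H.2.2
      refine ⟨⟨⟨H.1.1, H.1.2.2.2, H.2.1⟩, H.1.2.1, fun i a => e (.inl i) a⟩, funext fun i => ?_⟩
      rw [Dr, Pi.zero_apply]
      linear_combination e (.inr i.2) i.1
    · rw [show clq R (fun u => u - 1) w = ∅ from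
        Set.eq_empty_of_forall_notMem fun u hu => by linarith [hu.2.1, hu.2.2]]
      exact linearIndepOn_empty Ω _
    · rcases j with i | i
      · exact H.1.2.2 i a
      · have e := congrFun H.2 (a, i)
        rw [Dr, Pi.zero_apply] at e
        linear_combination e

theorem Az.gy_p2 (h : Az k q G) (hi : Is s D R f) :
    Gy k G (P2 (Ω := Ω) (ι := ι) q σ s D R f) := by
  have hV : Sem k q (frv q 1 ι : Equiv.Perm (ι → Ω)) := sem_frv 1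
  refine h.toAu.giso (fun y => ((y.1.1, y.1.2.2.1), y.1.2.1, y.1.2.2.2, y.2))
    (fun w => ((w.1.1, w.2.1, w.1.2, w.2.2.1), w.2.2.2))
    (by fun_prop) (by fun_prop) (fun y hy => ?_) (fun w hw => ?_) (fun _ _ => rfl)
    (fun _ _ => rfl) (h.toAu.gline (ZMod s → ι → Ω) (h.toAu.pgood (fun _ : ι => σ)
      {a : ZMod s | ¬R a.val} (fun _ => Set.univ) (h.gy_bc (ε := -1) hi)))
  · refine ⟨⟨hy.1.1, hy.1.2, ((sem_frs (k := k) σ).act_iff hi.perR _).2 fun a ha =>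
      (hy.2.1 a ha).2⟩, (hV.act_iff hi.perR _).2 fun a ha => (hy.2.1 a ha).1, ?_⟩
    rw [frv_SOB (σ := σ) k]
    refine (pa_SOB hV _ _ _).2 fun j a => ?_
    rw [← frv_SOB k, pext_frv]
    exact hy.2.2 j a trivial
  · refine ⟨⟨hw.1.1, hw.1.2.1⟩, fun a ha => ⟨(hV.act_iff hi.perR _).1 hw.2.1 a ha,
      ((sem_frs (k := k) σ).act_iff hi.perR _).1 hw.1.2.2 a ha⟩, fun j a _ => ?_⟩
    have e := hw.2.2
    rw [frv_SOB (σ := σ) k] at e
    have e' := (pa_SOB hV _ _ _).1 e j a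
    rwa [← frv_SOB k, pext_frv] at e'

end Pool.Agent.CXD
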