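import Pool.Agent.P.MP_2ce3e7_ag.SOB

/-! The bijective case with a path: the locus. -/

set_option linter.unusedSectionVars false
set_option linter.unusedVariables false

open Function Matrix

noncomputable section

namespace Pool.Agent.CXD
open Finset

variable {k Ω : Type} [Field k] [Field Ω] [Algebra k Ω] {q : ℕ} {ε σ τ : ℤˣ} {s D : ℕ} [NeZero s]
  {R : ℤ → Prop} {f f' f₁ f₂ g : ℤ → ℤ} {ι n : Type} [Fintype ι] [Fintype n] {b : ι → Bool}
  {G : Gp Ω} {B : (n → Ω) → (n → Ω) → Ω} {F : Equiv.Perm (n → Ω)} {Q Q' : (ℤ → ℤ → Ω) → Prop}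
  {r θ : ℤ} {e : ℤ → ℤ → Ω} {κ δ : Ω} {α β : Type} [Af Ω α] [Af Ω β] [IsAlgClosed Ω] [Sq k q]

theorem pext_val_SOC {γ : Type} (F : Equiv.Perm γ) (X : ZMod s → γ) (c : ZMod s) :
    pext F s X c.val = X c := congrFun (res_pext F X) c

theorem pext_eq_SOC {γ : Type} {F : Equiv.Perm γ} {x : ℤ → γ} (hx : Pe F s x) {X : ZMod s → γ}
    (h : ∀ c, X c = x c.val) : pext F s X = x := by
  rw [← hx.pext_res]
  exact congrArg _ (funext h)

theorem zero_SOC (k : Type) [Field k] [Algebra k Ω] [Sq k q] {x : ℤ → ι → Ω}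
    (hx : Pe (frv q σ ι) s x) (h : ∀ (c : ZMod s) i, x c.val i = 0) (u : ℤ) (i : ι) : x u i = 0 :=
  congrFun (congrFun (hx.ext' (sem_frv (k := k) σ).pe_zero fun u h0 h1 => funext fun i => by
    have := h (u : ZMod s) i
    rwa [val_SE1 h0 h1] at this) u) i

theorem so_iff_SOC (k : Type) [Field k] [Algebra k Ω] [Sq k q] (h2 : (2 : Ω) ≠ 0) (hκ : κ ^ q = κ)
    (ha : Amx q (-1) s D e) {c : ℤ → Ω} {a al ga η : ℤ → ι → Ω} (hc : Pe (frz q σ) s c)
    (h1 : Pe (frv q 1 ι) s a) (h3 : Pe (frv q σ ι) s al) (h4 : Pe (frv q σ ι) s ga)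
    (h5 : ∀ u i, η u i = ga u i - κ * c u * a u i)
    (h6 : ∀ u i, al u i = al (u - 1) i + c u * a u i) :
    (∀ θ, So κ D e c a η θ) ↔
      (∀ (t : ZMod s) i, -2 * Ew D e a t.val i - c t.val * ga t.val i = 0) ∧ ∀ (t : ZMod s) i,
        κ * (al (t.val - 1) i - al (t.val + 1) i) + ga t.val i - ga (t.val + 1) i = 0 := by
  have hq : Su k q := Sq.su
  have hs := sg_mul_self (Ω := Ω) σ
  refine ⟨fun h => ⟨fun t i => mul_left_cancel₀ h2 ?_, fun t i => ?_⟩, fun h θ => ?_⟩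
  · have e1 := congrFun (h t.val).1 i
    have e2 := congrFun (h t.val).2 i
    simp only [Pi.add_apply, Pi.sub_apply, Pi.smul_apply, Pi.zero_apply, smul_eq_mul] at e1 e2
    linear_combination -e2 + c t.val * (2 * h5 t.val i - e1)
  · have e1 := congrFun (h (t.val + 1)).1 i
    have e2 := h6 (t.val + 1) i
    simp only [Pi.sub_apply, Pi.smul_apply, smul_eq_mul, add_sub_cancel_right] at e1 e2
    linear_combination -κ * h6 t.val i - κ * e2 - h5 t.val i + h5 (t.val + 1) i - e1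
  · have a1 := zero_SOC k (σ := 1) (x := fun u i => -2 * Ew D e a u i - c u * ga u i)
      (fun u => funext fun i => by
        rw [frv_apply k]
        beta_reduce
        rw [Ew.per (sem_frv (k := k) 1) ha h1, hc, h4, frs_apply k]
        simp only [Pi.neg_apply, Pi.smul_apply, smul_eq_mul, frv_apply k, sg_neg, sg_one,
          hq.sub_pow, hq.neg_pow, mul_pow, two_pow_eq k]
        linear_combination (-(c u ^ q * ga u i ^ q)) * hs) h.1 θ
    have a2 := zero_SOC k (σ := σ)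
      (x := fun u i => κ * (al (u - 1) i - al (u + 1) i) + ga u i - ga (u + 1) i)
      (fun u => funext fun i => by
        rw [frv_apply k]
        beta_reduce
        rw [add_sub_right_comm u, add_right_comm u, h3, h3, h4, h4]
        simp only [frv_apply k, hq.sub_pow, hq.add_pow, mul_pow, hκ]
        ring) h.2 (θ - 1)
    have a3 (i : ι) : η θ i = η (θ - 1) i - 2 * κ * c θ * a θ i := by
      have e1 := a2 i
      simp only [sub_add_cancel] at e1
      linear_combination -κ * h6 (θ - 1) i - κ * h6 θ i - h5 (θ - 1) i + h5 θ i - e1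
    refine ⟨funext a3, funext fun i => ?_⟩
    have e1 := a1 i
    simp only [Pi.add_apply, Pi.smul_apply, Pi.zero_apply, smul_eq_mul] at e1 ⊢
    linear_combination -2 * e1 + c θ * (2 * h5 θ i - a3 i)

theorem pe_eta_SOC (k : Type) [Field k] [Algebra k Ω] [Sq k q] (hκ : κ ^ q = κ) {c : ℤ → Ω}
    {a x : ℤ → ι → Ω} (hc : Pe (frz q σ) s c) (h1 : Pe (frv q 1 ι) s a)
    (h3 : Pe (frv q σ ι) s x) : Pe (frv q σ ι) s fun u i => x u i + κ * c u * a u i := by
  intro u
  funext i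
  rw [frv_apply k]
  beta_reduce
  rw [hc, h1, h3, frs_apply k]
  simp only [frv_apply k, (Sq.su : Su k q).add_pow, mul_pow, hκ, sg_one]
  ring

theorem pe_al_SOC (k : Type) [Field k] [Algebra k Ω] [Sq k q] (hκ : κ ^ q = κ) {ν : ι → Ω}
    {x : ℤ → ι → Ω} (hν : frv q σ ι ν = ν) (h3 : Pe (frv q σ ι) s x) :
    Pe (frv q σ ι) s fun u i => κ * (ν i - x u i) := by
  intro u
  funext i
  have e1 := congrFun hν i
  rw [frv_apply k] at e1 ⊢
  beta_reduce
  rw [h3]
  simp only [frv_apply k, (Sq.su : Su k q).sub_pow, mul_pow, hκ]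
  linear_combination -κ * e1

theorem const_SOC {γ : Type} {x : ℤ → γ} (h : ∀ u, x u = x (u - 1)) (u : ℤ) : x u = x 0 := by
  induction u using Int.induction_on with
  | zero => rfl
  | succ j ih => rw [h, add_sub_cancel_right, ih]
  | pred j ih => rw [← h, ih]

theorem frz_one_SOC (k : Type) [Field k] [Algebra k Ω] [Sq k q] :
    (frz q 1 : Equiv.Perm Ω) = frq q :=
  Equiv.ext fun t => by rw [frs_apply k, fr_apply k, sg_one, one_mul]

theorem eqs_SOC (hκ : κ ^ q = κ) {p : α → Prop} {e : α → ℤ → ℤ → Ω} {a b al be ga c : α → ℤ → Ω}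
    (he : ∀ u v, Pq k p fun x => e x u v) (ha : ∀ u, Pq k p fun x => a x u)
    (hb : ∀ u, Pq k p fun x => b x u) (hal : ∀ u, Pq k p fun x => al x u)
    (hbe : ∀ u, Pq k p fun x => be x u) (hga : ∀ u, Pq k p fun x => ga x u)
    (h1 : ∀ x, p x → Amx q (-1) s D (e x)) (h2 : ∀ x, Pe (frq q) s (a x))
    (h3 : ∀ x, Pe (frz q (-1)) s (b x)) (h4 : ∀ x, Pe (frz q σ) s (al x))
    (h5 : ∀ x, Pe (frz q (-σ)) s (be x)) (h6 : ∀ x, Pe (frz q σ) s (ga x)) :
    Eqs k q p (fun x => ph s D (B1 (-1)) (e x) (fun u => (a x u, b x u)) + ∑ θ ∈ Ico (0 : ℤ) s,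
        (κ * (al x (θ - 1) * be x θ - be x (θ - 1) * al x θ) +
          ga x θ * (be x θ - be x (θ - 1) - c x θ * b x θ)))
      fun x => ∑ θ ∈ Ico (0 : ℤ) s, (b x θ * (-2 * Ew D (e x) (a x) θ - c x θ * ga x θ) +
        be x θ * (κ * (al x (θ - 1) - al x (θ + 1)) + ga x θ - ga x (θ + 1))) := by
  have r0 := kr_of_pow (k := k) hκ
  have hq : Su k q := Sq.su
  have key := (eqs_h he ha hb h1 (fun x _ => h2 x) fun x _ => h3 x).add
    ((Eqs.refl (k := k) (q := q) (p := p) (ψ := fun x => ∑ θ ∈ Ico (0 : ℤ) s,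
      (κ * (al x (θ - 1) * be x θ) + ga x θ * (be x θ - c x θ * b x θ)))).add
    (eqs_window s (τ := fun x u => -(be x u * (κ * al x (u + 1) + ga x (u + 1))))
      (fun u => ((hbe _).mul (((Pq.const κ).mul (hal _)).add (hga _))).neg)
      (fun x u _ => by
        rw [add_right_comm u, h4, h5, h6]
        simp only [frs_apply k, sg_neg, hq.neg_pow, hq.add_pow, mul_pow, hκ]
        linear_combination (be x u ^ q * (κ * al x (u + 1) ^ q + ga x (u + 1) ^ q)) *
          sg_mul_self (Ω := Ω) σ) (-1)))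
  refine ((Eqs.of_eq fun x _ => ?_).trans key).trans (Eqs.of_eq fun x _ => ?_)
  · rw [← sum_add_distrib]
    refine congrArg _ (sum_congr rfl fun θ _ => ?_)
    rw [neg_add_cancel_right, ← sub_eq_add_neg θ]
    ring
  · rw [← sum_add_distrib, ← sum_add_distrib]
    refine sum_congr rfl fun θ _ => ?_
    rw [sg_neg, sg_one]
    ring

theorem Az.gp_aff (h : Az k q G) (hκ : κ ^ q = κ) (hi : Is s D R f)
    (hp : Gy k G fun w => P2 (ι := ι) q σ s D R f w ∧ D2 q σ κ s D w = 0) :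
    Gy k G (AS q (fun y : ((Ecf Ω s D × (ZMod s → ι ⊕ ι → Ω)) × Cyp Ω s ι) ×
      (ZMod s × ι → Ω) => P1 q σ s D R f y.1)
      fun y => Lf q σ κ s D y.1 + y.2 ⬝ᵥ Dr q σ s D y.1) := by
  have r0 := kr_of_pow (k := k) hκ
  have s0 := (sem_frs (k := k) (Ω := Ω) σ).act_iff (s := s) hi.perR
  have s1 := (sem_frv (k := k) (Ω := Ω) (ι := ι) 1).act_iff (s := s) hi.perR
  have s2 := (sem_FV (k := k) (Ω := Ω) (-1) fun _ : ι => false).act_iff (s := s) hi.perR
  have pv {p : (Ecf Ω s D × (ZMod s → Ω)) × (ZMod s → ι → Ω) × (ZMod s → ι → Ω) ×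
      (ZMod s → ι → Ω) → Prop} (σ : ℤˣ) {X} (hX : Pq k p X) (u : ℤ) :
      Pq k p fun w => pext (frv q σ ι) s (X w) u :=
    Pq.pext (sem_frv σ).po (sem_frv σ).po' hX u
  have key := h.toAu.as_aff (p := P2 (ι := ι) q σ s D R f) (ψ := fun _ => 0)
    (Sum.elim (fun j : ZMod s × ι => R j.1.val) fun _ : ZMod s × ι => True)
    (D := D2 q σ κ s D) (Pq.elim (Pq.pi fun j => ((Pq.const 2).neg.mul
      ((Pq.ev (Pq.ee (Pq.fst (Pq.fst Pq.id)) (-1)) (pv 1 (by fun_prop)) _).eval _)).sub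
        (by fun_prop)) (Pq.pi fun j => (((Pq.const κ).mul (((pv σ (by fun_prop) _).eval _).sub
          ((pv σ (by fun_prop) _).eval _))).add (by fun_prop)).sub
            ((pv σ (by fun_prop) _).eval _))) (Pq.const 0)
    (fun x j hx hR => by
      rcases j with j | j
      · have e1 : Ew D (ee q (-1) x.1.1) (pext (frv q 1 ι) s x.2.1) j.1.val = 0 :=
          sum_eq_zero fun v _ => by
            rw [by_contra fun hn => hR (hx.1.1.of_ne (hx.1.1.ad k) (v := v) hn).1, zero_smul]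
        simp only [D2, Sum.elim_inl, e1, (s0 _).1 hx.1.2.2 j.1 hR, Pi.zero_apply, mul_zero,
          zero_mul, sub_zero]
      · exact absurd trivial hR)
    (h.gy_p2 hi) (h.toAu.as_zero hp)
  have e0 (X Y : ZMod s → ι → Ω) (u : ℤ) (i : ι) :
      pext (sF σ (FH q ι)) s (fun c => Sum.elim (X c) (Y c)) u (.inl i) =
        pext (frv q σ ι) s X u i := by
    rw [pext_sF k, pext_frv]
    rfl
  refine h.toAu.as_iso (fun w : ((Ecf Ω s D × (ZMod s → Ω)) × (ZMod s → ι → Ω) × (ZMod s → ι → Ω) ×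
      (ZMod s → ι → Ω)) × ((ZMod s × ι) ⊕ (ZMod s × ι) → Ω) =>
      (((w.1.1.1, fun c => Sum.elim (w.1.2.1 c) fun i => w.2 (.inl (c, i))),
        (w.1.1.2, fun c => Sum.elim (w.1.2.2.1 c) fun i => w.2 (.inr (c, i)))),
        fun j => w.1.2.2.2 j.1 j.2))
    (fun y => (((y.1.1.1, y.1.2.1), fun c i => y.1.1.2 c (.inl i), fun c i => y.1.2.2 c (.inl i),
      fun c i => y.2 (c, i)), Sum.elim (fun j => y.1.1.2 j.1 (.inr j.2))
        fun j => y.1.2.2 j.1 (.inr j.2)))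
    (by fun_prop) (by fun_prop) (fun w hw => ?_) (fun y hy => ?_) (fun w _ => ?_) (fun y _ => ?_)
    ?_ key
  · refine ⟨hw.1.1, (s2 _).2 fun c hR => funext fun j => ?_, fun i a => ?_⟩
    · rcases j with i | i
      · exact congrFun ((s1 _).1 hw.1.2.1 c hR) i
      · exact hw.2 (.inl (c, i)) hR
    · have e1 := congrFun (hw.1.2.2 a.val) i
      simp only [pext_val_SOC, Pi.add_apply, Pi.smul_apply, Pi.zero_apply, add_zero,
        smul_eq_mul] at e1
      dsimp only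
      rw [e0]
      exact e1
  · refine ⟨⟨hy.1, (s1 _).2 fun c hR => funext fun i => congrFun ((s2 _).1 hy.2.1 c hR) (.inl i),
      ?_⟩, fun j hR => ?_⟩
    · have e2 : sF σ (frv q 1 ι) = (frv q σ ι : Equiv.Perm (ι → Ω)) := Equiv.ext fun x => by
        funext i
        rw [sF_apply, Pi.smul_apply, frv_apply k, frv_apply k, sg_one, one_mul, smul_eq_mul]
      refine (pa_iff (k := k) (sem_frv 1) (pe_pext _ _) (pe_pext _ _) (e2 ▸ pe_pext _ _)
        (e2 ▸ (sem_frv (k := k) σ).pe_zero)).2 fun a => funext fun i => ?_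
      have e1 := hy.2.2 i a
      rw [pext_sF k] at e1
      simp only [pext_val_SOC, Pi.add_apply, Pi.smul_apply, Pi.zero_apply, add_zero, smul_eq_mul]
      rw [pext_frv]
      exact e1
    · rcases j with j | j
      · exact congrFun ((s2 _).1 hy.2.1 j.1 hR) (.inr j.2)
      · exact absurd trivial hR
  · refine Prod.ext rfl (funext fun j => ?_)
    rcases j with j | j <;> rfl
  · refine Prod.ext (Prod.ext (Prod.ext rfl ?_) (Prod.ext rfl ?_)) rfl <;>
      exact funext fun c => funext fun j => by rcases j with j | j <;> rfl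
  · refine ((Eqs.of_eq fun w _ => ?_).trans (Eqs.sum univ fun (i : ι) _ => eqs_SOC (k := k)
      (p := fun w : ((Ecf Ω s D × (ZMod s → Ω)) × (ZMod s → ι → Ω) × (ZMod s → ι → Ω) ×
        (ZMod s → ι → Ω)) × ((ZMod s × ι) ⊕ (ZMod s × ι) → Ω) => P2 q σ s D R f w.1 ∧ ∀ a,
          ¬Sum.elim (fun j : ZMod s × ι => R j.1.val) (fun _ : ZMod s × ι => True) a → w.2 a = 0)
      (D := D) (σ := σ) (s := s) hκ
      (e := fun w => ee q (-1) w.1.1.1) (a := fun w => pext (frq q) s fun c => w.1.2.1 c i)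
      (b := fun w => pext (frz q (-1)) s fun c => w.2 (.inl (c, i)))
      (al := fun w => pext (frz q σ) s fun c => w.1.2.2.1 c i)
      (be := fun w => pext (frz q (-σ)) s fun c => w.2 (.inr (c, i)))
      (ga := fun w => pext (frz q σ) s fun c => w.1.2.2.2 c i)
      (c := fun w => pext (frz q σ) s w.1.1.2) (Pq.ee (by fun_prop) _)
      (Pq.pext po_fr po_fr_symm (by fun_prop)) (Pq.pext (po_frs _) (po_frs_symm _) (by fun_prop))
      (Pq.pext (po_frs _) (po_frs_symm _) (by fun_prop))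
      (Pq.pext (po_frs _) (po_frs_symm _) (by fun_prop))
      (Pq.pext (po_frs _) (po_frs_symm _) (by fun_prop)) (fun w hw => hw.1.1.1.ad k)
      (fun _ => pe_pext _ _) (fun _ => pe_pext _ _) (fun _ => pe_pext _ _) (fun _ => pe_pext _ _)
      fun _ => pe_pext _ _)).trans (Eqs.of_eq fun w _ => ?_)
    · rw [sum_add_distrib, Lf, Df, Tf, ph_planes, add_assoc]
      refine congrArg₂ _ (sum_congr rfl fun i _ => congrArg _ (funext (pext_F1_false _))) ?_
      rw [sum_comm, Xp, Ps, mul_sum, ← sum_zmod_SB8, ← sum_zmod_SB8, dotProduct,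
        Fintype.sum_prod_type, ← sum_add_distrib]
      refine sum_congr rfl fun c _ => ?_
      rw [Bf, mul_sum, ← sum_add_distrib]
      refine sum_congr rfl fun i _ => ?_
      simp only [Dr, pext_sF k, pext_val_SOC, Sum.elim_inl, Sum.elim_inr, sg_neg, sg_one]
      ring
    · rw [zero_add, sum_comm, ← sum_zmod_SB8, dotProduct, Fintype.sum_sum_type,
        Fintype.sum_prod_type, Fintype.sum_prod_type, ← sum_add_distrib]
      refine sum_congr rfl fun c _ => ?_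
      rw [← sum_add_distrib]
      refine sum_congr rfl fun i _ => ?_
      simp only [D2, Ew, Finset.sum_apply, Pi.smul_apply, pext_frv, pext_val_SOC, Sum.elim_inl,
        Sum.elim_inr, frz_one_SOC k]

theorem Au.gp_loc (h : Au k q G) (h2 : (2 : Ω) ≠ 0) (hκ : κ ^ q = κ) (hκ0 : κ ≠ 0)
    (hi : Is s D R f)
    (hp : Gy k G fun y : (Ecf Ω s D × (ZMod s → Ω)) × (ZMod s → ι → Ω) × (ZMod s → ι → Ω) =>
      Bc q σ s D R f y.1 ∧ Sl q σ κ ι s D R (ee q (-1) y.1.1) (pext (frz q σ) s y.1.2) y.2) :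
    Gy k G fun w => P2 (ι := ι) q σ s D R f w ∧ D2 q σ κ s D w = 0 := by
  have hq : Su k q := Sq.su
  have k1 : (-κ) ^ q = -κ := by rw [hq.neg_pow, hκ]
  have k2 : ((2 * κ)⁻¹) ^ q = (2 * κ)⁻¹ := by rw [inv_pow, mul_pow, two_pow_eq k, hκ]
  have k3 : (2 * κ)⁻¹ * (2 * κ) = 1 := inv_mul_cancel₀ (mul_ne_zero h2 hκ0)
  have r0 := kr_of_pow (k := k) hκ
  have r1 := kr_of_pow (k := k) k1
  have r2 := kr_of_pow (k := k) k2
  have d2 (w : (Ecf Ω s D × (ZMod s → Ω)) × (ZMod s → ι → Ω) × (ZMod s → ι → Ω) ×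
      (ZMod s → ι → Ω)) : D2 q σ κ s D w = 0 ↔
      (∀ (t : ZMod s) i, -2 * Ew D (ee q (-1) w.1.1) (pext (frv q 1 ι) s w.2.1) t.val i -
        pext (frz q σ) s w.1.2 t.val * pext (frv q σ ι) s w.2.2.2 t.val i = 0) ∧
      ∀ (t : ZMod s) i, κ * (pext (frv q σ ι) s w.2.2.1 (t.val - 1) i -
        pext (frv q σ ι) s w.2.2.1 (t.val + 1) i) + pext (frv q σ ι) s w.2.2.2 t.val i -
        pext (frv q σ ι) s w.2.2.2 (t.val + 1) i = 0 := by
    simp only [pext_val_SOC]
    exact ⟨fun e1 => ⟨fun t i => congrFun e1 (.inl (t, i)), fun t i => congrFun e1 (.inr (t, i))⟩,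
      fun e1 => funext fun j => j.casesOn (fun j => e1.1 j.1 j.2) fun j => e1.2 j.1 j.2⟩
  have pa {c : ℤ → Ω} {a al : ℤ → ι → Ω} :
      Pa c a al 0 ↔ ∀ u i, al u i = al (u - 1) i + c u * a u i :=
    forall_congr' fun u => by
      rw [Pi.zero_apply, add_zero]
      exact funext_iff
  have back (w : (Ecf Ω s D × (ZMod s → Ω)) × (ZMod s → ι → Ω) × (ZMod s → ι → Ω) ×
      (ZMod s → ι → Ω)) (hw : P2 q σ s D R f w ∧ D2 q σ κ s D w = 0) :
      Sl q σ κ ι s D R (ee q (-1) w.1.1) (pext (frz q σ) s w.1.2)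
        (w.2.1, fun c i => w.2.2.2 c i + -κ * w.1.2 c * w.2.1 c i) ∧
      ∀ u i, pext (frv q σ ι) s w.2.2.2 u i + -κ * pext (frz q σ) s w.1.2 u *
        pext (frv q 1 ι) s w.2.1 u i + 2 * κ * pext (frv q σ ι) s w.2.2.1 u i =
        w.2.2.2 0 i + -κ * w.1.2 0 * w.2.1 0 i + 2 * κ * w.2.2.1 0 i := by
    have e1 := pext_eq_SOC (pe_eta_SOC k k1 (pe_pext (frz q σ) w.1.2) (pe_pext _ w.2.1)
      (pe_pext _ w.2.2.2)) (X := fun c i => w.2.2.2 c i + -κ * w.1.2 c * w.2.1 c i)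
      fun c => by simp only [pext_val_SOC]
    have e2 := (so_iff_SOC k h2 hκ (hw.1.1.1.ad k) (pe_pext (frz q σ) w.1.2) (pe_pext _ w.2.1)
      (pe_pext _ w.2.2.1) (pe_pext _ w.2.2.2) (η := fun u i => pext (frv q σ ι) s w.2.2.2 u i +
        -κ * pext (frz q σ) s w.1.2 u * pext (frv q 1 ι) s w.2.1 u i) (fun u i => by ring)
      (pa.1 hw.1.2.2)).2 ((d2 w).1 hw.2)
    refine ⟨⟨hw.1.2.1, fun θ => ?_⟩, fun u i => ?_⟩
    · dsimp only
      rw [e1]
      exact e2 θ
    · have e3 := const_SOC (x := fun u => pext (frv q σ ι) s w.2.2.2 u i + -κ *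
        pext (frz q σ) s w.1.2 u * pext (frv q 1 ι) s w.2.1 u i +
        2 * κ * pext (frv q σ ι) s w.2.2.1 u i) (fun u => by
          have e4 := congrFun (e2 u).1 i
          simp only [Pi.sub_apply, Pi.smul_apply, smul_eq_mul] at e4
          linear_combination e4 + 2 * κ * pa.1 hw.1.2.2 u i) u
      simp only [pext_of_mem le_rfl (pos_SE0 s), Int.cast_zero] at e3
      exact e3
  refine h.giso (fun y : ((Ecf Ω s D × (ZMod s → Ω)) × (ZMod s → ι → Ω) × (ZMod s → ι → Ω)) ×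
      (ι → Ω) => (y.1.1, y.1.2.1, fun c i => (2 * κ)⁻¹ * (y.2 i - y.1.2.2 c i),
        fun c i => y.1.2.2 c i + κ * y.1.1.2 c * y.1.2.1 c i))
    (fun w => ((w.1, w.2.1, fun c i => w.2.2.2 c i + -κ * w.1.2 c * w.2.1 c i),
      fun i => w.2.2.2 0 i + -κ * w.1.2 0 * w.2.1 0 i + 2 * κ * w.2.2.1 0 i))
    (by fun_prop) (by fun_prop) (fun y hy => ?_) (fun w hw => ?_)
    (fun y hy => ?_) (fun w hw => ?_)
    (h.grats (p' := fun ν : ι → Ω => frv q σ ι ν = ν) (fun ν hν => kr_pi fun i => ?_) hp)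
  · have e1 := pext_eq_SOC (pe_al_SOC k k2 hy.2 (pe_pext _ y.1.2.2))
      (X := fun c i => (2 * κ)⁻¹ * (y.2 i - y.1.2.2 c i)) fun c => by simp only [pext_val_SOC]
    have e2 := pext_eq_SOC (pe_eta_SOC k hκ (pe_pext (frz q σ) y.1.1.2) (pe_pext _ y.1.2.1)
      (pe_pext _ y.1.2.2)) (X := fun c i => y.1.2.2 c i + κ * y.1.1.2 c * y.1.2.1 c i)
      fun c => by simp only [pext_val_SOC]
    have e3 (u : ℤ) (i : ι) : pext (frv q σ ι) s
        (fun c i => (2 * κ)⁻¹ * (y.2 i - y.1.2.2 c i)) u i = pext (frv q σ ι) s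
        (fun c i => (2 * κ)⁻¹ * (y.2 i - y.1.2.2 c i)) (u - 1) i +
        pext (frz q σ) s y.1.1.2 u * pext (frv q 1 ι) s y.1.2.1 u i := by
      have e4 := congrFun (hy.1.2.2 u).1 i
      simp only [Pi.sub_apply, Pi.smul_apply, smul_eq_mul] at e4
      rw [e1]
      linear_combination -(2 * κ)⁻¹ * e4 +
        pext (frz q σ) s y.1.1.2 u * pext (frv q 1 ι) s y.1.2.1 u i * k3
    refine ⟨⟨hy.1.1, hy.1.2.1, pa.2 e3⟩, (d2 _).2 ?_⟩
    exact (so_iff_SOC k h2 hκ (hy.1.1.1.ad k) (pe_pext _ _) (pe_pext _ _) (pe_pext _ _)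
      (pe_pext _ _) (fun u i => by rw [e2]; ring) e3).1 hy.1.2.2
  · refine ⟨⟨hw.1.1, (back w hw).1⟩, funext fun i => ?_⟩
    have e1 := (back w hw).2 0 i
    have e2 := (back w hw).2 (0 + s) i
    rw [pe_pext, pe_pext, pe_pext, pe_pext, frs_apply k] at e2
    rw [frv_apply k]
    dsimp only
    rw [← e1]
    simp only [frv_apply k, sg_one] at e2
    simp only [hq.add_pow, mul_pow, k1, hκ, two_pow_eq k]
    linear_combination e2 - e1
  · refine Prod.ext (Prod.ext rfl (Prod.ext rfl ?_)) ?_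
    · funext c i
      dsimp only
      ring
    · funext i
      dsimp only
      linear_combination (y.2 i - y.1.2.2 0 i) * k3
  · refine Prod.ext rfl (Prod.ext rfl (Prod.ext ?_ ?_))
    · funext c i
      have e1 := (back w hw).2 c.val i
      simp only [pext_val_SOC] at e1
      dsimp only
      linear_combination -(2 * κ)⁻¹ * e1 + w.2.2.1 c i * k3
    · funext c i
      dsimp only
      ring
  · have e1 := congrFun hν i
    rw [frv_apply k] at e1
    refine (hq.kr_iff _).2 ?_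
    have e2 := congrArg (· ^ q) e1
    simp only [mul_pow, sg_pow k] at e2
    rw [sq, pow_mul]
    linear_combination sg σ * e2 + e1 - (ν i ^ q) ^ q * sg_mul_self (Ω := Ω) σ

end Pool.Agent.CXD
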