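import Pool.Agent.P.MP_2ce3e7_ag.SOB

/-! Orthogonal frames of odd size. -/

set_option linter.unusedSectionVars false
set_option linter.unusedVariables false

open Function Matrix

noncomputable section

namespace Pool.Agent.CXD
open Finset

variable {k Ω : Type} [Field k] [Field Ω] [Algebra k Ω] {q : ℕ} {ε σ τ : ℤˣ} {s D : ℕ} [NeZero s]
  {R : ℤ → Prop} {f f' f₁ f₂ g : ℤ → ℤ} {ι n : Type} [Fintype ι] [Fintype n] {b : ι → Bool}
  {G : Gp Ω} {B : (n → Ω) → (n → Ω) → Ω} {F : Equiv.Perm (n → Ω)} {Q Q' : (ℤ → ℤ → Ω) → Prop}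
  {r θ : ℤ} {e : ℤ → ℤ → Ω} {κ δ : Ω} {α β : Type} [Af Ω α] [Af Ω β] [IsAlgClosed Ω] [Sq k q]

/-- hyperbolic families for a symmetric form -/
def Hb (B : (n → Ω) → (n → Ω) → Ω) (A : Finset ℤ) (z p : ℤ → n → Ω) : Prop :=
  ∀ u ∈ A, ∀ v ∈ A, B (z u) (z v) = 0 ∧ B (z u) (p v) = (if u = v then 1 else 0) ∧ B (p u) (p v) = 0

/-- hyperbolic families with a normal vector -/
def Ho (B : (n → Ω) → (n → Ω) → Ω) (d : Ω) (A : Finset ℤ) (z p : ℤ → n → Ω) (ν : n → Ω) : Prop :=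
  Hb B A z p ∧ (∀ u ∈ A, B (z u) ν = 0 ∧ B (p u) ν = 0) ∧ B ν ν = d

/-- the frame at the gap after `θ` -/
def Hz (B : (n → Ω) → (n → Ω) → Ω) (κ : Ω) (D : ℕ) (R : ℤ → Prop) (f : ℤ → ℤ) (e : ℤ → ℤ → Ω)
    (z m : ℤ → n → Ω) (θ : ℤ) : Prop := Ho B (-4 * κ) (bd D R f θ) z (Pv D e z θ) (m θ)

/-- the vector with given products -/
def Yo (d : Ω) (A : Finset ℤ) (z p : ℤ → n → Ω) (ν : n → Ω) (a a' : ℤ → Ω) (t : Ω) : n → Ω :=
  ∑ u ∈ A, (a u • p u + a' u • z u) + (t * d⁻¹) • ν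

variable {A : Finset ℤ} {z p m : ℤ → n → Ω} {ν ν' y : n → Ω} {d t : Ω} {a a' c : ℤ → Ω}

theorem Fo.bl_SOD (hF : Fo k q 1 B F) : ∃ L : (n → Ω) →ₗ[Ω] (n → Ω) →ₗ[Ω] Ω,
    B = (fun x y => L x y) ∧ ∀ x y, L x y = L y x :=
  ⟨LinearMap.mk₂ Ω B (fun x x' y => (hF.lin y).map_add x x') (fun t x y => (hF.lin y).map_smul t x)
    (fun x => (hF.lin' x).map_add) fun t x y => (hF.lin' x).map_smul t y, rfl,
    fun x y => (hF.comm y x).trans (by rw [sg_one, one_mul]; rfl)⟩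

theorem Ho.yo (h : Ho B d A z p ν) (hF : Fo k q 1 B F) (h0 : d ≠ 0) :
    (∀ u ∈ A, B (z u) (Yo d A z p ν a a' t) = a u ∧ B (p u) (Yo d A z p ν a a' t) = a' u) ∧
      B ν (Yo d A z p ν a a' t) = t := by
  obtain ⟨L, rfl, hs⟩ := hF.bl_SOD
  obtain ⟨h1, h2, h3⟩ := h
  simp only [Hb] at h1 h2 h3
  refine ⟨fun u hu => ⟨?_, ?_⟩, ?_⟩
  · simp only [Yo, map_add, map_sum, map_smul, smul_eq_mul]
    rw [(h2 u hu).1, sum_eq_single_of_mem u hu, (h1 u hu u hu).1, (h1 u hu u hu).2.1]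
    · simp
    · intro v hv hne
      rw [(h1 u hu v hv).1, (h1 u hu v hv).2.1, if_neg hne.symm]
      simp
  · simp only [Yo, map_add, map_sum, map_smul, smul_eq_mul]
    rw [(h2 u hu).2, sum_eq_single_of_mem u hu, (h1 u hu u hu).2.2, hs (p u) (z u),
      (h1 u hu u hu).2.1]
    · simp
    · intro v hv hne
      rw [(h1 u hu v hv).2.2, hs (p u) (z v), (h1 v hv u hu).2.1, if_neg hne]
      simp
  · simp only [Yo, map_add, map_sum, map_smul, smul_eq_mul]
    rw [h3, sum_eq_zero, zero_add, mul_assoc, inv_mul_cancel₀ h0, mul_one]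
    intro v hv
    rw [hs ν (p v), hs ν (z v), (h2 v hv).1, (h2 v hv).2]
    simp

theorem Ho.eq_zero (h : Ho B d A z p ν) (hF : Fo k q 1 B F) (h0 : d ≠ 0)
    (hc : Fintype.card n = 2 * A.card + 1) (h1 : ∀ u ∈ A, B (z u) y = 0 ∧ B (p u) y = 0)
    (h2 : B ν y = 0) : y = 0 := by
  classical
  let T : (n → Ω) →ₗ[Ω] (Option (A ⊕ A) → Ω) :=
    { toFun := fun y j => j.elim (B ν y) (Sum.elim (fun u => B (z u) y) fun u => B (p u) y)
      map_add' := fun x x' => funext fun j => by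
        rcases j with _ | u | u <;> exact (hF.lin' _).map_add x x'
      map_smul' := fun t x => funext fun j => by
        rcases j with _ | u | u <;> exact (hF.lin' _).map_smul t x }
  have hs : Surjective T := fun c => by
    have e1 := h.yo (a := fun u => if hu : u ∈ A then c (some (.inl ⟨u, hu⟩)) else 0)
      (a' := fun u => if hu : u ∈ A then c (some (.inr ⟨u, hu⟩)) else 0) (t := c none) hF h0
    refine ⟨Yo d A z p ν (fun u => if hu : u ∈ A then c (some (.inl ⟨u, hu⟩)) else 0)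
      (fun u => if hu : u ∈ A then c (some (.inr ⟨u, hu⟩)) else 0) (c none), funext fun j => ?_⟩
    rcases j with _ | u | u
    · exact e1.2
    · exact (e1.1 u u.2).1.trans (dif_pos u.2)
    · exact (e1.1 u u.2).2.trans (dif_pos u.2)
  have hi : Injective T := (LinearMap.injective_iff_surjective_of_finrank_eq_finrank (by
    simp only [Module.finrank_fintype_fun_eq_card, Fintype.card_option, Fintype.card_sum,
      Fintype.card_coe, hc]
    ring)).2 hs
  refine hi (funext fun j => ?_)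
  rw [map_zero]
  rcases j with _ | u | u
  exacts [h2, (h1 u u.2).1, (h1 u u.2).2]

theorem Ho.yo_eq (h : Ho B d A z p ν) (hF : Fo k q 1 B F) (h0 : d ≠ 0)
    (hc : Fintype.card n = 2 * A.card + 1) (y : n → Ω) :
    Yo d A z p ν (fun u => B (z u) y) (fun u => B (p u) y) (B ν y) = y := by
  have e1 := h.yo (a := fun u => B (z u) y) (a' := fun u => B (p u) y) (t := B ν y) hF h0
  refine sub_eq_zero.1 (h.eq_zero hF h0 hc (fun u hu => ⟨?_, ?_⟩) ?_)
  · rw [(hF.lin' _).map_sub, (e1.1 u hu).1, sub_self]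
  · rw [(hF.lin' _).map_sub, (e1.1 u hu).2, sub_self]
  · rw [(hF.lin' _).map_sub, e1.2, sub_self]

theorem Ho.sign (h : Ho B d A z p ν) (h' : Ho B d A z p ν') (hF : Fo k q 1 B F) (h0 : d ≠ 0)
    (hc : Fintype.card n = 2 * A.card + 1) : ν' = ν ∨ ν' = -ν := by
  have e1 := h.yo_eq hF h0 hc ν'
  rw [Yo, sum_eq_zero fun u hu => by rw [(h'.2.1 u hu).1, (h'.2.1 u hu).2]; simp, zero_add] at e1
  generalize B ν ν' * d⁻¹ = w at e1
  subst e1
  have e2 := h'.2.2
  rw [(hF.lin _).map_smul, (hF.lin' _).map_smul, h.2.2, smul_eq_mul, smul_eq_mul] at e2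
  have e3 : w * w = 1 := mul_right_cancel₀ h0 (by rw [mul_assoc, e2, one_mul])
  rcases mul_self_eq_one_iff.1 e3 with rfl | rfl
  · exact Or.inl (one_smul _ _)
  · exact Or.inr (neg_one_smul _ _)

theorem Hb.lion (h : Hb B A z p) (hF : Fo k q 1 B F) : LinearIndepOn Ω z A := by
  obtain ⟨L, rfl, hs⟩ := hF.bl_SOD
  simp only [Hb] at h
  rw [linearIndepOn_finset_iff]
  intro c hc u hu
  have e := congrArg (L (p u)) hc
  simp only [map_sum, map_smul, map_zero, smul_eq_mul] at e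
  rw [sum_eq_single_of_mem u hu] at e
  · rwa [hs, (h u hu u hu).2.1, if_pos rfl, mul_one] at e
  · intro v hv hne
    rw [hs, (h v hv u hu).2.1, if_neg hne, mul_zero]

section
variable {W W' : Type} [AddCommGroup W] [Module Ω W] [AddCommGroup W'] [Module Ω W']
  {x x' η η' : ℤ → W}

theorem So.map (h : So κ D e c x η θ) (L : W →ₗ[Ω] W') :
    So κ D e c (fun u => L (x u)) (fun u => L (η u)) θ := by
  refine ⟨?_, ?_⟩
  · simp only [h.1, map_sub, map_smul]
  · rw [ew_map, ← map_add, ← map_smul, ← map_smul, ← map_add, h.2, map_zero]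

theorem C3.so_uni (h : C3 s D R f g) (h2 : (2 : Ω) ≠ 0) (ha : Amx q (-1) s D e)
    (hs : Se (-1) R f e) (hp : Piv R f e) (hc : Acz R c) (h3 : ∀ θ, 0 ≤ θ → So κ D e c x η θ)
    (h4 : ∀ θ, 0 ≤ θ → So κ D e c x' η' θ)
    (h5 : ∀ u ∈ bd D R f (-1), x u = x' u ∧ Pv D e x (-1) u = Pv D e x' (-1) u)
    (h6 : η (-1) = η' (-1)) :
    (∀ v, v ∈ bd D R f (-1) ∨ (R v ∧ 0 ≤ v) → x v = x' v) ∧ ∀ θ, -1 ≤ θ → η θ = η' θ := by
  have h40 : (4 : Ω) ≠ 0 := by
    rw [show (4 : Ω) = 2 * 2 by norm_num]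
    exact mul_ne_zero h2 h2
  have main : ∀ N : ℕ, (∀ v : ℤ, v < N → R v → 0 ≤ v → x v = x' v) ∧
      ∀ θ : ℤ, θ < N → -1 ≤ θ → η θ = η' θ := by
    intro N
    induction N with
    | zero => exact ⟨fun v k1 _ k2 => by omega, fun θ k1 k2 => by rwa [show θ = -1 by omega]⟩
    | succ N ih =>
      have key : R N → x N = x' N := by
        intro k1
        have hu := h.Rg N k1
        have hlt := h.glt k1
        have hf := h.fg N k1
        have hhi := h.hi (g N)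
        have hpiv : e (g N) N ≠ 0 := by
          have := hp _ hu
          rwa [hf] at this
        have other : ∀ w : ℤ, w ≠ N → (0 ≤ w ∨ 0 ≤ g N) → e (g N) w • (x w - x' w) = 0 := by
          intro w hw hw0
          by_cases e0 : e (g N) w = 0
          · rw [e0, zero_smul]
          obtain ⟨-, k4, k5, k6, -⟩ := hs.of_ne ha e0
          have k7 : w < N := by
            by_cases e1 : g N ≤ w
            · have := k5 e1
              omega
            · omega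
          by_cases e1 : 0 ≤ w
          · rw [ih.1 w k7 k4 e1, sub_self, smul_zero]
          · rw [(h5 w (h.toIs.mem_bd.2 ⟨k4, by omega, by have := k6 (by omega); omega⟩)).1,
              sub_self, smul_zero]
        have fin : e (g N) N • (x N - x' N) = 0 := by
          by_cases e1 : 0 ≤ g N
          · have e2 := (h3 _ e1).2
            rw [ih.2 (g N) hlt (by omega), ih.2 (g N - 1) (by omega) (by omega), ← (h4 _ e1).2,
              add_left_inj] at e2
            have e3 := sub_eq_zero.2 (smul_right_injective W h40 e2)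
            simp only [Ew, ← sum_sub_distrib, ← smul_sub] at e3
            rwa [sum_eq_single_of_mem (N : ℤ) (mem_Icc.2 ⟨by omega, by omega⟩)
              fun w _ hw => other w hw (Or.inr e1)] at e3
          · have e3 := sub_eq_zero.2 (h5 _ (h.toIs.mem_bd.2 ⟨hu, by omega, by omega⟩)).2
            simp only [Pv, ← sum_sub_distrib, ← smul_sub] at e3
            rwa [sum_eq_single_of_mem (N : ℤ) (mem_Ioc.2 ⟨by omega, by omega⟩)
              fun w hw' hw => other w hw (Or.inl (by have := (mem_Ioc.1 hw').1; omega))] at e3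
        exact sub_eq_zero.1 ((smul_eq_zero.1 fin).resolve_left hpiv)
      refine ⟨fun v k0 k1 k2 => ?_, fun θ k0 k1 => ?_⟩
      · by_cases e1 : v = N
        · exact e1 ▸ key (e1 ▸ k1)
        · exact ih.1 v (by push_cast at k0; omega) k1 k2
      · by_cases e1 : θ = N
        · rw [e1, (h3 N (by omega)).1, (h4 N (by omega)).1, ih.2 (N - 1) (by omega) (by omega)]
          by_cases e2 : R N
          · rw [key e2]
          · rw [hc N e2, mul_zero, zero_smul, zero_smul]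
        · exact ih.2 θ (by push_cast at k0; omega) k1
  refine ⟨fun v hv => ?_, fun θ k1 => (main (θ.toNat + 1)).2 θ (by push_cast; omega) k1⟩
  rcases hv with hv | hv
  · exact (h5 v hv).1
  · exact (main (v.toNat + 1)).1 v (by push_cast; omega) hv.1 hv.2

theorem Is.so_congr (h : Is s D R f) (ha : Amx q (-1) s D e) (hs : Se (-1) R f e) (hc : Acz R c)
    (h3 : ∀ v, v ∈ bd D R f (-1) ∨ (R v ∧ 0 ≤ v) → x v = x' v) (h4 : ∀ θ, -1 ≤ θ → η θ = η' θ)
    (hθ : 0 ≤ θ) : So κ D e c x η θ ↔ So κ D e c x' η' θ := by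
  have e1 : (2 * κ * c θ) • x θ = (2 * κ * c θ) • x' θ := by
    by_cases e2 : R θ
    · rw [h3 θ (Or.inr ⟨e2, hθ⟩)]
    · rw [hc θ e2, mul_zero, zero_smul, zero_smul]
  rw [So, So, e1, (h.ew_congr ha hs h3).1 θ hθ, h4 θ (by omega), h4 (θ - 1) (by omega)]

end

theorem C3.hz_step (h : C3 s D R f g) (hF : Fo k q 1 B F) (h2 : (2 : Ω) ≠ 0)
    (ha : Amx q (-1) s D e) (hs : Se (-1) R f e) (hp : Piv R f e) (hc : Acz R c)
    (h3 : Hz B κ D R f e z m (θ - 1)) (h4 : So κ D e c z m θ) : Hz B κ D R f e z m θ := by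
  classical
  obtain ⟨L, rfl, hL⟩ := hF.bl_SOD
  have hst : ∀ u, Pv D e z θ u = Pv D e z (θ - 1) u - e u θ • z θ := fun u => by
    rw [Pv.step z (ha.band' k u θ), add_sub_cancel_left]
  by_cases hθ : R θ
  swap
  · have h0 : Pv D e z θ = Pv D e z (θ - 1) := funext fun u => by
      have h5 : e u θ = 0 := by
        by_contra h5
        exact hθ (hs.of_ne ha h5).2.1
      rw [hst, h5, zero_smul, sub_zero]
    have h6 := h4.1
    rw [hc θ hθ, mul_zero, zero_smul, sub_zero] at h6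
    rw [Hz, h0, ← h.bd_of_not hθ, h6]
    exact h3
  obtain ⟨hb, hw, hn⟩ := h.bd_step hθ
  obtain ⟨h1, b1, b2⟩ := h3
  simp only [Hb] at h1 b1 b2
  have hπ : e (g θ) θ ≠ 0 := by
    have := hp _ (h.Rg θ hθ)
    rwa [h.fg θ hθ] at this
  have hd : e θ θ = 0 := by
    by_contra h5
    exact absurd ((hs.of_ne ha h5).2.2.2.2 rfl) (by decide)
  have hsym : ∀ u v, e v u = -e u v := fun u v => by rw [ha.sym, sg_neg, sg_one, neg_one_mul]
  have hz : z θ = (e (g θ) θ)⁻¹ • Pv D e z (θ - 1) (g θ) := by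
    have h3 := hst (g θ)
    rw [Pv.zero hs z (by linarith [h.glt hθ]) (h.fg θ hθ).le, eq_comm, sub_eq_zero] at h3
    rw [h3, smul_smul, inv_mul_cancel₀ hπ, one_smul]
  have hP0 : Pv D e z θ θ = Ew D e z θ - ∑ v ∈ bd D R f (θ - 1), e θ v • z v := by
    have h3 := Ew.split (D := D) (e := e) z (θ := θ) (u := θ) (by omega) (by omega)
    have h4 : ∑ v ∈ bd D R f (θ - 1), e θ v • z v = ∑ v ∈ Icc (θ - D) θ, e θ v • z v := by
      refine Finset.sum_subset (fun v hv => ?_) fun v hv hv' => ?_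
      · obtain ⟨_, h5, h6⟩ := h.toIs.mem_bd.1 hv
        have := h.hi v
        exact Finset.mem_Icc.2 ⟨by omega, by omega⟩
      · by_contra h5
        have h9 := left_ne_zero_of_smul h5
        obtain ⟨_, h6, _, h7, _⟩ := hs.of_ne ha h9
        have h8 := (Finset.mem_Icc.1 hv).2
        have h10 := h7 h8
        have h11 : v ≠ θ := fun e1 => h9 (e1 ▸ hd)
        exact hv' (h.toIs.mem_bd.2 ⟨h6, by omega, by omega⟩)
    rw [h3, h4, add_sub_cancel_left]
  have e2 := inv_mul_cancel₀ hπ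
  have e3 := inv_mul_cancel₀ h2
  have hm : ∀ y, L y (m θ) = L y (m (θ - 1)) - 2 * κ * c θ * L y (z θ) := fun y => by
    rw [h4.1, map_sub, map_smul, smul_eq_mul]
  have hP : ∀ y, L y (Pv D e z θ θ) = -(c θ * 2⁻¹) * L y (m (θ - 1)) +
      κ * c θ ^ 2 * 2⁻¹ * L y (z θ) - ∑ v ∈ bd D R f (θ - 1), e θ v * L y (z v) := fun y => by
    have h5 := congrArg (L y) h4.2
    simp only [map_add, map_smul, map_zero, smul_eq_mul, hm] at h5
    simp only [hP0, map_sub, map_sum, map_smul, smul_eq_mul]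
    linear_combination (2⁻¹ * 2⁻¹ : Ω) * h5 - ((2⁻¹ * 2 + 1) * L y (Ew D e z θ) +
      c θ * 2⁻¹ * L y (m (θ - 1)) - κ * c θ ^ 2 * 2⁻¹ * L y (z θ)) * e3
  have hst' : ∀ u y, L y (Pv D e z θ u) = L y (Pv D e z (θ - 1) u) - e u θ * L y (z θ) :=
    fun u y => by rw [hst u, map_sub, map_smul, smul_eq_mul]
  have hz' : ∀ y, L y (z θ) = (e (g θ) θ)⁻¹ * L y (Pv D e z (θ - 1) (g θ)) := fun y => by
    rw [hz, map_smul, smul_eq_mul]
  have a1 : ∀ u ∈ bd D R f (θ - 1), L (z u) (z θ)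
      = (e (g θ) θ)⁻¹ * if u = g θ then 1 else 0 := fun u hu => by rw [hz', (h1 u hu _ hw).2.1]
  have a2 : ∀ u ∈ bd D R f (θ - 1), L (Pv D e z (θ - 1) u) (z θ) = 0 := fun u hu => by
    rw [hz', (h1 u hu _ hw).2.2, mul_zero]
  have a3 : L (z θ) (z θ) = 0 := by rw [hz', hL, a2 _ hw, mul_zero]
  have a0 : L (z θ) (m (θ - 1)) = 0 := by rw [hL, hz', hL, (b1 _ hw).2, mul_zero]
  have a4 : ∀ u ∈ bd D R f (θ - 1), L (z u) (Pv D e z θ θ)
      = κ * c θ ^ 2 * 2⁻¹ * ((e (g θ) θ)⁻¹ * if u = g θ then 1 else 0) := fun u hu => by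
    rw [hP, (b1 u hu).1, a1 u hu, sum_eq_zero fun v hv => by rw [(h1 u hu v hv).1, mul_zero]]
    ring
  have a5 : L (z θ) (Pv D e z θ θ) = 1 := by
    rw [hP, a0, a3, sum_eq_single_of_mem _ hw]
    · rw [hL, a1 _ hw, if_pos rfl, hsym (g θ) θ]
      linear_combination e2
    · intro v hv hne
      rw [hL, a1 _ hv, if_neg hne]
      simp
  have a6 : ∀ u ∈ bd D R f (θ - 1), L (Pv D e z θ θ) (Pv D e z θ u) = 0 := fun u hu => by
    rw [hst', hL _ (z θ), a5, hL, hP, (b1 u hu).2, a2 u hu, sum_eq_single_of_mem _ hu]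
    · rw [hL, (h1 u hu u hu).2.1, if_pos rfl, hsym u θ]
      ring
    · intro v hv hne
      rw [hL, (h1 v hv u hu).2.1, if_neg hne, mul_zero]
  have a8 : L (Pv D e z θ θ) (m (θ - 1)) = 2 * κ * c θ := by
    rw [hL, hP, b2, hL, a0, sum_eq_zero fun v hv => by rw [hL, (b1 v hv).1, mul_zero]]
    linear_combination (2 * κ * c θ) * e3
  have a7 : L (Pv D e z θ θ) (Pv D e z θ θ) = 0 := by
    rw [hP, a8, hL _ (z θ), a5, sum_eq_single_of_mem _ hw]
    · rw [hL, a4 _ hw, if_pos rfl, hsym (g θ) θ]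
      linear_combination (κ * c θ ^ 2 * 2⁻¹) * e2
    · intro v hv hne
      rw [hL, a4 _ hv, if_neg hne]
      simp
  refine ⟨fun u hu v hv => ?_, fun u hu => ?_, ?_⟩
  · rw [hb, Finset.mem_insert, Finset.mem_erase] at hu hv
    change L _ _ = 0 ∧ L _ _ = _ ∧ L _ _ = 0
    rcases hu with rfl | ⟨hu', hu⟩ <;> rcases hv with rfl | ⟨hv', hv⟩
    · exact ⟨a3, by rw [a5, if_pos rfl], a7⟩
    · refine ⟨by rw [hL, a1 v hv, if_neg hv', mul_zero], ?_, a6 v hv⟩
      rw [hst', a3, hL, a2 v hv, if_neg fun h3 : u = v => hn (h3 ▸ hv)]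
      simp
    · refine ⟨by rw [a1 u hu, if_neg hu', mul_zero], ?_, by rw [hL, a6 u hu]⟩
      rw [a4 u hu, if_neg hu', if_neg fun h3 : u = v => hn (h3 ▸ hu)]
      simp
    · refine ⟨(h1 u hu v hv).1, ?_, ?_⟩
      · rw [hst', a1 u hu, if_neg hu', (h1 u hu v hv).2.1]
        simp
      · rw [hst' v, hL _ (Pv D e z (θ - 1) v), hL _ (z θ), hst' u, hst' u, (h1 v hv u hu).2.2,
          a2 v hv, a3, hL, a2 u hu]
        simp
  · rw [hb, Finset.mem_insert, Finset.mem_erase] at hu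
    change L _ _ = 0 ∧ L _ _ = 0
    rcases hu with rfl | ⟨hu', hu⟩
    · exact ⟨by rw [hm, a0, a3]; simp, by rw [hm, a8, hL, a5]; simp⟩
    · refine ⟨by rw [hm, (b1 u hu).1, a1 u hu, if_neg hu']; simp, ?_⟩
      rw [hL, hst', hL _ (Pv D e z (θ - 1) u), hL _ (z θ), hm, hm, (b1 u hu).2, a2 u hu, a0, a3]
      simp
  · change L _ _ = _
    rw [hm, hL _ (m (θ - 1)), hL _ (z θ), hm, hm, b2, a0, a3, hL, a0]
    simp

theorem C3.hz_up (h : C3 s D R f g) (hF : Fo k q 1 B F) (h2 : (2 : Ω) ≠ 0)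
    (ha : Amx q (-1) s D e) (hs : Se (-1) R f e) (hp : Piv R f e) (hc : Acz R c)
    (h3 : Hz B κ D R f e z m (-1)) (h4 : ∀ θ, 0 ≤ θ → So κ D e c z m θ) (hθ : -1 ≤ θ) :
    Hz B κ D R f e z m θ := by
  induction θ, hθ using Int.leInduction with
  | base => exact h3
  | succ j hj ih =>
    exact h.hz_step hF h2 ha hs hp hc (by rwa [add_sub_cancel_right]) (h4 _ (by omega))

theorem Pq.yo {P : α → Prop} {z p : α → ℤ → n → Ω} {ν : α → n → Ω} {a a' : α → ℤ → Ω} {t : α → Ω}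
    [Kr k d] (hz : ∀ u, Pq k P fun x => z x u) (hp : ∀ u, Pq k P fun x => p x u) (hν : Pq k P ν)
    (ha : ∀ u, Pq k P fun x => a x u) (ha' : ∀ u, Pq k P fun x => a' x u) (ht : Pq k P t) :
    Pq k P fun x => Yo d A (z x) (p x) (ν x) (a x) (a' x) (t x) :=
  (Pq.vsum A fun u => ((ha u).vsmul (hp u)).vadd ((ha' u).vsmul (hz u))).vadd
    ((ht.mul (Pq.const _)).vsmul hν)

end Pool.Agent.CXD
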