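import Pool.Agent.P.MP_2ce3e7_ag.SOD

/-! Periodic orthogonal solutions. -/

set_option linter.unusedSectionVars false
set_option linter.unusedVariables false

open Function Matrix

noncomputable section

namespace Pool.Agent.CXD
open Finset

variable {k Ω : Type} [Field k] [Field Ω] [Algebra k Ω] {q : ℕ} {ε σ τ : ℤˣ} {s D : ℕ} [NeZero s]
  {R : ℤ → Prop} {f f' f₁ f₂ g : ℤ → ℤ} {ι n : Type} [Fintype ι] [Fintype n] {b : ι → Bool}
  {G : Gp Ω} {B : (n → Ω) → (n → Ω) → Ω} {F : Equiv.Perm (n → Ω)} {Q Q' : (ℤ → ℤ → Ω) → Prop}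
  {r θ : ℤ} {e : ℤ → ℤ → Ω} {κ δ : Ω} {α β : Type} [Af Ω α] [Af Ω β] [IsAlgClosed Ω] [Sq k q]

/-- periodic solutions with orthogonal frames -/
structure Yt (q : ℕ) (σ : ℤˣ) (κ : Ω) (B : (n → Ω) → (n → Ω) → Ω) (F : Equiv.Perm (n → Ω))
    (s D : ℕ) (R : ℤ → Prop) (f : ℤ → ℤ) (e : ℤ → ℤ → Ω) (c : ℤ → Ω) (z m : ℤ → n → Ω) :
    Prop where
  am : Amx q (-1) s D e
  se : Se (-1) R f e
  piv : Piv R f e
  pc : Pe (frz q σ) s c
  ac : Acz R c
  pe : Pe F s z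
  pm : Pe (sF σ F) s m
  acz : Acz R z
  so : ∀ θ, So κ D e c z m θ
  hz : ∀ θ, Hz B κ D R f e z m θ

variable {z m : ℤ → n → Ω} {y : n → Ω} {a η c : ℤ → Ω}

theorem four_SOE (k : Type) [Field k] [Algebra k Ω] [Sq k q] : (4 : Ω) ^ q = 4 := by
  rw [show (4 : Ω) = 2 * 2 by norm_num, mul_pow, two_pow_eq k]

theorem nrm_SOE (k : Type) [Field k] [Algebra k Ω] [Sq k q] (hκ : κ ^ q = κ) :
    (-4 * κ) ^ q = -4 * κ := by
  rw [mul_pow, (Sq.su : Su k q).neg_pow, four_SOE k, hκ]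

theorem so_per (hF : Sem k q F) (hκ : κ ^ q = κ) (ha : Amx q (-1) s D e) (hc : Pe (frz q σ) s c)
    (hz : Pe F s z) (hm : Pe (sF σ F) s m) : So κ D e c z m (θ + s) ↔ So κ D e c z m θ := by
  have a1 : m (θ + s - 1) - (2 * κ * c (θ + s)) • z (θ + s) =
      (sg σ : Ω) • F (m (θ - 1) - (2 * κ * c θ) • z θ) := by
    rw [add_sub_right_comm, hm, hc, hz, sF_apply, frs_apply k, hF.sub, hF.smul, mul_pow, mul_pow,
      two_pow_eq k, hκ, smul_sub, smul_smul, mul_left_comm]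
  have a2 : (4 : Ω) • Ew D e z (θ + s) + c (θ + s) • (m (θ + s) + m (θ + s - 1)) =
      F ((4 : Ω) • Ew D e z θ + c θ • (m θ + m (θ - 1))) := by
    rw [add_sub_right_comm, hm, hm, hc, Ew.per hF ha hz, sF_apply, sF_apply, frs_apply k, hF.add,
      hF.smul, hF.smul, hF.add, four_SOE k, sg_neg, sg_one, neg_smul, one_smul, neg_neg,
      ← smul_add, smul_smul, mul_right_comm, sg_mul_self, one_mul]
  rw [So, So, a1, a2, hm, sF_apply, (smul_right_injective _ (sg_ne σ)).eq_iff, F.injective.eq_iff]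
  nth_rewrite 1 [← hF.zero]
  rw [F.injective.eq_iff]

theorem hz_per (hF : Fo k q 1 B F) (hκ : κ ^ q = κ) (hi : Is s D R f) (ha : Amx q (-1) s D e)
    (hz : Pe F s z) (hm : Pe (sF σ F) s m) :
    Hz B κ D R f e z m (θ + s) ↔ Hz B κ D R f e z m θ := by
  have hj : ∀ x y : Ω, x ^ q = y ^ q ↔ x = y := fun x y => by
    rw [← fr_apply k, ← fr_apply k, (frq q).injective.eq_iff]
  have h1 : ∀ x : Ω, x ^ q = 0 ↔ x = 0 := fun x => pow_eq_zero_iff (Sq.su : Su k q).pos.ne'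
  have hp (u : ℤ) : Pv D e z (θ + s) (u + s) = F (Pv D e z θ u) := by
    rw [Pv.per hF.sem ha hz, sg_neg, sg_one, neg_smul, one_smul, neg_neg]
  have hb (x y : n → Ω) : B (F x) (F y) = B x y ^ q := by rw [hF.frob, sg_one, one_mul]
  have hn (x : n → Ω) : B (F x) (m (θ + s)) = 0 ↔ B x (m θ) = 0 := by
    rw [hm, sF_apply, (hF.lin' _).map_smul, hb, smul_eq_zero_iff_right (sg_ne σ), h1]
  have key (u v : ℤ) : (B (z (u + s)) (z (v + s)) = 0 ∧
      B (z (u + s)) (Pv D e z (θ + s) (v + s)) = (if u + s = v + s then 1 else 0) ∧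
      B (Pv D e z (θ + s) (u + s)) (Pv D e z (θ + s) (v + s)) = 0) ↔
      (B (z u) (z v) = 0 ∧ B (z u) (Pv D e z θ v) = (if u = v then 1 else 0) ∧
      B (Pv D e z θ u) (Pv D e z θ v) = 0) := by
    rw [hp, hp, hz, hz, hb, hb, hb, h1, h1, ← hj _ (if u = v then 1 else 0)]
    simp only [add_left_inj]
    split_ifs
    · rw [one_pow]
    · rw [(h1 0).2 rfl]
  have hd : B (m (θ + s)) (m (θ + s)) = -4 * κ ↔ B (m θ) (m θ) = -4 * κ := by
    rw [hm, sF_apply, (hF.lin' _).map_smul, (hF.lin _).map_smul, hb, smul_smul, sg_mul_self,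
      one_smul, ← hj (B (m θ) (m θ)), nrm_SOE k hκ]
  refine and_congr ⟨fun h2 u hu v hv => (key u v).1 (h2 _ (hi.bd_per.2 hu) _ (hi.bd_per.2 hv)),
    fun h2 u hu v hv => ?_⟩ (and_congr ⟨fun h2 u hu => ?_, fun h2 u hu => ?_⟩ hd)
  · obtain ⟨u, rfl⟩ : ∃ u', u = u' + s := ⟨u - s, by ring⟩
    obtain ⟨v, rfl⟩ : ∃ v', v = v' + s := ⟨v - s, by ring⟩
    exact (key u v).2 (h2 _ (hi.bd_per.1 hu) _ (hi.bd_per.1 hv))
  · have := h2 _ (hi.bd_per.2 hu)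
    rwa [hp, hz, hn, hn] at this
  · obtain ⟨u, rfl⟩ : ∃ u', u = u' + s := ⟨u - s, by ring⟩
    rw [hp, hz, hn, hn]
    exact h2 _ (hi.bd_per.1 hu)

theorem C3.yt (h : C3 s D R f g) (hF : Fo k q 1 B F) (h2 : (2 : Ω) ≠ 0) (hκ : κ ^ q = κ)
    (ha : Amx q (-1) s D e) (hs : Se (-1) R f e) (hp : Piv R f e) (h3 : Pe (frz q σ) s c)
    (h4 : Acz R c) (h5 : Pe F s z) (h6 : Pe (sF σ F) s m) (h7 : Acz R z)
    (h8 : ∀ θ : ℤ, 0 ≤ θ → θ < s → So κ D e c z m θ) (h9 : Hz B κ D R f e z m (-1)) :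
    Yt q σ κ B F s D R f e c z m :=
  have h0 := per_ind s (P := So κ D e c z m) (fun θ => so_per hF.sem hκ ha h3 h5 h6) 0
    fun θ a1 a2 => h8 θ a1 (by omega)
  ⟨ha, hs, hp, h3, h4, h5, h6, h7, h0,
    per_ind s (P := Hz B κ D R f e z m) (fun θ => hz_per hF hκ h.toIs ha h5 h6) (-1)
      fun θ hθ _ => h.hz_up hF h2 ha hs hp h4 h9 (fun θ _ => h0 θ) hθ⟩

theorem Yt.of_fix (hy : Yt q σ κ B F s D R f e c z m) (hF : Fo k q 1 B F) (h1 : F y = y) :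
    Pe (frz q 1) s (fun v => B (z v) y) ∧ Pe (frz q σ) s (fun v => B (m v) y) ∧
      Acz R (fun v => B (z v) y) ∧
      ∀ θ, So κ D e c (fun v => B (z v) y) (fun v => B (m v) y) θ := by
  refine ⟨fun u => ?_, fun u => ?_, fun u hu => ?_,
    fun θ => (hy.so θ).map ((hF.lin y).mk' _)⟩
  · have e1 := hF.frob (z u) y
    rwa [h1, ← hy.pe u, ← frs_apply k] at e1
  · have e1 := hF.frob (m u) y
    rw [h1, sg_one, one_mul] at e1
    beta_reduce
    rw [hy.pm u, sF_apply, (hF.lin y).map_smul, e1, frs_apply k, smul_eq_mul]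
  · beta_reduce
    rw [hy.acz u hu, (hF.lin y).map_zero]

theorem Yt.fix (hy : Yt q σ κ B F s D R f e c z m) (hF : Fo k q 1 B F) (h2 : (2 : Ω) ≠ 0)
    (hκ0 : κ ≠ 0) (h : C3 s D R f g) (hc : Fintype.card n = 2 * (bd D R f (-1)).card + 1)
    (h1 : Pe (frz q 1) s a) (h3 : Pe (frz q σ) s η) (h4 : Acz R a) (h5 : ∀ θ, So κ D e c a η θ)
    (h6 : y = Yo (-4 * κ) (bd D R f (-1)) z (Pv D e z (-1)) (m (-1)) a (Pv D e a (-1)) (η (-1))) :
    F y = y ∧ (∀ v, a v = B (z v) y) ∧ ∀ v, η v = B (m v) y := by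
  have h0 : -4 * κ ≠ 0 := mul_ne_zero (neg_ne_zero.2 (by
    rw [show (4 : Ω) = 2 * 2 by norm_num]
    exact mul_ne_zero h2 h2)) hκ0
  have hs := pos_SE0 s
  have e0 := Ho.yo (a := a) (a' := Pv D e a (-1)) (t := η (-1)) (hy.hz (-1)) hF h0
  rw [← h6] at e0
  have pm (θ u : ℤ) : Pv D e (fun v => B (z v) y) θ u = B (Pv D e z θ u) y :=
    pv_map ((hF.lin y).mk' _) z θ u
  obtain ⟨e1, e2⟩ := h.so_uni h2 hy.am hy.se hy.piv hy.ac (fun θ _ => h5 θ)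
    (fun θ _ => (hy.so θ).map ((hF.lin y).mk' _))
    (fun u hu => ⟨(e0.1 u hu).1.symm, ((pm _ u).trans (e0.1 u hu).2).symm⟩) e0.2.symm
  have e3 (v : ℤ) (hv : 0 ≤ v) : a v = B (z v) y := by
    by_cases hR : R v
    · exact e1 v (Or.inr ⟨hR, hv⟩)
    · rw [h4 v hR, hy.acz v hR, (hF.lin y).map_zero]
  have hb (x : n → Ω) : B (F x) (F y) = B x y ^ q := by rw [hF.frob, sg_one, one_mul]
  have e4 : y - F y = 0 := by
    refine Ho.eq_zero (hy.hz (-1 + s)) hF h0 (hc.trans (by rw [h.card_bd _ (-1 + s)]))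
      (fun u hu => ?_) ?_
    · have b1 : a u = B (z u) y := by
        by_cases hu0 : 0 ≤ u
        · exact e3 u hu0
        · have := h.toIs.mem_bd.1 hu
          exact e1 u (Or.inl (h.toIs.mem_bd.2 ⟨this.1, by omega, by omega⟩))
      have b2 : Pv D e a (-1 + s) u = B (Pv D e z (-1 + s) u) y :=
        (sum_congr rfl fun v hv => by rw [e3 v (by have := (mem_Ioc.1 hv).1; omega)]).trans
          (pm _ u)
      obtain ⟨u, rfl⟩ : ∃ u', u = u' + s := ⟨u - s, by ring⟩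
      have b3 := e0.1 u (h.toIs.bd_per.1 hu)
      rw [(hF.lin' _).map_sub, (hF.lin' _).map_sub, ← b1, ← b2, hy.pe, h1,
        Pv.per (sem_frs (k := k) 1) hy.am h1, Pv.per hF.sem hy.am hy.pe, sg_neg, sg_one, neg_smul,
        neg_smul, one_smul, one_smul, neg_neg, neg_neg, hb, hb, b3.1, b3.2, frs_apply k,
        frs_apply k, sg_one, one_mul, one_mul]
      exact ⟨sub_self _, sub_self _⟩
    · have b1 : η (-1 + s) = B (m (-1 + s)) y := e2 _ (by omega)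
      rw [(hF.lin' _).map_sub, ← b1, hy.pm, h3, sF_apply, (hF.lin _).map_smul, hb, e0.2,
        frs_apply k, smul_eq_mul, sub_self]
  have e5 := (sub_eq_zero.1 e4).symm
  have e6 := hy.of_fix hF e5
  exact ⟨e5, congrFun (h1.ext' e6.1 fun u hu _ => e3 u hu),
    congrFun (h3.ext' e6.2.1 fun u hu _ => e2 u (by omega))⟩

theorem so_pi_SOE {x w : ℤ → ι → Ω} :
    So κ D e c x w θ ↔ ∀ i, So κ D e c (fun u => x u i) (fun u => w u i) θ :=
  ⟨fun h i => h.map (LinearMap.proj i), fun h => ⟨funext fun i => (h i).1, funext fun i =>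
    Eq.trans (congrArg (fun t => (4 : Ω) • t + c θ • (w θ i + w (θ - 1) i))
      (ew_map (LinearMap.proj (R := Ω) (φ := fun _ => Ω) i) x θ).symm) (h i).2⟩⟩

theorem pe_pi_SOE {x : ℤ → ι → Ω} :
    Pe (frv q σ ι) s x ↔ ∀ i, Pe (frz q σ) s fun u => x u i :=
  ⟨fun h i u => congrFun (h u) i, fun h u => funext fun i => h i u⟩

theorem Au.olocus (h : Au k q G) (hF : Fo k q 1 B F) (hFF : ∀ x, F (F x) = fun j => x j ^ q ^ 2)
    (h2 : (2 : Ω) ≠ 0) (hκ : κ ^ q = κ) (hκ0 : κ ≠ 0) (h3 : C3 s D R f g)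
    (hc : Fintype.card n = 2 * (bd D R f (-1)).card + 1) {p : α → Prop} {e : α → ℤ → ℤ → Ω}
    {c : α → ℤ → Ω} {z m : α → ℤ → n → Ω} (he : ∀ u v, Pq k p fun x => e x u v)
    (hz : ∀ u, Pq k p fun x => z x u) (hm : ∀ u, Pq k p fun x => m x u)
    (hy : ∀ x, p x → Yt q σ κ B F s D R f (e x) (c x) (z x) (m x)) (hp : Gy k G p) :
    Gy k G fun y : α × (ZMod s → ι → Ω) × (ZMod s → ι → Ω) =>
      p y.1 ∧ Sl q σ κ ι s D R (e y.1) (c y.1) y.2 := by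
  have := kr_of_pow (k := k) (nrm_SOE k hκ)
  have h0 : -4 * κ ≠ 0 := mul_ne_zero (neg_ne_zero.2 (by
    rw [show (4 : Ω) = 2 * 2 by norm_num]
    exact mul_ne_zero h2 h2)) hκ0
  have ha (i : ι) (u : ℤ) : Pq k (fun y : α × (ZMod s → ι → Ω) × (ZMod s → ι → Ω) =>
      p y.1 ∧ Sl q σ κ ι s D R (e y.1) (c y.1) y.2) fun y => pext (frv q 1 ι) s y.2.1 u i :=
    (Pq.pext (sem_frv 1).po (sem_frv 1).po' (Pq.fst (Pq.snd Pq.id)) u).eval i
  have fx (y : α × (ZMod s → ι → Ω) × (ZMod s → ι → Ω))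
      (hx : p y.1 ∧ Sl q σ κ ι s D R (e y.1) (c y.1) y.2) (i : ι) :=
    (hy _ hx.1).fix hF h2 hκ0 h3 hc (pe_pi_SOE.1 (pe_pext _ y.2.1) i)
      (pe_pi_SOE.1 (pe_pext _ y.2.2) i) (fun u hu => congrFun (hx.2.1 u hu) i)
      (fun θ => so_pi_SOE.1 (hx.2.2 θ) i) rfl
  have og (w : α × (ι → n → Ω)) (hw : p w.1 ∧ ∀ i, F (w.2 i) = w.2 i) :
      pext (frv q 1 ι) s (rsn s fun v i => B (z w.1 v) (w.2 i)) =
        (fun v i => B (z w.1 v) (w.2 i)) ∧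
      pext (frv q σ ι) s (rsn s fun v i => B (m w.1 v) (w.2 i)) =
        fun v i => B (m w.1 v) (w.2 i) :=
    ⟨(pe_pi_SOE.2 fun i => ((hy _ hw.1).of_fix hF (hw.2 i)).1).pext_res,
      (pe_pi_SOE.2 fun i => ((hy _ hw.1).of_fix hF (hw.2 i)).2.1).pext_res⟩
  refine h.giso (fun w : α × (ι → n → Ω) => (w.1, rsn s fun v i => B (z w.1 v) (w.2 i),
      rsn s fun v i => B (m w.1 v) (w.2 i)))
    (fun y => (y.1, fun i => Yo (-4 * κ) (bd D R f (-1)) (z y.1) (Pv D (e y.1) (z y.1) (-1))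
      (m y.1 (-1)) (fun u => pext (frv q 1 ι) s y.2.1 u i)
      (Pv D (e y.1) (fun u => pext (frv q 1 ι) s y.2.1 u i) (-1))
      (pext (frv q σ ι) s y.2.2 (-1) i)))
    ((Pq.fst Pq.id).mk ((Pq.rsn fun u => Pq.pi fun i =>
      hF.pq ((hz u).pull (Pq.fst Pq.id) fun _ h => h.1) ((Pq.snd Pq.id).eval i)).mk
      (Pq.rsn fun u => Pq.pi fun i =>
        hF.pq ((hm u).pull (Pq.fst Pq.id) fun _ h => h.1) ((Pq.snd Pq.id).eval i))))
    ((Pq.fst Pq.id).mk (Pq.pi fun i => Pq.yo (fun u => (hz u).pull (Pq.fst Pq.id) fun _ h => h.1)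
      (Pq.pv (fun u v => (he u v).pull (Pq.fst Pq.id) fun _ h => h.1)
        (fun u => (hz u).pull (Pq.fst Pq.id) fun _ h => h.1) _)
      ((hm _).pull (Pq.fst Pq.id) fun _ h => h.1) (ha i)
      (Pq.pv1 (fun u v => (he u v).pull (Pq.fst Pq.id) fun _ h => h.1) (ha i) _)
      ((Pq.pext (sem_frv σ).po (sem_frv σ).po' (Pq.snd (Pq.snd Pq.id)) _).eval i)))
    (fun w hw => ⟨hw.1, ?_⟩) (fun y hx => ⟨hx.1, fun i => (fx y hx i).1⟩) (fun w hw => ?_)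
    (fun y hx => ?_)
    (h.grats (p' := fun Y : ι → n → Ω => ∀ i, F (Y i) = Y i) (fun Y hY => kr_pi fun i =>
      kr_pi fun j => ((Sq.su : Su k q).kr_iff _).2 ?_) hp)
  · rw [Sl]
    dsimp only
    rw [(og w hw).1, (og w hw).2]
    exact ⟨fun u hu => funext fun i => ((hy _ hw.1).of_fix hF (hw.2 i)).2.2.1 u hu,
      fun θ => so_pi_SOE.2 fun i => ((hy _ hw.1).of_fix hF (hw.2 i)).2.2.2 θ⟩
  · refine Prod.ext rfl (funext fun i => ?_)
    dsimp only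
    rw [(og w hw).1, (og w hw).2,
      show Pv D (e w.1) (fun v => B (z w.1 v) (w.2 i)) (-1) = _ from
        funext (pv_map ((hF.lin (w.2 i)).mk' _) (z w.1) (-1))]
    exact Ho.yo_eq ((hy _ hw.1).hz (-1)) hF h0 hc (w.2 i)
  · refine Prod.ext rfl (Prod.ext ?_ ?_)
    · exact (congrArg (rsn s) (funext fun v => funext fun i => ((fx y hx i).2.1 v).symm)).trans
        (res_pext _ _)
    · exact (congrArg (rsn s) (funext fun v => funext fun i => ((fx y hx i).2.2 v).symm)).trans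
        (res_pext _ _)
  · have e1 := hFF (Y i)
    rw [hY, hY] at e1
    exact (congrFun e1 j).symm

end Pool.Agent.CXD
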