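import Pool.Agent.P.MP_2ce3e7_ag.SO0

/-! Normal forms in odd dimension. -/

set_option linter.unusedSectionVars false
set_option linter.unusedVariables false

open Function Matrix

noncomputable section

namespace Pool.Agent.CXD
variable {k Ω : Type} [Field k] [Field Ω] [Algebra k Ω] {q : ℕ} [Sq k q] [IsAlgClosed Ω]

theorem all_SW2 (k : Type) [Field k] [Algebra k Ω] [Sq k q] (h2 : (2 : Ω) ≠ 0) {s : Ω} (n : ℕ) :
    ∀ {V : Type} [AddCommGroup V] [Module Ω V] [Module.Finite Ω V] {B : V →ₗ[Ω] V →ₗ[Ω] Ω}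
      {Φ : V → V}, Dt_SW1 q s B Φ → 2 * n ≤ Module.finrank Ω V → ∀ (ι : Type) [Fintype ι],
      Fintype.card ι = n → ∃ (b : ι → Bool) (e f : ι → V), Hs_SW1 s B Φ b e f := by
  induction n with
  | zero =>
    intro V _ _ _ B Φ h hd ι _ hι
    have := Fintype.card_eq_zero_iff.1 hι
    exact ⟨isEmptyElim, isEmptyElim, isEmptyElim, isEmptyElim, isEmptyElim, isEmptyElim,
      isEmptyElim, isEmptyElim, isEmptyElim⟩
  | succ n ih =>
    intro V _ _ _ B Φ h hd ι _ hι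
    obtain ⟨b, e, f, H⟩ := h.plane k h2 (by omega)
    obtain ⟨W, hW, ho, hD, hr⟩ := h.split H
    rw [Fintype.card_unit] at hr
    obtain ⟨b', e', f', H'⟩ := ih hD (by omega) (Fin n) (Fintype.card_fin n)
    exact ⟨_, _, _, (H.sum h ho H').comp (Fintype.equivOfCardEq (by simp [hι, add_comm]))⟩

/-- the last line -/
theorem line_SW2 (k : Type) [Field k] [Algebra k Ω] [Sq k q] {V : Type} [AddCommGroup V]
    [Module Ω V] [Module.Finite Ω V] {B : V →ₗ[Ω] V →ₗ[Ω] Ω} {Φ : V → V} (h : Dt_SW1 q 1 B Φ)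
    (hd : Module.finrank Ω V = 1) {δ : Ω} (hδ : δ ^ q = δ) :
    ∃ (τ : ℤˣ) (w : V), B w w = δ ∧ Φ w = (sg τ : Ω) • w := by
  obtain ⟨v, -, v1, v0⟩ := h.fixd0 k ⊤ (fun _ _ => trivial) fun e => by
    have := congrArg (fun W : Submodule Ω V => Module.finrank Ω W) e
    simp only [finrank_top, finrank_bot] at this
    omega
  have vv : B v v ≠ 0 := fun e => v0 (h.nd v fun y => by
    obtain ⟨c, rfl⟩ := (finrank_eq_one_iff_of_nonzero' v v0).1 hd y
    rw [map_smul, e, smul_zero])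
  have fv := h.frb v v
  rw [v1, one_mul] at fv
  obtain ⟨t, ht⟩ := IsAlgClosed.exists_pow_nat_eq (δ / B v v) two_pos
  have ht2 : (t ^ q) ^ 2 = t ^ 2 := by rw [← pow_mul, mul_comm, pow_mul, ht, div_pow, ← fv, hδ]
  have hw : B (t • v) (t • v) = δ := by
    simp only [map_smul, LinearMap.smul_apply, smul_eq_mul]
    rw [← mul_assoc, ← sq, ht, div_mul_cancel₀ _ vv]
  rcases sq_eq_sq_iff_eq_or_eq_neg.1 ht2 with e | e
  · exact ⟨1, t • v, hw, by rw [h.smul, v1, e, sg_one, one_smul]⟩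
  · exact ⟨-1, t • v, hw, by rw [h.smul, v1, e, sg_neg, sg_one, neg_smul, neg_smul, one_smul]⟩

theorem wd_odd (k : Type) [Field k] [Algebra k Ω] [Sq k q] (h2 : (2 : Ω) ≠ 0) {n ι κ : Type}
    [Fintype n] [DecidableEq n] [Fintype ι] [DecidableEq ι] [Fintype κ] {δ : Ω} (hδ : δ ^ q = δ)
    (h0 : δ ≠ 0) (J M : Matrix n n Ω)
    (hn : Fintype.card n = 2 * (Fintype.card κ + Fintype.card ι) + 1) (hJ : J.det ≠ 0)
    (hs : Jᵀ = J) (hM : Mᵀ * J * M = fm q J) (u : κ → n → Ω) (h3 : LinearIndependent Ω u)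
    (h4 : ∀ a, (M *ᵥ fun j => u a j ^ q) = u a) (h5 : ∀ a a', u a ⬝ᵥ J *ᵥ u a' = 0) :
    ∃ (b : ι → Bool) (τ : ℤˣ) (g : Matrix n (((κ ⊕ ι) ⊕ (κ ⊕ ι)) ⊕ Unit) Ω), Bijective g.mulVec ∧
      (∀ x y, (g *ᵥ x) ⬝ᵥ J *ᵥ (g *ᵥ y) = Bod δ x y) ∧
      (∀ x, (M *ᵥ fun j => (g *ᵥ x) j ^ q) = g *ᵥ FO q (Sum.elim (fun _ => false) b) τ x) ∧
      ∀ a, g.col (.inl (.inl (.inl a))) = u a := by
  classical
  have hq : Su k q := Sq.su
  let B : (n → Ω) →ₗ[Ω] (n → Ω) →ₗ[Ω] Ω := Matrix.toBilin' J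
  have hB (x y : n → Ω) : B x y = x ⬝ᵥ J *ᵥ y := Matrix.toBilin'_apply' J x y
  let Φ : (n → Ω) → n → Ω := fun x => M *ᵥ fun j => x j ^ q
  have h : Dt_SW1 q 1 B Φ := by
    refine ⟨fun x y => ?_, fun t x => ?_, fun x y => ?_, fun x hx => ?_, fun x y => ?_,
      one_mul 1, hq.pos.ne'⟩
    · simp only [Φ, ← mulVec_add, Pi.add_apply, hq.add_pow]
      rfl
    · simp only [Φ, ← mulVec_smul, Pi.smul_apply, smul_eq_mul, mul_pow]
      rfl
    · rw [hB, hB, dotProduct_mulVec, ← mulVec_transpose, dotProduct_comm, hs, one_mul]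
    · refine eq_zero_of_vecMul_eq_zero hJ (funext fun j => ?_)
      have := hx (Pi.single j 1)
      rwa [hB, dotProduct_mulVec, dotProduct_single_one] at this
    · rw [hB, hB]
      simp only [Φ]
      rw [mulVec_mulVec, dotProduct_comm, dotProduct_mulVec, ← mulVec_transpose, mulVec_mulVec,
        ← Matrix.mul_assoc, hM, hq.fm_mulVec, dotProduct_comm, one_mul]
      simp only [dotProduct, hq.sum_pow, mul_pow]
  obtain ⟨f₀, H₀⟩ := h.dual k h2 h3 h4 fun a a' => (hB _ _).trans (h5 a a')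
  obtain ⟨W, hW, ho, hD, hr⟩ := h.split H₀
  rw [Module.finrank_fintype_fun_eq_card] at hr
  obtain ⟨b, e', f', H'⟩ := all_SW2 k h2 (Fintype.card ι) hD (by omega) ι rfl
  have H := H₀.sum h ho H'
  generalize hE : (Sum.elim u fun i => (e' i : n → Ω)) = e at H
  generalize (Sum.elim f₀ fun i => (f' i : n → Ω)) = f at H
  generalize hb : Sum.elim (fun _ : κ => false) b = c at H
  obtain ⟨W₁, hW₁, ho₁, hD₁, hr₁⟩ := h.split H
  rw [Module.finrank_fintype_fun_eq_card, Fintype.card_sum] at hr₁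
  obtain ⟨τ, ⟨w, hw⟩, w1, w2⟩ := line_SW2 k hD₁ (by omega) hδ
  have w3 : B w w = δ := w1
  have w4 : Φ w = (sg τ : Ω) • w := congrArg Subtype.val w2
  have hg (x : ((κ ⊕ ι) ⊕ (κ ⊕ ι)) ⊕ Unit → Ω) :
      (Matrix.of (Sum.elim (Sum.elim e f) fun _ => w))ᵀ *ᵥ x =
      ∑ i, (x (.inl (.inl i)) • e i + x (.inl (.inr i)) • f i) + x (.inr ()) • w := by
    funext r
    rw [Finset.sum_add_distrib, Pi.add_apply, Pi.add_apply, Finset.sum_apply, Finset.sum_apply,
      mulVec, dotProduct, Fintype.sum_sum_type, Fintype.sum_sum_type,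
      Fintype.sum_unique (ι := Unit)]
    simp only [transpose_apply, of_apply, Sum.elim_inl, Sum.elim_inr, Pi.smul_apply, smul_eq_mul,
      mul_comm]
  have ef (a d : κ ⊕ ι) : B (e a) (f d) = if a = d then 1 else 0 := by
    split_ifs with e
    · rw [e, H.ef1]
    · exact H.ef0 a d e
  have o1 (i : κ ⊕ ι) : B (e i) w = 0 := (ho₁ w hw i).1
  have o2 (i : κ ⊕ ι) : B (f i) w = 0 := (ho₁ w hw i).2
  have hf (x y : ((κ ⊕ ι) ⊕ (κ ⊕ ι)) ⊕ Unit → Ω) :
      ((Matrix.of (Sum.elim (Sum.elim e f) fun _ => w))ᵀ *ᵥ x) ⬝ᵥ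
      J *ᵥ ((Matrix.of (Sum.elim (Sum.elim e f) fun _ => w))ᵀ *ᵥ y) = Bod δ x y := by
    rw [← hB, hg, hg, map_add B, LinearMap.add_apply, map_sum B, LinearMap.sum_apply]
    refine congrArg₂ (· + ·) (Finset.sum_congr rfl fun i _ => ?_) ?_
    · simp only [map_add, map_smul, map_sum, LinearMap.add_apply, LinearMap.smul_apply, H.ee, H.ff,
        h.symm (e _) (f i), ef, o1, o2, smul_eq_mul, mul_ite, mul_one, mul_zero, zero_add, add_zero,
        Finset.sum_add_distrib, Finset.sum_ite_eq, Finset.sum_ite_eq', Finset.mem_univ, if_true,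
        sg_one]
      ring
    · simp only [map_add, map_smul, map_sum, LinearMap.smul_apply, h.symm (e _) w, h.symm (f _) w,
        o1, o2, w3, smul_eq_mul, mul_zero, add_zero, Finset.sum_const_zero, zero_add]
      ring
  have hi : Injective (Matrix.of (Sum.elim (Sum.elim e f) fun _ : Unit => w))ᵀ.mulVecLin :=
    (injective_iff_map_eq_zero _).2 fun x hx => (fd_bo (k := k) hδ h0 c τ).nd x fun y => by
      rw [← hf, show (Matrix.of (Sum.elim (Sum.elim e f) fun _ => w))ᵀ *ᵥ x = 0 from hx,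
        mulVec_zero, dotProduct_zero]
  refine ⟨b, τ, (Matrix.of (Sum.elim (Sum.elim e f) fun _ => w))ᵀ, ⟨hi,
    (LinearMap.injective_iff_surjective_of_finrank_eq_finrank ?_).1 hi⟩, hf, fun x => ?_,
    fun a => ?_⟩
  · simp only [Module.finrank_fintype_fun_eq_card, Fintype.card_sum, Fintype.card_unit]
    omega
  · rw [hb]
    change Φ _ = _
    rw [hg, hg, h.add, h.sum, h.smul, w4, FO_inr (q := q), frs_apply k, smul_smul, mul_comm]
    refine congrArg (· + _) (Finset.sum_congr rfl fun i _ => ?_)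
    rw [h.add, h.smul, h.smul, H.pe, H.pf, congrFun (FO_inl (q := q) x) (.inl i),
      congrFun (FO_inl (q := q) x) (.inr i), FV_inl 1 c _ k, FV_inr 1 c _ k, sg_one]
    cases c i
    · simp only [Bool.false_eq_true, if_false, smul_smul, mul_comm]
    · simp only [if_true, add_comm]
  · rw [← hE]
    rfl

end Pool.Agent.CXD
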