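import Pool.Agent.P.MP_2ce3e7_ag.SOE
import Pool.Agent.P.MP_2ce3e7_ag.SW2

/-! The universal solution with one more variable. -/

set_option linter.unusedSectionVars false
set_option linter.unusedVariables false

open Function Matrix

noncomputable section

namespace Pool.Agent.CXD
open Finset

variable {k Ω : Type} [Field k] [Field Ω] [Algebra k Ω] {q : ℕ} {ε σ τ : ℤˣ} {s D : ℕ} [NeZero s]
  {R : ℤ → Prop} {f f' f₁ f₂ g : ℤ → ℤ} {ι n : Type} [Fintype ι] [Fintype n] {b : ι → Bool}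
  {G : Gp Ω} {B : (n → Ω) → (n → Ω) → Ω} {F : Equiv.Perm (n → Ω)} {Q Q' : (ℤ → ℤ → Ω) → Prop}
  {r θ : ℤ} {e : ℤ → ℤ → Ω} {κ δ : Ω} {α β : Type} [Af Ω α] [Af Ω β] [IsAlgClosed Ω] [Sq k q]

/-- the index set of the data -/
abbrev Bj (D : ℕ) (R : ℤ → Prop) (f : ℤ → ℤ) : Type := (Bi D R f ⊕ Bi D R f) ⊕ Unit

/-- the solution with universal data -/
structure Uo (κ : Ω) (D : ℕ) (R : ℤ → Prop) (f : ℤ → ℤ) (e : ℤ → ℤ → Ω) (c : ℤ → Ω)
    (x η : ℤ → Bj D R f → Ω) : Prop where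
  l : ∀ a : Bi D R f, x a = Pi.single (.inl (.inl a)) 1
  r : ∀ a : Bi D R f, Pv D e x (-1) a = Pi.single (.inl (.inr a)) 1
  m : η (-1) = Pi.single (.inr ()) 1
  so : ∀ θ, 0 ≤ θ → So κ D e c x η θ

/-- the columns of the transfer matrix -/
def Mo (σ : ℤˣ) (s D : ℕ) {R : ℤ → Prop} {f : ℤ → ℤ} (e : ℤ → ℤ → Ω) (x η : ℤ → Bj D R f → Ω) :
    Bj D R f → Bj D R f → Ω :=
  Sum.elim (Sum.elim (fun a => x (a + s)) fun a => Pv D e x (-1 + s) (a + s))
    fun _ => (sg σ : Ω) • η (-1 + s)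

/-- special isometries that turn the transfer matrix into the Frobenius map -/
def Yh [DecidableEq ι] (q : ℕ) (δ : Ω) (b : ι → Bool) (τ : ℤˣ)
    (M : (ι ⊕ ι) ⊕ Unit → (ι ⊕ ι) ⊕ Unit → Ω) (m : Matrix ((ι ⊕ ι) ⊕ Unit) ((ι ⊕ ι) ⊕ Unit) Ω) :
    Prop :=
  (∀ x y, Bod δ (m *ᵥ x) (m *ᵥ y) = Bod δ x y) ∧ m.det = 1 ∧ ∀ j, FO q b τ (m.col j) = m *ᵥ M j

theorem C3.exists_uo (h : C3 s D R f g) (h2 : (2 : Ω) ≠ 0) [Kr k κ] {p : α → Prop}
    {e : α → ℤ → ℤ → Ω} {c : α → ℤ → Ω} (he : ∀ u v, Pq k p fun x => e x u v)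
    (hc : ∀ u, Pq k p fun x => c x u) (h1 : ∀ x, p x →
      Amx q (-1) s D (e x) ∧ Se (-1) R f (e x) ∧ Piv R f (e x) ∧ Acz R (c x)) :
    ∃ x η : α → ℤ → Bj D R f → Ω, (∀ v, Pq k p fun a => x a v) ∧ (∀ v, Pq k p fun a => η a v) ∧
      ∀ a, p a → Uo κ D R f (e a) (c a) (x a) (η a) := by
  classical
  let d : (Bi D R f → Bi D R f ⊕ Bi D R f) → ℤ → Bj D R f → Ω := fun i u =>
    if hu : u ∈ bd D R f (-1) then Pi.single (.inl (i ⟨u, hu⟩)) 1 else 0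
  have hd : ∀ i u, Pq k p fun _ : α => d i u := fun i u => by
    by_cases hu : u ∈ bd D R f (-1)
    · simp only [d, dif_pos hu]
      exact Pq.single _ (Pq.const 1)
    · simp only [d, dif_neg hu]
      exact Pq.const _
  let lo : ℤ → ℤ := fun u => if u < 0 then 0 else u - D
  let rh : (ℤ → (α → Bj D R f → Ω) × (α → Bj D R f → Ω)) → ℤ → α → Bj D R f → Ω := fun z u a =>
    if u < 0 then d .inr u else -((2⁻¹ * (2⁻¹ * c a u)) • ((z u).2 a + (z (u - 1)).2 a))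
  let X : ℤ → (ℤ → (α → Bj D R f → Ω) × (α → Bj D R f → Ω)) → α → Bj D R f → Ω := fun v z a =>
    if R v then (e a (g v) v)⁻¹ • (rh z (g v) a - ∑ w ∈ Ico (lo (g v)) v, e a (g v) w • (z w).1 a)
    else 0
  have hX : ∀ v z z', (∀ w, w < v → z w = z' w) → X v z = X v z' := fun v z z' hz =>
    funext fun a => by
      by_cases hR : R v
      · have h3 := h.glt hR
        simp only [X, rh, if_pos hR]
        rw [hz _ h3, hz (g v - 1) (by omega),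
          Finset.sum_congr rfl fun w hw => by rw [hz w (mem_Ico.1 hw).2]]
      · simp only [X, if_neg hR]
  obtain ⟨z, z0, z1⟩ := rec_SB4 (W := (α → Bj D R f → Ω) × (α → Bj D R f → Ω))
    (fun v => (fun _ => d .inl v, fun _ => Pi.single (.inr ()) 1))
    (fun v z => (X v z, fun a => (z (v - 1)).2 a - (2 * κ * c a v) • X v z a))
    fun v z z' hz => by rw [hX v z z' hz, hz (v - 1) (by omega)]
  have y1 : ∀ v, 0 ≤ v → (z v).1 = X v z := fun v hv => congrArg Prod.fst (z1 v hv)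
  have y2 : ∀ v a, 0 ≤ v → (z v).2 a = (z (v - 1)).2 a - (2 * κ * c a v) • (z v).1 a :=
    fun v a hv => by
      rw [y1 v hv]
      exact congrFun (congrArg Prod.snd (z1 v hv)) a
  have key : ∀ a, p a → ∀ u, R u → 0 ≤ f u →
      ∑ v ∈ Icc (lo u) (u + D), e a u v • (z v).1 a = rh z u a := by
    intro a ha u hu h0
    have h3 := h.lt u hu
    rw [last_SB4 h (h1 a ha).2.1 (fun v => (z v).1 a) hu
      (by simp only [lo]; split_ifs <;> omega), y1 _ h0]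
    simp only [X, if_pos (h.Rf u hu), h.gf u hu]
    rw [smul_inv_smul₀ ((h1 a ha).2.2.1 u hu), add_sub_cancel]
  have po : ∀ n : ℕ, ∀ v : ℤ, v < n → (Pq k p fun a => (z v).1 a) ∧ Pq k p fun a => (z v).2 a := by
    intro n
    induction n with
    | zero => exact fun v hv => by rw [z0 v hv]; exact ⟨hd _ _, Pq.single _ (Pq.const 1)⟩
    | succ n ih =>
      intro v hv
      rcases lt_or_ge v n with h3 | h3
      · exact ih v h3
      have h4 : Pq k p fun a => (z v).1 a := by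
        rw [y1 v (by omega)]
        by_cases hR : R v
        · have h5 := h.glt hR
          simp only [X, if_pos hR]
          refine ((he _ _).inv fun a ha => ?_).vsmul (Pq.vsub ?_ (vsum_SB4 _ fun w hw =>
            (he _ _).vsmul (ih w (by have := (mem_Ico.1 hw).2; omega)).1))
          · have := (h1 a ha).2.2.1 _ (h.Rg v hR)
            rwa [h.fg v hR] at this
          · exact Pq.ite _ (hd _ _) (((Pq.const _).mul ((Pq.const _).mul (hc _))).vsmul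
              ((ih _ (by omega)).2.vadd (ih _ (by omega)).2)).vneg
        · simp only [X, if_neg hR]
          exact Pq.const _
      exact ⟨h4, ((ih (v - 1) (by omega)).2.vsub ((((Pq.const 2).mul (Pq.const κ)).mul
        (hc v)).vsmul h4)).congr fun a _ => y2 v a (by omega)⟩
  refine ⟨fun a v => (z v).1 a, fun a v => (z v).2 a, fun v => (po (v.toNat + 1) v (by omega)).1,
    fun v => (po (v.toNat + 1) v (by omega)).2,
    fun a ha => ⟨fun u => ?_, fun u => ?_, ?_, fun u hu => ⟨y2 u a hu, ?_⟩⟩⟩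
  · have h3 := h.toIs.mem_bd.1 u.2
    exact (congrFun (congrArg Prod.fst (z0 u (by omega))) a).trans (dif_pos u.2)
  · have h3 := h.toIs.mem_bd.1 u.2
    have h4 := key a ha u h3.1 (by omega)
    simp only [lo, rh, d, if_pos (show (u : ℤ) < 0 by omega), dif_pos u.2] at h4
    rw [← h4, Pv]
    exact Finset.sum_congr (by ext v; simp only [mem_Ioc, mem_Icc]; omega) fun _ _ => rfl
  · exact congrFun (congrArg Prod.snd (z0 (-1) (by omega))) a
  · by_cases hR : R u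
    · have h3 := key a ha u hR (by have := h.lt u hR; omega)
      simp only [lo, rh, if_neg (show ¬u < 0 by omega)] at h3
      have h4 : (4 : Ω) * (2⁻¹ * (2⁻¹ * c a u)) = c a u := by
        field_simp
        norm_num
      rw [Ew, h3, smul_neg, smul_smul, h4, neg_add_cancel]
    · rw [(h1 a ha).2.2.2 u hR, zero_smul, add_zero, Ew, Finset.sum_eq_zero fun v _ => ?_,
        smul_zero]
      have h3 : e a u v = 0 := by
        by_contra h3
        exact hR ((h1 a ha).2.1.of_ne (h1 a ha).1 h3).1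
      rw [h3, zero_smul]

theorem lin_SOF (δ : Ω) (y : (ι ⊕ ι) ⊕ Unit → Ω) : IsLinearMap Ω fun x => Bod δ x y := by
  refine ⟨fun x x' => ?_, fun t x => ?_⟩
  · have e := Bf_add_left 1 (fun j => x (.inl j)) (fun j => x' (.inl j)) fun j => y (.inl j)
    simp only [Bod, Pi.add_apply]
    linear_combination e
  · have e := Bf_smul_left 1 (fun j => x (.inl j)) (fun j => y (.inl j)) t
    simp only [Bod, Pi.smul_apply, smul_eq_mul]
    linear_combination e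

theorem comm_SOF (δ : Ω) (x y : (ι ⊕ ι) ⊕ Unit → Ω) : Bod δ y x = Bod δ x y := by
  rw [Bod, Bod, Bf_comm, sg_one]
  ring

theorem sum_SOF {m : Type} [Fintype m] (δ : Ω) (t : m → Ω) (x : m → (ι ⊕ ι) ⊕ Unit → Ω)
    (y : (ι ⊕ ι) ⊕ Unit → Ω) : Bod δ (∑ i, t i • x i) y = ∑ i, t i * Bod δ (x i) y :=
  (map_sum ((lin_SOF δ y).mk' _) _ _).trans
    (Finset.sum_congr rfl fun i _ => (lin_SOF δ y).map_smul (t i) (x i))

theorem exp_SOF (δ : Ω) (m : Matrix ((ι ⊕ ι) ⊕ Unit) ((ι ⊕ ι) ⊕ Unit) Ω)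
    (x y : (ι ⊕ ι) ⊕ Unit → Ω) :
    Bod δ (m *ᵥ x) (m *ᵥ y) = ∑ i, x i * ∑ j, y j * Bod δ (m.col i) (m.col j) := by
  rw [cols_SB4 m x, sum_SOF]
  refine Finset.sum_congr rfl fun i _ => ?_
  rw [comm_SOF, cols_SB4, sum_SOF]
  exact congrArg _ (Finset.sum_congr rfl fun j _ => by rw [comm_SOF])

variable [DecidableEq ι]

theorem bod_mulVec_iff (m : Matrix ((ι ⊕ ι) ⊕ Unit) ((ι ⊕ ι) ⊕ Unit) Ω) :
    (∀ x y, Bod δ (m *ᵥ x) (m *ᵥ y) = Bod δ x y) ↔
      ∀ i j, Bod δ (m.col i) (m.col j) = Bod δ (Pi.single i 1) (Pi.single j 1) := by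
  refine ⟨fun h i j => by rw [← h (Pi.single i 1), mulVec_single_one, mulVec_single_one],
    fun h x y => ?_⟩
  have e2 := exp_SOF δ 1 x y
  rw [one_mulVec, one_mulVec] at e2
  rw [exp_SOF, e2]
  refine Finset.sum_congr rfl fun i _ => congrArg _ (Finset.sum_congr rfl fun j _ => ?_)
  rw [h, ← mulVec_single_one, ← mulVec_single_one, one_mulVec, one_mulVec]

theorem ii_SOF (δ : Ω) (i j : ι ⊕ ι) : Bod δ (Pi.single (.inl i) 1) (Pi.single (.inl j) 1) =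
    Bf 1 (Pi.single i 1) (Pi.single j 1) := by
  have e : ∀ i : ι ⊕ ι, (fun l => (Pi.single (.inl i) 1 : (ι ⊕ ι) ⊕ Unit → Ω) (.inl l)) =
      Pi.single i 1 := fun i => funext fun l => by simp only [Pi.single_apply, Sum.inl.injEq]
  rw [Bod, e, e, Pi.single_eq_of_ne Sum.inr_ne_inl, zero_mul, mul_zero, add_zero]

theorem ir_SOF (δ : Ω) (i : ι ⊕ ι) : Bod δ (Pi.single (.inl i) 1) (Pi.single (.inr ()) 1) = 0 := by
  simp [Bod, Bf]

theorem rr_SOF (δ : Ω) :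
    Bod δ (Pi.single (.inr ()) 1 : (ι ⊕ ι) ⊕ Unit → Ω) (Pi.single (.inr ()) 1) = δ := by
  simp [Bod, Bf]

theorem Uo.iso (k : Type) [Field k] [Algebra k Ω] [Sq k q] {c : ℤ → Ω} {x η : ℤ → Bj D R f → Ω}
    (hu : Uo κ D R f e c x η) (h : C3 s D R f g) (h2 : (2 : Ω) ≠ 0) (hκ : κ ^ q = κ) (hκ0 : κ ≠ 0)
    (ha : Amx q (-1) s D e) (hs : Se (-1) R f e) (hp : Piv R f e) (hc : Acz R c)
    (y y' : Bj D R f → Ω) : Bod (-4 * κ) ((Matrix.of (Mo σ s D e x η))ᵀ *ᵥ y)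
      ((Matrix.of (Mo σ s D e x η))ᵀ *ᵥ y') = Bod (-4 * κ) y y' := by
  have hq : Su k q := Sq.su
  have h4 : (-4 * κ : Ω) = -(2 * 2 * κ) := by ring
  have hF : Fo k q 1 (Bod (-4 * κ)) (FO q (fun _ : Bi D R f => false) 1) :=
    fd_bo (by rw [h4, hq.neg_pow, mul_pow, mul_pow, two_pow_eq k, hκ])
      (by rw [h4]; exact neg_ne_zero.2 (mul_ne_zero (mul_ne_zero h2 h2) hκ0)) _ _
  have H0 : Hz (Bod (-4 * κ)) κ D R f e x η (-1) := by
    refine ⟨fun u h5 v h6 => ?_, fun u h5 => ?_, by rw [hu.m, rr_SOF]⟩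
    · rw [hu.l ⟨u, h5⟩, hu.l ⟨v, h6⟩, hu.r ⟨u, h5⟩, hu.r ⟨v, h6⟩, ii_SOF, ii_SOF, ii_SOF, ll_SB4,
        rr_SB4, lr_SB4]
      simp only [Subtype.mk.injEq, and_self]
    · rw [hu.l ⟨u, h5⟩, hu.r ⟨u, h5⟩, hu.m, ir_SOF, ir_SOF]
      exact ⟨rfl, rfl⟩
  obtain ⟨H1, H2, H3⟩ := h.hz_up (θ := -1 + s) hF h2 ha hs hp hc H0 hu.so (by omega)
  have H4 := fun a a' : Bi D R f => H1 _ (h.toIs.bd_per.2 a.2) _ (h.toIs.bd_per.2 a'.2)
  have H5 := fun a : Bi D R f => H2 _ (h.toIs.bd_per.2 a.2)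
  have H6 : ∀ w, Bod (-4 * κ) w ((sg σ : Ω) • η (-1 + s)) = sg σ * Bod (-4 * κ) w (η (-1 + s)) :=
    fun w => (hF.lin' w).map_smul _ _
  have H7 : ∀ a : Bi D R f ⊕ Bi D R f,
      Bod (-4 * κ) (Mo σ s D e x η (.inl a)) (Mo σ s D e x η (.inr ())) = 0 := by
    rintro (a | a) <;> simp only [Mo, Sum.elim_inl, Sum.elim_inr, H6]
    · rw [(H5 a).1, mul_zero]
    · rw [(H5 a).2, mul_zero]
  refine (bod_mulVec_iff _).2 (fun i j => ?_) y y'
  change Bod (-4 * κ) (Mo σ s D e x η i) (Mo σ s D e x η j) = _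
  rcases i with a | ⟨⟩ <;> rcases j with a' | ⟨⟩
  · rw [ii_SOF]
    rcases a with a | a <;> rcases a' with a' | a' <;> simp only [Mo, Sum.elim_inl, Sum.elim_inr]
    · rw [(H4 a a').1, ll_SB4]
    · rw [(H4 a a').2.1, lr_SB4]
      simp only [add_left_inj, Subtype.ext_iff]
    · rw [comm_SOF, (H4 a' a).2.1, rl_SB4, sg_one, one_mul]
      simp only [add_left_inj, Subtype.ext_iff]
    · rw [(H4 a a').2.2, rr_SB4]
  · rw [H7, ir_SOF]
  · rw [comm_SOF, H7, comm_SOF, ir_SOF]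
  · simp only [Mo, Sum.elim_inr]
    rw [H6, comm_SOF, H6, H3, rr_SOF, ← mul_assoc, sg_mul_self, one_mul]

variable {M : (ι ⊕ ι) ⊕ Unit → (ι ⊕ ι) ⊕ Unit → Ω} {m : Matrix ((ι ⊕ ι) ⊕ Unit) ((ι ⊕ ι) ⊕ Unit) Ω}

theorem exists_yh (k : Type) [Field k] [Algebra k Ω] [Sq k q] (h2 : (2 : Ω) ≠ 0) (hδ : δ ^ q = δ)
    (h0 : δ ≠ 0) (h : ∀ x y, Bod δ ((Matrix.of M)ᵀ *ᵥ x) ((Matrix.of M)ᵀ *ᵥ y) = Bod δ x y) :
    ∃ b τ m, Yh q δ b τ M m := by
  have hq : Su k q := Sq.su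
  let J : Matrix ((ι ⊕ ι) ⊕ Unit) ((ι ⊕ ι) ⊕ Unit) Ω :=
    Matrix.of fun i j => Bod δ (Pi.single i 1) (Pi.single j 1)
  have hJ : ∀ x y, x ⬝ᵥ J *ᵥ y = Bod δ x y := fun x y => by
    have e2 := exp_SOF δ 1 x y
    rw [one_mulVec, one_mulVec] at e2
    rw [e2]
    refine Finset.sum_congr rfl fun i _ => congrArg _ (Finset.sum_congr rfl fun j _ => ?_)
    rw [← mulVec_single_one, ← mulVec_single_one, one_mulVec, one_mulVec, mul_comm]
    rfl
  have nd := (fd_bo (k := k) hδ h0 (fun _ : ι => false) 1).nd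
  have hf : fm q J = J := by
    ext i j
    rw [fm_apply]
    simp only [J, of_apply]
    rcases i with i | ⟨⟩ <;> rcases j with j | ⟨⟩
    · rw [ii_SOF]
      rcases i with i | i <;> rcases j with j | j <;>
        simp only [ll_SB4, rr_SB4, lr_SB4, rl_SB4, mul_pow, sg_pow k, ite_pow, one_pow,
          zero_pow hq.pos.ne']
    · rw [ir_SOF, zero_pow hq.pos.ne']
    · rw [comm_SOF, ir_SOF, zero_pow hq.pos.ne']
    · rw [rr_SOF, hδ]
  have hd : J.det ≠ 0 := fun h1 => by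
    obtain ⟨v, hv, h3⟩ := exists_mulVec_eq_zero_iff.2 h1
    exact hv (nd v fun y => by rw [← hJ, h3, dotProduct_zero])
  have iso : ∀ u : Matrix ((ι ⊕ ι) ⊕ Unit) ((ι ⊕ ι) ⊕ Unit) Ω,
      (∀ x y, Bod δ (u *ᵥ x) (u *ᵥ y) = Bod δ x y) → uᵀ * J * u = J := fun u hu => by
    ext i j
    have e1 := hu (Pi.single i 1) (Pi.single j 1)
    rw [← hJ, mulVec_single_one, mulVec_single_one] at e1
    rw [Matrix.mul_assoc]
    exact e1
  obtain ⟨b, τ, u, -, g1, g2, -⟩ := wd_odd (n := (ι ⊕ ι) ⊕ Unit) (ι := ι) (κ := Empty) k h2 hδ h0 J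
    (Matrix.of M)ᵀ (by simp [two_mul]) hd (by ext i j; exact comm_SOF δ _ _)
    ((iso _ h).trans hf.symm) (fun a => a.elim) linearIndependent_empty_type (fun a => a.elim)
    fun a => a.elim
  let t : (ι ⊕ ι) ⊕ Unit ≃ ((Empty ⊕ ι) ⊕ (Empty ⊕ ι)) ⊕ Unit :=
    ((Equiv.emptySum Empty ι).symm.sumCongr (Equiv.emptySum Empty ι).symm).sumCongr (Equiv.refl _)
  let g' : Matrix ((ι ⊕ ι) ⊕ Unit) ((ι ⊕ ι) ⊕ Unit) Ω := u.submatrix id t
  have e1 : ∀ x, g' *ᵥ x = u *ᵥ (x ∘ t.symm) := fun x => submatrix_mulVec_equiv u x id t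
  have e2 : ∀ x y, Bod δ (g' *ᵥ x) (g' *ᵥ y) = Bod δ x y := fun x y => by
    rw [← hJ, e1, e1, g1, Bod, Bod, Bf, Bf, Fintype.sum_sum_type, Fintype.sum_empty, zero_add]
    rfl
  have e3 : ∀ x, ((Matrix.of M)ᵀ *ᵥ fun j => (g' *ᵥ x) j ^ q) = g' *ᵥ FO q b τ x := fun x => by
    rw [e1, g2, e1]
    congr 1
    funext j
    rcases j with ((j | j) | (j | j)) | ⟨⟩
    · exact j.elim
    · refine (congrFun (FO_inl _) (Sum.inl (Sum.inr j))).trans ?_
      rw [FV_inl 1 _ _ k]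
      exact ((congrFun (FO_inl x) (Sum.inl j)).trans (FV_inl 1 b _ k j)).symm
    · exact j.elim
    · refine (congrFun (FO_inl _) (Sum.inr (Sum.inr j))).trans ?_
      rw [FV_inr 1 _ _ k]
      exact ((congrFun (FO_inl x) (Sum.inr j)).trans (FV_inr 1 b _ k j)).symm
    · rfl
  have hu : IsUnit g'.det := isUnit_iff_ne_zero.2 fun h1 => by
    obtain ⟨v, hv, h3⟩ := exists_mulVec_eq_zero_iff.2 h1
    exact hv (nd v fun y => by rw [← e2, h3, ← hJ, mulVec_zero, dotProduct_zero])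
  have e4 : ∀ x, g' *ᵥ (g'⁻¹ *ᵥ x) = x := fun x => by
    rw [mulVec_mulVec, mul_nonsing_inv _ hu, one_mulVec]
  have f1 : ∀ x y, Bod δ (g'⁻¹ *ᵥ x) (g'⁻¹ *ᵥ y) = Bod δ x y := fun x y => by rw [← e2, e4, e4]
  have f2 : ∀ j, FO q b τ (g'⁻¹.col j) = g'⁻¹ *ᵥ M j := fun j => by
    have e5 := e3 (g'⁻¹.col j)
    rw [← mulVec_single_one, e4] at e5
    have e6 : (fun i => (Pi.single j (1 : Ω) : (ι ⊕ ι) ⊕ Unit → Ω) i ^ q) = Pi.single j 1 := by
      funext i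
      simp only [Pi.single_apply, ite_pow, one_pow, zero_pow hq.pos.ne']
    rw [e6, mulVec_single_one, mulVec_single_one] at e5
    change _ = g'⁻¹ *ᵥ (Matrix.of M)ᵀ.col j
    rw [e5, mulVec_mulVec, nonsing_inv_mul _ hu, one_mulVec]
  generalize g'⁻¹ = w at f1 f2
  have f3 := congrArg det (iso w f1)
  rw [det_mul, det_mul, det_transpose, mul_right_comm, mul_eq_right₀ hd, mul_self_eq_one_iff] at f3
  rcases f3 with f3 | f3
  · exact ⟨b, τ, w, f1, f3, f2⟩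
  refine ⟨b, τ, -w, fun x y => ?_, ?_, fun j => ?_⟩
  · rw [neg_mulVec, neg_mulVec, ← hJ, mulVec_neg, neg_dotProduct_neg, hJ, f1]
  · rw [det_neg, f3, Odd.neg_one_pow (by simp [← two_mul]), neg_mul_neg, one_mul]
  · have f4 := (sem_FO_SO0 (k := k) b τ).sub 0 (w.col j)
    rw [(sem_FO_SO0 (k := k) b τ).zero, zero_sub, zero_sub, f2] at f4
    rw [neg_mulVec]
    exact f4

theorem Yh.fm (k : Type) [Field k] [Algebra k Ω] [Sq k q] (hδ : δ ^ q = δ) (h0 : δ ≠ 0)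
    (h : Yh q δ b τ M m) : fm (q ^ 2) m = m * ((Matrix.of M)ᵀ * fm q (Matrix.of M)ᵀ) := by
  ext i j
  have e1 := FO_FO (b := b) (τ := τ) k (m.col j)
  rw [h.2.2 j, cols_SB4, (sem_FO_SO0 (k := k) b τ).sum] at e1
  simp only [(sem_FO_SO0 (k := k) b τ).smul, h.2.2] at e1
  have e2 := congrFun e1 i
  rw [fm_apply, ← Matrix.mul_assoc, Matrix.mul_apply]
  refine e2.symm.trans ?_
  rw [Finset.sum_apply]
  exact Finset.sum_congr rfl fun l _ => mul_comm _ _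

theorem Cr.yh (hδ : δ ^ q = δ) (h0 : δ ≠ 0) {p : α → Prop}
    {M : α → (ι ⊕ ι) ⊕ Unit → (ι ⊕ ι) ⊕ Unit → Ω}
    {m : α → Matrix ((ι ⊕ ι) ⊕ Unit) ((ι ⊕ ι) ⊕ Unit) Ω} (hM : Pq k p M) (hm : Pq k p m) :
    Cr k p fun x => Yh q δ b τ (M x) (m x) := by
  have hF := fd_bo (k := k) hδ h0 b τ
  exact ((Cr.all fun i => Cr.all fun j => Cr.eq (hF.pq (hm.col i) (hm.col j))
    (hF.pq (Pq.single i (Pq.const 1)) (Pq.single j (Pq.const 1)))).and
    ((Cr.eq hm.det (Pq.const 1)).and (Cr.all fun j => Cr.eq (hF.sem.po.comp (hm.col j))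
      (hm.mulVec (hM.eval j))))).congr fun x _ => and_congr_left fun _ => bod_mulVec_iff _

theorem Pq.mo {p : α → Prop} {e : α → ℤ → ℤ → Ω} {x η : α → ℤ → Bj D R f → Ω}
    (he : ∀ u v, Pq k p fun a => e a u v) (hx : ∀ v, Pq k p fun a => x a v)
    (hη : ∀ v, Pq k p fun a => η a v) : Pq k p fun a => Mo σ s D (e a) (x a) (η a) := by
  refine Pq.pi fun j => ?_
  rcases j with (a | a) | ⟨⟩
  · exact hx _
  · exact Pq.pv he hx _ _
  · exact (Pq.const _).vsmul (hη _)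

end Pool.Agent.CXD
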