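import Pool.Agent.P.MP_2ce3e7_ag.SOF

/-! The finite cover with one more variable. -/

set_option linter.unusedSectionVars false
set_option linter.unusedVariables false

open Function Matrix

noncomputable section

namespace Pool.Agent.CXD
open Finset

variable {k Ω : Type} [Field k] [Field Ω] [Algebra k Ω] {q : ℕ} {ε σ τ : ℤˣ} {s D : ℕ} [NeZero s]
  {R : ℤ → Prop} {f f' f₁ f₂ g : ℤ → ℤ} {ι n : Type} [Fintype ι] [Fintype n] {b : ι → Bool}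
  {G : Gp Ω} {B : (n → Ω) → (n → Ω) → Ω} {F : Equiv.Perm (n → Ω)} {Q Q' : (ℤ → ℤ → Ω) → Prop}
  {r θ : ℤ} {e : ℤ → ℤ → Ω} {κ δ : Ω} {α β : Type} [Af Ω α] [Af Ω β] [IsAlgClosed Ω] [Sq k q]

/-- the frame of a solution -/
def fz (D : ℕ) (R : ℤ → Prop) (f : ℤ → ℤ) (e : ℤ → ℤ → Ω) (z : ℤ → Bj D R f → Ω)
    (ν : Bj D R f → Ω) : Matrix (Bj D R f) (Bj D R f) Ω :=
  (Matrix.of (Sum.elim (Sum.elim (fun a : Bi D R f => z a) fun a : Bi D R f => Pv D e z (-1) a)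
    fun _ => ν))ᵀ

/-- the variety of oriented solutions -/
def Yp (q : ℕ) (σ : ℤˣ) (κ : Ω) (s D : ℕ) (R : ℤ → Prop) (f : ℤ → ℤ) (b : Bi D R f → Bool) (τ : ℤˣ)
    (y : (Ecf Ω s D × (ZMod s → Ω)) × (ZMod s → Bj D R f → Ω) × (ZMod s → Bj D R f → Ω)) : Prop :=
  Yt q σ κ (Bod (-4 * κ)) (FO q b τ) s D R f (ee q (-1) y.1.1) (pext (frz q σ) s y.1.2)
    (pext (FO q b τ) s y.2.1) (pext (sF σ (FO q b τ)) s y.2.2) ∧
  (fz D R f (ee q (-1) y.1.1) (pext (FO q b τ) s y.2.1)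
    (pext (sF σ (FO q b τ)) s y.2.2 (-1))).det = 1

theorem pext_up_SOG {γ : Type} {F : Equiv.Perm γ} {y : ℤ → γ} (P : ℤ → Prop) (X : ZMod s → γ)
    (h0 : ∀ v : ℤ, P v → 0 ≤ v → v < s → X v = y v) (h1 : ∀ v, P v → y (v + s) = F (y v))
    (hup : ∀ v, P v → P (v + s)) (hdn : ∀ v, P (v + s) → 0 ≤ v → P v) (v : ℤ) (hv : P v) :
    pext F s X v = y v := by
  have hs := pos_SE0 s
  have up : ∀ (n : ℕ) (v : ℤ), P v → 0 ≤ v → v < n → pext F s X v = y v := by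
    intro n
    induction n with
    | zero => exact fun v _ h1 h2 => absurd h1 (by omega)
    | succ n ih =>
      intro v hv h2 h3
      by_cases e1 : v < s
      · rw [pext_of_mem h2 e1, h0 v hv h2 e1]
      · obtain ⟨w, rfl⟩ : ∃ w, v = w + s := ⟨v - s, by ring⟩
        have hw := hdn w hv (by omega)
        rw [pe_pext _ _ w, ih w hw (by omega) (by omega), h1 w hw]
  have dn : ∀ (n : ℕ) (v : ℤ), P v → -(n : ℤ) ≤ v → pext F s X v = y v := by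
    intro n
    induction n with
    | zero => exact fun v hv h2 => up (v.toNat + 1) v hv (by omega) (by omega)
    | succ n ih =>
      intro v hv h2
      apply F.injective
      rw [← pe_pext _ _ v, ih _ (hup v hv) (by omega), h1 v hv]
  exact dn (-v).toNat v hv (by omega)

theorem so_shift_SOG {c : ℤ → Ω} {x η : ℤ → n → Ω} (h : So κ D e c x η (θ + s)) :
    So κ D (fun u v => e (u + s) (v + s)) (fun u => c (u + s)) (fun v => x (v + s))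
      (fun v => η (v + s)) θ := by
  obtain ⟨h1, h2⟩ := h
  rw [show θ + s - 1 = θ - 1 + s by ring] at h1 h2
  exact ⟨h1, by rw [ew_shift_SB5]; exact h2⟩

theorem so_frob_SOG (hF : Sem k q F) (hκ : κ ^ q = κ) (ha : Amx q (-1) s D e) {c : ℤ → Ω}
    (hc : Pe (frz q σ) s c) {x η : ℤ → n → Ω} (h : So κ D e c x η θ) :
    So κ D (fun u v => e (u + s) (v + s)) (fun u => c (u + s)) (fun v => F (x v))
      (fun v => sF σ F (η v)) θ := by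
  obtain ⟨h1, h2⟩ := h
  have e1 : c (θ + s) = sg σ * c θ ^ q := (hc θ).trans (frs_apply k σ _)
  have e2 : (2 : Ω) ^ q = 2 := two_pow_eq k
  have e4 : (4 : Ω) ^ q = 4 := by rw [show (4 : Ω) = 2 * 2 by norm_num, mul_pow, e2]
  have e5 : Ew D (fun u v => e (u + s) (v + s)) (fun v => F (x v)) θ = F (Ew D e x θ) := by
    refine (sum_frob_SB5 hF ha x _ θ).trans ?_
    rw [sg_neg, sg_one, neg_smul, one_smul, neg_neg]
    rfl
  constructor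
  · beta_reduce
    rw [sF_apply, sF_apply, e1, h1, hF.sub, hF.smul, mul_pow, mul_pow, e2, hκ, smul_sub, smul_smul]
    congr 2
    ring
  · beta_reduce
    have e6 := congrArg F h2
    rw [hF.zero, hF.add, hF.smul, hF.smul, hF.add, e4] at e6
    rw [e5, sF_apply, sF_apply, e1, ← smul_add, smul_smul, mul_right_comm, sg_mul_self, one_mul]
    exact e6

theorem frame_SOG {A : Finset ℤ} {z p z' p' : ℤ → n → Ω} {ν ν' : n → Ω} {d : Ω}
    (hB : ∀ x y, B y x = B x y) (h : Ho B d A z p ν) (h' : Ho B d A z' p' ν')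
    (i j : ({u // u ∈ A} ⊕ {u // u ∈ A}) ⊕ Unit) :
    B (Sum.elim (Sum.elim (fun a : {u // u ∈ A} => z a) fun a : {u // u ∈ A} => p a)
        (fun _ => ν) i)
      (Sum.elim (Sum.elim (fun a : {u // u ∈ A} => z a) fun a : {u // u ∈ A} => p a)
        (fun _ => ν) j) =
    B (Sum.elim (Sum.elim (fun a : {u // u ∈ A} => z' a) fun a : {u // u ∈ A} => p' a)
        (fun _ => ν') i)
      (Sum.elim (Sum.elim (fun a : {u // u ∈ A} => z' a) fun a : {u // u ∈ A} => p' a)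
        (fun _ => ν') j) := by
  rcases i with (a | a) | a <;> rcases j with (a' | a') | a' <;>
    simp only [Sum.elim_inl, Sum.elim_inr]
  · exact (h.1 a a.2 a' a'.2).1.trans (h'.1 a a.2 a' a'.2).1.symm
  · exact (h.1 a a.2 a' a'.2).2.1.trans (h'.1 a a.2 a' a'.2).2.1.symm
  · exact (h.2.1 a a.2).1.trans (h'.2.1 a a.2).1.symm
  · rw [hB, hB (z' a')]
    exact (h.1 a' a'.2 a a.2).2.1.trans (h'.1 a' a'.2 a a.2).2.1.symm
  · exact (h.1 a a.2 a' a'.2).2.2.trans (h'.1 a a.2 a' a'.2).2.2.symm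
  · exact (h.2.1 a a.2).2.trans (h'.2.1 a a.2).2.symm
  · rw [hB, hB (z' a')]
    exact (h.2.1 a' a'.2).1.trans (h'.2.1 a' a'.2).1.symm
  · rw [hB, hB (p' a')]
    exact (h.2.1 a' a'.2).2.trans (h'.2.1 a' a'.2).2.symm
  · exact h.2.2.trans h'.2.2.symm

theorem neg4_SOG (k : Type) [Field k] [Algebra k Ω] [Sq k q] (hκ : κ ^ q = κ) :
    (-4 * κ) ^ q = -4 * κ := by
  rw [mul_pow, (Sq.su : Su k q).neg_pow, show (4 : Ω) = 2 * 2 by norm_num, mul_pow, two_pow_eq k,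
    hκ]

theorem ne4_SOG (h2 : (2 : Ω) ≠ 0) (hκ0 : κ ≠ 0) : -4 * κ ≠ 0 :=
  mul_ne_zero (neg_ne_zero.2 (by
    rw [show (4 : Ω) = 2 * 2 by norm_num]
    exact mul_ne_zero h2 h2)) hκ0

theorem bod_comm_SOG (δ : Ω) (x y : (ι ⊕ ι) ⊕ Unit → Ω) : Bod δ y x = Bod δ x y := by
  rw [Bod, Bod, Bf_comm, sg_one]
  ring

section
variable {b : Bi D R f → Bool} {c : ℤ → Ω} {x η z m : ℤ → Bj D R f → Ω}
  {M : Matrix (Bj D R f) (Bj D R f) Ω}

theorem Uo.hz_SOG (hu : Uo κ D R f e c x η) : Hz (Bod (-4 * κ)) κ D R f e x η (-1) := by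
  refine ⟨fun u hu' v hv => ?_, fun u hu' => ?_, ?_⟩
  · rw [hu.l ⟨u, hu'⟩, hu.l ⟨v, hv⟩, hu.r ⟨u, hu'⟩, hu.r ⟨v, hv⟩]
    simp [Bod, Bf, Pi.single_apply, eq_comm]
  · rw [hu.l ⟨u, hu'⟩, hu.r ⟨u, hu'⟩, hu.m]
    simp [Bod, Bf, Pi.single_apply]
  · rw [hu.m]
    simp [Bod, Bf, Pi.single_apply]

theorem Uo.col_SOG (hu : Uo κ D R f e c x η) (M : Matrix (Bj D R f) (Bj D R f) Ω) :
    (∀ a : Bi D R f, M *ᵥ x a = M.col (.inl (.inl a)) ∧
      Pv D e (fun v => M *ᵥ x v) (-1) a = M.col (.inl (.inr a))) ∧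
    M *ᵥ η (-1) = M.col (.inr ()) := by
  refine ⟨fun a => ⟨by rw [hu.l, mulVec_single_one], (pv_map M.mulVecLin x (-1) a).trans ?_⟩,
    by rw [hu.m, mulVec_single_one]⟩
  rw [mulVecLin_apply, hu.r, mulVec_single_one]

theorem Uo.so_SOG (hu : Uo κ D R f e c x η) (M : Matrix (Bj D R f) (Bj D R f) Ω) (θ : ℤ)
    (hθ : 0 ≤ θ) : So κ D e c (fun v => M *ᵥ x v) (fun v => M *ᵥ η v) θ :=
  (hu.so θ hθ).map M.mulVecLin

theorem Yh.shift (k : Type) [Field k] [Algebra k Ω] [Sq k q]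
    (hM : Yh q (-4 * κ) b τ (Mo σ s D e x η) M) (hu : Uo κ D R f e c x η) (h : C3 s D R f g)
    (h2 : (2 : Ω) ≠ 0) (hκ : κ ^ q = κ) (hκ0 : κ ≠ 0) (ha : Amx q (-1) s D e) (hs : Se (-1) R f e)
    (hp : Piv R f e) (h3 : Pe (frz q σ) s c) (h4 : Acz R c) :
    (∀ v, v ∈ bd D R f (-1) ∨ (R v ∧ 0 ≤ v) → M *ᵥ x (v + s) = FO q b τ (M *ᵥ x v)) ∧
      ∀ θ, -1 ≤ θ → M *ᵥ η (θ + s) = sF σ (FO q b τ) (M *ᵥ η θ) := by
  have hF : Sem k q (FO q b τ : Equiv.Perm (_ → Ω)) := sem_FO_SO0 b τ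
  have h0 := pos_SE0 s
  refine h.so_uni (q := q) (κ := κ) (e := fun u v => e (u + s) (v + s)) (c := fun u => c (u + s))
    (x := fun v => M *ᵥ x (v + s)) (x' := fun v => FO q b τ (M *ᵥ x v))
    (η := fun v => M *ᵥ η (v + s)) (η' := fun v => sF σ (FO q b τ) (M *ᵥ η v)) h2
    ⟨fun u v => ha.sym _ _, fun u v => ha.per _ _, fun u v h1 => ha.band _ _ (by omega)⟩
    (fun u v h1 h2 => ?_) (fun u hu => ?_) (fun u hu => h4 _ fun h1 => hu ((h.perR u).1 h1))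
    (fun θ hθ => so_shift_SOG (hu.so_SOG M _ (by omega)))
    (fun θ hθ => so_frob_SOG hF hκ ha h3 (hu.so_SOG M θ hθ)) (fun u hu' => ⟨?_, ?_⟩) ?_
  · refine (ha.per u v).trans ?_
    rw [hs u v h1 h2, zero_pow (Sq.su (k := k)).pos.ne', mul_zero, neg_zero]
  · have h1 := hp _ ((h.perR u).2 hu)
    rwa [h.perf] at h1
  · rw [((hu.col_SOG M).1 ⟨u, hu'⟩).1, hM.2.2]
    rfl
  · refine (pv_shift_SB5 (fun v => M *ᵥ x v) (-1) u).trans
      (Eq.trans ?_ (sum_frob_SB5 hF ha (fun v => M *ᵥ x v) _ u).symm)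
    rw [show ∑ v ∈ Ioc (-1) (u + D), e u v • M *ᵥ x v = M.col (.inl (.inr ⟨u, hu'⟩)) from
      ((hu.col_SOG M).1 ⟨u, hu'⟩).2, hM.2.2, sg_neg, sg_one, neg_smul, one_smul, neg_neg]
    exact pv_map M.mulVecLin x _ _
  · beta_reduce
    rw [sF_apply, (hu.col_SOG M).2, hM.2.2]
    change _ = (sg σ : Ω) • M *ᵥ ((sg σ : Ω) • η (-1 + s))
    rw [mulVec_smul, smul_smul, sg_mul_self, one_smul]

theorem Yh.yt (k : Type) [Field k] [Algebra k Ω] [Sq k q]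
    (hM : Yh q (-4 * κ) b τ (Mo σ s D e x η) M) (hu : Uo κ D R f e c x η) (h : C3 s D R f g)
    (h2 : (2 : Ω) ≠ 0) (hκ : κ ^ q = κ) (hκ0 : κ ≠ 0) (ha : Amx q (-1) s D e) (hs : Se (-1) R f e)
    (hp : Piv R f e) (h3 : Pe (frz q σ) s c) (h4 : Acz R c)
    (hz : z = pext (FO q b τ) s (zg s R M x))
    (hm : m = pext (sF σ (FO q b τ)) s (rsn s fun θ => M *ᵥ η θ)) :
    Yt q σ κ (Bod (-4 * κ)) (FO q b τ) s D R f e c z m ∧ fz D R f e z (m (-1)) = M := by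
  have h0 := pos_SE0 s
  obtain ⟨s1, s2⟩ := hM.shift k hu h h2 hκ hκ0 ha hs hp h3 h4
  have h1 : ∀ v, v ∈ bd D R f (-1) ∨ (R v ∧ 0 ≤ v) → z v = M *ᵥ x v := by
    rw [hz]
    refine pext_up_SOG (y := fun v => M *ᵥ x v) _ _ (fun v hv e1 e2 => ?_) s1
      (fun v hv => h.next_SB5 hv) fun v hv e1 => ?_
    · rcases hv with hv | hv
      · exact absurd (h.mem_bd.1 hv).2.1 (by omega)
      · rw [zg, res_cast _ e1 e2, if_pos hv.1]
    · rcases hv with hv | hv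
      · exact absurd (h.mem_bd.1 hv).2.1 (by omega)
      · exact Or.inr ⟨(h.perR v).1 hv.1, e1⟩
  have h5 : ∀ θ, -1 ≤ θ → m θ = M *ᵥ η θ := by
    rw [hm]
    exact pext_up_SOG (y := fun v => M *ᵥ η v) _ _ (fun v _ e1 e2 => res_cast _ e1 e2) s2
      (fun v hv => by omega) fun v _ e1 => by omega
  have h6 := (h.ew_congr ha hs h1).2
  have h7 : ∀ u, Pv D e z (-1) u = M *ᵥ Pv D e x (-1) u :=
    fun u => (h6 (-1) u le_rfl).trans (pv_map M.mulVecLin x (-1) u)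
  have hF : Fo k q 1 (Bod (-4 * κ)) (FO q b τ) := fd_bo (neg4_SOG k hκ) (ne4_SOG h2 hκ0) b τ
  have h8 := hu.hz_SOG
  refine ⟨h.yt hF h2 hκ ha hs hp h3 h4 (hz ▸ pe_pext _ _) (hm ▸ pe_pext _ _)
    (hz ▸ (hF.sem.act_iff h.perR _).2 fun a ha => if_neg ha)
    (fun θ e1 _ => (h.so_congr ha hs h4 h1 h5 e1).2 (hu.so_SOG M θ e1))
    ⟨fun u hu v hv => ?_, fun u hu => ?_, ?_⟩, ?_⟩
  · rw [h1 u (Or.inl hu), h1 v (Or.inl hv), h7, h7, hM.1, hM.1, hM.1]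
    exact h8.1 u hu v hv
  · rw [h1 u (Or.inl hu), h7, h5 _ le_rfl, hM.1, hM.1]
    exact h8.2.1 u hu
  · rw [h5 _ le_rfl, hM.1]
    exact h8.2.2
  · ext i j
    rcases j with (a | a) | a
    · exact congrFun ((h1 a (Or.inl a.2)).trans ((hu.col_SOG M).1 a).1) i
    · exact congrFun ((h6 (-1) a le_rfl).trans ((hu.col_SOG M).1 a).2) i
    · exact congrFun ((h5 _ le_rfl).trans (hu.col_SOG M).2) i

theorem Yt.yh (k : Type) [Field k] [Algebra k Ω] [Sq k q]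
    (hy : Yt q σ κ (Bod (-4 * κ)) (FO q b τ) s D R f e c z m) (hu : Uo κ D R f e c x η)
    (h : C3 s D R f g) (h2 : (2 : Ω) ≠ 0) (hM : M = fz D R f e z (m (-1))) (hd : M.det = 1) :
    Yh q (-4 * κ) b τ (Mo σ s D e x η) M ∧ zg s R M x = rsn s z ∧
      (rsn s fun θ => M *ᵥ η θ) = rsn s m := by
  have h0 := pos_SE0 s
  have c1 : ∀ j, M.col j = Sum.elim (Sum.elim (fun a : Bi D R f => z a)
      fun a : Bi D R f => Pv D e z (-1) a) (fun _ => m (-1)) j := fun j => by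
    rw [hM]
    rfl
  obtain ⟨h1, h5⟩ := h.so_uni h2 hy.am hy.se hy.piv hy.ac (x' := fun v => M *ᵥ x v)
    (η' := fun v => M *ᵥ η v) (fun θ _ => hy.so θ) (hu.so_SOG M)
    (fun u hu' => ⟨(((hu.col_SOG M).1 ⟨u, hu'⟩).1.trans (c1 _)).symm,
      (((hu.col_SOG M).1 ⟨u, hu'⟩).2.trans (c1 _)).symm⟩) ((hu.col_SOG M).2.trans (c1 _)).symm
  refine ⟨⟨(bod_mulVec_iff M).2 fun i j => ?_, hd, fun j => ?_⟩, funext fun a => ?_,
    funext fun a => (h5 _ (by omega)).symm⟩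
  · have c2 : ∀ j, (Pi.single j 1 : Bj D R f → Ω) = Sum.elim (Sum.elim (fun a : Bi D R f => x a)
        fun a : Bi D R f => Pv D e x (-1) a) (fun _ => η (-1)) j := by
      rintro ((a | a) | a)
      exacts [(hu.l a).symm, (hu.r a).symm, hu.m.symm]
    rw [c1, c1, c2, c2]
    exact frame_SOG (bod_comm_SOG _) (hy.hz (-1)) hu.hz_SOG i j
  · rw [c1]
    rcases j with (a | a) | a
    · exact (hy.pe a).symm.trans (h1 _ (h.next_SB5 (Or.inl a.2)))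
    · have e1 := Pv.per (sem_FO_SO0 (k := k) b τ) hy.am hy.pe (-1) a
      rw [sg_neg, sg_one, neg_smul, one_smul, neg_neg] at e1
      exact e1.symm.trans (((h.ew_congr hy.am hy.se h1).2 _ _ (by omega)).trans
        (pv_map M.mulVecLin x _ _))
    · have e1 := hy.pm (-1)
      rw [h5 _ (by omega), sF_apply] at e1
      change FO q b τ (m (-1)) = M *ᵥ ((sg σ : Ω) • η (-1 + s))
      rw [mulVec_smul, e1, smul_smul, sg_mul_self, one_smul]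
  · by_cases e1 : R a.val
    · exact (if_pos e1).trans (h1 _ (Or.inr ⟨e1, Int.natCast_nonneg _⟩)).symm
    · exact (if_neg e1).trans (hy.acz _ e1).symm

end

theorem Au.ocover (h : Au k q G) (h2 : (2 : Ω) ≠ 0) (hκ : κ ^ q = κ) (hκ0 : κ ≠ 0)
    (h3 : C3 s D R f g) (hp : ∀ b τ, Gy k G (Yp q σ κ s D R f b τ)) :
    Gy k G fun y : (Ecf Ω s D × (ZMod s → Ω)) × (ZMod s → ι → Ω) × (ZMod s → ι → Ω) =>
      Bc q σ s D R f y.1 ∧ Sl q σ κ ι s D R (ee q (-1) y.1.1) (pext (frz q σ) s y.1.2) y.2 := by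
  have hk : Kr k κ := kr_of_pow hκ
  have hδ := neg4_SOG k hκ
  have hδ0 := ne4_SOG h2 hκ0
  have pc : ∀ (P : Ecf Ω s D × (ZMod s → Ω) → Prop) u, Pq k P fun y => pext (frz q σ) s y.2 u :=
    fun P u => Pq.pext (po_frs σ) (po_frs_symm σ) (Pq.snd Pq.id) u
  obtain ⟨x, η, hx, hη, hu⟩ := h3.exists_uo (k := k) (q := q) (κ := κ) h2 (p := Bc q σ s D R f)
    (e := fun y => ee q (-1) y.1) (c := fun y => pext (frz q σ) s y.2) pq_te (pc _)
    fun y hy => ⟨hy.1.ad k, hy.1, hy.2.1, hy.2.2⟩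
  have l2 : Lc k fun y : (Ecf Ω s D × (ZMod s → Ω)) × (ZMod s → ι → Ω) × (ZMod s → ι → Ω) =>
      Bc q σ s D R f y.1 ∧ Sl q σ κ ι s D R (ee q (-1) y.1.1) (pext (frz q σ) s y.1.2) y.2 := by
    refine ((lc_bc h3.toIs).fst _).land (Cr.lr ?_)
    have p1 := fun u => Pq.pext (p := fun y : (Ecf Ω s D × (ZMod s → Ω)) × (ZMod s → ι → Ω) ×
      (ZMod s → ι → Ω) => Bc q σ s D R f y.1) (sem_frv (k := k) (ι := ι) 1).po
      (sem_frv (k := k) (ι := ι) 1).po' (Pq.fst (Pq.snd Pq.id)) u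
    have p2 := fun u => Pq.pext (p := fun y : (Ecf Ω s D × (ZMod s → Ω)) × (ZMod s → ι → Ω) ×
      (ZMod s → ι → Ω) => Bc q σ s D R f y.1) (sem_frv (k := k) (ι := ι) σ).po
      (sem_frv (k := k) (ι := ι) σ).po' (Pq.snd (Pq.snd Pq.id)) u
    have p3 := fun u => Pq.comp (p := fun y : (Ecf Ω s D × (ZMod s → Ω)) × (ZMod s → ι → Ω) ×
      (ZMod s → ι → Ω) => Bc q σ s D R f y.1) (pc _ u) (Pq.fst Pq.id)
    have p4 := fun u => Pq.ev (D := D) (fun u v => Pq.ee (q := q) (Pq.fst (Pq.fst Pq.id)) (-1) u v)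
      p1 u
    have k4 : Kr k (4 : Ω) := kr_self.2 ⟨4, (map_ofNat _ 4).symm⟩
    exact (Cr.all fun u => Cr.all fun _ => Cr.eq (p1 u) (Pq.const 0)).and (Cr.all fun θ =>
      (Cr.eq (p2 θ) ((p2 _).vsub ((((Pq.const 2).mul (Pq.const κ)).mul (p3 θ)).vsmul (p1 θ)))).and
        (Cr.eq (((Pq.const 4).vsmul (p4 θ)).vadd ((p3 θ).vsmul ((p2 θ).vadd (p2 _))))
          (Pq.const 0)))
  have hM := Pq.mo (σ := σ) (s := s) (pq_te (q := q) (ε := -1)) hx hη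
  have c1 : ∀ t : (Bi D R f → Bool) × ℤˣ, Cr k
      (fun y : ((Ecf Ω s D × (ZMod s → Ω)) × (ZMod s → ι → Ω) × (ZMod s → ι → Ω)) ×
        Matrix (Bj D R f) (Bj D R f) Ω => Bc q σ s D R f y.1.1 ∧
          Sl q σ κ ι s D R (ee q (-1) y.1.1.1) (pext (frz q σ) s y.1.1.2) y.1.2)
      fun y => Yh q (-4 * κ) t.1 t.2 (Mo σ s D (ee q (-1) y.1.1.1) (x y.1.1) (η y.1.1)) y.2 :=
    fun t => Cr.yh hδ hδ0 (hM.pull (Pq.fst (Pq.fst Pq.id)) fun y hy => hy.1) (Pq.snd Pq.id)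
  have hM' := hM.pull (p := fun y : (Ecf Ω s D × (ZMod s → Ω)) × (ZMod s → ι → Ω) ×
      (ZMod s → ι → Ω) => Bc q σ s D R f y.1 ∧
        Sl q σ κ ι s D R (ee q (-1) y.1.1) (pext (frz q σ) s y.1.2) y.2)
    (Pq.fst Pq.id) fun y hy => hy.1
  refine h.gfinm l2 (Cr.ex c1) (fun y hy => ?_) (q ^ 2)
    (one_lt_pow₀ (Sq.su (k := k)).lt two_ne_zero) _
    (hM'.of.transpose.mmul (hM'.of.transpose.fm q))
    (fun y z _ hz => hz.elim fun t hz => hz.fm k hδ hδ0)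
    (h.gunion ((l2.fst _).land (Cr.ex c1).lr) (fun t => (c1 t).mono fun _ hy => hy.1)
      (fun _ hy => hy.2) fun t => ?_)
  · obtain ⟨b', τ', m, hm⟩ := exists_yh k h2 hδ hδ0
      ((hu _ hy.1).iso (σ := σ) k h3 h2 hκ hκ0 (hy.1.1.ad k) hy.1.1 hy.1.2.1 hy.1.2.2)
    exact ⟨m, (b', τ'), hm⟩
  obtain ⟨b', τ'⟩ := t
  have hF : Fo k q 1 (Bod (-4 * κ)) (FO q b' τ') := fd_bo hδ hδ0 b' τ'
  have pz : ∀ (P : (Ecf Ω s D × (ZMod s → Ω)) × (ZMod s → Bj D R f → Ω) ×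
      (ZMod s → Bj D R f → Ω) → Prop) u, Pq k P fun y => pext (FO q b' τ') s y.2.1 u :=
    fun P u => Pq.pext hF.sem.po hF.sem.po' (Pq.fst (Pq.snd Pq.id)) u
  have pm : ∀ (P : (Ecf Ω s D × (ZMod s → Ω)) × (ZMod s → Bj D R f → Ω) ×
      (ZMod s → Bj D R f → Ω) → Prop) u, Pq k P fun y => pext (sF σ (FO q b' τ')) s y.2.2 u :=
    fun P u => Pq.pext (hF.sem.sF σ).po (hF.sem.sF σ).po' (Pq.snd (Pq.snd Pq.id)) u
  have pe : ∀ (P : (Ecf Ω s D × (ZMod s → Ω)) × (ZMod s → Bj D R f → Ω) ×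
      (ZMod s → Bj D R f → Ω) → Prop) u v, Pq k P fun y => ee q (-1) y.1.1 u v :=
    fun P u v => Pq.ee (Pq.fst (Pq.fst Pq.id)) (-1) u v
  have h4 := h.olocus (ι := ι) (c := fun y => pext (frz q σ) s y.1.2) hF (FO_FO k) h2 hκ hκ0 h3
    (by simp only [Fintype.card_sum, Fintype.card_coe, Fintype.card_unit]; ring) (pe _) (pz _)
    (pm _) (fun y hy => hy.1) (hp b' τ')
  have bc : ∀ y, Yp q σ κ s D R f b' τ' y → Bc q σ s D R f y.1 :=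
    fun y hy => ⟨hy.1.se, hy.1.piv, hy.1.ac⟩
  refine h.giso (fun y => ((y.1.1, y.2), fz D R f (ee q (-1) y.1.1.1)
      (pext (FO q b' τ') s y.1.2.1) (pext (sF σ (FO q b' τ')) s y.1.2.2 (-1))))
    (fun w => ((w.1.1, zg s R w.2 (x w.1.1), rsn s fun θ => w.2 *ᵥ η w.1.1 θ), w.1.2)) ?_ ?_
    (fun y hy => ?_) (fun w hw => ?_) (fun y hy => ?_) (fun w hw => ?_) h4
  · have h5 : Pq k (fun _ => True) fun y : (Ecf Ω s D × (ZMod s → Ω)) ×
        (ZMod s → Bj D R f → Ω) × (ZMod s → Bj D R f → Ω) => fz D R f (ee q (-1) y.1.1)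
        (pext (FO q b' τ') s y.2.1) (pext (sF σ (FO q b' τ')) s y.2.2 (-1)) :=
      Pq.transpose (Pq.of (Pq.elim (Pq.elim (Pq.pi fun a => pz _ _)
        (Pq.pi fun a => Pq.pv (pe _) (pz _) _ _)) (Pq.pi fun _ => pm _ _)))
    exact Pq.mk (by fun_prop) (h5.comp (Pq.fst Pq.id))
  · classical
    exact Pq.mk (Pq.mk (by fun_prop) (Pq.mk (Pq.rsn fun u => Pq.ite _ (Pq.mulVec (Pq.snd Pq.id)
      ((hx u).pull (Pq.fst (Pq.fst Pq.id)) fun y hy => hy.1.1.1)) (Pq.const 0))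
      (Pq.rsn fun u => Pq.mulVec (Pq.snd Pq.id)
        ((hη u).pull (Pq.fst (Pq.fst Pq.id)) fun y hy => hy.1.1.1)))) (by fun_prop)
  · have h5 := (hy.1.1.yh k (hu _ (bc _ hy.1)) h3 h2 rfl hy.1.2).1
    exact ⟨⟨⟨bc _ hy.1, hy.2⟩, (b', τ'), h5⟩, h5⟩
  · have h5 := hw.1.1.1
    have h6 := hw.2.yt k (hu _ h5) h3 h2 hκ hκ0 (h5.1.ad k) h5.1 h5.2.1 (pe_pext _ _) h5.2.2 rfl rfl
    exact ⟨⟨h6.1, (congrArg Matrix.det h6.2).trans hw.2.2.1⟩, hw.1.1.2⟩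
  · have h5 := (hy.1.1.yh k (hu _ (bc _ hy.1)) h3 h2 rfl hy.1.2).2
    rw [res_pext, res_pext] at h5
    exact Prod.ext (Prod.ext rfl (Prod.ext h5.1 h5.2)) rfl
  · have h5 := hw.1.1.1
    exact Prod.ext rfl (hw.2.yt k (hu _ h5) h3 h2 hκ hκ0 (h5.1.ad k) h5.1 h5.2.1 (pe_pext _ _)
      h5.2.2 rfl rfl).2

end Pool.Agent.CXD
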