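import Pool.Agent.P.MP_2ce3e7_ag.SOE

/-! The alternating matrix is determined by the vectors. -/

set_option linter.unusedSectionVars false
set_option linter.unusedVariables false

open Function Matrix

noncomputable section

namespace Pool.Agent.CXD
open Finset

variable {k Ω : Type} [Field k] [Field Ω] [Algebra k Ω] {q : ℕ} {ε σ τ : ℤˣ} {s D : ℕ} [NeZero s]
  {R : ℤ → Prop} {f f' f₁ f₂ g : ℤ → ℤ} {ι n : Type} [Fintype ι] [Fintype n] {b : ι → Bool}
  {G : Gp Ω} {B : (n → Ω) → (n → Ω) → Ω} {F : Equiv.Perm (n → Ω)} {Q Q' : (ℤ → ℤ → Ω) → Prop}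
  {r θ : ℤ} {e : ℤ → ℤ → Ω} {κ δ : Ω} {α β : Type} [Af Ω α] [Af Ω β] [IsAlgClosed Ω] [Sq k q]

/-- the recursion for the entries -/
structure Eo (B : (n → Ω) → (n → Ω) → Ω) (D : ℕ) (R : ℤ → Prop) (f g : ℤ → ℤ) (z : ℤ → n → Ω)
    (e : ℤ → ℤ → Ω) : Prop where
  rc : ∀ u v, R u → R v → u < v → v ≤ f u →
    e u v * B (z (g v)) (z v) + B (z (g v)) (Pv D e z v u) = if u = g v then 1 else 0
  se : Se (-1) R f e
  sym : ∀ u v, v < u → e u v = -e v u

/-- orthogonal families with invertible pivots -/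
structure Zp (B : (n → Ω) → (n → Ω) → Ω) (R : ℤ → Prop) (f g : ℤ → ℤ) (z : ℤ → n → Ω) : Prop where
  ot : ∀ u v, R u → R v → u ≤ v → v < f u → B (z u) (z v) = 0
  ne : ∀ v, R v → B (z (g v)) (z v) ≠ 0

variable {z m : ℤ → n → Ω} {e' : ℤ → ℤ → Ω} {c : ℤ → Ω}

section
variable (hF : Fo k q 1 B F) (x y y' : n → Ω) (t : Ω)
include hF

theorem Fo.cm_SOH : B y x = B x y := by rw [hF.comm, sg_one, one_mul]

theorem Fo.ar_SOH : B x (y + y') = B x y + B x y' := (hF.lin' x).map_add y y'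

theorem Fo.al_SOH : B (y + y') x = B y x + B y' x := (hF.lin x).map_add y y'

theorem Fo.br_SOH : B x (y - y') = B x y - B x y' := (hF.lin' x).map_sub y y'

theorem Fo.sr_SOH : B x (t • y) = t * B x y := (hF.lin' x).map_smul t y

theorem Fo.sl_SOH : B (t • y) x = t * B y x := (hF.lin x).map_smul t y

theorem Fo.zr_SOH : B x 0 = 0 := (hF.lin' x).map_zero

theorem Fo.sum_SOH (A : Finset ℤ) (a : ℤ → Ω) (v : ℤ → n → Ω) :
    B x (∑ w ∈ A, a w • v w) = ∑ w ∈ A, a w * B x (v w) :=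
  (map_sum ((hF.lin' x).mk' _) _ A).trans (sum_congr rfl fun w _ => hF.sr_SOH x _ _)

end

theorem Eo.out_SOH (h : Eo B D R f g z e) (u v : ℤ) (h1 : u ≤ v)
    (h2 : ¬(R u ∧ R v ∧ v ≤ f u ∧ u < v)) : e u v = 0 :=
  h.se u v h1 fun c => h2 ⟨c.1, c.2.1, c.2.2.1, h1.lt_of_ne fun d => by simpa using c.2.2.2 d⟩

theorem Eo.uni (h : Eo B D R f g z e) (h' : Eo B D R f g z e') (hz : Zp B R f g z) : e = e' := by
  have key : ∀ (u : ℤ) (n : ℕ) (v : ℤ), u ≤ v → f u - n < v → e u v = e' u v := by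
    intro u n
    induction n with
    | zero =>
      intro v h1 h2
      rw [h.out_SOH u v h1 fun c => by omega, h'.out_SOH u v h1 fun c => by omega]
    | succ n ih =>
      intro v h1 h2
      by_cases c : R u ∧ R v ∧ v ≤ f u ∧ u < v
      · have e1 : Pv D e z v u = Pv D e' z v u := sum_congr rfl fun w hw => by
          have := (mem_Ioc.1 hw).1
          rw [ih w (by omega) (by omega)]
        have a := h.rc u v c.1 c.2.1 c.2.2.2 c.2.2.1
        rw [e1, ← h'.rc u v c.1 c.2.1 c.2.2.2 c.2.2.1, add_left_inj] at a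
        exact mul_right_cancel₀ (hz.ne v c.2.1) a
      · rw [h.out_SOH u v h1 c, h'.out_SOH u v h1 c]
  have key' : ∀ u v, u ≤ v → e u v = e' u v := fun u v h1 =>
    key u (f u - v + 1).toNat v h1 (by omega)
  funext u v
  rcases le_or_gt u v with c | c
  · exact key' u v c
  · rw [h.sym u v c, h'.sym u v c, key' v u c.le]

theorem Yt.zp (hy : Yt q σ κ B F s D R f e c z m) (hF : Fo k q 1 B F) (h : C3 s D R f g) :
    Zp B R f g z := by
  refine ⟨fun u v hu hv h1 h2 => ((hy.hz v).1 u (h.toIs.mem_bd.2 ⟨hu, h1, h2⟩) v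
    (h.toIs.mem_bd.2 ⟨hv, le_rfl, h.lt v hv⟩)).1, fun v hv h0 => ?_⟩
  have a := (h.bd_step hv).2.1
  have b := ((hy.hz (v - 1)).1 _ a _ a).2.1
  have := h.glt hv
  rw [Pv.step z fun c => hy.se _ _ this.le fun d => by have := h.hi (g v); have := d.2.2.1; omega,
    Pv.zero hy.se z (by omega) (h.fg v hv).le, add_zero, hF.sr_SOH, h0, mul_zero, if_pos rfl] at b
  exact zero_ne_one b

theorem Yt.eo (hy : Yt q σ κ B F s D R f e c z m) (hF : Fo k q 1 B F) (h : C3 s D R f g) :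
    Eo B D R f g z e := by
  refine ⟨fun u v hu hv h1 h2 => ?_, hy.se,
    fun u v _ => by rw [hy.am.sym v u, sg_neg, sg_one, neg_one_mul]⟩
  have a := (h.bd_step hv).2.1
  rw [← hF.sr_SOH, ← hF.ar_SOH, ← Pv.step z fun c => by have := h.hi u; omega,
    ((hy.hz (v - 1)).1 _ a u (h.toIs.mem_bd.2 ⟨hu, by omega, by omega⟩)).2.1]
  exact if_congr eq_comm rfl rfl

theorem Eo.piv (he : Eo B D R f g z e) (hF : Fo k q 1 B F) (h : C3 s D R f g) : Piv R f e := by
  intro u hu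
  have := h.lt u hu
  have a := he.rc u (f u) hu (h.Rf u hu) this le_rfl
  rw [h.gf u hu, Pv.zero he.se z (by omega) le_rfl, hF.zr_SOH, add_zero, if_pos rfl] at a
  exact left_ne_zero_of_mul_eq_one a

theorem Eo.step_SOH (he : Eo B D R f g z e) (h : C3 s D R f g) (θ u : ℤ) :
    Pv D e z (θ - 1) u = e u θ • z θ + Pv D e z θ u :=
  Pv.step z fun c => he.out_SOH u θ (by omega) fun d => by have := h.hi u; omega

theorem Eo.zp_SOH (he : Eo B D R f g z e) (hF : Fo k q 1 B F) (h : C3 s D R f g)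
    (hz : Zp B R f g z) {u a θ : ℤ} (hu : R u) (ha : R a) (h1 : u ≤ θ) (h2 : a ≤ θ + 1)
    (h3 : θ < f a) : B (z a) (Pv D e z θ u) = if a = u then 1 else 0 := by
  obtain ⟨n, rfl⟩ : ∃ n : ℕ, θ = f a - 1 - n := ⟨(f a - 1 - θ).toNat, by omega⟩
  clear h3
  induction n with
  | zero =>
    rw [Nat.cast_zero, sub_zero] at h1 ⊢
    by_cases c : f a ≤ f u
    · have b := he.rc u (f a) hu (h.Rf a ha) (by omega) c
      rw [h.gf a ha] at b
      rw [he.step_SOH h, hF.ar_SOH, hF.sr_SOH, b]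
      exact if_congr eq_comm rfl rfl
    · rw [Pv.zero he.se z (by omega) (by omega), hF.zr_SOH, if_neg fun d => c (by rw [d])]
  | succ n ih =>
    rw [Nat.cast_succ, ← sub_sub] at h1 h2 ⊢
    rw [he.step_SOH h, hF.ar_SOH, hF.sr_SOH, ih (by omega) (by omega), add_eq_right]
    by_cases c : R (f a - 1 - n)
    · rw [hz.ot a _ ha c (by omega) (by omega), mul_zero]
    · rw [he.out_SOH u _ (by omega) fun d => c d.2.1, zero_mul]

theorem Eo.pp_SOH (he : Eo B D R f g z e) (hF : Fo k q 1 B F) (h : C3 s D R f g)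
    (hz : Zp B R f g z) {u a θ : ℤ} (hu : R u) (ha : R a) (h1 : u ≤ θ) (h2 : a ≤ θ) :
    B (Pv D e z θ a) (Pv D e z θ u) = 0 := by
  have key : ∀ (n : ℕ) (θ : ℤ), u ≤ θ → a ≤ θ → f u - n ≤ θ →
      B (Pv D e z θ a) (Pv D e z θ u) = 0 := by
    intro n
    induction n with
    | zero =>
      intro θ h1 h2 h3
      rw [Pv.zero he.se z (u := u) (by omega) (by omega), hF.zr_SOH]
    | succ n ih =>
      intro θ h1 h2 h3
      obtain ⟨θ, rfl⟩ : ∃ t, θ = t - 1 := ⟨θ + 1, by ring⟩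
      rw [he.step_SOH h, he.step_SOH h, hF.al_SOH, hF.ar_SOH, hF.ar_SOH,
        ih θ (by omega) (by omega) (by omega)]
      simp only [hF.sl_SOH, hF.sr_SOH]
      by_cases c : R θ
      · have d := h.lt θ c
        rw [hz.ot θ θ c c le_rfl d, hF.cm_SOH (z θ) (Pv D e z θ a),
          he.zp_SOH hF h hz hu c (by omega) (by omega) d,
          he.zp_SOH hF h hz ha c (by omega) (by omega) d, if_neg (by omega), if_neg (by omega)]
        ring
      · rw [he.out_SOH u _ (by omega) fun d => c d.2.1, he.out_SOH a _ (by omega) fun d => c d.2.1]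
        ring
  exact key (f u - θ).toNat θ h1 h2 (by omega)

theorem Eo.hb (he : Eo B D R f g z e) (hF : Fo k q 1 B F) (h : C3 s D R f g) (hz : Zp B R f g z)
    (θ : ℤ) : Hb B (bd D R f θ) z (Pv D e z θ) := by
  intro u hu v hv
  obtain ⟨a1, a2, a3⟩ := h.toIs.mem_bd.1 hu
  obtain ⟨b1, b2, b3⟩ := h.toIs.mem_bd.1 hv
  refine ⟨?_, he.zp_SOH hF h hz b1 a1 b2 (by omega) a3, he.pp_SOH hF h hz b1 a1 b2 a2⟩
  rcases le_total u v with c | c
  · exact hz.ot u v a1 b1 c (by omega)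
  · rw [hF.cm_SOH, hz.ot v u b1 a1 c (by omega)]

theorem Eo.am (he : Eo B D R f g z e) (hF : Fo k q 1 B F) (h : C3 s D R f g) (hz : Zp B R f g z)
    (hp : Pe F s z) : Amx q (-1) s D e := by
  have hq : Su k q := Sq.su
  have h0 : (0 : Ω) ^ q = 0 := zero_pow hq.pos.ne'
  have key : Eo B D R f g z fun u v => e (u - s) (v - s) ^ q := by
    refine ⟨fun u v hu hv h3 h4 => ?_, fun u v h3 h4 => ?_, fun u v h3 => ?_⟩
    · obtain ⟨u, rfl⟩ : ∃ u', u = u' + s := ⟨u - s, by ring⟩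
      obtain ⟨v, rfl⟩ : ∃ v', v = v' + s := ⟨v - s, by ring⟩
      rw [h.perR] at hu hv
      rw [h.perf] at h4
      have h5 := congrArg (· ^ q) (he.rc u v hu hv (by omega) (by omega))
      have h6 : Pv D (fun u v => e (u - s) (v - s) ^ q) z (v + s) (u + s) = F (Pv D e z v u) := by
        rw [Pv, Pv, hF.sem.sum, show u + s + D = u + D + s by ring,
          ← Finset.map_add_right_Ioc, Finset.sum_map]
        refine Finset.sum_congr rfl fun w _ => ?_
        simp only [addRightEmbedding_apply, add_sub_cancel_right]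
        rw [hp w, hF.sem.smul]
      rw [h6, h.perg hv, hp, hp, hF.frob, hF.frob, sg_one, one_mul, one_mul]
      simp only [add_sub_cancel_right, add_left_inj]
      rw [hq.add_pow, mul_pow] at h5
      rw [h5]
      split_ifs
      exacts [one_pow q, h0]
    · obtain ⟨u, rfl⟩ : ∃ u', u = u' + s := ⟨u - s, by ring⟩
      obtain ⟨v, rfl⟩ : ∃ v', v = v' + s := ⟨v - s, by ring⟩
      rw [ok, h.perR, h.perR, h.perf, add_le_add_iff_right, add_left_inj] at h4
      simp only [add_sub_cancel_right]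
      rw [he.se u v (by omega) h4, h0]
    · rw [he.sym (u - s) (v - s) (by omega), hq.neg_pow]
  refine ⟨fun u v => ?_, fun u v => ?_, fun u v h3 => he.out_SOH u v (by omega) fun h4 => ?_⟩
  · rw [sg_neg, sg_one, neg_one_mul]
    rcases lt_trichotomy u v with h3 | rfl | h3
    · exact he.sym v u h3
    · rw [he.out_SOH u u le_rfl fun h4 => h4.2.2.2.false, neg_zero]
    · rw [he.sym u v h3, neg_neg]
  · have h8 := congrFun (congrFun (he.uni key hz) (u + s)) (v + s)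
    rw [sg_neg, sg_one, neg_one_mul, neg_neg]
    simpa only [add_sub_cancel_right] using h8
  · have := h.hi u
    omega

theorem row_SOH (hF : Fo k q 1 B F) {p : α → Prop} {z : α → ℤ → n → Ω}
    (hz : ∀ u, Pq k p fun x => z x u) (h : Is s D R f) (h1 : ∀ x, p x → Zp B R f g (z x))
    (u : ℤ) (N : ℕ) : ∃ r : α → ℤ → Ω, (∀ v, Pq k p fun x => r x v) ∧
      ∀ x, p x → ∀ v, u + D - N < v → (R u ∧ R v ∧ v ≤ f u ∧ u < v →
        r x v * B (z x (g v)) (z x v) +
          B (z x (g v)) (∑ w ∈ Ioc v (u + D), r x w • z x w) = if u = g v then 1 else 0) ∧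
        (¬(R u ∧ R v ∧ v ≤ f u ∧ u < v) → r x v = 0) := by
  classical
  induction N with
  | zero =>
    refine ⟨fun _ _ => 0, fun _ => Pq.const 0, fun x _ v hv => ⟨fun h2 => ?_, fun _ => rfl⟩⟩
    have := h.hi u
    omega
  | succ N ih =>
    obtain ⟨r, hr, ih⟩ := ih
    refine ⟨fun x v => if v = u + D - N then (if R u ∧ R v ∧ v ≤ f u ∧ u < v then
      ((if u = g v then 1 else 0) - B (z x (g v)) (∑ w ∈ Ioc v (u + D), r x w • z x w)) *
        (B (z x (g v)) (z x v))⁻¹ else 0) else r x v, fun v => ?_, fun x hx v hv => ?_⟩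
    · refine Pq.ite _ ?_ (hr v)
      by_cases h2 : R u ∧ R v ∧ v ≤ f u ∧ u < v
      · simp only [if_pos h2]
        exact ((Pq.ite _ (Pq.const 1) (Pq.const 0)).sub (hF.pq (hz _)
          (Pq.vsum _ fun w => (hr w).vsmul (hz w)))).mul
          ((hF.pq (hz _) (hz _)).inv fun x hx => (h1 x hx).ne v h2.2.1)
      · simp only [if_neg h2]
        exact Pq.const 0
    · have h3 : ∑ w ∈ Ioc v (u + D), (if w = u + D - N then (if R u ∧ R w ∧ w ≤ f u ∧ u < w then
          ((if u = g w then 1 else 0) - B (z x (g w)) (∑ w' ∈ Ioc w (u + D), r x w' • z x w')) *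
          (B (z x (g w)) (z x w))⁻¹ else 0) else r x w) • z x w =
          ∑ w ∈ Ioc v (u + D), r x w • z x w :=
        Finset.sum_congr rfl fun w hw => by
          rw [if_neg (by have := (mem_Ioc.1 hw).1; push_cast at hv; omega)]
      simp only [h3]
      by_cases h4 : v = u + D - N
      · simp only [if_pos h4]
        refine ⟨fun h5 => ?_, fun h5 => if_neg h5⟩
        rw [if_pos h5, inv_mul_cancel_right₀ ((h1 x hx).ne v h5.2.1), sub_add_cancel]
      · simp only [if_neg h4]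
        exact ih x hx v (by push_cast at hv; omega)

theorem exists_eo (hF : Fo k q 1 B F) {p : α → Prop} {z : α → ℤ → n → Ω}
    (hz : ∀ u, Pq k p fun x => z x u) (h : Is s D R f) (h1 : ∀ x, p x → Zp B R f g (z x)) :
    ∃ e : α → ℤ → ℤ → Ω, (∀ u v, Pq k p fun x => e x u v) ∧
      ∀ x, p x → Eo B D R f g (z x) (e x) := by
  choose r hr h2 using fun u => row_SOH hF hz h h1 u (D + 1)
  refine ⟨fun x u v => if u ≤ v then r u x v else -r v x u,
    fun u v => Pq.ite _ (hr u v) (hr v u).neg, fun x hx =>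
      ⟨fun u v hu hv h3 h4 => ?_, fun u v h3 h4 => ?_, fun u v h3 => ?_⟩⟩
  · beta_reduce
    rw [if_pos h3.le, ← (h2 u x hx v (by push_cast; omega)).1 ⟨hu, hv, h4, h3⟩, Pv]
    congr 2
    exact Finset.sum_congr rfl fun w hw => by
      rw [if_pos (by have := (mem_Ioc.1 hw).1; omega)]
  · beta_reduce
    rw [if_pos h3]
    exact (h2 u x hx v (by push_cast; omega)).2 fun c =>
      h4 ⟨c.1, c.2.1, c.2.2.1, fun d => absurd d c.2.2.2.ne⟩
  · beta_reduce
    rw [if_neg h3.not_ge, if_pos h3.le]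

open Classical in
/-- the step length that keeps the normal vector normal -/
def wn (B : (n → Ω) → (n → Ω) → Ω) (D : ℕ) (R : ℤ → Prop) (e : ℤ → ℤ → Ω) (z : ℤ → n → Ω)
    (ν : n → Ω) (θ : ℤ) : Ω := if R θ then B ν (Pv D e z θ θ) else 0

/-- the normal vectors -/
def nw (B : (n → Ω) → (n → Ω) → Ω) (D : ℕ) (R : ℤ → Prop) (e : ℤ → ℤ → Ω) (z : ℤ → n → Ω)
    (ν : n → Ω) : ℕ → n → Ω
  | 0 => ν
  | j + 1 => nw B D R e z ν j - wn B D R e z (nw B D R e z ν j) j • z j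

theorem Yt.wn (hy : Yt q σ κ B F s D R f e c z m) (hF : Fo k q 1 B F) (h : C3 s D R f g) (θ : ℤ) :
    wn B D R e z (m (θ - 1)) θ = 2 * κ * c θ := by
  unfold CXD.wn
  split_ifs with hθ
  · have a := h.toIs.mem_bd.2 ⟨hθ, le_rfl, h.lt θ hθ⟩
    rw [eq_add_of_sub_eq (hy.so θ).1.symm, hF.al_SOH, hF.sl_SOH, hF.cm_SOH _ (m θ),
      ((hy.hz θ).2.1 θ a).2, ((hy.hz θ).1 θ a θ a).2.1, if_pos rfl, zero_add, mul_one]
  · rw [hy.ac θ hθ, mul_zero]

theorem Yt.nw (hy : Yt q σ κ B F s D R f e c z m) (hF : Fo k q 1 B F) (h : C3 s D R f g) (j : ℕ) :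
    nw B D R e z (m (-1)) j = m (j - 1) := by
  induction j with
  | zero => simp [CXD.nw]
  | succ j ih => rw [CXD.nw, ih, hy.wn hF h, ← (hy.so j).1, Nat.cast_succ, add_sub_cancel_right]

theorem Eo.so (he : Eo B D R f g z e) (hF : Fo k q 1 B F) (h2 : (2 : Ω) ≠ 0) (hκ0 : κ ≠ 0)
    (h : C3 s D R f g) (hz : Zp B R f g z) (ha : Amx q (-1) s D e)
    (hc : Fintype.card n = 2 * (bd D R f (-1)).card + 1) (h3 : Hz B κ D R f e z m (θ - 1))
    (h4 : 2 * κ * c θ = wn B D R e z (m (θ - 1)) θ) (h5 : m θ = m (θ - 1) - (2 * κ * c θ) • z θ) :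
    So κ D e c z m θ := by
  refine ⟨h5, ?_⟩
  unfold wn at h4
  split_ifs at h4 with hv
  swap
  · rw [(mul_eq_zero.1 h4).resolve_left (mul_ne_zero h2 hκ0), zero_smul, add_zero, Ew,
      sum_eq_zero fun w _ => ?_, smul_zero]
    by_cases c : e θ w = 0
    · rw [c, zero_smul]
    · exact absurd (he.se.of_ne ha c).1 hv
  have d := h.lt θ hv
  have hg := h.glt hv
  have ag := (h.bd_step hv).2.1
  rw [Ew.split z (θ := θ - 1) (by omega) (by omega), he.step_SOH h,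
    he.out_SOH θ θ le_rfl fun c => c.2.2.2.false, zero_smul, zero_add, h5]
  set S := ∑ w ∈ Icc (θ - D) (θ - 1), e θ w • z w with hS
  have sS : ∀ x, (∀ w ∈ bd D R f (θ - 1), B x (z w) = 0) → B x S = 0 := fun x hx => by
    rw [hS, hF.sum_SOH]
    refine sum_eq_zero fun w hw => ?_
    have := (mem_Icc.1 hw).2
    by_cases c : e θ w = 0
    · rw [c, zero_mul]
    obtain ⟨-, d1, -, d2, -⟩ := he.se.of_ne ha c
    have := d2 (by omega)
    rw [hx w (h.toIs.mem_bd.2 ⟨d1, by omega, by omega⟩), mul_zero]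
  have zS : ∀ a ∈ bd D R f (θ - 1), B (z a) S = 0 := fun a ha =>
    sS _ fun w hw => (h3.1 a ha w hw).1
  have pS : ∀ a ∈ bd D R f (θ - 1), B (Pv D e z (θ - 1) a) S = -e a θ := fun a ha' => by
    obtain ⟨a1, a2, a3⟩ := h.toIs.mem_bd.1 ha'
    have := h.hi a
    rw [hS, hF.sum_SOH, sum_eq_single_of_mem a (mem_Icc.2 ⟨by omega, a2⟩) fun w hw hne => ?_,
      hF.cm_SOH, (h3.1 a ha' a ha').2.1, if_pos rfl, mul_one, he.sym θ a (by omega)]
    have := (mem_Icc.1 hw).2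
    by_cases c : e θ w = 0
    · rw [c, zero_mul]
    obtain ⟨-, d1, -, d2, -⟩ := he.se.of_ne ha c
    have := d2 (by omega)
    rw [hF.cm_SOH, (h3.1 w (h.toIs.mem_bd.2 ⟨d1, by omega, by omega⟩) a ha').2.1, if_neg hne,
      mul_zero]
  have e0 : e (g θ) θ ≠ 0 := by simpa only [h.fg θ hv] using he.piv hF h _ (h.Rg θ hv)
  have eZ : Pv D e z (θ - 1) (g θ) = e (g θ) θ • z θ := by
    rw [he.step_SOH h, Pv.zero he.se z (by omega) (h.fg θ hv).le, add_zero]
  have ZZ := hz.ot θ θ hv hv le_rfl d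
  have ZP : B (z θ) (Pv D e z θ θ) = 1 := by
    rw [he.zp_SOH hF h hz hv hv le_rfl (by omega) d, if_pos rfl]
  have PP := he.pp_SOH hF h hz hv hv le_rfl le_rfl (θ := θ)
  have SS := sS S fun w hw => by rw [hF.cm_SOH, zS w hw]
  have ZS : B (z θ) S = -1 := mul_left_cancel₀ e0 (by rw [← hF.sl_SOH, ← eZ, pS _ ag, mul_neg_one])
  have mS := sS (m (θ - 1)) fun w hw => by rw [hF.cm_SOH, (h3.2.1 w hw).1]
  have Zm : B (z θ) (m (θ - 1)) = 0 :=
    mul_left_cancel₀ e0 (by rw [← hF.sl_SOH, ← eZ, (h3.2.1 _ ag).2, mul_zero])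
  set ζ := (4 : Ω) • (S + Pv D e z θ θ) + c θ • (m (θ - 1) - (2 * κ * c θ) • z θ + m (θ - 1))
    with hζ
  have Bζ : ∀ x, B x ζ = 4 * (B x S + B x (Pv D e z θ θ)) +
      c θ * (2 * B x (m (θ - 1)) - 2 * κ * c θ * B x (z θ)) := fun x => by
    simp only [hζ, hF.ar_SOH, hF.br_SOH, hF.sr_SOH]
    ring
  have k1 := h3.eq_zero hF (mul_ne_zero (by
      rw [show (-4 : Ω) = -(2 * 2) by norm_num]
      exact neg_ne_zero.2 (mul_ne_zero h2 h2)) hκ0) (by rw [hc, h.card_bd _ (θ - 1)])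
    (y := ζ - (B (z (g θ)) ζ * e (g θ) θ) • z θ) (fun a ha' => ?_) (by
      rw [hF.br_SOH, hF.sr_SOH, Bζ, mS, ← h4, h3.2.2, hF.cm_SOH (z θ), Zm]
      ring)
  · have k2 := sub_eq_zero.1 k1
    generalize B (z (g θ)) ζ * e (g θ) θ = t at k2
    have k3 := Bζ (Pv D e z θ θ)
    have k4 := Bζ S
    rw [k2, hF.sr_SOH, hF.cm_SOH (z θ), hF.cm_SOH (m (θ - 1))] at k3 k4
    rw [ZP, PP, ← h4, hF.cm_SOH S] at k3
    rw [ZS, SS, mS] at k4
    rw [k2, (mul_eq_zero.1 (show 2 * t = 0 by linear_combination k3 - k4)).resolve_left h2,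
      zero_smul]
  obtain ⟨a1, a2, a3⟩ := h.toIs.mem_bd.1 ha'
  rw [hF.br_SOH, hF.sr_SOH, hF.br_SOH, hF.sr_SOH]
  constructor
  · by_cases c : a = g θ
    · have := (h3.1 _ ag _ ag).2.1
      rw [eZ, hF.sr_SOH, if_pos rfl] at this
      rw [c, mul_assoc, this, mul_one, sub_self]
    · have a4 : θ < f a := lt_of_le_of_ne (by omega) fun e => c (by rw [e, h.gf a a1])
      rw [Bζ, zS a ha', (h3.2.1 a ha').1, hz.ot a θ a1 hv (by omega) a4,
        he.zp_SOH hF h hz hv a1 le_rfl (by omega) a4, if_neg (by omega)]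
      ring
  · have pZ : B (Pv D e z (θ - 1) a) (z θ) = 0 :=
      mul_left_cancel₀ e0 (by rw [← hF.sr_SOH, ← eZ, (h3.1 a ha' _ ag).2.2, mul_zero])
    rw [Bζ, pS a ha', (h3.2.1 a ha').2, pZ, he.step_SOH h, hF.al_SOH, hF.sl_SOH, ZP,
      he.pp_SOH hF h hz hv a1 le_rfl (by omega)]
    ring

theorem Pq.nw (hF : Fo k q 1 B F) {p : α → Prop} {e : α → ℤ → ℤ → Ω} {z : α → ℤ → n → Ω}
    {ν : α → n → Ω} (he : ∀ u v, Pq k p fun x => e x u v) (hz : ∀ u, Pq k p fun x => z x u)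
    (hν : Pq k p ν) (j : ℕ) : (Pq k p fun x => nw B D R (e x) (z x) (ν x) j) ∧
      ∀ θ, Pq k p fun x => wn B D R (e x) (z x) (nw B D R (e x) (z x) (ν x) j) θ := by
  classical
  have key : ∀ {ν : α → n → Ω}, Pq k p ν → ∀ θ, Pq k p fun x => wn B D R (e x) (z x) (ν x) θ :=
    fun hν θ => Pq.ite _ (hF.pq hν (Pq.vsum _ fun w => (he θ w).vsmul (hz w))) (Pq.const 0)
  induction j with
  | zero => exact ⟨hν, key hν⟩
  | succ j ih =>
    have := ih.1.vsub ((ih.2 j).vsmul (hz j))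
    exact ⟨this, key this⟩

end Pool.Agent.CXD
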