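import Pool.Agent.P.MP_2ce3e7_ag.SOH
import Pool.Agent.P.MP_2ce3e7_ag.SOG

/-! Oriented solutions form an open part of the variety of a smaller system. -/

set_option linter.unusedSectionVars false
set_option linter.unusedVariables false

open Function Matrix

noncomputable section

namespace Pool.Agent.CXD
open Finset

variable {k Ω : Type} [Field k] [Field Ω] [Algebra k Ω] {q : ℕ} {ε σ τ : ℤˣ} {s D : ℕ} [NeZero s]
  {R : ℤ → Prop} {f f' f₁ f₂ g : ℤ → ℤ} {ι n : Type} [Fintype ι] [Fintype n] {b : ι → Bool}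
  {G : Gp Ω} {B : (n → Ω) → (n → Ω) → Ω} {F : Equiv.Perm (n → Ω)} {Q Q' : (ℤ → ℤ → Ω) → Prop}
  {r θ : ℤ} {e : ℤ → ℤ → Ω} {κ δ : Ω} {α β : Type} [Af Ω α] [Af Ω β] [IsAlgClosed Ω] [Sq k q]

/-- the vector that represents a linear form -/
def sh_SOI (δ : Ω) (v : (ι ⊕ ι) ⊕ Unit → Ω) : (ι ⊕ ι) ⊕ Unit → Ω :=
  Sum.elim (Sum.elim (fun i => v (.inl (.inr i))) fun i => v (.inl (.inl i)))
    fun _ => δ⁻¹ * v (.inr ())

theorem bod_sh_SOI (h0 : δ ≠ 0) (v y : (ι ⊕ ι) ⊕ Unit → Ω) :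
    Bod δ (sh_SOI δ v) y = v ⬝ᵥ y := by
  simp only [Bod, Bf, sh_SOI, dotProduct, Fintype.sum_sum_type, Sum.elim_inl, Sum.elim_inr, sg_one,
    one_mul, Finset.sum_add_distrib, Fintype.univ_punit, Finset.sum_singleton]
  rw [← mul_assoc, mul_inv_cancel_left₀ h0]
  ring

theorem dot_SOI [DecidableEq n] (hF : Fo k q 1 B F) (x y : n → Ω) :
    B x y = x ⬝ᵥ (Matrix.of fun i j => B (Pi.single i 1) (Pi.single j 1)) *ᵥ y := by
  have hx : x = ∑ i, x i • (Pi.single i 1 : n → Ω) := by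
    funext j
    simp [Finset.sum_apply, Pi.single_apply]
  have hy : y = ∑ i, y i • (Pi.single i 1 : n → Ω) := by
    funext j
    simp [Finset.sum_apply, Pi.single_apply]
  have e1 := map_sum (IsLinearMap.mk' _ (hF.lin y)) (fun i => x i • (Pi.single i 1 : n → Ω)) univ
  rw [← hx] at e1
  refine e1.trans (Finset.sum_congr rfl fun i _ => ?_)
  have e2 := map_sum (IsLinearMap.mk' _ (hF.lin' (Pi.single i 1)))
    (fun j => y j • (Pi.single j 1 : n → Ω)) univ
  rw [← hy] at e2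
  rw [map_smul, smul_eq_mul]
  congr 1
  refine e2.trans (Finset.sum_congr rfl fun j _ => ?_)
  rw [map_smul, smul_eq_mul, mul_comm]
  rfl

theorem det_sq_SOI [DecidableEq n] (hF : Fo k q 1 B F) {M : Matrix n n Ω}
    (h : ∀ i j, B (M.col i) (M.col j) = B (Pi.single i 1) (Pi.single j 1)) :
    M.det = 1 ∨ M.det = -1 := by
  set J : Matrix n n Ω := Matrix.of fun i j => B (Pi.single i 1) (Pi.single j 1) with hJ
  have h1 : Mᵀ * (J * M) = J := by
    ext i j
    have e := dot_SOI hF (M.col i) (M.col j)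
    rw [h, ← hJ] at e
    exact e.symm
  have h2 : J.det ≠ 0 := fun h3 => by
    obtain ⟨v, hv, h4⟩ := Matrix.exists_mulVec_eq_zero_iff.2 h3
    exact hv (hF.nd v fun y => by rw [dot_SOI hF, ← hJ, h4, dotProduct_zero])
  have h3 := congrArg Matrix.det h1
  rw [det_mul, det_mul, det_transpose] at h3
  rw [← mul_self_eq_one_iff]
  exact mul_left_cancel₀ h2 (by linear_combination h3)

theorem card_SOI : Fintype.card (Bj D R f) = 2 * (bd D R f (-1)).card + 1 := by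
  simp only [Fintype.card_sum, Fintype.card_coe, Fintype.card_unit]
  ring

section
variable {z : ℤ → Bj D R f → Ω} {ν ν' : Bj D R f → Ω}

theorem fz_det_SOI (ν : Bj D R f → Ω) :
    (fz D R f e z ν).det = Matrix.cramer (fz D R f e z 0) ν (.inr ()) := by
  rw [Matrix.cramer_apply]
  congr 1
  ext i j
  rcases j with j | ⟨⟩
  · rw [updateCol_ne (by simp)]
    rfl
  · rw [updateCol_self]
    rfl

theorem fz_mulVec_SOI (w : Bj D R f → Ω) : fz D R f e z ν *ᵥ w =
    ∑ a : Bi D R f, (w (.inl (.inl a)) • z a + w (.inl (.inr a)) • Pv D e z (-1) a) +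
      w (.inr ()) • ν := by
  funext i
  simp only [mulVec, dotProduct, fz, Fintype.sum_sum_type, transpose_apply, of_apply, Sum.elim_inl,
    Sum.elim_inr, Finset.sum_add_distrib, Fintype.univ_punit, Finset.sum_singleton, Pi.add_apply,
    Finset.sum_apply, Pi.smul_apply, smul_eq_mul, mul_comm]

theorem pair_SOI (k : Type) [Field k] [Algebra k Ω] [Sq k q] (hδ : δ ^ q = δ) (h0 : δ ≠ 0)
    (x w : Bj D R f → Ω) : Bod δ x (fz D R f e z ν *ᵥ w) =
    ∑ a : Bi D R f, (w (.inl (.inl a)) * Bod δ x (z a) +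
      w (.inl (.inr a)) * Bod δ x (Pv D e z (-1) a)) + w (.inr ()) * Bod δ x ν := by
  have hF : Fo k q 1 (Bod δ) (FO q (fun _ : Bi D R f => false) 1) := fd_bo hδ h0 _ _
  rw [fz_mulVec_SOI]
  change IsLinearMap.mk' _ (hF.lin' x) _ = _
  rw [map_add, map_sum, map_smul]
  simp only [map_add, map_smul, smul_eq_mul]
  rfl

theorem exists_normal (k : Type) [Field k] [Algebra k Ω] [Sq k q] (hδ : δ ^ q = δ) (h0 : δ ≠ 0)
    (h : Hb (Bod δ) (bd D R f (-1)) z (Pv D e z (-1))) :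
    ∃ ν, Ho (Bod δ) δ (bd D R f (-1)) z (Pv D e z (-1)) ν ∧ (fz D R f e z ν).det = 1 := by
  have hF : Fo k q 1 (Bod δ) (FO q (fun _ : Bi D R f => false) 1) := fd_bo hδ h0 _ _
  have hs : ∀ x y : Bj D R f → Ω, Bod δ y x = Bod δ x y := fun x y => by
    rw [hF.comm, sg_one, one_mul]
  have d0 : (fz D R f e z 0).det = 0 := by rw [fz_det_SOI, map_zero, Pi.zero_apply]
  obtain ⟨v, hv, h1⟩ := Matrix.exists_vecMul_eq_zero_iff.2 d0
  have o1 : ∀ u ∈ bd D R f (-1), Bod δ (z u) (sh_SOI δ v) = 0 ∧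
      Bod δ (Pv D e z (-1) u) (sh_SOI δ v) = 0 := fun u hu => by
    rw [hs, hs (sh_SOI δ v), bod_sh_SOI h0, bod_sh_SOI h0]
    exact ⟨congrFun h1 (.inl (.inl ⟨u, hu⟩)), congrFun h1 (.inl (.inr ⟨u, hu⟩))⟩
  have n0 : sh_SOI δ v ≠ 0 := fun h2 => hv (funext fun j => by
    have e1 := bod_sh_SOI h0 v (Pi.single j 1)
    rw [h2, hs, (hF.lin' _).map_zero, dotProduct_single, mul_one] at e1
    exact e1.symm)
  have n1 : Bod δ (sh_SOI δ v) (sh_SOI δ v) ≠ 0 := fun h2 => by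
    have d1 : (fz D R f e z (sh_SOI δ v)).det ≠ 0 := fun h3 => by
      obtain ⟨w, hw, h4⟩ := Matrix.exists_mulVec_eq_zero_iff.2 h3
      have w1 : ∀ a : Bi D R f, w (.inl (.inl a)) = 0 := fun a => by
        have e1 := pair_SOI (e := e) (z := z) (ν := sh_SOI δ v) k hδ h0 (Pv D e z (-1) a) w
        rw [h4, (hF.lin' _).map_zero, (o1 a a.2).2, mul_zero, add_zero,
          Finset.sum_eq_single_of_mem a (mem_univ a) fun a' _ h5 => by
            rw [hs, (h a' a'.2 a a.2).2.1, (h a a.2 a' a'.2).2.2,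
              if_neg fun h6 => h5 (Subtype.ext h6), mul_zero, mul_zero, add_zero],
          hs, (h a a.2 a a.2).2.1, (h a a.2 a a.2).2.2, if_pos rfl] at e1
        linear_combination -e1
      have w2 : ∀ a : Bi D R f, w (.inl (.inr a)) = 0 := fun a => by
        have e1 := pair_SOI (e := e) (z := z) (ν := sh_SOI δ v) k hδ h0 (z a) w
        rw [h4, (hF.lin' _).map_zero, (o1 a a.2).1, mul_zero, add_zero,
          Finset.sum_eq_single_of_mem a (mem_univ a) fun a' _ h5 => by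
            rw [(h a a.2 a' a'.2).2.1, (h a a.2 a' a'.2).1,
              if_neg fun h6 => h5 (Subtype.ext h6.symm), mul_zero, mul_zero, add_zero],
          (h a a.2 a a.2).2.1, (h a a.2 a a.2).1, if_pos rfl] at e1
        linear_combination -e1
      rw [fz_mulVec_SOI] at h4
      simp only [w1, w2, zero_smul, add_zero, Finset.sum_const_zero, zero_add] at h4
      refine hw (funext fun j => ?_)
      rcases j with (a | a) | ⟨⟩
      exacts [w1 a, w2 a, (smul_eq_zero.1 h4).resolve_right n0]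
    refine n0 (hF.nd _ fun y => ?_)
    obtain ⟨w, rfl⟩ := Matrix.mulVec_surjective_iff_isUnit.2
      ((Matrix.isUnit_iff_isUnit_det _).2 d1.isUnit) y
    rw [hs, pair_SOI k hδ h0, h2, mul_zero, add_zero]
    exact Finset.sum_eq_zero fun a _ => by
      rw [hs, (o1 a a.2).1, hs, (o1 a a.2).2, mul_zero, mul_zero, add_zero]
  obtain ⟨t, ht⟩ := IsAlgClosed.exists_eq_mul_self
    (δ * (Bod δ (sh_SOI δ v) (sh_SOI δ v))⁻¹)
  have key : ∀ t' : Ω, t' * t' = t * t →
      Ho (Bod δ) δ (bd D R f (-1)) z (Pv D e z (-1)) (t' • sh_SOI δ v) := fun t' h2 => by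
    refine ⟨h, fun u hu => ?_, ?_⟩
    · rw [(hF.lin' _).map_smul, (hF.lin' _).map_smul, (o1 u hu).1, (o1 u hu).2, smul_zero]
      exact ⟨rfl, rfl⟩
    · rw [(hF.lin' _).map_smul, (hF.lin _).map_smul, smul_eq_mul, smul_eq_mul, ← mul_assoc, h2,
        ← ht, inv_mul_cancel_right₀ n1]
  have h3 := key t rfl
  have h4 : (fz D R f e z (t • sh_SOI δ v)).det = 1 ∨ (fz D R f e z (t • sh_SOI δ v)).det = -1 := by
    refine det_sq_SOI hF fun i j => ?_
    rcases i with (a | a) | ⟨⟩ <;> rcases j with (a' | a') | ⟨⟩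
    · exact (h a a.2 a' a'.2).1.trans (by simp [Bod, Bf])
    · refine (h a a.2 a' a'.2).2.1.trans ?_
      rcases eq_or_ne a a' with rfl | h5
      · simp [Bod, Bf, Pi.single_apply]
      · rw [if_neg fun h6 => h5 (Subtype.ext h6)]
        simp [Bod, Bf, Pi.single_apply, h5.symm]
    · exact (h3.2.1 a a.2).1.trans (by simp [Bod, Bf])
    · refine ((hs _ _).trans (h a' a'.2 a a.2).2.1).trans ?_
      rcases eq_or_ne a' a with rfl | h5
      · simp [Bod, Bf, Pi.single_apply, sg_one]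
      · rw [if_neg fun h6 => h5 (Subtype.ext h6)]
        simp [Bod, Bf, Pi.single_apply, h5]
    · exact (h a a.2 a' a'.2).2.2.trans (by simp [Bod, Bf])
    · exact (h3.2.1 a a.2).2.trans (by simp [Bod, Bf])
    · exact ((hs _ _).trans (h3.2.1 a' a'.2).1).trans (by simp [Bod, Bf])
    · exact ((hs _ _).trans (h3.2.1 a' a'.2).2).trans (by simp [Bod, Bf])
    · exact h3.2.2.trans (by simp [Bod, Bf])
  rcases h4 with h4 | h4
  · exact ⟨_, h3, h4⟩
  · refine ⟨_, key (-t) (neg_mul_neg t t), ?_⟩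
    rw [fz_det_SOI] at h4 ⊢
    rw [neg_smul, map_neg, Pi.neg_apply, h4, neg_neg]

theorem normal_uni (k : Type) [Field k] [Algebra k Ω] [Sq k q] (h2 : (2 : Ω) ≠ 0) (hδ : δ ^ q = δ)
    (h0 : δ ≠ 0) (h : Ho (Bod δ) δ (bd D R f (-1)) z (Pv D e z (-1)) ν)
    (h' : Ho (Bod δ) δ (bd D R f (-1)) z (Pv D e z (-1)) ν') (hd : (fz D R f e z ν).det = 1)
    (hd' : (fz D R f e z ν').det = 1) : ν = ν' := by
  have hF : Fo k q 1 (Bod δ) (FO q (fun _ : Bi D R f => false) 1) := fd_bo hδ h0 _ _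
  rcases h.sign h' hF h0 card_SOI with h3 | h3
  · exact h3.symm
  · rw [h3, fz_det_SOI, map_neg, Pi.neg_apply, ← fz_det_SOI, hd] at hd'
    exact absurd (by linear_combination -hd') h2

theorem cof_SOI (k : Type) [Field k] [Algebra k Ω] [Sq k q] (hδ : δ ^ q = δ) (h0 : δ ≠ 0)
    (h : Ho (Bod δ) δ (bd D R f (-1)) z (Pv D e z (-1)) ν) (hd : (fz D R f e z ν).det = 1) :
    sh_SOI δ (fun j => δ * (fz D R f e z (Pi.single j 1)).det) = ν := by
  have hF : Fo k q 1 (Bod δ) (FO q (fun _ : Bi D R f => false) 1) := fd_bo hδ h0 _ _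
  have hs : ∀ x y : Bj D R f → Ω, Bod δ y x = Bod δ x y := fun x y => by
    rw [hF.comm, sg_one, one_mul]
  have key : ∀ y, δ * (fz D R f e z y).det = Bod δ ν y := fun y => by
    have z1 : ∀ u ∈ bd D R f (-1), Matrix.cramer (fz D R f e z 0) (z u) (.inr ()) = 0 ∧
        Matrix.cramer (fz D R f e z 0) (Pv D e z (-1) u) (.inr ()) = 0 := fun u hu => by
      rw [← fz_det_SOI, ← fz_det_SOI]
      exact ⟨det_zero_of_column_eq (i := .inl (.inl ⟨u, hu⟩)) (j := .inr ()) (by simp) fun _ => rfl,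
        det_zero_of_column_eq (i := .inl (.inr ⟨u, hu⟩)) (j := .inr ()) (by simp) fun _ => rfl⟩
    rw [fz_det_SOI] at hd ⊢
    conv_lhs => rw [← h.yo_eq hF h0 card_SOI y]
    rw [Yo, map_add, map_sum, map_smul, Pi.add_apply, Finset.sum_apply, Pi.smul_apply, hd,
      Finset.sum_eq_zero fun u hu => by
        rw [map_add, map_smul, map_smul, Pi.add_apply, Pi.smul_apply, Pi.smul_apply, (z1 u hu).1,
          (z1 u hu).2, smul_zero, smul_zero, add_zero], zero_add, smul_eq_mul, mul_one,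
      mul_left_comm, mul_inv_cancel₀ h0, mul_one]
  refine sub_eq_zero.1 (hF.nd _ fun y => ?_)
  rw [(hF.lin' _).map_sub, hs, bod_sh_SOI h0, hs ν, dot_SOI hF ν y, dotProduct_mulVec, sub_eq_zero]
  congr 1
  funext j
  rw [key, dot_SOI hF, dotProduct_mulVec, dotProduct_single, mul_one]

end

theorem exists_nu (hδ : δ ^ q = δ) (h0 : δ ≠ 0) {p : α → Prop} {e : α → ℤ → ℤ → Ω}
    {z : α → ℤ → Bj D R f → Ω} (he : ∀ u v, Pq k p fun x => e x u v)
    (hz : ∀ u, Pq k p fun x => z x u)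
    (h : ∀ x, p x → Hb (Bod δ) (bd D R f (-1)) (z x) (Pv D (e x) (z x) (-1))) :
    ∃ ν : α → Bj D R f → Ω, Pq k p ν ∧ ∀ x, p x →
      Ho (Bod δ) δ (bd D R f (-1)) (z x) (Pv D (e x) (z x) (-1)) (ν x) ∧
        (fz D R f (e x) (z x) (ν x)).det = 1 := by
  have := kr_of_pow (k := k) hδ
  have : Kr k δ⁻¹ := kr_of_pow (k := k) (by rw [inv_pow, hδ])
  have h1 : ∀ j, Pq k p fun x => δ * (fz D R f (e x) (z x) (Pi.single j 1)).det := fun j => by
    refine (Pq.const δ).mul (Pq.det (Pq.mat fun i l => ?_))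
    rcases l with (a | a) | ⟨⟩
    · exact (hz a).eval i
    · exact (Pq.pv he hz (-1) a).eval i
    · exact (Pq.single j (Pq.const 1)).eval i
  refine ⟨fun x => sh_SOI δ fun j => δ * (fz D R f (e x) (z x) (Pi.single j 1)).det,
    Pq.pi fun i => ?_, fun x hx => ?_⟩
  · rcases i with (a | a) | ⟨⟩
    exacts [h1 _, h1 _, (Pq.const _).mul (h1 _)]
  · obtain ⟨ν, h2, h3⟩ := exists_normal k hδ h0 (h x hx)
    beta_reduce
    rw [cof_SOI k hδ h0 h2 h3]
    exact ⟨h2, h3⟩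

theorem Eo.yt {z : ℤ → n → Ω} {ν : n → Ω} (he : Eo B D R f g z e) (hF : Fo k q 1 B F)
    (h2 : (2 : Ω) ≠ 0) (hκ : κ ^ q = κ) (hκ0 : κ ≠ 0) (h : C3 s D R f g) (hz : Zp B R f g z)
    (hp : Pe F s z) (ha : Acz R z) (hc : Fintype.card n = 2 * (bd D R f (-1)).card + 1)
    (h3 : Ho B (-4 * κ) (bd D R f (-1)) z (Pv D e z (-1)) ν)
    (h4 : B (nw B D R e z ν s) (sF σ F ν) ≠ 4 * κ) {c : ℤ → Ω} {m : ℤ → n → Ω}
    (h5 : c = pext (frz q σ) s fun a => (2 * κ)⁻¹ * wn B D R e z (nw B D R e z ν a.val) a.val)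
    (h6 : m = pext (sF σ F) s fun a => nw B D R e z ν (a.val + 1)) :
    Yt q σ κ B F s D R f e c z m ∧ m (-1) = ν := by
  have ham := he.am hF h hz hp
  have hs := pos_SE0 s
  have h4k : -4 * κ ≠ 0 := mul_ne_zero (by
    rw [show (-4 : Ω) = -(2 * 2) by norm_num]
    exact neg_ne_zero.2 (mul_ne_zero h2 h2)) hκ0
  set m' : ℤ → n → Ω := fun θ => nw B D R e z ν (θ + 1).toNat with hm'
  set c' : ℤ → Ω := fun θ => (2 * κ)⁻¹ * wn B D R e z (nw B D R e z ν θ.toNat) θ with hc'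
  have ac' : Acz R c' := fun u hu => by simp only [hc', wn, if_neg hu, mul_zero]
  have step : ∀ j : ℕ, Hz B κ D R f e z m' (j - 1) → So κ D e c' z m' j := fun j hj => by
    have e1 : m' (j - 1) = nw B D R e z ν j := by simp only [hm', sub_add_cancel, Int.toNat_natCast]
    have e2 : 2 * κ * c' j = wn B D R e z (m' (j - 1)) j := by
      rw [e1, hc']
      simp only [Int.toNat_natCast]
      rw [mul_inv_cancel_left₀ (mul_ne_zero h2 hκ0)]
    refine he.so hF h2 hκ0 h hz ham hc hj e2 ?_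
    rw [e2, e1]
    simp only [hm', Int.toNat_natCast_add_one]
    rfl
  have hzs : ∀ j : ℕ, Hz B κ D R f e z m' (j - 1) := fun j => by
    induction j with
    | zero => exact h3
    | succ j ih =>
      have e1 := h.hz_step hF h2 ham he.se (he.piv hF h) ac' ih (step j ih)
      rwa [Nat.cast_succ, add_sub_cancel_right]
  have last : sF σ F ν = nw B D R e z ν s := by
    have p1 := pe_pext (sF σ F) fun _ : ZMod s => sF σ F ν
    have e1 : pext (sF σ F) s (fun _ : ZMod s => sF σ F ν) (-1 + s) = sF σ F ν :=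
      pext_of_mem (by omega) (by omega)
    have e2 : pext (sF σ F) s (fun _ : ZMod s => sF σ F ν) (-1) = ν :=
      (sF σ F).injective ((p1 (-1)).symm.trans e1)
    have e3 := (hz_per (θ := -1) hF hκ h.toIs ham hp p1).2 (by rw [Hz, e2]; exact h3)
    have e4 := hzs s
    rw [Hz, e1] at e3
    rw [Hz, show (s : ℤ) - 1 = -1 + s by ring, show m' (-1 + s) = nw B D R e z ν s by
      simp only [hm', show (-1 + s + 1 : ℤ) = s by ring, Int.toNat_natCast]] at e4
    rcases e4.sign e3 hF h4k (by rw [hc, h.card_bd (-1) (-1 + s)]) with h7 | h7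
    · exact h7
    · refine absurd ?_ h4
      rw [h7, (hF.lin' _).map_neg, e4.2.2]
      ring
  have pm : Pe (sF σ F) s m := h6 ▸ pe_pext _ _
  have em : ∀ u : ℤ, 0 ≤ u → u < s → m u = m' u := fun u h7 h8 => by
    have e1 := val_SE1 h7 h8
    rw [h6, pext_of_mem h7 h8, hm']
    congr 1
    omega
  have e0 : m (-1) = ν := (sF σ F).injective (by
    rw [← pm, em _ (by omega) (by omega), last]
    simp only [hm', show (-1 + s + 1 : ℤ) = s by ring, Int.toNat_natCast])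
  refine ⟨h.yt hF h2 hκ ham he.se (he.piv hF h) (h5 ▸ pe_pext _ _) ?_ hp pm ha
    (fun θ h7 h8 => ?_) (by rw [Hz, e0]; exact h3), e0⟩
  · rw [h5, (sem_frs (k := k) σ).act_iff h.perR]
    intro a ha'
    simp only [wn, if_neg ha', mul_zero]
  · obtain ⟨j, rfl⟩ := Int.eq_ofNat_of_zero_le h7
    have e1 : c j = c' j := by
      have e2 : ((j : ℤ) : ZMod s).val = j := by exact_mod_cast val_SE1 h7 h8
      rw [h5, pext_of_mem h7 h8, hc', e2]
      simp only [Int.toNat_natCast]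
    have e2 : m (j - 1) = m' (j - 1) := by
      rcases Nat.eq_zero_or_pos j with rfl | h9
      · exact e0
      · exact em _ (by omega) (by omega)
    rw [So, e1, e2, em _ h7 h8]
    exact step j (hzs j)

theorem gy_SOI (h : Au k q G) (h2 : (2 : Ω) ≠ 0) (hκ : κ ^ q = κ) (hκ0 : κ ≠ 0)
    (h3 : C3 s D R f g) {F : Equiv.Perm (Bj D R f → Ω)} (h4q : (4 * κ) ^ q = 4 * κ)
    (hδ : (-4 * κ) ^ q = -4 * κ) (h40 : (4 : Ω) ≠ 0) (hF : Fo k q 1 (Bod (-4 * κ)) F)
    (hp : Gy k G (Zg (Bod (-4 * κ)) F s R fun u => max (f u - 1) (u - 1))) :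
    Gy k G fun y : (Ecf Ω s D × (ZMod s → Ω)) × (ZMod s → Bj D R f → Ω) ×
        (ZMod s → Bj D R f → Ω) =>
      Yt q σ κ (Bod (-4 * κ)) F s D R f (ee q (-1) y.1.1) (pext (frz q σ) s y.1.2)
        (pext F s y.2.1) (pext (sF σ F) s y.2.2) ∧
      (fz D R f (ee q (-1) y.1.1) (pext F s y.2.1) (pext (sF σ F) s y.2.2 (-1))).det = 1 := by
  classical
  have t2 := two_pow_eq (Ω := Ω) k
  have h0 : -4 * κ ≠ 0 := mul_ne_zero (neg_ne_zero.2 h40) hκ0
  have := kr_of_pow (k := k) h4q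
  have : Kr k (2 * κ)⁻¹ := kr_of_pow (k := k) (by rw [inv_pow, mul_pow, t2, hκ])
  have hs := pos_SE0 s
  have hz : ∀ (p : (ZMod s → Bj D R f → Ω) → Prop) u,
      Pq k p fun X => pext F s X u := fun p u => Pq.pext hF.sem.po hF.sem.po' Pq.id u
  have hp' := h.gopns (T := ZMod s) (g := fun c X => if R c.val then
    Bod (-4 * κ) (pext F s X (g c.val)) (pext F s X c.val) else 1)
    (fun c => Pq.ite _ (hF.pq (hz _ _) (hz _ _)) (Pq.const 1)) hp
  have h4 : ∀ X : ZMod s → Bj D R f → Ω,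
      (Zg (Bod (-4 * κ)) F s R (fun u => max (f u - 1) (u - 1)) X ∧ ∀ c : ZMod s, (if R c.val then
        Bod (-4 * κ) (pext F s X (g c.val)) (pext F s X c.val) else 1) ≠ 0) →
      Zp (Bod (-4 * κ)) R f g (pext F s X) := by
    intro X hX
    refine ⟨fun u v hu hv h5 h6 => hX.1.2.2 u v hu hv h5 (le_max_of_le_left (by omega)),
      fun v => ?_⟩
    refine per_ind s (P := fun v => R v →
      Bod (-4 * κ) (pext F s X (g v)) (pext F s X v) ≠ 0) (fun v => ?_) 0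
      (fun v h5 h6 hv => ?_) v
    · rw [h3.perR]
      refine imp_congr_right fun hv => ?_
      rw [h3.perg hv, pe_pext, pe_pext, hF.frob, sg_one, one_mul, ← fr_apply k, Ne, Ne]
      nth_rewrite 1 [← (sem_fr (k := k) (q := q) (Ω := Ω)).zero]
      rw [(frq q).injective.eq_iff]
    · rw [zero_add] at h6
      have h7 := hX.2 (v : ZMod s)
      rwa [val_SE1 h5 h6, if_pos hv] at h7
  obtain ⟨e, he, h5⟩ := exists_eo (D := D) hF (hz _) h3.toIs h4
  obtain ⟨ν, hν, h6⟩ := exists_nu hδ h0 he (hz _) fun X hX => (h5 X hX).hb hF h3 (h4 X hX) (-1)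
  have hn := Pq.nw (D := D) (R := R) hF he (hz _) hν
  have hp2 := h.gopn (g := fun X => Bod (-4 * κ)
    (nw (Bod (-4 * κ)) D R (e X) (pext F s X) (ν X) s) (sF σ F (ν X)) - 4 * κ)
    ((hF.pq (hn s).1 ((hF.sem.sF σ).po.comp hν)).sub (Pq.const _)) hp'
  have h7 : ∀ (E : Ecf Ω s D) (c : ℤ → Ω) (X : ZMod s → Bj D R f → Ω) (m : ℤ → Bj D R f → Ω),
      Yt q σ κ (Bod (-4 * κ)) F s D R f (ee q (-1) E) c (pext F s X) m →
      (fz D R f (ee q (-1) E) (pext F s X) (m (-1))).det = 1 →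
      (Zg (Bod (-4 * κ)) F s R (fun u => max (f u - 1) (u - 1)) X ∧ ∀ c : ZMod s, (if R c.val then
        Bod (-4 * κ) (pext F s X (g c.val)) (pext F s X c.val) else 1) ≠ 0) ∧
      e X = ee q (-1) E ∧ ν X = m (-1) := by
    intro E c X m hy hd
    have h8 := hy.zp hF h3
    have h9 : Zg (Bod (-4 * κ)) F s R (fun u => max (f u - 1) (u - 1)) X ∧ ∀ c : ZMod s,
        (if R c.val then Bod (-4 * κ) (pext F s X (g c.val)) (pext F s X c.val) else 1) ≠ 0 := by
      refine ⟨⟨hy.acz, fun w => ?_, fun u v hu hv h9 h10 => h8.ot u v hu hv h9 ?_⟩, fun c => ?_⟩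
      · rw [h3.clq_pred]
        exact (hy.hz w).1.lion hF
      · have := h3.lt u hu
        have h11 : v ≤ max (f u - 1) (u - 1) := h10
        omega
      · split_ifs with h9
        exacts [h8.ne _ h9, one_ne_zero]
    have h10 := (h5 X h9).uni (hy.eo hF h3) h8
    have h11 := h6 X h9
    rw [h10] at h11
    exact ⟨h9, h10, normal_uni k h2 hδ h0 h11.1 (hy.hz (-1)) h11.2 hd⟩
  refine h.giso (fun X => ((rse s D (e X), fun a : ZMod s => (2 * κ)⁻¹ *
      wn (Bod (-4 * κ)) D R (e X) (pext F s X)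
        (nw (Bod (-4 * κ)) D R (e X) (pext F s X) (ν X) a.val) a.val), X,
      fun a : ZMod s => nw (Bod (-4 * κ)) D R (e X) (pext F s X) (ν X) (a.val + 1)))
    (fun y => y.2.1)
    ((((Pq.rse he).mk (Pq.pi fun a => (Pq.const _).mul ((hn _).2 _))).mk
      (Pq.id.mk (Pq.pi fun a => (hn _).1))).mono fun _ hX => hX.1) (Pq.fst (Pq.snd Pq.id))
    (fun X hX => ?_) (fun y hy => ?_) (fun _ _ => rfl) (fun y hy => ?_) hp2
  · obtain ⟨h8, h9⟩ := (h5 X hX.1).yt (σ := σ) hF h2 hκ hκ0 h3 (h4 X hX.1) (pe_pext _ X) hX.1.1.1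
      card_SOI (h6 X hX.1).1 (sub_ne_zero.1 hX.2) rfl rfl
    dsimp only
    rw [h8.am.ee_rse k, h9]
    exact ⟨h8, (h6 X hX.1).2⟩
  · obtain ⟨h8, h9, h10⟩ := h7 _ _ _ _ hy.1 hy.2
    refine ⟨h8, ?_⟩
    rw [h9, h10, hy.1.nw hF h3, ← hy.1.pm, show (-1 + s : ℤ) = s - 1 by ring, (hy.1.hz _).2.2]
    intro h11
    exact mul_ne_zero h2 (mul_ne_zero h40 hκ0) (by linear_combination -h11)
  · obtain ⟨h8, h9, h10⟩ := h7 _ _ _ _ hy.1 hy.2
    rw [h9, h10, rse_ee]
    refine Prod.ext (Prod.ext rfl (funext fun a => ?_)) (Prod.ext rfl (funext fun a => ?_))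
    · dsimp only
      rw [hy.1.nw hF h3, hy.1.wn hF h3, inv_mul_cancel_left₀ (mul_ne_zero h2 hκ0)]
      exact congrFun (res_pext _ _) a
    · dsimp only
      rw [hy.1.nw hF h3, Nat.cast_succ, add_sub_cancel_right]
      exact congrFun (res_pext _ _) a

theorem Au.gy_yp (h : Au k q G) (h2 : (2 : Ω) ≠ 0) (hκ : κ ^ q = κ) (hκ0 : κ ≠ 0)
    (h3 : C3 s D R f g) {b : Bi D R f → Bool}
    (hp : Gy k G (Zg (Bod (-4 * κ)) (FO q b τ) s R fun u => max (f u - 1) (u - 1))) :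
    Gy k G (Yp q σ κ s D R f b τ) := by
  have hq : Su k q := Sq.su
  have t2 := two_pow_eq (Ω := Ω) k
  have h4q : (4 * κ) ^ q = 4 * κ := by
    rw [show (4 : Ω) = 2 * 2 by norm_num, mul_pow, mul_pow, t2, hκ]
  have hδ : (-4 * κ) ^ q = -4 * κ := by rw [neg_mul, hq.neg_pow, h4q]
  have h40 : (4 : Ω) ≠ 0 := by
    rw [show (4 : Ω) = 2 * 2 by norm_num]
    exact mul_ne_zero h2 h2
  exact gy_SOI h h2 hκ hκ0 h3 h4q hδ h40 (fd_bo hδ (mul_ne_zero (neg_ne_zero.2 h40) hκ0) b τ) hp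

end Pool.Agent.CXD
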