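import Pool.Agent.P.MP_2ce3e7_ag.SOI
import Pool.Agent.P.MP_2ce3e7_ag.SOC
import Pool.Agent.P.MP_2ce3e7_ag.SOA
import Pool.Agent.P.MP_2ce3e7_ag.SI5

/-! The induction for varieties with a path. -/

set_option linter.unusedSectionVars false
set_option linter.unusedVariables false

open Function Matrix

noncomputable section

namespace Pool.Agent.CXD
open Finset

variable {k Ω : Type} [Field k] [Field Ω] [Algebra k Ω] {q : ℕ} {ε σ τ : ℤˣ} {s D : ℕ} [NeZero s]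
  {R : ℤ → Prop} {f f' f₁ f₂ g : ℤ → ℤ} {ι n : Type} [Fintype ι] [Fintype n] {b : ι → Bool}
  {G : Gp Ω} {B : (n → Ω) → (n → Ω) → Ω} {F : Equiv.Perm (n → Ω)} {Q Q' : (ℤ → ℤ → Ω) → Prop}
  {r θ : ℤ} {e : ℤ → ℤ → Ω} {κ δ : Ω} {α β : Type} [Af Ω α] [Af Ω β] [IsAlgClosed Ω] [Sq k q]

theorem Az.gp_three (h : Az k q G) (h2 : (2 : Ω) ≠ 0) (hκ : κ ^ q = κ) (hκ0 : κ ≠ 0)
    (h3 : C3 s D R f g) (hp : ∀ (b : Bi D R f → Bool) τ,
      Gy k G (Zg (Bod (-4 * κ)) (FO q b τ) s R fun u => max (f u - 1) (u - 1))) :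
    GP k G q σ κ ι s D R f (fun u => u - 1) (Piv R f) :=
  h.gp_raff hκ h3.toIs (h.gp_aff hκ h3.toIs (h.toAu.gp_loc h2 hκ hκ0 h3.toIs
    (h.toAu.ocover h2 hκ hκ0 h3 fun b τ => h.toAu.gy_yp h2 hκ hκ0 h3 (hp b τ))))

theorem Az.gp_ind (h : Az k q G) (h2 : (2 : Ω) ≠ 0) (hκ : κ ^ q = κ) (hκ0 : κ ≠ 0) (m : ℕ)
    (h3 : ∀ R f g σ, C3 s D R f g → (bd D R f (-1)).card < m →
      GP k G q σ κ ι s D R f (fun u => u - 1) (Piv R f))
    (hi : Is s D R f) (hc : ∀ w, (clq R f w).ncard ≤ m) (σ : ℤˣ) :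
    GP k G q σ κ ι s D R f f fun _ => True := by
  have hF : Fo k q (-1) (Bf (-1) : (ι ⊕ ι → Ω) → _) (FH q ι) := fd_bf (-1) _
  induction hl : len s R f using Nat.strong_induction_on generalizing R f σ with
  | _ l ih =>
    subst hl
    have il : ∀ r, R r → r ≤ f r →
        GP k G q σ κ ι s D R (low s f r) (low s f r) fun _ => True := fun r hR hr =>
      ih _ (len_low hi hR hr) (hi.low hr) (clq_low_SI5 hi hc r) σ rfl
    have iz : ∀ r, R r → f r = r → GP k G q σ κ ι s D R f f fun _ => True := fun r hR hf =>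
      h.toAu.gd_zero hF hi hf.ge (fun ho => absurd (ho.2.2.2 hf.symm) (by decide)) (il r hR hf.ge)
    rcases hi.cases with h0 | ⟨r, r0, r1, hR, hf⟩ | ⟨r, hR, hr, h0⟩ | ⟨r, r0, r1, hR, hf⟩ |
      ⟨r, j, ho, hf, hr⟩ | ⟨⟨u, hu⟩, g, hg⟩
    · exact h.gp_empty hi h0
    · exact h.gp_one h2 hκ hκ0 hi hR hf fun σ' =>
        ih _ (len_rmv hi hR) (hi.rmv r) (clq_rmv_SI5 hi hc r) σ' rfl
    · exact h.toAu.gd_zero hF hi hr (fun ho => h0 ho.2.1) (il r hR hr)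
    · exact iz r hR hf
    · rcases hr.eq_or_lt with h1 | h1
      · exact iz r ho.Rr h1.symm
      · exact h.toAu.gp_two h2 hκ hi ho hf h1 (il r ho.Rr hr)
          (il (r - j) ho.Ru (by linarith [ho.pos]))
    · refine h.toAu.gd_piv hF lc_wp (pq_xp hκ) hi (fun v hv => (hg.lt v hv).le)
        (fun r hR => il r hR (hg.lt r hR).le) (h3 R f g σ hg ?_)
      have := hc u
      rw [hg.ncard_clq hu] at this
      omega

end Pool.Agent.CXD
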