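import Pool.Agent.P.MP_2ce3e7_ag.DW5

/-! The tower of incomplete frames over a cone of configurations. -/

set_option linter.unusedSectionVars false
set_option linter.unusedVariables false

open Function Matrix

noncomputable section

namespace Pool.Agent.CXD

variable {k Ω : Type} [Field k] [Field Ω] [Algebra k Ω] {N d m : ℕ} {n : Fin N → ℕ}
  {δ : Ix N d m → ℕ} {C : (∀ s : Ix N d m, Matrix (Fin (n s.1)) (Fin (δ s)) Ω) → Prop}

/-- the cone over a set of configurations -/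
def cnz (C : (∀ s : Ix N d m, Matrix (Fin (n s.1)) (Fin (δ s)) Ω) → Prop) : Set (Sg n δ → Ω) :=
  {z | ∃ t u, C u ∧ ∀ I, z I = t * mnz u I}

variable (k) in
/-- sets of configurations of flags with a closed cone -/
structure Cw (C : (∀ s : Ix N d m, Matrix (Fin (n s.1)) (Fin (δ s)) Ω) → Prop) : Prop where
  flag : ∀ u, C u → ∀ b c i j, i ≤ j → Sb (u (b, c, j)) (u (b, c, i))
  mul : ∀ u (w : ∀ s, Matrix (Fin (δ s)) (Fin (δ s)) Ω), C u → (∀ s, (w s).det ≠ 0) →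
    C fun s => u s * w s
  cz : Cz k fun z => z ∈ cnz C

theorem cnz_smul {z : Sg n δ → Ω} (h : z ∈ cnz C) (c : Ω) : c • z ∈ cnz C := by
  obtain ⟨t, u, hu, h⟩ := h
  exact ⟨c * t, u, hu, fun I => by rw [Pi.smul_apply, h, smul_eq_mul, mul_assoc]⟩

theorem Cw.cone (hC : Cw k C) {z : Sg n δ → Ω} (h : z ∈ cnz C) :
    z ∈ cone Ω n 0 δ fun _ => ∅ := by
  obtain ⟨t, u, hu, h⟩ := h
  exact mem_cone.2 ⟨t, u, ⟨hC.flag u hu, fun _ _ _ _ e => e.elim, fun _ _ _ e => e.elim⟩, h⟩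

/-- a point of the cone with `τ c` vectors that are adapted to the flag `c` -/
def Twv (C : (∀ s : Ix N d m, Matrix (Fin (n s.1)) (Fin (δ s)) Ω) → Prop)
    (τ : Fin N × Fin (d + 1) → ℕ) (y : Am Ω n δ) : Prop :=
  y.1 ∈ cnz C ∧
    (∀ (c : Fin N × Fin (d + 1)) (a : Fin (n c.1)), τ c ≤ a → (y.2 c).col a = 0) ∧
    ∀ (s : Ix N d m) (a : Fin (n s.1)), (a : ℕ) < δ s → Ins y.1 s ((y.2 (s.1, s.2.1)).col a)

/-- one more vector -/
def Evv (C : (∀ s : Ix N d m, Matrix (Fin (n s.1)) (Fin (δ s)) Ω) → Prop)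
    (τ : Fin N × Fin (d + 1) → ℕ) (c : Fin N × Fin (d + 1))
    (y : Am Ω n δ × (Fin (n c.1) → Ω)) : Prop :=
  Twv C τ y.1 ∧ ∀ i, τ c < δ (c.1, c.2, i) → Ins y.1.1 (c.1, c.2, i) y.2

variable {τ : Fin N × Fin (d + 1) → ℕ} {c : Fin N × Fin (d + 1)} {G : Gp Ω} {R : Gq Ω}

theorem Cw.cz_tw (hC : Cw k C) : Cz k (Twv C τ) := by
  unfold Twv
  refine Cz.and (hC.cz.comp (by fun_prop)) (by fun_prop)

theorem Cw.cz_ev (hC : Cw k C) : Cz k (Evv C τ c) := by
  have := hC.cz_tw (τ := τ)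
  unfold Evv
  fun_prop

theorem Cw.ev_sec (hC : Cw k C) (hδ : ∀ b c, Monotone fun i => δ (b, c, i)) (hc : τ c < n c.1)
    (J : Jx n δ) :
    ∃ (w : Am Ω n δ → Fin (τ c + 1) → Fin (n c.1) → Ω) (I : Fin (τ c + 1) → Fin (n c.1)),
      Pm k w ∧ (∀ x (y : Fin (τ c + 1) → Ω), Twv C τ x → Evv C τ c (x, ∑ i, y i • w x i)) ∧
        ∀ x i i', Twv C τ x → w x i (I i') = if i = i' then bdf τ J x else 0 := by
  obtain ⟨w, I, h1, h2, h3⟩ := CXD.ev_sec (k := k) (Ω := Ω) (q := 0) (E := fun _ => ∅) hδ hc J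
  exact ⟨w, I, h1, fun x y hx => ⟨hx, (h2 x y ⟨hC.cone hx.1, hx.2⟩).2⟩,
    fun x i i' hx => h3 x i i' ⟨hC.cone hx.1, hx.2⟩⟩

theorem Cw.vs_tw (hC : Cw k C) (hδ : ∀ b c, Monotone fun i => δ (b, c, i)) (hc : τ c < n c.1) :
    Vs k (Twv C τ) (Evv C τ c) (τ c) (bdf τ) (crm τ c ⟨τ c, hc⟩)
      (fun i => crm τ c (Fin.castLE hc.le i)) fun y r i => y.2 c r (Fin.castLE hc.le i) := by
  refine ⟨hC.cz_tw, hC.cz_ev, pm_bdf, pm_crm _, fun i => pm_crm _, ?_, fun y hy => hy.1,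
    fun x v t hx => ⟨hx.1, fun i hi => (hx.2 i hi).smul t⟩, hC.ev_sec hδ hc, ?_⟩
  · exact Pm.pi fun r => Pm.pi fun i => (Pm.id.snd.eval c).entry r _
  intro x v hx hm J₀ h0
  have h1 := h0
  rw [bdf, ← Finset.mul_prod_erase _ _ (Finset.mem_univ c)] at h1
  obtain ⟨l, hl, hv⟩ := exists_coef hc (x.2 c) v (J₀ := J₀.2 c) (fun J => by
    have e := hm (J₀.1, update J₀.2 c J)
    rw [crm_dot] at e
    simp only [update_self] at e
    rw [Finset.prod_congr rfl fun c' hc' => by rw [update_of_ne (Finset.ne_of_mem_erase hc')]] at e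
    refine (mul_eq_zero.1 e).resolve_left fun e' => h1 ?_
    linear_combination (cmp (τ c) (x.2 c) (J₀.2 c)).det * e')
    (left_ne_zero_of_mul (right_ne_zero_of_mul h1))
  have h2 : ∀ a J, crm τ c a J x ⬝ᵥ v = bdf τ J x * l a := fun a J => by
    rw [← dw3_dot, ← hv]
  refine ⟨fun i J J' => ?_, fun J r => ?_⟩
  · rw [h2, h2]
    ring
  · have e : ∑ i : Fin (τ c), x.2 c r (Fin.castLE hc.le i) * l (Fin.castLE hc.le i) = v r := by
      rw [hv (J.2 c)]
      refine Fintype.sum_of_injective (Fin.castLE hc.le) (Fin.castLE_injective _) _ _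
        (fun a ha => ?_) fun i => ?_
      · rw [hl a (not_lt.1 fun e => ha ⟨⟨a, e⟩, rfl⟩), mul_zero]
      · simp only [cmp, of_apply, Fin.val_castLE, if_pos i.2]
    rw [← e, Finset.mul_sum]
    refine Finset.sum_congr rfl fun i _ => ?_
    rw [h2]
    ring

theorem Aq.tv_step {G : Gp Ω} {R : Gq Ω} (h : Aq k G R) (hC : Cw k C)
    (hδ : ∀ b c, Monotone fun i => δ (b, c, i)) (hc : τ c < n c.1)
    (h1 : R.rel (Twv C (update τ c (τ c + 1)))
      fun y => ∀ J, bdf (update τ c (τ c + 1)) J y = 0) :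
    R.rel (Twv C τ) fun y => ∀ J, bdf τ J y = 0 := by
  refine h.vs (hC.vs_tw hδ hc) (h.iso
    (fun y => (dw3_put c ⟨τ c, hc⟩ y 0, (y.2 c).col ⟨τ c, hc⟩))
    (fun x => dw3_put c ⟨τ c, hc⟩ x.1 x.2)
    ((dw3_pm _ Pm.id (Pm.const _)).mk ((Pm.id.snd.eval c).col _))
    (dw3_pm _ Pm.id.fst Pm.id.snd) ?_ ?_ ?_ ?_ ?_ h1)
  · rintro z ⟨h2, h3, h4⟩
    refine ⟨⟨h2, dw3_col (fun c' a w => τ c' ≤ a → w = 0) (fun _ => rfl)
      fun c' a e ha => h3 c' a ?_, fun s => ?_⟩, fun i hi => h4 (c.1, c.2, i) ⟨τ c, hc⟩ hi⟩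
    · by_cases e' : c' = c
      · subst e'
        rw [update_self]
        exact lt_of_le_of_ne ha (e rfl).symm
      · rwa [update_of_ne e']
    · exact fun a => dw3_col (c := c) (j := ⟨τ c, hc⟩) (y := z) (v := 0)
        (fun c' a w => ∀ i, (a : ℕ) < δ (c'.1, c'.2, i) → Ins z.1 (c'.1, c'.2, i) w)
        (fun i _ => ins_zero (δ := δ) (z := z.1) (s := (c.1, c.2, i)))
        (fun c' a _ i => h4 (c'.1, c'.2, i) a) (s.1, s.2.1) a s.2.2
  · rintro x ⟨⟨h2, h3, h4⟩, h5⟩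
    refine ⟨h2, dw3_col (fun c' a w => update τ c (τ c + 1) c' ≤ a → w = 0) (fun e => ?_)
      fun c' a e ha => h3 c' a ?_, fun s => ?_⟩
    · rw [update_self] at e
      exact (Nat.not_succ_le_self _ e).elim
    · by_cases e' : c' = c
      · subst e'
        rw [update_self] at ha
        exact Nat.le_of_succ_le ha
      · rwa [update_of_ne e'] at ha
    · exact fun a => dw3_col (y := x.1)
        (fun c' a w => ∀ i, (a : ℕ) < δ (c'.1, c'.2, i) → Ins x.1.1 (c'.1, c'.2, i) w)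
        h5 (fun c' a _ i => h4 (c'.1, c'.2, i) a) (s.1, s.2.1) a s.2.2
  · exact fun z _ => dw3_back _ z 0
  · rintro x ⟨⟨h2, h3, h4⟩, h5⟩
    refine Prod.ext ?_ (dw3_self _ _ _)
    have e := dw3_back ⟨τ c, hc⟩ x.1 x.2
    rwa [h3 c ⟨τ c, hc⟩ le_rfl] at e
  · intro z _ h2 J
    have e := h2 J
    have e2 : (cmp (τ c) ((z.2 c).updateCol ⟨τ c, hc⟩ 0) (J.2 c)).updateCol ⟨τ c, hc⟩
        ((z.2 c).col ⟨τ c, hc⟩) = cmp (τ c + 1) (z.2 c) (J.2 c) := by
      ext r a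
      simp only [updateCol_apply, cmp, of_apply]
      by_cases ha : a = ⟨τ c, hc⟩
      · rw [if_pos ha, ha, if_pos (Nat.lt_succ_self _)]
        rfl
      · rw [if_neg ha, if_neg ha]
        have : (a : ℕ) ≠ τ c := fun e => ha (Fin.ext e)
        exact if_congr (by omega) rfl rfl
    rw [bdf, ← Finset.mul_prod_erase _ _ (Finset.mem_univ c), update_self,
      Finset.prod_congr rfl fun c' hc' => by rw [update_of_ne (Finset.ne_of_mem_erase hc')]] at e
    rw [crm_dot]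
    simp only [dw3_put, update_self]
    rw [e2, Finset.prod_congr rfl fun c' hc' => by
      rw [update_of_ne (Finset.ne_of_mem_erase hc')]]
    linear_combination e

theorem Cw.top_cfg (hC : Cw k C) (hn : ∀ s, δ s ≤ n s.1) {y : Am Ω n δ}
    (h : Twv C (fun c => n c.1) y) {I : Sg n δ} (hI : y.1 I ≠ 0) (hd : ∀ c, (y.2 c).det ≠ 0) :
    C (fst' hn y.2) ∧ ∃ t : Ω, t ≠ 0 ∧ ∀ J, y.1 J = t * mnz (fst' hn y.2) J := by
  obtain ⟨t, u, hu, hz⟩ := h.1
  choose w hw using fun (s : Ix N d m) (a : Fin (δ s)) =>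
    (h.2.2 s (Fin.castLE (hn s) a) a.2).exists hz hI
  have e : fst' hn y.2 = fun s => u s * Matrix.of fun i a => w s a i := by
    funext s
    ext r a
    exact congrFun (hw s a) r
  have hW : ∀ s, (Matrix.of fun i a => w s a i).det ≠ 0 := by
    intro s h0
    have e1 : (y.2 (s.1, s.2.1)).adjugate.submatrix (Fin.castLE (hn s)) id * fst' hn y.2 s =
        (y.2 (s.1, s.2.1)).det • (1 : Matrix (Fin (δ s)) (Fin (δ s)) Ω) := by
      have e2 := congrArg (fun M => M.submatrix (Fin.castLE (hn s)) (Fin.castLE (hn s)))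
        (adjugate_mul (y.2 (s.1, s.2.1)))
      simp only [submatrix_smul, Pi.smul_apply,
        submatrix_one _ (Fin.castLE_injective (hn s))] at e2
      exact e2
    have e3 := congrArg Matrix.det e1
    rw [e, ← Matrix.mul_assoc, det_mul, h0, mul_zero, det_smul, det_one, mul_one] at e3
    exact pow_ne_zero _ (hd _) e3.symm
  have hP := Finset.prod_ne_zero_iff.2 fun s (_ : s ∈ Finset.univ) => hW s
  rw [e]
  refine ⟨hC.mul _ _ hu hW, t / ∏ s, (Matrix.of fun i a => w s a i).det,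
    div_ne_zero (fun h0 => hI (by rw [hz, h0, zero_mul])) hP, fun J => ?_⟩
  rw [mnz_mul, hz, ← mul_assoc, div_mul_cancel₀ _ hP]

theorem Aq.tv_top (h : Aq k G R) (ha : Ax k G) (hC : Cw k C) (hn : ∀ s, δ s ≤ n s.1)
    (h1 : G.good fun y : ∀ b : Fin N, Fin (d + 1) → Matrix (Fin (n b)) (Fin (n b)) Ω × Ω =>
      (∀ b c, (y b c).1.det * (y b c).2 = 1) ∧ C (fst' hn fun c => (y c.1 c.2).1)) :
    R.rel (Twv C fun c => n c.1) fun y => ∀ J, bdf (fun c => n c.1) J y = 0 := by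
  refine h.piece (fun I (x : Am Ω n δ) => x.1 I * mnz (fst' hn x.2) I * ∏ c, (x.2 c).det)
    (fun z : (∀ b : Fin N, Fin (d + 1) → Matrix (Fin (n b)) (Fin (n b)) Ω × Ω) × Ω =>
      (fun I => z.2 * mnz (fst' hn fun c => (z.1 c.1 c.2).1) I, fun c => (z.1 c.1 c.2).1))
    (fun I (x : Am Ω n δ × Ω) => (fun b c => (x.1.2 (b, c), x.2 * x.1.1 I *
      mnz (fst' hn x.1.2) I * ∏ c' ∈ Finset.univ.erase (b, c), (x.1.2 c').det),
      x.1.1 I ^ 2 * (∏ c, (x.1.2 c).det) * x.2))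
    hC.cz_tw (fun I => by fun_prop) (by fun_prop) (fun I => by fun_prop) ?_ ?_ ?_ ?_ (ha.line h1)
  · rintro ⟨y, t⟩ hy
    refine ⟨⟨t, _, hy.2, fun I => rfl⟩,
      fun c a h0 => absurd a.2 (not_lt.2 h0), fun s a h0 => ?_⟩
    have e := ins_mulVec (t := t) (u := fst' hn fun c => (y c.1 c.2).1) (fun I => rfl) s
      (Pi.single ⟨a, h0⟩ 1)
    rw [mulVec_single_one, dw5_col] at e
    exact e
  · intro x I hx h0
    have h2 : ∀ c, (x.2 c).det ≠ 0 := fun c =>
      Finset.prod_ne_zero_iff.1 (right_ne_zero_of_mul h0) c (Finset.mem_univ c)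
    obtain ⟨h3, t, -, ht⟩ := hC.top_cfg hn hx (left_ne_zero_of_mul (left_ne_zero_of_mul h0)) h2
    exact ⟨(fun b c => (x.2 (b, c), (x.2 (b, c)).det⁻¹), t),
      ⟨fun b c => mul_inv_cancel₀ (h2 _), h3⟩,
      Prod.ext (funext fun J => (ht J).symm) rfl⟩
  · rintro I ⟨y, t⟩ u hy h0
    refine Prod.ext (funext fun b => funext fun c => Prod.ext rfl ?_) ?_
    · have e := hy.1 b c
      simp only [← Finset.mul_prod_erase _ _ (Finset.mem_univ (b, c))] at h0 e ⊢
      linear_combination (y b c).2 * h0 - (u * (t * mnz (fst' hn fun c => (y c.1 c.2).1) I) *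
        mnz (fst' hn fun c => (y c.1 c.2).1) I *
          ∏ c' ∈ Finset.univ.erase (b, c), (y c'.1 c'.2).1.det) * e
    · simp only at h0 ⊢
      linear_combination t * h0
  · intro x hx h0 J
    by_contra h2
    simp only [bdf, dw5_cmp] at h2
    have h3 : ∀ c, (x.2 c).det ≠ 0 := fun c =>
      Finset.prod_ne_zero_iff.1 (right_ne_zero_of_mul h2) c (Finset.mem_univ c)
    have h4 := left_ne_zero_of_mul h2
    obtain ⟨-, t, -, ht⟩ := hC.top_cfg hn hx h4 h3
    exact mul_ne_zero (mul_ne_zero h4 (right_ne_zero_of_mul (ht J.1 ▸ h4)))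
      (right_ne_zero_of_mul h2) (h0 J.1)

theorem Aq.tv_all (h : Aq k G R) (hC : Cw k C) (hδ : ∀ b c, Monotone fun i => δ (b, c, i))
    (h1 : R.rel (Twv C fun c => n c.1) fun y => ∀ J, bdf (fun c => n c.1) J y = 0) :
    R.rel (fun z => z ∈ cnz C) fun z => ∀ I, z I = 0 := by
  have key : ∀ (M : ℕ) (τ : Fin N × Fin (d + 1) → ℕ), (∀ c, τ c ≤ n c.1) →
      ∑ c, (n c.1 - τ c) = M → R.rel (Twv C τ) fun y => ∀ J, bdf τ J y = 0 := by
    intro M
    induction M using Nat.strong_induction_on with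
    | _ M ih =>
      intro τ hτ hM
      by_cases e : ∃ c, τ c < n c.1
      · obtain ⟨c, hc⟩ := e
        refine h.tv_step hC hδ hc (ih _ ?_ _ (fun c' => ?_) rfl)
        · rw [← hM]
          refine Finset.sum_lt_sum (fun c' _ => ?_) ⟨c, Finset.mem_univ c, ?_⟩
          · rw [update_apply]
            split_ifs with e
            · subst e
              omega
            · exact le_rfl
          · rw [update_self]
            omega
        · rw [update_apply]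
          split_ifs with e
          · subst e
            exact hc
          · exact hτ c'
      · obtain rfl : τ = fun c => n c.1 :=
          funext fun c => le_antisymm (hτ c) (not_lt.1 fun hc => e ⟨c, hc⟩)
        exact h1
  refine h.iso (fun y : Am Ω n δ => y.1) (fun z => (z, fun c => 0)) (by fun_prop) (by fun_prop)
    (fun y hy => hy.1) (fun z hz => ⟨hz, fun c a _ => rfl, fun s a _ => ins_zero⟩)
    (fun y hy => Prod.ext rfl (funext fun c => ?_)) (fun z _ => rfl) (fun y hy h0 I => ?_)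
    (key _ (fun _ => 0) (fun c => Nat.zero_le _) rfl)
  · ext r a
    exact (congrFun (hy.2.1 c a (Nat.zero_le _)) r).symm
  · simpa only [bdf, dw5_cmp0, det_one, Finset.prod_const_one, mul_one] using h0 (I, fun c => id)

theorem Aq.cnz (h : Aq k G R) (ha : Ax k G) (hC : Cw k C)
    (hδ : ∀ b c, Monotone fun i => δ (b, c, i)) (hn : ∀ s, δ s ≤ n s.1)
    (h1 : G.good fun y : ∀ b : Fin N, Fin (d + 1) → Matrix (Fin (n b)) (Fin (n b)) Ω × Ω =>
      (∀ b c, (y b c).1.det * (y b c).2 = 1) ∧ C (fst' hn fun c => (y c.1 c.2).1)) :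
    R.rel (fun z => z ∈ cnz C) fun z => ∀ I, z I = 0 :=
  h.tv_all hC hδ (h.tv_top ha hC hn h1)

end Pool.Agent.CXD
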