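import Pool.Agent.P.MP_2ce3e7_ag.SS0
import Pool.Agent.P.MP_2ce3e7_ag.SS1
import Pool.Agent.P.MP_2ce3e7_ag.TY0

/-! The cone over the configurations for the classical groups is closed. -/

set_option linter.unusedSectionVars false
set_option linter.unusedVariables false

open Function Matrix

noncomputable section

namespace Pool.Agent.CXD

variable {k Ω : Type} [Field k] [Field Ω] [Algebra k Ω] {N d m q : ℕ} {n : Fin N → ℕ}
  {δ : Ix N d m → ℕ} {U : Set (Fin N)} {J K : ∀ b, Matrix (Fin (n b)) (Fin (n b)) Ω}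
  {E : Ix N d m → Set (Fin m)} {u : ∀ s : Ix N d m, Matrix (Fin (n s.1)) (Fin (δ s)) Ω}

theorem cns_eq : cns q δ U J K E = cnz (Cfs q U J K E) := rfl

theorem mem_cns {z : Sg n δ → Ω} :
    z ∈ cns q δ U J K E ↔ ∃ t u, Cfs q U J K E u ∧ ∀ I, z I = t * mnz u I := Iff.rfl

theorem cns_smul {z : Sg n δ → Ω} (h : z ∈ cns q δ U J K E) (c : Ω) : c • z ∈ cns q δ U J K E :=
  cnz_smul h c

theorem iso_mul_SS2 {l a a' : ℕ} {u : Matrix (Fin l) (Fin a) Ω} {J : Matrix (Fin l) (Fin l) Ω}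
    (h : uᵀ * J * u = 0) (w : Matrix (Fin a) (Fin a') Ω) : (u * w)ᵀ * J * (u * w) = 0 := by
  have e : (u * w)ᵀ * J * (u * w) = wᵀ * (uᵀ * J * u) * w := by
    simp only [transpose_mul, Matrix.mul_assoc]
  rw [e, h, Matrix.mul_zero, Matrix.zero_mul]

theorem sing_iff {l a : ℕ} (u : Matrix (Fin l) (Fin a) Ω) (K : Matrix (Fin l) (Fin l) Ω) :
    (∀ x, (u *ᵥ x) ⬝ᵥ K *ᵥ (u *ᵥ x) = 0) ↔
      (∀ i j, (uᵀ * K * u) i j + (uᵀ * K * u) j i = 0) ∧ ∀ i, (uᵀ * K * u) i i = 0 := by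
  refine (forall_congr' fun x => ?_).trans (alt_iff.trans (and_congr_left' ?_))
  · rw [Matrix.mul_assoc, ← mulVec_mulVec, ← mulVec_mulVec, dotProduct_mulVec x, vecMul_transpose]
  · rw [← Matrix.ext_iff]
    exact forall₂_congr fun i j => eq_neg_iff_add_eq_zero.trans (by rw [add_comm]; rfl)

theorem Cfs.mul (hq : Su k q) (h : Cfs q U J K E u) {w : ∀ s, Matrix (Fin (δ s)) (Fin (δ s)) Ω}
    (hw : ∀ s, (w s).det ≠ 0) : Cfs q U J K E fun s => u s * w s :=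
  ⟨fun b c i j hij => dw0_sb (h.flag b c i j hij) (hw _) _,
    fun b c i j hj => dw0_sb (h.step b c i j hj) (hw _) _,
    fun b hb i j hj => hq.pp_mul (h.uni b hb i j hj) _ _,
    fun b hb i j hj => by
      change Sb _ (fm q (_ * _))
      rw [hq.fm_mul]
      exact dw0_sb (h.frob b hb i j hj) (hw _) _,
    fun b hb c i => iso_mul_SS2 (h.iso b hb c i) _,
    fun b hb c i x => by rw [← mulVec_mulVec]; exact h.sing b hb c i _⟩

theorem Su.cz_cns (hq : Su k q) [∀ b, Kr k (J b)] [∀ b, Kr k (K b)] : Cz k fun z => z ∈ cns q δ U J K E := by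
  refine Cz.congr (p := fun z : Sg n δ → Ω => ∀ I,
    (∀ J, z I * mnz (fun s => emz z s I) J = z I ^ (∑ s, δ s) * z J) ∧
    (∀ b c i j, i ≤ j → ∀ a, Ins z (b, c, j) ((emz z (b, c, i) I).col a)) ∧
    (∀ b (c : Fin d) i, ∀ j ∈ E (b, c.castSucc, i), ∀ a,
      Ins z (b, c.castSucc, i) ((emz z (b, c.succ, j) I).col a)) ∧
    (∀ b ∈ U, ∀ i, ∀ j ∈ E (b, Fin.last d, i),
      (emz z (b, Fin.last d, i) I)ᵀ * fm q (emz z (b, 0, j) I) = 0) ∧
    (∀ b ∉ U, ∀ i, ∀ j ∈ E (b, Fin.last d, i), ∀ a,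
      Ins z (b, Fin.last d, i) ((fm q (emz z (b, 0, j) I)).col a)) ∧
    (∀ b ∉ U, ∀ c i, (emz z (b, c, i) I)ᵀ * J b * emz z (b, c, i) I = 0) ∧
    ∀ b ∉ U, ∀ c i, (∀ a a', ((emz z (b, c, i) I)ᵀ * K b * emz z (b, c, i) I) a a' +
      ((emz z (b, c, i) I)ᵀ * K b * emz z (b, c, i) I) a' a = 0) ∧
      ∀ a, ((emz z (b, c, i) I)ᵀ * K b * emz z (b, c, i) I) a a = 0) (by fun_prop) fun z => ?_
  refine ⟨fun hz I => ?_, fun hz => ?_⟩
  · obtain ⟨t, u, hu, h⟩ := mem_cns.1 hz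
    refine ⟨dw1_pl h I, fun b c i j hij a => ?_, fun b c i j hj a => ?_, fun b hb i j hj => ?_,
      fun b hb i j hj a => ?_, fun b hb c i => ?_, fun b hb c i => (sing_iff _ _).1 fun x => ?_⟩
    · obtain ⟨w, hw⟩ := hu.flag b c i j hij
      exact ins_emz h w hw I a
    · obtain ⟨w, hw⟩ := hu.step b c i j hj
      exact ins_emz h w hw I a
    · rw [emz_eq h, emz_eq h, ← Matrix.mul_smul, ← Matrix.mul_smul]
      exact hq.pp_mul (hu.uni b hb i j hj) _ _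
    · obtain ⟨w, hw⟩ := hu.frob b hb i j hj
      have e : fm q (u (b, 0, j)) = u (b, Fin.last d, i) * w := hw
      rw [emz_eq h, ← Matrix.mul_smul, hq.fm_mul, e, Matrix.mul_assoc, ← mulVec_single_one,
        ← mulVec_mulVec]
      exact ins_mulVec h _ _
    · rw [emz_eq h, ← Matrix.mul_smul]
      exact iso_mul_SS2 (hu.iso b hb c i) _
    · rw [emz_eq h, ← Matrix.mul_smul, ← mulVec_mulVec]
      exact hu.sing b hb c i _
  · by_cases h0 : ∃ I, z I ≠ 0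
    · obtain ⟨I, hI⟩ := h0
      obtain ⟨h1, h2, h3, h4, h5, h6, h7⟩ := hz I
      refine mem_cns.2 ⟨z I / z I ^ (∑ s, δ s), fun s => emz z s I,
        ⟨fun b c i j hij => dw1_sb hI (h2 b c i j hij), fun b c i j hj => dw1_sb hI (h3 b c i j hj),
          h4, fun b hb i j hj => dw1_sb hI (h5 b hb i j hj), h6,
          fun b hb c i => (sing_iff _ _).2 (h7 b hb c i)⟩, fun J => ?_⟩
      rw [div_mul_eq_mul_div, h1, mul_div_cancel_left₀ _ (pow_ne_zero _ hI)]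
    · push Not at h0
      refine mem_cns.2 ⟨0, fun _ => 0, ⟨fun b c i j _ => ⟨0, (Matrix.mul_zero _).symm⟩,
        fun b c i j _ => ⟨0, (Matrix.mul_zero _).symm⟩, fun b _ i j _ => ?_, fun b _ i j _ => ⟨0, ?_⟩,
        fun b _ c i => Matrix.mul_zero _,
        fun b _ c i x => by rw [zero_mulVec, zero_dotProduct]⟩, fun I => by rw [h0, zero_mul]⟩
      · rw [Pp, transpose_zero, Matrix.zero_mul]
      · ext r a
        simp [(Nat.zero_lt_of_lt hq.lt).ne']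

theorem Su.cw_cfs (hq : Su k q) [∀ b, Kr k (J b)] [∀ b, Kr k (K b)] :
    Cw k (Cfs q U J K E : (∀ s : Ix N d m, Matrix (Fin (n s.1)) (Fin (δ s)) Ω) → Prop) :=
  ⟨fun _ h => h.flag, fun _ _ h hw => h.mul hq hw, hq.cz_cns⟩

end Pool.Agent.CXD
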