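import Pool.Agent.P.MP_2ce3e7_ag.SE0

/-! Frames of chains of isotropic flags: the definitions. -/

open Function Matrix

noncomputable section

namespace Pool.Agent.CXD
variable {Ω : Type} [Field Ω]

/-- the Frobenius map on frames -/
def frf (q : ℕ) (ι n : Type) : Equiv.Perm (ι → n → Ω) :=
  Equiv.piCongrRight fun _ => Equiv.piCongrRight fun _ => frq q

/-- the span of the first `l` columns -/
def lvs {i : ℕ} {n : Type} (x : Fin i → n → Ω) (l : ℕ) : Submodule Ω (n → Ω) :=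
  Submodule.span Ω (x '' {a | a.val < l})

/-- a bilinear form and a quadratic form -/
abbrev Mp (n Ω : Type) : Type := Matrix n n Ω × Matrix n n Ω

/-- orthogonal for both forms, and the first vector is singular -/
def Isq {n : Type} [Fintype n] (J : Mp n Ω) (v v' : n → Ω) : Prop :=
  v ⬝ᵥ J.1 *ᵥ v' = 0 ∧ v ⬝ᵥ J.2 *ᵥ v' + v' ⬝ᵥ J.2 *ᵥ v = 0 ∧ v ⬝ᵥ J.2 *ᵥ v = 0

/-- frames of chains of isotropic flags; at step `c` only the level `w c` may move -/
def Frs (q : ℕ) {n : Type} [Fintype n] (J : Mp n Ω) (m s : ℕ) (w : ZMod s → ℕ)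
    (X : ZMod s → Fin m → n → Ω) : Prop :=
  (∀ c, LinearIndependent Ω (X c)) ∧ (∀ c a a', Isq J (X c a) (X c a')) ∧
    ∀ (c : ZMod s) (l : ℕ), l ≤ m → l ≠ w c →
      lvs (X c) l = lvs (pext (frf q _ _) s X (c.val + 1)) l

end Pool.Agent.CXD
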