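import Pool.Agent.P.MP_2ce3e7_ag.SS2
import Pool.Agent.P.MP_2ce3e7_ag.SYS

/-! Frames and configurations for the classical groups. -/

set_option linter.unusedSectionVars false
set_option linter.unusedVariables false

open Function Matrix

noncomputable section

namespace Pool.Agent.CXD

variable {k Ω : Type} [Field k] [Field Ω] [Algebra k Ω] {N d m q : ℕ} {n : Fin N → ℕ}
  {δ : Ix N d m → ℕ} {U : Set (Fin N)} {J K : ∀ b, Matrix (Fin (n b)) (Fin (n b)) Ω}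
  {E : Ix N d m → Set (Fin m)}

/-- the first `t` columns of `g'` lie in the span of the first `s` columns of `g` -/
def Zb {l : ℕ} (s t : ℕ) (g g' : Matrix (Fin l) (Fin l) Ω) : Prop :=
  ∀ a r : Fin l, (a : ℕ) < t → ¬(r : ℕ) < s → (g.adjugate * g') r a = 0

/-- complete frames for one factor -/
def Fsv (q : ℕ) (δ : Ix N d m → ℕ) (U : Set (Fin N))
    (J K : ∀ b, Matrix (Fin (n b)) (Fin (n b)) Ω)
    (E : Ix N d m → Set (Fin m)) (b : Fin N)
    (y : Fin (d + 1) → Matrix (Fin (n b)) (Fin (n b)) Ω × Ω) : Prop :=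
  (∀ c, (y c).1.det * (y c).2 = 1) ∧
    (∀ (c : Fin d) i, ∀ j ∈ E (b, c.castSucc, i),
      Zb (δ (b, c.castSucc, i)) (δ (b, c.succ, j)) (y c.castSucc).1 (y c.succ).1) ∧
    (b ∈ U → ∀ i, ∀ j ∈ E (b, Fin.last d, i), ∀ a r : Fin (n b), (a : ℕ) < δ (b, Fin.last d, i) →
      (r : ℕ) < δ (b, 0, j) → ((y (Fin.last d)).1ᵀ * fm q (y 0).1) a r = 0) ∧
    (b ∉ U → ∀ i, ∀ j ∈ E (b, Fin.last d, i),
      Zb (δ (b, Fin.last d, i)) (δ (b, 0, j)) (y (Fin.last d)).1 (fm q (y 0).1)) ∧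
    (b ∉ U → ∀ c i, ∀ a r : Fin (n b), (a : ℕ) < δ (b, c, i) → (r : ℕ) < δ (b, c, i) →
      ((y c).1ᵀ * J b * (y c).1) a r = 0 ∧
      ((y c).1ᵀ * K b * (y c).1) a r + ((y c).1ᵀ * K b * (y c).1) r a = 0 ∧
      ((y c).1ᵀ * K b * (y c).1) a a = 0)

theorem cz_fsv [∀ b, Kr k (J b)] [∀ b, Kr k (K b)] (b : Fin N) : Cz k (Fsv q δ U J K E b) := by
  unfold Fsv Zb
  fun_prop

theorem cfs_iff (hδ : ∀ b c, Monotone fun i => δ (b, c, i)) (hn : ∀ s, δ s ≤ n s.1)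
    (y : ∀ b : Fin N, Fin (d + 1) → Matrix (Fin (n b)) (Fin (n b)) Ω × Ω) :
    (∀ b c, (y b c).1.det * (y b c).2 = 1) ∧ Cfs q U J K E (fst' hn fun c => (y c.1 c.2).1) ↔
      ∀ b, Fsv q δ U J K E b (y b) := by
  constructor
  · rintro ⟨hy, h⟩ b
    exact ⟨hy b, fun c i j hj => (dw4_sb (hn (b, c.castSucc, i)) (hn (b, c.succ, j))
        (hy b c.castSucc)).1 (h.step b c i j hj),
      fun hb i j hj a r ha hr => congrFun (congrFun (h.uni b hb i j hj) ⟨a, ha⟩) ⟨r, hr⟩,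
      fun hb i j hj => (dw4_sb (hn (b, Fin.last d, i)) (hn (b, 0, j)) (hy b (Fin.last d))).1
        (h.frob b hb i j hj),
      fun hb c i a r ha hr => ⟨congrFun (congrFun (h.iso b hb c i) ⟨a, ha⟩) ⟨r, hr⟩,
        ((sing_iff _ _).1 (h.sing b hb c i)).1 ⟨a, ha⟩ ⟨r, hr⟩,
        ((sing_iff _ _).1 (h.sing b hb c i)).2 ⟨a, ha⟩⟩⟩
  · intro h
    have h' := fun b hb c i (a r : Fin (δ (b, c, i))) => (h b).2.2.2.2 hb c i
      (Fin.castLE (hn (b, c, i)) a) (Fin.castLE (hn (b, c, i)) r) a.2 r.2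
    refine ⟨fun b => (h b).1, fun b c i j hij => ?_, fun b c i j hj => ?_, fun b hb i j hj => ?_,
      fun b hb i j hj => ?_, fun b hb c i => Matrix.ext fun a r => (h' b hb c i a r).1,
      fun b hb c i => (sing_iff _ _).2 ⟨fun a r => (h' b hb c i a r).2.1,
        fun a => (h' b hb c i a a).2.2⟩⟩
    · refine (dw4_sb (hn (b, c, j)) (hn (b, c, i)) ((h b).1 c)).2 fun a r ha hr => ?_
      have e3 : r ≠ a := fun e => hr (by rw [e]; exact lt_of_lt_of_le ha (hδ b c hij))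
      rw [adjugate_mul, Matrix.smul_apply, one_apply_ne e3, smul_zero]
    · exact (dw4_sb (hn (b, c.castSucc, i)) (hn (b, c.succ, j)) ((h b).1 c.castSucc)).2
        ((h b).2.1 c i j hj)
    · ext a r
      exact (h b).2.2.1 hb i j hj (Fin.castLE (hn (b, Fin.last d, i)) a)
        (Fin.castLE (hn (b, 0, j)) r) a.2 r.2
    · exact (dw4_sb (hn (b, Fin.last d, i)) (hn (b, 0, j)) ((h b).1 (Fin.last d))).2
        ((h b).2.2.2.1 hb i j hj)

theorem fsv_uni {b : Fin N} (hb : b ∈ U) (y : Fin (d + 1) → Matrix (Fin (n b)) (Fin (n b)) Ω × Ω) :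
    Fsv q δ U J K E b y ↔ Es Ω q d (pcol n δ E b) (prow n δ E b) y := by
  constructor
  · rintro ⟨h1, h2, h3, -⟩
    refine ⟨⟨h1, fun c a r hr => ?_⟩, fun a r hr => ?_⟩
    · by_contra hne
      refine hr (dw4_pcol.2 fun i j hj ha => ?_)
      by_contra hr'
      exact hne (h2 c i j hj a r ha hr')
    · obtain ⟨i, j, hj, ha, hr'⟩ := dw4_prow.1 hr
      exact h3 hb i j hj a r ha hr'
  · rintro ⟨⟨h1, h2⟩, h3⟩
    exact ⟨h1, fun c i j hj a r ha hr => h2 c a r fun hm => hr (dw4_pcol.1 hm i j hj ha),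
      fun _ i j hj a r ha hr => h3 _ _ (dw4_prow.2 ⟨i, j, hj, ha, hr⟩), fun e => (e hb).elim,
      fun e => (e hb).elim⟩

section
variable {l r s : ℕ}

/-- the first columns -/
def fcl (hr : r ≤ l) (g : Matrix (Fin l) (Fin l) Ω) (a : Fin r) : Fin l → Ω :=
  g.col (Fin.castLE hr a)

theorem li_fcl (hr : r ≤ l) {g : Matrix (Fin l) (Fin l) Ω} (hg : g.det ≠ 0) :
    LinearIndependent Ω (fcl hr g) :=
  (linearIndependent_cols_of_isUnit ((isUnit_iff_isUnit_det _).2 hg.isUnit)).comp _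
    (Fin.castLE_injective hr)

theorem lvs_fcl (hr : r ≤ l) (hs : s ≤ r) (g : Matrix (Fin l) (Fin l) Ω) :
    lvs (fcl hr g) s = Submodule.span Ω (Set.range (fcl (hs.trans hr) g)) := by
  unfold lvs
  congr 1
  ext v
  exact ⟨fun ⟨a, ha, e⟩ => ⟨⟨a, ha⟩, e⟩, fun ⟨a, e⟩ => ⟨Fin.castLE hs a, a.2, e⟩⟩

theorem sb_iff_SS3 {a b : ℕ} (u : Matrix (Fin l) (Fin a) Ω) (v : Matrix (Fin l) (Fin b) Ω) :
    Sb u v ↔ Submodule.span Ω (Set.range v.col) ≤ Submodule.span Ω (Set.range u.col) := by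
  rw [Submodule.span_le, Set.range_subset_iff]
  simp only [SetLike.mem_coe, Submodule.mem_span_range_iff_exists_fun]
  have e : ∀ (w : Fin a → Ω) x, (∑ i, w i • u.col i) x = ∑ i, u x i * w i := fun w x => by
    simp only [Finset.sum_apply, Pi.smul_apply, col_apply, smul_eq_mul, mul_comm]
  constructor
  · rintro ⟨w, rfl⟩ j
    exact ⟨fun i => w i j, funext fun x => e _ x⟩
  · intro h
    choose w hw using h
    refine ⟨Matrix.of fun i j => w j i, Matrix.ext fun x j => ?_⟩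
    exact (congrFun (hw j) x).symm.trans (e _ x)

theorem zb_iff (hr : r ≤ l) (hs : s ≤ r) {g g' : Matrix (Fin l) (Fin l) Ω} (hg : g.det ≠ 0)
    (hg' : g'.det ≠ 0) : Zb s s g g' ↔ lvs (fcl hr g) s = lvs (fcl hr g') s := by
  rw [lvs_fcl hr hs, lvs_fcl hr hs]
  refine (dw4_sb (hs.trans hr) (hs.trans hr) (mul_inv_cancel₀ hg)).symm.trans
    ((sb_iff_SS3 _ _).trans ⟨fun h => (Submodule.eq_of_le_of_finrank_eq h ?_).symm, fun h => h.ge⟩)
  exact (finrank_span_eq_card (li_fcl (hs.trans hr) hg')).trans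
    (finrank_span_eq_card (li_fcl (hs.trans hr) hg)).symm

end

theorem lev_SS3 {r w : ℕ} (hm : r ≤ m) {e : Fin m → Set (Fin m)} {δ δ' : Fin m → ℕ}
    (h1 : ∀ i, δ i = min (i.val + 1) r) (h1' : ∀ i, δ' i = min (i.val + 1) r)
    (h2 : ∀ i j, j ∈ e i ↔ j = i ∧ δ i ≠ w) {P : ℕ → ℕ → Prop} (h0 : P 0 0) :
    (∀ i, ∀ j ∈ e i, P (δ i) (δ' j)) ↔ ∀ s, s ≤ r → s ≠ w → P s s := by
  constructor
  · intro h s hs hw
    obtain _ | s := s
    · exact h0
    · have e1 : min (s + 1) r = s + 1 := min_eq_left hs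
      have := h ⟨s, by omega⟩ ⟨s, by omega⟩ ((h2 _ _).2 ⟨rfl, by rwa [h1, e1]⟩)
      rwa [h1, h1', e1] at this
  · intro h i j hj
    obtain ⟨rfl, hw⟩ := (h2 _ _).1 hj
    rw [h1', ← h1]
    exact h _ (by rw [h1]; exact min_le_right _ _) hw

theorem nxt_SS3 {β : Type} (F : Equiv.Perm β) (X : ZMod (d + 1) → β) :
    (∀ c : Fin d, pext F (d + 1) X ((ZMod.val (n := d + 1) c.castSucc : ℕ) + 1) = X c.succ) ∧
      pext F (d + 1) X ((ZMod.val (n := d + 1) (Fin.last d) : ℕ) + 1) = F (X (0 : Fin (d + 1))) := by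
  constructor
  · intro c
    have e : ((ZMod.val (n := d + 1) c.castSucc : ℕ) + 1 : ℤ) =
        (ZMod.val (n := d + 1) c.succ : ℕ) := (Nat.cast_succ c.val).symm
    rw [e]
    exact congrFun (res_pext F X) c.succ
  · have e : ((ZMod.val (n := d + 1) (Fin.last d) : ℕ) + 1 : ℤ) =
        (ZMod.val (n := d + 1) (0 : Fin (d + 1)) : ℕ) + (d + 1 : ℕ) := by
      change ((d : ℕ) + 1 : ℤ) = ((0 : ℕ) : ℤ) + (d + 1 : ℕ)
      push_cast
      ring
    rw [e, pe_pext F X]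
    exact congrArg F (congrFun (res_pext F X) (0 : Fin (d + 1)))

variable [Sq k q] [IsAlgClosed Ω]

theorem fsv_frs (k : Type) [Field k] [Algebra k Ω] [Sq k q] {b : Fin N} (hb : b ∉ U) {r : ℕ}
    (hr : r ≤ n b) (hm : r ≤ m) (h1 : ∀ c i, δ (b, c, i) = min (i.val + 1) r)
    {w : Fin (d + 1) → ℕ} (h2 : ∀ c i j, j ∈ E (b, c, i) ↔ j = i ∧ δ (b, c, i) ≠ w c)
    (y : Fin (d + 1) → Matrix (Fin (n b)) (Fin (n b)) Ω × Ω) :
    Fsv q δ U J K E b y ↔ (∀ c, (y c).1.det * (y c).2 = 1) ∧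
      Frs q (J b, K b) r (d + 1) w fun c => fcl hr (y c).1 := by
  refine and_congr_right fun hy => ?_
  have hd : ∀ c, (y c).1.det ≠ 0 := fun c => left_ne_zero_of_mul_eq_one (hy c)
  have hf : (fm q (y 0).1).det ≠ 0 := by
    rw [(Sq.su : Su k q).fm_det]
    exact pow_ne_zero _ (hd 0)
  obtain ⟨e1, e2⟩ := nxt_SS3 (frf q (Fin r) (Fin (n b))) (d := d) fun c => fcl hr (y c).1
  have e3 : frf q (Fin r) (Fin (n b)) (fcl hr (y 0).1) = fcl hr (fm q (y 0).1) :=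
    funext fun a => funext fun x => fr_apply k _
  have e4 : ∀ (M : Matrix _ _ Ω) c a a', fcl hr (y c).1 a ⬝ᵥ M *ᵥ fcl hr (y c).1 a' =
      ((y c).1ᵀ * M * (y c).1) (Fin.castLE hr a) (Fin.castLE hr a') := fun M c a a' => by
    rw [Matrix.mul_assoc]
    rfl
  have z0 : ∀ g g' : Matrix (Fin (n b)) (Fin (n b)) Ω, Zb 0 0 g g' := fun _ _ a _ ha =>
    (Nat.not_lt_zero _ ha).elim
  have l1 := fun c : Fin d => lev_SS3 hm (h1 c.castSucc) (h1 c.succ) (h2 c.castSucc)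
    (P := fun s s' => Zb s s' (y c.castSucc).1 (y c.succ).1) (z0 _ _)
  have l2 := lev_SS3 hm (h1 (Fin.last d)) (h1 0) (h2 (Fin.last d))
    (P := fun s s' => Zb s s' (y (Fin.last d)).1 (fm q (y 0).1)) (z0 _ _)
  constructor
  · rintro ⟨h3, -, h4, h5⟩
    refine ⟨fun c => li_fcl hr (hd c), fun c a a' => ?_, fun c s hs hw => ?_⟩
    · have e : δ (b, c, ⟨r - 1, by have := a.2; omega⟩) = r := by
        rw [h1]
        exact min_eq_right (by simp only; omega)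
      simp only [Isq, e4]
      exact h5 hb c _ _ _ (by rw [e]; exact a.2) (by rw [e]; exact a'.2)
    · induction c using Fin.lastCases with
      | last =>
        rw [e2, e3]
        exact (zb_iff hr hs (hd _) hf).1 (l2.1 (h4 hb) s hs hw)
      | cast c =>
        rw [e1]
        exact (zb_iff hr hs (hd _) (hd _)).1 ((l1 c).1 (h3 c) s hs hw)
  · rintro ⟨-, h4, h5⟩
    refine ⟨fun c => (l1 c).2 fun s hs hw => (zb_iff hr hs (hd _) (hd _)).2 ?_,
      fun e => (hb e).elim, fun _ => l2.2 fun s hs hw => (zb_iff hr hs (hd _) hf).2 ?_,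
      fun _ c i a a' ha ha' => ?_⟩
    · exact (h5 c.castSucc s hs hw).trans (by rw [e1])
    · exact (h5 (Fin.last d) s hs hw).trans (by rw [e2, e3])
    · rw [h1] at ha ha'
      have h6 := h4 c ⟨a, lt_of_lt_of_le ha (min_le_right _ _)⟩
        ⟨a', lt_of_lt_of_le ha' (min_le_right _ _)⟩
      simp only [Isq, e4] at h6
      exact h6

end Pool.Agent.CXD
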