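import Pool.Agent.P.MP_2ce3e7_ag.SV0
import Pool.Agent.P.MP_2ce3e7_ag.CWO

/-! Numerically trivial classes are torsion. -/

set_option linter.unusedSectionVars false
set_option linter.unusedVariables false

open Function
open scoped TensorProduct

noncomputable section

namespace Pool.Agent.CXD

variable (k : Type) [Field k] [Fintype k] (q r N d m : ℕ) (n : Fin N → ℕ)
  (hk : Fintype.card k = q ^ (2 * r)) (δ : Ix N d m → ℕ) (U : Set (Fin N))
  (J K : ∀ b, Matrix (Fin (n b)) (Fin (n b)) k) (E : Ix N d m → Set (Fin m)) (h : Cla q δ U J K E)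
include hk h

theorem numTors_s : NumTors k (hom (sI q δ U J K E)) (crd (sI q δ U J K E)) := by
  obtain ⟨θ, hθ, hT⟩ := exists_tg_s k q r N d m n hk δ U J K E h
  have := noeth_tensor' k (MvPolynomial _ k ⧸ sI q δ U J K E) (MvPolynomial _ k ⧸ sI q δ U J K E)
  exact hθ.numTors hT

end Pool.Agent.CXD
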