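import Pool.Agent.P.MP_2ce3e7_ag.SV0
import Pool.Agent.P.MP_2ce3e7_ag.CPU
import Pool.Agent.P.MP_2ce3e7_ag.CPV

/-! Higher classes are torsion. -/

set_option linter.unusedSectionVars false
set_option linter.unusedVariables false

open Function
open scoped TensorProduct

noncomputable section

namespace Pool.Agent.CXD

variable (k : Type) [Field k] [Fintype k] (q r N d m : ℕ) (n : Fin N → ℕ)
  (hk : Fintype.card k = q ^ (2 * r)) (δ : Ix N d m → ℕ) (U : Set (Fin N))
  (J K : ∀ b, Matrix (Fin (n b)) (Fin (n b)) k) (E : Ix N d m → Set (Fin m)) (h : Cla q δ U J K E)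
include hk h

theorem par_s (s : ℕ) (hs : 0 < s) :
    Par k (Sph k s) (hom (sI q δ U J K E)) (crd (sI q δ U J K E)) := by
  obtain ⟨θ, hθ, hT⟩ := exists_tg_s k q r N d m n hk δ U J K E h
  have := sph_conn (k := k) hs
  exact hθ.par hT sph_ht

end Pool.Agent.CXD
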