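import Pool.Agent.P.MP_2ce3e7_ag.SE1

/-! Normal forms of semilinear similitudes. -/

set_option linter.unusedSectionVars false
set_option linter.unusedVariables false

open Function Matrix

noncomputable section

namespace Pool.Agent.CXD
variable {k Ω : Type} [Field k] [Field Ω] [Algebra k Ω] {q : ℕ} [Sq k q] [IsAlgClosed Ω]

open Polynomial in
theorem root_SW0 (hq : 1 < q) (a : ℕ → Ω) (n : ℕ) (ha : ∃ i ≤ n, a i ≠ 0) :
    ∃ t : ℕ → Ω, t n ≠ 0 ∧ t 0 = a 0 * t n ^ q ∧ ∀ i, t (i + 1) = t i ^ q + a (i + 1) * t n ^ q := by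
  obtain ⟨P, h0, h1⟩ : ∃ P : ℕ → Polynomial Ω, P 0 = C (a 0) * X ^ q ∧
      ∀ i, P (i + 1) = P i ^ q + C (a (i + 1)) * X ^ q :=
    ⟨fun i => Nat.rec (C (a 0) * X ^ q) (fun i p => p ^ q + C (a (i + 1)) * X ^ q) i, rfl,
      fun _ => rfl⟩
  have h2 : ∀ i, X ^ q ∣ P i := fun i => by
    induction i with
    | zero => exact h0 ▸ dvd_mul_left _ _
    | succ i ih => exact h1 i ▸ dvd_add (ih.trans (dvd_pow_self _ (by omega))) (dvd_mul_left _ _)
  have h3 : ∀ m, P m = 0 → ∀ i ≤ m, a i = 0 := fun m => by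
    induction m with
    | zero =>
      intro h i hi
      obtain rfl : i = 0 := by omega
      simpa [h0] using h
    | succ m ih =>
      intro h i hi
      have e1 : (P m ^ q).coeff q = 0 := X_pow_dvd_iff.1
        (pow_mul (X : Polynomial Ω) q q ▸ pow_dvd_pow_of_dvd (h2 m) q) q (by nlinarith)
      have e2 := congrArg (fun p => coeff p q) (h1 m)
      simp only [h, coeff_zero, coeff_add, e1, coeff_C_mul, coeff_X_pow, if_true, mul_one,
        zero_add] at e2
      have e3 := h1 m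
      rw [h, ← e2, map_zero, zero_mul, add_zero] at e3
      rcases hi.eq_or_lt with rfl | hi
      · exact e2.symm
      · exact ih (pow_eq_zero_iff (by omega) |>.1 e3.symm) i (by omega)
  obtain ⟨R, hR⟩ := (pow_dvd_pow X (show 2 ≤ q from hq)).trans (h2 n)
  have hR0 : R ≠ 0 := fun h => by
    obtain ⟨i, hi, hai⟩ := ha
    exact hai (h3 n (by rw [hR, h, mul_zero]) i hi)
  obtain ⟨r, hr⟩ := IsAlgClosed.exists_root (X * R - C 1) (by
    have : 0 < (X * R).degree := by
      rw [← natDegree_pos_iff_degree_pos, natDegree_X_mul hR0]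
      omega
    rw [degree_sub_C this]
    exact this.ne')
  have e1 : r * R.eval r = 1 := by simpa [sub_eq_zero] using hr
  have e2 : (P n).eval r = r := by
    rw [hR, eval_mul, eval_pow, eval_X, sq, mul_assoc, e1, mul_one]
  refine ⟨fun i => (P i).eval r, ?_, ?_, fun i => ?_⟩ <;> beta_reduce
  · rw [e2]
    exact left_ne_zero_of_mul_eq_one e1
  · rw [e2, h0, eval_mul, eval_C, eval_pow, eval_X]
  · rw [e2, h1, eval_add, eval_pow, eval_mul, eval_C, eval_pow, eval_X]

theorem fix_SW0 (hq : 1 < q) {σ : Ω →+* Ω} (hσ : ∀ t, σ t = t ^ q) {V : Type} [AddCommGroup V]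
    [Module Ω V] [Module.Finite Ω V] (F : V →ₛₗ[σ] V) (hF : Injective F) {v : V} (hv : v ≠ 0) :
    ∃ x, x ≠ 0 ∧ F x = x := by
  obtain ⟨w, h0, h1⟩ : ∃ w : ℕ → V, w 0 = v ∧ ∀ i, w (i + 1) = F (w i) :=
    ⟨fun i => F^[i] v, rfl, fun i => iterate_succ_apply' _ _ _⟩
  have h2 : ∀ i, w i ≠ 0 := fun i => by
    induction i with
    | zero => exact h0 ▸ hv
    | succ i ih => exact h1 i ▸ fun h => ih (hF (h.trans (map_zero F).symm))
  obtain ⟨n, hn⟩ := monotone_stabilizes_iff_noetherian.2 (inferInstance : IsNoetherian Ω V)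
    ⟨fun n => Submodule.span Ω (w '' (Finset.range n : Set ℕ)), fun a b h =>
      Submodule.span_mono (Set.image_mono (Finset.coe_subset.2 (Finset.range_mono h)))⟩
  have h3 : w n ∈ Submodule.span Ω (w '' (Finset.range n : Set ℕ)) :=
    (hn (n + 1) n.le_succ).ge (Submodule.subset_span ⟨n, by simp, rfl⟩)
  clear hn
  induction n with
  | zero => exact absurd (by simpa using h3) (h2 0)
  | succ n ih =>
    obtain ⟨a, ha⟩ := (Submodule.mem_span_image_finset_iff_exists_fun' Ω).1 h3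
    obtain ⟨t, ht, t0, t1⟩ := root_SW0 hq a n (by
      by_contra hc
      push Not at hc
      refine h2 (n + 1) (ha ▸ Finset.sum_eq_zero fun i hi => ?_)
      rw [hc i (Nat.lt_succ_iff.1 (Finset.mem_range.1 hi)), zero_smul])
    by_cases hx : ∑ i ∈ Finset.range (n + 1), t i • w i = 0
    · rw [Finset.sum_range_succ, add_eq_zero_iff_neg_eq] at hx
      refine ih ((Submodule.smul_mem_iff _ ht).1 (hx ▸ neg_mem (sum_mem fun i hi => ?_)))
      exact Submodule.smul_mem _ _ (Submodule.subset_span ⟨i, hi, rfl⟩)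
    · refine ⟨_, hx, ?_⟩
      rw [map_sum]
      simp only [map_smulₛₗ, hσ, ← h1]
      rw [Finset.sum_range_succ, ← ha, Finset.smul_sum, Finset.sum_range_succ',
        Finset.sum_range_succ', ← add_assoc, ← Finset.sum_add_distrib, t0, smul_smul,
        mul_comm (a 0)]
      congr 1
      refine Finset.sum_congr rfl fun i _ => ?_
      rw [t1, add_smul, smul_smul, mul_comm (a (i + 1))]

open Polynomial in
theorem as_SW0 (hq : 1 < q) (c : Ω) : ∃ d : Ω, d ^ q - d = c := by
  obtain ⟨d, hd⟩ := IsAlgClosed.exists_root (X ^ q - X - C c) (by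
    have : 0 < (X ^ q - X : Polynomial Ω).degree := by
      rw [← natDegree_pos_iff_degree_pos, FiniteField.X_pow_card_sub_X_natDegree_eq Ω hq]
      omega
    rw [degree_sub_C this]
    exact this.ne')
  exact ⟨d, by simpa [sub_eq_zero] using hd⟩

/-- the fixed vectors of a semilinear bijection contain a basis -/
theorem gl_lang (k : Type) [Field k] [Algebra k Ω] [Sq k q] {V : Type} [AddCommGroup V] [Module Ω V]
    [Module.Finite Ω V] (Φ : V → V) (h1 : ∀ x y, Φ (x + y) = Φ x + Φ y)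
    (h2 : ∀ (t : Ω) x, Φ (t • x) = t ^ q • Φ x) (h3 : Injective Φ) :
    Submodule.span Ω {x | Φ x = x} = ⊤ := by
  have hq : 1 < q := (Sq.su : Su k q).lt
  obtain ⟨σ, hσ⟩ := (Sq.su : Su k q).exists_hom Ω
  let F : V →ₛₗ[σ] V := ⟨⟨Φ, h1⟩, fun t x => by rw [hσ]; exact h2 t x⟩
  have hF : ∀ x, F x = Φ x := fun _ => rfl
  simp only [← hF]
  obtain ⟨W, hW⟩ : ∃ W, W = Submodule.span Ω {x | F x = x} := ⟨_, rfl⟩
  have m0 : ∀ x, F x = x → x ∈ W := fun x hx => hW ▸ Submodule.subset_span hx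
  have m1 : W ≤ W.comap F := by
    conv_lhs => rw [hW]
    exact Submodule.span_le.2 fun x (hx : F x = x) => m0 (F x) (congrArg F hx)
  have m2 : ∀ y ∈ W, ∃ z ∈ W, F z = y := fun y hy => by
    rw [hW] at hy
    induction hy using Submodule.span_induction with
    | mem y hy => exact ⟨y, m0 y hy, hy⟩
    | zero => exact ⟨0, zero_mem _, map_zero F⟩
    | add y y' _ _ hy hy' =>
      obtain ⟨z, hz, rfl⟩ := hy
      obtain ⟨z', hz', rfl⟩ := hy'
      exact ⟨z + z', add_mem hz hz', map_add F _ _⟩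
    | smul a y _ hy =>
      obtain ⟨z, hz, rfl⟩ := hy
      obtain ⟨r, rfl⟩ := IsAlgClosed.exists_pow_nat_eq a (zero_lt_one.trans hq)
      exact ⟨r • z, W.smul_mem r hz, by rw [map_smulₛₗ, hσ]⟩
  have m3 : ∀ y ∈ W, ∀ c : Ω, ∃ z ∈ W, F z - z = c • y := fun y hy => by
    rw [hW] at hy
    induction hy using Submodule.span_induction with
    | mem y hy =>
      intro c
      obtain ⟨d, rfl⟩ := as_SW0 hq c
      exact ⟨d • y, W.smul_mem d (m0 y hy), by rw [map_smulₛₗ, hσ, hy, sub_smul]⟩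
    | zero => exact fun c => ⟨0, zero_mem _, by rw [map_zero, sub_zero, smul_zero]⟩
    | add y y' _ _ hy hy' =>
      intro c
      obtain ⟨z, hz, e⟩ := hy c
      obtain ⟨z', hz', e'⟩ := hy' c
      exact ⟨z + z', add_mem hz hz', by rw [map_add, smul_add, ← e, ← e', add_sub_add_comm]⟩
    | smul a y _ hy => exact fun c => smul_smul c a y ▸ hy (c * a)
  rw [← hW, eq_top_iff]
  intro v _
  by_contra hv
  obtain ⟨x, hx, e⟩ := fix_SW0 hq hσ (W.mapQ W F m1) (v := Submodule.Quotient.mk v)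
    ((injective_iff_map_eq_zero _).2 fun y hy => by
      obtain ⟨y, rfl⟩ := Submodule.Quotient.mk_surjective W y
      rw [Submodule.mapQ_apply, Submodule.Quotient.mk_eq_zero] at hy
      obtain ⟨z, hz, e⟩ := m2 _ hy
      exact (Submodule.Quotient.mk_eq_zero W).2 (h3 e ▸ hz))
    fun h => hv ((Submodule.Quotient.mk_eq_zero W).1 h)
  obtain ⟨x, rfl⟩ := Submodule.Quotient.mk_surjective W x
  rw [Submodule.mapQ_apply, Submodule.Quotient.eq] at e
  obtain ⟨z, hz, e'⟩ := m3 _ e 1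
  have h4 : x - z ∈ W := m0 _ (by
    rw [map_sub, sub_eq_sub_iff_sub_eq_sub, e', one_smul])
  exact hx ((Submodule.Quotient.mk_eq_zero W).2 (by simpa using add_mem h4 hz))

end Pool.Agent.CXD
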