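import Pool.Agent.P.MP_2ce3e7_ag.SE1

/-! Rules for membership in spans. -/

set_option linter.unusedSectionVars false
set_option linter.unusedVariables false

open Function Matrix Submodule

noncomputable section

namespace Pool.Agent.CXD
variable {k Ω : Type} [Field k] [Field Ω] [Algebra k Ω] {α β γ : Type} [Af Ω α] [Af Ω β] [Af Ω γ]
  {G : Gp Ω} {q : ℕ} {p : α → Prop} [Sq k q] [IsAlgClosed Ω]

theorem li_det_SY0 {ι : Type} [Fintype ι] [DecidableEq ι] (A : ι → ι → Ω) :
    LinearIndependent Ω A ↔ (Matrix.of A).det ≠ 0 :=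
  (Matrix.linearIndependent_rows_iff_isUnit (A := Matrix.of A)).trans
    ((Matrix.isUnit_iff_isUnit_det _).trans isUnit_iff_ne_zero)

theorem gunli_SY0 (h : Au k q G) {ι : Type} [Fintype ι]
    (hp : Gy k G fun y : α × (ι → ι → Ω) => p y.1 ∧ LinearIndependent Ω y.2) : Gy k G p := by
  classical
  refine h.gungl (κ := Unit) (ι := ι) (h.giso
    (fun y : α × (ι → ι → Ω) => (y.1, fun _ : Unit => Matrix.of y.2))
    (fun y : α × (Unit → Matrix ι ι Ω) => (y.1, fun i j => y.2 () i j)) (by fun_prop) ?_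
    (fun y hy => ⟨hy.1, fun _ => (li_det_SY0 y.2).1 hy.2⟩)
    (fun y hy => ⟨hy.1, (li_det_SY0 _).2 (hy.2 ())⟩) (fun _ _ => rfl) (fun _ _ => rfl) hp)
  exact Pq.mk (by fun_prop) (Pq.pi fun i => Pq.pi fun j => Pq.entry (by fun_prop) i j)

theorem rows_SY0 (h : Au k q G) {κ : Type} [Fintype κ] {g : α → κ → Ω} (hg : Pq k p g)
    (h0 : ∀ x, p x → g x ≠ 0) (hp : Gy k G p) (Z : Set κ) :
    Gy k G fun y : α × (κ → κ → Ω) => p y.1 ∧ ∀ a, a ∈ Z → y.2 a ⬝ᵥ g y.1 = 0 := by
  classical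
  have key : ∀ S : Finset κ, Gy k G fun y : α × (κ → κ → Ω) => p y.1 ∧
      (∀ a ∈ S, a ∈ Z → y.2 a ⬝ᵥ g y.1 = 0) ∧ ∀ a, a ∉ S → y.2 a = 0 := by
    intro S
    induction S using Finset.induction_on with
    | empty =>
      exact (h.gsupp2 (l := κ) (m := κ) (fun _ _ => True) hp).congr fun y => by
        simp [funext_iff]
    | insert a S ha ih =>
      have h1 : Gy k G fun z : (α × (κ → κ → Ω)) × (κ → Ω) => (p z.1.1 ∧
          (∀ a ∈ S, a ∈ Z → z.1.2 a ⬝ᵥ g z.1.1 = 0) ∧ ∀ a, a ∉ S → z.1.2 a = 0) ∧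
          (a ∈ Z → z.2 ⬝ᵥ g z.1.1 = 0) := by
        by_cases e : a ∈ Z
        · exact (h.gaff (D := fun y : α × (κ → κ → Ω) => g y.1) (g := fun _ => 0)
            (hg.pull (Pq.fst Pq.id) fun _ hy => hy.1) (Pq.const 0) ih
            (h.gnot fun y hy => h0 _ hy.1.1 hy.2.1)).congr fun z => by simp [e]
        · exact (h.gline (κ → Ω) ih).congr fun z => by simp [e]
      refine h.giso (fun z : (α × (κ → κ → Ω)) × (κ → Ω) => (z.1.1, update z.1.2 a z.2))
        (fun y : α × (κ → κ → Ω) => ((y.1, update y.2 a 0), y.2 a)) (by fun_prop) (by fun_prop)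
        ?_ ?_ ?_ ?_ h1
      · intro z hz
        refine ⟨hz.1.1, fun b hb hZ => ?_, fun b hb => ?_⟩
        · by_cases e : b = a
          · subst e
            simpa using hz.2 hZ
          · simpa [e] using hz.1.2.1 b (by simpa [e] using hb) hZ
        · rw [Finset.mem_insert, not_or] at hb
          simpa [hb.1] using hz.1.2.2 b hb.2
      · intro y hy
        refine ⟨⟨hy.1, fun b hb hZ => ?_, fun b hb => ?_⟩,
          fun hZ => hy.2.1 a (Finset.mem_insert_self _ _) hZ⟩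
        · have e : b ≠ a := fun e => ha (e ▸ hb)
          simpa [e] using hy.2.1 b (Finset.mem_insert_of_mem hb) hZ
        · by_cases e : b = a
          · subst e
            simp
          · simpa [e] using hy.2.2 b (by simp [e, hb])
      · intro z hz
        refine Prod.ext (Prod.ext rfl ?_) (by simp)
        simp [← hz.1.2.2 a ha]
      · intro y hy
        exact Prod.ext rfl (by simp)
  exact (key Finset.univ).congr fun y => by simp

/-- splitting along the vanishing of a vector -/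
theorem Au.gsplitv (h : Au k q G) (c : Lc k p) {κ : Type} [Fintype κ] {g : α → κ → Ω}
    (hg : Pq k p g) (h1 : Gy k G fun x => p x ∧ g x = 0) (h2 : Gy k G fun x => p x ∧ g x ≠ 0) :
    Gy k G p := by
  classical
  refine gunli_SY0 h (ι := κ) (h.gzp ((c.fst _).land (Lr.li (Pq.snd Pq.id))) (T := κ)
    (φ := fun a y => y.2 a ⬝ᵥ g y.1) (fun a => Pq.dot ((Pq.snd Pq.id).eval a)
      (hg.pull (Pq.fst Pq.id) fun _ hy => hy.1)) fun Z => ?_)
  by_cases e : ∀ a, a ∈ Z
  · refine (h.gli (M := fun y : α × (κ → κ → Ω) => y.2) (Pq.snd Pq.id) Set.univ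
      (h.gline (κ → κ → Ω) h1)).congr fun y => ?_
    rw [linearIndepOn_univ_iff]
    refine ⟨fun H => ⟨⟨H.1.1, ?_⟩, H.1.2⟩, fun H => ⟨⟨H.1.1, H.2⟩, fun a => ?_⟩⟩
    · exact Matrix.eq_zero_of_mulVec_eq_zero ((li_det_SY0 y.2).1 H.1.2)
        (funext fun a => (H.2 a).2 (e a))
    · simp [H.1.2, e a]
  · obtain ⟨b, hb⟩ := not_forall.1 e
    have h3 := h.gli (M := fun y : α × (κ → κ → Ω) => y.2) (Pq.snd Pq.id) Set.univ
      (rows_SY0 h (hg.mono fun _ hx => hx.1) (fun _ hx => hx.2) h2 Z)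
    have h4 := h.gopns (T := {a // a ∉ Z})
      (g := fun a (y : α × (κ → κ → Ω)) => y.2 a.1 ⬝ᵥ g y.1)
      (fun a => Pq.dot ((Pq.snd Pq.id).eval a.1)
        (hg.pull (Pq.fst Pq.id) fun _ hy => hy.1.1.1)) h3
    refine h4.congr fun y => ?_
    rw [linearIndepOn_univ_iff]
    refine ⟨fun H => ⟨⟨⟨⟨H.1.1, fun e0 => hb ((H.2 b).1 (by simp [e0]))⟩,
      fun a ha => (H.2 a).2 ha⟩, H.1.2⟩, fun a e0 => a.2 ((H.2 a).1 e0)⟩,
      fun H => ⟨⟨H.1.1.1.1, H.1.2⟩, fun a => ⟨fun e0 => ?_, H.1.1.2 a⟩⟩⟩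
    by_contra ha
    exact H.2 ⟨a, ha⟩ e0

theorem gzr_SY0 (c : Lc k p) {T : Type} [Finite T] {r : T → α → Prop}
    (hr : ∀ t, Lr k p (r t)) (hn : ∀ t, Lr k p fun x => ¬r t x)
    (hs : ∀ t (p₁ : α → Prop), (∀ x, p₁ x → p x) → Lc k p₁ → (Gy k G fun x => p₁ x ∧ r t x) →
      (Gy k G fun x => p₁ x ∧ ¬r t x) → Gy k G p₁)
    (h1 : ∀ Z : Set T, Gy k G fun x => p x ∧ ∀ a, r a x ↔ a ∈ Z) : Gy k G p := by
  classical
  have := Fintype.ofFinite T
  have hl : ∀ t (a : Prop), Lr k p fun x => r t x ↔ a := fun t a => by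
    by_cases e : a
    · exact (hr t).congr fun x _ => by simp [e]
    · exact (hn t).congr fun x _ => by simp [e]
  have key : ∀ (s : Finset T) (Z : Set T),
      Gy k G fun x => p x ∧ ∀ a, a ∉ s → (r a x ↔ a ∈ Z) := by
    intro s
    induction s using Finset.induction_on with
    | empty => exact fun Z => (h1 Z).congr fun x => by simp
    | insert a s ha ih =>
      intro Z
      refine hs a _ (fun _ hx => hx.1) (c.land (Lr.all fun b => Lr.all fun _ => hl b _))
        ((ih (insert a Z)).congr fun x => ?_) ((ih (Z \ {a})).congr fun x => ?_)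
      · refine ⟨fun H => ⟨H.1.1, fun b hb => ?_⟩, fun H => ⟨⟨H.1, fun b hb => ?_⟩, ?_⟩⟩
        · by_cases e : b = a
          · rw [e]; exact iff_of_true H.2 (Set.mem_insert _ _)
          · rw [H.1.2 b (by simp [e, hb])]; simp [e]
        · rw [Finset.mem_insert, not_or] at hb
          rw [H.2 b hb.2]; simp [hb.1]
        · exact (H.2 a ha).2 (Set.mem_insert _ _)
      · refine ⟨fun H => ⟨H.1.1, fun b hb => ?_⟩, fun H => ⟨⟨H.1, fun b hb => ?_⟩, ?_⟩⟩
        · by_cases e : b = a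
          · rw [e]; exact iff_of_false H.2 (by simp)
          · rw [H.1.2 b (by simp [e, hb])]; simp [e]
        · rw [Finset.mem_insert, not_or] at hb
          rw [H.2 b hb.2]; simp [hb.1]
        · exact fun e => ((H.2 a ha).1 e).2 rfl
  exact (key Finset.univ ∅).congr fun x => by simp

section
variable {ι n : Type} [Fintype ι] [Fintype n]

/-- membership in a span is the vanishing of a regular vector -/
theorem Pq.minors {M : α → ι → n → Ω} {v : α → n → Ω} (hM : Pq k p M) (hv : Pq k p v)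
    (A : Set ι) (hl : ∀ x, p x → LinearIndepOn Ω (M x) A) :
    ∃ (κ : Type) (_ : Fintype κ) (g : α → κ → Ω), Pq k p g ∧
      ∀ x, p x → (g x = 0 ↔ v x ∈ span Ω (M x '' A)) := by
  classical
  have h1 := Pq.pi fun i : A => hM.eval i.1
  have h2 : Pq k p fun x => Matrix.of fun o : Option A => (o.elim (v x) fun i => M x i : n → Ω) :=
    Pq.of (Pq.pi fun o => by
      cases o
      exacts [hv, h1.eval _])
  refine ⟨Option A → n, inferInstance, fun x I => ((Matrix.of fun o : Option A =>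
    (o.elim (v x) fun i => M x i : n → Ω))ᵀ.submatrix I fun o => o).det,
    Pq.pi fun I => Pq.det (Pq.submatrix (Pq.transpose h2) _ _), fun x hx => ?_⟩
  rw [← not_iff_not, Set.image_eq_range]
  exact (((linearIndependent_option (v := fun o : Option A =>
    (o.elim (v x) fun i => M x i : n → Ω))).trans (and_iff_right (hl x hx))).symm.trans
      (li_iff_minor _)).symm

theorem Lr.nspan {M : α → ι → n → Ω} {v : α → n → Ω} (hM : Pq k p M) (hv : Pq k p v)
    (A : Set ι) (hl : ∀ x, p x → LinearIndepOn Ω (M x) A) :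
    Lr k p fun x => v x ∉ span Ω (M x '' A) := by
  obtain ⟨κ, _, g, hg, e⟩ := hM.minors hv A hl
  exact (Lr.vne hg).congr fun x hx => not_congr (e x hx).symm

variable {T : Type} [Finite T] {M : T → α → ι → n → Ω} {v : T → α → n → Ω}

theorem Au.gnspans (h : Au k q G) (hM : ∀ t, Pq k p (M t)) (hv : ∀ t, Pq k p (v t))
    (A : T → Set ι) (hl : ∀ t x, p x → LinearIndepOn Ω (M t x) (A t)) (hp : Gy k G p) :
    Gy k G fun x => p x ∧ ∀ t, v t x ∉ span Ω (M t x '' A t) :=
  ind_SA3 (fun t x => v t x ∉ span Ω (M t x '' A t)) hp fun t p₁ e h1 => by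
    obtain ⟨κ, _, g, hg, e'⟩ := (hM t).minors (hv t) (A t) (hl t)
    exact (h.gvne (hg.mono e) h1).congr fun x =>
      and_congr_right fun hx => not_congr (e' x (e x hx)).symm

theorem Au.gzps (h : Au k q G) (c : Lc k p) (hM : ∀ t, Pq k p (M t)) (hv : ∀ t, Pq k p (v t))
    (A : T → Set ι) (hl : ∀ t x, p x → LinearIndepOn Ω (M t x) (A t))
    (h1 : ∀ Z : Set T, Gy k G fun x => p x ∧ ∀ t, v t x ∈ span Ω (M t x '' A t) ↔ t ∈ Z) :
    Gy k G p := by
  refine gzr_SY0 c (r := fun t x => v t x ∈ span Ω (M t x '' A t))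
    (fun t => (Cr.span (hM t) (hv t) (A t) (hl t)).lr)
    (fun t => Lr.nspan (hM t) (hv t) (A t) (hl t)) (fun t p₁ e c₁ a b => ?_) h1
  obtain ⟨κ, _, g, hg, e'⟩ := (hM t).minors (hv t) (A t) (hl t)
  exact h.gsplitv c₁ (hg.mono e)
    (a.congr fun x => and_congr_right fun hx => e' x (e x hx))
    (b.congr fun x => and_congr_right fun hx => not_congr (e' x (e x hx)))

end

theorem Au.gunli (h : Au k q G) {ι : Type} [Fintype ι]
    (hp : Gy k G fun y : α × (ι → ι → Ω) => p y.1 ∧ LinearIndependent Ω y.2) : Gy k G p :=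
  gunli_SY0 h hp

theorem Au.gunrow (h : Au k q G) {T ι : Type} [Fintype T] [Fintype ι] (R : T → Prop) (a : ι)
    (hp : Gy k G fun y : α × (T → ι → Ω) =>
      p y.1 ∧ ∀ t, (R t → y.2 t a ≠ 0) ∧ (¬R t → y.2 t = 0)) : Gy k G p := by
  classical
  refine h.gungl (κ := {t // R t}) (ι := Unit) (h.gunsupp2 (l := T) (m := ι)
    (fun t j => ¬R t ∨ j = a) (h.giso
    (fun y : α × (T → ι → Ω) => ((y.1, fun c : {t // R t} => Matrix.of fun _ _ : Unit => y.2 c.1 a),
      fun t j => if ¬R t ∨ j = a then 0 else y.2 t j))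
    (fun y : (α × ({t // R t} → Matrix Unit Unit Ω)) × (T → ι → Ω) =>
      (y.1.1, fun t j => if e : R t ∧ j = a then y.1.2 ⟨t, e.1⟩ () () else y.2 t j)) ?_ ?_
    ?_ ?_ ?_ ?_ hp))
  · exact Pq.mk (Pq.mk (by fun_prop) (Pq.pi fun c => Pq.mat fun _ _ =>
      ((Pq.snd Pq.id).eval c.1).eval a)) (Pq.pi fun t => Pq.pi fun j =>
        Pq.ite _ (Pq.const 0) (((Pq.snd Pq.id).eval t).eval j))
  · exact Pq.mk (by fun_prop) (Pq.pi fun t => Pq.pi fun j => Pq.dite _
      (fun e => Pq.entry ((Pq.snd (Pq.fst Pq.id)).eval (⟨t, e.1⟩ : {t // R t})) () ())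
      fun _ => ((Pq.snd Pq.id).eval t).eval j)
  · intro y hy
    refine ⟨⟨hy.1, fun c => ?_⟩, fun t j e => if_pos e⟩
    simpa using (hy.2 c.1).1 c.2
  · intro y hy
    refine ⟨hy.1.1, fun t => ⟨fun e => ?_, fun e => funext fun j => ?_⟩⟩
    · simpa [e] using hy.1.2 ⟨t, e⟩
    · simpa [e] using hy.2 t j (Or.inl e)
  · intro y hy
    refine Prod.ext rfl (funext fun t => funext fun j => ?_)
    by_cases e : R t
    · by_cases e' : j = a <;> simp [e, e']
    · simp [e, (hy.2 t).2 e]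
  · intro y hy
    refine Prod.ext (Prod.ext rfl (funext fun c => ?_)) (funext fun t => funext fun j => ?_)
    · ext u w
      simp [c.2]
    · by_cases e : ¬R t ∨ j = a
      · simp only [if_pos e]
        exact (hy.2 t j e).symm
      · have e' : ¬(R t ∧ j = a) := fun h => e (Or.inr h.2)
        simp only [if_neg e, dif_neg e']

end Pool.Agent.CXD
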