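import Pool.Agent.P.MP_2ce3e7_ag.SY0

/-! Coefficients. -/

set_option linter.unusedSectionVars false
set_option linter.unusedVariables false

open Function Matrix Submodule

noncomputable section

namespace Pool.Agent.CXD

section
variable {Ω ι V : Type} [Field Ω] [Fintype ι] [AddCommGroup V] [Module Ω V]

open Classical in
/-- coefficients of `v` with respect to the vectors `b j`, `j ∈ A` -/
def cofy (Ω : Type) {ι V : Type} [Field Ω] [Fintype ι] [AddCommGroup V] [Module Ω V] (b : ι → V)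
    (A : Set ι) (v : V) : ι → Ω :=
  if h : ∃ t : ι → Ω, (∀ j, j ∉ A → t j = 0) ∧ ∑ j, t j • b j = v then h.choose else 0

variable {b : ι → V} {A : Set ι} {v v' : V}

theorem mem_span_sup : v ∈ span Ω (b '' A) ↔
    ∃ t : ι → Ω, (∀ j, j ∉ A → t j = 0) ∧ ∑ j, t j • b j = v := by
  constructor
  · intro hv
    obtain ⟨l, hl, e⟩ := (Finsupp.mem_span_image_iff_linearCombination Ω).1 hv
    refine ⟨l, fun j hj => ?_, ?_⟩
    · by_contra h0
      exact hj (hl (Finsupp.mem_support_iff.2 h0))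
    · rw [← e, Finsupp.linearCombination_apply, Finsupp.sum_fintype]
      intro i
      exact zero_smul _ _
  · rintro ⟨t, ht, rfl⟩
    refine Submodule.sum_mem _ fun j _ => ?_
    by_cases hj : j ∈ A
    · exact Submodule.smul_mem _ _ (Submodule.subset_span ⟨j, hj, rfl⟩)
    · rw [ht j hj, zero_smul]
      exact Submodule.zero_mem _

theorem uniq_SY1 (hl : LinearIndepOn Ω b A) {t : ι → Ω} (ht : ∀ j, j ∉ A → t j = 0)
    (e : ∑ j, t j • b j = 0) : t = 0 := by
  have h1 := linearIndepOn_iff.1 hl (Finsupp.equivFunOnFinite.symm t)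
    (fun j hj => by
      by_contra h0
      exact (Finsupp.mem_support_iff.1 hj) (ht j h0)) (by
      rw [Finsupp.linearCombination_apply, Finsupp.sum_fintype]
      · exact e
      · intro i
        exact zero_smul _ _)
  funext j
  exact DFunLike.congr_fun h1 j

theorem cofy_sup {j : ι} (hj : j ∉ A) : cofy Ω b A v j = 0 := by
  unfold cofy
  split_ifs with h
  · exact h.choose_spec.1 j hj
  · rfl

theorem cofy_sum (hv : v ∈ span Ω (b '' A)) : ∑ j, cofy Ω b A v j • b j = v := by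
  have h := mem_span_sup.1 hv
  unfold cofy
  rw [dif_pos h]
  exact h.choose_spec.2

theorem cofy_eq (hl : LinearIndepOn Ω b A) {t : ι → Ω} (ht : ∀ j, j ∉ A → t j = 0) :
    cofy Ω b A (∑ j, t j • b j) = t := by
  have h := cofy_sum (Ω := Ω) (b := b) (A := A) (mem_span_sup.2 ⟨t, ht, rfl⟩)
  refine sub_eq_zero.1 (uniq_SY1 hl (fun j hj => ?_) ?_)
  · rw [Pi.sub_apply, cofy_sup hj, ht j hj, sub_zero]
  · simp only [Pi.sub_apply, sub_smul, Finset.sum_sub_distrib]
    rw [h, sub_self]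

theorem cofy_add (hl : LinearIndepOn Ω b A) (hv : v ∈ span Ω (b '' A)) (hv' : v' ∈ span Ω (b '' A))
    (t : Ω) : cofy Ω b A (v + t • v') = cofy Ω b A v + t • cofy Ω b A v' := by
  have e : v + t • v' = ∑ j, (cofy Ω b A v + t • cofy Ω b A v') j • b j := by
    simp only [Pi.add_apply, Pi.smul_apply, add_smul, Finset.sum_add_distrib, smul_eq_mul,
      mul_smul, ← Finset.smul_sum]
    rw [cofy_sum hv, cofy_sum hv']
  rw [e]
  exact cofy_eq hl fun j hj => by
    rw [Pi.add_apply, Pi.smul_apply, cofy_sup hj, cofy_sup hj, smul_zero, add_zero]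

theorem mem_span_cofy (hl : LinearIndepOn Ω b A) (hv : v ∈ span Ω (b '' A)) {B : Set ι}
    (hB : B ⊆ A) : v ∈ span Ω (b '' B) ↔ ∀ j, j ∉ B → cofy Ω b A v j = 0 := by
  constructor
  · intro h j hj
    obtain ⟨t, ht, rfl⟩ := mem_span_sup.1 h
    rw [cofy_eq hl fun i hi => ht i fun h' => hi (hB h')]
    exact ht j hj
  · intro h
    exact mem_span_sup.2 ⟨_, h, cofy_sum hv⟩

end

variable {k Ω : Type} [Field k] [Field Ω] [Algebra k Ω] {α β γ : Type} [Af Ω α] [Af Ω β] [Af Ω γ]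
  {G : Gp Ω} {q : ℕ} {p : α → Prop} [Sq k q] [IsAlgClosed Ω] {ι n : Type} [Fintype n]

theorem Pq.cof [Fintype ι] {M : α → ι → n → Ω} {v : α → n → Ω} (hM : Pq k p M) (hv : Pq k p v)
    (A : Set ι) (hl : ∀ x, p x → LinearIndepOn Ω (M x) A)
    (hs : ∀ x, p x → v x ∈ span Ω (M x '' A)) : Pq k p fun x => cofy Ω (M x) A (v x) := by
  classical
  have h1 : Pq k p fun x => fun j : A => cofy Ω (M x) A (v x) j := by
    refine Pq.solve (M := fun x => Matrix.of fun (i : n) (j : A) => M x j i)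
      (Pq.mat fun i j => (hM.eval j.1).eval i) hv (fun x w hx e => ?_) fun x hx => ?_
    · refine funext (Fintype.linearIndependent_iff.1 (hl x hx) w ?_)
      funext i
      rw [Finset.sum_apply]
      exact (Finset.sum_congr rfl fun j _ => mul_comm _ _).trans (congrFun e i)
    · funext i
      have e := congrFun (cofy_sum (hs x hx)) i
      rw [← e, Finset.sum_apply, ← Fintype.sum_subtype_add_sum_subtype (· ∈ A),
        Finset.sum_eq_zero (s := Finset.univ) (fun (j : {j // ¬ j ∈ A}) _ => by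
          rw [cofy_sup j.2, zero_smul]; rfl), add_zero]
      simp only [Pi.smul_apply, smul_eq_mul, mul_comm]
      exact Finset.sum_congr (by ext; simp) fun _ _ => rfl
  refine (Pq.pi fun j => Pq.dite (j ∈ A) (fun hj => h1.eval ⟨j, hj⟩)
    fun _ => Pq.const (0 : Ω)).congr fun x _ => funext fun j => ?_
  split_ifs with hj
  · rfl
  · exact cofy_sup hj

/-- vectors in spans are given by their coefficients -/
theorem Au.gcof (h : Au k q G) [Fintype ι] {T : Type} [Fintype T] {M : T → α → ι → n → Ω}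
    (hM : ∀ t, Pq k p (M t)) (A : T → Set ι) (hl : ∀ t x, p x → LinearIndepOn Ω (M t x) (A t))
    (Q : α × (T → n → Ω) → Prop) :
    (Gy k G fun y : α × (T → n → Ω) =>
      p y.1 ∧ (∀ t, y.2 t ∈ span Ω (M t y.1 '' A t)) ∧ Q y) ↔
    Gy k G fun y : α × (T → ι → Ω) => p y.1 ∧ (∀ t j, j ∉ A t → y.2 t j = 0) ∧
      Q (y.1, fun t => ∑ j, y.2 t j • M t y.1 j) := by
  have hf : Pq k (fun y : α × (T → ι → Ω) => p y.1 ∧ (∀ t j, j ∉ A t → y.2 t j = 0) ∧
      Q (y.1, fun t => ∑ j, y.2 t j • M t y.1 j))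
      fun y => (y.1, fun t => ∑ j, y.2 t j • M t y.1 j) :=
    (Pq.fst Pq.id).mk (Pq.pi fun t => Pq.vsum _ fun j => Pq.vsmul
      (((Pq.snd Pq.id).eval t).eval j) (((hM t).pull (Pq.fst Pq.id) fun _ h => h.1).eval j))
  have hr : Pq k (fun y : α × (T → n → Ω) =>
      p y.1 ∧ (∀ t, y.2 t ∈ span Ω (M t y.1 '' A t)) ∧ Q y)
      fun y => (y.1, fun t => cofy Ω (M t y.1) (A t) (y.2 t)) :=
    (Pq.fst Pq.id).mk (Pq.pi fun t => Pq.cof (M := fun y : α × (T → n → Ω) => M t y.1)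
      ((hM t).pull (Pq.fst Pq.id) fun _ h => h.1) ((Pq.snd Pq.id).eval t) (A t)
      (fun _ h => hl t _ h.1) fun _ h => h.2.1 t)
  have e1 : ∀ y : α × (T → n → Ω), (∀ t, y.2 t ∈ span Ω (M t y.1 '' A t)) →
      (y.1, fun t => ∑ j, cofy Ω (M t y.1) (A t) (y.2 t) j • M t y.1 j) = y :=
    fun y hy => Prod.ext rfl (funext fun t => cofy_sum (hy t))
  have e2 : ∀ y : α × (T → ι → Ω), p y.1 → (∀ t j, j ∉ A t → y.2 t j = 0) →
      (y.1, fun t => cofy Ω (M t y.1) (A t) (∑ j, y.2 t j • M t y.1 j)) = y :=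
    fun y hy h' => Prod.ext rfl (funext fun t => cofy_eq (hl t _ hy) (h' t))
  constructor
  · exact h.giso _ _ hr hf
      (fun z hz => ⟨hz.1, fun t j hj => cofy_sup hj, (e1 z hz.2.1).symm ▸ hz.2.2⟩)
      (fun x hx => ⟨hx.1, fun t => mem_span_sup.2 ⟨_, hx.2.1 t, rfl⟩, hx.2.2⟩)
      (fun z hz => e1 z hz.2.1) fun x hx => e2 x hx.1 hx.2.1
  · exact h.giso _ _ hf hr
      (fun x hx => ⟨hx.1, fun t => mem_span_sup.2 ⟨_, hx.2.1 t, rfl⟩, hx.2.2⟩)
      (fun z hz => ⟨hz.1, fun t j hj => cofy_sup hj, (e1 z hz.2.1).symm ▸ hz.2.2⟩)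
      (fun x hx => e2 x hx.1 hx.2.1) fun z hz => e1 z hz.2.1

theorem Au.gcof2 (h : Au k q G) [Fintype ι] {T T' : Type} [Fintype T] [Fintype T']
    {M : T → α → ι → n → Ω} (hM : ∀ t, Pq k p (M t)) (A : T → Set ι)
    (hl : ∀ t x, p x → LinearIndepOn Ω (M t x) (A t)) (Q : α × (T → T' → n → Ω) → Prop) :
    (Gy k G fun y : α × (T → T' → n → Ω) =>
      p y.1 ∧ (∀ t a, y.2 t a ∈ span Ω (M t y.1 '' A t)) ∧ Q y) ↔
    Gy k G fun y : α × (T → T' → ι → Ω) => p y.1 ∧ (∀ t a j, j ∉ A t → y.2 t a j = 0) ∧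
      Q (y.1, fun t a => ∑ j, y.2 t a j • M t y.1 j) := by
  have hf : Pq k (fun y : α × (T → T' → ι → Ω) => p y.1 ∧ (∀ t a j, j ∉ A t → y.2 t a j = 0) ∧
      Q (y.1, fun t a => ∑ j, y.2 t a j • M t y.1 j))
      fun y => (y.1, fun t a => ∑ j, y.2 t a j • M t y.1 j) :=
    (Pq.fst Pq.id).mk (Pq.pi fun t => Pq.pi fun a => Pq.vsum _ fun j => Pq.vsmul
      ((((Pq.snd Pq.id).eval t).eval a).eval j)
      (((hM t).pull (Pq.fst Pq.id) fun _ h => h.1).eval j))
  have hr : Pq k (fun y : α × (T → T' → n → Ω) =>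
      p y.1 ∧ (∀ t a, y.2 t a ∈ span Ω (M t y.1 '' A t)) ∧ Q y)
      fun y => (y.1, fun t a => cofy Ω (M t y.1) (A t) (y.2 t a)) :=
    (Pq.fst Pq.id).mk (Pq.pi fun t => Pq.pi fun a =>
      Pq.cof (M := fun y : α × (T → T' → n → Ω) => M t y.1)
      ((hM t).pull (Pq.fst Pq.id) fun _ h => h.1) (((Pq.snd Pq.id).eval t).eval a) (A t)
      (fun _ h => hl t _ h.1) fun _ h => h.2.1 t a)
  have e1 : ∀ y : α × (T → T' → n → Ω), (∀ t a, y.2 t a ∈ span Ω (M t y.1 '' A t)) →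
      (y.1, fun t a => ∑ j, cofy Ω (M t y.1) (A t) (y.2 t a) j • M t y.1 j) = y :=
    fun y hy => Prod.ext rfl (funext fun t => funext fun a => cofy_sum (hy t a))
  have e2 : ∀ y : α × (T → T' → ι → Ω), p y.1 → (∀ t a j, j ∉ A t → y.2 t a j = 0) →
      (y.1, fun t a => cofy Ω (M t y.1) (A t) (∑ j, y.2 t a j • M t y.1 j)) = y :=
    fun y hy h' => Prod.ext rfl (funext fun t => funext fun a => cofy_eq (hl t _ hy) (h' t a))
  constructor
  · exact h.giso _ _ hr hf
      (fun z hz => ⟨hz.1, fun t a j hj => cofy_sup hj, (e1 z hz.2.1).symm ▸ hz.2.2⟩)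
      (fun x hx => ⟨hx.1, fun t a => mem_span_sup.2 ⟨_, hx.2.1 t a, rfl⟩, hx.2.2⟩)
      (fun z hz => e1 z hz.2.1) fun x hx => e2 x hx.1 hx.2.1
  · exact h.giso _ _ hf hr
      (fun x hx => ⟨hx.1, fun t a => mem_span_sup.2 ⟨_, hx.2.1 t a, rfl⟩, hx.2.2⟩)
      (fun z hz => ⟨hz.1, fun t a j hj => cofy_sup hj, (e1 z hz.2.1).symm ▸ hz.2.2⟩)
      (fun x hx => e2 x hx.1 hx.2.1) fun z hz => e1 z hz.2.1

/-- free vectors in spans; the index type may be infinite -/
theorem Au.gspan (h : Au k q G) {T : Type} [Fintype T] {M : α → ι → n → Ω}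
    (hM : ∀ j, Pq k p fun x => M x j) (A : T → Set ι) (hA : ∀ t, (A t).Finite)
    (hl : ∀ t x, p x → LinearIndepOn Ω (M x) (A t)) (hp : Gy k G p) :
    Gy k G fun y : α × (T → n → Ω) => p y.1 ∧ ∀ t, y.2 t ∈ span Ω (M y.1 '' A t) := by
  have := (Set.finite_iUnion hA).fintype
  have e : ∀ c, Subtype.val '' (Subtype.val ⁻¹' A c : Set (⋃ c, A c : Set ι)) = A c := fun c =>
    Set.image_preimage_eq_of_subset (by rw [Subtype.range_coe]; exact Set.subset_iUnion A c)
  have h1 := (h.gcof (ι := (⋃ c, A c : Set ι)) (T := T) (M := fun _ a i => M a i)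
    (fun _ => Pq.pi fun i => hM i) (fun c => Subtype.val ⁻¹' A c) (fun c x hx => by
      have h2 := hl c x hx
      rw [← e] at h2
      exact h2.comp_of_image Subtype.val_injective.injOn) fun _ => True).2
    ((h.gsupp2 (fun c (j : (⋃ c, A c : Set ι)) => j ∉ Subtype.val ⁻¹' A c) hp).congr fun _ => by
      rw [and_true])
  refine h1.congr fun y => ?_
  rw [and_true]
  refine and_congr_right fun _ => forall_congr' fun c => ?_
  rw [← Set.image_image (M y.1) Subtype.val, e]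

/-- membership in a span is closed; the index type may be infinite -/
theorem Cr.spanf {M : α → ι → n → Ω} {v : α → n → Ω} (hM : ∀ j, Pq k p fun x => M x j)
    (hv : Pq k p v) {A : Set ι} (hA : A.Finite) (hl : ∀ x, p x → LinearIndepOn Ω (M x) A) :
    Cr k p fun x => v x ∈ Submodule.span Ω (M x '' A) := by
  have := hA.fintype
  refine (Cr.span (ι := A) (M := fun x j => M x j) (Pq.pi fun j => hM j) hv Set.univ
    fun x hx => linearIndepOn_univ_iff.2 (hl x hx)).congr fun x _ => ?_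
  rw [Set.image_univ, Set.image_eq_range]

end Pool.Agent.CXD
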