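import Pool.Agent.P.MP_2ce3e7_ag.SY1
import Pool.Agent.P.MP_2ce3e7_ag.SYS
import Pool.Agent.P.MP_2ce3e7_ag.TY0

/-! Frames of chains of flags in an ambient space. -/

set_option linter.unusedSectionVars false
set_option linter.unusedVariables false

open Function Matrix Submodule

noncomputable section

namespace Pool.Agent.CXD
variable {k Ω : Type} [Field k] [Field Ω] [Algebra k Ω]

/-- a permutation acting on families -/
def fry (ι : Type) {β : Type} (F : Equiv.Perm β) : Equiv.Perm (ι → β) :=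
  Equiv.piCongrRight fun _ => F

/-- isotropic and supported in `T` -/
def Oky {n : Type} [Fintype n] (J : Mp n Ω) (T : Set n) (A : Set (n → Ω)) : Prop :=
  (∀ v ∈ A, ∀ v' ∈ A, Isq J v v') ∧ ∀ v ∈ A, ∀ j, j ∉ T → v j = 0

variable (k) in
/-- ambient spaces: a semilinear map, a form, and allowed coordinates -/
structure Amy (q s : ℕ) {n : Type} [Fintype n] (F : Equiv.Perm (n → Ω)) (J : Mp n Ω)
    (S : ℤ → Set n) : Prop where
  sem : Sem k q F
  kr : Kr k J.1
  kr' : Kr k J.2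
  iso : ∀ v v', Isq J (F v) (F v') ↔ Isq J v v'
  sup : ∀ c v, (∀ j, j ∉ S (c + s) → F v j = 0) ↔ ∀ j, j ∉ S c → v j = 0
  rat : ∀ v, F v = v → (∀ c j, j ∉ S c → v j = 0) → Kr k v

variable {n κ : Type} [Fintype n]

/-- the conditions at one step -/
def Sty {i : ℕ} (J : Mp n Ω) (T : Set n) (w : ℕ) (x x' : Fin i → n → Ω) : Prop :=
  LinearIndependent Ω x ∧ Oky J T (Set.range x) ∧ ∀ l, l ≤ i → l ≠ w → lvs x l = lvs x' l

/-- frames of chains of flags of length `i` -/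
def Yfy (i : ℕ) (F : Equiv.Perm (n → Ω)) (J : Mp n Ω) (S : ℤ → Set n) {s : ℕ}
    (w : ZMod s → ℕ) (X : ZMod s → Fin i → n → Ω) : Prop :=
  ∀ c : ℤ, Sty J (S c) (w c) (pext (fry _ F) s X c) (pext (fry _ F) s X (c + 1))

/-- the stratum where the top space moves exactly at the steps in `R` -/
def Yry (i : ℕ) (F : Equiv.Perm (n → Ω)) (J : Mp n Ω) (S : ℤ → Set n) {s : ℕ}
    (w : ZMod s → ℕ) (R : ℤ → Prop) (X : ZMod s → Fin (i + 1) → n → Ω) : Prop :=
  Yfy (i + 1) F J S w X ∧ ∀ c : ℤ, pext (fry _ F) s X c (Fin.last i) ∈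
    lvs (pext (fry _ F) s X (c - 1)) (i + 1) ↔ ¬R c

/-- the bars alive at `c` and the constant vectors -/
def bsy (κ : Type) (R : ℤ → Prop) (f : ℤ → ℤ) (c : ℤ) : Set (ℤ ⊕ κ) :=
  {j | j.elim (fun b => b ∈ clq R f c) fun _ => True}

/-- the variety of bars -/
def Bary (F : Equiv.Perm (n → Ω)) (J : Mp n Ω) (S : ℤ → Set n) (s : ℕ) (R : ℤ → Prop)
    (f : ℤ → ℤ) (u : κ → n → Ω) (X : ZMod s → n → Ω) : Prop :=
  Acz R (pext F s X) ∧ ∀ c, LinearIndepOn Ω (Sum.elim (pext F s X) u)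
    (bsy κ R f c ∪ bsy κ R f (c + 1)) ∧ Oky J (S c) (Sum.elim (pext F s X) u '' bsy κ R f c)

/-- bars together with frames of the spaces they span -/
def Bby (i : ℕ) (F : Equiv.Perm (n → Ω)) (J : Mp n Ω) (S : ℤ → Set n) {s : ℕ}
    (w : ZMod s → ℕ) (R : ℤ → Prop) (f : ℤ → ℤ) (u : κ → n → Ω)
    (y : (ZMod s → n → Ω) × (ZMod s → Fin i → n → Ω)) : Prop :=
  Bary F J S s R f u y.1 ∧ Yfy i F J S w y.2 ∧ ∀ c, lvs (pext (fry _ F) s y.2 c) i =
    span Ω (Sum.elim (pext F s y.1) u '' bsy κ R f c)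

section
variable {i : ℕ} {J : Mp n Ω} {T : Set n} {A B : Set (n → Ω)} {x x' : Fin i → n → Ω}

theorem bil_span {M : Matrix n n Ω} (h : ∀ v ∈ A, ∀ v' ∈ A, v ⬝ᵥ M *ᵥ v' = 0) {v v' : n → Ω}
    (hv : v ∈ span Ω A) (hv' : v' ∈ span Ω A) : v ⬝ᵥ M *ᵥ v' = 0 := by
  induction hv, hv' using span_induction₂ with
  | mem_mem x y hx hy => exact h x hx y hy
  | zero_left y _ => simp
  | zero_right y _ => simp
  | add_left x y z _ _ _ h1 h2 => rw [add_dotProduct, h1, h2, add_zero]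
  | add_right x y z _ _ _ h1 h2 => rw [mulVec_add, dotProduct_add, h1, h2, add_zero]
  | smul_left r x y _ _ h1 => rw [smul_dotProduct, h1, smul_zero]
  | smul_right r x y _ _ h1 => rw [mulVec_smul, dotProduct_smul, h1, smul_zero]

theorem isq_l {M : Matrix n n Ω} {v v' : n → Ω} : Isq (M, 0) v v' ↔ v ⬝ᵥ M *ᵥ v' = 0 := by
  simp [Isq]

theorem isq_r {K : Matrix n n Ω} {v v' : n → Ω} :
    Isq (0, K) v v' ↔ v ⬝ᵥ (K + Kᵀ) *ᵥ v' = 0 ∧ v ⬝ᵥ K *ᵥ v = 0 := by
  simp [Isq, dot_addT]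

theorem oky_span : Oky J T (span Ω A : Submodule Ω (n → Ω)) ↔ Oky J T A := by
  refine ⟨fun h => ⟨fun v hv v' hv' => h.1 v (subset_span hv) v' (subset_span hv'),
    fun v hv => h.2 v (subset_span hv)⟩, fun h => ⟨fun v hv v' hv' => ?_, fun v hv j hj => ?_⟩⟩
  · have h2 := fun v hv v' hv' => (dot_addT J.2 v v').symm.trans
      (bil_span (fun x hx y hy => (dot_addT J.2 x y).trans (h.1 x hx y hy).2.1) (v := v) hv
        (v' := v') hv')
    refine ⟨bil_span (fun x hx y hy => (h.1 x hx y hy).1) hv hv', h2 v hv v' hv', ?_⟩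
    clear hv'
    induction hv using span_induction with
    | mem x hx => exact (h.1 x hx x hx).2.2
    | zero => exact zero_dotProduct _
    | add x y hx hy h3 h4 =>
      rw [mulVec_add, add_dotProduct, dotProduct_add, dotProduct_add]
      linear_combination h3 + h4 + h2 x hx y hy
    | smul r x _ h3 => rw [mulVec_smul, smul_dotProduct, dotProduct_smul, h3, smul_zero, smul_zero]
  · induction hv using span_induction with
    | mem x hx => exact h.2 x hx j hj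
    | zero => rfl
    | add x y _ _ h1 h2 => rw [Pi.add_apply, h1, h2, add_zero]
    | smul r x _ h1 => rw [Pi.smul_apply, h1, smul_zero]

theorem Oky.mono (h : Oky J T A) (e : B ⊆ A) : Oky J T B :=
  ⟨fun v hv v' hv' => h.1 v (e hv) v' (e hv'), fun v hv => h.2 v (e hv)⟩

theorem lvs_top (x : Fin i → n → Ω) : lvs x i = span Ω (Set.range x) := by
  rw [lvs, show {a : Fin i | a.val < i} = Set.univ from Set.eq_univ_of_forall fun a => a.2,
    Set.image_univ]

theorem lvs_mono (x : Fin i → n → Ω) {l l' : ℕ} (h : l ≤ l') : lvs x l ≤ lvs x l' :=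
  span_mono (Set.image_mono fun _ ha => lt_of_lt_of_le ha h)

theorem finrank_lvs (h : LinearIndependent Ω x) {l : ℕ} (hl : l ≤ i) :
    Module.finrank Ω (lvs x l) = l := by
  have e : x '' {a | a.val < l} = Set.range (x ∘ Fin.castLE hl) := by
    ext v
    constructor
    · rintro ⟨a, ha, rfl⟩
      exact ⟨⟨a.val, ha⟩, rfl⟩
    · rintro ⟨a, rfl⟩
      exact ⟨Fin.castLE hl a, a.2, rfl⟩
  rw [lvs, e, finrank_span_eq_card (h.comp _ (Fin.castLE_injective hl)), Fintype.card_fin]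

theorem lvs_succ (x : Fin (i + 1) → n → Ω) :
    lvs x (i + 1) = lvs x i ⊔ span Ω {x (Fin.last i)} := by
  rw [lvs, lvs, ← span_union, ← Set.image_singleton, ← Set.image_union]
  congr 2
  ext a
  simp only [Set.mem_ofPred_eq, Set.mem_union, Set.mem_singleton_iff, Fin.ext_iff, Fin.val_last]
  omega

theorem lvs_init (x : Fin (i + 1) → n → Ω) {l : ℕ} (hl : l ≤ i) :
    lvs (Fin.init x) l = lvs x l := by
  rw [lvs, lvs]
  congr 1
  ext v
  constructor
  · rintro ⟨a, ha, rfl⟩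
    exact ⟨a.castSucc, ha, rfl⟩
  · rintro ⟨a, ha, rfl⟩
    exact ⟨⟨a.val, lt_of_lt_of_le ha hl⟩, ha, rfl⟩

theorem mem_lvs_last {x : Fin (i + 1) → n → Ω} (h : LinearIndependent Ω x) {v : n → Ω}
    (hv : v ∈ lvs x (i + 1)) :
    v ∈ lvs x i ↔ cofy Ω x {a | a.val < i + 1} v (Fin.last i) = 0 := by
  have hB : {a : Fin (i + 1) | a.val < i} ⊆ {a | a.val < i + 1} :=
    fun a ha => Nat.lt_succ_of_lt ha
  refine (mem_span_cofy (h.linearIndepOn _) hv hB).trans
    ⟨fun h' => h' _ (Nat.lt_irrefl i), fun h' j hj => ?_⟩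
  have e : j = Fin.last i := Fin.ext (le_antisymm (Nat.lt_succ_iff.1 j.2) (Nat.le_of_not_lt hj))
  rw [e, h']

theorem Is.bsy_fin [Finite κ] {s D : ℕ} {R : ℤ → Prop} {f : ℤ → ℤ} (h : Is s D R f) (c : ℤ) :
    (bsy κ R f c).Finite := by
  refine (((h.fin c).image Sum.inl).union (Set.finite_range Sum.inr)).subset ?_
  rintro (b | b) hb
  · exact Or.inl ⟨b, hb, rfl⟩
  · exact Or.inr ⟨b, rfl⟩

theorem Is.bsy_add {s D : ℕ} {R : ℤ → Prop} {f : ℤ → ℤ} (h : Is s D R f) (c : ℤ) :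
    bsy κ R f (c + s) = Sum.map (· + (s : ℤ)) id '' bsy κ R f c := by
  ext j
  constructor
  · intro hj
    rcases j with b | b
    · refine ⟨Sum.inl (b - s), ?_, by simp⟩
      obtain ⟨h1, h2, h3⟩ := hj
      have e1 := h.perR (b - s)
      have e2 := h.perf (b - s)
      rw [sub_add_cancel] at e1 e2
      exact ⟨e1.1 h1, by omega, by omega⟩
    · exact ⟨Sum.inr b, trivial, rfl⟩
  · rintro ⟨b | b, hb, rfl⟩
    · obtain ⟨h1, h2, h3⟩ := hb
      have e2 := h.perf b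
      exact ⟨(h.perR b).2 h1, by show b + s ≤ c + s; omega, by show c + s ≤ f (b + s); omega⟩
    · trivial

end

end Pool.Agent.CXD
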