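import Pool.Agent.P.MP_2ce3e7_ag.SY2

/-! Elimination along a chain. -/

set_option linter.unusedSectionVars false
set_option linter.unusedVariables false

open Function Matrix Submodule

noncomputable section

namespace Pool.Agent.CXD
variable {k Ω : Type} [Field k] [Field Ω] [Algebra k Ω] {α : Type} [Af Ω α] {n I : Type}
  [Fintype n] {i : ℕ}

variable (k) in
/-- families of chains of frames; the top space moves only at the steps in `R` -/
structure Fcy (p : α → Prop) (x : α → ℤ → Fin (i + 1) → n → Ω) (R : ℤ → Prop) : Prop where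
  po : ∀ c, Pq k p fun a => x a c
  li : ∀ a c, p a → LinearIndependent Ω (x a c)
  eq : ∀ a c, p a → ¬R (c + 1) → lvs (x a c) (i + 1) = lvs (x a (c + 1)) (i + 1)
  die : ∀ a c, p a → R (c + 1) → ∀ v ∈ lvs (x a c) (i + 1),
    v ∈ lvs (x a (c + 1)) (i + 1) ↔ v ∈ lvs (x a c) i
  born : ∀ a c, p a → R (c + 1) → ∀ v ∈ lvs (x a (c + 1)) (i + 1),
    v ∈ lvs (x a c) (i + 1) ↔ v ∈ lvs (x a (c + 1)) i

/-- the vector `j` lives from `b j` to `f j` -/
def Echy {d : ℕ} (x : α → ℤ → Fin d → n → Ω) (b f : I → ℤ) (y : α × (I → n → Ω)) : Prop :=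
  ∀ j c, b j ≤ c → c ≤ f j → y.2 j ∈ lvs (x y.1 c) d

/-- the vector `j` dies after `f j` -/
def Pivy {d : ℕ} (x : α → ℤ → Fin d → n → Ω) (H : ℤ) (f : I → ℤ) (y : α × (I → n → Ω)) : Prop :=
  ∀ j, f j < H → y.2 j ∉ lvs (x y.1 (f j + 1)) d

variable {G : Gp Ω} {q : ℕ} [Sq k q] [IsAlgClosed Ω] {p : α → Prop}
  {x : α → ℤ → Fin (i + 1) → n → Ω} {R : ℤ → Prop} [Fintype I] [DecidableEq I]
  {P : α × (I → n → Ω) → Prop}

theorem po_SY3 (hx : Fcy k p x R) (hP : ∀ y, P y → p y.1) (c : ℤ) :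
    Pq k P fun y => x y.1 c := (hx.po c).pull Pq.id.fst hP

theorem Fcy.cr (hx : Fcy k p x R) (hP : ∀ y, P y → p y.1) (b f : I → ℤ) :
    Cr k P (Echy x b f) :=
  Cr.all fun j => Cr.all fun c => Cr.all fun _ => Cr.all fun _ =>
    Cr.span (po_SY3 hx hP c) (Pq.id.snd.eval j) _ fun y hy =>
      (hx.li _ c (hP y hy)).linearIndepOn _

theorem Fcy.lr (hx : Fcy k p x R) (hP : ∀ y, P y → p y.1) (H : ℤ) (f : I → ℤ) :
    Lr k P (Pivy x H f) :=
  Lr.all fun j => Lr.all fun _ =>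
    Lr.nspan (po_SY3 hx hP (f j + 1)) (Pq.id.snd.eval j) _ fun y hy =>
      (hx.li _ _ (hP y hy)).linearIndepOn _

theorem ech_SY3 {b f : I → ℤ} {m : I} (hm : b m ≤ f m) (y : α × (I → n → Ω)) :
    Echy x b (update f m (f m + 1)) y ↔
      Echy x b f y ∧ y.2 m ∈ lvs (x y.1 (f m + 1)) (i + 1) := by
  refine ⟨fun h => ⟨fun j c h1 h2 => h j c h1 ?_, h m _ (by omega) (by rw [update_self])⟩,
    fun h j c h1 h2 => ?_⟩
  · rcases eq_or_ne j m with rfl | e
    · rw [update_self]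
      omega
    · rwa [update_of_ne e]
  · rcases eq_or_ne j m with rfl | e
    · rw [update_self] at h2
      rcases h2.eq_or_lt with rfl | h3
      · exact h.2
      · exact h.1 j c h1 (by omega)
    · rw [update_of_ne e] at h2
      exact h.1 j c h1 h2

/-- the last coefficient of the vector `m` at time `e` -/
def lam_SY3 (x : α → ℤ → Fin (i + 1) → n → Ω) (e : ℤ) (m : I) (y : α × (I → n → Ω)) : Ω :=
  cofy Ω (x y.1 e) {a | a.val < i + 1} (y.2 m) (Fin.last i)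

theorem lam_po_SY3 (hx : Fcy k p x R) (hP : ∀ y, P y → p y.1) {e : ℤ} {m : I}
    (hm : ∀ y, P y → y.2 m ∈ lvs (x y.1 e) (i + 1)) : Pq k P (lam_SY3 x e m) :=
  (Pq.cof (po_SY3 hx hP e) (Pq.id.snd.eval m) _
    (fun y hy => (hx.li _ _ (hP y hy)).linearIndepOn _) hm).eval _

theorem lam_iff_SY3 (hx : Fcy k p x R) {b f : I → ℤ} {m : I} (hm : b m ≤ f m) (h4 : R (f m + 1))
    {y : α × (I → n → Ω)} (hy : p y.1) :
    Echy x b (update f m (f m + 1)) y ↔ Echy x b f y ∧ lam_SY3 x (f m) m y = 0 := by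
  rw [ech_SY3 hm]
  refine and_congr_right fun h => ?_
  have h1 := h m (f m) hm le_rfl
  rw [hx.die _ _ hy h4 _ h1, mem_lvs_last (hx.li _ _ hy) h1, lam_SY3]

/-- a collision: two vectors reach the same moving step -/
theorem Fcy.coll (hx : Fcy k p x R) (h : Au k q G) (c : Lc k P) (hP : ∀ y, P y → p y.1)
    {b f : I → ℤ} {j j' : I} (hj : j ≠ j') (h1 : b j' ≤ b j) (h2 : b j ≤ f j) (h3 : f j = f j')
    (h4 : R (f j + 1))
    (inv : ∀ y (t : Ω), P y → (∀ c, b j' ≤ c → c ≤ b j → y.2 j' ∈ lvs (x y.1 c) (i + 1)) →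
      P (y.1, update y.2 j (y.2 j + t • y.2 j')))
    (g1 : Gy k G fun y => P y ∧ Echy x b (update f j (f j + 1)) y)
    (g2 : Gy k G fun y => P y ∧ Echy x b (update f j' (f j' + 1)) y) :
    Gy k G fun y => P y ∧ Echy x b f y := by
  have h5 : b j' ≤ f j' := by omega
  have m1 : ∀ y, P y ∧ Echy x b f y → y.2 j ∈ lvs (x y.1 (f j)) (i + 1) :=
    fun y hy => hy.2 j _ h2 le_rfl
  have m2 : ∀ y, P y ∧ Echy x b f y → y.2 j' ∈ lvs (x y.1 (f j)) (i + 1) :=
    fun y hy => hy.2 j' _ (by omega) h3.le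
  have p1 := lam_po_SY3 hx (fun y (hy : P y ∧ Echy x b f y) => hP y hy.1) m1
  have p2 := lam_po_SY3 hx (fun y (hy : P y ∧ Echy x b f y) => hP y hy.1) m2
  have e2 : ∀ (y : α × (I → n → Ω)) v, lam_SY3 x (f j) j' (y.1, update y.2 j v) =
      lam_SY3 x (f j) j' y := fun y v => by simp only [lam_SY3, update_of_ne hj.symm]
  refine h.gsplit (c.land (hx.cr hP b f).lr) p2 (g2.congr fun y => ?_) ?_
  · rw [and_assoc, h3]
    exact and_congr_right fun hy => (lam_iff_SY3 hx h5 (h3 ▸ h4) (hP y hy)).symm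
  refine (h.gslice (g := lam_SY3 x (f j) j) (a := fun w => (w.1.1, update w.1.2 j
    (w.1.2 j + (w.2 * (lam_SY3 x (f j) j' w.1)⁻¹) • w.1.2 j'))) (p1.mono fun _ hy => hy.1) ?g1
    (fun y t hy => ⟨⟨inv y _ hy.1.1 fun c a1 a2 => hy.1.2 j' c a1 (by omega), ?g2⟩, ?g3⟩)
    (fun y hy => by simp) (fun y t t' hy => ?g4) fun y t hy => ?g5).2 ?g6
  case g1 =>
    exact Pq.id.fst.fst.mk (Pq.update j Pq.id.fst.snd ((Pq.id.fst.snd.eval j).vadd
      ((Pq.id.snd.mul ((p2.pull Pq.id.fst fun _ hy => hy.1).inv fun _ hy => hy.2)).vsmul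
        (Pq.id.fst.snd.eval j'))))
  case g2 =>
    intro m c a1 a2
    rcases eq_or_ne m j with rfl | e
    · simp only [update_self]
      exact add_mem (hy.1.2 m c a1 a2) (smul_mem _ _ (hy.1.2 j' c (by omega) (by omega)))
    · simp only [update_of_ne e]
      exact hy.1.2 m c a1 a2
  case g3 =>
    rw [e2]
    exact hy.2
  case g4 =>
    simp only [e2, update_idem, update_self, update_of_ne hj.symm, add_mul, add_smul, add_assoc]
  case g5 =>
    have := congrFun (cofy_add ((hx.li _ (f j) (hP y hy.1.1)).linearIndepOn _) (m1 y hy.1)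
      (m2 y hy.1) (t * (lam_SY3 x (f j) j' y)⁻¹)) (Fin.last i)
    simp only [lam_SY3, update_self] at this ⊢
    exact this.trans (congrArg₂ (· + ·) rfl (inv_mul_cancel_right₀ hy.2 t))
  case g6 =>
    refine (h.gopn (p2.mono fun y hy => ⟨hy.1, ((ech_SY3 h2 y).1 hy.2).1⟩) g1).congr fun y => ?_
    by_cases hy : P y
    · rw [lam_iff_SY3 hx h2 h4 (hP y hy)]
      tauto
    · tauto

end Pool.Agent.CXD
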