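import Pool.Agent.P.MP_2ce3e7_ag.SY3

/-! The elimination. -/

set_option linter.unusedSectionVars false
set_option linter.unusedVariables false

open Function Matrix Submodule

noncomputable section

namespace Pool.Agent.CXD
variable {k Ω : Type} [Field k] [Field Ω] [Algebra k Ω] {α : Type} [Af Ω α] {n I : Type}
  [Fintype n] {i : ℕ} {G : Gp Ω} {q : ℕ} [Sq k q] [IsAlgClosed Ω] {p : α → Prop}
  {x : α → ℤ → Fin (i + 1) → n → Ω} {R : ℤ → Prop} [Fintype I] [DecidableEq I]
  {P : α × (I → n → Ω) → Prop}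

theorem echy_up_SY3B {d : ℕ} {x : α → ℤ → Fin d → n → Ω} {b f f' : I → ℤ} {Z : I → Prop}
    (hf : ∀ j, b j ≤ f j) (h1 : ∀ j, Z j → f' j = f j + 1) (h2 : ∀ j, ¬Z j → f' j = f j)
    (y : α × (I → n → Ω)) :
    Echy x b f' y ↔ Echy x b f y ∧ ∀ j, Z j → y.2 j ∈ lvs (x y.1 (f j + 1)) d := by
  refine ⟨fun H => ⟨fun j c hc hc' => H j c hc ?_, fun j hj => H j _ ?_ (h1 j hj).ge⟩,
    fun H j c hc hc' => ?_⟩
  · by_cases hj : Z j
    · rw [h1 j hj]; omega
    · rw [h2 j hj]; exact hc'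
  · have := hf j
    omega
  · by_cases hj : Z j
    · rw [h1 j hj] at hc'
      rcases hc'.eq_or_lt with e | e
      · rw [e]; exact H.2 j hj
      · exact H.1 j c hc (by omega)
    · rw [h2 j hj] at hc'
      exact H.1 j c hc hc'

theorem sum_lt_SY3B {H : ℤ} {f f' : I → ℤ} (h1 : ∀ j, f j ≤ f' j) (h2 : ∀ j, f' j ≤ H) (j : I)
    (hj : f j < f' j) : ∑ a, (H - f' a).toNat < ∑ a, (H - f a).toNat :=
  Finset.sum_lt_sum (fun a _ => by have := h1 a; omega)
    ⟨j, Finset.mem_univ _, by have := h2 j; omega⟩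

/-- the elimination -/
theorem Fcy.ech (hx : Fcy k p x R) (h : Au k q G) (c : Lc k P) (hP : ∀ y, P y → p y.1)
    (b : I → ℤ) (o : I → ℕ) (ho : Injective o) (hb : ∀ j j', o j' < o j → b j' ≤ b j) (H : ℤ)
    (inv : ∀ j j' y (t : Ω), o j' < o j → b j < H → P y →
      (∀ c, b j' ≤ c → c ≤ b j → y.2 j' ∈ lvs (x y.1 c) (i + 1)) →
      P (y.1, update y.2 j (y.2 j + t • y.2 j')))
    (fin : ∀ f : I → ℤ, (∀ j, b j ≤ f j ∧ f j ≤ H) → (∀ j j', f j < H → f j = f j' → j = j') →
      Gy k G fun y => P y ∧ Echy x b f y ∧ Pivy x H f y)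
    (f : I → ℤ) (hf : ∀ j, b j ≤ f j ∧ f j ≤ H) : Gy k G fun y => P y ∧ Echy x b f y := by
  classical
  have hM : ∀ (S : α × (I → n → Ω) → Prop) (a : ℤ),
      Pq k (fun y => P y ∧ S y) fun y : α × (I → n → Ω) => x y.1 a := fun S a =>
    (hx.po a).pull (Pq.fst Pq.id) fun y hy => hP y hy.1
  have hv : ∀ (S : α × (I → n → Ω) → Prop) (j : I),
      Pq k S fun y : α × (I → n → Ω) => y.2 j := fun S j => (Pq.snd Pq.id).eval j
  generalize hN : ∑ a, (H - f a).toNat = N
  induction N using Nat.strong_induction_on generalizing f with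
  | _ N ih =>
    have IH : ∀ (f' : I → ℤ) (Z : I → Prop), (∀ j, Z j → f j < H) → (∀ j, Z j → f' j = f j + 1) →
        (∀ j, ¬Z j → f' j = f j) → (∃ j, Z j) → Gy k G fun y => (P y ∧ Echy x b f y) ∧
          ∀ j, Z j → y.2 j ∈ lvs (x y.1 (f j + 1)) (i + 1) := by
      rintro f' Z h0 h1 h2 ⟨j, hj⟩
      have e : ∀ j, f j ≤ f' j ∧ f' j ≤ H := fun j => by
        by_cases hj : Z j
        · have := h0 j hj
          rw [h1 j hj]; omega
        · rw [h2 j hj]; exact ⟨le_rfl, (hf j).2⟩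
      refine (ih _ (hN ▸ sum_lt_SY3B (fun j => (e j).1) (fun j => (e j).2) j
        (by rw [h1 j hj]; omega)) f' (fun j => ⟨(hf j).1.trans (e j).1, (e j).2⟩) rfl).congr
        fun y => ?_
      rw [echy_up_SY3B (fun j => (hf j).1) h1 h2, and_assoc]
    have IH1 : ∀ j, f j < H → Gy k G fun y => (P y ∧ Echy x b f y) ∧
        y.2 j ∈ lvs (x y.1 (f j + 1)) (i + 1) := fun j hj =>
      (IH (update f j (f j + 1)) (fun a => a = j) (fun a e => e ▸ hj)
        (fun a e => by rw [e, update_self]) (fun a e => update_of_ne e _ _) ⟨j, rfl⟩).congr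
        fun y => by simp
    have IH2 : ∀ j, f j < H → Gy k G fun y => P y ∧ Echy x b (update f j (f j + 1)) y :=
      fun j hj => (IH1 j hj).congr fun y => by
        rw [echy_up_SY3B (Z := fun a => a = j) (fun j => (hf j).1)
          (fun a e => by rw [e, update_self]) (fun a e => update_of_ne e _ _), and_assoc]
        simp
    by_cases hi : ∀ j j', f j < H → f j = f j' → j = j'
    · refine h.gzps (T := {j // f j < H}) (M := fun t y => x y.1 (f t.1 + 1))
        (v := fun t y => y.2 t.1) (Lr.land c (hx.cr hP b f).lr) (fun t => hM _ _)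
        (fun t => hv _ _) (fun _ => {a | a.val < i + 1})
        (fun t y hy => (hx.li _ _ (hP y hy.1)).linearIndepOn _) fun Z => ?_
      rcases Z.eq_empty_or_nonempty with e | ⟨t, ht⟩
      · refine (fin f hf hi).congr fun y => ?_
        rw [e, and_assoc]
        refine and_congr_right fun _ => and_congr_right fun _ => ?_
        exact ⟨fun H' j hj hm => (H' ⟨j, hj⟩).1 hm, fun H' t => iff_of_false (H' t.1 t.2) id⟩
      · have g := IH (fun j => if ∃ e : f j < H, (⟨j, e⟩ : {j // f j < H}) ∈ Z then f j + 1 else f j)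
          (fun j => ∃ e : f j < H, (⟨j, e⟩ : {j // f j < H}) ∈ Z) (fun j e => e.1)
          (fun j e => if_pos e) (fun j e => if_neg e) ⟨t.1, t.2, ht⟩
        refine (h.gnspans (T := {t : {j // f j < H} // t ∉ Z}) (M := fun t y => x y.1 (f t.1.1 + 1))
          (v := fun t y => y.2 t.1.1) (fun t => (hM _ _).mono fun _ hy => hy.1) (fun t => hv _ _)
          (fun _ => {a | a.val < i + 1})
          (fun t y hy => (hx.li _ _ (hP y hy.1.1)).linearIndepOn _) g).congr fun y => ?_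
        refine ⟨fun H' => ⟨⟨H'.1, fun j hj => (H'.2 ⟨j, hj.1⟩).2 hj.2⟩,
          fun t hm => t.2 ((H'.2 t.1).1 hm)⟩, fun H' => ⟨H'.1.1, fun t => ⟨fun hm => ?_,
          fun hm => H'.1.2 t.1 ⟨t.2, hm⟩⟩⟩⟩
        by_contra hn
        exact H'.2 ⟨t, hn⟩ hm
    · have key : ∀ j j', f j < H → f j = f j' → j ≠ j' → o j' < o j →
          Gy k G fun y => P y ∧ Echy x b f y := by
        intro j j' h1 h2 h3 h4
        by_cases hR : R (f j + 1)
        · exact hx.coll h c hP h3 (hb j j' h4) (hf j).1 h2 hR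
            (fun y t hy hc => inv j j' y t h4 ((hf j).1.trans_lt h1) hy hc) (IH2 j h1)
            (IH2 j' (h2 ▸ h1))
        · refine (IH1 j h1).congr fun y => ⟨fun hy => ⟨hy, ?_⟩, fun hy => hy.1⟩
          rw [← hx.eq _ _ (hP y hy.1) hR]
          exact hy.2 j _ (hf j).1 le_rfl
      push Not at hi
      obtain ⟨j, j', h1, h2, h3⟩ := hi
      rcases lt_or_gt_of_ne (ho.ne h3) with e | e
      · exact key j' j (h2 ▸ h1) h2.symm h3.symm e
      · exact key j j' h1 h2 h3 e

end Pool.Agent.CXD
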