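import Pool.Agent.P.MP_2ce3e7_ag.SY3B

/-! The auxiliary vectors. -/

set_option linter.unusedSectionVars false
set_option linter.unusedVariables false

open Function Matrix Submodule

noncomputable section

namespace Pool.Agent.CXD
variable {k Ω : Type} [Field k] [Field Ω] [Algebra k Ω] {α : Type} [Af Ω α] {n : Type}
  [Fintype n] {i : ℕ}

/-- a basis of the space at `-1` and one new vector for each moving step of a period -/
def Ghy {d : ℕ} (s : ℕ) (p : α → Prop) (x : α → ℤ → Fin d → n → Ω) (R : ℤ → Prop)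
    (y : α × (Fin d ⊕ ZMod s → n → Ω)) : Prop :=
  p y.1 ∧ (LinearIndependent Ω fun g => y.2 (.inl g)) ∧ ∀ b : ZMod s,
    (R b.val → y.2 (.inr b) ∉ lvs (x y.1 (b.val - 1)) d) ∧ (¬R b.val → y.2 (.inr b) = 0)

open Classical in
/-- birth times -/
def bthy (d s : ℕ) (R : ℤ → Prop) (H : ℤ) : Fin d ⊕ ZMod s → ℤ :=
  Sum.elim (fun _ => -1) fun b => if R b.val then b.val else H

variable {G : Gp Ω} {q s : ℕ} [NeZero s] [Sq k q] [IsAlgClosed Ω] {p : α → Prop}
  {x : α → ℤ → Fin (i + 1) → n → Ω} {R : ℤ → Prop}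

theorem Fcy.lc_gh (hx : Fcy k p x R) (c : Lc k p) : Lc k (Ghy s p x R) := by
  refine (c.fst _).land (Lr.and (Lr.li (Pq.pi fun g => (Pq.snd Pq.id).eval _)) (Lr.all fun b => ?_))
  by_cases hb : R b.val
  · exact (Lr.nspan ((hx.po (b.val - 1)).pull (Pq.fst Pq.id) fun _ h => h)
      ((Pq.snd Pq.id).eval (Sum.inr b)) {a | a.val < i + 1}
      fun y hy => (hx.li _ _ hy).linearIndepOn _).congr fun y _ =>
        ⟨fun h => h.1 hb, fun h => ⟨fun _ => h, fun h' => absurd hb h'⟩⟩
  · exact (Lr.eq ((Pq.snd Pq.id).eval (Sum.inr b)) (Pq.const 0)).congr fun y _ =>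
      ⟨fun h => h.2 hb, fun h => ⟨fun h' => absurd h' hb, fun _ => h⟩⟩

theorem li_SY4 {ι κ : Type} [Fintype ι] {v : ι → n → Ω} (hv : LinearIndependent Ω v)
    (y : κ → ι → Ω) :
    (LinearIndependent Ω fun g => ∑ j, y g j • v j) ↔ LinearIndependent Ω y :=
  LinearMap.linearIndependent_iff (v := y) (Fintype.linearCombination Ω v)
    (LinearMap.ker_eq_bot'.2 fun t ht => funext (Fintype.linearIndependent_iff.1 hv t ht))

theorem Fcy.new_SY4 (hx : Fcy k p x R) {a : α} (ha : p a) {c : ℤ} (hc : R c)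
    (t : Fin (i + 1) → Ω) :
    ∑ j, t j • x a c j ∈ lvs (x a (c - 1)) (i + 1) ↔ t (Fin.last i) = 0 := by
  have h1 : ∑ j, t j • x a c j ∈ lvs (x a c) (i + 1) :=
    mem_span_sup.2 ⟨t, fun j hj => absurd j.2 hj, rfl⟩
  have h2 := hx.born a (c - 1) ha (by rwa [sub_add_cancel])
  rw [sub_add_cancel] at h2
  rw [h2 _ h1, mem_lvs_last (hx.li a c ha) h1,
    cofy_eq ((hx.li a c ha).linearIndepOn {a | a.val < i + 1}) fun j hj => absurd j.2 hj]

theorem Fcy.ghost (hx : Fcy k p x R) (h : Au k q G) (H : ℤ)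
    (hp : Gy k G fun y => Ghy s p x R y ∧ Echy x (bthy _ s R H) (bthy _ s R H) y) :
    Gy k G p := by
  have h1 := (h.gcof (T := Fin (i + 1) ⊕ ZMod s) (M := fun t a => x a (bthy _ s R H t))
    (fun t => hx.po _) (fun _ => {a | a.val < i + 1})
    (fun t a ha => (hx.li a _ ha).linearIndepOn _) (Ghy s p x R)).1 (hp.congr fun y =>
      ⟨fun hy => ⟨hy.2.2, fun j c h1 h2 => le_antisymm h1 h2 ▸ hy.2.1 j⟩,
        fun hy => ⟨hy.1.1, fun t => hy.2 t _ le_rfl le_rfl, hy.1⟩⟩)
  have h2 : Gy k G fun y : α × (Fin (i + 1) ⊕ ZMod s → Fin (i + 1) → Ω) =>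
      (p y.1 ∧ LinearIndependent Ω fun g => y.2 (.inl g)) ∧ ∀ b : ZMod s,
        (R b.val → y.2 (.inr b) (Fin.last i) ≠ 0) ∧ (¬R b.val → y.2 (.inr b) = 0) := by
    refine h1.congr fun y => ?_
    rw [and_assoc]
    refine and_congr_right fun hy => ?_
    rw [and_iff_right fun t j hj => absurd j.2 hj, Ghy, and_iff_right hy]
    refine and_congr (li_SY4 (hx.li _ _ hy) _).symm (forall_congr' fun b => and_congr
      (forall_congr' fun hb => ?_) (forall_congr' fun hb => ?_))
    · simp only [bthy, Sum.elim_inr, if_pos hb]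
      exact (hx.new_SY4 hy hb _).not.symm
    · exact ⟨fun e => by simp only [e, Pi.zero_apply, zero_smul, Finset.sum_const_zero],
        fun e => funext (Fintype.linearIndependent_iff.1 (hx.li _ _ hy) _ e)⟩
  refine h.gunli (ι := Fin (i + 1)) (h.gunrow (T := ZMod s) (fun b => R b.val) (Fin.last i)
    (h.giso (fun y => ((y.1, fun g => y.2 (.inl g)), fun b => y.2 (.inr b)))
      (fun z => (z.1.1, Sum.elim z.1.2 z.2))
      (((Pq.fst Pq.id).mk (Pq.pi fun g => (Pq.snd Pq.id).eval _)).mk
        (Pq.pi fun b => (Pq.snd Pq.id).eval _))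
      ((Pq.fst (Pq.fst Pq.id)).mk ((Pq.snd (Pq.fst Pq.id)).elim (Pq.snd Pq.id)))
      (fun _ hy => hy) (fun _ hz => hz) (fun y _ => Prod.ext rfl (funext fun j => ?_))
      (fun _ _ => rfl) h2))
  rcases j with j | j <;> rfl

theorem add_SY4 {ι : Type} [Fintype ι] [DecidableEq ι] {v : ι → n → Ω}
    (hv : LinearIndependent Ω v) {g g' : ι} (hg : g ≠ g') (t : Ω) :
    LinearIndependent Ω (update v g (v g + t • v g')) := by
  refine Fintype.linearIndependent_iff.2 fun c hc => ?_
  have e1 : ∀ a, c a • update v g (v g + t • v g') a =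
      c a • v a + (Pi.single g (c g * t) : ι → Ω) a • v g' := fun a => by
    by_cases ha : a = g
    · rw [ha, update_self, Pi.single_eq_same, smul_add, smul_smul]
    · rw [update_of_ne ha, Pi.single_eq_of_ne ha, zero_smul, add_zero]
  have e2 : ∑ a, (c + (Pi.single g' (c g * t) : ι → Ω)) a • v a = 0 := by
    rw [← hc]
    simp only [e1, Pi.add_apply, add_smul, Finset.sum_add_distrib, Pi.single_apply, ite_smul,
      zero_smul, Finset.sum_ite_eq', Finset.mem_univ, if_true]
  have e3 := Fintype.linearIndependent_iff.1 hv _ e2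
  have e4 : c g = 0 := by
    have := e3 g
    rwa [Pi.add_apply, Pi.single_eq_of_ne hg, add_zero] at this
  intro a
  have := e3 a
  rwa [e4, zero_mul, Pi.single_zero, add_zero] at this

theorem Fcy.strata (hx : Fcy k p x R) (h : Au k q G) (c : Lc k p) (H : ℤ) (hH : (s : ℤ) ≤ H)
    (fin : ∀ f : Fin (i + 1) ⊕ ZMod s → ℤ, (∀ j, bthy _ s R H j ≤ f j ∧ f j ≤ H) →
      (∀ j j', f j < H → f j = f j' → j = j') →
      Gy k G fun y => Ghy s p x R y ∧ Echy x (bthy _ s R H) f y ∧ Pivy x H f y) :
    Gy k G p := by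
  classical
  let o : Fin (i + 1) ⊕ ZMod s → ℕ :=
    Sum.elim (fun g => g.val) fun b => i + 1 + if R b.val then b.val else s + b.val
  have hv : ∀ b : ZMod s, b.val < s := fun b => ZMod.val_lt b
  refine hx.ghost h H (hx.ech h (hx.lc_gh c) (fun y hy => hy.1) _ o (fun j j' e => ?_)
    (fun j j' e => ?_) H (fun j j' y t e hj hy hc => ?_) fin _ fun j => ⟨le_rfl, ?_⟩)
  · rcases j with g | b <;> rcases j' with g' | b' <;> simp only [o, Sum.elim_inl, Sum.elim_inr] at e
    · rw [Fin.ext e]
    · exact absurd g.2 (by omega)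
    · exact absurd g'.2 (by omega)
    · have := hv b
      have := hv b'
      rw [ZMod.val_injective s (show b.val = b'.val by split_ifs at e <;> omega)]
  · rcases j with g | b <;> rcases j' with g' | b' <;>
      simp only [o, bthy, Sum.elim_inl, Sum.elim_inr] at e ⊢
    · exact le_rfl
    · exact absurd g.2 (by omega)
    · split_ifs <;> omega
    · have := hv b
      have := hv b'
      split_ifs at e ⊢ <;> omega
  · rcases j with g | b
    · rcases j' with g' | b'
      · refine ⟨hy.1, ?_, fun b => ?_⟩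
        · have e1 : (fun a => update y.2 (.inl g) (y.2 (.inl g) + t • y.2 (.inl g')) (.inl a)) =
              update (fun a => y.2 (.inl a)) g (y.2 (.inl g) + t • y.2 (.inl g')) :=
            update_comp_eq_of_injective y.2 Sum.inl_injective g _
          simp only [e1]
          exact add_SY4 hy.2.1 (fun e2 => by rw [e2] at e; exact lt_irrefl _ e) t
        · simp only [update_of_ne (Sum.inr_ne_inl (a := g) (b := b))]
          exact hy.2.2 b
      · simp only [o, Sum.elim_inl, Sum.elim_inr] at e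
        exact absurd g.2 (by omega)
    · have hb : R b.val := by
        by_contra hb
        simp only [bthy, Sum.elim_inr, if_neg hb] at hj
        exact lt_irrefl _ hj
      refine ⟨hy.1, ?_, fun b₀ => ?_⟩
      · simp only [fun a => update_of_ne (Sum.inl_ne_inr (a := a) (b := b))
          (y.2 (.inr b) + t • y.2 j') y.2]
        exact hy.2.1
      · by_cases e1 : b₀ = b
        · subst e1
          simp only [update_self]
          refine ⟨fun _ h1 => (hy.2.2 b₀).1 hb ((add_mem_cancel_right (smul_mem _ t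
            (hc _ ?_ ?_))).1 h1), fun h1 => absurd hb h1⟩
          · rcases j' with g' | b' <;> simp only [o, bthy, Sum.elim_inl, Sum.elim_inr, if_pos hb] at e ⊢
            · omega
            · have := hv b₀
              split_ifs at e ⊢ <;> omega
          · simp only [bthy, Sum.elim_inr, if_pos hb]
            omega
        · simp only [update_of_ne (Sum.inr_injective.ne e1)]
          exact hy.2.2 b₀
  · rcases j with g | b <;> simp only [bthy, Sum.elim_inl, Sum.elim_inr]
    · omega
    · have := hv b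
      split_ifs <;> omega

end Pool.Agent.CXD
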