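import Pool.Agent.P.MP_2ce3e7_ag.SY2
import Pool.Agent.P.MP_2ce3e7_ag.SW0

/-! Chains of subspaces. -/

set_option linter.unusedSectionVars false
set_option linter.unusedVariables false

open Function Matrix Submodule

noncomputable section

namespace Pool.Agent.CXD
variable {k Ω : Type} [Field k] [Field Ω] [Algebra k Ω] {n κ I : Type} [Fintype n]

/-- periodic chains of subspaces; neighbours are equal or meet in a hyperplane -/
structure Chy (F : Equiv.Perm (n → Ω)) (s d : ℕ) (R : ℤ → Prop)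
    (L : ℤ → Submodule Ω (n → Ω)) : Prop where
  per : ∀ c v, F v ∈ L (c + s) ↔ v ∈ L c
  perR : ∀ c, R (c + s) ↔ R c
  dim : ∀ c, Module.finrank Ω (L c) = d
  eq : ∀ c, ¬R (c + 1) → L c = L (c + 1)
  hyp : ∀ c v z, v ∈ L (c + 1) → v ∉ L c → z ∈ L (c + 1) → ∃ t : Ω, z - t • v ∈ L c

/-- `v` lives from `a` to `e` -/
def Liv (L : ℤ → Submodule Ω (n → Ω)) (a e : ℤ) (v : n → Ω) : Prop := ∀ c, a ≤ c → c ≤ e → v ∈ L c

variable {q s d : ℕ} [Sq k q] [IsAlgClosed Ω] [NeZero s] {F : Equiv.Perm (n → Ω)} {R : ℤ → Prop}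
  {L : ℤ → Submodule Ω (n → Ω)}

/-- the vectors that live from `a` to `e` -/
def lifeS_SY5 (L : ℤ → Submodule Ω (n → Ω)) (a e : ℤ) : Submodule Ω (n → Ω) where
  carrier := {v | Liv L a e v}
  add_mem' hx hy c h1 h2 := (L c).add_mem (hx c h1 h2) (hy c h1 h2)
  zero_mem' c _ _ := (L c).zero_mem
  smul_mem' t _ hx c h1 h2 := (L c).smul_mem t (hx c h1 h2)

theorem rk_le_SY5 {U U' : Submodule Ω (n → Ω)} (G : (n → Ω) → n → Ω) (h1 : ∀ v ∈ U, G v ∈ U')
    (h2 : ∀ x : Fin (Module.finrank Ω U) → n → Ω, LinearIndependent Ω x →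
      LinearIndependent Ω fun i => G (x i)) : Module.finrank Ω U ≤ Module.finrank Ω U' := by
  have e1 := h2 _ ((Module.finBasis Ω U).linearIndependent.map' U.subtype U.ker_subtype)
  have e2 : LinearIndependent Ω fun i =>
      (⟨G (Module.finBasis Ω U i), h1 _ (Module.finBasis Ω U i).2⟩ : U') :=
    LinearIndependent.of_comp U'.subtype e1
  simpa using e2.fintype_card_le_finrank

theorem rk_eq_SY5 (hF : Sem k q F) {U U' : Submodule Ω (n → Ω)} (h : ∀ v, F v ∈ U' ↔ v ∈ U) :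
    Module.finrank Ω U = Module.finrank Ω U' := by
  refine le_antisymm (rk_le_SY5 F (fun v hv => (h v).2 hv) fun x hx => ?_)
    (rk_le_SY5 F.symm (fun v hv => (h _).1 (by rwa [F.apply_symm_apply])) fun x hx => ?_)
  · exact linearIndepOn_univ_iff.1 ((hF.lion x Set.univ).2 (linearIndepOn_univ_iff.2 hx))
  · refine linearIndepOn_univ_iff.1 ((hF.lion (fun i => F.symm (x i)) Set.univ).1 ?_)
    simp only [F.apply_symm_apply]
    exact linearIndepOn_univ_iff.2 hx

theorem Chy.life_SY5 (h : Chy F s d R L) (a e : ℤ) (v : n → Ω) :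
    F v ∈ lifeS_SY5 L (a + s) (e + s) ↔ v ∈ lifeS_SY5 L a e := by
  refine ⟨fun hv c h1 h2 => (h.per c v).1 (hv _ (by omega) (by omega)), fun hv c h1 h2 => ?_⟩
  have := (h.per (c - s) v).2 (hv _ (by omega) (by omega))
  rwa [sub_add_cancel] at this

/-- long lives are eternal -/
theorem Chy.hor (h : Chy F s d R L) (hF : Sem k q F) {a : ℤ} {v : n → Ω}
    (hv : Liv L a (a + (d + 1) * s) v) (c : ℤ) : v ∈ L c := by
  have hs : (0 : ℤ) ≤ s := Int.natCast_nonneg s
  have mono : ∀ {x y x' y' : ℤ}, x' ≤ x → y ≤ y' → lifeS_SY5 L x' y' ≤ lifeS_SY5 L x y :=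
    fun h1 h2 w hw c h3 h4 => hw c (h1.trans h3) (h4.trans h2)
  have hj : ∃ j : ℕ, j ≤ d ∧ Module.finrank Ω (lifeS_SY5 L a (a + j * s)) ≤
      Module.finrank Ω (lifeS_SY5 L a (a + (j + 1) * s)) := by
    by_contra hc
    push Not at hc
    have key : ∀ j : ℕ, j ≤ d + 1 → Module.finrank Ω (lifeS_SY5 L a (a + j * s)) + j ≤ d := by
      intro j
      induction j with
      | zero =>
        intro _
        rw [← h.dim a]
        exact Submodule.finrank_mono fun w hw => hw a le_rfl (by simp)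
      | succ j ih =>
        intro h1
        have h2 := hc j (by omega)
        have h3 := ih (by omega)
        push_cast
        omega
    have := key (d + 1) le_rfl
    omega
  obtain ⟨j, hjd, hj⟩ := hj
  have hj0 : (0 : ℤ) ≤ j := Int.natCast_nonneg j
  have hjd' : (j : ℤ) ≤ d := by exact_mod_cast hjd
  have e1 : lifeS_SY5 L a (a + (j + 1) * s) = lifeS_SY5 L a (a + j * s) :=
    Submodule.eq_of_le_of_finrank_le (mono le_rfl (by nlinarith)) hj
  have e2 : ∀ w, F w ∈ lifeS_SY5 L a (a + j * s) ↔ w ∈ lifeS_SY5 L (a - s) (a + j * s) := by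
    intro w
    rw [← h.life_SY5 (a - s), sub_add_cancel, ← e1, show a + j * s + s = a + (j + 1) * s by ring]
  have e3 : lifeS_SY5 L (a - s) (a + j * s) = lifeS_SY5 L a (a + j * s) :=
    Submodule.eq_of_le_of_finrank_eq (mono (by omega) le_rfl) (rk_eq_SY5 hF e2)
  rw [e3] at e2
  refine per_ind s (P := fun c => ∀ w ∈ lifeS_SY5 L a (a + j * s), w ∈ L c) (fun c => ?_) a
    (fun c h1 h2 w hw => ?_) c v (mono le_rfl (by nlinarith) hv)
  · refine ⟨fun h1 w hw => (h.per c w).1 (h1 _ ((e2 w).2 hw)), fun h1 w hw => ?_⟩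
    have := (h.per c (F.symm w)).2 (h1 _ ((e2 _).1 (by rwa [F.apply_symm_apply])))
    rwa [F.apply_symm_apply] at this
  · rw [← e1] at hw
    exact hw c h1 (by nlinarith)

/-- the eternal vectors have a basis of fixed vectors -/
theorem Chy.rat (h : Chy F s d R L) (hF : Sem k q F) : ∃ ν ≤ d, ∃ u : Fin ν → n → Ω,
    LinearIndependent Ω u ∧ (∀ a, F (u a) = u a) ∧ (∀ a c, u a ∈ L c) ∧
      ∀ v, (∀ c, v ∈ L c) → v ∈ span Ω (Set.range u) := by
  let U : Submodule Ω (n → Ω) := ⨅ c, L c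
  have hU : ∀ v, v ∈ U ↔ ∀ c, v ∈ L c := fun v => Submodule.mem_iInf _
  have hFU : ∀ v ∈ U, F v ∈ U := fun v hv => (hU _).2 fun c => by
    have := (h.per (c - s) v).2 ((hU v).1 hv _)
    rwa [sub_add_cancel] at this
  have e1 := gl_lang k (V := U) (fun v => ⟨F v, hFU v v.2⟩) (fun x y => Subtype.ext (hF.add x y))
    (fun t x => Subtype.ext (hF.smul t x))
    fun x y e => Subtype.ext (F.injective (congrArg Subtype.val e))
  obtain ⟨u, h1, h2, h3⟩ := Submodule.exists_fun_fin_finrank_span_eq Ω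
    {v : n → Ω | F v = v ∧ ∀ c, v ∈ L c}
  refine ⟨_, ?_, u, h3, fun a => (h1 a).1, fun a => (h1 a).2, fun v hv => ?_⟩
  · rw [← h.dim 0]
    exact Submodule.finrank_mono (span_le.2 fun v hv => hv.2 0)
  · have e2 : (⟨v, (hU v).2 hv⟩ : U) ∈ span Ω _ := e1 ▸ Submodule.mem_top
    have e3 := Submodule.mem_map_of_mem (f := U.subtype) e2
    rw [Submodule.map_span] at e3
    rw [h2]
    refine span_mono ?_ e3
    rintro _ ⟨x, hx, rfl⟩
    exact ⟨congrArg Subtype.val hx, (hU _).1 x.2⟩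

/-- spanning in a window -/
theorem Chy.win (h : Chy F s d R L) {Z : I → n → Ω} {b f : I → ℤ} {a₀ a₁ H : ℤ} (h0 : a₁ ≤ H)
    (h1 : L a₀ ≤ span Ω (Z '' {j | b j ≤ a₀ ∧ a₀ ≤ f j}))
    (h2 : ∀ c, a₀ < c → c ≤ a₁ → R c → ∃ j, b j = c ∧ c ≤ f j ∧ Z j ∉ L (c - 1))
    (h3 : ∀ j, Liv L (b j) (f j) (Z j)) (h4 : ∀ j j', f j < H → f j = f j' → j = j')
    (h5 : ∀ j, f j < H → Z j ∉ L (f j + 1)) {a e : ℤ} (ha : a₀ ≤ a) (ha' : a ≤ a₁) (he : a ≤ e)
    (he' : e ≤ H) {v : n → Ω} (hv : Liv L a e v) :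
    v ∈ span Ω (Z '' {j | b j ≤ a ∧ e ≤ f j}) := by
  have step : ∀ a e : ℤ, a ≤ e → e < H →
      (∀ v, Liv L a e v → v ∈ span Ω (Z '' {j | b j ≤ a ∧ e ≤ f j})) →
      ∀ v, Liv L a (e + 1) v → v ∈ span Ω (Z '' {j | b j ≤ a ∧ e + 1 ≤ f j}) := by
    intro a e k1 k2 ih v hv
    have e1 := ih v fun c k3 k4 => hv c k3 (by omega)
    by_cases hj : ∃ j, f j = e
    · obtain ⟨j, hj⟩ := hj
      have e2 : v ∈ span Ω (insert (Z j) (Z '' {j | b j ≤ a ∧ e + 1 ≤ f j})) := by
        refine span_mono ?_ e1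
        rintro _ ⟨j', ⟨k3, k4⟩, rfl⟩
        by_cases k5 : f j' = e
        · exact Or.inl (by rw [h4 j j' (by omega) (by omega)])
        · exact Or.inr ⟨j', ⟨k3, by omega⟩, rfl⟩
      obtain ⟨t, w, hw, rfl⟩ := mem_span_insert.1 e2
      have e3 : w ∈ L (e + 1) := by
        refine span_le.2 ?_ hw
        rintro _ ⟨j', ⟨k3, k4⟩, rfl⟩
        exact h3 j' _ (by omega) k4
      by_cases ht : t = 0
      · rwa [ht, zero_smul, zero_add]
      · have e4 := ((L (e + 1)).add_mem_iff_left e3).1 (hv (e + 1) (by omega) le_rfl)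
        exact absurd (((L (e + 1)).smul_mem_iff ht).1 e4) (hj ▸ h5 j (by omega))
    · refine span_mono (Set.image_mono fun j hj' => And.intro hj'.1 ?_) e1
      have k3 : f j ≠ e := fun k => hj ⟨j, k⟩
      have k4 := hj'.2
      omega
  have diag : ∀ a : ℤ, a₀ ≤ a → a ≤ a₁ →
      ∀ v, Liv L a a v → v ∈ span Ω (Z '' {j | b j ≤ a ∧ a ≤ f j}) := by
    intro a k1
    induction a, k1 using Int.le_induction with
    | base => exact fun _ v hv => h1 (hv _ le_rfl le_rfl)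
    | succ a k1 ih =>
      intro k2 v hv
      have e0 := hv _ le_rfl le_rfl
      have e1 : ∀ w, w ∈ L a → w ∈ L (a + 1) →
          w ∈ span Ω (Z '' {j | b j ≤ a + 1 ∧ a + 1 ≤ f j}) := fun w k3 k4 =>
        span_mono (Set.image_mono fun j hj => And.intro (hj.1.trans (by omega)) hj.2)
          (step a a le_rfl (by omega) (ih (by omega)) w fun c k5 k6 => by
            rcases (by omega : c = a ∨ c = a + 1) with rfl | rfl
            exacts [k3, k4])
      by_cases hR : R (a + 1)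
      · obtain ⟨j, k3, k4, k5⟩ := h2 (a + 1) (by omega) k2 hR
        rw [add_sub_cancel_right] at k5
        have k6 : Z j ∈ L (a + 1) := h3 j _ k3.le k4
        obtain ⟨t, ht⟩ := h.hyp a (Z j) v k6 k5 e0
        have e2 := add_mem (e1 _ ht (sub_mem e0 (smul_mem _ t k6)))
          (smul_mem _ t (subset_span ⟨j, ⟨k3.le, k4⟩, rfl⟩))
        rwa [sub_add_cancel] at e2
      · exact e1 v (h.eq a hR ▸ e0) e0
  revert v
  induction e, he using Int.le_induction with
  | base => exact fun hv => diag a ha ha' _ hv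
  | succ e he ih => exact fun hv => step a e he (by omega) (fun v hv => ih (by omega) hv) _ hv

end Pool.Agent.CXD
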