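import Pool.Agent.P.MP_2ce3e7_ag.SY5

/-! Systems of bars. -/

set_option linter.unusedSectionVars false
set_option linter.unusedVariables false

open Function Matrix Submodule

noncomputable section

namespace Pool.Agent.CXD
variable {k Ω : Type} [Field k] [Field Ω] [Algebra k Ω] {n κ : Type} [Fintype n] {q s d : ℕ}
  [Sq k q] [IsAlgClosed Ω] [NeZero s] {F : Equiv.Perm (n → Ω)} {R : ℤ → Prop}
  {L : ℤ → Submodule Ω (n → Ω)}

/-- systems of bars -/
structure Bcy (L : ℤ → Submodule Ω (n → Ω)) (R : ℤ → Prop) (f : ℤ → ℤ) (X : ℤ → n → Ω) :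
    Prop where
  le : ∀ b, R b → b ≤ f b
  liv : ∀ b, R b → Liv L b (f b) (X b)
  new : ∀ b, R b → X b ∉ L (b - 1)
  die : ∀ b, R b → X b ∉ L (f b + 1)
  old : ∀ b v, R b → Liv L (b - 1) (f b) v → v ∈ L (f b + 1)

variable {f : ℤ → ℤ} {X : ℤ → n → Ω}

/-- spanning backwards -/
theorem Bcy.back (hX : Bcy L R f X) (h : Chy F s d R L) (N : ℕ) {c e : ℤ} (he : c ≤ e)
    {v : n → Ω} (hv : Liv L c e v) : ∃ v', Liv L (c - N) e v' ∧
      v - v' ∈ span Ω (X '' {b | R b ∧ b ≤ c ∧ e ≤ f b}) := by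
  induction N with
  | zero => exact ⟨v, by simpa using hv, by simp⟩
  | succ N ih =>
    obtain ⟨v', h1, h2⟩ := ih
    have hN : (0 : ℤ) ≤ N := Int.natCast_nonneg N
    obtain ⟨a, ha⟩ : ∃ a : ℤ, a = c - N := ⟨_, rfl⟩
    have e1 : c - ((N + 1 : ℕ) : ℤ) = a - 1 := by push_cast; omega
    have e2 : a - 1 + 1 = a := by omega
    rw [← ha] at h1
    rw [e1]
    have hva : v' ∈ L a := h1 a le_rfl (by omega)
    have key : ∀ w : n → Ω, w ∈ L (a - 1) → ∀ e', Liv L a e' w → Liv L (a - 1) e' w := by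
      intro w hw e' hl c' hc hc'
      rcases eq_or_lt_of_le hc with rfl | hlt
      · exact hw
      · exact hl c' (by omega) hc'
    by_cases hR : R a
    · obtain ⟨t, ht⟩ := h.hyp (a - 1) (X a) v'
        (by rw [e2]; exact hX.liv a hR a le_rfl (hX.le a hR)) (hX.new a hR) (by rw [e2]; exact hva)
      by_cases t0 : t = 0
      · rw [t0, zero_smul, sub_zero] at ht
        exact ⟨v', key v' ht e h1, h2⟩
      · have hef : e ≤ f a := by
          by_contra hlt
          have hle := hX.le a hR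
          have hw : v' - t • X a ∈ L (f a + 1) := hX.old a _ hR (key _ ht _ fun c' hc hc' =>
            sub_mem (h1 c' hc (by omega)) (smul_mem _ _ (hX.liv a hR c' hc hc')))
          have hv' : v' ∈ L (f a + 1) := h1 _ (by omega) (by omega)
          have : t • X a ∈ L (f a + 1) := by simpa using sub_mem hv' hw
          exact hX.die a hR ((smul_mem_iff _ t0).1 this)
        refine ⟨v' - t • X a, key _ ht _ fun c' hc hc' =>
          sub_mem (h1 c' hc hc') (smul_mem _ _ (hX.liv a hR c' hc (by omega))), ?_⟩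
        have e3 : v - (v' - t • X a) = v - v' + t • X a := by abel
        rw [e3]
        exact add_mem h2 (smul_mem _ _ (subset_span ⟨a, ⟨hR, by omega, hef⟩, rfl⟩))
    · refine ⟨v', key v' ?_ e h1, h2⟩
      rw [h.eq (a - 1) (by rwa [e2]), e2]
      exact hva

theorem Bcy.li_SY5B (hX : Bcy L R f X) {u : κ → n → Ω} (h1 : LinearIndependent Ω u)
    (h2 : ∀ a c, u a ∈ L c) (c : ℤ) (B : Finset ℤ)
    (hB : ∀ b ∈ B, R b ∧ b ≤ c + 1 ∧ c ≤ f b) :
    LinearIndepOn Ω (Sum.elim X u) (Sum.inl '' (B : Set ℤ) ∪ Set.range Sum.inr) := by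
  induction B using Finset.induction_on_max with
  | empty =>
    rw [Finset.coe_empty, Set.image_empty, Set.empty_union, ← Set.image_univ]
    exact LinearIndepOn.image_of_comp _ _ (h1.linearIndepOn Set.univ)
  | insert b B hb ih =>
    rw [Finset.coe_insert, Set.image_insert_eq, Set.insert_union]
    obtain ⟨hR, hbc, -⟩ := hB b (Finset.mem_insert_self _ _)
    refine (ih fun b' hb' => hB b' (Finset.mem_insert_of_mem hb')).insert fun hm => ?_
    refine hX.new b hR ((Submodule.span_le (p := L (b - 1))).2 ?_ hm)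
    rintro _ ⟨_, ⟨b', hb', rfl⟩ | ⟨a, rfl⟩, rfl⟩
    · obtain ⟨hR', -, h4⟩ := hB b' (Finset.mem_insert_of_mem hb')
      have := hb b' hb'
      exact hX.liv b' hR' (b - 1) (by omega) (by omega)
    · exact h2 a _

/-- independence by birth times -/
theorem Bcy.li (hX : Bcy L R f X) {u : κ → n → Ω} (h1 : LinearIndependent Ω u)
    (h2 : ∀ a c, u a ∈ L c) (c : ℤ) :
    LinearIndepOn Ω (Sum.elim X u) (bsy κ R f c ∪ bsy κ R f (c + 1)) := by
  refine linearIndepOn_of_finite _ fun t ht ft => ?_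
  have fB : (Sum.inl ⁻¹' t : Set ℤ).Finite := ft.preimage Sum.inl_injective.injOn
  refine (hX.li_SY5B h1 h2 c fB.toFinset fun b hb => ?_).mono ?_
  · rw [Set.Finite.mem_toFinset] at hb
    rcases ht hb with ⟨h3, h4, h5⟩ | ⟨h3, h4, h5⟩
    · exact ⟨h3, by omega, h5⟩
    · exact ⟨h3, h4, by omega⟩
  · rintro (b | a) hj
    · exact Or.inl ⟨b, by simpa using hj, rfl⟩
    · exact Or.inr ⟨a, rfl⟩

theorem Bcy.span (hX : Bcy L R f X) (h : Chy F s d R L) (hF : Sem k q F) {u : κ → n → Ω}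
    (h3 : ∀ v, (∀ c, v ∈ L c) → v ∈ Submodule.span Ω (Set.range u)) {c e : ℤ} (he : c ≤ e)
    {v : n → Ω} (hv : Liv L c e v) : v ∈ Submodule.span Ω
      (Sum.elim X u '' {j | j.elim (fun b => R b ∧ b ≤ c ∧ e ≤ f b) fun _ => True}) := by
  obtain ⟨v', h4, h5⟩ := hX.back h ((d + 1) * s) he hv
  have h6 : ∀ c', v' ∈ L c' := h.hor hF (a := c - (((d + 1) * s : ℕ) : ℤ)) fun c' hc hc' =>
    h4 c' hc (by push_cast at hc'; linarith)
  have e3 : v = v - v' + v' := by abel
  rw [e3]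
  refine add_mem (Submodule.span_mono ?_ h5) (Submodule.span_mono ?_ (h3 v' h6))
  · rintro _ ⟨b, hb, rfl⟩
    exact ⟨Sum.inl b, hb, rfl⟩
  · rintro _ ⟨a, rfl⟩
    exact ⟨Sum.inr a, trivial, rfl⟩

end Pool.Agent.CXD
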