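import Pool.Agent.P.MP_2ce3e7_ag.SY4
import Pool.Agent.P.MP_2ce3e7_ag.SY5B

/-! Bars from the elimination. -/

set_option linter.unusedSectionVars false
set_option linter.unusedVariables false

open Function Matrix Submodule

noncomputable section

namespace Pool.Agent.CXD
variable {k Ω : Type} [Field k] [Field Ω] [Algebra k Ω] {n κ : Type} [Fintype n]

/-- the periodic extension of the death times -/
def eby {d : ℕ} (s : ℕ) (f : Fin d ⊕ ZMod s → ℤ) (b : ℤ) : ℤ := f (.inr (b : ZMod s)) + s * (b / s)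

/-- the result of the elimination -/
structure Fny {d : ℕ} (s : ℕ) (L : ℤ → Submodule Ω (n → Ω)) (R : ℤ → Prop) (H : ℤ)
    (f : Fin d ⊕ ZMod s → ℤ) (Z : Fin d ⊕ ZMod s → n → Ω) : Prop where
  bd : ∀ j, bthy d s R H j ≤ f j ∧ f j ≤ H
  inj : ∀ j j', f j < H → f j = f j' → j = j'
  li : LinearIndependent Ω fun g => Z (.inl g)
  new : ∀ b : ZMod s, R b.val → Z (.inr b) ∉ L (b.val - 1)
  liv : ∀ j, Liv L (bthy d s R H j) (f j) (Z j)
  piv : ∀ j, f j < H → Z j ∉ L (f j + 1)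

variable {q s d : ℕ} [Sq k q] [IsAlgClosed Ω] [NeZero s] {F : Equiv.Perm (n → Ω)} {R : ℤ → Prop}
  {L : ℤ → Submodule Ω (n → Ω)} {f : Fin d ⊕ ZMod s → ℤ} {Z : Fin d ⊕ ZMod s → n → Ω}

theorem eby_val (f : Fin d ⊕ ZMod s → ℤ) (b : ZMod s) : eby s f b.val = f (.inr b) := by
  rw [eby, Int.ediv_eq_zero_of_lt (Int.natCast_nonneg _) (by exact_mod_cast ZMod.val_lt b)]
  simp

theorem add_SY6 (f : Fin d ⊕ ZMod s → ℤ) (u : ℤ) : eby s f (u + s) = eby s f u + s := by
  have h := Int.add_mul_ediv_right u 1 (pos_SE0 s).ne'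
  rw [one_mul] at h
  rw [eby, eby, h]
  simp only [Int.cast_add, Int.cast_natCast, ZMod.natCast_self, add_zero]
  ring

theorem bth_SY6 (H : ℤ) {b : ZMod s} (h : R b.val) : bthy d s R H (.inr b) = b.val := if_pos h

theorem liv_SY6 (h : Chy F s d R L) (a e : ℤ) (v : n → Ω) :
    Liv L (a + s) (e + s) (F v) ↔ Liv L a e v :=
  ⟨fun h1 c h2 h3 => (h.per c v).1 (h1 _ (by omega) (by omega)), fun h1 c h2 h3 => by
    rw [← sub_add_cancel c s, h.per]
    exact h1 _ (by omega) (by omega)⟩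

theorem is_eby (hR : ∀ c, R (c + s) ↔ R c) {D : ℕ} (hD : s ≤ D)
    (bd : ∀ j, bthy d s R D j ≤ f j ∧ f j ≤ D) :
    Is s D R (eby s f) ∧ ∀ b, b ≤ eby s f b := by
  have h1 : ∀ b, b ≤ eby s f b := fun b => by
    have e := Int.emod_add_mul_ediv b s
    have h2 := (bd (.inr (b : ZMod s))).1
    have h3 := Int.emod_lt_of_pos b (pos_SE0 s)
    simp only [bthy, Sum.elim_inr, ZMod.val_intCast] at h2
    rw [eby]
    split_ifs at h2 <;> omega
  refine ⟨⟨hR, add_SY6 f, fun u => (sub_one_lt u).le.trans (h1 u), fun u => ?_⟩, h1⟩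
  have e := Int.emod_add_mul_ediv u s
  have h2 := (bd (.inr (u : ZMod s))).2
  have h3 := Int.emod_nonneg u (pos_SE0 s).ne'
  rw [eby]
  omega

theorem Fny.win (hZ : Fny s L R ((d + 2) * s : ℕ) f Z) (h : Chy F s d R L) {a e : ℤ}
    (ha : -1 ≤ a) (ha' : a < s) (he : a ≤ e) (he' : e ≤ ((d + 2) * s : ℕ)) {v : n → Ω}
    (hv : Liv L a e v) :
    v ∈ span Ω (Z '' {j | bthy d s R ((d + 2) * s : ℕ) j ≤ a ∧ e ≤ f j}) := by
  refine h.win (a₀ := -1) (a₁ := s - 1) ?_ ?_ (fun c h1 h2 h3 => ?_) hZ.liv hZ.inj hZ.piv ha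
    (by omega) he he' hv
  · push_cast
    nlinarith [pos_SE0 s, Int.natCast_nonneg d]
  · have h1 : span Ω (Set.range fun g => Z (.inl g)) = L (-1) :=
      Submodule.eq_of_le_of_finrank_eq (span_le.2 (by
        rintro _ ⟨g, rfl⟩
        exact hZ.liv (.inl g) (-1) le_rfl (hZ.bd (.inl g)).1))
        (by rw [finrank_span_eq_card hZ.li, h.dim, Fintype.card_fin])
    rw [← h1]
    refine span_mono ?_
    rintro _ ⟨g, rfl⟩
    exact ⟨.inl g, ⟨le_rfl, (hZ.bd (.inl g)).1⟩, rfl⟩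
  · have e := val_SE1 (s := s) (u := c) (by omega) (by omega)
    have h4 : R (c : ZMod s).val := by rwa [e]
    have h5 := (bth_SY6 (d := d) ((d + 2) * s : ℕ) h4).trans e
    have h6 := hZ.new _ h4
    rw [e] at h6
    exact ⟨.inr c, h5, h5.ge.trans (hZ.bd _).1, h6⟩

theorem Fny.bcy (hZ : Fny s L R ((d + 2) * s : ℕ) f Z) (h : Chy F s d R L) (hF : Sem k q F) :
    Bcy L R (eby s f) (pext F s fun b => Z (.inr b)) := by
  have key : ∀ b, R b → b ≤ eby s f b ∧ Liv L b (eby s f b) (pext F s (fun b => Z (.inr b)) b) ∧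
      pext F s (fun b => Z (.inr b)) b ∉ L (b - 1) ∧
      pext F s (fun b => Z (.inr b)) b ∉ L (eby s f b + 1) ∧
      ∀ v, Liv L (b - 1) (eby s f b) v → v ∈ L (eby s f b + 1) := by
    refine per_ind s (fun b => ?_) 0 fun b h0 h1 hb => ?_
    · rw [h.perR, add_SY6, pe_pext F _ b, add_le_add_iff_right, liv_SY6 h, add_sub_right_comm,
        add_right_comm, h.per, h.per, F.surjective.forall]
      simp only [liv_SY6 h, h.per]
    · rw [zero_add] at h1
      have e := val_SE1 (s := s) h0 h1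
      have h4 : R (b : ZMod s).val := by rwa [e]
      have h5 := (bth_SY6 (d := d) ((d + 2) * s : ℕ) h4).trans e
      have h6 : eby s f b = f (.inr b) := by rw [← eby_val f, e]
      have h7 := hZ.bd (.inr (b : ZMod s))
      have h8 := hZ.liv (.inr (b : ZMod s))
      have h9 := hZ.new _ h4
      rw [h5] at h7 h8
      rw [e] at h9
      have hH : f (.inr b) < ((d + 2) * s : ℕ) := lt_of_le_of_ne h7.2 fun h10 =>
        h9 (h.hor hF (a := s) (fun c h2 h3 => h8 c (by omega) (by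
          rw [h10]
          push_cast
          linarith)) _)
      rw [h6, pext_of_mem h0 h1]
      refine ⟨h7.1, h8, h9, hZ.piv _ hH, fun v hv => ?_⟩
      refine span_le.2 ?_ (hZ.win h (by omega) (by omega) (by omega) h7.2 hv)
      rintro _ ⟨j, ⟨h2, h3⟩, rfl⟩
      refine hZ.liv j _ (by omega) (lt_of_le_of_ne h3 fun h10 => ?_)
      rw [← hZ.inj _ _ hH h10, h5] at h2
      omega
  exact ⟨fun b hb => (key b hb).1, fun b hb => (key b hb).2.1, fun b hb => (key b hb).2.2.1,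
    fun b hb => (key b hb).2.2.2.1, fun b v hb => (key b hb).2.2.2.2 v⟩

theorem Fny.etn (hZ : Fny s L R ((d + 2) * s : ℕ) f Z) (h : Chy F s d R L) {u : κ → n → Ω}
    (hu : ∀ g, f (.inl g) = ((d + 2) * s : ℕ) → Z (.inl g) ∈ span Ω (Set.range u)) {v : n → Ω}
    (hv : ∀ c, v ∈ L c) : v ∈ span Ω (Set.range u) := by
  refine span_le.2 ?_ (hZ.win h le_rfl (by omega) (by omega) le_rfl fun c _ _ => hv c)
  rintro _ ⟨g | b, ⟨h2, h3⟩, rfl⟩
  · exact hu g ((hZ.bd _).2.antisymm h3)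
  · simp only [bthy, Sum.elim_inr] at h2
    split_ifs at h2 <;> omega

end Pool.Agent.CXD
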