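import Pool.Agent.P.MP_2ce3e7_ag.SY2B
import Pool.Agent.P.MP_2ce3e7_ag.SY3
import Pool.Agent.P.MP_2ce3e7_ag.SY5

/-! The moving steps. -/

set_option linter.unusedSectionVars false
set_option linter.unusedVariables false

open Function Matrix Submodule

noncomputable section

namespace Pool.Agent.CXD
variable {k Ω : Type} [Field k] [Field Ω] [Algebra k Ω] {n : Type} [Fintype n] {G : Gp Ω}
  {q s i : ℕ} [Sq k q] [IsAlgClosed Ω] [NeZero s] {F : Equiv.Perm (n → Ω)} {J : Mp n Ω}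
  {S : ℤ → Set n} {w : ZMod s → ℕ} {R : ℤ → Prop}

/-- two spaces with a common hyperplane -/
theorem lvs_step {x x' : Fin (i + 1) → n → Ω} (h : LinearIndependent Ω x)
    (h' : LinearIndependent Ω x') (e : lvs x i = lvs x' i) :
    (x' (Fin.last i) ∈ lvs x (i + 1) → lvs x (i + 1) = lvs x' (i + 1)) ∧
    (x' (Fin.last i) ∉ lvs x (i + 1) →
      (∀ v ∈ lvs x (i + 1), v ∈ lvs x' (i + 1) ↔ v ∈ lvs x i) ∧
      ∀ v ∈ lvs x' (i + 1), v ∈ lvs x (i + 1) ↔ v ∈ lvs x' i) := by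
  have m1 : lvs x' i ≤ lvs x (i + 1) := e ▸ lvs_mono x (Nat.le_succ i)
  have m2 : lvs x' i ≤ lvs x' (i + 1) := lvs_mono x' (Nat.le_succ i)
  refine ⟨fun h1 => ?_, fun h1 => ?_⟩
  · symm
    refine Submodule.eq_of_le_of_finrank_eq ?_ ?_
    · rw [lvs_succ x']
      exact sup_le m1 ((Submodule.span_singleton_le_iff_mem _ _).2 h1)
    · rw [finrank_lvs h le_rfl, finrank_lvs h' le_rfl]
  · have key : ∀ v, v ∈ lvs x (i + 1) → v ∈ lvs x' (i + 1) → v ∈ lvs x' i := by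
      intro v h2 h3
      rw [lvs_succ x'] at h3
      obtain ⟨m, hm, z, hz, rfl⟩ := Submodule.mem_sup.1 h3
      obtain ⟨t, rfl⟩ := Submodule.mem_span_singleton.1 hz
      by_cases ht : t = 0
      · simpa [ht] using hm
      · refine absurd ?_ h1
        have h4 := Submodule.sub_mem _ h2 (m1 hm)
        rw [add_sub_cancel_left] at h4
        exact (Submodule.smul_mem_iff _ ht).1 h4
    refine ⟨fun v hv => ⟨fun h2 => e ▸ key v hv h2, fun h2 => m2 (e ▸ h2)⟩,
      fun v hv => ⟨fun h2 => key v h2 hv, fun h2 => m1 h2⟩⟩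

theorem last_mem_SY7 (x : Fin (i + 1) → n → Ω) : x (Fin.last i) ∈ lvs x (i + 1) :=
  Submodule.subset_span ⟨Fin.last i, (Fin.last i).2, rfl⟩

theorem step_SY7 {X : ZMod s → Fin (i + 1) → n → Ω} (hX : Yry i F J S w R X) (c : ℤ) :
    (¬R (c + 1) → lvs (pext (fry _ F) s X c) (i + 1) = lvs (pext (fry _ F) s X (c + 1)) (i + 1)) ∧
    (R (c + 1) → (∀ v ∈ lvs (pext (fry _ F) s X c) (i + 1),
      v ∈ lvs (pext (fry _ F) s X (c + 1)) (i + 1) ↔ v ∈ lvs (pext (fry _ F) s X c) i) ∧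
      ∀ v ∈ lvs (pext (fry _ F) s X (c + 1)) (i + 1),
      v ∈ lvs (pext (fry _ F) s X c) (i + 1) ↔ v ∈ lvs (pext (fry _ F) s X (c + 1)) i) := by
  have h2 := hX.2 (c + 1)
  rw [add_sub_cancel_right] at h2
  by_cases hw : i + 1 = w c
  · have h3 := lvs_step (hX.1 c).1 (hX.1 (c + 1)).1 ((hX.1 c).2.2 i (Nat.le_succ i) (by omega))
    exact ⟨fun h4 => h3.1 (h2.2 h4), fun h4 => h3.2 fun h5 => h2.1 h5 h4⟩
  · have h3 := (hX.1 c).2.2 (i + 1) le_rfl hw
    exact ⟨fun _ => h3, fun h4 => absurd h4 (h2.1 (h3 ▸ last_mem_SY7 _))⟩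

theorem Amy.fcy (h : Amy k q s F J S) : Fcy k (Yry i F J S w R) (pext (fry _ F) s) R where
  po c := Pq.pext (h.sem.fam _).po (h.sem.fam _).po' Pq.id c
  li a c ha := (ha.1 c).1
  eq a c ha := (step_SY7 ha c).1
  die a c ha hc := ((step_SY7 ha c).2 hc).1
  born a c ha hc := ((step_SY7 ha c).2 hc).2

theorem Amy.chy (h : Amy k q s F J S) (hR : ∀ c, R (c + s) ↔ R c)
    {X : ZMod s → Fin (i + 1) → n → Ω} (hX : Yry i F J S w R X) :
    Chy F s (i + 1) R fun c => lvs (pext (fry _ F) s X c) (i + 1) where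
  per c v := by
    rw [pe_pext (fry _ F) X c]
    exact h.sem.mem_lvs _ _ v
  perR := hR
  dim c := finrank_lvs (hX.1 c).1 le_rfl
  eq c := (step_SY7 hX c).1
  hyp c v z hv hv' hz := by
    have h1 : R (c + 1) := by
      by_contra h1
      exact hv' ((step_SY7 hX c).1 h1 ▸ hv)
    have h2 := ((step_SY7 hX c).2 h1).2
    have m2 := lvs_mono (pext (fry _ F) s X (c + 1)) (Nat.le_succ i)
    have h3 := hv
    have h4 := hz
    rw [lvs_succ] at h3 h4
    obtain ⟨m, hm, y, hy, rfl⟩ := Submodule.mem_sup.1 h3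
    obtain ⟨a, rfl⟩ := Submodule.mem_span_singleton.1 hy
    obtain ⟨m', hm', y', hy', rfl⟩ := Submodule.mem_sup.1 h4
    obtain ⟨b, rfl⟩ := Submodule.mem_span_singleton.1 hy'
    have ha : a ≠ 0 := by
      rintro rfl
      exact hv' ((h2 _ hv).2 (by simpa using hm))
    refine ⟨b / a, ?_⟩
    have e : m' + b • pext (fry _ F) s X (c + 1) (Fin.last i) -
        (b / a) • (m + a • pext (fry _ F) s X (c + 1) (Fin.last i)) = m' - (b / a) • m := by
      rw [smul_add, smul_smul, div_mul_cancel₀ _ ha]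
      abel
    have h5 := Submodule.sub_mem _ hm' (Submodule.smul_mem _ (b / a) hm)
    rw [e]
    exact (h2 _ (m2 h5)).2 h5

theorem Amy.gyf (hA : Amy k q s F J S) (h : Au k q G)
    (h1 : ∀ R : ℤ → Prop, (∀ c, R (c + s) ↔ R c) → Gy k G (Yry i F J S w R)) :
    Gy k G (Yfy (i + 1) F J S w) := by
  refine h.gzps (T := ZMod s) (M := fun t X => pext (fry _ F) s X (t.val - 1))
    (v := fun t X => X t (Fin.last i)) hA.lc_yf
    (fun t => Pq.pext (hA.sem.fam _).po (hA.sem.fam _).po' Pq.id _)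
    (fun t => (Pq.apply t).eval (Fin.last i)) (fun _ => {a | a.val < i + 1})
    (fun t X hX => (hX _).1.linearIndepOn _) fun Z => ?_
  have hp : ∀ c : ℤ, ((c + s : ℤ) : ZMod s) ∉ Z ↔ (c : ZMod s) ∉ Z := fun c => by
    rw [Int.cast_add, Int.cast_natCast, ZMod.natCast_self, add_zero]
  refine (h1 (fun c => (c : ZMod s) ∉ Z) hp).congr fun X => ?_
  rw [hA.yr_iff hp]
  refine and_congr_right fun _ => forall_congr' fun c => ?_
  rw [Int.cast_natCast, ZMod.natCast_zmod_val, not_not]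
  rfl

end Pool.Agent.CXD
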