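import Pool.Agent.P.MP_2ce3e7_ag.SY6
import Pool.Agent.P.MP_2ce3e7_ag.SY7

/-! Removing the auxiliary basis. -/

set_option linter.unusedSectionVars false
set_option linter.unusedVariables false

open Function Matrix Submodule

noncomputable section

namespace Pool.Agent.CXD
variable {k Ω : Type} [Field k] [Field Ω] [Algebra k Ω] {n κ : Type} [Fintype n]

/-- old bars alive at `t` and the constant vectors -/
def Cgy (κ : Type) (R : ℤ → Prop) (e : ℤ → ℤ) (t : ℤ) : Set (ℤ ⊕ κ) :=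
  {j | j.elim (fun b => R b ∧ b ≤ -1 ∧ t ≤ e b) fun _ => True}

/-- the final strata of the elimination -/
def Fty (i : ℕ) (F : Equiv.Perm (n → Ω)) (J : Mp n Ω) (S : ℤ → Set n) {s : ℕ}
    (w : ZMod s → ℕ) (R : ℤ → Prop) (H : ℤ) (f : Fin (i + 1) ⊕ ZMod s → ℤ)
    (y : (ZMod s → Fin (i + 1) → n → Ω) × (Fin (i + 1) ⊕ ZMod s → n → Ω)) : Prop :=
  Ghy s (Yry i F J S w R) (pext (fry _ F) s) R y ∧
    Echy (pext (fry _ F) s) (bthy _ s R H) f y ∧ Pivy (pext (fry _ F) s) H f y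

/-- the vectors `u` span the eternal vectors -/
def Ety {d : ℕ} (F : Equiv.Perm (n → Ω)) {s : ℕ} (H : ℤ) (f : Fin d ⊕ ZMod s → ℤ) (u : κ → n → Ω)
    (y : (ZMod s → Fin d → n → Ω) × (Fin d ⊕ ZMod s → n → Ω)) : Prop :=
  (∀ a c, u a ∈ lvs (pext (fry _ F) s y.1 c) d) ∧
    ∀ g, f (.inl g) = H → y.2 (.inl g) ∈ span Ω (Set.range u)

/-- the open conditions -/
def Opy (i : ℕ) (F : Equiv.Perm (n → Ω)) {s : ℕ} (R : ℤ → Prop) (H : ℤ)
    (f : Fin (i + 1) ⊕ ZMod s → ℤ)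
    (y : (ZMod s → Fin (i + 1) → n → Ω) × (Fin (i + 1) ⊕ ZMod s → n → Ω)) : Prop :=
  (LinearIndependent Ω fun g => y.2 (.inl g)) ∧
    (∀ b : ZMod s, R b.val → y.2 (.inr b) ∉ lvs (pext (fry _ F) s y.1 (b.val - 1)) (i + 1)) ∧
    Pivy (pext (fry _ F) s) H f y ∧ ∀ c : ZMod s, R c.val →
      y.1 c (Fin.last i) ∉ lvs (pext (fry _ F) s y.1 (c.val - 1)) (i + 1)

variable {G : Gp Ω} {q s i : ℕ} [Sq k q] [IsAlgClosed Ω] [NeZero s] {F : Equiv.Perm (n → Ω)}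
  {J : Mp n Ω} {S : ℤ → Set n} {w : ZMod s → ℕ} {R : ℤ → Prop}
  {f : Fin (i + 1) ⊕ ZMod s → ℤ} {u : κ → n → Ω}

theorem Amy.ft_iff (hA : Amy k q s F J S) (hR : ∀ c, R (c + s) ↔ R c)
    (bd : ∀ j, bthy _ s R ((i + 1 + 2) * s : ℕ) j ≤ f j ∧ f j ≤ ((i + 1 + 2) * s : ℕ))
    (inj : ∀ j j', f j < ((i + 1 + 2) * s : ℕ) → f j = f j' → j = j')
    (h1 : LinearIndependent Ω u) (h2 : ∀ a, F (u a) = u a)
    (y : (ZMod s → Fin (i + 1) → n → Ω) × (Fin (i + 1) ⊕ ZMod s → n → Ω)) :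
    Fty i F J S w R ((i + 1 + 2) * s : ℕ) f y ∧ Ety F ((i + 1 + 2) * s : ℕ) f u y ↔
    (Bby (i + 1) F J S w R (eby s f) u (fun b => y.2 (.inr b), y.1) ∧
      ∀ g, y.2 (.inl g) ∈ span Ω (Sum.elim (pext F s fun b => y.2 (.inr b)) u ''
        Cgy κ R (eby s f) (f (.inl g)))) ∧ Opy i F R ((i + 1 + 2) * s : ℕ) f y := by
  obtain ⟨X, Z⟩ := y
  have hs : s ≤ (i + 1 + 2) * s := Nat.le_mul_of_pos_left s (by omega)
  obtain ⟨hi, hle⟩ := is_eby hR hs bd
  have pv : ∀ b : ZMod s, pext F s (fun b => Z (.inr b)) b.val = Z (.inr b) := fun b =>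
    congrFun (res_pext F fun b => Z (.inr b)) b
  constructor
  · rintro ⟨⟨⟨hY, hl, hb⟩, hE, hP⟩, hu, hg⟩
    have hC := hA.chy hR hY
    have hZ : Fny s (fun c => lvs (pext (fry _ F) s X c) (i + 1)) R ((i + 1 + 2) * s : ℕ) f Z :=
      ⟨bd, inj, hl, fun b h => (hb b).1 h, fun j c => hE j c, hP⟩
    have hB := hZ.bcy hC hA.sem
    have h3 := fun v => hZ.etn hC hg (v := v)
    have h4 : ∀ c, lvs (pext (fry _ F) s X c) (i + 1) = span Ω
        (Sum.elim (pext F s fun b => Z (.inr b)) u '' bsy κ R (eby s f) c) := fun c => by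
      refine le_antisymm (fun v hv => hB.span hC hA.sem h3 le_rfl fun d h5 h6 => ?_) (span_le.2 ?_)
      · rwa [le_antisymm h6 h5]
      · rintro _ ⟨b | a, hj, rfl⟩
        · exact hB.liv b hj.1 c hj.2.1 hj.2.2
        · exact hu a c
    refine ⟨⟨⟨⟨(hA.sem.act_iff hR _).2 fun b h => (hb b).2 h, fun c => ⟨hB.li h1 hu c, ?_⟩⟩,
      hY.1, h4⟩, fun g => hB.span hC hA.sem h3 (bd (.inl g)).1 (hZ.liv (.inl g))⟩,
      hl, fun b h => (hb b).1 h, hP, fun c h h5 => (((hA.yr_iff hR X).1 hY).2 c).1 h5 h⟩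
    rw [← oky_span, ← h4, lvs_top, oky_span]
    exact (hY.1 c).2.1
  · rintro ⟨⟨⟨hX, hY, h4⟩, hg⟩, hl, hb, hP, ht⟩
    dsimp only at hX hY h4 hg hl hb hP ht
    have h0 := (hA.sem.act_iff hR _).1 hX.1
    refine ⟨⟨⟨(hA.yr_iff hR X).2 ⟨hY, fun c => ⟨fun h5 h6 => ht c h6 h5, fun h5 => ?_⟩⟩, hl,
      fun b => ⟨hb b, h0 b⟩⟩, ?_, hP⟩, fun a c => ?_, fun g h5 => ?_⟩
    · have h6 : X c (Fin.last i) ∈ lvs (pext (fry _ F) s X c.val) (i + 1) := by
        rw [show pext (fry _ F) s X c.val = X c from congrFun (res_pext _ X) c]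
        exact subset_span ⟨_, Nat.lt_succ_self i, rfl⟩
      rw [h4] at h6 ⊢
      refine span_mono (Set.image_mono ?_) h6
      rintro (b | a) hj
      · have h7 : b ≠ c.val := fun e => h5 (e ▸ hj.1)
        have h8 := hj.2.1
        have h9 := hj.2.2
        exact ⟨hj.1, by omega, by omega⟩
      · trivial
    · rintro (g | b) c h5 h6
      · rw [h4]
        refine span_mono (Set.image_mono ?_) (hg g)
        rintro (b | a) hj
        · exact ⟨hj.1, hj.2.1.trans h5, h6.trans hj.2.2⟩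
        · trivial
      · by_cases h7 : R b.val
        · rw [h4]
          refine subset_span ⟨.inl b.val, ⟨h7, ?_, ?_⟩, pv b⟩
          · exact (if_pos h7).ge.trans h5
          · rwa [eby_val]
        · dsimp only
          rw [h0 b h7]
          exact zero_mem _
    · rw [h4]
      exact subset_span ⟨.inr a, trivial, rfl⟩
    · refine span_mono ?_ (hg g)
      rintro _ ⟨b | a, hj, rfl⟩
      · have h6 := hi.hi b
        have h7 := hj.2.1
        have h8 := hj.2.2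
        omega
      · exact ⟨a, rfl⟩

end Pool.Agent.CXD
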