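import Pool.Agent.P.MP_2ce3e7_ag.SY8

/-! From bars to frames. -/

set_option linter.unusedSectionVars false
set_option linter.unusedVariables false

open Function Matrix Submodule

noncomputable section

namespace Pool.Agent.CXD
variable {k Ω : Type} [Field k] [Field Ω] [Algebra k Ω] {n κ : Type} [Fintype n] {G : Gp Ω}
  {q s i : ℕ} [Sq k q] [IsAlgClosed Ω] [NeZero s] {F : Equiv.Perm (n → Ω)}
  {J : Mp n Ω} {S : ℤ → Set n} {w : ZMod s → ℕ} {R : ℤ → Prop}
  {f : Fin (i + 1) ⊕ ZMod s → ℤ} {u : κ → n → Ω}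

theorem Amy.pxt_SY8B (hA : Amy k q s F J S) {α : Type} [Af Ω α] {P : α → Prop} {d : ℕ}
    {X : α → ZMod s → Fin d → n → Ω} (hX : Pq k P X) (c : ℤ) :
    Pq k P fun y => pext (fry _ F) s (X y) c :=
  Pq.pext (hA.sem.fam _).po (hA.sem.fam _).po' hX c

theorem Amy.gns_SY8B (hA : Amy k q s F J S) (h : Au k q G) {α : Type} [Af Ω α] {P : α → Prop}
    {X : α → ZMod s → Fin (i + 1) → n → Ω} (hX : Pq k P X)
    (hY : ∀ y, P y → Yfy (i + 1) F J S w (X y)) {T : Type} [Finite T] (Q : T → Prop) (c : T → ℤ)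
    {v : T → α → n → Ω} (hv : ∀ t, Pq k P (v t)) (hp : Gy k G P) :
    Gy k G fun y => P y ∧ ∀ t, Q t → v t y ∉ lvs (pext (fry _ F) s (X y) (c t)) (i + 1) :=
  (h.gnspans (T := {t // Q t}) (M := fun t y => pext (fry _ F) s (X y) (c t.1))
    (v := fun t => v t.1) (fun t => hA.pxt_SY8B hX _) (fun t => hv t.1)
    (fun _ => {a | a.val < i + 1}) (fun t y hy => (hY y hy (c t.1)).1.linearIndepOn _) hp).congr
    fun y => and_congr_right' ⟨fun e t => e t.1 t.2, fun e t ht => e ⟨t, ht⟩⟩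

theorem Amy.gft (hA : Amy k q s F J S) (h : Au k q G) [Fintype κ] [Kr k u] {D : ℕ} {e : ℤ → ℤ}
    (hi : Is s D R e) (H : ℤ) (hf : ∀ g, -1 ≤ f (.inl g))
    (hB : Gy k G (Bby (i + 1) F J S w R e u)) :
    Gy k G fun y : (ZMod s → Fin (i + 1) → n → Ω) × (Fin (i + 1) ⊕ ZMod s → n → Ω) =>
      (Bby (i + 1) F J S w R e u (fun b => y.2 (.inr b), y.1) ∧
      ∀ g, y.2 (.inl g) ∈ span Ω (Sum.elim (pext F s fun b => y.2 (.inr b)) u ''
        Cgy κ R e (f (.inl g)))) ∧ Opy i F R H f y := by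
  have sub : ∀ g, Cgy κ R e (f (.inl g)) ⊆ bsy κ R e (-1) := fun g j hj => by
    cases j with
    | inl b => exact ⟨hj.1, hj.2.1, (hf g).trans hj.2.2⟩
    | inr a => trivial
  have g1 := h.gspan (p := Bby (i + 1) F J S w R e u)
    (M := fun y => Sum.elim (pext F s y.1) u) (fun j => by
      cases j with
      | inl b => exact Pq.pext hA.sem.po hA.sem.po' (Pq.fst Pq.id) b
      | inr a =>
        have := Kr.eval ‹Kr k u› a
        exact Pq.const (u a))
    (fun g => Cgy κ R e (f (.inl g))) (fun g => (hi.bsy_fin (-1)).subset (sub g))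
    (fun g y hy => (hy.1.2 (-1)).1.mono ((sub g).trans Set.subset_union_left)) hB
  have g2 : Gy k G fun y : (ZMod s → Fin (i + 1) → n → Ω) × (Fin (i + 1) ⊕ ZMod s → n → Ω) =>
      Bby (i + 1) F J S w R e u (fun b => y.2 (.inr b), y.1) ∧
      ∀ g, y.2 (.inl g) ∈ span Ω (Sum.elim (pext F s fun b => y.2 (.inr b)) u ''
        Cgy κ R e (f (.inl g))) :=
    h.giso (p' := fun y : ((ZMod s → n → Ω) × (ZMod s → Fin (i + 1) → n → Ω)) ×
        (Fin (i + 1) → n → Ω) => Bby (i + 1) F J S w R e u y.1 ∧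
          ∀ g, y.2 g ∈ span Ω (Sum.elim (pext F s y.1.1) u '' Cgy κ R e (f (.inl g))))
      (fun z => (z.1.2, Sum.elim z.2 z.1.1))
      (fun y => ((fun b => y.2 (.inr b), y.1), fun g => y.2 (.inl g)))
      (Pq.mk (Pq.snd (Pq.fst Pq.id)) (Pq.elim (Pq.snd Pq.id) (Pq.fst (Pq.fst Pq.id))))
      (Pq.mk (Pq.mk (Pq.pi fun b => (Pq.snd Pq.id).eval _) (Pq.fst Pq.id))
        (Pq.pi fun b => (Pq.snd Pq.id).eval _))
      (fun z hz => hz) (fun y hy => hy) (fun z hz => rfl)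
      (fun y hy => Prod.ext rfl (funext fun j => by cases j <;> rfl)) g1
  have g3 := h.gli (M := fun y g => y.2 (.inl g)) (by fun_prop) Set.univ g2
  have g4 := hA.gns_SY8B h (X := fun y => y.1) (Pq.fst Pq.id) (fun y hy => hy.1.1.2.1)
    (fun b : ZMod s => R b.val) (fun b => b.val - 1) (v := fun b y => y.2 (.inr b))
    (fun b => (Pq.snd Pq.id).eval _) g3
  have g5 := hA.gns_SY8B h (X := fun y => y.1) (Pq.fst Pq.id) (fun y hy => hy.1.1.1.2.1)
    (fun j => f j < H) (fun j => f j + 1) (v := fun j y => y.2 j)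
    (fun b => (Pq.snd Pq.id).eval _) g4
  have g6 := hA.gns_SY8B h (X := fun y => y.1) (Pq.fst Pq.id) (fun y hy => hy.1.1.1.1.2.1)
    (fun b : ZMod s => R b.val) (fun b => b.val - 1) (v := fun c y => y.1 c (Fin.last i))
    (fun b => ((Pq.fst Pq.id).eval _).eval _) g5
  refine g6.congr fun y => ?_
  simp only [Opy, Pivy, linearIndepOn_univ_iff, and_assoc]

theorem Amy.gun (hA : Amy k q s F J S) (h : Au k q G) (hR : ∀ c, R (c + s) ↔ R c)
    (h1 : ∀ ν ≤ i + 1, ∀ u : Fin ν → n → Ω, Kr k u → LinearIndependent Ω u →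
      (∀ a, F (u a) = u a) → Gy k G fun y => Fty i F J S w R ((i + 1 + 2) * s : ℕ) f y ∧
        Ety F ((i + 1 + 2) * s : ℕ) f u y) :
    Gy k G (Fty i F J S w R ((i + 1 + 2) * s : ℕ) f) := by
  have hx : Fcy k (Yry i F J S w R) (pext (fry _ F) s) R := hA.fcy
  have : ∀ ν : Fin (i + 1 + 1), Finite {u : Fin ν → n → Ω // Kr k u ∧ LinearIndependent Ω u ∧
      ∀ a, F (u a) = u a} := fun ν =>
    (((Sq.su : Su k q).finite_kr (α := Fin ν → n → Ω)).subset
      (show {u | Kr k u ∧ LinearIndependent Ω u ∧ ∀ a, F (u a) = u a} ⊆ {x | Kr k x} from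
        fun u hu => hu.1)).to_subtype
  refine h.gunion ((hx.lc_gh (hA.lc_yr hR)).land
      ((hx.cr (fun y hy => hy.1) _ f).lr.and (hx.lr (fun y hy => hy.1) _ f)))
    (T := Σ ν : Fin (i + 1 + 1), {u : Fin ν → n → Ω // Kr k u ∧ LinearIndependent Ω u ∧
      ∀ a, F (u a) = u a}) (r := fun t => Ety F ((i + 1 + 2) * s : ℕ) f t.2.1) (fun t => ?_)
    (fun y hy => ?_) fun t => h1 t.1 (Nat.le_of_lt_succ t.1.2) t.2.1 t.2.2.1 t.2.2.2.1 t.2.2.2.2
  · obtain ⟨ν, u, hu, hl, hfix⟩ := t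
    refine Cr.and (Cr.all fun a => Cr.all fun c => ?_) (Cr.all fun g => Cr.all fun _ => ?_)
    · have := hu.eval a
      exact Cr.span (hA.pxt_SY8B (Pq.fst Pq.id) c) (Pq.const (u a)) _
        fun y hy => (hy.1.1.1 c).1.linearIndepOn _
    · exact (Cr.span (M := fun _ => u) (Pq.const u) ((Pq.snd Pq.id).eval (Sum.inl g)) Set.univ
        fun y hy => hl.linearIndepOn _).congr fun y _ => by rw [Set.image_univ]
  · have hc := hA.chy hR hy.1.1
    obtain ⟨ν, hν, u, hl, hfix, hm, hs⟩ := hc.rat hA.sem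
    refine ⟨⟨⟨ν, Nat.lt_succ_of_le hν⟩, u, kr_pi fun a => hA.rat _ (hfix a) fun c j hj => ?_,
      hl, hfix⟩, hm, fun g hg => hs _ (hc.hor hA.sem (a := -1) fun c h0 h2 => ?_)⟩
    · have h3 := hm a c
      simp only [lvs_top] at h3
      exact (oky_span.2 (hy.1.1.1 c).2.1).2 _ h3 j hj
    · refine hy.2.1 (.inl g) c h0 ?_
      rw [hg]
      have := pos_SE0 s
      push_cast at h2 ⊢
      linarith

theorem Amy.gbb (hA : Amy k q s F J S) (h : Au k q G)
    (h1 : ∀ ν ≤ i + 1, ∀ u : Fin ν → n → Ω, Kr k u → (∀ a, F (u a) = u a) →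
      ∀ (D : ℕ) (R : ℤ → Prop) (e : ℤ → ℤ), Is s D R e → (∀ b, b ≤ e b) →
        Gy k G (Bby (i + 1) F J S w R e u)) : Gy k G (Yfy (i + 1) F J S w) := by
  refine hA.gyf h fun R hR => ?_
  have hD : s ≤ (i + 1 + 2) * s := Nat.le_mul_of_pos_left _ (by omega)
  refine hA.fcy.strata h (hA.lc_yr hR) ((i + 1 + 2) * s : ℕ) (by exact_mod_cast hD)
    fun f bd inj => ?_
  refine hA.gun (f := f) h hR fun ν hν u hu hl hfix => ?_
  have hI := is_eby hR hD bd
  exact (hA.gft h hI.1 _ (fun g => (bd (.inl g)).1)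
    (h1 ν hν u hu hfix _ R _ hI.1 hI.2)).congr fun y => hA.ft_iff hR bd inj hl hfix y

end Pool.Agent.CXD
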