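import Pool.Agent.P.MP_2ce3e7_ag.SY2B

/-! Labels of bars. -/

set_option linter.unusedSectionVars false
set_option linter.unusedVariables false

open Function Matrix Submodule

noncomputable section

namespace Pool.Agent.CXD
variable {k Ω : Type} [Field k] [Field Ω] [Algebra k Ω] {n κ : Type} [Fintype n]

/-- the representative of a residue class in the window that ends at `c + 1` -/
def repy (M : ℕ) (c : ℤ) (l : ZMod M) : ℤ := c + 1 - (((c + 1 : ℤ) : ZMod M) - l).val

/-- from labels to bars -/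
def laby (κ : Type) (M : ℕ) (c : ℤ) : ZMod M ⊕ κ → ℤ ⊕ κ := Sum.map (repy M c) id

/-- the labels alive at `c` -/
def Sly (κ : Type) (M : ℕ) (R : ℤ → Prop) (f : ℤ → ℤ) (c : ℤ) : Set (ZMod M ⊕ κ) :=
  laby κ M c ⁻¹' bsy κ R f c

/-- the shift of labels -/
def shy (κ : Type) (M s : ℕ) : Equiv.Perm (ZMod M ⊕ κ) :=
  Equiv.sumCongr (Equiv.addRight (s : ZMod M)) (Equiv.refl κ)

/-- the semilinear map on coefficients -/
def Fly (q : ℕ) (κ : Type) (M s : ℕ) : Equiv.Perm (ZMod M ⊕ κ → Ω) :=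
  Equiv.arrowCongr (shy κ M s) (frq q)

/-- the vector with given coefficients -/
def decy [Fintype κ] (M : ℕ) [NeZero M] (v : ℤ ⊕ κ → n → Ω) (c : ℤ) (y : ZMod M ⊕ κ → Ω) : n → Ω :=
  ∑ j, y j • v (laby κ M c j)

section
variable {M s D : ℕ} [NeZero M] {c b : ℤ} {R : ℤ → Prop} {f : ℤ → ℤ}

theorem repy_cast (c : ℤ) (l : ZMod M) : (repy M c l : ZMod M) = l := by
  rw [repy, Int.cast_sub, Int.cast_natCast, ZMod.natCast_zmod_val, sub_sub_cancel]

theorem repy_mem (c : ℤ) (l : ZMod M) : c + 1 - M < repy M c l ∧ repy M c l ≤ c + 1 := by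
  have := ZMod.val_lt (((c + 1 : ℤ) : ZMod M) - l)
  rw [repy]
  omega

theorem repy_of (h1 : c + 1 - M < b) (h2 : b ≤ c + 1) : repy M c (b : ZMod M) = b := by
  have h3 := repy_mem c (b : ZMod M)
  have h4 := (ZMod.intCast_eq_intCast_iff_dvd_sub _ _ M).1 (repy_cast c (b : ZMod M))
  have h5 := Int.eq_zero_of_abs_lt_dvd h4 (abs_lt.2 ⟨by omega, by omega⟩)
  omega

theorem laby_inj (c : ℤ) : Injective (laby κ M c) :=
  Sum.map_injective.2 ⟨fun l l' e => by rw [← repy_cast c l, e, repy_cast], injective_id⟩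

theorem laby_add (c : ℤ) (j : ZMod M ⊕ κ) :
    laby κ M (c + s) (shy κ M s j) = Sum.map (· + (s : ℤ)) id (laby κ M c j) := by
  cases j with
  | inl l =>
    have e : ((c + s + 1 : ℤ) : ZMod M) - (l + s) = ((c + 1 : ℤ) : ZMod M) - l := by
      push_cast
      ring
    change Sum.inl (repy M (c + s) (l + s)) = Sum.inl (repy M c l + s)
    rw [repy, repy, e]
    congr 1
    ring
  | inr a => rfl

theorem Is.laby_succ (h : Is s D R f) {j : ZMod (D + 2) ⊕ κ} (hj : j ∈ Sly κ (D + 2) R f (c + 1)) :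
    laby κ (D + 2) (c + 1) j = laby κ (D + 2) c j := by
  cases j with
  | inl l =>
    obtain ⟨-, h1, h2⟩ : repy (D + 2) (c + 1) l ∈ clq R f (c + 1) := hj
    have h3 := h.hi (repy (D + 2) (c + 1) l)
    change Sum.inl (repy (D + 2) (c + 1) l) = Sum.inl (repy (D + 2) c l)
    rw [← repy_of (M := D + 2) (c := c) (b := repy (D + 2) (c + 1) l) (by push_cast; omega) h1,
      repy_cast]
  | inr a => rfl

theorem Is.laby_img (h : Is s D R f) (c : ℤ) :
    laby κ (D + 2) c '' Sly κ (D + 2) R f c = bsy κ R f c ∧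
      laby κ (D + 2) c '' Sly κ (D + 2) R f (c + 1) = bsy κ R f (c + 1) := by
  constructor
  · refine Set.image_preimage_eq_of_subset fun x hx => ?_
    cases x with
    | inl b =>
      obtain ⟨-, h1, h2⟩ : b ∈ clq R f c := hx
      have h3 := h.hi b
      exact ⟨.inl b, congrArg Sum.inl (repy_of (by push_cast; omega) (by omega))⟩
    | inr a => exact ⟨.inr a, rfl⟩
  · ext x
    constructor
    · rintro ⟨j, hj, rfl⟩
      rw [← h.laby_succ hj]
      exact hj
    · intro hx
      cases x with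
      | inl b =>
        obtain ⟨h0, h1, h2⟩ : b ∈ clq R f (c + 1) := hx
        have h3 := h.hi b
        refine ⟨.inl b, ?_, congrArg Sum.inl (repy_of (by push_cast; omega) h1)⟩
        change repy (D + 2) (c + 1) b ∈ clq R f (c + 1)
        rw [repy_of (by push_cast; omega) (by omega)]
        exact ⟨h0, h1, h2⟩
      | inr a => exact ⟨.inr a, trivial, rfl⟩

theorem Is.sly_add (h : Is s D R f) (c : ℤ) (j : ZMod M ⊕ κ) :
    shy κ M s j ∈ Sly κ M R f (c + s) ↔ j ∈ Sly κ M R f c := by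
  rw [Sly, Sly, Set.mem_preimage, Set.mem_preimage, laby_add, h.bsy_add]
  exact (Sum.map_injective.2 ⟨add_left_injective _, injective_id⟩).mem_set_image

end

variable {q s i D : ℕ} [Sq k q] [IsAlgClosed Ω] [NeZero s] {F : Equiv.Perm (n → Ω)}
  {J : Mp n Ω} {S : ℤ → Set n} {w : ZMod s → ℕ} {R : ℤ → Prop} {f : ℤ → ℤ} [Fintype κ]
  {u : κ → n → Ω}

theorem Is.amy (h : Is s D R f) :
    Amy k q s (Fly q κ (D + 2) s : Equiv.Perm (_ → Ω)) 0 (Sly κ (D + 2) R f) := by
  have hq := (Sq.su : Su k q)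
  have key : ∀ (y : ZMod (D + 2) ⊕ κ → Ω) j,
      Fly q κ (D + 2) s y j = y ((shy κ (D + 2) s).symm j) ^ q := fun y j => fr_apply k _
  refine ⟨⟨fun x y => funext fun j => ?_, fun t x => funext fun j => ?_,
    Pq.pi fun j => po_fr.comp (Pq.apply ((shy κ (D + 2) s).symm j)),
    Pq.pi fun j => po_fr_symm.comp (Pq.apply (shy κ (D + 2) s j))⟩, inferInstanceAs (Kr k (0 : Matrix _ _ Ω)),
    inferInstanceAs (Kr k (0 : Matrix _ _ Ω)), fun v v' => by simp [Isq], fun c v => ⟨fun h1 j hj => ?_, fun h1 j hj => ?_⟩,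
    fun v hv h1 => kr_pi fun j => ?_⟩
  · rw [Pi.add_apply, key, key, key, Pi.add_apply, hq.add_pow]
  · rw [Pi.smul_apply, key, key, Pi.smul_apply, smul_eq_mul, smul_eq_mul, mul_pow]
  · have h2 := h1 (shy κ (D + 2) s j) (mt (h.sly_add c j).1 hj)
    rw [key, Equiv.symm_apply_apply] at h2
    exact (pow_eq_zero_iff hq.pos.ne').1 h2
  · rw [key, h1 _ (fun h2 => hj ?_), zero_pow hq.pos.ne']
    have h3 := (h.sly_add c _).2 h2
    rwa [Equiv.apply_symm_apply] at h3
  · cases j with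
    | inl l =>
      rw [h1 ((l.val : ℤ) - 1) (.inl l) fun h2 => ?_]
      · infer_instance
      · obtain ⟨-, h3, -⟩ : repy (D + 2) ((l.val : ℤ) - 1) l ∈ clq R f ((l.val : ℤ) - 1) := h2
        have h4 := repy_of (M := D + 2) (c := (l.val : ℤ) - 1) (b := l.val)
          (by push_cast; omega) (by omega)
        rw [Int.cast_natCast, ZMod.natCast_zmod_val] at h4
        omega
    | inr a =>
      have h2 : v (.inr a) ^ q = v (.inr a) := (key v (.inr a)).symm.trans (congrFun hv _)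
      exact (hq.kr_iff _).2 (by rw [sq, pow_mul, h2, h2])

theorem pext_decy (hF : Sem k q F) (hu : ∀ a, F (u a) = u a) (M : ℕ) [NeZero M]
    (X : ZMod s → n → Ω) (y : ZMod s → Fin i → ZMod M ⊕ κ → Ω) (c : ℤ) :
    pext (fry _ F) s (fun d a => decy M (Sum.elim (pext F s X) u) d.val (y d a)) c =
      fun a => decy M (Sum.elim (pext F s X) u) c (pext (fry _ (Fly q κ M s)) s y c a) := by
  have h1 : ∀ x, Sum.elim (pext F s X) u (Sum.map (· + (s : ℤ)) id x) =
      F (Sum.elim (pext F s X) u x) := fun x => by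
    cases x with
    | inl b => exact pe_pext F X b
    | inr a => exact (hu a).symm
  have h2 : ∀ (c : ℤ) z, decy M (Sum.elim (pext F s X) u) (c + s) (Fly q κ M s z) =
      F (decy M (Sum.elim (pext F s X) u) c z) := fun c z => by
    rw [decy, decy, hF.sum, ← Equiv.sum_comp (shy κ M s)]
    refine Finset.sum_congr rfl fun j _ => ?_
    have e : Fly q κ M s z (shy κ M s j) = z j ^ q := by
      rw [← fr_apply k]
      exact congrArg (fun t => frq q (z t)) ((shy κ M s).symm_apply_apply j)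
    rw [laby_add, h1, hF.smul, e]
  have h3 : Pe (fry (Fin i) F) s fun c a =>
      decy M (Sum.elim (pext F s X) u) c (pext (fry _ (Fly q κ M s)) s y c a) := fun c => by
    funext a
    simp only [pe_pext _ y c]
    exact h2 c _
  refine congrFun ((pe_pext _ _).ext' h3 fun d h4 h5 => ?_) c
  simp only [pext_of_mem h4 h5, val_SE1 h4 h5]

end Pool.Agent.CXD
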