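import Pool.Agent.P.MP_2ce3e7_ag.SY9

/-! Frames in terms of coefficients. -/

set_option linter.unusedSectionVars false
set_option linter.unusedVariables false

open Function Matrix Submodule

noncomputable section

namespace Pool.Agent.CXD
variable {k Ω : Type} [Field k] [Field Ω] [Algebra k Ω] {n κ : Type} [Fintype n]
  {q s i D : ℕ} [Sq k q] [IsAlgClosed Ω] [NeZero s] {F : Equiv.Perm (n → Ω)}
  {J : Mp n Ω} {S : ℤ → Set n} {w : ZMod s → ℕ} {R : ℤ → Prop} {f : ℤ → ℤ} [Fintype κ]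
  {u : κ → n → Ω}

section
variable {ι : Type} [Fintype ι] {v : ι → n → Ω} {A : Set ι}

theorem inj_SY9B (hl : LinearIndepOn Ω v A) {t t' : ι → Ω} (ht : ∀ j, j ∉ A → t j = 0)
    (ht' : ∀ j, j ∉ A → t' j = 0)
    (e : Fintype.linearCombination Ω v t = Fintype.linearCombination Ω v t') : t = t' := by
  rw [← cofy_eq hl ht, ← cofy_eq hl ht']
  exact congrArg _ e

theorem sup_SY9B {B : Set (ι → Ω)} (hB : ∀ t ∈ B, ∀ j, j ∉ A → t j = 0) {t : ι → Ω}
    (ht : t ∈ span Ω B) (j : ι) (hj : j ∉ A) : t j = 0 := by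
  have : span Ω B ≤ LinearMap.ker (LinearMap.proj j : (ι → Ω) →ₗ[Ω] Ω) :=
    span_le.2 fun t ht => hB t ht j hj
  exact this ht

theorem li_SY9B (hl : LinearIndepOn Ω v A) {y : Fin i → ι → Ω} (hy : ∀ a j, j ∉ A → y a j = 0) :
    LinearIndependent Ω (Fintype.linearCombination Ω v ∘ y) ↔ LinearIndependent Ω y := by
  refine ⟨LinearIndependent.of_comp _, fun h => h.map (disjoint_def.2 fun t h1 h2 => ?_)⟩
  refine inj_SY9B hl (sup_SY9B ?_ h1) (fun _ _ => rfl) (by rw [map_zero]; exact h2)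
  rintro _ ⟨a, rfl⟩
  exact hy a

theorem map_SY9B (φ : (ι → Ω) →ₗ[Ω] n → Ω) (y : Fin i → ι → Ω) (l : ℕ) :
    lvs (φ ∘ y) l = (lvs y l).map φ := by
  simp only [lvs, map_span, Set.image_comp]

theorem le_SY9B (hl : LinearIndepOn Ω v A) {y y' : Fin i → ι → Ω}
    (hy : ∀ a j, j ∉ A → y a j = 0) (hy' : ∀ a j, j ∉ A → y' a j = 0) {l : ℕ}
    (e : lvs (Fintype.linearCombination Ω v ∘ y) l = lvs (Fintype.linearCombination Ω v ∘ y') l) :
    lvs y l ≤ lvs y' l := by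
  intro t ht
  rw [map_SY9B, map_SY9B] at e
  obtain ⟨t', h1, h2⟩ := e.le (mem_map_of_mem ht)
  have : t' = t := by
    refine inj_SY9B hl (sup_SY9B ?_ h1) (sup_SY9B ?_ ht) h2
    · rintro _ ⟨a, -, rfl⟩
      exact hy' a
    · rintro _ ⟨a, -, rfl⟩
      exact hy a
  exact this ▸ h1

theorem lvs_SY9B (hl : LinearIndepOn Ω v A) {y y' : Fin i → ι → Ω}
    (hy : ∀ a j, j ∉ A → y a j = 0) (hy' : ∀ a j, j ∉ A → y' a j = 0) (l : ℕ) :
    lvs (Fintype.linearCombination Ω v ∘ y) l = lvs (Fintype.linearCombination Ω v ∘ y') l ↔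
      lvs y l = lvs y' l :=
  ⟨fun e => le_antisymm (le_SY9B hl hy hy' e) (le_SY9B hl hy' hy e.symm),
    fun e => by rw [map_SY9B, map_SY9B, e]⟩

end

theorem rank_SY9B {ι : Type} {v : ι → n → Ω} {B : Set ι} (hB : B.Finite)
    (hl : LinearIndepOn Ω v B) : Module.finrank Ω (span Ω (v '' B)) = B.ncard := by
  have := hB.fintype
  rw [Set.image_eq_range, finrank_span_eq_card hl, ← Nat.card_eq_fintype_card,
    Nat.card_coe_set_eq]

theorem sub_SY9B {ι : Type} {v : ι → n → Ω} {B B' : Set ι} (hl : LinearIndepOn Ω v (B ∪ B'))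
    (e : span Ω (v '' B) ≤ span Ω (v '' B')) : B ⊆ B' := by
  intro j hj
  by_contra h
  refine hl.notMem_span (Or.inl hj) (span_mono (Set.image_mono ?_)
    (e (subset_span ⟨j, hj, rfl⟩)))
  exact fun a ha => ⟨Or.inr ha, fun e => h (Set.mem_singleton_iff.1 e ▸ ha)⟩

/-- frames in terms of coefficients -/
theorem Amy.bb_iff (hA : Amy k q s F J S) (hi : Is s D R f) (hu : ∀ a, F (u a) = u a)
    (hc : ∀ c, (bsy κ R f c).ncard = i) {X : ZMod s → n → Ω} (hX : Bary F J S s R f u X)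
    (y : ZMod s → Fin i → ZMod (D + 2) ⊕ κ → Ω)
    (hy : ∀ (c : ZMod s) a j, j ∉ Sly κ (D + 2) R f c.val → y c a j = 0) :
    Bby i F J S w R f u (X, fun d a => decy (D + 2) (Sum.elim (pext F s X) u) d.val (y d a)) ↔
      Yfy i (Fly q κ (D + 2) s) 0 (Sly κ (D + 2) R f) w y := by
  have hs : ∀ (c : ℤ) a j, j ∉ Sly κ (D + 2) R f c →
      pext (fry _ (Fly q κ (D + 2) s)) s y c a j = 0 := fun c a => by
    refine per_ind s (P := fun c => ∀ j, j ∉ Sly κ (D + 2) R f c →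
      pext (fry _ (Fly q κ (D + 2) s)) s y c a j = 0) (fun c => ?_) 0 (fun c h0 h1 => ?_) c
    · rw [pe_pext _ y c]
      exact (hi.amy (k := k) (q := q) (Ω := Ω)).sup c _
    · rw [zero_add] at h1
      rw [pext_of_mem h0 h1]
      have := hy (c : ZMod s) a
      rwa [val_SE1 h0 h1] at this
  generalize hY : pext (fry _ (Fly q κ (D + 2) s)) s y = Y at hs
  set v := Sum.elim (pext F s X) u with hv
  set Z : ZMod s → Fin i → n → Ω := fun d a => decy (D + 2) v d.val (y d a) with hZ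
  have e0 : ∀ c, pext (fry _ F) s Z c =
      Fintype.linearCombination Ω (v ∘ laby κ (D + 2) c) ∘ Y c := fun c => by
    rw [hZ, hv, pext_decy hA.sem hu, hY]
    rfl
  have e1 : ∀ c, pext (fry _ F) s Z (c + 1) =
      Fintype.linearCombination Ω (v ∘ laby κ (D + 2) c) ∘ Y (c + 1) := fun c => by
    rw [e0]
    funext a
    simp only [Function.comp_apply, Fintype.linearCombination_apply]
    refine Finset.sum_congr rfl fun j _ => ?_
    by_cases hj : j ∈ Sly κ (D + 2) R f (c + 1)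
    · rw [hi.laby_succ hj]
    · rw [hs _ a j hj, zero_smul, zero_smul]
  have hl : ∀ c, LinearIndepOn Ω (v ∘ laby κ (D + 2) c)
      (Sly κ (D + 2) R f c ∪ Sly κ (D + 2) R f (c + 1)) := fun c => by
    refine LinearIndepOn.comp_of_image ?_ (laby_inj c).injOn
    rw [Set.image_union, (hi.laby_img c).1, (hi.laby_img c).2]
    exact (hX.2 c).1
  have s0 : ∀ c a j, j ∉ Sly κ (D + 2) R f c ∪ Sly κ (D + 2) R f (c + 1) → Y c a j = 0 :=
    fun c a j hj => hs c a j fun h => hj (Or.inl h)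
  have s1 : ∀ c a j, j ∉ Sly κ (D + 2) R f c ∪ Sly κ (D + 2) R f (c + 1) → Y (c + 1) a j = 0 :=
    fun c a j hj => hs (c + 1) a j fun h => hj (Or.inr h)
  have hr : ∀ c, Set.range (pext (fry _ F) s Z c) ⊆ span Ω (v '' bsy κ R f c) := fun c => by
    rintro _ ⟨a, rfl⟩
    rw [e0, ← (hi.laby_img c).1, ← Set.image_comp]
    exact mem_span_sup.2 ⟨Y c a, hs c a, rfl⟩
  constructor
  · rintro ⟨-, h, -⟩ c
    obtain ⟨h1, -, h3⟩ := h c
    dsimp only at h1 h3
    rw [hY]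
    rw [e0] at h1
    refine ⟨(li_SY9B (hl c) (s0 c)).1 h1, ⟨fun _ _ _ _ => by simp [Isq], ?_⟩, fun l h4 h5 => ?_⟩
    · rintro _ ⟨a, rfl⟩
      exact hs c a
    · have := h3 l h4 h5
      rw [e1, e0] at this
      exact (lvs_SY9B (hl c) (s0 c) (s1 c) l).1 this
  · intro h
    have h1 : ∀ c, LinearIndependent Ω (pext (fry _ F) s Z c) := fun c => by
      rw [e0]
      exact (li_SY9B (hl c) (s0 c)).2 (hY ▸ (h c).1)
    refine ⟨hX, fun c => ⟨h1 c, (oky_span.2 (hX.2 c).2).mono (hr c), fun l h4 h5 => ?_⟩,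
      fun c => ?_⟩
    · dsimp only
      rw [e1, e0]
      exact (lvs_SY9B (hl c) (s0 c) (s1 c) l).2 (hY ▸ (h c).2.2 l h4 h5)
    · refine eq_of_le_of_finrank_eq ((lvs_top _).le.trans (span_le.2 (hr c))) ?_
      rw [finrank_lvs (h1 c) le_rfl, rank_SY9B (hi.bsy_fin c)
        ((hX.2 c).1.mono Set.subset_union_left), hc]

/-- what a point of `Bby` says about the interval system -/
theorem Bby.card {y : (ZMod s → n → Ω) × (ZMod s → Fin i → n → Ω)} (h : Bby i F J S w R f u y)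
    (hi : Is s D R f) (c : ℤ) : (bsy κ R f c).ncard = i ∧
      (w c ≠ i → bsy κ R f c = bsy κ R f (c + 1)) := by
  obtain ⟨h1, h2, h3⟩ := h
  refine ⟨?_, fun hw => ?_⟩
  · rw [← rank_SY9B (hi.bsy_fin c) ((h1.2 c).1.mono Set.subset_union_left), ← h3,
      finrank_lvs (h2 c).1 le_rfl]
  · have e := (h2 c).2.2 i le_rfl hw.symm
    rw [h3, h3] at e
    exact (sub_SY9B (h1.2 c).1 e.le).antisymm
      (sub_SY9B (Set.union_comm _ _ ▸ (h1.2 c).1) e.ge)

end Pool.Agent.CXD
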