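import Pool.Agent.P.MP_2ce3e7_ag.SY2B

/-! Ambient spaces without a form. -/

set_option linter.unusedSectionVars false
set_option linter.unusedVariables false

open Function Matrix Submodule

noncomputable section

namespace Pool.Agent.CXD
variable {k Ω : Type} [Field k] [Field Ω] [Algebra k Ω] {n κ : Type} [Fintype n] {G : Gp Ω}
  {q s i D : ℕ} [Sq k q] [IsAlgClosed Ω] [NeZero s] {F : Equiv.Perm (n → Ω)} {J : Mp n Ω}
  {S : ℤ → Set n} {w : ZMod s → ℕ} {R : ℤ → Prop} {f : ℤ → ℤ} {u : κ → n → Ω}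

theorem oky_zero_SYA {T : Set n} {A : Set (n → Ω)} :
    Oky (0 : Mp n Ω) T A ↔ ∀ v ∈ A, ∀ j, j ∉ T → v j = 0 :=
  ⟨fun h => h.2, fun h => ⟨fun v _ v' _ => by simp [Isq], h⟩⟩

theorem lvs_full_SYA {T : Set n} {x : Fin i → n → Ω} (hx : LinearIndependent Ω x)
    (ho : Oky J T (Set.range x)) (hT : T.ncard = i) : lvs x i = Pi.spanSubset Ω T := by
  refine Submodule.eq_of_le_of_finrank_eq ?_ ?_
  · rw [lvs_top]
    exact Submodule.span_le.2 fun v hv => Pi.mem_spanSubset_iff.2 (ho.2 v hv)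
  · rw [finrank_lvs hx le_rfl, Pi.dim_spanSubset, hT]

theorem pext_init_SYA (X : ZMod s → Fin (i + 1) → n → Ω) (c : ℤ) :
    pext (fry (Fin i) F) s (fun d => Fin.init (X d)) c =
      Fin.init (pext (fry (Fin (i + 1)) F) s X c) :=
  pext_map (F := fry (Fin (i + 1)) F) (F' := fry (Fin i) F)
    (fun z : Fin (i + 1) → n → Ω => (Fin.init z : Fin i → n → Ω)) (fun _ => rfl) c

theorem top_iff_SYA (hA : Amy k q s F 0 S) (hc : ∀ c, (S c).ncard = i + 1)
    (he : ∀ c : ℤ, w c ≠ i + 1 → S c = S (c + 1)) (X : ZMod s → Fin (i + 1) → n → Ω) :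
    Yfy (i + 1) F 0 S w X ↔ (Yfy i F 0 S w (fun d => Fin.init (X d)) ∧
      ∀ (d : ZMod s) j, j ∉ S d.val → X d (Fin.last i) j = 0) ∧
        ∀ d, LinearIndependent Ω (X d) := by
  refine ⟨fun h => ⟨⟨fun c => ?_, fun d j hj => ?_⟩, fun d => ?_⟩, fun ⟨⟨h1, h2⟩, h3⟩ => ?_⟩
  · obtain ⟨a1, a2, a3⟩ := h c
    rw [pext_init_SYA, pext_init_SYA]
    refine ⟨a1.comp Fin.castSucc (Fin.castSucc_injective i), a2.mono ?_, fun l hl hw => ?_⟩
    · rintro _ ⟨a, rfl⟩
      exact ⟨a.castSucc, rfl⟩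
    · rw [lvs_init _ hl, lvs_init _ hl]
      exact a3 l (hl.trans i.le_succ) hw
  · have e := congrFun (res_pext (fry (Fin (i + 1)) F) X) d
    have a2 := (h d.val).2.1.2 _ ⟨Fin.last i, rfl⟩ j hj
    rw [← e]
    exact a2
  · have e := congrFun (res_pext (fry (Fin (i + 1)) F) X) d
    rw [← e]
    exact (h d.val).1
  · have key : ∀ u : ℤ, Sty 0 (S u) 0 (pext (fry (Fin (i + 1)) F) s X u)
        (pext (fry (Fin (i + 1)) F) s X u) := by
      intro u
      refine per_ind s (P := fun u => Sty 0 (S u) 0 (pext (fry (Fin (i + 1)) F) s X u)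
        (pext (fry (Fin (i + 1)) F) s X u)) (fun u => ?_) 0 (fun u a1 a2 => ?_) u
      · rw [pe_pext (fry (Fin (i + 1)) F) X u]
        exact hA.sty u 0 _ _
      · rw [zero_add] at a2
        have a3 := (h1 u).2.1.2
        rw [pext_init_SYA] at a3
        rw [pext_of_mem a1 a2] at a3 ⊢
        refine ⟨h3 _, oky_zero_SYA.2 ?_, fun _ _ _ => rfl⟩
        rintro _ ⟨a, rfl⟩ j hj
        induction a using Fin.lastCases with
        | last => exact h2 _ j (by rwa [val_SE1 a1 a2])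
        | cast a => exact a3 _ ⟨a, rfl⟩ j hj
    intro c
    refine ⟨(key c).1, (key c).2.1, fun l hl hw => ?_⟩
    rcases hl.lt_or_eq with hl | rfl
    · have hl' : l ≤ i := Nat.lt_succ_iff.1 hl
      have a := (h1 c).2.2 l hl' hw
      rwa [pext_init_SYA, pext_init_SYA, lvs_init _ hl', lvs_init _ hl'] at a
    · rw [lvs_full_SYA (key c).1 (key c).2.1 (hc c),
        lvs_full_SYA (key (c + 1)).1 (key (c + 1)).2.1 (hc _), he c hw.symm]

/-- frames of full coordinate spaces -/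
theorem Amy.top (hA : Amy k q s F 0 S) (h : Au k q G) (hc : ∀ c, (S c).ncard = i + 1)
    (he : ∀ c : ℤ, w c ≠ i + 1 → S c = S (c + 1)) (hp : Gy k G (Yfy i F 0 S w)) :
    Gy k G (Yfy (i + 1) F 0 S w) := by
  have hM : ∀ (P : (ZMod s → Fin i → n → Ω) × (ZMod s → n → Ω) → Prop) (c : ZMod s), Pq k P
      fun y => Fin.snoc (α := fun _ => n → Ω) (y.1 c) (y.2 c) := fun P c =>
    Pq.snoc ((Pq.fst Pq.id).eval c) ((Pq.snd Pq.id).eval c)
  have h1 := h.glis (hM _) (fun _ => Set.univ)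
    (h.gsupp2 (fun (d : ZMod s) (j : n) => j ∉ S d.val) hp)
  refine h.giso (fun y c => Fin.snoc (α := fun _ => n → Ω) (y.1 c) (y.2 c))
    (fun X => (fun d => Fin.init (X d), fun d => X d (Fin.last i))) (Pq.pi (hM _))
    ((Pq.pi fun d => Pq.pi fun a => (Pq.id.eval d).eval a.castSucc).mk
      (Pq.pi fun d => (Pq.id.eval d).eval (Fin.last i))) (fun y hy => ?_) (fun X hX => ?_)
    (fun y _ => ?_) (fun X _ => ?_) h1
  · rw [top_iff_SYA hA hc he]
    simp only [Fin.init_snoc, Fin.snoc_last]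
    exact ⟨hy.1, fun d => linearIndepOn_univ_iff.1 (hy.2 d)⟩
  · rw [top_iff_SYA hA hc he] at hX
    refine ⟨hX.1, fun d => linearIndepOn_univ_iff.2 ?_⟩
    simp only [Fin.snoc_init_self]
    exact hX.2 d
  · simp only [Fin.init_snoc, Fin.snoc_last]
  · simp only [Fin.snoc_init_self]

theorem Az.yf_zero (h : Az k q G) : Gy k G (Yfy 0 F J S w) :=
  (h.guniv _).congr fun X => iff_true_intro fun c =>
    ⟨linearIndependent_empty_type, ⟨fun _ ⟨a, _⟩ => a.elim0, fun _ ⟨a, _⟩ => a.elim0⟩,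
      fun l _ _ => congrArg (fun x => lvs x l) (Subsingleton.elim _ _)⟩

theorem bar_sup_SYA (hA : Amy k q s F 0 S) (hi : Is s D R f) {X : ZMod s → n → Ω}
    (hX : ∀ (d : ZMod s) j, (∃ c : ℤ, d.val ≤ c ∧ c ≤ f d.val ∧ j ∉ S c) → X d j = 0) (b : ℤ) :
    ∀ c, b ≤ c → c ≤ f b → ∀ j, j ∉ S c → pext F s X b j = 0 := by
  refine per_ind s (P := fun b => ∀ c, b ≤ c → c ≤ f b → ∀ j, j ∉ S c → pext F s X b j = 0)
    (fun b => ?_) 0 (fun b a1 a2 c a3 a4 j hj => ?_) b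
  · rw [pe_pext F X b, hi.perf]
    refine ⟨fun H c a1 a2 => (hA.sup c _).1 (H (c + s) (by linarith) (by linarith)),
      fun H c a1 a2 => ?_⟩
    have e := (hA.sup (c - s) _).2 (H (c - s) (by linarith) (by linarith))
    rwa [sub_add_cancel] at e
  · rw [zero_add] at a2
    rw [pext_of_mem a1 a2]
    exact hX _ j ⟨c, by rwa [val_SE1 a1 a2], by rwa [val_SE1 a1 a2], hj⟩

/-- bars without a form -/
theorem Amy.bar_zero (hA : Amy k q s F 0 S) (h : Az k q G) [Fintype κ] [Kr k u] (hi : Is s D R f)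
    (hu : ∀ a, F (u a) = u a) : Gy k G (Bary F 0 S s R f u) := by
  by_cases H : ∀ a c j, j ∉ S c → u a j = 0
  swap
  · exact h.toAu.gnot fun X hX => H fun a c j hj =>
      (hX.2 c).2.2 _ ⟨Sum.inr a, trivial, rfl⟩ j hj
  have h1 := h.toAu.gsupp2 (fun (d : ZMod s) (j : n) =>
    ¬R d.val ∨ ∃ c : ℤ, d.val ≤ c ∧ c ≤ f d.val ∧ j ∉ S c) (h.guniv (Fin 0 → Ω))
  have h2 : Gy k G fun X : ZMod s → n → Ω => ∀ (d : ZMod s) (j : n),
      (¬R d.val ∨ ∃ c : ℤ, d.val ≤ c ∧ c ≤ f d.val ∧ j ∉ S c) → X d j = 0 :=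
    h.toAu.giso (fun y => y.2) (fun X => (fun a => a.elim0, X)) (Pq.snd Pq.id)
      ((Pq.pi (f := fun _ (a : Fin 0) => (a.elim0 : Ω)) fun a => a.elim0).mk Pq.id) (fun _ hy => hy.2) (fun _ hX => ⟨trivial, hX⟩)
      (fun _ _ => Prod.ext (Subsingleton.elim _ _) rfl) (fun _ _ => rfl) h1
  have h3 := h.toAu.glif (T := ZMod s) (M := fun X => Sum.elim (pext F s X) u)
    (fun j => by
      rcases j with b | a
      · exact Pq.pext hA.sem.po hA.sem.po' Pq.id b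
      · have := Kr.eval (k := k) (c := u) inferInstance a
        exact Pq.const (u a))
    (A := fun c => bsy κ R f c.val ∪ bsy κ R f (c.val + 1))
    (fun c => (hi.bsy_fin _).union (hi.bsy_fin _)) h2
  refine h3.congr fun X => ⟨fun hX => ⟨fun d j hd => ?_, fun c => (hX.2 c.val).1⟩,
    fun hX => (hA.bar_iff hi hu X).2 ⟨fun c hc => funext fun j => hX.1 c j (Or.inl hc),
      fun c => ⟨hX.2 c, oky_zero_SYA.2 ?_⟩⟩⟩
  · rw [← congrFun (res_pext F X) d]
    by_cases hR : R d.val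
    · obtain ⟨c, a1, a2, a3⟩ := hd.resolve_left (not_not.2 hR)
      exact (hX.2 c).2.2 _ ⟨Sum.inl d.val, ⟨hR, a1, a2⟩, rfl⟩ j a3
    · exact congrFun (hX.1 _ hR) j
  · rintro _ ⟨b | a, hb, rfl⟩ j hj
    · exact bar_sup_SYA hA hi (fun d j e => hX.1 d j (Or.inr e)) b _ hb.2.1 hb.2.2 j hj
    · exact H a _ j hj

end Pool.Agent.CXD
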