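import Pool.Agent.P.MP_2ce3e7_ag.SY2B

/-! Vectors orthogonal to fixed isotropic vectors. -/

set_option linter.unusedSectionVars false
set_option linter.unusedVariables false

open Function Matrix Submodule

noncomputable section

namespace Pool.Agent.CXD
variable {k Ω : Type} [Field k] [Field Ω] [Algebra k Ω] {G : Gp Ω} {q s D : ℕ} [Sq k q]
  [IsAlgClosed Ω] [NeZero s] {R : ℤ → Prop} {f : ℤ → ℤ}

section
variable {ι κ : Type} [Fintype ι] [Fintype κ]

/-- a vector orthogonal to the first basis vectors -/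
def emy (y : (ι ⊕ ι → Ω) × (κ → Ω)) : (κ ⊕ ι) ⊕ (κ ⊕ ι) → Ω :=
  Sum.elim (Sum.elim y.2 fun a => y.1 (.inl a)) (Sum.elim 0 fun a => y.1 (.inr a))

theorem bf_emy (ε : ℤˣ) (y y' : (ι ⊕ ι → Ω) × (κ → Ω)) :
    Bf ε (emy y) (emy y') = Bf ε y.1 y'.1 := by
  rw [Bf, Bf, Fintype.sum_sum_type]
  simp only [emy, Sum.elim_inl, Sum.elim_inr, Pi.zero_apply, mul_zero, zero_mul, add_zero,
    Finset.sum_const_zero, zero_add]

theorem fv_emy (k : Type) [Field k] [Algebra k Ω] [Sq k q] (ε : ℤˣ) (b : ι → Bool)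
    (y : (ι ⊕ ι → Ω) × (κ → Ω)) : FV q ε (Sum.elim (fun _ => false) b) (emy y) =
      emy (FV q ε b y.1, fry κ (frq q) y.2) := by
  have h0 : q ≠ 0 := (Sq.su : Su k q).pos.ne'
  funext j
  rcases j with (a | a) | (a | a)
  · rw [FV_inl ε _ _ k]
    exact (fr_apply k _).symm
  · rw [FV_inl ε _ _ k]
    exact (FV_inl ε b y.1 k a).symm
  · rw [FV_inr ε _ _ k]
    change sg ε * (0 : Ω) ^ q = 0
    rw [zero_pow h0, mul_zero]
  · rw [FV_inr ε _ _ k]
    exact (FV_inr ε b y.1 k a).symm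

/-- the embedding as a linear map -/
def eml_SYB (Ω : Type) [Field Ω] (ι κ : Type) :
    ((ι ⊕ ι → Ω) × (κ → Ω)) →ₗ[Ω] ((κ ⊕ ι) ⊕ (κ ⊕ ι) → Ω) where
  toFun := emy
  map_add' y y' := by
    funext j
    rcases j with (a | a) | (a | a)
    · rfl
    · rfl
    · exact (add_zero (0 : Ω)).symm
    · rfl
  map_smul' t y := by
    funext j
    rcases j with (a | a) | (a | a)
    · rfl
    · rfl
    · exact (mul_zero t).symm
    · rfl

theorem single_emy_SYB [DecidableEq ι] [DecidableEq κ] (a : κ) :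
    (Pi.single (.inl (.inl a)) 1 : (κ ⊕ ι) ⊕ (κ ⊕ ι) → Ω) = emy (0, Pi.single a 1) := by
  funext j
  rcases j with (c | c) | (c | c)
  · change _ = (Pi.single a 1 : κ → Ω) c
    simp only [Pi.single_apply, Sum.inl.injEq]
  · exact Pi.single_eq_of_ne (fun h => Sum.inr_ne_inl (Sum.inl_injective h)) _
  · exact Pi.single_eq_of_ne Sum.inr_ne_inl _
  · exact Pi.single_eq_of_ne Sum.inr_ne_inl _

theorem sum_emy_SYB [DecidableEq ι] [DecidableEq κ] {T : Type} (x : T → ι ⊕ ι → Ω)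
    (y : T → κ → Ω) (t : Finset T) (u : Finset κ) (g : T ⊕ κ → Ω) :
    ∑ j ∈ t.disjSum u, g j • Sum.elim (fun t => emy (x t, y t))
      (fun a : κ => (Pi.single (.inl (.inl a)) 1 : (κ ⊕ ι) ⊕ (κ ⊕ ι) → Ω)) j =
    emy (∑ j ∈ t, g (.inl j) • x j,
      ∑ j ∈ t, g (.inl j) • y j + ∑ a ∈ u, g (.inr a) • (Pi.single a 1 : κ → Ω)) := by
  rw [Finset.sum_disjSum]
  simp only [Sum.elim_inl, Sum.elim_inr, single_emy_SYB]
  change ∑ j ∈ t, g (.inl j) • eml_SYB Ω ι κ (x j, y j) +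
    ∑ a ∈ u, g (.inr a) • eml_SYB Ω ι κ (0, Pi.single a 1) = eml_SYB Ω ι κ _
  simp only [← map_smul, ← map_sum, ← map_add]
  refine congrArg _ (Prod.ext ?_ ?_)
  · simp only [Prod.fst_add, Prod.fst_sum, Prod.smul_fst, smul_zero, Finset.sum_const_zero,
      add_zero]
  · simp only [Prod.snd_add, Prod.snd_sum, Prod.smul_snd]

theorem emy_eq_zero_SYB {y : (ι ⊕ ι → Ω) × (κ → Ω)} : emy y = 0 ↔ y.1 = 0 ∧ y.2 = 0 := by
  constructor
  · intro h
    refine ⟨funext fun j => ?_, funext fun a => congrFun h (.inl (.inl a))⟩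
    rcases j with a | a
    · exact congrFun h (.inl (.inr a))
    · exact congrFun h (.inr (.inr a))
  · rintro ⟨h1, h2⟩
    funext j
    rcases j with (a | a) | (a | a)
    · exact congrFun h2 a
    · exact congrFun h1 (.inl a)
    · rfl
    · exact congrFun h1 (.inr a)

theorem li_emy [DecidableEq ι] [DecidableEq κ] {T : Type} (x : T → ι ⊕ ι → Ω) (y : T → κ → Ω)
    (A : Set T) : LinearIndepOn Ω (Sum.elim (fun t => emy (x t, y t))
      fun a : κ => (Pi.single (.inl (.inl a)) 1 : (κ ⊕ ι) ⊕ (κ ⊕ ι) → Ω))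
      {j | j.elim (fun t => t ∈ A) fun _ => True} ↔ LinearIndepOn Ω x A := by
  classical
  rw [linearIndepOn_iff', linearIndepOn_iff']
  constructor
  · intro h t g ht h0 i hi
    refine h (t.disjSum Finset.univ) (Sum.elim g (-∑ i ∈ t, g i • y i)) ?_ ?_ (.inl i)
      (Finset.inl_mem_disjSum.2 hi)
    · rintro (j | j) hj
      · exact ht (Finset.inl_mem_disjSum.1 hj)
      · trivial
    · rw [sum_emy_SYB, emy_eq_zero_SYB]
      refine ⟨h0, ?_⟩
      simp only [Sum.elim_inl, Sum.elim_inr]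
      rw [← pi_eq_sum_univ']
      exact add_neg_cancel _
  · intro h t g ht h0
    rw [← Finset.toLeft_disjSum_toRight (u := t), sum_emy_SYB, emy_eq_zero_SYB] at h0
    have e1 := h t.toLeft (fun j => g (.inl j)) (fun j hj => ht (Finset.mem_toLeft.1 hj)) h0.1
    rintro (i | a) hi
    · exact e1 i (Finset.mem_toLeft.2 hi)
    · have e2 := h0.2
      dsimp only at e2
      rw [Finset.sum_eq_zero fun j hj => by rw [e1 j hj, zero_smul], zero_add] at e2
      have e3 := congrFun e2 a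
      simp only [Finset.sum_apply, Pi.smul_apply, Pi.single_apply, smul_eq_mul, mul_ite, mul_one,
        mul_zero, Finset.sum_ite_eq, Pi.zero_apply] at e3
      rwa [if_pos (Finset.mem_toRight.2 hi)] at e3

end

variable {n : Type} [Fintype n] [DecidableEq n] {J K : Matrix n n Ω}

theorem dot_fry (k : Type) [Field k] [Algebra k Ω] [Sq k q] {t : Ω} (hJ : fm q J = t • J)
    (v v' : n → Ω) : t * (fry n (frq q) v ⬝ᵥ J *ᵥ fry n (frq q) v') = (v ⬝ᵥ J *ᵥ v') ^ q := by
  have hq : Su k q := Sq.su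
  have hF : ∀ v : n → Ω, fry n (frq q) v = fun i => v i ^ q := fun v =>
    funext fun i => fr_apply k (v i)
  rw [← smul_eq_mul, ← dotProduct_smul, ← Matrix.smul_mulVec, ← hJ, hF, hF, hq.fm_mulVec]
  simp only [dotProduct, hq.sum_pow, mul_pow]

theorem amy_fr (ε : ℤˣ) (s : ℕ) (hJ : fm q J = (sg ε : Ω) • J) (hK : fm q K = K) :
    Amy k q s (fry n (frq q)) (J, K) fun _ => Set.univ := by
  have hq : Su k q := Sq.su
  have hF : ∀ v : n → Ω, fry n (frq q) v = fun i => v i ^ q := fun v =>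
    funext fun i => fr_apply k (v i)
  refine ⟨⟨fun x y => funext fun i => sem_fr (k := k).add (x i) (y i),
    fun t x => funext fun i => sem_fr (k := k).smul t (x i),
    Pq.pi fun i => po_fr.comp (Pq.apply i), Pq.pi fun i => po_fr_symm.comp (Pq.apply i)⟩,
    kr_mat_SA5 (q := q) ?_, kr_mat_SA5 (q := q) (by rw [hK, hK]), fun v v' => ?_, fun c v => ?_, fun v hv _ => ?_⟩
  · rw [hJ, hq.fm_smul, hJ, sg_pow k, smul_smul, sg_mul_self, one_smul]
  · have e := fun v v' => (one_mul _).symm.trans (dot_fry k (hK.trans (one_smul Ω K).symm) v v')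
    refine and_congr ?_ (by rw [e, e, e, ← hq.add_pow, pow_eq_zero_iff hq.pos.ne',
      pow_eq_zero_iff hq.pos.ne'])
    rw [← pow_eq_zero_iff hq.pos.ne' (a := v ⬝ᵥ J *ᵥ v'), ← dot_fry k hJ, mul_eq_zero,
      or_iff_right (sg_ne ε)]
  · simp only [Set.mem_univ, not_true, false_imp_iff, implies_true]
  · refine kr_pi fun j => (hq.kr_iff _).2 ?_
    have e : v j ^ q = v j := by
      have := congrFun hv j
      rwa [hF] at this
    rw [sq, pow_mul, e, e]

end Pool.Agent.CXD
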