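import Pool.Agent.P.MP_2ce3e7_ag.SY8B
import Pool.Agent.P.MP_2ce3e7_ag.SY9B
import Pool.Agent.P.MP_2ce3e7_ag.SYA

/-! The step of the induction. -/

set_option linter.unusedSectionVars false
set_option linter.unusedVariables false

open Function Matrix Submodule

noncomputable section

namespace Pool.Agent.CXD
variable {k Ω : Type} [Field k] [Field Ω] [Algebra k Ω] {n κ : Type} [Fintype n] {G : Gp Ω}
  {q s i D : ℕ} [Sq k q] [IsAlgClosed Ω] [NeZero s] {F : Equiv.Perm (n → Ω)} {J : Mp n Ω}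
  {S : ℤ → Set n} {w : ZMod s → ℕ} {R : ℤ → Prop} {f : ℤ → ℤ} {u : κ → n → Ω}

theorem Amy.gb (hA : Amy k q s F J S) (h : Az k q G) [Fintype κ] [Kr k u] (hi : Is s D R f)
    (hu : ∀ a, F (u a) = u a) (h1 : Gy k G (Bary F J S s R f u))
    (h2 : ∀ G' : Gp Ω, Az k q G' → Gy k G' (Yfy i (Fly q κ (D + 2) s : Equiv.Perm (_ → Ω)) 0
      (Sly κ (D + 2) R f) w)) : Gy k G (Bby (i + 1) F J S w R f u) := by
  by_cases h0 : ∃ y, Bby (i + 1) F J S w R f u y
  swap
  · exact h.toAu.gnot fun y hy => h0 ⟨y, hy⟩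
  obtain ⟨y₀, hy₀⟩ := h0
  have hb : ∀ c, (bsy κ R f c).ncard = i + 1 := fun c => (hy₀.card hi c).1
  have hc : ∀ c, (Sly κ (D + 2) R f c).ncard = i + 1 := fun c => by
    rw [← hb c, ← (hi.laby_img c).1, Set.ncard_image_of_injective _ (laby_inj c)]
  have he : ∀ c : ℤ, w c ≠ i + 1 → Sly κ (D + 2) R f c = Sly κ (D + 2) R f (c + 1) :=
    fun c hw => (laby_inj (κ := κ) (M := D + 2) c).image_injective <| by
      rw [(hi.laby_img c).1, (hi.laby_img c).2, (hy₀.card hi c).2 hw]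
  have h3 := h.gprod h1 fun G' h' => (hi.amy (k := k)).top h'.toAu hc he (h2 G' h')
  have im : ∀ (X : ZMod s → n → Ω) (c : ℤ),
      (fun j => Sum.elim (pext F s X) u (laby κ (D + 2) c j)) '' Sly κ (D + 2) R f c =
        Sum.elim (pext F s X) u '' bsy κ R f c := fun X c => by
    rw [← (hi.laby_img c).1, Set.image_image]
  refine ((h.toAu.gcof2 (p := Bary F J S s R f u) (T := ZMod s) (T' := Fin (i + 1))
    (M := fun c X j => Sum.elim (pext F s X) u (laby κ (D + 2) c.val j)) (fun c => ?_)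
    (fun c => Sly κ (D + 2) R f c.val) (fun c X hX => ?_) (Bby (i + 1) F J S w R f u)).2
    (h3.congr fun y => ?_)).congr fun y => ?_
  · refine Pq.pi fun j => ?_
    cases j with
    | inl l => exact Pq.pext hA.sem.po hA.sem.po' Pq.id _
    | inr a => exact (Pq.const u).eval a
  · refine LinearIndepOn.comp_of_image ?_ (laby_inj _).injOn
    rw [(hi.laby_img _).1]
    exact (hX.2 _).1.mono Set.subset_union_left
  · refine and_congr_right fun hX => ⟨fun a => (hA.bb_iff hi hu hb hX y.2 a.1).1 a.2, fun a => ?_⟩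
    have hy : ∀ (c : ZMod s) a j, j ∉ Sly κ (D + 2) R f c.val → y.2 c a j = 0 := fun c b =>
      (((hi.amy (k := k)).yf_iff _).1 a c).2.1.2 _ ⟨b, rfl⟩
    exact ⟨hy, (hA.bb_iff hi hu hb hX y.2 hy).2 a⟩
  · refine ⟨fun a => ⟨a.1, fun c b => ?_, a⟩, fun a => a.2.2⟩
    rw [im, ← a.2.2 c.val, lvs_top]
    exact subset_span ⟨b, congrFun (congrFun (res_pext (fry _ F) y.2) c) b⟩

/-- the step -/
theorem Amy.step (hA : Amy k q s F J S) (h : Az k q G)
    (h1 : ∀ ν ≤ i + 1, ∀ u : Fin ν → n → Ω, Kr k u → (∀ a, F (u a) = u a) →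
      ∀ (D : ℕ) (R : ℤ → Prop) (e : ℤ → ℤ), Is s D R e → (∀ b, b ≤ e b) →
        Gy k G (Bary F J S s R e u))
    (h2 : ∀ (n' : Type) [Fintype n'] (F' : Equiv.Perm (n' → Ω)) (S' : ℤ → Set n') (G' : Gp Ω),
      Amy k q s F' 0 S' → Az k q G' → Gy k G' (Yfy i F' 0 S' w)) :
    Gy k G (Yfy (i + 1) F J S w) :=
  hA.gbb h.toAu fun ν hν u hk hu D R e hi he =>
    hA.gb h hi hu (h1 ν hν u hk hu D R e hi he) fun G' h' => h2 _ _ _ G' hi.amy h'

theorem Az.yf (i : ℕ) : ∀ (n : Type) [Fintype n] (F : Equiv.Perm (n → Ω)) (S : ℤ → Set n)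
    (G : Gp Ω), Amy k q s F 0 S → Az k q G → Gy k G (Yfy i F 0 S w) := by
  induction i with
  | zero => exact fun n _ F S G _ h => h.yf_zero
  | succ i ih =>
    exact fun n _ F S G hA h => hA.step h (fun ν _ u _ hu D R e hi _ => hA.bar_zero h hi hu) ih

end Pool.Agent.CXD
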