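import Pool.Agent.P.MP_2ce3e7_ag.SYB
import Pool.Agent.P.MP_2ce3e7_ag.SH
import Pool.Agent.P.MP_2ce3e7_ag.SO0
import Pool.Agent.P.MP_2ce3e7_ag.TI0

/-! The varieties of bars in the first ambient space. -/

set_option linter.unusedSectionVars false
set_option linter.unusedVariables false

open Function Matrix

noncomputable section

namespace Pool.Agent.CXD
variable {k Ω : Type} [Field k] [Field Ω] [Algebra k Ω] {G : Gp Ω} {q s D : ℕ} [Sq k q]
  [IsAlgClosed Ω] [NeZero s] {R : ℤ → Prop} {f : ℤ → ℤ}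

theorem li_SYE {T κ W : Type} [Fintype κ] [DecidableEq κ] [AddCommGroup W] [Module Ω W] (x : T → W)
    (y : T → κ → Ω) (A : Set T) :
    LinearIndepOn Ω (Sum.elim (fun t => (x t, y t)) fun a : κ => ((0 : W), Pi.single a (1 : Ω)))
      {j | j.elim (fun t => t ∈ A) fun _ => True} ↔ LinearIndepOn Ω x A := by
  classical
  simp only [linearIndepOn_iff']
  constructor
  · intro h t g ht h0 i hi
    refine h (t.disjSum Finset.univ) (Sum.elim g fun a => -(∑ i ∈ t, g i • y i) a) ?_ ?_ (.inl i)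
      (Finset.inl_mem_disjSum.2 hi)
    · rintro (j | j) hj
      exacts [ht (Finset.inl_mem_disjSum.1 hj), trivial]
    · rw [Finset.sum_disjSum]
      refine Prod.ext ?_ (funext fun a => ?_)
      · simpa [Prod.fst_sum] using h0
      · simp [Prod.snd_sum, Pi.single_apply]
  · intro h t g ht h0
    rw [Finset.sum_sum_eq_sum_toLeft_add_sum_toRight] at h0
    have h1 := h t.toLeft (fun i => g (.inl i)) (fun i hi => ht (Finset.mem_toLeft.1 hi))
      (by simpa [Prod.fst_sum] using congrArg Prod.fst h0)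
    rintro (j | j) hj
    · exact h1 j (Finset.mem_toLeft.2 hj)
    · rw [Finset.sum_eq_zero fun i hi => by rw [h1 i hi, zero_smul], zero_add] at h0
      simpa [Prod.snd_sum, Pi.single_apply, hj] using congrFun (congrArg Prod.snd h0) j

theorem sem_SYE {κ : Type} [Fintype κ] : Sem k q (fry κ (frq q) : Equiv.Perm (κ → Ω)) :=
  ⟨fun x y => funext fun j => (sem_fr (k := k)).add (x j) (y j),
    fun t x => funext fun j => (sem_fr (k := k)).smul t (x j),
    Pq.pi fun j => po_fr.comp (Pq.apply j), Pq.pi fun j => po_fr_symm.comp (Pq.apply j)⟩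

variable {n : Type} [Fintype n] [DecidableEq n]

section
variable {J : Mp n Ω}

/-- passage to the quotient of the orthogonal of the fixed vectors -/
theorem Au.bar_gen (h : Au k q G) {n' κ : Type} [Fintype n'] [Fintype κ] [DecidableEq κ] {ε : ℤˣ}
    {F : Equiv.Perm (n → Ω)} {F' : Equiv.Perm (n' → Ω)} {B : (n' → Ω) → (n' → Ω) → Ω}
    {C : (n' → Ω) → Ω} (hF : Fo k q ε B F') (hC : C 0 = 0) (em : ((n' → Ω) × (κ → Ω)) →ₗ[Ω] n → Ω)
    (r : (n → Ω) → (n' → Ω) × (κ → Ω)) (pe : Pq k (fun _ => True) em)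
    (pr : Pq k (fun _ => True) r) {u : κ → n → Ω} (h1 : ∀ y, r (em y) = y)
    (h2 : ∀ v, (∀ a, Isq J (u a) v) → em (r v) = v)
    (h3 : ∀ y y', Isq J (em y) (em y') ↔ B y.1 y'.1 = 0 ∧ C y.1 = 0)
    (h4 : ∀ y, F (em y) = em (F' y.1, fry κ (frq q) y.2))
    (h5 : ∀ a, u a = em (0, Pi.single a 1)) (hi : Is s D R f) (hf : ∀ b, b ≤ f b)
    (hp : Gy k G (Zqs B C F' s R f)) : Gy k G (Bary F J (fun _ => Set.univ) s R f u) := by
  have hi' : Is s (D + 1) R fun b => f b + 1 :=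
    ⟨hi.perR, fun b => by rw [hi.perf]; ring, fun b => by have := hi.lo b; omega,
      fun b => by have := hi.hi b; push_cast; omega⟩
  have inj : Injective em := LeftInverse.injective h1
  have e0 : ∀ y, em y = 0 ↔ y = 0 := fun y => map_eq_zero_iff em inj
  have e1 (y : (ZMod s → n' → Ω) × (ZMod s → κ → Ω)) :
      pext F s (fun c => em (y.1 c, y.2 c)) =
        fun w => em (pext F' s y.1 w, pext (fry κ (frq q)) s y.2 w) := funext fun w =>
    (pext_map (F := F'.prodCongr (fry κ (frq q))) (X := fun c => (y.1 c, y.2 c)) em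
      (fun z => (h4 z).symm) w).trans (congrArg em (Prod.ext
        (pext_map (F := F'.prodCongr (fry κ (frq q))) Prod.fst (fun _ => rfl) w).symm
        (pext_map (F := F'.prodCongr (fry κ (frq q))) Prod.snd (fun _ => rfl) w).symm))
  have e2 (c : ℤ) : bsy κ R f c ∪ bsy κ R f (c + 1) =
      {j | j.elim (fun t => t ∈ clq R (fun b => f b + 1) (c + 1)) fun _ => True} := by
    ext (j | j)
    · have := hf j
      change (R j ∧ j ≤ c ∧ c ≤ f j) ∨ (R j ∧ j ≤ c + 1 ∧ c + 1 ≤ f j) ↔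
        R j ∧ j ≤ c + 1 ∧ c + 1 ≤ f j + 1
      rw [← and_or_left]
      exact and_congr_right fun _ => by omega
    · exact ⟨fun _ => trivial, fun _ => .inl trivial⟩
  have e3 (x : ℤ → n' → Ω) (y : ℤ → κ → Ω) (A : Set ℤ) :
      LinearIndepOn Ω (Sum.elim (fun w => em (x w, y w)) u)
        {j | j.elim (fun t => t ∈ A) fun _ => True} ↔ LinearIndepOn Ω x A := by
    rw [← li_SYE x y A, ← em.linearIndepOn_iff_of_injOn inj.injOn]
    refine iff_of_eq (congrArg (fun z => LinearIndepOn Ω z _) (funext ?_))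
    rintro (j | j)
    exacts [rfl, h5 j]
  have z1 (x : n' → Ω) : B 0 x = 0 := (hF.lin x).map_zero
  have z2 (x : n' → Ω) : B x 0 = 0 := (hF.lin' x).map_zero
  have key (y : (ZMod s → n' → Ω) × (ZMod s → κ → Ω)) :
      Bary F J (fun _ => Set.univ) s R f u (fun c => em (y.1 c, y.2 c)) ↔
        (Zqs B C F' s R f y.1 ∧ Ci Ω R (fun b => f b + 1) (pext F' s y.1)) ∧
          Acz R (pext (fry κ (frq q)) s y.2) := by
    simp only [Bary, e1, e2, e3]
    constructor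
    · rintro ⟨a1, a2⟩
      have a3 : Ci Ω R (fun b => f b + 1) (pext F' s y.1) := fun w => by
        simpa only [sub_add_cancel] using (a2 (w - 1)).1
      have a4 := fun b b' hb hb' h6 h7 => (h3 (_, _) (_, _)).1 ((a2 b').2.1 _
        ⟨.inl b, ⟨hb, h6, h7⟩, rfl⟩ _ ⟨.inl b', ⟨hb', le_rfl, hf b'⟩, rfl⟩)
      exact ⟨⟨⟨⟨fun w hw => congrArg Prod.fst ((e0 _).1 (a1 w hw)),
        fun w => (a3 w).mono fun b hb => ⟨hb.1, hb.2.1, hb.2.2.trans (by simp)⟩,
        fun b b' hb hb' h6 h7 => (a4 b b' hb hb' h6 h7).1⟩,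
        fun b hb h6 => (a4 b b hb hb le_rfl h6).2⟩, a3⟩,
        fun w hw => congrArg Prod.snd ((e0 _).1 (a1 w hw))⟩
    · rintro ⟨⟨⟨⟨a1, -, a2⟩, a5⟩, a3⟩, a4⟩
      refine ⟨fun w hw => (e0 _).2 (Prod.ext (a1 w hw) (a4 w hw)),
        fun c => ⟨a3 _, ?_, fun _ _ _ hj => absurd trivial hj⟩⟩
      rintro _ ⟨b | b, hb, rfl⟩ _ ⟨b' | b', hb', rfl⟩ <;>
        simp only [Sum.elim_inl, Sum.elim_inr, h5, h3, z1, z2, hC, true_and]
      · refine ⟨?_, a5 b hb.1 (hf b)⟩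
        rcases le_total b b' with e | e
        · exact a2 b b' hb.1 hb'.1 e (hb'.2.1.trans hb.2.2)
        · rw [hF.comm, a2 b' b hb'.1 hb.1 e (hb.2.1.trans hb'.2.2), mul_zero]
      · exact a5 b hb.1 (hf b)
  have back (X : ZMod s → n → Ω) (hX : Bary F J (fun _ => Set.univ) s R f u X) :
      (fun c => em (r (X c))) = X := funext fun c => h2 _ fun a => by
    have e : pext F s X c.val = X c := congrFun (res_pext F X) c
    by_cases hc : R c.val
    · exact e ▸ (hX.2 c.val).2.1 _ ⟨.inr a, trivial, rfl⟩ _ ⟨.inl c.val, ⟨hc, le_rfl, hf _⟩, rfl⟩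
    · rw [← e, hX.1 _ hc, h5, ← em.map_zero, h3]
      exact ⟨z1 _, hC⟩
  refine h.giso (fun y c => em (y.1 c, y.2 c))
    (fun X => (fun c => (r (X c)).1, fun c => (r (X c)).2))
    (Pq.pi fun c => pe.comp ((Pq.id.fst.eval c).mk (Pq.id.snd.eval c)))
    ((Pq.pi fun c => (pr.comp (Pq.apply c)).fst).mk (Pq.pi fun c => (pr.comp (Pq.apply c)).snd))
    (fun y => (key y).2) (fun X hX => (key _).1 ((back X hX).symm ▸ hX))
    (fun y _ => by simp only [h1]) back
    (h.gacz sem_SYE hi (h.gci hF.sem hi'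
      (fun w => Pq.pext hF.sem.po hF.sem.po' Pq.id w) (fun X _ => pe_pext F' X) hp))

/-- the same from an adapted basis -/
theorem Au.bar_frame (h : Au k q G) {n' κ N : Type} [Fintype n'] [Fintype κ] [DecidableEq κ]
    [Fintype N] [DecidableEq N] {ε : ℤˣ} {F' : Equiv.Perm (n' → Ω)} {B : (n' → Ω) → (n' → Ω) → Ω}
    {C : (n' → Ω) → Ω} (hF : Fo k q ε B F') (hC : C 0 = 0) {F₁ : Equiv.Perm (N → Ω)}
    {B₁ : (N → Ω) → (N → Ω) → Ω} {C₁ : (N → Ω) → Ω} {g : Matrix n N Ω} (g1 : Bijective g.mulVec)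
    (g2 : ∀ x y, Isq J (g *ᵥ x) (g *ᵥ y) ↔ B₁ x y = 0 ∧ C₁ x = 0)
    (g3 : ∀ x, fry n (frq q) (g *ᵥ x) = g *ᵥ F₁ x) (g4 : ∀ x, F₁ (F₁ x) = fun j => x j ^ q ^ 2)
    (em : ((n' → Ω) × (κ → Ω)) →ₗ[Ω] N → Ω) (i : n' → N) (j j' : κ → N) (pe : Pm k em)
    (h0 : ∀ y a, em y (i a) = y.1 a) (h1 : ∀ y a, em y (j a) = y.2 a)
    (h2 : ∀ x, (∀ a, x (j' a) = 0) → em (fun a => x (i a), fun a => x (j a)) = x)
    (h3 : ∀ y y', B₁ (em y) (em y') = B y.1 y'.1) (h3' : ∀ y, C₁ (em y) = C y.1)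
    (h4 : ∀ y, F₁ (em y) = em (F' y.1, fry κ (frq q) y.2))
    (h5 : ∀ a, em (0, Pi.single a 1) = Pi.single (j a) 1)
    (h6 : ∀ a x, B₁ (Pi.single (j a) 1) x = x (j' a)) (hi : Is s D R f) (hf : ∀ b, b ≤ f b)
    (hp : Gy k G (Zqs B C F' s R f)) :
    Gy k G (Bary (fry n (frq q)) J (fun _ => Set.univ) s R f fun a => g.col (j a)) := by
  have hq : Su k q := Sq.su
  have : Kr k g := kr_pi fun a => kr_pi fun c => (hq.kr_iff _).2 (by
    have e := congrFun ((congrArg (fry n (frq q)) (g3 (Pi.single c 1))).trans (g3 _)) a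
    rw [g4, show (fun j => (Pi.single c (1 : Ω) : N → Ω) j ^ q ^ 2) = Pi.single c 1 from
      funext fun j => by
        rw [Pi.single_apply, ite_pow, one_pow, zero_pow (pow_ne_zero _ hq.pos.ne')],
      mulVec_single_one] at e
    rw [sq, pow_mul, ← fr_apply k, ← fr_apply k]
    exact e)
  have l1 (x : N → Ω) : surjInv g1.2 (g *ᵥ x) = x := leftInverse_surjInv g1 x
  have l2 (v : n → Ω) : g *ᵥ surjInv g1.2 v = v := surjInv_eq g1.2 v
  have pr : Pq k (fun _ => True) (surjInv g1.2) :=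
    Pq.solve (Pq.const g) Pq.id (fun _ w _ e => g1.1 (e.trans (mulVec_zero g).symm)) fun v _ => l2 v
  refine h.bar_gen hF hC (g.mulVecLin ∘ₗ em)
    (fun v => (fun a => surjInv g1.2 v (i a), fun a => surjInv g1.2 v (j a)))
    ((Pq.const g).mulVec pe.po) ((Pq.pi fun a => pr.eval _).mk (Pq.pi fun a => pr.eval _))
    (fun y => Prod.ext (funext fun a => (congrFun (l1 _) _).trans (h0 y a))
      (funext fun a => (congrFun (l1 _) _).trans (h1 y a)))
    (fun v hv => (congrArg g.mulVec (h2 _ fun a => ?_)).trans (l2 v))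
    (fun y y' => (g2 _ _).trans (by rw [h3, h3'])) (fun y => (g3 _).trans (congrArg g.mulVec (h4 y)))
    (fun a => (mulVec_single_one g _).symm.trans (congrArg g.mulVec (h5 a).symm)) hi hf hp
  refine (h6 a _).symm.trans ((g2 _ _).1 ?_).1
  rw [l2, mulVec_single_one]
  exact hv a

theorem Bary.pre {κ : Type} {F : Equiv.Perm (n → Ω)} {u : κ → n → Ω} {X : ZMod s → n → Ω}
    (hX : Bary F J (fun _ => Set.univ) s R f u X) :
    LinearIndependent Ω u ∧ ∀ a a', Isq J (u a) (u a') :=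
  ⟨linearIndepOn_univ_iff.1 (((hX.2 0).1.mono (by rintro _ ⟨a, -, rfl⟩; exact .inl trivial)).comp_of_image
    (f := Sum.inr) Sum.inr_injective.injOn),
    fun a a' => (hX.2 0).2.1 _ ⟨.inr a, trivial, rfl⟩ _ ⟨.inr a', trivial, rfl⟩⟩

end

variable {J : Matrix n n Ω}

theorem fm_zero_SYE (k : Type) [Field k] [Algebra k Ω] [Sq k q] : fm q (0 : Matrix n n Ω) = 0 := by
  ext
  simp [fm, (Sq.su (k := k)).pos.ne']

theorem zq_zero {B : (n → Ω) → (n → Ω) → Ω} {F : Equiv.Perm (n → Ω)} (X : ZMod s → n → Ω) :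
    Zqs B (fun _ => 0) F s R f X ↔ Zg B F s R f X := and_iff_left fun _ _ _ => rfl

theorem fo_SYE {ε : ℤˣ} (h3 : J.det ≠ 0) (h4 : Jᵀ = (sg ε : Ω) • J)
    (h5 : fm q J = (sg ε : Ω) • J) : Fo k q ε (fun x y => x ⬝ᵥ J *ᵥ y) (fry n (frq q)) := by
  have hq : Su k q := Sq.su
  have := (amy_fr (k := k) ε 1 h5 (fm_zero_SYE k)).kr
  refine ⟨sem_SYE, fun y => ⟨fun x x' => add_dotProduct .., fun t x => smul_dotProduct ..⟩,
    fun x => ⟨fun y y' => by rw [mulVec_add, dotProduct_add],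
      fun t y => by rw [mulVec_smul, dotProduct_smul]⟩, fun x y => ?_, fun x y => ?_,
    Pq.id.fst.dot ((Pq.const J).mulVec Pq.id.snd), fun x h => eq_zero_of_mulVec_eq_zero h3
      (funext fun j => (single_one_dotProduct j _).symm.trans (h _))⟩
  · rw [dotProduct_mulVec, ← mulVec_transpose, dotProduct_comm, h4, smul_mulVec, dotProduct_smul,
      smul_eq_mul]
  · have e (x : n → Ω) : fry n (frq q) x = fun j => x j ^ q := funext fun j => fr_apply k _
    have e1 : J = (sg ε : Ω) • fm q J := by rw [h5, smul_smul, sg_mul_self, one_smul]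
    rw [e, e]
    conv_lhs => rw [e1, smul_mulVec, dotProduct_smul, smul_eq_mul, hq.fm_mulVec]
    simp only [dotProduct, hq.sum_pow, mul_pow]

/-- a vector orthogonal to the first basis vectors -/
def eme (ι κ : Type) : ((ι ⊕ ι → Ω) × (κ → Ω)) →ₗ[Ω] (κ ⊕ ι) ⊕ (κ ⊕ ι) → Ω where
  toFun := emy
  map_add' x y := by
    funext j
    rcases j with (j | j) | (j | j) <;> simp [emy]
  map_smul' t y := by
    funext j
    rcases j with (j | j) | (j | j) <;> simp [emy]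

theorem bf_SYE {ι : Type} [Fintype ι] [DecidableEq ι] (ε : ℤˣ) (a : ι) (x : ι ⊕ ι → Ω) :
    Bf ε (Pi.single (.inl a) 1) x = x (.inr a) := by
  simp [Bf, Pi.single_apply]

theorem pre_SYE (k : Type) [Field k] [Algebra k Ω] [Sq k q] {ε : ℤˣ} (h3 : J.det ≠ 0) (h4 : Jᵀ = (sg ε : Ω) • J)
    (h5 : fm q J = (sg ε : Ω) • J) {κ : Type} [Fintype κ] {u : κ → n → Ω} {X : ZMod s → n → Ω}
    (hX : Bary (fry n (frq q)) (J, 0) (fun _ => Set.univ) s R f u X) :
    LinearIndependent Ω u ∧ (∀ a a', u a ⬝ᵥ J *ᵥ u a' = 0) ∧ 2 * Fintype.card κ ≤ Fintype.card n ∧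
      1ᵀ * J * 1 = (sg ε : Ω) • fm q J := by
  have u1 := hX.pre.1
  have u2 (a a' : κ) : u a ⬝ᵥ J *ᵥ u a' = 0 := (hX.pre.2 a a').1
  have hc := (fo_SYE (k := k) h3 h4 h5).card_le (linearIndepOn_univ_iff.2 u1) fun a _ a' _ => u2 a a'
  rw [Set.ncard_univ, Nat.card_eq_fintype_card] at hc
  exact ⟨u1, u2, hc, by
    rw [transpose_one, Matrix.one_mul, Matrix.mul_one, h5, smul_smul, sg_mul_self, one_smul]⟩

theorem Az.bar_even (h : Az k q G) (h2 : (2 : Ω) ≠ 0) (ε : ℤˣ) (h3 : J.det ≠ 0)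
    (h4 : Jᵀ = (sg ε : Ω) • J) (h5 : fm q J = (sg ε : Ω) • J) (hn : Even (Fintype.card n)) {κ : Type}
    [Fintype κ] {u : κ → n → Ω} (hu : ∀ a, fry n (frq q) (u a) = u a) (hi : Is s D R f)
    (hf : ∀ b, b ≤ f b) : Gy k G (Bary (fry n (frq q)) (J, 0) (fun _ => Set.univ) s R f u) := by
  obtain ⟨m, hm⟩ := hn
  classical
  by_cases hx : ∃ X, Bary (fry n (frq q)) (J, 0) (fun _ => Set.univ) s R f u X
  swap
  · exact h.toAu.gnot fun X hX => hx ⟨X, hX⟩
  obtain ⟨X, hX⟩ := hx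
  obtain ⟨u1, u2, hc, hM⟩ := pre_SYE k h3 h4 h5 hX
  have e (x : n → Ω) : fry n (frq q) x = 1 *ᵥ fun j => x j ^ q :=
    (funext fun j => fr_apply k _).trans (one_mulVec _).symm
  obtain ⟨b, g, g1, g2, g3, g4⟩ := wd k h2 (ι := Fin (m - Fintype.card κ)) ε J 1
    (by rw [Fintype.card_fin]; omega) h3 h4 hM u u1 (fun a => (e _).symm.trans (hu a)) u2
  rw [← funext g4]
  refine h.toAu.bar_frame (C₁ := fun _ => 0) (fd_bf ε b) rfl g1
    (fun x y => by rw [isq_l, g2, and_iff_left rfl]) (fun x => (e _).trans (g3 x))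
    (fun x => FV_FV ε _ x k) (eme _ κ) (Sum.map .inr .inr) (fun a => .inl (.inl a))
    (fun a => .inr (.inl a)) (Pm.pi ?_) (fun y => ?_) (fun _ _ => rfl)
    (fun x hx => funext ?_) (bf_emy ε) (fun _ => rfl) (fv_emy k ε b) (fun a => funext ?_)
    (fun a => bf_SYE ε _) hi hf ((h.zt h2 ε b hi).congr zq_zero)
  · rintro ((j | j) | (j | j))
    exacts [Pm.id.snd.eval j, Pm.id.fst.eval _, Pm.const 0, Pm.id.fst.eval _]
  · rintro (j | j) <;> rfl
  · rintro ((j | j) | (j | j))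
    exacts [rfl, rfl, (hx j).symm, rfl]
  · rintro ((j | j) | (j | j)) <;> simp [eme, emy, Pi.single_apply]

end Pool.Agent.CXD
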