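import Pool.Agent.P.MP_2ce3e7_ag.UpLow

/-! Complex conjugation on classes. -/

set_option autoImplicit false

noncomputable section

namespace Pool.Agent.Tate

open MvPolynomial

variable {m L : ℕ} {k ι κ : Type} [Field k]

theorem exists_cj (m : ℕ) (k ι : Type) [Field k] :
    ∃ F : G m k ι →ₛₗ[starRingEnd ℂ] G m k ι, ∀ M, F (cls M) = cls M := by
  let f : (GM m k ι →₀ ℂ) →ₛₗ[starRingEnd ℂ] (GM m k ι →₀ ℂ) :=
    { toFun := Finsupp.mapRange (starRingEnd ℂ) (map_zero _)
      map_add' := fun x y => Finsupp.mapRange_add (map_add _) x y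
      map_smul' := fun c x => by
        ext M
        simp }
  have hf : ∀ M, f (Finsupp.single M 1) = Finsupp.single M 1 := fun M => by
    change Finsupp.mapRange (starRingEnd ℂ) (map_zero _) _ = _
    rw [Finsupp.mapRange_single, map_one]
  have hle : relC m k ι ≤ (relC m k ι).comap f := by
    refine Submodule.span_le.2 fun z hz => ?_
    have : f z = z := by
      rcases hz with ⟨M, N, P, -, -, -, rfl⟩ | ⟨M, -, rfl⟩
      · rw [map_sub, map_sub, hf, hf, hf]
      · exact hf M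
    change f z ∈ relC m k ι
    rw [this]
    exact Submodule.subset_span hz
  refine ⟨Submodule.mapQ _ _ f hle, fun M => ?_⟩
  change (relC m k ι).mkQ (f (Finsupp.single M 1)) = _
  rw [hf]
  rfl

/-- complex conjugation -/
def cj : G m k ι →ₛₗ[starRingEnd ℂ] G m k ι := (exists_cj m k ι).choose

theorem cj_cls (M : GM m k ι) : cj (cls M) = cls M := (exists_cj m k ι).choose_spec M

theorem cj_comm {F : G L k ι →ₗ[ℂ] G m k κ} (h : ∀ M, ∃ N, F (cls M) = cls N) (x : G L k ι) :
    cj (F x) = F (cj x) := by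
  induction x using G.ind with
  | h1 M =>
    obtain ⟨N, hN⟩ := h M
    rw [cj_cls, hN, cj_cls]
  | h0 => simp only [map_zero]
  | h2 x y hx hy => simp only [map_add, hx, hy]
  | h3 c x hx => rw [map_smul, map_smulₛₗ, map_smulₛₗ cj, map_smul, hx]

theorem cj_pr [NeZero m] [Fintype ι] [DecidableEq ι] (ζ : Rt m k) (a : ι → Ch m) (x : G m k ι) :
    cj (pr ζ a x) = pr ζ (-a) (cj x) := by
  rw [pr, pr, avg_apply, avg_apply, map_smulₛₗ, map_sum, map_inv₀, map_natCast]
  refine congrArg _ (Finset.sum_congr rfl fun g _ => ?_)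
  rw [map_smulₛₗ, cj_comm (F := tw ζ g) fun M => by
    obtain ⟨N, j, hN⟩ := exists_isPull (twD ζ (up g)) M
    exact ⟨N, hN.pullG_cls (Ops_tw_s ζ _)⟩]
  congr 1
  rw [ch, ch, map_prod]
  refine Finset.prod_congr rfl fun i _ => ?_
  rw [ch1, ch1, ← AddChar.map_neg_eq_conj]
  congr 1
  simp only [Pi.neg_apply, Prod.fst_neg, Prod.snd_neg]
  ring

theorem tr_cj [NeZero (m : k)] (x : G m k (Unit ⊕ Unit)) :
    tr (cj x) = starRingEnd ℂ (tr x) := by
  have hm : (m : k) ≠ 0 := NeZero.ne _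
  have hc : ∀ T : GM m k (Unit ⊕ Unit), starRingEnd ℂ (chi (cls T)) = chi (cls T) := fun T => by
    rw [chi_apply, ← (aff_coef (pair_ne k) T).hp_zero, map_ratCast]
  induction x using G.ind with
  | h1 M =>
    have hi := inv_minor (ι := Unit ⊕ Unit) hm (i := Sum.inl ()) (j := Sum.inr ()) Sum.inl_ne_inr
    obtain ⟨T, p, hL, -⟩ := exists_isL hm hi M
    rw [cj_cls, tr_unit, Lm, hL.Lg_cls hm hi, map_sub, map_sub, hc, hc]
  | h0 => simp only [map_zero]
  | h2 x y hx hy => simp only [map_add, hx, hy]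
  | h3 c x hx => rw [map_smulₛₗ, map_smul, map_smul, hx, smul_eq_mul, smul_eq_mul, map_mul]

end Pool.Agent.Tate
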