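import Pool.Agent.P.MP_2ce3e7_ag.SsDr
import Pool.Agent.P.MP_2ce3e7_ag.SsCj

/-! The inverse image of the diagonal. -/

set_option autoImplicit false

noncomputable section

namespace Pool.Agent.Tate

open MvPolynomial

variable {m L : ℕ} {k : Type} [Field k]

/-- the ideal of the inverse image of the diagonal -/
def UD.dg (U : UD m L k (Unit ⊕ Unit)) : Ideal (S k (Unit ⊕ Unit)) :=
  (PD0 m k).map U.θ ⊔ Fer L k (Unit ⊕ Unit)

theorem UD.grI_dg (U : UD m L k (Unit ⊕ Unit)) : GrI U.dg :=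
  (grI_PD0.map U.θ U.val U.hom').sup grI_Fer

theorem UD.Fer_le_dg (U : UD m L k (Unit ⊕ Unit)) : Fer L k (Unit ⊕ Unit) ≤ U.dg := le_sup_right

theorem UD.mem_dg [NeZero (m : k)] {U U' : UD m L k Unit} (h : U.Onto) (h' : U'.Onto)
    {f : S k (Unit ⊕ Unit)} {d : Unit ⊕ Unit → ℤ} (hf : Hg f d)
    (hJ : (U.sum U').θ f ∈ (U.sum U').dg) : f ∈ PD0 m k := by
  have hp : (Fer m k Unit).IsPrime := fer_isPrime (NeZero.ne (m : k))
  rw [mem_PD0 hf, ← IsPrime.vanishingIdeal_zeroLocus (K := AlgebraicClosure k) (Fer m k Unit),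
    mem_vanishingIdeal_iff]
  intro z hz
  have hzF : OnF m fun j => z ((), j) := by
    have := hz _ (fer_mem ())
    simp only [Tate.fer, map_sub, map_add, map_pow, aeval_X] at this
    exact sub_eq_zero.1 this
  obtain ⟨y, hy, hyz⟩ := h _ z hzF
  obtain ⟨y', hy', hyz'⟩ := h' _ z hzF
  obtain ⟨w, hw⟩ : ∃ w : (Unit ⊕ Unit) × Fin 3 → AlgebraicClosure k,
      w = fun v => Sum.elim (fun _ => y ((), v.2)) (fun _ => y' ((), v.2)) v.1 := ⟨_, rfl⟩
  have e1 : w ∘ Prod.map Sum.inl id = y := by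
    rw [hw]
    rfl
  have e2 : w ∘ Prod.map Sum.inr id = y' := by
    rw [hw]
    rfl
  have e : (aeval w : S k (Unit ⊕ Unit) →ₐ[k] AlgebraicClosure k).comp (U.sum U').θ =
      (aeval z).comp (rn fun _ => ()) := by
    refine algHom_ext fun v => ?_
    obtain ⟨i | i, a⟩ := v
    · rw [AlgHom.comp_apply, AlgHom.comp_apply, rn_X, aeval_X]
      change aeval w (sumθ U.θ U'.θ _) = _
      rw [sumθ_X_inl, rn, aeval_rename, e1, hyz]
    · rw [AlgHom.comp_apply, AlgHom.comp_apply, rn_X, aeval_X]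
      change aeval w (sumθ U.θ U'.θ _) = _
      rw [sumθ_X_inr, rn, aeval_rename, e2, hyz']
  have e' : ∀ g, aeval w ((U.sum U').θ g) = aeval z (rn (fun _ => ()) g) := fun g =>
    AlgHom.congr_fun e g
  have hk : (U.sum U').dg ≤ RingHom.ker (aeval w : S k (Unit ⊕ Unit) →ₐ[k] AlgebraicClosure k) := by
    refine sup_le (Ideal.map_le_iff_le_comap.2 fun g hg => ?_) fun g hg => ?_
    · rw [Ideal.mem_comap, RingHom.mem_ker, e']
      exact hz _ (Ideal.mem_comap.1 (core_le ((Fer m k Unit).comap (rn fun _ => ())) hg))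
    · by_contra h0
      refine notMem_Fer w (fun i => ?_) h0 hg
      rw [hw]
      rcases i with i | i
      exacts [hy, hy']
  rw [← e']
  exact hk hJ

variable [NeZero m] [NeZero L] (ζ : Rt m k) (ζ' : Rt L k)

theorem tr_upq_dg [Fintype k] [NeZero (m : k)] {U U' : UD m L k Unit} (h : U.Onto) (h' : U'.Onto)
    {a : Ch m} (ha : Nd a) : tr (pr ζ (Sum.elim (fun _ => a) fun _ => -a)
      (upq (U.sum U') (cy L (U.sum U').dg 0))) ≠ 0 := by
  obtain ⟨M, x, hx, hM⟩ := exists_cy (U.sum U').grI_dg (U.sum U').Fer_le_dg 0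
  obtain ⟨N, j, hN⟩ := (U.sum U').exists_emb M
  rw [hM, hN.upq_cls]
  refine upLow_tr ha (fun f hf => GM.mem_ann.2 fun y => hN.inj ?_)
    (N.grI_ann.le_of_hom fun f d hd hf => ?_)
  · rw [hN.smul, map_zero]
    have h1 : (U.sum U').θ f ∈ (U.sum U').dg := Ideal.mem_sup_left (Ideal.mem_map_of_mem _ hf)
    exact GM.mem_ann.1 (hx.ann_eq.symm ▸ h1) _
  · obtain ⟨y, hy⟩ := hN.surj 0 x
    have h2 := hx.deg
    rw [neg_zero] at h2
    rw [map_zero, h2] at hy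
    refine UD.mem_dg h h' hd ((hx.ann _).1 ?_)
    rw [← hy, ← hN.smul, GM.mem_ann.1 hf y, map_zero]

theorem tw3_dg (U : UD m L k (Unit ⊕ Unit)) {g : Fin 3 → ZMod m}
    {g' : Unit ⊕ Unit → Fin 3 → ZMod L}
    (h : ∀ v, sc (c3 ζ' g') (U.θ (X v)) = U.θ (sc (c3 ζ fun _ => g) (X v))) :
    tw3 ζ' g' (cy L U.dg 0) = cy L U.dg 0 := by
  have e : (sc (c3 ζ' g')).comp U.θ = U.θ.comp (sc (c3 ζ fun _ => g)) := algHom_ext h
  have h1 : ∀ f ∈ U.dg, sc (c3 ζ' g') f ∈ U.dg := by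
    have : U.dg ≤ U.dg.comap (sc (c3 ζ' g')) := by
      refine sup_le (Ideal.map_le_iff_le_comap.2 fun f hf => ?_) fun f hf => ?_
      · rw [Ideal.mem_comap, Ideal.mem_comap, ← AlgHom.comp_apply, e, AlgHom.comp_apply]
        refine Ideal.mem_sup_left (Ideal.mem_map_of_mem _ ?_)
        have h2 := comap_sc_PD0 (m := m) (c := fun j => ζ.1 ^ (g j).val)
          (fun j => c3_pow ζ (fun _ : Unit => g) ((), j))
          (fun j => c3_ne ζ (fun _ : Unit => g) ((), j))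
        rw [← h2] at hf
        exact hf
      · exact U.Fer_le_dg (ferP_sc_mem (c3_pow ζ' g') hf)
    exact fun f hf => this hf
  have h2 : ∀ n : ℕ, ∀ f ∈ U.dg, sc (c3 ζ' g' ^ n) f ∈ U.dg := by
    intro n f hf
    induction n with
    | zero => rwa [pow_zero, sc_one]
    | succ n ih =>
      rw [pow_succ', ← sc_sc]
      exact h1 _ ih
  have h3 : U.dg.comap (sc (c3 ζ' g')) = U.dg := by
    refine le_antisymm (fun f hf => ?_) h1
    have h4 := h2 (L - 1) _ (Ideal.mem_comap.1 hf)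
    have h5 : c3 ζ' g' ^ L = 1 := funext fun v => c3_pow ζ' g' v
    rwa [sc_sc, ← pow_succ, Nat.sub_add_cancel (Nat.pos_of_ne_zero (NeZero.ne L)), h5,
      sc_one] at h4
  rw [tw3_cy ζ' g' U.grI_dg U.Fer_le_dg, h3]

/-- a component of a module that is seen by the trace gives a pair -/
theorem hasPair_of_tr [Fintype k] [NeZero (m : k)] [NeZero (L : k)]
    (U : UD m L k (Unit ⊕ Unit)) (M : GM L k (Unit ⊕ Unit)) {a : Unit ⊕ Unit → Ch m}
    {c : Unit ⊕ Unit → Ch L} (hc : ∀ i, Nd (c i))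
    (h : tr (pr ζ a (upq U (pr ζ' c (cls M)))) ≠ 0) : HasPair ζ' c := by
  obtain ⟨p, hp⟩ := CharP.exists k
  obtain ⟨f, hpp, -⟩ := FiniteField.card k p
  have : Fact p.Prime := ⟨hpp⟩
  have hU : ∀ M, ∃ N, upq U (cls M) = cls N := fun M => by
    obtain ⟨N, j, hN⟩ := U.exists_emb M
    exact ⟨N, hN.upq_cls⟩
  have h1 : cj (pr ζ a (upq U (pr ζ' c (cls M)))) = pr ζ (-a) (upq U (pr ζ' (-c) (cls M))) := by
    rw [cj_pr, cj_comm hU, cj_pr, cj_cls]
  have h2 : tr (pr ζ (-a) (upq U (pr ζ' (-c) (cls M)))) ≠ 0 := by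
    rw [← h1, tr_cj]
    exact (map_ne_zero _).2 h
  refine ⟨pr ζ' c (cls M), pr_mem _ _, pr ζ' (-c) (cls M), pr_mem _ _, fun h0 => ?_⟩
  rw [prg_apply] at h0
  have h3 : boxG (pr ζ' c (cls M)) (pr ζ' (-c) (cls M)) = 0 :=
    tr_inj p hc (box_mem_Ga (pr_mem _ _) (pr_mem _ _)) h0
  have h4 := upq_box U U (pr ζ' c (cls M)) (pr ζ' (-c) (cls M))
  rw [h3, map_zero] at h4
  have h5 := pr_box (ζ := ζ) (Sum.elim a (-a)) (upq U (pr ζ' c (cls M)))
    (upq U (pr ζ' (-c) (cls M)))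
  rw [← h4, map_zero, Sum.elim_comp_inl, Sum.elim_comp_inr] at h5
  have h6 := tr_mul (pr ζ a (upq U (pr ζ' c (cls M)))) (pr ζ (-a) (upq U (pr ζ' (-c) (cls M))))
  rw [← h5, map_zero, map_zero] at h6
  exact mul_ne_zero h h2 h6.symm

end Pool.Agent.Tate
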