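import Pool.Agent.P.MP_2ce3e7_ag.SsEmb

/-! Two finite maps to the Fermat curve of degree `q + 1`. -/

set_option autoImplicit false

noncomputable section

namespace Pool.Agent.Tate

open MvPolynomial

variable {m L : ℕ} {k : Type} [Field k]

/-- every point of the cone over the target lifts to the cone over the source -/
def UD.Onto (U : UD m L k Unit) : Prop :=
  ∀ (K : Type) [Field K] [IsAlgClosed K] [Algebra k K] (z : Unit × Fin 3 → K),
    OnF m (fun j => z ((), j)) →
      ∃ y : Unit × Fin 3 → K, OnF L (fun j => y ((), j)) ∧ ∀ v, aeval y (U.θ (X v)) = z v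

/-- the power map -/
theorem exists_pw (k : Type) [Field k] {e : ℕ} (hL : L = m * e) (he : e ≠ 0) :
    ∃ U : UD m L k Unit, U.Onto ∧ ∀ v, U.θ (X v) = X v ^ e := by
  refine ⟨⟨expand e, fun _ => e, fun _ => he, fun v => ?_, fun i => ?_, fun v => ?_⟩, ?_, ?_⟩
  · rw [expand_X]
    exact (hg_X (k := k) v).pow e
  · exact expand_mem_Fer hL (fer_mem i)
  · refine ⟨1, X v, one_ne_zero, ?_⟩
    rw [expand_X, mul_one, sub_self]
    exact zero_mem _
  · intro K _ _ _ z hz
    choose y hy using fun v => IsAlgClosed.exists_pow_nat_eq (z v) (Nat.pos_of_ne_zero he)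
    refine ⟨y, ?_, fun v => ?_⟩
    · unfold OnF at hz ⊢
      simp only [hL, mul_comm m e, pow_mul, hy]
      exact hz
    · change aeval y (expand e (X v : S k Unit)) = z v
      rw [expand_X, map_pow, aeval_X, hy]
  · intro v
    exact expand_X e v

theorem ssDr_id {R : Type} [CommRing R] (p : ℕ) [Fact p.Prime] [CharP R p] {ν r : ℕ}
    (hq : p ^ ν = r + 1) (h ε u v : R) (hh : h + h = 1) (hε : ε ^ (r + 2) = -1) :
    (u + h * v) ^ (r + 2) + (ε * (u - h * v)) ^ (r + 2) = u * v * (u ^ r + v ^ r) := by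
  have h1 : h ^ (r + 1) + h ^ (r + 1) = 1 := by
    rw [← hq, ← add_pow_char_pow, hh, one_pow]
  have h2 : h ^ (r + 1) = h := by
    linear_combination h * h1 - h ^ (r + 1) * hh
  have h3 : (u + h * v) ^ (r + 1) = u ^ (r + 1) + h * v ^ (r + 1) := by
    rw [← hq, add_pow_char_pow, mul_pow, hq, h2]
  have h4 : (u - h * v) ^ (r + 1) = u ^ (r + 1) - h * v ^ (r + 1) := by
    rw [← hq, sub_pow_char_pow, mul_pow, hq, h2]
  rw [mul_pow, hε, pow_succ (u + h * v) (r + 1), pow_succ (u - h * v) (r + 1), h3, h4]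
  linear_combination (u * v * (u ^ r + v ^ r)) * hh

/-- images of the three variables -/
def ssDr_im (n r e : ℕ) (h ε : k) (v : Unit × Fin 3) : S k Unit :=
  ![X ((), 0) ^ n + C h * X ((), 1) ^ n, C ε * (X ((), 0) ^ n - C h * X ((), 1) ^ n),
    (X ((), 0) * X ((), 1) * X ((), 2) ^ r) ^ e] v.2

theorem ssDr_im0 (n r e : ℕ) (h ε : k) :
    aeval (ssDr_im n r e h ε) (X ((), 0) : S k Unit) = X ((), 0) ^ n + C h * X ((), 1) ^ n :=
  aeval_X _ _

theorem ssDr_im1 (n r e : ℕ) (h ε : k) :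
    aeval (ssDr_im n r e h ε) (X ((), 1) : S k Unit) =
      C ε * (X ((), 0) ^ n - C h * X ((), 1) ^ n) :=
  aeval_X _ _

theorem ssDr_im2 (n r e : ℕ) (h ε : k) :
    aeval (ssDr_im n r e h ε) (X ((), 2) : S k Unit) =
      (X ((), 0) * X ((), 1) * X ((), 2) ^ r) ^ e :=
  aeval_X _ _

theorem ssDr_cases {P : Unit × Fin 3 → Prop} (h0 : P ((), 0)) (h1 : P ((), 1))
    (h2 : P ((), 2)) (v : Unit × Fin 3) : P v := by
  obtain ⟨⟨⟩, j⟩ := v
  fin_cases j
  exacts [h0, h1, h2]

theorem ssDr_C_mul {f : S k Unit} {d : Unit → ℤ} (c : k) (hf : Hg f d) : Hg (C c * f) d := by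
  have := (isWeightedHomogeneous_C (wt (ι := Unit)) c).mul hf
  rwa [zero_add] at this

/-- the map through the curve `u ^ q * v + u * v ^ q = w ^ (q + 1)` -/
theorem exists_dr (p : ℕ) [Fact p.Prime] [CharP k p] (h2 : p ≠ 2) {ν r e : ℕ}
    (hq : p ^ ν = r + 1) (hr : r ≠ 0) (he : e ≠ 0) (hm : m = r + 2) (hL : L = m * (e * r))
    {ε : k} (hε : ε ^ m = -1) : ∃ U : UD m L k Unit, U.Onto ∧
      ∀ c : Unit × Fin 3 → k, c ((), 0) ^ (e * m) = 1 → c ((), 1) ^ (e * m) = 1 →
        sc c (U.θ (X ((), 0))) = U.θ (X ((), 0)) ∧ sc c (U.θ (X ((), 1))) = U.θ (X ((), 1)) ∧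
        sc c (U.θ (X ((), 2))) =
          C ((c ((), 0) * c ((), 1) * c ((), 2) ^ r) ^ e) * U.θ (X ((), 2)) := by
  have hp : p.Prime := Fact.out
  have h20 : (2 : k) ≠ 0 := by
    intro h0
    have : p ∣ 2 := (CharP.cast_eq_zero_iff k p 2).1 (by exact_mod_cast h0)
    exact h2 ((Nat.prime_dvd_prime_iff_eq hp Nat.prime_two).1 this)
  obtain ⟨h, hh⟩ : ∃ h : k, h + h = 1 := ⟨2⁻¹, by field_simp; norm_num⟩
  have hε0 : ε ≠ 0 := by
    rintro rfl
    rw [hm, zero_pow (by omega)] at hε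
    exact one_ne_zero (neg_eq_zero.1 hε.symm)
  obtain ⟨δ, hδ⟩ : ∃ δ : k, δ * ε = 1 := ⟨ε⁻¹, inv_mul_cancel₀ hε0⟩
  have hm0 : m ≠ 0 := by omega
  have hn : e * m ≠ 0 := mul_ne_zero he hm0
  have hL' : L = e * m * r := by rw [hL]; ring
  have hL0 : L ≠ 0 := by rw [hL']; exact mul_ne_zero hn hr
  have hhC : (C h : S k Unit) + C h = 1 := by rw [← map_add, hh, map_one]
  have hδC : (C δ : S k Unit) * C ε = 1 := by rw [← map_mul, hδ, map_one]
  have hεC : (C ε : S k Unit) ^ (r + 2) = -1 := by rw [← map_pow, ← hm, hε, map_neg, map_one]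
  have hu : aeval (ssDr_im (e * m) r e h ε)
      (C h * (X ((), 0) + C δ * X ((), 1)) : S k Unit) = X ((), 0) ^ (e * m) := by
    rw [map_mul, map_add, map_mul, ssDr_im0, ssDr_im1, aeval_C, aeval_C, algebraMap_eq]
    linear_combination (X ((), 0) ^ (e * m) : S k Unit) * hhC +
      (C h * (X ((), 0) ^ (e * m) - C h * X ((), 1) ^ (e * m)) : S k Unit) * hδC
  have hv : aeval (ssDr_im (e * m) r e h ε)
      (X ((), 0) - C δ * X ((), 1) : S k Unit) = X ((), 1) ^ (e * m) := by
    rw [map_sub, map_mul, ssDr_im0, ssDr_im1, aeval_C, algebraMap_eq]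
    linear_combination (X ((), 1) ^ (e * m) : S k Unit) * hhC -
      (X ((), 0) ^ (e * m) - C h * X ((), 1) ^ (e * m) : S k Unit) * hδC
  have hX : ∀ j : Fin 3, Hg (X ((), j) : S k Unit) (wt ((), (0 : Fin 3))) := fun j => hg_X ((), j)
  refine ⟨⟨aeval (ssDr_im (e * m) r e h ε), fun _ => e * m, fun _ => hn, ?_, ?_, ?_⟩, ?_, ?_⟩
  · refine ssDr_cases ?_ ?_ ?_
    · rw [ssDr_im0]
      exact ((hX 0).pow _).add (ssDr_C_mul h ((hX 1).pow _))
    · rw [ssDr_im1]
      exact ssDr_C_mul ε (poly_hg_sub ((hX 0).pow _) (ssDr_C_mul h ((hX 1).pow _)))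
    · rw [ssDr_im2]
      have := (((hX 0).mul (hX 1)).mul ((hX 2).pow r)).pow e
      have e1 : e • (wt ((), (0 : Fin 3)) + wt ((), (0 : Fin 3)) + r • wt ((), (0 : Fin 3))) =
          (e * m) • wt ((), (0 : Fin 3)) := by
        rw [hm, mul_smul, add_smul, two_smul, add_comm]
      rw [e1] at this
      exact this
  · rintro ⟨⟩
    have e1 : aeval (ssDr_im (e * m) r e h ε) (fer m k ()) =
        X ((), 0) ^ (e * m) * X ((), 1) ^ (e * m) * fer L k () := by
      unfold fer
      rw [map_sub, map_add, map_pow, map_pow, map_pow, ssDr_im0, ssDr_im1, ssDr_im2]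
      have := ssDr_id p hq (C h : S k Unit) (C ε) (X ((), 0) ^ (e * m)) (X ((), 1) ^ (e * m))
        hhC hεC
      rw [← hm] at this
      rw [this, hL']
      ring
    rw [e1]
    exact Ideal.mul_mem_left _ _ (fer_mem ())
  · refine ssDr_cases ?_ ?_ ?_
    · refine ⟨1, C h * (X ((), 0) + C δ * X ((), 1)), one_ne_zero, ?_⟩
      rw [hu, mul_one, sub_self]
      exact zero_mem _
    · refine ⟨1, X ((), 0) - C δ * X ((), 1), one_ne_zero, ?_⟩
      rw [hv, mul_one, sub_self]
      exact zero_mem _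
    · refine ⟨r, (C h * (X ((), 0) + C δ * X ((), 1))) ^ r + (X ((), 0) - C δ * X ((), 1)) ^ r,
        hr, ?_⟩
      rw [map_add, map_pow, map_pow, hu, hv]
      have e1 : (X ((), 2) : S k Unit) ^ (e * m * r) -
          ((X ((), 0) ^ (e * m)) ^ r + (X ((), 1) ^ (e * m)) ^ r) = -fer L k () := by
        unfold fer
        rw [hL']
        ring
      exact e1 ▸ neg_mem (fer_mem ())
  · intro K _ _ _ z hz
    have : CharP K p := charP_of_injective_algebraMap (algebraMap k K).injective p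
    have hhK : algebraMap k K h + algebraMap k K h = 1 := by rw [← map_add, hh, map_one]
    have hδK : algebraMap k K δ * algebraMap k K ε = 1 := by rw [← map_mul, hδ, map_one]
    have hεK : algebraMap k K ε ^ (r + 2) = -1 := by rw [← map_pow, ← hm, hε, map_neg, map_one]
    obtain ⟨x, hx⟩ := IsAlgClosed.exists_pow_nat_eq
      (algebraMap k K h * (z ((), 0) + algebraMap k K δ * z ((), 1))) (Nat.pos_of_ne_zero hn)
    obtain ⟨y, hy⟩ := IsAlgClosed.exists_pow_nat_eq
      (z ((), 0) - algebraMap k K δ * z ((), 1)) (Nat.pos_of_ne_zero hn)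
    have h0 : x ^ (e * m) + algebraMap k K h * y ^ (e * m) = z ((), 0) := by
      rw [hx, hy]
      linear_combination z ((), 0) * hhK
    have h1 : algebraMap k K ε * (x ^ (e * m) - algebraMap k K h * y ^ (e * m)) = z ((), 1) := by
      rw [hx, hy]
      linear_combination (algebraMap k K δ * algebraMap k K ε * z ((), 1)) * hhK + z ((), 1) * hδK
    have h3 : x ^ (e * m) * y ^ (e * m) * (x ^ L + y ^ L) = z ((), 2) ^ m := by
      have := ssDr_id p hq (algebraMap k K h) (algebraMap k K ε) (x ^ (e * m)) (y ^ (e * m))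
        hhK hεK
      rw [h0, h1, ← hm, ← pow_mul, ← pow_mul, ← hL'] at this
      rw [← this]
      exact hz
    obtain ⟨w, hw, hw'⟩ : ∃ w : K, x ^ L + y ^ L = w ^ L ∧ (x * y * w ^ r) ^ e = z ((), 2) := by
      by_cases hxy : x * y = 0
      · obtain ⟨w, hw⟩ := IsAlgClosed.exists_pow_nat_eq (x ^ L + y ^ L) (Nat.pos_of_ne_zero hL0)
        refine ⟨w, hw.symm, ?_⟩
        rw [← mul_pow, hxy, zero_pow hn, zero_mul] at h3
        rw [hxy, zero_mul, zero_pow he, (pow_eq_zero_iff hm0).1 h3.symm]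
      · obtain ⟨w, hw⟩ := IsAlgClosed.exists_pow_nat_eq (z ((), 2) / (x * y) ^ e)
          (Nat.pos_of_ne_zero (mul_ne_zero hr he))
        have h4 : (x * y * w ^ r) ^ e = z ((), 2) := by
          rw [mul_pow, ← pow_mul, hw, mul_div_cancel₀ _ (pow_ne_zero e hxy)]
        refine ⟨w, ?_, h4⟩
        apply mul_left_cancel₀ (pow_ne_zero (e * m) hxy)
        rw [mul_pow, h3, ← h4, hL']
        ring
    refine ⟨fun v => ![x, y, w] v.2, hw, ssDr_cases ?_ ?_ ?_⟩
    · change aeval _ (aeval (ssDr_im (e * m) r e h ε) (X ((), 0) : S k Unit)) = _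
      rw [ssDr_im0, ← h0]
      simp only [map_add, map_mul, map_pow, aeval_X, aeval_C]
      rfl
    · change aeval _ (aeval (ssDr_im (e * m) r e h ε) (X ((), 1) : S k Unit)) = _
      rw [ssDr_im1, ← h1]
      simp only [map_sub, map_mul, map_pow, aeval_X, aeval_C]
      rfl
    · change aeval _ (aeval (ssDr_im (e * m) r e h ε) (X ((), 2) : S k Unit)) = _
      rw [ssDr_im2, ← hw']
      simp only [map_mul, map_pow, aeval_X]
      rfl
  · intro c hc0 hc1
    have hC : ∀ a : k, sc c (C a : S k Unit) = C a := fun a => (sc c).commutes a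
    have e0 : sc c (X ((), 0) ^ (e * m) : S k Unit) = X ((), 0) ^ (e * m) := by
      rw [map_pow, sc_X, mul_pow, ← map_pow, hc0, map_one, one_mul]
    have e1 : sc c (X ((), 1) ^ (e * m) : S k Unit) = X ((), 1) ^ (e * m) := by
      rw [map_pow, sc_X, mul_pow, ← map_pow, hc1, map_one, one_mul]
    refine ⟨?_, ?_, ?_⟩
    · change sc c (aeval (ssDr_im (e * m) r e h ε) (X ((), 0) : S k Unit)) =
        aeval (ssDr_im (e * m) r e h ε) (X ((), 0) : S k Unit)
      rw [ssDr_im0, map_add, map_mul, e0, e1, hC]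
    · change sc c (aeval (ssDr_im (e * m) r e h ε) (X ((), 1) : S k Unit)) =
        aeval (ssDr_im (e * m) r e h ε) (X ((), 1) : S k Unit)
      rw [ssDr_im1, map_mul, map_sub, map_mul, e0, e1, hC, hC]
    · change sc c (aeval (ssDr_im (e * m) r e h ε) (X ((), 2) : S k Unit)) =
        _ * aeval (ssDr_im (e * m) r e h ε) (X ((), 2) : S k Unit)
      rw [ssDr_im2]
      simp only [map_pow, map_mul, sc_X]
      ring

end Pool.Agent.Tate
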