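import Pool.Agent.P.MP_2ce3e7_ag.UpLow

/-! Direct image along finite maps between powers of Fermat curves. -/

set_option autoImplicit false

noncomputable section

namespace Pool.Agent.Tate

open MvPolynomial

variable {m L : ℕ} {k ι κ : Type} [Field k]

/-- data of a finite map between powers of Fermat curves -/
structure UD (m L : ℕ) (k ι : Type) [Field k] where
  θ : S k ι →ₐ[k] S k ι
  e : ι → ℕ
  e_ne : ∀ i, e i ≠ 0
  hom : ∀ v : ι × Fin 3, Hg (θ (X v)) (e v.1 • wt v)
  fer : ∀ i, θ (Tate.fer m k i) ∈ Fer L k ι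
  fin : ∀ v : ι × Fin 3, ∃ (t : ℕ) (f : S k ι), t ≠ 0 ∧ X v ^ (e v.1 * t) - θ f ∈ Fer L k ι

/-- the map on degrees -/
def UD.val (U : UD m L k ι) : (ι → ℤ) →+ (ι → ℤ) where
  toFun d i := U.e i * d i
  map_zero' := funext fun _ => mul_zero _
  map_add' _ _ := funext fun _ => mul_add _ _ _

theorem UD.val_apply (U : UD m L k ι) (d : ι → ℤ) (i : ι) : U.val d i = U.e i * d i := rfl

theorem UD.val_wt (U : UD m L k ι) (v : ι × Fin 3) : U.val (wt v) = U.e v.1 • wt v := by
  classical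
  funext i
  rw [U.val_apply, Pi.smul_apply, wt_apply]
  split_ifs with h
  · rw [h, nsmul_eq_mul]
  · rw [mul_zero, smul_zero]

theorem UD.hom' (U : UD m L k ι) (v : ι × Fin 3) : Hg (U.θ (X v)) (U.val (wt v)) := by
  rw [U.val_wt]
  exact U.hom v

theorem UD.hg (U : UD m L k ι) {f : S k ι} {d : ι → ℤ} (hf : Hg f d) : Hg (U.θ f) (U.val d) :=
  hom_map U.θ U.val U.hom' hf

theorem UD.mem_Fer (U : UD m L k ι) {f : S k ι} (hf : f ∈ Fer m k ι) : U.θ f ∈ Fer L k ι := by
  have : Fer m k ι ≤ (Fer L k ι).comap U.θ := Ideal.span_le.2 (by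
    rintro _ ⟨i, rfl⟩
    exact U.fer i)
  exact this hf

/-- the ring map of a product -/
def sumθ (θ : S k ι →ₐ[k] S k ι) (θ' : S k κ →ₐ[k] S k κ) : S k (ι ⊕ κ) →ₐ[k] S k (ι ⊕ κ) :=
  aeval fun v => Sum.elim (fun i => rn Sum.inl (θ (X (i, v.2))))
    (fun i => rn Sum.inr (θ' (X (i, v.2)))) v.1

theorem sumθ_X_inl (θ : S k ι →ₐ[k] S k ι) (θ' : S k κ →ₐ[k] S k κ) (i : ι) (a : Fin 3) :
    sumθ θ θ' (X (Sum.inl i, a)) = rn Sum.inl (θ (X (i, a))) := aeval_X _ _

theorem sumθ_X_inr (θ : S k ι →ₐ[k] S k ι) (θ' : S k κ →ₐ[k] S k κ) (i : κ) (a : Fin 3) :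
    sumθ θ θ' (X (Sum.inr i, a)) = rn Sum.inr (θ' (X (i, a))) := aeval_X _ _

theorem sumθ_inl (θ : S k ι →ₐ[k] S k ι) (θ' : S k κ →ₐ[k] S k κ) (f : S k ι) :
    sumθ θ θ' (rn Sum.inl f) = rn Sum.inl (θ f) := by
  have : (sumθ θ θ').comp (rn Sum.inl) = (rn Sum.inl).comp θ := by
    ext1 v
    rw [AlgHom.comp_apply, rn_X, sumθ_X_inl, AlgHom.comp_apply]
  exact AlgHom.congr_fun this f

theorem sumθ_inr (θ : S k ι →ₐ[k] S k ι) (θ' : S k κ →ₐ[k] S k κ) (f : S k κ) :
    sumθ θ θ' (rn Sum.inr f) = rn Sum.inr (θ' f) := by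
  have : (sumθ θ θ').comp (rn Sum.inr) = (rn Sum.inr).comp θ' := by
    ext1 v
    rw [AlgHom.comp_apply, rn_X, sumθ_X_inr, AlgHom.comp_apply]
  exact AlgHom.congr_fun this f

/-- product of two maps -/
def UD.sum (U : UD m L k ι) (U' : UD m L k κ) : UD m L k (ι ⊕ κ) where
  θ := sumθ U.θ U'.θ
  e := Sum.elim U.e U'.e
  e_ne := by
    rintro (i | i)
    exacts [U.e_ne i, U'.e_ne i]
  hom := by
    classical
    rintro ⟨i | i, a⟩
    · rw [sumθ_X_inl]
      have h := hg_rn (f := (Sum.inl : ι → ι ⊕ κ)) Sum.inl_injective (U.hom (i, a))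
      convert h using 1
      funext j
      rcases j with j | j
      · rw [Sum.inl_injective.extend_apply]
        simp [wt_apply]
      · rw [Function.extend_apply' _ _ _ (by rintro ⟨x, hx⟩; exact Sum.inl_ne_inr hx)]
        simp [wt_apply]
    · rw [sumθ_X_inr]
      have h := hg_rn (f := (Sum.inr : κ → ι ⊕ κ)) Sum.inr_injective (U'.hom (i, a))
      convert h using 1
      funext j
      rcases j with j | j
      · rw [Function.extend_apply' _ _ _ (by rintro ⟨x, hx⟩; exact Sum.inr_ne_inl hx)]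
        simp [wt_apply]
      · rw [Sum.inr_injective.extend_apply]
        simp [wt_apply]
  fer := by
    rintro (i | i)
    · rw [← rn_fer Sum.inl i, sumθ_inl]
      exact rn_mem_Fer _ (U.fer i)
    · rw [← rn_fer Sum.inr i, sumθ_inr]
      exact rn_mem_Fer _ (U'.fer i)
  fin := by
    rintro ⟨i | i, a⟩
    · obtain ⟨t, f, ht, hf⟩ := U.fin (i, a)
      refine ⟨t, rn Sum.inl f, ht, ?_⟩
      have h := rn_mem_Fer (Sum.inl : ι → ι ⊕ κ) hf
      rw [map_sub, map_pow, rn_X] at h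
      rw [sumθ_inl]
      exact h
    · obtain ⟨t, f, ht, hf⟩ := U'.fin (i, a)
      refine ⟨t, rn Sum.inr f, ht, ?_⟩
      have h := rn_mem_Fer (Sum.inr : κ → ι ⊕ κ) hf
      rw [map_sub, map_pow, rn_X] at h
      rw [sumθ_inr]
      exact h

theorem ssEmb_inj (U : UD m L k ι) : Function.Injective U.val := by
  intro d d' h
  funext i
  have h1 := congrFun h i
  rw [U.val_apply, U.val_apply] at h1
  exact mul_left_cancel₀ (by exact_mod_cast U.e_ne i) h1

/-- the part of a module in the degrees of the image -/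
def ssEmb_W (U : UD m L k ι) (M : GM L k ι) : Submodule k M.M where
  carrier := {x | ∀ d, d ∉ Set.range U.val → M.π d x = 0}
  add_mem' ha hb d hd := by rw [map_add, ha d hd, hb d hd, add_zero]
  zero_mem' _ _ := map_zero _
  smul_mem' c x hx d hd := by rw [map_smul, hx d hd, smul_zero]

theorem ssEmb_π_mem (U : UD m L k ι) (M : GM L k ι) (d : ι → ℤ) (x : M.M) :
    M.π (U.val d) x ∈ ssEmb_W U M := fun _ hd =>
  M.π_ne _ _ _ fun h => hd ⟨d, h.symm⟩

theorem ssEmb_π_X (U : UD m L k ι) (M : GM L k ι) (v : ι × Fin 3) (d : ι → ℤ) (x : M.M) :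
    M.π (U.val (d + wt v)) (U.θ (X v : S k ι) • x) =
      U.θ (X v : S k ι) • M.π (U.val d) x := by
  rw [map_add, M.π_smul (U.hom' v)]

theorem ssEmb_smul_mem (U : UD m L k ι) (M : GM L k ι) (f : S k ι) :
    ∀ x ∈ ssEmb_W U M, U.θ f • x ∈ ssEmb_W U M := by
  induction f using MvPolynomial.induction_on with
  | C a =>
    intro x hx
    rw [algHom_C, algebraMap_smul]
    exact Submodule.smul_mem _ _ hx
  | add f g hf hg =>
    intro x hx
    rw [map_add, add_smul]
    exact add_mem (hf x hx) (hg x hx)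
  | mul_X f v hf =>
    intro x hx
    rw [map_mul, mul_smul]
    refine hf _ fun d hd => ?_
    have h1 := M.π_smul (U.hom' v) (d - U.val (wt v)) x
    rw [sub_add_cancel] at h1
    rw [h1, hx, smul_zero]
    rintro ⟨c, hc⟩
    refine hd ⟨c + wt v, ?_⟩
    rw [map_add, hc, sub_add_cancel]

theorem ssEmb_sum (U : UD m L k ι) (M : GM L k ι) {x : M.M} (hx : x ∈ ssEmb_W U M) :
    ∃ s : Finset (ι → ℤ), ∑ d ∈ s, M.π (U.val d) x = x := by
  classical
  have hf := (M.finite_supp x).preimage ((ssEmb_inj U).injOn)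
  refine ⟨hf.toFinset, ?_⟩
  rw [← Finset.sum_image (f := fun d => M.π d x) (g := fun d : ι → ℤ => U.val d)
    fun a _ b _ h => ssEmb_inj U h]
  refine M.sum_of_supp x fun d hd => ?_
  have : d ∈ Set.range U.val := by
    by_contra h
    exact hd (hx d h)
  obtain ⟨c, rfl⟩ := this
  exact Finset.mem_image_of_mem _ (hf.mem_toFinset.2 hd)

/-- the action on the direct image -/
def ssEmb_ρ (U : UD m L k ι) (M : GM L k ι) : S k ι →ₐ[k] Module.End k (ssEmb_W U M) where
  toFun f := (Algebra.lsmul k k M.M (U.θ f)).restrict (ssEmb_smul_mem U M f)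
  map_one' := by ext x; simp
  map_mul' f g := by
    ext x
    change U.θ (f * g) • x.1 = U.θ f • U.θ g • x.1
    rw [map_mul, mul_smul]
  map_zero' := by ext x; simp
  map_add' f g := by
    ext x
    change U.θ (f + g) • x.1 = U.θ f • x.1 + U.θ g • x.1
    rw [map_add, add_smul]
  commutes' a := by ext x; simp [-algebraMap_eq]

theorem ssEmb_fg [Fintype ι] (U : UD m L k ι) (M : GM L k ι) :
    ∃ s : Set M.M, s.Finite ∧ s ⊆ ssEmb_W U M ∧
      ssEmb_W U M ≤ Submodule.span k {y | ∃ f : S k ι, ∃ x ∈ s, y = U.θ f • x} := by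
  classical
  obtain ⟨n, x, d, hx, hsp⟩ := M.exists_gens
  choose tt ff htt hff using U.fin
  let B : ι × Fin 3 →₀ ℕ := Finsupp.equivFunOnFinite.symm fun v => U.e v.1 * tt v
  let s : Set M.M := (⋃ i, (fun r => (monomial r 1 : S k ι) • x i) '' Set.Iic B) ∩ ssEmb_W U M
  refine ⟨s, (Set.finite_iUnion fun i => (Set.finite_Iic _).image _).inter_of_left _,
    Set.inter_subset_right, ?_⟩
  set V := Submodule.span k {y | ∃ f : S k ι, ∃ x ∈ s, y = U.θ f • x} with hV
  have hU1 : ∀ g : S k ι, ∀ y ∈ V, U.θ g • y ∈ V := by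
    intro g y hy
    induction hy using Submodule.span_induction with
    | mem y hy =>
      obtain ⟨f, z, hz, rfl⟩ := hy
      exact Submodule.subset_span ⟨g * f, z, hz, by rw [map_mul, mul_smul]⟩
    | zero => rw [smul_zero]; exact zero_mem _
    | add y z _ _ hy hz => rw [smul_add]; exact add_mem hy hz
    | smul a y _ hy => rw [smul_comm]; exact Submodule.smul_mem _ _ hy
  have key : ∀ (i : Fin n) (r : ι × Fin 3 →₀ ℕ) (c : ι → ℤ),
      Finsupp.weight wt r = U.val c - d i → (monomial r 1 : S k ι) • x i ∈ V := by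
    intro i r
    induction r using WellFoundedLT.induction with
    | ind r ih =>
    intro c hc
    by_cases h : ∃ v : ι × Fin 3, U.e v.1 * tt v ≤ r v
    · obtain ⟨v, hv⟩ := h
      have h1 : Finsupp.single v (U.e v.1 * tt v) ≤ r := Finsupp.single_le_iff.2 hv
      obtain ⟨r', rfl⟩ := exists_add_of_le h1
      have h2 : r' < Finsupp.single v (U.e v.1 * tt v) + r' :=
        lt_add_of_pos_left _ (pos_iff_ne_zero.2
          (Finsupp.single_ne_zero.2 (mul_ne_zero (U.e_ne _) (htt v))))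
      have h3 := ih r' h2 (c - tt v • wt v) (by
        rw [map_add, Finsupp.weight_single] at hc
        rw [map_sub, map_nsmul, U.val_wt, smul_smul, mul_comm (tt v),
          ← add_left_inj ((U.e v.1 * tt v) • wt v), add_comm, hc]
        abel)
      have h5 : (monomial (Finsupp.single v (U.e v.1 * tt v) + r') 1 : S k ι) =
          X v ^ (U.e v.1 * tt v) * monomial r' 1 := by
        rw [X_pow_eq_monomial, monomial_mul, one_mul]
      have h6 := GM.mem_ann.1 (M.Fer_le_ann (hff v)) ((monomial r' 1 : S k ι) • x i)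
      rw [sub_smul, sub_eq_zero] at h6
      rw [h5, mul_smul, h6]
      exact hU1 _ _ h3
    · push Not at h
      have hg : Hg (monomial r 1 : S k ι) (U.val c - d i) :=
        isWeightedHomogeneous_monomial _ _ _ hc
      refine Submodule.subset_span ⟨1, (monomial r 1 : S k ι) • x i,
        ⟨Set.mem_iUnion.2 ⟨i, r, fun v => (h v).le, rfl⟩, ?_⟩, by rw [map_one U.θ, one_smul]⟩
      have h1 := M.π_smul hg (d i) (x i)
      rw [hx, add_sub_cancel] at h1
      rw [← h1]
      exact ssEmb_π_mem U M c _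
  intro y hy
  obtain ⟨t, ht⟩ := ssEmb_sum U M hy
  rw [← ht]
  refine Submodule.sum_mem _ fun c _ => ?_
  obtain ⟨f, hf⟩ := (Submodule.mem_span_range_iff_exists_fun (S k ι)).1
    (hsp ▸ Submodule.mem_top : y ∈ Submodule.span (S k ι) (Set.range x))
  rw [← hf, map_sum]
  refine Submodule.sum_mem _ fun i _ => ?_
  have h1 := M.π_smul_hom (hx i) (f i) (U.val c - d i)
  rw [sub_add_cancel] at h1
  have h2 : Hg (cmp (U.val c - d i) (f i)) (U.val c - d i) :=
    weightedHomogeneousComponent_isWeightedHomogeneous _ _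
  rw [h1, (cmp (U.val c - d i) (f i)).as_sum, Finset.sum_smul]
  refine Submodule.sum_mem _ fun r hr => ?_
  rw [← mul_one (coeff r _), ← C_mul_monomial, mul_smul, M.C_smul]
  exact Submodule.smul_mem _ _ (key i r c (h2 (mem_support_iff.1 hr)))

variable [Fintype ι] [Fintype κ]

theorem UD.exists_emb (U : UD m L k ι) (M : GM L k ι) :
    ∃ (N : GM m k ι) (j : N.M →ₗ[k] M.M), IsEmb U.θ U.val M N j := by
  refine ⟨GM.ofRep (ssEmb_W U M) (ssEmb_ρ U M)
    (fun d => (M.π (U.val d)).restrict fun x _ => ssEmb_π_mem U M d x) ?_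
    (fun d x => Subtype.ext (M.π_self _ _))
    (fun d d' x h => Subtype.ext (M.π_ne _ _ _ fun h' => h (ssEmb_inj U h')))
    (fun x => ?_) (fun v d x => Subtype.ext (ssEmb_π_X U M v d x))
    (fun i x => Subtype.ext (GM.mem_ann.1 (M.Fer_le_ann (U.fer i)) x.1)),
    (ssEmb_W U M).subtype, Subtype.val_injective, fun _ _ => rfl, fun _ _ => rfl,
    fun d x => ⟨⟨_, ssEmb_π_mem U M d x⟩, rfl⟩⟩
  · obtain ⟨s, h1, h2, h3⟩ := ssEmb_fg U M
    refine ⟨Subtype.val ⁻¹' s, h1.preimage Subtype.val_injective.injOn, eq_top_iff.2 fun w _ => ?_⟩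
    have h4 : Submodule.span k {y | ∃ f : S k ι, ∃ x ∈ s, y = U.θ f • x} ≤
        (Submodule.span k {y | ∃ f, ∃ x ∈ Subtype.val ⁻¹' s, y = ssEmb_ρ U M f x}).map
          (ssEmb_W U M).subtype := Submodule.span_le.2 (by
      rintro _ ⟨f, x, hx, rfl⟩
      exact ⟨_, Submodule.subset_span ⟨f, ⟨x, h2 hx⟩, hx, rfl⟩, rfl⟩)
    obtain ⟨u, hu, e⟩ := h4 (h3 w.2)
    rwa [← show u = w from Subtype.ext e]
  · obtain ⟨s, hs⟩ := ssEmb_sum U M x.2
    exact ⟨s, Subtype.ext (by rw [Submodule.coe_sum]; exact hs)⟩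

omit [Fintype ι] in
theorem ssEmb_tors (U : UD m L k ι) {M : GM L k ι} {N : GM m k ι} {j : N.M →ₗ[k] M.M}
    (hN : IsEmb U.θ U.val M N j) (h : Tors M) : cls N = 0 := by
  obtain ⟨d₀, hd⟩ := h
  refine cls_tors ⟨fun i => |d₀ i|, fun d hdd => ?_⟩
  have hv : d₀ ≤ U.val d := by
    intro i
    have h1 : |d₀ i| ≤ d i := hdd i
    have h2 := le_abs_self (d₀ i)
    have h3 := abs_nonneg (d₀ i)
    have h4 : (1 : ℤ) ≤ U.e i := by exact_mod_cast Nat.one_le_iff_ne_zero.2 (U.e_ne i)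
    rw [U.val_apply]
    nlinarith
  ext x
  apply hN.inj
  rw [hN.π, hd _ hv]
  simp

theorem exists_upq (U : UD m L k ι) : ∃ F : G L k ι →ₗ[ℂ] G m k ι,
    ∀ M N j, IsEmb U.θ U.val M N j → F (cls M) = cls N := by
  choose V u hU using fun M : GM L k ι => U.exists_emb M
  obtain ⟨F, hF⟩ := exists_lift (fun M => (cls (V M) : G m k ι))
    (fun M N P _ _ h => UpEmb_ses (hU M) (hU N) (hU P) h)
    (fun M hM => ssEmb_tors U (hU M) hM)
  exact ⟨F, fun M N j h => (hF M).trans ((hU M).cls_eq h)⟩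

/-- direct image on classes -/
def upq (U : UD m L k ι) : G L k ι →ₗ[ℂ] G m k ι := (exists_upq U).choose

theorem IsEmb.upq_cls {U : UD m L k ι} {M : GM L k ι} {N : GM m k ι} {j : N.M →ₗ[k] M.M}
    (h : IsEmb U.θ U.val M N j) : upq U (cls M) = cls N := (exists_upq U).choose_spec M N j h

theorem upq_box (U : UD m L k ι) (U' : UD m L k κ) (x : G L k ι) (y : G L k κ) :
    upq (U.sum U') (boxG x y) = boxG (upq U x) (upq U' y) := by
  have key : ∀ (M : GM L k ι) (N : GM L k κ),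
      upq (U.sum U') (boxG (cls M) (cls N)) = boxG (upq U (cls M)) (upq U' (cls N)) := by
    intro M N
    obtain ⟨M', a, ha⟩ := U.exists_emb M
    obtain ⟨N', b, hb⟩ := U'.exists_emb N
    obtain ⟨P, j, h⟩ := exists_isBox M N
    obtain ⟨P', j', h'⟩ := exists_isBox M' N'
    rw [ha.upq_cls, hb.upq_cls, h.boxG_cls, h'.boxG_cls]
    refine IsEmb.upq_cls (j := UpEmb_lin j' j a b) ⟨?_, ?_, fun d => ?_, fun d z => ?_⟩
    · have hinj : Function.Injective (TensorProduct.map a b) := by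
        rw [← LinearMap.lTensor_comp_rTensor]
        exact (Module.Flat.lTensor_preserves_injective_linearMap _ hb.inj).comp
          (Module.Flat.rTensor_preserves_injective_linearMap _ ha.inj)
      exact j.injective.comp (hinj.comp j'.symm.injective)
    · exact UpEmb_lin_smul h' h a b U.θ U'.θ (sumθ U.θ U'.θ) ha.smul hb.smul
        (fun i c => sumθ_X_inl _ _ i c) fun i c => sumθ_X_inr _ _ i c
    · exact UpEmb_lin_π h' h a b d _ (fun x => ha.π _ x) fun x => hb.π _ x
    · refine box_ext j (p := fun z => P.π ((U.sum U').val d) z ∈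
        LinearMap.range (UpEmb_lin j' j a b)) (by simp) (fun x y => ?_) (fun x y hx hy => ?_) z
      · rw [box_π_tmul h]
        obtain ⟨x', hx'⟩ := ha.surj (d ∘ Sum.inl) x
        obtain ⟨y', hy'⟩ := hb.surj (d ∘ Sum.inr) y
        exact ⟨j' (TensorProduct.tmul k x' y'), by rw [UpEmb_lin_tmul, hx', hy']; rfl⟩
      · simp only [map_add] at hx hy ⊢
        exact add_mem hx hy
  induction x using G.ind with
  | h0 => simp
  | h2 x x' hx hx' => simp only [map_add, LinearMap.add_apply, hx, hx']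
  | h3 c x hx => simp only [map_smul, LinearMap.smul_apply, hx]
  | h1 M =>
    induction y using G.ind with
    | h0 => simp
    | h2 y y' hy hy' => simp only [map_add, hy, hy']
    | h3 c y hy => simp only [map_smul, hy]
    | h1 N => exact key M N

theorem upq_tw3 [NeZero m] [NeZero L] (U : UD m L k ι) (ζ : Rt m k) (ζ' : Rt L k)
    {g : ι → Fin 3 → ZMod m} {g' : ι → Fin 3 → ZMod L}
    (h : ∀ v, sc (c3 ζ' g') (U.θ (X v)) = U.θ (sc (c3 ζ g) (X v))) (x : G L k ι) :
    upq U (tw3 ζ' g' x) = tw3 ζ g (upq U x) := by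
  have key : (upq U).comp (pullG (twD ζ' g')) = (pullG (twD ζ g)).comp (upq U) := by
    refine G.ext fun M => ?_
    obtain ⟨N, j, hN⟩ := exists_isPull (twD ζ' g') M
    obtain ⟨P, j', hP⟩ := U.exists_emb N
    obtain ⟨N₂, j₂, hN₂⟩ := U.exists_emb M
    obtain ⟨P₂, j₂', hP₂⟩ := exists_isPull (twD ζ g) N₂
    rw [LinearMap.comp_apply, LinearMap.comp_apply, hN.pullG_cls (Ops_tw_s ζ' g'), hP.upq_cls,
      hN₂.upq_cls, hP₂.pullG_cls (Ops_tw_s ζ g)]
    have h1 := hN.isEmb.comp hP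
    have h2 := IsEmb.comp hN₂ hP₂.isEmb
    have e1 : (twD ζ' g').φ.comp U.θ = U.θ.comp (twD ζ g).φ := by
      rw [twD_φ, twD_φ]
      exact MvPolynomial.algHom_ext h
    have e2 : ((twD ζ' g').val ∘ U.val) = U.val ∘ (twD ζ g).val := by
      funext d
      rw [Function.comp_apply, Function.comp_apply, Ops_tw_val, Ops_tw_val]
    rw [e1, e2] at h1
    exact h1.cls_eq h2
  exact LinearMap.congr_fun key x

end Pool.Agent.Tate
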