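import Pool.Agent.P.MP_2ce3e7_ag.TQGeo

/-! From differences of Gauss sums to differences of Jacobi sums. -/

set_option autoImplicit false
set_option linter.unusedSectionVars false

noncomputable section

namespace Pool.Agent.Tate

open Pool.Agent.Ferm
open Pool.Agent.P.MP_e12fcd_ag.Fermat (bern tors mem_tors)

/-- Frobenius differences of classes -/
def XE (p L : ℕ) [NeZero L] : AddSubgroup Acl :=
  AddSubgroup.closure {x | ∃ c : Ch L, Nd c ∧
    x = tcl c.1 c.2 - tcl ((p : ZMod L) • c).1 ((p : ZMod L) • c).2}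

variable {p L : ℕ} [NeZero L]

theorem io_tcl_lv (c : Ch L) :
    io (8 * L) (tcl c.1 c.2) = ∑ j, Ferm.phi (lv (8 * L) (ex3 c j)) := by
  have h : L ∣ 8 * L := dvd_mul_left L 8
  rw [← EGroupX.tcl_lift (upDefs_eq h), io_tcl, Fin.sum_univ_three]
  simp only [ex3, Matrix.cons_val_zero, Matrix.cons_val_one, Matrix.cons_val_two,
    Matrix.head_cons, Matrix.tail_cons, upDefs_lift h, map_sub, map_neg]

theorem tqXE_even (hp : p.Coprime L) {x : Acl} (hx : x ∈ XE p L) : Even (deg x) := by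
  induction hx using AddSubgroup.closure_induction with
  | mem y hy =>
    obtain ⟨c, hc, rfl⟩ := hy
    have hc' := hc.smul ((ZMod.isUnit_iff_coprime p L).2 hp)
    rw [map_sub, levA_deg hc, levA_deg hc']
    split_ifs <;> decide
  | zero => simp
  | add y z _ _ hy hz => rw [map_add]; exact hy.add hz
  | neg y _ hy => rw [map_neg]; exact hy.neg

theorem tqXE_bern {M : ℕ} [NeZero M] (h4 : 4 ∣ M) {β : ZMod M} (h0 : β ≠ 0)
    (h1 : β + Ferm.fr M 2 1 ≠ 0) :
    bern (β + Ferm.fr M 2 1) - bern β = M ∨ bern (β + Ferm.fr M 2 1) - bern β = -M := by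
  obtain ⟨k, hk⟩ := h4
  have hM := NeZero.pos M
  have hv : (Ferm.fr M 2 1).val = 2 * k := by
    rw [Ferm.fr, ZMod.val_cast_of_lt (by omega)]
    omega
  simp only [bern, if_neg h0, if_neg h1]
  by_cases hl : β.val + (Ferm.fr M 2 1).val < M
  · rw [ZMod.val_add_of_lt hl, hv]
    omega
  · have := not_lt.1 hl
    rw [ZMod.val_add_of_le this, hv] at *
    omega

theorem mem_XE (hp : p.Coprime L) {x : Acl} (hx : io (8 * L) x ∈ RE p L) (he : Even (deg x)) :
    x ∈ XE p L := by
  have h : L ∣ 8 * L := dvd_mul_left L 8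
  have h4 : 4 ∣ 8 * L := (by norm_num : 4 ∣ 8).mul_right L
  obtain ⟨n1, n2, -⟩ := EGroupX.half h4
  have hu : IsUnit (p : ZMod L) := (ZMod.isUnit_iff_coprime p L).2 hp
  let T : ZMod L → EG (8 * L) := fun b =>
    Ferm.phi (lv (8 * L) b) - Ferm.phi (lv (8 * L) ((p : ZMod L) * b))
  let H := (XE p L).map (io (8 * L))
  let w := Ferm.phi (Ferm.fr (8 * L) 2 1)
  have hw : -w = w := by rw [← phi_neg, n2]
  have hTn : ∀ b, T (-b) = -T b := fun b => by
    simp only [T, mul_neg, lv_neg h, phi_neg]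
    abel
  have hadd : ∀ a b, T a + T b - T (a + b) ∈ H := fun a b => by
    refine ⟨tcl a b - tcl ((p : ZMod L) * a) ((p : ZMod L) * b), ?_, ?_⟩
    · by_cases hn : Nd ((a, b) : Ch L)
      · exact AddSubgroup.subset_closure ⟨(a, b), hn, rfl⟩
      · rw [tcl_of_not hn, tcl_of_not fun h' => hn ⟨fun e => h'.1 (by rw [show a = 0 from e,
          mul_zero]), fun e => h'.2.1 (by rw [show b = 0 from e, mul_zero]), fun e => h'.2.2 (by
          rw [← mul_add, show a + b = 0 from e, mul_zero])⟩, sub_zero]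
        exact zero_mem _
    · have e1 := io_tcl_lv ((a, b) : Ch L)
      have e2 := io_tcl_lv (((p : ZMod L) * a, (p : ZMod L) * b) : Ch L)
      simp only [ex3, Fin.sum_univ_three, Matrix.cons_val_zero, Matrix.cons_val_one,
        Matrix.cons_val_two, Matrix.head_cons, Matrix.tail_cons, ← neg_add', lv_neg h,
        phi_neg, ← mul_add] at e1 e2
      rw [map_sub, e1, e2]
      simp only [T]
      abel
  have hex : ∀ y ∈ RE p L, ∃ b, ∃ k : ℤ, y - k • w - T b ∈ H := fun y hy => by
    induction hy using AddSubgroup.closure_induction with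
    | mem y hy =>
      rcases hy with rfl | ⟨b, rfl⟩
      · exact ⟨0, 1, by simp [T, w]⟩
      · exact ⟨b, 0, by simp [T]⟩
    | zero => exact ⟨0, 0, by simp [T]⟩
    | add y z _ _ hy hz =>
      obtain ⟨a, j, ha⟩ := hy
      obtain ⟨b, k, hb⟩ := hz
      refine ⟨a + b, j + k, ?_⟩
      convert add_mem (add_mem ha hb) (hadd a b) using 1
      rw [add_smul]
      abel
    | neg y _ hy =>
      obtain ⟨a, j, ha⟩ := hy
      refine ⟨-a, -j, ?_⟩
      convert neg_mem ha using 1
      rw [hTn, neg_smul]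
      abel
  obtain ⟨b, k, y, hy, e⟩ := hex _ hx
  have hww : w + w = 0 := neg_eq_iff_add_eq_zero.1 hw
  have h2 : ∀ j : ℤ, (2 * j) • w = 0 := fun j => by
    rw [mul_smul, two_smul, ← smul_add, hww, smul_zero]
  have hs : ∀ a : ZMod (8 * L), Ferm.sg (8 * L) (Ferm.phi a) = a := fun _ => rfl
  have hs0 : ∀ a : Acl, Ferm.sg (8 * L) (io (8 * L) a) = 0 := fun _ => rfl
  have ht : ∀ a : ZMod (8 * L), et (8 * L) (Ferm.phi a) = -bern a := fun a => by
    change ((8 * L : ℕ) : ℤ) * deg 0 - bern a = _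
    rw [map_zero, mul_zero, zero_sub]
  rcases Int.even_or_odd' k with ⟨j, rfl | rfl⟩
  · rw [h2, sub_zero] at e
    have e1 := congrArg (Ferm.sg (8 * L)) e
    simp only [T, map_sub, hs, hs0, zero_sub] at e1
    have e2 : T b = 0 := by
      simp only [T]
      rw [sub_eq_zero.1 (neg_eq_zero.1 e1.symm), sub_self]
    rw [e2, sub_zero] at e
    rwa [← io_injective e]
  · exfalso
    rw [add_smul, h2, zero_add, one_smul] at e
    have e1 := congrArg (Ferm.sg (8 * L)) e
    have e2 := congrArg (et (8 * L)) e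
    simp only [T, w, map_sub, hs, hs0, ht, et_io] at e1 e2
    have e3 : lv (8 * L) ((p : ZMod L) * b) = lv (8 * L) b + Ferm.fr (8 * L) 2 1 := by
      linear_combination -e1
    have e4 : b ≠ 0 := by
      rintro rfl
      rw [mul_zero, left_eq_add] at e3
      exact n1 e3
    rw [P.MP_e12fcd_ag.Fermat.bern_two_torsion (y := Ferm.fr (8 * L) 2 1)
      (by linear_combination -n2), e3] at e2
    obtain ⟨u, hu'⟩ := he
    obtain ⟨v, hv⟩ := tqXE_even hp hy
    have hL : ((8 * L : ℕ) : ℤ) ≠ 0 := Nat.cast_ne_zero.2 (NeZero.ne _)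
    rw [hu', hv] at e2
    rcases tqXE_bern h4 (β := lv (8 * L) b) (fun h0 => e4 ((lv_eq_zero h).1 h0)) (fun h0 => e4
      (hu.mul_right_eq_zero.1 ((lv_eq_zero h).1 (e3.trans h0)))) with h5 | h5
    · have : ((8 * L : ℕ) : ℤ) * (2 * (u - v) - 1) = 0 := by linear_combination h5 - e2
      have := (mul_eq_zero.1 this).resolve_left hL
      omega
    · have : ((8 * L : ℕ) : ℤ) * (2 * (u - v) + 1) = 0 := by linear_combination h5 - e2
      have := (mul_eq_zero.1 this).resolve_left hL
      omega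

theorem exists_family_cls {x : Acl} (hx : x ∈ XE p L) : ∃ (n : ℕ) (c : Fin n → Ch L),
    (∀ j, Nd (c j)) ∧
    x = ∑ j, (tcl (c j).1 (c j).2 - tcl ((p : ZMod L) • c j).1 ((p : ZMod L) • c j).2) := by
  induction hx using AddSubgroup.closure_induction with
  | mem y hy =>
    obtain ⟨c, hc, rfl⟩ := hy
    exact ⟨1, fun _ => c, fun _ => hc, by simp⟩
  | zero => exact ⟨0, Fin.elim0, fun j => j.elim0, by simp⟩
  | add y z _ _ hy hz =>
    obtain ⟨n, c, hc, rfl⟩ := hy
    obtain ⟨n', c', hc', rfl⟩ := hz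
    refine ⟨n + n', Fin.append c c', ?_, ?_⟩
    · intro j
      refine Fin.addCases (fun i => ?_) (fun i => ?_) j
      · rw [Fin.append_left]; exact hc i
      · rw [Fin.append_right]; exact hc' i
    · rw [Fin.sum_univ_add]
      simp only [Fin.append_left, Fin.append_right]
  | neg y _ hy =>
    obtain ⟨n, c, hc, rfl⟩ := hy
    refine ⟨n, fun j => -c j, fun j => (hc j).neg, ?_⟩
    rw [← Finset.sum_neg_distrib]
    refine Finset.sum_congr rfl fun j _ => ?_
    simp only [smul_neg, Prod.fst_neg, Prod.snd_neg, tcl_neg]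
    abel

theorem even_deg {ι : Type} [Fintype ι] {a : ι → Ch L} (ha : ∀ i, Nd (a i)) :
    Even (deg (∑ i, tcl (a i).1 (a i).2)) ↔ Even (Fintype.card ι) := by
  have h : ∀ i, ∃ k : ℤ, deg (tcl (a i).1 (a i).2) = 2 * k + 1 := fun i => by
    rw [levA_deg (ha i)]
    split_ifs
    exacts [⟨0, rfl⟩, ⟨-1, rfl⟩]
  choose k hk using h
  rw [map_sum, Finset.sum_congr rfl fun i _ => hk i, Finset.sum_add_distrib, ← Finset.mul_sum,
    Finset.sum_const, Finset.card_univ, nsmul_eq_mul, mul_one, Int.even_add, Int.even_coe_nat]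
  simp

end Pool.Agent.Tate
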