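import Pool.Agent.P.MP_2ce3e7_ag.Exist
import Pool.Agent.P.MP_2ce3e7_ag.TQXE

/-! Families of class zero carry cycles. -/

set_option autoImplicit false
set_option linter.unusedSectionVars false

noncomputable section

namespace Pool.Agent.Tate

open MvPolynomial MeasureTheory Set Module Pool.Agent.Weil Pool.Agent.Ferm

variable {m : ℕ} [NeZero m]

theorem tqAn_compl {ι : Type} [Fintype ι] {b : ι → Ch m} (hb : ∀ i, Nd (b i))
    (h : ∑ i, tcl (b i).1 (b i).2 = 0) :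
    ∑ j : {j : IX m ι // j.2.1 ≠ b j.1}, tcl j.1.2.1.1 j.1.2.1.2 = 0 := by
  have h1 := Fintype.sum_subtype_add_sum_subtype (fun j : IX m ι => j.2.1 = b j.1)
    fun j => tcl j.2.1.1 j.2.1.2
  have h2 : ∑ j : {j : IX m ι // j.2.1 = b j.1}, tcl j.1.2.1.1 j.1.2.1.2 =
      ∑ i, tcl (b i).1 (b i).2 := by
    refine Fintype.sum_bijective (fun j => j.1.1) ⟨fun j j' h => ?_, fun i =>
      ⟨⟨(i, ⟨b i, hb i⟩), rfl⟩, rfl⟩⟩ _ _ fun j => by rw [j.2]
    have h3 : j.1.1 = j'.1.1 := h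
    exact Subtype.ext (Prod.ext h3 (Subtype.ext (by rw [j.2, j'.2, h3])))
  rw [h2, h, levA_total, zero_add] at h1
  exact h1

theorem tqAn_neg {ι : Type} [Fintype ι] {b : ι → Ch m} (h : ∑ i, tcl (b i).1 (b i).2 = 0) :
    ∑ i, tcl ((-b) i).1 ((-b) i).2 = 0 := by
  simp only [Pi.neg_apply, Prod.fst_neg, Prod.snd_neg, tcl_neg, Finset.sum_neg_distrib, h,
    neg_zero]

theorem exists_salg_cls {ι : Type} [Fintype ι] [DecidableEq ι] {b : ι → Ch m}
    (hb : ∀ i, Nd (b i)) (h : ∑ i, tcl (b i).1 (b i).2 = 0) {ρ : Type} [Fintype ρ]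
    [DecidableEq ρ] (e : ρ ≃ {j : IX m ι // j.2.1 ≠ b j.1}) :
    ∃ T ∈ SAlg (ratSpan (LL m ι)) ρ, T (fun a => cov (e a).1.1 (e a).1.2.1) ≠ 0 := by
  obtain ⟨C, hC, hs⟩ := levA_basis m ι
  let L : Cov (VS m ι) →ₗ[ℂ] (ρ → ℂ) := LinearMap.pi fun a => C.coord (e a).1
  have hT : ∀ J : ρ → IX m ι, (Matrix.detRowAlternating.compLinearMap L) (fun a => C (J a)) =
      Matrix.det (Matrix.of fun a a' => if J a = (e a').1 then (1 : ℂ) else 0) := fun J => by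
    change Matrix.det (Matrix.of fun a a' => C.repr (C (J a)) (e a').1) = _
    simp only [Basis.repr_self, Finsupp.single_apply]
  have hQ : ratSpan (LL m ι) = (Tor.pi fun _ : ι => FT m).Q := ratSpan_dpi _
  refine ⟨Matrix.detRowAlternating.compLinearMap L, ?_, ?_⟩
  · rw [hQ]
    refine mem_salg_of_cls (A := Tor.pi fun _ : ι => FT m) C hs _ fun J hJ => ?_
    have h1 : ∀ j, Ferm.cls (Tor.pi fun _ : ι => FT m) (ℂ ∙ C j) = tcl j.2.1.1 j.2.1.2 := by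
      intro j
      have ho := isObj_line (A := Tor.pi fun _ : ι => FT m) C hs j
      rw [tcl_of_ok j.2.2]
      exact cls_line_of_map ho (isObj_xi j.2.2) (C.ne_zero j) (prj_mem (fun _ : ι => FT m) j.1)
        (hC j).symm
    rw [hT, Matrix.det_apply] at hJ
    obtain ⟨σ, -, hσ⟩ := Finset.exists_ne_zero_of_sum_ne_zero hJ
    have h2 : ∀ a, J (σ a) = (e a).1 := fun a => by
      by_contra hc
      refine hσ ?_
      rw [Finset.prod_eq_zero (Finset.mem_univ a) (by simp [hc]), smul_zero]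
    simp only [h1]
    rw [← tqAn_compl hb h, ← Equiv.sum_comp σ, ← Equiv.sum_comp e]
    exact Finset.sum_congr rfl fun a _ => by rw [h2]
  · have h1 := hT fun a => (e a).1
    simp only [hC] at h1
    rw [h1]
    have h2 : (Matrix.of fun a a' => if (e a).1 = (e a').1 then (1 : ℂ) else 0) = 1 := by
      ext a a'
      simp [Matrix.one_apply, Subtype.val_inj]
    rw [h2, Matrix.det_one]
    exact one_ne_zero

theorem an_main_cls {ι : Type} [Fintype ι] [DecidableEq ι] [Nonempty ι] {b : ι → Ch m}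
    (hb : ∀ i, Nd (b i)) (h : ∑ i, tcl (b i).1 (b i).2 = 0) :
    ∃ (w : Rt m ℂ) (J J' : Ideal (S ℂ ι)), GrI J ∧ Fer m ℂ ι ≤ J ∧ GrI J' ∧ Fer m ℂ ι ≤ J' ∧
      (∀ g g', Transv (J.map (sc (c3 w (up g)))) (J'.map (sc (c3 w (up g'))))) ∧
      ∑ g, ∑ g', ch (-b) g * ch b g' * ((VV (J.map (sc (c3 w (up g)))) ∩
        VV (J'.map (sc (c3 w (up g'))))).ncard : ℂ) ≠ 0 := by
  obtain ⟨D⟩ := exists_cd m
  obtain ⟨d, hd⟩ : ∃ d, 2 * d = Fintype.card ι := by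
    obtain ⟨d, hd⟩ := (even_deg hb).1 (by rw [h, map_zero]; exact Even.zero)
    exact ⟨d, by omega⟩
  have hb' : ∀ i, Nd ((-b) i) := fun i => (hb i).neg
  have c1 := AnMain_card hb
  have c2 := AnMain_card hb'
  obtain ⟨s, hs⟩ : ∃ s, d + s = finrank ℂ (VS m ι) := ⟨finrank ℂ (VS m ι) - d, by omega⟩
  have e : Fin s ⊕ Fin s ≃ {j : IX m ι // j.2.1 ≠ b j.1} :=
    Fintype.equivOfCardEq (by rw [Fintype.card_sum, Fintype.card_fin]; omega)
  have e' : Fin s ⊕ Fin s ≃ {j : IX m ι // j.2.1 ≠ (-b) j.1} :=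
    Fintype.equivOfCardEq (by rw [Fintype.card_sum, Fintype.card_fin]; omega)
  obtain ⟨T₀, hT₀, n₀⟩ := exists_salg_cls hb h e
  obtain ⟨T₁, hT₁, n₁⟩ := exists_salg_cls hb' (tqAn_neg h) e'
  obtain ⟨c, k, T, hc, hT, n⟩ := exists_nice (isLat_LL m ι) hT₀ n₀
  obtain ⟨c', k', T', hc', hT', n'⟩ := exists_nice (isLat_LL m ι) hT₁ n₁
  obtain ⟨E, hE, h0, hgood⟩ := D.exists_set hb hc hc' (by omega) hT hT' e e' n n'
  have a1 := D.ae_slc (d := d) c hc.imm (by omega) (by omega)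
  have a2 := D.ae_slc (d := d) c' hc'.imm (by omega) (by omega)
  have ch1 : ∀ t, ∃ J B, (∃ J B, D.Slc c t d J B) → D.Slc c t d J B := fun t => by
    by_cases h : ∃ J B, D.Slc c t d J B
    · obtain ⟨J, B, h⟩ := h
      exact ⟨J, B, fun _ => h⟩
    · exact ⟨⊤, ∅, fun h' => absurd h' h⟩
  have ch2 : ∀ t, ∃ J B, (∃ J B, D.Slc c' t d J B) → D.Slc c' t d J B := fun t => by
    by_cases h : ∃ J B, D.Slc c' t d J B
    · obtain ⟨J, B, h⟩ := h
      exact ⟨J, B, fun _ => h⟩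
    · exact ⟨⊤, ∅, fun h' => absurd h' h⟩
  choose J B hJ using ch1
  choose J' B' hJ' using ch2
  obtain ⟨t, t', hmem, p, p', q, q'⟩ := exists_select (volume : Measure (VS m ι))
    (volume : Measure (VS m ι)) hE h0 (p := fun t => D.Slc c t d (J t) (B t))
    (p' := fun t => D.Slc c' t d (J' t) (B' t))
    (N := fun t => ⋃ g : ι → Ch m, {t' | ∃ w ∈ B t, D.Hit c' t' (gs g w)})
    (C := fun t' => ⋃ g : ι → Ch m, {t | ∃ w ∈ B' t', D.Hit c t (gs g w)})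
    (a1.mono fun t ht => ⟨hJ t ht, measure_iUnion_null fun g =>
      (CD.avoid (hJ t ht).inv D c' hs.le (hJ t ht).closed (hJ t ht).thin g).2⟩)
    (a2.mono fun t ht => ⟨hJ' t ht, isClosed_iUnion_of_finite fun g =>
      (CD.avoid (hJ' t ht).inv D c hs.le (hJ' t ht).closed (hJ' t ht).thin g).1,
      measure_iUnion_null fun g =>
      (CD.avoid (hJ' t ht).inv D c hs.le (hJ' t ht).closed (hJ' t ht).thin g).2⟩)
  obtain ⟨hsum, hfin⟩ := hgood _ hmem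
  have out : ∀ g g' : ι → Ch m, ∀ y ∈ D.hits c c' g g' (t, t'),
      gs g (rep y) ∉ B t ∧ gs g' (rep y) ∉ B' t' := fun g g' y hy =>
    ⟨fun h => q (mem_iUnion.2 ⟨g' - g, _, h, by rw [gs_gs, sub_add_cancel]; exact hy.2⟩),
      fun h => q' (mem_iUnion.2 ⟨g - g', _, h, by rw [gs_gs, sub_add_cancel]; exact hy.1⟩)⟩
  have eq : ∀ g g' : ι → Ch m, VV ((J t).map (sc (c3 (w0 m) (up g)))) ∩
      VV ((J' t').map (sc (c3 (w0 m) (up g')))) = D.hits c c' g g' (t, t') := fun g g' => by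
    ext y
    constructor
    · rintro ⟨h1, h2⟩
      exact ⟨p.hit _ ((mem_ZS_sc _ _ _).1 h1) ((nz_rep y).of_gs g),
        p'.hit _ ((mem_ZS_sc _ _ _).1 h2) ((nz_rep y).of_gs g')⟩
    · intro hy
      exact ⟨(mem_ZS_sc _ _ _).2 (p.good _ hy.1 (out g g' y hy).1).1,
        (mem_ZS_sc _ _ _).2 (p'.good _ hy.2 (out g g' y hy).2).1⟩
  refine ⟨w0 m, J t, J' t', p.gr, p.fer, p'.gr, p'.fer, fun g g' => ⟨?_, fun y hy => ?_⟩, ?_⟩
  · rw [eq]
    exact (hfin g g').1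
  · rw [eq] at hy
    obtain ⟨z1, l1, t1⟩ := p.good _ hy.1 (out g g' y hy).1
    obtain ⟨z2, l2, t2⟩ := p'.good _ hy.2 (out g g' y hy).2
    refine ⟨2 * Fintype.card ι - d, 2 * Fintype.card ι - d, by omega, LocGen.map_sc _ l1,
      LocGen.map_sc _ l2, ?_⟩
    rintro v ⟨v1, v2⟩
    obtain ⟨θ₁, g1, h1⟩ := t1 _ ((mem_Tan_sc _ z1 v).1 v1)
    obtain ⟨θ₂, g2, h2⟩ := t2 _ ((mem_Tan_sc _ z2 v).1 v2)
    obtain ⟨r1, r2⟩ := AnMain_back g g1
    obtain ⟨r3, r4⟩ := AnMain_back g' g2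
    refine (hfin g g').2 _ v _ r1 (by rw [r2]; exact h1) ?_
    rw [r1.unique r3, r4]
    exact h2
  · simpa only [eq] using hsum

theorem hasPair_of_cls {K ι : Type} [Field K] [IsAlgClosed K] [NeZero (m : K)] [Fintype ι]
    [DecidableEq ι] (ζ : Rt m K) {a : ι → Ch m} (ha : ∀ i, Nd (a i))
    (h : ∑ i, tcl (a i).1 (a i).2 = 0) : HasPair ζ a := by
  rcases isEmpty_or_nonempty ι with hι | hι
  · have h0 : a = 0 := Subsingleton.elim _ _
    subst h0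
    refine ⟨cy m (Fer m K ι) 0, cy_Fer_mem 0, cy m (Fer m K ι) 0, ?_, ?_⟩
    · rw [neg_zero]
      exact cy_Fer_mem 0
    · rw [prg_apply, tr_empty, chi_box (NeZero.ne m), chi_one (NeZero.ne m), one_mul]
      exact one_ne_zero
  · obtain ⟨w, J, J', hJ, hF, hJ', hF', hT, hS⟩ :=
      an_main_cls (b := -a) (fun i => (ha i).neg) (tqAn_neg h)
    have : NeZero (m : ℂ) := ⟨Nat.cast_ne_zero.2 (NeZero.ne m)⟩
    obtain ⟨J₁, J₁', -, -, -, -, h⟩ := spec_main w ζ hJ hF hJ' hF'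
    refine ⟨_, pr_mem a (cy m J₁ 0), _, pr_mem (-a) (cy m J₁' 0), ?_⟩
    have hfer : ∀ (g : ι → Ch m) {I : Ideal (S ℂ ι)}, Fer m ℂ ι ≤ I →
        Fer m ℂ ι ≤ I.map (sc (c3 w (up g))) := by
      intro g I hI
      rw [Fer, Ideal.span_le]
      rintro _ ⟨i, rfl⟩
      rw [← sc_fer (c3_pow w (up g)) i]
      exact Ideal.mem_map_of_mem _ (hI (fer_mem i))
    have hc : (Fintype.card (ι → Ch m) : ℂ)⁻¹ ≠ 0 :=
      inv_ne_zero (Nat.cast_ne_zero.2 Fintype.card_ne_zero)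
    rw [h, prg_pr]
    refine mul_ne_zero (mul_ne_zero hc hc) ?_
    rw [neg_neg] at hS
    convert hS using 4 with g _ g' _
    rw [tw_neg_cy w g hJ hF, tw_neg_cy w g' hJ' hF']
    exact prg_transv (hJ.map_sc _) (hfer g hF) (hJ'.map_sc _) (hfer g' hF') (hT g g')

end Pool.Agent.Tate
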