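import Pool.Agent.P.MP_2ce3e7_ag.Desc

/-! Moves that preserve the existence of cycles. -/

set_option autoImplicit false

noncomputable section

namespace Pool.Agent.Tate

variable {m : ℕ} [NeZero m] {k ι κ : Type} [Field k] [NeZero (m : k)] [Fintype ι] [DecidableEq ι]
  [Fintype κ] [DecidableEq κ] {ζ : Rt m k}

theorem UpMove_re (e : ι ≃ κ) {a : κ → Ch m} (h : HasPair ζ (a ∘ e)) : HasPair ζ a := by
  obtain ⟨x, hx, y, hy, hxy⟩ := h
  exact ⟨reG e x, (reG_Ga e).2 hx, reG e y, (reG_Ga e).2 hy, by rwa [prg_reG]⟩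

theorem HasPair.reindex (e : ι ≃ κ) {a : κ → Ch m} : HasPair ζ (a ∘ e) ↔ HasPair ζ a := by
  refine ⟨UpMove_re e, fun h => UpMove_re e.symm ?_⟩
  have : (a ∘ e) ∘ e.symm = a := by
    funext i
    simp
  rwa [this]

theorem UpMove_one {a : ι → Ch m} {b : (Unit ⊕ Unit) ⊕ ι → Ch m}
    (hc : Nd (b (Sum.inl (Sum.inl ()))))
    (hb : b (Sum.inl (Sum.inr ())) = -b (Sum.inl (Sum.inl ()))) (ha : b ∘ Sum.inr = a)
    (h : HasPair ζ b) : HasPair ζ a := by
  obtain ⟨x, hx, y, hy, hxy⟩ := h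
  have hx2 := mem_Ga.1 hx (Sum.inl (Sum.inr ()))
  have hy2 := mem_Ga.1 hy (Sum.inl (Sum.inr ()))
  rw [hb] at hx2
  rw [Pi.neg_apply, hb] at hy2
  obtain ⟨x', rfl⟩ := nd_part hc (mem_Ga.1 hx (Sum.inl (Sum.inl ()))) hx2
  obtain ⟨y', rfl⟩ := nd_part hc.neg (mem_Ga.1 hy (Sum.inl (Sum.inl ()))) hy2
  rw [← pr_of_mem hx, ← pr_of_mem hy, pr_box, pr_box, prg_box] at hxy
  subst ha
  exact ⟨_, pr_mem _ _, _, pr_mem _ _, right_ne_zero_of_mul hxy⟩

/-- the statement of the cancellation for one index type -/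
def UpMoveCan (ζ : Rt m k) (a : ι → Ch m) (κ : Type) [Fintype κ] : Prop :=
  ∀ c : κ → Ch m, (∀ j, Nd (c j)) → HasPair ζ (Sum.elim a (Sum.elim c (-c))) → HasPair ζ a

theorem UpMove_equiv {μ : Type} [Fintype μ] [DecidableEq μ] {a : ι → Ch m} (e : μ ≃ κ)
    (h : UpMoveCan ζ a μ) : UpMoveCan ζ a κ := by
  intro c hc hP
  refine h (c ∘ e) (fun j => hc _) ?_
  have h1 := (HasPair.reindex ((Equiv.refl ι).sumCongr (e.sumCongr e))).2 hP
  have h2 : Sum.elim a (Sum.elim c (-c)) ∘ (Equiv.refl ι).sumCongr (e.sumCongr e) =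
      Sum.elim a (Sum.elim (c ∘ e) (-(c ∘ e))) := by
    funext i
    rcases i with i | i | i <;> rfl
  rwa [h2] at h1

theorem UpMove_empty [IsEmpty κ] {a : ι → Ch m} : UpMoveCan ζ a κ := by
  intro c _ hP
  have h1 := (HasPair.reindex (Equiv.sumEmpty ι (κ ⊕ κ)).symm).2 hP
  have h2 : Sum.elim a (Sum.elim c (-c)) ∘ (Equiv.sumEmpty ι (κ ⊕ κ)).symm = a := by
    funext i
    rfl
  rwa [h2] at h1

/-- one pair of indices is moved to the front -/
def UpMoveE (ι κ : Type) : (Unit ⊕ Unit) ⊕ ι ⊕ κ ⊕ κ ≃ ι ⊕ (Unit ⊕ κ) ⊕ Unit ⊕ κ where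
  toFun := Sum.elim (Sum.elim (fun u => Sum.inr (Sum.inl (Sum.inl u)))
    fun u => Sum.inr (Sum.inr (Sum.inl u))) (Sum.map id (Sum.map Sum.inr Sum.inr))
  invFun := Sum.elim (fun i => Sum.inr (Sum.inl i)) (Sum.elim
    (Sum.elim (fun u => Sum.inl (Sum.inl u)) fun j => Sum.inr (Sum.inr (Sum.inl j)))
    (Sum.elim (fun u => Sum.inl (Sum.inr u)) fun j => Sum.inr (Sum.inr (Sum.inr j))))
  left_inv := by rintro ((u | u) | i | j | j) <;> rfl
  right_inv := by rintro (i | (u | j) | u | j) <;> rfl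

theorem UpMove_step {a : ι → Ch m} (h : UpMoveCan ζ a κ) : UpMoveCan ζ a (Unit ⊕ κ) := by
  intro c hc hP
  refine h (c ∘ Sum.inr) (fun j => hc _)
    (UpMove_one (hc (Sum.inl ())) rfl ?_ ((HasPair.reindex (UpMoveE ι κ)).2 hP))
  funext i
  rcases i with i | i | i <;> rfl

theorem UpMove_fin {a : ι → Ch m} (n : ℕ) : UpMoveCan ζ a (Fin n) := by
  induction n with
  | zero => exact UpMove_empty
  | succ n ih =>
    exact UpMove_equiv (Fintype.equivOfCardEq (by simp [add_comm])) (UpMove_step ih)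

/-- cancellation of pairs of opposite characters -/
theorem HasPair.cancel {a : ι → Ch m} {c : κ → Ch m} (hc : ∀ j, Nd (c j))
    (h : HasPair ζ (Sum.elim a (Sum.elim c (-c)))) : HasPair ζ a :=
  UpMove_equiv (Fintype.equivFin κ).symm (UpMove_fin _) c hc h

omit [NeZero m] in
theorem UpMove_nd {c : Ch m} (hc : Nd c) {u : ZMod m} (hu : IsUnit u) : Nd (u • c) := by
  refine ⟨fun h => hc.1 (hu.mul_right_eq_zero.1 h), fun h => hc.2.1 (hu.mul_right_eq_zero.1 h),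
    fun h => hc.2.2 (hu.mul_right_eq_zero.1 ?_)⟩
  rw [mul_add]
  exact h

omit [NeZero (m : k)] [DecidableEq ι] in
theorem UpMove_fr (p : ℕ) [Fact p.Prime] [CharP k p] (hp : IsUnit (p : ZMod m)) (s : ι → ℕ)
    {a : ι → Ch m} {x : G m k ι} (hx : x ∈ Ga ζ fun i => (p : ZMod m) ^ s i • a i) :
    fr p s x ∈ Ga ζ a := by
  intro g
  choose u hu using fun i => (hp.pow (s i)).exists_right_inv
  have h1 : up g = fun i j => (p : ZMod m) ^ s i * up (fun i => u i • g i) i j := by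
    funext i j
    fin_cases j
    · simp [up, ← mul_assoc, hu]
    · simp [up, ← mul_assoc, hu]
    · simp [up]
  have h2 := hx fun i => u i • g i
  have h3 : ch (fun i => (p : ZMod m) ^ s i • a i) (fun i => u i • g i) = ch a g := by
    refine Finset.prod_congr rfl fun i _ => ?_
    unfold ch1
    congr 1
    simp only [Prod.smul_fst, Prod.smul_snd, smul_eq_mul]
    linear_combination ((a i).1 * (g i).1 + (a i).2 * (g i).2) * hu i
  rw [h3] at h2
  unfold tw at h2 ⊢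
  rw [h1, tw3_fr', h2, map_smul]

/-- Frobenius maps of the factors -/
theorem HasPair.frob [Fintype k] (p : ℕ) [Fact p.Prime] [CharP k p] (s : ι → ℕ) {a : ι → Ch m}
    (ha : ∀ i, Nd (a i)) (h : HasPair ζ fun i => (p : ZMod m) ^ s i • a i) : HasPair ζ a := by
  obtain ⟨x, hx, y, hy, hxy⟩ := h
  obtain ⟨e, -, he⟩ := FiniteField.card k p
  have hp : IsUnit (p : ZMod m) :=
    IsUnit.of_pow_eq_one (rt_pow ζ p (RingHom.id k) rfl he) e.ne_zero
  have hy' : y ∈ Ga ζ fun i => (p : ZMod m) ^ s i • (-a) i := by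
    have : (fun i => (p : ZMod m) ^ s i • (-a) i) = -fun i => (p : ZMod m) ^ s i • a i := by
      funext i
      simp
    rwa [this]
  have h1 := UpMove_fr p hp s hx
  have h2 := UpMove_fr p hp s hy'
  refine ⟨_, h1, _, h2, fun h0 => hxy ?_⟩
  have h3 : fr p (Sum.elim s s) (boxG x y) = 0 := by
    rw [fr_box]
    exact tr_inj p ha (box_mem_Ga h1 h2) h0
  set b : ι → Ch m := fun i => (p : ZMod m) ^ s i • a i with hb
  have hb' : ∀ i, Nd (Sum.elim b (-b) i) := by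
    rintro (i | i)
    · exact UpMove_nd (ha i) (hp.pow _)
    · exact (UpMove_nd (ha i) (hp.pow _)).neg
  have h4 := fr_Ga p (RingHom.id k) (z := ζ.1) rfl he hb' (box_mem_Ga hx hy) (∑ i, s i)
  have h5 : (fun _ => (e : ℕ) * ∑ i, s i : ι ⊕ ι → ℕ) =
      (fun l => (e : ℕ) * ∑ i, s i - Sum.elim s s l) + Sum.elim s s := by
    funext l
    have h6 : Sum.elim s s l ≤ ∑ i, s i := by
      rcases l with l | l <;>
        exact Finset.single_le_sum (f := s) (fun _ _ => Nat.zero_le _) (Finset.mem_univ l)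
    rw [Pi.add_apply, Nat.sub_add_cancel (h6.trans (Nat.le_mul_of_pos_left _ e.pos))]
  rw [h5, fr_add, Module.End.mul_apply, h3, map_zero] at h4
  have h7 : (∏ i, -Jac ζ.1 (Sum.elim b (-b) i)) ^ (∑ i, s i) ≠ 0 := by
    refine pow_ne_zero _ (Finset.prod_ne_zero_iff.2 fun i _ => neg_ne_zero.2 fun h8 => ?_)
    have h9 := Jac_mul ζ.2 (hb' i)
    rw [h8, zero_mul] at h9
    exact Nat.cast_ne_zero.2 Fintype.card_ne_zero h9.symm
  rw [prg_apply, (smul_eq_zero.1 h4.symm).resolve_left h7, map_zero]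

omit [NeZero (m : k)] in
/-- cycles are defined over a finite extension -/
theorem HasPair.finite {K : Type} [Field K] [Algebra k K] [Algebra.IsAlgebraic k K]
    [NeZero (m : K)] {ζ' : Rt m K} (h' : ζ'.1 = algebraMap k K ζ.1) {a : ι → Ch m}
    (h : HasPair ζ' a) : ∃ (k' : IntermediateField k K) (_ : FiniteDimensional k k')
      (_ : NeZero (m : k')) (ζ₀ : Rt m k'), ζ₀.1 = algebraMap k k' ζ.1 ∧ HasPair ζ₀ a := by
  obtain ⟨J, J', n, n', h1, h2, h3, h4, h5⟩ := h.cyc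
  obtain ⟨k', hfd, J₀, J₀', a1, a2, a3, a4, rfl, rfl⟩ := exists_finite_field (k := k) h1 h2 h3 h4
  obtain ⟨ζ₀, hζ₀⟩ := exists_rt (algebraMap k k') ζ.2
  have hm : NeZero (m : k') := ⟨ζ₀.ne⟩
  have hz : ζ'.1 = algebraMap k' K ζ₀.1 := by
    rw [h', hζ₀, ← IsScalarTower.algebraMap_apply]
  rw [← bcG_cy a1 a2, ← bcG_cy a3 a4, ← bcG_pr hz, ← bcG_pr hz, prg_bcG] at h5
  exact ⟨k', hfd, hm, ζ₀, hζ₀, _, pr_mem _ _, _, pr_mem _ _, h5⟩

end Pool.Agent.Tate
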