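import Pool.Agent.P.MP_2ce3e7_ag.SsLink
import Pool.Agent.P.MP_2ce3e7_ag.TQXE
import Pool.Agent.P.MP_2ce3e7_ag.TQAn
import Pool.Agent.P.MP_2ce3e7_ag.UpMove

/-! The geometric system modulo linked classes. -/

set_option autoImplicit false
set_option linter.unusedSectionVars false

noncomputable section

namespace Pool.Agent.Tate

open Pool.Agent.Ferm

section Moves
variable {m : ℕ} [NeZero m] {k ι κ : Type} [Field k] [NeZero (m : k)] [Fintype ι] [DecidableEq ι]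
  [Fintype κ] [DecidableEq κ] {ζ : Rt m k}

theorem HasPair.neg {a : ι → Ch m} (h : HasPair ζ a) : HasPair ζ (-a) := by
  obtain ⟨x, hx, y, hy, hxy⟩ := h
  exact ⟨y, hy, x, by rwa [neg_neg], by rwa [prg_comm]⟩

theorem HasPair.box {a : ι → Ch m} {b : κ → Ch m} (h : HasPair ζ a) (h' : HasPair ζ b) :
    HasPair ζ (Sum.elim a b) := by
  obtain ⟨x, hx, y, hy, hxy⟩ := h
  obtain ⟨x', hx', y', hy', hxy'⟩ := h'
  exact ⟨boxG x x', box_mem_Ga hx hx', boxG y y', box_mem_Ga (a := -Sum.elim a b) hy hy', by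
    rw [prg_box]
    exact mul_ne_zero hxy hxy'⟩

theorem HasPair.bc {K : Type} [Field K] [Algebra k K] [NeZero (m : K)] {ζ' : Rt m K}
    (h' : ζ'.1 = algebraMap k K ζ.1) {a : ι → Ch m} (h : HasPair ζ a) : HasPair ζ' a := by
  obtain ⟨x, hx, y, hy, hxy⟩ := h
  rw [← pr_of_mem hx, ← pr_of_mem hy, ← prg_bcG (k' := K), bcG_pr h', bcG_pr h'] at hxy
  exact ⟨_, pr_mem _ _, _, pr_mem _ _, hxy⟩

end Moves

variable {p L : ℕ} [NeZero L]

theorem geo_sys_of {R : AddSubgroup (EG (8 * L))} (hR : RE p L ≤ R) :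
    ∃ (Y : Type) (_ : AddCommGroup Y) (g : ZMod L → Y), Sys p L g ∧
      ∀ (ι : Type) [Fintype ι] (b : ι → ZMod L),
        ∑ i, g (b i) = 0 ↔ ∑ i, Ferm.phi (lv (8 * L) (b i)) ∈ R := by
  classical
  have h8 : L ∣ 8 * L := dvd_mul_left L 8
  let Φ : (ZMod L → ℤ) →+ EG (8 * L) :=
    (Fintype.linearCombination ℤ fun b : ZMod L => Ferm.phi (lv (8 * L) b)).toAddMonoidHom
  have hΦ : ∀ b, Φ (Pi.single b 1) = Ferm.phi (lv (8 * L) b) := fun b => by
    simp [Φ]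
  let π := QuotientAddGroup.mk' (R.comap Φ)
  have hπ : ∀ η, π η = 0 ↔ Φ η ∈ R := fun η => QuotientAddGroup.eq_zero_iff η
  have hs : ∀ (ι : Type) [Fintype ι] (b : ι → ZMod L), ∑ i, π (Pi.single (b i) 1) = 0 ↔
      ∑ i, Ferm.phi (lv (8 * L) (b i)) ∈ R := fun ι _ b => by
    rw [← map_sum, hπ, map_sum]
    simp only [hΦ]
  refine ⟨_, inferInstance, fun b => π (Pi.single b 1), ⟨⟨fun b => ?_, fun d hd hdL b => ?_⟩,
    fun y => ?_, fun ι _ b hb h => (hs ι b).2 (hR (geo_kb hb h))⟩, hs⟩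
  · rw [eq_neg_iff_add_eq_zero, ← map_add, hπ, map_add, hΦ, hΦ, lv_neg h8, phi_neg,
      neg_add_cancel]
    exact zero_mem _
  · rw [← sub_eq_zero, ← map_sum, ← map_sub, hπ, map_sub, map_sum]
    simp only [hΦ]
    exact hR (geo_dist hd hdL b)
  · rw [eq_comm, ← sub_eq_zero, ← map_sub, hπ, map_sub, hΦ, hΦ]
    exact hR (AddSubgroup.subset_closure (Set.mem_insert_of_mem _ ⟨y, rfl⟩))

theorem RE_pow (ν : ℕ) (b : ZMod L) :
    Ferm.phi (lv (8 * L) b) - Ferm.phi (lv (8 * L) ((p : ZMod L) ^ ν * b)) ∈ RE p L := by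
  induction ν with
  | zero =>
    rw [pow_zero, one_mul, sub_self]
    exact zero_mem _
  | succ ν ih =>
    have h : _ ∈ RE p L :=
      AddSubgroup.subset_closure (Set.mem_insert_of_mem _ ⟨(p : ZMod L) ^ ν * b, rfl⟩)
    have := add_mem ih h
    rwa [sub_add_sub_cancel, ← mul_assoc, ← pow_succ'] at this

variable {K : Type} [Field K] [IsAlgClosed K] [NeZero (L : K)]

/-- classes of families of even length that carry a pair -/
def Lk (ω : Rt L K) : AddSubgroup Acl where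
  carrier := {y | ∃ (κ : Type) (_ : Fintype κ) (_ : DecidableEq κ) (c : κ → Ch L),
    (∀ j, Nd (c j)) ∧ HasPair ω c ∧ Even (Fintype.card κ) ∧ y = ∑ j, tcl (c j).1 (c j).2}
  zero_mem' := ⟨Empty, inferInstance, inferInstance, fun j => j.elim, fun j => j.elim,
    hasPair_of_cls ω (fun j => j.elim) (by simp), by simp, by simp⟩
  add_mem' := by
    rintro _ _ ⟨κ, _, _, c, h1, h2, h3, rfl⟩ ⟨κ', _, _, c', h1', h2', h3', rfl⟩
    refine ⟨κ ⊕ κ', inferInstance, inferInstance, Sum.elim c c', ?_, h2.box h2', ?_, ?_⟩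
    · rintro (j | j)
      exacts [h1 j, h1' j]
    · rw [Fintype.card_sum]
      exact h3.add h3'
    · rw [Fintype.sum_sum_type]
      rfl
  neg_mem' := by
    rintro _ ⟨κ, _, _, c, h1, h2, h3, rfl⟩
    refine ⟨κ, inferInstance, inferInstance, -c, fun j => (h1 j).neg, h2.neg, h3, ?_⟩
    simp only [Pi.neg_apply, Prod.fst_neg, Prod.snd_neg, tcl_neg, Finset.sum_neg_distrib]

theorem Lk_even {ω : Rt L K} {y : Acl} (h : y ∈ Lk ω) : Even (deg y) := by
  obtain ⟨κ, _, _, c, h1, -, h3, rfl⟩ := h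
  exact (even_deg h1).2 h3

theorem hasPair_of_Lk {ω : Rt L K} {ι : Type} [Fintype ι] [DecidableEq ι] {b : ι → Ch L}
    (hb : ∀ i, Nd (b i)) (h : ∑ i, tcl (b i).1 (b i).2 ∈ Lk ω) : HasPair ω b := by
  obtain ⟨κ, _, _, c, h1, h2, -, e⟩ := h
  have h3 : HasPair ω (Sum.elim b (-c)) := hasPair_of_cls ω (by
    rintro (i | j)
    exacts [hb i, (h1 j).neg]) (by
    simp only [Fintype.sum_sum_type, Sum.elim_inl, Sum.elim_inr, Pi.neg_apply, Prod.fst_neg,
      Prod.snd_neg, tcl_neg, Finset.sum_neg_distrib, e, add_neg_cancel])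
  refine HasPair.cancel (c := -c) (fun j => (h1 j).neg)
    ((HasPair.reindex (Equiv.sumAssoc ι κ κ)).1 ?_)
  convert h3.box h2 using 1
  funext i
  rcases i with (i | i) | i
  exacts [rfl, rfl, neg_neg _]

theorem phi_ss [Fact p.Prime] (h2 : p ≠ 2) {k : Type} [Field k] [Fintype k] [CharP k p]
    [Algebra k K] (ζ : Rt L k) {ω : Rt L K} (hω : ω.1 = algebraMap k K ζ.1) {ν : ℕ}
    (hd : (p ^ ν + 1) * (p ^ ν - 1) ∣ L) {c : ZMod L} (hc : ((p : ZMod L) ^ ν + 1) * c = 0) :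
    Ferm.phi (lv (8 * L) c) ∈ RE p L ⊔ (Lk ω).map (io (8 * L)) := by
  have hp : p.Prime := Fact.out
  have : NeZero (L : k) := ⟨ζ.ne⟩
  have h8 : L ∣ 8 * L := dvd_mul_left L 8
  obtain ⟨r, hr⟩ : ∃ r, p ^ ν = r + 1 := ⟨p ^ ν - 1, (Nat.sub_add_cancel (pow_pos hp.pos ν)).symm⟩
  obtain ⟨e, he⟩ := hd
  obtain ⟨m, hm⟩ : ∃ m, m = r + 2 := ⟨_, rfl⟩
  have hL : L = m * (e * r) := by
    rw [he, hr, hm, Nat.add_sub_cancel]
    ring
  have hmL : m ∣ L := ⟨_, hL⟩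
  have := upDefs_ne hmL
  obtain ⟨c', rfl⟩ := exists_lv hmL (x := c) (by
    rw [hm, show r + 2 = r + 1 + 1 from rfl, ← hr]
    push_cast
    exact hc)
  obtain ⟨s, hs⟩ : 2 ∣ m := by
    have := (hp.odd_of_ne_two h2).pow (n := ν)
    rw [hr, Nat.odd_iff] at this
    omega
  have h0 : lv (8 * L) (lv L (s : ZMod m)) = Ferm.fr (8 * L) 2 1 := by
    rw [lv_lv h8 hmL, lv_natCast (hmL.trans h8), Ferm.fr]
    congr 1
    obtain ⟨t, ht⟩ := hmL.trans h8
    rw [ht, Nat.mul_div_cancel_left _ (NeZero.pos m), hs, mul_assoc,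
      Nat.mul_div_cancel_left _ two_pos]
    ring
  have hw : Ferm.phi (lv (8 * L) (lv L (s : ZMod m))) ∈ RE p L := by
    rw [h0]
    exact AddSubgroup.subset_closure (Set.mem_insert _ _)
  by_cases h1 : c' = 0
  · rw [h1, (lv_eq_zero hmL).2 rfl, (lv_eq_zero h8).2 rfl]
    exact zero_mem _
  by_cases h3 : c' + s = 0
  · rw [eq_neg_of_add_eq_zero_left h3, lv_neg hmL, lv_neg h8, phi_neg]
    exact AddSubgroup.mem_sup_left (neg_mem hw)
  have ha : Nd ((c', (s : ZMod m)) : Ch m) := ⟨h1, fun h => (EGroupX.half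
    ((by norm_num : 4 ∣ 8).mul_right L)).1 (by
      rw [← h0, lv_eq_zero h8, lv_eq_zero hmL]
      exact h), h3⟩
  obtain ⟨b, b1, b2, b3, b4⟩ := ss_link p h2 hr hm hL ζ ha
  have hy : tcl (lv L c') (lv L (s : ZMod m)) + tcl (-b).1 (-b).2 ∈ Lk ω :=
    ⟨Unit ⊕ Unit, inferInstance, inferInstance, _, by
      rintro (i | i)
      exacts [(nd_lf hmL).2 ha, b1.neg], b4.bc hω, by simp, by
      rw [Fintype.sum_sum_type, Fintype.sum_unique, Fintype.sum_unique]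
      rfl⟩
  have e1 := io_tcl_lv (lf L ((c', (s : ZMod m)) : Ch m))
  have e2 := io_tcl_lv (-b)
  have e3 : -(-b.1) - -b.2 = -(-lv L c' - lv L (s : ZMod m)) := by
    change b.1 + b.2 = lv L c' + lv L (s : ZMod m) at b3
    linear_combination b3
  simp only [ex3, lf, Fin.sum_univ_three, Matrix.cons_val_zero, Matrix.cons_val_one,
    Matrix.cons_val_two, Matrix.head_cons, Matrix.tail_cons, Prod.fst_neg, Prod.snd_neg] at e1 e2
  rw [e3, b2, neg_neg, lv_neg h8, lv_neg h8, phi_neg, phi_neg] at e2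
  have h4 := add_mem (add_mem (AddSubgroup.mem_sup_right (S := RE p L)
    (AddSubgroup.mem_map_of_mem (io (8 * L)) hy)) (AddSubgroup.mem_sup_left (neg_mem hw)))
    (AddSubgroup.mem_sup_left (RE_pow (p := p) ν b.1))
  rw [map_add, e1, Prod.fst_neg, Prod.snd_neg, b2, neg_neg, e2] at h4
  convert h4 using 1
  abel

end Pool.Agent.Tate
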