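import Pool.Agent.P.MP_2ce3e7_ag.TQOrd

/-! Units of odd order. -/

set_option autoImplicit false
set_option linter.unusedSectionVars false

noncomputable section

namespace Pool.Agent.Tate

open Pool.Agent.P.MP_e12fcd_ag.Fermat (bern tors mem_tors card_tors sum_tors_unit sum_tors_shift)

variable {M : ℕ} [NeZero M]

theorem tqOdd_pow {G : Type} [Group G] [Finite G] (u : G) {n : ℕ} (hn : Odd n) :
    ∃ k : ℕ, Odd (orderOf (u ^ k)) ∧ k ≡ 1 [MOD n] := by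
  obtain ⟨a, m, hm, e⟩ := Nat.exists_eq_two_pow_mul_odd (orderOf_pos u).ne'
  refine ⟨(2 ^ a) ^ n.totient, hm.of_dvd_nat (orderOf_dvd_of_pow_eq_one ?_),
    Nat.ModEq.pow_totient (Nat.Coprime.pow_left a (Nat.coprime_two_left.2 hn))⟩
  rw [← pow_mul, ← orderOf_dvd_iff_pow_eq_one, e]
  exact Nat.mul_dvd_mul_right (dvd_pow_self _ (Nat.totient_pos.2 hn.pos).ne') m

theorem tqOdd_mul {s t : (ZMod M)ˣ} (hs : Odd (orderOf s)) (ht : Odd (orderOf t)) :
    Odd (orderOf (s * t)) :=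
  (hs.mul ht).of_dvd_nat (Commute.all s t).orderOf_mul_dvd_mul_orderOf

theorem tqOdd_exp (x : ℤ) (d : ℕ) : d ≠ 0 → (∀ q : ℕ, q.Prime → q ∣ d → q ≠ 2 →
      q % 4 = 3 ∧ IsSquare (x : ZMod q) ∧ (x : ZMod q) ≠ 0) →
    (∀ k : ℕ, 2 ^ k ∣ d → x ≡ 1 [ZMOD 2 ^ k]) → ∃ n : ℕ, Odd n ∧ x ^ n ≡ 1 [ZMOD d] := by
  induction d using Nat.recOnPosPrimePosCoprime with
  | prime_pow q k hq hk =>
    intro _ hx h2
    by_cases e : q = 2
    · subst e
      exact ⟨1, odd_one, by simpa using h2 k dvd_rfl⟩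
    · obtain ⟨a1, a2, a3⟩ := hx q hq (dvd_pow_self q hk.ne') e
      have := Fact.mk hq
      have a4 : (q : ℤ) ∣ x ^ (q / 2) - 1 := by
        rw [← ZMod.intCast_zmod_eq_zero_iff_dvd]
        push_cast
        rw [(ZMod.euler_criterion q a3).1 a2, sub_self]
      have a5 := dvd_sub_pow_of_dvd_sub a4 k
      refine ⟨q / 2 * q ^ k, (Nat.odd_iff.2 (by omega)).mul (hq.odd_of_ne_two e).pow, ?_⟩
      rw [one_pow, ← pow_mul] at a5
      refine (Int.modEq_iff_dvd.2 ?_).symm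
      push_cast
      exact (pow_dvd_pow _ k.le_succ).trans a5
  | zero => exact fun h => absurd rfl h
  | one => exact fun _ _ _ => ⟨1, odd_one, by simp [Int.modEq_one]⟩
  | coprime a b ha hb hab iha ihb =>
    intro _ hx h2
    obtain ⟨n, n1, n2⟩ := iha (by omega) (fun q hq h => hx q hq (h.mul_right b))
      fun k h => h2 k (h.mul_right b)
    obtain ⟨m, m1, m2⟩ := ihb (by omega) (fun q hq h => hx q hq (h.mul_left a))
      fun k h => h2 k (h.mul_left a)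
    refine ⟨n * m, n1.mul m1, ?_⟩
    rw [Nat.cast_mul, ← Int.modEq_and_modEq_iff_modEq_mul (by simpa using hab)]
    exact ⟨by simpa [pow_mul] using n2.pow m, by simpa [pow_mul'] using m2.pow n⟩

theorem tqOdd_lift {N : ℕ} (h : N ∣ M) {s : (ZMod N)ˣ} (hs : Odd (orderOf s)) :
    ∃ t : (ZMod M)ˣ, Odd (orderOf t) ∧ ZMod.unitsMap h t = s := by
  obtain ⟨u, rfl⟩ := ZMod.unitsMap_surjective h s
  obtain ⟨k, k1, k2⟩ := tqOdd_pow u hs
  exact ⟨u ^ k, k1, by rw [map_pow, ← pow_one (ZMod.unitsMap h u), ← pow_mul, one_mul,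
    pow_eq_pow_iff_modEq]; exact k2⟩

theorem tqOdd_val {N : ℕ} (h : N ∣ M) (t : (ZMod M)ˣ) :
    ZMod.castHom h (ZMod N) (t : ZMod M) = (ZMod.unitsMap h t : ZMod N) := rfl

theorem tqOdd_unit (x : ℤ) {d : ℕ} (hd : d ∣ M)
    (hx : ∀ q : ℕ, q.Prime → q ∣ d → q ≠ 2 →
      q % 4 = 3 ∧ IsSquare (x : ZMod q) ∧ (x : ZMod q) ≠ 0)
    (h2 : ∀ k : ℕ, 2 ^ k ∣ d → x ≡ 1 [ZMOD 2 ^ k]) :
    ∃ t : (ZMod M)ˣ, Odd (orderOf t) ∧
      ∀ b : ZMod M, (d : ZMod M) * b = 0 → (t : ZMod M) * b = (x : ZMod M) * b := by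
  obtain ⟨n, n1, n2⟩ := tqOdd_exp x d (ne_zero_of_dvd_ne_zero (NeZero.ne M) hd) hx h2
  have n3 : (x : ZMod d) ^ n = 1 := by
    simpa using (ZMod.intCast_eq_intCast_iff _ _ _).2 n2
  obtain ⟨t, t1, t2⟩ := tqOdd_lift hd (s := Units.ofPowEqOne _ n n3 n1.pos.ne')
    (n1.of_dvd_nat (orderOf_dvd_of_pow_eq_one (Units.pow_ofPowEqOne n3 n1.pos.ne')))
  refine ⟨t, t1, fun b hb => mul_eq_of_cast hd ?_ hb⟩
  rw [tqOdd_val, t2, map_intCast, Units.val_ofPowEqOne]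

theorem tqOdd_dvd {a : ℕ} (ha : a ∣ M) {x : ZMod M} (h : ZMod.castHom ha (ZMod a) x = 0) :
    (a : ZMod M) ∣ x := by
  rw [← ZMod.natCast_zmod_val x, map_natCast, ZMod.natCast_eq_zero_iff] at h
  rw [← ZMod.natCast_zmod_val x]
  exact Nat.cast_dvd_cast h

theorem tqOdd_kill {q k c : ℕ} (hq : q.Prime) (hM : M = q ^ k * c) {b : ZMod M}
    (hb : ¬ q ∣ addOrderOf b) : (c : ZMod M) * b = 0 :=
  ord_dvd_iff.1 ((((Nat.Prime.coprime_iff_not_dvd hq).2 hb).symm.pow_right k).dvd_of_dvd_mul_left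
    (hM ▸ ord_dvd b))

theorem mem_Qo {t : (ZMod M)ˣ} : t ∈ Qo M ↔ Odd (orderOf t) := by
  simp [Qo]

theorem Qo_card : Odd (Qo M).card := by
  let H : Subgroup (ZMod M)ˣ :=
    { carrier := {t | Odd (orderOf t)}
      mul_mem' := tqOdd_mul
      one_mem' := by simp
      inv_mem' := fun h => by simpa using h }
  have e : Nat.card H = (Qo M).card := Nat.subtype_card (Qo M) fun _ => mem_Qo
  rw [← e, ← Nat.not_even_iff_odd, even_iff_two_dvd]
  intro h
  obtain ⟨x, hx⟩ := exists_prime_orderOf_dvd_card' 2 h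
  have h1 : Odd (orderOf (x : (ZMod M)ˣ)) := x.2
  rw [Subgroup.orderOf_coe, hx] at h1
  exact absurd h1 (by decide)

theorem sum_Qo_mul {t : (ZMod M)ˣ} (ht : Odd (orderOf t)) {Y : Type} [AddCommMonoid Y]
    (F : (ZMod M)ˣ → Y) : ∑ s ∈ Qo M, F (s * t) = ∑ s ∈ Qo M, F s := by
  refine Finset.sum_nbij' (fun s => s * t) (fun s => s * t⁻¹) (fun s hs => ?_) (fun s hs => ?_)
    (by simp) (by simp) fun _ _ => rfl
  · exact mem_Qo.2 (tqOdd_mul (mem_Qo.1 hs) ht)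
  · exact mem_Qo.2 (tqOdd_mul (mem_Qo.1 hs) (by simpa using ht))

theorem odd_unit (x : ℤ) {d e : ℕ} (hM : M = d * e) (hde : d.Coprime e)
    (hx : ∀ q : ℕ, q.Prime → q ∣ d → q ≠ 2 →
      q % 4 = 3 ∧ IsSquare (x : ZMod q) ∧ (x : ZMod q) ≠ 0)
    (h2 : ∀ k : ℕ, 2 ^ k ∣ d → x ≡ 1 [ZMOD 2 ^ k]) :
    ∃ t : (ZMod M)ˣ, Odd (orderOf t) ∧
      ∀ b : ZMod M, (d : ZMod M) * b = 0 → (t : ZMod M) * b = (x : ZMod M) * b := by
  exact tqOdd_unit x ⟨e, hM⟩ hx h2

theorem odd_unit_adm (x : ℤ) (hx : ∀ q : ℕ, q.Prime → q ∣ M → q % 4 = 3 →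
      IsSquare (x : ZMod q) ∧ (x : ZMod q) ≠ 0) :
    ∃ t : (ZMod M)ˣ, Odd (orderOf t) ∧ ∀ b : ZMod M, Odd (addOrderOf b) → Adm (addOrderOf b) →
      (t : ZMod M) * b = (x : ZMod M) * b := by
  classical
  let D := M.divisors.filter fun n => Odd n ∧ Adm n
  have hd : D.lcm id ∣ M :=
    Finset.lcm_dvd fun n hn => Nat.dvd_of_mem_divisors (Finset.mem_filter.1 hn).1
  have h4 : ∀ q : ℕ, q.Prime → q ∣ D.lcm id → q % 4 = 3 := by
    intro q hq h
    obtain ⟨n, n1, n2⟩ := hq.prime.exists_mem_finset_dvd (h.trans (Finset.lcm_dvd_prod D id))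
    obtain ⟨-, n3, n4⟩ := Finset.mem_filter.1 n1
    rcases n4 q hq n2 with rfl | e
    · exact absurd (n3.of_dvd_nat n2) (by decide)
    · exact e
  obtain ⟨t, t1, t2⟩ := tqOdd_unit x hd
    (fun q hq h _ => ⟨h4 q hq h, hx q hq (h.trans hd) (h4 q hq h)⟩) fun k hk => by
      rcases k.eq_zero_or_pos with rfl | h0
      · simp [Int.modEq_one]
      · exact absurd (h4 2 Nat.prime_two ((dvd_pow_self 2 h0.ne').trans hk)) (by decide)
  refine ⟨t, t1, fun b b1 b2 => t2 b (ord_dvd_iff.1 (Finset.dvd_lcm (f := id) ?_))⟩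
  exact Finset.mem_filter.2 ⟨Nat.mem_divisors.2 ⟨ord_dvd b, NeZero.ne M⟩, b1, b2⟩

theorem exists_odd_lift {N : ℕ} (h : N ∣ M) {s : (ZMod N)ˣ} (hs : Odd (orderOf s)) :
    ∃ t : (ZMod M)ˣ, Odd (orderOf t) ∧ ZMod.unitsMap h t = s := by
  exact tqOdd_lift h hs

theorem odd_shift {q : ℕ} (hq : q.Prime) (h2 : q ≠ 2) {b z : ZMod M}
    (h : q ∣ addOrderOf ((q : ZMod M) * b)) (hz : (q : ZMod M) * z = 0) :
    ∃ t : (ZMod M)ˣ, Odd (orderOf t) ∧ (t : ZMod M) * b = b + z := by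
  obtain ⟨u, hu⟩ := same_order (ord_add_tors hq h hz).symm
  have h1 : q ∣ addOrderOf b := h.trans (ord_dvd_iff.2 (by
    rw [mul_left_comm, ord_dvd_iff.1 dvd_rfl, mul_zero]))
  have h3 : addOrderOf b ∣ ((u : ZMod M) - 1).val * q := ord_dvd_iff.2 (by
    rw [Nat.cast_mul, ZMod.natCast_zmod_val]
    linear_combination (q : ZMod M) * hu + hz)
  rw [← ord_mul_of_dvd h1] at h3
  obtain ⟨w, hw⟩ := h.trans (Nat.dvd_of_mul_dvd_mul_right hq.pos h3)
  have h4 : (u : ZMod M) * z = z := by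
    have := congrArg (Nat.cast : ℕ → ZMod M) hw
    rw [Nat.cast_mul, ZMod.natCast_zmod_val] at this
    linear_combination z * this + (w : ZMod M) * hz
  have h5 : ∀ j : ℕ, (u : ZMod M) ^ j * b = b + j * z := by
    intro j
    induction j with
    | zero => simp
    | succ j ih =>
      push_cast
      linear_combination (u : ZMod M) * ih + hu + (j : ZMod M) * h4
  obtain ⟨k, k1, k2⟩ := tqOdd_pow u (hq.odd_of_ne_two h2)
  obtain ⟨c, hc⟩ := k2.dvd
  have h6 := congrArg (Int.cast : ℤ → ZMod M) hc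
  push_cast at h6
  refine ⟨u ^ k, k1, ?_⟩
  rw [Units.val_pow_eq_pow_val, h5]
  linear_combination -z * h6 - (c : ZMod M) * hz

/-- squares at one prime -/
theorem odd_unit_sq {q : ℕ} (hq : q.Prime) (h4 : q % 4 = 3) (hqM : q ∣ M) (s : (ZMod q)ˣ) :
    ∃ t : (ZMod M)ˣ, Odd (orderOf t) ∧
      (∀ b : ZMod M, ¬ q ∣ addOrderOf b → (t : ZMod M) * b = b) ∧
      ZMod.castHom hqM (ZMod q) (t : ZMod M) = (s : ZMod q) ^ 2 := by
  have := Fact.mk hq
  obtain ⟨k, c, hc, hM⟩ := Nat.exists_eq_pow_mul_and_not_dvd (NeZero.ne M) q hq.ne_one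
  have cop := (Nat.Prime.coprime_iff_not_dvd hq).2 hc
  have hcM : c ∣ M := ⟨q ^ k, hM.trans (mul_comm _ _)⟩
  have hN : q * c ∣ M := cop.mul_dvd_of_dvd_of_dvd hqM hcM
  have : NeZero (q * c) := ⟨ne_zero_of_dvd_ne_zero (NeZero.ne M) hN⟩
  obtain ⟨u, u1, u2⟩ := exists_unit_crt (M := q * c) (dvd_mul_right q c) (dvd_mul_left c q) rfl
    cop (s ^ 2) 1
  have u3 : u ^ (q / 2) = 1 := by
    refine Units.ext (sub_eq_zero.1 (eq_zero_of_cast (dvd_mul_right q c) (dvd_mul_left c q) rfl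
      cop ?_ ?_))
    · rw [map_sub, Units.val_pow_eq_pow_val, map_pow, u1, Units.val_one, map_one,
        ← Units.val_pow_eq_pow_val, ← pow_mul, show 2 * (q / 2) = q - 1 by omega,
        ZMod.units_pow_card_sub_one_eq_one, Units.val_one, sub_self]
    · rw [map_sub, Units.val_pow_eq_pow_val, map_pow, u2, Units.val_one, Units.val_one, map_one,
        one_pow, sub_self]
  obtain ⟨t, t1, t2⟩ := tqOdd_lift hN (s := u)
    ((Nat.odd_iff.2 (by omega)).of_dvd_nat (orderOf_dvd_of_pow_eq_one u3))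
  refine ⟨t, t1, fun b hb => ?_, ?_⟩
  · refine (mul_eq_of_cast hcM ?_ (tqOdd_kill hq hM hb)).trans (one_mul b)
    rw [← ZMod.castHom_comp (dvd_mul_left c q) hN, map_one, RingHom.comp_apply, tqOdd_val, t2, u2,
      Units.val_one]
  · rw [← ZMod.castHom_comp (dvd_mul_right q c) hN, RingHom.comp_apply, tqOdd_val, t2, u1,
      Units.val_pow_eq_pow_val]

/-- units are generated by the units that are one away from one prime -/
theorem unit_induction (C : (ZMod M)ˣ → Prop) (hmul : ∀ s t, C s → C t → C (s * t))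
    (hq : ∀ q : ℕ, q.Prime → q ∣ M → ∀ t : (ZMod M)ˣ,
      (∀ b : ZMod M, ¬ q ∣ addOrderOf b → (t : ZMod M) * b = b) → C t) (h1 : C 1)
    (t : (ZMod M)ˣ) : C t := by
  have key : ∀ d c : ℕ, M = d * c → d.Coprime c → ∀ t : (ZMod M)ˣ,
      (c : ZMod M) ∣ (t : ZMod M) - 1 → C t := by
    intro d
    induction d using Nat.recOnPosPrimePosCoprime with
    | prime_pow q k hp hk =>
      rintro c hM - t ⟨w, hw⟩
      refine hq q hp (hM ▸ (dvd_pow_self q hk.ne').mul_right c) t fun b hb => ?_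
      linear_combination b * hw + w * tqOdd_kill hp hM hb
    | zero => exact fun c hM => absurd (hM.trans (zero_mul c)) (NeZero.ne M)
    | one =>
      intro c hM _ t ht
      rw [one_mul] at hM
      rw [← hM, ZMod.natCast_self, zero_dvd_iff, sub_eq_zero, Units.val_eq_one] at ht
      exact ht ▸ h1
    | coprime a a' _ _ hab iha ihb =>
      intro c hM hc t ht
      have c1 : a.Coprime c := hc.coprime_mul_right
      have c2 : a'.Coprime c := hc.coprime_mul_left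
      have e1 : M = a * (a' * c) := hM.trans (mul_assoc _ _ _)
      have d1 : a ∣ M := ⟨_, e1⟩
      have d2 : a' * c ∣ M := ⟨a, e1.trans (mul_comm _ _)⟩
      obtain ⟨u, u1, u2⟩ := exists_unit_crt d1 d2 e1 (hab.mul_right c1) (ZMod.unitsMap d1 t) 1
      have u3 : (a : ZMod M) ∣ (t : ZMod M) - u :=
        tqOdd_dvd d1 (by rw [map_sub, u1, tqOdd_val, sub_self])
      have u4 : ((a' * c : ℕ) : ZMod M) ∣ (u : ZMod M) - 1 :=
        tqOdd_dvd d2 (by rw [map_sub, u2, map_one, Units.val_one, sub_self])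
      have u5 : (c : ZMod M) ∣ (t : ZMod M) - u := by
        have := dvd_sub ht ((Nat.cast_dvd_cast (dvd_mul_left c a')).trans u4)
        rwa [sub_sub_sub_cancel_right] at this
      have u6 : ((a * c : ℕ) : ZMod M) ∣ ((t * u⁻¹ : (ZMod M)ˣ) : ZMod M) - 1 := by
        rw [Nat.cast_mul, Units.val_mul, ← u.mul_inv, ← sub_mul]
        exact (c1.cast.mul_dvd u3 u5).mul_right _
      have := hmul _ _ (ihb (a * c) (by rw [hM]; ring) (hab.symm.mul_right c2) _ u6)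
        (iha (a' * c) e1 (hab.mul_right c1) u u4)
      rwa [inv_mul_cancel_right] at this
  exact key M 1 (mul_one M).symm (Nat.coprime_one_right M) t (by simp)

end Pool.Agent.Tate
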