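import Pool.Agent.P.MP_2ce3e7_ag.TQPrime
import Pool.Agent.P.MP_2ce3e7_ag.TQOdd

/-! The condition on the Jacobi symbols. -/

set_option autoImplicit false
set_option linter.unusedSectionVars false

noncomputable section

namespace Pool.Agent.Tate

theorem ssJac_neg (x : ℤ) {q : ℕ} (h4 : q % 4 = 3) : jacobiSym (-x) q = -jacobiSym x q := by
  rw [jacobiSym.neg x (Nat.odd_iff.2 (by omega)), ZMod.χ₄_nat_three_mod_four h4, neg_one_mul]

theorem ssJac_two3 {q : ℕ} (h : q % 8 = 3) : jacobiSym 2 q = -1 := by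
  rw [jacobiSym.at_two (Nat.odd_iff.2 (by omega)), ZMod.χ₈_nat_eq_if_mod_eight,
    if_neg (by omega), if_neg (by omega)]

theorem ssJac_two7 {q : ℕ} (h : q % 8 = 7) : jacobiSym 2 q = 1 := by
  rw [jacobiSym.at_two (Nat.odd_iff.2 (by omega)), ZMod.χ₈_nat_eq_if_mod_eight,
    if_neg (by omega), if_pos (Or.inr h)]

theorem ssJac_mod (a : ℕ) : a ≠ 0 → (∀ q : ℕ, q.Prime → q ∣ a → q % 8 = 3) →
    a % 8 = 1 ∨ a % 8 = 3 := by
  induction a using Nat.recOnMul with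
  | zero => intro h; exact absurd rfl h
  | one => intro _ _; exact Or.inl rfl
  | prime q hq => intro _ h; exact Or.inr (h q hq dvd_rfl)
  | mul a b iha ihb =>
    intro h0 h
    have h1 := iha (left_ne_zero_of_mul h0) fun q hq hd => h q hq (hd.mul_right b)
    have h2 := ihb (right_ne_zero_of_mul h0) fun q hq hd => h q hq (hd.mul_left a)
    rw [Nat.mul_mod]
    rcases h1 with h1 | h1 <;> rcases h2 with h2 | h2 <;> rw [h1, h2] <;> norm_num

theorem ssJac_three {p M a b c : ℕ}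
    (hJ : ∀ d : ℕ, d ∣ M → Squarefree d → d % 8 = 7 →
      jacobiSym p d = 1 ∨ ∀ q : ℕ, q.Prime → q ∣ d → jacobiSym p q = -1)
    (ha : a.Prime) (hb : b.Prime) (hc : c.Prime) (haM : a ∣ M) (hbM : b ∣ M) (hcM : c ∣ M)
    (sa : jacobiSym p a = -1) (sb : jacobiSym p b = 1) (sc : jacobiSym p c = 1) (hbc : b ≠ c)
    (h7 : a * b * c % 8 = 7) : False := by
  have hab : a ≠ b := by
    rintro rfl
    rw [sa] at sb
    omega
  have hac : a ≠ c := by
    rintro rfl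
    rw [sa] at sc
    omega
  have c1 : a.Coprime b := (Nat.coprime_primes ha hb).2 hab
  have c2 : a.Coprime c := (Nat.coprime_primes ha hc).2 hac
  have c3 : b.Coprime c := (Nat.coprime_primes hb hc).2 hbc
  have hs : Squarefree (a * b * c) := by
    rw [Nat.squarefree_mul (c2.mul_left c3), Nat.squarefree_mul c1]
    exact ⟨⟨ha.prime.squarefree, hb.prime.squarefree⟩, hc.prime.squarefree⟩
  rcases hJ (a * b * c) ((c2.mul_left c3).mul_dvd_of_dvd_of_dvd
    (c1.mul_dvd_of_dvd_of_dvd haM hbM) hcM) hs h7 with h | h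
  · rw [jacobiSym.mul_right' _ (mul_ne_zero ha.ne_zero hb.ne_zero) hc.ne_zero,
      jacobiSym.mul_right' _ ha.ne_zero hb.ne_zero, sa, sb, sc] at h
    omega
  · have := h c hc (dvd_mul_left _ _)
    rw [sc] at this
    omega

/-- a power of `p` is minus one modulo a product of primes at which `p` is not a square -/
theorem ss_of_jac {p d : ℕ} (hd : d ≠ 0)
    (h : ∀ q : ℕ, q.Prime → q ∣ d → q % 4 = 3 ∧ jacobiSym p q = -1) : ∃ ν : ℕ, d ∣ p ^ ν + 1 := by
  obtain ⟨n, hn, e⟩ := tqOdd_exp (-p) d hd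
    (fun q hq hqd _ => ⟨(h q hq hqd).1, tqPrime_sq hq (by
      rw [ssJac_neg _ (h q hq hqd).1, (h q hq hqd).2, neg_neg])⟩)
    (fun k hk => by
      rcases Nat.eq_zero_or_pos k with rfl | hk0
      · rw [pow_zero]
        exact Int.modEq_one
      · have := (h 2 Nat.prime_two ((dvd_pow_self 2 hk0.ne').trans hk)).1
        omega)
  refine ⟨n, ?_⟩
  rw [hn.neg_pow] at e
  have h2 := e.dvd
  rw [sub_neg_eq_add, add_comm] at h2
  exact_mod_cast h2

theorem jac_of_ss {p q ν : ℕ} (hq : q.Prime) (h4 : q % 4 = 3) (h : q ∣ p ^ ν + 1) :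
    jacobiSym p q = -1 := by
  have h1 : ((p : ℤ) ^ ν) % q = (-1) % q := by
    have h2 : (q : ℤ) ∣ (p : ℤ) ^ ν + 1 := by exact_mod_cast h
    have h3 : (p : ℤ) ^ ν ≡ -1 [ZMOD q] := (Int.modEq_iff_dvd.2 (by
      rw [sub_neg_eq_add]; exact h2)).symm
    exact h3
  have h2 := jacobiSym.mod_left' h1
  rw [jacobiSym.pow_left, ssJac_neg 1 h4, jacobiSym.one_left] at h2
  rcases jacobiSym.trichotomy (p : ℤ) q with h3 | h3 | h3
  · rw [h3] at h2
    rcases Nat.eq_zero_or_pos ν with rfl | hν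
    · rw [pow_zero] at h2
      omega
    · rw [zero_pow hν.ne'] at h2
      omega
  · rw [h3, one_pow] at h2
    omega
  · exact h3

theorem ss_cases {p M : ℕ} (hM : M ≠ 0) (hpM : p.Coprime M) (hA : Adm M)
    (hJ : ∀ d : ℕ, d ∣ M → Squarefree d → d % 8 = 7 →
      jacobiSym p d = 1 ∨ ∀ q : ℕ, q.Prime → q ∣ d → jacobiSym p q = -1) :
    (∀ d : ℕ, d ∣ M → d % 8 = 7 → jacobiSym p d = 1) ∨
    ∀ l : ℕ, l.Prime → l ∣ M → l % 4 = 3 → jacobiSym p l = 1 →
      ∃ x : ℤ, (x = -p ∨ x = 2 ∨ x = -2 * p) ∧ ¬ IsSquare (x : ZMod l) ∧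
        ∀ q : ℕ, q.Prime → q ∣ M → q % 4 = 3 → q ≠ l →
          IsSquare (x : ZMod q) ∧ (x : ZMod q) ≠ 0 := by
  have hg : ∀ q : ℕ, q ∣ M → Int.gcd (p : ℤ) q = 1 := fun q hq => by
    rw [Int.gcd_natCast_natCast]
    exact hpM.coprime_dvd_right hq
  have hpm : ∀ q : ℕ, q ∣ M → jacobiSym p q = 1 ∨ jacobiSym p q = -1 := fun q hq =>
    jacobiSym.eq_one_or_neg_one (hg q hq)
  by_cases h7 : ∃ r : ℕ, r.Prime ∧ r ∣ M ∧ r % 8 = 7 ∧ jacobiSym p r = -1
  swap
  · refine Or.inl fun d hd hd7 => ?_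
    obtain ⟨a, b, e, ha⟩ := Nat.sq_mul_squarefree d
    have hd0 : d ≠ 0 := by omega
    have ha0 : a ≠ 0 := ha.ne_zero
    have hb0 : b ≠ 0 := by
      rintro rfl
      exact hd0 (by rw [← e]; simp)
    have haM : a ∣ M := (Dvd.intro_left _ e).trans hd
    have hbM : b ∣ M := ((dvd_pow_self b two_ne_zero).trans (Dvd.intro _ e)).trans hd
    have hbo : Odd b := by
      have h1 : Odd d := Nat.odd_iff.2 (by omega)
      rw [← e] at h1
      exact (Nat.odd_pow_iff two_ne_zero).1 (Nat.odd_mul.1 h1).1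
    have hb8 : b ^ 2 % 8 = 1 := by
      have h1 := Nat.eight_dvd_sq_sub_one_of_odd hbo
      have h2 : 1 ≤ b ^ 2 := Nat.one_le_pow _ _ hbo.pos
      omega
    have ha7 : a % 8 = 7 := by
      rw [← e, Nat.mul_mod, hb8, one_mul, Nat.mod_mod] at hd7
      exact hd7
    rw [← e, jacobiSym.mul_right' _ (pow_ne_zero 2 hb0) ha0, jacobiSym.pow_right,
      jacobiSym.sq_one (hg b hbM), one_mul]
    refine (hJ a haM ha ha7).resolve_right fun h => ?_
    have := ssJac_mod a ha0 fun q hq hqa => by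
      have h1 := hA q hq (hqa.trans haM)
      have h2 : q ≠ 2 := by
        rintro rfl
        omega
      by_contra h3
      exact h7 ⟨q, hq, hqa.trans haM, by omega, h q hq hqa⟩
    omega
  obtain ⟨r, hr, hrM, hr7, sr⟩ := h7
  have fA : ∀ l l' : ℕ, l.Prime → l'.Prime → l ∣ M → l' ∣ M → l % 4 = 3 → l % 8 = l' % 8 →
      jacobiSym p l = 1 → jacobiSym p l' = 1 → l = l' := by
    intro l l' hl hl' h1 h2 h3 h4 s1 s2
    by_contra hne
    refine ssJac_three hJ hr hl hl' hrM h1 h2 sr s1 s2 hne ?_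
    have h5 : l % 8 = 3 ∨ l % 8 = 7 := by omega
    rw [Nat.mul_mod, Nat.mul_mod r, hr7, ← h4]
    rcases h5 with h5 | h5 <;> rw [h5]
  have fB : ∀ a b q : ℕ, a.Prime → b.Prime → q.Prime → a ∣ M → b ∣ M → q ∣ M → a % 8 = 3 →
      b % 8 = 7 → q % 8 = 3 → jacobiSym p a = 1 → jacobiSym p b = 1 → q = a := by
    intro a b q ha hb hq h1 h2 h3 a3 b7 q3 s1 s2
    rcases hpm q h3 with s3 | s3
    · exact fA q a hq ha h3 h1 (by omega) (by omega) s3 s1
    · refine (ssJac_three hJ hq ha hb h3 h1 h2 s3 s1 s2 (by omega) ?_).elim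
      rw [Nat.mul_mod, Nat.mul_mod q, q3, a3, b7]
  refine Or.inr fun l hl hlM hl4 sl => ?_
  by_cases ho : ∃ l' : ℕ, l'.Prime ∧ l' ∣ M ∧ l' % 4 = 3 ∧ l' ≠ l ∧ jacobiSym p l' = 1
  swap
  · refine ⟨-p, Or.inl rfl, ZMod.nonsquare_of_jacobiSym_eq_neg_one (by
      rw [ssJac_neg _ hl4, sl]), fun q hq hqM hq4 hne => tqPrime_sq hq ?_⟩
    rw [ssJac_neg _ hq4, (hpm q hqM).resolve_left fun h => ho ⟨q, hq, hqM, hq4, hne, h⟩, neg_neg]
  obtain ⟨l', hl', hlM', hl4', hne', sl'⟩ := ho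
  have h8 : l' % 8 ≠ l % 8 := fun h => hne' (fA l' l hl' hl hlM' hlM hl4' h sl' sl)
  have h5 : l % 8 = 3 ∨ l % 8 = 7 := by omega
  rcases h5 with h5 | h5
  · refine ⟨2, Or.inr (Or.inl rfl), ZMod.nonsquare_of_jacobiSym_eq_neg_one (ssJac_two3 h5),
      fun q hq hqM hq4 hne => tqPrime_sq hq (ssJac_two7 ?_)⟩
    by_contra h6
    exact hne (fB l l' q hl hl' hq hlM hlM' hqM h5 (by omega) (by omega) sl sl')
  · refine ⟨-2 * p, Or.inr (Or.inr rfl), ZMod.nonsquare_of_jacobiSym_eq_neg_one (by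
      rw [jacobiSym.mul_left, ssJac_neg _ hl4, ssJac_two7 h5, sl]; rfl),
      fun q hq hqM hq4 hne => tqPrime_sq hq ?_⟩
    rw [jacobiSym.mul_left, ssJac_neg _ hq4]
    have h6 : q % 8 = 3 ∨ q % 8 = 7 := by omega
    rcases h6 with h6 | h6
    · rw [ssJac_two3 h6, fB l' l q hl' hl hq hlM' hlM hqM (by omega) h5 h6 sl' sl, sl']
      rfl
    · rw [ssJac_two7 h6, (hpm q hqM).resolve_left fun h =>
        hne (fA q l hq hl hqM hlM hq4 (by omega) h sl)]
      rfl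

end Pool.Agent.Tate
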