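import Pool.Agent.P.MP_2ce3e7_ag.UpTh

/-! Division of a norm: an auxiliary prime. -/

set_option autoImplicit false

noncomputable section

namespace Pool.Agent.Tate

open Pool.Agent.P.MP_e12fcd_ag.Fermat (bern tors)

section Gen
variable {U : Type} [CommGroup U] (H : Subgroup U) {Y : Type} [AddCommMonoid Y] {φ : U → Y}

theorem UpCaseA_out (hφ : ∀ h ∈ H, ∀ u, φ (h * u) = φ u) (v : U) :
    φ (QuotientGroup.mk v : U ⧸ H).out = φ v := by
  obtain ⟨h, hh⟩ := QuotientGroup.mk_out_eq_mul H v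
  rw [hh, mul_comm, hφ _ h.2]

theorem UpCaseA_shift [Fintype (U ⧸ H)] (hφ : ∀ h ∈ H, ∀ u, φ (h * u) = φ u) (u : U) :
    ∑ q : U ⧸ H, φ (u * q.out) = ∑ q : U ⧸ H, φ q.out := by
  rw [← Equiv.sum_comp (Equiv.mulLeft (QuotientGroup.mk u : U ⧸ H)) (fun q => φ q.out)]
  refine Finset.sum_congr rfl fun q _ => ?_
  rw [← UpCaseA_out H hφ (u * q.out), QuotientGroup.mk_mul, QuotientGroup.out_eq']
  rfl

theorem UpCaseA_sum [Fintype U] [Fintype (U ⧸ H)] (hφ : ∀ h ∈ H, ∀ u, φ (h * u) = φ u) :
    ∑ u, φ u = Nat.card H • ∑ q : U ⧸ H, φ q.out := by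
  classical
  have hb : Function.Bijective (fun x : (U ⧸ H) × H => x.1.out * (x.2 : U)) := by
    constructor
    · rintro ⟨q, h⟩ ⟨q', h'⟩ hx
      simp only at hx
      have hq : q = q' := by
        have := congrArg (QuotientGroup.mk : U → U ⧸ H) hx
        rwa [QuotientGroup.mk_mul_of_mem _ h.2, QuotientGroup.mk_mul_of_mem _ h'.2,
          QuotientGroup.out_eq', QuotientGroup.out_eq'] at this
      subst hq
      have : (h : U) = h' := mul_left_cancel hx
      rw [Subtype.ext this]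
    · intro u
      obtain ⟨h, hh⟩ := QuotientGroup.mk_out_eq_mul H u
      refine ⟨(QuotientGroup.mk u, h⁻¹), ?_⟩
      simp [hh]
  rw [← Fintype.sum_bijective _ hb (fun x => φ (x.1.out * (x.2 : U))) φ (fun _ => rfl),
    Fintype.sum_prod_type, Finset.smul_sum]
  refine Finset.sum_congr rfl fun q _ => ?_
  rw [Finset.sum_congr rfl (fun (h : H) _ => show φ (q.out * (h : U)) = φ q.out by
    rw [mul_comm, hφ _ h.2]), Finset.sum_const, Finset.card_univ, Nat.card_eq_fintype_card]

end Gen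

theorem UpCaseA_units {F : Type} [Field F] [Fintype F] [DecidableEq F] {Y : Type}
    [AddCommMonoid Y] (f : F → Y) : ∑ v, f v = f 0 + ∑ u : Fˣ, f u := by
  rw [← Finset.add_sum_erase Finset.univ f (Finset.mem_univ 0)]
  congr 1
  symm
  refine Finset.sum_bij (fun (u : Fˣ) _ => (u : F)) (fun u _ => by simp) ?_ ?_ (fun _ _ => rfl)
  · intro a _ b _ h
    exact Units.ext h
  · intro v hv
    exact ⟨Units.mk0 v (Finset.ne_of_mem_erase hv), Finset.mem_univ _, rfl⟩

theorem caseA {M r L p s : ℕ} [NeZero M] [NeZero L] (hr : r.Prime) (hL : L = M * r)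
    (hrM : ¬ r ∣ M) (hpr : ¬ r ∣ p) (hs : (p : ZMod M) ^ s = 1) {Y : Type} [AddCommGroup Y]
    {g : ZMod L → Y} (hg : Dist L g) (hp : ∀ y, g ((p : ZMod L) * y) = g y) :
    ∃ W : ZMod M → Y, Dist M W ∧ (∀ b, W ((p : ZMod M) * b) = W b) ∧
      ∀ b : ZMod M, g (lv L ((r : ZMod M) * b)) - g (lv L b) =
        orderOf ((p : ZMod r) ^ s) • W b := by
  classical
  haveI : Fact r.Prime := ⟨hr⟩
  have hM : M ∣ L := ⟨r, hL⟩
  have hrL : r ∣ L := ⟨M, by rw [hL, mul_comm]⟩
  have hp0 : (p : ZMod r) ≠ 0 := fun h => hpr ((ZMod.natCast_eq_zero_iff p r).1 h)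
  set pu : (ZMod r)ˣ := Units.mk0 (p : ZMod r) hp0 with hpu
  set H : Subgroup (ZMod r)ˣ := Subgroup.zpowers (pu ^ s) with hH
  let φ : ZMod M → (ZMod r)ˣ → Y := fun b u => g (lv L b + lv L (u : ZMod r))
  have hpow : ∀ (k : ℕ) y, g (((p ^ k : ℕ) : ZMod L) * y) = g y := by
    intro k
    induction k with
    | zero => intro y; simp
    | succ k ih => intro y; rw [pow_succ', Nat.cast_mul, mul_assoc, hp, ih]
  have hstep : ∀ b u, φ b (pu ^ s * u) = φ b u := by
    intro b u
    have h1 := hpow s (lv L b + lv L (u : ZMod r))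
    rw [mul_add, natCast_mul_lv hM, natCast_mul_lv hrL, Nat.cast_pow, hs, one_mul] at h1
    simp only [φ]
    rw [← h1]
    simp [hpu]
  have hφ : ∀ b, ∀ h ∈ H, ∀ u, φ b (h * u) = φ b u := by
    intro b h hh
    rw [hH, ← mem_powers_iff_mem_zpowers] at hh
    obtain ⟨k, rfl⟩ := hh
    induction k with
    | zero => intro u; simp
    | succ k ih => intro u; simp only at ih ⊢; rw [pow_succ', mul_assoc, hstep, ih]
  refine ⟨fun b => ∑ q : (ZMod r)ˣ ⧸ H, φ b q.out, ⟨?_, ?_⟩, ?_, ?_⟩
  · intro b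
    rw [← UpCaseA_shift H (hφ b) (-1), ← Finset.sum_neg_distrib]
    refine Finset.sum_congr rfl fun q _ => ?_
    simp only [φ]
    rw [← hg.neg, lv_neg hM]
    congr 1
    simp [lv_neg hrL]
    ring
  · intro d hd hdM b
    have hd0 : (d : ZMod r) ≠ 0 := by
      intro h
      have h1 := (ZMod.natCast_eq_zero_iff d r).1 h
      have := (Nat.prime_dvd_prime_iff_eq hr hd).1 h1
      exact hrM (this ▸ hdM)
    rw [← UpCaseA_shift H (hφ _) (Units.mk0 (d : ZMod r) hd0), Finset.sum_comm]
    refine Finset.sum_congr rfl fun q _ => ?_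
    have h1 := hg.dist d hd (hdM.trans hM) (lv L b + lv L ((q.out : (ZMod r)ˣ) : ZMod r))
    rw [← sum_tors_lv hM hdM, mul_add, natCast_mul_lv hM, natCast_mul_lv hrL] at h1
    simp only [φ, Units.val_mul, Units.val_mk0]
    rw [← h1]
    refine Finset.sum_congr rfl fun z _ => ?_
    rw [lv_add hM]
    congr 1
    ring
  · intro b
    simp only
    rw [← UpCaseA_shift H (hφ _) pu]
    refine Finset.sum_congr rfl fun q _ => ?_
    have h1 := hp (lv L b + lv L ((q.out : (ZMod r)ˣ) : ZMod r))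
    rw [mul_add, natCast_mul_lv hM, natCast_mul_lv hrL] at h1
    simp only [φ, Units.val_mul, hpu, Units.val_mk0]
    exact h1
  · intro b
    have h1 := hg.dist r hr hrL (lv L b)
    rw [sum_tors_eq hrL, natCast_mul_lv hM, UpCaseA_units, (lv_eq_zero hrL).2 rfl, add_zero] at h1
    have h2 := UpCaseA_sum H (hφ b)
    have h3 : Nat.card H = orderOf ((p : ZMod r) ^ s) := by
      rw [hH, Nat.card_zpowers, ← orderOf_units]
      simp [hpu]
    rw [← h1, ← h3, ← h2]
    simp [φ]

/-- from differences of Bernoulli vectors to differences of types -/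
theorem two_mem_XD {p L : ℕ} [NeZero L] {x : (ZMod L)ˣ → ℤ} (hx : x ∈ TD p L)
    (h1 : ((x 1 : ℤ) : ZMod L) = 0) : 2 • x ∈ XD p L := by
  let T : ZMod L → (ZMod L)ˣ → ℤ := fun b => th b - th ((p : ZMod L) * b)
  have hT0 : T 0 = 0 := by simp [T]
  have hTn : ∀ b, T (-b) = -T b := by
    intro b
    simp only [T]
    rw [mul_neg, th_neg, th_neg]
    abel
  have hadd : ∀ a b, T a + T b - T (a + b) ∈ XD p L := by
    intro a b
    by_cases ha : a = 0
    · subst ha; simp [hT0]
    by_cases hb : b = 0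
    · subst hb; simp [hT0]
    by_cases hab : a + b = 0
    · have : b = -a := by linear_combination hab
      subst this
      simp [hT0, hTn]
    refine AddSubgroup.subset_closure ⟨(a, b), ⟨ha, hb, hab⟩, ?_⟩
    simp only [T, ty, Prod.smul_mk, smul_eq_mul, mul_add]
    abel
  have hex : ∃ b, x - T b ∈ XD p L := by
    clear h1
    induction hx using AddSubgroup.closure_induction with
    | mem y hy =>
      obtain ⟨b, rfl⟩ := hy
      exact ⟨b, by simp [T]⟩
    | zero => exact ⟨0, by simp [hT0]⟩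
    | add y z _ _ hy hz =>
      obtain ⟨a, ha⟩ := hy
      obtain ⟨b, hb⟩ := hz
      refine ⟨a + b, ?_⟩
      have := add_mem (add_mem ha hb) (hadd a b)
      convert this using 1
      abel
    | neg y _ hy =>
      obtain ⟨a, ha⟩ := hy
      refine ⟨-a, ?_⟩
      have := neg_mem ha
      convert this using 1
      rw [hTn]
      abel
  have hval : ∀ y ∈ XD p L, ((y 1 : ℤ) : ZMod L) = 0 := by
    intro y hy
    induction hy using AddSubgroup.closure_induction with
    | mem y hy =>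
      obtain ⟨c, -, rfl⟩ := hy
      simp only [ty, Pi.sub_apply, Pi.add_apply, Int.cast_sub, Int.cast_add, th_one]
      ring
    | zero => simp
    | add y z _ _ hy hz => simp [hy, hz]
    | neg y _ hy => simp [hy]
  obtain ⟨b, hb⟩ := hex
  have h2 := hval _ hb
  simp only [T, Pi.sub_apply, Int.cast_sub, th_one, h1] at h2
  have h3 : (p : ZMod L) * (b + b) = b + b := by linear_combination h2
  have h4 : T (b + b) = 0 := by
    simp only [T]
    rw [h3, sub_self]
  have h5 := add_mem (add_mem hb hb) (hadd b b)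
  rw [h4] at h5
  convert h5 using 1
  rw [two_smul]
  abel

/-- the elements of `XD` are sums over finite families -/
theorem exists_family {p L : ℕ} [NeZero L] {x : (ZMod L)ˣ → ℤ} (hx : x ∈ XD p L) :
    ∃ (n : ℕ) (c : Fin n → Ch L), (∀ j, Nd (c j)) ∧
      x = ∑ j, (ty (c j) - ty ((p : ZMod L) • c j)) := by
  induction hx using AddSubgroup.closure_induction with
  | mem y hy =>
    obtain ⟨c, hc, rfl⟩ := hy
    exact ⟨1, fun _ => c, fun _ => hc, by simp⟩
  | zero => exact ⟨0, Fin.elim0, fun j => j.elim0, by simp⟩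
  | add y z _ _ hy hz =>
    obtain ⟨n, c, hc, rfl⟩ := hy
    obtain ⟨n', c', hc', rfl⟩ := hz
    refine ⟨n + n', Fin.append c c', ?_, ?_⟩
    · intro j
      refine Fin.addCases (fun i => ?_) (fun i => ?_) j
      · rw [Fin.append_left]; exact hc i
      · rw [Fin.append_right]; exact hc' i
    · rw [Fin.sum_univ_add]
      simp only [Fin.append_left, Fin.append_right]
  | neg y _ hy =>
    obtain ⟨n, c, hc, rfl⟩ := hy
    refine ⟨n, fun j => -c j, fun j => (hc j).neg, ?_⟩
    rw [← Finset.sum_neg_distrib]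
    refine Finset.sum_congr rfl fun j _ => ?_
    rw [smul_neg, ty_neg, ty_neg]
    abel

end Pool.Agent.Tate
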