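import Pool.Agent.P.MP_2ce3e7_ag.TQParA
import Pool.Agent.P.MP_2ce3e7_ag.UpCaseA

/-! The sign change at one prime. -/

set_option autoImplicit false
set_option linter.unusedSectionVars false

noncomputable section

namespace Pool.Agent.Tate

open Pool.Agent.P.MP_e12fcd_ag.Fermat (bern tors mem_tors card_tors sum_tors_unit sum_tors_shift)

theorem ssStep_class {q : ℕ} [Fact q.Prime] (h4 : q % 4 = 3) {Y : Type} [AddCommGroup Y]
    (hY : ∀ n : ℕ, Odd n → ∀ y : Y, n • y = 0 → y = 0)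
    (φ : (ZMod q)ˣ → Y) (h1 : ∀ s u, φ (s ^ 2 * u) = φ u)
    (h3 : ∑ u, φ u = 0) (γ w : (ZMod q)ˣ) (hγ : ¬ IsSquare (γ : ZMod q)) :
    φ w + φ (γ * w) = 0 := by
  classical
  have hn : ¬ IsSquare (-1 : ZMod q) := by
    rw [ZMod.exists_sq_eq_neg_one_iff]
    omega
  have hm : ∀ g u : (ZMod q)ˣ, ¬ IsSquare (g : ZMod q) →
      (IsSquare ((g * u : (ZMod q)ˣ) : ZMod q) ↔ ¬ IsSquare (u : ZMod q)) := fun g u hg => by
    rw [← quadraticChar_one_iff_isSquare (Units.ne_zero _), Units.val_mul,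
      map_mul, quadraticChar_neg_one_iff_not_isSquare.2 hg,
      ← quadraticChar_neg_one_iff_not_isSquare]
    omega
  have hx : ∀ u : (ZMod q)ˣ, IsSquare ((-u : (ZMod q)ˣ) : ZMod q) ↔ ¬ IsSquare (u : ZMod q) :=
    fun u => by
      rw [← neg_one_mul u]
      exact hm (-1) u (by simpa using hn)
  have hs : ∀ u v : (ZMod q)ˣ, IsSquare (u : ZMod q) → φ (u * v) = φ v := fun u v ⟨s, hs⟩ => by
    have h0 : s ≠ 0 := fun h => u.ne_zero (by rw [hs, h, mul_zero])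
    rw [← h1 (Units.mk0 s h0) v]
    congr 2
    exact Units.ext (by rw [hs, sq]; rfl)
  let S := Finset.univ.filter fun u : (ZMod q)ˣ => IsSquare (u : ZMod q)
  have key : ∀ (Z : Type) [AddCommMonoid Z] (F : (ZMod q)ˣ → Z),
      ∑ u, F u = ∑ u ∈ S, (F u + F (-u)) := fun Z _ F => by
    rw [← Finset.sum_filter_add_sum_filter_not _ fun u : (ZMod q)ˣ => IsSquare (u : ZMod q),
      Finset.sum_add_distrib]
    congr 1
    refine Finset.sum_equiv (Equiv.neg _) (fun u => ?_) fun u _ => by simp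
    simp only [S, Finset.mem_filter, Finset.mem_univ, true_and, Equiv.neg_apply, hx]
  have k1 := key ℕ fun _ => 1
  simp only [Finset.sum_const, Finset.card_univ, ZMod.card_units, smul_eq_mul] at k1
  have k2 := key Y φ
  rw [h3, Finset.sum_congr rfl (g := fun _ => φ 1 + φ (-1)) fun u hu => by
    rw [← hs u 1 (Finset.mem_filter.1 hu).2, ← hs u (-1) (Finset.mem_filter.1 hu).2, mul_one,
      mul_neg_one], Finset.sum_const] at k2
  have k3 := hY S.card (Nat.odd_iff.2 (by omega)) _ k2.symm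
  have a1 : ∀ u : (ZMod q)ˣ, IsSquare (u : ZMod q) → φ u = φ 1 := fun u h => by
    rw [← hs u 1 h, mul_one]
  have a2 : ∀ u : (ZMod q)ˣ, ¬ IsSquare (u : ZMod q) → φ u = φ (-1) := fun u h => by
    rw [← hs (-u) (-1) ((hx u).2 h), neg_mul_neg, mul_one]
  by_cases h : IsSquare (w : ZMod q)
  · rw [a1 w h, a2 _ fun e => (hm γ w hγ).1 e h, k3]
  · rw [a2 w h, a1 _ ((hm γ w hγ).2 h), add_comm, k3]

variable {M l : ℕ} [NeZero M] (hl : l.Prime) (h4 : l % 4 = 3) (hlM : l ∣ M)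
include hl h4 hlM

theorem ss_tau (x : ℤ) (h0 : ¬ IsSquare (x : ZMod l))
    (hx : ∀ q : ℕ, q.Prime → q ∣ M → q % 4 = 3 → q ≠ l →
      IsSquare (x : ZMod q) ∧ (x : ZMod q) ≠ 0) :
    ∃ τ t : (ZMod M)ˣ, Odd (orderOf t) ∧
      (∀ b : ZMod M, ¬ l ∣ addOrderOf b → (τ : ZMod M) * b = b) ∧
      ¬ IsSquare (ZMod.castHom hlM (ZMod l) τ) ∧
      ∀ b : ZMod M, Oa (addOrderOf b) → (t : ZMod M) * ((τ : ZMod M) * b) = (x : ZMod M) * b := by
  have := Fact.mk hl
  obtain ⟨k, c, hc, hM⟩ := Nat.exists_eq_pow_mul_and_not_dvd (NeZero.ne M) l hl.ne_one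
  have cop := ((Nat.Prime.coprime_iff_not_dvd hl).2 hc).pow_left k
  have hcM : c ∣ M := ⟨l ^ k, hM.trans (mul_comm _ _)⟩
  have hkM : l ^ k ∣ M := ⟨c, hM⟩
  have hlk : l ∣ l ^ k := ((Nat.Prime.dvd_mul hl).1 (hM ▸ hlM)).resolve_right hc
  have hx0 : ¬ (l : ℤ) ∣ x := fun h => h0 (by
    rw [(ZMod.intCast_zmod_eq_zero_iff_dvd x l).2 h]
    exact IsSquare.zero)
  have hxu : IsUnit (x : ZMod (l ^ k)) := by
    rw [ZMod.coe_int_isUnit_iff_isCoprime, Nat.cast_pow]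
    exact ((Nat.prime_iff_prime_int.1 hl).coprime_iff_not_dvd.2 hx0).pow_left
  obtain ⟨u, hu⟩ := hxu
  obtain ⟨τ, t1, t2⟩ := exists_unit_crt hkM hcM hM cop u 1
  obtain ⟨a, b, hab⟩ := Nat.isCoprime_iff_coprime.2 cop
  have e1 : ∀ d : ℕ, d ∣ l ^ k → ((x * (a * (l ^ k : ℕ)) + b * c : ℤ) : ZMod d) = 1 := fun d hd => by
    have h1 := congrArg (Int.cast : ℤ → ZMod d) hab
    have h2 := (ZMod.natCast_eq_zero_iff (l ^ k) d).2 hd
    push_cast at h1 h2 ⊢
    linear_combination h1 + ((x : ZMod d) - 1) * a * h2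
  have e2 : ∀ d : ℕ, d ∣ c → ((x * (a * (l ^ k : ℕ)) + b * c : ℤ) : ZMod d) = x := fun d hd => by
    have h1 := congrArg (Int.cast : ℤ → ZMod d) hab
    have h2 := (ZMod.natCast_eq_zero_iff c d).2 hd
    push_cast at h1 h2 ⊢
    linear_combination (x : ZMod d) * h1 + (1 - (x : ZMod d)) * b * h2
  obtain ⟨t, s1, s2⟩ := odd_unit_adm (M := M) (x * (a * (l ^ k : ℕ)) + b * c) fun q hq hqM hq4 => by
    by_cases e : q = l
    · subst e
      rw [e1 q hlk]
      exact ⟨IsSquare.one, one_ne_zero⟩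
    · rw [e2 q (((Nat.Prime.dvd_mul hq).1 (hM ▸ hqM)).resolve_left fun h =>
        e ((Nat.prime_dvd_prime_iff_eq hq hl).1 (hq.dvd_of_dvd_pow h)))]
      exact hx q hq hqM hq4 e
  refine ⟨τ, t, s1, fun z hz => ?_, ?_, fun z hz => ?_⟩
  · refine (mul_eq_of_cast hcM ?_ (tqOdd_kill hl hM hz)).trans (one_mul z)
    rw [t2, map_one, Units.val_one]
  · rwa [← ZMod.castHom_comp hlk hkM, RingHom.comp_apply, t1, hu, map_intCast]
  · have e3 : ((x * (a * (l ^ k : ℕ)) + b * c : ℤ) : ZMod M) * τ - x = 0 := by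
      refine eq_zero_of_cast hkM hcM hM cop ?_ ?_
      · rw [map_sub, map_mul, map_intCast, map_intCast, e1 _ dvd_rfl, t1, hu, one_mul, sub_self]
      · rw [map_sub, map_mul, map_intCast, map_intCast, e2 _ dvd_rfl, t2, Units.val_one, mul_one,
          sub_self]
    rw [s2 _ (by rw [ord_unit_mul]; exact hz.odd) (by rw [ord_unit_mul]; exact hz.adm),
      ← mul_assoc, sub_eq_zero.1 e3]

theorem ss_step {Y : Type} [AddCommGroup Y] (hY : ∀ n : ℕ, Odd n → ∀ y : Y, n • y = 0 → y = 0)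
    {F : ZMod M → Y} (hF : Dist M F)
    (hi : ∀ t : (ZMod M)ˣ, Odd (orderOf t) → ∀ b, F ((t : ZMod M) * b) = F b) {C : ℕ → Prop}
    (hC : ∀ n n' : ℕ, n' ∣ n → C n → C n')
    (h0 : ∀ c : ZMod M, C (addOrderOf c) → ¬ l ∣ addOrderOf c →
      2 • F c = 0 ∧ ∀ t : (ZMod M)ˣ, F ((t : ZMod M) * c) = F c)
    {τ : (ZMod M)ˣ} (hτ : ∀ b : ZMod M, ¬ l ∣ addOrderOf b → (τ : ZMod M) * b = b)
    (hn : ¬ IsSquare (ZMod.castHom hlM (ZMod l) τ)) (b : ZMod M) (hb : C (addOrderOf b)) :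
    F b + F ((τ : ZMod M) * b) = 0 := by
  have := Fact.mk hl
  have hl2 : l ≠ 2 := by omega
  generalize hn' : addOrderOf b = n
  induction n using Nat.strong_induction_on generalizing b with
  | _ n ih =>
  by_cases h1 : l ∣ addOrderOf b
  swap
  · rw [hτ b h1, ← two_nsmul, (h0 b hb h1).1]
  by_cases h : l ∣ addOrderOf ((l : ZMod M) * b)
  · have hs : ∀ c : ZMod M, l ∣ addOrderOf ((l : ZMod M) * c) →
        F ((l : ZMod M) * c) = l • F c := fun c hc => by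
      rw [← hF.dist l hl hlM, Finset.sum_congr rfl (g := fun _ => F c) fun z hz => by
        obtain ⟨t, h1, h3⟩ := odd_shift hl hl2 hc (mem_tors.1 hz)
        rw [← h3, hi t h1], Finset.sum_const, card_tors hlM]
    refine hY l (hl.odd_of_ne_two hl2) _ ?_
    rw [smul_add, ← hs b h, ← hs _ (by rwa [mul_left_comm, ord_unit_mul]), mul_left_comm]
    refine ih _ ?_ _ (hC _ _ (tqOrd_mul_dvd _ _) hb) rfl
    rw [← hn', ← ord_mul_of_dvd h1]
    exact lt_mul_of_one_lt_right (addOrderOf_pos _) hl.one_lt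
  obtain ⟨c', c1, c2, -⟩ := exists_cut hl h
  have c3 := ord_mul_coprime ((Nat.Prime.coprime_iff_not_dvd hl).2 c1)
  obtain ⟨w, hw⟩ := exists_lv hlM (x := b - c') (by rw [mul_sub, c2, sub_self])
  have hw0 : w ≠ 0 := fun e => c1 (by
    rw [e, (lv_eq_zero hlM).2 rfl, eq_comm, sub_eq_zero] at hw
    exact hw ▸ h1)
  have hc : b = c' + lv M w := by rw [hw, add_sub_cancel]
  have hCc : C (addOrderOf c') := hC _ _ (by rw [← c3, c2]; exact tqOrd_mul_dvd _ _) hb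
  have key := ssStep_class h4 hY (fun u => F (c' + lv M (u : ZMod l))) (fun s u => by
    obtain ⟨t, t1, t2, t3⟩ := odd_unit_sq hl h4 hlM s
    rw [← hi t t1 (c' + lv M (u : ZMod l)), mul_add, t2 c' c1, mul_lv hlM, t3]
    simp) (by
      have e := UpCaseA_units fun v : ZMod l => F (c' + lv M v)
      obtain ⟨t, ht⟩ := same_order c3.symm
      rw [← sum_tors_eq hlM fun z => F (c' + z), hF.dist l hl hlM, ← ht, (h0 c' hCc c1).2 t,
        (lv_eq_zero hlM).2 rfl, add_zero] at e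
      simpa using e) (ZMod.unitsMap hlM τ) (Units.mk0 w hw0) hn
  rw [hc, mul_add, hτ c' c1, mul_lv hlM]
  exact key

end Pool.Agent.Tate
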