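import Pool.Agent.P.MP_2ce3e7_ag.TQStep
import Pool.Agent.P.MP_2ce3e7_ag.TQOdd

/-! Invariant distributions vanish on balanced families. -/

set_option autoImplicit false
set_option linter.unusedSectionVars false

noncomputable section

namespace Pool.Agent.Tate

open Pool.Agent.P.MP_e12fcd_ag.Fermat (bern tors mem_tors card_tors sum_tors_unit sum_tors_shift)

/-- all prime factors are three modulo four -/
def Oa (n : ℕ) : Prop := ∀ l : ℕ, l.Prime → l ∣ n → l % 4 = 3

theorem Oa.adm {n : ℕ} (h : Oa n) : Adm n := fun l hl hn => Or.inr (h l hl hn)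

theorem Oa.odd {n : ℕ} (h : Oa n) : Odd n :=
  Nat.odd_iff.2 (Nat.two_dvd_ne_zero.1 fun e => absurd (h 2 Nat.prime_two e) (by decide))

theorem Adm.oa {n : ℕ} (h : Adm n) (ho : Odd n) : Oa n := fun l hl hn =>
  (h l hl hn).resolve_left fun e => ho.not_two_dvd_nat (e ▸ hn)

variable {M : ℕ} [NeZero M]

theorem lam_eq_zero {N : ℕ} (h : N ∣ M) {y : (ZMod N)ˣ → ℤ} (hy : lam h y = 0) : y = 0 := by
  have := upDefs_ne h
  ext t
  obtain ⟨u, rfl⟩ := ZMod.unitsMap_surjective h t
  exact (mul_eq_zero.1 (congrFun hy u)).resolve_left (Nat.cast_ne_zero.2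
    (Nat.div_pos (Nat.le_of_dvd (NeZero.pos M) h) (NeZero.pos N)).ne')

theorem Qr.unit (hQ : Qr M) {l : ℕ} (hl : l.Prime) (hlM : l ∣ M) (h4 : l % 4 = 1) :
    ∃ t : (ZMod M)ˣ, Odd (orderOf t) ∧
      ∀ b : ZMod M, Oa (addOrderOf b) → (t : ZMod M) * b = (l : ZMod M) * b := by
  obtain ⟨t, h1, h2⟩ := odd_unit_adm (M := M) (l : ℤ) fun q hq hqM h3 => by
    have := Fact.mk hl
    have := Fact.mk hq
    have hne : q ≠ l := by omega
    rw [Int.cast_natCast]
    exact ⟨(ZMod.exists_sq_eq_prime_iff_of_mod_four_eq_one h4 (by omega)).1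
      (hQ l hl hlM h4 q hq hqM hne (by omega)), fun h => hne
        ((Nat.prime_dvd_prime_iff_eq hq hl).1 ((ZMod.natCast_eq_zero_iff _ _).1 h))⟩
  exact ⟨t, h1, fun b hb => by rw [h2 b hb.odd hb.adm, Int.cast_natCast]⟩

open Classical in
theorem oa_dist {Y : Type} [AddCommGroup Y] {F : ZMod M → Y} (hn : ∀ b, F (-b) = -F b)
    (h3 : ∀ d : ℕ, d.Prime → d ∣ M → d % 4 = 3 → ∀ b,
      ∑ z ∈ tors M d, F (b + z) = F ((d : ZMod M) * b))
    (h1 : ∀ d : ℕ, d.Prime → d ∣ M → d % 4 ≠ 3 → ∀ c, Oa (addOrderOf c) →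
      F ((d : ZMod M) * c) = F c) :
    Dist M fun b => if Oa (addOrderOf b) then F b else 0 := by
  refine ⟨fun b => ?_, fun d hd hdM b => ?_⟩
  · rw [addOrderOf_neg, hn]
    split_ifs <;> simp
  by_cases h : d % 4 = 3
  · have key : ∀ x y : ZMod M, (∀ l : ℕ, l.Prime → ¬ l ∣ d →
        (l ^ 1 ∣ addOrderOf x ↔ l ^ 1 ∣ addOrderOf y)) →
        (Oa (addOrderOf x) ↔ Oa (addOrderOf y)) := fun x y H =>
      forall₂_congr fun l hl => by
        by_cases e : l ∣ d
        · simp only [(Nat.prime_dvd_prime_iff_eq hl hd).1 e, h, implies_true]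
        · simpa only [pow_one] using imp_congr_left (H l hl e)
    rw [Finset.sum_congr rfl fun z hz => if_congr (key _ b fun l hl e =>
      dvd_ord_add hl e (mem_tors.1 hz) b 1) rfl rfl,
      if_congr (key _ b fun l hl e => dvd_ord_mul hl e b 1) rfl rfl]
    split_ifs
    exacts [h3 d hd hdM h b, Finset.sum_const_zero]
  · have e : ∀ x : ZMod M, (if Oa (addOrderOf x) then F x else 0) =
        if d ∣ addOrderOf x then 0 else if Oa (addOrderOf x) then F x else 0 := fun x => by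
      by_cases hx : d ∣ addOrderOf x
      · rw [if_pos hx, if_neg fun ho => h (ho d hd hx)]
      · rw [if_neg hx]
    rw [Finset.sum_congr rfl fun z _ => e (b + z), e]
    refine sum_cut hd (fun x => if Oa (addOrderOf x) then F x else 0) (fun c hc => ?_) b
    rw [ord_mul_coprime ((Nat.Prime.coprime_iff_not_dvd hd).2 hc)]
    exact ite_congr rfl (h1 d hd hdM h c) fun _ => rfl

/-- the average over the units of odd order -/
def vq (b : ZMod M) : (ZMod M)ˣ → ℤ := ∑ t ∈ Qo M, th ((t : ZMod M) * b)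

theorem vq_dist : Dist M (vq : ZMod M → _) := by
  refine ⟨fun b => ?_, fun d hd hdM b => ?_⟩
  · simp only [vq, mul_neg, th_neg, Finset.sum_neg_distrib]
  · rw [vq, ← Finset.sum_congr rfl fun t _ => (dist_th.twist (Units.isUnit t)).dist d hd hdM b,
      Finset.sum_comm]
    rfl

theorem vq_mul {t : (ZMod M)ˣ} (ht : Odd (orderOf t)) (b : ZMod M) :
    vq ((t : ZMod M) * b) = vq b := by
  rw [vq, vq, ← sum_Qo_mul ht fun s => th ((s : ZMod M) * b)]
  simp only [Units.val_mul, mul_assoc]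

theorem Gal.odd {Y : Type} [AddCommGroup Y] {G : ZMod M → Y} (hi : Gal G) (hG : Dist M G)
    {ι : Type} [Fintype ι] {b : ι → ZMod M}
    (h : ∑ i, ∑ t ∈ Qo M, G ((t : ZMod M) * b i) = 0) : ∑ i, G (b i) = 0 := by
  obtain ⟨k, hk⟩ := Qo_card (M := M)
  simpa only [hi _ _, Finset.sum_const, hk, add_smul, one_smul, mul_comm 2 k, mul_smul,
    hi.two hG, smul_zero, zero_add] using h

variable {ι : Type} [Fintype ι] {b : ι → ZMod M} (h : ∑ i, th (b i) = 0) {Y : Type}
  [AddCommGroup Y] {G : ZMod M → Y} (hG : Dist M G) (hi : Gal G)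
include h hG hi

open Classical in
theorem cut_all (hq : ∀ l : ℕ, l.Prime → l ∣ M → l % 4 = 1 → ∀ q : ℕ, q.Prime → q ∣ M → q ≠ l →
      IsSquare (q : ZMod l)) :
    ∑ i, (if Adm (addOrderOf (b i)) then G (b i) else 0) = ∑ i, G (b i) := by
  have key : ∀ s : Finset ℕ, (∀ l ∈ s, l.Prime ∧ l ∣ M ∧ l % 4 = 1) → ∀ G' : ZMod M → Y,
      (∀ c, G' c = if ∃ l ∈ s, l ∣ addOrderOf c then 0 else G c) →
      Dist M G' ∧ Gal G' ∧ ∑ i, G' (b i) = ∑ i, G (b i) := fun s => by
    induction s using Finset.induction_on with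
    | empty =>
      intro _ G' e
      obtain rfl : G' = G := funext fun c => by simpa using e c
      exact ⟨hG, hi, rfl⟩
    | insert l s _ ih =>
      intro hs G' e
      obtain ⟨a1, a2, a3⟩ := ih (fun q hq => hs q (Finset.mem_insert_of_mem hq)) _ fun _ => rfl
      obtain ⟨l1, l2, l3⟩ := hs l (Finset.mem_insert_self l s)
      obtain rfl : G' = fun c => if l ∣ addOrderOf c then 0 else
          if ∃ l ∈ s, l ∣ addOrderOf c then 0 else G c := funext fun c => by
        rw [e]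
        by_cases h1 : l ∣ addOrderOf c <;> simp [h1]
      exact ⟨cut_dist l1 a1 a2, cut_gal l1 a1 a2, (step l1 a1 a2 l3 l2 (hq l l1 l2 l3) h).trans a3⟩
  refine (key (M.primeFactors.filter fun l => l % 4 = 1) (fun l hl => ?_)
    (fun c => if Adm (addOrderOf c) then G c else 0) fun c => ?_).2.2
  · obtain ⟨h1, h2⟩ := Finset.mem_filter.1 hl
    exact ⟨Nat.prime_of_mem_primeFactors h1, Nat.dvd_of_mem_primeFactors h1, h2⟩
  · rw [← ite_not]
    refine if_congr ⟨fun h1 => ?_, fun ⟨l, h1, h2⟩ h3 => ?_⟩ rfl rfl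
    · simp only [Adm, not_forall] at h1
      obtain ⟨l, hl, h1, h2⟩ := h1
      have := hl.eq_two_or_odd
      exact ⟨l, Finset.mem_filter.2 ⟨Nat.mem_primeFactors.2 ⟨hl, h1.trans (ord_dvd c),
        NeZero.ne M⟩, by omega⟩, h1⟩
    · obtain ⟨h1, h4⟩ := Finset.mem_filter.1 h1
      have := h3 l (Nat.prime_of_mem_primeFactors h1) h2
      omega

variable (hQ : Qr M) (hk : Kb M G)
include hQ hk

theorem parityA0 (h2 : ¬ 2 ∣ M) : ∑ i, G (b i) = 0 := by
  classical
  have hD := oa_dist vq_dist.neg (fun d hd hdM _ => vq_dist.dist d hd hdM)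
    fun d hd hdM h3 c hc => by
      have h4 : d % 4 = 1 := by
        have := hd.eq_two_or_odd
        have : d ≠ 2 := fun e => h2 (e ▸ hdM)
        omega
      obtain ⟨t, t1, t2⟩ := hQ.unit hd hdM h4
      rw [← t2 c hc, vq_mul t1]
  have h1 := (smul_eq_zero.1 (hD.two_bal h)).resolve_left two_ne_zero
  rw [← Finset.sum_filter, Finset.sum_subtype (p := fun i => Oa (addOrderOf (b i))) _
    (by simp)] at h1
  have h3 := hk ({i // Oa (addOrderOf (b i))} × Qo M) (fun x => ((x.2 : (ZMod M)ˣ) : ZMod M) *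
    b x.1) (fun x => by rw [ord_unit_mul]; exact x.1.2.adm) (by
      rw [Fintype.sum_prod_type, ← h1]
      exact Finset.sum_congr rfl fun i _ => Finset.sum_coe_sort (Qo M)
        fun t => th ((t : ZMod M) * b i))
  rw [Fintype.sum_prod_type, Finset.sum_congr rfl fun (i : {i // Oa (addOrderOf (b i))}) _ =>
    Finset.sum_coe_sort (Qo M) fun t => G ((t : ZMod M) * b i)] at h3
  rw [← cut_all h hG hi fun l hl hlM h4 q hq hqM hne => hQ l hl hlM h4 q hq hqM hne
    fun e => absurd (e ▸ hqM) h2, ← Finset.sum_filter]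
  refine (Finset.sum_subtype _ (fun i => ?_) fun i => G (b i)).trans (hi.odd hG h3)
  simp only [Finset.mem_filter, Finset.mem_univ, true_and]
  exact ⟨fun hA => hA.oa (Nat.odd_iff.2 (Nat.two_dvd_ne_zero.1 fun e =>
    h2 (e.trans (ord_dvd _)))), Oa.adm⟩

theorem parityA (h4 : ¬ 4 ∣ M) : ∑ i, G (b i) = 0 := by
  classical
  by_cases h2 : 2 ∣ M
  swap
  · exact parityA0 h hG hi hQ hk h2
  obtain ⟨N, hN⟩ := id h2
  have hNM : N ∣ M := ⟨2, by omega⟩
  have := upDefs_ne hNM
  have hN2 : ¬ 2 ∣ N := by omega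
  have ho : ∀ c : ZMod M, ¬ 2 ∣ addOrderOf c → ∃ c' : ZMod N, lv M c' = c := fun c hc =>
    exists_lv hNM (ord_dvd_iff.1 (((Nat.Prime.coprime_iff_not_dvd Nat.prime_two).2
      hc).symm.dvd_of_dvd_mul_left (hN ▸ ord_dvd c)))
  have key : ∀ x : ZMod M, ∃ c c' : ZMod N, ∀ (Z : Type) [AddCommGroup Z] (W : ZMod M → Z),
      Dist M W → W 0 = 0 → W x = W (lv M c) + W (lv M c') := fun x => by
    have h0 : ¬ 2 ∣ addOrderOf (((2 : ℕ) : ZMod M) * x) := fun e => hN2 (e.trans
      (ord_dvd_iff.2 (by rw [← mul_assoc, ← Nat.cast_mul, mul_comm N, ← hN, ZMod.natCast_self,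
        zero_mul])))
    obtain ⟨c, c1, c2, -⟩ := exists_cut Nat.prime_two h0
    obtain ⟨c', rfl⟩ := ho c c1
    by_cases e : x - lv M c' = 0
    · exact ⟨c', 0, fun Z _ W _ w0 => by
        rw [(lv_eq_zero hNM).2 rfl, w0, add_zero, sub_eq_zero.1 e]⟩
    refine ⟨((2 : ℕ) : ZMod N) * c', -c', fun Z _ W hW _ => ?_⟩
    have e1 := hW.dist 2 Nat.prime_two h2 (lv M c')
    rw [← Finset.eq_of_subset_of_card_le (s := {0, x - lv M c'}) (t := tors M 2) (by
      simp only [Finset.insert_subset_iff, Finset.singleton_subset_iff, mem_tors, mul_zero,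
        mul_sub, c2, sub_self, and_self]) (by
      rw [card_tors h2, Finset.card_pair (Ne.symm e)]), Finset.sum_pair (Ne.symm e), add_zero,
      add_sub_cancel] at e1
    rw [← natCast_mul_lv hNM, ← e1, lv_neg hNM, hW.neg]
    abel
  choose c c' hc using key
  have g0 : G 0 = 0 := by
    simpa using hk Unit (fun _ => 0) (fun _ l hl h => by
      rw [addOrderOf_zero, Nat.dvd_one] at h
      exact absurd h hl.one_lt.ne') (by simp [th_zero])
  have := parityA0 (b := Sum.elim (fun i => c (b i)) fun i => c' (b i)) (lam_eq_zero hNM (by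
    rw [map_sum]
    simp only [lam_th hNM, Fintype.sum_sum_type, Sum.elim_inl, Sum.elim_inr,
      ← Finset.sum_add_distrib, ← hc _ _ _ dist_th th_zero, h])) (hG.res hNM) (hi.res hNM)
    (fun l hl hlN h1 q hq hqN hne _ => hQ l hl (hlN.trans hNM) h1 q hq (hqN.trans hNM) hne
      fun e => absurd (e ▸ hqN) hN2) (hk.res hNM) hN2
  simpa only [Fintype.sum_sum_type, Sum.elim_inl, Sum.elim_inr, ← Finset.sum_add_distrib,
    ← hc _ _ _ hG g0] using this

end Pool.Agent.Tate
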