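import Pool.Agent.P.MP_2ce3e7_ag.Core

/-! Orbits of the powers of an integer modulo prime powers. -/

set_option autoImplicit false

noncomputable section

namespace Pool.Agent.Tate

theorem upOrb_pow (x : ℤ) (t : ℕ) : x ^ 2 ∣ (1 + x) ^ t - (1 + t * x) := by
  induction t with
  | zero => simp
  | succ t ih =>
    obtain ⟨c, hc⟩ := ih
    refine ⟨c * (1 + x) + t, ?_⟩
    rw [pow_succ, sub_eq_iff_eq_add.1 hc]
    push_cast
    ring

theorem upOrb_solve {r : ℕ} (B : ℕ) (hr : r.Prime) {w : ℤ} (hw : ¬ (r : ℤ) ∣ w) (a : ℤ) :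
    ∃ t : ℕ, (r : ℤ) ^ B ∣ t * w - a := by
  have hp : Prime (r : ℤ) := Nat.prime_iff_prime_int.1 hr
  have hc : IsCoprime ((r : ℤ) ^ B) w := ((Prime.coprime_iff_not_dvd hp).2 hw).pow_left
  obtain ⟨u, v, huv⟩ := hc
  have h0 : (r : ℤ) ^ B ≠ 0 := pow_ne_zero _ hp.ne_zero
  refine ⟨((v * a) % (r : ℤ) ^ B).toNat, ?_⟩
  rw [Int.toNat_of_nonneg (Int.emod_nonneg _ h0), Int.emod_def]
  refine ⟨-(v * a / (r : ℤ) ^ B) * w - u * a, ?_⟩
  linear_combination a * huv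

theorem upOrb_lift {r s i : ℕ} (hr : r.Prime) (h2 : r ≠ 2) (hs : 1 < s) (hi : 0 < i)
    (hv : padicValNat r (s - 1) = i) (j u : ℕ) (hu : u ≡ 1 [MOD r ^ i]) :
    ∃ k : ℕ, s ^ k ≡ u [MOD r ^ (i + j)] := by
  have := Fact.mk hr
  have hp : Prime (r : ℤ) := Nat.prime_iff_prime_int.1 hr
  have h1 : r ∣ s - 1 := dvd_of_one_le_padicValNat (by omega)
  have h3 : ¬ r ∣ s := fun h => hr.one_lt.ne' (Nat.dvd_one.1 (by
    have := Nat.dvd_sub h h1
    rwa [Nat.sub_sub_self hs.le] at this))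
  induction j with
  | zero => exact ⟨0, by simpa using hu.symm⟩
  | succ j ih =>
    obtain ⟨k, hk⟩ := ih
    have h4 : padicValNat r (s ^ r ^ j - 1) = i + j := by
      have := padicValNat.pow_sub_pow (p := r) (hr.odd_of_ne_two h2) hs h1 h3
        (pow_ne_zero j hr.ne_zero)
      rwa [one_pow, hv, padicValNat.prime_pow] at this
    have h5 : 1 < s ^ r ^ j := Nat.one_lt_pow (pow_ne_zero j hr.ne_zero) hs
    obtain ⟨w, hw⟩ : r ^ (i + j) ∣ s ^ r ^ j - 1 := h4 ▸ pow_padicValNat_dvd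
    have h6 : ¬ (r : ℤ) ∣ w := by
      intro h
      refine pow_succ_padicValNat_not_dvd (p := r) (n := s ^ r ^ j - 1) (by omega) ?_
      rw [h4, hw, pow_succ]
      exact Nat.mul_dvd_mul_left _ (Int.natCast_dvd_natCast.1 h)
    have h7 : (s : ℤ) ^ r ^ j = 1 + (r : ℤ) ^ (i + j) * w := by
      have : s ^ r ^ j = 1 + r ^ (i + j) * w := by omega
      exact_mod_cast this
    obtain ⟨a, ha⟩ := hk.dvd
    push_cast at ha
    obtain ⟨t, b, hb⟩ := upOrb_solve 1 hr (w := w * (s : ℤ) ^ k) (fun h => by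
      rcases hp.dvd_or_dvd h with h | h
      · exact h6 h
      · exact h3 (Int.natCast_dvd_natCast.1 (hp.dvd_of_dvd_pow h))) a
    obtain ⟨c, hc⟩ := upOrb_pow ((r : ℤ) ^ (i + j) * w) t
    refine ⟨k + r ^ j * t, Nat.modEq_iff_dvd.2 ?_⟩
    obtain ⟨i', rfl⟩ : ∃ i', i = i' + 1 := ⟨i - 1, by omega⟩
    refine ⟨-b - (s : ℤ) ^ k * (r : ℤ) ^ (i' + j) * w ^ 2 * c, ?_⟩
    push_cast
    rw [pow_add (s : ℤ), pow_mul, h7, sub_eq_iff_eq_add.1 hc]
    linear_combination ha - (r : ℤ) ^ (i' + 1 + j) * hb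

theorem exists_orb {N r p : ℕ} (hr : r.Prime) (h2 : r ≠ 2) (hN : ¬ r ∣ N) (hp : 1 < p)
    (hc : p.Coprime (N * r)) : ∃ i : ℕ, 0 < i ∧ ∀ B u : ℕ, u ≡ 1 [MOD N * r ^ i] →
      ∃ s : ℕ, p ^ s ≡ u [MOD N * r ^ B] := by
  have := Fact.mk hr
  have hN0 : N ≠ 0 := by rintro rfl; exact hN (dvd_zero _)
  have h1 : p ^ (N * r).totient ≡ 1 [MOD N * r] := Nat.ModEq.pow_totient hc
  have h3 : 1 < p ^ (N * r).totient :=
    Nat.one_lt_pow (Nat.totient_pos.2 (Nat.pos_of_ne_zero (mul_ne_zero hN0 hr.ne_zero))).ne' hp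
  have h4 : r ∣ p ^ (N * r).totient - 1 :=
    (Nat.modEq_iff_dvd' h3.le).1 (h1.of_mul_left N).symm
  have h5 : 0 < padicValNat r (p ^ (N * r).totient - 1) := one_le_padicValNat_of_dvd (by omega) h4
  refine ⟨_, h5, fun B u hu => ?_⟩
  obtain ⟨k, hk⟩ := upOrb_lift hr h2 h3 h5 rfl B u (hu.of_mul_left N)
  refine ⟨(N * r).totient * k, ?_⟩
  rw [pow_mul]
  refine (Nat.modEq_and_modEq_iff_modEq_mul
    ((hr.coprime_iff_not_dvd.2 hN).symm.pow_right B)).1 ⟨?_, ?_⟩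
  · have := (h1.of_mul_right r).pow k
    rw [one_pow] at this
    exact this.trans (hu.of_mul_right _).symm
  · exact hk.of_dvd (pow_dvd_pow _ (Nat.le_add_left _ _))

/-- invariant functions are periodic away from the elements of high valuation -/
theorem orb_periodic {N r A i B L p : ℕ} (hr : r.Prime) (hN : ¬ r ∣ N) (hL : L = N * r ^ B)
    (horb : ∀ u : ℕ, u ≡ 1 [MOD N * r ^ i] → ∃ s : ℕ, p ^ s ≡ u [MOD L]) {Y : Type}
    {g : ZMod L → Y} (hp : ∀ y, g ((p : ZMod L) * y) = g y) {y y' : ℕ} (hy : ¬ r ^ (A + 1) ∣ y)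
    (h : y ≡ y' [MOD N * r ^ (A + i)]) : g y = g y' := by
  have hy0 : y ≠ 0 := by rintro rfl; exact hy (dvd_zero _)
  obtain ⟨a, y1, h1, rfl⟩ := Nat.exists_eq_pow_mul_and_not_dvd hy0 r hr.ne_one
  obtain ⟨d, rfl⟩ : ∃ d, A = a + d := by
    refine Nat.exists_eq_add_of_le ?_
    by_contra h2
    exact hy ((pow_dvd_pow r (by omega)).mul_right _)
  obtain ⟨w, hw⟩ := h.dvd
  obtain ⟨t, b, hb⟩ := upOrb_solve B hr (w := y1) (fun h => h1 (Int.natCast_dvd_natCast.1 h))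
    ((r : ℤ) ^ d * w)
  obtain ⟨s, hs⟩ := horb (1 + N * r ^ i * t) (by simp [Nat.ModEq])
  have h3 : ∀ (n : ℕ) (z : ZMod L), g ((p : ZMod L) ^ n * z) = g z := by
    intro n
    induction n with
    | zero => simp
    | succ n ih => intro z; rw [pow_succ', mul_assoc, hp, ih]
  rw [← h3 s, ← Nat.cast_pow, ← Nat.cast_mul]
  refine congrArg g ((ZMod.natCast_eq_natCast_iff _ _ _).2 ((hs.mul_right _).trans ?_))
  refine Nat.modEq_iff_dvd.2 ⟨-((r : ℤ) ^ (i + a) * b), ?_⟩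
  rw [hL]
  push_cast at hw ⊢
  linear_combination hw - (N : ℤ) * (r : ℤ) ^ (i + a) * hb

theorem pow_dvd_orderOf {r l K s : ℕ} (hr : r.Prime) (hl : l.Prime) (hs : s ≠ 0)
    (h1 : r ≡ 1 [MOD l ^ (K + s)]) {x : ZMod r} (h0 : x ≠ 0) (hx : ∀ y : ZMod r, y ^ l ≠ x) :
    l ^ K ∣ orderOf (x ^ s) := by
  have := Fact.mk hr
  obtain ⟨g, hg⟩ := IsCyclic.exists_monoid_generator (α := (ZMod r)ˣ)
  have ho : orderOf g = r - 1 := by
    rw [orderOf_eq_card_of_forall_mem_powers hg, Nat.card_eq_fintype_card, ZMod.card_units]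
  obtain ⟨j, hj⟩ := hg (Units.mk0 x h0)
  have hj' : (g : ZMod r) ^ j = x := by
    have := congrArg Units.val hj
    simpa using this
  have h2 : ¬ l ∣ j := by
    rintro ⟨c, rfl⟩
    exact hx ((g : ZMod r) ^ c) (by rw [← pow_mul, mul_comm, hj'])
  have h3 : r - 1 ∣ j * (s * orderOf (x ^ s)) := by
    rw [← ho, ← orderOf_units, orderOf_dvd_iff_pow_eq_one, pow_mul, hj', pow_mul,
      pow_orderOf_eq_one]
  have h4 : l ^ (K + s) ∣ s * orderOf (x ^ s) :=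
    ((hl.coprime_iff_not_dvd.2 h2).pow_left _).dvd_of_dvd_mul_left
      (((Nat.modEq_iff_dvd' hr.one_le).1 h1.symm).trans h3)
  generalize orderOf (x ^ s) = o at h4 ⊢
  obtain ⟨a, s', h5, h6⟩ := Nat.exists_eq_pow_mul_and_not_dvd hs l hl.ne_one
  have h7 : a ≤ s := by
    have h8 : a < l ^ a := Nat.lt_pow_self hl.one_lt
    have h9 : l ^ a ≤ s := Nat.le_of_dvd (Nat.pos_of_ne_zero hs) ⟨s', h6⟩
    omega
  have h8 : l ^ a * l ^ K ∣ l ^ a * (s' * o) := by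
    rw [← mul_assoc, ← h6, ← pow_add]
    exact (pow_dvd_pow l (by omega)).trans h4
  exact ((hl.coprime_iff_not_dvd.2 h5).pow_left _).dvd_of_dvd_mul_left
    (Nat.dvd_of_mul_dvd_mul_left (pow_pos hl.pos a) h8)

/-- Chinese remainders -/
theorem exists_kappa {N Q : ℕ} (hQ : Q ≠ 0) (h : N.Coprime Q) :
    ∃ κ : ℕ, κ ≡ 1 [MOD N] ∧ Q ∣ κ + 1 := by
  obtain ⟨κ, h1, h2⟩ := Nat.chineseRemainder h 1 (Q - 1)
  refine ⟨κ, h1, (Nat.modEq_zero_iff_dvd).1 ((h2.add_right 1).trans ?_)⟩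
  rw [Nat.sub_add_cancel (Nat.pos_of_ne_zero hQ)]
  exact Nat.modEq_zero_iff_dvd.2 dvd_rfl

/-- roots of unity with a prescribed power -/
theorem exists_root_pow {K : Type} [Field K] {m e : ℕ} (h0 : m * e ≠ 0) {ω ζ : K}
    (hω : IsPrimitiveRoot ω (m * e)) (hζ : IsPrimitiveRoot ζ m) :
    ∃ ω' : K, IsPrimitiveRoot ω' (m * e) ∧ ω' ^ e = ζ := by
  have : NeZero (m * e) := ⟨h0⟩
  have : NeZero m := ⟨left_ne_zero_of_mul h0⟩
  have h1 : IsPrimitiveRoot (ω ^ e) m := hω.pow (Nat.pos_of_ne_zero h0) (mul_comm _ _)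
  obtain ⟨j, -, hj, rfl⟩ := (h1.isPrimitiveRoot_iff).1 hζ
  obtain ⟨U, hU⟩ := ZMod.unitsMap_surjective (dvd_mul_right m e) (ZMod.unitOfCoprime j hj)
  refine ⟨ω ^ (U : ZMod (m * e)).val, hω.pow_of_coprime _ (ZMod.val_coe_unit_coprime U), ?_⟩
  have h2 : (U : ZMod (m * e)).val ≡ j [MOD m] := by
    rw [← ZMod.natCast_eq_natCast_iff]
    have := congrArg Units.val hU
    simpa [ZMod.unitsMap_def] using this
  rw [← pow_mul, mul_comm _ e, pow_mul, pow_eq_pow_mod _ h1.pow_eq_one, h2,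
    ← pow_eq_pow_mod _ h1.pow_eq_one]

end Pool.Agent.Tate
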