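import Pool.Agent.P.MP_2ce3e7_ag.UpDefs

/-! Auxiliary primes with prescribed quadratic symbols. -/

set_option autoImplicit false

noncomputable section

namespace Pool.Agent.Tate

theorem upPrime_recip {r d : ℕ} (hr : r.Prime) (hd : d.Prime) (hr3 : r % 4 = 3) (hd2 : d ≠ 2)
    (hne : d < r) : IsSquare (d : ZMod r) ↔ IsSquare (-(r : ZMod d)) := by
  have := Fact.mk hr
  have := Fact.mk hd
  have h1 : ((d : ℕ) : ZMod r) ≠ 0 := by
    rw [Ne, ZMod.natCast_eq_zero_iff]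
    exact fun h => absurd (Nat.le_of_dvd hd.pos h) (by omega)
  have h2 : (((-(r : ℤ) : ℤ)) : ZMod d) ≠ 0 := by
    rw [Int.cast_neg, Int.cast_natCast, neg_ne_zero, Ne, ZMod.natCast_eq_zero_iff]
    intro h
    have := (Nat.prime_dvd_prime_iff_eq hd hr).1 h
    omega
  have e : -(r : ZMod d) = (((-(r : ℤ) : ℤ)) : ZMod d) := by simp
  rw [e, ← legendreSym.eq_one_iff' r h1, ← legendreSym.eq_one_iff d h2,
    legendreSym.at_neg hd2]
  have hodd : d % 2 = 1 := (Nat.Prime.mod_two_eq_one_iff_ne_two hd).2 hd2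
  have : d % 4 = 1 ∨ d % 4 = 3 := by omega
  rcases this with h | h
  · rw [ZMod.χ₄_nat_one_mod_four h, one_mul,
      legendreSym.quadratic_reciprocity_one_mod_four h (q := r) (by omega)]
  · rw [ZMod.χ₄_nat_three_mod_four h, neg_one_mul,
      legendreSym.quadratic_reciprocity_three_mod_four h hr3]

theorem upPrime_sq {M r : ℕ} (hM : M ≠ 0) (hr : r.Prime) (hr3 : r % 4 = 3) (hMr : M < r)
    (h2 : 2 ∣ M → r % 8 = 7) {u : ZMod M} (hu : (r : ZMod M) = -u ^ 2) :
    ∀ d : ℕ, d.Prime → d ∣ M → IsSquare (d : ZMod r) := by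
  intro d hd hdM
  by_cases hd2 : d = 2
  · subst hd2
    have := Fact.mk hr
    have h := (ZMod.exists_sq_eq_two_iff (p := r) (by omega)).2 (Or.inr (h2 hdM))
    exact_mod_cast h
  · have hle : d ≤ M := Nat.le_of_dvd (Nat.pos_of_ne_zero hM) hdM
    rw [upPrime_recip hr hd hr3 hd2 (by omega)]
    have h := congrArg (ZMod.castHom hdM (ZMod d)) hu
    rw [map_natCast, map_neg, map_pow] at h
    rw [h, neg_neg]
    exact ⟨_, pow_two _⟩

theorem upPrime_crt {a b : ℕ} (ha : a ≠ 0) (hb : b ≠ 0) (hab : a.Coprime b) {x : ZMod a}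
    {y : ZMod b} (hx : IsUnit x) (hy : IsUnit y) (B : ℕ) :
    ∃ r : ℕ, r.Prime ∧ B < r ∧ (r : ZMod a) = x ∧ (r : ZMod b) = y := by
  have : NeZero (a * b) := ⟨mul_ne_zero ha hb⟩
  have hz : IsUnit ((ZMod.chineseRemainder hab).symm (x, y)) :=
    (Prod.isUnit_iff.2 ⟨hx, hy⟩ : IsUnit (x, y)).map _
  obtain ⟨r, hB, hr, e⟩ := Nat.forall_exists_prime_gt_and_eq_mod hz B
  have h := congrArg (ZMod.chineseRemainder hab) e
  rw [map_natCast, RingEquiv.apply_symm_apply] at h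
  exact ⟨r, hr, hB, congrArg Prod.fst h, congrArg Prod.snd h⟩

theorem upPrime_mod8 {r k : ℕ} (hk : k < 8) (h : (r : ZMod 8) = (k : ℕ)) : r % 8 = k := by
  rw [ZMod.natCast_eq_natCast_iff'] at h
  omega

theorem upPrime_odd_sq {t : ℕ} (ht : Odd t) : -(t : ZMod 8) ^ 2 = ((7 : ℕ) : ZMod 8) := by
  have h : t % 8 = 1 ∨ t % 8 = 3 ∨ t % 8 = 5 ∨ t % 8 = 7 := by
    have := Nat.odd_iff.1 ht
    omega
  rw [← ZMod.natCast_mod t 8]
  rcases h with h | h | h | h <;> rw [h] <;> decide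

theorem upPrime_big {M b t : ℕ} (hM : M ≠ 0) (hb : b ≠ 0) (hab : (8 * M).Coprime b)
    (ht : Odd t) (htM : t.Coprime M) {y : ZMod b} (hy : IsUnit y) (B : ℕ) :
    ∃ r : ℕ, r.Prime ∧ B < r ∧ r % 8 = 7 ∧ (r : ZMod M) = -(t : ZMod M) ^ 2 ∧
      (r : ZMod b) = y := by
  have h8 : t.Coprime 8 := by
    have : t.Coprime 2 := (Nat.coprime_two_right).2 ht
    exact this.pow_right 3
  have hx : IsUnit (-(t : ZMod (8 * M)) ^ 2) :=
    (((ZMod.isUnit_iff_coprime t (8 * M)).2 (h8.mul_right htM)).pow 2).neg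
  obtain ⟨r, hr, hB, e1, e2⟩ := upPrime_crt (mul_ne_zero (by norm_num) hM) hb hab hx hy B
  refine ⟨r, hr, hB, ?_, ?_, e2⟩
  · have h := congrArg (ZMod.castHom (dvd_mul_right 8 M) (ZMod 8)) e1
    rw [map_natCast, map_neg, map_pow, map_natCast, upPrime_odd_sq ht] at h
    exact upPrime_mod8 (by norm_num) h
  · have h := congrArg (ZMod.castHom (dvd_mul_left M 8) (ZMod M)) e1
    rwa [map_natCast, map_neg, map_pow, map_natCast] at h

theorem exists_sq_prime {M : ℕ} (hM : M ≠ 0) (B : ℕ) : ∃ r : ℕ, r.Prime ∧ B < r ∧ r % 4 = 3 ∧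
    ∀ d : ℕ, d.Prime → d ∣ M → IsSquare (d : ZMod r) := by
  obtain ⟨r, hr, hB, h8, e, -⟩ := upPrime_big (b := 1) (t := 1) hM one_ne_zero
    (Nat.coprime_one_right _) odd_one (Nat.coprime_one_left _) isUnit_one (max B M)
  have h1 : B < r := lt_of_le_of_lt (le_max_left _ _) hB
  have h2 : M < r := lt_of_le_of_lt (le_max_right _ _) hB
  exact ⟨r, hr, h1, by omega, upPrime_sq hM hr (by omega) h2 (fun _ => h8) e⟩

theorem exists_leg_prime {M p : ℕ} (hM0 : M ≠ 0) (hp : p.Prime)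
    (hpM : p.Coprime M) (s : (ZMod M)ˣ) (σ : Bool) (B : ℕ) :
    ∃ r : ℕ, r.Prime ∧ B < r ∧ r % 4 = 3 ∧ (r : ZMod M) = -(s : ZMod M) ^ 2 ∧
      (∀ d : ℕ, d.Prime → d ∣ M → IsSquare (d : ZMod r)) ∧
      (IsSquare (p : ZMod r) ↔ σ = true) := by
  have : NeZero M := ⟨hM0⟩
  by_cases hp2 : p = 2
  · subst hp2
    have h8M : (8 : ℕ).Coprime M := hpM.pow_left 3
    have hx : IsUnit (((if σ = true then 7 else 3 : ℕ)) : ZMod 8) := by
      rw [ZMod.isUnit_iff_coprime]
      split_ifs <;> norm_num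
    have hy : IsUnit (-(s : ZMod M) ^ 2) := (s.isUnit.pow 2).neg
    obtain ⟨r, hr, hB, e1, e2⟩ := upPrime_crt (by norm_num) hM0 h8M hx hy (max B M)
    have h1 : B < r := lt_of_le_of_lt (le_max_left _ _) hB
    have h2 : M < r := lt_of_le_of_lt (le_max_right _ _) hB
    have e3 := upPrime_mod8 (by split_ifs <;> norm_num) e1
    have h4 : r % 4 = 3 := by split_ifs at e3 <;> omega
    refine ⟨r, hr, h1, h4, e2, upPrime_sq hM0 hr h4 h2 (fun h => ?_) e2, ?_⟩
    · exact absurd (Nat.Coprime.eq_one_of_dvd hpM h) (by norm_num)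
    · have := Fact.mk hr
      have h := ZMod.exists_sq_eq_two_iff (p := r) (by omega)
      rw [Nat.cast_ofNat, h]
      cases σ
      · simp only [Bool.false_eq_true, if_false] at e3
        simp [e3]
      · simp only [if_true] at e3
        simp [e3]
  · have := Fact.mk hp
    obtain ⟨t, ht, hts⟩ : ∃ t : ℕ, Odd t ∧ (t : ZMod M) = s := by
      rcases Nat.even_or_odd (s : ZMod M).val with h | h
      · refine ⟨(s : ZMod M).val + M, ?_, by simp⟩
        refine h.add_odd ?_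
        by_contra hM2
        have h2 : 2 ∣ M := even_iff_two_dvd.1 (Nat.not_odd_iff_even.1 hM2)
        have h3 := Nat.dvd_gcd (even_iff_two_dvd.1 h) h2
        rw [ZMod.val_coe_unit_coprime s] at h3
        omega
      · exact ⟨_, h, by simp⟩
    have htM : t.Coprime M := by
      rw [← ZMod.isUnit_iff_coprime, hts]
      exact s.isUnit
    obtain ⟨w, hw0, hw⟩ : ∃ w : ZMod p, w ≠ 0 ∧ (IsSquare w ↔ σ = true) := by
      cases σ
      · obtain ⟨a, ha⟩ := FiniteField.exists_nonsquare (F := ZMod p)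
          (by rw [ZMod.ringChar_zmod_n]; exact hp2)
        refine ⟨a, ?_, by simp [ha]⟩
        rintro rfl
        exact ha IsSquare.zero
      · exact ⟨1, one_ne_zero, by simp⟩
    have hab : (8 * M).Coprime p := by
      have h2 : (2 : ℕ).Coprime p := (Nat.coprime_primes Nat.prime_two hp).2 (Ne.symm hp2)
      exact Nat.Coprime.mul_left (h2.pow_left 3) hpM.symm
    obtain ⟨r, hr, hB, h7, e1, e2⟩ := upPrime_big hM0 hp.ne_zero hab ht htM
      (y := -w) (IsUnit.mk0 w hw0).neg (max (max B M) p)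
    have h1 : B < r := lt_of_le_of_lt ((le_max_left _ _).trans (le_max_left _ _)) hB
    have h2 : M < r := lt_of_le_of_lt ((le_max_right _ _).trans (le_max_left _ _)) hB
    have h3 : p < r := lt_of_le_of_lt (le_max_right _ _) hB
    rw [hts] at e1
    refine ⟨r, hr, h1, by omega, e1, upPrime_sq hM0 hr (by omega) h2 (fun _ => h7) e1, ?_⟩
    rw [upPrime_recip hr hp (by omega) hp2 h3, e2, neg_neg, hw]

end Pool.Agent.Tate
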