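import Pool.Agent.P.MP_2ce3e7_ag.TQDefs
import Pool.Agent.P.MP_2ce3e7_ag.UpPrime
import Pool.Agent.P.MP_2ce3e7_ag.UpOrb

/-! Auxiliary primes modulo which the characteristic is not a square. -/

set_option autoImplicit false
set_option linter.unusedSectionVars false

noncomputable section

namespace Pool.Agent.Tate

open Pool.Agent.P.MP_e12fcd_ag.Fermat (bern tors mem_tors card_tors sum_tors_unit sum_tors_shift)

theorem tqPrime_core {p N K : ℕ} (hp : p.Prime) (hN : Odd N) (hpN : p.Coprime N)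
    (hK : p = 2 → K ≤ 2) (σ : (ZMod N)ˣ) (B : ℕ) : ∃ r : ℕ, r.Prime ∧ B < r ∧
      r ≡ 1 [MOD 2 ^ K] ∧ r % 4 = 1 ∧ (r : ZMod N) = σ ∧ ¬ IsSquare (p : ZMod r) := by
  have h2N : (2 : ℕ).Coprime N := Nat.coprime_two_left.2 hN
  by_cases hp2 : p = 2
  · subst hp2
    obtain ⟨r, hr, hB, e1, e2⟩ := upPrime_crt (a := 8) (by norm_num) hN.pos.ne' (h2N.pow_left 3)
      (x := ((5 : ℕ) : ZMod 8)) ((ZMod.isUnit_iff_coprime 5 8).2 (by norm_num)) σ.isUnit B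
    have e3 := upPrime_mod8 (by norm_num) e1
    have := Fact.mk hr
    refine ⟨r, hr, hB, Nat.ModEq.of_dvd (pow_dvd_pow 2 (hK rfl)) ?_, by omega, e2, ?_⟩
    · unfold Nat.ModEq
      omega
    · rw [Nat.cast_ofNat, ZMod.exists_sq_eq_two_iff (by omega)]
      omega
  · have := Fact.mk hp
    obtain ⟨w, hw⟩ := FiniteField.exists_nonsquare (F := ZMod p)
      (by rw [ZMod.ringChar_zmod_n]; exact hp2)
    have hw0 : w ≠ 0 := by
      rintro rfl
      exact hw IsSquare.zero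
    have hc := h2N.pow_left (K + 2)
    have h2p : (2 : ℕ).Coprime p := (Nat.coprime_primes Nat.prime_two hp).2 (Ne.symm hp2)
    obtain ⟨r, hr, hB, e1, e2⟩ := upPrime_crt (a := 2 ^ (K + 2) * N)
      (mul_ne_zero (by positivity) hN.pos.ne') hp.ne_zero
      ((h2p.pow_left _).mul_left hpN.symm) (x := (ZMod.chineseRemainder hc).symm (1, σ))
      ((Prod.isUnit_iff.2 ⟨isUnit_one, σ.isUnit⟩ : IsUnit ((1 : ZMod (2 ^ (K + 2))),
        (σ : ZMod N))).map _) (IsUnit.mk0 w hw0) B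
    have h := congrArg (ZMod.chineseRemainder hc) e1
    rw [map_natCast, RingEquiv.apply_symm_apply] at h
    have h1 : r ≡ 1 [MOD 2 ^ (K + 2)] := by
      rw [← ZMod.natCast_eq_natCast_iff, Nat.cast_one]
      exact congrArg Prod.fst h
    have h4 : r % 4 = 1 := h1.of_dvd (pow_dvd_pow 2 (Nat.le_add_left 2 K))
    have := Fact.mk hr
    refine ⟨r, hr, hB, h1.of_dvd (pow_dvd_pow 2 (Nat.le_add_right K 2)), h4, congrArg Prod.snd h, ?_⟩
    rw [ZMod.exists_sq_eq_prime_iff_of_mod_four_eq_one h4 hp2, e2]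
    exact hw

theorem tqPrime_pow {s w : ℤ} {i : ℕ} (hi : 2 ≤ i) (hw : Odd w) (hs : s = 1 + 2 ^ i * w) (j : ℕ) :
    ∃ v : ℤ, Odd v ∧ s ^ 2 ^ j = 1 + 2 ^ (i + j) * v := by
  induction j with
  | zero => exact ⟨w, hw, by simpa using hs⟩
  | succ j ih =>
    obtain ⟨v, hv, h⟩ := ih
    obtain ⟨i', rfl⟩ := Nat.exists_eq_add_of_le' hi
    refine ⟨v + 2 * (2 ^ (i' + j) * v ^ 2), hv.add_even (even_two_mul _), ?_⟩
    rw [pow_succ, pow_mul, h]
    ring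

theorem tqPrime_lift {s w : ℤ} {i : ℕ} (hi : 2 ≤ i) (hw : Odd w) (hs : s = 1 + 2 ^ i * w) (j : ℕ)
    (u : ℤ) (hu : 2 ^ i ∣ u - 1) : ∃ k : ℕ, 2 ^ (i + j) ∣ u - s ^ k := by
  have hso : Odd s := by
    rw [hs]
    exact odd_one.add_even ((even_two.pow_of_ne_zero (by omega)).mul_right w)
  induction j with
  | zero => exact ⟨0, by simpa using hu⟩
  | succ j ih =>
    obtain ⟨k, a, ha⟩ := ih
    rcases Int.even_or_odd a with ⟨b, hb⟩ | hodd
    · exact ⟨k, b, by rw [ha, hb]; ring⟩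
    · obtain ⟨v, hv, h⟩ := tqPrime_pow hi hw hs j
      obtain ⟨b, hb⟩ := hodd.sub_odd (hv.mul (hso.pow (n := k)))
      refine ⟨k + 2 ^ j, b, ?_⟩
      rw [pow_add s, h]
      linear_combination ha + 2 ^ (i + j) * hb

theorem tqPrime_sq {q : ℕ} (hq : q.Prime) {x : ℤ} (h : jacobiSym x q = 1) :
    IsSquare (x : ZMod q) ∧ (x : ZMod q) ≠ 0 := by
  have := Fact.mk hq
  rw [← jacobiSym.legendreSym.to_jacobiSym] at h
  have h0 : (x : ZMod q) ≠ 0 := fun h0 => by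
    rw [(legendreSym.eq_zero_iff q x).2 h0] at h
    exact zero_ne_one h
  exact ⟨(legendreSym.eq_one_iff q h0).1 h, h0⟩

theorem exists_nonsq_prime {p N K : ℕ} (hp : p.Prime) (hN : Odd N) (hpN : p.Coprime N)
    (hK : p = 2 → K ≤ 2) (σ : (ZMod N)ˣ) (B : ℕ) : ∃ r : ℕ, r.Prime ∧ B < r ∧
      r ≡ 1 [MOD 2 ^ K] ∧ (r : ZMod N) = σ ∧ ¬ IsSquare (p : ZMod r) := by
  obtain ⟨r, h1, h2, h3, -, h4, h5⟩ := tqPrime_core hp hN hpN hK σ B
  exact ⟨r, h1, h2, h3, h4, h5⟩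

theorem exists_nonsq_prime' {p M : ℕ} (hp : p.Prime) (h4 : ¬ 4 ∣ M) (hpM : p.Coprime M)
    (σ : (ZMod M)ˣ) (B : ℕ) : ∃ r : ℕ, r.Prime ∧ B < r ∧ r % 4 = 1 ∧ (r : ZMod M) = σ ∧
      ¬ IsSquare (p : ZMod r) := by
  rcases Nat.even_or_odd M with ⟨N, hN⟩ | hM
  · rw [← two_mul] at hN
    subst hN
    have hN : Odd N := Nat.odd_iff.2 (by omega)
    have : NeZero (2 * N) := ⟨by omega⟩
    have hs := ZMod.val_coe_unit_coprime σ
    obtain ⟨r, h1, h2, -, h3, h5, h6⟩ := tqPrime_core (K := 0) hp hN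
      (hpM.coprime_dvd_right (dvd_mul_left N 2)) (fun _ => zero_le_two)
      (ZMod.unitOfCoprime _ (hs.coprime_dvd_right (dvd_mul_left N 2))) B
    refine ⟨r, h1, h2, h3, ?_, h6⟩
    rw [ZMod.coe_unitOfCoprime, ZMod.natCast_eq_natCast_iff] at h5
    rw [← ZMod.natCast_zmod_val (σ : ZMod (2 * N)), ZMod.natCast_eq_natCast_iff]
    refine (Nat.modEq_and_modEq_iff_modEq_mul (Nat.coprime_two_left.2 hN)).1 ⟨?_, h5⟩
    have h7 := Nat.odd_iff.1 (Nat.coprime_two_right.1 (hs.coprime_dvd_right (dvd_mul_right 2 N)))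
    unfold Nat.ModEq
    omega
  · obtain ⟨r, h1, h2, -, h3, h5, h6⟩ := tqPrime_core (K := 0) hp hM hpM (fun _ => zero_le_two) σ B
    exact ⟨r, h1, h2, h3, h5, h6⟩

theorem exists_orb_two {N p : ℕ} (hN : Odd N) (hp : 1 < p) (hc : p.Coprime (N * 2)) :
    ∃ i : ℕ, 0 < i ∧ ∀ B u : ℕ, u ≡ 1 [MOD N * 2 ^ i] → ∃ s : ℕ, p ^ s ≡ u [MOD N * 2 ^ B] := by
  have hN0 : 0 < N := hN.pos
  have h1 : p ^ N.totient ≡ 1 [MOD N] :=
    Nat.ModEq.pow_totient (hc.coprime_dvd_right (dvd_mul_right N 2))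
  have hpo : Odd p := Nat.coprime_two_right.1 (hc.coprime_dvd_right (dvd_mul_left 2 N))
  have h3 : 1 < (p ^ N.totient) ^ 2 :=
    Nat.one_lt_pow two_ne_zero (Nat.one_lt_pow (Nat.totient_pos.2 hN0).ne' hp)
  obtain ⟨i, w, hw, h4⟩ := Nat.exists_eq_pow_mul_and_not_dvd
    (n := (p ^ N.totient) ^ 2 - 1) (by omega) 2 (by norm_num)
  have h5 : 2 ≤ i := by
    have h6 := Nat.eight_dvd_sq_sub_one_of_odd (hpo.pow (n := N.totient))
    rw [h4] at h6
    by_contra h7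
    have h8 : i = 0 ∨ i = 1 := by omega
    rcases h8 with rfl | rfl <;> omega
  have h6 : (((p ^ N.totient) ^ 2 : ℕ) : ℤ) = 1 + 2 ^ i * (w : ℤ) := by
    have : (p ^ N.totient) ^ 2 = 1 + 2 ^ i * w := by omega
    exact_mod_cast this
  refine ⟨i, by omega, fun B u hu => ?_⟩
  obtain ⟨k, hk⟩ := tqPrime_lift h5 (Int.odd_coe_nat w |>.2 (Nat.odd_iff.2 (by omega))) h6 B (u : ℤ)
    (by exact_mod_cast (hu.of_mul_left N).symm.dvd)
  refine ⟨N.totient * 2 * k, ?_⟩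
  rw [pow_mul, pow_mul]
  refine (Nat.modEq_and_modEq_iff_modEq_mul
    ((Nat.coprime_two_right.2 hN).pow_right B)).1 ⟨?_, ?_⟩
  · have := (h1.pow 2).pow k
    rw [one_pow, one_pow] at this
    exact this.trans (hu.of_mul_right _).symm
  · refine Nat.ModEq.of_dvd (pow_dvd_pow 2 (Nat.le_add_left B i)) (Nat.modEq_iff_dvd.2 ?_)
    exact_mod_cast hk

theorem exists_chi4 {r : ℕ} [Fact r.Prime] (h : r % 4 = 1) {x : (ZMod r)ˣ}
    (hx : ¬ IsSquare (x : ZMod r)) : ∃ χ : (ZMod r)ˣ →* Multiplicative (ZMod 4),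
      χ x = Multiplicative.ofAdd 1 := by
  obtain ⟨g, hg⟩ := IsCyclic.exists_generator (α := (ZMod r)ˣ)
  have ho : orderOf g = r - 1 := by
    rw [orderOf_eq_card_of_forall_mem_zpowers hg, Nat.card_eq_fintype_card, ZMod.card_units]
  obtain ⟨j, rfl⟩ := (mem_powers_iff_mem_zpowers.2 (hg x))
  have hj : Odd j := by
    refine Nat.not_even_iff_odd.1 ?_
    rintro ⟨c, rfl⟩
    exact hx ⟨(g : ZMod r) ^ c, by simp only [pow_add, Units.val_mul, Units.val_pow_eq_pow_val]⟩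
  have h1 : orderOf (Multiplicative.ofAdd (j : ZMod 4)) ∣ orderOf g := by
    refine (orderOf_dvd_of_pow_eq_one (n := 4) ?_).trans (by rw [ho]; omega)
    generalize (j : ZMod 4) = a
    revert a
    decide
  refine ⟨monoidHomOfForallMemZpowers hg h1, ?_⟩
  rw [map_pow, monoidHomOfForallMemZpowers_apply_gen, ← ofAdd_nsmul, nsmul_eq_mul,
    ← ZMod.natCast_mod j 4]
  have h2 : j % 4 = 1 ∨ j % 4 = 3 := by
    have := Nat.odd_iff.1 hj
    omega
  rcases h2 with h2 | h2 <;> rw [h2] <;> decide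

theorem not_isSquare_pow {r : ℕ} [Fact r.Prime] {x : ZMod r} (hx : ¬ IsSquare x) {f : ℕ}
    (hf : Odd f) : ¬ IsSquare (x ^ f) := by
  obtain ⟨m, rfl⟩ := hf
  have h0 : x ≠ 0 := by
    rintro rfl
    exact hx IsSquare.zero
  rintro ⟨y, hy⟩
  refine hx ⟨y / x ^ m, ?_⟩
  rw [div_mul_div_comm, ← hy]
  field_simp
  ring

/-- the three ways in which the condition on the Jacobi symbols can hold -/
theorem jac_cases {p M : ℕ} (hp : p.Prime) (h2 : p ≠ 2) (hpM : p.Coprime M) (hA : Adm M)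
    (hJ : ∀ d : ℕ, d ∣ M → d % 8 = 7 → jacobiSym p d = 1) : ∃ x : ℤ,
      (x = -2 ∨ x = p ∨ x = 2 * p) ∧ ∀ q : ℕ, q.Prime → q ∣ M → q ≠ 2 →
        IsSquare (x : ZMod q) ∧ (x : ZMod q) ≠ 0 := by
  have h8 : ∀ q : ℕ, q.Prime → q ∣ M → q ≠ 2 → q % 8 = 3 ∨ q % 8 = 7 := fun q hq hM hq2 => by
    have := (hA q hq hM).resolve_left hq2
    omega
  by_cases h7 : ∃ l : ℕ, l.Prime ∧ l ∣ M ∧ l % 8 = 7
  swap
  · refine ⟨-2, Or.inl rfl, fun q hq hM hq2 => tqPrime_sq hq ?_⟩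
    have h3 : q % 8 = 3 := (h8 q hq hM hq2).resolve_right fun h => h7 ⟨q, hq, hM, h⟩
    rw [jacobiSym.at_neg_two (Nat.odd_iff.2 (by omega)), ZMod.χ₈'_nat_eq_if_mod_eight,
      if_neg (by omega), if_pos (Or.inr h3)]
  obtain ⟨l, hl, hlM, hl7⟩ := h7
  by_cases h3 : ∀ q : ℕ, q.Prime → q ∣ M → q % 8 = 3 → jacobiSym p q = 1
  · exact ⟨p, Or.inr (Or.inl rfl), fun q hq hM hq2 => tqPrime_sq hq
      ((h8 q hq hM hq2).elim (h3 q hq hM) (hJ q hM))⟩
  push Not at h3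
  obtain ⟨q0, hq0, hM0, h03, hne⟩ := h3
  have hm : jacobiSym p q0 = -1 := (jacobiSym.eq_one_or_neg_one (by
    rw [Int.gcd_natCast_natCast]
    exact hpM.coprime_dvd_right hM0)).resolve_left hne
  refine ⟨2 * p, Or.inr (Or.inr rfl), fun q hq hM hq2 => tqPrime_sq hq ?_⟩
  have hq8 := h8 q hq hM hq2
  rw [jacobiSym.mul_left, jacobiSym.at_two (Nat.odd_iff.2 (by omega)),
    ZMod.χ₈_nat_eq_if_mod_eight, if_neg (by omega)]
  rcases hq8 with h | h
  · rw [if_neg (by omega)]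
    by_cases e : q = q0
    · rw [e, hm]
      norm_num
    · have c1 : l.Coprime q := (Nat.coprime_primes hl hq).2 (by omega)
      have c2 : l.Coprime q0 := (Nat.coprime_primes hl hq0).2 (by omega)
      have c3 : q.Coprime q0 := (Nat.coprime_primes hq hq0).2 e
      have h5 := hJ (l * q * q0) ((c2.mul_left c3).mul_dvd_of_dvd_of_dvd
        (c1.mul_dvd_of_dvd_of_dvd hlM hM) hM0) (by
          rw [Nat.mul_mod, Nat.mul_mod l, hl7, h, h03])
      rw [jacobiSym.mul_right' _ (mul_ne_zero hl.ne_zero hq.ne_zero) hq0.ne_zero,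
        jacobiSym.mul_right' _ hl.ne_zero hq.ne_zero, hJ l hlM hl7, hm] at h5
      linarith
  · rw [if_pos (Or.inr h), hJ q hM h, mul_one]

end Pool.Agent.Tate
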