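import Pool.Agent.P.MP_2ce3e7_ag.TQFour
import Pool.Agent.P.MP_2ce3e7_ag.TQPrime
import Pool.Agent.P.MP_2ce3e7_ag.TQParA

/-! Invariant distributions that vanish on the elements of even order. -/

set_option autoImplicit false
set_option linter.unusedSectionVars false

noncomputable section

namespace Pool.Agent.Tate

open Pool.Agent.P.MP_e12fcd_ag.Fermat (bern tors mem_tors card_tors sum_tors_unit sum_tors_shift)

variable {M : ℕ} [NeZero M]

theorem Kb.lin (hA : Adm M) {Y : Type} [AddCommGroup Y] {G : ZMod M → Y} (hG : Dist M G)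
    (hk : Kb M G) {η : ZMod M → ℤ} (h : ∑ c, η c • th c = 0) : ∑ c, η c • G c = 0 := by
  obtain ⟨ι, _, c, hc⟩ := exists_fam η
  rw [hc _ G hG.neg]
  exact hk ι c (fun i l hl hd => hA l hl (hd.trans (ord_dvd _))) (by rw [← hc _ th th_neg, h])

theorem vq_four {c : ZMod M} (hc : Oa (addOrderOf c)) : vq (2 * (2 * c)) = vq c := by
  obtain ⟨t, t1, t2⟩ := odd_unit_adm (M := M) 4 fun q hq _ h3 => ⟨⟨2, by norm_num⟩, fun h => by
    have := (Nat.prime_dvd_prime_iff_eq hq Nat.prime_two).1 (hq.dvd_of_dvd_pow (n := 2)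
      ((ZMod.natCast_eq_zero_iff 4 q).1 (by exact_mod_cast h)))
    omega⟩
  rw [← vq_mul t1 c, t2 c hc.odd hc.adm]
  congr 1
  push_cast
  ring

theorem Oa.mul {b : ZMod M} (h : Oa (addOrderOf b)) (u : ZMod M) : Oa (addOrderOf (u * b)) :=
  fun l hl hd => h l hl (hd.trans (ord_dvd_iff.2 (by
    rw [mul_left_comm, ord_dvd_iff.1 dvd_rfl, mul_zero])))

open Classical in
theorem odd_dist (hQ : Qr M) :
    Dist M fun b => if Oa (addOrderOf b) then vq b + vq (2 * b) else 0 := by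
  refine oa_dist (fun b => by rw [mul_neg, vq_dist.neg, vq_dist.neg, neg_add])
    (fun d hd hdM h3 b => ?_) fun d hd hdM h3 c hc => ?_
  · have e := sum_tors_coprime (a := 2) (d := d) ((Nat.coprime_primes Nat.prime_two hd).2
      (by omega)) fun z => vq (2 * b + z)
    simp only [Finset.sum_add_distrib, mul_add]
    rw [Nat.cast_ofNat] at e
    rw [e, vq_dist.dist d hd hdM, vq_dist.dist d hd hdM, mul_left_comm]
  · by_cases h2 : d = 2
    · rw [h2, Nat.cast_ofNat, vq_four hc, add_comm]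
    obtain ⟨t, t1, t2⟩ := hQ.unit hd hdM (by have := hd.eq_two_or_odd; omega)
    rw [mul_left_comm, ← t2 c hc, ← t2 _ (hc.mul 2), vq_mul t1, vq_mul t1]

theorem sum_Qo_lift {N : ℕ} [NeZero N] (h : N ∣ M) {Y : Type} [AddCommMonoid Y]
    (F : (ZMod N)ˣ → Y) :
    (Qo M).card • ∑ s ∈ Qo N, F s = (Qo N).card • ∑ t ∈ Qo M, F (ZMod.unitsMap h t) := by
  rw [← Finset.sum_const, ← Finset.sum_const, ← Finset.sum_congr rfl fun t ht =>
    sum_Qo_mul ((mem_Qo.1 ht).of_dvd_nat (orderOf_map_dvd (ZMod.unitsMap h) t)) F,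
    Finset.sum_comm]
  refine Finset.sum_congr rfl fun s hs => ?_
  obtain ⟨u, hu, rfl⟩ := exists_odd_lift h (mem_Qo.1 hs)
  rw [← sum_Qo_mul hu fun t => F (ZMod.unitsMap h t)]
  simp only [map_mul, mul_comm]

section Core
variable (h4 : 4 ∣ M) {Y : Type} [AddCommGroup Y] {G : ZMod M → Y} (hG : Dist M G)
  (hi : Gal G) (he : ∀ c, Even (addOrderOf c) → G c = 0) (hk : Kb M G) {ι : Type} [Fintype ι]
  {b : ι → ZMod M}
include h4 hG hi he hk

theorem par_core (hA : Adm M) (hb : ∀ i, Odd (addOrderOf (b i)))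
    (h : ∑ i, (vq (b i) + vq (2 * b i)) = 0) : ∑ i, G (b i) = 0 := by
  classical
  let T := (Fintype.linearCombination ℤ (th : ZMod M → _)).toAddMonoidHom
  let Γ := (Fintype.linearCombination ℤ G).toAddMonoidHom
  let e : ZMod M → ZMod M → ℤ := fun c => ∑ t ∈ Qo M, Pi.single ((t : ZMod M) * c) 1
  have hT : ∀ c, T (e c) = vq c := fun c => by simp [T, e, vq]
  have hΓ : ∀ c, Γ (e c) = ∑ t ∈ Qo M, G ((t : ZMod M) * c) := fun c => by simp [Γ, e]
  let π := QuotientAddGroup.mk' (Γ.ker.map (2 • T))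
  have key := two_inv hA (vq_dist.map π) (fun t ht c => by rw [vq_mul ht]) (fun c hc => by
    rw [← map_nsmul]
    refine (QuotientAddGroup.eq_zero_iff _).2 ⟨e c, ?_, by rw [← hT]; rfl⟩
    change Γ (e c) = 0
    rw [hΓ]
    exact Finset.sum_eq_zero fun t _ => he _ (by rwa [ord_unit_mul])) h4
  have h1 := congrArg π h
  simp only [map_sum, map_add, map_zero, key _ (hb _), ← two_nsmul] at h1
  rw [Finset.sum_nsmul, ← map_sum, ← map_nsmul] at h1
  obtain ⟨η, h2, h3⟩ := (QuotientAddGroup.eq_zero_iff _).1 h1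
  have h5 : T (∑ i, e (b i) - η) = 0 := by
    rw [map_sub, map_sum, sub_eq_zero]
    simp only [hT]
    exact (nsmul_right_injective two_ne_zero h3).symm
  have h6 : Γ (∑ i, e (b i) - η) = 0 := hk.lin hA hG h5
  rw [map_sub, show Γ η = 0 from h2, sub_zero, map_sum] at h6
  simp only [hΓ] at h6
  exact hi.odd hG h6

open Classical in
theorem par_fin (h : ∑ i, (if Oa (addOrderOf (b i)) then vq (b i) + vq (2 * b i) else 0) = 0) :
    ∑ i, (if Adm (addOrderOf (b i)) then G (b i) else 0) = 0 := by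
  rw [← Finset.sum_filter, Finset.sum_subtype (p := fun i => Oa (addOrderOf (b i))) _
    (by simp)] at h
  have e : ∀ i, (if Adm (addOrderOf (b i)) then G (b i) else 0) =
      if Oa (addOrderOf (b i)) then G (b i) else 0 := fun i => by
    split_ifs with h1 h2 h3
    exacts [rfl, he _ (Nat.not_odd_iff_even.1 fun h => h2 (h1.oa h)), absurd h3.adm h1, rfl]
  simp only [e]
  rw [← Finset.sum_filter, Finset.sum_subtype (p := fun i => Oa (addOrderOf (b i))) _ (by simp)]
  let n := Finset.univ.lcm fun i : {i // Oa (addOrderOf (b i))} => addOrderOf (b i)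
  have hN : Nat.lcm 4 n ∣ M := Nat.lcm_dvd h4 (Finset.lcm_dvd fun i _ => ord_dvd _)
  have := upDefs_ne hN
  have hA : Adm (Nat.lcm 4 n) := fun l hl h => by
    rcases (Nat.Prime.dvd_mul hl).1 (h.trans (Nat.lcm_dvd_mul 4 n)) with h | h
    · exact Or.inl ((Nat.prime_dvd_prime_iff_eq hl Nat.prime_two).1
        (hl.dvd_of_dvd_pow (n := 2) h))
    · obtain ⟨i, -, hi⟩ := (hl.prime.dvd_finset_prod_iff _).1
        (h.trans (Finset.lcm_dvd_prod _ _))
      exact Or.inr (i.2 l hl hi)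
  choose c hc using fun i : {i // Oa (addOrderOf (b i))} => exists_lv hN (x := b i)
    (ord_dvd_iff.1 ((Finset.dvd_lcm (Finset.mem_univ i)).trans (Nat.dvd_lcm_right 4 n)))
  have h1 := sum_Qo_lift hN fun s => ∑ i, (th ((s : ZMod _) * c i) + th ((s : ZMod _) * (2 * c i)))
  rw [lam_eq_zero hN (y := ∑ t ∈ Qo M, _) (by
    rw [← h]
    simp only [map_sum, map_add, lam_th hN, vq, ← Finset.sum_add_distrib, ← hc]
    rw [Finset.sum_comm]
    refine Finset.sum_congr rfl fun i _ => Finset.sum_congr rfl fun t _ => ?_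
    have := natCast_mul_lv hN 2 (c i)
    simp only [Nat.cast_ofNat] at this
    rw [this, mul_lv hN, mul_lv hN]
    rfl), smul_zero, smul_eq_zero, Finset.sum_comm] at h1
  have h2 := par_core (Nat.dvd_lcm_left 4 n) (hG.res hN) (hi.res hN)
    (fun x hx => he _ (by rwa [addOrderOf_lv hN])) (hk.res hN) hA (b := c)
    (fun i => by rw [← addOrderOf_lv hN, hc]; exact i.2.odd) (by
      simpa only [vq, Finset.sum_add_distrib] using h1.resolve_left Qo_card.pos.ne')
  simpa only [hc] using h2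

theorem parityC (hQ : Qr M) (h : ∑ i, th (b i) = 0) : ∑ i, G (b i) = 0 := by
  rw [← cut_all h hG hi fun l hl hlM h1 q hq hqM hne => hQ l hl hlM h1 q hq hqM hne fun _ => h4]
  exact par_fin h4 hG hi he hk
    ((smul_eq_zero.1 ((odd_dist hQ).two_bal h)).resolve_left two_ne_zero)

end Core

variable (hA : Adm M) {p : ℕ} (hp : p.Prime) (h2 : p ≠ 2) (hpM : p.Coprime M)
  (hJ : ∀ d : ℕ, d ∣ M → d % 8 = 7 → jacobiSym p d = 1) {ι : Type} [Fintype ι]
  {b : ι → ZMod M} {f : ℕ} (hf : f ≠ 0)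
  (h : ∑ s ∈ Finset.range f, ∑ i, th ((p : ZMod M) ^ s * b i) = 0)
include hA hp h2 hpM hJ hf h

open Classical in
theorem odd_sum :
    ∑ i, (if Oa (addOrderOf (b i)) then vq (b i) + vq (2 * b i) else 0) = 0 := by
  obtain ⟨x, hx, hs⟩ := jac_cases hp h2 hpM hA hJ
  obtain ⟨t, t1, t2⟩ := odd_unit_adm (M := M) x fun q hq hqM h3 => hs q hq hqM (by omega)
  have t3 : ∀ c : ZMod M, Oa (addOrderOf c) → vq ((x : ZMod M) * c) = vq c := fun c hc => by
    rw [← t2 c hc.odd hc.adm, vq_mul t1]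
  obtain ⟨n, hn, H⟩ := w_lemma hf h
  have key : (∀ y : ZMod M, Oa (addOrderOf y) →
      vq ((p : ZMod M) * y) + vq (2 * ((p : ZMod M) * y)) = vq y + vq (2 * y)) →
      ∑ i, (if Oa (addOrderOf (b i)) then vq (b i) + vq (2 * b i) else 0) = 0 := fun h1 =>
    (smul_eq_zero.1 (H _ _ (odd_dist fun l hl hlM h4 => by have := hA l hl hlM; omega) fun y => by
      rw [ord_mul_coprime (hpM.coprime_dvd_right (ord_dvd y))]
      exact ite_congr rfl (h1 y) fun _ => rfl)).resolve_left hn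
  rcases hx with rfl | rfl | rfl
  · refine Finset.sum_eq_zero fun i _ => ?_
    split_ifs with hb
    · rw [← t3 _ hb, Int.cast_neg, neg_mul, vq_dist.neg, Int.cast_ofNat, neg_add_cancel]
    · rfl
  · refine key fun y hy => ?_
    rw [Int.cast_natCast] at t3
    rw [mul_left_comm, t3 _ hy, t3 _ (hy.mul 2)]
  · refine key fun y hy => ?_
    push_cast at t3
    rw [← vq_four (hy.mul p), ← t3 y hy, ← t3 _ (hy.mul 2), add_comm]
    congr 2 <;> ring

theorem parityB (h4 : 4 ∣ M) {Y : Type} [AddCommGroup Y] {G : ZMod M → Y} (hG : Dist M G)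
    (hi : Gal G) (he : ∀ c, Even (addOrderOf c) → G c = 0) (hk : Kb M G) :
    ∑ i, G (b i) = 0 := by
  have := par_fin h4 hG hi he hk (odd_sum hA hp h2 hpM hJ hf h)
  have e : ∀ i, Adm (addOrderOf (b i)) := fun i l hl hd => hA l hl (hd.trans (ord_dvd _))
  simpa only [e, if_true] using this

end Pool.Agent.Tate
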