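import Pool.Agent.P.MP_2ce3e7_ag.SsInv
import Pool.Agent.P.MP_2ce3e7_ag.SsStep
import Pool.Agent.P.MP_2ce3e7_ag.TQParB

/-! A lattice on which the units act trivially modulo two. -/

set_option autoImplicit false
set_option linter.unusedSectionVars false

noncomputable section

namespace Pool.Agent.Tate

open Pool.Agent.P.MP_e12fcd_ag.Fermat (bern tors mem_tors card_tors sum_tors_unit sum_tors_shift)

variable {M : ℕ} [NeZero M]

/-- the action of a unit on vectors -/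
def uact (t : (ZMod M)ˣ) : ((ZMod M)ˣ → ℤ) →+ ((ZMod M)ˣ → ℤ) where
  toFun y u := y (u * t)
  map_zero' := rfl
  map_add' _ _ := rfl

theorem uact_vq (t : (ZMod M)ˣ) (b : ZMod M) : uact t (vq b) = vq ((t : ZMod M) * b) := by
  funext u
  change vq b (u * t) = _
  simp only [vq, th, Finset.sum_apply, Units.val_mul]
  refine Finset.sum_congr rfl fun s _ => ?_
  congr 1
  ring

/-- orders that are four times an odd number or have all prime factors in `A` -/
def Ec (A : ℕ → Prop) (n : ℕ) : Prop := (4 ∣ n ∧ ¬ 8 ∣ n) ∨ ∀ l : ℕ, l.Prime → l ∣ n → l ≠ 2 ∧ A l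

/-- the lattice -/
def Lam (M : ℕ) [NeZero M] (A : ℕ → Prop) : AddSubgroup ((ZMod M)ˣ → ℤ) :=
  AddSubgroup.closure {y | ∃ c : ZMod M, Ec A (addOrderOf c) ∧ y = vq c}

/-- the vectors with an odd multiple in `2 ^ j` times the lattice -/
def Sat (M : ℕ) [NeZero M] (A : ℕ → Prop) (j : ℕ) : AddSubgroup ((ZMod M)ˣ → ℤ) where
  carrier := {y | ∃ n : ℕ, Odd n ∧ ∃ z ∈ Lam M A, n • y = 2 ^ j • z}
  zero_mem' := ⟨1, odd_one, 0, zero_mem _, by simp⟩
  add_mem' := by
    rintro y y' ⟨n, hn, z, hz, e⟩ ⟨n', hn', z', hz', e'⟩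
    refine ⟨n * n', hn.mul hn', n' • z + n • z', add_mem (nsmul_mem hz _) (nsmul_mem hz' _), ?_⟩
    rw [smul_add, smul_add, smul_comm (2 ^ j) n', smul_comm (2 ^ j) n, ← e, ← e', mul_smul n n' y',
      mul_comm, mul_smul]
  neg_mem' := by
    rintro y ⟨n, hn, z, hz, e⟩
    exact ⟨n, hn, -z, neg_mem hz, by rw [smul_neg, smul_neg, e]⟩

open Classical in
/-- the odd part of the averaged Bernoulli vector -/
def vD (b : ZMod M) : (ZMod M)ˣ → ℤ := if Oa (addOrderOf b) then vq b + vq (2 * b) else 0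

variable (hA : Adm M) (h4 : 4 ∣ M) {A : ℕ → Prop}
include hA

theorem vD_dist : Dist M (vD : ZMod M → _) :=
  odd_dist fun l hl hlM h => by have := hA l hl hlM; omega

omit hA in
theorem uact_vD (t : (ZMod M)ˣ) (b : ZMod M) : uact t (vD b) = vD ((t : ZMod M) * b) := by
  unfold vD
  rw [ord_unit_mul]
  split_ifs
  · rw [map_add, uact_vq, uact_vq, mul_left_comm]
  · exact map_zero _

omit hA in
theorem vD_mul {t : (ZMod M)ˣ} (ht : Odd (orderOf t)) (b : ZMod M) :
    vD ((t : ZMod M) * b) = vD b := by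
  unfold vD
  rw [ord_unit_mul, mul_left_comm, vq_mul ht, vq_mul ht]

omit hA in
theorem ssLam_hE (n q : ℕ) (hq : q.Prime) (h2 : q ≠ 2) (h : Ec A (n * q)) : Ec A n := by
  rcases h with ⟨a, b⟩ | h
  · refine Or.inl ⟨Nat.Coprime.dvd_of_dvd_mul_right ?_ a, fun e => b (e.mul_right q)⟩
    exact Nat.Coprime.pow_left 2 ((Nat.coprime_primes Nat.prime_two hq).2 h2.symm)
  · exact Or.inr fun l hl hd => h l hl (hd.mul_right q)

omit hA in
theorem ssLam_n8 {n : ℕ} (h : Ec A n) : ¬ 8 ∣ n := by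
  rcases h with ⟨-, b⟩ | h
  · exact b
  · exact fun e => (h 2 Nat.prime_two (Dvd.dvd.trans (by norm_num) e)).1 rfl

omit hA in
theorem ssLam_mem {c : ZMod M} (hc : Ec A (addOrderOf c)) : vq c ∈ Lam M A :=
  AddSubgroup.subset_closure ⟨c, hc, rfl⟩

omit hA in
theorem ssLam_tw (c : ZMod M) (hc : Ec A (addOrderOf c)) :
    2 • vq c ∈ (Lam M A).map (nsmulAddMonoidHom 2) :=
  AddSubgroup.mem_map_of_mem (nsmulAddMonoidHom 2) (ssLam_mem hc)

omit hA in
theorem ssLam_q {Y : Type} [AddCommGroup Y] {K : AddSubgroup Y} {x y : Y}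
    (h : QuotientAddGroup.mk' K x = QuotientAddGroup.mk' K y) : x - y ∈ K := by
  rw [← sub_eq_zero, ← map_sub] at h
  exact (QuotientAddGroup.eq_zero_iff _).1 h

omit hA in
theorem ssLam_two {j : ℕ} {y : (ZMod M)ˣ → ℤ} (hy : y ∈ Sat M A j) : 2 • y ∈ Sat M A (j + 1) := by
  obtain ⟨n, hn, z, hz, e⟩ := hy
  exact ⟨n, hn, z, hz, by rw [smul_comm, e, pow_succ', mul_smul]⟩

omit hA in
theorem ssLam_odd {j n : ℕ} (hn : Odd n) {y : (ZMod M)ˣ → ℤ} (hy : n • y ∈ Sat M A j) :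
    y ∈ Sat M A j := by
  obtain ⟨m, hm, z, hz, e⟩ := hy
  exact ⟨m * n, hm.mul hn, z, hz, by rw [mul_smul, e]⟩

omit hA in
theorem ssLam_down {j : ℕ} {y : (ZMod M)ˣ → ℤ} (hy : 2 ^ j • y ∈ Sat M A (j + 1)) :
    y ∈ Sat M A 1 := by
  obtain ⟨n, hn, z, hz, e⟩ := hy
  refine ⟨n, hn, z, hz, nsmul_right_injective (pow_ne_zero j (two_ne_zero (α := ℕ))) ?_⟩
  change 2 ^ j • n • y = 2 ^ j • 2 ^ 1 • z
  rw [smul_comm, e, pow_add, mul_smul]

omit hA in
theorem ssLam_add {Y : Type} [AddCommGroup Y] {g g' : ZMod M → Y} (hg : Dist M g)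
    (hg' : Dist M g') : Dist M fun b => g b + g' b := by
  refine ⟨fun b => by rw [hg.neg, hg'.neg, neg_add], fun d hd hdL b => ?_⟩
  rw [Finset.sum_add_distrib, hg.dist d hd hdL, hg'.dist d hd hdL]

include h4

theorem ssLam_act {z : (ZMod M)ˣ → ℤ} (hz : z ∈ Lam M A) (t : (ZMod M)ˣ) :
    uact t z - z ∈ (Lam M A).map (nsmulAddMonoidHom 2) := by
  induction hz using AddSubgroup.closure_induction with
  | mem y hy =>
    obtain ⟨c, hc, rfl⟩ := hy
    have key := cls_inv hA h4 (E := Ec A)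
      (vq_dist.map (QuotientAddGroup.mk' ((Lam M A).map (nsmulAddMonoidHom 2))))
      (fun t ht c => congrArg _ (vq_mul ht c)) ssLam_hE (fun c hc => by
        rw [← map_nsmul]
        exact (QuotientAddGroup.eq_zero_iff _).2 (ssLam_tw c hc)) c hc
      (ssLam_n8 hc) t
    rw [uact_vq]
    exact ssLam_q key
  | zero => simp
  | add x y _ _ hx hy =>
    rw [map_add, add_sub_add_comm]
    exact add_mem hx hy
  | neg x _ hx =>
    rw [map_neg, ← neg_sub']
    exact neg_mem hx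

theorem sat_act {j : ℕ} {y : (ZMod M)ˣ → ℤ} (hy : y ∈ Sat M A j) (t : (ZMod M)ˣ) :
    uact t y - y ∈ Sat M A (j + 1) := by
  obtain ⟨n, hn, z, hz, e⟩ := hy
  obtain ⟨z', hz', e'⟩ := ssLam_act hA h4 hz t
  refine ⟨n, hn, z', hz', ?_⟩
  change 2 • z' = _ at e'
  rw [smul_sub, ← map_nsmul, e, map_nsmul, ← smul_sub, ← e', pow_succ, mul_smul]

theorem sat_two {b : ZMod M} (hb : Odd (addOrderOf b)) : vq (2 * b) - vq b ∈ Sat M A 1 := by
  have key := cls_two hA h4 (E := Ec A)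
    (vq_dist.map (QuotientAddGroup.mk' ((Lam M A).map (nsmulAddMonoidHom 2))))
    (fun t ht c => congrArg _ (vq_mul ht c)) ssLam_hE (fun c hc => by
        rw [← map_nsmul]
        exact (QuotientAddGroup.eq_zero_iff _).2 (ssLam_tw c hc))
    (fun n a b => Or.inl ⟨a, b⟩) b hb
  obtain ⟨z, hz, e⟩ := ssLam_q key
  exact ⟨1, odd_one, z, hz, by rw [one_smul, ← e, pow_one]; rfl⟩

theorem sat_ind {ι : Type} [Fintype ι] {b : ι → ZMod M}
    (h : ∀ l : ℕ, ∀ hl : l ∣ M, l.Prime → l ≠ 2 → ¬ A l → ∃ τ : (ZMod M)ˣ,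
      (∀ c : ZMod M, ¬ l ∣ addOrderOf c → (τ : ZMod M) * c = c) ∧
      ¬ IsSquare (ZMod.castHom hl (ZMod l) τ) ∧ ∑ i, vD ((τ : ZMod M) * b i) = ∑ i, vD (b i)) :
    ∑ i, vD (b i) ∈ Sat M A 1 := by
  classical
  have key : ∀ R : Finset ℕ, (∀ l ∈ R, l ∣ M ∧ l.Prime ∧ l ≠ 2 ∧ ¬ A l) →
      ∃ F : ZMod M → (ZMod M)ˣ → ℤ, Dist M F ∧
        (∀ (t : (ZMod M)ˣ) c, F ((t : ZMod M) * c) = uact t (F c)) ∧
        (∀ t : (ZMod M)ˣ, Odd (orderOf t) → ∀ c, F ((t : ZMod M) * c) = F c) ∧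
        ∑ i, F (b i) = 2 ^ R.card • ∑ i, vD (b i) ∧
        (∀ c, ¬ Oa (addOrderOf c) → F c = 0) ∧
        ∀ c, (∀ q : ℕ, q.Prime → q ∣ addOrderOf c → q ≠ 2 ∧ (A q ∨ q ∈ R)) →
          F c ∈ Sat M A (R.card + 1) := by
    intro R
    induction R using Finset.induction_on with
    | empty =>
      refine fun _ => ⟨vD, vD_dist hA, fun t c => (uact_vD t c).symm, fun t ht c => vD_mul ht c,
        by simp, fun c hc => if_neg hc, fun c hc => ?_⟩
      have ho : Oa (addOrderOf c) := fun l hl hd =>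
        (hA l hl (hd.trans (ord_dvd c))).resolve_left (hc l hl hd).1
      have e : vD c = vq (2 * c) - vq c + 2 • vq c := by
        rw [vD, if_pos ho, two_nsmul]
        abel
      rw [e]
      refine add_mem (sat_two hA h4 ho.odd) (ssLam_two ⟨1, odd_one, vq c, ssLam_mem (Or.inr ?_), rfl⟩)
      exact fun l hl hd => ⟨(hc l hl hd).1, (hc l hl hd).2.resolve_right (Finset.notMem_empty l)⟩
    | insert l R hlR ih =>
      intro hR
      obtain ⟨F, a1, a2, a3, a4, a5, a6⟩ := ih fun q hq => hR q (Finset.mem_insert_of_mem hq)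
      obtain ⟨l1, l2, l3, l4⟩ := hR l (Finset.mem_insert_self l R)
      obtain ⟨τ, t1, t2, t3⟩ := h l l1 l2 l3 l4
      rw [Finset.card_insert_of_notMem hlR]
      refine ⟨fun c => F c + F ((τ : ZMod M) * c), ssLam_add a1 (a1.twist τ.isUnit),
        fun t c => ?_, fun t ht c => ?_, ?_, fun c hc => ?_, fun c hc => ?_⟩
      · beta_reduce
        rw [mul_left_comm, a2 t, a2 t, map_add]
      · beta_reduce
        rw [mul_left_comm, a3 t ht, a3 t ht]
      · have e : uact τ (∑ i, vD (b i)) = ∑ i, vD (b i) := by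
          rw [map_sum, ← t3]
          exact Finset.sum_congr rfl fun i _ => uact_vD τ _
        simp only [a2 τ]
        rw [Finset.sum_add_distrib, ← map_sum, a4, map_nsmul, e, pow_succ', mul_smul, two_nsmul]
      · beta_reduce
        rw [a5 c hc, a5 _ (by rwa [ord_unit_mul]), add_zero]
      · have := ss_step l2 ((hA l l2 l1).resolve_left l3) l1
          (Y := ((ZMod M)ˣ → ℤ) ⧸ Sat M A (R.card + 1 + 1)) (fun n hn y hy => by
            obtain ⟨y, rfl⟩ := QuotientAddGroup.mk'_surjective _ y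
            rw [← map_nsmul] at hy
            exact (QuotientAddGroup.eq_zero_iff _).2
              (ssLam_odd hn ((QuotientAddGroup.eq_zero_iff _).1 hy)))
          (a1.map (QuotientAddGroup.mk' _)) (fun t ht c => by rw [a3 t ht])
          (C := fun n => ∀ q : ℕ, q.Prime → q ∣ n → q ≠ 2 ∧ (A q ∨ q ∈ insert l R))
          (fun n n' hn H q hq hd => H q hq (hd.trans hn)) (fun c hc hl => by
            have hm := a6 c fun q hq hd => ⟨(hc q hq hd).1, (hc q hq hd).2.imp id fun hq' =>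
              (Finset.mem_insert.1 hq').resolve_left fun e : q = l => hl (e ▸ hd)⟩
            refine ⟨?_, fun t => ?_⟩
            · rw [← map_nsmul]
              exact (QuotientAddGroup.eq_zero_iff _).2 (ssLam_two hm)
            · rw [← sub_eq_zero, ← map_sub, a2]
              exact (QuotientAddGroup.eq_zero_iff _).2 (sat_act hA h4 hm t)) t1 t2 c hc
        rw [← map_add] at this
        exact (QuotientAddGroup.eq_zero_iff _).1 this
  obtain ⟨F, -, -, -, a4, a5, a6⟩ := key (M.primeFactors.filter fun l => l ≠ 2 ∧ ¬ A l)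
    fun l hl => by
      obtain ⟨h1, h2⟩ := Finset.mem_filter.1 hl
      exact ⟨Nat.dvd_of_mem_primeFactors h1, Nat.prime_of_mem_primeFactors h1, h2⟩
  refine ssLam_down (j := (M.primeFactors.filter fun l => l ≠ 2 ∧ ¬ A l).card) ?_
  rw [← a4]
  refine sum_mem fun i _ => ?_
  by_cases ho : Oa (addOrderOf (b i))
  · refine a6 _ fun q hq hd => ?_
    have h2 : q ≠ 2 := by have := ho q hq hd; omega
    refine ⟨h2, or_iff_not_imp_left.2 fun hq' => Finset.mem_filter.2 ⟨?_, h2, hq'⟩⟩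
    exact Nat.mem_primeFactors.2 ⟨hq, hd.trans (ord_dvd _), NeZero.ne M⟩
  · rw [a5 _ ho]
    exact zero_mem _

end Pool.Agent.Tate
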