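import Pool.Agent.P.MP_2ce3e7_ag.SsDiag

/-! Cycles that link supersingular characters. -/

set_option autoImplicit false

noncomputable section

namespace Pool.Agent.Tate

open MvPolynomial

theorem ssLink_fix {L : ℕ} [NeZero L] {k ι : Type} [Field k] [Fintype ι] [DecidableEq ι]
    {ζ : Rt L k} {g : ι → Fin 3 → ZMod L} {c : ι → Ch L} {Z : G L k ι} (hZ : tw3 ζ g Z = Z)
    (hx : pr ζ c Z ≠ 0) : ∑ i, ∑ j, ex3 (c i) j * g i j = 0 := by
  have h := avg_rho (tw_add ζ) (ch_add_right c) (fun i => (g i 0 - g i 2, g i 1 - g i 2)) Z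
  rw [← tw3_eq_tw, hZ] at h
  have h1 : ch c (fun i => (g i 0 - g i 2, g i 1 - g i 2)) = 1 := by
    by_contra e
    refine hx ((smul_eq_zero.1 (?_ : (1 - ch c fun i => (g i 0 - g i 2, g i 1 - g i 2)) •
      pr ζ c Z = 0)).resolve_left (sub_ne_zero.2 (Ne.symm e)))
    rw [sub_smul, one_smul]
    exact sub_eq_zero.2 h
  refine ZMod.injective_stdAddChar ?_
  rw [AddChar.map_zero_eq_one, ← h1, ch]
  have h2 := map_prod (ZMod.stdAddChar (N := L)).toMonoidHom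
    (fun i => Multiplicative.ofAdd (∑ j, ex3 (c i) j * g i j)) Finset.univ
  rw [← ofAdd_sum] at h2
  refine h2.trans (Finset.prod_congr rfl fun i _ => ?_)
  change ZMod.stdAddChar (∑ j, ex3 (c i) j * g i j) = ZMod.stdAddChar _
  congr 1
  simp only [Fin.sum_univ_three, ex3, Matrix.cons_val_zero, Matrix.cons_val_one, Matrix.cons_val]
  ring

theorem ssLink_inj {L : ℕ} [NeZero L] {a b : Ch L} (h : ∀ g, ch1 a g = ch1 b g) : a = b := by
  have h1 := ZMod.injective_stdAddChar (h (1, 0))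
  have h2 := ZMod.injective_stdAddChar (h (0, 1))
  simp only [mul_one, mul_zero, add_zero, zero_add] at h1 h2
  exact Prod.ext h1 h2

theorem ss_link {m L : ℕ} [NeZero m] [NeZero L] {k : Type} [Field k] [Fintype k]
    [NeZero (L : k)] (p : ℕ) [Fact p.Prime] [CharP k p] (h2 : p ≠ 2) {ν r e : ℕ}
    (hq : p ^ ν = r + 1) (hm : m = r + 2) (hL : L = m * (e * r)) (ζ' : Rt L k) {a : Ch m}
    (ha : Nd a) : ∃ b : Ch L, Nd b ∧ b.2 = -((p : ZMod L) ^ ν * b.1) ∧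
      b.1 + b.2 = (lf L a).1 + (lf L a).2 ∧
      HasPair ζ' (Sum.elim (fun _ : Unit => lf L a) fun _ : Unit => -b) := by
  have hp : p.Prime := Fact.out
  have hd : e * r ≠ 0 := upLow_ne hL
  have hmL : m ∣ L := upLow_dvd hL
  let ζ : Rt m k := ⟨ζ'.1 ^ (e * r), ζ'.2.pow (NeZero.pos L) (hL.trans (mul_comm _ _))⟩
  have : NeZero (m : k) := ⟨ζ.ne⟩
  obtain ⟨s, hs⟩ : 2 ∣ r := by
    have := (hp.odd_of_ne_two h2).pow (n := ν)
    rw [hq, Nat.odd_iff] at this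
    omega
  have hε : (ζ'.1 ^ (e * s)) ^ m = -1 := by
    rw [← pow_mul]
    exact (ζ'.2.pow (NeZero.pos L) (by rw [hL, hs]; ring)).eq_neg_one_of_two_right
  obtain ⟨U, u1, u2⟩ := exists_pw k hL hd
  obtain ⟨V, v1, v2⟩ := exists_dr p h2 hq (right_ne_zero_of_mul hd) (left_ne_zero_of_mul hd)
    hm hL hε
  have key : ∀ (g : Unit ⊕ Unit → Fin 3 → ZMod m) (g' : Unit ⊕ Unit → Fin 3 → ZMod L),
      (∀ j, c3 ζ' g' (Sum.inl (), j) ^ (e * r) = c3 ζ g (Sum.inl (), j)) →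
      c3 ζ' g' (Sum.inr (), 0) ^ (e * m) = 1 → c3 ζ' g' (Sum.inr (), 1) ^ (e * m) = 1 →
      c3 ζ g (Sum.inr (), 0) = 1 → c3 ζ g (Sum.inr (), 1) = 1 →
      (c3 ζ' g' (Sum.inr (), 0) * c3 ζ' g' (Sum.inr (), 1) * c3 ζ' g' (Sum.inr (), 2) ^ r) ^ e =
        c3 ζ g (Sum.inr (), 2) →
      ∀ v, sc (c3 ζ' g') ((U.sum V).θ (X v)) = (U.sum V).θ (sc (c3 ζ g) (X v)) := by
    intro g g' a1 a2 a3 a4 a5 a6 v
    rw [sc_X, map_mul, algHom_C, algebraMap_eq]
    rcases v with ⟨⟨⟨⟩⟩ | ⟨⟨⟩⟩, j⟩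
    · change sc _ (sumθ _ _ _) = _ * sumθ _ _ _
      rw [sumθ_X_inl, u2, map_pow, rn_X, map_pow, sc_X, mul_pow, ← map_pow, a1]
    · change sc _ (sumθ _ _ _) = _ * sumθ _ _ _
      have h : (sc (c3 ζ' g')).comp (rn (Sum.inr : Unit → Unit ⊕ Unit)) =
          (rn Sum.inr).comp (sc fun w => c3 ζ' g' (Sum.inr w.1, w.2)) := by
        ext1 w
        rw [AlgHom.comp_apply, AlgHom.comp_apply, rn_X, sc_X, sc_X, map_mul, box_rn_C, rn_X]
      obtain ⟨b0, b1, b2⟩ := v2 (fun w => c3 ζ' g' (Sum.inr w.1, w.2)) a2 a3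
      rw [sumθ_X_inr, ← AlgHom.comp_apply, h, AlgHom.comp_apply]
      fin_cases j
      · exact (congrArg _ b0).trans (by rw [Fin.zero_eta, a4, map_one, one_mul])
      · exact (congrArg _ b1).trans (by rw [Fin.mk_one, a5, map_one, one_mul])
      · exact (congrArg _ b2).trans (by rw [map_mul, box_rn_C, a6]; rfl)
  obtain ⟨M, x, -, hM⟩ := exists_cy (U.sum V).grI_dg (U.sum V).Fer_le_dg 0
  have h0 := tr_upq_dg ζ u1 v1 ha
  rw [← sum_pr (ζ := ζ') (cy L _ 0), map_sum, map_sum, map_sum] at h0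
  obtain ⟨c, -, hc⟩ := Finset.exists_ne_zero_of_sum_ne_zero h0
  have hx : pr ζ' c (cy L (U.sum V).dg 0) ≠ 0 := fun h => hc (by rw [h, map_zero, map_zero,
    map_zero])
  have z0 : ∀ (n : ℕ) (w : Rt n k), w.1 ^ (0 : ZMod n).val = 1 := fun n w => by
    rw [ZMod.val_zero, pow_zero]
  have c1 : c (Sum.inl ()) = lf L a := ssLink_inj fun g => by
    have h3 := upq_tw3 (U.sum V) ζ ζ' (key (up (Pi.single (Sum.inl ())
      (ZMod.castHom hmL (ZMod m) g.1, ZMod.castHom hmL (ZMod m) g.2)))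
      (up (Pi.single (Sum.inl ()) g)) (fun j => ?_) ?_ ?_ ?_ ?_ ?_) (pr ζ' c (cy L (U.sum V).dg 0))
    · have h4 : tw3 ζ' (up (Pi.single (Sum.inl ()) g)) (pr ζ' c (cy L (U.sum V).dg 0)) = _ :=
        pr_mem c _ _
      have h5 := avg_rho (tw_add ζ) (ch_add_right (Sum.elim (fun _ : Unit => a) fun _ : Unit => -a))
        (Pi.single (Sum.inl ()) (ZMod.castHom hmL (ZMod m) g.1, ZMod.castHom hmL (ZMod m) g.2))
        (upq (U.sum V) (pr ζ' c (cy L (U.sum V).dg 0)))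
      rw [tw, ← h3, h4, map_smul, map_smul, ch_single, ch_single] at h5
      have h6 := congrArg tr h5
      rw [map_smul, map_smul, smul_eq_mul, smul_eq_mul] at h6
      rw [ch1_lf hmL]
      exact mul_right_cancel₀ hc h6
    · have h7 : ∀ y : ZMod L, (ζ'.1 ^ y.val) ^ (e * r) =
          ζ.1 ^ (ZMod.castHom hmL (ZMod m) y).val := fun y => by
        rw [ZMod.castHom_apply, ZMod.cast_eq_val, ZMod.val_natCast, Ops_pow_mod, ← pow_mul,
          mul_comm, pow_mul]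
      fin_cases j
      · exact h7 g.1
      · exact h7 g.2
      · exact (h7 0).trans (by rw [map_zero]; rfl)
    all_goals simp [c3, up]
  have hL1 : Fact (1 < L) := ⟨lt_of_lt_of_le (by omega) (Nat.le_of_dvd (NeZero.pos L) hmL)⟩
  have hm1 : Fact (1 < m) := ⟨by omega⟩
  have c2 := ssLink_fix (tw3_dg ζ ζ' (U.sum V) (key (fun _ => 0)
    (Sum.elim 0 fun _ => ![r, 0, -1]) (fun j => by simp [c3]) (by
      change (ζ'.1 ^ (r : ZMod L).val) ^ _ = 1
      rw [ZMod.val_natCast, Ops_pow_mod, ← pow_mul, show r * (e * m) = L by rw [hL]; ring,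
        ζ'.2.pow_eq_one]) (by simp [c3]) (z0 _ _) (z0 _ _) (by
      change (ζ'.1 ^ (r : ZMod L).val * ζ'.1 ^ (0 : ZMod L).val *
        (ζ'.1 ^ (-1 : ZMod L).val) ^ r) ^ e = ζ.1 ^ (0 : ZMod m).val
      rw [← Ops_pow_val_mul, ← Ops_pow_val_add, ← Ops_pow_val_add, add_zero, mul_neg_one,
        add_neg_cancel, z0, z0, one_pow]))) hx
  have c3' := ssLink_fix (tw3_dg ζ ζ' (U.sum V) (key (fun _ => ![0, 0, 1])
    (fun _ => ![0, 0, 1]) (fun j => by fin_cases j <;> simp [c3, ZMod.val_one, ζ])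
      (by simp [c3]) (by simp [c3]) (z0 _ _) (z0 _ _) (by
      simp [c3, ZMod.val_one, ζ, ← pow_mul, mul_comm]))) hx
  simp only [Fintype.sum_sum_type, Fintype.sum_unique, Fin.sum_univ_three, ex3, Sum.elim_inl,
    Sum.elim_inr, Pi.zero_apply, mul_zero, add_zero, zero_add, Matrix.cons_val_zero,
    Matrix.cons_val_one, Matrix.cons_val, mul_one, PUnit.default_eq_unit, c1] at c2 c3'
  have hq' : (p : ZMod L) ^ ν = r + 1 := by exact_mod_cast congrArg (Nat.cast : ℕ → ZMod L) hq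
  have hu : IsUnit ((p : ZMod L) ^ ν) := ((ZMod.isUnit_iff_coprime p L).2
    ((Nat.Prime.coprime_iff_not_dvd hp).2 fun h =>
      NeZero.ne (L : k) ((CharP.cast_eq_zero_iff k p L).2 h))).pow ν
  have b2 : (-c (Sum.inr ())).2 = -((p : ZMod L) ^ ν * (-c (Sum.inr ())).1) := by
    rw [hq', Prod.fst_neg, Prod.snd_neg]
    linear_combination -c2
  have b3 : (-c (Sum.inr ())).1 + (-c (Sum.inr ())).2 = (lf L a).1 + (lf L a).2 := by
    rw [Prod.fst_neg, Prod.snd_neg]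
    linear_combination c3'
  have b4 := ((nd_lf hmL).2 ha).2.2
  have b1 : (-c (Sum.inr ())).1 ≠ 0 := fun h => b4 (by rw [← b3, b2, h, mul_zero, neg_zero,
    add_zero])
  have hb : Nd (-c (Sum.inr ())) := ⟨b1, fun h => b1 (hu.mul_right_eq_zero.1
    (neg_eq_zero.1 (b2.symm.trans h))), b3 ▸ b4⟩
  refine ⟨_, hb, b2, b3, ?_⟩
  have e1 : (Sum.elim (fun _ : Unit => lf L a) fun _ : Unit => -(-c (Sum.inr ()))) = c := by
    funext i
    rcases i with ⟨⟨⟩⟩ | ⟨⟨⟩⟩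
    exacts [c1.symm, neg_neg _]
  rw [e1]
  rw [hM] at hc
  refine hasPair_of_tr ζ ζ' (U.sum V) M ?_ hc
  rintro (⟨⟨⟩⟩ | ⟨⟨⟩⟩)
  · rw [c1]
    exact (nd_lf hmL).2 ha
  · simpa using hb.neg

end Pool.Agent.Tate
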