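import Pool.Agent.P.MP_2ce3e7_ag.SsLam
import Pool.Agent.P.MP_2ce3e7_ag.SsJac

/-! Invariant distributions that vanish on even and supersingular orders. -/

set_option autoImplicit false
set_option linter.unusedSectionVars false

noncomputable section

namespace Pool.Agent.Tate

open Pool.Agent.P.MP_e12fcd_ag.Fermat (bern tors mem_tors card_tors sum_tors_unit sum_tors_shift)

/-- vanishing on the supersingular elements -/
def SS (p : ℕ) {M : ℕ} {Y : Type} [AddCommGroup Y] (g : ZMod M → Y) : Prop :=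
  ∀ (ν : ℕ) (c : ZMod M), ((p : ZMod M) ^ ν + 1) * c = 0 → g c = 0

variable {M : ℕ} [NeZero M] (h4 : 4 ∣ M) {Y : Type} [AddCommGroup Y] {G : ZMod M → Y}
  (hG : Dist M G) (hi : Gal G) (he : ∀ c, Even (addOrderOf c) → G c = 0) (hk : Kb M G)
  {ι : Type} [Fintype ι] {b : ι → ZMod M}
include h4 hG hi he hk

theorem par_sat (hA : Adm M) {A : ℕ → Prop} (h0 : ∀ c, Ec A (addOrderOf c) → G c = 0)
    (h : ∑ i, vD (b i) ∈ Sat M A 1) : ∑ i, G (b i) = 0 := by
  classical
  let T := (Fintype.linearCombination ℤ (th : ZMod M → _)).toAddMonoidHom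
  let Γ := (Fintype.linearCombination ℤ G).toAddMonoidHom
  let e : ZMod M → ZMod M → ℤ := fun c => ∑ t ∈ Qo M, Pi.single ((t : ZMod M) * c) 1
  have hT : ∀ c, T (e c) = vq c := fun c => by simp [T, e, vq]
  have hΓ : ∀ c, Γ (e c) = ∑ t ∈ Qo M, G ((t : ZMod M) * c) := fun c => by simp [Γ, e]
  have hL : Lam M A ≤ Γ.ker.map T := by
    refine (AddSubgroup.closure_le _).2 ?_
    rintro y ⟨c, hc, rfl⟩
    refine ⟨e c, ?_, hT c⟩
    change Γ (e c) = 0
    rw [hΓ]
    exact Finset.sum_eq_zero fun t _ => h0 _ (by rwa [ord_unit_mul])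
  let E : ZMod M → ℤ := ∑ i, if Oa (addOrderOf (b i)) then e (b i) else 0
  have hTE : T E = ∑ i, if Oa (addOrderOf (b i)) then vq (b i) else 0 := by
    rw [map_sum]
    refine Finset.sum_congr rfl fun i _ => ?_
    split_ifs
    exacts [hT _, map_zero _]
  have hΓE : Γ E = ∑ i, ∑ t ∈ Qo M, G ((t : ZMod M) * b i) := by
    rw [map_sum]
    refine Finset.sum_congr rfl fun i _ => ?_
    split_ifs with hb
    · exact hΓ _
    · rw [map_zero]
      refine (Finset.sum_eq_zero fun t _ => he _ ?_).symm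
      rw [ord_unit_mul]
      exact Nat.not_odd_iff_even.1 fun ho =>
        hb (Adm.oa (fun l hl hd => hA l hl (hd.trans (ord_dvd _))) ho)
  have h1 : ∑ i, vD (b i) - 2 • T E ∈ Sat M A 1 := by
    rw [hTE, ← Finset.sum_nsmul, ← Finset.sum_sub_distrib]
    refine sum_mem fun i _ => ?_
    unfold vD
    split_ifs with hb
    · have e1 : vq (b i) + vq (2 * b i) - 2 • vq (b i) = vq (2 * b i) - vq (b i) := by
        rw [two_nsmul]
        abel
      rw [e1]
      exact sat_two hA h4 hb.odd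
    · rw [smul_zero, sub_zero]
      exact zero_mem _
  have h2 : 2 • T E ∈ Sat M A 1 := by
    have := sub_mem h h1
    rwa [sub_sub_cancel] at this
  obtain ⟨n, hn, z, hz, h3⟩ := h2
  obtain ⟨η, h5, rfl⟩ := hL hz
  rw [pow_one, smul_comm] at h3
  have h6 : T (n • E - η) = 0 := by
    rw [map_sub, map_nsmul, sub_eq_zero]
    exact nsmul_right_injective two_ne_zero h3
  have h7 : Γ (n • E - η) = 0 := hk.lin hA hG h6
  rw [map_sub, show Γ η = 0 from h5, sub_zero, map_nsmul] at h7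
  have h8 : 2 • Γ E = 0 := by
    rw [hΓE, ← Finset.sum_nsmul]
    refine Finset.sum_eq_zero fun i _ => ?_
    rw [← Finset.sum_nsmul]
    exact Finset.sum_eq_zero fun t _ => hi.two hG _
  obtain ⟨k, rfl⟩ := hn
  rw [add_smul, one_smul, mul_comm, mul_smul, h8, smul_zero, zero_add, hΓE] at h7
  exact hi.odd hG h7

omit h4 hG hi he hk in
theorem ssPar_two {c : ZMod M} (hc : Oa (addOrderOf c)) : vD (2 * c) = vD c := by
  unfold vD
  rw [if_pos hc, if_pos (hc.mul 2), vq_four hc, add_comm]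

omit h4 hG hi he hk in
theorem ssPar_zero {u : ZMod M} (hu : IsUnit u) {c : ZMod M} (hc : ¬ Oa (addOrderOf c)) :
    vD (u * c) = 0 := by
  obtain ⟨t, rfl⟩ := hu
  unfold vD
  rw [ord_unit_mul, if_neg hc]

omit h4 hG hi he hk in
theorem ssPar_neg (hA : Adm M) {p : ℕ} (hpM : p.Coprime M) {f : ℕ} (hf : f ≠ 0)
    (h : ∑ s ∈ Finset.range f, ∑ i, th ((p : ZMod M) ^ s * b i) = 0) :
    ∑ i, vD (-(p : ZMod M) * b i) = ∑ i, vD (b i) := by
  have hu : IsUnit (p : ZMod M) := (ZMod.isUnit_iff_coprime p M).2 hpM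
  obtain ⟨t, t1, t2⟩ := odd_unit_adm (M := M) ((p : ℤ) ^ 2) fun q hq hqM _ => by
    have := Fact.mk hq
    push_cast
    refine ⟨⟨p, sq _⟩, pow_ne_zero 2 fun h0 => ?_⟩
    have h1 := (ZMod.natCast_eq_zero_iff p q).1 h0
    exact hq.one_lt.ne' (Nat.eq_one_of_dvd_coprimes hpM h1 hqM)
  have hsq : ∀ y : ZMod M, vD ((p : ZMod M) * ((p : ZMod M) * y)) = vD y := fun y => by
    by_cases hy : Oa (addOrderOf y)
    · rw [← vD_mul t1 y, t2 y hy.odd hy.adm]
      congr 1
      push_cast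
      ring
    · rw [← mul_assoc, ssPar_zero (hu.mul hu) hy]
      simpa using (ssPar_zero isUnit_one hy).symm
  obtain ⟨n, hn, H⟩ := w_lemma hf h
  have h1 := H _ _ ((vD_dist hA).sub ((vD_dist hA).twist hu.neg)) fun y => by
    simp only [neg_mul, (vD_dist hA).neg, hsq]
    abel
  have h2 := (smul_eq_zero.1 h1).resolve_left hn
  rw [Finset.sum_sub_distrib, sub_eq_zero] at h2
  exact h2.symm

theorem parityS {p : ℕ} (hp : p.Prime) (h2 : p ≠ 2) (hpM : p.Coprime M)
    (hJ : ∀ d : ℕ, d ∣ M → Odd d → (∃ ν : ℕ, d ∣ p ^ ν + 1) ∨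
      ((∀ l : ℕ, l.Prime → l ∣ d → l % 4 = 3) ∧
        (Squarefree d → d % 8 = 7 → jacobiSym p d = 1)))
    {f : ℕ} (hf : f ≠ 0) (h : ∑ s ∈ Finset.range f, ∑ i, th ((p : ZMod M) ^ s * b i) = 0)
    (hs : SS p G) : ∑ i, G (b i) = 0 := by
  have kill : ∀ (ν : ℕ) (c : ZMod M), addOrderOf c ∣ p ^ ν + 1 → G c = 0 := fun ν c hc => by
    refine hs ν c ?_
    have := ord_dvd_iff.1 hc
    push_cast at this
    exact this
  by_cases hA : Adm M
  swap
  · simp only [Adm, not_forall, not_or] at hA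
    obtain ⟨l, hl, hlM, hl2, hl3⟩ := hA
    obtain ⟨a, d, hd, hM⟩ := Nat.exists_eq_two_pow_mul_odd (NeZero.ne M)
    have cut : ∀ n : ℕ, Odd n → n ∣ M → n ∣ d := fun n hn hnM =>
      (Nat.Coprime.pow_right a (Nat.coprime_two_right.2 hn)).dvd_of_dvd_mul_left (hM ▸ hnM)
    rcases hJ d ⟨2 ^ a, by rw [hM, mul_comm]⟩ hd with ⟨ν, hν⟩ | ⟨h3, -⟩
    · refine Finset.sum_eq_zero fun i _ => ?_
      rcases Nat.even_or_odd (addOrderOf (b i)) with e | e
      · exact he _ e
      · exact kill ν _ ((cut _ e (ord_dvd _)).trans hν)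
    · exact absurd (h3 l hl (cut l (hl.odd_of_ne_two hl2) hlM)) hl3
  rcases ss_cases (NeZero.ne M) hpM hA (fun d hd hsq h7 => by
    have ho : Odd d := Nat.odd_iff.2 (by omega)
    rcases hJ d hd ho with ⟨ν, hν⟩ | ⟨-, h3⟩
    · refine Or.inr fun q hq hqd => jac_of_ss hq ?_ (hqd.trans hν)
      exact (hA q hq (hqd.trans hd)).resolve_left fun e => ho.not_two_dvd_nat (e ▸ hqd)
    · exact Or.inl (h3 hsq h7)) with H | H
  · exact parityB hA hp h2 hpM H hf h h4 hG hi he hk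
  have hu : IsUnit (p : ZMod M) := (ZMod.isUnit_iff_coprime p M).2 hpM
  refine par_sat h4 hG hi he hk hA (A := fun l => jacobiSym p l = -1) (fun c hc => ?_)
    (sat_ind hA h4 fun l hlM hl hl2 hn => ?_)
  · rcases hc with ⟨hc, -⟩ | hc
    · exact he c (even_iff_two_dvd.2 (Dvd.dvd.trans (by norm_num) hc))
    · obtain ⟨ν, hν⟩ := ss_of_jac (p := p) (addOrderOf_pos c).ne' fun q hq hd =>
        ⟨(hA q hq (hd.trans (ord_dvd _))).resolve_left (hc q hq hd).1, (hc q hq hd).2⟩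
      exact kill ν c hν
  have hl3 : l % 4 = 3 := (hA l hl hlM).resolve_left hl2
  have hj : jacobiSym p l = 1 :=
    (jacobiSym.eq_one_or_neg_one (a := p) (b := l) (by
      rw [Int.gcd_natCast_natCast]
      exact hpM.coprime_dvd_right hlM)).resolve_right hn
  obtain ⟨x, hx, x0, x1⟩ := H l hl hlM hl3 hj
  obtain ⟨τ, t, t1, t2, t3, t4⟩ := ss_tau hl hl3 hlM x x0 x1
  refine ⟨τ, t2, t3, ?_⟩
  have e1 : ∀ c : ZMod M, Oa (addOrderOf c) → vD ((τ : ZMod M) * c) = vD ((x : ZMod M) * c) :=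
    fun c hc => by rw [← t4 c hc, vD_mul t1]
  have e2 : ∀ u : ZMod M, IsUnit u →
      (∀ c : ZMod M, Oa (addOrderOf c) → vD ((x : ZMod M) * c) = vD (u * c)) →
      ∑ i, vD ((τ : ZMod M) * b i) = ∑ i, vD (u * b i) := fun u hu' H' =>
    Finset.sum_congr rfl fun i _ => by
      by_cases hc : Oa (addOrderOf (b i))
      · rw [e1 _ hc, H' _ hc]
      · rw [ssPar_zero τ.isUnit hc, ssPar_zero hu' hc]
  rcases hx with rfl | rfl | rfl
  · rw [e2 _ hu.neg fun c _ => by push_cast; rfl]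
    exact ssPar_neg hA hpM hf h
  · rw [e2 1 isUnit_one fun c hc => by
      rw [one_mul, ← ssPar_two hc]
      push_cast
      rfl]
    simp only [one_mul]
  · rw [e2 _ hu.neg fun c hc => by
      rw [← ssPar_two (hc.mul (-(p : ZMod M)))]
      congr 1
      push_cast
      ring]
    exact ssPar_neg hA hpM hf h

end Pool.Agent.Tate
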