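import Pool.Agent.P.MP_2ce3e7_ag.TQTwo
import Pool.Agent.P.MP_2ce3e7_ag.SsPar

/-! The prime two modulo supersingular elements. -/

set_option autoImplicit false
set_option linter.unusedSectionVars false

noncomputable section

namespace Pool.Agent.Tate

open Pool.Agent.P.MP_e12fcd_ag.Fermat (bern tors mem_tors card_tors sum_tors_unit sum_tors_shift)

variable {p M : ℕ} [NeZero M] {ι : Type} [Fintype ι] {b : ι → ZMod M}

theorem Ev.of_primes_ss (h : ∀ l : ℕ, l.Prime → ∃ n : ℕ, ¬ l ∣ n ∧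
    Ev p M fun _ _ g => SS p g → n • ∑ i, g (b i) = 0) :
    Ev p M fun _ _ g => SS p g → ∑ i, g (b i) = 0 := by
  let I : Ideal ℤ :=
    { carrier := {n | Ev p M fun _ _ g => SS p g → n • ∑ i, g (b i) = 0}
      add_mem' := fun {x y} ha hb => by
        simp only [Set.mem_ofPred_eq] at ha hb ⊢
        exact (Ev.and ha hb).mono fun Y _ g _ H hs => by
          rw [add_smul, H.1 hs, H.2 hs, add_zero]
      zero_mem' := by
        obtain ⟨n, -, hn⟩ := h 2 Nat.prime_two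
        simp only [Set.mem_ofPred_eq]
        exact hn.mono fun Y _ g _ _ _ => zero_smul _ _
      smul_mem' := fun c n hn => by
        simp only [Set.mem_ofPred_eq] at hn ⊢
        exact Ev.mono hn fun Y _ g _ H hs => by
          rw [smul_eq_mul, mul_smul, H hs, smul_zero] }
  have h1 : (Submodule.IsPrincipal.generator I).natAbs = 1 := by
    by_contra h1
    obtain ⟨l, hl, hd⟩ := Nat.exists_prime_and_dvd h1
    obtain ⟨n, hn, hg⟩ := h l hl
    have h2 : (n : ℤ) ∈ I := by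
      show Ev p M fun _ _ g => SS p g → (n : ℤ) • ∑ i, g (b i) = 0
      exact Ev.mono hg fun Y _ g _ H hs => by rw [natCast_zsmul, H hs]
    exact hn (hd.trans (by
      simpa using Int.natAbs_dvd_natAbs.2 ((Submodule.IsPrincipal.mem_iff_generator_dvd I).1 h2)))
  have h2 : (1 : ℤ) ∈ I := (Submodule.IsPrincipal.mem_iff_generator_dvd I).2
    (Int.isUnit_iff_natAbs_eq.2 h1).dvd
  have h3 : Ev p M fun _ _ g => SS p g → (1 : ℤ) • ∑ i, g (b i) = 0 := h2
  exact Ev.mono h3 fun Y _ g _ H hs => (one_smul ℤ _).symm.trans (H hs)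

theorem ev_two_ss (hp : p.Prime) (h2 : p ≠ 2) (hpM : p.Coprime M) {f : ℕ} (hf : f ≠ 0)
    (h1 : (p : ZMod M) ^ f = 1)
    (h : ∑ s ∈ Finset.range f, ∑ i, th ((p : ZMod M) ^ s * b i) = 0)
    (H : ∀ (Y : Type) [AddCommGroup Y] (G : ZMod M → Y), Dist M G → Gal G →
      (∀ c, Even (addOrderOf c) → G c = 0) → Kb M G → SS p G → ∑ i, G (b i) = 0) :
    ∃ n : ℕ, ¬ 2 ∣ n ∧ Ev p M fun _ _ g => SS p g → n • ∑ i, g (b i) = 0 := by
  obtain ⟨L, _, hML, hpL, hD⟩ :=
    (Ev.all hpM (κ := (ZMod M)ˣ) fun t => ev_divA hp h2 hpM t).and (ev_divB hp h2 hpM)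
  obtain ⟨V, _, u, hu, hfam, hπ⟩ := exists_univ p L
  obtain ⟨hA, hB⟩ := hD V u hu
  let S : Set V := {x | ∃ (ν : ℕ) (c : ZMod M), ((p : ZMod M) ^ ν + 1) * c = 0 ∧ x = u (lv L c)}
  let W : AddSubgroup V := (nsmulAddMonoidHom 4 : V →+ V).range ⊔ AddSubgroup.closure S
  have hW : ∀ x y : V, x = 4 • y → QuotientAddGroup.mk' W x = 0 := fun x y e =>
    (QuotientAddGroup.eq_zero_iff _).2 (AddSubgroup.mem_sup_left ⟨y, e.symm⟩)
  have hev : ∀ c : ZMod M, Even (addOrderOf c) → QuotientAddGroup.mk' W (u (lv L c)) = 0 :=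
    fun c hc => by
      obtain ⟨y, hy⟩ := hB c hc
      exact hW _ y hy
  have h0 := H (V ⧸ W) (fun c => QuotientAddGroup.mk' W (u (lv L c)))
    ((hu.dist.res hML).map _) (fun t c => ?_) hev (fun κ _ c hc h0 => ?_)
    (fun ν c hc => (QuotientAddGroup.eq_zero_iff _).2
      (AddSubgroup.mem_sup_right (AddSubgroup.subset_closure ⟨ν, c, hc, rfl⟩)))
  rotate_left
  · rcases Nat.even_or_odd (addOrderOf c) with he | ho
    · exact (hev _ (by rwa [ord_unit_mul])).trans (hev c he).symm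
    · obtain ⟨y, hy⟩ := hA t c ho
      have := hW _ y hy
      rwa [map_sub, sub_eq_zero] at this
  · rw [← map_sum, hu.kb.res hML κ c hc h0, map_zero]
  rw [← map_sum] at h0
  obtain ⟨_, ⟨y, rfl⟩, z, hz, hy⟩ :=
    AddSubgroup.mem_sup.1 ((QuotientAddGroup.eq_zero_iff _).1 h0)
  obtain ⟨κ, _, c, rfl⟩ := hfam y
  have hy' : ∑ i, u (lv L (b i)) = 4 • ∑ j, u (c j) + z := hy.symm
  have key : ∀ (Y : Type) [AddCommGroup Y] (g : ZMod L → Y), Sys p L g →
      SS p (fun b : ZMod M => g (lv L b)) → ∑ i, g (lv L (b i)) = 4 • ∑ j, g (c j) := by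
    intro Y _ g hg hs
    obtain ⟨π, hπ'⟩ := hπ Y g hg
    have h3 : AddSubgroup.closure S ≤ π.ker := (AddSubgroup.closure_le _).2 (by
      rintro _ ⟨ν, c, hc, rfl⟩
      exact (hπ' _).trans (hs ν c hc))
    have e := congrArg π hy'
    rw [map_add, (AddMonoidHom.mem_ker.1 (h3 hz)), add_zero] at e
    simpa only [map_nsmul, map_sum, hπ'] using e
  have ht : L.totient ≠ 0 := (Nat.totient_pos.2 (NeZero.pos _)).ne'
  have h1L : (p : ZMod L) ^ (L.totient * f) = 1 := by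
    have := (ZMod.natCast_eq_natCast_iff _ _ _).2 (Nat.ModEq.pow_totient hpL)
    rw [Nat.cast_pow, Nat.cast_one] at this
    rw [pow_mul, this, one_pow]
  have h4 : ∑ s ∈ Finset.range (L.totient * f), ∑ i,
      th ((p : ZMod L) ^ s * lv L (b i)) = 0 := by
    simp only [← Nat.cast_pow, natCast_mul_lv hML, ← lam_th hML, ← map_sum]
    simp only [Nat.cast_pow]
    rw [upMain_per fun s => by rw [pow_add, h1, one_mul], h, smul_zero, map_zero]
  have h5 : ∑ s ∈ Finset.range (L.totient * f), ∑ j, th ((p : ZMod L) ^ s * c j) = 0 := by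
    have hT := sys_norm hpL h1L
    have e := key _ _ hT fun ν c hc => by
      have e1 := hT.pow ν (lv L c)
      have e2 : (p : ZMod L) ^ ν * lv L c = -lv L c := by
        rw [← Nat.cast_pow, natCast_mul_lv hML, ← lv_neg hML, Nat.cast_pow]
        congr 1
        linear_combination hc
      rw [e2, hT.dist.neg, neg_eq_iff_add_eq_zero, ← two_nsmul] at e1
      exact (smul_eq_zero.1 e1).resolve_left (by decide)
    rw [Finset.sum_comm, h4, Finset.sum_comm] at e
    exact (smul_eq_zero.1 e.symm).resolve_left (by decide)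
  obtain ⟨n, hn, hE⟩ := ev_four hp hpL (mul_ne_zero ht hf) h1L h5 Nat.prime_two fun _ => h2
  refine ⟨n, hn, Ev.up hML (hE.mono fun Y _ g hg h hs => ?_)⟩
  rw [key Y g hg hs]
  exact h

/-- the arithmetic part -/
theorem ev_ss (hp : p.Prime) (h2 : p ≠ 2) (hpM : p.Coprime M) (h4 : 4 ∣ M)
    (hJ : ∀ d : ℕ, d ∣ M → Odd d → (∃ ν : ℕ, d ∣ p ^ ν + 1) ∨
      ((∀ l : ℕ, l.Prime → l ∣ d → l % 4 = 3) ∧
        (Squarefree d → d % 8 = 7 → jacobiSym p d = 1)))
    {f : ℕ} (hf : f ≠ 0) (h1 : (p : ZMod M) ^ f = 1)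
    (h : ∑ s ∈ Finset.range f, ∑ i, th ((p : ZMod M) ^ s * b i) = 0) :
    Ev p M fun _ _ g => SS p g → ∑ i, g (b i) = 0 := by
  refine Ev.of_primes_ss fun l hl => ?_
  by_cases e : l = 2
  · exact e ▸ ev_two_ss hp h2 hpM hf h1 h fun Y _ G hG hi he hk hs =>
      parityS h4 hG hi he hk hp h2 hpM hJ hf h hs
  · obtain ⟨n, hn, hE⟩ := ev_four hp hpM hf h1 h hl fun h => absurd h e
    refine ⟨n * 4, hl.not_dvd_mul hn fun h4 => e ?_, hE.mono fun Y _ g _ h _ => by rwa [mul_smul]⟩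
    exact (Nat.prime_dvd_prime_iff_eq hl Nat.prime_two).1 (hl.dvd_of_dvd_pow (n := 2) h4)

end Pool.Agent.Tate
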