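import Pool.Agent.P.MP_2ce3e7_ag.UpPrime

/-! Cases in which the condition on odd characters of two-power order holds. -/

set_option autoImplicit false

noncomputable section

namespace Pool.Agent.Tate

/-- levels with two square roots of one and an exponent that is twice an odd number -/
def UpPrimeP (u : ℕ) : Prop :=
  (∀ e : ZMod u, e ^ 2 = 1 → e = 1 ∨ e = -1) ∧
    ∃ n : ℕ, Odd n ∧ ∀ t : (ZMod u)ˣ, t ^ (2 * n) = 1

theorem upPrime_exp {u N n : ℕ} (h : u ∣ N) (hN : N.totient = 2 * n) (t : (ZMod u)ˣ) :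
    t ^ (2 * n) = 1 := by
  obtain ⟨k, hk⟩ := Nat.totient_dvd_of_dvd h
  rw [← hN, hk, pow_mul, ZMod.pow_totient, one_pow]

theorem upPrime_four {u : ℕ} (h : u ∣ 4) : UpPrimeP u := by
  refine ⟨?_, 1, odd_one, upPrime_exp h (by decide)⟩
  have h1 : u ≤ 4 := Nat.le_of_dvd (by norm_num) h
  interval_cases u
  · omega
  · decide
  · decide
  · omega
  · decide

theorem upPrime_pp {u l c : ℕ} (hl : l.Prime) (hl3 : l % 4 = 3) (h : u ∣ 2 * l ^ c) :
    UpPrimeP u := by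
  have hodd : Odd l := Nat.odd_iff.2 (by omega)
  constructor
  · intro e he
    obtain ⟨z, rfl⟩ := ZMod.intCast_surjective e
    obtain ⟨u1, u2, h1, h2, rfl⟩ := exists_dvd_and_dvd_of_dvd_mul h
    obtain ⟨k, -, rfl⟩ := (Nat.dvd_prime_pow hl).1 h2
    have hz : ((u1 * l ^ k : ℕ) : ℤ) ∣ (z - 1) * (z + 1) := by
      rw [← ZMod.intCast_zmod_eq_zero_iff_dvd]
      push_cast
      linear_combination he
    have hlp : Prime (l : ℤ) := Nat.prime_iff_prime_int.1 hl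
    have hk : ((l : ℤ)) ^ k ∣ (z - 1) * (z + 1) := by
      refine Dvd.dvd.trans ?_ hz
      push_cast
      exact dvd_mul_left _ _
    have hu : (u1 : ℤ) ∣ z - 1 ∧ (u1 : ℤ) ∣ z + 1 := by
      rcases (Nat.dvd_prime Nat.prime_two).1 h1 with rfl | rfl
      · simp
      · have h2' : (2 : ℤ) ∣ (z - 1) * (z + 1) := by
          refine Dvd.dvd.trans ?_ hz
          push_cast
          exact dvd_mul_right _ _
        rcases Int.prime_two.dvd_or_dvd h2' with h3 | h3 <;> constructor <;> push_cast <;> omega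
    have hco : IsCoprime (u1 : ℤ) ((l : ℤ) ^ k) := by
      have : u1.Coprime (l ^ k) :=
        Nat.Coprime.coprime_dvd_left h1 ((Nat.coprime_two_left.2 hodd).pow_right k)
      exact_mod_cast Nat.isCoprime_iff_coprime.2 this
    by_cases hd : (l : ℤ) ∣ z + 1
    · right
      have hn : ¬ (l : ℤ) ∣ z - 1 := by
        intro h'
        have h3 : (l : ℤ) ∣ 2 := by
          have := dvd_sub hd h'
          rwa [show z + 1 - (z - 1) = 2 by ring] at this
        have h4 : l ∣ 2 := by exact_mod_cast h3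
        have := Nat.le_of_dvd (by norm_num) h4
        omega
      have h5 : (l : ℤ) ^ k ∣ z + 1 := hlp.pow_dvd_of_dvd_mul_left k hn hk
      have h6 := hco.mul_dvd hu.2 h5
      have h7 : ((z + 1 : ℤ) : ZMod (u1 * l ^ k)) = 0 := by
        rw [ZMod.intCast_zmod_eq_zero_iff_dvd]
        push_cast
        exact h6
      push_cast at h7
      linear_combination h7
    · left
      have h5 : (l : ℤ) ^ k ∣ z - 1 := hlp.pow_dvd_of_dvd_mul_right k hd hk
      have h6 := hco.mul_dvd hu.1 h5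
      have h7 : ((z - 1 : ℤ) : ZMod (u1 * l ^ k)) = 0 := by
        rw [ZMod.intCast_zmod_eq_zero_iff_dvd]
        push_cast
        exact h6
      push_cast at h7
      linear_combination h7
  · refine ⟨l ^ c * (l / 2), hodd.pow.mul (Nat.odd_iff.2 (by omega)),
      upPrime_exp (N := 2 * l ^ (c + 1)) (h.trans ?_) ?_⟩
    · exact Nat.mul_dvd_mul_left 2 (pow_dvd_pow l (Nat.le_succ c))
    · rw [Nat.totient_two_mul_of_odd hodd.pow, Nat.totient_prime_pow_succ hl,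
        show l - 1 = 2 * (l / 2) by omega]
      ring

theorem upPrime_ext {m u v : ℕ} [NeZero m] (hu : u ∣ m) (hv : v ∣ m) (huv : u.Coprime v)
    (hm : m ∣ u * v) {x y : ZMod m}
    (h1 : ZMod.castHom hu (ZMod u) x = ZMod.castHom hu (ZMod u) y)
    (h2 : ZMod.castHom hv (ZMod v) x = ZMod.castHom hv (ZMod v) y) : x = y := by
  rw [← sub_eq_zero, ← map_sub] at h1 h2
  rw [← sub_eq_zero]
  rw [← ZMod.natCast_zmod_val (x - y)] at h1 h2 ⊢
  rw [map_natCast, ZMod.natCast_eq_zero_iff] at h1 h2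
  rw [ZMod.natCast_eq_zero_iff]
  exact hm.trans (huv.mul_dvd_of_dvd_of_dvd h1 h2)

theorem upPrime_mixed {m u v : ℕ} [NeZero m] (hu : u ∣ m) (hv : v ∣ m) (huv : u.Coprime v)
    (hm : m ∣ u * v) (pu : UpPrimeP u) (pv : UpPrimeP v) {κ : ZMod m}
    (h1 : ZMod.castHom hu (ZMod u) κ = -1) (h1' : ZMod.castHom hu (ZMod u) κ ≠ 1)
    (h2 : ZMod.castHom hv (ZMod v) κ = 1) :
    (∀ ε : ZMod m, ε ^ 2 = 1 → ε = 1 ∨ ε = -1 ∨ ε = κ ∨ ε = -κ) ∧
      ∃ c₀ : Ch m, Nd c₀ ∧ κ • c₀ = -c₀ := by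
  constructor
  · intro ε hε
    have e1 := pu.1 (ZMod.castHom hu (ZMod u) ε) (by rw [← map_pow, hε, map_one])
    have e2 := pv.1 (ZMod.castHom hv (ZMod v) ε) (by rw [← map_pow, hε, map_one])
    rcases e1 with e1 | e1 <;> rcases e2 with e2 | e2
    · exact Or.inl (upPrime_ext hu hv huv hm (by rw [e1, map_one]) (by rw [e2, map_one]))
    · exact Or.inr (Or.inr (Or.inr (upPrime_ext hu hv huv hm
        (by rw [e1, map_neg, h1, neg_neg]) (by rw [e2, map_neg, h2]))))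
    · exact Or.inr (Or.inr (Or.inl (upPrime_ext hu hv huv hm
        (by rw [e1, h1]) (by rw [e2, h2]))))
    · exact Or.inr (Or.inl (upPrime_ext hu hv huv hm
        (by rw [e1, map_neg, map_one]) (by rw [e2, map_neg, map_one])))
  · rw [h1] at h1'
    have a1 : (1 : ZMod u) + 1 ≠ 0 := fun h => h1' (by linear_combination -h)
    have a0 : (1 : ZMod u) ≠ 0 := fun h => a1 (by rw [h, add_zero])
    have b0 : lv m (1 : ZMod u) ≠ 0 := fun h => a0 ((lv_eq_zero hu).1 h)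
    have b2 : κ * lv m (1 : ZMod u) = -lv m (1 : ZMod u) := by
      rw [mul_lv hu, h1, mul_one, lv_neg hu]
    refine ⟨(lv m (1 : ZMod u), lv m (1 : ZMod u)), ⟨b0, b0, ?_⟩, Prod.ext b2 b2⟩
    show lv m (1 : ZMod u) + lv m (1 : ZMod u) ≠ 0
    rw [← lv_add hu]
    exact fun h => a1 ((lv_eq_zero hu).1 h)

/-- the arithmetic of the levels with at most four square roots of one -/
theorem two_data {m p P Q a b : ℕ} [NeZero m] (hP : P.Prime) (hQ : Q.Prime) (hP3 : P % 4 = 3)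
    (hQ3 : Q % 4 = 3) (hm : m ∣ 2 * P ^ a * Q ^ b ∨ m ∣ 4 * P ^ a) (hp : p.Coprime m)
    (hss : ∀ j : ℕ, ¬ m ∣ p ^ j + 1) :
    (∃ f : ℕ, Odd f ∧ (p : ZMod m) ^ f = 1) ∨
      (¬ 8 ∣ m ∧ ∃ n : ℕ, Odd n ∧ (∀ t : (ZMod m)ˣ, t ^ (2 * n) = 1) ∧
        (∀ ε : ZMod m, ε ^ 2 = 1 →
          ε = 1 ∨ ε = -1 ∨ ε = (p : ZMod m) ^ n ∨ ε = -(p : ZMod m) ^ n) ∧
        ∃ c₀ : Ch m, Nd c₀ ∧ (p : ZMod m) ^ n • c₀ = -c₀) := by
  have hPo : Odd P := Nat.odd_iff.2 (by omega)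
  have hQo : Odd Q := Nat.odd_iff.2 (by omega)
  have h8 : ¬ 8 ∣ m := by
    intro h
    rcases hm with hm | hm
    · have h1 := Nat.odd_iff.1 ((hPo.pow (n := a)).mul (hQo.pow (n := b)))
      have h2 := h.trans hm
      rw [mul_assoc] at h2
      omega
    · have h1 := Nat.odd_iff.1 (hPo.pow (n := a))
      have h2 := h.trans hm
      omega
  obtain ⟨u, v, huv, hmuv, pu, pv⟩ :
      ∃ u v : ℕ, u.Coprime v ∧ m = u * v ∧ UpPrimeP u ∧ UpPrimeP v := by
    rcases hm with hm | hm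
    · by_cases hPQ : P = Q
      · subst hPQ
        rw [mul_assoc, ← pow_add] at hm
        exact ⟨m, 1, Nat.coprime_one_right _, (mul_one m).symm, upPrime_pp hP hP3 hm,
          upPrime_four (one_dvd _)⟩
      · obtain ⟨u, v, h1, h2, e⟩ := exists_dvd_and_dvd_of_dvd_mul hm
        have c1 : (2 * P ^ a).Coprime (Q ^ b) :=
          Nat.Coprime.mul_left ((Nat.coprime_two_left.2 hQo).pow_right b)
            (Nat.Coprime.pow a b ((Nat.coprime_primes hP hQ).2 hPQ))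
        exact ⟨u, v, Nat.Coprime.coprime_dvd_left h1 (Nat.Coprime.coprime_dvd_right h2 c1), e,
          upPrime_pp hP hP3 h1, upPrime_pp hQ hQ3 (h2.trans (dvd_mul_left _ 2))⟩
    · obtain ⟨u, v, h1, h2, e⟩ := exists_dvd_and_dvd_of_dvd_mul hm
      have c1 : (4 : ℕ).Coprime (P ^ a) := Nat.Coprime.pow 2 a (Nat.coprime_two_left.2 hPo)
      exact ⟨u, v, Nat.Coprime.coprime_dvd_left h1 (Nat.Coprime.coprime_dvd_right h2 c1), e,
        upPrime_four h1, upPrime_pp hP hP3 (h2.trans (dvd_mul_left _ 2))⟩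
  have hu : u ∣ m := hmuv ▸ dvd_mul_right u v
  have hv : v ∣ m := hmuv ▸ dvd_mul_left v u
  have hm1 : m ∣ u * v := hmuv ▸ dvd_refl _
  have hm2 : m ∣ v * u := by rw [mul_comm]; exact hm1
  obtain ⟨n1, o1, x1⟩ := pu.2
  obtain ⟨n2, o2, x2⟩ := pv.2
  have hexp : ∀ t : (ZMod m)ˣ, t ^ (2 * (n1 * n2)) = 1 := by
    intro t
    apply Units.ext
    refine upPrime_ext hu hv huv hm1 ?_ ?_
    · have h := congrArg Units.val (x1 (ZMod.unitsMap hu t))
      rw [Units.val_pow_eq_pow_val] at h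
      rw [Units.val_pow_eq_pow_val, map_pow, Units.val_one, map_one, ← mul_assoc, pow_mul]
      have e : ZMod.castHom hu (ZMod u) (t : ZMod m) = (ZMod.unitsMap hu t : (ZMod u)ˣ) := rfl
      rw [e, h, Units.val_one, one_pow]
    · have h := congrArg Units.val (x2 (ZMod.unitsMap hv t))
      rw [Units.val_pow_eq_pow_val] at h
      rw [Units.val_pow_eq_pow_val, map_pow, Units.val_one, map_one, mul_comm n1, ← mul_assoc,
        pow_mul]
      have e : ZMod.castHom hv (ZMod v) (t : ZMod m) = (ZMod.unitsMap hv t : (ZMod v)ˣ) := rfl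
      rw [e, h, Units.val_one, one_pow]
  have hκ : ((p : ZMod m) ^ (n1 * n2)) ^ 2 = 1 := by
    have h := congrArg Units.val (hexp (ZMod.unitOfCoprime p hp))
    rw [Units.val_pow_eq_pow_val, ZMod.coe_unitOfCoprime, Units.val_one] at h
    rw [← pow_mul, mul_comm, h]
  by_cases h0 : (p : ZMod m) ^ (n1 * n2) = 1
  · exact Or.inl ⟨_, o1.mul o2, h0⟩
  refine Or.inr ⟨h8, n1 * n2, o1.mul o2, hexp, ?_⟩
  have e1 := pu.1 (ZMod.castHom hu (ZMod u) ((p : ZMod m) ^ (n1 * n2)))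
    (by rw [← map_pow, hκ, map_one])
  have e2 := pv.1 (ZMod.castHom hv (ZMod v) ((p : ZMod m) ^ (n1 * n2)))
    (by rw [← map_pow, hκ, map_one])
  rcases e1 with e1 | e1 <;> rcases e2 with e2 | e2
  · exact absurd (upPrime_ext hu hv huv hm1 (by rw [e1, map_one]) (by rw [e2, map_one])) h0
  · refine upPrime_mixed hv hu huv.symm hm2 pv pu e2 (fun e3 => h0 ?_) e1
    exact upPrime_ext hu hv huv hm1 (by rw [e1, map_one]) (by rw [e3, map_one])
  · refine upPrime_mixed hu hv huv hm1 pu pv e1 (fun e3 => h0 ?_) e2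
    exact upPrime_ext hu hv huv hm1 (by rw [e3, map_one]) (by rw [e2, map_one])
  · exfalso
    have h : (p : ZMod m) ^ (n1 * n2) = -1 :=
      upPrime_ext hu hv huv hm1 (by rw [e1, map_neg, map_one]) (by rw [e2, map_neg, map_one])
    refine hss (n1 * n2) ?_
    rw [← ZMod.natCast_eq_zero_iff]
    push_cast
    rw [h, neg_add_cancel]


theorem upEx_pow {m : ℕ} {χ : DirichletCharacter ℂ m} {e n : ℕ} (h : χ ^ 2 ^ e = 1) (hn : Odd n)
    (t : (ZMod m)ˣ) (ht : χ t ^ n = 1) : χ t = 1 := by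
  have h1 : χ t ^ 2 ^ e = 1 := by rw [← MulChar.pow_apply_coe, h, MulChar.one_apply_coe]
  exact (pow_eq_one_iff_of_coprime ((Nat.coprime_two_left.2 hn).pow_left e)).1 ⟨h1, ht⟩

/-- odd order -/
theorem cond_of_odd {m p f : ℕ} (hf : Odd f) (h : (p : ZMod m) ^ f = 1) :
    Set.Subsingleton
      {χ : DirichletCharacter ℂ m | (∃ e : ℕ, χ ^ 2 ^ e = 1) ∧ χ.Odd ∧ χ p ≠ 1} := by
  rintro χ ⟨⟨e, he⟩, -, h1⟩
  obtain ⟨u, hu⟩ := IsUnit.of_pow_eq_one h hf.pos.ne'
  rw [← hu] at h h1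
  exact absurd (upEx_pow he hf u (by rw [← map_pow, h, map_one])) h1

/-- two prime factors, not supersingular -/
theorem cond_of_two {m p P Q a b : ℕ} [NeZero m] (hP : P.Prime) (hQ : Q.Prime) (hP3 : P % 4 = 3)
    (hQ3 : Q % 4 = 3) (hm : m ∣ 2 * P ^ a * Q ^ b ∨ m ∣ 4 * P ^ a) (hp : p.Coprime m)
    (hss : ∀ j : ℕ, ¬ m ∣ p ^ j + 1) : Set.Subsingleton
      {χ : DirichletCharacter ℂ m | (∃ e : ℕ, χ ^ 2 ^ e = 1) ∧ χ.Odd ∧ χ p ≠ 1} := by
  rcases two_data hP hQ hP3 hQ3 hm hp hss with ⟨f, hf, h1⟩ | ⟨-, n, hn, hexp, hroots, -⟩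
  · exact cond_of_odd hf h1
  have key : ∀ χ ∈ {χ : DirichletCharacter ℂ m | (∃ e : ℕ, χ ^ 2 ^ e = 1) ∧ χ.Odd ∧ χ p ≠ 1},
      (∀ t : (ZMod m)ˣ, χ t = χ ((t : ZMod m) ^ n)) ∧ χ (-1) = -1 ∧ χ ((p : ZMod m) ^ n) = -1 := by
    rintro χ ⟨⟨e, he⟩, h1, h2⟩
    have h3 : ∀ t : (ZMod m)ˣ, χ t * χ t = 1 := fun t => by
      have := upEx_pow he hn (t ^ 2) (by
        rw [← map_pow, ← Units.val_pow_eq_pow_val, ← pow_mul, hexp, Units.val_one, map_one])
      rwa [Units.val_pow_eq_pow_val, map_pow, sq] at this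
    have h4 : ∀ t : (ZMod m)ˣ, χ t = χ ((t : ZMod m) ^ n) := fun t => by
      obtain ⟨k, hk⟩ := hn
      rw [map_pow, hk, pow_succ, pow_mul, sq, h3, one_pow, one_mul]
    refine ⟨h4, h1, ?_⟩
    have h5 := h4 (ZMod.unitOfCoprime p hp)
    have h6 := h3 (ZMod.unitOfCoprime p hp)
    rw [ZMod.coe_unitOfCoprime] at h5 h6
    rw [← h5]
    exact (mul_self_eq_one_iff.1 h6).resolve_left h2
  intro χ hχ χ' hχ'
  obtain ⟨a1, a2, a3⟩ := key χ hχ
  obtain ⟨b1, b2, b3⟩ := key χ' hχ'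
  refine MulChar.ext fun t => ?_
  rw [a1, b1]
  have h1 : ((t : ZMod m) ^ n) ^ 2 = 1 := by
    rw [← pow_mul, mul_comm, ← Units.val_pow_eq_pow_val, hexp, Units.val_one]
  rcases hroots _ h1 with h | h | h | h <;> rw [h]
  · rw [map_one, map_one]
  · rw [a2, b2]
  · rw [a3, b3]
  · rw [← neg_one_mul, map_mul, map_mul, a2, b2, a3, b3]

end Pool.Agent.Tate
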