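import Pool.Agent.P.MP_2ce3e7_ag.UpFin
import Pool.Agent.P.MP_2ce3e7_ag.UpEx
import Pool.Agent.P.MP_2ce3e7_ag.Final

/-! Roots of unity in finite fields. -/

set_option autoImplicit false

noncomputable section

namespace Pool.Agent.Tate

variable {m : ℕ} {k : Type} [Field k] [Fintype k]

theorem rt_of_card (hk : Nat.card k ≡ 1 [MOD m]) : Nonempty (Rt m k) := by
  obtain ⟨g, hg⟩ := jac_gen (F := k)
  rw [Nat.card_eq_fintype_card] at hk
  have h2 : 1 < Fintype.card k := Fintype.one_lt_card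
  obtain ⟨c, hc⟩ := (Nat.modEq_iff_dvd' h2.le).1 hk.symm
  exact ⟨⟨g ^ c, hg.pow (by omega) (hc.trans (mul_comm _ _))⟩⟩

end Pool.Agent.Tate
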