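import Pool.Agent.P.MP_2ce3e7_ag.SsGeo
import Pool.Agent.P.MP_2ce3e7_ag.SsTwo
import Pool.Agent.P.MP_2ce3e7_ag.UpAll

/-! Existence of cycles with supersingular links. -/

set_option autoImplicit false
set_option linter.unusedSectionVars false

noncomputable section

namespace Pool.Agent.Tate

open Pool.Agent.Ferm

variable {m : ℕ} [NeZero m] {p : ℕ} [Fact p.Prime]

/-- a level at which all links exist -/
theorem ss_level {M L₀ : ℕ} [NeZero M] (h0 : L₀ ≠ 0) (hM : M ∣ L₀) (hp : p.Coprime L₀) :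
    ∃ L : ℕ, L ≠ 0 ∧ L₀ ∣ L ∧ p.Coprime L ∧ ∀ (ν : ℕ) (c : ZMod M),
      ((p : ZMod M) ^ ν + 1) * c = 0 →
      ∃ μ : ℕ, (p ^ μ + 1) * (p ^ μ - 1) ∣ L ∧ ((p : ZMod M) ^ μ + 1) * c = 0 := by
  have hp' : p.Prime := Fact.out
  have ht : 0 < M.totient := Nat.totient_pos.2 (NeZero.pos M)
  have h1 : (p : ZMod M) ^ M.totient = 1 := by
    have := (ZMod.natCast_eq_natCast_iff _ _ _).2
      (Nat.ModEq.pow_totient (hp.coprime_dvd_right hM))
    rwa [Nat.cast_pow, Nat.cast_one] at this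
  refine ⟨L₀ * ∏ μ ∈ Finset.range M.totient,
    (p ^ (μ + M.totient) + 1) * (p ^ (μ + M.totient) - 1), ?_, dvd_mul_right _ _, ?_,
    fun ν c hc => ⟨ν % M.totient + M.totient, (Finset.dvd_prod_of_mem _
      (Finset.mem_range.2 (Nat.mod_lt _ ht))).mul_left _, ?_⟩⟩
  · refine mul_ne_zero h0 (Finset.prod_ne_zero_iff.2 fun μ _ => mul_ne_zero (by omega) ?_)
    have := Nat.one_lt_pow (n := μ + M.totient) (by omega) hp'.one_lt
    omega
  · refine hp.mul_right (Nat.Coprime.prod_right fun μ _ => ?_)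
    obtain ⟨s, hs⟩ := dvd_pow_self p (n := μ + M.totient) (by omega)
    have h2 := pow_pos hp'.pos (μ + M.totient)
    refine Nat.Coprime.mul_right (by rw [hs]; simp) ((Nat.coprime_self_sub_right h2).2 ?_ |>.symm
      |>.coprime_dvd_right ⟨s, hs⟩ |>.symm)
    simp
  · rwa [pow_add, h1, mul_one, ← pow_eq_pow_mod ν h1]

theorem hasPair_of_ss (h2 : p ≠ 2) {k ι : Type} [Field k] [Fintype k] [CharP k p]
    [NeZero (m : k)] [Fintype ι] [DecidableEq ι] (ζ : Rt m k) {a : ι → Ch m} (ha : ∀ i, Nd (a i))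
    {e : ℤ} (he : ∏ i, -Jac ζ.1 (a i) = (Fintype.card k : ℂ) ^ e) {M : ℕ} [NeZero M]
    (hM : m ∣ M) (h : Ev p M fun _ _ g => SS p g →
      ∑ x : ι × Fin 3, g (lv M (ex3 (a x.1) x.2)) = 0) :
    Even (Fintype.card ι) ∧ HasPair ζ a := by
  have hev := even_of_jac ζ.2 ha he
  refine ⟨hev, ?_⟩
  obtain ⟨L₀, _, hL₀, hp₀, hx⟩ := h
  obtain ⟨L, h0, hL₁, hp, hss⟩ := ss_level (NeZero.ne L₀) hL₀ hp₀
  have : NeZero L := ⟨h0⟩
  have hML := hL₀.trans hL₁
  have hL := hM.trans hML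
  have ha' : ∀ i, Nd (lf L (a i)) := fun i => (nd_lf hL).2 (ha i)
  obtain ⟨d, hd⟩ := id hL
  have : NeZero (L : k) := ⟨fun h => (Fact.out : p.Prime).one_lt.ne'
    (hp.eq_one_of_dvd ((CharP.cast_eq_zero_iff k p L).1 h))⟩
  obtain ⟨ω₀, hω₀⟩ := HasEnoughRootsOfUnity.exists_primitiveRoot (AlgebraicClosure k) L
  obtain ⟨ω, hω, hω'⟩ := exists_root_pow (hd ▸ h0) (hd ▸ hω₀)
    (ζ.2.map_of_injective (algebraMap k (AlgebraicClosure k)).injective)
  rw [← hd] at hω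
  let k₁ := IntermediateField.adjoin k {ω}
  have : FiniteDimensional k k₁ :=
    IntermediateField.adjoin.finiteDimensional (Algebra.IsIntegral.isIntegral ω)
  have : Finite k₁ := Module.finite_of_finite k
  have := Fintype.ofFinite k₁
  let ζ₁ : Rt L k₁ := ⟨⟨ω, IntermediateField.mem_adjoin_simple_self k ω⟩,
    IsPrimitiveRoot.of_map_of_injective (f := algebraMap k₁ (AlgebraicClosure k)) hω
      (algebraMap k₁ (AlgebraicClosure k)).injective⟩
  have : NeZero (L : AlgebraicClosure k) := ⟨Rt.ne ⟨ω, hω⟩⟩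
  obtain ⟨Y, _, g, hg, hR⟩ := geo_sys_of
    (le_sup_left : RE p L ≤ RE p L ⊔ (Lk ⟨ω, hω⟩).map (io (8 * L)))
  have e3 : ∀ i j, ex3 (lf L (a i)) j = lv L (ex3 (a i) j) := fun i j => by
    fin_cases j
    · rfl
    · rfl
    · change -lv L (a i).1 - lv L (a i).2 = lv L (-(a i).1 - (a i).2)
      rw [sub_eq_add_neg, sub_eq_add_neg, lv_add hL, lv_neg hL, lv_neg hL]
  have h1 := hx Y _ (hg.res hL₁) fun ν c hc => by
    obtain ⟨μ, h3, h4⟩ := hss ν c hc
    have := (hR Unit fun _ => lv L c).2 (by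
      rw [Fintype.sum_unique]
      refine phi_ss h2 ζ₁ rfl h3 ?_
      have := natCast_mul_lv hML (p ^ μ + 1) c
      push_cast at this
      rw [this, h4, lv_eq_zero hML])
    rwa [Fintype.sum_unique, ← lv_lv hL₁ hL₀] at this
  simp only [lv_lv hL₁ hL₀, lv_lv hML hM] at h1
  obtain ⟨r, hr, _, ⟨y, hy, rfl⟩, h3⟩ := AddSubgroup.mem_sup.1
    ((hR _ fun x : ι × Fin 3 => lv L (ex3 (a x.1) x.2)).1 h1)
  have h4 : ∑ i, tcl (lf L (a i)).1 (lf L (a i)).2 - y ∈ XE p L := by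
    refine mem_XE hp ?_ (by
      rw [map_sub]
      exact ((even_deg ha').2 hev).sub (Lk_even hy))
    rw [eq_sub_of_add_eq h3] at hr
    simpa only [map_sub, map_sum, io_tcl_lv, e3, Fintype.sum_prod_type] using hr
  obtain ⟨n, c, hc, hx⟩ := exists_family_cls h4
  have hu : IsUnit (p : ZMod L) := (ZMod.isUnit_iff_coprime p L).2 hp
  obtain ⟨b, hb⟩ : ∃ b : ι ⊕ Fin n ⊕ Fin n → Ch L, b = Sum.elim (fun i => lf L (a i))
    (Sum.elim (fun j => (p : ZMod L) • c j) (-c)) := ⟨_, rfl⟩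
  have nb : ∀ i, Nd (b i) := by
    rintro (i | j | j) <;> rw [hb]
    exacts [ha' i, (hc j).smul hu, (hc j).neg]
  have hB : ∑ i, tcl (b i).1 (b i).2 = y := by
    simp only [Finset.sum_sub_distrib] at hx
    simp only [hb, Fintype.sum_sum_type, Sum.elim_inl, Sum.elim_inr, Pi.neg_apply, Prod.fst_neg,
      Prod.snd_neg, tcl_neg, eq_add_of_sub_eq hx, Finset.sum_neg_distrib]
    abel
  obtain ⟨k', _, _, ζ₀, h₀, hP⟩ := HasPair.finite (ζ := ζ₁) (ζ' := ⟨ω, hω⟩) rfl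
    (hasPair_of_Lk nb (hB ▸ hy))
  have : Finite k' := Module.finite_of_finite k₁
  have := Fintype.ofFinite k'
  have : FiniteDimensional k k' := Module.Finite.of_finite
  obtain ⟨ζ', hζ'⟩ := exists_rt (algebraMap k k') ζ.2
  have : NeZero (m : k') := ⟨ζ'.ne⟩
  refine desc_finite hζ' ha he (HasPair.lower (ζ' := ζ₀) hd ?_ ha (HasPair.cancel hc
    (HasPair.frob p (Sum.elim 0 (Sum.elim 1 0)) ?_ ?_)))
  · apply (algebraMap k' (AlgebraicClosure k)).injective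
    rw [map_pow, hζ', h₀]
    exact hω'.symm
  · rintro (i | j | j)
    exacts [ha' i, hc j, (hc j).neg]
  · convert hP using 2 with i
    rcases i with i | j | j <;> simp [hb]

theorem ht_of_ss (h2 : p ≠ 2)
    (hJ : ∀ d : ℕ, d ∣ m → Odd d → (∃ ν : ℕ, d ∣ p ^ ν + 1) ∨
      ((∀ l : ℕ, l.Prime → l ∣ d → l % 4 = 3) ∧
        (Squarefree d → d % 8 = 7 → jacobiSym p d = 1)))
    (k : Type) [Field k] [Fintype k] [CharP k p] [NeZero (m : k)] (ζ : Rt m k) : HT ζ := by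
  have hp : p.Prime := Fact.out
  have hpm : p.Coprime m := (Nat.Prime.coprime_iff_not_dvd hp).2 fun h =>
    NeZero.ne (m : k) ((CharP.cast_eq_zero_iff k p m).2 h)
  intro ι _ _ a ha e he
  obtain ⟨f, -, hg⟩ := FiniteField.card k p
  have h1 : (p : ZMod m) ^ (f : ℕ) = 1 := rt_pow ζ p (RingHom.id k) rfl hg
  have h : ∑ s ∈ Finset.range f, ∑ x : ι × Fin 3,
      th ((p : ZMod m) ^ s * ex3 (a x.1) x.2) = 0 := by
    simpa only [Fintype.sum_prod_type, ty_eq_sum, ex3_smul] using stick hg ζ.2 ha he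
  have hd : m ∣ 4 * m := dvd_mul_left m 4
  have hp4 : p.Coprime (4 * m) :=
    (((Nat.coprime_primes hp Nat.prime_two).2 h2).pow_right 2).mul_right hpm
  have ht : (4 * m).totient ≠ 0 := (Nat.totient_pos.2 (NeZero.pos _)).ne'
  have h14 : (p : ZMod (4 * m)) ^ ((4 * m).totient * f) = 1 := by
    have := (ZMod.natCast_eq_natCast_iff _ _ _).2 (Nat.ModEq.pow_totient hp4)
    rw [Nat.cast_pow, Nat.cast_one] at this
    rw [pow_mul, this, one_pow]
  refine hasPair_of_ss h2 ζ ha he hd (ev_ss hp h2 hp4 (dvd_mul_right 4 m)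
    (fun d hd ho => hJ d (Nat.Coprime.dvd_of_dvd_mul_left
      ((Nat.coprime_two_right.2 ho).pow_right 2) hd) ho) (mul_ne_zero ht f.ne_zero) h14 ?_)
  simp only [← Nat.cast_pow, natCast_mul_lv hd, ← lam_th hd, ← map_sum]
  simp only [Nat.cast_pow]
  rw [upMain_per fun s => by rw [pow_add, h1, one_mul], h, smul_zero, map_zero]

end Pool.Agent.Tate
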