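import Pool.Agent.P.MP_2ce3e7_ag.St1
import Pool.Agent.P.MP_2ce3e7_ag.Fil
import Pool.Agent.P.MP_2ce3e7_ag.Jac

/-! Structure of the isotypic parts. -/

set_option autoImplicit false

noncomputable section

namespace Pool.Agent.Tate

open MvPolynomial

/-- labels of a basis of the cohomology of the curve -/
abbrev Tau (m : ℕ) : Type := Bool ⊕ {a : Ch m // Nd a}

/-- the character of a label -/
def Tau.ch {m : ℕ} : Tau m → Ch m := Sum.elim (fun _ => 0) fun a => a.1

/-- the Frobenius eigenvalue of a label -/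
def Tau.ev {m : ℕ} [NeZero m] {F : Type} [Field F] [Fintype F] (z : F) : Tau m → ℂ :=
  Sum.elim (fun b => if b then (Fintype.card F : ℂ) else 1) fun a => -Jac z a.1

variable {m : ℕ} [NeZero m] {k : Type} [Field k] [Fintype k] [NeZero (m : k)] (ζ : Rt m k) (p : ℕ)
  [Fact p.Prime] [CharP k p] (f : ℕ)

/-- the structure of one isotypic part -/
structure Str {ι : Type} [Fintype ι] [DecidableEq ι] (a : ι → Ch m) : Prop where
  fin : FiniteDimensional ℂ (Ga ζ a : Submodule ℂ (G m k ι))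
  nd : ∀ x ∈ (Ga ζ a : Submodule ℂ (G m k ι)), (∀ y ∈ Ga ζ (-a), prg x y = 0) → x = 0
  van : ∀ x ∈ (Ga ζ a : Submodule ℂ (G m k ι)), ∀ y ∈ Ga ζ (-a), ∀ c c' : ℂ,
    fr p (fun _ => f) x = c • x → fr p (fun _ => f) y = c' • y →
    ‖c * c'‖ < (Fintype.card k : ℝ) ^ Fintype.card ι → prg x y = 0
  dim : ∀ e : ℤ, Module.finrank ℂ ↥((Ga ζ a : Submodule ℂ (G m k ι)) ⊓
      Module.End.eigenspace (fr p fun _ => f) ((Fintype.card k : ℂ) ^ e)) =
    Nat.card {t : ι → Tau m // (∀ l, (t l).ch = a l) ∧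
      ∏ l, (t l).ev ζ.1 = (Fintype.card k : ℂ) ^ e}

variable {ζ p f} {ι κ : Type} [Fintype ι] [DecidableEq ι] [Fintype κ] [DecidableEq κ]

/-- renaming as a linear equivalence -/
def st2aEquiv (m : ℕ) (k : Type) [Field k] {ι κ : Type} [Fintype ι] [Fintype κ] (e : ι ≃ κ) :
    G m k ι ≃ₗ[ℂ] G m k κ :=
  LinearEquiv.ofLinearMap (reG e) (reG e.symm)
    (LinearMap.ext fun x => by simpa using reG_symm e.symm x)
    (LinearMap.ext fun x => reG_symm e x)

omit [NeZero m] [Fintype k] [NeZero (m : k)] [DecidableEq ι] [DecidableEq κ] in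
theorem st2a_surj (e : ι ≃ κ) (x : G m k κ) : ∃ y : G m k ι, x = reG e y :=
  ⟨reG e.symm x, by simpa using (reG_symm e.symm x).symm⟩

omit [NeZero m] [Fintype k] [NeZero (m : k)] [DecidableEq ι] [DecidableEq κ] in
theorem st2a_fr (e : ι ≃ κ) (x : G m k ι) (c : ℂ) :
    fr p (fun _ => f) (reG e x) = c • reG e x ↔ fr p (fun _ => f) x = c • x := by
  have h1 : reG e (fr p (fun _ => f) x) = fr p (fun _ => f) (reG e x) := reG_fr p e _ x
  rw [← h1, ← map_smul]
  constructor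
  · intro h
    have h2 : reG e (fr p (fun _ => f) x - c • x) = 0 := by rw [map_sub, h, sub_self]
    exact sub_eq_zero.1 (reG_inj e h2)
  · intro h
    rw [h]

theorem Str.reindex (e : ι ≃ κ) {a : κ → Ch m} (h : Str ζ p f (a ∘ e)) : Str ζ p f a := by
  have hneg : ∀ y : G m k ι, reG e y ∈ Ga ζ (-a) ↔ y ∈ Ga ζ (-(a ∘ e)) := fun y => reG_Ga e
  refine ⟨?_, ?_, ?_, fun n => ?_⟩
  · have h1 : (Ga ζ a : Submodule ℂ (G m k κ)) = (Ga ζ (a ∘ e)).map (reG e) := by
      ext x
      constructor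
      · intro hx
        obtain ⟨y, rfl⟩ := st2a_surj e x
        exact ⟨y, (reG_Ga e).1 hx, rfl⟩
      · rintro ⟨y, hy, rfl⟩
        exact (reG_Ga e).2 hy
    have := h.fin
    rw [h1]
    infer_instance
  · intro x hx h0
    obtain ⟨x, rfl⟩ := st2a_surj e x
    rw [h.nd x ((reG_Ga e).1 hx) fun y hy => ?_, map_zero]
    rw [← prg_reG e]
    exact h0 _ ((hneg y).2 hy)
  · intro x hx y hy c c' hc hc' hn
    obtain ⟨x, rfl⟩ := st2a_surj e x
    obtain ⟨y, rfl⟩ := st2a_surj e y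
    rw [prg_reG]
    refine h.van x ((reG_Ga e).1 hx) y ((hneg y).1 hy) c c' ((st2a_fr e x c).1 hc)
      ((st2a_fr e y c').1 hc') ?_
    rwa [Fintype.card_congr e]
  · have h1 : (Ga ζ a : Submodule ℂ (G m k κ)) ⊓
        Module.End.eigenspace (fr p fun _ => f) ((Fintype.card k : ℂ) ^ n) =
        ((Ga ζ (a ∘ e) : Submodule ℂ (G m k ι)) ⊓
          Module.End.eigenspace (fr p fun _ => f) ((Fintype.card k : ℂ) ^ n)).map
          (st2aEquiv m k e : G m k ι →ₗ[ℂ] G m k κ) := by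
      ext x
      constructor
      · rintro ⟨hx, hx'⟩
        obtain ⟨y, rfl⟩ := st2a_surj e x
        exact ⟨y, ⟨(reG_Ga e).1 hx, Module.End.mem_eigenspace_iff.2
          ((st2a_fr e y _).1 (Module.End.mem_eigenspace_iff.1 hx'))⟩, rfl⟩
      · rintro ⟨y, ⟨hy, hy'⟩, rfl⟩
        exact ⟨(reG_Ga e).2 hy, Module.End.mem_eigenspace_iff.2
          ((st2a_fr e y _).2 (Module.End.mem_eigenspace_iff.1 hy'))⟩
    rw [h1, LinearEquiv.finrank_map_eq, h.dim n]
    refine Nat.card_congr (Equiv.subtypeEquiv (e.arrowCongr (Equiv.refl _)) fun t => ?_)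
    refine and_congr ?_ ?_
    · constructor
      · intro ht l
        simpa using ht (e.symm l)
      · intro ht l
        simpa using ht (e l)
    · have h2 : ∏ l, (e.arrowCongr (Equiv.refl (Tau m)) t l).ev ζ.1 = ∏ l, (t l).ev ζ.1 :=
        Equiv.prod_comp e.symm fun l => (t l).ev ζ.1
      rw [h2]

theorem str_deg {a : ι → Ch m} {i : ι} (h0 : a i ≠ 0) (h : ¬ Nd (a i)) : Str ζ p f a := by
  have hb : (Ga ζ a : Submodule ℂ (G m k ι)) = ⊥ :=
    (Submodule.eq_bot_iff _).2 fun x hx => deg_part h0 h (mem_Ga.1 hx i)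
  refine ⟨?_, ?_, ?_, fun n => ?_⟩
  · rw [hb]
    infer_instance
  · intro x hx _
    rwa [hb, Submodule.mem_bot] at hx
  · intro x hx y _ c c' _ _ _
    rw [hb, Submodule.mem_bot] at hx
    rw [hx, map_zero, LinearMap.zero_apply]
  · rw [hb, bot_inf_eq, finrank_bot]
    symm
    rw [Nat.card_eq_zero]
    refine Or.inl ⟨fun t => ?_⟩
    have h1 := t.2.1 i
    rcases h2 : t.1 i with b | b
    · rw [h2] at h1
      exact h0 h1.symm
    · rw [h2] at h1
      exact h (h1 ▸ b.2)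

omit [NeZero m] [Fintype ι] [DecidableEq ι] in
theorem st2a_lab {a : ι → Ch m} (ha : ∀ i, Nd (a i)) {t : ι → Tau m} (ht : ∀ l, (t l).ch = a l) :
    t = fun l => Sum.inr ⟨a l, ha l⟩ := by
  funext l
  have h1 := ht l
  rcases h2 : t l with b | b
  · rw [h2] at h1
    have h3 : a l = 0 := h1.symm
    exact absurd (by rw [h3]; rfl) (ha l).1
  · rw [h2] at h1
    exact congrArg Sum.inr (Subtype.ext h1)

variable (hf : Fintype.card k = p ^ f)
include hf

theorem str_nd {a : ι → Ch m} (ha : ∀ i, Nd (a i))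
    (hex : ∀ e : ℤ, ∏ i, -Jac ζ.1 (a i) = (Fintype.card k : ℂ) ^ e → HasPair ζ a) :
    Str ζ p f a := by
  have hfr : ∀ {b : ι → Ch m}, (∀ i, Nd (b i)) → ∀ {x : G m k ι}, x ∈ Ga ζ b →
      fr p (fun _ => f) x = (∏ i, -Jac ζ.1 (b i)) • x := fun hb x hx => by
    simpa only [mul_one, pow_one] using fr_Ga p (RingHom.id k) (z := ζ.1) rfl hf hb hx 1
  have key : ∀ x ∈ (Ga ζ a : Submodule ℂ (G m k ι)), x ≠ 0 → HasPair ζ a := by
    intro x hx h0
    have hq : QLike (p ^ f) (fr p fun _ => f : Module.End ℂ (G m k ι)) :=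
      qlike_fr p fun c => by rw [← hf]; exact FiniteField.pow_card c
    obtain ⟨i, -, hi⟩ := hq.eigen (NeZero.ne m) (pow_pos (Fact.out : p.Prime).pos f) h0
      (hfr ha hx)
    exact hex i (by rw [hi, ← hf, zpow_natCast])
  have line : HasPair ζ a → ∃ u : G m k ι, u ≠ 0 ∧ Ga ζ a = Submodule.span ℂ {u} := by
    rintro ⟨u, hu, w, hw, huw⟩
    refine ⟨u, fun h => huw (by rw [h, map_zero, LinearMap.zero_apply]), le_antisymm ?_ ?_⟩
    · intro x hx
      obtain ⟨c, hc⟩ := nd_span p ha hu hw huw hx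
      exact Submodule.mem_span_singleton.2 ⟨c, hc.symm⟩
    · rwa [Submodule.span_singleton_le_iff_mem]
  refine ⟨?_, ?_, ?_, fun n => ?_⟩
  · by_cases hP : HasPair ζ a
    · obtain ⟨u, -, hu⟩ := line hP
      rw [hu]
      infer_instance
    · have hb : (Ga ζ a : Submodule ℂ (G m k ι)) = ⊥ :=
        (Submodule.eq_bot_iff _).2 fun x hx => by_contra fun h0 => hP (key x hx h0)
      rw [hb]
      infer_instance
  · intro x hx h0
    by_contra hne
    obtain ⟨u, -, w, hw, huw⟩ := key x hx hne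
    exact hne (nd_line p ha hw huw hx (h0 w hw))
  · intro x hx y hy c c' hc hc' hn
    by_cases hx0 : x = 0
    · rw [hx0, map_zero, LinearMap.zero_apply]
    by_cases hy0 : y = 0
    · rw [hy0, map_zero]
    exfalso
    have h1 : c = ∏ i, -Jac ζ.1 (a i) :=
      smul_left_injective ℂ hx0 (hc.symm.trans (hfr ha hx))
    have h2 : c' = ∏ i, -Jac ζ.1 ((-a) i) :=
      smul_left_injective ℂ hy0 (hc'.symm.trans (hfr (fun i => (ha i).neg) hy))
    have h3 : c * c' = (Fintype.card k : ℂ) ^ Fintype.card ι := by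
      rw [h1, h2, ← Finset.prod_mul_distrib, ← Finset.card_univ (α := ι),
        ← Finset.prod_const]
      refine Finset.prod_congr rfl fun i _ => ?_
      rw [neg_mul_neg]
      exact Jac_mul ζ.2 (ha i)
    rw [h3, norm_pow, Complex.norm_natCast] at hn
    exact lt_irrefl _ hn
  · by_cases he : ∏ i, -Jac ζ.1 (a i) = (Fintype.card k : ℂ) ^ n
    · obtain ⟨u, hu0, hu⟩ := line (hex n he)
      have h1 : (Ga ζ a : Submodule ℂ (G m k ι)) ≤
          Module.End.eigenspace (fr p fun _ => f) ((Fintype.card k : ℂ) ^ n) := fun x hx =>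
        Module.End.mem_eigenspace_iff.2 (by rw [hfr ha hx, he])
      rw [inf_eq_left.2 h1, hu, finrank_span_singleton hu0]
      symm
      rw [Nat.card_eq_one_iff_unique]
      exact ⟨⟨fun t t' => Subtype.ext ((st2a_lab ha t.2.1).trans (st2a_lab ha t'.2.1).symm)⟩,
        ⟨⟨fun l => Sum.inr ⟨a l, ha l⟩, fun _ => rfl, he⟩⟩⟩
    · have h1 : (Ga ζ a : Submodule ℂ (G m k ι)) ⊓
          Module.End.eigenspace (fr p fun _ => f) ((Fintype.card k : ℂ) ^ n) = ⊥ := by
        refine (Submodule.eq_bot_iff _).2 fun x hx => by_contra fun h0 => he ?_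
        exact smul_left_injective ℂ h0
          ((hfr ha hx.1).symm.trans (Module.End.mem_eigenspace_iff.1 hx.2))
      rw [h1, finrank_bot]
      symm
      rw [Nat.card_eq_zero]
      refine Or.inl ⟨fun t => he ?_⟩
      have h2 := t.2.2
      rw [st2a_lab ha t.2.1] at h2
      exact h2

omit hf in
variable (ζ) in
/-- the hypothesis on the existence of cycles -/
def HT : Prop := ∀ (ι : Type) [Fintype ι] [DecidableEq ι] (a : ι → Ch m), (∀ i, Nd (a i)) →
  ∀ e : ℤ, ∏ i, -Jac ζ.1 (a i) = (Fintype.card k : ℂ) ^ e →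
    Even (Fintype.card ι) ∧ HasPair ζ a

end Pool.Agent.Tate
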