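import Pool.Agent.P.MP_2ce3e7_ag.St2

/-! Structure of the Grothendieck group. -/

set_option autoImplicit false

noncomputable section

namespace Pool.Agent.Tate

open MvPolynomial

variable {m : ℕ} [NeZero m] {k ι : Type} [Field k] [Fintype k] [NeZero (m : k)] {ζ : Rt m k}
  {p : ℕ} [Fact p.Prime] [CharP k p] {f : ℕ} [Fintype ι] [DecidableEq ι]

omit [NeZero (m : k)] [Fact p.Prime] [CharP k p] in
theorem st3_pow (ζ : Rt m k) (hf : Fintype.card k = p ^ f) : (p : ZMod m) ^ f = 1 := by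
  have h0 : ζ.1 ≠ 0 := ζ.2.ne_zero (NeZero.ne m)
  have h1 : m ∣ Fintype.card k - 1 :=
    ζ.2.dvd_of_pow_eq_one _ (FiniteField.pow_card_sub_one_eq_one _ h0)
  have h2 : ((Fintype.card k - 1 : ℕ) : ZMod m) = 0 := (ZMod.natCast_eq_zero_iff _ _).2 h1
  rw [Nat.cast_sub Fintype.card_pos, hf, Nat.cast_pow, Nat.cast_one] at h2
  exact sub_eq_zero.1 h2

omit [NeZero (m : k)] in
theorem st3_eig (hf : Fintype.card k = p ^ f) (a : ι → Ch m) {c : ℂ} {x : G m k ι}
    (hx : x ∈ Module.End.eigenspace (fr p fun _ => f) c) :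
    pr ζ a x ∈ Module.End.eigenspace (fr p fun _ => f) c := by
  rw [Module.End.mem_eigenspace_iff] at hx ⊢
  rw [fr_pr p (fun _ => st3_pow ζ hf), hx, map_smul]

theorem st3_prg {a : ι → Ch m} {x : G m k ι} (hx : x ∈ Ga ζ a) (y : G m k ι) :
    prg x y = prg x (pr ζ (-a) y) := by
  conv_lhs => rw [← sum_pr (ζ := ζ) y, map_sum]
  refine Finset.sum_eq_single (-a) (fun b _ hb => ?_) fun h => absurd (Finset.mem_univ _) h
  exact prg_Ga (fun e => hb (eq_neg_of_add_eq_zero_right e)) hx (pr_mem b y)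

/-- the involution on labels -/
def st3inv (t : Tau m) : Tau m := Sum.map (fun b => !b) (fun a => ⟨-a.1, a.2.neg⟩) t

theorem st3inv_inv (t : Tau m) : st3inv (st3inv t) = t := by
  rcases t with b | a
  · simp [st3inv]
  · simp [st3inv]

omit [NeZero (m : k)] in
theorem st3inv_ev (t : Tau m) : t.ev ζ.1 * (st3inv t).ev ζ.1 = Fintype.card k := by
  rcases t with (_ | _) | a
  · simp [st3inv, Tau.ev]
  · simp [st3inv, Tau.ev]
  · simpa [st3inv, Tau.ev] using Jac_mul ζ.2 a.2

omit [NeZero (m : k)] [DecidableEq ι] in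
theorem st3inv_prod {t : ι → Tau m} {i j : ℕ} (hij : i + j = Fintype.card ι)
    (ht : ∏ l, (t l).ev ζ.1 = (Fintype.card k : ℂ) ^ i) :
    ∏ l, (st3inv (t l)).ev ζ.1 = (Fintype.card k : ℂ) ^ j := by
  have h0 : (Fintype.card k : ℂ) ≠ 0 := Nat.cast_ne_zero.2 Fintype.card_ne_zero
  refine mul_left_cancel₀ (pow_ne_zero i h0) ?_
  rw [← pow_add, hij, ← ht, ← Finset.prod_mul_distrib, Finset.prod_congr rfl fun l _ => st3inv_ev _,
    Finset.prod_const, Finset.card_univ]

section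
variable (h : ∀ a : ι → Ch m, Str ζ p f a)
include h

theorem G_fin : FiniteDimensional ℂ (G m k ι) := by
  have := fun a => (h a).fin
  have h1 : (⨆ a : ι → Ch m, Ga ζ a : Submodule ℂ (G m k ι)) = ⊤ := by
    refine eq_top_iff.2 fun x _ => ?_
    rw [← sum_pr (ζ := ζ) x]
    exact Submodule.sum_mem _ fun a _ => Submodule.mem_iSup_of_mem a (pr_mem a x)
  have h2 : FiniteDimensional ℂ (⨆ a : ι → Ch m, Ga ζ a : Submodule ℂ (G m k ι)) := inferInstance
  rw [h1] at h2
  exact Module.Finite.equiv Submodule.topEquiv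

theorem G_nd {x : G m k ι} (hx : ∀ y, prg x y = 0) : x = 0 := by
  rw [← sum_pr (ζ := ζ) x]
  refine Finset.sum_eq_zero fun a _ => (h a).nd _ (pr_mem a x) fun y hy => ?_
  have h1 := st3_prg hy x
  rw [neg_neg, prg_comm, hx] at h1
  rw [prg_comm, ← h1]

variable (hf : Fintype.card k = p ^ f)
include hf

theorem G_van {x y : G m k ι} {i i' : ℕ}
    (hx : x ∈ Module.End.eigenspace (fr p fun _ => f) ((Fintype.card k : ℂ) ^ i))
    (hy : y ∈ Module.End.eigenspace (fr p fun _ => f) ((Fintype.card k : ℂ) ^ i'))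
    (hi : i + i' < Fintype.card ι) : prg x y = 0 := by
  rw [← sum_pr (ζ := ζ) x, map_sum, LinearMap.sum_apply]
  refine Finset.sum_eq_zero fun a _ => ?_
  rw [st3_prg (pr_mem a x) y]
  refine (h a).van _ (pr_mem a x) _ (pr_mem _ y) _ _
    (Module.End.mem_eigenspace_iff.1 (st3_eig hf a hx))
    (Module.End.mem_eigenspace_iff.1 (st3_eig hf _ hy)) ?_
  rw [← pow_add, norm_pow, Complex.norm_natCast]
  exact pow_lt_pow_right₀ (by exact_mod_cast Fintype.one_lt_card) hi

theorem G_dim (i : ℕ) : Module.finrank ℂ (Module.End.eigenspace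
      (fr p fun _ => f : Module.End ℂ (G m k ι)) ((Fintype.card k : ℂ) ^ i)) =
    Nat.card {t : ι → Tau m // ∏ l, (t l).ev ζ.1 = (Fintype.card k : ℂ) ^ i} := by
  classical
  set E := Module.End.eigenspace (fr p fun _ => f : Module.End ℂ (G m k ι))
    ((Fintype.card k : ℂ) ^ i) with hE
  have := G_fin h
  let F : E →ₗ[ℂ] ∀ a : ι → Ch m, ↥((Ga ζ a : Submodule ℂ (G m k ι)) ⊓ E) :=
    LinearMap.pi fun a => (pr ζ a ∘ₗ E.subtype).codRestrict _ fun x =>
      ⟨pr_mem a x.1, st3_eig hf a x.2⟩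
  have hF : Function.Bijective F := by
    constructor
    · refine (injective_iff_map_eq_zero F).2 fun x hx => Subtype.ext ?_
      rw [← sum_pr (ζ := ζ) x.1]
      exact Finset.sum_eq_zero fun a _ => congrArg Subtype.val (congrFun hx a)
    · intro z
      refine ⟨⟨∑ a, (z a).1, Submodule.sum_mem _ fun a _ => (z a).2.2⟩,
        funext fun a => Subtype.ext ?_⟩
      change pr ζ a (∑ b, (z b).1) = (z a).1
      rw [map_sum, Finset.sum_eq_single a (fun b _ hb => pr_of_ne hb.symm (z b).2.1)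
        fun h => absurd (Finset.mem_univ _) h]
      exact pr_of_mem (z a).2.1
  rw [(LinearEquiv.ofBijective F hF).finrank_eq, Module.finrank_pi_fintype]
  have h1 : ∀ a : ι → Ch m, Module.finrank ℂ ↥((Ga ζ a : Submodule ℂ (G m k ι)) ⊓ E) =
      Nat.card {t : ι → Tau m // (∀ l, (t l).ch = a l) ∧
        ∏ l, (t l).ev ζ.1 = (Fintype.card k : ℂ) ^ i} := fun a => by
    have h2 := (h a).dim (i : ℤ)
    rwa [zpow_natCast] at h2
  rw [Finset.sum_congr rfl fun a _ => h1 a, ← Nat.card_sigma]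
  refine Nat.card_congr
    { toFun := fun x => ⟨x.2.1, x.2.2.2⟩
      invFun := fun t => ⟨fun l => (t.1 l).ch, t.1, fun _ => rfl, t.2⟩
      left_inv := ?_
      right_inv := fun _ => rfl }
  rintro ⟨a, t, h2, h3⟩
  obtain rfl : (fun l => (t l).ch) = a := funext h2
  rfl

end

omit [NeZero (m : k)] in
theorem card_symm {i : ℕ} (hi : i ≤ Fintype.card ι) :
    Nat.card {t : ι → Tau m // ∏ l, (t l).ev ζ.1 = (Fintype.card k : ℂ) ^ i} =
      Nat.card {t : ι → Tau m //
        ∏ l, (t l).ev ζ.1 = (Fintype.card k : ℂ) ^ (Fintype.card ι - i)} := by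
  refine Nat.card_congr
    { toFun := fun t => ⟨fun l => st3inv (t.1 l), st3inv_prod (by omega) t.2⟩
      invFun := fun t => ⟨fun l => st3inv (t.1 l), st3inv_prod (by omega) t.2⟩
      left_inv := fun t => Subtype.ext (funext fun l => st3inv_inv _)
      right_inv := fun t => Subtype.ext (funext fun l => st3inv_inv _) }

theorem even_of_ev (h : HT ζ) {t : ι → Tau m} {i : ℕ}
    (ht : ∏ l, (t l).ev ζ.1 = (Fintype.card k : ℂ) ^ i) :
    Even (Finset.univ.filter fun l => (t l).isRight).card := by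
  have h0 : (Fintype.card k : ℂ) ≠ 0 := Nat.cast_ne_zero.2 Fintype.card_ne_zero
  have h1 : ∀ l : {l // (t l).isRight}, ∃ a, t l.1 = .inr a := fun l => Sum.isRight_iff.1 l.2
  choose a ha using h1
  have h2 : ∀ l : {l // ¬ (t l).isRight}, ∃ n : ℕ, (t l.1).ev ζ.1 = (Fintype.card k : ℂ) ^ n := by
    rintro ⟨l, hl⟩
    rcases e : t l with (_ | _) | b
    · exact ⟨0, by simp [Tau.ev]⟩
    · exact ⟨1, by simp [Tau.ev]⟩
    · simp [e] at hl
  choose n hn using h2
  rw [← Fintype.prod_subtype_mul_prod_subtype fun l => (t l).isRight,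
    Finset.prod_congr rfl fun l _ => hn l, Finset.prod_pow_eq_pow_sum] at ht
  rw [← Fintype.card_subtype]
  refine (h _ (fun l => (a l).1) (fun l => (a l).2) ((i : ℤ) - (∑ l, n l : ℕ)) ?_).1
  rw [zpow_sub₀ h0, zpow_natCast, zpow_natCast, eq_div_iff (pow_ne_zero _ h0), ← ht]
  refine congrArg (· * _) (Finset.prod_congr rfl fun l _ => ?_)
  rw [ha l]
  rfl

end Pool.Agent.Tate
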