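import Pool.Agent.P.MP_2ce3e7_ag.TE0

/-! Singular hyperbolic families. -/

set_option linter.unusedSectionVars false
set_option linter.unusedVariables false

open Function Matrix

noncomputable section

namespace Pool.Agent.CXD
open Finset

variable {k Ω : Type} [Field k] [Field Ω] [Algebra k Ω] {q : ℕ} {ε : ℤˣ} {s D : ℕ} [NeZero s]
  {R : ℤ → Prop} {f g : ℤ → ℤ} {ι : Type} [Fintype ι] {b : ι → Bool} {G : Gp Ω}
  {e : ℤ → ℤ → Ω} {θ : ℤ} [IsAlgClosed Ω] {z : ℤ → ι ⊕ ι → Ω}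

/-- vectors and momenta at the gap after `θ` are singular -/
def Hq (ε : ℤˣ) (D : ℕ) (R : ℤ → Prop) (f : ℤ → ℤ) (e : ℤ → ℤ → Ω) (z : ℤ → ι ⊕ ι → Ω) (θ : ℤ) :
    Prop := ∀ u ∈ bd D R f θ, Cf (-ε) (z u) = 0 ∧ Cf (-ε) (Pv D e z θ u) = 0

theorem ne_of_neg {ε : ℤˣ} (h : -ε = 1) : ε ≠ 1 := by
  rintro rfl
  exact absurd h (by decide)

theorem C3.hq_step (h : C3 s D R f g) (ha : Amx q ε s D e) (hs : Se ε R f e) (hp : Piv R f e)
    (h1 : Hy ε D R f e z (θ - 1)) (hq : Hq ε D R f e z (θ - 1)) (h2 : Ew D e z θ = 0) :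
    Hq ε D R f e z θ := by
  classical
  by_cases hε : -ε = 1
  swap
  · exact fun u _ => ⟨Cf_of_ne _ hε, Cf_of_ne _ hε⟩
  have hst : ∀ u, Pv D e z θ u = Pv D e z (θ - 1) u + (-e u θ) • z θ := fun u => by
    have h3 : u + D < θ → e u θ = 0 := fun h3 => by
      by_contra h4
      have h5 := (hs.of_ne ha h4).2.2.1 (by omega)
      have := h.hi u
      omega
    rw [Pv.step z h3, neg_smul, add_neg_cancel_comm]
  by_cases hθ : R θ
  swap
  · have h0 : Pv D e z θ = Pv D e z (θ - 1) := funext fun u => by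
      have h3 : e u θ = 0 := by
        by_contra h3
        exact hθ (hs.of_ne ha h3).2.1
      rw [hst, h3, neg_zero, zero_smul, add_zero]
    rw [Hq, h0, ← h.bd_of_not hθ]
    exact hq
  obtain ⟨hb, hw, hn⟩ := h.bd_step hθ
  have hπ : e (g θ) θ ≠ 0 := by
    have := hp _ (h.Rg θ hθ)
    rwa [h.fg θ hθ] at this
  have hz : z θ = (e (g θ) θ)⁻¹ • Pv D e z (θ - 1) (g θ) := by
    have h3 := hst (g θ)
    rw [Pv.zero hs z (by linarith [h.glt hθ]) (h.fg θ hθ).le, eq_comm, neg_smul, add_neg_eq_zero]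
      at h3
    rw [h3, smul_smul, inv_mul_cancel₀ hπ, one_smul]
  have hP : Pv D e z θ θ = -∑ v ∈ bd D R f (θ - 1), e θ v • z v := by
    have h3 := Ew.split (D := D) (e := e) z (θ := θ) (u := θ) (by omega) (by omega)
    have h4 : ∑ v ∈ insert θ (bd D R f (θ - 1)), e θ v • z v
        = ∑ v ∈ Icc (θ - D) θ, e θ v • z v := by
      refine Finset.sum_subset (fun v hv => ?_) fun v hv hv' => ?_
      · rcases Finset.mem_insert.1 hv with rfl | hv
        · exact Finset.mem_Icc.2 ⟨by omega, le_rfl⟩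
        · obtain ⟨_, h5, h6⟩ := h.toIs.mem_bd.1 hv
          have := h.hi v
          exact Finset.mem_Icc.2 ⟨by omega, by omega⟩
      · by_contra h5
        obtain ⟨_, h6, _, h7, _⟩ := hs.of_ne ha (left_ne_zero_of_smul h5)
        have h8 := (Finset.mem_Icc.1 hv).2
        have h9 := h7 h8
        rw [Finset.mem_insert, not_or, h.toIs.mem_bd] at hv'
        have := hv'.1
        exact hv'.2 ⟨h6, by omega, by omega⟩
    rw [h2, ← h4, Finset.sum_insert hn, hs.diag (ne_of_neg hε), zero_smul, zero_add] at h3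
    exact eq_neg_of_add_eq_zero_right h3.symm
  have a1 : Cf (-ε) (z θ) = 0 := by rw [hz, Cf_smul, (hq _ hw).2, mul_zero]
  intro u hu
  rw [hb, Finset.mem_insert, Finset.mem_erase] at hu
  rcases hu with rfl | ⟨-, hu⟩
  · refine ⟨a1, ?_⟩
    rw [hP, Cf_neg]
    exact Cf_sum _ _ (fun v hv => by rw [Cf_smul, (hq v hv).1, mul_zero]) fun v hv w hw' => by
      rw [Bf_smul_left, Bf_smul_right, (h1 v hv w hw').1, mul_zero, mul_zero]
  · refine ⟨(hq u hu).1, ?_⟩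
    rw [hst, Cf_add', Cf_smul, a1, (hq u hu).2, mul_zero, add_zero]
    rw [hz, Bf_smul_right, Bf_smul_right, (h1 u hu _ hw).2.2, mul_zero, mul_zero]

theorem C3.hq_up (h : C3 s D R f g) (ha : Amx q ε s D e) (hs : Se ε R f e) (hp : Piv R f e)
    (h1 : Hy ε D R f e z (-1)) (hq : Hq ε D R f e z (-1)) (h2 : ∀ u, 0 ≤ u → Ew D e z u = 0)
    (hθ : -1 ≤ θ) : Hq ε D R f e z θ := by
  induction θ, hθ using Int.leInduction with
  | base => exact hq
  | succ n hn ih =>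
    exact h.hq_step ha hs hp (by rw [add_sub_cancel_right]; exact h.hy_up ha hs hp h1 h2 hn)
      (by rwa [add_sub_cancel_right]) (h2 _ (by omega))

variable [Sq k q]

theorem Is.hq_per (k : Type) [Field k] [Algebra k Ω] [Sq k q] (h : Is s D R f)
    (ha : Amx q ε s D e) (hz : Pe (FV q (-ε) b) s z) :
    Hq ε D R f e z (θ + s) ↔ Hq ε D R f e z θ := by
  have h0 := (Sq.su : Su k q).pos.ne'
  have key : ∀ u, (Cf (-ε) (z (u + s)) = 0 ∧ Cf (-ε) (Pv D e z (θ + s) (u + s)) = 0) ↔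
      (Cf (-ε) (z u) = 0 ∧ Cf (-ε) (Pv D e z θ u) = 0) := fun u => by
    rw [Pv.per (sem_FV (k := k) (-ε) b) ha hz, hz, Cf_neg, Cf_smul, Cf_FV k, Cf_FV k, sq,
      sg_mul_self, one_mul, pow_eq_zero_iff h0, pow_eq_zero_iff h0]
  refine ⟨fun h2 u hu => (key u).1 (h2 _ (h.bd_per.2 hu)), fun h2 u hu => ?_⟩
  obtain ⟨u, rfl⟩ : ∃ u', u = u' + s := ⟨u - s, by ring⟩
  exact (key u).2 (h2 _ (h.bd_per.1 hu))

/-- periodic solutions that are hyperbolic and singular -/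
def Yq (q : ℕ) (ε : ℤˣ) (b : ι → Bool) (s D : ℕ) (R : ℤ → Prop) (f : ℤ → ℤ)
    (e : ℤ → ℤ → Ω) (z : ℤ → ι ⊕ ι → Ω) : Prop :=
  Ys q ε b s D R f e z ∧ ∀ θ, Hq ε D R f e z θ

/-- the variety of such solutions -/
def Ybq (q : ℕ) (ε : ℤˣ) (b : ι → Bool) (s D : ℕ) (R : ℤ → Prop) (f : ℤ → ℤ)
    (y : Ecf Ω s D × (ZMod s → ι ⊕ ι → Ω)) : Prop :=
  Yq q ε b s D R f (ee q ε y.1) (pext (FV q (-ε) b) s y.2)

theorem Ys.yq (k : Type) [Field k] [Algebra k Ω] [Sq k q] (hy : Ys q ε b s D R f e z)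
    (h : C3 s D R f g) (hq : Hq ε D R f e z (-1)) : Yq q ε b s D R f e z :=
  ⟨hy, per_ind s (P := fun θ => Hq ε D R f e z θ) (fun θ => h.toIs.hq_per k hy.am hy.pe) (-1)
    fun θ hθ _ => h.hq_up hy.am hy.se hy.piv (hy.hy _) hq (fun u _ => hy.ew u) hθ⟩

end Pool.Agent.CXD
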