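import Pool.Agent.P.MP_2ce3e7_ag.SI2
import Pool.Agent.P.MP_2ce3e7_ag.SB6

/-! Quadratic forms and the half-normalised function. -/

set_option linter.unusedSectionVars false
set_option linter.unusedVariables false

open Function Matrix

noncomputable section

namespace Pool.Agent.CXD
open Finset

variable {k Ω : Type} [Field k] [Field Ω] [Algebra k Ω]

/-- the standard quadratic form; zero in the alternating case -/
def Cf {ι : Type} [Fintype ι] (ε : ℤˣ) (x : ι ⊕ ι → Ω) : Ω :=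
  if ε = 1 then ∑ i, x (.inl i) * x (.inr i) else 0

/-- the quadratic form of a plane -/
def C1 (ε : ℤˣ) (x : Ω × Ω) : Ω := if ε = 1 then x.1 * x.2 else 0

/-- the half-normalised quadratic function -/
def phq {W : Type} (s D : ℕ) (B : W → W → Ω) (C : W → Ω) (e : ℤ → ℤ → Ω) (x : ℤ → W) : Ω :=
  ∑ v ∈ Ico (0 : ℤ) s, (e v v * C (x v) + ∑ u ∈ Ico (v - D) v, e u v * B (x u) (x v))

variable (k) in
/-- a form with a quadratic refinement -/
structure Fq (q : ℕ) (ε : ℤˣ) {n : Type} [Fintype n] (B : (n → Ω) → (n → Ω) → Ω)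
    (C : (n → Ω) → Ω) (F : Equiv.Perm (n → Ω)) : Prop extends Fo k q ε B F where
  cadd : ε = 1 → ∀ x y, C (x + y) = C x + C y + B x y
  czero : ε ≠ 1 → ∀ x, C x = 0
  ctwo : ∀ x, B x x = 2 * C x
  csmul : ∀ (t : Ω) x, C (t • x) = t ^ 2 * C x
  cfr : ∀ x, C (F x) = C x ^ q
  cpo : Pq k (fun _ => True) C

variable {q : ℕ} {ε : ℤˣ} {s D : ℕ} [NeZero s] {R : ℤ → Prop} {f : ℤ → ℤ} {e : ℤ → ℤ → Ω}
  {n : Type} [Fintype n] {B : (n → Ω) → (n → Ω) → Ω} {C : (n → Ω) → Ω} {F : Equiv.Perm (n → Ω)}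

theorem sg_of_ne {ε : ℤˣ} (h : ε ≠ 1) : (sg ε : Ω) = -1 := by
  rw [(Int.units_eq_one_or ε).resolve_left h, sg_neg, sg_one]

theorem Se.diag (hs : Se ε R f e) (h : ε ≠ 1) (v : ℤ) : e v v = 0 :=
  hs v v le_rfl fun c => h (c.2.2.2 rfl)

theorem Fq.c0 (hF : Fq k q ε B C F) : C 0 = 0 := by
  have := hF.csmul 0 0
  rwa [zero_smul, zero_pow two_ne_zero, zero_mul] at this

section
variable [IsAlgClosed Ω] {ι : Type} [Fintype ι] (x y : ι ⊕ ι → Ω)

theorem Cf_of_ne (h : ε ≠ 1) : Cf ε x = 0 := if_neg h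

theorem Cf_add (h : ε = 1) : Cf ε (x + y) = Cf ε x + Cf ε y + Bf ε x y := by
  subst h
  simp only [Cf, Bf, if_true, sg_one, Pi.add_apply, ← sum_add_distrib]
  exact sum_congr rfl fun i _ => by ring

theorem Cf_add' (h : Bf ε x y = 0) : Cf ε (x + y) = Cf ε x + Cf ε y := by
  by_cases h1 : ε = 1
  · rw [Cf_add x y h1, h, add_zero]
  · simp only [Cf_of_ne _ h1, add_zero]

theorem Cf_smul (t : Ω) : Cf ε (t • x) = t ^ 2 * Cf ε x := by
  unfold Cf
  split_ifs
  · simp only [Pi.smul_apply, smul_eq_mul, mul_sum]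
    exact sum_congr rfl fun i _ => by ring
  · rw [mul_zero]

theorem Cf_neg : Cf ε (-x) = Cf ε x := by
  rw [← neg_one_smul Ω x, Cf_smul, neg_one_sq, one_mul]

theorem Cf_zero : Cf ε (0 : ι ⊕ ι → Ω) = 0 := by simp [Cf]

theorem Cf_two : Bf ε x x = 2 * Cf ε x := by
  by_cases h : ε = 1
  · subst h
    simp only [Cf, Bf, if_true, sg_one, mul_sum]
    exact sum_congr rfl fun i _ => by ring
  · rw [Cf_of_ne _ h, mul_zero, Bf, sg_of_ne h]
    exact sum_eq_zero fun i _ => by ring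

theorem Cf_single [DecidableEq ι] (j : ι ⊕ ι) : Cf ε (Pi.single j (1 : Ω) : ι ⊕ ι → Ω) = 0 := by
  unfold Cf
  split_ifs
  · refine sum_eq_zero fun i _ => ?_
    cases j <;> simp [Pi.single_apply]
  · rfl

/-- sums of singular orthogonal vectors are singular -/
theorem Cf_sum {κ : Type} (S : Finset κ) (z : κ → ι ⊕ ι → Ω) (h : ∀ a ∈ S, Cf ε (z a) = 0)
    (h' : ∀ a ∈ S, ∀ a' ∈ S, Bf ε (z a) (z a') = 0) : Cf ε (∑ a ∈ S, z a) = 0 := by
  classical
  induction S using Finset.induction_on with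
  | empty => exact Cf_zero
  | insert a S ha ih =>
    rw [sum_insert ha, Cf_add', h a (mem_insert_self _ _), zero_add,
      ih (fun a ha => h a (mem_insert_of_mem ha))
        fun a ha a' ha' => h' a (mem_insert_of_mem ha) a' (mem_insert_of_mem ha')]
    rw [Bf_sum_right]
    exact sum_eq_zero fun a' ha' => h' a (mem_insert_self _ _) a' (mem_insert_of_mem ha')

/-- an isometry of the bilinear form with singular columns preserves the quadratic form -/
theorem Cf_mulVec [DecidableEq ι] {m : Matrix (ι ⊕ ι) (ι ⊕ ι) Ω}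
    (h : ε = 1 → ∀ x y, Bf ε (m *ᵥ x) (m *ᵥ y) = Bf ε x y) (h' : ∀ j, Cf ε (m.col j) = 0) :
    Cf ε (m *ᵥ x) = Cf ε x := by
  by_cases h1 : ε = 1
  swap
  · rw [Cf_of_ne _ h1, Cf_of_ne _ h1]
  induction x using Pi.single_induction with
  | zero => rw [mulVec_zero]
  | add x y hx hy => rw [mulVec_add, Cf_add _ _ h1, Cf_add _ _ h1, hx, hy, h h1]
  | single j t =>
    rw [← mul_one t, ← smul_eq_mul, Pi.single_smul', mulVec_smul, Cf_smul, Cf_smul,
      mulVec_single_one, h', Cf_single]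

end

variable [Sq k q] [IsAlgClosed Ω]

theorem Cf_FV (k : Type) [Field k] [Algebra k Ω] [Sq k q] {ι : Type} [Fintype ι] (b : ι → Bool)
    (x : ι ⊕ ι → Ω) : Cf ε (FV q ε b x) = Cf ε x ^ q := by
  have hq : Su k q := Sq.su
  by_cases h : ε = 1
  · subst h
    simp only [Cf, if_true, hq.sum_pow, FV_inl _ _ _ k, FV_inr _ _ _ k, sg_one, one_mul]
    refine sum_congr rfl fun i _ => ?_
    cases b i
    · simp [mul_pow]
    · simp [mul_pow, mul_comm]
  · rw [Cf_of_ne _ h, Cf_of_ne _ h, zero_pow hq.pos.ne']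

variable {α : Type} [Af Ω α] {p : α → Prop}

theorem Pq.cf {ι : Type} [Fintype ι] (ε : ℤˣ) {x : α → ι ⊕ ι → Ω} (h : Pq k p x) :
    Pq k p fun a => Cf ε (x a) :=
  Pq.ite _ (Pq.sum _ fun i => (h.eval _).mul (h.eval _)) (Pq.const 0)

theorem Pq.c1 (ε : ℤˣ) {x : α → Ω × Ω} (h : Pq k p x) : Pq k p fun a => C1 ε (x a) :=
  Pq.ite _ (h.fst.mul h.snd) (Pq.const 0)

theorem fq_bf {ι : Type} [Fintype ι] (ε : ℤˣ) (b : ι → Bool) :
    Fq k q ε (Bf ε : (ι ⊕ ι → Ω) → _) (Cf ε) (FV q ε b) :=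
  ⟨fd_bf ε b, fun h x y => Cf_add x y h, fun h x => Cf_of_ne x h, Cf_two, fun t x => Cf_smul x t,
    Cf_FV k b, Pq.cf ε Pq.id⟩

theorem Fq.pc (hF : Fq k q ε B C F) {x : α → n → Ω} (hx : Pq k p x) : Pq k p fun a => C (x a) :=
  Pq.comp hF.cpo hx

theorem Pq.phq {W : Type} {B : W → W → Ω} {C : W → Ω} {e : α → ℤ → ℤ → Ω} {x : α → ℤ → W}
    (h : ∀ u v, Pq k p fun a => e a u v) (hx : ∀ u v, Pq k p fun a => B (x a u) (x a v))
    (hc : ∀ u, Pq k p fun a => C (x a u)) : Pq k p fun a => phq s D B C (e a) (x a) :=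
  Pq.sum _ fun v => ((h v v).mul (hc v)).add (Pq.sum _ fun u => (h u v).mul (hx u v))

/-- a sum over pairs: the window may be put on the first or on the second index -/
theorem eqs_pair (L : ℕ) {g : α → ℤ → ℤ → Ω} (h : ∀ u v, Pq k p fun a => g a u v)
    (h1 : ∀ a u v, p a → g a (u + s) (v + s) = -g a u v ^ q) :
    Eqs k q p (fun a => ∑ v ∈ Ico (0 : ℤ) s, ∑ u ∈ Ico (v - L) v, g a u v)
      fun a => ∑ u ∈ Ico (0 : ℤ) s, ∑ v ∈ Ioc u (u + L), g a u v := by
  have hw : ∀ d : ℤ, Eqs k q p (fun a => ∑ u ∈ Ico (0 : ℤ) s, g a (u - d) u)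
      fun a => ∑ u ∈ Ico (0 : ℤ) s, g a (u + d - d) (u + d) :=
    fun d => (eqs_window s (τ := fun a u => g a (u - d) u) (fun u => h _ _) (fun a u ha => by
      rw [add_sub_right_comm, h1 a _ _ ha]) d).symm
  refine (Eqs.of_eq fun a ha => ?_).trans
    ((Eqs.sum (Icc (1 : ℤ) L) fun d _ => hw d).trans (Eqs.of_eq fun a ha => ?_))
  · rw [sum_comm]
    exact sum_congr rfl fun v _ => lo_SE2 (fun u => g a u v) v
  · rw [sum_comm]
    refine sum_congr rfl fun v _ => ?_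
    simp only [add_sub_cancel_right]
    exact (hi_SE2 (g a v) v).symm

section
variable (k : Type) [Field k] [Algebra k Ω] [Sq k q] {r κ : ℤ} {τ : Ω} (ho : Opd s R f r κ)
include k ho

theorem Opd.seq (hi : Is s D R f) (ha : Amx q ε s D e) (hs : Se ε R f e) :
    Se ε R f (ope κ (tws q s r τ) e) := by
  intro u v huv hn
  have hκ := ho.pos
  by_cases h0 : R u ∧ R v ∧ v ≤ f u
  · have h1 : ¬(u = v → ε = 1) := fun h => hn ⟨h0.1, h0.2.1, h0.2.2, h⟩
    rw [Classical.not_imp] at h1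
    obtain ⟨rfl, h3⟩ := h1
    have h4 : ∀ w, e w w = 0 := fun w => hs w w le_rfl fun h => h3 (h.2.2.2 rfl)
    obtain rfl : ε = -1 := (Int.units_eq_one_or ε).resolve_left h3
    rw [ope, h4, h4, ha.sym u (u + κ), sg_neg, sg_one]
    ring
  have a1 : tws q s r τ (u + κ) * e (u + κ) v = 0 := by
    by_contra h
    obtain ⟨b1, -, b2⟩ := ho.key_SI1 (k := k) hi (left_ne_zero_of_mul h)
    obtain ⟨-, b3, b4, -⟩ := hs.of_ne ha (right_ne_zero_of_mul h)
    have := hi.lo (u + κ)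
    exact h0 ⟨b1, b3, by omega⟩
  have a2 : tws q s r τ (v + κ) * e u (v + κ) = 0 := by
    by_contra h
    obtain ⟨b1, -, -⟩ := ho.key_SI1 (k := k) hi (left_ne_zero_of_mul h)
    obtain ⟨b3, -, b4, -⟩ := hs.of_ne ha (right_ne_zero_of_mul h)
    exact h0 ⟨b3, b1, by omega⟩
  have a3 : tws q s r τ (u + κ) * tws q s r τ (v + κ) * e (u + κ) (v + κ) = 0 := by
    by_contra h
    obtain ⟨b1, -, b2⟩ := ho.key_SI1 (k := k) hi (left_ne_zero_of_mul (left_ne_zero_of_mul h))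
    obtain ⟨b3, -, -⟩ := ho.key_SI1 (k := k) hi (right_ne_zero_of_mul (left_ne_zero_of_mul h))
    obtain ⟨-, -, b4, -⟩ := hs.of_ne ha (right_ne_zero_of_mul h)
    exact h0 ⟨b1, b3, by omega⟩
  rw [ope, hs u v huv hn, a1, a2, a3]
  simp

theorem Opd.amq (hi : Is s D R f) (ha : Amx q ε s D e) (hs : Se ε R f e) :
    Amx q ε s D (ope κ (tws q s r τ) e) := by
  refine ⟨fun u v => ?_, fun u v => ?_, fun u v h => ?_⟩
  · rw [ope, ope, ha.sym u v, ha.sym u (v + κ), ha.sym (u + κ) v, ha.sym (u + κ) (v + κ)]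
    ring
  · rw [ope, ope, add_right_comm u, add_right_comm v, pe_tw q r τ, pe_tw q r τ, ha.per, ha.per,
      ha.per, ha.per]
    simp only [fr_apply k, (Sq.su : Su k q).add_pow, mul_pow]
    ring
  · have := hi.hi u
    exact ho.seq (k := k) hi ha hs u v (by omega) fun h' => by
      have := h'.2.2.1
      omega

end

end Pool.Agent.CXD
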