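import Pool.Agent.P.MP_2ce3e7_ag.SW1
import Pool.Agent.P.MP_2ce3e7_ag.TE0

/-! Hyperbolic bases in characteristic two. -/

set_option linter.unusedSectionVars false
set_option linter.unusedVariables false

open Function Matrix

noncomputable section

namespace Pool.Agent.CXD
variable {Ω : Type} [Field Ω] [IsAlgClosed Ω] {q : ℕ}

/-- a quadratic refinement of an alternating form (`o`), or zero -/
structure Dq (q : ℕ) (o : Prop) {V : Type} [AddCommGroup V] [Module Ω V]
    (B : V →ₗ[Ω] V →ₗ[Ω] Ω) (C : V → Ω) (Φ : V → V) : Prop where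
  alt : ∀ x, B x x = 0
  add : o → ∀ x y, C (x + y) = C x + C y + B x y
  zero : ¬o → ∀ x, C x = 0
  smul : ∀ (t : Ω) x, C (t • x) = t ^ 2 * C x
  frb : ∀ x, C (Φ x) = C x ^ q

section
variable {o : Prop} {V : Type} [AddCommGroup V] [Module Ω V] {B : V →ₗ[Ω] V →ₗ[Ω] Ω} {C : V → Ω}
  {Φ : V → V}

theorem Dq.c0_TW (hc : Dq q o B C Φ) : C 0 = 0 := by
  have := hc.smul 0 0
  rwa [zero_smul, zero_pow two_ne_zero, zero_mul] at this

/-- sums of singular orthogonal vectors are singular -/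
theorem Dq.csum_TW (hc : Dq q o B C Φ) {κ : Type} (S : Finset κ) (z : κ → V)
    (h : ∀ a, C (z a) = 0) (h' : ∀ a a', B (z a) (z a') = 0) : C (∑ a ∈ S, z a) = 0 := by
  classical
  by_cases ho : o
  swap
  · exact hc.zero ho _
  induction S using Finset.induction_on with
  | empty => exact hc.c0_TW
  | insert a S ha ih =>
    rw [Finset.sum_insert ha, hc.add ho, h, ih, map_sum]
    simp only [h', Finset.sum_const_zero, add_zero]

/-- restriction to a stable subspace -/
theorem Dq.res_TW (hc : Dq q o B C Φ) (W : Submodule Ω V) (hW : ∀ x ∈ W, Φ x ∈ W) :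
    Dq q o (B.compl₁₂ W.subtype W.subtype) (fun x : W => C x) (fun x : W => ⟨Φ x, hW x x.2⟩) :=
  ⟨fun x => hc.alt x, fun ho x y => hc.add ho x y, fun ho x => hc.zero ho x,
    fun t x => hc.smul t x, fun x => hc.frb x⟩

/-- fixed dual vectors -/
theorem key_TW (k : Type) [Field k] [Algebra k Ω] [Sq k q] [Module.Finite Ω V]
    (h : Dt_SW1 q 1 B Φ) {κ : Type} [Fintype κ] {u : κ → V}
    (h3 : LinearIndependent Ω u) (h4 : ∀ a, Φ (u a) = u a) (a : κ) :
    ∃ g, B (u a) g = 1 ∧ (∀ a', a' ≠ a → B (u a') g = 0) ∧ Φ g = g := by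
  classical
  have hl : LinearIndependent Ω (B ∘ u) :=
    h3.map' B (LinearMap.ker_eq_bot'.2 fun x hx => h.nd x fun y => by rw [hx]; rfl)
  let W : Submodule Ω V := ⨅ i : {i // i ≠ a}, LinearMap.ker (B (u i))
  have hm (x : V) : x ∈ W ↔ ∀ a', a' ≠ a → B (u a') x = 0 := by
    simp only [W, Submodule.mem_iInf, LinearMap.mem_ker, Subtype.forall]
  obtain ⟨x, hx, hx0⟩ : ∃ x ∈ W, B (u a) x ≠ 0 := by
    by_contra hc
    push Not at hc
    have := mem_span_of_iInf_ker_le_ker (L := fun i : {i // i ≠ a} => B (u i)) (K := B (u a)) hc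
    refine hl.notMem_span_image (s := {i | i ≠ a}) (x := a) (fun e => e rfl) ?_
    rwa [Set.image_eq_range]
  obtain ⟨y, hy, e, hc⟩ := h.fixd k W
    (fun x hx => (hm _).2 fun a' ha => by rw [← h4 a']; exact h.orth ((hm x).1 hx a' ha))
    (B (u a)) hx hx0
  have e1 := h.frb (u a) y
  rw [h4, e, one_mul] at e1
  exact ⟨(B (u a) y)⁻¹ • y, by rw [map_smul, smul_eq_mul, inv_mul_cancel₀ hc],
    fun a' ha => by rw [map_smul, (hm y).1 hy a' ha, smul_zero],
    by rw [h.smul, e, inv_pow, ← e1]⟩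

/-- completion of fixed singular vectors -/
theorem Dq.dual (k : Type) [Field k] [Algebra k Ω] [Sq k q] [Module.Finite Ω V]
    (h : Dt_SW1 q 1 B Φ) (hc : Dq q o B C Φ) (h2 : (2 : Ω) = 0) {κ : Type} [Fintype κ] {u : κ → V}
    (h3 : LinearIndependent Ω u) (h4 : ∀ a, Φ (u a) = u a) (h5 : ∀ a a', B (u a) (u a') = 0)
    (h6 : ∀ a, C (u a) = 0) :
    ∃ f, Hs_SW1 1 B Φ (fun _ => false) u f ∧ ∀ a, C (f a) = 0 := by
  classical
  choose g g1 g0 gp using key_TW k h h3 h4
  have sy (x y : V) : B y x = B x y := by rw [h.symm, one_mul]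
  have gu (a c : κ) : B (u a) (g c) = if a = c then 1 else 0 := by
    split_ifs with e
    · rw [e, g1]
    · exact g0 c a e
  have gg (a c : κ) : B (g a) (g c) ^ q = B (g a) (g c) := by
    have e := h.frb (g a) (g c)
    rw [gp, gp, one_mul] at e
    exact e.symm
  have cg (a : κ) : C (g a) ^ q = C (g a) := by rw [← hc.frb, gp]
  let r : κ ≃ Fin (Fintype.card κ) := Fintype.equivFin κ
  obtain ⟨c, c0, c1, c2⟩ : ∃ c : κ → κ → Ω, (∀ a, c a a = C (g a)) ∧
      (∀ a d, a ≠ d → c a d + c d a = B (g a) (g d)) ∧ ∀ a d, c a d ^ q = c a d := by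
    refine ⟨fun a d => if d = a then C (g a) else if r d < r a then B (g a) (g d) else 0,
      fun a => if_pos rfl, fun a d hne => ?_, fun a d => ?_⟩
    · simp only [if_neg hne, if_neg hne.symm]
      rcases lt_or_gt_of_ne (r.injective.ne hne) with e | e
      · rw [if_neg (not_lt.2 e.le), if_pos e, zero_add, sy]
      · rw [if_pos e, if_neg (not_lt.2 e.le), add_zero]
    · dsimp only
      split_ifs
      exacts [cg a, gg a d, zero_pow h.pos]
  have fu (a d : κ) : B (u a) (g d + ∑ i, c d i • u i) = if a = d then 1 else 0 := by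
    simp only [map_add, map_sum, map_smul, h5, smul_zero, Finset.sum_const_zero, add_zero, gu]
  have gs (a d : κ) : B (g a) (∑ i, c d i • u i) = c d a := by
    simp only [map_sum, map_smul, sy (u _) (g a), gu, smul_eq_mul, mul_ite, mul_one, mul_zero,
      Finset.sum_ite_eq', Finset.mem_univ, if_true]
  refine ⟨fun a => g a + ∑ i, c a i • u i, ⟨h5, fun a d => ?_, fun a => by rw [fu, if_pos rfl],
    fun a d e => by rw [fu, if_neg e], fun a => h4 a, fun a => ?_⟩, fun a => ?_⟩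
  · by_cases e : a = d
    · rw [e, hc.alt]
    rw [map_add B, LinearMap.add_apply, map_sum B, LinearMap.sum_apply]
    simp only [map_smul, LinearMap.smul_apply, fu, smul_eq_mul, mul_ite, mul_one, mul_zero,
      Finset.sum_ite_eq', Finset.mem_univ, if_true]
    rw [map_add, gs]
    linear_combination c1 a d e + B (g a) (g d) * h2
  · simp only [h.add, h.sum, h.smul, h4, gp, c2, one_smul, Bool.false_eq_true, if_false]
  · by_cases ho : o
    swap
    · exact hc.zero ho _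
    rw [hc.add ho, gs, c0, hc.csum_TW _ _ (fun i => by rw [hc.smul, h6, mul_zero]) fun i j => by
      simp only [map_smul, LinearMap.smul_apply, h5, smul_zero]]
    linear_combination C (g a) * h2

/-- a stable hyperbolic plane -/
theorem Dq.plane (k : Type) [Field k] [Algebra k Ω] [Sq k q] [Module.Finite Ω V]
    (h : Dt_SW1 q 1 B Φ) (hc : Dq q o B C Φ) (h2 : (2 : Ω) = 0) (hd : 2 ≤ Module.finrank Ω V) :
    ∃ (b : Unit → Bool) (e f : Unit → V), Hs_SW1 1 B Φ b e f ∧ ∀ a, C (e a) = 0 ∧ C (f a) = 0 := by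
  have hq : Su k q := Sq.su
  have one (u : V) (a1 : Φ u = u) (a2 : u ≠ 0) (a3 : C u = 0) : ∃ (b : Unit → Bool)
      (e f : Unit → V), Hs_SW1 1 B Φ b e f ∧ ∀ a, C (e a) = 0 ∧ C (f a) = 0 := by
    obtain ⟨f, hf, cf⟩ := hc.dual k h h2 (u := fun _ : Unit => u)
      (linearIndependent_unique_iff.2 a2) (fun _ => a1) (fun _ _ => hc.alt u) fun _ => a3
    exact ⟨_, _, f, hf, fun a => ⟨a3, cf a⟩⟩
  obtain ⟨v, -, v1, v0⟩ := h.fixd0 k ⊤ (fun _ _ => trivial) fun e => by
    have := congrArg (fun W : Submodule Ω V => Module.finrank Ω W) e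
    simp only [finrank_top, finrank_bot] at this
    omega
  by_cases cv : C v = 0
  · exact one v v1 v0 cv
  have ho : o := by
    by_contra ho
    exact cv (hc.zero ho v)
  obtain ⟨w, vw, -, w1⟩ := key_TW k h (u := fun _ : Unit => v)
    (linearIndependent_unique_iff.2 v0) (fun _ => v1) ()
  have wv : B w v = 1 := by rw [h.symm, vw, mul_one]
  have fv : C v ^ q = C v := by rw [← hc.frb, v1]
  obtain ⟨t, ht⟩ : ∃ t : Ω, C v * t ^ 2 + t + C w = 0 := by
    obtain ⟨t, ht⟩ := IsAlgClosed.exists_root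
      (Polynomial.C (C v) * Polynomial.X ^ 2 + Polynomial.C 1 * Polynomial.X + Polynomial.C (C w))
      (by rw [Polynomial.degree_quadratic cv]; decide)
    exact ⟨t, by simpa using ht⟩
  have cc (x : Ω) : C (w + x • v) = C v * x ^ 2 + x + C w := by
    rw [hc.add ho, hc.smul, map_smul, wv, smul_eq_mul]
    ring
  have bb (x y : Ω) : B (w + x • v) (w + y • v) = x + y := by
    simp only [map_add, map_smul, LinearMap.add_apply, LinearMap.smul_apply, vw, wv, hc.alt,
      smul_eq_mul]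
    ring
  have pp (x : Ω) : Φ (w + x • v) = w + x ^ q • v := by rw [h.add, h.smul, v1, w1]
  have ce : C (w + t • v) = 0 := (cc t).trans ht
  have ht' : C v * (t ^ q) ^ 2 + t ^ q + C w = 0 := by
    rw [← cc, ← pp, hc.frb, ce, zero_pow h.pos]
  have hm : (t ^ q - t) * (C v * (t ^ q + t) + 1) = 0 := by linear_combination ht' - ht
  rcases mul_eq_zero.1 hm with e | e
  · refine one (w + t • v) (by rw [pp, sub_eq_zero.1 e]) (fun e0 => ?_) ce
    have : B v (w + t • v) = 1 := by rw [map_add, map_smul, vw, hc.alt, smul_zero, add_zero]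
    rw [e0, map_zero] at this
    exact zero_ne_one this
  have e' : (t ^ q) ^ q = t := by
    have := congrArg (· ^ q) e
    simp only [hq.add_pow, mul_pow, fv, one_pow, zero_pow h.pos] at this
    exact mul_left_cancel₀ cv (by linear_combination this - e)
  obtain ⟨τ, hτ⟩ := IsAlgClosed.exists_pow_nat_eq (C v) q.succ_pos
  have τ0 : τ ≠ 0 := by
    rintro rfl
    exact cv (by rw [← hτ, zero_pow q.succ_ne_zero])
  have τ1 : (τ ^ q) ^ q = τ := by
    refine mul_left_cancel₀ (pow_ne_zero q τ0) ?_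
    rw [← mul_pow, ← pow_succ', ← pow_succ, hτ, fv]
  have ce' : C (τ • (w + t • v)) = 0 := by rw [hc.smul, ce, mul_zero]
  refine ⟨fun _ => true, fun _ => τ • (w + t • v), fun _ => Φ (τ • (w + t • v)),
    ⟨fun _ _ => hc.alt _, fun _ _ => hc.alt _, fun _ => ?_, fun _ _ hne => absurd rfl hne,
      fun _ => rfl, fun _ => ?_⟩, fun _ => ⟨ce', by rw [hc.frb, ce', zero_pow h.pos]⟩⟩
  · rw [h.smul, pp]
    simp only [map_smul B τ, map_smul _ (τ ^ q), LinearMap.smul_apply, bb, smul_eq_mul]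
    rw [pow_succ] at hτ
    linear_combination (t ^ q + t) * hτ + e - h2
  · rw [h.smul, h.smul, pp, pp, τ1, e', if_pos rfl]

end

theorem all_TW (k : Type) [Field k] [Algebra k Ω] [Sq k q] (h2 : (2 : Ω) = 0) {o : Prop} (n : ℕ) :
    ∀ {V : Type} [AddCommGroup V] [Module Ω V] [Module.Finite Ω V] {B : V →ₗ[Ω] V →ₗ[Ω] Ω}
      {C : V → Ω} {Φ : V → V}, Dt_SW1 q 1 B Φ → Dq q o B C Φ → Module.finrank Ω V = 2 * n →
      ∀ (ι : Type) [Fintype ι], Fintype.card ι = n → ∃ (b : ι → Bool) (e f : ι → V),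
      Hs_SW1 1 B Φ b e f ∧ ∀ a, C (e a) = 0 ∧ C (f a) = 0 := by
  induction n with
  | zero =>
    intro V _ _ _ B C Φ h hc hd ι _ hι
    have := Fintype.card_eq_zero_iff.1 hι
    exact ⟨isEmptyElim, isEmptyElim, isEmptyElim, ⟨isEmptyElim, isEmptyElim, isEmptyElim,
      isEmptyElim, isEmptyElim, isEmptyElim⟩, isEmptyElim⟩
  | succ n ih =>
    intro V _ _ _ B C Φ h hc hd ι _ hι
    obtain ⟨b, e, f, H, c⟩ := hc.plane k h h2 (by omega)
    obtain ⟨W, hW, ho, hD, hr⟩ := h.split H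
    rw [Fintype.card_unit] at hr
    obtain ⟨b', e', f', H', c'⟩ :=
      ih hD (hc.res_TW W hW) (by omega) (Fin n) (Fintype.card_fin n)
    let σ : ι ≃ Unit ⊕ Fin n := Fintype.equivOfCardEq (by simp [hι, add_comm])
    refine ⟨_, _, _, (H.sum h ho H').comp σ, fun a => ?_⟩
    simp only [Function.comp_apply]
    cases σ a with
    | inl i => exact c i
    | inr i => exact c' i

/-- hyperbolic bases adapted to `Φ` and to given fixed vectors -/
theorem wd2 (k : Type) [Field k] [Algebra k Ω] [Sq k q] (h2 : (2 : Ω) = 0) {n ι κ : Type}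
    [Fintype n] [DecidableEq n] [Fintype ι] [DecidableEq ι] [Fintype κ] (ε : ℤˣ)
    (J K M : Matrix n n Ω) (hn : Fintype.card n = 2 * (Fintype.card κ + Fintype.card ι))
    (hJ : J.det ≠ 0) (ha : ∀ x, x ⬝ᵥ J *ᵥ x = 0) (h0 : ε ≠ 1 → K = 0) (h1 : ε = 1 → J = K + Kᵀ)
    (hM : Mᵀ * J * M = fm q J)
    (hK : ∀ x : n → Ω, (M *ᵥ fun j => x j ^ q) ⬝ᵥ K *ᵥ (M *ᵥ fun j => x j ^ q) =
      (x ⬝ᵥ K *ᵥ x) ^ q) (u : κ → n → Ω)
    (h3 : LinearIndependent Ω u) (h4 : ∀ a, (M *ᵥ fun j => u a j ^ q) = u a)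
    (h5 : ∀ a a', u a ⬝ᵥ J *ᵥ u a' = 0) (h6 : ∀ a, u a ⬝ᵥ K *ᵥ u a = 0) :
    ∃ (b : ι → Bool) (g : Matrix n ((κ ⊕ ι) ⊕ (κ ⊕ ι)) Ω), Bijective g.mulVec ∧
      (∀ x y, (g *ᵥ x) ⬝ᵥ J *ᵥ (g *ᵥ y) = Bf ε x y) ∧
      (∀ x, (g *ᵥ x) ⬝ᵥ K *ᵥ (g *ᵥ x) = Cf ε x) ∧
      (∀ x, (M *ᵥ fun j => (g *ᵥ x) j ^ q) = g *ᵥ FV q ε (Sum.elim (fun _ => false) b) x) ∧
      ∀ a, g.col (.inl (.inl a)) = u a := by
  classical
  have hq : Su k q := Sq.su
  have hs : (sg ε : Ω) = 1 := by
    by_cases e : ε = 1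
    · rw [e, sg_one]
    · rw [sg_of_ne e]
      linear_combination -h2
  let B : (n → Ω) →ₗ[Ω] (n → Ω) →ₗ[Ω] Ω := Matrix.toBilin' J
  have hB (x y : n → Ω) : B x y = x ⬝ᵥ J *ᵥ y := Matrix.toBilin'_apply' J x y
  let Φ : (n → Ω) → n → Ω := fun x => M *ᵥ fun j => x j ^ q
  let C : (n → Ω) → Ω := fun x => x ⬝ᵥ K *ᵥ x
  have al (x : n → Ω) : B x x = 0 := (hB x x).trans (ha x)
  have h : Dt_SW1 q 1 B Φ := by
    refine ⟨fun x y => ?_, fun t x => ?_, fun x y => ?_, fun x hx => ?_, fun x y => ?_,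
      one_mul 1, hq.pos.ne'⟩
    · simp only [Φ, ← mulVec_add, Pi.add_apply, hq.add_pow]
      rfl
    · simp only [Φ, ← mulVec_smul, Pi.smul_apply, smul_eq_mul, mul_pow]
      rfl
    · have e := al (x + y)
      simp only [map_add, LinearMap.add_apply, al] at e
      linear_combination e - B x y * h2
    · refine eq_zero_of_vecMul_eq_zero hJ (funext fun j => ?_)
      have := hx (Pi.single j 1)
      rwa [hB, dotProduct_mulVec, dotProduct_single_one] at this
    · rw [hB, hB, one_mul]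
      simp only [Φ]
      rw [mulVec_mulVec, dotProduct_comm, dotProduct_mulVec, ← mulVec_transpose, mulVec_mulVec,
        ← Matrix.mul_assoc, hM, hq.fm_mulVec, dotProduct_comm]
      simp only [dotProduct, hq.sum_pow, mul_pow]
  have hc : Dq q (ε = 1) B C Φ := by
    refine ⟨al, fun e x y => ?_, fun e x => ?_, fun t x => ?_, hK⟩
    · have e1 : x ⬝ᵥ Kᵀ *ᵥ y = y ⬝ᵥ K *ᵥ x := by
        rw [mulVec_transpose, dotProduct_comm, dotProduct_mulVec]
      simp only [C, hB, h1 e, add_mulVec, mulVec_add, dotProduct_add, add_dotProduct, e1]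
      ring
    · simp only [C, h0 e, zero_mulVec, dotProduct_zero]
    · simp only [C, mulVec_smul, dotProduct_smul, smul_dotProduct, smul_eq_mul]
      ring
  obtain ⟨f₀, H₀, c₀⟩ := hc.dual k h h2 h3 h4 (fun a a' => (hB _ _).trans (h5 a a')) h6
  obtain ⟨W, hW, ho, hD, hr⟩ := h.split H₀
  rw [Module.finrank_fintype_fun_eq_card] at hr
  obtain ⟨b, e', f', H', c'⟩ :=
    all_TW k h2 (Fintype.card ι) hD (hc.res_TW W hW) (by omega) ι rfl
  have H := H₀.sum h ho H'
  have cs (j : (κ ⊕ ι) ⊕ (κ ⊕ ι)) : C (Sum.elim (Sum.elim u fun i => (e' i : n → Ω))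
      (Sum.elim f₀ fun i => (f' i : n → Ω)) j) = 0 := by
    rcases j with (j | j) | (j | j)
    exacts [h6 j, (c' j).1, c₀ j, (c' j).2]
  generalize hE : (Sum.elim u fun i => (e' i : n → Ω)) = e at H cs
  generalize (Sum.elim f₀ fun i => (f' i : n → Ω)) = f at H cs
  generalize hb : Sum.elim (fun _ : κ => false) b = c at H
  have hg (x : (κ ⊕ ι) ⊕ (κ ⊕ ι) → Ω) : (Matrix.of (Sum.elim e f))ᵀ *ᵥ x =
      ∑ i, (x (.inl i) • e i + x (.inr i) • f i) := by
    funext r
    rw [Finset.sum_add_distrib, Pi.add_apply, Finset.sum_apply, Finset.sum_apply, mulVec,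
      dotProduct, Fintype.sum_sum_type]
    simp only [transpose_apply, of_apply, Sum.elim_inl, Sum.elim_inr, Pi.smul_apply, smul_eq_mul,
      mul_comm]
  have ef (a d : κ ⊕ ι) : B (e a) (f d) = if a = d then 1 else 0 := by
    split_ifs with e
    · rw [e, H.ef1]
    · exact H.ef0 a d e
  have hf (x y : (κ ⊕ ι) ⊕ (κ ⊕ ι) → Ω) : ((Matrix.of (Sum.elim e f))ᵀ *ᵥ x) ⬝ᵥ
      J *ᵥ ((Matrix.of (Sum.elim e f))ᵀ *ᵥ y) = Bf ε x y := by
    rw [← hB, hg, hg, map_sum B, LinearMap.sum_apply]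
    refine Finset.sum_congr rfl fun i _ => ?_
    simp only [map_add, map_smul, map_sum, LinearMap.add_apply, LinearMap.smul_apply, H.ee, H.ff,
      h.symm (e _) (f i), ef, smul_eq_mul, mul_ite, mul_one, mul_zero, zero_add, add_zero,
      Finset.sum_add_distrib, Finset.sum_ite_eq, Finset.sum_ite_eq', Finset.mem_univ, if_true, hs]
    ring
  have hi : Injective (Matrix.of (Sum.elim e f))ᵀ.mulVecLin :=
    (injective_iff_map_eq_zero _).2 fun x hx => Bf_nondeg ε x fun y => by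
      rw [← hf, show (Matrix.of (Sum.elim e f))ᵀ *ᵥ x = 0 from hx, mulVec_zero, dotProduct_zero]
  refine ⟨b, (Matrix.of (Sum.elim e f))ᵀ, ⟨hi,
    (LinearMap.injective_iff_surjective_of_finrank_eq_finrank ?_).1 hi⟩, hf, fun x => ?_,
    fun x => ?_, fun a => ?_⟩
  · simp only [Module.finrank_fintype_fun_eq_card, Fintype.card_sum]
    omega
  · change C _ = _
    by_cases e1 : ε = 1
    swap
    · rw [hc.zero e1, Cf_of_ne _ e1]
    induction x using Pi.single_induction with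
    | zero => rw [mulVec_zero, hc.c0_TW, Cf_zero]
    | add x y hx hy => rw [mulVec_add, hc.add e1, Cf_add _ _ e1, hx, hy, hB, hf]
    | single j t =>
      rw [← mul_one t, ← smul_eq_mul, Pi.single_smul', mulVec_smul, hc.smul, Cf_smul,
        mulVec_single_one, Cf_single]
      exact congrArg _ (cs j)
  · rw [hb]
    change Φ _ = _
    rw [hg, hg, h.sum]
    refine Finset.sum_congr rfl fun i _ => ?_
    rw [h.add, h.smul, h.smul, H.pe, H.pf, FV_inl ε c x k, FV_inr ε c x k]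
    cases c i
    · simp only [Bool.false_eq_true, if_false, hs, one_smul, one_mul]
    · simp only [if_true, add_comm]
  · rw [← hE]
    rfl

end Pool.Agent.CXD
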