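import Pool.Agent.P.MP_2ce3e7_ag.TB1
import Pool.Agent.P.MP_2ce3e7_ag.TW
import Pool.Agent.P.MP_2ce3e7_ag.SB4

/-! The transfer matrix preserves the quadratic form. -/

set_option linter.unusedSectionVars false
set_option linter.unusedVariables false

open Function Matrix

noncomputable section

namespace Pool.Agent.CXD
open Finset

variable {k Ω : Type} [Field k] [Field Ω] [Algebra k Ω] {q : ℕ} {ε : ℤˣ} {s D : ℕ} [NeZero s]
  {R : ℤ → Prop} {f g : ℤ → ℤ} {ι : Type} [Fintype ι] {b : ι → Bool} {G : Gp Ω}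
  {e : ℤ → ℤ → Ω} {θ : ℤ} [IsAlgClosed Ω]

/-- isometries of the quadratic form that turn the transfer matrix into the Frobenius map -/
def Ygq (q : ℕ) (ε : ℤˣ) (b : ι → Bool) (M : ι ⊕ ι → ι ⊕ ι → Ω) (m : Matrix (ι ⊕ ι) (ι ⊕ ι) Ω) :
    Prop := Yg q ε b M m ∧ ∀ j, Cf ε (m.col j) = 0

variable [Sq k q]

theorem Us.hq {c : ℤ → Bi D R f ⊕ Bi D R f → Ω} (hc : Us D R f e c) : Hq ε D R f e c (-1) := by
  intro u hu
  rw [hc.l ⟨u, hu⟩, hc.r ⟨u, hu⟩]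
  exact ⟨Cf_single _, Cf_single _⟩

theorem Us.isoq {c : ℤ → Bi D R f ⊕ Bi D R f → Ω} (hc : Us D R f e c) (h : C3 s D R f g)
    (ha : Amx q ε s D e) (hs : Se ε R f e) (hp : Piv R f e) (x : Bi D R f ⊕ Bi D R f → Ω) :
    Cf (-ε) ((Matrix.of (Mc ε s D e c))ᵀ *ᵥ x) = Cf (-ε) x := by
  have H := h.hq_up (θ := -1 + s) ha hs hp hc.hy hc.hq hc.ew (by omega)
  refine Cf_mulVec x (fun h1 x y => ?_) fun j => ?_
  · rw [hc.iso h ha hs hp, h1, sg_one, one_mul]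
  · change Cf (-ε) (Mc ε s D e c j) = 0
    rcases j with a | a
    · exact (H _ (h.toIs.bd_per.2 a.2)).1
    · simp only [Mc, Sum.elim_inr]
      rw [Cf_neg, Cf_smul, (H _ (h.toIs.bd_per.2 a.2)).2, mul_zero]

theorem sg_two (h2 : (2 : Ω) = 0) (ε : ℤˣ) : (sg ε : Ω) = 1 := by
  rcases Int.units_eq_one_or ε with rfl | rfl
  · exact sg_one
  · rw [sg_neg, sg_one]
    linear_combination -h2

theorem Cf_pow (k : Type) [Field k] [Algebra k Ω] [Sq k q] (x : ι ⊕ ι → Ω) :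
    Cf ε (fun j => x j ^ q) = Cf ε x ^ q := by
  have hq : Su k q := Sq.su
  unfold Cf
  split_ifs
  · simp only [hq.sum_pow, mul_pow]
  · rw [zero_pow hq.pos.ne']

theorem exists_ygq (k : Type) [Field k] [Algebra k Ω] [Sq k q] (h2 : (2 : Ω) = 0) (ε : ℤˣ)
    (M : ι ⊕ ι → ι ⊕ ι → Ω)
    (h : ∀ x y, Bf ε ((Matrix.of M)ᵀ *ᵥ x) ((Matrix.of M)ᵀ *ᵥ y) = sg ε * Bf ε x y)
    (h' : ∀ x, Cf ε ((Matrix.of M)ᵀ *ᵥ x) = Cf ε x) : ∃ b m, Ygq q ε b M m := by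
  classical
  have hq : Su k q := Sq.su
  let J : Matrix (ι ⊕ ι) (ι ⊕ ι) Ω := Matrix.of fun i j => Bf ε (Pi.single i 1) (Pi.single j 1)
  have hJ : ∀ x y, x ⬝ᵥ J *ᵥ y = Bf ε x y := fun x y => by
    have e1 : ∀ z : ι ⊕ ι → Ω, z = ∑ i, z i • Pi.single i (1 : Ω) := fun z => pi_eq_sum_univ' z
    rw [e1 x, e1 y, Bf_sum_left, ← e1 x, ← e1 y, dotProduct]
    refine Finset.sum_congr rfl fun i _ => ?_
    rw [Bf_smul_left]
    nth_rewrite 2 [e1 y]
    rw [Bf_sum_right, mulVec, dotProduct]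
    congr 1
    exact Finset.sum_congr rfl fun j _ => by rw [Bf_smul_right, mul_comm]; rfl
  have hf : fm q J = J := by
    ext i j
    rw [fm_apply]
    rcases i with i | i <;> rcases j with j | j <;>
      simp only [J, of_apply, ll_SB4, rr_SB4, lr_SB4, rl_SB4, mul_pow, sg_pow k, ite_pow, one_pow,
        zero_pow hq.pos.ne']
  let K : Matrix (ι ⊕ ι) (ι ⊕ ι) Ω := if ε = 1 then fromBlocks 0 1 0 0 else 0
  have hK : ∀ x, x ⬝ᵥ K *ᵥ x = Cf ε x := fun x => by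
    simp only [K, Cf]
    split_ifs
    · simp [fromBlocks_mulVec, dotProduct]
    · simp
  obtain ⟨b, g, -, g1, g0, g2, -⟩ := wd2 (n := ι ⊕ ι) (ι := ι) (κ := Empty) k h2 ε J K
    (Matrix.of M)ᵀ
    (by simp [two_mul]) (fun h0 => by
      obtain ⟨v, hv, h3⟩ := exists_mulVec_eq_zero_iff.2 h0
      exact hv (Bf_nondeg ε v fun y => by rw [← hJ, h3, dotProduct_zero]))
    (fun x => by rw [hJ, Cf_two, h2, zero_mul]) (fun h1 => if_neg h1)
    (fun h1 => by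
      ext i j
      rcases i with i | i <;> rcases j with j | j <;>
        simp [J, K, h1, ll_SB4, rr_SB4, lr_SB4, rl_SB4, sg_one, one_apply])
    (by
      ext i j
      have e1 := h (Pi.single i 1) (Pi.single j 1)
      rw [← hJ, mulVec_single_one, mulVec_single_one, sg_two h2, one_mul] at e1
      rw [hf, Matrix.mul_assoc]
      exact e1)
    (fun x => by rw [hK, hK, h', Cf_pow k])
    (fun a => a.elim) linearIndependent_empty_type (fun a => a.elim) (fun a => a.elim)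
    fun a => a.elim
  let σ : ι ⊕ ι ≃ (Empty ⊕ ι) ⊕ (Empty ⊕ ι) :=
    (Equiv.emptySum Empty ι).symm.sumCongr (Equiv.emptySum Empty ι).symm
  let g' : Matrix (ι ⊕ ι) (ι ⊕ ι) Ω := g.submatrix id σ
  have e1 : ∀ x, g' *ᵥ x = g *ᵥ (x ∘ σ.symm) := fun x => submatrix_mulVec_equiv g x id σ
  have e2 : ∀ x y, Bf ε (g' *ᵥ x) (g' *ᵥ y) = Bf ε x y := fun x y => by
    rw [← hJ, e1, e1, g1, Bf, Bf, Fintype.sum_sum_type, Fintype.sum_empty, zero_add]
    rfl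
  have e0 : ∀ x, Cf ε (g' *ᵥ x) = Cf ε x := fun x => by
    rw [← hK, e1, g0, Cf, Cf, Fintype.sum_sum_type, Fintype.sum_empty, zero_add]
    rfl
  have e3 : ∀ x, ((Matrix.of M)ᵀ *ᵥ fun j => (g' *ᵥ x) j ^ q) = g' *ᵥ FV q ε b x := fun x => by
    rw [e1, g2, e1]
    congr 1
    funext j
    rcases j with (j | j) | (j | j)
    · exact j.elim
    · rw [FV_inl ε _ _ k]
      exact (FV_inl ε b x k j).symm
    · exact j.elim
    · rw [FV_inr ε _ _ k]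
      exact (FV_inr ε b x k j).symm
  have hd : IsUnit g'.det := isUnit_iff_ne_zero.2 fun h0 => by
    obtain ⟨v, hv, h3⟩ := exists_mulVec_eq_zero_iff.2 h0
    exact hv (Bf_nondeg ε v fun y => by rw [← e2, h3, Bf_zero_right])
  have e4 : ∀ x, g' *ᵥ (g'⁻¹ *ᵥ x) = x := fun x => by
    rw [mulVec_mulVec, mul_nonsing_inv _ hd, one_mulVec]
  refine ⟨b, g'⁻¹, ⟨fun x y => by rw [← e2, e4, e4], fun j => ?_⟩, fun j => by
    rw [← e0, ← mulVec_single_one, e4, Cf_single]⟩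
  have e5 := e3 (g'⁻¹.col j)
  rw [← mulVec_single_one, e4] at e5
  have e6 : (fun i => (Pi.single j (1 : Ω) : ι ⊕ ι → Ω) i ^ q) = Pi.single j 1 := by
    funext i
    simp only [Pi.single_apply, ite_pow, one_pow, zero_pow hq.pos.ne']
  rw [e6, mulVec_single_one, mulVec_single_one] at e5
  change _ = g'⁻¹ *ᵥ (Matrix.of M)ᵀ.col j
  rw [e5, mulVec_mulVec, nonsing_inv_mul _ hd, one_mulVec]

theorem Cr.ygq {α : Type} [Af Ω α] {p : α → Prop} {M : α → ι ⊕ ι → ι ⊕ ι → Ω}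
    {m : α → Matrix (ι ⊕ ι) (ι ⊕ ι) Ω} (hM : Pq k p M) (hm : Pq k p m) :
    Cr k p fun x => Ygq q ε b (M x) (m x) :=
  (Cr.yg hM hm).and (Cr.all fun j => Cr.eq (Pq.cf ε (hm.col j)) (Pq.const 0))

end Pool.Agent.CXD
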