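import Pool.Agent.P.MP_2ce3e7_ag.TE0

/-! Planes with two stable lines, quadratic version. -/

set_option linter.unusedSectionVars false
set_option linter.unusedVariables false

open Function Matrix

noncomputable section

namespace Pool.Agent.CXD
open Finset

variable {k Ω : Type} [Field k] [Field Ω] [Algebra k Ω] {q : ℕ} {ε : ℤˣ} {s D : ℕ} [NeZero s]
  {R : ℤ → Prop} {f g : ℤ → ℤ} {ι : Type} [Fintype ι] {b : ι → Bool} {G : Gp Ω}
  {e : ℤ → ℤ → Ω} {θ : ℤ} [IsAlgClosed Ω] [Sq k q]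

theorem c1_diag {t : Ω} (h : ε ≠ 1 → t = 0) (x : Ω × Ω) : t * C1 ε x = x.2 * (sg ε * (t * x.1)) := by
  by_cases h1 : ε = 1
  · rw [C1, if_pos h1, h1, sg_one]
    ring
  · rw [h h1]
    ring

variable {α : Type} [Af Ω α] {p : α → Prop} {ψ : α → Ω}

theorem eqs_hq {e : α → ℤ → ℤ → Ω} {a a' : α → ℤ → Ω} (he : ∀ u v, Pq k p fun x => e x u v)
    (ha : ∀ u, Pq k p fun x => a x u) (ha' : ∀ u, Pq k p fun x => a' x u)
    (h1 : ∀ x, p x → Amx q ε s D (e x)) (h2 : ∀ x, p x → Pe (frq q) s (a x))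
    (h3 : ∀ x, p x → Pe (frz q ε) s (a' x)) (hd : ∀ x v, p x → ε ≠ 1 → e x v v = 0) :
    Eqs k q p (fun x => phq s D (B1 ε) (C1 ε) (e x) fun u => (a x u, a' x u))
      fun x => ∑ v ∈ Ico (0 : ℤ) s, a' x v * (sg ε * Ew D (e x) (a x) v) := by
  have l1 (φ : ℤ → Ω) (v : ℤ) : ∑ u ∈ Ico (v - D) v, φ u = ∑ δ ∈ Icc (1 : ℤ) D, φ (v + -δ) :=
    sum_nbij' (fun u => v - u) (fun δ => v + -δ) (fun u hu => by simp at hu ⊢; omega)
      (fun u hu => by simp at hu ⊢; omega) (fun u _ => by ring) (fun u _ => by ring)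
      fun u _ => congrArg φ (by ring)
  have l2 (φ : ℤ → Ω) (v : ℤ) : ∑ u ∈ Ioc v (v + D), φ u = ∑ δ ∈ Icc (1 : ℤ) D, φ (v + δ) :=
    sum_nbij' (fun u => u - v) (fun δ => v + δ) (fun u hu => by simp at hu ⊢; omega)
      (fun u hu => by simp at hu ⊢; omega) (fun u _ => by ring) (fun u _ => by ring)
      fun u _ => congrArg φ (by ring)
  have key := (Eqs.refl (k := k) (q := q) (p := p) (ψ := fun x => ∑ v ∈ Ico (0 : ℤ) s,
    a' x v * (sg ε * ∑ u ∈ Icc (v - D) v, e x v u • a x u))).add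
    (Eqs.sum (Icc (1 : ℤ) D) fun δ _ => eqs_window s
      (τ := fun x u => sg ε * (e x u (u + δ) * (a' x u * a x (u + δ))))
      (fun u => (Pq.const _).mul ((he _ _).mul ((ha' _).mul (ha _))))
      (fun x u hx => by
        rw [add_right_comm u s δ, (h1 x hx).per, h2 x hx, h3 x hx, fr_apply k, frs_apply k]
        simp only [mul_pow, sg_pow k]
        linear_combination (-sg ε * e x u (u + δ) ^ q * a' x u ^ q * a x (u + δ) ^ q) *
          sg_mul_self (Ω := Ω) ε) (-δ))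
  refine ((Eqs.of_eq fun x hx => ?_).trans key).trans (Eqs.of_eq fun x hx => ?_)
  · rw [phq, sum_comm, ← sum_add_distrib]
    refine sum_congr rfl fun v _ => ?_
    rw [← Ico_insert_right (by omega : v - D ≤ v), sum_insert right_notMem_Ico, l1, l1, mul_add,
      mul_add, mul_sum, mul_sum, add_assoc, ← sum_add_distrib]
    congr 1
    · exact c1_diag (hd x v hx) _
    · refine sum_congr rfl fun δ _ => ?_
      simp only [B1, smul_eq_mul, neg_add_cancel_right, (h1 x hx).sym (v + -δ) v]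
      linear_combination (-e x (v + -δ) v * a x (v + -δ) * a' x v) * sg_mul_self (Ω := Ω) ε
  · rw [sum_comm, ← sum_add_distrib]
    refine sum_congr rfl fun v _ => ?_
    rw [Ew.split (θ := v) _ (by omega) (by omega), mul_add, mul_add, Pv, l2, mul_sum (Icc (1 : ℤ) D),
      mul_sum (Icc (1 : ℤ) D)]
    congr 1
    exact sum_congr rfl fun δ _ => by rw [smul_eq_mul]; ring

variable {e : α → ℤ → ℤ → Ω} {z : α → ℤ → ι ⊕ ι → Ω}

theorem Au.hstepq (h : Au k q G) (h3 : C3 s D R f g)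
    (hc : (bd D R f (-1)).card = Fintype.card ι) (he : ∀ u v, Pq k p fun x => e x u v)
    (hz : ∀ u, Pq k p fun x => z x u) (hy : ∀ x, p x → Ys q ε b s D R f (e x) (z x))
    (hψ : Pq k p ψ) (h0 : Gy k G p) (hp : Gy k G (AS q p ψ)) :
    Gy k G (AS q (fun y : α × (ZMod s → Ω × Ω) => p y.1 ∧ Acz R (pext (F1 q ε false) s y.2))
      fun y => ψ y.1 + phq s D (B1 ε) (C1 ε) (e y.1) (pext (F1 q ε false) s y.2)) := by
  have c0 : (sg ε : Ω) ≠ 0 := sg_ne ε
  have key := h.as_aff (p := fun y : α × (ZMod s → Ω) => p y.1 ∧ Acz R (pext (frq q) s y.2))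
    (ψ := fun y => ψ y.1) (fun c : ZMod s => R c.val)
    (D := fun y c => sg ε * Ew D (e y.1) (pext (frq q) s y.2) c.val)
    (Pq.pi fun c => (Pq.const _).mul
      (Pq.ev1 (fun u v => (he u v).pull (Pq.fst Pq.id) fun _ h => h.1)
        (Pq.pext sem_fr.po sem_fr.po' (Pq.snd Pq.id)) _))
    (hψ.pull (Pq.fst Pq.id) fun _ h => h.1)
    (fun x c hx hR => mul_eq_zero_of_right _ (sum_eq_zero fun v _ => by
      rw [by_contra fun hn => hR ((hy _ hx.1).se.of_ne (hy _ hx.1).am (v := v) hn).1, zero_smul]))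
    (h.gacz sem_fr h3.toIs h0) ((h.hlocus h3 hc he hz hy hp).as_of_iff (fun x => by
      rw [and_assoc]
      refine and_congr_right fun hx => and_congr_right fun _ => ⟨fun e1 => ?_, fun e1 => ?_⟩
      · refine Ew.zero_of (k := k) sem_fr (hy _ hx).am (pe_pext _ _) 0 fun u a1 a2 => ?_
        have := congrFun e1 (u : ZMod s)
        rw [val_SE1 a1 (by omega)] at this
        exact (mul_eq_zero.1 this).resolve_left c0
      · exact funext fun c => mul_eq_zero_of_right _ (e1 _)) fun _ _ => rfl)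
  have s0 := (sem_fr (k := k) (Ω := Ω)).act_iff (s := s) h3.perR
  have s1 := (sem_F1 (k := k) (Ω := Ω) ε false).act_iff (s := s) h3.perR
  refine h.as_iso (fun w : (α × (ZMod s → Ω)) × (ZMod s → Ω) => (w.1.1, fun c => (w.1.2 c, w.2 c)))
    (fun y => ((y.1, fun c => (y.2 c).1), fun c => (y.2 c).2)) (by fun_prop) (by fun_prop)
    (fun w hw => ⟨hw.1.1, (s1 _).2 fun c hR => Prod.ext ((s0 _).1 hw.1.2 c hR) (hw.2 c hR)⟩)
    (fun y hx => ⟨⟨hx.1, (s0 _).2 fun c hR => congrArg Prod.fst ((s1 _).1 hx.2 c hR)⟩,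
      fun c hR => congrArg Prod.snd ((s1 _).1 hx.2 c hR)⟩)
    (fun _ _ => rfl) (fun _ _ => rfl) (Eqs.refl.add ?_) key
  refine ((Eqs.of_eq fun w _ => ?_).trans (eqs_hq (e := fun w => e w.1.1)
    (a := fun w => pext (frq q) s w.1.2) (a' := fun w => pext (frz q ε) s w.2)
    (fun u v => ?_) (fun u => ?_) (fun u => ?_) (fun w hw => (hy _ hw.1.1).am)
    (fun _ _ => pe_pext _ _) (fun _ _ => pe_pext _ _)
    fun w v hw h => (hy _ hw.1.1).se.diag h v)).trans (Eqs.of_eq fun w _ => ?_)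
  · exact congrArg _ (funext (pext_F1_false _))
  · exact (he u v).pull (Pq.fst (Pq.fst Pq.id)) fun _ h => h.1.1
  · exact Pq.pext sem_fr.po sem_fr.po' (Pq.snd (Pq.fst Pq.id)) u
  · exact Pq.pext (sem_frs ε).po (sem_frs ε).po' (Pq.snd Pq.id) u
  · refine sum_nbij' (fun v => (v : ZMod s)) (fun c => c.val) (fun _ _ => mem_univ _)
      (fun c _ => mem_Ico.2 ⟨Int.natCast_nonneg _, by exact_mod_cast c.val_lt⟩)
      (fun v hv => val_SE1 (mem_Ico.1 hv).1 (mem_Ico.1 hv).2) (fun c _ => by simp) fun v hv => ?_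
    beta_reduce
    rw [val_SE1 (mem_Ico.1 hv).1 (mem_Ico.1 hv).2, pext_of_mem (mem_Ico.1 hv).1 (mem_Ico.1 hv).2]

end Pool.Agent.CXD
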