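import Pool.Agent.P.MP_2ce3e7_ag.TB6
import Pool.Agent.P.MP_2ce3e7_ag.SB7

/-! Planes with exchanged lines, quadratic version. -/

set_option linter.unusedSectionVars false
set_option linter.unusedVariables false

open Function Matrix

noncomputable section

namespace Pool.Agent.CXD
open Finset

variable {k Ω : Type} [Field k] [Field Ω] [Algebra k Ω] {q : ℕ} {ε : ℤˣ} {s D : ℕ} [NeZero s]
  {R : ℤ → Prop} {f g : ℤ → ℤ} {ι : Type} [Fintype ι] {b : ι → Bool} {G : Gp Ω}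
  {e : ℤ → ℤ → Ω} {θ : ℤ} [IsAlgClosed Ω] [Sq k q]

/-- the quadratic function only sees boundary values and the period -/
theorem phq_congr {W : Type} {B : W → W → Ω} {C : W → Ω} (h : Is s D R f) (hs : Se ε R f e) {x x' : ℤ → W}
    (h1 : ∀ u, u ∈ bd D R f (-1) ∨ (0 ≤ u ∧ u < s) → x u = x' u) :
    phq s D B C e x = phq s D B C e x' := by
  refine Finset.sum_congr rfl fun v hv => ?_
  rw [Finset.mem_Ico] at hv
  rw [h1 v (Or.inr hv)]
  refine congrArg (fun t => e v v * C (x' v) + t) (Finset.sum_congr rfl fun u hu => ?_)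
  rw [Finset.mem_Ico] at hu
  by_cases h2 : ok ε R f u v
  · rw [h1 u ?_]
    by_cases h3 : 0 ≤ u
    · exact Or.inr ⟨h3, by omega⟩
    · exact Or.inl (h.mem_bd.2 ⟨h2.1, by omega, by have := h2.2.2.1; omega⟩)
  · rw [hs u v hu.2.le h2, zero_mul, zero_mul]

variable {α : Type} [Af Ω α] {p : α → Prop} {ψ : α → Ω}

theorem Au.nisoq (h : Au k q G) (hi : Is s D R f) {e : α → ℤ → ℤ → Ω}
    (hs : ∀ x, p x → Se ε R f (e x))
    (hp : Gy k G (AS q (fun y : α × (Bi D R f ⊕ ZMod s → Ω) × (Bi D R f ⊕ ZMod s → Ω) =>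
      (p y.1 ∧ Aci R y.2.1 ∧ Aci R y.2.2) ∧ Dc q y.2.1 y.2.2 = 0)
      fun y => ψ y.1 + phq s D (B1 ε) (C1 ε) (e y.1) fun u => (sqn y.2.1 u, sqn y.2.2 u))) :
    Gy k G (AS q (fun y : α × (ZMod s → Ω × Ω) => p y.1 ∧ Acz R (pext (F1 q ε true) s y.2))
      fun y => ψ y.1 + phq s D (B1 ε) (C1 ε) (e y.1) (pext (F1 q ε true) s y.2)) := by
  have hF : Sem k q (F1 q ε true : Equiv.Perm (Ω × Ω)) := sem_F1 ε true
  have hx : ∀ u, Pq k (fun y : α × (ZMod s → Ω × Ω) => p y.1 ∧ Acz R (pext (F1 q ε true) s y.2))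
      fun y => pext (F1 q ε true) s y.2 u := fun u => Pq.pext hF.po hF.po' (Pq.snd Pq.id) u
  refine h.as_iso (fun y => (y.1, fun c => (y.2.1 (.inr c), y.2.2 (.inr c))))
    (fun y => (y.1, vls s D R f fun u => (pext (F1 q ε true) s y.2 u).1,
      vls s D R f fun u => (pext (F1 q ε true) s y.2 u).2)) (by fun_prop)
    ((Pq.fst Pq.id).mk ((Pq.vls fun u => (hx u).fst).mk (Pq.vls fun u => (hx u).snd)))
    (fun y hy => ⟨hy.1.1, (hF.act_iff hi.perR _).2 fun c hc =>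
      Prod.ext (hy.1.2.1 c hc) (hy.1.2.2 c hc)⟩)
    (fun y hy => ⟨⟨hy.1, fun c hc => congrArg Prod.fst (hy.2 _ hc),
      fun c hc => congrArg Prod.snd (hy.2 _ hc)⟩, funext fun j => ?a⟩)
    (fun y hy => Prod.ext rfl (Prod.ext ?b ?c))
    (fun y hy => Prod.ext rfl (res_pext (F1 q ε true) y.2))
    (Eqs.of_eq fun y hy => congrArg (ψ y.1 + ·)
      (phq_congr hi (hs _ hy.1.1) (key_SB7 k hi hy.2))) hp
  case a =>
    rcases j with i | i
    · refine sub_eq_zero.2 ?_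
      dsimp only
      rw [sqn_vls hi _ (shift_SB7 hi i.2), pe_pext, F1_SB7 k]
      rfl
    · refine sub_eq_zero.2 ?_
      dsimp only
      rw [sqn_vls hi _ (shift_SB7 hi i.2), pe_pext, F1_SB7 k]
      rfl
  case b =>
    exact (vls_congr_SB7 fun u hu => congrArg Prod.fst (key_SB7 (ε := ε) k hi hy.2 u hu)).trans
      (vls_sqn hi _)
  case c =>
    exact (vls_congr_SB7 fun u hu => congrArg Prod.snd (key_SB7 (ε := ε) k hi hy.2 u hu)).trans
      (vls_sqn hi _)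

end Pool.Agent.CXD
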