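import Pool.Agent.P.MP_2ce3e7_ag.TB7
import Pool.Agent.P.MP_2ce3e7_ag.SB8

/-! Planes with exchanged lines: the linear step, quadratic version. -/

set_option linter.unusedSectionVars false
set_option linter.unusedVariables false

open Function Matrix

noncomputable section

namespace Pool.Agent.CXD
open Finset

variable {k Ω : Type} [Field k] [Field Ω] [Algebra k Ω] {q : ℕ} {ε : ℤˣ} {s D : ℕ} [NeZero s]
  {R : ℤ → Prop} {f g : ℤ → ℤ} {ι : Type} [Fintype ι] {b : ι → Bool} {G : Gp Ω}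
  {e : ℤ → ℤ → Ω} {θ : ℤ} [IsAlgClosed Ω] [Sq k q]

theorem phq_sqn (h : Is s D R f) (ha : Amx q ε s D e) (hs : Se ε R f e)
    (a a' : Bi D R f ⊕ ZMod s → Ω) :
    phq s D (B1 ε) (C1 ε) e (fun u => (sqn a u, sqn a' u)) = sg ε * (a' ⬝ᵥ Dn e a 0 0) := by
  have e1 : Dn e a 0 0 = Sum.elim (fun i : Bi D R f => ∑ v ∈ Ico (0 : ℤ) s, e i v * sqn a v)
      fun c : ZMod s => ∑ v ∈ Ico ((c.val : ℤ) - D) c.val, e c.val v * sqn a v +
        e c.val c.val * sqn a c.val + ∑ v ∈ Ioo (c.val : ℤ) s, e c.val v * sqn a v := by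
    funext j
    rcases j with i | c
    · simp only [Dn, Sum.elim_inl, xa_zero_SB8, Pi.zero_apply, add_zero, sub_zero]
      refine Finset.sum_congr ?_ fun _ _ => rfl
      ext v
      simp only [mem_Ioc, mem_Ico]
      omega
    · simp only [Dn, Sum.elim_inr, xa_zero_SB8, add_zero]
      have hc : ((c.val : ℕ) : ℤ) < s := by exact_mod_cast ZMod.val_lt c
      have e2 : Icc ((c.val : ℤ) - D) (-1 + s) =
          Ico ((c.val : ℤ) - D) c.val ∪ insert (c.val : ℤ) (Ioo (c.val : ℤ) s) := by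
        ext v
        simp only [mem_Icc, mem_Ico, mem_union, mem_insert, mem_Ioo]
        omega
      rw [e2, sum_union, sum_insert (by simp), add_assoc]
      refine disjoint_left.2 fun v h1 h2 => ?_
      simp only [mem_Ico, mem_insert, mem_Ioo] at h1 h2
      omega
  have e3 : ∀ v ∈ Ico (0 : ℤ) s, ∑ u ∈ Ico (v - D) v, sqn a' u * (e u v * sqn a v) =
      ∑ u ∈ bd D R f (-1), sqn a' u * (e u v * sqn a v) +
        ∑ u ∈ Ico 0 v, sqn a' u * (e u v * sqn a v) := by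
    intro v hv
    rw [mem_Ico] at hv
    rw [← sum_union]
    · refine sum_congr_of_eq_on_inter (fun u h1 h2 => ?_) (fun u h1 h2 => ?_) fun _ _ _ => rfl
      · rw [mem_union, not_or, mem_Ico] at h2
        rw [mem_Ico] at h1
        rw [sqn_not_SB8 a' h2.1 (by omega), zero_mul]
      · have : u < v := by
          rcases mem_union.1 h1 with h3 | h3
          · have := (h.mem_bd.1 h3).2.1
            omega
          · exact (mem_Ico.1 h3).2
        rw [mem_Ico] at h2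
        have h3 : e u v = 0 := hs u v this.le fun h4 => by
          have := h4.2.2.1
          have := h.hi u
          omega
        rw [h3, zero_mul, mul_zero]
    · refine disjoint_left.2 fun u h1 h2 => ?_
      have := (h.mem_bd.1 h1).2.1
      rw [mem_Ico] at h2
      omega
  have e4 : ∑ v ∈ Ico (0 : ℤ) s, ∑ u ∈ Ico 0 v, sqn a' u * (e u v * sqn a v) =
      ∑ u ∈ Ico (0 : ℤ) s, ∑ v ∈ Ioo u s, sqn a' u * (e u v * sqn a v) :=
    sum_comm' fun v u => by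
      simp only [mem_Ico, mem_Ioo]
      omega
  rw [e1, dot_SB8 h a' (fun u => ∑ v ∈ Ico (0 : ℤ) s, e u v * sqn a v) fun u : ℤ =>
    ∑ v ∈ Ico (u - D) u, e u v * sqn a v + e u u * sqn a u + ∑ v ∈ Ioo u s, e u v * sqn a v]
  have e6 : ∑ u ∈ bd D R f (-1), sqn a' u * ∑ v ∈ Ico (0 : ℤ) s, e u v * sqn a v =
      ∑ v ∈ Ico (0 : ℤ) s, ∑ u ∈ bd D R f (-1), sqn a' u * (e u v * sqn a v) := by
    rw [sum_comm]
    simp only [mul_sum]
  simp only [mul_add, sum_add_distrib, mul_sum (s := Ioo _ _)]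
  rw [← e4, e6]
  simp only [← mul_add, ← sum_add_distrib]
  rw [phq, mul_sum]
  refine sum_congr rfl fun v hv => ?_
  have e5 : ∑ u ∈ Ico (v - D) v, e u v * B1 ε (sqn a u, sqn a' u) (sqn a v, sqn a' v) =
      sg ε * (sqn a' v * ∑ u ∈ Ico (v - D) v, e v u * sqn a u) +
        sg ε * ∑ u ∈ Ico (v - D) v, sqn a' u * (e u v * sqn a v) := by
    rw [mul_sum, mul_sum, mul_sum, ← sum_add_distrib]
    refine sum_congr rfl fun u _ => ?_
    rw [B1, ha.sym v u]
    ring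
  rw [e5, e3 v hv, c1_diag fun h => hs.diag h v]
  ring

variable {α : Type} [Af Ω α] {p : α → Prop} {ψ : α → Ω} {e : α → ℤ → ℤ → Ω}
  {z : α → ℤ → ι ⊕ ι → Ω}

theorem Au.nlocusq (h : Au k q G) (h3 : C3 s D R f g) (hc : (bd D R f (-1)).card = Fintype.card ι)
    (he : ∀ u v, Pq k p fun x => e x u v) (hz : ∀ u, Pq k p fun x => z x u)
    (hy : ∀ x, p x → Ys q ε b s D R f (e x) (z x))
    (hp : Gy k G (AS q (fun y : α × (ι ⊕ ι → Ω) => p y.1)
      fun y => ψ y.1 + -sg ε * Bf (-ε) y.2 (FV q (-ε) b y.2))) :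
    Gy k G (AS q (fun y : α × (Bi D R f ⊕ ZMod s → Ω) × (Bi D R f → Ω) × (Bi D R f → Ω) =>
      (p y.1 ∧ Aci R y.2.1) ∧ Dn (e y.1) y.2.1 y.2.2.1 y.2.2.2 = 0)
      fun y => ψ y.1 + -sg ε * Gn q y.2.1 y.2.2.1 y.2.2.2) := by
  have hi := h3.toIs
  have hs : (-1 : ℤ) ≤ -1 + s := by omega
  have hP : ∀ θ u, Pq k p fun x => Pv D (e x) (z x) θ u := Pq.pv he hz
  refine h.as_iso
    (fun y : α × (ι ⊕ ι → Ω) => (y.1, vls s D R f fun v => Bf (-ε) (z y.1 v) y.2,
      fun i => Bf (-ε) (Pv D (e y.1) (z y.1) (-1) i) y.2,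
      fun i => Bf (-ε) (Pv D (e y.1) (z y.1) (-1 + s) (i + s)) y.2))
    (fun y => (y.1, Yw (-ε) (bd D R f (-1)) (z y.1) (Pv D (e y.1) (z y.1) (-1)) (sqn y.2.1)
      (xa y.2.2.1))) ?_ ?_ (fun y hy' => ⟨⟨hy', fun c hc' => ?_⟩, ?_⟩) (fun y hy' => hy'.1.1)
    (fun y hy' => Prod.ext rfl ?_) (fun y hy' => ?_) (Eqs.of_eq fun y hy' => ?_) hp
  · have h1 : Pq k (fun y : α × (ι ⊕ ι → Ω) => p y.1) fun y => y.1 := Pq.id.fst
    have h2 : Pq k (fun y : α × (ι ⊕ ι → Ω) => p y.1) fun y => y.2 := Pq.id.snd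
    exact h1.mk ((Pq.vls fun v => Pq.bf _ ((hz v).pull h1 fun _ h => h) h2).mk
      ((Pq.pi fun i => Pq.bf _ ((hP _ _).pull h1 fun _ h => h) h2).mk
        (Pq.pi fun i => Pq.bf _ ((hP _ _).pull h1 fun _ h => h) h2)))
  · exact Pq.id.fst.mk (Pq.yv (fun u => (hz u).pull Pq.id.fst fun _ h => h.1.1)
      (fun u => (hP _ u).pull Pq.id.fst fun _ h => h.1.1) (fun u => Pq.id.snd.fst.sqn u)
      fun u => Pq.id.snd.snd.fst.xa u)
  · change Bf (-ε) (z y.1 c.val) y.2 = 0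
    rw [(hy _ hy').acz _ hc', Bf_zero_left]
  · have Y := hy _ hy'
    refine (Dn_eq_zero hi Y.am Y.se _ _ _).2 ((Y.tr hi hs y.2).congr hi Y.am Y.se
      (fun v hv => sqn_vls hi (fun v => Bf (-ε) (z y.1 v) y.2)
        (hv.imp_right fun h => ⟨h.2.1, by omega⟩))
      (fun u hu => xa_mem_SB8 _ ⟨u, hu⟩) (fun u hu => ?_) hs)
    have hu' : u - s ∈ bd D R f (-1) := hi.bd_per.1 (by rwa [sub_add_cancel])
    exact (xa_mem_SB8 _ ⟨u - s, hu'⟩).trans (by simp only [sub_add_cancel])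
  · refine Eq.trans ?_ (Hyb.yv_eq ((hy _ hy').hy (-1)) hc y.2)
    dsimp only [Yw]
    refine sum_congr rfl fun u hu => ?_
    rw [sqn_vls hi _ (Or.inl hu)]
    exact congrArg (fun w => _ + (sg (-ε) * w) • _) (xa_mem_SB8 _ ⟨u, hu⟩)
  · obtain ⟨x, a, t, t'⟩ := y
    have Y := hy _ hy'.1.1
    have hr := Y.rep h3 hs ((Dn_eq_zero hi Y.am Y.se _ _ _).1 hy'.2)
    refine Prod.ext rfl (Prod.ext (funext fun j => ?_) (Prod.ext (funext fun i => ?_)
      (funext fun i => ?_)))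
    · rcases j with i | c
      · exact (hr.1 i (Or.inl i.2)).symm.trans (sqn_inl hi a i)
      · by_cases hc' : R c.val
        · have h4 : ((c.val : ℕ) : ℤ) < s := by exact_mod_cast ZMod.val_lt c
          exact (hr.1 c.val (Or.inr ⟨hc', Int.natCast_nonneg _, by omega⟩)).symm.trans
            (sqn_inr a c)
        · change Bf (-ε) (z x c.val) _ = a (.inr c)
          rw [Y.acz _ hc', Bf_zero_left]
          exact (hy'.1.2 c hc').symm
    · exact (Hyb.p_yv (Y.hy (-1)) i.2).trans (xa_mem_SB8 t i)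
    · refine (hr.2 (i + s) (hi.bd_per.2 i.2)).symm.trans ?_
      simp only [add_sub_cancel_right, xa_mem_SB8]
  · rw [(hy _ hy').gn k h3 hc]

end Pool.Agent.CXD
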