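import Pool.Agent.P.MP_2ce3e7_ag.TB8
import Pool.Agent.P.MP_2ce3e7_ag.SB9

/-! Planes with exchanged lines, quadratic version. -/

set_option linter.unusedSectionVars false
set_option linter.unusedVariables false

open Function Matrix

noncomputable section

namespace Pool.Agent.CXD
open Finset

variable {k Ω : Type} [Field k] [Field Ω] [Algebra k Ω] {q : ℕ} {ε : ℤˣ} {s D : ℕ} [NeZero s]
  {R : ℤ → Prop} {f g : ℤ → ℤ} {ι : Type} [Fintype ι] {b : ι → Bool} {G : Gp Ω}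
  {e : ℤ → ℤ → Ω} {θ : ℤ} [IsAlgClosed Ω] [Sq k q]

variable {α : Type} [Af Ω α] {p : α → Prop} {ψ : α → Ω} {e : α → ℤ → ℤ → Ω}
  {z : α → ℤ → ι ⊕ ι → Ω}

theorem Au.nlinq (h : Au k q G) (hi : Is s D R f)
    (he : ∀ u v, Pq k p fun x => e x u v) (hy : ∀ x, p x → Amx q ε s D (e x) ∧ Se ε R f (e x))
    (hψ : Pq k p ψ) (h0 : Gy k G p)
    (hp : Gy k G (AS q (fun y : α × (Bi D R f ⊕ ZMod s → Ω) × (Bi D R f → Ω) × (Bi D R f → Ω) =>
      (p y.1 ∧ Aci R y.2.1) ∧ Dn (e y.1) y.2.1 y.2.2.1 y.2.2.2 = 0)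
      fun y => ψ y.1 + -sg ε * Gn q y.2.1 y.2.2.1 y.2.2.2)) :
    Gy k G (AS q (fun y : (α × (Bi D R f ⊕ ZMod s → Ω) × (Bi D R f ⊕ ZMod s → Ω)) ×
      (Bi D R f ⊕ Bi D R f → Ω) => p y.1.1 ∧ Aci R y.1.2.1 ∧ Aci R y.1.2.2)
      fun y => ψ y.1.1 + phq s D (B1 ε) (C1 ε) (e y.1.1) (fun u => (sqn y.1.2.1 u, sqn y.1.2.2 u)) +
        y.2 ⬝ᵥ Dc q y.1.2.1 y.1.2.2) := by
  have hq : Su k q := Sq.su
  have c2 : (sg ε : Ω) ≠ 0 := sg_ne ε
  have c3 : (sg ε : Ω) * sg ε = 1 := sg_mul_self ε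
  have c4 : (sg ε : Ω) ^ q = sg ε := sg_pow k ε
  have g1 : Gy k G fun y : α × (Bi D R f ⊕ ZMod s → Ω) × (Bi D R f → Ω) × (Bi D R f → Ω) =>
      p y.1 ∧ Aci R y.2.1 :=
    h.giso (fun y : (α × (Bi D R f ⊕ ZMod s → Ω)) × (Bi D R f → Ω) × (Bi D R f → Ω) =>
        (y.1.1, y.1.2, y.2)) (fun y => ((y.1, y.2.1), y.2.2)) (by fun_prop) (by fun_prop)
      (fun y hy => ⟨hy.1, (aci_SB9 _).1 hy.2⟩) (fun y hy => ⟨hy.1, (aci_SB9 _).2 hy.2⟩)
      (fun _ _ => rfl) (fun _ _ => rfl)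
      (h.gline _ (h.gsupp (fun j => ¬act_SB9 s D R f j) h0))
  have g2 := h.as_aff (act_SB9 s D R f)
    (D := fun (y : α × (Bi D R f ⊕ ZMod s → Ω) × (Bi D R f → Ω) × (Bi D R f → Ω)) j =>
      sg ε * Dn (e y.1) y.2.1 y.2.2.1 y.2.2.2 j)
    (ψ := fun y => ψ y.1 + -sg ε * Gn q y.2.1 y.2.2.1 y.2.2.2)
    (Pq.pi fun j => (Pq.const _).mul
      ((Pq.dn (fun u v => (he u v).pull (Pq.fst Pq.id) fun _ h => h.1) (Pq.fst (Pq.snd Pq.id))
        (Pq.fst (Pq.snd (Pq.snd Pq.id))) (Pq.snd (Pq.snd (Pq.snd Pq.id)))).eval j))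
    ((hψ.pull (Pq.fst Pq.id) fun _ h => h.1).add ((Pq.const _).neg.mul
      (Pq.gn (Pq.fst (Pq.snd Pq.id)) (Pq.fst (Pq.snd (Pq.snd Pq.id)))
        (Pq.snd (Pq.snd (Pq.snd Pq.id))))))
    (fun x j hx hj => by
      rcases j with i | c
      · exact absurd trivial hj
      · rw [Dn_inactive hi (hy _ hx.1).1 (hy _ hx.1).2 _ _ _ hj, mul_zero]) g1
    (hp.as_of_iff (fun x => and_congr_right fun _ =>
      ⟨fun hx => funext fun j => (mul_eq_zero.1 (congrFun hx j)).resolve_left c2,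
        fun hx => funext fun j => by rw [hx]; exact mul_zero _⟩) fun _ _ => rfl)
  refine h.as_iso
    (fun y : (α × (Bi D R f ⊕ ZMod s → Ω) × (Bi D R f → Ω) × (Bi D R f → Ω)) ×
        (Bi D R f ⊕ ZMod s → Ω) => ((y.1.1, y.1.2.1, y.2),
      Sum.elim (fun i => sg ε * y.1.2.2.2 i) fun i => -(sg ε * y.1.2.2.1 i ^ q)))
    (fun y => ((y.1.1, y.1.2.1, fun i => (frq q).symm (-(sg ε * y.2 (.inr i))),
      fun i => sg ε * y.2 (.inl i)), y.1.2.2))
    (by fun_prop) ?_ (fun y hy => ⟨hy.1.1, hy.1.2, (aci_SB9 _).1 hy.2⟩)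
    (fun y hy => ⟨⟨hy.1, hy.2.1⟩, (aci_SB9 _).2 hy.2.2⟩) ?_ ?_ ?_ g2
  · refine Pq.mk (Pq.mk (by fun_prop) (Pq.mk (by fun_prop) (Pq.mk (Pq.pi fun i =>
      po_fr_symm.comp (by fun_prop)) (by fun_prop)))) (by fun_prop)
  · rintro ⟨⟨x, a, t, t'⟩, a'⟩ -
    refine Prod.ext (Prod.ext rfl (Prod.ext rfl (Prod.ext (funext fun i => ?_)
      (funext fun i => ?_)))) rfl
    · refine (Equiv.symm_apply_eq _).2 ?_
      rw [fr_apply k]
      change -(sg ε * -(sg ε * t i ^ q)) = t i ^ q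
      linear_combination t i ^ q * c3
    · change sg ε * (sg ε * t' i) = t' i
      linear_combination t' i * c3
  · rintro ⟨⟨x, a, a'⟩, μ⟩ -
    refine Prod.ext rfl (funext fun j => ?_)
    rcases j with i | i
    · change sg ε * (sg ε * μ (.inl i)) = μ (.inl i)
      linear_combination μ (.inl i) * c3
    · change -(sg ε * ((frq q).symm (-(sg ε * μ (.inr i)))) ^ q) = μ (.inr i)
      rw [← fr_apply k, Equiv.apply_symm_apply]
      linear_combination μ (.inr i) * c3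
  · refine ⟨fun y => ∑ i, sg ε * (y.1.2.2.1 i * y.2 (.inl i)), by fun_prop, ?_⟩
    rintro ⟨⟨x, a, t, t'⟩, a'⟩ ⟨⟨hx, -⟩, -⟩
    have e1 : (a' ⬝ᵥ fun j => sg ε * Dn (e x) a t t' j) = sg ε * (a' ⬝ᵥ Dn (e x) a t t') := by
      simp only [dotProduct, Finset.mul_sum]
      exact Finset.sum_congr rfl fun j _ => by ring
    have e2 : (Sum.elim (fun i => sg ε * t' i) fun i => -(sg ε * t i ^ q)) ⬝ᵥ Dc q a a' =
        -sg ε * Gn q a t t' + sg ε * ∑ i, (t' i * sqn a' (i + s) - t i * a' (.inl i)) +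
          ((∑ i, sg ε * (t i * a' (.inl i))) ^ q + ∑ i, sg ε * (t i * a' (.inl i))) := by
      rw [hq.sum_pow, dotProduct, Fintype.sum_sum_type, Gn, Finset.mul_sum, Finset.mul_sum]
      simp only [Dc, Sum.elim_inl, Sum.elim_inr, ← Finset.sum_add_distrib]
      refine Finset.sum_congr rfl fun i _ => ?_
      rw [mul_pow, c4, mul_pow]
      ring
    dsimp only
    rw [e1, e2, dot_Dn hi a a' t t', phq_sqn hi (hy x hx).1 (hy x hx).2]
    ring

theorem exists_hmq (k : Type) [Field k] [Algebra k Ω] [Sq k q] [DecidableEq ι]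
    (ε : ℤˣ) (b : ι → Bool) : ∃ m : Matrix (ι ⊕ ι) (ι ⊕ ι) Ω, Kr k m ∧ m.det ≠ 0 ∧
      (fm q m)ᵀ = m ∧ ∀ y, -sg ε * Bf (-ε) y (FV q (-ε) b y) =
        y ⬝ᵥ m *ᵥ fun i => y i ^ q := by
  have hq : Su k q := Sq.su
  have e0 := sg_mul_self (Ω := Ω) ε
  have kd : ∀ d : ι → Ω, (∀ i, Kr k (d i)) → ∀ i j, Kr k (diagonal d i j) := fun d hd i j => by
    rw [diagonal_apply]
    split_ifs
    · exact hd i
    · infer_instance
  have fd : ∀ d : ι → Ω, (∀ i, d i ^ q = d i) → (diagonal d).map (· ^ q) = diagonal d :=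
    fun d hd => by
      rw [diagonal_map (f := (· ^ q)) (zero_pow hq.pos.ne')]
      exact congrArg diagonal (funext hd)
  have k1 : Kr k (-sg ε : Ω) := kr_self.2 ⟨((-ε : ℤ) : k), by
    rw [map_intCast, sg]; push_cast; rfl⟩
  refine ⟨fromBlocks (diagonal fun i => if b i then -sg ε else 0)
    (diagonal fun i => if b i then 0 else 1) (diagonal fun i => if b i then 0 else 1)
    (diagonal fun i => if b i then 1 else 0), kr_pi fun i => kr_pi fun j => ?_, ?_, ?_, fun y => ?_⟩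
  · rcases i with i | i <;> rcases j with j | j <;>
      simp only [fromBlocks_apply₁₁, fromBlocks_apply₁₂, fromBlocks_apply₂₁, fromBlocks_apply₂₂] <;>
      refine kd _ (fun i => ?_) i j <;> split_ifs <;> infer_instance
  · refine det_ne_zero_of_right_inverse (B := fromBlocks
      (diagonal fun i => if b i then -sg ε else 0) (diagonal fun i => if b i then 0 else 1)
      (diagonal fun i => if b i then 0 else 1) (diagonal fun i => if b i then 1 else 0)) ?_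
    rw [fromBlocks_multiply, ← fromBlocks_one]
    simp only [diagonal_mul_diagonal, diagonal_add, ← diagonal_one, ← diagonal_zero]
    refine fromBlocks_inj.2 ⟨?_, ?_, ?_, ?_⟩ <;> refine congrArg diagonal (funext fun i => ?_) <;>
      cases b i <;> simp [e0]
  · rw [fm, fromBlocks_map, fd, fd, fd, fromBlocks_transpose]
    · simp only [diagonal_transpose]
    all_goals
      intro i
      split_ifs <;> simp [zero_pow hq.pos.ne', hq.neg_pow, sg_pow k]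
  · rw [Bf, Finset.mul_sum, dotProduct, Fintype.sum_sum_type, ← Finset.sum_add_distrib]
    refine Finset.sum_congr rfl fun i _ => ?_
    rw [FV_inl _ _ _ k, FV_inr _ _ _ k, fromBlocks_mulVec, sg_neg]
    simp only [Sum.elim_inl, Sum.elim_inr, Pi.add_apply, mulVec_diagonal, Function.comp_apply]
    cases b i
    · simp only [Bool.false_eq_true, if_false]
      linear_combination (y (.inl i) * y (.inr i) ^ q + y (.inr i) * y (.inl i) ^ q) * e0
    · simp only [if_true]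
      linear_combination (y (.inr i) * y (.inr i) ^ q) * e0

theorem Az.nstepq (h : Az k q G) (h3 : C3 s D R f g)
    (hc : (bd D R f (-1)).card = Fintype.card ι) (he : ∀ u v, Pq k p fun x => e x u v)
    (hz : ∀ u, Pq k p fun x => z x u) (hy : ∀ x, p x → Ys q ε b s D R f (e x) (z x))
    (hψ : Pq k p ψ) (h0 : Gy k G p) (hp : Gy k G (AS q p ψ)) :
    Gy k G (AS q (fun y : α × (ZMod s → Ω × Ω) => p y.1 ∧ Acz R (pext (F1 q ε true) s y.2))
      fun y => ψ y.1 + phq s D (B1 ε) (C1 ε) (e y.1) (pext (F1 q ε true) s y.2)) := by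
  classical
  obtain ⟨m, k1, m1, m2, m3⟩ := exists_hmq (Ω := Ω) k ε b
  have c : Lc k fun _ : ι ⊕ ι → Ω => True := Lr.const True
  have g1 := h.as_add h0.lc c hψ (χ := fun y : ι ⊕ ι → Ω => y ⬝ᵥ m *ᵥ fun i => y i ^ q)
    (by fun_prop) hp fun G' h' => h'.as_form m m1 m2
  have g2 := h.toAu.nlocusq h3 hc he hz hy
    (g1.as_of_iff (fun x => (and_iff_left trivial).symm) fun x _ => by rw [m3])
  have g3 := h.toAu.nlinq h3.toIs he (fun x hx => ⟨(hy x hx).am, (hy x hx).se⟩) hψ h0 g2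
  refine h.toAu.nisoq h3.toIs (fun x hx => (hy x hx).se) (h.toAu.as_raff
    (Pq.dc (Pq.fst (Pq.snd Pq.id)) (Pq.snd (Pq.snd Pq.id)))
    ((hψ.pull (Pq.fst Pq.id) fun _ h => h.1).add
      (Pq.phq (fun u v => (he u v).pull (Pq.fst Pq.id) fun _ h => h.1) (fun u v => ?_) fun u =>
        Pq.c1 ε ((Pq.sqn (Pq.fst (Pq.snd Pq.id)) u).mk (Pq.sqn (Pq.snd (Pq.snd Pq.id)) u))))
    (h.toAu.ngraphs h3.toIs h0) g3)
  exact ((Pq.sqn (Pq.fst (Pq.snd Pq.id)) u).mul (Pq.sqn (Pq.snd (Pq.snd Pq.id)) v)).add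
    ((Pq.const _).mul ((Pq.sqn (Pq.snd (Pq.snd Pq.id)) u).mul (Pq.sqn (Pq.fst (Pq.snd Pq.id)) v)))

end Pool.Agent.CXD
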