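import Pool.Agent.P.MP_2ce3e7_ag.TI0

/-! Clearing an entry. -/

set_option linter.unusedSectionVars false
set_option linter.unusedVariables false

open Function Matrix

noncomputable section

namespace Pool.Agent.CXD
open Finset

variable {k Ω : Type} [Field k] [Field Ω] [Algebra k Ω] {q : ℕ} {ε : ℤˣ} {s D : ℕ} [NeZero s]
  {R : ℤ → Prop} {f f' f₁ f₂ : ℤ → ℤ} {n : Type} [Fintype n] {G : Gp Ω}
  {B : (n → Ω) → (n → Ω) → Ω} {C : (n → Ω) → Ω} {F : Equiv.Perm (n → Ω)}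
  {Q Q' : (ℤ → ℤ → Ω) → Prop} {r κ : ℤ} {e : ℤ → ℤ → Ω}
  [Sq k q] [IsAlgClosed Ω]

theorem sym_TI2 {α : Type} [Af Ω α] {p : α → Prop} (L : ℕ) {g : α → ℤ → ℤ → Ω}
    (h : ∀ u v, Pq k p fun a => g a u v)
    (h1 : ∀ a u v, p a → g a (u + s) (v + s) = -g a u v ^ q) :
    Eqs k q p (fun a => ∑ v ∈ Ico (0 : ℤ) s, (g a v v + ∑ u ∈ Ico (v - L) v, (g a u v + g a v u)))
      fun a => ∑ u ∈ Ico (0 : ℤ) s, ∑ v ∈ Icc (u - L) (u + L), g a u v := by
  refine (Eqs.of_eq fun a ha => ?_).trans (((Eqs.refl (ψ := fun a => ∑ v ∈ Ico (0 : ℤ) s,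
    (g a v v + ∑ u ∈ Ico (v - L) v, g a v u))).add (eqs_pair L h h1)).trans
      (Eqs.of_eq fun a ha => ?_))
  · rw [← sum_add_distrib]
    refine sum_congr rfl fun v _ => ?_
    rw [sum_add_distrib]
    ring
  · rw [← sum_add_distrib]
    refine sum_congr rfl fun v _ => ?_
    rw [all_SE2 (g a v), lo_SE2 (g a v), hi_SE2 (g a v)]

theorem shift_TI2 {α : Type} [Af Ω α] {p : α → Prop} {c : α → ℤ → Ω} {g : α → ℤ → ℤ → Ω}
    (hc : ∀ u, Pq k p fun a => c a u) (h : ∀ u v, Pq k p fun a => g a u v)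
    (h0 : ∀ a u, p a → c a (u + s) = -c a u ^ q)
    (h1 : ∀ a u v, p a → g a (u + s) (v + s) = -g a u v ^ q) (κ : ℤ) :
    Eqs k q p (fun a => ∑ v ∈ Ico (0 : ℤ) s,
        (c a (v + κ) + ∑ u ∈ Ico (v - D) v, g a (u + κ) (v + κ)))
      fun a => ∑ v ∈ Ico (0 : ℤ) s, (c a v + ∑ u ∈ Ico (v - D) v, g a u v) := by
  have w := eqs_window (k := k) (q := q) (p := p) s
    (τ := fun a v => c a v + ∑ d ∈ Icc (1 : ℤ) D, g a (v - d) v)
    (fun v => (hc v).add (Pq.sum _ fun d => h _ _)) (fun a v ha => by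
      rw [(Sq.su : Su k q).add_pow, (Sq.su : Su k q).sum_pow, neg_add, ← sum_neg_distrib, h0 a v ha]
      refine congrArg _ (sum_congr rfl fun d _ => ?_)
      rw [add_sub_right_comm, h1 a _ _ ha]) κ
  refine (Eqs.of_eq fun a ha => sum_congr rfl fun v _ => ?_).trans
    (w.trans (Eqs.of_eq fun a ha => sum_congr rfl fun v _ => ?_))
  · rw [lo_SE2 (fun u => g a (u + κ) (v + κ))]
    simp only [add_sub_right_comm]
  · rw [lo_SE2 (fun u => g a u v)]

theorem ew_TI2 (hF : Fo k q ε B F) (ha : Amx q ε s D e) (x : ℤ → n → Ω) (y : n → Ω) (u : ℤ)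
    (S : Finset ℤ) (h : ∀ v, u - D ≤ v → v ≤ u + D → v ∈ S) :
    ∑ v ∈ S, e u v * B y (x v) = B y (Ew D e x u) := by
  have := map_sum (IsLinearMap.mk' _ (hF.lin' y)) (fun v => e u v • x v) S
  simp only [IsLinearMap.mk'_apply, (hF.lin' y).map_smul, smul_eq_mul] at this
  rw [ew_big_SI2 ha x u 0 S (by simpa using h), ← this]
  simp only [add_zero]

theorem per_TI2 (hF : Fo k q ε B F) (ha : Amx q ε s D e) {x y : ℤ → n → Ω} (hx : Pe F s x)
    (hy : Pe F s y) (u v w : ℤ) : e (u + s) (v + s) * B (y (w + s)) (x (v + s)) =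
      -(e u v * B (y w) (x v)) ^ q := by
  rw [ha.per, hx, hy, hF.frob, mul_pow]
  linear_combination (-(e u v ^ q * B (y w) (x v) ^ q)) * sg_mul_self (Ω := Ω) ε

theorem swap_TI2 (hF : Fo k q ε B F) (ha : Amx q ε s D e) (x y : n → Ω) (u v : ℤ) :
    e v u * B y x = e u v * B x y := by
  rw [ha.sym u v, hF.comm x y]
  linear_combination (e u v * B x y) * sg_mul_self (Ω := Ω) ε

theorem eqs_opq (hF : Fq k q ε B C F) {α : Type} [Af Ω α] {p : α → Prop} {e : α → ℤ → ℤ → Ω}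
    {t : α → ℤ → Ω} {x : α → ℤ → n → Ω} (he : ∀ u v, Pq k p fun a => e a u v)
    (ht : ∀ u, Pq k p fun a => t a u) (hx : ∀ u, Pq k p fun a => x a u)
    (h1 : ∀ a, p a → Amx q ε s D (e a)) (h2 : ∀ a, p a → Amx q ε s D (ope κ (t a) (e a)))
    (h3 : ∀ a, p a → Pe (frq q) s (t a)) (h4 : ∀ a, p a → Pe F s (x a))
    (h5 : ∀ a v, p a → ε ≠ 1 → e a v v = 0) :
    Eqs k q p (fun a => phq s D B C (ope κ (t a) (e a)) (x a))
      fun a => phq s D B C (e a) (opx κ (t a) (x a)) := by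
  have hy : ∀ u, Pq k p fun a => t a u • x a (u - κ) := fun u => (ht u).vsmul (hx _)
  have h6 : ∀ a, p a → Pe F s fun u => t a u • x a (u - κ) := fun a ha u => by
    beta_reduce
    rw [h3 a ha, fr_apply k, add_sub_right_comm, h4 a ha, hF.sem.smul]
  have w1 := sym_TI2 (k := k) (q := q) (s := s) (p := p) D
    (g := fun a u v => e a u v * B (t a u • x a (u - κ)) (x a v))
    (fun u v => (he u v).mul (hF.toFo.pq (hy u) (hx v)))
    fun a u v ha => per_TI2 hF.toFo (h1 a ha) (h4 a ha) (h6 a ha) u v u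
  have w2 := sym_TI2 (k := k) (q := q) (s := s) (p := p) (D + κ.natAbs)
    (g := fun a u v => e a (u + κ) v * B (t a (u + κ) • x a (u + κ - κ)) (x a v))
    (fun u v => (he _ v).mul (hF.toFo.pq (hy _) (hx v))) fun a u v ha => by
      rw [add_right_comm u]
      exact per_TI2 hF.toFo (h1 a ha) (h4 a ha) (h6 a ha) _ v _
  have w3 := shift_TI2 (k := k) (q := q) (s := s) (D := D) (p := p)
    (c := fun a v => e a v v * C (t a v • x a (v - κ)))
    (g := fun a u v => e a u v * B (t a u • x a (u - κ)) (t a v • x a (v - κ)))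
    (fun u => (he u u).mul (hF.pc (hy u))) (fun u v => (he u v).mul (hF.toFo.pq (hy u) (hy v)))
    (fun a u ha => by
      rw [(h1 a ha).per, show t a (u + s) • x a (u + s - κ) = _ from h6 a ha u, hF.cfr, mul_pow]
      by_cases h : ε = 1
      · rw [h, sg_one, one_mul, neg_mul]
      · rw [hF.czero h, zero_pow (Sq.su : Su k q).pos.ne', mul_zero, mul_zero, neg_zero])
    (fun a u v ha => per_TI2 hF.toFo (h1 a ha) (h6 a ha) (h6 a ha) u v u) κ
  have w4 := eqs_window (k := k) (q := q) (p := p) s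
    (τ := fun a u => B (t a u • x a (u - κ)) (Ew D (e a) (x a) u))
    (fun u => hF.toFo.pq (hy u) (Pq.ev he hx u)) (fun a u ha => by
      rw [show t a (u + s) • x a (u + s - κ) = _ from h6 a ha u,
        Ew.per hF.sem (h1 a ha) (h4 a ha), (hF.lin' _).map_neg, (hF.lin' _).map_smul, hF.frob,
        smul_eq_mul, ← mul_assoc, sg_mul_self, one_mul]) κ
  have w5 := w2.trans ((Eqs.of_eq fun a ha => sum_congr rfl fun u _ =>
    ew_TI2 hF.toFo (h1 a ha) (x a) _ _ _ fun v _ _ => mem_Icc.2 (by omega)).trans (w4.trans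
      (w1.trans (Eqs.of_eq fun a ha => sum_congr rfl fun u _ =>
        ew_TI2 hF.toFo (h1 a ha) (x a) _ _ _ fun v _ _ => mem_Icc.2 (by omega))).symm))
  refine (Eqs.of_eq fun a ha => ?_).trans ((((Eqs.refl
    (ψ := fun a => phq s D B C (e a) (x a))).add w5).add w3).trans (Eqs.of_eq fun a ha => ?_))
  · simp only [phq, ← sum_add_distrib, add_sub_cancel_right, (hF.lin _).map_smul,
      (hF.lin' _).map_smul, smul_eq_mul, hF.csmul]
    refine sum_congr rfl fun v _ => ?_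
    have b1 : ∀ u, e a (u + κ) v * (t a (u + κ) * B (x a u) (x a v)) +
        e a (v + κ) u * (t a (v + κ) * B (x a v) (x a u)) = (ope κ (t a) (e a) u v - e a u v -
          t a (u + κ) * t a (v + κ) * e a (u + κ) (v + κ)) * B (x a u) (x a v) := fun u => by
      rw [ope]
      linear_combination t a (v + κ) * swap_TI2 hF.toFo (h1 a ha) (x a u) (x a v) u (v + κ)
    have b2 : ope κ (t a) (e a) v v * C (x a v) = e a v v * C (x a v) +
        e a (v + κ) v * (t a (v + κ) * B (x a v) (x a v)) +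
          e a (v + κ) (v + κ) * (t a (v + κ) ^ 2 * C (x a v)) := by
      rw [hF.ctwo, ope]
      by_cases h : ε = 1
      · rw [(h1 a ha).sym v (v + κ), h, sg_one]
        ring
      · rw [hF.czero h]
        ring
    rw [sum_congr rfl fun u _ => b1 u, ← sum_subset (s₁ := Ico (v - D) v)
      (s₂ := Ico (v - (D + κ.natAbs : ℕ)) v) (Ico_subset_Ico_left (by omega))
        fun u h7 h8 => ?_, b2]
    · simp only [sub_mul, sum_sub_distrib]
      have b3 : ∑ u ∈ Ico (v - D) v, e a (u + κ) (v + κ) *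
          (t a (u + κ) * (t a (v + κ) * B (x a u) (x a v))) = ∑ u ∈ Ico (v - D) v,
            t a (u + κ) * t a (v + κ) * e a (u + κ) (v + κ) * B (x a u) (x a v) :=
        sum_congr rfl fun u _ => by ring
      linear_combination -b3
    · rw [mem_Ico] at h7 h8
      rw [(h2 a ha).band' k u v (by omega), (h1 a ha).band' k u v (by omega),
        (h1 a ha).band' k _ _ (by omega)]
      ring
  · simp only [phq, opx, ← sum_add_distrib, (hF.lin _).map_add, (hF.lin' _).map_add]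
    refine sum_congr rfl fun v _ => ?_
    have b2 : e a v v * C (x a v + t a v • x a (v - κ)) = e a v v * C (x a v) +
        e a v v * C (t a v • x a (v - κ)) + e a v v * B (t a v • x a (v - κ)) (x a v) := by
      by_cases h : ε = 1
      · rw [hF.cadd h, swap_TI2 hF.toFo (h1 a ha) (x a v)]
        ring
      · rw [h5 a v ha h]
        ring
    simp only [b2, fun u => swap_TI2 hF.toFo (h1 a ha) (x a u) (t a v • x a (v - κ)) u v,
      mul_add, sum_add_distrib]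
    ring

theorem Au.clq (h : Au k q G) (hF : Fq k q ε B C F) (hi : Is s D R f) (ho : Opd s R f r κ) (v : ℤ)
    (h3 : ∀ e, Q e → e r v ≠ 0)
    (h4 : ∀ e τ, Amx q ε s D e → Se ε R f e → Q e → Q (ope κ (tws q s r τ) e) ∧
      ope κ (tws q s r τ) e r v = e r v ∧
      ope κ (tws q s r τ) e (r - κ) v = e (r - κ) v + τ * e r v)
    (hp : GU k G q ε B C F s D R f f fun e => Q e ∧ e (r - κ) v = 0) :
    GU k G q ε B C F s D R f f Q := by
  have a1 : ∀ (E : Ecf Ω s D) (τ : Ω), Se ε R f (ee q ε E) →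
      ee q ε (rse s D (ope κ (tws q s r τ) (ee q ε E))) = ope κ (tws q s r τ) (ee q ε E) :=
    fun E τ hs => (ho.amq (k := k) hi (hs.ad k) hs).ee_rse k
  have a0 : ∀ (X : ZMod s → n → Ω) (τ : Ω), Pe F s (opx κ (tws q s r τ) (pext F s X)) :=
    fun X τ => hF.sem.pe_opx (pe_tw q r τ) (pe_pext F X)
  have a2 : ∀ (X : ZMod s → n → Ω) (τ : Ω),
      pext F s (rsn s (opx κ (tws q s r τ) (pext F s X))) = opx κ (tws q s r τ) (pext F s X) :=
    fun X τ => (a0 X τ).pext_res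
  have b1 : ∀ u v, Pq k (fun y : (Ecf Ω s D × (ZMod s → n → Ω)) × Ω =>
      Tb q ε F s D R f f Q y.1) fun y => ee q ε y.1.1 u v := fun u v =>
    Pq.ee (Pq.fst (Pq.fst Pq.id)) ε u v
  have b2 : ∀ u, Pq k (fun y : (Ecf Ω s D × (ZMod s → n → Ω)) × Ω =>
      Tb q ε F s D R f f Q y.1) fun y => pext F s y.1.2 u := fun u =>
    Pq.pext hF.sem.po hF.sem.po' (Pq.snd (Pq.fst Pq.id)) u
  have b3 : Pq k (fun y : (Ecf Ω s D × (ZMod s → n → Ω)) × Ω =>
      Tb q ε F s D R f f Q y.1) fun y => y.2 * (ee q ε y.1.1 r v)⁻¹ :=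
    (Pq.snd Pq.id).mul ((b1 r v).inv fun y hy => h3 _ hy.2.2.2)
  have b4 : ∀ u, Pq k (fun y : (Ecf Ω s D × (ZMod s → n → Ω)) × Ω =>
      Tb q ε F s D R f f Q y.1) fun y =>
        opx κ (tws q s r (-(y.2 * (ee q ε y.1.1 r v)⁻¹))) (pext F s y.1.2) u := fun u =>
    (b2 u).vadd ((b3.neg.tws r u).vsmul (b2 _))
  refine h.as_slice (g := fun y => ee q ε y.1 (r - κ) v)
    (a := fun y => (rse s D (ope κ (tws q s r (y.2 * (ee q ε y.1.1 r v)⁻¹)) (ee q ε y.1.1)),
      rsn s (opx κ (tws q s r (-(y.2 * (ee q ε y.1.1 r v)⁻¹))) (pext F s y.1.2))))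
    (pq_te _ _) (Pq.mk (Pq.rse fun u w => (((b1 u w).add ((b3.tws r _).mul (b1 _ _))).add
      ((b3.tws r _).mul (b1 _ _))).add (((b3.tws r _).mul (b3.tws r _)).mul (b1 _ _)))
      (Pq.rsn b4)) (fun y t hy => ?_) (fun y hy => ?_) (fun y t t' hy => ?_) (fun y t hy => ?_) ?_
    (hp.as_of_iff (fun y => ?_) fun _ _ => rfl)
  · obtain ⟨c1, c2, c3, c4⟩ := hy
    simp only [Tb, a1 _ _ c1, a2]
    exact ⟨ho.seq (k := k) hi (c1.ad k) c1, ho.acz (k := k) hi c2, ho.ci (k := k) hi c3,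
      (h4 _ _ (c1.ad k) c1 c4).1⟩
  · simp only [zero_mul, neg_zero, tw_zero k, ope_zero, opx_zero, rse_ee, res_pext]
  · simp only [a1 _ _ hy.1, a2, (h4 _ _ (hy.1.ad k) hy.1 hy.2.2.2).2.1, ho.ope_ope (k := k),
      ho.opx_opx (k := k), add_mul, neg_add]
  · simp only [a1 _ _ hy.1, (h4 _ _ (hy.1.ad k) hy.1 hy.2.2.2).2.2]
    rw [inv_mul_cancel_right₀ (h3 _ hy.2.2.2)]
  · refine (Eqs.of_eq fun y hy => ?_).trans ((eqs_opq (κ := κ) hF b1 (fun u => b3.tws r u) b4
      (fun y hy => hy.1.ad k) (fun y hy => ho.amq (k := k) hi (hy.1.ad k) hy.1)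
      (fun y _ => pe_tw q r _) (fun y _ => a0 _ _) fun y v hy h5 => hy.1.diag h5 v).trans (Eqs.of_eq fun y hy => ?_))
    · simp only [Uf, a1 _ _ hy.1, a2]
    · simp only [Uf, ho.opx_opx (k := k), neg_add_cancel, tw_zero k, opx_zero]
  · simp only [Tb, and_assoc]

/-- two intervals with the same end -/
theorem Au.uq_two (h : Au k q G) (hF : Fq k q ε B C F) (hi : Is s D R f) (ho : Opd s R f r κ)
    (hf : f (r - κ) = f r) (hr : r ≤ f r)
    (h3 : GU k G q ε B C F s D R (low s f r) (low s f r) fun _ => True)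
    (h4 : GU k G q ε B C F s D R (low s f (r - κ)) (low s f (r - κ)) fun _ => True) :
    GU k G q ε B C F s D R f f fun _ => True := by
  refine h.uq_split hF hi r (f r) (h.uq_last hF hi hr h3) (h.clq hF hi ho (f r)
    (fun _ he => he) (fun e τ _ hs he => ?_) (GU.congr (fun e _ => ?_) (h.uq_opn hF r (f r)
      (h.uq_last hF hi (by have := ho.pos; omega) h4))))
  · obtain ⟨a, b⟩ := ho.two (k := k) (τ := τ) hs hf hr
    exact ⟨a ▸ he, a, b⟩
  · rw [hf, and_comm (a := e r (f r) ≠ 0)]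

end Pool.Agent.CXD
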