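import Pool.Agent.P.MP_2ce3e7_ag.TI3
import Pool.Agent.P.MP_2ce3e7_ag.SI4

/-! Intervals with one point. -/

set_option linter.unusedSectionVars false
set_option linter.unusedVariables false

open Function Matrix

noncomputable section

namespace Pool.Agent.CXD
open Finset

variable {k Ω : Type} [Field k] [Field Ω] [Algebra k Ω] {q : ℕ} {ε : ℤˣ} {s D : ℕ} [NeZero s]
  {R : ℤ → Prop} {f f' f₁ f₂ : ℤ → ℤ} {n : Type} [Fintype n] {G : Gp Ω}
  {B : (n → Ω) → (n → Ω) → Ω} {C : (n → Ω) → Ω} {F : Equiv.Perm (n → Ω)}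
  {Q Q' : (ℤ → ℤ → Ω) → Prop} {r κ : ℤ} {e : ℤ → ℤ → Ω}
  [Sq k q] [IsAlgClosed Ω]

theorem Au.uq_1a_clr (h : Au k q G) (hF : Fq k q ε B C F) (hi : Is s D R f) (h0 : 0 ≤ r) (h1 : r < s)
    (hR : R r) (hf : f r = r)
    (hp : GU k G q ε B C F s D R f f fun e => e r r ≠ 0 ∧ ∀ u, u < r → e u r = 0) :
    GU k G q ε B C F s D R f f fun e => e r r ≠ 0 := by
  have key : ∀ j : ℕ, (GU k G q ε B C F s D R f f
      fun e => e r r ≠ 0 ∧ ∀ u, r - j ≤ u → u < r → e u r = 0) →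
      GU k G q ε B C F s D R f f fun e => e r r ≠ 0 := by
    intro j
    induction j with
    | zero =>
      refine GU.congr fun e _ => and_congr_right fun _ => ⟨fun a => ⟨a, fun u b c => ?_⟩, And.left⟩
      simp only [Nat.cast_zero] at b
      omega
    | succ j ih =>
      intro hj
      have hj' : GU k G q ε B C F s D R f f fun e =>
          (e r r ≠ 0 ∧ ∀ u, r - j ≤ u → u < r → e u r = 0) ∧ e (r - (j + 1)) r = 0 := by
        refine GU.congr (fun e _ => and_congr_right fun _ => ⟨fun a => ⟨a.1.1, fun u b c => ?_⟩,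
          fun a => ⟨⟨a.1, fun u b c => a.2 u (by push_cast; omega) c⟩,
            a.2 _ (by push_cast; omega) (by omega)⟩⟩) hj
        push_cast at b
        by_cases hu : u = r - (j + 1)
        · exact hu ▸ a.2
        · exact a.1.2 u (by omega) c
      refine ih ?_
      by_cases hu : R (r - (j + 1)) ∧ r ≤ f (r - (j + 1))
      · have ho : Opd s R f r (j + 1) := by
          refine ⟨h0, h1, by omega, fun c => ?_, hR, hu.1, by rw [hf]; exact hu.2⟩
          have := (cls_SI4 hi hR hf c).2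
          omega
        refine h.clq hF hi ho r (fun e a => a.1) (fun e τ ha hs hq => ?_) hj'
        have c1 : ope (j + 1) (tws q s r τ) e r r = e r r := by
          rw [Opd.col (k := k) ho hi ha hs hf, if_neg (by omega), add_zero]
        refine ⟨⟨by rw [c1]; exact hq.1, fun u b c => ?_⟩, c1, ?_⟩
        · rw [Opd.col (k := k) ho hi ha hs hf, if_neg (by omega), add_zero]
          exact hq.2 u b c
        · rw [Opd.col (k := k) ho hi ha hs hf, if_pos rfl]
      · refine GU.congr (fun e _ => and_congr_right fun hs => ⟨fun a => ⟨a, ?_⟩, And.left⟩) hj'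
        exact hs _ _ (by omega) fun c => hu ⟨c.1, c.2.2.1⟩
  refine key D (GU.congr (fun e ha => and_congr_right fun hs => and_congr_right fun _ =>
    ⟨fun a u b => ?_, fun a u _ b => a u b⟩) hp)
  by_cases c : r - D ≤ u
  · exact a u c b
  · exact hs u r b.le fun d => c (by linarith [d.2.2.1, hi.hi u])

theorem Au.uq_1a (h : Au k q G) (hF : Fq k q ε B C F) (hi : Is s D R f)
    (h0 : 0 ≤ r) (h1 : r < s) (hR : R r) (hf : f r = r)
    (h3 : GU k G q ε B C F s D R (low s f r) (low s f r) fun _ => True)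
    (hp : GU k G q ε B C F s D R f (low s f r) fun e => e r r ≠ 0 ∧ ∀ u, u < r → e u r = 0) :
    GU k G q ε B C F s D R f f fun _ => True := by
  refine h.uq_split hF hi r r ?_ (h.uq_1a_clr hF hi h0 h1 hR hf
    (h.uq_add hF hi (fun u _ => low_le f r u) hp))
  simpa only [hf] using h.uq_last hF hi hf.ge h3

/-- the vector with index `r` splits off; `χ` is what remains of its square -/
theorem Au.uq_1a_iso (h : Au k q G) (hF : Fq k q ε B C F) (hi : Is s D R f) (h0 : 0 ≤ r)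
    (h1 : r < s) (hR : R r) (hf : f r = r) (hε : ε = 1)
    (hp : Gy k G (AS q (fun y : (Ecf Ω s D × (ZMod s → n → Ω)) × Ω × (n → Ω) =>
      Tb q ε F s D (rmv s R r) f f (fun _ => True) y.1 ∧ y.2.1 ≠ 0)
      fun y => Uf q ε B C F s D y.1 + y.2.1 * C y.2.2)) :
    GU k G q ε B C F s D R f (low s f r) fun e => e r r ≠ 0 ∧ ∀ u, u < r → e u r = 0 := by
  have hv := val_SE1 h0 h1
  have z1 : ∀ {E : Ecf Ω s D}, Se ε (rmv s R r) f (ee q ε E) →
      Se ε R f (ee q ε E) ∧ ∀ u, u ≤ r → ee q ε E u r = 0 := fun a =>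
    (se_rmv k hi (a.ad k) hf.le).1 a
  have z2 : ∀ {X : ZMod s → n → Ω}, Acz (rmv s R r) (pext F s X) → X r = 0 := fun a => by
    have := a r fun b => b.2 rfl
    rwa [pext_of_mem h0 h1] at this
  have z3 : ∀ (E : Ecf Ω s D) (ρ : Ω), ee q ε (upd_SI4 E r ρ) r r = ρ := fun E ρ => by
    rw [diag_SI4 _ h0 h1, upd_SI4, update_self, update_self]
  refine h.as_iso (fun z => (upd_SI4 z.1.1 r z.2.1, update z.1.2 r z.2.2))
    (fun x => ((upd_SI4 x.1 r 0, update x.2 r 0), x.1 r 0, x.2 r)) ?_ ?_ ?_ ?_ ?_ ?_ ?_ hp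
  · unfold upd_SI4
    fun_prop
  · unfold upd_SI4
    fun_prop
  · rintro ⟨⟨E, X⟩, ρ, y⟩ ⟨⟨a, b, c, -⟩, d⟩
    refine ⟨se_SI4 hi hR hf hε (z1 a).1 ρ, fun u hu => ?_, ?_, by rw [z3]; exact d, fun u hu => ?_⟩
    · rw [pext_update_of_ne _ _ fun t => hu (cls_SI4 hi hR hf t).1]
      exact b u fun t => hu t.1
    · refine (ci_SI4 hi hf X y (X r)).2 ?_
      rwa [update_eq_self]
    · rw [ee_SI4 E r ρ fun t => hu.ne t.1]
      exact (z1 a).2 u hu.le
  · rintro ⟨E, X⟩ ⟨a, b, c, d, d'⟩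
    have a' := se_SI4 hi hR hf hε a 0
    refine ⟨⟨(se_rmv k hi (a'.ad k) hf.le).2 ⟨a', fun u hu => ?_⟩, ?_, ?_, trivial⟩, ?_⟩
    · rcases hu.eq_or_lt with rfl | hu
      · exact z3 E 0
      · rw [ee_SI4 E r 0 fun t => hu.ne t.1]
        exact d' u hu
    · refine (hF.sem.act_iff (hi.rmv r).perR _).2 fun t ht => ?_
      by_cases w : t = r
      · exact w ▸ update_self ..
      · refine (update_of_ne w ..).trans ?_
        refine (hF.sem.act_iff hi.perR _).1 b t fun v => ht ⟨v, ?_⟩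
        simpa using w
    · refine (ci_SI4 hi hf X (X r) 0).1 ?_
      rwa [update_eq_self]
    · rwa [diag_SI4 _ h0 h1] at d
  · rintro ⟨⟨E, X⟩, ρ, y⟩ ⟨⟨a, b, c, -⟩, d⟩
    have a1 : E r 0 = 0 := by rw [← diag_SI4 (q := q) (ε := ε) E h0 h1]; exact (z1 a).2 r le_rfl
    have b1 : X r = 0 := z2 b
    simp only [upd_SI4, update_self, update_idem]
    rw [← a1, ← b1, update_eq_self, update_eq_self, update_eq_self]
  · rintro ⟨E, X⟩ -
    simp only [upd_SI4, update_self, update_idem, update_eq_self]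
  · refine Eqs.of_eq ?_
    rintro ⟨⟨E, X⟩, ρ, y⟩ ⟨⟨a, b, c, -⟩, d⟩
    have a' := se_SI4 hi hR hf hε (z1 a).1 ρ
    have b1 : X r = 0 := z2 b
    simp only [Uf]
    rw [phq_update hF hi (a'.ad k) a' h0 h1 hf.le X b1 y, z3, sum_eq_zero, (hF.lin y).map_zero,
      add_zero]
    · congr 1
      refine sum_congr rfl fun v hv => ?_
      rw [mem_Ico] at hv
      congr 1
      · by_cases w : (v : ZMod s) = r
        · have : pext F s X v = 0 := by rw [pext_of_mem hv.1 hv.2, w, b1]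
          rw [this, hF.c0, mul_zero, mul_zero]
        · rw [ee_SI4 E r ρ fun t => w t.2]
      · refine sum_congr rfl fun u hu => ?_
        rw [ee_SI4 E r ρ fun t => (mem_Ico.1 hu).2.ne t.1]
    · intro u hu
      rw [ee_SI4 E r ρ fun t => (mem_Ico.1 hu).2.ne t.1, (z1 a).2 u (mem_Ico.1 hu).2.le, zero_smul]

theorem Az.uq_1a_end (h : Az k q G) {ι : Type} [Fintype ι] {b : ι → Bool}
    (hi : Is s D R f) (h0 : 0 ≤ r) (h1 : r < s) (hR : R r) (hf : f r = r)
    (hp : GU k G q ε (Bf ε) (Cf ε) (FV q ε b) s D (rmv s R r) f f fun _ => True) :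
    GU k G q ε (Bf ε) (Cf ε) (FV q ε b) s D R f (low s f r)
      fun e => e r r ≠ 0 ∧ ∀ u, u < r → e u r = 0 := by
  by_cases hε : ε = 1
  swap
  · exact h.toAu.gnot fun y a => a.1.2.2.2.1 (a.1.1 r r le_rfl fun c => hε (c.2.2.2 rfl))
  have hF : Fq k q ε (Bf ε : (ι ⊕ ι → Ω) → _) (Cf ε) (FV q ε b) := fq_bf ε b
  refine h.toAu.uq_1a_iso hF hi h0 h1 hR hf hε ?_
  have g0 : Gy k G (Tb q ε (FV q ε b : Equiv.Perm (ι ⊕ ι → Ω)) s D (rmv s R r) f f fun _ => True) :=
    (h.gy_tb hF.toFo (hi.rmv r) (hi.rmv r)).congr fun x => by simp only [Tb, and_true]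
  have g1 := h.toAu.gopn (g := fun y => y.2.1) (by fun_prop) (h.toAu.gline (Ω × (ι → Ω)) g0)
  have g2 := h.toAu.as_opn (g := fun y => y.2) (by fun_prop) (h.toAu.as_line Ω hp)
  have g3 := h.toAu.as_aff (fun _ : ι => True) (D := fun y i => y.2.1 * y.2.2 i)
    (ψ := fun y : (Ecf Ω s D × (ZMod s → ι ⊕ ι → Ω)) × Ω × (ι → Ω) =>
      Uf q ε (Bf ε) (Cf ε) (FV q ε b) s D y.1) (by fun_prop)
    (Pq.comp (g := fun y : _ × Ω × (ι → Ω) => y.1) (pq_uf hF) (by fun_prop)) (fun _ _ _ c => (c trivial).elim) g1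
    (h.toAu.as_iso (fun z => (z.1, z.2, 0)) (fun x => (x.1, x.2.1)) (by fun_prop) (by fun_prop)
      (fun z a => ⟨a, funext fun i => mul_zero _⟩) (fun x a => a.1) (fun _ _ => rfl)
      (fun x a => Prod.ext rfl (Prod.ext rfl (funext fun i =>
        ((mul_eq_zero.1 (congrFun a.2 i)).resolve_left a.1.2).symm)))
      Eqs.refl g2)
  refine h.toAu.as_iso (fun z => (z.1.1, z.1.2.1, Sum.elim z.1.2.2 z.2))
    (fun x => ((x.1, x.2.1, fun i => x.2.2 (.inl i)), fun i => x.2.2 (.inr i))) (by fun_prop)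
    (by fun_prop) (fun z a => a.1) (fun x a => ⟨a, fun _ c => (c trivial).elim⟩) (fun _ _ => rfl)
    (fun x _ => Prod.ext rfl (Prod.ext rfl (funext fun i => by cases i <;> rfl)))
    (Eqs.of_eq fun z _ => ?_) g3
  subst hε
  simp only [Cf, if_true, Sum.elim_inl, Sum.elim_inr, dotProduct, mul_sum]
  congr 1
  exact sum_congr rfl fun i _ => by ring

end Pool.Agent.CXD
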