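import Pool.Agent.P.MP_2ce3e7_ag.TI4
import Pool.Agent.P.MP_2ce3e7_ag.SI5

/-! The induction on the length. -/

set_option linter.unusedSectionVars false
set_option linter.unusedVariables false

open Function Matrix

noncomputable section

namespace Pool.Agent.CXD
open Finset

variable {k Ω : Type} [Field k] [Field Ω] [Algebra k Ω] {q : ℕ} {ε : ℤˣ} {s D : ℕ} [NeZero s]
  {R : ℤ → Prop} {f f' f₁ f₂ : ℤ → ℤ} {n : Type} [Fintype n] {G : Gp Ω}
  {B : (n → Ω) → (n → Ω) → Ω} {C : (n → Ω) → Ω} {F : Equiv.Perm (n → Ω)}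
  {Q Q' : (ℤ → ℤ → Ω) → Prop} {r κ : ℤ} {e : ℤ → ℤ → Ω}
  [Sq k q] [IsAlgClosed Ω]

theorem gu_ind (hF : Fq k q ε B C F) (m : ℕ)
    (h1 : ∀ R f (r : ℤ), Is s D R f → 0 ≤ r → r < s → R r → f r = r →
      (∀ G, Az k q G → GU k G q ε B C F s D (rmv s R r) f f fun _ => True) → ∀ G, Az k q G →
      GU k G q ε B C F s D R f (low s f r) fun e => e r r ≠ 0 ∧ ∀ u, u < r → e u r = 0)
    (h3 : ∀ R f g, C3 s D R f g → (bd D R f (-1)).card < m → ∀ G, Az k q G →
      GU k G q ε B C F s D R f (fun u => u - 1) (Piv R f))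
    (hi : Is s D R f) (hc : ∀ w, (clq R f w).ncard ≤ m) (h : Az k q G) :
    GU k G q ε B C F s D R f f fun _ => True := by
  induction hl : len s R f using Nat.strong_induction_on generalizing R f G with
  | _ l ih =>
    subst hl
    have il : ∀ r, R r → r ≤ f r → ∀ G, Az k q G →
        GU k G q ε B C F s D R (low s f r) (low s f r) fun _ => True := fun r hR hr G hG =>
      ih _ (len_low hi hR hr) (hi.low hr) (clq_low_SI5 hi hc r) hG rfl
    have ir : ∀ r, R r → ∀ G, Az k q G →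
        GU k G q ε B C F s D (rmv s R r) f f fun _ => True := fun r hR G hG =>
      ih _ (len_rmv hi hR) (hi.rmv r) (clq_rmv_SI5 hi hc r) hG rfl
    rcases hi.cases with h0 | ⟨r, r0, r1, hR, hf⟩ | ⟨r, hR, hr, h0⟩ | ⟨r, r0, r1, hR, hf⟩ |
      ⟨r, κ, ho, hf, hr⟩ | ⟨⟨u, hu⟩, g, hg⟩
    · exact h.uq_empty hF hi h0
    · exact h.uq_1b hF hi r0 r1 hR hf (ir r hR G h)
    · exact h.toAu.uq_zero hF hi hr h0 (il r hR hr G h)
    · exact h.toAu.uq_1a hF hi r0 r1 hR hf (il r hR hf.ge G h)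
        (h1 R f r hi r0 r1 hR hf (ir r hR) G h)
    · exact h.toAu.uq_two hF hi ho hf hr (il r ho.Rr hr G h)
        (il (r - κ) ho.Ru (by linarith [ho.pos]) G h)
    · refine h.toAu.uq_piv hF hi (fun v hv => (hg.lt v hv).le)
        (fun r hR => il r hR (hg.lt r hR).le G h) (h3 R f g hg ?_ G h)
      have := hc u
      rw [hg.ncard_clq hu] at this
      omega

end Pool.Agent.CXD
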