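import Pool.Agent.P.MP_2ce3e7_ag.UpKub

/-! Systems of relations and statements that hold after raising the level. -/

set_option autoImplicit false

noncomputable section

namespace Pool.Agent.Tate

open Pool.Agent.P.MP_e12fcd_ag.Fermat (bern tors mem_tors)

/-- invariance under all units -/
def Gal {L : ℕ} {Y : Type} (g : ZMod L → Y) : Prop :=
  ∀ (t : (ZMod L)ˣ) (b : ZMod L), g ((t : ZMod L) * b) = g b

/-- balanced families of admissible order are killed -/
def Kb (L : ℕ) {Y : Type} [AddCommGroup Y] (g : ZMod L → Y) : Prop :=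
  ∀ (ι : Type) [Fintype ι] (b : ι → ZMod L), (∀ i, Adm (addOrderOf (b i))) →
    ∑ i, th (b i) = 0 → ∑ i, g (b i) = 0

/-- standard relations, Frobenius relations and modular relations -/
structure Sys (p L : ℕ) [NeZero L] {Y : Type} [AddCommGroup Y] (g : ZMod L → Y) : Prop where
  dist : Dist L g
  inv : ∀ y, g ((p : ZMod L) * y) = g y
  kb : Kb L g

/-- statements that hold for all systems of some higher level -/
def Ev (p M : ℕ) (P : ∀ (Y : Type) [AddCommGroup Y], (ZMod M → Y) → Prop) : Prop :=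
  ∃ (L : ℕ) (_ : NeZero L), M ∣ L ∧ p.Coprime L ∧
    ∀ (Y : Type) [AddCommGroup Y] (g : ZMod L → Y), Sys p L g → P Y fun b => g (lv L b)

/-- the condition on the prime factors of the degree -/
def Qr (M : ℕ) : Prop := ∀ l : ℕ, l.Prime → l ∣ M → l % 4 = 1 →
  ∀ q : ℕ, q.Prime → q ∣ M → q ≠ l → (q = 2 → 4 ∣ M) → IsSquare (q : ZMod l)

/-- the component at `l` has order `l` and its leading digit is not a square -/
def NS {M : ℕ} (l : ℕ) (b : ZMod M) : Prop := ∃ w : ZMod l, ¬ IsSquare w ∧
  ZMod.castHom (Nat.ordProj_dvd M l) (ZMod (l ^ M.factorization l)) b =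
    lv (l ^ M.factorization l) w

/-- units of odd order -/
def Qo (M : ℕ) [NeZero M] : Finset (ZMod M)ˣ := Finset.univ.filter fun t => Odd (orderOf t)

section Res
variable {M L : ℕ} [NeZero M] [NeZero L] (h : M ∣ L) {Y : Type} [AddCommGroup Y]
  {g : ZMod L → Y}
include h

omit [NeZero M] in
theorem addOrderOf_lv (b : ZMod M) : addOrderOf (lv L b) = addOrderOf b := by
  let f : ZMod M →+ ZMod L := AddMonoidHom.mk' (lv L) (lv_add h)
  exact addOrderOf_injective f (lv_inj h) b

theorem Dist.res (hg : Dist L g) : Dist M fun b => g (lv L b) := by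
  refine ⟨fun b => by rw [lv_neg h, hg.neg], fun d hd hdM b => ?_⟩
  simp only [lv_add h]
  rw [sum_tors_lv h hdM fun z => g (lv L b + z), hg.dist d hd (hdM.trans h), natCast_mul_lv h]

omit [NeZero M] in
theorem Kb.res (hg : Kb L g) : Kb M fun b => g (lv L b) := fun ι _ b hb h0 =>
  hg ι (fun i => lv L (b i)) (fun i => by rw [addOrderOf_lv h]; exact hb i) (by
    simp only [← lam_th h]
    rw [← map_sum, h0, map_zero])

omit [AddCommGroup Y] in
theorem Gal.res (hg : Gal g) : Gal fun b : ZMod M => g (lv L b) := fun t b => by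
  obtain ⟨u, rfl⟩ := ZMod.unitsMap_surjective h t
  have := hg u (lv L b)
  rw [mul_lv h] at this
  exact this

theorem Sys.res {p : ℕ} (hg : Sys p L g) : Sys p M fun b => g (lv L b) :=
  ⟨hg.dist.res h, fun y => by rw [← natCast_mul_lv h, hg.inv], hg.kb.res h⟩

end Res

theorem lv_self {L : ℕ} [NeZero L] (b : ZMod L) : lv L b = b := by
  rw [lv, Nat.div_self (NeZero.pos L), one_mul, ZMod.natCast_zmod_val]

theorem Sys.pow {p L : ℕ} [NeZero L] {Y : Type} [AddCommGroup Y] {g : ZMod L → Y}
    (hg : Sys p L g) (s : ℕ) (y : ZMod L) : g ((p : ZMod L) ^ s * y) = g y := by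
  induction s with
  | zero => rw [pow_zero, one_mul]
  | succ s ih => rw [pow_succ', mul_assoc, hg.inv, ih]

section Ev
variable {p M : ℕ} {P Q : ∀ (Y : Type) [AddCommGroup Y], (ZMod M → Y) → Prop}

theorem Ev.mono [NeZero M] (h : Ev p M P) (H : ∀ (Y : Type) [AddCommGroup Y] (g : ZMod M → Y),
    Sys p M g → P Y g → Q Y g) : Ev p M Q := by
  obtain ⟨L, _, h1, h2, h3⟩ := h
  exact ⟨L, _, h1, h2, fun Y _ g hg => H Y _ (hg.res h1) (h3 Y g hg)⟩

theorem Ev.of_sys [NeZero M] (hp : p.Coprime M) (H : ∀ (Y : Type) [AddCommGroup Y]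
    (g : ZMod M → Y), Sys p M g → P Y g) : Ev p M P :=
  ⟨M, inferInstance, dvd_rfl, hp, fun Y _ g hg => H Y _ (hg.res dvd_rfl)⟩

theorem Ev.and (h : Ev p M P) (h' : Ev p M Q) : Ev p M fun Y _ g => P Y g ∧ Q Y g := by
  obtain ⟨L, _, h1, h2, h3⟩ := h
  obtain ⟨L', _, h1', h2', h3'⟩ := h'
  have : NeZero (L * L') := ⟨mul_ne_zero (NeZero.ne L) (NeZero.ne L')⟩
  refine ⟨L * L', inferInstance, h1.mul_right _, h2.mul_right h2', fun Y _ g hg => ⟨?_, ?_⟩⟩
  · simpa only [lv_lv (dvd_mul_right L L') h1] using h3 Y _ (hg.res (dvd_mul_right L L'))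
  · simpa only [lv_lv (dvd_mul_left L' L) h1'] using h3' Y _ (hg.res (dvd_mul_left L' L))

theorem Ev.all [NeZero M] (hp : p.Coprime M) {κ : Type} [Finite κ]
    {R : κ → ∀ (Y : Type) [AddCommGroup Y], (ZMod M → Y) → Prop} (h : ∀ j, Ev p M (R j)) :
    Ev p M fun Y _ g => ∀ j, R j Y g := by
  classical
  have := Fintype.ofFinite κ
  have key : ∀ s : Finset κ, Ev p M fun Y _ g => ∀ j ∈ s, R j Y g := fun s => by
    induction s using Finset.induction_on with
    | empty => exact Ev.of_sys hp fun _ _ _ _ j hj => absurd hj (Finset.notMem_empty j)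
    | insert a s _ ih =>
      exact ((h a).and ih).mono fun Y _ g _ H => Finset.forall_mem_insert _ _ _ |>.2 H
  exact (key Finset.univ).mono fun Y _ g _ H j => H j (Finset.mem_univ j)

/-- a statement about the restriction from a higher level -/
theorem Ev.up {M' : ℕ} (hM : M ∣ M') (h : Ev p M' fun Y _ g => P Y fun b => g (lv M' b)) :
    Ev p M P := by
  obtain ⟨L, _, h1, h2, h3⟩ := h
  exact ⟨L, inferInstance, hM.trans h1, h2, fun Y _ g hg => by
    simpa only [lv_lv h1 hM] using h3 Y g hg⟩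

end Ev

/-- balanced families are killed by two in every odd distribution -/
theorem Dist.two_bal {M : ℕ} [NeZero M] {ι : Type} [Fintype ι] {b : ι → ZMod M}
    (h : ∑ i, th (b i) = 0) {Y : Type} [AddCommGroup Y] {W : ZMod M → Y} (hW : Dist M W) :
    2 • ∑ i, W (b i) = 0 := by
  have := e_zero (b := b) (κ := 0) (W := W) (by simp only [zero_mul, th_zero,
    Finset.sum_const_zero, add_zero, h]) hW.dist
  simp only [zero_mul, neg_zero, add_sub_cancel_right, hW.neg, sub_neg_eq_add,
    Finset.sum_add_distrib] at this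
  rwa [two_nsmul]

/-- balanced families are fixed by the sign change in every ordinary distribution -/
theorem ODist.bal {M : ℕ} [NeZero M] {ι : Type} [Fintype ι] {b : ι → ZMod M}
    (h : ∑ i, th (b i) = 0) {Y : Type} [AddCommGroup Y] {W : ZMod M → Y} (hW : ODist M W) :
    ∑ i, (W (b i) - W (-b i)) = 0 := by
  have := e_zero (b := b) (κ := 0) (W := W) (by simp only [zero_mul, th_zero,
    Finset.sum_const_zero, add_zero, h]) hW
  simpa only [zero_mul, neg_zero, add_sub_cancel_right] using this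

theorem Gal.two {M : ℕ} [NeZero M] {Y : Type} [AddCommGroup Y] {G : ZMod M → Y} (h : Gal G)
    (hG : Dist M G) (b : ZMod M) : 2 • G b = 0 := by
  have := h (-1) b
  rw [Units.val_neg, Units.val_one, neg_one_mul, hG.neg] at this
  rw [two_nsmul]
  exact neg_eq_iff_add_eq_zero.1 this

/-- integral combinations are sums over families -/
theorem exists_fam {M : ℕ} [NeZero M] (η : ZMod M → ℤ) : ∃ (ι : Type) (_ : Fintype ι)
    (c : ι → ZMod M), ∀ (Y : Type) [AddCommGroup Y] (W : ZMod M → Y), (∀ b, W (-b) = -W b) →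
      ∑ b, η b • W b = ∑ j, W (c j) := by
  refine ⟨Σ b : ZMod M, Fin (η b).natAbs, inferInstance,
    fun j => if 0 ≤ η j.1 then j.1 else -j.1, fun Y _ W hW => ?_⟩
  rw [Fintype.sum_sigma]
  refine Finset.sum_congr rfl fun b _ => ?_
  simp only [Finset.sum_const, Finset.card_univ, Fintype.card_fin]
  split_ifs with h
  · rw [← natCast_zsmul, Int.natAbs_of_nonneg h]
  · rw [hW, ← natCast_zsmul, Int.ofNat_natAbs_of_nonpos (not_le.1 h).le, neg_smul, smul_neg,
      neg_neg]

end Pool.Agent.Tate
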