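import Pool.Agent.P.MP_2ce3e7_ag.UpDefs

/-! Bernoulli vectors, types and distributions. -/

set_option autoImplicit false
set_option linter.unusedSectionVars false

noncomputable section

namespace Pool.Agent.Tate

open Pool.Agent.P.MP_e12fcd_ag.Fermat (bern tors bern_neg bern_distrib sum_tors_unit
  sum_tors_shift mem_tors)

variable {L : ℕ} [NeZero L]

theorem lam_refl (y : (ZMod L)ˣ → ℤ) : lam (dvd_refl L) y = y := by
  ext t
  have h1 : ZMod.unitsMap (dvd_refl L) t = t := by
    ext
    simp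
  change ((L / L : ℕ) : ℤ) * y (ZMod.unitsMap (dvd_refl L) t) = y t
  rw [h1, Nat.div_self (NeZero.pos L), Nat.cast_one, one_mul]

theorem th_zero : th (0 : ZMod L) = 0 := by
  ext t
  simp [th, bern]

theorem th_neg (b : ZMod L) : th (-b) = -th b := by
  ext t
  simp only [th, mul_neg, Pi.neg_apply, bern_neg]

theorem UpTh_bern_all {d : ℕ} (hd : d ∣ L) (y : ZMod L) :
    ∑ z ∈ tors L d, bern (y + z) = bern ((d : ZMod L) * y) := by
  by_cases hy : (d : ZMod L) * y = 0
  · have h1 := sum_tors_shift (p := d) (bern : ZMod L → ℤ) 0 y (mem_tors.2 hy)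
    have h2 := sum_tors_unit (p := d) (bern : ZMod L → ℤ) (-1)
    simp only [zero_add] at h1
    simp only [Units.val_neg, Units.val_one, neg_mul, one_mul, bern_neg,
      Finset.sum_neg_distrib] at h2
    rw [h1, hy]
    have h3 : bern (0 : ZMod L) = 0 := by simp [bern]
    omega
  · exact bern_distrib hd y hy

theorem dist_th : Dist L (th : ZMod L → (ZMod L)ˣ → ℤ) := by
  refine ⟨th_neg, fun d _ hd b => ?_⟩
  ext t
  rw [Finset.sum_apply]
  simp only [th, mul_add]
  rw [sum_tors_unit (fun z => bern ((t : ZMod L) * b + z)) t, UpTh_bern_all hd, mul_left_comm]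

theorem th_one (b : ZMod L) : ((th b 1 : ℤ) : ZMod L) = 2 * b := by
  by_cases h : b = 0
  · simp [th, bern, h]
  · simp [th, bern, h]

theorem ty_neg (c : Ch L) : ty (-c) = -ty c := by
  simp only [ty, Prod.fst_neg, Prod.snd_neg, ← neg_add, th_neg]
  abel

theorem ty_eq_sum (c : Ch L) : ty c = ∑ j, th (ex3 c j) := by
  have h : -c.1 - c.2 = -(c.1 + c.2) := by ring
  simp only [ty, ex3, Fin.sum_univ_three, Matrix.cons_val_zero, Matrix.cons_val_one,
    Matrix.cons_val_two, Matrix.head_cons, Matrix.tail_cons, h, th_neg, sub_eq_add_neg]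

omit [NeZero L] in
theorem ex3_smul (u : ZMod L) (c : Ch L) (j : Fin 3) : ex3 (u • c) j = u * ex3 c j := by
  fin_cases j
  · simp [ex3]
  · simp [ex3]
  · simp [ex3, mul_sub]

omit [NeZero L] in
theorem sum_ex3 (c : Ch L) : ∑ j, ex3 c j = 0 := by
  simp [ex3, Fin.sum_univ_three]

omit [NeZero L] in
theorem Nd.smul {c : Ch L} (hc : Nd c) {u : ZMod L} (hu : IsUnit u) : Nd (u • c) := by
  refine ⟨fun h => hc.1 ?_, fun h => hc.2.1 ?_, fun h => hc.2.2 ?_⟩
  · exact (hu.mul_right_eq_zero).1 h
  · exact (hu.mul_right_eq_zero).1 h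
  · refine (hu.mul_right_eq_zero).1 ?_
    rw [mul_add]
    exact h

theorem ty_apply {c : Ch L} (hc : Nd c) (t : (ZMod L)ˣ) : ty c t =
    if ((t : ZMod L) * c.1).val + ((t : ZMod L) * c.2).val < L then -(L : ℤ) else L := by
  have h1 : (t : ZMod L) * c.1 ≠ 0 := fun h => hc.1 ((Units.mul_right_eq_zero t).1 h)
  have h2 : (t : ZMod L) * c.2 ≠ 0 := fun h => hc.2.1 ((Units.mul_right_eq_zero t).1 h)
  have h3 : (t : ZMod L) * c.1 + (t : ZMod L) * c.2 ≠ 0 := fun h =>
    hc.2.2 ((Units.mul_right_eq_zero t).1 (by rw [mul_add]; exact h))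
  simp only [ty, th, Pi.add_apply, Pi.sub_apply, mul_add, bern, if_neg h1, if_neg h2, if_neg h3]
  split_ifs with h
  · rw [ZMod.val_add_of_lt h]
    push_cast
    ring
  · have h' := not_lt.1 h
    rw [ZMod.val_add_of_le h', Nat.cast_sub h']
    push_cast
    ring

theorem bal_of_ty {ι : Type} [Fintype ι] {a : ι → Ch L} (ha : ∀ i, Nd (a i))
    (h : ∑ i, ty (a i) = 0) : Bal a := by
  intro t ht
  have h1 := congrFun h (ZMod.unitOfCoprime t ht)
  rw [Finset.sum_apply, Pi.zero_apply] at h1
  have h0 : ∀ i, ty (a i) (ZMod.unitOfCoprime t ht) =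
      if ((t : ZMod L) * (a i).1).val + ((t : ZMod L) * (a i).2).val < L then -(L : ℤ) else L :=
    fun i => ty_apply (ha i) _
  rw [Finset.sum_congr rfl fun i _ => h0 i, Finset.sum_ite, Finset.sum_const,
    Finset.sum_const] at h1
  have h2 := Finset.card_filter_add_card_filter_not (s := (Finset.univ : Finset ι)) (fun i =>
    ((t : ZMod L) * (a i).1).val + ((t : ZMod L) * (a i).2).val < L)
  rw [Finset.card_univ] at h2
  rw [← h2]
  simp only [nsmul_eq_mul] at h1
  have hL : (L : ℤ) ≠ 0 := Nat.cast_ne_zero.2 (NeZero.ne L)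
  generalize (Finset.univ.filter fun i =>
    ((t : ZMod L) * (a i).1).val + ((t : ZMod L) * (a i).2).val < L).card = A at h1 ⊢
  generalize (Finset.univ.filter fun i =>
    ¬ ((t : ZMod L) * (a i).1).val + ((t : ZMod L) * (a i).2).val < L).card = B at h1 ⊢
  have h3 : (L : ℤ) * ((B : ℤ) - A) = 0 := by linear_combination h1
  have h4 : (B : ℤ) - A = 0 := (mul_eq_zero.1 h3).resolve_left hL
  omega

section Dist
variable {Y : Type} [AddCommGroup Y] {g : ZMod L → Y}

theorem Dist.map (hg : Dist L g) {Y' : Type} [AddCommGroup Y'] (π : Y →+ Y') :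
    Dist L fun b => π (g b) := by
  refine ⟨fun b => by rw [hg.neg, map_neg], fun d hd hdL b => ?_⟩
  rw [← map_sum, hg.dist d hd hdL]

theorem Dist.sub (hg : Dist L g) {g' : ZMod L → Y} (hg' : Dist L g') :
    Dist L fun b => g b - g' b := by
  refine ⟨fun b => by rw [hg.neg, hg'.neg]; abel, fun d hd hdL b => ?_⟩
  rw [Finset.sum_sub_distrib, hg.dist d hd hdL, hg'.dist d hd hdL]

theorem Dist.twist (hg : Dist L g) {u : ZMod L} (hu : IsUnit u) : Dist L fun b => g (u * b) := by
  obtain ⟨t, rfl⟩ := hu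
  refine ⟨fun b => by rw [mul_neg, hg.neg], fun d hd hdL b => ?_⟩
  simp only [mul_add]
  rw [sum_tors_unit (fun z => g ((t : ZMod L) * b + z)) t, hg.dist d hd hdL, mul_left_comm]

/-- the relation for all divisors -/
theorem Dist.all (hg : Dist L g) {d : ℕ} (hd : d ∣ L) (b : ZMod L) :
    ∑ z ∈ tors L d, g (b + z) = g ((d : ZMod L) * b) := by
  induction d using induction_on_primes generalizing b with
  | zero => exact absurd (Nat.eq_zero_of_zero_dvd hd) (NeZero.ne L)
  | one =>
    have h1 : tors L 1 = {0} := by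
      ext z
      simp [mem_tors]
    rw [h1, Finset.sum_singleton, add_zero, Nat.cast_one, one_mul]
  | prime_mul l d hl ih =>
    have hd' : d ∣ L := (dvd_mul_left d l).trans hd
    have hl' : l ∣ L := (dvd_mul_right l d).trans hd
    have hmap : ∀ z ∈ tors L (l * d), (l : ZMod L) * z ∈ tors L d := by
      intro z hz
      rw [mem_tors] at hz ⊢
      rw [← hz]
      push_cast
      ring
    rw [← Finset.sum_fiberwise_of_maps_to hmap, Nat.cast_mul, mul_comm (l : ZMod L), mul_assoc,
      ← ih hd']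
    refine Finset.sum_congr rfl fun w hw => ?_
    obtain ⟨z0, rfl⟩ : ∃ z0 : ZMod L, (l : ZMod L) * z0 = w := by
      obtain ⟨c, rfl⟩ := exists_lv hd' (mem_tors.1 hw)
      refine ⟨((L / (l * d) * c.val : ℕ) : ZMod L), ?_⟩
      obtain ⟨e, he⟩ := hd
      have hd0 : 0 < d := Nat.pos_of_dvd_of_pos hd' (NeZero.pos L)
      have e1 : L / (l * d) = e := by
        rw [he, Nat.mul_div_cancel_left _ (Nat.mul_pos hl.pos hd0)]
      have e2 : L / d = l * e := by
        rw [he, mul_comm l d, mul_assoc, Nat.mul_div_cancel_left _ hd0]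
      rw [lv, e1, e2]
      push_cast
      ring
    rw [← mul_add, ← hg.dist l hl hl']
    rw [mem_tors] at hw
    refine Finset.sum_bij' (fun z _ => z - z0) (fun y _ => y + z0) ?_ ?_ ?_ ?_ ?_
    · intro z hz
      rw [mem_tors, mul_sub, (Finset.mem_filter.1 hz).2, sub_self]
    · intro y hy
      rw [mem_tors] at hy
      rw [Finset.mem_filter, mem_tors]
      constructor
      · push_cast
        linear_combination (d : ZMod L) * hy + hw
      · rw [mul_add, hy, zero_add]
    · intro z _
      simp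
    · intro y _
      simp
    · intro z _
      congr 1
      ring

end Dist

end Pool.Agent.Tate
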