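import Pool.Agent.P.MP_2ce3e7_ag.UpOrb
import Pool.Agent.P.MP_2ce3e7_ag.UpTh

/-! Division of a norm: the tower of a prime that divides the level. -/

set_option autoImplicit false

noncomputable section

namespace Pool.Agent.Tate

open Pool.Agent.P.MP_e12fcd_ag.Fermat (bern tors mem_tors card_tors)

theorem upCaseB_val {a L : ℕ} [NeZero L] (h : a ∣ L) (x : ZMod L) :
    ZMod.castHom h (ZMod a) x = (x.val : ZMod a) := by
  rw [ZMod.castHom_apply, ZMod.natCast_val]

theorem upCaseB_zero {a L : ℕ} [NeZero L] (h : a ∣ L) (x : ZMod L) :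
    ZMod.castHom h (ZMod a) x = 0 ↔ a ∣ x.val := by
  rw [upCaseB_val, ZMod.natCast_eq_zero_iff]

theorem upCaseB_mul_zero {L : ℕ} [NeZero L] (e : ℕ) (x : ZMod L) :
    (e : ZMod L) * x = 0 ↔ L ∣ e * x.val := by
  rw [← ZMod.natCast_eq_zero_iff, Nat.cast_mul, ZMod.natCast_zmod_val]

theorem upCaseB_tors {a e L : ℕ} [NeZero L] (h : a ∣ L) (hL : L = a * e) (z : ZMod L) :
    z ∈ tors L e ↔ ZMod.castHom h (ZMod a) z = 0 := by
  have he : 0 < e := Nat.pos_of_ne_zero fun h0 => NeZero.ne L (by rw [hL, h0, mul_zero])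
  rw [mem_tors, upCaseB_zero, upCaseB_mul_zero]
  generalize z.val = v
  rw [hL, mul_comm e v]
  exact Nat.mul_dvd_mul_iff_right he

theorem upCaseB_fib {a e L : ℕ} [NeZero L] (h : a ∣ L) (hL : L = a * e) {Y : Type}
    [AddCommMonoid Y] (f : ZMod L → Y) (x0 : ZMod L) :
    ∑ x ∈ Finset.univ.filter
      (fun x => ZMod.castHom h (ZMod a) x = ZMod.castHom h (ZMod a) x0), f x =
      ∑ z ∈ tors L e, f (x0 + z) := by
  refine (Finset.sum_equiv (Equiv.addLeft x0) (fun z => ?_) fun z _ => rfl).symm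
  rw [upCaseB_tors h hL]
  simp only [Finset.mem_filter, Finset.mem_univ, true_and, Equiv.coe_addLeft, map_add,
    add_eq_left]

theorem upCaseB_mulfib {L : ℕ} [NeZero L] (d : ℕ) {Y : Type}
    [AddCommMonoid Y] (f : ZMod L → Y) (x0 : ZMod L) :
    ∑ x ∈ Finset.univ.filter (fun x => (d : ZMod L) * x = d * x0), f x =
      ∑ z ∈ tors L d, f (x0 + z) := by
  refine (Finset.sum_equiv (Equiv.addLeft x0) (fun z => ?_) fun z _ => rfl).symm
  rw [mem_tors]
  simp only [Finset.mem_filter, Finset.mem_univ, true_and, Equiv.coe_addLeft, mul_add,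
    add_eq_left]

/-- torsion points of order prime to the index are not changed by the projection -/
theorem upCaseB_bij {a e L d : ℕ} [NeZero L] [NeZero a] (h : a ∣ L) (hL : L = a * e)
    (hd : d ∣ a) (hc : d.Coprime e) {Y : Type} [AddCommMonoid Y] (f : ZMod a → Y) :
    ∑ z ∈ tors a d, f z = ∑ z ∈ tors L d, f (ZMod.castHom h (ZMod a) z) := by
  classical
  have hinj : Set.InjOn (ZMod.castHom h (ZMod a)) (tors L d : Set (ZMod L)) := by
    intro z hz w hw hzw
    have h1 : (d : ZMod L) * (z - w) = 0 := by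
      rw [mul_sub, mem_tors.1 hz, mem_tors.1 hw, sub_zero]
    have h2 : (e : ZMod L) * (z - w) = 0 :=
      mem_tors.1 ((upCaseB_tors h hL _).2 (by rw [map_sub, hzw, sub_self]))
    obtain ⟨u, v, huv⟩ := (Nat.isCoprime_iff_coprime.2 hc).map (Int.castRingHom (ZMod L))
    simp only [map_natCast] at huv
    have h3 : z - w = 0 := by
      linear_combination u * h1 + v * h2 - (z - w) * huv
    exact sub_eq_zero.1 h3
  have himg : (tors L d).image (ZMod.castHom h (ZMod a)) = tors a d := by
    refine Finset.eq_of_subset_of_card_le (fun y hy => ?_) ?_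
    · obtain ⟨z, hz, rfl⟩ := Finset.mem_image.1 hy
      rw [mem_tors, ← map_natCast (ZMod.castHom h (ZMod a)), ← map_mul, mem_tors.1 hz, map_zero]
    · rw [Finset.card_image_of_injOn hinj, card_tors hd, card_tors (hd.trans h)]
  rw [← himg, Finset.sum_image hinj]

/-- sums over a level set after multiplication by a unit -/
theorem upCaseB_unit {M K : ℕ} [NeZero K] (h : M ∣ K) {Y : Type} [AddCommGroup Y]
    (G : ZMod K → Y) (σ : Y →+ Y) {u : ZMod K} (hu : IsUnit u) (hG : ∀ y, G (u * y) = σ (G y))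
    (t b : ZMod M) :
    ∑ y ∈ Finset.univ.filter (fun y => t * ZMod.castHom h (ZMod M) y =
        ZMod.castHom h (ZMod M) u * b), G y =
      σ (∑ y ∈ Finset.univ.filter (fun y => t * ZMod.castHom h (ZMod M) y = b), G y) := by
  obtain ⟨v, rfl⟩ := hu
  rw [map_sum]
  refine (Finset.sum_equiv v.mulLeft (fun y => ?_) fun y _ => (hG y).symm).symm
  have hv : IsUnit (ZMod.castHom h (ZMod M) v) := v.isUnit.map _
  simp only [Finset.mem_filter, Finset.mem_univ, true_and, Units.mulLeft_apply, map_mul]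
  rw [mul_left_comm, hv.mul_right_inj]

/-- the relation for the sums over the fibres -/
theorem upCaseB_push {M K d : ℕ} [NeZero M] [NeZero K] (h : M ∣ K) {Y : Type}
    [AddCommGroup Y] (G : ZMod K → Y) (b : ZMod M) :
    ∑ z ∈ tors M d, ∑ y ∈ Finset.univ.filter (fun y => ZMod.castHom h (ZMod M) y = b + z), G y =
      ∑ y ∈ Finset.univ.filter
        (fun y => (d : ZMod M) * ZMod.castHom h (ZMod M) y = d * b), G y := by
  classical
  rw [← upCaseB_mulfib d (fun x =>
    ∑ y ∈ Finset.univ.filter (fun y => ZMod.castHom h (ZMod M) y = x), G y) b,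
    ← Finset.sum_fiberwise_of_maps_to
      (s := Finset.univ.filter (fun y => (d : ZMod M) * ZMod.castHom h (ZMod M) y = d * b))
      (t := Finset.univ.filter (fun x : ZMod M => (d : ZMod M) * x = d * b))
      (g := ZMod.castHom h (ZMod M)) (fun y hy => by simpa using hy)]
  refine Finset.sum_congr rfl fun x hx => Finset.sum_congr ?_ fun _ _ => rfl
  ext y
  have hx := (Finset.mem_filter.1 hx).2
  simp only [Finset.mem_filter, Finset.mem_univ, true_and]
  exact ⟨fun e => ⟨by rw [e, hx], e⟩, fun e => e.2⟩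

theorem upCaseB_push2 {M K d : ℕ} [NeZero M] [NeZero K] (h : M ∣ K) (hd : d ∣ M) {Y : Type}
    [AddCommGroup Y] (G : ZMod K → Y) (b : ZMod M)
    (hG : ∀ y, (d : ZMod M) * ZMod.castHom h (ZMod M) y = d * b →
      ∑ z ∈ tors K d, G (y + z) = G (d * y)) :
    ∑ y ∈ Finset.univ.filter
        (fun y => (d : ZMod M) * ZMod.castHom h (ZMod M) y = d * b), G y =
      ∑ y ∈ Finset.univ.filter (fun y => ZMod.castHom h (ZMod M) y = d * b), G y := by
  classical
  rw [← Finset.sum_fiberwise_of_maps_to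
      (s := Finset.univ.filter (fun y => (d : ZMod M) * ZMod.castHom h (ZMod M) y = d * b))
      (t := Finset.univ.filter (fun y : ZMod K => ZMod.castHom h (ZMod M) y = d * b))
      (g := fun y => (d : ZMod K) * y) (fun y hy => by
        have := (Finset.mem_filter.1 hy).2
        simp only [Finset.mem_filter, Finset.mem_univ, true_and, map_mul, map_natCast, this])]
  refine Finset.sum_congr rfl fun w hw => ?_
  have hw := (Finset.mem_filter.1 hw).2
  obtain ⟨y0, rfl⟩ : ∃ y0 : ZMod K, w = d * y0 := by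
    obtain ⟨b', rfl⟩ := ZMod.castHom_surjective h b
    have h1 : ZMod.castHom h (ZMod M) (w - d * b') = 0 := by
      rw [map_sub, map_mul, map_natCast, hw, sub_self]
    obtain ⟨t, ht⟩ := hd.trans ((upCaseB_zero h _).1 h1)
    refine ⟨b' + t, ?_⟩
    have h2 : w - d * b' = (d : ZMod K) * (t : ZMod K) := by
      rw [← ZMod.natCast_zmod_val (w - (d : ZMod K) * b'), ht, Nat.cast_mul]
    linear_combination h2
  rw [map_mul, map_natCast] at hw
  rw [← hG y0 hw, ← upCaseB_mulfib]
  refine Finset.sum_congr ?_ fun _ _ => rfl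
  ext y
  simp only [Finset.mem_filter, Finset.mem_univ, true_and]
  refine ⟨fun e => e.2, fun e => ⟨?_, e⟩⟩
  rw [← hw, ← map_natCast (ZMod.castHom h (ZMod M)), ← map_mul, ← map_mul, e]

theorem caseB {N M r A i c L p κ : ℕ} [NeZero M] [NeZero L] (hr : r.Prime) (hN : ¬ r ∣ N)
    (hM : M = N * r ^ (A + 1)) (hL : L = N * r ^ (A + 1 + i + c)) (hp : p.Coprime L)
    (horb : ∀ u : ℕ, u ≡ 1 [MOD N * r ^ i] → ∃ s : ℕ, p ^ s ≡ u [MOD L])
    (hκ1 : κ ≡ 1 [MOD N]) (hκ2 : r ^ (A + 1 + i + c) ∣ κ + 1) {Y : Type} [AddCommGroup Y]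
    {g : ZMod L → Y} (hg : Dist L g) (hpg : ∀ y, g ((p : ZMod L) * y) = g y)
    (hκ : ∀ y, g ((κ : ZMod L) * y) = -g y) :
    ∃ W : ZMod M → Y, Dist M W ∧ (∀ b, W ((p : ZMod M) * b) = W b) ∧
      ∀ b : ZMod M, 2 • g (lv L b) = r ^ c • W b := by
  classical
  obtain ⟨K, hK⟩ : ∃ K, K = N * r ^ (A + i) * r := ⟨_, rfl⟩
  have hLK : L = K * r ^ c := by rw [hL, hK]; ring
  have hKM : K = M * r ^ i := by rw [hK, hM]; ring
  have hLM : L = M * r ^ (i + c) := by rw [hL, hM]; ring
  haveI : NeZero K := ⟨fun h0 => NeZero.ne L (by rw [hLK, h0, zero_mul])⟩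
  have h1 : K ∣ L := ⟨_, hLK⟩
  have h2 : M ∣ K := ⟨_, hKM⟩
  have h3 : r ^ (A + 1) ∣ M := ⟨N, by rw [hM, mul_comm]⟩
  have h4 : M ∣ L := h2.trans h1
  let π1 := ZMod.castHom h1 (ZMod K)
  let π2 := ZMod.castHom h2 (ZMod M)
  let ρ := ZMod.castHom h3 (ZMod (r ^ (A + 1)))
  have e12 : ∀ x, π2 (π1 x) = ZMod.castHom h4 (ZMod M) x := fun x =>
    RingHom.congr_fun (ZMod.castHom_comp h2 h1) x
  have e123 : ∀ x, ρ (π2 (π1 x)) = 0 ↔ r ^ (A + 1) ∣ x.val := by
    intro x
    rw [e12, ← upCaseB_zero (h3.trans h4)]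
    exact Eq.congr_left (RingHom.congr_fun (ZMod.castHom_comp h3 h4) x)
  have hper : ∀ x z : ZMod L, ρ (π2 (π1 x)) ≠ 0 → (r : ZMod K) * π1 z = 0 →
      g (x + z) = g x := by
    intro x z hx hz
    have h5 : N * r ^ (A + i) ∣ z.val := by
      rw [upCaseB_val, ← Nat.cast_mul, ZMod.natCast_eq_zero_iff, hK, mul_comm r] at hz
      exact (Nat.mul_dvd_mul_iff_right hr.pos).1 hz
    have h6 := orb_periodic (A := A) hr hN hL horb hpg (y := x.val) (y' := x.val + z.val)
      (fun e => hx ((e123 x).2 e))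
      ((Nat.modEq_iff_dvd' (Nat.le_add_right _ _)).2 (by rwa [Nat.add_sub_cancel_left]))
    rw [Nat.cast_add, ZMod.natCast_zmod_val, ZMod.natCast_zmod_val] at h6
    exact h6.symm
  let G : ZMod K → Y := fun y => if ρ (π2 y) = 0 then 0 else g (y.val : ZMod L)
  have hG0 : ∀ y, ρ (π2 y) = 0 → G y = 0 := fun y hy => if_pos hy
  have hG1 : ∀ x, ρ (π2 (π1 x)) ≠ 0 → G (π1 x) = g x := by
    intro x hx
    have h5 := hper x (((π1 x).val : ZMod L) - x) hx (by
      rw [map_sub, map_natCast, ZMod.natCast_zmod_val, sub_self, mul_zero])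
    rw [add_sub_cancel] at h5
    exact (if_neg hx).trans h5
  have hGu : ∀ (u : ZMod L) (σ : Y →+ Y), IsUnit u → (∀ x, g (u * x) = σ (g x)) →
      ∀ y, G (π1 u * y) = σ (G y) := by
    intro u σ hu hσ y
    obtain ⟨x, rfl⟩ := ZMod.castHom_surjective h1 y
    have hv : IsUnit (ρ (π2 (π1 u))) := ((hu.map π1).map π2).map ρ
    by_cases hx : ρ (π2 (π1 x)) = 0
    · rw [hG0 _ hx, hG0 _ (by rw [map_mul, map_mul, hx, mul_zero]), map_zero]
    · have h5 : ρ (π2 (π1 (u * x))) ≠ 0 := by
        rw [map_mul, map_mul, map_mul, Ne, hv.mul_right_eq_zero]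
        exact hx
      have h6 := hG1 _ h5
      rw [map_mul] at h6
      rw [h6, hG1 x hx, hσ]
  have hκu : IsUnit (κ : ZMod L) := by
    rw [ZMod.isUnit_iff_coprime, hL]
    refine Nat.Coprime.mul_right ?_ (Nat.Coprime.coprime_dvd_right hκ2 (by simp))
    rw [Nat.Coprime, hκ1.gcd_eq, Nat.gcd_one_left]
  have hκfix : ∀ x : ZMod M, ρ x = 0 → (κ : ZMod M) * x = x := by
    intro x hx
    obtain ⟨t, ht⟩ := (upCaseB_zero h3 x).1 hx
    rw [← ZMod.natCast_zmod_val x, ht, ← Nat.cast_mul, ZMod.natCast_eq_natCast_iff, hM]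
    have h5 := (hκ1.mul_right' (r ^ (A + 1))).mul_right t
    rwa [one_mul, mul_assoc κ] at h5
  let S : ZMod M → Y := fun b => ∑ y ∈ Finset.univ.filter (fun y => π2 y = b), G y
  have hSu : ∀ (u : ZMod L) (σ : Y →+ Y), IsUnit u → (∀ x, g (u * x) = σ (g x)) →
      ∀ b, S (π2 (π1 u) * b) = σ (S b) := by
    intro u σ hu hσ b
    have h5 := upCaseB_unit h2 G σ (hu.map π1) (hGu u σ hu hσ) 1 b
    simp only [one_mul] at h5
    exact h5
  have hS0 : ∀ b, ρ b = 0 → S b = 0 := fun b hb =>
    Finset.sum_eq_zero fun y hy => hG0 y (by rw [(Finset.mem_filter.1 hy).2, hb])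
  refine ⟨fun b => 2 • S b, ⟨fun b => ?_, fun d hd hdM b => ?_⟩, fun b => ?_, fun b => ?_⟩
  · have h5 := hSu (-1) (negAddMonoidHom) isUnit_one.neg
      (fun x => by rw [neg_one_mul, hg.neg]; rfl) b
    rw [map_neg, map_neg, map_one, map_one, neg_one_mul] at h5
    rw [h5, ← smul_neg]
    rfl
  · rw [← Finset.smul_sum]
    have h5 := upCaseB_push (d := d) h2 G b
    have h6 : ∑ z ∈ tors M d, S (b + z) = _ := h5
    rw [h6]
    by_cases hdr : d = r
    · subst hdr
      by_cases hb : ρ ((d : ZMod M) * b) = 0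
      · rw [hS0 _ hb, smul_zero]
        have h7 := upCaseB_unit h2 G (negAddMonoidHom) (hκu.map π1)
          (hGu κ _ hκu fun x => by rw [hκ]; rfl) d (d * b)
        rw [map_natCast, map_natCast, hκfix _ hb] at h7
        rw [two_smul]
        exact add_eq_zero_iff_eq_neg.2 h7
      · congr 1
        refine upCaseB_push2 h2 hdM G b fun y hy => ?_
        obtain ⟨x, rfl⟩ := ZMod.castHom_surjective h1 y
        have hy' : (d : ZMod M) * π2 (π1 x) = d * b := hy
        have h7 : ∀ z : ZMod L, (d : ZMod K) * π1 z = 0 → ρ (π2 (π1 (x + z))) ≠ 0 := by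
          intro z hz e
          apply hb
          have h8 : (d : ZMod M) * π2 (π1 z) = 0 := by
            rw [← map_natCast π2, ← map_mul, hz, map_zero]
          have h9 : (d : ZMod M) * b = d * π2 (π1 (x + z)) := by
            rw [map_add, map_add, mul_add, h8, add_zero, hy']
          rw [h9, map_mul, e, mul_zero]
        have hx : ρ (π2 (π1 x)) ≠ 0 := by
          have := h7 0 (by rw [map_zero, mul_zero])
          rwa [add_zero] at this
        have h8 : G ((d : ZMod K) * π1 x) = g (d * x) := by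
          have h9 := hG1 (d * x) (by
            rw [map_mul, map_mul, map_natCast, map_natCast, hy']; exact hb)
          rwa [map_mul, map_natCast] at h9
        have h9 : ∑ z ∈ tors L d, g (x + z) = d • g x := by
          rw [Finset.sum_congr rfl fun z hz => hper x z hx (by
            rw [← map_natCast π1, ← map_mul, mem_tors.1 hz, map_zero]),
            Finset.sum_const, card_tors (hdM.trans h4)]
        have h10 : ∑ z ∈ tors K d, G (π1 x + z) = d • g x := by
          rw [← card_tors (m := K) (hdM.trans h2), ← Finset.sum_const, card_tors (hdM.trans h2)]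
          refine Finset.sum_congr rfl fun z hz => ?_
          obtain ⟨z, rfl⟩ := ZMod.castHom_surjective h1 z
          have hz' : (d : ZMod K) * π1 z = 0 := mem_tors.1 hz
          have h11 := hG1 _ (h7 z hz')
          rw [map_add] at h11
          exact h11.trans (hper x z hx hz')
        exact h10.trans (h9.symm.trans ((hg.dist d hd (hdM.trans h4) x).trans h8.symm))
    · congr 1
      have hc : d.Coprime r := (Nat.coprime_primes hd hr).2 hdr
      have hdu : IsUnit (d : ZMod (r ^ (A + 1))) :=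
        (ZMod.isUnit_iff_coprime _ _).2 (hc.pow_right _)
      refine upCaseB_push2 h2 hdM G b fun y _ => ?_
      obtain ⟨x, rfl⟩ := ZMod.castHom_surjective h1 y
      rw [upCaseB_bij h1 hLK (hdM.trans h2) (hc.pow_right c)]
      have h7 : ∀ z ∈ tors L d, ρ (π2 (π1 (x + z))) = ρ (π2 (π1 x)) := by
        intro z hz
        have h8 : (d : ZMod (r ^ (A + 1))) * ρ (π2 (π1 z)) = 0 := by
          rw [← map_natCast ρ, ← map_natCast π2, ← map_natCast π1, ← map_mul, ← map_mul,
            ← map_mul, mem_tors.1 hz, map_zero, map_zero, map_zero]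
        rw [map_add, map_add, map_add, hdu.mul_right_eq_zero.1 h8, add_zero]
      have h8 : ρ (π2 (π1 (d * x))) = d * ρ (π2 (π1 x)) := by
        rw [map_mul, map_mul, map_mul, map_natCast, map_natCast, map_natCast]
      have h9 : (d : ZMod K) * π1 x = π1 (d * x) := by rw [map_mul, map_natCast]
      have h10 : ∀ z, π1 x + π1 z = π1 (x + z) := fun z => (map_add π1 x z).symm
      change ∑ z ∈ tors L d, G (π1 x + π1 z) = G ((d : ZMod K) * π1 x)
      simp only [h9, h10]
      by_cases hx : ρ (π2 (π1 x)) = 0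
      · rw [hG0 _ (by rw [h8, hx, mul_zero])]
        exact Finset.sum_eq_zero fun z hz => hG0 _ (by rw [h7 z hz, hx])
      · rw [hG1 _ (by rw [h8, Ne, hdu.mul_right_eq_zero]; exact hx),
          ← hg.dist d hd (hdM.trans h4) x]
        exact Finset.sum_congr rfl fun z hz => hG1 _ (by rw [h7 z hz]; exact hx)
  · have h5 := hSu p (AddMonoidHom.id Y) ((ZMod.isUnit_iff_coprime _ _).2 hp) hpg b
    rw [map_natCast, map_natCast] at h5
    exact congrArg (fun y => 2 • y) h5
  · by_cases hb : ρ b = 0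
    · have h5 := hκ (lv L b)
      rw [natCast_mul_lv h4, hκfix b hb] at h5
      show 2 • g (lv L b) = r ^ c • 2 • S b
      rw [hS0 b hb, smul_zero, smul_zero, two_smul]
      exact add_eq_zero_iff_eq_neg.2 h5
    · show 2 • g (lv L b) = r ^ c • 2 • S b
      rw [smul_comm]
      congr 1
      have h5 : L / M = r ^ (i + c) := by
        rw [hLM, Nat.mul_div_cancel_left _ (Nat.pos_of_ne_zero (NeZero.ne M))]
      have h6 : lv L b = ((r ^ (i + c) : ℕ) : ZMod L) * (b.val : ZMod L) := by
        rw [lv, h5, Nat.cast_mul]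
      have h7 : ZMod.castHom h4 (ZMod M) (b.val : ZMod L) = b := by
        rw [map_natCast, ZMod.natCast_zmod_val]
      rw [h6, ← hg.all ⟨M, by rw [hLM, mul_comm]⟩, ← upCaseB_fib h4 hLM, h7,
        ← Finset.sum_fiberwise_of_maps_to
          (s := Finset.univ.filter (fun x => ZMod.castHom h4 (ZMod M) x = b))
          (t := Finset.univ.filter (fun y => π2 y = b)) (g := π1) (fun x hx => by
            have := (Finset.mem_filter.1 hx).2
            simp only [Finset.mem_filter, Finset.mem_univ, true_and, e12, this]),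
        Finset.smul_sum]
      refine Finset.sum_congr rfl fun y hy => ?_
      have hy := (Finset.mem_filter.1 hy).2
      obtain ⟨x0, rfl⟩ := ZMod.castHom_surjective h1 y
      have hy' : π2 (π1 x0) = b := hy
      have h8 := upCaseB_fib h1 hLK (fun _ => G (π1 x0)) x0
      rw [Finset.sum_const (s := tors L _), card_tors ⟨K, by rw [hLK, mul_comm]⟩] at h8
      refine Eq.trans (Finset.sum_congr ?_ fun x hx => ?_) h8
      · ext x
        simp only [Finset.mem_filter, Finset.mem_univ, true_and]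
        exact ⟨fun e => e.2, fun e => ⟨by rw [← e12, ← hy']; exact congrArg π2 e, e⟩⟩
      · have hx : π1 x = π1 x0 := (Finset.mem_filter.1 hx).2
        rw [← hx]
        exact (hG1 x (by rw [hx, hy']; exact hb)).symm

end Pool.Agent.Tate
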