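import Pool.Agent.P.MP_2ce3e7_ag.TQDefs
import Pool.Agent.P.MP_2ce3e7_ag.UpCaseB

/-! Additive orders of residue classes. -/

set_option autoImplicit false
set_option linter.unusedSectionVars false

noncomputable section

namespace Pool.Agent.Tate

open Pool.Agent.P.MP_e12fcd_ag.Fermat (bern tors mem_tors card_tors sum_tors_unit sum_tors_shift)

variable {M : ℕ} [NeZero M]

theorem ord_dvd_iff {b : ZMod M} {n : ℕ} : addOrderOf b ∣ n ↔ (n : ZMod M) * b = 0 := by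
  rw [addOrderOf_dvd_iff_nsmul_eq_zero, nsmul_eq_mul]

theorem ord_dvd (b : ZMod M) : addOrderOf b ∣ M := by
  rw [ord_dvd_iff, ZMod.natCast_self, zero_mul]

theorem tqOrd_kill (b : ZMod M) : (addOrderOf b : ZMod M) * b = 0 := ord_dvd_iff.1 dvd_rfl

theorem tqOrd_mul_dvd (x b : ZMod M) : addOrderOf (x * b) ∣ addOrderOf b := by
  rw [ord_dvd_iff, mul_left_comm, tqOrd_kill, mul_zero]

theorem tqOrd_dvd_mul (d : ℕ) (b : ZMod M) :
    addOrderOf b ∣ d * addOrderOf ((d : ZMod M) * b) := by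
  rw [ord_dvd_iff, Nat.cast_mul, mul_comm (d : ZMod M), mul_assoc, tqOrd_kill]

theorem tqOrd_bez {a c : ℕ} (h : a.Coprime c) : ∃ u v : ZMod M, u * a + v * c = 1 := by
  obtain ⟨u, v, huv⟩ := (Nat.isCoprime_iff_coprime.2 h).map (Int.castRingHom (ZMod M))
  simp only [map_natCast] at huv
  exact ⟨u, v, huv⟩

theorem ord_unit_mul (t : (ZMod M)ˣ) (b : ZMod M) :
    addOrderOf ((t : ZMod M) * b) = addOrderOf b := by
  refine Nat.dvd_antisymm (tqOrd_mul_dvd _ _) ?_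
  have := tqOrd_mul_dvd ((t⁻¹ : (ZMod M)ˣ) : ZMod M) ((t : ZMod M) * b)
  rwa [Units.inv_mul_cancel_left] at this

/-- elements of the same order differ by a unit -/
theorem same_order {b b' : ZMod M} (h : addOrderOf b = addOrderOf b') :
    ∃ t : (ZMod M)ˣ, (t : ZMod M) * b = b' := by
  obtain ⟨d, hd, _, ⟨u, rfl⟩, rfl⟩ := ZMod.eq_unit_mul_divisor b
  obtain ⟨d', hd', _, ⟨u', rfl⟩, rfl⟩ := ZMod.eq_unit_mul_divisor b'
  rw [ord_unit_mul, ord_unit_mul, ZMod.addOrderOf_coe _ (NeZero.ne M),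
    ZMod.addOrderOf_coe _ (NeZero.ne M), Nat.gcd_eq_right hd, Nat.gcd_eq_right hd'] at h
  have e : d = d' := by
    rw [← Nat.div_div_self hd (NeZero.ne M), h, Nat.div_div_self hd' (NeZero.ne M)]
  refine ⟨u' * u⁻¹, ?_⟩
  rw [e, Units.val_mul, mul_assoc, Units.inv_mul_cancel_left]

theorem Gal.of_order {Y : Type} {G : ZMod M → Y} (hG : Gal G) {b b' : ZMod M}
    (h : addOrderOf b = addOrderOf b') : G b = G b' := by
  obtain ⟨t, rfl⟩ := same_order h
  exact (hG t b).symm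

theorem ord_mul_coprime {d : ℕ} {b : ZMod M} (h : d.Coprime (addOrderOf b)) :
    addOrderOf ((d : ZMod M) * b) = addOrderOf b := by
  exact Nat.dvd_antisymm (tqOrd_mul_dvd _ _) (h.symm.dvd_of_dvd_mul_left (tqOrd_dvd_mul d b))

theorem ord_mul_of_dvd {d : ℕ} {b : ZMod M} (h : d ∣ addOrderOf b) :
    addOrderOf ((d : ZMod M) * b) * d = addOrderOf b := by
  rw [← nsmul_eq_mul, addOrderOf_nsmul, Nat.gcd_eq_right h, Nat.div_mul_cancel h]

theorem tqOrd_pow_mul {l d : ℕ} (hl : l.Prime) (hd : ¬ l ∣ d) (b : ZMod M) (k : ℕ) :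
    l ^ k ∣ addOrderOf ((d : ZMod M) * b) ↔ l ^ k ∣ addOrderOf b :=
  ⟨fun h => h.trans (tqOrd_mul_dvd _ _), fun h =>
    (((Nat.Prime.coprime_iff_not_dvd hl).2 hd).pow_left k).dvd_of_dvd_mul_left
      (h.trans (tqOrd_dvd_mul d b))⟩

theorem dvd_ord_add {l d : ℕ} (hl : l.Prime) (hd : ¬ l ∣ d) {z : ZMod M}
    (hz : (d : ZMod M) * z = 0) (b : ZMod M) (k : ℕ) :
    l ^ k ∣ addOrderOf (b + z) ↔ l ^ k ∣ addOrderOf b := by
  rw [← tqOrd_pow_mul hl hd (b + z), mul_add, hz, add_zero, tqOrd_pow_mul hl hd]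

theorem dvd_ord_mul {l d : ℕ} (hl : l.Prime) (hd : ¬ l ∣ d) (b : ZMod M) (k : ℕ) :
    l ^ k ∣ addOrderOf ((d : ZMod M) * b) ↔ l ^ k ∣ addOrderOf b := by
  exact tqOrd_pow_mul hl hd b k

theorem ord_add_tors {l : ℕ} (hl : l.Prime) {b z : ZMod M}
    (h : l ∣ addOrderOf ((l : ZMod M) * b)) (hz : (l : ZMod M) * z = 0) :
    addOrderOf (b + z) = addOrderOf b := by
  have e : (l : ZMod M) * (b + z) = (l : ZMod M) * b := by rw [mul_add, hz, add_zero]
  have h1 : l ∣ addOrderOf (b + z) := (e ▸ h).trans (tqOrd_mul_dvd _ _)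
  rw [← ord_mul_of_dvd h1, e, ord_mul_of_dvd (h.trans (tqOrd_mul_dvd _ _))]

/-- the unique translate of order prime to `l` -/
theorem exists_cut {l : ℕ} (hl : l.Prime) {b : ZMod M}
    (h : ¬ l ∣ addOrderOf ((l : ZMod M) * b)) : ∃ c : ZMod M, ¬ l ∣ addOrderOf c ∧
      (l : ZMod M) * c = (l : ZMod M) * b ∧
      ∀ z : ZMod M, (l : ZMod M) * z = 0 → ¬ l ∣ addOrderOf (b + z) → b + z = c := by
  obtain ⟨u, v, huv⟩ := tqOrd_bez (M := M) ((Nat.Prime.coprime_iff_not_dvd hl).2 h)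
  have k1 := tqOrd_kill ((l : ZMod M) * b)
  refine ⟨u * ((l : ZMod M) * b), fun h' => h (h'.trans (tqOrd_mul_dvd _ _)), ?_,
    fun z hz h' => ?_⟩
  · linear_combination ((l : ZMod M) * b) * huv - v * k1
  · have e : (l : ZMod M) * (b + z) = (l : ZMod M) * b := by rw [mul_add, hz, add_zero]
    have e2 := ord_mul_coprime ((Nat.Prime.coprime_iff_not_dvd hl).2 h')
    have k2 := tqOrd_kill (b + z)
    rw [← e2, e] at k2
    linear_combination (-(b + z)) * huv + v * k2 + u * e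

/-- cutting off the elements of order divisible by `l` -/
theorem sum_cut {l : ℕ} (hl : l.Prime) {Y : Type} [AddCommGroup Y] (F : ZMod M → Y)
    (hF : ∀ c, ¬ l ∣ addOrderOf c → F ((l : ZMod M) * c) = F c) (b : ZMod M) :
    ∑ z ∈ tors M l, (if l ∣ addOrderOf (b + z) then 0 else F (b + z)) =
      if l ∣ addOrderOf ((l : ZMod M) * b) then 0 else F ((l : ZMod M) * b) := by
  by_cases h : l ∣ addOrderOf ((l : ZMod M) * b)
  · rw [if_pos h]
    refine Finset.sum_eq_zero fun z hz => if_pos ?_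
    have e : (l : ZMod M) * (b + z) = (l : ZMod M) * b := by
      rw [mul_add, mem_tors.1 hz, add_zero]
    exact (e ▸ h).trans (tqOrd_mul_dvd _ _)
  · obtain ⟨c, h1, h2, h3⟩ := exists_cut hl h
    rw [if_neg h, Finset.sum_eq_single_of_mem (c - b)
      (mem_tors.2 (by rw [mul_sub, h2, sub_self])) fun z hz hne => if_pos ?_]
    · rw [add_sub_cancel, if_neg h1, ← h2, hF c h1]
    · by_contra h4
      exact hne (eq_sub_of_add_eq' (h3 z (mem_tors.1 hz) h4))

theorem dvd_ord_iff_cast {l : ℕ} (hl : l.Prime) (b : ZMod M) : l ∣ addOrderOf b ↔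
    ZMod.castHom (Nat.ordProj_dvd M l) (ZMod (l ^ M.factorization l)) b ≠ 0 := by
  have hM := (Nat.ordProj_mul_ordCompl_eq_self M l).symm
  rw [Ne, ← upCaseB_tors (Nat.ordProj_dvd M l) hM, mem_tors, ← ord_dvd_iff]
  refine ⟨fun h h' => Nat.not_dvd_ordCompl hl (NeZero.ne M) (h.trans h'), fun h => ?_⟩
  by_contra h'
  refine h ((((Nat.Prime.coprime_iff_not_dvd hl).2 h').pow_left
    (M.factorization l)).symm.dvd_of_dvd_mul_left ?_)
  rw [← hM]
  exact ord_dvd b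

theorem sum_tors_coprime {a d : ℕ} (h : a.Coprime d) {Y : Type} [AddCommMonoid Y]
    (F : ZMod M → Y) : ∑ z ∈ tors M d, F ((a : ZMod M) * z) = ∑ z ∈ tors M d, F z := by
  obtain ⟨u, v, huv⟩ := tqOrd_bez (M := M) h
  refine Finset.sum_nbij' (fun z => (a : ZMod M) * z) (fun z => u * z) (fun z hz => ?_)
    (fun z hz => ?_) (fun z hz => ?_) (fun z hz => ?_) fun _ _ => rfl
  · rw [mem_tors] at hz ⊢
    rw [mul_left_comm, hz, mul_zero]
  · rw [mem_tors] at hz ⊢
    rw [mul_left_comm, hz, mul_zero]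
  · have := mem_tors.1 hz
    linear_combination z * huv - v * this
  · have := mem_tors.1 hz
    linear_combination z * huv - v * this

theorem eq_zero_of_cast {a c : ℕ} (ha : a ∣ M) (hc : c ∣ M) (hM : M = a * c) (h : a.Coprime c)
    {x : ZMod M} (h1 : ZMod.castHom ha (ZMod a) x = 0) (h2 : ZMod.castHom hc (ZMod c) x = 0) :
    x = 0 := by
  obtain ⟨u, v, huv⟩ := tqOrd_bez (M := M) h
  have k1 := mem_tors.1 ((upCaseB_tors ha hM x).2 h1)
  have k2 := mem_tors.1 ((upCaseB_tors hc (hM.trans (mul_comm a c)) x).2 h2)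
  linear_combination u * k2 + v * k1 - x * huv

theorem exists_unit_crt {a c : ℕ} (ha : a ∣ M) (hc : c ∣ M) (hM : M = a * c) (h : a.Coprime c)
    (u : (ZMod a)ˣ) (v : (ZMod c)ˣ) : ∃ t : (ZMod M)ˣ,
      ZMod.castHom ha (ZMod a) (t : ZMod M) = u ∧ ZMod.castHom hc (ZMod c) (t : ZMod M) = v := by
  have : NeZero a := upDefs_ne ha
  have : NeZero c := upDefs_ne hc
  obtain ⟨k, h1, h2⟩ := Nat.chineseRemainder h (u : ZMod a).val (v : ZMod c).val
  have e1 : (k : ZMod a) = u := by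
    rw [(ZMod.natCast_eq_natCast_iff _ _ _).2 h1, ZMod.natCast_zmod_val]
  have e2 : (k : ZMod c) = v := by
    rw [(ZMod.natCast_eq_natCast_iff _ _ _).2 h2, ZMod.natCast_zmod_val]
  have c1 : k.Coprime a := (ZMod.isUnit_iff_coprime k a).1 (e1 ▸ u.isUnit)
  have c2 : k.Coprime c := (ZMod.isUnit_iff_coprime k c).1 (e2 ▸ v.isUnit)
  have c3 : k.Coprime M := hM ▸ c1.mul_right c2
  refine ⟨ZMod.unitOfCoprime k c3, ?_, ?_⟩
  · rw [ZMod.coe_unitOfCoprime, map_natCast, e1]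
  · rw [ZMod.coe_unitOfCoprime, map_natCast, e2]

/-- the action on elements killed by `a` only depends on the residue modulo `a` -/
theorem mul_eq_of_cast {a : ℕ} (ha : a ∣ M) {x y b : ZMod M}
    (h : ZMod.castHom ha (ZMod a) x = ZMod.castHom ha (ZMod a) y) (hb : (a : ZMod M) * b = 0) :
    x * b = y * b := by
  obtain ⟨k, hk⟩ := (upCaseB_zero ha (x - y)).1 (by rw [map_sub, h, sub_self])
  have e : x - y = (a : ZMod M) * (k : ZMod M) := by
    rw [← ZMod.natCast_zmod_val (x - y), hk, Nat.cast_mul]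
  linear_combination b * e + (k : ZMod M) * hb

end Pool.Agent.Tate
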