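import Pool.Agent.P.MP_2ce3e7_ag.TQPrime
import Pool.Agent.P.MP_2ce3e7_ag.TQOrd
import Pool.Agent.P.MP_2ce3e7_ag.UpCaseA

/-! Divisibility by four at a higher level. -/

set_option autoImplicit false
set_option linter.unusedSectionVars false

noncomputable section

namespace Pool.Agent.Tate

open Pool.Agent.P.MP_e12fcd_ag.Fermat (bern tors mem_tors card_tors sum_tors_unit sum_tors_shift)

theorem tqDiv_per {Y : Type} [AddCommMonoid Y] {T : ℕ → Y} {f : ℕ} (h : ∀ s, T (f + s) = T s)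
    (n : ℕ) : ∑ s ∈ Finset.range (n * f), T s = n • ∑ s ∈ Finset.range f, T s := by
  have h' : ∀ n s, T (n * f + s) = T s := fun n s => by
    induction n with
    | zero => simp
    | succ n ih => rw [add_mul, one_mul, add_assoc, add_left_comm, h, ih]
  induction n with
  | zero => simp
  | succ n ih => simp only [add_mul, one_mul, Finset.sum_range_add, ih, h', add_smul, one_smul]

theorem tqDiv_range {Y : Type} [AddCommMonoid Y] (D : ℕ) [NeZero D] (T : ℕ → Y) :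
    ∑ v : ZMod D, T v.val = ∑ j ∈ Finset.range D, T j :=
  Finset.sum_bij (fun v _ => v.val) (fun v _ => Finset.mem_range.2 (ZMod.val_lt v))
    (fun _ _ _ _ h => ZMod.val_injective D h)
    (fun j hj => ⟨(j : ZMod D), Finset.mem_univ _, ZMod.val_cast_of_lt (Finset.mem_range.1 hj)⟩)
    fun _ _ => rfl

variable {p M : ℕ} [NeZero M] (hp : p.Prime) (h2 : p ≠ 2) (hpM : p.Coprime M)
include hp h2 hpM

theorem ev_divA (t : (ZMod M)ˣ) : Ev p M fun Y _ g => ∀ b : ZMod M, Odd (addOrderOf b) →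
    ∃ y : Y, g ((t : ZMod M) * b) - g b = 4 • y := by
  obtain ⟨v, N, hN, hM⟩ := Nat.exists_eq_pow_mul_and_not_dvd (NeZero.ne M) 2 (by decide)
  have hNM : N ∣ M := ⟨2 ^ v, by rw [hM, mul_comm]⟩
  have hodd : Odd N := Nat.not_even_iff_odd.1 fun h => hN h.two_dvd
  have hs0 : M.totient ≠ 0 := (Nat.totient_pos.2 (NeZero.pos M)).ne'
  obtain ⟨r, hr, hB, hr1, hr2, hr3⟩ := exists_nonsq_prime (K := 2 + M.totient) hp hodd
    (hpM.coprime_dvd_right hNM) (fun h => absurd h h2) (ZMod.unitsMap hNM t) (M + p)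
  have hrM : ¬ r ∣ M := Nat.not_dvd_of_pos_of_lt (NeZero.pos M) (by omega)
  have hpr : ¬ r ∣ p := Nat.not_dvd_of_pos_of_lt hp.pos (by omega)
  have : NeZero (M * r) := ⟨mul_ne_zero (NeZero.ne M) hr.ne_zero⟩
  have hs : (p : ZMod M) ^ M.totient = 1 := by
    have := (ZMod.natCast_eq_natCast_iff _ _ _).2 (Nat.ModEq.pow_totient hpM)
    exact_mod_cast this
  have h0 : (p : ZMod r) ≠ 0 := fun h => hpr ((ZMod.natCast_eq_zero_iff p r).1 h)
  obtain ⟨c, hc⟩ := pow_dvd_orderOf (K := 2) hr Nat.prime_two hs0 hr1 h0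
    fun y hy => hr3 ⟨y, by rw [← hy, pow_two]⟩
  refine ⟨M * r, inferInstance, dvd_mul_right M r,
    hpM.mul_right ((hr.coprime_iff_not_dvd.2 hpr).symm), fun Y _ g hg b hb => ?_⟩
  obtain ⟨W, -, -, hW⟩ := caseA hr rfl hrM hpr hs hg.dist hg.inv
  have h1 : addOrderOf b ∣ N := by
    have h3 : addOrderOf b ∣ 2 ^ v * N := hM ▸ ord_dvd b
    exact (Nat.Coprime.pow_right v (Nat.coprime_two_right.2 hb)).dvd_of_dvd_mul_left h3
  have h3 : (t : ZMod M) * b = (r : ZMod M) * b :=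
    mul_eq_of_cast hNM (by rw [map_natCast, hr2]; rfl) (ord_dvd_iff.1 h1)
  refine ⟨c • W b, ?_⟩
  simp only
  rw [h3, hW b, hc, smul_smul]
  rfl

theorem ev_divB : Ev p M fun Y _ g => ∀ b : ZMod M, Even (addOrderOf b) →
    ∃ y : Y, g b = 4 • y := by
  obtain ⟨v, N, hN, hM⟩ := Nat.exists_eq_pow_mul_and_not_dvd (NeZero.ne M) 2 (by decide)
  have hNM : N ∣ M := ⟨2 ^ v, by rw [hM, mul_comm]⟩
  have hodd : Odd N := Nat.not_even_iff_odd.1 fun h => hN h.two_dvd
  have hp2 : p.Coprime 2 := (Nat.coprime_primes hp Nat.prime_two).2 h2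
  have hpN : p.Coprime N := hpM.coprime_dvd_right hNM
  have hN0 : N ≠ 0 := fun h => hN (h ▸ dvd_zero 2)
  cases v with
  | zero =>
    refine Ev.of_sys hpM fun Y _ g _ b hb => absurd (hb.two_dvd.trans (ord_dvd b)) ?_
    rwa [hM, pow_zero, one_mul]
  | succ A =>
    obtain ⟨i, hi, horb⟩ := exists_orb_two hodd hp.one_lt (hpN.mul_right hp2)
    obtain ⟨k, rfl⟩ : ∃ k, i = k + 1 := ⟨i - 1, by omega⟩
    obtain ⟨L, hL⟩ : ∃ L, L = N * 2 ^ (A + 1 + (k + 2)) := ⟨_, rfl⟩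
    have hL' : L = M * (4 * 2 ^ k) := by rw [hL, hM]; ring
    have : NeZero L := ⟨by rw [hL]; positivity⟩
    have : NeZero (4 * 2 ^ k) := ⟨by positivity⟩
    have hML : M ∣ L := ⟨_, hL'⟩
    have hDL : 4 * 2 ^ k ∣ L := ⟨M, by rw [hL', mul_comm]⟩
    refine ⟨L, inferInstance, hML, by rw [hL]; exact hpN.mul_right (hp2.pow_right _),
      fun Y _ g hg b hb => ?_⟩
    have hb2 : ¬ 2 ^ (A + 1) ∣ b.val := by
      rintro ⟨c, hc⟩
      have h1 : (N : ZMod M) * b = 0 := by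
        rw [← ZMod.natCast_zmod_val b, ← Nat.cast_mul, ZMod.natCast_eq_zero_iff, hc]
        exact ⟨c, by rw [hM]; ring⟩
      exact hN (hb.two_dvd.trans (ord_dvd_iff.2 h1))
    have e1 : L / M = 4 * 2 ^ k := by
      rw [hL', Nat.mul_div_cancel_left _ (NeZero.pos M)]
    have e2 : L / (4 * 2 ^ k) = M := by
      rw [hL', Nat.mul_div_cancel _ (NeZero.pos _)]
    have h1 := hg.dist.all hDL (b.val : ZMod L)
    rw [sum_tors_eq hDL fun z => g ((b.val : ZMod L) + z)] at h1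
    simp only [lv, e2, ← Nat.cast_add] at h1
    rw [tqDiv_range (4 * 2 ^ k) fun j => g ((b.val + M * j : ℕ) : ZMod L), tqDiv_per] at h1
    · refine ⟨_, Eq.trans ?_ h1.symm⟩
      simp only [lv, e1, Nat.cast_mul]
    · intro s
      symm
      refine orb_periodic (A := A) (i := k + 1) Nat.prime_two hN hL
        (fun u hu => hL ▸ horb _ u hu) hg.inv (fun h => hb2 ?_) ?_
      · exact (Nat.dvd_add_left (Dvd.dvd.mul_right ⟨N, hM⟩ s)).1 h
      · have e3 : b.val + M * (2 ^ k + s) = b.val + M * s + N * 2 ^ (A + (k + 1)) := by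
          have : M * 2 ^ k = N * 2 ^ (A + (k + 1)) := by rw [hM]; ring
          rw [mul_add, this]
          ring
        rw [e3]
        exact (Nat.add_modEq_right).symm

end Pool.Agent.Tate
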