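import Pool.Agent.P.MP_2ce3e7_ag.TQDefs

/-! Induction over the elements of a level and extension of distributions. -/

set_option autoImplicit false
set_option linter.unusedSectionVars false

noncomputable section

namespace Pool.Agent.Tate

open Pool.Agent.P.MP_e12fcd_ag.Fermat (bern tors mem_tors card_tors sum_tors_unit sum_tors_shift)

variable {M : ℕ} [NeZero M]

/-- induction with an arbitrary choice of the excluded digits -/
theorem span_ind (A : ZMod M → Prop) (β : ZMod M → Finset ℕ)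
    (h1 : ∀ b, A b → ∀ l ∈ β b, l.Prime ∧ l ∣ M ∧ l ∣ addOrderOf b ∧ A ((l : ZMod M) * b) ∧
      ∀ z : ZMod M, (l : ZMod M) * z = 0 → z ≠ 0 → A (b + z) ∧ β (b + z) ⊆ (β b).erase l)
    {Y : Type} [AddCommGroup Y] {W : ZMod M → Y} (hW : ODist M W)
    (h0 : ∀ b, A b → β b = ∅ → W b = 0) (b : ZMod M) (hb : A b) : W b = 0 := by
  have hc : ∀ b : ZMod M, A b → (β b).card ≤ M.primeFactors.card := fun b hb =>
    Finset.card_le_card fun l hl =>
      Nat.mem_primeFactors.2 ⟨(h1 b hb l hl).1, (h1 b hb l hl).2.1, NeZero.ne M⟩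
  generalize hn : addOrderOf b * (M.primeFactors.card + 1) + (β b).card = n
  induction n using Nat.strong_induction_on generalizing b with
  | _ n ih =>
  rcases (β b).eq_empty_or_nonempty with h | ⟨l, h⟩
  · exact h0 b hb h
  obtain ⟨hp, hd, ho, hA, hz'⟩ := h1 b hb l h
  have h0 := addOrderOf_pos b
  have e := hW l hp hd b
  rw [← Finset.add_sum_erase _ _ (mem_tors.2 (mul_zero _)), add_zero,
    Finset.sum_eq_zero, add_zero, ih _ _ ((l : ZMod M) * b) hA rfl] at e
  · exact e
  · have h1 : addOrderOf ((l : ZMod M) * b) < addOrderOf b := by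
      rw [← nsmul_eq_mul, addOrderOf_nsmul_of_dvd hp.ne_zero ho]
      exact Nat.div_lt_self h0 hp.one_lt
    have := Nat.mul_le_mul_right (M.primeFactors.card + 1) (Nat.succ_le_of_lt h1)
    have := hc ((l : ZMod M) * b) hA
    rw [Nat.succ_mul] at *
    omega
  · intro z hz
    obtain ⟨hz0, hz⟩ := Finset.mem_erase.1 hz
    rw [mem_tors] at hz
    refine ih _ ?_ _ (hz' z hz hz0).1 rfl
    have h1 : addOrderOf (b + z) ≤ addOrderOf b := Nat.le_of_dvd h0
      (addOrderOf_dvd_of_nsmul_eq_zero (by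
        rw [nsmul_add, addOrderOf_nsmul_eq_zero, zero_add]
        obtain ⟨c, hc⟩ := ho
        rw [hc, nsmul_eq_mul, Nat.cast_mul, mul_right_comm, hz, zero_mul]))
    have := Nat.mul_le_mul_right (M.primeFactors.card + 1) h1
    have := (Finset.card_le_card (hz' z hz hz0).2).trans_lt (Finset.card_erase_lt_of_mem h)
    omega

theorem span_bad {Y : Type} [AddCommGroup Y] {W : ZMod M → Y} (hW : ODist M W)
    (h0 : ∀ b, upKubABad b = ∅ → W b = 0) (b : ZMod M) : W b = 0 := by
  refine span_ind (fun _ => True) upKubABad (fun b _ l hl => ?_) hW (fun b _ => h0 b) b trivial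
  obtain ⟨hp, hd, -⟩ := Nat.mem_primeFactors.1 (Finset.mem_filter.1 hl).1
  exact ⟨hp, hd, upKubA_dvd hl, trivial, fun z hz hz0 => ⟨trivial, upKubA_ssub hl hz hz0⟩⟩

theorem tqExt_coef (T : Finset (ZMod M))
    (hs : ∀ (Y : Type) [AddCommGroup Y] (W : ZMod M → Y), ODist M W → (∀ t ∈ T, W t = 0) →
      ∀ b, W b = 0) (x : ZMod M) :
    ∃ n : T → ℤ, ∀ V : ZMod M → ℂ, ODist M V → V x = ∑ t : T, n t • V t := by
  let R : Submodule ℤ (ZMod M → ℤ) := Submodule.span ℤ {v | ∃ d : ℕ, d.Prime ∧ d ∣ M ∧ ∃ x,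
    v = ∑ z ∈ tors M d, Pi.single (x + z) 1 - Pi.single ((d : ZMod M) * x) 1}
  let S : Submodule ℤ (ZMod M → ℤ) :=
    Submodule.span ℤ (Set.range fun t : T => Pi.single t.1 (1 : ℤ))
  have h1 : Pi.single x (1 : ℤ) ∈ R ⊔ S := by
    rw [← Submodule.Quotient.mk_eq_zero]
    refine hs _ (fun x => (R ⊔ S).mkQ (Pi.single x 1)) (fun d hp hd y => ?_) (fun t ht => ?_) x
    · rw [← map_sum, ← sub_eq_zero, ← map_sub, Submodule.mkQ_apply, Submodule.Quotient.mk_eq_zero]
      exact Submodule.mem_sup_left (Submodule.subset_span ⟨d, hp, hd, y, rfl⟩)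
    · rw [Submodule.mkQ_apply, Submodule.Quotient.mk_eq_zero]
      exact Submodule.mem_sup_right (Submodule.subset_span ⟨⟨t, ht⟩, rfl⟩)
  obtain ⟨r, hr, s, hs', e⟩ := Submodule.mem_sup.1 h1
  obtain ⟨n, rfl⟩ := (Submodule.mem_span_range_iff_exists_fun ℤ).1 hs'
  refine ⟨n, fun V hV => ?_⟩
  have h3 : R ≤ LinearMap.ker (Fintype.linearCombination ℤ V) := by
    refine Submodule.span_le.2 ?_
    rintro _ ⟨d, hp, hd, x, rfl⟩
    rw [SetLike.mem_coe, LinearMap.mem_ker, map_sub, map_sum]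
    simp only [Fintype.linearCombination_apply_single, one_smul]
    rw [hV d hp hd, sub_self]
  have h4 := congrArg (Fintype.linearCombination ℤ V) e
  rw [map_add, LinearMap.mem_ker.1 (h3 hr), zero_add, map_sum] at h4
  simp only [map_smul, Fintype.linearCombination_apply_single, one_smul] at h4
  exact h4.symm

theorem tqExt_uniq (T : Finset (ZMod M)) (hT : T.card ≤ M.totient)
    (hs : ∀ (Y : Type) [AddCommGroup Y] (W : ZMod M → Y), ODist M W → (∀ t ∈ T, W t = 0) →
      ∀ b, W b = 0) {n m : T → ℤ}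
    (h : ∀ V : ZMod M → ℂ, ODist M V → ∑ t : T, n t • V t = ∑ t : T, m t • V t) : n = m := by
  let ρ : upKubD M →ₗ[ℂ] (T → ℂ) := (LinearMap.funLeft ℂ ℂ Subtype.val).comp (upKubD M).subtype
  have hi : Function.Injective ρ := by
    rw [injective_iff_map_eq_zero]
    intro V hV
    exact Subtype.ext (funext (hs ℂ V.1 V.2 fun t ht => congrFun hV ⟨t, ht⟩))
  have hsu : Function.Surjective ρ := by
    rw [← LinearMap.injective_iff_surjective_of_finrank_eq_finrank]
    · exact hi
    · refine le_antisymm (LinearMap.finrank_le_finrank_of_injective hi) ?_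
      rw [Module.finrank_fintype_fun_eq_card, Fintype.card_coe]
      exact hT.trans upKubD_rank
  funext t
  obtain ⟨V, hV⟩ := hsu (Pi.single t 1)
  have h5 := h V.1 V.2
  have h6 : ∀ t' : T, V.1 t' = (Pi.single t 1 : T → ℂ) t' := fun t' => congrFun hV t'
  simp only [h6, Pi.single_apply, smul_ite, smul_zero, Finset.sum_ite_eq', Finset.mem_univ,
    if_true, zsmul_eq_mul, mul_one] at h5
  exact Int.cast_injective h5

/-- small generating sets are bases -/
theorem exists_ext (T : Finset (ZMod M)) (hT : T.card ≤ M.totient)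
    (hs : ∀ (Y : Type) [AddCommGroup Y] (W : ZMod M → Y), ODist M W → (∀ t ∈ T, W t = 0) →
      ∀ b, W b = 0) {Y : Type} [AddCommGroup Y] (F : ZMod M → Y) :
    ∃ θ : ZMod M → Y, ODist M θ ∧ ∀ t ∈ T, θ t = F t := by
  choose n hn using tqExt_coef T hs
  have sw : ∀ (Z : Type) [AddCommGroup Z] (G : ZMod M → Z) (d : ℕ) (b : ZMod M),
      ∑ t : T, (∑ z ∈ tors M d, n (b + z) t) • G t =
        ∑ z ∈ tors M d, ∑ t : T, n (b + z) t • G t := fun Z _ G d b => by
    rw [Finset.sum_comm]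
    exact Finset.sum_congr rfl fun t _ => Finset.sum_smul
  refine ⟨fun x => ∑ t : T, n x t • F t, fun d hp hd b => ?_, fun t ht => ?_⟩
  · have e : (fun t => ∑ z ∈ tors M d, n (b + z) t) = n ((d : ZMod M) * b) :=
      tqExt_uniq T hT hs fun V hV => by
        rw [sw, ← hn _ V hV, ← hV d hp hd]
        exact Finset.sum_congr rfl fun z _ => (hn _ V hV).symm
    show ∑ z ∈ tors M d, ∑ t : T, n (b + z) t • F t = ∑ t : T, n ((d : ZMod M) * b) t • F t
    rw [← sw, ← e]
  · have one : ∀ (Z : Type) [AddCommGroup Z] (G : ZMod M → Z),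
        ∑ s : T, (Pi.single (⟨t, ht⟩ : T) (1 : ℤ) : T → ℤ) s • G s = G t := fun Z _ G => by
      simp only [Pi.single_apply, ite_smul, one_smul, zero_smul, Finset.sum_ite_eq',
        Finset.mem_univ, if_true]
    have e : n t = Pi.single (⟨t, ht⟩ : T) 1 :=
      tqExt_uniq T hT hs fun V hV => by rw [← hn _ V hV, one]
    show ∑ s : T, n t s • F s = F t
    rw [e, one]

end Pool.Agent.Tate
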