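import Pool.Agent.P.MP_2ce3e7_ag.TQOdd
import Pool.Agent.P.MP_2ce3e7_ag.UpCaseA

/-! Invariance under the prime two. -/

set_option autoImplicit false
set_option linter.unusedSectionVars false

noncomputable section

namespace Pool.Agent.Tate

open Pool.Agent.P.MP_e12fcd_ag.Fermat (bern tors mem_tors card_tors sum_tors_unit sum_tors_shift)

theorem sq_class {q : ℕ} [Fact q.Prime] (h4 : q % 4 = 3) {Y : Type} [AddCommGroup Y]
    (φ : (ZMod q)ˣ → Y) (h1 : ∀ s u, φ (s ^ 2 * u) = φ u) (h2 : ∀ u, 2 • φ u = 0)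
    (h3 : ∑ u, φ u = 0) (u : (ZMod q)ˣ) : φ u = φ 1 := by
  classical
  have hn : ¬ IsSquare (-1 : ZMod q) := by
    rw [ZMod.exists_sq_eq_neg_one_iff]
    omega
  have hx : ∀ u : (ZMod q)ˣ, IsSquare ((-u : (ZMod q)ˣ) : ZMod q) ↔ ¬ IsSquare (u : ZMod q) :=
    fun u => by
      rw [← quadraticChar_one_iff_isSquare (Units.ne_zero _), Units.val_neg, ← neg_one_mul,
        map_mul, quadraticChar_neg_one_iff_not_isSquare.2 hn,
        ← quadraticChar_neg_one_iff_not_isSquare]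
      omega
  have hs : ∀ u v : (ZMod q)ˣ, IsSquare (u : ZMod q) → φ (u * v) = φ v := fun u v ⟨s, hs⟩ => by
    have h0 : s ≠ 0 := fun h => u.ne_zero (by rw [hs, h, mul_zero])
    rw [← h1 (Units.mk0 s h0) v]
    congr 2
    exact Units.ext (by rw [hs, sq]; rfl)
  let S := Finset.univ.filter fun u : (ZMod q)ˣ => IsSquare (u : ZMod q)
  have key : ∀ (Z : Type) [AddCommMonoid Z] (F : (ZMod q)ˣ → Z),
      ∑ u, F u = ∑ u ∈ S, (F u + F (-u)) := fun Z _ F => by
    rw [← Finset.sum_filter_add_sum_filter_not _ fun u : (ZMod q)ˣ => IsSquare (u : ZMod q),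
      Finset.sum_add_distrib]
    congr 1
    refine Finset.sum_equiv (Equiv.neg _) (fun u => ?_) fun u _ => by simp
    simp only [S, Finset.mem_filter, Finset.mem_univ, true_and, Equiv.neg_apply, hx]
  have k1 := key ℕ fun _ => 1
  simp only [Finset.sum_const, Finset.card_univ, ZMod.card_units, smul_eq_mul] at k1
  have k2 := key Y φ
  rw [h3, Finset.sum_congr rfl (g := fun _ => φ 1 + φ (-1)) fun u hu => by
    rw [← hs u 1 (Finset.mem_filter.1 hu).2, ← hs u (-1) (Finset.mem_filter.1 hu).2, mul_one,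
      mul_neg_one], Finset.sum_const, show S.card = S.card / 2 * 2 + 1 by omega, add_smul,
    mul_smul, smul_add 2, h2, h2, add_zero, smul_zero, zero_add, one_smul] at k2
  by_cases h : IsSquare (u : ZMod q)
  · rw [← hs u 1 h, mul_one]
  · have e := h2 1
    rw [two_nsmul, k2] at e
    rw [add_left_cancel e, ← hs (-u) (-1) ((hx u).2 h), neg_mul_neg, mul_one]

variable {M : ℕ} [NeZero M] (hA : Adm M) {Y : Type} [AddCommGroup Y] {g : ZMod M → Y}
  (hg : Dist M g) (hi : ∀ t : (ZMod M)ˣ, Odd (orderOf t) → ∀ b, g ((t : ZMod M) * b) = g b)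
  (h2 : ∀ b, Even (addOrderOf b) → 2 • g b = 0)
include hA hg hi h2

omit hA in
theorem tqFour_sq {q : ℕ} (hq : q.Prime) (hq2 : q ≠ 2) {c : ZMod M} (he : Even (addOrderOf c))
    (h : q ∣ addOrderOf ((q : ZMod M) * c)) : g ((q : ZMod M) * c) = g c := by
  have hqM := h.trans (ord_dvd _)
  obtain ⟨k, hk⟩ := hq.odd_of_ne_two hq2
  rw [← hg.dist q hq hqM, Finset.sum_congr rfl (g := fun _ => g c) fun z hz => by
    obtain ⟨t, h1, h3⟩ := odd_shift hq hq2 h (mem_tors.1 hz)
    rw [← h3, hi t h1], Finset.sum_const, card_tors hqM, hk, add_smul, mul_comm, mul_smul,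
    h2 c he, smul_zero, zero_add, one_smul]

theorem tqFour_one {q : ℕ} (hq : q.Prime) (hq2 : q ≠ 2) (hqM : q ∣ M) {c : ZMod M}
    (he : Even (addOrderOf c)) (h : ¬ q ∣ addOrderOf ((q : ZMod M) * c))
    (ih : ∀ c' : ZMod M, addOrderOf c' * q = addOrderOf c → ∀ t : (ZMod M)ˣ,
      g ((t : ZMod M) * c') = g c')
    (τ : (ZMod M)ˣ) (hτ : ∀ b : ZMod M, ¬ q ∣ addOrderOf b → (τ : ZMod M) * b = b) :
    g ((τ : ZMod M) * c) = g c := by
  by_cases h0 : q ∣ addOrderOf c
  swap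
  · rw [hτ c h0]
  have := Fact.mk hq
  have h4 := (hA q hq hqM).resolve_left hq2
  have hn : ¬ 2 ∣ q := by omega
  obtain ⟨c', c1, c2, -⟩ := exists_cut hq h
  have c3 := ord_mul_coprime ((Nat.Prime.coprime_iff_not_dvd hq).2 c1)
  obtain ⟨w, hw⟩ := exists_lv hqM (x := c - c') (by rw [mul_sub, c2, sub_self])
  have hw0 : w ≠ 0 := fun e => c1 (by
    rw [e, (lv_eq_zero hqM).2 rfl, eq_comm, sub_eq_zero] at hw
    exact hw ▸ h0)
  have hz : ∀ v : ZMod q, (q : ZMod M) * lv M v = 0 := fun v => by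
    rw [natCast_mul_lv hqM, ZMod.natCast_self, zero_mul, lv_eq_zero hqM]
  have hc : c = c' + lv M w := by rw [hw, add_sub_cancel]
  have key := sq_class h4 (fun u => g (c' + lv M (u : ZMod q))) (fun s u => by
    obtain ⟨t, t1, t2, t3⟩ := odd_unit_sq hq h4 hqM s
    rw [← hi t t1 (c' + lv M (u : ZMod q)), mul_add, t2 c' c1, mul_lv hqM, t3]
    simp) (fun u => h2 _ (by
      have e1 := dvd_ord_add Nat.prime_two hn (hz u) c' 1
      have e2 := dvd_ord_add Nat.prime_two hn (hz w) c' 1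
      rw [pow_one] at e1 e2
      rw [even_iff_two_dvd, e1, ← e2, ← hc]
      exact he.two_dvd)) (by
      have e := UpCaseA_units fun v : ZMod q => g (c' + lv M v)
      obtain ⟨t, ht⟩ := same_order c3.symm
      rw [← sum_tors_eq hqM fun z => g (c' + z), hg.dist q hq hqM, ← ht, ih c' (by
        rw [← c3, c2, ord_mul_of_dvd h0]), (lv_eq_zero hqM).2 rfl, add_zero] at e
      simpa using e)
  have e1 := key (Units.mk0 w hw0)
  have e2 := key (ZMod.unitsMap hqM τ * Units.mk0 w hw0)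
  rw [hc, mul_add, hτ c' c1, mul_lv hqM]
  exact e2.trans e1.symm

theorem four_inv (c : ZMod M) (h4 : 4 ∣ addOrderOf c) (h8 : ¬ 8 ∣ addOrderOf c)
    (t : (ZMod M)ˣ) : g ((t : ZMod M) * c) = g c := by
  generalize hn : addOrderOf c = n
  induction n using Nat.strong_induction_on generalizing c t with
  | _ n ih =>
  have ev : ∀ c' : ZMod M, addOrderOf c' = n → Even (addOrderOf c') := fun c' h =>
    even_iff_two_dvd.2 ((by norm_num : 2 ∣ 4).trans (by rw [h, ← hn]; exact h4))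
  have ih' : ∀ q : ℕ, q.Prime → q ≠ 2 → ∀ c' : ZMod M, addOrderOf c' * q = n →
      ∀ t : (ZMod M)ˣ, g ((t : ZMod M) * c') = g c' := fun q hq hq2 c' h t => by
    have hc := (hq.odd_of_ne_two hq2).coprime_two_left
    refine ih _ ?_ c' ((hc.pow_left 2).dvd_of_dvd_mul_right (by rw [h, ← hn]; exact h4))
      (fun e => h8 (by rw [hn, ← h]; exact e.mul_right _)) t rfl
    rw [← h]
    exact lt_mul_of_one_lt_right (addOrderOf_pos _) hq.one_lt
  by_cases H : ∃ q : ℕ, q.Prime ∧ q ≠ 2 ∧ q ∣ addOrderOf ((q : ZMod M) * c)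
  · obtain ⟨q, hq, hq2, h⟩ := H
    have h0 : q ∣ addOrderOf c := h.trans (ord_dvd_iff.2 (by
      rw [mul_left_comm, ord_dvd_iff.1 dvd_rfl, mul_zero]))
    rw [← tqFour_sq hg hi h2 hq hq2 (ev c hn) h, ← tqFour_sq hg hi h2 hq hq2
      (ev _ (by rw [ord_unit_mul, hn])) (by rwa [mul_left_comm, ord_unit_mul]), mul_left_comm]
    exact ih' q hq hq2 _ (by rw [ord_mul_of_dvd h0, hn]) t
  have key : ∀ t : (ZMod M)ˣ, ∃ s : (ZMod M)ˣ, (∀ u : (ZMod M)ˣ,
      g ((s : ZMod M) * (u * c)) = g (u * c)) ∧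
      (∀ b : ZMod M, ¬ 2 ∣ addOrderOf b → (s : ZMod M) * b = t * b) ∧
      ∀ b : ZMod M, addOrderOf b ∣ 4 → (s : ZMod M) * b = b := fun t => by
    induction t using unit_induction with
    | hmul s t h h' =>
      obtain ⟨s', a1, a2, a3⟩ := h
      obtain ⟨t', b1, b2, b3⟩ := h'
      refine ⟨s' * t', fun u => ?_, fun b hb => ?_, fun b hb => ?_⟩
      · rw [← b1 u, ← mul_assoc (t' : ZMod M), ← Units.val_mul, ← a1 (t' * u)]
        simp only [Units.val_mul, mul_assoc]
      · rw [Units.val_mul, Units.val_mul, mul_assoc, b2 b hb, a2 _ (by rwa [ord_unit_mul]),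
          mul_assoc]
      · rw [Units.val_mul, mul_assoc, b3 b hb, a3 b hb]
    | h1 => exact ⟨1, by simp⟩
    | hq q hq hqM τ hτ =>
      by_cases hq2 : q = 2
      · exact ⟨1, by simp, fun b hb => by rw [hτ b (hq2 ▸ hb)]; simp, by simp⟩
      refine ⟨τ, fun u => tqFour_one hA hg hi h2 hq hq2 hqM (ev _ (by rw [ord_unit_mul, hn]))
        (fun h => H ⟨q, hq, hq2, by rwa [mul_left_comm, ord_unit_mul] at h⟩)
        (fun c' h => ih' q hq hq2 c' (by rwa [ord_unit_mul, hn] at h)) τ hτ, fun _ _ => rfl,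
        fun b hb => hτ b fun h => hq2 ((Nat.prime_dvd_prime_iff_eq hq Nat.prime_two).1
          (hq.dvd_of_dvd_pow (n := 2) (h.trans hb)))⟩
  have h4M := h4.trans (ord_dvd c)
  have fin : ∀ t : (ZMod M)ˣ, ZMod.castHom h4M (ZMod 4) t = 1 → g ((t : ZMod M) * c) = g c :=
    fun t ht => by
      obtain ⟨s, a1, a2, a3⟩ := key t
      obtain ⟨m, hm⟩ := h4
      have hm2 : ¬ 2 ∣ m := fun ⟨k, hk⟩ => h8 ⟨k, by rw [hm, hk]; ring⟩
      have h0 : ((4 : ℕ) : ZMod M) * ((m : ZMod M) * c) = 0 := by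
        rw [← mul_assoc, ← Nat.cast_mul, ← hm, ord_dvd_iff.1 dvd_rfl]
      have e1 := a2 (((4 : ℕ) : ZMod M) * c) fun h => hm2 (h.trans (ord_dvd_iff.2 (by
        rw [mul_left_comm, h0])))
      have e2 := a3 _ (ord_dvd_iff.2 h0)
      have e3 := mul_eq_of_cast h4M (y := 1) (ht.trans (map_one _).symm) h0
      have e4 : addOrderOf (((s : ZMod M) - t) * c) = 1 :=
        Nat.eq_one_of_dvd_coprimes
          (((Nat.Prime.coprime_iff_not_dvd Nat.prime_two).2 hm2).pow_left 2)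
          (ord_dvd_iff.2 (by linear_combination e1)) (ord_dvd_iff.2 (by linear_combination e2 - e3))
      rw [AddMonoid.addOrderOf_eq_one_iff, sub_mul, sub_eq_zero] at e4
      simpa [e4] using a1 1
  have h5 : ∀ x y : ZMod 4, x * y = 1 → x = 1 ∨ -x = 1 := by decide
  rcases h5 (ZMod.castHom h4M (ZMod 4) t) (ZMod.castHom h4M (ZMod 4) (t⁻¹ : (ZMod M)ˣ)) (by
    rw [← map_mul, Units.mul_inv, map_one]) with h | h
  · exact fin t h
  · have e := h2 _ (ev c hn)
    rw [two_nsmul, ← neg_eq_iff_add_eq_zero] at e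
    rw [← e, ← fin (-t) (by rw [Units.val_neg, map_neg, h]), Units.val_neg, neg_mul, hg.neg,
      neg_neg]

theorem two_inv (h4 : 4 ∣ M) (b : ZMod M) (hb : Odd (addOrderOf b)) : g (2 * b) = g b := by
  have o4 : addOrderOf (lv M (1 : ZMod 4)) = 4 := by
    rw [addOrderOf_lv h4, ZMod.addOrderOf_one]
  set y := lv M (1 : ZMod 4)
  have y1 : 2 * y ≠ 0 := fun h => by
    have : addOrderOf y ∣ 2 := ord_dvd_iff.2 (by exact_mod_cast h)
    rw [o4] at this
    omega
  have y2 : ((2 : ℕ) : ZMod M) * (2 * y) = 0 := by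
    have : ((4 : ℕ) : ZMod M) * y = 0 := ord_dvd_iff.1 o4.dvd
    push_cast at this ⊢
    linear_combination this
  have hM2 := (by norm_num : 2 ∣ 4).trans h4
  have ht : ∀ c, g (2 * c) = g c + g (c + 2 * y) := fun c => by
    have e := hg.dist 2 Nat.prime_two hM2 c
    rw [← Finset.eq_of_subset_of_card_le (s := {0, 2 * y}) (t := tors M 2) (by
      simp only [Finset.insert_subset_iff, Finset.singleton_subset_iff, mem_tors, mul_zero, y2,
        and_self]) (by rw [card_tors hM2, Finset.card_pair y1.symm]), Finset.sum_pair y1.symm,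
      add_zero, Nat.cast_ofNat] at e
    exact e.symm
  obtain ⟨k, hk⟩ := hb
  have b0 : ((addOrderOf b : ℕ) : ZMod M) * b = 0 := ord_dvd_iff.1 dvd_rfl
  have b1 : ((addOrderOf b : ℕ) : ZMod M) * ((k + 1) * b) = 0 := by
    rw [mul_left_comm, b0, mul_zero]
  have hd := dvd_ord_add Nat.prime_two (d := addOrderOf b) (by omega) b1 y
  rw [o4] at hd
  set c := y + (k + 1) * b with hc
  have c4 : 4 ∣ addOrderOf c := (hd 2).2 dvd_rfl
  have c2 : 2 ∣ addOrderOf c := (by norm_num : 2 ∣ 4).trans c4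
  have e1 : b + 2 * y = 2 * c := by
    rw [hk] at b0
    push_cast at b0
    linear_combination -b0
  obtain ⟨t, h⟩ := same_order (ord_add_tors Nat.prime_two (b := c) (by
    have := ord_mul_of_dvd c2
    omega) y2).symm
  rw [ht b, e1, ht c, ← h, four_inv hA hg hi h2 c c4 (fun h => by
    have := (hd 3).1 h
    omega), ← two_nsmul, h2 c (even_iff_two_dvd.2 c2), add_zero]

end Pool.Agent.Tate
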