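import Pool.Agent.P.MP_2ce3e7_ag.TQDefs
import Pool.Agent.P.MP_2ce3e7_ag.LevA

/-! The geometric system. -/

set_option autoImplicit false
set_option linter.unusedSectionVars false

noncomputable section

namespace Pool.Agent.Tate

open Pool.Agent.Ferm
open Pool.Agent.P.MP_e12fcd_ag.Fermat (bern tors mem_tors)

/-- the point of order two and the Frobenius differences -/
def RE (p L : ℕ) [NeZero L] : AddSubgroup (EG (8 * L)) :=
  AddSubgroup.closure (insert (Ferm.phi (Ferm.fr (8 * L) 2 1)) (Set.range fun b : ZMod L =>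
    Ferm.phi (lv (8 * L) b) - Ferm.phi (lv (8 * L) ((p : ZMod L) * b))))

theorem exists_eg_up {M L : ℕ} [NeZero M] [NeZero L] (h : M ∣ L) :
    ∃ π : EG M →+ EG L, ∀ a : ZMod M, π (Ferm.phi a) = Ferm.phi (lv L a) := by
  refine ⟨⟨⟨fun u => ⟨u.x, lv L u.a⟩, ?_⟩, fun u v => ?_⟩, fun _ => rfl⟩
  · exact EG.ext rfl ((lv_eq_zero h).2 rfl)
  · refine EG.ext ?_ (lv_add h _ _)
    change u.x + v.x + tcl u.a v.a = u.x + v.x + tcl (lv L u.a) (lv L v.a)
    rw [upDefs_lift h, upDefs_lift h, EGroupX.tcl_lift]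

variable {p L : ℕ} [NeZero L]

theorem geo_dist {d : ℕ} (hd : d.Prime) (hdL : d ∣ L) (b : ZMod L) :
    ∑ z ∈ tors L d, Ferm.phi (lv (8 * L) (b + z)) - Ferm.phi (lv (8 * L) ((d : ZMod L) * b)) ∈
      RE p L := by
  have h : L ∣ 8 * L := dvd_mul_left L 8
  have h1 := congrArg (fun x => (x.map fun z => Ferm.phi (lv (8 * L) b + z)).sum)
    (sum_tors_lv h hdL fun z => ({z} : Multiset (ZMod (8 * L))))
  simp only [sum_map_sum, Multiset.map_singleton, Multiset.sum_singleton] at h1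
  simp only [lv_add h]
  rw [h1, phi_dist (dvd_mul_right 8 L) hd (hdL.trans h), natCast_mul_lv h, add_sub_cancel_left]
  split_ifs
  · exact AddSubgroup.subset_closure (Set.mem_insert _ _)
  · exact zero_mem _

theorem geo_kb {ι : Type} [Fintype ι] {b : ι → ZMod L} (hb : ∀ i, Adm (addOrderOf (b i)))
    (h : ∑ i, th (b i) = 0) : ∑ i, Ferm.phi (lv (8 * L) (b i)) ∈ RE p L := by
  classical
  have h8 : L ∣ 8 * L := dvd_mul_left L 8
  let N := Finset.univ.lcm fun i => addOrderOf (b i)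
  have hN : N ∣ L := Finset.lcm_dvd fun i _ => addOrderOf_dvd_iff_nsmul_eq_zero.2 (by
    rw [nsmul_eq_mul, ZMod.natCast_self, zero_mul])
  have := upDefs_ne hN
  have hA : ∀ l : ℕ, l.Prime → l ∣ 8 * N → l = 2 ∨ l % 4 = 3 := fun l hl h => by
    rcases (Nat.Prime.dvd_mul hl).1 h with h | h
    · exact Or.inl ((Nat.prime_dvd_prime_iff_eq hl Nat.prime_two).1
        (hl.dvd_of_dvd_pow (n := 3) h))
    · obtain ⟨i, -, hi⟩ := (hl.prime.dvd_finset_prod_iff _).1
        (h.trans (Finset.lcm_dvd_prod _ _))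
      exact hb i l hl hi
  have hc : ∀ i, ∃ c : ZMod N, lv L c = b i := fun i => exists_lv hN (by
    rw [← nsmul_eq_mul]
    exact addOrderOf_dvd_iff_nsmul_eq_zero.1 (Finset.dvd_lcm (Finset.mem_univ i)))
  choose c hc using hc
  have hN8 : N ∣ 8 * N := dvd_mul_left N 8
  have hNL : 8 * N ∣ 8 * L := Nat.mul_dvd_mul_left 8 hN
  have h0 : ∑ i, th (c i) = 0 := by
    ext t
    obtain ⟨u, rfl⟩ := ZMod.unitsMap_surjective hN t
    have h1 : lam hN (∑ i, th (c i)) u = 0 := by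
      rw [map_sum]
      simp only [lam_th hN, hc, h, Pi.zero_apply]
    exact (mul_eq_zero.1 h1).resolve_left (Nat.cast_ne_zero.2
      (Nat.div_pos (Nat.le_of_dvd (NeZero.pos L) hN) (NeZero.pos N)).ne')
  have h1 : ∑ i, th (lv (8 * N) (c i)) = 0 := by
    simp only [← lam_th hN8]
    rw [← map_sum, h0, map_zero]
  set s := ∑ i, lv (8 * N) (c i) with hs
  have h2 : 2 * s = 0 := by
    have := congrArg (fun y => ((y 1 : ℤ) : ZMod (8 * N))) h1
    simp only [Finset.sum_apply, Int.cast_sum, th_one, Pi.zero_apply, Int.cast_zero] at this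
    rw [hs, Finset.mul_sum, this]
  have key := arith (dvd_mul_right 8 N) hA (Ferm.rels (dvd_mul_right 8 N) hA)
    (s ::ₘ Finset.univ.val.map fun i => lv (8 * N) (c i)) 0
    (by rw [Multiset.sum_cons, ← h2, two_mul]; rfl) fun t ht => by
      have h3 := congrFun h1 (ZMod.unitOfCoprime t ht)
      simp only [Finset.sum_apply, th, ZMod.coe_unitOfCoprime, Pi.zero_apply] at h3
      rw [Multiset.map_cons, Multiset.sum_cons, P.MP_e12fcd_ag.Fermat.bern_two_torsion
        (y := (t : ZMod (8 * N)) * s) (by rw [mul_left_comm, h2, mul_zero]), Multiset.map_map]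
      simp only [Pi.zero_apply, zero_mul, Finset.sum_const_zero, mul_zero, add_zero, neg_zero,
        zero_add, Function.comp_def]
      change ∑ i, -bern ((t : ZMod (8 * N)) * lv (8 * N) (c i)) = 0
      rw [Finset.sum_neg_distrib, h3, neg_zero]
  simp only [Pi.zero_apply, zero_smul, Finset.sum_const_zero, add_zero, Multiset.map_cons,
    Multiset.sum_cons, Multiset.map_map, Function.comp_def] at key
  change Ferm.phi s + ∑ i, Ferm.phi (lv (8 * N) (c i)) = 0 at key
  obtain ⟨π, hπ⟩ := exists_eg_up hNL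
  have h4 := congrArg π key
  rw [map_add, map_sum, map_zero, hπ] at h4
  simp only [hπ, lv_lv hNL hN8] at h4
  simp only [← hc, lv_lv h8 hN]
  rw [eq_neg_of_add_eq_zero_right h4]
  refine neg_mem ?_
  have h5 : lv (8 * L) s ∈ tors (8 * L) 2 := by
    rw [mem_tors, natCast_mul_lv hNL, Nat.cast_ofNat, h2, lv_eq_zero hNL]
  rw [EGroupX.tors_two ((by norm_num : 4 ∣ 8).mul_right L), Finset.mem_insert,
    Finset.mem_singleton] at h5
  rcases h5 with h5 | h5 <;> rw [h5]
  · exact zero_mem _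
  · exact AddSubgroup.subset_closure (Set.mem_insert _ _)

theorem geo_sys (p L : ℕ) [NeZero L] : ∃ (Y : Type) (_ : AddCommGroup Y) (g : ZMod L → Y),
    Sys p L g ∧ ∀ (ι : Type) [Fintype ι] (b : ι → ZMod L), ∑ i, g (b i) = 0 →
      ∑ i, Ferm.phi (lv (8 * L) (b i)) ∈ RE p L := by
  classical
  have h8 : L ∣ 8 * L := dvd_mul_left L 8
  let Φ : (ZMod L → ℤ) →+ EG (8 * L) :=
    (Fintype.linearCombination ℤ fun b : ZMod L => Ferm.phi (lv (8 * L) b)).toAddMonoidHom
  have hΦ : ∀ b, Φ (Pi.single b 1) = Ferm.phi (lv (8 * L) b) := fun b => by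
    simp [Φ]
  let π := QuotientAddGroup.mk' ((RE p L).comap Φ)
  have hπ : ∀ η, π η = 0 ↔ Φ η ∈ RE p L := fun η => QuotientAddGroup.eq_zero_iff η
  have hs : ∀ (ι : Type) [Fintype ι] (b : ι → ZMod L), ∑ i, π (Pi.single (b i) 1) = 0 ↔
      ∑ i, Ferm.phi (lv (8 * L) (b i)) ∈ RE p L := fun ι _ b => by
    rw [← map_sum, hπ, map_sum]
    simp only [hΦ]
  refine ⟨_, inferInstance, fun b => π (Pi.single b 1), ⟨⟨fun b => ?_, fun d hd hdL b => ?_⟩,
    fun y => ?_, fun ι _ b hb h => (hs ι b).2 (geo_kb hb h)⟩, fun ι _ b => (hs ι b).1⟩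
  · rw [eq_neg_iff_add_eq_zero, ← map_add, hπ, map_add, hΦ, hΦ, lv_neg h8, phi_neg,
      neg_add_cancel]
    exact zero_mem _
  · rw [← sub_eq_zero, ← map_sum, ← map_sub, hπ, map_sub, map_sum]
    simp only [hΦ]
    exact geo_dist hd hdL b
  · rw [eq_comm, ← sub_eq_zero, ← map_sub, hπ, map_sub, hΦ, hΦ]
    exact AddSubgroup.subset_closure (Set.mem_insert_of_mem _ ⟨y, rfl⟩)

end Pool.Agent.Tate
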