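import Pool.Agent.P.MP_2ce3e7_ag.UpChebA
import Pool.Agent.P.MP_3c83d0_ag.ElPlace

/-! A number field with many primes of degree one. -/

set_option autoImplicit false

noncomputable section

namespace Pool.Agent.Tate

open NumberField
open Pool.Agent.P.MP_3c83d0_ag

/-- algebraic integers are finite at every place -/
theorem upChebB_int {L Ω : Type} [Field L] [Field Ω] (P : Place L Ω) {x : L}
    (hx : IsIntegral ℤ x) : x ∈ P.O := by
  let V : ValuationSubring L := ⟨P.O, P.tot⟩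
  have h1 : IsIntegral V x := hx.tower_top
  obtain ⟨y, hy⟩ := IsIntegrallyClosed.isIntegral_iff.1 h1
  rw [← hy]
  exact y.2

/-- reduction is injective on roots of unity of order prime to the characteristic -/
theorem upChebB_root {L Ω : Type} [Field L] [Field Ω] {P : Place L Ω} {N : ℕ} (hN : (N : Ω) ≠ 0)
    {u v : L} {t : Ω} (hu : P.To u t) (hv : P.To v t) (ht : t ≠ 0) (h : u ^ N = v ^ N) :
    u = v := by
  have hv0 : v ≠ 0 := hv.ne_zero ht
  have hw : P.To (u / v) 1 := (hu.div hv ht).congr rfl (div_self ht)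
  have hw1 : (u / v) ^ N = 1 := by rw [div_pow, h, div_self (pow_ne_zero _ hv0)]
  by_contra hne
  have h1 : u / v - 1 ≠ 0 := fun e => hne ((div_eq_one_iff_eq hv0).1 (sub_eq_zero.1 e))
  have h2 : ∑ i ∈ Finset.range N, (u / v) ^ i = 0 := by
    have := geom_sum_mul (u / v) N
    rw [hw1, sub_self] at this
    exact (mul_eq_zero.1 this).resolve_right h1
  have h3 := Place.to_sum (P := P) (Finset.range N) (f := fun i => (u / v) ^ i)
    (g := fun i => (1 : Ω) ^ i) fun i _ => hw.pow i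
  rw [h2] at h3
  have h4 := h3.uniq Place.to_zero
  simp only [one_pow, Finset.sum_const, Finset.card_range, nsmul_eq_mul, mul_one] at h4
  exact hN h4

theorem upChebB_den {K : Type} [Field K] [NumberField K] (S : Set K) {x : K}
    (hx : x ∈ IntermediateField.adjoin ℚ S) :
    ∃ n : ℕ, n ≠ 0 ∧ (n : K) * x ∈ Subring.closure S := by
  have h1 : x ∈ Algebra.adjoin ℚ S := by
    rw [← IntermediateField.adjoin_toSubalgebra]
    exact hx
  clear hx
  induction h1 using Algebra.adjoin_induction with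
  | mem x hx => exact ⟨1, one_ne_zero, by simpa using Subring.subset_closure hx⟩
  | algebraMap q =>
    refine ⟨q.den, q.den_nz, ?_⟩
    have : (q.den : K) * algebraMap ℚ K q = (q.num : K) := by
      rw [eq_ratCast, mul_comm]
      exact_mod_cast Rat.mul_den_eq_num q
    rw [this]
    exact intCast_mem _ _
  | add x y _ _ hx hy =>
    obtain ⟨n, hn, hx⟩ := hx
    obtain ⟨m, hm, hy⟩ := hy
    refine ⟨n * m, mul_ne_zero hn hm, ?_⟩
    have := add_mem (mul_mem (natCast_mem _ m) hx) (mul_mem (natCast_mem _ n) hy)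
    convert this using 1
    push_cast
    ring
  | mul x y _ _ hx hy =>
    obtain ⟨n, hn, hx⟩ := hx
    obtain ⟨m, hm, hy⟩ := hy
    refine ⟨n * m, mul_ne_zero hn hm, ?_⟩
    have := mul_mem hx hy
    convert this using 1
    push_cast
    ring

theorem upChebB_index {K : Type} [Field K] [NumberField K] (S : Set K) :
    ∃ D : ℕ, D ≠ 0 ∧ ∀ x : 𝓞 (IntermediateField.adjoin ℚ S),
      (D : K) * ((x : IntermediateField.adjoin ℚ S) : K) ∈ Subring.closure S := by
  classical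
  obtain ⟨s, hs⟩ := Module.Finite.fg_top (R := ℤ) (M := 𝓞 (IntermediateField.adjoin ℚ S))
  choose n hn0 hn using fun x : 𝓞 (IntermediateField.adjoin ℚ S) =>
    upChebB_den S (x : IntermediateField.adjoin ℚ S).2
  refine ⟨∏ x ∈ s, n x, Finset.prod_ne_zero_iff.2 fun x _ => hn0 x, fun x => ?_⟩
  have hx : x ∈ Submodule.span ℤ (s : Set _) := hs ▸ Submodule.mem_top
  induction hx using Submodule.span_induction with
  | mem x hx =>
    obtain ⟨k, hk⟩ := Finset.dvd_prod_of_mem n hx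
    rw [hk]
    have := mul_mem (natCast_mem _ k) (hn x)
    convert this using 1
    push_cast
    ring
  | zero => simp
  | add x y _ _ hx hy =>
    have := add_mem hx hy
    convert this using 1
    push_cast
    ring
  | smul a x _ hx =>
    have := mul_mem (intCast_mem _ a) hx
    have h1 : (((a • x : 𝓞 (IntermediateField.adjoin ℚ S)) : IntermediateField.adjoin ℚ S) : K) =
        (a : K) * ((x : IntermediateField.adjoin ℚ S) : K) := by
      have := map_zsmul ((algebraMap (IntermediateField.adjoin ℚ S) K).comp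
        (algebraMap (𝓞 (IntermediateField.adjoin ℚ S)) (IntermediateField.adjoin ℚ S))) a x
      exact this.trans (zsmul_eq_mul _ _)
    rw [h1]
    convert this using 1
    ring

theorem upChebB_fix {K L Ω : Type} [Field K] [Field L] [Field Ω] {r : ℕ} [Fact r.Prime]
    [CharP Ω r] (P : Place L Ω) (γ : K →+* L) {S : Set K}
    (hS : ∀ x ∈ S, ∃ t, P.To (γ x) t ∧ t ^ r = t) {x : K} (hx : x ∈ Subring.closure S) :
    ∃ t, P.To (γ x) t ∧ t ^ r = t := by
  have hr : r.Prime := Fact.out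
  induction hx using Subring.closure_induction with
  | mem x hx => exact hS x hx
  | zero => exact ⟨0, by rw [map_zero]; exact Place.to_zero, zero_pow hr.ne_zero⟩
  | one => exact ⟨1, by rw [map_one]; exact Place.to_one, one_pow _⟩
  | add x y _ _ hx hy =>
    obtain ⟨t, ht, ht'⟩ := hx
    obtain ⟨u, hu, hu'⟩ := hy
    exact ⟨t + u, by rw [map_add]; exact ht.add hu, by rw [add_pow_char, ht', hu']⟩
  | neg x _ hx =>
    obtain ⟨t, ht, ht'⟩ := hx
    refine ⟨-t, by rw [map_neg]; exact ht.neg, ?_⟩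
    have := map_neg (frobenius Ω r) t
    rw [frobenius_def, frobenius_def, ht'] at this
    exact this
  | mul x y _ _ hx hy =>
    obtain ⟨t, ht, ht'⟩ := hx
    obtain ⟨u, hu, hu'⟩ := hy
    exact ⟨t * u, by rw [map_mul]; exact ht.mul hu, by rw [mul_pow, ht', hu']⟩

theorem upChebB_pow {Ω : Type} [Monoid Ω] {z : Ω} {N a b : ℕ} (hz : z ^ N = 1)
    (h : a ≡ b [MOD N]) : z ^ a = z ^ b := by
  rw [pow_eq_pow_mod a hz, pow_eq_pow_mod b hz, h]

theorem upChebB_core {p l N c : ℕ} (hp : p.Prime) (hl : l.Prime) (h2 : l ≠ 2) (hN : N ≠ 0)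
    (hlN : l ∣ N) (hc : c * c ≡ 1 [MOD N]) {K : Type} [Field K] [NumberField K] {ζ θ : K}
    (hζ : ζ ^ N = 1) (hθ : θ ^ l = p)
    (hgen : ∀ γ γ' : K →ₐ[ℚ] ℂ, γ ζ = γ' ζ → γ θ = γ' θ → γ = γ')
    (hdeg : Module.finrank ℚ K = l * N.totient) :
    ∃ (E : Type) (_ : Field E) (_ : NumberField E) (D : ℕ), D ≠ 0 ∧
      ∀ r : ℕ, r.Prime → ¬ r ∣ D → r ≡ c [MOD N] → r ≡ 1 [MOD l] →
        (∃ y : ZMod r, y ^ l = p) → 3 * N.totient ≤ 2 * nI E r := by
  classical
  let S : Set K := {θ, ζ + ζ ^ c, ζ ^ (1 + c)}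
  let E := IntermediateField.adjoin ℚ S
  obtain ⟨D, hD, hDS⟩ := upChebB_index S
  refine ⟨E, inferInstance, inferInstance, D * N * p,
    mul_ne_zero (mul_ne_zero hD hN) hp.ne_zero, ?_⟩
  rintro r hr hrD hrc hrl ⟨y0, hy0⟩
  have : Fact r.Prime := ⟨hr⟩
  let Ω := AlgebraicClosure (ZMod r)
  have hD' : (D : Ω) ≠ 0 := fun e => hrD
    (((CharP.cast_eq_zero_iff Ω r D).1 e).mul_right N |>.mul_right p)
  have hN' : (N : Ω) ≠ 0 := fun e => hrD
    (((CharP.cast_eq_zero_iff Ω r N).1 e).mul_left D |>.mul_right p)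
  have hp' : (p : Ω) ≠ 0 := fun e => hrD
    (((CharP.cast_eq_zero_iff Ω r p).1 e).mul_left (D * N))
  have hl' : (l : Ω) ≠ 0 := fun e => hN' (by
    obtain ⟨k, rfl⟩ := hlN
    rw [Nat.cast_mul, e, zero_mul])
  obtain ⟨P, -⟩ := exists_place (Int.castRingHom ℂ) (Int.castRingHom Ω) (fun a ha => by
    have : a = 0 := by simpa using ha
    rw [this, map_zero])
  let ι : 𝓞 E →+* K := (algebraMap E K).comp (algebraMap (𝓞 E) E)
  have hι : ∀ x : 𝓞 E, ι x = ((x : E) : K) := fun x => rfl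
  have hmem : ∀ (γ : K →ₐ[ℚ] ℂ) (x : 𝓞 E), (γ.toRingHom.comp ι) x ∈ P.O := fun γ x =>
    upChebB_int P (map_isIntegral_int (γ.toRingHom.comp ι) (RingOfIntegers.isIntegral x))
  let ψ : (K →ₐ[ℚ] ℂ) → (𝓞 E →+* Ω) := fun γ =>
    P.ev.comp ((γ.toRingHom.comp ι).codRestrict P.O (hmem γ))
  have hψ : ∀ γ x, P.To (γ (ι x)) (ψ γ x) := fun γ x => ⟨hmem γ x, rfl⟩
  have hζi : IsIntegral ℤ ζ := IsIntegral.of_pow (Nat.pos_of_ne_zero hN) (hζ ▸ isIntegral_one)
  have hθi : IsIntegral ℤ θ := IsIntegral.of_pow hl.pos (by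
    rw [hθ]
    exact_mod_cast isIntegral_algebraMap (R := ℤ) (A := K) (x := (p : ℤ)))
  have hz : ∀ γ : K →ₐ[ℚ] ℂ, ∃ z, P.To (γ ζ) z ∧ z ^ N = 1 := fun γ => by
    obtain ⟨z, hz⟩ := Place.to_of_mem (upChebB_int P (map_isIntegral_int γ hζi))
    refine ⟨z, hz, ?_⟩
    have := hz.pow N
    rw [← map_pow, hζ, map_one] at this
    exact this.uniq Place.to_one
  have hy : ∀ γ : K →ₐ[ℚ] ℂ, ∃ y, P.To (γ θ) y ∧ y ^ l = p := fun γ => by
    obtain ⟨y, hy⟩ := Place.to_of_mem (upChebB_int P (map_isIntegral_int γ hθi))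
    refine ⟨y, hy, ?_⟩
    have := hy.pow l
    rw [← map_pow, hθ, map_natCast] at this
    exact this.uniq (Place.to_natCast p)
  choose z hz hzN using hz
  choose y hy hyl using hy
  have hz1 : ∀ γ : K →ₐ[ℚ] ℂ, P.To (γ (ζ + ζ ^ c)) (z γ + z γ ^ c) := fun γ => by
    rw [map_add, map_pow]
    exact (hz γ).add ((hz γ).pow c)
  have hz2 : ∀ γ : K →ₐ[ℚ] ℂ, P.To (γ (ζ ^ (1 + c))) (z γ ^ (1 + c)) := fun γ => by
    rw [map_pow]
    exact (hz γ).pow _
  have hy0' : (algebraMap (ZMod r) Ω y0) ^ l = p := by rw [← map_pow, hy0, map_natCast]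
  have hy0r : (algebraMap (ZMod r) Ω y0) ^ r = algebraMap (ZMod r) Ω y0 := by
    rw [← map_pow, ZMod.pow_card]
  have hy00 : algebraMap (ZMod r) Ω y0 ≠ 0 := fun e => hp' (by
    rw [← hy0', e, zero_pow hl.ne_zero])
  have hcr : c * r ≡ 1 [MOD N] := (hrc.mul_left c).trans hc
  have hfix : ∀ γ x, ψ γ x ^ r = ψ γ x := fun γ x => by
    obtain ⟨t, ht, ht'⟩ := upChebB_fix (r := r) P γ.toRingHom (S := S) (by
      rintro x (rfl | rfl | rfl)
      · refine ⟨y γ, hy γ, ?_⟩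
        have h1 : (y γ / algebraMap (ZMod r) Ω y0) ^ l = 1 := by
          rw [div_pow, hyl, hy0', div_self hp']
        have h3 := upChebB_pow h1 hrl
        rw [pow_one, div_pow, hy0r] at h3
        exact (div_left_inj' hy00).1 h3
      · refine ⟨_, hz1 γ, ?_⟩
        rw [add_pow_char, ← pow_mul, upChebB_pow (hzN γ) hrc, upChebB_pow (hzN γ) hcr, pow_one,
          add_comm]
      · refine ⟨_, hz2 γ, ?_⟩
        rw [← pow_mul]
        refine upChebB_pow (hzN γ) ?_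
        rw [add_mul, one_mul, add_comm 1 c]
        exact hrc.add hcr) (hDS x)
    have h1 : P.To (γ.toRingHom ((D : K) * ((x : E) : K))) ((D : Ω) * ψ γ x) := by
      rw [map_mul, map_natCast]
      exact (Place.to_natCast D).mul (hψ γ x)
    have h3 : (D : Ω) ^ r = D := map_natCast (frobenius Ω r) D
    rw [ht.uniq h1, mul_pow, h3] at ht'
    exact mul_left_cancel₀ hD' ht'
  have hle := card_le_nI (E := E) (r := r) (Finset.univ.image ψ) (by
    intro φ hφ
    obtain ⟨γ, -, rfl⟩ := Finset.mem_image.1 hφ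
    exact hfix γ)
  have hel : ∀ x ∈ S, IsIntegral ℤ x → ∀ γ γ' t t', ψ γ = ψ γ' → P.To (γ x) t →
      P.To (γ' x) t' → t = t' := fun x hx hi γ γ' t t' e h h' => by
    let x' : E := ⟨x, IntermediateField.subset_adjoin ℚ S hx⟩
    have hi' : IsIntegral ℤ x' :=
      (isIntegral_algHom_iff (E.val.restrictScalars ℤ) Subtype.val_injective).1 hi
    have h1 := hψ γ ⟨x', hi'⟩
    have h3 := hψ γ' ⟨x', hi'⟩
    rw [← e] at h3
    exact (h.uniq h1).trans (h'.uniq h3).symm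
  have hpowN : ∀ γ : K →ₐ[ℚ] ℂ, γ ζ ^ N = 1 := fun γ => by rw [← map_pow, hζ, map_one]
  have hz0 : ∀ γ, z γ ≠ 0 := fun γ e => by
    have := hzN γ
    rw [e, zero_pow hN] at this
    exact zero_ne_one this
  have hθe : ∀ γ γ', ψ γ = ψ γ' → γ θ = γ' θ := fun γ γ' e => by
    have h1 := hel θ (by simp [S]) hθi γ γ' _ _ e (hy γ) (hy γ')
    refine upChebB_root hl' (hy γ) (h1 ▸ hy γ') (fun e0 => hp' ?_) ?_
    · rw [← hyl γ, e0, zero_pow hl.ne_zero]
    · rw [← map_pow, ← map_pow, hθ, map_natCast, map_natCast]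
  have hζe : ∀ γ γ', ψ γ = ψ γ' → γ' ζ = γ ζ ∨ γ' ζ = γ ζ ^ c := fun γ γ' e => by
    have h1 := hel _ (by simp [S]) (hζi.add (hζi.pow c)) γ γ' _ _ e (hz1 γ) (hz1 γ')
    have h3 := hel _ (by simp [S]) (hζi.pow (1 + c)) γ γ' _ _ e (hz2 γ) (hz2 γ')
    have h4 : (z γ' - z γ) * (z γ' - z γ ^ c) = 0 := by
      rw [pow_add, pow_add, pow_one, pow_one] at h3
      linear_combination (-(z γ')) * h1 + h3
    rcases mul_eq_zero.1 h4 with h5 | h5
    · refine Or.inl (upChebB_root hN' (hz γ') ((sub_eq_zero.1 h5).symm ▸ hz γ) (hz0 γ') ?_)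
      rw [hpowN, hpowN]
    · refine Or.inr (upChebB_root hN' (hz γ') ((sub_eq_zero.1 h5).symm ▸ (hz γ).pow c)
        (hz0 γ') ?_)
      rw [hpowN, ← pow_mul, mul_comm, pow_mul, hpowN, one_pow]
  have hfib := Finset.card_le_mul_card_image (f := ψ) Finset.univ 2 (by
    intro φ hφ
    obtain ⟨γ, -, rfl⟩ := Finset.mem_image.1 hφ
    refine le_trans (Finset.card_le_card_of_injOn (t := {γ ζ, γ ζ ^ c}) (fun γ' => γ' ζ)
      (fun γ' h' => ?_) fun γ1 h1 γ2 h3 e => ?_) Finset.card_le_two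
    · have h1 : ψ γ' = ψ γ := (Finset.mem_filter.1 h').2
      simpa using hζe γ γ' h1.symm
    · have h4 : ψ γ1 = ψ γ := (Finset.mem_filter.1 h1).2
      have h5 : ψ γ2 = ψ γ := (Finset.mem_filter.1 h3).2
      exact hgen _ _ e (hθe _ _ (h4.trans h5.symm)))
  rw [Finset.card_univ, AlgHom.card, hdeg] at hfib
  have h3 : 3 ≤ l := by
    have := hl.two_le
    omega
  calc 3 * N.totient ≤ l * N.totient := Nat.mul_le_mul_right _ h3
    _ ≤ _ := hfib
    _ ≤ _ := Nat.mul_le_mul_left _ hle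

theorem cheb_field {p l N c : ℕ} (hp : p.Prime) (hl : l.Prime) (h2 : l ≠ 2) (hN : N ≠ 0)
    (hlN : l ∣ N) (hc : c * c ≡ 1 [MOD N]) :
    ∃ (E : Type) (_ : Field E) (_ : NumberField E) (D : ℕ), D ≠ 0 ∧
      ∀ r : ℕ, r.Prime → ¬ r ∣ D → r ≡ c [MOD N] → r ≡ 1 [MOD l] →
        (∃ y : ZMod r, y ^ l = p) → 3 * N.totient ≤ 2 * nI E r := by
  have hζ := Complex.isPrimitiveRoot_exp N hN
  set ζ := Complex.exp (2 * Real.pi * Complex.I / N)
  obtain ⟨θ, hθ⟩ := IsAlgClosed.exists_pow_nat_eq (p : ℂ) hl.pos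
  have hdeg := finrank_kummer hp hl h2 hN hζ hθ
  let K := IntermediateField.adjoin ℚ ({ζ, θ} : Set ℂ)
  have : FiniteDimensional ℚ K := Module.finite_of_finrank_pos (by
    rw [hdeg]
    exact Nat.mul_pos hl.pos (Nat.totient_pos.2 (Nat.pos_of_ne_zero hN)))
  have : NumberField K := ⟨⟩
  refine upChebB_core hp hl h2 hN hlN hc (K := K)
    (ζ := ⟨ζ, IntermediateField.subset_adjoin ℚ _ (by simp)⟩)
    (θ := ⟨θ, IntermediateField.subset_adjoin ℚ _ (by simp)⟩)
    (Subtype.ext hζ.pow_eq_one) (Subtype.ext hθ) (fun γ γ' h1 h3 => ?_) hdeg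
  refine IntermediateField.adjoin_algHom_ext ℚ ?_
  rintro x (rfl | rfl)
  · exact h1
  · exact h3

end Pool.Agent.Tate
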