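import Pool.Agent.P.MP_2ce3e7_ag.Core

/-! The density of primes with many prime factors of degree one. -/

set_option autoImplicit false

noncomputable section

namespace Pool.Agent.Tate

open ArithmeticFunction ArithmeticFunction.vonMangoldt

/-- one step of the telescoping bound for negative powers -/
theorem upChebC_step {t : ℝ} (ht : 0 < t) (j : ℕ) :
    t ^ (-(1 + (2 : ℝ)⁻¹ ^ j)) + (2 : ℝ)⁻¹ ^ (j + 1) * (Real.log t * t ^ (-(1 + (2 : ℝ)⁻¹ ^ j)))
      ≤ t ^ (-(1 + (2 : ℝ)⁻¹ ^ (j + 1))) := by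
  have h1 : -(1 + (2 : ℝ)⁻¹ ^ (j + 1)) = -(1 + (2 : ℝ)⁻¹ ^ j) + (2 : ℝ)⁻¹ ^ (j + 1) := by
    rw [pow_succ]; ring
  rw [h1, Real.rpow_add ht, Real.rpow_def_of_pos ht ((2 : ℝ)⁻¹ ^ (j + 1))]
  have h2 := Real.add_one_le_exp (Real.log t * (2 : ℝ)⁻¹ ^ (j + 1))
  have h3 : 0 < t ^ (-(1 + (2 : ℝ)⁻¹ ^ j)) := Real.rpow_pos_of_pos ht _
  nlinarith [mul_le_mul_of_nonneg_left h2 h3.le]

/-- the telescoped bound -/
theorem upChebC_tel {t : ℝ} (ht : 0 < t) (j : ℕ) :
    ∑ i ∈ Finset.range j, (2 : ℝ)⁻¹ ^ (i + 1) * (Real.log t * t ^ (-(1 + (2 : ℝ)⁻¹ ^ i)))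
      ≤ t ^ (-(1 + (2 : ℝ)⁻¹ ^ j)) := by
  induction j with
  | zero => simpa using (Real.rpow_pos_of_pos ht _).le
  | succ j ih =>
    rw [Finset.sum_range_succ]
    have := upChebC_step ht j
    linarith

/-- the logarithmically weighted sum over the primes of the class -/
theorem upChebC_log {N : ℕ} [NeZero N] {c : ZMod N} (hc : IsUnit c) (B : ℕ) :
    ∃ C : ℝ, 0 ≤ C ∧ ∀ x : ℝ, 1 < x → x ≤ 2 →
      Summable (fun n : ℕ => if n.Prime ∧ B < n ∧ (n : ZMod N) = c then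
        Real.log n * (n : ℝ) ^ (-x) else 0) ∧
      (N.totient : ℝ)⁻¹ / (x - 1) - C ≤ ∑' n : ℕ, (if n.Prime ∧ B < n ∧ (n : ZMod N) = c then
        Real.log n * (n : ℝ) ^ (-x) else 0) := by
  obtain ⟨C0, hC0⟩ := LSeries_residueClass_lower_bound hc
  have hg1 := summable_residueClass_non_primes_div c
  have hg2 : Summable (fun n : ℕ => if n ≤ B then Real.log n else 0) := by
    refine summable_of_ne_finset_zero (s := Finset.range (B + 1)) fun n hn => ?_
    rw [Finset.mem_range] at hn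
    rw [if_neg (by omega)]
  have hg := hg1.add hg2
  set g : ℕ → ℝ := fun n => (if n.Prime then 0 else residueClass c n) / n +
    (if n ≤ B then Real.log n else 0) with hgdef
  refine ⟨|C0 + ∑' n, g n|, abs_nonneg _, fun x hx1 hx2 => ?_⟩
  have hs : Summable fun n : ℕ => residueClass c n / (n : ℝ) ^ x :=
    LSeries.summable_real_of_abscissaOfAbsConv_lt
      ((abscissaOfAbsConv_residueClass_le_one c).trans_lt (by exact_mod_cast hx1))
  have hprime : ∀ n : ℕ, n.Prime → (n : ZMod N) = c → residueClass c n = Real.log n := by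
    intro n hn hnc
    have : n ∈ {n : ℕ | (n : ZMod N) = c} := hnc
    simp only [residueClass, Set.indicator_of_mem this, vonMangoldt_apply_prime hn]
  have hS : Summable (fun n : ℕ => if n.Prime ∧ B < n ∧ (n : ZMod N) = c then
        Real.log n * (n : ℝ) ^ (-x) else 0) := by
    refine Summable.of_nonneg_of_le (fun n => ?_) (fun n => ?_) hs
    · split_ifs with h
      · exact mul_nonneg (Real.log_natCast_nonneg n) (Real.rpow_nonneg (Nat.cast_nonneg n) _)
      · exact le_rfl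
    · split_ifs with h
      · rw [hprime n h.1 h.2.2, Real.rpow_neg (Nat.cast_nonneg n), div_eq_mul_inv]
      · exact div_nonneg (residueClass_nonneg c n) (Real.rpow_nonneg (Nat.cast_nonneg n) _)
  refine ⟨hS, ?_⟩
  have h1 := hC0 (x := x) ⟨hx1, hx2⟩
  have h2 : ∑' n : ℕ, residueClass c n / (n : ℝ) ^ x ≤
      ∑' n : ℕ, ((if n.Prime ∧ B < n ∧ (n : ZMod N) = c then
        Real.log n * (n : ℝ) ^ (-x) else 0) + g n) := by
    refine Summable.tsum_le_tsum (fun n => ?_) hs (hS.add hg)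
    rcases Nat.eq_zero_or_pos n with rfl | hn0
    · simp [hgdef]
    have hn1 : (1 : ℝ) ≤ n := by exact_mod_cast hn0
    have hpow : (n : ℝ) ≤ (n : ℝ) ^ x := by
      have := Real.rpow_le_rpow_of_exponent_le hn1 hx1.le
      rwa [Real.rpow_one] at this
    have hl := Real.log_natCast_nonneg n
    have hr := residueClass_nonneg c n
    simp only [hgdef]
    by_cases hp : n.Prime
    · rw [if_pos hp, zero_div, zero_add]
      by_cases hnc : (n : ZMod N) = c
      · rw [hprime n hp hnc]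
        by_cases hB : B < n
        · rw [if_pos ⟨hp, hB, hnc⟩, if_neg (by omega), add_zero,
            Real.rpow_neg (Nat.cast_nonneg n), div_eq_mul_inv]
        · rw [if_neg (fun h => hB h.2.1), if_pos (by omega), zero_add]
          exact div_le_self hl (hn1.trans hpow)
      · have : n ∉ {n : ℕ | (n : ZMod N) = c} := hnc
        have h0 : residueClass c n = 0 := by
          simp only [residueClass, Set.indicator_of_notMem this]
        rw [h0, zero_div, if_neg (fun h => hnc h.2.2), zero_add]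
        split_ifs
        · exact hl
        · exact le_rfl
    · rw [if_neg hp, if_neg (fun h => hp h.1), zero_add]
      have h3 : residueClass c n / (n : ℝ) ^ x ≤ residueClass c n / n :=
        div_le_div_of_nonneg_left hr (by linarith) hpow
      have h4 : (0 : ℝ) ≤ if n ≤ B then Real.log n else 0 := by
        split_ifs
        · exact hl
        · exact le_rfl
      linarith
  rw [hS.tsum_add hg] at h2
  have h3 := le_abs_self (C0 + ∑' n, g n)
  linarith

/-- lower bound for the sum over the primes of a residue class -/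
theorem prime_sum_lower {N : ℕ} [NeZero N] {c : ZMod N} (hc : IsUnit c) (B : ℕ) :
    ∃ C : ℝ, ∀ j : ℕ, ∃ R : Finset ℕ, (∀ r ∈ R, r.Prime ∧ B < r ∧ (r : ZMod N) = c) ∧
      (j : ℝ) / (2 * N.totient) - C ≤ ∑ r ∈ R, (r : ℝ) ^ (-(1 + (2 : ℝ)⁻¹ ^ j)) := by
  obtain ⟨C, hC0, hC⟩ := upChebC_log hc B
  refine ⟨C + 1, fun j => ?_⟩
  have hx : ∀ i : ℕ, (1 : ℝ) < 1 + (2 : ℝ)⁻¹ ^ i ∧ 1 + (2 : ℝ)⁻¹ ^ i ≤ 2 := by
    intro i
    have h1 : (0 : ℝ) < (2 : ℝ)⁻¹ ^ i := by positivity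
    have h2 : (2 : ℝ)⁻¹ ^ i ≤ 1 := pow_le_one₀ (by norm_num) (by norm_num)
    constructor <;> linarith
  set F : ℕ → ℕ → ℝ := fun i n => if n.Prime ∧ B < n ∧ (n : ZMod N) = c then
    Real.log n * (n : ℝ) ^ (-(1 + (2 : ℝ)⁻¹ ^ i)) else 0 with hF
  have hFs : ∀ i, Summable (F i) := fun i => (hC _ (hx i).1 (hx i).2).1
  have hFl : ∀ i, (N.totient : ℝ)⁻¹ / 2 - (2 : ℝ)⁻¹ ^ (i + 1) * C ≤
      (2 : ℝ)⁻¹ ^ (i + 1) * ∑' n, F i n := by
    intro i
    have h1 := (hC _ (hx i).1 (hx i).2).2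
    have h2 : (0 : ℝ) < (2 : ℝ)⁻¹ ^ i := by positivity
    have h3 := mul_le_mul_of_nonneg_left h1 (by positivity : (0 : ℝ) ≤ (2 : ℝ)⁻¹ ^ (i + 1))
    have h4 : (2 : ℝ)⁻¹ ^ (i + 1) * ((N.totient : ℝ)⁻¹ / (1 + (2 : ℝ)⁻¹ ^ i - 1)) =
        (N.totient : ℝ)⁻¹ / 2 := by
      rw [add_sub_cancel_left, pow_succ]
      field_simp
    rw [mul_sub, h4] at h3
    exact h3
  have hsum : HasSum (fun n => ∑ i ∈ Finset.range j, (2 : ℝ)⁻¹ ^ (i + 1) * F i n)
      (∑ i ∈ Finset.range j, (2 : ℝ)⁻¹ ^ (i + 1) * ∑' n, F i n) :=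
    hasSum_sum fun i _ => (hFs i).hasSum.mul_left _
  have hgeo : ∀ k : ℕ, ∑ i ∈ Finset.range k, (2 : ℝ)⁻¹ ^ (i + 1) = 1 - (2 : ℝ)⁻¹ ^ k := by
    intro k
    induction k with
    | zero => simp
    | succ k ih => rw [Finset.sum_range_succ, ih, pow_succ]; ring
  have hlow : (j : ℝ) / (2 * N.totient) - C ≤
      ∑ i ∈ Finset.range j, (2 : ℝ)⁻¹ ^ (i + 1) * ∑' n, F i n := by
    refine le_trans ?_ (Finset.sum_le_sum fun i _ => hFl i)
    rw [Finset.sum_sub_distrib, ← Finset.sum_mul, hgeo, Finset.sum_const, Finset.card_range,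
      nsmul_eq_mul]
    have h2 : (0 : ℝ) < (2 : ℝ)⁻¹ ^ j := by positivity
    have h3 : (j : ℝ) / (2 * N.totient) = j * ((N.totient : ℝ)⁻¹ / 2) := by
      rw [div_eq_mul_inv, mul_inv]; ring
    rw [h3]
    nlinarith [mul_nonneg h2.le hC0]
  have hev := (hsum.eventually (lt_mem_nhds (show (j : ℝ) / (2 * N.totient) - (C + 1) <
    ∑ i ∈ Finset.range j, (2 : ℝ)⁻¹ ^ (i + 1) * ∑' n, F i n by linarith))).exists
  obtain ⟨s, hs⟩ := hev
  refine ⟨s.filter fun n => n.Prime ∧ B < n ∧ (n : ZMod N) = c,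
    fun r hr => (Finset.mem_filter.mp hr).2, hs.le.trans ?_⟩
  rw [Finset.sum_filter]
  refine Finset.sum_le_sum fun n _ => ?_
  simp only [hF]
  split_ifs with h
  · exact upChebC_tel (by exact_mod_cast h.1.pos) j
  · simp

end Pool.Agent.Tate
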