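import Pool.Agent.P.MP_2ce3e7_ag.UpChebA
import Pool.Agent.P.MP_2ce3e7_ag.UpChebC

/-! The density of primes with many prime factors of degree one. -/

set_option autoImplicit false

noncomputable section

namespace Pool.Agent.Tate

open NumberField

theorem UpChebD_left {S : Type} [CommRing S] {a b : ℕ} (h : a.Coprime b) {I J : Ideal S}
    (ha : (a : S) ∈ I) (hb : (b : S) ∈ J) : I = I * J ⊔ Ideal.span {(a : S)} := by
  apply le_antisymm
  · intro x hx
    obtain ⟨u, v, huv⟩ := (Nat.isCoprime_iff_coprime.2 h).map (Int.castRingHom S)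
    simp only [eq_intCast, Int.cast_natCast] at huv
    have : x = x * (v * b) + (x * u) * a := by linear_combination (-x) * huv
    rw [this]
    exact Submodule.add_mem_sup (Ideal.mul_mem_mul hx (J.mul_mem_left _ hb))
      (Ideal.mul_mem_left _ _ (Ideal.subset_span rfl))
  · exact sup_le Ideal.mul_le_left ((Ideal.span_singleton_le_iff_mem _).2 ha)

theorem nI_mul (E : Type) [Field E] [NumberField E] {a b : ℕ} (hab : a * b ≠ 0)
    (h : a.Coprime b) : nI E a * nI E b ≤ nI E (a * b) := by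
  unfold nI
  rw [← Nat.card_prod]
  have : Finite {I : Ideal (𝓞 E) // Ideal.absNorm I = a * b} :=
    (Ideal.finite_setOfPred_absNorm_eq (a * b)).to_subtype
  refine Nat.card_le_card_of_injective
    (fun x => ⟨x.1.1 * x.2.1, by rw [map_mul, x.1.2, x.2.2]⟩) ?_
  rintro ⟨⟨I, hI⟩, ⟨J, hJ⟩⟩ ⟨⟨I', hI'⟩, ⟨J', hJ'⟩⟩ hxy
  have e : I * J = I' * J' := congrArg Subtype.val hxy
  have m1 : (a : 𝓞 E) ∈ I := hI ▸ Ideal.absNorm_mem I
  have m2 : (b : 𝓞 E) ∈ J := hJ ▸ Ideal.absNorm_mem J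
  have m3 : (a : 𝓞 E) ∈ I' := hI' ▸ Ideal.absNorm_mem I'
  have m4 : (b : 𝓞 E) ∈ J' := hJ' ▸ Ideal.absNorm_mem J'
  have e1 : I = I' := by rw [UpChebD_left h m1 m2, e, ← UpChebD_left h m3 m4]
  have e2 : J = J' := by
    rw [UpChebD_left h.symm m2 m1, mul_comm, e, mul_comm, ← UpChebD_left h.symm m4 m3]
  subst e1 e2
  rfl

theorem UpChebD_one (E : Type) [Field E] [NumberField E] : 1 ≤ nI E 1 := by
  unfold nI
  have : Finite {I : Ideal (𝓞 E) // Ideal.absNorm I = 1} :=
    (Ideal.finite_setOfPred_absNorm_eq 1).to_subtype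
  have : Nonempty {I : Ideal (𝓞 E) // Ideal.absNorm I = 1} := ⟨⟨⊤, by simp⟩⟩
  exact Nat.card_pos

theorem UpChebD_prod (E : Type) [Field E] [NumberField E] (T : Finset ℕ)
    (hT : ∀ r ∈ T, r.Prime) : ∏ r ∈ T, nI E r ≤ nI E (∏ r ∈ T, r) := by
  induction T using Finset.induction_on with
  | empty => simpa using UpChebD_one E
  | insert a T ha ih =>
    have hT' : ∀ r ∈ T, r.Prime := fun r hr => hT r (Finset.mem_insert_of_mem hr)
    have hap := hT a (Finset.mem_insert_self _ _)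
    rw [Finset.prod_insert ha, Finset.prod_insert ha]
    refine (Nat.mul_le_mul_left _ (ih hT')).trans (nI_mul E ?_ ?_)
    · exact mul_ne_zero hap.ne_zero (Finset.prod_ne_zero_iff.2 fun r hr => (hT' r hr).ne_zero)
    · exact Nat.Coprime.prod_right fun r hr =>
        (Nat.coprime_primes hap (hT' r hr)).2 fun h => ha (h ▸ hr)

/-- upper bound from the simple pole of the zeta function -/
theorem prod_upper (E : Type) [Field E] [NumberField E] :
    ∃ C : ℝ, ∀ᶠ j : ℕ in Filter.atTop, ∀ R : Finset ℕ, (∀ r ∈ R, r.Prime) →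
      ∏ r ∈ R, (1 + (nI E r : ℝ) * (r : ℝ) ^ (-(1 + (2 : ℝ)⁻¹ ^ j))) ≤ C * 2 ^ j := by
  refine ⟨dedekindZeta_residue E + 1, ?_⟩
  have h0 : Filter.Tendsto (fun j : ℕ => 1 + (2 : ℝ)⁻¹ ^ j) Filter.atTop (nhdsWithin 1 (Set.Ioi 1)) := by
    apply tendsto_nhdsWithin_iff.2
    constructor
    · simpa using (tendsto_pow_atTop_nhds_zero_of_lt_one (r := (2 : ℝ)⁻¹) (by norm_num)
        (by norm_num)).const_add 1
    · exact Filter.Eventually.of_forall fun j => by
        have : 0 < (2 : ℝ)⁻¹ ^ j := by positivity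
        simpa using this
  have h1 := (Complex.continuous_re.tendsto _).comp
    ((tendsto_sub_one_mul_dedekindZeta_nhdsGT E).comp h0)
  have hp := dedekindZeta_residue_pos E
  have h2 := h1.eventually (Ioo_mem_nhds (a := 0) (b := dedekindZeta_residue E + 1)
    (by simpa using hp) (by simp))
  filter_upwards [h2] with j hj R hR
  set x : ℝ := 1 + (2 : ℝ)⁻¹ ^ j with hx
  let g : ℕ → ℝ := fun n => if n = 0 then 0 else (nI E n : ℝ) * (n : ℝ) ^ (-x)
  have hg : ∀ n, LSeries.term (fun n => (Nat.card {I : Ideal (𝓞 E) // Ideal.absNorm I = n} : ℂ))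
      x n = (g n : ℂ) := by
    intro n
    by_cases hn : n = 0
    · subst hn; simp [g]
    · rw [LSeries.term_of_ne_zero hn]
      simp only [g, if_neg hn, nI]
      rw [Real.rpow_neg (Nat.cast_nonneg n)]
      push_cast
      rw [Complex.ofReal_cpow (Nat.cast_nonneg n), div_eq_mul_inv]
      simp
  have hz : dedekindZeta E x = ((∑' n, g n : ℝ) : ℂ) := by
    rw [dedekindZeta, LSeries, Complex.ofReal_tsum]
    exact tsum_congr hg
  have hj' : 0 < (x - 1) * ∑' n, g n ∧ (x - 1) * ∑' n, g n < dedekindZeta_residue E + 1 := by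
    have e : ((x : ℂ) - 1) * dedekindZeta E x = (((x - 1) * ∑' n, g n : ℝ) : ℂ) := by
      rw [hz]; push_cast; ring
    have hj2 : (((x : ℂ) - 1) * dedekindZeta E x).re ∈ Set.Ioo 0 (dedekindZeta_residue E + 1) := hj
    rw [e, Complex.ofReal_re] at hj2
    exact hj2
  have hs : Summable g := by
    by_contra hn
    rw [tsum_eq_zero_of_not_summable hn] at hj'
    simp at hj'
  have g0 : ∀ n, 0 ≤ g n := fun n => by
    simp only [g]; split_ifs
    · exact le_rfl
    · positivity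
  have h3 : ∑' n, g n ≤ (dedekindZeta_residue E + 1) * 2 ^ j := by
    have e : (x - 1) * 2 ^ j = 1 := by
      rw [hx, add_sub_cancel_left, ← mul_pow]; norm_num
    have : (0 : ℝ) < 2 ^ j := by positivity
    calc ∑' n, g n = ((x - 1) * ∑' n, g n) * 2 ^ j := by
          rw [mul_right_comm, e, one_mul]
      _ ≤ _ := mul_le_mul_of_nonneg_right hj'.2.le this.le
  refine le_trans ?_ h3
  rw [Finset.prod_one_add]
  have hinj : Set.InjOn (fun T : Finset ℕ => ∏ r ∈ T, r) R.powerset := by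
    intro T hT T' hT' h
    have a1 := Nat.primeFactors_prod (s := T) fun p hp => hR p (Finset.mem_powerset.1 hT hp)
    have a2 := Nat.primeFactors_prod (s := T') fun p hp => hR p (Finset.mem_powerset.1 hT' hp)
    rw [← a1, ← a2]
    exact congrArg Nat.primeFactors h
  calc _ ≤ ∑ T ∈ R.powerset, g (∏ r ∈ T, r) := by
        apply Finset.sum_le_sum
        intro T hT
        have hT' : ∀ r ∈ T, r.Prime := fun p hp => hR p (Finset.mem_powerset.1 hT hp)
        have hne : ∏ r ∈ T, r ≠ 0 := Finset.prod_ne_zero_iff.2 fun r hr => (hT' r hr).ne_zero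
        simp only [g, if_neg hne]
        rw [Finset.prod_mul_distrib, Nat.cast_prod,
          Real.finsetProd_rpow _ _ (fun r _ => Nat.cast_nonneg r)]
        apply mul_le_mul_of_nonneg_right _ (by positivity)
        exact_mod_cast UpChebD_prod E T hT'
    _ = ∑ n ∈ R.powerset.image (fun T : Finset ℕ => ∏ r ∈ T, r), g n :=
        (Finset.sum_image hinj).symm
    _ ≤ _ := hs.sum_le_tsum _ fun n _ => g0 n

theorem UpChebD_exp {y : ℝ} (hy : 0 ≤ y) : Real.exp (y - y ^ 2) ≤ 1 + y := by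
  have h1 : 0 < 1 + y := by linarith
  rw [← Real.le_log_iff_exp_le h1]
  refine le_trans ?_ (Real.one_sub_inv_le_log_of_pos h1)
  have : 1 - (1 + y)⁻¹ = y / (1 + y) := by field_simp; ring
  rw [this, le_div_iff₀ h1]
  nlinarith [pow_nonneg hy 3]

theorem cheb_an {N : ℕ} [NeZero N] {c : ZMod N} (hc : IsUnit c) (E : Type) [Field E]
    [NumberField E] (B : ℕ) :
    ∃ r : ℕ, r.Prime ∧ B < r ∧ (r : ZMod N) = c ∧ 2 * nI E r < 3 * N.totient := by
  by_contra hn
  push Not at hn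
  obtain ⟨C, hC⟩ := prime_sum_lower hc B
  obtain ⟨C', hC'⟩ := prod_upper E
  have hφ : (0 : ℝ) < N.totient := by exact_mod_cast Nat.totient_pos.2 (NeZero.pos N)
  set n0 : ℝ := 3 * N.totient / 2 with hn0
  have n0p : 0 < n0 := by positivity
  have hZ : Summable fun n : ℕ => 1 / (n : ℝ) ^ 2 := Real.summable_one_div_nat_pow.2 (by norm_num)
  set Z : ℝ := ∑' n : ℕ, 1 / (n : ℝ) ^ 2 with hZd
  have key : ∀ᶠ j : ℕ in Filter.atTop,
      (Real.exp (3 / 4) / 2) ^ j ≤ C' * Real.exp (n0 * C + n0 ^ 2 * Z) := by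
    filter_upwards [hC'] with j hj
    obtain ⟨R, hR, hS⟩ := hC j
    have h1 := hj R fun r hr => (hR r hr).1
    set x : ℝ := 1 + (2 : ℝ)⁻¹ ^ j with hx
    have hx1 : 1 ≤ x := by
      have : 0 < (2 : ℝ)⁻¹ ^ j := by positivity
      linarith
    have h2 : Real.exp (∑ r ∈ R, (n0 * (r : ℝ) ^ (-x) - n0 ^ 2 * (1 / (r : ℝ) ^ 2))) ≤
        ∏ r ∈ R, (1 + (nI E r : ℝ) * (r : ℝ) ^ (-x)) := by
      rw [Real.exp_sum]
      apply Finset.prod_le_prod (fun r _ => (Real.exp_pos _).le)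
      intro r hr
      obtain ⟨p1, p2, p3⟩ := hR r hr
      have r1 : (1 : ℝ) ≤ r := by exact_mod_cast p1.one_le
      have t0 : 0 ≤ (r : ℝ) ^ (-x) := by positivity
      have t1 : (r : ℝ) ^ (-x) ≤ 1 / r := by
        rw [one_div, ← Real.rpow_neg_one]
        exact Real.rpow_le_rpow_of_exponent_le r1 (by linarith)
      have t2 : ((r : ℝ) ^ (-x)) ^ 2 ≤ 1 / (r : ℝ) ^ 2 := by
        rw [← one_div_pow]; exact pow_le_pow_left₀ t0 t1 2
      have t3 : n0 ≤ nI E r := by
        have : (3 * N.totient : ℝ) ≤ 2 * nI E r := by exact_mod_cast hn r p1 p2 p3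
        linarith
      calc _ ≤ Real.exp (n0 * (r : ℝ) ^ (-x) - (n0 * (r : ℝ) ^ (-x)) ^ 2) := by
            apply Real.exp_le_exp.2
            rw [mul_pow]
            nlinarith [mul_le_mul_of_nonneg_left t2 (sq_nonneg n0)]
        _ ≤ 1 + n0 * (r : ℝ) ^ (-x) := UpChebD_exp (by positivity)
        _ ≤ _ := by nlinarith [mul_le_mul_of_nonneg_right t3 t0]
    have h3 : ∑ r ∈ R, 1 / (r : ℝ) ^ 2 ≤ Z := hZ.sum_le_tsum _ fun n _ => by positivity
    have h4 : 3 / 4 * j - (n0 * C + n0 ^ 2 * Z) ≤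
        ∑ r ∈ R, (n0 * (r : ℝ) ^ (-x) - n0 ^ 2 * (1 / (r : ℝ) ^ 2)) := by
      rw [Finset.sum_sub_distrib, ← Finset.mul_sum, ← Finset.mul_sum]
      have a1 := mul_le_mul_of_nonneg_left hS n0p.le
      have a2 := mul_le_mul_of_nonneg_left h3 (sq_nonneg n0)
      have a3 : n0 * ((j : ℝ) / (2 * N.totient)) = 3 / 4 * j := by
        rw [hn0]; field_simp; ring
      nlinarith
    have h5 := (Real.exp_le_exp.2 h4).trans (h2.trans h1)
    rw [Real.exp_sub, div_le_iff₀ (Real.exp_pos _), mul_comm (3 / 4 : ℝ), Real.exp_nat_mul] at h5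
    rw [div_pow, div_le_iff₀ (by positivity)]
    linarith
  have h6 : 1 < Real.exp (3 / 4) / 2 := by
    rw [one_lt_div (by norm_num), ← Real.log_lt_iff_lt_exp (by norm_num)]
    linarith [Real.log_two_lt_d9]
  obtain ⟨j, h7, h8⟩ := (key.and ((tendsto_pow_atTop_atTop_of_one_lt h6).eventually_gt_atTop
    (C' * Real.exp (n0 * C + n0 ^ 2 * Z)))).exists
  linarith

end Pool.Agent.Tate
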