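import Pool.Agent.P.MP_2ce3e7_ag.UpUniv
import Pool.Agent.P.MP_2ce3e7_ag.UpCaseA
import Pool.Agent.P.MP_2ce3e7_ag.UpCaseB
import Pool.Agent.P.MP_2ce3e7_ag.UpChebB
import Pool.Agent.P.MP_2ce3e7_ag.UpChebD

/-! Vectors of norm zero are differences at a higher level. -/

set_option autoImplicit false

noncomputable section

namespace Pool.Agent.Tate

theorem exists_aux_prime {p l N c : ℕ} (hp : p.Prime) (hl : l.Prime) (h2 : l ≠ 2) (hN : N ≠ 0)
    (hlN : l ∣ N) (hc : c * c ≡ 1 [MOD N]) (hc1 : c ≡ 1 [MOD l]) (B : ℕ) :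
    ∃ r : ℕ, r.Prime ∧ B < r ∧ r ≡ c [MOD N] ∧ ∀ y : ZMod r, y ^ l ≠ p := by
  obtain ⟨E, _, _, D, hD, hE⟩ := cheb_field hp hl h2 hN hlN hc
  haveI : NeZero N := ⟨hN⟩
  have hu : IsUnit (c : ZMod N) := IsUnit.of_mul_eq_one (c : ZMod N) (by
    exact_mod_cast (ZMod.natCast_eq_natCast_iff _ _ _).2 hc)
  obtain ⟨r, hr, hB, hrc, hlt⟩ := cheb_an hu E (max B D)
  have h3 := (ZMod.natCast_eq_natCast_iff _ _ _).1 hrc
  refine ⟨r, hr, (le_max_left _ _).trans_lt hB, h3, fun y hy => ?_⟩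
  exact absurd (hE r hr (Nat.not_dvd_of_pos_of_lt (Nat.pos_of_ne_zero hD)
    ((le_max_right _ _).trans_lt hB)) h3 ((h3.of_dvd hlN).trans hc1) ⟨y, hy⟩) (by omega)

variable {p M : ℕ} [NeZero M]

theorem Good.add {y y' : (ZMod M)ˣ → ℤ} (h : Good p y) (h' : Good p y') : Good p (y + y') := by
  obtain ⟨L, hL, h0, hA, hc, hx⟩ := h
  obtain ⟨L', hL', h0', hA', hc', hx'⟩ := h'
  haveI : NeZero (L * L') := ⟨mul_ne_zero h0 h0'⟩
  refine ⟨L * L', hL.mul_right _, mul_ne_zero h0 h0',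
    fun l hl hd => ((Nat.Prime.dvd_mul hl).1 hd).elim (hA l hl) (hA' l hl), hc.mul_right hc', ?_⟩
  have h1 := lam_mem_XD (dvd_mul_right L L') hx
  have h2 := lam_mem_XD (dvd_mul_left L' L) hx'
  rw [lam_lam] at h1 h2
  rw [map_add]
  exact add_mem h1 h2

theorem Good.zsmul {y : (ZMod M)ˣ → ℤ} (h : Good p y) (n : ℤ) : Good p (n • y) := by
  obtain ⟨L, hL, h0, hA, hc, hx⟩ := h
  exact ⟨L, hL, h0, hA, hc, by rw [map_zsmul]; exact zsmul_mem hx n⟩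

/-- if for every prime some multiple prime to it is good then the vector is good -/
theorem Good.of_primes {y : (ZMod M)ˣ → ℤ}
    (h : ∀ l : ℕ, l.Prime → ∃ n : ℕ, ¬ l ∣ n ∧ Good p (n • y)) : Good p y := by
  let I : Ideal ℤ :=
    { carrier := {n | Good p (n • y)}
      add_mem' := fun ha hb => by simpa only [Set.mem_setOf_eq, add_smul] using Good.add ha hb
      zero_mem' := by
        obtain ⟨n, -, hn⟩ := h 2 Nat.prime_two
        simpa using hn.zsmul 0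
      smul_mem' := fun c n hn => by
        simpa only [Set.mem_setOf_eq, smul_eq_mul, mul_smul] using Good.zsmul hn c }
  have h1 : (Submodule.IsPrincipal.generator I).natAbs = 1 := by
    by_contra h1
    obtain ⟨l, hl, hd⟩ := Nat.exists_prime_and_dvd h1
    obtain ⟨n, hn, hg⟩ := h l hl
    have h2 : (n : ℤ) ∈ I := by
      show Good p ((n : ℤ) • y)
      rwa [natCast_zsmul]
    exact hn (hd.trans (by
      simpa using Int.natAbs_dvd_natAbs.2 ((Submodule.IsPrincipal.mem_iff_generator_dvd I).1 h2)))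
  have h2 : (1 : ℤ) ∈ I := (Submodule.IsPrincipal.mem_iff_generator_dvd I).2
    (Int.isUnit_iff_natAbs_eq.2 h1).dvd
  have h3 : Good p ((1 : ℤ) • y) := h2
  rwa [one_smul] at h3

theorem upAlg_fin {L n : ℕ} [NeZero L] (hL : M ∣ L) (hA : Adm L) (hc : p.Coprime L)
    {y : (ZMod M)ˣ → ℤ} (hy : ((y 1 : ℤ) : ZMod M) = 0)
    (h : n • QuotientAddGroup.mk' (TD p L) (lam hL y) = 0) : Good p ((2 * n) • y) := by
  refine ⟨L, hL, NeZero.ne L, hA, hc, ?_⟩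
  rw [← map_nsmul, QuotientAddGroup.mk'_apply, QuotientAddGroup.eq_zero_iff] at h
  rw [map_nsmul, mul_smul]
  refine two_mem_XD h ?_
  obtain ⟨t, ht⟩ := (ZMod.intCast_zmod_eq_zero_iff_dvd _ _).1 hy
  have h1 : (n • lam hL y) 1 = (L : ℤ) * (n * t) := by
    show n • (((L / M : ℕ) : ℤ) * y (ZMod.unitsMap hL 1)) = _
    rw [map_one, ht, nsmul_eq_mul, ← mul_assoc _ (M : ℤ), ← Nat.cast_mul, Nat.div_mul_cancel hL]
    ring
  rw [h1]
  simp

theorem upAlg_one {ι : Type} [Fintype ι] {b : ι → ZMod M} (hb : ∑ i, b i = 0) (u : ZMod M) :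
    (((∑ i, th (u * b i)) 1 : ℤ) : ZMod M) = 0 := by
  simp only [Finset.sum_apply, Int.cast_sum, th_one, ← Finset.mul_sum, hb, mul_zero]

theorem upAlg_inv {L : ℕ} (y : ZMod L) : QuotientAddGroup.mk' (TD p L) (th ((p : ZMod L) * y)) =
    QuotientAddGroup.mk' (TD p L) (th y) := by
  rw [eq_comm, ← sub_eq_zero, ← map_sub, QuotientAddGroup.mk'_apply, QuotientAddGroup.eq_zero_iff]
  exact AddSubgroup.subset_closure ⟨y, rfl⟩

theorem upAlg_sq {N Q κ : ℕ} (h : N.Coprime Q) (h1 : κ ≡ 1 [MOD N]) (h2 : Q ∣ κ + 1) :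
    κ * κ ≡ 1 [MOD N * Q] := by
  refine (Nat.modEq_and_modEq_iff_modEq_mul h).1 ⟨by simpa using h1.mul h1, ?_⟩
  rw [← ZMod.natCast_eq_natCast_iff]
  have := (ZMod.natCast_eq_zero_iff _ _).2 h2
  push_cast at this ⊢
  linear_combination ((κ : ZMod Q) - 1) * this

theorem upAlg_two {l n : ℕ} (hl : l.Prime) (h2 : l ≠ 2) (hn : ¬ l ∣ n) : ¬ l ∣ 2 * n := fun h =>
  ((Nat.Prime.dvd_mul hl).1 h).elim
    (fun h => h2 ((Nat.prime_dvd_prime_iff_eq hl Nat.prime_two).1 h)) hn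

variable (hM : Adm M) (hp : p.Prime) (hpM : p.Coprime M) {ι : Type} [Fintype ι] {b : ι → ZMod M}
  (hb : ∑ i, b i = 0) {f : ℕ} (hf : f ≠ 0) (h1 : (p : ZMod M) ^ f = 1)
  (h : ∑ s ∈ Finset.range f, ∑ i, th ((p : ZMod M) ^ s * b i) = 0)
  {l N A : ℕ} (hl : l.Prime) (h2 : l ≠ 2) (hN : ¬ l ∣ N)
include hM hp hpM hb hf h1 h hl h2 hN

theorem goodA (hMN : M = N * l ^ A) {κ : ℕ} (hκ1 : κ ≡ 1 [MOD N]) (hκ2 : l ^ A ∣ κ + 1) :
    ∃ n : ℕ, ¬ l ∣ n ∧ Good p (n • (∑ i, th (b i) + ∑ i, th ((κ : ZMod M) * b i))) := by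
  obtain ⟨n0, hn0, hw⟩ := w_lemma hf h
  obtain ⟨K, n1, hn1, rfl⟩ := Nat.exists_eq_pow_mul_and_not_dvd hn0 l hl.ne_one
  have hN0 : N ≠ 0 := by rintro rfl; exact hN (dvd_zero l)
  have hco : l.Coprime (2 * (2 * N)) :=
    (Nat.Prime.coprime_iff_not_dvd hl).2 (upAlg_two hl h2 (upAlg_two hl h2 hN))
  obtain ⟨c, hc1, hc2⟩ := exists_kappa (N := l ^ (K + f + A + 1)) (Q := 2 * (2 * N)) (by omega)
    (hco.pow_left _)
  obtain ⟨r, hr, hB, hrc, hy⟩ := exists_aux_prime hp hl h2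
    (mul_ne_zero (pow_ne_zero _ hl.ne_zero) (by omega)) ((dvd_pow_self l (by omega)).mul_right _)
    (upAlg_sq (hco.pow_left _) hc1 hc2) (hc1.of_dvd (dvd_pow_self l (by omega))) (M + p)
  have hM0 := Nat.pos_of_ne_zero (NeZero.ne M)
  have hr1 : r ≡ 1 [MOD l ^ (K + f + A + 1)] := (hrc.of_dvd (dvd_mul_right _ _)).trans hc1
  have hr2 : 2 * (2 * N) ∣ r + 1 :=
    (((hrc.of_dvd (dvd_mul_left _ _)).add_right 1).dvd_iff dvd_rfl).2 hc2
  have hr4 : r % 4 = 3 := by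
    have : 4 ∣ r + 1 := Dvd.dvd.trans ⟨N, by ring⟩ hr2
    omega
  have hrM : ¬ r ∣ M := Nat.not_dvd_of_pos_of_lt hM0 (by omega)
  have hrp : ¬ r ∣ p := Nat.not_dvd_of_pos_of_lt hp.pos (by omega)
  have hrκ : (r : ZMod M) = -κ := by
    rw [eq_neg_iff_add_eq_zero, ← Nat.cast_add, ZMod.natCast_eq_zero_iff, hMN]
    refine Nat.Coprime.mul_dvd_of_dvd_of_dvd
      (((Nat.Prime.coprime_iff_not_dvd hl).2 hN).symm.pow_right _) ?_ ?_
    · exact ((hκ1.add_left r).dvd_iff dvd_rfl).2 (Dvd.dvd.trans ⟨4, by ring⟩ hr2)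
    · refine ((((hr1.of_dvd (pow_dvd_pow l (by omega))).add_right κ)).dvd_iff dvd_rfl).2 ?_
      rwa [add_comm]
  haveI : NeZero (M * r) := ⟨mul_ne_zero hM0.ne' hr.ne_zero⟩
  obtain ⟨e, he⟩ := pow_dvd_orderOf (K := K) hr hl hf (hr1.of_dvd (pow_dvd_pow l (by omega)))
    (x := (p : ZMod r)) (fun h => hrp ((ZMod.natCast_eq_zero_iff _ _).1 h)) hy
  obtain ⟨W, hW, hWp, hWb⟩ := caseA hr rfl hrM hrp h1
    (dist_th.map (QuotientAddGroup.mk' (TD p (M * r)))) upAlg_inv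
  refine ⟨2 * n1, upAlg_two hl h2 hn1, upAlg_fin (dvd_mul_right M r)
    (fun q hq hd => ((Nat.Prime.dvd_mul hq).1 hd).elim (hM q hq) fun hd => Or.inr ?_)
    (hpM.mul_right ((Nat.Prime.coprime_iff_not_dvd hr).2 hrp).symm) ?_ ?_⟩
  · rwa [(Nat.prime_dvd_prime_iff_eq hq hr).1 hd]
  · have := upAlg_one hb 1
    simp only [one_mul] at this
    rw [Pi.add_apply, Int.cast_add, this, upAlg_one hb, add_zero]
  · have h3 := Finset.sum_congr rfl fun i (_ : i ∈ Finset.univ) => hWb (b i)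
    simp only [← lam_th (dvd_mul_right M r), hrκ, neg_mul, th_neg, map_neg, he,
      Finset.sum_nsmul, Finset.sum_sub_distrib, Finset.sum_neg_distrib] at h3
    have h4 := hw _ W hW hWp
    simp only [map_add, map_sum]
    rw [sub_eq_add_neg, ← neg_add, neg_eq_iff_eq_neg, add_comm] at h3
    rw [h3, neg_nsmul, smul_smul,
      show n1 * (l ^ K * e) = e * (l ^ K * n1) by ring, mul_smul, h4, smul_zero, neg_zero]

theorem goodB (hMN : M = N * l ^ (A + 1)) : ∃ κ : ℕ, κ ≡ 1 [MOD N] ∧ l ^ (A + 1) ∣ κ + 1 ∧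
    ∃ n : ℕ, ¬ l ∣ n ∧ Good p (n • (∑ i, th (b i) - ∑ i, th ((κ : ZMod M) * b i))) := by
  obtain ⟨n0, hn0, hw⟩ := w_lemma hf h
  obtain ⟨K, n1, hn1, rfl⟩ := Nat.exists_eq_pow_mul_and_not_dvd hn0 l hl.ne_one
  have hN0 : N ≠ 0 := by rintro rfl; exact hN (dvd_zero l)
  have hco : N.Coprime l := ((Nat.Prime.coprime_iff_not_dvd hl).2 hN).symm
  have hNM : N ∣ M := hMN ▸ dvd_mul_right _ _
  have hlM : l ∣ M := hMN ▸ (dvd_pow_self l (by omega)).mul_left _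
  obtain ⟨i, -, hi⟩ := exists_orb hl h2 hN hp.one_lt
    ((hpM.coprime_dvd_right hNM).mul_right (hpM.coprime_dvd_right hlM))
  obtain ⟨κ, hκ1, hκ2⟩ := exists_kappa (N := N) (Q := l ^ (A + 1 + i + K))
    (pow_ne_zero _ hl.ne_zero) (hco.pow_right _)
  obtain ⟨L, hL⟩ : ∃ L, L = N * l ^ (A + 1 + i + K) := ⟨_, rfl⟩
  haveI : NeZero L := ⟨hL ▸ mul_ne_zero hN0 (pow_ne_zero _ hl.ne_zero)⟩
  have hML : M ∣ L := by
    rw [hMN, hL]; exact mul_dvd_mul_left _ (pow_dvd_pow l (by omega))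
  have hpL : p.Coprime L := by
    rw [hL]; exact (hpM.coprime_dvd_right hNM).mul_right ((hpM.coprime_dvd_right hlM).pow_right _)
  have hsq : (κ : ZMod L) * κ = 1 := by
    have := upAlg_sq (hco.pow_right _) hκ1 hκ2
    rw [← hL] at this
    exact_mod_cast (ZMod.natCast_eq_natCast_iff _ _ _).2 this
  have hD := dist_th.map (QuotientAddGroup.mk' (TD p L))
  obtain ⟨W, hW, hWp, hWb⟩ := caseB hl hN hMN hL hpL (hL ▸ hi _) hκ1 hκ2
    (hD.sub (hD.twist (IsUnit.of_mul_eq_one _ hsq)))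
    (fun y => by rw [mul_left_comm, upAlg_inv, upAlg_inv])
    (fun y => by rw [← mul_assoc, hsq, one_mul, neg_sub])
  refine ⟨κ, hκ1, (pow_dvd_pow l (by omega)).trans hκ2, 2 * (2 * n1),
    upAlg_two hl h2 (upAlg_two hl h2 hn1), upAlg_fin hML (fun q hq hd => hM q hq ?_) hpL ?_ ?_⟩
  · rw [hL] at hd
    refine ((Nat.Prime.dvd_mul hq).1 hd).elim (fun hd => hd.trans hNM) fun hd => ?_
    exact (hq.dvd_of_dvd_pow hd).trans hlM
  · have := upAlg_one hb 1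
    simp only [one_mul] at this
    rw [Pi.sub_apply, Int.cast_sub, this, upAlg_one hb, sub_zero]
  · have h3 := Finset.sum_congr rfl fun i (_ : i ∈ Finset.univ) => hWb (b i)
    simp only [natCast_mul_lv hML, ← lam_th hML] at h3
    rw [Finset.sum_nsmul, Finset.sum_nsmul, Finset.sum_sub_distrib] at h3
    have h4 := hw _ W hW hWp
    simp only [map_sub, map_sum]
    rw [mul_comm, mul_smul, h3, smul_smul, mul_comm, h4]

omit hN in
theorem good_odd : ∃ n : ℕ, ¬ l ∣ n ∧ Good p (n • ∑ i, th (b i)) := by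
  obtain ⟨A, N, hN, hMN⟩ := Nat.exists_eq_pow_mul_and_not_dvd (NeZero.ne M) l hl.ne_one
  rw [mul_comm] at hMN
  rcases A with _ | A
  · obtain ⟨n, hn, hg⟩ := goodA hM hp hpM hb hf h1 h hl h2 hN hMN (κ := 1) rfl (by simp)
    refine ⟨2 * n, upAlg_two hl h2 hn, ?_⟩
    simpa only [Nat.cast_one, one_mul, mul_comm 2, mul_smul, two_smul] using hg
  · obtain ⟨κ, hκ1, hκ2, n, hn, hg⟩ := goodB hM hp hpM hb hf h1 h hl h2 hN hMN
    obtain ⟨n', hn', hg'⟩ := goodA hM hp hpM hb hf h1 h hl h2 hN hMN hκ1 hκ2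
    refine ⟨2 * (n * n'), upAlg_two hl h2 (hl.not_dvd_mul hn hn'), ?_⟩
    convert (hg.zsmul n').add (hg'.zsmul n) using 1
    simp only [natCast_zsmul]
    module

end Pool.Agent.Tate
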