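import Pool.Agent.P.MP_2ce3e7_ag.TQPrime
import Pool.Agent.P.MP_2ce3e7_ag.UpAlg

/-! Torsion elements are killed by four at a higher level. -/

set_option autoImplicit false
set_option linter.unusedSectionVars false

noncomputable section

namespace Pool.Agent.Tate

open Pool.Agent.P.MP_e12fcd_ag.Fermat (bern tors mem_tors card_tors sum_tors_unit sum_tors_shift)

variable {p M : ℕ} [NeZero M] {ι : Type} [Fintype ι] {b : ι → ZMod M}

theorem Ev.of_primes (h : ∀ l : ℕ, l.Prime → ∃ n : ℕ, ¬ l ∣ n ∧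
    Ev p M fun _ _ g => n • ∑ i, g (b i) = 0) : Ev p M fun _ _ g => ∑ i, g (b i) = 0 := by
  let I : Ideal ℤ :=
    { carrier := {n | Ev p M fun _ _ g => n • ∑ i, g (b i) = 0}
      add_mem' := fun {x y} ha hb => by
        simp only [Set.mem_ofPred_eq] at ha hb ⊢
        exact (Ev.and ha hb).mono fun Y _ g _ H => by rw [add_smul, H.1, H.2, add_zero]
      zero_mem' := by
        obtain ⟨n, -, hn⟩ := h 2 Nat.prime_two
        simp only [Set.mem_ofPred_eq]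
        exact hn.mono fun Y _ g _ _ => zero_smul _ _
      smul_mem' := fun c n hn => by
        simp only [Set.mem_ofPred_eq] at hn ⊢
        exact Ev.mono hn fun Y _ g _ H => by rw [smul_eq_mul, mul_smul, H, smul_zero] }
  have h1 : (Submodule.IsPrincipal.generator I).natAbs = 1 := by
    by_contra h1
    obtain ⟨l, hl, hd⟩ := Nat.exists_prime_and_dvd h1
    obtain ⟨n, hn, hg⟩ := h l hl
    have h2 : (n : ℤ) ∈ I := by
      show Ev p M fun _ _ g => (n : ℤ) • ∑ i, g (b i) = 0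
      exact Ev.mono hg fun Y _ g _ H => by rwa [natCast_zsmul]
    exact hn (hd.trans (by
      simpa using Int.natAbs_dvd_natAbs.2 ((Submodule.IsPrincipal.mem_iff_generator_dvd I).1 h2)))
  have h2 : (1 : ℤ) ∈ I := (Submodule.IsPrincipal.mem_iff_generator_dvd I).2
    (Int.isUnit_iff_natAbs_eq.2 h1).dvd
  have h3 : Ev p M fun _ _ g => (1 : ℤ) • ∑ i, g (b i) = 0 := h2
  exact Ev.mono h3 fun Y _ g _ H => by rwa [one_smul] at H

theorem tqKill_prime {l N K : ℕ} (hp : p.Prime) (hl : l.Prime) (h2 : l = 2 → p ≠ 2)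
    (hN : ¬ l ∣ N) (hpN : p.Coprime N) (B : ℕ) : ∃ r : ℕ, r.Prime ∧ B < r ∧
      r ≡ 1 [MOD l ^ (K + 1)] ∧ N ∣ r + 1 ∧ ∀ y : ZMod r, y ^ l ≠ p := by
  have hN0 : N ≠ 0 := by rintro rfl; exact hN (dvd_zero l)
  by_cases hl2 : l = 2
  · subst hl2
    obtain ⟨r, hr, hB, h1, h3, h4⟩ := exists_nonsq_prime (K := K + 1) hp
      (Nat.odd_iff.2 (by omega)) hpN (fun h => absurd h (h2 rfl)) (-1) B
    refine ⟨r, hr, hB, h1, ?_, fun y hy => h4 ⟨y, by rw [← hy, sq]⟩⟩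
    rw [← ZMod.natCast_eq_zero_iff, Nat.cast_add, h3]
    simp
  · have hco : l.Coprime N := (Nat.Prime.coprime_iff_not_dvd hl).2 hN
    obtain ⟨c, hc1, hc2⟩ := exists_kappa (N := l ^ (K + 1)) (Q := N) hN0 (hco.pow_left _)
    obtain ⟨r, hr, hB, hrc, hy⟩ := exists_aux_prime hp hl hl2
      (mul_ne_zero (pow_ne_zero _ hl.ne_zero) hN0) ((dvd_pow_self l (by omega)).mul_right _)
      (upAlg_sq (hco.pow_left _) hc1 hc2) (hc1.of_dvd (dvd_pow_self l (by omega))) B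
    exact ⟨r, hr, hB, (hrc.of_dvd (dvd_mul_right _ _)).trans hc1,
      (((hrc.of_dvd (dvd_mul_left _ _)).add_right 1).dvd_iff dvd_rfl).2 hc2, hy⟩

theorem tqKill_orb {l N : ℕ} (hp : p.Prime) (hl : l.Prime) (hN : ¬ l ∣ N)
    (hc : p.Coprime (N * l)) : ∃ i : ℕ, ∀ B u : ℕ, u ≡ 1 [MOD N * l ^ i] →
      ∃ s : ℕ, p ^ s ≡ u [MOD N * l ^ B] := by
  by_cases hl2 : l = 2
  · subst hl2
    obtain ⟨i, -, hi⟩ := exists_orb_two (Nat.odd_iff.2 (by omega)) hp.one_lt hc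
    exact ⟨i, hi⟩
  · obtain ⟨i, -, hi⟩ := exists_orb hl hl2 hN hp.one_lt hc
    exact ⟨i, hi⟩

variable (hp : p.Prime) (hpM : p.Coprime M) {f : ℕ} (hf : f ≠ 0) (h1 : (p : ZMod M) ^ f = 1)
  (h : ∑ s ∈ Finset.range f, ∑ i, th ((p : ZMod M) ^ s * b i) = 0) {l : ℕ} (hl : l.Prime)
  (h2 : l = 2 → p ≠ 2)
include hp hpM hf h1 h hl h2

theorem evA {N A : ℕ} (hN : ¬ l ∣ N) (hMN : M = N * l ^ A) {κ : ℕ} (hκ1 : κ ≡ 1 [MOD N])
    (hκ2 : l ^ A ∣ κ + 1) : ∃ n : ℕ, ¬ l ∣ n ∧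
      Ev p M fun _ _ g => n • (∑ i, g (b i) + ∑ i, g ((κ : ZMod M) * b i)) = 0 := by
  obtain ⟨n0, hn0, hw⟩ := w_lemma hf h
  obtain ⟨K, n1, hn1, rfl⟩ := Nat.exists_eq_pow_mul_and_not_dvd hn0 l hl.ne_one
  have hNM : N ∣ M := hMN ▸ dvd_mul_right _ _
  obtain ⟨r, hr, hB, hr1, hr2, hy⟩ := tqKill_prime (K := K + f + A) hp hl h2 hN
    (hpM.coprime_dvd_right hNM) (M + p)
  have hM0 := Nat.pos_of_ne_zero (NeZero.ne M)
  have hrM : ¬ r ∣ M := Nat.not_dvd_of_pos_of_lt hM0 (by omega)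
  have hrp : ¬ r ∣ p := Nat.not_dvd_of_pos_of_lt hp.pos (by omega)
  have hrκ : (r : ZMod M) = -κ := by
    rw [eq_neg_iff_add_eq_zero, ← Nat.cast_add, ZMod.natCast_eq_zero_iff, hMN]
    refine Nat.Coprime.mul_dvd_of_dvd_of_dvd
      (((Nat.Prime.coprime_iff_not_dvd hl).2 hN).symm.pow_right _) ?_ ?_
    · exact ((hκ1.add_left r).dvd_iff dvd_rfl).2 hr2
    · refine ((((hr1.of_dvd (pow_dvd_pow l (by omega))).add_right κ)).dvd_iff dvd_rfl).2 ?_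
      rwa [add_comm]
  have : NeZero (M * r) := ⟨mul_ne_zero hM0.ne' hr.ne_zero⟩
  obtain ⟨e, he⟩ := pow_dvd_orderOf (K := K) hr hl hf (hr1.of_dvd (pow_dvd_pow l (by omega)))
    (x := (p : ZMod r)) (fun h => hrp ((ZMod.natCast_eq_zero_iff _ _).1 h)) hy
  refine ⟨n1, hn1, M * r, inferInstance, dvd_mul_right M r,
    hpM.mul_right ((Nat.Prime.coprime_iff_not_dvd hr).2 hrp).symm, fun Y _ g hg => ?_⟩
  obtain ⟨W, hW, hWp, hWb⟩ := caseA hr rfl hrM hrp h1 hg.dist hg.inv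
  have h3 := Finset.sum_congr rfl fun i (_ : i ∈ Finset.univ) => hWb (b i)
  simp only [hrκ, neg_mul, lv_neg (dvd_mul_right M r), hg.dist.neg, he,
    Finset.sum_nsmul, Finset.sum_sub_distrib, Finset.sum_neg_distrib] at h3
  have h4 := hw _ W hW hWp
  rw [sub_eq_add_neg, ← neg_add, neg_eq_iff_eq_neg, add_comm] at h3
  show n1 • (∑ i, g (lv (M * r) (b i)) + ∑ i, g (lv (M * r) ((κ : ZMod M) * b i))) = 0
  rw [h3, neg_nsmul, smul_smul,
    show n1 * (l ^ K * e) = e * (l ^ K * n1) by ring, mul_smul, h4, smul_zero, neg_zero]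

theorem evB {N A : ℕ} (hN : ¬ l ∣ N) (hMN : M = N * l ^ (A + 1)) : ∃ κ : ℕ, κ ≡ 1 [MOD N] ∧
    l ^ (A + 1) ∣ κ + 1 ∧ ∃ n : ℕ, ¬ l ∣ n ∧
      Ev p M fun _ _ g => n • 2 • (∑ i, g (b i) - ∑ i, g ((κ : ZMod M) * b i)) = 0 := by
  obtain ⟨n0, hn0, hw⟩ := w_lemma hf h
  obtain ⟨K, n1, hn1, rfl⟩ := Nat.exists_eq_pow_mul_and_not_dvd hn0 l hl.ne_one
  have hN0 : N ≠ 0 := by rintro rfl; exact hN (dvd_zero l)
  have hco : N.Coprime l := ((Nat.Prime.coprime_iff_not_dvd hl).2 hN).symm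
  have hNM : N ∣ M := hMN ▸ dvd_mul_right _ _
  have hlM : l ∣ M := hMN ▸ (dvd_pow_self l (by omega)).mul_left _
  obtain ⟨i, hi⟩ := tqKill_orb hp hl hN
    ((hpM.coprime_dvd_right hNM).mul_right (hpM.coprime_dvd_right hlM))
  obtain ⟨κ, hκ1, hκ2⟩ := exists_kappa (N := N) (Q := l ^ (A + 1 + i + K))
    (pow_ne_zero _ hl.ne_zero) (hco.pow_right _)
  obtain ⟨L, hL⟩ : ∃ L, L = N * l ^ (A + 1 + i + K) := ⟨_, rfl⟩
  have : NeZero L := ⟨hL ▸ mul_ne_zero hN0 (pow_ne_zero _ hl.ne_zero)⟩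
  have hML : M ∣ L := by
    rw [hMN, hL]; exact mul_dvd_mul_left _ (pow_dvd_pow l (by omega))
  have hpL : p.Coprime L := by
    rw [hL]; exact (hpM.coprime_dvd_right hNM).mul_right ((hpM.coprime_dvd_right hlM).pow_right _)
  have hsq : (κ : ZMod L) * κ = 1 := by
    have := upAlg_sq (hco.pow_right _) hκ1 hκ2
    rw [← hL] at this
    exact_mod_cast (ZMod.natCast_eq_natCast_iff _ _ _).2 this
  refine ⟨κ, hκ1, (pow_dvd_pow l (by omega)).trans hκ2, n1, hn1, L, inferInstance, hML, hpL,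
    fun Y _ g hg => ?_⟩
  obtain ⟨W, hW, hWp, hWb⟩ := caseB hl hN hMN hL hpL (hL ▸ hi _) hκ1 hκ2
    (hg.dist.sub (hg.dist.twist (IsUnit.of_mul_eq_one _ hsq)))
    (fun y => by rw [mul_left_comm, hg.inv, hg.inv])
    (fun y => by rw [← mul_assoc, hsq, one_mul, neg_sub])
  have h3 := Finset.sum_congr rfl fun i (_ : i ∈ Finset.univ) => hWb (b i)
  simp only [natCast_mul_lv hML] at h3
  rw [Finset.sum_nsmul, Finset.sum_nsmul, Finset.sum_sub_distrib] at h3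
  have h4 := hw _ W hW hWp
  show n1 • 2 • (∑ i, g (lv L (b i)) - ∑ i, g (lv L ((κ : ZMod M) * b i))) = 0
  rw [h3, smul_smul, mul_comm, h4]

theorem ev_four : ∃ n : ℕ, ¬ l ∣ n ∧ Ev p M fun _ _ g => n • 4 • ∑ i, g (b i) = 0 := by
  obtain ⟨A, N, hN, hMN⟩ := Nat.exists_eq_pow_mul_and_not_dvd (NeZero.ne M) l hl.ne_one
  rw [mul_comm] at hMN
  rcases A with _ | A
  · obtain ⟨n, hn, hg⟩ := evA hp hpM hf h1 h hl h2 hN hMN (κ := 1) rfl (by simp)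
    refine ⟨n, hn, hg.mono fun Y _ g _ H => ?_⟩
    simp only [Nat.cast_one, one_mul] at H
    have e : n • 4 • ∑ i, g (b i) = 2 • n • (∑ i, g (b i) + ∑ i, g (b i)) := by module
    rw [e, H, smul_zero]
  · obtain ⟨κ, hκ1, hκ2, n, hn, hg⟩ := evB hp hpM hf h1 h hl h2 hN hMN
    obtain ⟨n', hn', hg'⟩ := evA hp hpM hf h1 h hl h2 hN hMN hκ1 hκ2
    refine ⟨n * n', hl.not_dvd_mul hn hn', (hg.and hg').mono fun Y _ g _ H => ?_⟩
    have e : (n * n') • 4 • ∑ i, g (b i) =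
        n' • n • 2 • (∑ i, g (b i) - ∑ i, g ((κ : ZMod M) * b i)) +
          (2 * n) • n' • (∑ i, g (b i) + ∑ i, g ((κ : ZMod M) * b i)) := by module
    rw [e, H.1, H.2, smul_zero, smul_zero, add_zero]

end Pool.Agent.Tate
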