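import Pool.Agent.P.MP_2ce3e7_ag.TQQuad

/-! The prime two for levels that are not divisible by four. -/

set_option autoImplicit false
set_option linter.unusedSectionVars false

noncomputable section

namespace Pool.Agent.Tate

open Pool.Agent.P.MP_e12fcd_ag.Fermat (bern tors mem_tors card_tors sum_tors_unit sum_tors_shift)

theorem tqOne_chi {p r f : ℕ} [Fact r.Prime] (h : r % 4 = 1) (hn : ¬ IsSquare (p : ZMod r))
    (hf : Odd f) : ∃ (χ : (ZMod r)ˣ →* Multiplicative (ZMod 4)) (x : (ZMod r)ˣ),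
      (x : ZMod r) = (p ^ f : ℕ) ∧ χ x = Multiplicative.ofAdd 1 := by
  have h2 : ¬ IsSquare ((p ^ f : ℕ) : ZMod r) := by
    rw [Nat.cast_pow]
    exact not_isSquare_pow hn hf
  have h0 : ((p ^ f : ℕ) : ZMod r) ≠ 0 := fun e => h2 (e ▸ IsSquare.zero)
  obtain ⟨χ, hχ⟩ := exists_chi4 h (x := Units.mk0 _ h0) h2
  exact ⟨χ, _, rfl, hχ⟩

theorem tqOne_cop {p r : ℕ} (hr : r.Prime) (hn : ¬ IsSquare (p : ZMod r)) : p.Coprime r :=
  (hr.coprime_iff_not_dvd.2 fun e =>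
    hn ((ZMod.natCast_eq_zero_iff p r).2 e ▸ IsSquare.zero)).symm

variable {p M : ℕ} [NeZero M] (hp : p.Prime) (hpM : p.Coprime M) (h4 : ¬ 4 ∣ M) {f : ℕ}
  (hf : Odd f) (h1 : (p : ZMod M) ^ f = 1)
include hp hpM h4 hf h1

theorem ev_gal : Ev p M fun Y _ g => ∃ W : ZMod M → Y, Dist M W ∧ Gal fun b => g b + 2 • W b := by
  obtain ⟨r, r1, r2, r3, r4, r5⟩ := exists_nonsq_prime' hp h4 hpM (-1) M
  choose q q1 q2 q3 q4 q5 using fun t : (ZMod M)ˣ => exists_nonsq_prime' hp h4 hpM t r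
  have : NeZero (M * r * ∏ t, q t) := ⟨mul_ne_zero (mul_ne_zero (NeZero.ne M) r1.ne_zero)
    (Finset.prod_ne_zero_iff.2 fun t _ => (q1 t).ne_zero)⟩
  refine ⟨M * r * ∏ t, q t, inferInstance, (dvd_mul_right M r).mul_right _,
    (hpM.mul_right (tqOne_cop r1 r5)).mul_right
      (Nat.Coprime.prod_right fun t _ => tqOne_cop (q1 t) (q5 t)), fun Y _ g hg => ?_⟩
  have := Fact.mk r1
  have hL : M * r ∣ M * r * ∏ t, q t := dvd_mul_right _ _
  have hrM : ¬ r ∣ M := Nat.not_dvd_of_pos_of_lt (NeZero.pos M) r2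
  have hP : ((p ^ f : ℕ) : ZMod M) = 1 := by rw [Nat.cast_pow, h1]
  have hi : ∀ y, g (((p ^ f : ℕ) : ZMod (M * r * ∏ t, q t)) * y) = g y := fun y => by
    rw [Nat.cast_pow, hg.pow]
  obtain ⟨χ, x, hx, hχ⟩ := tqOne_chi r3 r5 hf
  refine ⟨qW _ χ g, qW_dist hL hrM hx hχ hP hg.dist hi, fun t b => ?_⟩
  have := Fact.mk (q1 t)
  have hL' : M * q t ∣ M * r * ∏ t, q t :=
    mul_dvd_mul (dvd_mul_right M r) (Finset.dvd_prod_of_mem q (Finset.mem_univ t))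
  have hqM : ¬ q t ∣ M := Nat.not_dvd_of_pos_of_lt (NeZero.pos M) (r2.trans (q2 t))
  obtain ⟨χ', x', hx', hχ'⟩ := tqOne_chi (q3 t) (q5 t) hf
  have e1 := qW_comm hL hrM hx hχ hP hg.dist hi hL' hqM (q2 t).ne hx' hχ' b
  have e2 := qW_four hL' hqM hx' hχ' hP hg.dist hi b
  rw [q4, r4, Units.val_neg, Units.val_one, neg_one_mul,
    (qW_dist hL' hqM hx' hχ' hP hg.dist hi).neg] at e1
  rw [q4] at e2
  beta_reduce
  linear_combination (norm := module) 2 • e1 - e2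

theorem ev_one {ι : Type} [Fintype ι] {b : ι → ZMod M} (h : ∑ i, th (b i) = 0)
    (H : ∀ (Y : Type) [AddCommGroup Y] (G : ZMod M → Y), Dist M G → Gal G → Kb M G →
      ∑ i, G (b i) = 0) : Ev p M fun _ _ g => ∑ i, g (b i) = 0 := by
  refine (ev_gal hp hpM h4 hf h1).mono fun Y _ g hg ⟨W, hW, hG⟩ => ?_
  have := H Y _ ⟨fun c => ?_, fun d hd hdM c => ?_⟩ hG fun κ _ c hc h0 => ?_
  · rwa [Finset.sum_add_distrib, ← Finset.smul_sum, hW.two_bal h, add_zero] at this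
  · rw [hg.dist.neg, hW.neg, smul_neg, neg_add]
  · rw [Finset.sum_add_distrib, ← Finset.smul_sum, hg.dist.dist d hd hdM, hW.dist d hd hdM]
  · rw [Finset.sum_add_distrib, ← Finset.smul_sum, hW.two_bal h0, hg.kb κ c hc h0, add_zero]

end Pool.Agent.Tate
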