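import Pool.Agent.P.MP_2ce3e7_ag.UpEmb
import Pool.Agent.P.MP_2ce3e7_ag.UpTh
import Pool.Agent.P.MP_2ce3e7_ag.St1
import Pool.Agent.P.MP_2ce3e7_ag.Fil
import Pool.Agent.P.MP_2ce3e7_ag.Jac

/-! Lowering the level. -/

set_option autoImplicit false

noncomputable section

namespace Pool.Agent.Tate

open MvPolynomial

/-- averaging along a surjective map of groups -/
theorem upLow_avg {H H' V W : Type*} [AddCommGroup H] [Fintype H] [AddCommGroup H'] [Fintype H']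
    [AddCommGroup V] [Module ℂ V] [AddCommGroup W] [Module ℂ W] {ρ' : H' → Module.End ℂ V}
    {ρ : H → Module.End ℂ W} {χ' : H' → ℂ} {χ : H → ℂ} (F : V →ₗ[ℂ] W) (c : H' →+ H)
    (hc : Function.Surjective c) (h : ∀ g x, F (ρ' g x) = ρ (c g) (F x))
    (hχ : ∀ g, χ' g = χ (c g)) (x : V) : F (avg ρ' χ' x) = avg ρ χ (F x) := by
  have : Nonempty H := ⟨0⟩
  have : Nonempty H' := ⟨0⟩
  have h1 : (Fintype.card H : ℂ) ≠ 0 := Nat.cast_ne_zero.2 Fintype.card_ne_zero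
  have h2 : (Fintype.card H' : ℂ) ≠ 0 := Nat.cast_ne_zero.2 Fintype.card_ne_zero
  obtain ⟨T, hT⟩ : ∃ T : H → W, T = fun g => χ (-g) • ρ g (F x) := ⟨_, rfl⟩
  have h3 : ∀ t : H, ∑ g, T (c g) = ∑ g, T (c g + t) := by
    intro t
    obtain ⟨s, rfl⟩ := hc t
    rw [← Equiv.sum_comp (Equiv.addRight s) fun g => T (c g)]
    simp only [Equiv.coe_addRight, map_add]
  have h4 : (Fintype.card H : ℂ) • ∑ g, T (c g) = (Fintype.card H' : ℂ) • ∑ g, T g := by
    rw [Nat.cast_smul_eq_nsmul, Nat.cast_smul_eq_nsmul, ← Finset.card_univ, ← Finset.card_univ,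
      ← Finset.sum_const, ← Finset.sum_const, Finset.sum_congr rfl fun t _ => h3 t,
      Finset.sum_comm]
    exact Finset.sum_congr rfl fun g _ => Equiv.sum_comp (Equiv.addLeft (c g)) T
  have h5 : F (avg ρ' χ' x) = (Fintype.card H' : ℂ)⁻¹ • ∑ g, T (c g) := by
    simp only [avg_apply, map_smul, map_sum, h, hχ, hT, map_neg]
  have h6 : avg ρ χ (F x) = (Fintype.card H : ℂ)⁻¹ • ∑ g, T g := by
    rw [avg_apply, hT]
  rw [h5, h6, inv_smul_eq_iff₀ h2, smul_comm, ← h4, inv_smul_smul₀ h1]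

section One
variable {m : ℕ} [NeZero m] {k ι : Type} [Field k] [Fintype ι] [DecidableEq ι] {ζ : Rt m k}

theorem upLow_pr_Dg (a : Ch m) :
    pr ζ (Sum.elim (fun _ => a) fun _ => -a) (Dg m k) = Da ζ a := by
  rw [← sum_P1 (ζ := ζ) (Sum.inl ()) (Dg m k), map_sum, Finset.sum_eq_single a]
  · exact pr_of_mem (Da_mem a)
  · intro c _ hc
    exact pr_of_ne (fun h => hc (congrFun h (Sum.inl ())).symm) (Da_mem c)
  · exact fun h => (h (Finset.mem_univ _)).elim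

theorem upLow_kil {b : ι → Ch m} (i : ι) (hb : Nd (b i)) (j : Fin 3) :
    Kil (pr ζ b : Module.End ℂ (G m k ι)) (Ideal.span {X (i, j)}) := by
  intro M hM
  have h1 : P1 ζ i (b i) (pr ζ b (cls M)) = pr ζ b (P1 ζ i (b i) (cls M)) :=
    avg_comm (P1 ζ i (b i)) (fun _ y => eig_P1_tw i (b i) _ y) _
  rw [← P1_of_mem (mem_Ga.1 (pr_mem b (cls M)) i), h1, kil_var (nd_iff.1 hb j) M hM, map_zero]

theorem upLow_pr_diag {a : Ch m} (ha : Nd a) (n : Unit ⊕ Unit → ℤ) :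
    pr ζ (Sum.elim (fun _ => a) fun _ => -a) (cy m (PD0 m k) n) = Da ζ a := by
  rw [← upLow_pr_Dg]
  refine cy_shift grI_PD0 (PD0_isPrime ζ.ne) Fer_le_PD0 (fun _ => 0)
    (fun i h => X_notMem_Fer ζ.ne ((), 0) ?_) (fun i M hM => ?_) n 0
  · have := (mem_PD0 (hg_X _)).1 h
    rwa [rn_X] at this
  · refine upLow_kil i ?_ 0 M (le_sup_right.trans hM)
    rcases i with i | i
    · exact ha
    · exact ha.neg

theorem upLow_pr_pt [Fintype k] [NeZero (m : k)] {a : Ch m} (ha : Nd a)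
    {P : Ideal (S k (Unit ⊕ Unit))} (hg : GrI P) (hP : PD0 m k < P) (n : Unit ⊕ Unit → ℤ) :
    pr ζ (Sum.elim (fun _ => a) fun _ => -a) (cy m P n) = 0 := by
  obtain ⟨p, hp⟩ := CharP.exists k
  obtain ⟨f, hpp, hf⟩ := FiniteField.card k p
  have : Fact p.Prime := ⟨hpp⟩
  have hm := NeZero.ne m
  have h0 : Fer m k (Unit ⊕ Unit) < PD0 m k := by
    obtain ⟨c, hc⟩ := exists_minor_notMem (ι := Unit ⊕ Unit) ζ.ne
      (show (Sum.inl () : Unit ⊕ Unit) ≠ Sum.inr () from Sum.inl_ne_inr)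
    exact lt_of_le_of_ne Fer_le_PD0 fun h => hc (h ▸ minor_mem_PD0 c)
  have h3 : Dim (2 + 1) (cy m (Fer m k (Unit ⊕ Unit)) 0) := by
    intro T hT
    have := T.card_le_univ
    rw [Fintype.card_sum, Fintype.card_unit] at this
    omega
  have h2 : Dim (1 + 1) (cy m (PD0 m k) 0) :=
    dim_drop hm grI_Fer (fer_isPrime ζ.ne) le_rfl grI_PD0 h0 h3 0
  have h1 : Dim (0 + 1) (cy m P n) :=
    dim_drop hm grI_PD0 (PD0_isPrime ζ.ne) Fer_le_PD0 hg hP h2 n
  have hq : QLike (p ^ (f : ℕ)) (fr p fun _ => (f : ℕ) : Module.End ℂ (G m k (Unit ⊕ Unit))) :=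
    qlike_fr p fun c => by rw [← hf]; exact FiniteField.pow_card c
  have h4 := hq.step hm (pow_pos hpp.pos f) 0 (fil_cy_mem hg (Fer_le_PD0.trans hP.le) h1)
  rw [Fil_zero hm, Submodule.mem_bot, pow_zero, one_smul, sub_eq_zero] at h4
  have h5 := fr_pr (ζ := ζ) p (s := fun _ : Unit ⊕ Unit => (f : ℕ))
    (fun _ => rt_pow ζ p (RingHom.id k) rfl hf) (Sum.elim (fun _ => a) fun _ => -a) (cy m P n)
  have h6 := fr_Ga p (RingHom.id k) (z := ζ.1) rfl hf
    (a := (Sum.elim (fun _ => a) fun _ => -a : Unit ⊕ Unit → Ch m))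
    (fun i => by
      rcases i with i | i
      · exact ha
      · exact ha.neg) (pr_mem _ (cy m P n)) 1
  simp only [mul_one, pow_one, Fintype.prod_sum_type, Fintype.prod_unique, Sum.elim_inl,
    Sum.elim_inr, neg_mul_neg, Jac_mul ζ.2 ha] at h6
  rw [h5, h4] at h6
  have h7 : ((Fintype.card k : ℂ) - 1) ≠ 0 :=
    sub_ne_zero.2 (by exact_mod_cast (Fintype.one_lt_card (α := k)).ne')
  refine (smul_eq_zero.1 ?_).resolve_left h7
  rw [sub_smul, one_smul, ← h6, sub_self]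

theorem upLow_tr [Fintype k] [NeZero (m : k)] {a : Ch m} (ha : Nd a) {N : GM m k (Unit ⊕ Unit)}
    (h1 : PD0 m k ≤ N.ann) (h2 : N.ann ≤ PD0 m k) :
    tr (pr ζ (Sum.elim (fun _ => a) fun _ => -a) (cls N)) ≠ 0 := by
  classical
  obtain ⟨p, hp⟩ := CharP.exists k
  obtain ⟨f, hpp, -⟩ := FiniteField.card k p
  have : Fact p.Prime := ⟨hpp⟩
  obtain ⟨n, P, s, a1, a2, a3⟩ := dv N
  obtain ⟨i0, hi0⟩ := a2 _ (PD0_isPrime ζ.ne) h2
  have h3 : ∀ i, tr (pr ζ (Sum.elim (fun _ => a) fun _ => -a) (cy m (P i) (s i))) =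
      -if P i = PD0 m k then 1 else 0 := by
    intro i
    split_ifs with h
    · rw [h, upLow_pr_diag ha, tr_Da ζ p ha]
    · rw [upLow_pr_pt ha (a1 i).1 (lt_of_le_of_ne (h1.trans (a1 i).2.2) (Ne.symm h)), map_zero,
        neg_zero]
  rw [a3, map_sum, map_sum, Finset.sum_congr rfl fun i _ => h3 i, Finset.sum_neg_distrib,
    Finset.sum_boole, neg_ne_zero, Nat.cast_ne_zero]
  exact Finset.card_ne_zero.2 ⟨i0, Finset.mem_filter.2
    ⟨Finset.mem_univ _, le_antisymm hi0 (h1.trans (a1 i0).2.2)⟩⟩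

end One

variable {m L e : ℕ} [NeZero m] [NeZero L] {k ι κ : Type} [Field k] [Fintype ι] [DecidableEq ι]
  [Fintype κ] [DecidableEq κ] (hL : L = m * e)
include hL

omit [NeZero m] in
theorem upLow_ne : e ≠ 0 := fun h => NeZero.ne L (by rw [hL, h, mul_zero])

omit [NeZero m] [NeZero L] in
theorem upLow_dvd : m ∣ L := ⟨e, hL⟩

omit [NeZero m] [DecidableEq ι] [DecidableEq κ] in
theorem upG_reG (σ : ι ≃ κ) (x : G L k ι) : upG m e (reG σ x) = reG σ (upG m e x) := by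
  refine upG_pull hL (upLow_ne hL) (Ops_re_s σ) (Ops_re_s σ) (fun v => ?_) (fun d => ?_) x
  · rw [expand_X, map_pow, Ops_re_X, Ops_re_X, expand_X]
  · rw [Ops_re_val, Ops_re_val]
    rfl

theorem upLow_empty [IsEmpty ι] (x : G L k ι) : chi (upG m e x) = chi x := by
  have h : chi ∘ₗ upG m e = (chi : G L k ι →ₗ[ℂ] ℂ) := by
    refine G.ext fun M => ?_
    obtain ⟨N, j, h⟩ := exists_isUp hL (upLow_ne hL) M
    have h1 : LinearMap.range (M.π ((e : ℤ) • 0)) = (LinearMap.range (N.π 0)).map j := by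
      refine le_antisymm ?_ ?_
      · rintro _ ⟨x, rfl⟩
        obtain ⟨y, hy⟩ := h.surj 0 x
        exact ⟨_, ⟨y, rfl⟩, by rw [h.π, hy, M.π_self]⟩
      · rintro _ ⟨_, ⟨y, rfl⟩, rfl⟩
        exact ⟨_, (h.π 0 y).symm⟩
    rw [smul_zero] at h1
    rw [LinearMap.comp_apply, h.upG_cls hL (upLow_ne hL), chi_cls_empty (NeZero.ne m),
      chi_cls_empty (NeZero.ne L), hilb, hilb, h1,
      (Submodule.equivMapOfInjective j h.inj _).finrank_eq]
  exact LinearMap.congr_fun h x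

omit [NeZero m] in
theorem upLow_PD0 {f : S k (Unit ⊕ Unit)} {d : Unit ⊕ Unit → ℤ} (hf : Hg f d) :
    expand e f ∈ PD0 L k ↔ f ∈ PD0 m k := by
  rw [mem_PD0 (hg_expand e hf), mem_PD0 hf, rn, rename_expand]
  exact ⟨mem_Fer_of_expand hL (upLow_ne hL), expand_mem_Fer hL⟩

variable {ζ : Rt m k} {ζ' : Rt L k} (hζ : ζ.1 = ζ'.1 ^ e)
include hζ

omit [DecidableEq ι] in
theorem upG_tw3 (g : ι → Fin 3 → ZMod L) (x : G L k ι) :
    upG m e (tw3 ζ' g x) =
      tw3 ζ (fun i j => ZMod.castHom (upLow_dvd hL) (ZMod m) (g i j)) (upG m e x) := by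
  refine upG_pull hL (upLow_ne hL) (Ops_tw_s ζ _) (Ops_tw_s ζ' g) (fun v => ?_) (fun d => ?_) x
  · rw [expand_X, map_pow, Ops_tw_X, Ops_tw_X, map_mul, expand_C, expand_X, mul_pow, ← map_pow,
      c3, c3, ZMod.castHom_apply, ZMod.cast_eq_val, ZMod.val_natCast, Ops_pow_mod, hζ,
      ← pow_mul, ← pow_mul, mul_comm e]
  · rw [Ops_tw_val, Ops_tw_val]

theorem upG_pr (a : ι → Ch m) (x : G L k ι) :
    upG m e (pr ζ' (fun i => lf L (a i)) x) = pr ζ a (upG m e x) := by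
  let c0 : ZMod L →+ ZMod m := (ZMod.castHom (upLow_dvd hL) (ZMod m)).toAddMonoidHom
  have hc0 : Function.Surjective c0 := ZMod.castHom_surjective (upLow_dvd hL)
  refine upLow_avg (upG m e) ((c0.prodMap c0).compLeft ι)
    (Function.Surjective.comp_left (hc0.prodMap hc0)) (fun g y => ?_) (fun g => ?_) x
  · rw [tw, upG_tw3 hL hζ, tw]
    congr 2
    funext i j
    fin_cases j
    · rfl
    · rfl
    · exact map_zero _
  · exact Finset.prod_congr rfl fun i _ => ch1_lf (upLow_dvd hL) _ _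

variable [Fintype k] [NeZero (m : k)] [NeZero (L : k)]

omit [NeZero (L : k)] in
theorem upLow_Da {a : Ch m} (ha : Nd a) : tr (upG m e (Da ζ' (lf L a))) ≠ 0 := by
  have h1 : (Sum.elim (fun _ => lf L a) fun _ => -lf L a : Unit ⊕ Unit → Ch L) =
      fun i => lf L ((Sum.elim (fun _ => a) fun _ => -a : Unit ⊕ Unit → Ch m) i) := by
    funext i
    rcases i with i | i
    · rfl
    · exact (lf_neg (upLow_dvd hL) a).symm
  obtain ⟨M, x, hx, hM⟩ := exists_cy (grI_PD0 (m := L) (k := k)) Fer_le_PD0 0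
  obtain ⟨N, j, h⟩ := exists_isUp hL (upLow_ne hL) M
  rw [← upLow_pr_Dg, h1, upG_pr hL hζ, Dg, hM, h.upG_cls hL (upLow_ne hL)]
  refine upLow_tr ha (grI_PD0.le_of_hom fun f d hd hf => GM.mem_ann.2 fun y => h.inj ?_)
    (N.grI_ann.le_of_hom fun f d hd hf => ?_)
  · rw [h.smul, map_zero]
    exact GM.mem_ann.1 (hx.ann_eq.symm ▸ (upLow_PD0 hL hd).2 hf) _
  · obtain ⟨y, hy⟩ := h.surj 0 x
    have h2 := hx.deg
    rw [neg_zero] at h2
    rw [smul_zero, h2] at hy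
    refine (upLow_PD0 hL hd).1 ((hx.ann _).1 ?_)
    rw [← hy, ← h.smul, GM.mem_ann.1 hf y, map_zero]

theorem tr_upG_Da {a : Ch m} (ha : Nd a) : tr (upG m e (Da ζ' (lf L a))) ≠ 0 :=
  upLow_Da hL hζ ha

omit hL hζ [NeZero m] [Fintype k] [NeZero (L : k)] in
/-- the injectivity statement for one index type -/
def UpLowInj (m e : ℕ) [NeZero (m : k)] (ζ' : Rt L k) (ι : Type) [Fintype ι] [DecidableEq ι] :
    Prop :=
  ∀ a : ι → Ch m, (∀ i, Nd (a i)) → ∀ x : G L k (ι ⊕ ι),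
    x ∈ Ga ζ' (Sum.elim (fun i => lf L (a i)) (-fun i => lf L (a i))) →
      tr (upG m e x) = 0 → x = 0

omit hζ [NeZero m] [Fintype k] [NeZero (L : k)] in
theorem upLow_equiv (σ : ι ≃ κ) (h : UpLowInj m e ζ' κ) : UpLowInj m e ζ' ι := by
  intro a ha x hx h0
  refine reG_inj (σ.sumCongr σ) (h (a ∘ σ.symm) (fun i => ha _) _ ?_ ?_)
  · rw [reG_Ga]
    have h1 : Sum.elim (fun i => lf L ((a ∘ σ.symm) i)) (-fun i => lf L ((a ∘ σ.symm) i)) ∘
        σ.sumCongr σ = Sum.elim (fun i => lf L (a i)) (-fun i => lf L (a i)) := by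
      funext i
      rcases i with i | i <;> simp
    rw [h1]
    exact hx
  · rw [upG_reG hL, tr_reG, h0]

omit hζ [Fintype k] [NeZero (L : k)] in
theorem upLow_zero [IsEmpty ι] : UpLowInj m e ζ' ι := by
  intro a _ x _ h0
  rw [tr_empty, upLow_empty hL] at h0
  rw [G_empty (NeZero.ne L) x, h0, zero_smul]

omit [NeZero (L : k)] in
theorem upLow_step (h : UpLowInj m e ζ' ι) : UpLowInj m e ζ' (Unit ⊕ ι) := by
  intro a ha x hx h0
  obtain ⟨x', rfl⟩ : ∃ x', x = reG (Equiv.sumSumSumComm Unit Unit ι ι) x' :=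
    ⟨reG (Equiv.sumSumSumComm Unit Unit ι ι).symm x,
      (reG_symm (Equiv.sumSumSumComm Unit Unit ι ι).symm x).symm⟩
  rw [reG_Ga] at hx
  have hx1 := mem_Ga.1 hx (Sum.inl (Sum.inl ()))
  have hx2 := mem_Ga.1 hx (Sum.inl (Sum.inr ()))
  obtain ⟨y, rfl⟩ := nd_part ((nd_lf (upLow_dvd hL)).2 (ha (Sum.inl ()))) hx1 hx2
  have h1 := pr_of_mem hx
  have hc : (Sum.elim (fun i => lf L (a i)) (-fun i => lf L (a i)) ∘
      Equiv.sumSumSumComm Unit Unit ι ι) ∘ Sum.inl =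
      Sum.elim (fun _ => lf L (a (Sum.inl ()))) fun _ => -lf L (a (Sum.inl ())) := by
    funext i
    rcases i with i | i <;> rfl
  have hb : (Sum.elim (fun i => lf L (a i)) (-fun i => lf L (a i)) ∘
      Equiv.sumSumSumComm Unit Unit ι ι) ∘ Sum.inr =
      Sum.elim (fun i => lf L ((a ∘ Sum.inr) i)) (-fun i => lf L ((a ∘ Sum.inr) i)) := by
    funext i
    rcases i with i | i <;> rfl
  rw [pr_box, hc, hb, pr_of_mem (Da_mem _)] at h1
  rw [← h1] at h0 ⊢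
  rw [upG_reG hL, upG_box hL (upLow_ne hL), tr_mul] at h0
  rw [h (a ∘ Sum.inr) (fun i => ha _) _ (pr_mem _ _)
    ((mul_eq_zero.1 h0).resolve_left (upLow_Da hL hζ (ha _))), map_zero, map_zero]

omit [NeZero (L : k)] in
theorem upLow_fin (n : ℕ) : UpLowInj m e ζ' (Fin n) := by
  induction n with
  | zero => exact upLow_zero hL
  | succ n ih =>
    exact upLow_equiv hL (Fintype.equivOfCardEq (by simp [add_comm])) (upLow_step hL hζ ih)

theorem HasPair.lower {a : ι → Ch m} (ha : ∀ i, Nd (a i))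
    (h : HasPair ζ' fun i => lf L (a i)) : HasPair ζ a := by
  obtain ⟨x, hx, y, hy, hxy⟩ := h
  have h1 : (-fun i => lf L (a i)) = fun i => lf L ((-a) i) :=
    funext fun i => (lf_neg (upLow_dvd hL) (a i)).symm
  refine ⟨upG m e x, ?_, upG m e y, ?_, fun h0 => hxy ?_⟩
  · rw [← pr_of_mem hx, upG_pr hL hζ]
    exact pr_mem _ _
  · rw [← pr_of_mem hy, h1, upG_pr hL hζ]
    exact pr_mem _ _
  · rw [prg_apply, ← upG_box hL (upLow_ne hL)] at h0
    rw [prg_apply, upLow_equiv hL (Fintype.equivFin ι) (upLow_fin hL hζ _) a ha _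
      (box_mem_Ga hx hy) h0, map_zero]

end Pool.Agent.Tate
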