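import Pool.Agent.P.MP_2ce3e7_ag.UpStA
import Pool.Agent.P.MP_2ce3e7_ag.UpTh
import Pool.Agent.P.MP_2ce3e7_ag.UpOrb
import Pool.Agent.P.MP_2ce3e7_ag.Jac

/-! Products of Jacobi sums that are powers of the order of the field. -/

set_option autoImplicit false

noncomputable section

namespace Pool.Agent.Tate

open Pool.Agent.P

variable {m : ℕ} [NeZero m] {F : Type} [Field F] [Fintype F] {p f : ℕ} [Fact p.Prime]

theorem UpStB_char {z : F} (hz : IsPrimitiveRoot z m) (t : (ZMod m)ˣ) :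
    ∃ (γ : F) (ω : MulChar F ℂ), IsPrimitiveRoot γ (Fintype.card F - 1) ∧
      IsPrimitiveRoot (ω γ) (Fintype.card F - 1) ∧
      ∀ b : ZMod m, jacM hz b = ω ^ ((Fintype.card F - 1) / m * ((t : ZMod m) * b).val) := by
  have h2 : 1 < Fintype.card F := Fintype.one_lt_card
  have hn := jac_mul_div hz
  have hd := jac_div_ne hz
  obtain ⟨g, hg⟩ := jac_gen (F := F)
  generalize hd' : (Fintype.card F - 1) / m = d at hn hd
  have hn' : Fintype.card F - 1 = m * d := by rw [← hn, mul_comm]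
  obtain ⟨γ, h1, h3⟩ := exists_root_pow (m := m) (e := d) (by omega) (hn' ▸ hg)
    (hz.pow_of_coprime _ (ZMod.val_coe_unit_coprime t))
  rw [← hn'] at h1
  have : NeZero (Fintype.card F - 1) := ⟨by omega⟩
  have h4 : jacM h1 1 γ = Complex.exp (2 * Real.pi * Complex.I / (Fintype.card F - 1 : ℕ)) := by
    rw [jacM_apply, jac_chr_of h1 1 (t := 1) (by
      rw [Nat.div_self (by omega), ZMod.val_one_eq_one_mod, jac_pow_mod h1]), mul_one]
    simpa using ZMod.stdAddChar_coe (N := Fintype.card F - 1) 1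
  refine ⟨γ, jacM h1 1, h1, h4 ▸ Complex.isPrimitiveRoot_exp _ (by omega), fun b => ?_⟩
  refine MulChar.ext fun u => ?_
  obtain ⟨j, -, hj⟩ := h1.eq_pow_of_pow_eq_one
    (FiniteField.pow_card_sub_one_eq_one (u : F) u.ne_zero)
  rw [MulChar.pow_apply_coe, ← hj, map_pow, map_pow, ← pow_mul, mul_comm j, pow_mul]
  congr 1
  rw [h4, jacM_apply, jac_chr_of hz b (t := t) (by rw [hd', h3]), ← Complex.exp_nat_mul]
  have h5 := ZMod.stdAddChar_coe (N := m) (((t : ZMod m) * b).val : ℤ)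
  rw [Int.cast_natCast, ZMod.natCast_zmod_val] at h5
  rw [mul_comm b, h5, hn']
  congr 1
  have : (m : ℂ) ≠ 0 := Nat.cast_ne_zero.2 (NeZero.ne m)
  have : (d : ℂ) ≠ 0 := Nat.cast_ne_zero.2 hd
  push_cast
  field_simp

theorem UpStB_sum (hF : Fintype.card F = p ^ f) {z : F} (hz : IsPrimitiveRoot z m) (hm : 3 ≤ m)
    {ι : Type} [Fintype ι] {a : ι → Ch m} (ha : ∀ i, Nd (a i)) {e : ℤ}
    (h : ∏ i, -Jac z (a i) = (Fintype.card F : ℂ) ^ e) (t : (ZMod m)ˣ) :
    ∑ i, ∑ s ∈ Finset.range f, ((((p : ZMod m) ^ s * (t * (a i).1)).val : ℤ) +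
      ((p : ZMod m) ^ s * (t * (a i).2)).val -
      ((p : ZMod m) ^ s * (t * ((a i).1 + (a i).2))).val) = e * f * m := by
  obtain ⟨γ, ω, h1, h2, h3⟩ := UpStB_char hz t
  have hn := jac_mul_div hz
  have hd := jac_div_ne hz
  generalize (Fintype.card F - 1) / m = d at hn hd h3
  have hd0 : 0 < d := Nat.pos_of_ne_zero hd
  obtain ⟨V, ρ, ψ, r0, r1, r2, -, r4⟩ := stick_gauss hF (by
    have : 1 * m ≤ d * m := Nat.mul_le_mul_right _ hd0
    omega) h1 h2
  let S : ZMod m → ℕ := fun b => ∑ s ∈ Finset.range f, ((p : ZMod m) ^ s * (t * b)).val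
  have a1 : ∀ b, V.valuation (gaussSum (jacM hz b) ψ) ^ (d * m) = ρ ^ ((p - 1) * d * S b) := by
    intro b
    rw [h3, hn, r4 _ (by rw [← hn]; exact Nat.mul_lt_mul_of_pos_left (ZMod.val_lt _) hd0),
      mul_assoc]
    congr 2
    rw [Finset.mul_sum]
    refine Finset.sum_congr rfl fun s _ => ?_
    rw [← hn, mul_left_comm, Nat.mul_mod_mul_left, ZMod.val_mul ((p : ZMod m) ^ s),
      ← Nat.cast_pow, ZMod.val_natCast, Nat.mod_mul_mod]
  have a2 : ∀ i, ρ ^ ((p - 1) * d * S ((a i).1 + (a i).2)) *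
      V.valuation (-Jac z (a i)) ^ (d * m) = ρ ^ ((p - 1) * d * (S (a i).1 + S (a i).2)) := by
    intro i
    have := jacobiSum_mul_nontrivial (χ := jacM hz (a i).1) (φ := jacM hz (a i).2)
      (by rw [jacM_add]; exact jacM_ne hz (ha i).2.2) ψ
    rw [jacM_add] at this
    rw [mul_add, pow_add, ← a1, ← a1, ← a1, ← mul_pow, ← mul_pow, Valuation.map_neg, ← map_mul,
      ← map_mul, ← this]
    rfl
  have a3 := Finset.prod_congr (s₁ := Finset.univ) rfl fun i _ => a2 i
  rw [Finset.prod_mul_distrib, Finset.prod_pow_eq_pow_sum, Finset.prod_pow_eq_pow_sum,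
    Finset.prod_pow, ← map_prod, h, map_zpow₀, hF, Nat.cast_pow, map_pow, r2, ← pow_mul,
    ← zpow_natCast, ← zpow_natCast, ← zpow_natCast, ← zpow_natCast, ← zpow_mul, ← zpow_mul,
    ← zpow_add₀ r0] at a3
  have a4 := zpow_right_injective₀ (zero_lt_iff.2 r0) r1.ne a3
  have hp : (((p - 1 : ℕ) : ℤ) * d) ≠ 0 := by
    have := (Fact.out : p.Prime).two_le
    exact_mod_cast mul_ne_zero (by omega) hd
  apply mul_left_cancel₀ hp
  simp only [← Finset.mul_sum] at a4
  push_cast [S] at a4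
  simp only [Finset.sum_add_distrib, Finset.sum_sub_distrib] at a4 ⊢
  linear_combination -a4

theorem stick (hF : Fintype.card F = p ^ f) {z : F} (hz : IsPrimitiveRoot z m) {ι : Type}
    [Fintype ι] {a : ι → Ch m} (ha : ∀ i, Nd (a i)) {e : ℤ}
    (h : ∏ i, -Jac z (a i) = (Fintype.card F : ℂ) ^ e) :
    ∑ s ∈ Finset.range f, ∑ i, ty ((p : ZMod m) ^ s • a i) = 0 := by
  rcases isEmpty_or_nonempty ι with hι | ⟨⟨i0⟩⟩
  · simp
  have hu : IsUnit (p : ZMod m) := by
    have h2 : 1 < Fintype.card F := Fintype.one_lt_card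
    have hf : f ≠ 0 := by rintro rfl; rw [pow_zero] at hF; omega
    have h1 : p ^ f = (Fintype.card F - 1) / m * m + 1 := by rw [jac_mul_div hz]; omega
    have h3 : (p : ZMod m) ^ f = 1 := by
      rw [← Nat.cast_pow, h1]; simp
    exact IsUnit.of_pow_eq_one h3 hf
  set W := ∑ s ∈ Finset.range f, ∑ i, ty ((p : ZMod m) ^ s • a i) with hW
  have a1 : ∀ t, W t = 2 * (e * f * m) - f * (Fintype.card ι * m) := by
    intro t
    rw [← UpStB_sum hF hz (ha i0).three_le ha h t, Finset.sum_comm, Finset.mul_sum, hW,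
      Finset.sum_apply, show (f : ℤ) * (Fintype.card ι * m) =
        ∑ _ ∈ Finset.range f, ∑ _ : ι, (m : ℤ) by simp, ← Finset.sum_sub_distrib]
    refine Finset.sum_congr rfl fun s _ => ?_
    rw [Finset.sum_apply, Finset.mul_sum, ← Finset.sum_sub_distrib]
    refine Finset.sum_congr rfl fun i _ => ?_
    obtain ⟨b1, b2, b3⟩ := (ha i).smul ((hu.pow s).mul t.isUnit)
    simp only [Prod.smul_fst, Prod.smul_snd, smul_eq_mul, ← mul_add, mul_assoc] at b1 b2 b3
    simp only [ty, th, Pi.sub_apply, Pi.add_apply, Prod.smul_fst, Prod.smul_snd, smul_eq_mul,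
      ← mul_add, mul_left_comm (t : ZMod m), MP_e12fcd_ag.Fermat.bern, if_neg b1, if_neg b2,
      if_neg b3]
    ring
  have a2 : ∀ t, W (-t) = -W t := by
    intro t
    simp only [hW, Finset.sum_apply, ty, th, Pi.sub_apply, Pi.add_apply, Units.val_neg, neg_mul,
      MP_e12fcd_ag.Fermat.bern_neg, ← Finset.sum_neg_distrib]
    refine Finset.sum_congr rfl fun s _ => Finset.sum_congr rfl fun i _ => by ring
  funext t
  have := a2 t
  rw [a1, a1] at this
  rw [a1, Pi.zero_apply]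
  omega

end Pool.Agent.Tate
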