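import Pool.Agent.P.MP_2ce3e7_ag.UpAlg
import Pool.Agent.P.MP_2ce3e7_ag.UpStB
import Pool.Agent.P.MP_2ce3e7_ag.UpMove
import Pool.Agent.P.MP_2ce3e7_ag.UpLow
import Pool.Agent.P.MP_2ce3e7_ag.Exist

/-! Existence of cycles when the characteristic has odd order modulo the degree. -/

set_option autoImplicit false

noncomputable section

namespace Pool.Agent.Tate

variable {m : ℕ} [NeZero m] {p : ℕ} [Fact p.Prime]

theorem upMain_per {Y : Type} [AddCommMonoid Y] {T : ℕ → Y} {f : ℕ} (h : ∀ s, T (f + s) = T s)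
    (n : ℕ) : ∑ s ∈ Finset.range (n * f), T s = n • ∑ s ∈ Finset.range f, T s := by
  have h' : ∀ n s, T (n * f + s) = T s := fun n s => by
    induction n with
    | zero => simp
    | succ n ih => rw [add_mul, one_mul, add_assoc, add_left_comm, h, ih]
  induction n with
  | zero => simp
  | succ n ih => simp only [add_mul, one_mul, Finset.sum_range_add, ih, h', add_smul, one_smul]

theorem good_of_odd (hm : Adm m) {f : ℕ} (hf : Odd f) (h1 : (p : ZMod m) ^ f = 1) {ι : Type}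
    [Fintype ι] {a : ι → Ch m} (ha : ∀ i, Nd (a i)) {f' : ℕ} (hf' : f' ≠ 0)
    (h1' : (p : ZMod m) ^ f' = 1)
    (h : ∑ s ∈ Finset.range f', ∑ i, ty ((p : ZMod m) ^ s • a i) = 0) :
    Good p (∑ i, ty (a i)) := by
  have hf0 : f ≠ 0 := by
    rintro rfl
    exact absurd hf (by decide)
  have hu : IsUnit (p : ZMod m) := IsUnit.of_pow_eq_one h1 hf0
  have hpm : p.Coprime m := (ZMod.isUnit_iff_coprime p m).1 hu
  have per : ∀ g : ℕ, (p : ZMod m) ^ g = 1 → ∀ n : ℕ,
      ∑ s ∈ Finset.range (n * g), ∑ i, ty ((p : ZMod m) ^ s • a i) =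
        n • ∑ s ∈ Finset.range g, ∑ i, ty ((p : ZMod m) ^ s • a i) := fun g hg =>
    upMain_per fun s => by rw [pow_add, hg, one_mul]
  have h0 : ∑ s ∈ Finset.range f, ∑ i, ty ((p : ZMod m) ^ s • a i) = 0 := by
    have := per f h1 f'
    rw [mul_comm, per f' h1', h, smul_zero] at this
    exact (smul_eq_zero.1 this.symm).resolve_left hf'
  have tel : ∀ (s : ℕ) (i : ι), ty (a i) - ty ((p : ZMod m) ^ s • a i) ∈ XD p m := fun s i => by
    induction s with
    | zero => simp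
    | succ s ih =>
      rw [← sub_add_sub_cancel _ (ty ((p : ZMod m) ^ s • a i)), pow_succ', mul_smul]
      exact add_mem ih (AddSubgroup.subset_closure ⟨_, (ha i).smul (hu.pow s), rfl⟩)
  refine Good.of_primes fun l hl => ?_
  by_cases h2 : l = 2
  · refine ⟨f, h2 ▸ hf.not_two_dvd_nat, m, dvd_rfl, NeZero.ne m, hm, hpm, ?_⟩
    have := sum_mem fun s (_ : s ∈ Finset.range f) =>
      sum_mem fun i (_ : i ∈ Finset.univ) => tel s i
    simp only [Finset.sum_sub_distrib, h0, Finset.sum_const, Finset.card_range, sub_zero] at this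
    rwa [lam_refl]
  · have := good_odd hm Fact.out hpm (b := fun x : ι × Fin 3 => ex3 (a x.1) x.2)
      (by simp only [Fintype.sum_prod_type, sum_ex3, Finset.sum_const_zero]) hf' h1'
      (by simpa only [Fintype.sum_prod_type, ty_eq_sum, ex3_smul] using h) hl h2
    simpa only [Fintype.sum_prod_type, ty_eq_sum] using this

theorem hasPair_of_good {k ι : Type} [Field k] [Fintype k] [CharP k p] [NeZero (m : k)]
    [Fintype ι] [DecidableEq ι] (ζ : Rt m k) {a : ι → Ch m} (ha : ∀ i, Nd (a i)) {e : ℤ}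
    (he : ∏ i, -Jac ζ.1 (a i) = (Fintype.card k : ℂ) ^ e) (h : Good p (∑ i, ty (a i))) :
    Even (Fintype.card ι) ∧ HasPair ζ a := by
  obtain ⟨L, hL, h0, hA, hp, hx⟩ := h
  have : NeZero L := ⟨h0⟩
  obtain ⟨n, c, hc, hx⟩ := exists_family hx
  have hu : IsUnit (p : ZMod L) := (ZMod.isUnit_iff_coprime p L).2 hp
  have ha' : ∀ i, Nd (lf L (a i)) := fun i => (nd_lf hL).2 (ha i)
  obtain ⟨b, hb⟩ : ∃ b : ι ⊕ Fin n ⊕ Fin n → Ch L, b = Sum.elim (fun i => lf L (a i))
    (Sum.elim (fun j => (p : ZMod L) • c j) (-c)) := ⟨_, rfl⟩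
  have nb : ∀ i, Nd (b i) := by
    rintro (i | j | j) <;> rw [hb]
    exacts [ha' i, (hc j).smul hu, (hc j).neg]
  have hB : Bal b := bal_of_ty nb (by
    simp only [map_sum, lam_ty, Finset.sum_sub_distrib] at hx
    simp only [hb, Fintype.sum_sum_type, Sum.elim_inl, Sum.elim_inr, Pi.neg_apply, ty_neg, hx,
      Finset.sum_neg_distrib]
    abel)
  refine ⟨?_, ?_⟩
  · have := hB.even
    simp only [Fintype.card_sum] at this
    exact (Nat.even_add.1 this).2 ⟨_, rfl⟩
  obtain ⟨d, hd⟩ := hL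
  have : NeZero (L : k) := ⟨fun h => (Fact.out : p.Prime).one_lt.ne'
    (hp.eq_one_of_dvd ((CharP.cast_eq_zero_iff k p L).1 h))⟩
  obtain ⟨ω₀, hω₀⟩ := HasEnoughRootsOfUnity.exists_primitiveRoot (AlgebraicClosure k) L
  obtain ⟨ω, hω, hω'⟩ := exists_root_pow (hd ▸ h0) (hd ▸ hω₀)
    (ζ.2.map_of_injective (algebraMap k (AlgebraicClosure k)).injective)
  rw [← hd] at hω
  let k₁ := IntermediateField.adjoin k {ω}
  have : FiniteDimensional k k₁ :=
    IntermediateField.adjoin.finiteDimensional (Algebra.IsIntegral.isIntegral ω)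
  have : Finite k₁ := Module.finite_of_finite k
  let ζ₁ : Rt L k₁ := ⟨⟨ω, IntermediateField.mem_adjoin_simple_self k ω⟩,
    IsPrimitiveRoot.of_map_of_injective (f := algebraMap k₁ (AlgebraicClosure k)) hω
      (algebraMap k₁ (AlgebraicClosure k)).injective⟩
  have : NeZero (L : AlgebraicClosure k) := ⟨Rt.ne ⟨ω, hω⟩⟩
  obtain ⟨k', _, _, ζ₀, h₀, hP⟩ := HasPair.finite (ζ := ζ₁) (ζ' := ⟨ω, hω⟩) rfl
    (hasPair_of_bal hA _ nb hB)
  have : Finite k' := Module.finite_of_finite k₁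
  have := Fintype.ofFinite k'
  have : FiniteDimensional k k' := Module.Finite.of_finite
  obtain ⟨ζ', hζ'⟩ := exists_rt (algebraMap k k') ζ.2
  have : NeZero (m : k') := ⟨ζ'.ne⟩
  refine desc_finite hζ' ha he (HasPair.lower (ζ' := ζ₀) hd ?_ ha (HasPair.cancel hc
    (HasPair.frob p (Sum.elim 0 (Sum.elim 1 0)) ?_ ?_)))
  · apply (algebraMap k' (AlgebraicClosure k)).injective
    rw [map_pow, hζ', h₀]
    exact hω'.symm
  · rintro (i | j | j)
    exacts [ha' i, hc j, (hc j).neg]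
  · convert hP using 2 with i
    rcases i with i | j | j <;> simp [hb]

theorem ht_of_odd (hm : ∀ l : ℕ, l.Prime → l ∣ m → l = 2 ∨ l % 4 = 3) {f : ℕ} (hf : Odd f)
    (h1 : p ^ f ≡ 1 [MOD m]) (k : Type) [Field k] [Fintype k] [CharP k p] [NeZero (m : k)]
    (ζ : Rt m k) : HT ζ := by
  intro ι _ _ a ha e he
  obtain ⟨g, -, hg⟩ := FiniteField.card k p
  refine hasPair_of_good (p := p) ζ ha he (good_of_odd hm hf ?_ ha g.ne_zero
    (rt_pow ζ p (RingHom.id k) rfl hg) (stick hg ζ.2 ha he))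
  exact_mod_cast (ZMod.natCast_eq_natCast_iff _ _ m).2 h1

end Pool.Agent.Tate
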