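import Pool.Agent.P.MP_2ce3e7_ag.TQDiv
import Pool.Agent.P.MP_2ce3e7_ag.TQKill
import Pool.Agent.P.MP_2ce3e7_ag.UpMain

/-! The prime two in odd characteristic. -/

set_option autoImplicit false
set_option linter.unusedSectionVars false

noncomputable section

namespace Pool.Agent.Tate

open Pool.Agent.P.MP_e12fcd_ag.Fermat (bern tors mem_tors card_tors sum_tors_unit sum_tors_shift)

/-- evaluation of an integral combination -/
def tqTwo_ev {L : ℕ} [NeZero L] {Y : Type} [AddCommGroup Y] (g : ZMod L → Y) :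
    (ZMod L → ℤ) →+ Y where
  toFun η := ∑ b, η b • g b
  map_zero' := by simp
  map_add' η η' := by simp [add_smul, Finset.sum_add_distrib]

/-- the relations that hold in all systems -/
def tqTwo_R (p L : ℕ) [NeZero L] : AddSubgroup (ZMod L → ℤ) where
  carrier := {η | ∀ (Y : Type) [AddCommGroup Y] (g : ZMod L → Y), Sys p L g → tqTwo_ev g η = 0}
  zero_mem' := fun _ _ _ _ => map_zero _
  add_mem' := fun ha hb Y _ g hg => by rw [map_add, ha Y g hg, hb Y g hg, add_zero]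
  neg_mem' := fun ha Y _ g hg => by rw [map_neg, ha Y g hg, neg_zero]

/-- the universal system -/
theorem exists_univ (p L : ℕ) [NeZero L] : ∃ (V : Type) (_ : AddCommGroup V) (u : ZMod L → V),
    Sys p L u ∧ (∀ y : V, ∃ (κ : Type) (_ : Fintype κ) (c : κ → ZMod L), y = ∑ j, u (c j)) ∧
    ∀ (Y : Type) [AddCommGroup Y] (g : ZMod L → Y), Sys p L g →
      ∃ π : V →+ Y, ∀ b, π (u b) = g b := by
  obtain ⟨u, hu⟩ : ∃ u : ZMod L → (ZMod L → ℤ) ⧸ tqTwo_R p L,
      u = fun b => QuotientAddGroup.mk' (tqTwo_R p L) (Pi.single b 1) := ⟨_, rfl⟩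
  have ex : ∀ (Y : Type) [AddCommGroup Y] (g : ZMod L → Y), Sys p L g →
      ∃ π : (ZMod L → ℤ) ⧸ tqTwo_R p L →+ Y,
        (∀ η, π (QuotientAddGroup.mk' (tqTwo_R p L) η) = tqTwo_ev g η) ∧ ∀ b, π (u b) = g b := by
    intro Y _ g hg
    refine ⟨QuotientAddGroup.lift (tqTwo_R p L) (tqTwo_ev g) fun η hη => hη Y g hg,
      fun η => rfl, fun b => ?_⟩
    rw [hu]
    change ∑ c, (Pi.single b (1 : ℤ) : ZMod L → ℤ) c • g c = g b
    simp [Pi.single_apply]
  have sep : ∀ y y' : (ZMod L → ℤ) ⧸ tqTwo_R p L,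
      (∀ (Y : Type) [AddCommGroup Y] (g : ZMod L → Y), Sys p L g →
        ∀ π : (ZMod L → ℤ) ⧸ tqTwo_R p L →+ Y, (∀ b, π (u b) = g b) → π y = π y') → y = y' := by
    intro y y' H
    obtain ⟨η, rfl⟩ := QuotientAddGroup.mk'_surjective (tqTwo_R p L) y
    obtain ⟨η', rfl⟩ := QuotientAddGroup.mk'_surjective (tqTwo_R p L) y'
    refine QuotientAddGroup.eq.2 fun Y _ g hg => ?_
    obtain ⟨π, h1, h2⟩ := ex Y g hg
    rw [map_add, map_neg, ← h1, ← h1, H Y g hg π h2, neg_add_cancel]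
  have hneg : ∀ b, u (-b) = -u b := fun b => sep _ _ fun Y _ g hg π h => by
    rw [map_neg, h, h, hg.dist.neg]
  refine ⟨_, inferInstance, u, ⟨⟨hneg, fun d hd hdL b => sep _ _ fun Y _ g hg π h => ?_⟩,
    fun y => sep _ _ fun Y _ g hg π h => ?_,
    fun ι _ b hb h0 => sep _ _ fun Y _ g hg π h => ?_⟩, fun y => ?_, fun Y _ g hg => ?_⟩
  · simp only [map_sum, h]
    exact hg.dist.dist d hd hdL b
  · rw [h, h, hg.inv]
  · simp only [map_sum, h, map_zero]
    exact hg.kb ι b hb h0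
  · obtain ⟨η, rfl⟩ := QuotientAddGroup.mk'_surjective (tqTwo_R p L) y
    obtain ⟨κ, _, c, hc⟩ := exists_fam η
    refine ⟨κ, inferInstance, c, ?_⟩
    rw [← hc _ u hneg, hu]
    simp only [← map_zsmul, ← map_sum]
    congr 1
    funext a
    simp [Finset.sum_apply, Pi.single_apply]
  · obtain ⟨π, -, h⟩ := ex Y g hg
    exact ⟨π, h⟩

/-- the norm of the Bernoulli vectors is a system -/
theorem sys_norm {p L f : ℕ} [NeZero L] (hp : p.Coprime L) (h1 : (p : ZMod L) ^ f = 1) :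
    Sys p L fun b => ∑ s ∈ Finset.range f, th ((p : ZMod L) ^ s * b) := by
  have hu : IsUnit (p : ZMod L) := (ZMod.isUnit_iff_coprime p L).2 hp
  refine ⟨⟨fun b => ?_, fun d hd hdL b => ?_⟩, fun y => ?_, fun ι _ b _ h0 => ?_⟩
  · simp only [mul_neg, th_neg, Finset.sum_neg_distrib]
  · rw [Finset.sum_comm]
    exact Finset.sum_congr rfl fun s _ => (dist_th.twist (hu.pow s)).dist d hd hdL b
  · have e1 := Finset.sum_range_succ (fun s => th ((p : ZMod L) ^ s * y)) f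
    have e2 := Finset.sum_range_succ' (fun s => th ((p : ZMod L) ^ s * y)) f
    rw [e1, h1, pow_zero] at e2
    simp only [pow_succ, mul_assoc] at e2
    exact (add_right_cancel e2).symm
  · rw [Finset.sum_comm]
    refine Finset.sum_eq_zero fun s _ => ?_
    obtain ⟨v, hv⟩ := hu.pow s
    funext t
    have := congrFun h0 (t * v)
    simp only [Finset.sum_apply, th, Units.val_mul, Pi.zero_apply, hv, mul_assoc] at this ⊢
    exact this

theorem ev_two {p M : ℕ} [NeZero M] (hp : p.Prime) (h2 : p ≠ 2) (hpM : p.Coprime M) {ι : Type}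
    [Fintype ι] {b : ι → ZMod M} {f : ℕ} (hf : f ≠ 0) (h1 : (p : ZMod M) ^ f = 1)
    (h : ∑ s ∈ Finset.range f, ∑ i, th ((p : ZMod M) ^ s * b i) = 0)
    (H : ∀ (Y : Type) [AddCommGroup Y] (G : ZMod M → Y), Dist M G → Gal G →
      (∀ c, Even (addOrderOf c) → G c = 0) → Kb M G → ∑ i, G (b i) = 0) :
    ∃ n : ℕ, ¬ 2 ∣ n ∧ Ev p M fun _ _ g => n • ∑ i, g (b i) = 0 := by
  obtain ⟨L, _, hML, hpL, hD⟩ :=
    (Ev.all hpM (κ := (ZMod M)ˣ) fun t => ev_divA hp h2 hpM t).and (ev_divB hp h2 hpM)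
  obtain ⟨V, _, u, hu, hfam, hπ⟩ := exists_univ p L
  obtain ⟨hA, hB⟩ := hD V u hu
  let W : AddSubgroup V := (nsmulAddMonoidHom 4 : V →+ V).range
  have hW : ∀ x y : V, x = 4 • y → QuotientAddGroup.mk' W x = 0 := fun x y e =>
    (QuotientAddGroup.eq_zero_iff _).2 ⟨y, e.symm⟩
  have hev : ∀ c : ZMod M, Even (addOrderOf c) → QuotientAddGroup.mk' W (u (lv L c)) = 0 :=
    fun c hc => by
      obtain ⟨y, hy⟩ := hB c hc
      exact hW _ y hy
  have h0 := H (V ⧸ W) (fun c => QuotientAddGroup.mk' W (u (lv L c)))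
    ((hu.dist.res hML).map _) (fun t c => ?_) hev (fun κ _ c hc h0 => ?_)
  rotate_left
  · rcases Nat.even_or_odd (addOrderOf c) with he | ho
    · exact (hev _ (by rwa [ord_unit_mul])).trans (hev c he).symm
    · obtain ⟨y, hy⟩ := hA t c ho
      have := hW _ y hy
      rwa [map_sub, sub_eq_zero] at this
  · rw [← map_sum, hu.kb.res hML κ c hc h0, map_zero]
  rw [← map_sum] at h0
  obtain ⟨y, hy⟩ := (QuotientAddGroup.eq_zero_iff _).1 h0
  obtain ⟨κ, _, c, rfl⟩ := hfam y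
  have hy' : ∑ i, u (lv L (b i)) = 4 • ∑ j, u (c j) := hy.symm
  have ht : L.totient ≠ 0 := (Nat.totient_pos.2 (NeZero.pos _)).ne'
  have h1L : (p : ZMod L) ^ (L.totient * f) = 1 := by
    have := (ZMod.natCast_eq_natCast_iff _ _ _).2 (Nat.ModEq.pow_totient hpL)
    rw [Nat.cast_pow, Nat.cast_one] at this
    rw [pow_mul, this, one_pow]
  have h4 : ∑ s ∈ Finset.range (L.totient * f), ∑ i,
      th ((p : ZMod L) ^ s * lv L (b i)) = 0 := by
    simp only [← Nat.cast_pow, natCast_mul_lv hML, ← lam_th hML, ← map_sum]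
    simp only [Nat.cast_pow]
    rw [upMain_per fun s => by rw [pow_add, h1, one_mul], h, smul_zero, map_zero]
  have h5 : ∑ s ∈ Finset.range (L.totient * f), ∑ j, th ((p : ZMod L) ^ s * c j) = 0 := by
    obtain ⟨π, hπ'⟩ := hπ _ _ (sys_norm hpL h1L)
    have e := congrArg π hy'
    simp only [map_nsmul, map_sum, hπ'] at e
    rw [Finset.sum_comm, h4, Finset.sum_comm] at e
    exact (smul_eq_zero.1 e.symm).resolve_left (by decide)
  obtain ⟨n, hn, hE⟩ := ev_four hp hpL (mul_ne_zero ht hf) h1L h5 Nat.prime_two fun _ => h2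
  refine ⟨n, hn, Ev.up hML (hE.mono fun Y _ g hg h => ?_)⟩
  obtain ⟨π, hπ'⟩ := hπ Y g hg
  have e := congrArg π hy'
  simp only [map_nsmul, map_sum, hπ'] at e
  rw [e]
  exact h

end Pool.Agent.Tate
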