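import Pool.Agent.P.MP_2ce3e7_ag.TQAn
import Pool.Agent.P.MP_2ce3e7_ag.TQOne
import Pool.Agent.P.MP_2ce3e7_ag.TQTwo
import Pool.Agent.P.MP_2ce3e7_ag.TQParA
import Pool.Agent.P.MP_2ce3e7_ag.TQParB
import Pool.Agent.P.MP_2ce3e7_ag.UpAll

/-! Existence of cycles for further degrees and characteristics. -/

set_option autoImplicit false
set_option linter.unusedSectionVars false

noncomputable section

namespace Pool.Agent.Tate

open Pool.Agent.Ferm

variable {m : ℕ} [NeZero m] {p : ℕ} [Fact p.Prime]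

theorem hasPair_of_ev {k ι : Type} [Field k] [Fintype k] [CharP k p] [NeZero (m : k)]
    [Fintype ι] [DecidableEq ι] (ζ : Rt m k) {a : ι → Ch m} (ha : ∀ i, Nd (a i)) {e : ℤ}
    (he : ∏ i, -Jac ζ.1 (a i) = (Fintype.card k : ℂ) ^ e)
    (h : Ev p m fun _ _ g => ∑ x : ι × Fin 3, g (ex3 (a x.1) x.2) = 0) :
    Even (Fintype.card ι) ∧ HasPair ζ a := by
  have hev := even_of_jac ζ.2 ha he
  refine ⟨hev, ?_⟩
  obtain ⟨L, _, hL, hp, hx⟩ := h
  have h0 := NeZero.ne L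
  have ha' : ∀ i, Nd (lf L (a i)) := fun i => (nd_lf hL).2 (ha i)
  obtain ⟨Y, _, g, hg, hR⟩ := geo_sys p L
  have e3 : ∀ i j, ex3 (lf L (a i)) j = lv L (ex3 (a i) j) := fun i j => by
    fin_cases j
    · rfl
    · rfl
    · change -lv L (a i).1 - lv L (a i).2 = lv L (-(a i).1 - (a i).2)
      rw [sub_eq_add_neg, sub_eq_add_neg, lv_add hL, lv_neg hL, lv_neg hL]
  have h1 : ∑ i, tcl (lf L (a i)).1 (lf L (a i)).2 ∈ XE p L := by
    refine mem_XE hp ?_ ((even_deg ha').2 hev)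
    have := hR _ (fun x : ι × Fin 3 => lv L (ex3 (a x.1) x.2)) (hx Y g hg)
    simpa only [map_sum, io_tcl_lv, e3, Fintype.sum_prod_type] using this
  obtain ⟨n, c, hc, hx⟩ := exists_family_cls h1
  have hu : IsUnit (p : ZMod L) := (ZMod.isUnit_iff_coprime p L).2 hp
  obtain ⟨b, hb⟩ : ∃ b : ι ⊕ Fin n ⊕ Fin n → Ch L, b = Sum.elim (fun i => lf L (a i))
    (Sum.elim (fun j => (p : ZMod L) • c j) (-c)) := ⟨_, rfl⟩
  have nb : ∀ i, Nd (b i) := by
    rintro (i | j | j) <;> rw [hb]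
    exacts [ha' i, (hc j).smul hu, (hc j).neg]
  have hB : ∑ i, tcl (b i).1 (b i).2 = 0 := by
    simp only [Finset.sum_sub_distrib] at hx
    simp only [hb, Fintype.sum_sum_type, Sum.elim_inl, Sum.elim_inr, Pi.neg_apply, Prod.fst_neg,
      Prod.snd_neg, tcl_neg, hx, Finset.sum_neg_distrib]
    abel
  obtain ⟨d, hd⟩ := hL
  have : NeZero (L : k) := ⟨fun h => (Fact.out : p.Prime).one_lt.ne'
    (hp.eq_one_of_dvd ((CharP.cast_eq_zero_iff k p L).1 h))⟩
  obtain ⟨ω₀, hω₀⟩ := HasEnoughRootsOfUnity.exists_primitiveRoot (AlgebraicClosure k) L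
  obtain ⟨ω, hω, hω'⟩ := exists_root_pow (hd ▸ h0) (hd ▸ hω₀)
    (ζ.2.map_of_injective (algebraMap k (AlgebraicClosure k)).injective)
  rw [← hd] at hω
  let k₁ := IntermediateField.adjoin k {ω}
  have : FiniteDimensional k k₁ :=
    IntermediateField.adjoin.finiteDimensional (Algebra.IsIntegral.isIntegral ω)
  have : Finite k₁ := Module.finite_of_finite k
  let ζ₁ : Rt L k₁ := ⟨⟨ω, IntermediateField.mem_adjoin_simple_self k ω⟩,
    IsPrimitiveRoot.of_map_of_injective (f := algebraMap k₁ (AlgebraicClosure k)) hω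
      (algebraMap k₁ (AlgebraicClosure k)).injective⟩
  have : NeZero (L : AlgebraicClosure k) := ⟨Rt.ne ⟨ω, hω⟩⟩
  obtain ⟨k', _, _, ζ₀, h₀, hP⟩ := HasPair.finite (ζ := ζ₁) (ζ' := ⟨ω, hω⟩) rfl
    (hasPair_of_cls _ nb hB)
  have : Finite k' := Module.finite_of_finite k₁
  have := Fintype.ofFinite k'
  have : FiniteDimensional k k' := Module.Finite.of_finite
  obtain ⟨ζ', hζ'⟩ := exists_rt (algebraMap k k') ζ.2
  have : NeZero (m : k') := ⟨ζ'.ne⟩
  refine desc_finite hζ' ha he (HasPair.lower (ζ' := ζ₀) hd ?_ ha (HasPair.cancel hc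
    (HasPair.frob p (Sum.elim 0 (Sum.elim 1 0)) ?_ ?_)))
  · apply (algebraMap k' (AlgebraicClosure k)).injective
    rw [map_pow, hζ', h₀]
    exact hω'.symm
  · rintro (i | j | j)
    exacts [ha' i, hc j, (hc j).neg]
  · convert hP using 2 with i
    rcases i with i | j | j <;> simp [hb]

/-- it is enough to treat the prime two -/
theorem ht_of_two (H : ∀ (ι : Type) [Fintype ι] (b : ι → ZMod m) (f : ℕ), f ≠ 0 →
      (p : ZMod m) ^ f = 1 → ∑ s ∈ Finset.range f, ∑ i, th ((p : ZMod m) ^ s * b i) = 0 →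
      ∃ n : ℕ, ¬ 2 ∣ n ∧ Ev p m fun _ _ g => n • ∑ i, g (b i) = 0)
    (k : Type) [Field k] [Fintype k] [CharP k p] [NeZero (m : k)] (ζ : Rt m k) : HT ζ := by
  have hp : p.Prime := Fact.out
  have hpm : p.Coprime m := (Nat.Prime.coprime_iff_not_dvd hp).2 fun h =>
    NeZero.ne (m : k) ((CharP.cast_eq_zero_iff k p m).2 h)
  intro ι _ _ a ha e he
  obtain ⟨g, -, hg⟩ := FiniteField.card k p
  have h1 : (p : ZMod m) ^ (g : ℕ) = 1 := rt_pow ζ p (RingHom.id k) rfl hg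
  have h : ∑ s ∈ Finset.range g, ∑ x : ι × Fin 3,
      th ((p : ZMod m) ^ s * ex3 (a x.1) x.2) = 0 := by
    simpa only [Fintype.sum_prod_type, ty_eq_sum, ex3_smul] using stick hg ζ.2 ha he
  refine hasPair_of_ev (p := p) ζ ha he (Ev.of_primes fun l hl => ?_)
  by_cases h2 : l = 2
  · exact h2 ▸ H _ _ g g.ne_zero h1 h
  · obtain ⟨n, hn, hE⟩ := ev_four hp hpm g.ne_zero h1 h hl fun h => absurd h h2
    refine ⟨n * 4, hl.not_dvd_mul hn fun h4 => h2 ?_, hE.mono fun Y _ g _ h => by rwa [mul_smul]⟩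
    exact (Nat.prime_dvd_prime_iff_eq hl Nat.prime_two).1 (hl.dvd_of_dvd_pow (n := 2) h4)

theorem ht_of_qr_odd (hQ : Qr m) {f : ℕ} (hf : Odd f) (h1 : (p : ZMod m) ^ f = 1) (k : Type)
    [Field k] [Fintype k] [CharP k p] [NeZero (m : k)] (ζ : Rt m k) : HT ζ := by
  have hp : p.Prime := Fact.out
  have hf0 : f ≠ 0 := by
    rintro rfl
    exact absurd hf (by decide)
  have hpm : p.Coprime m := (ZMod.isUnit_iff_coprime p m).1 (IsUnit.of_pow_eq_one h1 hf0)
  refine ht_of_two (p := p) (fun ι _ b f' hf' h1' h => ?_) k ζ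
  have per : ∀ g : ℕ, (p : ZMod m) ^ g = 1 → ∀ n : ℕ,
      ∑ s ∈ Finset.range (n * g), ∑ i, th ((p : ZMod m) ^ s * b i) =
        n • ∑ s ∈ Finset.range g, ∑ i, th ((p : ZMod m) ^ s * b i) := fun g hg =>
    upMain_per fun s => by rw [pow_add, hg, one_mul]
  have h0 : ∑ s ∈ Finset.range f, ∑ i, th ((p : ZMod m) ^ s * b i) = 0 := by
    have := per f h1 f'
    rw [mul_comm, per f' h1', h, smul_zero] at this
    exact (smul_eq_zero.1 this.symm).resolve_left hf'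
  have hb : ∑ x : Fin f × ι, th ((p : ZMod m) ^ (x.1 : ℕ) * b x.2) = 0 := by
    rw [Fintype.sum_prod_type, ← h0, Finset.sum_range]
  by_cases h4 : 4 ∣ m
  · have h2 : p ≠ 2 := by
      rintro rfl
      exact absurd (hpm.coprime_dvd_right h4) (by decide)
    refine ev_two hp h2 hpm hf0 h1 h0 fun Y _ G hG hi he hk => ?_
    have h3 := parityC h4 hG hi he hk hQ hb
    have h5 : ∀ (s : ℕ) c, G ((p : ZMod m) ^ s * c) = G c := fun s c => by
      simpa using hi (ZMod.unitOfCoprime p hpm ^ s) c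
    simp only [Fintype.sum_prod_type, h5, Finset.sum_const, Finset.card_univ,
      Fintype.card_fin] at h3
    obtain ⟨j, rfl⟩ := hf
    rwa [add_smul, one_smul, mul_comm, mul_smul, Finset.smul_sum,
      Finset.sum_eq_zero fun i _ => hi.two hG (b i), smul_zero, zero_add] at h3
  · refine ⟨f, hf.not_two_dvd_nat, (ev_one hp hpm h4 hf h1 hb fun Y _ G hG hi hk =>
      parityA hb hG hi hQ hk h4).mono fun Y _ g hg h => ?_⟩
    simpa only [Fintype.sum_prod_type, hg.pow, Finset.sum_const, Finset.card_univ,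
      Fintype.card_fin] using h

theorem ht_of_qr (hQ : Qr m) (hc : Set.Subsingleton
      {χ : DirichletCharacter ℂ m | (∃ e : ℕ, χ ^ 2 ^ e = 1) ∧ χ.Odd ∧ χ p ≠ 1}) (k : Type)
    [Field k] [Fintype k] [CharP k p] [NeZero (m : k)] (ζ : Rt m k) : HT ζ := by
  by_cases hA : Adm m
  · exact ht_of_char hA hc k ζ
  have hp : p.Prime := Fact.out
  have hpm : p.Coprime m := (Nat.Prime.coprime_iff_not_dvd hp).2 fun h =>
    NeZero.ne (m : k) ((CharP.cast_eq_zero_iff k p m).2 h)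
  rcases char_data hpm hc with ⟨f, hf, h1⟩ | ⟨n, hn, hexp, -, -⟩
  · exact ht_of_qr_odd hQ hf h1 k ζ
  refine absurd (fun l hl hlm => ?_) hA
  by_contra h2
  have := Fact.mk hl
  obtain ⟨y, hy⟩ := (ZMod.exists_sq_eq_neg_one_iff (p := l)).2 fun h => h2 (Or.inr h)
  have h0 : y ≠ 0 := by
    rintro rfl
    rw [mul_zero, neg_eq_zero] at hy
    exact one_ne_zero hy
  obtain ⟨t, ht⟩ := ZMod.unitsMap_surjective hlm (Units.mk0 y h0)
  have h3 := congrArg (fun u => ((ZMod.unitsMap hlm u : (ZMod l)ˣ) : ZMod l)) (hexp t)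
  simp only [map_pow, ht, map_one, Units.val_pow_eq_pow_val, Units.val_mk0, Units.val_one] at h3
  rw [pow_mul, pow_two, ← hy, hn.neg_one_pow] at h3
  have h4 : ((2 : ℕ) : ZMod l) = 0 := by
    push_cast
    linear_combination -h3
  exact h2 (Or.inl ((Nat.prime_dvd_prime_iff_eq hl Nat.prime_two).1
    ((ZMod.natCast_eq_zero_iff 2 l).1 h4)))

theorem ht_of_jac (hA : ∀ l : ℕ, l.Prime → l ∣ m → l = 2 ∨ l % 4 = 3) (h2 : p ≠ 2)
    (hJ : ∀ d : ℕ, d ∣ m → d % 8 = 7 → jacobiSym p d = 1) (k : Type) [Field k] [Fintype k]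
    [CharP k p] [NeZero (m : k)] (ζ : Rt m k) : HT ζ := by
  have hp : p.Prime := Fact.out
  have hpm : p.Coprime m := (Nat.Prime.coprime_iff_not_dvd hp).2 fun h =>
    NeZero.ne (m : k) ((CharP.cast_eq_zero_iff k p m).2 h)
  refine ht_of_two (p := p) (fun ι _ b f hf h1 h => ?_) k ζ
  have hd : m ∣ 4 * m := dvd_mul_left m 4
  have hp4 : p.Coprime (4 * m) :=
    (((Nat.coprime_primes hp Nat.prime_two).2 h2).pow_right 2).mul_right hpm
  have hA4 : Adm (4 * m) := fun l hl hlm => by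
    rcases (Nat.Prime.dvd_mul hl).1 hlm with h | h
    · exact Or.inl ((Nat.prime_dvd_prime_iff_eq hl Nat.prime_two).1
        (hl.dvd_of_dvd_pow (n := 2) h))
    · exact hA l hl h
  have hJ4 : ∀ d : ℕ, d ∣ 4 * m → d % 8 = 7 → jacobiSym p d = 1 := fun d hd h7 =>
    hJ d (Nat.Coprime.dvd_of_dvd_mul_left
      (((Nat.coprime_two_right).2 (Nat.odd_iff.2 (by omega))).pow_right 2) hd) h7
  have ht : (4 * m).totient ≠ 0 := (Nat.totient_pos.2 (NeZero.pos _)).ne'
  have h14 : (p : ZMod (4 * m)) ^ ((4 * m).totient * f) = 1 := by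
    have := (ZMod.natCast_eq_natCast_iff _ _ _).2 (Nat.ModEq.pow_totient hp4)
    rw [Nat.cast_pow, Nat.cast_one] at this
    rw [pow_mul, this, one_pow]
  have h4 : ∑ s ∈ Finset.range ((4 * m).totient * f), ∑ i,
      th ((p : ZMod (4 * m)) ^ s * lv (4 * m) (b i)) = 0 := by
    simp only [← Nat.cast_pow, natCast_mul_lv hd, ← lam_th hd, ← map_sum]
    simp only [Nat.cast_pow]
    rw [upMain_per fun s => by rw [pow_add, h1, one_mul], h, smul_zero, map_zero]
  obtain ⟨n, hn, hE⟩ := ev_two hp h2 hp4 (mul_ne_zero ht hf) h14 h4 fun Y _ G hG hi he hk =>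
    parityB hA4 hp h2 hp4 hJ4 (mul_ne_zero ht hf) h4 (dvd_mul_right 4 m) hG hi he hk
  exact ⟨n, hn, Ev.up hd hE⟩

end Pool.Agent.Tate
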