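import Pool.Agent.P.MP_2ce3e7_ag.TQPrime
import Pool.Agent.P.MP_2ce3e7_ag.UpCaseA

/-! Two auxiliary primes: the invariant part of a system. -/

set_option autoImplicit false
set_option linter.unusedSectionVars false

noncomputable section

namespace Pool.Agent.Tate

open Pool.Agent.P.MP_e12fcd_ag.Fermat (bern tors mem_tors card_tors sum_tors_unit sum_tors_shift)

/-- a quarter of the sum over the nonzero torsion points of prime order -/
def qW {M r : ℕ} [Fact r.Prime] (L : ℕ) (χ : (ZMod r)ˣ →* Multiplicative (ZMod 4)) {Y : Type}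
    [AddCommGroup Y] (g : ZMod L → Y) (b : ZMod M) : Y :=
  ∑ v ∈ Finset.univ.filter (fun v : (ZMod r)ˣ => χ v = 1), g (lv L b + lv L (v : ZMod r))

section Gen
variable {U : Type} [CommGroup U] [Fintype U] {χ : U →* Multiplicative (ZMod 4)} {x : U}
  {Y : Type} [AddCommGroup Y]

theorem tqQuad_fib (u : U) (ψ : U → Y) :
    ∑ v ∈ Finset.univ.filter (fun v => χ v = 1), ψ (u * v) =
      ∑ v ∈ Finset.univ.filter (fun v => χ v = χ u), ψ v :=
  Finset.sum_equiv (Equiv.mulLeft u) (fun v => by simp) fun v _ => rfl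

theorem tqQuad_ker {u : U} (hu : χ u = 1) (ψ : U → Y) :
    ∑ v ∈ Finset.univ.filter (fun v => χ v = 1), ψ (u * v) =
      ∑ v ∈ Finset.univ.filter (fun v => χ v = 1), ψ v := by
  rw [tqQuad_fib, hu]

theorem tqQuad_pow (hχ : χ x = Multiplicative.ofAdd 1) (k : ZMod 4) :
    χ (x ^ k.val) = Multiplicative.ofAdd k := by
  rw [map_pow, hχ, ← ofAdd_nsmul, nsmul_one, ZMod.natCast_zmod_val]

theorem tqQuad_split (hχ : χ x = Multiplicative.ofAdd 1) (ψ : U → Y) :
    ∑ v, ψ v = ∑ j ∈ Finset.range 4,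
      ∑ v ∈ Finset.univ.filter (fun v => χ v = 1), ψ (x ^ j * v) := by
  rw [← Finset.sum_fiberwise Finset.univ (fun v => Multiplicative.toAdd (χ v)) ψ,
    ← Fin.sum_univ_eq_sum_range
      (fun j => ∑ v ∈ Finset.univ.filter (fun v => χ v = 1), ψ (x ^ j * v)) 4]
  refine Finset.sum_congr rfl fun k _ => ?_
  have h1 := tqQuad_fib (χ := χ) (x ^ k.val) ψ
  rw [tqQuad_pow hχ] at h1
  exact h1.symm

theorem tqQuad_iter {φ : U → Y} (hφ : ∀ v, φ (x * v) = φ v) (j : ℕ) (v : U) :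
    φ (x ^ j * v) = φ v := by
  induction j with
  | zero => rw [pow_zero, one_mul]
  | succ j ih => rw [pow_succ', mul_assoc, hφ, ih]

theorem tqQuad_unit (hχ : χ x = Multiplicative.ofAdd 1) {φ : U → Y} (hφ : ∀ v, φ (x * v) = φ v)
    (u : U) : ∑ v ∈ Finset.univ.filter (fun v => χ v = 1), φ (u * v) =
      ∑ v ∈ Finset.univ.filter (fun v => χ v = 1), φ v := by
  have h1 : χ (x ^ (-Multiplicative.toAdd (χ u)).val * u) = 1 := by
    rw [map_mul, tqQuad_pow hχ, ofAdd_neg, ofAdd_toAdd, inv_mul_cancel]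
  rw [← tqQuad_ker h1 φ]
  refine Finset.sum_congr rfl fun v _ => ?_
  rw [mul_assoc, tqQuad_iter hφ]

theorem tqQuad_two {U' : Type} [CommGroup U'] [Fintype U']
    {χ' : U' →* Multiplicative (ZMod 4)} {x' : U'} (hχ : χ x = Multiplicative.ofAdd 1)
    (hχ' : χ' x' = Multiplicative.ofAdd 1) {Φ : U → U' → Y}
    (hΦ : ∀ v w, Φ (x * v) (x' * w) = Φ v w) :
    ∑ v ∈ Finset.univ.filter (fun v => χ v = 1), ∑ w, Φ v w =
      ∑ w ∈ Finset.univ.filter (fun w => χ' w = 1), ∑ v, Φ v w := by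
  obtain ⟨T, hT⟩ : ∃ T : ℕ → ℕ → Y, ∀ j k, T j k = ∑ v ∈ Finset.univ.filter (fun v => χ v = 1),
      ∑ w ∈ Finset.univ.filter (fun w => χ' w = 1), Φ (x ^ j * v) (x' ^ k * w) :=
    ⟨_, fun _ _ => rfl⟩
  have s1 : ∀ j k, T (j + 1) (k + 1) = T j k := by
    intro j k
    simp only [hT, pow_succ', mul_assoc, hΦ]
  have s2 : ∀ j, T j 4 = T j 0 := by
    intro j
    have h4 : χ' (x' ^ 4) = 1 := by
      rw [map_pow, hχ']
      decide
    simp only [hT, pow_zero, one_mul]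
    exact Finset.sum_congr rfl fun v _ => tqQuad_ker h4 _
  have l1 : ∑ v ∈ Finset.univ.filter (fun v => χ v = 1), ∑ w, Φ v w =
      ∑ k ∈ Finset.range 4, T 0 k := by
    simp only [hT, pow_zero, one_mul]
    rw [Finset.sum_comm (s := Finset.range 4)]
    exact Finset.sum_congr rfl fun v _ => tqQuad_split hχ' _
  have l2 : ∑ w ∈ Finset.univ.filter (fun w => χ' w = 1), ∑ v, Φ v w =
      ∑ j ∈ Finset.range 4, T j 0 := by
    simp only [hT, pow_zero, one_mul]
    rw [Finset.sum_congr rfl fun j _ => Finset.sum_comm, Finset.sum_comm (s := Finset.range 4)]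
    exact Finset.sum_congr rfl fun w _ => tqQuad_split hχ fun v => Φ v w
  have e1 : T 0 1 = T 3 0 := by rw [← s2 3, ← s1 0 1, ← s1 1 2, ← s1 2 3]
  have e2 : T 0 2 = T 2 0 := by rw [← s2 2, ← s1 0 2, ← s1 1 3]
  have e3 : T 0 3 = T 1 0 := by rw [← s2 1, ← s1 0 3]
  rw [l1, l2]
  simp only [Finset.sum_range_succ, Finset.sum_range_zero, e1, e2, e3]
  abel

end Gen

section One
variable {M r L P : ℕ} [NeZero M] [NeZero L] [Fact r.Prime] (hL : M * r ∣ L) (hrM : ¬ r ∣ M)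
  {χ : (ZMod r)ˣ →* Multiplicative (ZMod 4)} {x : (ZMod r)ˣ} (hx : (x : ZMod r) = P)
  (hχ : χ x = Multiplicative.ofAdd 1) (hP : (P : ZMod M) = 1) {Y : Type} [AddCommGroup Y]
  {g : ZMod L → Y} (hg : Dist L g) (hi : ∀ y, g ((P : ZMod L) * y) = g y)
include hL hrM hx hχ hP hg hi

theorem tqQuad_step (b : ZMod M) (v : (ZMod r)ˣ) :
    g (lv L b + lv L ((x * v : (ZMod r)ˣ) : ZMod r)) = g (lv L b + lv L (v : ZMod r)) := by
  have hM : M ∣ L := (dvd_mul_right M r).trans hL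
  have hrL : r ∣ L := (dvd_mul_left r M).trans hL
  have h1 := hi (lv L b + lv L (v : ZMod r))
  rw [mul_add, natCast_mul_lv hM, natCast_mul_lv hrL, hP, one_mul] at h1
  rw [Units.val_mul, hx, h1]

theorem tqQuad_qW (b : ZMod M) (u : (ZMod r)ˣ) : qW L χ g b =
    ∑ v ∈ Finset.univ.filter (fun v : (ZMod r)ˣ => χ v = 1),
      g (lv L b + lv L ((u * v : (ZMod r)ˣ) : ZMod r)) :=
  (tqQuad_unit hχ (φ := fun v => g (lv L b + lv L (v : ZMod r)))
    (tqQuad_step hL hrM hx hχ hP hg hi b) u).symm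

theorem tqQuad_diff {r' : ℕ} [Fact r'.Prime] (hL' : M * r' ∣ L) (hne : r ≠ r') (b : ZMod M) :
    qW L χ g ((r' : ZMod M) * b) - qW L χ g b =
      ∑ v ∈ Finset.univ.filter (fun v : (ZMod r)ˣ => χ v = 1), ∑ w : (ZMod r')ˣ,
        g (lv L b + lv L (v : ZMod r) + lv L (w : ZMod r')) := by
  have hM : M ∣ L := (dvd_mul_right M r).trans hL
  have hrL : r ∣ L := (dvd_mul_left r M).trans hL
  have hrL' : r' ∣ L := (dvd_mul_left r' M).trans hL'
  have hd0 : (r' : ZMod r) ≠ 0 := fun h =>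
    hne ((Nat.prime_dvd_prime_iff_eq Fact.out Fact.out).1 ((ZMod.natCast_eq_zero_iff r' r).1 h))
  rw [tqQuad_qW hL hrM hx hχ hP hg hi _ (Units.mk0 _ hd0), qW, ← Finset.sum_sub_distrib]
  refine Finset.sum_congr rfl fun v _ => ?_
  have h1 := hg.dist r' Fact.out hrL' (lv L b + lv L (v : ZMod r))
  rw [sum_tors_eq hrL', UpCaseA_units, (lv_eq_zero hrL').2 rfl, add_zero, mul_add,
    natCast_mul_lv hM, natCast_mul_lv hrL] at h1
  rw [Units.val_mul, Units.val_mk0, ← h1, add_sub_cancel_left]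

theorem qW_dist : Dist M (qW L χ g : ZMod M → Y) := by
  have hM : M ∣ L := (dvd_mul_right M r).trans hL
  have hrL : r ∣ L := (dvd_mul_left r M).trans hL
  refine ⟨fun b => ?_, fun d hd hdM b => ?_⟩
  · rw [tqQuad_qW hL hrM hx hχ hP hg hi (-b) (-1), qW, ← Finset.sum_neg_distrib]
    refine Finset.sum_congr rfl fun v _ => ?_
    rw [← hg.neg, lv_neg hM, neg_one_mul, Units.val_neg, lv_neg hrL, neg_add]
  · have hd0 : (d : ZMod r) ≠ 0 := by
      intro h
      have h1 := (ZMod.natCast_eq_zero_iff d r).1 h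
      have := (Nat.prime_dvd_prime_iff_eq Fact.out hd).1 h1
      exact hrM (this ▸ hdM)
    rw [tqQuad_qW hL hrM hx hχ hP hg hi _ (Units.mk0 _ hd0)]
    simp only [qW]
    rw [Finset.sum_comm]
    refine Finset.sum_congr rfl fun v _ => ?_
    have h1 := hg.dist d hd (hdM.trans hM) (lv L b + lv L (v : ZMod r))
    rw [← sum_tors_lv hM hdM, mul_add, natCast_mul_lv hM, natCast_mul_lv hrL] at h1
    rw [Units.val_mul, Units.val_mk0, ← h1]
    refine Finset.sum_congr rfl fun z _ => ?_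
    rw [lv_add hM, add_right_comm]

theorem qW_four (b : ZMod M) :
    4 • qW L χ g b = g (lv L ((r : ZMod M) * b)) - g (lv L b) := by
  have hM : M ∣ L := (dvd_mul_right M r).trans hL
  have hrL : r ∣ L := (dvd_mul_left r M).trans hL
  have h1 := hg.dist r Fact.out hrL (lv L b)
  rw [sum_tors_eq hrL, natCast_mul_lv hM, UpCaseA_units, (lv_eq_zero hrL).2 rfl, add_zero] at h1
  rw [← h1, add_sub_cancel_left,
    tqQuad_split hχ (fun v : (ZMod r)ˣ => g (lv L b + lv L (v : ZMod r))),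
    Finset.sum_congr rfl fun j _ => (tqQuad_qW hL hrM hx hχ hP hg hi b (x ^ j)).symm,
    Finset.sum_const, Finset.card_range]

theorem qW_comm {r' : ℕ} [Fact r'.Prime] (hL' : M * r' ∣ L) (hrM' : ¬ r' ∣ M) (hne : r ≠ r')
    {χ' : (ZMod r')ˣ →* Multiplicative (ZMod 4)} {x' : (ZMod r')ˣ} (hx' : (x' : ZMod r') = P)
    (hχ' : χ' x' = Multiplicative.ofAdd 1) (b : ZMod M) :
    qW L χ g ((r' : ZMod M) * b) - qW L χ g b = qW L χ' g ((r : ZMod M) * b) - qW L χ' g b := by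
  have hM : M ∣ L := (dvd_mul_right M r).trans hL
  have hrL : r ∣ L := (dvd_mul_left r M).trans hL
  have hrL' : r' ∣ L := (dvd_mul_left r' M).trans hL'
  rw [tqQuad_diff hL hrM hx hχ hP hg hi hL' hne,
    tqQuad_diff hL' hrM' hx' hχ' hP hg hi hL hne.symm,
    tqQuad_two hχ hχ' (Φ := fun v w => g (lv L b + lv L (v : ZMod r) + lv L (w : ZMod r')))]
  · refine Finset.sum_congr rfl fun w _ => Finset.sum_congr rfl fun v _ => ?_
    rw [add_right_comm]
  · intro v w
    have h1 := hi (lv L b + lv L (v : ZMod r) + lv L (w : ZMod r'))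
    rw [mul_add, mul_add, natCast_mul_lv hM, natCast_mul_lv hrL, natCast_mul_lv hrL', hP,
      one_mul] at h1
    rw [Units.val_mul, Units.val_mul, hx, hx', h1]

end One

end Pool.Agent.Tate
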