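import Pool.Agent.P.MP_2ce3e7_ag.TQTheta

/-! Removing one prime. -/

set_option autoImplicit false
set_option linter.unusedSectionVars false

noncomputable section

namespace Pool.Agent.Tate

open Pool.Agent.P.MP_e12fcd_ag.Fermat (bern tors mem_tors card_tors sum_tors_unit sum_tors_shift)

variable {M l : ℕ} [NeZero M] (hl : l.Prime) {Y : Type} [AddCommGroup Y] {G : ZMod M → Y}
  (hG : Dist M G) (hi : Gal G)
include hl hG hi

theorem cut_gal : Gal fun b => if l ∣ addOrderOf b then 0 else G b := by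
  intro t b
  simp only [ord_unit_mul, hi t b]

theorem cut_dist : Dist M fun b => if l ∣ addOrderOf b then 0 else G b := by
  refine ⟨fun b => ?_, fun d hd hdM b => ?_⟩
  · rw [addOrderOf_neg, hG.neg]
    split_ifs <;> simp
  · by_cases h : l = d
    · subst h
      exact sum_cut hl G (fun c hc => hi.of_order
        (ord_mul_coprime ((Nat.Prime.coprime_iff_not_dvd hl).2 hc))) b
    have h1 : ¬ l ∣ d := fun e => h ((Nat.prime_dvd_prime_iff_eq hl hd).1 e)
    have h2 := dvd_ord_mul hl h1 b 1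
    have h3 := fun z (hz : z ∈ tors M d) => dvd_ord_add hl h1 (mem_tors.1 hz) b 1
    simp only [pow_one] at h2 h3
    rw [Finset.sum_congr rfl fun z hz => if_congr (h3 z hz) rfl rfl, if_congr h2 rfl rfl]
    split_ifs
    · exact Finset.sum_const_zero
    · exact hG.dist d hd hdM b

omit hG hi in
theorem tqStep_gamma (h4 : l % 4 = 1) (hlM : l ∣ M) : ∃ γ : (ZMod M)ˣ,
    ¬ IsSquare (ZMod.castHom hlM (ZMod l) γ) ∧
      ∀ b : ZMod M, ¬ l ∣ addOrderOf b → (γ : ZMod M) * b = b := by
  have := Fact.mk hl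
  have : NeZero (l ^ M.factorization l) := ⟨pow_ne_zero _ hl.ne_zero⟩
  have hQ := tqTheta_dvd hl h4 hlM
  obtain ⟨w, hw⟩ := FiniteField.exists_nonsquare (F := ZMod l) (by
    rw [ZMod.ringChar_zmod_n]
    omega)
  obtain ⟨u, hu⟩ := ZMod.unitsMap_surjective hQ (Units.mk0 w fun h => hw (h ▸ IsSquare.zero))
  have hc := Nat.coprime_ordCompl hl (NeZero.ne M)
  obtain ⟨γ, h1, h2⟩ := exists_unit_crt (Nat.ordProj_dvd M l) (Nat.ordCompl_dvd M l)
    (Nat.ordProj_mul_ordCompl_eq_self M l).symm (hc.pow_left _) u 1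
  refine ⟨γ, ?_, fun b hb => ?_⟩
  · rw [← ZMod.castHom_comp hQ (Nat.ordProj_dvd M l), RingHom.comp_apply, h1]
    have := congrArg Units.val hu
    rw [ZMod.unitsMap_val, Units.val_mk0] at this
    rwa [ZMod.castHom_apply, this]
  · rw [mul_eq_of_cast (Nat.ordCompl_dvd M l) (y := 1) (by rw [h2, map_one, Units.val_one]),
      one_mul]
    refine ord_dvd_iff.1 ((((Nat.Prime.coprime_iff_not_dvd hl).2 hb).symm.pow_right
      (M.factorization l)).dvd_of_dvd_mul_left ?_)
    rw [Nat.ordProj_mul_ordCompl_eq_self]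
    exact ord_dvd b

omit hl hG hi in
theorem tqStep_odd (h4 : l % 4 = 1) (hY : ∀ y : Y, 2 • y = 0) (y : Y) : l • y = y := by
  rw [show l = 2 * (l / 2) + 1 by omega, add_smul, mul_smul, hY, zero_add, one_smul]

theorem tqStep_sum (h4 : l % 4 = 1) (hlM : l ∣ M) (hY : ∀ y : Y, 2 • y = 0) {E : ZMod M → Y}
    (hE : ∀ c, E c = if l ∣ addOrderOf c ∧ ¬ l ∣ addOrderOf ((l : ZMod M) * c) then G c else 0)
    (j : ℕ) (b : ZMod M) (h : ¬ l ∣ addOrderOf ((l : ZMod M) ^ j * b)) :
    ∑ k ∈ Finset.range j, E ((l : ZMod M) ^ k * b) = if l ∣ addOrderOf b then G b else 0 := by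
  induction j generalizing b with
  | zero =>
    rw [pow_zero, one_mul] at h
    rw [Finset.sum_range_zero, if_neg h]
  | succ j ih =>
    rw [pow_succ, mul_assoc] at h
    rw [Finset.sum_range_succ', pow_zero, one_mul, hE b]
    simp only [pow_succ, mul_assoc]
    rw [ih _ h]
    by_cases h1 : l ∣ addOrderOf ((l : ZMod M) * b)
    · have h2 : l ∣ addOrderOf b := h1.trans (ord_dvd_iff.2 (by
        rw [mul_left_comm, ord_dvd_iff.1 dvd_rfl, mul_zero]))
      rw [if_pos h1, if_neg fun h => h.2 h1, if_pos h2, add_zero, ← hG.dist l hl hlM,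
        Finset.sum_congr rfl fun z hz => hi.of_order (ord_add_tors hl h1 (mem_tors.1 hz)),
        Finset.sum_const, card_tors hlM, tqStep_odd h4 hY]
    · simp only [h1, if_false, not_false_iff, and_true, zero_add]

theorem step_two (h4 : l % 4 = 1) (hlM : l ∣ M)
    (hq : ∀ q : ℕ, q.Prime → q ∣ M → q ≠ l → IsSquare (q : ZMod l)) (hY : ∀ y : Y, 2 • y = 0) :
    ∃ θ : ZMod M → Y, ODist M θ ∧
      ∀ b, θ b - θ (-b) = if l ∣ addOrderOf b then G b else 0 := by
  classical
  obtain ⟨γ, g1, g2⟩ := tqStep_gamma hl h4 hlM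
  obtain ⟨θ, t1, t2⟩ := exists_theta hl h4 hlM hq hG
  let θ0 : ZMod M → Y := fun b => if NS l b then θ b else 0
  let θ1 : ZMod M → Y := fun b => θ0 b + θ0 ((γ : ZMod M) * b)
  have hz : ∀ c, ¬ (l ∣ addOrderOf c ∧ ¬ l ∣ addOrderOf ((l : ZMod M) * c)) →
      ¬ NS l c ∧ ¬ NS l ((γ : ZMod M) * c) := fun c h =>
    ⟨fun h1 => h (NS.ord hl h4 hlM h1), fun h1 => h (by
      have := NS.ord hl h4 hlM h1
      rwa [mul_left_comm, ord_unit_mul, ord_unit_mul] at this)⟩
  have he : ∀ b : ZMod M, ¬ l ∣ addOrderOf ((l : ZMod M) ^ M.factorization l * b) := fun b => by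
    rw [dvd_ord_iff_cast hl, not_not, map_mul, ← Nat.cast_pow, map_natCast, ZMod.natCast_self,
      zero_mul]
  refine ⟨fun b => ∑ k ∈ Finset.range (M.factorization l), θ1 ((l : ZMod M) ^ k * b),
    fun d hd hdM b => ?_, fun b => ?_⟩
  · by_cases h : d = l
    · subst h
      have a1 : ∑ z ∈ tors M d, θ1 (b + z) = 0 := by
        by_cases h1 : d ∣ addOrderOf ((d : ZMod M) * b)
        · refine Finset.sum_eq_zero fun z hz' => ?_
          obtain ⟨c1, c2⟩ := hz (b + z) fun h => h.2 (by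
            rwa [mul_add, mem_tors.1 hz', add_zero])
          simp only [θ1, θ0, if_neg c1, if_neg c2, add_zero]
        · have e := sum_tors_shift θ0 b ((γ : ZMod M) * b - b) (mem_tors.2 (by
            rw [mul_sub, mul_left_comm, g2 _ h1, sub_self]))
          simp only [θ1, Finset.sum_add_distrib, mul_add]
          rw [sum_tors_unit (fun z => θ0 ((γ : ZMod M) * b + z)) γ, ← e, add_sub_cancel,
            ← two_nsmul, hY]
      have a2 : θ1 ((d : ZMod M) ^ M.factorization d * b) = 0 := by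
        obtain ⟨c1, c2⟩ := hz _ fun h => he b h.1
        simp only [θ1, θ0, if_neg c1, if_neg c2, add_zero]
      obtain ⟨k, hk⟩ := Nat.exists_eq_add_one_of_ne_zero
        (hl.factorization_pos_of_dvd (NeZero.ne M) hlM).ne'
      rw [hk] at a2 ⊢
      beta_reduce
      rw [Finset.sum_comm, Finset.sum_range_succ', Finset.sum_range_succ, ← mul_assoc,
        ← pow_succ, a2]
      simp only [pow_zero, one_mul, a1]
      congr 1
      refine Finset.sum_congr rfl fun j _ => ?_
      rw [Finset.sum_congr rfl (g := fun _ => θ1 ((d : ZMod M) ^ j * (d * b))) fun z hz => by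
        rw [pow_succ, mul_assoc, mul_add, mem_tors.1 hz, add_zero], Finset.sum_const,
        card_tors hlM, tqStep_odd h4 hY]
    have h1 : ¬ l ∣ d := fun e => h ((Nat.prime_dvd_prime_iff_eq hl hd).1 e).symm
    have a0 : ∀ c, ∑ z ∈ tors M d, θ0 (c + z) = θ0 ((d : ZMod M) * c) := fun c => by
      have e := NS.mul_iff hl h4 hlM (u := d) (by rw [map_natCast]; exact hq d hd hdM h) (by
        rw [map_natCast]
        exact fun h => h1 ((ZMod.natCast_eq_zero_iff _ _).1 h)) c
      simp only [θ0]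
      rw [Finset.sum_congr rfl fun z hz => if_congr (NS.add_iff hl h4 hlM h1 (mem_tors.1 hz) c)
        rfl rfl, if_congr e rfl rfl]
      split_ifs
      · exact t1 d hd hdM c
      · exact Finset.sum_const_zero
    have a1 : ∀ c, ∑ z ∈ tors M d, θ1 (c + z) = θ1 ((d : ZMod M) * c) := fun c => by
      simp only [θ1, Finset.sum_add_distrib, mul_add]
      rw [sum_tors_unit (fun z => θ0 ((γ : ZMod M) * c + z)) γ, a0, a0, mul_left_comm]
    rw [Finset.sum_comm]
    refine Finset.sum_congr rfl fun k _ => ?_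
    have e := sum_tors_coprime (((Nat.Prime.coprime_iff_not_dvd hl).2 h1).pow_left k)
      fun z => θ1 ((l : ZMod M) ^ k * b + z)
    simp only [mul_add]
    rw [Nat.cast_pow] at e
    rw [e, a1, mul_left_comm]
  · have a0 : ∀ c, θ0 c - θ0 (-c) = if NS l c then G c else 0 := fun c => by
      simp only [θ0, NS.neg_iff hl h4 hlM]
      split_ifs with h
      exacts [t2 c h, sub_zero _]
    rw [← Finset.sum_sub_distrib]
    simp only [mul_neg]
    refine tqStep_sum hl hG hi h4 hlM hY (E := fun c => θ1 c - θ1 (-c)) (fun c => ?_) _ b (he b)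
    simp only [θ1, mul_neg]
    rw [add_sub_add_comm, a0, a0, hi]
    split_ifs with c1 c2 c3 c4 c5 c6 c7
    · exact absurd c1 ((NS.xor hl h4 hlM g1 c3.1 c3.2).1 c2)
    · exact absurd c1 (hz c c3).1
    · exact add_zero _
    · exact absurd c1 (hz c c4).1
    · exact zero_add _
    · exact absurd c5 (hz c c6).2
    · exact absurd ((NS.xor hl h4 hlM g1 c7.1 c7.2).2 c1) c5
    · exact add_zero _

theorem step (h4 : l % 4 = 1) (hlM : l ∣ M)
    (hq : ∀ q : ℕ, q.Prime → q ∣ M → q ≠ l → IsSquare (q : ZMod l)) {ι : Type} [Fintype ι]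
    {b : ι → ZMod M} (h : ∑ i, th (b i) = 0) :
    ∑ i, (if l ∣ addOrderOf (b i) then 0 else G (b i)) = ∑ i, G (b i) := by
  let Z : AddSubgroup Y := (nsmulAddMonoidHom 2).ker
  let G2 : ZMod M → Z := fun b => ⟨G b, hi.two hG b⟩
  obtain ⟨θ, h1, h2⟩ := step_two hl (G := G2) ⟨fun b => Subtype.ext (hG.neg b),
    fun d hd hdM b => Subtype.ext (by
      rw [AddSubmonoidClass.coe_finset_sum]
      exact hG.dist d hd hdM b)⟩ (fun t b => Subtype.ext (hi t b)) h4 hlM hq
    fun y => Subtype.ext y.2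
  have e := congrArg Z.subtype (h1.bal h)
  simp only [h2, map_sum, apply_ite Z.subtype, map_zero] at e
  refine eq_of_sub_eq_zero (neg_eq_zero.1 (Eq.trans ?_ e))
  rw [neg_sub, ← Finset.sum_sub_distrib]
  refine Finset.sum_congr rfl fun i _ => ?_
  split_ifs
  exacts [sub_zero _, sub_self _]

end Pool.Agent.Tate
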