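import Pool.Agent.P.MP_2ce3e7_ag.TQExt
import Pool.Agent.P.MP_2ce3e7_ag.TQOrd
import Pool.Agent.P.MP_2ce3e7_ag.UpCaseB

/-! A basis on which the sign acts freely. -/

set_option autoImplicit false
set_option linter.unusedSectionVars false

noncomputable section

namespace Pool.Agent.Tate

open Pool.Agent.P.MP_e12fcd_ag.Fermat (bern tors mem_tors card_tors sum_tors_unit sum_tors_shift)

variable {M l : ℕ} [NeZero M] (hl : l.Prime) (h4 : l % 4 = 1) (hlM : l ∣ M)
include hl h4 hlM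

theorem tqTheta_dvd : l ∣ l ^ M.factorization l :=
  dvd_pow_self l (hl.factorization_pos_of_dvd (NeZero.ne M) hlM).ne'

theorem tqTheta_unit {x : ZMod M} (hx : ZMod.castHom hlM (ZMod l) x ≠ 0) :
    IsUnit (ZMod.castHom (Nat.ordProj_dvd M l) (ZMod (l ^ M.factorization l)) x) := by
  rw [← ZMod.natCast_zmod_val x, map_natCast] at hx ⊢
  rw [ZMod.isUnit_iff_coprime]
  exact ((Nat.Prime.coprime_iff_not_dvd hl).2 fun h =>
    hx ((ZMod.natCast_eq_zero_iff _ _).2 h)).symm.pow_right _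

theorem tqTheta_mul {b : ZMod M} {w : ZMod l}
    (h : ZMod.castHom (Nat.ordProj_dvd M l) (ZMod (l ^ M.factorization l)) b =
      lv (l ^ M.factorization l) w) (u : ZMod M) :
    ZMod.castHom (Nat.ordProj_dvd M l) (ZMod (l ^ M.factorization l)) (u * b) =
      lv (l ^ M.factorization l) (ZMod.castHom hlM (ZMod l) u * w) := by
  have : NeZero (l ^ M.factorization l) := ⟨pow_ne_zero _ hl.ne_zero⟩
  rw [map_mul, h, mul_lv (tqTheta_dvd hl h4 hlM), ← RingHom.comp_apply, ZMod.castHom_comp]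

theorem tqTheta_iff {b : ZMod M} {w : ZMod l}
    (h : ZMod.castHom (Nat.ordProj_dvd M l) (ZMod (l ^ M.factorization l)) b =
      lv (l ^ M.factorization l) w) : NS l b ↔ ¬ IsSquare w := by
  have : NeZero (l ^ M.factorization l) := ⟨pow_ne_zero _ hl.ne_zero⟩
  refine ⟨fun ⟨w', h1, h2⟩ => ?_, fun h1 => ⟨w, h1, h⟩⟩
  rwa [lv_inj (tqTheta_dvd hl h4 hlM) (h.symm.trans h2)]

theorem tqTheta_zero {d : ℕ} (hd : ¬ l ∣ d) {z : ZMod M} (hz : (d : ZMod M) * z = 0) :
    ZMod.castHom (Nat.ordProj_dvd M l) (ZMod (l ^ M.factorization l)) z = 0 := by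
  have h := congrArg (ZMod.castHom (Nat.ordProj_dvd M l) (ZMod (l ^ M.factorization l))) hz
  rw [map_mul, map_zero] at h
  exact (tqTheta_unit hl h4 hlM (by
    rw [map_natCast]
    exact fun h => hd ((ZMod.natCast_eq_zero_iff _ _).1 h))).mul_right_eq_zero.1 h

theorem tqTheta_mul_iff {u : ZMod M} (hu : IsSquare (ZMod.castHom hlM (ZMod l) u))
    (h0 : ZMod.castHom hlM (ZMod l) u ≠ 0) (b : ZMod M) : NS l (u * b) ↔ NS l b := by
  have : NeZero (l ^ M.factorization l) := ⟨pow_ne_zero _ hl.ne_zero⟩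
  have := Fact.mk hl
  have hQ := tqTheta_dvd hl h4 hlM
  have key : ∀ w : ZMod l, ZMod.castHom (Nat.ordProj_dvd M l) (ZMod (l ^ M.factorization l)) b =
      lv (l ^ M.factorization l) w → (NS l (u * b) ↔ NS l b) := fun w hw => by
    rw [tqTheta_iff hl h4 hlM hw, tqTheta_iff hl h4 hlM (tqTheta_mul hl h4 hlM hw u), not_iff_not]
    refine ⟨fun h => ?_, fun h => hu.mul h⟩
    have := hu.inv.mul h
    rwa [inv_mul_cancel_left₀ h0] at this
  refine ⟨fun h => ?_, fun h => ?_⟩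
  · obtain ⟨w, -, hw⟩ := id h
    have h1 := congrArg (fun x => (l : ZMod (l ^ M.factorization l)) * x) hw
    simp only [natCast_mul_lv hQ, ZMod.natCast_self, zero_mul, (lv_eq_zero hQ).2 rfl,
      map_mul] at h1
    rw [mul_left_comm] at h1
    obtain ⟨w', hw'⟩ := exists_lv hQ ((tqTheta_unit hl h4 hlM h0).mul_right_eq_zero.1 h1)
    exact (key w' hw'.symm).1 h
  · obtain ⟨w, -, hw⟩ := id h
    exact (key w hw).2 h

theorem NS.neg_iff (b : ZMod M) : NS l (-b) ↔ NS l b := by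
  have := Fact.mk hl
  rw [← neg_one_mul]
  refine tqTheta_mul_iff hl h4 hlM ?_ (by rw [map_neg, map_one]; simp) b
  rw [map_neg, map_one, ZMod.exists_sq_eq_neg_one_iff]
  omega

theorem NS.mul_iff {u : ZMod M} (hu : IsSquare (ZMod.castHom hlM (ZMod l) u))
    (h0 : ZMod.castHom hlM (ZMod l) u ≠ 0) (b : ZMod M) : NS l (u * b) ↔ NS l b := by
  exact tqTheta_mul_iff hl h4 hlM hu h0 b

theorem NS.add_iff {d : ℕ} (hd : ¬ l ∣ d) {z : ZMod M} (hz : (d : ZMod M) * z = 0) (b : ZMod M) :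
    NS l (b + z) ↔ NS l b := by
  simp only [NS, map_add, tqTheta_zero hl h4 hlM hd hz, add_zero]

theorem NS.ord {b : ZMod M} (h : NS l b) :
    l ∣ addOrderOf b ∧ ¬ l ∣ addOrderOf ((l : ZMod M) * b) := by
  have : NeZero (l ^ M.factorization l) := ⟨pow_ne_zero _ hl.ne_zero⟩
  have hQ := tqTheta_dvd hl h4 hlM
  obtain ⟨w, h1, hw⟩ := h
  rw [dvd_ord_iff_cast hl, dvd_ord_iff_cast hl, tqTheta_mul hl h4 hlM hw, hw, map_natCast,
    ZMod.natCast_self, zero_mul, ne_eq, ne_eq, lv_eq_zero hQ, lv_eq_zero hQ]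
  exact ⟨fun h => h1 (h ▸ IsSquare.zero), fun h => h rfl⟩

theorem NS.xor {γ : ZMod M} (hγ : ¬ IsSquare (ZMod.castHom hlM (ZMod l) γ)) {b : ZMod M}
    (h1 : l ∣ addOrderOf b) (h2 : ¬ l ∣ addOrderOf ((l : ZMod M) * b)) :
    NS l (γ * b) ↔ ¬ NS l b := by
  have : NeZero (l ^ M.factorization l) := ⟨pow_ne_zero _ hl.ne_zero⟩
  have := Fact.mk hl
  have hQ := tqTheta_dvd hl h4 hlM
  rw [dvd_ord_iff_cast hl] at h1 h2
  rw [not_not, map_mul, map_natCast] at h2
  obtain ⟨w, hw⟩ := exists_lv hQ h2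
  have h0 : w ≠ 0 := fun h => h1 (by rw [← hw, h, lv_eq_zero hQ])
  rw [tqTheta_iff hl h4 hlM hw.symm, tqTheta_iff hl h4 hlM (tqTheta_mul hl h4 hlM hw.symm γ),
    not_not, ← quadraticChar_neg_one_iff_not_isSquare, map_mul,
    quadraticChar_neg_one_iff_not_isSquare.2 hγ, ← quadraticChar_one_iff_isSquare h0]
  omega

theorem NS.not_bad {b : ZMod M} (h : NS l b) : l ∉ upKubABad b := by
  have : NeZero (l ^ M.factorization l) := ⟨pow_ne_zero _ hl.ne_zero⟩
  have := Fact.mk hl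
  have hQ := tqTheta_dvd hl h4 hlM
  obtain ⟨w, h1, hw⟩ := h
  intro hb
  have h2 := (Finset.mem_filter.1 hb).2
  have h3 := congrArg ZMod.val hw
  rw [upCaseB_val, lv_val hQ, ZMod.val_natCast] at h3
  obtain ⟨k, hk⟩ := Nat.exists_eq_add_one_of_ne_zero
    (hl.factorization_pos_of_dvd (NeZero.ne M) hlM).ne'
  rw [h3, hk, Nat.add_sub_cancel, pow_succ, Nat.mul_div_cancel _ hl.pos] at h2
  have h5 := Nat.le_of_mul_le_mul_left h2 (pow_pos hl.pos k)
  have h6 : w.val + 1 = l := by have := w.val_lt; omega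
  have h7 : w = -1 := by
    rw [eq_neg_iff_add_eq_zero, ← ZMod.natCast_zmod_val w, ← Nat.cast_succ, Nat.succ_eq_add_one,
      h6, ZMod.natCast_self]
  exact h1 (by rw [h7, ZMod.exists_sq_eq_neg_one_iff]; omega)

section Gen
variable (hq : ∀ q : ℕ, q.Prime → q ∣ M → q ≠ l → IsSquare (q : ZMod l)) {P : ZMod M → Prop}
  (hP : ∀ b, NS l b → (P (-b) ↔ ¬ P b))
  (hP' : ∀ b z, ZMod.castHom (Nat.ordProj_dvd M l) (ZMod (l ^ M.factorization l)) z = 0 →
    (P (b + z) ↔ P b))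
include hq hP hP'

theorem tqTheta_span {Y : Type} [AddCommGroup Y] {W : ZMod M → Y} (hW : ODist M W)
    (h0 : ∀ b, upKubABad b = ∅ → NS l b → P b → W b = 0 ∧ W (-b) = 0) (b : ZMod M)
    (hb : NS l b) : W b = 0 := by
  classical
  refine span_ind (NS l) (fun b => if P b then upKubABad b else upKubABad (-b)) ?_ hW ?_ b hb
  · intro b hb q hqb
    have hb' := (NS.neg_iff hl h4 hlM b).2 hb
    have h1 : q ∈ M.primeFactors ∧ q ∣ addOrderOf b ∧ q ≠ l := by
      split_ifs at hqb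
      · exact ⟨(Finset.mem_filter.1 hqb).1, upKubA_dvd hqb,
          fun e => NS.not_bad hl h4 hlM hb (e ▸ hqb)⟩
      · exact ⟨(Finset.mem_filter.1 hqb).1, addOrderOf_neg b ▸ upKubA_dvd hqb,
          fun e => NS.not_bad hl h4 hlM hb' (e ▸ hqb)⟩
    obtain ⟨h1, h2, h3⟩ := h1
    obtain ⟨hp, hd, -⟩ := Nat.mem_primeFactors.1 h1
    have h5 : ¬ l ∣ q := fun h => h3 ((Nat.prime_dvd_prime_iff_eq hl hp).1 h).symm
    refine ⟨hp, hd, h2, (NS.mul_iff hl h4 hlM (by rw [map_natCast]; exact hq q hp hd h3) (by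
      rw [map_natCast]
      exact fun h => h5 ((ZMod.natCast_eq_zero_iff _ _).1 h)) b).2 hb, fun z hz hz0 =>
        ⟨(NS.add_iff hl h4 hlM h5 hz b).2 hb, ?_⟩⟩
    simp only [hP' b z (tqTheta_zero hl h4 hlM h5 hz)]
    split_ifs at hqb ⊢
    · exact upKubA_ssub hqb hz hz0
    · rw [neg_add]
      exact upKubA_ssub hqb (by rw [mul_neg, hz, neg_zero]) (neg_ne_zero.2 hz0)
  · intro b hb h
    split_ifs at h with h1
    · exact (h0 b h hb h1).1
    · simpa using (h0 (-b) h ((NS.neg_iff hl h4 hlM b).2 hb) ((hP b hb).2 h1)).2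

open Classical in
theorem tqTheta_gen
    (hc : (Finset.univ.filter fun b : ZMod M => upKubABad b = ∅ ∧ NS l b ∧ P b).card ≤
      (Finset.univ.filter fun b : ZMod M => upKubABad b = ∅ ∧ NS l b ∧ ¬ P b).card)
    {Y : Type} [AddCommGroup Y] {G : ZMod M → Y} (hG : Dist M G) :
    ∃ θ : ZMod M → Y, ODist M θ ∧ ∀ b, NS l b → θ b - θ (-b) = G b := by
  set B := Finset.univ.filter fun b : ZMod M => upKubABad b = ∅ ∧ NS l b ∧ P b with hB
  let T := (Finset.univ.filter fun b : ZMod M => upKubABad b = ∅ ∧ ¬ (NS l b ∧ ¬ P b)) ∪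
    B.image fun b => -b
  have hT : ∀ b, upKubABad b = ∅ → NS l b → P b → b ∈ T ∧ -b ∈ T := fun b h1 h2 h3 =>
    ⟨Finset.mem_union_left _ (Finset.mem_filter.2 ⟨Finset.mem_univ _, h1, fun h => h.2 h3⟩),
      Finset.mem_union_right _ (Finset.mem_image_of_mem _
        (Finset.mem_filter.2 ⟨Finset.mem_univ _, h1, h2, h3⟩))⟩
  obtain ⟨θ, h1, h2⟩ := exists_ext T (by
    have e := Finset.card_filter_add_card_filter_not
      (s := Finset.univ.filter fun b : ZMod M => upKubABad b = ∅) fun b => NS l b ∧ ¬ P b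
    rw [Finset.filter_filter, Finset.filter_filter] at e
    have := upKubA_card M
    have := Finset.card_image_le (s := B) (f := fun b => -b)
    exact (Finset.card_union_le _ _).trans (by omega)) (fun Y _ W hW h => span_bad hW fun b hb => by
      by_cases h1 : NS l b
      · exact tqTheta_span hl h4 hlM hq hP hP' hW
          (fun c a1 a2 a3 => ⟨h _ (hT c a1 a2 a3).1, h _ (hT c a1 a2 a3).2⟩) b h1
      · exact h b (Finset.mem_union_left _ (Finset.mem_filter.2
          ⟨Finset.mem_univ _, hb, fun h => h1 h.1⟩))) fun b => if P b then G b else 0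
  refine ⟨θ, h1, fun b hb => sub_eq_zero.1 (tqTheta_span hl h4 hlM hq hP hP'
    (W := fun b => θ b - θ (-b) - G b) (fun d hd hdM c => ?_) (fun c a1 a2 a3 => ?_) b hb)⟩
  · have e := upKub_twist h1 (-1) d hd hdM c
    simp only [Units.val_neg, Units.val_one, neg_one_mul] at e
    simp only [Finset.sum_sub_distrib, h1 d hd hdM c, e, hG.dist d hd hdM c]
  · have e1 := h2 _ (hT c a1 a2 a3).1
    have e2 := h2 _ (hT c a1 a2 a3).2
    rw [if_pos a3] at e1
    rw [if_neg fun h => (hP c a2).1 h a3] at e2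
    simp only [neg_neg, e1, e2, hG.neg]
    constructor <;> abel

end Gen

theorem exists_theta (hq : ∀ q : ℕ, q.Prime → q ∣ M → q ≠ l → IsSquare (q : ZMod l))
    {Y : Type} [AddCommGroup Y] {G : ZMod M → Y} (hG : Dist M G) :
    ∃ θ : ZMod M → Y, ODist M θ ∧ ∀ b, NS l b → θ b - θ (-b) = G b := by
  classical
  have : NeZero (l ^ M.factorization l) := ⟨pow_ne_zero _ hl.ne_zero⟩
  have := Fact.mk hl
  have hQ := tqTheta_dvd hl h4 hlM
  let π := ZMod.castHom (Nat.ordProj_dvd M l) (ZMod (l ^ M.factorization l))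
  let P : ZMod M → Prop := fun b => (π b).val < (-π b).val
  have hP : ∀ b, NS l b → (P (-b) ↔ ¬ P b) := fun b ⟨w, h1, hw⟩ => by
    have h2 : (π b).val ≠ (-π b).val := fun h => by
      have h3 := ZMod.val_injective _ h
      rw [hw, ← lv_neg hQ] at h3
      rcases (ZMod.neg_eq_self_iff w).1 (lv_inj hQ h3).symm with h5 | h5
      · exact h1 (h5 ▸ IsSquare.zero)
      · omega
    simp only [P, map_neg, neg_neg]
    omega
  have hP' : ∀ b z, π z = 0 → (P (b + z) ↔ P b) := fun b z hz => by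
    simp only [P, map_add, hz, add_zero]
  rcases le_total (Finset.univ.filter fun b : ZMod M => upKubABad b = ∅ ∧ NS l b ∧ P b).card
    (Finset.univ.filter fun b : ZMod M => upKubABad b = ∅ ∧ NS l b ∧ ¬ P b).card with h | h
  · exact tqTheta_gen hl h4 hlM hq hP hP' (by convert h; rfl) hG
  · exact tqTheta_gen hl h4 hlM hq (P := fun b => ¬ P b) (fun b hb => (hP b hb).not)
      (fun b z hz => (hP' b z hz).not) (by simp only [not_not]; convert h; rfl) hG

end Pool.Agent.Tate
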