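import Pool.Agent.P.MP_2ce3e7_ag.PT
import Pool.Agent.P.MP_2ce3e7_ag.RS
import Pool.Agent.P.MP_2ce3e7_ag.Pair

/-! Transversal intersections. -/

set_option autoImplicit false

noncomputable section

namespace Pool.Agent.Tate

open MvPolynomial

variable {m : ℕ} {K ι : Type} [Field K] [IsAlgClosed K] [NeZero (m : K)] [Fintype ι]
  [DecidableEq ι]

/-- the ideal of the intersection with the diagonals of pairs of factors -/
def JT (J : Ideal (S K (ι ⊕ ι))) (T : Finset ι) : Ideal (S K (ι ⊕ ι)) :=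
  J ⊔ ⨆ i ∈ T, Ideal.span (Set.range (minor K (Sum.inl i) (Sum.inr i)))

/-- the elements that `s` multiplies into `I` -/
def traCol {R : Type} [CommRing R] (I : Ideal R) (s : R) : Ideal R :=
  Submodule.comap (LinearMap.lsmul R R s) I

theorem tra_mem {R : Type} [CommRing R] {I : Ideal R} {s y : R} :
    y ∈ traCol I s ↔ s * y ∈ I := Iff.rfl

theorem tra_unif {k σ : Type} [Field k] [Finite σ] (x : σ → k) (Y I : Ideal (MvPolynomial σ k))
    (h : ∀ y ∈ Y, ∃ s, eval x s ≠ 0 ∧ s * y ∈ I) : ∃ s, eval x s ≠ 0 ∧ ∀ y ∈ Y, s * y ∈ I := by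
  classical
  obtain ⟨t, ht⟩ := (IsNoetherian.noetherian Y : Y.FG)
  choose! s hs hs' using h
  have hY : ∀ y ∈ t, y ∈ Y := fun y hy => ht ▸ Ideal.subset_span hy
  refine ⟨∏ y ∈ t, s y, ?_, ?_⟩
  · rw [map_prod]
    exact Finset.prod_ne_zero_iff.2 fun y hy => hs y (hY y hy)
  · have : Y ≤ traCol I (∏ y ∈ t, s y) := by
      rw [← ht]
      refine Ideal.span_le.2 fun y hy => tra_mem.2 ?_
      rw [← Finset.prod_erase_mul t s hy, mul_assoc]
      exact I.mul_mem_left _ (hs' y (hY y hy))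
    exact fun y hy => tra_mem.1 (this hy)

/-- enough differentials with a small common kernel are independent -/
theorem tra_indep {k σ A B : Type} [Field k] [Fintype σ] [Fintype A] [Fintype B]
    (D : A → σ → k) (L : (B → k) →ₗ[k] σ → k)
    (hk : ∀ v : σ → k, (∀ a, ∑ w, D a w * v w = 0) → v ∈ LinearMap.range L)
    (hc : Fintype.card A + Fintype.card B ≤ Fintype.card σ) : LinearIndependent k D := by
  have h1 := LinearMap.finrank_range_add_finrank_ker (Matrix.of D).mulVecLin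
  have h2 : LinearMap.ker (Matrix.of D).mulVecLin ≤ LinearMap.range L := fun v hv =>
    hk v fun a => congrFun (LinearMap.mem_ker.1 hv) a
  have h3 := Submodule.finrank_mono h2
  have h4 := LinearMap.finrank_range_le L
  have h5 := (Matrix.of D).rank_eq_finrank_span_row
  rw [Module.finrank_fintype_fun_eq_card] at h1 h4
  rw [linearIndependent_iff_card_le_finrank_span]
  unfold Matrix.rank at h5
  change Fintype.card A ≤ Module.finrank k (Submodule.span k (Set.range (Matrix.of D).row))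
  omega

omit [IsAlgClosed K] [NeZero (m : K)] [Fintype ι] [DecidableEq ι] in
theorem tra_minor_mem (J : Ideal (S K (ι ⊕ ι))) {T : Finset ι} {l : ι} (hl : l ∈ T) (b : Fin 3) :
    minor K (Sum.inl l) (Sum.inr l) b ∈ JT J T :=
  Ideal.mem_sup_right (Ideal.mem_iSup_of_mem l (Ideal.mem_iSup_of_mem hl
    (Ideal.subset_span ⟨b, rfl⟩)))

/-- local regularity of the equations of the diagonals -/
theorem loc_reg {J : Ideal (S K (ι ⊕ ι))} (hF : Fer m K (ι ⊕ ι) ≤ J) {x : (ι ⊕ ι) × Fin 3 → K}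
    (hx : x ∈ ZS (JT J Finset.univ)) (hz : Nz x) {c : ℕ} (hc : c ≤ 3 * Fintype.card ι)
    (hl : LocGen J c x) (ht : Tan (JT J Finset.univ) x ⊆ TorD x) {T : Finset ι} {i : ι}
    (hi : i ∉ T) : ∃ s, eval x s ≠ 0 ∧
      ∀ y, (∀ b, minor K (Sum.inl i) (Sum.inr i) b * y ∈ JT J T) → s * y ∈ JT J T := by
  obtain ⟨s0, f, hs0, hf, hgen⟩ := hl
  have hxF : x ∈ ZS (Fer m K (ι ⊕ ι)) := fun g hg => hx g (Ideal.mem_sup_left (hF hg))
  have hu : ∀ l : ι, ∃ (u : Fin 3 → S K (ι ⊕ ι)) (a : Fin 3),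
      Prp m u (minor K (Sum.inl l) (Sum.inr l)) ∧ eval x (u a) ≠ 0 := by
    intro l
    have h1 := irr_iff.1 (inv_minor (ι := ι ⊕ ι) (NeZero.ne (m : K))
      (Sum.inl_ne_inr (a := l) (b := l))).suff x
    by_contra hcon
    push Not at hcon
    refine h1 ?_ hz
    rw [ZS_sup]
    refine ⟨mem_ZS_span.2 ?_, hxF⟩
    rintro g ⟨u, hu, a, rfl⟩
    exact hcon u a hu
  choose u a hu hu' using hu
  obtain ⟨F, hF1, hF2⟩ : ∃ F : Fin c ⊕ ι → S K (ι ⊕ ι), (∀ j, F (Sum.inl j) = f j) ∧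
      ∀ l, F (Sum.inr l) = minor K (Sum.inl l) (Sum.inr l) (a l) :=
    ⟨Sum.elim f fun l => minor K (Sum.inl l) (Sum.inr l) (a l), fun _ => rfl, fun _ => rfl⟩
  obtain ⟨s, hs, hs'⟩ : ∃ s, eval x s ≠ 0 ∧ ∀ (U : Finset ι) (I : Ideal (S K (ι ⊕ ι))),
      (∀ j, F (Sum.inl j) ∈ I) → (∀ l ∈ U, F (Sum.inr l) ∈ I) → ∀ g ∈ JT J U, s * g ∈ I := by
    refine ⟨(∏ l, u l (a l)) * s0, ?_, fun U I h1 h2 => ?_⟩
    · rw [map_mul, map_prod]
      exact mul_ne_zero (Finset.prod_ne_zero_iff.2 fun l _ => hu' l) hs0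
    have h3 : ∀ g ∈ J, s0 * g ∈ I := fun g hg =>
      Ideal.span_le.2 (by rintro _ ⟨j, rfl⟩; exact hF1 j ▸ h1 j) (hgen g hg)
    have h4 : JT J U ≤ traCol I ((∏ l, u l (a l)) * s0) := by
      refine sup_le (fun g hg => tra_mem.2 ?_) (iSup₂_le fun l hl => Ideal.span_le.2 ?_)
      · rw [mul_assoc]
        exact I.mul_mem_left _ (h3 g hg)
      · rintro _ ⟨b, rfl⟩
        refine tra_mem.2 ?_
        have h5 := I.add_mem (h3 _ (hF (hu l (a l) b)))
          (I.mul_mem_left (s0 * u l b) (hF2 l ▸ h2 l hl))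
        rw [← Finset.prod_erase_mul Finset.univ _ (Finset.mem_univ l), mul_assoc, mul_assoc]
        refine I.mul_mem_left _ ?_
        convert h5 using 1
        ring
    exact fun g hg => tra_mem.1 (h4 hg)
  have hFJ : ∀ p, F p ∈ JT J Finset.univ := by
    rintro (j | l)
    · exact hF1 j ▸ Ideal.mem_sup_left (hf j)
    · exact hF2 l ▸ tra_minor_mem J (Finset.mem_univ l) _
  have hind : LinearIndependent K fun p w => eval x (pderiv w (F p)) := by
    refine tra_indep (B := ι ⊕ ι) _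
      (LinearMap.pi fun v => (x v) • LinearMap.proj v.1) (fun v hv => ?_) ?_
    · have h1 : v ∈ Tan (Ideal.span (Set.range F)) x :=
        (mem_Tan_span (mem_ZS_span.2 (by rintro _ ⟨p, rfl⟩; exact hx _ (hFJ p)))).2
          (by rintro _ ⟨p, rfl⟩; exact hv p)
      have h2 : v ∈ Tan (JT J Finset.univ) x := fun g hg => by
        have h3 := h1 _ (hs' Finset.univ _ (fun j => Ideal.subset_span (Set.mem_range_self _))
          (fun l _ => Ideal.subset_span (Set.mem_range_self _)) g hg)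
        rw [dif_mul, hx g hg, zero_mul, add_zero] at h3
        exact (mul_eq_zero.1 h3).resolve_left hs
      obtain ⟨l, rfl⟩ := ht h2
      exact ⟨l, funext fun w => by simp [tsm, mul_comm]⟩
    · simp only [Fintype.card_sum, Fintype.card_prod, Fintype.card_fin]
      omega
  obtain ⟨e, he, he0, he1⟩ : ∃ e : Option (Fin c ⊕ T) → Fin c ⊕ ι, Function.Injective e ∧
      e none = Sum.inr i ∧ ∀ p, e (some p) = Sum.map id Subtype.val p := by
    refine ⟨fun p => p.elim (Sum.inr i) (Sum.map id Subtype.val), ?_, rfl, fun _ => rfl⟩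
    have h1 : ∀ p : Fin c ⊕ T, Sum.inr i ≠ Sum.map id Subtype.val p := by
      rintro (j | l) h
      · exact Sum.inr_ne_inl h
      · exact hi (by rw [Sum.inr_injective h]; exact l.2)
    rintro (_ | p) (_ | q) h
    · rfl
    · exact absurd h (h1 q)
    · exact absurd h.symm (h1 p)
    · exact congrArg some (Sum.map_injective.2 ⟨Function.injective_id, Subtype.val_injective⟩ h)
  have hle : Ideal.span (Set.range fun p => F (e (some p))) ≤ JT J T := by
    refine Ideal.span_le.2 ?_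
    rintro _ ⟨j | l, rfl⟩
    · simp only [he1, Sum.map_inl, id, hF1]
      exact Ideal.mem_sup_left (hf j)
    · simp only [he1, Sum.map_inr, hF2]
      exact tra_minor_mem J l.2 _
  obtain ⟨r, hr, hr'⟩ := tra_unif x (traCol (JT J T) (F (Sum.inr i))) (JT J T) fun y hy => by
    have h1 := hs' T (Ideal.span (Set.range fun p => F (e (some p))))
      (fun j => Ideal.subset_span ⟨Sum.inl j, by simp only [he1, Sum.map_inl, id]⟩)
      (fun l hl => Ideal.subset_span ⟨Sum.inr ⟨l, hl⟩, by simp only [he1, Sum.map_inr]⟩)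
      _ (tra_mem.1 hy)
    obtain ⟨r, hr, hr'⟩ := reg_of_indep x (fun p => F (e p)) (fun p => hx _ (hFJ _))
      (hind.comp e he) (y := s * y) (by rw [he0, mul_left_comm]; exact h1)
    exact ⟨r * s, by rw [map_mul]; exact mul_ne_zero hr hs, by rw [mul_assoc]; exact hle hr'⟩
  exact ⟨r, hr, fun y hy => hr' y (tra_mem.2 (hF2 i ▸ hy (a i)))⟩

end Pool.Agent.Tate
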