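import Pool.Agent.P.MP_e12fcd_ag.Cmh.RD3
import Pool.Agent.K.MP_e12fcd_ag.C47

/-! The Fermat lines are eigenlines of CM types. -/

set_option autoImplicit false

noncomputable section

open NumberField

namespace Pool.Agent.Tate

open Pool.Agent.Weil Pool.Agent.Weil.Gen Pool.Agent.Ferm Pool.Agent.Cmh ComplexEmbedding

variable {m : ℕ} [NeZero m] {E : Type} [Field E] [NumberField E]

omit [NumberField E] in
/-- exponents of the embeddings on a root of unity -/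
theorem tfCm_exp {z : E} (hz : IsPrimitiveRoot z m) : ∃ t : (E →+* ℂ) → ℕ,
    (∀ σ, (t σ).Coprime m) ∧ (∀ (σ : E →+* ℂ) (n : ℕ),
      σ (z ^ n) = FLatX.psi m ((t σ : ZMod m) * n)) ∧
    ∀ σ, (t (conjugate σ) : ZMod m) = -(t σ : ZMod m) := by
  have h0 := NeZero.ne m
  have ex : ∀ σ : E →+* ℂ, ∃ i : ℕ, i.Coprime m ∧ σ z = zt m ^ i := fun σ => by
    obtain ⟨i, -, h1, h2⟩ := ((zt_prim h0).isPrimitiveRoot_iff).1
      (hz.map_of_injective σ.injective)
    exact ⟨i, h1, h2.symm⟩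
  choose t h1 h2 using ex
  refine ⟨t, h1, fun σ n => ?_, fun σ => FLatX.psi_inj ?_⟩
  · rw [map_pow, h2, ← pow_mul, ← Nat.cast_mul, FLatX.psi_nat]
  · rw [FLatX.psi_neg, FLatX.psi_nat, FLatX.psi_nat, ← h2, ← h2]
    rfl

/-- balanced families of Fermat lines have class zero -/
theorem tcl_sum_of_four [IsCMField E] (hpos : PosAll E) {τ : E →+* ℂ} (hfour : Four τ) {z₀ : E}
    (hz₀ : IsPrimitiveRoot z₀ m) {ι : Type} [Fintype ι] {a b : ι → ZMod m}
    (ha : ∀ i, Ok (a i) (b i)) (hB : ∀ t : ℕ, t.Coprime m → 2 * (Finset.univ.filter fun i =>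
      ((t : ZMod m) * a i).val + ((t : ZMod m) * b i).val < m).card = Fintype.card ι) :
    ∑ i, tcl (a i) (b i) = 0 := by
  classical
  have h0 := NeZero.ne m
  obtain ⟨k, -, hk, hk'⟩ := ((hz₀.map_of_injective τ.injective).isPrimitiveRoot_iff).1
    (zt_prim h0)
  have hz : IsPrimitiveRoot (z₀ ^ k) m := hz₀.pow_of_coprime k hk
  rw [← map_pow] at hk'
  generalize z₀ ^ k = z at hz hk'
  obtain ⟨t, t1, t2, t3⟩ := tfCm_exp hz
  let Ψ : ι → Finset (E →+* ℂ) := fun i => Finset.univ.filter fun σ =>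
    ((t σ : ZMod m) * a i).val + ((t σ : ZMod m) * b i).val < m
  have mem : ∀ i σ, σ ∈ Ψ i ↔ ((t σ : ZMod m) * a i).val + ((t σ : ZMod m) * b i).val < m :=
    fun i σ => by simp [Ψ]
  have hΨ : ∀ i, IsCMType (Ψ i) := fun i σ => by
    obtain ⟨h1, h2, h3, h4, h5⟩ := FLatX.ok_val ((ha i).unit_mul (t1 σ))
    rw [mem, mem, t3, neg_mul, neg_mul]
    omega
  have e : ∀ i, tcl (a i) (b i) = rdCl hpos τ (Ψ i) := fun i => by
    let f : (FIdx m → ℂ) →L[ℂ] (Ψ i → ℂ) := ContinuousLinearMap.pi fun σ =>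
      co ((t σ.1 : ZMod m) * a i) ((t σ.1 : ZMod m) * b i)
    have hf : ∀ j k : ℕ, f (lam m j k) = rdE (Ψ i) (z ^ ((a i).val * j + (b i).val * k)) :=
      fun j k => funext fun σ => by
        change co _ _ (lam m j k) = σ.1 (z ^ _)
        rw [FLatX.co_lam (xi_of_lt ((ha i).unit_mul (t1 σ.1)) ((mem i σ.1).1 σ.2)).1, t2]
        congr 1
        push_cast
        rw [ZMod.natCast_zmod_val, ZMod.natCast_zmod_val]
        ring
    rw [tcl_of_ok (ha i), rdCl_eq hpos τ (hΨ i)]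
    refine cls_line_of_map (A := FT m) (B := rdB (hΨ i) (hpos _ (hΨ i))) (isObj_xi (ha i))
      (rd_obj (hΨ i) _ τ) (xi_ne_zero (ha i)) (F := pull f)
      (pull_mem f (rat_of_lam (rdB (hΨ i) (hpos _ (hΨ i))).rat f fun j k => ?_))
      (Ferm.cov_ext fun j k => ?_)
    · rw [hf]
      exact rdE_mem _
    · change rdXi (Ψ i) τ (f (lam m j k)) = _
      rw [hf, rdXi_emb (hΨ i), xi_lam (ha i), map_pow, hk']
  rw [Finset.sum_congr rfl fun i _ => e i]
  refine rdCl_sum hpos hfour Ψ hΨ fun σ => ?_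
  rw [← hB (t σ) (t1 σ), ← Set.ncard_coe_finset]
  simp [mem]

end Pool.Agent.Tate
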