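import Pool.Agent.P.MP_2ce3e7_ag.TfZZ

/-! Auxiliary primes: the parity relations kill every set of odd primes. -/

set_option autoImplicit false

noncomputable section

namespace Pool.Agent.Tate

/-- the recursion for the parities -/
def TfRec (P : Finset ℕ) (mu : Finset ℕ → Finset ℕ → ZMod 2) : Prop :=
  (∀ R, mu ∅ R = if R = ∅ then 1 else 0) ∧
    ∀ S R l, l ∈ S → 2 ∉ S → Disjoint S R → S ∪ R ⊆ P →
      mu S R = nn l (-1) * mu (S.erase l) R + ∑ q ∈ R, nn l q * mu (S.erase l) (R.erase q)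

/-- the relations attached to the even subsets -/
def TfSy (Ω : Finset ℕ) {Y : Type} [AddCommGroup Y] (e : Finset ℕ → Y) : Prop :=
  ∀ P ⊆ Ω, Even P.card → ∃ mu, TfRec P mu ∧
    ∑ S ∈ P.powerset with 2 ∉ S, (mu S (P \ S)).val • e S = 0

theorem TfSy.mono {Ω Ω' : Finset ℕ} {Y : Type} [AddCommGroup Y] {e : Finset ℕ → Y}
    (h : TfSy Ω e) (h' : Ω' ⊆ Ω) : TfSy Ω' e := fun P hP => h P (hP.trans h')

section Rec
variable {P : Finset ℕ} {mu : Finset ℕ → Finset ℕ → ZMod 2} (h : TfRec P mu)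
include h

theorem TfRec.ins {S R : Finset ℕ} {l : ℕ} (hl : l ∉ S) (h2 : 2 ∉ insert l S)
    (hd : Disjoint (insert l S) R) (hP : insert l S ∪ R ⊆ P) : mu (insert l S) R =
      nn l (-1) * mu S R + ∑ q ∈ R, nn l q * mu S (R.erase q) := by
  have := h.2 _ R l (Finset.mem_insert_self l S) h2 hd hP
  rwa [Finset.erase_insert hl] at this

theorem TfRec.zero {q : ℕ} (S : Finset ℕ) : ∀ R, q ∈ R → 2 ∉ S → Disjoint S R → S ∪ R ⊆ P →
    (∀ s ∈ S, nn s q = 0) → mu S R = 0 := by
  induction S using Finset.induction_on with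
  | empty =>
    intro R hq _ _ _ _
    rw [h.1, if_neg (Finset.ne_empty_of_mem hq)]
  | insert l S hl ih =>
    intro R hq h2 hd hP hn
    have h2' : 2 ∉ S := fun e => h2 (Finset.mem_insert_of_mem e)
    have hd' : Disjoint S R := hd.mono_left (Finset.subset_insert l S)
    have hP' : S ∪ R ⊆ P := (Finset.union_subset_union_left (Finset.subset_insert l S)).trans hP
    have hn' : ∀ s ∈ S, nn s q = 0 := fun s hs => hn s (Finset.mem_insert_of_mem hs)
    rw [h.ins hl h2 hd hP, ih R hq h2' hd' hP' hn', mul_zero, zero_add]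
    refine Finset.sum_eq_zero fun r _ => ?_
    by_cases e : r = q
    · rw [e, hn l (Finset.mem_insert_self l S), zero_mul]
    · rw [ih _ (Finset.mem_erase.2 ⟨Ne.symm e, hq⟩) h2' (hd'.mono_right (Finset.erase_subset r R))
        ((Finset.union_subset_union_right (Finset.erase_subset r R)).trans hP') hn', mul_zero]

theorem TfRec.top (S : Finset ℕ) : 2 ∉ S → S ⊆ P → (∀ s ∈ S, nn s (-1) = 1) → mu S ∅ = 1 := by
  induction S using Finset.induction_on with
  | empty =>
    intro _ _ _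
    rw [h.1, if_pos rfl]
  | insert l S hl ih =>
    intro h2 hP hn
    rw [h.ins hl h2 (Finset.disjoint_empty_right _) (by rwa [Finset.union_empty]),
      Finset.sum_empty, add_zero, hn l (Finset.mem_insert_self l S), one_mul]
    exact ih (fun e => h2 (Finset.mem_insert_of_mem e)) ((Finset.subset_insert l S).trans hP)
      fun s hs => hn s (Finset.mem_insert_of_mem hs)

theorem TfRec.top_two (hP2 : 2 ∈ P) (S : Finset ℕ) : 2 ∉ S → S ⊆ P →
    (∀ s ∈ S, nn s (-1) = 1) → (∀ s ∈ S, nn s (2 : ℕ) = 1) → mu S {2} = S.card := by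
  induction S using Finset.induction_on with
  | empty =>
    intro _ _ _ _
    rw [h.1, if_neg (Finset.singleton_ne_empty 2), Finset.card_empty, Nat.cast_zero]
  | insert l S hl ih =>
    intro h2 hP hn hn2
    have h2' : 2 ∉ S := fun e => h2 (Finset.mem_insert_of_mem e)
    have hP' : S ⊆ P := (Finset.subset_insert l S).trans hP
    have hn' : ∀ s ∈ S, nn s (-1) = 1 := fun s hs => hn s (Finset.mem_insert_of_mem hs)
    rw [h.ins hl h2 (Finset.disjoint_singleton_right.2 h2)
      (Finset.union_subset hP (Finset.singleton_subset_iff.2 hP2)), Finset.sum_singleton,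
      hn l (Finset.mem_insert_self l S), hn2 l (Finset.mem_insert_self l S), one_mul, one_mul,
      Finset.erase_singleton, h.top S h2' hP' hn',
      ih h2' hP' hn' fun s hs => hn2 s (Finset.mem_insert_of_mem hs),
      Finset.card_insert_of_notMem hl, Nat.cast_succ]

end Rec

theorem TfSy.der {Ω : Finset ℕ} {Y : Type} [AddCommGroup Y] {e : Finset ℕ → Y} {l q : ℕ}
    (h : TfSy (insert q (insert l Ω)) e) (hl : l ∉ Ω) (hq : q ∉ Ω) (hlq : q ≠ l) (l2 : l ≠ 2)
    (q2 : q ≠ 2) (n1 : nn q (-1) = 0) (n2 : nn q l = 1) (n3 : nn l q = 1)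
    (n4 : ∀ r ∈ Ω, nn q r = 0) (n5 : ∀ r ∈ Ω, nn r q = 0) :
    TfSy Ω fun S => e (insert q S) + e (insert l S) := by
  intro P hP he
  have lP : l ∉ P := fun e => hl (hP e)
  have qP : q ∉ P := fun e => hq (hP e)
  have qlP : q ∉ insert l P := fun e => (Finset.mem_insert.1 e).elim hlq qP
  obtain ⟨mu, hr, hs⟩ := h (insert q (insert l P))
    (Finset.insert_subset_insert _ (Finset.insert_subset_insert _ hP)) (by
      rw [Finset.card_insert_of_notMem qlP, Finset.card_insert_of_notMem lP]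
      exact he.add even_two)
  have sub : P ⊆ insert q (insert l P) :=
    (Finset.subset_insert l P).trans (Finset.subset_insert q _)
  refine ⟨mu, ⟨hr.1, fun S R a ha h2 hd hS => hr.2 S R a ha h2 hd (hS.trans sub)⟩, ?_⟩
  rw [Finset.sum_filter, Finset.sum_powerset_insert qlP, Finset.sum_powerset_insert lP,
    Finset.sum_powerset_insert lP, ← Finset.sum_add_distrib, ← Finset.sum_add_distrib,
    ← Finset.sum_add_distrib] at hs
  rw [Finset.sum_filter]
  refine Eq.trans (Finset.sum_congr rfl fun S hS => ?_) hs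
  have hSP : S ⊆ P := Finset.mem_powerset.1 hS
  by_cases h2 : 2 ∈ S
  · simp [h2]
  have lS : l ∉ S := fun e => lP (hSP e)
  have qS : q ∉ S := fun e => qP (hSP e)
  have z : ∀ R, q ∈ R → Disjoint S R → R ⊆ insert q (insert l P) → mu S R = 0 :=
    fun R a b c => hr.zero S R a h2 b (Finset.union_subset (hSP.trans sub) c)
      fun s hs => n5 s (hP (hSP hs))
  have e1 : insert q (insert l P) \ insert l S = insert q (P \ S) := by
    clear hs z
    ext a
    simp only [Finset.mem_sdiff, Finset.mem_insert]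
    grind
  have e2 : insert q (insert l P) \ insert q S = insert l (P \ S) := by
    clear hs z
    ext a
    simp only [Finset.mem_sdiff, Finset.mem_insert]
    grind
  have e3 : insert q (insert l P) \ insert q (insert l S) = P \ S := by
    clear hs z
    ext a
    simp only [Finset.mem_sdiff, Finset.mem_insert]
    grind
  have qR : q ∉ P \ S := fun e => qP (Finset.mem_sdiff.1 e).1
  have lR : l ∉ P \ S := fun e => lP (Finset.mem_sdiff.1 e).1
  have m0 : mu S (insert q (insert l P) \ S) = 0 :=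
    z _ (Finset.mem_sdiff.2 ⟨Finset.mem_insert_self _ _, qS⟩) Finset.disjoint_sdiff
      Finset.sdiff_subset
  have m1 : mu (insert l S) (insert q (P \ S)) = mu S (P \ S) := by
    have c : insert q (P \ S) ⊆ insert q (insert l P) := e1 ▸ Finset.sdiff_subset
    have d : Disjoint S (insert q (P \ S)) := Finset.disjoint_insert_right.2
      ⟨qS, Finset.disjoint_sdiff⟩
    rw [hr.ins lS (by simp [h2, l2.symm]) (e1 ▸ Finset.disjoint_sdiff) (Finset.union_subset
      ((Finset.insert_subset_insert _ hSP).trans (Finset.subset_insert q _)) c),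
      z _ (Finset.mem_insert_self _ _) d c, mul_zero, zero_add, Finset.sum_insert qR, n3, one_mul,
      Finset.erase_insert qR, Finset.sum_eq_zero, add_zero]
    intro r hr'
    rw [z _ (Finset.mem_erase.2 ⟨fun e => qR (e ▸ hr'), Finset.mem_insert_self _ _⟩)
      (d.mono_right (Finset.erase_subset _ _)) ((Finset.erase_subset _ _).trans c), mul_zero]
  have m2 : mu (insert q S) (insert l (P \ S)) = mu S (P \ S) := by
    rw [hr.ins qS (by simp [h2, q2.symm]) (e2 ▸ Finset.disjoint_sdiff) (Finset.union_subset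
      (Finset.insert_subset_insert _ (hSP.trans (Finset.subset_insert l _)))
      (e2 ▸ Finset.sdiff_subset)), n1, zero_mul, zero_add, Finset.sum_insert lR, n2, one_mul,
      Finset.erase_insert lR, Finset.sum_eq_zero, add_zero]
    intro r hr'
    rw [n4 r (hP (Finset.mem_sdiff.1 hr').1), zero_mul]
  have m3 : mu (insert q (insert l S)) (P \ S) = 0 := by
    rw [hr.ins (fun e => (Finset.mem_insert.1 e).elim hlq qS) (by simp [h2, q2.symm, l2.symm])
      (e3 ▸ Finset.disjoint_sdiff) (Finset.union_subset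
      (Finset.insert_subset_insert _ (Finset.insert_subset_insert _ hSP))
      (e3 ▸ Finset.sdiff_subset)), n1, zero_mul, zero_add]
    refine Finset.sum_eq_zero fun r hr' => ?_
    rw [n4 r (hP (Finset.mem_sdiff.1 hr').1), zero_mul]
  rw [e1, e2, e3, m0, m1, m2, m3]
  simp [h2, q2.symm, l2.symm, add_comm]

theorem tf_prime (Ω : Finset ℕ) (hΩ : ∀ r ∈ Ω, r.Prime) {l l' : ℕ} (hl : l.Prime)
    (hl' : l'.Prime) (l2 : l ≠ 2) (l2' : l' ≠ 2) (hne : l ≠ l') (h1 : l ∉ Ω) (h1' : l' ∉ Ω)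
    (N : ℕ) : ∃ q > N, q.Prime ∧ q % 8 = 1 ∧ (∀ r ∈ Ω, q ≡ 1 [MOD r]) ∧
      ¬ IsSquare (q : ZMod l) ∧ ¬ IsSquare (q : ZMod l') := by
  have ns : ∀ {a : ℕ}, a.Prime → a ≠ 2 → ∃ x : ℕ, ¬ IsSquare (x : ZMod a) := fun {a} ha a2 => by
    have := Fact.mk ha
    obtain ⟨x, hx⟩ := FiniteField.exists_nonsquare (F := ZMod a) (by rwa [ZMod.ringChar_zmod_n])
    exact ⟨x.val, by rwa [ZMod.natCast_zmod_val]⟩
  have co : ∀ {a : ℕ}, a.Prime → a ≠ 2 → a ∉ Ω → (8 * ∏ r ∈ Ω, r).Coprime a :=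
    fun {a} ha a2 h => Nat.Coprime.mul_left
      (((Nat.coprime_primes Nat.prime_two ha).2 a2.symm).pow_left 3)
      (Nat.Coprime.prod_left fun r hr => (Nat.coprime_primes (hΩ r hr) ha).2 fun e => h (e ▸ hr))
  have cp : ∀ {a y : ℕ}, a.Prime → ¬ IsSquare (y : ZMod a) → y.Coprime a := fun {a y} ha h =>
    ((Nat.Prime.coprime_iff_not_dvd ha).2 fun e => h (by
      rw [(ZMod.natCast_eq_zero_iff y a).2 e]
      exact IsSquare.zero)).symm
  obtain ⟨a, ha⟩ := ns hl l2
  obtain ⟨a', ha'⟩ := ns hl' l2'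
  obtain ⟨x, x1, x2⟩ := Nat.chineseRemainder ((Nat.coprime_primes hl hl').2 hne) a a'
  obtain ⟨y, y1, y2⟩ := Nat.chineseRemainder ((co hl l2 h1).mul_right (co hl' l2' h1')) 1 x
  have s1 : ∀ z, z ≡ x [MOD l * l'] → ¬ IsSquare (z : ZMod l) := fun z hz => by
    rwa [(ZMod.natCast_eq_natCast_iff _ _ _).2 ((hz.of_mul_right l').trans x1)]
  have s2 : ∀ z, z ≡ x [MOD l * l'] → ¬ IsSquare (z : ZMod l') := fun z hz => by
    rwa [(ZMod.natCast_eq_natCast_iff _ _ _).2 ((hz.of_mul_left l).trans x2)]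
  obtain ⟨q, q1, q2, q3⟩ := Nat.forall_exists_prime_gt_and_modEq N
    (q := (8 * ∏ r ∈ Ω, r) * (l * l')) (a := y)
    (mul_ne_zero (mul_ne_zero (by norm_num) (Finset.prod_ne_zero_iff.2 fun r hr =>
      (hΩ r hr).ne_zero)) (mul_ne_zero hl.ne_zero hl'.ne_zero))
    (Nat.Coprime.mul_right (by
      rw [Nat.Coprime, y1.gcd_eq]
      exact Nat.gcd_one_left _) ((cp hl (s1 y y2)).mul_right (cp hl' (s2 y y2))))
  have q4 := (q3.of_mul_right _).trans y1
  have q5 := (q3.of_mul_left _).trans y2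
  exact ⟨q, q1, q2, q4.of_mul_right _, fun r hr =>
    (q4.of_mul_left 8).of_dvd (Finset.dvd_prod_of_mem _ hr), s1 q q5, s2 q q5⟩

theorem nn_of_sq {l : ℕ} {a : ℤ} (h : IsSquare (a : ZMod l)) : nn l a = 0 := if_pos h

theorem nn_of_not {l : ℕ} {a : ℤ} (h : ¬ IsSquare (a : ZMod l)) : nn l a = 1 := if_neg h

/-- one prime can be replaced by the auxiliary prime -/
theorem tf_swap {Ω : Finset ℕ} (hΩ : ∀ r ∈ Ω, r.Prime) {l q : ℕ} (hl : l.Prime) (l2 : l ≠ 2)
    (h1 : l ∉ Ω) (hq : q.Prime) (hqΩ : q ∉ Ω) (q8 : q % 8 = 1) (q1 : ∀ r ∈ Ω, q ≡ 1 [MOD r])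
    (hql : q ≠ l) (ql : ¬ IsSquare (q : ZMod l)) {Y : Type} [AddCommGroup Y]
    {e : Finset ℕ → Y} (h : TfSy (insert q (insert l Ω)) e) :
    TfSy Ω fun S => e (insert q S) + e (insert l S) := by
  have := Fact.mk hq
  have := Fact.mk hl
  have q4 : q % 4 = 1 := by omega
  have q2 : q ≠ 2 := by omega
  have s1 : ∀ r ∈ Ω, IsSquare (q : ZMod r) := fun r hr => by
    rw [(ZMod.natCast_eq_natCast_iff _ _ _).2 (q1 r hr), Nat.cast_one]
    exact IsSquare.one
  refine h.der h1 hqΩ hql l2 q2 (nn_of_sq ?_) (nn_of_not ?_) (nn_of_not ?_)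
    (fun r hr => nn_of_sq ?_) fun r hr => nn_of_sq ?_
  · push_cast
    exact ZMod.exists_sq_eq_neg_one_iff.2 (by omega)
  · rw [Int.cast_natCast, ZMod.exists_sq_eq_prime_iff_of_mod_four_eq_one q4 l2]
    exact ql
  · rwa [Int.cast_natCast]
  · rw [Int.cast_natCast]
    by_cases r2 : r = 2
    · rw [r2]
      exact (ZMod.exists_sq_eq_two_iff q2).2 (Or.inl q8)
    · have := Fact.mk (hΩ r hr)
      rw [ZMod.exists_sq_eq_prime_iff_of_mod_four_eq_one q4 r2]
      exact s1 r hr
  · rw [Int.cast_natCast]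
    exact s1 r hr

/-- a finite set of primes whose relations kill the given set -/
def TfK (X F : Finset ℕ) : Prop := ∃ Ω : Finset ℕ, (∀ r ∈ Ω, r.Prime) ∧ Disjoint Ω F ∧
  ∀ (Y : Type) [AddCommGroup Y] (e : Finset ℕ → Y), TfSy Ω e → e X = 0

theorem tf_all {T : Finset (Finset ℕ)} {F : Finset ℕ} (h : ∀ X ∈ T, TfK X F) :
    ∃ Ω : Finset ℕ, (∀ r ∈ Ω, r.Prime) ∧ Disjoint Ω F ∧
      ∀ (Y : Type) [AddCommGroup Y] (e : Finset ℕ → Y), TfSy Ω e → ∀ X ∈ T, e X = 0 := by
  choose! O h1 h2 h3 using h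
  refine ⟨T.biUnion O, fun r hr => ?_, (Finset.disjoint_biUnion_left _ _ _).2 h2,
    fun Y _ e he X hX => h3 X hX Y e (he.mono (Finset.subset_biUnion_of_mem O hX))⟩
  obtain ⟨X, hX, hr⟩ := Finset.mem_biUnion.1 hr
  exact h1 X hX r hr

theorem tf_good {X F : Finset ℕ} (hX : ∀ r ∈ X, r.Prime ∧ r % 8 = 3) (hd : Disjoint X F)
    (h2 : 2 ∉ F) (ih : ∀ S ∈ X.powerset.erase X, TfK S F) : TfK X F := by
  obtain ⟨Ω, o1, o2, o3⟩ := tf_all ih
  have X2 : 2 ∉ X := fun e => absurd (hX 2 e).2 (by decide)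
  have n1 : ∀ s ∈ X, nn s (-1) = 1 := fun s hs => nn_of_not (by
    have := Fact.mk (hX s hs).1
    have := (hX s hs).2
    push_cast
    rw [ZMod.exists_sq_eq_neg_one_iff]
    omega)
  have n2 : ∀ s ∈ X, nn s (2 : ℕ) = 1 := fun s hs => nn_of_not (by
    have := Fact.mk (hX s hs).1
    have := (hX s hs).2
    push_cast
    rw [ZMod.exists_sq_eq_two_iff (by omega)]
    omega)
  refine ⟨insert 2 X ∪ Ω, fun r hr => ?_, Finset.disjoint_union_left.2
    ⟨Finset.disjoint_insert_left.2 ⟨h2, hd⟩, o2⟩, fun Y _ e he => ?_⟩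
  · simp only [Finset.mem_union, Finset.mem_insert] at hr
    rcases hr with (rfl | hr) | hr
    exacts [Nat.prime_two, (hX r hr).1, o1 r hr]
  have key : ∀ P, X ⊆ P → P ⊆ insert 2 X → Even P.card →
      (∀ mu, TfRec P mu → mu X (P \ X) = 1) → e X = 0 := fun P p1 p2 p3 p4 => by
    obtain ⟨mu, hr, hs⟩ := he P (p2.trans Finset.subset_union_left) p3
    rw [Finset.sum_eq_single_of_mem X (Finset.mem_filter.2 ⟨Finset.mem_powerset.2 p1, X2⟩),
      p4 mu hr] at hs
    · exact (one_smul ℕ _).symm.trans hs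
    · intro S hS hne
      obtain ⟨s1, s2⟩ := Finset.mem_filter.1 hS
      rw [o3 Y e (he.mono Finset.subset_union_right) S (Finset.mem_erase.2
        ⟨hne, Finset.mem_powerset.2 ((Finset.subset_insert_iff_of_notMem s2).1
          ((Finset.mem_powerset.1 s1).trans p2))⟩), smul_zero]
  rcases Nat.even_or_odd X.card with hc | hc
  · refine key X subset_rfl (Finset.subset_insert _ _) hc fun mu hr => ?_
    rw [Finset.sdiff_self]
    exact hr.top X X2 subset_rfl n1
  · refine key (insert 2 X) (Finset.subset_insert _ _) subset_rfl (by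
      rw [Finset.card_insert_of_notMem X2]
      exact hc.add_one) fun mu hr => ?_
    rw [Finset.insert_sdiff_cancel X2, hr.top_two (Finset.mem_insert_self _ _) X X2
      (Finset.subset_insert _ _) n1 n2]
    exact (ZMod.natCast_eq_one_iff_odd).2 hc

theorem tf_kill (k : ℕ) : ∀ X F : Finset ℕ, X.card = k → (∀ r ∈ X, r.Prime ∧ r ≠ 2) →
    Disjoint X F → 2 ∉ F → TfK X F := by
  induction k using Nat.strong_induction_on with
  | _ k ih =>
  suffices H : ∀ j : ℕ, ∀ X F : Finset ℕ, (X.filter fun r => r % 8 ≠ 3).card = j → X.card = k →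
      (∀ r ∈ X, r.Prime ∧ r ≠ 2) → Disjoint X F → 2 ∉ F → TfK X F from
    fun X F => H _ X F rfl
  intro j
  induction j with
  | zero =>
    intro X F hj hk hX hd h2
    rw [Finset.card_eq_zero, Finset.filter_eq_empty_iff] at hj
    refine tf_good (fun r hr => ⟨(hX r hr).1, not_not.1 (hj hr)⟩) hd h2 fun S hS => ?_
    obtain ⟨s1, s2⟩ := Finset.mem_erase.1 hS
    have s3 := Finset.mem_powerset.1 s2
    exact ih _ (hk ▸ Finset.card_lt_card (Finset.ssubset_iff_subset_ne.2 ⟨s3, s1⟩)) S F rfl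
      (fun r hr => hX r (s3 hr)) (hd.mono_left s3) h2
  | succ j ihj =>
    intro X F hj hk hX hd h2
    obtain ⟨l, hl⟩ := Finset.card_pos.1 ((Nat.succ_pos j).trans_eq hj.symm)
    obtain ⟨lX, l8⟩ := Finset.mem_filter.1 hl
    obtain ⟨l', a1, a2, a3⟩ := Nat.forall_exists_prime_gt_and_modEq ((X ∪ F).sup id)
      (q := 8) (a := 3) (by norm_num) (by norm_num)
    have a4 : l' % 8 = 3 := a3
    have a5 : l' ∉ X ∪ F := fun e => absurd (Finset.le_sup (f := id) e) (not_le.2 a1)
    have a6 : l' ∉ X := fun e => a5 (Finset.mem_union_left _ e)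
    have a7 : l' ∉ F := fun e => a5 (Finset.mem_union_right _ e)
    have a8 : l' ≠ 2 := by omega
    have a9 : l' ∉ X.erase l := fun e => a6 (Finset.mem_of_mem_erase e)
    have hX' : ∀ r ∈ X.erase l, r.Prime ∧ r ≠ 2 := fun r hr => hX r (Finset.mem_of_mem_erase hr)
    have hd' : Disjoint (X.erase l) F := hd.mono_left (Finset.erase_subset l X)
    obtain ⟨Ω, o1, o2, o3⟩ := ih _ (hk ▸ Finset.card_erase_lt_of_mem lX) (X.erase l)
      (insert l (insert l' F)) rfl hX' (Finset.disjoint_insert_right.2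
        ⟨Finset.notMem_erase l X, Finset.disjoint_insert_right.2 ⟨a9, hd'⟩⟩)
      (by simp [h2, a8.symm, (hX l lX).2.symm])
    obtain ⟨o4, o5⟩ := Finset.disjoint_insert_right.1 o2
    obtain ⟨o5, o6⟩ := Finset.disjoint_insert_right.1 o5
    obtain ⟨Ω', u1, u2, u3⟩ := ihj (insert l' (X.erase l)) F (by
      rw [Finset.filter_insert, if_neg (not_not.2 a4), Finset.filter_erase,
        Finset.card_erase_of_mem hl, hj]
      rfl) (by
      rw [Finset.card_insert_of_notMem a9, Finset.card_erase_add_one lX, hk])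
      (Finset.forall_mem_insert _ _ _ |>.2 ⟨⟨a2, a8⟩, hX'⟩)
      (Finset.disjoint_insert_left.2 ⟨a7, hd'⟩) h2
    obtain ⟨q, q1, q2, q3, q4, q5, q6⟩ := tf_prime Ω o1 (hX l lX).1 a2 (hX l lX).2 a8
      (fun e => a6 (e ▸ lX)) o4 o5 ((insert l (insert l' (Ω ∪ F))).sup id)
    have q7 : q ∉ insert l (insert l' (Ω ∪ F)) := fun e =>
      absurd (Finset.le_sup (f := id) e) (not_le.2 q1)
    simp only [Finset.mem_insert, Finset.mem_union, not_or] at q7
    refine ⟨insert q (insert l (insert l' (Ω ∪ Ω'))), ?_, ?_, fun Y _ e he => ?_⟩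
    · simp only [Finset.forall_mem_insert, Finset.forall_mem_union]
      exact ⟨q2, (hX l lX).1, a2, o1, u1⟩
    · simp only [Finset.disjoint_insert_left, Finset.disjoint_union_left]
      exact ⟨q7.2.2.2, Finset.disjoint_left.1 hd lX, a7, o6, u2⟩
    have b1 := o3 Y _ (tf_swap o1 (hX l lX).1 (hX l lX).2 o4 q2 q7.2.2.1 q3 q4 q7.1 q5
      (he.mono (by
        intro a
        simp only [Finset.mem_insert, Finset.mem_union]
        tauto)))
    have b2 := o3 Y _ (tf_swap o1 a2 a8 o5 q2 q7.2.2.1 q3 q4 q7.2.1 q6 (he.mono (by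
        intro a
        simp only [Finset.mem_insert, Finset.mem_union]
        tauto)))
    have b3 := u3 Y e (he.mono (by
        intro a
        simp only [Finset.mem_insert, Finset.mem_union]
        tauto))
    rw [b3, add_zero] at b2
    rwa [b2, zero_add, Finset.insert_erase lX] at b1

end Pool.Agent.Tate
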