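import Pool.Agent.P.MP_e12fcd_ag.Cmh.Main
import Pool.Agent.P.MP_2ce3e7_ag.TfCm

/-! Balanced families of Fermat lines of every level have class zero. -/

set_option autoImplicit false

noncomputable section

open NumberField

namespace Pool.Agent.Tate

open Pool.Agent.Ferm Pool.Agent.Cmh

theorem exists_four {n : ℕ} (h : 2 < n) : ∃ (E : Type) (_ : Field E) (_ : NumberField E)
    (_ : IsCMField E) (τ : E →+* ℂ), (∃ z : E, IsPrimitiveRoot z n) ∧ Four τ := by
  have : NeZero n := ⟨by omega⟩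
  let C := CyclotomicField n ℚ
  have hy : IsCyclotomicExtension {n} ℚ C := CyclotomicField.isCyclotomicExtension n ℚ
  have hC : IsCMField C := IsCyclotomicExtension.Rat.isCMField C (S := {n}) ⟨n, rfl, h⟩
  obtain ⟨E, _, _, _, _, h7, h3, hj⟩ := rd_field fun _ : Unit => C
  obtain ⟨j⟩ := hj ()
  obtain ⟨Pl, _, _, φ, v0, h0, hD⟩ := p_Dat E h7 h3
  have hO := p_AR E Pl φ v0 h0 hD
  exact ⟨E, inferInstance, inferInstance, inferInstance, φ v0,
    ⟨_, (IsCyclotomicExtension.zeta_spec n ℚ C).map_of_injective j.injective⟩,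
    p_CY _ _ _ _ hO.act hO.fg hO.free hO.pd hO.coc E (φ v0) (nvp_of p_HD p_TH3
      (fun _ _ _ _ _ _ _ _ _ _ hD ar _ ha _ hf => SmV.smV p_HD hD ar ha hf) p_Pure p_NV
      E Pl φ v0 h0 hD hO)⟩

theorem tcl_sum {m : ℕ} [NeZero m] {ι : Type} [Fintype ι] {a b : ι → ZMod m}
    (ha : ∀ i, Ok (a i) (b i)) (hB : ∀ t : ℕ, t.Coprime m → 2 * (Finset.univ.filter fun i =>
      ((t : ZMod m) * a i).val + ((t : ZMod m) * b i).val < m).card = Fintype.card ι) :
    ∑ i, tcl (a i) (b i) = 0 := by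
  have h0 := NeZero.pos m
  obtain ⟨E, _, _, _, τ, ⟨z, hz⟩, h⟩ := exists_four (n := 3 * m) (by omega)
  exact tcl_sum_of_four posAll h (hz.pow (by omega) rfl) ha hB

end Pool.Agent.Tate
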