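import Pool.Agent.P.MP_2ce3e7_ag.TfFour
import Pool.Agent.K.MP_e12fcd_ag.C85

/-! All balanced families are killed in the geometric system. -/

set_option autoImplicit false

noncomputable section

namespace Pool.Agent.Tate

open Pool.Agent.Ferm
open Pool.Agent.P.MP_e12fcd_ag.Fermat (bern tors mem_tors)

theorem cls_of_bal {m : ℕ} [NeZero m] {ι : Type} [Fintype ι] {a : ι → Ch m} (ha : ∀ i, Nd (a i))
    (hB : Bal a) : ∑ i, tcl (a i).1 (a i).2 = 0 := tcl_sum ha hB

theorem tfGeo_ty {N : ℕ} [NeZero N] {c : Ch N} (h : ¬ Nd c) : ty c = 0 := by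
  simp only [Nd, not_and_or, not_not] at h
  rcases h with h | h | h
  · rw [ty, h, th_zero, zero_add, zero_add, sub_self]
  · rw [ty, h, th_zero, add_zero, add_zero, sub_self]
  · rw [ty, h, eq_neg_of_add_eq_zero_left h, th_neg, th_zero, neg_add_cancel, sub_self]

/-- a sum of Gauss sum motives is a sum of Jacobi sum motives and one Gauss sum motive -/
theorem tfGeo_sum {N : ℕ} [NeZero N] {ι : Type} (c : ι → ZMod N) (s : Finset ι) :
    ∃ (n : ℕ) (a : Fin n → Ch N), (∀ j, Nd (a j)) ∧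
      ∑ j, ty (a j) = ∑ i ∈ s, th (c i) - th (∑ i ∈ s, c i) ∧
      ∑ i ∈ s, Ferm.phi (c i) = ⟨∑ j, tcl (a j).1 (a j).2, ∑ i ∈ s, c i⟩ := by
  classical
  induction s using Finset.induction_on with
  | empty => exact ⟨0, Fin.elim0, fun j => j.elim0, by simp [th_zero], rfl⟩
  | insert i s hi ih =>
    obtain ⟨n, a, h1, h2, h3⟩ := ih
    simp only [Finset.sum_insert hi, h3]
    have e : ty (c i, ∑ i ∈ s, c i) = th (c i) + th (∑ i ∈ s, c i) - th (c i + ∑ i ∈ s, c i) := rfl
    by_cases h : Nd (c i, ∑ i ∈ s, c i)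
    · refine ⟨n + 1, Fin.cons (c i, ∑ i ∈ s, c i) a, Fin.cases h h1, ?_, EG.ext ?_ rfl⟩
      · rw [Fin.sum_univ_succ]
        simp only [Fin.cons_zero, Fin.cons_succ, h2, e]
        abel
      · rw [Fin.sum_univ_succ]
        simp only [Fin.cons_zero, Fin.cons_succ]
        change 0 + _ + _ = _
        rw [zero_add, add_comm]
        rfl
    · refine ⟨n, a, h1, ?_, EG.ext ?_ rfl⟩
      · rw [tfGeo_ty h] at e
        rw [h2, ← sub_eq_zero.1 e.symm]
        abel
      · change 0 + _ + tcl (c i) (∑ i ∈ s, c i) = _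
        rw [tcl_of_not h, zero_add, add_zero]

theorem ka_geo (p L : ℕ) [NeZero L] {ι : Type} [Fintype ι] (b : ι → ZMod L)
    (h : ∑ i, th (b i) = 0) : ∑ i, Ferm.phi (lv (8 * L) (b i)) ∈ RE p L := by
  have h8 : L ∣ 8 * L := dvd_mul_left L 8
  have h1 : ∑ i, th (lv (8 * L) (b i)) = 0 := by
    simp only [← lam_th h8]
    rw [← map_sum, h, map_zero]
  obtain ⟨n, a, ha, h2, h3⟩ := tfGeo_sum (fun i => lv (8 * L) (b i)) Finset.univ
  generalize hs : ∑ i, lv (8 * L) (b i) = s at h2 h3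
  have h4 : 2 * s = 0 := by
    have := congrArg (fun y => ((y 1 : ℤ) : ZMod (8 * L))) h1
    simp only [Finset.sum_apply, Int.cast_sum, th_one, Pi.zero_apply, Int.cast_zero] at this
    rw [← hs, Finset.mul_sum, this]
  have h5 : th s = 0 := funext fun t => P.MP_e12fcd_ag.Fermat.bern_two_torsion
    (by rw [mul_left_comm, h4, mul_zero])
  rw [h1, h5, sub_zero] at h2
  rw [h3, cls_of_bal ha (bal_of_ty ha h2)]
  have h6 : s ∈ tors (8 * L) 2 := by rw [mem_tors, Nat.cast_ofNat, h4]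
  rw [EGroupX.tors_two ((by norm_num : 4 ∣ 8).mul_right L), Finset.mem_insert,
    Finset.mem_singleton] at h6
  rcases h6 with h6 | h6 <;> rw [h6]
  · exact zero_mem _
  · exact AddSubgroup.subset_closure (Set.mem_insert _ _)

end Pool.Agent.Tate
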