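import Pool.Agent.P.MP_2ce3e7_ag.TfComb

/-! At a suitable level the balanced families kill every Galois invariant distribution. -/

set_option autoImplicit false

noncomputable section

namespace Pool.Agent.Tate

open Pool.Agent.P.MP_e12fcd_ag.Fermat (tors mem_tors card_tors)

/-- all balanced families are killed -/
def TfKA {M : ℕ} {Y : Type} [AddCommGroup Y] (g : ZMod M → Y) : Prop :=
  ∀ (ι : Type) [Fintype ι] (b : ι → ZMod M), ∑ i, th (b i) = 0 → ∑ i, g (b i) = 0

theorem TfKA.res {M L : ℕ} [NeZero L] (h : M ∣ L) {Y : Type} [AddCommGroup Y]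
    {g : ZMod L → Y} (hg : TfKA g) : TfKA fun b : ZMod M => g (lv L b) := fun ι _ b h0 =>
  hg ι (fun i => lv L (b i)) (by
    simp only [← lam_th h]
    rw [← map_sum, h0, map_zero])

theorem tf_level {p m : ℕ} [NeZero m] (hp : p.Prime) (h2 : p ≠ 2) (hpm : p.Coprime m) :
    ∃ (M : ℕ) (_ : NeZero M), m ∣ M ∧ p.Coprime M ∧
      ∀ (Y : Type) [AddCommGroup Y] (G : ZMod M → Y), Dist M G → Gal G →
        (∀ c, Even (addOrderOf c) → G c = 0) → TfKA G → ∀ b : ZMod m, G (lv M b) = 0 := by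
  obtain ⟨Ω, o1, o2, o3⟩ := tf_all (T := (m.primeFactors.erase 2).powerset) (F := {p})
    fun X hX => tf_kill _ X {p} rfl (fun r hr => by
      obtain ⟨a, b⟩ := Finset.mem_erase.1 (Finset.mem_powerset.1 hX hr)
      exact ⟨Nat.prime_of_mem_primeFactors b, a⟩) (Finset.disjoint_singleton_right.2 fun e =>
        (Nat.Prime.coprime_iff_not_dvd hp).1 hpm (Nat.dvd_of_mem_primeFactors
          (Finset.mem_of_mem_erase (Finset.mem_powerset.1 hX e))))
      (Finset.notMem_singleton.2 h2.symm)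
  obtain ⟨M, hM⟩ : ∃ M, M = 2 * m * ∏ r ∈ Ω, r := ⟨_, rfl⟩
  have : NeZero M := ⟨hM ▸ mul_ne_zero (mul_ne_zero two_ne_zero (NeZero.ne m))
    (Finset.prod_ne_zero_iff.2 fun r hr => (o1 r hr).ne_zero)⟩
  have hmM : m ∣ M := hM ▸ (dvd_mul_left m 2).mul_right _
  refine ⟨M, inferInstance, hmM, hM ▸ (((Nat.coprime_primes hp Nat.prime_two).2 h2).mul_right
    hpm).mul_right (Nat.Coprime.prod_right fun r hr => (Nat.coprime_primes hp (o1 r hr)).2
      fun e => Finset.disjoint_singleton_right.1 o2 (e ▸ hr)), fun Y _ G hD hG hev hK b => ?_⟩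
  have hS := o3 Y (fun S => G ((M / ∏ r ∈ S, r : ℕ) : ZMod M)) fun P hP he => by
    obtain ⟨mu, a, b, c⟩ := zz_rel hG hev hD.neg hK P (fun r hr => o1 r (hP hr))
      (fun r hr => hM ▸ mul_dvd_mul (dvd_mul_right 2 m) (Finset.dvd_prod_of_mem _ (hP hr))) he
    exact ⟨mu, ⟨a, b⟩, c⟩
  suffices H : ∀ n, ∀ c : ZMod M, addOrderOf c = n → n ∣ m → G c = 0 from
    H _ _ (addOrderOf_lv hmM b) (ord_dvd b)
  intro n
  induction n using Nat.strong_induction_on with
  | _ n ih =>
  intro c hc hn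
  rcases Nat.even_or_odd n with he | ho
  · exact hev c (hc ▸ he)
  have hnM : n ∣ M := hn.trans hmM
  by_cases hs : Squarefree n
  · have h1 := hS n.primeFactors (Finset.mem_powerset.2 fun r hr => Finset.mem_erase.2
      ⟨fun e => ho.not_two_dvd_nat (e ▸ Nat.dvd_of_mem_primeFactors hr),
        Nat.primeFactors_mono hn (NeZero.ne m) hr⟩)
    rw [Nat.prod_primeFactors_of_squarefree hs] at h1
    rw [← h1]
    refine hG.of_order ?_
    rw [ZMod.addOrderOf_coe _ (NeZero.ne M), Nat.gcd_eq_right (Nat.div_dvd_of_dvd hnM),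
      Nat.div_div_self hnM (NeZero.ne M), hc]
  · rw [Nat.squarefree_iff_prime_squarefree] at hs
    push Not at hs
    obtain ⟨r, hr, hrn⟩ := hs
    have r1 : r ∣ n := (dvd_mul_right r r).trans hrn
    have e1 := ord_mul_of_dvd (b := c) (hc ▸ r1)
    rw [hc] at e1
    have r2 : r ∣ addOrderOf ((r : ZMod M) * c) :=
      Nat.dvd_of_mul_dvd_mul_right hr.pos (e1 ▸ hrn)
    have e2 := hD.dist r hr (r1.trans hnM) c
    rw [ih _ (by
        have := hr.one_lt
        have := addOrderOf_pos ((r : ZMod M) * c)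
        nlinarith) _ rfl ((Dvd.intro _ e1).trans hn),
      Finset.sum_congr rfl fun z hz => hG.of_order (ord_add_tors hr r2 (mem_tors.1 hz)),
      Finset.sum_const, card_tors (r1.trans hnM)] at e2
    obtain ⟨s, rfl⟩ := ho.of_dvd_nat r1
    rwa [add_smul, one_smul, mul_comm, mul_smul, hG.two hD, smul_zero, zero_add] at e2

end Pool.Agent.Tate
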