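import Pool.Agent.P.MP_2ce3e7_ag.TfTwo
import Pool.Agent.K.MP_e12fcd_ag.C325

/-! Existence of cycles for all degrees in odd characteristic. -/

set_option autoImplicit false
set_option linter.unusedSectionVars false

noncomputable section

namespace Pool.Agent.Tate

open Pool.Agent.Ferm

variable {m : ℕ} [NeZero m] {p : ℕ} [Fact p.Prime]

theorem hasPair_of_RE {k ι : Type} [Field k] [Fintype k] [CharP k p] [NeZero (m : k)]
    [Fintype ι] [DecidableEq ι] (ζ : Rt m k) {a : ι → Ch m} (ha : ∀ i, Nd (a i)) {e : ℤ}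
    (he : ∏ i, -Jac ζ.1 (a i) = (Fintype.card k : ℂ) ^ e) {L : ℕ} [NeZero L] (hL : m ∣ L)
    (hp : p.Coprime L)
    (hx : ∑ x : ι × Fin 3, Ferm.phi (lv (8 * L) (lv L (ex3 (a x.1) x.2))) ∈ RE p L) :
    Even (Fintype.card ι) ∧ HasPair ζ a := by
  have hev := even_of_jac ζ.2 ha he
  refine ⟨hev, ?_⟩
  have h0 := NeZero.ne L
  have ha' : ∀ i, Nd (lf L (a i)) := fun i => (nd_lf hL).2 (ha i)
  have e3 : ∀ i j, ex3 (lf L (a i)) j = lv L (ex3 (a i) j) := fun i j => by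
    fin_cases j
    · rfl
    · rfl
    · change -lv L (a i).1 - lv L (a i).2 = lv L (-(a i).1 - (a i).2)
      rw [sub_eq_add_neg, sub_eq_add_neg, lv_add hL, lv_neg hL, lv_neg hL]
  have h1 : ∑ i, tcl (lf L (a i)).1 (lf L (a i)).2 ∈ XE p L := by
    refine mem_XE hp ?_ ((even_deg ha').2 hev)
    simpa only [map_sum, io_tcl_lv, e3, Fintype.sum_prod_type] using hx
  obtain ⟨n, c, hc, hx⟩ := exists_family_cls h1
  have hu : IsUnit (p : ZMod L) := (ZMod.isUnit_iff_coprime p L).2 hp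
  obtain ⟨b, hb⟩ : ∃ b : ι ⊕ Fin n ⊕ Fin n → Ch L, b = Sum.elim (fun i => lf L (a i))
    (Sum.elim (fun j => (p : ZMod L) • c j) (-c)) := ⟨_, rfl⟩
  have nb : ∀ i, Nd (b i) := by
    rintro (i | j | j) <;> rw [hb]
    exacts [ha' i, (hc j).smul hu, (hc j).neg]
  have hB : ∑ i, tcl (b i).1 (b i).2 = 0 := by
    simp only [Finset.sum_sub_distrib] at hx
    simp only [hb, Fintype.sum_sum_type, Sum.elim_inl, Sum.elim_inr, Pi.neg_apply, Prod.fst_neg,
      Prod.snd_neg, tcl_neg, hx, Finset.sum_neg_distrib]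
    abel
  obtain ⟨d, hd⟩ := hL
  have : NeZero (L : k) := ⟨fun h => (Fact.out : p.Prime).one_lt.ne'
    (hp.eq_one_of_dvd ((CharP.cast_eq_zero_iff k p L).1 h))⟩
  obtain ⟨ω₀, hω₀⟩ := HasEnoughRootsOfUnity.exists_primitiveRoot (AlgebraicClosure k) L
  obtain ⟨ω, hω, hω'⟩ := exists_root_pow (hd ▸ h0) (hd ▸ hω₀)
    (ζ.2.map_of_injective (algebraMap k (AlgebraicClosure k)).injective)
  rw [← hd] at hω
  let k₁ := IntermediateField.adjoin k {ω}
  have : FiniteDimensional k k₁ :=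
    IntermediateField.adjoin.finiteDimensional (Algebra.IsIntegral.isIntegral ω)
  have : Finite k₁ := Module.finite_of_finite k
  let ζ₁ : Rt L k₁ := ⟨⟨ω, IntermediateField.mem_adjoin_simple_self k ω⟩,
    IsPrimitiveRoot.of_map_of_injective (f := algebraMap k₁ (AlgebraicClosure k)) hω
      (algebraMap k₁ (AlgebraicClosure k)).injective⟩
  have : NeZero (L : AlgebraicClosure k) := ⟨Rt.ne ⟨ω, hω⟩⟩
  obtain ⟨k', _, _, ζ₀, h₀, hP⟩ := HasPair.finite (ζ := ζ₁) (ζ' := ⟨ω, hω⟩) rfl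
    (hasPair_of_cls _ nb hB)
  have : Finite k' := Module.finite_of_finite k₁
  have := Fintype.ofFinite k'
  have : FiniteDimensional k k' := Module.Finite.of_finite
  obtain ⟨ζ', hζ'⟩ := exists_rt (algebraMap k k') ζ.2
  have : NeZero (m : k') := ⟨ζ'.ne⟩
  refine desc_finite hζ' ha he (HasPair.lower (ζ' := ζ₀) hd ?_ ha (HasPair.cancel hc
    (HasPair.frob p (Sum.elim 0 (Sum.elim 1 0)) ?_ ?_)))
  · apply (algebraMap k' (AlgebraicClosure k)).injective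
    rw [map_pow, hζ', h₀]
    exact hω'.symm
  · rintro (i | j | j)
    exacts [ha' i, hc j, (hc j).neg]
  · convert hP using 2 with i
    rcases i with i | j | j <;> simp [hb]

theorem ht_of_arith
    (hka : ∀ (L : ℕ) [NeZero L] (ι : Type) [Fintype ι] (b : ι → ZMod L), ∑ i, th (b i) = 0 →
      ∑ i, Ferm.phi (lv (8 * L) (b i)) ∈ RE p L)
    (H : ∀ (ι : Type) [Fintype ι] (b : ι → ZMod m) (f : ℕ), f ≠ 0 → (p : ZMod m) ^ f = 1 →
      ∑ s ∈ Finset.range f, ∑ i, th ((p : ZMod m) ^ s * b i) = 0 →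
      ∃ (L : ℕ) (_ : NeZero L), m ∣ L ∧ p.Coprime L ∧ ∀ (Y : Type) [AddCommGroup Y]
        (g : ZMod L → Y), Sys p L g → TfKA g → ∑ i, g (lv L (b i)) = 0)
    (k : Type) [Field k] [Fintype k] [CharP k p] [NeZero (m : k)] (ζ : Rt m k) : HT ζ := by
  intro ι _ _ a ha e he
  obtain ⟨f, -, hg⟩ := FiniteField.card k p
  have h1 : (p : ZMod m) ^ (f : ℕ) = 1 := rt_pow ζ p (RingHom.id k) rfl hg
  have h : ∑ s ∈ Finset.range f, ∑ x : ι × Fin 3,
      th ((p : ZMod m) ^ s * ex3 (a x.1) x.2) = 0 := by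
    simpa only [Fintype.sum_prod_type, ty_eq_sum, ex3_smul] using stick hg ζ.2 ha he
  obtain ⟨L, _, hL, hpL, hx⟩ := H _ _ f f.ne_zero h1 h
  obtain ⟨Y, _, g, hg, hR⟩ := geo_sys_of (le_refl (RE p L))
  exact hasPair_of_RE ζ ha he hL hpL ((hR _ fun x : ι × Fin 3 => lv L (ex3 (a x.1) x.2)).1
    (hx Y g hg fun κ _ c hc => (hR κ c).2 (hka L κ c hc)))

theorem ht_all (hc : p = 2 → Set.Subsingleton
      {χ : DirichletCharacter ℂ m | (∃ e : ℕ, χ ^ 2 ^ e = 1) ∧ χ.Odd ∧ χ p ≠ 1})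
    (hka : ∀ (L : ℕ) [NeZero L] (ι : Type) [Fintype ι] (b : ι → ZMod L), ∑ i, th (b i) = 0 →
      ∑ i, Ferm.phi (lv (8 * L) (b i)) ∈ RE p L)
    (k : Type) [Field k] [Fintype k] [CharP k p] [NeZero (m : k)] (ζ : Rt m k) : HT ζ := by
  have hp : p.Prime := Fact.out
  have hpm : p.Coprime m := (Nat.Prime.coprime_iff_not_dvd hp).2 fun h =>
    NeZero.ne (m : k) ((CharP.cast_eq_zero_iff k p m).2 h)
  by_cases h2 : p = 2
  swap
  · exact ht_of_arith hka (fun _ _ _ _ hf h1 h => tf_arith hp h2 hpm hf h1 h) k ζ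
  by_cases hA : Adm m
  · exact ht_of_char hA (hc h2) k ζ
  rcases char_data hpm (hc h2) with ⟨f, hf, h1⟩ | ⟨n, hn, hexp, -, -⟩
  · exact ht_of_arith hka (fun _ _ _ _ hf' h1' h => tf_arith_odd hp hpm hf' h1' h hf h1) k ζ
  refine absurd (fun l hl hlm => ?_) hA
  by_contra h2
  have := Fact.mk hl
  obtain ⟨y, hy⟩ := (ZMod.exists_sq_eq_neg_one_iff (p := l)).2 fun h => h2 (Or.inr h)
  have h0 : y ≠ 0 := by
    rintro rfl
    rw [mul_zero, neg_eq_zero] at hy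
    exact one_ne_zero hy
  obtain ⟨t, ht⟩ := ZMod.unitsMap_surjective hlm (Units.mk0 y h0)
  have h3 := congrArg (fun u => ((ZMod.unitsMap hlm u : (ZMod l)ˣ) : ZMod l)) (hexp t)
  simp only [map_pow, ht, map_one, Units.val_pow_eq_pow_val, Units.val_mk0, Units.val_one] at h3
  rw [pow_mul, pow_two, ← hy, hn.neg_one_pow] at h3
  have h4 : ((2 : ℕ) : ZMod l) = 0 := by
    push_cast
    linear_combination -h3
  exact h2 (Or.inl ((Nat.prime_dvd_prime_iff_eq hl Nat.prime_two).1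
    ((ZMod.natCast_eq_zero_iff 2 l).1 h4)))

end Pool.Agent.Tate
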