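import Pool.Agent.P.MP_2ce3e7_ag.TfKill
import Pool.Agent.K.MP_e12fcd_ag.C91

/-! The prime two modulo all balanced families. -/

set_option autoImplicit false
set_option linter.unusedSectionVars false

noncomputable section

namespace Pool.Agent.Tate

variable {p M : ℕ} [NeZero M] {ι : Type} [Fintype ι] {b : ι → ZMod M}

theorem tf_four (hp : p.Prime) (h2 : p ≠ 2) (hpM : p.Coprime M) {f : ℕ} (hf : f ≠ 0)
    (h1 : (p : ZMod M) ^ f = 1)
    (h : ∑ s ∈ Finset.range f, ∑ i, th ((p : ZMod M) ^ s * b i) = 0) :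
    Ev p M fun _ _ g => 4 • ∑ i, g (b i) = 0 := by
  have e : ∀ (Y : Type) [AddCommGroup Y] (g : ZMod M → Y),
      ∑ x : Fin 4 × ι, g (b x.2) = 4 • ∑ i, g (b i) := fun Y _ g => by
    simp only [Fintype.sum_prod_type, Finset.sum_const, Finset.card_univ, Fintype.card_fin]
  refine (Ev.of_primes (b := fun x : Fin 4 × ι => b x.2) fun l hl => ?_).mono
    fun Y _ g _ H => (e Y g).symm.trans H
  obtain ⟨n, hn, hE⟩ := ev_four hp hpM hf h1 h hl fun _ => h2
  exact ⟨n, hn, hE.mono fun Y _ g _ H => by rwa [e]⟩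

theorem tf_norm (hp : p.Coprime M) (f : ℕ) :
    TfKA fun b : ZMod M => ∑ s ∈ Finset.range f, th ((p : ZMod M) ^ s * b) := by
  have hu : IsUnit (p : ZMod M) := (ZMod.isUnit_iff_coprime p M).2 hp
  intro κ _ c h0
  rw [Finset.sum_comm]
  refine Finset.sum_eq_zero fun s _ => ?_
  obtain ⟨v, hv⟩ := hu.pow s
  funext t
  have := congrFun h0 (t * v)
  simp only [Finset.sum_apply, th, Units.val_mul, Pi.zero_apply, hv, mul_assoc] at this ⊢
  exact this

theorem tf_ev (hp : p.Prime) (h2 : p ≠ 2) (hpM : p.Coprime M) {f : ℕ} (hf : f ≠ 0)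
    (h1 : (p : ZMod M) ^ f = 1)
    (h : ∑ s ∈ Finset.range f, ∑ i, th ((p : ZMod M) ^ s * b i) = 0)
    (H : ∀ (Y : Type) [AddCommGroup Y] (G : ZMod M → Y), Dist M G → Gal G →
      (∀ c, Even (addOrderOf c) → G c = 0) → TfKA G → ∑ i, G (b i) = 0) :
    Ev p M fun _ _ g => TfKA g → ∑ i, g (b i) = 0 := by
  obtain ⟨L, _, hML, hpL, hD⟩ :=
    (Ev.all hpM (κ := (ZMod M)ˣ) fun t => ev_divA hp h2 hpM t).and (ev_divB hp h2 hpM)
  obtain ⟨V, _, u, hu, hfam, hπ⟩ := exists_univ p L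
  obtain ⟨hA, hB⟩ := hD V u hu
  let S : Set V := {x | ∃ (κ : Type) (_ : Fintype κ) (c : κ → ZMod M), ∑ j, th (c j) = 0 ∧
    x = ∑ j, u (lv L (c j))}
  let W : AddSubgroup V := (nsmulAddMonoidHom 4 : V →+ V).range ⊔ AddSubgroup.closure S
  have hW : ∀ x y : V, x = 4 • y → QuotientAddGroup.mk' W x = 0 := fun x y e =>
    (QuotientAddGroup.eq_zero_iff _).2 (AddSubgroup.mem_sup_left ⟨y, e.symm⟩)
  have hev : ∀ c : ZMod M, Even (addOrderOf c) → QuotientAddGroup.mk' W (u (lv L c)) = 0 :=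
    fun c hc => by
      obtain ⟨y, hy⟩ := hB c hc
      exact hW _ y hy
  have h0 := H (V ⧸ W) (fun c => QuotientAddGroup.mk' W (u (lv L c)))
    ((hu.dist.res hML).map _) (fun t c => ?_) hev fun κ _ c hc => ?_
  rotate_left
  · rcases Nat.even_or_odd (addOrderOf c) with he | ho
    · exact (hev _ (by rwa [ord_unit_mul])).trans (hev c he).symm
    · obtain ⟨y, hy⟩ := hA t c ho
      have := hW _ y hy
      rwa [map_sub, sub_eq_zero] at this
  · rw [← map_sum]
    exact (QuotientAddGroup.eq_zero_iff _).2 (AddSubgroup.mem_sup_right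
      (AddSubgroup.subset_closure ⟨κ, inferInstance, c, hc, rfl⟩))
  rw [← map_sum] at h0
  obtain ⟨_, ⟨y, rfl⟩, z, hz, hy⟩ :=
    AddSubgroup.mem_sup.1 ((QuotientAddGroup.eq_zero_iff _).1 h0)
  obtain ⟨κ, _, c, rfl⟩ := hfam y
  have hy' : ∑ i, u (lv L (b i)) = 4 • ∑ j, u (c j) + z := hy.symm
  have key : ∀ (Y : Type) [AddCommGroup Y] (g : ZMod L → Y), Sys p L g →
      TfKA (fun b : ZMod M => g (lv L b)) → ∑ i, g (lv L (b i)) = 4 • ∑ j, g (c j) := by
    intro Y _ g hg hs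
    obtain ⟨π, hπ'⟩ := hπ Y g hg
    have h3 : AddSubgroup.closure S ≤ π.ker := (AddSubgroup.closure_le _).2 (by
      rintro _ ⟨κ, _, c, hc, rfl⟩
      have := hs κ c hc
      simp only [← hπ', ← map_sum] at this
      exact this)
    have e := congrArg π hy'
    rw [map_add, (AddMonoidHom.mem_ker.1 (h3 hz)), add_zero] at e
    simpa only [map_nsmul, map_sum, hπ'] using e
  have ht : L.totient ≠ 0 := (Nat.totient_pos.2 (NeZero.pos _)).ne'
  have h1L : (p : ZMod L) ^ (L.totient * f) = 1 := by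
    have := (ZMod.natCast_eq_natCast_iff _ _ _).2 (Nat.ModEq.pow_totient hpL)
    rw [Nat.cast_pow, Nat.cast_one] at this
    rw [pow_mul, this, one_pow]
  have h4 : ∑ s ∈ Finset.range (L.totient * f), ∑ i,
      th ((p : ZMod L) ^ s * lv L (b i)) = 0 := by
    simp only [← Nat.cast_pow, natCast_mul_lv hML, ← lam_th hML, ← map_sum]
    simp only [Nat.cast_pow]
    rw [upMain_per fun s => by rw [pow_add, h1, one_mul], h, smul_zero, map_zero]
  have h5 : ∑ s ∈ Finset.range (L.totient * f), ∑ j, th ((p : ZMod L) ^ s * c j) = 0 := by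
    have e := key _ _ (sys_norm hpL h1L) ((tf_norm hpL _).res hML)
    rw [Finset.sum_comm, h4, Finset.sum_comm] at e
    exact (smul_eq_zero.1 e.symm).resolve_left (by decide)
  refine Ev.up hML ((tf_four hp h2 hpL (mul_ne_zero ht hf) h1L h5).mono fun Y _ g hg h hs => ?_)
  rw [key Y g hg hs]
  exact h

/-- the arithmetic part -/
theorem tf_arith (hp : p.Prime) (h2 : p ≠ 2) (hpM : p.Coprime M) {f : ℕ} (hf : f ≠ 0)
    (h1 : (p : ZMod M) ^ f = 1)
    (h : ∑ s ∈ Finset.range f, ∑ i, th ((p : ZMod M) ^ s * b i) = 0) :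
    ∃ (L : ℕ) (_ : NeZero L), M ∣ L ∧ p.Coprime L ∧ ∀ (Y : Type) [AddCommGroup Y]
      (g : ZMod L → Y), Sys p L g → TfKA g → ∑ i, g (lv L (b i)) = 0 := by
  obtain ⟨N, _, hd, hpN, hK⟩ := tf_level hp h2 hpM
  have ht : N.totient ≠ 0 := (Nat.totient_pos.2 (NeZero.pos _)).ne'
  have h14 : (p : ZMod N) ^ (N.totient * f) = 1 := by
    have := (ZMod.natCast_eq_natCast_iff _ _ _).2 (Nat.ModEq.pow_totient hpN)
    rw [Nat.cast_pow, Nat.cast_one] at this
    rw [pow_mul, this, one_pow]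
  have h4 : ∑ s ∈ Finset.range (N.totient * f), ∑ i,
      th ((p : ZMod N) ^ s * lv N (b i)) = 0 := by
    simp only [← Nat.cast_pow, natCast_mul_lv hd, ← lam_th hd, ← map_sum]
    simp only [Nat.cast_pow]
    rw [upMain_per fun s => by rw [pow_add, h1, one_mul], h, smul_zero, map_zero]
  obtain ⟨L, _, hL, hpL, hx⟩ := tf_ev hp h2 hpN (mul_ne_zero ht hf) h14 h4
    fun Y _ G hG hi he hk => Finset.sum_eq_zero fun i _ => hK Y G hG hi he hk (b i)
  exact ⟨L, inferInstance, hd.trans hL, hpL, fun Y _ g hg hk => by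
    simpa only [lv_lv hL hd] using hx Y g hg (hk.res hL)⟩

theorem tf_primes (h : ∀ l : ℕ, l.Prime → ∃ n : ℕ, ¬ l ∣ n ∧
    Ev p M fun _ _ g => TfKA g → n • ∑ i, g (b i) = 0) :
    Ev p M fun _ _ g => TfKA g → ∑ i, g (b i) = 0 := by
  let I : Ideal ℤ :=
    { carrier := {n | Ev p M fun _ _ g => TfKA g → n • ∑ i, g (b i) = 0}
      add_mem' := fun {x y} ha hb => by
        simp only [Set.mem_ofPred_eq] at ha hb ⊢
        exact (Ev.and ha hb).mono fun Y _ g _ H hs => by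
          rw [add_smul, H.1 hs, H.2 hs, add_zero]
      zero_mem' := by
        obtain ⟨n, -, hn⟩ := h 2 Nat.prime_two
        simp only [Set.mem_ofPred_eq]
        exact hn.mono fun Y _ g _ _ _ => zero_smul _ _
      smul_mem' := fun c n hn => by
        simp only [Set.mem_ofPred_eq] at hn ⊢
        exact Ev.mono hn fun Y _ g _ H hs => by
          rw [smul_eq_mul, mul_smul, H hs, smul_zero] }
  have h1 : (Submodule.IsPrincipal.generator I).natAbs = 1 := by
    by_contra h1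
    obtain ⟨l, hl, hd⟩ := Nat.exists_prime_and_dvd h1
    obtain ⟨n, hn, hg⟩ := h l hl
    have h2 : (n : ℤ) ∈ I := by
      show Ev p M fun _ _ g => TfKA g → (n : ℤ) • ∑ i, g (b i) = 0
      exact Ev.mono hg fun Y _ g _ H hs => by rw [natCast_zsmul, H hs]
    exact hn (hd.trans (by
      simpa using Int.natAbs_dvd_natAbs.2 ((Submodule.IsPrincipal.mem_iff_generator_dvd I).1 h2)))
  have h2 : (1 : ℤ) ∈ I := (Submodule.IsPrincipal.mem_iff_generator_dvd I).2
    (Int.isUnit_iff_natAbs_eq.2 h1).dvd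
  have h3 : Ev p M fun _ _ g => TfKA g → (1 : ℤ) • ∑ i, g (b i) = 0 := h2
  exact Ev.mono h3 fun Y _ g _ H hs => (one_smul ℤ _).symm.trans (H hs)

/-- the arithmetic part for odd order -/
theorem tf_arith_odd (hp : p.Prime) (hpM : p.Coprime M) {f : ℕ} (hf : f ≠ 0)
    (h1 : (p : ZMod M) ^ f = 1)
    (h : ∑ s ∈ Finset.range f, ∑ i, th ((p : ZMod M) ^ s * b i) = 0) {f' : ℕ} (hf' : Odd f')
    (h1' : (p : ZMod M) ^ f' = 1) :
    ∃ (L : ℕ) (_ : NeZero L), M ∣ L ∧ p.Coprime L ∧ ∀ (Y : Type) [AddCommGroup Y]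
      (g : ZMod L → Y), Sys p L g → TfKA g → ∑ i, g (lv L (b i)) = 0 := by
  have per : ∀ g : ℕ, (p : ZMod M) ^ g = 1 → ∀ n : ℕ,
      ∑ s ∈ Finset.range (n * g), ∑ i, th ((p : ZMod M) ^ s * b i) =
        n • ∑ s ∈ Finset.range g, ∑ i, th ((p : ZMod M) ^ s * b i) := fun g hg =>
    upMain_per fun s => by rw [pow_add, hg, one_mul]
  have h0 : ∑ s ∈ Finset.range f', ∑ i, th ((p : ZMod M) ^ s * b i) = 0 := by
    have := per f' h1' f
    rw [mul_comm, per f h1, h, smul_zero] at this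
    exact (smul_eq_zero.1 this.symm).resolve_left hf
  have hb : ∑ x : Fin f' × ι, th ((p : ZMod M) ^ (x.1 : ℕ) * b x.2) = 0 := by
    rw [Fintype.sum_prod_type, ← h0, Finset.sum_range]
  obtain ⟨L, _, hL, hpL, hx⟩ := tf_primes (p := p) (b := b) fun l hl => by
    by_cases e : l = 2
    · refine ⟨f', e ▸ hf'.not_two_dvd_nat, Ev.of_sys hpM fun Y _ g hg hk => ?_⟩
      simpa only [Fintype.sum_prod_type, hg.pow, Finset.sum_const, Finset.card_univ,
        Fintype.card_fin] using hk _ _ hb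
    · obtain ⟨n, hn, hE⟩ := ev_four hp hpM hf h1 h hl fun h => absurd h e
      refine ⟨n * 4, hl.not_dvd_mul hn fun h4 => e ?_,
        hE.mono fun Y _ g _ h _ => by rwa [mul_smul]⟩
      exact (Nat.prime_dvd_prime_iff_eq hl Nat.prime_two).1 (hl.dvd_of_dvd_pow (n := 2) h4)
  exact ⟨L, inferInstance, hL, hpL, fun Y _ g hg hk => hx Y g hg (hk.res hL)⟩

end Pool.Agent.Tate
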