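import Mathlib

/-! A Koszul zigzag on functions on a product of finite fields. -/

set_option autoImplicit false
set_option linter.unusedSectionVars false

noncomputable section

namespace Pool.Agent.Tate.Zz

open Finset

variable {I : Type} [Fintype I] [LinearOrder I] {K : I → Type} [∀ i, Field (K i)]
  [∀ i, Fintype (K i)] [∀ i, DecidableEq (K i)] {A A' : Type} [AddCommGroup A] [AddCommGroup A']

/-- exterior multiplication -/
def yy (i : I) : (Finset I → A) →+ (Finset I → A) where
  toFun p J := if i ∈ J then (-1 : ℤ) ^ (J.filter (· < i)).card • p (J.erase i) else 0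
  map_zero' := by funext J; simp
  map_add' p q := by
    funext J
    by_cases h : i ∈ J <;> simp [h]

theorem yy_apply (i : I) (p : Finset I → A) (J : Finset I) :
    yy i p J = if i ∈ J then (-1 : ℤ) ^ (J.filter (· < i)).card • p (J.erase i) else 0 := rfl

theorem yy_self (i : I) (p : Finset I → A) : yy i (yy i p) = 0 := by
  funext J
  simp [yy_apply]

theorem yy_lt {i j : I} (h : i < j) (p : Finset I → A) : yy i (yy j p) + yy j (yy i p) = 0 := by
  funext J
  simp only [Pi.add_apply, yy_apply, mem_erase, Pi.zero_apply]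
  by_cases hi : i ∈ J
  · by_cases hj : j ∈ J
    · have e1 : (J.erase j).filter (· < i) = J.filter (· < i) := by
        ext k
        simp only [mem_filter, mem_erase]
        exact ⟨fun a => ⟨a.1.2, a.2⟩, fun a => ⟨⟨(a.2.trans h).ne, a.1⟩, a.2⟩⟩
      have e2 : (J.filter (· < j)).card = ((J.erase i).filter (· < j)).card + 1 := by
        rw [filter_erase, card_erase_add_one (mem_filter.2 ⟨hi, h⟩)]
      rw [if_pos hi, if_pos hj, if_pos ⟨h.ne', hj⟩, if_pos ⟨h.ne, hi⟩, e1, e2, erase_right_comm,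
        smul_smul, smul_smul, ← add_smul, pow_succ]
      rw [show ∀ a b : ℤ, a * b + b * -1 * a = 0 from fun a b => by ring, zero_smul]
    · simp [hj]
  · simp [hi]

theorem yy_anti (i j : I) (p : Finset I → A) : yy i (yy j p) + yy j (yy i p) = 0 := by
  rcases lt_trichotomy i j with h | rfl | h
  · exact yy_lt h p
  · rw [yy_self, add_zero]
  · rw [add_comm]; exact yy_lt h p

/-- the defect of the distribution relation -/
def dd (s : I → ∀ i, K i) (j : I) (F : (∀ i, K i) → A) (x : ∀ i, K i) : A :=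
  ∑ z : K j, F (x + Pi.single j z) - F (s j * x)

theorem dd_map (s : I → ∀ i, K i) (j : I) (f : A →+ A') (F : (∀ i, K i) → A) (x : ∀ i, K i) :
    f (dd s j F x) = dd s j (fun y => f (F y)) x := by
  simp only [dd, map_sub, map_sum]

theorem dd_sum (s : I → ∀ i, K i) (j : I) {ι : Type} (T : Finset ι) (F : ι → (∀ i, K i) → A)
    (x : ∀ i, K i) : dd s j (fun y => ∑ t ∈ T, F t y) x = ∑ t ∈ T, dd s j (F t) x := by
  simp only [dd, sum_sub_distrib]
  rw [sum_comm]

theorem sum_twist {j : I} {t : ∀ i, K i} (ht : t j ≠ 0) (F : (∀ i, K i) → A) (x : ∀ i, K i) :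
    ∑ z : K j, F (t * (x + Pi.single j z)) = ∑ z : K j, F (t * x + Pi.single j z) := by
  refine Fintype.sum_equiv (Equiv.mulLeft₀ (t j) ht) _ _ fun z => ?_
  rw [mul_add, ← Pi.single_mul_right]
  rfl

theorem dd_comm {s : I → ∀ i, K i} (h1 : ∀ i j, i ≠ j → s i j ≠ 0) (i j : I)
    (F : (∀ i, K i) → A) (x : ∀ i, K i) : dd s i (dd s j F) x = dd s j (dd s i F) x := by
  by_cases h : i = j
  · rw [h]
  simp only [dd, sum_sub_distrib]
  rw [sum_twist (h1 j i (Ne.symm h)), sum_twist (h1 i j h), sum_comm, mul_left_comm]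
  simp only [add_right_comm x]
  abel

/-- the Koszul differential -/
def dl (s : I → ∀ i, K i) (w : (∀ i, K i) → Finset I → A) : (∀ i, K i) → Finset I → A :=
  fun x => ∑ j, yy j (dd s j w x)

theorem dl_add (s : I → ∀ i, K i) (w w' : (∀ i, K i) → Finset I → A) :
    dl s (w + w') = dl s w + dl s w' := by
  funext x
  simp only [dl, dd, Pi.add_apply, ← sum_add_distrib, ← map_add]
  refine sum_congr rfl fun j _ => congrArg _ ?_
  rw [sum_add_distrib]
  abel

theorem dl_zsmul (s : I → ∀ i, K i) (n : ℤ) (w : (∀ i, K i) → Finset I → A) :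
    dl s (n • w) = n • dl s w := by
  funext x
  simp only [dl, dd, Pi.smul_apply, smul_sum, ← map_zsmul, smul_sub]

theorem dl_zero (s : I → ∀ i, K i) : dl s (0 : (∀ i, K i) → Finset I → A) = 0 := by
  funext x
  simp [dl, dd]

theorem dl_dl {s : I → ∀ i, K i} (h1 : ∀ i j, i ≠ j → s i j ≠ 0)
    (w : (∀ i, K i) → Finset I → A) : dl s (dl s w) = 0 := by
  funext x
  have e : ∀ i, dd s i (dl s w) x = ∑ j, yy j (dd s i (dd s j w) x) := fun i => by
    refine (dd_sum s i univ (fun j y => yy j (dd s j w y)) x).trans ?_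
    exact sum_congr rfl fun j _ => (dd_map s i (yy (A := A) j) (dd s j w) x).symm
  change ∑ i, yy i (dd s i (dl s w) x) = 0
  simp only [e, map_sum]
  rw [← Fintype.sum_prod_type']
  refine sum_involution (fun a _ => a.swap) (fun a _ => ?_) (fun a _ h h' => h ?_)
    (fun _ _ => mem_univ _) fun a _ => rfl
  · rw [Prod.fst_swap, Prod.snd_swap, dd_comm h1 a.2 a.1]
    exact yy_anti _ _ _
  · have : a.2 = a.1 := congrArg Prod.fst h'
    rw [this, yy_self]

theorem dl_neg (s : I → ∀ i, K i) (w : (∀ i, K i) → Finset I → A) (x : ∀ i, K i) :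
    dl s (fun y => w (-y)) x = dl s w (-x) := by
  simp only [dl, dd, mul_neg]
  refine sum_congr rfl fun j _ => congrArg _ (congrArg₂ _ ?_ rfl)
  refine Fintype.sum_equiv (Equiv.neg _) _ _ fun z => ?_
  rw [neg_add, ← Pi.single_neg]
  rfl

theorem dl_point {s : I → ∀ i, K i} (h0 : ∀ i, s i i = 0) (h1 : ∀ i j, i ≠ j → s i j ≠ 0)
    {w : (∀ i, K i) → Finset I → A} (hw : ∀ x, x ≠ 0 → w x = 0) : dl s w = 0 := by
  funext x
  refine sum_eq_zero fun j _ => ?_
  rw [show dd s j w x = 0 from ?_, map_zero]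
  by_cases h : ∀ i, i ≠ j → x i = 0
  · have e1 : x + Pi.single j (-x j) = 0 := by
      funext i
      by_cases hi : i = j
      · subst hi; simp
      · simp [h i hi, hi]
    have e2 : s j * x = 0 := by
      funext i
      by_cases hi : i = j
      · subst hi; simp [h0]
      · simp [h i hi]
    rw [dd, sum_eq_single (-x j) (fun z _ hz => hw _ fun e => hz ?_) (by simp), e1, e2, sub_self]
    have := congrFun e j
    simp only [Pi.add_apply, Pi.single_eq_same, Pi.zero_apply] at this
    exact eq_neg_of_add_eq_zero_right this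
  · obtain ⟨i, hi⟩ := not_forall.1 h
    obtain ⟨hij, hx⟩ := Classical.not_imp.1 hi
    rw [dd, sum_eq_zero fun z _ => hw _ fun e => hx ?_, hw _ fun e => ?_, sub_self]
    · exact mul_ne_zero (h1 j i (Ne.symm hij)) hx (congrFun e i)
    · simpa [hij] using congrFun e i

theorem dl_deg (s : I → ∀ i, K i) {w : (∀ i, K i) → Finset I → A} {Q : ℕ → Prop}
    (hw : ∀ x J, Q J.card → w x J = 0) (x : ∀ i, K i) (J : Finset I)
    (hJ : ∀ n, J.card = n + 1 → Q n) : dl s w x J = 0 := by
  simp only [dl, Finset.sum_apply, yy_apply]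
  refine sum_eq_zero fun j _ => ?_
  split_ifs with h
  · have := hJ _ (card_erase_add_one h).symm
    simp [dd, hw _ _ this]
  · rfl

/-- one step of the zigzag -/
def ee (s : I → ∀ i, K i) (H : Finset (∀ i, K i)) (w : (∀ i, K i) → Finset I → A) :
    (∀ i, K i) → Finset I → A := dl s fun x => if x ∈ H then w x else 0

theorem ee_map (s : I → ∀ i, K i) (H : Finset (∀ i, K i)) (f : A →+ A')
    (w : (∀ i, K i) → Finset I → A) :
    ee s H (fun x J => f (w x J)) = fun x J => f (ee s H w x J) := by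
  funext x J
  simp only [ee, dl, dd, Finset.sum_apply, yy_apply, Pi.sub_apply, map_sum, apply_ite f, map_zsmul,
    map_sub, map_zero, ite_apply, Pi.zero_apply]

theorem ee_iter_map (s : I → ∀ i, K i) (H : Finset (∀ i, K i)) (f : A →+ A') (n : ℕ)
    (w : (∀ i, K i) → Finset I → A) :
    (ee s H)^[n] (fun x J => f (w x J)) = fun x J => f ((ee s H)^[n] w x J) := by
  induction n generalizing w with
  | zero => rfl
  | succ n ih => rw [Function.iterate_succ_apply, Function.iterate_succ_apply, ee_map, ih]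

theorem ee_add (s : I → ∀ i, K i) (H : Finset (∀ i, K i)) (w w' : (∀ i, K i) → Finset I → A) :
    ee s H (w + w') = ee s H w + ee s H w' := by
  rw [ee, ee, ee, ← dl_add]
  refine congrArg _ (funext fun x => ?_)
  by_cases h : x ∈ H <;> simp [h]

theorem ee_iter_deg (s : I → ∀ i, K i) (H : Finset (∀ i, K i)) {w : (∀ i, K i) → Finset I → A}
    {Q : ℕ → ℕ → Prop} (hQ : ∀ k m, Q (k + 1) (m + 1) → Q k m)
    (hw : ∀ x J, Q 0 J.card → w x J = 0) (n : ℕ) :
    ∀ x J, Q n J.card → (ee s H)^[n] w x J = 0 := by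
  induction n with
  | zero => exact hw
  | succ n ih =>
    intro x J hJ
    rw [Function.iterate_succ_apply']
    refine dl_deg s (Q := Q n) (fun y J' h => ?_) x J fun m hm => hQ _ _ (hm ▸ hJ)
    by_cases hy : y ∈ H <;> simp [hy, ih y J' h]

/-- half systems -/
structure Half (H : Finset (∀ i, K i)) : Prop where
  zero : 0 ∉ H
  neg : ∀ x, x ≠ 0 → (-x ∈ H ↔ x ∉ H)

theorem exists_half (h2 : ∀ i, (2 : K i) ≠ 0) : ∃ H : Finset (∀ i, K i), Half H := by
  let e := Fintype.equivFin (∀ i, K i)
  refine ⟨univ.filter fun x => e x < e (-x), by simp, fun x hx => ?_⟩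
  have : e x ≠ e (-x) := fun h => hx (funext fun i => by
    have h' := congrFun (e.injective h) i
    have h'' : 2 * x i = 0 := by rw [Pi.neg_apply] at h'; linear_combination h'
    exact (mul_eq_zero.1 h'').resolve_left (h2 i))
  simp only [mem_filter, mem_univ, true_and, neg_neg, not_lt]
  exact ⟨le_of_lt, fun h => lt_of_le_of_ne h this.symm⟩

theorem dl_split {s : I → ∀ i, K i} (h0 : ∀ i, s i i = 0) (h1 : ∀ i j, i ≠ j → s i j ≠ 0)
    {H : Finset (∀ i, K i)} (hH : Half H) (w : (∀ i, K i) → Finset I → A) :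
    dl s w = ee s H w + dl s fun x => if -x ∈ H then w x else 0 := by
  have e : w = ((fun x => if x ∈ H then w x else 0) + fun x => if -x ∈ H then w x else 0) +
      fun x => if x = 0 then w x else 0 := by
    funext x
    by_cases hx : x = 0
    · simp [hx, hH.zero]
    · by_cases h : x ∈ H <;> simp [hx, h, hH.neg x hx]
  conv_lhs => rw [e]
  rw [dl_add, dl_add, dl_point h0 h1 (w := fun x => if x = 0 then w x else 0)
    fun x hx => if_neg hx, add_zero]
  rfl

theorem ee_iter_sign {s : I → ∀ i, K i} (h0 : ∀ i, s i i = 0) (h1 : ∀ i j, i ≠ j → s i j ≠ 0)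
    {H : Finset (∀ i, K i)} (hH : Half H) {w : (∀ i, K i) → Finset I → A} (hd : dl s w = 0)
    (hw : ∀ x, w (-x) = -w x) (n : ℕ) : dl s ((ee s H)^[n] w) = 0 ∧
      ∀ x, (ee s H)^[n] w (-x) = (-1 : ℤ) ^ (n + 1) • (ee s H)^[n] w x := by
  induction n with
  | zero => exact ⟨hd, fun x => by simp [hw]⟩
  | succ n ih =>
    rw [Function.iterate_succ_apply']
    refine ⟨dl_dl h1 _, fun x => ?_⟩
    obtain ⟨v, hv⟩ : ∃ v, v = (ee s H)^[n] w := ⟨_, rfl⟩
    rw [← hv] at ih ⊢
    have e := dl_split h0 h1 hH v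
    rw [ih.1] at e
    have e2 : (fun y => if -y ∈ H then v (-y) else 0) =
        (-1 : ℤ) ^ (n + 1) • fun y => if -y ∈ H then v y else 0 := by
      funext y
      by_cases hy : -y ∈ H <;> simp only [hy, Pi.smul_apply, if_true, if_false, ih.2, smul_zero]
    rw [ee, ← dl_neg, e2, dl_zsmul, eq_neg_of_add_eq_zero_right e.symm, pow_succ _ (n + 1),
      mul_neg_one, neg_smul, smul_neg]
    rfl

end Pool.Agent.Tate.Zz
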