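import Pool.Agent.P.MP_2ce3e7_ag.TfZA

/-! The parity of the zigzag. -/

set_option autoImplicit false
set_option linter.unusedSectionVars false

noncomputable section

namespace Pool.Agent.Tate.Zz

open Finset

variable {I : Type} [Fintype I] [LinearOrder I] {K : I → Type} [∀ i, Field (K i)]
  [∀ i, Fintype (K i)] [∀ i, DecidableEq (K i)] {A : Type} [AddCommGroup A]

/-- the end of the zigzag -/
def ka (s : I → ∀ i, K i) (H : Finset (∀ i, K i)) (w : (∀ i, K i) → Finset I → A) : A :=
  ∑ n ∈ range (Fintype.card I + 1), (ee s H)^[n] w 0 univ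

theorem ka_add (s : I → ∀ i, K i) (H : Finset (∀ i, K i)) (w w' : (∀ i, K i) → Finset I → A) :
    ka s H (w + w') = ka s H w + ka s H w' := by
  rw [ka, ka, ka, ← sum_add_distrib]
  refine sum_congr rfl fun n hn => ?_
  clear hn
  have : ∀ v v' : (∀ i, K i) → Finset I → A,
      (ee s H)^[n] (v + v') = (ee s H)^[n] v + (ee s H)^[n] v' := by
    induction n with
    | zero => exact fun _ _ => rfl
    | succ n ih =>
      intro v v'
      simp only [Function.iterate_succ_apply']
      rw [ih, ee_add]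
  rw [this]
  rfl

theorem ka_succ (s : I → ∀ i, K i) (H : Finset (∀ i, K i)) (w : (∀ i, K i) → Finset I → A) :
    ka s H w = w 0 univ + ka s H (ee s H w) := by
  have e1 := sum_range_succ (fun n => (ee s H)^[n] w 0 univ) (Fintype.card I + 1)
  have e2 := sum_range_succ' (fun n => (ee s H)^[n] w 0 univ) (Fintype.card I + 1)
  rw [e1, ee_iter_deg s H (Q := fun k m => m < k) (fun k m h => by omega)
    (fun x J h => absurd h (Nat.not_lt_zero _)) _ 0 univ (by simp), add_zero] at e2
  rw [ka, e2, add_comm]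
  rfl

theorem ka_adm (s : I → ∀ i, K i) (H : Finset (∀ i, K i))
    {w : (∀ i, K i) → Finset I → A} (hw : ∀ x J, (∀ j ∈ J, x j = 0) → w x J = 0) :
    ka s H w = 0 := by
  refine sum_eq_zero fun n _ => ?_
  have : ∀ x J, (∀ j ∈ J, x j = 0) → (ee s H)^[n] w x J = 0 := by
    clear * - hw
    induction n with
    | zero => exact hw
    | succ n ih =>
      intro x J hJ
      rw [Function.iterate_succ_apply']
      simp only [ee, dl, Finset.sum_apply, yy_apply]
      refine sum_eq_zero fun j _ => ?_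
      split_ifs with h
      · have k : ∀ y : ∀ i, K i, (∀ i, i ≠ j → x i = 0 → y i = 0) →
            (if y ∈ H then (ee s H)^[n] w y else 0) (J.erase j) = 0 := fun y hy => by
          split_ifs
          · exact ih _ _ fun i hi => hy i (mem_erase.1 hi).1 (hJ i (mem_erase.1 hi).2)
          · rfl
        rw [dd, Pi.sub_apply, Finset.sum_apply, k _ fun i _ hx => by simp [hx],
          sum_eq_zero fun z _ => k _ fun i hi hx => by simp [hi, hx], sub_self, smul_zero]
      · rfl
  exact this _ _ fun _ _ => rfl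

theorem ka_congr (s : I → ∀ i, K i) (H : Finset (∀ i, K i))
    {w w' : (∀ i, K i) → Finset I → A} (hw : ∀ x J, (∀ j ∈ J, x j = 0) → w x J = w' x J) :
    ka s H w = ka s H w' := by
  rw [← add_sub_cancel w' w, ka_add, ka_adm s H (w := w - w')
    fun x J h => sub_eq_zero.2 (hw x J h), add_zero]

theorem ka_dl {s : I → ∀ i, K i} (h0 : ∀ i, s i i = 0) (h1 : ∀ i j, i ≠ j → s i j ≠ 0)
    {H : Finset (∀ i, K i)} (hH : Half H) (w : (∀ i, K i) → Finset I → ZMod 2) :
    ka s H (dl s w) = ka s H (w + fun x => w (-x)) := by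
  have key : ∀ k : ℕ, ∀ w : (∀ i, K i) → Finset I → ZMod 2,
      (∀ x J, J.card + k ≤ Fintype.card I → w x J = 0) →
      ka s H (dl s w) = ka s H (w + fun x => w (-x)) := by
    intro k
    induction k with
    | zero =>
      intro w hw
      obtain rfl : w = 0 := funext fun x => funext fun J => hw x J (card_le_univ J)
      rw [dl_zero]
      exact congrArg _ (funext fun x => by simp)
    | succ k ih =>
      intro w hw
      obtain ⟨v, hv⟩ : ∃ v : (∀ i, K i) → Finset I → ZMod 2,
        v = fun x => if -x ∈ H then w x else 0 := ⟨_, rfl⟩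
      have e1 := ih (dl s v) fun x J hJ => dl_deg s (Q := fun m => m + (k + 1) ≤ Fintype.card I)
        (fun y J' h => by
          by_cases hy : -y ∈ H <;> simp [hv, hy, hw y J' h]) x J fun n hn => by omega
      rw [dl_dl h1, ka_adm s H (w := 0) fun _ _ _ => rfl, ka_add] at e1
      have e2 : ee s H (w + fun x => w (-x)) = ee s H w + fun x => dl s v (-x) := by
        rw [ee_add]
        refine congrArg _ (funext fun x => ?_)
        rw [← dl_neg, hv]
        simp only [neg_neg]
        rfl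
      rw [ka_succ s H (w + _), e2, dl_split h0 h1 hH w, ← hv, ka_add, ka_add,
        eq_neg_of_add_eq_zero_left e1.symm, ZMod.neg_eq_self_mod_two]
      simp [CharTwo.add_self_eq_zero]
  exact key (Fintype.card I + 1) w fun x J h => by omega

/-- carries of a discrete logarithm -/
theorem exists_carry {F : Type} [Field F] [Fintype F] [DecidableEq F] (h2 : (2 : F) ≠ 0) :
    ∃ B : F → F → ZMod 2, (∀ t, B t 0 = 0) ∧
      (∀ t t' u, t ≠ 0 → t' ≠ 0 → B t u + B t (t' * u) = B t' u + B t' (t * u)) ∧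
      (∀ u, u ≠ 0 → B (-1) u + B (-1) (-u) = 1) ∧
      ∀ t, t ≠ 0 → (IsSquare t → ∑ u, B t u = 0) ∧ (¬ IsSquare t → ∑ u, B t u = 1) := by
  obtain ⟨g, hg⟩ := IsCyclic.exists_generator (α := Fˣ)
  choose L hL using fun u => Subgroup.mem_zpowers_iff.1 (hg u)
  obtain ⟨n, hn⟩ : ∃ n : ℕ, n = orderOf g := ⟨_, rfl⟩
  have hn0 : (n : ℤ) ≠ 0 := by rw [hn]; exact_mod_cast (orderOf_pos g).ne'
  have hc : Fintype.card Fˣ = n := by
    rw [hn, orderOf_eq_card_of_forall_mem_zpowers hg, Nat.card_eq_fintype_card]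
  have hm : (-1 : Fˣ) ≠ 1 := fun h => h2 (by
    have := congrArg Units.val h
    rw [Units.val_neg, Units.val_one] at this
    linear_combination -this)
  have hd : ∀ k : ℤ, (n : ℤ) ∣ k ↔ g ^ k = 1 := fun k => by
    rw [hn, orderOf_dvd_iff_zpow_eq_one]
  choose b hb using fun t u : Fˣ => (hd (L t + L u - L (t * u))).2 (by
    rw [zpow_sub, zpow_add, hL, hL, hL, mul_inv_cancel])
  have hodd : ∀ u, Odd (b (-1) u + b (-1) (-u)) := fun u => by
    rw [← Int.not_even_iff_odd]
    rintro ⟨k, hk⟩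
    have e1 := hb (-1) u
    have e2 := hb (-1) (-u)
    rw [neg_one_mul] at e1 e2
    rw [neg_neg] at e2
    refine hm ((hL (-1)).symm.trans ((hd _).1 ⟨k, ?_⟩))
    have : 2 * L (-1) = 2 * (n * k) := by linear_combination e1 + e2 + n * hk
    omega
  have hne : Even (n : ℤ) := by
    rw [← Int.not_odd_iff_even]
    rintro ⟨k, hk⟩
    have e : (-1 : Fˣ) ^ (n : ℤ) = 1 := by rw [zpow_natCast, ← hc, pow_card_eq_one]
    rw [hk, zpow_add, zpow_mul, zpow_ofNat, neg_one_sq, one_zpow, one_mul, zpow_one] at e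
    exact hm e
  have hs : ∀ t, ∑ u, b t u = L t := fun t => by
    refine mul_left_cancel₀ hn0 ?_
    rw [mul_sum]
    simp only [← hb, sum_sub_distrib, sum_add_distrib]
    rw [Fintype.sum_equiv (Equiv.mulLeft t) (fun u => L (t * u)) L fun _ => rfl, sum_const,
      card_univ, hc, nsmul_eq_mul, add_sub_cancel_right]
  refine ⟨fun t u => if h : t ≠ 0 ∧ u ≠ 0 then
    ((b (Units.mk0 t h.1) (Units.mk0 u h.2) : ℤ) : ZMod 2) else 0, fun t => by simp,
    fun t t' u ht ht' => ?_, fun u hu => ?_, fun t ht => ?_⟩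
  · by_cases hu : u = 0
    · simp [hu]
    obtain ⟨t, rfl⟩ := ht.isUnit
    obtain ⟨t', rfl⟩ := ht'.isUnit
    obtain ⟨u, rfl⟩ := (Ne.isUnit hu)
    simp only [← Units.val_mul, ne_eq, Units.ne_zero, not_false_eq_true, and_self, dif_pos,
      Units.mk0_val]
    have e : b t u + b t' (t * u) = b t' u + b t (t' * u) := by
      refine mul_left_cancel₀ hn0 ?_
      rw [mul_add, mul_add, ← hb, ← hb, ← hb, ← hb, mul_left_comm t' t]
      ring
    have e' := congrArg (Int.cast : ℤ → ZMod 2) e
    rw [Int.cast_add, Int.cast_add] at e'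
    have h0 : (2 : ZMod 2) = 0 := rfl
    linear_combination e' + ((b t (t' * u) : ZMod 2) - b t' (t * u)) * h0
  · obtain ⟨u, rfl⟩ := (Ne.isUnit hu)
    have e : (-1 : F) = ((-1 : Fˣ) : F) := by simp
    simp only [e, ← Units.val_neg, ne_eq, Units.ne_zero, not_false_eq_true, and_self, dif_pos,
      Units.mk0_val]
    rw [← Int.cast_add]
    exact (ZMod.intCast_eq_one_iff_odd).2 (hodd u)
  · obtain ⟨t, rfl⟩ := ht.isUnit
    have e : ∑ u : F, (if h : (t : F) ≠ 0 ∧ u ≠ 0 then
        ((b (Units.mk0 t h.1) (Units.mk0 u h.2) : ℤ) : ZMod 2) else 0) = (L t : ZMod 2) := by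
      rw [← hs, Int.cast_sum]
      refine (sum_of_injOn (fun u : Fˣ => (u : F)) (fun _ _ _ _ h => Units.ext h)
        (fun _ _ => mem_univ _) (fun u _ hu => dif_neg fun h => hu ⟨Units.mk0 u h.2, by simp⟩)
        fun u _ => ?_).symm
      simp
    rw [e]
    refine ⟨?_, fun h => ZMod.intCast_eq_one_iff_odd.2 ?_⟩
    · rintro ⟨r, hr⟩
      have hr0 : r ≠ 0 := fun h => t.ne_zero (by rw [hr, h, mul_zero])
      obtain ⟨r, rfl⟩ := hr0.isUnit
      obtain rfl : t = r * r := Units.ext hr
      refine ZMod.intCast_eq_zero_iff_even.2 ?_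
      obtain ⟨k, hk⟩ := hne
      exact ⟨L r - k * b r r, by linear_combination -hb r r - b r r * hk⟩
    · rw [← Int.not_even_iff_odd]
      rintro ⟨k, hk⟩
      refine h ⟨((g ^ k : Fˣ) : F), ?_⟩
      rw [← Units.val_mul, ← zpow_add, ← hk, hL]

end Pool.Agent.Tate.Zz
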