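import Pool.Agent.P.MP_2ce3e7_ag.TfZB

/-! The recursion for the parity of the zigzag. -/

set_option autoImplicit false
set_option linter.unusedSectionVars false

noncomputable section

namespace Pool.Agent.Tate.Zz

open Finset

variable {I : Type} [Fintype I] [LinearOrder I] {K : I → Type} [∀ i, Field (K i)]
  [∀ i, Fintype (K i)] [∀ i, DecidableEq (K i)]

/-- the support of a point -/
def sp (x : ∀ i, K i) : Finset I := univ.filter fun i => x i ≠ 0

theorem mem_sp {x : ∀ i, K i} {i : I} : i ∈ sp x ↔ x i ≠ 0 := by simp [sp]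

/-- parity of the zigzag on the points with given support -/
def kk (s : I → ∀ i, K i) (H : Finset (∀ i, K i)) (S : Finset I) :
    (Finset I → ZMod 2) →+ ZMod 2 :=
  AddMonoidHom.mk' (fun p => ka s H fun x => if sp x = S then p else 0) fun p q => by
    rw [← ka_add]
    refine congrArg _ (funext fun x => ?_)
    by_cases h : sp x = S <;> simp [h]

theorem two_add {B : Type} [AddCommGroup B] [Module (ZMod 2) B] (b : B) : b + b = 0 := by
  rw [← two_smul (ZMod 2) b]
  exact zero_smul _ _

theorem kk_rec {s : I → ∀ i, K i} (h0 : ∀ i, s i i = 0) (h1 : ∀ i j, i ≠ j → s i j ≠ 0)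
    {H : Finset (∀ i, K i)} (hH : Half H) (h2 : ∀ i, (2 : K i) ≠ 0) {S : Finset I} {l : I}
    (hl : l ∈ S) {B : K l → K l → ZMod 2} (b0 : ∀ t, B t 0 = 0)
    (b1 : ∀ t t' u, t ≠ 0 → t' ≠ 0 → B t u + B t (t' * u) = B t' u + B t' (t * u))
    (b2 : ∀ u, u ≠ 0 → B (-1) u + B (-1) (-u) = 1) (p : Finset I → ZMod 2) :
    kk s H S p = kk s H (S.erase l)
      (yy l ((∑ u, B (-1) u) • p + ∑ j ∈ Sᶜ, (∑ u, B (s j l) u) • yy j p)) := by
  obtain ⟨C, hC⟩ : ∃ C : K l → Finset I → ZMod 2,
    C = fun u => B (-1) u • p + ∑ j ∈ Sᶜ, B (s j l) u • yy j p := ⟨_, rfl⟩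
  have c0 : C 0 = 0 := by simp [hC, b0]
  have c1 : ∑ u, C u = (∑ u, B (-1) u) • p + ∑ j ∈ Sᶜ, (∑ u, B (s j l) u) • yy j p := by
    simp only [hC, sum_add_distrib, sum_smul]
    rw [sum_comm]
  have hs : ∀ j ∈ Sᶜ, s j l ≠ 0 := fun j hj => h1 j l fun e => mem_compl.1 hj (e ▸ hl)
  have c2 : ∀ u, C u + C (-u) + ∑ i ∈ Sᶜ, yy i (C u + C (s i l * u)) =
      if u = 0 then 0 else p := fun u => by
    have e1 : ∑ i ∈ Sᶜ, ∑ j ∈ Sᶜ, (B (s j l) u + B (s j l) (s i l * u)) • yy i (yy j p) = 0 := by
      rw [← sum_product']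
      refine sum_involution (fun a _ => a.swap) (fun a ha => ?_) (fun a _ h h' => h ?_)
        (fun a ha => ?_) fun a _ => rfl
      · rw [Prod.fst_swap, Prod.snd_swap, b1 _ _ u (hs _ (mem_product.1 ha).2)
          (hs _ (mem_product.1 ha).1), ← smul_add, yy_anti, smul_zero]
      · have : a.2 = a.1 := congrArg Prod.fst h'
        rw [this, yy_self, smul_zero]
      · exact mem_product.2 ⟨(mem_product.1 ha).2, (mem_product.1 ha).1⟩
    have e2 : ∑ i ∈ Sᶜ, yy i (C u + C (s i l * u)) =
        ∑ i ∈ Sᶜ, (B (s i l) u + B (s i l) (-u)) • yy i p := by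
      rw [← add_zero (∑ i ∈ Sᶜ, (B (s i l) u + B (s i l) (-u)) • yy i p), ← e1,
        ← sum_add_distrib]
      refine sum_congr rfl fun i hi => ?_
      rw [← neg_one_mul u, b1 _ _ u (hs i hi) (neg_ne_zero.2 one_ne_zero)]
      simp only [hC, map_add, map_sum, ZMod.map_smul, add_smul, sum_add_distrib]
      abel
    have e3 : C u + C (-u) = (B (-1) u + B (-1) (-u)) • p +
        ∑ i ∈ Sᶜ, (B (s i l) u + B (s i l) (-u)) • yy i p := by
      simp only [hC, add_smul, sum_add_distrib]
      abel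
    rw [e2, e3, add_assoc, two_add, add_zero]
    split_ifs with h
    · rw [h, neg_zero, b0, add_zero, zero_smul]
    · rw [b2 u h, one_smul]
  obtain ⟨w, hw⟩ : ∃ w : (∀ i, K i) → Finset I → ZMod 2,
    w = fun x => if (sp x).erase l = S.erase l then C (x l) else 0 := ⟨_, rfl⟩
  have ext : ∀ x y : ∀ i, K i, (∀ i, i ≠ l → (x i = 0 ↔ y i = 0)) →
      (sp x).erase l = (sp y).erase l := fun x y h => by
    ext i
    simp only [mem_erase, mem_sp]
    exact and_congr_right fun hi => (h i hi).not
  have d1 : ∀ x : ∀ i, K i, x l = 0 → dd s l w x = if sp x = S.erase l then ∑ u, C u else 0 := by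
    intro x hx
    have e : ∀ z : K l, (sp (x + Pi.single l z)).erase l = sp x := fun z =>
      (ext _ x fun i hi => by simp [hi]).trans (erase_eq_of_notMem fun h => mem_sp.1 h hx)
    simp only [dd, hw, e, Pi.mul_apply, h0, zero_mul, c0, ite_self, sub_zero, Pi.add_apply, hx,
      Pi.single_eq_same, zero_add]
    split_ifs <;> simp
  have d2 : ∀ i ∈ S.erase l, ∀ x : ∀ i, K i, x i = 0 → dd s i w x = 0 := by
    intro i hi x hx
    have hil := (mem_erase.1 hi).1
    have e0 : ∀ y : ∀ i, K i, y i = 0 → w y = 0 := fun y hy => by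
      rw [hw]
      exact if_neg fun h => mem_sp.1 (mem_erase.1 (h ▸ hi)).2 hy
    rw [dd, e0 (s i * x) (by simp [hx]), sub_zero]
    refine sum_involution (fun z _ => -z) (fun z _ => ?_) (fun z _ h h' => h ?_)
      (fun _ _ => mem_univ _) fun z _ => neg_neg z
    · have e : (sp (x + Pi.single i (-z))).erase l = (sp (x + Pi.single i z)).erase l :=
        ext _ _ fun j _ => by
          by_cases hj : j = i
          · subst hj; simp [hx]
          · simp [hj]
      simp only [hw, e, Pi.add_apply, Pi.single_eq_of_ne hil.symm, two_add]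
    · have h3 : 2 * z = 0 := by linear_combination -h'
      exact e0 _ (by simp [hx, (mul_eq_zero.1 h3).resolve_left (h2 i)])
  have d3 : ∀ i ∈ Sᶜ, ∀ x : ∀ i, K i, x i = 0 → dd s i w x =
      if (sp x).erase l = S.erase l then C (x l) + C (s i l * x l) else 0 := by
    intro i hi x hx
    have hil : i ≠ l := fun e => mem_compl.1 hi (e ▸ hl)
    have e : (sp (s i * x)).erase l = (sp x).erase l := ext _ _ fun j _ => by
      by_cases hj : j = i
      · subst hj; simp [hx]
      · simp [h1 i j (Ne.symm hj)]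
    rw [dd, sum_eq_single 0 (fun z _ hz => ?_) (by simp), Pi.single_zero, add_zero,
      sub_eq_add_neg, neg_eq_of_add_eq_zero_right (two_add _)]
    · simp only [hw, e, Pi.mul_apply]
      split_ifs <;> simp
    · rw [hw]
      refine if_neg fun h => mem_compl.1 hi (mem_of_mem_erase (a := l) ?_)
      rw [← h]
      exact mem_erase.2 ⟨hil, mem_sp.2 (by simpa [hx] using hz)⟩
  have main := ka_dl h0 h1 hH w
  rw [← c1]
  refine (eq_neg_of_add_eq_zero_left ?_).trans (ZMod.neg_eq_self_mod_two _)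
  change ka s H _ + ka s H _ = 0
  rw [← ka_add, ← two_add (ka s H (dl s w))]
  nth_rewrite 1 [main]
  rw [← ka_add]
  refine ka_congr s H fun x J hJ => ?_
  have y0 : ∀ (i : I) (q q' : Finset I → ZMod 2), (x i = 0 → q = q') → yy i q J = yy i q' J :=
    fun i q q' h => by
      by_cases hi : i ∈ J
      · rw [h (hJ i hi)]
      · simp [yy_apply, hi]
  have e : (sp (-x)).erase l = (sp x).erase l := ext _ _ fun j _ => by simp
  have e4 : dl s w x J = yy l (if sp x = S.erase l then ∑ u, C u else 0) J +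
      ∑ i ∈ Sᶜ, yy i (if (sp x).erase l = S.erase l then C (x l) + C (s i l * x l) else 0) J := by
    rw [dl, Finset.sum_apply, ← sum_add_sum_compl S, ← add_sum_erase S _ hl,
      sum_eq_zero (s := S.erase l) fun i hi => (y0 i _ 0 (d2 i hi x)).trans (by simp), add_zero,
      y0 l _ _ (d1 x), sum_congr rfl fun i hi => y0 i _ _ (d3 i hi x)]
  simp only [Pi.add_apply]
  rw [e4, apply_ite (yy l), map_zero, add_comm _ (∑ i ∈ Sᶜ, _ : ZMod 2), ← add_assoc]
  refine congrArg₂ _ ?_ rfl
  simp only [hw, e, Pi.neg_apply]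
  by_cases h : (sp x).erase l = S.erase l
  · simp only [if_pos h]
    have := congrFun (c2 (x l)) J
    simp only [Pi.add_apply, Finset.sum_apply] at this ⊢
    rw [this]
    by_cases hx : x l = 0
    · rw [if_pos hx, if_neg fun e' : sp x = S => mem_sp.1 (e' ▸ hl) hx]
    · rw [if_neg hx, if_pos]
      rw [← insert_erase hl, ← h, insert_erase (mem_sp.2 hx)]
  · simp only [if_neg h]
    rw [if_neg fun e' => h (by rw [e'])]
    simp

theorem yy_single (j : I) (J : Finset I) : yy j (Pi.single J 1 : Finset I → ZMod 2) =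
    if j ∈ J then 0 else Pi.single (insert j J) 1 := by
  funext T
  have e : ∀ (n : ℕ) (a : ZMod 2), (-1 : ℤ) ^ n • a = a := fun n a => by
    rcases neg_one_pow_eq_or ℤ n with h | h <;> simp [h]
  rw [yy_apply, e, ite_apply, Pi.zero_apply, Pi.single_apply, Pi.single_apply]
  by_cases h : j ∈ J
  · rw [if_pos h, if_neg fun e' : T.erase j = J => notMem_erase j T (e' ▸ h), ite_self]
  · rw [if_neg h]
    by_cases h' : T = insert j J
    · rw [if_pos h', h', if_pos (mem_insert_self j J), if_pos (erase_insert h)]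
    · rw [if_neg h']
      split_ifs with h3 h4
      · exact absurd (by rw [← h4, insert_erase h3]) h'
      · rfl
      · rfl

theorem ka_univ (s : I → ∀ i, K i) (H : Finset (∀ i, K i)) {A : Type} [AddCommGroup A]
    (g : (∀ i, K i) → A) : ka s H (fun x => Pi.single ∅ (g x)) =
      ∑ x, ka s H (fun y => Pi.single ∅ (Pi.single y 1 : (∀ i, K i) → ℤ)) x • g x := by
  let f : ((∀ i, K i) → ℤ) →+ A := AddMonoidHom.mk' (fun η => ∑ x, η x • g x) fun a b => by
    simp [add_smul, sum_add_distrib]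
  have e : (fun x => Pi.single ∅ (g x) : (∀ i, K i) → Finset I → A) = fun x J =>
      f ((Pi.single ∅ (Pi.single x 1 : (∀ i, K i) → ℤ) : Finset I → _) J) := by
    funext x J
    by_cases h : J = ∅
    · subst h
      simp [f, Pi.single_apply]
    · simp [h]
  change _ = f _
  rw [e, ka, ka, map_sum]
  exact sum_congr rfl fun n _ => congrFun (congrFun (ee_iter_map s H f n _) 0) univ

open Classical in
theorem zz_abs {s : I → ∀ i, K i} (h0 : ∀ i, s i i = 0) (h1 : ∀ i j, i ≠ j → s i j ≠ 0)
    (h2 : ∀ i, (2 : K i) ≠ 0) (he : Even (Fintype.card I)) :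
    ∃ (η : (∀ i, K i) → ℤ) (mu : Finset I → Finset I → ZMod 2),
      (∀ (A : Type) [AddCommGroup A] (g : (∀ i, K i) → A), (∀ a : A, a + a = 0 → a = 0) →
        (∀ x, g (-x) = -g x) → (∀ j x, dd s j g x = 0) → ∑ x, η x • g x = 0) ∧
      (∀ R, mu ∅ R = if R = ∅ then 1 else 0) ∧
      (∀ S R l, l ∈ S → Disjoint S R →
        mu S R = (if IsSquare (-1 : K l) then 0 else 1) * mu (S.erase l) R +
          ∑ q ∈ R, (if IsSquare (s q l) then 0 else 1) * mu (S.erase l) (R.erase q)) ∧
      ∀ S, mu S Sᶜ = ∑ x with sp x = S, (η x : ZMod 2) := by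
  obtain ⟨H, hH⟩ := exists_half h2
  refine ⟨ka s H fun y => Pi.single ∅ (Pi.single y 1 : (∀ i, K i) → ℤ),
    fun S R => kk s H S (Pi.single (S ∪ R)ᶜ 1), fun A _ g hA hg hd => ?_, fun R => ?_,
    fun S R l hl hSR => ?_, fun S => ?_⟩
  · rw [← ka_univ s H g]
    refine sum_eq_zero fun n _ => ?_
    by_cases hn : Fintype.card I = n
    · have := (ee_iter_sign h0 h1 hH (w := fun x => Pi.single ∅ (g x)) (funext fun x =>
        sum_eq_zero fun j _ => (congrArg (yy j)
          ((dd_map s j (AddMonoidHom.single (fun _ : Finset I => A) ∅) g x).symm.trans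
            (by rw [hd, map_zero]))).trans (map_zero _))
          (fun x => by rw [hg, Pi.single_neg]) n).2 0
      rw [neg_zero, (hn ▸ he : Even n).add_one.neg_one_pow, neg_one_zsmul] at this
      exact hA _ (add_eq_zero_iff_eq_neg.2 (congrFun this univ))
    · exact ee_iter_deg s H (Q := fun k m => m ≠ k) (fun k m h => by omega)
        (fun x J h => Pi.single_eq_of_ne (card_ne_zero.1 h).ne_empty _) n 0 univ hn
  · change ka s H _ = _
    rw [ka_succ, ka_adm s H (w := ee s H _) fun x J _ => ?_]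
    · rw [if_pos (by simp [sp]), add_zero, Pi.single_apply, empty_union]
      simp [eq_comm]
    · refine congrFun (congrFun ((congrArg (dl s) (funext fun y => ?_)).trans (dl_zero s)) x) J
      beta_reduce
      split_ifs with h3 h4
      · exact absurd (funext fun i => by_contra fun h => notMem_empty i (h4 ▸ mem_sp.2 h) :
          y = 0) fun e => hH.zero (e ▸ h3)
      · rfl
      · rfl
  · obtain ⟨B, b0, b1, b2, b3⟩ := exists_carry (h2 l)
    have b4 : ∀ t : K l, t ≠ 0 → ∑ u, B t u = if IsSquare t then 0 else 1 := fun t ht => by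
      split_ifs with h
      exacts [(b3 t ht).1 h, (b3 t ht).2 h]
    have hl' : l ∉ R := disjoint_left.1 hSR hl
    simp only
    rw [kk_rec h0 h1 hH h2 hl b0 b1 b2, b4 _ (neg_ne_zero.2 one_ne_zero)]
    simp only [map_add, map_sum, ZMod.map_smul, smul_eq_mul]
    rw [yy_single, if_neg (show l ∉ (S ∪ R)ᶜ by simp [hl]), show insert l (S ∪ R)ᶜ = (S.erase l ∪ R)ᶜ by
      ext i
      by_cases hi : i = l <;> simp [hi, hl']]
    refine congrArg _ (sum_subset_zero_on_sdiff (fun q hq => mem_compl.2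
      (disjoint_right.1 hSR hq)) (fun q hq => ?_) fun q hq => ?_).symm
    · rw [yy_single, if_pos (show q ∈ (S ∪ R)ᶜ by simpa using hq), map_zero, map_zero, mul_zero]
    · have hq' : q ≠ l := fun e => hl' (e ▸ hq)
      rw [b4 _ (h1 q l hq'), yy_single, if_neg (show q ∉ (S ∪ R)ᶜ by simp [hq]), yy_single,
        if_neg (show l ∉ insert q (S ∪ R)ᶜ by simp [hl, hq'.symm])]
      refine congrArg (fun T => _ * kk s H _ (Pi.single T 1)) ?_
      ext i
      by_cases hi : i = l
      · simp [hi, hl']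
      · by_cases hi' : i = q
        · simp [hi', disjoint_right.1 hSR hq]
        · simp [hi, hi']
  · simp only [union_compl, compl_univ]
    rw [sum_filter]
    refine Eq.trans ?_ ((ka_univ s H fun x => if sp x = S then (1 : ZMod 2) else 0).trans ?_)
    · refine congrArg (ka s H) (funext fun x => ?_)
      split_ifs <;> simp
    · refine sum_congr rfl fun x _ => ?_
      split_ifs <;> simp

end Pool.Agent.Tate.Zz
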