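import Pool.Agent.K.MP_e12fcd_ag.C87
import Pool.Agent.P.MP_2ce3e7_ag.TfZC

/-! The zigzag relation among the values of a Galois invariant function. -/

set_option autoImplicit false

noncomputable section

namespace Pool.Agent.Tate

open Finset
open Pool.Agent.P.MP_e12fcd_ag.Fermat (tors mem_tors card_tors)

open Classical in
/-- one for non-squares, zero for squares -/
def nn (l : ℕ) (a : ℤ) : ZMod 2 := if IsSquare (a : ZMod l) then 0 else 1

/-- three replaces two -/
def zq (r : ℕ) : ℕ := if r = 2 then 3 else r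

/-- the points used at the prime two -/
def zps {M : ℕ} (a b : ZMod M) (z : ZMod 3) : ZMod M :=
  if z = 0 then 2 * b else if z = 1 then b + a else b - a

theorem zps_zero {M : ℕ} (a b : ZMod M) : zps a b 0 = 2 * b := if_pos rfl

theorem zps_one {M : ℕ} (a b : ZMod M) : zps a b 1 = b + a :=
  (if_neg (by decide)).trans (if_pos rfl)

theorem zps_neg_one {M : ℕ} (a b : ZMod M) : zps a b (-1) = b - a :=
  (if_neg (by decide)).trans (if_neg (by decide))

theorem zz_three (z : ZMod 3) : z = 0 ∨ z = 1 ∨ z = -1 := by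
  revert z
  decide

theorem zps_neg {M : ℕ} (a b : ZMod M) (z : ZMod 3) : zps a (-b) (-z) = -zps a b z := by
  rcases zz_three z with rfl | rfl | rfl <;>
    simp only [neg_zero, neg_neg, zps_zero, zps_one, zps_neg_one] <;> ring

theorem zps_odd {M : ℕ} [NeZero M] {Y : Type} [AddCommGroup Y] {g : ZMod M → Y} (hg : Dist M g)
    {a : ZMod M} (ha : 4 * a = 0) {j : ℕ} (hj : j.Prime) (h2 : j ≠ 2) (hM : j ∣ M) (b : ZMod M)
    (z : ZMod 3) : ∑ w ∈ tors M j, g (zps a (b + w) z) =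
      g (zps a (j * b) (((ZMod.χ₄ j : ℤ) : ZMod 3) * z)) := by
  have e : ∀ c : ZMod M, ∑ w ∈ tors M j, g (b + w + c) = g (j * b + j * c) := fun c => by
    rw [← mul_add, ← hg.dist j hj hM]
    simp only [add_right_comm b]
  have hj4 : (j : ZMod M) = 4 * ((j / 4 : ℕ) : ZMod M) + (j % 4 : ℕ) := by
    exact_mod_cast congrArg (Nat.cast : ℕ → ZMod M) (Nat.div_add_mod j 4).symm
  have hc : (ZMod.χ₄ j = 1 ∧ (j : ZMod M) * a = a) ∨ (ZMod.χ₄ j = -1 ∧ (j : ZMod M) * a = -a) := by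
    rcases Nat.odd_mod_four_iff.1 (Nat.odd_iff.1 (hj.odd_of_ne_two h2)) with h | h
    · refine Or.inl ⟨ZMod.χ₄_nat_one_mod_four h, ?_⟩
      rw [hj4, h]
      linear_combination ((j / 4 : ℕ) : ZMod M) * ha
    · refine Or.inr ⟨ZMod.χ₄_nat_three_mod_four h, ?_⟩
      rw [hj4, h]
      linear_combination (((j / 4 : ℕ) : ZMod M) + 1) * ha
  rcases zz_three z with rfl | rfl | rfl
  · simp only [mul_zero, zps_zero, mul_add]
    rw [mul_left_comm, ← hg.dist j hj hM, ← sum_tors_coprime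
      ((Nat.coprime_primes Nat.prime_two hj).2 h2.symm) fun w => g (2 * b + w)]
    simp only [Nat.cast_ofNat]
  · simp only [zps_one, e]
    rcases hc with h | h <;> rw [h.1, h.2] <;> simp [zps_one, zps_neg_one, sub_eq_add_neg]
  · simp only [zps_neg_one, sub_eq_add_neg, e, mul_neg]
    rcases hc with h | h <;> rw [h.1, h.2] <;> simp [zps_one, zps_neg_one, sub_eq_add_neg]

theorem zps_two {M : ℕ} [NeZero M] {Y : Type} [AddCommGroup Y] {g : ZMod M → Y} (hg : Dist M g)
    {a : ZMod M} (ha : 4 * a = 0) (ha2 : 2 * a ≠ 0) (hM : 2 ∣ M) (b : ZMod M) :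
    ∑ z : ZMod 3, g (zps a b z) = g (zps a (2 * b) 0) := by
  have ht : ∀ c, g (2 * c) = g c + g (c + 2 * a) := fun c => by
    have e := hg.dist 2 Nat.prime_two hM c
    rw [← eq_of_subset_of_card_le (s := {0, 2 * a}) (t := tors M 2) (by
      simp only [insert_subset_iff, singleton_subset_iff, mem_tors, mul_zero, true_and]
      linear_combination ha) (by rw [card_tors hM, card_pair ha2.symm]), sum_pair ha2.symm,
      add_zero, Nat.cast_ofNat] at e
    exact e.symm
  rw [show (univ : Finset (ZMod 3)) = {0, 1, -1} by decide, sum_insert (by decide),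
    sum_pair (by decide), zps_zero, zps_zero, zps_one, zps_neg_one, ht (2 * b),
    show 2 * b + 2 * a = 2 * (b + a) by ring, ht (b + a),
    show b + a + 2 * a = b - a by linear_combination ha]

theorem zz_homs {M : ℕ} [NeZero M] {r : ℕ} (h : r ∣ M) :
    ∃ (ι : ZMod (zq r) →+ ZMod M) (κ : ZMod (zq r) →+ ZMod 3),
      (r = 2 → ι = 0 ∧ Function.Bijective κ) ∧ (r ≠ 2 → κ = 0 ∧ Function.Injective ι) := by
  by_cases h2 : r = 2
  · subst h2
    exact ⟨0, AddMonoidHom.id (ZMod 3), fun _ => ⟨rfl, Function.bijective_id⟩,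
      fun h => absurd rfl h⟩
  · rw [show zq r = r from if_neg h2]
    exact ⟨AddMonoidHom.mk' (lv M) (lv_add h), 0, fun e => absurd e h2, fun _ => ⟨rfl, lv_inj h⟩⟩

theorem zz_ord {ι B : Type} [AddCommGroup B] (T : Finset ι) (f : ι → B) (q : ι → ℕ)
    (hq : ∀ i j, i ≠ j → (q i).Coprime (q j)) (h : ∀ i ∈ T, addOrderOf (f i) = q i) :
    addOrderOf (∑ i ∈ T, f i) = ∏ i ∈ T, q i := by
  classical
  induction T using Finset.induction_on with
  | empty => simp
  | insert i T hi ih =>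
    have e := ih fun j hj => h j (mem_insert_of_mem hj)
    have e' := h i (mem_insert_self i T)
    rw [sum_insert hi, prod_insert hi,
      (AddCommute.all _ _).addOrderOf_add_eq_mul_addOrderOf_of_coprime
      (by rw [e, e']; exact Nat.Coprime.prod_right fun j hj => hq i j fun e => hi (e ▸ hj)), e, e']

theorem zz_sq {n m : ℕ} (h : n = m) (a : ℤ) : IsSquare (a : ZMod n) ↔ IsSquare (a : ZMod m) := by
  rw [h]

theorem zz_rel {M : ℕ} [NeZero M] {Y : Type} [AddCommGroup Y] {G : ZMod M → Y} (hG : Gal G)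
    (hev : ∀ c, Even (addOrderOf c) → G c = 0) (hneg : ∀ c, G (-c) = -G c)
    (hK : ∀ (ι : Type) [Fintype ι] (b : ι → ZMod M), ∑ i, th (b i) = 0 → ∑ i, G (b i) = 0)
    (P : Finset ℕ) (hP : ∀ r ∈ P, r.Prime) (hM : ∀ r ∈ P, 2 * r ∣ M) (he : Even P.card) :
    ∃ mu : Finset ℕ → Finset ℕ → ZMod 2, (∀ R, mu ∅ R = if R = ∅ then 1 else 0) ∧
      (∀ S R l, l ∈ S → 2 ∉ S → Disjoint S R → S ∪ R ⊆ P →
        mu S R = nn l (-1) * mu (S.erase l) R + ∑ q ∈ R, nn l q * mu (S.erase l) (R.erase q)) ∧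
      ∑ S ∈ P.powerset with 2 ∉ S,
        (mu S (P \ S)).val • G ((M / ∏ r ∈ S, r : ℕ) : ZMod M) = 0 := by
  classical
  have hM' : ∀ i : P, (i : ℕ) ∣ M := fun i => (dvd_mul_left _ 2).trans (hM i i.2)
  have hq : ∀ i : P, (zq i).Prime ∧ zq i ≠ 2 := fun i => by
    unfold zq
    split_ifs with h
    exacts [⟨Nat.prime_three, by decide⟩, ⟨hP i i.2, h⟩]
  have : ∀ i : P, Fact (zq i).Prime := fun i => ⟨(hq i).1⟩
  have hcop : ∀ i j : P, i ≠ j → (i : ℕ).Coprime j := fun i j h =>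
    (Nat.coprime_primes (hP i i.2) (hP j j.2)).2 fun e => h (Subtype.ext e)
  obtain ⟨s, hs⟩ : ∃ s : P → ∀ i : P, ZMod (zq i), s = fun (j i : P) =>
    (((if (i : ℕ) = 2 then ZMod.χ₄ ((j : ℕ) : ZMod 4) else (j : ℕ) : ℤ)) : ZMod (zq i)) := ⟨_, rfl⟩
  have s1 : ∀ j i : P, (i : ℕ) = 2 → s j i = (ZMod.χ₄ ((j : ℕ) : ZMod 4) : ℤ) := fun j i h => by
    simp only [hs, if_pos h]
  have s2 : ∀ j i : P, (i : ℕ) ≠ 2 → s j i = ((j : ℕ) : ℤ) := fun j i h => by
    simp only [hs, if_neg h]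
  have h0 : ∀ i, s i i = 0 := fun i => by
    by_cases h : (i : ℕ) = 2
    · rw [s1 i i h, show ZMod.χ₄ ((i : ℕ) : ZMod 4) = 0 by rw [h]; rfl, Int.cast_zero]
    · rw [s2 i i h, Int.cast_natCast, ZMod.natCast_eq_zero_iff, zq, if_neg h]
  have h1 : ∀ j i, j ≠ i → s j i ≠ 0 := fun j i hji => by
    by_cases h : (i : ℕ) = 2
    · have := (hP j j.2).odd_of_ne_two fun e => hji (Subtype.ext (e.trans h.symm))
      rw [s1 j i h]
      rcases Nat.odd_mod_four_iff.1 (Nat.odd_iff.1 this) with h | h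
      · simp [ZMod.χ₄_nat_one_mod_four h]
      · simp [ZMod.χ₄_nat_three_mod_four h]
    · rw [s2 j i h, Int.cast_natCast, Ne, ZMod.natCast_eq_zero_iff, zq, if_neg h]
      exact fun e => (hP i i.2).one_lt.ne' ((hcop i j hji.symm).eq_one_of_dvd e)
  obtain ⟨η, mu, k1, k2, k3, k4⟩ := Zz.zz_abs (K := fun i : P => ZMod (zq i)) h0 h1 (fun i h =>
    (hq i).2 ((Nat.prime_dvd_prime_iff_eq (hq i).1 Nat.prime_two).1
      ((ZMod.natCast_eq_zero_iff 2 _).1 (by exact_mod_cast h)))) (by simpa using he)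
  refine ⟨fun S R => if R ⊆ P then mu (S.subtype (· ∈ P)) (R.subtype (· ∈ P)) else 0,
    fun R => ?_, fun S R l hl hS hSR hsub => ?_, ?_⟩
  · by_cases h : R ⊆ P
    · simp only [if_pos h, show (∅ : Finset ℕ).subtype (· ∈ P) = ∅ from rfl, k2,
        subtype_eq_empty]
      exact if_congr ⟨fun e => eq_empty_of_forall_notMem fun x hx => e x (h hx) hx,
        fun e x _ => e ▸ notMem_empty x⟩ rfl rfl
    · simp only [if_neg h]
      exact (if_neg fun e : R = ∅ => h (e ▸ empty_subset P)).symm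
  · have hR : R ⊆ P := subset_union_right.trans hsub
    have hlP : l ∈ P := hsub (mem_union_left R hl)
    have hl2 : l ≠ 2 := fun e => hS (e ▸ hl)
    have er : ∀ (T : Finset ℕ) (i : P),
        (T.erase i).subtype (· ∈ P) = (T.subtype (· ∈ P)).erase i := fun T i => by
      ext j
      simp only [mem_subtype, mem_erase, ne_eq, Subtype.ext_iff]
    have hz : zq l = l := if_neg hl2
    simp only [if_pos hR, if_pos ((erase_subset _ R).trans hR)]
    rw [k3 _ _ ⟨l, hlP⟩ (mem_subtype.2 hl) (disjoint_left.2 fun i a b =>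
      disjoint_left.1 hSR (mem_subtype.1 a) (mem_subtype.1 b)), er S ⟨l, hlP⟩,
      ← sum_subtype_of_mem _ (p := (· ∈ P)) hR]
    refine congrArg₂ _ (congrArg₂ _ (if_congr ?_ rfl rfl) rfl) (sum_congr rfl fun q _ => ?_)
    · rw [← zz_sq hz, Int.cast_neg, Int.cast_one]
    · rw [er R q, s2 q ⟨l, hlP⟩ hl2]
      exact congrArg₂ _ (if_congr (zz_sq hz _) rfl rfl) rfl
  choose ι κ i2 i1 using fun i : P => zz_homs (hM' i)
  obtain ⟨a, ha, ha2⟩ : ∃ a : ZMod M, 4 * a = 0 ∧ (2 ∈ P → 2 * a ≠ 0) := by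
    by_cases h : 2 ∈ P
    · have h4 : 4 ∣ M := hM 2 h
      refine ⟨lv M (1 : ZMod 4), ?_, fun _ => ?_⟩
      · exact (natCast_mul_lv h4 4 1).trans ((lv_eq_zero h4).2 (by decide))
      · exact fun e => absurd ((lv_eq_zero h4).1 ((natCast_mul_lv h4 2 1).symm.trans e))
          (by decide)
    · exact ⟨0, mul_zero _, fun e => absurd e h⟩
  obtain ⟨φ, hφ⟩ : ∃ φ : (∀ i : P, ZMod (zq i)) → ZMod M,
    φ = fun x => zps a (∑ i, ι i (x i)) (∑ i, κ i (x i)) := ⟨_, rfl⟩
  have p1 : ∀ x, φ (-x) = -φ x := fun x => by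
    simp only [hφ, Pi.neg_apply, map_neg, sum_neg_distrib, zps_neg]
  have p2 : ∀ j x, Zz.dd s j (fun x => th (φ x)) x = 0 := fun j x => by
    have e1 : ∀ (B : Type) [AddCommGroup B] (f : ∀ i : P, ZMod (zq i) →+ B) (_ : DecidableEq P)
        (z : ZMod (zq j)),
        ∑ i, f i ((x + Pi.single j z : ∀ i : P, ZMod (zq i)) i) = ∑ i, f i (x i) + f j z := by
      intro B _ f _ z
      simp only [Pi.add_apply, map_add, sum_add_distrib]
      rw [sum_eq_single j (f := fun i => f i ((Pi.single j z : ∀ i : P, ZMod (zq i)) i))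
        (fun i _ h => by simp [h]) (by simp), Pi.single_eq_same]
    have e2 : ∑ i, ι i ((s j * x) i) = (j : ℕ) * ∑ i, ι i (x i) := by
      rw [mul_sum]
      refine sum_congr rfl fun i _ => ?_
      by_cases h : (i : ℕ) = 2
      · simp [(i2 i h).1]
      · rw [Pi.mul_apply, s2 j i h, ← zsmul_eq_mul, map_zsmul, zsmul_eq_mul, Int.cast_natCast]
    have e3 : ∑ i, κ i ((s j * x) i) = (ZMod.χ₄ ((j : ℕ) : ZMod 4) : ℤ) * ∑ i, κ i (x i) := by
      rw [mul_sum]
      refine sum_congr rfl fun i _ => ?_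
      by_cases h : (i : ℕ) = 2
      · rw [Pi.mul_apply, s1 j i h, ← zsmul_eq_mul, map_zsmul, zsmul_eq_mul]
      · simp [(i1 i h).1]
    rw [Zz.dd, sub_eq_zero]
    simp only [hφ, e1 _ ι, e1 _ κ, e2, e3]
    by_cases h : (j : ℕ) = 2
    · rw [(i2 j h).1, show ZMod.χ₄ ((j : ℕ) : ZMod 4) = 0 by rw [h]; rfl, Int.cast_zero, zero_mul,
        show ((j : ℕ) : ZMod M) = 2 by rw [h]; rfl,
        ← zps_two dist_th ha (ha2 (h ▸ j.2)) (h ▸ hM' j)]
      exact Fintype.sum_bijective (fun z => ∑ i, κ i (x i) + κ j z)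
        ((Equiv.addLeft _).bijective.comp (i2 j h).2) _ _ fun z => by
          rw [AddMonoidHom.zero_apply, add_zero]
    · rw [(i1 j h).1, ← zps_odd dist_th ha (hP j j.2) h (hM' j)]
      have hz : zq j = j := if_neg h
      refine sum_bij (fun z _ => ι j z) (fun z _ => ?_) (fun _ _ _ _ e => (i1 j h).2 e)
        (surj_on_of_inj_on_of_card_le _ (fun z _ => ?_) (fun _ _ _ _ e => (i1 j h).2 e)
          (by rw [card_tors (hM' j), card_univ, ZMod.card, hz]) · · |>.imp fun _ => Exists.imp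
            fun _ => Eq.symm) fun z _ => by simp
      all_goals
        rw [mem_tors, ← nsmul_eq_mul, ← map_nsmul, nsmul_eq_mul,
          (ZMod.natCast_eq_zero_iff _ _).2 hz.dvd, zero_mul, map_zero]
  have hprod : ∀ T : Finset P, ∏ i ∈ T, (i : ℕ) ∣ M := fun T =>
    prod_dvd_of_isRelPrime (fun i _ j _ h => Nat.coprime_iff_isRelPrime.1 (hcop i j h))
      fun i _ => hM' i
  have p3 : ∀ x, G (φ x) = if ∀ i ∈ Zz.sp x, (i : ℕ) ≠ 2 then
      G ((M / ∏ i ∈ Zz.sp x, (i : ℕ) : ℕ) : ZMod M) else 0 := fun x => by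
    have e0 : addOrderOf (∑ i, ι i (x i)) =
        ∏ i ∈ (Zz.sp x).filter fun i : P => (i : ℕ) ≠ 2, (i : ℕ) := by
      rw [← sum_subset (subset_univ ((Zz.sp x).filter fun i : P => (i : ℕ) ≠ 2)) fun i _ h => ?_]
      · refine zz_ord _ _ _ hcop fun i hi => ?_
        have := Fact.mk (hP i i.2)
        have h := (mem_filter.1 hi).2
        refine addOrderOf_eq_prime ?_ fun e => Zz.mem_sp.1 (mem_filter.1 hi).1
          ((i1 i h).2 (e.trans (map_zero _).symm))
        rw [← map_nsmul, nsmul_eq_mul, (ZMod.natCast_eq_zero_iff _ _).2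
          (show zq i = i from if_neg h).dvd, zero_mul, map_zero]
      · by_cases h2 : (i : ℕ) = 2
        · simp [(i2 i h2).1]
        · rw [not_not.1 (mt Zz.mem_sp.2 fun e => h (mem_filter.2 ⟨e, h2⟩)), map_zero]
    have e1 : Nat.Coprime 2 (addOrderOf (∑ i, ι i (x i))) := by
      rw [e0]
      exact Nat.Coprime.prod_right fun i hi =>
        (Nat.coprime_primes Nat.prime_two (hP i i.2)).2 (mem_filter.1 hi).2.symm
    simp only [hφ]
    split_ifs with h
    · rw [sum_eq_zero (f := fun i => κ i (x i)) fun i _ => ?_, zps_zero]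
      · refine hG.of_order ((ord_mul_coprime e1).trans ?_)
        rw [e0, filter_true_of_mem h, ZMod.addOrderOf_coe _ (NeZero.ne M),
          Nat.gcd_eq_right (Nat.div_dvd_of_dvd (hprod _)), Nat.div_div_self (hprod _) (NeZero.ne M)]
      · by_cases hi : x i = 0
        · rw [hi, map_zero]
        · simp [(i1 i (h i (Zz.mem_sp.2 hi))).1]
    · obtain ⟨i, hi⟩ := not_forall.1 h
      obtain ⟨hi, h2⟩ := Classical.not_imp.1 hi
      rw [not_not] at h2
      have e2 : ∀ c : ZMod M, 4 * c = 0 → 2 * c ≠ 0 → G (∑ i, ι i (x i) + c) = 0 := by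
        refine fun c h4 hc => hev _ (Nat.not_odd_iff_even.1 fun ho => hc ?_)
        obtain ⟨k, hk⟩ := ho.mul (Nat.coprime_two_left.1 e1)
        have hk' := congrArg (Nat.cast : ℕ → ZMod M) hk
        push_cast at hk'
        linear_combination (2 * (addOrderOf (∑ i, ι i (x i)) : ZMod M)) *
          tqOrd_kill (∑ i, ι i (x i) + c) - (2 * (addOrderOf (∑ i, ι i (x i) + c) : ZMod M)) *
          tqOrd_kill (∑ i, ι i (x i)) - 2 * c * hk' - k * h4
      have ha' := ha2 (h2 ▸ i.2)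
      rw [sum_eq_single i (f := fun i => κ i (x i)) (fun j _ hj => by
        simp [(i1 j fun e => hj (Subtype.ext (e.trans h2.symm))).1]) (by simp)]
      rcases zz_three (κ i (x i)) with e | e | e
      · exact absurd ((i2 i h2).2.1 (e.trans (map_zero _).symm)) (Zz.mem_sp.1 hi)
      · rw [e, zps_one, e2 a ha ha']
      · rw [e, zps_neg_one, sub_eq_add_neg, e2 (-a) (by rw [mul_neg, ha, neg_zero])
          (by rwa [mul_neg, neg_ne_zero])]
  have p4 := k1 _ (fun x => th (φ x)) (fun y hy => funext fun t => by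
    have := congrFun hy t
    simp only [Pi.add_apply, Pi.zero_apply] at this ⊢
    omega) (fun x => by rw [p1, th_neg]) p2
  have p5 : ∀ (Z : Type) [AddCommGroup Z] (W : ZMod M → Z),
      ∑ b, (∑ x with φ x = b, η x) • W b = ∑ x, η x • W (φ x) := fun Z _ W => by
    rw [← sum_fiberwise univ φ]
    refine sum_congr rfl fun b _ => ?_
    rw [sum_smul]
    exact sum_congr rfl fun x hx => by rw [(mem_filter.1 hx).2]
  obtain ⟨J, _, c, hc⟩ := exists_fam fun b => ∑ x with φ x = b, η x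
  have p6 := hK J c (by rw [← hc _ th th_neg, p5]; exact p4)
  have p7 : ∀ (n : ℤ) (b : ZMod M), (n : ZMod 2).val • G b = n • G b := fun n b => by
    have e : G b + G b = 0 := by
      have := hG (-1) b
      rw [Units.val_neg, Units.val_one, neg_one_mul, hneg] at this
      exact neg_eq_iff_add_eq_zero.1 this
    rw [← natCast_zsmul, ZMod.val_intCast]
    conv_rhs => rw [← Int.emod_add_mul_ediv n (2 : ℕ), add_smul, mul_comm, mul_smul,
      natCast_zsmul, two_nsmul, e, smul_zero, add_zero]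
  rw [← hc _ G hneg, p5, ← sum_fiberwise univ Zz.sp] at p6
  rw [← p6, sum_filter]
  refine sum_bij' (fun S _ => S.subtype (· ∈ P)) (fun T _ => T.map (Function.Embedding.subtype _))
    (fun _ _ => mem_univ _) (fun T _ => mem_powerset.2 (map_subtype_subset T))
    (fun S hS => subtype_map_of_mem (mem_powerset.1 hS)) (fun T _ => by ext; simp) fun S hS => ?_
  have hS' := mem_powerset.1 hS
  beta_reduce
  rw [sum_congr rfl fun x hx => by rw [p3, (mem_filter.1 hx).2], ← sum_smul,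
    if_pos sdiff_subset, show (P \ S).subtype (· ∈ P) = (S.subtype (· ∈ P))ᶜ by ext; simp,
    show mu _ (S.subtype (· ∈ P))ᶜ = _ from k4 _, ← Int.cast_sum, p7,
    prod_subtype_of_mem (fun r => r) hS']
  by_cases h : 2 ∈ S
  · rw [if_neg (not_not.2 h), if_neg fun e => e ⟨2, hS' h⟩ (mem_subtype.2 h) rfl, smul_zero]
  · rw [if_pos h, if_pos fun (i : P) hi (e : (i : ℕ) = 2) => h (e ▸ mem_subtype.1 hi)]
    rfl

end Pool.Agent.Tate
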