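import Pool.Agent.P.MP_2ce3e7_ag.TwA

/-! Twisting by invertible ideals. -/

set_option autoImplicit false

noncomputable section

namespace Pool.Agent.Tate

open MvPolynomial

variable {m : ℕ} {k ι A : Type} [Field k] [Fintype ι] [Fintype A] [DecidableEq A]
  {g : A → S k ι} {δ : ι → ℤ}

theorem tw_suff_mul {B B' : Type} {U : Set (B → S k ι)} {U' : Set (B' → S k ι)}
    {W : Set (B × B' → S k ι)} (h : Suff m U) (h' : Suff m U')
    (hW : ∀ u ∈ U, ∀ u' ∈ U', (fun a : B × B' => u a.1 * u' a.2) ∈ W) : Suff m W := by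
  refine (Irr.mul h h').mono ?_
  rw [Ideal.sup_mul, Ideal.mul_sup, Ideal.span_mul_span']
  refine sup_le (sup_le (le_sup_of_le_left (Ideal.span_mono ?_))
    (le_sup_of_le_right (Ideal.mul_le.2 fun _ _ _ h => Ideal.mul_mem_left _ _ h)))
    (le_sup_of_le_right (Ideal.mul_le.2 fun _ h _ _ => Ideal.mul_mem_right _ _ h))
  rintro _ ⟨_, ⟨u, hu, a, rfl⟩, _, ⟨u', hu', a', rfl⟩, rfl⟩
  exact ⟨_, hW u hu u' hu', (a, a'), rfl⟩

theorem tw_suff_comp {B B' : Type} {U : Set (B → S k ι)} {W : Set (B' → S k ι)} (h : Suff m U)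
    {f : B' → B} (hf : Function.Surjective f) (hW : ∀ u ∈ U, u ∘ f ∈ W) : Suff m W := by
  refine Irr.mono h (sup_le_sup_right (Ideal.span_mono ?_) _)
  rintro _ ⟨u, hu, a, rfl⟩
  obtain ⟨a', rfl⟩ := hf a
  exact ⟨_, hW u hu, a', rfl⟩

omit [Fintype ι] in
theorem tw_prp_mul {B B' : Type} {u g : B → S k ι} {u' g' : B' → S k ι} (h : Prp m u g)
    (h' : Prp m u' g') :
    Prp m (fun a : B × B' => u a.1 * u' a.2) (fun a : B × B' => g a.1 * g' a.2) := by
  intro a b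
  have e : u a.1 * u' a.2 * (g b.1 * g' b.2) - u b.1 * u' b.2 * (g a.1 * g' a.2) =
      (u' a.2 * g' b.2) * (u a.1 * g b.1 - u b.1 * g a.1) +
        (u b.1 * g a.1) * (u' a.2 * g' b.2 - u' b.2 * g' a.2) := by ring
  rw [e]
  exact add_mem (Ideal.mul_mem_left _ _ (h _ _)) (Ideal.mul_mem_left _ _ (h' _ _))

theorem Inv.mul (hm : (m : k) ≠ 0) {A' : Type} {g' : A' → S k ι} {δ' : ι → ℤ} (hg : Inv m g δ)
    (hg' : Inv m g' δ') : Inv m (fun a : A × A' => g a.1 * g' a.2) (δ + δ') := by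
  refine ⟨fun a => (hg.hom a.1).mul (hg'.hom a.2), ?_,
    tw_suff_mul hg.suff hg'.suff fun u hu u' hu' => tw_prp_mul hu hu'⟩
  obtain ⟨b, hb⟩ := hg.ne
  obtain ⟨b', hb'⟩ := hg'.ne
  exact ⟨(b, b'), fun h => ((fer_isPrime hm).mem_or_mem h).elim hb hb'⟩

theorem Lg_mul (hm : (m : k) ≠ 0) {A' : Type} [Fintype A'] [DecidableEq A'] {g' : A' → S k ι}
    {δ' : ι → ℤ} (hg : Inv m g δ) (hg' : Inv m g' δ') :
    Lg m (fun a : A × A' => g a.1 * g' a.2) (δ + δ') = Lg m g δ * Lg m g' δ' := by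
  refine G.ext fun M => ?_
  obtain ⟨T', p', h', -⟩ := exists_isL hm hg' M
  obtain ⟨T, p, h, -⟩ := exists_isL hm hg T'
  rw [Module.End.mul_apply, h'.Lg_cls hm hg', h.Lg_cls hm hg]
  let q : (A × A' → M.M) →ₗ[S k ι] (A → T'.M) :=
    LinearMap.pi fun a => p' ∘ₗ LinearMap.funLeft (S k ι) M.M fun a' : A' => (a, a')
  have hq : ∀ ξ, q ξ = fun a => p' fun a' => ξ (a, a') := fun _ => rfl
  have hs : ∀ a a' y, q (Pi.single (a, a') y) = Pi.single a (p' (Pi.single a' y)) := by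
    intro a a' y
    rw [hq]
    funext b
    by_cases e : b = a
    · subst e
      rw [Pi.single_eq_same]
      congr 1
      funext b'
      by_cases e' : b' = a'
      · subst e'
        simp
      · rw [Pi.single_eq_of_ne e', Pi.single_eq_of_ne (by simp [e'])]
    · rw [Pi.single_eq_of_ne e, ← p'.map_zero]
      congr 1
      funext b'
      rw [Pi.single_eq_of_ne (by simp [e])]
      rfl
  refine IsL.Lg_cls hm (hg.mul hm hg') (p := p ∘ₗ q) ⟨h.surj.comp fun η => ?_, fun d ξ => ?_, ?_⟩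
  · choose ξ hξ using fun a => h'.surj (η a)
    exact ⟨fun a => ξ a.1 a.2, funext hξ⟩
  · simp only [LinearMap.comp_apply, hq]
    rw [h.π]
    simp only [h'.π, sub_sub]
  · obtain ⟨U, hU, H⟩ := h.ker
    obtain ⟨U', hU', H'⟩ := h'.ker
    refine ⟨{w | ∃ u ∈ U, ∃ u' ∈ U', w = fun a : A × A' => u a.1 * u' a.2},
      tw_suff_mul hU hU' fun u hu u' hu' => ⟨u, hu, u', hu', rfl⟩, ?_⟩
    rintro _ ⟨u, hu, u', hu', rfl⟩
    obtain ⟨a1, a2, a3⟩ := H u hu
    obtain ⟨b1, b2, b3⟩ := H' u' hu'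
    refine ⟨tw_prp_mul a1 b1, fun ξ hξ => ?_, ?_⟩
    · have e1 := a2 _ hξ
      have e2 : p' (∑ a, u a • fun a' => ξ (a, a')) = 0 := by
        rw [map_sum, ← e1]
        exact Finset.sum_congr rfl fun a _ => by rw [map_smul]; rfl
      rw [← b2 _ e2, Fintype.sum_prod_type_right]
      refine Finset.sum_congr rfl fun a' _ => ?_
      rw [Finset.sum_apply, Finset.smul_sum]
      refine Finset.sum_congr rfl fun a _ => ?_
      change (u a * u' a') • ξ (a, a') = u' a' • u a • ξ (a, a')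
      rw [mul_comm, mul_smul]
    · rintro ⟨a, a'⟩ ⟨b, b'⟩ x
      simp only [LinearMap.comp_apply, hs, mul_smul]
      rw [Pi.single_smul' a' (u b), Pi.single_smul' b' (u a), map_smul, map_smul, b3 a' b', a3]

theorem Inv.comp {A' : Type} (hg : Inv m g δ) {f : A' → A} (hf : Function.Surjective f) :
    Inv m (g ∘ f) δ := by
  refine ⟨fun a => hg.hom _, ?_, tw_suff_comp hg.suff hf fun u hu a b => hu _ _⟩
  obtain ⟨b, hb⟩ := hg.ne
  obtain ⟨b', rfl⟩ := hf b
  exact ⟨b', hb⟩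

theorem Lg_comp (hm : (m : k) ≠ 0) {A' : Type} [Fintype A'] [DecidableEq A'] (hg : Inv m g δ)
    {f : A' → A} (hf : Function.Surjective f) : Lg m (g ∘ f) δ = Lg m g δ := by
  refine G.ext fun M => ?_
  obtain ⟨T, p, h, -⟩ := exists_isL hm hg M
  rw [h.Lg_cls hm hg]
  let q : (A' → M.M) →ₗ[S k ι] (A → M.M) :=
    LinearMap.pi fun a => ∑ a' ∈ Finset.univ.filter (fun a' => f a' = a), LinearMap.proj a'
  have hq : ∀ ξ, q ξ = fun a => ∑ a' ∈ Finset.univ.filter (fun a' => f a' = a), ξ a' := by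
    intro ξ
    funext a
    simp [q, LinearMap.sum_apply]
  have hs : ∀ a' y, q (Pi.single a' y) = Pi.single (f a') y := by
    intro a' y
    rw [hq]
    funext b
    simp only [Pi.single_apply, Finset.sum_ite_eq', Finset.mem_filter, Finset.mem_univ, true_and]
    simp only [eq_comm]
  refine IsL.Lg_cls hm (hg.comp hf) (p := p ∘ₗ q) ⟨h.surj.comp fun η => ?_, fun d ξ => ?_, ?_⟩
  · choose s hs' using hf
    refine ⟨∑ a, Pi.single (s a) (η a), ?_⟩
    rw [map_sum]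
    simp only [hs, hs']
    exact Finset.univ_sum_single η
  · simp only [LinearMap.comp_apply, hq]
    rw [h.π]
    simp only [map_sum]
  · obtain ⟨U, hU, H⟩ := h.ker
    refine ⟨(fun u => u ∘ f) '' U, tw_suff_comp hU hf fun u hu => ⟨u, hu, rfl⟩, ?_⟩
    rintro _ ⟨u, hu, rfl⟩
    obtain ⟨a1, a2, a3⟩ := H u hu
    refine ⟨fun a b => a1 _ _, fun ξ hξ => ?_, fun a b x => ?_⟩
    · rw [← a2 _ hξ, hq, ← Finset.sum_fiberwise (s := Finset.univ) (g := f)]
      refine Finset.sum_congr rfl fun a _ => ?_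
      rw [Finset.smul_sum]
      refine Finset.sum_congr rfl fun a' ha' => ?_
      rw [← (Finset.mem_filter.1 ha').2]
      rfl
    · simp only [LinearMap.comp_apply, hs]
      exact a3 _ _ x

theorem Lg_one (hm : (m : k) ≠ 0) [Nonempty A] :
    Inv m (fun _ : A => (1 : S k ι)) 0 ∧ Lg m (fun _ : A => (1 : S k ι)) 0 = 1 := by
  obtain ⟨a₀⟩ := ‹Nonempty A›
  have hs : ∀ W : Set (A → S k ι), (fun _ => 1) ∈ W → Suff m W := fun W hW α =>
    ⟨0, by
      rw [pow_zero]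
      exact Ideal.mem_sup_left (Ideal.subset_span ⟨_, hW, a₀, rfl⟩)⟩
  have hp : Prp m (fun _ : A => (1 : S k ι)) fun _ => 1 := fun a b => by
    rw [sub_self]; exact zero_mem _
  have hi : Inv m (fun _ : A => (1 : S k ι)) 0 :=
    ⟨fun _ => isWeightedHomogeneous_one _ _,
      ⟨a₀, (Ideal.ne_top_iff_one _).1 (fer_isPrime hm).ne_top⟩, hs _ hp⟩
  refine ⟨hi, G.ext fun M => ?_⟩
  let q : (A → M.M) →ₗ[S k ι] M.M := ∑ a, LinearMap.proj a
  have hq : ∀ ξ, q ξ = ∑ a, ξ a := fun ξ => by simp [q, LinearMap.sum_apply]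
  refine IsL.Lg_cls hm hi (p := q) ⟨fun y => ⟨Pi.single a₀ y, by simp [hq]⟩, fun d ξ => ?_,
    {fun _ => 1}, hs _ rfl, ?_⟩
  · simp only [hq, map_sum, sub_zero]
  · rintro _ rfl
    refine ⟨hp, fun ξ hξ => ?_, fun a b x => by simp [hq]⟩
    simpa only [hq, one_smul] using hξ

theorem Lg_comm (hm : (m : k) ≠ 0) {A' : Type} [Fintype A'] [DecidableEq A'] (g : A → S k ι)
    (δ : ι → ℤ) (g' : A' → S k ι) (δ' : ι → ℤ) : Commute (Lg m g δ) (Lg m g' δ') := by
  by_cases hg : Inv m g δ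
  swap
  · rw [Lg_of_not hg]; exact Commute.zero_left _
  by_cases hg' : Inv m g' δ'
  swap
  · rw [Lg_of_not hg']; exact Commute.zero_right _
  change _ * _ = _ * _
  rw [← Lg_mul hm hg hg', ← Lg_mul hm hg' hg, add_comm δ' δ,
    ← Lg_comp hm (hg.mul hm hg') Prod.swap_surjective]
  congr 1
  funext a
  exact mul_comm _ _

end Pool.Agent.Tate
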