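import Pool.Agent.P.MP_2ce3e7_ag.Cyc
import Pool.Agent.P.MP_2ce3e7_ag.FerP

/-! Twisting by invertible ideals. -/

set_option autoImplicit false

noncomputable section

namespace Pool.Agent.Tate

open MvPolynomial

variable {m : ℕ} {k ι A : Type} [Field k] [Fintype ι] [Fintype A] [DecidableEq A]
  {g : A → S k ι} {δ : ι → ℤ}

/-- a family proportional to `g` kills the syzygies of `g` -/
theorem Prp.kills (hm : (m : k) ≠ 0) (hg : Inv m g δ) {u c : A → S k ι} (hu : Prp m u g)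
    (hc : ∑ a, c a * g a ∈ Fer m k ι) : ∑ a, c a * u a ∈ Fer m k ι := by
  obtain ⟨b, hb⟩ := hg.ne
  refine ((fer_isPrime hm).mem_or_mem (x := g b) ?_).resolve_left hb
  have e : g b * ∑ a, c a * u a =
      ∑ a, c a * (u a * g b - u b * g a) + u b * ∑ a, c a * g a := by
    rw [Finset.mul_sum, Finset.mul_sum, ← Finset.sum_add_distrib]
    exact Finset.sum_congr rfl fun a _ => by ring
  rw [e]
  exact Ideal.add_mem _ (Ideal.sum_mem _ fun a _ => Ideal.mul_mem_left _ _ (hu a b))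
    (Ideal.mul_mem_left _ _ hc)

omit [Fintype ι] [DecidableEq A] in
/-- components of syzygies are syzygies -/
theorem twA_cmp_syz (hg : ∀ a, Hg (g a) δ) {c : A → S k ι} (hc : ∑ a, c a * g a ∈ Fer m k ι)
    (d : ι → ℤ) : ∑ a, cmp d (c a) * g a ∈ Fer m k ι := by
  obtain ⟨M, x, h⟩ := exists_cyc (m := m) (grI_Fer (m := m) (k := k) (ι := ι)) le_rfl 0
  have h0 : M.π 0 x = x := by simpa using h.deg
  have h1 : ∀ a, M.π δ (g a • x) = g a • x := fun a => by
    have := M.π_smul (hg a) 0 x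
    rwa [zero_add, h0] at this
  have h2 := (h.ann _).2 hc
  refine (h.ann _).1 ?_
  have h3 := congrArg (M.π (d + δ)) h2
  rw [Finset.sum_smul, map_sum, map_zero] at h3
  rw [Finset.sum_smul, ← h3]
  refine Finset.sum_congr rfl fun a _ => ?_
  rw [mul_smul, mul_smul, M.π_smul_hom (h1 a)]

omit [Fintype ι] [DecidableEq A] in
theorem twA_gen (M : GM m k ι) {c : A → S k ι} (hc : ∑ a, c a * g a ∈ Fer m k ι) (x : M.M) :
    (fun a => c a • x) ∈ syz m g (Algebra.lsmul k k M.M) :=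
  Submodule.subset_span ⟨c, x, hc, rfl⟩

omit [Fintype ι] [DecidableEq A] in
theorem twA_ind (M : GM m k ι) {p : (A → M.M) → Prop}
    (h1 : ∀ (c : A → S k ι) (x : M.M), ∑ a, c a * g a ∈ Fer m k ι → p fun a => c a • x)
    (h0 : p 0) (h2 : ∀ ξ η, p ξ → p η → p (ξ + η)) {ξ : A → M.M}
    (h : ξ ∈ syz m g (Algebra.lsmul k k M.M)) : p ξ := by
  have key : ∀ r : k, p (r • ξ) := by
    induction h using Submodule.span_induction with
    | mem ξ hξ =>
      obtain ⟨c, x, hc, rfl⟩ := hξ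
      intro r
      have e : (r • fun a => (Algebra.lsmul k k M.M (c a)) x) = fun a => c a • (r • x) := by
        funext a
        change r • (c a • x) = c a • (r • x)
        rw [← M.C_smul, ← M.C_smul, ← mul_smul, ← mul_smul, mul_comm]
      rw [e]
      exact h1 c _ hc
    | zero => intro r; rw [smul_zero]; exact h0
    | add ξ η _ _ a b => intro r; rw [smul_add]; exact h2 _ _ (a r) (b r)
    | smul r' ξ _ a => intro r; rw [smul_smul]; exact a _
  simpa using key 1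

/-- the relations as a module over the polynomial ring -/
def twAW (g : A → S k ι) (M : GM m k ι) : Submodule (S k ι) (A → M.M) where
  carrier := syz m g (Algebra.lsmul k k M.M)
  add_mem' := fun a b => Submodule.add_mem _ a b
  zero_mem' := Submodule.zero_mem _
  smul_mem' := fun s ξ h => by
    refine twA_ind (g := g) M (p := fun ξ => s • ξ ∈ syz m g (Algebra.lsmul k k M.M))
      (fun c x hc => ?_) (by rw [smul_zero]; exact Submodule.zero_mem _)
      (fun ξ η a b => by rw [smul_add]; exact Submodule.add_mem _ a b) h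
    have e : (s • fun a => c a • x) = fun a => c a • (s • x) := by
      funext a
      rw [Pi.smul_apply, smul_comm]
    rw [e]
    exact twA_gen M hc _

omit [DecidableEq A] in
theorem twA_gr (hg : ∀ a, Hg (g a) δ) (M : GM m k ι) :
    Gr ((M.sh (-δ)).pw A) (twAW g M) := by
  intro d ξ h
  refine twA_ind (g := g) M
    (p := fun ξ => (fun a => M.π (d + -δ) (ξ a)) ∈ syz m g (Algebra.lsmul k k M.M))
    (fun c x hc => ?_) ?_ (fun ξ η a b => ?_) h
  · obtain ⟨s, hs⟩ := M.sum_π x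
    have e : (fun a => M.π (d + -δ) (c a • x)) =
        ∑ e ∈ s, fun a => cmp (d + -δ - e) (c a) • M.π e x := by
      funext a
      rw [Finset.sum_apply]
      conv_lhs => rw [← hs, Finset.smul_sum, map_sum]
      refine Finset.sum_congr rfl fun e _ => ?_
      rw [← M.π_smul_hom (M.π_self e x), sub_add_cancel]
    rw [e]
    exact Submodule.sum_mem _ fun e _ => twA_gen M (twA_cmp_syz hg hc _) _
  · simp only [Pi.zero_apply, map_zero]
    exact Submodule.zero_mem _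
  · simp only [Pi.add_apply, map_add]
    exact Submodule.add_mem _ a b

/-- the standard model -/
theorem exists_isL (hm : (m : k) ≠ 0) (hg : Inv m g δ) (M : GM m k ι) :
    ∃ (T : GM m k ι) (p : (A → M.M) →ₗ[S k ι] T.M), IsL g δ M T p ∧
      (∀ ξ, p ξ = 0 ↔ ξ ∈ syz m g (Algebra.lsmul k k M.M)) ∧
      ∀ u, Prp m u g → (∀ ξ, p ξ = 0 → ∑ a, u a • ξ a = 0) ∧
        ∀ a b x, p (Pi.single a (u b • x)) = p (Pi.single b (u a • x)) := by
  have hk : ∀ ξ : A → M.M, (twAW g M).mkQ ξ = 0 ↔ ξ ∈ syz m g (Algebra.lsmul k k M.M) :=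
    fun ξ => Submodule.Quotient.mk_eq_zero _
  have hu : ∀ u, Prp m u g → (∀ ξ : A → M.M, (twAW g M).mkQ ξ = 0 → ∑ a, u a • ξ a = 0) ∧
      ∀ a b (x : M.M), (twAW g M).mkQ (Pi.single a (u b • x)) =
        (twAW g M).mkQ (Pi.single b (u a • x)) := by
    intro u hu
    refine ⟨fun ξ h => ?_, fun a b x => ?_⟩
    · refine twA_ind (g := g) M (p := fun ξ => ∑ a, u a • ξ a = 0) (fun c x hc => ?_) (by simp)
        (fun ξ η a b => ?_) ((hk ξ).1 h)
      · have := GM.mem_ann.1 (M.Fer_le_ann (hu.kills hm hg hc)) x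
        rw [Finset.sum_smul] at this
        rw [← this]
        exact Finset.sum_congr rfl fun a _ => by rw [mul_comm, mul_smul]
      · simp only [Pi.add_apply, smul_add, Finset.sum_add_distrib, a, b, add_zero]
    · rw [← sub_eq_zero, ← map_sub, hk]
      have hc : ∑ a', ((Pi.single a (u b) - Pi.single b (u a) : A → S k ι) a') * g a' ∈
          Fer m k ι := by
        simp only [Pi.sub_apply, sub_mul, Finset.sum_sub_distrib, Pi.single_apply, ite_mul,
          zero_mul, Finset.sum_ite_eq', Finset.mem_univ, if_true]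
        exact hu b a
      have e : (Pi.single a (u b • x) - Pi.single b (u a • x) : A → M.M) = fun a' =>
          ((Pi.single a (u b) - Pi.single b (u a) : A → S k ι) a') • x := by
        funext a'
        simp only [Pi.sub_apply, sub_smul, Pi.single_apply, ite_smul, zero_smul]
      rw [e]
      exact twA_gen M hc x
  refine ⟨((M.sh (-δ)).pw A).quo (twAW g M) (twA_gr hg.hom M), (twAW g M).mkQ,
    ⟨(twAW g M).mkQ_surjective, fun d ξ => ?_, {u | Prp m u g}, hg.suff,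
      fun u h => ⟨h, hu u h⟩⟩, hk, hu⟩
  rw [sub_eq_add_neg]
  rfl

omit [Fintype ι] in
/-- the key identity -/
theorem twA_key {V W : Type} [AddCommGroup V] [Module (S k ι) V] [AddCommGroup W]
    [Module (S k ι) W] (p : (A → V) →ₗ[S k ι] W) {u : A → S k ι}
    (h : ∀ a b x, p (Pi.single a (u b • x)) = p (Pi.single b (u a • x))) (b : A) (ξ : A → V) :
    u b • p ξ = p (Pi.single b (∑ a, u a • ξ a)) := by
  have e : (Pi.single b (∑ a, u a • ξ a) : A → V) = ∑ a, Pi.single b (u a • ξ a) :=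
    map_sum (LinearMap.single (S k ι) (fun _ : A => V) b) _ _
  rw [e, map_sum]
  conv_lhs => rw [← Finset.univ_sum_single ξ, ← map_smul, Finset.smul_sum, map_sum]
  refine Finset.sum_congr rfl fun a _ => ?_
  rw [← h, Pi.single_smul']

omit [Fintype ι] in
/-- descent of a graded map along a surjection -/
theorem twA_desc {P T Q : GM m k ι} (p : Hom P T) (hp : Function.Surjective p.f) (q : Hom P Q)
    (h : ∀ ξ, p.f ξ = 0 → q.f ξ = 0) : ∃ r : Hom T Q, ∀ ξ, r.f (p.f ξ) = q.f ξ := by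
  let r : T.M →ₗ[S k ι] Q.M := (LinearMap.ker p.f).liftQ q.f (fun ξ hξ => h ξ hξ) ∘ₗ
    (p.f.quotKerEquivOfSurjective hp).symm.toLinearMap
  have hr : ∀ ξ, r (p.f ξ) = q.f ξ := fun ξ => by
    have e : (p.f.quotKerEquivOfSurjective hp).symm (p.f ξ) = Submodule.Quotient.mk ξ := by
      rw [LinearEquiv.symm_apply_eq]
      rfl
    simp only [r, LinearMap.comp_apply, LinearEquiv.coe_coe, e]
    exact Submodule.liftQ_apply _ _ _
  refine ⟨⟨r, fun d y => ?_⟩, hr⟩
  obtain ⟨ξ, rfl⟩ := hp y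
  rw [← p.π, hr, hr, q.π]

theorem twA_half {P T T' : GM m k ι} (p : Hom P T) (hp : Function.Surjective p.f) (p' : Hom P T')
    {J : Ideal (S k ι)} (hJ : Irr J) (h : ∀ s ∈ J, ∀ ξ, p'.f ξ = 0 → s • p.f ξ = 0) :
    cls T = cls (P.quo _ (p.gr_ker.sup p'.gr_ker)) := by
  obtain ⟨r, hr⟩ := twA_desc p hp (P.quop _ (p.gr_ker.sup p'.gr_ker)) fun ξ hξ =>
    (Submodule.Quotient.mk_eq_zero _).2 (Submodule.mem_sup_left hξ)
  refine cls_eq_of_irr r hJ (fun s hs y hy => ?_) fun s _ y => ?_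
  · obtain ⟨ξ, rfl⟩ := hp y
    rw [hr] at hy
    obtain ⟨a, ha, b, hb, rfl⟩ := Submodule.mem_sup.1 ((Submodule.Quotient.mk_eq_zero _).1 hy)
    rw [map_add, LinearMap.mem_ker.1 ha, zero_add]
    exact h s hs b hb
  · obtain ⟨ξ, hξ⟩ := Submodule.mkQ_surjective _ (s • y)
    exact ⟨p.f ξ, (hr ξ).trans hξ⟩

theorem twA_cmp {P T T' : GM m k ι} (p : Hom P T) (hp : Function.Surjective p.f) (p' : Hom P T')
    (hp' : Function.Surjective p'.f) {J : Ideal (S k ι)} (hJ : Irr J)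
    (h : ∀ s ∈ J, ∀ ξ, p'.f ξ = 0 → s • p.f ξ = 0)
    (h' : ∀ s ∈ J, ∀ ξ, p.f ξ = 0 → s • p'.f ξ = 0) : cls T = cls T' := by
  rw [twA_half p hp p' hJ h, twA_half p' hp' p hJ h']
  have : ∀ (W W' : Submodule (S k ι) P.M) (a : Gr P W) (b : Gr P W'), W = W' →
      cls (P.quo W a) = cls (P.quo W' b) := by
    rintro W _ a b rfl
    rfl
  exact this _ _ _ _ (sup_comm _ _)

/-- the presentation as a graded map -/
def IsL.twAHom {M T : GM m k ι} {p : (A → M.M) →ₗ[S k ι] T.M} (h : IsL g δ M T p) :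
    Hom ((M.sh (-δ)).pw A) T :=
  ⟨p, fun d ξ => by
    refine Eq.trans ?_ (h.π d ξ).symm
    rw [sub_eq_add_neg]
    rfl⟩

omit [Fintype ι] [Fintype A] [DecidableEq A] in
theorem twA_ann {T : GM m k ι} {U : Set (A → S k ι)} {y : T.M} (h : ∀ u ∈ U, ∀ b, u b • y = 0) :
    ∀ s ∈ Ideal.span {f | ∃ u ∈ U, ∃ a, f = u a} ⊔ Fer m k ι, s • y = 0 := by
  have : Ideal.span {f | ∃ u ∈ U, ∃ a, f = u a} ⊔ Fer m k ι ≤
      LinearMap.ker (LinearMap.toSpanSingleton (S k ι) T.M y) := by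
    refine sup_le (Ideal.span_le.2 ?_) fun s hs => GM.mem_ann.1 (T.Fer_le_ann hs) y
    rintro _ ⟨u, hu, a, rfl⟩
    exact h u hu a
  exact fun s hs => this hs

/-- a graded map on powers -/
def Hom.twAPw {M N : GM m k ι} (f : Hom M N) (A : Type) [Finite A] (δ : ι → ℤ) :
    Hom ((M.sh (-δ)).pw A) ((N.sh (-δ)).pw A) :=
  ⟨f.f.compLeft A, fun d ξ => funext fun a => f.π (d + -δ) (ξ a)⟩

omit [Fintype ι] [DecidableEq A] in
theorem twA_map {M N : GM m k ι} (f : Hom M N) {ξ : A → M.M}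
    (h : ξ ∈ syz m g (Algebra.lsmul k k M.M)) :
    (fun a => f.f (ξ a)) ∈ syz m g (Algebra.lsmul k k N.M) := by
  refine twA_ind (g := g) M (p := fun ξ => (fun a => f.f (ξ a)) ∈ syz m g (Algebra.lsmul k k N.M))
    (fun c x hc => ?_) ?_ (fun ξ η a b => ?_) h
  · simp only [map_smul]
    exact twA_gen N hc _
  · simp only [Pi.zero_apply, map_zero]
    exact Submodule.zero_mem _
  · simp only [Pi.add_apply, map_add]
    exact Submodule.add_mem _ a b

omit [Fintype ι] [DecidableEq A] in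
theorem twA_lift {M N : GM m k ι} (f : Hom M N) (hf : Function.Surjective f.f) {η : A → N.M}
    (h : η ∈ syz m g (Algebra.lsmul k k N.M)) :
    ∃ ξ ∈ syz m g (Algebra.lsmul k k M.M), ∀ a, f.f (ξ a) = η a := by
  refine twA_ind (g := g) N
    (p := fun η => ∃ ξ ∈ syz m g (Algebra.lsmul k k M.M), ∀ a, f.f (ξ a) = η a)
    (fun c x hc => ?_) ⟨0, Submodule.zero_mem _, fun a => map_zero _⟩ ?_ h
  · obtain ⟨y, rfl⟩ := hf x
    exact ⟨_, twA_gen M hc y, fun a => map_smul _ _ _⟩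
  · rintro _ _ ⟨ξ, a, a'⟩ ⟨ξ', b, b'⟩
    exact ⟨ξ + ξ', Submodule.add_mem _ a b, fun i => by
      rw [Pi.add_apply, map_add, a', b', Pi.add_apply]⟩

theorem exists_Lg (m : ℕ) (g : A → S k ι) (δ : ι → ℤ) : ∃ F : Module.End ℂ (G m k ι),
    (¬ ((m : k) ≠ 0 ∧ Inv m g δ) → F = 0) ∧ ((m : k) ≠ 0 → Inv m g δ →
      ∀ M T p, IsL g δ M T p → F (cls M) = cls T) := by
  by_cases H : (m : k) ≠ 0 ∧ Inv m g δ
  swap
  · exact ⟨0, fun _ => rfl, fun a b => (H ⟨a, b⟩).elim⟩
  obtain ⟨hm, hg⟩ := H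
  choose T p hL hk hu using fun M : GM m k ι => exists_isL hm hg M
  have hmap : ∀ (M N : GM m k ι) (f : Hom M N), ∃ r : Hom (T M) (T N),
      ∀ ξ, r.f (p M ξ) = p N fun a => f.f (ξ a) := fun M N f =>
    twA_desc (hL M).twAHom (hL M).surj ((hL N).twAHom.comp (f.twAPw A δ)) fun ξ hξ =>
      (hk N _).2 (twA_map f ((hk M ξ).1 hξ))
  obtain ⟨F, hF⟩ := exists_lift (fun M : GM m k ι => cls (T M)) (fun M N P f f' h => by
    obtain ⟨r, hr⟩ := hmap M N f
    obtain ⟨r', hr'⟩ := hmap N P f'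
    refine cls_rex r r' (fun z => ?_) (fun y => ?_) hg.suff fun s hs x hx => ?_
    · obtain ⟨ζ, rfl⟩ := (hL P).surj z
      choose η hη using fun a => h.2.1 (ζ a)
      exact ⟨p N η, by rw [hr', funext hη]⟩
    · obtain ⟨η, rfl⟩ := (hL N).surj y
      constructor
      · intro h0
        rw [hr'] at h0
        obtain ⟨η', a, b⟩ := twA_lift f' h.2.1 ((hk P _).1 h0)
        choose ξ hξ using fun i => (h.2.2 (η i - η' i)).1 (by rw [map_sub, b, sub_self])
        refine ⟨p M ξ, ?_⟩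
        rw [hr, funext hξ]
        change p N (η - η') = _
        rw [map_sub, (hk N _).2 a, sub_zero]
      · rintro ⟨x, hx⟩
        obtain ⟨ξ, rfl⟩ := (hL M).surj x
        rw [← hx, hr, hr']
        have : (fun a => f'.f (f.f (ξ a))) = 0 := funext fun a => h.2.2.apply_apply_eq_zero _
        rw [this, map_zero]
    · obtain ⟨ξ, rfl⟩ := (hL M).surj x
      refine twA_ann (fun u hu' b => ?_) s hs
      rw [hr] at hx
      have h1 := (hu N u hu').1 _ hx
      have h2 : ∑ a, u a • ξ a = 0 := h.1 (by simpa only [map_sum, map_smul, map_zero] using h1)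
      rw [twA_key (p M) (hu M u hu').2, h2, Pi.single_zero, map_zero]) (fun M hM => by
    obtain ⟨d0, hd⟩ := hM
    refine cls_tors ⟨d0 + δ, fun d h => LinearMap.ext fun y => ?_⟩
    obtain ⟨ξ, rfl⟩ := (hL M).surj y
    rw [(hL M).π, hd _ (le_sub_iff_add_le.2 h)]
    exact map_zero _)
  refine ⟨F, fun h => (h ⟨hm, hg⟩).elim, fun _ _ M T' p' h' => ?_⟩
  rw [hF]
  obtain ⟨U, hU, hU'⟩ := h'.ker
  refine twA_cmp (hL M).twAHom (hL M).surj h'.twAHom h'.surj hU (fun s hs ξ hξ => ?_)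
    fun s hs ξ hξ => ?_
  · refine twA_ann (fun u hu' b => ?_) s hs
    refine (twA_key (p M) (hu M u (hU' u hu').1).2 b ξ).trans ?_
    rw [(hU' u hu').2.1 ξ hξ, Pi.single_zero, map_zero]
  · refine twA_ann (fun u hu' b => ?_) s hs
    refine (twA_key p' (hU' u hu').2.2 b ξ).trans ?_
    rw [(hu M u (hU' u hu').1).1 ξ hξ, Pi.single_zero, map_zero]

/-- the twist on classes -/
def Lg (m : ℕ) (g : A → S k ι) (δ : ι → ℤ) : Module.End ℂ (G m k ι) := (exists_Lg m g δ).choose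

theorem Lg_of_not (h : ¬ Inv m g δ) : Lg m g δ = 0 :=
  (exists_Lg m g δ).choose_spec.1 fun h' => h h'.2

theorem IsL.Lg_cls (hm : (m : k) ≠ 0) (hg : Inv m g δ) {M T : GM m k ι}
    {p : (A → M.M) →ₗ[S k ι] T.M} (h : IsL g δ M T p) : Lg m g δ (cls M) = cls T :=
  (exists_Lg m g δ).choose_spec.2 hm hg M T p h

/-- restriction to the divisor -/
theorem L2 (hm : (m : k) ≠ 0) (hg : Inv m g δ) (M : GM m k ι) :
    ∃ (Q K : GM m k ι) (p : Hom M Q), Function.Surjective p.f ∧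
      (∀ x, p.f x = 0 ↔ x ∈ Ideal.span (Set.range g) • (⊤ : Submodule (S k ι) M.M)) ∧
      cls M - Lg m g δ (cls M) = cls Q - cls K ∧ M.ann ⊔ Ideal.span (Set.range g) ≤ K.ann ∧
      ∀ s : S k ι, (∀ y : M.M, (∀ b, g b • y = 0) → s • y = 0) →
        ∀ u, Prp m u g → ∀ b, s * u b ∈ K.ann := by
  obtain ⟨T, p, hL, -, hu⟩ := exists_isL hm hg M
  have hgg : Prp m g g := fun a b => by rw [mul_comm, sub_self]; exact Ideal.zero_mem _
  let e0 : (A → M.M) →ₗ[S k ι] M.M := ∑ a, g a • LinearMap.proj a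
  have h0 : ∀ ξ : A → M.M, e0 ξ = ∑ a, g a • ξ a := fun ξ => by
    simp only [e0, LinearMap.sum_apply, LinearMap.smul_apply, LinearMap.proj_apply]
  have h0' : ∀ d (ξ : A → M.M), e0 (fun a => M.π (d + -δ) (ξ a)) = M.π d (e0 ξ) := fun d ξ => by
    rw [h0, h0, map_sum]
    refine Finset.sum_congr rfl fun a _ => ?_
    have := M.π_smul (hg.hom a) (d + -δ) (ξ a)
    rw [neg_add_cancel_right] at this
    exact this.symm
  obtain ⟨ev, hev⟩ := twA_desc hL.twAHom hL.surj (⟨e0, h0'⟩ : Hom ((M.sh (-δ)).pw A) M)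
    fun ξ hξ => (h0 ξ).trans ((hu g hgg).1 ξ hξ)
  have hev' : ∀ ξ, ev.f (p ξ) = ∑ a, g a • ξ a := fun ξ => (hev ξ).trans (h0 ξ)
  have hr : LinearMap.range ev.f = Ideal.span (Set.range g) • ⊤ := by
    refine le_antisymm ?_ (Submodule.smul_le.2 fun r hr x _ => ?_)
    · rintro _ ⟨y, rfl⟩
      obtain ⟨ξ, rfl⟩ := hL.surj y
      rw [hev']
      exact Submodule.sum_mem _ fun a _ =>
        Submodule.smul_mem_smul (Ideal.subset_span ⟨a, rfl⟩) Submodule.mem_top
    · obtain ⟨c, rfl⟩ := Ideal.mem_span_range_iff_exists_fun.1 hr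
      refine ⟨p fun a => c a • x, ?_⟩
      rw [hev', Finset.sum_smul]
      exact Finset.sum_congr rfl fun a _ => by rw [mul_comm, mul_smul]
  refine ⟨M.quo _ ev.gr_range, T.sub _ ev.gr_ker, M.quop _ ev.gr_range,
    Submodule.mkQ_surjective _, fun x => ?_, ?_, sup_le (fun s hs => ?_) (Ideal.span_le.2 ?_),
    fun s hs u hu' b => ?_⟩
  · rw [← hr]
    exact Submodule.Quotient.mk_eq_zero _
  · rw [hL.Lg_cls hm hg]
    have := cls_ker_coker ev
    rw [sub_eq_sub_iff_add_eq_add] at this ⊢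
    rw [← this, add_comm]
  · refine GM.mem_ann.2 fun y => Subtype.ext ?_
    obtain ⟨ξ, hξ⟩ := hL.surj y.1
    change s • y.1 = 0
    have : s • ξ = 0 := funext fun a => GM.mem_ann.1 hs (ξ a)
    rw [← hξ, ← map_smul, this, map_zero]
  · rintro _ ⟨b, rfl⟩
    refine GM.mem_ann.2 fun y => Subtype.ext ?_
    obtain ⟨ξ, hξ⟩ := hL.surj y.1
    change g b • y.1 = 0
    have hy : ev.f y.1 = 0 := y.2
    rw [← hξ, hev'] at hy
    rw [← hξ, twA_key p (hu g hgg).2, hy, Pi.single_zero, map_zero]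
  · refine GM.mem_ann.2 fun y => Subtype.ext ?_
    obtain ⟨ξ, hξ⟩ := hL.surj y.1
    change (s * u b) • y.1 = 0
    have hy : ev.f y.1 = 0 := y.2
    rw [← hξ, hev'] at hy
    have h1 : s • ∑ a, u a • ξ a = 0 := hs _ fun c => by
      have e : g c • ∑ a, u a • ξ a =
          ∑ a, (u a * g c - u c * g a) • ξ a + u c • ∑ a, g a • ξ a := by
        rw [Finset.smul_sum, Finset.smul_sum, ← Finset.sum_add_distrib]
        refine Finset.sum_congr rfl fun a _ => ?_
        rw [smul_smul, smul_smul, ← add_smul, sub_add_cancel, mul_comm]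
      rw [e, hy, smul_zero, add_zero]
      exact Finset.sum_eq_zero fun a _ => GM.mem_ann.1 (M.Fer_le_ann (hu' a c)) _
    rw [← hξ, mul_smul, twA_key p (hu u hu').2, ← map_smul, ← Pi.single_smul', h1,
      Pi.single_zero, map_zero]

theorem L2_cy (hm : (m : k) ≠ 0) (hg : Inv m g δ) {J : Ideal (S k ι)} (hJ : GrI J)
    (hF : Fer m k ι ≤ J) (n : ι → ℤ) : ∃ K : GM m k ι,
      cy m J n - Lg m g δ (cy m J n) = cy m (J ⊔ Ideal.span (Set.range g)) n - cls K ∧
      J ⊔ Ideal.span (Set.range g) ≤ K.ann ∧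
      ∀ s : S k ι, (∀ y, (∀ b, g b * y ∈ J) → s * y ∈ J) →
        ∀ u, Prp m u g → ∀ b, s * u b ∈ K.ann := by
  obtain ⟨M, x, hx, e⟩ := exists_cy hJ hF n
  obtain ⟨Q, K, p, h1, h2, h3, h4, h5⟩ := L2 hm hg M
  refine ⟨K, ?_, by rwa [hx.ann_eq] at h4, fun s hs => h5 s fun y hy => ?_⟩
  · rw [e, h3, (hx.image p h1 h2).cls_eq]
  · obtain ⟨f, rfl⟩ := hx.gen y
    rw [smul_smul, hx.ann]
    exact hs f fun b => (hx.ann _).1 (by rw [mul_smul]; exact hy b)

end Pool.Agent.Tate
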