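import Pool.Agent.P.MP_2ce3e7_ag.Tw
import Pool.Agent.P.MP_2ce3e7_ag.Box

/-! Compatibility of the twist with pull-backs and products. -/

set_option autoImplicit false

noncomputable section

namespace Pool.Agent.Tate

open MvPolynomial TensorProduct

variable {m : ℕ} {k ι κ A : Type} [Field k] [Fintype ι] [Fintype κ] [Fintype A] [DecidableEq A]

omit [Fintype ι] [Fintype κ] [DecidableEq A] in
theorem twB_pull_pw {D : PD m k ι κ} {M : GM m k κ} {N : GM m k ι} {j : N.M →ₗ[k] M.M}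
    (hj : IsPull D M N j) {δ : ι → ℤ} {δ' : κ → ℤ} (c : A → k) (hc : ∀ a, c a ≠ 0)
    (hδ : ∀ e, D.val (e - δ) = D.val e - δ') :
    IsPull D ((M.sh (-δ')).pw A) ((N.sh (-δ)).pw A)
      (LinearMap.pi fun a => c a • (j ∘ₗ LinearMap.proj a) : (A → N.M) →ₗ[k] (A → M.M)) where
  inj := fun ξ ξ' h => funext fun a => hj.inj (smul_right_injective _ (hc a) (congrFun h a))
  smul f ξ := _root_.funext fun a =>
    (congrArg (fun y => c a • y) (hj.smul f (ξ a))).trans (smul_comm (c a) (D.φ f) (j (ξ a)))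
  π e ξ := funext fun a => by
    have key : ∀ y, c a • j (N.π (e + -δ) y) = M.π (D.val e + -δ') (c a • j y) := fun y => by
      rw [hj.π, ← sub_eq_add_neg, ← sub_eq_add_neg, hδ, map_smul]
    exact key (ξ a)
  surj e x := by
    choose y hy using fun a => hj.surj (e - δ) (x a)
    refine ⟨fun a => (c a)⁻¹ • y a, funext fun a => ?_⟩
    change c a • j ((c a)⁻¹ • y a) = M.π (D.val e + -δ') (x a)
    rw [map_smul, smul_inv_smul₀ (hc a), hy, hδ, sub_eq_add_neg]

theorem twB_ind {U V W : Type} [AddCommGroup U] [Module k U] [AddCommGroup V] [Module k V]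
    [AddCommGroup W] [Module k W] (j : U ⊗[k] V ≃ₗ[k] W) {q : W → Prop} (h0 : q 0)
    (h1 : ∀ x y, q (j (x ⊗ₜ y))) (h2 : ∀ x y, q x → q y → q (x + y)) (z : W) : q z := by
  obtain ⟨t, rfl⟩ := j.surjective z
  induction t using TensorProduct.induction_on with
  | zero => rwa [map_zero]
  | tmul x y => exact h1 x y
  | add x y hx hy => rw [map_add]; exact h2 _ _ hx hy

theorem twB_irr {f : ι → κ} (hf : Function.Injective f) {J : Ideal (S k ι)} (h : Irr J) :
    Irr (J.map (rn f)) := by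
  classical
  intro α
  obtain ⟨N, hN⟩ := h (α ∘ f)
  have h1 : rn f (mono k (α ∘ f)) ∣ mono k α := by
    have h2 : rn f (mono k (α ∘ f)) = ∏ l ∈ Finset.univ.image f, (X (l, α l) : S k κ) := by
      rw [Finset.prod_image fun a _ b _ e => hf e, mono, map_prod]
      exact Finset.prod_congr rfl fun i _ => rn_X f (i, α (f i))
    rw [h2]
    exact Finset.prod_dvd_prod_of_subset _ _ _ (Finset.subset_univ _)
  have h3 := Ideal.mem_map_of_mem (rn f) hN
  rw [map_pow] at h3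
  exact ⟨N, Ideal.mem_of_dvd _ (pow_dvd_pow_of_dvd h1 N) h3⟩

/-- the twist of a product with a vector space -/
theorem twB_box (hm : (m : k) ≠ 0) {g : A → S k ι} {δ : ι → ℤ} (hg : Inv m g δ) {f : ι → κ}
    (hf : Function.Injective f) {δ' : κ → ℤ} {M T : GM m k ι} {p : (A → M.M) →ₗ[S k ι] T.M}
    (hp : IsL g δ M T p)
    (hu : ∀ u, Prp m u g → (∀ ξ, p ξ = 0 → ∑ a, u a • ξ a = 0) ∧
      ∀ a b x, p (Pi.single a (u b • x)) = p (Pi.single b (u a • x)))
    {V : Type} [AddCommGroup V] [Module k V] {P Q : GM m k κ} (j : M.M ⊗[k] V ≃ₗ[k] P.M)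
    (j' : T.M ⊗[k] V ≃ₗ[k] Q.M) (h1 : ∀ (s : S k ι) x y, j ((s • x) ⊗ₜ y) = rn f s • j (x ⊗ₜ y))
    (h1' : ∀ (s : S k ι) x y, j' ((s • x) ⊗ₜ y) = rn f s • j' (x ⊗ₜ y))
    (h2 : ∀ v, (∃ s, (X v : S k κ) = rn f s) ∨ ∃ φ : V → V,
      (∀ x y, (X v : S k κ) • j (x ⊗ₜ y) = j (x ⊗ₜ φ y)) ∧
        ∀ x y, (X v : S k κ) • j' (x ⊗ₜ y) = j' (x ⊗ₜ φ y))
    (h3 : ∀ d : κ → ℤ, ∃ (e : ι → ℤ) (φ : V → V),
      (∀ x y, P.π (d - δ') (j (x ⊗ₜ y)) = j (M.π (e - δ) x ⊗ₜ φ y)) ∧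
        ∀ x y, Q.π d (j' (x ⊗ₜ y)) = j' (T.π e x ⊗ₜ φ y)) :
    ∃ q, IsL (fun a => rn f (g a)) δ' P Q q := by
  have _ := hm
  obtain ⟨Ψ, hΨ⟩ : ∃ Ψ : A → P.M →ₗ[k] Q.M,
      ∀ a x y, Ψ a (j (x ⊗ₜ y)) = j' (p (Pi.single a x) ⊗ₜ y) :=
    ⟨fun a => j'.toLinearMap ∘ₗ LinearMap.rTensor V
      (p.restrictScalars k ∘ₗ LinearMap.single k (fun _ => M.M) a) ∘ₗ j.symm.toLinearMap,
      fun a x y => by simp⟩
  have hs : ∀ a (s : S k κ) z, Ψ a (s • z) = s • Ψ a z := fun a =>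
    smul_of_X (AlgHom.id k (S k κ)) (Ψ a) fun v z => by
      rw [AlgHom.id_apply]
      induction z using twB_ind j with
      | h0 => simp
      | h2 x y hx hy => rw [smul_add, map_add, map_add, hx, hy, smul_add]
      | h1 x y =>
        rcases h2 v with ⟨s, e⟩ | ⟨φ, e, e'⟩
        · rw [e, ← h1, hΨ, hΨ, ← h1', Pi.single_smul, map_smul]
        · rw [e, hΨ, hΨ, e']
  obtain ⟨q, hq⟩ : ∃ q : (A → P.M) →ₗ[S k κ] Q.M, ∀ ξ, q ξ = ∑ a, Ψ a (ξ a) :=
    ⟨{ toFun := fun ξ => ∑ a, Ψ a (ξ a)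
       map_add' := fun ξ ξ' => by simp only [Pi.add_apply, map_add, Finset.sum_add_distrib]
       map_smul' := fun s ξ => by
         simp only [Pi.smul_apply, hs, RingHom.id_apply, Finset.smul_sum] }, fun _ => rfl⟩
  have hq1 : ∀ a z, q (Pi.single a z) = Ψ a z := fun a z => by
    rw [hq, Finset.sum_eq_single a (fun b _ hb => by rw [Pi.single_eq_of_ne hb, map_zero])
      fun h => absurd (Finset.mem_univ a) h, Pi.single_eq_same]
  refine ⟨q, fun z => ?_, fun d ξ => ?_,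
    (fun u a => rn f (u a)) '' {u | Prp m u g}, ?_, ?_⟩
  · induction z using twB_ind j' with
    | h0 => exact ⟨0, map_zero _⟩
    | h2 x y hx hy =>
      obtain ⟨x, rfl⟩ := hx
      obtain ⟨y, rfl⟩ := hy
      exact ⟨x + y, map_add _ _ _⟩
    | h1 x y =>
      obtain ⟨ξ, rfl⟩ := hp.surj x
      refine ⟨fun a => j (ξ a ⊗ₜ y), ?_⟩
      simp only [hq, hΨ]
      rw [← map_sum, ← sum_tmul, ← map_sum, Finset.univ_sum_single]
  · obtain ⟨e, φ, e1, e2⟩ := h3 d
    rw [hq, hq, map_sum]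
    refine Finset.sum_congr rfl fun a _ => ?_
    generalize ξ a = z
    induction z using twB_ind j with
    | h0 => simp
    | h2 x y hx hy => simp only [map_add, hx, hy]
    | h1 x y =>
      rw [e1, hΨ, hΨ, e2, hp.π]
      congr 3
      funext b
      exact Pi.apply_single (fun _ => M.π (e - δ)) (fun _ => map_zero _) a x b
  · refine (twB_irr hf hg.suff).mono ?_
    rw [Ideal.map_sup, Ideal.map_span]
    refine sup_le_sup (Ideal.span_mono ?_) (Ideal.map_le_iff_le_comap.2 fun s hs => rn_mem_Fer f hs)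
    rintro _ ⟨_, ⟨u, hu, a, rfl⟩, rfl⟩
    exact ⟨_, ⟨u, hu, rfl⟩, a, rfl⟩
  · rintro _ ⟨u, hu', rfl⟩
    obtain ⟨k1, k2⟩ := hu u hu'
    refine ⟨fun a b => ?_, fun ξ hξ => ?_, fun a b z => ?_⟩
    · have := rn_mem_Fer f (hu' a b)
      rwa [map_sub, map_mul, map_mul] at this
    · obtain ⟨σ, hσ⟩ := (p.restrictScalars k).exists_rightInverse_of_surjective
        (LinearMap.range_eq_top.2 hp.surj)
      obtain ⟨w, hw⟩ : ∃ w : (A → M.M) →ₗ[S k ι] M.M, ∀ η, w η = ∑ a, u a • η a :=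
        ⟨∑ a, u a • LinearMap.proj a, fun η => by simp⟩
      have hw1 : ∀ a x, w (σ (p (Pi.single a x))) = u a • x := fun a x => by
        have e : p (σ (p (Pi.single a x)) - Pi.single a x) = 0 := by
          rw [map_sub, sub_eq_zero]
          exact LinearMap.congr_fun hσ _
        have e' := k1 _ e
        rw [← hw, map_sub, sub_eq_zero] at e'
        rw [e', hw, Finset.sum_eq_single a
          (fun b _ hb => by rw [Pi.single_eq_of_ne hb, smul_zero])
          fun h => absurd (Finset.mem_univ a) h, Pi.single_eq_same]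
      obtain ⟨Θ, hΘ⟩ : ∃ Θ : Q.M →ₗ[k] P.M, ∀ x y, Θ (j' (x ⊗ₜ y)) = j (w (σ x) ⊗ₜ y) :=
        ⟨j.toLinearMap ∘ₗ LinearMap.rTensor V (w.restrictScalars k ∘ₗ σ) ∘ₗ j'.symm.toLinearMap,
          fun x y => by simp⟩
      have e := congrArg Θ hξ
      rw [map_zero, hq, map_sum] at e
      rw [← e]
      refine Finset.sum_congr rfl fun a _ => ?_
      generalize ξ a = z
      induction z using twB_ind j with
      | h0 => simp
      | h2 x y hx hy => simp only [map_add, smul_add, hx, hy]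
      | h1 x y => rw [hΨ, hΘ, hw1, h1]
    · rw [hq1, hq1]
      induction z using twB_ind j with
      | h0 => simp
      | h2 x y hx hy => simp only [map_add, smul_add, hx, hy]
      | h1 x y => rw [← h1, ← h1, hΨ, hΨ, k2]

omit [Fintype ι] [Fintype κ] in
theorem twB_inl {M : GM m k ι} {N : GM m k κ} {P : GM m k (ι ⊕ κ)}
    {j : M.M ⊗[k] N.M ≃ₗ[k] P.M} (h : IsBox M N P j) (s : S k ι) (x : M.M) (y : N.M) :
    j ((s • x) ⊗ₜ y) = (rn Sum.inl s : S k (ι ⊕ κ)) • j (x ⊗ₜ y) := by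
  rw [← h.smul, boxHom_inl]

omit [Fintype ι] [Fintype κ] in
theorem twB_inr {M : GM m k ι} {N : GM m k κ} {P : GM m k (ι ⊕ κ)}
    {j : M.M ⊗[k] N.M ≃ₗ[k] P.M} (h : IsBox M N P j) (s : S k κ) (x : M.M) (y : N.M) :
    j (x ⊗ₜ (s • y)) = (rn Sum.inr s : S k (ι ⊕ κ)) • j (x ⊗ₜ y) := by
  rw [← h.smul, boxHom_inr]

theorem Lg_pull (hm : (m : k) ≠ 0) {D : PD m k ι κ} (hs : Function.Surjective D.τ)
    {g : A → S k ι} {δ : ι → ℤ} {g' : A → S k κ} {δ' : κ → ℤ} (hg : Inv m g δ)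
    (hg' : Inv m g' δ') (c : A → k) (hc : ∀ a, c a ≠ 0) (h : ∀ a, D.φ (g a) = C (c a) * g' a)
    (hδ : ∀ e, D.val (e - δ) = D.val e - δ') (x : G m k κ) :
    Lg m g δ (pullG D x) = pullG D (Lg m g' δ' x) := by
  suffices H : Lg m g δ ∘ₗ pullG D = pullG D ∘ₗ Lg m g' δ' from LinearMap.congr_fun H x
  refine G.ext fun M => ?_
  obtain ⟨T', p', hp', -, hu'⟩ := exists_isL hm hg' M
  obtain ⟨N, j, hj⟩ := exists_isPull D M
  obtain ⟨T, j', hj'⟩ := exists_isPull D T'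
  obtain ⟨q, hq, hq', -⟩ := (twB_pull_pw hj c hc hδ).exists_hom hj'
    ⟨p', fun d ξ => by
      have key := hp'.π d ξ
      rw [sub_eq_add_neg] at key
      exact key.symm⟩
  obtain ⟨p, hp, hp1, hp2⟩ : ∃ p : (A → N.M) →ₗ[S k ι] T.M, Function.Surjective p ∧
      (∀ d ξ, T.π d (p ξ) = p fun a => N.π (d - δ) (ξ a)) ∧
      ∀ ξ, j' (p ξ) = p' fun a => c a • j (ξ a) :=
    ⟨q.f, hq' hp'.surj, fun d ξ => by
      rw [sub_eq_add_neg]
      exact (q.π d ξ).symm, hq⟩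
  have hL : IsL g δ N T p := by
    refine ⟨hp, hp1, {u | Prp m u g}, hg.suff, fun u hu => ⟨hu, ?_⟩⟩
    have hcc : ∀ a, (C (c a)⁻¹ : S k κ) * C (c a) = 1 := fun a => by
      rw [← map_mul, inv_mul_cancel₀ (hc a), map_one]
    have hP : Prp m (fun a => C (c a)⁻¹ * D.φ (u a)) g' := fun a b => by
      have e := Ideal.mul_mem_left _ (C (c a)⁻¹ * C (c b)⁻¹) (D.φ_mem_Fer (hu a b))
      rw [map_sub, map_mul D.φ, map_mul D.φ, h, h] at e
      have e' : C (c a)⁻¹ * D.φ (u a) * g' b - C (c b)⁻¹ * D.φ (u b) * g' a =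
          C (c a)⁻¹ * C (c b)⁻¹ *
            (D.φ (u a) * (C (c b) * g' b) - D.φ (u b) * (C (c a) * g' a)) := by
        linear_combination (-(C (c a)⁻¹ * D.φ (u a) * g' b)) * hcc b +
          (C (c b)⁻¹ * D.φ (u b) * g' a) * hcc a
      rwa [← e'] at e
    obtain ⟨k1, k2⟩ := hu' _ hP
    have hsm : ∀ a (y : M.M), (C (c a)⁻¹ * D.φ (u a)) • c a • y = D.φ (u a) • y := fun a y => by
      rw [mul_smul, M.C_smul, smul_comm (D.φ (u a)), inv_smul_smul₀ (hc a)]
    refine ⟨fun ξ hξ => hj.inj ?_, fun a b y => hj'.inj ?_⟩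
    · have e := k1 _ ((hp2 ξ).symm.trans (by rw [hξ, map_zero]))
      simp only [hsm] at e
      simp only [map_sum, hj.smul, map_zero]
      exact e
    · have key : ∀ a b, (fun a' => c a' • j ((Pi.single a (u b • y) : A → N.M) a')) =
          Pi.single a ((C (c b)⁻¹ * D.φ (u b)) • c b • c a • j y) := fun a b => by
        funext a'
        rcases eq_or_ne a' a with rfl | e
        · rw [Pi.single_eq_same, Pi.single_eq_same, hsm, hj.smul, smul_comm]
        · rw [Pi.single_eq_of_ne e, Pi.single_eq_of_ne e, map_zero, smul_zero]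
      rw [hp2, hp2, key, key, k2, smul_comm (c a) (c b)]
  rw [LinearMap.comp_apply, LinearMap.comp_apply, hj.pullG_cls hs, hL.Lg_cls hm hg,
    hp'.Lg_cls hm hg', hj'.pullG_cls hs]

theorem Lg_box_left (hm : (m : k) ≠ 0) {g : A → S k ι} {δ : ι → ℤ} (hg : Inv m g δ)
    (hg' : Inv m (fun a => (rn Sum.inl (g a) : S k (ι ⊕ κ))) (Sum.elim δ 0)) (x : G m k ι)
    (y : G m k κ) :
    Lg m (fun a => (rn Sum.inl (g a) : S k (ι ⊕ κ))) (Sum.elim δ 0) (boxG x y) =
      boxG (Lg m g δ x) y := by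
  induction x using G.ind with
  | h0 => simp
  | h2 x x' hx hx' => simp only [map_add, LinearMap.add_apply, hx, hx']
  | h3 c x hx => simp only [map_smul, LinearMap.smul_apply, hx]
  | h1 M =>
  induction y using G.ind with
  | h0 => simp
  | h2 y y' hy hy' => simp only [map_add, hy, hy']
  | h3 c y hy => simp only [map_smul, hy]
  | h1 N =>
  obtain ⟨T, p, hp, -, hu⟩ := exists_isL hm hg M
  obtain ⟨P, j, hj⟩ := exists_isBox M N
  obtain ⟨Q, j', hj'⟩ := exists_isBox T N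
  obtain ⟨q, hq⟩ := twB_box hm hg Sum.inl_injective (δ' := Sum.elim δ 0) hp hu j j' (twB_inl hj)
    (twB_inl hj') (by
      rintro ⟨i | i, a⟩
      · exact Or.inl ⟨X (i, a), (rn_X Sum.inl (i, a)).symm⟩
      · refine Or.inr ⟨fun y => (X (i, a) : S k κ) • y, fun x y => ?_, fun x y => ?_⟩
        · rw [twB_inr hj, rn_X]
        · rw [twB_inr hj', rn_X]) (fun d => by
      refine ⟨d ∘ Sum.inl, N.π (d ∘ Sum.inr), fun x y => ?_, fun x y => ?_⟩
      · have e : (d - Sum.elim δ 0) ∘ Sum.inr = d ∘ Sum.inr := funext fun i => sub_zero _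
        rw [hj.π, e]
        rfl
      · rw [hj'.π]
        rfl)
  rw [hj.boxG_cls, hq.Lg_cls hm hg', hp.Lg_cls hm hg, hj'.boxG_cls]

theorem Lg_box_right (hm : (m : k) ≠ 0) {g : A → S k κ} {δ : κ → ℤ} (hg : Inv m g δ)
    (hg' : Inv m (fun a => (rn Sum.inr (g a) : S k (ι ⊕ κ))) (Sum.elim 0 δ)) (x : G m k ι)
    (y : G m k κ) :
    Lg m (fun a => (rn Sum.inr (g a) : S k (ι ⊕ κ))) (Sum.elim 0 δ) (boxG x y) =
      boxG x (Lg m g δ y) := by
  induction x using G.ind with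
  | h0 => simp
  | h2 x x' hx hx' => simp only [map_add, LinearMap.add_apply, hx, hx']
  | h3 c x hx => simp only [map_smul, LinearMap.smul_apply, hx]
  | h1 N =>
  induction y using G.ind with
  | h0 => simp
  | h2 y y' hy hy' => simp only [map_add, hy, hy']
  | h3 c y hy => simp only [map_smul, hy]
  | h1 M =>
  obtain ⟨T, p, hp, -, hu⟩ := exists_isL hm hg M
  obtain ⟨P, j, hj⟩ := exists_isBox N M
  obtain ⟨Q, j', hj'⟩ := exists_isBox N T
  obtain ⟨q, hq⟩ := twB_box hm hg Sum.inr_injective (δ' := Sum.elim 0 δ) hp hu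
    ((TensorProduct.comm k _ _).trans j) ((TensorProduct.comm k _ _).trans j')
    (fun s x y => twB_inr hj s y x) (fun s x y => twB_inr hj' s y x) (by
      rintro ⟨i | i, a⟩
      · refine Or.inr ⟨fun y => (X (i, a) : S k ι) • y, fun x y => ?_, fun x y => ?_⟩
        · simp only [LinearEquiv.trans_apply, comm_tmul]
          rw [twB_inl hj, rn_X]
        · simp only [LinearEquiv.trans_apply, comm_tmul]
          rw [twB_inl hj', rn_X]
      · exact Or.inl ⟨X (i, a), (rn_X Sum.inr (i, a)).symm⟩) (fun d => by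
      refine ⟨d ∘ Sum.inr, N.π (d ∘ Sum.inl), fun x y => ?_, fun x y => ?_⟩
      · have e : (d - Sum.elim (0 : ι → ℤ) δ) ∘ Sum.inl = d ∘ Sum.inl := funext fun i => sub_zero _
        simp only [LinearEquiv.trans_apply, comm_tmul]
        rw [hj.π, e]
        rfl
      · simp only [LinearEquiv.trans_apply, comm_tmul]
        rw [hj'.π]
        rfl)
  rw [hj.boxG_cls, hq.Lg_cls hm hg', hp.Lg_cls hm hg, hj'.boxG_cls]

end Pool.Agent.Tate
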