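import Pool.Agent.P.MP_2ce3e7_ag.UpKubA
import Pool.Agent.P.MP_2ce3e7_ag.UpCaseA

/-! Division of a norm: two auxiliary primes. -/

set_option autoImplicit false

noncomputable section

namespace Pool.Agent.Tate

open Pool.Agent.P.MP_e12fcd_ag.Fermat (bern tors)

open Classical in
/-- the nonzero squares -/
def upCaseTSq (r : ℕ) [NeZero r] : Finset (ZMod r) :=
  Finset.univ.filter fun v => v ≠ 0 ∧ IsSquare v

theorem upCaseT_mem {r : ℕ} [NeZero r] {v : ZMod r} : v ∈ upCaseTSq r ↔ v ≠ 0 ∧ IsSquare v := by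
  simp [upCaseTSq]

theorem upCaseT_neg {r : ℕ} [Fact r.Prime] (h3 : r % 4 = 3) {v : ZMod r} (hv : v ≠ 0) :
    IsSquare (-v) ↔ ¬ IsSquare v := by
  have h1 : ¬ IsSquare (-1 : ZMod r) := fun h => ZMod.exists_sq_eq_neg_one_iff.1 h h3
  have h2 : quadraticChar (ZMod r) (-1) = -1 := quadraticChar_neg_one_iff_not_isSquare.2 h1
  rw [← quadraticChar_one_iff_isSquare (neg_ne_zero.2 hv), ← quadraticChar_neg_one_iff_not_isSquare,
    ← neg_one_mul, map_mul, h2]
  constructor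
  · intro h
    linear_combination -h
  · intro h
    linear_combination -h

theorem upCaseT_split {r : ℕ} [Fact r.Prime] (h3 : r % 4 = 3) {Y : Type} [AddCommMonoid Y]
    (f : ZMod r → Y) :
    ∑ v, f v = f 0 + ∑ v ∈ upCaseTSq r, f v + ∑ v ∈ upCaseTSq r, f (-v) := by
  classical
  rw [← Finset.add_sum_erase Finset.univ f (Finset.mem_univ 0), add_assoc,
    ← Finset.sum_filter_add_sum_filter_not (Finset.univ.erase 0) (fun v : ZMod r => IsSquare v)]
  congr 2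
  · refine Finset.sum_congr ?_ fun _ _ => rfl
    ext v
    simp [upCaseT_mem]
  · refine Finset.sum_bij' (fun v _ => -v) (fun v _ => -v) ?_ ?_ ?_ ?_ ?_
    · intro v hv
      rw [Finset.mem_filter, Finset.mem_erase] at hv
      exact upCaseT_mem.2 ⟨neg_ne_zero.2 hv.1.1, (upCaseT_neg h3 hv.1.1).2 hv.2⟩
    · intro v hv
      rw [upCaseT_mem] at hv
      rw [Finset.mem_filter, Finset.mem_erase]
      exact ⟨⟨neg_ne_zero.2 hv.1, Finset.mem_univ _⟩, fun h => (upCaseT_neg h3 hv.1).1 h hv.2⟩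
    · intro v _
      exact neg_neg v
    · intro v _
      exact neg_neg v
    · intro v _
      rw [neg_neg]

theorem upCaseT_mul {r : ℕ} [Fact r.Prime] {d : ZMod r} (hd0 : d ≠ 0) (hd : IsSquare d) {Y : Type}
    [AddCommMonoid Y] (f : ZMod r → Y) :
    ∑ v ∈ upCaseTSq r, f (d * v) = ∑ v ∈ upCaseTSq r, f v := by
  refine Finset.sum_bij' (fun v _ => d * v) (fun v _ => d⁻¹ * v) ?_ ?_ ?_ ?_ ?_
  · intro v hv
    rw [upCaseT_mem] at hv ⊢
    exact ⟨mul_ne_zero hd0 hv.1, hd.mul hv.2⟩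
  · intro v hv
    rw [upCaseT_mem] at hv ⊢
    exact ⟨mul_ne_zero (inv_ne_zero hd0) hv.1, hd.inv.mul hv.2⟩
  · intro v _
    exact inv_mul_cancel_left₀ hd0 v
  · intro v _
    exact mul_inv_cancel_left₀ hd0 v
  · intro v _
    rfl

theorem upCaseT_ne {r d : ℕ} (hr : r.Prime) (hd : d.Prime) (h : r ≠ d) : (d : ZMod r) ≠ 0 :=
  fun h0 => h ((Nat.prime_dvd_prime_iff_eq hr hd).1 ((ZMod.natCast_eq_zero_iff d r).1 h0))

theorem caseT {M r₁ r₂ L δ : ℕ} [NeZero M] [NeZero L] (h₁ : r₁.Prime) (h₂ : r₂.Prime)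
    (hne : r₁ ≠ r₂) (hL : L = M * r₁ * r₂) (hM₁ : ¬ r₁ ∣ M) (hM₂ : ¬ r₂ ∣ M) (h3₁ : r₁ % 4 = 3)
    (h3₂ : r₂ % 4 = 3)
    (hsq : ∀ d : ℕ, d.Prime → d ∣ M → IsSquare (d : ZMod r₁) ∧ IsSquare (d : ZMod r₂))
    (hδ₁ : (δ : ZMod r₁) = -1) (hδ₂ : (δ : ZMod r₂) = 1) {Y : Type} [AddCommGroup Y]
    {g : ZMod L → Y} (hg : Dist L g) (hδ : ∀ y, g ((δ : ZMod L) * y) = g y) :
    ∃ W : ZMod M → Y, ODist M W ∧ ∀ b : ZMod M,
      g (lv L ((r₁ : ZMod M) * (r₂ : ZMod M) * b)) - g (lv L ((r₁ : ZMod M) * b)) -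
          g (lv L ((r₂ : ZMod M) * b)) + g (lv L b) =
        W b + W ((δ : ZMod M) * b) - W (-((δ : ZMod M) * b)) - W (-b) := by
  have : Fact r₁.Prime := ⟨h₁⟩
  have : Fact r₂.Prime := ⟨h₂⟩
  have hM : M ∣ L := ⟨r₁ * r₂, by rw [hL, mul_assoc]⟩
  have hL₁ : r₁ ∣ L := ⟨M * r₂, by rw [hL]; ring⟩
  have hL₂ : r₂ ∣ L := ⟨M * r₁, by rw [hL]; ring⟩
  obtain ⟨φ, hφ⟩ : ∃ φ : ZMod M → ZMod r₁ → ZMod r₂ → Y,
      ∀ b v w, φ b v w = g (lv L b + lv L v + lv L w) := ⟨_, fun _ _ _ => rfl⟩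
  have hmul : ∀ (n : ℕ) (b : ZMod M) (v : ZMod r₁) (w : ZMod r₂),
      g ((n : ZMod L) * (lv L b + lv L v + lv L w)) =
        φ ((n : ZMod M) * b) ((n : ZMod r₁) * v) ((n : ZMod r₂) * w) := by
    intro n b v w
    rw [hφ, mul_add, mul_add, natCast_mul_lv hM, natCast_mul_lv hL₁, natCast_mul_lv hL₂]
  have h0 : ∀ b, g (lv L b) = φ b 0 0 := by
    intro b
    rw [hφ, (lv_eq_zero hL₁).2 rfl, (lv_eq_zero hL₂).2 rfl, add_zero, add_zero]
  have hA : ∀ b, ∑ v, φ b v 0 = φ ((r₁ : ZMod M) * b) 0 0 := by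
    intro b
    have h := hg.dist r₁ h₁ hL₁ (lv L b + lv L (0 : ZMod r₁) + lv L (0 : ZMod r₂))
    rw [hmul, sum_tors_eq hL₁, mul_zero, mul_zero] at h
    rw [← h]
    refine Finset.sum_congr rfl fun v _ => ?_
    rw [hφ, (lv_eq_zero hL₁).2 rfl, add_zero, add_right_comm]
  have hB : ∀ b v, ∑ w, φ b v w = φ ((r₂ : ZMod M) * b) ((r₂ : ZMod r₁) * v) 0 := by
    intro b v
    have h := hg.dist r₂ h₂ hL₂ (lv L b + lv L v + lv L (0 : ZMod r₂))
    rw [hmul, sum_tors_eq hL₂, mul_zero] at h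
    rw [← h]
    refine Finset.sum_congr rfl fun w _ => ?_
    rw [hφ, (lv_eq_zero hL₂).2 rfl, add_zero]
  have hAB : ∀ b, ∑ v, ∑ w, φ b v w = φ ((r₁ : ZMod M) * (r₂ : ZMod M) * b) 0 0 := by
    intro b
    rw [Finset.sum_congr rfl fun v _ => hB b v, mul_assoc, ← hA]
    exact Equiv.sum_comp (Equiv.mulLeft₀ (r₂ : ZMod r₁) (upCaseT_ne h₁ h₂ hne))
      (fun v => φ ((r₂ : ZMod M) * b) v 0)
  have hneg : ∀ b v w, φ (-b) v w = -φ b (-v) (-w) := by
    intro b v w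
    rw [hφ, hφ, ← hg.neg, lv_neg hM, lv_neg hL₁, lv_neg hL₂]
    congr 1
    ring
  have hdel : ∀ b v w, φ ((δ : ZMod M) * b) v w = φ b (-v) w := by
    intro b v w
    have h := hmul δ b (-v) w
    rw [hδ, hδ₁, hδ₂, one_mul, neg_mul_neg, one_mul, ← hφ] at h
    exact h.symm
  refine ⟨fun b => ∑ v ∈ upCaseTSq r₁, ∑ w ∈ upCaseTSq r₂, φ b v w, ?_, ?_⟩
  · intro d hd hdM b
    have e₁ : (d : ZMod r₁) ≠ 0 := upCaseT_ne h₁ hd fun h => hM₁ (h ▸ hdM)
    have e₂ : (d : ZMod r₂) ≠ 0 := upCaseT_ne h₂ hd fun h => hM₂ (h ▸ hdM)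
    beta_reduce
    rw [← upCaseT_mul e₁ (hsq d hd hdM).1
      (fun v => ∑ w ∈ upCaseTSq r₂, φ ((d : ZMod M) * b) v w), Finset.sum_comm]
    refine Finset.sum_congr rfl fun v _ => ?_
    rw [← upCaseT_mul e₂ (hsq d hd hdM).2
      (fun w => φ ((d : ZMod M) * b) ((d : ZMod r₁) * v) w), Finset.sum_comm]
    refine Finset.sum_congr rfl fun w _ => ?_
    rw [← hmul, ← hg.dist d hd (hdM.trans hM), ← sum_tors_lv hM hdM]
    refine Finset.sum_congr rfl fun z _ => ?_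
    rw [hφ, lv_add hM]
    congr 1
    ring
  · intro b
    have hB' := hB b 0
    rw [mul_zero] at hB'
    rw [h0, h0, h0, h0, ← hAB, ← hA, ← hB']
    simp only [upCaseT_split h3₁, upCaseT_split h3₂, hneg, hdel, neg_neg, Finset.sum_add_distrib,
      Finset.sum_neg_distrib]
    abel

/-- from differences of Bernoulli vectors to differences of types, with an odd factor -/
theorem odd_mem_XD {p L : ℕ} [NeZero L] (hp : p.Coprime L)
    {x : (ZMod L)ˣ → ℤ} (hx : x ∈ TD p L) (h1 : (2 * L : ℤ) ∣ x 1) :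
    ∃ n : ℕ, Odd n ∧ n • x ∈ XD p L := by
  have hu : IsUnit (p : ZMod L) := (ZMod.isUnit_iff_coprime p L).2 hp
  let T : ZMod L → (ZMod L)ˣ → ℤ := fun b => th b - th ((p : ZMod L) * b)
  have hT0 : T 0 = 0 := by simp [T]
  have hTn : ∀ b, T (-b) = -T b := by
    intro b
    simp only [T]
    rw [mul_neg, th_neg, th_neg]
    abel
  have hadd : ∀ a b, T a + T b - T (a + b) ∈ XD p L := by
    intro a b
    by_cases ha : a = 0
    · subst ha; simp [hT0]
    by_cases hb : b = 0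
    · subst hb; simp [hT0]
    by_cases hab : a + b = 0
    · have : b = -a := by linear_combination hab
      subst this
      simp [hT0, hTn]
    refine AddSubgroup.subset_closure ⟨(a, b), ⟨ha, hb, hab⟩, ?_⟩
    simp only [T, ty, Prod.smul_mk, smul_eq_mul, mul_add]
    abel
  have hex : ∃ b, x - T b ∈ XD p L := by
    clear h1
    induction hx using AddSubgroup.closure_induction with
    | mem y hy =>
      obtain ⟨b, rfl⟩ := hy
      exact ⟨b, by simp [T]⟩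
    | zero => exact ⟨0, by simp [hT0]⟩
    | add y z _ _ hy hz =>
      obtain ⟨a, ha⟩ := hy
      obtain ⟨b, hb⟩ := hz
      refine ⟨a + b, ?_⟩
      have e : y + z - T (a + b) = y - T a + (z - T b) + (T a + T b - T (a + b)) := by abel
      rw [e]
      exact add_mem (add_mem ha hb) (hadd a b)
    | neg y _ hy =>
      obtain ⟨a, ha⟩ := hy
      refine ⟨-a, ?_⟩
      have e : -y - T (-a) = -(y - T a) := by
        rw [hTn]
        abel
      rw [e]
      exact neg_mem ha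
  have hval : ∀ y ∈ XD p L, (2 * L : ℤ) ∣ y 1 := by
    intro y hy
    induction hy using AddSubgroup.closure_induction with
    | mem y hy =>
      obtain ⟨c, hc, rfl⟩ := hy
      rw [Pi.sub_apply, ty_apply hc, ty_apply (hc.smul hu)]
      split_ifs
      · exact ⟨0, by ring⟩
      · exact ⟨-1, by ring⟩
      · exact ⟨1, by ring⟩
      · exact ⟨0, by ring⟩
    | zero => simp
    | add y z _ _ hy hz => exact dvd_add hy hz
    | neg y _ hy => exact (dvd_neg).2 hy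
  obtain ⟨b, hb⟩ := hex
  have h2 : (2 * L : ℤ) ∣ T b 1 := by
    have := dvd_sub h1 (hval _ hb)
    rwa [Pi.sub_apply, sub_sub_cancel] at this
  have h3 : (p : ZMod L) * b = b := by
    by_cases h0 : b = 0
    · rw [h0, mul_zero]
    have h0' : (p : ZMod L) * b ≠ 0 := fun h => h0 (hu.mul_right_eq_zero.1 h)
    simp only [T, th, Pi.sub_apply, Units.val_one, one_mul, bern, if_neg h0, if_neg h0'] at h2
    obtain ⟨c, hc⟩ := h2
    have h4 : ((b.val : ℤ) : ZMod L) = ((((p : ZMod L) * b).val : ℤ) + L * c : ℤ) := by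
      congr 1
      linarith
    simpa using h4.symm
  refine ⟨1, odd_one, ?_⟩
  simpa [T, h3] using hb

end Pool.Agent.Tate
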