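import Pool.Agent.P.MP_2ce3e7_ag.UpTh

/-! The group theoretic meaning of the condition on odd characters of two-power order. -/

set_option autoImplicit false

noncomputable section

namespace Pool.Agent.Tate

variable {m : ℕ} [NeZero m]

theorem upChar_sep {t : ZMod m} (h : ∀ ψ : DirichletCharacter ℂ m, ψ (-1) = 1 → ψ t = 1) :
    t = 1 ∨ t = -1 := by
  by_contra hc
  rw [not_or] at hc
  obtain ⟨χ₁, h₁⟩ := DirichletCharacter.exists_apply_ne_one_of_hasEnoughRootsOfUnity ℂ hc.1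
  obtain ⟨χ₂, h₂⟩ := DirichletCharacter.exists_apply_ne_one_of_hasEnoughRootsOfUnity ℂ
    (a := -t) fun h0 => hc.2 (by rw [← h0, neg_neg])
  have o₁ : χ₁ (-1) = -1 := χ₁.even_or_odd.resolve_left fun e => h₁ (h _ e)
  rw [← neg_one_mul, map_mul] at h₂
  have o₂ : χ₂ (-1) = -1 := χ₂.even_or_odd.resolve_left fun e => h₂ (by
    rw [h _ e, mul_one]
    exact e)
  have e₁ := h (χ₁ * χ₁) (by rw [MulChar.mul_apply, o₁, neg_mul_neg, one_mul])
  have e₂ := h (χ₁ * χ₂) (by rw [MulChar.mul_apply, o₁, o₂, neg_mul_neg, one_mul])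
  rw [MulChar.mul_apply] at e₁ e₂
  have e₃ : χ₁ t = -1 := (mul_self_eq_one_iff.1 e₁).resolve_left h₁
  rw [e₃] at e₂
  exact h₂ (by rw [o₂, e₂])

theorem upChar_odd {κ : ZMod m} (h1 : (-1 : ZMod m) ≠ 1) (h2 : κ ≠ 1) :
    ∃ χ : DirichletCharacter ℂ m, χ (-1) = -1 ∧ χ κ ≠ 1 := by
  obtain ⟨χ₁, h₁⟩ := DirichletCharacter.exists_apply_ne_one_of_hasEnoughRootsOfUnity ℂ h1
  obtain ⟨χ₂, h₂⟩ := DirichletCharacter.exists_apply_ne_one_of_hasEnoughRootsOfUnity ℂ h2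
  have o₁ : χ₁ (-1) = -1 := χ₁.even_or_odd.resolve_left h₁
  by_cases e₁ : χ₁ κ = 1
  · rcases χ₂.even_or_odd with e | e
    · refine ⟨χ₁ * χ₂, ?_, ?_⟩
      · rw [MulChar.mul_apply, o₁, show χ₂ (-1) = 1 from e, mul_one]
      · rwa [MulChar.mul_apply, e₁, one_mul]
    · exact ⟨χ₂, e, h₂⟩
  · exact ⟨χ₁, o₁, e₁⟩

theorem upChar_neg (t : (ZMod m)ˣ) (h : (t : ZMod m) ≠ 1) : (-1 : ZMod m) ≠ 1 := by
  intro h0
  have h2 : m ∣ 2 := by
    rw [← ZMod.natCast_eq_zero_iff]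
    push_cast
    linear_combination -h0
  rcases (Nat.dvd_prime Nat.prime_two).1 h2 with rfl | rfl
  · exact h (Subsingleton.elim _ _)
  · revert t
    decide

theorem char_data {p : ℕ} (hp : p.Coprime m) (h : Set.Subsingleton
      {χ : DirichletCharacter ℂ m | (∃ e : ℕ, χ ^ 2 ^ e = 1) ∧ χ.Odd ∧ χ p ≠ 1}) :
    (∃ f : ℕ, Odd f ∧ (p : ZMod m) ^ f = 1) ∨
      ∃ n : ℕ, Odd n ∧ (∀ t : (ZMod m)ˣ, t ^ (2 * n) = 1) ∧
        (∀ ε : ZMod m, ε ^ 2 = 1 →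
          ε = 1 ∨ ε = -1 ∨ ε = (p : ZMod m) ^ n ∨ ε = -(p : ZMod m) ^ n) ∧
        (p : ZMod m) ^ n ≠ 1 := by
  obtain ⟨e, n, hn, hN⟩ := Nat.exists_eq_two_pow_mul_odd (Nat.totient_pos.2 (NeZero.pos m)).ne'
  by_cases h0 : (p : ZMod m) ^ n = 1
  · exact Or.inl ⟨n, hn, h0⟩
  obtain ⟨P, hP⟩ : ∃ P : (ZMod m)ˣ, (P : ZMod m) = p := ⟨ZMod.unitOfCoprime p hp, rfl⟩
  rw [← hP] at h h0 ⊢
  have hmem : ∀ χ : DirichletCharacter ℂ m, χ (-1) = -1 → χ ((P : ZMod m) ^ n) ≠ 1 →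
      χ ^ n ∈ {χ : DirichletCharacter ℂ m | (∃ e : ℕ, χ ^ 2 ^ e = 1) ∧ χ.Odd ∧ χ P ≠ 1} := by
    intro χ h1 h2
    refine ⟨⟨e, MulChar.ext fun a => ?_⟩, ?_, ?_⟩
    · rw [← pow_mul, MulChar.pow_apply_coe, MulChar.one_apply_coe, ← map_pow,
        ← Units.val_pow_eq_pow_val, mul_comm, ← hN, ZMod.pow_totient, Units.val_one, map_one]
    · have := χ.pow_apply_coe n (-1)
      rw [Units.val_neg, Units.val_one, h1, hn.neg_one_pow] at this
      exact this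
    · rwa [MulChar.pow_apply_coe, ← map_pow]
  have key : ∀ χ χ' : DirichletCharacter ℂ m, χ (-1) = -1 → χ' (-1) = -1 →
      χ ((P : ZMod m) ^ n) ≠ 1 → χ' ((P : ZMod m) ^ n) ≠ 1 →
      ∀ t : (ZMod m)ˣ, χ ((t : ZMod m) ^ n) = χ' ((t : ZMod m) ^ n) := by
    intro χ χ' h1 h1' h2 h2' t
    rw [map_pow, map_pow, ← MulChar.pow_apply_coe, ← MulChar.pow_apply_coe,
      h (hmem χ h1 h2) (hmem χ' h1' h2')]
  have hm1 : (-1 : ZMod m) ≠ 1 := upChar_neg (P ^ n) h0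
  obtain ⟨χ₀, o₀, k₀⟩ := upChar_odd hm1 h0
  have nz : ∀ (χ : DirichletCharacter ℂ m) (t : (ZMod m)ˣ), χ ((t : ZMod m) ^ n) ≠ 0 :=
    fun χ t => ((t.isUnit.pow n).map χ).ne_zero
  have k₁ : χ₀ ((P : ZMod m) ^ n) = -1 := by
    have h1 := key χ₀ χ₀⁻¹ o₀ (by rw [MulChar.inv_apply_eq_inv', o₀, inv_neg, inv_one]) k₀
      (by rwa [MulChar.inv_apply_eq_inv', ne_eq, inv_eq_one]) P
    rw [MulChar.inv_apply_eq_inv'] at h1
    refine (mul_self_eq_one_iff.1 ?_).resolve_left k₀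
    nth_rewrite 2 [h1]
    exact mul_inv_cancel₀ (nz χ₀ P)
  have ev : ∀ ψ : DirichletCharacter ℂ m, ψ (-1) = 1 → ψ ((P : ZMod m) ^ n) ≠ -1 →
      ∀ t : (ZMod m)ˣ, ψ ((t : ZMod m) ^ n) = 1 := by
    intro ψ h1 h2 t
    have h3 := key (χ₀ * ψ) χ₀ (by rw [MulChar.mul_apply, o₀, h1, mul_one]) o₀
      (by
        rw [MulChar.mul_apply, k₁]
        exact fun h4 => h2 (by linear_combination -h4)) k₀ t
    rw [MulChar.mul_apply] at h3
    exact mul_left_cancel₀ (nz χ₀ t) (h3.trans (mul_one _).symm)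
  have sq : ∀ ψ : DirichletCharacter ℂ m, ψ (-1) = 1 → ∀ t : (ZMod m)ˣ,
      ψ ((t : ZMod m) ^ n) * ψ ((t : ZMod m) ^ n) = 1 := by
    intro ψ h1 t
    by_cases h2 : ψ ((P : ZMod m) ^ n) = -1
    · refine ev (ψ * ψ) (by rw [MulChar.mul_apply, h1, mul_one]) ?_ t
      rw [MulChar.mul_apply, h2]
      norm_num
    · rw [ev ψ h1 h2 t, mul_one]
  have kk : (P : ZMod m) ^ n * (P : ZMod m) ^ n = 1 := by
    refine (upChar_sep fun ψ h1 => ?_).resolve_right fun h1 => ?_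
    · rw [map_mul, sq ψ h1 P]
    · have := congrArg χ₀ h1
      rw [map_mul, k₁, o₀] at this
      norm_num at this
  have four : ∀ t : (ZMod m)ˣ, (t : ZMod m) ^ n = 1 ∨ (t : ZMod m) ^ n = -1 ∨
      (t : ZMod m) ^ n = (P : ZMod m) ^ n ∨ (t : ZMod m) ^ n = -(P : ZMod m) ^ n := by
    intro t
    by_cases h1 : ∀ ψ : DirichletCharacter ℂ m, ψ (-1) = 1 → ψ ((t : ZMod m) ^ n) = 1
    · rcases upChar_sep h1 with h2 | h2
      exacts [Or.inl h2, Or.inr (Or.inl h2)]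
    push Not at h1
    obtain ⟨ψ, a1, a2⟩ := h1
    have a3 : ψ ((P : ZMod m) ^ n) = -1 := by
      by_contra a3
      exact a2 (ev ψ a1 a3 t)
    have a4 : ψ ((t : ZMod m) ^ n) = -1 := (mul_self_eq_one_iff.1 (sq ψ a1 t)).resolve_left a2
    have a5 := upChar_sep (t := (t : ZMod m) ^ n * (P : ZMod m) ^ n) fun φ b1 => by
      rw [map_mul]
      by_cases b2 : φ ((P : ZMod m) ^ n) = -1
      · have b3 := ev (ψ * φ) (by rw [MulChar.mul_apply, a1, b1, mul_one]) (by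
          rw [MulChar.mul_apply, a3, b2]
          norm_num) t
        rw [MulChar.mul_apply, a4] at b3
        rw [b2, mul_comm, b3]
      · rw [ev φ b1 b2 t, ev φ b1 b2 P, mul_one]
    refine Or.inr (Or.inr (a5.imp (fun a6 => ?_) fun a6 => ?_))
    · linear_combination (P : ZMod m) ^ n * a6 - (t : ZMod m) ^ n * kk
    · linear_combination (P : ZMod m) ^ n * a6 - (t : ZMod m) ^ n * kk
  refine Or.inr ⟨n, hn, fun t => Units.ext ?_, fun ε hε => ?_, h0⟩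
  · rw [Units.val_pow_eq_pow_val, Units.val_one, two_mul, pow_add]
    rcases four t with a | a | a | a <;> rw [a]
    · exact one_mul 1
    · rw [neg_mul_neg, one_mul]
    · exact kk
    · rw [neg_mul_neg, kk]
  · obtain ⟨u, rfl⟩ := IsUnit.of_pow_eq_one hε two_ne_zero
    have a := four u
    obtain ⟨k, hk⟩ := hn
    rwa [show (u : ZMod m) ^ n = u by rw [hk, pow_succ, pow_mul, hε, one_pow, one_mul]] at a

theorem exists_anti {κ : ZMod m} (h1 : κ ≠ 1) (h2 : κ * κ = 1) :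
    ∃ c : Ch m, Nd c ∧ ∀ u : ZMod m, ty (u • κ • c) = -ty (u • c) := by
  have h0 : (1 : ZMod m) ≠ 0 := fun h => h1 (by rw [← mul_one κ, h, mul_zero])
  refine ⟨(1, -κ), ⟨h0, fun h => h0 ?_, fun h => h1 ?_⟩, fun u => ?_⟩
  · rw [← h2, neg_eq_zero.1 h, mul_zero]
  · linear_combination -h
  · have e1 : u * (κ * 1) = -(u * -κ) := by ring
    have e2 : u * (κ * -κ) = -(u * 1) := by linear_combination -u * h2
    simp only [ty, Prod.smul_mk, smul_eq_mul, e1, e2]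
    rw [← neg_add, th_neg, th_neg, th_neg, add_comm (u * -κ)]
    abel

end Pool.Agent.Tate
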