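import Pool.Agent.P.MP_2ce3e7_ag.Core

/-! A number field with many primes of degree one. -/

set_option autoImplicit false

noncomputable section

namespace Pool.Agent.Tate

open NumberField

/-- the number of ideals of a given norm -/
def nI (E : Type) [Field E] [NumberField E] (n : ℕ) : ℕ :=
  Nat.card {I : Ideal (𝓞 E) // Ideal.absNorm I = n}

theorem upChebA_int {R : Type} [CommRing R] {r : ℕ} [Fact r.Prime] {Ω : Type}
    [Field Ω] [CharP Ω r] (ψ : R →+* Ω) (h : ∀ x, ψ x ^ r = ψ x) (x : R) :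
    ∃ n : ℤ, (n : Ω) = ψ x :=
  (mem_bot_iff_intCast r Ω).1 ((Subfield.mem_bot_iff_pow_eq_self Ω r).2 (h x))

theorem upChebA_card {R : Type} [CommRing R] {r : ℕ} [Fact r.Prime] {Ω : Type}
    [Field Ω] [CharP Ω r] (ψ : R →+* Ω) (h : ∀ x, ψ x ^ r = ψ x) :
    Nat.card (R ⧸ RingHom.ker ψ) = r := by
  have e1 : Nat.card (R ⧸ RingHom.ker ψ) = Nat.card ψ.range :=
    Nat.card_congr (RingHom.quotientKerEquivRange ψ).toEquiv
  have e2 : Nat.card ψ.range = Nat.card (⊥ : Subfield Ω) := by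
    refine Nat.card_congr (Equiv.subtypeEquivRight ?_)
    intro y
    constructor
    · rintro ⟨x, rfl⟩
      exact (Subfield.mem_bot_iff_pow_eq_self Ω r).2 (h x)
    · intro hy
      obtain ⟨n, hn⟩ := (mem_bot_iff_intCast r Ω).1 hy
      exact ⟨(n : R), by rw [map_intCast, hn]⟩
  rw [e1, e2, Subfield.card_bot Ω r]

/-- homomorphisms with values in the prime field give ideals of prime norm -/
theorem card_le_nI {E : Type} [Field E] [NumberField E] {r : ℕ} [Fact r.Prime] {Ω : Type}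
    [Field Ω] [CharP Ω r] (T : Finset (𝓞 E →+* Ω)) (h : ∀ ψ ∈ T, ∀ x, ψ x ^ r = ψ x) :
    T.card ≤ nI E r := by
  have hfin : Finite {I : Ideal (𝓞 E) // Ideal.absNorm I = r} :=
    (Ideal.finite_setOfPred_absNorm_eq (S := 𝓞 E) r).to_subtype
  let f : T → {I : Ideal (𝓞 E) // Ideal.absNorm I = r} := fun ψ =>
    ⟨RingHom.ker ψ.1, by
      rw [Ideal.absNorm_apply, Submodule.cardQuot_apply]
      exact upChebA_card ψ.1 (h ψ.1 ψ.2)⟩
  have hf : Function.Injective f := by
    intro ψ χ hψ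
    have hk : RingHom.ker ψ.1 = RingHom.ker χ.1 := congrArg Subtype.val hψ
    apply Subtype.ext
    ext x
    obtain ⟨n, hn⟩ := upChebA_int ψ.1 (h ψ.1 ψ.2) x
    have h1 : x - (n : 𝓞 E) ∈ RingHom.ker ψ.1 := by
      rw [RingHom.mem_ker, map_sub, map_intCast, hn, sub_self]
    rw [hk, RingHom.mem_ker, map_sub, map_intCast, sub_eq_zero] at h1
    rw [h1, hn]
  have := Nat.card_le_card_of_injective f hf
  rw [Nat.card_eq_fintype_card, Fintype.card_coe] at this
  exact this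

theorem upChebA_conj_root {N : ℕ} (hN : N ≠ 0) {z : ℂ} (hz : z ^ N = 1) :
    (starRingEnd ℂ) z = z⁻¹ := by
  have h1 : ‖z‖ = 1 := Complex.norm_eq_one_of_pow_eq_one hz hN
  exact (Complex.inv_eq_conj h1).symm

theorem upChebA_rat {p l : ℕ} (hp : p.Prime) (hl : l.Prime) (h2 : l ≠ 2) (q : ℚ) :
    q ^ l ≠ (p : ℚ) ^ 2 := by
  intro hq
  have : Fact p.Prime := ⟨hp⟩
  have h1 := congrArg (padicValRat p) hq
  rw [padicValRat.pow, padicValRat.pow, padicValRat.self hp.one_lt] at h1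
  have h3 : (l : ℤ) ∣ ((2 : ℕ) : ℤ) := ⟨padicValRat p q, by rw [h1]; simp⟩
  have h4 : l ∣ 2 := by exact_mod_cast h3
  exact h2 ((Nat.prime_dvd_prime_iff_eq hl Nat.prime_two).1 h4)

/-- a prime is not an odd power in a cyclotomic field -/
theorem not_pow_cyclotomic {p l N : ℕ} (hp : p.Prime) (hl : l.Prime) (h2 : l ≠ 2) (hN : N ≠ 0)
    {ζ : ℂ} (hζ : IsPrimitiveRoot ζ N) {x : ℂ} (hx : x ∈ IntermediateField.adjoin ℚ {ζ}) :
    x ^ l ≠ p := by
  intro hxl
  set K := IntermediateField.adjoin ℚ ({ζ} : Set ℂ) with hK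
  have hint : IsIntegral ℚ ζ := (hζ.isIntegral (Nat.pos_of_ne_zero hN)).tower_top
  have hfd : FiniteDimensional ℚ K := IntermediateField.adjoin.finiteDimensional hint
  have hζK : ζ ∈ K := IntermediateField.mem_adjoin_simple_self ℚ ζ
  let cj : ℂ →ₐ[ℚ] ℂ := (starRingEnd ℂ).toRatAlgHom
  have hcj : ∀ z, cj z = (starRingEnd ℂ) z := fun z => rfl
  have hmem : ∀ y ∈ K, (starRingEnd ℂ) y ∈ K := by
    have hle : K ≤ K.comap cj := by
      rw [hK, IntermediateField.adjoin_simple_le_iff]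
      change cj ζ ∈ K
      rw [hcj, upChebA_conj_root hN hζ.pow_eq_one]
      exact K.inv_mem hζK
    intro y hy
    exact hle hy
  let c : K →ₐ[ℚ] K := (cj.comp K.val).codRestrict K.toSubalgebra (fun y => hmem y.1 y.2)
  have hc : ∀ y : K, (c y : ℂ) = (starRingEnd ℂ) (y : ℂ) := fun y => rfl
  have hcomm : ∀ φ : K →ₐ[ℚ] ℂ, φ.comp c = cj.comp φ := by
    intro φ
    apply IntermediateField.adjoin_algHom_ext
    intro y hy
    rw [Set.mem_singleton_iff] at hy
    subst hy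
    have e1 : c ⟨y, hζK⟩ = (⟨y, hζK⟩ : K)⁻¹ := by
      apply Subtype.ext
      rw [hc]
      simpa using upChebA_conj_root hN hζ.pow_eq_one
    have e2 : (φ ⟨y, hζK⟩) ^ N = 1 := by
      rw [← map_pow]
      have : (⟨y, hζK⟩ : K) ^ N = 1 := by
        apply Subtype.ext
        simpa using hζ.pow_eq_one
      rw [this, map_one]
    change φ (c ⟨y, hζK⟩) = (starRingEnd ℂ) (φ ⟨y, hζK⟩)
    rw [e1, map_inv₀, upChebA_conj_root hN e2]
  let X : K := ⟨x, hx⟩
  have hX : X ^ l = (p : K) := by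
    apply Subtype.ext
    simpa [X] using hxl
  have hval : ∀ φ : K →ₐ[ℚ] ℂ, φ (X * c X) = ((‖φ X‖ ^ 2 : ℝ) : ℂ) := by
    intro φ
    have e : φ (c X) = (starRingEnd ℂ) (φ X) := by
      have := DFunLike.congr_fun (hcomm φ) X
      simpa [hcj] using this
    rw [map_mul, e, Complex.mul_conj, Complex.normSq_eq_norm_sq]
  have hnorm : ∀ φ : K →ₐ[ℚ] ℂ, ‖φ X‖ ^ l = p := by
    intro φ
    rw [← norm_pow, ← map_pow, hX, map_natCast, Complex.norm_natCast]
  have hsame : ∀ φ : K →ₐ[ℚ] ℂ, ‖φ X‖ = ‖x‖ := by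
    intro φ
    have e : ‖φ X‖ ^ l = ‖x‖ ^ l := by
      rw [hnorm, ← norm_pow, hxl, Complex.norm_natCast]
    exact (pow_left_inj₀ (norm_nonneg _) (norm_nonneg _) hl.ne_zero).1 e
  have htr := trace_eq_sum_embeddings ℂ (K := ℚ) (L := K) (x := X * c X)
  simp only [hval, hsame, Finset.sum_const, Finset.card_univ, nsmul_eq_mul] at htr
  have hd : (Fintype.card (K →ₐ[ℚ] ℂ) : ℝ) ≠ 0 := by
    have : Nonempty (K →ₐ[ℚ] ℂ) := ⟨K.val⟩
    exact_mod_cast Fintype.card_ne_zero
  set q : ℚ := Algebra.trace ℚ K (X * c X) with hq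
  set d : ℕ := Fintype.card (K →ₐ[ℚ] ℂ) with hdd
  have h1 : (q : ℝ) = d * ‖x‖ ^ 2 := by
    have : ((q : ℝ) : ℂ) = ((d * ‖x‖ ^ 2 : ℝ) : ℂ) := by
      push_cast
      push_cast at htr
      simpa using htr
    exact_mod_cast this
  apply upChebA_rat hp hl h2 (q / d)
  have h3 : (((q / d) ^ l : ℚ) : ℝ) = (((p : ℚ) ^ 2 : ℚ) : ℝ) := by
    push_cast
    rw [h1, mul_div_cancel_left₀ _ hd, ← pow_mul, mul_comm, pow_mul, ← norm_pow, hxl,
      Complex.norm_natCast]
  exact_mod_cast h3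

/-- the degree of the Kummer extension -/
theorem finrank_kummer {p l N : ℕ} (hp : p.Prime) (hl : l.Prime) (h2 : l ≠ 2) (hN : N ≠ 0)
    {ζ θ : ℂ} (hζ : IsPrimitiveRoot ζ N) (hθ : θ ^ l = p) :
    Module.finrank ℚ (IntermediateField.adjoin ℚ {ζ, θ}) = l * N.totient := by
  set K := IntermediateField.adjoin ℚ ({ζ} : Set ℂ) with hK
  have hint : IsIntegral ℚ ζ := (hζ.isIntegral (Nat.pos_of_ne_zero hN)).tower_top
  have hKr : Module.finrank ℚ K = N.totient := by
    rw [hK, IntermediateField.adjoin.finrank hint,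
      ← Polynomial.cyclotomic_eq_minpoly_rat hζ (Nat.pos_of_ne_zero hN),
      Polynomial.natDegree_cyclotomic]
  have hirr : Irreducible (Polynomial.X ^ l - Polynomial.C (p : K)) := by
    apply X_pow_sub_C_irreducible_of_prime hl
    intro b hb
    apply not_pow_cyclotomic hp hl h2 hN hζ b.2
    have := congrArg (fun y : K => (y : ℂ)) hb
    simpa using this
  have hmon : (Polynomial.X ^ l - Polynomial.C (p : K)).Monic :=
    Polynomial.monic_X_pow_sub_C _ hl.ne_zero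
  have hroot : Polynomial.aeval θ (Polynomial.X ^ l - Polynomial.C (p : K)) = 0 := by
    simp [hθ]
  have hmin := minpoly.eq_of_irreducible_of_monic hirr hroot hmon
  have hθi : IsIntegral K θ := ⟨_, hmon, by simpa [Polynomial.aeval_def] using hroot⟩
  have hLr : Module.finrank K (IntermediateField.adjoin K ({θ} : Set ℂ)) = l := by
    rw [IntermediateField.adjoin.finrank hθi, ← hmin, Polynomial.natDegree_X_pow_sub_C]
  rw [← IntermediateField.adjoin_simple_adjoin_simple, mul_comm, ← hKr, ← hLr]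
  exact (Module.finrank_mul_finrank ℚ K (IntermediateField.adjoin K ({θ} : Set ℂ))).symm

end Pool.Agent.Tate
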