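import Pool.Agent.P.MP_2ce3e7_ag.Avg
import Pool.Agent.P.MP_e12fcd_ag.Fermat.Reduce

/-! Bernoulli vectors, distributions and change of the level. -/

set_option autoImplicit false

noncomputable section

namespace Pool.Agent.Tate

open Pool.Agent.P.MP_e12fcd_ag.Fermat (bern tors)

/-- admissible levels -/
def Adm (L : ℕ) : Prop := ∀ l : ℕ, l.Prime → l ∣ L → l = 2 ∨ l % 4 = 3

/-- the element `b / M` at the level `L` -/
def lv (L : ℕ) {M : ℕ} (b : ZMod M) : ZMod L := ((L / M * b.val : ℕ) : ZMod L)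

/-- a character at a higher level -/
def lf (L : ℕ) {M : ℕ} (c : Ch M) : Ch L := (lv L c.1, lv L c.2)

/-- the Bernoulli vector -/
def th {L : ℕ} (b : ZMod L) : (ZMod L)ˣ → ℤ := fun t => bern ((t : ZMod L) * b)

/-- the type of a character -/
def ty {L : ℕ} (c : Ch L) : (ZMod L)ˣ → ℤ := th c.1 + th c.2 - th (c.1 + c.2)

/-- odd distributions -/
structure Dist (L : ℕ) [NeZero L] {Y : Type} [AddCommGroup Y] (g : ZMod L → Y) : Prop where
  neg : ∀ b, g (-b) = -g b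
  dist : ∀ d : ℕ, d.Prime → d ∣ L → ∀ b, ∑ z ∈ tors L d, g (b + z) = g ((d : ZMod L) * b)

/-- differences of Bernoulli vectors -/
def TD (p L : ℕ) : AddSubgroup ((ZMod L)ˣ → ℤ) :=
  AddSubgroup.closure (Set.range fun b : ZMod L => th b - th ((p : ZMod L) * b))

/-- differences of types -/
def XD (p L : ℕ) : AddSubgroup ((ZMod L)ˣ → ℤ) :=
  AddSubgroup.closure {y | ∃ c : Ch L, Nd c ∧ y = ty c - ty ((p : ZMod L) • c)}

/-- change of the level for vectors -/
def lam {M L : ℕ} (h : M ∣ L) : ((ZMod M)ˣ → ℤ) →+ ((ZMod L)ˣ → ℤ) where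
  toFun y t := ((L / M : ℕ) : ℤ) * y (ZMod.unitsMap h t)
  map_zero' := by ext t; simp
  map_add' y y' := by ext t; simp [mul_add]

/-- vectors that become differences of types at some admissible level -/
def Good (p : ℕ) {M : ℕ} (y : (ZMod M)ˣ → ℤ) : Prop :=
  ∃ (L : ℕ) (h : M ∣ L), L ≠ 0 ∧ Adm L ∧ p.Coprime L ∧ lam h y ∈ XD p L

section Lv
variable {M L : ℕ} [NeZero L] (h : M ∣ L)
include h

theorem upDefs_ne : NeZero M :=
  ⟨fun h0 => NeZero.ne L (Nat.eq_zero_of_zero_dvd (h0 ▸ h))⟩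

omit [NeZero L] in
theorem upDefs_eq : L = L / M * M := (Nat.div_mul_cancel h).symm

theorem upDefs_lift [NeZero M] (b : ZMod M) :
    lv L b = Pool.Agent.P.MP_e12fcd_ag.Fermat.lift (upDefs_eq h) b := by
  conv_rhs => rw [← ZMod.natCast_zmod_val b, Pool.Agent.P.MP_e12fcd_ag.Fermat.lift_natCast]
  rfl

theorem lv_val (b : ZMod M) : (lv L b).val = L / M * b.val := by
  have := upDefs_ne h
  rw [upDefs_lift h, Pool.Agent.P.MP_e12fcd_ag.Fermat.val_lift]

theorem lv_natCast (n : ℕ) : lv L (n : ZMod M) = ((L / M * n : ℕ) : ZMod L) := by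
  have := upDefs_ne h
  rw [upDefs_lift h, Pool.Agent.P.MP_e12fcd_ag.Fermat.lift_natCast]

theorem lv_add (b c : ZMod M) : lv L (b + c) = lv L b + lv L c := by
  have := upDefs_ne h
  simp only [upDefs_lift h, map_add]

theorem lv_neg (b : ZMod M) : lv L (-b) = -lv L b := by
  have := upDefs_ne h
  simp only [upDefs_lift h, map_neg]

theorem lv_eq_zero {b : ZMod M} : lv L b = 0 ↔ b = 0 := by
  have := upDefs_ne h
  rw [upDefs_lift h]
  constructor
  · intro h0
    by_contra hb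
    exact Pool.Agent.P.MP_e12fcd_ag.Fermat.lift_ne_zero _ hb h0
  · rintro rfl
    exact map_zero _

theorem lv_inj : Function.Injective (lv L : ZMod M → ZMod L) := by
  intro b c hbc
  have h1 : lv L (b + -c) = 0 := by rw [lv_add h, lv_neg h, hbc, add_neg_cancel]
  rw [lv_eq_zero h] at h1
  exact add_neg_eq_zero.1 h1

theorem mul_lv (u : ZMod L) (b : ZMod M) :
    u * lv L b = lv L (ZMod.castHom h (ZMod M) u * b) := by
  have := upDefs_ne h
  conv_lhs => rw [← ZMod.natCast_zmod_val u]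
  conv_rhs => rw [← ZMod.natCast_zmod_val u, map_natCast]
  rw [upDefs_lift h, upDefs_lift h, Pool.Agent.P.MP_e12fcd_ag.Fermat.lift_natCast_mul]

theorem natCast_mul_lv (n : ℕ) (b : ZMod M) :
    (n : ZMod L) * lv L b = lv L ((n : ZMod M) * b) := by
  rw [mul_lv h, map_natCast]

theorem lv_lv {N : ℕ} (h' : N ∣ M) (b : ZMod N) : lv L (lv M b) = lv L b := by
  have := upDefs_ne h
  obtain ⟨e, rfl⟩ := h
  obtain ⟨f, rfl⟩ := h'
  have hN : 0 < N := Nat.pos_of_ne_zero fun h0 => NeZero.ne (N * f) (by rw [h0, zero_mul])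
  have hM : 0 < N * f := NeZero.pos _
  have h1 : (lv (N * f) b).val = N * f / N * b.val := lv_val (dvd_mul_right N f) b
  rw [lv, h1, lv, Nat.mul_div_cancel_left e hM, Nat.mul_div_cancel_left f hN, mul_assoc N f e,
    Nat.mul_div_cancel_left _ hN]
  congr 1
  ring

theorem exists_lv {x : ZMod L} (hx : (M : ZMod L) * x = 0) : ∃ b : ZMod M, lv L b = x := by
  have := upDefs_ne h
  obtain ⟨b, hb⟩ := Pool.Agent.P.MP_e12fcd_ag.Fermat.exists_lift (upDefs_eq h) hx
  exact ⟨b, by rw [upDefs_lift h, hb]⟩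

/-- torsion points come from the lower level -/
theorem sum_tors_lv [NeZero M] {d : ℕ} (hd : d ∣ M) {Y : Type} [AddCommMonoid Y]
    (g : ZMod L → Y) : ∑ z ∈ tors M d, g (lv L z) = ∑ z ∈ tors L d, g z := by
  refine Finset.sum_bij (fun z _ => lv L z) (fun z hz => ?_) (fun a _ b _ hab => lv_inj h hab)
    (fun x hx => ?_) fun _ _ => rfl
  · rw [Pool.Agent.P.MP_e12fcd_ag.Fermat.mem_tors] at hz ⊢
    rw [natCast_mul_lv h, hz, lv_eq_zero h]
  · rw [Pool.Agent.P.MP_e12fcd_ag.Fermat.mem_tors] at hx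
    obtain ⟨c, hc⟩ := hd
    have h1 : (M : ZMod L) * x = 0 := by
      rw [hc, Nat.cast_mul, mul_comm (d : ZMod L), mul_assoc, hx, mul_zero]
    obtain ⟨b, rfl⟩ := exists_lv h h1
    refine ⟨b, ?_, rfl⟩
    rw [Pool.Agent.P.MP_e12fcd_ag.Fermat.mem_tors]
    rwa [natCast_mul_lv h, lv_eq_zero h] at hx

theorem sum_tors_eq [NeZero M] {Y : Type} [AddCommMonoid Y] (g : ZMod L → Y) :
    ∑ z ∈ tors L M, g z = ∑ v : ZMod M, g (lv L v) := by
  rw [← sum_tors_lv h (dvd_refl M) g]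
  refine Finset.sum_congr ?_ fun _ _ => rfl
  ext z
  simp [Pool.Agent.P.MP_e12fcd_ag.Fermat.mem_tors]

theorem bern_lv (b : ZMod M) : bern (lv L b) = ((L / M : ℕ) : ℤ) * bern b := by
  have := upDefs_ne h
  rw [upDefs_lift h, Pool.Agent.P.MP_e12fcd_ag.Fermat.bern_lift]

theorem lam_th (b : ZMod M) : lam h (th b) = th (lv L b) := by
  funext t
  change ((L / M : ℕ) : ℤ) * bern (((ZMod.unitsMap h t : (ZMod M)ˣ) : ZMod M) * b) =
    bern ((t : ZMod L) * lv L b)
  rw [mul_lv h, bern_lv h]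
  rfl

theorem lam_ty (c : Ch M) : lam h (ty c) = ty (lf L c) := by
  simp only [ty, map_sub, map_add, lam_th h, lf, lv_add h]

theorem nd_lf {c : Ch M} : Nd (lf L c) ↔ Nd c := by
  simp only [Nd, lf, ← lv_add h, ne_eq, lv_eq_zero h]

theorem lf_smul (n : ℕ) (c : Ch M) : lf L ((n : ZMod M) • c) = (n : ZMod L) • lf L c := by
  ext
  · exact (natCast_mul_lv h n c.1).symm
  · exact (natCast_mul_lv h n c.2).symm

theorem lf_neg (c : Ch M) : lf L (-c) = -lf L c := by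
  ext
  · exact lv_neg h c.1
  · exact lv_neg h c.2

theorem lam_lam {N : ℕ} (h' : N ∣ M) (y : (ZMod N)ˣ → ℤ) :
    lam h (lam h' y) = lam (h'.trans h) y := by
  have := upDefs_ne h
  funext t
  change ((L / M : ℕ) : ℤ) * (((M / N : ℕ) : ℤ) * y (ZMod.unitsMap h' (ZMod.unitsMap h t))) =
    ((L / N : ℕ) : ℤ) * y (ZMod.unitsMap (h'.trans h) t)
  have h1 : ZMod.unitsMap h' (ZMod.unitsMap h t) = ZMod.unitsMap (h'.trans h) t := by
    rw [← ZMod.unitsMap_comp h' h]
    rfl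
  have h2 : L / M * (M / N) = L / N := by
    rw [Nat.div_mul_div h h']
  rw [h1, ← h2, Nat.cast_mul, mul_assoc]

theorem lam_mem_XD {p : ℕ} {y : (ZMod M)ˣ → ℤ} (hy : y ∈ XD p M) : lam h y ∈ XD p L := by
  have h1 : XD p M ≤ (XD p L).comap (lam h) := by
    refine (AddSubgroup.closure_le _).2 ?_
    rintro _ ⟨c, hc, rfl⟩
    refine AddSubgroup.subset_closure ⟨lf L c, (nd_lf h).2 hc, ?_⟩
    rw [map_sub, lam_ty h, lam_ty h, lf_smul h]
  exact h1 hy

theorem ch1_lf [NeZero M] (a : Ch M) (g : Ch L) :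
    ch1 (lf L a) g = ch1 a (ZMod.castHom h (ZMod M) g.1, ZMod.castHom h (ZMod M) g.2) := by
  have key : ∀ x : ZMod M, ZMod.stdAddChar (lv L x) = ZMod.stdAddChar x := by
    intro x
    have e1 : lv L x = (((L / M * x.val : ℕ) : ℤ) : ZMod L) := by rw [Int.cast_natCast]; rfl
    have e2 : x = (((x.val : ℕ) : ℤ) : ZMod M) := by rw [Int.cast_natCast, ZMod.natCast_zmod_val]
    rw [e1, ZMod.stdAddChar_coe]
    conv_rhs => rw [e2, ZMod.stdAddChar_coe]
    congr 1
    have hL : (L : ℂ) = ((L / M : ℕ) : ℂ) * M := by exact_mod_cast upDefs_eq h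
    have hL0 : (L : ℂ) ≠ 0 := Nat.cast_ne_zero.2 (NeZero.ne L)
    have hM0 : (M : ℂ) ≠ 0 := Nat.cast_ne_zero.2 (NeZero.ne M)
    rw [div_eq_div_iff hL0 hM0, Int.cast_natCast, Int.cast_natCast, Nat.cast_mul]
    conv_rhs => rw [hL]
    ring
  unfold ch1
  rw [← key]
  congr 1
  change lv L a.1 * g.1 + lv L a.2 * g.2 = _
  rw [lv_add h, mul_comm (lv L a.1), mul_comm (lv L a.2), mul_lv h, mul_lv h,
    mul_comm a.1, mul_comm a.2]

end Lv

end Pool.Agent.Tate
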