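import Pool.Agent.P.MP_2ce3e7_ag.UpEmbA

/-! Direct image along the power map between Fermat curves of different degrees. -/

set_option autoImplicit false

noncomputable section

namespace Pool.Agent.Tate

open MvPolynomial

variable {m L : ℕ} {k ι κ : Type} [Field k]

variable [Fintype ι] [Fintype κ]

omit [Fintype κ] in
theorem IsEmb.cls_eq {θ : S k ι →ₐ[k] S k κ} {v : (ι → ℤ) → κ → ℤ} {M : GM L k κ}
    {N N' : GM m k ι} {j : N.M →ₗ[k] M.M} {j' : N'.M →ₗ[k] M.M} (h : IsEmb θ v M N j)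
    (h' : IsEmb θ v M N' j') : cls N = cls N' := by
  obtain ⟨g, h1, h2, -⟩ := h.exists_hom h' (⟨LinearMap.id, fun _ _ => rfl⟩ : Hom M M)
  refine cls_iso g ⟨fun x y hxy => h.inj ?_, h2 Function.surjective_id⟩
  have e1 := h1 x
  have e2 := h1 y
  rw [hxy] at e1
  exact e1.symm.trans e2

omit [Fintype κ] in
theorem UpEmb_ses {θ : S k ι →ₐ[k] S k κ} {v : (ι → ℤ) → κ → ℤ} {M N P : GM L k κ}
    {M' N' P' : GM m k ι} {jM : M'.M →ₗ[k] M.M} {jN : N'.M →ₗ[k] N.M} {jP : P'.M →ₗ[k] P.M}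
    (hM : IsEmb θ v M M' jM) (hN : IsEmb θ v N N' jN) (hP : IsEmb θ v P P' jP)
    {f : Hom M N} {g : Hom N P} (h : SES f g) : cls N' = cls M' + cls P' := by
  obtain ⟨f', f1, -, f3⟩ := hM.exists_hom hN f
  obtain ⟨g', g1, g2, -⟩ := hN.exists_hom hP g
  refine cls_ses (f := f') (g := g') ⟨fun x y hxy => hM.inj (h.1 ?_), g2 h.2.1, fun y => ?_⟩
  · rw [← f1, ← f1, hxy]
  · constructor
    · intro hy
      refine f3 y ?_
      have e := g1 y
      rw [hy, map_zero] at e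
      exact (h.2.2 _).1 e.symm
    · rintro ⟨x, rfl⟩
      apply hP.inj
      rw [g1, f1, map_zero]
      exact (h.2.2 _).2 ⟨_, rfl⟩

omit [Fintype κ] in
theorem UpEmb_tors {e : ℕ} (he : e ≠ 0) {M : GM L k ι} {N : GM m k ι} {j : N.M →ₗ[k] M.M}
    (hN : IsUp e M N j) (h : Tors M) : cls N = 0 := by
  obtain ⟨d₀, hd⟩ := h
  refine cls_tors ⟨fun i => |d₀ i|, fun d hdd => ?_⟩
  have hv : d₀ ≤ (e : ℤ) • d := by
    intro i
    have h1 : |d₀ i| ≤ d i := hdd i
    have h2 := le_abs_self (d₀ i)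
    have h3 := abs_nonneg (d₀ i)
    have h4 : (1 : ℤ) ≤ e := by exact_mod_cast Nat.one_le_iff_ne_zero.2 he
    change d₀ i ≤ (e : ℤ) * d i
    nlinarith
  ext x
  apply hN.inj
  rw [hN.π, hd _ hv]
  simp

theorem exists_upG (m L e : ℕ) (k ι : Type) [Field k] [Fintype ι] :
    ∃ F : G L k ι →ₗ[ℂ] G m k ι, L = m * e → e ≠ 0 →
      ∀ M N j, IsUp e M N j → F (cls M) = cls N := by
  by_cases hc : L = m * e ∧ e ≠ 0
  · obtain ⟨hL, he⟩ := hc
    choose U u hU using fun M : GM L k ι => exists_isUp hL he M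
    obtain ⟨F, hF⟩ := exists_lift (fun M => (cls (U M) : G m k ι))
      (fun M N P _ _ h => UpEmb_ses (hU M) (hU N) (hU P) h)
      (fun M hM => UpEmb_tors he (hU M) hM)
    exact ⟨F, fun _ _ M N j h => (hF M).trans ((hU M).cls_eq h)⟩
  · exact ⟨0, fun h1 h2 => absurd ⟨h1, h2⟩ hc⟩

/-- direct image on classes -/
def upG (m e : ℕ) : G L k ι →ₗ[ℂ] G m k ι := (exists_upG m L e k ι).choose

section Box

open TensorProduct

variable {ι' κ' : Type} {M : GM m k ι} {N : GM m k κ} {P : GM m k (ι ⊕ κ)}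
  {M' : GM L k ι'} {N' : GM L k κ'} {P' : GM L k (ι' ⊕ κ')}

omit [Fintype ι] [Fintype κ]

/-- the map of products induced by two linear maps, at two levels -/
def UpEmb_lin (j : M.M ⊗[k] N.M ≃ₗ[k] P.M) (j' : M'.M ⊗[k] N'.M ≃ₗ[k] P'.M)
    (f : M.M →ₗ[k] M'.M) (g : N.M →ₗ[k] N'.M) : P.M →ₗ[k] P'.M :=
  j'.toLinearMap ∘ₗ TensorProduct.map f g ∘ₗ j.symm.toLinearMap

theorem UpEmb_lin_tmul (j : M.M ⊗[k] N.M ≃ₗ[k] P.M) (j' : M'.M ⊗[k] N'.M ≃ₗ[k] P'.M)
    (f : M.M →ₗ[k] M'.M) (g : N.M →ₗ[k] N'.M) (x : M.M) (y : N.M) :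
    UpEmb_lin j j' f g (j (x ⊗ₜ y)) = j' (f x ⊗ₜ g y) := by
  simp [UpEmb_lin]

theorem UpEmb_lin_smul {j : M.M ⊗[k] N.M ≃ₗ[k] P.M} {j' : M'.M ⊗[k] N'.M ≃ₗ[k] P'.M}
    (h : IsBox M N P j) (h' : IsBox M' N' P' j')
    (f : M.M →ₗ[k] M'.M) (g : N.M →ₗ[k] N'.M) (θ₁ : S k ι →ₐ[k] S k ι')
    (θ₂ : S k κ →ₐ[k] S k κ') (θ : S k (ι ⊕ κ) →ₐ[k] S k (ι' ⊕ κ'))
    (hf : ∀ (s : S k ι) x, f (s • x) = θ₁ s • f x) (hg : ∀ (s : S k κ) x, g (s • x) = θ₂ s • g x)
    (h1 : ∀ i a, θ (X (Sum.inl i, a)) = rn Sum.inl (θ₁ (X (i, a))))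
    (h2 : ∀ i a, θ (X (Sum.inr i, a)) = rn Sum.inr (θ₂ (X (i, a)))) (s : S k (ι ⊕ κ)) (z : P.M) :
    UpEmb_lin j j' f g (s • z) = θ s • UpEmb_lin j j' f g z := by
  refine smul_of_X θ (UpEmb_lin j j' f g) ?_ s z
  rintro ⟨i | i, a⟩ z
  · refine box_ext j (p := fun z => UpEmb_lin j j' f g ((X (Sum.inl i, a) : S k (ι ⊕ κ)) • z) =
      θ (X (Sum.inl i, a)) • UpEmb_lin j j' f g z) (by simp) (fun x y => ?_)
      (fun x y hx hy => ?_) z
    · have e : (X (Sum.inl i, a) : S k (ι ⊕ κ)) = rn Sum.inl (X (i, a) : S k ι) :=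
        (rn_X Sum.inl (i, a)).symm
      rw [h1, UpEmb_lin_tmul, box_smul_inl h', e, box_smul_inl h, UpEmb_lin_tmul, hf]
    · simp only [smul_add, map_add] at hx hy ⊢
      rw [hx, hy]
  · refine box_ext j (p := fun z => UpEmb_lin j j' f g ((X (Sum.inr i, a) : S k (ι ⊕ κ)) • z) =
      θ (X (Sum.inr i, a)) • UpEmb_lin j j' f g z) (by simp) (fun x y => ?_)
      (fun x y hx hy => ?_) z
    · have e : (X (Sum.inr i, a) : S k (ι ⊕ κ)) = rn Sum.inr (X (i, a) : S k κ) :=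
        (rn_X Sum.inr (i, a)).symm
      rw [h2, UpEmb_lin_tmul, box_smul_inr h', e, box_smul_inr h, UpEmb_lin_tmul, hg]
    · simp only [smul_add, map_add] at hx hy ⊢
      rw [hx, hy]

theorem UpEmb_lin_π {j : M.M ⊗[k] N.M ≃ₗ[k] P.M} {j' : M'.M ⊗[k] N'.M ≃ₗ[k] P'.M}
    (h : IsBox M N P j) (h' : IsBox M' N' P' j')
    (f : M.M →ₗ[k] M'.M) (g : N.M →ₗ[k] N'.M) (d : ι ⊕ κ → ℤ) (d' : ι' ⊕ κ' → ℤ)
    (hf : ∀ x, f (M.π (d ∘ Sum.inl) x) = M'.π (d' ∘ Sum.inl) (f x))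
    (hg : ∀ x, g (N.π (d ∘ Sum.inr) x) = N'.π (d' ∘ Sum.inr) (g x)) (z : P.M) :
    UpEmb_lin j j' f g (P.π d z) = P'.π d' (UpEmb_lin j j' f g z) := by
  refine box_ext j (p := fun z => UpEmb_lin j j' f g (P.π d z) =
    P'.π d' (UpEmb_lin j j' f g z)) (by simp) (fun x y => ?_) (fun x y hx hy => ?_) z
  · rw [box_π_tmul h, UpEmb_lin_tmul, UpEmb_lin_tmul, box_π_tmul h', hf, hg]
  · simp only [map_add] at hx hy ⊢
    rw [hx, hy]

end Box

variable {e : ℕ} (hL : L = m * e) (he : e ≠ 0)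
include hL he

theorem IsUp.upG_cls {M : GM L k ι} {N : GM m k ι} {j : N.M →ₗ[k] M.M} (h : IsUp e M N j) :
    upG m e (cls M) = cls N := (exists_upG m L e k ι).choose_spec hL he M N j h

theorem upG_pull {D : PD m k ι κ} {D' : PD L k ι κ} (hs : Function.Surjective D.τ)
    (hs' : Function.Surjective D'.τ)
    (hφ : ∀ v, D'.φ (expand e (X v)) = expand e (D.φ (X v)))
    (hv : ∀ d, D'.val ((e : ℤ) • d) = (e : ℤ) • D.val d) (x : G L k κ) :
    upG m e (pullG D' x) = pullG D (upG m e x) := by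
  have key : (upG m e).comp (pullG D') = (pullG D).comp (upG m e) := by
    refine G.ext fun M => ?_
    obtain ⟨N, j, hN⟩ := exists_isPull D' M
    obtain ⟨P, j', hP⟩ := exists_isUp (m := m) hL he N
    obtain ⟨N₂, j₂, hN₂⟩ := exists_isUp (m := m) hL he M
    obtain ⟨P₂, j₂', hP₂⟩ := exists_isPull D N₂
    rw [LinearMap.comp_apply, LinearMap.comp_apply, hN.pullG_cls hs', hP.upG_cls hL he,
      hN₂.upG_cls hL he, hP₂.pullG_cls hs]
    have h1 := hN.isEmb.comp hP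
    have h2 := IsEmb.comp hN₂ hP₂.isEmb
    have e1 : D'.φ.comp (expand e) = (expand e : S k κ →ₐ[k] S k κ).comp D.φ :=
      MvPolynomial.algHom_ext hφ
    have e2 : (D'.val ∘ fun d => (e : ℤ) • d) = (fun d => (e : ℤ) • d) ∘ D.val := funext hv
    rw [e1, e2] at h1
    exact h1.cls_eq h2
  exact LinearMap.congr_fun key x

theorem upG_box (x : G L k ι) (y : G L k κ) :
    upG m e (boxG x y) = boxG (upG m e x) (upG m e y) := by
  have key : ∀ (M : GM L k ι) (N : GM L k κ),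
      upG m e (boxG (cls M) (cls N)) = boxG (upG m e (cls M)) (upG m e (cls N)) := by
    intro M N
    obtain ⟨M', a, ha⟩ := exists_isUp (m := m) hL he M
    obtain ⟨N', b, hb⟩ := exists_isUp (m := m) hL he N
    obtain ⟨P, j, h⟩ := exists_isBox M N
    obtain ⟨P', j', h'⟩ := exists_isBox M' N'
    rw [ha.upG_cls hL he, hb.upG_cls hL he, h.boxG_cls, h'.boxG_cls]
    refine IsUp.upG_cls hL he (j := UpEmb_lin j' j a b) ⟨?_, ?_, fun d => ?_, fun d z => ?_⟩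
    · have hinj : Function.Injective (TensorProduct.map a b) := by
        rw [← LinearMap.lTensor_comp_rTensor]
        exact (Module.Flat.lTensor_preserves_injective_linearMap _ hb.inj).comp
          (Module.Flat.rTensor_preserves_injective_linearMap _ ha.inj)
      exact j.injective.comp (hinj.comp j'.symm.injective)
    · refine UpEmb_lin_smul h' h a b (expand e) (expand e) (expand e) ha.smul hb.smul
        (fun i c => ?_) fun i c => ?_
      · rw [expand_X, expand_X, map_pow, rn_X]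
      · rw [expand_X, expand_X, map_pow, rn_X]
    · exact UpEmb_lin_π h' h a b d _ (fun x => ha.π _ x) fun x => hb.π _ x
    · refine box_ext j (p := fun z => P.π ((e : ℤ) • d) z ∈
        LinearMap.range (UpEmb_lin j' j a b)) (by simp) (fun x y => ?_) (fun x y hx hy => ?_) z
      · rw [box_π_tmul h]
        obtain ⟨x', hx'⟩ := ha.surj (d ∘ Sum.inl) x
        obtain ⟨y', hy'⟩ := hb.surj (d ∘ Sum.inr) y
        exact ⟨j' (TensorProduct.tmul k x' y'), by rw [UpEmb_lin_tmul, hx', hy']; rfl⟩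
      · simp only [map_add] at hx hy ⊢
        exact add_mem hx hy
  induction x using G.ind with
  | h0 => simp
  | h2 x x' hx hx' => simp only [map_add, LinearMap.add_apply, hx, hx']
  | h3 c x hx => simp only [map_smul, LinearMap.smul_apply, hx]
  | h1 M =>
    induction y using G.ind with
    | h0 => simp
    | h2 y y' hy hy' => simp only [map_add, hy, hy']
    | h3 c y hy => simp only [map_smul, hy]
    | h1 N => exact key M N

end Pool.Agent.Tate
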