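import Pool.Agent.P.MP_2ce3e7_ag.Box

/-! Direct image along the power map between Fermat curves of different degrees. -/

set_option autoImplicit false

noncomputable section

namespace Pool.Agent.Tate

open MvPolynomial

variable {m L : ℕ} {k ι κ μ : Type} [Field k]

/-- `N` is the part of `M` in the degrees `v d`, with the action through `θ` -/
structure IsEmb (θ : S k ι →ₐ[k] S k κ) (v : (ι → ℤ) → κ → ℤ) (M : GM L k κ) (N : GM m k ι)
    (j : N.M →ₗ[k] M.M) : Prop where
  inj : Function.Injective j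
  smul : ∀ (f : S k ι) x, j (f • x) = θ f • j x
  π : ∀ d x, j (N.π d x) = M.π (v d) (j x)
  surj : ∀ d x, M.π (v d) x ∈ LinearMap.range j

/-- direct images of modules -/
abbrev IsUp (e : ℕ) (M : GM L k ι) (N : GM m k ι) (j : N.M →ₗ[k] M.M) : Prop :=
  IsEmb (expand e) (fun d => (e : ℤ) • d) M N j

theorem IsPull.isEmb {D : PD m k ι κ} {M : GM m k κ} {N : GM m k ι} {j : N.M →ₗ[k] M.M}
    (h : IsPull D M N j) : IsEmb D.φ D.val M N j := ⟨h.inj, h.smul, h.π, h.surj⟩

theorem IsEmb.comp {n : ℕ} {θ : S k ι →ₐ[k] S k κ} {v : (ι → ℤ) → κ → ℤ} {M : GM L k κ}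
    {N : GM m k ι} {j : N.M →ₗ[k] M.M} {θ' : S k μ →ₐ[k] S k ι} {v' : (μ → ℤ) → ι → ℤ}
    {P : GM n k μ} {j' : P.M →ₗ[k] N.M} (h : IsEmb θ v M N j) (h' : IsEmb θ' v' N P j') :
    IsEmb (θ.comp θ') (v ∘ v') M P (j ∘ₗ j') := by
  refine ⟨h.inj.comp h'.inj, fun f x => ?_, fun e x => ?_, fun e x => ?_⟩
  · rw [LinearMap.comp_apply, h'.smul, h.smul]; rfl
  · rw [LinearMap.comp_apply, h'.π, h.π]; rfl
  · obtain ⟨y, hy⟩ := h.surj (v' e) x
    obtain ⟨z, hz⟩ := h'.surj e y
    exact ⟨z, by rw [LinearMap.comp_apply, hz, h.π, hy, M.π_self]; rfl⟩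

/-- functoriality -/
theorem IsEmb.exists_hom {θ : S k ι →ₐ[k] S k κ} {v : (ι → ℤ) → κ → ℤ} {M M' : GM L k κ}
    {N N' : GM m k ι} {j : N.M →ₗ[k] M.M} {j' : N'.M →ₗ[k] M'.M} (h : IsEmb θ v M N j)
    (h' : IsEmb θ v M' N' j') (f : Hom M M') : ∃ g : Hom N N', (∀ x, j' (g.f x) = f.f (j x)) ∧
      (Function.Surjective f.f → Function.Surjective g.f) ∧
      ∀ y, j' y ∈ LinearMap.range f.f → y ∈ LinearMap.range g.f := by
  have h1 : ∀ x, (f.f.restrictScalars k ∘ₗ j) x ∈ LinearMap.range j' := by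
    intro x
    obtain ⟨s, hs⟩ := N.sum_π x
    rw [← hs, map_sum]
    refine Submodule.sum_mem _ fun e _ => ?_
    change f.f (j (N.π e x)) ∈ _
    rw [h.π, f.π]
    exact h'.surj e _
  obtain ⟨g, hg⟩ : ∃ g : N.M →ₗ[k] N'.M, ∀ x, j' (g x) = f.f (j x) :=
    ⟨(LinearEquiv.ofInjective j' h'.inj).symm.toLinearMap ∘ₗ
      (f.f.restrictScalars k ∘ₗ j).codRestrict _ h1, fun x =>
        LinearEquiv.ofInjective_symm_apply j' (h := h'.inj) _⟩
  let g' : Hom N N' := Hom.mk' g
    (fun a x => h'.inj (by rw [hg, h.smul, map_smul, h'.smul, hg]))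
    fun e x => h'.inj (by rw [hg, h.π, f.π, h'.π, hg])
  have h2 : ∀ y, j' y ∈ LinearMap.range f.f → y ∈ LinearMap.range g'.f := by
    rintro y ⟨z, hz⟩
    refine N'.mem_of_π (W := (LinearMap.range g'.f).toAddSubgroup) fun e => ?_
    obtain ⟨w, hw⟩ := h.surj e z
    exact ⟨w, h'.inj ((hg w).trans (by rw [hw, f.π, hz, h'.π]))⟩
  exact ⟨g', hg, fun hs y => h2 y (hs _), h2⟩

theorem upEmbA_fer {e : ℕ} (hL : L = m * e) (i : ι) : expand e (fer m k i) = fer L k i := by
  simp only [fer, map_sub, map_add, map_pow, expand_X, ← pow_mul, hL, mul_comm e m]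

theorem expand_mem_Fer {e : ℕ} (hL : L = m * e) {f : S k ι} (hf : f ∈ Fer m k ι) :
    expand e f ∈ Fer L k ι := by
  have : Fer m k ι ≤ (Fer L k ι).comap (expand e : S k ι →ₐ[k] S k ι) := Ideal.span_le.2 (by
    rintro _ ⟨i, rfl⟩
    change expand e (fer m k i) ∈ Fer L k ι
    rw [upEmbA_fer hL]
    exact Ideal.subset_span ⟨i, rfl⟩)
  exact this hf

theorem upEmbA_contract {σ : Type} {e : ℕ} (he : e ≠ 0) :
    ∃ ψ : MvPolynomial σ k →ₗ[k] MvPolynomial σ k, ψ 1 = 1 ∧
      ∀ g h, ψ (expand e g * h) = g * ψ h := by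
  classical
  let ψ : MvPolynomial σ k →ₗ[k] MvPolynomial σ k := (basisMonomials σ k).constr k fun r =>
    if ∀ v, e ∣ r v then monomial (r.mapRange (· / e) (Nat.zero_div e)) 1 else 0
  have h1 : ∀ r (b : k), ψ (monomial r b) =
      if ∀ v, e ∣ r v then monomial (r.mapRange (· / e) (Nat.zero_div e)) b else 0 := by
    intro r b
    have h2 : (monomial r b : MvPolynomial σ k) = b • basisMonomials σ k r := by
      rw [coe_basisMonomials, smul_monomial, smul_eq_mul, mul_one]
    rw [h2, map_smul, Module.Basis.constr_basis]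
    split_ifs
    · rw [smul_monomial, smul_eq_mul, mul_one]
    · rw [smul_zero]
  refine ⟨ψ, ?_, fun g h => ?_⟩
  · rw [one_def, h1, if_pos (fun v => by simp), Finsupp.mapRange_zero]
  · induction g using MvPolynomial.induction_on' with
    | add p q hp hq => rw [map_add, add_mul, map_add, hp, hq, add_mul]
    | monomial s a =>
      induction h using MvPolynomial.induction_on' with
      | add p q hp hq => rw [mul_add, map_add, hp, hq, map_add, mul_add]
      | monomial r b =>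
        rw [expand_monomial, monomial_mul, h1, h1]
        have h3 : (∀ v, e ∣ (e • s + r) v) ↔ ∀ v, e ∣ r v := forall_congr' fun v => by
          rw [Finsupp.add_apply, Finsupp.smul_apply, smul_eq_mul]
          exact Nat.dvd_add_right (dvd_mul_right _ _)
        by_cases h4 : ∀ v, e ∣ r v
        · rw [if_pos (h3.2 h4), if_pos h4, monomial_mul]
          congr 2
          ext v
          simp only [Finsupp.mapRange_apply, Finsupp.add_apply, Finsupp.smul_apply, smul_eq_mul]
          exact Nat.mul_add_div (Nat.pos_of_ne_zero he) _ _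
        · rw [if_neg (fun h5 => h4 (h3.1 h5)), if_neg h4, mul_zero]

theorem mem_Fer_of_expand {e : ℕ} (hL : L = m * e) (he : e ≠ 0) {f : S k ι}
    (hf : expand e f ∈ Fer L k ι) : f ∈ Fer m k ι := by
  obtain ⟨ψ, h1, h2⟩ := upEmbA_contract (k := k) (σ := ι × Fin 3) he
  have key : ∀ x ∈ Fer L k ι, ∀ h, ψ (x * h) ∈ Fer m k ι := by
    intro x hx
    induction hx using Submodule.span_induction with
    | mem x hx =>
      obtain ⟨i, rfl⟩ := hx
      intro h
      rw [← upEmbA_fer hL, h2]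
      exact Ideal.mul_mem_right _ _ (Ideal.subset_span ⟨i, rfl⟩)
    | zero => intro h; rw [zero_mul, map_zero]; exact zero_mem _
    | add x y _ _ hx hy => intro h; rw [add_mul, map_add]; exact add_mem (hx h) (hy h)
    | smul a x _ hx => intro h; rw [smul_eq_mul, mul_comm a, mul_assoc]; exact hx _
  have := key _ hf 1
  rwa [h2, h1, mul_one] at this

theorem upEmbA_hg_X (e : ℕ) (v : ι × Fin 3) :
    Hg (expand e (X v : S k ι)) ((e : ℤ) • wt v) := by
  rw [expand_X, natCast_zsmul]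
  exact (hg_X (k := k) v).pow e

theorem hg_expand (e : ℕ) {f : S k ι} {d : ι → ℤ} (hf : Hg f d) :
    Hg (expand e f) ((e : ℤ) • d) :=
  hom_map (expand e) (AddMonoidHom.mk' (fun d => (e : ℤ) • d) fun a b => smul_add _ a b)
    (upEmbA_hg_X e) hf

theorem upEmbA_inj {e : ℕ} (he : e ≠ 0) : Function.Injective fun d : ι → ℤ => (e : ℤ) • d :=
  smul_right_injective _ (by exact_mod_cast he)

/-- the part of a module in the degrees divisible by `e` -/
def upEmbA_W (e : ℕ) (M : GM L k ι) : Submodule k M.M where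
  carrier := {x | ∀ d, d ∉ Set.range (fun d : ι → ℤ => (e : ℤ) • d) → M.π d x = 0}
  add_mem' ha hb d hd := by rw [map_add, ha d hd, hb d hd, add_zero]
  zero_mem' _ _ := map_zero _
  smul_mem' c x hx d hd := by rw [map_smul, hx d hd, smul_zero]

theorem upEmbA_π_mem (e : ℕ) (M : GM L k ι) (d : ι → ℤ) (x : M.M) :
    M.π ((e : ℤ) • d) x ∈ upEmbA_W e M := fun _ hd =>
  M.π_ne _ _ _ fun h => hd ⟨d, h.symm⟩

theorem upEmbA_π_X (e : ℕ) (M : GM L k ι) (v : ι × Fin 3) (d : ι → ℤ) (x : M.M) :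
    M.π ((e : ℤ) • (d + wt v)) (expand e (X v : S k ι) • x) =
      expand e (X v : S k ι) • M.π ((e : ℤ) • d) x := by
  rw [smul_add, M.π_smul (upEmbA_hg_X e v)]

theorem upEmbA_smul_mem (e : ℕ) (M : GM L k ι) (f : S k ι) :
    ∀ x ∈ upEmbA_W e M, expand e f • x ∈ upEmbA_W e M := by
  induction f using MvPolynomial.induction_on with
  | C a =>
    intro x hx
    rw [algHom_C, algebraMap_smul]
    exact Submodule.smul_mem _ _ hx
  | add f g hf hg =>
    intro x hx
    rw [map_add, add_smul]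
    exact add_mem (hf x hx) (hg x hx)
  | mul_X f v hf =>
    intro x hx
    rw [map_mul, mul_smul]
    refine hf _ fun d hd => ?_
    have h1 := M.π_smul (upEmbA_hg_X e v) (d - (e : ℤ) • wt v) x
    rw [sub_add_cancel] at h1
    rw [h1, hx, smul_zero]
    rintro ⟨c, hc⟩
    refine hd ⟨c + wt v, ?_⟩
    simp only at hc ⊢
    rw [smul_add, hc, sub_add_cancel]

theorem upEmbA_sum {e : ℕ} (he : e ≠ 0) (M : GM L k ι) {x : M.M} (hx : x ∈ upEmbA_W e M) :
    ∃ s : Finset (ι → ℤ), ∑ d ∈ s, M.π ((e : ℤ) • d) x = x := by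
  classical
  have hf := (M.finite_supp x).preimage ((upEmbA_inj he).injOn)
  refine ⟨hf.toFinset, ?_⟩
  rw [← Finset.sum_image (f := fun d => M.π d x) (g := fun d : ι → ℤ => (e : ℤ) • d)
    fun a _ b _ h => upEmbA_inj he h]
  refine M.sum_of_supp x fun d hd => ?_
  have : d ∈ Set.range fun d : ι → ℤ => (e : ℤ) • d := by
    by_contra h
    exact hd (hx d h)
  obtain ⟨c, rfl⟩ := this
  exact Finset.mem_image_of_mem _ (hf.mem_toFinset.2 hd)

/-- the action on the direct image -/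
def upEmbA_ρ (e : ℕ) (M : GM L k ι) : S k ι →ₐ[k] Module.End k (upEmbA_W e M) where
  toFun f := (Algebra.lsmul k k M.M (expand e f)).restrict (upEmbA_smul_mem e M f)
  map_one' := by ext x; simp
  map_mul' f g := by ext x; simp
  map_zero' := by ext x; simp
  map_add' f g := by ext x; simp
  commutes' a := by ext x; simp [-algebraMap_eq]

theorem upEmbA_fg [Fintype ι] {e : ℕ} (he : e ≠ 0) (M : GM L k ι) :
    ∃ s : Set M.M, s.Finite ∧ s ⊆ upEmbA_W e M ∧
      upEmbA_W e M ≤ Submodule.span k {y | ∃ f : S k ι, ∃ x ∈ s, y = expand e f • x} := by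
  classical
  obtain ⟨n, x, d, hx, hsp⟩ := M.exists_gens
  let B : ι × Fin 3 →₀ ℕ := Finsupp.equivFunOnFinite.symm fun _ => e
  let s : Set M.M := (⋃ i, (fun r => (monomial r 1 : S k ι) • x i) '' Set.Iic B) ∩ upEmbA_W e M
  refine ⟨s, (Set.finite_iUnion fun i => (Set.finite_Iic _).image _).inter_of_left _,
    Set.inter_subset_right, ?_⟩
  set U := Submodule.span k {y | ∃ f : S k ι, ∃ x ∈ s, y = expand e f • x} with hU
  have hU1 : ∀ g : S k ι, ∀ y ∈ U, expand e g • y ∈ U := by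
    intro g y hy
    induction hy using Submodule.span_induction with
    | mem y hy =>
      obtain ⟨f, z, hz, rfl⟩ := hy
      exact Submodule.subset_span ⟨g * f, z, hz, by rw [map_mul, mul_smul]⟩
    | zero => rw [smul_zero]; exact zero_mem _
    | add y z _ _ hy hz => rw [smul_add]; exact add_mem hy hz
    | smul a y _ hy => rw [smul_comm]; exact Submodule.smul_mem _ _ hy
  have key : ∀ (i : Fin n) (r : ι × Fin 3 →₀ ℕ) (c : ι → ℤ),
      Finsupp.weight wt r = (e : ℤ) • c - d i → (monomial r 1 : S k ι) • x i ∈ U := by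
    intro i r
    induction r using WellFoundedLT.induction with
    | ind r ih =>
    intro c hc
    by_cases h : ∃ v : ι × Fin 3, e ≤ r v
    · obtain ⟨v, hv⟩ := h
      have h1 : Finsupp.single v e ≤ r := Finsupp.single_le_iff.2 hv
      obtain ⟨r', rfl⟩ := exists_add_of_le h1
      have h2 : r' < Finsupp.single v e + r' :=
        lt_add_of_pos_left _ (pos_iff_ne_zero.2 (Finsupp.single_ne_zero.2 he))
      have h3 := ih r' h2 (c - wt v) (by
        rw [map_add, Finsupp.weight_single] at hc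
        rw [smul_sub, natCast_zsmul (wt v), ← add_left_inj (e • wt v), add_comm, hc]
        abel)
      have h5 : (monomial (Finsupp.single v e + r') 1 : S k ι) =
          expand e (X v) * monomial r' 1 := by
        rw [expand_X, X_pow_eq_monomial, monomial_mul, one_mul]
      rw [h5, mul_smul]
      exact hU1 _ _ h3
    · push Not at h
      have hg : Hg (monomial r 1 : S k ι) ((e : ℤ) • c - d i) :=
        isWeightedHomogeneous_monomial _ _ _ hc
      refine Submodule.subset_span ⟨1, (monomial r 1 : S k ι) • x i,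
        ⟨Set.mem_iUnion.2 ⟨i, r, fun v => (h v).le, rfl⟩, ?_⟩, by rw [map_one (expand e), one_smul]⟩
      have h1 := M.π_smul hg (d i) (x i)
      rw [hx, add_sub_cancel] at h1
      rw [← h1]
      exact upEmbA_π_mem e M c _
  intro y hy
  obtain ⟨t, ht⟩ := upEmbA_sum he M hy
  rw [← ht]
  refine Submodule.sum_mem _ fun c _ => ?_
  obtain ⟨f, hf⟩ := (Submodule.mem_span_range_iff_exists_fun (S k ι)).1
    (hsp ▸ Submodule.mem_top : y ∈ Submodule.span (S k ι) (Set.range x))
  rw [← hf, map_sum]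
  refine Submodule.sum_mem _ fun i _ => ?_
  have h1 := M.π_smul_hom (hx i) (f i) ((e : ℤ) • c - d i)
  rw [sub_add_cancel] at h1
  have h2 : Hg (cmp ((e : ℤ) • c - d i) (f i)) ((e : ℤ) • c - d i) :=
    weightedHomogeneousComponent_isWeightedHomogeneous _ _
  rw [h1, (cmp ((e : ℤ) • c - d i) (f i)).as_sum, Finset.sum_smul]
  refine Submodule.sum_mem _ fun r hr => ?_
  rw [← mul_one (coeff r _), ← C_mul_monomial, mul_smul, M.C_smul]
  exact Submodule.smul_mem _ _ (key i r c (h2 (mem_support_iff.1 hr)))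

variable [Fintype ι]

theorem exists_isUp {e : ℕ} (hL : L = m * e) (he : e ≠ 0) (M : GM L k ι) :
    ∃ (N : GM m k ι) (j : N.M →ₗ[k] M.M), IsUp e M N j := by
  refine ⟨GM.ofRep (upEmbA_W e M) (upEmbA_ρ e M)
    (fun d => (M.π ((e : ℤ) • d)).restrict fun x _ => upEmbA_π_mem e M d x) ?_
    (fun d x => Subtype.ext (M.π_self _ _))
    (fun d d' x h => Subtype.ext (M.π_ne _ _ _ fun h' => h (upEmbA_inj he h')))
    (fun x => ?_) (fun v d x => Subtype.ext (upEmbA_π_X e M v d x))
    (fun i x => Subtype.ext (GM.mem_ann.1 (M.Fer_le_ann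
      (expand_mem_Fer hL (Ideal.subset_span ⟨i, rfl⟩))) x.1)),
    (upEmbA_W e M).subtype, Subtype.val_injective, fun _ _ => rfl, fun _ _ => rfl,
    fun d x => ⟨⟨_, upEmbA_π_mem e M d x⟩, rfl⟩⟩
  · obtain ⟨s, h1, h2, h3⟩ := upEmbA_fg he M
    refine ⟨Subtype.val ⁻¹' s, h1.preimage Subtype.val_injective.injOn, eq_top_iff.2 fun w _ => ?_⟩
    have h4 : Submodule.span k {y | ∃ f : S k ι, ∃ x ∈ s, y = expand e f • x} ≤
        (Submodule.span k {y | ∃ f, ∃ x ∈ Subtype.val ⁻¹' s, y = upEmbA_ρ e M f x}).map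
          (upEmbA_W e M).subtype := Submodule.span_le.2 (by
      rintro _ ⟨f, x, hx, rfl⟩
      exact ⟨_, Submodule.subset_span ⟨f, ⟨x, h2 hx⟩, hx, rfl⟩, rfl⟩)
    obtain ⟨u, hu, e⟩ := h4 (h3 w.2)
    rwa [← show u = w from Subtype.ext e]
  · obtain ⟨s, hs⟩ := upEmbA_sum he M x.2
    exact ⟨s, Subtype.ext (by rw [Submodule.coe_sum]; exact hs)⟩

end Pool.Agent.Tate
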