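import Pool.Agent.P.MP_2ce3e7_ag.UpTwoA

/-! The prime two for levels with four square roots of one. -/

set_option autoImplicit false

noncomputable section

namespace Pool.Agent.Tate

/-- vectors with a good odd multiple -/
def upTwoG {p M : ℕ} [NeZero M] (hM : Adm M) (hpM : p.Coprime M) :
    AddSubgroup ((ZMod M)ˣ → ℤ) where
  carrier := {y | ∃ l : ℕ, Odd l ∧ Good p (l • y)}
  add_mem' := by
    rintro y y' ⟨l, h1, h2⟩ ⟨l', h3, h4⟩
    refine ⟨l * l', h1.mul h3, ?_⟩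
    have h5 := (h2.zsmul l').add (h4.zsmul l)
    rwa [natCast_zsmul, natCast_zsmul, smul_smul, smul_smul, mul_comm l' l, ← smul_add] at h5
  zero_mem' := ⟨1, odd_one, good_of_XD hM hpM (by rw [smul_zero]; exact zero_mem _)⟩
  neg_mem' := by
    rintro y ⟨l, h1, h2⟩
    refine ⟨l, h1, ?_⟩
    have h3 := h2.zsmul (-1)
    rwa [neg_one_zsmul, ← smul_neg] at h3

theorem upTwo_XD {p M : ℕ} [NeZero M] (hM : Adm M) (hpM : p.Coprime M) {y : (ZMod M)ˣ → ℤ}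
    (h : y ∈ XD p M) : y ∈ upTwoG hM hpM :=
  ⟨1, odd_one, good_of_XD hM hpM (by rwa [one_smul])⟩

theorem upTwo_sat {p M : ℕ} [NeZero M] (hM : Adm M) (hpM : p.Coprime M) {y : (ZMod M)ˣ → ℤ}
    {k : ℤ} (hk : Odd k) (h : k • y ∈ upTwoG hM hpM) : y ∈ upTwoG hM hpM := by
  have h1 : k.natAbs • y ∈ upTwoG hM hpM := by
    rw [← natCast_zsmul, ← Int.sign_mul_self, mul_smul]
    exact zsmul_mem h _
  obtain ⟨l, h2, h3⟩ := h1
  exact ⟨l * k.natAbs, h2.mul (Int.natAbs_odd.2 hk), by rwa [mul_smul]⟩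

/-- the elements killed by `n` -/
abbrev upTwoH (G : Type) [CommGroup G] (n : ℕ) : Subgroup G := (powMonoidHom n : G →* G).ker

theorem upTwo_card {G : Type} [CommGroup G] {n : ℕ} (hn : Odd n) [Fintype (upTwoH G n)] :
    Odd (Fintype.card (upTwoH G n)) := by
  rw [← Nat.not_even_iff_odd, even_iff_two_dvd]
  intro h
  obtain ⟨x, hx⟩ := exists_prime_orderOf_dvd_card 2 h
  have h1 : x ^ n = 1 := Subtype.ext x.2
  have h2 := orderOf_dvd_of_pow_eq_one h1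
  rw [hx, ← even_iff_two_dvd] at h2
  exact Nat.not_even_iff_odd.2 hn h2

theorem upTwo_shift {G Y : Type} [CommGroup G] [AddCommMonoid Y] {n : ℕ} [Fintype (upTwoH G n)]
    (φ : G → Y) (t : upTwoH G n) : ∑ s : upTwoH G n, φ (t * s) = ∑ s : upTwoH G n, φ s :=
  Equiv.sum_comp (Equiv.mulLeft t) fun s : upTwoH G n => φ s

theorem upTwo_sign {G : Type} [CommGroup G] {n : ℕ} (hn : Odd n) [Fintype (upTwoH G n)]
    (hexp : ∀ t : G, t ^ (2 * n) = 1) {u v : G}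
    (hroots : ∀ ε : G, ε ^ 2 = 1 → ε = 1 ∨ ε = u ∨ ε = v ∨ ε = v * u) (t : G) :
    ∃ σ : ℤ, ∀ φ : G → ℤ, (∀ s, φ (s * u) = -φ s) → (∀ s, φ (s * v) = -φ s) →
      ∑ s : upTwoH G n, φ (t * s) = σ * ∑ s : upTwoH G n, φ (1 * s) := by
  have h1 : (t ^ n) ^ 2 = 1 := by rw [← pow_mul, mul_comm, hexp]
  obtain ⟨k, hk⟩ := hn
  have h2 : t ^ n * t ∈ upTwoH G n := by
    show (t ^ n * t) ^ n = 1
    rw [mul_pow, ← pow_succ, show n + 1 = 2 * (k + 1) by omega, pow_mul, h1, one_pow]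
  have h3 : ∀ φ : G → ℤ, ∑ s : upTwoH G n, φ (t * s) = ∑ s : upTwoH G n, φ (s * t ^ n) := by
    intro φ
    rw [← upTwo_shift (fun s => φ (s * t ^ n)) ⟨_, h2⟩]
    refine Finset.sum_congr rfl fun s _ => ?_
    congr 1
    show t * s = t ^ n * t * s * t ^ n
    rw [mul_comm _ (t ^ n), ← mul_assoc, ← mul_assoc, ← sq, h1, one_mul]
  rcases hroots _ h1 with h | h | h | h
  · exact ⟨1, fun φ _ _ => by simp only [h3, h, mul_one, one_mul]⟩
  · exact ⟨-1, fun φ a _ => by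
      rw [h3, h]; simp only [a, one_mul, neg_mul, Finset.sum_neg_distrib]⟩
  · exact ⟨-1, fun φ _ b => by
      rw [h3, h]; simp only [b, one_mul, neg_mul, Finset.sum_neg_distrib]⟩
  · exact ⟨1, fun φ a b => by
      rw [h3, h]; simp only [← mul_assoc, a, b, one_mul, neg_neg]⟩

theorem upTwo_val {M : ℕ} {ι : Type} [Fintype ι] (a : ι → Ch M) (s t : (ZMod M)ˣ) :
    XT a s t = XT a 1 (t * s) := by
  rw [← XT_apply, mul_one]

theorem upTwo_par {M : ℕ} [NeZero M] {ι J : Type} [Fintype ι] [Fintype J] {a : ι → Ch M}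
    (ha : ∀ i, Nd (a i)) (s : J → (ZMod M)ˣ) :
    ∃ c : ℤ, (∑ j, XT a (s j)) 1 = M * (2 * c - Fintype.card J * Fintype.card ι) := by
  obtain ⟨c, hc⟩ : (2 * M : ℤ) ∣ ∑ j, (XT a (s j) 1 + M * Fintype.card ι) :=
    Finset.dvd_sum fun j _ => XT_dvd ha (s j) 1
  rw [Finset.sum_add_distrib, Finset.sum_const, Finset.card_univ, nsmul_eq_mul] at hc
  exact ⟨c, by rw [Finset.sum_apply]; linear_combination hc⟩

variable {p M : ℕ} [NeZero M] (hM : Adm M) (hp : p.Prime) (hpM : p.Coprime M)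
  {n : ℕ} (hn : Odd n) (hexp : ∀ t : (ZMod M)ˣ, t ^ (2 * n) = 1)
  (hroots : ∀ ε : ZMod M, ε ^ 2 = 1 →
    ε = 1 ∨ ε = -1 ∨ ε = (p : ZMod M) ^ n ∨ ε = -(p : ZMod M) ^ n)
  {c₀ : Ch M} (hc₀ : Nd c₀) 
  (hκ : ∀ u : ZMod M, ty (u • (p : ZMod M) ^ n • c₀) = -ty (u • c₀))
  {ι : Type} [Fintype ι] {a : ι → Ch M} (ha : ∀ i, Nd (a i)) (hev : Even (Fintype.card ι))
include hM hp hpM hn hexp hroots hc₀ hκ ha hev

theorem good_anti (h : XT a 1 + XT a ((p : ZMod M) ^ n) = 0) :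
    ∃ l : ℕ, Odd l ∧ Good p (l • XT a 1) := by
  classical
  show XT a 1 ∈ upTwoG hM hpM
  obtain ⟨κ, hκ1⟩ : ∃ κ : (ZMod M)ˣ, (κ : ZMod M) = (p : ZMod M) ^ n :=
    ⟨ZMod.unitOfCoprime p hpM ^ n, by simp⟩
  have h2 : (p : ZMod M) ^ (2 * n) = 1 := by
    simpa using congrArg Units.val (hexp (ZMod.unitOfCoprime p hpM))
  have hodd := upTwo_card (G := (ZMod M)ˣ) hn
  have hr : ∀ ε : (ZMod M)ˣ, ε ^ 2 = 1 → ε = 1 ∨ ε = -1 ∨ ε = κ ∨ ε = κ * -1 := by
    intro ε hε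
    rcases hroots ε (by simpa using congrArg Units.val hε) with e | e | e | e
    · exact Or.inl (Units.ext e)
    · exact Or.inr (Or.inl (Units.ext e))
    · exact Or.inr (Or.inr (Or.inl (Units.ext (e.trans hκ1.symm))))
    · exact Or.inr (Or.inr (Or.inr (Units.ext (by simp [e, hκ1]))))
  have hneg : ∀ {J : Type} [Fintype J] (b : J → Ch M) (s : (ZMod M)ˣ),
      XT b 1 (s * -1) = -XT b 1 s := fun b s => by
    rw [← upTwo_val, Units.val_neg, XT_neg, Units.val_one, Pi.neg_apply]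
  have hk : ∀ {J : Type} [Fintype J] (b : J → Ch M), XT b 1 + XT b ((p : ZMod M) ^ n) = 0 →
      ∀ s : (ZMod M)ˣ, XT b 1 (s * κ) = -XT b 1 s := fun b e s => by
    rw [← upTwo_val, hκ1, eq_neg_of_add_eq_zero_right e, Pi.neg_apply]
  set N := ∑ s : upTwoH (ZMod M)ˣ n, XT a (s : (ZMod M)ˣ) with hN
  set y := ∑ s : upTwoH (ZMod M)ˣ n, XT (fun _ : Unit => c₀) (s : (ZMod M)ˣ) with hy
  have e1 : y 1 • N = N 1 • y := by
    funext t
    obtain ⟨σ, hσ⟩ := upTwo_sign hn hexp hr t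
    have a1 := hσ _ (hneg a) (hk a h)
    have a2 := hσ _ (hneg fun _ : Unit => c₀) (hk _ (by simpa [XT, add_eq_zero_iff_neg_eq] using (hκ 1).symm))
    simp only [hN, hy, Pi.smul_apply, Finset.sum_apply, upTwo_val, smul_eq_mul]
    rw [a1, a2]
    ring
  obtain ⟨c, hc⟩ := upTwo_par ha fun s : upTwoH (ZMod M)ˣ n => (s : (ZMod M)ˣ)
  obtain ⟨d, hd⟩ := upTwo_par (a := fun _ : Unit => c₀) (fun _ => hc₀)
    fun s : upTwoH (ZMod M)ˣ n => (s : (ZMod M)ˣ)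
  obtain ⟨e, he⟩ := hev
  rw [← hN, he] at hc
  rw [← hy, Fintype.card_unit] at hd
  have e2 : (2 * d - Fintype.card (upTwoH (ZMod M)ˣ n) : ℤ) • N =
      (c - Fintype.card (upTwoH (ZMod M)ˣ n) * e : ℤ) • (y + y) := by
    funext t
    have a1 := congrFun e1 t
    simp only [Pi.smul_apply, Pi.add_apply, smul_eq_mul] at a1 ⊢
    rw [hc, hd] at a1
    refine mul_left_cancel₀ (Nat.cast_ne_zero.2 (NeZero.ne M) : (M : ℤ) ≠ 0) ?_
    push_cast at a1
    linear_combination a1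
  have e3 : y + y ∈ XD p M := by
    rw [hy, ← Finset.sum_add_distrib]
    refine sum_mem fun s _ => ?_
    have a1 := ty_sub_mem hpM (hc₀.smul (s : (ZMod M)ˣ).isUnit) n
    rw [smul_comm, hκ, sub_neg_eq_add] at a1
    simpa only [XT, Finset.univ_unique, Finset.sum_singleton] using a1
  have e4 : N ∈ upTwoG hM hpM := by
    refine upTwo_sat hM hpM (k := 2 * d - Fintype.card (upTwoH (ZMod M)ˣ n))
      ((even_two_mul d).sub_odd (by exact_mod_cast hodd)) ?_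
    rw [e2]
    exact zsmul_mem (upTwo_XD hM hpM e3) _
  have e5 : ∀ s s' : upTwoH (ZMod M)ˣ n, XT a 1 + XT a (s : (ZMod M)ˣ) + XT a (s' : (ZMod M)ˣ) +
      XT a (((s : (ZMod M)ˣ) * s' : (ZMod M)ˣ) : ZMod M) ∈ upTwoG hM hpM := by
    obtain ⟨k, hk⟩ := hn
    have a1 : ∀ s : upTwoH (ZMod M)ˣ n,
        (((s : (ZMod M)ˣ) ^ (k + 1) : (ZMod M)ˣ) : ZMod M) ^ 2 = (s : (ZMod M)ˣ) := fun s => by
      have a2 : (s : (ZMod M)ˣ) ^ n = 1 := s.2
      rw [← Units.val_pow_eq_pow_val, ← pow_mul, show (k + 1) * 2 = n + 1 by omega, pow_succ, a2,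
        one_mul]
    intro s s'
    have a3 := goodT hM hp hpM ⟨k, hk⟩ h2 ha h ((s : (ZMod M)ˣ) ^ (k + 1))
      ((s' : (ZMod M)ˣ) ^ (k + 1))
    rw [a1, a1, ← Units.val_mul] at a3
    exact a3
  have e6 := sum_mem (t := Finset.univ) fun s _ => sum_mem (t := Finset.univ) fun s' _ => e5 s s'
  have e7 : ∀ s : upTwoH (ZMod M)ˣ n, ∑ s' : upTwoH (ZMod M)ˣ n,
      XT a (((s : (ZMod M)ˣ) * s' : (ZMod M)ˣ) : ZMod M) = N := fun s =>
    upTwo_shift (fun t : (ZMod M)ˣ => XT a t) s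
  simp only [Finset.sum_add_distrib, e7, Finset.sum_const, Finset.card_univ, ← Finset.smul_sum,
    ← hN] at e6
  have e9 := nsmul_mem e4 (Fintype.card (upTwoH (ZMod M)ˣ n))
  have e8 := sub_mem (sub_mem (sub_mem e6 e9) e9) e9
  rw [add_sub_cancel_right, add_sub_cancel_right, add_sub_cancel_right, ← natCast_zsmul,
    ← natCast_zsmul] at e8
  exact upTwo_sat hM hpM (by exact_mod_cast hodd) (upTwo_sat hM hpM (by exact_mod_cast hodd) e8)

theorem good_two (h : ∑ s ∈ Finset.range (2 * n), ∑ i, ty ((p : ZMod M) ^ s • a i) = 0) :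
    ∃ l : ℕ, Odd l ∧ Good p (l • ∑ i, ty (a i)) := by
  show ∑ i, ty (a i) ∈ upTwoG hM hpM
  have hu : IsUnit (p : ZMod M) := (ZMod.isUnit_iff_coprime p M).2 hpM
  have h1 : XT (fun x : Fin n × ι => (p : ZMod M) ^ (x.1 : ℕ) • a x.2) 1 ∈ upTwoG hM hpM := by
    refine good_anti hM hp hpM hn hexp hroots hc₀ hκ (fun x => (ha x.2).smul (hu.pow _))
      (by rw [Fintype.card_prod]; exact hev.mul_left _) ?_
    rw [two_mul, Finset.sum_range_add, Finset.sum_range, Finset.sum_range] at h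
    simpa only [XT, Fintype.sum_prod_type, one_mul, smul_smul, ← pow_add] using h
  have h2 : ∑ x : Fin n × ι, (ty (a x.2) - ty ((p : ZMod M) ^ (x.1 : ℕ) • a x.2)) ∈ XD p M :=
    sum_mem fun x _ => ty_sub_mem hpM (ha x.2) _
  have h3 := add_mem (upTwo_XD hM hpM h2) h1
  simp only [XT, one_smul, Finset.sum_sub_distrib, sub_add_cancel] at h3
  rw [Fintype.sum_prod_type] at h3
  simp only [Finset.sum_const, Finset.card_univ, Fintype.card_fin] at h3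
  rw [← natCast_zsmul] at h3
  exact upTwo_sat hM hpM (by exact_mod_cast hn) h3

end Pool.Agent.Tate
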