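import Pool.Agent.P.MP_2ce3e7_ag.UpMain
import Pool.Agent.P.MP_2ce3e7_ag.UpTwo
import Pool.Agent.P.MP_2ce3e7_ag.UpChar

/-! Existence of cycles under the condition on odd characters. -/

set_option autoImplicit false

noncomputable section

namespace Pool.Agent.Tate

variable {m : ℕ} [NeZero m] {p : ℕ} [Fact p.Prime]

omit [Fact p.Prime] in
theorem even_of_jac {F ι : Type} [Field F] [Fintype F] [Fintype ι] {z : F}
    (hz : IsPrimitiveRoot z m) {a : ι → Ch m} (ha : ∀ i, Nd (a i)) {e : ℤ}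
    (h : ∏ i, -Jac z (a i) = (Fintype.card F : ℂ) ^ e) : Even (Fintype.card ι) := by
  have h1 : (1 : ℝ) < Fintype.card F := by exact_mod_cast Fintype.one_lt_card
  have h2 : ‖∏ i, -Jac z (a i)‖ ^ 2 = (Fintype.card F : ℝ) ^ (Fintype.card ι : ℤ) := by
    rw [norm_prod, ← Finset.prod_pow, zpow_natCast]
    simp only [norm_neg, norm_Jac hz (ha _), Finset.prod_const, Finset.card_univ]
  rw [h, norm_zpow, Complex.norm_natCast, ← zpow_natCast, ← zpow_mul] at h2
  have h3 := zpow_right_injective₀ (by linarith) h1.ne' h2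
  have h4 : Even (Fintype.card ι : ℤ) := ⟨e, by rw [← h3]; push_cast; ring⟩
  exact_mod_cast h4

theorem upFin_per {Y : Type} [AddCommMonoid Y] {T : ℕ → Y} {f : ℕ} (h : ∀ s, T (f + s) = T s)
    (n : ℕ) : ∑ s ∈ Finset.range (n * f), T s = n • ∑ s ∈ Finset.range f, T s := by
  have h' : ∀ n s, T (n * f + s) = T s := fun n s => by
    induction n with
    | zero => simp
    | succ n ih => rw [add_mul, one_mul, add_assoc, add_left_comm, h, ih]
  induction n with
  | zero => simp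
  | succ n ih => simp only [add_mul, one_mul, Finset.sum_range_add, ih, h', add_smul, one_smul]

theorem ht_of_char (hA : ∀ l : ℕ, l.Prime → l ∣ m → l = 2 ∨ l % 4 = 3) (hc : Set.Subsingleton
      {χ : DirichletCharacter ℂ m | (∃ e : ℕ, χ ^ 2 ^ e = 1) ∧ χ.Odd ∧ χ p ≠ 1}) (k : Type)
    [Field k] [Fintype k] [CharP k p] [NeZero (m : k)] (ζ : Rt m k) : HT ζ := by
  have hp : p.Prime := Fact.out
  have hpm : p.Coprime m := (Nat.Prime.coprime_iff_not_dvd hp).2 fun h =>
    NeZero.ne (m : k) ((CharP.cast_eq_zero_iff k p m).2 h)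
  rcases char_data hpm hc with ⟨f, hf, h1⟩ | ⟨n, hn, hexp, hroots, hne⟩
  · refine ht_of_odd hA hf ((ZMod.natCast_eq_natCast_iff _ _ m).1 ?_) k ζ
    exact_mod_cast h1
  intro ι _ _ c ha e he
  obtain ⟨g, -, hg⟩ := FiniteField.card k p
  have h1' : (p : ZMod m) ^ (g : ℕ) = 1 := rt_pow ζ p (RingHom.id k) rfl hg
  have h := stick hg ζ.2 ha he
  have h1 : (p : ZMod m) ^ (2 * n) = 1 := by
    have := congrArg Units.val (hexp (ZMod.unitOfCoprime p hpm))
    rwa [Units.val_pow_eq_pow_val, ZMod.coe_unitOfCoprime, Units.val_one] at this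
  obtain ⟨c₀, hc₀, hκ⟩ := exists_anti hne (by rw [← pow_add, ← two_mul, h1])
  have per : ∀ g : ℕ, (p : ZMod m) ^ g = 1 → ∀ n : ℕ,
      ∑ s ∈ Finset.range (n * g), ∑ i, ty ((p : ZMod m) ^ s • c i) =
        n • ∑ s ∈ Finset.range g, ∑ i, ty ((p : ZMod m) ^ s • c i) := fun g hg =>
    upFin_per fun s => by rw [pow_add, hg, one_mul]
  have h0 : ∑ s ∈ Finset.range (2 * n), ∑ i, ty ((p : ZMod m) ^ s • c i) = 0 := by
    have := per (2 * n) h1 g
    rw [mul_comm, per g h1', h, smul_zero] at this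
    exact (smul_eq_zero.1 this.symm).resolve_left g.ne_zero
  refine hasPair_of_good (p := p) ζ ha he (Good.of_primes fun l hl => ?_)
  by_cases h2 : l = 2
  · obtain ⟨r, hr, hG⟩ := good_two hA hp hpm hn hexp hroots hc₀ hκ ha
      (even_of_jac ζ.2 ha he) h0
    exact ⟨r, h2 ▸ hr.not_two_dvd_nat, hG⟩
  · have := good_odd hA hp hpm (b := fun x : ι × Fin 3 => ex3 (c x.1) x.2)
      (by simp only [Fintype.sum_prod_type, sum_ex3, Finset.sum_const_zero]) g.ne_zero h1'
      (by simpa only [Fintype.sum_prod_type, ty_eq_sum, ex3_smul] using h) hl h2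
    simpa only [Fintype.sum_prod_type, ty_eq_sum] using this

end Pool.Agent.Tate
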