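import Pool.Agent.P.MP_2ce3e7_ag.UpTh

/-! The Bernoulli distribution is universal up to torsion. -/

set_option autoImplicit false

noncomputable section

namespace Pool.Agent.Tate

open Pool.Agent.P.MP_e12fcd_ag.Fermat (bern tors)

variable {M : ℕ} [NeZero M]

open Pool.Agent.P.MP_e12fcd_ag.Fermat (mem_tors card_tors) in
theorem upUniv_char_sum (d : ℕ) (b : ZMod M) :
    ∑ z ∈ tors M d, (ZMod.stdAddChar (-(b * z)) : ℂ) =
      ∑ y : ZMod M, if (d : ZMod M) * y = b then 1 else 0 := by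
  have hM : ((Fintype.card (ZMod M) : ℕ) : ℂ) ≠ 0 := Nat.cast_ne_zero.mpr Fintype.card_ne_zero
  have h0 := fun c : ZMod M => AddChar.sum_mulShift c (ZMod.isPrimitive_stdAddChar M)
  apply mul_left_cancel₀ hM
  have e1 : ((Fintype.card (ZMod M) : ℕ) : ℂ) * ∑ z ∈ tors M d, (ZMod.stdAddChar (-(b * z)) : ℂ) =
      ∑ z : ZMod M, ∑ y : ZMod M, (ZMod.stdAddChar (z * ((d : ZMod M) * y - b)) : ℂ) := by
    rw [tors, Finset.sum_filter, Finset.mul_sum]
    refine Finset.sum_congr rfl fun z _ => ?_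
    have e : ∀ y : ZMod M, (ZMod.stdAddChar (z * ((d : ZMod M) * y - b)) : ℂ) =
        ZMod.stdAddChar (y * ((d : ZMod M) * z)) * ZMod.stdAddChar (-(b * z)) := by
      intro y
      rw [← AddChar.map_add_eq_mul]
      congr 1
      ring
    simp only [e]
    rw [← Finset.sum_mul, h0]
    split_ifs <;> simp
  rw [e1, Finset.sum_comm, Finset.mul_sum]
  refine Finset.sum_congr rfl fun y _ => ?_
  rw [h0]
  simp only [sub_eq_zero]
  split_ifs <;> simp

open Pool.Agent.P.MP_e12fcd_ag.Fermat (mem_tors card_tors) in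
theorem upUniv_dft {W : ZMod M → ℂ} {d : ℕ} (hd : d ∣ M)
    (hW : ∀ b, ∑ z ∈ tors M d, W (b + z) = W ((d : ZMod M) * b)) (k : ZMod M) :
    (d : ℂ) * ZMod.dft W ((d : ZMod M) * k) = ∑ z ∈ tors M d, ZMod.dft W (k + z) := by
  have e1 : ∀ z ∈ tors M d, ZMod.dft W ((d : ZMod M) * k) =
      ∑ y : ZMod M, ZMod.stdAddChar (-(y * ((d : ZMod M) * k))) * W (y + z) := by
    intro z hz
    rw [ZMod.dft_apply]
    refine (Fintype.sum_equiv (Equiv.addRight z) _ _ fun y => ?_).symm
    rw [Equiv.coe_addRight, smul_eq_mul]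
    congr 3
    linear_combination -k * mem_tors.mp hz
  have e2 : (d : ℂ) * ZMod.dft W ((d : ZMod M) * k) =
      ∑ y : ZMod M, ZMod.stdAddChar (-((d : ZMod M) * y * k)) * W ((d : ZMod M) * y) := by
    rw [← nsmul_eq_mul, ← card_tors hd, ← Finset.sum_const, card_tors hd,
      Finset.sum_congr rfl e1, Finset.sum_comm]
    refine Finset.sum_congr rfl fun y _ => ?_
    rw [← Finset.mul_sum, hW]
    congr 3
    ring
  rw [e2]
  simp only [ZMod.dft_apply, smul_eq_mul]
  rw [Finset.sum_comm]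
  have e3 : ∀ b : ZMod M, ∑ z ∈ tors M d, ZMod.stdAddChar (-(b * (k + z))) * W b =
      ∑ y : ZMod M, if (d : ZMod M) * y = b then ZMod.stdAddChar (-(b * k)) * W b else 0 := by
    intro b
    have e : ∀ z : ZMod M, ZMod.stdAddChar (-(b * (k + z))) * W b =
        ZMod.stdAddChar (-(b * k)) * W b * ZMod.stdAddChar (-(b * z)) := by
      intro z
      rw [mul_add, neg_add, AddChar.map_add_eq_mul]
      ring
    simp only [e]
    rw [← Finset.mul_sum, upUniv_char_sum, Finset.mul_sum]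
    simp only [mul_ite, mul_one, mul_zero]
  simp only [e3]
  rw [Finset.sum_comm]
  simp only [Finset.sum_ite_eq, Finset.mem_univ, if_true]

open Pool.Agent.P.MP_e12fcd_ag.Fermat (mem_tors card_tors) in
theorem upUniv_order {d : ℕ} (hp : d.Prime) (hd : d ∣ M) (k : ZMod M) :
    ∃ z ∈ tors M d, d ∣ addOrderOf (k + z) := by
  by_contra hc
  push Not at hc
  obtain ⟨z, hz, hz0⟩ := Finset.exists_mem_ne (s := tors M d)
    (by rw [card_tors hd]; exact hp.one_lt) 0
  have h0 := hc 0 (mem_tors.mpr (mul_zero _))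
  rw [add_zero] at h0
  have h1 : addOrderOf z ∣ d := by
    rw [addOrderOf_dvd_iff_nsmul_eq_zero, nsmul_eq_mul]
    exact mem_tors.mp hz
  have h2 : addOrderOf z ∣ addOrderOf (k + z) * addOrderOf k := by
    rw [addOrderOf_dvd_iff_nsmul_eq_zero]
    have a1 : (addOrderOf (k + z) * addOrderOf k) • (k + z) = 0 :=
      addOrderOf_dvd_iff_nsmul_eq_zero.mp (dvd_mul_right _ _)
    have a2 : (addOrderOf (k + z) * addOrderOf k) • k = 0 :=
      addOrderOf_dvd_iff_nsmul_eq_zero.mp (dvd_mul_left _ _)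
    rwa [smul_add, a2, zero_add] at a1
  rcases (Nat.dvd_prime hp).mp h1 with h3 | h3
  · exact hz0 (AddMonoid.addOrderOf_eq_one_iff.mp h3)
  · rw [h3] at h2
    rcases (Nat.Prime.dvd_mul hp).mp h2 with h4 | h4
    · exact hc z hz h4
    · exact h0 h4

open Pool.Agent.P.MP_e12fcd_ag.Fermat (mem_tors card_tors) in
/-- a distribution is determined by its Fourier transform on the units -/
theorem dist_eq_zero {W : ZMod M → ℂ}
    (hW : ∀ d : ℕ, d.Prime → d ∣ M → ∀ b, ∑ z ∈ tors M d, W (b + z) = W ((d : ZMod M) * b))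
    (h : ∀ u : (ZMod M)ˣ, ZMod.dft W u = 0) : W = 0 := by
  obtain ⟨k1, -, hk1⟩ := Finset.exists_max_image Finset.univ (fun k => ‖ZMod.dft W k‖)
    Finset.univ_nonempty
  obtain ⟨k, hk, hk2⟩ := Finset.exists_max_image
    (Finset.univ.filter fun k => ‖ZMod.dft W k‖ = ‖ZMod.dft W k1‖) (fun k => addOrderOf k)
    ⟨k1, by simp⟩
  have hk3 := (Finset.mem_filter.mp hk).2
  have hu : IsUnit k := by
    by_contra hc
    rw [← ZMod.natCast_zmod_val k, ZMod.isUnit_iff_coprime] at hc
    obtain ⟨d, hp, ⟨c, hc1⟩, hd⟩ := Nat.Prime.not_coprime_iff_dvd.mp hc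
    have e : k = (d : ZMod M) * c := by rw [← Nat.cast_mul, ← hc1, ZMod.natCast_zmod_val]
    obtain ⟨z, hz, hz1⟩ := upUniv_order hp hd (c : ZMod M)
    have h1 : ‖ZMod.dft W (c + z)‖ = ‖ZMod.dft W k1‖ := by
      by_contra h2
      have h3 : ∑ y ∈ tors M d, ‖ZMod.dft W (c + y)‖ < ∑ _y ∈ tors M d, ‖ZMod.dft W k1‖ :=
        Finset.sum_lt_sum (fun y _ => hk1 _ (Finset.mem_univ _))
          ⟨z, hz, lt_of_le_of_ne (hk1 _ (Finset.mem_univ _)) h2⟩
      have h4 := (norm_sum_le _ _).trans_lt h3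
      rw [← upUniv_dft hd (hW d hp hd), ← e, norm_mul, Complex.norm_natCast, hk3, Finset.sum_const,
        card_tors hd, nsmul_eq_mul] at h4
      exact lt_irrefl _ h4
    have h5 := hk2 (c + z) (Finset.mem_filter.mpr ⟨Finset.mem_univ _, h1⟩)
    have h6 : k = d • ((c : ZMod M) + z) := by
      rw [nsmul_eq_mul, mul_add, mem_tors.mp hz, add_zero, e]
    rw [h6, addOrderOf_nsmul_of_dvd hp.ne_zero hz1] at h5
    exact absurd (Nat.div_lt_self (addOrderOf_pos _) hp.one_lt) (not_lt.mpr h5)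
  have h7 : ‖ZMod.dft W k1‖ = 0 := by rw [← hk3, ← hu.unit_spec, h, norm_zero]
  apply ZMod.dft.injective
  rw [map_zero]
  funext j
  exact norm_le_zero_iff.mp (h7 ▸ hk1 j (Finset.mem_univ _))

/-- the component of a function along a character -/
def upUnivP (χ : DirichletCharacter ℂ M) (W : ZMod M → ℂ) (b : ZMod M) : ℂ :=
  ∑ t : (ZMod M)ˣ, χ t * W ((t : ZMod M) * b)

theorem upUnivP_dist (χ : DirichletCharacter ℂ M) {W : ZMod M → ℂ} (hW : Dist M W) (d : ℕ)
    (hp : d.Prime) (hd : d ∣ M) (b : ZMod M) :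
    ∑ z ∈ tors M d, upUnivP χ W (b + z) = upUnivP χ W ((d : ZMod M) * b) := by
  unfold upUnivP
  rw [Finset.sum_comm]
  refine Finset.sum_congr rfl fun t _ => ?_
  rw [← Finset.mul_sum, (hW.twist t.isUnit).dist d hp hd b]

theorem upUnivP_dft (χ : DirichletCharacter ℂ M) (W : ZMod M → ℂ) (u : (ZMod M)ˣ) :
    ZMod.dft (upUnivP χ W) u = χ u * ZMod.dft (upUnivP χ W) 1 := by
  have e : (fun j => upUnivP χ W ((u⁻¹ : (ZMod M)ˣ).val * j)) = fun j => χ u • upUnivP χ W j := by
    funext j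
    unfold upUnivP
    rw [smul_eq_mul, Finset.mul_sum]
    refine (Fintype.sum_equiv (Equiv.mulLeft u) _ _ fun t => ?_).symm
    rw [Equiv.coe_mulLeft, Units.val_mul, map_mul, mul_assoc]
    congr 3
    rw [mul_comm u.val, mul_assoc, Units.mul_inv_cancel_left]
  have h := ZMod.dft_comp_unitMul (upUnivP χ W) u⁻¹ 1
  rw [inv_inv, mul_one, e] at h
  rw [← h, ← smul_eq_mul]
  exact congrFun (ZMod.dft.map_smul (χ u) (upUnivP χ W)) 1

theorem upUniv_bern : Dist M fun b : ZMod M => (bern b : ℂ) := by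
  have h := (dist_th (L := M)).map ((Int.castAddHom ℂ).comp (Pi.evalAddMonoidHom _ 1))
  simpa [th] using h

open Pool.Agent.P.MP_e12fcd_ag.Fermat (vec char_mem_span) in
theorem upUnivP_ne {χ : DirichletCharacter ℂ M} (hχ : χ.Odd) :
    ZMod.dft (upUnivP χ fun b : ZMod M => (bern b : ℂ)) 1 ≠ 0 := by
  intro h
  have h1 := dist_eq_zero (upUnivP_dist χ upUniv_bern) fun u => by
    rw [upUnivP_dft, h, mul_zero]
  have h2 : χ⁻¹.Odd := by
    rw [DirichletCharacter.Odd, MulChar.inv_apply_eq_inv', hχ]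
    norm_num
  have h3 : Submodule.span ℂ (Set.range (vec (m := M))) ≤
      LinearMap.ker (Fintype.linearCombination ℂ fun t : (ZMod M)ˣ => χ t) := by
    rw [Submodule.span_le]
    rintro _ ⟨x, rfl⟩
    rw [SetLike.mem_coe, LinearMap.mem_ker, Fintype.linearCombination_apply]
    refine Eq.trans (Finset.sum_congr rfl fun t _ => ?_) (congrFun h1 x)
    rw [smul_eq_mul, mul_comm]
    rfl
  have h4 := h3 (char_mem_span χ⁻¹ h2)
  rw [LinearMap.mem_ker, Fintype.linearCombination_apply] at h4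
  have h5 : ∀ t : (ZMod M)ˣ, χ⁻¹ t • χ t = 1 := fun t => by
    rw [smul_eq_mul, ← MulChar.mul_apply, inv_mul_cancel, MulChar.one_apply_coe]
  simp only [h5, Finset.sum_const, nsmul_eq_mul, mul_one, Finset.card_univ] at h4
  exact Nat.cast_ne_zero.mpr Fintype.card_ne_zero h4

theorem univ_complex {ι : Type} [Fintype ι] {b : ι → ZMod M} (h : ∑ i, th (b i) = 0)
    {W : ZMod M → ℂ} (hW : Dist M W) : ∑ i, W (b i) = 0 := by
  have key : ∀ χ : DirichletCharacter ℂ M, ∑ i, upUnivP χ W (b i) = 0 := by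
    intro χ
    rcases χ.even_or_odd with hχ | hχ
    · refine Finset.sum_eq_zero fun i _ => ?_
      have e : upUnivP χ W (b i) = -upUnivP χ W (b i) := by
        unfold upUnivP
        rw [← Finset.sum_neg_distrib]
        refine Fintype.sum_equiv (Equiv.neg _) _ _ fun t => ?_
        rw [Equiv.neg_apply, Units.val_neg, hχ.eval_neg, neg_mul, hW.neg, mul_neg, neg_neg]
      linear_combination (1 / 2 : ℂ) * e
    · set B := upUnivP χ fun b : ZMod M => (bern b : ℂ) with hB
      have h1 : (fun x => ZMod.dft B 1 * upUnivP χ W x - ZMod.dft (upUnivP χ W) 1 * B x) = 0 := by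
        refine dist_eq_zero (fun d hp hd x => ?_) fun u => ?_
        · rw [Finset.sum_sub_distrib, ← Finset.mul_sum, ← Finset.mul_sum, upUnivP_dist χ hW d hp hd,
            upUnivP_dist χ upUniv_bern d hp hd]
        · change ZMod.dft (ZMod.dft B 1 • upUnivP χ W - ZMod.dft (upUnivP χ W) 1 • B) u = 0
          rw [map_sub, map_smul, map_smul, Pi.sub_apply, Pi.smul_apply, Pi.smul_apply, upUnivP_dft,
            hB, upUnivP_dft χ _ u, smul_eq_mul, smul_eq_mul]
          ring
      have h2 : ∑ i, B (b i) = 0 := by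
        rw [hB]
        unfold upUnivP
        rw [Finset.sum_comm]
        refine Finset.sum_eq_zero fun t _ => ?_
        have h3 := congrFun h t
        rw [Finset.sum_apply] at h3
        rw [← Finset.mul_sum, ← Int.cast_sum]
        exact mul_eq_zero_of_right _ (Int.cast_eq_zero.mpr h3)
      apply mul_left_cancel₀ (upUnivP_ne hχ)
      rw [mul_zero, Finset.mul_sum, ← hB, Finset.sum_congr rfl fun i _ =>
        sub_eq_zero.mp (congrFun h1 (b i)), ← Finset.mul_sum, h2, mul_zero]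
  have h4 : ∀ x, ∑ χ : DirichletCharacter ℂ M, upUnivP χ W x = M.totient * W x := by
    intro x
    unfold upUnivP
    rw [Finset.sum_comm]
    simp only [← Finset.sum_mul, DirichletCharacter.sum_characters_eq, Units.val_eq_one, ite_mul,
      zero_mul, Finset.sum_ite_eq', Finset.mem_univ, if_true, Units.val_one, one_mul]
  apply mul_left_cancel₀ (Nat.cast_ne_zero.mpr (Nat.totient_pos.mpr (NeZero.pos M)).ne' :
    (M.totient : ℂ) ≠ 0)
  rw [mul_zero, Finset.mul_sum]
  simp only [← h4]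
  rw [Finset.sum_comm]
  exact Finset.sum_eq_zero fun χ _ => key χ

/-- the relations of an odd distribution -/
def upUnivRel (M : ℕ) [NeZero M] : Set (ZMod M → ℤ) :=
  {v | (∃ b, v = Pi.single (-b) 1 + Pi.single b 1) ∨ ∃ d : ℕ, d.Prime ∧ d ∣ M ∧ ∃ b,
    v = ∑ z ∈ tors M d, Pi.single (b + z) 1 - Pi.single ((d : ZMod M) * b) 1}

theorem univ_tors {ι : Type} [Fintype ι] {b : ι → ZMod M} (h : ∑ i, th (b i) = 0) :
    ∃ n : ℕ, n ≠ 0 ∧ ∀ (Y : Type) [AddCommGroup Y] (W : ZMod M → Y), Dist M W →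
      n • ∑ i, W (b i) = 0 := by
  let c : (ZMod M → ℤ) →ₗ[ℤ] (ZMod M → ℚ) := (Algebra.linearMap ℤ ℚ).compLeft (ZMod M)
  have hc : Function.Injective c := fun x y e => funext fun j =>
    Int.cast_injective (α := ℚ) (congrFun e j)
  have h1 : c (∑ i, Pi.single (b i) 1) ∈ Submodule.span ℚ (c '' upUnivRel M) := by
    by_contra hn
    obtain ⟨f, hf, hk⟩ := Submodule.exists_le_ker_of_notMem hn
    let g : (ZMod M → ℤ) →+ ℚ := f.toAddMonoidHom.comp c.toAddMonoidHom
    have hg : ∀ v ∈ upUnivRel M, g v = 0 := fun v hv =>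
      hk (Submodule.subset_span ⟨v, hv, rfl⟩)
    have hD : Dist M fun x : ZMod M => g (Pi.single x 1) := by
      refine ⟨fun x => ?_, fun d hp hd x => ?_⟩
      · have := hg _ (Or.inl ⟨x, rfl⟩)
        rw [map_add] at this
        exact eq_neg_of_add_eq_zero_left this
      · have := hg _ (Or.inr ⟨d, hp, hd, x, rfl⟩)
        rw [map_sub, map_sum] at this
        exact sub_eq_zero.mp this
    have h2 := univ_complex h (hD.map (Rat.castHom ℂ).toAddMonoidHom)
    rw [← map_sum, ← map_sum] at h2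
    exact hf ((Rat.castHom ℂ).injective (h2.trans (map_zero _).symm))
  obtain ⟨t, ht⟩ := multiple_mem_span_of_mem_localization_span (nonZeroDivisors ℤ) ℚ _ _ h1
  rw [Submodule.span_image, Submonoid.smul_def, ← map_smul] at ht
  obtain ⟨v, hv, e⟩ := ht
  rw [hc e] at hv
  refine ⟨t.1.natAbs, Int.natAbs_ne_zero.mpr (nonZeroDivisors.ne_zero t.2), fun Y _ W hW => ?_⟩
  have h3 : Submodule.span ℤ (upUnivRel M) ≤ LinearMap.ker (Fintype.linearCombination ℤ W) := by
    rw [Submodule.span_le]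
    rintro _ (⟨x, rfl⟩ | ⟨d, hp, hd, x, rfl⟩)
    · rw [SetLike.mem_coe, LinearMap.mem_ker, map_add, Fintype.linearCombination_apply_single,
        Fintype.linearCombination_apply_single, hW.neg, one_smul, one_smul, neg_add_cancel]
    · rw [SetLike.mem_coe, LinearMap.mem_ker, map_sub, map_sum]
      simp only [Fintype.linearCombination_apply_single, one_smul]
      rw [hW.dist d hp hd, sub_self]
  have h4 := h3 hv
  rw [LinearMap.mem_ker, map_smul, map_sum] at h4
  simp only [Fintype.linearCombination_apply_single, one_smul] at h4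
  rw [← natCast_zsmul, Nat.cast_natAbs, Int.cast_id]
  rcases abs_choice t.1 with e1 | e1 <;> rw [e1]
  · exact h4
  · rw [neg_smul, h4, neg_zero]

theorem w_lemma {ι : Type} [Fintype ι] {b : ι → ZMod M} {p f : ℕ} (hf : f ≠ 0)
    (h : ∑ s ∈ Finset.range f, ∑ i, th ((p : ZMod M) ^ s * b i) = 0) :
    ∃ n : ℕ, n ≠ 0 ∧ ∀ (Y : Type) [AddCommGroup Y] (W : ZMod M → Y), Dist M W →
      (∀ y, W ((p : ZMod M) * y) = W y) → n • ∑ i, W (b i) = 0 := by
  obtain ⟨n, hn, H⟩ := univ_tors (b := fun x : Fin f × ι => (p : ZMod M) ^ (x.1 : ℕ) * b x.2)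
    (by rw [Fintype.sum_prod_type, ← h, Finset.sum_range])
  refine ⟨n * f, mul_ne_zero hn hf, fun Y _ W hW hp => ?_⟩
  have h1 : ∀ (s : ℕ) (y : ZMod M), W ((p : ZMod M) ^ s * y) = W y := by
    intro s y
    induction s with
    | zero => rw [pow_zero, one_mul]
    | succ s ih => rw [pow_succ', mul_assoc, hp, ih]
  have h2 := H Y W hW
  rw [Fintype.sum_prod_type] at h2
  simp only [h1, Finset.sum_const, Finset.card_univ, Fintype.card_fin] at h2
  rw [mul_smul, h2]

end Pool.Agent.Tate
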