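import Pool.Agent.P.MP_2ce3e7_ag.UpKubA
import Pool.Agent.P.MP_2ce3e7_ag.UpPrime
import Pool.Agent.P.MP_2ce3e7_ag.UpUniv

/-! The universal ordinary distribution is torsion free. -/

set_option autoImplicit false

noncomputable section

namespace Pool.Agent.Tate

open Pool.Agent.P.MP_e12fcd_ag.Fermat (bern tors)

variable {M : ℕ} [NeZero M]

/-- coefficients: reciprocals of the integers built from the primes of the level -/
def upKubA (M n : ℕ) : ℂ := (Nat.factoredNumbers M.primeFactors).indicator (fun k => (k : ℂ)⁻¹) n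

omit [NeZero M] in
theorem upKubA_summable : Summable fun n => ‖upKubA M n‖ := by
  let f : ℕ →* ℂ := ⟨⟨fun k => (k : ℂ)⁻¹, by simp⟩, fun a b => by
    simp only [Nat.cast_mul, mul_inv]⟩
  have h := (EulerProduct.summable_and_hasSum_factoredNumbers_prod_filter_prime_geometric
    (f := f) (fun {p} hp => by
      change ‖(p : ℂ)⁻¹‖ < 1
      rw [norm_inv, Complex.norm_natCast]
      exact inv_lt_one_of_one_lt₀ (by exact_mod_cast hp.one_lt)) M.primeFactors).1
  have h2 := (summable_subtype_iff_indicator (f := fun k : ℕ => ‖(k : ℂ)⁻¹‖)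
    (s := Nat.factoredNumbers M.primeFactors)).1 h
  refine h2.congr fun n => ?_
  rw [upKubA, norm_indicator_eq_indicator_norm]

theorem upKubA_mul {d : ℕ} (hp : d.Prime) (hd : d ∣ M) (n : ℕ) :
    upKubA M (d * n) * d = upKubA M n := by
  have hd0 : (d : ℂ) ≠ 0 := Nat.cast_ne_zero.2 hp.ne_zero
  unfold upKubA
  by_cases hn : n ∈ Nat.factoredNumbers M.primeFactors
  · have h1 : d ∈ Nat.factoredNumbers M.primeFactors := by
      rw [Nat.mem_factoredNumbers']
      intro q hq hqd
      exact Nat.mem_primeFactors.2 ⟨hq, hqd.trans hd, NeZero.ne M⟩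
    rw [Set.indicator_of_mem hn, Set.indicator_of_mem (Nat.mul_mem_factoredNumbers h1 hn),
      Nat.cast_mul, mul_inv, mul_right_comm, inv_mul_cancel₀ hd0, one_mul]
  · rw [Set.indicator_of_notMem hn, Set.indicator_of_notMem
      fun h => hn (Nat.mem_factoredNumbers_of_dvd h (dvd_mul_left n d)), zero_mul]

omit [NeZero M] in
theorem upKubA_unit {n : ℕ} (hn : IsUnit (n : ZMod M)) :
    upKubA M n = if n = 1 then 1 else 0 := by
  unfold upKubA
  split_ifs with h
  · subst h
    have h1 : 1 ∈ Nat.factoredNumbers M.primeFactors :=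
      Nat.mem_factoredNumbers'.2 fun q hq hq1 => absurd (Nat.dvd_one.1 hq1) hq.ne_one
    rw [Set.indicator_of_mem h1, Nat.cast_one, inv_one]
  · refine Set.indicator_of_notMem (fun h1 => ?_) _
    obtain ⟨q, hq, hqn⟩ := Nat.exists_prime_and_dvd h
    have h2 := (Nat.mem_primeFactors.1 (Nat.mem_factoredNumbers'.1 h1 q hq hqn)).2.1
    rw [ZMod.isUnit_iff_coprime] at hn
    exact hq.ne_one (Nat.eq_one_of_dvd_coprimes hn hqn h2)

/-- a distribution whose Fourier transform vanishes at the units other than one -/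
def upKubW (M : ℕ) [NeZero M] (b : ZMod M) : ℂ :=
  ∑' n : ℕ, upKubA M n * ZMod.stdAddChar ((n : ZMod M) * b)

theorem upKub_summ (g : ℕ → ZMod M) :
    Summable fun n : ℕ => upKubA M n * ZMod.stdAddChar (g n) := by
  refine Summable.of_norm ((upKubA_summable (M := M)).congr fun n => ?_)
  rw [norm_mul, ZMod.stdAddChar_apply, Circle.norm_coe, mul_one]

open Pool.Agent.P.MP_e12fcd_ag.Fermat (mem_tors card_tors) in
theorem upKub_char {d : ℕ} (hd : d ∣ M) (n : ℕ) :
    ∑ z ∈ tors M d, (ZMod.stdAddChar ((n : ZMod M) * z) : ℂ) = if d ∣ n then (d : ℂ) else 0 := by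
  split_ifs with h
  · obtain ⟨c, rfl⟩ := h
    rw [Finset.sum_congr rfl (g := fun _ => (1 : ℂ)) fun z hz => by
      rw [Nat.cast_mul, mul_right_comm, mem_tors.1 hz, zero_mul, AddChar.map_zero_eq_one]]
    rw [Finset.sum_const, card_tors hd, nsmul_eq_mul, mul_one]
  · have h1 := upUniv_char_sum d (-(n : ZMod M))
    simp only [neg_mul, neg_neg] at h1
    rw [h1]
    refine Finset.sum_eq_zero fun y _ => if_neg fun h2 => h ?_
    have h3 := congrArg (ZMod.castHom hd (ZMod d)) h2
    rw [map_mul, map_natCast, ZMod.natCast_self, zero_mul, map_neg, map_natCast, eq_comm,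
      neg_eq_zero, ZMod.natCast_eq_zero_iff] at h3
    exact h3

theorem upKubW_dist : ODist M (upKubW M) := by
  intro d hp hd b
  unfold upKubW
  rw [← Summable.tsum_finsetSum fun z _ => upKub_summ fun n => (n : ZMod M) * (b + z)]
  have e1 : ∀ n : ℕ, ∑ z ∈ tors M d, upKubA M n * ZMod.stdAddChar ((n : ZMod M) * (b + z)) =
      upKubA M n * (if d ∣ n then (d : ℂ) else 0) * ZMod.stdAddChar ((n : ZMod M) * b) := by
    intro n
    rw [← upKub_char hd, Finset.mul_sum, Finset.sum_mul]
    refine Finset.sum_congr rfl fun z _ => ?_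
    rw [mul_add, AddChar.map_add_eq_mul]
    ring
  simp only [e1]
  have hi : Function.Injective fun n : ℕ => d * n := fun a c h =>
    Nat.eq_of_mul_eq_mul_left hp.pos h
  rw [← hi.tsum_eq (f := fun n : ℕ => upKubA M n * (if d ∣ n then (d : ℂ) else 0) *
    ZMod.stdAddChar ((n : ZMod M) * b))]
  · refine tsum_congr fun n => ?_
    rw [if_pos (dvd_mul_right d n), upKubA_mul hp hd, Nat.cast_mul]
    congr 2
    ring
  · intro n hn
    by_contra hc
    refine hn ?_
    have h1 : ¬ d ∣ n := fun ⟨c, h2⟩ => hc ⟨c, h2.symm⟩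
    simp only [if_neg h1, mul_zero, zero_mul]

theorem upKubW_sum (t u : (ZMod M)ˣ) :
    ∑ y : ZMod M, ZMod.stdAddChar (-(y * (u : ZMod M))) * upKubW M ((t : ZMod M) * y) =
      if t = u then (M : ℂ) else 0 := by
  unfold upKubW
  have e0 : ∀ y : ZMod M, ZMod.stdAddChar (-(y * (u : ZMod M))) *
      ∑' n : ℕ, upKubA M n * ZMod.stdAddChar ((n : ZMod M) * ((t : ZMod M) * y)) =
      ∑' n : ℕ, upKubA M n * ZMod.stdAddChar (y * ((n : ZMod M) * (t : ZMod M) - (u : ZMod M))) := by
    intro y
    rw [← tsum_mul_left]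
    refine tsum_congr fun n => ?_
    rw [mul_left_comm, ← AddChar.map_add_eq_mul]
    congr 2
    ring
  simp only [e0]
  rw [← Summable.tsum_finsetSum fun y _ => upKub_summ fun n => y * ((n : ZMod M) * (t : ZMod M) - (u : ZMod M))]
  have e1 : ∀ n : ℕ, ∑ y : ZMod M, upKubA M n * ZMod.stdAddChar (y * ((n : ZMod M) * (t : ZMod M) - (u : ZMod M))) =
      if n = 1 then (if t = u then (M : ℂ) else 0) else 0 := by
    intro n
    rw [← Finset.mul_sum, AddChar.sum_mulShift _ (ZMod.isPrimitive_stdAddChar M), ZMod.card]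
    by_cases h : (n : ZMod M) * (t : ZMod M) - (u : ZMod M) = 0
    · have h1 : (n : ZMod M) * (t : ZMod M) = (u : ZMod M) := sub_eq_zero.1 h
      have h2 : IsUnit (n : ZMod M) := isUnit_of_mul_isUnit_left (h1 ▸ u.isUnit)
      rw [if_pos h, upKubA_unit h2]
      by_cases h3 : n = 1
      · subst h3
        rw [Nat.cast_one, one_mul] at h1
        rw [if_pos rfl, if_pos rfl, if_pos (Units.ext h1), one_mul]
      · rw [if_neg h3, if_neg h3, zero_mul]
    · rw [if_neg h, Nat.cast_zero, mul_zero]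
      by_cases h3 : n = 1
      · subst h3
        rw [if_pos rfl, if_neg]
        rintro rfl
        exact h (by rw [Nat.cast_one, one_mul, sub_self])
      · rw [if_neg h3]
  simp only [e1]
  exact tsum_ite_eq 1 _

open Pool.Agent.P.MP_e12fcd_ag.Fermat (sum_tors_unit) in
theorem upKub_twist {Y : Type} [AddCommGroup Y] {W : ZMod M → Y} (hW : ODist M W)
    (t : (ZMod M)ˣ) : ODist M fun b => W ((t : ZMod M) * b) := by
  intro d hp hd b
  simp only [mul_add]
  rw [sum_tors_unit (fun z => W ((t : ZMod M) * b + z)) t, hW d hp hd, mul_left_comm]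

theorem exists_char_dist (χ : DirichletCharacter ℂ M) : ∃ V : ZMod M → ℂ, ODist M V ∧ V ≠ 0 ∧
    ∀ (t : (ZMod M)ˣ) (b : ZMod M), V ((t : ZMod M) * b) = χ t * V b := by
  refine ⟨upUnivP χ⁻¹ (upKubW M), fun d hp hd b => ?_, fun h => ?_, fun u b => ?_⟩
  · unfold upUnivP
    rw [Finset.sum_comm]
    refine Finset.sum_congr rfl fun t _ => ?_
    rw [← Finset.mul_sum, upKub_twist upKubW_dist t d hp hd b]
  · have h1 : ∑ y : ZMod M, ZMod.stdAddChar (-(y * ((1 : (ZMod M)ˣ) : ZMod M))) *
        upUnivP χ⁻¹ (upKubW M) y = M := by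
      unfold upUnivP
      simp only [Finset.mul_sum]
      rw [Finset.sum_comm]
      simp only [mul_left_comm _ (χ⁻¹ _), ← Finset.mul_sum, upKubW_sum, mul_ite, mul_zero,
        Finset.sum_ite_eq', Finset.mem_univ, if_true]
      rw [Units.val_one, map_one, one_mul]
    rw [h] at h1
    simp only [Pi.zero_apply, mul_zero, Finset.sum_const_zero] at h1
    exact NeZero.ne M (Nat.cast_eq_zero.1 h1.symm)
  · unfold upUnivP
    rw [Finset.mul_sum]
    refine Fintype.sum_equiv (Equiv.mulRight u) _ _ fun t => ?_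
    have e : χ u * χ⁻¹ u = 1 := by
      rw [← MulChar.mul_apply, mul_inv_cancel, MulChar.one_apply_coe]
    rw [Equiv.coe_mulRight, Units.val_mul, map_mul, mul_assoc (t : ZMod M)]
    linear_combination (-(χ⁻¹ t * upKubW M ((t : ZMod M) * ((u : ZMod M) * b)))) * e

/-- complex distributions -/
def upKubD (M : ℕ) [NeZero M] : Submodule ℂ (ZMod M → ℂ) where
  carrier := {V | ODist M V}
  zero_mem' := fun d _ _ b => by simp
  add_mem' := fun {V V'} h h' d hp hd b => by
    simp only [Pi.add_apply]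
    rw [Finset.sum_add_distrib, h d hp hd, h' d hp hd]
  smul_mem' := fun c V h d hp hd b => by
    simp only [Pi.smul_apply]
    rw [← Finset.smul_sum, h d hp hd]

theorem upKubD_rank : M.totient ≤ Module.finrank ℂ (upKubD M) := by
  let v : (ZMod M)ˣ → upKubD M := fun t =>
    ⟨fun y => upKubW M ((t : ZMod M) * y), upKub_twist upKubW_dist t⟩
  have h : LinearIndependent ℂ v := by
    rw [Fintype.linearIndependent_iff]
    intro g hg u
    have h1 : ∀ y : ZMod M, ∑ t : (ZMod M)ˣ, g t * upKubW M ((t : ZMod M) * y) = 0 := by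
      intro y
      have h2 := congrFun (congrArg Subtype.val hg) y
      simpa [v, Finset.sum_apply] using h2
    have h2 : ∑ y : ZMod M, ZMod.stdAddChar (-(y * (u : ZMod M))) *
        ∑ t : (ZMod M)ˣ, g t * upKubW M ((t : ZMod M) * y) = g u * M := by
      simp only [Finset.mul_sum]
      rw [Finset.sum_comm]
      simp only [mul_left_comm _ (g _), ← Finset.mul_sum, upKubW_sum, mul_ite, mul_zero,
        Finset.sum_ite_eq', Finset.mem_univ, if_true]
    simp only [h1, mul_zero, Finset.sum_const_zero] at h2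
    exact (mul_eq_zero.1 h2.symm).resolve_right (Nat.cast_ne_zero.2 (NeZero.ne M))
  have h3 := h.fintype_card_le_finrank
  rwa [ZMod.card_units_eq_totient] at h3

variable {ι : Type} [Fintype ι] {b : ι → ZMod M} {Y : Type} [AddCommGroup Y] {W : ZMod M → Y}

theorem univ_free {c : ι → ℤ} (h : ∀ V : ZMod M → ℂ, ODist M V → ∑ i, c i • V (b i) = 0)
    (hW : ODist M W) : ∑ i, c i • W (b i) = 0 := by
  obtain ⟨T, hT, hs⟩ := exists_span M
  let R : Submodule ℤ (ZMod M → ℤ) := Submodule.span ℤ {v | ∃ d : ℕ, d.Prime ∧ d ∣ M ∧ ∃ x,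
    v = ∑ z ∈ tors M d, Pi.single (x + z) 1 - Pi.single ((d : ZMod M) * x) 1}
  let S : Submodule ℤ (ZMod M → ℤ) :=
    Submodule.span ℤ (Set.range fun t : T => Pi.single t.1 (1 : ℤ))
  have h1 : ∀ x : ZMod M, Pi.single x (1 : ℤ) ∈ R ⊔ S := by
    intro x
    rw [← Submodule.Quotient.mk_eq_zero]
    refine hs _ (fun x => (R ⊔ S).mkQ (Pi.single x 1)) (fun d hp hd y => ?_) (fun t ht => ?_) x
    · rw [← map_sum, ← sub_eq_zero, ← map_sub, Submodule.mkQ_apply, Submodule.Quotient.mk_eq_zero]
      exact Submodule.mem_sup_left (Submodule.subset_span ⟨d, hp, hd, y, rfl⟩)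
    · rw [Submodule.mkQ_apply, Submodule.Quotient.mk_eq_zero]
      exact Submodule.mem_sup_right (Submodule.subset_span ⟨⟨t, ht⟩, rfl⟩)
  have h2 : ∑ i, c i • Pi.single (b i) (1 : ℤ) ∈ R ⊔ S :=
    Submodule.sum_mem _ fun i _ => Submodule.smul_mem _ _ (h1 _)
  obtain ⟨r, hr, s, hs', e⟩ := Submodule.mem_sup.1 h2
  obtain ⟨n, rfl⟩ := (Submodule.mem_span_range_iff_exists_fun ℤ).1 hs'
  have key : ∀ (Z : Type) [AddCommGroup Z] (V : ZMod M → Z), ODist M V →
      ∑ i, c i • V (b i) = ∑ t : T, n t • V t := by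
    intro Z _ V hV
    have h3 : R ≤ LinearMap.ker (Fintype.linearCombination ℤ V) := by
      refine Submodule.span_le.2 ?_
      rintro _ ⟨d, hp, hd, x, rfl⟩
      rw [SetLike.mem_coe, LinearMap.mem_ker, map_sub, map_sum]
      simp only [Fintype.linearCombination_apply_single, one_smul]
      rw [hV d hp hd, sub_self]
    have h4 := congrArg (Fintype.linearCombination ℤ V) e
    rw [map_add, LinearMap.mem_ker.1 (h3 hr), zero_add, map_sum, map_sum] at h4
    simp only [map_smul, Fintype.linearCombination_apply_single, one_smul] at h4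
    exact h4.symm
  let ρ : upKubD M →ₗ[ℂ] (T → ℂ) := (LinearMap.funLeft ℂ ℂ Subtype.val).comp (upKubD M).subtype
  have hi : Function.Injective ρ := by
    rw [injective_iff_map_eq_zero]
    intro V hV
    exact Subtype.ext (funext (hs ℂ V.1 V.2 fun t ht => congrFun hV ⟨t, ht⟩))
  have hsu : Function.Surjective ρ := by
    rw [← LinearMap.injective_iff_surjective_of_finrank_eq_finrank]
    · exact hi
    · refine le_antisymm (LinearMap.finrank_le_finrank_of_injective hi) ?_
      rw [Module.finrank_fintype_fun_eq_card, Fintype.card_coe]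
      exact hT.trans upKubD_rank
  have hn : ∀ t, n t = 0 := by
    intro t
    obtain ⟨V, hV⟩ := hsu (Pi.single t 1)
    have h5 := (key ℂ V.1 V.2).symm.trans (h V.1 V.2)
    have h6 : ∀ t' : T, V.1 t' = (Pi.single t 1 : T → ℂ) t' := fun t' => congrFun hV t'
    simp only [h6, Pi.single_apply, smul_ite, smul_zero, Finset.sum_ite_eq', Finset.mem_univ,
      if_true, zsmul_eq_mul, mul_one] at h5
    exact Int.cast_eq_zero.1 h5
  rw [key Y W hW]
  simp only [hn, zero_smul, Finset.sum_const_zero]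

theorem e_zero {κ : ZMod M} (h : ∑ i, th (b i) + ∑ i, th (κ * b i) = 0) (hW : ODist M W) :
    ∑ i, (W (b i) + W (κ * b i) - W (-(κ * b i)) - W (-b i)) = 0 := by
  have e : ∀ (Z : Type) [AddCommGroup Z] (V : ZMod M → Z),
      ∑ j : (ι ⊕ ι) ⊕ (ι ⊕ ι), Sum.elim (fun _ => (1 : ℤ)) (fun _ => -1) j •
        V (Sum.elim (Sum.elim b fun i => κ * b i) (Sum.elim (fun i => -(κ * b i)) fun i => -b i) j) =
      ∑ i, (V (b i) + V (κ * b i) - V (-(κ * b i)) - V (-b i)) := by
    intro Z _ V
    simp only [Fintype.sum_sum_type, Sum.elim_inl, Sum.elim_inr, one_smul, neg_smul,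
      Finset.sum_sub_distrib, Finset.sum_add_distrib, Finset.sum_neg_distrib]
    abel
  rw [← e]
  refine univ_free (fun V hV => ?_) hW
  have hD : Dist M fun x => V x - V (-x) := by
    refine ⟨fun x => by rw [neg_neg, neg_sub], fun d hp hd x => ?_⟩
    have h1 := upKub_twist hV (-1) d hp hd x
    simp only [Units.val_neg, Units.val_one, neg_mul, one_mul] at h1
    rw [Finset.sum_sub_distrib, hV d hp hd, h1]
  have h2 := univ_complex (b := Sum.elim b fun i => κ * b i)
    (by rw [Fintype.sum_sum_type]; exact h) hD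
  rw [e, ← h2, Fintype.sum_sum_type, ← Finset.sum_add_distrib]
  refine Finset.sum_congr rfl fun i _ => ?_
  simp only [Sum.elim_inl, Sum.elim_inr]
  ring

end Pool.Agent.Tate
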