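import Pool.Agent.P.MP_2ce3e7_ag.UpTh

/-! Generators of the universal ordinary distribution. -/

set_option autoImplicit false

noncomputable section

namespace Pool.Agent.Tate

open Pool.Agent.P.MP_e12fcd_ag.Fermat (bern tors)

/-- ordinary distributions -/
def ODist (L : ℕ) [NeZero L] {Y : Type} [AddCommGroup Y] (g : ZMod L → Y) : Prop :=
  ∀ d : ℕ, d.Prime → d ∣ L → ∀ b, ∑ z ∈ tors L d, g (b + z) = g ((d : ZMod L) * b)

theorem upKubA_crt {M x y : ℕ} (hM : M ≠ 0)
    (h : ∀ l ∈ M.primeFactors, x ≡ y [MOD l ^ M.factorization l]) : x ≡ y [MOD M] := by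
  rw [Nat.modEq_iff_dvd, Int.natCast_dvd, Nat.dvd_iff_prime_pow_dvd_dvd]
  intro l k hl hk
  rcases k.eq_zero_or_pos with rfl | h0
  · simp
  exact (pow_dvd_pow l ((hl.pow_dvd_iff_le_factorization hM).1 hk)).trans (Int.natCast_dvd.1
    (h l (Nat.mem_primeFactors.2 ⟨hl, (dvd_pow_self l h0.ne').trans hk, hM⟩)).dvd)

theorem upKubA_digit {P e r s : ℕ} (hr : P * e ≤ r % (P * (e + 1))) (hP : 0 < P) (h1 : P ∣ s)
    (h2 : ¬ P * (e + 1) ∣ s) : (r + s) % (P * (e + 1)) < P * e := by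
  have h0 : 0 < P * (e + 1) := by positivity
  obtain ⟨j, hj⟩ := (Nat.dvd_mod_iff (dvd_mul_right P (e + 1))).2 h1
  have a1 := Nat.mod_lt r h0
  have a2 := Nat.mod_lt s h0
  have a3 : j ≠ 0 := by
    rintro rfl
    exact h2 (Nat.dvd_of_mod_eq_zero hj)
  rw [hj] at a2
  have a4 := Nat.mul_le_mul_left P (Nat.lt_succ_iff.1 (lt_of_mul_lt_mul_left a2 hP.le))
  have a5 := Nat.le_mul_of_pos_right P (Nat.pos_of_ne_zero a3)
  rw [Nat.add_mod, hj]
  generalize r % (P * (e + 1)) = t at *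
  rw [mul_add, mul_one] at *
  rw [Nat.mod_eq_sub_mod (by omega), Nat.mod_eq_of_lt (by omega)]
  omega

/-- the primes at which the leading digit is maximal -/
def upKubABad {M : ℕ} (b : ZMod M) : Finset ℕ := M.primeFactors.filter fun l =>
  l ^ (M.factorization l - 1) * (l - 1) ≤ b.val % l ^ M.factorization l

theorem upKubA_card (M : ℕ) [NeZero M] :
    (Finset.univ.filter fun b : ZMod M => upKubABad b = ∅).card ≤ M.totient := by
  have := Finset.card_le_card_of_injOn (s := Finset.univ.filter fun b : ZMod M => upKubABad b = ∅)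
    (t := M.primeFactors.pi fun l => Finset.range (l ^ (M.factorization l - 1) * (l - 1)))
    (fun b l _ => b.val % l ^ M.factorization l) (fun b hb => by
      simp only [Finset.coe_filter, Finset.mem_univ, true_and, Set.mem_ofPred_eq, upKubABad,
        Finset.filter_eq_empty_iff, not_le] at hb
      exact Finset.mem_coe.2 (Finset.mem_pi.2 fun l hl => Finset.mem_range.2 (hb hl)))
    fun b _ b' _ h => ZMod.val_injective M (Nat.ModEq.eq_of_lt_of_lt
      (upKubA_crt (NeZero.ne M) fun l hl => congrFun (congrFun h l) hl) b.val_lt b'.val_lt)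
  simp only [Finset.card_pi, Finset.card_range] at this
  rw [Nat.totient_eq_prod_factorization (NeZero.ne M)]
  exact this

theorem upKubA_dvd {M l : ℕ} [NeZero M] {b : ZMod M} (h : l ∈ upKubABad b) :
    l ∣ addOrderOf b := by
  obtain ⟨hl, h⟩ := Finset.mem_filter.1 h
  have hp := Nat.prime_of_mem_primeFactors hl
  by_contra hn
  have h1 : M ∣ addOrderOf b * b.val := by
    rw [← ZMod.natCast_eq_zero_iff, Nat.cast_mul, ZMod.natCast_zmod_val, ← nsmul_eq_mul,
      addOrderOf_nsmul_eq_zero]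
  rw [Nat.mod_eq_zero_of_dvd ((((Nat.Prime.coprime_iff_not_dvd hp).2 hn).pow_left
    _).dvd_of_dvd_mul_left ((Nat.ordProj_dvd M l).trans h1))] at h
  exact absurd h (Nat.mul_pos (pow_pos hp.pos _) (Nat.sub_pos_of_lt hp.one_lt)).not_ge

theorem upKubA_ssub {M l : ℕ} [NeZero M] {b z : ZMod M} (h : l ∈ upKubABad b)
    (hz : (l : ZMod M) * z = 0) (h0 : z ≠ 0) : upKubABad (b + z) ⊆ (upKubABad b).erase l := by
  obtain ⟨hl, h⟩ := Finset.mem_filter.1 h
  obtain ⟨hp, hd, hM⟩ := Nat.mem_primeFactors.1 hl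
  have h1 : M ∣ l * z.val := by
    rw [← ZMod.natCast_eq_zero_iff, Nat.cast_mul, ZMod.natCast_zmod_val, hz]
  have h2 : ∀ d ∈ M.primeFactors, d ≠ l → d ^ M.factorization d ∣ z.val := fun d hd hne =>
    (((Nat.coprime_primes (Nat.prime_of_mem_primeFactors hd) hp).2 hne).pow_left
      _).dvd_of_dvd_mul_left ((Nat.ordProj_dvd M d).trans h1)
  have h3 : ∀ d, (b + z).val % d ^ M.factorization d = (b.val + z.val) % d ^ M.factorization d :=
    fun d => by rw [ZMod.val_add, Nat.mod_mod_of_dvd _ (Nat.ordProj_dvd M d)]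
  intro d hd
  obtain ⟨hd, hb⟩ := Finset.mem_filter.1 hd
  rw [h3] at hb
  have hne : d ≠ l := by
    rintro rfl
    have h4 : ¬ d ^ M.factorization d ∣ z.val := fun h4 => h0 (by
      rw [← ZMod.val_eq_zero, ← Nat.mod_eq_of_lt z.val_lt]
      refine Eq.trans (upKubA_crt (y := 0) hM fun d' hd' => Nat.modEq_zero_iff_dvd.2 ?_)
        (Nat.zero_mod M)
      by_cases e : d' = d
      exacts [e ▸ h4, h2 d' hd' e])
    have h5 := (Nat.ordProj_dvd M d).trans h1
    obtain ⟨k, hk⟩ := Nat.exists_eq_add_one_of_ne_zero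
      (hp.factorization_pos_of_dvd hM (Nat.dvd_of_mem_primeFactors hl)).ne'
    obtain ⟨e, rfl⟩ := Nat.exists_eq_add_one_of_ne_zero hp.ne_zero
    rw [hk, Nat.add_sub_cancel, Nat.add_sub_cancel, pow_succ] at h hb
    rw [hk, pow_succ] at h4
    rw [hk, pow_succ', Nat.mul_dvd_mul_iff_left hp.pos] at h5
    exact (upKubA_digit h (pow_pos hp.pos k) h5 h4).not_ge hb
  refine Finset.mem_erase.2 ⟨hne, Finset.mem_filter.2 ⟨hd, ?_⟩⟩
  rwa [Nat.add_mod, Nat.mod_eq_zero_of_dvd (h2 d hd hne), add_zero, Nat.mod_mod] at hb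

theorem exists_span (M : ℕ) [NeZero M] : ∃ T : Finset (ZMod M), T.card ≤ M.totient ∧
    ∀ (Y : Type) [AddCommGroup Y] (W : ZMod M → Y), ODist M W → (∀ t ∈ T, W t = 0) →
      ∀ b, W b = 0 := by
  refine ⟨_, upKubA_card M, fun Y _ W hW hT b => ?_⟩
  have hc : ∀ b : ZMod M, (upKubABad b).card ≤ M.primeFactors.card := fun b =>
    Finset.card_filter_le _ _
  generalize hn : addOrderOf b * (M.primeFactors.card + 1) + (upKubABad b).card = n
  induction n using Nat.strong_induction_on generalizing b with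
  | _ n ih =>
  rcases (upKubABad b).eq_empty_or_nonempty with h | ⟨l, h⟩
  · exact hT b (Finset.mem_filter.2 ⟨Finset.mem_univ b, h⟩)
  obtain ⟨hp, hd, -⟩ := Nat.mem_primeFactors.1 (Finset.mem_filter.1 h).1
  have ho := upKubA_dvd h
  have h0 := addOrderOf_pos b
  have e := hW l hp hd b
  rw [← Finset.add_sum_erase _ _ (P.MP_e12fcd_ag.Fermat.mem_tors.2 (mul_zero _)), add_zero,
    Finset.sum_eq_zero, add_zero, ih _ _ ((l : ZMod M) * b) rfl] at e
  · exact e
  · have h1 : addOrderOf ((l : ZMod M) * b) < addOrderOf b := by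
      rw [← nsmul_eq_mul, addOrderOf_nsmul_of_dvd hp.ne_zero ho]
      exact Nat.div_lt_self h0 hp.one_lt
    have := Nat.mul_le_mul_right (M.primeFactors.card + 1) (Nat.succ_le_of_lt h1)
    have := hc ((l : ZMod M) * b)
    rw [Nat.succ_mul] at *
    omega
  · intro z hz
    obtain ⟨hz0, hz⟩ := Finset.mem_erase.1 hz
    rw [P.MP_e12fcd_ag.Fermat.mem_tors] at hz
    refine ih _ ?_ _ rfl
    have h1 : addOrderOf (b + z) ≤ addOrderOf b := Nat.le_of_dvd h0
      (addOrderOf_dvd_of_nsmul_eq_zero (by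
        rw [nsmul_add, addOrderOf_nsmul_eq_zero, zero_add]
        obtain ⟨c, hc⟩ := ho
        rw [hc, nsmul_eq_mul, Nat.cast_mul, mul_right_comm, hz, zero_mul]))
    have := Nat.mul_le_mul_right (M.primeFactors.card + 1) h1
    have := (Finset.card_le_card (upKubA_ssub h hz hz0)).trans_lt (Finset.card_erase_lt_of_mem h)
    omega

end Pool.Agent.Tate
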