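import Pool.Agent.P.MP_2ce3e7_ag.SpecA

/-! Valuations of Gauss sums. -/

set_option autoImplicit false

noncomputable section

namespace Pool.Agent.Tate

open Pool.Agent.P.MP_3c83d0_ag

theorem upStA_val {L Ω : Type} [Field L] [Field Ω] (P : Place L Ω) :
    ∃ V : ValuationSubring L, (∀ x y, P.To x y → V.valuation x ≤ 1) ∧
      (∀ x y, P.To x y → y ≠ 0 → V.valuation x = 1) ∧ ∀ x, P.To x 0 → V.valuation x < 1 := by
  let V : ValuationSubring L := { toSubring := P.O, mem_or_inv_mem' := P.tot }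
  have h1 : ∀ x y, P.To x y → V.valuation x ≤ 1 := fun x y h =>
    (V.valuation_le_one_iff x).2 h.mem
  refine ⟨V, h1, fun x y h hy => ?_, fun x h => ?_⟩
  · have h2 := h1 _ _ (h.inv hy)
    have hx : V.valuation x ≠ 0 := (map_ne_zero _).2 (h.ne_zero hy)
    rw [map_inv₀, inv_le_one₀ (zero_lt_iff.2 hx)] at h2
    exact le_antisymm (h1 _ _ h) h2
  · refine lt_of_le_of_ne (h1 _ _ h) fun e => ?_
    have hx : x ≠ 0 := by
      rintro rfl
      rw [map_zero] at e
      exact zero_ne_one e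
    have h2 : x⁻¹ ∈ P.O := (V.valuation_le_one_iff x⁻¹).1 (by rw [map_inv₀, e, inv_one])
    obtain ⟨z, hz⟩ := Place.to_of_mem h2
    have h3 := h.mul hz
    rw [mul_inv_cancel₀ hx, zero_mul] at h3
    exact one_ne_zero (Place.to_one.uniq h3)

theorem upStA_tele (p n A k : ℕ) :
    p * ∑ s ∈ Finset.range k, p ^ s * A % n + A % n =
      ∑ s ∈ Finset.range k, p ^ s * A % n + p ^ k * A % n +
        n * ∑ s ∈ Finset.range k, p * (p ^ s * A % n) / n := by
  induction k with
  | zero => simp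
  | succ k ih =>
    rw [Finset.sum_range_succ, Finset.sum_range_succ]
    have h1 := Nat.mod_add_div (p * (p ^ k * A % n)) n
    have h2 : p * (p ^ k * A % n) % n = p ^ (k + 1) * A % n := by
      rw [Nat.mul_mod_mod, pow_succ', mul_assoc]
    rw [h2] at h1
    rw [mul_add, mul_add]
    omega

theorem upStA_div (p n A k : ℕ) (hn : 0 < n) :
    p ^ (k + 1) * A / n = p * (p ^ k * A / n) + p * (p ^ k * A % n) / n := by
  have h1 : p ^ (k + 1) * A = p * (p ^ k * A % n) + n * (p * (p ^ k * A / n)) := by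
    conv_lhs => rw [pow_succ', mul_assoc, ← Nat.mod_add_div (p ^ k * A) n]
    ring
  rw [h1, Nat.add_mul_div_left _ _ hn, add_comm]

/-- lower bound from the digits -/
theorem upStA_digits {p f n : ℕ} (hp : 1 < p) (hn : n + 1 = p ^ f) (good : ℕ → ℕ → Prop)
    (h0 : good 0 0) (hs : ∀ B s, B + 1 < n → good B s → good (B + 1) (s + 1))
    (hm : ∀ B s, good B s → good (p * B) s) {A : ℕ} (hA : A < n) :
    ∃ c, good A c ∧ n * c = (p - 1) * ∑ s ∈ Finset.range f, p ^ s * A % n := by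
  have hn0 : 0 < n := by omega
  have hadd : ∀ j B s, B + j < n → good B s → good (B + j) (s + j) := by
    intro j
    induction j with
    | zero => intro B s _ h; exact h
    | succ j ih => intro B s h1 h; exact hs _ _ h1 (ih B s (by omega) h)
  have hf : p ^ f * A / n = A := by
    rw [← hn, add_mul, one_mul, add_comm, Nat.add_mul_div_left _ _ hn0, Nat.div_eq_of_lt hA,
      zero_add]
  have hf' : p ^ f * A % n = A % n := by
    rw [← hn, add_mul, one_mul, add_comm, Nat.add_mul_mod_self_left]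
  have key : ∀ k, k ≤ f →
      good (p ^ k * A / n) (∑ s ∈ Finset.range k, p * (p ^ s * A % n) / n) := by
    intro k
    induction k with
    | zero =>
      intro _
      rw [pow_zero, one_mul, Nat.div_eq_of_lt hA, Finset.sum_range_zero]
      exact h0
    | succ k ih =>
      intro hk
      have h1 : p ^ (k + 1) * A / n ≤ p ^ f * A / n :=
        Nat.div_le_div_right (Nat.mul_le_mul_right _ (Nat.pow_le_pow_right (by omega) hk))
      rw [hf, upStA_div p n A k hn0] at h1
      rw [upStA_div p n A k hn0, Finset.sum_range_succ]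
      exact hadd _ _ _ (by omega) (hm _ _ (ih (by omega)))
  refine ⟨_, hf ▸ key f le_rfl, ?_⟩
  have h2 := upStA_tele p n A f
  rw [hf'] at h2
  obtain ⟨r, rfl⟩ : ∃ r, p = r + 1 := ⟨p - 1, by omega⟩
  rw [Nat.add_sub_cancel]
  rw [add_mul, one_mul] at h2
  omega

theorem upStA_compl {p f n A : ℕ} (hf : f ≠ 0) (hn : n + 1 = p ^ f) (h0 : 0 < A) (hA : A < n) :
    ∑ s ∈ Finset.range f, p ^ s * A % n + ∑ s ∈ Finset.range f, p ^ s * (n - A) % n = f * n := by
  have hc : n.Coprime p := by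
    have h1 : n.Coprime (p ^ f) := by
      rw [← hn]
      simp
    exact h1.coprime_dvd_right (dvd_pow_self p hf)
  rw [← Finset.sum_add_distrib, Finset.sum_congr rfl (g := fun _ => n), Finset.sum_const,
    Finset.card_range, smul_eq_mul]
  intro s _
  have h1 : p ^ s * A % n ≠ 0 := fun e =>
    absurd (Nat.le_of_dvd h0 ((hc.pow_right s).dvd_of_dvd_mul_left (Nat.dvd_of_mod_eq_zero e)))
      (by omega)
  have h2 : n ∣ p ^ s * A % n + p ^ s * (n - A) % n := by
    apply Nat.dvd_of_mod_eq_zero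
    rw [← Nat.add_mod, ← mul_add, Nat.add_sub_cancel' hA.le, Nat.mul_mod_left]
  have h3 := Nat.mod_lt (p ^ s * A) (show 0 < n by omega)
  have h4 := Nat.mod_lt (p ^ s * (n - A)) (show 0 < n by omega)
  obtain ⟨k, hk⟩ := h2
  have h5 : k = 1 := by
    rcases k with _ | _ | k
    · omega
    · rfl
    · exfalso
      nlinarith
  rw [hk, h5, mul_one]

/-- the additive character given by the trace -/
theorem upStA_trace {F : Type} [Field F] [Fintype F] {p f : ℕ} [Fact p.Prime]
    (hF : Fintype.card F = p ^ f) {ξ : ℂ} (hξ : IsPrimitiveRoot ξ p) :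
    ∃ (ψ : AddChar F ℂ) (t : F → ℕ), ψ.IsPrimitive ∧ (∀ u, ψ u = ξ ^ t u) ∧
      (∀ u, ψ (u ^ p) = ψ u) ∧ ∀ u, (t u : F) = ∑ h ∈ Finset.range f, u ^ p ^ h := by
  haveI : CharP F p := charP_of_card_eq_prime_pow hF
  letI : Algebra (ZMod p) F := ZMod.algebra _ _
  have hp : p.Prime := Fact.out
  have hr : Module.finrank (ZMod p) F = f := by
    have h1 := Module.card_eq_pow_finrank (K := ZMod p) (V := F)
    rw [hF, ZMod.card] at h1
    exact (Nat.pow_right_injective hp.two_le h1).symm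
  refine ⟨(AddChar.zmodChar p hξ.pow_eq_one).compAddMonoidHom
    (Algebra.trace (ZMod p) F).toAddMonoidHom, fun u => (Algebra.trace (ZMod p) F u).val,
    ?_, fun u => rfl, fun u => ?_, fun u => ?_⟩
  · refine AddChar.IsPrimitive.of_ne_one (AddChar.ne_one_iff.2 ?_)
    obtain ⟨a, ha⟩ := Algebra.trace_surjective (ZMod p) F 1
    refine ⟨a, ?_⟩
    change ξ ^ (Algebra.trace (ZMod p) F a).val ≠ 1
    rw [ha, ZMod.val_one, pow_one]
    exact hξ.ne_one hp.one_lt
  · have h1 := Algebra.trace_eq_of_algEquiv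
      (FiniteField.frobeniusAlgEquivOfAlgebraic (ZMod p) F) u
    rw [FiniteField.coe_frobeniusAlgEquivOfAlgebraic, ZMod.card] at h1
    change ξ ^ (Algebra.trace (ZMod p) F (u ^ p)).val = ξ ^ (Algebra.trace (ZMod p) F u).val
    rw [← h1]
  · have h1 := FiniteField.algebraMap_trace_eq_sum_pow (ZMod p) F u
    rw [hr, Nat.card_zmod] at h1
    rw [← h1, ← map_natCast (algebraMap (ZMod p) F), ZMod.natCast_zmod_val]

theorem upStA_sum {F : Type} [Field F] [Fintype F] {p f : ℕ} (hp : 1 < p) (hf : f ≠ 0)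
    (h2 : 2 < Fintype.card F) (hF : Fintype.card F = p ^ f) :
    ∑ u : F, u⁻¹ * ∑ h ∈ Finset.range f, u ^ p ^ h = -1 := by
  classical
  have h1 : ∀ h : ℕ, ∑ u : F, u⁻¹ * u ^ p ^ h =
      if Fintype.card F - 1 ∣ p ^ h - 1 then -1 else 0 := by
    intro h
    rw [← FiniteField.sum_pow_units F (p ^ h - 1),
      ← Finset.sum_subset (Finset.subset_univ (Finset.univ.map ⟨Units.val, Units.val_injective⟩)),
      Finset.sum_map]
    · refine Finset.sum_congr rfl fun x _ => ?_
      have h3 : 0 < p ^ h := by positivity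
      change (x : F)⁻¹ * (x : F) ^ p ^ h = _
      conv_lhs => rw [show p ^ h = (p ^ h - 1) + 1 by omega, pow_succ']
      rw [← mul_assoc, inv_mul_cancel₀ x.ne_zero, one_mul]
    · intro x _ hx
      have h3 : x = 0 := by
        by_contra h0
        exact hx (Finset.mem_map.2 ⟨Units.mk0 x h0, Finset.mem_univ _, rfl⟩)
      rw [h3, inv_zero, zero_mul]
  simp only [Finset.mul_sum]
  rw [Finset.sum_comm, Finset.sum_congr rfl fun h _ => h1 h,
    Finset.sum_eq_single_of_mem 0 (Finset.mem_range.2 (Nat.pos_of_ne_zero hf))]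
  · simp
  · intro h hh h0
    rw [if_neg]
    intro hd
    have h3 : 1 < p ^ h := Nat.one_lt_pow h0 hp
    have h4 : p ^ h < p ^ f := Nat.pow_lt_pow_right hp (Finset.mem_range.1 hh)
    have h5 := Nat.le_of_dvd (by omega) hd
    omega

variable {F : Type} [Field F] [Fintype F] {p f : ℕ} [Fact p.Prime] (hF : Fintype.card F = p ^ f)
include hF

/-- Stickelberger's theorem -/
theorem stick_gauss (h2 : 2 < Fintype.card F) {γ : F}
    (hγ : IsPrimitiveRoot γ (Fintype.card F - 1)) {ω : MulChar F ℂ}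
    (hω : IsPrimitiveRoot (ω γ) (Fintype.card F - 1)) :
    ∃ (V : ValuationSubring ℂ) (ρ : V.ValueGroup) (ψ : AddChar F ℂ), ρ ≠ 0 ∧ ρ < 1 ∧
      V.valuation (p : ℂ) = ρ ^ (p - 1) ∧
      (∀ A : ℕ, V.valuation (gaussSum (ω ^ A) ψ) ≠ 0) ∧
      ∀ A : ℕ, A < Fintype.card F - 1 →
        V.valuation (gaussSum (ω ^ A) ψ) ^ (Fintype.card F - 1) =
          ρ ^ ((p - 1) * ∑ s ∈ Finset.range f, p ^ s * A % (Fintype.card F - 1)) := by
  classical
  have hp : p.Prime := Fact.out
  haveI : CharP F p := charP_of_card_eq_prime_pow hF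
  have hf : f ≠ 0 := by
    rintro rfl
    rw [pow_zero] at hF
    omega
  have hsum := upStA_sum hp.one_lt hf h2 hF
  have hωn : ω ^ (Fintype.card F - 1) = 1 := by
    rw [← Fintype.card_units]
    exact ω.pow_card_eq_one
  have hpow : ∀ u : F, u ≠ 0 → u ^ (Fintype.card F - 1) = 1 := fun u hu =>
    FiniteField.pow_card_sub_one_eq_one u hu
  obtain ⟨n, hn⟩ : ∃ n, n = Fintype.card F - 1 := ⟨_, rfl⟩
  rw [← hn] at hγ hω hωn hpow ⊢
  have hn1 : n + 1 = p ^ f := by omega
  have hn2 : 1 < n := by omega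
  haveI : NeZero n := ⟨by omega⟩
  have hγ0 : γ ≠ 0 := hγ.ne_zero (by omega)
  let Ω := AlgebraicClosure F
  let ι : F →+* Ω := algebraMap F Ω
  obtain ⟨P, hP⟩ := exists_place_rt (m := n) (L := ℂ) (Ω := Ω) ⟨ω γ, hω⟩
    ⟨ι γ⁻¹, hγ.inv.map_of_injective ι.injective⟩
  have hP' : P.To (ω γ) (ι γ⁻¹) := hP
  have hto : ∀ u : F, P.To (ω u) (ι u⁻¹) := by
    intro u
    by_cases hu : u = 0
    · rw [hu, inv_zero, MulChar.map_zero, map_zero]
      exact Place.to_zero
    · obtain ⟨j, -, rfl⟩ := hγ.eq_pow_of_pow_eq_one (hpow u hu)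
      rw [map_pow, ← inv_pow, map_pow]
      exact hP'.pow j
  have htoA : ∀ (A : ℕ) (u : F), ∃ y, P.To ((ω ^ A) u) y := by
    intro A u
    by_cases hu : u = 0
    · exact ⟨0, by rw [hu, MulChar.map_zero]; exact Place.to_zero⟩
    · have h1 := MulChar.pow_apply_coe ω A (Units.mk0 u hu)
      rw [Units.val_mk0] at h1
      exact ⟨_, by rw [h1]; exact (hto u).pow A⟩
  have hne : ∀ A, 0 < A → A < n → ω ^ A ≠ 1 := by
    intro A h0 hA e
    have h1 := MulChar.pow_apply_coe ω A (Units.mk0 γ hγ0)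
    rw [e, MulChar.one_apply_coe, Units.val_mk0] at h1
    exact hω.pow_ne_one_of_pos_of_lt h0.ne' hA h1.symm
  obtain ⟨V, hV1, hV2, hV3⟩ := upStA_val P
  have hξ := Complex.isPrimitiveRoot_exp p hp.ne_zero
  generalize Complex.exp (2 * Real.pi * Complex.I / p) = ξ at hξ
  obtain ⟨ψ, t, hψ, hψt, hψp, ht⟩ := upStA_trace hF hξ
  have hψ1 : ψ ≠ 1 := by
    have h1 := hψ (one_ne_zero (α := F))
    rwa [AddChar.mulShift_one] at h1
  have hξ1 : P.To ξ 1 := by
    obtain ⟨y, hy, hy1⟩ := Place.To.of_pow (P := P) (x := ξ) (y := 1) hp.ne_zero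
      (by rw [hξ.pow_eq_one]; exact Place.to_one)
    have h1 : (y - 1) ^ p = 0 := by rw [sub_pow_char, hy1, one_pow, sub_self]
    rwa [sub_eq_zero.1 (pow_eq_zero_iff hp.ne_zero |>.1 h1)] at hy
  have hG : ∀ j : ℕ, P.To (∑ i ∈ Finset.range j, ξ ^ i) (j : Ω) := by
    intro j
    have h1 := Place.to_sum (P := P) (Finset.range j) (f := fun i => ξ ^ i) (g := fun _ => 1)
      fun i _ => by simpa using hξ1.pow i
    simpa using h1
  have hρ0 : V.valuation (ξ - 1) ≠ 0 :=
    (map_ne_zero _).2 (sub_ne_zero.2 (hξ.ne_one hp.one_lt))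
  have hρ1 : V.valuation (ξ - 1) < 1 := hV3 _ (by simpa using hξ1.sub Place.to_one)
  have hvp : V.valuation (p : ℂ) = V.valuation (ξ - 1) ^ (p - 1) := by
    have h1 : IsPrimitiveRoot ξ (p - 1 + 1) := by rwa [Nat.sub_add_cancel hp.one_le]
    have h3 := h1.prod_one_sub_pow_eq_order
    have h4 : ((p - 1 : ℕ) : ℂ) + 1 = p := by
      rw [← Nat.cast_succ, Nat.succ_eq_add_one, Nat.sub_add_cancel hp.one_le]
    rw [h4] at h3
    rw [← h3, map_prod, Finset.prod_congr rfl (g := fun _ => V.valuation (ξ - 1)),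
      Finset.prod_const, Finset.card_range]
    intro k hk
    have h5 : ((k + 1 : ℕ) : Ω) ≠ 0 := by
      rw [Ne, CharP.cast_eq_zero_iff Ω p]
      intro hd
      have := Nat.le_of_dvd (Nat.succ_pos k) hd
      have := Finset.mem_range.1 hk
      omega
    rw [← neg_sub, Valuation.map_neg, ← geom_sum_mul, map_mul, hV2 _ _ (hG (k + 1)) h5, one_mul]
  have hg0 : V.valuation (gaussSum (ω ^ 0) ψ) = 1 := by
    rw [pow_zero, gaussSum_one_left hψ1, Valuation.map_neg, map_one]
  have hg1 : V.valuation (gaussSum ω ψ) = V.valuation (ξ - 1) := by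
    have h1 : gaussSum ω ψ = (∑ u, ω u * ∑ i ∈ Finset.range (t u), ξ ^ i) * (ξ - 1) := by
      have h3 : ∑ u, ω u = 0 := ω.sum_eq_zero_of_ne_one (by simpa using hne 1 one_pos hn2)
      rw [Finset.sum_mul]
      simp only [mul_assoc, geom_sum_mul]
      simp only [← hψt, mul_sub, mul_one, Finset.sum_sub_distrib, h3, sub_zero, gaussSum]
    have h4 := Place.to_sum (P := P) Finset.univ
      (f := fun u => ω u * ∑ i ∈ Finset.range (t u), ξ ^ i) (g := fun u => ι u⁻¹ * (t u : Ω))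
      fun u _ => (hto u).mul (hG (t u))
    have h5 : ∑ u : F, ι u⁻¹ * (t u : Ω) = -1 := by
      rw [← map_one ι, ← map_neg, ← hsum, map_sum]
      refine Finset.sum_congr rfl fun u _ => ?_
      rw [← ht, map_mul, map_natCast]
    rw [h5] at h4
    rw [h1, map_mul, hV2 _ _ h4 (neg_ne_zero.2 one_ne_zero), one_mul]
  have hgp : ∀ B, gaussSum (ω ^ (p * B)) ψ = gaussSum (ω ^ B) ψ := by
    intro B
    refine Fintype.sum_bijective (frobenius F p)
      (Finite.injective_iff_bijective.1 (frobenius F p).injective) _ _ fun u => ?_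
    rw [frobenius_def, hψp, pow_mul', MulChar.pow_apply' _ hp.ne_zero, map_pow]
  have hgs : ∀ B, B + 1 < n → V.valuation (gaussSum (ω ^ B) ψ) * V.valuation (ξ - 1) ≤
      V.valuation (gaussSum (ω ^ (B + 1)) ψ) := by
    intro B hB
    have h1 : ω ^ B * ω ≠ 1 := by
      rw [← pow_succ]
      exact hne _ (Nat.succ_pos B) hB
    have h3 := congrArg V.valuation (jacobiSum_mul_nontrivial h1 ψ)
    rw [map_mul, map_mul, hg1, ← pow_succ] at h3
    choose y hy using htoA B
    have h4 := Place.to_sum (P := P) Finset.univ (f := fun u => (ω ^ B) u * ω (1 - u))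
      (g := fun u => y u * ι (1 - u)⁻¹) fun u _ => (hy u).mul (hto (1 - u))
    rw [← h3]
    exact mul_le_of_le_one_right' (hV1 _ _ h4)
  have hlow : ∀ A, A < n → V.valuation (ξ - 1) ^ ((p - 1) * ∑ s ∈ Finset.range f, p ^ s * A % n) ≤
      V.valuation (gaussSum (ω ^ A) ψ) ^ n := by
    intro A hA
    obtain ⟨c, hc, hc'⟩ := upStA_digits hp.one_lt hn1
      (fun B s => V.valuation (ξ - 1) ^ s ≤ V.valuation (gaussSum (ω ^ B) ψ))
      (by rw [hg0, pow_zero]) (fun B s hB h => by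
        rw [pow_succ]
        exact (mul_le_mul_left h _).trans (hgs B hB)) (fun B s h => by rw [hgp]; exact h) hA
    rw [← hc', pow_mul']
    exact pow_le_pow_left' hc n
  refine ⟨V, V.valuation (ξ - 1), ψ, hρ0, hρ1, hvp, fun A => (map_ne_zero _).2 ?_, fun A hA => ?_⟩
  · by_cases h1 : ω ^ A = 1
    · rw [h1, gaussSum_one_left hψ1]
      exact neg_ne_zero.2 one_ne_zero
    · exact gaussSum_ne_zero_of_nontrivial (Nat.cast_ne_zero.2 (by omega)) h1 hψ
  · rcases Nat.eq_zero_or_pos A with rfl | h0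
    · rw [hg0]
      simp
    have h1 : ω ^ (n - A) = (ω ^ A)⁻¹ := by
      refine eq_inv_of_mul_eq_one_left ?_
      rw [← pow_add, Nat.sub_add_cancel hA.le, hωn]
    have h3 : V.valuation ((ω ^ A)⁻¹ (-1)) = 1 := by
      have h4 : (ω ^ A)⁻¹ (-1) * (ω ^ A)⁻¹ (-1) = 1 := by
        rw [← map_mul, neg_mul_neg, one_mul, map_one]
      rcases mul_self_eq_one_iff.1 h4 with e | e
      · rw [e, map_one]
      · rw [e, Valuation.map_neg, map_one]
    have h4 : V.valuation (gaussSum (ω ^ A) ψ) * V.valuation (gaussSum (ω ^ (n - A)) ψ) =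
        V.valuation (ξ - 1) ^ ((p - 1) * f) := by
      rw [h1, ← mul_gaussSum_inv_eq_gaussSum (ω ^ A)⁻¹, map_mul, h3, one_mul, ← map_mul,
        gaussSum_mul_gaussSum_eq_card (hne A h0 hA) hψ, hF, Nat.cast_pow, map_pow, hvp, pow_mul]
    have h5 := hlow A hA
    have h6 := hlow (n - A) (by omega)
    refine le_antisymm (not_lt.1 fun hlt => ?_) h5
    have h7 := (mul_lt_mul_of_pos_right hlt (zero_lt_iff.2 (pow_ne_zero
      ((p - 1) * ∑ s ∈ Finset.range f, p ^ s * (n - A) % n) hρ0))).trans_le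
      (mul_le_mul_right h6 _)
    rw [← pow_add, ← mul_add, upStA_compl hf hn1 h0 hA, ← mul_pow, h4, ← pow_mul, mul_assoc] at h7
    exact lt_irrefl _ h7

end Pool.Agent.Tate
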