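import Pool.Agent.P.MP_2ce3e7_ag.UpKub
import Pool.Agent.P.MP_2ce3e7_ag.UpCaseT
import Pool.Agent.P.MP_2ce3e7_ag.UpAlg

/-! The prime two: products of two Euler factors. -/

set_option autoImplicit false

noncomputable section

namespace Pool.Agent.Tate

variable {p M : ℕ} [NeZero M]

/-- the sum of the types of a family, twisted by `u` -/
def XT {M : ℕ} {ι : Type} [Fintype ι] (a : ι → Ch M) (u : ZMod M) : (ZMod M)ˣ → ℤ :=
  ∑ i, ty (u • a i)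

omit [NeZero M] in
theorem XT_apply {ι : Type} [Fintype ι] (a : ι → Ch M) (u : ZMod M) (s t : (ZMod M)ˣ) :
    XT a ((s : ZMod M) * u) t = XT a u (t * s) := by
  simp only [XT, Finset.sum_apply, ty, th, Pi.add_apply, Pi.sub_apply, Prod.smul_fst,
    Prod.smul_snd, smul_eq_mul, Units.val_mul, mul_add, mul_assoc]

theorem XT_neg {ι : Type} [Fintype ι] (a : ι → Ch M) (u : ZMod M) : XT a (-u) = -XT a u := by
  simp only [XT, neg_smul, ty_neg, Finset.sum_neg_distrib]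

theorem ty_sub_mem (hpM : p.Coprime M) {c : Ch M} (hc : Nd c) (s : ℕ) :
    ty c - ty ((p : ZMod M) ^ s • c) ∈ XD p M := by
  induction s with
  | zero => simp
  | succ s ih =>
    have h1 : ty ((p : ZMod M) ^ s • c) - ty ((p : ZMod M) • (p : ZMod M) ^ s • c) ∈ XD p M :=
      AddSubgroup.subset_closure
        ⟨_, hc.smul (((ZMod.isUnit_iff_coprime p M).2 hpM).pow s), rfl⟩
    rw [pow_succ', mul_smul]
    simpa using add_mem ih h1

/-- the parity of the values -/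
theorem XT_dvd {ι : Type} [Fintype ι] {a : ι → Ch M} (ha : ∀ i, Nd (a i)) (s t : (ZMod M)ˣ) :
    (2 * M : ℤ) ∣ XT a s t + M * Fintype.card ι := by
  have e : XT a s t + M * Fintype.card ι = ∑ i, (ty ((s : ZMod M) • a i) t + M) := by
    rw [Finset.sum_add_distrib, XT, Finset.sum_apply, Finset.sum_const, Finset.card_univ,
      nsmul_eq_mul, mul_comm]
  rw [e]
  refine Finset.dvd_sum fun i _ => ?_
  rw [ty_apply ((ha i).smul s.isUnit)]
  split_ifs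
  · simp
  · exact ⟨1, by ring⟩

theorem good_of_XD (hM : Adm M) (hpM : p.Coprime M) {y : (ZMod M)ˣ → ℤ} (h : y ∈ XD p M) :
    Good p y := by
  exact ⟨M, dvd_refl M, NeZero.ne M, hM, hpM, by rwa [lam_refl]⟩

theorem goodT (hM : Adm M) (hp : p.Prime) (hpM : p.Coprime M) {n : ℕ} (hn : Odd n)
    (h2 : (p : ZMod M) ^ (2 * n) = 1) {ι : Type} [Fintype ι] {a : ι → Ch M} (ha : ∀ i, Nd (a i))
    (h : XT a 1 + XT a ((p : ZMod M) ^ n) = 0) (s₁ s₂ : (ZMod M)ˣ) :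
    ∃ l : ℕ, Odd l ∧ Good p (l • (XT a 1 + XT a ((s₁ : ZMod M) ^ 2) + XT a ((s₂ : ZMod M) ^ 2) +
      XT a ((s₁ : ZMod M) ^ 2 * (s₂ : ZMod M) ^ 2))) := by
  have hM0 := Nat.pos_of_ne_zero (NeZero.ne M)
  obtain ⟨r₁, p₁, b₁, m₁, e₁, q₁, c₁⟩ := exists_leg_prime hM0.ne' hp hpM s₁ false (M + p)
  obtain ⟨r₂, p₂, b₂, m₂, e₂, q₂, c₂⟩ := exists_leg_prime hM0.ne' hp hpM s₂ true r₁
  have := Fact.mk p₁
  have := Fact.mk p₂
  have hp0 := hp.pos
  have n₁ : ¬ r₁ ∣ p := Nat.not_dvd_of_pos_of_lt hp0 (by omega)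
  have n₂ : ¬ r₂ ∣ p := Nat.not_dvd_of_pos_of_lt hp0 (by omega)
  have z₁ : (p : ZMod r₁) ≠ 0 := fun h => n₁ ((ZMod.natCast_eq_zero_iff _ _).1 h)
  have z₂ : (p : ZMod r₂) ≠ 0 := fun h => n₂ ((ZMod.natCast_eq_zero_iff _ _).1 h)
  have o₁ : Odd (r₁ / 2) := Nat.odd_iff.2 (by omega)
  have o₂ : Odd (r₂ / 2) := Nat.odd_iff.2 (by omega)
  have d₁ : ((p ^ (r₁ / 2 * (r₂ / 2 * n)) : ℕ) : ZMod r₁) = -1 := by
    have h1 := (ZMod.pow_div_two_eq_neg_one_or_one r₁ z₁).resolve_left fun h1 =>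
      Bool.false_ne_true (c₁.1 ((ZMod.euler_criterion r₁ z₁).2 h1))
    rw [Nat.cast_pow, pow_mul, h1, (o₂.mul hn).neg_one_pow]
  have d₂ : ((p ^ (r₁ / 2 * (r₂ / 2 * n)) : ℕ) : ZMod r₂) = 1 := by
    rw [Nat.cast_pow, mul_left_comm, pow_mul, (ZMod.euler_criterion r₂ z₂).1 (c₂.2 rfl), one_pow]
  have d₃ : ((p ^ (r₁ / 2 * (r₂ / 2 * n)) : ℕ) : ZMod M) = (p : ZMod M) ^ n := by
    obtain ⟨k, hk⟩ := o₁.mul o₂
    rw [Nat.cast_pow, ← mul_assoc, hk, show (2 * k + 1) * n = 2 * n * k + n by ring, pow_add,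
      pow_mul, h2, one_pow, one_mul]
  obtain ⟨L, hL⟩ : ∃ L, L = M * r₁ * r₂ := ⟨_, rfl⟩
  have : NeZero L := ⟨hL ▸ mul_ne_zero (mul_ne_zero hM0.ne' p₁.ne_zero) p₂.ne_zero⟩
  have hML : M ∣ L := hL ▸ (dvd_mul_right M r₁).mul_right r₂
  have hpL : p.Coprime L := hL ▸
    (hpM.mul_right ((Nat.Prime.coprime_iff_not_dvd p₁).2 n₁).symm).mul_right
      ((Nat.Prime.coprime_iff_not_dvd p₂).2 n₂).symm
  have hA : Adm L := fun q hq hd => by
    rw [hL] at hd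
    rcases (Nat.Prime.dvd_mul hq).1 hd with hd | hd
    · rcases (Nat.Prime.dvd_mul hq).1 hd with hd | hd
      · exact hM q hq hd
      · exact Or.inr ((Nat.prime_dvd_prime_iff_eq hq p₁).1 hd ▸ m₁)
    · exact Or.inr ((Nat.prime_dvd_prime_iff_eq hq p₂).1 hd ▸ m₂)
  have hinv : ∀ (k : ℕ) (y : ZMod L), QuotientAddGroup.mk' (TD p L) (th (((p ^ k : ℕ) : ZMod L) * y))
      = QuotientAddGroup.mk' (TD p L) (th y) := fun k y => by
    induction k with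
    | zero => rw [pow_zero, Nat.cast_one, one_mul]
    | succ k ih => rw [pow_succ', Nat.cast_mul, mul_assoc, upAlg_inv, ih]
  obtain ⟨W, hW, hWb⟩ := caseT p₁ p₂ b₂.ne hL (Nat.not_dvd_of_pos_of_lt hM0 (by omega))
    (Nat.not_dvd_of_pos_of_lt hM0 (by omega)) m₁ m₂ (fun d hd hdM => ⟨q₁ d hd hdM, q₂ d hd hdM⟩)
    d₁ d₂ (dist_th.map (QuotientAddGroup.mk' (TD p L))) (hinv _)
  have hX : ∀ u : ZMod M, XT a u = ∑ x : ι × Fin 3, th (u * ex3 (a x.1) x.2) := fun u => by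
    simp only [XT, ty_eq_sum, ex3_smul, Fintype.sum_prod_type]
  have h3 := e_zero (b := fun x : ι × Fin 3 => ex3 (a x.1) x.2) (κ := (p : ZMod M) ^ n)
    (by simpa only [hX, one_mul] using h) hW
  rw [← d₃, ← Finset.sum_congr rfl fun x _ => hWb _] at h3
  simp only [← lam_th hML, e₁, e₂, mul_neg, neg_mul, neg_neg, th_neg, map_neg, sub_neg_eq_add,
    Finset.sum_add_distrib] at h3
  have h4 : lam hML (XT a 1 + XT a ((s₁ : ZMod M) ^ 2) + XT a ((s₂ : ZMod M) ^ 2) +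
      XT a ((s₁ : ZMod M) ^ 2 * (s₂ : ZMod M) ^ 2)) ∈ TD p L := by
    rw [← QuotientAddGroup.eq_zero_iff, ← QuotientAddGroup.mk'_apply, ← h3]
    simp only [hX, one_mul, map_add, map_sum]
    abel
  obtain ⟨l, hl, h5⟩ := odd_mem_XD hpL h4 (by
    have k1 := XT_dvd ha 1 1
    have k2 := XT_dvd ha (s₁ ^ 2) 1
    have k3 := XT_dvd ha (s₂ ^ 2) 1
    have k4 := XT_dvd ha (s₁ ^ 2 * s₂ ^ 2) 1
    simp only [Units.val_one, Units.val_mul, Units.val_pow_eq_pow_val] at k1 k2 k3 k4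
    obtain ⟨t, ht⟩ := dvd_add (dvd_add (dvd_add k1 k2) k3) k4
    refine ⟨t - 2 * Fintype.card ι, ?_⟩
    show ((L / M : ℕ) : ℤ) * _ = _
    have eL : (L : ℤ) = ((L / M : ℕ) : ℤ) * M := by exact_mod_cast upDefs_eq hML
    rw [map_one]
    simp only [Pi.add_apply]
    linear_combination ((L / M : ℕ) : ℤ) * ht - 2 * (t - 2 * Fintype.card ι) * eL)
  exact ⟨l, hl, L, hML, NeZero.ne L, hA, hpL, by rwa [map_nsmul]⟩

end Pool.Agent.Tate
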