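import Pool.Agent.K.MP_e12fcd_ag.C326

set_option autoImplicit false

namespace Pool.Agent.P.MP_2ce3e7_ag.VariantFermatPowersTate

open Pool.Agent.Tate

theorem result (m p n j : ℕ) [Fact p.Prime] (hm : m ≠ 0)
    (hl : ∀ l : ℕ, l.Prime → l ∣ m → l % 4 = 1 →
      ∀ r : ℕ, r.Prime → r ∣ m → r ≠ l → (r = 2 → 4 ∣ m) → IsSquare (r : ZMod l))
    (hp : Set.Subsingleton
      {χ : DirichletCharacter ℂ m | (∃ e : ℕ, χ ^ 2 ^ e = 1) ∧ χ.Odd ∧ χ p ≠ 1})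
    (k : Type) [Field k] [Finite k] [CharP k p] (hk : Nat.card k ≡ 1 [MOD m]) :
    ∃ (Z : PowerSeries ℂ) (ρ : ℕ), PowerSeries.constantCoeff Z = 1 ∧
      PowerSeries.derivative ℂ Z =
        Z * PowerSeries.mk (fun s => (npts m n (FiniteField.Extension k p (s + 1)) : ℂ)) ∧
      (∃ P Q : Polynomial ℂ, P.eval ((Nat.card k : ℂ) ^ j)⁻¹ ≠ 0 ∧
        Q.eval ((Nat.card k : ℂ) ^ j)⁻¹ ≠ 0 ∧
        Z * (Q * (Polynomial.X - Polynomial.C ((Nat.card k : ℂ) ^ j)⁻¹) ^ ρ : Polynomial ℂ) = P) ∧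
      rk (fun (M : {M : GM m k (Fin n) // dimM M ≤ j})
        (N : {N : GM m k (Fin n) // dimM N + j ≤ n}) => pair M.1 N.1) = ρ := by
  have : NeZero m := ⟨hm⟩
  cases nonempty_fintype k
  obtain ⟨ζ⟩ := rt_of_card hk
  have : NeZero (m : k) := ⟨ζ.ne⟩
  exact final_A (ht_of_qr hl hp k ζ) p n j

end Pool.Agent.P.MP_2ce3e7_ag.VariantFermatPowersTate
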