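import Pool.Agent.P.MP_2ce3e7_ag.CDc

/-! The class of the power of the curve. -/

set_option autoImplicit false

noncomputable section

namespace Pool.Agent.Tate

open MeasureTheory Set Module Filter Topology Pool.Agent.Weil Pool.Agent.Ferm

/-- the real frame of the chart domain -/
theorem xch_frame (ι : Type) [Fintype ι] [DecidableEq ι] :
    ∃ ε : Basis (ι ⊕ ι) ℝ (ι → ℂ),
      ⇑ε = Sum.elim (fun l => Pi.single l 1) fun l => Pi.single l Complex.I := by
  let e : (ι → ℂ) ≃ₗ[ℝ] (ι ⊕ ι → ℝ) :=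
    { toFun := fun x => Sum.elim (fun l => (x l).re) fun l => (x l).im
      invFun := fun y l => ⟨y (Sum.inl l), y (Sum.inr l)⟩
      map_add' := fun x y => by ext (l | l) <;> simp
      map_smul' := fun r x => by ext (l | l) <;> simp
      left_inv := fun x => by ext l; simp
      right_inv := fun y => by ext (l | l) <;> simp }
  refine ⟨Basis.ofEquivFun e, ?_⟩
  rw [Basis.coe_ofEquivFun]
  ext1 a
  rw [LinearEquiv.symm_apply_eq]
  rcases a with l | l <;> ext (k | k) <;> by_cases h : k = l <;>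
    simp [e, h, Pi.single_apply]

/-- a chain whose density has a constant phase and does not vanish has a nonzero class -/
theorem xch_phase {V P ρ : Type} [NormedAddCommGroup V] [NormedSpace ℂ V] [FiniteDimensional ℂ V]
    [NormedAddCommGroup P] [NormedSpace ℂ P] [FiniteDimensional ℂ P] [MeasurableSpace P]
    [BorelSpace P] [Fintype ρ] [DecidableEq ρ] (μ : Measure P) [μ.IsAddHaarMeasure]
    {Λ : AddSubgroup V} (hΛ : IsLat Λ) (c : Chain V Λ P) (ε : Basis ρ ℝ P) (ξ : ρ → Cov V)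
    {K : ℂ} (hK : K ≠ 0)
    (hd : ∀ j, ∀ u ∈ c.U j, dens ε ξ (c.φ j) u = K * ((‖dens ε ξ (c.φ j) u‖ : ℝ) : ℂ))
    (j₀ : c.J) {u₀ : P} (hu₀ : u₀ ∈ c.U j₀) (h0 : dens ε ξ (c.φ j₀) u₀ ≠ 0) :
    ∃ T : Alt V ρ, c.IsClass μ ε T ∧ T ξ ≠ 0 := by
  obtain ⟨E, hE, hE0⟩ := exists_part c.chart (some j₀)
  obtain ⟨T, hT⟩ := c.exists_class μ hΛ ε hE
  refine ⟨T, ⟨E, hE, hT⟩, ?_⟩
  obtain ⟨hi, hs, hT⟩ := hT ξ
  have hI : ∀ j, ∫ u in E j, dens ε ξ (c.φ j) u ∂μ =
      K * ((∫ u in E j, ‖dens ε ξ (c.φ j) u‖ ∂μ : ℝ) : ℂ) := fun j => by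
    rw [← integral_complex_ofReal, ← integral_const_mul]
    exact setIntegral_congr_fun (hE.meas j) fun u hu => hd j u (hE.sub j hu)
  rw [hT]
  simp only [hI]
  rw [tsum_mul_left, ← Complex.ofReal_tsum]
  refine mul_ne_zero hK (Complex.ofReal_ne_zero.2 (ne_of_gt ?_))
  refine hs.tsum_pos (fun j => integral_nonneg fun u => norm_nonneg _) j₀ ?_
  rw [setIntegral_pos_iff_support_of_nonneg_ae (Eventually.of_forall fun u => norm_nonneg _)
    (hi j₀).norm, hE0 j₀ rfl]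
  have hm : ContinuousAt (fun u => Matrix.of fun a b => ξ a (fderiv ℂ (c.φ j₀) u (ε b))) u₀ :=
    continuousAt_pi.2 fun a => continuousAt_pi.2 fun b => (ξ a).continuous.continuousAt.comp
      ((c.an j₀ u₀ hu₀).fderiv.continuousAt.clm_apply continuousAt_const)
  have hcont : ContinuousAt (dens ε ξ (c.φ j₀)) u₀ :=
    (Continuous.matrix_det continuous_id).continuousAt.comp hm
  refine Measure.measure_pos_of_mem_nhds μ (x := u₀)
    (inter_mem ?_ ((c.chart j₀).isOpen.mem_nhds hu₀))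
  filter_upwards [hcont.eventually_ne h0] with u hu
  rw [Function.mem_support]
  exact norm_ne_zero_iff.2 hu

theorem xch_det {ι : Type} [Fintype ι] [DecidableEq ι] (a c s : ι → ℂ) :
    (Matrix.fromBlocks (Matrix.diagonal a) (Matrix.diagonal fun i => s i * a i)
      (Matrix.diagonal c) (Matrix.diagonal fun i => -s i * c i)).det =
      (∏ i, -2 * s i) * ∏ i, a i * c i := by
  have h : Matrix.fromBlocks (Matrix.diagonal a) (Matrix.diagonal fun i => s i * a i)
      (Matrix.diagonal c) (Matrix.diagonal fun i => -s i * c i) =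
      Matrix.fromBlocks (Matrix.diagonal a) 0 0 (Matrix.diagonal c) *
        Matrix.fromBlocks 1 (Matrix.diagonal s) 1 (Matrix.diagonal fun i => -s i) := by
    rw [Matrix.fromBlocks_multiply]
    simp [Matrix.diagonal_mul_diagonal, mul_comm]
  rw [h, Matrix.det_mul, Matrix.det_fromBlocks_zero₂₁, Matrix.det_fromBlocks_one₁₁, Matrix.one_mul,
    Matrix.diagonal_sub, Matrix.det_diagonal, Matrix.det_diagonal, Matrix.det_diagonal,
    ← Finset.prod_mul_distrib, mul_comm]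
  congr 1
  exact Finset.prod_congr rfl fun i _ => by ring

theorem xch_xi {m : ℕ} [NeZero m] {a : Ch m} (h : Nd a) :
    ∃ (s : ℂ) (p : FIdx m), ‖s‖ = 1 ∧ (starRingEnd ℂ) s = -s ∧ ∀ v,
      xi a.1 a.2 (Complex.I • v) = s * xi a.1 a.2 v ∧ ‖xi a.1 a.2 v‖ = ‖v p‖ := by
  have hp : ∀ x y : ZMod m, co x y ≠ 0 → ∃ p, ∀ v, co x y v = v p := fun x y hxy => by
    unfold co at hxy ⊢
    split_ifs at hxy ⊢ with h1
    · exact ⟨_, fun v => rfl⟩
    · exact absurd rfl hxy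
  by_cases hl : a.1.val + a.2.val < m
  · obtain ⟨h1, -, h2⟩ := xi_of_lt h hl
    obtain ⟨p, hp⟩ := hp _ _ h1
    refine ⟨Complex.I, p, by simp, by simp, fun v => ?_⟩
    rw [h2]
    change co a.1 a.2 (Complex.I • v) = Complex.I * co a.1 a.2 v ∧ ‖co a.1 a.2 v‖ = _
    rw [hp, hp]
    exact ⟨rfl, rfl⟩
  · obtain ⟨-, h1, h2⟩ := xi_of_not_lt h hl
    obtain ⟨p, hp⟩ := hp _ _ h1
    refine ⟨-Complex.I, p, by simp, by simp, fun v => ?_⟩
    rw [h2]
    change (starRingEnd ℂ) (co (-a.1) (-a.2) (Complex.I • v)) =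
      -Complex.I * (starRingEnd ℂ) (co (-a.1) (-a.2) v) ∧
      ‖(starRingEnd ℂ) (co (-a.1) (-a.2) v)‖ = _
    rw [hp, hp]
    simp

theorem CD.exists_class {m : ℕ} [NeZero m] (D : CD m) {ι : Type} [Fintype ι] [DecidableEq ι]
    {b : ι → Ch m} (hb : ∀ i, Nd (b i)) :
    ∃ (ε : Basis (ι ⊕ ι) ℝ (ι → ℂ)) (T : Alt (VS m ι) (ι ⊕ ι)), (D.Xc ι).IsClass volume ε T ∧
      T (Sum.elim (fun i => cov i (b i)) fun i => cov i (-b i)) ≠ 0 := by
  obtain ⟨ε, hε⟩ := xch_frame ι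
  choose s p hs1 hs2 hs using fun i => xch_xi (hb i)
  have hneg : ∀ i v, xi (-b i).1 (-b i).2 v = (starRingEnd ℂ) (xi (b i).1 (b i).2 v) :=
    fun i v => by rw [Prod.fst_neg, Prod.snd_neg, ← cj_xi, cj_apply]
  have hK : (∏ i, -2 * s i) ≠ 0 := Finset.prod_ne_zero_iff.2 fun i _ =>
    mul_ne_zero (by norm_num) (norm_ne_zero_iff.1 (by rw [hs1]; exact one_ne_zero))
  have hd : ∀ j, ∀ u ∈ Om m ι,
      dens ε (Sum.elim (fun i => cov i (b i)) fun i => cov i (-b i)) (D.GG j) u =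
        (∏ i, -2 * s i) * ((∏ i, ‖D.D (j i) (u i) (p i)‖ ^ 2 : ℝ) : ℂ) := fun j u hu => by
    have h1 : (Matrix.of fun x y => (Sum.elim (fun i => cov i (b i)) fun i => cov i (-b i)) x
        (fderiv ℂ (D.GG j) u (ε y))) =
        Matrix.fromBlocks (Matrix.diagonal fun i => xi (b i).1 (b i).2 (D.D (j i) (u i)))
          (Matrix.diagonal fun i => s i * xi (b i).1 (b i).2 (D.D (j i) (u i)))
          (Matrix.diagonal fun i => (starRingEnd ℂ) (xi (b i).1 (b i).2 (D.D (j i) (u i))))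
          (Matrix.diagonal fun i =>
            -s i * (starRingEnd ℂ) (xi (b i).1 (b i).2 (D.D (j i) (u i)))) := by
      have h2 : ∀ (i : ι) (a : Ch m) (v : VS m ι), cov i a v = xi a.1 a.2 (v i) := fun _ _ _ => rfl
      ext (x | x) (y | y) <;> by_cases h : x = y <;>
        simp only [Matrix.of_apply, Sum.elim_inl, Sum.elim_inr, D.fderiv_GG hu, hε, h2, CD.DD,
          Matrix.fromBlocks_apply₁₁, Matrix.fromBlocks_apply₁₂, Matrix.fromBlocks_apply₂₁,
          Matrix.fromBlocks_apply₂₂, Matrix.diagonal_apply, Pi.single_apply, h, if_true, if_false,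
          one_smul, zero_smul, map_zero, hneg, (hs _ _).1, map_mul, hs2]
    rw [dens, h1, xch_det]
    congr 1
    push_cast
    refine Finset.prod_congr rfl fun i _ => ?_
    rw [Complex.mul_conj', (hs _ _).2]
  choose j₀ u₀ hu₀ hne using fun i => D.ne (p i)
  obtain ⟨T, hT⟩ := xch_phase volume (isLat_LL m ι) (D.Xc ι) ε
    (Sum.elim (fun i => cov i (b i)) fun i => cov i (-b i))
    (K := (∏ i, -2 * s i) / ((‖∏ i, -2 * s i‖ : ℝ) : ℂ))
    (div_ne_zero hK (Complex.ofReal_ne_zero.2 (norm_ne_zero_iff.2 hK)))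
    (fun j u hu => by
      change dens ε _ (D.GG j) u = _ * ((‖dens ε _ (D.GG j) u‖ : ℝ) : ℂ)
      rw [hd j u hu, norm_mul, Complex.norm_real, Real.norm_of_nonneg (by positivity),
        Complex.ofReal_mul, ← mul_assoc,
        div_mul_cancel₀ _ (Complex.ofReal_ne_zero.2 (norm_ne_zero_iff.2 hK))])
    j₀ (u₀ := u₀) hu₀ (by
      change dens ε _ (D.GG j₀) u₀ ≠ 0
      rw [hd j₀ u₀ hu₀]
      exact mul_ne_zero hK (Complex.ofReal_ne_zero.2 (Finset.prod_ne_zero_iff.2 fun i _ =>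
        pow_ne_zero _ (norm_ne_zero_iff.2 (hne i)))))
  exact ⟨ε, T, hT⟩

end Pool.Agent.Tate
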